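import Mathlib

/-!
# MP_e0a489_pr: merged library part G01

Concatenation of library files (each in its own section), only to save build time.
-/

/-! ### from `Lib_MP_e0a489.Base` -/

section

/-!
# MP_e0a489: base definitions

Triangulated square grid: the sites are the points of `ℤ × ℤ`, every unit cell has exactly one
diagonal (pattern `ne`), a site is fair (`typ v = none`) or has a fixed state.
A configuration is a function `ℤ × ℤ → Bool` (`true` = open); the state of a site `v` is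
`L.st ω v`, the fixed state if there is one and `ω v` otherwise.
Bond percolation on `ℤ²` is the case `Z2` (doubled lattice): even-even points are always open,
odd-odd points are always closed, the other points are the edges.
-/

set_option autoImplicit false

namespace SC

open Classical

abbrev Pt := ℤ × ℤ

abbrev Cfg := Pt → Bool

/-- a lattice: diagonal pattern and types of the sites -/
structure Lat where
  /-- `true`: the cell with lower left corner `(i, j)` has the diagonal `(i,j) - (i+1,j+1)`;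
  `false`: it has the diagonal `(i+1,j) - (i,j+1)` -/
  ne : ℤ → ℤ → Bool
  /-- `none`: fair site, `some b`: the state is always `b` -/
  typ : Pt → Option Bool

namespace Lat

/-- adjacency (one step to the right or up, or along the diagonal of a cell), oriented version -/
def Adj1 (L : Lat) (u v : Pt) : Prop :=
  (v.1 = u.1 + 1 ∧ v.2 = u.2) ∨ (v.1 = u.1 ∧ v.2 = u.2 + 1) ∨
    (v.1 = u.1 + 1 ∧ v.2 = u.2 + 1 ∧ L.ne u.1 u.2 = true) ∨
    (v.1 = u.1 - 1 ∧ v.2 = u.2 + 1 ∧ L.ne v.1 u.2 = false)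

/-- adjacency -/
def Adj (L : Lat) (u v : Pt) : Prop := L.Adj1 u v ∨ L.Adj1 v u

/-- the state of a site -/
def st (L : Lat) (ω : Cfg) (v : Pt) : Bool := (L.typ v).getD (ω v)

/-- the sites of colour `c` -/
def col (L : Lat) (c : Bool) (ω : Cfg) : Set Pt := {v | L.st ω v = c}

/-- `u` and `v` are joined by a path in `A` -/
def Cn (L : Lat) (A : Set Pt) (u v : Pt) : Prop :=
  u ∈ A ∧ Relation.ReflTransGen (fun a b => L.Adj a b ∧ b ∈ A) u v

/-- `A` is connected (or empty) -/
def Con (L : Lat) (A : Set Pt) : Prop := ∀ u ∈ A, ∀ v ∈ A, L.Cn A u v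

/-- sites with a neighbour in `A` -/
def nb (L : Lat) (A : Set Pt) : Set Pt := {v | ∃ u ∈ A, L.Adj u v}

/-- the boundary of `C` in `D`: the sites of `D` with a neighbour in `C` -/
def bd (L : Lat) (D C : Set Pt) : Set Pt := {v | v ∈ D ∧ ∃ u ∈ C, L.Adj u v}

/-- `D` is a connected component of `A` (nonempty) -/
structure Comp (L : Lat) (A D : Set Pt) : Prop where
  ne : D.Nonempty
  sub : D ⊆ A
  con : L.Con D
  cl : ∀ u ∈ D, ∀ v ∈ A, L.Adj u v → v ∈ D

/-- the translated lattice: the site `v` of `L.shift x` is the site `v + x` of `L` -/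
def shift (L : Lat) (x : Pt) : Lat :=
  ⟨fun i j => L.ne (i + x.1) (j + x.2), fun v => L.typ (v + x)⟩

/-- transposition: the site `(i, j)` of `L.tr` is the site `(j, i)` of `L` -/
def tr (L : Lat) : Lat := ⟨fun i j => L.ne j i, fun v => L.typ (v.2, v.1)⟩

/-- reflection: the site `(i, j)` of `L.rx` is the site `(-i, j)` of `L` -/
def rx (L : Lat) : Lat := ⟨fun i j => ! L.ne (-i - 1) j, fun v => L.typ (-v.1, v.2)⟩

/-- reflection: the site `(i, j)` of `L.ry` is the site `(i, -j)` of `L` -/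
def ry (L : Lat) : Lat := ⟨fun i j => ! L.ne i (-j - 1), fun v => L.typ (v.1, -v.2)⟩

/-- exchange of the two colours -/
def sw (L : Lat) : Lat := ⟨L.ne, fun v => (L.typ v).map Bool.not⟩

end Lat

/-- bond percolation on `ℤ²` in the doubled lattice (Union Jack pattern) -/
def Z2 : Lat where
  ne i j := decide ((i + j) % 2 = 0)
  typ v := if v.1 % 2 = 0 ∧ v.2 % 2 = 0 then some true
    else if v.1 % 2 = 1 ∧ v.2 % 2 = 1 then some false else none

/-- rectangle `[a,b] × [c,d]` -/
def rect (a b c d : ℤ) : Set Pt := {v | (a ≤ v.1 ∧ v.1 ≤ b) ∧ c ≤ v.2 ∧ v.2 ≤ d}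

/-- sup norm -/
def nrm (v : Pt) : ℤ := max |v.1| |v.2|

/-- box of radius `r` around the origin -/
def bx (r : ℤ) : Set Pt := {v | nrm v ≤ r}

/-- annulus `bx R \ bx r` -/
def ann (r R : ℤ) : Set Pt := {v | r < nrm v ∧ nrm v ≤ R}

/-- ring of radius `R` -/
def rng (R : ℤ) : Set Pt := {v | nrm v = R}

namespace Lat

/-- crossing of colour `c` of the rectangle `[a,b] × [p,q]` from the left to the right side -/
def HX (L : Lat) (c : Bool) (a b p q : ℤ) (ω : Cfg) : Prop :=
  ∃ u v, u.1 = a ∧ v.1 = b ∧ L.Cn (rect a b p q ∩ L.col c ω) u v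

/-- crossing of colour `c` of the rectangle `[a,b] × [p,q]` from the lower to the upper side -/
def VX (L : Lat) (c : Bool) (a b p q : ℤ) (ω : Cfg) : Prop :=
  ∃ u v, u.2 = p ∧ v.2 = q ∧ L.Cn (rect a b p q ∩ L.col c ω) u v

/-- there is a path of colour `c` in `D` from `X` to `Y` -/
def Arm (L : Lat) (c : Bool) (D X Y : Set Pt) (ω : Cfg) : Prop :=
  ∃ x ∈ X, ∃ y ∈ Y, L.Cn (D ∩ L.col c ω) x y

/-- two clusters: there are two paths of colour `c` in `D` from `X` to `Y` which are not joined by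
a path of colour `c` in `D` -/
def Two (L : Lat) (c : Bool) (D X Y : Set Pt) (ω : Cfg) : Prop :=
  ∃ x ∈ X, ∃ y ∈ Y, ∃ x' ∈ X, ∃ y' ∈ Y, L.Cn (D ∩ L.col c ω) x y ∧
    L.Cn (D ∩ L.col c ω) x' y' ∧ ¬ L.Cn (D ∩ L.col c ω) x x'

/-- four arm event of the annulus `ann r R` (two clusters of colour `c` crossing it) -/
def TwoA (L : Lat) (c : Bool) (r R : ℤ) (ω : Cfg) : Prop :=
  L.Two c (ann r R) (L.nb (bx r)) (rng R) ω

/-- the clusters of colour `c` in `D` attached to `S`: sites of `D` joined by a path of colour `c`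
in `D` to a site with a neighbour in `S` -/
def cl (L : Lat) (c : Bool) (D S : Set Pt) (ω : Cfg) : Set Pt :=
  {v | ∃ u, u ∈ L.nb S ∧ L.Cn (D ∩ L.col c ω) u v}

end Lat

/-! ## Probability -/

/-- `ω` replaced on `G` by the configuration that is open exactly on `S` -/
def ovr (G S : Finset Pt) (ω : Cfg) : Cfg := fun v => if v ∈ G then decide (v ∈ S) else ω v

/-- average ovr the sites of `G` (all other sites fixed) -/
noncomputable def av (G : Finset Pt) (g : Cfg → ℝ) : Cfg → ℝ :=
  fun ω => (∑ S ∈ G.powerset, g (ovr G S ω)) / 2 ^ G.card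

/-- `g` depends only on the sites of `A` -/
def Dep {α : Type} (g : Cfg → α) (A : Set Pt) : Prop :=
  ∀ ω ω' : Cfg, (∀ v ∈ A, ω v = ω' v) → g ω = g ω'

/-- expectation of a function depending on finitely many sites (`0` for other functions) -/
noncomputable def ex (g : Cfg → ℝ) : ℝ :=
  if h : ∃ F : Finset Pt, Dep g (F : Set Pt) then av h.choose g (fun _ => false) else 0

/-- indicator function -/
noncomputable def ind (A : Cfg → Prop) : Cfg → ℝ := fun ω => if A ω then 1 else 0

/-- probability of a local event -/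
noncomputable def pr (A : Cfg → Prop) : ℝ := ex (ind A)

/-- conditional probability of `A` given the configuration outside `G` -/
noncomputable def cpr (G : Finset Pt) (A : Cfg → Prop) : Cfg → ℝ := av G (ind A)

/-- local event: depends on finitely many sites -/
def Loc (A : Cfg → Prop) : Prop := ∃ F : Finset Pt, Dep A (F : Set Pt)

/-- increasing event -/
def Inc (A : Cfg → Prop) : Prop := ∀ ω ω' : Cfg, (∀ v, ω v ≤ ω' v) → A ω → A ω'

/-- decreasing event -/
def Dec (A : Cfg → Prop) : Prop := ∀ ω ω' : Cfg, (∀ v, ω v ≤ ω' v) → A ω' → A ω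

/-! ## Pairs of configurations (noise)

`κ v ∈ [0,1]` is the correlation of the two copies of the site `v`: `κ v = exp (- lag)`. -/

/-- weight of the pair of states `(s, s')` for the correlation `k` -/
noncomputable def wt (k : ℝ) (s s' : Bool) : ℝ := if s = s' then (1 + k) / 4 else (1 - k) / 4

/-- `E[g(ω) h(ω')]` for pairs on the finite set `F` with correlations `κ` -/
noncomputable def ex2F (F : Finset Pt) (κ : Pt → ℝ) (g h : Cfg → ℝ) : ℝ :=
  ∑ S ∈ F.powerset, ∑ T ∈ F.powerset,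
    (∏ v ∈ F, wt (κ v) (decide (v ∈ S)) (decide (v ∈ T))) *
      (g (ovr F S fun _ => false) * h (ovr F T fun _ => false))

/-- `E[g(ω) h(ω')]` for local `g`, `h` (`0` otherwise) -/
noncomputable def ex2 (κ : Pt → ℝ) (g h : Cfg → ℝ) : ℝ :=
  if hh : ∃ F : Finset Pt, Dep g (F : Set Pt) ∧ Dep h (F : Set Pt)
    then ex2F hh.choose κ g h else 0

/-- probability that `A` holds at both times -/
noncomputable def pr2 (κ : Pt → ℝ) (A : Cfg → Prop) : ℝ := ex2 κ (ind A) (ind A)

/-- character -/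
noncomputable def chi (S : Finset Pt) (ω : Cfg) : ℝ := ∏ v ∈ S, (if ω v then (1 : ℝ) else -1)

/-- Fourier coefficient of a local function -/
noncomputable def fc (g : Cfg → ℝ) (S : Finset Pt) : ℝ := ex (fun ω => g ω * chi S ω)

/-! ## The box crossing hypothesis -/

/-- box crossing property with constants `c k` (for rectangles of aspect ratio `k`), for both
colours, both directions, all positions and all widths `n ≥ 4` -/
structure RSW (L : Lat) (c : ℕ → ℝ) : Prop where
  pos : ∀ k, 0 < c k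
  hx : ∀ (k : ℕ) (b : Bool) (n a p : ℤ), 1 ≤ k → 4 ≤ n → c k ≤ pr (L.HX b a (a + k * n) p (p + n))
  vx : ∀ (k : ℕ) (b : Bool) (n a p : ℤ), 1 ≤ k → 4 ≤ n → c k ≤ pr (L.VX b a (a + n) p (p + k * n))

end SC

end

/-! ### from `Lib_MP_e0a489.PA1` -/

section

/-!
# MP_e0a489, probability toolkit 1: averages over finite sets of sites
-/

set_option autoImplicit false

namespace SC

open Classical

variable {α β γ : Type}

theorem Dep.mono {g : Cfg → α} {A B : Set Pt} (h : Dep g A) (hAB : A ⊆ B) : Dep g B := by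
  intro ω ω' hw
  exact h ω ω' (fun v hv => hw v (hAB hv))

theorem Dep.comp {g : Cfg → α} {A : Set Pt} (h : Dep g A) (f : α → β) :
    Dep (fun ω => f (g ω)) A := by
  intro ω ω' hw
  show f (g ω) = f (g ω')
  rw [h ω ω' hw]

theorem Dep.comp2 {g : Cfg → α} {h : Cfg → β} {A B : Set Pt} (hg : Dep g A) (hh : Dep h B)
    (f : α → β → γ) : Dep (fun ω => f (g ω) (h ω)) (A ∪ B) := by
  intro ω ω' hw
  show f (g ω) (h ω) = f (g ω') (h ω')
  rw [hg ω ω' (fun v hv => hw v (Or.inl hv)), hh ω ω' (fun v hv => hw v (Or.inr hv))]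

theorem Dep.ind {A : Cfg → Prop} {F : Set Pt} (h : Dep A F) : Dep (SC.ind A) F := by
  intro ω ω' hw
  have h1 : A ω = A ω' := h ω ω' hw
  unfold SC.ind
  simp only [h1]

theorem ovr_mem {G S : Finset Pt} {ω : Cfg} {v : Pt} (h : v ∈ G) :
    ovr G S ω v = decide (v ∈ S) := by
  unfold ovr
  rw [if_pos h]

theorem ovr_not_mem {G S : Finset Pt} {ω : Cfg} {v : Pt} (h : v ∉ G) : ovr G S ω v = ω v := by
  unfold ovr
  rw [if_neg h]

theorem av_empty (g : Cfg → ℝ) (ω : Cfg) : av ∅ g ω = g ω := by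
  have h : ovr ∅ ∅ ω = ω := by
    funext v
    exact ovr_not_mem (Finset.notMem_empty v)
  simp [av, h]

theorem av_add (G : Finset Pt) (g h : Cfg → ℝ) (ω : Cfg) :
    av G (fun ω => g ω + h ω) ω = av G g ω + av G h ω := by
  simp only [av]
  rw [Finset.sum_add_distrib, add_div]

theorem av_sub (G : Finset Pt) (g h : Cfg → ℝ) (ω : Cfg) :
    av G (fun ω => g ω - h ω) ω = av G g ω - av G h ω := by
  simp only [av]
  rw [Finset.sum_sub_distrib, sub_div]

theorem av_smul (G : Finset Pt) (a : ℝ) (g : Cfg → ℝ) (ω : Cfg) :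
    av G (fun ω => a * g ω) ω = a * av G g ω := by
  simp only [av]
  rw [← Finset.mul_sum, mul_div_assoc]

theorem av_const (G : Finset Pt) (a : ℝ) (ω : Cfg) : av G (fun _ => a) ω = a := by
  simp only [av]
  rw [Finset.sum_const, Finset.card_powerset, nsmul_eq_mul]
  push_cast
  field_simp

theorem av_sum {ι : Type} (G : Finset Pt) (I : Finset ι) (g : ι → Cfg → ℝ) (ω : Cfg) :
    av G (fun ω => ∑ i ∈ I, g i ω) ω = ∑ i ∈ I, av G (g i) ω := by
  simp only [av]
  rw [Finset.sum_comm, Finset.sum_div]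

/-- It is enough to compare on the configurations which agree with `ω` outside `G`. -/
theorem av_mono {G : Finset Pt} {g h : Cfg → ℝ} {ω : Cfg}
    (H : ∀ ω', (∀ v, v ∉ G → ω' v = ω v) → g ω' ≤ h ω') : av G g ω ≤ av G h ω := by
  simp only [av]
  refine div_le_div_of_nonneg_right ?_ (by positivity)
  exact Finset.sum_le_sum (fun S _ => H _ (fun v hv => ovr_not_mem hv))

theorem av_nonneg {G : Finset Pt} {g : Cfg → ℝ} (H : ∀ ω, 0 ≤ g ω) (ω : Cfg) :
    0 ≤ av G g ω := by
  simp only [av]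
  exact div_nonneg (Finset.sum_nonneg (fun S _ => H _)) (by positivity)

/-- The average does not depend on the configuration in `G`. -/
theorem Dep.av {g : Cfg → ℝ} {A : Set Pt} (h : Dep g A) (G : Finset Pt) :
    Dep (SC.av G g) (A \ (G : Set Pt)) := by
  intro ω ω' hw
  simp only [SC.av]
  congr 1
  refine Finset.sum_congr rfl (fun S _ => h _ _ (fun v hv => ?_))
  by_cases hG : v ∈ G
  · rw [ovr_mem hG, ovr_mem hG]
  · rw [ovr_not_mem hG, ovr_not_mem hG]
    exact hw v ⟨hv, fun h' => hG (by exact_mod_cast h')⟩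

theorem av_congr_out {G : Finset Pt} {g : Cfg → ℝ} {ω ω' : Cfg} (h : ∀ v, v ∉ G → ω v = ω' v) :
    av G g ω = av G g ω' := by
  simp only [av]
  congr 1
  refine Finset.sum_congr rfl (fun S _ => ?_)
  congr 1
  funext v
  by_cases hG : v ∈ G
  · rw [ovr_mem hG, ovr_mem hG]
  · rw [ovr_not_mem hG, ovr_not_mem hG]
    exact h v hG

/-- Factors that do not depend on `G` can be taken out. -/
theorem av_mul_left {G : Finset Pt} {g h : Cfg → ℝ} {A : Set Pt} (hh : Dep h A)
    (hA : ∀ v ∈ G, v ∉ A) (ω : Cfg) : av G (fun ω => h ω * g ω) ω = h ω * av G g ω := by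
  simp only [av]
  rw [← mul_div_assoc, Finset.mul_sum]
  congr 1
  refine Finset.sum_congr rfl (fun S _ => ?_)
  have h1 : h (ovr G S ω) = h ω := hh _ _ (fun v hv => ovr_not_mem (fun hG => hA v hG hv))
  rw [h1]

theorem av_of_dep {G : Finset Pt} {h : Cfg → ℝ} {A : Set Pt} (hh : Dep h A)
    (hA : ∀ v ∈ G, v ∉ A) (ω : Cfg) : av G h ω = h ω := by
  have h1 := av_mul_left (G := G) (g := fun _ => (1 : ℝ)) hh hA ω
  simp only [mul_one] at h1
  rw [av_const, mul_one] at h1
  exact h1

/-- auxiliary: adding one site -/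
private theorem av_insert_aux {G : Finset Pt} {v : Pt} (hv : v ∉ G) (g : Cfg → ℝ) (ω : Cfg) :
    av (insert v G) g ω =
      (av G g (Function.update ω v false) + av G g (Function.update ω v true)) / 2 := by
  have h0 : ∀ S ∈ G.powerset, ovr (insert v G) S ω = ovr G S (Function.update ω v false) := by
    intro S hS
    have hvS : v ∉ S := fun h => hv (Finset.mem_powerset.1 hS h)
    funext u
    by_cases huv : u = v
    · subst huv
      rw [ovr_mem (Finset.mem_insert_self _ _), ovr_not_mem hv, Function.update_self]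
      simp [hvS]
    · by_cases hu : u ∈ G
      · rw [ovr_mem (Finset.mem_insert_of_mem hu), ovr_mem hu]
      · rw [ovr_not_mem (by simp [huv, hu]), ovr_not_mem hu, Function.update_of_ne huv]
  have h1 : ∀ S ∈ G.powerset,
      ovr (insert v G) (insert v S) ω = ovr G S (Function.update ω v true) := by
    intro S hS
    funext u
    by_cases huv : u = v
    · subst huv
      rw [ovr_mem (Finset.mem_insert_self _ _), ovr_not_mem hv, Function.update_self]
      simp
    · by_cases hu : u ∈ G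
      · rw [ovr_mem (Finset.mem_insert_of_mem hu), ovr_mem hu]
        simp [huv]
      · rw [ovr_not_mem (by simp [huv, hu]), ovr_not_mem hu, Function.update_of_ne huv]
  have hs : ∑ S ∈ (insert v G).powerset, g (ovr (insert v G) S ω) =
      ∑ S ∈ G.powerset, g (ovr G S (Function.update ω v false)) +
        ∑ S ∈ G.powerset, g (ovr G S (Function.update ω v true)) := by
    rw [Finset.sum_powerset_insert hv]
    congr 1
    · exact Finset.sum_congr rfl (fun S hS => by rw [h0 S hS])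
    · exact Finset.sum_congr rfl (fun S hS => by rw [h1 S hS])
  simp only [av]
  rw [hs, Finset.card_insert_of_notMem hv, pow_succ]
  field_simp

private theorem av_av_aux (G' : Finset Pt) (g : Cfg → ℝ) (G : Finset Pt) :
    ∀ ω : Cfg, av G (av G' g) ω = av (G ∪ G') g ω := by
  induction G using Finset.induction_on with
  | empty =>
    intro ω
    rw [av_empty, Finset.empty_union]
  | insert v G hv ih =>
    intro ω
    rw [av_insert_aux hv, ih, ih]
    by_cases hv' : v ∈ G'
    · have hU : insert v G ∪ G' = G ∪ G' := by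
        ext u
        simp only [Finset.mem_union, Finset.mem_insert]
        constructor
        · rintro ((h | h) | h)
          · subst h; exact Or.inr hv'
          · exact Or.inl h
          · exact Or.inr h
        · rintro (h | h)
          · exact Or.inl (Or.inr h)
          · exact Or.inr h
      have hc : ∀ b : Bool, av (G ∪ G') g (Function.update ω v b) = av (G ∪ G') g ω := by
        intro b
        refine av_congr_out (fun u hu => ?_)
        have huv : u ≠ v := by
          rintro rfl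
          exact hu (Finset.mem_union_right _ hv')
        exact Function.update_of_ne huv b ω
      rw [hU, hc, hc]
      ring
    · have hv2 : v ∉ G ∪ G' := by
        simp [hv, hv']
      rw [Finset.insert_union, av_insert_aux hv2]

/-- Adding sites on which the function does not depend. -/
theorem av_union_of_dep {G H : Finset Pt} {g : Cfg → ℝ} {A : Set Pt} (hg : Dep g A)
    (hA : ∀ v ∈ H, v ∈ A → v ∈ G) (ω : Cfg) : av (G ∪ H) g ω = av G g ω := by
  rw [Finset.union_comm, ← av_av_aux G g H ω]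
  exact av_of_dep (hg.av G) (fun v hv hvA => hvA.2 (by exact_mod_cast hA v hv hvA.1)) ω

/-- Two averages: the average over the union.  (Disjoint sets: bijection of subsets; general case:
`av G' g` does not depend on `G'`, so `av G (av G' g) = av (G \ G') (av G' g)`.) -/
theorem av_av (G G' : Finset Pt) (g : Cfg → ℝ) (ω : Cfg) :
    av G (av G' g) ω = av (G ∪ G') g ω := by
  exact av_av_aux G' g G ω

/-- Independence. -/
theorem av_mul {G : Finset Pt} {g h : Cfg → ℝ} {A B : Set Pt} (hg : Dep g A) (hh : Dep h B)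
    (hAB : ∀ v ∈ G, v ∈ A → v ∉ B) (ω : Cfg) :
    av G (fun ω => g ω * h ω) ω = av G g ω * av G h ω := by
  set P : Finset Pt := G.filter (fun v => v ∈ A) with hP
  set Q : Finset Pt := G.filter (fun v => v ∉ A) with hQ
  have hPQ : Q ∪ P = G := by
    ext v
    simp only [hP, hQ, Finset.mem_union, Finset.mem_filter]
    tauto
  have h1 : av G (fun ω => g ω * h ω) ω = av Q (av P (fun ω => g ω * h ω)) ω := by
    rw [av_av, hPQ]
  have h2 : av P (fun ω => g ω * h ω) = fun ω => av P g ω * h ω := by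
    funext ω
    have := av_mul_left (G := P) (g := g) hh
      (fun v hv hvB => hAB v (Finset.mem_filter.1 hv).1 (Finset.mem_filter.1 hv).2 hvB) ω
    have hc : (fun ω => g ω * h ω) = fun ω => h ω * g ω := by
      funext ω
      ring
    rw [hc, this]
    ring
  have h3 : av Q (fun ω => av P g ω * h ω) ω = av P g ω * av Q h ω :=
    av_mul_left (A := A \ (P : Set Pt)) (hg.av P) (by
      intro v hv hvA
      rw [hQ, Finset.mem_filter] at hv
      exact hv.2 hvA.1) ω
  have h4 : av G g ω = av P g ω := by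
    rw [← hPQ, Finset.union_comm]
    exact av_union_of_dep hg (fun v hv hvA => absurd hvA (Finset.mem_filter.1 hv).2) ω
  have h5 : av G h ω = av Q h ω := by
    rw [← hPQ]
    exact av_union_of_dep hh (fun v hv hvB => absurd hvB
      (hAB v (Finset.mem_filter.1 hv).1 (Finset.mem_filter.1 hv).2)) ω
  rw [h1, h2, h3, h4, h5]

/-- If a property of configurations holds for none of those agreeing with `ω` off `G` the average
of its indicator is `0`; strict positivity otherwise. -/
theorem av_ind_pos {G : Finset Pt} {A : Cfg → Prop} {ω ω' : Cfg} (h : ∀ v, v ∉ G → ω' v = ω v)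
    (hA : A ω') : (1 / 2 : ℝ) ^ G.card ≤ av G (ind A) ω := by
  have h0 : ovr G (G.filter (fun v => ω' v = true)) ω = ω' := by
    funext v
    by_cases hv : v ∈ G
    · rw [ovr_mem hv]
      cases hb : ω' v <;> simp [hv, hb]
    · rw [ovr_not_mem hv, h v hv]
  have hmem : G.filter (fun v => ω' v = true) ∈ G.powerset :=
    Finset.mem_powerset.2 (Finset.filter_subset _ _)
  have h1 : (1 : ℝ) ≤ ∑ S ∈ G.powerset, ind A (ovr G S ω) := by
    have h2 : ind A (ovr G (G.filter (fun v => ω' v = true)) ω) = 1 := by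
      rw [h0]
      unfold ind
      rw [if_pos hA]
    rw [← h2]
    refine Finset.single_le_sum (f := fun S => ind A (ovr G S ω)) (fun S _ => ?_) hmem
    show 0 ≤ ind A (ovr G S ω)
    unfold ind
    split_ifs <;> norm_num
  simp only [av]
  rw [one_div, inv_pow, ← one_div]
  exact div_le_div_of_nonneg_right h1 (by positivity)

end SC

end

/-! ### from `Lib_MP_e0a489.PA2a` -/

section

/-!
# MP_e0a489, probability toolkit 2a: expectations of local functions
-/

set_option autoImplicit false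

namespace SC

open Classical

/-- local function -/
def Lf (g : Cfg → ℝ) : Prop := ∃ F : Finset Pt, Dep g (F : Set Pt)

theorem Loc.lf {A : Cfg → Prop} (h : Loc A) : Lf (ind A) := by
  obtain ⟨F, hF⟩ := h
  exact ⟨F, Dep.ind hF⟩

theorem Loc.and {A B : Cfg → Prop} (hA : Loc A) (hB : Loc B) : Loc fun ω => A ω ∧ B ω := by
  obtain ⟨F, hF⟩ := hA
  obtain ⟨G, hG⟩ := hB
  refine ⟨F ∪ G, ?_⟩
  rw [Finset.coe_union]
  exact Dep.comp2 hF hG (fun p q => p ∧ q)

theorem Loc.or {A B : Cfg → Prop} (hA : Loc A) (hB : Loc B) : Loc fun ω => A ω ∨ B ω := by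
  obtain ⟨F, hF⟩ := hA
  obtain ⟨G, hG⟩ := hB
  refine ⟨F ∪ G, ?_⟩
  rw [Finset.coe_union]
  exact Dep.comp2 hF hG (fun p q => p ∨ q)

theorem Loc.not {A : Cfg → Prop} (hA : Loc A) : Loc fun ω => ¬ A ω := by
  obtain ⟨F, hF⟩ := hA
  exact ⟨F, Dep.comp hF (fun p => ¬ p)⟩

theorem Loc.ex {ι : Type} {A : ι → Cfg → Prop} {F : Finset Pt}
    (hA : ∀ i, Dep (A i) (F : Set Pt)) : Loc fun ω => ∃ i, A i ω := by
  refine ⟨F, fun ω ω' h => ?_⟩
  have h1 : ∀ i, A i ω = A i ω' := fun i => hA i ω ω' h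
  simp only [h1]

theorem Lf.mul {g h : Cfg → ℝ} (hg : Lf g) (hh : Lf h) : Lf fun ω => g ω * h ω := by
  obtain ⟨F, hF⟩ := hg
  obtain ⟨G, hG⟩ := hh
  refine ⟨F ∪ G, ?_⟩
  rw [Finset.coe_union]
  exact Dep.comp2 hF hG (fun p q => p * q)

theorem Lf.add {g h : Cfg → ℝ} (hg : Lf g) (hh : Lf h) : Lf fun ω => g ω + h ω := by
  obtain ⟨F, hF⟩ := hg
  obtain ⟨G, hG⟩ := hh
  refine ⟨F ∪ G, ?_⟩
  rw [Finset.coe_union]
  exact Dep.comp2 hF hG (fun p q => p + q)

theorem Lf.sub {g h : Cfg → ℝ} (hg : Lf g) (hh : Lf h) : Lf fun ω => g ω - h ω := by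
  obtain ⟨F, hF⟩ := hg
  obtain ⟨G, hG⟩ := hh
  refine ⟨F ∪ G, ?_⟩
  rw [Finset.coe_union]
  exact Dep.comp2 hF hG (fun p q => p - q)

theorem Lf.smul {g : Cfg → ℝ} (hg : Lf g) (a : ℝ) : Lf fun ω => a * g ω := by
  obtain ⟨F, hF⟩ := hg
  exact ⟨F, Dep.comp hF (fun p => a * p)⟩

theorem Lf.const (a : ℝ) : Lf fun _ => a := ⟨∅, fun _ _ _ => rfl⟩

theorem Lf.sum {ι : Type} {I : Finset ι} {g : ι → Cfg → ℝ} (hg : ∀ i ∈ I, Lf (g i)) :
    Lf fun ω => ∑ i ∈ I, g i ω := by
  induction I using Finset.induction_on with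
  | empty => simpa using Lf.const 0
  | insert a s ha ih =>
    have h1 := Lf.add (hg a (Finset.mem_insert_self a s))
      (ih fun i hi => hg i (Finset.mem_insert_of_mem hi))
    have h2 : (fun ω => ∑ i ∈ insert a s, g i ω) = fun ω => g a ω + ∑ i ∈ s, g i ω := by
      funext ω
      rw [Finset.sum_insert ha]
    rw [h2]
    exact h1

theorem Lf.av {g : Cfg → ℝ} (hg : Lf g) (G : Finset Pt) : Lf (SC.av G g) := by
  obtain ⟨F, hF⟩ := hg
  exact ⟨F, Dep.mono (Dep.av hF G) Set.sdiff_subset⟩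

/-- The expectation is the average over any finite set that supports the function. -/
theorem ex_eq {g : Cfg → ℝ} {F : Finset Pt} (h : Dep g (F : Set Pt)) (ω : Cfg) :
    ex g = av F g ω := by
  have hex : ∃ F : Finset Pt, Dep g (F : Set Pt) := ⟨F, h⟩
  unfold ex
  rw [dif_pos hex]
  have h' := hex.choose_spec
  generalize hex.choose = F' at h' ⊢
  have h1 : av F' g (fun _ => false) = av F' g ω := by
    refine Dep.av h' F' _ _ ?_
    intro v hv
    exact absurd hv.1 hv.2
  rw [h1, ← av_union_of_dep (G := F') (H := F) h' (fun v _ hv => hv) ω,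
    ← av_union_of_dep (G := F) (H := F') h (fun v _ hv => hv) ω, Finset.union_comm]

private theorem common {g h : Cfg → ℝ} (hg : Lf g) (hh : Lf h) :
    ∃ F : Finset Pt, Dep g (F : Set Pt) ∧ Dep h (F : Set Pt) := by
  obtain ⟨F, hF⟩ := hg
  obtain ⟨G, hG⟩ := hh
  refine ⟨F ∪ G, ?_, ?_⟩
  · rw [Finset.coe_union]
    exact Dep.mono hF Set.subset_union_left
  · rw [Finset.coe_union]
    exact Dep.mono hG Set.subset_union_right

private theorem dep2 {g h : Cfg → ℝ} {A : Set Pt} (hg : Dep g A) (hh : Dep h A)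
    (f : ℝ → ℝ → ℝ) : Dep (fun ω => f (g ω) (h ω)) A := by
  have := Dep.comp2 hg hh f
  rwa [Set.union_self] at this

theorem ex_add {g h : Cfg → ℝ} (hg : Lf g) (hh : Lf h) :
    ex (fun ω => g ω + h ω) = ex g + ex h := by
  obtain ⟨F, h1, h2⟩ := common hg hh
  rw [ex_eq h1 fun _ => false, ex_eq h2 fun _ => false,
    ex_eq (dep2 h1 h2 (fun x y => x + y)) fun _ => false, av_add]

theorem ex_sub {g h : Cfg → ℝ} (hg : Lf g) (hh : Lf h) :
    ex (fun ω => g ω - h ω) = ex g - ex h := by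
  obtain ⟨F, h1, h2⟩ := common hg hh
  rw [ex_eq h1 fun _ => false, ex_eq h2 fun _ => false,
    ex_eq (dep2 h1 h2 (fun x y => x - y)) fun _ => false, av_sub]

theorem ex_smul {g : Cfg → ℝ} (hg : Lf g) (a : ℝ) : ex (fun ω => a * g ω) = a * ex g := by
  obtain ⟨F, hF⟩ := hg
  rw [ex_eq hF fun _ => false, ex_eq (Dep.comp hF (fun x => a * x)) fun _ => false, av_smul]

theorem ex_const (a : ℝ) : ex (fun _ => a) = a := by
  have h : Dep (fun _ : Cfg => a) ((∅ : Finset Pt) : Set Pt) := fun _ _ _ => rfl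
  rw [ex_eq h fun _ => false, av_const]

theorem ex_sum {ι : Type} {I : Finset ι} {g : ι → Cfg → ℝ} (hg : ∀ i ∈ I, Lf (g i)) :
    ex (fun ω => ∑ i ∈ I, g i ω) = ∑ i ∈ I, ex (g i) := by
  induction I using Finset.induction_on with
  | empty => simpa using ex_const 0
  | insert a s ha ih =>
    have h2 : (fun ω => ∑ i ∈ insert a s, g i ω) = fun ω => g a ω + ∑ i ∈ s, g i ω := by
      funext ω
      rw [Finset.sum_insert ha]
    have h3 : ∀ i ∈ s, Lf (g i) := fun i hi => hg i (Finset.mem_insert_of_mem hi)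
    rw [h2, ex_add (hg a (Finset.mem_insert_self a s)) (Lf.sum h3), ih h3,
      Finset.sum_insert ha]

theorem ex_mono {g h : Cfg → ℝ} (hg : Lf g) (hh : Lf h) (H : ∀ ω, g ω ≤ h ω) : ex g ≤ ex h := by
  obtain ⟨F, h1, h2⟩ := common hg hh
  rw [ex_eq h1 fun _ => false, ex_eq h2 fun _ => false]
  exact av_mono fun ω' _ => H ω'

theorem ex_nonneg {g : Cfg → ℝ} (H : ∀ ω, 0 ≤ g ω) : 0 ≤ ex g := by
  unfold ex
  split_ifs with h
  · exact av_nonneg H _
  · exact le_rfl

theorem ex_av {g : Cfg → ℝ} (hg : Lf g) (G : Finset Pt) : ex (av G g) = ex g := by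
  obtain ⟨F, hF⟩ := hg
  have h1 : Dep (av G g) (F : Set Pt) := Dep.mono (Dep.av hF G) Set.sdiff_subset
  rw [ex_eq h1 fun _ => false, ex_eq hF fun _ => false, av_av,
    av_union_of_dep hF (fun v _ hv => hv)]

theorem ex_mul {g h : Cfg → ℝ} {A B : Set Pt} (lg : Lf g) (lh : Lf h) (hg : Dep g A)
    (hh : Dep h B) (hAB : ∀ v ∈ A, v ∉ B) : ex (fun ω => g ω * h ω) = ex g * ex h := by
  obtain ⟨F, h1, h2⟩ := common lg lh
  rw [ex_eq h1 fun _ => false, ex_eq h2 fun _ => false,
    ex_eq (dep2 h1 h2 (fun x y => x * y)) fun _ => false]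
  exact av_mul hg hh (fun v _ hv => hAB v hv) _

end SC

end

/-! ### from `Lib_MP_e0a489.PA2b` -/

section

/-!
# MP_e0a489, probability toolkit 2b: probabilities of local events
-/

set_option autoImplicit false

namespace SC

open Classical

private theorem PA2b_ind_nonneg (A : Cfg → Prop) (ω : Cfg) : 0 ≤ ind A ω := by
  unfold ind
  split_ifs
  · exact zero_le_one
  · exact le_refl _

private theorem PA2b_ind_le_one (A : Cfg → Prop) (ω : Cfg) : ind A ω ≤ 1 := by
  unfold ind
  split_ifs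
  · exact le_refl _
  · exact zero_le_one

private theorem PA2b_ind_pos {A : Cfg → Prop} {ω : Cfg} (h : A ω) : ind A ω = 1 := by
  unfold ind
  exact if_pos h

private theorem PA2b_ind_neg {A : Cfg → Prop} {ω : Cfg} (h : ¬ A ω) : ind A ω = 0 := by
  unfold ind
  exact if_neg h

private theorem PA2b_ind_mono {A B : Cfg → Prop} {ω ω' : Cfg} (h : A ω → B ω') :
    ind A ω ≤ ind B ω' := by
  by_cases hA : A ω
  · rw [PA2b_ind_pos hA, PA2b_ind_pos (h hA)]
  · rw [PA2b_ind_neg hA]
    exact PA2b_ind_nonneg B ω'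

private theorem PA2b_ind_or (A B : Cfg → Prop) (ω : Cfg) :
    ind (fun ω => A ω ∨ B ω) ω ≤ ind A ω + ind B ω := by
  by_cases hA : A ω
  · rw [PA2b_ind_pos hA]
    have h1 := PA2b_ind_le_one (fun ω => A ω ∨ B ω) ω
    have h2 := PA2b_ind_nonneg B ω
    linarith
  · have h1 : ind (fun ω => A ω ∨ B ω) ω ≤ ind B ω := PA2b_ind_mono fun h => h.resolve_left hA
    have h2 := PA2b_ind_nonneg A ω
    linarith

/-- Cauchy-Schwarz -/
theorem ex_mul_sq_le {g h : Cfg → ℝ} (hg : Lf g) (hh : Lf h) :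
    (ex fun ω => g ω * h ω) ^ 2 ≤ (ex fun ω => g ω ^ 2) * (ex fun ω => h ω ^ 2) := by
  obtain ⟨F, hF⟩ := hg
  obtain ⟨F', hF'⟩ := hh
  have hg1 : Dep g ((F ∪ F' : Finset Pt) : Set Pt) := hF.mono (by simp)
  have hh1 : Dep h ((F ∪ F' : Finset Pt) : Set Pt) := hF'.mono (by simp)
  have h1 : Dep (fun ω => g ω * h ω) ((F ∪ F' : Finset Pt) : Set Pt) := by
    intro ω ω' H
    show g ω * h ω = g ω' * h ω'
    rw [hg1 ω ω' H, hh1 ω ω' H]
  have h2 : Dep (fun ω => g ω ^ 2) ((F ∪ F' : Finset Pt) : Set Pt) := hg1.comp fun x => x ^ 2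
  have h3 : Dep (fun ω => h ω ^ 2) ((F ∪ F' : Finset Pt) : Set Pt) := hh1.comp fun x => x ^ 2
  rw [ex_eq h1 (fun _ => false), ex_eq h2 (fun _ => false), ex_eq h3 (fun _ => false)]
  unfold av
  rw [div_pow, div_mul_div_comm, ← sq]
  apply div_le_div_of_nonneg_right _ (by positivity)
  exact Finset.sum_mul_sq_le_sq_mul_sq _ _ _

theorem pr_nonneg (A : Cfg → Prop) : 0 ≤ pr A := by
  exact ex_nonneg (PA2b_ind_nonneg A)

theorem pr_le_one (A : Cfg → Prop) : pr A ≤ 1 := by
  by_cases h : Lf (ind A)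
  · have h1 := ex_mono h (Lf.const 1) (PA2b_ind_le_one A)
    rw [ex_const] at h1
    exact h1
  · have h1 : pr A = 0 := by
      unfold pr ex
      exact dif_neg h
    rw [h1]
    exact zero_le_one

theorem pr_mono {A B : Cfg → Prop} (hA : Loc A) (hB : Loc B) (H : ∀ ω, A ω → B ω) :
    pr A ≤ pr B := by
  exact ex_mono hA.lf hB.lf fun ω => PA2b_ind_mono (H ω)

theorem pr_not {A : Cfg → Prop} (hA : Loc A) : pr (fun ω => ¬ A ω) = 1 - pr A := by
  have h1 : ind (fun ω => ¬ A ω) = fun ω => (1 : ℝ) - ind A ω := by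
    funext ω
    by_cases h : A ω
    · rw [PA2b_ind_pos h, PA2b_ind_neg (A := fun ω => ¬ A ω) (not_not.2 h), sub_self]
    · rw [PA2b_ind_neg h, PA2b_ind_pos (A := fun ω => ¬ A ω) h, sub_zero]
  unfold pr
  rw [h1, ex_sub (Lf.const 1) hA.lf, ex_const]

theorem pr_or_le {A B : Cfg → Prop} (hA : Loc A) (hB : Loc B) :
    pr (fun ω => A ω ∨ B ω) ≤ pr A + pr B := by
  unfold pr
  rw [← ex_add hA.lf hB.lf]
  exact ex_mono (hA.or hB).lf (hA.lf.add hB.lf) (PA2b_ind_or A B)

theorem pr_ex_le {ι : Type} {I : Finset ι} {A : ι → Cfg → Prop} (hA : ∀ i ∈ I, Loc (A i)) :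
    pr (fun ω => ∃ i ∈ I, A i ω) ≤ ∑ i ∈ I, pr (A i) := by
  have hloc : Loc (fun ω => ∃ i ∈ I, A i ω) := by
    choose F hF using hA
    refine ⟨I.attach.biUnion fun i => F i.1 i.2, ?_⟩
    intro ω ω' H
    have h1 : ∀ i (hi : i ∈ I), A i ω = A i ω' := by
      intro i hi
      refine hF i hi ω ω' fun v hv => H v ?_
      rw [Finset.mem_coe, Finset.mem_biUnion]
      exact ⟨⟨i, hi⟩, Finset.mem_attach _ _, hv⟩
    apply propext
    constructor
    · rintro ⟨i, hi, h⟩
      exact ⟨i, hi, (h1 i hi) ▸ h⟩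
    · rintro ⟨i, hi, h⟩
      exact ⟨i, hi, (h1 i hi).symm ▸ h⟩
  unfold pr
  rw [← ex_sum fun i hi => (hA i hi).lf]
  refine ex_mono hloc.lf (Lf.sum fun i hi => (hA i hi).lf) fun ω => ?_
  by_cases h : ∃ i ∈ I, A i ω
  · rw [PA2b_ind_pos (A := fun ω => ∃ i ∈ I, A i ω) h]
    obtain ⟨i, hi, h2⟩ := h
    have h3 := Finset.single_le_sum (f := fun i => ind (A i) ω) (fun j _ => PA2b_ind_nonneg (A j) ω) hi
    simp only [PA2b_ind_pos h2] at h3
    exact h3
  · rw [PA2b_ind_neg (A := fun ω => ∃ i ∈ I, A i ω) h]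
    exact Finset.sum_nonneg fun j _ => PA2b_ind_nonneg (A j) ω

theorem pr_and {A B : Cfg → Prop} {F G : Set Pt} (lA : Loc A) (lB : Loc B) (hA : Dep A F)
    (hB : Dep B G) (hFG : ∀ v ∈ F, v ∉ G) : pr (fun ω => A ω ∧ B ω) = pr A * pr B := by
  have h1 : ind (fun ω => A ω ∧ B ω) = fun ω => ind A ω * ind B ω := by
    funext ω
    by_cases hA : A ω
    · by_cases hB : B ω
      · rw [PA2b_ind_pos hA, PA2b_ind_pos hB, PA2b_ind_pos (A := fun ω => A ω ∧ B ω) ⟨hA, hB⟩, mul_one]
      · rw [PA2b_ind_neg hB, PA2b_ind_neg (A := fun ω => A ω ∧ B ω) (fun h => hB h.2), mul_zero]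
    · rw [PA2b_ind_neg hA, PA2b_ind_neg (A := fun ω => A ω ∧ B ω) (fun h => hA h.1), zero_mul]
  unfold pr
  rw [h1]
  exact ex_mul lA.lf lB.lf hA.ind hB.ind hFG

theorem ex_cpr {A : Cfg → Prop} (hA : Loc A) (G : Finset Pt) : ex (cpr G A) = pr A := by
  exact ex_av hA.lf G

theorem cpr_nonneg (G : Finset Pt) (A : Cfg → Prop) (ω : Cfg) : 0 ≤ cpr G A ω := by
  exact av_nonneg (PA2b_ind_nonneg A) ω

theorem cpr_le_one (G : Finset Pt) (A : Cfg → Prop) (ω : Cfg) : cpr G A ω ≤ 1 := by
  have h1 := av_mono (G := G) (g := ind A) (h := fun _ => 1) (ω := ω)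
    fun ω' _ => PA2b_ind_le_one A ω'
  rw [av_const] at h1
  exact h1

theorem cpr_mono {G : Finset Pt} {A B : Cfg → Prop} {ω : Cfg}
    (H : ∀ ω', (∀ v, v ∉ G → ω' v = ω v) → A ω' → B ω') : cpr G A ω ≤ cpr G B ω := by
  exact av_mono fun ω' h => PA2b_ind_mono (H ω' h)

theorem cpr_or_le (G : Finset Pt) (A B : Cfg → Prop) (ω : Cfg) :
    cpr G (fun ω => A ω ∨ B ω) ω ≤ cpr G A ω + cpr G B ω := by
  unfold cpr
  rw [← av_add]
  exact av_mono fun ω' _ => PA2b_ind_or A B ω'

/-- an event that does not depend on the sites outside `G` has constant conditional probability -/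
theorem cpr_eq_pr {G : Finset Pt} {A : Cfg → Prop} (hA : Dep A (G : Set Pt)) (ω : Cfg) :
    cpr G A ω = pr A := by
  exact (ex_eq hA.ind ω).symm

/-- Invariance under permutations of the sites. -/
theorem ex_equiv {g : Cfg → ℝ} (hg : Lf g) (e : Pt ≃ Pt) :
    ex (fun ω => g (fun v => ω (e v))) = ex g := by
  obtain ⟨F, hF⟩ := hg
  have h1 : Dep (fun ω : Cfg => g (fun v => ω (e v))) ((F.map e.toEmbedding : Finset Pt) : Set Pt) := by
    intro ω ω' H
    refine hF _ _ fun v hv => H (e v) ?_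
    rw [Finset.mem_coe, Finset.mem_map_equiv, Equiv.symm_apply_apply]
    exact hv
  rw [ex_eq h1 (fun _ => false), ex_eq hF (fun _ => false)]
  unfold av
  rw [Finset.card_map]
  congr 1
  symm
  refine Finset.sum_nbij' (fun S => S.map e.toEmbedding) (fun S => S.map e.symm.toEmbedding)
    ?_ ?_ ?_ ?_ ?_
  · intro S hS
    rw [Finset.mem_powerset] at hS ⊢
    exact Finset.map_subset_map.2 hS
  · intro S hS
    rw [Finset.mem_powerset] at hS ⊢
    intro v hv
    rw [Finset.mem_map_equiv, Equiv.symm_symm] at hv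
    have h2 := hS hv
    rwa [Finset.mem_map_equiv, Equiv.symm_apply_apply] at h2
  · intro S _
    ext v
    rw [Finset.mem_map_equiv, Finset.mem_map_equiv, Equiv.symm_symm, Equiv.symm_apply_apply]
  · intro S _
    ext v
    rw [Finset.mem_map_equiv, Finset.mem_map_equiv, Equiv.symm_symm, Equiv.apply_symm_apply]
  · intro S _
    congr 1
    funext v
    by_cases hv : v ∈ F
    · have hv' : e v ∈ F.map e.toEmbedding := by
        rw [Finset.mem_map_equiv, Equiv.symm_apply_apply]
        exact hv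
      rw [ovr_mem hv, ovr_mem hv']
      congr 1
      rw [Finset.mem_map_equiv, Equiv.symm_apply_apply]
    · have hv' : e v ∉ F.map e.toEmbedding := by
        rw [Finset.mem_map_equiv, Equiv.symm_apply_apply]
        exact hv
      rw [ovr_not_mem hv, ovr_not_mem hv']

theorem pr_equiv {A : Cfg → Prop} (hA : Loc A) (e : Pt ≃ Pt) :
    pr (fun ω => A (fun v => ω (e v))) = pr A := by
  exact ex_equiv hA.lf e

/-- Invariance under the exchange of the two states. -/
theorem pr_flip {A : Cfg → Prop} (hA : Loc A) : pr (fun ω => A (fun v => ! ω v)) = pr A := by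
  obtain ⟨F, hF⟩ := hA
  have h1 : Dep (fun ω : Cfg => A (fun v => ! ω v)) (F : Set Pt) := by
    intro ω ω' H
    refine hF _ _ fun v hv => ?_
    rw [H v hv]
  unfold pr
  rw [ex_eq h1.ind (fun _ => false), ex_eq hF.ind (fun _ => false)]
  unfold av
  congr 1
  refine Finset.sum_nbij' (fun S => F \ S) (fun S => F \ S) ?_ ?_ ?_ ?_ ?_
  · intro S _
    rw [Finset.mem_powerset]
    exact Finset.sdiff_subset
  · intro S _
    rw [Finset.mem_powerset]
    exact Finset.sdiff_subset
  · intro S hS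
    rw [Finset.mem_powerset] at hS
    exact Finset.sdiff_sdiff_eq_self hS
  · intro S hS
    rw [Finset.mem_powerset] at hS
    exact Finset.sdiff_sdiff_eq_self hS
  · intro S _
    have h2 : A (fun v => ! ovr F S (fun _ => false) v) = A (ovr F (F \ S) fun _ => false) := by
      refine hF _ _ fun v hv => ?_
      rw [Finset.mem_coe] at hv
      rw [ovr_mem hv, ovr_mem hv]
      by_cases hS : v ∈ S
      · simp [hS]
      · simp [hS, hv]
    unfold ind
    simp only [h2]

theorem pr_pos {A : Cfg → Prop} {F : Finset Pt} (hA : Dep A (F : Set Pt)) {ω : Cfg} (h : A ω) :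
    (1 / 2 : ℝ) ^ F.card ≤ pr A := by
  rw [← cpr_eq_pr hA ω]
  exact av_ind_pos (fun _ _ => rfl) h

end SC

end

/-! ### from `Lib_MP_e0a489.TA1` -/

section

/-!
# MP_e0a489, topology 1a: connectivity
-/

set_option autoImplicit false

namespace SC

open Classical

namespace Lat

variable {L : Lat}

theorem Adj.symm {u v : Pt} (h : L.Adj u v) : L.Adj v u := Or.symm h

private theorem Adj1.near {u v : Pt} (h : L.Adj1 u v) : |u.1 - v.1| ≤ 1 ∧ |u.2 - v.2| ≤ 1 := by
  rcases h with ⟨h1, h2⟩ | ⟨h1, h2⟩ | ⟨h1, h2, -⟩ | ⟨h1, h2, -⟩ <;>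
    constructor <;> rw [abs_le] <;> constructor <;> omega

private theorem Adj1.ne {u v : Pt} (h : L.Adj1 u v) : u ≠ v := by
  rintro rfl
  rcases h with ⟨h1, h2⟩ | ⟨h1, h2⟩ | ⟨h1, h2, -⟩ | ⟨h1, h2, -⟩ <;> omega

theorem Adj.ne {u v : Pt} (h : L.Adj u v) : u ≠ v := by
  rcases h with h | h
  · exact h.ne
  · exact h.ne.symm

/-- adjacent sites differ by at most one in each coordinate -/
theorem Adj.near {u v : Pt} (h : L.Adj u v) : |u.1 - v.1| ≤ 1 ∧ |u.2 - v.2| ≤ 1 := by
  rcases h with h | h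
  · exact h.near
  · have := h.near
    rw [abs_sub_comm u.1, abs_sub_comm u.2]
    exact this

theorem adj_right (u : Pt) : L.Adj u (u.1 + 1, u.2) := Or.inl (Or.inl ⟨rfl, rfl⟩)

theorem adj_up (u : Pt) : L.Adj u (u.1, u.2 + 1) := Or.inl (Or.inr (Or.inl ⟨rfl, rfl⟩))

/-- nearest neighbours are adjacent -/
theorem adj_of_nn {u v : Pt} (h : |u.1 - v.1| + |u.2 - v.2| = 1) : L.Adj u v := by
  have h1 := abs_nonneg (u.1 - v.1)
  have h2 := abs_nonneg (u.2 - v.2)
  rcases abs_cases (u.1 - v.1) with ⟨e1, s1⟩ | ⟨e1, s1⟩ <;>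
    rcases abs_cases (u.2 - v.2) with ⟨e2, s2⟩ | ⟨e2, s2⟩
  · by_cases c : v.1 = u.1
    · exact Or.inr (Or.inr (Or.inl ⟨by omega, by omega⟩))
    · exact Or.inr (Or.inl ⟨by omega, by omega⟩)
  · by_cases c : v.1 = u.1
    · exact Or.inl (Or.inr (Or.inl ⟨by omega, by omega⟩))
    · exact Or.inr (Or.inl ⟨by omega, by omega⟩)
  · by_cases c : v.1 = u.1
    · exact Or.inr (Or.inr (Or.inl ⟨by omega, by omega⟩))
    · exact Or.inl (Or.inl ⟨by omega, by omega⟩)
  · by_cases c : v.1 = u.1
    · exact Or.inl (Or.inr (Or.inl ⟨by omega, by omega⟩))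
    · exact Or.inl (Or.inl ⟨by omega, by omega⟩)

theorem Cn.refl {A : Set Pt} {u : Pt} (h : u ∈ A) : L.Cn A u u :=
  ⟨h, Relation.ReflTransGen.refl⟩

theorem Cn.left {A : Set Pt} {u v : Pt} (h : L.Cn A u v) : u ∈ A := h.1

theorem Cn.right {A : Set Pt} {u v : Pt} (h : L.Cn A u v) : v ∈ A := by
  obtain ⟨hu, h⟩ := h
  rcases Relation.ReflTransGen.cases_tail h with e | ⟨w, -, hw⟩
  · rw [e]; exact hu
  · exact hw.2

theorem Cn.trans {A : Set Pt} {u v w : Pt} (h : L.Cn A u v) (h' : L.Cn A v w) : L.Cn A u w :=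
  ⟨h.1, h.2.trans h'.2⟩

/-- one more step -/
private theorem Cn.step {A : Set Pt} {u v w : Pt} (h : L.Cn A u v) (hvw : L.Adj v w)
    (hw : w ∈ A) : L.Cn A u w := ⟨h.1, h.2.tail ⟨hvw, hw⟩⟩

private theorem Cn.head {A : Set Pt} {u v w : Pt} (hu : u ∈ A) (huv : L.Adj u v)
    (h : L.Cn A v w) : L.Cn A u w := ⟨hu, h.2.head ⟨huv, h.1⟩⟩

/-- induction along a path, starting from the first point -/
private theorem Cn.rec_tail {A : Set Pt} {u : Pt} (P : Pt → Prop) (h0 : u ∈ A → P u)
    (hs : ∀ v w, L.Cn A u v → P v → L.Adj v w → w ∈ A → P w) {v : Pt} (h : L.Cn A u v) : P v := by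
  obtain ⟨hu, h⟩ := h
  induction h with
  | refl => exact h0 hu
  | tail hab hbc ih => exact hs _ _ ⟨hu, hab⟩ ih hbc.1 hbc.2

theorem Cn.symm {A : Set Pt} {u v : Pt} (h : L.Cn A u v) : L.Cn A v u :=
  h.rec_tail (fun v => L.Cn A v u) (fun hu => Cn.refl hu)
    (fun _ _ _ hP ha hw => Cn.head hw ha.symm hP)

theorem Cn.mono {A B : Set Pt} {u v : Pt} (h : L.Cn A u v) (hAB : A ⊆ B) : L.Cn B u v :=
  h.rec_tail (fun v => L.Cn B u v) (fun hu => Cn.refl (hAB hu))
    (fun _ _ _ hP ha hw => hP.step ha (hAB hw))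

theorem Cn.of_adj {A : Set Pt} {u v : Pt} (hu : u ∈ A) (hv : v ∈ A) (h : L.Adj u v) :
    L.Cn A u v := (Cn.refl hu).step h hv

/-- first exit from the set `S` -/
theorem Cn.exit {A S : Set Pt} {u v : Pt} (h : L.Cn A u v) (hu : u ∈ S) (hv : v ∉ S) :
    ∃ p q, L.Cn (A ∩ S) u p ∧ L.Adj p q ∧ q ∈ A ∧ q ∉ S := by
  have key : L.Cn (A ∩ S) u v ∨ ∃ p q, L.Cn (A ∩ S) u p ∧ L.Adj p q ∧ q ∈ A ∧ q ∉ S := by
    refine h.rec_tail (fun v => L.Cn (A ∩ S) u v ∨ ∃ p q, L.Cn (A ∩ S) u p ∧ L.Adj p q ∧ q ∈ A ∧ q ∉ S)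
      (fun hA => Or.inl (Cn.refl ⟨hA, hu⟩)) ?_
    intro v w _ hP ha hw
    rcases hP with hP | hP
    · by_cases hS : w ∈ S
      · exact Or.inl (hP.step ha ⟨hw, hS⟩)
      · exact Or.inr ⟨v, w, hP, ha, hw, hS⟩
    · exact Or.inr hP
  rcases key with key | key
  · exact absurd key.right.2 hv
  · exact key

/-- last entrance: the part of the path after the last visit of `S` -/
theorem Cn.last {A S : Set Pt} {u v : Pt} (h : L.Cn A u v) (hu : u ∈ S) (hv : v ∉ S) :
    ∃ p q, p ∈ A ∧ p ∈ S ∧ L.Adj p q ∧ L.Cn (A \ S) q v := by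
  obtain ⟨p, q, hc, ha, hq, hqS⟩ := (h.symm).exit (S := Sᶜ) hv (fun hc => hc hu)
  refine ⟨q, p, hq, by simpa using hqS, ha.symm, ?_⟩
  exact hc.symm.mono (fun x hx => ⟨hx.1, hx.2⟩)

/-- the set of the sites joined to `u` in `A` is connected -/
theorem con_cluster (A : Set Pt) (u : Pt) : L.Con {v | L.Cn A u v} := by
  have key : ∀ v, L.Cn A u v → L.Cn {v | L.Cn A u v} u v := by
    intro v h
    refine h.rec_tail (fun v => L.Cn {v | L.Cn A u v} u v) (fun hu => Cn.refl (Cn.refl hu)) ?_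
    intro v w hv hP ha hw
    exact hP.step ha (hv.step ha hw)
  intro v hv w hw
  exact (key v hv).symm.trans (key w hw)

theorem Con.union {A B : Set Pt} (hA : L.Con A) (hB : L.Con B) (h : (A ∩ B).Nonempty) :
    L.Con (A ∪ B) := by
  obtain ⟨z, hzA, hzB⟩ := h
  have key : ∀ v ∈ A ∪ B, L.Cn (A ∪ B) v z := by
    rintro v (hv | hv)
    · exact (hA v hv z hzA).mono Set.subset_union_left
    · exact (hB v hv z hzB).mono Set.subset_union_right
  intro v hv w hw
  exact (key v hv).trans (key w hw).symm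

/-- union of two connected sets with an edge between them -/
theorem Con.union_adj {A B : Set Pt} (hA : L.Con A) (hB : L.Con B) {u v : Pt} (hu : u ∈ A)
    (hv : v ∈ B) (h : L.Adj u v) : L.Con (A ∪ B) := by
  have key : ∀ w ∈ A ∪ B, L.Cn (A ∪ B) w u := by
    rintro w (hw | hw)
    · exact (hA w hw u hu).mono Set.subset_union_left
    · exact ((hB w hw v hv).mono Set.subset_union_right).step h.symm (Or.inl hu)
  intro v hv w hw
  exact (key v hv).trans (key w hw).symm

/-- a connected set together with connected sets attached to it -/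
theorem Con.union_many {A B : Set Pt} (hA : L.Con A)
    (hB : ∀ v ∈ B, ∃ u ∈ A, ∃ w, L.Adj u w ∧ L.Cn B w v) : L.Con (A ∪ B) := by
  have key : ∀ v ∈ A ∪ B, ∃ u ∈ A, L.Cn (A ∪ B) v u := by
    rintro v (hv | hv)
    · exact ⟨v, hv, Cn.refl (Or.inl hv)⟩
    · obtain ⟨u, hu, w, ha, hc⟩ := hB v hv
      exact ⟨u, hu, ((hc.symm).mono Set.subset_union_right).step ha.symm (Or.inl hu)⟩
  intro v hv w hw
  obtain ⟨a, ha, hva⟩ := key v hv
  obtain ⟨b, hb, hwb⟩ := key w hw
  exact (hva.trans ((hA a ha b hb).mono Set.subset_union_left)).trans hwb.symm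

theorem con_empty : L.Con ∅ := fun _ hu => absurd hu (Set.notMem_empty _)

theorem con_singleton (u : Pt) : L.Con {u} := by
  intro v hv w hw
  rw [Set.mem_singleton_iff] at hv hw
  subst hv
  subst hw
  exact Cn.refl rfl

/-- horizontal path in a rectangle -/
private theorem cn_hor (a b c d : ℤ) (y x : ℤ) (hy : c ≤ y ∧ y ≤ d) (hx : a ≤ x) (n : ℕ)
    (hn : x + n ≤ b) : L.Cn (rect a b c d) (x, y) (x + n, y) := by
  induction n with
  | zero =>
    have : (x + ((0 : ℕ) : ℤ), y) = (x, y) := by simp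
    rw [this]
    exact Cn.refl ⟨⟨hx, by push_cast at hn; simpa using hn⟩, hy⟩
  | succ n ih =>
    have h1 := ih (by push_cast at hn; omega)
    have h2 : L.Adj (x + (n : ℤ), y) (x + ((n + 1 : ℕ) : ℤ), y) := by
      refine Or.inl (Or.inl ⟨?_, rfl⟩)
      push_cast
      ring
    exact h1.step h2 ⟨⟨by push_cast; omega, hn⟩, hy⟩

/-- vertical path in a rectangle -/
private theorem cn_ver (a b c d : ℤ) (x y : ℤ) (hx : a ≤ x ∧ x ≤ b) (hy : c ≤ y) (n : ℕ)
    (hn : y + n ≤ d) : L.Cn (rect a b c d) (x, y) (x, y + n) := by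
  induction n with
  | zero =>
    have : (x, y + ((0 : ℕ) : ℤ)) = (x, y) := by simp
    rw [this]
    exact Cn.refl ⟨hx, ⟨hy, by push_cast at hn; simpa using hn⟩⟩
  | succ n ih =>
    have h1 := ih (by push_cast at hn; omega)
    have h2 : L.Adj (x, y + (n : ℤ)) (x, y + ((n + 1 : ℕ) : ℤ)) := by
      refine Or.inl (Or.inr (Or.inl ⟨rfl, ?_⟩))
      push_cast
      ring
    exact h1.step h2 ⟨hx, ⟨by push_cast; omega, hn⟩⟩

theorem con_rect (a b c d : ℤ) : L.Con (rect a b c d) := by
  intro u hu v hv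
  have hor : ∀ x y z : ℤ, (x, y) ∈ rect a b c d → (z, y) ∈ rect a b c d →
      L.Cn (rect a b c d) (x, y) (z, y) := by
    intro x y z hx hz
    obtain ⟨⟨hx1, hx2⟩, hy⟩ := hx
    obtain ⟨⟨hz1, hz2⟩, -⟩ := hz
    simp only at hx1 hx2 hz1 hz2 hy
    rcases le_total x z with hxz | hxz
    · obtain ⟨n, hn⟩ := Int.eq_ofNat_of_zero_le (sub_nonneg.2 hxz)
      have e : z = x + n := by omega
      rw [e]
      exact cn_hor a b c d y x hy hx1 n (by omega)
    · obtain ⟨n, hn⟩ := Int.eq_ofNat_of_zero_le (sub_nonneg.2 hxz)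
      have e : x = z + n := by omega
      rw [e]
      exact (cn_hor a b c d y z hy hz1 n (by omega)).symm
  have ver : ∀ x y z : ℤ, (x, y) ∈ rect a b c d → (x, z) ∈ rect a b c d →
      L.Cn (rect a b c d) (x, y) (x, z) := by
    intro x y z hx hz
    obtain ⟨hx0, hy1, hy2⟩ := hx
    obtain ⟨-, hz1, hz2⟩ := hz
    simp only at hy1 hy2 hz1 hz2 hx0
    rcases le_total y z with hyz | hyz
    · obtain ⟨n, hn⟩ := Int.eq_ofNat_of_zero_le (sub_nonneg.2 hyz)
      have e : z = y + n := by omega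
      rw [e]
      exact cn_ver a b c d x y hx0 hy1 n (by omega)
    · obtain ⟨n, hn⟩ := Int.eq_ofNat_of_zero_le (sub_nonneg.2 hyz)
      have e : y = z + n := by omega
      rw [e]
      exact (cn_ver a b c d x z hx0 hz1 n (by omega)).symm
  obtain ⟨u1, u2⟩ := u
  obtain ⟨v1, v2⟩ := v
  have hm : (v1, u2) ∈ rect a b c d := ⟨hv.1, hu.2⟩
  exact (hor u1 u2 v1 hu hm).trans (ver v1 u2 v2 hm hv)

theorem con_bx (r : ℤ) : L.Con (bx r) := by
  have e : bx r = rect (-r) r (-r) r := by
    ext v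
    simp only [bx, rect, nrm, Set.mem_ofPred_eq, max_le_iff, abs_le]
  rw [e]
  exact con_rect _ _ _ _

end Lat

end SC

end

/-! ### from `Lib_MP_e0a489.TB1` -/

section

/-!
# MP_e0a489, topology 2a: parity of closed walks
-/

set_option autoImplicit false

namespace SC

open Classical

namespace Lat

variable {L : Lat}

/-- the step `p → q` runs between the columns `v.1` and `v.1 + 1`, its left end is above `v` -/
def crs (v p q : Pt) : Prop :=
  (p.1 = v.1 ∧ q.1 = v.1 + 1 ∧ v.2 < p.2) ∨ (q.1 = v.1 ∧ p.1 = v.1 + 1 ∧ v.2 < q.2)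

/-- parity of the number of such steps of a walk -/
noncomputable def par (v : Pt) : List Pt → ZMod 2
  | [] => 0
  | [_] => 0
  | p :: q :: t => (if crs v p q then 1 else 0) + par v (q :: t)

theorem par_append {v p : Pt} {l l' : List Pt} :
    par v (l ++ p :: l') = par v (l ++ [p]) + par v (p :: l') := by
  induction l with
  | nil => simp [par]
  | cons a l ih =>
    cases l with
    | nil => simp [par]
    | cons b t =>
      simp only [List.cons_append, par] at ih ⊢
      rw [ih, add_assoc]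

private theorem tb1_tele (f : Pt → ZMod 2) (a : Pt) (l : List Pt) :
    (((a :: l).zip l).map fun e => f e.1 + f e.2).sum =
      f a + f ((a :: l).getLast (List.cons_ne_nil a l)) := by
  induction l generalizing a with
  | nil =>
    simp only [List.zip_nil_right, List.map_nil, List.sum_nil, List.getLast_singleton]
    generalize f a = x
    revert x; decide
  | cons b t ih =>
    rw [List.zip_cons_cons, List.map_cons, List.sum_cons, ih b, List.getLast_cons_cons]
    generalize f ((b :: t).getLast _) = z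
    generalize f a = x
    generalize f b = y
    revert x y z; decide

/-- For a closed walk the number of steps which leave or enter a set is even. -/
theorem even_boundary (U : Set Pt) {l : List Pt} (h : l.head? = l.getLast?) :
    ((l.zip l.tail).map fun e => if (e.1 ∈ U ↔ e.2 ∈ U) then (0 : ZMod 2) else 1).sum = 0 := by
  cases l with
  | nil => simp
  | cons a l =>
    have h1 := tb1_tele (fun p => if p ∈ U then 1 else 0) a l
    rw [List.tail_cons]
    rw [List.head?_cons, List.getLast?_eq_getLast_of_ne_nil (List.cons_ne_nil a l)] at h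
    rw [← Option.some.inj h] at h1
    have h2 : ∀ x : ZMod 2, x + x = 0 := by decide
    rw [h2] at h1
    refine Eq.trans ?_ h1
    congr 1
    apply List.map_congr_left
    intro e _
    by_cases ha : e.1 ∈ U <;> by_cases hb : e.2 ∈ U <;> simp [ha, hb]
    decide

private theorem tb1_par_sum (v : Pt) (l : List Pt) :
    par v l = ((l.zip l.tail).map fun e => if crs v e.1 e.2 then (1 : ZMod 2) else 0).sum := by
  induction l with
  | nil => simp [par]
  | cons a l ih =>
    cases l with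
    | nil => simp [par]
    | cons b t =>
      rw [List.tail_cons] at ih ⊢
      simp only [par, List.zip_cons_cons, List.map_cons, List.sum_cons]
      rw [ih]

private theorem tb1_mem_zip {l : List Pt} (hl : l.IsChain L.Adj) :
    ∀ e ∈ l.zip l.tail, L.Adj e.1 e.2 ∧ e.1 ∈ l ∧ e.2 ∈ l := by
  induction l with
  | nil => simp
  | cons a l ih =>
    cases l with
    | nil => simp
    | cons b t =>
      intro e he
      rw [List.tail_cons, List.zip_cons_cons, List.mem_cons] at he
      rw [List.isChain_cons_cons] at hl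
      rcases he with rfl | he
      · exact ⟨hl.1, by simp, by simp⟩
      · obtain ⟨h1, h2, h3⟩ := ih hl.2 e he
        exact ⟨h1, List.mem_cons_of_mem _ h2, List.mem_cons_of_mem _ h3⟩

private theorem tb1_two {a b : ZMod 2} (h : a + b = 0) : a = b := by
  revert a b; decide

/-- equality of parities from a stepwise identity -/
private theorem tb1_key {l : List Pt} (hl : l.IsChain L.Adj) (h : l.head? = l.getLast?)
    (U : Set Pt) (v v' : Pt)
    (hk : ∀ p q, L.Adj p q → p ∈ l → q ∈ l →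
      (if (p ∈ U ↔ q ∈ U) then (0 : ZMod 2) else 1) =
        (if crs v p q then (1 : ZMod 2) else 0) + (if crs v' p q then (1 : ZMod 2) else 0)) :
    par v l = par v' l := by
  apply tb1_two
  rw [tb1_par_sum, tb1_par_sum, ← List.sum_map_add]
  refine Eq.trans ?_ (even_boundary U h)
  congr 1
  apply List.map_congr_left
  intro e he
  obtain ⟨h1, h2, h3⟩ := tb1_mem_zip hl e he
  exact (hk e.1 e.2 h1 h2 h3).symm

private theorem tb1_crs_comm {v p q : Pt} : crs v p q ↔ crs v q p := by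
  unfold crs; tauto

/-- the geometric fact: steps between two adjacent columns -/
private theorem tb1_geo {v v' p q : Pt} (hvv : L.Adj v v') (hx : v'.1 = v.1 + 1)
    (hpq : L.Adj p q) (hp : p.1 = v.1) (hq : q.1 = v.1 + 1) (hpv : p ≠ v) (hqv : q ≠ v') :
    v.2 < p.2 ↔ v'.2 < q.2 := by
  obtain ⟨x, y⟩ := v
  obtain ⟨x', y'⟩ := v'
  obtain ⟨p1, p2⟩ := p
  obtain ⟨q1, q2⟩ := q
  simp only at hx hp hq
  subst hp
  subst hx
  subst hq
  have hpy : p2 ≠ y := fun hh => hpv (by rw [hh])
  have hqy : q2 ≠ y' := fun hh => hqv (by rw [hh])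
  unfold Adj Adj1 at hvv hpq
  simp only at hvv hpq ⊢
  rcases hvv with (⟨_, h1⟩ | ⟨h1, _⟩ | ⟨_, h1, h2⟩ | ⟨h1, _, _⟩) |
      (⟨h1, _⟩ | ⟨h1, _⟩ | ⟨h1, _, _⟩ | ⟨_, h1, h2⟩) <;>
    rcases hpq with (⟨_, g1⟩ | ⟨g1, _⟩ | ⟨_, g1, g2⟩ | ⟨g1, _, _⟩) |
      (⟨g1, _⟩ | ⟨g1, _⟩ | ⟨g1, _, _⟩ | ⟨_, g1, g2⟩) <;>
    first
      | omega
      | (constructor <;> intro h3 <;> by_contra h4 <;>
          first
            | omega
            | (have h5 : q2 = y := by omega
               rw [h5, h2] at g2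
               exact absurd g2 (by decide))
            | (have h5 : p2 = y' := by omega
               rw [h5, h2] at g2
               exact absurd g2 (by decide)))

private theorem tb1_horiz {l : List Pt} (hl : l.IsChain L.Adj) (h : l.head? = l.getLast?)
    {v v' : Pt} (hv : v ∉ l) (hv' : v' ∉ l) (hvv : L.Adj v v') (hx : v'.1 = v.1 + 1) :
    par v l = par v' l := by
  apply tb1_key hl h {w | w.1 = v.1 + 1 ∧ v'.2 < w.2} v v'
  intro p q hpq hp hq
  have hpv : p ≠ v := fun hh => hv (hh ▸ hp)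
  have hqv : q ≠ v := fun hh => hv (hh ▸ hq)
  have hpv' : p ≠ v' := fun hh => hv' (hh ▸ hp)
  have hqv' : q ≠ v' := fun hh => hv' (hh ▸ hq)
  have hnear := Adj.near hpq
  rw [abs_le, abs_le] at hnear
  simp only [Set.mem_ofPred_eq]
  have key1 : p.1 = v.1 → q.1 = v.1 + 1 → (v.2 < p.2 ↔ v'.2 < q.2) := fun h1 h2 =>
    tb1_geo hvv hx hpq h1 h2 hpv hqv'
  have key2 : q.1 = v.1 → p.1 = v.1 + 1 → (v.2 < q.2 ↔ v'.2 < p.2) := fun h1 h2 =>
    tb1_geo hvv hx hpq.symm h1 h2 hqv hpv'
  have e1 : ¬ (p.1 = v'.1 ∧ p.2 = v'.2) := fun hh => hpv' (Prod.ext hh.1 hh.2)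
  have e2 : ¬ (q.1 = v'.1 ∧ q.2 = v'.2) := fun hh => hqv' (Prod.ext hh.1 hh.2)
  unfold crs
  have h0 : (0 : ZMod 2) = 1 + 1 := by decide
  split_ifs with c1 c2 c3 c3 c2 c3 c3
  · exact h0
  · omega
  · omega
  · simp
  · omega
  · simp
  · simp
  · omega

/-- CLOSED WALK LEMMA: the parity is the same for two adjacent sites off the closed walk.
Vertical neighbours `(x,y)`, `(x,y+1)`: a step counted for only one of them has its left end at
`(x,y+1)`.  Neighbours `v = (x,y)`, `v' = (x+1,y')`: let `U = {(x+1,z) : z > y'}`.  By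
`even_boundary` the number of steps between the columns `x`, `x+1` with right end in `U` plus the
number of steps between the columns `x+1`, `x+2` with left end in `U` is even (a vertical step
leaving `U` would visit `v'`).  The second number is the one of `v'`.  A step between `(x,p)` and
`(x+1,q)`, `(x,p) ≠ v`, `(x+1,q) ≠ v'`, has `p > y` iff `q > y'`, because `|p - q| ≤ 1` and the
two diagonals of a cell are not both edges. -/
theorem par_adj {l : List Pt} (hl : l.IsChain L.Adj) (h : l.head? = l.getLast?) {v v' : Pt}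
    (hv : v ∉ l) (hv' : v' ∉ l) (hvv : L.Adj v v') : par v l = par v' l := by
  have vert : ∀ w w' : Pt, w ∉ l → w' ∉ l → w'.1 = w.1 → w'.2 = w.2 + 1 →
      par w l = par w' l := by
    intro w w' hw hw' h1 h2
    rw [tb1_par_sum, tb1_par_sum]
    congr 1
    apply List.map_congr_left
    intro e he
    obtain ⟨g1, g2, g3⟩ := tb1_mem_zip hl e he
    have e1 : ¬ (e.1.1 = w'.1 ∧ e.1.2 = w'.2) := fun hh => hw' (Prod.ext hh.1 hh.2 ▸ g2)
    have e2 : ¬ (e.2.1 = w'.1 ∧ e.2.2 = w'.2) := fun hh => hw' (Prod.ext hh.1 hh.2 ▸ g3)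
    have : crs w e.1 e.2 ↔ crs w' e.1 e.2 := by
      unfold crs
      omega
    simp only [this]
  have main : ∀ w w' : Pt, w ∉ l → w' ∉ l → L.Adj1 w w' → par w l = par w' l := by
    intro w w' hw hw' h1
    have hadj : L.Adj w w' := Or.inl h1
    rcases h1 with ⟨h2, h3⟩ | ⟨h2, h3⟩ | ⟨h2, h3, h4⟩ | ⟨h2, h3, h4⟩
    · exact tb1_horiz hl h hw hw' hadj h2
    · exact vert w w' hw hw' h2 h3
    · exact tb1_horiz hl h hw hw' hadj h2
    · exact (tb1_horiz hl h hw' hw hadj.symm (by omega)).symm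
  rcases hvv with h1 | h1
  · exact main v v' hv hv' h1
  · exact (main v' v hv' hv h1).symm

/-- the parity is constant on connected sets off the closed walk -/
theorem par_cn {l : List Pt} (hl : l.IsChain L.Adj) (h : l.head? = l.getLast?) {A : Set Pt}
    (hA : ∀ v ∈ A, v ∉ l) {v v' : Pt} (hvv : L.Cn A v v') : par v l = par v' l := by
  obtain ⟨h0, h1⟩ := hvv
  have : par v l = par v' l ∧ v' ∈ A := by
    induction h1 with
    | refl => exact ⟨rfl, h0⟩
    | tail _ hbc ih =>
      exact ⟨ih.1.trans (par_adj hl h (hA _ ih.2) (hA _ hbc.2) hbc.1), hbc.2⟩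
  exact this.1

/-- sites above the walk -/
theorem par_above {l : List Pt} {v : Pt} (h : ∀ w ∈ l, w.2 ≤ v.2) : par v l = 0 := by
  rw [tb1_par_sum]
  apply List.sum_eq_zero
  intro x hx
  rw [List.mem_map] at hx
  obtain ⟨e, he, rfl⟩ := hx
  have h1 : e.1 ∈ l := (List.of_mem_zip (a := e.1) (b := e.2) he).1
  have h2 : e.2 ∈ l := List.mem_of_mem_tail (List.of_mem_zip (a := e.1) (b := e.2) he).2
  have h3 := h _ h1
  have h4 := h _ h2
  have : ¬ crs v e.1 e.2 := by
    unfold crs
    omega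
  simp [this]

/-- sites below a closed walk: all steps between the two columns are counted -/
theorem par_below {l : List Pt} (hl : l.IsChain L.Adj) (hc : l.head? = l.getLast?) {v : Pt}
    (h : ∀ w ∈ l, v.2 < w.2) : par v l = 0 := by
  rw [tb1_par_sum]
  refine Eq.trans ?_ (even_boundary {w | w.1 ≤ v.1} hc)
  congr 1
  apply List.map_congr_left
  intro e he
  obtain ⟨g1, g2, g3⟩ := tb1_mem_zip hl e he
  have h3 := h _ g2
  have h4 := h _ g3
  have hnear := Adj.near g1
  rw [abs_le, abs_le] at hnear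
  simp only [Set.mem_ofPred_eq]
  have : crs v e.1 e.2 ↔ ¬ (e.1.1 ≤ v.1 ↔ e.2.1 ≤ v.1) := by
    unfold crs
    omega
  by_cases h5 : (e.1.1 ≤ v.1 ↔ e.2.1 ≤ v.1)
  · rw [if_pos h5, if_neg (by rw [this]; exact not_not.mpr h5)]
  · rw [if_neg h5, if_pos (this.mpr h5)]

end Lat

end SC

end

/-! ### from `Lib_MP_e0a489.TB4` -/

section

/-!
# MP_e0a489, topology 2d: the boundary of a rectangle
-/

set_option autoImplicit false

namespace SC

open Classical

/-- the sites of the boundary of `[a,b] × [c,d]`, counterclockwise from the lower left corner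
(`0 ≤ i < 2(b-a) + 2(d-c)`) -/
def bp (a b c d i : ℤ) : Pt :=
  if i ≤ b - a then (a + i, c)
  else if i ≤ (b - a) + (d - c) then (b, c + (i - (b - a)))
  else if i ≤ 2 * (b - a) + (d - c) then (b - (i - (b - a) - (d - c)), d)
  else (a, d - (i - 2 * (b - a) - (d - c)))

private theorem habs (x y : ℤ) (h : (x = 0 ∧ (y = 1 ∨ y = -1)) ∨ ((x = 1 ∨ x = -1) ∧ y = 0)) :
    |x| + |y| = 1 := by
  rcases h with ⟨rfl, rfl | rfl⟩ | ⟨rfl | rfl, rfl⟩ <;> simp

namespace Lat

variable {L : Lat}

theorem bp_adj {a b c d i : ℤ} (hab : a < b) (hcd : c < d) (h0 : 0 ≤ i)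
    (h : i + 1 < 2 * (b - a) + 2 * (d - c)) : L.Adj (bp a b c d i) (bp a b c d (i + 1)) := by
  apply adj_of_nn
  apply habs
  unfold bp
  split_ifs <;> dsimp only <;> omega

theorem bp_adj_last {a b c d : ℤ} (hab : a < b) (hcd : c < d) :
    L.Adj (bp a b c d (2 * (b - a) + 2 * (d - c) - 1)) (bp a b c d 0) := by
  apply adj_of_nn
  apply habs
  unfold bp
  split_ifs <;> dsimp only <;> omega

theorem bp_inj {a b c d i j : ℤ} (hab : a < b) (hcd : c < d) (hi : 0 ≤ i) (hj : 0 ≤ j)
    (hi' : i < 2 * (b - a) + 2 * (d - c)) (hj' : j < 2 * (b - a) + 2 * (d - c))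
    (h : bp a b c d i = bp a b c d j) : i = j := by
  have h1 := congrArg Prod.fst h
  have h2 := congrArg Prod.snd h
  unfold bp at h1 h2
  split_ifs at h1 h2 <;> dsimp only at h1 h2 <;> omega

theorem bp_surj {a b c d : ℤ} (hab : a < b) (hcd : c < d) {v : Pt} (hv : v ∈ rect a b c d)
    (hb : v.1 = a ∨ v.1 = b ∨ v.2 = c ∨ v.2 = d) :
    ∃ i, 0 ≤ i ∧ i < 2 * (b - a) + 2 * (d - c) ∧ bp a b c d i = v := by
  obtain ⟨x, y⟩ := v
  obtain ⟨⟨h1, h2⟩, h3, h4⟩ := hv
  dsimp only at h1 h2 h3 h4 hb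
  by_cases e1 : y = c
  · refine ⟨x - a, by omega, by omega, ?_⟩
    unfold bp
    rw [if_pos (by omega)]
    exact Prod.ext (by dsimp only; omega) (by dsimp only; omega)
  by_cases e2 : x = b
  · refine ⟨(b - a) + (y - c), by omega, by omega, ?_⟩
    unfold bp
    rw [if_neg (by omega), if_pos (by omega)]
    exact Prod.ext (by dsimp only; omega) (by dsimp only; omega)
  by_cases e3 : y = d
  · refine ⟨(b - a) + (d - c) + (b - x), by omega, by omega, ?_⟩
    unfold bp
    rw [if_neg (by omega), if_neg (by omega), if_pos (by omega)]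
    exact Prod.ext (by dsimp only; omega) (by dsimp only; omega)
  · refine ⟨2 * (b - a) + (d - c) + (d - y), by omega, by omega, ?_⟩
    unfold bp
    rw [if_neg (by omega), if_neg (by omega), if_neg (by omega)]
    exact Prod.ext (by dsimp only; omega) (by dsimp only; omega)

theorem bp_mem {a b c d i : ℤ} (hab : a < b) (hcd : c < d) (hi : 0 ≤ i)
    (hi' : i < 2 * (b - a) + 2 * (d - c)) : bp a b c d i ∈ rect a b c d ∧
      ((bp a b c d i).1 = a ∨ (bp a b c d i).1 = b ∨ (bp a b c d i).2 = c ∨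
        (bp a b c d i).2 = d) := by
  refine ⟨⟨⟨?_, ?_⟩, ?_, ?_⟩, ?_⟩ <;> unfold bp <;> split_ifs <;> dsimp only <;> omega

end Lat

end SC

end

/-! ### from `Lib_MP_e0a489.PB1` -/

section

/-!
# MP_e0a489, probability toolkit 3a: Harris inequality
-/

set_option autoImplicit false

namespace SC

open Classical

/-- `g` is increasing in the sites of `G` -/
def IncOn (g : Cfg → ℝ) (G : Set Pt) : Prop :=
  ∀ ω ω' : Cfg, (∀ v ∈ G, ω v ≤ ω' v) → (∀ v, v ∉ G → ω v = ω' v) → g ω ≤ g ω'

/-- `g` is decreasing in the sites of `G` -/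
def DecOn (g : Cfg → ℝ) (G : Set Pt) : Prop :=
  ∀ ω ω' : Cfg, (∀ v ∈ G, ω v ≤ ω' v) → (∀ v, v ∉ G → ω v = ω' v) → g ω' ≤ g ω

private theorem ovr_upd_f {v : Pt} {G S : Finset Pt} (hv : v ∉ G) (hS : S ⊆ G) (ω : Cfg) :
    ovr (insert v G) S ω = ovr G S (Function.update ω v false) := by
  funext x
  unfold ovr
  by_cases hx : x = v
  · subst hx
    have h1 : x ∉ S := fun h => hv (hS h)
    simp [hv, h1]
  · simp [hx]

private theorem ovr_upd_t {v : Pt} {G S : Finset Pt} (hv : v ∉ G) (ω : Cfg) :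
    ovr (insert v G) (insert v S) ω = ovr G S (Function.update ω v true) := by
  funext x
  unfold ovr
  by_cases hx : x = v
  · subst hx
    simp [hv]
  · simp [hx]

private theorem av_ins {v : Pt} {G : Finset Pt} (hv : v ∉ G) (g : Cfg → ℝ) (ω : Cfg) :
    av (insert v G) g ω =
      (av G g (Function.update ω v false) + av G g (Function.update ω v true)) / 2 := by
  unfold av
  rw [Finset.sum_powerset_insert hv, Finset.card_insert_of_notMem hv]
  have h1 : ∑ S ∈ G.powerset, g (ovr (insert v G) S ω) =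
      ∑ S ∈ G.powerset, g (ovr G S (Function.update ω v false)) := by
    refine Finset.sum_congr rfl fun S hS => ?_
    rw [ovr_upd_f hv (Finset.mem_powerset.1 hS)]
  have h2 : ∑ S ∈ G.powerset, g (ovr (insert v G) (insert v S) ω) =
      ∑ S ∈ G.powerset, g (ovr G S (Function.update ω v true)) := by
    refine Finset.sum_congr rfl fun S _ => ?_
    rw [ovr_upd_t hv]
  rw [h1, h2, pow_succ]
  field_simp

private theorem incOn_ins {v : Pt} {G : Finset Pt} {g : Cfg → ℝ}
    (hg : IncOn g ((insert v G : Finset Pt) : Set Pt)) :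
    IncOn g (G : Set Pt) := by
  intro ω ω' h1 h2
  refine hg ω ω' (fun x hx => ?_) (fun x hx => h2 x fun h => hx ?_)
  · by_cases hxG : x ∈ (G : Set Pt)
    · exact h1 x hxG
    · exact le_of_eq (h2 x hxG)
  · exact Finset.mem_coe.2 (Finset.mem_insert_of_mem (Finset.mem_coe.1 h))

private theorem av_upd_le {v : Pt} {G : Finset Pt} (hv : v ∉ G) {g : Cfg → ℝ}
    (hg : IncOn g ((insert v G : Finset Pt) : Set Pt)) (ω : Cfg) :
    av G g (Function.update ω v false) ≤ av G g (Function.update ω v true) := by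
  unfold av
  refine div_le_div_of_nonneg_right (Finset.sum_le_sum fun S _ => ?_) (by positivity)
  refine hg _ _ (fun x _ => ?_) (fun x hx => ?_)
  · unfold ovr
    by_cases hxG : x ∈ G
    · simp [hxG]
    · by_cases hx : x = v
      · subst hx; simp [hxG]
      · simp [hxG, Function.update_of_ne hx]
  · have hxv : x ≠ v := fun h => hx (by subst h; simp)
    unfold ovr
    simp [Function.update_of_ne hxv]

private theorem av_neg' (G : Finset Pt) (g : Cfg → ℝ) (ω : Cfg) :
    av G (fun ω => - g ω) ω = - av G g ω := by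
  unfold av
  rw [Finset.sum_neg_distrib, neg_div]

private theorem dec_neg {G : Set Pt} {g : Cfg → ℝ} (hg : DecOn g G) :
    IncOn (fun ω => - g ω) G := fun ω ω' h1 h2 => neg_le_neg (hg ω ω' h1 h2)

private theorem harris_aux (G : Finset Pt) {g h : Cfg → ℝ} :
    IncOn g (G : Set Pt) → IncOn h (G : Set Pt) → ∀ ω : Cfg,
    av G g ω * av G h ω ≤ av G (fun ω => g ω * h ω) ω := by
  induction G using Finset.induction_on with
  | empty =>
    intro _ _ ω
    simp [av]
  | insert v G hv ih =>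
    intro hg hh ω
    rw [av_ins hv, av_ins hv, av_ins hv]
    have h0 := ih (incOn_ins hg) (incOn_ins hh) (Function.update ω v false)
    have h1 := ih (incOn_ins hg) (incOn_ins hh) (Function.update ω v true)
    have h2 := av_upd_le hv hg ω
    have h3 := av_upd_le hv hh ω
    nlinarith [mul_nonneg (sub_nonneg.2 h2) (sub_nonneg.2 h3)]

/-- Harris inequality for the average over `G` (the configuration off `G` is fixed).  Induction on
`G`: for `G = insert v G'`, `av G = av {v} ∘ av G'`, the two functions `av G' g`, `av G' h` are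
increasing in `v`, and for one site `(a+b)/2 * (c+d)/2 ≤ (ac+bd)/2` if `a ≤ b`, `c ≤ d`. -/
theorem harris {G : Finset Pt} {g h : Cfg → ℝ} (hg : IncOn g (G : Set Pt))
    (hh : IncOn h (G : Set Pt)) (ω : Cfg) :
    av G g ω * av G h ω ≤ av G (fun ω => g ω * h ω) ω :=
  harris_aux G hg hh ω

theorem harris_dec {G : Finset Pt} {g h : Cfg → ℝ} (hg : DecOn g (G : Set Pt))
    (hh : DecOn h (G : Set Pt)) (ω : Cfg) :
    av G g ω * av G h ω ≤ av G (fun ω => g ω * h ω) ω := by
  have h1 := harris_aux G (dec_neg hg) (dec_neg hh) ω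
  rw [av_neg', av_neg'] at h1
  simpa using h1

theorem harris_neg {G : Finset Pt} {g h : Cfg → ℝ} (hg : IncOn g (G : Set Pt))
    (hh : DecOn h (G : Set Pt)) (ω : Cfg) :
    av G (fun ω => g ω * h ω) ω ≤ av G g ω * av G h ω := by
  have h1 := harris_aux G hg (dec_neg hh) ω
  rw [av_neg'] at h1
  have h2 : av G (fun ω => g ω * - h ω) ω = - av G (fun ω => g ω * h ω) ω := by
    rw [← av_neg']
    congr 1
    funext ω
    ring
  rw [h2] at h1
  nlinarith [h1]

end SC

end
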