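import Mathlib

/-!
# MP_e0a489_pr: merged library part G02

Concatenation of library files (each in its own section), only to save build time.
-/

/-! ### from `Lib_MP_e0a489.FI10` -/

section

/-!
# MP_e0a489, module FI, analysis 1: abstract arm probabilities, comparison lemma
-/

set_option autoImplicit false

namespace SC

namespace FI

/-- abstract properties of `al L` (lower exponent `2 γ`) -/
structure AG (f : ℤ → ℤ → ℝ) (C γ : ℝ) (R₀ : ℤ) : Prop where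
  C1 : 1 ≤ C
  g0 : 0 ≤ γ
  g1 : γ ≤ 1
  R16 : 16 ≤ R₀
  nn : ∀ r R, 0 ≤ f r R
  le1 : ∀ r R, f r R ≤ 1
  one : ∀ r R, R ≤ r → f r R = 1
  mono : ∀ r R r' R', 0 ≤ r' → r' ≤ r → r ≤ R → R ≤ R' → f r' R' ≤ f r R
  qm : ∀ r ρ R, R₀ ≤ r → r ≤ ρ → ρ ≤ R → f r ρ * f ρ R ≤ C * f r R
  lo : ∀ r R, R₀ ≤ r → r ≤ R → ((r : ℝ) / R) ^ (2 * γ) ≤ C * f r R

/-- lower bound of `f` for comparable radii -/
private theorem fi10_lo {f : ℤ → ℤ → ℝ} {C γ : ℝ} {R₀ : ℤ} (h : AG f C γ R₀) {K : ℝ}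
    (hK : 1 ≤ K) {a b : ℤ} (h1 : R₀ ≤ a) (h2 : a ≤ b) (h3 : (b : ℝ) ≤ K * a) :
    1 ≤ C * K ^ 2 * f a b := by
  have ha : (0 : ℝ) < a := by
    have := h.R16
    exact_mod_cast (show (0 : ℤ) < a by omega)
  have hb : (0 : ℝ) < b := lt_of_lt_of_le ha (by exact_mod_cast h2)
  have hK0 : 0 < K := lt_of_lt_of_le one_pos hK
  have e1 : K⁻¹ ≤ (a : ℝ) / b := by
    rw [le_div_iff₀ hb, inv_mul_le_iff₀ hK0]
    exact h3
  have e2 : (K⁻¹) ^ (2 : ℝ) ≤ (K⁻¹) ^ (2 * γ) :=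
    Real.rpow_le_rpow_of_exponent_ge (inv_pos.2 hK0) (inv_le_one_of_one_le₀ hK)
      (by have := h.g1; linarith)
  have e3 : (K⁻¹) ^ (2 * γ) ≤ ((a : ℝ) / b) ^ (2 * γ) :=
    Real.rpow_le_rpow (inv_pos.2 hK0).le e1 (by have := h.g0; linarith)
  have e4 : (K⁻¹) ^ (2 : ℝ) = (K ^ 2)⁻¹ := by
    rw [← inv_pow, ← Real.rpow_natCast]
    norm_num
  have e5 : (K ^ 2)⁻¹ ≤ C * f a b := by
    rw [← e4]
    exact le_trans e2 (le_trans e3 (h.lo a b h1 h2))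
  have e6 : 0 < K ^ 2 := pow_pos hK0 2
  calc (1 : ℝ) = K ^ 2 * (K ^ 2)⁻¹ := (mul_inv_cancel₀ e6.ne').symm
    _ ≤ K ^ 2 * (C * f a b) := mul_le_mul_of_nonneg_left e5 e6.le
    _ = C * K ^ 2 * f a b := by ring

/-- COMPARISON of radii changed by bounded factors.
Proof: if `R' ≤ r'` the right side is at least `1 ≥ f r R` (`one`, `le1`).  Let `r' < R'`, `ρ₁ = max r' (min r R')`,
`ρ₂ = max ρ₁ (min R R')`, so `r' ≤ ρ₁ ≤ ρ₂ ≤ R'`.  `ρ₁ ≤ max r' r ≤ K r'`, so `f r' ρ₁ ≥ C⁻¹ (r'/ρ₁)^(2γ) ≥ C⁻¹ K⁻²`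
(`2 γ ≤ 2`, `K ≥ 1`).  `ρ₂ ≥ min R R' ≥ R' / K`, so `f ρ₂ R' ≥ C⁻¹ K⁻²`.  `f r R ≤ f ρ₁ ρ₂`: if `ρ₁ = ρ₂` the right side is
`1`; otherwise `ρ₂ = min R R' > ρ₁`, so `ρ₁ < R'`, `ρ₁ = max r' r ≥ r`, `ρ₂ ≤ R`, use `mono`.  By `qm` twice
`f r' ρ₁ * f ρ₁ ρ₂ * f ρ₂ R' ≤ C² f r' R'`.  Together `f r R ≤ C² (C K²)² f r' R'`. -/
theorem AG.cmp {f : ℤ → ℤ → ℝ} {C γ : ℝ} {R₀ : ℤ} (h : AG f C γ R₀) {K : ℝ} (hK : 1 ≤ K)
    {r R r' R' : ℤ} (h1 : R₀ ≤ r) (h1' : R₀ ≤ r') (h2 : (r : ℝ) ≤ K * r')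
    (h3 : (R' : ℝ) ≤ K * R) : f r R ≤ C ^ 4 * K ^ 4 * f r' R' := by
  have hC := h.C1
  have h16 := h.R16
  have hC0 : (0 : ℝ) ≤ C := by linarith
  have hK0 : (0 : ℝ) ≤ K := by linarith
  have hCK : 1 ≤ C ^ 4 * K ^ 4 := by
    have a1 : 1 ≤ C ^ 4 := one_le_pow₀ hC
    have a2 : 1 ≤ K ^ 4 := one_le_pow₀ hK
    calc (1 : ℝ) = 1 * 1 := (one_mul 1).symm
      _ ≤ C ^ 4 * K ^ 4 := mul_le_mul a1 a2 zero_le_one (by linarith)
  by_cases hc : R' ≤ r'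
  · rw [h.one r' R' hc, mul_one]
    exact le_trans (h.le1 r R) hCK
  · have hr' : r' < R' := not_le.1 hc
    obtain ⟨ρ₁, hρ₁⟩ : ∃ ρ, ρ = max r' (min r R') := ⟨_, rfl⟩
    obtain ⟨ρ₂, hρ₂⟩ : ∃ ρ, ρ = max ρ₁ (min R R') := ⟨_, rfl⟩
    have b1 : r' ≤ ρ₁ := by omega
    have b2 : ρ₁ ≤ ρ₂ := by omega
    have b3 : ρ₂ ≤ R' := by omega
    have b4 : ρ₁ ≤ r' ∨ ρ₁ ≤ r := by omega
    have r'0 : (0 : ℝ) < r' := by exact_mod_cast (show (0 : ℤ) < r' by omega)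
    have R'0 : (0 : ℝ) < R' := by exact_mod_cast (show (0 : ℤ) < R' by omega)
    have c1 : (ρ₁ : ℝ) ≤ K * r' := by
      rcases b4 with b4 | b4
      · have : (ρ₁ : ℝ) ≤ r' := by exact_mod_cast b4
        nlinarith
      · have : (ρ₁ : ℝ) ≤ r := by exact_mod_cast b4
        linarith
    have c2 : (R' : ℝ) ≤ K * ρ₂ := by
      have b5 : R ≤ ρ₂ ∨ R' ≤ ρ₂ := by omega
      rcases b5 with b5 | b5
      · have : (R : ℝ) ≤ ρ₂ := by exact_mod_cast b5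
        nlinarith
      · have : (R' : ℝ) ≤ ρ₂ := by exact_mod_cast b5
        nlinarith
    have d1 := fi10_lo h hK h1' b1 c1
    have d2 := fi10_lo h hK (show R₀ ≤ ρ₂ by omega) b3 c2
    have d3 : f r R ≤ f ρ₁ ρ₂ := by
      by_cases he : ρ₂ ≤ ρ₁
      · rw [h.one ρ₁ ρ₂ he]
        exact h.le1 r R
      · exact h.mono ρ₁ ρ₂ r R (by omega) (by omega) b2 (by omega)
    have q1 := h.qm r' ρ₁ R' h1' b1 (le_trans b2 b3)
    have q2 := h.qm ρ₁ ρ₂ R' (by omega) b2 b3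
    have n0 := h.nn r' R'
    have n1 := h.nn r' ρ₁
    have n2 := h.nn ρ₁ ρ₂
    have n3 := h.nn ρ₂ R'
    have n4 := h.nn ρ₁ R'
    have p1 : f r' ρ₁ * (f ρ₁ ρ₂ * f ρ₂ R') ≤ C ^ 2 * f r' R' := by
      calc f r' ρ₁ * (f ρ₁ ρ₂ * f ρ₂ R') ≤ f r' ρ₁ * (C * f ρ₁ R') :=
            mul_le_mul_of_nonneg_left q2 n1
        _ = C * (f r' ρ₁ * f ρ₁ R') := by ring
        _ ≤ C * (C * f r' R') := mul_le_mul_of_nonneg_left q1 hC0
        _ = C ^ 2 * f r' R' := by ring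
    have p2 : 1 ≤ (C * K ^ 2 * f r' ρ₁) * (C * K ^ 2 * f ρ₂ R') := by
      calc (1 : ℝ) = 1 * 1 := (one_mul 1).symm
        _ ≤ _ := mul_le_mul d1 d2 zero_le_one (by linarith)
    calc f r R ≤ f ρ₁ ρ₂ := d3
      _ = 1 * f ρ₁ ρ₂ := (one_mul _).symm
      _ ≤ ((C * K ^ 2 * f r' ρ₁) * (C * K ^ 2 * f ρ₂ R')) * f ρ₁ ρ₂ :=
          mul_le_mul_of_nonneg_right p2 n2
      _ = (C ^ 2 * K ^ 4) * (f r' ρ₁ * (f ρ₁ ρ₂ * f ρ₂ R')) := by ring
      _ ≤ (C ^ 2 * K ^ 4) * (C ^ 2 * f r' R') :=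
          mul_le_mul_of_nonneg_left p1 (mul_nonneg (pow_nonneg hC0 2) (pow_nonneg hK0 4))
      _ = C ^ 4 * K ^ 4 * f r' R' := by ring

/-- a larger threshold is allowed -/
theorem AG.mono_R {f : ℤ → ℤ → ℝ} {C γ : ℝ} {R₀ R₁ : ℤ} (h : AG f C γ R₀) (h1 : R₀ ≤ R₁) :
    AG f C γ R₁ where
  C1 := h.C1
  g0 := h.g0
  g1 := h.g1
  R16 := le_trans h.R16 h1
  nn := h.nn
  le1 := h.le1
  one := h.one
  mono := h.mono
  qm := fun r ρ R h2 => h.qm r ρ R (le_trans h1 h2)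
  lo := fun r R h2 => h.lo r R (le_trans h1 h2)

/-- abstract properties of `al L` with the upper exponent `1 + c` -/
structure AF (f : ℤ → ℤ → ℝ) (C c γ : ℝ) (R₀ : ℤ) : Prop extends AG f C γ R₀ where
  c0 : 0 < c
  g1' : γ < 1
  sub : ∀ r ρ R, 0 ≤ r → r ≤ ρ → ρ ≤ R → f r R ≤ f r ρ * f ρ R
  up : ∀ r R, R₀ ≤ r → r ≤ R → f r R ≤ C * ((r : ℝ) / R) ^ (1 + c)

theorem AF.mono_R {f : ℤ → ℤ → ℝ} {C c γ : ℝ} {R₀ R₁ : ℤ} (h : AF f C c γ R₀) (h1 : R₀ ≤ R₁) :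
    AF f C c γ R₁ where
  toAG := h.toAG.mono_R h1
  c0 := h.c0
  g1' := h.g1'
  sub := h.sub
  up := fun r R h2 => h.up r R (le_trans h1 h2)

/-- clamp -/
def cl (p a b : ℤ) : ℤ := max a (min p b)

/-- distance of `x` to the nearest side of the rectangle `[-N, N] × [-N', N']` -/
def hm (N N' : ℤ) (x : ℤ × ℤ) : ℤ := min (N - |x.1|) (N' - |x.2|)

/-- distance to the nearest side of the other direction -/
def hM (N N' : ℤ) (x : ℤ × ℤ) : ℤ := max (N - |x.1|) (N' - |x.2|)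

/-- the corner of the block number `z` -/
def sc (w : ℤ) (z : ℤ × ℤ) : ℤ × ℤ := (w * z.1, w * z.2)

/-- sup distance of two blocks -/
def bd2 (w : ℤ) (z z' : ℤ × ℤ) : ℤ := max |w * z.1 - w * z'.1| |w * z.2 - w * z'.2|

/-- the bound for the two-time probability of a pivotal block with centre `x`, radii `a ≤ b` -/
noncomputable def gg (f : ℤ → ℤ → ℝ) (γ : ℝ) (N N' a b : ℤ) (x : ℤ × ℤ) : ℝ :=
  (f a b) ^ 2 * ((b : ℝ) / cl (N - |x.1|) a b) ^ γ * ((b : ℝ) / cl (N' - |x.2|) a b) ^ γ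

end FI

end SC

end

/-! ### from `Lib_MP_e0a489.FI14b` -/

section

/-!
# MP_e0a489, module FI, analysis 5b: `(R / r) f r R`, growth
-/

set_option autoImplicit false

namespace SC

namespace FI

/-- Change of both radii by bounded factors: `f r' R' ≥ C⁻⁴ K⁻⁴ f r R` (`AG.cmp`), `R / r ≤ K² R' / r'`. -/
theorem AG.phi {f : ℤ → ℤ → ℝ} {C γ : ℝ} {R₀ : ℤ} (h : AG f C γ R₀) {K : ℝ} (hK : 1 ≤ K)
    {r R r' R' : ℤ} (h1 : R₀ ≤ r) (h1' : R₀ ≤ r') (h2 : (r : ℝ) ≤ K * r') (h4 : (r' : ℝ) ≤ K * r)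
    (h3 : (R' : ℝ) ≤ K * R) (h5 : (R : ℝ) ≤ K * R') (h0 : 0 ≤ R) :
    (R : ℝ) / r * f r R ≤ C ^ 4 * K ^ 6 * ((R' : ℝ) / r' * f r' R') := by
  have hc := h.cmp hK h1 h1' h2 h3
  have hr : (0 : ℝ) < r := by exact_mod_cast (show 0 < r by have := h.R16; omega)
  have hr' : (0 : ℝ) < r' := by exact_mod_cast (show 0 < r' by have := h.R16; omega)
  have hR : (0 : ℝ) ≤ R := by exact_mod_cast h0
  have hKp : 0 < K := by linarith
  have hR' : (0 : ℝ) ≤ R' := by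
    by_contra hcon
    push Not at hcon
    have := mul_neg_of_pos_of_neg hKp hcon
    linarith
  have hf := h.nn r' R'
  have hf1 := h.nn r R
  have e1 : (R : ℝ) / r ≤ K ^ 2 * ((R' : ℝ) / r') := by
    rw [← mul_div_assoc, div_le_div_iff₀ hr hr']
    calc (R : ℝ) * r' ≤ (K * R') * (K * r) := mul_le_mul h5 h4 hr'.le (by positivity)
      _ = K ^ 2 * R' * r := by ring
  calc (R : ℝ) / r * f r R ≤ (K ^ 2 * ((R' : ℝ) / r')) * (C ^ 4 * K ^ 4 * f r' R') :=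
        mul_le_mul e1 hc hf1 (by positivity)
    _ = C ^ 4 * K ^ 6 * ((R' : ℝ) / r' * f r' R') := by ring

/-- Growth of `r² f R₀ r`: `f R₀ r * f r (K r) ≤ C f R₀ (K r)` (`qm`), `f r (K r) ≥ C⁻¹ K^(-2γ)` (`lo`), so
`(K r)² f R₀ (K r) ≥ K^(2-2γ) C⁻² r² f R₀ r`; choose `K` with `K^(2-2γ) ≥ A C²` (`γ < 1`). -/
theorem AF.growth {f : ℤ → ℤ → ℝ} {C c γ : ℝ} {R₀ : ℤ} (h : AF f C c γ R₀) (A : ℝ) :
    ∃ K : ℤ, 1 ≤ K ∧ ∀ r : ℤ, R₀ ≤ r →
      A * ((r : ℝ) ^ 2 * f R₀ r) ≤ ((K * r : ℤ) : ℝ) ^ 2 * f R₀ (K * r) := by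
  have hC0 : 0 < C := by linarith [h.C1]
  have hg : 0 < 2 - 2 * γ := by linarith [h.g1']
  have ht := (tendsto_rpow_atTop hg).comp (tendsto_natCast_atTop_atTop (R := ℝ))
  obtain ⟨n, hn1, hn2⟩ := ((ht.eventually_ge_atTop (A * C ^ 2)).and
    (Filter.eventually_ge_atTop 1)).exists
  simp only [Function.comp_apply] at hn1
  refine ⟨(n : ℤ), by exact_mod_cast hn2, ?_⟩
  intro r hr
  have hr0 : 0 < r := by have := h.R16; omega
  have hr0' : (0 : ℝ) < r := by exact_mod_cast hr0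
  have hn0 : (1 : ℝ) ≤ (n : ℝ) := by exact_mod_cast hn2
  have hnp : (0 : ℝ) < (n : ℝ) := by linarith
  have hle : r ≤ (n : ℤ) * r := by
    have : (1 : ℤ) ≤ n := by exact_mod_cast hn2
    nlinarith
  have hq := h.qm (R₀) r ((n : ℤ) * r) le_rfl hr hle
  have hl := h.lo r ((n : ℤ) * r) hr hle
  have hf := h.nn R₀ r
  have e0 : (r : ℝ) / (((n : ℤ) * r : ℤ) : ℝ) = ((n : ℝ))⁻¹ := by
    push_cast
    field_simp
  rw [e0, Real.inv_rpow hnp.le] at hl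
  have e1 : (n : ℝ) ^ (2 - 2 * γ) = (n : ℝ) ^ 2 * ((n : ℝ) ^ (2 * γ))⁻¹ := by
    rw [Real.rpow_sub hnp, div_eq_mul_inv]
    norm_num
  set g : ℝ := ((n : ℝ) ^ (2 * γ))⁻¹ with hgd
  have hg0 : 0 < g := inv_pos.2 (Real.rpow_pos_of_pos hnp _)
  have e2 : f R₀ r * g ≤ C ^ 2 * f R₀ ((n : ℤ) * r) := by
    have h3 : f R₀ r * g ≤ f R₀ r * (C * f r ((n : ℤ) * r)) := mul_le_mul_of_nonneg_left hl hf
    nlinarith
  have e3 : A * C ^ 2 ≤ (n : ℝ) ^ 2 * g := by rw [← e1]; exact hn1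
  have e4 : A * f R₀ r ≤ (n : ℝ) ^ 2 * f R₀ ((n : ℤ) * r) := by
    have h5 : C ^ 2 * (A * f R₀ r) ≤ C ^ 2 * ((n : ℝ) ^ 2 * f R₀ ((n : ℤ) * r)) := by
      calc C ^ 2 * (A * f R₀ r) = (A * C ^ 2) * f R₀ r := by ring
        _ ≤ ((n : ℝ) ^ 2 * g) * f R₀ r := mul_le_mul_of_nonneg_right e3 hf
        _ = (n : ℝ) ^ 2 * (f R₀ r * g) := by ring
        _ ≤ (n : ℝ) ^ 2 * (C ^ 2 * f R₀ ((n : ℤ) * r)) :=
            mul_le_mul_of_nonneg_left e2 (by positivity)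
        _ = C ^ 2 * ((n : ℝ) ^ 2 * f R₀ ((n : ℤ) * r)) := by ring
    exact le_of_mul_le_mul_left h5 (by positivity)
  calc A * ((r : ℝ) ^ 2 * f R₀ r) = (r : ℝ) ^ 2 * (A * f R₀ r) := by ring
    _ ≤ (r : ℝ) ^ 2 * ((n : ℝ) ^ 2 * f R₀ ((n : ℤ) * r)) :=
        mul_le_mul_of_nonneg_left e4 (by positivity)
    _ = ((((n : ℤ) * r : ℤ) : ℝ)) ^ 2 * f R₀ ((n : ℤ) * r) := by push_cast; ring

/-- `(d / r) f r d ≥ c' > 0` if `d ≤ K r` (`lo`). -/
theorem AG.phi_low {f : ℤ → ℤ → ℝ} {C γ : ℝ} {R₀ : ℤ} (h : AG f C γ R₀) {K : ℝ} (hK : 1 ≤ K) :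
    ∃ c' : ℝ, 0 < c' ∧ ∀ r d : ℤ, R₀ ≤ r → r ≤ d → (d : ℝ) ≤ K * r →
      c' ≤ ((d : ℝ) / r * f r d) ^ 2 := by
  have hC0 : 0 < C := by linarith [h.C1]
  have hKp : 0 < K := by linarith
  refine ⟨(1 / (C * K ^ 2)) ^ 2, by positivity, ?_⟩
  intro r d hr hrd hd
  have hr0 : (0 : ℝ) < r := by exact_mod_cast (show 0 < r by have := h.R16; omega)
  have hrd' : (r : ℝ) ≤ d := by exact_mod_cast hrd
  have hd0 : (0 : ℝ) < d := by linarith
  have hl := h.lo r d hr hrd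
  have e1 : 1 / K ≤ (r : ℝ) / d := by
    rw [div_le_div_iff₀ hKp hd0]
    linarith
  have e2 : (1 / K) ^ 2 ≤ ((r : ℝ) / d) ^ (2 * γ) := by
    calc (1 / K) ^ 2 ≤ ((r : ℝ) / d) ^ 2 := pow_le_pow_left₀ (by positivity) e1 2
      _ = ((r : ℝ) / d) ^ (2 : ℝ) := by norm_num
      _ ≤ ((r : ℝ) / d) ^ (2 * γ) :=
          Real.rpow_le_rpow_of_exponent_ge (by positivity) ((div_le_one hd0).2 hrd')
            (by linarith [h.g1])
  have e3 : 1 / (C * K ^ 2) ≤ f r d := by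
    rw [div_le_iff₀ (by positivity)]
    have h4 : (1 / K) ^ 2 ≤ C * f r d := e2.trans hl
    rw [div_pow, one_pow, div_le_iff₀ (by positivity)] at h4
    linarith
  have e4 : 1 / (C * K ^ 2) ≤ (d : ℝ) / r * f r d := by
    have h5 : 1 ≤ (d : ℝ) / r := by rw [le_div_iff₀ hr0]; linarith
    have h6 := h.nn r d
    nlinarith
  exact pow_le_pow_left₀ (by positivity) e4 2

end FI

end SC

end

/-! ### from `Lib_MP_e0a489.FI12` -/

section

/-!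
# MP_e0a489, module FI, analysis 3: sums over blocks near the boundary
-/

set_option autoImplicit false

namespace SC

namespace FI

/-- one step of the telescoping sum -/
private theorem fi12_step {δ : ℝ} (h0 : 0 ≤ δ) (h1 : δ < 1) (n : ℕ) :
    (1 - δ) * ((n : ℝ) + 1) ^ (-δ) ≤ ((n : ℝ) + 1) ^ (1 - δ) - (n : ℝ) ^ (1 - δ) := by
  have hn : (0 : ℝ) ≤ n := Nat.cast_nonneg n
  set x : ℝ := (n : ℝ) + 1 with hx
  have hx1 : (1 : ℝ) ≤ x := by rw [hx]; linarith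
  have hx0 : (0 : ℝ) < x := by linarith
  have e1 : (n : ℝ) = x * (1 + -(1 / x)) := by
    have hne : x ≠ 0 := hx0.ne'
    field_simp
    rw [hx]; ring
  have hle : (1 : ℝ) / x ≤ 1 := by rw [div_le_one hx0]; exact hx1
  have hb : (1 + -(1 / x)) ^ (1 - δ) ≤ 1 + (1 - δ) * -(1 / x) :=
    rpow_one_add_le_one_add_mul_self (by linarith) (by linarith) (by linarith)
  have hxp : (0 : ℝ) < x ^ (1 - δ) := Real.rpow_pos_of_pos hx0 _
  have e2 : (n : ℝ) ^ (1 - δ) ≤ x ^ (1 - δ) * (1 + (1 - δ) * -(1 / x)) := by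
    conv_lhs => rw [e1]
    rw [Real.mul_rpow hx0.le (by linarith)]
    exact mul_le_mul_of_nonneg_left hb hxp.le
  have e3 : x ^ (1 - δ) * (1 / x) = x ^ (-δ) := by
    rw [show (1 : ℝ) - δ = 1 + -δ by ring, Real.rpow_add hx0, Real.rpow_one]
    field_simp
  have e5 : x ^ (1 - δ) * (1 + (1 - δ) * -(1 / x)) = x ^ (1 - δ) - (1 - δ) * x ^ (-δ) := by
    rw [← e3]; ring
  rw [e5] at e2
  linarith

/-- a sum over fibres with at most two elements -/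
private theorem fi12_fib {s : Finset ℤ} {h : ℤ → ℕ} {g : ℕ → ℝ} (hg : ∀ j, 0 ≤ g j) {N : ℕ}
    (hN : ∀ k ∈ s, h k < N) (hf : ∀ j, (s.filter (fun k => h k = j)).card ≤ 2) :
    ∑ k ∈ s, g (h k) ≤ 2 * ∑ j ∈ Finset.range N, g j := by
  rw [← Finset.sum_fiberwise_of_maps_to (s := s) (t := Finset.range N) (g := h)
    (fun k hk => Finset.mem_range.2 (hN k hk)), Finset.mul_sum]
  refine Finset.sum_le_sum fun j _ => ?_
  have e : ∑ k ∈ s.filter (fun k => h k = j), g (h k) =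
      ∑ k ∈ s.filter (fun k => h k = j), g j :=
    Finset.sum_congr rfl fun k hk => by rw [(Finset.mem_filter.1 hk).2]
  rw [e, Finset.sum_const, nsmul_eq_mul]
  have h2 : (((s.filter (fun k => h k = j)).card : ℕ) : ℝ) ≤ 2 := by exact_mod_cast hf j
  exact mul_le_mul_of_nonneg_right h2 (hg j)

/-- `∑_{k=1}^{n} k^(-δ) ≤ C n^(1-δ)`, `0 ≤ δ < 1` (for instance `C = 1 / (1 - δ)`; induction with
`(n+1)^(1-δ) - n^(1-δ) ≥ (1-δ) (n+1)^(-δ)`, mean value theorem or `Real.one_add_mul_self_le_rpow..`). -/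
theorem sum_rpow {δ : ℝ} (h0 : 0 ≤ δ) (h1 : δ < 1) : ∃ C : ℝ, 0 < C ∧ ∀ n : ℕ,
    ∑ k ∈ Finset.range n, ((k : ℝ) + 1) ^ (-δ) ≤ C * (n : ℝ) ^ (1 - δ) := by
  have hc : 0 < 1 - δ := by linarith
  refine ⟨1 / (1 - δ), by positivity, fun n => ?_⟩
  induction n with
  | zero =>
    simp only [Finset.range_zero, Finset.sum_empty]
    positivity
  | succ n ih =>
    rw [Finset.sum_range_succ]
    have h := fi12_step h0 h1 n
    have h2 : ((n : ℝ) + 1) ^ (-δ) ≤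
        1 / (1 - δ) * (((n : ℝ) + 1) ^ (1 - δ) - (n : ℝ) ^ (1 - δ)) := by
      rw [one_div, ← div_eq_inv_mul, le_div_iff₀ hc]
      linarith
    push_cast
    have h3 : 1 / (1 - δ) * (((n : ℝ) + 1) ^ (1 - δ) - (n : ℝ) ^ (1 - δ)) =
        1 / (1 - δ) * ((n : ℝ) + 1) ^ (1 - δ) - 1 / (1 - δ) * (n : ℝ) ^ (1 - δ) := by ring
    linarith

/-- One dimensional sum.  Put `φ k = (b / max w (min (w k) b)) ^ δ` for `k : ℤ`.  If `i ≥ 0`, then with `n = N / w`: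
`N - w i ≥ w (n - i)`, so the term is at most `φ (n - i)`; if `i < 0` it is at most `φ (n + i)`; in both cases
the argument is `≥ -2`, because `|w i| ≤ N + w` gives `|i| ≤ n + 2`.  For a finite set `K` of integers
`≥ -2` contained in an interval of length `m`: `∑_{k ∈ K} φ k ≤ m + ∑_{k ∈ K, k < b/w} φ k`, (`φ k = 1` if `w k ≥ b`)
`≤ m + 3 (b/w)^δ + ∑_{1 ≤ k, w k < b} (b / (w k))^δ ≤ m + 3 b/w + C (b/w)` by `sum_rpow`
(number of `k` with `1 ≤ k`, `w k < b` is at most `b / w`; `(b/w)^δ ≤ b/w`).  The maps `i ↦ n - i`, `i ↦ n + i` are injective. -/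
theorem sum1 {δ : ℝ} (h0 : 0 ≤ δ) (h1 : δ < 1) : ∃ C : ℝ, 0 < C ∧
    ∀ (w N b m i₀ : ℤ) (I : Finset ℤ), 1 ≤ w → w ≤ b → 0 ≤ m →
      (∀ i ∈ I, i₀ ≤ i ∧ i < i₀ + m ∧ |w * i| ≤ N + w) →
      ∑ i ∈ I, ((b : ℝ) / cl (N - |w * i|) w b) ^ δ ≤ C * (m + (b : ℝ) / w) := by
  obtain ⟨C₀, hC₀, H₀⟩ := sum_rpow h0 h1
  refine ⟨1 + 2 * (2 + C₀), by positivity, ?_⟩
  intro w N b m i₀ I hw hwb hm hI
  have hw0 : (0 : ℝ) < w := by
    have : (0 : ℤ) < w := by omega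
    exact_mod_cast this
  have hb0 : (0 : ℝ) < b := by
    have : (0 : ℤ) < b := by omega
    exact_mod_cast this
  have hbw : (1 : ℝ) ≤ (b : ℝ) / w := by
    rw [le_div_iff₀ hw0, one_mul]
    exact_mod_cast hwb
  have hbw0 : (0 : ℝ) < (b : ℝ) / w := by linarith
  have hm0 : (0 : ℝ) ≤ m := by exact_mod_cast hm
  -- properties of the clamp
  have hclw : ∀ p : ℤ, w ≤ cl p w b := fun p => le_max_left _ _
  have hclb : ∀ p : ℤ, b ≤ p → cl p w b = b := by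
    intro p hp
    unfold cl
    rw [min_eq_right hp, max_eq_right hwb]
  have hclp : ∀ p : ℤ, p < b → p ≤ cl p w b := by
    intro p hp
    unfold cl
    rw [min_eq_left hp.le]
    exact le_max_right _ _
  have hcl0 : ∀ p : ℤ, (0 : ℝ) < (cl p w b : ℤ) := by
    intro p
    have : (0 : ℤ) < cl p w b := lt_of_lt_of_le (by omega) (hclw p)
    exact_mod_cast this
  set G : ℕ → ℝ := fun j => ((b : ℝ) / w) ^ δ * (if j ≤ 1 then 1 else ((j : ℝ) - 1) ^ (-δ)) with hG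
  have hG0 : ∀ j, 0 ≤ G j := by
    intro j
    simp only [hG]
    split_ifs with hj
    · positivity
    · have : (1 : ℝ) ≤ j := by
        have h2 : 1 ≤ j := by omega
        exact_mod_cast h2
      have h3 : (0 : ℝ) ≤ (j : ℝ) - 1 := by linarith
      positivity
  set hh : ℤ → ℕ := fun i => ((N - |w * i|) / w + 1).toNat with hhh
  have hq : ∀ i ∈ I, -1 ≤ (N - |w * i|) / w := by
    intro i hi
    have h2 := (hI i hi).2.2
    rw [Int.le_ediv_iff_mul_le (by omega)]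
    omega
  -- split the sum
  have hsplit : ∀ i ∈ I, ((b : ℝ) / cl (N - |w * i|) w b) ^ δ ≤
      1 + (if N - |w * i| < b then G (hh i) else 0) := by
    intro i hi
    by_cases hd : N - |w * i| < b
    · rw [if_pos hd]
      have hterm : ((b : ℝ) / cl (N - |w * i|) w b) ^ δ ≤ G (hh i) := by
        set q : ℤ := (N - |w * i|) / w with hqdef
        have hq1 : -1 ≤ q := hq i hi
        have hhi : hh i = (q + 1).toNat := rfl
        by_cases hq0 : q ≤ 0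
        · have hj : hh i ≤ 1 := by rw [hhi]; omega
          simp only [hG]
          rw [if_pos hj, mul_one]
          refine Real.rpow_le_rpow (by have := hcl0 (N - |w * i|); positivity) ?_ h0
          refine div_le_div_of_nonneg_left hb0.le hw0 ?_
          exact_mod_cast hclw _
        · have hq2 : 1 ≤ q := by omega
          have hj : ¬ hh i ≤ 1 := by rw [hhi]; omega
          have hjq : ((hh i : ℕ) : ℝ) - 1 = q := by
            have h3 : ((hh i : ℕ) : ℤ) = q + 1 := by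
              rw [hhi]
              exact Int.toNat_of_nonneg (by omega)
            have h4 : (((hh i : ℕ) : ℤ) : ℝ) = ((q + 1 : ℤ) : ℝ) := by rw [h3]
            push_cast at h4
            rw [h4]
            ring
          have hqr : (0 : ℝ) < q := by
            have : (0 : ℤ) < q := by omega
            exact_mod_cast this
          simp only [hG]
          rw [if_neg hj, hjq]
          have h5 : w * q ≤ N - |w * i| := by
            rw [hqdef]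
            exact Int.mul_ediv_self_le (by omega)
          have h6 : w * q ≤ cl (N - |w * i|) w b := le_trans h5 (hclp _ hd)
          have h7 : (w : ℝ) * q ≤ (cl (N - |w * i|) w b : ℤ) := by exact_mod_cast h6
          have h8 : (b : ℝ) / (cl (N - |w * i|) w b : ℤ) ≤ (b : ℝ) / (w * q) :=
            div_le_div_of_nonneg_left hb0.le (by positivity) h7
          calc ((b : ℝ) / cl (N - |w * i|) w b) ^ δ ≤ ((b : ℝ) / (w * q)) ^ δ :=
                Real.rpow_le_rpow (by have := hcl0 (N - |w * i|); positivity) h8 h0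
            _ = ((b : ℝ) / w * (q : ℝ)⁻¹) ^ δ := by
                congr 1
                field_simp
            _ = ((b : ℝ) / w) ^ δ * ((q : ℝ)⁻¹) ^ δ := Real.mul_rpow hbw0.le (by positivity)
            _ = ((b : ℝ) / w) ^ δ * (q : ℝ) ^ (-δ) := by
                rw [Real.inv_rpow hqr.le, Real.rpow_neg hqr.le]
      linarith
    · rw [if_neg hd, hclb _ (by omega), div_self hb0.ne', Real.one_rpow]
      linarith
  have hcard : ((I.card : ℕ) : ℝ) ≤ m := by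
    have h2 : I ⊆ Finset.Ico i₀ (i₀ + m) := by
      intro i hi
      have h3 := hI i hi
      rw [Finset.mem_Ico]
      exact ⟨h3.1, h3.2.1⟩
    have h3 := Finset.card_le_card h2
    rw [Int.card_Ico] at h3
    have h4 : ((i₀ + m - i₀).toNat : ℤ) = m := by
      rw [show i₀ + m - i₀ = m by ring]
      exact Int.toNat_of_nonneg hm
    have h5 : (I.card : ℤ) ≤ m := by
      rw [← h4]
      exact_mod_cast h3
    exact_mod_cast h5
  set J : Finset ℤ := I.filter (fun i => N - |w * i| < b) with hJ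
  set n : ℕ := (b / w).toNat with hn
  have hbw1 : 0 ≤ b / w := Int.ediv_nonneg (by omega) (by omega)
  have hnr : (n : ℝ) ≤ (b : ℝ) / w := by
    have h2 : ((n : ℕ) : ℤ) = b / w := Int.toNat_of_nonneg hbw1
    rw [le_div_iff₀ hw0]
    have h3 : b / w * w ≤ b := Int.ediv_mul_le _ (by omega)
    rw [← h2] at h3
    exact_mod_cast h3
  have hfib := fi12_fib (s := J) (h := hh) (g := G) hG0 (N := n + 2) (fun i hi => by
      have h2 : N - |w * i| < b := (Finset.mem_filter.1 hi).2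
      have h3 : (N - |w * i|) / w ≤ b / w := Int.ediv_le_ediv (by omega) h2.le
      show ((N - |w * i|) / w + 1).toNat < n + 2
      omega)
    (fun j => by
      have hs : J.filter (fun i => hh i = j) ⊆
          ({(N - w * ((j : ℤ) - 1)) / w, -((N - w * ((j : ℤ) - 1)) / w)} : Finset ℤ) := by
        intro i hi
        have hi2 : hh i = j := (Finset.mem_filter.1 hi).2
        have hi1 : i ∈ I := (Finset.mem_filter.1 (Finset.mem_filter.1 hi).1).1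
        have h2 := hq i hi1
        have h3 : (N - |w * i|) / w = (j : ℤ) - 1 := by
          have h4 : ((N - |w * i|) / w + 1).toNat = j := hi2
          omega
        have h5 : |w * i| = w * |i| := by
          rw [abs_mul, abs_of_pos (show (0 : ℤ) < w by omega)]
        rw [h5] at h3
        have h6 : (N - w * ((j : ℤ) - 1)) / w = |i| := by
          have h7 : N - w * |i| - w * ((j : ℤ) - 1) < w := by
            have h8 := Int.lt_ediv_add_one_mul_self (N - w * |i|) (show (0 : ℤ) < w by omega)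
            rw [h3] at h8
            linarith
          have h9 : 0 ≤ N - w * |i| - w * ((j : ℤ) - 1) := by
            have h10 := Int.ediv_mul_le (N - w * |i|) (show w ≠ 0 by omega)
            rw [h3] at h10
            linarith
          have h11 : N - w * ((j : ℤ) - 1) = (N - w * |i| - w * ((j : ℤ) - 1)) + w * |i| := by ring
          rw [h11, Int.add_mul_ediv_left _ _ (show w ≠ 0 by omega),
            Int.ediv_eq_zero_of_lt h9 h7, zero_add]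
        rw [h6, Finset.mem_insert, Finset.mem_singleton]
        rcases abs_cases i with h | h <;> omega
      exact (Finset.card_le_card hs).trans Finset.card_le_two)
  have hsumG : ∑ j ∈ Finset.range (n + 2), G j ≤ (2 + C₀) * ((b : ℝ) / w) := by
    rw [Finset.sum_range_succ', Finset.sum_range_succ']
    have e0 : G 0 = ((b : ℝ) / w) ^ δ := by simp [hG]
    have e1 : G (0 + 1) = ((b : ℝ) / w) ^ δ := by simp [hG]
    have e2 : ∀ k ∈ Finset.range n, G (k + 1 + 1) = ((b : ℝ) / w) ^ δ * ((k : ℝ) + 1) ^ (-δ) := by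
      intro k _
      simp only [hG]
      rw [if_neg (by omega)]
      push_cast
      congr 2
      ring
    rw [Finset.sum_congr rfl e2, e0, e1, ← Finset.mul_sum]
    have h2 := H₀ n
    have h3 : (n : ℝ) ^ (1 - δ) ≤ ((b : ℝ) / w) ^ (1 - δ) :=
      Real.rpow_le_rpow (Nat.cast_nonneg n) hnr (by linarith)
    have h4 : ((b : ℝ) / w) ^ δ * ((b : ℝ) / w) ^ (1 - δ) = (b : ℝ) / w := by
      rw [← Real.rpow_add hbw0]
      norm_num
    have h5 : ((b : ℝ) / w) ^ δ ≤ (b : ℝ) / w := by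
      calc ((b : ℝ) / w) ^ δ ≤ ((b : ℝ) / w) ^ (1 : ℝ) :=
            Real.rpow_le_rpow_of_exponent_le hbw h1.le
        _ = _ := Real.rpow_one _
    have h6 : ((b : ℝ) / w) ^ δ * ∑ k ∈ Finset.range n, ((k : ℝ) + 1) ^ (-δ) ≤
        C₀ * ((b : ℝ) / w) := by
      calc ((b : ℝ) / w) ^ δ * ∑ k ∈ Finset.range n, ((k : ℝ) + 1) ^ (-δ)
          ≤ ((b : ℝ) / w) ^ δ * (C₀ * ((b : ℝ) / w) ^ (1 - δ)) := by
            refine mul_le_mul_of_nonneg_left (le_trans h2 ?_) (by positivity)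
            exact mul_le_mul_of_nonneg_left h3 hC₀.le
        _ = C₀ * (((b : ℝ) / w) ^ δ * ((b : ℝ) / w) ^ (1 - δ)) := by ring
        _ = _ := by rw [h4]
    linarith
  calc ∑ i ∈ I, ((b : ℝ) / cl (N - |w * i|) w b) ^ δ
      ≤ ∑ i ∈ I, (1 + (if N - |w * i| < b then G (hh i) else 0)) := Finset.sum_le_sum hsplit
    _ = (I.card : ℝ) + ∑ i ∈ J, G (hh i) := by
        rw [Finset.sum_add_distrib, Finset.sum_const, nsmul_eq_mul, mul_one, hJ,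
          Finset.sum_filter]
    _ ≤ m + 2 * ((2 + C₀) * ((b : ℝ) / w)) := by
        have h2 := hfib
        have h3 := mul_le_mul_of_nonneg_left hsumG (show (0 : ℝ) ≤ 2 by norm_num)
        linarith
    _ ≤ (1 + 2 * (2 + C₀)) * (m + (b : ℝ) / w) := by
        have h2 : 0 ≤ 2 * (2 + C₀) * (m : ℝ) := by positivity
        nlinarith

/-- Two dimensional sum (`Z ⊆ I ×ˢ I'`, product of two one dimensional sums, all terms are nonnegative). -/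
theorem sum2 {δ : ℝ} (h0 : 0 ≤ δ) (h1 : δ < 1) : ∃ C : ℝ, 0 < C ∧
    ∀ (w N N' b m : ℤ) (z₀ : ℤ × ℤ) (Z : Finset (ℤ × ℤ)), 1 ≤ w → w ≤ b → 0 ≤ m →
      (∀ z ∈ Z, (z₀.1 ≤ z.1 ∧ z.1 < z₀.1 + m ∧ |w * z.1| ≤ N + w) ∧
        (z₀.2 ≤ z.2 ∧ z.2 < z₀.2 + m ∧ |w * z.2| ≤ N' + w)) →
      ∑ z ∈ Z, ((b : ℝ) / cl (N - |w * z.1|) w b) ^ δ * ((b : ℝ) / cl (N' - |w * z.2|) w b) ^ δ ≤
        C * (m + (b : ℝ) / w) ^ 2 := by
  obtain ⟨C, hC, H⟩ := sum1 h0 h1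
  refine ⟨C ^ 2, by positivity, ?_⟩
  intro w N N' b m z₀ Z hw hwb hm hZ
  have hb0 : (0 : ℝ) ≤ b := by
    have : (0 : ℤ) ≤ b := by omega
    exact_mod_cast this
  have hcl0 : ∀ p : ℤ, (0 : ℝ) ≤ (cl p w b : ℤ) := by
    intro p
    have : (0 : ℤ) ≤ cl p w b := le_trans (by omega) (le_max_left _ _)
    exact_mod_cast this
  set f : ℤ → ℝ := fun i => ((b : ℝ) / cl (N - |w * i|) w b) ^ δ with hf
  set g : ℤ → ℝ := fun i => ((b : ℝ) / cl (N' - |w * i|) w b) ^ δ with hg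
  have hf0 : ∀ i, 0 ≤ f i := fun i => Real.rpow_nonneg (div_nonneg hb0 (hcl0 _)) _
  have hg0 : ∀ i, 0 ≤ g i := fun i => Real.rpow_nonneg (div_nonneg hb0 (hcl0 _)) _
  have h2 : ∑ i ∈ Z.image Prod.fst, f i ≤ C * (m + (b : ℝ) / w) := by
    refine H w N b m z₀.1 _ hw hwb hm ?_
    intro i hi
    obtain ⟨z, hz, rfl⟩ := Finset.mem_image.1 hi
    exact (hZ z hz).1
  have h3 : ∑ i ∈ Z.image Prod.snd, g i ≤ C * (m + (b : ℝ) / w) := by
    refine H w N' b m z₀.2 _ hw hwb hm ?_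
    intro i hi
    obtain ⟨z, hz, rfl⟩ := Finset.mem_image.1 hi
    exact (hZ z hz).2
  have h4 : ∑ z ∈ Z, f z.1 * g z.2 ≤
      ∑ z ∈ Z.image Prod.fst ×ˢ Z.image Prod.snd, f z.1 * g z.2 := by
    refine Finset.sum_le_sum_of_subset_of_nonneg ?_ ?_
    · intro z hz
      rw [Finset.mem_product]
      exact ⟨Finset.mem_image_of_mem _ hz, Finset.mem_image_of_mem _ hz⟩
    · intro z _ _
      exact mul_nonneg (hf0 _) (hg0 _)
  have h5 : ∑ z ∈ Z.image Prod.fst ×ˢ Z.image Prod.snd, f z.1 * g z.2 =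
      (∑ i ∈ Z.image Prod.fst, f i) * ∑ i ∈ Z.image Prod.snd, g i := by
    rw [Finset.sum_product, Finset.sum_mul_sum]
  have h6 : 0 ≤ ∑ i ∈ Z.image Prod.snd, g i := Finset.sum_nonneg fun i _ => hg0 i
  have h7 : 0 ≤ ∑ i ∈ Z.image Prod.fst, f i := Finset.sum_nonneg fun i _ => hf0 i
  calc _ ≤ _ := h4
    _ = _ := h5
    _ ≤ (C * (m + (b : ℝ) / w)) * (C * (m + (b : ℝ) / w)) :=
        mul_le_mul h2 h3 h6 (le_trans h7 h2)
    _ = _ := by ring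

end FI

end SC

end

/-! ### from `Lib_MP_e0a489.FI13` -/

section

/-!
# MP_e0a489, module FI, analysis 4: sums of `gg` over blocks
-/

set_option autoImplicit false

namespace SC

namespace FI

private theorem fi13_abs {w a M : ℤ} (hw : 1 ≤ w) (h : |w * a| ≤ M) : |a| ≤ M / w := by
  rw [Int.le_ediv_iff_mul_le (by omega)]
  rw [abs_mul, abs_of_nonneg (by omega : (0 : ℤ) ≤ w)] at h
  linarith [mul_comm w |a|]

private theorem fi13_div {w M : ℤ} (hw : 1 ≤ w) : ((M / w : ℤ) : ℝ) ≤ (M : ℝ) / w := by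
  have h1 : (M / w) * w ≤ M := Int.ediv_mul_le M (by omega)
  have hw0 : (0 : ℝ) < (w : ℝ) := by exact_mod_cast (by omega : (0 : ℤ) < w)
  rw [le_div_iff₀ hw0]
  exact_mod_cast h1

private theorem fi13_gg (f : ℤ → ℤ → ℝ) (γ : ℝ) (N N' w b : ℤ) (Z : Finset (ℤ × ℤ)) :
    ∑ z ∈ Z, gg f γ N N' w b (sc w z) = (f w b) ^ 2 *
      ∑ z ∈ Z, ((b : ℝ) / cl (N - |w * z.1|) w b) ^ γ *
        ((b : ℝ) / cl (N' - |w * z.2|) w b) ^ γ := by
  rw [Finset.mul_sum]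
  refine Finset.sum_congr rfl fun z _ => ?_
  unfold gg sc
  ring

/-- Sum over all blocks: `sum2` with `b = n`, `m` = length of an interval of integers `i` with `|w i| ≤ N + w` or `|w i| ≤ N' + w`,
`N, N' ≤ 2 n`: `i₀ = -(2 n / w + 2)`, `m = 2 (2 n / w + 2) + 1 ≤ 9 n / w` (as a real number).  `δ = γ`. -/
theorem AF.sum_all {f : ℤ → ℤ → ℝ} {C c γ : ℝ} {R₀ : ℤ} (h : AF f C c γ R₀) : ∃ C' : ℝ, 0 < C' ∧
    ∀ (w N N' n : ℤ) (Z : Finset (ℤ × ℤ)), 1 ≤ w → w ≤ n → N ≤ 2 * n → N' ≤ 2 * n →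
      (∀ z ∈ Z, |w * z.1| ≤ N + w ∧ |w * z.2| ≤ N' + w) →
      ∑ z ∈ Z, gg f γ N N' w n (sc w z) ≤ C' * ((n : ℝ) / w * f w n) ^ 2 := by
  obtain ⟨C₂, hC₂, H⟩ := sum2 h.g0 h.g1'
  refine ⟨100 * C₂, by positivity, ?_⟩
  intro w N N' n Z hw hwn hN hN' hZ
  have hw0 : (0 : ℝ) < (w : ℝ) := by exact_mod_cast (by omega : (0 : ℤ) < w)
  have hn0 : (0 : ℝ) < (n : ℝ) := by exact_mod_cast (by omega : (0 : ℤ) < n)
  have hwn' : (w : ℝ) ≤ n := by exact_mod_cast hwn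
  have hnw : 1 ≤ (n : ℝ) / w := by rw [le_div_iff₀ hw0]; linarith
  obtain ⟨M, hM⟩ : ∃ M : ℤ, M = 2 * n / w := ⟨_, rfl⟩
  have hM0 : 0 ≤ M := by rw [hM]; exact Int.ediv_nonneg (by omega) (by omega)
  have key : ∀ x : ℤ, |w * x| ≤ 2 * n + w → |x| ≤ M + 1 := by
    intro x hx
    have h1 := fi13_abs hw hx
    have h2 : (2 * n + w) / w = M + 1 := by
      rw [hM]
      have := Int.add_mul_ediv_right (2 * n) 1 (c := w) (by omega)
      rw [one_mul] at this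
      exact this
    rwa [h2] at h1
  have hs := H w N N' n (2 * (M + 2) + 1) (-(M + 2), -(M + 2)) Z hw hwn (by omega) (by
    intro z hz
    obtain ⟨h1, h2⟩ := hZ z hz
    have h3 := abs_le.1 (key z.1 (h1.trans (by omega)))
    have h4 := abs_le.1 (key z.2 (h2.trans (by omega)))
    dsimp only
    refine ⟨⟨by omega, by omega, h1⟩, ⟨by omega, by omega, h2⟩⟩)
  rw [fi13_gg]
  have hMr : (M : ℝ) ≤ 2 * ((n : ℝ) / w) := by
    have h1 : ((2 * n / w : ℤ) : ℝ) ≤ ((2 * n : ℤ) : ℝ) / w := fi13_div hw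
    rw [← hM] at h1
    push_cast at h1
    calc (M : ℝ) ≤ 2 * n / w := h1
      _ = 2 * ((n : ℝ) / w) := by ring
  have hM0' : (0 : ℝ) ≤ (M : ℝ) := by exact_mod_cast hM0
  have h5 : (((2 * (M + 2) + 1 : ℤ) : ℝ) + (n : ℝ) / w) ^ 2 ≤ (10 * ((n : ℝ) / w)) ^ 2 := by
    apply pow_le_pow_left₀
    · push_cast
      positivity
    · push_cast
      linarith
  calc (f w n) ^ 2 * ∑ z ∈ Z, ((n : ℝ) / cl (N - |w * z.1|) w n) ^ γ *
        ((n : ℝ) / cl (N' - |w * z.2|) w n) ^ γ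
      ≤ (f w n) ^ 2 * (C₂ * (((2 * (M + 2) + 1 : ℤ) : ℝ) + (n : ℝ) / w) ^ 2) :=
        mul_le_mul_of_nonneg_left hs (by positivity)
    _ ≤ (f w n) ^ 2 * (C₂ * (10 * ((n : ℝ) / w)) ^ 2) := by
        apply mul_le_mul_of_nonneg_left _ (by positivity)
        exact mul_le_mul_of_nonneg_left h5 hC₂.le
    _ = 100 * C₂ * ((n : ℝ) / w * f w n) ^ 2 := by ring

/-- Sum over the blocks at distance at most `2 D` from the block `z`: `sum2` with `b = D / 16`, `i₀ = z.1 - (2 D / w + 1)`,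
`m = 2 (2 D / w + 1) + 1 ≤ 7 D / w` (real number). -/
theorem AF.sum_near {f : ℤ → ℤ → ℝ} {C c γ : ℝ} {R₀ : ℤ} (h : AF f C c γ R₀) : ∃ C' : ℝ, 0 < C' ∧
    ∀ (w N N' D : ℤ) (z : ℤ × ℤ) (Z : Finset (ℤ × ℤ)), 1 ≤ w → 16 * w ≤ D →
      (∀ z' ∈ Z, |w * z'.1| ≤ N + w ∧ |w * z'.2| ≤ N' + w) → (∀ z' ∈ Z, bd2 w z z' ≤ 2 * D) →
      ∑ z' ∈ Z, gg f γ N N' w (D / 16) (sc w z') ≤ C' * ((D : ℝ) / w * f w (D / 16)) ^ 2 := by
  obtain ⟨C₂, hC₂, H⟩ := sum2 h.g0 h.g1'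
  refine ⟨64 * C₂, by positivity, ?_⟩
  intro w N N' D z Z hw hwD hZ hZ'
  have hw0 : (0 : ℝ) < (w : ℝ) := by exact_mod_cast (by omega : (0 : ℤ) < w)
  have hD0 : (0 : ℝ) < (D : ℝ) := by exact_mod_cast (by omega : (0 : ℤ) < D)
  have hwD' : (w : ℝ) ≤ D := by exact_mod_cast (by omega : w ≤ D)
  have hDw : 1 ≤ (D : ℝ) / w := by rw [le_div_iff₀ hw0]; linarith
  obtain ⟨M, hM⟩ : ∃ M : ℤ, M = 2 * D / w := ⟨_, rfl⟩
  have hM0 : 0 ≤ M := by rw [hM]; exact Int.ediv_nonneg (by omega) (by omega)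
  have key : ∀ x y : ℤ, |w * x - w * y| ≤ 2 * D → |x - y| ≤ M := by
    intro x y hxy
    rw [← mul_sub] at hxy
    have h1 := fi13_abs hw hxy
    rwa [← hM] at h1
  have hwb : w ≤ D / 16 := by omega
  have hs := H w N N' (D / 16) (2 * (M + 1) + 1) (z.1 - (M + 1), z.2 - (M + 1)) Z hw hwb
    (by omega) (by
    intro z' hz'
    obtain ⟨h1, h2⟩ := hZ z' hz'
    have h5 := hZ' z' hz'
    unfold bd2 at h5
    have h3 := abs_le.1 (key z.1 z'.1 ((le_max_left _ _).trans h5))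
    have h4 := abs_le.1 (key z.2 z'.2 ((le_max_right _ _).trans h5))
    dsimp only
    refine ⟨⟨by omega, by omega, h1⟩, ⟨by omega, by omega, h2⟩⟩)
  rw [fi13_gg]
  have hMr : (M : ℝ) ≤ 2 * ((D : ℝ) / w) := by
    have h1 : ((2 * D / w : ℤ) : ℝ) ≤ ((2 * D : ℤ) : ℝ) / w := fi13_div hw
    rw [← hM] at h1
    push_cast at h1
    calc (M : ℝ) ≤ 2 * D / w := h1
      _ = 2 * ((D : ℝ) / w) := by ring
  have hb : ((D / 16 : ℤ) : ℝ) / w ≤ (D : ℝ) / w := by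
    apply div_le_div_of_nonneg_right _ hw0.le
    exact_mod_cast (by omega : D / 16 ≤ D)
  have hb0 : (0 : ℝ) ≤ ((D / 16 : ℤ) : ℝ) / w := by
    apply div_nonneg _ hw0.le
    exact_mod_cast (by omega : 0 ≤ D / 16)
  have hM0' : (0 : ℝ) ≤ (M : ℝ) := by exact_mod_cast hM0
  have h5 : (((2 * (M + 1) + 1 : ℤ) : ℝ) + ((D / 16 : ℤ) : ℝ) / w) ^ 2 ≤
      (8 * ((D : ℝ) / w)) ^ 2 := by
    apply pow_le_pow_left₀
    · push_cast at hb0 ⊢
      positivity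
    · push_cast at hb ⊢
      linarith
  calc (f w (D / 16)) ^ 2 * ∑ z' ∈ Z,
        (((D / 16 : ℤ) : ℝ) / cl (N - |w * z'.1|) w (D / 16)) ^ γ *
        (((D / 16 : ℤ) : ℝ) / cl (N' - |w * z'.2|) w (D / 16)) ^ γ
      ≤ (f w (D / 16)) ^ 2 *
        (C₂ * (((2 * (M + 1) + 1 : ℤ) : ℝ) + ((D / 16 : ℤ) : ℝ) / w) ^ 2) :=
        mul_le_mul_of_nonneg_left hs (by positivity)
    _ ≤ (f w (D / 16)) ^ 2 * (C₂ * (8 * ((D : ℝ) / w)) ^ 2) := by
        apply mul_le_mul_of_nonneg_left _ (by positivity)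
        exact mul_le_mul_of_nonneg_left h5 hC₂.le
    _ = 64 * C₂ * ((D : ℝ) / w * f w (D / 16)) ^ 2 := by ring

end FI

end SC

end

/-! ### from `Lib_MP_e0a489.FI14` -/

section

/-!
# MP_e0a489, module FI, analysis 5: multiplicativity of `gg`, dyadic sum
-/

set_option autoImplicit false

namespace SC

namespace FI

private theorem ratio_mono {p w b b' : ℤ} (hw : 0 < w) (h1 : w ≤ b) (h2 : b ≤ b') :
    ((b : ℝ) / cl p w b) ≤ (b' : ℝ) / cl p w b' := by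
  have e1 : 0 < cl p w b := lt_of_lt_of_le hw (le_max_left _ _)
  have e2 : 0 < cl p w b' := lt_of_lt_of_le hw (le_max_left _ _)
  have e1' : (0 : ℝ) < cl p w b := by exact_mod_cast e1
  have e2' : (0 : ℝ) < cl p w b' := by exact_mod_cast e2
  rw [div_le_div_iff₀ e1' e2']
  have key : b * cl p w b' ≤ b' * cl p w b := by
    unfold cl
    rcases le_total p w with hp | hp
    · have a1 : max w (min p b) = w := max_eq_left (le_trans (min_le_left _ _) hp)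
      have a2 : max w (min p b') = w := max_eq_left (le_trans (min_le_left _ _) hp)
      rw [a1, a2]
      nlinarith
    · rcases le_total p b with hb | hb
      · have a1 : max w (min p b) = p := by rw [min_eq_left hb, max_eq_right hp]
        have a2 : max w (min p b') = p := by rw [min_eq_left (le_trans hb h2), max_eq_right hp]
        rw [a1, a2]
        nlinarith
      · have a1 : max w (min p b) = b := by rw [min_eq_right hb, max_eq_right h1]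
        have a2 : max w (min p b') ≤ b' := max_le (le_trans h1 h2) (min_le_right _ _)
        rw [a1]
        nlinarith
  exact_mod_cast key

private theorem ratio_mul {p w r n : ℤ} (hw : 0 < w) (h1 : w ≤ r) (h2 : r ≤ n) :
    ((r : ℝ) / cl p w r) * ((n : ℝ) / cl p r n) = (n : ℝ) / cl p w n := by
  have hr : (0 : ℝ) < r := by exact_mod_cast lt_of_lt_of_le hw h1
  have hn : (0 : ℝ) < n := by exact_mod_cast lt_of_lt_of_le hw (le_trans h1 h2)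
  unfold cl
  rcases le_total p w with hp | hp
  · have a1 : max w (min p r) = w := max_eq_left (le_trans (min_le_left _ _) hp)
    have a2 : max w (min p n) = w := max_eq_left (le_trans (min_le_left _ _) hp)
    have a3 : max r (min p n) = r := max_eq_left (le_trans (min_le_left _ _) (le_trans hp h1))
    rw [a1, a2, a3]
    field_simp
  · rcases le_total p r with hb | hb
    · have a1 : max w (min p r) = p := by rw [min_eq_left hb, max_eq_right hp]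
      have a2 : max w (min p n) = p := by rw [min_eq_left (le_trans hb h2), max_eq_right hp]
      have a3 : max r (min p n) = r := by rw [min_eq_left (le_trans hb h2), max_eq_left hb]
      rw [a1, a2, a3]
      have hp0 : (0 : ℝ) < p := by exact_mod_cast lt_of_lt_of_le hw hp
      field_simp
    · have a1 : max w (min p r) = r := by rw [min_eq_right hb, max_eq_right h1]
      have a2 : max w (min p n) = min p n := max_eq_right (le_min hp (le_trans h1 h2))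
      have a3 : max r (min p n) = min p n := max_eq_right (le_min hb h2)
      rw [a1, a2, a3]
      field_simp

private theorem ratio_nonneg {p w b : ℤ} (hw : 0 < w) (h1 : w ≤ b) :
    0 ≤ ((b : ℝ) / cl p w b) := by
  have e1 : 0 < cl p w b := lt_of_lt_of_le hw (le_max_left _ _)
  have e1' : (0 : ℝ) < cl p w b := by exact_mod_cast e1
  have hb : (0 : ℝ) < b := by exact_mod_cast lt_of_lt_of_le hw h1
  positivity

/-- Multiplicativity.  Put `ρ = min (4 D) n`, `w ≤ D / 16 ≤ ρ ≤ n`.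
(1) `gg w (D/16) ≤ C₁ gg w ρ`: `f w (D/16) ≤ C^4 128^4 f w ρ` by `AG.cmp` with `K = 128` (`ρ ≤ 4 D ≤ 128 (D/16)`), and `b ↦ b / cl p w b` is
nondecreasing for `b ≥ w` (if `p ≤ w` it is `b / w`; if `w < p ≤ b` it is `b / p`; if `b < p` it is `1`; always at least `1`).
(2) `(ρ / cl p w ρ) * (n / cl p ρ n) = n / cl p w n` (cases `p ≤ w`, `w < p ≤ ρ`, `ρ < p`).
(3) `f w ρ * f ρ n ≤ C f w n` (`qm`). -/
theorem AG.gg_mul {f : ℤ → ℤ → ℝ} {C γ : ℝ} {R₀ : ℤ} (h : AG f C γ R₀) : ∃ C' : ℝ, 0 < C' ∧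
    ∀ (N N' w D n : ℤ) (x : ℤ × ℤ), R₀ ≤ w → 16 * w ≤ D → w ≤ n → D ≤ 16 * n →
      gg f γ N N' w (D / 16) x * gg f γ N N' (min (4 * D) n) n x ≤ C' * gg f γ N N' w n x := by
  have hC := h.C1
  have hg := h.g0
  refine ⟨(C ^ 4 * 128 ^ 4) ^ 2 * C ^ 2, by positivity, ?_⟩
  intro N N' w D n x h1 h2 h3 h4
  have hw : 0 < w := by have := h.R16; omega
  set r : ℤ := min (4 * D) n with hr
  have r1 : D / 16 ≤ r := by
    refine le_min ?_ ?_ <;> omega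
  have r2 : w ≤ D / 16 := by omega
  have r3 : r ≤ n := min_le_right _ _
  have r4 : w ≤ r := le_trans r2 r1
  have r5 : r ≤ 128 * (D / 16) := by
    have : r ≤ 4 * D := min_le_left _ _
    have := h.R16
    omega
  have c1 : f w (D / 16) ≤ C ^ 4 * 128 ^ 4 * f w r := by
    refine h.cmp (K := 128) (by norm_num) h1 h1 ?_ ?_
    · have : (0 : ℝ) < w := by exact_mod_cast hw
      linarith
    · exact_mod_cast r5
  have c2 : f w r * f r n ≤ C * f w n := h.qm w r n h1 r4 r3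
  have n1 := h.nn w (D / 16)
  have n2 := h.nn w r
  have n3 := h.nn r n
  have n4 := h.nn w n
  unfold gg
  have m1 : ((((D / 16 : ℤ) : ℝ)) / cl (N - |x.1|) w (D / 16)) ^ γ ≤ ((r : ℝ) / cl (N - |x.1|) w r) ^ γ :=
    Real.rpow_le_rpow (ratio_nonneg hw r2) (ratio_mono hw r2 r1) hg
  have m2 : ((((D / 16 : ℤ) : ℝ)) / cl (N' - |x.2|) w (D / 16)) ^ γ ≤ ((r : ℝ) / cl (N' - |x.2|) w r) ^ γ :=
    Real.rpow_le_rpow (ratio_nonneg hw r2) (ratio_mono hw r2 r1) hg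
  have k1 : ((r : ℝ) / cl (N - |x.1|) w r) ^ γ * ((n : ℝ) / cl (N - |x.1|) r n) ^ γ =
      ((n : ℝ) / cl (N - |x.1|) w n) ^ γ := by
    rw [← Real.mul_rpow (ratio_nonneg hw r4) (ratio_nonneg (lt_of_lt_of_le hw r4) r3), ratio_mul hw r4 r3]
  have k2 : ((r : ℝ) / cl (N' - |x.2|) w r) ^ γ * ((n : ℝ) / cl (N' - |x.2|) r n) ^ γ =
      ((n : ℝ) / cl (N' - |x.2|) w n) ^ γ := by
    rw [← Real.mul_rpow (ratio_nonneg hw r4) (ratio_nonneg (lt_of_lt_of_le hw r4) r3), ratio_mul hw r4 r3]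
  have q1 : 0 ≤ ((((D / 16 : ℤ) : ℝ)) / cl (N - |x.1|) w (D / 16)) ^ γ :=
    Real.rpow_nonneg (ratio_nonneg hw r2) _
  have q2 : 0 ≤ ((((D / 16 : ℤ) : ℝ)) / cl (N' - |x.2|) w (D / 16)) ^ γ :=
    Real.rpow_nonneg (ratio_nonneg hw r2) _
  have q3 : 0 ≤ ((r : ℝ) / cl (N - |x.1|) w r) ^ γ := Real.rpow_nonneg (ratio_nonneg hw r4) _
  have q4 : 0 ≤ ((r : ℝ) / cl (N' - |x.2|) w r) ^ γ := Real.rpow_nonneg (ratio_nonneg hw r4) _
  have q5 : 0 ≤ ((n : ℝ) / cl (N - |x.1|) r n) ^ γ :=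
    Real.rpow_nonneg (ratio_nonneg (lt_of_lt_of_le hw r4) r3) _
  have q6 : 0 ≤ ((n : ℝ) / cl (N' - |x.2|) r n) ^ γ :=
    Real.rpow_nonneg (ratio_nonneg (lt_of_lt_of_le hw r4) r3) _
  rw [← k1, ← k2]
  generalize ((((D / 16 : ℤ) : ℝ)) / cl (N - |x.1|) w (D / 16)) ^ γ = A1 at *
  generalize ((((D / 16 : ℤ) : ℝ)) / cl (N' - |x.2|) w (D / 16)) ^ γ = A2 at *
  generalize ((r : ℝ) / cl (N - |x.1|) w r) ^ γ = B1 at *
  generalize ((r : ℝ) / cl (N' - |x.2|) w r) ^ γ = B2 at *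
  generalize ((n : ℝ) / cl (N - |x.1|) r n) ^ γ = E1 at *
  generalize ((n : ℝ) / cl (N' - |x.2|) r n) ^ γ = E2 at *
  calc (f w (D / 16)) ^ 2 * A1 * A2 * ((f r n) ^ 2 * E1 * E2)
      ≤ (C ^ 4 * 128 ^ 4 * f w r) ^ 2 * B1 * B2 * ((f r n) ^ 2 * E1 * E2) := by gcongr
    _ = (C ^ 4 * 128 ^ 4) ^ 2 * (f w r * f r n) ^ 2 * (B1 * E1) * (B2 * E2) := by ring
    _ ≤ (C ^ 4 * 128 ^ 4) ^ 2 * (C * f w n) ^ 2 * (B1 * E1) * (B2 * E2) := by gcongr
    _ = (C ^ 4 * 128 ^ 4) ^ 2 * C ^ 2 * ((f w n) ^ 2 * (B1 * E1) * (B2 * E2)) := by ring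

/-- Dyadic sum.  With `D = 2 ^ j * d₀`: `f w (D/16) ≤ C^4 32^4 f w D` (`AG.cmp`, `K = 32`, `D ≤ 32 (D/16)`),
`f w D ≤ f w d₀ * f d₀ D ≤ f w d₀ * C (d₀ / D)^(1+c)` (`sub`, `up`), so the term is at most
`(C₁ (d₀/w) f w d₀ 2^(-j c))²`; geometric series `∑ 4^(-j c) ≤ 1 / (1 - 4^(-c))`; finally `d₀ ≤ d` and
`f w d₀ ≤ C^4 4^4 f w d` (`AG.cmp`, `K = 4`). -/
theorem AF.dyadic {f : ℤ → ℤ → ℝ} {C c γ : ℝ} {R₀ : ℤ} (h : AF f C c γ R₀) : ∃ C' : ℝ, 0 < C' ∧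
    ∀ (w d d₀ : ℤ) (J : ℕ), R₀ ≤ w → 16 * w ≤ d₀ → d₀ ≤ d → d ≤ 4 * d₀ →
      ∑ j ∈ Finset.range J, (((2 ^ j * d₀ : ℤ) : ℝ) / w * f w (2 ^ j * d₀ / 16)) ^ 2 ≤
        C' * ((d : ℝ) / w * f w d) ^ 2 := by
  have hC := h.C1
  have hc := h.c0
  set q : ℝ := (4 : ℝ) ^ (-c) with hq
  have q0 : 0 < q := Real.rpow_pos_of_pos (by norm_num) _
  have q1 : q < 1 := Real.rpow_lt_one_of_one_lt_of_neg (by norm_num) (by linarith)
  refine ⟨(C ^ 4 * 32 ^ 4 * C) ^ 2 * (C ^ 4 * 4 ^ 4) ^ 2 * (1 - q)⁻¹, by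
    have : 0 < 1 - q := by linarith
    positivity, ?_⟩
  intro w d d₀ J h1 h2 h3 h4
  have hw : 0 < w := by have := h.R16; omega
  have hwR : (0 : ℝ) < w := by exact_mod_cast hw
  have hd₀ : (0 : ℝ) < d₀ := by
    have : 0 < d₀ := by omega
    exact_mod_cast this
  have c4 : f w d₀ ≤ C ^ 4 * 4 ^ 4 * f w d := by
    refine h.toAG.cmp (K := 4) (by norm_num) h1 h1 ?_ ?_
    · linarith
    · exact_mod_cast h4
  have n0 := h.nn w d₀
  have nd := h.nn w d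
  have hdd : ((d₀ : ℝ) / w) ≤ (d : ℝ) / w := by
    have : (d₀ : ℝ) ≤ d := by exact_mod_cast h3
    gcongr
  have term : ∀ j : ℕ, (((2 ^ j * d₀ : ℤ) : ℝ) / w * f w (2 ^ j * d₀ / 16)) ^ 2 ≤
      ((C ^ 4 * 32 ^ 4 * C) ^ 2 * (C ^ 4 * 4 ^ 4) ^ 2 * ((d : ℝ) / w * f w d) ^ 2) * q ^ j := by
    intro j
    set D : ℤ := 2 ^ j * d₀ with hD
    have p2 : (1 : ℤ) ≤ 2 ^ j := one_le_pow₀ (by norm_num)
    have hDd : d₀ ≤ D := by
      have : 0 < d₀ := by omega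
      nlinarith
    have hD0 : (0 : ℝ) < D := lt_of_lt_of_le hd₀ (by exact_mod_cast hDd)
    have a1 : f w (D / 16) ≤ C ^ 4 * 32 ^ 4 * f w D := by
      refine h.toAG.cmp (K := 32) (by norm_num) h1 h1 ?_ ?_
      · linarith
      · have : D ≤ 32 * (D / 16) := by
          have := h.R16
          omega
        exact_mod_cast this
    have a2 : f w D ≤ f w d₀ * f d₀ D := h.sub w d₀ D hw.le (by omega) hDd
    have a3 : f d₀ D ≤ C * ((d₀ : ℝ) / D) ^ (1 + c) := h.up d₀ D (by have := h.R16; omega) hDd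
    have e1 : ((d₀ : ℝ) / D) = (2 : ℝ) ^ (-(j : ℝ)) := by
      rw [hD]
      push_cast
      rw [Real.rpow_neg (by norm_num), Real.rpow_natCast]
      field_simp
    have e2 : ((d₀ : ℝ) / D) ^ (1 + c) = ((d₀ : ℝ) / D) * ((2 : ℝ) ^ (-(c : ℝ))) ^ j := by
      rw [Real.rpow_add (by positivity), Real.rpow_one]
      congr 1
      rw [e1, ← Real.rpow_mul (by norm_num), ← Real.rpow_natCast, ← Real.rpow_mul (by norm_num)]
      congr 1
      ring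
    have e3 : (((2 : ℝ) ^ (-(c : ℝ))) ^ j) ^ 2 = q ^ j := by
      rw [← pow_mul, mul_comm j 2, pow_mul, hq]
      congr 1
      rw [← Real.rpow_natCast, ← Real.rpow_mul (by norm_num)]
      have : (4 : ℝ) = (2 : ℝ) ^ (2 : ℝ) := by norm_num
      rw [this, ← Real.rpow_mul (by norm_num)]
      congr 1
      push_cast
      ring
    have nD := h.nn w (D / 16)
    have b1 : ((D : ℝ) / w) * f w (D / 16) ≤
        (C ^ 4 * 32 ^ 4 * C) * (C ^ 4 * 4 ^ 4) * ((d : ℝ) / w * f w d) * ((2 : ℝ) ^ (-(c : ℝ))) ^ j := by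
      have u0 : 0 ≤ ((2 : ℝ) ^ (-(c : ℝ))) ^ j := by positivity
      calc ((D : ℝ) / w) * f w (D / 16) ≤ ((D : ℝ) / w) * (C ^ 4 * 32 ^ 4 * (f w d₀ * (C * ((d₀ : ℝ) / D) ^ (1 + c)))) := by
            gcongr
            refine le_trans a1 ?_
            gcongr
            refine le_trans a2 ?_
            gcongr
        _ = (C ^ 4 * 32 ^ 4 * C) * ((d₀ : ℝ) / w) * f w d₀ * ((2 : ℝ) ^ (-(c : ℝ))) ^ j := by
            rw [e2]
            field_simp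
        _ ≤ (C ^ 4 * 32 ^ 4 * C) * ((d : ℝ) / w) * (C ^ 4 * 4 ^ 4 * f w d) * ((2 : ℝ) ^ (-(c : ℝ))) ^ j := by
            have dd : (0 : ℝ) ≤ (d : ℝ) / w := le_trans (by positivity) hdd
            have : 0 ≤ C ^ 4 * 32 ^ 4 * C * ((d : ℝ) / w) := mul_nonneg (by positivity) dd
            gcongr
        _ = (C ^ 4 * 32 ^ 4 * C) * (C ^ 4 * 4 ^ 4) * ((d : ℝ) / w * f w d) * ((2 : ℝ) ^ (-(c : ℝ))) ^ j := by
            ring
    calc (((D : ℤ) : ℝ) / w * f w (D / 16)) ^ 2 ≤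
        ((C ^ 4 * 32 ^ 4 * C) * (C ^ 4 * 4 ^ 4) * ((d : ℝ) / w * f w d) * ((2 : ℝ) ^ (-(c : ℝ))) ^ j) ^ 2 := by
          gcongr
      _ = ((C ^ 4 * 32 ^ 4 * C) ^ 2 * (C ^ 4 * 4 ^ 4) ^ 2 * ((d : ℝ) / w * f w d) ^ 2) * q ^ j := by
          rw [← e3]
          ring
  calc ∑ j ∈ Finset.range J, (((2 ^ j * d₀ : ℤ) : ℝ) / w * f w (2 ^ j * d₀ / 16)) ^ 2 ≤
      ∑ j ∈ Finset.range J, ((C ^ 4 * 32 ^ 4 * C) ^ 2 * (C ^ 4 * 4 ^ 4) ^ 2 * ((d : ℝ) / w * f w d) ^ 2) * q ^ j :=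
        Finset.sum_le_sum (fun j _ => term j)
    _ = ((C ^ 4 * 32 ^ 4 * C) ^ 2 * (C ^ 4 * 4 ^ 4) ^ 2 * ((d : ℝ) / w * f w d) ^ 2) * ∑ j ∈ Finset.range J, q ^ j := by
        rw [Finset.mul_sum]
    _ ≤ ((C ^ 4 * 32 ^ 4 * C) ^ 2 * (C ^ 4 * 4 ^ 4) ^ 2 * ((d : ℝ) / w * f w d) ^ 2) * (1 - q)⁻¹ := by
        gcongr
        rw [← tsum_geometric_of_lt_one q0.le q1]
        exact (summable_geometric_of_lt_one q0.le q1).sum_le_tsum _ (fun i _ => by positivity)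
    _ = (C ^ 4 * 32 ^ 4 * C) ^ 2 * (C ^ 4 * 4 ^ 4) ^ 2 * (1 - q)⁻¹ * ((d : ℝ) / w * f w d) ^ 2 := by ring

end FI

end SC

end

/-! ### from `Lib_MP_e0a489.FI15` -/

section

/-!
# MP_e0a489, module FI, analysis 6: sum over pairs of blocks
-/

set_option autoImplicit false

namespace SC

namespace FI

/-- every integer `m > d₀ ≥ 1` lies in exactly one dyadic interval `(2 ^ j d₀, 2 ^ (j+1) d₀]` -/
theorem exists_dyadic {d₀ m : ℤ} (h0 : 1 ≤ d₀) (h : d₀ < m) :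
    ∃ j : ℕ, 2 ^ j * d₀ < m ∧ m ≤ 2 * (2 ^ j * d₀) := by
  have hex : ∃ j : ℕ, m ≤ 2 ^ j * d₀ := by
    refine ⟨m.toNat, ?_⟩
    have h1 : (m.toNat : ℤ) < 2 ^ m.toNat := by exact_mod_cast Nat.lt_two_pow_self
    have h2 : m ≤ (m.toNat : ℤ) := Int.self_le_toNat m
    have h3 : (2 : ℤ) ^ m.toNat * 1 ≤ 2 ^ m.toNat * d₀ :=
      mul_le_mul_of_nonneg_left h0 (by positivity)
    linarith
  classical
  have hs := Nat.find_spec hex
  have hm : ∀ i : ℕ, i < Nat.find hex → ¬ m ≤ 2 ^ i * d₀ := fun i hi => Nat.find_min hex hi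
  generalize Nat.find hex = k at hs hm
  cases k with
  | zero =>
    rw [pow_zero, one_mul] at hs
    omega
  | succ k =>
    refine ⟨k, ?_, ?_⟩
    · exact not_le.1 (hm k (Nat.lt_succ_self k))
    · calc m ≤ 2 ^ (k + 1) * d₀ := hs
        _ = 2 * (2 ^ k * d₀) := by ring

private theorem fi15_gg_nonneg (f : ℤ → ℤ → ℝ) (γ : ℝ) (N N' : ℤ) {a b : ℤ} (ha : 0 < a)
    (hb : 0 ≤ b) (x : ℤ × ℤ) : 0 ≤ gg f γ N N' a b x := by
  have hb' : (0 : ℝ) ≤ (b : ℝ) := by exact_mod_cast hb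
  have key : ∀ p : ℤ, 0 ≤ ((b : ℝ) / cl p a b) := by
    intro p
    have h1 : 0 < cl p a b := lt_of_lt_of_le ha (le_max_left _ _)
    have h2 : (0 : ℝ) < cl p a b := by exact_mod_cast h1
    positivity
  unfold gg
  exact mul_nonneg (mul_nonneg (sq_nonneg _) (Real.rpow_nonneg (key _) _))
    (Real.rpow_nonneg (key _) _)

/-- One dyadic shell: for `D` with `16 w ≤ D ≤ 16 n` the sum over the pairs with `D < dist ≤ 2 D` of the bound.
Fix `z`; `gg w (D/16) (z) * gg (min (4D) n) n (z) ≤ C gg w n (z)` (`gg_mul`); the sum over `z'` of `gg w (D/16) (z')` is at most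
`C ((D/w) f w (D/16))²` (`sum_near`); sum over `z` by `sum_all`. -/
theorem AF.shell {f : ℤ → ℤ → ℝ} {C c γ : ℝ} {R₀ : ℤ} (h : AF f C c γ R₀) : ∃ C' : ℝ, 0 < C' ∧
    ∀ (w N N' n D : ℤ) (Z : Finset (ℤ × ℤ)), R₀ ≤ w → w ≤ n → N ≤ 2 * n → N' ≤ 2 * n →
      16 * w ≤ D → D ≤ 16 * n → (∀ z ∈ Z, |w * z.1| ≤ N + w ∧ |w * z.2| ≤ N' + w) →
      ∑ p ∈ (Z ×ˢ Z).filter (fun p => D < bd2 w p.1 p.2 ∧ bd2 w p.1 p.2 ≤ 2 * D),
        (gg f γ N N' w (D / 16) (sc w p.1) * gg f γ N N' w (D / 16) (sc w p.2) *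
          gg f γ N N' (min (4 * D) n) n (sc w p.1)) ≤
      C' * ((n : ℝ) / w * f w n) ^ 2 * ((D : ℝ) / w * f w (D / 16)) ^ 2 := by
  obtain ⟨Cg, hCg, Hg⟩ := h.toAG.gg_mul
  obtain ⟨Cn, hCn, Hn⟩ := h.sum_near
  obtain ⟨Ca, hCa, Ha⟩ := h.sum_all
  refine ⟨Cg * Cn * Ca, by positivity, ?_⟩
  intro w N N' n D Z h1 h2 h3 h4 h5 h6 hZ
  have h16 := h.R16
  have hw : 1 ≤ w := by omega
  have hD : 0 < D := by omega
  have hr : 0 < min (4 * D) n := lt_min (by omega) (by omega)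
  have n1 : ∀ x, 0 ≤ gg f γ N N' w (D / 16) x := fun x =>
    fi15_gg_nonneg f γ N N' (by omega) (by omega) x
  have n2 : ∀ x, 0 ≤ gg f γ N N' (min (4 * D) n) n x := fun x =>
    fi15_gg_nonneg f γ N N' hr (by omega) x
  have n3 : 0 ≤ ((D : ℝ) / w * f w (D / 16)) ^ 2 := sq_nonneg _
  have step : ∀ z ∈ Z, ∑ z' ∈ Z, (if D < bd2 w z z' ∧ bd2 w z z' ≤ 2 * D then
        gg f γ N N' w (D / 16) (sc w z) * gg f γ N N' w (D / 16) (sc w z') *
          gg f γ N N' (min (4 * D) n) n (sc w z) else 0) ≤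
      (Cg * gg f γ N N' w n (sc w z)) * (Cn * ((D : ℝ) / w * f w (D / 16)) ^ 2) := by
    intro z hz
    have hsum : ∑ z' ∈ Z.filter (fun z' => bd2 w z z' ≤ 2 * D), gg f γ N N' w (D / 16) (sc w z') ≤
        Cn * ((D : ℝ) / w * f w (D / 16)) ^ 2 := by
      refine Hn w N N' D z (Z.filter (fun z' => bd2 w z z' ≤ 2 * D)) hw h5 ?_ ?_
      · intro z' hz'
        exact hZ z' (Finset.mem_filter.1 hz').1
      · intro z' hz'
        exact (Finset.mem_filter.1 hz').2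
    have hle : ∑ z' ∈ Z, (if D < bd2 w z z' ∧ bd2 w z z' ≤ 2 * D then
        gg f γ N N' w (D / 16) (sc w z) * gg f γ N N' w (D / 16) (sc w z') *
          gg f γ N N' (min (4 * D) n) n (sc w z) else 0) ≤
        ∑ z' ∈ Z, (if bd2 w z z' ≤ 2 * D then
          (gg f γ N N' w (D / 16) (sc w z) * gg f γ N N' (min (4 * D) n) n (sc w z)) *
            gg f γ N N' w (D / 16) (sc w z') else 0) := by
      refine Finset.sum_le_sum fun z' _ => ?_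
      have hnn : 0 ≤ (gg f γ N N' w (D / 16) (sc w z) *
          gg f γ N N' (min (4 * D) n) n (sc w z)) * gg f γ N N' w (D / 16) (sc w z') :=
        mul_nonneg (mul_nonneg (n1 _) (n2 _)) (n1 _)
      by_cases hc : bd2 w z z' ≤ 2 * D
      · rw [if_pos hc]
        by_cases hc' : D < bd2 w z z' ∧ bd2 w z z' ≤ 2 * D
        · rw [if_pos hc']
          exact le_of_eq (by ring)
        · rw [if_neg hc']
          exact hnn
      · rw [if_neg hc, if_neg (fun hh => hc hh.2)]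
    refine hle.trans ?_
    rw [← Finset.sum_filter, ← Finset.mul_sum]
    have hg := Hg N N' w D n (sc w z) h1 h5 h2 h6
    have hs0 : 0 ≤ ∑ z' ∈ Z.filter (fun z' => bd2 w z z' ≤ 2 * D),
        gg f γ N N' w (D / 16) (sc w z') := Finset.sum_nonneg fun z' _ => n1 _
    have hg0 : 0 ≤ Cg * gg f γ N N' w n (sc w z) :=
      le_trans (mul_nonneg (n1 _) (n2 _)) hg
    exact mul_le_mul hg hsum hs0 hg0
  have hsum2 : ∑ p ∈ (Z ×ˢ Z).filter (fun p => D < bd2 w p.1 p.2 ∧ bd2 w p.1 p.2 ≤ 2 * D),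
        (gg f γ N N' w (D / 16) (sc w p.1) * gg f γ N N' w (D / 16) (sc w p.2) *
          gg f γ N N' (min (4 * D) n) n (sc w p.1)) =
      ∑ z ∈ Z, ∑ z' ∈ Z, (if D < bd2 w z z' ∧ bd2 w z z' ≤ 2 * D then
        gg f γ N N' w (D / 16) (sc w z) * gg f γ N N' w (D / 16) (sc w z') *
          gg f γ N N' (min (4 * D) n) n (sc w z) else 0) := by
    rw [Finset.sum_filter, Finset.sum_product]
  rw [hsum2]
  have hall := Ha w N N' n Z hw h2 h3 h4 hZ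
  calc ∑ z ∈ Z, ∑ z' ∈ Z, (if D < bd2 w z z' ∧ bd2 w z z' ≤ 2 * D then
        gg f γ N N' w (D / 16) (sc w z) * gg f γ N N' w (D / 16) (sc w z') *
          gg f γ N N' (min (4 * D) n) n (sc w z) else 0)
      ≤ ∑ z ∈ Z, (Cg * gg f γ N N' w n (sc w z)) * (Cn * ((D : ℝ) / w * f w (D / 16)) ^ 2) :=
        Finset.sum_le_sum step
    _ = (Cg * (Cn * ((D : ℝ) / w * f w (D / 16)) ^ 2)) * ∑ z ∈ Z, gg f γ N N' w n (sc w z) := by
        rw [Finset.mul_sum]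
        refine Finset.sum_congr rfl fun z _ => ?_
        ring
    _ ≤ (Cg * (Cn * ((D : ℝ) / w * f w (D / 16)) ^ 2)) * (Ca * ((n : ℝ) / w * f w n) ^ 2) :=
        mul_le_mul_of_nonneg_left hall (by positivity)
    _ = Cg * Cn * Ca * ((n : ℝ) / w * f w n) ^ 2 * ((D : ℝ) / w * f w (D / 16)) ^ 2 := by ring

/-- SUM OVER PAIRS.  `d₀ = d / 2` (floor): `16 w ≤ d₀`, `d₀ < d - w`, `d ≤ 4 d₀`.  Every pair with `d - w ≤ dist` has a number `j` with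
`D < dist ≤ 2 D`, `D = 2 ^ j d₀` (`exists_dyadic`); as `dist ≤ 2 (max N N' + w) ≤ 6 n`, `D ≤ 16 n` and `j < J := (6 n).toNat + 1`.  So the sum is at
most the sum over `j < J` (with `2 ^ j d₀ ≤ 16 n`) of `M` times the shell sums; `AF.shell`, `AF.dyadic`. -/
theorem AF.pairs {f : ℤ → ℤ → ℝ} {C c γ : ℝ} {R₀ : ℤ} (h : AF f C c γ R₀) : ∃ C' : ℝ, 0 < C' ∧
    ∀ (w N N' n d : ℤ) (Z : Finset (ℤ × ℤ)) (J : ℤ × ℤ → ℤ × ℤ → ℝ) (M : ℝ), 0 ≤ M → R₀ ≤ w →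
      64 * w ≤ d → w ≤ n → N ≤ 2 * n → N' ≤ 2 * n →
      (∀ z ∈ Z, |w * z.1| ≤ N + w ∧ |w * z.2| ≤ N' + w) →
      (∀ z ∈ Z, ∀ z' ∈ Z, ∀ D : ℤ, 16 * w ≤ D → D ≤ 16 * n → D < bd2 w z z' →
        bd2 w z z' ≤ 2 * D →
        J z z' ≤ M * (gg f γ N N' w (D / 16) (sc w z) * gg f γ N N' w (D / 16) (sc w z') *
          gg f γ N N' (min (4 * D) n) n (sc w z))) →
      ∑ p ∈ (Z ×ˢ Z).filter (fun p => d - w ≤ bd2 w p.1 p.2), J p.1 p.2 ≤
        C' * M * (((n : ℝ) / w * f w n) ^ 2 * ((d : ℝ) / w * f w d) ^ 2) := by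
  obtain ⟨Cs, hCs, Hs⟩ := h.shell
  obtain ⟨Cd, hCd, Hd⟩ := h.dyadic
  refine ⟨Cs * Cd, by positivity, ?_⟩
  intro w N N' n d Z J M hM h1 h2 h3 h4 h5 hZ hJ
  have h16 := h.R16
  have hw : 16 ≤ w := by omega
  obtain ⟨d₀, hd₀⟩ : ∃ d₀ : ℤ, d₀ = d / 2 := ⟨_, rfl⟩
  have a1 : 16 * w ≤ d₀ := by omega
  have a2 : d₀ < d - w := by omega
  have a3 : d ≤ 4 * d₀ := by omega
  have a4 : d₀ ≤ d := by omega
  have a5 : 1 ≤ d₀ := by omega
  obtain ⟨K, hK⟩ : ∃ K : ℕ, K = (6 * n).toNat + 1 := ⟨_, rfl⟩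
  have hDj : ∀ j : ℕ, 16 * w ≤ 2 ^ j * d₀ := by
    intro j
    have : (1 : ℤ) ≤ 2 ^ j := one_le_pow₀ (by norm_num)
    nlinarith
  have hB : ∀ (j : ℕ) (p : (ℤ × ℤ) × (ℤ × ℤ)), 0 ≤
      gg f γ N N' w ((2 ^ j * d₀) / 16) (sc w p.1) * gg f γ N N' w ((2 ^ j * d₀) / 16) (sc w p.2) *
        gg f γ N N' (min (4 * (2 ^ j * d₀)) n) n (sc w p.1) := by
    intro j p
    have := hDj j
    have hr : 0 < min (4 * (2 ^ j * d₀)) n := lt_min (by omega) (by omega)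
    exact mul_nonneg (mul_nonneg (fi15_gg_nonneg f γ N N' (by omega) (by omega) _)
      (fi15_gg_nonneg f γ N N' (by omega) (by omega) _))
      (fi15_gg_nonneg f γ N N' hr (by omega) _)
  have hbd : ∀ z ∈ Z, ∀ z' ∈ Z, bd2 w z z' ≤ 6 * n := by
    intro z hz z' hz'
    obtain ⟨b1, b2⟩ := hZ z hz
    obtain ⟨b3, b4⟩ := hZ z' hz'
    unfold bd2
    refine max_le ?_ ?_
    · have := abs_sub (w * z.1) (w * z'.1)
      omega
    · have := abs_sub (w * z.2) (w * z'.2)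
      omega
  have hpt : ∀ p ∈ (Z ×ˢ Z).filter (fun p => d - w ≤ bd2 w p.1 p.2), J p.1 p.2 ≤
      ∑ j ∈ Finset.range K, (if (2 ^ j * d₀ ≤ 16 * n) ∧
          (2 ^ j * d₀ < bd2 w p.1 p.2 ∧ bd2 w p.1 p.2 ≤ 2 * (2 ^ j * d₀)) then
        M * (gg f γ N N' w ((2 ^ j * d₀) / 16) (sc w p.1) *
          gg f γ N N' w ((2 ^ j * d₀) / 16) (sc w p.2) *
          gg f γ N N' (min (4 * (2 ^ j * d₀)) n) n (sc w p.1)) else 0) := by
    intro p hp
    obtain ⟨hp1, hp2⟩ := Finset.mem_filter.1 hp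
    obtain ⟨hz, hz'⟩ := Finset.mem_product.1 hp1
    obtain ⟨j, c1, c2⟩ := exists_dyadic a5 (lt_of_lt_of_le a2 hp2)
    have c3 := hbd p.1 hz p.2 hz'
    have c4 : 2 ^ j * d₀ ≤ 16 * n := by omega
    have c5 : j < K := by
      have e1 : (j : ℤ) < 2 ^ j := by exact_mod_cast Nat.lt_two_pow_self
      have e2 : (2 : ℤ) ^ j * 1 ≤ 2 ^ j * d₀ := mul_le_mul_of_nonneg_left a5 (by positivity)
      have e3 : (j : ℤ) < 6 * n := by linarith
      omega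
    have c6 := hJ p.1 hz p.2 hz' (2 ^ j * d₀) (hDj j) c4 c1 c2
    refine le_trans c6 ?_
    have c7 := Finset.single_le_sum (f := fun j => (if (2 ^ j * d₀ ≤ 16 * n) ∧
          (2 ^ j * d₀ < bd2 w p.1 p.2 ∧ bd2 w p.1 p.2 ≤ 2 * (2 ^ j * d₀)) then
        M * (gg f γ N N' w ((2 ^ j * d₀) / 16) (sc w p.1) *
          gg f γ N N' w ((2 ^ j * d₀) / 16) (sc w p.2) *
          gg f γ N N' (min (4 * (2 ^ j * d₀)) n) n (sc w p.1)) else 0))
      (fun i _ => by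
        split_ifs
        · exact mul_nonneg hM (hB i p)
        · exact le_rfl) (Finset.mem_range.2 c5)
    rw [if_pos ⟨c4, c1, c2⟩] at c7
    exact c7
  have hin : ∀ j : ℕ, ∑ p ∈ Z ×ˢ Z, (if (2 ^ j * d₀ ≤ 16 * n) ∧
          (2 ^ j * d₀ < bd2 w p.1 p.2 ∧ bd2 w p.1 p.2 ≤ 2 * (2 ^ j * d₀)) then
        M * (gg f γ N N' w ((2 ^ j * d₀) / 16) (sc w p.1) *
          gg f γ N N' w ((2 ^ j * d₀) / 16) (sc w p.2) *
          gg f γ N N' (min (4 * (2 ^ j * d₀)) n) n (sc w p.1)) else 0) ≤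
      M * (Cs * ((n : ℝ) / w * f w n) ^ 2 *
        (((2 ^ j * d₀ : ℤ) : ℝ) / w * f w (2 ^ j * d₀ / 16)) ^ 2) := by
    intro j
    by_cases hc : 2 ^ j * d₀ ≤ 16 * n
    · have e1 := Hs w N N' n (2 ^ j * d₀) Z h1 h3 h4 h5 (hDj j) hc hZ
      refine le_trans (le_of_eq ?_) (mul_le_mul_of_nonneg_left e1 hM)
      rw [Finset.mul_sum, Finset.sum_filter]
      refine Finset.sum_congr rfl fun p _ => ?_
      by_cases hc' : 2 ^ j * d₀ < bd2 w p.1 p.2 ∧ bd2 w p.1 p.2 ≤ 2 * (2 ^ j * d₀)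
      · rw [if_pos hc', if_pos ⟨hc, hc'⟩]
      · rw [if_neg hc', if_neg (fun hh => hc' hh.2)]
    · have e1 : ∑ p ∈ Z ×ˢ Z, (if (2 ^ j * d₀ ≤ 16 * n) ∧
          (2 ^ j * d₀ < bd2 w p.1 p.2 ∧ bd2 w p.1 p.2 ≤ 2 * (2 ^ j * d₀)) then
        M * (gg f γ N N' w ((2 ^ j * d₀) / 16) (sc w p.1) *
          gg f γ N N' w ((2 ^ j * d₀) / 16) (sc w p.2) *
          gg f γ N N' (min (4 * (2 ^ j * d₀)) n) n (sc w p.1)) else 0) = 0 :=
        Finset.sum_eq_zero fun p _ => if_neg (fun hh => hc hh.1)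
      rw [e1]
      positivity
  have hdy := Hd w d d₀ K h1 a1 a4 a3
  calc ∑ p ∈ (Z ×ˢ Z).filter (fun p => d - w ≤ bd2 w p.1 p.2), J p.1 p.2
      ≤ ∑ p ∈ (Z ×ˢ Z).filter (fun p => d - w ≤ bd2 w p.1 p.2),
        ∑ j ∈ Finset.range K, (if (2 ^ j * d₀ ≤ 16 * n) ∧
          (2 ^ j * d₀ < bd2 w p.1 p.2 ∧ bd2 w p.1 p.2 ≤ 2 * (2 ^ j * d₀)) then
        M * (gg f γ N N' w ((2 ^ j * d₀) / 16) (sc w p.1) *
          gg f γ N N' w ((2 ^ j * d₀) / 16) (sc w p.2) *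
          gg f γ N N' (min (4 * (2 ^ j * d₀)) n) n (sc w p.1)) else 0) :=
        Finset.sum_le_sum hpt
    _ ≤ ∑ p ∈ Z ×ˢ Z,
        ∑ j ∈ Finset.range K, (if (2 ^ j * d₀ ≤ 16 * n) ∧
          (2 ^ j * d₀ < bd2 w p.1 p.2 ∧ bd2 w p.1 p.2 ≤ 2 * (2 ^ j * d₀)) then
        M * (gg f γ N N' w ((2 ^ j * d₀) / 16) (sc w p.1) *
          gg f γ N N' w ((2 ^ j * d₀) / 16) (sc w p.2) *
          gg f γ N N' (min (4 * (2 ^ j * d₀)) n) n (sc w p.1)) else 0) := by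
        refine Finset.sum_le_sum_of_subset_of_nonneg (Finset.filter_subset _ _) fun p _ _ => ?_
        refine Finset.sum_nonneg fun j _ => ?_
        split_ifs
        · exact mul_nonneg hM (hB j p)
        · exact le_rfl
    _ = ∑ j ∈ Finset.range K, ∑ p ∈ Z ×ˢ Z, (if (2 ^ j * d₀ ≤ 16 * n) ∧
          (2 ^ j * d₀ < bd2 w p.1 p.2 ∧ bd2 w p.1 p.2 ≤ 2 * (2 ^ j * d₀)) then
        M * (gg f γ N N' w ((2 ^ j * d₀) / 16) (sc w p.1) *
          gg f γ N N' w ((2 ^ j * d₀) / 16) (sc w p.2) *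
          gg f γ N N' (min (4 * (2 ^ j * d₀)) n) n (sc w p.1)) else 0) := Finset.sum_comm
    _ ≤ ∑ j ∈ Finset.range K, M * (Cs * ((n : ℝ) / w * f w n) ^ 2 *
        (((2 ^ j * d₀ : ℤ) : ℝ) / w * f w (2 ^ j * d₀ / 16)) ^ 2) :=
        Finset.sum_le_sum fun j _ => hin j
    _ = M * (Cs * ((n : ℝ) / w * f w n) ^ 2) * ∑ j ∈ Finset.range K,
        (((2 ^ j * d₀ : ℤ) : ℝ) / w * f w (2 ^ j * d₀ / 16)) ^ 2 := by
        rw [Finset.mul_sum]
        refine Finset.sum_congr rfl fun j _ => ?_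
        ring
    _ ≤ M * (Cs * ((n : ℝ) / w * f w n) ^ 2) * (Cd * ((d : ℝ) / w * f w d) ^ 2) :=
        mul_le_mul_of_nonneg_left hdy (by positivity)
    _ = Cs * Cd * M * (((n : ℝ) / w * f w n) ^ 2 * ((d : ℝ) / w * f w d) ^ 2) := by ring

end FI

end SC

end

/-! ### from `Lib_MP_e0a489.FI11` -/

section

/-!
# MP_e0a489, module FI, analysis 2: bulk, half plane and corner factors
-/

set_option autoImplicit false

namespace SC

namespace FI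

/-- `y^(3/4)` and `z^(1/2)` through lower bounds -/
private theorem fi11_pow {C y P γ s : ℝ} (hC : 1 ≤ C) (hy : 0 ≤ y) (hP : 1 ≤ P) (hs : 0 ≤ s)
    (hs1 : s ≤ 1) (h : 1 ≤ C * y * P ^ (2 * γ)) :
    y ^ (1 - s) ≤ C * y * P ^ (2 * γ * s) := by
  have hP0 : 0 ≤ P := by linarith
  have hP1 : 0 ≤ P ^ (2 * γ) := Real.rpow_nonneg hP0 _
  have hC0 : 0 ≤ C := by linarith
  have h1 : 1 ≤ (C * y * P ^ (2 * γ)) ^ s := Real.one_le_rpow h hs
  rw [Real.mul_rpow (mul_nonneg hC0 hy) hP1, Real.mul_rpow hC0 hy, ← Real.rpow_mul hP0] at h1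
  have hy0 : 0 < y := by
    rcases hy.eq_or_lt with h0 | h0
    · rw [← h0] at h
      simp only [mul_zero, zero_mul] at h
      linarith
    · exact h0
  have h2 : y ^ (1 - s) * y ^ s = y := by
    rw [← Real.rpow_add hy0]
    simp
  have h3 : C ^ s ≤ C := by
    calc C ^ s ≤ C ^ (1 : ℝ) := Real.rpow_le_rpow_of_exponent_le hC hs1
      _ = C := Real.rpow_one C
  calc y ^ (1 - s) = y ^ (1 - s) * 1 := (mul_one _).symm
    _ ≤ y ^ (1 - s) * (C ^ s * y ^ s * P ^ (2 * γ * s)) :=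
        mul_le_mul_of_nonneg_left h1 (Real.rpow_nonneg hy _)
    _ = C ^ s * (y ^ (1 - s) * y ^ s) * P ^ (2 * γ * s) := by ring
    _ = C ^ s * y * P ^ (2 * γ * s) := by rw [h2]
    _ ≤ C * y * P ^ (2 * γ * s) := by
        apply mul_le_mul_of_nonneg_right _ (Real.rpow_nonneg hP0 _)
        exact mul_le_mul_of_nonneg_right h3 hy

private theorem fi11_pow2 {C B y s : ℝ} (hC : 1 ≤ C) (hB : 0 ≤ B) (hy : 0 ≤ y) (hs : 0 ≤ s)
    (hs1 : s ≤ 1) (h : B ≤ C * y) : B ^ s ≤ C * y ^ s := by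
  have hC0 : 0 ≤ C := by linarith
  calc B ^ s ≤ (C * y) ^ s := Real.rpow_le_rpow hB h hs
    _ = C ^ s * y ^ s := Real.mul_rpow hC0 hy
    _ ≤ C * y ^ s := by
        apply mul_le_mul_of_nonneg_right _ (Real.rpow_nonneg hy _)
        calc C ^ s ≤ C ^ (1 : ℝ) := Real.rpow_le_rpow_of_exponent_le hC hs1
          _ = C := Real.rpow_one C

/-- the ordered case -/
private theorem AG.three_ord {f : ℤ → ℤ → ℝ} {C γ : ℝ} {R₀ : ℤ} (h : AG f C γ R₀)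
    {a b k l : ℤ} (hkl : k ≤ l) (ha : R₀ ≤ a) (hab : a ≤ b) :
      f a (min k b - 1) * f (2 * max a k) (min l b - 1) ^ (3 / 4 : ℝ) *
        f (2 * max a l) b ^ (1 / 2 : ℝ) ≤
      (C ^ 4 * 2 ^ 4) ^ 3 * C ^ 4 *
        (f a b * ((b : ℝ) / cl k a b) ^ (γ / 2) * ((b : ℝ) / cl l a b) ^ (γ / 2)) := by
  have hC := h.C1
  have hC0 : 0 ≤ C := by linarith
  have h16 := h.R16
  have g0 := h.g0
  obtain ⟨C₁, hC₁⟩ : ∃ C₁, C₁ = C ^ 4 * (2 : ℝ) ^ 4 := ⟨_, rfl⟩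
  have hC4 : 1 ≤ C ^ 4 := one_le_pow₀ hC
  have hC11 : 1 ≤ C₁ := by rw [hC₁]; nlinarith
  have hC10 : 0 ≤ C₁ := by linarith
  have K2 : (1 : ℝ) ≤ 2 := by norm_num
  obtain ⟨u, hu⟩ : ∃ u, u = cl k a b := ⟨_, rfl⟩
  obtain ⟨v, hv⟩ : ∃ v, v = cl l a b := ⟨_, rfl⟩
  rw [← hu, ← hv, ← hC₁]
  unfold cl at hu hv
  have hau : a ≤ u := by omega
  have huv : u ≤ v := by omega
  have hvb : v ≤ b := by omega
  have e1 : f a (min k b - 1) ≤ C₁ * f a u := by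
    by_cases h1 : min k b ≤ a
    · have h2 : u = a := by omega
      rw [h2, h.one a a le_rfl, mul_one]
      exact (h.le1 _ _).trans hC11
    · have h2 : u = min k b := by omega
      rw [← h2, hC₁]
      refine h.cmp K2 ha ha ?_ ?_
      · have : (0 : ℝ) ≤ (a : ℝ) := by exact_mod_cast (by omega : (0 : ℤ) ≤ a)
        linarith
      · have : (2 : ℝ) ≤ (u : ℝ) := by exact_mod_cast (by omega : (2 : ℤ) ≤ u)
        push_cast
        linarith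
  have e2 : f (2 * max a k) (min l b - 1) ≤ C₁ * f u v := by
    by_cases h0 : b < k
    · have h1 : u = b := by omega
      have h2 : v = b := by omega
      rw [h1, h2, h.one b b le_rfl, mul_one]
      exact (h.le1 _ _).trans hC11
    · by_cases h1 : min l b ≤ a
      · have h2 : v = a := by omega
        have h3 : u = a := by omega
        rw [h2, h3, h.one a a le_rfl, mul_one]
        exact (h.le1 _ _).trans hC11
      · have h2 : v = min l b := by omega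
        have h3 : u = max a k := by omega
        rw [← h2, ← h3, hC₁]
        refine h.cmp K2 (by omega) (by omega) ?_ ?_
        · push_cast
          linarith
        · have : (2 : ℝ) ≤ (v : ℝ) := by exact_mod_cast (by omega : (2 : ℤ) ≤ v)
          push_cast
          linarith
  have e3 : f (2 * max a l) b ≤ C₁ * f v b := by
    by_cases h0 : b < l
    · have h1 : v = b := by omega
      rw [h1, h.one b b le_rfl, mul_one]
      exact (h.le1 _ _).trans hC11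
    · have h3 : v = max a l := by omega
      rw [← h3, hC₁]
      refine h.cmp K2 (by omega) (by omega) ?_ ?_
      · push_cast
        linarith
      · have : (0 : ℝ) ≤ (b : ℝ) := by exact_mod_cast (by omega : (0 : ℤ) ≤ b)
        linarith
  have e4 : f a u * f u v * f v b ≤ C ^ 2 * f a b := by
    have h1 := h.qm a u v ha hau huv
    have h2 := h.qm a v b ha (hau.trans huv) hvb
    calc f a u * f u v * f v b ≤ C * f a v * f v b :=
          mul_le_mul_of_nonneg_right h1 (h.nn _ _)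
      _ = C * (f a v * f v b) := by ring
      _ ≤ C * (C * f a b) := mul_le_mul_of_nonneg_left h2 hC0
      _ = C ^ 2 * f a b := by ring
  have hu0 : (0 : ℝ) < (u : ℝ) := by exact_mod_cast (by omega : (0 : ℤ) < u)
  have hv0 : (0 : ℝ) < (v : ℝ) := by exact_mod_cast (by omega : (0 : ℤ) < v)
  have hb0 : (0 : ℝ) < (b : ℝ) := by exact_mod_cast (by omega : (0 : ℤ) < b)
  have huv' : (u : ℝ) ≤ v := by exact_mod_cast huv
  have hvb' : (v : ℝ) ≤ b := by exact_mod_cast hvb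
  have P1 : 1 ≤ (v : ℝ) / u := by rw [le_div_iff₀ hu0]; linarith
  have Q1 : 1 ≤ (b : ℝ) / v := by rw [le_div_iff₀ hv0]; linarith
  have lo' : ∀ x y : ℤ, R₀ ≤ x → x ≤ y → 1 ≤ C * f x y * ((y : ℝ) / x) ^ (2 * γ) := by
    intro x y hx hxy
    have h1 := h.lo x y hx hxy
    have hx0 : (0 : ℝ) < (x : ℝ) := by exact_mod_cast (by omega : (0 : ℤ) < x)
    have hy0 : (0 : ℝ) < (y : ℝ) := by exact_mod_cast (by omega : (0 : ℤ) < y)
    have h2 : ((x : ℝ) / y) ^ (2 * γ) * ((y : ℝ) / x) ^ (2 * γ) = 1 := by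
      rw [← Real.mul_rpow (by positivity) (by positivity)]
      have : (x : ℝ) / y * (y / x) = 1 := by field_simp
      rw [this, Real.one_rpow]
    calc (1 : ℝ) = ((x : ℝ) / y) ^ (2 * γ) * ((y : ℝ) / x) ^ (2 * γ) := h2.symm
      _ ≤ C * f x y * ((y : ℝ) / x) ^ (2 * γ) :=
          mul_le_mul_of_nonneg_right h1 (Real.rpow_nonneg (by positivity) _)
  have e5 : f u v ^ (3 / 4 : ℝ) ≤ C * f u v * ((v : ℝ) / u) ^ (γ / 2) := by
    have h1 := fi11_pow (s := 1 / 4) (γ := γ) hC (h.nn u v) P1 (by norm_num) (by norm_num)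
      (lo' u v (by omega) huv)
    have h2 : (1 : ℝ) - 1 / 4 = 3 / 4 := by norm_num
    have h3 : 2 * γ * (1 / 4) = γ / 2 := by ring
    rwa [h2, h3] at h1
  have e6 : f v b ^ (1 / 2 : ℝ) ≤ C * f v b * ((b : ℝ) / v) ^ γ := by
    have h1 := fi11_pow (s := 1 / 2) (γ := γ) hC (h.nn v b) Q1 (by norm_num) (by norm_num)
      (lo' v b (by omega) hvb)
    have h2 : (1 : ℝ) - 1 / 2 = 1 / 2 := by norm_num
    have h3 : 2 * γ * (1 / 2) = γ := by ring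
    rwa [h2, h3] at h1
  have e7 : f (2 * max a k) (min l b - 1) ^ (3 / 4 : ℝ) ≤ C₁ * f u v ^ (3 / 4 : ℝ) :=
    fi11_pow2 hC11 (h.nn _ _) (h.nn _ _) (by norm_num) (by norm_num) e2
  have e8 : f (2 * max a l) b ^ (1 / 2 : ℝ) ≤ C₁ * f v b ^ (1 / 2 : ℝ) :=
    fi11_pow2 hC11 (h.nn _ _) (h.nn _ _) (by norm_num) (by norm_num) e3
  have n1 : 0 ≤ f a u := h.nn _ _
  have n2 : 0 ≤ f u v ^ (3 / 4 : ℝ) := Real.rpow_nonneg (h.nn _ _) _
  have n3 : 0 ≤ f v b ^ (1 / 2 : ℝ) := Real.rpow_nonneg (h.nn _ _) _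
  have n4 : 0 ≤ f (2 * max a k) (min l b - 1) ^ (3 / 4 : ℝ) := Real.rpow_nonneg (h.nn _ _) _
  have n5 : 0 ≤ f (2 * max a l) b ^ (1 / 2 : ℝ) := Real.rpow_nonneg (h.nn _ _) _
  have m1 : 0 ≤ ((v : ℝ) / u) ^ (γ / 2) := Real.rpow_nonneg (by positivity) _
  have m2 : 0 ≤ ((b : ℝ) / v) ^ γ := Real.rpow_nonneg (by positivity) _
  have pow_id : ((v : ℝ) / u) ^ (γ / 2) * ((b : ℝ) / v) ^ γ =
      ((b : ℝ) / u) ^ (γ / 2) * ((b : ℝ) / v) ^ (γ / 2) := by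
    have h1 : ((b : ℝ) / v) ^ γ = ((b : ℝ) / v) ^ (γ / 2) * ((b : ℝ) / v) ^ (γ / 2) := by
      rw [← Real.rpow_add (by positivity)]
      congr 1
      ring
    have h2 : ((b : ℝ) / u) ^ (γ / 2) = ((v : ℝ) / u) ^ (γ / 2) * ((b : ℝ) / v) ^ (γ / 2) := by
      rw [← Real.mul_rpow (by positivity) (by positivity)]
      congr 1
      field_simp
    rw [h1, h2]
    ring
  calc f a (min k b - 1) * f (2 * max a k) (min l b - 1) ^ (3 / 4 : ℝ) *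
        f (2 * max a l) b ^ (1 / 2 : ℝ)
      ≤ (C₁ * f a u) * (C₁ * f u v ^ (3 / 4 : ℝ)) * (C₁ * f v b ^ (1 / 2 : ℝ)) := by
        apply mul_le_mul _ e8 n5 (by positivity)
        exact mul_le_mul e1 e7 n4 (by positivity)
    _ = C₁ ^ 3 * (f a u * (f u v ^ (3 / 4 : ℝ)) * (f v b ^ (1 / 2 : ℝ))) := by ring
    _ ≤ C₁ ^ 3 * (f a u * (C * f u v * ((v : ℝ) / u) ^ (γ / 2)) *
          (C * f v b * ((b : ℝ) / v) ^ γ)) := by
        apply mul_le_mul_of_nonneg_left _ (by positivity)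
        apply mul_le_mul _ e6 n3
        · have := h.nn u v
          positivity
        · exact mul_le_mul_of_nonneg_left e5 n1
    _ = C₁ ^ 3 * C ^ 2 * (f a u * f u v * f v b) *
          (((v : ℝ) / u) ^ (γ / 2) * ((b : ℝ) / v) ^ γ) := by ring
    _ ≤ C₁ ^ 3 * C ^ 2 * (C ^ 2 * f a b) *
          (((v : ℝ) / u) ^ (γ / 2) * ((b : ℝ) / v) ^ γ) := by
        apply mul_le_mul_of_nonneg_right _ (mul_nonneg m1 m2)
        exact mul_le_mul_of_nonneg_left e4 (by positivity)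
    _ = C₁ ^ 3 * C ^ 4 * (f a b * ((b : ℝ) / u) ^ (γ / 2) * ((b : ℝ) / v) ^ (γ / 2)) := by
        rw [pow_id]
        ring

/-- Product of the three factors (bulk, half plane, corner), one configuration.
Let `h = min p q`, `h₂ = max p q`, `u = cl h a b = max a (min h b)`, `u₂ = cl h₂ a b`; `a ≤ u ≤ u₂ ≤ b`, `a ≥ 16`.  With `K = 2` in
`AG.cmp`, `C₁ = 16 C ^ 4`:
(1) `f a (min h b - 1) ≤ C₁ f a u`: if `min h b ≤ a` then `u = a`, `f a u = 1`; otherwise `u = min h b ≥ 17`, `u ≤ 2 (u - 1)`.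
(2) `f (2 max a h) (min h₂ b - 1) ≤ C₁ f u u₂`: if `h > b` then `u = u₂ = b` and the right side is `C₁ ≥ 1`; if `h ≤ b` then
`u = max a h`; if `min h₂ b ≤ a` then `u = u₂ = a`; otherwise `u₂ = min h₂ b ≤ 2 (min h₂ b - 1)`.
(3) `f (2 max a h₂) b ≤ C₁ f u₂ b`: if `h₂ > b` then `u₂ = b`; otherwise `u₂ = max a h₂`.
(4) `f a u * f u u₂ * f u₂ b ≤ C² f a b` (`qm` twice).
(5) `f u u₂ ≥ C⁻¹ (u/u₂)^(2γ)`, `f u₂ b ≥ C⁻¹ (u₂/b)^(2γ)` (positive), so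
`f a u (f u u₂)^(3/4) (f u₂ b)^(1/2) = (f a u f u u₂ f u₂ b) (f u u₂)^(-1/4) (f u₂ b)^(-1/2) ≤
C³ f a b (u₂/u)^(γ/2) (b/u₂)^γ = C³ f a b (b/u)^(γ/2) (b/u₂)^(γ/2)`, and `{u, u₂} = {cl p a b, cl q a b}`. -/
theorem AG.three {f : ℤ → ℤ → ℝ} {C γ : ℝ} {R₀ : ℤ} (h : AG f C γ R₀) : ∃ C' : ℝ, 0 < C' ∧
    ∀ a b p q : ℤ, R₀ ≤ a → a ≤ b →
      f a (min (min p q) b - 1) * f (2 * max a (min p q)) (min (max p q) b - 1) ^ (3 / 4 : ℝ) *
        f (2 * max a (max p q)) b ^ (1 / 2 : ℝ) ≤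
      C' * (f a b * ((b : ℝ) / cl p a b) ^ (γ / 2) * ((b : ℝ) / cl q a b) ^ (γ / 2)) := by
  have hC := h.C1
  refine ⟨(C ^ 4 * 2 ^ 4) ^ 3 * C ^ 4, by positivity, ?_⟩
  intro a b p q ha hab
  rcases le_total p q with hpq | hpq
  · rw [min_eq_left hpq, max_eq_right hpq]
    exact AG.three_ord h hpq ha hab
  · rw [min_eq_right hpq, max_eq_left hpq]
    refine (AG.three_ord h hpq ha hab).trans (le_of_eq ?_)
    ring

/-- Two-time version: square of `AG.three`. -/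
theorem AG.three_sq {f : ℤ → ℤ → ℝ} {C γ : ℝ} {R₀ : ℤ} (h : AG f C γ R₀) : ∃ C' : ℝ, 0 < C' ∧
    ∀ (a b N N' : ℤ) (x : ℤ × ℤ), R₀ ≤ a → a ≤ b →
      f a (min (hm N N' x) b - 1) ^ 2 *
        f (2 * max a (hm N N' x)) (min (hM N N' x) b - 1) ^ (3 / 2 : ℝ) *
        f (2 * max a (hM N N' x)) b ≤
      C' * gg f γ N N' a b x := by
  obtain ⟨C', hC', H⟩ := h.three
  refine ⟨C' ^ 2, by positivity, ?_⟩
  intro a b N N' x ha hab
  have h1 := H a b (N - |x.1|) (N' - |x.2|) ha hab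
  have h16 := h.R16
  unfold hm hM gg
  generalize hp : N - |x.1| = p at h1 ⊢
  generalize hq : N' - |x.2| = q at h1 ⊢
  have n1 : 0 ≤ f a (min (min p q) b - 1) := h.nn _ _
  have n2 : 0 ≤ f (2 * max a (min p q)) (min (max p q) b - 1) := h.nn _ _
  have n3 : 0 ≤ f (2 * max a (max p q)) b := h.nn _ _
  have hb0 : (0 : ℝ) ≤ (b : ℝ) := by exact_mod_cast (by omega : (0 : ℤ) ≤ b)
  have hp0 : (0 : ℝ) ≤ (cl p a b : ℝ) := by
    exact_mod_cast (by unfold cl; omega : (0 : ℤ) ≤ cl p a b)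
  have hq0 : (0 : ℝ) ≤ (cl q a b : ℝ) := by
    exact_mod_cast (by unfold cl; omega : (0 : ℤ) ≤ cl q a b)
  have sq : ∀ t s : ℝ, 0 ≤ t → (t ^ s) ^ 2 = t ^ (s * 2) := by
    intro t s ht
    rw [Real.rpow_mul ht, ← Real.rpow_natCast]
    norm_num
  have h2 : 0 ≤ f a (min (min p q) b - 1) *
      f (2 * max a (min p q)) (min (max p q) b - 1) ^ (3 / 4 : ℝ) *
      f (2 * max a (max p q)) b ^ (1 / 2 : ℝ) := by positivity
  have h3 := pow_le_pow_left₀ h2 h1 2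
  rw [mul_pow, mul_pow, mul_pow, mul_pow, mul_pow, sq _ _ n2, sq _ _ n3,
    sq _ _ (div_nonneg hb0 hp0), sq _ _ (div_nonneg hb0 hq0)] at h3
  have e1 : (3 / 4 : ℝ) * 2 = 3 / 2 := by norm_num
  have e2 : (1 / 2 : ℝ) * 2 = 1 := by norm_num
  have e3 : γ / 2 * 2 = γ := by ring
  rw [e1, e2, e3, Real.rpow_one] at h3
  exact h3

end FI

end SC

end

/-! ### from `Lib_MP_e0a489.TPA1` -/

section

/-!
# MP_e0a489, module TP, assembly 1: a function of real radii comparable with `f`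
-/

set_option autoImplicit false

namespace SC

/-- The function `a` of two real radii is comparable with `f`, with the radii below `R₀` replaced by `R₀`. -/
structure CmpR (a : ℝ → ℝ → ℝ) (f : ℤ → ℤ → ℝ) (K : ℝ) (R₀ : ℤ) : Prop where
  K1 : 1 ≤ K
  lo : ∀ r R : ℝ, 1 ≤ r → r ≤ R → f (max ⌊r⌋ R₀) (max ⌊R⌋ R₀) ≤ K * a r R
  up : ∀ R : ℝ, 1 ≤ R → a 1 R ≤ K * f R₀ (max ⌊R⌋ R₀)

namespace TPA

/-- The level can be changed (`AG.cmp`). -/
theorem CmpR_level {a : ℝ → ℝ → ℝ} {f : ℤ → ℤ → ℝ} {C γ K : ℝ} {R₃ R₂ : ℤ}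
    (hA : FI.AG f C γ R₃) (h : CmpR a f K R₂) (h2 : R₃ ≤ R₂) {R₀ : ℤ} (h0 : R₃ ≤ R₀) :
    ∃ K' : ℝ, CmpR a f K' R₀ := by
  have h16 := hA.R16
  have hC := hA.C1
  obtain ⟨M, hM⟩ : ∃ M : ℤ, M = max R₂ R₀ := ⟨_, rfl⟩
  have hM1 : (1 : ℝ) ≤ (M : ℝ) := by exact_mod_cast (show 1 ≤ M by omega)
  have hcomp : ∀ x y z : ℤ, R₃ ≤ x → R₃ ≤ y → x ≤ M → y ≤ M →
      ((max z x : ℤ) : ℝ) ≤ (M : ℝ) * ((max z y : ℤ) : ℝ) := by
    intro x y z hx hy hxM hyM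
    have e : max z x ≤ M * max z y := by
      have h1 : 1 ≤ max z y := by omega
      have h2 : 1 ≤ M := by omega
      rcases le_total z x with hz | hz
      · rw [max_eq_right hz]
        nlinarith
      · rw [max_eq_left hz]
        have h3 : z ≤ max z y := le_max_left _ _
        nlinarith
    exact_mod_cast e
  have key : ∀ x y : ℤ, R₃ ≤ x → R₃ ≤ y → x ≤ M → y ≤ M → ∀ z w : ℤ,
      f (max z x) (max w x) ≤ C ^ 4 * (M : ℝ) ^ 4 * f (max z y) (max w y) := by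
    intro x y hx hy hxM hyM z w
    exact hA.cmp hM1 (by omega) (by omega) (hcomp x y z hx hy hxM hyM)
      (hcomp y x w hy hx hyM hxM)
  have hCM : (1 : ℝ) ≤ C ^ 4 * (M : ℝ) ^ 4 :=
    one_le_mul_of_one_le_of_one_le (one_le_pow₀ hC) (one_le_pow₀ hM1)
  refine ⟨C ^ 4 * (M : ℝ) ^ 4 * K, ?_, ?_, ?_⟩
  · exact one_le_mul_of_one_le_of_one_le hCM h.K1
  · intro r R h1 h3
    calc f (max ⌊r⌋ R₀) (max ⌊R⌋ R₀) ≤ C ^ 4 * (M : ℝ) ^ 4 * f (max ⌊r⌋ R₂) (max ⌊R⌋ R₂) :=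
          key R₀ R₂ h0 h2 (by omega) (by omega) _ _
      _ ≤ C ^ 4 * (M : ℝ) ^ 4 * (K * a r R) :=
          mul_le_mul_of_nonneg_left (h.lo r R h1 h3) (by linarith)
      _ = C ^ 4 * (M : ℝ) ^ 4 * K * a r R := by ring
  · intro R h1
    have hK : 0 ≤ K := by linarith [h.K1]
    have hk := key R₂ R₀ h2 h0 (by omega) (by omega) 0 ⌊R⌋
    rw [max_eq_right (show (0 : ℤ) ≤ R₂ by omega), max_eq_right (show (0 : ℤ) ≤ R₀ by omega)]
      at hk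
    calc a 1 R ≤ K * f R₂ (max ⌊R⌋ R₂) := h.up R h1
      _ ≤ K * (C ^ 4 * (M : ℝ) ^ 4 * f R₀ (max ⌊R⌋ R₀)) := mul_le_mul_of_nonneg_left hk hK
      _ = C ^ 4 * (M : ℝ) ^ 4 * K * f R₀ (max ⌊R⌋ R₀) := by ring

/-- `r ≤ 2 max ⌊r⌋ R₀` -/
theorem le_two_mul {r : ℝ} {R₀ : ℤ} (h16 : 16 ≤ R₀) :
    r ≤ 2 * ((max ⌊r⌋ R₀ : ℤ) : ℝ) := by
  have h1 : r < ⌊r⌋ + 1 := Int.lt_floor_add_one r
  have h2 : ((⌊r⌋ : ℤ) : ℝ) ≤ ((max ⌊r⌋ R₀ : ℤ) : ℝ) := by exact_mod_cast le_max_left _ _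
  have h3 : (1 : ℝ) ≤ ((max ⌊r⌋ R₀ : ℤ) : ℝ) := by
    exact_mod_cast (show 1 ≤ max ⌊r⌋ R₀ by omega)
  linarith

/-- ratio of the truncated radii -/
theorem ratio_le {r R : ℝ} {R₀ : ℤ} (h16 : 16 ≤ R₀) (h1 : 1 ≤ r) (h2 : r ≤ R) :
    ((max ⌊R⌋ R₀ : ℤ) : ℝ) / ((max ⌊r⌋ R₀ : ℤ) : ℝ) ≤ 2 * (R / r) := by
  have h0 : 0 < r := by linarith
  have h3 := le_two_mul (r := r) h16
  have h4 : (0 : ℝ) < ((max ⌊r⌋ R₀ : ℤ) : ℝ) := by
    exact_mod_cast (show 0 < max ⌊r⌋ R₀ by omega)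
  rw [div_le_iff₀ h4]
  have h5 : (R₀ : ℝ) ≤ ((max ⌊r⌋ R₀ : ℤ) : ℝ) := by exact_mod_cast le_max_right _ _
  have h6 : 1 ≤ R / r := by rw [le_div_iff₀ h0]; linarith
  rcases le_total ⌊R⌋ R₀ with hc | hc
  · rw [max_eq_right hc]
    nlinarith
  · rw [max_eq_left hc]
    have h7 : ((⌊R⌋ : ℤ) : ℝ) ≤ R := Int.floor_le R
    calc ((⌊R⌋ : ℤ) : ℝ) ≤ R := h7
      _ = R / r * r := by field_simp
      _ ≤ R / r * (2 * ((max ⌊r⌋ R₀ : ℤ) : ℝ)) := mul_le_mul_of_nonneg_left h3 (by linarith)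
      _ = 2 * (R / r) * ((max ⌊r⌋ R₀ : ℤ) : ℝ) := by ring

/-- upper comparison for `Φ` -/
theorem CmpR_phi {a : ℝ → ℝ → ℝ} {f : ℤ → ℤ → ℝ} {C γ K : ℝ} {R₀ : ℤ}
    (hA : FI.AG f C γ R₀) (h : CmpR a f K R₀) {r R : ℝ} (h1 : 1 ≤ r) (h2 : r ≤ R) :
    ((max ⌊R⌋ R₀ : ℤ) : ℝ) / ((max ⌊r⌋ R₀ : ℤ) : ℝ) * f (max ⌊r⌋ R₀) (max ⌊R⌋ R₀) ≤
      2 * K * (R / r * a r R) := by
  have h0 : 0 < r := by linarith
  have e1 := ratio_le (R₀ := R₀) hA.R16 h1 h2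
  have e2 := h.lo r R h1 h2
  have e3 := hA.nn (max ⌊r⌋ R₀) (max ⌊R⌋ R₀)
  have e4 : 0 ≤ R / r := by
    apply div_nonneg _ h0.le
    linarith
  calc _ ≤ (2 * (R / r)) * (K * a r R) := mul_le_mul e1 e2 e3 (by linarith)
    _ = 2 * K * (R / r * a r R) := by ring

theorem CmpR_nn {a : ℝ → ℝ → ℝ} {f : ℤ → ℤ → ℝ} {C γ K : ℝ} {R₀ : ℤ}
    (hA : FI.AG f C γ R₀) (h : CmpR a f K R₀) {r R : ℝ} (h1 : 1 ≤ r) (h2 : r ≤ R) :
    0 ≤ a r R := by
  have e1 := (hA.nn (max ⌊r⌋ R₀) (max ⌊R⌋ R₀)).trans (h.lo r R h1 h2)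
  have hK := h.K1
  by_contra hneg
  push Not at hneg
  have := mul_neg_of_pos_of_neg (show 0 < K by linarith) hneg
  linarith

/-- `Φ(r, R) ≥ c > 0` if `R ≤ M r` -/
theorem CmpR_low {a : ℝ → ℝ → ℝ} {f : ℤ → ℤ → ℝ} {C γ K : ℝ} {R₀ : ℤ}
    (hA : FI.AG f C γ R₀) (h : CmpR a f K R₀) {M : ℝ} (hM : 1 ≤ M) :
    ∃ c : ℝ, 0 < c ∧ ∀ r R : ℝ, 1 ≤ r → r ≤ R → R ≤ M * r → c ≤ (R / r * a r R) ^ 2 := by
  obtain ⟨c', hc', H⟩ := hA.phi_low (K := 2 * M) (by linarith)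
  have hK := h.K1
  refine ⟨c' / (2 * K) ^ 2, by positivity, ?_⟩
  intro r R h1 h2 h3
  have h16 := hA.R16
  have e1 := CmpR_phi hA h h1 h2
  have e2 := H (max ⌊r⌋ R₀) (max ⌊R⌋ R₀) (by omega)
    (by have := Int.floor_le_floor h2; omega) ?_
  · have e3 := CmpR_nn hA h h1 h2
    have e4 : 0 ≤ R / r := div_nonneg (by linarith) (by linarith)
    rw [div_le_iff₀ (by positivity)]
    have e5 : (0 : ℝ) ≤ ((max ⌊R⌋ R₀ : ℤ) : ℝ) / ((max ⌊r⌋ R₀ : ℤ) : ℝ) *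
        f (max ⌊r⌋ R₀) (max ⌊R⌋ R₀) := by
      have a1 : (0 : ℝ) ≤ ((max ⌊R⌋ R₀ : ℤ) : ℝ) := by
        exact_mod_cast (show 0 ≤ max ⌊R⌋ R₀ by omega)
      have a2 : (0 : ℝ) ≤ ((max ⌊r⌋ R₀ : ℤ) : ℝ) := by
        exact_mod_cast (show 0 ≤ max ⌊r⌋ R₀ by omega)
      exact mul_nonneg (div_nonneg a1 a2) (hA.nn _ _)
    calc c' ≤ _ := e2
      _ ≤ (2 * K * (R / r * a r R)) ^ 2 := pow_le_pow_left₀ e5 e1 2
      _ = (R / r * a r R) ^ 2 * (2 * K) ^ 2 := by ring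
  · have e6 := le_two_mul (r := r) h16
    have e7 : (R₀ : ℝ) ≤ ((max ⌊r⌋ R₀ : ℤ) : ℝ) := by exact_mod_cast le_max_right _ _
    have e8 : (0 : ℝ) < R₀ := by exact_mod_cast (show 0 < R₀ by omega)
    rcases le_total ⌊R⌋ R₀ with hc | hc
    · rw [max_eq_right hc]
      nlinarith
    · rw [max_eq_left hc]
      have h7 : ((⌊R⌋ : ℤ) : ℝ) ≤ R := Int.floor_le R
      nlinarith

end TPA

end SC

end
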