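import Mathlib

/-!
# MP_e0a489_pr: merged library part G03

Concatenation of library files (each in its own section), only to save build time.
-/

/-! ### from `Lib_MP_e0a489.XP8` -/

section

/-!
# MP_e0a489, exponents 8: power sums (pure analysis)
-/

set_option autoImplicit false

namespace SC

namespace XP

/-- One step: for `0 ≤ c ≤ 1/2` and `n ≥ 0`, `(1 / (1 + n)) ^ c ≤ 2 ((n + 1) ^ (1 - c) - n ^ (1 - c))`.  With `x = n + 1`:
`n ^ (1 - c) = x ^ (1 - c) (1 - 1/x) ^ (1 - c) ≤ x ^ (1 - c) (1 - (1 - c) / x)` (`Real.rpow_one_add_le_one_add_mul_self`), so the difference is at least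
`(1 - c) x ^ (- c) ≥ x ^ (- c) / 2`. -/
theorem pow_step {c : ℝ} (h0 : 0 ≤ c) (h1 : c ≤ 1 / 2) (n : ℕ) :
    (1 / (1 + (n : ℝ))) ^ c ≤ 2 * (((n : ℝ) + 1) ^ (1 - c) - (n : ℝ) ^ (1 - c)) := by
  have hn : (0 : ℝ) ≤ n := Nat.cast_nonneg n
  set x : ℝ := (n : ℝ) + 1 with hx
  have hx1 : (1 : ℝ) ≤ x := by rw [hx]; linarith
  have hx0 : (0 : ℝ) < x := by linarith
  have hxc : (1 : ℝ) + n = x := by rw [hx]; ring
  have e1 : (n : ℝ) = x * (1 + -(1 / x)) := by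
    have hne : x ≠ 0 := hx0.ne'
    field_simp
    rw [hx]; ring
  have hle : (1 : ℝ) / x ≤ 1 := by rw [div_le_one hx0]; exact hx1
  have hb : (1 + -(1 / x)) ^ (1 - c) ≤ 1 + (1 - c) * -(1 / x) :=
    rpow_one_add_le_one_add_mul_self (by linarith) (by linarith) (by linarith)
  have hxp : (0 : ℝ) < x ^ (1 - c) := Real.rpow_pos_of_pos hx0 _
  have e2 : (n : ℝ) ^ (1 - c) ≤ x ^ (1 - c) * (1 + (1 - c) * -(1 / x)) := by
    conv_lhs => rw [e1]
    rw [Real.mul_rpow hx0.le (by linarith)]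
    exact mul_le_mul_of_nonneg_left hb hxp.le
  have e3 : x ^ (1 - c) * (1 / x) = x ^ (-c) := by
    rw [show (1 : ℝ) - c = 1 + -c by ring, Real.rpow_add hx0, Real.rpow_one]
    field_simp
  have e4 : ((1 : ℝ) / (1 + (n : ℝ))) ^ c = x ^ (-c) := by
    rw [hxc, one_div, Real.inv_rpow hx0.le, Real.rpow_neg hx0.le]
  have hp : (0 : ℝ) < x ^ (-c) := Real.rpow_pos_of_pos hx0 _
  rw [e4]
  have e5 : x ^ (1 - c) * (1 + (1 - c) * -(1 / x)) = x ^ (1 - c) - (1 - c) * x ^ (-c) := by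
    rw [← e3]; ring
  rw [e5] at e2
  nlinarith

/-- telescoping sum of `pow_step` -/
theorem pow_sum {c : ℝ} (h0 : 0 ≤ c) (h1 : c ≤ 1 / 2) (n : ℕ) :
    ∑ k ∈ Finset.range n, (1 / (1 + (k : ℝ))) ^ c ≤ 2 * (n : ℝ) ^ (1 - c) := by
  induction n with
  | zero =>
    simp only [Finset.range_zero, Finset.sum_empty]
    positivity
  | succ n ih =>
    rw [Finset.sum_range_succ]
    have h := pow_step h0 h1 n
    push_cast
    linarith

/-- a sum over fibres with at most two elements -/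
private theorem fib {s : Finset ℤ} {h : ℤ → ℕ} {g : ℕ → ℝ} (hg : ∀ j, 0 ≤ g j) {N : ℕ}
    (hN : ∀ k ∈ s, h k < N) (hf : ∀ j, (s.filter (fun k => h k = j)).card ≤ 2) :
    ∑ k ∈ s, g (h k) ≤ 2 * ∑ j ∈ Finset.range N, g j := by
  rw [← Finset.sum_fiberwise_of_maps_to (s := s) (t := Finset.range N) (g := h)
    (fun k hk => Finset.mem_range.2 (hN k hk)), Finset.mul_sum]
  refine Finset.sum_le_sum fun j _ => ?_
  have e : ∑ k ∈ s.filter (fun k => h k = j), g (h k) =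
      ∑ k ∈ s.filter (fun k => h k = j), g j :=
    Finset.sum_congr rfl fun k hk => by rw [(Finset.mem_filter.1 hk).2]
  rw [e, Finset.sum_const, nsmul_eq_mul]
  have h2 : (((s.filter (fun k => h k = j)).card : ℕ) : ℝ) ≤ 2 := by exact_mod_cast hf j
  exact mul_le_mul_of_nonneg_right h2 (hg j)

private theorem gpos (c : ℝ) (j : ℕ) : 0 ≤ (1 / (1 + (j : ℝ))) ^ c := by positivity

/-- Split at `k = u`: for `k ≥ u` the numbers `k - u` are distinct in `[0, 2M]`, for `k < u` the numbers `u - k` are distinct in `[0, 2M]`; each part is at most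
`∑ j < 2M+1, (1/(1+j)) ^ c ≤ 2 (2M+1) ^ (1-c)`. -/
theorem sum_col {c : ℝ} (h0 : 0 ≤ c) (h1 : c ≤ 1 / 2) {M u : ℤ} (hu : |u| ≤ M) :
    ∑ k ∈ Finset.Icc (-M) M, (1 / (1 + ((|k - u| : ℤ) : ℝ))) ^ c ≤
      4 * (2 * (M : ℝ) + 1) ^ (1 - c) := by
  have hM : 0 ≤ M := le_trans (abs_nonneg u) hu
  have hu' := abs_le.1 hu
  have e : ∑ k ∈ Finset.Icc (-M) M, (1 / (1 + ((|k - u| : ℤ) : ℝ))) ^ c =
      ∑ k ∈ Finset.Icc (-M) M, (fun j : ℕ => (1 / (1 + (j : ℝ))) ^ c) ((k - u).natAbs) := by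
    refine Finset.sum_congr rfl fun k _ => ?_
    have hk : ((|k - u| : ℤ) : ℝ) = (((k - u).natAbs : ℕ) : ℝ) := by
      rw [← Int.natCast_natAbs, Int.cast_natCast]
    simp only [hk]
  have h1' := fib (s := Finset.Icc (-M) M) (h := fun k => (k - u).natAbs)
    (g := fun j : ℕ => (1 / (1 + (j : ℝ))) ^ c) (gpos c) (N := (2 * M + 1).toNat)
    (fun k hk => by
      rw [Finset.mem_Icc] at hk
      show (k - u).natAbs < (2 * M + 1).toNat
      omega)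
    (fun j => by
      have hs : (Finset.Icc (-M) M).filter (fun k => (k - u).natAbs = j) ⊆
          ({u + j, u - j} : Finset ℤ) := by
        intro k hk
        have hk2 : (k - u).natAbs = j := (Finset.mem_filter.1 hk).2
        simp only [Finset.mem_insert, Finset.mem_singleton]
        omega
      exact (Finset.card_le_card hs).trans Finset.card_le_two)
  have h2 := pow_sum h0 h1 (2 * M + 1).toNat
  have h3 : (((2 * M + 1).toNat : ℕ) : ℝ) = 2 * (M : ℝ) + 1 := by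
    have h4 : (((2 * M + 1).toNat : ℕ) : ℤ) = 2 * M + 1 := Int.toNat_of_nonneg (by omega)
    have h5 : ((((2 * M + 1).toNat : ℕ) : ℤ) : ℝ) = ((2 * M + 1 : ℤ) : ℝ) := by rw [h4]
    push_cast at h5
    exact h5
  rw [h3] at h2
  rw [e]
  calc _ ≤ 2 * ∑ j ∈ Finset.range (2 * M + 1).toNat, (1 / (1 + (j : ℝ))) ^ c := h1'
    _ ≤ 2 * (2 * (2 * (M : ℝ) + 1) ^ (1 - c)) := by linarith
    _ = _ := by ring

/-- the same with `u - k` for `k - u` -/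
theorem sum_col' {c : ℝ} (h0 : 0 ≤ c) (h1 : c ≤ 1 / 2) {M u : ℤ} (hu : |u| ≤ M) :
    ∑ k ∈ Finset.Icc (-M) M, (1 / (1 + ((|u - k| : ℤ) : ℝ))) ^ c ≤
      4 * (2 * (M : ℝ) + 1) ^ (1 - c) := by
  have h := sum_col h0 h1 hu
  refine le_trans (le_of_eq ?_) h
  refine Finset.sum_congr rfl fun k _ => ?_
  rw [abs_sub_comm]

/-- Each value `M - |k| = j ∈ [0, M]` occurs at most twice: at most `2 ∑ j < M+1, (1/(1+j)) ^ (1/2) ≤ 4 (M+1) ^ (1/2)`. -/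
theorem sum_half {M : ℤ} (hM : 0 ≤ M) :
    ∑ k ∈ Finset.Icc (-M) M, (1 / (1 + ((M - |k| : ℤ) : ℝ))) ^ ((1 : ℝ) / 2) ≤
      4 * ((M : ℝ) + 1) ^ ((1 : ℝ) / 2) := by
  have e : ∑ k ∈ Finset.Icc (-M) M, (1 / (1 + ((M - |k| : ℤ) : ℝ))) ^ ((1 : ℝ) / 2) =
      ∑ k ∈ Finset.Icc (-M) M,
        (fun j : ℕ => (1 / (1 + (j : ℝ))) ^ ((1 : ℝ) / 2)) ((M - |k|).toNat) := by
    refine Finset.sum_congr rfl fun k hk => ?_
    rw [Finset.mem_Icc] at hk
    have hk0 : 0 ≤ M - |k| := by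
      have := abs_le.2 hk
      omega
    have h4 : (((M - |k|).toNat : ℕ) : ℤ) = M - |k| := Int.toNat_of_nonneg hk0
    have h5 : ((M - |k| : ℤ) : ℝ) = (((M - |k|).toNat : ℕ) : ℝ) := by
      rw [← Int.cast_natCast (R := ℝ), h4]
    simp only [h5]
  have h1' := fib (s := Finset.Icc (-M) M) (h := fun k => (M - |k|).toNat)
    (g := fun j : ℕ => (1 / (1 + (j : ℝ))) ^ ((1 : ℝ) / 2)) (gpos _) (N := (M + 1).toNat)
    (fun k hk => by
      rw [Finset.mem_Icc] at hk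
      show (M - |k|).toNat < (M + 1).toNat
      have := abs_nonneg k
      omega)
    (fun j => by
      have hs : (Finset.Icc (-M) M).filter (fun k => (M - |k|).toNat = j) ⊆
          ({M - j, -(M - j)} : Finset ℤ) := by
        intro k hk
        have hk1 := (Finset.mem_filter.1 hk).1
        rw [Finset.mem_Icc] at hk1
        have hk2 : (M - |k|).toNat = j := (Finset.mem_filter.1 hk).2
        have hk3 := abs_le.2 hk1
        simp only [Finset.mem_insert, Finset.mem_singleton]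
        rcases abs_cases k with h | h <;> omega
      exact (Finset.card_le_card hs).trans Finset.card_le_two)
  have h2 := pow_sum (c := (1 : ℝ) / 2) (by norm_num) le_rfl (M + 1).toNat
  have h3 : (((M + 1).toNat : ℕ) : ℝ) = (M : ℝ) + 1 := by
    have h4 : (((M + 1).toNat : ℕ) : ℤ) = M + 1 := Int.toNat_of_nonneg (by omega)
    have h5 : ((((M + 1).toNat : ℕ) : ℤ) : ℝ) = ((M + 1 : ℤ) : ℝ) := by rw [h4]
    push_cast at h5
    exact h5
  rw [h3, show (1 : ℝ) - 1 / 2 = 1 / 2 by norm_num] at h2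
  rw [e]
  calc _ ≤ 2 * ∑ j ∈ Finset.range (M + 1).toNat, (1 / (1 + (j : ℝ))) ^ ((1 : ℝ) / 2) := h1'
    _ ≤ 2 * (2 * ((M : ℝ) + 1) ^ ((1 : ℝ) / 2)) := by linarith
    _ = _ := by ring

/-- The double sum: it factorises. -/
theorem sum_bd {M : ℤ} (hM : 0 ≤ M) :
    ∑ z ∈ (Finset.Icc (-M) M ×ˢ Finset.Icc (-M) M : Finset (ℤ × ℤ)),
      ((M : ℝ) + 1) * ((1 / (1 + ((M - |z.1| : ℤ) : ℝ))) ^ ((1 : ℝ) / 2) *
        (1 / (1 + ((M - |z.2| : ℤ) : ℝ))) ^ ((1 : ℝ) / 2)) ≤ 16 * ((M : ℝ) + 1) ^ 2 := by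
  set a : ℤ → ℝ := fun k => (1 / (1 + ((M - |k| : ℤ) : ℝ))) ^ ((1 : ℝ) / 2) with ha
  have hM' : (0 : ℝ) ≤ M := by exact_mod_cast hM
  have hs : ∑ k ∈ Finset.Icc (-M) M, a k ≤ 4 * ((M : ℝ) + 1) ^ ((1 : ℝ) / 2) := sum_half hM
  have hs0 : 0 ≤ ∑ k ∈ Finset.Icc (-M) M, a k := by
    refine Finset.sum_nonneg fun k hk => ?_
    rw [Finset.mem_Icc] at hk
    have hk0 : 0 ≤ M - |k| := by
      have := abs_le.2 hk
      omega
    have hk1 : (0 : ℝ) ≤ ((M - |k| : ℤ) : ℝ) := by exact_mod_cast hk0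
    simp only [ha]
    positivity
  have e : ∑ z ∈ (Finset.Icc (-M) M ×ˢ Finset.Icc (-M) M : Finset (ℤ × ℤ)),
      ((M : ℝ) + 1) * (a z.1 * a z.2) =
      ((M : ℝ) + 1) * ((∑ k ∈ Finset.Icc (-M) M, a k) * (∑ k ∈ Finset.Icc (-M) M, a k)) := by
    rw [← Finset.mul_sum, Finset.sum_product, Finset.sum_mul_sum]
  have hsq : (((M : ℝ) + 1) ^ ((1 : ℝ) / 2)) * (((M : ℝ) + 1) ^ ((1 : ℝ) / 2)) = (M : ℝ) + 1 := by
    rw [← Real.rpow_add (by linarith)]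
    norm_num
  calc _ = ((M : ℝ) + 1) * ((∑ k ∈ Finset.Icc (-M) M, a k) * (∑ k ∈ Finset.Icc (-M) M, a k)) := e
    _ ≤ ((M : ℝ) + 1) * ((4 * ((M : ℝ) + 1) ^ ((1 : ℝ) / 2)) * (4 * ((M : ℝ) + 1) ^ ((1 : ℝ) / 2))) := by
        refine mul_le_mul_of_nonneg_left ?_ (by linarith)
        exact mul_le_mul hs hs hs0 (le_trans hs0 hs)
    _ = ((M : ℝ) + 1) * (16 * ((((M : ℝ) + 1) ^ ((1 : ℝ) / 2)) * (((M : ℝ) + 1) ^ ((1 : ℝ) / 2)))) := by
        ring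
    _ = 16 * ((M : ℝ) + 1) ^ 2 := by rw [hsq]; ring

/-- The sum over the blocks for the exploration from one column. -/
theorem sum_blk {c : ℝ} (h0 : 0 ≤ c) (h1 : c ≤ 1 / 2) {M : ℤ} (hM : 0 ≤ M) :
    ∑ z ∈ (Finset.Icc (-M) M ×ˢ Finset.Icc (-M) M : Finset (ℤ × ℤ)),
      (1 / (1 + ((|z.1 - 0| : ℤ) : ℝ))) ^ c ≤ 4 * (2 * (M : ℝ) + 1) ^ (2 - c) := by
  have hM' : (0 : ℝ) ≤ M := by exact_mod_cast hM
  have h := sum_col h0 h1 (M := M) (u := 0) (by simpa using hM)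
  have e : ∑ z ∈ (Finset.Icc (-M) M ×ˢ Finset.Icc (-M) M : Finset (ℤ × ℤ)),
      (1 / (1 + ((|z.1 - 0| : ℤ) : ℝ))) ^ c =
      (2 * (M : ℝ) + 1) * ∑ k ∈ Finset.Icc (-M) M, (1 / (1 + ((|k - 0| : ℤ) : ℝ))) ^ c := by
    rw [Finset.sum_product, Finset.mul_sum]
    refine Finset.sum_congr rfl fun k _ => ?_
    show ∑ y ∈ Finset.Icc (-M) M, (1 / (1 + ((|k - 0| : ℤ) : ℝ))) ^ c = _
    rw [Finset.sum_const, nsmul_eq_mul, Int.card_Icc]
    congr 1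
    have h4 : (((M + 1 - -M).toNat : ℕ) : ℤ) = M + 1 - -M := Int.toNat_of_nonneg (by omega)
    have h5 : ((((M + 1 - -M).toNat : ℕ) : ℤ) : ℝ) = ((M + 1 - -M : ℤ) : ℝ) := by rw [h4]
    rw [Int.cast_natCast] at h5
    rw [h5]
    push_cast
    ring
  have hp : (2 * (M : ℝ) + 1) ^ (2 - c) = (2 * (M : ℝ) + 1) * (2 * (M : ℝ) + 1) ^ (1 - c) := by
    rw [show (2 : ℝ) - c = 1 + (1 - c) by ring, Real.rpow_add (by linarith), Real.rpow_one]
  rw [e, hp]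
  calc (2 * (M : ℝ) + 1) * ∑ k ∈ Finset.Icc (-M) M, (1 / (1 + ((|k - 0| : ℤ) : ℝ))) ^ c
      ≤ (2 * (M : ℝ) + 1) * (4 * (2 * (M : ℝ) + 1) ^ (1 - c)) :=
        mul_le_mul_of_nonneg_left h (by linarith)
    _ = _ := by ring

end XP

end SC

end
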