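import Mathlib

/-!
# MP_e0a489_pr: merged library part G04

Concatenation of library files (each in its own section), only to save build time.
-/

/-! ### from `Lib_MP_e0a489.TTA1` -/

section

/-!
# MP_e0a489, module TTA 1: the bootstrap (real numbers only)
-/

set_option autoImplicit false

namespace SC

/-- BOOTSTRAP.  Put `S = ∑_i 2 ^ (-i c) < ∞` (`= 1 / (1 - 2 ^ (-c))`), `M = max (2 C₀) (C₃) + 1` (so `2 C₀ ≤ M`, `C₃ ≤ M`,
`1 ≤ M`), `Λ ≥ Λ₁`, `Λ ≥ 1` with `C₁ C₂ M S Λ ^ (-c) ≤ 1 / 2` (possible since `Λ ^ (-c) → 0`).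
Claim: `F r R ≤ M G r R` for all `r`, `R` with `Λ ℓ ≤ r` (this includes the degenerate pairs `R ≤ r`); strong
induction on `(R - r).toNat`.  If `R ≤ 64 r`: `F ≤ 1 ≤ C₃ G`.  Otherwise use the hypothesis for `(r, R)`:
for `i < n`, `F r (2^i r) ≤ M G r (2^i r)` (as `2^i r ≤ R / 4 < R`, so `2^i r - r < R - r`) and
`F (8 (2^i r)) R ≤ M G (8 (2^i r)) R` (as `8 (2^i r) > r`, so `R - 8 (2^i r) < R - r`; when both numbers `toNat` are compared, note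
`0 < R - r`), so with the product hypothesis (`ρ = 2^i r ≤ R`) every product is at most `M² C₂ G r R`, and
`(ℓ / (2^i r)) ^ c ≤ Λ ^ (-c) 2 ^ (-i c)` because `Λ ℓ ≤ r`.  Hence
`F r R ≤ C₀ G + C₁ M² C₂ G Λ ^ (-c) S ≤ (M / 2) G + (M / 2) G`. -/
theorem boot_real {C₀ C₁ C₂ C₃ c : ℝ} (Λ₁ : ℤ) (h0 : 0 ≤ C₀) (h1 : 0 ≤ C₁) (h2 : 0 ≤ C₂)
    (h3 : 0 ≤ C₃) (hc : 0 < c) : ∃ (M : ℝ) (Λ : ℤ), 0 < M ∧ 1 ≤ Λ ∧
    ∀ (ℓ : ℤ) (F G : ℤ → ℤ → ℝ), 1 ≤ ℓ →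
      (∀ r R, 0 ≤ F r R ∧ F r R ≤ 1) → (∀ r R, ℓ ≤ r → 0 < G r R) →
      (∀ r R, ℓ ≤ r → R ≤ 64 * r → 1 ≤ C₃ * G r R) →
      (∀ r ρ R, ℓ ≤ r → r ≤ ρ → ρ ≤ R → G r ρ * G (8 * ρ) R ≤ C₂ * G r R) →
      (∀ r R, Λ₁ * ℓ ≤ r → ℓ ≤ r → 64 * r < R → ∃ n : ℕ,
        (∀ i : ℕ, i < n → 2 ^ (i + 2) * r ≤ R) ∧
        F r R ≤ C₀ * G r R + C₁ * ∑ i ∈ Finset.range n,
          ((ℓ : ℝ) / ((2 : ℝ) ^ i * r)) ^ c * (F r (2 ^ i * r) * F (8 * (2 ^ i * r)) R)) →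
      ∀ r R, Λ * ℓ ≤ r → F r R ≤ M * G r R := by
  set M : ℝ := max (2 * C₀) C₃ + 1 with hM
  have hM0 : 2 * C₀ ≤ M := by
    have := le_max_left (2 * C₀) C₃
    linarith
  have hM3 : C₃ ≤ M := by
    have := le_max_right (2 * C₀) C₃
    linarith
  have hMpos : 0 < M := by
    have := le_max_right (2 * C₀) C₃
    linarith
  set q : ℝ := (2 : ℝ) ^ (-c) with hq
  have hq0 : 0 < q := Real.rpow_pos_of_pos (by norm_num) _
  have hq1 : q < 1 := Real.rpow_lt_one_of_one_lt_of_neg (by norm_num) (by linarith)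
  set S : ℝ := (1 - q)⁻¹ with hS
  have hS0 : 0 < S := inv_pos.mpr (by linarith)
  -- choice of Λ
  have hlim : Filter.Tendsto (fun x : ℝ => C₁ * C₂ * M * S * x ^ (-c)) Filter.atTop (nhds 0) := by
    have h := (tendsto_rpow_neg_atTop hc).const_mul (C₁ * C₂ * M * S)
    simpa using h
  have hev : ∀ᶠ x : ℝ in Filter.atTop, C₁ * C₂ * M * S * x ^ (-c) < 1 / 2 :=
    hlim.eventually_lt_const (by norm_num)
  obtain ⟨x₀, hx₀⟩ := Filter.eventually_atTop.mp hev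
  set Λ : ℤ := max 1 (max Λ₁ ⌈x₀⌉) with hΛ
  have hΛ1 : 1 ≤ Λ := le_max_left _ _
  have hΛ2 : Λ₁ ≤ Λ := le_trans (le_max_left _ _) (le_max_right _ _)
  have hΛ3 : x₀ ≤ (Λ : ℝ) := by
    have h := le_trans (le_max_right Λ₁ ⌈x₀⌉) (le_max_right (1 : ℤ) (max Λ₁ ⌈x₀⌉))
    exact le_trans (Int.le_ceil x₀) (by exact_mod_cast h)
  have hΛR : (1 : ℝ) ≤ (Λ : ℝ) := by exact_mod_cast hΛ1
  have hkey : C₁ * C₂ * M * S * (Λ : ℝ) ^ (-c) ≤ 1 / 2 := (hx₀ _ hΛ3).le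
  refine ⟨M, Λ, hMpos, hΛ1, ?_⟩
  intro ℓ F G hℓ hF hG hG3 hGG hrec
  have main : ∀ N : ℕ, ∀ r R : ℤ, (R - r).toNat ≤ N → Λ * ℓ ≤ r → F r R ≤ M * G r R := by
    intro N
    induction N using Nat.strong_induction_on with
    | _ N ih =>
      intro r R hN hr
      have hℓr : ℓ ≤ r := by nlinarith
      have hrpos : 0 < r := by linarith
      have hGr := hG r R hℓr
      by_cases hR : R ≤ 64 * r
      · have h3' := hG3 r R hℓr hR
        calc F r R ≤ 1 := (hF r R).2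
          _ ≤ C₃ * G r R := h3'
          _ ≤ M * G r R := mul_le_mul_of_nonneg_right hM3 hGr.le
      · have hR' : 64 * r < R := not_le.mp hR
        have hΛ₁r : Λ₁ * ℓ ≤ r := le_trans (mul_le_mul_of_nonneg_right hΛ2 (by linarith)) hr
        obtain ⟨n, hn, hFle⟩ := hrec r R hΛ₁r hℓr hR'
        have hterm : ∀ i ∈ Finset.range n,
            ((ℓ : ℝ) / ((2 : ℝ) ^ i * r)) ^ c * (F r (2 ^ i * r) * F (8 * (2 ^ i * r)) R)
              ≤ ((Λ : ℝ) ^ (-c) * (M * M * C₂ * G r R)) * q ^ i := by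
          intro i hi
          have hi' := hn i (Finset.mem_range.mp hi)
          have h2i : (1 : ℤ) ≤ 2 ^ i := one_le_pow₀ (by norm_num)
          obtain ⟨ρ, hρ⟩ : ∃ ρ : ℤ, ρ = 2 ^ i * r := ⟨_, rfl⟩
          have hrρ : r ≤ ρ := by rw [hρ]; nlinarith
          have h4ρ : 4 * ρ ≤ R := by
            have : (2 : ℤ) ^ (i + 2) * r = 4 * ρ := by rw [hρ]; ring
            linarith
          have hρR : ρ ≤ R := by linarith
          have hA : F r ρ ≤ M * G r ρ := by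
            refine ih (ρ - r).toNat ?_ r ρ le_rfl hr
            omega
          have hB : F (8 * ρ) R ≤ M * G (8 * ρ) R := by
            refine ih (R - 8 * ρ).toNat ?_ (8 * ρ) R le_rfl (by linarith)
            omega
          have hprod : F r ρ * F (8 * ρ) R ≤ M * M * C₂ * G r R := by
            have h1' : F r ρ * F (8 * ρ) R ≤ (M * G r ρ) * (M * G (8 * ρ) R) :=
              mul_le_mul hA hB (hF _ _).1 (le_trans (hF _ _).1 hA)
            have h2' := hGG r ρ R hℓr hrρ hρR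
            have h3' : (M * M) * (G r ρ * G (8 * ρ) R) ≤ (M * M) * (C₂ * G r R) :=
              mul_le_mul_of_nonneg_left h2' (by positivity)
            calc F r ρ * F (8 * ρ) R ≤ (M * G r ρ) * (M * G (8 * ρ) R) := h1'
              _ = (M * M) * (G r ρ * G (8 * ρ) R) := by ring
              _ ≤ (M * M) * (C₂ * G r R) := h3'
              _ = M * M * C₂ * G r R := by ring
          have hrR : (0 : ℝ) < (r : ℝ) := by exact_mod_cast hrpos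
          have hℓR : (0 : ℝ) < (ℓ : ℝ) := by
            have : (1 : ℝ) ≤ (ℓ : ℝ) := by exact_mod_cast hℓ
            linarith
          have hfac : ((ℓ : ℝ) / ((2 : ℝ) ^ i * r)) ^ c ≤ (Λ : ℝ) ^ (-c) * q ^ i := by
            have hle : (ℓ : ℝ) / ((2 : ℝ) ^ i * r) ≤ ((Λ : ℝ) * 2 ^ i)⁻¹ := by
              rw [div_le_iff₀ (by positivity), inv_mul_eq_div, le_div_iff₀ (by positivity)]
              have hrc : (Λ : ℝ) * ℓ ≤ r := by exact_mod_cast hr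
              have h2p : (0 : ℝ) < (2 : ℝ) ^ i := by positivity
              nlinarith [mul_le_mul_of_nonneg_left hrc h2p.le]
            have h0' : (0 : ℝ) ≤ (ℓ : ℝ) / ((2 : ℝ) ^ i * r) := by positivity
            refine le_trans (Real.rpow_le_rpow h0' hle hc.le) (le_of_eq ?_)
            rw [Real.inv_rpow (by positivity), Real.mul_rpow (by linarith) (by positivity),
              mul_inv, Real.rpow_neg (by linarith), hq, Real.rpow_neg (by norm_num), inv_pow,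
              ← Real.rpow_natCast (2 : ℝ) i, ← Real.rpow_mul (by norm_num), mul_comm (i : ℝ) c,
              Real.rpow_mul (by norm_num), Real.rpow_natCast]
          rw [← hρ]
          have hq' : 0 ≤ (Λ : ℝ) ^ (-c) * q ^ i :=
            mul_nonneg (Real.rpow_nonneg (by linarith) _) (pow_nonneg hq0.le _)
          calc ((ℓ : ℝ) / ((2 : ℝ) ^ i * r)) ^ c * (F r ρ * F (8 * ρ) R)
              ≤ ((Λ : ℝ) ^ (-c) * q ^ i) * (M * M * C₂ * G r R) :=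
                mul_le_mul hfac hprod (mul_nonneg (hF _ _).1 (hF _ _).1) hq'
            _ = ((Λ : ℝ) ^ (-c) * (M * M * C₂ * G r R)) * q ^ i := by ring
        have hsum := Finset.sum_le_sum hterm
        rw [← Finset.mul_sum] at hsum
        have hgeo : ∑ i ∈ Finset.range n, q ^ i ≤ S := by
          rw [hS, ← tsum_geometric_of_lt_one hq0.le hq1]
          exact (summable_geometric_of_lt_one hq0.le hq1).sum_le_tsum (Finset.range n)
            (fun i _ => pow_nonneg hq0.le i)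
        have hcoef : 0 ≤ (Λ : ℝ) ^ (-c) * (M * M * C₂ * G r R) := by
          have : 0 ≤ (Λ : ℝ) ^ (-c) := Real.rpow_nonneg (by linarith) _
          positivity
        have h5 : ∑ i ∈ Finset.range n,
            ((ℓ : ℝ) / ((2 : ℝ) ^ i * r)) ^ c * (F r (2 ^ i * r) * F (8 * (2 ^ i * r)) R)
              ≤ ((Λ : ℝ) ^ (-c) * (M * M * C₂ * G r R)) * S :=
          le_trans hsum (mul_le_mul_of_nonneg_left hgeo hcoef)
        have h6 : C₁ * ∑ i ∈ Finset.range n,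
            ((ℓ : ℝ) / ((2 : ℝ) ^ i * r)) ^ c * (F r (2 ^ i * r) * F (8 * (2 ^ i * r)) R)
              ≤ (M / 2) * G r R := by
          refine le_trans (mul_le_mul_of_nonneg_left h5 h1) ?_
          have h7 : (C₁ * C₂ * M * S * (Λ : ℝ) ^ (-c)) * (M * G r R) ≤ (1 / 2) * (M * G r R) :=
            mul_le_mul_of_nonneg_right hkey (by positivity)
          calc C₁ * (((Λ : ℝ) ^ (-c) * (M * M * C₂ * G r R)) * S)
              = (C₁ * C₂ * M * S * (Λ : ℝ) ^ (-c)) * (M * G r R) := by ring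
            _ ≤ (1 / 2) * (M * G r R) := h7
            _ = (M / 2) * G r R := by ring
        have h8 : C₀ * G r R ≤ (M / 2) * G r R :=
          mul_le_mul_of_nonneg_right (by linarith) hGr.le
        linarith
  intro r R hr
  exact main _ r R le_rfl hr

end SC

end

/-! ### from `Lib_MP_e0a489.TTH6` -/

section

/-!
# MP_e0a489, module TTH 6: three inequalities for real numbers

`ε = c / 4`, `ℓ` = correlation length, `D` = radius of the local event, `k` = height.  Right side: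
`T = (ℓ / D) ^ ε (D ^ (-1 - ε) d ^ (ε - 1))`, `d = min (k + 1) D`.
-/

set_option autoImplicit false

namespace SC

private theorem rl6_exp {a : ℝ} (h : 0 < a) : ∃ x, a = Real.exp x :=
  ⟨Real.log a, (Real.exp_log h).symm⟩

private theorem rl6_pow (x c : ℝ) : Real.exp x ^ c = Real.exp (x * c) := (Real.exp_mul x c).symm

private theorem rl6_div (x z c : ℝ) :
    (Real.exp x / Real.exp z) ^ c = Real.exp ((x - z) * c) := by
  rw [← Real.exp_sub, rl6_pow]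

private theorem rl6_two : ∃ L : ℝ, 0 < L ∧ (2 : ℝ) = Real.exp L :=
  ⟨Real.log 2, Real.log_pos (by norm_num), (Real.exp_log (by norm_num)).symm⟩

private theorem rl6_inv (x : ℝ) : 1 / Real.exp x ^ 2 = Real.exp (-2 * x) := by
  rw [← Real.exp_nat_mul, one_div, ← Real.exp_neg]
  congr 1
  push_cast
  ring

/-- CASE `D ≤ 4 k`.  `m ≥ D / 8`.  `ℓ ^ (-2) (ℓ / m) ^ (2 + c) ≤ 8 ^ (2 + c) D ^ (-2) (ℓ / D) ^ c ≤ 512 D ^ (-2) (ℓ / D) ^ ε` (as `c ≤ 1`, `ε ≤ c`, `ℓ ≤ D`), and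
`D ^ (-2) = D ^ (-1 - ε) D ^ (ε - 1) ≤ D ^ (-1 - ε) d ^ (ε - 1)` for every `0 < d ≤ D` (as `ε - 1 < 0`). -/
theorem rl_one {c ℓ D m d : ℝ} (hc : 0 < c ∧ c ≤ 1) (hℓ : 1 ≤ ℓ) (hD : ℓ ≤ D) (hm : D ≤ 8 * m)
    (hd : 0 < d) (hdD : d ≤ D) :
    1 / ℓ ^ 2 * (ℓ / m) ^ (2 + c) ≤
      512 * ((ℓ / D) ^ (c / 4) * (D ^ (-1 - c / 4) * d ^ (c / 4 - 1))) := by
  obtain ⟨L, hL, h2⟩ := rl6_two
  obtain ⟨x, rfl⟩ := rl6_exp (show 0 < ℓ by linarith)
  obtain ⟨y, rfl⟩ := rl6_exp (show 0 < D by linarith)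
  obtain ⟨z, rfl⟩ := rl6_exp (show 0 < m by linarith)
  obtain ⟨w, rfl⟩ := rl6_exp hd
  have e8 : (8 : ℝ) = Real.exp (3 * L) := by
    rw [show (3 : ℝ) * L = ((3 : ℕ) : ℝ) * L by norm_num, Real.exp_nat_mul, ← h2]
    norm_num
  have e512 : (512 : ℝ) = Real.exp (9 * L) := by
    rw [show (9 : ℝ) * L = ((9 : ℕ) : ℝ) * L by norm_num, Real.exp_nat_mul, ← h2]
    norm_num
  rw [e8, ← Real.exp_add, Real.exp_le_exp] at hm
  rw [Real.exp_le_exp] at hD hdD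
  rw [rl6_inv, rl6_div, rl6_div, rl6_pow, rl6_pow, e512, ← Real.exp_add, ← Real.exp_add,
    ← Real.exp_add, ← Real.exp_add, Real.exp_le_exp]
  have a1 : 0 ≤ (2 + c) * (3 * L + z - y) := mul_nonneg (by linarith [hc.1]) (by linarith)
  have a2 : 0 ≤ (1 - c / 4) * (y - w) := mul_nonneg (by linarith [hc.2]) (by linarith)
  have a3 : 0 ≤ (1 - c) * L := mul_nonneg (by linarith [hc.2]) hL.le
  have a4 : 0 ≤ c * (y - x) := mul_nonneg hc.1.le (by linarith)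
  nlinarith [a1, a2, a3, a4]

/-- CASE `ℓ ≤ 2 k`, `4 k ≤ D`, `m = k - 1 ≥ k / 2`.  `ℓ ^ (-2) (ℓ / m) ^ (2 + c) (2 k / (D - k)) ^ (1 + c) ≤ 8 ℓ ^ c k ^ (-2-c) 16 k ^ (1+c) D ^ (-1-c)`
(as `ℓ / m ≤ 2 ℓ / k`, `2 k / (D - k) ≤ 4 k / D`, exponents at most `3` and `2`) `= 128 ℓ ^ c k ^ (-1) D ^ (-1-c)`.  With `ε = c / 4`, `k + 1 ≤ 2 k`:
`T ≥ ℓ ^ ε D ^ (-1-2ε) (2 k) ^ (ε-1) ≥ (1/2) ℓ ^ ε D ^ (-1-2ε) k ^ (ε-1)`.  The quotient is at most
`256 ℓ ^ (c-ε) k ^ (-ε) D ^ (2ε-c)`, and `k ^ (-ε) ≤ 2 ^ ε ℓ ^ (-ε) ≤ 2 ℓ ^ (-ε)`, so it is at most `512 (ℓ / D) ^ (c - 2 ε) ≤ 512`. -/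
theorem rl_two {c ℓ D k m : ℝ} (hc : 0 < c ∧ c ≤ 1) (hℓ : 1 ≤ ℓ) (hk : ℓ ≤ 2 * k)
    (hk1 : 1 ≤ k) (hD : 4 * k ≤ D) (hℓD : ℓ ≤ D) (hm : k ≤ 2 * m) :
    1 / ℓ ^ 2 * ((ℓ / m) ^ (2 + c) * (2 * k / (D - k)) ^ (1 + c)) ≤
      512 * ((ℓ / D) ^ (c / 4) * (D ^ (-1 - c / 4) * (k + 1) ^ (c / 4 - 1))) := by
  obtain ⟨L, hL, h2⟩ := rl6_two
  obtain ⟨x, rfl⟩ := rl6_exp (show 0 < ℓ by linarith)
  obtain ⟨p, hp⟩ := rl6_exp (show 0 < D - k by linarith)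
  obtain ⟨y, rfl⟩ := rl6_exp (show 0 < D by linarith)
  obtain ⟨z, rfl⟩ := rl6_exp (show 0 < m by linarith)
  obtain ⟨q, hq⟩ := rl6_exp (show 0 < k + 1 by linarith)
  have hp1 : Real.exp y ≤ 2 * Real.exp p := by
    rw [← hp]
    linarith
  have hq1 : Real.exp q ≤ 2 * k := by
    rw [← hq]
    linarith
  rw [hp, hq]
  obtain ⟨κ, rfl⟩ := rl6_exp (show 0 < k by linarith)
  have e512 : (512 : ℝ) = Real.exp (9 * L) := by
    rw [show (9 : ℝ) * L = ((9 : ℕ) : ℝ) * L by norm_num, Real.exp_nat_mul, ← h2]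
    norm_num
  have ek : 2 * Real.exp κ = Real.exp (L + κ) := by rw [Real.exp_add, ← h2]
  have ep : 2 * Real.exp p = Real.exp (L + p) := by rw [Real.exp_add, ← h2]
  have ez : 2 * Real.exp z = Real.exp (L + z) := by rw [Real.exp_add, ← h2]
  rw [ek, Real.exp_le_exp] at hk hq1
  rw [ep, Real.exp_le_exp] at hp1
  rw [ez, Real.exp_le_exp] at hm
  rw [Real.exp_le_exp] at hℓD
  rw [ek, rl6_inv, rl6_div, rl6_div, rl6_div, rl6_pow, rl6_pow, e512, ← Real.exp_add,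
    ← Real.exp_add, ← Real.exp_add, ← Real.exp_add, ← Real.exp_add, Real.exp_le_exp]
  have a1 : 0 ≤ (2 + c) * (L + z - κ) := mul_nonneg (by linarith [hc.1]) (by linarith)
  have a2 : 0 ≤ (1 + c) * (L + p - y) := mul_nonneg (by linarith [hc.1]) (by linarith)
  have a3 : 0 ≤ (1 - c / 4) * (L + κ - q) := mul_nonneg (by linarith [hc.2]) (by linarith)
  have a4 : 0 ≤ c * (y - x) := mul_nonneg hc.1.le (by linarith)
  have a5 : 0 ≤ c * (L + κ - x) := mul_nonneg hc.1.le (by linarith)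
  have a6 : 0 ≤ (1 - c) * L := mul_nonneg (by linarith [hc.2]) hL.le
  nlinarith [a1, a2, a3, a4, a5, a6]

/-- CASE `2 k < ℓ`, `u` = maximum of `k` and `R₀` (so `k + 1 ≤ 2 u`, `k + 1 ≤ ℓ`).  `D - k ≥ D / 2`.
`ℓ ^ (-2) (ℓ / u) ^ (1/2) (ℓ / (D - k)) ^ (1 + c) ≤ ℓ ^ (-2) (2 ℓ / (k+1)) ^ (1/2) 4 ℓ ^ (1+c) D ^ (-1-c) ≤ 8 ℓ ^ (-1/2+c) (k+1) ^ (-1/2) D ^ (-1-c)`.
The quotient by `T = ℓ ^ ε D ^ (-1-2ε) (k+1) ^ (ε-1)` is at most `8 ℓ ^ (-1/2+c-ε) (k+1) ^ (1/2-ε) D ^ (2ε-c) ≤ 8 (ℓ / D) ^ (c-2ε) ≤ 8`. -/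
theorem rl_three {c ℓ D k u : ℝ} (hc : 0 < c ∧ c ≤ 1) (hℓ : 1 ≤ ℓ) (hk : 0 ≤ k)
    (hu : k + 1 ≤ 2 * u) (hkl : k + 1 ≤ ℓ) (hD : 2 * ℓ ≤ D) :
    1 / ℓ ^ 2 * ((ℓ / u) ^ ((1 : ℝ) / 2) * (ℓ / (D - k)) ^ (1 + c)) ≤
      8 * ((ℓ / D) ^ (c / 4) * (D ^ (-1 - c / 4) * (k + 1) ^ (c / 4 - 1))) := by
  obtain ⟨L, hL, h2⟩ := rl6_two
  obtain ⟨x, rfl⟩ := rl6_exp (show 0 < ℓ by linarith)
  obtain ⟨p, hp⟩ := rl6_exp (show 0 < D - k by linarith)
  obtain ⟨y, rfl⟩ := rl6_exp (show 0 < D by linarith)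
  obtain ⟨z, rfl⟩ := rl6_exp (show 0 < u by linarith)
  obtain ⟨q, hq⟩ := rl6_exp (show 0 < k + 1 by linarith)
  have hp1 : Real.exp y ≤ 2 * Real.exp p := by
    rw [← hp]
    linarith
  rw [hq] at hu hkl
  rw [hp, hq]
  have e8 : (8 : ℝ) = Real.exp (3 * L) := by
    rw [show (3 : ℝ) * L = ((3 : ℕ) : ℝ) * L by norm_num, Real.exp_nat_mul, ← h2]
    norm_num
  have ex : 2 * Real.exp x = Real.exp (L + x) := by rw [Real.exp_add, ← h2]
  have ep : 2 * Real.exp p = Real.exp (L + p) := by rw [Real.exp_add, ← h2]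
  have ez : 2 * Real.exp z = Real.exp (L + z) := by rw [Real.exp_add, ← h2]
  rw [ep, Real.exp_le_exp] at hp1
  rw [ez, Real.exp_le_exp] at hu
  rw [ex, Real.exp_le_exp] at hD
  rw [Real.exp_le_exp] at hkl
  rw [rl6_inv, rl6_div, rl6_div, rl6_div, rl6_pow, rl6_pow, e8, ← Real.exp_add,
    ← Real.exp_add, ← Real.exp_add, ← Real.exp_add, ← Real.exp_add, Real.exp_le_exp]
  have a2 : 0 ≤ (1 + c) * (L + p - y) := mul_nonneg (by linarith [hc.1]) (by linarith)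
  have a3 : 0 ≤ (1 / 2 - c / 4) * (x - q) := mul_nonneg (by linarith [hc.2]) (by linarith)
  have a4 : 0 ≤ c * (y - x) := mul_nonneg hc.1.le (by linarith)
  have a6 : 0 ≤ (1 - c) * L := mul_nonneg (by linarith [hc.2]) hL.le
  nlinarith [a2, a3, a4, a6]

end SC

end
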