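import Mathlib
import Pool.Agent.Lib_MP_e0a489_m.G01

/-!
# MP_e0a489_pr: merged library part G05

Concatenation of library files (each in its own section), only to save build time.
-/

/-! ### from `Lib_MP_e0a489.PB2` -/

section

/-!
# MP_e0a489, probability toolkit 3b: Harris inequality for events
-/

set_option autoImplicit false

namespace SC

open Classical

private theorem pb2_ind_and (A B : Cfg → Prop) :
    (fun ω => ind A ω * ind B ω) = ind (fun ω => A ω ∧ B ω) := by
  funext ω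
  unfold ind
  by_cases h1 : A ω <;> by_cases h2 : B ω <;> simp [h1, h2]

private theorem pb2_le {G : Finset Pt} {ω ω' : Cfg} (h1 : ∀ v ∈ (G : Set Pt), ω v ≤ ω' v)
    (h2 : ∀ v, v ∉ (G : Set Pt) → ω v = ω' v) (v : Pt) : ω v ≤ ω' v := by
  by_cases hv : v ∈ (G : Set Pt)
  · exact h1 v hv
  · exact le_of_eq (h2 v hv)

private theorem pb2_inc {A : Cfg → Prop} (hA : Inc A) (G : Finset Pt) :
    IncOn (ind A) (G : Set Pt) := by
  intro ω ω' h1 h2
  unfold ind
  by_cases h3 : A ω
  · rw [if_pos h3, if_pos (hA ω ω' (pb2_le h1 h2) h3)]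
  · rw [if_neg h3]
    split_ifs <;> norm_num

private theorem pb2_dec {A : Cfg → Prop} (hA : Dec A) (G : Finset Pt) :
    DecOn (ind A) (G : Set Pt) := by
  intro ω ω' h1 h2
  unfold ind
  by_cases h3 : A ω'
  · rw [if_pos h3, if_pos (hA ω ω' (pb2_le h1 h2) h3)]
  · rw [if_neg h3]
    split_ifs <;> norm_num

/-- the three probabilities as averages over a common finite set -/
private theorem pb2_common {A B : Cfg → Prop} (lA : Loc A) (lB : Loc B) :
    ∃ F : Finset Pt, pr A = av F (ind A) (fun _ => false) ∧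
      pr B = av F (ind B) (fun _ => false) ∧
      pr (fun ω => A ω ∧ B ω) = av F (fun ω => ind A ω * ind B ω) (fun _ => false) := by
  obtain ⟨FA, hFA⟩ := lA
  obtain ⟨FB, hFB⟩ := lB
  have hA : Dep (ind A) ((FA ∪ FB : Finset Pt) : Set Pt) :=
    (Dep.ind hFA).mono (by rw [Finset.coe_union]; exact Set.subset_union_left)
  have hB : Dep (ind B) ((FA ∪ FB : Finset Pt) : Set Pt) :=
    (Dep.ind hFB).mono (by rw [Finset.coe_union]; exact Set.subset_union_right)
  refine ⟨FA ∪ FB, ex_eq hA _, ex_eq hB _, ?_⟩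
  have hAB : Dep (fun ω => ind A ω * ind B ω) ((FA ∪ FB : Finset Pt) : Set Pt) := by
    intro ω ω' h
    show ind A ω * ind B ω = ind A ω' * ind B ω'
    rw [hA ω ω' h, hB ω ω' h]
  unfold pr
  rw [← pb2_ind_and]
  exact ex_eq hAB _

theorem pr_harris {A B : Cfg → Prop} (lA : Loc A) (lB : Loc B) (hA : Inc A) (hB : Inc B) :
    pr A * pr B ≤ pr (fun ω => A ω ∧ B ω) := by
  obtain ⟨F, h1, h2, h3⟩ := pb2_common lA lB
  rw [h1, h2, h3]
  exact harris (pb2_inc hA F) (pb2_inc hB F) _

theorem pr_harris_dec {A B : Cfg → Prop} (lA : Loc A) (lB : Loc B) (hA : Dec A) (hB : Dec B) :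
    pr A * pr B ≤ pr (fun ω => A ω ∧ B ω) := by
  obtain ⟨F, h1, h2, h3⟩ := pb2_common lA lB
  rw [h1, h2, h3]
  exact harris_dec (pb2_dec hA F) (pb2_dec hB F) _

/-- An increasing and a decreasing event are negatively correlated. -/
theorem pr_harris_neg {A B : Cfg → Prop} (lA : Loc A) (lB : Loc B) (hA : Inc A) (hB : Dec B) :
    pr (fun ω => A ω ∧ B ω) ≤ pr A * pr B := by
  obtain ⟨F, h1, h2, h3⟩ := pb2_common lA lB
  rw [h1, h2, h3]
  exact harris_neg (pb2_inc hA F) (pb2_dec hB F) _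

private theorem pb2_ins {ι : Type} (a : ι) (s : Finset ι) (A : ι → Cfg → Prop) :
    (fun ω => ∀ i ∈ insert a s, A i ω) = fun ω => A a ω ∧ ∀ i ∈ s, A i ω := by
  funext ω
  simp only [Finset.mem_insert, forall_eq_or_imp]

private theorem pb2_loc {ι : Type} {I : Finset ι} {A : ι → Cfg → Prop}
    (lA : ∀ i ∈ I, Loc (A i)) : Loc (fun ω => ∀ i ∈ I, A i ω) := by
  induction I using Finset.induction_on with
  | empty =>
    refine ⟨∅, ?_⟩
    intro ω ω' _
    simp
  | insert a s ha ih =>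
    rw [pb2_ins]
    exact Loc.and (lA a (Finset.mem_insert_self a s))
      (ih fun i hi => lA i (Finset.mem_insert_of_mem hi))

private theorem pb2_one {ι : Type} (A : ι → Cfg → Prop) :
    pr (fun ω => ∀ i ∈ (∅ : Finset ι), A i ω) = 1 := by
  have h : ind (fun ω => ∀ i ∈ (∅ : Finset ι), A i ω) = fun _ => 1 := by
    funext ω
    unfold ind
    rw [if_pos]
    intro i hi
    exact absurd hi (Finset.notMem_empty i)
  unfold pr
  rw [h]
  exact ex_const 1

/-- Finitely many increasing events. -/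
theorem pr_harris_list {ι : Type} {I : Finset ι} {A : ι → Cfg → Prop} (lA : ∀ i ∈ I, Loc (A i))
    (hA : ∀ i ∈ I, Inc (A i)) : ∏ i ∈ I, pr (A i) ≤ pr (fun ω => ∀ i ∈ I, A i ω) := by
  induction I using Finset.induction_on with
  | empty => rw [pb2_one, Finset.prod_empty]
  | insert a s ha ih =>
    rw [pb2_ins, Finset.prod_insert ha]
    have h1 : ∀ i ∈ s, Loc (A i) := fun i hi => lA i (Finset.mem_insert_of_mem hi)
    have h2 : ∀ i ∈ s, Inc (A i) := fun i hi => hA i (Finset.mem_insert_of_mem hi)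
    refine le_trans (mul_le_mul_of_nonneg_left (ih h1 h2) (pr_nonneg _)) ?_
    refine pr_harris (lA a (Finset.mem_insert_self a s)) (pb2_loc h1)
      (hA a (Finset.mem_insert_self a s)) ?_
    intro ω ω' h h3 i hi
    exact h2 i hi ω ω' h (h3 i hi)

theorem pr_harris_list_dec {ι : Type} {I : Finset ι} {A : ι → Cfg → Prop}
    (lA : ∀ i ∈ I, Loc (A i)) (hA : ∀ i ∈ I, Dec (A i)) :
    ∏ i ∈ I, pr (A i) ≤ pr (fun ω => ∀ i ∈ I, A i ω) := by
  induction I using Finset.induction_on with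
  | empty => rw [pb2_one, Finset.prod_empty]
  | insert a s ha ih =>
    rw [pb2_ins, Finset.prod_insert ha]
    have h1 : ∀ i ∈ s, Loc (A i) := fun i hi => lA i (Finset.mem_insert_of_mem hi)
    have h2 : ∀ i ∈ s, Dec (A i) := fun i hi => hA i (Finset.mem_insert_of_mem hi)
    refine le_trans (mul_le_mul_of_nonneg_left (ih h1 h2) (pr_nonneg _)) ?_
    refine pr_harris_dec (lA a (Finset.mem_insert_self a s)) (pb2_loc h1)
      (hA a (Finset.mem_insert_self a s)) ?_
    intro ω ω' h h3 i hi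
    exact h2 i hi ω ω' h (h3 i hi)

/-- monotone in the direction of the colour `c` -/
def MonC (c : Bool) (A : Cfg → Prop) : Prop := if c then Inc A else Dec A

theorem pr_harris_mon {ι : Type} {I : Finset ι} {A : ι → Cfg → Prop} (c : Bool)
    (lA : ∀ i ∈ I, Loc (A i)) (hA : ∀ i ∈ I, MonC c (A i)) :
    ∏ i ∈ I, pr (A i) ≤ pr (fun ω => ∀ i ∈ I, A i ω) := by
  cases c with
  | true =>
    refine pr_harris_list lA fun i hi => ?_
    have h := hA i hi
    unfold MonC at h
    rwa [if_pos rfl] at h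
  | false =>
    refine pr_harris_list_dec lA fun i hi => ?_
    have h := hA i hi
    unfold MonC at h
    rwa [if_neg (by decide)] at h

end SC

end

/-! ### from `Lib_MP_e0a489.PE1` -/

section

/-!
# MP_e0a489, probability toolkit 6a: Fourier coefficients
-/

set_option autoImplicit false

namespace SC

open Classical

private theorem PE1_sq (b : Bool) :
    (if b then (1 : ℝ) else -1) * (if b then (1 : ℝ) else -1) = 1 := by
  cases b <;> norm_num

private theorem PE1_ext (S T : Finset Pt) (ω : Cfg) (h : S ⊆ T) :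
    chi S ω = ∏ v ∈ T, (if v ∈ S then (if ω v then (1 : ℝ) else -1) else 1) := by
  unfold chi
  rw [← Finset.prod_filter]
  congr 1
  ext v
  rw [Finset.mem_filter]
  exact ⟨fun hv => ⟨h hv, hv⟩, fun hv => hv.2⟩

theorem chi_mul (S T : Finset Pt) (ω : Cfg) :
    chi S ω * chi T ω = chi (symmDiff S T) ω := by
  have h3 : symmDiff S T ⊆ S ∪ T := by
    intro v hv
    rw [Finset.mem_symmDiff] at hv
    rw [Finset.mem_union]
    tauto
  rw [PE1_ext S (S ∪ T) ω Finset.subset_union_left,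
    PE1_ext T (S ∪ T) ω Finset.subset_union_right, PE1_ext _ (S ∪ T) ω h3,
    ← Finset.prod_mul_distrib]
  refine Finset.prod_congr rfl fun v _ => ?_
  have hq := PE1_sq (ω v)
  by_cases h1 : v ∈ S
  · by_cases h2 : v ∈ T
    · have h4 : v ∉ symmDiff S T := by
        rw [Finset.mem_symmDiff]
        tauto
      rw [if_pos h1, if_pos h2, if_neg h4, hq]
    · have h4 : v ∈ symmDiff S T := by
        rw [Finset.mem_symmDiff]
        tauto
      rw [if_pos h1, if_neg h2, if_pos h4, mul_one]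
  · by_cases h2 : v ∈ T
    · have h4 : v ∈ symmDiff S T := by
        rw [Finset.mem_symmDiff]
        tauto
      rw [if_neg h1, if_pos h2, if_pos h4, one_mul]
    · have h4 : v ∉ symmDiff S T := by
        rw [Finset.mem_symmDiff]
        tauto
      rw [if_neg h1, if_neg h2, if_neg h4, mul_one]

private theorem PE1_dep (S : Finset Pt) : Dep (chi S) (S : Set Pt) := by
  intro ω ω' h
  unfold chi
  refine Finset.prod_congr rfl fun v hv => ?_
  rw [h v (by exact_mod_cast hv)]

private theorem PE1_lf (S : Finset Pt) : Lf (chi S) := ⟨S, PE1_dep S⟩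

theorem ex_chi (S : Finset Pt) : ex (chi S) = if S = ∅ then 1 else 0 := by
  by_cases h : S = ∅
  · rw [if_pos h, h]
    have h1 : chi ∅ = fun _ => (1 : ℝ) := by
      funext ω
      unfold chi
      exact Finset.prod_empty
    rw [h1, ex_const]
  · rw [if_neg h, ex_eq (PE1_dep S) fun _ => false]
    unfold av
    have h1 : ∑ T ∈ S.powerset, chi S (ovr S T fun _ => false) = 0 := by
      have h2 : ∀ T ∈ S.powerset, chi S (ovr S T fun _ => false) =
          (∏ v ∈ T, (1 : ℝ)) * ∏ v ∈ S \ T, (-1 : ℝ) := by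
        intro T hT
        rw [Finset.mem_powerset] at hT
        unfold chi
        rw [← Finset.prod_sdiff hT, mul_comm]
        congr 1
        · refine Finset.prod_congr rfl fun v hv => ?_
          rw [ovr_mem (hT hv)]
          simp [hv]
        · refine Finset.prod_congr rfl fun v hv => ?_
          rw [Finset.mem_sdiff] at hv
          rw [ovr_mem hv.1]
          simp [hv.2]
      rw [Finset.sum_congr rfl h2, ← Finset.prod_add]
      obtain ⟨v, hv⟩ := Finset.nonempty_iff_ne_empty.2 h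
      exact Finset.prod_eq_zero hv (by norm_num)
    rw [h1, zero_div]

theorem fc_add {g h : Cfg → ℝ} (hg : Lf g) (hh : Lf h) (S : Finset Pt) :
    fc (fun ω => g ω + h ω) S = fc g S + fc h S := by
  unfold fc
  rw [← ex_add (hg.mul (PE1_lf S)) (hh.mul (PE1_lf S))]
  congr 1
  funext ω
  ring

theorem fc_sub {g h : Cfg → ℝ} (hg : Lf g) (hh : Lf h) (S : Finset Pt) :
    fc (fun ω => g ω - h ω) S = fc g S - fc h S := by
  unfold fc
  rw [← ex_sub (hg.mul (PE1_lf S)) (hh.mul (PE1_lf S))]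
  congr 1
  funext ω
  ring

theorem fc_eq_zero {g : Cfg → ℝ} {F : Finset Pt} (hg : Dep g (F : Set Pt)) {S : Finset Pt}
    (hS : ¬ S ⊆ F) : fc g S = 0 := by
  obtain ⟨v, hvS, hvF⟩ := Finset.not_subset.1 hS
  have h1 : (fun ω => g ω * chi S ω) = fun ω => (g ω * chi (S.erase v) ω) * chi {v} ω := by
    funext ω
    have h2 : chi S ω = chi {v} ω * chi (S.erase v) ω := by
      unfold chi
      rw [Finset.prod_singleton]
      exact (Finset.mul_prod_erase S (fun v => if ω v = true then (1 : ℝ) else -1) hvS).symm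
    rw [h2]
    ring
  have hd1 : Dep (fun ω => g ω * chi (S.erase v) ω)
      ((F : Set Pt) ∪ ((S.erase v : Finset Pt) : Set Pt)) :=
    Dep.comp2 hg (PE1_dep (S.erase v)) fun x y => x * y
  unfold fc
  rw [h1, ex_mul (Lf.mul ⟨F, hg⟩ (PE1_lf _)) (PE1_lf {v}) hd1 (PE1_dep {v}), ex_chi,
    if_neg (Finset.singleton_ne_empty v), mul_zero]
  intro u hu hu2
  have hu3 : u = v := by simpa using hu2
  subst hu3
  rcases hu with hu | hu
  · exact hvF (by exact_mod_cast hu)
  · have hu4 : u ∈ S.erase u := by exact_mod_cast hu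
    exact (Finset.mem_erase.1 hu4).1 rfl

/-- Fourier inversion -/
theorem fourier_inv {g : Cfg → ℝ} {F : Finset Pt} (hg : Dep g (F : Set Pt)) (ω : Cfg) :
    g ω = ∑ S ∈ F.powerset, fc g S * chi S ω := by
  have h1 : ∀ S ∈ F.powerset, fc g S * chi S ω =
      ∑ T ∈ F.powerset, g (ovr F T ω) * (chi S (ovr F T ω) * chi S ω) / 2 ^ F.card := by
    intro S hS
    rw [Finset.mem_powerset] at hS
    have hd : Dep (fun ω => g ω * chi S ω) (F : Set Pt) := by
      have := Dep.comp2 hg ((PE1_dep S).mono (by exact_mod_cast hS : (S : Set Pt) ⊆ (F : Set Pt)))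
        (fun x y => x * y)
      rwa [Set.union_self] at this
    unfold fc
    rw [ex_eq hd ω]
    unfold av
    rw [div_mul_eq_mul_div, Finset.sum_mul, Finset.sum_div]
    refine Finset.sum_congr rfl fun T _ => ?_
    ring
  rw [Finset.sum_congr rfl h1, Finset.sum_comm]
  set T0 : Finset Pt := F.filter (fun v => ω v = true) with hT0
  have hT0F : T0 ∈ F.powerset := Finset.mem_powerset.2 (Finset.filter_subset _ _)
  have h2 : ∀ T ∈ F.powerset, (∑ S ∈ F.powerset,
      g (ovr F T ω) * (chi S (ovr F T ω) * chi S ω) / 2 ^ F.card) =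
      g (ovr F T ω) * (∏ v ∈ F, (1 + (if ovr F T ω v then (1 : ℝ) else -1) *
        (if ω v then (1 : ℝ) else -1))) / 2 ^ F.card := by
    intro T _
    rw [Finset.prod_one_add, Finset.mul_sum, Finset.sum_div]
    refine Finset.sum_congr rfl fun S _ => ?_
    unfold chi
    rw [Finset.prod_mul_distrib]
  rw [Finset.sum_congr rfl h2, Finset.sum_eq_single T0]
  · have h3 : ovr F T0 ω = ω := by
      funext v
      by_cases hv : v ∈ F
      · rw [ovr_mem hv, hT0]
        cases hb : ω v <;> simp [hv, hb]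
      · rw [ovr_not_mem hv]
    rw [h3]
    have h4 : ∏ v ∈ F, (1 + (if ω v then (1 : ℝ) else -1) * (if ω v then (1 : ℝ) else -1)) =
        2 ^ F.card := by
      rw [Finset.prod_congr rfl fun v _ => by rw [PE1_sq], Finset.prod_const]
      norm_num
    rw [h4, mul_div_assoc, div_self (by positivity), mul_one]
  · intro T hT hne
    rw [Finset.mem_powerset] at hT
    have h5 : ∃ v ∈ F, ovr F T ω v ≠ ω v := by
      by_contra hcon
      push Not at hcon
      apply hne
      ext v
      constructor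
      · intro hv
        have h6 := hcon v (hT hv)
        rw [ovr_mem (hT hv)] at h6
        rw [hT0, Finset.mem_filter]
        exact ⟨hT hv, by rw [← h6]; simpa using hv⟩
      · intro hv
        rw [hT0, Finset.mem_filter] at hv
        have h6 := hcon v hv.1
        rw [ovr_mem hv.1, hv.2] at h6
        simpa using h6
    obtain ⟨v, hvF, hv⟩ := h5
    rw [Finset.prod_eq_zero hvF]
    · rw [mul_zero, zero_div]
    · cases h7 : ovr F T ω v <;> cases h8 : ω v
      · exact absurd (h7.trans h8.symm) hv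
      · norm_num
      · norm_num
      · exact absurd (h7.trans h8.symm) hv
  · intro h
    exact absurd hT0F h

/-- Parseval -/
theorem parseval {g h : Cfg → ℝ} {F : Finset Pt} (hg : Dep g (F : Set Pt))
    (hh : Dep h (F : Set Pt)) : ex (fun ω => g ω * h ω) = ∑ S ∈ F.powerset, fc g S * fc h S := by
  have h1 : (fun ω => g ω * h ω) = fun ω => ∑ S ∈ F.powerset, fc g S * (h ω * chi S ω) := by
    funext ω
    conv_lhs => rw [fourier_inv hg ω]
    rw [Finset.sum_mul]
    refine Finset.sum_congr rfl fun S _ => ?_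
    ring
  have hl : Lf h := ⟨F, hh⟩
  rw [h1, ex_sum (fun S _ => (hl.mul (PE1_lf S)).smul _)]
  refine Finset.sum_congr rfl fun S _ => ?_
  rw [ex_smul (hl.mul (PE1_lf S))]
  rfl

/-- Averaging over `G` kills the coefficients of the sets that meet `G`. -/
theorem fc_av {g : Cfg → ℝ} (hg : Lf g) (G S : Finset Pt) :
    fc (av G g) S = if Disjoint S G then fc g S else 0 := by
  by_cases h : Disjoint S G
  · rw [if_pos h]
    unfold fc
    rw [← ex_av (hg.mul (PE1_lf S)) G]
    congr 1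
    funext ω
    have h1 : (fun ω => g ω * chi S ω) = fun ω => chi S ω * g ω := by
      funext ω
      ring
    rw [h1, av_mul_left (PE1_dep S)
      (fun v hv hvS => Finset.disjoint_left.1 h (by exact_mod_cast hvS) hv) ω, mul_comm]
  · rw [if_neg h]
    obtain ⟨F, hF⟩ := hg
    have hd : Dep (av G g) ((F \ G : Finset Pt) : Set Pt) := by
      rw [Finset.coe_sdiff]
      exact hF.av G
    refine fc_eq_zero hd fun hsub => h ?_
    rw [Finset.disjoint_left]
    intro v hv hvG
    exact (Finset.mem_sdiff.1 (hsub hv)).2 hvG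

end SC

end

/-! ### from `Lib_MP_e0a489.PE2` -/

section

/-!
# MP_e0a489, probability toolkit 6b: pairs of configurations
-/

set_option autoImplicit false

namespace SC

open Classical

/-- double sum over the subsets of `insert a F` -/
private theorem dsum_insert {F : Finset Pt} {a : Pt} (ha : a ∉ F)
    (φ : Finset Pt → Finset Pt → ℝ) :
    ∑ S ∈ (insert a F).powerset, ∑ T ∈ (insert a F).powerset, φ S T =
      ∑ S ∈ F.powerset, ∑ T ∈ F.powerset,
        (φ S T + φ S (insert a T) + φ (insert a S) T + φ (insert a S) (insert a T)) := by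
  rw [Finset.sum_powerset_insert ha, ← Finset.sum_add_distrib]
  refine Finset.sum_congr rfl (fun S _ => ?_)
  rw [Finset.sum_powerset_insert ha, Finset.sum_powerset_insert ha, ← Finset.sum_add_distrib,
    ← Finset.sum_add_distrib, ← Finset.sum_add_distrib]
  refine Finset.sum_congr rfl (fun T _ => ?_)
  ring

private theorem dec_insert {S : Finset Pt} {a v : Pt} (h : v ≠ a) :
    decide (v ∈ insert a S) = decide (v ∈ S) := by
  simp [h]

/-- Fubini for products of functions of one site -/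
private theorem prod_dsum (F : Finset Pt) (f : Pt → Bool → Bool → ℝ) :
    ∑ S ∈ F.powerset, ∑ T ∈ F.powerset, ∏ v ∈ F, f v (decide (v ∈ S)) (decide (v ∈ T)) =
      ∏ v ∈ F, (f v false false + f v false true + f v true false + f v true true) := by
  induction F using Finset.induction_on with
  | empty => simp
  | insert a F ha ih =>
    rw [Finset.prod_insert ha, ← ih, dsum_insert ha, Finset.mul_sum]
    refine Finset.sum_congr rfl (fun S hS => ?_)
    rw [Finset.mul_sum]
    refine Finset.sum_congr rfl (fun T hT => ?_)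
    have haS : a ∉ S := fun h => ha (Finset.mem_powerset.1 hS h)
    have haT : a ∉ T := fun h => ha (Finset.mem_powerset.1 hT h)
    have hne : ∀ v ∈ F, v ≠ a := fun v hv h => ha (h ▸ hv)
    have h1 : ∏ v ∈ F, f v (decide (v ∈ S)) (decide (v ∈ insert a T)) =
        ∏ v ∈ F, f v (decide (v ∈ S)) (decide (v ∈ T)) :=
      Finset.prod_congr rfl (fun v hv => by rw [dec_insert (hne v hv)])
    have h2 : ∏ v ∈ F, f v (decide (v ∈ insert a S)) (decide (v ∈ T)) =
        ∏ v ∈ F, f v (decide (v ∈ S)) (decide (v ∈ T)) :=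
      Finset.prod_congr rfl (fun v hv => by rw [dec_insert (hne v hv)])
    have h3 : ∏ v ∈ F, f v (decide (v ∈ insert a S)) (decide (v ∈ insert a T)) =
        ∏ v ∈ F, f v (decide (v ∈ S)) (decide (v ∈ T)) :=
      Finset.prod_congr rfl (fun v hv => by rw [dec_insert (hne v hv), dec_insert (hne v hv)])
    have hS0 : decide (a ∈ S) = false := by simp [haS]
    have hT0 : decide (a ∈ T) = false := by simp [haT]
    have hS1 : decide (a ∈ insert a S) = true := by simp
    have hT1 : decide (a ∈ insert a T) = true := by simp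
    rw [Finset.prod_insert ha, Finset.prod_insert ha, Finset.prod_insert ha,
      Finset.prod_insert ha, h1, h2, h3, hS0, hT0, hS1, hT1]
    ring

/-- one superfluous site -/
private theorem ex2F_insert {g h : Cfg → ℝ} {F : Finset Pt} {a : Pt} (ha : a ∉ F)
    (hg : Dep g (F : Set Pt)) (hh : Dep h (F : Set Pt)) (κ : Pt → ℝ) :
    ex2F (insert a F) κ g h = ex2F F κ g h := by
  unfold ex2F
  rw [dsum_insert ha]
  refine Finset.sum_congr rfl (fun S hS => Finset.sum_congr rfl (fun T hT => ?_))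
  have haS : a ∉ S := fun h => ha (Finset.mem_powerset.1 hS h)
  have haT : a ∉ T := fun h => ha (Finset.mem_powerset.1 hT h)
  have hne : ∀ v ∈ F, v ≠ a := fun v hv h => ha (h ▸ hv)
  have h1 : ∏ v ∈ F, wt (κ v) (decide (v ∈ S)) (decide (v ∈ insert a T)) =
      ∏ v ∈ F, wt (κ v) (decide (v ∈ S)) (decide (v ∈ T)) :=
    Finset.prod_congr rfl (fun v hv => by rw [dec_insert (hne v hv)])
  have h2 : ∏ v ∈ F, wt (κ v) (decide (v ∈ insert a S)) (decide (v ∈ T)) =
      ∏ v ∈ F, wt (κ v) (decide (v ∈ S)) (decide (v ∈ T)) :=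
    Finset.prod_congr rfl (fun v hv => by rw [dec_insert (hne v hv)])
  have h3 : ∏ v ∈ F, wt (κ v) (decide (v ∈ insert a S)) (decide (v ∈ insert a T)) =
      ∏ v ∈ F, wt (κ v) (decide (v ∈ S)) (decide (v ∈ T)) :=
    Finset.prod_congr rfl (fun v hv => by rw [dec_insert (hne v hv), dec_insert (hne v hv)])
  have hS0 : decide (a ∈ S) = false := by simp [haS]
  have hT0 : decide (a ∈ T) = false := by simp [haT]
  have hS1 : decide (a ∈ insert a S) = true := by simp
  have hT1 : decide (a ∈ insert a T) = true := by simp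
  have ho0 : ∀ (k : Cfg → ℝ), Dep k (F : Set Pt) → ∀ U : Finset Pt,
      k (ovr (insert a F) U fun _ => false) = k (ovr F U fun _ => false) := by
    intro k hk U
    refine hk _ _ (fun v hv => ?_)
    have hv' : v ∈ F := by exact_mod_cast hv
    rw [ovr_mem (Finset.mem_insert_of_mem hv'), ovr_mem hv']
  have ho1 : ∀ (k : Cfg → ℝ), Dep k (F : Set Pt) → ∀ U : Finset Pt,
      k (ovr F (insert a U) fun _ => false) = k (ovr F U fun _ => false) := by
    intro k hk U
    refine hk _ _ (fun v hv => ?_)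
    have hv' : v ∈ F := by exact_mod_cast hv
    rw [ovr_mem hv', ovr_mem hv', dec_insert (hne v hv')]
  rw [Finset.prod_insert ha, Finset.prod_insert ha, Finset.prod_insert ha,
    Finset.prod_insert ha, h1, h2, h3, hS0, hT0, hS1, hT1, ho0 g hg, ho0 g hg, ho0 h hh,
    ho0 h hh, ho1 g hg, ho1 h hh]
  simp only [wt]
  norm_num
  ring

private theorem ex2F_union {g h : Cfg → ℝ} {F : Finset Pt} (hg : Dep g (F : Set Pt))
    (hh : Dep h (F : Set Pt)) (κ : Pt → ℝ) (H : Finset Pt) :
    ex2F (H ∪ F) κ g h = ex2F F κ g h := by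
  induction H using Finset.induction_on with
  | empty => rw [Finset.empty_union]
  | insert a H ha ih =>
    rw [Finset.insert_union]
    by_cases h1 : a ∈ H ∪ F
    · rw [Finset.insert_eq_of_mem h1, ih]
    · have hsub : (F : Set Pt) ⊆ ((H ∪ F : Finset Pt) : Set Pt) := by
        intro v hv
        have hv' : v ∈ F := by exact_mod_cast hv
        exact_mod_cast Finset.mem_union_right H hv'
      rw [ex2F_insert h1 (hg.mono hsub) (hh.mono hsub), ih]

/-- `ex2` can be computed on any finite set that supports both functions (the weights `wt` of the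
superfluous sites sum to one in each of the two variables separately given ... : for a site `v`
outside the supports sum over both states: `∑ wt = 1`). -/
theorem ex2_eq {g h : Cfg → ℝ} {F : Finset Pt} (hg : Dep g (F : Set Pt)) (hh : Dep h (F : Set Pt))
    (κ : Pt → ℝ) : ex2 κ g h = ex2F F κ g h := by
  have hex : ∃ F : Finset Pt, Dep g (F : Set Pt) ∧ Dep h (F : Set Pt) := ⟨F, hg, hh⟩
  unfold ex2
  rw [dif_pos hex]
  rw [← ex2F_union hg hh κ hex.choose,
    ← ex2F_union hex.choose_spec.1 hex.choose_spec.2 κ F, Finset.union_comm]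

private theorem chi_ovr {F A : Finset Pt} (hA : A ⊆ F) (S : Finset Pt) :
    chi A (ovr F S fun _ => false) =
      ∏ v ∈ F, (if v ∈ A then (if decide (v ∈ S) = true then (1 : ℝ) else -1) else 1) := by
  unfold chi
  rw [Finset.prod_ite_mem, Finset.inter_eq_right.2 hA]
  refine Finset.prod_congr rfl (fun v hv => ?_)
  rw [ovr_mem (hA hv)]

private theorem ex2F_chi {F A B : Finset Pt} (hA : A ⊆ F) (hB : B ⊆ F) (κ : Pt → ℝ) :
    ex2F F κ (chi A) (chi B) = if A = B then ∏ v ∈ A, κ v else 0 := by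
  have h1 : ex2F F κ (chi A) (chi B) = ∏ v ∈ F,
      ((if v ∈ A then (if v ∈ B then κ v else 0) else (if v ∈ B then 0 else 1)) : ℝ) := by
    unfold ex2F
    rw [show (∏ v ∈ F, ((if v ∈ A then (if v ∈ B then κ v else 0) else
        (if v ∈ B then 0 else 1)) : ℝ)) = ∏ v ∈ F, (
      (wt (κ v) false false * ((if v ∈ A then (if (false : Bool) = true then (1 : ℝ) else -1) else 1) *
        (if v ∈ B then (if (false : Bool) = true then (1 : ℝ) else -1) else 1))) +
      (wt (κ v) false true * ((if v ∈ A then (if (false : Bool) = true then (1 : ℝ) else -1) else 1) *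
        (if v ∈ B then (if (true : Bool) = true then (1 : ℝ) else -1) else 1))) +
      (wt (κ v) true false * ((if v ∈ A then (if (true : Bool) = true then (1 : ℝ) else -1) else 1) *
        (if v ∈ B then (if (false : Bool) = true then (1 : ℝ) else -1) else 1))) +
      (wt (κ v) true true * ((if v ∈ A then (if (true : Bool) = true then (1 : ℝ) else -1) else 1) *
        (if v ∈ B then (if (true : Bool) = true then (1 : ℝ) else -1) else 1)))) from ?_]
    · rw [← prod_dsum F (fun v s t => wt (κ v) s t *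
        ((if v ∈ A then (if s = true then (1 : ℝ) else -1) else 1) *
          (if v ∈ B then (if t = true then (1 : ℝ) else -1) else 1)))]
      refine Finset.sum_congr rfl (fun S _ => Finset.sum_congr rfl (fun T _ => ?_))
      rw [chi_ovr hA, chi_ovr hB, ← Finset.prod_mul_distrib, ← Finset.prod_mul_distrib]
    · refine Finset.prod_congr rfl (fun v _ => ?_)
      by_cases h1 : v ∈ A <;> by_cases h2 : v ∈ B <;> simp [h1, h2, wt] <;> ring
  rw [h1]
  split_ifs with hAB
  · subst hAB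
    rw [← Finset.inter_eq_right.2 hA, ← Finset.prod_ite_mem, Finset.inter_eq_right.2 hA]
    refine Finset.prod_congr rfl (fun v _ => ?_)
    by_cases h1 : v ∈ A <;> simp [h1]
  · have hex : ∃ v ∈ F, ¬ (v ∈ A ↔ v ∈ B) := by
      by_contra hcon
      push_neg at hcon
      refine hAB (Finset.ext (fun v => ⟨fun hv => (hcon v (hA hv)).1 hv,
        fun hv => (hcon v (hB hv)).2 hv⟩))
    obtain ⟨v, hv, hne⟩ := hex
    refine Finset.prod_eq_zero hv ?_
    by_cases h1 : v ∈ A <;> by_cases h2 : v ∈ B <;> simp_all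

/-- Fourier formula.  Both sides are bilinear; for `g = chi S`, `h = chi T` (`fourier_inv`) the
sum factorises over the sites: `∑ wt k s s' = 1`, `∑ wt k s s' χ(s) = 0`,
`∑ wt k s s' χ(s) χ(s') = k`. -/
theorem ex2_fourier {g h : Cfg → ℝ} {F : Finset Pt} (hg : Dep g (F : Set Pt))
    (hh : Dep h (F : Set Pt)) (κ : Pt → ℝ) :
    ex2 κ g h = ∑ S ∈ F.powerset, (∏ v ∈ S, κ v) * (fc g S * fc h S) := by
  rw [ex2_eq hg hh]
  have hexp : ex2F F κ g h = ∑ A ∈ F.powerset, ∑ B ∈ F.powerset,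
      (fc g A * fc h B) * ex2F F κ (chi A) (chi B) := by
    have h1 : ∀ S T : Finset Pt, g (ovr F S fun _ => false) * h (ovr F T fun _ => false) =
        ∑ A ∈ F.powerset, ∑ B ∈ F.powerset, (fc g A * fc h B) *
          (chi A (ovr F S fun _ => false) * chi B (ovr F T fun _ => false)) := by
      intro S T
      rw [fourier_inv hg (ovr F S fun _ => false), fourier_inv hh (ovr F T fun _ => false),
        Finset.sum_mul_sum]
      refine Finset.sum_congr rfl (fun A _ => Finset.sum_congr rfl (fun B _ => ?_))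
      ring
    unfold ex2F
    simp only [h1, Finset.mul_sum]
    have h2 : ∀ S ∈ F.powerset, (∑ T ∈ F.powerset, ∑ A ∈ F.powerset, ∑ B ∈ F.powerset,
        (∏ v ∈ F, wt (κ v) (decide (v ∈ S)) (decide (v ∈ T))) * ((fc g A * fc h B) *
          (chi A (ovr F S fun _ => false) * chi B (ovr F T fun _ => false)))) =
        ∑ A ∈ F.powerset, ∑ B ∈ F.powerset, ∑ T ∈ F.powerset, (fc g A * fc h B) *
        ((∏ v ∈ F, wt (κ v) (decide (v ∈ S)) (decide (v ∈ T))) *
          (chi A (ovr F S fun _ => false) * chi B (ovr F T fun _ => false))) := by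
      intro S _
      rw [Finset.sum_comm]
      refine Finset.sum_congr rfl (fun A _ => ?_)
      rw [Finset.sum_comm]
      refine Finset.sum_congr rfl (fun B _ => Finset.sum_congr rfl (fun T _ => ?_))
      ring
    rw [Finset.sum_congr rfl h2, Finset.sum_comm]
    refine Finset.sum_congr rfl (fun A _ => ?_)
    rw [Finset.sum_comm]
  rw [hexp]
  refine Finset.sum_congr rfl (fun A hA => ?_)
  rw [Finset.sum_eq_single A]
  · rw [ex2F_chi (Finset.mem_powerset.1 hA) (Finset.mem_powerset.1 hA), if_pos rfl]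
    ring
  · intro B hB hBA
    rw [ex2F_chi (Finset.mem_powerset.1 hA) (Finset.mem_powerset.1 hB), if_neg (Ne.symm hBA),
      mul_zero]
  · intro h
    exact absurd hA h

end SC

end

/-! ### from `Lib_MP_e0a489.PE3` -/

section

/-!
# MP_e0a489, probability toolkit 6c: pairs of configurations, basic properties
-/

set_option autoImplicit false

namespace SC

open Classical

private theorem pe3_common {g h : Cfg → ℝ} (hg : Lf g) (hh : Lf h) :
    ∃ F : Finset Pt, Dep g (F : Set Pt) ∧ Dep h (F : Set Pt) := by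
  obtain ⟨F, hF⟩ := hg
  obtain ⟨G, hG⟩ := hh
  refine ⟨F ∪ G, ?_, ?_⟩
  · rw [Finset.coe_union]
    exact Dep.mono hF Set.subset_union_left
  · rw [Finset.coe_union]
    exact Dep.mono hG Set.subset_union_right

private theorem pe3_wt_comm (k : ℝ) (s s' : Bool) : wt k s s' = wt k s' s := by
  cases s <;> cases s' <;> rfl

private theorem pe3_wt_nonneg {k : ℝ} (hk : 0 ≤ k ∧ k ≤ 1) (s s' : Bool) : 0 ≤ wt k s s' := by
  unfold wt
  split_ifs <;> linarith [hk.1, hk.2]

theorem ex2_comm {g h : Cfg → ℝ} (hg : Lf g) (hh : Lf h) (κ : Pt → ℝ) :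
    ex2 κ g h = ex2 κ h g := by
  obtain ⟨F, h1, h2⟩ := pe3_common hg hh
  rw [ex2_eq h1 h2, ex2_eq h2 h1]
  unfold ex2F
  rw [Finset.sum_comm]
  refine Finset.sum_congr rfl (fun S _ => Finset.sum_congr rfl (fun T _ => ?_))
  rw [mul_comm (g _) (h _)]
  congr 1
  exact Finset.prod_congr rfl (fun v _ => pe3_wt_comm _ _ _)

theorem ex2_add_left {g g' h : Cfg → ℝ} (hg : Lf g) (hg' : Lf g') (hh : Lf h) (κ : Pt → ℝ) :
    ex2 κ (fun ω => g ω + g' ω) h = ex2 κ g h + ex2 κ g' h := by
  obtain ⟨F1, a1, a2⟩ := pe3_common hg hg'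
  obtain ⟨F2, a3⟩ := hh
  have b1 : Dep g ((F1 ∪ F2 : Finset Pt) : Set Pt) :=
    a1.mono (by rw [Finset.coe_union]; exact Set.subset_union_left)
  have b2 : Dep g' ((F1 ∪ F2 : Finset Pt) : Set Pt) :=
    a2.mono (by rw [Finset.coe_union]; exact Set.subset_union_left)
  have b3 : Dep h ((F1 ∪ F2 : Finset Pt) : Set Pt) :=
    a3.mono (by rw [Finset.coe_union]; exact Set.subset_union_right)
  have b4 : Dep (fun ω => g ω + g' ω) ((F1 ∪ F2 : Finset Pt) : Set Pt) := by
    intro ω ω' H
    show g ω + g' ω = g ω' + g' ω'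
    rw [b1 ω ω' H, b2 ω ω' H]
  rw [ex2_eq b4 b3, ex2_eq b1 b3, ex2_eq b2 b3]
  unfold ex2F
  rw [← Finset.sum_add_distrib]
  refine Finset.sum_congr rfl (fun S _ => ?_)
  rw [← Finset.sum_add_distrib]
  refine Finset.sum_congr rfl (fun T _ => ?_)
  ring

theorem ex2_smul_left {g h : Cfg → ℝ} (hg : Lf g) (hh : Lf h) (κ : Pt → ℝ) (a : ℝ) :
    ex2 κ (fun ω => a * g ω) h = a * ex2 κ g h := by
  obtain ⟨F, h1, h2⟩ := pe3_common hg hh
  rw [ex2_eq (h1.comp fun x => a * x) h2, ex2_eq h1 h2]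
  unfold ex2F
  rw [Finset.mul_sum]
  refine Finset.sum_congr rfl (fun S _ => ?_)
  rw [Finset.mul_sum]
  refine Finset.sum_congr rfl (fun T _ => ?_)
  ring

theorem ex2_nonneg {g h : Cfg → ℝ} (κ : Pt → ℝ) (hκ : ∀ v, 0 ≤ κ v ∧ κ v ≤ 1)
    (hg : ∀ ω, 0 ≤ g ω) (hh : ∀ ω, 0 ≤ h ω) : 0 ≤ ex2 κ g h := by
  unfold ex2
  split_ifs with hex
  · unfold ex2F
    refine Finset.sum_nonneg (fun S _ => Finset.sum_nonneg (fun T _ => ?_))
    exact mul_nonneg (Finset.prod_nonneg (fun v _ => pe3_wt_nonneg (hκ v) _ _))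
      (mul_nonneg (hg _) (hh _))
  · exact le_refl _

/-- monotone in both functions (nonnegative functions) -/
theorem ex2_mono {g h g' h' : Cfg → ℝ} (lg : Lf g) (lh : Lf h) (lg' : Lf g') (lh' : Lf h')
    (κ : Pt → ℝ) (hκ : ∀ v, 0 ≤ κ v ∧ κ v ≤ 1) (hg : ∀ ω, 0 ≤ g ω) (hh : ∀ ω, 0 ≤ h ω)
    (hgg : ∀ ω, g ω ≤ g' ω) (hhh : ∀ ω, h ω ≤ h' ω) : ex2 κ g h ≤ ex2 κ g' h' := by
  obtain ⟨F1, a1, a2⟩ := pe3_common lg lh
  obtain ⟨F2, a3, a4⟩ := pe3_common lg' lh'
  have s1 : (F1 : Set Pt) ⊆ ((F1 ∪ F2 : Finset Pt) : Set Pt) := by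
    rw [Finset.coe_union]; exact Set.subset_union_left
  have s2 : (F2 : Set Pt) ⊆ ((F1 ∪ F2 : Finset Pt) : Set Pt) := by
    rw [Finset.coe_union]; exact Set.subset_union_right
  rw [ex2_eq (a1.mono s1) (a2.mono s1), ex2_eq (a3.mono s2) (a4.mono s2)]
  unfold ex2F
  refine Finset.sum_le_sum (fun S _ => Finset.sum_le_sum (fun T _ => ?_))
  refine mul_le_mul_of_nonneg_left ?_ (Finset.prod_nonneg (fun v _ => pe3_wt_nonneg (hκ v) _ _))
  exact mul_le_mul (hgg _) (hhh _) (hh _) (le_trans (hg _) (hgg _))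

theorem ex2_self_nonneg {g : Cfg → ℝ} (hg : Lf g) (κ : Pt → ℝ) (hκ : ∀ v, 0 ≤ κ v) :
    0 ≤ ex2 κ g g := by
  obtain ⟨F, hF⟩ := hg
  rw [ex2_fourier hF hF]
  exact Finset.sum_nonneg (fun S _ =>
    mul_nonneg (Finset.prod_nonneg (fun v _ => hκ v)) (mul_self_nonneg _))

/-- `E[g(ω) g(ω')]` is increasing in the correlations -/
theorem ex2_mono_kappa {g : Cfg → ℝ} (hg : Lf g) {κ κ' : Pt → ℝ} (h0 : ∀ v, 0 ≤ κ v)
    (h : ∀ v, κ v ≤ κ' v) : ex2 κ g g ≤ ex2 κ' g g := by
  obtain ⟨F, hF⟩ := hg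
  rw [ex2_fourier hF hF, ex2_fourier hF hF]
  exact Finset.sum_le_sum (fun S _ => mul_le_mul_of_nonneg_right
    (Finset.prod_le_prod (fun v _ => h0 v) (fun v _ => h v)) (mul_self_nonneg _))

/-- `(a + b)` version of Cauchy-Schwarz for the positive form `ex2 κ` -/
theorem ex2_add_le {g h : Cfg → ℝ} (hg : Lf g) (hh : Lf h) (κ : Pt → ℝ) (hκ : ∀ v, 0 ≤ κ v) :
    ex2 κ (fun ω => g ω + h ω) (fun ω => g ω + h ω) ≤ 2 * ex2 κ g g + 2 * ex2 κ h h := by
  obtain ⟨F, h1, h2⟩ := pe3_common hg hh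
  have h3 : Dep (fun ω => g ω + h ω) (F : Set Pt) := by
    intro ω ω' H
    show g ω + h ω = g ω' + h ω'
    rw [h1 ω ω' H, h2 ω ω' H]
  rw [ex2_fourier h3 h3, ex2_fourier h1 h1, ex2_fourier h2 h2, Finset.mul_sum, Finset.mul_sum,
    ← Finset.sum_add_distrib]
  refine Finset.sum_le_sum (fun S _ => ?_)
  rw [fc_add hg hh]
  have h4 : 0 ≤ ∏ v ∈ S, κ v := Finset.prod_nonneg (fun v _ => hκ v)
  nlinarith [mul_nonneg h4 (mul_self_nonneg (fc g S - fc h S))]

/-- only the correlations of the sites on which `g` or `h` depends matter -/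
theorem ex2_congr {g h : Cfg → ℝ} {A : Set Pt} (lg : Lf g) (lh : Lf h) (hg : Dep g A)
    {κ κ' : Pt → ℝ} (hκ : ∀ v ∈ A, κ v = κ' v) : ex2 κ g h = ex2 κ' g h := by
  obtain ⟨F, h1, h2⟩ := pe3_common lg lh
  rw [ex2_fourier h1 h2, ex2_fourier h1 h2]
  have h3 : Dep g ((F.filter (fun v => v ∈ A) : Finset Pt) : Set Pt) := by
    intro ω ω' H
    have e1 : g ω = g (fun v => if v ∈ A then ω v else ω' v) := by
      refine hg _ _ (fun v hv => ?_)
      show ω v = if v ∈ A then ω v else ω' v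
      rw [if_pos hv]
    have e2 : g (fun v => if v ∈ A then ω v else ω' v) = g ω' := by
      refine h1 _ _ (fun v hv => ?_)
      show (if v ∈ A then ω v else ω' v) = ω' v
      by_cases hA : v ∈ A
      · rw [if_pos hA]
        refine H v ?_
        rw [Finset.mem_coe, Finset.mem_filter]
        exact ⟨Finset.mem_coe.1 hv, hA⟩
      · rw [if_neg hA]
    rw [e1, e2]
  refine Finset.sum_congr rfl (fun S _ => ?_)
  by_cases hS : S ⊆ F.filter (fun v => v ∈ A)
  · congr 1
    exact Finset.prod_congr rfl (fun v hv => hκ v (Finset.mem_filter.1 (hS hv)).2)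
  · rw [fc_eq_zero h3 hS]
    ring

end SC

end

/-! ### from `Lib_MP_e0a489.PE4` -/

section

/-!
# MP_e0a489, probability toolkit 6d: pairs of configurations, further properties
-/

set_option autoImplicit false

namespace SC

open Classical

private theorem pe4_common {g h : Cfg → ℝ} (hg : Lf g) (hh : Lf h) :
    ∃ F : Finset Pt, Dep g (F : Set Pt) ∧ Dep h (F : Set Pt) := by
  obtain ⟨F, hF⟩ := hg
  obtain ⟨G, hG⟩ := hh
  refine ⟨F ∪ G, ?_, ?_⟩
  · rw [Finset.coe_union]
    exact Dep.mono hF Set.subset_union_left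
  · rw [Finset.coe_union]
    exact Dep.mono hG Set.subset_union_right

private theorem pe4_chi_dep (S : Finset Pt) : Dep (chi S) (S : Set Pt) := by
  intro ω ω' h
  unfold chi
  refine Finset.prod_congr rfl fun v hv => ?_
  rw [h v (by exact_mod_cast hv)]

private theorem pe4_chi_lf (S : Finset Pt) : Lf (chi S) := ⟨S, pe4_chi_dep S⟩

private theorem pe4_chi_empty (ω : Cfg) : chi ∅ ω = 1 := by
  unfold chi
  exact Finset.prod_empty

private theorem pe4_chi_union {S T : Finset Pt} (h : Disjoint S T) (ω : Cfg) :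
    chi (S ∪ T) ω = chi S ω * chi T ω := by
  unfold chi
  exact Finset.prod_union h

/-- restriction of the support -/
private theorem pe4_filter {g : Cfg → ℝ} {F : Finset Pt} {A : Set Pt} (h1 : Dep g (F : Set Pt))
    (hg : Dep g A) : Dep g ((F.filter (fun v => v ∈ A) : Finset Pt) : Set Pt) := by
  intro ω ω' H
  have e1 : g ω = g (fun v => if v ∈ A then ω v else ω' v) := by
    refine hg _ _ (fun v hv => ?_)
    show ω v = if v ∈ A then ω v else ω' v
    rw [if_pos hv]
  have e2 : g (fun v => if v ∈ A then ω v else ω' v) = g ω' := by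
    refine h1 _ _ (fun v hv => ?_)
    show (if v ∈ A then ω v else ω' v) = ω' v
    by_cases hA : v ∈ A
    · rw [if_pos hA]
      refine H v ?_
      rw [Finset.mem_coe, Finset.mem_filter]
      exact ⟨Finset.mem_coe.1 hv, hA⟩
    · rw [if_neg hA]
  rw [e1, e2]

/-- sums over the subsets of a disjoint union -/
private theorem pe4_sum_union (F1 : Finset Pt) (F2 : Finset Pt) :
    Disjoint F1 F2 → ∀ φ : Finset Pt → ℝ, ∑ S ∈ (F1 ∪ F2).powerset, φ S =
      ∑ S ∈ F1.powerset, ∑ T ∈ F2.powerset, φ (S ∪ T) := by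
  induction F2 using Finset.induction_on with
  | empty =>
    intro _ φ
    simp
  | insert a F2 ha ih =>
    intro hd φ
    have hd2 : Disjoint F1 F2 := Finset.disjoint_of_subset_right (Finset.subset_insert a F2) hd
    have ha1 : a ∉ F1 := fun h => Finset.disjoint_left.1 hd h (Finset.mem_insert_self a F2)
    have ha2 : a ∉ F1 ∪ F2 := by
      rw [Finset.mem_union]
      rintro (h | h)
      · exact ha1 h
      · exact ha h
    rw [Finset.union_insert, Finset.sum_powerset_insert ha2, ih hd2 φ,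
      ih hd2 (fun S => φ (insert a S)), ← Finset.sum_add_distrib]
    refine Finset.sum_congr rfl (fun S _ => ?_)
    rw [Finset.sum_powerset_insert ha]
    congr 1
    refine Finset.sum_congr rfl (fun T _ => ?_)
    rw [Finset.union_insert]

/-- Fourier coefficients of a product of functions of disjoint sets of sites -/
private theorem pe4_fc_mul {g g' : Cfg → ℝ} {F1 F2 S T : Finset Pt} (hg : Dep g (F1 : Set Pt))
    (hg' : Dep g' (F2 : Set Pt)) (hd : Disjoint F1 F2) (hS : S ⊆ F1) (hT : T ⊆ F2) :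
    fc (fun ω => g ω * g' ω) (S ∪ T) = fc g S * fc g' T := by
  have hST : Disjoint S T := Finset.disjoint_of_subset_left hS
    (Finset.disjoint_of_subset_right hT hd)
  have h1 : (fun ω => g ω * g' ω * chi (S ∪ T) ω) =
      fun ω => (g ω * chi S ω) * (g' ω * chi T ω) := by
    funext ω
    rw [pe4_chi_union hST]
    ring
  have d1 : Dep (fun ω => g ω * chi S ω) (F1 : Set Pt) := by
    intro ω ω' H
    show g ω * chi S ω = g ω' * chi S ω'
    rw [hg ω ω' H, pe4_chi_dep S ω ω' (fun v hv => H v (by exact_mod_cast hS (by exact_mod_cast hv)))]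
  have d2 : Dep (fun ω => g' ω * chi T ω) (F2 : Set Pt) := by
    intro ω ω' H
    show g' ω * chi T ω = g' ω' * chi T ω'
    rw [hg' ω ω' H, pe4_chi_dep T ω ω' (fun v hv => H v (by exact_mod_cast hT (by exact_mod_cast hv)))]
  unfold fc
  rw [h1, ex_mul ⟨F1, d1⟩ ⟨F2, d2⟩ d1 d2]
  intro v hv hv2
  exact Finset.disjoint_left.1 hd (by exact_mod_cast hv) (by exact_mod_cast hv2)

/-- independence of disjoint regions -/
theorem ex2_mul {g h g' h' : Cfg → ℝ} {A B : Set Pt} (lg : Lf g) (lh : Lf h) (lg' : Lf g')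
    (lh' : Lf h') (dg : Dep g A) (dh : Dep h A) (dg' : Dep g' B) (dh' : Dep h' B)
    (hAB : ∀ v ∈ A, v ∉ B) (κ : Pt → ℝ) :
    ex2 κ (fun ω => g ω * g' ω) (fun ω => h ω * h' ω) = ex2 κ g h * ex2 κ g' h' := by
  obtain ⟨E1, a1, a2⟩ := pe4_common lg lh
  obtain ⟨E2, a3, a4⟩ := pe4_common lg' lh'
  obtain ⟨F1, hF1, b1, b2⟩ : ∃ F1 : Finset Pt, (∀ v ∈ F1, v ∈ A) ∧ Dep g (F1 : Set Pt) ∧
      Dep h (F1 : Set Pt) := ⟨E1.filter (fun v => v ∈ A), fun v hv => (Finset.mem_filter.1 hv).2,
    pe4_filter a1 dg, pe4_filter a2 dh⟩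
  obtain ⟨F2, hF2, b3, b4⟩ : ∃ F2 : Finset Pt, (∀ v ∈ F2, v ∈ B) ∧ Dep g' (F2 : Set Pt) ∧
      Dep h' (F2 : Set Pt) := ⟨E2.filter (fun v => v ∈ B), fun v hv => (Finset.mem_filter.1 hv).2,
    pe4_filter a3 dg', pe4_filter a4 dh'⟩
  have hd : Disjoint F1 F2 := by
    rw [Finset.disjoint_left]
    intro v hv hv2
    exact hAB v (hF1 v hv) (hF2 v hv2)
  have c1 : Dep (fun ω => g ω * g' ω) ((F1 ∪ F2 : Finset Pt) : Set Pt) := by
    rw [Finset.coe_union]
    exact Dep.comp2 b1 b3 fun x y => x * y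
  have c2 : Dep (fun ω => h ω * h' ω) ((F1 ∪ F2 : Finset Pt) : Set Pt) := by
    rw [Finset.coe_union]
    exact Dep.comp2 b2 b4 fun x y => x * y
  rw [ex2_fourier c1 c2, ex2_fourier b1 b2, ex2_fourier b3 b4, pe4_sum_union F1 F2 hd,
    Finset.sum_mul_sum]
  refine Finset.sum_congr rfl (fun S hS => Finset.sum_congr rfl (fun T hT => ?_))
  rw [Finset.mem_powerset] at hS hT
  have hST : Disjoint S T := Finset.disjoint_of_subset_left hS
    (Finset.disjoint_of_subset_right hT hd)
  rw [pe4_fc_mul b1 b3 hd hS hT, pe4_fc_mul b2 b4 hd hS hT, Finset.prod_union hST]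
  ring

/-- full correlation -/
theorem ex2_one {g h : Cfg → ℝ} {A : Set Pt} (lg : Lf g) (lh : Lf h) (dg : Dep g A)
    (κ : Pt → ℝ) (hκ : ∀ v ∈ A, κ v = 1) : ex2 κ g h = ex (fun ω => g ω * h ω) := by
  obtain ⟨F, h1, h2⟩ := pe4_common lg lh
  rw [ex2_congr lg lh dg (κ' := fun _ => 1) hκ, ex2_fourier h1 h2, parseval h1 h2]
  refine Finset.sum_congr rfl (fun S _ => ?_)
  rw [Finset.prod_const_one, one_mul]

/-- no correlation -/
theorem ex2_zero {g h : Cfg → ℝ} {A : Set Pt} (lg : Lf g) (lh : Lf h) (dg : Dep g A)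
    (κ : Pt → ℝ) (hκ : ∀ v ∈ A, κ v = 0) : ex2 κ g h = ex g * ex h := by
  obtain ⟨F, h1, h2⟩ := pe4_common lg lh
  rw [ex2_congr lg lh dg (κ' := fun _ => 0) hκ, ex2_fourier h1 h2,
    Finset.sum_eq_single (∅ : Finset Pt)]
  · unfold fc
    simp only [pe4_chi_empty, mul_one, Finset.prod_empty, one_mul]
  · intro S _ hS
    obtain ⟨v, hv⟩ := Finset.nonempty_iff_ne_empty.2 hS
    rw [Finset.prod_eq_zero hv rfl, zero_mul]
  · intro h
    exact absurd (Finset.empty_mem_powerset F) h

/-- if the correlation vanishes on `G` both functions may be averaged over `G` -/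
theorem ex2_av {g h : Cfg → ℝ} (lg : Lf g) (lh : Lf h) (G : Finset Pt) (κ : Pt → ℝ)
    (hκ : ∀ v ∈ G, κ v = 0) : ex2 κ g h = ex2 κ (av G g) (av G h) := by
  obtain ⟨F, h1, h2⟩ := pe4_common lg lh
  have h3 : Dep (av G g) (F : Set Pt) := Dep.mono (Dep.av h1 G) Set.sdiff_subset
  have h4 : Dep (av G h) (F : Set Pt) := Dep.mono (Dep.av h2 G) Set.sdiff_subset
  rw [ex2_fourier h1 h2, ex2_fourier h3 h4]
  refine Finset.sum_congr rfl (fun S _ => ?_)
  rw [fc_av lg, fc_av lh]
  by_cases hS : Disjoint S G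
  · rw [if_pos hS, if_pos hS]
  · rw [if_neg hS, if_neg hS]
    obtain ⟨v, hv, hvG⟩ := Finset.not_disjoint_iff.1 hS
    rw [Finset.prod_eq_zero hv (hκ v hvG)]
    ring

/-- `E[g(ω) g(ω')] ≤ E[g²]` -/
theorem ex2_le_sq {g : Cfg → ℝ} (lg : Lf g) (κ : Pt → ℝ) (hκ : ∀ v, 0 ≤ κ v ∧ κ v ≤ 1) :
    ex2 κ g g ≤ ex (fun ω => g ω ^ 2) := by
  obtain ⟨F, hF⟩ := lg
  have h1 := ex2_mono_kappa (g := g) ⟨F, hF⟩ (κ := κ) (κ' := fun _ => 1) (fun v => (hκ v).1)
    (fun v => (hκ v).2)
  rw [ex2_one (κ := fun _ => 1) ⟨F, hF⟩ ⟨F, hF⟩ hF (fun _ _ => rfl)] at h1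
  refine le_trans h1 (le_of_eq ?_)
  congr 1
  funext ω
  ring

theorem ex2_equiv {g h : Cfg → ℝ} (hg : Lf g) (hh : Lf h) (e : Pt ≃ Pt) (κ : Pt → ℝ) :
    ex2 κ (fun ω => g (fun v => ω (e v))) (fun ω => h (fun v => ω (e v))) =
      ex2 (fun v => κ (e v)) g h := by
  obtain ⟨F, h1, h2⟩ := pe4_common hg hh
  have dep : ∀ k : Cfg → ℝ, Dep k (F : Set Pt) →
      Dep (fun ω : Cfg => k (fun v => ω (e v))) ((F.map e.toEmbedding : Finset Pt) : Set Pt) := by
    intro k hk ω ω' H
    refine hk _ _ fun v hv => H (e v) ?_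
    rw [Finset.mem_coe, Finset.mem_map_equiv, Equiv.symm_apply_apply]
    exact hv
  have hfc : ∀ k : Cfg → ℝ, Lf k → ∀ S : Finset Pt,
      fc (fun ω : Cfg => k (fun v => ω (e v))) (S.map e.toEmbedding) = fc k S := by
    intro k hk S
    unfold fc
    rw [← ex_equiv (hk.mul (pe4_chi_lf S)) e]
    congr 1
    funext ω
    congr 1
    unfold chi
    rw [Finset.prod_map]
    rfl
  rw [ex2_fourier (dep g h1) (dep h h2), ex2_fourier h1 h2]
  symm
  refine Finset.sum_nbij' (fun S => S.map e.toEmbedding) (fun S => S.map e.symm.toEmbedding)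
    ?_ ?_ ?_ ?_ ?_
  · intro S hS
    rw [Finset.mem_powerset] at hS ⊢
    exact Finset.map_subset_map.2 hS
  · intro S hS
    rw [Finset.mem_powerset] at hS ⊢
    intro v hv
    rw [Finset.mem_map_equiv, Equiv.symm_symm] at hv
    have h2 := hS hv
    rwa [Finset.mem_map_equiv, Equiv.symm_apply_apply] at h2
  · intro S _
    ext v
    rw [Finset.mem_map_equiv, Finset.mem_map_equiv, Equiv.symm_symm, Equiv.symm_apply_apply]
  · intro S _
    ext v
    rw [Finset.mem_map_equiv, Finset.mem_map_equiv, Equiv.symm_symm, Equiv.apply_symm_apply]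
  · intro S _
    rw [hfc g hg, hfc h hh, Finset.prod_map]
    rfl

private theorem pe4_ex_flip {g : Cfg → ℝ} (hg : Lf g) :
    ex (fun ω => g (fun v => ! ω v)) = ex g := by
  obtain ⟨F, hF⟩ := hg
  have h1 : Dep (fun ω : Cfg => g (fun v => ! ω v)) (F : Set Pt) := by
    intro ω ω' H
    refine hF _ _ fun v hv => ?_
    rw [H v hv]
  rw [ex_eq h1 (fun _ => false), ex_eq hF (fun _ => false)]
  unfold av
  congr 1
  refine Finset.sum_nbij' (fun S => F \ S) (fun S => F \ S) ?_ ?_ ?_ ?_ ?_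
  · intro S _
    rw [Finset.mem_powerset]
    exact Finset.sdiff_subset
  · intro S _
    rw [Finset.mem_powerset]
    exact Finset.sdiff_subset
  · intro S hS
    rw [Finset.mem_powerset] at hS
    exact Finset.sdiff_sdiff_eq_self hS
  · intro S hS
    rw [Finset.mem_powerset] at hS
    exact Finset.sdiff_sdiff_eq_self hS
  · intro S _
    refine hF _ _ fun v hv => ?_
    rw [Finset.mem_coe] at hv
    rw [ovr_mem hv, ovr_mem hv]
    by_cases hS : v ∈ S
    · simp [hS]
    · simp [hS, hv]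

theorem ex2_flip {g h : Cfg → ℝ} (hg : Lf g) (hh : Lf h) (κ : Pt → ℝ) :
    ex2 κ (fun ω => g (fun v => ! ω v)) (fun ω => h (fun v => ! ω v)) = ex2 κ g h := by
  obtain ⟨F, h1, h2⟩ := pe4_common hg hh
  have dep : ∀ k : Cfg → ℝ, Dep k (F : Set Pt) →
      Dep (fun ω : Cfg => k (fun v => ! ω v)) (F : Set Pt) := by
    intro k hk ω ω' H
    refine hk _ _ fun v hv => ?_
    rw [H v hv]
  have hfc : ∀ k : Cfg → ℝ, Lf k → ∀ S : Finset Pt,
      fc (fun ω : Cfg => k (fun v => ! ω v)) S = (-1) ^ S.card * fc k S := by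
    intro k hk S
    unfold fc
    rw [← ex_smul (hk.mul (pe4_chi_lf S)), ← pe4_ex_flip ((hk.mul (pe4_chi_lf S)).smul _)]
    congr 1
    funext ω
    have h5 : chi S ω = (-1) ^ S.card * chi S (fun v => ! ω v) := by
      unfold chi
      rw [← Finset.prod_const, ← Finset.prod_mul_distrib]
      refine Finset.prod_congr rfl (fun v _ => ?_)
      cases hb : ω v <;> simp [hb]
    rw [h5]
    ring
  rw [ex2_fourier (dep g h1) (dep h h2), ex2_fourier h1 h2]
  refine Finset.sum_congr rfl (fun S _ => ?_)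
  rw [hfc g hg, hfc h hh]
  have h6 : ((-1 : ℝ) ^ S.card) * (-1) ^ S.card = 1 := by
    rw [← mul_pow]
    norm_num
  calc (∏ v ∈ S, κ v) * ((-1) ^ S.card * fc g S * ((-1) ^ S.card * fc h S))
      = (((-1 : ℝ) ^ S.card) * (-1) ^ S.card) * ((∏ v ∈ S, κ v) * (fc g S * fc h S)) := by ring
    _ = (∏ v ∈ S, κ v) * (fc g S * fc h S) := by rw [h6, one_mul]

end SC

end

/-! ### from `Lib_MP_e0a489.PF1` -/

section

/-!
# MP_e0a489, probability toolkit 7a: discrete derivatives
-/

set_option autoImplicit false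

namespace SC

open Classical

/-- discrete derivative at the site `v` -/
noncomputable def dv (v : Pt) (g : Cfg → ℝ) : Cfg → ℝ := fun ω =>
  (g (Function.update ω v true) - g (Function.update ω v false)) / 2

/-- `v` is pivotal for `A` -/
def Piv (v : Pt) (A : Cfg → Prop) (ω : Cfg) : Prop :=
  ¬ (A (Function.update ω v true) ↔ A (Function.update ω v false))

private theorem PF1_upd {α : Type} {g : Cfg → α} {A : Set Pt} (h : Dep g A) (v : Pt) (b : Bool)
    {ω ω' : Cfg} (H : ∀ u ∈ A \ {v}, ω u = ω' u) :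
    g (Function.update ω v b) = g (Function.update ω' v b) := by
  apply h
  intro u hu
  by_cases hv : u = v
  · subst hv; simp
  · rw [Function.update_of_ne hv, Function.update_of_ne hv]
    exact H u ⟨hu, hv⟩

theorem Dep.dv {g : Cfg → ℝ} {A : Set Pt} (h : Dep g A) (v : Pt) : Dep (SC.dv v g) (A \ {v}) := by
  intro ω ω' H
  unfold SC.dv
  rw [PF1_upd h v true H, PF1_upd h v false H]

theorem Dep.piv {E : Cfg → Prop} {A : Set Pt} (h : Dep E A) (v : Pt) : Dep (Piv v E) (A \ {v}) := by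
  intro ω ω' H
  unfold Piv
  rw [PF1_upd h v true H, PF1_upd h v false H]

theorem abs_dv_ind (v : Pt) (A : Cfg → Prop) (ω : Cfg) :
    |dv v (ind A) ω| = (1 / 2) * ind (Piv v A) ω := by
  unfold dv ind Piv
  by_cases h1 : A (Function.update ω v true) <;> by_cases h2 : A (Function.update ω v false)
  · simp [h1, h2]
  · simp [h1, h2]
  · simp only [h1, h2, if_true, if_false]
    norm_num
  · simp [h1, h2]

theorem dv_of_dep {g : Cfg → ℝ} {A : Set Pt} (h : Dep g A) {v : Pt} (hv : v ∉ A) (ω : Cfg) :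
    dv v g ω = 0 := by
  unfold dv
  have e : g (Function.update ω v true) = g (Function.update ω v false) := by
    apply h
    intro u hu
    have hne : u ≠ v := fun he => hv (he ▸ hu)
    rw [Function.update_of_ne hne, Function.update_of_ne hne]
  rw [e, sub_self, zero_div]

private theorem PF1_single (v : Pt) (f : Cfg → ℝ) (ω : Cfg) :
    av {v} f ω = (f (Function.update ω v true) + f (Function.update ω v false)) / 2 := by
  have e1 : ovr {v} ∅ ω = Function.update ω v false := by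
    funext u
    unfold ovr
    by_cases hu : u = v
    · subst hu; simp
    · rw [Function.update_of_ne hu, if_neg (by simpa using hu)]
  have e2 : ovr {v} {v} ω = Function.update ω v true := by
    funext u
    unfold ovr
    by_cases hu : u = v
    · subst hu; simp
    · rw [Function.update_of_ne hu, if_neg (by simpa using hu)]
  unfold av
  rw [Finset.card_singleton, pow_one]
  congr 1
  have hp : ({v} : Finset Pt).powerset = {∅, {v}} := by
    ext s
    rw [Finset.mem_powerset, Finset.subset_singleton_iff]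
    simp
  rw [hp, Finset.sum_pair (by
    intro h
    have := Finset.mem_singleton_self v
    rw [← h] at this
    simp at this), e1, e2]
  ring

private theorem PF1_chi_ins {v : Pt} {S : Finset Pt} (hv : v ∉ S) (ω : Cfg) (b : Bool) :
    chi (insert v S) (Function.update ω v b) = (if b then (1 : ℝ) else -1) * chi S ω := by
  unfold chi
  rw [Finset.prod_insert hv, Function.update_self]
  congr 1
  apply Finset.prod_congr rfl
  intro u hu
  have hne : u ≠ v := fun he => hv (he ▸ hu)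
  rw [Function.update_of_ne hne]

private theorem PF1_chi_dep (S : Finset Pt) : Dep (chi S) (S : Set Pt) := by
  intro ω ω' H
  unfold chi
  apply Finset.prod_congr rfl
  intro u hu
  rw [H u hu]

private theorem PF1_lf_chi (S : Finset Pt) : Lf (chi S) := ⟨S, PF1_chi_dep S⟩

private theorem PF1_lf_dv {g : Cfg → ℝ} (hg : Lf g) (v : Pt) : Lf (dv v g) := by
  obtain ⟨F, hF⟩ := hg
  refine ⟨F, ?_⟩
  intro ω ω' H
  exact (hF.dv v) ω ω' fun u hu => H u hu.1

theorem fc_dv {g : Cfg → ℝ} (hg : Lf g) (v : Pt) (S : Finset Pt) :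
    fc (dv v g) S = if v ∈ S then 0 else fc g (insert v S) := by
  by_cases hv : v ∈ S
  · rw [if_pos hv]
    unfold fc
    rw [← ex_av ((PF1_lf_dv hg v).mul (PF1_lf_chi S)) {v}]
    have e : av {v} (fun ω => dv v g ω * chi S ω) = fun _ => (0 : ℝ) := by
      funext ω
      rw [PF1_single]
      have hS : S = insert v (S.erase v) := (Finset.insert_erase hv).symm
      have h1 := PF1_chi_ins (Finset.notMem_erase v S) ω true
      have h2 := PF1_chi_ins (Finset.notMem_erase v S) ω false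
      rw [← hS] at h1 h2
      rw [h1, h2]
      have h3 : ∀ b : Bool, dv v g (Function.update ω v b) = dv v g ω := by
        intro b
        unfold dv
        rw [Function.update_idem, Function.update_idem]
      rw [h3, h3]
      simp
    rw [e]
    exact ex_const 0
  · rw [if_neg hv]
    unfold fc
    rw [← ex_av (hg.mul (PF1_lf_chi (insert v S))) {v}]
    congr 1
    funext ω
    rw [PF1_single, PF1_chi_ins hv, PF1_chi_ins hv]
    unfold dv
    simp only [if_true, Bool.false_eq_true, if_false]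
    ring

/-- the derivative commutes with averages over sets that do not contain the site -/
theorem dv_av {g : Cfg → ℝ} (hg : Lf g) {G : Finset Pt} {v : Pt} (hv : v ∉ G) (ω : Cfg) :
    dv v (av G g) ω = av G (dv v g) ω := by
  have e : ∀ (S : Finset Pt) (b : Bool),
      ovr G S (Function.update ω v b) = Function.update (ovr G S ω) v b := by
    intro S b
    funext u
    by_cases hu : u = v
    · subst hu
      rw [Function.update_self]
      unfold ovr
      rw [if_neg hv, Function.update_self]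
    · rw [Function.update_of_ne hu]
      unfold ovr
      rw [Function.update_of_ne hu]
  unfold av dv
  simp only [e]
  rw [← sub_div, ← Finset.sum_sub_distrib, ← Finset.sum_div]
  ring

/-- correlation `e` on `W`, `κ` elsewhere -/
noncomputable def kon (W : Finset Pt) (e : ℝ) (κ : Pt → ℝ) : Pt → ℝ :=
  fun v => if v ∈ W then e else κ v

private theorem PF1_wt_nonneg {k : ℝ} (h : 0 ≤ k ∧ k ≤ 1) (s s' : Bool) : 0 ≤ wt k s s' := by
  unfold wt
  split_ifs
  · linarith [h.1]
  · linarith [h.2]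

/-- `E[g g']` with the cross terms `|g|`: for `±` valued derivatives of indicators. -/
theorem ex2_dv_le {A : Cfg → Prop} (hA : Loc A) (v : Pt) {κ : Pt → ℝ}
    (hκ : ∀ v, 0 ≤ κ v ∧ κ v ≤ 1) :
    ex2 κ (dv v (ind A)) (dv v (ind A)) ≤ (1 / 4) * pr2 κ (Piv v A) := by
  obtain ⟨F, hF⟩ := hA
  have d1 : Dep (dv v (ind A)) (F : Set Pt) := by
    intro ω ω' H
    exact (hF.ind.dv v) ω ω' fun u hu => H u hu.1
  have d2 : Dep (ind (Piv v A)) (F : Set Pt) := by
    apply Dep.ind
    intro ω ω' H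
    exact (hF.piv v) ω ω' fun u hu => H u hu.1
  unfold pr2
  rw [ex2_eq d1 d1, ex2_eq d2 d2]
  unfold ex2F
  rw [Finset.mul_sum]
  apply Finset.sum_le_sum
  intro S _
  rw [Finset.mul_sum]
  apply Finset.sum_le_sum
  intro T _
  have hw : 0 ≤ ∏ u ∈ F, wt (κ u) (decide (u ∈ S)) (decide (u ∈ T)) :=
    Finset.prod_nonneg fun u _ => PF1_wt_nonneg (hκ u) _ _
  have hm : dv v (ind A) (ovr F S fun _ => false) * dv v (ind A) (ovr F T fun _ => false) ≤
      (1 / 4) * (ind (Piv v A) (ovr F S fun _ => false) *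
        ind (Piv v A) (ovr F T fun _ => false)) := by
    calc dv v (ind A) (ovr F S fun _ => false) * dv v (ind A) (ovr F T fun _ => false)
        ≤ |dv v (ind A) (ovr F S fun _ => false) * dv v (ind A) (ovr F T fun _ => false)| :=
          le_abs_self _
      _ = (1 / 4) * (ind (Piv v A) (ovr F S fun _ => false) *
        ind (Piv v A) (ovr F T fun _ => false)) := by
          rw [abs_mul, abs_dv_ind, abs_dv_ind]
          ring
  calc _ ≤ (∏ u ∈ F, wt (κ u) (decide (u ∈ S)) (decide (u ∈ T))) *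
        ((1 / 4) * (ind (Piv v A) (ovr F S fun _ => false) *
        ind (Piv v A) (ovr F T fun _ => false))) := mul_le_mul_of_nonneg_left hm hw
    _ = _ := by ring

end SC

end

/-! ### from `Lib_MP_e0a489.PG1` -/

section

/-!
# MP_e0a489, probability toolkit 8a: block influences
-/

set_option autoImplicit false

namespace SC

open Classical

/-- number of blocks of the family `𝓑` met by `S` -/
noncomputable def cnt (𝓑 : Finset (Finset Pt)) (S : Finset Pt) : ℕ :=
  (𝓑.filter fun B => ¬ Disjoint S B).card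

private theorem pg1_av_congr {G : Finset Pt} {g h : Cfg → ℝ} {ω : Cfg}
    (H : ∀ ω', (∀ v, v ∉ G → ω' v = ω v) → g ω' = h ω') : av G g ω = av G h ω :=
  le_antisymm (av_mono fun ω' h' => (H ω' h').le) (av_mono fun ω' h' => (H ω' h').ge)

private theorem pg1_av_eq {G : Finset Pt} {g : Cfg → ℝ} {ω : Cfg} (a : ℝ)
    (H : ∀ ω', (∀ v, v ∉ G → ω' v = ω v) → g ω' = a) : av G g ω = a := by
  have h1 : av G g ω = av G (fun _ => a) ω := pg1_av_congr H
  rw [h1, av_const]

private theorem pg1_dep_av {g : Cfg → ℝ} {F : Finset Pt} (hg : Dep g (F : Set Pt))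
    (G : Finset Pt) : Dep (av G g) (F : Set Pt) :=
  (hg.av G).mono Set.diff_subset

private theorem pg1_dep_sub {g h : Cfg → ℝ} {F : Finset Pt} (hg : Dep g (F : Set Pt))
    (hh : Dep h (F : Set Pt)) : Dep (fun ω => g ω - h ω) (F : Set Pt) := by
  intro ω ω' hw
  show g ω - h ω = g ω' - h ω'
  rw [hg ω ω' hw, hh ω ω' hw]

private theorem pg1_dep_add {g h : Cfg → ℝ} {F : Finset Pt} (hg : Dep g (F : Set Pt))
    (hh : Dep h (F : Set Pt)) : Dep (fun ω => g ω + h ω) (F : Set Pt) := by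
  intro ω ω' hw
  show g ω + h ω = g ω' + h ω'
  rw [hg ω ω' hw, hh ω ω' hw]

private theorem pg1_fc1 {g : Cfg → ℝ} (hg : Lf g) (B S : Finset Pt) :
    fc (fun ω => g ω - av B g ω) S = if ¬ Disjoint S B then fc g S else 0 := by
  rw [fc_sub hg (Lf.av hg B), fc_av hg]
  by_cases h : Disjoint S B
  · rw [if_pos h, if_neg (not_not.2 h), sub_self]
  · rw [if_neg h, if_pos h, sub_zero]

/-- the positivity argument -/
private theorem pg1_key {h : Cfg → ℝ} (lh : Lf h) {J : Cfg → Prop} (lJ : Loc J) (c : ℝ)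
    (hc : ∀ ω, |h ω| ≤ c * ind J ω) {κ : Pt → ℝ} (hκ : ∀ v, 0 ≤ κ v ∧ κ v ≤ 1) :
    ex2 κ h h ≤ c ^ 2 * pr2 κ J := by
  have lI : Lf (ind J) := lJ.lf
  have la : Lf (fun ω => c * ind J ω) := lI.smul c
  have ln : Lf (fun ω => (-1) * h ω) := lh.smul (-1)
  have lm : Lf (fun ω => c * ind J ω + (-1) * h ω) := la.add ln
  have lp : Lf (fun ω => c * ind J ω + h ω) := la.add lh
  have h0 : 0 ≤ ex2 κ (fun ω => c * ind J ω + (-1) * h ω) (fun ω => c * ind J ω + h ω) := by
    refine ex2_nonneg κ hκ (fun ω => ?_) (fun ω => ?_)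
    · have := (abs_le.1 (hc ω)).2
      linarith
    · have := (abs_le.1 (hc ω)).1
      linarith
  have e1 : ex2 κ (fun ω => c * ind J ω + (-1) * h ω) (fun ω => c * ind J ω + h ω) =
      ex2 κ (fun ω => c * ind J ω) (fun ω => c * ind J ω + h ω) +
        ex2 κ (fun ω => (-1) * h ω) (fun ω => c * ind J ω + h ω) :=
    ex2_add_left la ln lp κ
  have e2 : ex2 κ (fun ω => (-1) * h ω) (fun ω => c * ind J ω + h ω) =
      (-1) * ex2 κ h (fun ω => c * ind J ω + h ω) := ex2_smul_left lh lp κ (-1)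
  have e3 : ex2 κ (fun ω => c * ind J ω) (fun ω => c * ind J ω + h ω) =
      c * ex2 κ (ind J) (fun ω => c * ind J ω + h ω) := ex2_smul_left lI lp κ c
  have e4 : ex2 κ h (fun ω => c * ind J ω + h ω) =
      c * ex2 κ (ind J) h + ex2 κ h h := by
    rw [ex2_comm lh lp, ex2_add_left la lh lh, ex2_smul_left lI lh]
  have e5 : ex2 κ (ind J) (fun ω => c * ind J ω + h ω) =
      c * ex2 κ (ind J) (ind J) + ex2 κ (ind J) h := by
    rw [ex2_comm lI lp, ex2_add_left la lh lI, ex2_smul_left lI lI, ex2_comm lh lI]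
  rw [e1, e2, e3, e4, e5] at h0
  have e6 : pr2 κ J = ex2 κ (ind J) (ind J) := rfl
  rw [e6]
  nlinarith [h0]

private theorem pg1_ind_nonneg (J : Cfg → Prop) (ω : Cfg) : 0 ≤ ind J ω := by
  unfold ind
  split_ifs <;> norm_num

private theorem pg1_ind_le (J : Cfg → Prop) (ω : Cfg) : ind J ω ≤ 1 := by
  unfold ind
  split_ifs <;> norm_num

private theorem pg1_av_le_one {G : Finset Pt} {g : Cfg → ℝ} (g1 : ∀ ω, g ω ≤ 1) (ω : Cfg) :
    av G g ω ≤ 1 := by
  have h1 : av G g ω ≤ av G (fun _ => (1 : ℝ)) ω := av_mono fun ω' _ => g1 ω'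
  rwa [av_const] at h1

/-- Influence of the block `B`. -/
theorem infl {g : Cfg → ℝ} {F : Finset Pt} (hg : Dep g (F : Set Pt)) (B : Finset Pt) :
    ∑ S ∈ F.powerset.filter (fun S => ¬ Disjoint S B), fc g S ^ 2 =
      ex (fun ω => (g ω - av B g ω) ^ 2) := by
  have hL : Lf g := ⟨F, hg⟩
  have hd : Dep (fun ω => g ω - av B g ω) (F : Set Pt) := pg1_dep_sub hg (pg1_dep_av hg B)
  have h1 : ex (fun ω => (g ω - av B g ω) ^ 2) =
      ex (fun ω => (g ω - av B g ω) * (g ω - av B g ω)) := by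
    congr 1
    funext ω
    ring
  rw [h1, parseval hd hd, Finset.sum_filter]
  refine Finset.sum_congr rfl (fun S _ => ?_)
  rw [pg1_fc1 hL]
  by_cases h : Disjoint S B
  · rw [if_neg (not_not.2 h), if_neg (not_not.2 h), mul_zero]
  · rw [if_pos h, if_pos h, sq]

/-- If `A` can be changed by changing the sites of `B` only on the event `J` (which does not depend
on the sites of `B`), the influence of `B` on `1_A` is at most `P(J)`. -/
theorem infl_le {A J : Cfg → Prop} {F : Finset Pt} (hA : Dep A (F : Set Pt)) (hJ : Loc J)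
    (B : Finset Pt) (h : ∀ ω ω' : Cfg, (∀ v, v ∉ B → ω v = ω' v) → ¬ J ω → (A ω ↔ A ω')) :
    ∑ S ∈ F.powerset.filter (fun S => ¬ Disjoint S B), fc (ind A) S ^ 2 ≤ pr J := by
  have hI : Dep (ind A) (F : Set Pt) := hA.ind
  have lI : Lf (ind A) := ⟨F, hI⟩
  rw [infl hI B]
  have lJ : Lf (ind J) := hJ.lf
  have ls : Lf (fun ω => (ind A ω - av B (ind A) ω) ^ 2) := by
    refine ⟨F, ?_⟩
    exact (pg1_dep_sub hI (pg1_dep_av hI B)).comp (fun x => x ^ 2)
  refine ex_mono ls lJ (fun ω => ?_)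
  by_cases hj : J ω
  · have e1 : ind J ω = 1 := by
      unfold ind
      rw [if_pos hj]
    have a1 := pg1_ind_nonneg A ω
    have a2 := pg1_ind_le A ω
    have a3 : 0 ≤ av B (ind A) ω := av_nonneg (pg1_ind_nonneg A) ω
    have a4 : av B (ind A) ω ≤ 1 := pg1_av_le_one (pg1_ind_le A) ω
    rw [e1]
    have a5 : |ind A ω - av B (ind A) ω| ≤ 1 := by
      rw [abs_le]
      constructor <;> linarith
    have a6 : (ind A ω - av B (ind A) ω) ^ 2 ≤ 1 ^ 2 := by
      rw [← sq_abs]
      exact pow_le_pow_left₀ (abs_nonneg _) a5 2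
    linarith
  · have e1 : av B (ind A) ω = ind A ω := by
      refine pg1_av_eq _ (fun ω' h' => ?_)
      have h3 : A ω ↔ A ω' := h ω ω' (fun v hv => (h' v hv).symm) hj
      unfold ind
      simp only [h3]
    rw [e1, sub_self]
    have := pg1_ind_nonneg J ω
    simpa using this

/-- Double influence with noise.  `h = g - av B g - av B' g + av (B ∪ B') g` has the Fourier
coefficients of `g` at the sets meeting both blocks, and `|h| ≤ 4 * 1_J` if on the complement of `J`
the function `g` is, for the given configuration off `B ∪ B'`, independent of one of the blocks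
(for each value of the other one). -/
theorem infl2 {g : Cfg → ℝ} {F : Finset Pt} (hg : Dep g (F : Set Pt)) (B B' : Finset Pt)
    {J : Cfg → Prop} (lJ : Loc J) (g0 : ∀ ω, 0 ≤ g ω) (g1 : ∀ ω, g ω ≤ 1)
    (h : ∀ ω, ¬ J ω → (∀ ω' ω'' : Cfg, (∀ v, v ∉ B → v ∉ B' → ω' v = ω v) →
        (∀ v, v ∉ B → ω'' v = ω' v) → g ω'' = g ω') ∨
      (∀ ω' ω'' : Cfg, (∀ v, v ∉ B → v ∉ B' → ω' v = ω v) →
        (∀ v, v ∉ B' → ω'' v = ω' v) → g ω'' = g ω'))
    {κ : Pt → ℝ} (hκ : ∀ v, 0 ≤ κ v ∧ κ v ≤ 1) :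
    ∑ S ∈ F.powerset.filter (fun S => ¬ Disjoint S B ∧ ¬ Disjoint S B'),
      (∏ v ∈ S, κ v) * fc g S ^ 2 ≤ 16 * pr2 κ J := by
  set h2 : Cfg → ℝ := fun ω => (g ω - av B g ω) - (av B' g ω - av (B ∪ B') g ω) with hh2
  have hL : Lf g := ⟨F, hg⟩
  have d1 : Dep (fun ω => g ω - av B g ω) (F : Set Pt) := pg1_dep_sub hg (pg1_dep_av hg B)
  have d2 : Dep (fun ω => av B' g ω - av (B ∪ B') g ω) (F : Set Pt) :=
    pg1_dep_sub (pg1_dep_av hg B') (pg1_dep_av hg (B ∪ B'))
  have d3 : Dep h2 (F : Set Pt) := pg1_dep_sub d1 d2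
  have l1 : Lf (fun ω => g ω - av B g ω) := ⟨F, d1⟩
  have l2 : Lf (fun ω => av B' g ω - av (B ∪ B') g ω) := ⟨F, d2⟩
  have l3 : Lf h2 := ⟨F, d3⟩
  have hf : ∀ S : Finset Pt, fc h2 S = if ¬ Disjoint S B ∧ ¬ Disjoint S B' then fc g S else 0 := by
    intro S
    have e1 : fc h2 S = fc (fun ω => g ω - av B g ω) S -
        fc (fun ω => av B' g ω - av (B ∪ B') g ω) S := fc_sub l1 l2 S
    rw [e1, pg1_fc1 hL, fc_sub (Lf.av hL B') (Lf.av hL (B ∪ B')), fc_av hL, fc_av hL]
    have e2 : Disjoint S (B ∪ B') ↔ Disjoint S B ∧ Disjoint S B' := Finset.disjoint_union_right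
    by_cases hB : Disjoint S B <;> by_cases hB' : Disjoint S B' <;> simp [hB, hB', e2]
  have hs : ∑ S ∈ F.powerset.filter (fun S => ¬ Disjoint S B ∧ ¬ Disjoint S B'),
      (∏ v ∈ S, κ v) * fc g S ^ 2 = ex2 κ h2 h2 := by
    rw [ex2_fourier d3 d3, Finset.sum_filter]
    refine Finset.sum_congr rfl (fun S _ => ?_)
    rw [hf S]
    by_cases hS : ¬ Disjoint S B ∧ ¬ Disjoint S B'
    · rw [if_pos hS, if_pos hS, sq]
    · rw [if_neg hS, if_neg hS, mul_zero, mul_zero]
  rw [hs]
  have hb : ∀ ω, |h2 ω| ≤ 4 * ind J ω := by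
    intro ω
    by_cases hj : J ω
    · have e1 : ind J ω = 1 := by
        unfold ind
        rw [if_pos hj]
      rw [e1, abs_le]
      have a1 := g0 ω
      have a2 := g1 ω
      have a3 : 0 ≤ av B g ω := av_nonneg g0 ω
      have a4 : av B g ω ≤ 1 := pg1_av_le_one g1 ω
      have a5 : 0 ≤ av B' g ω := av_nonneg g0 ω
      have a6 : av B' g ω ≤ 1 := pg1_av_le_one g1 ω
      have a7 : 0 ≤ av (B ∪ B') g ω := av_nonneg g0 ω
      have a8 : av (B ∪ B') g ω ≤ 1 := pg1_av_le_one g1 ω
      constructor <;> simp only [hh2] <;> linarith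
    · have e0 : h2 ω = 0 := by
        rcases h ω hj with hc | hc
        · have f1 : ∀ ω' : Cfg, (∀ v, v ∉ B → v ∉ B' → ω' v = ω v) → av B g ω' = g ω' := by
            intro ω' hw
            exact pg1_av_eq _ (fun ω'' h'' => hc ω' ω'' hw h'')
          have f2 : av B g ω = g ω := f1 ω (fun _ _ _ => rfl)
          have f3 : av (B ∪ B') g ω = av B' g ω := by
            rw [Finset.union_comm, ← av_av]
            exact pg1_av_congr (fun ω' h' => f1 ω' (fun v _ hv' => h' v hv'))
          simp only [hh2]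
          rw [f2, f3]
          ring
        · have f1 : ∀ ω' : Cfg, (∀ v, v ∉ B → v ∉ B' → ω' v = ω v) → av B' g ω' = g ω' := by
            intro ω' hw
            exact pg1_av_eq _ (fun ω'' h'' => hc ω' ω'' hw h'')
          have f2 : av B' g ω = g ω := f1 ω (fun _ _ _ => rfl)
          have f3 : av (B ∪ B') g ω = av B g ω := by
            rw [← av_av]
            exact pg1_av_congr (fun ω' h' => f1 ω' (fun v hv _ => h' v hv))
          simp only [hh2]
          rw [f2, f3]
          ring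
      rw [e0, abs_zero]
      have := pg1_ind_nonneg J ω
      linarith
  have hk := pg1_key l3 lJ 4 hb hκ
  have e16 : (4 : ℝ) ^ 2 = 16 := by norm_num
  rwa [e16] at hk

/-- Single influence with noise (same proof). -/
theorem infl1 {g : Cfg → ℝ} {F : Finset Pt} (hg : Dep g (F : Set Pt)) (B : Finset Pt)
    {J : Cfg → Prop} (lJ : Loc J) (g0 : ∀ ω, 0 ≤ g ω) (g1 : ∀ ω, g ω ≤ 1)
    (h : ∀ ω, ¬ J ω → ∀ ω' ω'' : Cfg, (∀ v, v ∉ B → ω' v = ω v) →
        (∀ v, v ∉ B → ω'' v = ω v) → g ω'' = g ω')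
    {κ : Pt → ℝ} (hκ : ∀ v, 0 ≤ κ v ∧ κ v ≤ 1) :
    ∑ S ∈ F.powerset.filter (fun S => ¬ Disjoint S B),
      (∏ v ∈ S, κ v) * fc g S ^ 2 ≤ 4 * pr2 κ J := by
  set h2 : Cfg → ℝ := fun ω => g ω - av B g ω with hh2
  have hL : Lf g := ⟨F, hg⟩
  have d3 : Dep h2 (F : Set Pt) := pg1_dep_sub hg (pg1_dep_av hg B)
  have l3 : Lf h2 := ⟨F, d3⟩
  have hf : ∀ S : Finset Pt, fc h2 S = if ¬ Disjoint S B then fc g S else 0 :=
    fun S => pg1_fc1 hL B S
  have hs : ∑ S ∈ F.powerset.filter (fun S => ¬ Disjoint S B),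
      (∏ v ∈ S, κ v) * fc g S ^ 2 = ex2 κ h2 h2 := by
    rw [ex2_fourier d3 d3, Finset.sum_filter]
    refine Finset.sum_congr rfl (fun S _ => ?_)
    rw [hf S]
    by_cases hS : ¬ Disjoint S B
    · rw [if_pos hS, if_pos hS, sq]
    · rw [if_neg hS, if_neg hS, mul_zero, mul_zero]
  rw [hs]
  have hb : ∀ ω, |h2 ω| ≤ 2 * ind J ω := by
    intro ω
    by_cases hj : J ω
    · have e1 : ind J ω = 1 := by
        unfold ind
        rw [if_pos hj]
      rw [e1, abs_le]
      have a1 := g0 ω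
      have a2 := g1 ω
      have a3 : 0 ≤ av B g ω := av_nonneg g0 ω
      have a4 : av B g ω ≤ 1 := pg1_av_le_one g1 ω
      constructor <;> simp only [hh2] <;> linarith
    · have f2 : av B g ω = g ω :=
        pg1_av_eq _ (fun ω'' h'' => h ω hj ω ω'' (fun _ _ => rfl) h'')
      have e0 : h2 ω = 0 := by
        simp only [hh2]
        rw [f2, sub_self]
      rw [e0, abs_zero]
      have := pg1_ind_nonneg J ω
      linarith
  have hk := pg1_key l3 lJ 2 hb hκ
  have e16 : (2 : ℝ) ^ 2 = 4 := by norm_num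
  rwa [e16] at hk

end SC

end

/-! ### from `Lib_MP_e0a489.XP14` -/

section

/-!
# MP_e0a489, exponents 14: variance and block influences for two events that are close to each other
-/

set_option autoImplicit false

namespace SC

namespace XP

open Classical

private theorem xp14_fc_empty (X : Cfg → Prop) : fc (ind X) ∅ = pr X := by
  unfold fc pr chi
  congr 1
  funext ω
  simp

private theorem xp14_ind_sq (X : Cfg → Prop) (ω : Cfg) : ind X ω * ind X ω = ind X ω := by
  unfold ind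
  split_ifs <;> norm_num

/-- Parseval for an indicator: `∑ fc X S ^ 2 = pr X`, and the coefficient of `∅` is `pr X`. -/
theorem var_ind {X : Cfg → Prop} {Q : Finset Pt} (hX : Dep X (Q : Set Pt)) :
    ∑ S ∈ Q.powerset.filter (fun S => S.Nonempty), fc (ind X) S ^ 2 = pr X * (1 - pr X) := by
  have h1 := parseval hX.ind hX.ind
  have h2 : ex (fun ω => ind X ω * ind X ω) = pr X := by
    unfold pr
    congr 1
    funext ω
    exact xp14_ind_sq X ω
  rw [h2] at h1
  have h3 : ∑ S ∈ Q.powerset, fc (ind X) S * fc (ind X) S =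
      ∑ S ∈ Q.powerset, fc (ind X) S ^ 2 :=
    Finset.sum_congr rfl fun S _ => (sq _).symm
  rw [h3, ← Finset.sum_filter_add_sum_filter_not Q.powerset (fun S => S.Nonempty)] at h1
  have h4 : Q.powerset.filter (fun S => ¬ S.Nonempty) = {∅} := by
    ext S
    simp only [Finset.mem_filter, Finset.mem_powerset, Finset.not_nonempty_iff_eq_empty,
      Finset.mem_singleton]
    constructor
    · exact fun h => h.2
    · rintro rfl
      exact ⟨Finset.empty_subset _, rfl⟩
  rw [h4, Finset.sum_singleton, xp14_fc_empty] at h1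
  linarith [h1]

/-- Parseval for the difference: `(ind F - ind X) ^ 2 = ind (¬ (F ↔ X))`; `fc_sub`. -/
theorem dist_ind {F X : Cfg → Prop} {Q : Finset Pt} (hF : Dep F (Q : Set Pt))
    (hX : Dep X (Q : Set Pt)) :
    ∑ S ∈ Q.powerset, (fc (ind F) S - fc (ind X) S) ^ 2 = pr (fun ω => ¬ (F ω ↔ X ω)) := by
  have lF : Lf (ind F) := ⟨Q, hF.ind⟩
  have lX : Lf (ind X) := ⟨Q, hX.ind⟩
  have hd : Dep (fun ω => ind F ω - ind X ω) (Q : Set Pt) := by
    intro ω ω' hw
    show ind F ω - ind X ω = ind F ω' - ind X ω'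
    rw [hF.ind ω ω' hw, hX.ind ω ω' hw]
  have h1 := parseval hd hd
  have h2 : ∑ S ∈ Q.powerset, (fc (ind F) S - fc (ind X) S) ^ 2 =
      ∑ S ∈ Q.powerset, fc (fun ω => ind F ω - ind X ω) S * fc (fun ω => ind F ω - ind X ω) S := by
    refine Finset.sum_congr rfl fun S _ => ?_
    rw [fc_sub lF lX, sq]
  rw [h2, ← h1]
  unfold pr
  congr 1
  funext ω
  by_cases a : F ω <;> by_cases b : X ω <;> simp [ind, a, b]

/-- `X` depends on `Q' ⊆ Q`, `F` on `Q`; the sites of `Q'` are covered by the blocks `B i`; outside the event `J i` a change in the block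
`B i` does not change `F`.  For nonempty `S ⊆ Q'`: `fc F S ^ 2 ≥ fc X S ^ 2 / 2 - (fc F S - fc X S) ^ 2`.  Sum over these `S`:
`∑ fc F S ^ 2 ≥ pr X (1 - pr X) / 2 - ε` (`var_ind`, `dist_ind`).  Every nonempty `S ⊆ Q'` meets a block `B i`, so the left side is at most
`∑ i, ∑_{S ⊆ Q, S meets B i} fc F S ^ 2 ≤ ∑ i, pr (J i)` (`infl_le`). -/
theorem var_blocks {F X : Cfg → Prop} {Q Q' : Finset Pt} (hQ : Q' ⊆ Q) (hF : Dep F (Q : Set Pt))
    (hX : Dep X (Q' : Set Pt)) {ε : ℝ} (hFX : pr (fun ω => ¬ (F ω ↔ X ω)) ≤ ε) {ι : Type}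
    {I : Finset ι} {B : ι → Finset Pt} {J : ι → Cfg → Prop}
    (hcov : ∀ v ∈ Q', ∃ i ∈ I, v ∈ B i) (hJ : ∀ i ∈ I, Loc (J i))
    (hp : ∀ i ∈ I, ∀ ω ω' : Cfg, (∀ v, v ∉ B i → ω v = ω' v) → ¬ J i ω → (F ω ↔ F ω')) :
    pr X * (1 - pr X) / 2 - ε ≤ ∑ i ∈ I, pr (J i) := by
  set 𝒮 := Q'.powerset.filter (fun S => S.Nonempty) with h𝒮
  have hXQ : Dep X (Q : Set Pt) := Dep.mono hX (by exact_mod_cast hQ)
  have hsub : 𝒮 ⊆ Q.powerset := by
    intro S hS
    rw [h𝒮, Finset.mem_filter, Finset.mem_powerset] at hS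
    exact Finset.mem_powerset.2 (hS.1.trans hQ)
  have h1 : ∑ S ∈ 𝒮, fc (ind X) S ^ 2 = pr X * (1 - pr X) := var_ind hX
  have h2 : ∑ S ∈ 𝒮, (fc (ind F) S - fc (ind X) S) ^ 2 ≤ ε := by
    refine le_trans ?_ hFX
    rw [← dist_ind hF hXQ]
    exact Finset.sum_le_sum_of_subset_of_nonneg hsub fun S _ _ => sq_nonneg _
  have h3 : pr X * (1 - pr X) / 2 - ε ≤ ∑ S ∈ 𝒮, fc (ind F) S ^ 2 := by
    have h4 : ∑ S ∈ 𝒮, (fc (ind X) S ^ 2 / 2 - (fc (ind F) S - fc (ind X) S) ^ 2) ≤
        ∑ S ∈ 𝒮, fc (ind F) S ^ 2 := by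
      refine Finset.sum_le_sum fun S _ => ?_
      nlinarith [sq_nonneg (2 * fc (ind F) S - fc (ind X) S)]
    rw [Finset.sum_sub_distrib, ← Finset.sum_div, h1] at h4
    linarith
  refine h3.trans ?_
  calc ∑ S ∈ 𝒮, fc (ind F) S ^ 2
      ≤ ∑ S ∈ 𝒮, ∑ i ∈ I, (if ¬ Disjoint S (B i) then fc (ind F) S ^ 2 else 0) := by
        refine Finset.sum_le_sum fun S hS => ?_
        rw [h𝒮, Finset.mem_filter, Finset.mem_powerset] at hS
        obtain ⟨v, hv⟩ := hS.2
        obtain ⟨i, hi, hvi⟩ := hcov v (hS.1 hv)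
        have hnd : ¬ Disjoint S (B i) := fun h => Finset.disjoint_left.1 h hv hvi
        have h50 : ∀ j ∈ I, (0 : ℝ) ≤ (fun j => (if ¬ Disjoint S (B j) then
            fc (ind F) S ^ 2 else 0 : ℝ)) j := by
          intro j _
          show (0 : ℝ) ≤ if ¬ Disjoint S (B j) then fc (ind F) S ^ 2 else 0
          split_ifs
          · exact le_refl _
          · exact sq_nonneg _
        have h5 : (if ¬ Disjoint S (B i) then fc (ind F) S ^ 2 else 0 : ℝ) ≤
            ∑ j ∈ I, (if ¬ Disjoint S (B j) then fc (ind F) S ^ 2 else 0 : ℝ) :=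
          Finset.single_le_sum h50 hi
        have h6 : (if ¬ Disjoint S (B i) then fc (ind F) S ^ 2 else 0) = fc (ind F) S ^ 2 :=
          if_pos hnd
        calc fc (ind F) S ^ 2 = (if ¬ Disjoint S (B i) then fc (ind F) S ^ 2 else 0) := h6.symm
          _ ≤ _ := h5
    _ = ∑ i ∈ I, ∑ S ∈ 𝒮, (if ¬ Disjoint S (B i) then fc (ind F) S ^ 2 else 0) :=
        Finset.sum_comm
    _ ≤ ∑ i ∈ I, pr (J i) := by
        refine Finset.sum_le_sum fun i hi => ?_
        have h7 := infl_le hF (hJ i hi) (B i) (hp i hi)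
        rw [Finset.sum_filter] at h7
        refine le_trans ?_ h7
        apply Finset.sum_le_sum_of_subset_of_nonneg hsub
        intro S _ _
        split_ifs
        · exact le_refl _
        · exact sq_nonneg _

end XP

end SC

end
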