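import Mathlib
import Pool.Agent.Lib_MP_e0a489_m.G01

/-!
# MP_e0a489_pr: merged library part G06

Concatenation of library files (each in its own section), only to save build time.
-/

/-! ### from `Lib_MP_e0a489.TA3` -/

section

/-!
# MP_e0a489, topology 1c: symmetries of the lattice
-/

set_option autoImplicit false

namespace SC

open Classical

namespace Lat

variable {L : Lat}

private theorem cn_equiv {L L' : Lat} (e : Pt ≃ Pt)
    (h : ∀ u v, L'.Adj u v ↔ L.Adj (e u) (e v)) (A : Set Pt) (u v : Pt) :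
    L'.Cn A u v ↔ L.Cn {w | e.symm w ∈ A} (e u) (e v) := by
  constructor
  · rintro ⟨hu, hp⟩
    refine ⟨by simpa using hu, ?_⟩
    refine Relation.ReflTransGen.lift e ?_ _ _ hp
    rintro a b ⟨h1, h2⟩
    exact ⟨(h a b).1 h1, by simpa using h2⟩
  · rintro ⟨hu, hp⟩
    refine ⟨by simpa using hu, ?_⟩
    have h1 : Relation.ReflTransGen (fun a b => L'.Adj a b ∧ b ∈ A) (e.symm (e u))
        (e.symm (e v)) := by
      refine Relation.ReflTransGen.lift e.symm ?_ _ _ hp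
      rintro a b ⟨h1, h2⟩
      refine ⟨(h _ _).2 (by simpa using h1), h2⟩
    simpa using h1

theorem shift_adj (x u v : Pt) : (L.shift x).Adj u v ↔ L.Adj (u + x) (v + x) := by
  have key : ∀ u v : Pt, (L.shift x).Adj1 u v ↔ L.Adj1 (u + x) (v + x) := by
    intro u v
    unfold Adj1 shift
    simp only [Prod.fst_add, Prod.snd_add]
    refine or_congr ⟨fun h => ⟨by omega, by omega⟩, fun h => ⟨by omega, by omega⟩⟩
      (or_congr ⟨fun h => ⟨by omega, by omega⟩, fun h => ⟨by omega, by omega⟩⟩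
      (or_congr ⟨fun h => ⟨by omega, by omega, h.2.2⟩, fun h => ⟨by omega, by omega, h.2.2⟩⟩
        ⟨fun h => ⟨by omega, by omega, h.2.2⟩, fun h => ⟨by omega, by omega, h.2.2⟩⟩))
  exact or_congr (key u v) (key v u)

theorem shift_cn (x : Pt) (A : Set Pt) (u v : Pt) :
    (L.shift x).Cn A u v ↔ L.Cn {w | w - x ∈ A} (u + x) (v + x) := by
  have h := cn_equiv (L := L) (L' := L.shift x) (Equiv.addRight x) (fun u v => shift_adj x u v) A u v
  simpa [sub_eq_add_neg] using h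

/-- transposition as an equivalence -/
private def eT : Pt ≃ Pt := ⟨fun v => (v.2, v.1), fun v => (v.2, v.1), fun _ => rfl, fun _ => rfl⟩

private def eX : Pt ≃ Pt := ⟨fun v => (-v.1, v.2), fun v => (-v.1, v.2), fun v => by simp, fun v => by simp⟩

private def eY : Pt ≃ Pt := ⟨fun v => (v.1, -v.2), fun v => (v.1, -v.2), fun v => by simp, fun v => by simp⟩

theorem tr_adj (u v : Pt) : L.tr.Adj u v ↔ L.Adj (u.2, u.1) (v.2, v.1) := by
  unfold Adj Adj1 tr
  simp only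
  constructor
  · rintro ((h | h | h | h) | (h | h | h | h))
    · exact Or.inl (Or.inr (Or.inl ⟨h.2, h.1⟩))
    · exact Or.inl (Or.inl ⟨h.2, h.1⟩)
    · exact Or.inl (Or.inr (Or.inr (Or.inl ⟨h.2.1, h.1, h.2.2⟩)))
    · refine Or.inr (Or.inr (Or.inr (Or.inr ⟨by omega, by omega, ?_⟩)))
      exact h.2.2
    · exact Or.inr (Or.inr (Or.inl ⟨h.2, h.1⟩))
    · exact Or.inr (Or.inl ⟨h.2, h.1⟩)
    · exact Or.inr (Or.inr (Or.inr (Or.inl ⟨h.2.1, h.1, h.2.2⟩)))
    · refine Or.inl (Or.inr (Or.inr (Or.inr ⟨by omega, by omega, ?_⟩)))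
      exact h.2.2
  · rintro ((h | h | h | h) | (h | h | h | h))
    · exact Or.inl (Or.inr (Or.inl ⟨h.2, h.1⟩))
    · exact Or.inl (Or.inl ⟨h.2, h.1⟩)
    · exact Or.inl (Or.inr (Or.inr (Or.inl ⟨h.2.1, h.1, h.2.2⟩)))
    · refine Or.inr (Or.inr (Or.inr (Or.inr ⟨by omega, by omega, ?_⟩)))
      exact h.2.2
    · exact Or.inr (Or.inr (Or.inl ⟨h.2, h.1⟩))
    · exact Or.inr (Or.inl ⟨h.2, h.1⟩)
    · exact Or.inr (Or.inr (Or.inr (Or.inl ⟨h.2.1, h.1, h.2.2⟩)))
    · refine Or.inl (Or.inr (Or.inr (Or.inr ⟨by omega, by omega, ?_⟩)))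
      exact h.2.2

theorem tr_cn (A : Set Pt) (u v : Pt) :
    L.tr.Cn A u v ↔ L.Cn {w | (w.2, w.1) ∈ A} (u.2, u.1) (v.2, v.1) :=
  cn_equiv (L := L) (L' := L.tr) eT (fun u v => tr_adj u v) A u v

theorem rx_adj (u v : Pt) : L.rx.Adj u v ↔ L.Adj (-u.1, u.2) (-v.1, v.2) := by
  unfold Adj Adj1 rx
  simp only [Bool.not_eq_eq_eq_not, Bool.not_true, Bool.not_false]
  constructor
  · rintro ((h | h | h | h) | (h | h | h | h))
    · exact Or.inr (Or.inl ⟨by omega, by omega⟩)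
    · exact Or.inl (Or.inr (Or.inl ⟨by omega, by omega⟩))
    · refine Or.inl (Or.inr (Or.inr (Or.inr ⟨by omega, by omega, ?_⟩)))
      have h1 : -v.1 = -u.1 - 1 := by omega
      rw [h1]
      exact h.2.2
    · refine Or.inl (Or.inr (Or.inr (Or.inl ⟨by omega, by omega, ?_⟩)))
      have h1 : -u.1 = -v.1 - 1 := by omega
      rw [h1]
      exact h.2.2
    · exact Or.inl (Or.inl ⟨by omega, by omega⟩)
    · exact Or.inr (Or.inr (Or.inl ⟨by omega, by omega⟩))
    · refine Or.inr (Or.inr (Or.inr (Or.inr ⟨by omega, by omega, ?_⟩)))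
      have h1 : -u.1 = -v.1 - 1 := by omega
      rw [h1]
      exact h.2.2
    · refine Or.inr (Or.inr (Or.inr (Or.inl ⟨by omega, by omega, ?_⟩)))
      have h1 : -v.1 = -u.1 - 1 := by omega
      rw [h1]
      exact h.2.2
  · rintro ((h | h | h | h) | (h | h | h | h))
    · exact Or.inr (Or.inl ⟨by omega, by omega⟩)
    · exact Or.inl (Or.inr (Or.inl ⟨by omega, by omega⟩))
    · refine Or.inl (Or.inr (Or.inr (Or.inr ⟨by omega, by omega, ?_⟩)))
      have h1 : -v.1 - 1 = -u.1 := by omega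
      rw [h1]
      exact h.2.2
    · refine Or.inl (Or.inr (Or.inr (Or.inl ⟨by omega, by omega, ?_⟩)))
      have h1 : -u.1 - 1 = -v.1 := by omega
      rw [h1]
      exact h.2.2
    · exact Or.inl (Or.inl ⟨by omega, by omega⟩)
    · exact Or.inr (Or.inr (Or.inl ⟨by omega, by omega⟩))
    · refine Or.inr (Or.inr (Or.inr (Or.inr ⟨by omega, by omega, ?_⟩)))
      have h1 : -u.1 - 1 = -v.1 := by omega
      rw [h1]
      exact h.2.2
    · refine Or.inr (Or.inr (Or.inr (Or.inl ⟨by omega, by omega, ?_⟩)))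
      have h1 : -v.1 - 1 = -u.1 := by omega
      rw [h1]
      exact h.2.2

theorem rx_cn (A : Set Pt) (u v : Pt) :
    L.rx.Cn A u v ↔ L.Cn {w | (-w.1, w.2) ∈ A} (-u.1, u.2) (-v.1, v.2) :=
  cn_equiv (L := L) (L' := L.rx) eX (fun u v => rx_adj u v) A u v

theorem ry_adj (u v : Pt) : L.ry.Adj u v ↔ L.Adj (u.1, -u.2) (v.1, -v.2) := by
  unfold Adj Adj1 ry
  simp only [Bool.not_eq_eq_eq_not, Bool.not_true, Bool.not_false]
  constructor
  · rintro ((h | h | h | h) | (h | h | h | h))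
    · exact Or.inl (Or.inl ⟨by omega, by omega⟩)
    · exact Or.inr (Or.inr (Or.inl ⟨by omega, by omega⟩))
    · refine Or.inr (Or.inr (Or.inr (Or.inr ⟨by omega, by omega, ?_⟩)))
      have h1 : -v.2 = -u.2 - 1 := by omega
      rw [h1]
      exact h.2.2
    · refine Or.inr (Or.inr (Or.inr (Or.inl ⟨by omega, by omega, ?_⟩)))
      have h1 : -v.2 = -u.2 - 1 := by omega
      rw [h1]
      exact h.2.2
    · exact Or.inr (Or.inl ⟨by omega, by omega⟩)
    · exact Or.inl (Or.inr (Or.inl ⟨by omega, by omega⟩))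
    · refine Or.inl (Or.inr (Or.inr (Or.inr ⟨by omega, by omega, ?_⟩)))
      have h1 : -u.2 = -v.2 - 1 := by omega
      rw [h1]
      exact h.2.2
    · refine Or.inl (Or.inr (Or.inr (Or.inl ⟨by omega, by omega, ?_⟩)))
      have h1 : -u.2 = -v.2 - 1 := by omega
      rw [h1]
      exact h.2.2
  · rintro ((h | h | h | h) | (h | h | h | h))
    · exact Or.inl (Or.inl ⟨by omega, by omega⟩)
    · exact Or.inr (Or.inr (Or.inl ⟨by omega, by omega⟩))
    · refine Or.inr (Or.inr (Or.inr (Or.inr ⟨by omega, by omega, ?_⟩)))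
      have h1 : -v.2 - 1 = -u.2 := by omega
      rw [h1]
      exact h.2.2
    · refine Or.inr (Or.inr (Or.inr (Or.inl ⟨by omega, by omega, ?_⟩)))
      have h1 : -v.2 - 1 = -u.2 := by omega
      rw [h1]
      exact h.2.2
    · exact Or.inr (Or.inl ⟨by omega, by omega⟩)
    · exact Or.inl (Or.inr (Or.inl ⟨by omega, by omega⟩))
    · refine Or.inl (Or.inr (Or.inr (Or.inr ⟨by omega, by omega, ?_⟩)))
      have h1 : -u.2 - 1 = -v.2 := by omega
      rw [h1]
      exact h.2.2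
    · refine Or.inl (Or.inr (Or.inr (Or.inl ⟨by omega, by omega, ?_⟩)))
      have h1 : -u.2 - 1 = -v.2 := by omega
      rw [h1]
      exact h.2.2

theorem ry_cn (A : Set Pt) (u v : Pt) :
    L.ry.Cn A u v ↔ L.Cn {w | (w.1, -w.2) ∈ A} (u.1, -u.2) (v.1, -v.2) :=
  cn_equiv (L := L) (L' := L.ry) eY (fun u v => ry_adj u v) A u v

theorem sw_adj (u v : Pt) : L.sw.Adj u v ↔ L.Adj u v := Iff.rfl

theorem sw_col (c : Bool) (ω : Cfg) : L.sw.col c ω = L.col (!c) fun v => ! ω v := by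
  ext v
  simp only [col, st, sw, Set.mem_ofPred_eq]
  cases h : L.typ v with
  | none => simp
  | some b => cases b <;> cases c <;> simp

end Lat

end SC

end

/-! ### from `Lib_MP_e0a489.TE1` -/

section

/-!
# MP_e0a489, topology 5a: transport of lattices

`Tr L L' e`: the lattice `L'` is the lattice `L` seen through the bijection `e` of the sites (the site
`v` of `L'` is the site `e v` of `L`).
-/

set_option autoImplicit false

namespace SC

open Classical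

/-- `L'` is `L` seen through `e` -/
structure Tr (L L' : Lat) (e : Equiv.Perm Pt) : Prop where
  adj : ∀ u v, L'.Adj u v ↔ L.Adj (e u) (e v)
  typ : ∀ v, L'.typ v = L.typ (e v)

/-- rotation by 90 degrees -/
def rotE : Equiv.Perm Pt where
  toFun v := (-v.2, v.1)
  invFun v := (v.2, -v.1)
  left_inv v := by simp
  right_inv v := by simp

/-- rotation by `90 s` degrees -/
def rt (s : ℤ) : Equiv.Perm Pt := rotE ^ s

namespace Lat

/-- the rotated lattice: the site `v` of `L.rot` is the site `rotE v` of `L` -/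
def rot (L : Lat) : Lat := L.rx.tr

/-- the lattice rotated by `90 s` degrees: its site `v` is the site `rt s v` of `L` -/
def rots (L : Lat) (s : ℤ) : Lat :=
  if s % 4 = 0 then L else if s % 4 = 1 then L.rot else if s % 4 = 2 then L.rot.rot
    else L.rot.rot.rot

end Lat

theorem rt_zero (v : Pt) : rt 0 v = v := by
  rfl

theorem rt_one (v : Pt) : rt 1 v = (-v.2, v.1) := by
  rfl

theorem rt_two (v : Pt) : rt 2 v = (-v.1, -v.2) := by
  have h : rt 2 = rotE * rotE := by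
    unfold rt
    rw [show (2 : ℤ) = 1 + 1 by norm_num, zpow_add, zpow_one]
  rw [h]
  rfl

theorem rt_three (v : Pt) : rt 3 v = (v.2, -v.1) := by
  have h : rt 3 = rotE * rotE * rotE := by
    unfold rt
    rw [show (3 : ℤ) = 1 + 1 + 1 by norm_num, zpow_add, zpow_add, zpow_one]
  rw [h]
  show ((-(-v.2), -v.1) : Pt) = _
  rw [neg_neg]

theorem rt_add (s s' : ℤ) (v : Pt) : rt (s + s') v = rt s (rt s' v) := by
  unfold rt
  rw [zpow_add]
  rfl

theorem rt_four (s : ℤ) (v : Pt) : rt (s + 4) v = rt s v := by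
  have h4 : rt 4 = 1 := by
    have h : rt 4 = rotE * rotE * (rotE * rotE) := by
      unfold rt
      rw [show (4 : ℤ) = 1 + 1 + (1 + 1) by norm_num, zpow_add, zpow_add, zpow_one]
    rw [h]
    ext v
    · show -(-v.1) = v.1
      rw [neg_neg]
    · show -(-v.2) = v.2
      rw [neg_neg]
  rw [rt_add, h4]
  rfl

/-- depends only on `s` modulo 4 -/
theorem rt_mod {s s' : ℤ} (h : s % 4 = s' % 4) : rt s = rt s' := by
  have h1 : ∀ (k : ℤ) (v : Pt), rt (4 * k) v = v := by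
    have h2 : rt 4 = 1 := by
      ext v
      · have := rt_four 0 v
        rw [zero_add, rt_zero] at this
        rw [this]
        rfl
      · have := rt_four 0 v
        rw [zero_add, rt_zero] at this
        rw [this]
        rfl
    intro k v
    have h3 : rt (4 * k) = (rt 4) ^ k := by
      unfold rt
      exact zpow_mul rotE 4 k
    rw [h3, h2, one_zpow]
    rfl
  have h2 : ∀ s : ℤ, rt s = rt (s % 4) := by
    intro s
    apply Equiv.ext
    intro v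
    have h3 : rt (s % 4 + 4 * (s / 4)) v = rt (s % 4) v := by
      rw [rt_add, h1]
    rw [Int.emod_add_mul_ediv] at h3
    exact h3
  rw [h2 s, h2 s', h]

theorem nrm_rt (s : ℤ) (v : Pt) : nrm (rt s v) = nrm v := by
  have key : ∀ v : Pt, nrm (rt 1 v) = nrm v := by
    intro v
    rw [rt_one]
    unfold nrm
    simp only [abs_neg]
    exact max_comm _ _
  have k2 : ∀ v : Pt, nrm (rt 2 v) = nrm v := by
    intro v
    rw [rt_two]
    unfold nrm
    simp only [abs_neg]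
  have k3 : ∀ v : Pt, nrm (rt 3 v) = nrm v := by
    intro v
    rw [rt_three]
    unfold nrm
    simp only [abs_neg]
    exact max_comm _ _
  have h : s % 4 = 0 ∨ s % 4 = 1 ∨ s % 4 = 2 ∨ s % 4 = 3 := by omega
  rcases h with h | h | h | h
  · rw [rt_mod (s := s) (s' := 0) (by omega), rt_zero]
  · rw [rt_mod (s := s) (s' := 1) (by omega), key]
  · rw [rt_mod (s := s) (s' := 2) (by omega), k2]
  · rw [rt_mod (s := s) (s' := 3) (by omega), k3]

theorem Tr.refl (L : Lat) : Tr L L 1 :=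
  ⟨fun _ _ => Iff.rfl, fun _ => rfl⟩

theorem Tr.trans {L L' L'' : Lat} {e e' : Equiv.Perm Pt} (h : Tr L L' e) (h' : Tr L' L'' e') :
    Tr L L'' (e * e') :=
  ⟨fun u v => (h'.adj u v).trans (h.adj (e' u) (e' v)),
    fun v => (h'.typ v).trans (h.typ (e' v))⟩

theorem Tr.symm {L L' : Lat} {e : Equiv.Perm Pt} (h : Tr L L' e) : Tr L' L e⁻¹ := by
  refine ⟨fun u v => ?_, fun v => ?_⟩
  · have h1 := h.adj (e⁻¹ u) (e⁻¹ v)
    have h2 : ∀ w, e (e⁻¹ w) = w := fun w => e.apply_symm_apply w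
    rw [h2, h2] at h1
    exact h1.symm
  · have h1 := h.typ (e⁻¹ v)
    have h2 : ∀ w, e (e⁻¹ w) = w := fun w => e.apply_symm_apply w
    rw [h2] at h1
    exact h1.symm

theorem tr_shift (L : Lat) (x : Pt) : Tr L (L.shift x) (Equiv.addRight x) :=
  ⟨fun u v => Lat.shift_adj x u v, fun _ => rfl⟩

theorem tr_tr (L : Lat) : Tr L L.tr (Equiv.prodComm ℤ ℤ) :=
  ⟨fun u v => Lat.tr_adj u v, fun _ => rfl⟩

/-- reflection of the first coordinate -/
def rxE : Equiv.Perm Pt where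
  toFun v := (-v.1, v.2)
  invFun v := (-v.1, v.2)
  left_inv v := by simp
  right_inv v := by simp

/-- reflection of the second coordinate -/
def ryE : Equiv.Perm Pt where
  toFun v := (v.1, -v.2)
  invFun v := (v.1, -v.2)
  left_inv v := by simp
  right_inv v := by simp

theorem tr_rx (L : Lat) : Tr L L.rx rxE :=
  ⟨fun u v => Lat.rx_adj u v, fun _ => rfl⟩

theorem tr_ry (L : Lat) : Tr L L.ry ryE :=
  ⟨fun u v => Lat.ry_adj u v, fun _ => rfl⟩

theorem tr_rot (L : Lat) : Tr L L.rot rotE := by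
  have h := (tr_rx L).trans (tr_tr L.rx)
  have he : rxE * Equiv.prodComm ℤ ℤ = rotE := by
    apply Equiv.ext
    intro v
    rfl
  rw [he] at h
  exact h

theorem tr_rots (L : Lat) (s : ℤ) : Tr L (L.rots s) (rt s) := by
  have h1 := tr_rot L
  have h2 := h1.trans (tr_rot L.rot)
  have h3 := h2.trans (tr_rot L.rot.rot)
  have e2 : rotE * rotE = rt 2 := by
    apply Equiv.ext
    intro v
    rw [rt_two]
    rfl
  have e3 : rotE * rotE * rotE = rt 3 := by
    apply Equiv.ext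
    intro v
    rw [rt_three]
    show ((-(-v.2), -v.1) : Pt) = _
    rw [neg_neg]
  rw [e2] at h2
  rw [e3] at h3
  have e1 : rotE = rt 1 := by
    apply Equiv.ext
    intro v
    rw [rt_one]
    rfl
  rw [e1] at h1
  have e0 : (1 : Equiv.Perm Pt) = rt 0 := by
    apply Equiv.ext
    intro v
    rw [rt_zero]
    rfl
  have h0 := Tr.refl L
  rw [e0] at h0
  have h : s % 4 = 0 ∨ s % 4 = 1 ∨ s % 4 = 2 ∨ s % 4 = 3 := by omega
  unfold Lat.rots
  rcases h with h | h | h | h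
  · rw [if_pos h, rt_mod (s := s) (s' := 0) (by omega)]
    exact h0
  · rw [if_neg (by omega), if_pos h, rt_mod (s := s) (s' := 1) (by omega)]
    exact h1
  · rw [if_neg (by omega), if_neg (by omega), if_pos h, rt_mod (s := s) (s' := 2) (by omega)]
    exact h2
  · rw [if_neg (by omega), if_neg (by omega), if_neg (by omega),
      rt_mod (s := s) (s' := 3) (by omega)]
    exact h3

end SC

end

/-! ### from `Lib_MP_e0a489.TE2` -/

section

/-!
# MP_e0a489, topology 5b: transport of sets and events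
-/

set_option autoImplicit false

namespace SC

open Classical

variable {L L' : Lat} {e : Equiv.Perm Pt}

/-- the configuration seen through `e` -/
def via (e : Equiv.Perm Pt) (ω : Cfg) : Cfg := fun v => ω (e v)

private theorem inv_self (e : Equiv.Perm Pt) (v : Pt) : (e⁻¹ : Equiv.Perm Pt) (e v) = v :=
  e.symm_apply_apply v

private theorem cn_fwd {L L' : Lat} {e : Equiv.Perm Pt} (h : Tr L L' e) {A : Set Pt} {u v : Pt}
    (H : L'.Cn A u v) : L.Cn (e '' A) (e u) (e v) := by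
  obtain ⟨hu, hp⟩ := H
  refine ⟨Set.mem_image_of_mem e hu, ?_⟩
  induction hp with
  | refl => exact Relation.ReflTransGen.refl
  | tail _ hab ih => exact ih.tail ⟨(h.adj _ _).1 hab.1, Set.mem_image_of_mem e hab.2⟩

private theorem img_img (e : Equiv.Perm Pt) (A : Set Pt) : (e⁻¹ : Equiv.Perm Pt) '' (e '' A) = A := by
  ext v
  constructor
  · rintro ⟨_, ⟨w, hw, rfl⟩, rfl⟩
    rwa [inv_self]
  · intro hv
    exact ⟨e v, Set.mem_image_of_mem e hv, inv_self e v⟩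

theorem Tr.st (h : Tr L L' e) (ω : Cfg) (v : Pt) : L'.st (via e ω) v = L.st ω (e v) := by
  unfold Lat.st via
  rw [h.typ]

theorem Tr.col (h : Tr L L' e) (c : Bool) (ω : Cfg) :
    e '' L'.col c (via e ω) = L.col c ω := by
  ext v
  constructor
  · rintro ⟨w, hw, rfl⟩
    have h1 : L'.st (via e ω) w = c := hw
    rw [h.st] at h1
    exact h1
  · intro hv
    have h1 : L.st ω v = c := hv
    refine ⟨e.symm v, ?_, Equiv.apply_symm_apply e v⟩
    show L'.st (via e ω) (e.symm v) = c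
    rw [h.st, Equiv.apply_symm_apply]
    exact h1

theorem Tr.cn (h : Tr L L' e) (A : Set Pt) (u v : Pt) :
    L'.Cn A u v ↔ L.Cn (e '' A) (e u) (e v) := by
  constructor
  · exact cn_fwd h
  · intro H
    have h1 := cn_fwd h.symm H
    rwa [img_img, inv_self, inv_self] at h1

theorem Tr.con (h : Tr L L' e) (A : Set Pt) : L'.Con A ↔ L.Con (e '' A) := by
  constructor
  · rintro H _ ⟨u, hu, rfl⟩ _ ⟨v, hv, rfl⟩
    exact (h.cn A u v).1 (H u hu v hv)
  · intro H u hu v hv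
    exact (h.cn A u v).2 (H _ (Set.mem_image_of_mem e hu) _ (Set.mem_image_of_mem e hv))

theorem Tr.nb (h : Tr L L' e) (A : Set Pt) : e '' L'.nb A = L.nb (e '' A) := by
  ext v
  constructor
  · rintro ⟨w, ⟨u, hu, huw⟩, rfl⟩
    exact ⟨e u, Set.mem_image_of_mem e hu, (h.adj _ _).1 huw⟩
  · rintro ⟨_, ⟨u, hu, rfl⟩, huv⟩
    refine ⟨e.symm v, ⟨u, hu, (h.adj _ _).2 ?_⟩, Equiv.apply_symm_apply e v⟩
    rwa [Equiv.apply_symm_apply]

theorem Tr.bd (h : Tr L L' e) (D C : Set Pt) : e '' L'.bd D C = L.bd (e '' D) (e '' C) := by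
  have h1 : L'.bd D C = D ∩ L'.nb C := rfl
  have h2 : L.bd (e '' D) (e '' C) = e '' D ∩ L.nb (e '' C) := rfl
  rw [h1, h2, Set.image_inter e.injective, h.nb]

theorem Tr.arm (h : Tr L L' e) (c : Bool) (D X Y : Set Pt) (ω : Cfg) :
    L'.Arm c D X Y (via e ω) ↔ L.Arm c (e '' D) (e '' X) (e '' Y) ω := by
  constructor
  · rintro ⟨x, hx, y, hy, hc⟩
    refine ⟨e x, Set.mem_image_of_mem e hx, e y, Set.mem_image_of_mem e hy, ?_⟩
    have h1 := (h.cn _ x y).1 hc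
    rwa [Set.image_inter e.injective, h.col] at h1
  · rintro ⟨_, ⟨x, hx, rfl⟩, _, ⟨y, hy, rfl⟩, hc⟩
    refine ⟨x, hx, y, hy, (h.cn _ x y).2 ?_⟩
    rw [Set.image_inter e.injective, h.col]
    exact hc

theorem Tr.two (h : Tr L L' e) (c : Bool) (D X Y : Set Pt) (ω : Cfg) :
    L'.Two c D X Y (via e ω) ↔ L.Two c (e '' D) (e '' X) (e '' Y) ω := by
  have key : ∀ u v, L'.Cn (D ∩ L'.col c (via e ω)) u v ↔
      L.Cn (e '' D ∩ L.col c ω) (e u) (e v) := by
    intro u v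
    rw [h.cn, Set.image_inter e.injective, h.col]
  constructor
  · rintro ⟨x, hx, y, hy, x', hx', y', hy', h1, h2, h3⟩
    exact ⟨e x, Set.mem_image_of_mem e hx, e y, Set.mem_image_of_mem e hy,
      e x', Set.mem_image_of_mem e hx', e y', Set.mem_image_of_mem e hy',
      (key _ _).1 h1, (key _ _).1 h2, fun h4 => h3 ((key _ _).2 h4)⟩
  · rintro ⟨_, ⟨x, hx, rfl⟩, _, ⟨y, hy, rfl⟩, _, ⟨x', hx', rfl⟩, _, ⟨y', hy', rfl⟩, h1, h2, h3⟩
    exact ⟨x, hx, y, hy, x', hx', y', hy', (key _ _).2 h1, (key _ _).2 h2,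
      fun h4 => h3 ((key _ _).1 h4)⟩

theorem Tr.clus (h : Tr L L' e) (c : Bool) (D S : Set Pt) (ω : Cfg) :
    e '' L'.cl c D S (via e ω) = L.cl c (e '' D) (e '' S) ω := by
  have key : ∀ u v, L'.Cn (D ∩ L'.col c (via e ω)) u v ↔
      L.Cn (e '' D ∩ L.col c ω) (e u) (e v) := by
    intro u v
    rw [h.cn, Set.image_inter e.injective, h.col]
  ext v
  constructor
  · rintro ⟨w, ⟨u, hu, huw⟩, rfl⟩
    refine ⟨e u, ?_, (key _ _).1 huw⟩
    rw [← h.nb]
    exact Set.mem_image_of_mem e hu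
  · rintro ⟨u, hu, huv⟩
    rw [← h.nb] at hu
    obtain ⟨w, hw, rfl⟩ := hu
    refine ⟨e.symm v, ⟨w, hw, (key _ _).2 ?_⟩, Equiv.apply_symm_apply e v⟩
    rwa [Equiv.apply_symm_apply]

theorem pr_via {A : Cfg → Prop} (hA : Loc A) (e : Equiv.Perm Pt) :
    pr (fun ω => A (via e ω)) = pr A := by
  exact pr_equiv hA e

theorem ex_via {g : Cfg → ℝ} (hg : Lf g) (e : Equiv.Perm Pt) :
    ex (fun ω => g (via e ω)) = ex g := by
  exact ex_equiv hg e

private theorem gen {L L' : Lat} {e : Equiv.Perm Pt} (h : Tr L L' e) (c : Bool) (D : Set Pt)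
    (P Q : Pt → Prop) (ω : Cfg) :
    (∃ u v, P u ∧ Q v ∧ L'.Cn (D ∩ L'.col c (via e ω)) u v) ↔
      ∃ u v, P (e.symm u) ∧ Q (e.symm v) ∧ L.Cn (e '' D ∩ L.col c ω) u v := by
  constructor
  · rintro ⟨u, v, hu, hv, hc⟩
    refine ⟨e u, e v, by rwa [Equiv.symm_apply_apply], by rwa [Equiv.symm_apply_apply], ?_⟩
    have h1 := (h.cn _ u v).1 hc
    rwa [Set.image_inter e.injective, h.col] at h1
  · rintro ⟨u, v, hu, hv, hc⟩
    refine ⟨e.symm u, e.symm v, hu, hv, (h.cn _ _ _).2 ?_⟩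
    rw [Set.image_inter e.injective, h.col, Equiv.apply_symm_apply, Equiv.apply_symm_apply]
    exact hc

private theorem img_eq {e : Equiv.Perm Pt} {A B : Set Pt} (h : ∀ v, e v ∈ B ↔ v ∈ A) :
    e '' A = B := by
  ext v
  constructor
  · rintro ⟨w, hw, rfl⟩
    exact (h w).2 hw
  · intro hv
    refine ⟨e.symm v, (h _).1 ?_, Equiv.apply_symm_apply e v⟩
    rwa [Equiv.apply_symm_apply]

/-- the four arm event is invariant under rotations -/
theorem rots_twoA (L : Lat) (s : ℤ) (c : Bool) (r R : ℤ) (ω : Cfg) :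
    (L.rots s).TwoA c r R (via (rt s) ω) ↔ L.TwoA c r R ω := by
  unfold Lat.TwoA
  have e1 : rt s '' ann r R = ann r R := img_eq fun v => by
    show (r < nrm (rt s v) ∧ nrm (rt s v) ≤ R) ↔ (r < nrm v ∧ nrm v ≤ R)
    rw [nrm_rt]
  have e2 : rt s '' bx r = bx r := img_eq fun v => by
    show nrm (rt s v) ≤ r ↔ nrm v ≤ r
    rw [nrm_rt]
  have e3 : rt s '' rng R = rng R := img_eq fun v => by
    show nrm (rt s v) = R ↔ nrm v = R
    rw [nrm_rt]
  rw [(tr_rots L s).two, (tr_rots L s).nb, e1, e2, e3]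

/-- exchange of the colours -/
theorem sw_arm (L : Lat) (c : Bool) (D X Y : Set Pt) (ω : Cfg) :
    L.sw.Arm c D X Y (fun v => ! ω v) ↔ L.Arm (!c) D X Y ω := by
  have h1 : L.sw.col c (fun v => ! ω v) = L.col (!c) ω := by
    rw [Lat.sw_col]
    simp only [Bool.not_not]
  unfold Lat.Arm
  rw [h1]
  exact Iff.rfl

theorem sw_two (L : Lat) (c : Bool) (D X Y : Set Pt) (ω : Cfg) :
    L.sw.Two c D X Y (fun v => ! ω v) ↔ L.Two (!c) D X Y ω := by
  have h1 : L.sw.col c (fun v => ! ω v) = L.col (!c) ω := by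
    rw [Lat.sw_col]
    simp only [Bool.not_not]
  unfold Lat.Two
  rw [h1]
  exact Iff.rfl

theorem tr_hx (L : Lat) (c : Bool) (a b p q : ℤ) (ω : Cfg) :
    L.tr.HX c a b p q (via (Equiv.prodComm ℤ ℤ) ω) ↔ L.VX c p q a b ω := by
  have e1 : (Equiv.prodComm ℤ ℤ) '' rect a b p q = rect p q a b := img_eq fun v => by
    show ((p ≤ v.2 ∧ v.2 ≤ q) ∧ a ≤ v.1 ∧ v.1 ≤ b) ↔ ((a ≤ v.1 ∧ v.1 ≤ b) ∧ p ≤ v.2 ∧ v.2 ≤ q)
    exact and_comm
  unfold Lat.HX Lat.VX
  rw [gen (tr_tr L) c (rect a b p q) (fun u => u.1 = a) (fun v => v.1 = b) ω, e1]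
  exact Iff.rfl

theorem tr_vx (L : Lat) (c : Bool) (a b p q : ℤ) (ω : Cfg) :
    L.tr.VX c a b p q (via (Equiv.prodComm ℤ ℤ) ω) ↔ L.HX c p q a b ω := by
  have e1 : (Equiv.prodComm ℤ ℤ) '' rect a b p q = rect p q a b := img_eq fun v => by
    show ((p ≤ v.2 ∧ v.2 ≤ q) ∧ a ≤ v.1 ∧ v.1 ≤ b) ↔ ((a ≤ v.1 ∧ v.1 ≤ b) ∧ p ≤ v.2 ∧ v.2 ≤ q)
    exact and_comm
  unfold Lat.HX Lat.VX
  rw [gen (tr_tr L) c (rect a b p q) (fun u => u.2 = p) (fun v => v.2 = q) ω, e1]
  exact Iff.rfl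

theorem rx_hx (L : Lat) (c : Bool) (a b p q : ℤ) (ω : Cfg) :
    L.rx.HX c a b p q (via rxE ω) ↔ L.HX c (-b) (-a) p q ω := by
  have e1 : rxE '' rect a b p q = rect (-b) (-a) p q := img_eq fun v => by
    show ((-b ≤ -v.1 ∧ -v.1 ≤ -a) ∧ p ≤ v.2 ∧ v.2 ≤ q) ↔ ((a ≤ v.1 ∧ v.1 ≤ b) ∧ p ≤ v.2 ∧ v.2 ≤ q)
    rw [neg_le_neg_iff, neg_le_neg_iff, and_comm (a := v.1 ≤ b)]
  unfold Lat.HX
  rw [gen (tr_rx L) c (rect a b p q) (fun u => u.1 = a) (fun v => v.1 = b) ω, e1]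
  constructor
  · rintro ⟨u, v, hu, hv, hc⟩
    have hu' : -u.1 = a := hu
    have hv' : -v.1 = b := hv
    exact ⟨v, u, by rw [← hv', neg_neg], by rw [← hu', neg_neg], hc.symm⟩
  · rintro ⟨u, v, hu, hv, hc⟩
    refine ⟨v, u, ?_, ?_, hc.symm⟩
    · show -v.1 = a
      rw [hv, neg_neg]
    · show -u.1 = b
      rw [hu, neg_neg]

theorem rx_vx (L : Lat) (c : Bool) (a b p q : ℤ) (ω : Cfg) :
    L.rx.VX c a b p q (via rxE ω) ↔ L.VX c (-b) (-a) p q ω := by
  have e1 : rxE '' rect a b p q = rect (-b) (-a) p q := img_eq fun v => by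
    show ((-b ≤ -v.1 ∧ -v.1 ≤ -a) ∧ p ≤ v.2 ∧ v.2 ≤ q) ↔ ((a ≤ v.1 ∧ v.1 ≤ b) ∧ p ≤ v.2 ∧ v.2 ≤ q)
    rw [neg_le_neg_iff, neg_le_neg_iff, and_comm (a := v.1 ≤ b)]
  unfold Lat.VX
  rw [gen (tr_rx L) c (rect a b p q) (fun u => u.2 = p) (fun v => v.2 = q) ω, e1]
  exact Iff.rfl

theorem ry_hx (L : Lat) (c : Bool) (a b p q : ℤ) (ω : Cfg) :
    L.ry.HX c a b p q (via ryE ω) ↔ L.HX c a b (-q) (-p) ω := by
  have e1 : ryE '' rect a b p q = rect a b (-q) (-p) := img_eq fun v => by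
    show ((a ≤ v.1 ∧ v.1 ≤ b) ∧ -q ≤ -v.2 ∧ -v.2 ≤ -p) ↔ ((a ≤ v.1 ∧ v.1 ≤ b) ∧ p ≤ v.2 ∧ v.2 ≤ q)
    rw [neg_le_neg_iff, neg_le_neg_iff, and_comm (a := v.2 ≤ q)]
  unfold Lat.HX
  rw [gen (tr_ry L) c (rect a b p q) (fun u => u.1 = a) (fun v => v.1 = b) ω, e1]
  exact Iff.rfl

theorem ry_vx (L : Lat) (c : Bool) (a b p q : ℤ) (ω : Cfg) :
    L.ry.VX c a b p q (via ryE ω) ↔ L.VX c a b (-q) (-p) ω := by
  have e1 : ryE '' rect a b p q = rect a b (-q) (-p) := img_eq fun v => by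
    show ((a ≤ v.1 ∧ v.1 ≤ b) ∧ -q ≤ -v.2 ∧ -v.2 ≤ -p) ↔ ((a ≤ v.1 ∧ v.1 ≤ b) ∧ p ≤ v.2 ∧ v.2 ≤ q)
    rw [neg_le_neg_iff, neg_le_neg_iff, and_comm (a := v.2 ≤ q)]
  unfold Lat.VX
  rw [gen (tr_ry L) c (rect a b p q) (fun u => u.2 = p) (fun v => v.2 = q) ω, e1]
  constructor
  · rintro ⟨u, v, hu, hv, hc⟩
    have hu' : -u.2 = p := hu
    have hv' : -v.2 = q := hv
    exact ⟨v, u, by rw [← hv', neg_neg], by rw [← hu', neg_neg], hc.symm⟩
  · rintro ⟨u, v, hu, hv, hc⟩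
    refine ⟨v, u, ?_, ?_, hc.symm⟩
    · show -v.2 = p
      rw [hv, neg_neg]
    · show -u.2 = q
      rw [hu, neg_neg]

theorem shift_hx (L : Lat) (x : Pt) (c : Bool) (a b p q : ℤ) (ω : Cfg) :
    (L.shift x).HX c a b p q (via (Equiv.addRight x) ω) ↔
      L.HX c (a + x.1) (b + x.1) (p + x.2) (q + x.2) ω := by
  have e1 : (Equiv.addRight x) '' rect a b p q = rect (a + x.1) (b + x.1) (p + x.2) (q + x.2) :=
    img_eq fun v => by
      show ((a + x.1 ≤ v.1 + x.1 ∧ v.1 + x.1 ≤ b + x.1) ∧ p + x.2 ≤ v.2 + x.2 ∧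
        v.2 + x.2 ≤ q + x.2) ↔ ((a ≤ v.1 ∧ v.1 ≤ b) ∧ p ≤ v.2 ∧ v.2 ≤ q)
      simp only [add_le_add_iff_right]
  unfold Lat.HX
  rw [gen (tr_shift L x) c (rect a b p q) (fun u => u.1 = a) (fun v => v.1 = b) ω, e1]
  refine exists_congr fun u => exists_congr fun v => ?_
  have h1 : ((Equiv.addRight x).symm u).1 = a ↔ u.1 = a + x.1 := by
    show u.1 + (-x).1 = a ↔ u.1 = a + x.1
    rw [Prod.fst_neg]
    constructor <;> intro h <;> linarith
  have h2 : ((Equiv.addRight x).symm v).1 = b ↔ v.1 = b + x.1 := by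
    show v.1 + (-x).1 = b ↔ v.1 = b + x.1
    rw [Prod.fst_neg]
    constructor <;> intro h <;> linarith
  rw [h1, h2]

theorem shift_vx (L : Lat) (x : Pt) (c : Bool) (a b p q : ℤ) (ω : Cfg) :
    (L.shift x).VX c a b p q (via (Equiv.addRight x) ω) ↔
      L.VX c (a + x.1) (b + x.1) (p + x.2) (q + x.2) ω := by
  have e1 : (Equiv.addRight x) '' rect a b p q = rect (a + x.1) (b + x.1) (p + x.2) (q + x.2) :=
    img_eq fun v => by
      show ((a + x.1 ≤ v.1 + x.1 ∧ v.1 + x.1 ≤ b + x.1) ∧ p + x.2 ≤ v.2 + x.2 ∧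
        v.2 + x.2 ≤ q + x.2) ↔ ((a ≤ v.1 ∧ v.1 ≤ b) ∧ p ≤ v.2 ∧ v.2 ≤ q)
      simp only [add_le_add_iff_right]
  unfold Lat.VX
  rw [gen (tr_shift L x) c (rect a b p q) (fun u => u.2 = p) (fun v => v.2 = q) ω, e1]
  refine exists_congr fun u => exists_congr fun v => ?_
  have h1 : ((Equiv.addRight x).symm u).2 = p ↔ u.2 = p + x.2 := by
    show u.2 + (-x).2 = p ↔ u.2 = p + x.2
    rw [Prod.snd_neg]
    constructor <;> intro h <;> linarith
  have h2 : ((Equiv.addRight x).symm v).2 = q ↔ v.2 = q + x.2 := by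
    show v.2 + (-x).2 = q ↔ v.2 = q + x.2
    rw [Prod.snd_neg]
    constructor <;> intro h <;> linarith
  rw [h1, h2]

end SC

end

/-! ### from `Lib_MP_e0a489.Defs2` -/

section

/-!
# MP_e0a489: definitions for the percolation part (circuits, exploration, zones, separated events)
-/

set_option autoImplicit false

namespace SC

open Classical

/-! ### Rings, blocks, cells -/

/-- the sites of the ring of radius `m ≥ 1`, counterclockwise, `rc m 0 = (m, 0)`, period `8 m`;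
`rc m (2 * m * s + k) = rt s (m, k)` for `|k| ≤ m` -/
def rc (m i : ℤ) : Pt := rt ((i + m) / (2 * m)) (m, i - 2 * m * ((i + m) / (2 * m)))

/-- the block number `z` of side `w` (`w` odd, block `0` is centred at the origin) -/
def blk (w : ℤ) (z : Pt) : Set Pt :=
  rect (z.1 * w - w / 2) (z.1 * w + w / 2) (z.2 * w - w / 2) (z.2 * w + w / 2)

/-! ### Zones

`J s R`: landing zone outside `bx R` in direction `s` (`s = 0, 1, 2, 3`: right, top, left, bottom), `Je s R` its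
far side.  `K s r`: landing zone inside `bx r`, `Ks s r` its inner side.  Open arms use the
directions `0, 2`, closed arms the directions `1, 3`. -/

def J (s R : ℤ) : Set Pt := rt s '' rect (R + 1) (2 * R) (-(R / 4)) (R / 4)

def Je (s R : ℤ) : Set Pt := rt s '' rect (2 * R) (2 * R) (-(R / 4)) (R / 4)

def K (s r : ℤ) : Set Pt := rt s '' rect (r / 2 + 1) r (-(r / 8)) (r / 8)

def Ks (s r : ℤ) : Set Pt := rt s '' rect (r / 2 + 1) (r / 2 + 1) (-(r / 8)) (r / 8)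

/-- first direction of the colour: `0` for open, `1` for closed -/
def dc (c : Bool) : ℤ := if c then 0 else 1

/-- both outer zones of the colour `c` -/
def Jc (c : Bool) (R : ℤ) : Set Pt := J (dc c) R ∪ J (dc c + 2) R

/-- both inner zones of the colour `c` -/
def Kc (c : Bool) (r : ℤ) : Set Pt := K (dc c) r ∪ K (dc c + 2) r

namespace Lat

/-- circuit of colour `c` in the annulus `ann r R` (crossings of four rectangles) -/
def Circ (L : Lat) (c : Bool) (r R : ℤ) (ω : Cfg) : Prop :=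
  L.HX c (-R) R (r + 1) R ω ∧ L.HX c (-R) R (-R) (-r - 1) ω ∧
    L.VX c (-R) (-r - 1) (-R) R ω ∧ L.VX c (r + 1) R (-R) R ω

/-- `σ` is connected, lies in `ann r R` and separates `bx r` from the outside -/
def Sep (L : Lat) (σ : Set Pt) (r R : ℤ) : Prop :=
  L.Con σ ∧ σ ⊆ ann r R ∧ ∀ P : Set Pt, L.Con P → (∃ v ∈ P, v ∈ bx r ∪ L.nb (bx r)) →
    (∃ v ∈ P, R ≤ nrm v) → (σ ∩ P).Nonempty

/-- half circuit of colour `c` in the half annulus `{r < nrm (v - (x,0)) ≤ R, 0 ≤ v.2}` -/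
def HC (L : Lat) (c : Bool) (x r R : ℤ) (ω : Cfg) : Prop :=
  L.VX c (x - R) (x - r - 1) 0 R ω ∧ L.HX c (x - R) (x + R) (r + 1) R ω ∧
    L.VX c (x + r + 1) (x + R) 0 R ω

/-- exploration: the source `S` together with all clusters of colour `c` in `M \ S` attached to it -/
def Cx (L : Lat) (c : Bool) (M S : Set Pt) (ω : Cfg) : Set Pt := S ∪ L.cl c (M \ S) S ω

/-- the explored sites -/
def Rev (L : Lat) (c : Bool) (M S : Set Pt) (ω : Cfg) : Set Pt :=
  L.Cx c M S ω ∪ L.bd M (L.Cx c M S ω)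

/-! ### Separated events -/

/-- four arms from `bx r` to the far sides of the zones `J s R` -/
def Sout (L : Lat) (r R : ℤ) (ω : Cfg) : Prop :=
  ∀ c : Bool, L.Arm c (ann r R ∪ Jc c R) (L.nb (bx r)) (Je (dc c) R) ω ∧
    L.Arm c (ann r R ∪ Jc c R) (L.nb (bx r)) (Je (dc c + 2) R) ω

/-- the two arms of colour `c` from the inner zones to the outer zones (in one of the two possible
pairings) -/
def Pairs (L : Lat) (c : Bool) (r R : ℤ) (ω : Cfg) : Prop :=
  (L.Arm c (ann r R ∪ Jc c R ∪ Kc c r) (Ks (dc c) r) (Je (dc c) R) ω ∧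
    L.Arm c (ann r R ∪ Jc c R ∪ Kc c r) (Ks (dc c + 2) r) (Je (dc c + 2) R) ω) ∨
  (L.Arm c (ann r R ∪ Jc c R ∪ Kc c r) (Ks (dc c) r) (Je (dc c + 2) R) ω ∧
    L.Arm c (ann r R ∪ Jc c R ∪ Kc c r) (Ks (dc c + 2) r) (Je (dc c) R) ω)

/-- separated four arm event -/
def S4 (L : Lat) (r R : ℤ) (ω : Cfg) : Prop := L.Pairs true r R ω ∧ L.Pairs false r R ω

/-- the four arm event around the site `x` -/
def TwoAt (L : Lat) (c : Bool) (x : Pt) (r R : ℤ) (ω : Cfg) : Prop :=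
  (L.shift x).TwoA c r R (via (Equiv.addRight x) ω)

/-- two clusters of colour `c` crossing the half annulus `ann r R ∩ H` (`H` a half plane, see `HalfLike`) -/
def TwoH (L : Lat) (c : Bool) (H : Set Pt) (r R : ℤ) (ω : Cfg) : Prop :=
  L.Two c (ann r R ∩ H) (L.nb (bx r)) (rng R) ω

/-- arms of both colours crossing the quarter annulus `ann r R ∩ H` (`H` a quarter plane, see
`QuartLike`) -/
def TwoQ (L : Lat) (H : Set Pt) (r R : ℤ) (ω : Cfg) : Prop :=
  ∀ c : Bool, L.Arm c (ann r R ∩ H) (L.nb (bx r)) (rng R) ω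

end Lat

/-- upper half plane with arbitrary sites of the boundary row (for the triangular lattice one side of
the square is jagged) -/
def HalfLike (H : Set Pt) : Prop := {v | 1 ≤ v.2} ⊆ H ∧ H ⊆ {v | 0 ≤ v.2}

/-- quarter plane with arbitrary sites of the two boundary lines -/
def QuartLike (H : Set Pt) : Prop :=
  {v | 1 ≤ v.1 ∧ 1 ≤ v.2} ⊆ H ∧ H ⊆ {v | 0 ≤ v.1 ∧ 0 ≤ v.2}

/-- correlation `0` in `bx (8 r)` and outside `bx (R / 4)` -/
noncomputable def kz (k : Pt → ℝ) (r R : ℤ) : Pt → ℝ :=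
  fun v => if nrm v ≤ 8 * r ∨ R / 4 < nrm v then 0 else k v

/-- Symmetries used for the half plane, the corner and the final argument: period 2 in both
directions; the exchange of the colours and the two reflections are translations of the lattice.
(`Z2`: doubled square lattice; also the triangular lattice drawn with alternating rows.) -/
structure Fam (L : Lat) (κ : ℕ → ℝ) : Prop where
  rsw : RSW L κ
  per1 : L.shift (2, 0) = L
  per2 : L.shift (0, 2) = L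
  sw : ∃ x, L.sw = L.shift x
  rx : ∃ x, L.rx = L.shift x
  ry : ∃ x, L.ry = L.shift x

/-- four arm probability (`1` if the annulus is empty) -/
noncomputable def al (L : Lat) (r R : ℤ) : ℝ := if r < R then pr (L.TwoA true r R) else 1

/-- constant correlation `exp (-t)` -/
noncomputable def kt (t : ℝ) : Pt → ℝ := fun _ => Real.exp (-t)

end SC

end

/-! ### from `Lib_MP_e0a489.TTD` -/

section

/-!
# MP_e0a489, module TT: definitions
-/

set_option autoImplicit false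

namespace SC

open Classical

/-- The lattice `L` can be made pivotal at the origin by a fixed configuration `ξ` of the other sites of
`bx m`: every site of colour `cs s` (open for `s` even, closed for `s` odd) in the middle part of side
`s` of the ring `m + 1` is joined in this colour, in `bx (m+1)` minus the origin, to a neighbour of the
origin. -/
def CoreOK (L : Lat) (m : ℤ) : Prop :=
  L.typ 0 = none ∧ ∃ ξ : Cfg, ∀ ω : Cfg, (∀ v ∈ bx m, v ≠ 0 → ω v = ξ v) →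
    ∀ (c : Bool) (s y : ℤ), (s = dc c ∨ s = dc c + 2) → 2 * |y| ≤ m →
      rt s (m + 1, y) ∈ L.col c ω →
      ∃ z, L.Adj 0 z ∧ L.Cn ((bx (m + 1) \ {0}) ∩ L.col c ω) (rt s (m + 1, y)) z

/-- `t ≥ 1 / (ℓ² α(ℓ))` (`al` from radius `R₀`) -/
def Beyond (L : Lat) (R₀ ℓ : ℤ) (t : ℝ) : Prop := 1 ≤ t * ((ℓ : ℝ) ^ 2 * al L R₀ ℓ)

/-- two-time four arm probability (`1` if the annulus is empty) -/
noncomputable def be (L : Lat) (t : ℝ) (r R : ℤ) : ℝ :=
  if r < R then pr2 (kt t) (L.TwoA true r R) else 1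

/-- two-time bound beyond the correlation length, bulk -/
def BulkOK (L : Lat) (M : ℝ) (Λ R₀ : ℤ) : Prop :=
  ∀ (ℓ : ℤ) (t : ℝ), R₀ ≤ ℓ → Beyond L R₀ ℓ t → ∀ (c : Bool) (x : Pt) (r R : ℤ),
    Λ * ℓ ≤ r → r ≤ R → pr2 (kt t) (L.TwoAt c x r R) ≤ M * (al L r R) ^ 2

/-- half plane -/
def HalfOK (L : Lat) (M : ℝ) (Λ R₀ : ℤ) : Prop :=
  ∀ (ℓ : ℤ) (t : ℝ), R₀ ≤ ℓ → Beyond L R₀ ℓ t → ∀ (s : ℤ) (c : Bool) (x : Pt)
    (H : Set Pt) (r R : ℤ), HalfLike H → Λ * ℓ ≤ r → r ≤ R →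
      pr2 (kt t) (((L.rots s).shift x).TwoH c H r R) ≤ M * (al L r R) ^ ((3 : ℝ) / 2)

/-- corner -/
def QuartOK (L : Lat) (M : ℝ) (Λ R₀ : ℤ) : Prop :=
  ∀ (ℓ : ℤ) (t : ℝ), R₀ ≤ ℓ → Beyond L R₀ ℓ t → ∀ (s : ℤ) (x : Pt) (H : Set Pt)
    (r R : ℤ), QuartLike H → Λ * ℓ ≤ r → r ≤ R →
      pr2 (kt t) (((L.rots s).shift x).TwoQ H r R) ≤ M * al L r R

/-- TWO-TIME BOUNDS.  `M`, `Λ`, `R₀` depend on `L`. -/
structure TTProps (L : Lat) (M : ℝ) (Λ R₀ : ℤ) : Prop where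
  bulk : ∀ (ℓ : ℤ) (t : ℝ), R₀ ≤ ℓ → Beyond L R₀ ℓ t → ∀ (c : Bool) (x : Pt) (r R : ℤ),
    Λ * ℓ ≤ r → r ≤ R → pr2 (kt t) (L.TwoAt c x r R) ≤ M * (al L r R) ^ 2
  half : ∀ (ℓ : ℤ) (t : ℝ), R₀ ≤ ℓ → Beyond L R₀ ℓ t → ∀ (s : ℤ) (c : Bool) (x : Pt)
    (H : Set Pt) (r R : ℤ), HalfLike H → Λ * ℓ ≤ r → r ≤ R →
      pr2 (kt t) (((L.rots s).shift x).TwoH c H r R) ≤ M * (al L r R) ^ ((3 : ℝ) / 2)
  quart : ∀ (ℓ : ℤ) (t : ℝ), R₀ ≤ ℓ → Beyond L R₀ ℓ t → ∀ (s : ℤ) (x : Pt) (H : Set Pt)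
    (r R : ℤ), QuartLike H → Λ * ℓ ≤ r → r ≤ R →
      pr2 (kt t) (((L.rots s).shift x).TwoQ H r R) ≤ M * al L r R

/-- BEYOND THE CORRELATION LENGTH the four arm event at both times has an exponent larger than two, uniformly:
`C`, `c` do not depend on `ℓ`, `t`. -/
def KBOK (L : Lat) (C c : ℝ) (R₀ : ℤ) : Prop :=
  ∀ (ℓ : ℤ) (t : ℝ), R₀ ≤ ℓ → Beyond L R₀ ℓ t → ∀ (b : Bool) (x : Pt) (r R : ℤ),
    ℓ ≤ r → r ≤ R → pr2 (kt t) (L.TwoAt b x r R) ≤ C * ((r : ℝ) / R) ^ (2 + c)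

end SC

end

/-! ### from `Lib_MP_e0a489.SE3` -/

section

/-!
# MP_e0a489, module SE 3: rotated rectangles (zones)
-/

set_option autoImplicit false

namespace SC

open Classical

/-- rectangle `[a,b] × [-h,h]` rotated by `90 s` degrees -/
def Zn (s a b h : ℤ) : Set Pt := rt s '' rect a b (-h) h

/-- its two long sides -/
def Zlo (s a b h : ℤ) : Set Pt := rt s '' rect a b (-h) (-h)

def Zhi (s a b h : ℤ) : Set Pt := rt s '' rect a b h h

theorem J_eq (s R : ℤ) : J s R = Zn s (R + 1) (2 * R) (R / 4) := rfl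

theorem Je_eq (s R : ℤ) : Je s R = Zn s (2 * R) (2 * R) (R / 4) := rfl

theorem K_eq (s r : ℤ) : K s r = Zn s (r / 2 + 1) r (r / 8) := rfl

theorem Ks_eq (s r : ℤ) : Ks s r = Zn s (r / 2 + 1) (r / 2 + 1) (r / 8) := rfl

/-- depends only on `s` modulo 4 (`rt_mod`) -/
theorem Zn_mod {s s' : ℤ} (h : s % 4 = s' % 4) (a b w : ℤ) : Zn s a b w = Zn s' a b w := by
  unfold Zn
  rw [rt_mod h]

/-- membership, direction 0 (`rt_zero`) -/
theorem mem_Zn0 {a b h : ℤ} {v : Pt} :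
    v ∈ Zn 0 a b h ↔ a ≤ v.1 ∧ v.1 ≤ b ∧ -h ≤ v.2 ∧ v.2 ≤ h := by
  constructor
  · rintro ⟨p, ⟨⟨h1, h2⟩, h3, h4⟩, rfl⟩
    rw [rt_zero]
    exact ⟨h1, h2, h3, h4⟩
  · rintro ⟨h1, h2, h3, h4⟩
    exact ⟨v, ⟨⟨h1, h2⟩, h3, h4⟩, rt_zero v⟩

/-- direction 1: `rt 1 (x, y) = (-y, x)` -/
theorem mem_Zn1 {a b h : ℤ} {v : Pt} :
    v ∈ Zn 1 a b h ↔ a ≤ v.2 ∧ v.2 ≤ b ∧ -h ≤ v.1 ∧ v.1 ≤ h := by
  constructor
  · rintro ⟨p, ⟨⟨h1, h2⟩, h3, h4⟩, rfl⟩
    rw [rt_one]
    refine ⟨h1, h2, ?_, ?_⟩ <;> simp only <;> omega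
  · rintro ⟨h1, h2, h3, h4⟩
    refine ⟨(v.2, -v.1), ⟨⟨h1, h2⟩, ?_, ?_⟩, ?_⟩
    · simp only; omega
    · simp only; omega
    · rw [rt_one]
      simp only [neg_neg]

theorem mem_Zn2 {a b h : ℤ} {v : Pt} :
    v ∈ Zn 2 a b h ↔ a ≤ -v.1 ∧ -v.1 ≤ b ∧ -h ≤ v.2 ∧ v.2 ≤ h := by
  constructor
  · rintro ⟨p, ⟨⟨h1, h2⟩, h3, h4⟩, rfl⟩
    rw [rt_two]
    refine ⟨?_, ?_, ?_, ?_⟩ <;> simp only <;> omega
  · rintro ⟨h1, h2, h3, h4⟩
    refine ⟨(-v.1, -v.2), ⟨⟨h1, h2⟩, ?_, ?_⟩, ?_⟩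
    · simp only; omega
    · simp only; omega
    · rw [rt_two]
      simp only [neg_neg]

theorem mem_Zn3 {a b h : ℤ} {v : Pt} :
    v ∈ Zn 3 a b h ↔ a ≤ -v.2 ∧ -v.2 ≤ b ∧ -h ≤ v.1 ∧ v.1 ≤ h := by
  constructor
  · rintro ⟨p, ⟨⟨h1, h2⟩, h3, h4⟩, rfl⟩
    rw [rt_three]
    refine ⟨?_, ?_, ?_, ?_⟩ <;> simp only <;> omega
  · rintro ⟨h1, h2, h3, h4⟩
    refine ⟨(-v.2, v.1), ⟨⟨h1, h2⟩, h3, h4⟩, ?_⟩
    rw [rt_three]
    simp only [neg_neg]

private theorem Zn_cases (s a b h : ℤ) :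
    (s % 4 = 0 ∧ Zn s a b h = Zn 0 a b h) ∨ (s % 4 = 1 ∧ Zn s a b h = Zn 1 a b h) ∨
      (s % 4 = 2 ∧ Zn s a b h = Zn 2 a b h) ∨ (s % 4 = 3 ∧ Zn s a b h = Zn 3 a b h) := by
  have h4 : s % 4 = 0 ∨ s % 4 = 1 ∨ s % 4 = 2 ∨ s % 4 = 3 := by omega
  rcases h4 with h4 | h4 | h4 | h4
  · exact Or.inl ⟨h4, Zn_mod (by omega) _ _ _⟩
  · exact Or.inr (Or.inl ⟨h4, Zn_mod (by omega) _ _ _⟩)
  · exact Or.inr (Or.inr (Or.inl ⟨h4, Zn_mod (by omega) _ _ _⟩))
  · exact Or.inr (Or.inr (Or.inr ⟨h4, Zn_mod (by omega) _ _ _⟩))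

theorem Zn_mono {s a b h a' b' h' : ℤ} (ha : a' ≤ a) (hb : b ≤ b') (hh : h ≤ h') :
    Zn s a b h ⊆ Zn s a' b' h' := by
  rintro v ⟨p, ⟨⟨h1, h2⟩, h3, h4⟩, rfl⟩
  exact ⟨p, ⟨⟨by omega, by omega⟩, by omega, by omega⟩, rfl⟩

/-- If `h ≤ a` the sup norm of `rt s (x, y)` is `x` (`nrm_rt`). -/
theorem Zn_nrm {s a b h : ℤ} (ha : h ≤ a) (hh : 0 ≤ h) {v : Pt} (hv : v ∈ Zn s a b h) :
    a ≤ nrm v ∧ nrm v ≤ b := by
  obtain ⟨p, ⟨⟨h1, h2⟩, h3, h4⟩, rfl⟩ := hv
  rw [nrm_rt]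
  unfold nrm
  have h5 : |p.2| ≤ h := abs_le.2 ⟨h3, h4⟩
  have h6 : |p.1| = p.1 := abs_of_nonneg (by omega)
  rw [h6, max_eq_left (by omega)]
  exact ⟨h1, h2⟩

theorem Zn_finite (s a b h : ℤ) : (Zn s a b h).Finite := by
  refine Set.Finite.image _ ?_
  refine Set.Finite.subset (Finset.finite_toSet (Finset.Icc a b ×ˢ Finset.Icc (-h) h)) ?_
  rintro v ⟨h1, h2⟩
  rw [Finset.mem_coe, Finset.mem_product, Finset.mem_Icc, Finset.mem_Icc]
  exact ⟨h1, h2⟩

/-- Rotated rectangles in different directions are disjoint: reduce `s`, `s'` to `0, 1, 2, 3` (`Zn_mod`), `mem_Zn0` ...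
`mem_Zn3`, `omega`.  (Perpendicular directions: the third hypothesis; opposite directions: `a, a' > 0`.) -/
theorem Zn_disj {s s' a b h a' b' h' : ℤ} (hs : s % 4 ≠ s' % 4) (h1 : h < a) (h2 : h' < a')
    (h3 : h < a' ∨ h' < a) {v : Pt} (hv : v ∈ Zn s a b h) : v ∉ Zn s' a' b' h' := by
  intro hv'
  rcases Zn_cases s a b h with ⟨e1, e2⟩ | ⟨e1, e2⟩ | ⟨e1, e2⟩ | ⟨e1, e2⟩ <;>
  rcases Zn_cases s' a' b' h' with ⟨f1, f2⟩ | ⟨f1, f2⟩ | ⟨f1, f2⟩ | ⟨f1, f2⟩ <;>
  rw [e2] at hv <;> rw [f2] at hv' <;>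
  simp only [mem_Zn0, mem_Zn1, mem_Zn2, mem_Zn3] at hv hv' <;> omega

/-- The parts `{v : 1 ≤ radial coordinate}` of two opposite directions are not adjacent (`Adj.near`). -/
theorem Zn_not_adj {L : Lat} {s a b h a' b' h' : ℤ} (ha : 1 ≤ a) (ha' : 1 ≤ a') {u v : Pt}
    (hu : u ∈ Zn s a b h) (hv : v ∈ Zn (s + 2) a' b' h') : ¬ L.Adj u v := by
  intro hadj
  obtain ⟨n1, n2⟩ := hadj.near
  rw [abs_le] at n1 n2
  rcases Zn_cases s a b h with ⟨e1, e2⟩ | ⟨e1, e2⟩ | ⟨e1, e2⟩ | ⟨e1, e2⟩ <;>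
  rcases Zn_cases (s + 2) a' b' h' with ⟨f1, f2⟩ | ⟨f1, f2⟩ | ⟨f1, f2⟩ | ⟨f1, f2⟩ <;>
  first
  | (exfalso; omega)
  | (rw [e2] at hu
     rw [f2] at hv
     simp only [mem_Zn0, mem_Zn1, mem_Zn2, mem_Zn3] at hu hv
     omega)

/-- transposition maps the direction `s` to the direction `1 - s` -/
theorem Zn_tr (s a b h : ℤ) : (Equiv.prodComm ℤ ℤ) '' Zn s a b h = Zn (1 - s) a b h := by
  ext v
  rw [Equiv.image_eq_preimage_symm, Set.mem_preimage]
  have hsym : (Equiv.prodComm ℤ ℤ).symm v = (v.2, v.1) := rfl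
  rw [hsym]
  rcases Zn_cases s a b h with ⟨e1, e2⟩ | ⟨e1, e2⟩ | ⟨e1, e2⟩ | ⟨e1, e2⟩ <;>
  rcases Zn_cases (1 - s) a b h with ⟨f1, f2⟩ | ⟨f1, f2⟩ | ⟨f1, f2⟩ | ⟨f1, f2⟩ <;>
  first
  | (exfalso; omega)
  | (rw [e2, f2]
     simp only [mem_Zn0, mem_Zn1, mem_Zn2, mem_Zn3])

theorem Jc_tr (c : Bool) (R : ℤ) : (Equiv.prodComm ℤ ℤ) '' Jc c R = Jc (!c) R := by
  unfold Jc
  rw [Set.image_union, J_eq, J_eq, J_eq, J_eq, Zn_tr, Zn_tr]
  cases c
  · have e1 : Zn (1 - dc false) (R + 1) (2 * R) (R / 4) = Zn (dc (!false)) (R + 1) (2 * R) (R / 4) := Zn_mod (by decide) _ _ _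
    have e2 : Zn (1 - (dc false + 2)) (R + 1) (2 * R) (R / 4) = Zn (dc (!false) + 2) (R + 1) (2 * R) (R / 4) := Zn_mod (by decide) _ _ _
    rw [e1, e2]
  · have e1 : Zn (1 - dc true) (R + 1) (2 * R) (R / 4) = Zn (dc (!true)) (R + 1) (2 * R) (R / 4) := Zn_mod (by decide) _ _ _
    have e2 : Zn (1 - (dc true + 2)) (R + 1) (2 * R) (R / 4) = Zn (dc (!true) + 2) (R + 1) (2 * R) (R / 4) := Zn_mod (by decide) _ _ _
    rw [e1, e2]

theorem Kc_tr (c : Bool) (r : ℤ) : (Equiv.prodComm ℤ ℤ) '' Kc c r = Kc (!c) r := by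
  unfold Kc
  rw [Set.image_union, K_eq, K_eq, K_eq, K_eq, Zn_tr, Zn_tr]
  cases c
  · have e1 : Zn (1 - dc false) (r / 2 + 1) r (r / 8) = Zn (dc (!false)) (r / 2 + 1) r (r / 8) := Zn_mod (by decide) _ _ _
    have e2 : Zn (1 - (dc false + 2)) (r / 2 + 1) r (r / 8) = Zn (dc (!false) + 2) (r / 2 + 1) r (r / 8) := Zn_mod (by decide) _ _ _
    rw [e1, e2]
  · have e1 : Zn (1 - dc true) (r / 2 + 1) r (r / 8) = Zn (dc (!true)) (r / 2 + 1) r (r / 8) := Zn_mod (by decide) _ _ _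
    have e2 : Zn (1 - (dc true + 2)) (r / 2 + 1) r (r / 8) = Zn (dc (!true) + 2) (r / 2 + 1) r (r / 8) := Zn_mod (by decide) _ _ _
    rw [e1, e2]

/-- the zones in terms of the norm: `v ∈ Jc c R → R < nrm v ∧ nrm v ≤ 2 R` -/
theorem Jc_nrm {c : Bool} {R : ℤ} (hR : 0 ≤ R) {v : Pt} (hv : v ∈ Jc c R) :
    R < nrm v ∧ nrm v ≤ 2 * R := by
  rcases hv with hv | hv
  · have := Zn_nrm (s := dc c) (a := R + 1) (b := 2 * R) (h := R / 4) (by omega) (by omega) hv
    omega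
  · have := Zn_nrm (s := dc c + 2) (a := R + 1) (b := 2 * R) (h := R / 4) (by omega) (by omega) hv
    omega

theorem Kc_nrm {c : Bool} {r : ℤ} (hr : 0 ≤ r) {v : Pt} (hv : v ∈ Kc c r) :
    r / 2 < nrm v ∧ nrm v ≤ r := by
  rcases hv with hv | hv
  · have := Zn_nrm (s := dc c) (a := r / 2 + 1) (b := r) (h := r / 8) (by omega) (by omega) hv
    omega
  · have := Zn_nrm (s := dc c + 2) (a := r / 2 + 1) (b := r) (h := r / 8) (by omega) (by omega) hv
    omega

theorem Jc_disj {c : Bool} {R : ℤ} (hR : 0 ≤ R) {v : Pt} (hv : v ∈ Jc c R) : v ∉ Jc (!c) R := by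
  have key : ∀ s s' : ℤ, s % 4 ≠ s' % 4 → v ∈ J s R → v ∉ J s' R := fun s s' hs h1 =>
    Zn_disj hs (by omega) (by omega) (by omega) h1
  rintro (h2 | h2) <;> rcases hv with h1 | h1 <;>
  exact key _ _ (by cases c <;> decide) h1 h2

theorem Kc_disj {c : Bool} {r : ℤ} (hr : 0 ≤ r) {v : Pt} (hv : v ∈ Kc c r) : v ∉ Kc (!c) r := by
  have key : ∀ s s' : ℤ, s % 4 ≠ s' % 4 → v ∈ K s r → v ∉ K s' r := fun s s' hs h1 =>
    Zn_disj hs (by omega) (by omega) (by omega) h1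
  rintro (h2 | h2) <;> rcases hv with h1 | h1 <;>
  exact key _ _ (by cases c <;> decide) h1 h2

/-- finite annulus as a `Finset` -/
theorem exists_annF (a b : ℤ) : ∃ G : Finset Pt, ∀ v, v ∈ G ↔ a < nrm v ∧ nrm v ≤ b := by
  refine ⟨(Finset.Icc (-b) b ×ˢ Finset.Icc (-b) b).filter fun v => a < nrm v ∧ nrm v ≤ b, ?_⟩
  intro v
  rw [Finset.mem_filter, Finset.mem_product, Finset.mem_Icc, Finset.mem_Icc]
  constructor
  · exact fun h => h.2
  · intro h
    have h2 : max |v.1| |v.2| ≤ b := h.2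
    rw [max_le_iff, abs_le, abs_le] at h2
    exact ⟨h2, h⟩

end SC

end

/-! ### from `Lib_MP_e0a489.IfX` -/

section

/-!
# MP_e0a489: interface IfX (bounds for the four arm exponents)
-/

set_option autoImplicit false

namespace SC

open Classical

/-- bounds for the four arm exponents -/
class IfX : Prop where
  al_upper : ∀ {L : Lat} {κ : ℕ → ℝ} (h : Fam L κ),
    ∃ (C c : ℝ) (R₀ : ℤ), 0 < C ∧ 0 < c ∧
    c ≤ 1 / 2 ∧ 16 ≤ R₀ ∧ ∀ r R : ℤ, R₀ ≤ r → r ≤ R → al L r R ≤ C * ((r : ℝ) / R) ^ (1 + c)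
  al_lower : ∀ {L : Lat} {κ : ℕ → ℝ} (h : Fam L κ),
    ∃ (C c : ℝ) (R₀ : ℤ), 0 < C ∧ 0 < c ∧
    c ≤ 1 / 2 ∧ 16 ≤ R₀ ∧ ∀ r R : ℤ, R₀ ≤ r → r ≤ R → ((r : ℝ) / R) ^ (2 - c) ≤ C * al L r R

theorem al_upper [IfX] {L : Lat} {κ : ℕ → ℝ} (h : Fam L κ) :
    ∃ (C c : ℝ) (R₀ : ℤ), 0 < C ∧ 0 < c ∧
    c ≤ 1 / 2 ∧ 16 ≤ R₀ ∧ ∀ r R : ℤ, R₀ ≤ r → r ≤ R → al L r R ≤ C * ((r : ℝ) / R) ^ (1 + c) :=
  IfX.al_upper h

theorem al_lower [IfX] {L : Lat} {κ : ℕ → ℝ} (h : Fam L κ) :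
    ∃ (C c : ℝ) (R₀ : ℤ), 0 < C ∧ 0 < c ∧
    c ≤ 1 / 2 ∧ 16 ≤ R₀ ∧ ∀ r R : ℤ, R₀ ≤ r → r ≤ R → ((r : ℝ) / R) ^ (2 - c) ≤ C * al L r R :=
  IfX.al_lower h

end SC

end

/-! ### from `Lib_MP_e0a489.SED` -/

section

/-!
# MP_e0a489, module SE: the structure `AlProps` (basic properties of the four arm probability)
-/

set_option autoImplicit false

namespace SC

open Classical

/-- Basic properties of the four arm probability of a lattice of the family `Fam`: `R₀`, `C` depend only on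
`κ`. -/
structure AlProps (L : Lat) (C : ℝ) (R₀ : ℤ) : Prop where
  C1 : 1 ≤ C
  R16 : 16 ≤ R₀
  pos : ∀ r R, R₀ ≤ r → r ≤ R → 0 < al L r R
  le1 : ∀ r R, al L r R ≤ 1
  /-- monotone (inclusion of events) -/
  mono : ∀ r R r' R', 0 ≤ r' → r' ≤ r → r ≤ R → R ≤ R' → al L r' R' ≤ al L r R
  /-- all centres, all colours, radii changed by bounded factors -/
  cmp : ∀ (c : Bool) (x : Pt) (r R r' R' : ℤ), R₀ ≤ r → R₀ ≤ r' → r ≤ R → r ≤ 2 * r' → r' ≤ R' →
    R' ≤ 4 * R → pr (L.TwoAt c x r R) ≤ C * al L r' R'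
  /-- quasi-multiplicativity -/
  qmult : ∀ r ρ R, R₀ ≤ r → r ≤ ρ → ρ ≤ R → al L r ρ * al L ρ R ≤ C * al L r R

end SC

end

/-! ### from `Lib_MP_e0a489.XPD` -/

section

/-!
# MP_e0a489, module XP: definitions (box events, core events, blocks, annuli around a site)
-/

set_option autoImplicit false

namespace SC

open Classical

/-! ### Annuli around a site -/

/-- box of radius `r` around `y` -/
def bxAt (y : Pt) (r : ℤ) : Set Pt := {v | nrm (v - y) ≤ r}

/-- annulus around `y` -/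
def annAt (y : Pt) (r R : ℤ) : Set Pt := {v | r < nrm (v - y) ∧ nrm (v - y) ≤ R}

/-- ring around `y` -/
def rngAt (y : Pt) (R : ℤ) : Set Pt := {v | nrm (v - y) = R}

/-! ### Rectangles and blocks as finite sets -/

/-- rectangle as a finite set -/
noncomputable def rectF (a b p q : ℤ) : Finset Pt := Finset.Icc a b ×ˢ Finset.Icc p q

/-- block as a finite set -/
noncomputable def blkF (w : ℤ) (z : Pt) : Finset Pt :=
  rectF (z.1 * w - w / 2) (z.1 * w + w / 2) (z.2 * w - w / 2) (z.2 * w + w / 2)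

/-- the blocks number `z`, `|z| ≤ M`; their union is `bx (M w + w / 2)` -/
noncomputable def blks (M w : ℤ) : Finset (Finset Pt) := (rectF (-M) M (-M) M).image (blkF w)

/-! ### Box events and core events -/

/-- right side for open, upper side for closed -/
def sdp (c : Bool) (b q : ℤ) : Set Pt := if c then {v | v.1 = b} else {v | v.2 = q}

/-- left side for open, lower side for closed -/
def sdm (c : Bool) (a p : ℤ) : Set Pt := if c then {v | v.1 = a} else {v | v.2 = p}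

namespace Lat

/-- crossing of the rectangle `rect a b p q` in the direction of the colour: from left to right for open, from
bottom to top for closed -/
def DX (L : Lat) (c : Bool) (a b p q : ℤ) (ω : Cfg) : Prop :=
  if c then L.HX true a b p q ω else L.VX false a b p q ω

/-- Box event: arms of colour `c` from the inner zones of `bx r` to the two sides of the rectangle
`rect a b p q` (in one of the two possible pairings). -/
def SQ (L : Lat) (c : Bool) (r a b p q : ℤ) (ω : Cfg) : Prop :=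
  (L.Arm c (rect a b p q \ bx r ∪ Kc c r) (Ks (dc c) r) (sdp c b q) ω ∧
    L.Arm c (rect a b p q \ bx r ∪ Kc c r) (Ks (dc c + 2) r) (sdm c a p) ω) ∨
  (L.Arm c (rect a b p q \ bx r ∪ Kc c r) (Ks (dc c) r) (sdm c a p) ω ∧
    L.Arm c (rect a b p q \ bx r ∪ Kc c r) (Ks (dc c + 2) r) (sdp c b q) ω)

/-- Core event: crossing of the middle strip of `bx r` in the direction of the colour and crossings of
the two inner zones parallel to the sides. -/
def Co (L : Lat) (c : Bool) (r : ℤ) (ω : Cfg) : Prop :=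
  if c then L.HX true (-r) r (-(r / 8)) (r / 8) ω ∧
      L.VX true (r / 2 + 1) r (-(r / 8)) (r / 8) ω ∧
      L.VX true (-r) (-(r / 2) - 1) (-(r / 8)) (r / 8) ω
    else L.VX false (-(r / 8)) (r / 8) (-r) r ω ∧
      L.HX false (-(r / 8)) (r / 8) (r / 2 + 1) r ω ∧
      L.HX false (-(r / 8)) (r / 8) (-r) (-(r / 2) - 1) ω

/-- the blocks met by the exploration of the open clusters of `bx (M w + w / 2)` attached to the column
`x` -/
noncomputable def Rb (L : Lat) (M w x : ℤ) (ω : Cfg) : Finset (Finset Pt) :=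
  (blks M w).filter (fun B => ∃ v ∈ B, v ∈ L.Rev true (bx (M * w + w / 2))
    (rect x x (-(M * w + w / 2)) (M * w + w / 2)) ω)

end Lat

end SC

end

/-! ### from `Lib_MP_e0a489.XP2` -/

section

/-!
# MP_e0a489, exponents 2: transport of the events around a site, in a half plane, in a quarter plane
-/

set_option autoImplicit false

namespace SC

namespace XP

open Classical

/-- `rt s` is additive: `rt s = rt (s % 4)` (`rt_mod`) and the four cases `rt_zero`, `rt_one`, `rt_two`, `rt_three` -/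
theorem rt_lin (s : ℤ) (u v : Pt) : rt s (u + v) = rt s u + rt s v := by
  have h : ∀ n : ℤ, (n = 0 ∨ n = 1 ∨ n = 2 ∨ n = 3) → rt n (u + v) = rt n u + rt n v := by
    rintro n (rfl | rfl | rfl | rfl)
    · rw [rt_zero, rt_zero, rt_zero]
    · rw [rt_one, rt_one, rt_one]
      ext
      · show -(u.2 + v.2) = -u.2 + -v.2
        ring
      · rfl
    · rw [rt_two, rt_two, rt_two]
      ext
      · show -(u.1 + v.1) = -u.1 + -v.1
        ring
      · show -(u.2 + v.2) = -u.2 + -v.2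
        ring
    · rw [rt_three, rt_three, rt_three]
      ext
      · rfl
      · show -(u.1 + v.1) = -u.1 + -v.1
        ring
  have e : rt s = rt (s % 4) := rt_mod (by omega)
  rw [e]
  exact h _ (by omega)

theorem rt_lin_sub (s : ℤ) (u v : Pt) : rt s (u - v) = rt s u - rt s v := by
  have h := rt_lin s (u - v) v
  rw [sub_add_cancel] at h
  rw [h, add_sub_cancel_right]

/-- the composition: `(rt s * Equiv.addRight z) v = rt s (v + z)` -/
theorem rtz_apply (s : ℤ) (z v : Pt) : (rt s * Equiv.addRight z : Equiv.Perm Pt) v = rt s (v + z) := by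
  rfl

/-- `Tr.trans (tr_rots L s) (tr_shift (L.rots s) z)` -/
theorem tr_rotshift (L : Lat) (s : ℤ) (z : Pt) :
    Tr L ((L.rots s).shift z) (rt s * Equiv.addRight z) := by
  exact Tr.trans (tr_rots L s) (tr_shift (L.rots s) z)

/-- image of a set defined by the norm -/
theorem image_nrm (P : ℤ → Prop) (s : ℤ) (z : Pt) :
    (rt s * Equiv.addRight z : Equiv.Perm Pt) '' {v | P (nrm v)} =
      {v | P (nrm (v - rt s z))} := by
  ext u
  constructor
  · rintro ⟨v, hv, rfl⟩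
    show P (nrm (rt s (v + z) - rt s z))
    rw [← rt_lin_sub, add_sub_cancel_right, nrm_rt]
    exact hv
  · intro hu
    refine ⟨(rt s).symm u - z, ?_, ?_⟩
    · show P (nrm ((rt s).symm u - z))
      rw [← nrm_rt s, rt_lin_sub, Equiv.apply_symm_apply]
      exact hu
    · rw [rtz_apply, sub_add_cancel, Equiv.apply_symm_apply]

theorem image_nrm0 (P : ℤ → Prop) (z : Pt) :
    (Equiv.addRight z : Equiv.Perm Pt) '' {v | P (nrm v)} = {v | P (nrm (v - z))} := by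
  ext u
  constructor
  · rintro ⟨v, hv, rfl⟩
    show P (nrm (v + z - z))
    rw [add_sub_cancel_right]
    exact hv
  · intro hu
    exact ⟨u - z, hu, sub_add_cancel u z⟩

/-- image of the box: `nrm (rt s (v + z) - rt s z) = nrm (rt s v) = nrm v` (`rt_lin`, `nrm_rt`); surjectivity: `v = (rt s).symm u - z` -/
theorem image_bx (s : ℤ) (z : Pt) (r : ℤ) :
    (rt s * Equiv.addRight z : Equiv.Perm Pt) '' bx r = bxAt (rt s z) r := by
  exact image_nrm (fun k => k ≤ r) s z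

theorem image_ann (s : ℤ) (z : Pt) (r R : ℤ) :
    (rt s * Equiv.addRight z : Equiv.Perm Pt) '' ann r R = annAt (rt s z) r R := by
  exact image_nrm (fun k => r < k ∧ k ≤ R) s z

theorem image_rng (s : ℤ) (z : Pt) (R : ℤ) :
    (rt s * Equiv.addRight z : Equiv.Perm Pt) '' rng R = rngAt (rt s z) R := by
  exact image_nrm (fun k => k = R) s z

/-- the same without rotation -/
theorem image_bx0 (z : Pt) (r : ℤ) : (Equiv.addRight z : Equiv.Perm Pt) '' bx r = bxAt z r := by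
  exact image_nrm0 (fun k => k ≤ r) z

theorem image_ann0 (z : Pt) (r R : ℤ) :
    (Equiv.addRight z : Equiv.Perm Pt) '' ann r R = annAt z r R := by
  exact image_nrm0 (fun k => r < k ∧ k ≤ R) z

theorem image_rng0 (z : Pt) (R : ℤ) : (Equiv.addRight z : Equiv.Perm Pt) '' rng R = rngAt z R := by
  exact image_nrm0 (fun k => k = R) z

/-- `|t| + R ≤ N`: in the annulus around `rt s (t, -N)` the half plane above the side number `s` (`s = 0`: lower side) is the
box.  `v ∈ ann r R`, `0 ≤ v.2`: `v + (t, -N)` has coordinates `|v.1 + t| ≤ R + |t| ≤ N` and `-N ≤ v.2 - N ≤ R - N ≤ N`; the box is invariant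
under `rt s` (`nrm_rt`). -/
theorem image_half {N r R s t : ℤ} (ht : |t| + R ≤ N) :
    annAt (rt s (t, -N)) r R ∩ (rt s * Equiv.addRight (t, -N) : Equiv.Perm Pt) '' {v | 0 ≤ v.2} =
      bx N ∩ annAt (rt s (t, -N)) r R := by
  ext v
  obtain ⟨u, rfl⟩ : ∃ u, v = rt s (u + (t, -N)) :=
    ⟨(rt s).symm v - (t, -N), by rw [sub_add_cancel, Equiv.apply_symm_apply]⟩
  have e1 : rt s (u + (t, -N)) ∈ annAt (rt s (t, -N)) r R ↔ r < nrm u ∧ nrm u ≤ R := by
    show r < nrm (rt s (u + (t, -N)) - rt s (t, -N)) ∧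
      nrm (rt s (u + (t, -N)) - rt s (t, -N)) ≤ R ↔ _
    rw [← rt_lin_sub, add_sub_cancel_right, nrm_rt]
  have e2 : rt s (u + (t, -N)) ∈
      (rt s * Equiv.addRight (t, -N) : Equiv.Perm Pt) '' {v | 0 ≤ v.2} ↔ 0 ≤ u.2 := by
    constructor
    · rintro ⟨w, hw, he⟩
      have : w = u := (rt s * Equiv.addRight (t, -N) : Equiv.Perm Pt).injective he
      rw [this] at hw
      exact hw
    · intro hu
      exact ⟨u, hu, rfl⟩
  have e3 : rt s (u + (t, -N)) ∈ bx N ↔ |u.1 + t| ≤ N ∧ |u.2 + -N| ≤ N := by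
    show nrm (rt s (u + (t, -N))) ≤ N ↔ _
    rw [nrm_rt]
    exact max_le_iff
  rw [Set.mem_inter_iff, Set.mem_inter_iff, e1, e2, e3]
  constructor
  · rintro ⟨⟨h1, h2⟩, h3⟩
    obtain ⟨h4, h5⟩ := max_le_iff.1 h2
    have h6 := abs_le.1 h4
    have h7 := abs_le.1 h5
    have h8 := le_abs_self t
    have h9 := neg_abs_le t
    exact ⟨⟨abs_le.2 ⟨by omega, by omega⟩, abs_le.2 ⟨by omega, by omega⟩⟩, h1, h2⟩
  · rintro ⟨⟨h3, h4⟩, h1, h2⟩
    have h5 := abs_le.1 h4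
    exact ⟨⟨h1, h2⟩, by omega⟩

/-- the same for the corner number `s` (`s = 0`: lower left) and `R ≤ 2 N` -/
theorem image_quart {N r R s : ℤ} (hR : R ≤ 2 * N) :
    annAt (rt s (-N, -N)) r R ∩
        (rt s * Equiv.addRight (-N, -N) : Equiv.Perm Pt) '' {v | 0 ≤ v.1 ∧ 0 ≤ v.2} =
      bx N ∩ annAt (rt s (-N, -N)) r R := by
  ext v
  obtain ⟨u, rfl⟩ : ∃ u, v = rt s (u + (-N, -N)) :=
    ⟨(rt s).symm v - (-N, -N), by rw [sub_add_cancel, Equiv.apply_symm_apply]⟩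
  have e1 : rt s (u + (-N, -N)) ∈ annAt (rt s (-N, -N)) r R ↔ r < nrm u ∧ nrm u ≤ R := by
    show r < nrm (rt s (u + (-N, -N)) - rt s (-N, -N)) ∧
      nrm (rt s (u + (-N, -N)) - rt s (-N, -N)) ≤ R ↔ _
    rw [← rt_lin_sub, add_sub_cancel_right, nrm_rt]
  have e2 : rt s (u + (-N, -N)) ∈
      (rt s * Equiv.addRight (-N, -N) : Equiv.Perm Pt) '' {v | 0 ≤ v.1 ∧ 0 ≤ v.2} ↔
        0 ≤ u.1 ∧ 0 ≤ u.2 := by
    constructor
    · rintro ⟨w, hw, he⟩
      have : w = u := (rt s * Equiv.addRight (-N, -N) : Equiv.Perm Pt).injective he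
      rw [this] at hw
      exact hw
    · intro hu
      exact ⟨u, hu, rfl⟩
  have e3 : rt s (u + (-N, -N)) ∈ bx N ↔ |u.1 + -N| ≤ N ∧ |u.2 + -N| ≤ N := by
    show nrm (rt s (u + (-N, -N))) ≤ N ↔ _
    rw [nrm_rt]
    exact max_le_iff
  rw [Set.mem_inter_iff, Set.mem_inter_iff, e1, e2, e3]
  constructor
  · rintro ⟨⟨h1, h2⟩, h3, h3'⟩
    obtain ⟨h4, h5⟩ := max_le_iff.1 h2
    have h6 := abs_le.1 h4
    have h7 := abs_le.1 h5
    exact ⟨⟨abs_le.2 ⟨by omega, by omega⟩, abs_le.2 ⟨by omega, by omega⟩⟩, h1, h2⟩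
  · rintro ⟨⟨h3, h4⟩, h1, h2⟩
    have h5 := abs_le.1 h4
    have h6 := abs_le.1 h3
    exact ⟨⟨h1, h2⟩, by omega, by omega⟩

end XP

end SC

end

/-! ### from `Lib_MP_e0a489.TTHE` -/

section

/-!
# MP_e0a489, module TTH: definition of `HProps` (static bounds)
-/

set_option autoImplicit false

namespace SC

open Classical

/-- static bounds: four arm probability, half plane, corner (`C`, `R₀` depend only on `κ`) -/
structure HProps (L : Lat) (C : ℝ) (R₀ : ℤ) : Prop where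
  ap : AlProps L C R₀
  low : ∀ r R : ℤ, R₀ ≤ r → r ≤ R → ((r : ℝ) / R) ^ 2 ≤ C * al L r R
  half : ∀ (s : ℤ) (x : Pt) (c : Bool) (H : Set Pt) (r R : ℤ), HalfLike H → R₀ ≤ r → r ≤ R →
    pr (((L.rots s).shift x).TwoH c H r R) ≤ C * (al L r R) ^ ((3 : ℝ) / 4)
  quart : ∀ (s : ℤ) (x : Pt) (H : Set Pt) (r R : ℤ), QuartLike H → R₀ ≤ r → r ≤ R →
    pr (((L.rots s).shift x).TwoQ H r R) ≤ C * (al L r R) ^ ((1 : ℝ) / 2)

end SC

end

/-! ### from `Lib_MP_e0a489.ZR6` -/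

section

/-!
# MP_e0a489, module ZR, 6: reflections, the event of the RSW lemma (any lattice)
-/

set_option autoImplicit false

namespace SC

open Classical

/-- reflection of the second coordinate, `y ↦ h - y` -/
def rfy (h : ℤ) : Equiv.Perm Pt where
  toFun v := (v.1, h - v.2)
  invFun v := (v.1, h - v.2)
  left_inv v := by simp
  right_inv v := by simp

/-- reflection of the first coordinate, `x ↦ h - x` -/
def rfx (h : ℤ) : Equiv.Perm Pt where
  toFun v := (h - v.1, v.2)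
  invFun v := (h - v.1, v.2)
  left_inv v := by simp
  right_inv v := by simp

/-- `(tr_ry L).trans (tr_shift L.ry (0, -h))`: the map is `v ↦ ryE (v + (0, -h)) = (v.1, h - v.2)` (`Equiv.ext`) -/
theorem tr_rfy (L : Lat) (h : ℤ) : Tr L (L.ry.shift (0, -h)) (rfy h) := by
  have e : rfy h = ryE * Equiv.addRight ((0, -h) : Pt) := by
    refine Equiv.ext (fun v => ?_)
    show ((v.1, h - v.2) : Pt) = (v.1 + 0, -(v.2 + -h))
    rw [add_zero]
    congr 1
    ring
  rw [e]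
  exact (tr_ry L).trans (tr_shift L.ry (0, -h))

/-- `(tr_rx L).trans (tr_shift L.rx (-h, 0))` -/
theorem tr_rfx (L : Lat) (h : ℤ) : Tr L (L.rx.shift (-h, 0)) (rfx h) := by
  have e : rfx h = rxE * Equiv.addRight ((-h, 0) : Pt) := by
    refine Equiv.ext (fun v => ?_)
    show ((h - v.1, v.2) : Pt) = (-(v.1 + -h), v.2 + 0)
    rw [add_zero]
    congr 1
    ring
  rw [e]
  exact (tr_rx L).trans (tr_shift L.rx (-h, 0))

/-- THE EVENT OF THE RSW LEMMA: an open vertical crossing of `[0,a] × [0,n]` that is joined in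
`[0,m] × [0,2n]` to the right side -/
def Lat.XX (L : Lat) (a m n : ℤ) (ω : Cfg) : Prop :=
  ∃ u v w : Pt, u.2 = 0 ∧ v.2 = n ∧ w.1 = m ∧ L.Cn (rect 0 a 0 n ∩ L.col true ω) u v ∧
    L.Cn (rect 0 m 0 (2 * n) ∩ L.col true ω) u w

private theorem zr6_inter (L : Lat) (D : Set Pt) {ω ω' : Cfg} (h : ∀ v ∈ D, ω v = ω' v) :
    D ∩ L.col true ω = D ∩ L.col true ω' := by
  ext v
  constructor
  · rintro ⟨h1, h2⟩
    refine ⟨h1, ?_⟩
    have h3 : L.st ω v = true := h2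
    show L.st ω' v = true
    unfold Lat.st at h3 ⊢
    rw [← h v h1]
    exact h3
  · rintro ⟨h1, h2⟩
    refine ⟨h1, ?_⟩
    have h3 : L.st ω' v = true := h2
    show L.st ω v = true
    unfold Lat.st at h3 ⊢
    rw [h v h1]
    exact h3

private theorem zr6_col {L : Lat} {ω ω' : Cfg} (h : ∀ v, ω v ≤ ω' v) :
    L.col true ω ⊆ L.col true ω' := by
  intro v hv
  have h1 : L.st ω v = true := hv
  show L.st ω' v = true
  have h2 := h v
  unfold Lat.st at h1 ⊢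
  cases h3 : L.typ v with
  | none =>
    rw [h3] at h1
    simp only [Option.getD_none] at h1 ⊢
    rw [h1] at h2
    exact top_le_iff.mp h2
  | some b =>
    rw [h3] at h1
    simpa using h1

/-- if `ω` and `ω'` agree on `rect 0 m 0 (2n) ⊇ rect 0 a 0 n` the two sets of open sites are the same -/
theorem XX.dep (L : Lat) {a m n : ℤ} (ha : a ≤ m) (hn : 0 ≤ n) :
    Dep (L.XX a m n) (rect 0 m 0 (2 * n)) := by
  intro ω ω' h
  have hs : rect 0 a 0 n ⊆ rect 0 m 0 (2 * n) := by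
    rintro v ⟨⟨h1, h2⟩, h3, h4⟩
    exact ⟨⟨h1, by omega⟩, h3, by omega⟩
  unfold Lat.XX
  rw [zr6_inter L (rect 0 m 0 (2 * n)) h, zr6_inter L (rect 0 a 0 n) (fun v hv => h v (hs hv))]

/-- (`rect` is finite, see `HX.loc`) -/
theorem XX.loc (L : Lat) {a m n : ℤ} (ha : a ≤ m) (hn : 0 ≤ n) : Loc (L.XX a m n) := by
  have hf : (rect 0 m 0 (2 * n)).Finite := by
    have h : rect 0 m 0 (2 * n) ⊆ Set.Icc 0 m ×ˢ Set.Icc 0 (2 * n) := by
      rintro v ⟨h1, h2⟩
      exact ⟨h1, h2⟩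
    exact ((Set.finite_Icc _ _).prod (Set.finite_Icc _ _)).subset h
  exact ⟨hf.toFinset, (XX.dep L ha hn).mono (by rw [Set.Finite.coe_toFinset])⟩

/-- more open sites (`st` is increasing in `ω`) -/
theorem XX.inc (L : Lat) (a m n : ℤ) : Inc (L.XX a m n) := by
  rintro ω ω' h ⟨u, v, w, hu, hv, hw, h1, h2⟩
  exact ⟨u, v, w, hu, hv, hw, h1.mono (Set.inter_subset_inter_right _ (zr6_col h)),
    h2.mono (Set.inter_subset_inter_right _ (zr6_col h))⟩

/-- The event seen through a symmetry (`Tr.cn`, `Tr.col`, `Set.image_inter e.injective`). -/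
theorem XX.via {L L' : Lat} {e : Equiv.Perm Pt} (he : Tr L L' e) {a m n : ℤ} {ω : Cfg}
    (h : L'.XX a m n (SC.via e ω)) : ∃ u v w : Pt, u.2 = 0 ∧ v.2 = n ∧ w.1 = m ∧
      L.Cn ((e '' rect 0 a 0 n) ∩ L.col true ω) (e u) (e v) ∧
      L.Cn ((e '' rect 0 m 0 (2 * n)) ∩ L.col true ω) (e u) (e w) := by
  obtain ⟨u, v, w, hu, hv, hw, h1, h2⟩ := h
  refine ⟨u, v, w, hu, hv, hw, ?_, ?_⟩
  · have h3 := (he.cn _ u v).1 h1
    rwa [Set.image_inter e.injective, he.col] at h3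
  · have h3 := (he.cn _ u w).1 h2
    rwa [Set.image_inter e.injective, he.col] at h3

end SC

end

/-! ### from `Lib_MP_e0a489.TL0` -/

section

/-!
# MP_e0a489: the triangular lattice

Row drawing `TL`: the site `(i, j)` is the point `(i + (j mod 2)/2, (√3/2) j)` of the plane.  Sheared drawing `SL`: the site
`(i, j)` is the point `(i + j/2, (√3/2) j)`.
-/

set_option autoImplicit false

namespace SC

open Classical

/-- triangular lattice, row drawing: a site `(i,j)` with `j` even is adjacent to `(i-1,j+1)`, `(i,j+1)`; with `j` odd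
to `(i,j+1)`, `(i+1,j+1)` -/
def TL : Lat := ⟨fun _ j => decide (j % 2 = 1), fun _ => none⟩

/-- triangular lattice, sheared drawing -/
def SL : Lat := ⟨fun _ _ => false, fun _ => none⟩

/-- from the sheared drawing to the row drawing -/
def shE : Equiv.Perm Pt where
  toFun v := (v.1 + v.2 / 2, v.2)
  invFun v := (v.1 - v.2 / 2, v.2)
  left_inv v := by simp
  right_inv v := by simp

private theorem tl0_ext {L L' : Lat} (h1 : ∀ i j, L.ne i j = L'.ne i j)
    (h2 : ∀ v, L.typ v = L'.typ v) : L = L' := by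
  cases L
  cases L'
  have e1 := funext fun i => funext fun j => h1 i j
  have e2 := funext h2
  simp only at e1 e2
  subst e1
  subst e2
  rfl

private theorem tl0_adj1 (u v : Pt) : SL.Adj1 u v ↔ TL.Adj1 (shE u) (shE v) := by
  obtain ⟨a, b⟩ := u
  obtain ⟨c, d⟩ := v
  simp only [Lat.Adj1, SL, TL, shE, Equiv.coe_fn_mk, decide_eq_true_eq, decide_eq_false_iff_not,
    Bool.false_eq_true, and_false, false_or, and_true]
  omega

theorem tr_shE : Tr TL SL shE := by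
  refine ⟨fun u v => ?_, fun v => rfl⟩
  unfold Lat.Adj
  rw [tl0_adj1, tl0_adj1]

theorem TL_per1 : TL.shift (2, 0) = TL := by
  refine tl0_ext (fun i j => ?_) (fun v => rfl)
  simp [Lat.shift, TL]

theorem TL_per2 : TL.shift (0, 2) = TL := by
  refine tl0_ext (fun i j => ?_) (fun v => rfl)
  simp only [Lat.shift, TL, decide_eq_decide]
  omega

theorem TL_sw : TL.sw = TL := by
  refine tl0_ext (fun i j => rfl) (fun v => rfl)

theorem TL_rx : TL.rx = TL.shift (0, 1) := by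
  refine tl0_ext (fun i j => ?_) (fun v => rfl)
  simp only [Lat.shift, Lat.rx, TL, ← decide_not, decide_eq_decide]
  omega

theorem TL_ry : TL.ry = TL := by
  refine tl0_ext (fun i j => ?_) (fun v => rfl)
  simp only [Lat.ry, TL, ← decide_not, decide_eq_decide]
  omega

private theorem tl0_typ (a b c d : ℤ) (h1 : a % 2 = c % 2) (h2 : b % 2 = d % 2) :
    Z2.typ (a, b) = Z2.typ (c, d) := by
  simp only [Z2, h1, h2]

theorem Z2_per1 : Z2.shift (2, 0) = Z2 := by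
  refine tl0_ext (fun i j => ?_) (fun v => ?_)
  · simp only [Lat.shift, Z2, decide_eq_decide]
    omega
  · obtain ⟨a, b⟩ := v
    exact tl0_typ _ _ _ _ (by simp) (by simp)

theorem Z2_per2 : Z2.shift (0, 2) = Z2 := by
  refine tl0_ext (fun i j => ?_) (fun v => ?_)
  · simp only [Lat.shift, Z2, decide_eq_decide]
    omega
  · obtain ⟨a, b⟩ := v
    exact tl0_typ _ _ _ _ (by simp) (by simp)

theorem Z2_sw : Z2.sw = Z2.shift (1, 1) := by
  refine tl0_ext (fun i j => ?_) (fun v => ?_)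
  · simp only [Lat.shift, Lat.sw, Z2, decide_eq_decide]
    omega
  · obtain ⟨a, b⟩ := v
    simp only [Lat.shift, Lat.sw, Z2, Prod.mk_add_mk]
    rcases Int.emod_two_eq_zero_or_one a with h1 | h1 <;>
      rcases Int.emod_two_eq_zero_or_one b with h2 | h2
    · have e1 : (a + 1) % 2 = 1 := by omega
      have e2 : (b + 1) % 2 = 1 := by omega
      simp [h1, h2, e1, e2]
    · have e1 : (a + 1) % 2 = 1 := by omega
      have e2 : (b + 1) % 2 = 0 := by omega
      simp [h1, h2, e1, e2]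
    · have e1 : (a + 1) % 2 = 0 := by omega
      have e2 : (b + 1) % 2 = 1 := by omega
      simp [h1, h2, e1, e2]
    · have e1 : (a + 1) % 2 = 0 := by omega
      have e2 : (b + 1) % 2 = 0 := by omega
      simp [h1, h2, e1, e2]

theorem Z2_rx : Z2.rx = Z2 := by
  refine tl0_ext (fun i j => ?_) (fun v => ?_)
  · simp only [Lat.rx, Z2, ← decide_not, decide_eq_decide]
    omega
  · obtain ⟨a, b⟩ := v
    exact tl0_typ _ _ _ _ (by simp only []; omega) rfl

theorem Z2_ry : Z2.ry = Z2 := by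
  refine tl0_ext (fun i j => ?_) (fun v => ?_)
  · simp only [Lat.ry, Z2, ← decide_not, decide_eq_decide]
    omega
  · obtain ⟨a, b⟩ := v
    exact tl0_typ _ _ _ _ rfl (by simp only []; omega)

theorem Z2_tr : Z2.tr = Z2 := by
  refine tl0_ext (fun i j => ?_) (fun v => ?_)
  · simp only [Lat.tr, Z2, decide_eq_decide]
    omega
  · obtain ⟨a, b⟩ := v
    simp only [Lat.tr, Z2]
    rcases Int.emod_two_eq_zero_or_one a with h1 | h1 <;>
      rcases Int.emod_two_eq_zero_or_one b with h2 | h2 <;> simp [h1, h2]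

end SC

end
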