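import Mathlib
import Pool.Agent.Lib_MP_e0a489_m.G01

/-!
# MP_e0a489_pr: merged library part G07

Concatenation of library files (each in its own section), only to save build time.
-/

/-! ### from `Lib_MP_e0a489.TA2` -/

section

/-!
# MP_e0a489, topology 1b: paths, components
-/

set_option autoImplicit false

namespace SC

open Classical

namespace Lat

variable {L : Lat}

/-- a path inside `A` runs through a connected set: finite version -/
theorem Cn.path {A : Set Pt} {u v : Pt} (h : L.Cn A u v) :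
    ∃ l : List Pt, l ≠ [] ∧ l.head? = some u ∧ l.getLast? = some v ∧ (∀ w ∈ l, w ∈ A) ∧
      l.IsChain L.Adj := by
  obtain ⟨hu, h⟩ := h
  induction h using Relation.ReflTransGen.head_induction_on with
  | refl => exact ⟨[v], by simp, by simp, by simp, by simpa using hu, by simp⟩
  | head hac _ ih =>
    obtain ⟨l, h1, h2, h3, h4, h5⟩ := ih hac.2
    cases l with
    | nil => exact absurd rfl h1
    | cons b t =>
      rw [List.head?_cons, Option.some.injEq] at h2
      subst h2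
      refine ⟨_ :: b :: t, by simp, rfl, ?_, ?_, ?_⟩
      · rw [List.getLast?_cons_cons]
        exact h3
      · intro w hw
        rw [List.mem_cons] at hw
        rcases hw with rfl | hw
        · exact hu
        · exact h4 w hw
      · exact List.isChain_cons_cons.2 ⟨hac.1, h5⟩

theorem Cn.of_path {A : Set Pt} {u v : Pt} {l : List Pt} (h1 : l.head? = some u)
    (h2 : l.getLast? = some v) (h3 : ∀ w ∈ l, w ∈ A) (h4 : l.IsChain L.Adj) : L.Cn A u v := by
  induction l generalizing u with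
  | nil => simp at h1
  | cons a t ih =>
    rw [List.head?_cons, Option.some.injEq] at h1
    subst h1
    cases t with
    | nil =>
      have h5 : a = v := by simpa using h2
      subst h5
      exact Cn.refl (h3 a (by simp))
    | cons b t =>
      rw [List.getLast?_cons_cons] at h2
      rw [List.isChain_cons_cons] at h4
      have h6 := ih rfl h2 (fun w hw => h3 w (List.mem_cons_of_mem _ hw)) h4.2
      exact ⟨h3 a (by simp), Relation.ReflTransGen.head ⟨h4.1, h6.1⟩ h6.2⟩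

/-- the connected component of a site -/
theorem comp_cluster {A : Set Pt} {u : Pt} (hu : u ∈ A) : L.Comp A {v | L.Cn A u v} where
  ne := ⟨u, Cn.refl hu⟩
  sub := fun _ hv => Cn.right hv
  con := con_cluster A u
  cl := fun _ hw v hv hwv => Cn.trans hw (Cn.of_adj (Cn.right hw) hv hwv)

private theorem stay {A D P : Set Pt} (h : L.Comp A D) (hPA : P ⊆ A) {u v : Pt} (hu : u ∈ D)
    (huv : L.Cn P u v) : v ∈ D := by
  obtain ⟨_, huv⟩ := huv
  induction huv with
  | refl => exact hu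
  | tail _ hbc ih => exact h.cl _ ih _ (hPA hbc.2) hbc.1

theorem Comp.eq {A D D' : Set Pt} (h : L.Comp A D) (h' : L.Comp A D') {v : Pt} (hv : v ∈ D)
    (hv' : v ∈ D') : D = D' := by
  apply subset_antisymm
  · intro w hw
    exact stay h' h.sub hv' (h.con v hv w hw)
  · intro w hw
    exact stay h h'.sub hv (h'.con v hv' w hw)

/-- a connected subset of `A` that meets the component `D` of `A` lies in it -/
theorem Comp.absorb {A D P : Set Pt} (h : L.Comp A D) (hP : L.Con P) (hPA : P ⊆ A)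
    (hPD : (P ∩ D).Nonempty) : P ⊆ D := by
  obtain ⟨p, hp, hpD⟩ := hPD
  intro w hw
  exact stay h hPA hpD (hP p hp w hw)

/-- EXIT LEMMA.  `D` is a component of `M \ C`, `T ⊆ M` is connected, contains a site of `D` that
has no neighbour in `C`, and a site which is not in `D \ bd D C`.  Then there is a path in `T` from
the first site, inside `D \ bd D C` except for its last site, which lies in `bd D C`.  (First exit
from `D \ bd D C`: the next site `q ∈ T ⊆ M` is not in `C`, otherwise the previous one is in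
`bd D C`; so `q ∈ M \ C`, `q ∈ D`, `q ∈ bd D C`.) -/
theorem exit_bd {M C D T : Set Pt} (hD : L.Comp (M \ C) D) (hT : L.Con T) (hTM : T ⊆ M)
    {u v : Pt} (hu : u ∈ T) (huD : u ∈ D \ L.bd D C) (hv : v ∈ T) (hvD : v ∉ D \ L.bd D C) :
    ∃ p q, L.Cn (T ∩ (D \ L.bd D C)) u p ∧ L.Adj p q ∧ q ∈ T ∧ q ∈ L.bd D C := by
  obtain ⟨p, q, h1, h2, h3, h4⟩ := Cn.exit (hT u hu v hv) huD hvD
  refine ⟨p, q, h1, h2, h3, ?_⟩
  obtain ⟨_, hpD, hpb⟩ := Cn.right h1
  have hqC : q ∉ C := by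
    intro hq
    exact hpb ⟨hpD, q, hq, Adj.symm h2⟩
  have hqD : q ∈ D := hD.cl p hpD q ⟨hTM h3, hqC⟩ h2
  by_contra hqb
  exact h4 ⟨hqD, hqb⟩

end Lat

end SC

end

/-! ### from `Lib_MP_e0a489.TB2` -/

section

/-!
# MP_e0a489, topology 2b: crossing paths
-/

set_option autoImplicit false

namespace SC

open Classical

namespace Lat

variable {L : Lat}

/-- a walk from `u` to `v` -/
private structure TB2_Wk (L : Lat) (u v : Pt) (l : List Pt) : Prop where
  hd : l.head? = some u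
  la : l.getLast? = some v
  ch : l.IsChain L.Adj

private theorem TB2_single (u : Pt) : TB2_Wk L u u [u] :=
  ⟨rfl, rfl, List.isChain_singleton u⟩

private theorem TB2_step {u v : Pt} (h : L.Adj u v) : TB2_Wk L u v [u, v] :=
  ⟨rfl, rfl, List.isChain_pair.2 h⟩

private theorem TB2_glue {u v w : Pt} {l l' : List Pt} (h : TB2_Wk L u v l)
    (h' : TB2_Wk L v w l') : ∃ l'' : List Pt, TB2_Wk L u w l'' ∧
      (∀ x, x ∈ l'' → x ∈ l ∨ x ∈ l') ∧ ∀ z, par z l'' = par z l + par z l' := by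
  obtain ⟨m, hm⟩ : ∃ m, l = m ++ [v] := by
    have hne : l ≠ [] := by
      rintro rfl
      exact absurd h.la (by simp)
    refine ⟨l.dropLast, ?_⟩
    have h1 := List.dropLast_append_getLast hne
    have h2 : l.getLast hne = v := by
      have := h.la
      rw [List.getLast?_eq_some_getLast hne] at this
      exact Option.some.inj this
    rw [h2] at h1
    exact h1.symm
  obtain ⟨m', hm'⟩ : ∃ m', l' = v :: m' := by
    cases l' with
    | nil => exact absurd h'.hd (by simp)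
    | cons a t =>
      have := h'.hd
      rw [List.head?_cons] at this
      exact ⟨t, by rw [Option.some.inj this]⟩
  subst hm
  subst hm'
  refine ⟨m ++ v :: m', ⟨?_, ?_, ?_⟩, ?_, fun z => par_append⟩
  · have := h.hd
    cases m with
    | nil => exact this
    | cons a t => exact this
  · rw [List.getLast?_append_of_ne_nil _ (by simp)]
    exact h'.la
  · rw [List.isChain_split]
    exact ⟨h.ch, h'.ch⟩
  · intro x hx
    rw [List.mem_append] at hx
    rcases hx with hx | hx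
    · exact Or.inl (List.mem_append.2 (Or.inl hx))
    · exact Or.inr hx

private theorem TB2_up (x y : ℤ) (n : ℕ) : ∃ l : List Pt, TB2_Wk L (x, y) (x, y + n) l ∧
    (∀ w ∈ l, w.1 = x ∧ y ≤ w.2 ∧ w.2 ≤ y + n) ∧ ∀ z, par z l = 0 := by
  induction n with
  | zero =>
    refine ⟨[(x, y)], ?_, ?_, fun z => rfl⟩
    · have := TB2_single (L := L) (x, y)
      simpa using this
    · intro w hw
      rw [List.mem_singleton] at hw
      subst hw
      simp
  | succ n ih =>
    obtain ⟨l, h1, h2, h3⟩ := ih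
    have h4 : L.Adj (x, y + n) (x, y + ((n + 1 : ℕ) : ℤ)) := by
      have := adj_up (L := L) (x, y + n)
      have e : y + ((n + 1 : ℕ) : ℤ) = y + n + 1 := by push_cast; ring
      rw [e]
      exact this
    obtain ⟨l', g1, g2, g3⟩ := TB2_glue h1 (TB2_step h4)
    refine ⟨l', g1, ?_, ?_⟩
    · intro w hw
      rcases g2 w hw with h5 | h5
      · have := h2 w h5
        refine ⟨this.1, this.2.1, ?_⟩
        push_cast
        omega
      · rw [List.mem_cons, List.mem_singleton] at h5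
        rcases h5 with rfl | rfl
        · refine ⟨rfl, ?_, ?_⟩ <;> push_cast <;> omega
        · refine ⟨rfl, ?_, ?_⟩ <;> push_cast <;> omega
    · intro z
      rw [g3, h3, zero_add]
      have h6 : ¬ crs z (x, y + (n : ℤ)) (x, y + ((n + 1 : ℕ) : ℤ)) := by
        rintro (⟨e1, e2, -⟩ | ⟨e1, e2, -⟩)
        · simp only at e1 e2
          omega
        · simp only at e1 e2
          omega
      simp only [par, if_neg h6, add_zero]

private theorem TB2_down (x y : ℤ) (n : ℕ) : ∃ l : List Pt, TB2_Wk L (x, y) (x, y - n) l ∧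
    (∀ w ∈ l, w.1 = x ∧ y - n ≤ w.2 ∧ w.2 ≤ y) ∧ ∀ z, par z l = 0 := by
  induction n with
  | zero =>
    refine ⟨[(x, y)], ?_, ?_, fun z => rfl⟩
    · have := TB2_single (L := L) (x, y)
      simpa using this
    · intro w hw
      rw [List.mem_singleton] at hw
      subst hw
      simp
  | succ n ih =>
    obtain ⟨l, h1, h2, h3⟩ := ih
    have h4 : L.Adj (x, y - n) (x, y - ((n + 1 : ℕ) : ℤ)) := by
      have h5 := adj_up (L := L) (x, y - ((n + 1 : ℕ) : ℤ))
      have e : y - ((n + 1 : ℕ) : ℤ) + 1 = y - n := by push_cast; ring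
      simp only [e] at h5
      exact h5.symm
    obtain ⟨l', g1, g2, g3⟩ := TB2_glue h1 (TB2_step h4)
    refine ⟨l', g1, ?_, ?_⟩
    · intro w hw
      rcases g2 w hw with h5 | h5
      · have := h2 w h5
        refine ⟨this.1, ?_, this.2.2⟩
        push_cast
        omega
      · rw [List.mem_cons, List.mem_singleton] at h5
        rcases h5 with rfl | rfl
        · refine ⟨rfl, ?_, ?_⟩ <;> push_cast <;> omega
        · refine ⟨rfl, ?_, ?_⟩ <;> push_cast <;> omega
    · intro z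
      rw [g3, h3, zero_add]
      have h6 : ¬ crs z (x, y - (n : ℤ)) (x, y - ((n + 1 : ℕ) : ℤ)) := by
        rintro (⟨e1, e2, -⟩ | ⟨e1, e2, -⟩)
        · simp only at e1 e2
          omega
        · simp only at e1 e2
          omega
      simp only [par, if_neg h6, add_zero]

private theorem TB2_left (x y : ℤ) (n : ℕ) : ∃ l : List Pt, TB2_Wk L (x, y) (x - n, y) l ∧
    (∀ w ∈ l, x - n ≤ w.1 ∧ w.1 ≤ x ∧ w.2 = y) ∧
    ∀ z : Pt, par z l = if x - n ≤ z.1 ∧ z.1 < x ∧ z.2 < y then 1 else 0 := by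
  induction n with
  | zero =>
    refine ⟨[(x, y)], ?_, ?_, fun z => ?_⟩
    · have := TB2_single (L := L) (x, y)
      simpa using this
    · intro w hw
      rw [List.mem_singleton] at hw
      subst hw
      simp
    · rw [if_neg]
      · rfl
      · rintro ⟨h1, h2, -⟩
        simp only [Nat.cast_zero, sub_zero] at h1
        omega
  | succ n ih =>
    obtain ⟨l, h1, h2, h3⟩ := ih
    have h4 : L.Adj (x - n, y) (x - ((n + 1 : ℕ) : ℤ), y) := by
      have h5 := adj_right (L := L) (x - ((n + 1 : ℕ) : ℤ), y)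
      have e : x - ((n + 1 : ℕ) : ℤ) + 1 = x - n := by push_cast; ring
      simp only [e] at h5
      exact h5.symm
    obtain ⟨l', g1, g2, g3⟩ := TB2_glue h1 (TB2_step h4)
    refine ⟨l', g1, ?_, ?_⟩
    · intro w hw
      rcases g2 w hw with h5 | h5
      · have := h2 w h5
        refine ⟨?_, this.2.1, this.2.2⟩
        push_cast
        omega
      · rw [List.mem_cons, List.mem_singleton] at h5
        rcases h5 with rfl | rfl
        · refine ⟨?_, ?_, rfl⟩ <;> push_cast <;> omega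
        · refine ⟨?_, ?_, rfl⟩ <;> push_cast <;> omega
    · intro z
      rw [g3, h3]
      simp only [par, add_zero]
      by_cases hz : z.1 = x - ((n + 1 : ℕ) : ℤ)
      · have hn : ¬ (x - (n : ℤ) ≤ z.1 ∧ z.1 < x ∧ z.2 < y) := by
          rintro ⟨h5, -, -⟩
          push_cast at hz
          omega
        rw [if_neg hn, zero_add]
        by_cases hy : z.2 < y
        · have hc : crs z (x - (n : ℤ), y) (x - ((n + 1 : ℕ) : ℤ), y) := by
            refine Or.inr ⟨hz.symm, ?_, hy⟩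
            simp only
            push_cast at hz
            omega
          rw [if_pos hc, if_pos]
          refine ⟨hz.ge, ?_, hy⟩
          push_cast at hz
          omega
        · have hc : ¬ crs z (x - (n : ℤ), y) (x - ((n + 1 : ℕ) : ℤ), y) := by
            rintro (⟨-, -, e3⟩ | ⟨-, -, e3⟩)
            · exact hy e3
            · exact hy e3
          rw [if_neg hc, if_neg]
          rintro ⟨-, -, h6⟩
          exact hy h6
      · have hc : ¬ crs z (x - (n : ℤ), y) (x - ((n + 1 : ℕ) : ℤ), y) := by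
          rintro (⟨e1, e2, -⟩ | ⟨e1, -, -⟩)
          · simp only at e1 e2
            push_cast at e2
            omega
          · exact hz e1.symm
        rw [if_neg hc, add_zero]
        have hiff : (x - (n : ℤ) ≤ z.1 ∧ z.1 < x ∧ z.2 < y) ↔
            (x - ((n + 1 : ℕ) : ℤ) ≤ z.1 ∧ z.1 < x ∧ z.2 < y) := by
          push_cast at hz ⊢
          omega
        simp only [hiff]

/-- CROSSING PATHS (left-right against top-bottom).  If `P`, `P'` are disjoint take the closed walk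
consisting of a path in `P` from `(a,y₁)` to `(b,y₃)`, then `(b+1,y₃)`, up to `(b+1,d+1)`, left to
`(a-1,d+1)`, down to `(a-1,y₁)`, `(a,y₁)`.  Its parity at the site `(x₂,d)` of `P'` is one (only the
step between `(x₂,d+1)` and `(x₂+1,d+1)` counts), at `(x₄,c)` zero (`par_adj` and `par_below` for
`(x₄,c-1)`), contradiction to `par_cn`. -/
theorem cross {a b c d : ℤ} {P P' : Set Pt} (hP : L.Con P) (hP' : L.Con P')
    (hPr : P ⊆ rect a b c d) (hPr' : P' ⊆ rect a b c d)
    (h1 : ∃ v ∈ P, v.1 = a) (h2 : ∃ v ∈ P, v.1 = b)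
    (h3 : ∃ v ∈ P', v.2 = c) (h4 : ∃ v ∈ P', v.2 = d) : (P ∩ P').Nonempty := by
  by_contra hne
  have hdis : ∀ v ∈ P', v ∉ P := fun v hv hv' => hne ⟨v, hv', hv⟩
  obtain ⟨⟨a', y1⟩, hp1, ha'⟩ := h1
  obtain ⟨⟨b', y3⟩, hp2, hb'⟩ := h2
  obtain ⟨⟨x4, c'⟩, hp3, hc'⟩ := h3
  obtain ⟨⟨x2, d'⟩, hp4, hd'⟩ := h4
  simp only at ha' hb' hc' hd'
  subst ha'
  subst hb'
  subst hc'
  subst hd'
  -- bounds
  have r1 : (a' ≤ a' ∧ a' ≤ b') ∧ c' ≤ y1 ∧ y1 ≤ d' := hPr hp1
  have r2 : (a' ≤ b' ∧ b' ≤ b') ∧ c' ≤ y3 ∧ y3 ≤ d' := hPr hp2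
  have r3 : (a' ≤ x4 ∧ x4 ≤ b') ∧ c' ≤ c' ∧ c' ≤ d' := hPr' hp3
  have r4 : (a' ≤ x2 ∧ x2 ≤ b') ∧ c' ≤ d' ∧ d' ≤ d' := hPr' hp4
  -- the closed walk
  obtain ⟨l0, -, k1, k2, k3, k4⟩ := (hP _ hp1 _ hp2).path
  have w0 : TB2_Wk L (a', y1) (b', y3) l0 := ⟨k1, k2, k4⟩
  have w1 : TB2_Wk L (b', y3) (b' + 1, y3) [(b', y3), (b' + 1, y3)] :=
    TB2_step (adj_right (b', y3))
  obtain ⟨l2, w2, m2, q2⟩ := TB2_up (L := L) (b' + 1) y3 (d' + 1 - y3).toNat
  have e2 : y3 + ((d' + 1 - y3).toNat : ℤ) = d' + 1 := by omega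
  rw [e2] at w2 m2
  obtain ⟨l3, w3, m3, q3⟩ := TB2_left (L := L) (b' + 1) (d' + 1) (b' + 1 - (a' - 1)).toNat
  have e3 : b' + 1 - ((b' + 1 - (a' - 1)).toNat : ℤ) = a' - 1 := by omega
  rw [e3] at w3 m3 q3
  obtain ⟨l4, w4, m4, q4⟩ := TB2_down (L := L) (a' - 1) (d' + 1) (d' + 1 - y1).toNat
  have e4 : d' + 1 - ((d' + 1 - y1).toNat : ℤ) = y1 := by omega
  rw [e4] at w4 m4
  have w5 : TB2_Wk L (a' - 1, y1) (a', y1) [(a' - 1, y1), (a', y1)] := by
    refine TB2_step ?_
    have := adj_right (L := L) (a' - 1, y1)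
    simpa using this
  obtain ⟨l01, w01, m01, q01⟩ := TB2_glue w0 w1
  obtain ⟨l02, w02, m02, q02⟩ := TB2_glue w01 w2
  obtain ⟨l03, w03, m03, q03⟩ := TB2_glue w02 w3
  obtain ⟨l04, w04, m04, q04⟩ := TB2_glue w03 w4
  obtain ⟨l, w, m, q⟩ := TB2_glue w04 w5
  have hcl : l.head? = l.getLast? := by rw [w.hd, w.la]
  -- the sites of the walk
  have hmem : ∀ v ∈ l, v ∈ P ∨ (c' ≤ v.2 ∧ (v.1 = b' + 1 ∨ v.2 = d' + 1 ∨ v.1 = a' - 1)) := by
    intro v hv
    rcases m v hv with hv | hv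
    · rcases m04 v hv with hv | hv
      · rcases m03 v hv with hv | hv
        · rcases m02 v hv with hv | hv
          · rcases m01 v hv with hv | hv
            · exact Or.inl (k3 v hv)
            · rw [List.mem_cons, List.mem_singleton] at hv
              rcases hv with rfl | rfl
              · exact Or.inl hp2
              · exact Or.inr ⟨r2.2.1, Or.inl rfl⟩
          · have := m2 v hv
            exact Or.inr ⟨r2.2.1.trans this.2.1, Or.inl this.1⟩
        · have := m3 v hv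
          refine Or.inr ⟨?_, Or.inr (Or.inl this.2.2)⟩
          omega
      · have := m4 v hv
        exact Or.inr ⟨r1.2.1.trans this.2.1, Or.inr (Or.inr this.1)⟩
    · rw [List.mem_cons, List.mem_singleton] at hv
      rcases hv with rfl | rfl
      · exact Or.inr ⟨r1.2.1, Or.inr (Or.inr rfl)⟩
      · exact Or.inl hp1
  have hoff : ∀ v ∈ P', v ∉ l := by
    intro v hv hvl
    rcases hmem v hvl with h5 | ⟨-, h5⟩
    · exact hdis v hv h5
    · have h6 : (a' ≤ v.1 ∧ v.1 ≤ b') ∧ c' ≤ v.2 ∧ v.2 ≤ d' := hPr' hv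
      omega
  have hlow : ∀ v ∈ l, c' - 1 < v.2 := by
    intro v hv
    rcases hmem v hv with h5 | ⟨h5, -⟩
    · have h6 : (a' ≤ v.1 ∧ v.1 ≤ b') ∧ c' ≤ v.2 ∧ v.2 ≤ d' := hPr h5
      omega
    · omega
  -- parity at the lower site
  have pz : par (x4, c') l = 0 := by
    have h5 : par (x4, c' - 1) l = 0 := par_below w.ch hcl hlow
    rw [← h5]
    refine (par_adj w.ch hcl (fun h => ?_) (hoff _ hp3) ?_).symm
    · have := hlow _ h
      simp only at this
      omega
    · have := adj_up (L := L) (x4, c' - 1)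
      simpa using this
  -- parity at the upper site
  have po : par (x2, d') l = 1 := by
    rw [q, q04, q03, q02, q01, q2, q3, q4]
    have z1 : par (x2, d') l0 = 0 := by
      refine par_above fun v hv => ?_
      have h6 : (a' ≤ v.1 ∧ v.1 ≤ b') ∧ c' ≤ v.2 ∧ v.2 ≤ d' := hPr (k3 v hv)
      exact h6.2.2
    have z2 : par (x2, d') [(b', y3), (b' + 1, y3)] = 0 := by
      refine par_above fun v hv => ?_
      rw [List.mem_cons, List.mem_singleton] at hv
      rcases hv with rfl | rfl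
      · exact r2.2.2
      · exact r2.2.2
    have z3 : par (x2, d') [(a' - 1, y1), (a', y1)] = 0 := by
      refine par_above fun v hv => ?_
      rw [List.mem_cons, List.mem_singleton] at hv
      rcases hv with rfl | rfl
      · exact r1.2.2
      · exact r1.2.2
    rw [z1, z2, z3, if_pos]
    · simp
    · refine ⟨?_, ?_, ?_⟩ <;> simp only [] <;> omega
  have hpar := par_cn w.ch hcl hoff (hP' _ hp3 _ hp4)
  rw [pz, po] at hpar
  exact absurd hpar (by decide)

end Lat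

end SC

end

/-! ### from `Lib_MP_e0a489.TB5` -/

section

/-!
# MP_e0a489, topology 2e: interlaced boundary points
-/

set_option autoImplicit false

namespace SC

open Classical

namespace Lat

variable {L : Lat}

/-- the path outside the rectangle which joins the boundary point number `i` to the row `c - 10` -/
private def TB5E (a b c d k i : ℤ) : Set Pt :=
  if i ≤ b - a then rect (a + i) (a + i) (c - 10) c
  else if i ≤ (b - a) + (d - c) then
    rect b (b + k) (c + (i - (b - a))) (c + (i - (b - a))) ∪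
      rect (b + k) (b + k) (c - 10) (c + (i - (b - a)))
  else if i ≤ 2 * (b - a) + (d - c) then
    rect (b - (i - (b - a) - (d - c))) (b - (i - (b - a) - (d - c))) d (d + k) ∪
      (rect (b - (i - (b - a) - (d - c))) (b + k) (d + k) (d + k) ∪
        rect (b + k) (b + k) (c - 10) (d + k))
  else
    rect (a - k) a (d - (i - 2 * (b - a) - (d - c))) (d - (i - 2 * (b - a) - (d - c))) ∪
      (rect (a - k) (a - k) (d - (i - 2 * (b - a) - (d - c))) (d + k) ∪
        (rect (a - k) (b + k) (d + k) (d + k) ∪ rect (b + k) (b + k) (c - 10) (d + k)))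

/-- its column in the row `c - 10` -/
private def TB5X (a b k i : ℤ) : ℤ := if i ≤ b - a then a + i else b + k

private theorem TB5_mem {a b c d k i : ℤ} {v : Pt} (h : v ∈ TB5E a b c d k i) :
    (i ≤ b - a ∧ v.1 = a + i ∧ c - 10 ≤ v.2 ∧ v.2 ≤ c) ∨
    (b - a < i ∧ i ≤ (b - a) + (d - c) ∧
      ((b ≤ v.1 ∧ v.1 ≤ b + k ∧ v.2 = c + (i - (b - a))) ∨
       (v.1 = b + k ∧ c - 10 ≤ v.2 ∧ v.2 ≤ c + (i - (b - a))))) ∨
    ((b - a) + (d - c) < i ∧ i ≤ 2 * (b - a) + (d - c) ∧
      ((v.1 = b - (i - (b - a) - (d - c)) ∧ d ≤ v.2 ∧ v.2 ≤ d + k) ∨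
       (b - (i - (b - a) - (d - c)) ≤ v.1 ∧ v.1 ≤ b + k ∧ v.2 = d + k) ∨
       (v.1 = b + k ∧ c - 10 ≤ v.2 ∧ v.2 ≤ d + k))) ∨
    (2 * (b - a) + (d - c) < i ∧
      ((a - k ≤ v.1 ∧ v.1 ≤ a ∧ v.2 = d - (i - 2 * (b - a) - (d - c))) ∨
       (v.1 = a - k ∧ d - (i - 2 * (b - a) - (d - c)) ≤ v.2 ∧ v.2 ≤ d + k) ∨
       (a - k ≤ v.1 ∧ v.1 ≤ b + k ∧ v.2 = d + k) ∨
       (v.1 = b + k ∧ c - 10 ≤ v.2 ∧ v.2 ≤ d + k))) := by
  unfold TB5E at h
  split_ifs at h with h1 h2 h3
  · left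
    obtain ⟨⟨h4, h5⟩, h6, h7⟩ := h
    exact ⟨h1, by omega, h6, h7⟩
  · right; left
    refine ⟨by omega, h2, ?_⟩
    rcases h with ⟨⟨h4, h5⟩, h6, h7⟩ | ⟨⟨h4, h5⟩, h6, h7⟩
    · left; omega
    · right; omega
  · right; right; left
    refine ⟨by omega, h3, ?_⟩
    rcases h with ⟨⟨h4, h5⟩, h6, h7⟩ | ⟨⟨h4, h5⟩, h6, h7⟩ | ⟨⟨h4, h5⟩, h6, h7⟩
    · left; omega
    · right; left; omega
    · right; right; omega
  · right; right; right
    refine ⟨by omega, ?_⟩
    rcases h with ⟨⟨h4, h5⟩, h6, h7⟩ | ⟨⟨h4, h5⟩, h6, h7⟩ | ⟨⟨h4, h5⟩, h6, h7⟩ | ⟨⟨h4, h5⟩, h6, h7⟩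
    · left; omega
    · right; left; omega
    · right; right; left; omega
    · right; right; right; omega

private theorem TB5_bound {a b c d k i : ℤ} (hab : a < b) (hcd : c < d) (hk : 1 ≤ k) (h0 : 0 ≤ i)
    (hi : i < 2 * (b - a) + 2 * (d - c)) {v : Pt} (h : v ∈ TB5E a b c d k i) :
    a - k ≤ v.1 ∧ v.1 ≤ b + k ∧ c - 10 ≤ v.2 ∧ v.2 ≤ d + k := by
  rcases TB5_mem h with h1 | ⟨h1, h2, h3 | h3⟩ | ⟨h1, h2, h3 | h3 | h3⟩ | ⟨h1, h3 | h3 | h3 | h3⟩ <;>
    omega

private theorem TB5_low {a b c d k i : ℤ} (hab : a < b) (hcd : c < d) (hk : 1 ≤ k) (h0 : 0 ≤ i)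
    (hi : i < 2 * (b - a) + 2 * (d - c)) {v : Pt} (h : v ∈ TB5E a b c d k i) (hv : v.2 ≤ c - 10) :
    v.1 = TB5X a b k i := by
  unfold TB5X
  rcases TB5_mem h with h1 | ⟨h1, h2, h3 | h3⟩ | ⟨h1, h2, h3 | h3 | h3⟩ | ⟨h1, h3 | h3 | h3 | h3⟩ <;>
    split_ifs <;> omega

private theorem TB5_rect {a b c d k i : ℤ} (hab : a < b) (hcd : c < d) (hk : 1 ≤ k) (h0 : 0 ≤ i)
    (hi : i < 2 * (b - a) + 2 * (d - c)) {v : Pt} (h : v ∈ TB5E a b c d k i)
    (hv : v ∈ rect a b c d) : v = bp a b c d i := by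
  obtain ⟨⟨v1, v2⟩, v3, v4⟩ := hv
  have key : v.1 = (bp a b c d i).1 ∧ v.2 = (bp a b c d i).2 := by
    unfold bp
    rcases TB5_mem h with h1 | ⟨h1, h2, h3 | h3⟩ | ⟨h1, h2, h3 | h3 | h3⟩ | ⟨h1, h3 | h3 | h3 | h3⟩ <;>
      split_ifs <;> simp only <;> omega
  exact Prod.ext key.1 key.2

private theorem TB5_disj {a b c d k i k' i' : ℤ} (hab : a < b) (hcd : c < d) (hk : 1 ≤ k)
    (hkk : k < k') (hk' : k' ≤ 4) (h0 : 0 ≤ i) (hii : i < i')
    (hi : i' < 2 * (b - a) + 2 * (d - c)) {v : Pt} (h : v ∈ TB5E a b c d k i)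
    (h' : v ∈ TB5E a b c d k' i') : False := by
  rcases TB5_mem h with h1 | ⟨h1, h2, h3 | h3⟩ | ⟨h1, h2, h3 | h3 | h3⟩ | ⟨h1, h3 | h3 | h3 | h3⟩ <;>
    rcases TB5_mem h' with g1 | ⟨g1, g2, g3 | g3⟩ | ⟨g1, g2, g3 | g3 | g3⟩ | ⟨g1, g3 | g3 | g3 | g3⟩ <;>
    omega

private theorem TB5_bp {a b c d k i : ℤ} (hab : a < b) (hcd : c < d) (hk : 1 ≤ k) (h0 : 0 ≤ i)
    (hi : i < 2 * (b - a) + 2 * (d - c)) : bp a b c d i ∈ TB5E a b c d k i := by
  unfold TB5E bp
  split_ifs
  · exact ⟨⟨by simp only; omega, by simp only; omega⟩, by simp only; omega, by simp only; omega⟩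
  · left
    exact ⟨⟨by simp only; omega, by simp only; omega⟩, by simp only; omega, by simp only; omega⟩
  · left
    exact ⟨⟨by simp only; omega, by simp only; omega⟩, by simp only; omega, by simp only; omega⟩
  · left
    exact ⟨⟨by simp only; omega, by simp only; omega⟩, by simp only; omega, by simp only; omega⟩

private theorem TB5_Xmem {a b c d k i : ℤ} (hab : a < b) (hcd : c < d) (hk : 1 ≤ k) (h0 : 0 ≤ i)
    (hi : i < 2 * (b - a) + 2 * (d - c)) : ((TB5X a b k i, c - 10) : Pt) ∈ TB5E a b c d k i := by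
  unfold TB5E TB5X
  split_ifs
  · exact ⟨⟨by simp only; omega, by simp only; omega⟩, by simp only; omega, by simp only; omega⟩
  · right
    exact ⟨⟨by simp only; omega, by simp only; omega⟩, by simp only; omega, by simp only; omega⟩
  · right; right
    exact ⟨⟨by simp only; omega, by simp only; omega⟩, by simp only; omega, by simp only; omega⟩
  · right; right; right
    exact ⟨⟨by simp only; omega, by simp only; omega⟩, by simp only; omega, by simp only; omega⟩

private theorem TB5_rmem {a b c d x y : ℤ} (h1 : a ≤ x) (h2 : x ≤ b) (h3 : c ≤ y) (h4 : y ≤ d) :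
    ((x, y) : Pt) ∈ rect a b c d := ⟨⟨h1, h2⟩, h3, h4⟩

private theorem TB5_con {a b c d k i : ℤ} (hab : a < b) (hcd : c < d) (hk : 1 ≤ k) (h0 : 0 ≤ i)
    (hi : i < 2 * (b - a) + 2 * (d - c)) : L.Con (TB5E a b c d k i) := by
  unfold TB5E
  split_ifs
  · exact con_rect _ _ _ _
  · refine Con.union (con_rect _ _ _ _) (con_rect _ _ _ _) ⟨(b + k, c + (i - (b - a))), ?_, ?_⟩
    · exact TB5_rmem (by omega) (by omega) (by omega) (by omega)
    · exact TB5_rmem (by omega) (by omega) (by omega) (by omega)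
  · refine Con.union (con_rect _ _ _ _) (Con.union (con_rect _ _ _ _) (con_rect _ _ _ _)
      ⟨(b + k, d + k), ?_, ?_⟩) ⟨(b - (i - (b - a) - (d - c)), d + k), ?_, Or.inl ?_⟩
    · exact TB5_rmem (by omega) (by omega) (by omega) (by omega)
    · exact TB5_rmem (by omega) (by omega) (by omega) (by omega)
    · exact TB5_rmem (by omega) (by omega) (by omega) (by omega)
    · exact TB5_rmem (by omega) (by omega) (by omega) (by omega)
  · refine Con.union (con_rect _ _ _ _) (Con.union (con_rect _ _ _ _) (Con.union (con_rect _ _ _ _)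
      (con_rect _ _ _ _) ⟨(b + k, d + k), ?_, ?_⟩) ⟨(a - k, d + k), ?_, Or.inl ?_⟩)
      ⟨(a - k, d - (i - 2 * (b - a) - (d - c))), ?_, Or.inl ?_⟩
    · exact TB5_rmem (by omega) (by omega) (by omega) (by omega)
    · exact TB5_rmem (by omega) (by omega) (by omega) (by omega)
    · exact TB5_rmem (by omega) (by omega) (by omega) (by omega)
    · exact TB5_rmem (by omega) (by omega) (by omega) (by omega)
    · exact TB5_rmem (by omega) (by omega) (by omega) (by omega)
    · exact TB5_rmem (by omega) (by omega) (by omega) (by omega)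

private theorem TB5_X {a b k i k' i' : ℤ} (hkk : k < k') (hk : 1 ≤ k) (hii : i < i') :
    TB5X a b k i < TB5X a b k' i' := by
  unfold TB5X
  split_ifs <;> omega

private theorem TB5_Xa {a b k i : ℤ} (hab : a < b) (hk : 1 ≤ k) (h0 : 0 ≤ i) :
    a ≤ TB5X a b k i ∧ TB5X a b k i ≤ b + k := by
  unfold TB5X
  split_ifs <;> omega

/-- INTERLACED BOUNDARY POINTS: two connected sets in a rectangle which contain interlaced pairs of
boundary points meet.  Proof from `cross` by extending the sets outside the rectangle.  The point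
number `j = 1, 2, 3, 4` (index `i_j`) is joined to a point `(X_j, c - 10)` by the path `E_j`
(with `k = j`): from a point `(x,c)` of the bottom side straight down; from a point `(b,y)` of the
right side right to column `b + k`, then down; from a point `(x,d)` of the top side up to row
`d + k`, right to column `b + k`, down; from a point `(a,y)` of the left side left to column
`a - k`, up to row `d + k`, right to column `b + k`, down.  These four paths are disjoint, meet the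
rectangle only at their first points, and `X_1 < X_2 < X_3 < X_4`.  Now extend once more:
`P` by `(X_1, c-11)` and the row `c - 11` to the left up to column `a - 7`, and `(X_3, c-11)` and
the row `c - 11` to the right up to column `b + 7`; `P'` by `(X_2, c-11), (X_2, c-12)` and by the
row `c - 10` from `X_4` to column `b + 6` and this column up to row `d + 7`.  Then `cross` in
`[a-7,b+7] × [c-12,d+7]`. -/
theorem interlace {a b c d : ℤ} (hab : a < b) (hcd : c < d) {P P' : Set Pt} (hP : L.Con P)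
    (hP' : L.Con P') (hPr : P ⊆ rect a b c d) (hPr' : P' ⊆ rect a b c d) {i1 i2 i3 i4 : ℤ}
    (h0 : 0 ≤ i1) (h12 : i1 < i2) (h23 : i2 < i3) (h34 : i3 < i4)
    (h4 : i4 < 2 * (b - a) + 2 * (d - c)) (m1 : bp a b c d i1 ∈ P) (m3 : bp a b c d i3 ∈ P)
    (m2 : bp a b c d i2 ∈ P') (m4 : bp a b c d i4 ∈ P') : (P ∩ P').Nonempty := by
  obtain ⟨X1, hX1⟩ : ∃ X1, X1 = TB5X a b 1 i1 := ⟨_, rfl⟩
  obtain ⟨X2, hX2⟩ : ∃ X2, X2 = TB5X a b 2 i2 := ⟨_, rfl⟩
  obtain ⟨X3, hX3⟩ : ∃ X3, X3 = TB5X a b 3 i3 := ⟨_, rfl⟩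
  obtain ⟨X4, hX4⟩ : ∃ X4, X4 = TB5X a b 4 i4 := ⟨_, rfl⟩
  have x12 : X1 < X2 := by rw [hX1, hX2]; exact TB5_X (by omega) (by omega) h12
  have x23 : X2 < X3 := by rw [hX2, hX3]; exact TB5_X (by omega) (by omega) h23
  have x34 : X3 < X4 := by rw [hX3, hX4]; exact TB5_X (by omega) (by omega) h34
  have x1a : a ≤ X1 := by rw [hX1]; exact (TB5_Xa hab (by omega) h0).1
  have x4b : X4 ≤ b + 4 := by rw [hX4]; exact (TB5_Xa hab (by omega) (by omega)).2
  set E1 := TB5E a b c d 1 i1 with hE1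
  set E2 := TB5E a b c d 2 i2 with hE2
  set E3 := TB5E a b c d 3 i3 with hE3
  set E4 := TB5E a b c d 4 i4 with hE4
  have c1 : L.Con E1 := TB5_con hab hcd (by omega) (by omega) (by omega)
  have c2 : L.Con E2 := TB5_con hab hcd (by omega) (by omega) (by omega)
  have c3 : L.Con E3 := TB5_con hab hcd (by omega) (by omega) (by omega)
  have c4 : L.Con E4 := TB5_con hab hcd (by omega) (by omega) (by omega)
  have b1 : bp a b c d i1 ∈ E1 := TB5_bp hab hcd (by omega) (by omega) (by omega)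
  have b2 : bp a b c d i2 ∈ E2 := TB5_bp hab hcd (by omega) (by omega) (by omega)
  have b3 : bp a b c d i3 ∈ E3 := TB5_bp hab hcd (by omega) (by omega) (by omega)
  have b4 : bp a b c d i4 ∈ E4 := TB5_bp hab hcd (by omega) (by omega) (by omega)
  have e1 : ((X1, c - 10) : Pt) ∈ E1 := by
    rw [hX1]; exact TB5_Xmem hab hcd (by omega) (by omega) (by omega)
  have e2 : ((X2, c - 10) : Pt) ∈ E2 := by
    rw [hX2]; exact TB5_Xmem hab hcd (by omega) (by omega) (by omega)
  have e3 : ((X3, c - 10) : Pt) ∈ E3 := by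
    rw [hX3]; exact TB5_Xmem hab hcd (by omega) (by omega) (by omega)
  have e4 : ((X4, c - 10) : Pt) ∈ E4 := by
    rw [hX4]; exact TB5_Xmem hab hcd (by omega) (by omega) (by omega)
  -- the two extensions of `P`
  have q1 : L.Con (E1 ∪ (rect X1 X1 (c - 11) (c - 10) ∪ rect (a - 7) X1 (c - 11) (c - 11))) :=
    Con.union c1 (Con.union (con_rect _ _ _ _) (con_rect _ _ _ _)
      ⟨(X1, c - 11), TB5_rmem (by omega) (by omega) (by omega) (by omega),
        TB5_rmem (by omega) (by omega) (by omega) (by omega)⟩)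
      ⟨(X1, c - 10), e1, Or.inl (TB5_rmem (by omega) (by omega) (by omega) (by omega))⟩
  have q3 : L.Con (E3 ∪ (rect X3 X3 (c - 11) (c - 10) ∪ rect X3 (b + 7) (c - 11) (c - 11))) :=
    Con.union c3 (Con.union (con_rect _ _ _ _) (con_rect _ _ _ _)
      ⟨(X3, c - 11), TB5_rmem (by omega) (by omega) (by omega) (by omega),
        TB5_rmem (by omega) (by omega) (by omega) (by omega)⟩)
      ⟨(X3, c - 10), e3, Or.inl (TB5_rmem (by omega) (by omega) (by omega) (by omega))⟩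
  have q2 : L.Con (E2 ∪ rect X2 X2 (c - 12) (c - 10)) :=
    Con.union c2 (con_rect _ _ _ _)
      ⟨(X2, c - 10), e2, TB5_rmem (by omega) (by omega) (by omega) (by omega)⟩
  have q4 : L.Con (E4 ∪ (rect X4 (b + 6) (c - 10) (c - 10) ∪ rect (b + 6) (b + 6) (c - 10) (d + 7))) :=
    Con.union c4 (Con.union (con_rect _ _ _ _) (con_rect _ _ _ _)
      ⟨(b + 6, c - 10), TB5_rmem (by omega) (by omega) (by omega) (by omega),
        TB5_rmem (by omega) (by omega) (by omega) (by omega)⟩)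
      ⟨(X4, c - 10), e4, Or.inl (TB5_rmem (by omega) (by omega) (by omega) (by omega))⟩
  have hQ : L.Con ((P ∪ (E1 ∪ (rect X1 X1 (c - 11) (c - 10) ∪ rect (a - 7) X1 (c - 11) (c - 11)))) ∪
      (E3 ∪ (rect X3 X3 (c - 11) (c - 10) ∪ rect X3 (b + 7) (c - 11) (c - 11)))) :=
    Con.union (Con.union hP q1 ⟨_, m1, Or.inl b1⟩) q3 ⟨_, Or.inl m3, Or.inl b3⟩
  have hQ' : L.Con ((P' ∪ (E2 ∪ rect X2 X2 (c - 12) (c - 10))) ∪
      (E4 ∪ (rect X4 (b + 6) (c - 10) (c - 10) ∪ rect (b + 6) (b + 6) (c - 10) (d + 7)))) :=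
    Con.union (Con.union hP' q2 ⟨_, m2, Or.inl b2⟩) q4 ⟨_, Or.inl m4, Or.inl b4⟩
  have bd1 : ∀ v ∈ E1, a - 1 ≤ v.1 ∧ v.1 ≤ b + 1 ∧ c - 10 ≤ v.2 ∧ v.2 ≤ d + 1 := fun v hv =>
    TB5_bound hab hcd (by omega) (by omega) (by omega) hv
  have bd2 : ∀ v ∈ E2, a - 2 ≤ v.1 ∧ v.1 ≤ b + 2 ∧ c - 10 ≤ v.2 ∧ v.2 ≤ d + 2 := fun v hv =>
    TB5_bound hab hcd (by omega) (by omega) (by omega) hv
  have bd3 : ∀ v ∈ E3, a - 3 ≤ v.1 ∧ v.1 ≤ b + 3 ∧ c - 10 ≤ v.2 ∧ v.2 ≤ d + 3 := fun v hv =>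
    TB5_bound hab hcd (by omega) (by omega) (by omega) hv
  have bd4 : ∀ v ∈ E4, a - 4 ≤ v.1 ∧ v.1 ≤ b + 4 ∧ c - 10 ≤ v.2 ∧ v.2 ≤ d + 4 := fun v hv =>
    TB5_bound hab hcd (by omega) (by omega) (by omega) hv
  have lo1 : ∀ v ∈ E1, v.2 ≤ c - 10 → v.1 = X1 := fun v hv h => by
    rw [hX1]; exact TB5_low hab hcd (by omega) (by omega) (by omega) hv h
  have lo2 : ∀ v ∈ E2, v.2 ≤ c - 10 → v.1 = X2 := fun v hv h => by
    rw [hX2]; exact TB5_low hab hcd (by omega) (by omega) (by omega) hv h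
  have lo3 : ∀ v ∈ E3, v.2 ≤ c - 10 → v.1 = X3 := fun v hv h => by
    rw [hX3]; exact TB5_low hab hcd (by omega) (by omega) (by omega) hv h
  have lo4 : ∀ v ∈ E4, v.2 ≤ c - 10 → v.1 = X4 := fun v hv h => by
    rw [hX4]; exact TB5_low hab hcd (by omega) (by omega) (by omega) hv h
  have hcr := cross (a := a - 7) (b := b + 7) (c := c - 12) (d := d + 7) hQ hQ' ?_ ?_
    ⟨(a - 7, c - 11), Or.inl (Or.inr (Or.inr (Or.inr
      (TB5_rmem (by omega) (by omega) (by omega) (by omega))))), rfl⟩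
    ⟨(b + 7, c - 11), Or.inr (Or.inr (Or.inr
      (TB5_rmem (by omega) (by omega) (by omega) (by omega)))), rfl⟩
    ⟨(X2, c - 12), Or.inl (Or.inr (Or.inr
      (TB5_rmem (by omega) (by omega) (by omega) (by omega)))), rfl⟩
    ⟨(b + 6, d + 7), Or.inr (Or.inr (Or.inr
      (TB5_rmem (by omega) (by omega) (by omega) (by omega)))), rfl⟩
  · obtain ⟨v, hv, hv'⟩ := hcr
    rcases hv with (hv | hv | hv | hv) | hv | hv | hv
    · rcases hv' with (hv' | hv' | hv') | hv' | hv' | hv'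
      · exact ⟨v, hv, hv'⟩
      · have hb := TB5_rect hab hcd (by omega) (by omega) (by omega) hv' (hPr hv)
        exact ⟨v, hv, by rw [hb]; exact m2⟩
      · exfalso
        obtain ⟨⟨g1, g2⟩, g3, g4⟩ := hPr hv
        obtain ⟨⟨g1', g2'⟩, g3', g4'⟩ := hv'
        omega
      · have hb := TB5_rect hab hcd (by omega) (by omega) (by omega) hv' (hPr hv)
        exact ⟨v, hv, by rw [hb]; exact m4⟩
      · exfalso
        obtain ⟨⟨g1, g2⟩, g3, g4⟩ := hPr hv
        obtain ⟨⟨g1', g2'⟩, g3', g4'⟩ := hv'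
        omega
      · exfalso
        obtain ⟨⟨g1, g2⟩, g3, g4⟩ := hPr hv
        obtain ⟨⟨g1', g2'⟩, g3', g4'⟩ := hv'
        omega
    · rcases hv' with (hv' | hv' | hv') | hv' | hv' | hv'
      · have hb := TB5_rect hab hcd (by omega) (by omega) (by omega) hv (hPr' hv')
        exact ⟨v, by rw [hb]; exact m1, hv'⟩
      · exact (TB5_disj hab hcd (by omega) (by omega) (by omega) (by omega) (by omega) (by omega) hv hv').elim
      · exfalso
        obtain ⟨g1, g2, g3, g4⟩ := bd1 v hv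
        have g5 := lo1 v hv
        obtain ⟨⟨g1', g2'⟩, g3', g4'⟩ := hv'
        omega
      · exact (TB5_disj hab hcd (by omega) (by omega) (by omega) (by omega) (by omega) (by omega) hv hv').elim
      · exfalso
        obtain ⟨g1, g2, g3, g4⟩ := bd1 v hv
        have g5 := lo1 v hv
        obtain ⟨⟨g1', g2'⟩, g3', g4'⟩ := hv'
        omega
      · exfalso
        obtain ⟨g1, g2, g3, g4⟩ := bd1 v hv
        have g5 := lo1 v hv
        obtain ⟨⟨g1', g2'⟩, g3', g4'⟩ := hv'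
        omega
    · rcases hv' with (hv' | hv' | hv') | hv' | hv' | hv'
      · exfalso
        obtain ⟨⟨g1, g2⟩, g3, g4⟩ := hv
        obtain ⟨⟨g1', g2'⟩, g3', g4'⟩ := hPr' hv'
        omega
      · exfalso
        obtain ⟨⟨g1, g2⟩, g3, g4⟩ := hv
        obtain ⟨g1', g2', g3', g4'⟩ := bd2 v hv'
        have g5' := lo2 v hv'
        omega
      · exfalso
        obtain ⟨⟨g1, g2⟩, g3, g4⟩ := hv
        obtain ⟨⟨g1', g2'⟩, g3', g4'⟩ := hv'
        omega
      · exfalso
        obtain ⟨⟨g1, g2⟩, g3, g4⟩ := hv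
        obtain ⟨g1', g2', g3', g4'⟩ := bd4 v hv'
        have g5' := lo4 v hv'
        omega
      · exfalso
        obtain ⟨⟨g1, g2⟩, g3, g4⟩ := hv
        obtain ⟨⟨g1', g2'⟩, g3', g4'⟩ := hv'
        omega
      · exfalso
        obtain ⟨⟨g1, g2⟩, g3, g4⟩ := hv
        obtain ⟨⟨g1', g2'⟩, g3', g4'⟩ := hv'
        omega
    · rcases hv' with (hv' | hv' | hv') | hv' | hv' | hv'
      · exfalso
        obtain ⟨⟨g1, g2⟩, g3, g4⟩ := hv
        obtain ⟨⟨g1', g2'⟩, g3', g4'⟩ := hPr' hv'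
        omega
      · exfalso
        obtain ⟨⟨g1, g2⟩, g3, g4⟩ := hv
        obtain ⟨g1', g2', g3', g4'⟩ := bd2 v hv'
        have g5' := lo2 v hv'
        omega
      · exfalso
        obtain ⟨⟨g1, g2⟩, g3, g4⟩ := hv
        obtain ⟨⟨g1', g2'⟩, g3', g4'⟩ := hv'
        omega
      · exfalso
        obtain ⟨⟨g1, g2⟩, g3, g4⟩ := hv
        obtain ⟨g1', g2', g3', g4'⟩ := bd4 v hv'
        have g5' := lo4 v hv'
        omega
      · exfalso
        obtain ⟨⟨g1, g2⟩, g3, g4⟩ := hv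
        obtain ⟨⟨g1', g2'⟩, g3', g4'⟩ := hv'
        omega
      · exfalso
        obtain ⟨⟨g1, g2⟩, g3, g4⟩ := hv
        obtain ⟨⟨g1', g2'⟩, g3', g4'⟩ := hv'
        omega
    · rcases hv' with (hv' | hv' | hv') | hv' | hv' | hv'
      · have hb := TB5_rect hab hcd (by omega) (by omega) (by omega) hv (hPr' hv')
        exact ⟨v, by rw [hb]; exact m3, hv'⟩
      · exact (TB5_disj hab hcd (by omega) (by omega) (by omega) (by omega) h23 (by omega) hv' hv).elim
      · exfalso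
        obtain ⟨g1, g2, g3, g4⟩ := bd3 v hv
        have g5 := lo3 v hv
        obtain ⟨⟨g1', g2'⟩, g3', g4'⟩ := hv'
        omega
      · exact (TB5_disj hab hcd (by omega) (by omega) (by omega) (by omega) (by omega) (by omega) hv hv').elim
      · exfalso
        obtain ⟨g1, g2, g3, g4⟩ := bd3 v hv
        have g5 := lo3 v hv
        obtain ⟨⟨g1', g2'⟩, g3', g4'⟩ := hv'
        omega
      · exfalso
        obtain ⟨g1, g2, g3, g4⟩ := bd3 v hv
        have g5 := lo3 v hv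
        obtain ⟨⟨g1', g2'⟩, g3', g4'⟩ := hv'
        omega
    · rcases hv' with (hv' | hv' | hv') | hv' | hv' | hv'
      · exfalso
        obtain ⟨⟨g1, g2⟩, g3, g4⟩ := hv
        obtain ⟨⟨g1', g2'⟩, g3', g4'⟩ := hPr' hv'
        omega
      · exfalso
        obtain ⟨⟨g1, g2⟩, g3, g4⟩ := hv
        obtain ⟨g1', g2', g3', g4'⟩ := bd2 v hv'
        have g5' := lo2 v hv'
        omega
      · exfalso
        obtain ⟨⟨g1, g2⟩, g3, g4⟩ := hv
        obtain ⟨⟨g1', g2'⟩, g3', g4'⟩ := hv'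
        omega
      · exfalso
        obtain ⟨⟨g1, g2⟩, g3, g4⟩ := hv
        obtain ⟨g1', g2', g3', g4'⟩ := bd4 v hv'
        have g5' := lo4 v hv'
        omega
      · exfalso
        obtain ⟨⟨g1, g2⟩, g3, g4⟩ := hv
        obtain ⟨⟨g1', g2'⟩, g3', g4'⟩ := hv'
        omega
      · exfalso
        obtain ⟨⟨g1, g2⟩, g3, g4⟩ := hv
        obtain ⟨⟨g1', g2'⟩, g3', g4'⟩ := hv'
        omega
    · rcases hv' with (hv' | hv' | hv') | hv' | hv' | hv'
      · exfalso
        obtain ⟨⟨g1, g2⟩, g3, g4⟩ := hv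
        obtain ⟨⟨g1', g2'⟩, g3', g4'⟩ := hPr' hv'
        omega
      · exfalso
        obtain ⟨⟨g1, g2⟩, g3, g4⟩ := hv
        obtain ⟨g1', g2', g3', g4'⟩ := bd2 v hv'
        have g5' := lo2 v hv'
        omega
      · exfalso
        obtain ⟨⟨g1, g2⟩, g3, g4⟩ := hv
        obtain ⟨⟨g1', g2'⟩, g3', g4'⟩ := hv'
        omega
      · exfalso
        obtain ⟨⟨g1, g2⟩, g3, g4⟩ := hv
        obtain ⟨g1', g2', g3', g4'⟩ := bd4 v hv'
        have g5' := lo4 v hv'
        omega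
      · exfalso
        obtain ⟨⟨g1, g2⟩, g3, g4⟩ := hv
        obtain ⟨⟨g1', g2'⟩, g3', g4'⟩ := hv'
        omega
      · exfalso
        obtain ⟨⟨g1, g2⟩, g3, g4⟩ := hv
        obtain ⟨⟨g1', g2'⟩, g3', g4'⟩ := hv'
        omega
  · intro v hv
    rcases hv with (hv | hv | hv | hv) | hv | hv | hv
    · obtain ⟨⟨g1, g2⟩, g3, g4⟩ := hPr hv
      exact ⟨⟨by omega, by omega⟩, by omega, by omega⟩
    · obtain ⟨g1, g2, g3, g4⟩ := bd1 v hv
      exact ⟨⟨by omega, by omega⟩, by omega, by omega⟩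
    · obtain ⟨⟨g1, g2⟩, g3, g4⟩ := hv
      exact ⟨⟨by omega, by omega⟩, by omega, by omega⟩
    · obtain ⟨⟨g1, g2⟩, g3, g4⟩ := hv
      exact ⟨⟨by omega, by omega⟩, by omega, by omega⟩
    · obtain ⟨g1, g2, g3, g4⟩ := bd3 v hv
      exact ⟨⟨by omega, by omega⟩, by omega, by omega⟩
    · obtain ⟨⟨g1, g2⟩, g3, g4⟩ := hv
      exact ⟨⟨by omega, by omega⟩, by omega, by omega⟩
    · obtain ⟨⟨g1, g2⟩, g3, g4⟩ := hv
      exact ⟨⟨by omega, by omega⟩, by omega, by omega⟩
  · intro v hv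
    rcases hv with (hv | hv | hv) | hv | hv | hv
    · obtain ⟨⟨g1, g2⟩, g3, g4⟩ := hPr' hv
      exact ⟨⟨by omega, by omega⟩, by omega, by omega⟩
    · obtain ⟨g1, g2, g3, g4⟩ := bd2 v hv
      exact ⟨⟨by omega, by omega⟩, by omega, by omega⟩
    · obtain ⟨⟨g1, g2⟩, g3, g4⟩ := hv
      exact ⟨⟨by omega, by omega⟩, by omega, by omega⟩
    · obtain ⟨g1, g2, g3, g4⟩ := bd4 v hv
      exact ⟨⟨by omega, by omega⟩, by omega, by omega⟩
    · obtain ⟨⟨g1, g2⟩, g3, g4⟩ := hv
      exact ⟨⟨by omega, by omega⟩, by omega, by omega⟩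
    · obtain ⟨⟨g1, g2⟩, g3, g4⟩ := hv
      exact ⟨⟨by omega, by omega⟩, by omega, by omega⟩

end Lat

end SC

end

/-! ### from `Lib_MP_e0a489.TB3` -/

section

/-!
# MP_e0a489, topology 2c: crossing paths, corner free form
-/

set_option autoImplicit false

namespace SC

open Classical

namespace Lat

variable {L : Lat}

/-- a connected set contains a crossing of a strip -/
private theorem TB3_strip {A : Set Pt} (hA : L.Con A) (f : Pt → ℤ)
    (hf : ∀ u v, L.Adj u v → |f u - f v| ≤ 1) {al be : ℤ} (hab : al ≤ be) {u v : Pt} (hu : u ∈ A)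
    (hv : v ∈ A) (hu1 : f u ≤ al) (hv1 : be ≤ f v) :
    ∃ Q ⊆ A, L.Con Q ∧ (∀ w ∈ Q, al ≤ f w ∧ f w ≤ be) ∧ (∃ w ∈ Q, f w = al) ∧
      ∃ w ∈ Q, f w = be := by
  -- a path in `A ∩ {al ≤ f}` from `p` with `f p = al` to `v`
  obtain ⟨p, hpA, hp, hpv⟩ : ∃ p ∈ A, f p = al ∧ L.Cn (A ∩ {w | al ≤ f w}) p v := by
    by_cases hv2 : f v ≤ al
    · exact ⟨v, hv, by omega, Cn.refl ⟨hv, show al ≤ f v by omega⟩⟩
    · obtain ⟨p, q, hpA, hpS, hpq, hqv⟩ :=
        (hA u hu v hv).last (S := {w | f w ≤ al}) hu1 hv2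
      have hq : ¬ f q ≤ al := hqv.left.2
      have hp1 : f p ≤ al := hpS
      have h1 := abs_le.1 (hf p q hpq)
      have hp2 : f p = al := by omega
      refine ⟨p, hpA, hp2, ?_⟩
      have hmono : L.Cn (A ∩ {w | al ≤ f w}) q v := by
        apply hqv.mono
        rintro w ⟨hwA, hwS⟩
        have hw : ¬ f w ≤ al := hwS
        exact ⟨hwA, show al ≤ f w by omega⟩
      have hpm : p ∈ A ∩ {w | al ≤ f w} := ⟨hpA, show al ≤ f p by omega⟩
      exact (Cn.of_adj hpm hmono.left hpq).trans hmono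
  by_cases hlt : al < be
  · obtain ⟨p', q', hpp, hpq, hqB, hqS⟩ := hpv.exit (S := {w | f w < be})
      (show f p < be by omega) (show ¬ f v < be by omega)
    have hq1 : ¬ f q' < be := hqS
    have hp1 : f p' < be := hpp.right.2
    have h1 := abs_le.1 (hf p' q' hpq)
    have hq2 : f q' = be := by omega
    have hin : ∀ w ∈ {w | L.Cn (A ∩ {w | al ≤ f w} ∩ {w | f w < be}) p w},
        w ∈ A ∧ al ≤ f w ∧ f w < be := by
      intro w hw
      have h2 : L.Cn (A ∩ {w | al ≤ f w} ∩ {w | f w < be}) p w := hw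
      exact ⟨h2.right.1.1, h2.right.1.2, h2.right.2⟩
    refine ⟨{w | L.Cn (A ∩ {w | al ≤ f w} ∩ {w | f w < be}) p w} ∪ {q'}, ?_, ?_, ?_, ?_, ?_⟩
    · rintro w (hw | hw)
      · exact (hin w hw).1
      · rw [Set.mem_singleton_iff.1 hw]
        exact hqB.1
    · exact (con_cluster _ p).union_adj (con_singleton q') (u := p') hpp rfl hpq
    · rintro w (hw | hw)
      · have h2 := hin w hw
        exact ⟨h2.2.1, h2.2.2.le⟩
      · rw [Set.mem_singleton_iff.1 hw]
        exact ⟨hqB.2, hq2.le⟩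
    · exact ⟨p, Or.inl (Cn.refl hpp.left), hp⟩
    · exact ⟨q', Or.inr rfl, hq2⟩
  · refine ⟨{p}, ?_, con_singleton p, ?_, ⟨p, rfl, hp⟩, ⟨p, rfl, by omega⟩⟩
    · intro w hw
      rw [Set.mem_singleton_iff.1 hw]
      exact hpA
    · intro w hw
      rw [Set.mem_singleton_iff.1 hw]
      omega

/-- Crossing paths in a corner free form (rule X): `P` is a path in `[a,b] × [c,d]` from left to
right, `P'` a path in `[a',b'] × [c',d']` from bottom to top, `a ≤ a'`, `b' ≤ b`, `c' ≤ c`,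
`d ≤ d'`.  Both contain crossings of `[a',b'] × [c,d]` (`Cn.last`, `Cn.exit`). -/
theorem crossX {a b c d a' b' c' d' : ℤ} {P P' : Set Pt} (hP : L.Con P) (hP' : L.Con P')
    (hPr : P ⊆ rect a b c d) (hPr' : P' ⊆ rect a' b' c' d')
    (h1 : ∃ v ∈ P, v.1 = a) (h2 : ∃ v ∈ P, v.1 = b)
    (h3 : ∃ v ∈ P', v.2 = c') (h4 : ∃ v ∈ P', v.2 = d')
    (ha : a ≤ a') (hb : b' ≤ b) (hc : c' ≤ c) (hd : d ≤ d') (hab : a' ≤ b') (hcd : c ≤ d) :
    (P ∩ P' ∩ rect a' b' c d).Nonempty := by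
  obtain ⟨u1, hu1, hu1'⟩ := h1
  obtain ⟨u2, hu2, hu2'⟩ := h2
  obtain ⟨u3, hu3, hu3'⟩ := h3
  obtain ⟨u4, hu4, hu4'⟩ := h4
  obtain ⟨Q, hQ, hQc, hQr, hQ1, hQ2⟩ := TB3_strip hP (fun v => v.1) (fun u v h => h.near.1) hab
    hu1 hu2 (by show u1.1 ≤ a'; omega) (by show b' ≤ u2.1; omega)
  obtain ⟨Q', hQ', hQc', hQr', hQ1', hQ2'⟩ := TB3_strip hP' (fun v => v.2) (fun u v h => h.near.2)
    hcd hu3 hu4 (by show u3.2 ≤ c; omega) (by show d ≤ u4.2; omega)
  obtain ⟨w, hw, hw'⟩ := cross hQc hQc' (a := a') (b := b') (c := c) (d := d)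
    (fun v hv => ⟨hQr v hv, (hPr (hQ hv)).2⟩) (fun v hv => ⟨(hPr' (hQ' hv)).1, hQr' v hv⟩)
    hQ1 hQ2 hQ1' hQ2'
  exact ⟨w, ⟨hQ hw, hQ' hw'⟩, hQr w hw, (hPr (hQ hw)).2⟩

end Lat

end SC

end

/-! ### from `Lib_MP_e0a489.TB6` -/

section

/-!
# MP_e0a489, topology 2f: arches
-/

set_option autoImplicit false

namespace SC

open Classical

namespace Lat

variable {L : Lat}

private theorem bp_bot {a b c d x : ℤ} (h : x ≤ b) : bp a b c d (x - a) = (x, c) := by
  unfold bp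
  rw [if_pos (by linarith)]
  simp

/-- Special case: arch over a point of the bottom side against a path from this point to one of the
other three sides. -/
theorem arch {a b c d : ℤ} (hab : a < b) (hcd : c < d) {P P' : Set Pt} (hP : L.Con P)
    (hP' : L.Con P') (hPr : P ⊆ rect a b c d) (hPr' : P' ⊆ rect a b c d) {x1 x2 x3 : ℤ}
    (h12 : x1 ≤ x2) (h23 : x2 ≤ x3) (m1 : (x1, c) ∈ P) (m3 : (x3, c) ∈ P) (m2 : (x2, c) ∈ P')
    (m4 : ∃ v ∈ P', v.1 = a ∨ v.1 = b ∨ v.2 = d) : (P ∩ P').Nonempty := by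
  rcases h12.eq_or_lt with h | h12
  · subst h; exact ⟨_, m1, m2⟩
  rcases h23.eq_or_lt with h | h23
  · subst h; exact ⟨_, m3, m2⟩
  obtain ⟨v, hv, hvb⟩ := m4
  obtain ⟨⟨r1, _⟩, _, _⟩ := hPr m1
  obtain ⟨⟨_, r3⟩, _, _⟩ := hPr m3
  simp only at r1 r3
  obtain ⟨i, hi0, hi1, hiv⟩ := bp_surj (a := a) (b := b) (c := c) (d := d) hab hcd (hPr' hv)
    (by tauto)
  rcases lt_or_ge (x3 - a) i with hlt | hle
  · exact interlace hab hcd hP hP' hPr hPr' (i1 := x1 - a) (i2 := x2 - a) (i3 := x3 - a) (i4 := i)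
      (by linarith) (by linarith) (by linarith) hlt hi1 (by rwa [bp_bot (by linarith)])
      (by rwa [bp_bot (by linarith)]) (by rwa [bp_bot (by linarith)]) (by rwa [hiv])
  · have hv2 : v = (a + i, c) := by
      rw [← hiv]
      unfold bp
      rw [if_pos (by linarith)]
    have hc1 : v.1 = a + i := by rw [hv2]
    have hc2 : v.2 = c := by rw [hv2]
    rcases hvb with h | h | h
    · have h0 : i = 0 := by linarith
      rcases r1.eq_or_lt with hx | hx
      · refine ⟨_, m1, ?_⟩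
        rw [← hx]
        rw [hv2, h0, add_zero] at hv
        exact hv
      · have := interlace hab hcd hP' hP hPr' hPr (i1 := i) (i2 := x1 - a) (i3 := x2 - a)
          (i4 := x3 - a) (by linarith) (by linarith) (by linarith) (by linarith) (by linarith)
          (by rwa [hiv]) (by rwa [bp_bot (by linarith)]) (by rwa [bp_bot (by linarith)])
          (by rwa [bp_bot (by linarith)])
        rwa [Set.inter_comm] at this
    · refine ⟨_, m3, ?_⟩
      have : v = (x3, c) := by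
        rw [hv2]
        congr 1
        linarith
      rwa [this] at hv
    · exfalso; linarith

end Lat

end SC

end

/-! ### from `Lib_MP_e0a489.PG2` -/

section

/-!
# MP_e0a489, probability toolkit 8b: first level inequality for stopping sets
-/

set_option autoImplicit false

namespace SC

open Classical

/-- `R` is a stopping set made of blocks of `𝓑` (a family of disjoint blocks) -/
structure BStop (𝓑 : Finset (Finset Pt)) (R : Cfg → Finset (Finset Pt)) : Prop where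
  sub : ∀ ω, R ω ⊆ 𝓑
  stop : ∀ ω ω' : Cfg, (∀ B ∈ R ω, ∀ v ∈ B, ω v = ω' v) → R ω' = R ω

private theorem PG2_ind_congr {A : Cfg → Prop} {ω ω' : Cfg} (h : A ω = A ω') :
    ind A ω = ind A ω' := by
  unfold ind
  by_cases h1 : A ω
  · rw [if_pos h1, if_pos (h ▸ h1)]
  · rw [if_neg h1, if_neg (h ▸ h1)]

private theorem PG2_ind_mem (A : Cfg → Prop) (ω : Cfg) : ind A ω = 0 ∨ ind A ω = 1 := by
  unfold ind
  split_ifs
  · exact Or.inr rfl
  · exact Or.inl rfl

/-- `ω` and `ω'` agree off a block which is not in `R ω` -/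
private theorem PG2_R {𝓑 : Finset (Finset Pt)}
    (hd : ∀ B ∈ 𝓑, ∀ B' ∈ 𝓑, B ≠ B' → Disjoint B B')
    {R : Cfg → Finset (Finset Pt)} (hR : BStop 𝓑 R) {B : Finset Pt} (hB : B ∈ 𝓑) {ω ω' : Cfg}
    (h : ∀ v, v ∉ B → ω v = ω' v) (hn : B ∉ R ω) :
    (∀ C ∈ R ω, ∀ v ∈ C, ω v = ω' v) ∧ R ω' = R ω := by
  have h1 : ∀ C ∈ R ω, ∀ v ∈ C, ω v = ω' v := by
    intro C hC v hv
    apply h
    have hne : C ≠ B := by
      rintro rfl
      exact hn hC
    exact Finset.disjoint_left.1 (hd C (hR.sub ω hC) B hB hne) hv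
  exact ⟨h1, hR.stop ω ω' h1⟩

private theorem PG2_mem {𝓑 : Finset (Finset Pt)}
    (hd : ∀ B ∈ 𝓑, ∀ B' ∈ 𝓑, B ≠ B' → Disjoint B B')
    {R : Cfg → Finset (Finset Pt)} (hR : BStop 𝓑 R) {B : Finset Pt} (hB : B ∈ 𝓑) {ω ω' : Cfg}
    (h : ∀ v, v ∉ B → ω v = ω' v) : (B ∈ R ω) = (B ∈ R ω') := by
  by_cases h1 : B ∈ R ω
  · by_cases h2 : B ∈ R ω'
    · exact propext ⟨fun _ => h2, fun _ => h1⟩
    · exfalso
      have h3 := (PG2_R hd hR hB (fun v hv => (h v hv).symm) h2).2
      rw [h3] at h1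
      exact h2 h1
  · have h3 := (PG2_R hd hR hB h h1).2
    rw [h3]

private theorem PG2_zero {B : Finset Pt} {h X : Cfg → ℝ} (lh : Lf h)
    (hh : ∀ ω ω' : Cfg, (∀ v, v ∉ B → ω v = ω' v) → h ω = h ω') (hX : Dep X (B : Set Pt)) :
    ex (fun ω => h ω * X ω) = ex h * ex X := by
  refine ex_mul (A := (B : Set Pt)ᶜ) (B := (B : Set Pt)) lh ⟨B, hX⟩ ?_ hX ?_
  · intro ω ω' hw
    apply hh
    intro v hv
    exact hw v (by simpa using hv)
  · intro v hv
    exact hv

/-- FIRST LEVEL.  `𝓑` disjoint blocks, `R` a stopping set of blocks which determines `f`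
(`f ω' = f ω` if `ω = ω'` on the blocks of `R ω`), `0 ≤ f ≤ 1`, `X B` depends only on the block `B`,
`E X = 0`, `E X² ≤ V`.  Then
`∑ E[f X_B] ≤ (V ∑ P(B ∈ R)) ^ (1/2)`.
Proof: given the blocks of `R ω`, the other blocks are fresh, so `E[f ∑ X_B] = E[f ∑_{B ∈ R} X_B]
≤ (E (∑_{B ∈ R} X_B)²)^(1/2)`, and `E (∑_{all} X_B)² = ∑ E X_B² = E (∑_{B ∈ R} X_B)² +
E ∑_{B ∉ R} E X_B²`, whence `E (∑_{B ∈ R} X_B)² = E ∑_{B ∈ R} E X_B² ≤ V ∑ P(B ∈ R)`. -/
theorem level_one {𝓑 : Finset (Finset Pt)} (hd : ∀ B ∈ 𝓑, ∀ B' ∈ 𝓑, B ≠ B' → Disjoint B B')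
    {R : Cfg → Finset (Finset Pt)} (hR : BStop 𝓑 R) {f : Cfg → ℝ} (lf : Lf f)
    (f0 : ∀ ω, 0 ≤ f ω) (f1 : ∀ ω, f ω ≤ 1)
    (hf : ∀ ω ω' : Cfg, (∀ B ∈ R ω, ∀ v ∈ B, ω v = ω' v) → f ω' = f ω)
    {X : Finset Pt → Cfg → ℝ} (hX : ∀ B ∈ 𝓑, Dep (X B) (B : Set Pt))
    (hX0 : ∀ B ∈ 𝓑, ex (X B) = 0) {V : ℝ} (hV : ∀ B ∈ 𝓑, ex (fun ω => X B ω ^ 2) ≤ V) :
    ∑ B ∈ 𝓑, ex (fun ω => f ω * X B ω) ≤
      Real.sqrt (V * ∑ B ∈ 𝓑, pr (fun ω => B ∈ R ω)) := by
  have lR : ∀ B, Loc (fun ω => B ∈ R ω) := by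
    intro B
    refine ⟨𝓑.biUnion id, ?_⟩
    intro ω ω' hw
    have h1 : R ω' = R ω := hR.stop ω ω' (fun C hC v hv => hw v (by
      have : v ∈ 𝓑.biUnion id := Finset.mem_biUnion.2 ⟨C, hR.sub ω hC, hv⟩
      exact_mod_cast this))
    show (B ∈ R ω) = (B ∈ R ω')
    rw [h1]
  let r : Finset Pt → Cfg → ℝ := fun B => ind (fun ω => B ∈ R ω)
  have lr : ∀ B, Lf (r B) := fun B => (lR B).lf
  have lX : ∀ B ∈ 𝓑, Lf (X B) := fun B hB => ⟨B, hX B hB⟩
  have l1 : Lf (fun _ : Cfg => (1 : ℝ)) := Lf.const 1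
  have hr : ∀ B ∈ 𝓑, ∀ ω ω' : Cfg, (∀ v, v ∉ B → ω v = ω' v) → r B ω = r B ω' := by
    intro B hB ω ω' h
    have h1 := PG2_mem hd hR hB h
    exact PG2_ind_congr h1
  have hXB : ∀ B ∈ 𝓑, ∀ B' ∈ 𝓑, B ≠ B' → ∀ ω ω' : Cfg, (∀ v, v ∉ B' → ω v = ω' v) →
      X B ω = X B ω' := by
    intro B hB B' hB' hne ω ω' h
    exact hX B hB ω ω' (fun v hv => h v (Finset.disjoint_left.1 (hd B hB B' hB' hne)
      (by exact_mod_cast hv)))
  -- cross terms
  have cross : ∀ B ∈ 𝓑, ∀ B' ∈ 𝓑, B ≠ B' →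
      ex (fun ω => (r B ω * X B ω) * (r B' ω * X B' ω)) = 0 := by
    intro B hB B' hB' hne
    have e1 : ex (fun ω => (r B ω * X B' ω) * X B ω) = 0 := by
      rw [PG2_zero ((lr B).mul (lX B' hB')) ?_ (hX B hB), hX0 B hB, mul_zero]
      intro ω ω' h
      show r B ω * X B' ω = r B ω' * X B' ω'
      rw [hr B hB ω ω' h, hXB B' hB' B hB hne.symm ω ω' h]
    have e2 : ex (fun ω => ((r B ω * (1 - r B' ω)) * X B ω) * X B' ω) = 0 := by
      rw [PG2_zero (((lr B).mul (l1.sub (lr B'))).mul (lX B hB)) ?_ (hX B' hB'), hX0 B' hB',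
        mul_zero]
      intro ω ω' h
      show (r B ω * (1 - r B' ω)) * X B ω = (r B ω' * (1 - r B' ω')) * X B ω'
      rw [hXB B hB B' hB' hne ω ω' h, hr B' hB' ω ω' h]
      by_cases h1 : B' ∈ R ω'
      · have h2 : r B' ω' = 1 := if_pos h1
        rw [h2]
        ring
      · have h2 := (PG2_R hd hR hB' (fun v hv => (h v hv).symm) h1).2
        have h3 : r B ω = r B ω' := by
          apply PG2_ind_congr
          show (B ∈ R ω) = (B ∈ R ω')
          rw [h2]
        rw [h3]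
    have e3 : ex (fun ω => (r B ω * X B ω) * (r B' ω * X B' ω)) =
        ex (fun ω => (r B ω * X B' ω) * X B ω - ((r B ω * (1 - r B' ω)) * X B ω) * X B' ω) := by
      congr 1
      funext ω
      ring
    rw [e3, ex_sub (((lr B).mul (lX B' hB')).mul (lX B hB))
      ((((lr B).mul (l1.sub (lr B'))).mul (lX B hB)).mul (lX B' hB')), e1, e2, sub_zero]
  -- diagonal terms
  have diag : ∀ B ∈ 𝓑, ex (fun ω => (r B ω * X B ω) * (r B ω * X B ω)) ≤
      V * pr (fun ω => B ∈ R ω) := by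
    intro B hB
    have e1 : ex (fun ω => (r B ω * X B ω) * (r B ω * X B ω)) =
        ex (fun ω => r B ω * X B ω ^ 2) := by
      congr 1
      funext ω
      rcases PG2_ind_mem (fun ω => B ∈ R ω) ω with h | h
      · have h' : r B ω = 0 := h
        rw [h']
        ring
      · have h' : r B ω = 1 := h
        rw [h']
        ring
    have e2 : ex (fun ω => r B ω * X B ω ^ 2) = ex (r B) * ex (fun ω => X B ω ^ 2) :=
      PG2_zero (X := fun ω => X B ω ^ 2) (lr B) (hr B hB) (by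
        intro ω ω' hw
        show X B ω ^ 2 = X B ω' ^ 2
        rw [hX B hB ω ω' hw])
    rw [e1, e2, mul_comm]
    exact mul_le_mul_of_nonneg_right (hV B hB) (pr_nonneg _)
  let Y : Cfg → ℝ := fun ω => ∑ B ∈ 𝓑, r B ω * X B ω
  have lt : ∀ B ∈ 𝓑, Lf (fun ω => r B ω * X B ω) := fun B hB => (lr B).mul (lX B hB)
  have lY : Lf Y := Lf.sum lt
  have hY : ex (fun ω => Y ω ^ 2) ≤ V * ∑ B ∈ 𝓑, pr (fun ω => B ∈ R ω) := by
    have e1 : (fun ω => Y ω ^ 2) =
        fun ω => ∑ B ∈ 𝓑, ∑ B' ∈ 𝓑, (r B ω * X B ω) * (r B' ω * X B' ω) := by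
      funext ω
      show (∑ B ∈ 𝓑, r B ω * X B ω) ^ 2 = _
      rw [pow_two, Finset.sum_mul_sum]
    rw [e1, ex_sum (fun B hB => Lf.sum (fun B' hB' => (lt B hB).mul (lt B' hB'))), Finset.mul_sum]
    refine Finset.sum_le_sum fun B hB => ?_
    rw [ex_sum (fun B' hB' => (lt B hB).mul (lt B' hB')), Finset.sum_eq_single_of_mem B hB]
    · exact diag B hB
    · intro B' hB' hne
      exact cross B hB B' hB' hne.symm
  -- the sum
  have hsum : ∑ B ∈ 𝓑, ex (fun ω => f ω * X B ω) = ex (fun ω => f ω * Y ω) := by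
    have e1 : (fun ω => f ω * Y ω) = fun ω => ∑ B ∈ 𝓑, f ω * (r B ω * X B ω) := by
      funext ω
      show f ω * ∑ B ∈ 𝓑, r B ω * X B ω = _
      rw [Finset.mul_sum]
    rw [e1, ex_sum (fun B hB => lf.mul (lt B hB))]
    refine Finset.sum_congr rfl fun B hB => ?_
    have e2 : ex (fun ω => (f ω * (1 - r B ω)) * X B ω) = 0 := by
      rw [PG2_zero (lf.mul (l1.sub (lr B))) ?_ (hX B hB), hX0 B hB, mul_zero]
      intro ω ω' h
      show f ω * (1 - r B ω) = f ω' * (1 - r B ω')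
      rw [hr B hB ω ω' h]
      by_cases h1 : B ∈ R ω'
      · have h2 : r B ω' = 1 := if_pos h1
        rw [h2]
        ring
      · have h2 := (PG2_R hd hR hB (fun v hv => (h v hv).symm) h1).1
        rw [hf ω' ω h2]
    have e3 : ex (fun ω => f ω * X B ω) =
        ex (fun ω => f ω * (r B ω * X B ω) + (f ω * (1 - r B ω)) * X B ω) := by
      congr 1
      funext ω
      ring
    rw [e3, ex_add (lf.mul (lt B hB)) ((lf.mul (l1.sub (lr B))).mul (lX B hB)), e2, add_zero]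
  rw [hsum]
  refine Real.le_sqrt_of_sq_le ?_
  refine le_trans (ex_mul_sq_le lf lY) ?_
  have hf2 : ex (fun ω => f ω ^ 2) ≤ 1 := by
    rw [← ex_const (1 : ℝ)]
    refine ex_mono ?_ l1 fun ω => ?_
    · have := lf.mul lf
      simpa only [pow_two] using this
    · have h0 := f0 ω
      have h1 := f1 ω
      nlinarith
  have hY0 : 0 ≤ ex (fun ω => Y ω ^ 2) := ex_nonneg fun ω => sq_nonneg _
  calc (ex fun ω => f ω ^ 2) * (ex fun ω => Y ω ^ 2) ≤ 1 * (ex fun ω => Y ω ^ 2) :=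
        mul_le_mul_of_nonneg_right hf2 hY0
    _ = ex (fun ω => Y ω ^ 2) := one_mul _
    _ ≤ _ := hY

end SC

end

/-! ### from `Lib_MP_e0a489.FI1` -/

section

/-!
# MP_e0a489, module FI 1: domain and crossing event (definitions)
-/

set_option autoImplicit false

namespace SC

open Classical

/-- the domain: a rectangle without the set `E` of sites of its right column (`E = ∅` for the square
lattice, every second site for the triangular lattice) -/
def dom (N N' : ℤ) (E : Set Pt) : Set Pt := rect (-N) N (-N') N' \ E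

/-- right side of the domain: the sites of the last column and the sites to the left of `E` -/
def rside (N : ℤ) (E : Set Pt) : Set Pt := {v | v.1 = N ∨ (v.1 + 1, v.2) ∈ E}

/-- crossing of the domain from left to right by an open path -/
def Lat.Crs (L : Lat) (N N' : ℤ) (E : Set Pt) (ω : Cfg) : Prop :=
  L.Arm true (dom N N' E) {v | v.1 = -N} (rside N E) ω

/-- `E` is contained in the last column, and its sites have no diagonal neighbour in the column before -/
def GoodE (L : Lat) (N : ℤ) (E : Set Pt) : Prop :=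
  ∀ e ∈ E, e.1 = N ∧ ∀ p, L.Adj p e → p.1 = N - 1 → p.2 = e.2

/-- the crossing depends on the sites of `B`: it can be changed by changing the sites of `B` -/
def Lat.PivS (L : Lat) (N N' : ℤ) (E B : Set Pt) (ω : Cfg) : Prop :=
  ∃ ω₁ ω₂ : Cfg, (∀ v, v ∉ B → ω₁ v = ω v) ∧ (∀ v, v ∉ B → ω₂ v = ω v) ∧
    L.Crs N N' E ω₁ ∧ ¬ L.Crs N N' E ω₂

/-- the lattice with the sites of `E` open -/
noncomputable def Lat.force (L : Lat) (E : Set Pt) : Lat :=
  ⟨L.ne, fun v => if v ∈ E then some true else L.typ v⟩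

end SC

end

/-! ### from `Lib_MP_e0a489.ZR1` -/

section

/-!
# MP_e0a489, module ZR, 1: symmetries of the lattice `Z2`
-/

set_option autoImplicit false

namespace SC

open Classical

private theorem zr1_ext {L L' : Lat} (h1 : ∀ i j, L.ne i j = L'.ne i j)
    (h2 : ∀ v, L.typ v = L'.typ v) : L = L' := by
  cases L with
  | mk ne typ =>
    cases L' with
    | mk ne' typ' =>
      have e1 : ne = ne' := funext fun i => funext fun j => h1 i j
      have e2 : typ = typ' := funext fun v => h2 v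
      rw [e1, e2]

theorem z2_rx : Z2.rx = Z2 := by
  refine zr1_ext (fun i j => ?_) (fun v => ?_)
  · show (! decide ((-i - 1 + j) % 2 = 0)) = decide ((i + j) % 2 = 0)
    by_cases h : (i + j) % 2 = 0
    · rw [decide_eq_true h, decide_eq_false (by omega)]
      rfl
    · rw [decide_eq_false h, decide_eq_true (by omega)]
      rfl
  · show (if (-v.1) % 2 = 0 ∧ v.2 % 2 = 0 then some true
      else if (-v.1) % 2 = 1 ∧ v.2 % 2 = 1 then some false else none) =
      (if v.1 % 2 = 0 ∧ v.2 % 2 = 0 then some true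
      else if v.1 % 2 = 1 ∧ v.2 % 2 = 1 then some false else none)
    have e1 : (-v.1) % 2 = 0 ↔ v.1 % 2 = 0 := by omega
    have e2 : (-v.1) % 2 = 1 ↔ v.1 % 2 = 1 := by omega
    simp only [e1, e2]

theorem z2_ry : Z2.ry = Z2 := by
  refine zr1_ext (fun i j => ?_) (fun v => ?_)
  · show (! decide ((i + (-j - 1)) % 2 = 0)) = decide ((i + j) % 2 = 0)
    by_cases h : (i + j) % 2 = 0
    · rw [decide_eq_true h, decide_eq_false (by omega)]
      rfl
    · rw [decide_eq_false h, decide_eq_true (by omega)]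
      rfl
  · show (if v.1 % 2 = 0 ∧ (-v.2) % 2 = 0 then some true
      else if v.1 % 2 = 1 ∧ (-v.2) % 2 = 1 then some false else none) =
      (if v.1 % 2 = 0 ∧ v.2 % 2 = 0 then some true
      else if v.1 % 2 = 1 ∧ v.2 % 2 = 1 then some false else none)
    have e1 : (-v.2) % 2 = 0 ↔ v.2 % 2 = 0 := by omega
    have e2 : (-v.2) % 2 = 1 ↔ v.2 % 2 = 1 := by omega
    simp only [e1, e2]

theorem z2_tr : Z2.tr = Z2 := by
  refine zr1_ext (fun i j => ?_) (fun v => ?_)
  · show decide ((j + i) % 2 = 0) = decide ((i + j) % 2 = 0)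
    rw [add_comm]
  · show (if v.2 % 2 = 0 ∧ v.1 % 2 = 0 then some true
      else if v.2 % 2 = 1 ∧ v.1 % 2 = 1 then some false else none) =
      (if v.1 % 2 = 0 ∧ v.2 % 2 = 0 then some true
      else if v.1 % 2 = 1 ∧ v.2 % 2 = 1 then some false else none)
    have e1 : (v.2 % 2 = 0 ∧ v.1 % 2 = 0) ↔ (v.1 % 2 = 0 ∧ v.2 % 2 = 0) := and_comm
    have e2 : (v.2 % 2 = 1 ∧ v.1 % 2 = 1) ↔ (v.1 % 2 = 1 ∧ v.2 % 2 = 1) := and_comm
    simp only [e1, e2]

/-- the exchange of the colours is a translation -/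
theorem z2_sw : Z2.sw = Z2.shift (1, 1) := by
  refine zr1_ext (fun i j => ?_) (fun v => ?_)
  · show decide ((i + j) % 2 = 0) = decide (((i + 1) + (j + 1)) % 2 = 0)
    by_cases h : (i + j) % 2 = 0
    · rw [decide_eq_true h, decide_eq_true (by omega)]
    · rw [decide_eq_false h, decide_eq_false (by omega)]
  · show (if v.1 % 2 = 0 ∧ v.2 % 2 = 0 then some true
      else if v.1 % 2 = 1 ∧ v.2 % 2 = 1 then some false else none).map Bool.not =
      (if (v.1 + 1) % 2 = 0 ∧ (v.2 + 1) % 2 = 0 then some true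
      else if (v.1 + 1) % 2 = 1 ∧ (v.2 + 1) % 2 = 1 then some false else none)
    by_cases h1 : v.1 % 2 = 0 ∧ v.2 % 2 = 0
    · rw [if_pos h1, if_neg (by omega), if_pos (by omega)]
      rfl
    · by_cases h2 : v.1 % 2 = 1 ∧ v.2 % 2 = 1
      · rw [if_neg h1, if_pos h2, if_pos (by omega)]
        rfl
      · rw [if_neg h1, if_neg h2, if_neg (by omega), if_neg (by omega)]
        rfl

/-- translations by even vectors -/
theorem z2_shift (x : Pt) (h1 : x.1 % 2 = 0) (h2 : x.2 % 2 = 0) : Z2.shift x = Z2 := by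
  refine zr1_ext (fun i j => ?_) (fun v => ?_)
  · show decide (((i + x.1) + (j + x.2)) % 2 = 0) = decide ((i + j) % 2 = 0)
    by_cases h : (i + j) % 2 = 0
    · rw [decide_eq_true h, decide_eq_true (by omega)]
    · rw [decide_eq_false h, decide_eq_false (by omega)]
  · show (if (v.1 + x.1) % 2 = 0 ∧ (v.2 + x.2) % 2 = 0 then some true
      else if (v.1 + x.1) % 2 = 1 ∧ (v.2 + x.2) % 2 = 1 then some false else none) =
      (if v.1 % 2 = 0 ∧ v.2 % 2 = 0 then some true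
      else if v.1 % 2 = 1 ∧ v.2 % 2 = 1 then some false else none)
    have e1 : (v.1 + x.1) % 2 = 0 ↔ v.1 % 2 = 0 := by omega
    have e2 : (v.1 + x.1) % 2 = 1 ↔ v.1 % 2 = 1 := by omega
    have e3 : (v.2 + x.2) % 2 = 0 ↔ v.2 % 2 = 0 := by omega
    have e4 : (v.2 + x.2) % 2 = 1 ↔ v.2 % 2 = 1 := by omega
    simp only [e1, e2, e3, e4]

/-- the vertices of `ℤ²` are always open -/
theorem z2_open {ω : Cfg} {v : Pt} (h1 : v.1 % 2 = 0) (h2 : v.2 % 2 = 0) :
    v ∈ Z2.col true ω := by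
  show (Z2.typ v).getD (ω v) = true
  have : Z2.typ v = some true := if_pos ⟨h1, h2⟩
  rw [this]
  rfl

/-- the faces of `ℤ²` are always closed -/
theorem z2_closed {ω : Cfg} {v : Pt} (h1 : v.1 % 2 = 1) (h2 : v.2 % 2 = 1) :
    v ∈ Z2.col false ω := by
  show (Z2.typ v).getD (ω v) = false
  have : Z2.typ v = some false := by
    show (if v.1 % 2 = 0 ∧ v.2 % 2 = 0 then some true
      else if v.1 % 2 = 1 ∧ v.2 % 2 = 1 then some false else none) = some false
    rw [if_neg (by omega), if_pos ⟨h1, h2⟩]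
  rw [this]
  rfl

/-- the edges of `ℤ²` are fair sites -/
theorem z2_fair {v : Pt} (h : (v.1 + v.2) % 2 = 1) : Z2.typ v = none := by
  show (if v.1 % 2 = 0 ∧ v.2 % 2 = 0 then some true
      else if v.1 % 2 = 1 ∧ v.2 % 2 = 1 then some false else none) = none
  rw [if_neg (by omega), if_neg (by omega)]

/-- a site is not open and closed -/
theorem col_ne {L : Lat} {ω : Cfg} {v : Pt} (h : v ∈ L.col true ω) (h' : v ∈ L.col false ω) :
    False := by
  have e1 : L.st ω v = true := h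
  have e2 : L.st ω v = false := h'
  rw [e1] at e2
  exact Bool.noConfusion e2

/-- the sites of odd parity have only nearest neighbours -/
theorem z2_adj_odd {u v : Pt} (h : Z2.Adj u v) (hu : (u.1 + u.2) % 2 = 1) :
    (v.1 = u.1 ∧ (v.2 = u.2 + 1 ∨ v.2 = u.2 - 1)) ∨
      (v.2 = u.2 ∧ (v.1 = u.1 + 1 ∨ v.1 = u.1 - 1)) := by
  have key : ∀ i j : ℤ, Z2.ne i j = true ↔ (i + j) % 2 = 0 := fun i j => decide_eq_true_iff
  have key' : ∀ i j : ℤ, Z2.ne i j = false ↔ ¬ (i + j) % 2 = 0 := fun i j => decide_eq_false_iff_not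
  rcases h with (⟨h1, h2⟩ | ⟨h1, h2⟩ | ⟨h1, h2, h3⟩ | ⟨h1, h2, h3⟩) |
      (⟨h1, h2⟩ | ⟨h1, h2⟩ | ⟨h1, h2, h3⟩ | ⟨h1, h2, h3⟩)
  · right; omega
  · left; omega
  · rw [key] at h3; omega
  · rw [key'] at h3; omega
  · right; omega
  · left; omega
  · rw [key] at h3; omega
  · rw [key'] at h3; omega

end SC

end
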