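import Mathlib
import Pool.Agent.Lib_MP_e0a489_m.G01
import Pool.Agent.Lib_MP_e0a489_m.G02

/-!
# MP_e0a489_pr: merged library part G08

Concatenation of library files (each in its own section), only to save build time.
-/

/-! ### from `Lib_MP_e0a489.TC1` -/

section

/-!
# MP_e0a489, topology 3a: exactness of cochains of rectangles
-/

set_option autoImplicit false

namespace SC

open Classical

namespace Lat

variable {L : Lat}

/-- Every closed mod 2 cochain of `M` which vanishes on the edges inside `C` is exact. -/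
def Exact (L : Lat) (M C : Set Pt) : Prop :=
  ∀ φ : Pt → Pt → ZMod 2, (∀ u v, φ u v = φ v u) →
    (∀ u ∈ M, ∀ v ∈ M, ∀ w ∈ M, L.Adj u v → L.Adj v w → L.Adj u w → φ u v + φ v w = φ u w) →
    (∀ u ∈ M, ∀ v ∈ M, u ∈ C → v ∈ C → L.Adj u v → φ u v = 0) →
    ∃ ψ : Pt → ZMod 2, ∀ u ∈ M, ∀ v ∈ M, L.Adj u v → φ u v = ψ u + ψ v

theorem Exact.mono {M C C' : Set Pt} (h : L.Exact M C) (hC : C ⊆ C') : L.Exact M C' := by
  intro φ h1 h2 h3
  exact h φ h1 h2 (fun u hu v hv huC hvC => h3 u hu v hv (hC huC) (hC hvC))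

private theorem alg0 : ∀ x y : ZMod 2, x = y + (y + x) := by decide

private theorem alg1 : ∀ ab bc ac ad dc : ZMod 2, ab + bc = ac → ad + dc = ac →
    dc = ad + ab + bc := by decide

private theorem alg2 : ∀ ab bd ad bc cd : ZMod 2, ab + bd = ad → bc + cd = bd →
    cd = ad + ab + bc := by decide

private theorem alg3 : ∀ ab bc ac x y z : ZMod 2, ab + bc = ac → ab = x + y → bc = y + z →
    ac = x + z := by decide

private theorem adj_r (i j : ℤ) : L.Adj (i, j) (i + 1, j) := Or.inl (Or.inl ⟨rfl, rfl⟩)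

private theorem adj_u (i j : ℤ) : L.Adj (i, j) (i, j + 1) := Or.inl (Or.inr (Or.inl ⟨rfl, rfl⟩))

private theorem adj_ne {i j : ℤ} (h : L.ne i j = true) : L.Adj (i, j) (i + 1, j + 1) :=
  Or.inl (Or.inr (Or.inr (Or.inl ⟨rfl, rfl, h⟩)))

private theorem adj_nw {i j : ℤ} (h : L.ne i j = false) : L.Adj (i + 1, j) (i, j + 1) :=
  Or.inl (Or.inr (Or.inr (Or.inr ⟨by simp, rfl, h⟩)))

private theorem adj_sym {u v : Pt} (h : L.Adj u v) : L.Adj v u := Or.symm h

private theorem mem_rect' {a b c d i j : ℤ} :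
    ((i, j) : Pt) ∈ rect a b c d ↔ (a ≤ i ∧ i ≤ b) ∧ c ≤ j ∧ j ≤ d := Iff.rfl

/-- the potential of a cochain on a rectangle -/
private noncomputable def pot (φ : Pt → Pt → ZMod 2) (a c : ℤ) (v : Pt) : ZMod 2 :=
  (∑ k ∈ Finset.Ico a v.1, φ (k, c) (k + 1, c)) + ∑ l ∈ Finset.Ico c v.2, φ (v.1, l) (v.1, l + 1)

private theorem sum_Ico_succ (f : ℤ → ZMod 2) {a i : ℤ} (h : a ≤ i) :
    ∑ k ∈ Finset.Ico a (i + 1), f k = (∑ k ∈ Finset.Ico a i, f k) + f i := by
  have : Finset.Ico a (i + 1) = insert i (Finset.Ico a i) := by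
    ext x
    simp only [Finset.mem_Ico, Finset.mem_insert]
    omega
  rw [this, Finset.sum_insert (by simp), add_comm]

private theorem pot_up (φ : Pt → Pt → ZMod 2) {a c i j : ℤ} (h : c ≤ j) :
    pot φ a c (i, j + 1) = pot φ a c (i, j) + φ (i, j) (i, j + 1) := by
  simp only [pot]
  rw [sum_Ico_succ (fun l => φ (i, l) (i, l + 1)) h, add_assoc]

private theorem pot_row (φ : Pt → Pt → ZMod 2) {a c i : ℤ} (h : a ≤ i) :
    pot φ a c (i + 1, c) = pot φ a c (i, c) + φ (i, c) (i + 1, c) := by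
  simp only [pot, Finset.Ico_self, Finset.sum_empty, add_zero]
  exact sum_Ico_succ (fun k => φ (k, c) (k + 1, c)) h

private theorem pot_hor {φ : Pt → Pt → ZMod 2} {a b c d : ℤ} (hs : ∀ u v, φ u v = φ v u)
    (hc : ∀ u ∈ rect a b c d, ∀ v ∈ rect a b c d, ∀ w ∈ rect a b c d,
      L.Adj u v → L.Adj v w → L.Adj u w → φ u v + φ v w = φ u w) {i : ℤ} (hi : a ≤ i)
    (hi' : i + 1 ≤ b) (n : ℕ) (hn : c + n ≤ d) :
    φ (i, c + n) (i + 1, c + n) = pot φ a c (i, c + n) + pot φ a c (i + 1, c + n) := by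
  induction n with
  | zero =>
    simp only [Nat.cast_zero, add_zero]
    rw [pot_row φ hi]
    exact alg0 _ _
  | succ n ih =>
    have hn1 : c + (n : ℤ) + 1 ≤ d := by push_cast at hn; omega
    have ih1 := ih (by omega)
    have e : c + ((n + 1 : ℕ) : ℤ) = c + n + 1 := by push_cast; ring
    rw [e]
    have hcn : c ≤ c + (n : ℤ) := by omega
    generalize hj : c + (n : ℤ) = j at *
    have hA : ((i, j) : Pt) ∈ rect a b c d := mem_rect'.2 (by omega)
    have hB : ((i + 1, j) : Pt) ∈ rect a b c d := mem_rect'.2 (by omega)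
    have hC : ((i + 1, j + 1) : Pt) ∈ rect a b c d := mem_rect'.2 (by omega)
    have hD : ((i, j + 1) : Pt) ∈ rect a b c d := mem_rect'.2 (by omega)
    rw [pot_up φ hcn, pot_up φ hcn]
    have key : φ (i, j + 1) (i + 1, j + 1) =
        φ (i, j) (i, j + 1) + φ (i, j) (i + 1, j) + φ (i + 1, j) (i + 1, j + 1) := by
      cases hne : L.ne i j with
      | true =>
        exact alg1 _ _ _ _ _
          (hc _ hA _ hB _ hC (adj_r i j) (adj_u (i + 1) j) (adj_ne hne))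
          (hc _ hA _ hD _ hC (adj_u i j) (adj_r i (j + 1)) (adj_ne hne))
      | false =>
        rw [hs (i, j + 1) (i + 1, j + 1)]
        exact alg2 _ _ _ _ _
          (hc _ hA _ hB _ hD (adj_r i j) (adj_nw hne) (adj_u i j))
          (hc _ hB _ hC _ hD (adj_u (i + 1) j) (adj_sym (adj_r i (j + 1))) (adj_nw hne))
    rw [key, ih1]
    ring

private theorem pot_ver (φ : Pt → Pt → ZMod 2) {a c i j : ℤ} (h : c ≤ j) :
    φ (i, j) (i, j + 1) = pot φ a c (i, j) + pot φ a c (i, j + 1) := by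
  rw [pot_up φ h]
  exact alg0 _ _

private theorem pot_adj1 {φ : Pt → Pt → ZMod 2} {a b c d : ℤ} (hs : ∀ u v, φ u v = φ v u)
    (hc : ∀ u ∈ rect a b c d, ∀ v ∈ rect a b c d, ∀ w ∈ rect a b c d,
      L.Adj u v → L.Adj v w → L.Adj u w → φ u v + φ v w = φ u w) {u v : Pt}
    (hu : u ∈ rect a b c d) (hv : v ∈ rect a b c d) (h : L.Adj1 u v) :
    φ u v = pot φ a c u + pot φ a c v := by
  have hh : ∀ i j : ℤ, (a ≤ i ∧ i + 1 ≤ b) → (c ≤ j ∧ j ≤ d) →
      φ (i, j) (i + 1, j) = pot φ a c (i, j) + pot φ a c (i + 1, j) := by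
    intro i j h1 h2
    have := pot_hor (L := L) hs hc h1.1 h1.2 (j - c).toNat (by omega)
    have e : c + ((j - c).toNat : ℤ) = j := by omega
    rwa [e] at this
  obtain ⟨u1, u2⟩ := u
  obtain ⟨v1, v2⟩ := v
  rw [mem_rect'] at hu hv
  rcases h with ⟨h1, h2⟩ | ⟨h1, h2⟩ | ⟨h1, h2, h3⟩ | ⟨h1, h2, h3⟩
  · simp only at h1 h2
    subst h1 h2
    exact hh _ _ ⟨hu.1.1, hv.1.2⟩ hu.2
  · simp only at h1 h2
    subst h1 h2
    exact pot_ver φ hu.2.1
  · simp only at h1 h2 h3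
    subst h1 h2
    exact alg3 _ _ _ _ _ _
      (hc (u1, u2) (mem_rect'.2 (by omega)) (u1 + 1, u2) (mem_rect'.2 (by omega))
        (u1 + 1, u2 + 1) (mem_rect'.2 (by omega)) (adj_r u1 u2) (adj_u (u1 + 1) u2) (adj_ne h3))
      (hh _ _ ⟨hu.1.1, hv.1.2⟩ hu.2) (pot_ver φ hu.2.1)
  · simp only at h1 h2 h3
    subst h2
    obtain rfl : u1 = v1 + 1 := by omega
    refine alg3 _ _ _ _ _ _
      (hc (v1 + 1, u2) (mem_rect'.2 (by omega)) (v1, u2) (mem_rect'.2 (by omega))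
        (v1, u2 + 1) (mem_rect'.2 (by omega)) (adj_sym (adj_r v1 u2)) (adj_u v1 u2) (adj_nw h3))
      ?_ (pot_ver φ hu.2.1)
    rw [hs, hh v1 u2 ⟨hv.1.1, hu.1.2⟩ hu.2, add_comm]

/-- Rectangle: `ψ (i,j)` = sum of `φ` along the bottom row from `(a,c)` to `(i,c)` and up the column
to `(i,j)`.  Vertical edges: by definition.  Horizontal edges in row `j`: induction on `j`, the sum
of `φ` around a unit square is the sum over its two triangles.  Diagonals: one triangle. -/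
theorem exact_rect (a b c d : ℤ) (C : Set Pt) : L.Exact (rect a b c d) C := by
  intro φ hs hc _
  refine ⟨pot φ a c, fun u hu v hv h => ?_⟩
  rcases h with h | h
  · exact pot_adj1 hs hc hu hv h
  · rw [hs, pot_adj1 hs hc hv hu h, add_comm]

end Lat

end SC

end

/-! ### from `Lib_MP_e0a489.TC2` -/

section

/-!
# MP_e0a489, topology 3b: gluing
-/

set_option autoImplicit false

namespace SC

open Classical

namespace Lat

variable {L : Lat}

private theorem TC2_const {A : Set Pt} {f : Pt → ZMod 2}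
    (hf : ∀ u ∈ A, ∀ v ∈ A, L.Adj u v → f u = f v) {u v : Pt} (h : L.Cn A u v) : f u = f v := by
  obtain ⟨hu, h⟩ := h
  have key : v ∈ A ∧ f u = f v := by
    induction h with
    | refl => exact ⟨hu, rfl⟩
    | tail _ h2 ih => exact ⟨h2.2, ih.2.trans (hf _ ih.1 _ h2.2 h2.1)⟩
  exact key.2

private theorem TC2_z1 : ∀ a b : ZMod 2, a + b = 0 → a = b := by decide

private theorem TC2_z2 : ∀ a b c d : ZMod 2, a + b = c + d → a + c = b + d := by decide

private theorem TC2_z3 : ∀ a b k : ZMod 2, a + b = k → a = b + k := by decide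

private theorem TC2_z4 : ∀ a b k : ZMod 2, a + b = (a + k) + (b + k) := by decide

private theorem TC2_z5 : ∀ a b c : ZMod 2, (a + b) + (b + c) = a + c := by decide

private theorem TC2_core {M₁ M₂ C : Set Pt} (h₁ : L.Exact M₁ C) (h₂ : L.Exact M₂ C)
    (hk : ∀ f g : Pt → ZMod 2,
      (∀ u ∈ M₁, ∀ v ∈ M₁, u ∈ C → v ∈ C → L.Adj u v → f u = f v) →
      (∀ u ∈ M₂, ∀ v ∈ M₂, u ∈ C → v ∈ C → L.Adj u v → g u = g v) →
      (∀ u ∈ M₁ ∩ M₂, ∀ v ∈ M₁ ∩ M₂, L.Adj u v → f u + g u = f v + g v) →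
      ∃ k, ∀ v ∈ M₁ ∩ M₂, f v + g v = k)
    (he : ∀ u ∈ M₁ ∪ M₂, ∀ v ∈ M₁ ∪ M₂, L.Adj u v → (u ∈ M₁ ∧ v ∈ M₁) ∨ (u ∈ M₂ ∧ v ∈ M₂) ∨
      ∃ w ∈ M₁ ∩ M₂, L.Adj u w ∧ L.Adj w v) : L.Exact (M₁ ∪ M₂) C := by
  intro φ hs ht hC
  obtain ⟨f, hf⟩ := h₁ φ hs
    (fun u hu v hv w hw => ht u (Or.inl hu) v (Or.inl hv) w (Or.inl hw))
    (fun u hu v hv => hC u (Or.inl hu) v (Or.inl hv))
  obtain ⟨g, hg⟩ := h₂ φ hs
    (fun u hu v hv w hw => ht u (Or.inr hu) v (Or.inr hv) w (Or.inr hw))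
    (fun u hu v hv => hC u (Or.inr hu) v (Or.inr hv))
  obtain ⟨k, hk'⟩ := hk f g
    (fun u hu v hv huC hvC huv => TC2_z1 _ _ (by
      rw [← hf u hu v hv huv]
      exact hC u (Or.inl hu) v (Or.inl hv) huC hvC huv))
    (fun u hu v hv huC hvC huv => TC2_z1 _ _ (by
      rw [← hg u hu v hv huv]
      exact hC u (Or.inr hu) v (Or.inr hv) huC hvC huv))
    (fun u hu v hv huv => TC2_z2 _ _ _ _ (by
      rw [← hf u hu.1 v hv.1 huv, ← hg u hu.2 v hv.2 huv]))
  let ψ : Pt → ZMod 2 := fun u => if u ∈ M₁ then f u else g u + k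
  have h1 : ∀ u ∈ M₁, ψ u = f u := fun u hu => if_pos hu
  have h2 : ∀ u ∈ M₂, ψ u = g u + k := by
    intro u hu
    by_cases h : u ∈ M₁
    · rw [h1 u h]
      exact TC2_z3 _ _ _ (hk' u ⟨h, hu⟩)
    · exact if_neg h
  have e1 : ∀ u ∈ M₁, ∀ v ∈ M₁, L.Adj u v → φ u v = ψ u + ψ v := by
    intro u hu v hv huv
    rw [h1 u hu, h1 v hv]
    exact hf u hu v hv huv
  have e2 : ∀ u ∈ M₂, ∀ v ∈ M₂, L.Adj u v → φ u v = ψ u + ψ v := by
    intro u hu v hv huv
    rw [h2 u hu, h2 v hv, ← TC2_z4]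
    exact hg u hu v hv huv
  have e3 : ∀ u ∈ M₁ ∪ M₂, ∀ w ∈ M₁ ∩ M₂, L.Adj u w → φ u w = ψ u + ψ w := by
    rintro u (hu | hu) w hw huw
    · exact e1 u hu w hw.1 huw
    · exact e2 u hu w hw.2 huw
  have e4 : ∀ v ∈ M₁ ∪ M₂, ∀ w ∈ M₁ ∩ M₂, L.Adj w v → φ w v = ψ w + ψ v := by
    rintro v (hv | hv) w hw hwv
    · exact e1 w hw.1 v hv hwv
    · exact e2 w hw.2 v hv hwv
  refine ⟨ψ, fun u hu v hv huv => ?_⟩
  rcases he u hu v hv huv with h | h | ⟨w, hw, huw, hwv⟩
  · exact e1 u h.1 v h.2 huv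
  · exact e2 u h.1 v h.2 huv
  · rw [← ht u hu w (Or.inl hw.1) v hv huw hwv huv, e3 u hu w hw huw, e4 v hv w hw hwv]
    exact TC2_z5 _ _ _

/-- Gluing along a connected intersection (`ψ₁ + ψ₂` is constant on `M₁ ∩ M₂`). -/
theorem Exact.glue {M₁ M₂ C : Set Pt} (h₁ : L.Exact M₁ C) (h₂ : L.Exact M₂ C)
    (hc : L.Con (M₁ ∩ M₂))
    (he : ∀ u ∈ M₁ ∪ M₂, ∀ v ∈ M₁ ∪ M₂, L.Adj u v → (u ∈ M₁ ∧ v ∈ M₁) ∨ (u ∈ M₂ ∧ v ∈ M₂) ∨
      ∃ w ∈ M₁ ∩ M₂, L.Adj u w ∧ L.Adj w v) : L.Exact (M₁ ∪ M₂) C := by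
  refine TC2_core h₁ h₂ (fun f g _ _ h => ?_) he
  by_cases hne : (M₁ ∩ M₂).Nonempty
  · obtain ⟨u, hu⟩ := hne
    refine ⟨f u + g u, fun v hv => ?_⟩
    exact (TC2_const (f := fun x => f x + g x) h (hc u hu v hv)).symm
  · exact ⟨0, fun v hv => absurd ⟨v, hv⟩ hne⟩

/-- Relative gluing: `Z ⊆ C`, `Z ∩ M₁` and `Z ∩ M₂` are connected, and every site of `M₁ ∩ M₂` is
joined in `M₁ ∩ M₂` to a site of `Z`.  (`ψ_i` is constant on `Z ∩ M_i`.) -/
theorem Exact.glue_rel {M₁ M₂ C Z : Set Pt} (h₁ : L.Exact M₁ C) (h₂ : L.Exact M₂ C) (hZ : Z ⊆ C)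
    (hZ1 : L.Con (Z ∩ M₁)) (hZ2 : L.Con (Z ∩ M₂))
    (hc : ∀ v ∈ M₁ ∩ M₂, ∃ z ∈ Z, L.Cn (M₁ ∩ M₂) v z)
    (he : ∀ u ∈ M₁ ∪ M₂, ∀ v ∈ M₁ ∪ M₂, L.Adj u v → (u ∈ M₁ ∧ v ∈ M₁) ∨ (u ∈ M₂ ∧ v ∈ M₂) ∨
      ∃ w ∈ M₁ ∩ M₂, L.Adj u w ∧ L.Adj w v) : L.Exact (M₁ ∪ M₂) C := by
  have hmem : ∀ {A : Set Pt} {u v : Pt}, L.Cn A u v → v ∈ A := by
    intro A u v h
    obtain ⟨hu, h⟩ := h
    induction h with
    | refl => exact hu
    | tail _ h2 _ => exact h2.2
  refine TC2_core h₁ h₂ (fun f g hf hg h => ?_) he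
  by_cases hne : (M₁ ∩ M₂).Nonempty
  · obtain ⟨u, hu⟩ := hne
    obtain ⟨z, hz, huz⟩ := hc u hu
    have hzM := hmem huz
    refine ⟨f z + g z, fun v hv => ?_⟩
    obtain ⟨y, hy, hvy⟩ := hc v hv
    have hyM := hmem hvy
    have h1 : f v + g v = f y + g y := TC2_const (f := fun x => f x + g x) h hvy
    have h2 : f y = f z :=
      TC2_const (fun a ha b hb hab => hf a ha.2 b hb.2 (hZ ha.1) (hZ hb.1) hab)
        (hZ1 y ⟨hy, hyM.1⟩ z ⟨hz, hzM.1⟩)
    have h3 : g y = g z :=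
      TC2_const (fun a ha b hb hab => hg a ha.2 b hb.2 (hZ ha.1) (hZ hb.1) hab)
        (hZ2 y ⟨hy, hyM.2⟩ z ⟨hz, hzM.2⟩)
    rw [h1, h2, h3]
  · exact ⟨0, fun v hv => absurd ⟨v, hv⟩ hne⟩

end Lat

end SC

end

/-! ### from `Lib_MP_e0a489.PD1` -/

section

/-!
# MP_e0a489, probability toolkit 5a: stopping sets
-/

set_option autoImplicit false

namespace SC

open Classical

/-- `R ω` is a stopping set: it is determined by the configuration on `R ω` -/
def Stop (R : Cfg → Set Pt) : Prop := ∀ ω ω' : Cfg, (∀ v ∈ R ω, ω v = ω' v) → R ω' = R ω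

/-- the unexplored sites of `G` are replaced by those of `η` -/
noncomputable def mix (G : Finset Pt) (R : Cfg → Set Pt) (ω η : Cfg) : Cfg :=
  fun v => if v ∈ G ∧ v ∉ R ω then η v else ω v

theorem mix_R {R : Cfg → Set Pt} (hR : Stop R) (G : Finset Pt) (ω η : Cfg) :
    R (mix G R ω η) = R ω := by
  refine hR ω _ (fun v hv => ?_)
  unfold mix
  rw [if_neg (fun h => h.2 hv)]

/-- the pair of sets of the swapped pair of configurations -/
private noncomputable def swp (G : Finset Pt) (R : Cfg → Set Pt) (ω : Cfg)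
    (p : Finset Pt × Finset Pt) : Finset Pt × Finset Pt :=
  (G.filter (fun v => if v ∈ R (ovr G p.1 ω) then v ∈ p.1 else v ∈ p.2),
    G.filter (fun v => if v ∈ R (ovr G p.1 ω) then v ∈ p.2 else v ∈ p.1))

private theorem ovr_swp (G : Finset Pt) (R : Cfg → Set Pt) (ω : Cfg)
    (p : Finset Pt × Finset Pt) :
    ovr G (swp G R ω p).1 ω = mix G R (ovr G p.1 ω) (ovr G p.2 ω) := by
  funext v
  unfold mix
  by_cases hv : v ∈ G
  · rw [ovr_mem hv]
    by_cases hr : v ∈ R (ovr G p.1 ω)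
    · rw [if_neg (fun h => h.2 hr), ovr_mem hv]
      simp [swp, hv, hr]
    · rw [if_pos ⟨hv, hr⟩, ovr_mem hv]
      simp [swp, hv, hr]
  · rw [ovr_not_mem hv, if_neg (fun h => hv h.1), ovr_not_mem hv]

private theorem swp_swp {R : Cfg → Set Pt} (hR : Stop R) (G : Finset Pt) (ω : Cfg)
    {p : Finset Pt × Finset Pt} (h1 : p.1 ⊆ G) (h2 : p.2 ⊆ G) :
    swp G R ω (swp G R ω p) = p := by
  have hRR : R (ovr G (swp G R ω p).1 ω) = R (ovr G p.1 ω) := by
    rw [ovr_swp, mix_R hR]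
  have e1 : (swp G R ω (swp G R ω p)).1 = p.1 := by
    ext v
    show v ∈ G.filter (fun v => if v ∈ R (ovr G (swp G R ω p).1 ω) then v ∈ (swp G R ω p).1
      else v ∈ (swp G R ω p).2) ↔ v ∈ p.1
    rw [hRR, Finset.mem_filter]
    by_cases hr : v ∈ R (ovr G p.1 ω)
    · simp only [hr, if_true]
      simp only [swp, Finset.mem_filter, hr, if_true]
      exact ⟨fun h => h.2.2, fun h => ⟨h1 h, h1 h, h⟩⟩
    · simp only [hr, if_false]
      simp only [swp, Finset.mem_filter, hr, if_false]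
      exact ⟨fun h => h.2.2, fun h => ⟨h1 h, h1 h, h⟩⟩
  have e2 : (swp G R ω (swp G R ω p)).2 = p.2 := by
    ext v
    show v ∈ G.filter (fun v => if v ∈ R (ovr G (swp G R ω p).1 ω) then v ∈ (swp G R ω p).2
      else v ∈ (swp G R ω p).1) ↔ v ∈ p.2
    rw [hRR, Finset.mem_filter]
    by_cases hr : v ∈ R (ovr G p.1 ω)
    · simp only [hr, if_true]
      simp only [swp, Finset.mem_filter, hr, if_true]
      exact ⟨fun h => h.2.2, fun h => ⟨h2 h, h2 h, h⟩⟩
    · simp only [hr, if_false]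
      simp only [swp, Finset.mem_filter, hr, if_false]
      exact ⟨fun h => h.2.2, fun h => ⟨h2 h, h2 h, h⟩⟩
  exact Prod.ext e1 e2

private theorem swp_mem (G : Finset Pt) (R : Cfg → Set Pt) (ω : Cfg)
    (p : Finset Pt × Finset Pt) : swp G R ω p ∈ G.powerset ×ˢ G.powerset := by
  rw [Finset.mem_product, Finset.mem_powerset, Finset.mem_powerset]
  exact ⟨Finset.filter_subset _ _, Finset.filter_subset _ _⟩

/-- The mixed configuration of two independent configurations has the same law: the map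
`(ω₁, ω₂) ↦ (mix ω₁ ω₂, ω₂ with the values of ω₁ on G \ R ω₁)` is an involution of the pairs of
configurations which agree with `ω` off `G` (by `mix_R`). -/
theorem av_mix {R : Cfg → Set Pt} (hR : Stop R) (G : Finset Pt) (g : Cfg → ℝ) (ω : Cfg) :
    av G (fun ω₁ => av G (fun ω₂ => g (mix G R ω₁ ω₂)) ω) ω = av G g ω := by
  have key : ∑ p ∈ G.powerset ×ˢ G.powerset, g (mix G R (ovr G p.1 ω) (ovr G p.2 ω)) =
      ∑ p ∈ G.powerset ×ˢ G.powerset, g (ovr G p.1 ω) := by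
    refine Finset.sum_nbij' (swp G R ω) (swp G R ω) (fun p _ => swp_mem G R ω p)
      (fun p _ => swp_mem G R ω p) (fun p hp => ?_) (fun p hp => ?_) (fun p _ => ?_)
    · rw [Finset.mem_product, Finset.mem_powerset, Finset.mem_powerset] at hp
      exact swp_swp hR G ω hp.1 hp.2
    · rw [Finset.mem_product, Finset.mem_powerset, Finset.mem_powerset] at hp
      exact swp_swp hR G ω hp.1 hp.2
    · rw [ovr_swp]
  rw [Finset.sum_product, Finset.sum_product] at key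
  simp only [av]
  rw [← Finset.sum_div, key]
  simp only [Finset.sum_const, Finset.card_powerset, nsmul_eq_mul]
  rw [← Finset.mul_sum]
  push_cast
  have h2 : (2 : ℝ) ^ G.card ≠ 0 := by positivity
  field_simp

end SC

end

/-! ### from `Lib_MP_e0a489.TC3` -/

section

/-!
# MP_e0a489, topology 3c: boundaries are connected
-/

set_option autoImplicit false

namespace SC

open Classical

namespace Lat

variable {L : Lat}

private theorem TC3_const {A : Set Pt} {f : Pt → ZMod 2}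
    (hf : ∀ u ∈ A, ∀ v ∈ A, L.Adj u v → f u = f v) {u v : Pt} (h : L.Cn A u v) : f u = f v := by
  obtain ⟨hu, h⟩ := h
  have key : v ∈ A ∧ f u = f v := by
    induction h with
    | refl => exact ⟨hu, rfl⟩
    | tail _ h2 ih => exact ⟨h2.2, ih.2.trans (hf _ ih.1 _ h2.2 h2.1)⟩
  exact key.2

private theorem TC3_z1 : ∀ a b : ZMod 2, a + b = 0 → a = b := by decide

private theorem TC3_z2 : ∀ a b c d : ZMod 2, a = b → c = d → a + c = 1 → b + d = 0 → False := by
  decide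

private theorem TC3_z3 : (1 : ZMod 2) + 1 = 0 := by decide

private theorem TC3_core {M C P Q X : Set Pt} (hM : L.Exact M C) (hP : P ⊆ M) (hQ : Q ⊆ M)
    (hPQ : ∀ v ∈ P, v ∉ Q) (hPc : L.Con P) (hQc : L.Con Q) (hX : X ⊆ P)
    (hC : ∀ u ∈ C, ∀ v ∈ C, u ∈ X → v ∉ Q)
    (tri : ∀ x ∈ X, ∀ q ∈ Q, ∀ w ∈ M, L.Adj x q → L.Adj x w → L.Adj q w → w ∈ X ∨ w ∈ Q)
    {u₀ v₀ q₀ q₁ : Pt} (hu₀ : u₀ ∈ X) (hv₀ : v₀ ∈ P) (hv₀' : v₀ ∉ X) (hq₀ : q₀ ∈ Q)
    (hq₁ : q₁ ∈ Q) (h₀ : L.Adj q₀ u₀) (h₁ : L.Adj q₁ v₀) : False := by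
  have hXQ : ∀ v ∈ X, v ∉ Q := fun v hv => hPQ v (hX hv)
  let φ : Pt → Pt → ZMod 2 := fun a b => if (a ∈ X ∧ b ∈ Q) ∨ (b ∈ X ∧ a ∈ Q) then 1 else 0
  have hφ : ∀ a b, φ a b = if (a ∈ X ∧ b ∈ Q) ∨ (b ∈ X ∧ a ∈ Q) then 1 else 0 := fun _ _ => rfl
  obtain ⟨ψ, hψ⟩ := hM φ
    (fun u v => by
      rw [hφ, hφ]
      congr 1
      exact propext or_comm)
    (by
      intro u hu v hv w hw huv hvw huw
      have t1 : u ∈ X → v ∈ Q → w ∈ X ∨ w ∈ Q := fun a b => tri u a v b w hw huv huw hvw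
      have t2 : v ∈ X → u ∈ Q → w ∈ X ∨ w ∈ Q := fun a b => tri v a u b w hw huv.symm hvw huw
      have t3 : u ∈ X → w ∈ Q → v ∈ X ∨ v ∈ Q := fun a b => tri u a w b v hv huw huv hvw.symm
      have t4 : w ∈ X → u ∈ Q → v ∈ X ∨ v ∈ Q := fun a b => tri w a u b v hv huw.symm hvw.symm huv
      have t5 : v ∈ X → w ∈ Q → u ∈ X ∨ u ∈ Q := fun a b => tri v a w b u hu hvw huv.symm huw.symm
      have t6 : w ∈ X → v ∈ Q → u ∈ X ∨ u ∈ Q := fun a b => tri w a v b u hu hvw.symm huw.symm huv.symm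
      rw [hφ, hφ, hφ]
      have a1 := hXQ u
      have a2 := hXQ v
      have a3 := hXQ w
      by_cases u1 : u ∈ X <;> by_cases u2 : u ∈ Q <;> by_cases v1 : v ∈ X <;>
        by_cases v2 : v ∈ Q <;> by_cases w1 : w ∈ X <;> by_cases w2 : w ∈ Q <;>
        simp_all [TC3_z3])
    (by
      intro u _ v _ huC hvC _
      rw [hφ, if_neg]
      rintro (⟨a, b⟩ | ⟨a, b⟩)
      · exact hC u huC v hvC a b
      · exact hC v hvC u huC a b)
  have hcP : ψ u₀ = ψ v₀ := by
    refine TC3_const (A := P) (fun a ha b hb hab => TC3_z1 _ _ ?_) (hPc u₀ (hX hu₀) v₀ hv₀)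
    rw [← hψ a (hP ha) b (hP hb) hab, hφ, if_neg]
    rintro (⟨-, h⟩ | ⟨-, h⟩)
    · exact hPQ b hb h
    · exact hPQ a ha h
  have hcQ : ψ q₀ = ψ q₁ := by
    refine TC3_const (A := Q) (fun a ha b hb hab => TC3_z1 _ _ ?_) (hQc q₀ hq₀ q₁ hq₁)
    rw [← hψ a (hQ ha) b (hQ hb) hab, hφ, if_neg]
    rintro (⟨h, -⟩ | ⟨h, -⟩)
    · exact hXQ a h ha
    · exact hXQ b h hb
  refine TC3_z2 _ _ _ _ hcQ hcP ?_ (?_ : ψ q₁ + ψ v₀ = 0)
  · rw [← hψ q₀ (hQ hq₀) u₀ (hP (hX hu₀)) h₀, hφ, if_pos (Or.inr ⟨hu₀, hq₀⟩)]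
  · rw [← hψ q₁ (hQ hq₁) v₀ (hP hv₀) h₁, hφ, if_neg]
    rintro (⟨h, -⟩ | ⟨h, -⟩)
    · exact hXQ q₁ h hq₁
    · exact hv₀' h

/-- BOUNDARIES ARE CONNECTED (Timár), outer version.  `C ⊆ M` connected, `D` a component of
`M \ C`.  If `bd D C = X ⊔ Y` without edges between `X` and `Y`, both nonempty, the cochain
`φ(e) = 1` iff `e` joins `X` and `C` is closed: a triangle with a vertex in `X`, one in `C` and a
third vertex `w` outside `X` and `C`: `w` is adjacent to a site of `D`, so `w ∈ D`, and adjacent to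
a site of `C`, so `w ∈ bd D C = X ⊔ Y`, `w ∉ Y` because it is adjacent to `X`.  `φ` vanishes inside
`C`.  So `φ = δψ`, `ψ` is constant on `C` and on `D` (both connected, `φ = 0` inside), but an edge
between `X` and `C` and one between `Y` and `C` exist: contradiction. -/
theorem con_bd {M C D : Set Pt} (hM : L.Exact M C) (hC : L.Con C) (hCM : C ⊆ M)
    (hD : L.Comp (M \ C) D) : L.Con (L.bd D C) := by
  intro u₀ hu₀ v₀ hv₀
  by_contra hno
  obtain ⟨hu₀D, q₀, hq₀, h₀⟩ := hu₀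
  obtain ⟨hv₀D, q₁, hq₁, h₁⟩ := hv₀
  have hB : ∀ w, L.Cn (L.bd D C) u₀ w → w ∈ L.bd D C := fun w hw => hw.right
  refine TC3_core (M := M) (C := C) (P := D) (Q := C) (X := {w | L.Cn (L.bd D C) u₀ w}) hM
    (fun v hv => (hD.sub hv).1) hCM (fun v hv => (hD.sub hv).2) hD.con hC
    (fun w hw => (hB w hw).1) ?_ ?_ (u₀ := u₀) (v₀ := v₀) (q₀ := q₀) (q₁ := q₁)
    (Cn.refl ⟨hu₀D, q₀, hq₀, h₀⟩) hv₀D hno hq₀ hq₁ h₀ h₁
  · intro u huC v _ hu _
    exact (hD.sub (hB u hu).1).2 huC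
  · intro x hx q hq w hw hxq hxw hqw
    by_cases hwC : w ∈ C
    · exact Or.inr hwC
    · have hwD : w ∈ D := hD.cl x (hB x hx).1 w ⟨hw, hwC⟩ hxw
      exact Or.inl ⟨hx.1, hx.2.tail ⟨hxw, hwD, q, hq, hqw⟩⟩

/-- Inner version: the sites of `C` with a neighbour in the component `D`.  Same proof with
`φ(e) = 1` iff `e` joins `X ⊆ bd C D` and `D`. -/
theorem con_bd' {M C D : Set Pt} (hM : L.Exact M C) (hC : L.Con C) (hCM : C ⊆ M)
    (hD : L.Comp (M \ C) D) : L.Con (L.bd C D) := by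
  intro u₀ hu₀ v₀ hv₀
  by_contra hno
  obtain ⟨hu₀C, q₀, hq₀, h₀⟩ := hu₀
  obtain ⟨hv₀C, q₁, hq₁, h₁⟩ := hv₀
  have hB : ∀ w, L.Cn (L.bd C D) u₀ w → w ∈ L.bd C D := fun w hw => hw.right
  refine TC3_core (M := M) (C := C) (P := C) (Q := D) (X := {w | L.Cn (L.bd C D) u₀ w}) hM
    hCM (fun v hv => (hD.sub hv).1) (fun v hv hv' => (hD.sub hv').2 hv) hC hD.con
    (fun w hw => (hB w hw).1) ?_ ?_ (u₀ := u₀) (v₀ := v₀) (q₀ := q₀) (q₁ := q₁)
    (Cn.refl ⟨hu₀C, q₀, hq₀, h₀⟩) hv₀C hno hq₀ hq₁ h₀ h₁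
  · intro u _ v hvC _ hv
    exact (hD.sub hv).2 hvC
  · intro x hx q hq w hw hxq hxw hqw
    by_cases hwC : w ∈ C
    · exact Or.inl ⟨hx.1, hx.2.tail ⟨hxw, hwC, q, hq, hqw⟩⟩
    · exact Or.inr (hD.cl q hq w ⟨hw, hwC⟩ hqw)

end Lat

end SC

end

/-! ### from `Lib_MP_e0a489.TC4` -/

section

/-!
# MP_e0a489, topology 3d: annuli
-/

set_option autoImplicit false

namespace SC

open Classical

namespace Lat

variable {L : Lat}

/-- an annulus in coordinates -/
private theorem mem_ann_iff' {r R : ℤ} (v : Pt) : v ∈ ann r R ↔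
    ((r < v.1 ∨ r < -v.1) ∨ (r < v.2 ∨ r < -v.2)) ∧ (-R ≤ v.1 ∧ v.1 ≤ R) ∧
      (-R ≤ v.2 ∧ v.2 ≤ R) := by
  simp only [ann, nrm, Set.mem_setOf_eq, lt_max_iff, lt_abs, max_le_iff, abs_le]

/-- a ring in coordinates -/
private theorem mem_rng_iff' {R : ℤ} (v : Pt) : v ∈ rng R ↔
    ((R ≤ v.1 ∨ R ≤ -v.1) ∨ (R ≤ v.2 ∨ R ≤ -v.2)) ∧ (-R ≤ v.1 ∧ v.1 ≤ R) ∧
      (-R ≤ v.2 ∧ v.2 ≤ R) := by
  simp only [rng, nrm, Set.mem_setOf_eq]
  rw [le_antisymm_iff]
  simp only [le_max_iff, le_abs, max_le_iff, abs_le]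
  exact and_comm

/-- edge condition of the gluing lemmas, corner between two pieces -/
private theorem edge_help {M₁ M₂ : Set Pt}
    (H : ∀ u ∈ M₁, ∀ v ∈ M₂, u ∉ M₂ → v ∉ M₁ → (-1 ≤ u.1 - v.1 ∧ u.1 - v.1 ≤ 1) →
      (-1 ≤ u.2 - v.2 ∧ u.2 - v.2 ≤ 1) →
      u.1 ≠ v.1 ∧ u.2 ≠ v.2 ∧ ((u.1, v.2) : Pt) ∈ M₁ ∧ ((u.1, v.2) : Pt) ∈ M₂) :
    ∀ u ∈ M₁ ∪ M₂, ∀ v ∈ M₁ ∪ M₂, L.Adj u v → (u ∈ M₁ ∧ v ∈ M₁) ∨ (u ∈ M₂ ∧ v ∈ M₂) ∨
      ∃ w ∈ M₁ ∩ M₂, L.Adj u w ∧ L.Adj w v := by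
  have key : ∀ u ∈ M₁, ∀ v ∈ M₂, L.Adj u v → (u ∈ M₁ ∧ v ∈ M₁) ∨ (u ∈ M₂ ∧ v ∈ M₂) ∨
      ∃ w ∈ M₁ ∩ M₂, L.Adj u w ∧ L.Adj w v := by
    intro u hu v hv h
    by_cases h1 : v ∈ M₁
    · exact Or.inl ⟨hu, h1⟩
    by_cases h2 : u ∈ M₂
    · exact Or.inr (Or.inl ⟨h2, hv⟩)
    have hn := h.near
    obtain ⟨a, b, c, d⟩ := H u hu v hv h2 h1 (abs_le.mp hn.1) (abs_le.mp hn.2)
    have e1 := abs_le.mp hn.1
    have e2 := abs_le.mp hn.2
    refine Or.inr (Or.inr ⟨(u.1, v.2), ⟨c, d⟩, adj_of_nn ?_, adj_of_nn ?_⟩)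
    · have : |u.2 - v.2| = 1 := by
        rcases (show u.2 - v.2 = 1 ∨ u.2 - v.2 = -1 by omega) with h | h <;> simp [h]
      simp [this]
    · have : |u.1 - v.1| = 1 := by
        rcases (show u.1 - v.1 = 1 ∨ u.1 - v.1 = -1 by omega) with h | h <;> simp [h]
      simp [this]
  rintro u (hu | hu) v (hv | hv) h
  · exact Or.inl ⟨hu, hv⟩
  · exact key u hu v hv h
  · rcases key v hv u hu h.symm with ⟨a, b⟩ | ⟨a, b⟩ | ⟨w, hw, a, b⟩
    · exact Or.inl ⟨b, a⟩
    · exact Or.inr (Or.inl ⟨b, a⟩)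
    · exact Or.inr (Or.inr ⟨w, hw, b.symm, a.symm⟩)
  · exact Or.inr (Or.inl ⟨hu, hv⟩)

/-- three rectangles glued to a U-shaped region -/
private theorem exact_U {r R m : ℤ} (hr : 0 ≤ r) (hR : r < R) (hm : m ≤ 0) (C : Set Pt) :
    L.Exact (rect (r + 1) R m R ∪ (rect (-R) (-r - 1) m R ∪ rect (-R) R (r + 1) R)) C := by
  have h1 : L.Exact (rect (-R) (-r - 1) m R ∪ rect (-R) R (r + 1) R) C := by
    refine (exact_rect _ _ _ _ C).glue (exact_rect _ _ _ _ C) ?_ (edge_help ?_)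
    · have : rect (-R) (-r - 1) m R ∩ rect (-R) R (r + 1) R = rect (-R) (-r - 1) (r + 1) R := by
        ext v
        simp only [rect, Set.mem_inter_iff, Set.mem_setOf_eq]
        omega
      rw [this]
      exact con_rect _ _ _ _
    · intro u hu v hv hu' hv' ha hb
      simp only [rect, Set.mem_setOf_eq] at hu hv hu' hv' ⊢
      omega
  refine (exact_rect _ _ _ _ C).glue h1 ?_ (edge_help ?_)
  · have : rect (r + 1) R m R ∩ (rect (-R) (-r - 1) m R ∪ rect (-R) R (r + 1) R) =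
        rect (r + 1) R (r + 1) R := by
      ext v
      simp only [rect, Set.mem_inter_iff, Set.mem_union, Set.mem_setOf_eq]
      omega
    rw [this]
    exact con_rect _ _ _ _
  · intro u hu v hv hu' hv' ha hb
    simp only [rect, Set.mem_union, Set.mem_setOf_eq] at hu hv hu' hv' ⊢
    omega

/-- U-shaped region (half annulus) -/
theorem exact_half {r R : ℤ} (hr : 0 ≤ r) (hR : r < R) (C : Set Pt) :
    L.Exact (ann r R ∩ {v | 0 ≤ v.2}) C := by
  have h := exact_U (L := L) hr hR le_rfl C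
  have : ann r R ∩ {v | 0 ≤ v.2} =
      rect (r + 1) R 0 R ∪ (rect (-R) (-r - 1) 0 R ∪ rect (-R) R (r + 1) R) := by
    ext v
    simp only [rect, Set.mem_inter_iff, Set.mem_union, Set.mem_setOf_eq, mem_ann_iff']
    omega
  rw [this]
  exact h

/-- quarter annulus -/
theorem exact_quarter {r R : ℤ} (hr : 0 ≤ r) (hR : r < R) (C : Set Pt) :
    L.Exact (ann r R ∩ {v | 0 ≤ v.1 ∧ 0 ≤ v.2}) C := by
  have h : L.Exact (rect (r + 1) R 0 R ∪ rect 0 R (r + 1) R) C := by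
    refine (exact_rect _ _ _ _ C).glue (exact_rect _ _ _ _ C) ?_ (edge_help ?_)
    · have : rect (r + 1) R 0 R ∩ rect 0 R (r + 1) R = rect (r + 1) R (r + 1) R := by
        ext v
        simp only [rect, Set.mem_inter_iff, Set.mem_setOf_eq]
        omega
      rw [this]
      exact con_rect _ _ _ _
    · intro u hu v hv hu' hv' ha hb
      simp only [rect, Set.mem_setOf_eq] at hu hv hu' hv' ⊢
      omega
  have : ann r R ∩ {v | 0 ≤ v.1 ∧ 0 ≤ v.2} = rect (r + 1) R 0 R ∪ rect 0 R (r + 1) R := by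
    ext v
    simp only [rect, Set.mem_inter_iff, Set.mem_union, Set.mem_setOf_eq, mem_ann_iff']
    omega
  rw [this]
  exact h

/-- the part of the outer ring in the annulus without the bottom rectangle is connected -/
private theorem con_ring1 {r R : ℤ} (hr : 0 ≤ r) (hR : r < R) :
    L.Con (rng R ∩ (rect (r + 1) R (-R) R ∪
      (rect (-R) (-r - 1) (-R) R ∪ rect (-R) R (r + 1) R))) := by
  have : rng R ∩ (rect (r + 1) R (-R) R ∪
      (rect (-R) (-r - 1) (-R) R ∪ rect (-R) R (r + 1) R)) =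
      (((rect (-R) R R R ∪ rect (-R) (-R) (-R) R) ∪ rect R R (-R) R) ∪
        rect (-R) (-r - 1) (-R) (-R)) ∪ rect (r + 1) R (-R) (-R) := by
    ext v
    simp only [rect, Set.mem_inter_iff, Set.mem_union, Set.mem_setOf_eq, mem_rng_iff']
    omega
  rw [this]
  refine ((((con_rect _ _ _ _).union (con_rect _ _ _ _) ⟨(-R, R), ?_⟩).union
    (con_rect _ _ _ _) ⟨(R, R), ?_⟩).union (con_rect _ _ _ _) ⟨(-R, -R), ?_⟩).union
    (con_rect _ _ _ _) ⟨(R, -R), ?_⟩ <;>
  · simp only [rect, Set.mem_inter_iff, Set.mem_union, Set.mem_setOf_eq]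
    omega

/-- the part of the outer ring in the bottom rectangle is connected -/
private theorem con_ring2 {r R : ℤ} (hr : 0 ≤ r) (hR : r < R) :
    L.Con (rng R ∩ rect (-R) R (-R) (-r - 1)) := by
  have : rng R ∩ rect (-R) R (-R) (-r - 1) =
      (rect (-R) R (-R) (-R) ∪ rect (-R) (-R) (-R) (-r - 1)) ∪ rect R R (-R) (-r - 1) := by
    ext v
    simp only [rect, Set.mem_inter_iff, Set.mem_union, Set.mem_setOf_eq, mem_rng_iff']
    omega
  rw [this]
  refine ((con_rect _ _ _ _).union (con_rect _ _ _ _) ⟨(-R, -R), ?_⟩).union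
    (con_rect _ _ _ _) ⟨(R, -R), ?_⟩ <;>
  · simp only [rect, Set.mem_inter_iff, Set.mem_union, Set.mem_setOf_eq]
    omega

/-- Annulus relative to a set that contains the outer ring: `glue_rel` for `M₁` = annulus minus the
open bottom rectangle (three rectangles glued), `M₂` = bottom rectangle `[-R,R] × [-R,-r-1]`,
`Z` = outer ring. -/
theorem exact_ann {r R : ℤ} (hr : 0 ≤ r) (hR : r < R) {C : Set Pt} (hC : rng R ⊆ C) :
    L.Exact (ann r R) C := by
  have hU := exact_U (L := L) hr hR (show -R ≤ 0 by omega) C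
  have hB := exact_rect (L := L) (-R) R (-R) (-r - 1) C
  have h : ann r R = (rect (r + 1) R (-R) R ∪
      (rect (-R) (-r - 1) (-R) R ∪ rect (-R) R (r + 1) R)) ∪ rect (-R) R (-R) (-r - 1) := by
    ext v
    simp only [rect, Set.mem_union, Set.mem_setOf_eq, mem_ann_iff']
    omega
  rw [h]
  refine hU.glue_rel hB hC (con_ring1 hr hR) (con_ring2 hr hR) ?_ (edge_help ?_)
  · intro v hv
    refine ⟨(v.1, -R), ?_, ?_⟩
    · simp only [rect, Set.mem_inter_iff, Set.mem_union, Set.mem_setOf_eq, mem_rng_iff'] at hv ⊢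
      omega
    · by_cases hs : v.1 ≤ -r - 1
      · have h1 : v ∈ rect (-R) (-r - 1) (-R) (-r - 1) := by
          simp only [rect, Set.mem_inter_iff, Set.mem_union, Set.mem_setOf_eq] at hv ⊢
          omega
        have h2 : ((v.1, -R) : Pt) ∈ rect (-R) (-r - 1) (-R) (-r - 1) := by
          simp only [rect, Set.mem_setOf_eq] at h1 ⊢
          omega
        refine (con_rect (-R) (-r - 1) (-R) (-r - 1) v h1 _ h2).mono ?_
        intro w hw
        simp only [rect, Set.mem_inter_iff, Set.mem_union, Set.mem_setOf_eq] at hw ⊢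
        omega
      · have h1 : v ∈ rect (r + 1) R (-R) (-r - 1) := by
          simp only [rect, Set.mem_inter_iff, Set.mem_union, Set.mem_setOf_eq] at hv ⊢
          omega
        have h2 : ((v.1, -R) : Pt) ∈ rect (r + 1) R (-R) (-r - 1) := by
          simp only [rect, Set.mem_setOf_eq] at h1 ⊢
          omega
        refine (con_rect (r + 1) R (-R) (-r - 1) v h1 _ h2).mono ?_
        intro w hw
        simp only [rect, Set.mem_inter_iff, Set.mem_union, Set.mem_setOf_eq] at hw ⊢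
        omega
  · intro u hu v hv hu' hv' ha hb
    simp only [rect, Set.mem_union, Set.mem_setOf_eq] at hu hv hu' hv' ⊢
    omega

end Lat

end SC

end

/-! ### from `Lib_MP_e0a489.PD2` -/

section

/-!
# MP_e0a489, probability toolkit 5b: resampling of the unexplored sites
-/

set_option autoImplicit false

namespace SC

open Classical

private theorem PD2_ind_le {A B : Cfg → Prop} {ω ω' : Cfg} (h : A ω → B ω') : ind A ω ≤ ind B ω' := by
  unfold ind
  by_cases hA : A ω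
  · rw [if_pos hA, if_pos (h hA)]
  · rw [if_neg hA]
    split_ifs <;> norm_num

private theorem PD2_ind_nonneg (A : Cfg → Prop) (ω : Cfg) : 0 ≤ ind A ω := by
  unfold ind
  split_ifs <;> norm_num

/-- RESAMPLING LEMMA.  If for every `ω ∈ E` a fresh configuration `η` on `G` satisfies `F ω` with
probability at least `p`, and then one of the events `E' i` holds for the mixed configuration, then
`p P(E | off G) ≤ ∑ P(E' i | off G)`. -/
theorem resample {R : Cfg → Set Pt} (hR : Stop R) {G : Finset Pt} {ι : Type} {I : Finset ι}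
    {E : Cfg → Prop} {F : Cfg → Cfg → Prop} {E' : ι → Cfg → Prop} {p : ℝ}
    (hp : ∀ ω, E ω → p ≤ pr (F ω)) (hF : ∀ ω, E ω → Dep (F ω) (G : Set Pt))
    (h : ∀ ω η, E ω → F ω η → ∃ i ∈ I, E' i (mix G R ω η)) (ω : Cfg) :
    p * cpr G E ω ≤ ∑ i ∈ I, cpr G (E' i) ω := by
  have h1 : ∑ i ∈ I, cpr G (E' i) ω =
      av G (fun ω₁ => av G (fun ω₂ => ∑ i ∈ I, ind (E' i) (mix G R ω₁ ω₂)) ω) ω := by
    have h2 : ∀ ω₁, av G (fun ω₂ => ∑ i ∈ I, ind (E' i) (mix G R ω₁ ω₂)) ω =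
        ∑ i ∈ I, av G (fun ω₂ => ind (E' i) (mix G R ω₁ ω₂)) ω := fun ω₁ =>
      av_sum G I (fun i ω₂ => ind (E' i) (mix G R ω₁ ω₂)) ω
    rw [show (fun ω₁ => av G (fun ω₂ => ∑ i ∈ I, ind (E' i) (mix G R ω₁ ω₂)) ω) =
        fun ω₁ => ∑ i ∈ I, av G (fun ω₂ => ind (E' i) (mix G R ω₁ ω₂)) ω from funext h2,
      av_sum G I (fun i ω₁ => av G (fun ω₂ => ind (E' i) (mix G R ω₁ ω₂)) ω) ω]
    refine Finset.sum_congr rfl fun i _ => ?_
    exact (av_mix hR G (ind (E' i)) ω).symm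
  have h3 : p * cpr G E ω = av G (fun ω₁ => p * ind E ω₁) ω := (av_smul G p (ind E) ω).symm
  rw [h1, h3]
  refine av_mono fun ω₁ _ => ?_
  by_cases hE : E ω₁
  · have h4 : ind E ω₁ = 1 := if_pos hE
    rw [h4, mul_one]
    refine le_trans (hp ω₁ hE) ?_
    rw [← cpr_eq_pr (hF ω₁ hE) ω]
    refine av_mono fun ω₂ _ => ?_
    by_cases hFF : F ω₁ ω₂
    · obtain ⟨i, hi, hi2⟩ := h ω₁ ω₂ hE hFF
      have h5 : ind (F ω₁) ω₂ ≤ ind (E' i) (mix G R ω₁ ω₂) := PD2_ind_le fun _ => hi2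
      refine le_trans h5 ?_
      exact Finset.single_le_sum (f := fun i => ind (E' i) (mix G R ω₁ ω₂))
        (fun j _ => PD2_ind_nonneg _ _) hi
    · have h5 : ind (F ω₁) ω₂ = 0 := if_neg hFF
      rw [h5]
      exact Finset.sum_nonneg fun j _ => PD2_ind_nonneg _ _
  · have h4 : ind E ω₁ = 0 := if_neg hE
    rw [h4, mul_zero]
    exact av_nonneg (fun ω₂ => Finset.sum_nonneg fun j _ => PD2_ind_nonneg _ _) ω

/-- Upper bound version: `E` is determined by the explored sites, and if the fresh configuration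
satisfies `F ω` (probability at least `q`) then `Bad` fails for the mixed configuration. -/
theorem resample_le {R : Cfg → Set Pt} (hR : Stop R) {G : Finset Pt}
    {E Bad : Cfg → Prop} {F : Cfg → Cfg → Prop} {q : ℝ}
    (hE : ∀ ω η, E (mix G R ω η) → E ω)
    (hq : ∀ ω, E ω → q ≤ pr (F ω)) (hF : ∀ ω, E ω → Dep (F ω) (G : Set Pt))
    (h : ∀ ω η, E ω → F ω η → ¬ Bad (mix G R ω η)) (ω : Cfg) :
    cpr G (fun ω => E ω ∧ Bad ω) ω ≤ (1 - q) * cpr G E ω := by
  have h1 : cpr G (fun ω => E ω ∧ Bad ω) ω =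
      av G (fun ω₁ => av G (fun ω₂ => ind (fun ω => E ω ∧ Bad ω) (mix G R ω₁ ω₂)) ω) ω :=
    (av_mix hR G (ind fun ω => E ω ∧ Bad ω) ω).symm
  have h3 : (1 - q) * cpr G E ω = av G (fun ω₁ => (1 - q) * ind E ω₁) ω :=
    (av_smul G (1 - q) (ind E) ω).symm
  rw [h1, h3]
  refine av_mono fun ω₁ _ => ?_
  by_cases hE1 : E ω₁
  · have h4 : ind E ω₁ = 1 := if_pos hE1
    rw [h4, mul_one]
    have h5 : av G (fun ω₂ => ind (fun ω => E ω ∧ Bad ω) (mix G R ω₁ ω₂)) ω ≤
        av G (fun ω₂ => (fun _ => (1 : ℝ)) ω₂ - ind (F ω₁) ω₂) ω := by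
      refine av_mono fun ω₂ _ => ?_
      by_cases hFF : F ω₁ ω₂
      · have h6 : ind (fun ω => E ω ∧ Bad ω) (mix G R ω₁ ω₂) = 0 :=
          if_neg fun hc => h ω₁ ω₂ hE1 hFF hc.2
        have h7 : ind (F ω₁) ω₂ = 1 := if_pos hFF
        rw [h6, h7]
        norm_num
      · have h7 : ind (F ω₁) ω₂ = 0 := if_neg hFF
        rw [h7]
        unfold ind
        split_ifs <;> norm_num
    refine le_trans h5 ?_
    rw [av_sub G (fun _ => (1 : ℝ)) (ind (F ω₁)) ω, av_const]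
    have h8 : av G (ind (F ω₁)) ω = pr (F ω₁) := cpr_eq_pr (hF ω₁ hE1) ω
    rw [h8]
    have h9 := hq ω₁ hE1
    linarith
  · have h4 : ind E ω₁ = 0 := if_neg hE1
    rw [h4, mul_zero]
    have h5 : av G (fun ω₂ => ind (fun ω => E ω ∧ Bad ω) (mix G R ω₁ ω₂)) ω ≤
        av G (fun _ => (0 : ℝ)) ω := by
      refine av_mono fun ω₂ _ => ?_
      have h6 : ind (fun ω => E ω ∧ Bad ω) (mix G R ω₁ ω₂) = 0 :=
        if_neg fun hc => hE1 (hE ω₁ ω₂ hc.1)
      rw [h6]
    rw [av_const] at h5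
    exact h5

/-- The same without conditioning (take `G` large enough to support everything). -/
theorem pr_resample_le {R : Cfg → Set Pt} (hR : Stop R) {G : Finset Pt}
    {E Bad : Cfg → Prop} {F : Cfg → Cfg → Prop} {q : ℝ}
    (dE : Dep E (G : Set Pt)) (dB : Dep Bad (G : Set Pt))
    (hE : ∀ ω η, E (mix G R ω η) → E ω)
    (hq : ∀ ω, E ω → q ≤ pr (F ω)) (hF : ∀ ω, E ω → Dep (F ω) (G : Set Pt))
    (h : ∀ ω η, E ω → F ω η → ¬ Bad (mix G R ω η)) :
    pr (fun ω => E ω ∧ Bad ω) ≤ (1 - q) * pr E := by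
  have h1 : Dep (fun ω => E ω ∧ Bad ω) (G : Set Pt) := by
    intro ω ω' hω
    show (E ω ∧ Bad ω) = (E ω' ∧ Bad ω')
    rw [dE ω ω' hω, dB ω ω' hω]
  have h2 := resample_le hR hE hq hF h (fun _ => false)
  rw [cpr_eq_pr h1, cpr_eq_pr dE] at h2
  exact h2

end SC

end

/-! ### from `Lib_MP_e0a489.PB3` -/

section

/-!
# MP_e0a489, probability toolkit 3c: territory lemma
-/

set_option autoImplicit false

namespace SC

open Classical

private theorem pb3_dec_av {T U : Finset Pt} (hTU : Disjoint T U) {g : Cfg → ℝ}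
    (hg : DecOn g (U : Set Pt)) : DecOn (av T g) (U : Set Pt) := by
  intro ω ω' h1 h2
  unfold av
  refine div_le_div_of_nonneg_right (Finset.sum_le_sum fun S _ => ?_) (by positivity)
  refine hg _ _ (fun v hv => ?_) (fun v hv => ?_)
  · have hvT : v ∉ T := fun h => Finset.disjoint_left.1 hTU h (Finset.mem_coe.1 hv)
    rw [ovr_not_mem hvT, ovr_not_mem hvT]
    exact h1 v hv
  · by_cases hvT : v ∈ T
    · rw [ovr_mem hvT, ovr_mem hvT]
    · rw [ovr_not_mem hvT, ovr_not_mem hvT]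
      exact h2 v hv

private theorem pb3_ind_nonneg (A : Cfg → Prop) (ω : Cfg) : 0 ≤ ind A ω := by
  unfold ind
  split_ifs <;> norm_num

private theorem pb3_ind3 (E A B : Cfg → Prop) :
    ind (fun ω => E ω ∧ A ω ∧ B ω) = fun ω => ind B ω * (ind E ω * ind A ω) := by
  funext ω
  unfold ind
  by_cases h1 : E ω <;> by_cases h2 : A ω <;> by_cases h3 : B ω <;> simp [h1, h2, h3]

private theorem pb3_inc {A : Cfg → Prop} (hA : Inc A) (G : Finset Pt) :
    IncOn (ind A) (G : Set Pt) := by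
  intro ω ω' h1 h2
  have hle : ∀ v, ω v ≤ ω' v := by
    intro v
    by_cases hv : v ∈ (G : Set Pt)
    · exact h1 v hv
    · exact le_of_eq (h2 v hv)
  unfold ind
  by_cases h3 : A ω
  · rw [if_pos h3, if_pos (hA ω ω' hle h3)]
  · rw [if_neg h3]
    split_ifs <;> norm_num

private theorem pb3_dec {A : Cfg → Prop} (hA : Dec A) (G : Finset Pt) :
    DecOn (ind A) (G : Set Pt) := by
  intro ω ω' h1 h2
  have hle : ∀ v, ω v ≤ ω' v := by
    intro v
    by_cases hv : v ∈ (G : Set Pt)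
    · exact h1 v hv
    · exact le_of_eq (h2 v hv)
  unfold ind
  by_cases h3 : A ω'
  · rw [if_pos h3, if_pos (hA ω ω' hle h3)]
  · rw [if_neg h3]
    split_ifs <;> norm_num

/-- TERRITORY LEMMA (generalised Harris inequality of Kesten), conditional form: `E` is increasing
in the sites of `T` and decreasing in those of `U` (`T`, `U` disjoint); `A` is increasing and
depends only on `T`, `B` is decreasing and depends only on `U`; `T, U ⊆ G`.  Then
`P(E ∧ A ∧ B | off G) ≥ P(E | off G) P(A) P(B)`.  Proof: average first over `T` (other sites fixed):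
`av T (1_E 1_A) ≥ av T 1_E * P(A)` by `harris`; multiply by `1_B`, which does not depend on `T`;
`av T 1_E` is decreasing in `U`, so average over `U` and apply `harris_dec`; then over the rest. -/
theorem territory {G T U : Finset Pt} {E A B : Cfg → Prop} (hT : T ⊆ G) (hU : U ⊆ G)
    (hTU : Disjoint T U) (hET : IncOn (ind E) (T : Set Pt)) (hEU : DecOn (ind E) (U : Set Pt))
    (hA : Inc A) (hAT : Dep A (T : Set Pt)) (hB : Dec B) (hBU : Dep B (U : Set Pt)) (ω : Cfg) :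
    cpr G E ω * (pr A * pr B) ≤ cpr G (fun ω => E ω ∧ A ω ∧ B ω) ω := by
  have hAe : ∀ ω, av T (ind A) ω = pr A := fun ω => cpr_eq_pr hAT ω
  have hBe : ∀ ω, av U (ind B) ω = pr B := fun ω => cpr_eq_pr hBU ω
  have hTB : ∀ v ∈ T, v ∉ (U : Set Pt) := fun v hv hvU =>
    Finset.disjoint_left.1 hTU hv (Finset.mem_coe.1 hvU)
  -- first average: over `T`
  have h1 : ∀ ω, pr A * (ind B ω * av T (ind E) ω) ≤
      av T (ind (fun ω => E ω ∧ A ω ∧ B ω)) ω := by
    intro ω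
    rw [pb3_ind3, av_mul_left (G := T) (g := fun ω => ind E ω * ind A ω) (Dep.ind hBU) hTB ω]
    have h := harris hET (pb3_inc hA T) ω
    rw [hAe] at h
    have h' := mul_le_mul_of_nonneg_left h (pb3_ind_nonneg B ω)
    calc pr A * (ind B ω * av T (ind E) ω) = ind B ω * (av T (ind E) ω * pr A) := by ring
      _ ≤ _ := h'
  -- second average: over `U`
  have h2 : ∀ ω, pr A * (pr B * av U (av T (ind E)) ω) ≤
      av U (av T (ind (fun ω => E ω ∧ A ω ∧ B ω))) ω := by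
    intro ω
    have h := harris_dec (pb3_dec hB U) (pb3_dec_av hTU hEU) ω
    rw [hBe] at h
    calc pr A * (pr B * av U (av T (ind E)) ω)
        ≤ pr A * av U (fun ω => ind B ω * av T (ind E) ω) ω :=
          mul_le_mul_of_nonneg_left h (pr_nonneg A)
      _ = av U (fun ω => pr A * (ind B ω * av T (ind E) ω)) ω := (av_smul _ _ _ _).symm
      _ ≤ _ := av_mono fun ω' _ => h1 ω'
  have h3 : ∀ g : Cfg → ℝ, av G (av U (av T g)) ω = av G g ω := by
    intro g
    have hUT : (av U (av T g)) = av (U ∪ T) g := by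
      funext ω'
      exact av_av U T g ω'
    rw [hUT, av_av]
    congr 1
    exact Finset.union_eq_left.2 (Finset.union_subset hU hT)
  unfold cpr
  rw [← h3 (ind E), ← h3 (ind (fun ω => E ω ∧ A ω ∧ B ω))]
  calc av G (av U (av T (ind E))) ω * (pr A * pr B)
      = av G (fun ω => pr A * (pr B * av U (av T (ind E)) ω)) ω := by
        rw [av_smul, av_smul]
        ring
    _ ≤ _ := av_mono fun ω' _ => h2 ω'

end SC

end

/-! ### from `Lib_MP_e0a489.HP1` -/

section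

/-!
# MP_e0a489, module HP 1: exactness of a rectangle with some sites of one more row
-/

set_option autoImplicit false

namespace SC

open Classical

namespace Lat

variable {L : Lat}

private theorem hp1_a : ∀ x y : ZMod 2, y = x + y + x := by decide

private theorem hp1_b : ∀ vw w u vu : ZMod 2, vw + (w + u) = vu → vu = w + vw + u := by decide

private theorem hp1_c : ∀ x y w uv : ZMod 2, x + w + (y + w) = uv → uv = x + y := by decide

/-- RECTANGLE WITH SOME SITES OF THE ROW BELOW IT.  Let `φ` be a cochain of `M = rect a b 1 d ∪ U` as in `Exact`.  `exact_rect a b 1 d C`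
(restrict the hypotheses) gives `ψ₀` with `φ u v = ψ₀ u + ψ₀ v` for adjacent `u, v ∈ rect a b 1 d`.  Put `ψ v = ψ₀ v` if `1 ≤ v.2` and
`ψ v = ψ₀ (v.1, 1) + φ v (v.1, 1)` if `v.2 ≤ 0`; for `v = (x, 0) ∈ U` the site `(x, 1)` is in `rect a b 1 d` (`a ≤ x ≤ b`, `1 ≤ d`).
Adjacent `u, v ∈ M` (`φ` is symmetric, so up to exchange):
(1) both in rows `≥ 1`: `ψ₀`.
(2) `v = (x, 0)`, `u` in row `1` (`Adj.near`: `u.1 ∈ {x - 1, x, x + 1}`): if `u = (x, 1)` by definition (characteristic 2); otherwise the triangle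
`v, (x, 1), u` gives `φ v u = φ v (x, 1) + φ (x, 1) u = ψ v + ψ₀ (x, 1) + ψ₀ (x, 1) + ψ₀ u` (`(x,1)` and `u` are nearest neighbours).
(3) both in row `0`: `u = (x, 0)`, `v = (x + 1, 0)` (or exchanged); the cell with lower left corner `(x, 0)` has a diagonal: if `L.ne x 0 = true` the site `w = (x + 1, 1)`,
otherwise the site `w = (x, 1)` is adjacent to both; `w ∈ rect a b 1 d`, and `φ u v = φ u w + φ w v`, both terms by (2).
(There is no other case: adjacent sites differ by at most one in the second coordinate.) -/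
theorem exact_row {a b d : ℤ} (hd : 1 ≤ d) {U : Set Pt} (hU : U ⊆ rect a b 0 0) (C : Set Pt) :
    L.Exact (rect a b 1 d ∪ U) C := by
  intro φ hs hc h0
  obtain ⟨ψ₀, h₀⟩ := exact_rect (L := L) a b 1 d C φ hs
    (fun u hu v hv w hw => hc u (Or.inl hu) v (Or.inl hv) w (Or.inl hw))
    (fun u hu v hv => h0 u (Or.inl hu) v (Or.inl hv))
  obtain ⟨ψ, hψ⟩ : ∃ ψ : Pt → ZMod 2, ∀ v, ψ v = if 1 ≤ v.2 then ψ₀ v
      else ψ₀ (v.1, 1) + φ v (v.1, 1) := ⟨_, fun _ => rfl⟩
  have hψ1 : ∀ v ∈ rect a b 1 d, ψ v = ψ₀ v := fun v hv => by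
    rw [hψ, if_pos hv.2.1]
  have hU0 : ∀ v ∈ U, v.2 = 0 := fun v hv => le_antisymm (hU hv).2.2 (hU hv).2.1
  have hψ0 : ∀ v ∈ U, ψ v = ψ₀ (v.1, 1) + φ v (v.1, 1) := fun v hv => by
    rw [hψ, if_neg (by rw [hU0 v hv]; norm_num)]
  have hup : ∀ v ∈ U, ((v.1, 1) : Pt) ∈ rect a b 1 d := fun v hv =>
    ⟨(hU hv).1, le_rfl, hd⟩
  have adj01 : ∀ v ∈ U, L.Adj v (v.1, 1) := fun v hv => by
    have h := adj_up (L := L) v
    rw [hU0 v hv] at h
    exact h
  have B : ∀ v ∈ U, ∀ u ∈ rect a b 1 d, L.Adj v u → φ v u = ψ v + ψ u := by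
    intro v hv u hu hvu
    have hn := hvu.near
    have hv2 := hU0 v hv
    have hu2 := hu.2.1
    have hn2 := abs_le.1 hn.2
    have hu1 : u.2 = 1 := by omega
    rw [hψ0 v hv, hψ1 u hu]
    by_cases he : u.1 = v.1
    · have hue : u = (v.1, 1) := Prod.ext he hu1
      rw [hue]
      exact hp1_a _ _
    · have hn1 := abs_le.1 hn.1
      have hwu : L.Adj (v.1, 1) u := by
        refine adj_of_nn ?_
        have e1 : |(1 : ℤ) - u.2| = 0 := by rw [hu1]; norm_num
        have e2 : |v.1 - u.1| = 1 := by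
          rcases abs_cases (v.1 - u.1) with ⟨e, _⟩ | ⟨e, _⟩ <;> omega
        show |v.1 - u.1| + |(1 : ℤ) - u.2| = 1
        rw [e1, e2]
        norm_num
      have h1 := hc v (Or.inr hv) (v.1, 1) (Or.inl (hup v hv)) u (Or.inl hu) (adj01 v hv) hwu hvu
      rw [h₀ _ (hup v hv) u hu hwu] at h1
      exact hp1_b _ _ _ _ h1
  have Cc : ∀ u ∈ U, ∀ v ∈ U, v.1 = u.1 + 1 → L.Adj u v → φ u v = ψ u + ψ v := by
    intro u hu v hv he huv
    have hu0 := hU0 u hu
    have hv0 := hU0 v hv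
    have hue : u = (u.1, 0) := Prod.ext rfl hu0
    have hve : v = (u.1 + 1, 0) := Prod.ext he hv0
    obtain ⟨w, hw, huw, hvw⟩ : ∃ w ∈ rect a b 1 d, L.Adj u w ∧ L.Adj v w := by
      cases hne : L.ne u.1 0 with
      | true =>
        refine ⟨(v.1, 1), hup v hv, ?_, adj01 v hv⟩
        rw [he, hue]
        exact Or.inl (Or.inr (Or.inr (Or.inl ⟨rfl, rfl, hne⟩)))
      | false =>
        refine ⟨(u.1, 1), hup u hu, adj01 u hu, ?_⟩
        rw [hve]
        exact Or.inl (Or.inr (Or.inr (Or.inr ⟨by simp, rfl, hne⟩)))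
    have h1 := hc u (Or.inr hu) w (Or.inl hw) v (Or.inr hv) huw hvw.symm huv
    rw [hs w v, B u hu w hw huw, B v hv w hw hvw] at h1
    exact hp1_c _ _ _ _ h1
  refine ⟨ψ, ?_⟩
  rintro u (hu | hu) v (hv | hv) huv
  · rw [hψ1 u hu, hψ1 v hv]
    exact h₀ u hu v hv huv
  · rw [hs, B v hv u hu huv.symm, add_comm]
  · exact B u hu v hv huv
  · have hn := abs_le.1 huv.near.1
    have hne := huv.ne
    have hu0 := hU0 u hu
    have hv0 := hU0 v hv
    rcases lt_trichotomy u.1 v.1 with h | h | h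
    · exact Cc u hu v hv (by omega) huv
    · exact absurd (Prod.ext h (hu0.trans hv0.symm)) hne
    · rw [hs, Cc v hv u hu (by omega) huv.symm, add_comm]

end Lat

end SC

end

/-! ### from `Lib_MP_e0a489.PC` -/

section

/-!
# MP_e0a489, probability toolkit 4: van den Berg - Kesten inequality
-/

set_option autoImplicit false

namespace SC

open Classical

/-- the configuration open exactly on `K` -/
def cfgOf (K : Finset Pt) : Cfg := fun v => decide (v ∈ K)

/-- disjoint occurrence of increasing events -/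
def DO (A B : Cfg → Prop) (ω : Cfg) : Prop :=
  ∃ K L : Finset Pt, Disjoint K L ∧ (∀ v ∈ K, ω v = true) ∧ (∀ v ∈ L, ω v = true) ∧
    A (cfgOf K) ∧ B (cfgOf L)

private theorem pc_inter {A : Cfg → Prop} {F : Finset Pt} (hA : Dep A (F : Set Pt))
    (K : Finset Pt) : A (cfgOf (K ∩ F)) = A (cfgOf K) := by
  refine hA _ _ fun v hv => ?_
  have hv' : v ∈ F := Finset.mem_coe.1 hv
  unfold cfgOf
  simp [hv']

private theorem pc_dep_aux {A B : Cfg → Prop} {F : Finset Pt} (hA : Dep A (F : Set Pt))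
    (hB : Dep B (F : Set Pt)) {ω ω' : Cfg} (h : ∀ v ∈ (F : Set Pt), ω v = ω' v)
    (hD : DO A B ω) : DO A B ω' := by
  obtain ⟨K, L, hKL, hK, hL, hAK, hBL⟩ := hD
  refine ⟨K ∩ F, L ∩ F, ?_, ?_, ?_, ?_, ?_⟩
  · exact hKL.mono Finset.inter_subset_left Finset.inter_subset_left
  · intro v hv
    rw [Finset.mem_inter] at hv
    rw [← h v (Finset.mem_coe.2 hv.2)]
    exact hK v hv.1
  · intro v hv
    rw [Finset.mem_inter] at hv
    rw [← h v (Finset.mem_coe.2 hv.2)]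
    exact hL v hv.1
  · rw [pc_inter hA]; exact hAK
  · rw [pc_inter hB]; exact hBL

private theorem pc_dep {A B : Cfg → Prop} {F : Finset Pt} (hA : Dep A (F : Set Pt))
    (hB : Dep B (F : Set Pt)) : Dep (DO A B) (F : Set Pt) := by
  intro ω ω' h
  exact propext ⟨pc_dep_aux hA hB h, pc_dep_aux hA hB fun v hv => (h v hv).symm⟩

theorem DO.loc {A B : Cfg → Prop} (hA : Inc A) (hB : Inc B) (lA : Loc A) (lB : Loc B) :
    Loc (DO A B) := by
  obtain ⟨F, hF⟩ := lA
  obtain ⟨F', hF'⟩ := lB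
  refine ⟨F ∪ F', pc_dep (hF.mono ?_) (hF'.mono ?_)⟩
  · rw [Finset.coe_union]; exact Set.subset_union_left
  · rw [Finset.coe_union]; exact Set.subset_union_right

/-- number of the subsets of `F` with `A` -/
private noncomputable def pcN (F : Finset Pt) (A : Finset Pt → Prop) : ℕ :=
  (F.powerset.filter A).card

/-- disjoint occurrence for families of finite sets -/
private def pcB (A B : Finset Pt → Prop) (S : Finset Pt) : Prop :=
  ∃ K L : Finset Pt, K ⊆ S ∧ L ⊆ S ∧ Disjoint K L ∧ A K ∧ B L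

private theorem pcN_mono {F : Finset Pt} {A B : Finset Pt → Prop}
    (h : ∀ S ⊆ F, A S → B S) : pcN F A ≤ pcN F B := by
  refine Finset.card_le_card fun S hS => ?_
  rw [Finset.mem_filter, Finset.mem_powerset] at hS ⊢
  exact ⟨hS.1, h S hS.1 hS.2⟩

private theorem pcN_insert {x : Pt} {F : Finset Pt} (hx : x ∉ F) (A : Finset Pt → Prop) :
    pcN (insert x F) A = pcN F A + pcN F fun S => A (insert x S) := by
  unfold pcN
  rw [Finset.card_filter, Finset.card_filter, Finset.card_filter,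
    Finset.sum_powerset_insert hx]

private theorem pcN_or (F : Finset Pt) (A B : Finset Pt → Prop) :
    pcN F (fun S => A S ∨ B S) + pcN F (fun S => A S ∧ B S) = pcN F A + pcN F B := by
  have e1 : pcN F (fun S => A S ∨ B S) =
      (F.powerset.filter A ∪ F.powerset.filter B).card := by
    unfold pcN
    congr 1
    ext S
    simp only [Finset.mem_filter, Finset.mem_union]
    tauto
  have e2 : pcN F (fun S => A S ∧ B S) =
      (F.powerset.filter A ∩ F.powerset.filter B).card := by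
    unfold pcN
    congr 1
    ext S
    simp only [Finset.mem_filter, Finset.mem_inter]
    tauto
  rw [e1, e2, Finset.card_union_add_card_inter]
  rfl

private theorem pc_insert_erase {x : Pt} {K S : Finset Pt} (h : K ⊆ insert x S) :
    K.erase x ⊆ S := by
  intro v hv
  rw [Finset.mem_erase] at hv
  rcases Finset.mem_insert.1 (h hv.2) with h1 | h1
  · exact absurd h1 hv.1
  · exact h1

private theorem pc_sub {x : Pt} {K S : Finset Pt} (h : K ⊆ insert x S) (hx : x ∉ K) :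
    K ⊆ S := by
  intro v hv
  rcases Finset.mem_insert.1 (h hv) with h1 | h1
  · subst h1; exact absurd hv hx
  · exact h1

private theorem pc_key (F : Finset Pt) : ∀ A B : Finset Pt → Prop,
    (∀ S T, S ⊆ T → A S → A T) → (∀ S T, S ⊆ T → B S → B T) →
    pcN F (pcB A B) * 2 ^ F.card ≤ pcN F A * pcN F B := by
  induction F using Finset.induction_on with
  | empty =>
    intro A B hA hB
    have h1 : ∀ C : Finset Pt → Prop, pcN ∅ C = if C ∅ then 1 else 0 := by
      intro C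
      unfold pcN
      rw [Finset.card_filter, Finset.powerset_empty, Finset.sum_singleton]
    rw [h1, h1, h1]
    by_cases h : pcB A B ∅
    · obtain ⟨K, L, hK, hL, -, hAK, hBL⟩ := h
      rw [if_pos (hA K ∅ hK hAK), if_pos (hB L ∅ hL hBL)]
      split_ifs <;> simp
    · rw [if_neg h]
      simp
  | insert x F hx ih =>
    intro A B hA hB
    have hA1 : ∀ S T : Finset Pt, S ⊆ T → A (insert x S) → A (insert x T) := fun S T h =>
      hA _ _ (Finset.insert_subset_insert _ h)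
    have hB1 : ∀ S T : Finset Pt, S ⊆ T → B (insert x S) → B (insert x T) := fun S T h =>
      hB _ _ (Finset.insert_subset_insert _ h)
    have h1 := ih (fun S => A (insert x S)) B hA1 hB
    have h2 := ih A (fun S => B (insert x S)) hA hB1
    have h3 := pcN_or F (pcB (fun S => A (insert x S)) B) (pcB A fun S => B (insert x S))
    have h4 : pcN F (fun S => pcB A B (insert x S)) ≤
        pcN F (fun S => pcB (fun S => A (insert x S)) B S ∨
          pcB A (fun S => B (insert x S)) S) := by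
      refine pcN_mono fun S hS => ?_
      rintro ⟨K, L, hK, hL, hKL, hAK, hBL⟩
      by_cases hxK : x ∈ K
      · have hxL : x ∉ L := fun h => (Finset.disjoint_left.1 hKL hxK) h
        refine Or.inl ⟨K.erase x, L, pc_insert_erase hK, pc_sub hL hxL,
          hKL.mono_left (Finset.erase_subset _ _), ?_, hBL⟩
        show A (insert x (K.erase x))
        rw [Finset.insert_erase hxK]
        exact hAK
      · by_cases hxL : x ∈ L
        · refine Or.inr ⟨K, L.erase x, pc_sub hK hxK, pc_insert_erase hL,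
            hKL.mono_right (Finset.erase_subset _ _), hAK, ?_⟩
          show B (insert x (L.erase x))
          rw [Finset.insert_erase hxL]
          exact hBL
        · exact Or.inl ⟨K, L, pc_sub hK hxK, pc_sub hL hxL, hKL,
            hA _ _ (Finset.subset_insert _ _) hAK, hBL⟩
    have h5 : pcN F (pcB A B) ≤
        pcN F (fun S => pcB (fun S => A (insert x S)) B S ∧
          pcB A (fun S => B (insert x S)) S) := by
      refine pcN_mono fun S hS => ?_
      rintro ⟨K, L, hK, hL, hKL, hAK, hBL⟩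
      exact ⟨⟨K, L, hK, hL, hKL, hA _ _ (Finset.subset_insert _ _) hAK, hBL⟩,
        ⟨K, L, hK, hL, hKL, hAK, hB _ _ (Finset.subset_insert _ _) hBL⟩⟩
    have h6 : pcN F A ≤ pcN F (fun S => A (insert x S)) :=
      pcN_mono fun S _ h => hA _ _ (Finset.subset_insert _ _) h
    have h7 : pcN F B ≤ pcN F (fun S => B (insert x S)) :=
      pcN_mono fun S _ h => hB _ _ (Finset.subset_insert _ _) h
    rw [pcN_insert hx, pcN_insert hx, pcN_insert hx, Finset.card_insert_of_notMem hx, pow_succ]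
    generalize pcN F (fun S => A (insert x S)) = a1 at *
    generalize pcN F (fun S => B (insert x S)) = b1 at *
    generalize pcN F A = a0 at *
    generalize pcN F B = b0 at *
    generalize (2 : ℕ) ^ F.card = n at *
    obtain ⟨a, rfl⟩ := Nat.exists_eq_add_of_le h6
    obtain ⟨b, rfl⟩ := Nat.exists_eq_add_of_le h7
    have h8 : pcN F (pcB A B) + pcN F (fun S => pcB A B (insert x S)) ≤
        pcN F (pcB (fun S => A (insert x S)) B) + pcN F (pcB A fun S => B (insert x S)) := by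
      omega
    have h9 := Nat.mul_le_mul_right n h8
    nlinarith [h9, h1, h2, Nat.zero_le (a * b)]

private theorem pc_ovr {F S : Finset Pt} (h : S ⊆ F) : ovr F S (fun _ => false) = cfgOf S := by
  funext v
  unfold ovr cfgOf
  by_cases hv : v ∈ F
  · rw [if_pos hv]
  · rw [if_neg hv]
    have : v ∉ S := fun h' => hv (h h')
    simp [this]

private theorem pc_pr {A : Cfg → Prop} {F : Finset Pt} (hA : Dep A (F : Set Pt)) :
    pr A = (pcN F fun S => A (cfgOf S) : ℕ) / 2 ^ F.card := by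
  unfold pr
  rw [ex_eq hA.ind (fun _ => false)]
  unfold av pcN
  congr 1
  rw [Finset.card_filter]
  push_cast
  refine Finset.sum_congr rfl fun S hS => ?_
  rw [pc_ovr (Finset.mem_powerset.1 hS)]
  unfold ind
  rfl

/-- BK inequality.  Let `F` support `A` and `B` (witnesses `K, L` can be intersected with `F`).  For
`V ⊆ F` let `E_V` be the event for two independent configurations `ω, ω'` on `F`: there are
`K, L ⊆ F` with `K ∩ L ⊆ V`, `ω = 1` on `K`, `ω' = 1` on `L ∩ V`, `ω = 1` on `L \ V`, `A (cfgOf K)`,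
`B (cfgOf L)`.  `E_∅` is `DO A B` (a condition on `ω` only) and `E_F` is `A(ω) and B(ω')` (monotone),
of probability `P(A) P(B)`.  Step: `P(E_V) ≤ P(E_{V + x})` for `x ∈ F \ V`.  Fix `ω, ω'` off `x`.
If there are witnesses with `x ∉ K ∪ L`, both events hold for all values at `x`.  Otherwise let `a`:
there are witnesses (for `ω_x = 1`) with `x ∈ K, x ∉ L`, and `b`: with `x ∉ K, x ∈ L`.  `E_V` holds
iff `ω_x = 1` and (`a` or `b`): probability `1/2` or `0`.  `E_{V+x}` holds at least if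
(`ω_x = 1` and `a`) or (`ω'_x = 1` and `b`): probability at least `1/2` if `a` or `b`. -/
theorem bk {A B : Cfg → Prop} (lA : Loc A) (lB : Loc B) (hA : Inc A) (hB : Inc B) :
    pr (DO A B) ≤ pr A * pr B := by
  obtain ⟨F1, hF1⟩ := lA
  obtain ⟨F2, hF2⟩ := lB
  have dA : Dep A ((F1 ∪ F2 : Finset Pt) : Set Pt) := hF1.mono (by
    rw [Finset.coe_union]; exact Set.subset_union_left)
  have dB : Dep B ((F1 ∪ F2 : Finset Pt) : Set Pt) := hF2.mono (by
    rw [Finset.coe_union]; exact Set.subset_union_right)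
  generalize F1 ∪ F2 = F at dA dB
  have hcfg : ∀ S T : Finset Pt, S ⊆ T → ∀ v, cfgOf S v ≤ cfgOf T v := by
    intro S T h v
    unfold cfgOf
    by_cases hv : v ∈ S
    · simp [hv, h hv]
    · simp [hv]
  have key := pc_key F (fun S => A (cfgOf S)) (fun S => B (cfgOf S))
    (fun S T h => hA _ _ (hcfg S T h)) (fun S T h => hB _ _ (hcfg S T h))
  have hD : pcN F (fun S => DO A B (cfgOf S)) ≤
      pcN F (pcB (fun S => A (cfgOf S)) fun S => B (cfgOf S)) := by
    refine pcN_mono fun S _ => ?_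
    rintro ⟨K, L, hKL, hK, hL, hAK, hBL⟩
    refine ⟨K, L, fun v hv => ?_, fun v hv => ?_, hKL, hAK, hBL⟩
    · have := hK v hv
      unfold cfgOf at this
      exact of_decide_eq_true this
    · have := hL v hv
      unfold cfgOf at this
      exact of_decide_eq_true this
  have key2 := (Nat.mul_le_mul_right (2 ^ F.card) hD).trans key
  rw [pc_pr (pc_dep dA dB), pc_pr dA, pc_pr dB, div_mul_div_comm, div_le_div_iff₀ (by positivity)
    (by positivity)]
  have key3 : ((pcN F fun S => DO A B (cfgOf S) : ℕ) : ℝ) * 2 ^ F.card ≤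
      (pcN F fun S => A (cfgOf S) : ℕ) * (pcN F fun S => B (cfgOf S) : ℕ) := by
    exact_mod_cast key2
  have h2 : (0 : ℝ) ≤ 2 ^ F.card := by positivity
  nlinarith [mul_le_mul_of_nonneg_right key3 h2]

end SC

end

/-! ### from `Lib_MP_e0a489.TP2` -/

section

/-!
# MP_e0a489, module TP 2: lists, runs, truncation of arms
-/

set_option autoImplicit false

namespace SC

open Classical

namespace Lat

variable {L : Lat} {c : Bool} {ω : Cfg}

/-- The sites of a path form a connected set.  Proof: every site of the list is joined to the head inside the set (induction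
on the list); then `Cn.symm`, `Cn.trans`. -/
theorem con_list {γ : List Pt} (h : γ.IsChain L.Adj) : L.Con {v | v ∈ γ} := by
  induction γ with
  | nil =>
    intro u hu
    exact absurd hu List.not_mem_nil
  | cons a l ih =>
    cases l with
    | nil =>
      have e : {v : Pt | v ∈ [a]} = {a} := by
        ext v
        exact List.mem_singleton
      rw [e]
      exact con_singleton a
    | cons b l =>
      rw [List.isChain_cons_cons] at h
      have e : {v : Pt | v ∈ a :: b :: l} = {a} ∪ {v | v ∈ b :: l} := by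
        ext v
        exact List.mem_cons
      rw [e]
      exact Con.union_adj (con_singleton a) (ih h.2) (Set.mem_singleton a)
        (List.mem_cons_self (a := b) (l := l)) h.1

/-- a run of consecutively adjacent sites is connected (`f i` is joined to `f p` inside the set: induction on
`i - p`, `Int.le_induction`) -/
theorem con_run {f : ℤ → Pt} {p q : ℤ} (h : ∀ i, p ≤ i → i < q → L.Adj (f i) (f (i + 1))) :
    L.Con {v | ∃ i, p ≤ i ∧ i ≤ q ∧ f i = v} := by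
  have key : ∀ i, p ≤ i → i ≤ q → L.Cn {v | ∃ i, p ≤ i ∧ i ≤ q ∧ f i = v} (f p) (f i) := by
    intro i hi
    induction i, hi using Int.le_induction with
    | base =>
      intro hq
      exact Cn.refl ⟨p, le_rfl, hq, rfl⟩
    | succ n hn ih =>
      intro hq
      have h1 := ih (by omega)
      exact h1.trans (Cn.of_adj h1.right ⟨n + 1, by omega, hq, rfl⟩ (h n hn (by omega)))
  rintro u ⟨i, hi1, hi2, rfl⟩ v ⟨j, hj1, hj2, rfl⟩
  exact (key i hi1 hi2).symm.trans (key j hj1 hj2)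

/-- one more site next to a connected set: `Con.union_adj` with `con_singleton` -/
theorem Con.insert {A : Set Pt} (hA : L.Con A) {u v : Pt} (hu : u ∈ A) (h : L.Adj u v ∨ u = v) :
    L.Con (A ∪ {v}) := by
  rcases h with h | h
  · exact Con.union_adj hA (con_singleton v) hu (Set.mem_singleton v) h
  · subst h
    have e : A ∪ {u} = A := Set.union_eq_left.2 (Set.singleton_subset_iff.2 hu)
    rw [e]
    exact hA

/-- LAST PART of a path.  `A` (allowed sites), `I` (inner set), a path in `A` from `x` to `p`, `p ∉ I`.  Then there is `s` with a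
path from `s` to `p` in `A \ I`, and `s = x` or `s ∈ nb I`; `s` is joined to `x` in `A`.
Proof.  `S = {v | Cn (A \ I) v p}`.  If `x ∈ S` take `s = x`.  Otherwise `Cn.exit` for the path from `p` to `x` (`Cn.symm`) and the set `S` gives `s ∈ S`,
`t ∈ A`, `t ∉ S`, `Adj s t`; then `t ∈ I` (otherwise `t ∈ S`), so `s ∈ nb I`. -/
theorem Cn.lastPart {A I : Set Pt} {x p : Pt} (h : L.Cn A x p) (hp : p ∉ I) :
    ∃ s, L.Cn (A \ I) s p ∧ (s = x ∨ s ∈ L.nb I) ∧ L.Cn A x s := by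
  by_cases hx : L.Cn (A \ I) x p
  · exact ⟨x, hx, Or.inl rfl, Cn.refl h.left⟩
  · have hpS : L.Cn (A \ I) p p := Cn.refl ⟨h.right, hp⟩
    obtain ⟨s, t, h1, h2, h3, h4⟩ := h.symm.exit (S := {v | L.Cn (A \ I) v p}) hpS hx
    have hs : L.Cn (A \ I) s p := h1.right.2
    have ht : t ∈ I := by
      by_contra ht
      have h5 : t ∈ A \ I := ⟨h3, ht⟩
      exact h4 ((Cn.of_adj h5 hs.left h2.symm).trans hs)
    exact ⟨s, hs, Or.inr ⟨t, ht, h2.symm⟩, h.trans (h1.mono Set.inter_subset_left)⟩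

/-- TRUNCATION OF ARMS.  Two clusters of colour `c` crossing `D` from `X` to `Y` give two clusters crossing the smaller
annulus `B \ I`.  Proof.  CLAIM: if `x ∈ X`, `y ∈ Y` and `Cn (D ∩ col) x y` then there are `q ∈ nb I` and `p ∈ B` with a neighbour outside `B`,
with `Cn ((B \ I) ∩ col) q p` and `Cn (D ∩ col) x q`.  Indeed `x ∈ B`, `y ∉ B`, so `Cn.exit` with `S = B` gives `Cn (D ∩ col ∩ B) x p`, `Adj p u`, `u ∉ B`; `p ∉ I` by `hBI`; now
`Cn.lastPart` (with `A = D ∩ col ∩ B`) gives `q = s`; if `s = x` then `x ∉ I` (`s ∈ A \ I`), so `x ∈ nb I` by `hX`.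
The two new arms are not joined in `(B \ I) ∩ col ⊆ D ∩ col`, because this would join `x` and `x'`. -/
theorem Two.trunc {D X Y B I : Set Pt} (hBI : ∀ u ∈ I, ∀ v, L.Adj u v → v ∈ B)
    (hD : B \ I ⊆ D) (hX : ∀ x ∈ X, x ∈ D → x ∈ B ∧ (x ∉ I → x ∈ L.nb I))
    (hY : ∀ y ∈ Y, y ∉ B) (h : L.Two c D X Y ω) :
    L.Two c (B \ I) (L.nb I) {v | v ∈ B ∧ ∃ u, L.Adj v u ∧ u ∉ B} ω := by
  have claim : ∀ x ∈ X, ∀ y ∈ Y, L.Cn (D ∩ L.col c ω) x y →
      ∃ q ∈ L.nb I, ∃ p ∈ {v | v ∈ B ∧ ∃ u, L.Adj v u ∧ u ∉ B},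
        L.Cn ((B \ I) ∩ L.col c ω) q p ∧ L.Cn (D ∩ L.col c ω) x q := by
    intro x hx y hy hxy
    obtain ⟨hxB, hxI⟩ := hX x hx hxy.left.1
    obtain ⟨p, u, h1, h2, _, h4⟩ := hxy.exit (S := B) hxB (hY y hy)
    have hpI : p ∉ I := fun hpI => h4 (hBI p hpI u h2)
    obtain ⟨s, g1, g2, g3⟩ := Cn.lastPart h1 hpI
    have hs : s ∈ L.nb I := by
      rcases g2 with g2 | g2
      · rw [g2]
        refine hxI ?_
        rw [← g2]
        exact g1.left.2
      · exact g2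
    refine ⟨s, hs, p, ⟨h1.right.2, u, h2, h4⟩, g1.mono ?_, g3.mono Set.inter_subset_left⟩
    rintro z ⟨⟨⟨_, z2⟩, z3⟩, z4⟩
    exact ⟨⟨z3, z4⟩, z2⟩
  obtain ⟨x, hx, y, hy, x', hx', y', hy', h1, h2, h3⟩ := h
  obtain ⟨q, hq, p, hp, a1, a2⟩ := claim x hx y hy h1
  obtain ⟨q', hq', p', hp', b1, b2⟩ := claim x' hx' y' hy' h2
  refine ⟨q, hq, p, hp, q', hq', p', hp', a1, b1, fun h4 => h3 ?_⟩
  have h5 : L.Cn (D ∩ L.col c ω) q q' := by
    refine h4.mono ?_
    rintro z ⟨z1, z2⟩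
    exact ⟨hD z1, z2⟩
  exact (a2.trans h5).trans b2.symm

end Lat

end SC

end

/-! ### from `Lib_MP_e0a489.FI20` -/

section

/-!
# MP_e0a489, module FI 20: construction of `AF`
-/

set_option autoImplicit false

namespace SC

namespace FI

/-- `C` = maximum of the three constants, `R₀` = maximum of the thresholds, `γ = 1 - c₃ / 2` (so `2 γ = 2 - c₃`), `c = c₂`.  `C f r R` increases with `C`
because `f ≥ 0`, and `C (r/R)^(1+c)` increases with `C`.  (For `r = R` in `up`: `(r / R) = 1`, fine.) -/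
theorem AF_of {f : ℤ → ℤ → ℝ} {C₁ C₂ C₃ c₂ c₃ : ℝ} {R₁ R₂ R₃ : ℤ} (h1 : 1 ≤ C₁)
    (h2 : 0 < c₂) (h3 : 0 < c₃) (h4 : c₃ ≤ 1 / 2) (h16 : 16 ≤ R₁) (nn : ∀ r R, 0 ≤ f r R)
    (le1 : ∀ r R, f r R ≤ 1) (one : ∀ r R, R ≤ r → f r R = 1)
    (mono : ∀ r R r' R', 0 ≤ r' → r' ≤ r → r ≤ R → R ≤ R' → f r' R' ≤ f r R)
    (sub : ∀ r ρ R, 0 ≤ r → r ≤ ρ → ρ ≤ R → f r R ≤ f r ρ * f ρ R)
    (qm : ∀ r ρ R, R₁ ≤ r → r ≤ ρ → ρ ≤ R → f r ρ * f ρ R ≤ C₁ * f r R)
    (up : ∀ r R, R₂ ≤ r → r ≤ R → f r R ≤ C₂ * ((r : ℝ) / R) ^ (1 + c₂))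
    (lo : ∀ r R, R₃ ≤ r → r ≤ R → ((r : ℝ) / R) ^ (2 - c₃) ≤ C₃ * f r R) :
    AF f (max C₁ (max C₂ C₃)) c₂ (1 - c₃ / 2) (max R₁ (max R₂ R₃)) := by
  have e1 : C₁ ≤ max C₁ (max C₂ C₃) := le_max_left _ _
  have e2 : C₂ ≤ max C₁ (max C₂ C₃) := (le_max_left _ _).trans (le_max_right _ _)
  have e3 : C₃ ≤ max C₁ (max C₂ C₃) := (le_max_right _ _).trans (le_max_right _ _)
  have r1 : R₁ ≤ max R₁ (max R₂ R₃) := le_max_left _ _
  have r2 : R₂ ≤ max R₁ (max R₂ R₃) := (le_max_left _ _).trans (le_max_right _ _)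
  have r3 : R₃ ≤ max R₁ (max R₂ R₃) := (le_max_right _ _).trans (le_max_right _ _)
  have r0 : ∀ {r R : ℤ}, max R₁ (max R₂ R₃) ≤ r → r ≤ R → (0 : ℝ) ≤ (r : ℝ) / R := by
    intro r R hr hrR
    have h5 : (0 : ℤ) ≤ r := by omega
    have h6 : (0 : ℤ) ≤ R := by omega
    exact div_nonneg (by exact_mod_cast h5) (by exact_mod_cast h6)
  refine ⟨⟨h1.trans e1, by linarith, by linarith, h16.trans r1, nn, le1, one, mono, ?_, ?_⟩,
    h2, by linarith, sub, ?_⟩
  · intro r ρ R hr hρ hR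
    exact (qm r ρ R (r1.trans hr) hρ hR).trans (mul_le_mul_of_nonneg_right e1 (nn r R))
  · intro r R hr hrR
    have h7 : 2 * (1 - c₃ / 2) = 2 - c₃ := by ring
    rw [h7]
    exact (lo r R (r3.trans hr) hrR).trans (mul_le_mul_of_nonneg_right e3 (nn r R))
  · intro r R hr hrR
    exact (up r R (r2.trans hr) hrR).trans
      (mul_le_mul_of_nonneg_right e2 (Real.rpow_nonneg (r0 hr hrR) _))

end FI

end SC

end
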