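import Mathlib
import Pool.Agent.Lib_MP_e0a489.TPdefs
import Pool.Agent.Lib_MP_e0a489_m.G01
import Pool.Agent.Lib_MP_e0a489_m.G05
import Pool.Agent.Lib_MP_e0a489_m.G06
import Pool.Agent.Lib_MP_e0a489_m.G07
import Pool.Agent.Lib_MP_e0a489_m.G08

/-!
# MP_e0a489_pr: merged library part G09

Concatenation of library files (each in its own section), only to save build time.
-/

/-! ### from `Lib_MP_e0a489.IfT` -/

section

/-!
# MP_e0a489: interface IfT (two-time bounds)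
-/

set_option autoImplicit false

namespace SC

open Classical

/-- two-time bounds -/
class IfT : Prop where
  two_time : ∀ {L : Lat} {κ : ℕ → ℝ} (h : Fam L κ) {x₀ : Pt}
    (hc : ∀ m : ℤ, 8 ≤ m → CoreOK (L.shift x₀) m) (R₁ : ℤ),
    ∃ (M : ℝ) (Λ R₀ : ℤ), 0 < M ∧ 1 ≤ Λ ∧ 16 ≤ R₀ ∧ R₁ ≤ R₀ ∧ TTProps L M Λ R₀

theorem two_time [IfT] {L : Lat} {κ : ℕ → ℝ} (h : Fam L κ) {x₀ : Pt}
    (hc : ∀ m : ℤ, 8 ≤ m → CoreOK (L.shift x₀) m) (R₁ : ℤ) :
    ∃ (M : ℝ) (Λ R₀ : ℤ), 0 < M ∧ 1 ≤ Λ ∧ 16 ≤ R₀ ∧ R₁ ≤ R₀ ∧ TTProps L M Λ R₀ :=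
  IfT.two_time h hc R₁

end SC

end

/-! ### from `Lib_MP_e0a489.SE6` -/

section

/-!
# MP_e0a489, module SE 6: arms that cross a zone, direction 0

The perpendicular crossing of the zone and the radial crossing of a long strip meet, and the arm crosses the zone
radially, so the arm is joined to the radial crossing.
-/

set_option autoImplicit false

namespace SC

open Classical

namespace Lat

variable {L : Lat} {c : Bool} {ω : Cfg}

/-- a cluster of a part that is not adjacent to the rest of the zones can only be left into `D` -/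
private theorem SE6_leave {D X Y B : Set Pt} {u v : Pt} (hu : u ∈ X) (hv : ¬ L.Cn (X ∩ B) u v)
    (hXY : ∀ s ∈ X, ∀ t ∈ Y, ¬ L.Adj s t) (h : L.Cn ((D ∪ (X ∪ Y)) ∩ B) u v) :
    ∃ p q, L.Cn (X ∩ B) u p ∧ L.Cn ((D ∪ (X ∪ Y)) ∩ B) u p ∧ L.Adj p q ∧ q ∈ D := by
  have huB : u ∈ X ∩ B := ⟨hu, h.left.2⟩
  obtain ⟨p, q, h1, h2, h3, h4⟩ := h.exit (S := {w | L.Cn (X ∩ B) u w}) (Cn.refl huB) hv
  have hp : L.Cn (X ∩ B) u p := h1.right.2
  refine ⟨p, q, hp, h1.mono Set.inter_subset_left, h2, ?_⟩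
  rcases h3.1 with h5 | h5 | h5
  · exact h5
  · exact absurd (hp.trans (Cn.of_adj hp.right ⟨h5, h3.2⟩ h2)) h4
  · exact absurd h2 (hXY p hp.right.1 q h5)

private theorem SE6_J0 {R : ℤ} {v : Pt} :
    v ∈ J 0 R ↔ R + 1 ≤ v.1 ∧ v.1 ≤ 2 * R ∧ -(R / 4) ≤ v.2 ∧ v.2 ≤ R / 4 := by
  rw [J_eq]
  exact mem_Zn0

private theorem SE6_K0 {r : ℤ} {v : Pt} :
    v ∈ K 0 r ↔ r / 2 + 1 ≤ v.1 ∧ v.1 ≤ r ∧ -(r / 8) ≤ v.2 ∧ v.2 ≤ r / 8 := by
  rw [K_eq]
  exact mem_Zn0

private theorem SE6_Jadj {R : ℤ} (hR : 1 ≤ R) : ∀ s ∈ J 0 R, ∀ t ∈ J 2 R, ¬ L.Adj s t := by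
  intro s hs t ht
  rw [J_eq] at hs ht
  exact Zn_not_adj (s := 0) (by omega) (by omega) hs ht

private theorem SE6_Kadj {r : ℤ} (hr : 1 ≤ r) : ∀ s ∈ K 0 r, ∀ t ∈ K 2 r, ¬ L.Adj s t := by
  intro s hs t ht
  rw [K_eq] at hs ht
  exact Zn_not_adj (s := 0) (by omega) (by omega) hs ht

/-- a site of the zone next to the box is on the inner side of the zone -/
private theorem SE6_near {R : ℤ} {u v : Pt} (hv : v ∈ J 0 R) (hu : u ∈ bx R) (h : L.Adj u v) :
    v.1 = R + 1 := by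
  have h1 := SE6_J0.1 hv
  have h2 : nrm u ≤ R := hu
  have h3 : |u.1| ≤ R := le_trans (le_max_left _ _) h2
  have h4 := abs_le.1 h3
  have h5 := abs_le.1 h.near.1
  omega


/-- An arm that ends at the far side of `J 0 R` crosses `J 0 R` radially.  `D ⊆ bx R`.  If the first site `x` of the arm is in
`bx R`: `Cn.last` with `S = bx R` gives `p ∈ bx R`, `Adj p q` and `q` joined to `y` in `(J 0 R ∪ J 2 R)`, hence in `J 0 R` (`J 0 R`, `J 2 R`
are not adjacent, `Zn_not_adj`; use induction along the path), `q.1 = R + 1` because `q` is next to `bx R` (`Adj.near`) .  If `x` is not in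
`bx R` it is next to `bx R` and in `J 0 R ∪ J 2 R`; if the arm visits `bx R` use the same argument, otherwise it stays in
`J 0 R ∪ J 2 R`, so in `J 0 R`, and `q = x`.  `q` is joined to `x` because both are joined to `y`. -/
theorem zone_out {D : Set Pt} {R : ℤ} (hR : 1 ≤ R) (hD : D ⊆ bx R) {x y : Pt}
    (hx : x ∈ bx R ∪ L.nb (bx R)) (hy : y ∈ Je 0 R)
    (h : L.Cn ((D ∪ (J 0 R ∪ J 2 R)) ∩ L.col c ω) x y) :
    ∃ q, q.1 = R + 1 ∧ L.Cn (J 0 R ∩ L.col c ω) q y ∧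
      L.Cn ((D ∪ (J 0 R ∪ J 2 R)) ∩ L.col c ω) x q := by
  have hy0 : y ∈ J 0 R := by
    rw [Je_eq] at hy
    have h1 := mem_Zn0.1 hy
    rw [SE6_J0]
    omega
  by_cases hc : L.Cn (J 0 R ∩ L.col c ω) y x
  · have hxJ : x ∈ J 0 R := hc.right.1
    refine ⟨x, ?_, hc.symm, Cn.refl h.left⟩
    rcases hx with hx | hx
    · have h1 := SE6_J0.1 hxJ
      have h2 : nrm x ≤ R := hx
      have h3 : |x.1| ≤ R := le_trans (le_max_left _ _) h2
      have h4 := abs_le.1 h3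
      omega
    · obtain ⟨u, hu, hux⟩ := hx
      exact SE6_near hxJ hu hux
  · obtain ⟨p, q, hp, hp', hpq, hq⟩ := SE6_leave hy0 hc (SE6_Jadj hR) h.symm
    exact ⟨p, SE6_near hp.right.1 (hD hq) hpq.symm, hp.symm, h.trans hp'⟩

/-- An arm that starts at the inner side of `K 0 r` and leaves `bx r` crosses `K 0 r` radially: `Cn.exit` with `S = bx r`; the
part before the exit is in `K 0 r ∪ K 2 r`, so in `K 0 r`, and its last site `q` has `q.1 = r` (`|q.2| ≤ r / 8 < r` and `q` has a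
neighbour outside `bx r`). -/
theorem zone_in {D : Set Pt} {r : ℤ} (hr : 8 ≤ r) (hD : ∀ v ∈ D, r < nrm v) {x y : Pt}
    (hx : x ∈ Ks 0 r) (hy : r < nrm y) (h : L.Cn ((D ∪ (K 0 r ∪ K 2 r)) ∩ L.col c ω) x y) :
    ∃ q, q.1 = r ∧ L.Cn (K 0 r ∩ L.col c ω) x q ∧
      L.Cn ((D ∪ (K 0 r ∪ K 2 r)) ∩ L.col c ω) q y := by
  have hx0 : x ∈ K 0 r := by
    rw [Ks_eq] at hx
    have h1 := mem_Zn0.1 hx
    rw [SE6_K0]
    omega
  have hc : ¬ L.Cn (K 0 r ∩ L.col c ω) x y := by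
    intro hc
    have h1 := SE6_K0.1 hc.right.1
    have h2 : |y.1| ≤ r := abs_le.2 ⟨by omega, by omega⟩
    have h3 : |y.2| ≤ r := abs_le.2 ⟨by omega, by omega⟩
    have h4 : nrm y ≤ r := max_le h2 h3
    omega
  obtain ⟨p, q, hp, hp', hpq, hq⟩ := SE6_leave hx0 hc (SE6_Kadj (by omega)) h
  refine ⟨p, ?_, hp, hp'.symm.trans h⟩
  have h1 := SE6_K0.1 hp.right.1
  have h2 : r < nrm q := hD q hq
  have h5 := abs_le.1 hpq.near.1
  have h6 := abs_le.1 hpq.near.2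
  by_contra hne
  have h7 : |q.1| ≤ r := abs_le.2 ⟨by omega, by omega⟩
  have h8 : |q.2| ≤ r := abs_le.2 ⟨by omega, by omega⟩
  have h9 : nrm q ≤ r := max_le h7 h8
  omega

/-- Link: `x`, `y` joined in the zone `[a,b] × [-h,h]` with `x.1 = a`, `y.1 = b`; a perpendicular crossing of the zone; a radial crossing of
the strip `[a',b'] × [-h',h']`, `a' ≤ a`, `b ≤ b'`, `h' ≤ h`.  The perpendicular crossing (a connected set) meets the first
path (`cross`) and the radial crossing (`crossX`).  So there are sites `p`, `q` at the two ends of the strip joined to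
`x`. -/
theorem link {a b h a' b' h' : ℤ} (hab : a ≤ b) (hh' : 0 ≤ h') (hh : h' ≤ h) (ha : a' ≤ a)
    (hb : b ≤ b') {x y : Pt} (hx : x.1 = a) (hy : y.1 = b)
    (h1 : L.Cn (rect a b (-h) h ∩ L.col c ω) x y) (h2 : L.VX c a b (-h) h ω)
    {p q : Pt} (hp : p.1 = a') (hq : q.1 = b') (h3 : L.Cn (rect a' b' (-h') h' ∩ L.col c ω) p q) :
    L.Cn ((rect a b (-h) h ∪ rect a' b' (-h') h') ∩ L.col c ω) x p := by
  obtain ⟨u, v, hu, hv, huv⟩ := h2
  have sub1 : ∀ s : Pt, {w | L.Cn (rect a b (-h) h ∩ L.col c ω) s w} ⊆ rect a b (-h) h := by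
    intro s w hw
    have hw' : L.Cn (rect a b (-h) h ∩ L.col c ω) s w := hw
    exact hw'.right.1
  have sub2 : {w | L.Cn (rect a' b' (-h') h' ∩ L.col c ω) p w} ⊆ rect a' b' (-h') h' := by
    intro w hw
    have hw' : L.Cn (rect a' b' (-h') h' ∩ L.col c ω) p w := hw
    exact hw'.right.1
  obtain ⟨z, hz1, hz2⟩ := cross (con_cluster _ x) (con_cluster _ u) (sub1 x) (sub1 u)
    ⟨x, Cn.refl h1.left, hx⟩ ⟨y, h1, hy⟩ ⟨u, Cn.refl huv.left, hu⟩ ⟨v, huv, hv⟩
  obtain ⟨z', ⟨hz3, hz4⟩, -⟩ := crossX (con_cluster _ p) (con_cluster _ u) sub2 (sub1 u)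
    ⟨p, Cn.refl h3.left, hp⟩ ⟨q, h3, hq⟩ ⟨u, Cn.refl huv.left, hu⟩ ⟨v, huv, hv⟩
    ha hb (by omega) hh hab (by omega)
  have k1 : L.Cn (rect a b (-h) h ∩ L.col c ω) x z := hz1
  have k2 : L.Cn (rect a b (-h) h ∩ L.col c ω) u z := hz2
  have k3 : L.Cn (rect a' b' (-h') h' ∩ L.col c ω) p z' := hz3
  have k4 : L.Cn (rect a b (-h) h ∩ L.col c ω) u z' := hz4
  have e1 : rect a b (-h) h ∩ L.col c ω ⊆
      (rect a b (-h) h ∪ rect a' b' (-h') h') ∩ L.col c ω :=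
    Set.inter_subset_inter_left _ Set.subset_union_left
  have e2 : rect a' b' (-h') h' ∩ L.col c ω ⊆
      (rect a b (-h) h ∪ rect a' b' (-h') h') ∩ L.col c ω :=
    Set.inter_subset_inter_left _ Set.subset_union_right
  exact (((k1.trans k2.symm).trans k4).mono e1).trans (k3.symm.mono e2)

end Lat

end SC

end

/-! ### from `Lib_MP_e0a489.TD1` -/

section

/-!
# MP_e0a489, topology 6a: planar duality in a rectangle
-/

set_option autoImplicit false

namespace SC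

open Classical

namespace Lat

variable {L : Lat}

private theorem TD1_con {S D : Set Pt} {c : Bool} {ω : Cfg} (hS : L.Con S) :
    L.Con (S ∪ L.cl c D S ω) := by
  refine Con.union_many hS ?_
  rintro v ⟨u, ⟨w, hw, hwu⟩, huv⟩
  refine ⟨w, hw, u, hwu, ?_⟩
  refine ((con_cluster (D ∩ L.col c ω) u) u (Cn.refl huv.left) v huv).mono ?_
  intro z hz
  exact ⟨u, ⟨w, hw, hwu⟩, hz⟩

private theorem TD1_grow {S D : Set Pt} {c : Bool} {ω : Cfg} {u v : Pt}
    (hu : u ∈ S ∪ L.cl c D S ω) (huv : L.Adj u v) (hv : v ∈ D) (hc : L.st ω v = c) :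
    v ∈ L.cl c D S ω := by
  rcases hu with hu | ⟨w, hw, hwu⟩
  · exact ⟨v, ⟨u, hu, huv⟩, Cn.refl ⟨hv, hc⟩⟩
  · exact ⟨w, hw, hwu.trans (Cn.of_adj hwu.right ⟨hv, hc⟩ huv)⟩

private theorem TD1_cl_sub {S D : Set Pt} {c : Bool} {ω : Cfg} :
    L.cl c D S ω ⊆ D ∩ L.col c ω := by
  rintro v ⟨u, -, hv⟩
  exact hv.right

private theorem TD1_bool {x c : Bool} (h : x ≠ c) : x = !c := by
  revert x c
  decide

/-- DUALITY IN A RECTANGLE.  Suppose there is no crossing `HX c`.  Let `M = rect (a-1) (b+1) p q`,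
`L₀ = rect (a-1) (a-1) p q`, `C = L₀ ∪ cl c (rect a b p q) L₀ ω`.  `C` is connected, contained in `M`
and has no site with first coordinate `≥ b` (such a site is joined in colour `c` to a site of
the column `a`).  Let `W` be the component of `M \ C` that contains the column `b+1`.  By `con_bd` and
`exact_rect` the set `bd W C` is connected.  Its sites lie in `rect a b p q` (neighbours of `C`, not in `L₀`),
and have colour `!c` (a site of colour `c` in the rectangle with a neighbour in `C` belongs to `C`).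
Row `p`: let `i` be the largest number with `(i, p) ∈ C` (`a - 1 ≤ i < b`); then `(i+1, p), ..., (b+1, p)` are
not in `C`, so they are in `W`, and `(i+1, p) ∈ bd W C`.  The same for the row `q`.  So `bd W C`
contains a crossing `VX (!c)`. -/
theorem hex_or {a b p q : ℤ} (hab : a ≤ b) (hpq : p ≤ q) (c : Bool) (ω : Cfg) :
    L.HX c a b p q ω ∨ L.VX (!c) a b p q ω := by
  by_cases hX : L.HX c a b p q ω
  · exact Or.inl hX
  right
  set S : Set Pt := rect (a - 1) (a - 1) p q with hS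
  set M : Set Pt := rect (a - 1) (b + 1) p q with hM
  set C : Set Pt := S ∪ L.cl c (rect a b p q) S ω with hC
  have hSm : ∀ v : Pt, v ∈ S ↔ (a - 1 ≤ v.1 ∧ v.1 ≤ a - 1) ∧ p ≤ v.2 ∧ v.2 ≤ q :=
    fun _ => Iff.rfl
  have hMm : ∀ v : Pt, v ∈ M ↔ (a - 1 ≤ v.1 ∧ v.1 ≤ b + 1) ∧ p ≤ v.2 ∧ v.2 ≤ q :=
    fun _ => Iff.rfl
  have hRm : ∀ v : Pt, v ∈ rect a b p q ↔ (a ≤ v.1 ∧ v.1 ≤ b) ∧ p ≤ v.2 ∧ v.2 ≤ q :=
    fun _ => Iff.rfl
  have hCc : L.Con C := TD1_con (con_rect _ _ _ _)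
  have hCM : C ⊆ M := by
    rintro v (hv | hv)
    · rw [hSm] at hv
      rw [hMm]
      omega
    · have h1 := (TD1_cl_sub hv).1
      rw [hRm] at h1
      rw [hMm]
      omega
  have hCb : ∀ v ∈ C, v.1 < b := by
    rintro v (hv | hv)
    · rw [hSm] at hv
      omega
    · have h1 := (TD1_cl_sub hv).1
      obtain ⟨u, ⟨w, hw, hwu⟩, huv⟩ := hv
      have h2 := huv.left.1
      rw [hRm] at h1 h2
      rw [hSm] at hw
      have h3 := hwu.near
      rw [abs_le, abs_le] at h3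
      by_contra hcon
      exact hX ⟨u, v, by omega, by omega, huv⟩
  have hcol : rect (b + 1) (b + 1) p q ⊆ M \ C := by
    intro v hv
    have h1 : (b + 1 ≤ v.1 ∧ v.1 ≤ b + 1) ∧ p ≤ v.2 ∧ v.2 ≤ q := hv
    refine ⟨?_, fun hvC => ?_⟩
    · rw [hMm]
      omega
    · have h2 := hCb v hvC
      omega
  have hm : ∀ y, p ≤ y → y ≤ q → ((b + 1, y) : Pt) ∈ rect (b + 1) (b + 1) p q :=
    fun y h1 h2 => ⟨⟨le_refl _, le_refl _⟩, h1, h2⟩
  set W : Set Pt := {v | L.Cn (M \ C) (b + 1, p) v} with hW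
  have hWc : L.Comp (M \ C) W := comp_cluster (hcol (hm p (le_refl _) hpq))
  have hB : L.Con (L.bd W C) := con_bd (exact_rect _ _ _ _ _) hCc hCM hWc
  have hBsub : L.bd W C ⊆ rect a b p q ∩ L.col (!c) ω := by
    rintro v ⟨hv, u, hu, huv⟩
    have h1 := hWc.sub hv
    have h2 := hCb u hu
    have h3 := huv.near
    rw [abs_le, abs_le] at h3
    have h4 : v ∉ S := fun h => h1.2 (Or.inl h)
    have h5 := h1.1
    rw [hSm] at h4
    rw [hMm] at h5
    have h6 : v ∈ rect a b p q := by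
      rw [hRm]
      omega
    refine ⟨h6, TD1_bool fun hc => h1.2 (Or.inr (TD1_grow hu huv h6 hc))⟩
  have hrow : ∀ y, p ≤ y → y ≤ q → ∃ v ∈ L.bd W C, v.2 = y := by
    intro y hy1 hy2
    have hT : L.Con (rect (a - 1) (b + 1) y y) := con_rect _ _ _ _
    have m1 : ((a - 1, y) : Pt) ∈ rect (a - 1) (b + 1) y y :=
      ⟨⟨le_refl _, by simp only []; omega⟩, le_refl _, le_refl _⟩
    have m2 : ((b + 1, y) : Pt) ∈ rect (a - 1) (b + 1) y y :=
      ⟨⟨by simp only []; omega, le_refl _⟩, le_refl _, le_refl _⟩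
    have m3 : ((a - 1, y) : Pt) ∈ C := Or.inl ⟨⟨le_refl _, le_refl _⟩, hy1, hy2⟩
    have m4 : ((b + 1, y) : Pt) ∉ C := (hcol (hm y hy1 hy2)).2
    obtain ⟨z, w, hz, hzC, hzw, hw⟩ := (hT _ m1 _ m2).last m3 m4
    have hTM : rect (a - 1) (b + 1) y y \ C ⊆ M \ C := by
      rintro v ⟨hv, hvC⟩
      have h1 : (a - 1 ≤ v.1 ∧ v.1 ≤ b + 1) ∧ y ≤ v.2 ∧ v.2 ≤ y := hv
      refine ⟨?_, hvC⟩
      rw [hMm]
      omega
    have h2 : L.Cn (M \ C) (b + 1, p) (b + 1, y) :=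
      (con_rect _ _ _ _ _ (hm p (le_refl _) hpq) _ (hm y hy1 hy2)).mono hcol
    refine ⟨w, ⟨h2.trans (hw.mono hTM).symm, z, hzC, hzw⟩, ?_⟩
    have h3 : (a - 1 ≤ w.1 ∧ w.1 ≤ b + 1) ∧ y ≤ w.2 ∧ w.2 ≤ y := hw.left.1
    omega
  obtain ⟨u, hu, hup⟩ := hrow p (le_refl _) hpq
  obtain ⟨v, hv, hvq⟩ := hrow q hpq (le_refl _)
  exact ⟨u, v, hup, hvq, (hB u hu v hv).mono hBsub⟩

/-- From `cross`: the two connected sets would meet, but a site has only one colour. -/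
theorem hex_not {a b p q : ℤ} {c : Bool} {ω : Cfg} (h : L.HX c a b p q ω)
    (h' : L.VX (!c) a b p q ω) : False := by
  obtain ⟨u, v, hu, hv, huv⟩ := h
  obtain ⟨u', v', hu', hv', huv'⟩ := h'
  obtain ⟨z, hz, hz'⟩ := cross (con_cluster (rect a b p q ∩ L.col c ω) u)
    (con_cluster (rect a b p q ∩ L.col (!c) ω) u') (fun w hw => (Cn.right hw).1)
    (fun w hw => (Cn.right hw).1) ⟨u, Cn.refl huv.left, hu⟩ ⟨v, huv, hv⟩
    ⟨u', Cn.refl huv'.left, hu'⟩ ⟨v', huv', hv'⟩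
  have h1 : L.st ω z = c := (Cn.right hz).2
  have h2 : L.st ω z = !c := (Cn.right hz').2
  rw [h1] at h2
  revert h2
  cases c <;> decide

theorem not_hx {a b p q : ℤ} (hab : a ≤ b) (hpq : p ≤ q) (c : Bool) (ω : Cfg) :
    ¬ L.HX c a b p q ω ↔ L.VX (!c) a b p q ω := by
  exact ⟨fun h => (hex_or hab hpq c ω).resolve_left h, fun h h' => hex_not h' h⟩

theorem not_vx {a b p q : ℤ} (hab : a ≤ b) (hpq : p ≤ q) (c : Bool) (ω : Cfg) :
    ¬ L.VX c a b p q ω ↔ L.HX (!c) a b p q ω := by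
  constructor
  · intro h
    have h1 := hex_or (L := L) hab hpq (!c) ω
    rw [Bool.not_not] at h1
    exact h1.resolve_right h
  · intro h h'
    refine hex_not h ?_
    rw [Bool.not_not]
    exact h'

/-- GENERAL DUALITY (used for the four arm events).  `M` exact, `In ⊆ M` connected; `x`, `x'` are sites of
colour `c` of `M \ In` with a neighbour in `In`, joined in colour `c` in `M \ In` to `y`, `y'`, and `x` is not
joined to `x'` in colour `c` in `M \ In`.  Then every connected `Γ ⊆ M` with `y, y' ∈ Γ` meets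
`In ∪ cl (!c) (M \ In) In ω`.  Proof: let `C = In ∪ cl (!c) (M \ In) In ω`, connected.  If `Γ` does not meet `C` it lies
in a component `V` of `M \ C`.  The path from `x` to `y` has colour `c`, lies in `M \ In`, so it does not
meet `C`; it belongs to `V`, `x ∈ bd V C`; the same for `x'`.  `bd V C` is connected (`con_bd`) and all its
sites have colour `c` and lie in `M \ In`.  So `x` and `x'` are joined, contradiction. -/
theorem dual_sep {M In Γ : Set Pt} (hM : ∀ C, In ⊆ C → L.Exact M C) (hIn : L.Con In)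
    (hne : In.Nonempty) (hInM : In ⊆ M) {c : Bool} {ω : Cfg} {x x' y y' : Pt} (hx : x ∈ L.nb In)
    (hx' : x' ∈ L.nb In) (hxy : L.Cn ((M \ In) ∩ L.col c ω) x y)
    (hxy' : L.Cn ((M \ In) ∩ L.col c ω) x' y') (hn : ¬ L.Cn ((M \ In) ∩ L.col c ω) x x')
    (hΓ : L.Con Γ) (hΓM : Γ ⊆ M) (hy : y ∈ Γ) (hy' : y' ∈ Γ) :
    (Γ ∩ (In ∪ L.cl (!c) (M \ In) In ω)).Nonempty := by
  by_contra hcon
  set C : Set Pt := In ∪ L.cl (!c) (M \ In) In ω with hC
  have hΓC : Γ ⊆ M \ C := fun v hv => ⟨hΓM hv, fun hvC => hcon ⟨v, hv, hvC⟩⟩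
  have hCc : L.Con C := TD1_con hIn
  have hCM : C ⊆ M := by
    rintro v (hv | hv)
    · exact hInM hv
    · exact (TD1_cl_sub hv).1.1
  have hcol : (M \ In) ∩ L.col c ω ⊆ M \ C := by
    rintro v ⟨⟨hvM, hvI⟩, hvc⟩
    refine ⟨hvM, ?_⟩
    rintro (h | h)
    · exact hvI h
    · have h1 : L.st ω v = c := hvc
      have h2 : L.st ω v = !c := (TD1_cl_sub h).2
      rw [h1] at h2
      revert h2
      cases c <;> decide
  set V : Set Pt := {v | L.Cn (M \ C) y v} with hV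
  have hVc : L.Comp (M \ C) V := comp_cluster (hΓC hy)
  have hΓV : Γ ⊆ V := hVc.absorb hΓ hΓC ⟨y, hy, Cn.refl (hΓC hy)⟩
  have hxV : x ∈ V := (hxy.mono hcol).symm
  have hxV' : x' ∈ V := Cn.trans (hΓV hy') (hxy'.mono hcol).symm
  have hB : L.Con (L.bd V C) := con_bd (hM C Set.subset_union_left) hCc hCM hVc
  have hBsub : L.bd V C ⊆ (M \ In) ∩ L.col c ω := by
    rintro v ⟨hv, u, hu, huv⟩
    have h1 := hVc.sub hv
    have h2 : v ∈ M \ In := ⟨h1.1, fun h => h1.2 (Or.inl h)⟩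
    refine ⟨h2, ?_⟩
    by_contra hc
    exact h1.2 (Or.inr (TD1_grow hu huv h2 (TD1_bool hc)))
  obtain ⟨w, hw, hwx⟩ := hx
  obtain ⟨w', hw', hwx'⟩ := hx'
  exact hn ((hB x ⟨hxV, w, Or.inl hw, hwx⟩ x' ⟨hxV', w', Or.inl hw', hwx'⟩).mono hBsub)

end Lat

end SC

end

/-! ### from `Lib_MP_e0a489.TTE1` -/

section

/-!
# MP_e0a489, module TT, part E 1: the core makes the origin pivotal (deterministic)
-/

set_option autoImplicit false

namespace SC

namespace TTE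

open Classical

variable {L : Lat}

/-- the configuration is `ξ` on `bx m` without the origin -/
def Fx (m : ℤ) (ξ : Cfg) (ω : Cfg) : Prop := ∀ v ∈ bx m, v ≠ 0 → ω v = ξ v

/-- the property of `ξ` in `CoreOK` -/
def CoreAt (L : Lat) (m : ℤ) (ξ : Cfg) : Prop := ∀ ω : Cfg, Fx m ξ ω →
  ∀ (c : Bool) (s y : ℤ), (s = dc c ∨ s = dc c + 2) → 2 * |y| ≤ m →
    rt s (m + 1, y) ∈ L.col c ω →
      ∃ z, L.Adj 0 z ∧ L.Cn ((bx (m + 1) \ {0}) ∩ L.col c ω) (rt s (m + 1, y)) z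

/-- definition -/
theorem coreOK_iff {m : ℤ} : CoreOK L m ↔ L.typ 0 = none ∧ ∃ ξ : Cfg, CoreAt L m ξ := by
  exact Iff.rfl

/-- The sites of the inner zones have norm `> r / 2` (`nrm_rt`). -/
theorem Kc_nrm {c : Bool} {r : ℤ} (hr : 0 ≤ r) {v : Pt} (hv : v ∈ Kc c r) :
    r / 2 < nrm v ∧ nrm v ≤ r := by
  have key : ∀ s : ℤ, v ∈ K s r → r / 2 < nrm v ∧ nrm v ≤ r := by
    rintro s ⟨w, ⟨⟨h1, h2⟩, h3, h4⟩, rfl⟩
    rw [nrm_rt]
    show r / 2 < max |w.1| |w.2| ∧ max |w.1| |w.2| ≤ r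
    have h5 : w.1 ≤ max |w.1| |w.2| := (le_abs_self _).trans (le_max_left _ _)
    refine ⟨by omega, ?_⟩
    rw [max_le_iff, abs_le, abs_le]
    omega
  rcases hv with hv | hv
  · exact key _ hv
  · exact key _ hv

private theorem tte1_upd {c : Bool} {ω : Cfg} {v : Pt} (hv : v ∈ L.col c ω) (h0 : v ≠ 0) :
    v ∈ L.col c (Function.update ω 0 c) := by
  have h1 : L.st ω v = c := hv
  show L.st (Function.update ω 0 c) v = c
  unfold Lat.st at h1 ⊢
  rw [Function.update_of_ne h0]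
  exact h1

private theorem tte1_nrm0 : nrm (0 : Pt) = 0 := by
  show max |(0 : ℤ)| |(0 : ℤ)| = 0
  simp

private theorem tte1_rect {r a b p q m : ℤ} (hm : m ≤ r) (ha : a ≤ -r) (hb : r ≤ b)
    (hp : p ≤ -r) (hq : r ≤ q) {v : Pt} (hv : nrm v ≤ m) : v ∈ rect a b p q := by
  have h2 : max |v.1| |v.2| ≤ m := hv
  rw [max_le_iff, abs_le, abs_le] at h2
  exact ⟨⟨by omega, by omega⟩, by omega, by omega⟩

/-- ONE ARM.  `u = rt s (r / 2 + 1, y)` with `|y| ≤ r / 8`, so `2 |y| ≤ r / 2`; `u` has colour `c` (`h.left`), so `CoreAt` gives a neighbour `z` of the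
origin and a connection from `u` to `z` in `(bx (r / 2 + 1) \ {0}) ∩ col c ω`.  The sites of `bx (r / 2 + 1) \ {0}` and of `rect \ bx r ∪ Kc c r` are in the
rectangle and different from the origin (`Kc_nrm`), so their colour is the same for `Function.update ω 0 c`; the origin has colour `c` for
`Function.update ω 0 c` (`L.typ 0 = none`).  Path: `0`, `z`, `u`, `v`. -/
theorem to_origin {c : Bool} {r a b p q s : ℤ} {ξ ω : Cfg} (hr : 16 ≤ r) (ha : a ≤ -r)
    (hb : r ≤ b) (hp : p ≤ -r) (hq : r ≤ q) (h0 : L.typ 0 = none) (hc : CoreAt L (r / 2) ξ)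
    (hω : Fx (r / 2) ξ ω) (hs : s = dc c ∨ s = dc c + 2) {u v : Pt} (hu : u ∈ Ks s r)
    (h : L.Cn ((rect a b p q \ bx r ∪ Kc c r) ∩ L.col c ω) u v) :
    L.Cn (rect a b p q ∩ L.col c (Function.update ω 0 c)) 0 v := by
  obtain ⟨w, ⟨⟨q1, q2⟩, q3, q4⟩, rfl⟩ := hu
  have hw : w = (r / 2 + 1, w.2) := Prod.ext (by show w.1 = r / 2 + 1; omega) rfl
  have hcol : rt s (r / 2 + 1, w.2) ∈ L.col c ω := by
    rw [← hw]
    exact h.left.2
  have hy : 2 * |w.2| ≤ r / 2 := by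
    have h1 : |w.2| ≤ r / 8 := abs_le.2 ⟨q3, q4⟩
    omega
  obtain ⟨z, hz, hc2⟩ := hc ω hω c s w.2 hs hy hcol
  rw [← hw] at hc2
  have hsub1 : (bx (r / 2 + 1) \ {0}) ∩ L.col c ω ⊆
      rect a b p q ∩ L.col c (Function.update ω 0 c) := by
    rintro v ⟨⟨h1, h2⟩, h3⟩
    exact ⟨tte1_rect (m := r / 2 + 1) (by omega) ha hb hp hq h1, tte1_upd h3 h2⟩
  have hsub2 : (rect a b p q \ bx r ∪ Kc c r) ∩ L.col c ω ⊆
      rect a b p q ∩ L.col c (Function.update ω 0 c) := by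
    rintro v ⟨h1 | h1, h3⟩
    · refine ⟨h1.1, tte1_upd h3 ?_⟩
      rintro rfl
      refine h1.2 ?_
      show nrm (0 : Pt) ≤ r
      rw [tte1_nrm0]
      omega
    · have h4 := Kc_nrm (by omega) h1
      refine ⟨tte1_rect (m := r) le_rfl ha hb hp hq h4.2, tte1_upd h3 ?_⟩
      rintro rfl
      rw [tte1_nrm0] at h4
      omega
  have h00 : (0 : Pt) ∈ rect a b p q ∩ L.col c (Function.update ω 0 c) := by
    refine ⟨tte1_rect (m := r) le_rfl ha hb hp hq (by rw [tte1_nrm0]; omega), ?_⟩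
    show L.st (Function.update ω 0 c) 0 = c
    unfold Lat.st
    rw [h0, Function.update_self]
    rfl
  have hzu := (hc2.mono hsub1).symm
  exact ((Lat.Cn.of_adj h00 hzu.left hz).trans hzu).trans (h.mono hsub2)

private theorem tte1_both {c : Bool} {r a b p q : ℤ} {ξ ω : Cfg} (hr : 16 ≤ r) (ha : a ≤ -r)
    (hb : r ≤ b) (hp : p ≤ -r) (hq : r ≤ q) (h0 : L.typ 0 = none) (hc : CoreAt L (r / 2) ξ)
    (hω : Fx (r / 2) ξ ω) (h : L.SQ c r a b p q ω) :
    ∃ v ∈ sdp c b q, ∃ v' ∈ sdm c a p,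
      L.Cn (rect a b p q ∩ L.col c (Function.update ω 0 c)) v' v := by
  rcases h with ⟨⟨u, hu, v, hv, h1⟩, ⟨u', hu', v', hv', h2⟩⟩ |
    ⟨⟨u', hu', v', hv', h2⟩, ⟨u, hu, v, hv, h1⟩⟩
  · exact ⟨v, hv, v', hv',
      (to_origin hr ha hb hp hq h0 hc hω (Or.inr rfl) hu' h2).symm.trans
        (to_origin hr ha hb hp hq h0 hc hω (Or.inl rfl) hu h1)⟩
  · exact ⟨v, hv, v', hv',
      (to_origin hr ha hb hp hq h0 hc hω (Or.inl rfl) hu' h2).symm.trans
        (to_origin hr ha hb hp hq h0 hc hω (Or.inr rfl) hu h1)⟩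

/-- BOTH ARMS: `to_origin` for the two arms of `SQ`; the two ends are on opposite sides. -/
theorem core_dx {c : Bool} {r a b p q : ℤ} {ξ ω : Cfg} (hr : 16 ≤ r) (ha : a ≤ -r)
    (hb : r ≤ b) (hp : p ≤ -r) (hq : r ≤ q) (h0 : L.typ 0 = none) (hc : CoreAt L (r / 2) ξ)
    (hω : Fx (r / 2) ξ ω) (h : L.SQ c r a b p q ω) :
    L.DX c a b p q (Function.update ω 0 c) := by
  obtain ⟨v, hv, v', hv', h1⟩ := tte1_both hr ha hb hp hq h0 hc hω h
  cases c with
  | true =>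
    have e1 : v.1 = b := hv
    have e2 : v'.1 = a := hv'
    exact ⟨v', v, e2, e1, h1⟩
  | false =>
    have e1 : v.2 = q := hv
    have e2 : v'.2 = p := hv'
    exact ⟨v', v, e2, e1, h1⟩

/-- `core_dx` for both colours; the vertical closed crossing for the configuration with closed origin excludes the horizontal open crossing
(`Lat.hex_not`). -/
theorem core_piv {r a b p q : ℤ} {ξ ω : Cfg} (hr : 16 ≤ r) (ha : a ≤ -r)
    (hb : r ≤ b) (hp : p ≤ -r) (hq : r ≤ q) (h0 : L.typ 0 = none) (hc : CoreAt L (r / 2) ξ)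
    (hω : Fx (r / 2) ξ ω) (ht : L.SQ true r a b p q ω) (hf : L.SQ false r a b p q ω) :
    Piv 0 (L.HX true a b p q) ω := by
  intro hiff
  have h1 : L.HX true a b p q (Function.update ω 0 true) :=
    core_dx hr ha hb hp hq h0 hc hω ht
  have h2 : L.VX (!true) a b p q (Function.update ω 0 false) :=
    core_dx hr ha hb hp hq h0 hc hω hf
  exact Lat.hex_not (hiff.1 h1) h2

end TTE

end SC

end

/-! ### from `Lib_MP_e0a489.TP1` -/

section

/-!
# MP_e0a489, module TP 1: dictionary (finite sets of open elements and configurations)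
-/

set_option autoImplicit false

namespace SC

open Classical

/-- the open elements of `I`; the element `v` of `I` is represented by the site `e v` -/
noncomputable def opn (I : Finset Pt) (e : Equiv.Perm Pt) (ω : Cfg) : Finset Pt :=
  I.filter fun v => ω (e v) = true

theorem mem_opn {I : Finset Pt} {e : Equiv.Perm Pt} {ω : Cfg} {v : Pt} :
    v ∈ opn I e ω ↔ v ∈ I ∧ ω (e v) = true := by
  unfold opn
  rw [Finset.mem_filter]

theorem opn_sub (I : Finset Pt) (e : Equiv.Perm Pt) (ω : Cfg) : opn I e ω ⊆ I := by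
  intro v hv
  exact (mem_opn.1 hv).1

/-- `opn I e ω` depends only on the sites `e v`, `v ∈ I` -/
theorem opn_dep {α : Type} (I : Finset Pt) (e : Equiv.Perm Pt) (g : Finset Pt → α) :
    Dep (fun ω => g (opn I e ω)) ((I.map e.toEmbedding : Finset Pt) : Set Pt) := by
  intro ω ω' h
  have h1 : opn I e ω = opn I e ω' := by
    unfold opn
    refine Finset.filter_congr fun v hv => ?_
    rw [h (e v) (by
      rw [Finset.mem_coe, Finset.mem_map]
      exact ⟨v, hv, rfl⟩)]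
  show g (opn I e ω) = g (opn I e ω')
  rw [h1]

private theorem TP1_map_one (S : Finset Pt) : S.map (1 : Equiv.Perm Pt).toEmbedding = S := by
  ext v
  rw [Finset.mem_map]
  constructor
  · rintro ⟨w, hw, rfl⟩
    exact hw
  · intro hv
    exact ⟨v, hv, rfl⟩

private theorem TP1_dep1 {α : Type} (I : Finset Pt) (g : Finset Pt → α) :
    Dep (fun ω => g (opn I 1 ω)) (I : Set Pt) := by
  have h := opn_dep I 1 g
  rw [TP1_map_one] at h
  exact h

/-- average over the subsets of `I` = expectation.  Proof.  First `e = 1`: `ex_eq` (with `F = I`, `ω = fun _ => false`) and the definition of `av`;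
`opn I 1 (ovr I S ω) = S` for `S ⊆ I` (`ovr_mem`).  General `e`: `ex_equiv` for `fun ω => g (opn I 1 ω)`; `opn I 1 (fun v => ω (e v)) = opn I e ω`
holds by `rfl`. -/
theorem ex_opn (I : Finset Pt) (e : Equiv.Perm Pt) (g : Finset Pt → ℝ) :
    ex (fun ω => g (opn I e ω)) = (∑ A ∈ I.powerset, g A) / 2 ^ I.card := by
  have h1 : ex (fun ω => g (opn I 1 ω)) = (∑ A ∈ I.powerset, g A) / 2 ^ I.card := by
    rw [ex_eq (TP1_dep1 I g) (fun _ => false)]
    unfold av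
    congr 1
    refine Finset.sum_congr rfl fun S hS => ?_
    have hSI := Finset.mem_powerset.1 hS
    have h2 : opn I 1 (ovr I S fun _ => false) = S := by
      ext v
      rw [mem_opn]
      constructor
      · rintro ⟨hv, h3⟩
        have h4 : ovr I S (fun _ => false) v = true := h3
        rw [ovr_mem hv] at h4
        exact of_decide_eq_true h4
      · intro hv
        refine ⟨hSI hv, ?_⟩
        show ovr I S (fun _ => false) v = true
        rw [ovr_mem (hSI hv)]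
        exact decide_eq_true hv
    show g (opn I 1 (ovr I S fun _ => false)) = g S
    rw [h2]
  have h2 := ex_equiv (g := fun ω => g (opn I 1 ω)) ⟨I, TP1_dep1 I g⟩ e
  rw [h1] at h2
  exact h2

/-- `ex_opn` for the indicator function of `P` (`Finset.sum_boole`) -/
theorem prob_eq (I : Finset Pt) (e : Equiv.Perm Pt) (P : Finset Pt → Prop) :
    SCTop.prob I P = pr (fun ω => P (opn I e ω)) := by
  have h := ex_opn I e (fun A => if P A then (1 : ℝ) else 0)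
  rw [Finset.sum_boole] at h
  unfold SCTop.prob pr
  exact h.symm

/-- Fourier coefficients.  `chi (S.map e) ω = ∏ v ∈ S, (if ω (e v) then 1 else -1)` (`Finset.prod_map`), and for `S ⊆ I` this is
`∏ v ∈ S, (if v ∈ opn I e ω then 1 else -1)`; then `ex_opn` for `fun A => g A * ∏ v ∈ S, (if v ∈ A then 1 else -1)`. -/
theorem fhat_eq (I : Finset Pt) (e : Equiv.Perm Pt) (g : Finset Pt → ℝ) {S : Finset Pt}
    (hS : S ⊆ I) :
    SCTop.fhat I g S = fc (fun ω => g (opn I e ω)) (S.map e.toEmbedding) := by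
  have h := ex_opn I e (fun A => g A * ∏ v ∈ S, (if v ∈ A then (1 : ℝ) else -1))
  unfold SCTop.fhat fc
  rw [← h]
  congr 1
  funext ω
  show g (opn I e ω) * _ = g (opn I e ω) * _
  congr 1
  unfold chi
  rw [Finset.prod_map]
  refine Finset.prod_congr rfl fun v hv => ?_
  show (if v ∈ opn I e ω then (1 : ℝ) else -1) = if ω (e v) then (1 : ℝ) else -1
  by_cases h2 : ω (e v) = true
  · rw [if_pos (mem_opn.2 ⟨hS hv, h2⟩), if_pos h2]
  · rw [if_neg (fun h3 => h2 (mem_opn.1 h3).2), if_neg h2]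

theorem specProb_nonneg (I : Finset Pt) (g : Finset Pt → ℝ) (P : Finset Pt → Prop) :
    0 ≤ SCTop.specProb I g P := by
  unfold SCTop.specProb
  exact div_nonneg (Finset.sum_nonneg fun _ _ => sq_nonneg _)
    (div_nonneg (Finset.sum_nonneg fun _ _ => sq_nonneg _) (by positivity))

/-- `Finset.sum_eq_zero` for the numerator -/
theorem specProb_zero {I : Finset Pt} {g : Finset Pt → ℝ} {P : Finset Pt → Prop}
    (h : ∀ S, S ⊆ I → ¬ P S) : SCTop.specProb I g P = 0 := by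
  unfold SCTop.specProb
  rw [Finset.sum_eq_zero, zero_div]
  intro S hS
  rw [Finset.mem_filter, Finset.mem_powerset] at hS
  exact absurd hS.2 (h S hS.1)

/-- Parseval: by `parseval` (for `G ω = g (opn I 1 ω)`, `F = I`, `Dep G I` by `opn_dep`), `fhat_eq` with `e = 1` and `ex_opn`, the sum of
`fhat I g S ^ 2` over all `S ⊆ I` is the denominator.  (If the denominator is `0` then the quotient is `0`.) -/
theorem specProb_le_one (I : Finset Pt) (g : Finset Pt → ℝ) (P : Finset Pt → Prop) :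
    SCTop.specProb I g P ≤ 1 := by
  have h1 := parseval (TP1_dep1 I g) (TP1_dep1 I g)
  have h2 := ex_opn I 1 (fun A => g A ^ 2)
  have h3 : (∑ A ∈ I.powerset, g A ^ 2) / 2 ^ I.card = ∑ S ∈ I.powerset, SCTop.fhat I g S ^ 2 := by
    rw [← h2]
    have h4 : (fun ω : Cfg => g (opn I 1 ω) ^ 2) = fun ω => g (opn I 1 ω) * g (opn I 1 ω) := by
      funext ω
      ring
    rw [h4, h1]
    refine Finset.sum_congr rfl fun S hS => ?_
    have h5 := fhat_eq I 1 g (Finset.mem_powerset.1 hS)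
    rw [TP1_map_one] at h5
    rw [h5]
    ring
  unfold SCTop.specProb
  rw [h3]
  refine div_le_one_of_le₀ ?_ (Finset.sum_nonneg fun _ _ => sq_nonneg _)
  exact Finset.sum_le_sum_of_subset_of_nonneg (Finset.filter_subset _ _)
    (fun _ _ _ => sq_nonneg _)

/-- Comparison with the Fourier coefficients of the event `Ev`.  The denominator is `pr Ev` (`ex_opn`, `ind ^ 2 = ind`, `hEv`);
numerator: `fhat I _ S = fc (ind Ev) (S.map e)`, the map `S ↦ S.map e` is injective (`Finset.map_injective`) and maps `I.powerset.filter P` into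
`F.powerset.filter Q`: `Finset.sum_map`/`Finset.sum_image` and `Finset.sum_le_sum_of_subset_of_nonneg`. -/
theorem specProb_le {I F : Finset Pt} {e : Equiv.Perm Pt} {crs P Q : Finset Pt → Prop}
    {Ev : Cfg → Prop} {p : ℝ} (hF : ∀ v ∈ I, e v ∈ F) (hEv : ∀ ω, Ev ω ↔ crs (opn I e ω))
    (hPQ : ∀ S, S ⊆ I → P S → Q (S.map e.toEmbedding)) (hp : 0 < p) (hpr : p ≤ pr Ev) :
    SCTop.specProb I (fun A => if crs A then 1 else 0) P ≤
      (∑ S ∈ F.powerset.filter Q, fc (ind Ev) S ^ 2) / p := by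
  have hind : (fun ω : Cfg => if crs (opn I e ω) then (1 : ℝ) else 0) = ind Ev := by
    funext ω
    unfold ind
    by_cases h : Ev ω
    · rw [if_pos ((hEv ω).1 h), if_pos h]
    · rw [if_neg (fun h1 => h ((hEv ω).2 h1)), if_neg h]
  have hden : (∑ A ∈ I.powerset, (if crs A then (1 : ℝ) else 0) ^ 2) / 2 ^ I.card = pr Ev := by
    rw [← ex_opn I e (fun A => (if crs A then (1 : ℝ) else 0) ^ 2)]
    unfold pr
    rw [← hind]
    congr 1
    funext ω
    show (if crs (opn I e ω) then (1 : ℝ) else 0) ^ 2 = if crs (opn I e ω) then (1 : ℝ) else 0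
    by_cases h : crs (opn I e ω)
    · rw [if_pos h]; norm_num
    · rw [if_neg h]; norm_num
  have hfh : ∀ S ∈ I.powerset.filter P,
      SCTop.fhat I (fun A => if crs A then (1 : ℝ) else 0) S ^ 2 =
        fc (ind Ev) (S.map e.toEmbedding) ^ 2 := by
    intro S hS
    rw [Finset.mem_filter, Finset.mem_powerset] at hS
    rw [fhat_eq I e _ hS.1, hind]
  have hnum : ∑ S ∈ I.powerset.filter P, SCTop.fhat I (fun A => if crs A then (1 : ℝ) else 0) S ^ 2 ≤
      ∑ S ∈ F.powerset.filter Q, fc (ind Ev) S ^ 2 := by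
    rw [Finset.sum_congr rfl hfh]
    have hinj : Function.Injective fun S : Finset Pt => S.map e.toEmbedding :=
      Finset.map_injective e.toEmbedding
    rw [← Finset.sum_image (f := fun T => fc (ind Ev) T ^ 2) (g := fun S : Finset Pt => S.map e.toEmbedding)
      (s := I.powerset.filter P) (fun a _ b _ hab => hinj hab)]
    refine Finset.sum_le_sum_of_subset_of_nonneg ?_ (fun _ _ _ => sq_nonneg _)
    intro T hT
    rw [Finset.mem_image] at hT
    obtain ⟨S, hS, rfl⟩ := hT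
    rw [Finset.mem_filter, Finset.mem_powerset] at hS
    rw [Finset.mem_filter, Finset.mem_powerset]
    refine ⟨?_, hPQ S hS.1 hS.2⟩
    intro w hw
    rw [Finset.mem_map] at hw
    obtain ⟨v, hv, rfl⟩ := hw
    exact hF v (hS.1 hv)
  unfold SCTop.specProb
  rw [hden]
  exact div_le_div₀ (Finset.sum_nonneg fun _ _ => sq_nonneg _) hnum hp hpr

end SC

end

/-! ### from `Lib_MP_e0a489.TP8` -/

section

/-!
# MP_e0a489, module TP 8: separated event and core configuration give four arms from the origin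
-/

set_option autoImplicit false

namespace SC

open Classical

namespace Lat

variable {L : Lat} {ω : Cfg}

/-- In both pairings each outer zone of the colour `c` is reached from one of the two inner zones. -/
theorem Pairs.tgt {c : Bool} {r R : ℤ} (h : L.Pairs c r R ω) {t : ℤ}
    (ht : t = dc c ∨ t = dc c + 2) :
    ∃ s, (s = dc c ∨ s = dc c + 2) ∧
      L.Arm c (ann r R ∪ Jc c R ∪ Kc c r) (Ks s r) (Je t R) ω := by
  rcases h with ⟨h1, h2⟩ | ⟨h1, h2⟩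
  · rcases ht with rfl | rfl
    · exact ⟨_, Or.inl rfl, h1⟩
    · exact ⟨_, Or.inr rfl, h2⟩
  · rcases ht with rfl | rfl
    · exact ⟨_, Or.inr rfl, h2⟩
    · exact ⟨_, Or.inl rfl, h1⟩

private theorem tp8_pos {v : Pt} (hv : v ≠ 0) : 0 < nrm v := by
  unfold nrm
  by_contra hcon
  have h1 : |v.1| ≤ 0 := le_trans (le_max_left _ _) (not_lt.1 hcon)
  have h2 : |v.2| ≤ 0 := le_trans (le_max_right _ _) (not_lt.1 hcon)
  have h3 : v.1 = 0 := abs_nonpos_iff.1 h1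
  have h4 : v.2 = 0 := abs_nonpos_iff.1 h2
  exact hv (Prod.ext h3 h4)

/-- One arm from a neighbour `z` of the origin to `Je t R`, in `ann 0 (2R)`.  `Pairs.tgt` with `r = 2 m` gives `x ∈ Ks s (2m)`, that is `x = rt s (m + 1, y)` with `|y| ≤ (2m)/8` (so `2 |y| ≤ m`), and a path of
colour `c` from `x` to `e ∈ Je t R`; `hξ` gives the path from `x` to `z`.  All sites are in `ann 0 (2R)` (`Jc_nrm`, `Kc_nrm`; `nrm v = 0` only for `v = 0`). -/
theorem core_arm {m R : ℤ} (hm : 8 ≤ m) (hR : 2 * m ≤ R) {c : Bool} (h : L.Pairs c (2 * m) R ω)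
    (hξ : ∀ s y : ℤ, (s = dc c ∨ s = dc c + 2) → 2 * |y| ≤ m → rt s (m + 1, y) ∈ L.col c ω →
      ∃ z, L.Adj 0 z ∧ L.Cn ((bx (m + 1) \ {0}) ∩ L.col c ω) (rt s (m + 1, y)) z)
    {t : ℤ} (ht : t = dc c ∨ t = dc c + 2) :
    ∃ z e, L.Adj 0 z ∧ e ∈ Je t R ∧ L.Cn (ann 0 (2 * R) ∩ L.col c ω) z e := by
  obtain ⟨s, hs, x, hx, e, he, hxe⟩ := h.tgt ht
  have hxcol : x ∈ L.col c ω := hxe.left.2
  obtain ⟨p, ⟨⟨h1, h2⟩, h3, h4⟩, rfl⟩ := hx
  have e1 : p.1 = m + 1 := by omega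
  have hp : p = (m + 1, p.2) := Prod.ext e1 rfl
  have hy : 2 * |p.2| ≤ m := by
    have : |p.2| ≤ 2 * m / 8 := abs_le.2 ⟨h3, h4⟩
    omega
  rw [hp] at hxcol hxe
  obtain ⟨z, hz, hcz⟩ := hξ s p.2 hs hy hxcol
  refine ⟨z, e, hz, he, ?_⟩
  refine (hcz.mono ?_).symm.trans (hxe.mono ?_)
  · rintro v ⟨⟨hv1, hv2⟩, hv3⟩
    have hb : nrm v ≤ m + 1 := hv1
    exact ⟨⟨tp8_pos hv2, by omega⟩, hv3⟩
  · rintro v ⟨hv1, hv3⟩
    refine ⟨?_, hv3⟩
    rcases hv1 with (hv1 | hv1) | hv1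
    · have hb1 : 2 * m < nrm v := hv1.1
      have hb2 : nrm v ≤ R := hv1.2
      exact ⟨by omega, by omega⟩
    · have hb := Jc_nrm (by omega) hv1
      exact ⟨by omega, by omega⟩
    · have hb := Kc_nrm (by omega) hv1
      exact ⟨by omega, by omega⟩

/-- FOUR ARMS FROM THE ORIGIN.  `core_arm` gives open arms `z₀ - e₀`, `z₂ - e₂` (`e₀ ∈ Je 0 R`: `e₀.1 = 2R`; `e₂ ∈ Je 2 R`: `e₂.1 = -2R`; all are in `rng (2R)`) and closed arms `z₁ - e₁`, `z₃ - e₃` (`e₁.2 = 2R`, `e₃.2 = -2R`; `dc false + 2 = 3`).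
`z₀, z₂ ∈ nb (bx 0)`.  They are not joined by an open path in `ann 0 (2R)`: otherwise `P = {v | Cn (ann 0 (2R) ∩ col true) z₀ v}` (`con_cluster`) contains `e₀` and `e₂`, and
`P' =` closed cluster of `z₁` `∪ {0} ∪` closed cluster of `z₃` is connected and contains `e₁`, `e₃`; `cross` in `rect (-2R) (2R) (-2R) (2R)` gives a common site, which is open and not `0`: contradiction. -/
theorem S4_core {m R : ℤ} (hm : 8 ≤ m) (hR : 2 * m ≤ R) (h : L.S4 (2 * m) R ω)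
    (hξ : ∀ (c : Bool) (s y : ℤ), (s = dc c ∨ s = dc c + 2) → 2 * |y| ≤ m →
      rt s (m + 1, y) ∈ L.col c ω →
      ∃ z, L.Adj 0 z ∧ L.Cn ((bx (m + 1) \ {0}) ∩ L.col c ω) (rt s (m + 1, y)) z) :
    L.TwoA true 0 (2 * R) ω := by
  obtain ⟨z0, e0, hz0, he0, hc0⟩ := core_arm hm hR h.1 (hξ true) (t := 0) (Or.inl rfl)
  obtain ⟨z2, e2, hz2, he2, hc2⟩ := core_arm hm hR h.1 (hξ true) (t := 2) (Or.inr rfl)
  obtain ⟨z1, e1, hz1, he1, hc1⟩ := core_arm hm hR h.2 (hξ false) (t := 1) (Or.inl rfl)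
  obtain ⟨z3, e3, hz3, he3, hc3⟩ := core_arm hm hR h.2 (hξ false) (t := 3) (Or.inr rfl)
  rw [Je_eq] at he0 he1 he2 he3
  have n0 := Zn_nrm (by omega) (by omega) he0
  have n2 := Zn_nrm (by omega) (by omega) he2
  rw [mem_Zn0] at he0
  rw [mem_Zn1] at he1
  rw [mem_Zn2] at he2
  rw [mem_Zn3] at he3
  have hb0 : (0 : Pt) ∈ bx 0 := by
    show nrm 0 ≤ 0
    simp [nrm]
  refine ⟨z0, ⟨0, hb0, hz0⟩, e0, ?_, z2, ⟨0, hb0, hz2⟩, e2, ?_, hc0, hc2, ?_⟩
  · show nrm e0 = 2 * R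
    omega
  · show nrm e2 = 2 * R
    omega
  · intro hcon
    have hP : L.Con {v | L.Cn (ann 0 (2 * R) ∩ L.col true ω) z0 v} := con_cluster _ _
    have hQ1 : L.Con {v | L.Cn (ann 0 (2 * R) ∩ L.col false ω) z1 v} := con_cluster _ _
    have hQ3 : L.Con {v | L.Cn (ann 0 (2 * R) ∩ L.col false ω) z3 v} := con_cluster _ _
    have hz1m : z1 ∈ {v | L.Cn (ann 0 (2 * R) ∩ L.col false ω) z1 v} := Cn.refl hc1.left
    have hz3m : z3 ∈ {v | L.Cn (ann 0 (2 * R) ∩ L.col false ω) z3 v} := Cn.refl hc3.left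
    have hC1 : L.Con ({(0 : Pt)} ∪ {v | L.Cn (ann 0 (2 * R) ∩ L.col false ω) z1 v}) :=
      Con.union_adj (con_singleton 0) hQ1 rfl hz1m hz1
    have hC2 : L.Con (({(0 : Pt)} ∪ {v | L.Cn (ann 0 (2 * R) ∩ L.col false ω) z1 v}) ∪
        {v | L.Cn (ann 0 (2 * R) ∩ L.col false ω) z3 v}) :=
      Con.union_adj hC1 hQ3 (Or.inl rfl) hz3m hz3
    have hrect : ∀ v : Pt, nrm v ≤ 2 * R → v ∈ rect (-(2 * R)) (2 * R) (-(2 * R)) (2 * R) := by
      intro v hv
      unfold nrm at hv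
      rw [max_le_iff, abs_le, abs_le] at hv
      exact hv
    obtain ⟨w, hw1, hw2⟩ := cross hP hC2 (a := -(2 * R)) (b := 2 * R) (c := -(2 * R)) (d := 2 * R)
      (fun v hv => hrect v (Cn.right hv).1.2)
      (by
        rintro v ((hv | hv) | hv)
        · have hv0 : v = 0 := hv
          rw [hv0]
          refine hrect 0 ?_
          have : nrm (0 : Pt) = 0 := by simp [nrm]
          omega
        · exact hrect v (Cn.right hv).1.2
        · exact hrect v (Cn.right hv).1.2)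
      ⟨e2, hcon.trans hc2, by omega⟩ ⟨e0, hc0, by omega⟩
      ⟨e3, Or.inr hc3, by omega⟩ ⟨e1, Or.inl (Or.inr hc1), by omega⟩
    have hwo : w ∈ L.col true ω := (Cn.right hw1).2
    have hwa : 0 < nrm w := (Cn.right hw1).1.1
    have hwt : L.st ω w = true := hwo
    rcases hw2 with (hw2 | hw2) | hw2
    · have hw0 : w = 0 := hw2
      rw [hw0] at hwa
      have : nrm (0 : Pt) = 0 := by simp [nrm]
      omega
    · have hwf : L.st ω w = false := (Cn.right hw2).2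
      rw [hwt] at hwf
      exact Bool.noConfusion hwf
    · have hwf : L.st ω w = false := (Cn.right hw2).2
      rw [hwt] at hwf
      exact Bool.noConfusion hwf

end Lat

end SC

end

/-! ### from `Lib_MP_e0a489.TP3` -/

section

/-!
# MP_e0a489, module TP 3: two open arms are separated by two closed arms (duality in a rectangle)
-/

set_option autoImplicit false

namespace SC

open Classical

/-- the sites on the four sides of a rectangle -/
def sides (a b c d : ℤ) : Set Pt :=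
  {v | v ∈ rect a b c d ∧ (v.1 = a ∨ v.1 = b ∨ v.2 = c ∨ v.2 = d)}

namespace Lat

/-- alternating order of four sites on the boundary of a rectangle, in the form in which it is used -/
def Alt (L : Lat) (a b c d : ℤ) (y₁ y₂ y₃ y₄ : Pt) : Prop :=
  ∀ P P' : Set Pt, L.Con P → L.Con P' → P ⊆ rect a b c d → P' ⊆ rect a b c d → y₁ ∈ P →
    y₃ ∈ P → y₂ ∈ P' → y₄ ∈ P' → (P ∩ P').Nonempty

variable {L : Lat} {a b c d : ℤ} {k : Bool} {ω : Cfg}

theorem Alt.swap {y₁ y₂ y₃ y₄ : Pt} (h : L.Alt a b c d y₁ y₂ y₃ y₄) :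
    L.Alt a b c d y₃ y₂ y₁ y₄ := by
  intro P P' hP hP' hPr hPr' h3 h1 h2 h4
  exact h P P' hP hP' hPr hPr' h1 h3 h2 h4

/-- order `i₁ < i₂ < i₃ < i₄` of the indices (`interlace`) -/
theorem alt_of (hab : a < b) (hcd : c < d) {i₁ i₂ i₃ i₄ : ℤ} (h0 : 0 ≤ i₁) (h12 : i₁ < i₂)
    (h23 : i₂ < i₃) (h34 : i₃ < i₄) (h4 : i₄ < 2 * (b - a) + 2 * (d - c)) :
    L.Alt a b c d (bp a b c d i₁) (bp a b c d i₂) (bp a b c d i₃) (bp a b c d i₄) := by
  intro P P' hP hP' hPr hPr' m1 m3 m2 m4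
  exact interlace hab hcd hP hP' hPr hPr' h0 h12 h23 h34 h4 m1 m3 m2 m4

/-- order `i₄ < i₁ < i₂ < i₃` of the indices (`interlace` with `P` and `P'` exchanged) -/
theorem alt_of' (hab : a < b) (hcd : c < d) {i₁ i₂ i₃ i₄ : ℤ} (h0 : 0 ≤ i₄) (h41 : i₄ < i₁)
    (h12 : i₁ < i₂) (h23 : i₂ < i₃) (h3 : i₃ < 2 * (b - a) + 2 * (d - c)) :
    L.Alt a b c d (bp a b c d i₁) (bp a b c d i₂) (bp a b c d i₃) (bp a b c d i₄) := by
  intro P P' hP hP' hPr hPr' m1 m3 m2 m4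
  rw [Set.inter_comm]
  exact interlace hab hcd hP' hP hPr' hPr h0 h41 h12 h23 h3 m4 m2 m1 m3

/-- Case `i₁ < i₃` of `dual4`.  Let `per = 2 (b - a) + 2 (d - c)`.
(1) `Γ = {bp i : i₁ ≤ i ≤ i₃}` is connected (`con_run`, `bp_adj`), contained in `rect` and in `sides` (`bp_mem`).  `dual_sep` with `M = rect a b c d`
(`exact_rect`), `c = k` gives `z ∈ Γ`, `z ∈ In ∪ cl (!k) (M \ In) In ω`; `z ∉ In` by `hs`.  So `z = bp i₂`, there is `x₂ ∈ nb In` with a path of colour `!k` to `z`.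
`i₂ ≠ i₁` and `i₂ ≠ i₃` because `z` has colour `!k` and `bp i₁`, `bp i₃` have colour `k` (ends of the arms: `Cn.right`).
(2) `Γ' = {bp i : i₃ ≤ i < per} ∪ {bp i : 0 ≤ i ≤ i₁}` is connected (two runs joined by `bp_adj_last`, `Con.union_adj`).  In the same way one gets `x₄` and `z' = bp i₄` with `i₃ < i₄ < per` or
`0 ≤ i₄ < i₁`.  Then `alt_of` or `alt_of'`. -/
theorem dual4_aux (hab : a < b) (hcd : c < d) {In : Set Pt} (hIn : L.Con In) (hne : In.Nonempty)
    (hsub : In ⊆ rect a b c d) (hs : ∀ v ∈ In, v ∉ sides a b c d) {x₁ x₃ : Pt} {i₁ i₃ : ℤ}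
    (hx₁ : x₁ ∈ L.nb In) (hx₃ : x₃ ∈ L.nb In) (h0 : 0 ≤ i₁) (h13 : i₁ < i₃)
    (h3 : i₃ < 2 * (b - a) + 2 * (d - c))
    (h₁ : L.Cn ((rect a b c d \ In) ∩ L.col k ω) x₁ (bp a b c d i₁))
    (h₃ : L.Cn ((rect a b c d \ In) ∩ L.col k ω) x₃ (bp a b c d i₃))
    (hn : ¬ L.Cn ((rect a b c d \ In) ∩ L.col k ω) x₁ x₃) :
    ∃ x₂ y₂ x₄ y₄, x₂ ∈ L.nb In ∧ x₄ ∈ L.nb In ∧ y₂ ∈ sides a b c d ∧ y₄ ∈ sides a b c d ∧
      L.Cn ((rect a b c d \ In) ∩ L.col (!k) ω) x₂ y₂ ∧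
      L.Cn ((rect a b c d \ In) ∩ L.col (!k) ω) x₄ y₄ ∧
      L.Alt a b c d (bp a b c d i₁) y₂ (bp a b c d i₃) y₄ := by
  have key : ∀ Γ : Set Pt, L.Con Γ → Γ ⊆ sides a b c d → bp a b c d i₁ ∈ Γ →
      bp a b c d i₃ ∈ Γ → ∃ z ∈ Γ, ∃ u ∈ L.nb In,
        L.Cn ((rect a b c d \ In) ∩ L.col (!k) ω) u z := by
    intro Γ hΓ hΓs m1 m3
    obtain ⟨z, hzΓ, hz⟩ := dual_sep (fun C _ => exact_rect a b c d C) hIn hne hsub hx₁ hx₃ h₁ h₃ hn
      hΓ (fun v hv => (hΓs hv).1) m1 m3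
    rcases hz with hz | ⟨u, hu, huz⟩
    · exact absurd (hΓs hzΓ) (hs z hz)
    · exact ⟨z, hzΓ, u, hu, huz⟩
  have hcol : ∀ z u : Pt, L.Cn ((rect a b c d \ In) ∩ L.col (!k) ω) u z →
      z ≠ bp a b c d i₁ ∧ z ≠ bp a b c d i₃ := by
    intro z u hz
    have e : L.st ω z = !k := hz.right.2
    have e1 : L.st ω (bp a b c d i₁) = k := h₁.right.2
    have e3 : L.st ω (bp a b c d i₃) = k := h₃.right.2
    constructor
    · intro h
      rw [h, e1] at e
      cases k <;> simp at e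
    · intro h
      rw [h, e3] at e
      cases k <;> simp at e
  have hside : ∀ i, 0 ≤ i → i < 2 * (b - a) + 2 * (d - c) → bp a b c d i ∈ sides a b c d :=
    fun i h h' => bp_mem hab hcd h h'
  obtain ⟨z, hz, x₂, hx₂, hxz⟩ := key {v | ∃ i, i₁ ≤ i ∧ i ≤ i₃ ∧ bp a b c d i = v}
    (con_run fun i h h' => bp_adj hab hcd (by omega) (by omega))
    (by
      rintro v ⟨i, h, h', rfl⟩
      exact hside i (by omega) (by omega))
    ⟨i₁, le_refl _, h13.le, rfl⟩ ⟨i₃, h13.le, le_refl _, rfl⟩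
  obtain ⟨z', hz', x₄, hx₄, hxz'⟩ := key ({v | ∃ i, i₃ ≤ i ∧
      i ≤ 2 * (b - a) + 2 * (d - c) - 1 ∧ bp a b c d i = v} ∪
      {v | ∃ i, 0 ≤ i ∧ i ≤ i₁ ∧ bp a b c d i = v})
    ((con_run fun i h h' => bp_adj hab hcd (by omega) (by omega)).union_adj
      (con_run fun i h h' => bp_adj hab hcd (by omega) (by omega))
      ⟨2 * (b - a) + 2 * (d - c) - 1, by omega, le_refl _, rfl⟩ ⟨0, le_refl _, h0, rfl⟩
      (bp_adj_last hab hcd))
    (by
      rintro v (⟨i, h, h', rfl⟩ | ⟨i, h, h', rfl⟩)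
      · exact hside i (by omega) (by omega)
      · exact hside i (by omega) (by omega))
    (Or.inr ⟨i₁, h0, le_refl _, rfl⟩) (Or.inl ⟨i₃, le_refl _, by omega, rfl⟩)
  obtain ⟨i₂, h12, h23, rfl⟩ := hz
  have hc2 := hcol _ _ hxz
  have h12' : i₁ < i₂ := lt_of_le_of_ne h12 (fun h => hc2.1 (by rw [h]))
  have h23' : i₂ < i₃ := lt_of_le_of_ne h23 (fun h => hc2.2 (by rw [h]))
  have hc4 := hcol _ _ hxz'
  rcases hz' with ⟨i₄, h34, h4, rfl⟩ | ⟨i₄, h4, h41, rfl⟩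
  · have h34' : i₃ < i₄ := lt_of_le_of_ne h34 (fun h => hc4.2 (by rw [h]))
    exact ⟨x₂, _, x₄, _, hx₂, hx₄, hside i₂ (by omega) (by omega), hside i₄ (by omega) (by omega),
      hxz, hxz', alt_of hab hcd h0 h12' h23' h34' (by omega)⟩
  · have h41' : i₄ < i₁ := lt_of_le_of_ne h41 (fun h => hc4.1 (by rw [h]))
    exact ⟨x₂, _, x₄, _, hx₂, hx₄, hside i₂ (by omega) (by omega), hside i₄ (by omega) (by omega),
      hxz, hxz', alt_of' hab hcd h4 h41' h12' h23' h3⟩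

/-- DUALITY WITH ORDER.  `y₁ = bp i₁`, `y₃ = bp i₃` by `bp_surj`; `i₁ ≠ i₃` (otherwise `y₁ = y₃` and the arms are joined); by
`dual4_aux`, exchanging `1` and `3` if `i₃ < i₁` (`Cn.symm`, `Alt.swap`). -/
theorem dual4 (hab : a < b) (hcd : c < d) {In : Set Pt} (hIn : L.Con In) (hne : In.Nonempty)
    (hsub : In ⊆ rect a b c d) (hs : ∀ v ∈ In, v ∉ sides a b c d) {x₁ x₃ y₁ y₃ : Pt}
    (hx₁ : x₁ ∈ L.nb In) (hx₃ : x₃ ∈ L.nb In) (hy₁ : y₁ ∈ sides a b c d)
    (hy₃ : y₃ ∈ sides a b c d) (h₁ : L.Cn ((rect a b c d \ In) ∩ L.col k ω) x₁ y₁)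
    (h₃ : L.Cn ((rect a b c d \ In) ∩ L.col k ω) x₃ y₃)
    (hn : ¬ L.Cn ((rect a b c d \ In) ∩ L.col k ω) x₁ x₃) :
    ∃ x₂ y₂ x₄ y₄, x₂ ∈ L.nb In ∧ x₄ ∈ L.nb In ∧ y₂ ∈ sides a b c d ∧ y₄ ∈ sides a b c d ∧
      L.Cn ((rect a b c d \ In) ∩ L.col (!k) ω) x₂ y₂ ∧
      L.Cn ((rect a b c d \ In) ∩ L.col (!k) ω) x₄ y₄ ∧ L.Alt a b c d y₁ y₂ y₃ y₄ := by
  obtain ⟨i₁, h1, h1', rfl⟩ := bp_surj hab hcd hy₁.1 hy₁.2
  obtain ⟨i₃, h3, h3', rfl⟩ := bp_surj hab hcd hy₃.1 hy₃.2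
  rcases lt_trichotomy i₁ i₃ with h | h | h
  · exact dual4_aux hab hcd hIn hne hsub hs hx₁ hx₃ h1 h h3' h₁ h₃ hn
  · subst h
    exact absurd (h₁.trans h₃.symm) hn
  · obtain ⟨x₂, y₂, x₄, y₄, e1, e2, e3, e4, e5, e6, e7⟩ :=
      dual4_aux hab hcd hIn hne hsub hs hx₃ hx₁ h3 h h1' h₃ h₁ (fun h' => hn h'.symm)
    exact ⟨x₂, y₂, x₄, y₄, e1, e2, e3, e4, e5, e6, e7.swap⟩

end Lat

end SC

end

/-! ### from `Lib_MP_e0a489.TP4` -/

section

/-!
# MP_e0a489, module TP 4: four arms whose ends alternate separate each other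
-/

set_option autoImplicit false

namespace SC

open Classical

namespace Lat

variable {L : Lat} {a b c d : ℤ} {k : Bool} {ω : Cfg}

/-- Joining two arms through the inner set: `Q ∪ In ∪ Q'` is connected if `Q`, `Q'`, `In` are connected and `Q`, `Q'` contain
neighbours of `In` (`Con.union_adj` twice). -/
theorem con_arms {In Q Q' : Set Pt} (hIn : L.Con In) (hQ : L.Con Q) (hQ' : L.Con Q')
    (hx : ∃ x ∈ Q, x ∈ L.nb In) (hx' : ∃ x ∈ Q', x ∈ L.nb In) : L.Con (Q ∪ In ∪ Q') := by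
  obtain ⟨x, hxQ, u, hu, hux⟩ := hx
  obtain ⟨x', hxQ', u', hu', hux'⟩ := hx'
  exact Con.union_adj (Con.union_adj hQ hIn hxQ hu hux.symm) hQ' (Or.inr hu') hxQ' hux'

/-- SEPARATION.  `Q₁`, `Q₃` have colour `k`, `Q₂`, `Q₄` have colour `!k`, all are connected subsets of the annulus `rect \ In` and contain a neighbour of
`In` and the boundary site `yᵢ`.
(i) `Q₂ ∩ Q₄ = ∅`: otherwise `P = Q₁ ∪ In ∪ Q₃` (`con_arms`) and `P' = Q₂ ∪ Q₄` (`Con.union`) contradict `Alt` (sites of different colours are different,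
`In` is disjoint from the annulus).
(ii) `Q₁ ∩ Q₃ = ∅`: in the same way with `P = Q₁ ∪ Q₃`, `P' = Q₂ ∪ In ∪ Q₄`.
(iii) `P = Q₁ ∪ Δ ∪ Q₃` is connected, `P' = Q₂ ∪ In ∪ Q₄`; the common site is in `Δ` and in `Q₂ ∪ Q₄`. -/
theorem alt_sep {In : Set Pt} (hIn : L.Con In) (hsub : In ⊆ rect a b c d)
    {Q₁ Q₂ Q₃ Q₄ : Set Pt} {y₁ y₂ y₃ y₄ : Pt} (c₁ : L.Con Q₁) (c₂ : L.Con Q₂) (c₃ : L.Con Q₃)
    (c₄ : L.Con Q₄) (s₁ : Q₁ ⊆ (rect a b c d \ In) ∩ L.col k ω)
    (s₂ : Q₂ ⊆ (rect a b c d \ In) ∩ L.col (!k) ω)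
    (s₃ : Q₃ ⊆ (rect a b c d \ In) ∩ L.col k ω)
    (s₄ : Q₄ ⊆ (rect a b c d \ In) ∩ L.col (!k) ω) (x₁ : ∃ x ∈ Q₁, x ∈ L.nb In)
    (x₂ : ∃ x ∈ Q₂, x ∈ L.nb In) (x₃ : ∃ x ∈ Q₃, x ∈ L.nb In) (x₄ : ∃ x ∈ Q₄, x ∈ L.nb In)
    (m₁ : y₁ ∈ Q₁) (m₂ : y₂ ∈ Q₂) (m₃ : y₃ ∈ Q₃) (m₄ : y₄ ∈ Q₄)
    (h : L.Alt a b c d y₁ y₂ y₃ y₄) :
    (∀ v ∈ Q₂, v ∉ Q₄) ∧ (∀ v ∈ Q₁, v ∉ Q₃) ∧
      ∀ Δ : Set Pt, L.Con Δ → Δ ⊆ rect a b c d \ In → (Δ ∩ Q₁).Nonempty → (Δ ∩ Q₃).Nonempty →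
        (Δ ∩ (Q₂ ∪ Q₄)).Nonempty := by
  have hcol : ∀ z : Pt, z ∈ L.col k ω → z ∈ L.col (!k) ω → False := by
    intro z h₁ h₂
    have e₁ : L.st ω z = k := h₁
    have e₂ : L.st ω z = !k := h₂
    rw [e₁] at e₂
    cases k <;> simp at e₂
  have P₁₃ := con_arms hIn c₁ c₃ x₁ x₃
  have P₂₄ := con_arms hIn c₂ c₄ x₂ x₄
  have r₁₃ : Q₁ ∪ In ∪ Q₃ ⊆ rect a b c d :=
    Set.union_subset (Set.union_subset (fun z hz => (s₁ hz).1.1) hsub) (fun z hz => (s₃ hz).1.1)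
  have r₂₄ : Q₂ ∪ In ∪ Q₄ ⊆ rect a b c d :=
    Set.union_subset (Set.union_subset (fun z hz => (s₂ hz).1.1) hsub) (fun z hz => (s₄ hz).1.1)
  refine ⟨?_, ?_, ?_⟩
  · intro v hv hv'
    obtain ⟨z, hz, hz'⟩ := h (Q₁ ∪ In ∪ Q₃) (Q₂ ∪ Q₄) P₁₃ (Con.union c₂ c₄ ⟨v, hv, hv'⟩) r₁₃
      (Set.union_subset (fun z hz => (s₂ hz).1.1) (fun z hz => (s₄ hz).1.1))
      (Or.inl (Or.inl m₁)) (Or.inr m₃) (Or.inl m₂) (Or.inr m₄)
    rcases hz with (hz | hz) | hz <;> rcases hz' with hz' | hz'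
    · exact hcol z (s₁ hz).2 (s₂ hz').2
    · exact hcol z (s₁ hz).2 (s₄ hz').2
    · exact (s₂ hz').1.2 hz
    · exact (s₄ hz').1.2 hz
    · exact hcol z (s₃ hz).2 (s₂ hz').2
    · exact hcol z (s₃ hz).2 (s₄ hz').2
  · intro v hv hv'
    obtain ⟨z, hz, hz'⟩ := h (Q₁ ∪ Q₃) (Q₂ ∪ In ∪ Q₄) (Con.union c₁ c₃ ⟨v, hv, hv'⟩) P₂₄
      (Set.union_subset (fun z hz => (s₁ hz).1.1) (fun z hz => (s₃ hz).1.1)) r₂₄
      (Or.inl m₁) (Or.inr m₃) (Or.inl (Or.inl m₂)) (Or.inr m₄)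
    rcases hz with hz | hz <;> rcases hz' with (hz' | hz') | hz'
    · exact hcol z (s₁ hz).2 (s₂ hz').2
    · exact (s₁ hz).1.2 hz'
    · exact hcol z (s₁ hz).2 (s₄ hz').2
    · exact hcol z (s₃ hz).2 (s₂ hz').2
    · exact (s₃ hz).1.2 hz'
    · exact hcol z (s₃ hz).2 (s₄ hz').2
  · intro Δ hΔ hΔs hΔ₁ hΔ₃
    obtain ⟨w₁, hw₁, hw₁'⟩ := hΔ₁
    obtain ⟨w₃, hw₃, hw₃'⟩ := hΔ₃
    have hP : L.Con (Q₁ ∪ Δ ∪ Q₃) :=
      Con.union (Con.union c₁ hΔ ⟨w₁, hw₁', hw₁⟩) c₃ ⟨w₃, Or.inr hw₃, hw₃'⟩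
    obtain ⟨z, hz, hz'⟩ := h (Q₁ ∪ Δ ∪ Q₃) (Q₂ ∪ In ∪ Q₄) hP P₂₄
      (Set.union_subset (Set.union_subset (fun z hz => (s₁ hz).1.1) (fun z hz => (hΔs hz).1))
        (fun z hz => (s₃ hz).1.1)) r₂₄
      (Or.inl (Or.inl m₁)) (Or.inr m₃) (Or.inl (Or.inl m₂)) (Or.inr m₄)
    rcases hz with (hz | hz) | hz <;> rcases hz' with (hz' | hz') | hz'
    · exact (hcol z (s₁ hz).2 (s₂ hz').2).elim
    · exact ((s₁ hz).1.2 hz').elim
    · exact (hcol z (s₁ hz).2 (s₄ hz').2).elim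
    · exact ⟨z, hz, Or.inl hz'⟩
    · exact ((hΔs hz).2 hz').elim
    · exact ⟨z, hz, Or.inr hz'⟩
    · exact (hcol z (s₃ hz).2 (s₂ hz').2).elim
    · exact ((s₃ hz).1.2 hz').elim
    · exact (hcol z (s₃ hz).2 (s₄ hz').2).elim

end Lat

end SC

end

/-! ### from `Lib_MP_e0a489.TP5` -/

section

/-!
# MP_e0a489, module TP 5: bond percolation, the four arm event of `SCTop` implies `TwoA`
-/

set_option autoImplicit false

namespace SC

open Classical

theorem nn_adj {L : Lat} {u v : Pt} (h : SCTop.NN u v) : L.Adj u v := by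
  unfold SCTop.NN at h
  exact Lat.adj_of_nn h

/-- `abs_le`, `max_le_iff`, `Finset.mem_filter`, `Finset.mem_product`, `Finset.mem_Icc` -/
theorem mem_edges {n : ℕ} {e : Pt} :
    e ∈ SCTop.edges n ↔ nrm e ≤ 2 * n ∧ (e.1 + e.2) % 2 = 1 := by
  unfold SCTop.edges nrm
  rw [Finset.mem_filter, Finset.mem_product, Finset.mem_Icc, Finset.mem_Icc, max_le_iff, abs_le,
    abs_le]

private theorem tp5_ee {c : Bool} {ω : Cfg} {v : Pt} (h1 : v.1 % 2 = 0) (h2 : v.2 % 2 = 0) :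
    (v ∈ Z2.col c ω) = (c = true) := by
  unfold Lat.col Lat.st Z2
  simp only [Set.mem_setOf_eq, h1, h2]
  cases c <;> simp

private theorem tp5_oo {c : Bool} {ω : Cfg} {v : Pt} (h1 : v.1 % 2 = 1) (h2 : v.2 % 2 = 1) :
    (v ∈ Z2.col c ω) = (c = false) := by
  unfold Lat.col Lat.st Z2
  simp only [Set.mem_setOf_eq, h1, h2]
  cases c <;> simp

private theorem tp5_ed {c : Bool} {ω : Cfg} {v : Pt} (h1 : (v.1 + v.2) % 2 = 1) :
    (v ∈ Z2.col c ω) = (ω v = c) := by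
  unfold Lat.col Lat.st Z2
  have h2 : ¬ (v.1 % 2 = 0 ∧ v.2 % 2 = 0) := by omega
  have h3 : ¬ (v.1 % 2 = 1 ∧ v.2 % 2 = 1) := by omega
  simp only [Set.mem_setOf_eq]
  rw [if_neg h2, if_neg h3]
  rfl

/-- Two adjacent sites of `Z2` of the same colour are nearest neighbours: a diagonal of `Z2` joins a point with two even coordinates (always
open) and a point with two odd coordinates (always closed).  (`Adj1`: four cases; `ne i j = true ↔ (i + j) % 2 = 0`.) -/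
theorem z2_nn {c : Bool} {ω : Cfg} {u v : Pt} (h : Z2.Adj u v) (hu : u ∈ Z2.col c ω)
    (hv : v ∈ Z2.col c ω) : SCTop.NN u v := by
  have key : ∀ a b : Pt, Z2.Adj1 a b → a ∈ Z2.col c ω → b ∈ Z2.col c ω →
      |a.1 - b.1| + |a.2 - b.2| = 1 := by
    intro a b hab ha hb
    rcases hab with ⟨h1, h2⟩ | ⟨h1, h2⟩ | ⟨h1, h2, h3⟩ | ⟨h1, h2, h3⟩
    · rw [h1, h2]
      simp
    · rw [h1, h2]
      simp
    · exfalso
      have h4 : (a.1 + a.2) % 2 = 0 := by
        unfold Z2 at h3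
        simpa using h3
      rcases Int.emod_two_eq_zero_or_one a.1 with h5 | h5
      · have h6 : a.2 % 2 = 0 := by omega
        have h7 : b.1 % 2 = 1 := by omega
        have h8 : b.2 % 2 = 1 := by omega
        rw [tp5_ee h5 h6] at ha
        rw [tp5_oo h7 h8] at hb
        rw [ha] at hb
        exact absurd hb (by decide)
      · have h6 : a.2 % 2 = 1 := by omega
        have h7 : b.1 % 2 = 0 := by omega
        have h8 : b.2 % 2 = 0 := by omega
        rw [tp5_oo h5 h6] at ha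
        rw [tp5_ee h7 h8] at hb
        rw [ha] at hb
        exact absurd hb (by decide)
    · exfalso
      have h4 : ¬ (b.1 + a.2) % 2 = 0 := by
        unfold Z2 at h3
        simpa using h3
      rcases Int.emod_two_eq_zero_or_one a.1 with h5 | h5
      · have h6 : a.2 % 2 = 0 := by omega
        have h7 : b.1 % 2 = 1 := by omega
        have h8 : b.2 % 2 = 1 := by omega
        rw [tp5_ee h5 h6] at ha
        rw [tp5_oo h7 h8] at hb
        rw [ha] at hb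
        exact absurd hb (by decide)
      · have h6 : a.2 % 2 = 1 := by omega
        have h7 : b.1 % 2 = 0 := by omega
        have h8 : b.2 % 2 = 0 := by omega
        rw [tp5_oo h5 h6] at ha
        rw [tp5_ee h7 h8] at hb
        rw [ha] at hb
        exact absurd hb (by decide)
  unfold SCTop.NN
  rcases h with h | h
  · exact key u v h hu hv
  · have := key v u h hv hu
    rw [abs_sub_comm u.1 v.1, abs_sub_comm u.2 v.2]
    exact this

/-- `v` is open in `Z2`: both coordinates even, or odd sum and `ω v = true` (then `v ∈ edges R`) -/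
theorem openPt_iff {R : ℕ} {ω : Cfg} {v : Pt} (hv : nrm v ≤ 2 * R) :
    SCTop.openPt (opn (SCTop.edges R) 1 ω) v ↔ v ∈ Z2.col true ω := by
  unfold SCTop.openPt
  rw [mem_opn, mem_edges]
  rcases Int.emod_two_eq_zero_or_one v.1 with h1 | h1 <;>
    rcases Int.emod_two_eq_zero_or_one v.2 with h2 | h2
  · rw [tp5_ee h1 h2]
    exact iff_of_true (Or.inl ⟨h1, h2⟩) rfl
  · have h3 : (v.1 + v.2) % 2 = 1 := by omega
    rw [tp5_ed h3]
    constructor
    · rintro (h4 | ⟨_, _, h4⟩)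
      · omega
      · exact h4
    · intro h4
      exact Or.inr ⟨h3, ⟨hv, h3⟩, h4⟩
  · have h3 : (v.1 + v.2) % 2 = 1 := by omega
    rw [tp5_ed h3]
    constructor
    · rintro (h4 | ⟨_, _, h4⟩)
      · omega
      · exact h4
    · intro h4
      exact Or.inr ⟨h3, ⟨hv, h3⟩, h4⟩
  · rw [tp5_oo h1 h2]
    constructor
    · rintro (h4 | ⟨h4, _⟩)
      · omega
      · omega
    · intro h4
      exact absurd h4 (by decide)

theorem closedPt_iff {R : ℕ} {ω : Cfg} {v : Pt} (hv : nrm v ≤ 2 * R) :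
    SCTop.closedPt (opn (SCTop.edges R) 1 ω) v ↔ v ∈ Z2.col false ω := by
  unfold SCTop.closedPt
  rw [mem_opn, mem_edges]
  rcases Int.emod_two_eq_zero_or_one v.1 with h1 | h1 <;>
    rcases Int.emod_two_eq_zero_or_one v.2 with h2 | h2
  · rw [tp5_ee h1 h2]
    constructor
    · rintro (h4 | ⟨h4, _⟩)
      · omega
      · omega
    · intro h4
      exact absurd h4 (by decide)
  · have h3 : (v.1 + v.2) % 2 = 1 := by omega
    rw [tp5_ed h3]
    constructor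
    · rintro (h4 | ⟨_, h4⟩)
      · omega
      · by_contra h5
        exact h4 ⟨⟨hv, h3⟩, by simpa using h5⟩
    · intro h4
      refine Or.inr ⟨h3, fun h5 => ?_⟩
      have h6 := h5.2
      change ω v = true at h6
      rw [h4] at h6
      exact absurd h6 (by decide)
  · have h3 : (v.1 + v.2) % 2 = 1 := by omega
    rw [tp5_ed h3]
    constructor
    · rintro (h4 | ⟨_, h4⟩)
      · omega
      · by_contra h5
        exact h4 ⟨⟨hv, h3⟩, by simpa using h5⟩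
    · intro h4
      refine Or.inr ⟨h3, fun h5 => ?_⟩
      have h6 := h5.2
      change ω v = true at h6
      rw [h4] at h6
      exact absurd h6 (by decide)
  · rw [tp5_oo h1 h2]
    exact iff_of_true (Or.inl ⟨h1, h2⟩) rfl

/-- `Cn.path`; the steps are nearest neighbour steps by `z2_nn` (`List.IsChain` with membership: `List.isChain_iff_getElem` or induction) -/
theorem z2_path {c : Bool} {D : Set Pt} {ω : Cfg} {u v : Pt}
    (h : Z2.Cn (D ∩ Z2.col c ω) u v) :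
    ∃ γ : List Pt, γ.head? = some u ∧ γ.getLast? = some v ∧
      (∀ w ∈ γ, w ∈ D ∧ w ∈ Z2.col c ω) ∧ γ.IsChain SCTop.NN := by
  obtain ⟨l, _, h1, h2, h3, h4⟩ := h.path
  refine ⟨l, h1, h2, fun w hw => h3 w hw, ?_⟩
  rw [List.isChain_iff_getElem] at h4 ⊢
  intro i hi
  exact z2_nn (h4 i hi) (h3 _ (List.getElem_mem _)).2 (h3 _ (List.getElem_mem _)).2

/-- every site of the ring of even radius `2 m` has a neighbour in `bx (2 m - 1)` (the corners have even coordinates, so the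
diagonal of the cell inside the ring ends there) -/
theorem z2_nb {m : ℤ} (hm : 1 ≤ m) {x : Pt} (hx : nrm x = 2 * m) : x ∈ Z2.nb (bx (2 * m - 1)) := by
  obtain ⟨a, b⟩ := x
  unfold nrm at hx
  simp only at hx
  have ha : |a| ≤ 2 * m := hx ▸ le_max_left _ _
  have hb : |b| ≤ 2 * m := hx ▸ le_max_right _ _
  have hor : |a| = 2 * m ∨ |b| = 2 * m := by
    rcases max_choice |a| |b| with h | h
    · left
      rw [← hx, h]
    · right
      rw [← hx, h]
  have hne : ∀ i j : ℤ, Z2.ne i j = decide ((i + j) % 2 = 0) := fun i j => rfl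
  have mk : ∀ c d : ℤ, |c| ≤ 2 * m - 1 → |d| ≤ 2 * m - 1 → Z2.Adj (c, d) (a, b) →
      ((a, b) : Pt) ∈ Z2.nb (bx (2 * m - 1)) := by
    intro c d h1 h2 h3
    refine ⟨(c, d), ?_, h3⟩
    unfold bx nrm
    exact max_le h1 h2
  rw [abs_le] at ha hb
  have hcase : (a = 2 * m ∨ a = -(2 * m) ∨ (-(2 * m - 1) ≤ a ∧ a ≤ 2 * m - 1)) ∧
      (b = 2 * m ∨ b = -(2 * m) ∨ (-(2 * m - 1) ≤ b ∧ b ≤ 2 * m - 1)) := by
    constructor <;> omega
  obtain ⟨ha', hb'⟩ := hcase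
  have e1 : |2 * m - 1| ≤ 2 * m - 1 := by rw [abs_le]; omega
  have e2 : |-(2 * m) + 1| ≤ 2 * m - 1 := by rw [abs_le]; omega
  rcases ha' with ha' | ha' | ha' <;> rcases hb' with hb' | hb' | hb'
  · subst ha'
    subst hb'
    refine mk (2 * m - 1) (2 * m - 1) e1 e1 (Or.inl (Or.inr (Or.inr (Or.inl ⟨?_, ?_, ?_⟩))))
    · simp
    · simp
    · rw [hne]
      simp only [decide_eq_true_eq]
      omega
  · subst ha'
    subst hb'
    refine mk (2 * m - 1) (-(2 * m) + 1) e1 e2 (Or.inr (Or.inr (Or.inr (Or.inr ⟨?_, ?_, ?_⟩))))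
    · simp
    · simp
    · rw [hne]
      simp only [decide_eq_false_iff_not]
      omega
  · subst ha'
    refine mk (2 * m - 1) b e1 (by rw [abs_le]; exact hb') (Or.inl (Or.inl ⟨?_, ?_⟩))
    · simp
    · simp
  · subst ha'
    subst hb'
    refine mk (-(2 * m) + 1) (2 * m - 1) e2 e1 (Or.inl (Or.inr (Or.inr (Or.inr ⟨?_, ?_, ?_⟩))))
    · simp
    · simp
    · rw [hne]
      simp only [decide_eq_false_iff_not]
      omega
  · subst ha'
    subst hb'
    refine mk (-(2 * m) + 1) (-(2 * m) + 1) e2 e2 (Or.inr (Or.inr (Or.inr (Or.inl ⟨?_, ?_, ?_⟩))))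
    · simp
    · simp
    · rw [hne]
      simp only [decide_eq_true_eq]
      omega
  · subst ha'
    refine mk (-(2 * m) + 1) b e2 (by rw [abs_le]; exact hb') (Or.inr (Or.inl ⟨?_, ?_⟩))
    · simp
    · simp
  · subst hb'
    refine mk a (2 * m - 1) (by rw [abs_le]; exact ha') e1 (Or.inl (Or.inr (Or.inl ⟨?_, ?_⟩)))
    · simp
    · simp
  · subst hb'
    refine mk a (-(2 * m) + 1) (by rw [abs_le]; exact ha') e2 (Or.inr (Or.inr (Or.inl ⟨?_, ?_⟩)))
    · simp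
    · simp
  · exfalso
    rcases hor with h | h
    · have := abs_le.2 ha'
      omega
    · have := abs_le.2 hb'
      omega

/-- UPPER INCLUSION.  `x, y` = first and last site of `γ₁`, `x', y'` those of `γ₃`; `Cn.of_path` with `nn_adj`; colours by `openPt_iff`; `x ∈ nb (bx ..)` by `z2_nb`.
Not joined: a path of open sites in the annulus from `x` to `x'` gives by `z2_path` a list `δ`, `DPath m m' δ`, whose sites are open; by the separation property
it contains a site of `γ₂` or `γ₄`, which is closed (`closedPt_iff`): contradiction. -/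
theorem fourArms_twoA {m m' : ℕ} (hm : 1 ≤ m) (hm' : m ≤ m') {ω : Cfg}
    (h : SCTop.fourArms m m' (opn (SCTop.edges m') 1 ω)) :
    Z2.TwoA true (2 * m - 1) (2 * m') ω := by
  obtain ⟨γ₁, γ₂, γ₃, γ₄, a1, a2, a3, a4, -, -, hsep⟩ := h
  have hm1 : (1 : ℤ) ≤ (m : ℤ) := by exact_mod_cast hm
  have arm : ∀ γ : List Pt, SCTop.DArm (SCTop.openPt (opn (SCTop.edges m') 1 ω)) m m' γ →
      ∃ x ∈ Z2.nb (bx (2 * (m : ℤ) - 1)), ∃ y ∈ rng (2 * (m' : ℤ)),
        Z2.Cn (ann (2 * (m : ℤ) - 1) (2 * m') ∩ Z2.col true ω) x y ∧ x ∈ γ := by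
    intro γ a
    obtain ⟨x, hx1, hx2⟩ := a.start
    obtain ⟨y, hy1, hy2⟩ := a.fin
    refine ⟨x, z2_nb hm1 hx2, y, hy2, ?_, List.mem_of_head? hx1⟩
    refine Lat.Cn.of_path hx1 hy1 (fun w hw => ?_) ?_
    · have h1 := a.path.ann w hw
      have h2 := a.typ w hw
      refine ⟨⟨?_, h1.2⟩, ?_⟩
      · have h3 : (2 * m : ℤ) ≤ nrm w := h1.1
        omega
      · exact (openPt_iff h1.2).1 h2
    · exact a.path.chain.imp fun u v huv => nn_adj huv
  obtain ⟨x, hx, y, hy, hxy, hxm⟩ := arm γ₁ a1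
  obtain ⟨x', hx', y', hy', hxy', hxm'⟩ := arm γ₃ a3
  refine ⟨x, hx, y, hy, x', hx', y', hy', hxy, hxy', fun hc => ?_⟩
  obtain ⟨δ, d1, d2, d3, d4⟩ := z2_path hc
  have hδ : SCTop.DPath m m' δ := by
    refine ⟨d4, fun v hv => ?_⟩
    have h1 := (d3 v hv).1
    refine ⟨?_, h1.2⟩
    have h2 : 2 * (m : ℤ) - 1 < nrm v := h1.1
    change (2 * m : ℤ) ≤ nrm v
    omega
  obtain ⟨v, hv, hv2⟩ := hsep δ hδ ⟨x, hxm, d1⟩ ⟨x', hxm', d2⟩
  have h1 := (d3 v hv).1.2
  have h2 := (d3 v hv).2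
  have h3 : v ∈ Z2.col false ω := by
    rcases hv2 with h | h
    · exact (closedPt_iff h1).1 (a2.typ v h)
    · exact (closedPt_iff h1).1 (a4.typ v h)
  have h4 : Z2.st ω v = true := h2
  have h5 : Z2.st ω v = false := h3
  rw [h4] at h5
  exact absurd h5 (by decide)

end SC

end

/-! ### from `Lib_MP_e0a489.TQ1` -/

section

/-!
# MP_e0a489, module TQ 1: triangular lattice, Euclidean boxes in the row drawing
-/

set_option autoImplicit false

namespace SC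

open Classical

/-- Euclidean box in the row drawing: `(2 w.1 + w.2 % 2) / 2` is the first coordinate of the site `w` in the plane, `(√3/2) w.2` the
second one -/
def TB (H J : ℤ) : Set Pt := {w | |2 * w.1 + w.2 % 2| ≤ H ∧ |w.2| ≤ J}

/-- adjacency: same row and distance one, or neighbouring rows and horizontal distance one half.  Unfold `Adj`, `Adj1`, `TL`; `decide_eq_true_eq`; parity of `u.2`; `omega` -/
theorem TL_adj_iff (u v : Pt) : TL.Adj u v ↔
    (v.2 = u.2 ∧ (v.1 = u.1 + 1 ∨ v.1 = u.1 - 1)) ∨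
      ((v.2 = u.2 + 1 ∨ v.2 = u.2 - 1) ∧ (2 * v.1 + v.2 % 2 = 2 * u.1 + u.2 % 2 + 1 ∨
        2 * v.1 + v.2 % 2 = 2 * u.1 + u.2 % 2 - 1)) := by
  obtain ⟨a, b⟩ := u
  obtain ⟨c, d⟩ := v
  simp only [Lat.Adj, Lat.Adj1, TL, decide_eq_true_eq, decide_eq_false_iff_not]
  omega

theorem TB_mono {H J H' J' : ℤ} (h : H ≤ H') (h' : J ≤ J') : TB H J ⊆ TB H' J' := by
  intro w hw
  exact ⟨hw.1.trans h, hw.2.trans h'⟩

/-- neighbours of the inner box: `TL_adj_iff`, `abs_le`, `omega` -/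
theorem TB_nb {H J : ℤ} {w u : Pt} (hw : w ∈ TB (H - 2) (J - 1)) (h : TL.Adj w u) :
    u ∈ TB H J := by
  obtain ⟨a, b⟩ := w
  obtain ⟨c, d⟩ := u
  rw [TL_adj_iff] at h
  simp only [TB, Set.mem_ofPred_eq, abs_le] at hw ⊢
  simp only at h
  omega

/-- a site of the box all of whose neighbours are in the box is in the inner box: use the neighbours `(w.1 ± 1, w.2)` and
`(w.1, w.2 ± 1)` -/
theorem TB_int {H J : ℤ} {w : Pt} (hw : w ∈ TB H J) (h : ∀ u, TL.Adj w u → u ∈ TB H J) :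
    w ∈ TB (H - 2) (J - 1) := by
  obtain ⟨a, b⟩ := w
  have h1 := h (a + 1, b) (by rw [TL_adj_iff]; simp)
  have h2 := h (a - 1, b) (by rw [TL_adj_iff]; simp)
  have h3 := h (a, b + 1) (by
    rw [TL_adj_iff]
    refine Or.inr ⟨Or.inl rfl, ?_⟩
    simp only
    omega)
  have h4 := h (a, b - 1) (by
    rw [TL_adj_iff]
    refine Or.inr ⟨Or.inr rfl, ?_⟩
    simp only
    omega)
  simp only [TB, Set.mem_ofPred_eq, abs_le] at hw h1 h2 h3 h4 ⊢
  omega

/-- The box is connected: `w` is joined to `(0, w.2)` in its row (`|2 x + w.2 % 2|` decreases to `0` or `1 ≤ H`), and `(0, j)` to `(0, 0)` in the column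
(`con_rect`-type induction).  If `J = 0` only the row `0`. -/
theorem TB_con {H J : ℤ} (hH : 0 ≤ H) (hJ : 0 ≤ J) (h : 1 ≤ H ∨ J = 0) : TL.Con (TB H J) := by
  have hz : ∀ (n : ℕ) (j : ℤ), j.natAbs = n → |j| ≤ J →
      TL.Cn (TB H J) ((0, j) : Pt) ((0, 0) : Pt) := by
    intro n
    induction n with
    | zero =>
      intro j hj _
      have : j = 0 := by omega
      subst this
      refine Lat.Cn.refl ?_
      simp only [TB, Set.mem_ofPred_eq, abs_le]
      omega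
    | succ n ih =>
      intro j hj hjJ
      rw [abs_le] at hjJ
      have hm : ((0, j) : Pt) ∈ TB H J := by
        simp only [TB, Set.mem_ofPred_eq, abs_le]
        omega
      rcases lt_or_ge 0 j with hpos | hneg
      · have h1 := ih (j - 1) (by omega) (by rw [abs_le]; omega)
        refine (Lat.Cn.of_adj hm h1.left ?_).trans h1
        rw [TL_adj_iff]
        refine Or.inr ⟨Or.inr rfl, ?_⟩
        simp only
        omega
      · have h1 := ih (j + 1) (by omega) (by rw [abs_le]; omega)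
        refine (Lat.Cn.of_adj hm h1.left ?_).trans h1
        rw [TL_adj_iff]
        refine Or.inr ⟨Or.inl rfl, ?_⟩
        simp only
        omega
  have hx : ∀ (n : ℕ) (x j : ℤ), x.natAbs = n → ((x, j) : Pt) ∈ TB H J →
      TL.Cn (TB H J) ((x, j) : Pt) ((0, 0) : Pt) := by
    intro n
    induction n with
    | zero =>
      intro x j hx hm
      have : x = 0 := by omega
      subst this
      exact hz _ j rfl hm.2
    | succ n ih =>
      intro x j hx hm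
      have hm' := hm
      simp only [TB, Set.mem_ofPred_eq, abs_le] at hm'
      rcases lt_or_ge 0 x with hpos | hneg
      · have h1 := ih (x - 1) j (by omega) (by
          simp only [TB, Set.mem_ofPred_eq, abs_le]
          omega)
        refine (Lat.Cn.of_adj hm h1.left ?_).trans h1
        rw [TL_adj_iff]
        exact Or.inl ⟨rfl, Or.inr rfl⟩
      · have h1 := ih (x + 1) j (by omega) (by
          simp only [TB, Set.mem_ofPred_eq, abs_le]
          omega)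
        refine (Lat.Cn.of_adj hm h1.left ?_).trans h1
        rw [TL_adj_iff]
        exact Or.inl ⟨rfl, Or.inl rfl⟩
  intro u hu v hv
  obtain ⟨a, b⟩ := u
  obtain ⟨c, d⟩ := v
  exact (hx _ a b rfl hu).trans (hx _ c d rfl hv).symm

/-! ### Dictionary with the sheared coordinates -/

theorem shE_fst (v : Pt) : (shE v).1 = v.1 + v.2 / 2 := rfl

theorem shE_snd (v : Pt) : (shE v).2 = v.2 := rfl

/-- `2 * pos v 0 = 2 v.1 + v.2 = 2 (shE v).1 + (shE v).2 % 2`; `|x| ≤ r ↔ |2x| ≤ ⌊2r⌋` for half integers (`Int.le_floor`); `(√3/2) |j| ≤ r ↔ |j| ≤ 2r/√3` -/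
theorem inBox_iff {r : ℝ} {v : Pt} :
    SCTop.inBox r v ↔ shE v ∈ TB ⌊2 * r⌋ ⌊2 * r / Real.sqrt 3⌋ := by
  have h3 : (0 : ℝ) < Real.sqrt 3 := Real.sqrt_pos.2 (by norm_num)
  have e0 : SCTop.pos v 0 = (v.1 : ℝ) + (v.2 : ℝ) / 2 := rfl
  have e1 : SCTop.pos v 1 = Real.sqrt 3 / 2 * (v.2 : ℝ) := rfl
  have a0 : |SCTop.pos v 0| ≤ r ↔ |2 * (shE v).1 + (shE v).2 % 2| ≤ ⌊2 * r⌋ := by
    have : 2 * (shE v).1 + (shE v).2 % 2 = 2 * v.1 + v.2 := by
      rw [shE_fst, shE_snd]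
      omega
    rw [this, Int.le_floor, e0]
    push_cast
    have e2 : |(2 : ℝ) * (v.1 : ℝ) + (v.2 : ℝ)| = 2 * |(v.1 : ℝ) + (v.2 : ℝ) / 2| := by
      rw [← abs_two, ← abs_mul, abs_two]
      congr 1
      ring
    rw [e2]
    constructor <;> intro h <;> linarith
  have a1 : |SCTop.pos v 1| ≤ r ↔ |(shE v).2| ≤ ⌊2 * r / Real.sqrt 3⌋ := by
    rw [shE_snd, Int.le_floor, e1, le_div_iff₀ h3]
    push_cast
    rw [abs_mul, abs_of_pos (by positivity : (0 : ℝ) < Real.sqrt 3 / 2)]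
    constructor <;> intro h <;> nlinarith
  exact and_congr a0 a1

/-- `Int.ceil`: `|v.2| ≤ 2 r / √3 ≤ 2 ⌈r⌉`, `|v.1| ≤ r + |v.2| / 2 ≤ 2 ⌈r⌉` -/
theorem mem_sites {r : ℝ} {v : Pt} : v ∈ SCTop.sites r ↔ SCTop.inBox r v := by
  unfold SCTop.sites
  rw [Finset.mem_filter, Finset.mem_product, Finset.mem_Icc, Finset.mem_Icc]
  refine ⟨fun h => h.2, fun h => ⟨?_, h⟩⟩
  have h3 : (1 : ℝ) < Real.sqrt 3 := by
    rw [show (1 : ℝ) = Real.sqrt 1 by simp]
    exact Real.sqrt_lt_sqrt (by norm_num) (by norm_num)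
  obtain ⟨h0, h1⟩ := h
  have e0 : SCTop.pos v 0 = (v.1 : ℝ) + (v.2 : ℝ) / 2 := rfl
  have e1 : SCTop.pos v 1 = Real.sqrt 3 / 2 * (v.2 : ℝ) := rfl
  rw [e0, abs_le] at h0
  rw [e1, abs_mul, abs_of_pos (by positivity : (0 : ℝ) < Real.sqrt 3 / 2)] at h1
  have hc : r ≤ ⌈r⌉ := Int.le_ceil r
  have h2 : |(v.2 : ℝ)| ≤ 2 * r := by
    have := abs_nonneg (v.2 : ℝ)
    nlinarith
  rw [abs_le] at h2
  have q1 : (-(2 * ⌈r⌉ : ℤ) : ℝ) ≤ (v.1 : ℝ) := by
    push_cast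
    linarith
  have q2 : (v.1 : ℝ) ≤ ((2 * ⌈r⌉ : ℤ) : ℝ) := by
    push_cast
    linarith
  have q3 : (-(2 * ⌈r⌉ : ℤ) : ℝ) ≤ (v.2 : ℝ) := by
    push_cast
    linarith
  have q4 : (v.2 : ℝ) ≤ ((2 * ⌈r⌉ : ℤ) : ℝ) := by
    push_cast
    linarith
  refine ⟨⟨?_, ?_⟩, ⟨?_, ?_⟩⟩
  · exact_mod_cast q1
  · exact_mod_cast q2
  · exact_mod_cast q3
  · exact_mod_cast q4

/-- the six cases; `TL_adj_iff` -/
theorem TAdj_iff (u v : Pt) : SCTop.TAdj u v ↔ TL.Adj (shE u) (shE v) := by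
  obtain ⟨a, b⟩ := u
  obtain ⟨c, d⟩ := v
  rw [TL_adj_iff]
  simp only [SCTop.TAdj, shE_fst, shE_snd, Prod.mk_sub_mk, Prod.mk.injEq]
  omega

/-- `inBox_iff`, `TAdj_iff`, `TB_nb`, `TB_int` -/
theorem tbd_iff {r : ℝ} {v : Pt} : SCTop.tbd r v ↔
    shE v ∈ TB ⌊2 * r⌋ ⌊2 * r / Real.sqrt 3⌋ ∧
      shE v ∉ TB (⌊2 * r⌋ - 2) (⌊2 * r / Real.sqrt 3⌋ - 1) := by
  unfold SCTop.tbd
  rw [inBox_iff]
  refine and_congr_right fun hv => ⟨?_, ?_⟩
  · rintro ⟨u, hu, hn⟩ hin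
    rw [inBox_iff] at hn
    exact hn (TB_nb hin ((TAdj_iff _ _).1 hu))
  · intro hn
    by_contra hcon
    push Not at hcon
    refine hn (TB_int hv fun u hu => ?_)
    have h1 := hcon (shE.symm u) ((TAdj_iff _ _).2 (by rwa [Equiv.apply_symm_apply]))
    rwa [inBox_iff, Equiv.apply_symm_apply] at h1

end SC

end

/-! ### from `Lib_MP_e0a489.TQ2` -/

section

/-!
# MP_e0a489, module TQ 2: the box as a rectangle with twin sites
-/

set_option autoImplicit false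

namespace SC

open Classical

/-- bounding rectangle of `TB H J` -/
def TR (H J : ℤ) : Set Pt := rect (-((H + 1) / 2)) (H / 2) (-J) J

/-- the sites of the bounding rectangle outside the box are twins of the neighbouring site of the box in the same row -/
def twn (H : ℤ) (w : Pt) : Pt :=
  if H < 2 * w.1 + w.2 % 2 then (w.1 - 1, w.2)
  else if 2 * w.1 + w.2 % 2 < -H then (w.1 + 1, w.2) else w

theorem TB_sub_TR (H J : ℤ) : TB H J ⊆ TR H J := by
  rintro ⟨x, y⟩ h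
  simp only [TB, TR, rect, Set.mem_setOf_eq, abs_le] at h ⊢
  omega

theorem twn_mem {H J : ℤ} (hH : 1 ≤ H) {w : Pt} (hw : w ∈ TR H J) : twn H w ∈ TB H J := by
  obtain ⟨x, y⟩ := w
  simp only [TR, rect, Set.mem_setOf_eq] at hw
  simp only [TB, Set.mem_setOf_eq, abs_le, twn]
  split_ifs <;> simp only at * <;> omega

theorem twn_id {H J : ℤ} {w : Pt} (hw : w ∈ TB H J) : twn H w = w := by
  obtain ⟨x, y⟩ := w
  simp only [TB, Set.mem_setOf_eq, abs_le] at hw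
  simp only [twn]
  split_ifs <;> first | rfl | omega

/-- `H = 2N`: the twins are `(N, j)`, `j` odd, `twn (N, j) = (N-1, j)`; `H = 2N+1`: the twins are `(-N-1, j)`, `j` even.  Split the `if`s (`split_ifs`), `TL_adj_iff`, `Prod.ext_iff`, `omega` -/
theorem twn_adj {H J : ℤ} (hH : 1 ≤ H) {u v : Pt} (hu : u ∈ TR H J) (hv : v ∈ TR H J)
    (h : TL.Adj u v) : twn H u = twn H v ∨ TL.Adj (twn H u) (twn H v) := by
  obtain ⟨x, y⟩ := u
  obtain ⟨x', y'⟩ := v
  rw [TL_adj_iff] at h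
  rw [TL_adj_iff]
  simp only [TR, rect, Set.mem_setOf_eq] at hu hv
  simp only [twn]
  simp only at h
  split_ifs <;> simp only [Prod.mk.injEq, and_true, true_and] <;> omega

theorem twn_near {H J : ℤ} {w : Pt} (hw : w ∈ TR H J) : twn H w = w ∨ TL.Adj (twn H w) w := by
  obtain ⟨x, y⟩ := w
  rw [TL_adj_iff]
  simp only [TR, rect, Set.mem_setOf_eq] at hw
  simp only [twn]
  split_ifs
  · simp only [Prod.mk.injEq, and_true, true_and]
    omega
  · simp only [Prod.mk.injEq, and_true, true_and]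
    omega
  · left
    rfl

/-- a site on the sides of the bounding rectangle is a boundary site of the box or the twin of one -/
theorem side_bd {H J : ℤ} (hH : 1 ≤ H) {w : Pt}
    (hw : w ∈ sides (-((H + 1) / 2)) (H / 2) (-J) J) : twn H w ∉ TB (H - 2) (J - 1) := by
  obtain ⟨x, y⟩ := w
  simp only [sides, rect, Set.mem_setOf_eq] at hw
  simp only [TB, Set.mem_setOf_eq, abs_le, twn]
  split_ifs <;> simp only at * <;> omega

/-- every boundary site of the box is on the sides or has a twin there -/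
theorem bd_side {H J : ℤ} (hH : 1 ≤ H) {v : Pt} (hv : v ∈ TB H J)
    (h : v ∉ TB (H - 2) (J - 1)) :
    ∃ w, w ∈ sides (-((H + 1) / 2)) (H / 2) (-J) J ∧ twn H w = v := by
  obtain ⟨x, y⟩ := v
  simp only [TB, Set.mem_setOf_eq, abs_le] at hv h
  by_cases hs : x = -((H + 1) / 2) ∨ x = H / 2 ∨ y = -J ∨ y = J
  · refine ⟨(x, y), ?_, ?_⟩
    · simp only [sides, rect, Set.mem_setOf_eq]
      omega
    · simp only [twn]
      split_ifs <;> first | rfl | omega
  · by_cases hp : 0 < 2 * x + y % 2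
    · refine ⟨(x + 1, y), ?_, ?_⟩
      · simp only [sides, rect, Set.mem_setOf_eq]
        omega
      · simp only [twn]
        split_ifs <;> simp only [Prod.mk.injEq, and_true, true_and] <;> omega
    · refine ⟨(x - 1, y), ?_, ?_⟩
      · simp only [sides, rect, Set.mem_setOf_eq]
        omega
      · simp only [twn]
        split_ifs <;> simp only [Prod.mk.injEq, and_true, true_and] <;> omega

/-- Paths in the rectangle for the configuration `ω ∘ twn` are mapped to paths in the box.  Induction along the path with `twn_adj`, `twn_mem`; the inner set `I ⊆ TB H J` is not hit, because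
`twn H w ∈ I` for `w ∉ TB H J` is excluded by `hI` (`twn_near`: `twn H w` has the neighbour `w` outside the box). -/
theorem twn_cn {H J : ℤ} (hH : 1 ≤ H) {I : Set Pt} (hI : I ⊆ TB (H - 2) (J - 1)) {c : Bool}
    {ω : Cfg} {u v : Pt}
    (h : TL.Cn ((TR H J \ I) ∩ TL.col c (fun w => ω (twn H w))) u v) :
    TL.Cn ((TB H J \ I) ∩ TL.col c ω) (twn H u) (twn H v) := by
  have key : ∀ w : Pt, w ∈ (TR H J \ I) ∩ TL.col c (fun w => ω (twn H w)) →
      twn H w ∈ (TB H J \ I) ∩ TL.col c ω := by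
    rintro w ⟨⟨hw, hwI⟩, hc⟩
    refine ⟨⟨twn_mem hH hw, fun hI' => ?_⟩, hc⟩
    rcases twn_near hw with h1 | h1
    · rw [h1] at hI'
      exact hwI hI'
    · have h2 : w ∈ TB H J := TB_nb (hI hI') h1
      rw [twn_id h2] at hI'
      exact hwI hI'
  obtain ⟨hu, h⟩ := h
  induction h with
  | refl => exact Lat.Cn.refl (key u hu)
  | @tail b d hb hd ih =>
    obtain ⟨hadj, hdm⟩ := hd
    have hbm : b ∈ (TR H J \ I) ∩ TL.col c (fun w => ω (twn H w)) :=
      Lat.Cn.right (L := TL) ⟨hu, hb⟩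
    rcases twn_adj hH hbm.1.1 hdm.1.1 hadj with h1 | h1
    · rw [← h1]
      exact ih
    · exact ih.trans (Lat.Cn.of_adj (key b hbm) (key d hdm) h1)

/-- conversely a path in the box is a path in the rectangle for `ω ∘ twn` (`twn_id`, `TB_sub_TR`) -/
theorem cn_twn {H J : ℤ} {I : Set Pt} {c : Bool} {ω : Cfg} {u v : Pt}
    (h : TL.Cn ((TB H J \ I) ∩ TL.col c ω) u v) :
    TL.Cn ((TR H J \ I) ∩ TL.col c (fun w => ω (twn H w))) u v := by
  refine h.mono ?_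
  rintro w ⟨⟨hw, hwI⟩, hc⟩
  refine ⟨⟨TB_sub_TR H J hw, hwI⟩, ?_⟩
  change ω (twn H w) = c
  rw [twn_id hw]
  exact hc

end SC

end
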