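import Mathlib
import Pool.Agent.Lib_MP_e0a489_m.G06
import Pool.Agent.Lib_MP_e0a489_m.G07
import Pool.Agent.Lib_MP_e0a489_m.G08

/-!
# MP_e0a489_pr: merged library part G10

Concatenation of library files (each in its own section), only to save build time.
-/

/-! ### from `Lib_MP_e0a489.RC1` -/

section

/-!
# MP_e0a489, rings 1: parametrisation of the rings, arcs, interlaced points

`rc m i` (file Defs2) runs counterclockwise around the ring of radius `m`; `rc m (2 m s + k) = rt s (m, k)`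
for `|k| ≤ m`: side `s` (`0` right, `1` top, `2` left, `3` bottom), coordinate `k` along the side.
-/

set_option autoImplicit false

namespace SC

open Classical

private theorem rc1_rt4 (s : ℤ) : (rt s = rt 0) ∨ (rt s = rt 1) ∨ (rt s = rt 2) ∨ (rt s = rt 3) := by
  have h : s % 4 = 0 ∨ s % 4 = 1 ∨ s % 4 = 2 ∨ s % 4 = 3 := by omega
  rcases h with h | h | h | h
  · left; exact rt_mod (by omega)
  · right; left; exact rt_mod (by omega)
  · right; right; left; exact rt_mod (by omega)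
  · right; right; right; exact rt_mod (by omega)

/-- For `|k| < m` the quotient is `s`; for `k = m` it is `s + 1` and `rt (s+1) (m,-m) = rt s (m,m)`; for
`k = -m` it is `s`. -/
theorem rc_side {m s k : ℤ} (hm : 1 ≤ m) (hk : |k| ≤ m) : rc m (2 * m * s + k) = rt s (m, k) := by
  obtain ⟨h1, h2⟩ := abs_le.mp hk
  unfold rc
  have e : (2 * m * s + k + m) / (2 * m) = s + (k + m) / (2 * m) := by
    rw [show 2 * m * s + k + m = (k + m) + 2 * m * s by ring,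
      Int.add_mul_ediv_left _ _ (by omega)]
    ring
  rw [e]
  rcases lt_or_eq_of_le h2 with h3 | h3
  · rw [Int.ediv_eq_zero_of_lt (by omega) (by omega)]
    rw [show s + 0 = s by ring, show 2 * m * s + k - 2 * m * s = k by ring]
  · rw [h3]
    rw [show (m + m) / (2 * m) = 1 by
      rw [show m + m = 2 * m by ring]; exact Int.ediv_self (by omega)]
    rw [rt_add, rt_one]
    congr 1
    refine Prod.ext ?_ ?_ <;> dsimp only <;> ring

theorem rc_period {m i : ℤ} (hm : 1 ≤ m) : rc m (i + 8 * m) = rc m i := by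
  unfold rc
  have e : (i + 8 * m + m) / (2 * m) = (i + m) / (2 * m) + 4 := by
    rw [show i + 8 * m + m = (i + m) + 2 * m * 4 by ring,
      Int.add_mul_ediv_left _ _ (by omega)]
  rw [e, rt_four]
  congr 1
  refine Prod.ext ?_ ?_
  · rfl
  · dsimp only; ring

private theorem rc1_per {m : ℤ} (hm : 1 ≤ m) (i t : ℤ) : rc m (i + 8 * m * t) = rc m i := by
  unfold rc
  have e : (i + 8 * m * t + m) / (2 * m) = (i + m) / (2 * m) + 4 * t := by
    rw [show i + 8 * m * t + m = (i + m) + 2 * m * (4 * t) by ring,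
      Int.add_mul_ediv_left _ _ (by omega)]
  rw [e, rt_mod (s := (i + m) / (2 * m) + 4 * t) (s' := (i + m) / (2 * m)) (by omega)]
  congr 1
  refine Prod.ext ?_ ?_
  · rfl
  · dsimp only; ring

private theorem rc1_idx {m : ℤ} (hm : 1 ≤ m) (i : ℤ) : ∃ s k, -m ≤ k ∧ k < m ∧ i = 2 * m * s + k := by
  refine ⟨(i + m) / (2 * m), i - 2 * m * ((i + m) / (2 * m)), ?_, ?_, by ring⟩
  · have := Int.mul_ediv_self_le (x := i + m) (k := 2 * m) (by omega)
    linarith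
  · have := Int.lt_mul_ediv_self_add (x := i + m) (k := 2 * m) (by omega)
    linarith

private theorem rc1_form {m : ℤ} (hm : 1 ≤ m) (i : ℤ) : ∃ t k, -m ≤ k ∧ k < m ∧
    ((i = 8 * m * t + k ∧ rc m i = (m, k)) ∨ (i = 8 * m * t + 2 * m + k ∧ rc m i = (-k, m)) ∨
      (i = 8 * m * t + 4 * m + k ∧ rc m i = (-m, -k)) ∨
      (i = 8 * m * t + 6 * m + k ∧ rc m i = (k, -m))) := by
  obtain ⟨s, k, h1, h2, h3⟩ := rc1_idx hm i
  have hr : rc m i = rt s (m, k) := by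
    rw [h3]; exact rc_side hm (abs_le.mpr ⟨h1, h2.le⟩)
  refine ⟨s / 4, k, h1, h2, ?_⟩
  have h : s % 4 = 0 ∨ s % 4 = 1 ∨ s % 4 = 2 ∨ s % 4 = 3 := by omega
  rcases h with h | h | h | h
  · left
    refine ⟨?_, ?_⟩
    · have : s = 4 * (s / 4) := by omega
      rw [h3]
      nth_rewrite 1 [this]
      ring
    · rw [hr, rt_mod (s' := 0) (by omega), rt_zero]
  · right; left
    refine ⟨?_, ?_⟩
    · have : s = 4 * (s / 4) + 1 := by omega
      rw [h3]
      nth_rewrite 1 [this]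
      ring
    · rw [hr, rt_mod (s' := 1) (by omega), rt_one]
  · right; right; left
    refine ⟨?_, ?_⟩
    · have : s = 4 * (s / 4) + 2 := by omega
      rw [h3]
      nth_rewrite 1 [this]
      ring
    · rw [hr, rt_mod (s' := 2) (by omega), rt_two]
  · right; right; right
    refine ⟨?_, ?_⟩
    · have : s = 4 * (s / 4) + 3 := by omega
      rw [h3]
      nth_rewrite 1 [this]
      ring
    · rw [hr, rt_mod (s' := 3) (by omega), rt_three]

theorem rc_nrm {m i : ℤ} (hm : 1 ≤ m) : nrm (rc m i) = m := by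
  obtain ⟨s, k, h1, h2, h3⟩ := rc1_idx hm i
  have hk : |k| ≤ m := abs_le.mpr ⟨h1, h2.le⟩
  rw [h3, rc_side hm hk, nrm_rt]
  unfold nrm
  dsimp only
  rw [abs_of_nonneg (by omega : (0 : ℤ) ≤ m)]
  exact max_eq_left hk

theorem rc_surj {m : ℤ} (hm : 1 ≤ m) {v : Pt} (hv : nrm v = m) (a : ℤ) :
    ∃ i, a ≤ i ∧ i < a + 8 * m ∧ rc m i = v := by
  have key : ∃ i0, rc m i0 = v := by
    obtain ⟨x, y⟩ := v
    have hx : |x| ≤ m := by rw [← hv]; exact le_max_left _ _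
    have hy : |y| ≤ m := by rw [← hv]; exact le_max_right _ _
    have hor : |x| = m ∨ |y| = m := by
      rcases max_choice |x| |y| with h | h
      · left; rw [← h]; exact hv
      · right; rw [← h]; exact hv
    rcases hor with h | h
    · rcases abs_eq (by omega : (0 : ℤ) ≤ m) |>.mp h with h' | h'
      · refine ⟨2 * m * 0 + y, ?_⟩
        rw [rc_side hm hy, rt_zero, h']
      · refine ⟨2 * m * 2 + (-y), ?_⟩
        rw [rc_side hm (by rwa [abs_neg]), rt_two, h']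
        exact Prod.ext rfl (neg_neg _)
    · rcases abs_eq (by omega : (0 : ℤ) ≤ m) |>.mp h with h' | h'
      · refine ⟨2 * m * 1 + (-x), ?_⟩
        rw [rc_side hm (by rwa [abs_neg]), rt_one, h']
        exact Prod.ext (neg_neg _) rfl
      · refine ⟨2 * m * 3 + x, ?_⟩
        rw [rc_side hm hx, rt_three, h']
  obtain ⟨i0, hi0⟩ := key
  refine ⟨a + (i0 - a) % (8 * m), ?_, ?_, ?_⟩
  · have := Int.emod_nonneg (i0 - a) (by omega : 8 * m ≠ 0)
    linarith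
  · have := Int.emod_lt_of_pos (i0 - a) (by omega : 0 < 8 * m)
    linarith
  · rw [← rc1_per hm _ ((i0 - a) / (8 * m)), ← hi0]
    congr 1
    have := Int.emod_add_mul_ediv (i0 - a) (8 * m)
    linarith

theorem rc_inj {m i j : ℤ} (hm : 1 ≤ m) (h : rc m i = rc m j) : 8 * m ∣ i - j := by
  obtain ⟨t, k, h1, h2, h3⟩ := rc1_form hm i
  obtain ⟨t', k', h1', h2', h3'⟩ := rc1_form hm j
  rcases h3 with ⟨e, f⟩ | ⟨e, f⟩ | ⟨e, f⟩ | ⟨e, f⟩ <;>
    rcases h3' with ⟨e', f'⟩ | ⟨e', f'⟩ | ⟨e', f'⟩ | ⟨e', f'⟩ <;>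
    rw [f, f', Prod.mk.injEq] at h <;> obtain ⟨g1, g2⟩ := h <;>
    first
      | (exfalso; omega)
      | (refine ⟨t - t', ?_⟩
         have hk : k = k' := by omega
         rw [e, e', hk]; ring)

/-- every index is `2 m s + k` with `|k| ≤ m` -/
theorem idx_side {m : ℤ} (hm : 1 ≤ m) (i : ℤ) : ∃ s k, |k| ≤ m ∧ i = 2 * m * s + k := by
  obtain ⟨s, k, h1, h2, h3⟩ := rc1_idx hm i
  exact ⟨s, k, abs_le.mpr ⟨h1, h2.le⟩, h3⟩

/-- the sites of the ring with indices in `[i, j]` -/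
def arc (m i j : ℤ) : Set Pt := {v | ∃ k, i ≤ k ∧ k ≤ j ∧ rc m k = v}

namespace Lat

variable {L : Lat}

/-- consecutive sites are nearest neighbours -/
theorem rc_adj {m : ℤ} (hm : 1 ≤ m) (i : ℤ) : L.Adj (rc m i) (rc m (i + 1)) := by
  obtain ⟨s, k, h1, h2, h3⟩ := rc1_idx hm i
  have e1 : rc m i = rt s (m, k) := by
    rw [h3]; exact rc_side hm (abs_le.mpr ⟨h1, h2.le⟩)
  have e2 : rc m (i + 1) = rt s (m, k + 1) := by
    rw [h3, show 2 * m * s + k + 1 = 2 * m * s + (k + 1) by ring]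
    exact rc_side hm (abs_le.mpr ⟨by omega, by omega⟩)
  rw [e1, e2]
  apply adj_of_nn
  rcases rc1_rt4 s with h | h | h | h <;> rw [h]
  · rw [rt_zero, rt_zero]
    show |m - m| + |k - (k + 1)| = 1
    rw [show m - m = 0 by ring, show k - (k + 1) = -1 by ring]; rfl
  · rw [rt_one, rt_one]
    show |-k - -(k + 1)| + |m - m| = 1
    rw [show m - m = 0 by ring, show -k - -(k + 1) = 1 by ring]; rfl
  · rw [rt_two, rt_two]
    show |-m - -m| + |-k - -(k + 1)| = 1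
    rw [show -m - -m = 0 by ring, show -k - -(k + 1) = 1 by ring]; rfl
  · rw [rt_three, rt_three]
    show |k - (k + 1)| + |-m - -m| = 1
    rw [show -m - -m = 0 by ring, show k - (k + 1) = -1 by ring]; rfl

theorem con_arc {m : ℤ} (hm : 1 ≤ m) (i j : ℤ) : L.Con (arc m i j) := by
  have key : ∀ n : ℕ, ∀ k : ℤ, i ≤ k → k + n ≤ j → L.Cn (arc m i j) (rc m k) (rc m (k + n)) := by
    intro n
    induction n with
    | zero =>
      intro k h1 h2
      rw [Nat.cast_zero, add_zero] at h2 ⊢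
      exact Cn.refl ⟨k, h1, h2, rfl⟩
    | succ n ih =>
      intro k h1 h2
      rw [Nat.cast_succ, ← add_assoc] at h2 ⊢
      refine (ih k h1 (by omega)).trans ?_
      exact Cn.of_adj ⟨k + n, by omega, by omega, rfl⟩ ⟨k + n + 1, by omega, by omega, rfl⟩
        (rc_adj hm _)
  rintro u ⟨k, h1, h2, rfl⟩ v ⟨k', h1', h2', rfl⟩
  rcases le_total k k' with h | h
  · obtain ⟨n, hn⟩ := Int.eq_ofNat_of_zero_le (sub_nonneg.mpr h)
    have := key n k h1 (by omega)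
    rwa [show k + (n : ℤ) = k' by omega] at this
  · obtain ⟨n, hn⟩ := Int.eq_ofNat_of_zero_le (sub_nonneg.mpr h)
    have := key n k' h1' (by omega)
    rw [show k' + (n : ℤ) = k by omega] at this
    exact this.symm

theorem con_rng {m : ℤ} (hm : 1 ≤ m) : L.Con (rng m) := by
  have e : rng m = arc m 0 (8 * m) := by
    ext v
    constructor
    · intro hv
      obtain ⟨i, h1, h2, h3⟩ := rc_surj hm hv 0
      exact ⟨i, h1, by omega, h3⟩
    · rintro ⟨i, _, _, rfl⟩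
      exact rc_nrm hm
  rw [e]
  exact con_arc hm _ _

private theorem rc1_bp {m : ℤ} (hm : 1 ≤ m) {j : ℤ} (h0 : 0 ≤ j) (h1 : j < 8 * m) :
    bp (-m) m (-m) m j = rc m (5 * m + j) := by
  unfold bp
  split_ifs with a1 a2 a3
  · rw [show 5 * m + j = 2 * m * 3 + (j - m) by ring,
      rc_side hm (abs_le.mpr ⟨by omega, by omega⟩), rt_three]
    refine Prod.ext ?_ ?_ <;> dsimp only <;> omega
  · rw [show 5 * m + j = 2 * m * 4 + (j - 3 * m) by ring,
      rc_side hm (abs_le.mpr ⟨by omega, by omega⟩), rt_mod (s' := 0) (by norm_num), rt_zero]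
    refine Prod.ext ?_ ?_ <;> dsimp only <;> omega
  · rw [show 5 * m + j = 2 * m * 5 + (j - 5 * m) by ring,
      rc_side hm (abs_le.mpr ⟨by omega, by omega⟩), rt_mod (s' := 1) (by norm_num), rt_one]
    refine Prod.ext ?_ ?_ <;> dsimp only <;> omega
  · rw [show 5 * m + j = 2 * m * 6 + (j - 7 * m) by ring,
      rc_side hm (abs_le.mpr ⟨by omega, by omega⟩), rt_mod (s' := 2) (by norm_num), rt_two]
    refine Prod.ext ?_ ?_ <;> dsimp only <;> omega

private theorem rc1_rect {m : ℤ} {P : Set Pt} (hP : P ⊆ bx m) : P ⊆ rect (-m) m (-m) m := by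
  intro v hv
  have h := hP hv
  have h1 : |v.1| ≤ m := (le_max_left _ _).trans h
  have h2 : |v.2| ≤ m := (le_max_right _ _).trans h
  rw [abs_le] at h1 h2
  exact ⟨h1, h2⟩

private theorem rc1_lace {m : ℤ} (hm : 1 ≤ m) {P P' : Set Pt} (hP : L.Con P) (hP' : L.Con P')
    (hPm : P ⊆ bx m) (hPm' : P' ⊆ bx m) {j1 j2 j3 j4 : ℤ} (h0 : 0 ≤ j1) (h12 : j1 < j2)
    (h23 : j2 < j3) (h34 : j3 < j4) (h4 : j4 < 8 * m) (m1 : rc m (5 * m + j1) ∈ P)
    (m3 : rc m (5 * m + j3) ∈ P) (m2 : rc m (5 * m + j2) ∈ P') (m4 : rc m (5 * m + j4) ∈ P') :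
    (P ∩ P').Nonempty := by
  rw [← rc1_bp hm (by omega) (by omega)] at m1 m2 m3 m4
  exact interlace (by omega) (by omega) hP hP' (rc1_rect hPm) (rc1_rect hPm') h0 h12 h23 h34
    (by omega) m1 m3 m2 m4

/-- INTERLACED POINTS of the ring.  `rc m` and `bp (-m) m (-m) m` differ by a shift of the index
(`bp (-m) m (-m) m j = rc m (5 m + j)` for `0 ≤ j < 8 m`), and the cyclic order is what matters: reduce the four
indices modulo `8 m` to the window of `bp`, they are still interlaced up to a cyclic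
permutation of the four points; apply `interlace` to `(P, P')` or `(P', P)`. -/
theorem interlace_rc {m : ℤ} (hm : 1 ≤ m) {P P' : Set Pt} (hP : L.Con P) (hP' : L.Con P')
    (hPm : P ⊆ bx m) (hPm' : P' ⊆ bx m) {i1 i2 i3 i4 : ℤ} (h12 : i1 < i2) (h23 : i2 < i3)
    (h34 : i3 < i4) (h41 : i4 < i1 + 8 * m) (m1 : rc m i1 ∈ P) (m3 : rc m i3 ∈ P)
    (m2 : rc m i2 ∈ P') (m4 : rc m i4 ∈ P') : (P ∩ P').Nonempty := by
  obtain ⟨t, ht⟩ : ∃ t, t = (i1 - 5 * m) / (8 * m) := ⟨_, rfl⟩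
  obtain ⟨T, hT⟩ : ∃ T, T = 8 * m * t := ⟨_, rfl⟩
  have b0 : 0 ≤ i1 - 5 * m - T := by
    have := Int.mul_ediv_self_le (x := i1 - 5 * m) (k := 8 * m) (by omega)
    rw [hT, ht]; linarith
  have b1 : i1 - 5 * m - T < 8 * m := by
    have := Int.lt_mul_ediv_self_add (x := i1 - 5 * m) (k := 8 * m) (by omega)
    rw [hT, ht]; linarith
  have sh : ∀ i, rc m (5 * m + (i - 5 * m - T)) = rc m i := by
    intro i
    rw [← rc1_per hm _ t, ← hT]
    congr 1
    ring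
  have sh' : ∀ i, rc m (5 * m + (i - 5 * m - T - 8 * m)) = rc m i := by
    intro i
    rw [← rc_period hm, ← sh i]
    congr 1
    ring
  by_cases c4 : i4 - 5 * m - T < 8 * m
  · exact rc1_lace hm hP hP' hPm hPm' (j1 := i1 - 5 * m - T) (j2 := i2 - 5 * m - T)
      (j3 := i3 - 5 * m - T) (j4 := i4 - 5 * m - T) b0 (by omega) (by omega) (by omega) c4
      (by rw [sh]; exact m1) (by rw [sh]; exact m3) (by rw [sh]; exact m2) (by rw [sh]; exact m4)
  by_cases c3 : i3 - 5 * m - T < 8 * m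
  · rw [Set.inter_comm]
    exact rc1_lace hm hP' hP hPm' hPm (j1 := i4 - 5 * m - T - 8 * m) (j2 := i1 - 5 * m - T)
      (j3 := i2 - 5 * m - T) (j4 := i3 - 5 * m - T) (by omega) (by omega) (by omega) (by omega) c3
      (by rw [sh']; exact m4) (by rw [sh]; exact m2) (by rw [sh]; exact m1) (by rw [sh]; exact m3)
  by_cases c2 : i2 - 5 * m - T < 8 * m
  · exact rc1_lace hm hP hP' hPm hPm' (j1 := i3 - 5 * m - T - 8 * m)
      (j2 := i4 - 5 * m - T - 8 * m) (j3 := i1 - 5 * m - T) (j4 := i2 - 5 * m - T) (by omega)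
      (by omega) (by omega) (by omega) c2
      (by rw [sh']; exact m3) (by rw [sh]; exact m1) (by rw [sh']; exact m4) (by rw [sh]; exact m2)
  · rw [Set.inter_comm]
    exact rc1_lace hm hP' hP hPm' hPm (j1 := i2 - 5 * m - T - 8 * m)
      (j2 := i3 - 5 * m - T - 8 * m) (j3 := i4 - 5 * m - T - 8 * m) (j4 := i1 - 5 * m - T)
      (by omega) (by omega) (by omega) (by omega) b1
      (by rw [sh']; exact m2) (by rw [sh']; exact m4) (by rw [sh']; exact m3) (by rw [sh]; exact m1)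

private theorem rc1_lip {u v : Pt} (h : L.Adj u v) : |nrm u - nrm v| ≤ 1 := by
  obtain ⟨h1, h2⟩ := h.near
  refine (abs_max_sub_max_le_max _ _ _ _).trans ?_
  refine max_le ((abs_abs_sub_abs_le _ _).trans h1) ((abs_abs_sub_abs_le _ _).trans h2)

private theorem rc1_exit {A S : Set Pt} {u v : Pt} (h : L.Cn A u v) (hu : u ∈ S) :
    L.Cn (A ∩ S) u v ∨ ∃ p q, L.Cn (A ∩ S) u p ∧ L.Adj p q ∧ q ∈ A ∧ q ∉ S := by
  obtain ⟨hu', hp⟩ := h
  induction hp with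
  | refl => exact Or.inl (Cn.refl ⟨hu', hu⟩)
  | @tail x y _ hxy ih =>
    rcases ih with ih | ih
    · by_cases hS : y ∈ S
      · exact Or.inl (ih.trans (Cn.of_adj ih.right ⟨hxy.2, hS⟩ hxy.1))
      · exact Or.inr ⟨x, y, ih, hxy.1, hxy.2, hS⟩
    · exact Or.inr ih

/-- a connected set that leaves a box contains a connected subset of the box with the same starting
site that reaches the ring: version of `Cn.exit` for boxes -/
theorem Cn.to_rng {A : Set Pt} {u v : Pt} {m : ℤ} (h : L.Cn A u v) (hu : nrm u ≤ m)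
    (hv : m ≤ nrm v) : ∃ w, nrm w = m ∧ L.Cn (A ∩ bx m) u w := by
  rcases rc1_exit (S := bx m) h hu with key | ⟨p, q, hc, ha, _, hqS⟩
  · exact ⟨v, le_antisymm key.right.2 hv, key⟩
  · refine ⟨p, ?_, hc⟩
    have h1 : nrm p ≤ m := hc.right.2
    have h2 : ¬ nrm q ≤ m := hqS
    have h3 := abs_le.mp (rc1_lip ha)
    omega

/-- last exit: the part of a path in the annulus `ann r m` -/
theorem Cn.crossing {A : Set Pt} {u v : Pt} {r m : ℤ} (hr : 0 ≤ r) (hrm : r < m) (h : L.Cn A u v)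
    (hu : nrm u ≤ r ∨ u ∈ L.nb (bx r)) (hv : m ≤ nrm v) :
    ∃ p w, p ∈ L.nb (bx r) ∧ nrm w = m ∧ L.Cn (A ∩ ann r m) p w := by
  have hum : nrm u ≤ m := by
    rcases hu with hu | ⟨x, hx, hxu⟩
    · omega
    · have h1 : nrm x ≤ r := hx
      have h2 := abs_le.mp (rc1_lip hxu)
      omega
  obtain ⟨w, hw, hc⟩ := h.to_rng hum hv
  have hwS : w ∈ (bx r)ᶜ := by
    intro hw'
    have : nrm w ≤ r := hw'
    omega
  rcases rc1_exit (S := (bx r)ᶜ) hc.symm hwS with key | ⟨p, q, hc', ha, _, hqS⟩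
  · have huS : u ∉ bx r := key.right.2
    refine ⟨u, w, ?_, hw, key.symm.mono ?_⟩
    · rcases hu with hu | hu
      · exact absurd hu huS
      · exact hu
    · rintro x ⟨⟨x1, x2⟩, x3⟩
      exact ⟨x1, not_le.mp x3, x2⟩
  · refine ⟨p, w, ⟨q, not_not.mp hqS, ha.symm⟩, hw, hc'.symm.mono ?_⟩
    rintro x ⟨⟨x1, x2⟩, x3⟩
    exact ⟨x1, not_le.mp x3, x2⟩

end Lat

end SC

end

/-! ### from `Lib_MP_e0a489.IS1` -/

section

/-!
# MP_e0a489, inner separation 1: the outer zones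
-/

set_option autoImplicit false

namespace SC

open Classical

/-- the outer region for the arms of colour `c`: everything in `bx (2R+1) \ bx R` except the zones of colour `c` -/
def Outc (c : Bool) (R : ℤ) : Set Pt := bx (2 * R + 1) \ (bx R ∪ Jc c R)

private theorem is1_le {v : Pt} {r : ℤ} :
    nrm v ≤ r ↔ (-r ≤ v.1 ∧ v.1 ≤ r) ∧ (-r ≤ v.2 ∧ v.2 ≤ r) := by
  unfold nrm
  rw [max_le_iff, abs_le, abs_le]

private theorem is1_nrm {a y : ℤ} (h : |y| ≤ a) : nrm (a, y) = a := by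
  have h0 : 0 ≤ a := le_trans (abs_nonneg y) h
  show max |a| |y| = a
  rw [abs_of_nonneg h0]
  exact max_eq_left h

private theorem is1_J0 {R : ℤ} {a b : ℤ} {v : Pt} : v ∈ rt 0 '' rect a b (-(R / 4)) (R / 4) ↔
    (a ≤ v.1 ∧ v.1 ≤ b) ∧ -(R / 4) ≤ v.2 ∧ v.2 ≤ R / 4 := by
  constructor
  · rintro ⟨u, hu, rfl⟩
    rw [rt_zero]
    exact hu
  · intro h
    exact ⟨v, h, rt_zero v⟩

private theorem is1_J1 {R : ℤ} {a b : ℤ} {v : Pt} : v ∈ rt 1 '' rect a b (-(R / 4)) (R / 4) ↔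
    (a ≤ v.2 ∧ v.2 ≤ b) ∧ -(R / 4) ≤ v.1 ∧ v.1 ≤ R / 4 := by
  constructor
  · rintro ⟨u, ⟨h1, h2⟩, rfl⟩
    rw [rt_one]
    refine ⟨h1, ?_, ?_⟩
    · show -(R / 4) ≤ -u.2
      omega
    · show -u.2 ≤ R / 4
      omega
  · rintro ⟨h1, h2⟩
    refine ⟨(v.2, -v.1), ⟨h1, ?_, ?_⟩, ?_⟩
    · show -(R / 4) ≤ -v.1
      omega
    · show -v.1 ≤ R / 4
      omega
    · rw [rt_one]
      simp

private theorem is1_J2 {R : ℤ} {a b : ℤ} {v : Pt} : v ∈ rt 2 '' rect a b (-(R / 4)) (R / 4) ↔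
    (-b ≤ v.1 ∧ v.1 ≤ -a) ∧ -(R / 4) ≤ v.2 ∧ v.2 ≤ R / 4 := by
  constructor
  · rintro ⟨u, ⟨h1, h2⟩, rfl⟩
    rw [rt_two]
    refine ⟨⟨?_, ?_⟩, ?_, ?_⟩
    · show -b ≤ -u.1
      omega
    · show -u.1 ≤ -a
      omega
    · show -(R / 4) ≤ -u.2
      omega
    · show -u.2 ≤ R / 4
      omega
  · rintro ⟨h1, h2⟩
    refine ⟨(-v.1, -v.2), ⟨⟨?_, ?_⟩, ?_, ?_⟩, ?_⟩
    · show a ≤ -v.1
      omega
    · show -v.1 ≤ b
      omega
    · show -(R / 4) ≤ -v.2
      omega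
    · show -v.2 ≤ R / 4
      omega
    · rw [rt_two]
      simp

private theorem is1_J3 {R : ℤ} {a b : ℤ} {v : Pt} : v ∈ rt 3 '' rect a b (-(R / 4)) (R / 4) ↔
    (-b ≤ v.2 ∧ v.2 ≤ -a) ∧ -(R / 4) ≤ v.1 ∧ v.1 ≤ R / 4 := by
  constructor
  · rintro ⟨u, ⟨h1, h2⟩, rfl⟩
    rw [rt_three]
    refine ⟨⟨?_, ?_⟩, ?_, ?_⟩
    · show -b ≤ -u.1
      omega
    · show -u.1 ≤ -a
      omega
    · show -(R / 4) ≤ u.2
      omega
    · show u.2 ≤ R / 4
      omega
  · rintro ⟨h1, h2⟩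
    refine ⟨(-v.2, v.1), ⟨⟨?_, ?_⟩, ?_, ?_⟩, ?_⟩
    · show a ≤ -v.2
      omega
    · show -v.2 ≤ b
      omega
    · show -(R / 4) ≤ v.1
      omega
    · show v.1 ≤ R / 4
      omega
    · rw [rt_three]
      simp

private theorem is1_JT {R : ℤ} {v : Pt} : v ∈ Jc true R ↔
    ((R + 1 ≤ v.1 ∧ v.1 ≤ 2 * R) ∧ -(R / 4) ≤ v.2 ∧ v.2 ≤ R / 4) ∨
    ((-(2 * R) ≤ v.1 ∧ v.1 ≤ -(R + 1)) ∧ -(R / 4) ≤ v.2 ∧ v.2 ≤ R / 4) := by
  have e : Jc true R = (rt 0 '' rect (R + 1) (2 * R) (-(R / 4)) (R / 4)) ∪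
      (rt 2 '' rect (R + 1) (2 * R) (-(R / 4)) (R / 4)) := by
    simp [Jc, J, dc]
  rw [e, Set.mem_union, is1_J0, is1_J2]

private theorem is1_JF {R : ℤ} {v : Pt} : v ∈ Jc false R ↔
    ((R + 1 ≤ v.2 ∧ v.2 ≤ 2 * R) ∧ -(R / 4) ≤ v.1 ∧ v.1 ≤ R / 4) ∨
    ((-(2 * R) ≤ v.2 ∧ v.2 ≤ -(R + 1)) ∧ -(R / 4) ≤ v.1 ∧ v.1 ≤ R / 4) := by
  have e : Jc false R = (rt 1 '' rect (R + 1) (2 * R) (-(R / 4)) (R / 4)) ∪
      (rt 3 '' rect (R + 1) (2 * R) (-(R / 4)) (R / 4)) := by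
    simp [Jc, J, dc]
  rw [e, Set.mem_union, is1_J1, is1_J3]

private theorem is1_out {c : Bool} {R : ℤ} {v : Pt} : v ∈ Outc c R ↔
    nrm v ≤ 2 * R + 1 ∧ R < nrm v ∧ v ∉ Jc c R := by
  constructor
  · rintro ⟨h1, h2⟩
    refine ⟨h1, ?_, fun h => h2 (Or.inr h)⟩
    by_contra h
    exact h2 (Or.inl (not_lt.1 h))
  · rintro ⟨h1, h2, h3⟩
    refine ⟨h1, ?_⟩
    rintro (h | h)
    · exact absurd (show nrm v ≤ R from h) (not_le.2 h2)
    · exact h3 h

/-- norms of the sites of `J s R` (`nrm_rt`) -/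
theorem J_nrm {s R : ℤ} (hR : 0 ≤ R) {v : Pt} (hv : v ∈ J s R) : R < nrm v ∧ nrm v ≤ 2 * R := by
  obtain ⟨u, ⟨h1, h2⟩, rfl⟩ := hv
  rw [nrm_rt]
  obtain ⟨x, y⟩ := u
  simp only at h1 h2
  rw [is1_nrm (by rw [abs_le]; omega)]
  omega

theorem Jc_sub_ann {c : Bool} {R : ℤ} (hR : 0 ≤ R) : Jc c R ⊆ ann R (2 * R) := by
  rintro v (h | h)
  · exact J_nrm hR h
  · exact J_nrm hR h

theorem Je_nrm {s R : ℤ} (hR : 1 ≤ R) {v : Pt} (hv : v ∈ Je s R) : nrm v = 2 * R := by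
  obtain ⟨u, ⟨h1, h2⟩, rfl⟩ := hv
  rw [nrm_rt]
  obtain ⟨x, y⟩ := u
  simp only at h1 h2
  rw [is1_nrm (by rw [abs_le]; omega)]
  omega

/-- `Je d R ⊆ J d R ⊆ Jc c R` for the two directions of the colour `c` -/
theorem Je_sub_Jc {c : Bool} {d R : ℤ} (hR : 1 ≤ R) (hd : d = dc c ∨ d = dc c + 2) :
    Je d R ⊆ Jc c R := by
  have h : Je d R ⊆ J d R := by
    rintro v ⟨u, ⟨h1, h2⟩, rfl⟩
    exact ⟨u, ⟨⟨by omega, by omega⟩, h2⟩, rfl⟩
  rcases hd with rfl | rfl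
  · exact fun v hv => Or.inl (h hv)
  · exact fun v hv => Or.inr (h hv)

/-- the zones of the two colours are disjoint -/
theorem Jc_sub_Outc {c : Bool} {R : ℤ} (hR : 0 ≤ R) : Jc (!c) R ⊆ Outc c R := by
  intro v hv
  have h1 := Jc_sub_ann hR hv
  have h2 : R < nrm v := h1.1
  have h3 : nrm v ≤ 2 * R := h1.2
  rw [is1_out]
  refine ⟨by omega, h2, ?_⟩
  cases c
  · have hv' : v ∈ Jc true R := hv
    rw [is1_JT] at hv'
    rw [is1_JF]
    omega
  · have hv' : v ∈ Jc false R := hv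
    rw [is1_JF] at hv'
    rw [is1_JT]
    omega

theorem rng_sub_Outc {c : Bool} {R : ℤ} (hR : 0 ≤ R) : rng (2 * R + 1) ⊆ Outc c R := by
  intro v hv
  have h1 : nrm v = 2 * R + 1 := hv
  rw [is1_out]
  refine ⟨by omega, by omega, fun h => ?_⟩
  have h2 : nrm v ≤ 2 * R := (Jc_sub_ann hR h).2
  omega

theorem Outc_sub {c : Bool} {r R : ℤ} (hrR : r ≤ R) : Outc c R ⊆ ann r (2 * R + 1) := by
  intro v hv
  rw [is1_out] at hv
  exact ⟨by omega, hv.1⟩

/-- the part of the annulus `ann r (2R+1)` that is not in `Outc c R` -/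
theorem ann_diff_Outc {c : Bool} {r R : ℤ} (hR : 0 ≤ R) (hrR : r ≤ R) :
    ann r (2 * R + 1) \ Outc c R = ann r R ∪ Jc c R := by
  ext v
  constructor
  · rintro ⟨⟨h1, h2⟩, h3⟩
    rw [is1_out] at h3
    by_cases h4 : nrm v ≤ R
    · exact Or.inl ⟨h1, h4⟩
    · right
      by_contra h5
      exact h3 ⟨h2, by omega, h5⟩
  · rintro (⟨h1, h2⟩ | h)
    · refine ⟨⟨h1, by omega⟩, ?_⟩
      rw [is1_out]
      omega
    · have h1 := Jc_sub_ann hR h
      have h2 : R < nrm v := h1.1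
      have h3 : nrm v ≤ 2 * R := h1.2
      refine ⟨⟨by omega, by omega⟩, ?_⟩
      rw [is1_out]
      exact fun h4 => h4.2.2 h

/-- coordinates and directions of the ends -/
theorem Je_coord {R : ℤ} {v : Pt} : (v ∈ Je 0 R → v.1 = 2 * R) ∧ (v ∈ Je 1 R → v.2 = 2 * R) ∧
    (v ∈ Je 2 R → v.1 = -(2 * R)) ∧ (v ∈ Je 3 R → v.2 = -(2 * R)) := by
  refine ⟨?_, ?_, ?_, ?_⟩
  · intro h
    have h' := (is1_J0 (R := R) (a := 2 * R) (b := 2 * R)).1 h
    omega
  · intro h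
    have h' := (is1_J1 (R := R) (a := 2 * R) (b := 2 * R)).1 h
    omega
  · intro h
    have h' := (is1_J2 (R := R) (a := 2 * R) (b := 2 * R)).1 h
    omega
  · intro h
    have h' := (is1_J3 (R := R) (a := 2 * R) (b := 2 * R)).1 h
    omega

namespace Lat

variable {L : Lat}

/-- the ends of the zones are next to the ring `2R+1` -/
theorem Je_nb {s R : ℤ} (hR : 1 ≤ R) {v : Pt} (hv : v ∈ Je s R) :
    v ∈ L.nb (rng (2 * R + 1)) := by
  obtain ⟨⟨x, y⟩, ⟨h1, h2⟩, rfl⟩ := hv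
  simp only at h1 h2
  have hx : x = 2 * R := by omega
  subst hx
  refine ⟨rt s (2 * R + 1, y), ?_, ?_⟩
  · show nrm (rt s (2 * R + 1, y)) = 2 * R + 1
    rw [nrm_rt, is1_nrm (by rw [abs_le]; omega)]
  · exact (((tr_rots L s).adj (2 * R, y) (2 * R + 1, y)).1 (adj_right (2 * R, y))).symm

/-- `Outc c R` is connected: a site `rt s (x, y)` with `|y| ≤ x`, `R < x ≤ 2R+1` is joined to the ring `2R+1` by the path
`rt s (x', y)`, `x ≤ x' ≤ 2R+1`, which does not meet the zones (a zone `J s' R` contains `rt s (x', y)` with `|y| ≤ x'`,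
`x' > R`, only if `s' = s` modulo 4 and `|y| ≤ R/4`, `x' ≤ 2R`; but then it would contain `rt s (x, y)`); the ring is
connected (`con_rng`). -/
theorem con_Outc {c : Bool} {R : ℤ} (hR : 1 ≤ R) : L.Con (Outc c R) := by
  have step : ∀ v ∈ Outc c R, nrm v < 2 * R + 1 →
      ∃ w ∈ Outc c R, L.Adj v w ∧ nrm w = nrm v + 1 := by
    intro v hv hlt
    rw [is1_out] at hv
    obtain ⟨h1, h2, h3⟩ := hv
    obtain ⟨x, y⟩ := v
    have key : ∀ w : Pt, |w.1 - x| + |w.2 - y| = 1 → nrm w = nrm (x, y) + 1 →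
        w ∉ Jc c R → ∃ w ∈ Outc c R, L.Adj (x, y) w ∧ nrm w = nrm (x, y) + 1 := by
      intro w ha hn hj
      refine ⟨w, ?_, adj_of_nn ?_, hn⟩
      · rw [is1_out]
        exact ⟨by omega, by omega, hj⟩
      · show |x - w.1| + |y - w.2| = 1
        rw [abs_sub_comm x, abs_sub_comm y]
        exact ha
    have hxy : nrm (x, y) = max |x| |y| := rfl
    rcases le_total |y| |x| with hyx | hxy'
    · have e : nrm (x, y) = |x| := by rw [hxy, max_eq_left hyx]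
      rcases abs_cases x with ⟨ex, hx0⟩ | ⟨ex, hx0⟩
      · refine key (x + 1, y) (by simp) ?_ ?_
        · show max |x + 1| |y| = _
          rw [e, max_eq_left (by rw [abs_of_nonneg (by omega : 0 ≤ x + 1)]; omega),
            abs_of_nonneg (by omega : 0 ≤ x + 1), ex]
        · cases c
          · rw [is1_JF] at h3 ⊢
            simp only at h3 ⊢
            have := abs_le.1 (hyx.trans_eq ex)
            omega
          · rw [is1_JT] at h3 ⊢
            simp only at h3 ⊢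
            omega
      · refine key (x - 1, y) (by simp) ?_ ?_
        · show max |x - 1| |y| = _
          rw [e, max_eq_left (by rw [abs_of_nonpos (by omega : x - 1 ≤ 0)]; omega),
            abs_of_nonpos (by omega : x - 1 ≤ 0), ex]
          ring
        · cases c
          · rw [is1_JF] at h3 ⊢
            simp only at h3 ⊢
            have := abs_le.1 (hyx.trans_eq ex)
            omega
          · rw [is1_JT] at h3 ⊢
            simp only at h3 ⊢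
            omega
    · have e : nrm (x, y) = |y| := by rw [hxy, max_eq_right hxy']
      rcases abs_cases y with ⟨ey, hy0⟩ | ⟨ey, hy0⟩
      · refine key (x, y + 1) (by simp) ?_ ?_
        · show max |x| |y + 1| = _
          rw [e, max_eq_right (by rw [abs_of_nonneg (by omega : 0 ≤ y + 1)]; omega),
            abs_of_nonneg (by omega : 0 ≤ y + 1), ey]
        · cases c
          · rw [is1_JF] at h3 ⊢
            simp only at h3 ⊢
            omega
          · rw [is1_JT] at h3 ⊢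
            simp only at h3 ⊢
            have := abs_le.1 (hxy'.trans_eq ey)
            omega
      · refine key (x, y - 1) (by simp) ?_ ?_
        · show max |x| |y - 1| = _
          rw [e, max_eq_right (by rw [abs_of_nonpos (by omega : y - 1 ≤ 0)]; omega),
            abs_of_nonpos (by omega : y - 1 ≤ 0), ey]
          ring
        · cases c
          · rw [is1_JF] at h3 ⊢
            simp only at h3 ⊢
            omega
          · rw [is1_JT] at h3 ⊢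
            simp only at h3 ⊢
            have := abs_le.1 (hxy'.trans_eq ey)
            omega
  have up : ∀ (n : ℕ) (v : Pt), v ∈ Outc c R → nrm v + n = 2 * R + 1 →
      ∃ w ∈ rng (2 * R + 1), L.Cn (Outc c R) v w := by
    intro n
    induction n with
    | zero =>
      intro v hv hn
      refine ⟨v, ?_, Cn.refl hv⟩
      show nrm v = 2 * R + 1
      simpa using hn
    | succ n ih =>
      intro v hv hn
      push_cast at hn
      obtain ⟨w, hw, hadj, hnw⟩ := step v hv (by omega)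
      obtain ⟨z, hz, hc⟩ := ih w hw (by omega)
      exact ⟨z, hz, (Cn.of_adj hv hw hadj).trans hc⟩
  have ring : L.Con (rng (2 * R + 1)) := con_rng (by omega)
  intro u hu v hv
  have hu' := is1_out.1 hu
  have hv' := is1_out.1 hv
  obtain ⟨w, hw, hc⟩ := up (2 * R + 1 - nrm u).toNat u hu (by omega)
  obtain ⟨w', hw', hc'⟩ := up (2 * R + 1 - nrm v).toNat v hv (by omega)
  exact (hc.trans ((ring w hw w' hw').mono (rng_sub_Outc (by omega)))).trans hc'.symm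

end Lat

end SC

end

/-! ### from `Lib_MP_e0a489.RC2` -/

section

/-!
# MP_e0a489, rings 2: blocks next to a ring, cells, exactness of domains with blocks

`w` is odd, `h = w / 2`, `R = M w + h`, so `bx R` is the union of the blocks `blk w z`, `|z| ≤ M`.  The outer block
`ob w M s k` (`|k| ≤ M`) touches the ring `R` in the cell `k` of the side `s`, the inner block
`ib w M s k` (`|k| < M`) is in `bx R` and touches the ring `R + 1` there.  `trip w m s k`: the three cells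
`k-1, k, k+1` of the side `s` of the ring `m` (`m = R` or `m = R + 1`).
-/

set_option autoImplicit false

namespace SC

open Classical

def ob (w M s k : ℤ) : Set Pt := blk w (rt s (M + 1, k))

def ib (w M s k : ℤ) : Set Pt := blk w (rt s (M, k))

def trip (w m s k : ℤ) : Set Pt :=
  arc m (2 * m * s + (k - 1) * w - w / 2) (2 * m * s + (k + 1) * w + w / 2)


/-- the four rotations -/
private theorem RC2_rt4 (s : ℤ) :
    (∀ v, rt s v = v ∧ (rt s).symm v = v) ∨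
    (∀ v, rt s v = (-v.2, v.1) ∧ (rt s).symm v = (v.2, -v.1)) ∨
    (∀ v, rt s v = (-v.1, -v.2) ∧ (rt s).symm v = (-v.1, -v.2)) ∨
    (∀ v, rt s v = (v.2, -v.1) ∧ (rt s).symm v = (-v.2, v.1)) := by
  have h : s % 4 = 0 ∨ s % 4 = 1 ∨ s % 4 = 2 ∨ s % 4 = 3 := by omega
  rcases h with h | h | h | h
  · left
    intro v
    have e : rt s = rt 0 := rt_mod (by omega)
    rw [e]
    refine ⟨rt_zero v, ?_⟩
    rw [Equiv.symm_apply_eq, rt_zero]
  · right; left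
    intro v
    have e : rt s = rt 1 := rt_mod (by omega)
    rw [e]
    refine ⟨rt_one v, ?_⟩
    rw [Equiv.symm_apply_eq, rt_one]
    simp
  · right; right; left
    intro v
    have e : rt s = rt 2 := rt_mod (by omega)
    rw [e]
    refine ⟨rt_two v, ?_⟩
    rw [Equiv.symm_apply_eq, rt_two]
    simp
  · right; right; right
    intro v
    have e : rt s = rt 3 := rt_mod (by omega)
    rw [e]
    refine ⟨rt_three v, ?_⟩
    rw [Equiv.symm_apply_eq, rt_three]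
    simp

private theorem RC2_mem (s : ℤ) (A : Set Pt) (v : Pt) : v ∈ rt s '' A ↔ (rt s).symm v ∈ A :=
  Set.mem_image_equiv

/-- the image of a rectangle is a rectangle -/
private theorem RC2_img (s a b c d : ℤ) : ∃ a' b' c' d', rt s '' rect a b c d = rect a' b' c' d' := by
  rcases RC2_rt4 s with h | h | h | h
  · refine ⟨a, b, c, d, ?_⟩
    ext v
    rw [RC2_mem, (h v).2]
  · refine ⟨-d, -c, a, b, ?_⟩
    ext v
    rw [RC2_mem, (h v).2]
    simp only [rect, Set.mem_setOf_eq]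
    omega
  · refine ⟨-b, -a, -d, -c, ?_⟩
    ext v
    rw [RC2_mem, (h v).2]
    simp only [rect, Set.mem_setOf_eq]
    omega
  · refine ⟨c, d, -b, -a, ?_⟩
    ext v
    rw [RC2_mem, (h v).2]
    simp only [rect, Set.mem_setOf_eq]
    omega

/-- rotations preserve nearness -/
private theorem RC2_near {s : ℤ} {u v : Pt} (h : |(rt s u).1 - (rt s v).1| ≤ 1 ∧
    |(rt s u).2 - (rt s v).2| ≤ 1) : |u.1 - v.1| ≤ 1 ∧ |u.2 - v.2| ≤ 1 := by
  rcases RC2_rt4 s with k | k | k | k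
  · rw [(k u).1, (k v).1] at h
    exact h
  all_goals
    rw [(k u).1, (k v).1] at h
    obtain ⟨h1, h2⟩ := h
    rw [abs_le] at h1 h2
    constructor <;> rw [abs_le] <;> constructor <;> simp only at h1 h2 <;> omega

/-- rotations preserve nearest neighbours -/
private theorem RC2_nn {s : ℤ} {u v : Pt} (h : |u.1 - v.1| + |u.2 - v.2| = 1) :
    |(rt s u).1 - (rt s v).1| + |(rt s u).2 - (rt s v).2| = 1 := by
  rcases RC2_rt4 s with k | k | k | k
  · rw [(k u).1, (k v).1]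
    exact h
  · rw [(k u).1, (k v).1]
    simp only
    rw [show -u.2 - -v.2 = -(u.2 - v.2) by ring, abs_neg, add_comm]
    exact h
  · rw [(k u).1, (k v).1]
    simp only
    rw [show -u.1 - -v.1 = -(u.1 - v.1) by ring, show -u.2 - -v.2 = -(u.2 - v.2) by ring, abs_neg,
      abs_neg]
    exact h
  · rw [(k u).1, (k v).1]
    simp only
    rw [show -u.1 - -v.1 = -(u.1 - v.1) by ring, abs_neg, add_comm]
    exact h

theorem rt_rect_blk {w : ℤ} (hw : w % 2 = 1) (hw0 : 0 < w) (s : ℤ) (z : Pt) :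
    rt s '' blk w z = blk w (rt s z) := by
  ext v
  rw [RC2_mem]
  rcases RC2_rt4 s with h | h | h | h
  · rw [(h v).2, (h z).1]
  all_goals
    rw [(h v).2, (h z).1]
    simp only [blk, rect, Set.mem_setOf_eq, neg_mul]
    omega

theorem ob_eq {w : ℤ} (hw : w % 2 = 1) (hw0 : 0 < w) (M s k : ℤ) :
    ob w M s k = rt s '' rect (M * w + w / 2 + 1) (M * w + w / 2 + w) (k * w - w / 2)
      (k * w + w / 2) := by
  have e : rect (M * w + w / 2 + 1) (M * w + w / 2 + w) (k * w - w / 2) (k * w + w / 2) =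
      blk w (M + 1, k) := by
    ext v
    simp only [blk, rect, Set.mem_setOf_eq, add_mul, one_mul]
    omega
  rw [e, rt_rect_blk hw hw0]
  rfl

theorem ib_eq {w : ℤ} (hw : w % 2 = 1) (hw0 : 0 < w) (M s k : ℤ) :
    ib w M s k = rt s '' rect (M * w - w / 2) (M * w + w / 2) (k * w - w / 2)
      (k * w + w / 2) := by
  have e : rect (M * w - w / 2) (M * w + w / 2) (k * w - w / 2) (k * w + w / 2) =
      blk w (M, k) := rfl
  rw [e, rt_rect_blk hw hw0]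
  rfl

private theorem RC2_div {w x y v : ℤ} (hw0 : 0 < w) (h1 : x * w - w / 2 ≤ v) (h2 : v ≤ x * w + w / 2)
    (h3 : y * w - w / 2 ≤ v) (h4 : v ≤ y * w + w / 2) (hw : w % 2 = 1) : x = y := by
  have hh : 2 * (w / 2) + 1 = w := by omega
  rcases lt_trichotomy x y with h | h | h
  · exfalso
    have : (x + 1) * w ≤ y * w := mul_le_mul_of_nonneg_right (by omega) hw0.le
    rw [add_mul, one_mul] at this
    omega
  · exact h
  · exfalso
    have : (y + 1) * w ≤ x * w := mul_le_mul_of_nonneg_right (by omega) hw0.le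
    rw [add_mul, one_mul] at this
    omega

theorem blk_disj {w : ℤ} (hw : w % 2 = 1) (hw0 : 0 < w) {z z' : Pt} (h : z ≠ z') :
    Disjoint (blk w z) (blk w z') := by
  rw [Set.disjoint_left]
  rintro v ⟨⟨a1, a2⟩, a3, a4⟩ ⟨⟨b1, b2⟩, b3, b4⟩
  exact h (Prod.ext (RC2_div hw0 a1 a2 b1 b2 hw) (RC2_div hw0 a3 a4 b3 b4 hw))

theorem bx_blk {w : ℤ} (hw : w % 2 = 1) (hw0 : 0 < w) {M : ℤ} (v : Pt) :
    v ∈ bx (M * w + w / 2) ↔ ∃ z, nrm z ≤ M ∧ v ∈ blk w z := by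
  have hh : 2 * (w / 2) + 1 = w := by omega
  have key : ∀ x : ℤ, |x| ≤ M * w + w / 2 → |(x + w / 2) / w| ≤ M ∧
      (x + w / 2) / w * w - w / 2 ≤ x ∧ x ≤ (x + w / 2) / w * w + w / 2 := by
    intro x hx
    rw [abs_le] at hx
    have h1 := Int.mul_ediv_add_emod (x + w / 2) w
    have h2 := Int.emod_nonneg (x + w / 2) hw0.ne'
    have h3 := Int.emod_lt_of_pos (x + w / 2) hw0
    rw [mul_comm] at h1
    generalize (x + w / 2) / w = q at *
    refine ⟨?_, by omega, by omega⟩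
    rw [abs_le]
    constructor
    · by_contra hc
      have : (q + 1) * w ≤ (-M) * w := mul_le_mul_of_nonneg_right (by omega) hw0.le
      rw [add_mul, one_mul, neg_mul] at this
      omega
    · by_contra hc
      have : (M + 1) * w ≤ q * w := mul_le_mul_of_nonneg_right (by omega) hw0.le
      rw [add_mul, one_mul] at this
      omega
  have key2 : ∀ x q : ℤ, |q| ≤ M → q * w - w / 2 ≤ x → x ≤ q * w + w / 2 →
      |x| ≤ M * w + w / 2 := by
    intro x q hq h1 h2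
    rw [abs_le] at hq ⊢
    have h3 : q * w ≤ M * w := mul_le_mul_of_nonneg_right hq.2 hw0.le
    have h4 : (-M) * w ≤ q * w := mul_le_mul_of_nonneg_right hq.1 hw0.le
    rw [neg_mul] at h4
    omega
  constructor
  · intro hv
    have hv' : max |v.1| |v.2| ≤ M * w + w / 2 := hv
    rw [max_le_iff] at hv'
    obtain ⟨a1, a2, a3⟩ := key v.1 hv'.1
    obtain ⟨b1, b2, b3⟩ := key v.2 hv'.2
    exact ⟨((v.1 + w / 2) / w, (v.2 + w / 2) / w), max_le a1 b1, ⟨a2, a3⟩, b2, b3⟩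
  · rintro ⟨z, hz, ⟨a2, a3⟩, b2, b3⟩
    have hz' : max |z.1| |z.2| ≤ M := hz
    rw [max_le_iff] at hz'
    exact max_le (key2 _ _ hz'.1 a2 a3) (key2 _ _ hz'.2 b2 b3)

/-- GOOD CELL LEMMA (arithmetic).  `Z` is a set of indices of the ring `m`, `z = 2 m s + y` an index not
in `Z`, far from the corners.  If `Z` does not have elements on both sides of `z` within distance `6 w`,
there are three consecutive cells of the side `s` without element of `Z`, connected to `z` by an interval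
without element of `Z`, contained in `[z - 6w, z + 6w]`; moreover the middle cell is not the cell `0`.
(If there is no element in `[z, z + 6w]`: let `k₁` be the smallest number with `k₁ w - w/2 ≥ y`; the cells
`k₁, ..., k₁ + 4` are contained in `[y, y + 6w]`; choose `k ∈ {k₁ + 1, k₁ + 2}`, `k ≠ 0`.) -/
theorem good_cell {w m : ℤ} (hw : w % 2 = 1) (hw0 : 0 < w) {Z : Set ℤ} {s y : ℤ}
    (hy : |y| + 8 * w ≤ m) (hz : 2 * m * s + y ∉ Z)
    (h : ¬ ((∃ i ∈ Z, 2 * m * s + y - 6 * w ≤ i ∧ i < 2 * m * s + y) ∧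
      ∃ j ∈ Z, 2 * m * s + y < j ∧ j ≤ 2 * m * s + y + 6 * w)) :
    ∃ k, k ≠ 0 ∧ y - 6 * w ≤ (k - 1) * w - w / 2 ∧ (k + 1) * w + w / 2 ≤ y + 6 * w ∧
      ∀ i ∈ Z, ¬ (min (2 * m * s + y) (2 * m * s + (k - 1) * w - w / 2) ≤ i ∧
        i ≤ max (2 * m * s + y) (2 * m * s + (k + 1) * w + w / 2)) := by
  have hh : 2 * (w / 2) + 1 = w := by omega
  by_cases hr : ∃ j ∈ Z, 2 * m * s + y < j ∧ j ≤ 2 * m * s + y + 6 * w
  · -- nothing on the left
    have hl : ∀ i ∈ Z, 2 * m * s + y - 6 * w ≤ i → i < 2 * m * s + y → False := by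
      intro i hi h1 h2
      exact h ⟨⟨i, hi, h1, h2⟩, hr⟩
    -- largest `q` with `q w + w/2 ≤ y`
    have h1 := Int.mul_ediv_add_emod (y - w / 2) w
    have h2 := Int.emod_nonneg (y - w / 2) hw0.ne'
    have h3 := Int.emod_lt_of_pos (y - w / 2) hw0
    rw [mul_comm] at h1
    generalize (y - w / 2) / w = q at *
    obtain ⟨k, hk0, hk⟩ : ∃ k : ℤ, k ≠ 0 ∧ (k = q - 1 ∨ k = q - 2) := by
      by_cases hq : q = 1
      · exact ⟨q - 2, by omega, Or.inr rfl⟩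
      · exact ⟨q - 1, by omega, Or.inl rfl⟩
    have e1 : (k - 1) * w = k * w - w := by ring
    have e2 : (k + 1) * w = k * w + w := by ring
    have e3 : k * w = q * w - w ∨ k * w = q * w - 2 * w := by
      rcases hk with hk | hk
      · left
        rw [hk]
        ring
      · right
        rw [hk]
        ring
    refine ⟨k, hk0, by rw [e1]; omega, by rw [e2]; omega, ?_⟩
    rintro i hi ⟨i1, i2⟩
    rw [e1] at i1
    rw [e2] at i2
    have i3 : i ≠ 2 * m * s + y := fun hne => hz (hne ▸ hi)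
    rw [min_le_iff] at i1
    rw [le_max_iff] at i2
    generalize 2 * m * s = b at *
    exact hl i hi (by omega) (by omega)
  · have hl : ∀ j ∈ Z, 2 * m * s + y < j → j ≤ 2 * m * s + y + 6 * w → False := by
      intro j hj h1 h2
      exact hr ⟨j, hj, h1, h2⟩
    -- smallest `q + 1` with `(q + 1) w - w/2 ≥ y`
    have h1 := Int.mul_ediv_add_emod (y + w / 2 - 1) w
    have h2 := Int.emod_nonneg (y + w / 2 - 1) hw0.ne'
    have h3 := Int.emod_lt_of_pos (y + w / 2 - 1) hw0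
    rw [mul_comm] at h1
    generalize (y + w / 2 - 1) / w = q at *
    obtain ⟨k, hk0, hk⟩ : ∃ k : ℤ, k ≠ 0 ∧ (k = q + 2 ∨ k = q + 3) := by
      by_cases hq : q = -2
      · exact ⟨q + 3, by omega, Or.inr rfl⟩
      · exact ⟨q + 2, by omega, Or.inl rfl⟩
    have e1 : (k - 1) * w = k * w - w := by ring
    have e2 : (k + 1) * w = k * w + w := by ring
    have e3 : k * w = q * w + 2 * w ∨ k * w = q * w + 3 * w := by
      rcases hk with hk | hk
      · left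
        rw [hk]
        ring
      · right
        rw [hk]
        ring
    refine ⟨k, hk0, by rw [e1]; omega, by rw [e2]; omega, ?_⟩
    rintro i hi ⟨i1, i2⟩
    rw [e1] at i1
    rw [e2] at i2
    have i3 : i ≠ 2 * m * s + y := fun hne => hz (hne ▸ hi)
    rw [min_le_iff] at i1
    rw [le_max_iff] at i2
    generalize 2 * m * s = b at *
    exact hl i hi (by omega) (by omega)

namespace Lat

variable {L : Lat}

/-- neighbours in `bx R` of an outer block lie in the three cells -/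
theorem ob_adj {w : ℤ} (hw : w % 2 = 1) (hw0 : 0 < w) {M s k : ℤ} (hM : 1 ≤ M) (hk : |k| < M)
    {u v : Pt} (hu : u ∈ ob w M s k) (hv : v ∈ bx (M * w + w / 2)) (h : L.Adj u v) :
    v ∈ trip w (M * w + w / 2) s k := by
  have hh : 2 * (w / 2) + 1 = w := by omega
  rw [ob_eq hw hw0] at hu
  obtain ⟨u', ⟨⟨a1, a2⟩, a3, a4⟩, rfl⟩ := hu
  obtain ⟨v', rfl⟩ := (rt s).surjective v
  have hn := RC2_near h.near
  rw [abs_le, abs_le] at hn
  obtain ⟨⟨n1, n2⟩, n3, n4⟩ := hn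
  have hv' : nrm v' ≤ M * w + w / 2 := by
    have : nrm (rt s v') ≤ M * w + w / 2 := hv
    rwa [nrm_rt] at this
  have hv2 : max |v'.1| |v'.2| ≤ M * w + w / 2 := hv'
  rw [max_le_iff, abs_le, abs_le] at hv2
  have e1 : (k - 1) * w = k * w - w := by ring
  have e2 : (k + 1) * w = k * w + w := by ring
  have e3 : 1 * w ≤ M * w := mul_le_mul_of_nonneg_right hM hw0.le
  have hx : v' = (M * w + w / 2, v'.2) := Prod.ext (by simp only; omega) rfl
  refine ⟨2 * (M * w + w / 2) * s + v'.2, ?_, ?_, ?_⟩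
  · rw [e1]
    generalize 2 * (M * w + w / 2) * s = b
    omega
  · rw [e2]
    generalize 2 * (M * w + w / 2) * s = b
    omega
  · rw [rc_side (by omega) (abs_le.mpr hv2.2)]
    rw [← hx]

/-- neighbours outside `bx R` of an inner block lie in the three cells of the ring `R + 1` -/
theorem ib_adj {w : ℤ} (hw : w % 2 = 1) (hw0 : 0 < w) {M s k : ℤ} (hM : 1 ≤ M) (hk : |k| + 1 < M)
    {u v : Pt} (hu : u ∈ ib w M s k) (hv : v ∉ bx (M * w + w / 2)) (h : L.Adj u v) :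
    v ∈ trip w (M * w + w / 2 + 1) s k := by
  have hh : 2 * (w / 2) + 1 = w := by omega
  rw [ib_eq hw hw0] at hu
  obtain ⟨u', ⟨⟨a1, a2⟩, a3, a4⟩, rfl⟩ := hu
  obtain ⟨v', rfl⟩ := (rt s).surjective v
  have hn := RC2_near h.near
  rw [abs_le, abs_le] at hn
  obtain ⟨⟨n1, n2⟩, n3, n4⟩ := hn
  have hv' : ¬ max |v'.1| |v'.2| ≤ M * w + w / 2 := by
    intro hc
    apply hv
    change nrm (rt s v') ≤ M * w + w / 2
    rw [nrm_rt]
    exact hc
  rw [max_le_iff, abs_le, abs_le] at hv'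
  have e1 : (k - 1) * w = k * w - w := by ring
  have e2 : (k + 1) * w = k * w + w := by ring
  have e3 : 1 * w ≤ M * w := mul_le_mul_of_nonneg_right hM hw0.le
  rw [← lt_sub_iff_add_lt, abs_lt] at hk
  have e4 : (k + 2) * w ≤ M * w := mul_le_mul_of_nonneg_right (by omega) hw0.le
  have e5 : (-k + 2) * w ≤ M * w := mul_le_mul_of_nonneg_right (by omega) hw0.le
  rw [add_mul] at e4 e5
  rw [neg_mul] at e5
  have hx : v' = (M * w + w / 2 + 1, v'.2) := Prod.ext (by simp only; omega) rfl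
  refine ⟨2 * (M * w + w / 2 + 1) * s + v'.2, ?_, ?_, ?_⟩
  · rw [e1]
    generalize 2 * (M * w + w / 2 + 1) * s = b
    omega
  · rw [e2]
    generalize 2 * (M * w + w / 2 + 1) * s = b
    omega
  · rw [rc_side (by omega) (abs_le.mpr (by omega))]
    rw [← hx]

/-- a site of the ring in the coordinates of the side `s` -/
private theorem RC2_rng {s m : ℤ} {u : Pt} (h : rt s u ∈ rng m) :
    (-m ≤ u.1 ∧ u.1 ≤ m) ∧ (-m ≤ u.2 ∧ u.2 ≤ m) ∧ (u.1 = m ∨ u.1 = -m ∨ u.2 = m ∨ u.2 = -m) := by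
  have h1 : nrm (rt s u) = m := h
  rw [nrm_rt] at h1
  have h2 : max |u.1| |u.2| = m := h1
  have h3 := max_le_iff.mp h2.le
  rw [abs_le, abs_le] at h3
  refine ⟨h3.1, h3.2, ?_⟩
  rcases max_choice |u.1| |u.2| with h4 | h4
  · rw [h4] at h2
    rcases abs_choice u.1 with h5 | h5 <;> omega
  · rw [h4] at h2
    rcases abs_choice u.2 with h5 | h5 <;> omega

private theorem RC2_rng' {s m y : ℤ} (hm : 1 ≤ m) (hy : -m ≤ y ∧ y ≤ m) : rt s (m, y) ∈ rng m := by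
  change nrm (rt s (m, y)) = m
  rw [nrm_rt]
  change max |m| |y| = m
  rw [abs_of_nonneg (by omega), max_eq_left (abs_le.mpr hy)]

/-- common part of the two exactness lemmas -/
private theorem RC2_exact {M C : Set Pt} (h : L.Exact M C) {m s a b p q : ℤ} (hm : 1 ≤ m)
    (hp : -m ≤ p) (hpq : p ≤ q) (hq : q ≤ m) (ham : a ≤ m) (hbm : m ≤ b) (hrng : rng m ⊆ M)
    (hM : ∀ x y, (a ≤ x ∧ x ≤ b) → (p ≤ y ∧ y ≤ q) → x ≠ m → rt s (x, y) ∉ M)
    (hE : ∀ x y, (a ≤ x ∧ x ≤ b) → (p ≤ y ∧ y ≤ q) → x ≠ m → ∀ u, rt s u ∈ M →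
      L.Adj (rt s u) (rt s (x, y)) → u.1 = m ∧ |x - m| = 1) :
    L.Exact (M ∪ rt s '' rect a b p q) C := by
  have h2 : L.Exact (rt s '' rect a b p q) C := by
    obtain ⟨a', b', c', d', e⟩ := RC2_img s a b p q
    rw [e]
    exact exact_rect _ _ _ _ C
  have hint : M ∩ rt s '' rect a b p q = rt s '' rect m m p q := by
    ext v
    obtain ⟨v', rfl⟩ := (rt s).surjective v
    rw [Set.mem_inter_iff, RC2_mem, RC2_mem, Equiv.symm_apply_apply]
    constructor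
    · rintro ⟨h1, ⟨h3, h4⟩, h5, h6⟩
      have hx : v'.1 = m := by
        by_contra hne
        exact hM v'.1 v'.2 ⟨h3, h4⟩ ⟨h5, h6⟩ hne h1
      exact ⟨⟨by omega, by omega⟩, h5, h6⟩
    · rintro ⟨⟨h3, h4⟩, h5, h6⟩
      have hx : v' = (m, v'.2) := Prod.ext (by simp only; omega) rfl
      refine ⟨?_, ⟨by omega, by omega⟩, h5, h6⟩
      rw [hx]
      exact hrng (RC2_rng' hm ⟨by omega, by omega⟩)
  have key : ∀ u ∈ M, ∀ v ∈ rt s '' rect a b p q, L.Adj u v → (u ∈ M ∧ v ∈ M) ∨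
      (u ∈ rt s '' rect a b p q ∧ v ∈ rt s '' rect a b p q) ∨
      ∃ w ∈ M ∩ rt s '' rect a b p q, L.Adj u w ∧ L.Adj w v := by
    intro u hu v hv huv
    obtain ⟨u', rfl⟩ := (rt s).surjective u
    obtain ⟨⟨x, y⟩, ⟨⟨v1, v2⟩, v3, v4⟩, rfl⟩ := hv
    simp only at v1 v2 v3 v4
    by_cases hx : x = m
    · left
      refine ⟨hu, ?_⟩
      rw [hx]
      exact hrng (RC2_rng' hm ⟨by omega, by omega⟩)
    obtain ⟨e1, e2⟩ := hE x y ⟨v1, v2⟩ ⟨v3, v4⟩ hx u' hu huv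
    by_cases hu2 : p ≤ u'.2 ∧ u'.2 ≤ q
    · right; left
      exact ⟨⟨u', ⟨⟨by omega, by omega⟩, hu2⟩, rfl⟩, ⟨(x, y), ⟨⟨v1, v2⟩, v3, v4⟩, rfl⟩⟩
    right; right
    have hn := RC2_near huv.near
    rw [abs_le, abs_le] at hn
    simp only at hn
    refine ⟨rt s (m, y), ?_, ?_, ?_⟩
    · rw [hint]
      exact ⟨(m, y), ⟨⟨le_refl _, le_refl _⟩, v3, v4⟩, rfl⟩
    · apply adj_of_nn
      apply RC2_nn
      simp only
      rw [e1, sub_self, abs_zero, zero_add]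
      have : u'.2 - y = 1 ∨ u'.2 - y = -1 := by omega
      rcases this with h5 | h5 <;> rw [h5] <;> norm_num
    · apply adj_of_nn
      apply RC2_nn
      simp only
      rw [sub_self, abs_zero, add_zero, abs_sub_comm]
      exact e2
  refine h.glue h2 ?_ ?_
  · rw [hint]
    obtain ⟨a', b', c', d', e⟩ := RC2_img s m m p q
    rw [e]
    exact con_rect _ _ _ _
  · rintro u (hu | hu) v (hv | hv) huv
    · exact Or.inl ⟨hu, hv⟩
    · exact key u hu v hv huv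
    · rcases key v hv u hu huv.symm with ⟨c1, c2⟩ | ⟨c1, c2⟩ | ⟨w, hw, c1, c2⟩
      · exact Or.inl ⟨c2, c1⟩
      · exact Or.inr (Or.inl ⟨c2, c1⟩)
      · exact Or.inr (Or.inr ⟨w, hw, c2.symm, c1.symm⟩)
    · exact Or.inr (Or.inl ⟨hu, hv⟩)

/-- the ring segment added to the rectangle does not change the union -/
private theorem RC2_union {M : Set Pt} {m s a b a' b' p q : ℤ} (hm : 1 ≤ m) (hp : -m ≤ p)
    (hq : q ≤ m) (hrng : rng m ⊆ M) (h1 : a' ≤ a) (h2 : b ≤ b')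
    (h3 : ∀ x, a' ≤ x → x ≤ b' → (a ≤ x ∧ x ≤ b) ∨ x = m) :
    M ∪ rt s '' rect a b p q = M ∪ rt s '' rect a' b' p q := by
  apply Set.Subset.antisymm
  · apply Set.union_subset_union_right
    apply Set.image_mono
    rintro v ⟨⟨v1, v2⟩, v3⟩
    exact ⟨⟨by omega, by omega⟩, v3⟩
  · rintro v (hv | ⟨v', ⟨⟨v1, v2⟩, v3, v4⟩, rfl⟩)
    · exact Or.inl hv
    rcases h3 v'.1 v1 v2 with h4 | h4
    · exact Or.inr ⟨v', ⟨h4, v3, v4⟩, rfl⟩
    · left
      have hx : v' = (m, v'.2) := Prod.ext h4 rfl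
      rw [hx]
      exact hrng (RC2_rng' hm ⟨by omega, by omega⟩)

/-- Exactness of `M ∪ B` for a rectangle `B` (a rotated rectangle) next to the side `s` of the ring
`m`: `Exact.glue` with `M₂ = B` together with the adjacent cells of the ring, a rectangle; the
intersection of `M₂` with `M` is a segment of the ring.  `M` contains the ring `m` (all of it) and no other
site of `B ∪ nb B` than sites of the ring `m`.  Here `B = rt s '' rect (m+1) b p q` (outer case) with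
`-m ≤ p ≤ q ≤ m`. -/
theorem exact_add_out {M C : Set Pt} (h : L.Exact M C) {m s b p q : ℤ} (hm : 1 ≤ m)
    (hp : -m ≤ p) (hpq : p ≤ q) (hq : q ≤ m) (hb : m + 1 ≤ b) (hrng : rng m ⊆ M)
    (hdis : ∀ v ∈ rt s '' rect (m + 1) b p q, ∀ u ∈ M, L.Adj u v → u ∈ rng m)
    (hdis' : ∀ v ∈ rt s '' rect (m + 1) b p q, v ∉ M) :
    L.Exact (M ∪ rt s '' rect (m + 1) b p q) C := by
  rw [RC2_union (a' := m) (b' := b) hm hp hq hrng (by omega) le_rfl (by intro x h1 h2; omega)]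
  refine RC2_exact h hm hp hpq hq le_rfl (by omega) hrng ?_ ?_
  · intro x y hx hy hne
    exact hdis' _ ⟨(x, y), ⟨⟨by simp only; omega, by simp only; omega⟩, hy⟩, rfl⟩
  · intro x y hx hy hne u hu huv
    have h1 := RC2_rng (hdis _ ⟨(x, y), ⟨⟨by simp only; omega, by simp only; omega⟩, hy⟩, rfl⟩ _ hu huv)
    have hn := RC2_near huv.near
    rw [abs_le, abs_le] at hn
    simp only at hn
    have h2 : u.1 = m := by omega
    refine ⟨h2, ?_⟩
    rw [show x - m = 1 by omega]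
    rfl

/-- The inner case: `B = rt s '' rect a (m-1) p q`, `-m + 1 < a`, `-m + 1 < p ≤ q < m - 1` (`B` touches
only the side `s` of the ring). -/
theorem exact_add_in {M C : Set Pt} (h : L.Exact M C) {m s a p q : ℤ} (hm : 1 ≤ m)
    (hp : -m + 1 < p) (hpq : p ≤ q) (hq : q < m - 1) (ha : a ≤ m - 1) (ha' : -m + 1 < a)
    (hrng : rng m ⊆ M)
    (hdis : ∀ v ∈ rt s '' rect a (m - 1) p q, ∀ u ∈ M, L.Adj u v → u ∈ rng m)
    (hdis' : ∀ v ∈ rt s '' rect a (m - 1) p q, v ∉ M) :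
    L.Exact (M ∪ rt s '' rect a (m - 1) p q) C := by
  rw [RC2_union (a' := a) (b' := m) hm (by omega) (by omega) hrng le_rfl (by omega)
    (by intro x h1 h2; omega)]
  refine RC2_exact h hm (by omega) hpq (by omega) (by omega) le_rfl hrng ?_ ?_
  · intro x y hx hy hne
    exact hdis' _ ⟨(x, y), ⟨⟨by simp only; omega, by simp only; omega⟩, hy⟩, rfl⟩
  · intro x y hx hy hne u hu huv
    have h1 := RC2_rng (hdis _ ⟨(x, y), ⟨⟨by simp only; omega, by simp only; omega⟩, hy⟩, rfl⟩ _ hu huv)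
    have hn := RC2_near huv.near
    rw [abs_le, abs_le] at hn
    simp only at hn
    have h2 : u.1 = m := by omega
    refine ⟨h2, ?_⟩
    rw [show x - m = -1 by omega]
    rfl

end Lat

end SC

end

/-! ### from `Lib_MP_e0a489.LD` -/

section

/-!
# MP_e0a489: landing positions and the events `E2o`, `E2i` (result of the two separation steps)

`w` odd: fine block size, `μ` odd, coarse block size `μ w`; `Mc`: number of coarse blocks, `M = μ Mc + μ / 2`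
number of fine blocks, `R = M w + w / 2 = Mc (μ w) + (μ w) / 2`.  Four landing positions in counterclockwise order,
cut at the middle of the right side: position `i` is on side `s i` (`0 ≤ s i ≤ 4`, side `4` is the lower half of the
right side), open positions are coarse cells `k i`, closed positions are fine cells `k i`.  The
colours alternate, `c₀` is the colour of position `0`.
-/

set_option autoImplicit false

namespace SC

open Classical

/-- colour of the position `i` -/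
def colr (c₀ : Bool) (i : Fin 4) : Bool := if i.val % 2 = 0 then c₀ else !c₀

/-- number of the fine cell in the middle of the position -/
def fpos (μ : ℤ) (c₀ : Bool) (k : Fin 4 → ℤ) (i : Fin 4) : ℤ :=
  if colr c₀ i then μ * k i else k i

/-- half width in fine cells -/
def hwd (μ : ℤ) (c₀ : Bool) (i : Fin 4) : ℤ := if colr c₀ i then μ / 2 else 0

/-- admissible landing positions -/
structure Land (μ M : ℤ) (c₀ : Bool) (s k : Fin 4 → ℤ) : Prop where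
  side : ∀ i, 0 ≤ s i ∧ s i ≤ 4
  cor : ∀ i, |fpos μ c₀ k i| + 2 * μ + 20 ≤ M
  nz : ∀ i, k i ≠ 0
  first : 0 < s 0 ∨ (s 0 = 0 ∧ 0 < k 0)
  last : s 3 < 4 ∨ (s 3 = 4 ∧ k 3 < 0)
  ord : ∀ i j, i < j → s i < s j ∨
    (s i = s j ∧ fpos μ c₀ k i + hwd μ c₀ i < fpos μ c₀ k j - hwd μ c₀ j)

/-- size of the landing block -/
def lw (w μ : ℤ) (c : Bool) : ℤ := if c then μ * w else w

/-- outer landing block: coarse for open arms, fine for closed arms -/
def lbo (w μ Mc : ℤ) (c : Bool) (s k : ℤ) : Set Pt :=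
  if c then ob (μ * w) Mc s k else ob w (μ * Mc + μ / 2) s k

/-- inner landing block -/
def lbi (w μ Mc : ℤ) (c : Bool) (s k : ℤ) : Set Pt :=
  if c then ib (μ * w) Mc s k else ib w (μ * Mc + μ / 2) s k

namespace Lat

/-- outer landing event: four arms from `bx r` to the far sides of the landing blocks outside `bx R`,
`R = (μ Mc + μ/2) w + w/2` -/
def E2o (L : Lat) (r w μ Mc : ℤ) (c₀ : Bool) (s k : Fin 4 → ℤ) (ω : Cfg) : Prop :=
  ∀ i, L.Arm (colr c₀ i)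
    (ann r ((μ * Mc + μ / 2) * w + w / 2) ∪ lbo w μ Mc (colr c₀ i) (s i) (k i)) (L.nb (bx r))
    (lbo w μ Mc (colr c₀ i) (s i) (k i) ∩
      rng ((μ * Mc + μ / 2) * w + w / 2 + lw w μ (colr c₀ i))) ω

/-- inner landing event: four arms from the far (inner) sides of the landing blocks inside `bx r`,
`r = (μ Mc + μ/2) w + w/2`, to the ends of the zones `J (d i) R` -/
def E2i (L : Lat) (w μ Mc R : ℤ) (c₀ : Bool) (s k d : Fin 4 → ℤ) (ω : Cfg) : Prop :=
  ∀ i, L.Arm (colr c₀ i)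
    (ann ((μ * Mc + μ / 2) * w + w / 2) R ∪ Jc (colr c₀ i) R ∪
      lbi w μ Mc (colr c₀ i) (s i) (k i))
    (lbi w μ Mc (colr c₀ i) (s i) (k i) ∩
      rng ((μ * Mc + μ / 2) * w + w / 2 - lw w μ (colr c₀ i) + 1)) (Je (d i) R) ω

end Lat

/-- the directions of the outer zones: a bijection for each colour -/
def Dirs (c₀ : Bool) (d : Fin 4 → ℤ) : Prop :=
  (∀ i, d i = dc (colr c₀ i) ∨ d i = dc (colr c₀ i) + 2) ∧ d 0 ≠ d 2 ∧ d 1 ≠ d 3

end SC

end

/-! ### from `Lib_MP_e0a489.SH8` -/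

section

/-!
# MP_e0a489, shared by OS and IS, 8: arithmetic of the landing positions
-/

set_option autoImplicit false

namespace SC

open Classical

/-- comparison of ring indices is the lexicographic comparison of (side, coordinate) -/
theorem lex_of_idx {m s s' y y' : ℤ} (hy : |y| < m) (hy' : |y'| < m)
    (h : 2 * m * s + y < 2 * m * s' + y') : s < s' ∨ (s = s' ∧ y < y') := by
  rw [abs_lt] at hy hy'
  have hm : 0 < m := by omega
  rcases lt_trichotomy s s' with h1 | h1 | h1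
  · exact Or.inl h1
  · refine Or.inr ⟨h1, ?_⟩
    rw [h1] at h
    omega
  · exfalso
    have h2 : s' + 1 ≤ s := h1
    have h3 : 2 * m * (s' + 1) ≤ 2 * m * s := mul_le_mul_of_nonneg_left h2 (by omega)
    have h4 : 2 * m * (s' + 1) = 2 * m * s' + 2 * m := by ring
    omega

theorem idx_of_lex {m s s' y y' : ℤ} (hy : |y| < m) (hy' : |y'| < m)
    (h : s < s' ∨ (s = s' ∧ y < y')) : 2 * m * s + y < 2 * m * s' + y' := by
  rw [abs_lt] at hy hy'
  have hm : 0 < m := by omega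
  rcases h with h1 | ⟨h1, h2⟩
  · have h2 : s + 1 ≤ s' := h1
    have h3 : 2 * m * (s + 1) ≤ 2 * m * s' := mul_le_mul_of_nonneg_left h2 (by omega)
    have h4 : 2 * m * (s + 1) = 2 * m * s + 2 * m := by ring
    omega
  · rw [h1]
    omega

private theorem sh8_hwd_nonneg {μ : ℤ} (hμ : 0 < μ) (c : Bool) (i : Fin 4) : 0 ≤ hwd μ c i := by
  unfold hwd
  split_ifs
  · omega
  · exact le_refl _

private theorem sh8_mk {μ M : ℤ} (hμ : 0 < μ) {c₀ : Bool} {s k : Fin 4 → ℤ}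
    (hcor : ∀ i, |fpos μ c₀ k i| + 2 * μ + 20 ≤ M) (hk : ∀ i, k i ≠ 0)
    (hf : 0 < s 0 ∨ (s 0 = 0 ∧ 0 < k 0))
    (hl : s 3 < 4 ∨ (s 3 = 4 ∧ k 3 < 0))
    (h01 : s 0 < s 1 ∨ (s 0 = s 1 ∧ fpos μ c₀ k 0 + hwd μ c₀ 0 < fpos μ c₀ k 1 - hwd μ c₀ 1))
    (h12 : s 1 < s 2 ∨ (s 1 = s 2 ∧ fpos μ c₀ k 1 + hwd μ c₀ 1 < fpos μ c₀ k 2 - hwd μ c₀ 2))
    (h23 : s 2 < s 3 ∨ (s 2 = s 3 ∧ fpos μ c₀ k 2 + hwd μ c₀ 2 < fpos μ c₀ k 3 - hwd μ c₀ 3)) :
    Land μ M c₀ s k := by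
  have w0 := sh8_hwd_nonneg hμ c₀ 0
  have w1 := sh8_hwd_nonneg hμ c₀ 1
  have w2 := sh8_hwd_nonneg hμ c₀ 2
  have w3 := sh8_hwd_nonneg hμ c₀ 3
  refine ⟨?_, hcor, hk, hf, hl, ?_⟩
  · rw [Fin.forall_fin_succ]
    refine ⟨⟨by omega, by omega⟩, ?_⟩
    rw [Fin.forall_fin_succ]
    refine ⟨⟨?_, ?_⟩, ?_⟩
    · show 0 ≤ s 1
      omega
    · show s 1 ≤ 4
      omega
    rw [Fin.forall_fin_succ]
    refine ⟨⟨?_, ?_⟩, ?_⟩
    · show 0 ≤ s 2
      omega
    · show s 2 ≤ 4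
      omega
    rw [Fin.forall_fin_succ]
    refine ⟨⟨?_, ?_⟩, fun i => i.elim0⟩
    · show 0 ≤ s 3
      omega
    · show s 3 ≤ 4
      omega
  · have h02 : s 0 < s 2 ∨ (s 0 = s 2 ∧
        fpos μ c₀ k 0 + hwd μ c₀ 0 < fpos μ c₀ k 2 - hwd μ c₀ 2) := by omega
    have h13 : s 1 < s 3 ∨ (s 1 = s 3 ∧
        fpos μ c₀ k 1 + hwd μ c₀ 1 < fpos μ c₀ k 3 - hwd μ c₀ 3) := by omega
    have h03 : s 0 < s 3 ∨ (s 0 = s 3 ∧
        fpos μ c₀ k 0 + hwd μ c₀ 0 < fpos μ c₀ k 3 - hwd μ c₀ 3) := by omega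
    intro i j hij
    fin_cases i <;> fin_cases j <;>
      first
      | exact absurd hij (by decide)
      | exact h01
      | exact h12
      | exact h23
      | exact h02
      | exact h13
      | exact h03

private theorem sh8_fpos {μ : ℤ} {c₀ : Bool} {k : Fin 4 → ℤ} {j : Fin 4}
    (hc : ∀ i, colr c₀ i = colr true (i + j)) (i : Fin 4) :
    fpos μ c₀ (fun i => k (i + j)) i = fpos μ true k (i + j) := by
  unfold fpos
  rw [hc i]

private theorem sh8_hwd {μ : ℤ} {c₀ : Bool} {j : Fin 4}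
    (hc : ∀ i, colr c₀ i = colr true (i + j)) (i : Fin 4) :
    hwd μ c₀ i = hwd μ true (i + j) := by
  unfold hwd
  rw [hc i]

private theorem sh8_abs_le {μ Mc : ℤ} (hμ : 0 < μ) {c₀ : Bool} {s k : Fin 4 → ℤ}
    (h : Land μ (μ * Mc + μ / 2) c₀ s k) (i : Fin 4) :
    -(μ * Mc + μ) ≤ k i ∧ k i ≤ μ * Mc + μ := by
  have h1 : |k i| ≤ |fpos μ c₀ k i| := by
    unfold fpos
    split_ifs
    · rw [abs_mul, abs_of_pos hμ]
      have h2 := abs_nonneg (k i)
      have h3 : (1 : ℤ) ≤ μ := hμ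
      nlinarith
    · exact le_refl _
  have h2 := h.cor i
  have h3 : |k i| ≤ μ * Mc + μ := by omega
  rw [abs_le] at h3
  exact h3

/-- LANDING POSITIONS.  Four positions in cyclic order (colours `true, false, true, false`; the order is
lexicographic, the last one is before the first one shifted by one turn, `s 0 + 4`).  They can be rotated and shifted by
multiples of 4 so that they are admissible.
Proof.  Choose `q` with `(s 0 - 4 q, k 0)` lexicographically between `(0, 0)` and `(4, 0)`: `q = s 0 / 4` if `k 0 > 0`, `q = (s 0 - 1) / 4` if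
`k 0 < 0`.  Let `P i`: `s i - 4 q < 4 ∨ (s i - 4 q = 4 ∧ k i < 0)`; `P 0` holds and `P` is decreasing in `i`.  If `P 3`: `j = 0`,
`s' i = s i - 4 q`.  If `P 2`, not `P 3`: `j = 3`, `s' 0 = s 3 - 4 q - 4`, `s' 1 = s 0 - 4 q`, `s' 2 = s 1 - 4 q`, `s' 3 = s 2 - 4 q`.
If `P 1`, not `P 2`: `j = 2`.  If not `P 1`: `j = 1`.  In all cases `k' i = k (i + j)`, `c₀ = colr true j`.  All conditions are linear
(`hwd ≥ 0`, the sign of `fpos` is the sign of `k`). -/
theorem land_of {μ M : ℤ} (hμ : 0 < μ) {s k : Fin 4 → ℤ}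
    (hcor : ∀ i, |fpos μ true k i| + 2 * μ + 20 ≤ M) (hk : ∀ i, k i ≠ 0)
    (h01 : s 0 < s 1 ∨ (s 0 = s 1 ∧
      fpos μ true k 0 + hwd μ true 0 < fpos μ true k 1 - hwd μ true 1))
    (h12 : s 1 < s 2 ∨ (s 1 = s 2 ∧
      fpos μ true k 1 + hwd μ true 1 < fpos μ true k 2 - hwd μ true 2))
    (h23 : s 2 < s 3 ∨ (s 2 = s 3 ∧
      fpos μ true k 2 + hwd μ true 2 < fpos μ true k 3 - hwd μ true 3))
    (h30 : s 3 < s 0 + 4 ∨ (s 3 = s 0 + 4 ∧
      fpos μ true k 3 + hwd μ true 3 < fpos μ true k 0 - hwd μ true 0)) :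
    ∃ (c₀ : Bool) (s' k' : Fin 4 → ℤ) (j : Fin 4), Land μ M c₀ s' k' ∧
      ∀ i, s' i % 4 = s (i + j) % 4 ∧ k' i = k (i + j) ∧ colr c₀ i = colr true (i + j) := by
  obtain ⟨q, hq1, hq2⟩ : ∃ q : ℤ, (0 < s 0 - 4 * q ∨ (s 0 - 4 * q = 0 ∧ 0 < k 0)) ∧
      (s 0 - 4 * q < 4 ∨ (s 0 - 4 * q = 4 ∧ k 0 < 0)) := by
    rcases lt_or_gt_of_ne (hk 0) with h | h
    · exact ⟨(s 0 - 1) / 4, by omega, by omega⟩
    · exact ⟨s 0 / 4, by omega, by omega⟩
  have k1 := hk 1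
  have k2 := hk 2
  have k3 := hk 3
  by_cases P3 : s 3 - 4 * q < 4 ∨ (s 3 - 4 * q = 4 ∧ k 3 < 0)
  · have hc : ∀ i, colr true i = colr true (i + 0) := by decide
    refine ⟨true, fun i => s (i + 0) - 4 * q, fun i => k (i + 0), 0, sh8_mk hμ ?_ ?_ ?_ ?_ ?_ ?_ ?_,
      fun i => ⟨by dsimp only; omega, rfl, hc i⟩⟩
    · intro i
      rw [sh8_fpos hc]
      exact hcor _
    · exact fun i => hk _
    · exact hq1
    · exact P3
    · rw [sh8_fpos hc, sh8_fpos hc, sh8_hwd hc, sh8_hwd hc]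
      show s 0 - 4 * q < s 1 - 4 * q ∨ (s 0 - 4 * q = s 1 - 4 * q ∧
        fpos μ true k 0 + hwd μ true 0 < fpos μ true k 1 - hwd μ true 1)
      omega
    · rw [sh8_fpos hc, sh8_fpos hc, sh8_hwd hc, sh8_hwd hc]
      show s 1 - 4 * q < s 2 - 4 * q ∨ (s 1 - 4 * q = s 2 - 4 * q ∧
        fpos μ true k 1 + hwd μ true 1 < fpos μ true k 2 - hwd μ true 2)
      omega
    · rw [sh8_fpos hc, sh8_fpos hc, sh8_hwd hc, sh8_hwd hc]
      show s 2 - 4 * q < s 3 - 4 * q ∨ (s 2 - 4 * q = s 3 - 4 * q ∧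
        fpos μ true k 2 + hwd μ true 2 < fpos μ true k 3 - hwd μ true 3)
      omega
  by_cases P2 : s 2 - 4 * q < 4 ∨ (s 2 - 4 * q = 4 ∧ k 2 < 0)
  · have hc : ∀ i, colr false i = colr true (i + 3) := by decide
    refine ⟨false, fun i => s (i + 3) - 4 * q - (if i = 0 then 4 else 0), fun i => k (i + 3), 3,
      sh8_mk hμ ?_ ?_ ?_ ?_ ?_ ?_ ?_, fun i => ⟨by dsimp only; split_ifs <;> omega, rfl, hc i⟩⟩
    · intro i
      rw [sh8_fpos hc]
      exact hcor _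
    · exact fun i => hk _
    · show 0 < s 3 - 4 * q - 4 ∨ (s 3 - 4 * q - 4 = 0 ∧ 0 < k 3)
      omega
    · show s 2 - 4 * q - 0 < 4 ∨ (s 2 - 4 * q - 0 = 4 ∧ k 2 < 0)
      omega
    · rw [sh8_fpos hc, sh8_fpos hc, sh8_hwd hc, sh8_hwd hc]
      show s 3 - 4 * q - 4 < s 0 - 4 * q - 0 ∨ (s 3 - 4 * q - 4 = s 0 - 4 * q - 0 ∧
        fpos μ true k 3 + hwd μ true 3 < fpos μ true k 0 - hwd μ true 0)
      omega
    · rw [sh8_fpos hc, sh8_fpos hc, sh8_hwd hc, sh8_hwd hc]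
      show s 0 - 4 * q - 0 < s 1 - 4 * q - 0 ∨ (s 0 - 4 * q - 0 = s 1 - 4 * q - 0 ∧
        fpos μ true k 0 + hwd μ true 0 < fpos μ true k 1 - hwd μ true 1)
      omega
    · rw [sh8_fpos hc, sh8_fpos hc, sh8_hwd hc, sh8_hwd hc]
      show s 1 - 4 * q - 0 < s 2 - 4 * q - 0 ∨ (s 1 - 4 * q - 0 = s 2 - 4 * q - 0 ∧
        fpos μ true k 1 + hwd μ true 1 < fpos μ true k 2 - hwd μ true 2)
      omega
  by_cases P1 : s 1 - 4 * q < 4 ∨ (s 1 - 4 * q = 4 ∧ k 1 < 0)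
  · have hc : ∀ i, colr true i = colr true (i + 2) := by decide
    refine ⟨true, fun i => s (i + 2) - 4 * q - (if i = 0 ∨ i = 1 then 4 else 0),
      fun i => k (i + 2), 2, sh8_mk hμ ?_ ?_ ?_ ?_ ?_ ?_ ?_,
      fun i => ⟨by dsimp only; split_ifs <;> omega, rfl, hc i⟩⟩
    · intro i
      rw [sh8_fpos hc]
      exact hcor _
    · exact fun i => hk _
    · show 0 < s 2 - 4 * q - 4 ∨ (s 2 - 4 * q - 4 = 0 ∧ 0 < k 2)
      omega
    · show s 1 - 4 * q - 0 < 4 ∨ (s 1 - 4 * q - 0 = 4 ∧ k 1 < 0)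
      omega
    · rw [sh8_fpos hc, sh8_fpos hc, sh8_hwd hc, sh8_hwd hc]
      show s 2 - 4 * q - 4 < s 3 - 4 * q - 4 ∨ (s 2 - 4 * q - 4 = s 3 - 4 * q - 4 ∧
        fpos μ true k 2 + hwd μ true 2 < fpos μ true k 3 - hwd μ true 3)
      omega
    · rw [sh8_fpos hc, sh8_fpos hc, sh8_hwd hc, sh8_hwd hc]
      show s 3 - 4 * q - 4 < s 0 - 4 * q - 0 ∨ (s 3 - 4 * q - 4 = s 0 - 4 * q - 0 ∧
        fpos μ true k 3 + hwd μ true 3 < fpos μ true k 0 - hwd μ true 0)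
      omega
    · rw [sh8_fpos hc, sh8_fpos hc, sh8_hwd hc, sh8_hwd hc]
      show s 0 - 4 * q - 0 < s 1 - 4 * q - 0 ∨ (s 0 - 4 * q - 0 = s 1 - 4 * q - 0 ∧
        fpos μ true k 0 + hwd μ true 0 < fpos μ true k 1 - hwd μ true 1)
      omega
  · have hc : ∀ i, colr false i = colr true (i + 1) := by decide
    refine ⟨false, fun i => s (i + 1) - 4 * q - (if i = 3 then 0 else 4),
      fun i => k (i + 1), 1, sh8_mk hμ ?_ ?_ ?_ ?_ ?_ ?_ ?_,
      fun i => ⟨by dsimp only; split_ifs <;> omega, rfl, hc i⟩⟩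
    · intro i
      rw [sh8_fpos hc]
      exact hcor _
    · exact fun i => hk _
    · show 0 < s 1 - 4 * q - 4 ∨ (s 1 - 4 * q - 4 = 0 ∧ 0 < k 1)
      omega
    · show s 0 - 4 * q - 0 < 4 ∨ (s 0 - 4 * q - 0 = 4 ∧ k 0 < 0)
      omega
    · rw [sh8_fpos hc, sh8_fpos hc, sh8_hwd hc, sh8_hwd hc]
      show s 1 - 4 * q - 4 < s 2 - 4 * q - 4 ∨ (s 1 - 4 * q - 4 = s 2 - 4 * q - 4 ∧
        fpos μ true k 1 + hwd μ true 1 < fpos μ true k 2 - hwd μ true 2)
      omega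
    · rw [sh8_fpos hc, sh8_fpos hc, sh8_hwd hc, sh8_hwd hc]
      show s 2 - 4 * q - 4 < s 3 - 4 * q - 4 ∨ (s 2 - 4 * q - 4 = s 3 - 4 * q - 4 ∧
        fpos μ true k 2 + hwd μ true 2 < fpos μ true k 3 - hwd μ true 3)
      omega
    · rw [sh8_fpos hc, sh8_fpos hc, sh8_hwd hc, sh8_hwd hc]
      show s 3 - 4 * q - 4 < s 0 - 4 * q - 0 ∨ (s 3 - 4 * q - 4 = s 0 - 4 * q - 0 ∧
        fpos μ true k 3 + hwd μ true 3 < fpos μ true k 0 - hwd μ true 0)
      omega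

/-- all admissible outer landing positions -/
noncomputable def LamO (μ Mc : ℤ) : Finset (Bool × (Fin 4 → ℤ) × (Fin 4 → ℤ)) :=
  ((Finset.univ : Finset Bool) ×ˢ (Fintype.piFinset fun _ => Finset.Icc (0 : ℤ) 4) ×ˢ
    (Fintype.piFinset fun _ => Finset.Icc (-(μ * Mc + μ)) (μ * Mc + μ))).filter
      fun q => Land μ (μ * Mc + μ / 2) q.1 q.2.1 q.2.2

/-- all admissible inner landing positions with the directions of the outer zones -/
noncomputable def LamI (μ Mc : ℤ) :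
    Finset (Bool × (Fin 4 → ℤ) × (Fin 4 → ℤ) × (Fin 4 → ℤ)) :=
  ((Finset.univ : Finset Bool) ×ˢ (Fintype.piFinset fun _ => Finset.Icc (0 : ℤ) 4) ×ˢ
    (Fintype.piFinset fun _ => Finset.Icc (-(μ * Mc + μ)) (μ * Mc + μ)) ×ˢ
      (Fintype.piFinset fun _ => Finset.Icc (0 : ℤ) 3)).filter
      fun q => Land μ (μ * Mc + μ / 2) q.1 q.2.1 q.2.2.1 ∧ Dirs q.1 q.2.2.2

/-- `|k i| ≤ |fpos μ c₀ k i| ≤ μ Mc + μ / 2` -/
theorem mem_LamO {μ Mc : ℤ} (hμ : 0 < μ) (q : Bool × (Fin 4 → ℤ) × (Fin 4 → ℤ)) :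
    q ∈ LamO μ Mc ↔ Land μ (μ * Mc + μ / 2) q.1 q.2.1 q.2.2 := by
  unfold LamO
  rw [Finset.mem_filter]
  constructor
  · exact fun h => h.2
  · intro h
    refine ⟨?_, h⟩
    rw [Finset.mem_product, Finset.mem_product, Fintype.mem_piFinset, Fintype.mem_piFinset]
    refine ⟨Finset.mem_univ _, fun i => ?_, fun i => ?_⟩
    · exact Finset.mem_Icc.2 (h.side i)
    · exact Finset.mem_Icc.2 (sh8_abs_le hμ h i)

theorem mem_LamI {μ Mc : ℤ} (hμ : 0 < μ)
    (q : Bool × (Fin 4 → ℤ) × (Fin 4 → ℤ) × (Fin 4 → ℤ)) :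
    q ∈ LamI μ Mc ↔ Land μ (μ * Mc + μ / 2) q.1 q.2.1 q.2.2.1 ∧ Dirs q.1 q.2.2.2 := by
  unfold LamI
  rw [Finset.mem_filter]
  constructor
  · exact fun h => h.2
  · rintro ⟨h, hd⟩
    refine ⟨?_, h, hd⟩
    rw [Finset.mem_product, Finset.mem_product, Finset.mem_product, Fintype.mem_piFinset,
      Fintype.mem_piFinset, Fintype.mem_piFinset]
    refine ⟨Finset.mem_univ _, fun i => ?_, fun i => ?_, fun i => ?_⟩
    · exact Finset.mem_Icc.2 (h.side i)
    · exact Finset.mem_Icc.2 (sh8_abs_le hμ h i)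
    · have h1 := hd.1 i
      have h2 : ∀ b : Bool, 0 ≤ dc b ∧ dc b ≤ 1 := by
        intro b
        cases b <;> decide
      have h3 := h2 (colr q.1 i)
      rw [Finset.mem_Icc]
      omega

end SC

end

/-! ### from `Lib_MP_e0a489.OS1` -/

section

/-!
# MP_e0a489, outer separation 1: definitions and arithmetic of the two scales

Both scales, the coarse one (blocks of side `μ w`, number `Mc`) and the fine one (blocks of side `w`, number
`M = μ Mc + μ / 2`), satisfy `OPar`.  The outer blocks `ob w M s k` are outside `bx R`, next to the ring `R`.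
-/

set_option autoImplicit false

namespace SC

open Classical

/-- the parameters of one scale: block size `w`, `R = M w + w / 2` -/
structure OPar (r R w M : ℤ) : Prop where
  od : w % 2 = 1
  w5 : 5 ≤ w
  M2 : 384 ≤ M
  eR : R = M * w + w / 2
  r1 : 1 ≤ r
  r8 : 8 * r ≤ R

/-- first index of the triple of cells `k - 1, k, k + 1` of the side `s` of the ring `R` -/
def osi (R w s k : ℤ) : ℤ := 2 * R * s + (k - 1) * w - w / 2

/-- last index of the triple -/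
def oei (R w s k : ℤ) : ℤ := 2 * R * s + (k + 1) * w + w / 2

theorem os_trip_eq (w R s k : ℤ) : trip w R s k = arc R (osi R w s k) (oei R w s k) := rfl

/-- two coarse positions: distance from the corners and from the middle of the sides, cyclic order of the
triples -/
structure OPos (R w M s₁ k₁ s₃ k₃ : ℤ) : Prop where
  a₁ : |k₁| + 100 ≤ M
  a₃ : |k₃| + 100 ≤ M
  n₁ : k₁ ≠ 0
  n₃ : k₃ ≠ 0
  o₁ : oei R w s₁ k₁ < osi R w s₃ k₃
  o₃ : oei R w s₃ k₃ < osi R w s₁ k₁ + 8 * R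

/-- a finite set of positions, independent of `w` -/
noncomputable def OPosF (M : ℤ) : Finset (ℤ × ℤ × ℤ × ℤ) :=
  Finset.Icc 0 3 ×ˢ Finset.Icc (-M) M ×ˢ Finset.Icc 0 8 ×ˢ Finset.Icc (-M) M

/-- the coarse positions -/
noncomputable def OTht (R w M : ℤ) : Finset (ℤ × ℤ × ℤ × ℤ) :=
  (OPosF M).filter fun q => OPos R w M q.1 q.2.1 q.2.2.1 q.2.2.2

/-- the index `i` of the ring `R` is not in the triple of the cell `(s, k)` (modulo `8 R`) -/
def OFar (R w s k i : ℤ) : Prop :=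
  ∃ t : ℤ, oei R w (s + 4 * t) k < i ∧ i < osi R w (s + 4 * t) k + 8 * R

/-- domain of the second exploration -/
def OD2 (R w M s₁ k₁ s₃ k₃ : ℤ) : Set Pt := bx R ∪ (ob w M s₁ k₁ ∪ ob w M s₃ k₃)

/-- source of the second exploration -/
def OS2 (r w M s₁ k₁ s₃ k₃ : ℤ) : Set Pt := bx r ∪ (ob w M s₁ k₁ ∪ ob w M s₃ k₃)

namespace Lat

/-- `A` and `B` are disjoint and no site of `A` has a neighbour in `B` -/
def OApart (L : Lat) (A B : Set Pt) : Prop := ∀ u ∈ A, ∀ v ∈ B, u ≠ v ∧ ¬ L.Adj u v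

/-- arm of colour `c` from `bx r` to the far side of the outer block `(s, k)` -/
def Oarm (L : Lat) (c : Bool) (r R w M s k : ℤ) (ω : Cfg) : Prop :=
  L.Arm c (ann r R ∪ ob w M s k) (L.nb (bx r)) (ob w M s k ∩ rng (R + w)) ω

/-- closed path in `ann r R` from `bx r` to a site of the ring `R` with index strictly between `a` and `b`, at distance at
least `100 w` from the corners -/
def OMid (L : Lat) (r R w a b : ℤ) (ω : Cfg) : Prop :=
  ∃ s y, |y| + 100 * w ≤ R ∧ a < 2 * R * s + y ∧ 2 * R * s + y < b ∧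
    L.Arm false (ann r R) (L.nb (bx r)) {rc R (2 * R * s + y)} ω

/-- result of step 1: two open arms to coarse blocks, closed paths to the ring on both sides between the
triples of the two blocks -/
def E1o (L : Lat) (r R w M s₁ k₁ s₃ k₃ : ℤ) (ω : Cfg) : Prop :=
  L.Oarm true r R w M s₁ k₁ ω ∧ L.Oarm true r R w M s₃ k₃ ω ∧
    L.OMid r R w (oei R w s₁ k₁) (osi R w s₃ k₃) ω ∧
      L.OMid r R w (oei R w s₃ k₃) (osi R w s₁ k₁ + 8 * R) ω

end Lat

/-- the two descriptions of `R` (`μ = 2 a + 1`, `w = 2 b + 1`) -/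
theorem os_two_scales {μ w Mc : ℤ} (hμ : μ % 2 = 1) (hw : w % 2 = 1) :
    (μ * Mc + μ / 2) * w + w / 2 = Mc * (μ * w) + μ * w / 2 := by
  obtain ⟨a, ha⟩ : ∃ a, μ = 2 * a + 1 := ⟨μ / 2, by omega⟩
  obtain ⟨b, hb⟩ : ∃ b, w = 2 * b + 1 := ⟨w / 2, by omega⟩
  subst ha hb
  have h1 : (2 * a + 1) / 2 = a := by omega
  have h2 : (2 * b + 1) / 2 = b := by omega
  have h3 : (2 * a + 1) * (2 * b + 1) / 2 = 2 * a * b + a + b := by
    have : (2 * a + 1) * (2 * b + 1) = 2 * (2 * a * b + a + b) + 1 := by ring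
    rw [this]
    omega
  rw [h1, h2, h3]
  ring

theorem os_odd_mul' {μ w : ℤ} (hμ : μ % 2 = 1) (hw : w % 2 = 1) : μ * w % 2 = 1 := by
  rw [Int.mul_emod, hμ, hw]
  norm_num

/-- `OPar` for the coarse scale gives `OPar` for the fine scale -/
theorem OPar.fine {r R w μ Mc : ℤ} (hμ : μ % 2 = 1) (hμ1 : 1 ≤ μ) (hw : w % 2 = 1) (hw5 : 5 ≤ w)
    (h : OPar r R (μ * w) Mc) : OPar r R w (μ * Mc + μ / 2) where
  od := hw
  w5 := hw5
  M2 := by
    have h1 := h.M2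
    have h2 : 0 ≤ μ / 2 := by omega
    nlinarith
  eR := by rw [os_two_scales hμ hw]; exact h.eR
  r1 := h.r1
  r8 := h.r8

namespace OPar

variable {r R w M : ℤ}

theorem w0 (h : OPar r R w M) : 0 < w := by have := h.w5; omega

/-- `R` is large -/
theorem Rw (h : OPar r R w M) : 384 * w ≤ R := by
  have h1 := h.M2
  have h2 := h.w5
  have h3 := h.eR
  have h4 : 0 ≤ w / 2 := by omega
  nlinarith

end OPar

/-- the card of the set of positions is bounded independently of `w` -/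
theorem card_OTht (R w M : ℤ) : (OTht R w M).card ≤ (OPosF M).card := Finset.card_filter_le _ _

theorem mem_OTht {R w M : ℤ} {q : ℤ × ℤ × ℤ × ℤ} (h : q ∈ OTht R w M) :
    OPos R w M q.1 q.2.1 q.2.2.1 q.2.2.2 := (Finset.mem_filter.1 h).2

end SC

end

/-! ### from `Lib_MP_e0a489.IfL` -/

section

/-!
# MP_e0a489: interface IfL (landing and routing statements)
-/

set_option autoImplicit false

namespace SC

open Classical

/-- landing and routing statements -/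
class IfL : Prop where
  outer_land : ∀ (κ : ℕ → ℝ) (ε : ℝ) (hε : 0 < ε),
    ∃ (μ Mc w₀ : ℤ) (C : ℝ)
    (Λ : Finset (Bool × (Fin 4 → ℤ) × (Fin 4 → ℤ))), μ % 2 = 1 ∧ 0 < μ ∧ 0 < Mc ∧ 0 < w₀ ∧ 0 < C ∧
    (∀ q ∈ Λ, Land μ (μ * Mc + μ / 2) q.1 q.2.1 q.2.2) ∧
    ∀ L : Lat, RSW L κ → ∀ w r : ℤ, w % 2 = 1 → w₀ ≤ w → 1 ≤ r →
      8 * r ≤ (μ * Mc + μ / 2) * w + w / 2 → ∀ G : Finset Pt,
      (∀ v, v ∈ G ↔ ((μ * Mc + μ / 2) * w + w / 2) / 2 < nrm v ∧
        nrm v ≤ (μ * Mc + μ / 2) * w + w / 2 + μ * w) → ∀ ω : Cfg,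
      cpr G (L.TwoA true r ((μ * Mc + μ / 2) * w + w / 2)) ω ≤
        ε * ind (L.TwoA true r (((μ * Mc + μ / 2) * w + w / 2) / 2)) ω +
          C * ∑ q ∈ Λ, cpr G (L.E2o r w μ Mc q.1 q.2.1 q.2.2) ω
  inner_land : ∀ (κ : ℕ → ℝ) (ε : ℝ) (hε : 0 < ε),
    ∃ (μ Mc w₀ : ℤ) (C : ℝ)
    (Λ : Finset (Bool × (Fin 4 → ℤ) × (Fin 4 → ℤ) × (Fin 4 → ℤ))), μ % 2 = 1 ∧ 0 < μ ∧ 0 < Mc ∧
    0 < w₀ ∧ 0 < C ∧
    (∀ q ∈ Λ, Land μ (μ * Mc + μ / 2) q.1 q.2.1 q.2.2.1 ∧ Dirs q.1 q.2.2.2) ∧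
    ∀ L : Lat, RSW L κ → ∀ w R : ℤ, w % 2 = 1 → w₀ ≤ w →
      8 * ((μ * Mc + μ / 2) * w + w / 2) ≤ R → ∀ G : Finset Pt,
      (∀ v, v ∈ G ↔ (μ * Mc + μ / 2) * w + w / 2 - μ * w < nrm v ∧
        nrm v ≤ 2 * ((μ * Mc + μ / 2) * w + w / 2)) → ∀ ω : Cfg,
      cpr G (L.Sout ((μ * Mc + μ / 2) * w + w / 2) R) ω ≤
        ε * ind (L.Sout (2 * ((μ * Mc + μ / 2) * w + w / 2)) R) ω +
          C * ∑ q ∈ Λ, cpr G (L.E2i w μ Mc R q.1 q.2.1 q.2.2.1 q.2.2.2) ω
  route_out : ∀ (κ : ℕ → ℝ) (μ Mc : ℤ) (hμ : μ % 2 = 1) (hμ0 : 0 < μ) (hM : 0 < Mc) (c₀ : Bool)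
    (s k : Fin 4 → ℤ) (hl : Land μ (μ * Mc + μ / 2) c₀ s k),
    ∃ (p : ℝ) (w₀ : ℤ), 0 < p ∧ 0 < w₀ ∧ ∀ L : Lat, RSW L κ → ∀ w r R' : ℤ, w % 2 = 1 → w₀ ≤ w →
      1 ≤ r → 2 * r ≤ (μ * Mc + μ / 2) * w + w / 2 →
      (μ * Mc + μ / 2) * w + w / 2 + (μ + 10) * w ≤ R' →
      R' ≤ 4 * ((μ * Mc + μ / 2) * w + w / 2) → ∀ G : Finset Pt,
      (∀ v, (μ * Mc + μ / 2) * w + w / 2 < nrm v → nrm v ≤ 2 * R' → v ∈ G) → ∀ ω : Cfg,
      p * cpr G (L.E2o r w μ Mc c₀ s k) ω ≤ cpr G (L.Sout r R') ω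
  route_in : ∀ (κ : ℕ → ℝ) (μ Mc : ℤ) (hμ : μ % 2 = 1) (hμ0 : 0 < μ) (hM : 0 < Mc) (c₀ : Bool)
    (s k d : Fin 4 → ℤ) (hl : Land μ (μ * Mc + μ / 2) c₀ s k) (hd : Dirs c₀ d),
    ∃ (p : ℝ) (w₀ : ℤ), 0 < p ∧ 0 < w₀ ∧ ∀ L : Lat, RSW L κ → ∀ w R r' : ℤ, w % 2 = 1 → w₀ ≤ w →
      2 * ((μ * Mc + μ / 2) * w + w / 2) ≤ R →
      r' + (μ + 10) * w ≤ (μ * Mc + μ / 2) * w + w / 2 →
      (μ * Mc + μ / 2) * w + w / 2 ≤ 4 * r' → ∀ G : Finset Pt,
      (∀ v, r' / 2 < nrm v → nrm v ≤ (μ * Mc + μ / 2) * w + w / 2 → v ∈ G) → ∀ ω : Cfg,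
      p * cpr G (L.E2i w μ Mc R c₀ s k d) ω ≤ cpr G (L.S4 r' R) ω

theorem outer_land [IfL] (κ : ℕ → ℝ) (ε : ℝ) (hε : 0 < ε) :
    ∃ (μ Mc w₀ : ℤ) (C : ℝ)
    (Λ : Finset (Bool × (Fin 4 → ℤ) × (Fin 4 → ℤ))), μ % 2 = 1 ∧ 0 < μ ∧ 0 < Mc ∧ 0 < w₀ ∧ 0 < C ∧
    (∀ q ∈ Λ, Land μ (μ * Mc + μ / 2) q.1 q.2.1 q.2.2) ∧
    ∀ L : Lat, RSW L κ → ∀ w r : ℤ, w % 2 = 1 → w₀ ≤ w → 1 ≤ r →
      8 * r ≤ (μ * Mc + μ / 2) * w + w / 2 → ∀ G : Finset Pt,
      (∀ v, v ∈ G ↔ ((μ * Mc + μ / 2) * w + w / 2) / 2 < nrm v ∧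
        nrm v ≤ (μ * Mc + μ / 2) * w + w / 2 + μ * w) → ∀ ω : Cfg,
      cpr G (L.TwoA true r ((μ * Mc + μ / 2) * w + w / 2)) ω ≤
        ε * ind (L.TwoA true r (((μ * Mc + μ / 2) * w + w / 2) / 2)) ω +
          C * ∑ q ∈ Λ, cpr G (L.E2o r w μ Mc q.1 q.2.1 q.2.2) ω :=
  IfL.outer_land κ ε hε

theorem inner_land [IfL] (κ : ℕ → ℝ) (ε : ℝ) (hε : 0 < ε) :
    ∃ (μ Mc w₀ : ℤ) (C : ℝ)
    (Λ : Finset (Bool × (Fin 4 → ℤ) × (Fin 4 → ℤ) × (Fin 4 → ℤ))), μ % 2 = 1 ∧ 0 < μ ∧ 0 < Mc ∧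
    0 < w₀ ∧ 0 < C ∧
    (∀ q ∈ Λ, Land μ (μ * Mc + μ / 2) q.1 q.2.1 q.2.2.1 ∧ Dirs q.1 q.2.2.2) ∧
    ∀ L : Lat, RSW L κ → ∀ w R : ℤ, w % 2 = 1 → w₀ ≤ w →
      8 * ((μ * Mc + μ / 2) * w + w / 2) ≤ R → ∀ G : Finset Pt,
      (∀ v, v ∈ G ↔ (μ * Mc + μ / 2) * w + w / 2 - μ * w < nrm v ∧
        nrm v ≤ 2 * ((μ * Mc + μ / 2) * w + w / 2)) → ∀ ω : Cfg,
      cpr G (L.Sout ((μ * Mc + μ / 2) * w + w / 2) R) ω ≤
        ε * ind (L.Sout (2 * ((μ * Mc + μ / 2) * w + w / 2)) R) ω +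
          C * ∑ q ∈ Λ, cpr G (L.E2i w μ Mc R q.1 q.2.1 q.2.2.1 q.2.2.2) ω :=
  IfL.inner_land κ ε hε

theorem route_out [IfL] (κ : ℕ → ℝ) (μ Mc : ℤ) (hμ : μ % 2 = 1) (hμ0 : 0 < μ) (hM : 0 < Mc) (c₀ : Bool)
    (s k : Fin 4 → ℤ) (hl : Land μ (μ * Mc + μ / 2) c₀ s k) :
    ∃ (p : ℝ) (w₀ : ℤ), 0 < p ∧ 0 < w₀ ∧ ∀ L : Lat, RSW L κ → ∀ w r R' : ℤ, w % 2 = 1 → w₀ ≤ w →
      1 ≤ r → 2 * r ≤ (μ * Mc + μ / 2) * w + w / 2 →
      (μ * Mc + μ / 2) * w + w / 2 + (μ + 10) * w ≤ R' →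
      R' ≤ 4 * ((μ * Mc + μ / 2) * w + w / 2) → ∀ G : Finset Pt,
      (∀ v, (μ * Mc + μ / 2) * w + w / 2 < nrm v → nrm v ≤ 2 * R' → v ∈ G) → ∀ ω : Cfg,
      p * cpr G (L.E2o r w μ Mc c₀ s k) ω ≤ cpr G (L.Sout r R') ω :=
  IfL.route_out κ μ Mc hμ hμ0 hM c₀ s k hl

theorem route_in [IfL] (κ : ℕ → ℝ) (μ Mc : ℤ) (hμ : μ % 2 = 1) (hμ0 : 0 < μ) (hM : 0 < Mc) (c₀ : Bool)
    (s k d : Fin 4 → ℤ) (hl : Land μ (μ * Mc + μ / 2) c₀ s k) (hd : Dirs c₀ d) :
    ∃ (p : ℝ) (w₀ : ℤ), 0 < p ∧ 0 < w₀ ∧ ∀ L : Lat, RSW L κ → ∀ w R r' : ℤ, w % 2 = 1 → w₀ ≤ w →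
      2 * ((μ * Mc + μ / 2) * w + w / 2) ≤ R →
      r' + (μ + 10) * w ≤ (μ * Mc + μ / 2) * w + w / 2 →
      (μ * Mc + μ / 2) * w + w / 2 ≤ 4 * r' → ∀ G : Finset Pt,
      (∀ v, r' / 2 < nrm v → nrm v ≤ (μ * Mc + μ / 2) * w + w / 2 → v ∈ G) → ∀ ω : Cfg,
      p * cpr G (L.E2i w μ Mc R c₀ s k d) ω ≤ cpr G (L.S4 r' R) ω :=
  IfL.route_in κ μ Mc hμ hμ0 hM c₀ s k d hl hd

end SC

end
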