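import Mathlib
import Pool.Agent.Lib_MP_e0a489_m.G05
import Pool.Agent.Lib_MP_e0a489_m.G06
import Pool.Agent.Lib_MP_e0a489_m.G07
import Pool.Agent.Lib_MP_e0a489_m.G08

/-!
# MP_e0a489_pr: merged library part G11

Concatenation of library files (each in its own section), only to save build time.
-/

/-! ### from `Lib_MP_e0a489.TE3` -/

section

/-!
# MP_e0a489, topology 5c: the box crossing hypothesis, invariance and general rectangles
-/

set_option autoImplicit false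

namespace SC

open Classical

variable {L : Lat} {κ : ℕ → ℝ}

namespace Lat

private theorem te3_inter (L : Lat) (c : Bool) (D : Set Pt) {ω ω' : Cfg}
    (h : ∀ v ∈ D, ω v = ω' v) : D ∩ L.col c ω = D ∩ L.col c ω' := by
  ext v
  constructor
  · rintro ⟨h1, h2⟩
    refine ⟨h1, ?_⟩
    have h3 : L.st ω v = c := h2
    show L.st ω' v = c
    unfold Lat.st at h3 ⊢
    rw [← h v h1]
    exact h3
  · rintro ⟨h1, h2⟩
    refine ⟨h1, ?_⟩
    have h3 : L.st ω' v = c := h2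
    show L.st ω v = c
    unfold Lat.st at h3 ⊢
    rw [h v h1]
    exact h3

private theorem te3_rect_finite (a b p q : ℤ) : (rect a b p q).Finite := by
  have h : rect a b p q ⊆ Set.Icc a b ×ˢ Set.Icc p q := by
    rintro v ⟨h1, h2⟩
    exact ⟨h1, h2⟩
  exact ((Set.finite_Icc a b).prod (Set.finite_Icc p q)).subset h

private theorem te3_loc {A : Cfg → Prop} {D : Set Pt} (h : Dep A D) (hD : D.Finite) : Loc A :=
  ⟨hD.toFinset, h.mono (by rw [Set.Finite.coe_toFinset])⟩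

theorem Arm.dep (L : Lat) (c : Bool) (D X Y : Set Pt) : Dep (L.Arm c D X Y) D := by
  intro ω ω' h
  unfold Lat.Arm
  rw [te3_inter L c D h]

theorem Two.dep (L : Lat) (c : Bool) (D X Y : Set Pt) : Dep (L.Two c D X Y) D := by
  intro ω ω' h
  unfold Lat.Two
  rw [te3_inter L c D h]

theorem HX.dep (L : Lat) (c : Bool) (a b p q : ℤ) : Dep (L.HX c a b p q) (rect a b p q) := by
  intro ω ω' h
  unfold Lat.HX
  rw [te3_inter L c _ h]

theorem VX.dep (L : Lat) (c : Bool) (a b p q : ℤ) : Dep (L.VX c a b p q) (rect a b p q) := by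
  intro ω ω' h
  unfold Lat.VX
  rw [te3_inter L c _ h]

theorem Arm.loc (L : Lat) (c : Bool) (D X Y : Set Pt) (hD : D.Finite) : Loc (L.Arm c D X Y) :=
  te3_loc (Arm.dep L c D X Y) hD

theorem Two.loc (L : Lat) (c : Bool) (D X Y : Set Pt) (hD : D.Finite) : Loc (L.Two c D X Y) :=
  te3_loc (Two.dep L c D X Y) hD

theorem HX.loc (L : Lat) (c : Bool) (a b p q : ℤ) : Loc (L.HX c a b p q) :=
  te3_loc (HX.dep L c a b p q) (te3_rect_finite a b p q)

theorem VX.loc (L : Lat) (c : Bool) (a b p q : ℤ) : Loc (L.VX c a b p q) :=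
  te3_loc (VX.dep L c a b p q) (te3_rect_finite a b p q)

private theorem te3_col_true {ω ω' : Cfg} (h : ∀ v, ω v ≤ ω' v) :
    L.col true ω ⊆ L.col true ω' := by
  intro v hv
  have h1 : L.st ω v = true := hv
  show L.st ω' v = true
  have h2 := h v
  unfold Lat.st at h1 ⊢
  cases h3 : L.typ v with
  | none =>
    rw [h3] at h1
    simp only [Option.getD_none] at h1 ⊢
    rw [h1] at h2
    exact top_le_iff.mp h2
  | some b =>
    rw [h3] at h1
    simpa using h1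

private theorem te3_col_false {ω ω' : Cfg} (h : ∀ v, ω v ≤ ω' v) :
    L.col false ω' ⊆ L.col false ω := by
  intro v hv
  have h1 : L.st ω' v = false := hv
  show L.st ω v = false
  have h2 := h v
  unfold Lat.st at h1 ⊢
  cases h3 : L.typ v with
  | none =>
    rw [h3] at h1
    simp only [Option.getD_none] at h1 ⊢
    rw [h1] at h2
    exact le_bot_iff.mp h2
  | some b =>
    rw [h3] at h1
    simpa using h1

private theorem te3_mon (L : Lat) (c : Bool) {A : Cfg → Prop}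
    (H : ∀ ω ω' : Cfg, L.col c ω ⊆ L.col c ω' → A ω → A ω') : MonC c A := by
  cases c with
  | true =>
    show Inc A
    intro ω ω' h1 h2
    exact H ω ω' (te3_col_true h1) h2
  | false =>
    show Dec A
    intro ω ω' h1 h2
    exact H ω' ω (te3_col_false h1) h2

theorem Arm.mono {c : Bool} {D D' X X' Y Y' : Set Pt} {ω : Cfg} (h : L.Arm c D X Y ω)
    (hD : D ⊆ D') (hX : X ⊆ X') (hY : Y ⊆ Y') : L.Arm c D' X' Y' ω := by
  obtain ⟨x, hx, y, hy, hc⟩ := h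
  exact ⟨x, hX hx, y, hY hy, hc.mono (Set.inter_subset_inter_left _ hD)⟩

/-- `MonC true = Inc`, `MonC false = Dec` -/
theorem Arm.mon (L : Lat) (c : Bool) (D X Y : Set Pt) : MonC c (L.Arm c D X Y) := by
  refine te3_mon L c ?_
  rintro ω ω' h ⟨x, hx, y, hy, hc⟩
  exact ⟨x, hx, y, hy, hc.mono (Set.inter_subset_inter_right _ h)⟩

theorem HX.mon (L : Lat) (c : Bool) (a b p q : ℤ) : MonC c (L.HX c a b p q) := by
  refine te3_mon L c ?_
  rintro ω ω' h ⟨x, y, hx, hy, hc⟩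
  exact ⟨x, y, hx, hy, hc.mono (Set.inter_subset_inter_right _ h)⟩

theorem VX.mon (L : Lat) (c : Bool) (a b p q : ℤ) : MonC c (L.VX c a b p q) := by
  refine te3_mon L c ?_
  rintro ω ω' h ⟨x, y, hx, hy, hc⟩
  exact ⟨x, y, hx, hy, hc.mono (Set.inter_subset_inter_right _ h)⟩

/-- the first part of a path up to the level `t` of a Lipschitz function -/
private theorem te3_cut {A : Set Pt} {u v : Pt} (h : L.Cn A u v) (f : Pt → ℤ)
    (hf : ∀ x y, L.Adj x y → |f x - f y| ≤ 1) (t : ℤ) (hu : f u ≤ t) (hv : t ≤ f v) :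
    ∃ w, f w = t ∧ L.Cn (A ∩ {x | f x ≤ t}) u w := by
  by_cases hv' : f v ≤ t
  · -- then `f v = t`, but the path may leave the set: use the exit lemma when it does
    by_cases hA : L.Cn (A ∩ {x | f x ≤ t}) u v
    · exact ⟨v, le_antisymm hv' hv, hA⟩
    · have key : L.Cn (A ∩ {x | f x ≤ t}) u v ∨
          ∃ p q, L.Cn (A ∩ {x | f x ≤ t}) u p ∧ L.Adj p q ∧ q ∈ A ∧ q ∉ {x | f x ≤ t} := by
        obtain ⟨hu', hp⟩ := h
        clear hA hv hv'
        induction hp with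
        | refl => exact Or.inl (Cn.refl ⟨hu', hu⟩)
        | @tail x y _ hxy ih =>
          rcases ih with ih | ih
          · by_cases hS : f y ≤ t
            · refine Or.inl (ih.trans (Cn.of_adj ih.right ⟨hxy.2, hS⟩ hxy.1))
            · exact Or.inr ⟨x, y, ih, hxy.1, hxy.2, hS⟩
          · exact Or.inr ih
      rcases key with key | ⟨p, q, hc, ha, _, hqS⟩
      · exact absurd key hA
      · refine ⟨p, ?_, hc⟩
        have h1 : f p ≤ t := hc.right.2
        have h2 : ¬ f q ≤ t := hqS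
        have h3 := abs_le.mp (hf p q ha)
        omega
  · obtain ⟨p, q, hc, ha, _, hqS⟩ := h.exit (S := {x | f x ≤ t}) hu hv'
    refine ⟨p, ?_, hc⟩
    have h1 : f p ≤ t := hc.right.2
    have h2 : ¬ f q ≤ t := hqS
    have h3 := abs_le.mp (hf p q ha)
    omega

/-- the part of a path between the levels `s` and `t` of a Lipschitz function -/
private theorem te3_cut2 {A : Set Pt} {u v : Pt} (h : L.Cn A u v) (f : Pt → ℤ)
    (hf : ∀ x y, L.Adj x y → |f x - f y| ≤ 1) (s t : ℤ) (hst : s ≤ t) (hu : f u ≤ s)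
    (hv : t ≤ f v) :
    ∃ w z, f w = s ∧ f z = t ∧ L.Cn ((A ∩ {x | f x ≤ t}) ∩ {x | s ≤ f x}) w z := by
  obtain ⟨z, hz, hc⟩ := te3_cut h f hf t (hu.trans hst) hv
  obtain ⟨w, hw, hc'⟩ := te3_cut hc.symm (fun x => - f x)
    (fun x y hxy => by
      have h1 := abs_le.mp (hf x y hxy)
      rw [abs_le]
      constructor <;> omega) (-s) (by show - f z ≤ -s; omega) (by show -s ≤ - f u; omega)
  refine ⟨w, z, by have h1 : - f w = -s := hw; omega, hz, hc'.symm.mono ?_⟩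
  rintro x ⟨h1, h2⟩
  refine ⟨h1, ?_⟩
  have h3 : - f x ≤ - s := h2
  show s ≤ f x
  omega

/-- a crossing contains a crossing of a shorter and higher rectangle (`Cn.last`, `Cn.exit`) -/
theorem HX.mono {c : Bool} {a b p q a' b' p' q' : ℤ} {ω : Cfg} (h : L.HX c a b p q ω)
    (ha : a ≤ a') (hab : a' ≤ b') (hb : b' ≤ b) (hp : p' ≤ p) (hq : q ≤ q') :
    L.HX c a' b' p' q' ω := by
  obtain ⟨u, v, hu, hv, hc⟩ := h
  obtain ⟨w, z, hw, hz, hc'⟩ := te3_cut2 hc (fun x => x.1) (fun x y hxy => hxy.near.1) a' b' hab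
    (by show u.1 ≤ a'; omega) (by show b' ≤ v.1; omega)
  refine ⟨w, z, hw, hz, hc'.mono ?_⟩
  rintro x ⟨⟨⟨⟨h1, h2⟩, h3⟩, h4⟩, h5⟩
  have h6 : x.1 ≤ b' := h4
  have h7 : a' ≤ x.1 := h5
  exact ⟨⟨⟨h7, h6⟩, hp.trans h2.1, h2.2.trans hq⟩, h3⟩

theorem VX.mono {c : Bool} {a b p q a' b' p' q' : ℤ} {ω : Cfg} (h : L.VX c a b p q ω)
    (ha : a' ≤ a) (hb : b ≤ b') (hp : p ≤ p') (hpq : p' ≤ q') (hq : q' ≤ q) :
    L.VX c a' b' p' q' ω := by
  obtain ⟨u, v, hu, hv, hc⟩ := h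
  obtain ⟨w, z, hw, hz, hc'⟩ := te3_cut2 hc (fun x => x.2) (fun x y hxy => hxy.near.2) p' q' hpq
    (by show u.2 ≤ p'; omega) (by show q' ≤ v.2; omega)
  refine ⟨w, z, hw, hz, hc'.mono ?_⟩
  rintro x ⟨⟨⟨⟨h1, h2⟩, h3⟩, h4⟩, h5⟩
  have h6 : x.2 ≤ q' := h4
  have h7 : p' ≤ x.2 := h5
  exact ⟨⟨⟨ha.trans h1.1, h1.2.trans hb⟩, h7, h6⟩, h3⟩

end Lat

theorem RSW.shift (h : RSW L κ) (x : Pt) : RSW (L.shift x) κ where
  pos := h.pos
  hx := by
    intro k b n a p hk hn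
    rw [← pr_via (Lat.HX.loc (L.shift x) b a (a + k * n) p (p + n)) (Equiv.addRight x)]
    have h1 := h.hx k b n (a + x.1) (p + x.2) hk hn
    have h2 : (fun ω => (L.shift x).HX b a (a + k * n) p (p + n) (via (Equiv.addRight x) ω)) =
        L.HX b (a + x.1) (a + x.1 + k * n) (p + x.2) (p + x.2 + n) := by
      funext ω
      rw [shift_hx, show a + k * n + x.1 = a + x.1 + k * n by ring,
        show p + n + x.2 = p + x.2 + n by ring]
    rw [h2]
    exact h1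
  vx := by
    intro k b n a p hk hn
    rw [← pr_via (Lat.VX.loc (L.shift x) b a (a + n) p (p + k * n)) (Equiv.addRight x)]
    have h1 := h.vx k b n (a + x.1) (p + x.2) hk hn
    have h2 : (fun ω => (L.shift x).VX b a (a + n) p (p + k * n) (via (Equiv.addRight x) ω)) =
        L.VX b (a + x.1) (a + x.1 + n) (p + x.2) (p + x.2 + k * n) := by
      funext ω
      rw [shift_vx, show a + n + x.1 = a + x.1 + n by ring,
        show p + k * n + x.2 = p + x.2 + k * n by ring]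
    rw [h2]
    exact h1

theorem RSW.tr (h : RSW L κ) : RSW L.tr κ where
  pos := h.pos
  hx := by
    intro k b n a p hk hn
    rw [← pr_via (Lat.HX.loc L.tr b a (a + k * n) p (p + n)) (Equiv.prodComm ℤ ℤ)]
    have h1 := h.vx k b n p a hk hn
    have h2 : (fun ω => L.tr.HX b a (a + k * n) p (p + n) (via (Equiv.prodComm ℤ ℤ) ω)) =
        L.VX b p (p + n) a (a + k * n) := by
      funext ω
      rw [tr_hx]
    rw [h2]
    exact h1
  vx := by
    intro k b n a p hk hn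
    rw [← pr_via (Lat.VX.loc L.tr b a (a + n) p (p + k * n)) (Equiv.prodComm ℤ ℤ)]
    have h1 := h.hx k b n p a hk hn
    have h2 : (fun ω => L.tr.VX b a (a + n) p (p + k * n) (via (Equiv.prodComm ℤ ℤ) ω)) =
        L.HX b p (p + k * n) a (a + n) := by
      funext ω
      rw [tr_vx]
    rw [h2]
    exact h1

theorem RSW.rx (h : RSW L κ) : RSW L.rx κ where
  pos := h.pos
  hx := by
    intro k b n a p hk hn
    rw [← pr_via (Lat.HX.loc L.rx b a (a + k * n) p (p + n)) rxE]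
    have h1 := h.hx k b n (-(a + k * n)) p hk hn
    have h2 : (fun ω => L.rx.HX b a (a + k * n) p (p + n) (via rxE ω)) =
        L.HX b (-(a + k * n)) (-(a + k * n) + k * n) p (p + n) := by
      funext ω
      rw [rx_hx, show -(a + k * n) + k * n = -a by ring]
    rw [h2]
    exact h1
  vx := by
    intro k b n a p hk hn
    rw [← pr_via (Lat.VX.loc L.rx b a (a + n) p (p + k * n)) rxE]
    have h1 := h.vx k b n (-(a + n)) p hk hn
    have h2 : (fun ω => L.rx.VX b a (a + n) p (p + k * n) (via rxE ω)) =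
        L.VX b (-(a + n)) (-(a + n) + n) p (p + k * n) := by
      funext ω
      rw [rx_vx, show -(a + n) + n = -a by ring]
    rw [h2]
    exact h1

theorem RSW.ry (h : RSW L κ) : RSW L.ry κ where
  pos := h.pos
  hx := by
    intro k b n a p hk hn
    rw [← pr_via (Lat.HX.loc L.ry b a (a + k * n) p (p + n)) ryE]
    have h1 := h.hx k b n a (-(p + n)) hk hn
    have h2 : (fun ω => L.ry.HX b a (a + k * n) p (p + n) (via ryE ω)) =
        L.HX b a (a + k * n) (-(p + n)) (-(p + n) + n) := by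
      funext ω
      rw [ry_hx, show -(p + n) + n = -p by ring]
    rw [h2]
    exact h1
  vx := by
    intro k b n a p hk hn
    rw [← pr_via (Lat.VX.loc L.ry b a (a + n) p (p + k * n)) ryE]
    have h1 := h.vx k b n a (-(p + k * n)) hk hn
    have h2 : (fun ω => L.ry.VX b a (a + n) p (p + k * n) (via ryE ω)) =
        L.VX b a (a + n) (-(p + k * n)) (-(p + k * n) + k * n) := by
      funext ω
      rw [ry_vx, show -(p + k * n) + k * n = -p by ring]
    rw [h2]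
    exact h1

theorem RSW.rot (h : RSW L κ) : RSW L.rot κ := by
  unfold Lat.rot
  exact h.rx.tr

theorem RSW.rots (h : RSW L κ) (s : ℤ) : RSW (L.rots s) κ := by
  unfold Lat.rots
  split_ifs
  · exact h
  · exact h.rot
  · exact h.rot.rot
  · exact h.rot.rot.rot

private theorem te3_hx_arm (L : Lat) (c : Bool) (a b p q : ℤ) (ω : Cfg) :
    L.HX c a b p q ω ↔ L.Arm c (rect a b p q) {u | u.1 = a} {v | v.1 = b} ω := by
  constructor
  · rintro ⟨u, v, hu, hv, hc⟩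
    exact ⟨u, hu, v, hv, hc⟩
  · rintro ⟨u, hu, v, hv, hc⟩
    exact ⟨u, v, hu, hv, hc⟩

private theorem te3_vx_arm (L : Lat) (c : Bool) (a b p q : ℤ) (ω : Cfg) :
    L.VX c a b p q ω ↔ L.Arm c (rect a b p q) {u | u.2 = p} {v | v.2 = q} ω := by
  constructor
  · rintro ⟨u, v, hu, hv, hc⟩
    exact ⟨u, hu, v, hv, hc⟩
  · rintro ⟨u, hu, v, hv, hc⟩
    exact ⟨u, v, hu, hv, hc⟩

theorem RSW.sw (h : RSW L κ) : RSW L.sw κ where
  pos := h.pos
  hx := by
    intro k b n a p hk hn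
    rw [← pr_flip (Lat.HX.loc L.sw b a (a + k * n) p (p + n))]
    have h1 := h.hx k (!b) n a p hk hn
    have h2 : (fun ω : Cfg => L.sw.HX b a (a + k * n) p (p + n) (fun v => ! ω v)) =
        L.HX (!b) a (a + k * n) p (p + n) := by
      funext ω
      rw [te3_hx_arm, te3_hx_arm, sw_arm]
    rw [h2]
    exact h1
  vx := by
    intro k b n a p hk hn
    rw [← pr_flip (Lat.VX.loc L.sw b a (a + n) p (p + k * n))]
    have h1 := h.vx k (!b) n a p hk hn
    have h2 : (fun ω : Cfg => L.sw.VX b a (a + n) p (p + k * n) (fun v => ! ω v)) =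
        L.VX (!b) a (a + n) p (p + k * n) := by
      funext ω
      rw [te3_vx_arm, te3_vx_arm, sw_arm]
    rw [h2]
    exact h1

/-- crossing of a rectangle of aspect ratio at most `k` -/
theorem RSW.hx' (h : RSW L κ) {k : ℕ} (hk : 1 ≤ k) (c : Bool) {a b p q : ℤ} (hab : a ≤ b)
    (h4 : 4 ≤ q - p) (hr : b - a ≤ k * (q - p)) : κ k ≤ pr (L.HX c a b p q) := by
  refine (h.hx k c (q - p) a p hk h4).trans ?_
  refine pr_mono (Lat.HX.loc L c _ _ _ _) (Lat.HX.loc L c _ _ _ _) fun ω hω => ?_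
  exact hω.mono le_rfl hab (by linarith) le_rfl (by linarith)

theorem RSW.vx' (h : RSW L κ) {k : ℕ} (hk : 1 ≤ k) (c : Bool) {a b p q : ℤ} (hpq : p ≤ q)
    (h4 : 4 ≤ b - a) (hr : q - p ≤ k * (b - a)) : κ k ≤ pr (L.VX c a b p q) := by
  refine (h.vx k c (b - a) a p hk h4).trans ?_
  refine pr_mono (Lat.VX.loc L c _ _ _ _) (Lat.VX.loc L c _ _ _ _) fun ω hω => ?_
  exact hω.mono le_rfl (by linarith) le_rfl hpq (by linarith)

end SC

end

/-! ### from `Lib_MP_e0a489.EX1` -/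

section

/-!
# MP_e0a489, topology 7: exploration of clusters, stopping property, step lemma
-/

set_option autoImplicit false

namespace SC

open Classical

namespace Lat

variable {L : Lat} {c : Bool} {M S : Set Pt} {ω : Cfg}

private theorem ex1_col {ω ω' : Cfg} {v : Pt} (h : ω v = ω' v) (b : Bool) :
    v ∈ L.col b ω ↔ v ∈ L.col b ω' := by
  show L.st ω v = b ↔ L.st ω' v = b
  unfold Lat.st
  rw [h]

theorem Cx_sup : S ⊆ L.Cx c M S ω := by
  exact Set.subset_union_left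

theorem Cx_sub (h : S ⊆ M) : L.Cx c M S ω ⊆ M := by
  rintro v (hv | ⟨u, -, hv⟩)
  · exact h hv
  · exact hv.right.1.1

theorem Cx_col {v : Pt} (h : v ∈ L.Cx c M S ω) (hS : v ∉ S) : v ∈ M ∧ v ∈ L.col c ω := by
  rcases h with hv | ⟨u, -, hv⟩
  · exact absurd hv hS
  · exact ⟨hv.right.1.1, hv.right.2⟩

theorem Cx_con (hS : L.Con S) : L.Con (L.Cx c M S ω) := by
  refine Con.union_many hS ?_
  rintro v ⟨u, ⟨s, hs, hsu⟩, hv⟩
  refine ⟨s, hs, u, hsu, ?_⟩
  have h1 := con_cluster (L := L) ((M \ S) ∩ L.col c ω) u u (Cn.refl hv.left) v hv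
  exact h1.mono (fun w hw => ⟨u, ⟨s, hs, hsu⟩, hw⟩)

/-- a site of colour `c` of `M` with a neighbour in `Cx` belongs to `Cx` -/
theorem Cx_closed {v : Pt} (hM : v ∈ M) (hc : v ∈ L.col c ω) (hn : v ∈ L.nb (L.Cx c M S ω)) :
    v ∈ L.Cx c M S ω := by
  by_cases hS : v ∈ S
  · exact Or.inl hS
  obtain ⟨w, hw, hwv⟩ := hn
  rcases hw with hw | ⟨u, hu, hw⟩
  · exact Or.inr ⟨v, ⟨w, hw, hwv⟩, Cn.refl ⟨⟨hM, hS⟩, hc⟩⟩
  · exact Or.inr ⟨u, hu, hw.trans (Cn.of_adj hw.right ⟨⟨hM, hS⟩, hc⟩ hwv)⟩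

/-- a path of colour `c` in `M \ S` that starts at a site with a neighbour in `S`, or in `Cx`, stays in `Cx` -/
theorem Cx_path {u v : Pt} (h : L.Cn ((M \ S) ∩ L.col c ω) u v)
    (hu : u ∈ L.nb S ∨ u ∈ L.Cx c M S ω) : v ∈ L.Cx c M S ω := by
  rcases hu with hu | hu | ⟨w, hw, hu⟩
  · exact Or.inr ⟨u, hu, h⟩
  · exact absurd hu h.left.1.2
  · exact Or.inr ⟨w, hw, hu.trans h⟩

/-- the sites of `M` next to `Cx` and not in `Cx` have the other colour -/
theorem bd_col {v : Pt} (hM : v ∈ M) (hn : v ∈ L.nb (L.Cx c M S ω)) (hC : v ∉ L.Cx c M S ω) :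
    v ∈ L.col (!c) ω := by
  have h1 : ¬ L.st ω v = c := fun h => hC (Cx_closed hM h hn)
  show L.st ω v = !c
  revert h1
  cases L.st ω v <;> cases c <;> simp

/-- The exploration is determined by the explored sites. -/
theorem Cx_stop {ω' : Cfg} (h : ∀ v ∈ L.Rev c M S ω, ω v = ω' v) :
    L.Cx c M S ω' = L.Cx c M S ω := by
  have key : ∀ v, v ∈ M → v ∈ L.col c ω' → v ∈ L.nb (L.Cx c M S ω) → v ∈ L.Cx c M S ω := by
    intro v hM hc hn
    by_contra hC
    have hR : v ∈ L.Rev c M S ω := Or.inr ⟨hM, hn⟩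
    exact hC (Cx_closed hM ((ex1_col (h v hR) c).2 hc) hn)
  apply Set.Subset.antisymm
  · rintro v (hv | ⟨u, hu, hv⟩)
    · exact Or.inl hv
    · obtain ⟨h0, hv⟩ := hv
      obtain ⟨s, hs, hsu⟩ := hu
      induction hv with
      | refl => exact key _ h0.1.1 h0.2 ⟨s, Or.inl hs, hsu⟩
      | tail _ hbc ih => exact key _ hbc.2.1.1 hbc.2.2 ⟨_, ih, hbc.1⟩
  · rintro v (hv | ⟨u, hu, hv⟩)
    · exact Or.inl hv
    · refine Or.inr ⟨u, hu, ?_⟩
      have h1 := con_cluster (L := L) ((M \ S) ∩ L.col c ω) u u (Cn.refl hv.left) v hv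
      refine h1.mono (fun w hw => ?_)
      have hw' : L.Cn ((M \ S) ∩ L.col c ω) u w := hw
      exact ⟨hw'.right.1, (ex1_col (h w (Or.inl (Or.inr ⟨u, hu, hw'⟩))) c).1 hw'.right.2⟩

theorem Rev_stop (L : Lat) (c : Bool) (M S : Set Pt) : Stop (L.Rev c M S) := by
  intro ω ω' h
  unfold Lat.Rev
  rw [Cx_stop h]

theorem Cx_mix (G : Finset Pt) (η : Cfg) :
    L.Cx c M S (mix G (L.Rev c M S) ω η) = L.Cx c M S ω := by
  refine Cx_stop (fun v hv => ?_)
  unfold mix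
  rw [if_neg (fun h => h.2 hv)]

/-- explored sites keep their colour -/
theorem mix_col_rev {G : Finset Pt} {η : Cfg} {v : Pt} (h : v ∈ L.Rev c M S ω) (b : Bool) :
    v ∈ L.col b (mix G (L.Rev c M S) ω η) ↔ v ∈ L.col b ω := by
  refine ex1_col ?_ b
  unfold mix
  rw [if_neg (fun h' => h'.2 h)]

/-- unexplored sites of `G` take the fresh colour -/
theorem mix_col_new {G : Finset Pt} {η : Cfg} {v : Pt} (h : v ∉ L.Rev c M S ω) (hG : v ∈ G)
    (b : Bool) : v ∈ L.col b (mix G (L.Rev c M S) ω η) ↔ v ∈ L.col b η := by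
  refine ex1_col ?_ b
  unfold mix
  rw [if_pos ⟨hG, h⟩]

/-- STEP LEMMA.  The clusters of colour `!c` attached to `S` in `M` are explored, `C = Cx (!c) M S ω`.  `N` is an
additional region (a block next to `M`, disjoint from `M` and without neighbours in `C`), `V` a component of
`(M ∪ N) \ C` with connected boundary, `x ∈ V` has a neighbour in `C`; `T ⊆ M ∪ N` is a connected set of
fresh sites of colour `c`, it contains a site `u ∈ N ∩ V` and meets `C`.  Then in the mixed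
configuration `x` is joined to `u` in colour `c` in `V`.
Proof: `exit_bd` (for `M ∪ N`) gives `p`, `q` with `Cn (T ∩ (V \ bd V C)) u p`, `Adj p q`, `q ∈ T ∩ bd V C`.  The sites of
`V \ bd V C` are not explored (a site of `bd M C` in `V` is in `bd V C`), so those of `T` have colour `c` in the
mixed configuration (`mix_col_new`).  The sites of `bd V C` are in `M` (no site of `N` has a neighbour in
`C`), explored, of colour `c` (`bd_col`, `mix_col_rev`).  `bd V C` is connected and contains `x` and `q`. -/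
theorem step {N V T : Set Pt} {G : Finset Pt} {η : Cfg} {x u : Pt} (hS : S ⊆ M)
    (hN : ∀ v ∈ N, v ∉ M ∧ v ∉ L.nb (L.Cx (!c) M S ω))
    (hV : L.Comp ((M ∪ N) \ L.Cx (!c) M S ω) V) (hB : L.Con (L.bd V (L.Cx (!c) M S ω)))
    (hx : x ∈ V) (hx' : x ∈ L.nb (L.Cx (!c) M S ω)) (hT : L.Con T) (hTM : T ⊆ M ∪ N)
    (hTG : T ⊆ (G : Set Pt)) (hTc : T ⊆ L.col c η) (hu : u ∈ T) (huN : u ∈ N) (huV : u ∈ V)
    (hex : (T ∩ L.Cx (!c) M S ω).Nonempty) :
    L.Cn (V ∩ L.col c (mix G (L.Rev (!c) M S) ω η)) x u := by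
  obtain ⟨z, hzT, hzC⟩ := hex
  have huD : u ∈ V \ L.bd V (L.Cx (!c) M S ω) := ⟨huV, fun h => (hN u huN).2 h.2⟩
  have hzD : z ∉ V \ L.bd V (L.Cx (!c) M S ω) := fun h => (hV.sub h.1).2 hzC
  obtain ⟨p, q, h1, h2, h3, h4⟩ := exit_bd hV hT hTM hu huD hzT hzD
  have hA : T ∩ (V \ L.bd V (L.Cx (!c) M S ω)) ⊆
      V ∩ L.col c (mix G (L.Rev (!c) M S) ω η) := by
    rintro w ⟨hwT, hwV, hwb⟩
    have hwR : w ∉ L.Rev (!c) M S ω := by
      rintro (hw | hw)
      · exact (hV.sub hwV).2 hw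
      · exact hwb ⟨hwV, hw.2⟩
    exact ⟨hwV, (mix_col_new hwR (hTG hwT) c).2 (hTc hwT)⟩
  have hBd : L.bd V (L.Cx (!c) M S ω) ⊆ V ∩ L.col c (mix G (L.Rev (!c) M S) ω η) := by
    rintro w ⟨hwV, hwn⟩
    have hwM : w ∈ M := by
      rcases (hV.sub hwV).1 with hw | hw
      · exact hw
      · exact absurd hwn (hN w hw).2
    have hwc : w ∈ L.col c ω := by
      have := bd_col hwM hwn (hV.sub hwV).2
      rwa [Bool.not_not] at this
    have hwR : w ∈ L.Rev (!c) M S ω := Or.inr ⟨hwM, hwn⟩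
    exact ⟨hwV, (mix_col_rev hwR c).2 hwc⟩
  have hxq := (hB x ⟨hx, hx'⟩ q h4).mono hBd
  have hpu := (h1.symm).mono hA
  exact (hxq.trans (Cn.of_adj (hBd h4) hpu.left (Adj.symm h2))).trans hpu

/-- two arms of colour `c` starting at neighbours of `S` which are not joined in `M \ S` lie in different
components of `M \ Cx (!c)`: precisely, `x`, `x'` do not lie in one component with connected boundary -/
theorem step_ne {V : Set Pt} {x x' : Pt} (hS : S ⊆ M) (hV : L.Comp (M \ L.Cx (!c) M S ω) V)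
    (hB : L.Con (L.bd V (L.Cx (!c) M S ω))) (hx : x ∈ V) (hx' : x' ∈ V) (hxS : x ∈ L.nb S)
    (hxS' : x' ∈ L.nb S) : L.Cn ((M \ S) ∩ L.col c ω) x x' := by
  obtain ⟨s, hs, hsx⟩ := hxS
  obtain ⟨s', hs', hsx'⟩ := hxS'
  refine (hB x ⟨hx, s, Or.inl hs, hsx⟩ x' ⟨hx', s', Or.inl hs', hsx'⟩).mono ?_
  rintro w ⟨hwV, hwn⟩
  have hw := hV.sub hwV
  have hwc : w ∈ L.col c ω := by
    have := bd_col hw.1 hwn hw.2
    rwa [Bool.not_not] at this
  exact ⟨⟨hw.1, fun h => hw.2 (Or.inl h)⟩, hwc⟩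

end Lat

end SC

end

/-! ### from `Lib_MP_e0a489.TD3` -/

section

/-!
# MP_e0a489, topology 6c: half circuits
-/

set_option autoImplicit false

namespace SC

open Classical

variable {L : Lat} {κ : ℕ → ℝ}

private theorem TD3_nrm (v : Pt) (x k : ℤ) :
    nrm (v - (x, 0)) ≤ k ↔ (-k ≤ v.1 - x ∧ v.1 - x ≤ k) ∧ -k ≤ v.2 ∧ v.2 ≤ k := by
  unfold nrm
  rw [max_le_iff, abs_le, abs_le]
  simp only [Prod.fst_sub, Prod.snd_sub, sub_zero]

namespace Lat

theorem HC.dep (L : Lat) (c : Bool) (x r R : ℤ) (hr : 0 ≤ r) :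
    Dep (L.HC c x r R) (rect (x - R) (x + R) 0 R ∩ {v | r < nrm (v - (x, 0))}) := by
  intro ω ω' h
  have h1 : L.VX c (x - R) (x - r - 1) 0 R ω = L.VX c (x - R) (x - r - 1) 0 R ω' := by
    refine VX.dep L c _ _ _ _ ω ω' (fun v hv => h v ?_)
    obtain ⟨⟨a1, a2⟩, a3, a4⟩ := hv
    refine ⟨⟨⟨a1, by omega⟩, a3, a4⟩, ?_⟩
    show r < nrm (v - (x, 0))
    by_contra hc
    have := (TD3_nrm v x r).1 (not_lt.1 hc)
    omega
  have h2 : L.HX c (x - R) (x + R) (r + 1) R ω = L.HX c (x - R) (x + R) (r + 1) R ω' := by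
    refine HX.dep L c _ _ _ _ ω ω' (fun v hv => h v ?_)
    obtain ⟨⟨a1, a2⟩, a3, a4⟩ := hv
    refine ⟨⟨⟨a1, a2⟩, by omega, a4⟩, ?_⟩
    show r < nrm (v - (x, 0))
    by_contra hc
    have := (TD3_nrm v x r).1 (not_lt.1 hc)
    omega
  have h3 : L.VX c (x + r + 1) (x + R) 0 R ω = L.VX c (x + r + 1) (x + R) 0 R ω' := by
    refine VX.dep L c _ _ _ _ ω ω' (fun v hv => h v ?_)
    obtain ⟨⟨a1, a2⟩, a3, a4⟩ := hv
    refine ⟨⟨⟨by omega, a2⟩, a3, a4⟩, ?_⟩
    show r < nrm (v - (x, 0))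
    by_contra hc
    have := (TD3_nrm v x r).1 (not_lt.1 hc)
    omega
  show (L.VX c (x - R) (x - r - 1) 0 R ω ∧ L.HX c (x - R) (x + R) (r + 1) R ω ∧
    L.VX c (x + r + 1) (x + R) 0 R ω) = _
  rw [h1, h2, h3]
  rfl

theorem HC.loc (L : Lat) (c : Bool) (x r R : ℤ) : Loc (L.HC c x r R) :=
  (VX.loc L c _ _ _ _).and ((HX.loc L c _ _ _ _).and (VX.loc L c _ _ _ _))

private theorem TD3_mon_and {c : Bool} {A B : Cfg → Prop} (hA : MonC c A) (hB : MonC c B) :
    MonC c (fun ω => A ω ∧ B ω) := by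
  cases c with
  | true =>
    intro ω ω' h hAB
    exact ⟨hA ω ω' h hAB.1, hB ω ω' h hAB.2⟩
  | false =>
    intro ω ω' h hAB
    exact ⟨hA ω ω' h hAB.1, hB ω ω' h hAB.2⟩

theorem HC.mon (L : Lat) (c : Bool) (x r R : ℤ) : MonC c (L.HC c x r R) :=
  TD3_mon_and (VX.mon L c _ _ _ _) (TD3_mon_and (HX.mon L c _ _ _ _) (VX.mon L c _ _ _ _))

/-- Half circuits separate in the half plane and have a left and a right foot.  Same proof as
`Circ.sep`: `σ` is the union of the three crossing sets.  Let `P ⊆ {0 ≤ v.2}` be connected with a site of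
`{nrm (v - (x,0)) ≤ r}` and one with `R ≤ nrm (v - (x,0))`; stop it at norm `R` and add the half box
`rect (x-r) (x+r) 0 r`.  If the last site is on the top side, `P` joins the bottom row to the top
row and meets the top crossing (`cross` in `rect (x-R) (x+R) 0 R`).  If it is on the right side, add the row
`rect (x-R) x 0 0`: the union joins the left side to the right side, so it meets the right
crossing `VX` of `rect (x+r+1) (x+R) 0 R`, at a site with first coordinate `> x + r`, which is in `P`. -/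
theorem HC.sep {c : Bool} {x r R : ℤ} (hr : 0 ≤ r) (hR : r < R) {ω : Cfg} (h : L.HC c x r R ω) :
    ∃ σ, σ ⊆ L.col c ω ∧ L.Con σ ∧
      σ ⊆ rect (x - R) (x + R) 0 R ∩ {v | r < nrm (v - (x, 0))} ∧
      (∃ f, x + r + 1 ≤ f ∧ f ≤ x + R ∧ (f, 0) ∈ σ) ∧
      (∃ f, x - R ≤ f ∧ f ≤ x - r - 1 ∧ (f, 0) ∈ σ) ∧
      ∀ P : Set Pt, L.Con P → P ⊆ {v | 0 ≤ v.2} → (∃ v ∈ P, nrm (v - (x, 0)) ≤ r) →
        (∃ v ∈ P, R ≤ nrm (v - (x, 0))) → (σ ∩ P).Nonempty := by
  obtain ⟨⟨u1, v1, hu1, hv1, c1⟩, ⟨u2, v2, hu2, hv2, c2⟩, ⟨u3, v3, hu3, hv3, c3⟩⟩ := h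
  -- the three crossing sets
  obtain ⟨A1, hA1⟩ : ∃ A, A = {w | L.Cn (rect (x - R) (x - r - 1) 0 R ∩ L.col c ω) u1 w} :=
    ⟨_, rfl⟩
  obtain ⟨A2, hA2⟩ : ∃ A, A = {w | L.Cn (rect (x - R) (x + R) (r + 1) R ∩ L.col c ω) u2 w} :=
    ⟨_, rfl⟩
  obtain ⟨A3, hA3⟩ : ∃ A, A = {w | L.Cn (rect (x + r + 1) (x + R) 0 R ∩ L.col c ω) u3 w} :=
    ⟨_, rfl⟩
  have k1 : L.Con A1 := by rw [hA1]; exact con_cluster _ _
  have k2 : L.Con A2 := by rw [hA2]; exact con_cluster _ _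
  have k3 : L.Con A3 := by rw [hA3]; exact con_cluster _ _
  have s1 : A1 ⊆ rect (x - R) (x - r - 1) 0 R ∩ L.col c ω := by
    rw [hA1]
    intro w hw
    exact Cn.right hw
  have s2 : A2 ⊆ rect (x - R) (x + R) (r + 1) R ∩ L.col c ω := by
    rw [hA2]
    intro w hw
    exact Cn.right hw
  have s3 : A3 ⊆ rect (x + r + 1) (x + R) 0 R ∩ L.col c ω := by
    rw [hA3]
    intro w hw
    exact Cn.right hw
  have m1 : u1 ∈ A1 := by rw [hA1]; exact Cn.refl c1.left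
  have n1 : v1 ∈ A1 := by rw [hA1]; exact c1
  have m2 : u2 ∈ A2 := by rw [hA2]; exact Cn.refl c2.left
  have n2 : v2 ∈ A2 := by rw [hA2]; exact c2
  have m3 : u3 ∈ A3 := by rw [hA3]; exact Cn.refl c3.left
  have n3 : v3 ∈ A3 := by rw [hA3]; exact c3
  have i12 : (A2 ∩ A1).Nonempty := by
    obtain ⟨w, hw, -⟩ := crossX k2 k1 (fun v hv => (s2 hv).1) (fun v hv => (s1 hv).1)
      ⟨u2, m2, hu2⟩ ⟨v2, n2, hv2⟩ ⟨u1, m1, hu1⟩ ⟨v1, n1, hv1⟩ le_rfl (by omega) (by omega)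
      le_rfl (by omega) (by omega)
    exact ⟨w, hw⟩
  have i23 : (A2 ∩ A3).Nonempty := by
    obtain ⟨w, hw, -⟩ := crossX k2 k3 (fun v hv => (s2 hv).1) (fun v hv => (s3 hv).1)
      ⟨u2, m2, hu2⟩ ⟨v2, n2, hv2⟩ ⟨u3, m3, hu3⟩ ⟨v3, n3, hv3⟩ (by omega) le_rfl (by omega)
      le_rfl (by omega) (by omega)
    exact ⟨w, hw⟩
  have kσ : L.Con ((A2 ∪ A1) ∪ A3) := by
    refine (k2.union k1 i12).union k3 ?_
    obtain ⟨w, hw2, hw3⟩ := i23
    exact ⟨w, Or.inl hw2, hw3⟩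
  refine ⟨(A2 ∪ A1) ∪ A3, ?_, kσ, ?_, ?_, ?_, ?_⟩
  · rintro w ((hw | hw) | hw)
    · exact (s2 hw).2
    · exact (s1 hw).2
    · exact (s3 hw).2
  · rintro w ((hw | hw) | hw)
    · obtain ⟨⟨a1, a2⟩, a3, a4⟩ := (s2 hw).1
      refine ⟨⟨⟨a1, a2⟩, by omega, a4⟩, ?_⟩
      show r < nrm (w - (x, 0))
      by_contra hc
      have := (TD3_nrm w x r).1 (not_lt.1 hc)
      omega
    · obtain ⟨⟨a1, a2⟩, a3, a4⟩ := (s1 hw).1
      refine ⟨⟨⟨a1, by omega⟩, a3, a4⟩, ?_⟩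
      show r < nrm (w - (x, 0))
      by_contra hc
      have := (TD3_nrm w x r).1 (not_lt.1 hc)
      omega
    · obtain ⟨⟨a1, a2⟩, a3, a4⟩ := (s3 hw).1
      refine ⟨⟨⟨by omega, a2⟩, a3, a4⟩, ?_⟩
      show r < nrm (w - (x, 0))
      by_contra hc
      have := (TD3_nrm w x r).1 (not_lt.1 hc)
      omega
  · obtain ⟨⟨a1, a2⟩, a3, a4⟩ := (s3 m3).1
    refine ⟨u3.1, a1, a2, Or.inr ?_⟩
    have : (u3.1, (0 : ℤ)) = u3 := Prod.ext rfl hu3.symm
    rw [this]
    exact m3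
  · obtain ⟨⟨a1, a2⟩, a3, a4⟩ := (s1 m1).1
    refine ⟨u1.1, a1, a2, Or.inl (Or.inr ?_)⟩
    have : (u1.1, (0 : ℤ)) = u1 := Prod.ext rfl hu1.symm
    rw [this]
    exact m1
  · intro P hP hP0 hin hout
    obtain ⟨p0, hp0, hp0r⟩ := hin
    obtain ⟨p1, hp1, hp1R⟩ := hout
    obtain ⟨p, q, hpp, hpq, hqP, hqS⟩ := (hP p0 hp0 p1 hp1).exit
      (S := {v | nrm (v - (x, 0)) ≤ R - 1}) (show nrm (p0 - (x, 0)) ≤ R - 1 by omega)
      (show ¬ nrm (p1 - (x, 0)) ≤ R - 1 by omega)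
    obtain ⟨P', hP'⟩ : ∃ A, A = {w | L.Cn (P ∩ {v | nrm (v - (x, 0)) ≤ R - 1}) p0 w} ∪ {q} :=
      ⟨_, rfl⟩
    have hp0' : p0 ∈ P' := by rw [hP']; exact Or.inl (Cn.refl hpp.left)
    have hq' : q ∈ P' := by rw [hP']; exact Or.inr rfl
    have hP'c : L.Con P' := by
      rw [hP']
      exact (con_cluster _ p0).union_adj (con_singleton q) (u := p) hpp rfl hpq
    have hP'P : P' ⊆ P := by
      rw [hP']
      rintro w (hw | hw)
      · exact (Cn.right hw).1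
      · rw [Set.mem_singleton_iff.1 hw]
        exact hqP
    have hpR := (TD3_nrm p x (R - 1)).1 hpp.right.2
    have hnear := hpq.near
    rw [abs_le, abs_le] at hnear
    have hq0 : 0 ≤ q.2 := hP0 hqP
    have hqR : nrm (q - (x, 0)) ≤ R := (TD3_nrm q x R).2 (by omega)
    have hqR' : ¬ nrm (q - (x, 0)) ≤ R - 1 := hqS
    rw [TD3_nrm] at hqR hqR'
    have hP'r : P' ⊆ rect (x - R) (x + R) 0 R := by
      intro w hw
      have h0 : 0 ≤ w.2 := hP0 (hP'P hw)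
      have h1 : nrm (w - (x, 0)) ≤ R := by
        rw [hP'] at hw
        rcases hw with hw | hw
        · have h2 : nrm (w - (x, 0)) ≤ R - 1 := (Cn.right hw).2
          omega
        · rw [Set.mem_singleton_iff.1 hw, TD3_nrm]
          exact hqR
      rw [TD3_nrm] at h1
      exact ⟨⟨by omega, by omega⟩, h0, h1.2.2⟩
    -- the half box
    have hp00 : 0 ≤ p0.2 := hP0 hp0
    rw [TD3_nrm] at hp0r
    have hH : L.Con (P' ∪ rect (x - r) (x + r) 0 r) :=
      hP'c.union (con_rect _ _ _ _) ⟨p0, hp0', ⟨⟨by omega, by omega⟩, hp00, hp0r.2.2⟩⟩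
    have hHr : P' ∪ rect (x - r) (x + r) 0 r ⊆ rect (x - R) (x + R) 0 R := by
      rintro w (hw | ⟨⟨a1, a2⟩, a3, a4⟩)
      · exact hP'r hw
      · exact ⟨⟨by omega, by omega⟩, a3, by omega⟩
    have hx0 : (x, (0 : ℤ)) ∈ rect (x - r) (x + r) 0 r :=
      ⟨⟨by show x - r ≤ x; omega, by show x ≤ x + r; omega⟩, le_rfl, hr⟩
    have hcase : q.2 = R ∨ q.1 = x + R ∨ q.1 = x - R := by omega
    rcases hcase with hq1 | hq1 | hq1
    · obtain ⟨w, hw2, hwP⟩ := cross k2 hH (a := x - R) (b := x + R) (c := 0) (d := R)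
        (fun v hv => by
          obtain ⟨⟨a1, a2⟩, a3, a4⟩ := (s2 hv).1
          exact ⟨⟨a1, a2⟩, by omega, a4⟩) hHr ⟨u2, m2, hu2⟩ ⟨v2, n2, hv2⟩
        ⟨(x, 0), Or.inr hx0, rfl⟩ ⟨q, Or.inl hq', hq1⟩
      refine ⟨w, Or.inl (Or.inl hw2), ?_⟩
      rcases hwP with hw | hw
      · exact hP'P hw
      · exfalso
        have h1 := (s2 hw2).1.2.1
        have h2 := hw.2.2
        omega
    · have hT : L.Con ((P' ∪ rect (x - r) (x + r) 0 r) ∪ rect (x - R) x 0 0) :=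
        hH.union (con_rect _ _ _ _) ⟨(x, 0), Or.inr hx0,
          ⟨⟨by show x - R ≤ x; omega, le_rfl⟩, le_rfl, le_rfl⟩⟩
      obtain ⟨w, hwP, hw3⟩ := cross hT k3 (a := x - R) (b := x + R) (c := 0) (d := R)
        (by
          rintro v (hv | ⟨⟨a1, a2⟩, a3, a4⟩)
          · exact hHr hv
          · exact ⟨⟨a1, by omega⟩, a3, by omega⟩)
        (fun v hv => by
          obtain ⟨⟨a1, a2⟩, a3, a4⟩ := (s3 hv).1
          exact ⟨⟨by omega, a2⟩, a3, a4⟩)
        ⟨(x - R, 0), Or.inr ⟨⟨le_rfl, by show x - R ≤ x; omega⟩, le_rfl, le_rfl⟩, rfl⟩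
        ⟨q, Or.inl (Or.inl hq'), hq1⟩ ⟨u3, m3, hu3⟩ ⟨v3, n3, hv3⟩
      refine ⟨w, Or.inr hw3, ?_⟩
      have h1 := (s3 hw3).1.1.1
      rcases hwP with (hw | hw) | hw
      · exact hP'P hw
      · exfalso
        have h2 := hw.1.2
        omega
      · exfalso
        have h2 := hw.1.2
        omega
    · have hT : L.Con ((P' ∪ rect (x - r) (x + r) 0 r) ∪ rect x (x + R) 0 0) :=
        hH.union (con_rect _ _ _ _) ⟨(x, 0), Or.inr hx0,
          ⟨⟨le_rfl, by show x ≤ x + R; omega⟩, le_rfl, le_rfl⟩⟩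
      obtain ⟨w, hwP, hw3⟩ := cross hT k1 (a := x - R) (b := x + R) (c := 0) (d := R)
        (by
          rintro v (hv | ⟨⟨a1, a2⟩, a3, a4⟩)
          · exact hHr hv
          · exact ⟨⟨by omega, a2⟩, a3, by omega⟩)
        (fun v hv => by
          obtain ⟨⟨a1, a2⟩, a3, a4⟩ := (s1 hv).1
          exact ⟨⟨a1, by omega⟩, a3, a4⟩)
        ⟨q, Or.inl (Or.inl hq'), hq1⟩
        ⟨(x + R, 0), Or.inr ⟨⟨by show x ≤ x + R; omega, le_rfl⟩, le_rfl, le_rfl⟩, rfl⟩
        ⟨u1, m1, hu1⟩ ⟨v1, n1, hv1⟩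
      refine ⟨w, Or.inl (Or.inr hw3), ?_⟩
      have h1 := (s1 hw3).1.1.2
      rcases hwP with (hw | hw) | hw
      · exact hP'P hw
      · exfalso
        have h2 := hw.1.1
        omega
      · exfalso
        have h2 := hw.1.1
        omega

end Lat

theorem hc_pr (h : RSW L κ) {k : ℕ} (hk : 1 ≤ k) (c : Bool) {x r R : ℤ} (hr : 0 ≤ r)
    (h4 : 4 ≤ R - r - 1) (hR : 2 * R ≤ k * (R - r - 1)) : κ k ^ 3 ≤ pr (L.HC c x r R) := by
  have hκ : 0 ≤ κ k := (h.pos k).le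
  have e1 : κ k ≤ pr (L.VX c (x - R) (x - r - 1) 0 R) :=
    h.vx' hk c (by omega) (by omega) (by
      have : (x - r - 1) - (x - R) = R - r - 1 := by ring
      rw [this]; omega)
  have e2 : κ k ≤ pr (L.HX c (x - R) (x + R) (r + 1) R) :=
    h.hx' hk c (by omega) (by omega) (by
      have : R - (r + 1) = R - r - 1 := by ring
      rw [this]; omega)
  have e3 : κ k ≤ pr (L.VX c (x + r + 1) (x + R) 0 R) :=
    h.vx' hk c (by omega) (by omega) (by
      have : (x + R) - (x + r + 1) = R - r - 1 := by ring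
      rw [this]; omega)
  let A : Fin 3 → Cfg → Prop :=
    ![L.VX c (x - R) (x - r - 1) 0 R, L.HX c (x - R) (x + R) (r + 1) R,
      L.VX c (x + r + 1) (x + R) 0 R]
  have hH := pr_harris_mon (I := (Finset.univ : Finset (Fin 3))) (A := A) c
    (fun i _ => by
      fin_cases i
      · exact Lat.VX.loc L c _ _ _ _
      · exact Lat.HX.loc L c _ _ _ _
      · exact Lat.VX.loc L c _ _ _ _)
    (fun i _ => by
      fin_cases i
      · exact Lat.VX.mon L c _ _ _ _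
      · exact Lat.HX.mon L c _ _ _ _
      · exact Lat.VX.mon L c _ _ _ _)
  rw [Fin.prod_univ_three] at hH
  have hA : (fun ω => ∀ i ∈ (Finset.univ : Finset (Fin 3)), A i ω) = L.HC c x r R := by
    funext ω
    apply propext
    constructor
    · intro hi
      exact ⟨hi 0 (Finset.mem_univ _), hi 1 (Finset.mem_univ _), hi 2 (Finset.mem_univ _)⟩
    · rintro ⟨a1, a2, a3⟩ i _
      fin_cases i
      · exact a1
      · exact a2
      · exact a3
  rw [hA] at hH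
  refine le_trans ?_ hH
  show κ k ^ 3 ≤ pr (L.VX c (x - R) (x - r - 1) 0 R) * pr (L.HX c (x - R) (x + R) (r + 1) R) *
    pr (L.VX c (x + r + 1) (x + R) 0 R)
  calc κ k ^ 3 = κ k * κ k * κ k := by ring
    _ ≤ _ := by
      apply mul_le_mul (mul_le_mul e1 e2 hκ (hκ.trans e1)) e3 hκ
      exact mul_nonneg (hκ.trans e1) (hκ.trans e2)

/-- no half circuit in the first `N` dyadic half annuli -/
private theorem TD3_none (h : RSW L κ) (b' : Bool) (x a' : ℤ) (ha : 8 ≤ a') {q : ℝ}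
    (hq : q ≤ κ 5 ^ 3) (hq1 : q ≤ 1) (N : ℕ) :
    pr (fun ω => ∀ j < N, ¬ L.HC b' x (2 ^ j * a') (2 * (2 ^ j * a')) ω) ≤ (1 - q) ^ N ∧
    Loc (fun ω => ∀ j < N, ¬ L.HC b' x (2 ^ j * a') (2 * (2 ^ j * a')) ω) ∧
    Dep (fun ω => ∀ j < N, ¬ L.HC b' x (2 ^ j * a') (2 * (2 ^ j * a')) ω)
      {v | nrm (v - (x, 0)) ≤ 2 ^ N * a'} := by
  induction N with
  | zero =>
    refine ⟨?_, ⟨∅, ?_⟩, ?_⟩
    · rw [pow_zero]
      exact pr_le_one _
    · intro ω ω' _
      simp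
    · intro ω ω' _
      simp
  | succ N ih =>
    obtain ⟨ih1, ih2, ih3⟩ := ih
    have hpow : (1 : ℤ) ≤ 2 ^ N := one_le_pow₀ (by norm_num)
    have hρ : (8 : ℤ) ≤ 2 ^ N * a' := by nlinarith
    have heq : (fun ω => ∀ j < N + 1, ¬ L.HC b' x (2 ^ j * a') (2 * (2 ^ j * a')) ω) =
        fun ω => (∀ j < N, ¬ L.HC b' x (2 ^ j * a') (2 * (2 ^ j * a')) ω) ∧
          ¬ L.HC b' x (2 ^ N * a') (2 * (2 ^ N * a')) ω := by
      funext ω
      apply propext
      constructor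
      · intro H
        exact ⟨fun j hj => H j (by omega), H N (by omega)⟩
      · rintro ⟨H1, H2⟩ j hj
        rcases Nat.lt_succ_iff_lt_or_eq.1 hj with hj | hj
        · exact H1 j hj
        · subst hj
          exact H2
    have hlocH := Lat.HC.loc L b' x (2 ^ N * a') (2 * (2 ^ N * a'))
    have hdepH := Lat.HC.dep L b' x (2 ^ N * a') (2 * (2 ^ N * a')) (by omega)
    rw [heq]
    refine ⟨?_, ih2.and hlocH.not, ?_⟩
    · rw [pr_and ih2 hlocH.not ih3 (hdepH.comp (fun p => ¬ p)) ?_, pow_succ]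
      · have hp : q ≤ pr (L.HC b' x (2 ^ N * a') (2 * (2 ^ N * a'))) := by
          refine hq.trans (hc_pr h (by norm_num) b' (by omega) (by omega) ?_)
          push_cast
          omega
        have hn : pr (fun ω => ¬ L.HC b' x (2 ^ N * a') (2 * (2 ^ N * a')) ω) ≤ 1 - q := by
          rw [pr_not hlocH]
          linarith
        exact mul_le_mul ih1 hn (pr_nonneg _) (pow_nonneg (by linarith) _)
      · rintro v hv ⟨-, hv2⟩
        have h1 : nrm (v - (x, 0)) ≤ 2 ^ N * a' := hv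
        have h2 : 2 ^ N * a' < nrm (v - (x, 0)) := hv2
        omega
    · intro ω ω' H
      have h1 := ih3 ω ω' (fun v hv => H v (by
        have h1 : nrm (v - (x, 0)) ≤ 2 ^ N * a' := hv
        show nrm (v - (x, 0)) ≤ 2 ^ (N + 1) * a'
        rw [pow_succ]
        linarith))
      have h2 := hdepH ω ω' (fun v hv => H v (by
        obtain ⟨⟨⟨b1, b2⟩, b3, b4⟩, -⟩ := hv
        show nrm (v - (x, 0)) ≤ 2 ^ (N + 1) * a'
        rw [TD3_nrm, pow_succ]
        have e : (2 : ℤ) ^ N * 2 * a' = 2 * (2 ^ N * a') := by ring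
        rw [e]
        omega))
      show (_ ∧ _) = (_ ∧ _)
      rw [h2]
      congr 1

/-- At least one half circuit in the dyadic half annuli between radius `a` and `b`: probability at
least `1 - C (a / b) ^ c`.  (Half annuli `(ρ, 2ρ]` for `ρ = 2 ^ j a'`, `a' = max a 8`, `2 ρ ≤ b`, use
disjoint sets of sites, so the events are independent; each has probability at least `κ 5 ^ 3`;
if `b < 16 max(a,8)` take `C` so large that the right side is negative or trivial.)  The event below depends only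
on the sites of `rect (x - b) (x + b) 0 b`. -/
theorem hc_many (κ : ℕ → ℝ) : ∃ C c : ℝ, 0 < C ∧ 0 < c ∧ c ≤ 1 / 2 ∧ ∀ L : Lat, RSW L κ →
    ∀ (b' : Bool) (x a b : ℤ), 1 ≤ a → a ≤ b →
      1 - C * ((a : ℝ) / b) ^ c ≤ pr (fun ω => ∃ ρ, a ≤ ρ ∧ 2 * ρ ≤ b ∧ L.HC b' x ρ (2 * ρ) ω) := by
  by_cases hκ : 0 < κ 5
  swap
  · exact ⟨1, 1 / 2, one_pos, by norm_num, le_rfl, fun L h => absurd (h.pos 5) hκ⟩
  obtain ⟨q, hq0, hq1, hq2⟩ : ∃ q : ℝ, 0 < q ∧ q ≤ 1 / 4 ∧ q ≤ κ 5 ^ 3 :=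
    ⟨min (1 / 4) (κ 5 ^ 3), lt_min (by norm_num) (by positivity), min_le_left _ _,
      min_le_right _ _⟩
  have hq34 : (3 : ℝ) / 4 ≤ 1 - q := by linarith
  have hq11 : 1 - q < 1 := by linarith
  have hqpos : 0 < 1 - q := by linarith
  obtain ⟨c, hc⟩ : ∃ c : ℝ, c = - Real.logb 2 (1 - q) := ⟨_, rfl⟩
  have hc0 : 0 < c := by
    rw [hc]
    have := Real.logb_neg (b := 2) (by norm_num) hqpos hq11
    linarith
  have h2c : (2 : ℝ) ^ (-c) = 1 - q := by
    rw [hc, neg_neg]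
    exact Real.rpow_logb (by norm_num) (by norm_num) hqpos
  have hc1 : c ≤ 1 / 2 := by
    by_contra hcon
    push Not at hcon
    have h1 : (2 : ℝ) ^ (-c) < (2 : ℝ) ^ (-(1 / 2) : ℝ) :=
      Real.rpow_lt_rpow_of_exponent_lt (by norm_num) (by linarith)
    have h2 : (2 : ℝ) ^ (-(1 / 2) : ℝ) * (2 : ℝ) ^ (-(1 / 2) : ℝ) = 1 / 2 := by
      rw [← Real.rpow_add (by norm_num)]
      norm_num [Real.rpow_neg_one]
    have h3 : (0 : ℝ) < (2 : ℝ) ^ (-(1 / 2) : ℝ) := by positivity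
    nlinarith
  refine ⟨16, c, by norm_num, hc0, hc1, ?_⟩
  intro L h b' x a b ha hab
  obtain ⟨a', ha'⟩ : ∃ a' : ℤ, a' = max a 8 := ⟨_, rfl⟩
  have ha8 : 8 ≤ a' := by rw [ha']; exact le_max_right _ _
  have haa : a ≤ a' := by rw [ha']; exact le_max_left _ _
  have ha8a : a' ≤ 8 * a := by rw [ha']; exact max_le (by omega) (by omega)
  -- number of annuli
  have hex : ∃ N : ℕ, b < 2 ^ (N + 1) * a' := by
    refine ⟨b.toNat, ?_⟩
    have h1 : (b.toNat : ℤ) < 2 ^ b.toNat := by exact_mod_cast Nat.lt_two_pow_self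
    have h2 : (b.toNat : ℤ) = b := Int.toNat_of_nonneg (by omega)
    rw [pow_succ]
    nlinarith
  obtain ⟨N, hN1, hN2⟩ : ∃ N : ℕ, b < 2 ^ (N + 1) * a' ∧ (N = 0 ∨ 2 ^ N * a' ≤ b) := by
    refine ⟨Nat.find hex, Nat.find_spec hex, ?_⟩
    rcases Nat.eq_zero_or_pos (Nat.find hex) with h0 | h0
    · exact Or.inl h0
    · right
      have h1 := Nat.find_min hex (m := Nat.find hex - 1) (by omega)
      rw [show Nat.find hex - 1 + 1 = Nat.find hex by omega] at h1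
      exact not_lt.1 h1
  obtain ⟨t1, t2, -⟩ := TD3_none h b' x a' ha8 hq2 (by linarith) N
  -- the event is local
  have hloc : Loc (fun ω => ∃ ρ, a ≤ ρ ∧ 2 * ρ ≤ b ∧ L.HC b' x ρ (2 * ρ) ω) := by
    refine Loc.ex (F := Finset.Icc (x - b) (x + b) ×ˢ Finset.Icc 0 b) (fun ρ => ?_)
    intro ω ω' H
    by_cases hρ : a ≤ ρ ∧ 2 * ρ ≤ b
    · have h1 := Lat.HC.dep L b' x ρ (2 * ρ) (by omega) ω ω' (fun v hv => H v (by
        obtain ⟨⟨⟨b1, b2⟩, b3, b4⟩, -⟩ := hv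
        rw [Finset.mem_coe, Finset.mem_product, Finset.mem_Icc, Finset.mem_Icc]
        exact ⟨⟨by omega, by omega⟩, b3, by omega⟩))
      show (a ≤ ρ ∧ 2 * ρ ≤ b ∧ L.HC b' x ρ (2 * ρ) ω) =
        (a ≤ ρ ∧ 2 * ρ ≤ b ∧ L.HC b' x ρ (2 * ρ) ω')
      rw [h1]
    · apply propext
      constructor
      · rintro ⟨a1, a2, -⟩
        exact absurd ⟨a1, a2⟩ hρ
      · rintro ⟨a1, a2, -⟩
        exact absurd ⟨a1, a2⟩ hρ
  -- the complement
  have hle : 1 - (1 - q) ^ N ≤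
      pr (fun ω => ∃ ρ, a ≤ ρ ∧ 2 * ρ ≤ b ∧ L.HC b' x ρ (2 * ρ) ω) := by
    have h1 := pr_mono hloc.not t2 (fun ω hω j hj => by
      intro hHC
      apply hω
      have hN : N ≠ 0 := by omega
      have hNb := hN2.resolve_left hN
      have hpow : (1 : ℤ) ≤ 2 ^ j := one_le_pow₀ (by norm_num)
      have hpow2 : (2 : ℤ) ^ (j + 1) ≤ 2 ^ N := pow_le_pow_right₀ (by norm_num) (by omega)
      refine ⟨2 ^ j * a', by nlinarith, ?_, hHC⟩
      rw [pow_succ] at hpow2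
      nlinarith)
    rw [pr_not hloc] at h1
    linarith
  refine le_trans ?_ hle
  have hb0 : (0 : ℝ) < b := by
    have : 0 < b := by omega
    exact_mod_cast this
  have ha0 : (0 : ℝ) < a := by
    have : 0 < a := by omega
    exact_mod_cast this
  -- `(1 - q) ^ N ≤ 16 (a / b) ^ c`
  have hkey : (1 - q) ^ N ≤ 16 * ((a : ℝ) / b) ^ c := by
    have h1 : (1 - q) ^ N = ((2 : ℝ) ^ (-(N : ℝ))) ^ c := by
      rw [← h2c, ← Real.rpow_natCast, ← Real.rpow_mul (by norm_num), ← Real.rpow_mul (by norm_num)]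
      congr 1
      ring
    have h2 : (2 : ℝ) ^ (-(N : ℝ)) ≤ 16 * ((a : ℝ) / b) := by
      rw [Real.rpow_neg (by norm_num), Real.rpow_natCast]
      have h3 : (b : ℝ) < 2 ^ (N + 1) * a' := by exact_mod_cast hN1
      have h4 : (a' : ℝ) ≤ 8 * a := by exact_mod_cast ha8a
      have h5 : (0 : ℝ) < 2 ^ N := by positivity
      rw [inv_eq_one_div, div_le_iff₀ h5]
      rw [← mul_div_assoc, div_mul_eq_mul_div, le_div_iff₀ hb0]
      rw [pow_succ] at h3
      nlinarith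
    rw [h1]
    calc ((2 : ℝ) ^ (-(N : ℝ))) ^ c ≤ (16 * ((a : ℝ) / b)) ^ c :=
          Real.rpow_le_rpow (by positivity) h2 hc0.le
      _ = (16 : ℝ) ^ c * ((a : ℝ) / b) ^ c := Real.mul_rpow (by norm_num) (by positivity)
      _ ≤ 16 * ((a : ℝ) / b) ^ c := by
          apply mul_le_mul_of_nonneg_right _ (by positivity)
          calc (16 : ℝ) ^ c ≤ (16 : ℝ) ^ (1 : ℝ) :=
                Real.rpow_le_rpow_of_exponent_le (by norm_num) (by linarith)
            _ = 16 := Real.rpow_one _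
  linarith

end SC

end

/-! ### from `Lib_MP_e0a489.SE4` -/

section

/-!
# MP_e0a489, module SE 4: the separated events, their supports and monotonicity
-/

set_option autoImplicit false

namespace SC

open Classical

namespace Lat

private theorem se4_dep_and {A B : Cfg → Prop} {D : Set Pt} (hA : Dep A D) (hB : Dep B D) :
    Dep (fun ω => A ω ∧ B ω) D := by
  intro ω ω' h
  show (A ω ∧ B ω) = (A ω' ∧ B ω')
  rw [hA ω ω' h, hB ω ω' h]

private theorem se4_dep_or {A B : Cfg → Prop} {D : Set Pt} (hA : Dep A D) (hB : Dep B D) :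
    Dep (fun ω => A ω ∨ B ω) D := by
  intro ω ω' h
  show (A ω ∨ B ω) = (A ω' ∨ B ω')
  rw [hA ω ω' h, hB ω ω' h]

private theorem se4_mon_and {c : Bool} {A B : Cfg → Prop} (hA : MonC c A) (hB : MonC c B) :
    MonC c (fun ω => A ω ∧ B ω) := by
  cases c with
  | true =>
    intro ω ω' h hAB
    exact ⟨hA ω ω' h hAB.1, hB ω ω' h hAB.2⟩
  | false =>
    intro ω ω' h hAB
    exact ⟨hA ω ω' h hAB.1, hB ω ω' h hAB.2⟩

private theorem se4_mon_or {c : Bool} {A B : Cfg → Prop} (hA : MonC c A) (hB : MonC c B) :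
    MonC c (fun ω => A ω ∨ B ω) := by
  cases c with
  | true =>
    intro ω ω' h hAB
    exact hAB.imp (hA ω ω' h) (hB ω ω' h)
  | false =>
    intro ω ω' h hAB
    exact hAB.imp (hA ω ω' h) (hB ω ω' h)

private theorem se4_ann_finite (r R : ℤ) : (ann r R).Finite := by
  obtain ⟨G, hG⟩ := exists_annF r R
  exact G.finite_toSet.subset fun v hv => (hG v).2 hv

private theorem se4_Jc_finite (c : Bool) (R : ℤ) : (Jc c R).Finite := by
  unfold Jc
  rw [J_eq, J_eq]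
  exact (Zn_finite _ _ _ _).union (Zn_finite _ _ _ _)

private theorem se4_Kc_finite (c : Bool) (r : ℤ) : (Kc c r).Finite := by
  unfold Kc
  rw [K_eq, K_eq]
  exact (Zn_finite _ _ _ _).union (Zn_finite _ _ _ _)

/-- the part of `Sout` that concerns the colour `c` -/
def So (L : Lat) (c : Bool) (r R : ℤ) (ω : Cfg) : Prop :=
  L.Arm c (ann r R ∪ Jc c R) (L.nb (bx r)) (Je (dc c) R) ω ∧
    L.Arm c (ann r R ∪ Jc c R) (L.nb (bx r)) (Je (dc c + 2) R) ω

theorem Sout_iff (L : Lat) (r R : ℤ) (ω : Cfg) :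
    L.Sout r R ω ↔ L.So true r R ω ∧ L.So false r R ω := by
  constructor
  · intro h
    exact ⟨h true, h false⟩
  · rintro ⟨h1, h2⟩ c
    cases c with
    | true => exact h1
    | false => exact h2

/-- `Arm.dep` -/
theorem So.dep (L : Lat) (c : Bool) (r R : ℤ) : Dep (L.So c r R) (ann r R ∪ Jc c R) :=
  se4_dep_and (Arm.dep L c _ _ _) (Arm.dep L c _ _ _)

theorem So.loc (L : Lat) (c : Bool) (r R : ℤ) : Loc (L.So c r R) := by
  have hD : (ann r R ∪ Jc c R).Finite := (se4_ann_finite r R).union (se4_Jc_finite c R)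
  exact (Arm.loc L c _ _ _ hD).and (Arm.loc L c _ _ _ hD)

/-- `Arm.mon` -/
theorem So.mon (L : Lat) (c : Bool) (r R : ℤ) : MonC c (L.So c r R) :=
  se4_mon_and (Arm.mon L c _ _ _) (Arm.mon L c _ _ _)

theorem Pairs.dep (L : Lat) (c : Bool) (r R : ℤ) :
    Dep (L.Pairs c r R) (ann r R ∪ Jc c R ∪ Kc c r) :=
  se4_dep_or (se4_dep_and (Arm.dep L c _ _ _) (Arm.dep L c _ _ _))
    (se4_dep_and (Arm.dep L c _ _ _) (Arm.dep L c _ _ _))

theorem Pairs.loc (L : Lat) (c : Bool) (r R : ℤ) : Loc (L.Pairs c r R) := by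
  have hD : (ann r R ∪ Jc c R ∪ Kc c r).Finite :=
    ((se4_ann_finite r R).union (se4_Jc_finite c R)).union (se4_Kc_finite c r)
  exact ((Arm.loc L c _ _ _ hD).and (Arm.loc L c _ _ _ hD)).or
    ((Arm.loc L c _ _ _ hD).and (Arm.loc L c _ _ _ hD))

theorem Pairs.mon (L : Lat) (c : Bool) (r R : ℤ) : MonC c (L.Pairs c r R) :=
  se4_mon_or (se4_mon_and (Arm.mon L c _ _ _) (Arm.mon L c _ _ _))
    (se4_mon_and (Arm.mon L c _ _ _) (Arm.mon L c _ _ _))

private theorem se4_Sout_eq (L : Lat) (r R : ℤ) :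
    L.Sout r R = fun ω => L.So true r R ω ∧ L.So false r R ω :=
  funext fun ω => propext (Sout_iff L r R ω)

theorem Sout.loc (L : Lat) (r R : ℤ) : Loc (L.Sout r R) := by
  rw [se4_Sout_eq]
  exact (So.loc L true r R).and (So.loc L false r R)

theorem S4.loc (L : Lat) (r R : ℤ) : Loc (L.S4 r R) :=
  (Pairs.loc L true r R).and (Pairs.loc L false r R)

theorem TwoA.dep (L : Lat) (c : Bool) (r R : ℤ) : Dep (L.TwoA c r R) (ann r R) :=
  Two.dep L c _ _ _

theorem TwoA.loc (L : Lat) (c : Bool) (r R : ℤ) : Loc (L.TwoA c r R) :=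
  Two.loc L c _ _ _ (se4_ann_finite r R)

/-- From `So.dep` and `Jc_nrm`. -/
theorem Sout.dep (L : Lat) {r R : ℤ} (hr : 0 ≤ r) (hR : r ≤ R) :
    Dep (L.Sout r R) {v | r < nrm v ∧ nrm v ≤ 2 * R} := by
  rw [se4_Sout_eq]
  have key : ∀ c : Bool, ann r R ∪ Jc c R ⊆ {v | r < nrm v ∧ nrm v ≤ 2 * R} := by
    intro c v hv
    rcases hv with hv | hv
    · have h1 : r < nrm v := hv.1
      have h2 : nrm v ≤ R := hv.2
      exact ⟨h1, by omega⟩
    · have h1 := Jc_nrm (by omega) hv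
      exact ⟨by omega, h1.2⟩
  exact se4_dep_and ((So.dep L true r R).mono (key true)) ((So.dep L false r R).mono (key false))

theorem S4.dep (L : Lat) {r R : ℤ} (hr : 0 ≤ r) (hR : r ≤ R) :
    Dep (L.S4 r R) {v | r / 2 < nrm v ∧ nrm v ≤ 2 * R} := by
  have key : ∀ c : Bool, ann r R ∪ Jc c R ∪ Kc c r ⊆ {v | r / 2 < nrm v ∧ nrm v ≤ 2 * R} := by
    intro c v hv
    rcases hv with (hv | hv) | hv
    · have h1 : r < nrm v := hv.1
      have h2 : nrm v ≤ R := hv.2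
      exact ⟨by omega, by omega⟩
    · have h1 := Jc_nrm (by omega) hv
      exact ⟨by omega, h1.2⟩
    · have h1 := Kc_nrm hr hv
      exact ⟨h1.1, by omega⟩
  exact se4_dep_and ((Pairs.dep L true r R).mono (key true))
    ((Pairs.dep L false r R).mono (key false))

private theorem se4_nrm_swap (v : Pt) : nrm ((Equiv.prodComm ℤ ℤ) v) = nrm v := by
  show max |v.2| |v.1| = max |v.1| |v.2|
  exact max_comm _ _

private theorem se4_img {A : Set Pt} (h : ∀ v, (Equiv.prodComm ℤ ℤ) v ∈ A ↔ v ∈ A) :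
    (Equiv.prodComm ℤ ℤ) '' A = A := by
  ext v
  constructor
  · rintro ⟨w, hw, rfl⟩
    exact (h w).2 hw
  · intro hv
    exact ⟨(Equiv.prodComm ℤ ℤ) v, (h v).2 hv, rfl⟩

private theorem se4_ann (r R : ℤ) : (Equiv.prodComm ℤ ℤ) '' ann r R = ann r R :=
  se4_img fun v => by
    show (r < nrm ((Equiv.prodComm ℤ ℤ) v) ∧ nrm ((Equiv.prodComm ℤ ℤ) v) ≤ R) ↔
      (r < nrm v ∧ nrm v ≤ R)
    rw [se4_nrm_swap]

private theorem se4_bx (r : ℤ) : (Equiv.prodComm ℤ ℤ) '' bx r = bx r :=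
  se4_img fun v => by
    show nrm ((Equiv.prodComm ℤ ℤ) v) ≤ r ↔ nrm v ≤ r
    rw [se4_nrm_swap]

private theorem se4_rng (r : ℤ) : (Equiv.prodComm ℤ ℤ) '' rng r = rng r :=
  se4_img fun v => by
    show nrm ((Equiv.prodComm ℤ ℤ) v) = r ↔ nrm v = r
    rw [se4_nrm_swap]

private theorem se4_arm (L : Lat) (c : Bool) (D X Y : Set Pt) (ω : Cfg) :
    L.sw.tr.Arm c D X Y (via (Equiv.prodComm ℤ ℤ) fun v => ! ω v) ↔
      L.Arm (!c) ((Equiv.prodComm ℤ ℤ) '' D) ((Equiv.prodComm ℤ ℤ) '' X)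
        ((Equiv.prodComm ℤ ℤ) '' Y) ω := by
  rw [(tr_tr L.sw).arm, sw_arm]

private theorem se4_D (c : Bool) (r R : ℤ) :
    (Equiv.prodComm ℤ ℤ) '' (ann r R ∪ Jc c R ∪ Kc c r) = ann r R ∪ Jc (!c) R ∪ Kc (!c) r := by
  rw [Set.image_union, Set.image_union, se4_ann, Jc_tr, Kc_tr]

private theorem se4_dc1 (c : Bool) : (1 - dc c) % 4 = dc (!c) % 4 := by
  cases c <;> decide

private theorem se4_dc2 (c : Bool) : (1 - (dc c + 2)) % 4 = (dc (!c) + 2) % 4 := by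
  cases c <;> decide

private theorem se4_Ks1 (c : Bool) (r : ℤ) :
    (Equiv.prodComm ℤ ℤ) '' Ks (dc c) r = Ks (dc (!c)) r := by
  rw [Ks_eq, Ks_eq, Zn_tr]
  exact Zn_mod (se4_dc1 c) _ _ _

private theorem se4_Ks2 (c : Bool) (r : ℤ) :
    (Equiv.prodComm ℤ ℤ) '' Ks (dc c + 2) r = Ks (dc (!c) + 2) r := by
  rw [Ks_eq, Ks_eq, Zn_tr]
  exact Zn_mod (se4_dc2 c) _ _ _

private theorem se4_Je1 (c : Bool) (r : ℤ) :
    (Equiv.prodComm ℤ ℤ) '' Je (dc c) r = Je (dc (!c)) r := by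
  rw [Je_eq, Je_eq, Zn_tr]
  exact Zn_mod (se4_dc1 c) _ _ _

private theorem se4_Je2 (c : Bool) (r : ℤ) :
    (Equiv.prodComm ℤ ℤ) '' Je (dc c + 2) r = Je (dc (!c) + 2) r := by
  rw [Je_eq, Je_eq, Zn_tr]
  exact Zn_mod (se4_dc2 c) _ _ _

/-- Colour exchange and transposition: `L.sw.tr` seen through `ω ↦ (v ↦ ! ω (v.2, v.1))`.  `sw_arm`, `Tr.arm` for `tr_tr`,
`Jc_tr`, `Kc_tr`, `Zn_tr` (for `Je`, `Ks`: direction `dc c` goes to `1 - dc c = dc (!c)`, and `dc c + 2` to `-1 - dc c`, which is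
`dc (!c) + 2` modulo 4, `Zn_mod`); norms are preserved. -/
theorem Pairs_swtr (L : Lat) (c : Bool) (r R : ℤ) (ω : Cfg) :
    L.sw.tr.Pairs c r R (via (Equiv.prodComm ℤ ℤ) fun v => ! ω v) ↔ L.Pairs (!c) r R ω := by
  unfold Pairs
  rw [se4_arm, se4_arm, se4_arm, se4_arm, se4_D, se4_Ks1, se4_Ks2, se4_Je1, se4_Je2]

theorem S4_swtr (L : Lat) (r R : ℤ) (ω : Cfg) :
    L.sw.tr.S4 r R (via (Equiv.prodComm ℤ ℤ) fun v => ! ω v) ↔ L.S4 r R ω := by
  unfold S4
  rw [Pairs_swtr, Pairs_swtr]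
  exact and_comm

/-- `sw_two`, `Tr.two` -/
theorem TwoA_swtr (L : Lat) (c : Bool) (r R : ℤ) (ω : Cfg) :
    L.sw.tr.TwoA c r R (via (Equiv.prodComm ℤ ℤ) fun v => ! ω v) ↔ L.TwoA (!c) r R ω := by
  unfold TwoA
  rw [(tr_tr L.sw).two, sw_two, (tr_tr L.sw).nb, se4_ann, se4_bx, se4_rng]
  exact Iff.rfl

end Lat

end SC

end

/-! ### from `Lib_MP_e0a489.SE7` -/

section

/-!
# MP_e0a489, module SE 7: extension of arms through strips, direction 0 and general direction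

Strip events: `SX c s a b h` radial crossing, `SY c s a b h` perpendicular crossing of the rotated rectangle `Zn s a b h`.
-/

set_option autoImplicit false

namespace SC

open Classical

namespace Lat

/-- radial crossing of colour `c` of `Zn s a b h` -/
def SX (L : Lat) (c : Bool) (s a b h : ℤ) (ω : Cfg) : Prop :=
  L.Arm c (Zn s a b h) (Zn s a a h) (Zn s b b h) ω

/-- perpendicular crossing of colour `c` of `Zn s a b h` -/
def SY (L : Lat) (c : Bool) (s a b h : ℤ) (ω : Cfg) : Prop :=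
  L.Arm c (Zn s a b h) (Zlo s a b h) (Zhi s a b h) ω

variable {L : Lat} {c : Bool} {ω : Cfg}

/-- `Tr.arm` for `tr_rots`: in the rotated lattice the events are `HX`, `VX` of `rect a b (-h) h`. -/
theorem SX_iff (s a b h : ℤ) :
    L.SX c s a b h ω ↔ (L.rots s).HX c a b (-h) h (via (rt s) ω) := by
  have h1 := (tr_rots L s).arm c (rect a b (-h) h) (rect a a (-h) h) (rect b b (-h) h) ω
  refine Iff.trans (Iff.symm h1) ?_
  constructor
  · rintro ⟨u, hu, v, hv, hc⟩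
    exact ⟨u, v, le_antisymm hu.1.2 hu.1.1, le_antisymm hv.1.2 hv.1.1, hc⟩
  · rintro ⟨u, v, hu, hv, hc⟩
    have hu' : u ∈ rect a b (-h) h := hc.left.1
    have hv' : v ∈ rect a b (-h) h := hc.right.1
    exact ⟨u, ⟨⟨hu'.1.1, hu.le⟩, hu'.2⟩, v, ⟨⟨hv.ge, hv'.1.2⟩, hv'.2⟩, hc⟩

theorem SY_iff (s a b h : ℤ) :
    L.SY c s a b h ω ↔ (L.rots s).VX c a b (-h) h (via (rt s) ω) := by
  have h1 := (tr_rots L s).arm c (rect a b (-h) h) (rect a b (-h) (-h)) (rect a b h h) ω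
  refine Iff.trans (Iff.symm h1) ?_
  constructor
  · rintro ⟨u, hu, v, hv, hc⟩
    exact ⟨u, v, le_antisymm hu.2.2 hu.2.1, le_antisymm hv.2.2 hv.2.1, hc⟩
  · rintro ⟨u, v, hu, hv, hc⟩
    have hu' : u ∈ rect a b (-h) h := hc.left.1
    have hv' : v ∈ rect a b (-h) h := hc.right.1
    exact ⟨u, ⟨hu'.1, hu'.2.1, hu.le⟩, v, ⟨hv'.1, hv.ge, hv'.2.2⟩, hc⟩

theorem SX_dep (L : Lat) (c : Bool) (s a b h : ℤ) : Dep (L.SX c s a b h) (Zn s a b h) := by
  exact Arm.dep L c _ _ _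

theorem SY_dep (L : Lat) (c : Bool) (s a b h : ℤ) : Dep (L.SY c s a b h) (Zn s a b h) := by
  exact Arm.dep L c _ _ _

theorem SX_loc (L : Lat) (c : Bool) (s a b h : ℤ) : Loc (L.SX c s a b h) := by
  exact Arm.loc L c _ _ _ (Zn_finite s a b h)

theorem SY_loc (L : Lat) (c : Bool) (s a b h : ℤ) : Loc (L.SY c s a b h) := by
  exact Arm.loc L c _ _ _ (Zn_finite s a b h)

theorem SX_mon (L : Lat) (c : Bool) (s a b h : ℤ) : MonC c (L.SX c s a b h) := by
  exact Arm.mon L c _ _ _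

theorem SY_mon (L : Lat) (c : Bool) (s a b h : ℤ) : MonC c (L.SY c s a b h) := by
  exact Arm.mon L c _ _ _

/-- `RSW.rots`, `RSW.hx'`, `pr_via` -/
theorem SX_pr {κ : ℕ → ℝ} (hL : RSW L κ) {k : ℕ} (hk : 1 ≤ k) (c : Bool) (s : ℤ) {a b h : ℤ}
    (hab : a ≤ b) (hh : 2 ≤ h) (hr : b - a ≤ k * (2 * h)) : κ k ≤ pr (L.SX c s a b h) := by
  have h1 := (hL.rots s).hx' hk c (a := a) (b := b) (p := -h) (q := h) hab (by linarith)
    (by have h2 : h - -h = 2 * h := by ring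
        rw [h2]
        exact hr)
  have h2 : L.SX c s a b h = fun ω => (L.rots s).HX c a b (-h) h (via (rt s) ω) := by
    funext ω
    exact propext (SX_iff s a b h)
  rw [h2, pr_via (Lat.HX.loc (L.rots s) c a b (-h) h) (rt s)]
  exact h1

theorem SY_pr {κ : ℕ → ℝ} (hL : RSW L κ) {k : ℕ} (hk : 1 ≤ k) (c : Bool) (s : ℤ) {a b h : ℤ}
    (hab : 4 ≤ b - a) (hh : 0 ≤ h) (hr : 2 * h ≤ k * (b - a)) : κ k ≤ pr (L.SY c s a b h) := by
  have h1 := (hL.rots s).vx' hk c (a := a) (b := b) (p := -h) (q := h) (by linarith) hab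
    (by have h2 : h - -h = 2 * h := by ring
        rw [h2]
        exact hr)
  have h2 : L.SY c s a b h = fun ω => (L.rots s).VX c a b (-h) h (via (rt s) ω) := by
    funext ω
    exact propext (SY_iff s a b h)
  rw [h2, pr_via (Lat.VX.loc (L.rots s) c a b (-h) h) (rt s)]
  exact h1

end Lat

end SC

end

/-! ### from `Lib_MP_e0a489.SE11` -/

section

/-!
# MP_e0a489, module SE 11: strips events and their probability, territory
-/

set_option autoImplicit false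

namespace SC

open Classical

namespace Lat

/-- outward strips of colour `c` from `J s R` to the distance `b s` -/
def HkO (L : Lat) (c : Bool) (R : ℤ) (b : ℤ → ℤ) (ω : Cfg) : Prop :=
  ∀ s, (s = dc c ∨ s = dc c + 2) →
    L.SY c s (R + 1) (2 * R) (R / 4) ω ∧ L.SX c s (R + 1) (b s) (R / 4) ω

/-- inward strips of colour `c` from `K s r` to the distance `a`, half width `w` -/
def HkI (L : Lat) (c : Bool) (r a w : ℤ) (ω : Cfg) : Prop :=
  ∀ s, (s = dc c ∨ s = dc c + 2) →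
    L.SY c s (r / 2 + 1) r (r / 8) ω ∧ L.SX c s a r w ω

/-- strips for gluing -/
def HkG (L : Lat) (c : Bool) (ρ ρ' : ℤ) (ω : Cfg) : Prop :=
  ∀ s, (s = dc c ∨ s = dc c + 2) →
    L.SY c s (ρ + 1) (2 * ρ) (ρ / 4) ω ∧ L.SY c s (ρ' / 2 + 1) ρ' (ρ' / 8) ω ∧
      L.SX c s (ρ + 1) ρ' (ρ / 4) ω

end Lat

/-! ### private helpers -/

private theorem se11_mon_and {c : Bool} {A B : Cfg → Prop} (hA : MonC c A) (hB : MonC c B) :
    MonC c (fun ω => A ω ∧ B ω) := by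
  cases c with
  | true =>
    have hA' : Inc A := hA
    have hB' : Inc B := hB
    have h : Inc (fun ω => A ω ∧ B ω) := fun ω ω' h hh => ⟨hA' ω ω' h hh.1, hB' ω ω' h hh.2⟩
    exact h
  | false =>
    have hA' : Dec A := by
      unfold MonC at hA
      rwa [if_neg (by decide)] at hA
    have hB' : Dec B := by
      unfold MonC at hB
      rwa [if_neg (by decide)] at hB
    have h : Dec (fun ω => A ω ∧ B ω) := fun ω ω' h hh => ⟨hA' ω ω' h hh.1, hB' ω ω' h hh.2⟩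
    unfold MonC
    rwa [if_neg (by decide)]

private theorem se11_harris {c : Bool} {A B : Cfg → Prop} (lA : Loc A) (lB : Loc B)
    (hA : MonC c A) (hB : MonC c B) : pr A * pr B ≤ pr (fun ω => A ω ∧ B ω) := by
  cases c with
  | true =>
    have hA' : Inc A := hA
    have hB' : Inc B := hB
    exact pr_harris lA lB hA' hB'
  | false =>
    have hA' : Dec A := by
      unfold MonC at hA
      rwa [if_neg (by decide)] at hA
    have hB' : Dec B := by
      unfold MonC at hB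
      rwa [if_neg (by decide)] at hB
    exact pr_harris_dec lA lB hA' hB'

private theorem se11_forall (P : ℤ → Cfg → Prop) (c : Bool) :
    (fun ω => ∀ s, (s = dc c ∨ s = dc c + 2) → P s ω) =
      fun ω => P (dc c) ω ∧ P (dc c + 2) ω := by
  funext ω
  refine propext ⟨fun h => ⟨h _ (Or.inl rfl), h _ (Or.inr rfl)⟩, ?_⟩
  rintro ⟨h1, h2⟩ s (rfl | rfl)
  · exact h1
  · exact h2

private theorem se11_dep {P : ℤ → Cfg → Prop} {c : Bool} {D : Set Pt}
    (h : ∀ s, (s = dc c ∨ s = dc c + 2) → Dep (P s) D) :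
    Dep (fun ω => ∀ s, (s = dc c ∨ s = dc c + 2) → P s ω) D := by
  intro ω ω' hw
  refine propext ⟨fun H s hs => ?_, fun H s hs => ?_⟩
  · have h1 : P s ω = P s ω' := h s hs ω ω' hw
    rw [← h1]
    exact H s hs
  · have h1 : P s ω = P s ω' := h s hs ω ω' hw
    rw [h1]
    exact H s hs

private theorem se11_dep_and {A B : Cfg → Prop} {D : Set Pt} (hA : Dep A D) (hB : Dep B D) :
    Dep (fun ω => A ω ∧ B ω) D := by
  intro ω ω' hw
  have h1 : A ω = A ω' := hA ω ω' hw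
  have h2 : B ω = B ω' := hB ω ω' hw
  show (A ω ∧ B ω) = (A ω' ∧ B ω')
  rw [h1, h2]

private theorem se11_mon {P : ℤ → Cfg → Prop} {c : Bool} (h : ∀ s, MonC c (P s)) :
    MonC c (fun ω => ∀ s, (s = dc c ∨ s = dc c + 2) → P s ω) := by
  rw [se11_forall P c]
  exact se11_mon_and (h _) (h _)

private theorem se11_pr {P : ℤ → Cfg → Prop} {c : Bool} {q : ℝ} (hq : 0 ≤ q)
    (lP : ∀ s, Loc (P s)) (mP : ∀ s, MonC c (P s)) (hP : ∀ s, q ≤ pr (P s)) :
    q * q ≤ pr (fun ω => ∀ s, (s = dc c ∨ s = dc c + 2) → P s ω) := by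
  rw [se11_forall P c]
  exact le_trans (mul_le_mul (hP _) (hP _) hq (pr_nonneg _))
    (se11_harris (lP _) (lP _) (mP _) (mP _))

/-- territories of the strips -/
def tO (c : Bool) (R : ℤ) (b : ℤ → ℤ) : Set Pt :=
  {v | ∃ s, (s = dc c ∨ s = dc c + 2) ∧ v ∈ Zn s (R + 1) (b s) (R / 4)}

def tI (c : Bool) (r a w : ℤ) : Set Pt :=
  {v | ∃ s, (s = dc c ∨ s = dc c + 2) ∧ (v ∈ Zn s (r / 2 + 1) r (r / 8) ∨ v ∈ Zn s a r w)}

def tG (c : Bool) (ρ ρ' : ℤ) : Set Pt :=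
  {v | ∃ s, (s = dc c ∨ s = dc c + 2) ∧
    (v ∈ Zn s (ρ + 1) ρ' (ρ / 4) ∨ v ∈ Zn s (ρ' / 2 + 1) ρ' (ρ' / 8))}

namespace Lat

theorem HkO_dep (L : Lat) (c : Bool) {R : ℤ} {b : ℤ → ℤ} (hb : ∀ s, 2 * R ≤ b s) :
    Dep (L.HkO c R b) (tO c R b) := by
  refine se11_dep (P := fun s ω =>
    L.SY c s (R + 1) (2 * R) (R / 4) ω ∧ L.SX c s (R + 1) (b s) (R / 4) ω) fun s hs => ?_
  refine se11_dep_and ?_ ?_
  · exact (SY_dep L c s _ _ _).mono fun v hv =>
      ⟨s, hs, Zn_mono le_rfl (hb s) le_rfl hv⟩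
  · exact (SX_dep L c s _ _ _).mono fun v hv => ⟨s, hs, hv⟩

theorem HkI_dep (L : Lat) (c : Bool) (r a w : ℤ) : Dep (L.HkI c r a w) (tI c r a w) := by
  refine se11_dep (P := fun s ω =>
    L.SY c s (r / 2 + 1) r (r / 8) ω ∧ L.SX c s a r w ω) fun s hs => ?_
  refine se11_dep_and ?_ ?_
  · exact (SY_dep L c s _ _ _).mono fun v hv => ⟨s, hs, Or.inl hv⟩
  · exact (SX_dep L c s _ _ _).mono fun v hv => ⟨s, hs, Or.inr hv⟩

theorem HkG_dep (L : Lat) (c : Bool) {ρ ρ' : ℤ} (h : 2 * ρ ≤ ρ') :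
    Dep (L.HkG c ρ ρ') (tG c ρ ρ') := by
  refine se11_dep (P := fun s ω =>
    L.SY c s (ρ + 1) (2 * ρ) (ρ / 4) ω ∧ L.SY c s (ρ' / 2 + 1) ρ' (ρ' / 8) ω ∧
      L.SX c s (ρ + 1) ρ' (ρ / 4) ω) fun s hs => ?_
  refine se11_dep_and ?_ (se11_dep_and ?_ ?_)
  · exact (SY_dep L c s _ _ _).mono fun v hv => ⟨s, hs, Or.inl (Zn_mono le_rfl h le_rfl hv)⟩
  · exact (SY_dep L c s _ _ _).mono fun v hv => ⟨s, hs, Or.inr hv⟩
  · exact (SX_dep L c s _ _ _).mono fun v hv => ⟨s, hs, Or.inl hv⟩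

theorem HkO_mon (L : Lat) (c : Bool) (R : ℤ) (b : ℤ → ℤ) : MonC c (L.HkO c R b) :=
  se11_mon (P := fun s ω =>
    L.SY c s (R + 1) (2 * R) (R / 4) ω ∧ L.SX c s (R + 1) (b s) (R / 4) ω)
    fun s => se11_mon_and (SY_mon L c s _ _ _) (SX_mon L c s _ _ _)

theorem HkI_mon (L : Lat) (c : Bool) (r a w : ℤ) : MonC c (L.HkI c r a w) :=
  se11_mon (P := fun s ω => L.SY c s (r / 2 + 1) r (r / 8) ω ∧ L.SX c s a r w ω)
    fun s => se11_mon_and (SY_mon L c s _ _ _) (SX_mon L c s _ _ _)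

theorem HkG_mon (L : Lat) (c : Bool) (ρ ρ' : ℤ) : MonC c (L.HkG c ρ ρ') :=
  se11_mon (P := fun s ω =>
    L.SY c s (ρ + 1) (2 * ρ) (ρ / 4) ω ∧ L.SY c s (ρ' / 2 + 1) ρ' (ρ' / 8) ω ∧
      L.SX c s (ρ + 1) ρ' (ρ / 4) ω)
    fun s => se11_mon_and (SY_mon L c s _ _ _)
      (se11_mon_and (SY_mon L c s _ _ _) (SX_mon L c s _ _ _))

/-- Harris (`pr_harris_mon`) for the four events, `SY_pr`, `SX_pr` with `k = 2000`. -/
theorem HkO_pr {L : Lat} {κ : ℕ → ℝ} (hL : RSW L κ) (c : Bool) {R : ℤ} {b : ℤ → ℤ} (hR : 16 ≤ R)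
    (hb : ∀ s, 2 * R ≤ b s) (hb' : ∀ s, b s ≤ 128 * R) : κ 2000 ^ 4 ≤ pr (L.HkO c R b) := by
  have hκ := hL.pos 2000
  have h := se11_pr (c := c) (q := κ 2000 * κ 2000) (P := fun s ω =>
    L.SY c s (R + 1) (2 * R) (R / 4) ω ∧ L.SX c s (R + 1) (b s) (R / 4) ω) (by positivity)
    (fun s => Loc.and (SY_loc L c s _ _ _) (SX_loc L c s _ _ _))
    (fun s => se11_mon_and (SY_mon L c s _ _ _) (SX_mon L c s _ _ _)) (fun s => by
      refine le_trans ?_ (se11_harris (SY_loc L c s _ _ _) (SX_loc L c s _ _ _)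
        (SY_mon L c s _ _ _) (SX_mon L c s _ _ _))
      have hb1 := hb s
      have hb2 := hb' s
      exact mul_le_mul
        (SY_pr hL (by norm_num) c s (by omega) (by omega) (by push_cast; omega))
        (SX_pr hL (by norm_num) c s (by omega) (by omega) (by push_cast; omega)) hκ.le
        (pr_nonneg _))
  calc κ 2000 ^ 4 = κ 2000 * κ 2000 * (κ 2000 * κ 2000) := by ring
    _ ≤ _ := h

theorem HkI_pr {L : Lat} {κ : ℕ → ℝ} (hL : RSW L κ) (c : Bool) {r a w : ℤ} (hr : 16 ≤ r)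
    (ha : a ≤ r) (hw : 2 ≤ w) (hw' : r - a ≤ 4000 * w) : κ 2000 ^ 4 ≤ pr (L.HkI c r a w) := by
  have hκ := hL.pos 2000
  have h := se11_pr (c := c) (q := κ 2000 * κ 2000) (P := fun s ω =>
    L.SY c s (r / 2 + 1) r (r / 8) ω ∧ L.SX c s a r w ω) (by positivity)
    (fun s => Loc.and (SY_loc L c s _ _ _) (SX_loc L c s _ _ _))
    (fun s => se11_mon_and (SY_mon L c s _ _ _) (SX_mon L c s _ _ _)) (fun s => by
      refine le_trans ?_ (se11_harris (SY_loc L c s _ _ _) (SX_loc L c s _ _ _)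
        (SY_mon L c s _ _ _) (SX_mon L c s _ _ _))
      exact mul_le_mul
        (SY_pr hL (by norm_num) c s (by omega) (by omega) (by push_cast; omega))
        (SX_pr hL (by norm_num) c s (by omega) (by omega) (by push_cast; omega)) hκ.le
        (pr_nonneg _))
  calc κ 2000 ^ 4 = κ 2000 * κ 2000 * (κ 2000 * κ 2000) := by ring
    _ ≤ _ := h

theorem HkG_pr {L : Lat} {κ : ℕ → ℝ} (hL : RSW L κ) (c : Bool) {ρ ρ' : ℤ} (hρ : 16 ≤ ρ)
    (h1 : 8 * ρ ≤ ρ') (h2 : ρ' ≤ 64 * ρ) : κ 2000 ^ 6 ≤ pr (L.HkG c ρ ρ') := by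
  have hκ := hL.pos 2000
  have h := se11_pr (c := c) (q := κ 2000 * (κ 2000 * κ 2000)) (P := fun s ω =>
    L.SY c s (ρ + 1) (2 * ρ) (ρ / 4) ω ∧ L.SY c s (ρ' / 2 + 1) ρ' (ρ' / 8) ω ∧
      L.SX c s (ρ + 1) ρ' (ρ / 4) ω) (by positivity)
    (fun s => Loc.and (SY_loc L c s _ _ _)
      (Loc.and (SY_loc L c s _ _ _) (SX_loc L c s _ _ _)))
    (fun s => se11_mon_and (SY_mon L c s _ _ _)
      (se11_mon_and (SY_mon L c s _ _ _) (SX_mon L c s _ _ _))) (fun s => by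
      refine le_trans ?_ (se11_harris (SY_loc L c s _ _ _)
        (Loc.and (SY_loc L c s _ _ _) (SX_loc L c s _ _ _))
        (SY_mon L c s _ _ _) (se11_mon_and (SY_mon L c s _ _ _) (SX_mon L c s _ _ _)))
      refine mul_le_mul
        (SY_pr hL (by norm_num) c s (by omega) (by omega) (by push_cast; omega)) ?_
        (by positivity) (pr_nonneg _)
      refine le_trans ?_ (se11_harris (SY_loc L c s _ _ _) (SX_loc L c s _ _ _)
        (SY_mon L c s _ _ _) (SX_mon L c s _ _ _))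
      exact mul_le_mul
        (SY_pr hL (by norm_num) c s (by omega) (by omega) (by push_cast; omega))
        (SX_pr hL (by norm_num) c s (by omega) (by omega) (by push_cast; omega)) hκ.le
        (pr_nonneg _))
  calc κ 2000 ^ 6 = κ 2000 * (κ 2000 * κ 2000) * (κ 2000 * (κ 2000 * κ 2000)) := by ring
    _ ≤ _ := h

end Lat

/-- Territory lemma in the form used here.  `E₁ ∧ E₀` is increasing in the sites of `T` (`E₁` is increasing, `E₀` does not depend on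
`T`), decreasing in the sites of `U`.  `territory` (PB3) and `cpr_mono`.  The case `p = 0` or negative powers do not occur: `0 ≤ p`. -/
theorem cpr_terr {G T U : Finset Pt} {E₁ E₀ E' A B : Cfg → Prop} {D₁ D₀ : Set Pt} (hT : T ⊆ G)
    (hU : U ⊆ G) (hTU : Disjoint T U) (h1 : MonC true E₁) (h0 : MonC false E₀) (d1 : Dep E₁ D₁)
    (d0 : Dep E₀ D₀) (hT0 : ∀ v ∈ T, v ∉ D₀) (hU1 : ∀ v ∈ U, v ∉ D₁) (hA : MonC true A)
    (hAT : Dep A (T : Set Pt)) (hB : MonC false B) (hBU : Dep B (U : Set Pt)) {p : ℝ} (hp : 0 ≤ p)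
    (hpA : p ≤ pr A) (hpB : p ≤ pr B) (h : ∀ ω, E₁ ω → E₀ ω → A ω → B ω → E' ω) (ω : Cfg) :
    p ^ 2 * cpr G (fun ω => E₁ ω ∧ E₀ ω) ω ≤ cpr G E' ω := by
  have h1' : Inc E₁ := h1
  have h0' : Dec E₀ := by
    unfold MonC at h0
    rwa [if_neg (by decide)] at h0
  have hA' : Inc A := hA
  have hB' : Dec B := by
    unfold MonC at hB
    rwa [if_neg (by decide)] at hB
  have hle : ∀ (S : Finset Pt) (ω ω' : Cfg), (∀ v ∈ (S : Set Pt), ω v ≤ ω' v) →
      (∀ v, v ∉ (S : Set Pt) → ω v = ω' v) → ∀ v, ω v ≤ ω' v := by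
    intro S ω ω' ha hb v
    by_cases hv : v ∈ (S : Set Pt)
    · exact ha v hv
    · exact le_of_eq (hb v hv)
  have hET : IncOn (ind fun ω => E₁ ω ∧ E₀ ω) (T : Set Pt) := by
    intro ω ω' ha hb
    have hd : E₀ ω = E₀ ω' := d0 ω ω' fun v hv => hb v fun hvT =>
      hT0 v (Finset.mem_coe.1 hvT) hv
    unfold ind
    by_cases h3 : E₁ ω ∧ E₀ ω
    · have h4 : E₁ ω' ∧ E₀ ω' := ⟨h1' ω ω' (hle T ω ω' ha hb) h3.1, by rw [← hd]; exact h3.2⟩
      rw [if_pos h3, if_pos h4]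
    · rw [if_neg h3]
      split_ifs <;> norm_num
  have hEU : DecOn (ind fun ω => E₁ ω ∧ E₀ ω) (U : Set Pt) := by
    intro ω ω' ha hb
    have hd : E₁ ω = E₁ ω' := d1 ω ω' fun v hv => hb v fun hvU =>
      hU1 v (Finset.mem_coe.1 hvU) hv
    unfold ind
    by_cases h3 : E₁ ω' ∧ E₀ ω'
    · have h4 : E₁ ω ∧ E₀ ω := ⟨by rw [hd]; exact h3.1, h0' ω ω' (hle U ω ω' ha hb) h3.2⟩
      rw [if_pos h3, if_pos h4]
    · rw [if_neg h3]
      split_ifs <;> norm_num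
  have ht := territory hT hU hTU hET hEU hA' hAT hB' hBU ω
  have hm : cpr G (fun ω => (E₁ ω ∧ E₀ ω) ∧ A ω ∧ B ω) ω ≤ cpr G E' ω :=
    cpr_mono fun ω' _ h3 => h ω' h3.1.1 h3.1.2 h3.2.1 h3.2.2
  have hp2 : p ^ 2 ≤ pr A * pr B := by
    rw [pow_two]
    exact mul_le_mul hpA hpB hp (pr_nonneg _)
  calc p ^ 2 * cpr G (fun ω => E₁ ω ∧ E₀ ω) ω
      ≤ (pr A * pr B) * cpr G (fun ω => E₁ ω ∧ E₀ ω) ω :=
        mul_le_mul_of_nonneg_right hp2 (cpr_nonneg _ _ _)
    _ = cpr G (fun ω => E₁ ω ∧ E₀ ω) ω * (pr A * pr B) := mul_comm _ _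
    _ ≤ _ := ht
    _ ≤ _ := hm

end SC

end

/-! ### from `Lib_MP_e0a489.SE15` -/

section

/-!
# MP_e0a489, module SE 15: lower bounds for the separated events (bounded ratio of the radii)
-/

set_option autoImplicit false

namespace SC

open Classical

private theorem se15_dc (c : Bool) : dc c % 4 = 0 ∨ dc c % 4 = 1 := by
  cases c
  · exact Or.inr (by decide)
  · exact Or.inl (by decide)

/-- the sites of the inner side of a strip around `bx r` have a neighbour in `bx r` -/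
private theorem se15_nb {L : Lat} {s r h : ℤ} (hr : 0 ≤ r) (hh : h ≤ r) {v : Pt}
    (hv : v ∈ Zn s (r + 1) (r + 1) h) : v ∈ L.nb (bx r) := by
  have h4 : s % 4 = 0 ∨ s % 4 = 1 ∨ s % 4 = 2 ∨ s % 4 = 3 := by omega
  have key : ∀ u : Pt, |u.1 - v.1| + |u.2 - v.2| = 1 → |u.1| ≤ r → |u.2| ≤ r →
      v ∈ L.nb (bx r) := fun u h1 h2 h3 => ⟨u, max_le h2 h3, Lat.adj_of_nn h1⟩
  rcases h4 with h4 | h4 | h4 | h4
  · rw [Zn_mod (s := s) (s' := 0) (by omega)] at hv
    have h1 := mem_Zn0.1 hv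
    refine key (v.1 - 1, v.2) ?_ ?_ ?_
    · simp only [sub_self, abs_zero, add_zero]
      rw [show v.1 - 1 - v.1 = -1 by ring]
      norm_num
    · exact abs_le.2 ⟨by simp only; omega, by simp only; omega⟩
    · exact abs_le.2 ⟨by simp only; omega, by simp only; omega⟩
  · rw [Zn_mod (s := s) (s' := 1) (by omega)] at hv
    have h1 := mem_Zn1.1 hv
    refine key (v.1, v.2 - 1) ?_ ?_ ?_
    · simp only [sub_self, abs_zero, zero_add]
      rw [show v.2 - 1 - v.2 = -1 by ring]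
      norm_num
    · exact abs_le.2 ⟨by simp only; omega, by simp only; omega⟩
    · exact abs_le.2 ⟨by simp only; omega, by simp only; omega⟩
  · rw [Zn_mod (s := s) (s' := 2) (by omega)] at hv
    have h1 := mem_Zn2.1 hv
    refine key (v.1 + 1, v.2) ?_ ?_ ?_
    · simp only [sub_self, abs_zero, add_zero]
      rw [show v.1 + 1 - v.1 = 1 by ring]
      norm_num
    · exact abs_le.2 ⟨by simp only; omega, by simp only; omega⟩
    · exact abs_le.2 ⟨by simp only; omega, by simp only; omega⟩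
  · rw [Zn_mod (s := s) (s' := 3) (by omega)] at hv
    have h1 := mem_Zn3.1 hv
    refine key (v.1, v.2 + 1) ?_ ?_ ?_
    · simp only [sub_self, abs_zero, zero_add]
      rw [show v.2 + 1 - v.2 = 1 by ring]
      norm_num
    · exact abs_le.2 ⟨by simp only; omega, by simp only; omega⟩
    · exact abs_le.2 ⟨by simp only; omega, by simp only; omega⟩

/-- two opposite radial strips of colour `c` -/
private def B15 (L : Lat) (c : Bool) (a b h : ℤ) (ω : Cfg) : Prop :=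
  L.SX c (dc c) a b h ω ∧ L.SX c (dc c + 2) a b h ω

private theorem B15_loc (L : Lat) (c : Bool) (a b h : ℤ) : Loc (B15 L c a b h) :=
  (Lat.SX_loc L c _ a b h).and (Lat.SX_loc L c _ a b h)

private theorem B15_dep (L : Lat) (c : Bool) (a b h : ℤ) :
    Dep (B15 L c a b h) (Zn (dc c) a b h ∪ Zn (dc c + 2) a b h) := by
  intro ω ω' hw
  have h1 := Lat.SX_dep L c (dc c) a b h ω ω' (fun v hv => hw v (Or.inl hv))
  have h2 := Lat.SX_dep L c (dc c + 2) a b h ω ω' (fun v hv => hw v (Or.inr hv))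
  show (_ ∧ _) = (_ ∧ _)
  rw [h1, h2]

private theorem B15_pr {L : Lat} {κ : ℕ → ℝ} (hL : RSW L κ) {k : ℕ} (hk : 1 ≤ k) (c : Bool)
    {a b h : ℤ} (hab : a ≤ b) (hh : 2 ≤ h) (hr : b - a ≤ k * (2 * h)) :
    κ k ^ 2 ≤ pr (B15 L c a b h) := by
  have hκ : 0 ≤ κ k := (hL.pos k).le
  have e1 := Lat.SX_pr hL hk c (dc c) hab hh hr
  have e2 := Lat.SX_pr hL hk c (dc c + 2) hab hh hr
  let A : Fin 2 → Cfg → Prop := ![L.SX c (dc c) a b h, L.SX c (dc c + 2) a b h]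
  have hH := pr_harris_mon (I := (Finset.univ : Finset (Fin 2))) (A := A) c
    (fun i _ => by
      fin_cases i
      · exact Lat.SX_loc L c _ _ _ _
      · exact Lat.SX_loc L c _ _ _ _)
    (fun i _ => by
      fin_cases i
      · exact Lat.SX_mon L c _ _ _ _
      · exact Lat.SX_mon L c _ _ _ _)
  rw [Fin.prod_univ_two] at hH
  have hA : (fun ω => ∀ i ∈ (Finset.univ : Finset (Fin 2)), A i ω) = B15 L c a b h := by
    funext ω
    apply propext
    constructor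
    · intro hi
      exact ⟨hi 0 (Finset.mem_univ _), hi 1 (Finset.mem_univ _)⟩
    · rintro ⟨a1, a2⟩ i _
      fin_cases i
      · exact a1
      · exact a2
  rw [hA] at hH
  refine le_trans ?_ hH
  show κ k ^ 2 ≤ pr (L.SX c (dc c) a b h) * pr (L.SX c (dc c + 2) a b h)
  calc κ k ^ 2 = κ k * κ k := by ring
    _ ≤ _ := mul_le_mul e1 e2 hκ (hκ.trans e1)

/-- both colours together -/
private theorem B15_pr4 {L : Lat} {κ : ℕ → ℝ} (hL : RSW L κ) {k : ℕ} (hk : 1 ≤ k)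
    {a b h : ℤ} (hab : a ≤ b) (hh : 2 ≤ h) (ha : h < a) (hr : b - a ≤ k * (2 * h)) :
    κ k ^ 4 ≤ pr (fun ω => B15 L true a b h ω ∧ B15 L false a b h ω) := by
  have hκ : 0 ≤ κ k := (hL.pos k).le
  have e1 := B15_pr hL hk true hab hh hr
  have e2 := B15_pr hL hk false hab hh hr
  have e3 := pr_and (B15_loc L true a b h) (B15_loc L false a b h) (B15_dep L true a b h)
    (B15_dep L false a b h) (by
      rintro v (hv | hv) (hv' | hv')
      · exact Zn_disj (by decide) ha ha (Or.inl ha) hv hv'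
      · exact Zn_disj (by decide) ha ha (Or.inl ha) hv hv'
      · exact Zn_disj (by decide) ha ha (Or.inl ha) hv hv'
      · exact Zn_disj (by decide) ha ha (Or.inl ha) hv hv')
  rw [e3]
  calc κ k ^ 4 = κ k ^ 2 * κ k ^ 2 := by ring
    _ ≤ _ := mul_le_mul e1 e2 (by positivity) ((by positivity : (0:ℝ) ≤ κ k ^ 2).trans e1)

/-- a strip from `bx r` to the far side of the zone -/
private theorem se15_arm {L : Lat} {c : Bool} {s r R : ℤ} {ω : Cfg} (hr : 16 ≤ r) (hrR : r ≤ R)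
    (hs : J s R ⊆ Jc c R) (h : L.SX c s (r + 1) (2 * R) (r / 4) ω) :
    L.Arm c (ann r R ∪ Jc c R) (L.nb (bx r)) (Je s R) ω := by
  refine Lat.Arm.mono h ?_ ?_ ?_
  · intro v hv
    have h1 := Zn_nrm (by omega) (by omega) hv
    by_cases h2 : nrm v ≤ R
    · exact Or.inl ⟨by omega, h2⟩
    · refine Or.inr (hs ?_)
      rw [J_eq]
      obtain ⟨p, ⟨⟨h3, h4⟩, h5, h6⟩, rfl⟩ := hv
      rw [nrm_rt] at h2
      unfold nrm at h2
      have h7 : |p.2| ≤ r / 4 := abs_le.2 ⟨h5, h6⟩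
      have h8 : |p.1| = p.1 := abs_of_nonneg (by omega)
      rw [h8, max_eq_left (by omega)] at h2
      exact ⟨p, ⟨⟨by omega, h4⟩, by omega, by omega⟩, rfl⟩
  · intro v hv
    exact se15_nb (by omega) (by omega) hv
  · rw [Je_eq]
    exact Zn_mono le_rfl le_rfl (by omega)

/-- a strip from the inner side of `K s r` to the far side of the zone -/
private theorem se15_arm2 {L : Lat} {c : Bool} {s r R : ℤ} {ω : Cfg} (hr : 16 ≤ r) (hrR : r ≤ R)
    (hs : J s R ⊆ Jc c R) (hs' : K s r ⊆ Kc c r)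
    (h : L.SX c s (r / 2 + 1) (2 * R) (r / 8) ω) :
    L.Arm c (ann r R ∪ Jc c R ∪ Kc c r) (Ks s r) (Je s R) ω := by
  refine Lat.Arm.mono h ?_ ?_ ?_
  · intro v hv
    have h1 := Zn_nrm (by omega) (by omega) hv
    obtain ⟨p, ⟨⟨h3, h4⟩, h5, h6⟩, rfl⟩ := hv
    have h7 : |p.2| ≤ r / 8 := abs_le.2 ⟨h5, h6⟩
    have h8 : |p.1| = p.1 := abs_of_nonneg (by omega)
    have h9 : nrm (rt s p) = p.1 := by
      rw [nrm_rt]
      unfold nrm
      rw [h8, max_eq_left (by omega)]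
    by_cases h2 : nrm (rt s p) ≤ r
    · refine Or.inr (hs' ?_)
      rw [K_eq]
      exact ⟨p, ⟨⟨h3, by omega⟩, h5, h6⟩, rfl⟩
    · by_cases h10 : nrm (rt s p) ≤ R
      · exact Or.inl (Or.inl ⟨by omega, h10⟩)
      · refine Or.inl (Or.inr (hs ?_))
        rw [J_eq]
        exact ⟨p, ⟨⟨by omega, h4⟩, by omega, by omega⟩, rfl⟩
  · rw [Ks_eq]
  · rw [Je_eq]
    exact Zn_mono le_rfl le_rfl (by omega)

/-- Four radial strips `Zn s (r+1) (2R) (r/4)`, `s = 0, 2` open and `s = 1, 3` closed (`SX`): a site of the strip of norm `≤ R` is in `ann r R`,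
one of norm `> R` is in `J s R` (`r / 4 ≤ R / 4`); the first site `(r+1, y)` is next to `(r, y) ∈ bx r`.  Harris for the two
strips of one colour, independence (`pr_and`) of the two colours (`Zn_disj`). -/
theorem Sout_base {L : Lat} {κ : ℕ → ℝ} (hL : RSW L κ) {k : ℕ} (hk : 1 ≤ k) {r R : ℤ}
    (hr : 16 ≤ r) (hrR : r ≤ R) (h : 2 * R ≤ k * (2 * (r / 4))) :
    κ k ^ 4 ≤ pr (L.Sout r R) := by
  refine le_trans (B15_pr4 (L := L) hL hk (a := r + 1) (b := 2 * R) (h := r / 4) (by omega)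
    (by omega) (by omega) (by omega)) ?_
  refine pr_mono ((B15_loc L true _ _ _).and (B15_loc L false _ _ _)) (Lat.Sout.loc L r R) ?_
  rintro ω ⟨⟨h1, h2⟩, h3, h4⟩ c
  cases c
  · exact ⟨se15_arm hr hrR Set.subset_union_left h3, se15_arm hr hrR Set.subset_union_right h4⟩
  · exact ⟨se15_arm hr hrR Set.subset_union_left h1, se15_arm hr hrR Set.subset_union_right h2⟩

/-- Four strips `Zn s (r/2+1) (2R) (r/8)`: norm `≤ r`: in `K s r`; norm in `(r, R]`: in `ann r R`; norm `> R`: in `J s R`. -/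
theorem S4_base {L : Lat} {κ : ℕ → ℝ} (hL : RSW L κ) {k : ℕ} (hk : 1 ≤ k) {r R : ℤ}
    (hr : 16 ≤ r) (hrR : r ≤ R) (h : 2 * R ≤ k * (2 * (r / 8))) :
    κ k ^ 4 ≤ pr (L.S4 r R) := by
  refine le_trans (B15_pr4 (L := L) hL hk (a := r / 2 + 1) (b := 2 * R) (h := r / 8) (by omega)
    (by omega) (by omega) (by omega)) ?_
  refine pr_mono ((B15_loc L true _ _ _).and (B15_loc L false _ _ _)) (Lat.S4.loc L r R) ?_
  rintro ω ⟨⟨h1, h2⟩, h3, h4⟩
  exact ⟨Or.inl ⟨se15_arm2 hr hrR Set.subset_union_left Set.subset_union_left h1,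
      se15_arm2 hr hrR Set.subset_union_right Set.subset_union_right h2⟩,
    Or.inl ⟨se15_arm2 hr hrR Set.subset_union_left Set.subset_union_left h3,
      se15_arm2 hr hrR Set.subset_union_right Set.subset_union_right h4⟩⟩

/-- `k = 20000`. -/
theorem Sout_base' {L : Lat} {κ : ℕ → ℝ} (hL : RSW L κ) {r R : ℤ} (hr : 16 ≤ r) (hrR : r ≤ R)
    (h : R ≤ 1000 * r) : κ 20000 ^ 4 ≤ pr (L.Sout r R) := by
  refine Sout_base hL (by norm_num) hr hrR ?_
  push_cast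
  omega

theorem S4_base' {L : Lat} {κ : ℕ → ℝ} (hL : RSW L κ) {r R : ℤ} (hr : 16 ≤ r) (hrR : r ≤ R)
    (h : R ≤ 1000 * r) : κ 20000 ^ 4 ≤ pr (L.S4 r R) := by
  refine S4_base hL (by norm_num) hr hrR ?_
  push_cast
  omega

/-- `k` large. -/
theorem S4_pos {L : Lat} {κ : ℕ → ℝ} (hL : RSW L κ) {r R : ℤ} (hr : 16 ≤ r) (hrR : r ≤ R) :
    0 < pr (L.S4 r R) := by
  have hk : (1 : ℕ) ≤ R.toNat := by omega
  have hk' : ((R.toNat : ℕ) : ℤ) = R := Int.toNat_of_nonneg (by omega)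
  refine lt_of_lt_of_le ?_ (S4_base hL hk hr hrR ?_)
  · exact pow_pos (hL.pos _) 4
  · rw [hk']
    have h1 : 2 ≤ r / 8 := by omega
    nlinarith

end SC

end
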