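import Mathlib
import Pool.Agent.Lib_MP_e0a489_m.G05
import Pool.Agent.Lib_MP_e0a489_m.G06
import Pool.Agent.Lib_MP_e0a489_m.G07

/-!
# MP_e0a489_pr: merged library part G12

Concatenation of library files (each in its own section), only to save build time.
-/

/-! ### from `Lib_MP_e0a489.SE1` -/

section

/-!
# MP_e0a489, module SE 1: two-time calculus
-/

set_option autoImplicit false

namespace SC

open Classical

/-- admissible correlations -/
def Kap (k : Pt → ℝ) : Prop := ∀ v, 0 ≤ k v ∧ k v ≤ 1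

private theorem se1_ind_nonneg (A : Cfg → Prop) (ω : Cfg) : 0 ≤ ind A ω := by
  unfold ind
  split_ifs
  · exact zero_le_one
  · exact le_rfl

private theorem se1_ind_sq (A : Cfg → Prop) : (fun ω => ind A ω ^ 2) = ind A := by
  funext ω
  unfold ind
  split_ifs <;> norm_num

private theorem se1_ind_mul (A : Cfg → Prop) : (fun ω => ind A ω * ind A ω) = ind A := by
  funext ω
  unfold ind
  split_ifs <;> norm_num

private theorem se1_ind_and (A B : Cfg → Prop) :
    ind (fun ω => A ω ∧ B ω) = fun ω => ind A ω * ind B ω := by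
  funext ω
  unfold ind
  by_cases h : A ω <;> by_cases h' : B ω <;> simp [h, h']

private theorem se1_dep_univ {g : Cfg → ℝ} (h : Lf g) : Dep g Set.univ := by
  obtain ⟨F, hF⟩ := h
  exact hF.mono (Set.subset_univ _)

/-- `ex2_nonneg` for indicators. -/
theorem pr2_nonneg (A : Cfg → Prop) {k : Pt → ℝ} (hk : Kap k) : 0 ≤ pr2 k A := by
  exact ex2_nonneg k hk (se1_ind_nonneg A) (se1_ind_nonneg A)

/-- `ex2_le_sq` and `ind A ω ^ 2 = ind A ω`. -/
theorem pr2_le_pr {A : Cfg → Prop} (hA : Loc A) {k : Pt → ℝ} (hk : Kap k) : pr2 k A ≤ pr A := by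
  have h := ex2_le_sq hA.lf k hk
  rw [se1_ind_sq] at h
  exact h

theorem pr2_le_one {A : Cfg → Prop} (hA : Loc A) {k : Pt → ℝ} (hk : Kap k) : pr2 k A ≤ 1 := by
  exact (pr2_le_pr hA hk).trans (pr_le_one A)

/-- `ex2_mono`. -/
theorem pr2_mono {A B : Cfg → Prop} (hA : Loc A) (hB : Loc B) {k : Pt → ℝ} (hk : Kap k)
    (H : ∀ ω, A ω → B ω) : pr2 k A ≤ pr2 k B := by
  have hAB : ∀ ω, ind A ω ≤ ind B ω := by
    intro ω
    unfold ind
    by_cases h : A ω
    · rw [if_pos h, if_pos (H ω h)]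
    · rw [if_neg h]
      split_ifs
      · exact zero_le_one
      · exact le_rfl
  exact ex2_mono hA.lf hA.lf hB.lf hB.lf k hk (se1_ind_nonneg A) (se1_ind_nonneg A) hAB hAB

/-- `ex2_mono_kappa`. -/
theorem pr2_mono_k {A : Cfg → Prop} (hA : Loc A) {k k' : Pt → ℝ} (h0 : ∀ v, 0 ≤ k v)
    (h : ∀ v, k v ≤ k' v) : pr2 k A ≤ pr2 k' A := by
  exact ex2_mono_kappa hA.lf h0 h

/-- Correlation `0` gives `pr A ^ 2` (`ex2_zero` with the set of all sites), and `pr2_mono_k`. -/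
theorem pr2_ge_sq {A : Cfg → Prop} (hA : Loc A) {k : Pt → ℝ} (hk : Kap k) :
    pr A ^ 2 ≤ pr2 k A := by
  have h1 : pr2 (fun _ => 0) A ≤ pr2 k A := pr2_mono_k hA (fun _ => le_rfl) (fun v => (hk v).1)
  have h2 : pr2 (fun _ => 0) A = ex (ind A) * ex (ind A) :=
    ex2_zero hA.lf hA.lf (se1_dep_univ hA.lf) _ (fun _ _ => rfl)
  rw [h2] at h1
  rw [pow_two]
  exact h1

/-- Full correlation, `ex2_one` with the set of all sites. -/
theorem pr2_one {A : Cfg → Prop} (hA : Loc A) : pr2 (fun _ => 1) A = pr A := by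
  have h2 : pr2 (fun _ => 1) A = ex (fun ω => ind A ω * ind A ω) :=
    ex2_one hA.lf hA.lf (se1_dep_univ hA.lf) _ (fun _ _ => rfl)
  rw [h2, se1_ind_mul]
  rfl

/-- `ex2_congr`: only the correlations of the sites on which `A` depends matter. -/
theorem pr2_congr {A : Cfg → Prop} (hA : Loc A) {D : Set Pt} (hD : Dep A D) {k k' : Pt → ℝ}
    (h : ∀ v ∈ D, k v = k' v) : pr2 k A = pr2 k' A := by
  exact ex2_congr hA.lf hA.lf hD.ind h

/-- Independence, `ex2_mul` (`ind (A ∧ B) = ind A * ind B`). -/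
theorem pr2_and {A B : Cfg → Prop} (lA : Loc A) (lB : Loc B) {D D' : Set Pt} (hA : Dep A D)
    (hB : Dep B D') (hDD : ∀ v ∈ D, v ∉ D') (k : Pt → ℝ) :
    pr2 k (fun ω => A ω ∧ B ω) = pr2 k A * pr2 k B := by
  unfold pr2
  rw [se1_ind_and]
  exact ex2_mul lA.lf lA.lf lB.lf lB.lf hA.ind hA.ind hB.ind hB.ind hDD k

/-- If the correlation vanishes on `G`, a pointwise bound for the conditional probabilities given the
configuration off `G` can be squared: `pr2 k A = ex2 k (cpr G A) (cpr G A)` by `ex2_av`, `ex2_mono` (the functions are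
nonnegative), `ex2_smul_left`, `ex2_comm`. -/
theorem pr2_of_cpr {A B : Cfg → Prop} (hA : Loc A) (hB : Loc B) {G : Finset Pt} {k : Pt → ℝ}
    (hk : Kap k) (hG : ∀ v ∈ G, k v = 0) {C : ℝ} (hC : 0 ≤ C)
    (h : ∀ ω, cpr G A ω ≤ C * cpr G B ω) : pr2 k A ≤ C ^ 2 * pr2 k B := by
  have lA : Lf (cpr G A) := hA.lf.av G
  have lB : Lf (cpr G B) := hB.lf.av G
  have lB' : Lf (fun ω => C * cpr G B ω) := lB.smul C
  have e1 : pr2 k A = ex2 k (cpr G A) (cpr G A) := ex2_av hA.lf hA.lf G k hG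
  have e2 : pr2 k B = ex2 k (cpr G B) (cpr G B) := ex2_av hB.lf hB.lf G k hG
  have h1 : ex2 k (cpr G A) (cpr G A) ≤ ex2 k (fun ω => C * cpr G B ω) (fun ω => C * cpr G B ω) :=
    ex2_mono lA lA lB' lB' k hk (cpr_nonneg G A) (cpr_nonneg G A) h h
  have h2 : ex2 k (fun ω => C * cpr G B ω) (fun ω => C * cpr G B ω) =
      C ^ 2 * ex2 k (cpr G B) (cpr G B) := by
    rw [ex2_smul_left lB lB' k C, ex2_comm lB lB' k, ex2_smul_left lB lB k C]
    ring
  rw [e1, e2]
  exact h1.trans (le_of_eq h2)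

/-- If `h` does not depend on `G` then `g` may be averaged over `G`.  Let `k' = k` off `G` and `0` on `G`.
`ex2 k g h = ex2 k' g h` (`ex2_comm`, `ex2_congr` for `h`), `= ex2 k' (av G g) (av G h)` (`ex2_av`), `av G h = h`
(`av_of_dep`), `= ex2 k (av G g) h` (again `ex2_congr` for `h`). -/
theorem ex2_av_left {g h : Cfg → ℝ} (lg : Lf g) (lh : Lf h) {G : Finset Pt} {D : Set Pt}
    (hh : Dep h D) (hD : ∀ v ∈ G, v ∉ D) (k : Pt → ℝ) : ex2 k g h = ex2 k (av G g) h := by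
  have key : ∀ f : Cfg → ℝ, Lf f → ex2 k f h = ex2 (fun v => if v ∈ G then 0 else k v) f h := by
    intro f lf
    rw [ex2_comm lf lh, ex2_comm lf lh (fun v => if v ∈ G then 0 else k v)]
    refine ex2_congr lh lf hh (fun v hv => ?_)
    have hvG : v ∉ G := fun hv' => hD v hv' hv
    rw [if_neg hvG]
  have hav : av G h = h := by
    funext ω
    exact av_of_dep hh hD ω
  rw [key g lg, key (av G g) (lg.av G)]
  rw [ex2_av lg lh G _ (fun v hv => if_pos hv), hav]

/-- transport by a permutation of the sites, `ex2_equiv` -/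
theorem pr2_via {A : Cfg → Prop} (hA : Loc A) (e : Equiv.Perm Pt) (k : Pt → ℝ) :
    pr2 k (fun ω => A (via e ω)) = pr2 (fun v => k (e v)) A := by
  exact ex2_equiv hA.lf hA.lf e k

/-- exchange of the states, `ex2_flip` -/
theorem pr2_flip {A : Cfg → Prop} (hA : Loc A) (k : Pt → ℝ) :
    pr2 k (fun ω => A (fun v => ! ω v)) = pr2 k A := by
  exact ex2_flip hA.lf hA.lf k

end SC

end

/-! ### from `Lib_MP_e0a489.SE2` -/

section

/-!
# MP_e0a489, module SE 2: the min trick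
-/

set_option autoImplicit false

namespace SC

open Classical

private theorem se2_ind_nonneg (A : Cfg → Prop) (ω : Cfg) : 0 ≤ ind A ω := by
  unfold ind
  split_ifs
  · exact zero_le_one
  · exact le_rfl

private theorem se2_ind_le_one (A : Cfg → Prop) (ω : Cfg) : ind A ω ≤ 1 := by
  unfold ind
  split_ifs
  · exact le_rfl
  · exact zero_le_one

private theorem se2_dep_univ {α : Type} (g : Cfg → α) : Dep g Set.univ := by
  intro ω ω' H
  have : ω = ω' := funext (fun v => H v trivial)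
  rw [this]

/-- MIN TRICK.  Let `b = cpr G B` and `X = {b ≤ l}` (does not depend on `G`: `Dep.av`).  `ind A = a₁ + a₂`, `a₁ = ind A` on `X` and `0` off
`X`, `a₂ = ind A` off `X`; `ex2_add_le`: `pr2 k A ≤ 2 ex2 k a₁ a₁ + 2 ex2 k a₂ a₂`.
First term: `a₁ ≤ ind D`, so `ex2 k a₁ a₁ ≤ ex2 k a₁ (ind D) = ex2 k (av G a₁) (ind D)` (`ex2_mono`, `ex2_av_left`).
`av G a₁ = 1_X * cpr G A` (`av_mul_left`), and `cpr G A ≤ cpr G D = ind D`; so on `X ∩ D` we have
`av G a₁ ≤ e + C l`, off `X ∩ D` it is `0` (≤ `0`): `av G a₁ ≤ (e + C l) ind D`.  Hence `ex2 k a₁ a₁ ≤ (e + C l) pr2 k D`.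
Second term: `a₂ ≤ b / l` pointwise (off `X`, `b > l`), so `ex2 k a₂ a₂ ≤ l⁻² ex2 k b b`; `b` does not depend on `G`, so
`ex2 k b b = ex2 k' b b` (`ex2_congr`) with `k' = k` off `G`, `0` on `G`, and `ex2 k' b b = ex2 k' (ind B) (ind B)` (`ex2_av`). -/
theorem min_trick {A B D : Cfg → Prop} (lA : Loc A) (lB : Loc B) (lD : Loc D) {G : Finset Pt}
    {V : Set Pt} (hD : Dep D V) (hV : ∀ v ∈ G, v ∉ V) (hAD : ∀ ω, A ω → D ω) {e C l : ℝ}
    (he : 0 ≤ e) (hC : 0 ≤ C) (hl : 0 < l)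
    (h : ∀ ω, cpr G A ω ≤ e * ind D ω + C * cpr G B ω) {k : Pt → ℝ} (hk : Kap k) :
    pr2 k A ≤ 2 * (e + C * l) * pr2 k D +
      2 / l ^ 2 * pr2 (fun v => if v ∈ G then 0 else k v) B := by
  have lb : Lf (cpr G B) := lB.lf.av G
  have hbG : Dep (cpr G B) (Set.univ \ (G : Set Pt)) := (se2_dep_univ (ind B)).av G
  have hGu : ∀ v ∈ G, v ∉ Set.univ \ (G : Set Pt) := fun v hv hv' => hv'.2 (by exact_mod_cast hv)
  have hXG : Dep (fun ω => cpr G B ω ≤ l) (Set.univ \ (G : Set Pt)) := by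
    intro ω ω' H
    show (cpr G B ω ≤ l) = (cpr G B ω' ≤ l)
    rw [hbG ω ω' H]
  have lX : Loc (fun ω => cpr G B ω ≤ l) := by
    obtain ⟨F, hF⟩ := lb
    refine ⟨F, ?_⟩
    intro ω ω' H
    show (cpr G B ω ≤ l) = (cpr G B ω' ≤ l)
    rw [hF ω ω' H]
  have lY : Loc (fun ω => ¬ cpr G B ω ≤ l) := by
    obtain ⟨F, hF⟩ := lb
    refine ⟨F, ?_⟩
    intro ω ω' H
    show (¬ cpr G B ω ≤ l) = (¬ cpr G B ω' ≤ l)
    rw [hF ω ω' H]
  have la1 : Lf (fun ω => ind (fun ω => cpr G B ω ≤ l) ω * ind A ω) := lX.lf.mul lA.lf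
  have la2 : Lf (fun ω => ind (fun ω => ¬ cpr G B ω ≤ l) ω * ind A ω) := lY.lf.mul lA.lf
  have hsum : ind A = fun ω => ind (fun ω => cpr G B ω ≤ l) ω * ind A ω +
      ind (fun ω => ¬ cpr G B ω ≤ l) ω * ind A ω := by
    funext ω
    by_cases h1 : cpr G B ω ≤ l
    · simp [ind, h1]
    · simp [ind, h1]
  have n1 : ∀ ω, 0 ≤ ind (fun ω => cpr G B ω ≤ l) ω * ind A ω := fun ω =>
    mul_nonneg (se2_ind_nonneg _ ω) (se2_ind_nonneg _ ω)
  have n2 : ∀ ω, 0 ≤ ind (fun ω => ¬ cpr G B ω ≤ l) ω * ind A ω := fun ω =>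
    mul_nonneg (se2_ind_nonneg _ ω) (se2_ind_nonneg _ ω)
  -- first term
  have hle : ∀ ω, ind (fun ω => cpr G B ω ≤ l) ω * ind A ω ≤ ind D ω := by
    intro ω
    by_cases hA : A ω
    · have hd : ind D ω = 1 := by simp [ind, hAD ω hA]
      rw [hd]
      have h1 : ind (fun ω => cpr G B ω ≤ l) ω ≤ 1 := se2_ind_le_one _ ω
      have h2 : ind A ω ≤ 1 := se2_ind_le_one _ ω
      exact mul_le_one₀ h1 (se2_ind_nonneg _ ω) h2
    · have : ind A ω = 0 := by simp [ind, hA]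
      rw [this, mul_zero]
      exact se2_ind_nonneg _ ω
  have hav1 : ∀ ω, av G (fun ω => ind (fun ω => cpr G B ω ≤ l) ω * ind A ω) ω =
      ind (fun ω => cpr G B ω ≤ l) ω * cpr G A ω := fun ω =>
    av_mul_left (g := ind A) hXG.ind hGu ω
  have hcAD : ∀ ω, cpr G A ω ≤ ind D ω := by
    intro ω
    have h1 : cpr G A ω ≤ av G (ind D) ω := by
      refine av_mono (fun ω' _ => ?_)
      by_cases hA : A ω'
      · simp [ind, hA, hAD ω' hA]
      · have : ind A ω' = 0 := by simp [ind, hA]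
        rw [this]
        exact se2_ind_nonneg _ ω'
    rw [av_of_dep hD.ind hV ω] at h1
    exact h1
  have hb1 : ∀ ω, av G (fun ω => ind (fun ω => cpr G B ω ≤ l) ω * ind A ω) ω ≤
      (e + C * l) * ind D ω := by
    intro ω
    rw [hav1 ω]
    by_cases h1 : cpr G B ω ≤ l
    · have hx : ind (fun ω => cpr G B ω ≤ l) ω = 1 := by simp [ind, h1]
      rw [hx, one_mul]
      by_cases hD1 : D ω
      · have hd : ind D ω = 1 := by simp [ind, hD1]
        have h2 := h ω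
        rw [hd, mul_one] at h2 ⊢
        have h3 : C * cpr G B ω ≤ C * l := mul_le_mul_of_nonneg_left h1 hC
        linarith
      · have hd : ind D ω = 0 := by simp [ind, hD1]
        have h2 := hcAD ω
        rw [hd] at h2 ⊢
        rw [mul_zero]
        exact h2
    · have hx : ind (fun ω => cpr G B ω ≤ l) ω = 0 := by simp [ind, h1]
      rw [hx, zero_mul]
      exact mul_nonneg (add_nonneg he (mul_nonneg hC hl.le)) (se2_ind_nonneg _ ω)
  have t1 : ex2 k (fun ω => ind (fun ω => cpr G B ω ≤ l) ω * ind A ω)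
      (fun ω => ind (fun ω => cpr G B ω ≤ l) ω * ind A ω) ≤ (e + C * l) * pr2 k D := by
    have s1 : ex2 k (fun ω => ind (fun ω => cpr G B ω ≤ l) ω * ind A ω)
        (fun ω => ind (fun ω => cpr G B ω ≤ l) ω * ind A ω) ≤
        ex2 k (fun ω => ind (fun ω => cpr G B ω ≤ l) ω * ind A ω) (ind D) :=
      ex2_mono la1 la1 la1 lD.lf k hk n1 n1 (fun ω => le_rfl) hle
    rw [ex2_av_left la1 lD.lf hD.ind hV k] at s1
    have s2 : ex2 k (av G (fun ω => ind (fun ω => cpr G B ω ≤ l) ω * ind A ω)) (ind D) ≤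
        ex2 k (fun ω => (e + C * l) * ind D ω) (ind D) :=
      ex2_mono (la1.av G) lD.lf (lD.lf.smul _) lD.lf k hk (av_nonneg n1)
        (se2_ind_nonneg D) hb1 (fun ω => le_rfl)
    rw [ex2_smul_left lD.lf lD.lf k] at s2
    exact s1.trans s2
  -- second term
  have hb2 : ∀ ω, ind (fun ω => ¬ cpr G B ω ≤ l) ω * ind A ω ≤ (1 / l) * cpr G B ω := by
    intro ω
    have hb0 : 0 ≤ cpr G B ω := cpr_nonneg G B ω
    by_cases h1 : cpr G B ω ≤ l
    · have hx : ind (fun ω => ¬ cpr G B ω ≤ l) ω = 0 := by simp [ind, h1]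
      rw [hx, zero_mul]
      exact mul_nonneg (by positivity) hb0
    · have h2 : 1 ≤ (1 / l) * cpr G B ω := by
        rw [one_div, inv_mul_eq_div, le_div_iff₀ hl, one_mul]
        exact (not_le.1 h1).le
      have h3 : ind (fun ω => ¬ cpr G B ω ≤ l) ω * ind A ω ≤ 1 :=
        mul_le_one₀ (se2_ind_le_one _ ω) (se2_ind_nonneg _ ω) (se2_ind_le_one _ ω)
      exact h3.trans h2
  have t2 : ex2 k (fun ω => ind (fun ω => ¬ cpr G B ω ≤ l) ω * ind A ω)
      (fun ω => ind (fun ω => ¬ cpr G B ω ≤ l) ω * ind A ω) ≤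
      1 / l ^ 2 * pr2 (fun v => if v ∈ G then 0 else k v) B := by
    have s1 : ex2 k (fun ω => ind (fun ω => ¬ cpr G B ω ≤ l) ω * ind A ω)
        (fun ω => ind (fun ω => ¬ cpr G B ω ≤ l) ω * ind A ω) ≤
        ex2 k (fun ω => (1 / l) * cpr G B ω) (fun ω => (1 / l) * cpr G B ω) :=
      ex2_mono la2 la2 (lb.smul _) (lb.smul _) k hk n2 n2 hb2 hb2
    have s2 : ex2 k (fun ω => (1 / l) * cpr G B ω) (fun ω => (1 / l) * cpr G B ω) =
        1 / l ^ 2 * ex2 k (cpr G B) (cpr G B) := by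
      rw [ex2_smul_left lb (lb.smul _) k, ex2_comm lb (lb.smul _) k, ex2_smul_left lb lb k]
      field_simp
    have s3 : ex2 k (cpr G B) (cpr G B) =
        ex2 (fun v => if v ∈ G then 0 else k v) (cpr G B) (cpr G B) := by
      refine ex2_congr lb lb hbG (fun v hv => ?_)
      have hvG : v ∉ G := fun hv' => hv.2 (by exact_mod_cast hv')
      rw [if_neg hvG]
    have s4 : pr2 (fun v => if v ∈ G then 0 else k v) B =
        ex2 (fun v => if v ∈ G then 0 else k v) (cpr G B) (cpr G B) :=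
      ex2_av lB.lf lB.lf G _ (fun v hv => if_pos hv)
    rw [s2, s3, ← s4] at s1
    exact s1
  have t0 : pr2 k A ≤ 2 * ex2 k (fun ω => ind (fun ω => cpr G B ω ≤ l) ω * ind A ω)
      (fun ω => ind (fun ω => cpr G B ω ≤ l) ω * ind A ω) +
      2 * ex2 k (fun ω => ind (fun ω => ¬ cpr G B ω ≤ l) ω * ind A ω)
      (fun ω => ind (fun ω => ¬ cpr G B ω ≤ l) ω * ind A ω) := by
    have s := ex2_add_le la1 la2 k (fun v => (hk v).1)
    rw [← hsum] at s
    exact s
  have t3 : 2 / l ^ 2 * pr2 (fun v => if v ∈ G then 0 else k v) B =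
      2 * (1 / l ^ 2 * pr2 (fun v => if v ∈ G then 0 else k v) B) := by ring
  rw [t3]
  linarith

end SC

end

/-! ### from `Lib_MP_e0a489.PF2` -/

section

/-!
# MP_e0a489, probability toolkit 7b: changing the noise, energy
-/

set_option autoImplicit false

namespace SC

open Classical

private theorem PF2_lf_dv {g : Cfg → ℝ} {F : Finset Pt} (hF : Dep g (F : Set Pt)) (v : Pt) :
    Dep (dv v g) (F : Set Pt) := by
  intro ω ω' H
  exact (hF.dv v) ω ω' fun u hu => H u hu.1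

private theorem PF2_prod (W : Finset Pt) (e : ℝ) (κ : Pt → ℝ) (T : Finset Pt) :
    ∏ v ∈ T, kon W e κ v = e ^ (T ∩ W).card * ∏ v ∈ T \ W, κ v := by
  have h1 : ∏ v ∈ T, kon W e κ v =
      (∏ v ∈ T ∩ W, kon W e κ v) * ∏ v ∈ T \ W, kon W e κ v := by
    rw [← Finset.prod_union]
    · congr 1
      ext v
      simp only [Finset.mem_union, Finset.mem_inter, Finset.mem_sdiff]
      tauto
    · rw [Finset.disjoint_left]
      intro v hv hv'
      exact (Finset.mem_sdiff.1 hv').2 (Finset.mem_inter.1 hv).2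
  rw [h1]
  congr 1
  · rw [Finset.prod_congr rfl (g := fun _ => e)]
    · rw [Finset.prod_const]
    · intro v hv
      unfold kon
      rw [if_pos (Finset.mem_inter.1 hv).2]
  · apply Finset.prod_congr rfl
    intro v hv
    unfold kon
    rw [if_neg (Finset.mem_sdiff.1 hv).2]

private theorem PF2_key1 {g : Cfg → ℝ} {F : Finset Pt} (hF : Dep g (F : Set Pt)) (W : Finset Pt)
    (e : ℝ) (κ : Pt → ℝ) {v : Pt} (hv : v ∈ W) :
    e * ex2 (kon W e κ) (dv v g) (dv v g) =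
      ∑ T ∈ F.powerset, (if v ∈ T then
        (e ^ (T ∩ W).card * ∏ u ∈ T \ W, κ u) * (fc g T * fc g T) else 0) := by
  have hLf : Lf g := ⟨F, hF⟩
  rw [ex2_fourier (PF2_lf_dv hF v) (PF2_lf_dv hF v), Finset.mul_sum]
  have e1 : ∀ S ∈ F.powerset, e * ((∏ u ∈ S, kon W e κ u) * (fc (dv v g) S * fc (dv v g) S)) =
      if v ∉ S ∧ v ∈ F then (∏ u ∈ insert v S, kon W e κ u) *
        (fc g (insert v S) * fc g (insert v S)) else 0 := by
    intro S hS
    rw [fc_dv hLf]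
    by_cases h1 : v ∈ S
    · rw [if_pos h1, if_neg (fun h => h.1 h1)]
      ring
    · rw [if_neg h1]
      by_cases h2 : v ∈ F
      · rw [if_pos ⟨h1, h2⟩, Finset.prod_insert h1]
        have : kon W e κ v = e := by unfold kon; rw [if_pos hv]
        rw [this]
        ring
      · rw [if_neg (fun h => h2 h.2), fc_eq_zero hF]
        · ring
        · intro h
          exact h2 (h (Finset.mem_insert_self v S))
  rw [Finset.sum_congr rfl e1, ← Finset.sum_filter, ← Finset.sum_filter]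
  refine Finset.sum_bij' (fun S _ => insert v S) (fun T _ => T.erase v) ?_ ?_ ?_ ?_ ?_
  · intro S hS
    rw [Finset.mem_filter, Finset.mem_powerset] at hS ⊢
    exact ⟨Finset.insert_subset hS.2.2 hS.1, Finset.mem_insert_self v S⟩
  · intro T hT
    rw [Finset.mem_filter, Finset.mem_powerset] at hT ⊢
    exact ⟨(Finset.erase_subset v T).trans hT.1, Finset.notMem_erase v T, hT.1 hT.2⟩
  · intro S hS
    rw [Finset.mem_filter] at hS
    exact Finset.erase_insert hS.2.1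
  · intro T hT
    rw [Finset.mem_filter] at hT
    exact Finset.insert_erase hT.2
  · intro S hS
    rw [PF2_prod]

private theorem PF2_key {g : Cfg → ℝ} {F : Finset Pt} (hF : Dep g (F : Set Pt)) (W : Finset Pt)
    (e : ℝ) (κ : Pt → ℝ) :
    ∑ v ∈ W, e * ex2 (kon W e κ) (dv v g) (dv v g) =
      ∑ T ∈ F.powerset, ((T ∩ W).card : ℝ) *
        ((e ^ (T ∩ W).card * ∏ u ∈ T \ W, κ u) * (fc g T * fc g T)) := by
  rw [Finset.sum_congr rfl fun v hv => PF2_key1 hF W e κ hv, Finset.sum_comm]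
  apply Finset.sum_congr rfl
  intro T _
  rw [← Finset.sum_filter, Finset.sum_const, nsmul_eq_mul]
  congr 2
  rw [Finset.inter_comm, Finset.filter_mem_eq_inter]

private theorem PF2_ex2 {g : Cfg → ℝ} {F : Finset Pt} (hF : Dep g (F : Set Pt)) (W : Finset Pt)
    (e : ℝ) (κ : Pt → ℝ) :
    ex2 (kon W e κ) g g =
      ∑ T ∈ F.powerset, (e ^ (T ∩ W).card * ∏ u ∈ T \ W, κ u) * (fc g T * fc g T) := by
  rw [ex2_fourier hF hF]
  apply Finset.sum_congr rfl
  intro T _
  rw [PF2_prod]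

private theorem PF2_sq {g : Cfg → ℝ} {F : Finset Pt} (hF : Dep g (F : Set Pt)) :
    ex (fun ω => g ω ^ 2) = ∑ T ∈ F.powerset, fc g T * fc g T := by
  rw [← parseval hF hF]
  congr 1
  funext ω
  ring

private theorem PF2_exp1 {s : ℝ} (k : ℕ) :
    Real.exp (-s) ^ k ≤ Real.exp (-(2 * s)) ^ k + s * (k * Real.exp (-s) ^ k) := by
  have e1 : Real.exp (-s) ^ k = Real.exp (-(s * k)) := by
    rw [← Real.exp_nat_mul]; congr 1; ring
  have e2 : Real.exp (-(2 * s)) ^ k = Real.exp (-(s * k)) * Real.exp (-(s * k)) := by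
    rw [← Real.exp_nat_mul, ← Real.exp_add]; congr 1; ring
  rw [e1, e2]
  have h := Real.add_one_le_exp (-(s * k))
  have hp := Real.exp_pos (-(s * k))
  nlinarith

private theorem PF2_exp2 {s : ℝ} (k : ℕ) :
    Real.exp (-(2 * s)) ^ k + s * (k * Real.exp (-(2 * s)) ^ k) ≤ Real.exp (-s) ^ k := by
  have e1 : Real.exp (-s) ^ k = Real.exp (-(2 * (s * k))) * Real.exp (s * k) := by
    rw [← Real.exp_nat_mul, ← Real.exp_add]; congr 1; ring
  have e2 : Real.exp (-(2 * s)) ^ k = Real.exp (-(2 * (s * k))) := by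
    rw [← Real.exp_nat_mul]; congr 1; ring
  rw [e1, e2]
  have h := Real.add_one_le_exp (s * k)
  have hp := Real.exp_pos (-(2 * (s * k)))
  nlinarith

private theorem PF2_exp3 {s : ℝ} (k : ℕ) : 1 ≤ Real.exp (-s) ^ k + s * k := by
  have e1 : Real.exp (-s) ^ k = Real.exp (-(s * k)) := by
    rw [← Real.exp_nat_mul]; congr 1; ring
  rw [e1]
  have h := Real.add_one_le_exp (-(s * k))
  linarith

private theorem PF2_exp4 {t P : ℝ} (ht : 0 ≤ t) (h0 : 0 ≤ P) (h1 : P ≤ 1) (k : ℕ) :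
    Real.exp (-t) ^ k * P ≤ 0 ^ k * P + Real.exp (-t) := by
  have hp := Real.exp_pos (-t)
  have hle : Real.exp (-t) ≤ 1 := Real.exp_le_one_iff.2 (by linarith)
  cases k with
  | zero => simp; linarith
  | succ k =>
    have h2 : Real.exp (-t) ^ k ≤ 1 := pow_le_one₀ hp.le hle
    have h3 : 0 ≤ Real.exp (-t) ^ k := by positivity
    have h4 : Real.exp (-t) ^ (k + 1) * P ≤ Real.exp (-t) := by
      calc Real.exp (-t) ^ (k + 1) * P = Real.exp (-t) * (Real.exp (-t) ^ k * P) := by ring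
        _ ≤ Real.exp (-t) * 1 := by
          apply mul_le_mul_of_nonneg_left _ hp.le
          nlinarith
        _ = Real.exp (-t) := mul_one _
    simp only [pow_succ, mul_zero, zero_mul, zero_add]
    rw [← pow_succ]
    exact h4

private theorem PF2_tail {g : Cfg → ℝ} (hg : Lf g) (W : Finset Pt) {κ : Pt → ℝ}
    (hκ : ∀ v, 0 ≤ κ v ∧ κ v ≤ 1) {t : ℝ} (ht : 0 ≤ t) :
    ex2 (kon W (Real.exp (-t)) κ) g g ≤ ex2 (kon W 0 κ) g g +
      Real.exp (-t) * ex (fun ω => g ω ^ 2) := by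
  obtain ⟨F, hF⟩ := hg
  rw [PF2_ex2 hF, PF2_ex2 hF, PF2_sq hF, Finset.mul_sum, ← Finset.sum_add_distrib]
  apply Finset.sum_le_sum
  intro T _
  have hP0 : 0 ≤ ∏ u ∈ T \ W, κ u := Finset.prod_nonneg fun u _ => (hκ u).1
  have hP1 : ∏ u ∈ T \ W, κ u ≤ 1 := Finset.prod_le_one (fun u _ => (hκ u).1) fun u _ => (hκ u).2
  have h := PF2_exp4 ht hP0 hP1 (T ∩ W).card
  have hf : 0 ≤ fc g T * fc g T := mul_self_nonneg _
  nlinarith [mul_le_mul_of_nonneg_right h hf]

/-- Increasing the lag from `s` to `2 s` on `W`, upper bound.  With `k = |S ∩ W|` the difference of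
the coefficients of `fc g S ^ 2 ∏_{S \ W} κ` is `exp (-s k) - exp (-2 s k) ≤ s k exp (-s k)`, and
`∑_{v ∈ W} exp (-s) ex2 (..) (dv v g) (dv v g) = ∑ fc g S ^ 2 k exp (-s k) ∏ κ` by `fc_dv`. -/
theorem lag_up {g : Cfg → ℝ} (hg : Lf g) (W : Finset Pt) {κ : Pt → ℝ} (hκ : ∀ v, 0 ≤ κ v)
    {s : ℝ} (hs : 0 ≤ s) :
    ex2 (kon W (Real.exp (-s)) κ) g g ≤ ex2 (kon W (Real.exp (-(2 * s))) κ) g g +
      s * ∑ v ∈ W, Real.exp (-s) * ex2 (kon W (Real.exp (-s)) κ) (dv v g) (dv v g) := by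
  obtain ⟨F, hF⟩ := hg
  rw [PF2_key hF, PF2_ex2 hF, PF2_ex2 hF, Finset.mul_sum, ← Finset.sum_add_distrib]
  apply Finset.sum_le_sum
  intro T _
  have hP0 : 0 ≤ ∏ u ∈ T \ W, κ u := Finset.prod_nonneg fun u _ => hκ u
  have hf : 0 ≤ fc g T * fc g T := mul_self_nonneg _
  have h := PF2_exp1 (s := s) (T ∩ W).card
  have h2 := mul_le_mul_of_nonneg_right h (mul_nonneg hP0 hf)
  calc _ = Real.exp (-s) ^ (T ∩ W).card * ((∏ u ∈ T \ W, κ u) * (fc g T * fc g T)) := by ring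
    _ ≤ _ := h2
    _ = _ := by ring

/-- Lower bound: `exp (-s k) - exp (-2 s k) ≥ s k exp (-2 s k)`. -/
theorem lag_low {g : Cfg → ℝ} (hg : Lf g) (W : Finset Pt) {κ : Pt → ℝ} (hκ : ∀ v, 0 ≤ κ v)
    {s : ℝ} (hs : 0 ≤ s) :
    ex2 (kon W (Real.exp (-(2 * s))) κ) g g +
      s * ∑ v ∈ W, Real.exp (-(2 * s)) *
        ex2 (kon W (Real.exp (-(2 * s))) κ) (dv v g) (dv v g) ≤
      ex2 (kon W (Real.exp (-s)) κ) g g := by
  obtain ⟨F, hF⟩ := hg
  rw [PF2_key hF, PF2_ex2 hF, PF2_ex2 hF, Finset.mul_sum, ← Finset.sum_add_distrib]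
  apply Finset.sum_le_sum
  intro T _
  have hP0 : 0 ≤ ∏ u ∈ T \ W, κ u := Finset.prod_nonneg fun u _ => hκ u
  have hf : 0 ≤ fc g T * fc g T := mul_self_nonneg _
  have h := PF2_exp2 (s := s) (T ∩ W).card
  have h2 := mul_le_mul_of_nonneg_right h (mul_nonneg hP0 hf)
  calc _ = (Real.exp (-(2 * s)) ^ (T ∩ W).card +
        s * ((T ∩ W).card * Real.exp (-(2 * s)) ^ (T ∩ W).card)) *
        ((∏ u ∈ T \ W, κ u) * (fc g T * fc g T)) := by ring
    _ ≤ _ := h2
    _ = _ := by ring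

/-- Iteration of `lag_up` (times `2 ^ j t`, `j < n`) and the tail:
`ex2 (kon W (exp (-s)) κ) g g ≤ ex2 (kon W 0 κ) g g + exp (-s) E[g²]` (`s = 2 ^ n t`, `κ ≤ 1`). -/
theorem lag_sum {g : Cfg → ℝ} (hg : Lf g) (W : Finset Pt) {κ : Pt → ℝ}
    (hκ : ∀ v, 0 ≤ κ v ∧ κ v ≤ 1) {t : ℝ} (ht : 0 ≤ t) (n : ℕ) :
    ex2 (kon W (Real.exp (-t)) κ) g g ≤ ex2 (kon W 0 κ) g g +
      ∑ j ∈ Finset.range n, (2 ^ j * t) * ∑ v ∈ W, Real.exp (-(2 ^ j * t)) *
        ex2 (kon W (Real.exp (-(2 ^ j * t))) κ) (dv v g) (dv v g) +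
      Real.exp (-(2 ^ n * t)) * ex (fun ω => g ω ^ 2) := by
  have hA : ex2 (kon W (Real.exp (-t)) κ) g g ≤
      ex2 (kon W (Real.exp (-(2 ^ n * t))) κ) g g +
      ∑ j ∈ Finset.range n, (2 ^ j * t) * ∑ v ∈ W, Real.exp (-(2 ^ j * t)) *
        ex2 (kon W (Real.exp (-(2 ^ j * t))) κ) (dv v g) (dv v g) := by
    induction n with
    | zero => simp
    | succ n ih =>
      rw [Finset.sum_range_succ]
      have h := lag_up hg W (fun v => (hκ v).1) (s := 2 ^ n * t) (by positivity)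
      have e : 2 * (2 ^ n * t) = 2 ^ (n + 1) * t := by ring
      rw [e] at h
      linarith
  have hB := PF2_tail hg W hκ (t := 2 ^ n * t) (by positivity)
  linarith

/-- ENERGY: telescoping sum of `lag_low` over the times `s = 2 ^ j t`, `j < n` (`W` = all sites of a
finite set, `κ = 1` elsewhere): the total is at most `ex2 1 g g = E[g²]`. -/
theorem energy {g : Cfg → ℝ} (hg : Lf g) (W : Finset Pt) {t : ℝ} (ht : 0 ≤ t) (n : ℕ) :
    ∑ j ∈ Finset.range n, (2 ^ j * t) * ∑ v ∈ W, Real.exp (-(2 * (2 ^ j * t))) *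
      ex2 (kon W (Real.exp (-(2 * (2 ^ j * t)))) fun _ => 1) (dv v g) (dv v g) ≤
      ex (fun ω => g ω ^ 2) := by
  have hA : ex2 (kon W (Real.exp (-(2 ^ n * t))) fun _ => 1) g g +
      ∑ j ∈ Finset.range n, (2 ^ j * t) * ∑ v ∈ W, Real.exp (-(2 * (2 ^ j * t))) *
      ex2 (kon W (Real.exp (-(2 * (2 ^ j * t)))) fun _ => 1) (dv v g) (dv v g) ≤
      ex2 (kon W (Real.exp (-t)) fun _ => 1) g g := by
    induction n with
    | zero => simp
    | succ n ih =>
      rw [Finset.sum_range_succ]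
      have h := lag_low hg W (κ := fun _ => 1) (fun _ => zero_le_one) (s := 2 ^ n * t)
        (by positivity)
      have e : 2 * (2 ^ n * t) = 2 ^ (n + 1) * t := by ring
      rw [e] at h
      rw [e]
      linarith
  have hB : 0 ≤ ex2 (kon W (Real.exp (-(2 ^ n * t))) fun _ => 1) g g := by
    apply ex2_self_nonneg hg
    intro v
    unfold kon
    split_ifs
    · exact (Real.exp_pos _).le
    · exact zero_le_one
  have hC : ex2 (kon W (Real.exp (-t)) fun _ => 1) g g ≤ ex (fun ω => g ω ^ 2) := by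
    apply ex2_le_sq hg
    intro v
    unfold kon
    split_ifs
    · exact ⟨(Real.exp_pos _).le, Real.exp_le_one_iff.2 (by linarith)⟩
    · exact ⟨zero_le_one, le_refl _⟩
  linarith

/-- Loss of a small lag: `1 - exp (-s k) ≤ s k`. -/
theorem lag_loss {g : Cfg → ℝ} (hg : Lf g) (W : Finset Pt) {s : ℝ} (hs : 0 ≤ s) :
    ex (fun ω => g ω ^ 2) ≤ ex2 (kon W (Real.exp (-s)) fun _ => 1) g g +
      s * ∑ v ∈ W, ex (fun ω => dv v g ω ^ 2) := by
  obtain ⟨F, hF⟩ := hg
  have e1 : ∀ v ∈ W, ex (fun ω => dv v g ω ^ 2) =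
      1 * ex2 (kon W 1 fun _ => 1) (dv v g) (dv v g) := by
    intro v _
    rw [ex2_one ⟨F, PF2_lf_dv hF v⟩ ⟨F, PF2_lf_dv hF v⟩ (PF2_lf_dv hF v) _ (fun u _ => by
      unfold kon; split_ifs <;> rfl), one_mul]
    congr 1
    funext ω
    ring
  rw [Finset.sum_congr rfl e1, PF2_key hF, PF2_ex2 hF, PF2_sq hF, Finset.mul_sum,
    ← Finset.sum_add_distrib]
  apply Finset.sum_le_sum
  intro T _
  have hf : 0 ≤ fc g T * fc g T := mul_self_nonneg _
  have h := PF2_exp3 (s := s) (T ∩ W).card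
  have h2 := mul_le_mul_of_nonneg_right h hf
  simp only [Finset.prod_const_one, one_pow, mul_one, one_mul] at h2 ⊢
  calc _ ≤ _ := h2
    _ = _ := by ring

end SC

end

/-! ### from `Lib_MP_e0a489.TTG` -/

section

/-!
# MP_e0a489, module TT: graded lags
-/

set_option autoImplicit false

namespace SC

open Classical

theorem kt_mem {t : ℝ} (ht : 0 ≤ t) (v : Pt) : 0 ≤ kt t v ∧ kt t v ≤ 1 := by
  refine ⟨(Real.exp_pos _).le, ?_⟩
  show Real.exp (-t) ≤ 1
  rw [← Real.exp_zero]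
  exact Real.exp_le_exp.2 (by linarith)

theorem kon_mem {W : Finset Pt} {e : ℝ} {κ : Pt → ℝ} (he : 0 ≤ e ∧ e ≤ 1)
    (hκ : ∀ v, 0 ≤ κ v ∧ κ v ≤ 1) (v : Pt) : 0 ≤ kon W e κ v ∧ kon W e κ v ≤ 1 := by
  unfold kon
  split_ifs
  · exact he
  · exact hκ v

/-- the correlations after `j` steps -/
private noncomputable def ttg_k (V : ℕ → Finset Pt) (t : ℝ) : ℕ → Pt → ℝ
  | 0 => kt t
  | j + 1 => kon (V (j + 1)) (Real.exp (-(2 ^ (j + 1) * t))) (ttg_k V t j)

private theorem ttg_on {V : ℕ → Finset Pt} {t : ℝ} {j : ℕ} {v : Pt} (hv : v ∈ V j) :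
    ttg_k V t j v = Real.exp (-(2 ^ j * t)) := by
  cases j with
  | zero =>
    show Real.exp (-t) = _
    rw [pow_zero, one_mul]
  | succ j =>
    show kon (V (j + 1)) _ _ v = _
    unfold kon
    rw [if_pos hv]

private theorem ttg_le {V : ℕ → Finset Pt} {t : ℝ} (ht : 0 ≤ t) (j : ℕ) (v : Pt) :
    0 ≤ ttg_k V t j v ∧ ttg_k V t j v ≤ kt t v := by
  induction j with
  | zero => exact ⟨(kt_mem ht v).1, le_refl _⟩
  | succ j ih =>
    show 0 ≤ kon (V (j + 1)) _ _ v ∧ kon (V (j + 1)) _ _ v ≤ kt t v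
    unfold kon
    split_ifs with h
    · refine ⟨(Real.exp_pos _).le, ?_⟩
      show _ ≤ Real.exp (-t)
      refine Real.exp_le_exp.2 ?_
      have h1 : (1 : ℝ) ≤ 2 ^ (j + 1) := one_le_pow₀ (by norm_num)
      nlinarith
    · exact ih

private theorem ttg_kon {V : ℕ → Finset Pt} (hV : ∀ j, V (j + 1) ⊆ V j) {t : ℝ} (j : ℕ) :
    kon (V (j + 1)) (Real.exp (-(2 ^ j * t))) (ttg_k V t j) = ttg_k V t j := by
  funext v
  unfold kon
  split_ifs with h
  · exact (ttg_on (hV j h)).symm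
  · rfl

private theorem ttg_kon_le {V : ℕ → Finset Pt} {t : ℝ} (ht : 0 ≤ t) (j : ℕ) (v : Pt) :
    ttg_k V t j v ≤ kon (V j) (Real.exp (-(2 ^ j * t))) (kt t) v := by
  unfold kon
  split_ifs with h
  · exact (ttg_on h).le
  · exact (ttg_le ht j v).2

private theorem ttg_lf {g : Cfg → ℝ} (hg : Lf g) (v : Pt) : Lf (dv v g) := by
  obtain ⟨F, hF⟩ := hg
  exact ⟨F, (hF.dv v).mono Set.diff_subset⟩

/-- GRADED LAGS.  The lag is doubled on smaller and smaller sets: at the time `2 ^ j t` (reached on `V j`) it is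
doubled on `V (j + 1)`. -/
theorem lag_graded {g : Cfg → ℝ} (hg : Lf g) {V : ℕ → Finset Pt} (hV : ∀ j, V (j + 1) ⊆ V j)
    {t : ℝ} (ht : 0 ≤ t) (n : ℕ) :
    ex2 (kt t) g g ≤ ex2 (kon (V n) 0 (kt t)) g g +
      ∑ j ∈ Finset.range n, (2 ^ j * t) * ∑ v ∈ V (j + 1), Real.exp (-(2 ^ j * t)) *
        ex2 (kon (V j) (Real.exp (-(2 ^ j * t))) (kt t)) (dv v g) (dv v g) +
      Real.exp (-(2 ^ n * t)) * ex (fun ω => g ω ^ 2) := by
  have key : ∀ n : ℕ, ex2 (kt t) g g ≤ ex2 (ttg_k V t n) g g +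
      ∑ j ∈ Finset.range n, (2 ^ j * t) * ∑ v ∈ V (j + 1), Real.exp (-(2 ^ j * t)) *
        ex2 (kon (V j) (Real.exp (-(2 ^ j * t))) (kt t)) (dv v g) (dv v g) := by
    intro n
    induction n with
    | zero => simp [ttg_k]
    | succ n ih =>
      rw [Finset.sum_range_succ]
      have hs : 0 ≤ 2 ^ n * t := mul_nonneg (by positivity) ht
      have h1 := lag_up hg (V (n + 1)) (κ := ttg_k V t n) (fun v => (ttg_le ht n v).1) hs
      rw [ttg_kon hV n] at h1
      have e1 : (2 : ℝ) * (2 ^ n * t) = 2 ^ (n + 1) * t := by rw [pow_succ]; ring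
      rw [e1] at h1
      have h2 : (2 ^ n * t) * ∑ v ∈ V (n + 1), Real.exp (-(2 ^ n * t)) *
            ex2 (ttg_k V t n) (dv v g) (dv v g) ≤
          (2 ^ n * t) * ∑ v ∈ V (n + 1), Real.exp (-(2 ^ n * t)) *
            ex2 (kon (V n) (Real.exp (-(2 ^ n * t))) (kt t)) (dv v g) (dv v g) := by
        refine mul_le_mul_of_nonneg_left (Finset.sum_le_sum fun v _ => ?_) hs
        exact mul_le_mul_of_nonneg_left (ex2_mono_kappa (ttg_lf hg v)
          (fun v => (ttg_le ht n v).1) (ttg_kon_le ht n)) (Real.exp_pos _).le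
      have h3 : ex2 (kon (V (n + 1)) (Real.exp (-(2 ^ (n + 1) * t))) (ttg_k V t n)) g g =
          ex2 (ttg_k V t (n + 1)) g g := rfl
      rw [h3] at h1
      linarith
  have hs : 0 ≤ 2 ^ n * t := mul_nonneg (by positivity) ht
  have h1 := key n
  have h2 := lag_sum hg (V n) (κ := ttg_k V t n)
    (fun v => ⟨(ttg_le ht n v).1, (ttg_le ht n v).2.trans (kt_mem ht v).2⟩) hs 0
  have e2 : kon (V n) (Real.exp (-(2 ^ n * t))) (ttg_k V t n) = ttg_k V t n := by
    funext v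
    unfold kon
    split_ifs with h
    · exact (ttg_on h).symm
    · rfl
  rw [e2] at h2
  simp only [Finset.range_zero, Finset.sum_empty, add_zero, pow_zero, one_mul] at h2
  have h3 : ex2 (kon (V n) 0 (ttg_k V t n)) g g ≤ ex2 (kon (V n) 0 (kt t)) g g := by
    refine ex2_mono_kappa hg (fun v => ?_) (fun v => ?_)
    · unfold kon
      split_ifs
      · exact le_refl _
      · exact (ttg_le ht n v).1
    · unfold kon
      split_ifs
      · exact le_refl _
      · exact (ttg_le ht n v).2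
  linarith

end SC

end

/-! ### from `Lib_MP_e0a489.PG3` -/

section

/-!
# MP_e0a489, probability toolkit 8c: level inequality of Schramm and Steif
-/

set_option autoImplicit false

namespace SC

open Classical

private theorem lk_dep_chi (S : Finset Pt) : Dep (chi S) (S : Set Pt) := by
  intro ω ω' h
  unfold chi
  exact Finset.prod_congr rfl fun v hv => by rw [h v (Finset.mem_coe.2 hv)]

private theorem lk_lf_chi (S : Finset Pt) : Lf (chi S) := ⟨S, lk_dep_chi S⟩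

private theorem lk_lf_lin (a : Finset Pt → ℝ) (P : Finset (Finset Pt)) :
    Lf (fun ω => ∑ S ∈ P, a S * chi S ω) := Lf.sum fun S _ => (lk_lf_chi S).smul (a S)

private theorem lk_lin {m : Cfg → ℝ} (hm : Lf m) (a : Finset Pt → ℝ) (P : Finset (Finset Pt)) :
    ex (fun ω => m ω * ∑ S ∈ P, a S * chi S ω) = ∑ S ∈ P, a S * fc m S := by
  have e : (fun ω => m ω * ∑ S ∈ P, a S * chi S ω) = fun ω => ∑ S ∈ P, a S * (m ω * chi S ω) := by
    funext ω
    rw [Finset.mul_sum]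
    exact Finset.sum_congr rfl fun S _ => by ring
  rw [e, ex_sum (fun S _ => (hm.mul (lk_lf_chi S)).smul (a S))]
  exact Finset.sum_congr rfl fun S _ => by rw [ex_smul (hm.mul (lk_lf_chi S))]; rfl

private theorem lk_bil {m : Cfg → ℝ} (hm : Lf m) (a : Finset Pt → ℝ) (P Q : Finset (Finset Pt)) :
    ex (fun ω => m ω * ((∑ S ∈ P, a S * chi S ω) * (∑ T ∈ Q, a T * chi T ω))) =
      ∑ S ∈ P, ∑ T ∈ Q, a S * a T * fc m (symmDiff S T) := by
  have e : (fun ω => m ω * ((∑ S ∈ P, a S * chi S ω) * (∑ T ∈ Q, a T * chi T ω))) =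
      fun ω => ∑ S ∈ P, ∑ T ∈ Q, (a S * a T) * (m ω * chi (symmDiff S T) ω) := by
    funext ω
    rw [Finset.sum_mul_sum, Finset.mul_sum]
    refine Finset.sum_congr rfl fun S _ => ?_
    rw [Finset.mul_sum]
    refine Finset.sum_congr rfl fun T _ => ?_
    rw [← chi_mul]
    ring
  rw [e, ex_sum (fun S _ => Lf.sum fun T _ => (hm.mul (lk_lf_chi _)).smul _)]
  refine Finset.sum_congr rfl fun S _ => ?_
  rw [ex_sum (fun T _ => (hm.mul (lk_lf_chi _)).smul _)]
  exact Finset.sum_congr rfl fun T _ => by rw [ex_smul (hm.mul (lk_lf_chi _))]; rfl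

private theorem lk_depR {𝓑 : Finset (Finset Pt)} {R : Cfg → Finset (Finset Pt)}
    (hR : BStop 𝓑 R) {ω ω' : Cfg} (h : ∀ v ∈ 𝓑.biUnion id, ω v = ω' v) : R ω' = R ω :=
  hR.stop ω ω' fun B hB v hv =>
    h v (Finset.mem_biUnion.2 ⟨B, hR.sub ω hB, hv⟩)

private theorem lk_stopA {𝓑 : Finset (Finset Pt)} {R : Cfg → Finset (Finset Pt)}
    (hR : BStop 𝓑 R) {A : Finset (Finset Pt)} {ω ω' : Cfg}
    (h : ∀ v ∈ A.biUnion id, ω v = ω' v) (hA : R ω = A) : R ω' = A := by
  rw [hR.stop ω ω' ?_, hA]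
  intro B hB v hv
  rw [hA] at hB
  exact h v (Finset.mem_biUnion.2 ⟨B, hB, hv⟩)

private theorem lk_depA {𝓑 : Finset (Finset Pt)} {R : Cfg → Finset (Finset Pt)}
    (hR : BStop 𝓑 R) (A : Finset (Finset Pt)) :
    Dep (fun ω => R ω = A) ((A.biUnion id : Finset Pt) : Set Pt) := by
  intro ω ω' h
  apply propext
  exact ⟨lk_stopA hR fun v hv => h v (Finset.mem_coe.2 hv),
    lk_stopA hR fun v hv => (h v (Finset.mem_coe.2 hv)).symm⟩

private theorem lk_depfA {𝓑 : Finset (Finset Pt)} {R : Cfg → Finset (Finset Pt)}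
    (hR : BStop 𝓑 R) {f : Cfg → ℝ}
    (hf : ∀ ω ω' : Cfg, (∀ B ∈ R ω, ∀ v ∈ B, ω v = ω' v) → f ω' = f ω)
    (A : Finset (Finset Pt)) :
    Dep (fun ω => f ω * ind (fun ω => R ω = A) ω) ((A.biUnion id : Finset Pt) : Set Pt) := by
  intro ω ω' h
  have h' : ∀ v ∈ A.biUnion id, ω v = ω' v := fun v hv => h v (Finset.mem_coe.2 hv)
  by_cases hA : R ω = A
  · have hA' := lk_stopA hR h' hA
    have hff : f ω' = f ω := hf ω ω' fun B hB v hv => by
      rw [hA] at hB
      exact h' v (Finset.mem_biUnion.2 ⟨B, hB, hv⟩)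
    simp only [ind, hA, hA', hff]
  · have hA' : ¬ R ω' = A := fun hc => hA (lk_stopA hR (fun v hv => (h' v hv).symm) hc)
    simp only [ind, hA, hA', if_false, mul_zero]

/-- blocks: the count increases strictly if a set disjoint from a block is enlarged in it -/
private theorem lk_cnt {𝓑 : Finset (Finset Pt)} {A : Finset (Finset Pt)} (hA : A ⊆ 𝓑)
    {S T : Finset Pt} (hST : cnt 𝓑 S = cnt 𝓑 T) (hS : Disjoint S (A.biUnion id))
    (h : symmDiff S T ⊆ A.biUnion id) : S = T := by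
  have h1 : S ⊆ T := by
    intro v hv
    by_contra hvT
    have : v ∈ symmDiff S T := Finset.mem_symmDiff.2 (Or.inl ⟨hv, hvT⟩)
    exact (Finset.disjoint_left.1 hS hv) (h this)
  by_contra hne
  obtain ⟨v, hvT, hvS⟩ : ∃ v ∈ T, v ∉ S := by
    by_contra hc
    push Not at hc
    exact hne (Finset.Subset.antisymm h1 hc)
  have hv : v ∈ A.biUnion id := h (Finset.mem_symmDiff.2 (Or.inr ⟨hvT, hvS⟩))
  obtain ⟨B, hB, hvB⟩ := Finset.mem_biUnion.1 hv
  have hlt : cnt 𝓑 S < cnt 𝓑 T := by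
    unfold cnt
    apply Finset.card_lt_card
    rw [Finset.ssubset_iff_of_subset]
    · refine ⟨B, Finset.mem_filter.2 ⟨hA hB, ?_⟩, ?_⟩
      · intro hd
        exact Finset.disjoint_left.1 hd hvT hvB
      · intro hm
        apply (Finset.mem_filter.1 hm).2
        rw [Finset.disjoint_left]
        intro w hwS hwB
        exact Finset.disjoint_left.1 hS hwS (Finset.mem_biUnion.2 ⟨B, hB, hwB⟩)
    · intro C hC
      rw [Finset.mem_filter] at hC ⊢
      exact ⟨hC.1, fun hd => hC.2 (Finset.disjoint_of_subset_left h1 hd)⟩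
  omega

/-- conditional Parseval inequality, integrated over the event `R ω = A` -/
private theorem lk_key {𝓑 : Finset (Finset Pt)} {R : Cfg → Finset (Finset Pt)}
    (hR : BStop 𝓑 R) {A : Finset (Finset Pt)} (hA : A ⊆ 𝓑) (a : Finset Pt → ℝ)
    {L : Finset (Finset Pt)} {k : ℕ} (hk : 1 ≤ k) (hL : ∀ S ∈ L, cnt 𝓑 S = k) :
    ex (fun ω => ind (fun ω => R ω = A) ω *
        ((∑ S ∈ L.filter (fun S => S ⊆ A.biUnion id), a S * chi S ω) *
          (∑ S ∈ L.filter (fun S => S ⊆ A.biUnion id), a S * chi S ω))) +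
      pr (fun ω => R ω = A) * ∑ T ∈ L.filter (fun T => Disjoint T (A.biUnion id)), a T ^ 2 ≤
    ex (fun ω => ind (fun ω => R ω = A) ω *
        ((∑ S ∈ L, a S * chi S ω) * (∑ S ∈ L, a S * chi S ω))) := by
  set X := A.biUnion id with hX
  set m : Cfg → ℝ := ind (fun ω => R ω = A) with hm
  have dm : Dep m (X : Set Pt) := (lk_depA hR A).ind
  have lm : Lf m := ⟨X, dm⟩
  set P1 := L.filter (fun S => S ⊆ X) with hP1
  set P3 := (L.filter (fun S => ¬ S ⊆ X)).filter (fun S => ¬ Disjoint S X) with hP3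
  have hempty : ∀ S ∈ L, S ≠ ∅ := by
    intro S hS he
    have := hL S hS
    rw [he] at this
    unfold cnt at this
    rw [Finset.filter_false_of_mem (fun B _ => by simp)] at this
    simp at this
    omega
  have hP2 : (L.filter (fun S => ¬ S ⊆ X)).filter (fun S => Disjoint S X) =
      L.filter (fun T => Disjoint T X) := by
    ext S
    simp only [Finset.mem_filter]
    constructor
    · rintro ⟨⟨h1, -⟩, h3⟩
      exact ⟨h1, h3⟩
    · rintro ⟨h1, h3⟩
      refine ⟨⟨h1, fun h2 => ?_⟩, h3⟩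
      apply hempty S h1
      rw [← Finset.disjoint_self_iff_empty]
      exact Finset.disjoint_of_subset_right h2 h3
  rw [lk_bil lm, lk_bil lm]
  -- vanishing
  have z1 : ∀ S T : Finset Pt, S ⊆ X → ¬ T ⊆ X → fc m (symmDiff S T) = 0 := by
    intro S T hS hT
    apply fc_eq_zero dm
    intro h
    apply hT
    intro v hv
    by_cases hvS : v ∈ S
    · exact hS hvS
    · exact h (Finset.mem_symmDiff.2 (Or.inr ⟨hv, hvS⟩))
  have z2 : ∀ S ∈ L, ∀ T ∈ L, Disjoint S X → S ≠ T → fc m (symmDiff S T) = 0 := by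
    intro S hS T hT hd hne
    apply fc_eq_zero dm
    intro h
    exact hne (lk_cnt hA ((hL S hS).trans (hL T hT).symm) hd h)
  have hpos : 0 ≤ ∑ S ∈ P3, ∑ T ∈ P3, a S * a T * fc m (symmDiff S T) := by
    rw [← lk_bil lm]
    apply ex_nonneg
    intro ω
    apply mul_nonneg
    · simp only [hm, ind]
      split_ifs <;> norm_num
    · exact mul_self_nonneg _
  have e1 : ∑ S ∈ P1, ∑ T ∈ L, a S * a T * fc m (symmDiff S T) =
      ∑ S ∈ P1, ∑ T ∈ P1, a S * a T * fc m (symmDiff S T) := by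
    refine Finset.sum_congr rfl fun S hS => ?_
    symm
    apply Finset.sum_subset (Finset.filter_subset _ _)
    intro T hT hT1
    rw [z1 S T (Finset.mem_filter.1 hS).2 (fun h => hT1 (Finset.mem_filter.2 ⟨hT, h⟩)), mul_zero]
  have e2 : ∑ S ∈ L.filter (fun T => Disjoint T X), ∑ T ∈ L, a S * a T * fc m (symmDiff S T) =
      pr (fun ω => R ω = A) * ∑ T ∈ L.filter (fun T => Disjoint T X), a T ^ 2 := by
    rw [Finset.mul_sum]
    refine Finset.sum_congr rfl fun S hS => ?_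
    obtain ⟨hSL, hSX⟩ := Finset.mem_filter.1 hS
    rw [Finset.sum_eq_single S]
    · have : fc m (symmDiff S S) = pr (fun ω => R ω = A) := by
        rw [symmDiff_self]
        unfold fc pr
        congr 1
        funext ω
        simp [chi, hm]
      rw [this]
      ring
    · intro T hT hne
      rw [z2 S hSL T hT hSX (Ne.symm hne), mul_zero]
    · intro h
      exact absurd hSL h
  have e3 : ∑ S ∈ P3, ∑ T ∈ L, a S * a T * fc m (symmDiff S T) =
      ∑ S ∈ P3, ∑ T ∈ P3, a S * a T * fc m (symmDiff S T) := by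
    refine Finset.sum_congr rfl fun S hS => ?_
    symm
    apply Finset.sum_subset ((Finset.filter_subset _ _).trans (Finset.filter_subset _ _))
    intro T hT hT3
    obtain ⟨hS1, hS2⟩ := Finset.mem_filter.1 hS
    obtain ⟨hSL, hSX⟩ := Finset.mem_filter.1 hS1
    by_cases hTX : T ⊆ X
    · rw [symmDiff_comm, z1 T S hTX hSX, mul_zero]
    · by_cases hTd : Disjoint T X
      · rw [symmDiff_comm, z2 T hT S hSL hTd (fun he => hS2 (he ▸ hTd)), mul_zero]
      · exact absurd (Finset.mem_filter.2 ⟨Finset.mem_filter.2 ⟨hT, hTX⟩, hTd⟩) hT3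
  have hsplit : ∑ S ∈ L, ∑ T ∈ L, a S * a T * fc m (symmDiff S T) =
      ∑ S ∈ P1, ∑ T ∈ L, a S * a T * fc m (symmDiff S T) +
      (∑ S ∈ L.filter (fun T => Disjoint T X), ∑ T ∈ L, a S * a T * fc m (symmDiff S T) +
      ∑ S ∈ P3, ∑ T ∈ L, a S * a T * fc m (symmDiff S T)) := by
    rw [← hP2, hP3, Finset.sum_filter_add_sum_filter_not, hP1, Finset.sum_filter_add_sum_filter_not]
  rw [hsplit, e1, e2, e3]
  linarith

/-- LEVEL `k` (Schramm - Steif).  All sites of `f` are in the blocks.  Then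
`∑_{cnt S = k} fc f S ^ 2 ≤ k * max P(B ∈ R)` in the following averaged form: for a finite family
`R u`, `u ∈ U`, of such stopping sets, with `∑_{u ∈ U} P(B ∈ R u) ≤ δ |U|` for every block.
Proof: `g = ∑_{cnt S = k} fc f S χ_S`.  `‖g‖² = E[f g] = E[f E(g | R_u)] ≤ ‖E(g | R_u)‖`.  For a
subset `T` of the unexplored region with `cnt T = k` the coefficient of `χ_T` in `g` (the explored
sites being fixed) is `fc g T`, because `S \ explored = T`, `cnt S = k` force `S = T`.  So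
`‖E(g | R_u)‖² ≤ ‖g‖² - ∑_T fc g T ^ 2 P(no block of T in R_u) ≤ ∑_T fc g T ^ 2 ∑_{B meets T}
P(B ∈ R_u)`; average over `u` and use `(average of ‖·‖)² ≤ average of ‖·‖²`:
`‖g‖⁴ ≤ k δ ‖g‖²`. -/
theorem level_k {𝓑 : Finset (Finset Pt)} (hd : ∀ B ∈ 𝓑, ∀ B' ∈ 𝓑, B ≠ B' → Disjoint B B')
    {ι : Type} {U : Finset ι} (hU : U.Nonempty) {R : ι → Cfg → Finset (Finset Pt)}
    (hR : ∀ u ∈ U, BStop 𝓑 (R u)) {f : Cfg → ℝ} (f0 : ∀ ω, 0 ≤ f ω) (f1 : ∀ ω, f ω ≤ 1)
    (dF : Dep f ((𝓑.biUnion id : Finset Pt) : Set Pt))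
    (hf : ∀ u ∈ U, ∀ ω ω' : Cfg, (∀ B ∈ R u ω, ∀ v ∈ B, ω v = ω' v) → f ω' = f ω)
    {δ : ℝ} (h0 : 0 ≤ δ) (hδ : ∀ B ∈ 𝓑, ∑ u ∈ U, pr (fun ω => B ∈ R u ω) ≤ δ * U.card) {k : ℕ}
    (hk : 1 ≤ k) :
    ∑ S ∈ (𝓑.biUnion id).powerset.filter (fun S => cnt 𝓑 S = k), fc f S ^ 2 ≤ k * δ := by
  set W := 𝓑.biUnion id with hW
  set L := W.powerset.filter (fun S => cnt 𝓑 S = k) with hL
  set a : Finset Pt → ℝ := fc f with ha
  set Sg := ∑ S ∈ L, a S ^ 2 with hSg
  have hLk : ∀ S ∈ L, cnt 𝓑 S = k := fun S hS => (Finset.mem_filter.1 hS).2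
  have lf : Lf f := ⟨W, dF⟩
  have hSg0 : 0 ≤ Sg := Finset.sum_nonneg fun S _ => sq_nonneg _
  -- the estimate for one stopping set
  have main : ∀ u ∈ U, Sg ^ 2 ≤ ∑ T ∈ L, a T ^ 2 *
      ∑ B ∈ 𝓑.filter (fun B => ¬ Disjoint T B), pr (fun ω => B ∈ R u ω) := by
    intro u hu
    have hRu := hR u hu
    have lA : ∀ A : Finset (Finset Pt), Lf (ind (fun ω => R u ω = A)) :=
      fun A => ⟨_, (lk_depA hRu A).ind⟩
    -- sum of the indicators
    have hone : ∀ ω, ∑ A ∈ 𝓑.powerset, ind (fun ω => R u ω = A) ω = 1 := by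
      intro ω
      rw [Finset.sum_eq_single (R u ω)]
      · simp [ind]
      · intro A _ hne
        simp only [ind]
        rw [if_neg (Ne.symm hne)]
      · intro h
        exact absurd (Finset.mem_powerset.2 (hRu.sub ω)) h
    -- Σ = ∑_A E[f 1_A g_A]
    have hS1 : Sg = ∑ A ∈ 𝓑.powerset, ex (fun ω => (f ω * ind (fun ω => R u ω = A) ω) *
        ∑ S ∈ L.filter (fun S => S ⊆ A.biUnion id), a S * chi S ω) := by
      have e1 : Sg = ex (fun ω => f ω * ∑ S ∈ L, a S * chi S ω) := by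
        rw [lk_lin lf, hSg]
        exact Finset.sum_congr rfl fun S _ => by rw [ha]; ring
      have e2 : (fun ω => f ω * ∑ S ∈ L, a S * chi S ω) = fun ω => ∑ A ∈ 𝓑.powerset,
          (f ω * ind (fun ω => R u ω = A) ω) * ∑ S ∈ L, a S * chi S ω := by
        funext ω
        rw [← Finset.sum_mul, ← Finset.mul_sum, hone ω, mul_one]
      rw [e1, e2, ex_sum (fun A _ => (lf.mul (lA A)).mul (lk_lf_lin a L))]
      refine Finset.sum_congr rfl fun A _ => ?_
      rw [lk_lin (lf.mul (lA A)), lk_lin (lf.mul (lA A))]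
      symm
      apply Finset.sum_subset (Finset.filter_subset _ _)
      intro S hS hS1
      rw [fc_eq_zero (lk_depfA hRu (hf u hu) A)
        (fun h => hS1 (Finset.mem_filter.2 ⟨hS, h⟩)), mul_zero]
    -- 2 Sg² ≤ Sg² + ∑ E[1_A g_A²]
    have hS2 : Sg ^ 2 ≤ ∑ A ∈ 𝓑.powerset, ex (fun ω => ind (fun ω => R u ω = A) ω *
        ((∑ S ∈ L.filter (fun S => S ⊆ A.biUnion id), a S * chi S ω) *
          (∑ S ∈ L.filter (fun S => S ⊆ A.biUnion id), a S * chi S ω))) := by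
      have h1 : ∀ A ∈ 𝓑.powerset, 2 * Sg * ex (fun ω => (f ω * ind (fun ω => R u ω = A) ω) *
            ∑ S ∈ L.filter (fun S => S ⊆ A.biUnion id), a S * chi S ω) ≤
          Sg ^ 2 * ex (ind (fun ω => R u ω = A)) +
          ex (fun ω => ind (fun ω => R u ω = A) ω *
        ((∑ S ∈ L.filter (fun S => S ⊆ A.biUnion id), a S * chi S ω) *
          (∑ S ∈ L.filter (fun S => S ⊆ A.biUnion id), a S * chi S ω))) := by
        intro A _
        rw [← ex_smul ((lf.mul (lA A)).mul (lk_lf_lin a _)), ← ex_smul (lA A),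
          ← ex_add ((lA A).smul _) ((lA A).mul ((lk_lf_lin a _).mul (lk_lf_lin a _)))]
        apply ex_mono (((lf.mul (lA A)).mul (lk_lf_lin a _)).smul _)
          (((lA A).smul _).add ((lA A).mul ((lk_lf_lin a _).mul (lk_lf_lin a _))))
        intro ω
        set x := ∑ S ∈ L.filter (fun S => S ⊆ A.biUnion id), a S * chi S ω with hx
        by_cases hc : R u ω = A
        · simp only [ind, hc, if_true]
          nlinarith [sq_nonneg (Sg * f ω - x), f0 ω, f1 ω, sq_nonneg Sg,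
            mul_nonneg (sq_nonneg Sg) (mul_nonneg (sub_nonneg.2 (f1 ω)) (add_nonneg zero_le_one (f0 ω)))]
        · simp only [ind, hc, if_false]
          simp
      have h2 := Finset.sum_le_sum h1
      rw [← Finset.mul_sum, ← hS1, Finset.sum_add_distrib, ← Finset.mul_sum] at h2
      have h3 : ∑ A ∈ 𝓑.powerset, ex (ind (fun ω => R u ω = A)) = 1 := by
        rw [← ex_sum (fun A _ => lA A)]
        rw [show (fun ω => ∑ A ∈ 𝓑.powerset, ind (fun ω => R u ω = A) ω) = fun _ => (1 : ℝ) from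
          funext hone]
        exact ex_const 1
      rw [h3] at h2
      nlinarith [h2]
    -- E[g²]
    have hS3 : ∑ A ∈ 𝓑.powerset, ex (fun ω => ind (fun ω => R u ω = A) ω *
        ((∑ S ∈ L, a S * chi S ω) * (∑ S ∈ L, a S * chi S ω))) = Sg := by
      rw [← ex_sum (fun A _ => (lA A).mul ((lk_lf_lin a _).mul (lk_lf_lin a _)))]
      have e2 : (fun ω => ∑ A ∈ 𝓑.powerset, ind (fun ω => R u ω = A) ω *
          ((∑ S ∈ L, a S * chi S ω) * (∑ S ∈ L, a S * chi S ω))) = fun ω =>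
          (fun _ => (1 : ℝ)) ω * ((∑ S ∈ L, a S * chi S ω) * (∑ S ∈ L, a S * chi S ω)) := by
        funext ω
        rw [← Finset.sum_mul, hone ω]
      rw [e2, lk_bil (Lf.const 1), hSg]
      refine Finset.sum_congr rfl fun S hS => ?_
      have e3 : ∀ T : Finset Pt, fc (fun _ => (1 : ℝ)) (symmDiff S T) = if S = T then 1 else 0 := by
        intro T
        unfold fc
        rw [show (fun ω => (1 : ℝ) * chi (symmDiff S T) ω) = chi (symmDiff S T) from
          funext fun ω => one_mul _, ex_chi]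
        by_cases h : S = T
        · subst h
          simp
        · rw [if_neg h, if_neg (fun h' : symmDiff S T = ∅ => h (symmDiff_eq_bot.1 h'))]
      rw [Finset.sum_eq_single S]
      · rw [e3, if_pos rfl]
        ring
      · intro T _ hne
        rw [e3, if_neg (Ne.symm hne), mul_zero]
      · intro h
        exact absurd hS h
    -- probability of meeting T
    have hP : ∀ T : Finset Pt, 1 - ∑ A ∈ 𝓑.powerset.filter (fun A => Disjoint T (A.biUnion id)),
        pr (fun ω => R u ω = A) ≤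
        ∑ B ∈ 𝓑.filter (fun B => ¬ Disjoint T B), pr (fun ω => B ∈ R u ω) := by
      intro T
      have lB : ∀ B : Finset Pt, Lf (ind (fun ω => B ∈ R u ω)) := by
        intro B
        refine ⟨W, ?_⟩
        intro ω ω' h
        have hRR := lk_depR hRu (fun v hv => h v (Finset.mem_coe.2 hv))
        by_cases hB : B ∈ R u ω
        · have hB' : B ∈ R u ω' := by rw [hRR]; exact hB
          simp only [ind, hB, hB', if_true]
        · have hB' : ¬ B ∈ R u ω' := by rw [hRR]; exact hB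
          simp only [ind, hB, hB', if_false]
      have h1 : ex (fun _ => (1 : ℝ)) ≤ ex (fun ω =>
          ∑ A ∈ 𝓑.powerset.filter (fun A => Disjoint T (A.biUnion id)),
            ind (fun ω => R u ω = A) ω +
          ∑ B ∈ 𝓑.filter (fun B => ¬ Disjoint T B), ind (fun ω => B ∈ R u ω) ω) := by
        apply ex_mono (Lf.const 1) ((Lf.sum fun A _ => lA A).add (Lf.sum fun B _ => lB B))
        intro ω
        have n1 : 0 ≤ ∑ A ∈ 𝓑.powerset.filter (fun A => Disjoint T (A.biUnion id)),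
            ind (fun ω => R u ω = A) ω := Finset.sum_nonneg fun A _ => by
          simp only [ind]; split_ifs <;> norm_num
        have n2 : 0 ≤ ∑ B ∈ 𝓑.filter (fun B => ¬ Disjoint T B), ind (fun ω => B ∈ R u ω) ω :=
          Finset.sum_nonneg fun A _ => by
            simp only [ind]; split_ifs <;> norm_num
        by_cases hc : Disjoint T ((R u ω).biUnion id)
        · have : (1 : ℝ) ≤ ∑ A ∈ 𝓑.powerset.filter (fun A => Disjoint T (A.biUnion id)),
              ind (fun ω => R u ω = A) ω := by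
            have h3 := Finset.single_le_sum (f := fun A => ind (fun ω => R u ω = A) ω)
              (s := 𝓑.powerset.filter (fun A => Disjoint T (A.biUnion id)))
              (fun A _ => by simp only [ind]; split_ifs <;> norm_num)
              (Finset.mem_filter.2 ⟨Finset.mem_powerset.2 (hRu.sub ω), hc⟩)
            simpa [ind] using h3
          linarith
        · rw [Finset.not_disjoint_iff] at hc
          obtain ⟨v, hvT, hv⟩ := hc
          obtain ⟨B, hB, hvB⟩ := Finset.mem_biUnion.1 hv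
          have : (1 : ℝ) ≤ ∑ B ∈ 𝓑.filter (fun B => ¬ Disjoint T B),
              ind (fun ω => B ∈ R u ω) ω := by
            have h3 := Finset.single_le_sum (f := fun B => ind (fun ω => B ∈ R u ω) ω)
              (s := 𝓑.filter (fun B => ¬ Disjoint T B))
              (fun A _ => by simp only [ind]; split_ifs <;> norm_num)
              (Finset.mem_filter.2 ⟨hRu.sub ω hB, fun hd' => Finset.disjoint_left.1 hd' hvT hvB⟩)
            simpa [ind, hB] using h3
          linarith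
      rw [ex_const, ex_add (Lf.sum fun A _ => lA A) (Lf.sum fun B _ => lB B),
        ex_sum (fun A _ => lA A), ex_sum (fun B _ => lB B)] at h1
      unfold pr
      linarith
    -- summation of the key inequality
    have hS4 : ∑ A ∈ 𝓑.powerset, ex (fun ω => ind (fun ω => R u ω = A) ω *
        ((∑ S ∈ L.filter (fun S => S ⊆ A.biUnion id), a S * chi S ω) *
          (∑ S ∈ L.filter (fun S => S ⊆ A.biUnion id), a S * chi S ω))) +
        ∑ A ∈ 𝓑.powerset, pr (fun ω => R u ω = A) *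
          ∑ T ∈ L.filter (fun T => Disjoint T (A.biUnion id)), a T ^ 2 ≤ Sg := by
      rw [← Finset.sum_add_distrib, ← hS3]
      exact Finset.sum_le_sum fun A hA =>
        lk_key hRu (Finset.mem_powerset.1 hA) a hk hLk
    have hS5 : ∑ A ∈ 𝓑.powerset, pr (fun ω => R u ω = A) *
          ∑ T ∈ L.filter (fun T => Disjoint T (A.biUnion id)), a T ^ 2 =
        ∑ T ∈ L, a T ^ 2 * ∑ A ∈ 𝓑.powerset.filter (fun A => Disjoint T (A.biUnion id)),
          pr (fun ω => R u ω = A) := by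
      simp_rw [Finset.sum_filter, Finset.mul_sum]
      rw [Finset.sum_comm]
      refine Finset.sum_congr rfl fun T _ => Finset.sum_congr rfl fun A _ => ?_
      split_ifs
      · ring
      · ring
    rw [hS5] at hS4
    calc Sg ^ 2 ≤ Sg - ∑ T ∈ L, a T ^ 2 *
          ∑ A ∈ 𝓑.powerset.filter (fun A => Disjoint T (A.biUnion id)),
            pr (fun ω => R u ω = A) := by linarith
      _ = ∑ T ∈ L, a T ^ 2 * (1 -
          ∑ A ∈ 𝓑.powerset.filter (fun A => Disjoint T (A.biUnion id)),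
            pr (fun ω => R u ω = A)) := by
          rw [hSg, ← Finset.sum_sub_distrib]
          exact Finset.sum_congr rfl fun T _ => by ring
      _ ≤ _ := Finset.sum_le_sum fun T _ => mul_le_mul_of_nonneg_left (hP T) (sq_nonneg _)
  -- average over u
  have hsum : (U.card : ℝ) * Sg ^ 2 ≤ U.card * (k * δ * Sg) := by
    calc (U.card : ℝ) * Sg ^ 2 = ∑ u ∈ U, Sg ^ 2 := by rw [Finset.sum_const, nsmul_eq_mul]
      _ ≤ ∑ u ∈ U, ∑ T ∈ L, a T ^ 2 *
          ∑ B ∈ 𝓑.filter (fun B => ¬ Disjoint T B), pr (fun ω => B ∈ R u ω) :=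
          Finset.sum_le_sum main
      _ = ∑ T ∈ L, a T ^ 2 *
          ∑ B ∈ 𝓑.filter (fun B => ¬ Disjoint T B), ∑ u ∈ U, pr (fun ω => B ∈ R u ω) := by
          rw [Finset.sum_comm]
          refine Finset.sum_congr rfl fun T _ => ?_
          rw [← Finset.mul_sum, Finset.sum_comm]
      _ ≤ ∑ T ∈ L, a T ^ 2 * ∑ B ∈ 𝓑.filter (fun B => ¬ Disjoint T B), δ * U.card :=
          Finset.sum_le_sum fun T _ => mul_le_mul_of_nonneg_left
            (Finset.sum_le_sum fun B hB => hδ B (Finset.mem_filter.1 hB).1) (sq_nonneg _)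
      _ = U.card * (k * δ * Sg) := by
          rw [hSg, Finset.mul_sum, Finset.mul_sum]
          refine Finset.sum_congr rfl fun T hT => ?_
          rw [Finset.sum_const, nsmul_eq_mul]
          have : ((𝓑.filter (fun B => ¬ Disjoint T B)).card : ℝ) = k := by
            have := hLk T hT
            unfold cnt at this
            exact_mod_cast this
          rw [this]
          ring
  have hUc : (0 : ℝ) < U.card := by exact_mod_cast hU.card_pos
  have h4 : Sg ^ 2 ≤ k * δ * Sg := le_of_mul_le_mul_left hsum hUc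
  rcases hSg0.eq_or_lt with h | h
  · rw [← h]
    positivity
  · nlinarith [h4]

end SC

end

/-! ### from `Lib_MP_e0a489.PG4` -/

section

/-!
# MP_e0a489, probability toolkit 8d: many pivotal blocks
-/

set_option autoImplicit false

namespace SC

open Classical

/-- Consequence: `∑_B influence(B) ≥ K (Var f - K² δ)`. -/
theorem many_pivotal {𝓑 : Finset (Finset Pt)}
    (hd : ∀ B ∈ 𝓑, ∀ B' ∈ 𝓑, B ≠ B' → Disjoint B B')
    {ι : Type} {U : Finset ι} (hU : U.Nonempty) {R : ι → Cfg → Finset (Finset Pt)}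
    (hR : ∀ u ∈ U, BStop 𝓑 (R u)) {f : Cfg → ℝ} (f0 : ∀ ω, 0 ≤ f ω) (f1 : ∀ ω, f ω ≤ 1)
    (dF : Dep f ((𝓑.biUnion id : Finset Pt) : Set Pt))
    (hf : ∀ u ∈ U, ∀ ω ω' : Cfg, (∀ B ∈ R u ω, ∀ v ∈ B, ω v = ω' v) → f ω' = f ω)
    {δ : ℝ} (h0 : 0 ≤ δ) (hδ : ∀ B ∈ 𝓑, ∑ u ∈ U, pr (fun ω => B ∈ R u ω) ≤ δ * U.card) (K : ℕ) :
    K * (ex (fun ω => f ω ^ 2) - ex f ^ 2 - K ^ 2 * δ) ≤
      ∑ B ∈ 𝓑, ∑ S ∈ (𝓑.biUnion id).powerset.filter (fun S => ¬ Disjoint S B), fc f S ^ 2 := by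
  set W := 𝓑.biUnion id with hW
  have lf : Lf f := ⟨W, dF⟩
  -- the right side is the sum of `cnt S * fc f S ^ 2`
  have e1 : ∑ B ∈ 𝓑, ∑ S ∈ W.powerset.filter (fun S => ¬ Disjoint S B), fc f S ^ 2 =
      ∑ S ∈ W.powerset, (cnt 𝓑 S : ℝ) * fc f S ^ 2 := by
    have h1 : ∀ B ∈ 𝓑, ∑ S ∈ W.powerset.filter (fun S => ¬ Disjoint S B), fc f S ^ 2 =
        ∑ S ∈ W.powerset, if ¬ Disjoint S B then fc f S ^ 2 else 0 := fun B _ =>
      Finset.sum_filter _ _
    rw [Finset.sum_congr rfl h1, Finset.sum_comm]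
    refine Finset.sum_congr rfl fun S _ => ?_
    rw [← Finset.sum_filter, Finset.sum_const, nsmul_eq_mul]
    rfl
  -- Parseval
  have e2 : ∑ S ∈ W.powerset, fc f S ^ 2 = ex (fun ω => f ω ^ 2) := by
    have h := parseval dF dF
    have h2 : (fun ω => f ω ^ 2) = fun ω => f ω * f ω := by
      funext ω
      ring
    rw [h2, h]
    exact Finset.sum_congr rfl fun S _ => by ring
  have e3 : fc f ∅ = ex f := by
    unfold fc
    congr 1
    funext ω
    simp [chi]
  -- split by the value of cnt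
  have hcnt0 : ∀ S ∈ W.powerset, cnt 𝓑 S = 0 → S = ∅ := by
    intro S hS h0
    rw [Finset.eq_empty_iff_forall_notMem]
    intro v hv
    have hvW := (Finset.mem_powerset.1 hS) hv
    rw [hW] at hvW
    obtain ⟨B, hB, hvB⟩ := Finset.mem_biUnion.1 hvW
    have hne : B ∈ 𝓑.filter fun B => ¬ Disjoint S B :=
      Finset.mem_filter.2 ⟨hB, fun hd => Finset.disjoint_left.1 hd hv hvB⟩
    have : 0 < cnt 𝓑 S := Finset.card_pos.2 ⟨B, hne⟩
    omega
  have hlow : ∑ S ∈ W.powerset.filter (fun S => cnt 𝓑 S < K), fc f S ^ 2 ≤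
      ex f ^ 2 + K ^ 2 * δ := by
    have h1 : ∑ S ∈ W.powerset.filter (fun S => cnt 𝓑 S < K), fc f S ^ 2 =
        ∑ k ∈ Finset.range K, ∑ S ∈ (W.powerset.filter (fun S => cnt 𝓑 S < K)).filter
          (fun S => cnt 𝓑 S = k), fc f S ^ 2 := by
      symm
      apply Finset.sum_fiberwise_of_maps_to
      intro S hS
      exact Finset.mem_range.2 (Finset.mem_filter.1 hS).2
    rw [h1]
    have h2 : ∀ k ∈ Finset.range K, ∑ S ∈ (W.powerset.filter (fun S => cnt 𝓑 S < K)).filter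
          (fun S => cnt 𝓑 S = k), fc f S ^ 2 ≤ (if k = 0 then ex f ^ 2 else 0) + K * δ := by
      intro k hk
      have hk' := Finset.mem_range.1 hk
      have e : (W.powerset.filter (fun S => cnt 𝓑 S < K)).filter (fun S => cnt 𝓑 S = k) =
          W.powerset.filter (fun S => cnt 𝓑 S = k) := by
        rw [Finset.filter_filter]
        apply Finset.filter_congr
        intro S _
        constructor
        · rintro ⟨_, h⟩
          exact h
        · intro h
          exact ⟨h ▸ hk', h⟩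
      rw [e]
      by_cases k0 : k = 0
      · rw [if_pos k0]
        have h3 : ∑ S ∈ W.powerset.filter (fun S => cnt 𝓑 S = k), fc f S ^ 2 ≤
            ∑ S ∈ ({∅} : Finset (Finset Pt)), fc f S ^ 2 := by
          apply Finset.sum_le_sum_of_subset_of_nonneg
          · intro S hS
            obtain ⟨h4, h5⟩ := Finset.mem_filter.1 hS
            rw [Finset.mem_singleton]
            exact hcnt0 S h4 (h5.trans k0)
          · intro S _ _
            exact sq_nonneg _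
        rw [Finset.sum_singleton, e3] at h3
        have h6 : 0 ≤ (K : ℝ) * δ := mul_nonneg (Nat.cast_nonneg _) h0
        linarith
      · rw [if_neg k0, zero_add]
        have h3 := level_k hd hU hR f0 f1 dF hf h0 hδ (Nat.one_le_iff_ne_zero.2 k0)
        refine le_trans h3 ?_
        have h7 : (k : ℝ) ≤ K := by exact_mod_cast hk'.le
        exact mul_le_mul_of_nonneg_right h7 h0
    refine le_trans (Finset.sum_le_sum h2) ?_
    rw [Finset.sum_add_distrib, Finset.sum_const, Finset.card_range, nsmul_eq_mul]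
    have h8 : ∑ k ∈ Finset.range K, (if k = 0 then ex f ^ 2 else 0) ≤ ex f ^ 2 := by
      rw [Finset.sum_ite_eq']
      split_ifs
      · exact le_rfl
      · exact sq_nonneg _
    have h9 : (K : ℝ) * (K * δ) = K ^ 2 * δ := by ring
    linarith
  have hsplit : ∑ S ∈ W.powerset, fc f S ^ 2 =
      ∑ S ∈ W.powerset.filter (fun S => cnt 𝓑 S < K), fc f S ^ 2 +
      ∑ S ∈ W.powerset.filter (fun S => ¬ cnt 𝓑 S < K), fc f S ^ 2 :=
    (Finset.sum_filter_add_sum_filter_not _ _ _).symm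
  have hhigh : (K : ℝ) * ∑ S ∈ W.powerset.filter (fun S => ¬ cnt 𝓑 S < K), fc f S ^ 2 ≤
      ∑ S ∈ W.powerset, (cnt 𝓑 S : ℝ) * fc f S ^ 2 := by
    rw [Finset.mul_sum]
    refine le_trans ?_ (Finset.sum_le_sum_of_subset_of_nonneg (Finset.filter_subset
      (fun S => ¬ cnt 𝓑 S < K) _) (fun S _ _ => mul_nonneg (Nat.cast_nonneg _) (sq_nonneg _)))
    refine Finset.sum_le_sum fun S hS => ?_
    have h1 : K ≤ cnt 𝓑 S := not_lt.1 (Finset.mem_filter.1 hS).2
    have h2 : (K : ℝ) ≤ cnt 𝓑 S := by exact_mod_cast h1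
    exact mul_le_mul_of_nonneg_right h2 (sq_nonneg _)
  rw [e1]
  refine le_trans ?_ hhigh
  apply mul_le_mul_of_nonneg_left _ (Nat.cast_nonneg _)
  rw [e2] at hsplit
  linarith

end SC

end

/-! ### from `Lib_MP_e0a489.TP11` -/

section

/-!
# MP_e0a489, module TP 11: a four arm probability for real radii
-/

set_option autoImplicit false

namespace SC

open Classical

/-- a four arm probability for real radii, comparable with `al` -/
structure Beta (L : Lat) (i : ℤ) (β : ℝ → ℝ → ℝ) : Prop where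
  nonneg : ∀ r R, 0 ≤ β r R
  le1 : ∀ r R, β r R ≤ 1
  low : ∀ r R : ℝ, 1 ≤ r → r ≤ R → al L (max (⌊r⌋ - 2) i) (⌊2 * R⌋ + 1) ≤ β r R
  up : ∀ r : ℝ, 5 ≤ r → β 1 r ≤ al L 2 (⌊r⌋ - 2)

end SC

end

/-! ### from `Lib_MP_e0a489.ZR5` -/

section

/-!
# MP_e0a489, module ZR, 5: the region to the right of a vertical crossing
-/

set_option autoImplicit false

namespace SC

open Classical

/-- the region of `rect (-1) (m+1) 0 h` to the right of `B` -/
def Lat.rgt (L : Lat) (B : Set Pt) (m h : ℤ) : Set Pt :=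
  {z | L.Cn (rect (-1) (m + 1) 0 h \ B) (m + 1, 0) z}

variable {L : Lat} {B C : Set Pt} {a m h : ℤ}

/-- A connected set attached to the left side which does not meet `B` is not next to the region on the right.
Proof.  Let `z ∈ rgt B m h` be in `C` or have a neighbour in `C`.  `rgt B m h` is connected (`con_cluster`), contained in
`rect (-1) (m+1) 0 h \ B` and contains `(m+1, 0)` (not in `B`, because `B ⊆ rect 0 m 0 h`).  So `P = C ∪ rgt B m h` is connected
(`Con.union` or `Con.union_adj`), joins the columns `-1` and `m + 1` in `rect (-1) (m+1) 0 h` and does not meet `B`.  But `B` joins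
the rows `0` and `h`: contradiction to `cross`. -/
theorem rgt_avoid (hm : 0 ≤ m) (hh : 0 ≤ h) (hC : L.Con C) (hCr : C ⊆ rect (-1) (m + 1) 0 h)
    (hC1 : ∃ v ∈ C, v.1 = -1) (hCB : ∀ v ∈ C, v ∉ B) (hB : L.Con B) (hBr : B ⊆ rect 0 m 0 h)
    (b0 : ∃ v ∈ B, v.2 = 0) (b1 : ∃ v ∈ B, v.2 = h) {z : Pt} (hz : z ∈ L.rgt B m h) :
    z ∉ C ∧ z ∉ L.nb C := by
  have hz' : L.Cn (rect (-1) (m + 1) 0 h \ B) (m + 1, 0) z := hz
  have hK : L.Con (L.rgt B m h) := Lat.con_cluster _ _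
  have h0 : ((m + 1, 0) : Pt) ∈ L.rgt B m h := Lat.Cn.refl hz'.left
  have key : ¬ L.Con (C ∪ L.rgt B m h) := by
    intro hP
    have hPr : C ∪ L.rgt B m h ⊆ rect (-1) (m + 1) 0 h := by
      rintro v (hv | hv)
      · exact hCr hv
      · have hv' : L.Cn (rect (-1) (m + 1) 0 h \ B) (m + 1, 0) v := hv
        exact hv'.right.1
    have hBr' : B ⊆ rect (-1) (m + 1) 0 h := by
      intro v hv
      obtain ⟨⟨q1, q2⟩, q3, q4⟩ := hBr hv
      exact ⟨⟨by omega, by omega⟩, q3, q4⟩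
    obtain ⟨v, hv, hv1⟩ := hC1
    obtain ⟨w, hw, hwB⟩ := Lat.cross hP hB hPr hBr' ⟨v, Or.inl hv, hv1⟩
      ⟨(m + 1, 0), Or.inr h0, rfl⟩ b0 b1
    rcases hw with hw | hw
    · exact hCB w hw hwB
    · have hw' : L.Cn (rect (-1) (m + 1) 0 h \ B) (m + 1, 0) w := hw
      exact hw'.right.2 hwB
  constructor
  · intro hzC
    exact key (Lat.Con.union hC hK ⟨z, hzC, hz⟩)
  · rintro ⟨u, hu, hadj⟩
    exact key (Lat.Con.union_adj hC hK hu hz hadj)

/-- the column `m + 1` -/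
private theorem ZR5_col {L : Lat} {B : Set Pt} {a m h : ℤ} (hm : 0 ≤ m) (ham : a ≤ m)
    (hBr : B ⊆ rect 0 a 0 h) {x y : ℤ} (hx : 0 ≤ x ∧ x ≤ h) (hy : 0 ≤ y ∧ y ≤ h) :
    L.Cn (rect (-1) (m + 1) 0 h \ B) (m + 1, x) (m + 1, y) := by
  have h1 : L.Cn (rect (m + 1) (m + 1) 0 h) (m + 1, x) (m + 1, y) :=
    Lat.con_rect (m + 1) (m + 1) 0 h _ ⟨⟨le_refl _, le_refl _⟩, hx⟩ _ ⟨⟨le_refl _, le_refl _⟩, hy⟩
  refine h1.mono ?_
  rintro v ⟨⟨q1, q2⟩, q3⟩
  refine ⟨⟨⟨by omega, q2⟩, q3⟩, ?_⟩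
  intro hv
  obtain ⟨⟨r1, r2⟩, -⟩ := hBr hv
  omega

/-- A horizontal crossing contains a path in the region on the right, from a neighbour of `B` to the right side.
Proof.  Let `u`, `v` be the ends of the crossing, `A = rect 0 m 0 h ∩ col true η`.  The set `{z | Cn A u z}` is connected and
joins the columns `0` and `m`, so it meets `B` (`cross` in `rect 0 m 0 h`) in a site `w`, and `Cn A w v`, `v ∉ B` (`v.1 = m > a`).  By
`Cn.last` (set `B`) there are `p ∈ B`, `q`, `Adj p q`, `Cn (A \ B) q v`.  All sites `z` of the path from `q` to `v` are in `rgt B m h`: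
`(m+1, 0)` is joined to `(m+1, v.2)` in the column `m + 1` (`con_rect`), this site is next to `v = (m, v.2)`, and `v` is joined to `z` in
`A \ B`.  (Write the path in the intersection with `con_cluster`.) -/
theorem rgt_arm (ha : 0 ≤ a) (ham : a < m) (hh : 0 ≤ h) (hB : L.Con B) (hBr : B ⊆ rect 0 a 0 h)
    (b0 : ∃ v ∈ B, v.2 = 0) (b1 : ∃ v ∈ B, v.2 = h) {η : Cfg} (hx : L.HX true 0 m 0 h η) :
    L.Arm true (L.rgt B m h ∩ rect 0 m 0 h) (L.nb B) {v | v.1 = m} η := by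
  obtain ⟨u, v, hu, hv, hc⟩ := hx
  have hK : L.Con {z | L.Cn (rect 0 m 0 h ∩ L.col true η) u z} := Lat.con_cluster _ _
  have hBr' : B ⊆ rect 0 m 0 h := by
    intro z hz
    obtain ⟨⟨q1, q2⟩, q3⟩ := hBr hz
    exact ⟨⟨q1, by omega⟩, q3⟩
  obtain ⟨w, hw, hwB⟩ := Lat.cross (a := 0) (b := m) (c := 0) (d := h) hK hB
    (fun z hz => (Lat.Cn.right hz).1) hBr' ⟨u, Lat.Cn.refl hc.left, hu⟩ ⟨v, hc, hv⟩ b0 b1
  have hwv : L.Cn (rect 0 m 0 h ∩ L.col true η) w v := (Lat.Cn.symm hw).trans hc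
  have hvB : v ∉ B := by
    intro hvB
    obtain ⟨⟨q1, q2⟩, -⟩ := hBr hvB
    omega
  obtain ⟨p, q, hpA, hpB, hpq, hqv⟩ := hwv.last (S := B) hwB hvB
  refine ⟨q, ⟨p, hpB, hpq⟩, v, hv, ?_⟩
  have hK' := Lat.con_cluster (L := L) ((rect 0 m 0 h ∩ L.col true η) \ B) q
  have h1 := hK' q (Lat.Cn.refl hqv.left) v hqv
  refine h1.mono ?_
  intro z hz
  have hz' : L.Cn ((rect 0 m 0 h ∩ L.col true η) \ B) q z := hz
  have hzA := hz'.right
  refine ⟨⟨?_, hzA.1.1⟩, hzA.1.2⟩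
  have hvr := hqv.right.1.1
  have h2 : L.Cn (rect (-1) (m + 1) 0 h \ B) (m + 1, 0) (m + 1, v.2) :=
    ZR5_col (by omega) ham.le hBr ⟨le_refl _, hh⟩ hvr.2
  have h3 : L.Adj (m + 1, v.2) v := by
    have h4 := (Lat.adj_right (L := L) v).symm
    rw [hv] at h4
    exact h4
  have hsub : (rect 0 m 0 h ∩ L.col true η) \ B ⊆ rect (-1) (m + 1) 0 h \ B := by
    rintro y ⟨⟨⟨⟨q1, q2⟩, q3⟩, -⟩, q4⟩
    exact ⟨⟨⟨by omega, by omega⟩, q3⟩, q4⟩
  have h5 : L.Cn (rect (-1) (m + 1) 0 h \ B) v z := (hqv.symm.trans hz').mono hsub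
  exact (h2.trans (Lat.Cn.of_adj h2.right h5.left h3)).trans h5

/-- Symmetry.  `e` is a symmetry of `L` (for instance a reflection) which preserves the rectangle and `B` and maps the lower end of the
column `m + 1` to a site of this column.
Proof.  `Tr.cn` gives `z ∈ rgt ↔ Cn (e '' (rect .. \ B)) (e (m+1,0)) (e z)` and `e '' (rect .. \ B) = rect .. \ B` (`Set.image_sdiff e.injective`); `e (m+1, 0)` is joined to
`(m+1, 0)` in the column `m + 1`, which is disjoint from `B`. -/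
theorem rgt_sym {e : Equiv.Perm Pt} (he : Tr L L e) (hm : 0 ≤ m) (hh : 0 ≤ h)
    (hBr : B ⊆ rect 0 m 0 h) (heB : e '' B = B)
    (her : e '' rect (-1) (m + 1) 0 h = rect (-1) (m + 1) 0 h) (he1 : (e (m + 1, 0)).1 = m + 1) :
    e '' L.rgt B m h = L.rgt B m h := by
  have hR : e '' (rect (-1) (m + 1) 0 h \ B) = rect (-1) (m + 1) 0 h \ B := by
    rw [Set.image_sdiff e.injective, heB, her]
  have hmem : e (m + 1, 0) ∈ rect (-1) (m + 1) 0 h := by
    rw [← her]
    exact ⟨(m + 1, 0), ⟨⟨by show (-1 : ℤ) ≤ m + 1; omega, le_refl _⟩, le_refl _, hh⟩, rfl⟩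
  have hcol : L.Cn (rect (-1) (m + 1) 0 h \ B) (m + 1, 0) (e (m + 1, 0)) := by
    have h1 : L.Cn (rect (-1) (m + 1) 0 h \ B) (m + 1, 0) (m + 1, (e (m + 1, 0)).2) :=
      ZR5_col hm (le_refl m) hBr ⟨le_refl _, hh⟩ hmem.2
    have h2 : ((m + 1, (e (m + 1, 0)).2) : Pt) = e (m + 1, 0) := Prod.ext he1.symm rfl
    rwa [h2] at h1
  ext z
  constructor
  · rintro ⟨w, hw, rfl⟩
    have hw' : L.Cn (rect (-1) (m + 1) 0 h \ B) (m + 1, 0) w := hw
    have h1 := (he.cn _ _ _).1 hw'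
    rw [hR] at h1
    exact hcol.trans h1
  · intro hz
    have hz' : L.Cn (rect (-1) (m + 1) 0 h \ B) (m + 1, 0) z := hz
    obtain ⟨w, rfl⟩ := e.surjective z
    refine ⟨w, ?_, rfl⟩
    have h1 : L.Cn (e '' (rect (-1) (m + 1) 0 h \ B)) (e (m + 1, 0)) (e w) := by
      rw [hR]
      exact hcol.symm.trans hz'
    exact (he.cn _ _ _).2 h1

end SC

end

/-! ### from `Lib_MP_e0a489.ZC2` -/

section

/-!
# MP_e0a489: the core configuration of a lattice all of whose sites are fair (triangular lattice)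
-/

set_option autoImplicit false

namespace SC

open Classical

private theorem zf_bx {v : Pt} {m : ℤ} : v ∈ bx m ↔ |v.1| ≤ m ∧ |v.2| ≤ m := by
  show max |v.1| |v.2| ≤ m ↔ _
  exact max_le_iff

private theorem zf_o {L : Lat} {m : ℤ} (hm : 8 ≤ m) {B : Set Pt}
    (hB : ∀ v ∈ bx m, v ≠ 0 → |v.2| < |v.1| → v ∈ B) {σ Y : ℤ}
    (hσ : σ = 1 ∨ σ = -1) (hY : 2 * |Y| ≤ m) (hp : (σ * (m + 1), Y) ∈ B) :
    L.Cn ((bx (m + 1) \ {0}) ∩ B) (σ * (m + 1), Y) (σ, 0) := by
  have hy0 := abs_nonneg Y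
  have ab : ∀ x : ℤ, 0 ≤ x → |σ * x| = x := by
    intro x hx
    rcases hσ with rfl | rfl
    · rw [one_mul]
      exact abs_of_nonneg hx
    · rw [show (-1 : ℤ) * x = -x by ring, abs_neg]
      exact abs_of_nonneg hx
  have mem : ∀ x y : ℤ, 1 ≤ x → x ≤ m → |y| < x →
      ((σ * x, y) : Pt) ∈ (bx (m + 1) \ {0}) ∩ B := by
    intro x y h1 h2 h3
    have hx := ab x (by omega)
    have hne : ((σ * x, y) : Pt) ≠ 0 := by
      intro h
      have h4 : σ * x = 0 := congrArg Prod.fst h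
      rw [h4, abs_zero] at hx
      omega
    refine ⟨⟨zf_bx.2 ⟨?_, ?_⟩, hne⟩, hB _ (zf_bx.2 ⟨?_, ?_⟩) hne ?_⟩
    · show |σ * x| ≤ m + 1
      omega
    · show |y| ≤ m + 1
      omega
    · show |σ * x| ≤ m
      omega
    · show |y| ≤ m
      omega
    · show |y| < |σ * x|
      omega
  have s0 : L.Cn ((bx (m + 1) \ {0}) ∩ B) (σ * (m + 1), Y) (σ * m, Y) := by
    refine Lat.Cn.of_adj ⟨⟨zf_bx.2 ⟨?_, ?_⟩, ?_⟩, hp⟩ (mem m Y (by omega) le_rfl (by omega))
      (Lat.adj_of_nn ?_)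
    · show |σ * (m + 1)| ≤ m + 1
      exact (ab (m + 1) (by omega)).le
    · show |Y| ≤ m + 1
      omega
    · intro h
      have h4 : σ * (m + 1) = 0 := congrArg Prod.fst h
      have h5 := ab (m + 1) (by omega)
      rw [h4, abs_zero] at h5
      omega
    · show |σ * (m + 1) - σ * m| + |Y - Y| = 1
      rw [show σ * (m + 1) - σ * m = σ * 1 by ring, ab 1 (by norm_num), sub_self]
      rfl
  have s1 : L.Cn ((bx (m + 1) \ {0}) ∩ B) (σ * m, Y) (σ * m, 0) := by
    have := (Lat.con_rect (L := L) (σ * m) (σ * m) (-|Y|) |Y|) (σ * m, Y)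
      ⟨⟨le_refl _, le_refl _⟩, neg_abs_le Y, le_abs_self Y⟩ (σ * m, 0)
      ⟨⟨le_refl _, le_refl _⟩, by
        show -|Y| ≤ 0
        omega, hy0⟩
    refine this.mono ?_
    rintro ⟨v1, v2⟩ ⟨⟨a1, a2⟩, a3, a4⟩
    have a1' : σ * m ≤ v1 := a1
    have a2' : v1 ≤ σ * m := a2
    have a3' : -|Y| ≤ v2 := a3
    have a4' : v2 ≤ |Y| := a4
    obtain rfl : v1 = σ * m := le_antisymm a2' a1'
    exact mem m v2 (by omega) le_rfl (lt_of_le_of_lt (abs_le.2 ⟨a3', a4'⟩) (by omega))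
  have s2 : L.Cn ((bx (m + 1) \ {0}) ∩ B) (σ * m, 0) (σ, 0) := by
    have := (Lat.con_rect (L := L) (min (σ * m) σ) (max (σ * m) σ) 0 0) (σ * m, 0)
      ⟨⟨min_le_left _ _, le_max_left _ _⟩, le_refl _, le_refl _⟩ (σ, 0)
      ⟨⟨min_le_right _ _, le_max_right _ _⟩, le_refl _, le_refl _⟩
    refine this.mono ?_
    rintro ⟨v1, v2⟩ ⟨⟨a1, a2⟩, a3, a4⟩
    have a1' : min (σ * m) σ ≤ v1 := a1
    have a2' : v1 ≤ max (σ * m) σ := a2
    have a3' : 0 ≤ v2 := a3
    have a4' : v2 ≤ 0 := a4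
    obtain rfl : v2 = 0 := le_antisymm a4' a3'
    have h5 : 1 ≤ σ * v1 ∧ σ * v1 ≤ m ∧ v1 = σ * (σ * v1) := by
      rcases hσ with rfl | rfl
      · refine ⟨?_, ?_, ?_⟩ <;> omega
      · refine ⟨?_, ?_, ?_⟩ <;> omega
    rw [h5.2.2]
    exact mem (σ * v1) 0 h5.1 h5.2.1 (by rw [abs_zero]; omega)
  exact (s0.trans s1).trans s2

private theorem zf_c {L : Lat} {m : ℤ} (hm : 8 ≤ m) {B : Set Pt}
    (hB : ∀ v ∈ bx m, v ≠ 0 → |v.1| < |v.2| → v ∈ B) {σ Y : ℤ}
    (hσ : σ = 1 ∨ σ = -1) (hY : 2 * |Y| ≤ m) (hp : (Y, σ * (m + 1)) ∈ B) :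
    L.Cn ((bx (m + 1) \ {0}) ∩ B) (Y, σ * (m + 1)) (0, σ) := by
  have h := zf_o (L := L.tr) hm (B := {v | (v.2, v.1) ∈ B}) (fun v hv h0 h1 => hB _ ?_ ?_ h1)
    hσ hY hp
  · rw [Lat.tr_cn] at h
    refine h.mono ?_
    rintro ⟨v1, v2⟩ ⟨⟨h1, h2⟩, h3⟩
    refine ⟨⟨?_, ?_⟩, h3⟩
    · have := zf_bx.1 h1
      exact zf_bx.2 ⟨this.2, this.1⟩
    · intro h4
      apply h2
      have h5 : ((v1, v2) : Pt) = 0 := h4
      have e1 : v1 = 0 := congrArg Prod.fst h5
      have e2 : v2 = 0 := congrArg Prod.snd h5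
      rw [e1, e2]
      rfl
  · have := zf_bx.1 hv
    exact zf_bx.2 ⟨this.2, this.1⟩
  · intro h4
    apply h0
    have e1 : v.2 = 0 := congrArg Prod.fst h4
    have e2 : v.1 = 0 := congrArg Prod.snd h4
    exact Prod.ext e2 e1

/-- the core configuration of a lattice without sites of deterministic colour -/
theorem core_fair {L : Lat} (hL : ∀ v, L.typ v = none) {m : ℤ} (hm : 8 ≤ m) : CoreOK L m := by
  refine ⟨hL 0, fun v => decide (|v.2| < |v.1|), ?_⟩
  intro ω hω c s y hs hy hp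
  have hcol : ∀ (v : Pt) (b : Bool), ω v = b → v ∈ L.col b ω := by
    intro v b h
    show (L.typ v).getD (ω v) = b
    rw [hL]
    exact h
  cases c with
  | true =>
    have h1 : ∀ v ∈ bx m, v ≠ 0 → |v.2| < |v.1| → v ∈ L.col true ω := by
      intro v hv h0 h
      apply hcol
      rw [hω v hv h0]
      exact decide_eq_true h
    have hd : dc true = 0 := rfl
    rw [hd] at hs
    rcases hs with rfl | rfl
    · rw [rt_zero] at hp ⊢
      refine ⟨(1, 0), Lat.adj_of_nn rfl, ?_⟩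
      have := zf_o (L := L) hm h1 (σ := 1) (Y := y) (Or.inl rfl) hy (by rw [one_mul]; exact hp)
      rw [one_mul] at this
      exact this
    · rw [show (0 : ℤ) + 2 = 2 by rfl, rt_two] at hp ⊢
      refine ⟨(-1, 0), Lat.adj_of_nn rfl, ?_⟩
      have e : (-1 : ℤ) * (m + 1) = -(m + 1) := by ring
      have := zf_o (L := L) hm h1 (σ := -1) (Y := -y) (Or.inr rfl) (by rw [abs_neg]; exact hy)
        (by rw [e]; exact hp)
      rw [e] at this
      exact this
  | false =>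
    have h1 : ∀ v ∈ bx m, v ≠ 0 → |v.1| < |v.2| → v ∈ L.col false ω := by
      intro v hv h0 h
      apply hcol
      rw [hω v hv h0]
      exact decide_eq_false (by omega)
    have hd : dc false = 1 := rfl
    rw [hd] at hs
    rcases hs with rfl | rfl
    · rw [rt_one] at hp ⊢
      refine ⟨(0, 1), Lat.adj_of_nn rfl, ?_⟩
      have := zf_c (L := L) hm h1 (σ := 1) (Y := -y) (Or.inl rfl) (by rw [abs_neg]; exact hy)
        (by rw [one_mul]; exact hp)
      rw [one_mul] at this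
      exact this
    · rw [show (1 : ℤ) + 2 = 3 by rfl, rt_three] at hp ⊢
      refine ⟨(0, -1), Lat.adj_of_nn rfl, ?_⟩
      have e : (-1 : ℤ) * (m + 1) = -(m + 1) := by ring
      have := zf_c (L := L) hm h1 (σ := -1) (Y := y) (Or.inr rfl) hy (by rw [e]; exact hp)
      rw [e] at this
      exact this

theorem tl_core (x₀ : Pt) {m : ℤ} (hm : 8 ≤ m) : CoreOK (TL.shift x₀) m :=
  core_fair (fun _ => rfl) hm

end SC

end
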