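import Mathlib
import Pool.Agent.Lib_MP_e0a489_m.G06
import Pool.Agent.Lib_MP_e0a489_m.G07
import Pool.Agent.Lib_MP_e0a489_m.G09
import Pool.Agent.Lib_MP_e0a489_m.G10
import Pool.Agent.Lib_MP_e0a489_m.G11
import Pool.Agent.Lib_MP_e0a489_m.G12

/-!
# MP_e0a489_pr: merged library part G13

Concatenation of library files (each in its own section), only to save build time.
-/

/-! ### from `Lib_MP_e0a489.ROD` -/

section

/-!
# MP_e0a489, module RO, definitions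

A ROUTED PATH (for one arm) consists of four pieces: a crossing of the landing block parallel to the side, a radial
strip above (outward case) or below (inward case) the landing block, an arc of the ring of cells number
`m`, and a final radial strip on the line in the middle of the side `d`.
The radial strips and the landing block are rotated rectangles `rt s '' rect a b p q`; first coordinate =
radial coordinate, second coordinate = coordinate along the side.  `RX`: crossing in the radial direction,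
`PX`: crossing parallel to the side.  The arc is a union of at most five long rectangles, one for each side.
-/

set_option autoImplicit false

namespace SC

open Classical

namespace Lat

/-- radial crossing of colour `c` of the rotated rectangle `rt s '' rect a b p q` -/
def RX (L : Lat) (c : Bool) (s a b p q : ℤ) (ω : Cfg) : Prop :=
  (L.rots s).HX c a b p q (via (rt s) ω)

/-- crossing of colour `c` of the rotated rectangle `rt s '' rect a b p q` parallel to the side -/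
def PX (L : Lat) (c : Bool) (s a b p q : ℤ) (ω : Cfg) : Prop :=
  (L.rots s).VX c a b p q (via (rt s) ω)

/-- `Q` is a radial crossing set of `rt s '' rect a b p q` -/
def Rad (L : Lat) (s a b p q : ℤ) (Q : Set Pt) : Prop :=
  L.Con Q ∧ Q ⊆ rt s '' rect a b p q ∧ (∃ y, rt s (a, y) ∈ Q) ∧ ∃ y, rt s (b, y) ∈ Q

/-- `Q` is a crossing set of `rt s '' rect a b p q` parallel to the side -/
def Par (L : Lat) (s a b p q : ℤ) (Q : Set Pt) : Prop :=
  L.Con Q ∧ Q ⊆ rt s '' rect a b p q ∧ (∃ x, rt s (x, p) ∈ Q) ∧ ∃ x, rt s (x, q) ∈ Q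

end Lat

/-! ### Arcs of a ring of cells

The arc from the position `(s, k)` (side, cell number) to the position `(s', k')` on the ring of cells `m`:
on the side `t`, `s ≤ t ≤ s'`, the cells number `sgl m s k t, ..., sgu m s' k' t`. -/

/-- lowest cell on the side `t` -/
def sgl (m s k t : ℤ) : ℤ := if t = s then k else -m

/-- highest cell on the side `t` -/
def sgu (m s' k' t : ℤ) : ℤ := if t = s' then k' else m

/-- the sites of the arc -/
def arcReg (w m s k s' k' : ℤ) : Set Pt :=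
  {v | ∃ t, s ≤ t ∧ t ≤ s' ∧ v ∈ rt t '' rect (m * w - w / 2) (m * w + w / 2)
    (sgl m s k t * w - w / 2) (sgu m s' k' t * w + w / 2)}

/-- crossings along the arc -/
def Lat.ArcE (L : Lat) (c : Bool) (w m s k s' k' : ℤ) (ω : Cfg) : Prop :=
  ∀ t, s ≤ t → t ≤ s' → L.PX c t (m * w - w / 2) (m * w + w / 2)
    (sgl m s k t * w - w / 2) (sgu m s' k' t * w + w / 2) ω

/-! ### Routed paths -/

/-- right mover: the target `(d, 0)` comes after the position `(s, f)` -/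
def rmv (s f d : ℤ) : Prop := s < d ∨ (s = d ∧ f < 0)

/-- parameters of a routed path: side `s`, fine cell `f` and half width `h` of the landing block, target side `d`,
ring `m` of the arc, radial ranges `[a1, b1]` of the landing block, `[a2, b2]` of the first strip, `[a4, b4]` of
the final strip -/
structure Pth where
  s : ℤ
  f : ℤ
  h : ℤ
  d : ℤ
  m : ℤ
  a1 : ℤ
  b1 : ℤ
  a2 : ℤ
  b2 : ℤ
  a4 : ℤ
  b4 : ℤ

namespace Pth

/-- lower end of the arc: side -/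
noncomputable def ls (P : Pth) : ℤ := if rmv P.s P.f P.d then P.s else P.d

/-- lower end of the arc: cell -/
noncomputable def lk (P : Pth) : ℤ := if rmv P.s P.f P.d then P.f else 0

/-- upper end of the arc: side -/
noncomputable def us (P : Pth) : ℤ := if rmv P.s P.f P.d then P.d else P.s

/-- upper end of the arc: cell -/
noncomputable def uk (P : Pth) : ℤ := if rmv P.s P.f P.d then 0 else P.f

/-- the sites used by the path -/
noncomputable def reg (P : Pth) (w : ℤ) : Set Pt :=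
  rt P.s '' rect P.a1 P.b1 ((P.f - P.h) * w - w / 2) ((P.f + P.h) * w + w / 2) ∪
    rt P.s '' rect P.a2 P.b2 (P.f * w - w / 2) (P.f * w + w / 2) ∪
    arcReg w P.m P.ls P.lk P.us P.uk ∪ rt P.d '' rect P.a4 P.b4 (-(w / 2)) (w / 2)

/-- conditions: the pieces of the path overlap, the aspect ratios are at most `N` -/
structure Ok (P : Pth) (w : ℤ) (N : ℕ) : Prop where
  s0 : 0 ≤ P.s
  s4 : P.s ≤ 4
  d0 : 0 ≤ P.d
  d4 : P.d ≤ 4
  h0 : 0 ≤ P.h
  m1 : 1 ≤ P.m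
  fm : |P.f| ≤ P.m
  ab1 : P.b1 - P.a1 = (2 * P.h + 1) * w - 1
  a21 : P.a2 ≤ P.a1
  b12 : P.b1 ≤ P.b2
  a2m : P.a2 ≤ P.m * w - w / 2
  b2m : P.m * w + w / 2 ≤ P.b2
  a4m : P.a4 ≤ P.m * w - w / 2
  b4m : P.m * w + w / 2 ≤ P.b4
  n1 : 1 ≤ N
  n2 : P.b2 - P.a2 ≤ N * (w - 1)
  n3 : (2 * P.m + 1) * w ≤ N * (w - 1)
  n4 : P.b4 - P.a4 ≤ N * (w - 1)

end Pth

/-- the path event -/
def Lat.PathE (L : Lat) (c : Bool) (w : ℤ) (P : Pth) (ω : Cfg) : Prop :=
  L.PX c P.s P.a1 P.b1 ((P.f - P.h) * w - w / 2) ((P.f + P.h) * w + w / 2) ω ∧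
    L.RX c P.s P.a2 P.b2 (P.f * w - w / 2) (P.f * w + w / 2) ω ∧
    L.ArcE c w P.m P.ls P.lk P.us P.uk ω ∧ L.RX c P.d P.a4 P.b4 (-(w / 2)) (w / 2) ω

/-! ### The four paths -/

/-- target side of the arm `i` -/
def tgt (c₀ : Bool) (i : Fin 4) : ℤ := dc c₀ + (i.val : ℤ)

/-- level of the arc of the arm `i`: right movers `4 - i`, left movers `5 + i` -/
noncomputable def rki (μ : ℤ) (c₀ : Bool) (s k : Fin 4 → ℤ) (i : Fin 4) : ℤ :=
  if rmv (s i) (fpos μ c₀ k i) (tgt c₀ i) then 4 - (i.val : ℤ) else 5 + (i.val : ℤ)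

/-- path of the arm `i` outward; `M` = number of fine rings in `bx R` -/
noncomputable def outP (w μ M R' : ℤ) (c₀ : Bool) (s k : Fin 4 → ℤ) (i : Fin 4) : Pth where
  s := s i
  f := fpos μ c₀ k i
  h := hwd μ c₀ i
  d := tgt c₀ i
  m := M + μ + rki μ c₀ s k i
  a1 := (M + 1) * w - w / 2
  b1 := (M + 2 * hwd μ c₀ i + 1) * w + w / 2
  a2 := (M + 1) * w - w / 2
  b2 := (M + μ + rki μ c₀ s k i) * w + w / 2
  a4 := (M + μ + rki μ c₀ s k i) * w - w / 2
  b4 := 2 * R'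

/-- path of the arm `i` inward -/
noncomputable def inP (w μ M r' : ℤ) (c₀ : Bool) (s k : Fin 4 → ℤ) (i : Fin 4) : Pth where
  s := s i
  f := fpos μ c₀ k i
  h := hwd μ c₀ i
  d := tgt c₀ i
  m := M + 1 - μ - rki μ c₀ s k i
  a1 := (M - 2 * hwd μ c₀ i) * w - w / 2
  b1 := M * w + w / 2
  a2 := (M + 1 - μ - rki μ c₀ s k i) * w - w / 2
  b2 := M * w + w / 2
  a4 := r' / 2 + 1
  b4 := (M + 1 - μ - rki μ c₀ s k i) * w + w / 2

/-! ### Cells and indices

`cel w v`: number of the fine block that contains `v`.  On the ring of cells `m` at the level `t` the path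
of the arm `i` uses the cells with indices in `[loi, hii]`. -/

/-- the cell of a site -/
def cel (w : ℤ) (v : Pt) : Pt := ((v.1 + w / 2) / w, (v.2 + w / 2) / w)

/-- lowest index, `x` = index of the position, `y` = index of the target, `ρ` = level of the arc -/
def lof (x y h ρ t : ℤ) : ℤ :=
  if t ≤ 0 then x - h else if t < ρ then x else if t = ρ then min x y else y

/-- highest index -/
def hif (x y h ρ t : ℤ) : ℤ :=
  if t ≤ 0 then x + h else if t < ρ then x else if t = ρ then max x y else y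

noncomputable def loi (μ : ℤ) (c₀ : Bool) (s k : Fin 4 → ℤ) (i : Fin 4) (m t : ℤ) : ℤ :=
  lof (2 * m * s i + fpos μ c₀ k i) (2 * m * tgt c₀ i) (hwd μ c₀ i) (rki μ c₀ s k i) t

noncomputable def hii (μ : ℤ) (c₀ : Bool) (s k : Fin 4 → ℤ) (i : Fin 4) (m t : ℤ) : ℤ :=
  hif (2 * m * s i + fpos μ c₀ k i) (2 * m * tgt c₀ i) (hwd μ c₀ i) (rki μ c₀ s k i) t

end SC

end

/-! ### from `Lib_MP_e0a489.SE8` -/

section

/-!
# MP_e0a489, module SE 8: extension of arms through strips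
-/

set_option autoImplicit false

namespace SC

open Classical

namespace Lat

variable {L : Lat} {c : Bool} {ω : Cfg}

theorem Zn0_rect8 (a b h : ℤ) : Zn 0 a b h = rect a b (-h) h := by
  ext v
  rw [mem_Zn0]
  exact ⟨fun H => ⟨⟨H.1, H.2.1⟩, H.2.2.1, H.2.2.2⟩, fun H => ⟨H.1.1, H.1.2, H.2.1, H.2.2⟩⟩

theorem VX_of_SY0 {a b h : ℤ} (H : L.SY c 0 a b h ω) : L.VX c a b (-h) h ω := by
  obtain ⟨x, ⟨x', hx', rfl⟩, y, ⟨y', hy', rfl⟩, hc⟩ := H
  rw [rt_zero, rt_zero, Zn0_rect8] at hc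
  exact ⟨x', y', le_antisymm hx'.2.2 hx'.2.1, le_antisymm hy'.2.2 hy'.2.1, hc⟩

theorem fst_of_Zn0 {a h : ℤ} {v : Pt} (hv : v ∈ Zn 0 a a h) : v.1 = a := by
  rw [mem_Zn0] at hv
  omega

/-- Direction 0, outward: `zone_out`, `link` (zone `J 0 R`, strip `Zn 0 (R+1) b (R/4)`). -/
theorem arm_out0 {D X : Set Pt} {R b : ℤ} (hR : 16 ≤ R) (hb : 2 * R ≤ b) (hD : D ⊆ bx R)
    (hX : X ⊆ bx R ∪ L.nb (bx R)) (h : L.Arm c (D ∪ (J 0 R ∪ J 2 R)) X (Je 0 R) ω)
    (h1 : L.SY c 0 (R + 1) (2 * R) (R / 4) ω) (h2 : L.SX c 0 (R + 1) b (R / 4) ω) :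
    L.Arm c (D ∪ (J 0 R ∪ J 2 R) ∪ Zn 0 (R + 1) b (R / 4)) X (Zn 0 b b (R / 4)) ω := by
  obtain ⟨x, hx, y, hy, hc⟩ := h
  obtain ⟨p, hp, p', hp', hs⟩ := h2
  obtain ⟨q, hq, hqy, hxq⟩ := zone_out (by omega) hD (hX hx) hy hc
  have hy1 : y.1 = 2 * R := by
    rw [Je_eq] at hy
    exact fst_of_Zn0 hy
  have hl := link (a := R + 1) (b := 2 * R) (h := R / 4) (a' := R + 1) (b' := b) (h' := R / 4)
    (by omega) (by omega) le_rfl le_rfl hb hq hy1 (by rw [J_eq, Zn0_rect8] at hqy; exact hqy)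
    (VX_of_SY0 h1) (fst_of_Zn0 hp) (fst_of_Zn0 hp') (by rw [Zn0_rect8] at hs; exact hs)
  rw [← Zn0_rect8, ← Zn0_rect8, ← J_eq] at hl
  refine ⟨x, hx, p', hp', ?_⟩
  have e1 : L.Cn ((D ∪ (J 0 R ∪ J 2 R) ∪ Zn 0 (R + 1) b (R / 4)) ∩ L.col c ω) x q :=
    hxq.mono (Set.inter_subset_inter_left _ Set.subset_union_left)
  have e2 : L.Cn ((D ∪ (J 0 R ∪ J 2 R) ∪ Zn 0 (R + 1) b (R / 4)) ∩ L.col c ω) q p :=
    hl.mono (Set.inter_subset_inter_left _ (Set.union_subset_union_left _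
      (Set.subset_union_left.trans Set.subset_union_right)))
  have e3 : L.Cn ((D ∪ (J 0 R ∪ J 2 R) ∪ Zn 0 (R + 1) b (R / 4)) ∩ L.col c ω) p p' :=
    hs.mono (Set.inter_subset_inter_left _ Set.subset_union_right)
  exact (e1.trans e2).trans e3

/-- Direction 0, inward: `zone_in`, `link` (zone `K 0 r`, strip `Zn 0 a r w`). -/
theorem arm_in0 {D Y : Set Pt} {r a w : ℤ} (hr : 16 ≤ r) (ha : a ≤ r / 2 + 1) (hw : 0 ≤ w)
    (hw' : w ≤ r / 8) (hD : ∀ v ∈ D, r < nrm v) (hY : ∀ v ∈ Y, r < nrm v)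
    (h : L.Arm c (D ∪ (K 0 r ∪ K 2 r)) (Ks 0 r) Y ω)
    (h1 : L.SY c 0 (r / 2 + 1) r (r / 8) ω) (h2 : L.SX c 0 a r w ω) :
    L.Arm c (D ∪ (K 0 r ∪ K 2 r) ∪ Zn 0 a r w) (Zn 0 a a w) Y ω := by
  obtain ⟨x, hx, y, hy, hc⟩ := h
  obtain ⟨p, hp, p', hp', hs⟩ := h2
  obtain ⟨q, hq, hxq, -⟩ := zone_in (by omega) hD hx (hY y hy) hc
  have hx1 : x.1 = r / 2 + 1 := by
    rw [Ks_eq] at hx
    exact fst_of_Zn0 hx
  have hl := link (a := r / 2 + 1) (b := r) (h := r / 8) (a' := a) (b' := r) (h' := w)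
    (by omega) hw hw' ha le_rfl hx1 hq (by rw [K_eq, Zn0_rect8] at hxq; exact hxq)
    (VX_of_SY0 h1) (fst_of_Zn0 hp) (fst_of_Zn0 hp') (by rw [Zn0_rect8] at hs; exact hs)
  rw [← Zn0_rect8, ← Zn0_rect8, ← K_eq] at hl
  refine ⟨p, hp, y, hy, ?_⟩
  have e1 : L.Cn ((D ∪ (K 0 r ∪ K 2 r) ∪ Zn 0 a r w) ∩ L.col c ω) x y :=
    hc.mono (Set.inter_subset_inter_left _ Set.subset_union_left)
  have e2 : L.Cn ((D ∪ (K 0 r ∪ K 2 r) ∪ Zn 0 a r w) ∩ L.col c ω) x p :=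
    hl.mono (Set.inter_subset_inter_left _ (Set.union_subset_union_left _
      (Set.subset_union_left.trans Set.subset_union_right)))
  exact e2.symm.trans e1

/-- Direction 0, gluing: `zone_out` for the first arm, `zone_in` for the second, `link` twice with the same radial
crossing of the strip `Zn 0 (ρ+1) ρ' (ρ/4)`. -/
theorem arm_glue0 {D X D' Y : Set Pt} {ρ ρ' : ℤ} (hρ : 16 ≤ ρ) (h8 : 8 * ρ ≤ ρ') (hD : D ⊆ bx ρ)
    (hX : X ⊆ bx ρ ∪ L.nb (bx ρ)) (hD' : ∀ v ∈ D', ρ' < nrm v) (hY : ∀ v ∈ Y, ρ' < nrm v)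
    (h : L.Arm c (D ∪ (J 0 ρ ∪ J 2 ρ)) X (Je 0 ρ) ω)
    (h' : L.Arm c (D' ∪ (K 0 ρ' ∪ K 2 ρ')) (Ks 0 ρ') Y ω)
    (h1 : L.SY c 0 (ρ + 1) (2 * ρ) (ρ / 4) ω) (h2 : L.SY c 0 (ρ' / 2 + 1) ρ' (ρ' / 8) ω)
    (h3 : L.SX c 0 (ρ + 1) ρ' (ρ / 4) ω) :
    L.Arm c (D ∪ (J 0 ρ ∪ J 2 ρ) ∪ (D' ∪ (K 0 ρ' ∪ K 2 ρ')) ∪ Zn 0 (ρ + 1) ρ' (ρ / 4)) X Y ω := by
  obtain ⟨x, hx, y, hy, hc⟩ := h
  obtain ⟨x', hx', y', hy', hc'⟩ := h'
  obtain ⟨p, hp, p', hp', hs⟩ := h3
  obtain ⟨q, hq, hqy, hxq⟩ := zone_out (by omega) hD (hX hx) hy hc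
  obtain ⟨q', hq', hxq', -⟩ := zone_in (by omega) hD' hx' (hY y' hy') hc'
  have hy1 : y.1 = 2 * ρ := by
    rw [Je_eq] at hy
    exact fst_of_Zn0 hy
  have hx1 : x'.1 = ρ' / 2 + 1 := by
    rw [Ks_eq] at hx'
    exact fst_of_Zn0 hx'
  have hl := link (a := ρ + 1) (b := 2 * ρ) (h := ρ / 4) (a' := ρ + 1) (b' := ρ') (h' := ρ / 4)
    (by omega) (by omega) le_rfl le_rfl (by omega) hq hy1
    (by rw [J_eq, Zn0_rect8] at hqy; exact hqy)
    (VX_of_SY0 h1) (fst_of_Zn0 hp) (fst_of_Zn0 hp') (by rw [Zn0_rect8] at hs; exact hs)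
  have hl' := link (a := ρ' / 2 + 1) (b := ρ') (h := ρ' / 8) (a' := ρ + 1) (b' := ρ')
    (h' := ρ / 4) (by omega) (by omega) (by omega) (by omega) le_rfl hx1 hq'
    (by rw [K_eq, Zn0_rect8] at hxq'; exact hxq')
    (VX_of_SY0 h2) (fst_of_Zn0 hp) (fst_of_Zn0 hp') (by rw [Zn0_rect8] at hs; exact hs)
  rw [← Zn0_rect8, ← Zn0_rect8, ← J_eq] at hl
  rw [← Zn0_rect8, ← Zn0_rect8, ← K_eq] at hl'
  refine ⟨x, hx, y', hy', ?_⟩
  have e1 : L.Cn ((D ∪ (J 0 ρ ∪ J 2 ρ) ∪ (D' ∪ (K 0 ρ' ∪ K 2 ρ')) ∪ Zn 0 (ρ + 1) ρ' (ρ / 4)) ∩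
      L.col c ω) x q :=
    hxq.mono (Set.inter_subset_inter_left _ (Set.subset_union_left.trans Set.subset_union_left))
  have e2 : L.Cn ((D ∪ (J 0 ρ ∪ J 2 ρ) ∪ (D' ∪ (K 0 ρ' ∪ K 2 ρ')) ∪ Zn 0 (ρ + 1) ρ' (ρ / 4)) ∩
      L.col c ω) q p := by
    refine hl.mono (Set.inter_subset_inter_left _ ?_)
    rintro v (hv | hv)
    · exact Or.inl (Or.inl (Or.inr (Or.inl hv)))
    · exact Or.inr hv
  have e3 : L.Cn ((D ∪ (J 0 ρ ∪ J 2 ρ) ∪ (D' ∪ (K 0 ρ' ∪ K 2 ρ')) ∪ Zn 0 (ρ + 1) ρ' (ρ / 4)) ∩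
      L.col c ω) x' p := by
    refine hl'.mono (Set.inter_subset_inter_left _ ?_)
    rintro v (hv | hv)
    · exact Or.inl (Or.inr (Or.inr (Or.inl hv)))
    · exact Or.inr hv
  have e4 : L.Cn ((D ∪ (J 0 ρ ∪ J 2 ρ) ∪ (D' ∪ (K 0 ρ' ∪ K 2 ρ')) ∪ Zn 0 (ρ + 1) ρ' (ρ / 4)) ∩
      L.col c ω) x' y' :=
    hc'.mono (Set.inter_subset_inter_left _ (Set.subset_union_right.trans Set.subset_union_left))
  exact ((e1.trans e2).trans e3.symm).trans e4

end Lat

end SC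

end

/-! ### from `Lib_MP_e0a489.SE10` -/

section

/-!
# MP_e0a489, module SE 10: extension of arms through strips, all directions

Rotated versions of SE 8: apply them to the lattice `L.rots s`, the configuration `via (rt s) ω` and the sets
`(rt s).symm '' D` etc.  `Tr.arm (tr_rots L s)`; `rt s '' Zn t a b h = Zn (s + t) a b h` (`rt_add`), `Tr.nb`, `nrm_rt`; for the strip
events `SX_iff`, `SY_iff` (or `Tr.arm` again).
-/

set_option autoImplicit false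

namespace SC

open Classical

private theorem rt_img10 (s t : ℤ) (A : Set Pt) : rt s '' (rt t '' A) = rt (s + t) '' A := by
  rw [Set.image_image]
  exact Set.image_congr fun v _ => (rt_add s t v).symm

theorem rt_Zn (s t a b h : ℤ) : rt s '' Zn t a b h = Zn (s + t) a b h :=
  rt_img10 s t _

theorem Jc_of {c : Bool} {s : ℤ} (hs : s = dc c ∨ s = dc c + 2) (R : ℤ) :
    J s R ∪ J (s + 2) R = Jc c R := by
  rcases hs with rfl | rfl
  · rfl
  · have h4 : J (dc c + 2 + 2) R = J (dc c) R := by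
      rw [J_eq, J_eq]
      exact Zn_mod (by omega) _ _ _
    rw [h4, Set.union_comm]
    rfl

theorem Kc_of {c : Bool} {s : ℤ} (hs : s = dc c ∨ s = dc c + 2) (r : ℤ) :
    K s r ∪ K (s + 2) r = Kc c r := by
  rcases hs with rfl | rfl
  · rfl
  · have h4 : K (dc c + 2 + 2) r = K (dc c) r := by
      rw [K_eq, K_eq]
      exact Zn_mod (by omega) _ _ _
    rw [h4, Set.union_comm]
    rfl

private theorem symm_img10 (s : ℤ) (D : Set Pt) : rt s '' ((rt s).symm '' D) = D := by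
  rw [Set.image_image]
  simp only [Equiv.apply_symm_apply, Set.image_id']

private theorem nrm_symm10 (s : ℤ) (v : Pt) : nrm ((rt s).symm v) = nrm v := by
  rw [← nrm_rt s, Equiv.apply_symm_apply]

private theorem img_J10 (s R : ℤ) : rt s '' (J 0 R ∪ J 2 R) = J s R ∪ J (s + 2) R := by
  rw [Set.image_union, J_eq, J_eq, J_eq, J_eq, rt_Zn, rt_Zn, add_zero]

private theorem img_K10 (s r : ℤ) : rt s '' (K 0 r ∪ K 2 r) = K s r ∪ K (s + 2) r := by
  rw [Set.image_union, K_eq, K_eq, K_eq, K_eq, rt_Zn, rt_Zn, add_zero]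

private theorem img_Zn10 (s a b h : ℤ) : rt s '' Zn 0 a b h = Zn s a b h := by
  rw [rt_Zn, add_zero]

private theorem img_Zlo10 (s a b h : ℤ) : rt s '' Zlo 0 a b h = Zlo s a b h := by
  unfold Zlo
  rw [rt_img10, add_zero]

private theorem img_Zhi10 (s a b h : ℤ) : rt s '' Zhi 0 a b h = Zhi s a b h := by
  unfold Zhi
  rw [rt_img10, add_zero]

namespace Lat

variable {L : Lat} {c : Bool} {ω : Cfg}

private theorem SX_tr10 (s a b h : ℤ) :
    (L.rots s).SX c 0 a b h (via (rt s) ω) ↔ L.SX c s a b h ω := by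
  unfold SX
  rw [(tr_rots L s).arm, img_Zn10, img_Zn10, img_Zn10]

private theorem SY_tr10 (s a b h : ℤ) :
    (L.rots s).SY c 0 a b h (via (rt s) ω) ↔ L.SY c s a b h ω := by
  unfold SY
  rw [(tr_rots L s).arm, img_Zn10, img_Zlo10, img_Zhi10]

private theorem bx_symm10 {s R : ℤ} {D : Set Pt} (hD : D ⊆ bx R) : (rt s).symm '' D ⊆ bx R := by
  rintro _ ⟨v, hv, rfl⟩
  show nrm ((rt s).symm v) ≤ R
  rw [nrm_symm10]
  exact hD hv

private theorem nrm_symm_lt10 {s r : ℤ} {D : Set Pt} (hD : ∀ v ∈ D, r < nrm v) :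
    ∀ v ∈ (rt s).symm '' D, r < nrm v := by
  rintro _ ⟨v, hv, rfl⟩
  rw [nrm_symm10]
  exact hD v hv

private theorem img_bx10 (s R : ℤ) : rt s '' bx R = bx R := by
  ext v
  constructor
  · rintro ⟨w, hw, rfl⟩
    show nrm (rt s w) ≤ R
    rw [nrm_rt]
    exact hw
  · intro hv
    refine ⟨(rt s).symm v, ?_, Equiv.apply_symm_apply _ v⟩
    show nrm ((rt s).symm v) ≤ R
    rw [nrm_symm10]
    exact hv

private theorem nb_symm10 {s R : ℤ} {X : Set Pt} (hX : X ⊆ bx R ∪ L.nb (bx R)) :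
    (rt s).symm '' X ⊆ bx R ∪ (L.rots s).nb (bx R) := by
  rintro _ ⟨v, hv, rfl⟩
  have h1 : rt s '' (bx R ∪ (L.rots s).nb (bx R)) = bx R ∪ L.nb (bx R) := by
    rw [Set.image_union, (tr_rots L s).nb, img_bx10]
  have h2 := hX hv
  rw [← h1] at h2
  obtain ⟨w, hw, rfl⟩ := h2
  rw [Equiv.symm_apply_apply]
  exact hw

theorem arm_out {s : ℤ} (hs : s = dc c ∨ s = dc c + 2) {D X : Set Pt} {R b : ℤ} (hR : 16 ≤ R)
    (hb : 2 * R ≤ b) (hD : D ⊆ bx R) (hX : X ⊆ bx R ∪ L.nb (bx R))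
    (h : L.Arm c (D ∪ Jc c R) X (Je s R) ω) (h1 : L.SY c s (R + 1) (2 * R) (R / 4) ω)
    (h2 : L.SX c s (R + 1) b (R / 4) ω) :
    L.Arm c (D ∪ Jc c R ∪ Zn s (R + 1) b (R / 4)) X (Zn s b b (R / 4)) ω := by
  have h' : (L.rots s).Arm c ((rt s).symm '' D ∪ (J 0 R ∪ J 2 R)) ((rt s).symm '' X) (Je 0 R)
      (via (rt s) ω) := by
    rw [(tr_rots L s).arm, Set.image_union, symm_img10, symm_img10, img_J10, Je_eq, img_Zn10,
      Jc_of hs, ← Je_eq]
    exact h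
  have key := arm_out0 hR hb (bx_symm10 (s := s) hD) (nb_symm10 (s := s) hX) h'
    ((SY_tr10 s _ _ _).2 h1) ((SX_tr10 s _ _ _).2 h2)
  rw [(tr_rots L s).arm, Set.image_union, Set.image_union, symm_img10, symm_img10, img_J10,
    img_Zn10, img_Zn10, Jc_of hs] at key
  exact key

theorem arm_in {s : ℤ} (hs : s = dc c ∨ s = dc c + 2) {D Y : Set Pt} {r a w : ℤ} (hr : 16 ≤ r)
    (ha : a ≤ r / 2 + 1) (hw : 0 ≤ w) (hw' : w ≤ r / 8) (hD : ∀ v ∈ D, r < nrm v)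
    (hY : ∀ v ∈ Y, r < nrm v) (h : L.Arm c (D ∪ Kc c r) (Ks s r) Y ω)
    (h1 : L.SY c s (r / 2 + 1) r (r / 8) ω) (h2 : L.SX c s a r w ω) :
    L.Arm c (D ∪ Kc c r ∪ Zn s a r w) (Zn s a a w) Y ω := by
  have h' : (L.rots s).Arm c ((rt s).symm '' D ∪ (K 0 r ∪ K 2 r)) (Ks 0 r) ((rt s).symm '' Y)
      (via (rt s) ω) := by
    rw [(tr_rots L s).arm, Set.image_union, symm_img10, symm_img10, img_K10, Ks_eq, img_Zn10,
      Kc_of hs, ← Ks_eq]
    exact h
  have key := arm_in0 hr ha hw hw' (nrm_symm_lt10 (s := s) hD) (nrm_symm_lt10 (s := s) hY) h'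
    ((SY_tr10 s _ _ _).2 h1) ((SX_tr10 s _ _ _).2 h2)
  rw [(tr_rots L s).arm, Set.image_union, Set.image_union, symm_img10, symm_img10, img_K10,
    img_Zn10, img_Zn10, Kc_of hs] at key
  exact key

theorem arm_glue {s : ℤ} (hs : s = dc c ∨ s = dc c + 2) {D X D' Y : Set Pt} {ρ ρ' : ℤ}
    (hρ : 16 ≤ ρ) (h8 : 8 * ρ ≤ ρ') (hD : D ⊆ bx ρ) (hX : X ⊆ bx ρ ∪ L.nb (bx ρ))
    (hD' : ∀ v ∈ D', ρ' < nrm v) (hY : ∀ v ∈ Y, ρ' < nrm v)
    (h : L.Arm c (D ∪ Jc c ρ) X (Je s ρ) ω) (h' : L.Arm c (D' ∪ Kc c ρ') (Ks s ρ') Y ω)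
    (h1 : L.SY c s (ρ + 1) (2 * ρ) (ρ / 4) ω) (h2 : L.SY c s (ρ' / 2 + 1) ρ' (ρ' / 8) ω)
    (h3 : L.SX c s (ρ + 1) ρ' (ρ / 4) ω) :
    L.Arm c (D ∪ Jc c ρ ∪ (D' ∪ Kc c ρ') ∪ Zn s (ρ + 1) ρ' (ρ / 4)) X Y ω := by
  have k : (L.rots s).Arm c ((rt s).symm '' D ∪ (J 0 ρ ∪ J 2 ρ)) ((rt s).symm '' X) (Je 0 ρ)
      (via (rt s) ω) := by
    rw [(tr_rots L s).arm, Set.image_union, symm_img10, symm_img10, img_J10, Je_eq, img_Zn10,
      Jc_of hs, ← Je_eq]
    exact h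
  have k' : (L.rots s).Arm c ((rt s).symm '' D' ∪ (K 0 ρ' ∪ K 2 ρ')) (Ks 0 ρ')
      ((rt s).symm '' Y) (via (rt s) ω) := by
    rw [(tr_rots L s).arm, Set.image_union, symm_img10, symm_img10, img_K10, Ks_eq, img_Zn10,
      Kc_of hs, ← Ks_eq]
    exact h'
  have key := arm_glue0 hρ h8 (bx_symm10 (s := s) hD) (nb_symm10 (s := s) hX)
    (nrm_symm_lt10 (s := s) hD') (nrm_symm_lt10 (s := s) hY) k k'
    ((SY_tr10 s _ _ _).2 h1) ((SY_tr10 s _ _ _).2 h2) ((SX_tr10 s _ _ _).2 h3)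
  rw [(tr_rots L s).arm, Set.image_union, Set.image_union,
    Set.image_union _ ((rt s).symm '' D) (J 0 ρ ∪ J 2 ρ),
    Set.image_union _ ((rt s).symm '' D') (K 0 ρ' ∪ K 2 ρ'),
    symm_img10, symm_img10, symm_img10, symm_img10, img_J10, img_K10, img_Zn10, Jc_of hs,
    Kc_of hs] at key
  exact key

end Lat

end SC

end

/-! ### from `Lib_MP_e0a489.SE12` -/

section

/-!
# MP_e0a489, module SE 12: deterministic extension and gluing of the separated events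
-/

set_option autoImplicit false

namespace SC

open Classical

namespace Lat

variable {L : Lat} {c : Bool} {ω : Cfg}

/-- a site of a rotated rectangle is the image of a site with the same norm, the radial coordinate -/
private theorem se12_nrm {s a b h : ℤ} (ha : h ≤ a) (hh : 0 ≤ h) {w : Pt}
    (hw : w ∈ rect a b (-h) h) : nrm (rt s w) = w.1 := by
  rw [nrm_rt]
  obtain ⟨⟨h1, h2⟩, h3, h4⟩ := hw
  unfold nrm
  have e1 : |w.1| = w.1 := abs_of_nonneg (by omega)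
  have e2 : |w.2| ≤ w.1 := abs_le.2 ⟨by omega, by omega⟩
  rw [e1]
  exact max_eq_left e2

private theorem se12_J {s R R' b : ℤ} (hR : 0 ≤ R) (h1 : R ≤ R') (hb : b ≤ 2 * R') {v : Pt}
    (hv : v ∈ Zn s (R + 1) b (R / 4)) : (R < nrm v ∧ nrm v ≤ R') ∨ v ∈ J s R' := by
  obtain ⟨w, hw, rfl⟩ := hv
  have e := se12_nrm (s := s) (show R / 4 ≤ R + 1 by omega) (show 0 ≤ R / 4 by omega) hw
  obtain ⟨⟨a1, a2⟩, a3, a4⟩ := hw
  rw [e]
  by_cases hc : w.1 ≤ R'
  · exact Or.inl ⟨by omega, hc⟩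
  · refine Or.inr ⟨w, ⟨⟨by omega, by omega⟩, by omega, by omega⟩, rfl⟩

private theorem se12_K {s r r' : ℤ} (hr' : 0 ≤ r') {v : Pt}
    (hv : v ∈ Zn s (r' / 2 + 1) r (r' / 8)) : (r' < nrm v ∧ nrm v ≤ r) ∨ v ∈ K s r' := by
  obtain ⟨w, hw, rfl⟩ := hv
  have e := se12_nrm (s := s) (show r' / 8 ≤ r' / 2 + 1 by omega) (show 0 ≤ r' / 8 by omega) hw
  obtain ⟨⟨a1, a2⟩, a3, a4⟩ := hw
  rw [e]
  by_cases hc : w.1 ≤ r'
  · refine Or.inr ⟨w, ⟨⟨a1, hc⟩, a3, a4⟩, rfl⟩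
  · exact Or.inl ⟨by omega, a2⟩

private theorem se12_Jc {s R : ℤ} (hs : s = dc c ∨ s = dc c + 2) : J s R ⊆ Jc c R := by
  rcases hs with rfl | rfl
  · exact Set.subset_union_left
  · exact Set.subset_union_right

private theorem se12_Kc {s r : ℤ} (hs : s = dc c ∨ s = dc c + 2) : K s r ⊆ Kc c r := by
  rcases hs with rfl | rfl
  · exact Set.subset_union_left
  · exact Set.subset_union_right

/-- a site of `Jc c R` is in the annulus up to `R'` or in `Jc c R'` -/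
private theorem se12_Jc' {R R' : ℤ} (hR : 0 ≤ R) (h1 : R ≤ R') {v : Pt} (hv : v ∈ Jc c R) :
    (R < nrm v ∧ nrm v ≤ R') ∨ v ∈ Jc c R' := by
  rcases hv with hv | hv
  · exact (se12_J hR h1 (by omega) hv).imp_right (fun h => Or.inl h)
  · exact (se12_J hR h1 (by omega) hv).imp_right (fun h => Or.inr h)

private theorem se12_Ks {s r R : ℤ} (hr : 0 ≤ r) (hrR : r ≤ R) (hR : 16 ≤ R) :
    Ks s r ⊆ bx R ∪ L.nb (bx R) := by
  intro v hv
  have h := Zn_nrm (show r / 8 ≤ r / 2 + 1 by omega) (show 0 ≤ r / 8 by omega) hv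
  left
  show nrm v ≤ R
  omega

private theorem se12_Je {s r R : ℤ} (hR : 16 ≤ R) (hrR : r ≤ R) : ∀ v ∈ Je s R, r < nrm v := by
  intro v hv
  have h := Zn_nrm (show R / 4 ≤ 2 * R by omega) (show 0 ≤ R / 4 by omega) hv
  omega

private theorem se12_out {s r R R' : ℤ} {E X : Set Pt} (hs : s = dc c ∨ s = dc c + 2)
    (hR : 16 ≤ R) (hrR : r ≤ R) (h1 : R ≤ R') (hE : E ⊆ bx R)
    (hX : X ⊆ bx R ∪ L.nb (bx R)) (h : L.Arm c (ann r R ∪ Jc c R ∪ E) X (Je s R) ω)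
    (hk : L.HkO c R (fun _ => 2 * R') ω) : L.Arm c (ann r R' ∪ Jc c R' ∪ E) X (Je s R') ω := by
  obtain ⟨k1, k2⟩ := hk s hs
  have hD : ann r R ∪ E ⊆ bx R := by
    rintro v (hv | hv)
    · exact hv.2
    · exact hE hv
  have h' : L.Arm c (ann r R ∪ E ∪ Jc c R) X (Je s R) ω := by
    refine h.mono ?_ subset_rfl subset_rfl
    rintro v ((hv | hv) | hv)
    · exact Or.inl (Or.inl hv)
    · exact Or.inr hv
    · exact Or.inl (Or.inr hv)
  have key := arm_out hs hR (show 2 * R ≤ 2 * R' by omega) hD hX h' k1 k2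
  refine key.mono ?_ subset_rfl ?_
  · rintro v (((hv | hv) | hv) | hv)
    · exact Or.inl (Or.inl ⟨hv.1, le_trans hv.2 h1⟩)
    · exact Or.inr hv
    · rcases se12_Jc' (by omega) h1 hv with h3 | h3
      · exact Or.inl (Or.inl ⟨by omega, h3.2⟩)
      · exact Or.inl (Or.inr h3)
    · rcases se12_J (show (0 : ℤ) ≤ R by omega) h1 (le_refl _) hv with h3 | h3
      · exact Or.inl (Or.inl ⟨by omega, h3.2⟩)
      · exact Or.inl (Or.inr (se12_Jc hs h3))
  · rw [Je_eq]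
    exact Zn_mono (le_refl _) (le_refl _) (by omega)

private theorem se12_nb {r R : ℤ} (hrR : r ≤ R) : L.nb (bx r) ⊆ bx R ∪ L.nb (bx R) := by
  rintro v ⟨u, hu, hv⟩
  exact Or.inr ⟨u, le_trans (show nrm u ≤ r from hu) hrR, hv⟩

private theorem se12_KcR {r R : ℤ} (hr : 0 ≤ r) (hrR : r ≤ R) : Kc c r ⊆ bx R := by
  intro v hv
  exact le_trans (Kc_nrm hr hv).2 hrR

private theorem se12_in {s r R r' : ℤ} {Y : Set Pt} (hs : s = dc c ∨ s = dc c + 2)
    (hr' : 16 ≤ r') (h1 : 2 * r' ≤ r) (hrR : r ≤ R) (hY : ∀ v ∈ Y, r < nrm v)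
    (h : L.Arm c (ann r R ∪ Jc c R ∪ Kc c r) (Ks s r) Y ω)
    (hk : L.HkI c r (r' / 2 + 1) (r' / 8) ω) :
    L.Arm c (ann r' R ∪ Jc c R ∪ Kc c r') (Ks s r') Y ω := by
  obtain ⟨k1, k2⟩ := hk s hs
  have hD : ∀ v ∈ ann r R ∪ Jc c R, r < nrm v := by
    rintro v (hv | hv)
    · exact hv.1
    · have := (Jc_nrm (show (0 : ℤ) ≤ R by omega) hv).1
      omega
  have key := arm_in hs (show (16 : ℤ) ≤ r by omega) (show r' / 2 + 1 ≤ r / 2 + 1 by omega)
    (show 0 ≤ r' / 8 by omega) (show r' / 8 ≤ r / 8 by omega) hD hY h k1 k2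
  refine key.mono ?_ subset_rfl subset_rfl
  rintro v (((hv | hv) | hv) | hv)
  · exact Or.inl (Or.inl ⟨by have := hv.1; omega, hv.2⟩)
  · exact Or.inl (Or.inr hv)
  · have h3 := Kc_nrm (show (0 : ℤ) ≤ r by omega) hv
    exact Or.inl (Or.inl ⟨by omega, by omega⟩)
  · rcases se12_K (show (0 : ℤ) ≤ r' by omega) hv with h3 | h3
    · exact Or.inl (Or.inl ⟨h3.1, by omega⟩)
    · exact Or.inr (se12_Kc hs h3)

private theorem se12_glue {s s₀ s₁ r ρ ρ' R : ℤ} (hs : s = dc c ∨ s = dc c + 2)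
    (hρ : 16 ≤ ρ) (hr : 0 ≤ r) (h0 : r ≤ ρ) (h1 : 8 * ρ ≤ ρ') (h2 : ρ' ≤ R)
    (h : L.Arm c (ann r ρ ∪ Jc c ρ ∪ Kc c r) (Ks s₀ r) (Je s ρ) ω)
    (h' : L.Arm c (ann ρ' R ∪ Jc c R ∪ Kc c ρ') (Ks s ρ') (Je s₁ R) ω)
    (hk : L.HkG c ρ ρ' ω) :
    L.Arm c (ann r R ∪ Jc c R ∪ Kc c r) (Ks s₀ r) (Je s₁ R) ω := by
  obtain ⟨k1, k2, k3⟩ := hk s hs
  have hD : ann r ρ ∪ Kc c r ⊆ bx ρ := by
    rintro v (hv | hv)
    · exact hv.2
    · exact se12_KcR hr h0 hv
  have hD' : ∀ v ∈ ann ρ' R ∪ Jc c R, ρ' < nrm v := by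
    rintro v (hv | hv)
    · exact hv.1
    · have := (Jc_nrm (show (0 : ℤ) ≤ R by omega) hv).1
      omega
  have g : L.Arm c (ann r ρ ∪ Kc c r ∪ Jc c ρ) (Ks s₀ r) (Je s ρ) ω := by
    refine h.mono ?_ subset_rfl subset_rfl
    rintro v ((hv | hv) | hv)
    · exact Or.inl (Or.inl hv)
    · exact Or.inr hv
    · exact Or.inl (Or.inr hv)
  have key := arm_glue hs hρ h1 hD (se12_Ks hr h0 hρ) hD' (se12_Je (by omega) h2) g h' k1 k2 k3
  refine key.mono ?_ subset_rfl subset_rfl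
  rintro v ((((hv | hv) | hv) | ((hv | hv) | hv)) | hv)
  · exact Or.inl (Or.inl ⟨hv.1, by have := hv.2; omega⟩)
  · exact Or.inr hv
  · have h3 := Jc_nrm (show (0 : ℤ) ≤ ρ by omega) hv
    exact Or.inl (Or.inl ⟨by omega, by omega⟩)
  · exact Or.inl (Or.inl ⟨by have := hv.1; omega, hv.2⟩)
  · exact Or.inl (Or.inr hv)
  · have h3 := Kc_nrm (show (0 : ℤ) ≤ ρ' by omega) hv
    exact Or.inl (Or.inl ⟨by omega, by omega⟩)
  · have h3 := Zn_nrm (show ρ / 4 ≤ ρ + 1 by omega) (show 0 ≤ ρ / 4 by omega) hv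
    exact Or.inl (Or.inl ⟨by omega, by omega⟩)

/-- `arm_out` with `D = ann r R`, `b = 2 R'`, for both directions; the result is in `ann r R' ∪ Jc c R'` and ends at `Je s R'` (`Arm.mono`): a
site of `Zn s (R+1) (2R') (R/4)` or of `J s R` with norm `≤ R'` is in `ann r R'`, and one with norm `> R'` is in `J s R'`
(`R / 4 ≤ R' / 4`, `mem_Zn0` ... or `Zn_nrm`). -/
theorem So_out {r R R' : ℤ} (hR : 16 ≤ R) (hr : 0 ≤ r) (hrR : r ≤ R) (h1 : R ≤ R')
    (h : L.So c r R ω) (hk : L.HkO c R (fun _ => 2 * R') ω) : L.So c r R' ω := by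
  have _ := hr
  have key : ∀ s, (s = dc c ∨ s = dc c + 2) →
      L.Arm c (ann r R ∪ Jc c R) (L.nb (bx r)) (Je s R) ω →
      L.Arm c (ann r R' ∪ Jc c R') (L.nb (bx r)) (Je s R') ω := by
    intro s hs h3
    have h4 := se12_out (E := ∅) hs hR hrR h1 (Set.empty_subset _) (se12_nb hrR)
      (h3.mono Set.subset_union_left subset_rfl subset_rfl) hk
    rwa [Set.union_empty] at h4
  exact ⟨key _ (Or.inl rfl) h.1, key _ (Or.inr rfl) h.2⟩

/-- The same for `Pairs`, `D = ann r R ∪ Kc c r`, the pairing is kept. -/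
theorem Pairs_out {r R R' : ℤ} (hR : 16 ≤ R) (hr : 0 ≤ r) (hrR : r ≤ R) (h1 : R ≤ R')
    (h : L.Pairs c r R ω) (hk : L.HkO c R (fun _ => 2 * R') ω) : L.Pairs c r R' ω := by
  have key : ∀ s s₀, (s = dc c ∨ s = dc c + 2) →
      L.Arm c (ann r R ∪ Jc c R ∪ Kc c r) (Ks s₀ r) (Je s R) ω →
      L.Arm c (ann r R' ∪ Jc c R' ∪ Kc c r) (Ks s₀ r) (Je s R') ω := fun s s₀ hs h3 =>
    se12_out hs hR hrR h1 (se12_KcR hr hrR) (se12_Ks hr hrR hR) h3 hk
  rcases h with ⟨h3, h4⟩ | ⟨h3, h4⟩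
  · exact Or.inl ⟨key _ _ (Or.inl rfl) h3, key _ _ (Or.inr rfl) h4⟩
  · exact Or.inr ⟨key _ _ (Or.inr rfl) h3, key _ _ (Or.inl rfl) h4⟩

/-- `arm_in` with `D = ann r R ∪ Jc c R`, `a = r' / 2 + 1`, `w = r' / 8`; a site of the strip or of `K s r` has norm `> r'` (then
it is in `ann r' R`, because it is in `bx r`) or it is in the strip and in `K s r'`.  Here `2 r' ≤ r` is used: the
sites of `K s r` have norm `≥ r / 2 + 1 > r'`. -/
theorem Pairs_in {r R r' : ℤ} (hr' : 16 ≤ r') (h1 : 2 * r' ≤ r) (hrR : r ≤ R)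
    (h : L.Pairs c r R ω) (hk : L.HkI c r (r' / 2 + 1) (r' / 8) ω) : L.Pairs c r' R ω := by
  have key : ∀ s s₁, (s = dc c ∨ s = dc c + 2) →
      L.Arm c (ann r R ∪ Jc c R ∪ Kc c r) (Ks s r) (Je s₁ R) ω →
      L.Arm c (ann r' R ∪ Jc c R ∪ Kc c r') (Ks s r') (Je s₁ R) ω := fun s s₁ hs h3 =>
    se12_in hs hr' h1 hrR (se12_Je (by omega) hrR) h3 hk
  rcases h with ⟨h3, h4⟩ | ⟨h3, h4⟩
  · exact Or.inl ⟨key _ _ (Or.inl rfl) h3, key _ _ (Or.inr rfl) h4⟩
  · exact Or.inr ⟨key _ _ (Or.inl rfl) h3, key _ _ (Or.inr rfl) h4⟩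

/-- `arm_glue` for both directions; the two pairings are composed: if the inner event joins `Ks s` to `Je (σ s)` and the
outer event joins `Ks s` to `Je (τ s)`, the result joins `Ks s` to `Je (τ (σ s))` (`σ`, `τ` are the identity or the exchange of the two
directions). -/
theorem Pairs_glue {r ρ ρ' R : ℤ} (hρ : 16 ≤ ρ) (hr : 0 ≤ r) (h0 : r ≤ ρ) (h1 : 8 * ρ ≤ ρ')
    (h2 : ρ' ≤ R) (h : L.Pairs c r ρ ω) (h' : L.Pairs c ρ' R ω) (hk : L.HkG c ρ ρ' ω) :
    L.Pairs c r R ω := by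
  have g : ∀ s s₀ s₁, (s = dc c ∨ s = dc c + 2) →
      L.Arm c (ann r ρ ∪ Jc c ρ ∪ Kc c r) (Ks s₀ r) (Je s ρ) ω →
      L.Arm c (ann ρ' R ∪ Jc c R ∪ Kc c ρ') (Ks s ρ') (Je s₁ R) ω →
      L.Arm c (ann r R ∪ Jc c R ∪ Kc c r) (Ks s₀ r) (Je s₁ R) ω := fun s s₀ s₁ hs h3 h4 =>
    se12_glue hs hρ hr h0 h1 h2 h3 h4 hk
  rcases h with ⟨a1, a2⟩ | ⟨a1, a2⟩
  · rcases h' with ⟨b1, b2⟩ | ⟨b1, b2⟩
    · exact Or.inl ⟨g _ _ _ (Or.inl rfl) a1 b1, g _ _ _ (Or.inr rfl) a2 b2⟩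
    · exact Or.inr ⟨g _ _ _ (Or.inl rfl) a1 b1, g _ _ _ (Or.inr rfl) a2 b2⟩
  · rcases h' with ⟨b1, b2⟩ | ⟨b1, b2⟩
    · exact Or.inr ⟨g _ _ _ (Or.inr rfl) a1 b2, g _ _ _ (Or.inl rfl) a2 b1⟩
    · exact Or.inl ⟨g _ _ _ (Or.inr rfl) a1 b2, g _ _ _ (Or.inl rfl) a2 b1⟩

end Lat

end SC

end

/-! ### from `Lib_MP_e0a489.SE13` -/

section

/-!
# MP_e0a489, module SE 13: pointwise extension and gluing

All four statements are applications of `cpr_terr` with the strips events (`p = κ 2000 ^ 4` or `κ 2000 ^ 6`), `T` and `U` the (finite)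
territories of the two colours.
-/

set_option autoImplicit false

namespace SC

open Classical

private theorem SE13_mon_and {c : Bool} {A B : Cfg → Prop} (hA : MonC c A) (hB : MonC c B) :
    MonC c (fun ω => A ω ∧ B ω) := by
  cases c
  · have hA' : Dec A := by simpa [MonC] using hA
    have hB' : Dec B := by simpa [MonC] using hB
    have : Dec (fun ω => A ω ∧ B ω) := fun ω ω' h hh => ⟨hA' ω ω' h hh.1, hB' ω ω' h hh.2⟩
    simpa [MonC] using this
  · have hA' : Inc A := by simpa [MonC] using hA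
    have hB' : Inc B := by simpa [MonC] using hB
    have : Inc (fun ω => A ω ∧ B ω) := fun ω ω' h hh => ⟨hA' ω ω' h hh.1, hB' ω ω' h hh.2⟩
    simpa [MonC] using this

private theorem SE13_dep_and {A B : Cfg → Prop} {D E : Set Pt} (hA : Dep A D) (hB : Dep B E) :
    Dep (fun ω => A ω ∧ B ω) (D ∪ E) := by
  intro ω ω' h
  have h1 := hA ω ω' fun v hv => h v (Or.inl hv)
  have h2 := hB ω ω' fun v hv => h v (Or.inr hv)
  show (A ω ∧ B ω) = (A ω' ∧ B ω')
  rw [h1, h2]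

private theorem SE13_tO_finite (c : Bool) (R : ℤ) (b : ℤ → ℤ) : (tO c R b).Finite := by
  refine ((Zn_finite (dc c) (R + 1) (b (dc c)) (R / 4)).union
    (Zn_finite (dc c + 2) (R + 1) (b (dc c + 2)) (R / 4))).subset ?_
  rintro v ⟨s, hs | hs, hv⟩
  · subst hs; exact Or.inl hv
  · subst hs; exact Or.inr hv

private theorem SE13_tI_finite (c : Bool) (r a w : ℤ) : (tI c r a w).Finite := by
  refine (((Zn_finite (dc c) (r / 2 + 1) r (r / 8)).union (Zn_finite (dc c) a r w)).union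
    ((Zn_finite (dc c + 2) (r / 2 + 1) r (r / 8)).union (Zn_finite (dc c + 2) a r w))).subset ?_
  rintro v ⟨s, hs | hs, hv⟩
  · subst hs; exact Or.inl hv
  · subst hs; exact Or.inr hv

private theorem SE13_tG_finite (c : Bool) (ρ ρ' : ℤ) : (tG c ρ ρ').Finite := by
  refine (((Zn_finite (dc c) (ρ + 1) ρ' (ρ / 4)).union
    (Zn_finite (dc c) (ρ' / 2 + 1) ρ' (ρ' / 8))).union
    ((Zn_finite (dc c + 2) (ρ + 1) ρ' (ρ / 4)).union
      (Zn_finite (dc c + 2) (ρ' / 2 + 1) ρ' (ρ' / 8)))).subset ?_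
  rintro v ⟨s, hs | hs, hv⟩
  · subst hs; exact Or.inl hv
  · subst hs; exact Or.inr hv

private theorem SE13_dir {c c' : Bool} (hc : c ≠ c') {s s' : ℤ} (hs : s = dc c ∨ s = dc c + 2)
    (hs' : s' = dc c' ∨ s' = dc c' + 2) : s % 4 ≠ s' % 4 := by
  cases c <;> cases c' <;> simp_all [dc] <;> omega

private theorem SE13_Jc {c : Bool} {R : ℤ} {v : Pt} (hv : v ∈ Jc c R) :
    ∃ s, (s = dc c ∨ s = dc c + 2) ∧ v ∈ Zn s (R + 1) (2 * R) (R / 4) := by
  rcases hv with hv | hv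
  · exact ⟨dc c, Or.inl rfl, hv⟩
  · exact ⟨dc c + 2, Or.inr rfl, hv⟩

private theorem SE13_Kc {c : Bool} {r : ℤ} {v : Pt} (hv : v ∈ Kc c r) :
    ∃ s, (s = dc c ∨ s = dc c + 2) ∧ v ∈ Zn s (r / 2 + 1) r (r / 8) := by
  rcases hv with hv | hv
  · exact ⟨dc c, Or.inl rfl, hv⟩
  · exact ⟨dc c + 2, Or.inr rfl, hv⟩

/-- sites of the outer territory -/
private theorem SE13_tO_mem {c : Bool} {R R' : ℤ} (hR : 16 ≤ R) {v : Pt}
    (hv : v ∈ tO c R (fun _ => 2 * R')) :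
    R < nrm v ∧ nrm v ≤ 2 * R' ∧ v ∉ Jc (!c) R ∧ v ∉ tO (!c) R (fun _ => 2 * R') := by
  obtain ⟨s, hs, hv⟩ := hv
  have h := Zn_nrm (by omega) (by omega) hv
  refine ⟨by omega, h.2, fun hJ => ?_, fun hJ => ?_⟩
  · obtain ⟨s', hs', hJ⟩ := SE13_Jc hJ
    exact Zn_disj (SE13_dir (by cases c <;> simp) hs hs') (by omega) (by omega)
      (Or.inl (by omega)) hv hJ
  · obtain ⟨s', hs', hJ⟩ := hJ
    exact Zn_disj (SE13_dir (by cases c <;> simp) hs hs') (by omega) (by omega)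
      (Or.inl (by omega)) hv hJ

/-- `E₁ = So true r R`, `E₀ = So false r R`, `T = tO true R (2R')`, `U = tO false R (2R')`, strips `HkO c R (2R')`, `So_out`.  A site of `T` has
norm in `(R, 2R']` (`Zn_nrm`), so it is in `G`, not in `ann r R`, and it is not in `Jc false R` (`Zn_disj`, `J_eq`). -/
theorem out_pt {L : Lat} {κ : ℕ → ℝ} (hL : RSW L κ) {r R R' : ℤ} (hR : 16 ≤ R) (hr : 0 ≤ r)
    (hrR : r ≤ R) (h1 : R ≤ R') (h2 : R' ≤ 64 * R) {G : Finset Pt}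
    (hG : ∀ v, R < nrm v → nrm v ≤ 2 * R' → v ∈ G) (ω : Cfg) :
    κ 2000 ^ 8 * cpr G (L.Sout r R) ω ≤ cpr G (L.Sout r R') ω := by
  have hT := SE13_tO_finite true R (fun _ => 2 * R')
  have hU := SE13_tO_finite false R (fun _ => 2 * R')
  have hp : (0 : ℝ) ≤ κ 2000 ^ 4 := pow_nonneg (hL.pos _).le _
  have e1 : L.Sout r R = fun ω => L.So true r R ω ∧ L.So false r R ω := by
    funext ω; exact propext (Lat.Sout_iff L r R ω)
  have key := cpr_terr (G := G) (T := hT.toFinset) (U := hU.toFinset)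
    (E₁ := L.So true r R) (E₀ := L.So false r R) (E' := L.Sout r R')
    (A := L.HkO true R (fun _ => 2 * R')) (B := L.HkO false R (fun _ => 2 * R'))
    (D₁ := ann r R ∪ Jc true R) (D₀ := ann r R ∪ Jc false R)
    (by
      intro v hv
      have hm := SE13_tO_mem hR ((Set.Finite.mem_toFinset hT).1 hv)
      exact hG v hm.1 hm.2.1)
    (by
      intro v hv
      have hm := SE13_tO_mem hR ((Set.Finite.mem_toFinset hU).1 hv)
      exact hG v hm.1 hm.2.1)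
    (by
      rw [Finset.disjoint_left]
      intro v hv hv'
      exact (SE13_tO_mem hR ((Set.Finite.mem_toFinset hT).1 hv)).2.2.2
        ((Set.Finite.mem_toFinset hU).1 hv'))
    (Lat.So.mon L true r R) (Lat.So.mon L false r R) (Lat.So.dep L true r R)
    (Lat.So.dep L false r R)
    (by
      intro v hv hh
      have hm := SE13_tO_mem hR ((Set.Finite.mem_toFinset hT).1 hv)
      rcases hh with hh | hh
      · have := hh.2
        have := hm.1
        omega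
      · exact hm.2.2.1 hh)
    (by
      intro v hv hh
      have hm := SE13_tO_mem hR ((Set.Finite.mem_toFinset hU).1 hv)
      rcases hh with hh | hh
      · have := hh.2
        have := hm.1
        omega
      · exact hm.2.2.1 hh)
    (Lat.HkO_mon L true R _)
    (by rw [Set.Finite.coe_toFinset]; exact Lat.HkO_dep L true (fun _ => by omega))
    (Lat.HkO_mon L false R _)
    (by rw [Set.Finite.coe_toFinset]; exact Lat.HkO_dep L false (fun _ => by omega))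
    hp (Lat.HkO_pr hL true hR (fun _ => by omega) (fun _ => by omega))
    (Lat.HkO_pr hL false hR (fun _ => by omega) (fun _ => by omega))
    (by
      intro ω a b c d
      exact (Lat.Sout_iff L r R' ω).2 ⟨Lat.So_out hR hr hrR h1 a c, Lat.So_out hR hr hrR h1 b d⟩)
    ω
  rw [e1]
  calc κ 2000 ^ 8 * cpr G (fun ω => L.So true r R ω ∧ L.So false r R ω) ω
      = (κ 2000 ^ 4) ^ 2 * cpr G (fun ω => L.So true r R ω ∧ L.So false r R ω) ω := by
        rw [← pow_mul]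
    _ ≤ _ := key

/-- `E₁ = Pairs true r R`, `E₀ = Pairs false r R`, `Pairs_out`; a site of `T` is not in `Kc false r` (norm `≤ r ≤ R`). -/
theorem outS_pt {L : Lat} {κ : ℕ → ℝ} (hL : RSW L κ) {r R R' : ℤ} (hR : 16 ≤ R) (hr : 0 ≤ r)
    (hrR : r ≤ R) (h1 : R ≤ R') (h2 : R' ≤ 64 * R) {G : Finset Pt}
    (hG : ∀ v, R < nrm v → nrm v ≤ 2 * R' → v ∈ G) (ω : Cfg) :
    κ 2000 ^ 8 * cpr G (L.S4 r R) ω ≤ cpr G (L.S4 r R') ω := by
  have hT := SE13_tO_finite true R (fun _ => 2 * R')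
  have hU := SE13_tO_finite false R (fun _ => 2 * R')
  have hp : (0 : ℝ) ≤ κ 2000 ^ 4 := pow_nonneg (hL.pos _).le _
  have key := cpr_terr (G := G) (T := hT.toFinset) (U := hU.toFinset)
    (E₁ := L.Pairs true r R) (E₀ := L.Pairs false r R) (E' := L.S4 r R')
    (A := L.HkO true R (fun _ => 2 * R')) (B := L.HkO false R (fun _ => 2 * R'))
    (D₁ := ann r R ∪ Jc true R ∪ Kc true r) (D₀ := ann r R ∪ Jc false R ∪ Kc false r)
    (by
      intro v hv
      have hm := SE13_tO_mem hR ((Set.Finite.mem_toFinset hT).1 hv)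
      exact hG v hm.1 hm.2.1)
    (by
      intro v hv
      have hm := SE13_tO_mem hR ((Set.Finite.mem_toFinset hU).1 hv)
      exact hG v hm.1 hm.2.1)
    (by
      rw [Finset.disjoint_left]
      intro v hv hv'
      exact (SE13_tO_mem hR ((Set.Finite.mem_toFinset hT).1 hv)).2.2.2
        ((Set.Finite.mem_toFinset hU).1 hv'))
    (Lat.Pairs.mon L true r R) (Lat.Pairs.mon L false r R) (Lat.Pairs.dep L true r R)
    (Lat.Pairs.dep L false r R)
    (by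
      intro v hv hh
      have hm := SE13_tO_mem hR ((Set.Finite.mem_toFinset hT).1 hv)
      have hm1 := hm.1
      rcases hh with (hh | hh) | hh
      · have := hh.2
        omega
      · exact hm.2.2.1 hh
      · have := (Kc_nrm hr hh).2
        omega)
    (by
      intro v hv hh
      have hm := SE13_tO_mem hR ((Set.Finite.mem_toFinset hU).1 hv)
      have hm1 := hm.1
      rcases hh with (hh | hh) | hh
      · have := hh.2
        omega
      · exact hm.2.2.1 hh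
      · have := (Kc_nrm hr hh).2
        omega)
    (Lat.HkO_mon L true R _)
    (by rw [Set.Finite.coe_toFinset]; exact Lat.HkO_dep L true (fun _ => by omega))
    (Lat.HkO_mon L false R _)
    (by rw [Set.Finite.coe_toFinset]; exact Lat.HkO_dep L false (fun _ => by omega))
    hp (Lat.HkO_pr hL true hR (fun _ => by omega) (fun _ => by omega))
    (Lat.HkO_pr hL false hR (fun _ => by omega) (fun _ => by omega))
    (by
      intro ω a b c d
      exact ⟨Lat.Pairs_out hR hr hrR h1 a c, Lat.Pairs_out hR hr hrR h1 b d⟩)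
    ω
  calc κ 2000 ^ 8 * cpr G (L.S4 r R) ω
      = (κ 2000 ^ 4) ^ 2 * cpr G (fun ω => L.Pairs true r R ω ∧ L.Pairs false r R ω) ω := by
        rw [← pow_mul]; rfl
    _ ≤ _ := key

/-- sites of the inner territory -/
private theorem SE13_tI_mem {c : Bool} {r r' : ℤ} (hr' : 16 ≤ r') (h1 : 2 * r' ≤ r) {v : Pt}
    (hv : v ∈ tI c r (r' / 2 + 1) (r' / 8)) :
    r' / 2 < nrm v ∧ nrm v ≤ r ∧ v ∉ Kc (!c) r ∧ v ∉ tI (!c) r (r' / 2 + 1) (r' / 8) := by
  obtain ⟨s, hs, hv⟩ := hv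
  have hn : r' / 2 < nrm v ∧ nrm v ≤ r := by
    rcases hv with hv | hv
    · have h := Zn_nrm (by omega) (by omega) hv
      exact ⟨by omega, h.2⟩
    · have h := Zn_nrm (by omega) (by omega) hv
      exact ⟨by omega, h.2⟩
  refine ⟨hn.1, hn.2, fun hJ => ?_, fun hJ => ?_⟩
  · obtain ⟨s', hs', hJ⟩ := SE13_Kc hJ
    rcases hv with hv | hv
    · exact Zn_disj (SE13_dir (by cases c <;> simp) hs hs') (by omega) (by omega)
        (Or.inl (by omega)) hv hJ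
    · exact Zn_disj (SE13_dir (by cases c <;> simp) hs hs') (by omega) (by omega)
        (Or.inl (by omega)) hv hJ
  · obtain ⟨s', hs', hJ⟩ := hJ
    rcases hv with hv | hv <;> rcases hJ with hJ | hJ
    · exact Zn_disj (SE13_dir (by cases c <;> simp) hs hs') (by omega) (by omega)
        (Or.inl (by omega)) hv hJ
    · exact Zn_disj (SE13_dir (by cases c <;> simp) hs hs') (by omega) (by omega)
        (Or.inr (by omega)) hv hJ
    · exact Zn_disj (SE13_dir (by cases c <;> simp) hs hs') (by omega) (by omega)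
        (Or.inl (by omega)) hv hJ
    · exact Zn_disj (SE13_dir (by cases c <;> simp) hs hs') (by omega) (by omega)
        (Or.inl (by omega)) hv hJ

/-- `T = tI true r (r'/2+1) (r'/8)`, strips `HkI c r (r'/2+1) (r'/8)`, `Pairs_in`.  A site of `T` has norm in `(r'/2, r]`, so it is not
in `ann r R` nor in `Jc false R`; not in `Kc false r` by `Zn_disj`. -/
theorem inS_pt {L : Lat} {κ : ℕ → ℝ} (hL : RSW L κ) {r R r' : ℤ} (hr' : 16 ≤ r')
    (h1 : 2 * r' ≤ r) (h2 : r ≤ 64 * r') (hrR : r ≤ R) {G : Finset Pt}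
    (hG : ∀ v, r' / 2 < nrm v → nrm v ≤ r → v ∈ G) (ω : Cfg) :
    κ 2000 ^ 8 * cpr G (L.S4 r R) ω ≤ cpr G (L.S4 r' R) ω := by
  have hT := SE13_tI_finite true r (r' / 2 + 1) (r' / 8)
  have hU := SE13_tI_finite false r (r' / 2 + 1) (r' / 8)
  have hp : (0 : ℝ) ≤ κ 2000 ^ 4 := pow_nonneg (hL.pos _).le _
  have hR0 : (0 : ℤ) ≤ R := by omega
  have key := cpr_terr (G := G) (T := hT.toFinset) (U := hU.toFinset)
    (E₁ := L.Pairs true r R) (E₀ := L.Pairs false r R) (E' := L.S4 r' R)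
    (A := L.HkI true r (r' / 2 + 1) (r' / 8)) (B := L.HkI false r (r' / 2 + 1) (r' / 8))
    (D₁ := ann r R ∪ Jc true R ∪ Kc true r) (D₀ := ann r R ∪ Jc false R ∪ Kc false r)
    (by
      intro v hv
      have hm := SE13_tI_mem hr' h1 ((Set.Finite.mem_toFinset hT).1 hv)
      exact hG v hm.1 hm.2.1)
    (by
      intro v hv
      have hm := SE13_tI_mem hr' h1 ((Set.Finite.mem_toFinset hU).1 hv)
      exact hG v hm.1 hm.2.1)
    (by
      rw [Finset.disjoint_left]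
      intro v hv hv'
      exact (SE13_tI_mem hr' h1 ((Set.Finite.mem_toFinset hT).1 hv)).2.2.2
        ((Set.Finite.mem_toFinset hU).1 hv'))
    (Lat.Pairs.mon L true r R) (Lat.Pairs.mon L false r R) (Lat.Pairs.dep L true r R)
    (Lat.Pairs.dep L false r R)
    (by
      intro v hv hh
      have hm := SE13_tI_mem hr' h1 ((Set.Finite.mem_toFinset hT).1 hv)
      have hm1 := hm.2.1
      rcases hh with (hh | hh) | hh
      · have := hh.1
        omega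
      · have := (Jc_nrm hR0 hh).1
        omega
      · exact hm.2.2.1 hh)
    (by
      intro v hv hh
      have hm := SE13_tI_mem hr' h1 ((Set.Finite.mem_toFinset hU).1 hv)
      have hm1 := hm.2.1
      rcases hh with (hh | hh) | hh
      · have := hh.1
        omega
      · have := (Jc_nrm hR0 hh).1
        omega
      · exact hm.2.2.1 hh)
    (Lat.HkI_mon L true r _ _)
    (by rw [Set.Finite.coe_toFinset]; exact Lat.HkI_dep L true _ _ _)
    (Lat.HkI_mon L false r _ _)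
    (by rw [Set.Finite.coe_toFinset]; exact Lat.HkI_dep L false _ _ _)
    hp (Lat.HkI_pr hL true (by omega) (by omega) (by omega) (by omega))
    (Lat.HkI_pr hL false (by omega) (by omega) (by omega) (by omega))
    (by
      intro ω a b c d
      exact ⟨Lat.Pairs_in hr' h1 hrR a c, Lat.Pairs_in hr' h1 hrR b d⟩)
    ω
  calc κ 2000 ^ 8 * cpr G (L.S4 r R) ω
      = (κ 2000 ^ 4) ^ 2 * cpr G (fun ω => L.Pairs true r R ω ∧ L.Pairs false r R ω) ω := by
        rw [← pow_mul]; rfl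
    _ ≤ _ := key

/-- sites of the territory for gluing -/
private theorem SE13_tG_mem {c : Bool} {ρ ρ' : ℤ} (hρ : 16 ≤ ρ) (h1 : 8 * ρ ≤ ρ') {v : Pt}
    (hv : v ∈ tG c ρ ρ') :
    ρ < nrm v ∧ nrm v ≤ ρ' ∧ v ∉ Jc (!c) ρ ∧ v ∉ Kc (!c) ρ' ∧ v ∉ tG (!c) ρ ρ' := by
  obtain ⟨s, hs, hv⟩ := hv
  have hn : ρ < nrm v ∧ nrm v ≤ ρ' := by
    rcases hv with hv | hv
    · have h := Zn_nrm (by omega) (by omega) hv
      exact ⟨by omega, h.2⟩
    · have h := Zn_nrm (by omega) (by omega) hv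
      exact ⟨by omega, h.2⟩
  refine ⟨hn.1, hn.2, fun hJ => ?_, fun hJ => ?_, fun hJ => ?_⟩
  · obtain ⟨s', hs', hJ⟩ := SE13_Jc hJ
    rcases hv with hv | hv
    · exact Zn_disj (SE13_dir (by cases c <;> simp) hs hs') (by omega) (by omega)
        (Or.inl (by omega)) hv hJ
    · exact Zn_disj (SE13_dir (by cases c <;> simp) hs hs') (by omega) (by omega)
        (Or.inr (by omega)) hv hJ
  · obtain ⟨s', hs', hJ⟩ := SE13_Kc hJ
    rcases hv with hv | hv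
    · exact Zn_disj (SE13_dir (by cases c <;> simp) hs hs') (by omega) (by omega)
        (Or.inl (by omega)) hv hJ
    · exact Zn_disj (SE13_dir (by cases c <;> simp) hs hs') (by omega) (by omega)
        (Or.inl (by omega)) hv hJ
  · obtain ⟨s', hs', hJ⟩ := hJ
    rcases hv with hv | hv <;> rcases hJ with hJ | hJ
    · exact Zn_disj (SE13_dir (by cases c <;> simp) hs hs') (by omega) (by omega)
        (Or.inl (by omega)) hv hJ
    · exact Zn_disj (SE13_dir (by cases c <;> simp) hs hs') (by omega) (by omega)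
        (Or.inl (by omega)) hv hJ
    · exact Zn_disj (SE13_dir (by cases c <;> simp) hs hs') (by omega) (by omega)
        (Or.inr (by omega)) hv hJ
    · exact Zn_disj (SE13_dir (by cases c <;> simp) hs hs') (by omega) (by omega)
        (Or.inl (by omega)) hv hJ

/-- `E₁ = Pairs true r ρ ∧ Pairs true ρ' R`, `E₀` the same for `false`, `T = tG true ρ ρ'`, strips `HkG c ρ ρ'`, `Pairs_glue`.  A site of `T`
has norm in `(ρ, ρ']`; it is not in `Jc false ρ`, `Kc false ρ'` by `Zn_disj` (third hypothesis: for the zone `Zn s (ρ'/2+1) ρ' (ρ'/8)` and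
`Jc false ρ` use `ρ / 4 < ρ' / 2 + 1`; for the strip and `Kc false ρ'` the same). -/
theorem glue_pt {L : Lat} {κ : ℕ → ℝ} (hL : RSW L κ) {r ρ ρ' R : ℤ} (hρ : 16 ≤ ρ) (hr : 0 ≤ r)
    (h0 : r ≤ ρ) (h1 : 8 * ρ ≤ ρ') (h2 : ρ' ≤ 64 * ρ) (h3 : ρ' ≤ R) {G : Finset Pt}
    (hG : ∀ v, ρ < nrm v → nrm v ≤ ρ' → v ∈ G) (ω : Cfg) :
    κ 2000 ^ 12 * cpr G (fun ω => L.S4 r ρ ω ∧ L.S4 ρ' R ω) ω ≤ cpr G (L.S4 r R) ω := by
  have hT := SE13_tG_finite true ρ ρ'
  have hU := SE13_tG_finite false ρ ρ'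
  have hp : (0 : ℝ) ≤ κ 2000 ^ 6 := pow_nonneg (hL.pos _).le _
  have hR0 : (0 : ℤ) ≤ R := by omega
  have hkey : ∀ (c : Bool) (v : Pt), v ∈ tG c ρ ρ' →
      v ∉ (ann r ρ ∪ Jc (!c) ρ ∪ Kc (!c) r) ∪ (ann ρ' R ∪ Jc (!c) R ∪ Kc (!c) ρ') := by
    intro c v hv hh
    have hm := SE13_tG_mem hρ h1 hv
    have hm1 := hm.1
    have hm2 := hm.2.1
    rcases hh with ((hh | hh) | hh) | ((hh | hh) | hh)
    · have := hh.2
      omega
    · exact hm.2.2.1 hh
    · have := (Kc_nrm hr hh).2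
      omega
    · have := hh.1
      omega
    · have := (Jc_nrm hR0 hh).1
      omega
    · exact hm.2.2.2.1 hh
  have key := cpr_terr (G := G) (T := hT.toFinset) (U := hU.toFinset)
    (E₁ := fun ω => L.Pairs true r ρ ω ∧ L.Pairs true ρ' R ω)
    (E₀ := fun ω => L.Pairs false r ρ ω ∧ L.Pairs false ρ' R ω) (E' := L.S4 r R)
    (A := L.HkG true ρ ρ') (B := L.HkG false ρ ρ')
    (D₁ := (ann r ρ ∪ Jc true ρ ∪ Kc true r) ∪ (ann ρ' R ∪ Jc true R ∪ Kc true ρ'))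
    (D₀ := (ann r ρ ∪ Jc false ρ ∪ Kc false r) ∪ (ann ρ' R ∪ Jc false R ∪ Kc false ρ'))
    (by
      intro v hv
      have hm := SE13_tG_mem hρ h1 ((Set.Finite.mem_toFinset hT).1 hv)
      exact hG v hm.1 hm.2.1)
    (by
      intro v hv
      have hm := SE13_tG_mem hρ h1 ((Set.Finite.mem_toFinset hU).1 hv)
      exact hG v hm.1 hm.2.1)
    (by
      rw [Finset.disjoint_left]
      intro v hv hv'
      exact (SE13_tG_mem hρ h1 ((Set.Finite.mem_toFinset hT).1 hv)).2.2.2.2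
        ((Set.Finite.mem_toFinset hU).1 hv'))
    (SE13_mon_and (Lat.Pairs.mon L true r ρ) (Lat.Pairs.mon L true ρ' R))
    (SE13_mon_and (Lat.Pairs.mon L false r ρ) (Lat.Pairs.mon L false ρ' R))
    (SE13_dep_and (Lat.Pairs.dep L true r ρ) (Lat.Pairs.dep L true ρ' R))
    (SE13_dep_and (Lat.Pairs.dep L false r ρ) (Lat.Pairs.dep L false ρ' R))
    (by
      intro v hv
      exact hkey true v ((Set.Finite.mem_toFinset hT).1 hv))
    (by
      intro v hv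
      exact hkey false v ((Set.Finite.mem_toFinset hU).1 hv))
    (Lat.HkG_mon L true ρ ρ')
    (by rw [Set.Finite.coe_toFinset]; exact Lat.HkG_dep L true (by omega))
    (Lat.HkG_mon L false ρ ρ')
    (by rw [Set.Finite.coe_toFinset]; exact Lat.HkG_dep L false (by omega))
    hp (Lat.HkG_pr hL true hρ h1 h2) (Lat.HkG_pr hL false hρ h1 h2)
    (by
      intro ω a b c d
      exact ⟨Lat.Pairs_glue hρ hr h0 h1 h3 a.1 a.2 c, Lat.Pairs_glue hρ hr h0 h1 h3 b.1 b.2 d⟩)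
    ω
  have e1 : (fun ω => L.S4 r ρ ω ∧ L.S4 ρ' R ω) = fun ω =>
      (L.Pairs true r ρ ω ∧ L.Pairs true ρ' R ω) ∧ (L.Pairs false r ρ ω ∧ L.Pairs false ρ' R ω) := by
    funext ω
    exact propext ⟨fun h => ⟨⟨h.1.1, h.2.1⟩, ⟨h.1.2, h.2.2⟩⟩,
      fun h => ⟨⟨h.1.1, h.2.1⟩, ⟨h.1.2, h.2.2⟩⟩⟩
  rw [e1]
  calc κ 2000 ^ 12 * cpr G (fun ω => (L.Pairs true r ρ ω ∧ L.Pairs true ρ' R ω) ∧
        (L.Pairs false r ρ ω ∧ L.Pairs false ρ' R ω)) ω
      = (κ 2000 ^ 6) ^ 2 * cpr G (fun ω => (L.Pairs true r ρ ω ∧ L.Pairs true ρ' R ω) ∧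
        (L.Pairs false r ρ ω ∧ L.Pairs false ρ' R ω)) ω := by rw [← pow_mul]
    _ ≤ _ := key

end SC

end

/-! ### from `Lib_MP_e0a489.SE14` -/

section

/-!
# MP_e0a489, module SE 14: two-time extension and gluing

`pr2_of_cpr` turns the pointwise inequalities of SE 13 into inequalities for `pr2`, if the correlation vanishes on `G`;
then `pr2_mono_k`.
-/

set_option autoImplicit false

namespace SC

open Classical

/-- correlation `0` outside `bx (R / 4)` -/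
noncomputable def ko (k : Pt → ℝ) (R : ℤ) : Pt → ℝ := fun v => if R / 4 < nrm v then 0 else k v

theorem ko_kap {k : Pt → ℝ} (hk : Kap k) (R : ℤ) : Kap (ko k R) := by
  intro v
  unfold ko
  split_ifs
  · exact ⟨le_refl _, zero_le_one⟩
  · exact hk v

theorem kz_kap {k : Pt → ℝ} (hk : Kap k) (r R : ℤ) : Kap (kz k r R) := by
  intro v
  unfold kz
  split_ifs
  · exact ⟨le_refl _, zero_le_one⟩
  · exact hk v

theorem ko_le {k : Pt → ℝ} (hk : Kap k) {R R' : ℤ} (h : R ≤ R') (v : Pt) :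
    ko k R v ≤ ko k R' v := by
  unfold ko
  split_ifs with h1 h2
  · exact le_refl _
  · exact (hk v).1
  · exfalso
    apply h1
    omega
  · exact le_refl _

theorem kz_le {k : Pt → ℝ} (hk : Kap k) {r R r' R' : ℤ} (h : r' ≤ r) (h' : R ≤ R') (v : Pt) :
    kz k r R v ≤ kz k r' R' v := by
  unfold kz
  split_ifs with h1 h2
  · exact le_refl _
  · exact (hk v).1
  · exfalso
    apply h1
    omega
  · exact le_refl _

theorem kz_le_self {k : Pt → ℝ} (hk : Kap k) (r R : ℤ) (v : Pt) : kz k r R v ≤ k v := by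
  unfold kz
  split_ifs
  · exact (hk v).1
  · exact le_refl _

/-- `kz (kz k r R) r' R' ≤ kz k r' R'` -/
theorem kz_kz_le {k : Pt → ℝ} (hk : Kap k) (r R r' R' : ℤ) (v : Pt) :
    kz (kz k r R) r' R' v ≤ kz k r' R' v := by
  by_cases h : nrm v ≤ 8 * r' ∨ R' / 4 < nrm v
  · have e1 : kz (kz k r R) r' R' v = 0 := if_pos h
    have e2 : kz k r' R' v = 0 := if_pos h
    rw [e1, e2]
  · have e1 : kz (kz k r R) r' R' v = kz k r R v := if_neg h
    have e2 : kz k r' R' v = k v := if_neg h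
    rw [e1, e2]
    exact kz_le_self hk r R v

private theorem pr2_lift {A B : Cfg → Prop} (hA : Loc A) (hB : Loc B) {G : Finset Pt}
    {k k' : Pt → ℝ} (hk : Kap k) (hG : ∀ v ∈ G, k v = 0) (hkk : ∀ v, k v ≤ k' v) {c : ℝ}
    (hc : 0 < c) (h : ∀ ω, c * cpr G A ω ≤ cpr G B ω) : c ^ 2 * pr2 k A ≤ pr2 k' B := by
  have h1 : pr2 k A ≤ c⁻¹ ^ 2 * pr2 k B := by
    refine pr2_of_cpr hA hB hk hG (le_of_lt (inv_pos.mpr hc)) fun ω => ?_
    rw [inv_mul_eq_div, le_div_iff₀ hc, mul_comm]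
    exact h ω
  have h2 : pr2 k B ≤ pr2 k' B := pr2_mono_k hB (fun v => (hk v).1) hkk
  have h3 : c ^ 2 * pr2 k A ≤ c ^ 2 * (c⁻¹ ^ 2 * pr2 k B) :=
    mul_le_mul_of_nonneg_left h1 (le_of_lt (pow_pos hc 2))
  have h4 : c ^ 2 * (c⁻¹ ^ 2 * pr2 k B) = pr2 k B := by
    rw [← mul_assoc, ← mul_pow, mul_inv_cancel₀ (ne_of_gt hc), one_pow, one_mul]
  rw [h4] at h3
  exact le_trans h3 h2

/-- `out_pt` with `G = {R < nrm v ≤ 2 R'}` (`exists_annF`), where `ko k R = 0`; `ko k R ≤ ko k R'`. -/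
theorem out2 {L : Lat} {κ : ℕ → ℝ} (hL : RSW L κ) {k : Pt → ℝ} (hk : Kap k) {r R R' : ℤ}
    (hR : 16 ≤ R) (hr : 0 ≤ r) (hrR : r ≤ R) (h1 : R ≤ R') (h2 : R' ≤ 64 * R) :
    κ 2000 ^ 16 * pr2 (ko k R) (L.Sout r R) ≤ pr2 (ko k R') (L.Sout r R') := by
  obtain ⟨G, hG⟩ := exists_annF R (2 * R')
  have hc : 0 < κ 2000 ^ 8 := pow_pos (hL.pos 2000) 8
  have h := pr2_lift (A := L.Sout r R) (B := L.Sout r R') (G := G) (k := ko k R)
    (k' := ko k R') (Lat.Sout.loc L r R) (Lat.Sout.loc L r R') (ko_kap hk R)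
    (fun v hv => by
      have h0 := (hG v).1 hv
      have h3 : R / 4 < nrm v := by omega
      exact if_pos h3)
    (fun v => ko_le hk h1 v) hc
    (fun ω => out_pt hL hR hr hrR h1 h2 (fun v ha hb => (hG v).2 ⟨ha, hb⟩) ω)
  have e : (κ 2000 ^ 8) ^ 2 = κ 2000 ^ 16 := by rw [← pow_mul]
  rw [e] at h
  exact h

/-- `outS_pt`, same proof with `kz k r R ≤ kz k r R'`. -/
theorem outS2 {L : Lat} {κ : ℕ → ℝ} (hL : RSW L κ) {k : Pt → ℝ} (hk : Kap k) {r R R' : ℤ}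
    (hR : 16 ≤ R) (hr : 0 ≤ r) (hrR : r ≤ R) (h1 : R ≤ R') (h2 : R' ≤ 64 * R) :
    κ 2000 ^ 16 * pr2 (kz k r R) (L.S4 r R) ≤ pr2 (kz k r R') (L.S4 r R') := by
  obtain ⟨G, hG⟩ := exists_annF R (2 * R')
  have hc : 0 < κ 2000 ^ 8 := pow_pos (hL.pos 2000) 8
  have h := pr2_lift (A := L.S4 r R) (B := L.S4 r R') (G := G) (k := kz k r R)
    (k' := kz k r R') (Lat.S4.loc L r R) (Lat.S4.loc L r R') (kz_kap hk r R)
    (fun v hv => by
      have h0 := (hG v).1 hv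
      have h3 : nrm v ≤ 8 * r ∨ R / 4 < nrm v := Or.inr (by omega)
      exact if_pos h3)
    (fun v => kz_le hk (le_refl r) h1 v) hc
    (fun ω => outS_pt hL hR hr hrR h1 h2 (fun v ha hb => (hG v).2 ⟨ha, hb⟩) ω)
  have e : (κ 2000 ^ 8) ^ 2 = κ 2000 ^ 16 := by rw [← pow_mul]
  rw [e] at h
  exact h

/-- `inS_pt` with `G = {r'/2 < nrm v ≤ r}`, where `kz k r R = 0`; `kz k r R ≤ kz k r' R`. -/
theorem inS2 {L : Lat} {κ : ℕ → ℝ} (hL : RSW L κ) {k : Pt → ℝ} (hk : Kap k) {r R r' : ℤ}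
    (hr' : 16 ≤ r') (h1 : 2 * r' ≤ r) (h2 : r ≤ 64 * r') (hrR : r ≤ R) :
    κ 2000 ^ 16 * pr2 (kz k r R) (L.S4 r R) ≤ pr2 (kz k r' R) (L.S4 r' R) := by
  obtain ⟨G, hG⟩ := exists_annF (r' / 2) r
  have hc : 0 < κ 2000 ^ 8 := pow_pos (hL.pos 2000) 8
  have h := pr2_lift (A := L.S4 r R) (B := L.S4 r' R) (G := G) (k := kz k r R)
    (k' := kz k r' R) (Lat.S4.loc L r R) (Lat.S4.loc L r' R) (kz_kap hk r R)
    (fun v hv => by
      have h0 := (hG v).1 hv
      have h3 : nrm v ≤ 8 * r ∨ R / 4 < nrm v := Or.inl (by omega)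
      exact if_pos h3)
    (fun v => kz_le hk (by omega) (le_refl R) v) hc
    (fun ω => inS_pt hL hr' h1 h2 hrR (fun v ha hb => (hG v).2 ⟨ha, hb⟩) ω)
  have e : (κ 2000 ^ 8) ^ 2 = κ 2000 ^ 16 := by rw [← pow_mul]
  rw [e] at h
  exact h

/-- Let `k₁ v = kz k r ρ v` if `nrm v ≤ 2 ρ` and `kz k ρ' R v` otherwise.  `S4 r ρ` depends on `{r/2 < nrm v ≤ 2ρ}`, `S4 ρ' R` on
`{ρ'/2 < nrm v ≤ 2R}` (`S4.dep`), `2ρ ≤ ρ'/2`; so (`pr2_congr`, `pr2_and`) the left side is `κ 2000 ^ 24 * pr2 k₁ (S4 r ρ ∧ S4 ρ' R)`.  `k₁ = 0` on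
`G = {ρ < nrm v ≤ ρ'}`: for `nrm v ≤ 2ρ` because `nrm v > ρ / 4`, for `nrm v > 2ρ` because `nrm v ≤ 8 ρ'`.  `glue_pt`, `pr2_of_cpr`, and `k₁ ≤ kz k r R`. -/
theorem glueS2 {L : Lat} {κ : ℕ → ℝ} (hL : RSW L κ) {k : Pt → ℝ} (hk : Kap k) {r ρ ρ' R : ℤ}
    (hρ : 16 ≤ ρ) (hr : 0 ≤ r) (h0 : r ≤ ρ) (h1 : 8 * ρ ≤ ρ') (h2 : ρ' ≤ 64 * ρ) (h3 : ρ' ≤ R) :
    κ 2000 ^ 24 * (pr2 (kz k r ρ) (L.S4 r ρ) * pr2 (kz k ρ' R) (L.S4 ρ' R)) ≤
      pr2 (kz k r R) (L.S4 r R) := by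
  obtain ⟨G, hG⟩ := exists_annF ρ ρ'
  have hc : 0 < κ 2000 ^ 12 := pow_pos (hL.pos 2000) 12
  obtain ⟨k₁, hk₁⟩ : ∃ k₁ : Pt → ℝ, ∀ v, k₁ v = if nrm v ≤ 2 * ρ then kz k r ρ v
      else kz k ρ' R v := ⟨_, fun _ => rfl⟩
  have hk1 : Kap k₁ := by
    intro v
    rw [hk₁ v]
    split_ifs
    · exact kz_kap hk r ρ v
    · exact kz_kap hk ρ' R v
  have d1 : Dep (L.S4 r ρ) {v | r / 2 < nrm v ∧ nrm v ≤ 2 * ρ} := Lat.S4.dep L hr h0
  have d2 : Dep (L.S4 ρ' R) {v | ρ' / 2 < nrm v ∧ nrm v ≤ 2 * R} :=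
    Lat.S4.dep L (by omega) h3
  have e1 : pr2 (kz k r ρ) (L.S4 r ρ) = pr2 k₁ (L.S4 r ρ) := by
    refine pr2_congr (Lat.S4.loc L r ρ) d1 fun v hv => ?_
    rw [hk₁ v, if_pos hv.2]
  have e2 : pr2 (kz k ρ' R) (L.S4 ρ' R) = pr2 k₁ (L.S4 ρ' R) := by
    refine pr2_congr (Lat.S4.loc L ρ' R) d2 fun v hv => ?_
    have hv1 : ρ' / 2 < nrm v := hv.1
    have h5 : ¬ nrm v ≤ 2 * ρ := by omega
    rw [hk₁ v, if_neg h5]
  have e3 : pr2 k₁ (fun ω => L.S4 r ρ ω ∧ L.S4 ρ' R ω) =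
      pr2 k₁ (L.S4 r ρ) * pr2 k₁ (L.S4 ρ' R) := by
    refine pr2_and (Lat.S4.loc L r ρ) (Lat.S4.loc L ρ' R) d1 d2 (fun v hv hv' => ?_) k₁
    have hv1 : nrm v ≤ 2 * ρ := hv.2
    have hv2 : ρ' / 2 < nrm v := hv'.1
    omega
  have hloc : Loc (fun ω => L.S4 r ρ ω ∧ L.S4 ρ' R ω) := by
    obtain ⟨F₁, hF₁⟩ := Lat.S4.loc L r ρ
    obtain ⟨F₂, hF₂⟩ := Lat.S4.loc L ρ' R
    refine ⟨F₁ ∪ F₂, fun ω ω' h => ?_⟩
    have a1 := hF₁ ω ω' fun v hv => h v (by
      rw [Finset.mem_coe] at hv ⊢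
      exact Finset.mem_union_left _ hv)
    have a2 := hF₂ ω ω' fun v hv => h v (by
      rw [Finset.mem_coe] at hv ⊢
      exact Finset.mem_union_right _ hv)
    show (L.S4 r ρ ω ∧ L.S4 ρ' R ω) = (L.S4 r ρ ω' ∧ L.S4 ρ' R ω')
    rw [a1, a2]
  have h := pr2_lift (A := fun ω => L.S4 r ρ ω ∧ L.S4 ρ' R ω) (B := L.S4 r R) (G := G)
    (k := k₁) (k' := kz k r R) hloc (Lat.S4.loc L r R) hk1
    (fun v hv => by
      have h4 := (hG v).1 hv
      rw [hk₁ v]
      split_ifs with h5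
      · have h6 : nrm v ≤ 8 * r ∨ ρ / 4 < nrm v := Or.inr (by omega)
        exact if_pos h6
      · have h6 : nrm v ≤ 8 * ρ' ∨ R / 4 < nrm v := Or.inl (by omega)
        exact if_pos h6)
    (fun v => by
      rw [hk₁ v]
      split_ifs with h5
      · exact kz_le hk (le_refl r) (by omega) v
      · exact kz_le hk (by omega) (le_refl R) v) hc
    (fun ω => glue_pt hL hρ hr h0 h1 h2 h3 (fun v ha hb => (hG v).2 ⟨ha, hb⟩) ω)
  have e : (κ 2000 ^ 12) ^ 2 = κ 2000 ^ 24 := by rw [← pow_mul]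
  rw [e, e3, ← e1, ← e2] at h
  exact h

end SC

end

/-! ### from `Lib_MP_e0a489.SE25` -/

section

/-!
# MP_e0a489, module SE 25: from the separated event to the box event
-/

set_option autoImplicit false

namespace SC

open Classical

/-- distance of the side number `s` of `rect a b p q` from the origin (right, top, left, bottom) -/
def sdist (a b p q s : ℤ) : ℤ :=
  if s % 4 = 0 then b else if s % 4 = 1 then q else if s % 4 = 2 then -a else -p

private theorem se25_mon_and {c : Bool} {A B : Cfg → Prop} (hA : MonC c A) (hB : MonC c B) :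
    MonC c (fun ω => A ω ∧ B ω) := by
  cases c
  · have hA' : Dec A := by simpa [MonC] using hA
    have hB' : Dec B := by simpa [MonC] using hB
    have : Dec (fun ω => A ω ∧ B ω) := fun ω ω' h hh => ⟨hA' ω ω' h hh.1, hB' ω ω' h hh.2⟩
    simpa [MonC] using this
  · have hA' : Inc A := by simpa [MonC] using hA
    have hB' : Inc B := by simpa [MonC] using hB
    have : Inc (fun ω => A ω ∧ B ω) := fun ω ω' h hh => ⟨hA' ω ω' h hh.1, hB' ω ω' h hh.2⟩
    simpa [MonC] using this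

private theorem se25_mon_or {c : Bool} {A B : Cfg → Prop} (hA : MonC c A) (hB : MonC c B) :
    MonC c (fun ω => A ω ∨ B ω) := by
  cases c
  · have hA' : Dec A := by simpa [MonC] using hA
    have hB' : Dec B := by simpa [MonC] using hB
    have : Dec (fun ω => A ω ∨ B ω) := fun ω ω' h hh =>
      hh.elim (fun k => Or.inl (hA' ω ω' h k)) (fun k => Or.inr (hB' ω ω' h k))
    simpa [MonC] using this
  · have hA' : Inc A := by simpa [MonC] using hA
    have hB' : Inc B := by simpa [MonC] using hB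
    have : Inc (fun ω => A ω ∨ B ω) := fun ω ω' h hh =>
      hh.elim (fun k => Or.inl (hA' ω ω' h k)) (fun k => Or.inr (hB' ω ω' h k))
    simpa [MonC] using this

private theorem se25_tO_finite (c : Bool) (R : ℤ) (b : ℤ → ℤ) : (tO c R b).Finite := by
  refine ((Zn_finite (dc c) (R + 1) (b (dc c)) (R / 4)).union
    (Zn_finite (dc c + 2) (R + 1) (b (dc c + 2)) (R / 4))).subset ?_
  rintro v ⟨s, hs | hs, hv⟩
  · subst hs; exact Or.inl hv
  · subst hs; exact Or.inr hv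

private theorem se25_dir {c c' : Bool} (hc : c ≠ c') {s s' : ℤ} (hs : s = dc c ∨ s = dc c + 2)
    (hs' : s' = dc c' ∨ s' = dc c' + 2) : s % 4 ≠ s' % 4 := by
  cases c <;> cases c' <;> simp_all [dc] <;> omega

private theorem se25_Jc {c : Bool} {R : ℤ} {v : Pt} (hv : v ∈ Jc c R) :
    ∃ s, (s = dc c ∨ s = dc c + 2) ∧ v ∈ Zn s (R + 1) (2 * R) (R / 4) := by
  rcases hv with hv | hv
  · exact ⟨dc c, Or.inl rfl, hv⟩
  · exact ⟨dc c + 2, Or.inr rfl, hv⟩

/-- sites of the territory -/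
private theorem se25_tO_mem {c : Bool} {R : ℤ} {b : ℤ → ℤ} (hR : 16 ≤ R)
    (hb : ∀ s, b s ≤ 64 * R) {v : Pt} (hv : v ∈ tO c R b) :
    R < nrm v ∧ nrm v ≤ 64 * R ∧ v ∉ Jc (!c) R ∧ v ∉ tO (!c) R b := by
  obtain ⟨s, hs, hv⟩ := hv
  have h := Zn_nrm (by omega) (by omega) hv
  have h' := hb s
  refine ⟨by omega, by omega, fun hJ => ?_, fun hJ => ?_⟩
  · obtain ⟨s', hs', hJ⟩ := se25_Jc hJ
    exact Zn_disj (se25_dir (by cases c <;> simp) hs hs') (by omega) (by omega)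
      (Or.inl (by omega)) hv hJ
  · obtain ⟨s', hs', hJ⟩ := hJ
    exact Zn_disj (se25_dir (by cases c <;> simp) hs hs') (by omega) (by omega)
      (Or.inl (by omega)) hv hJ

private theorem se25_sdist_ge {R a b p q : ℤ} (ha : 2 * R ≤ -a) (hb : 2 * R ≤ b)
    (hp : 2 * R ≤ -p) (hq : 2 * R ≤ q) (s : ℤ) : 2 * R ≤ sdist a b p q s := by
  unfold sdist
  split_ifs <;> assumption

private theorem se25_sdist_le {R a b p q : ℤ} (ha : -a ≤ 64 * R) (hb : b ≤ 64 * R)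
    (hp : -p ≤ 64 * R) (hq : q ≤ 64 * R) (s : ℤ) : sdist a b p q s ≤ 64 * R := by
  unfold sdist
  split_ifs <;> assumption

private theorem se25_nrm_le {v : Pt} {R : ℤ} : nrm v ≤ R ↔ (-R ≤ v.1 ∧ v.1 ≤ R) ∧ -R ≤ v.2 ∧ v.2 ≤ R := by
  unfold nrm
  rw [max_le_iff, abs_le, abs_le]

/-- a site of norm `≤ 2R` is in the rectangle -/
private theorem se25_rect {R a b p q : ℤ} (ha : 2 * R ≤ -a) (hb : 2 * R ≤ b)
    (hp : 2 * R ≤ -p) (hq : 2 * R ≤ q) {v : Pt} (hv : nrm v ≤ 2 * R) : v ∈ rect a b p q := by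
  rw [se25_nrm_le] at hv
  obtain ⟨⟨h1, h2⟩, h3, h4⟩ := hv
  exact ⟨⟨by omega, by omega⟩, by omega, by omega⟩

/-- the strips are in the rectangle and outside `bx R` -/
private theorem se25_strip {c : Bool} {s R a b p q : ℤ} (hs : s = dc c ∨ s = dc c + 2)
    (hR : 16 ≤ R) (ha : 2 * R ≤ -a) (hb : 2 * R ≤ b) (hp : 2 * R ≤ -p) (hq : 2 * R ≤ q)
    {v : Pt} (hv : v ∈ Zn s (R + 1) (sdist a b p q s) (R / 4)) : v ∈ rect a b p q := by
  have key : ∀ s' : ℤ, s = s' → v ∈ Zn s' (R + 1) (sdist a b p q s') (R / 4) := by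
    intro s' h; subst h; exact hv
  rcases hs with hs | hs <;> cases c
  · have h := mem_Zn1.1 (key 1 hs)
    simp only [sdist] at h
    norm_num at h
    exact ⟨⟨by omega, by omega⟩, by omega, by omega⟩
  · have h := mem_Zn0.1 (key 0 hs)
    simp only [sdist] at h
    norm_num at h
    exact ⟨⟨by omega, by omega⟩, by omega, by omega⟩
  · have h := mem_Zn3.1 (key 3 hs)
    simp only [sdist] at h
    norm_num at h
    exact ⟨⟨by omega, by omega⟩, by omega, by omega⟩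
  · have h := mem_Zn2.1 (key 2 hs)
    simp only [sdist] at h
    norm_num at h
    exact ⟨⟨by omega, by omega⟩, by omega, by omega⟩

/-- the far side of the strip in the direction `dc c` -/
private theorem se25_sdp {c : Bool} {a b p q w : ℤ} :
    Zn (dc c) (sdist a b p q (dc c)) (sdist a b p q (dc c)) w ⊆ sdp c b q := by
  intro v hv
  cases c
  · have h := mem_Zn1.1 (show v ∈ Zn 1 (sdist a b p q 1) (sdist a b p q 1) w from hv)
    simp only [sdist] at h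
    norm_num at h
    show v.2 = q
    omega
  · have h := mem_Zn0.1 (show v ∈ Zn 0 (sdist a b p q 0) (sdist a b p q 0) w from hv)
    simp only [sdist] at h
    norm_num at h
    show v.1 = b
    omega

private theorem se25_sdm {c : Bool} {a b p q w : ℤ} :
    Zn (dc c + 2) (sdist a b p q (dc c + 2)) (sdist a b p q (dc c + 2)) w ⊆ sdm c a p := by
  intro v hv
  cases c
  · have h := mem_Zn3.1 (show v ∈ Zn 3 (sdist a b p q 3) (sdist a b p q 3) w from hv)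
    simp only [sdist] at h
    norm_num at h
    show v.2 = p
    omega
  · have h := mem_Zn2.1 (show v ∈ Zn 2 (sdist a b p q 2) (sdist a b p q 2) w from hv)
    simp only [sdist] at h
    norm_num at h
    show v.1 = a
    omega

private theorem se25_KcR {c : Bool} {r R : ℤ} (hr : 0 ≤ r) (hrR : r ≤ R) : Kc c r ⊆ bx R := by
  intro v hv
  exact le_trans (Kc_nrm hr hv).2 hrR

namespace Lat

theorem SQ.dep (L : Lat) (c : Bool) (r a b p q : ℤ) :
    Dep (L.SQ c r a b p q) (rect a b p q \ bx r ∪ Kc c r) := by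
  intro ω ω' h
  have h1 := Arm.dep L c (rect a b p q \ bx r ∪ Kc c r) (Ks (dc c) r) (sdp c b q) ω ω' h
  have h2 := Arm.dep L c (rect a b p q \ bx r ∪ Kc c r) (Ks (dc c + 2) r) (sdm c a p) ω ω' h
  have h3 := Arm.dep L c (rect a b p q \ bx r ∪ Kc c r) (Ks (dc c) r) (sdm c a p) ω ω' h
  have h4 := Arm.dep L c (rect a b p q \ bx r ∪ Kc c r) (Ks (dc c + 2) r) (sdp c b q) ω ω' h
  unfold SQ
  rw [h1, h2, h3, h4]

theorem SQ.loc (L : Lat) (c : Bool) (r a b p q : ℤ) : Loc (L.SQ c r a b p q) := by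
  have hfin : (rect a b p q \ bx r ∪ Kc c r).Finite := by
    refine Set.Finite.union ?_ ?_
    · refine Set.Finite.subset
        (Finset.finite_toSet (Finset.Icc a b ×ˢ Finset.Icc p q)) ?_
      rintro v ⟨⟨h1, h2⟩, -⟩
      rw [Finset.mem_coe, Finset.mem_product, Finset.mem_Icc, Finset.mem_Icc]
      exact ⟨h1, h2⟩
    · exact (Zn_finite (dc c) (r / 2 + 1) r (r / 8)).union
        (Zn_finite (dc c + 2) (r / 2 + 1) r (r / 8))
  refine ⟨hfin.toFinset, ?_⟩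
  rw [Set.Finite.coe_toFinset]
  exact SQ.dep L c r a b p q

theorem SQ.mon (L : Lat) (c : Bool) (r a b p q : ℤ) : MonC c (L.SQ c r a b p q) :=
  se25_mon_or (se25_mon_and (Arm.mon L c _ _ _) (Arm.mon L c _ _ _))
    (se25_mon_and (Arm.mon L c _ _ _) (Arm.mon L c _ _ _))

private theorem se25_Ks {L : Lat} {s r R : ℤ} (hr : 0 ≤ r) (hrR : r ≤ R) (hR : 16 ≤ R) :
    Ks s r ⊆ bx R ∪ L.nb (bx R) := by
  intro v hv
  have h := Zn_nrm (show r / 8 ≤ r / 2 + 1 by omega) (show 0 ≤ r / 8 by omega) hv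
  left
  show nrm v ≤ R
  omega

private theorem se25_out {L : Lat} {c : Bool} {ω : Cfg} {s s₀ r R a b p q : ℤ}
    (hs : s = dc c ∨ s = dc c + 2) (hR : 16 ≤ R) (hr : 16 ≤ r) (hrR : r ≤ R)
    (ha : 2 * R ≤ -a) (hb : 2 * R ≤ b) (hp : 2 * R ≤ -p) (hq : 2 * R ≤ q)
    (h : L.Arm c (ann r R ∪ Jc c R ∪ Kc c r) (Ks s₀ r) (Je s R) ω)
    (hk : L.HkO c R (sdist a b p q) ω) :
    L.Arm c (rect a b p q \ bx r ∪ Kc c r) (Ks s₀ r)
      (Zn s (sdist a b p q s) (sdist a b p q s) (R / 4)) ω := by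
  obtain ⟨k1, k2⟩ := hk s hs
  have hD : ann r R ∪ Kc c r ⊆ bx R := by
    rintro v (hv | hv)
    · exact hv.2
    · exact se25_KcR (by omega) hrR hv
  have h' : L.Arm c (ann r R ∪ Kc c r ∪ Jc c R) (Ks s₀ r) (Je s R) ω := by
    refine h.mono ?_ subset_rfl subset_rfl
    rintro v ((hv | hv) | hv)
    · exact Or.inl (Or.inl hv)
    · exact Or.inr hv
    · exact Or.inl (Or.inr hv)
  have key := arm_out hs hR (se25_sdist_ge ha hb hp hq s) hD (se25_Ks (by omega) hrR hR) h' k1 k2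
  refine key.mono ?_ subset_rfl subset_rfl
  rintro v (((hv | hv) | hv) | hv)
  · refine Or.inl ⟨se25_rect ha hb hp hq (by have := hv.2; omega), fun hh => ?_⟩
    have h1 : nrm v ≤ r := hh
    have h2 := hv.1
    omega
  · exact Or.inr hv
  · have h3 := Jc_nrm (show (0 : ℤ) ≤ R by omega) hv
    refine Or.inl ⟨se25_rect ha hb hp hq h3.2, fun hh => ?_⟩
    have h1 : nrm v ≤ r := hh
    omega
  · have h3 := Zn_nrm (show R / 4 ≤ R + 1 by omega) (show 0 ≤ R / 4 by omega) hv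
    refine Or.inl ⟨se25_strip hs hR ha hb hp hq hv, fun hh => ?_⟩
    have h1 : nrm v ≤ r := hh
    omega

/-- `arm_out` (with `D = ann r R ∪ Kc c r`) for both directions; `ann r R ∪ Jc c R` and the strips are contained in
`rect a b p q \ bx r`; the far side of the strip in direction `s` is contained in the side `s` of the rectangle.  The
pairing is kept. -/
theorem Pairs_SQ {L : Lat} {c : Bool} {ω : Cfg} {r R a b p q : ℤ} (hR : 16 ≤ R) (hr : 16 ≤ r)
    (hrR : r ≤ R) (ha : 2 * R ≤ -a) (hb : 2 * R ≤ b) (hp : 2 * R ≤ -p) (hq : 2 * R ≤ q)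
    (h : L.Pairs c r R ω) (hk : L.HkO c R (sdist a b p q) ω) : L.SQ c r a b p q ω := by
  have kp : ∀ s₀, L.Arm c (ann r R ∪ Jc c R ∪ Kc c r) (Ks s₀ r) (Je (dc c) R) ω →
      L.Arm c (rect a b p q \ bx r ∪ Kc c r) (Ks s₀ r) (sdp c b q) ω := fun s₀ h3 =>
    (se25_out (Or.inl rfl) hR hr hrR ha hb hp hq h3 hk).mono subset_rfl subset_rfl se25_sdp
  have km : ∀ s₀, L.Arm c (ann r R ∪ Jc c R ∪ Kc c r) (Ks s₀ r) (Je (dc c + 2) R) ω →
      L.Arm c (rect a b p q \ bx r ∪ Kc c r) (Ks s₀ r) (sdm c a p) ω := fun s₀ h3 =>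
    (se25_out (Or.inr rfl) hR hr hrR ha hb hp hq h3 hk).mono subset_rfl subset_rfl se25_sdm
  rcases h with ⟨h3, h4⟩ | ⟨h3, h4⟩
  · exact Or.inl ⟨kp _ h3, km _ h4⟩
  · exact Or.inr ⟨km _ h3, kp _ h4⟩

end Lat

/-- `cpr_terr` with the strips `HkO c R (sdist a b p q)`; as `outS_pt`. -/
theorem sq_pt {L : Lat} {κ : ℕ → ℝ} (hL : RSW L κ) {r R a b p q : ℤ} (hr : 16 ≤ r) (hrR : r ≤ R)
    (ha : 2 * R ≤ -a) (ha' : -a ≤ 64 * R) (hb : 2 * R ≤ b) (hb' : b ≤ 64 * R) (hp : 2 * R ≤ -p)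
    (hp' : -p ≤ 64 * R) (hq : 2 * R ≤ q) (hq' : q ≤ 64 * R) {G : Finset Pt}
    (hG : ∀ v, R < nrm v → nrm v ≤ 64 * R → v ∈ G) (ω : Cfg) :
    κ 2000 ^ 8 * cpr G (L.S4 r R) ω ≤
      cpr G (fun ω => L.SQ true r a b p q ω ∧ L.SQ false r a b p q ω) ω := by
  have hR : 16 ≤ R := by omega
  have hr0 : 0 ≤ r := by omega
  have hge := se25_sdist_ge ha hb hp hq
  have hle := se25_sdist_le ha' hb' hp' hq'
  have hle' : ∀ s, sdist a b p q s ≤ 128 * R := fun s => by have := hle s; omega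
  have hT := se25_tO_finite true R (sdist a b p q)
  have hU := se25_tO_finite false R (sdist a b p q)
  have hp0 : (0 : ℝ) ≤ κ 2000 ^ 4 := pow_nonneg (hL.pos _).le _
  have key := cpr_terr (G := G) (T := hT.toFinset) (U := hU.toFinset)
    (E₁ := L.Pairs true r R) (E₀ := L.Pairs false r R)
    (E' := fun ω => L.SQ true r a b p q ω ∧ L.SQ false r a b p q ω)
    (A := L.HkO true R (sdist a b p q)) (B := L.HkO false R (sdist a b p q))
    (D₁ := ann r R ∪ Jc true R ∪ Kc true r) (D₀ := ann r R ∪ Jc false R ∪ Kc false r)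
    (by
      intro v hv
      have hm := se25_tO_mem hR hle ((Set.Finite.mem_toFinset hT).1 hv)
      exact hG v hm.1 hm.2.1)
    (by
      intro v hv
      have hm := se25_tO_mem hR hle ((Set.Finite.mem_toFinset hU).1 hv)
      exact hG v hm.1 hm.2.1)
    (by
      rw [Finset.disjoint_left]
      intro v hv hv'
      exact (se25_tO_mem hR hle ((Set.Finite.mem_toFinset hT).1 hv)).2.2.2
        ((Set.Finite.mem_toFinset hU).1 hv'))
    (Lat.Pairs.mon L true r R) (Lat.Pairs.mon L false r R) (Lat.Pairs.dep L true r R)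
    (Lat.Pairs.dep L false r R)
    (by
      intro v hv hh
      have hm := se25_tO_mem hR hle ((Set.Finite.mem_toFinset hT).1 hv)
      have hm1 := hm.1
      rcases hh with (hh | hh) | hh
      · have := hh.2
        omega
      · exact hm.2.2.1 hh
      · have := (Kc_nrm hr0 hh).2
        omega)
    (by
      intro v hv hh
      have hm := se25_tO_mem hR hle ((Set.Finite.mem_toFinset hU).1 hv)
      have hm1 := hm.1
      rcases hh with (hh | hh) | hh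
      · have := hh.2
        omega
      · exact hm.2.2.1 hh
      · have := (Kc_nrm hr0 hh).2
        omega)
    (Lat.HkO_mon L true R _)
    (by rw [Set.Finite.coe_toFinset]; exact Lat.HkO_dep L true hge)
    (Lat.HkO_mon L false R _)
    (by rw [Set.Finite.coe_toFinset]; exact Lat.HkO_dep L false hge)
    hp0 (Lat.HkO_pr hL true hR hge hle') (Lat.HkO_pr hL false hR hge hle')
    (by
      intro ω a1 b1 c1 d1
      exact ⟨Lat.Pairs_SQ hR hr hrR ha hb hp hq a1 c1, Lat.Pairs_SQ hR hr hrR ha hb hp hq b1 d1⟩)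
    ω
  calc κ 2000 ^ 8 * cpr G (L.S4 r R) ω
      = (κ 2000 ^ 4) ^ 2 * cpr G (fun ω => L.Pairs true r R ω ∧ L.Pairs false r R ω) ω := by
        rw [← pow_mul]; rfl
    _ ≤ _ := key

/-- `sq_pt` with `G = {R < nrm v ≤ 64 R}` and `pr2_of_cpr` (`kz k r R = 0` on `G`); `C = (κ 2000 ^ 16)⁻¹` (if `κ 2000 ≤ 0` there is no `L`),
`R₀ = 16`. -/
theorem sq2_x (κ : ℕ → ℝ) : ∃ (C : ℝ) (R₀ : ℤ), 0 < C ∧ 16 ≤ R₀ ∧ ∀ L : Lat, RSW L κ →
    ∀ k : Pt → ℝ, (∀ v, 0 ≤ k v ∧ k v ≤ 1) → ∀ r R a b p q : ℤ, R₀ ≤ r → r ≤ R →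
      2 * R ≤ -a → -a ≤ 64 * R → 2 * R ≤ b → b ≤ 64 * R → 2 * R ≤ -p → -p ≤ 64 * R →
      2 * R ≤ q → q ≤ 64 * R →
      pr2 (kz k r R) (L.S4 r R) ≤
        C * pr2 (kz k r R) (fun ω => L.SQ true r a b p q ω ∧ L.SQ false r a b p q ω) := by
  by_cases hκ : 0 < κ 2000
  · have hc : 0 < κ 2000 ^ 8 := pow_pos hκ 8
    refine ⟨(κ 2000 ^ 8)⁻¹ ^ 2, 16, pow_pos (inv_pos.mpr hc) 2, le_refl _, ?_⟩
    intro L hL k hk r R a b p q hr hrR ha ha' hb hb' hp hp' hq hq'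
    obtain ⟨G, hG⟩ := exists_annF R (64 * R)
    have hloc : Loc (fun ω => L.SQ true r a b p q ω ∧ L.SQ false r a b p q ω) := by
      obtain ⟨F₁, hF₁⟩ := Lat.SQ.loc L true r a b p q
      obtain ⟨F₂, hF₂⟩ := Lat.SQ.loc L false r a b p q
      refine ⟨F₁ ∪ F₂, fun ω ω' h => ?_⟩
      have a1 := hF₁ ω ω' fun v hv => h v (by
        rw [Finset.mem_coe] at hv ⊢
        exact Finset.mem_union_left _ hv)
      have a2 := hF₂ ω ω' fun v hv => h v (by
        rw [Finset.mem_coe] at hv ⊢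
        exact Finset.mem_union_right _ hv)
      show (L.SQ true r a b p q ω ∧ L.SQ false r a b p q ω) =
        (L.SQ true r a b p q ω' ∧ L.SQ false r a b p q ω')
      rw [a1, a2]
    refine pr2_of_cpr (Lat.S4.loc L r R) hloc (kz_kap hk r R) (G := G) (fun v hv => ?_)
      (le_of_lt (inv_pos.mpr hc)) fun ω => ?_
    · have h0 := (hG v).1 hv
      have h3 : nrm v ≤ 8 * r ∨ R / 4 < nrm v := Or.inr (by omega)
      exact if_pos h3
    · rw [inv_mul_eq_div, le_div_iff₀ hc, mul_comm]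
      exact sq_pt hL hr hrR ha ha' hb hb' hp hp' hq hq' (fun v h1 h2 => (hG v).2 ⟨h1, h2⟩) ω
  · refine ⟨1, 16, one_pos, le_refl _, ?_⟩
    intro L hL
    exact absurd (hL.pos 2000) hκ

end SC

end

/-! ### from `Lib_MP_e0a489.FI2` -/

section

/-!
# MP_e0a489, module FI 2: duality for the crossing of the domain
-/

set_option autoImplicit false

namespace SC

open Classical

namespace Lat

variable {L : Lat} {N N' : ℤ} {E : Set Pt} {ω : Cfg}

theorem force_adj (L : Lat) (E : Set Pt) (u v : Pt) : (L.force E).Adj u v ↔ L.Adj u v := Iff.rfl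

theorem force_cn (L : Lat) (E A : Set Pt) (u v : Pt) : (L.force E).Cn A u v ↔ L.Cn A u v := Iff.rfl

/-- sites of `E` are open for `force`, the other sites keep their colour -/
theorem force_col (L : Lat) (E : Set Pt) (ω : Cfg) (v : Pt) :
    (v ∈ (L.force E).col true ω ↔ v ∈ E ∨ v ∈ L.col true ω) ∧
      (v ∈ (L.force E).col false ω ↔ v ∉ E ∧ v ∈ L.col false ω) := by
  have e : (L.force E).st ω v = if v ∈ E then true else L.st ω v := by
    unfold Lat.st Lat.force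
    by_cases hv : v ∈ E
    · simp [hv]
    · simp [hv]
  have h1 : ∀ c : Bool, v ∈ (L.force E).col c ω ↔ (if v ∈ E then true else L.st ω v) = c := by
    intro c
    show (L.force E).st ω v = c ↔ _
    rw [e]
  have h2 : ∀ c : Bool, v ∈ L.col c ω ↔ L.st ω v = c := fun c => Iff.rfl
  rw [h1, h1, h2, h2]
  by_cases hv : v ∈ E
  · simp [hv]
  · simp [hv]

/-- `Crs` is a crossing of the full rectangle in the lattice where the sites of `E` are open.
From left to right: the end `v` of the path has `v.1 = N`, or `(v.1 + 1, v.2) ∈ E`, then `v.1 + 1 = N` (`GoodE`) and we add the step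
to the open site `(N, v.2)` of the rectangle (`v ∈ rect`).  The path is in `dom ∩ col true ⊆ rect ∩ (force E).col true`.
From right to left: let `Cn (rect ∩ (force E).col true) u v`, `u.1 = -N`, `v.1 = N`; `u ∉ E` as `-N < N`.  If `v` is reached
in `S = Eᶜ` (that is `Cn (.. ∩ Eᶜ) u v`) we are done (`v ∈ rside`).  Otherwise consider the set `S = {z | Cn (.. ∩ Eᶜ) u z}`, `u ∈ S`, `v ∉ S`, and use
`Cn.exit`: `p ∈ S`, `Adj p q`, `q ∈ rect ∩ (force E).col true`, `q ∉ S`, so `q ∈ E`, `q.1 = N`, `p ∉ E`.  `|p.1 - N| ≤ 1` (`Adj.near`) and `p.1 ≤ N`: if `p.1 = N` then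
`p ∈ rside`; if `p.1 = N - 1` then `p.2 = q.2` (`GoodE`), `(p.1 + 1, p.2) = q ∈ E`, so `p ∈ rside`.  The path from `u` to `p`
is in `dom ∩ col true`. -/
theorem crs_iff (hN : 0 < N) (hE : GoodE L N E) (ω : Cfg) :
    L.Crs N N' E ω ↔ (L.force E).HX true (-N) N (-N') N' ω := by
  have hsub : dom N N' E ∩ L.col true ω ⊆ rect (-N) N (-N') N' ∩ (L.force E).col true ω := by
    rintro z ⟨⟨h1, h2⟩, h3⟩
    exact ⟨h1, (force_col L E ω z).1.2 (Or.inr h3)⟩
  constructor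
  · rintro ⟨u, hu, v, hv, huv⟩
    have h1 := huv.mono hsub
    rcases hv with hv | hv
    · exact ⟨u, v, hu, hv, h1⟩
    · have h2 : v.1 + 1 = N := (hE _ hv).1
      have hw : ((v.1 + 1, v.2) : Pt) ∈ rect (-N) N (-N') N' ∩ (L.force E).col true ω := by
        refine ⟨⟨⟨?_, ?_⟩, h1.right.1.2⟩, (force_col L E ω _).1.2 (Or.inl hv)⟩
        · show -N ≤ v.1 + 1
          linarith
        · show v.1 + 1 ≤ N
          linarith
      refine ⟨u, (v.1 + 1, v.2), hu, h2, ?_⟩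
      have h3 : L.Adj v (v.1 + 1, v.2) := Or.inl (Or.inl ⟨rfl, rfl⟩)
      exact h1.trans (Cn.of_adj h1.right hw h3)
  · rintro ⟨u, v, hu, hv, huv⟩
    have huv' : L.Cn (rect (-N) N (-N') N' ∩ (L.force E).col true ω) u v := huv
    have huE : u ∉ E := by
      intro h
      have := (hE u h).1
      linarith
    have hdom : (rect (-N) N (-N') N' ∩ (L.force E).col true ω) ∩ Eᶜ ⊆
        dom N N' E ∩ L.col true ω := by
      rintro z ⟨⟨h1, h2⟩, h3⟩
      refine ⟨⟨h1, h3⟩, ?_⟩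
      rcases (force_col L E ω z).1.1 h2 with h4 | h4
      · exact absurd h4 h3
      · exact h4
    by_cases hvS : L.Cn ((rect (-N) N (-N') N' ∩ (L.force E).col true ω) ∩ Eᶜ) u v
    · exact ⟨u, hu, v, Or.inl hv, hvS.mono hdom⟩
    · obtain ⟨p, q, hp, hpq, hq, hqS⟩ := huv'.exit
        (S := {z | L.Cn ((rect (-N) N (-N') N' ∩ (L.force E).col true ω) ∩ Eᶜ) u z})
        (Cn.refl ⟨huv'.left, huE⟩) hvS
      have hpS : L.Cn ((rect (-N) N (-N') N' ∩ (L.force E).col true ω) ∩ Eᶜ) u p := hp.right.2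
      have hqE : q ∈ E := by
        by_contra hqE
        exact hqS (hpS.trans (Cn.of_adj hpS.right ⟨hq, hqE⟩ hpq))
      obtain ⟨hqN, hq2⟩ := hE q hqE
      have hpN : p.1 ≤ N := hpS.right.1.1.1.2
      have hnear := (Adj.near hpq).1
      rw [abs_le] at hnear
      refine ⟨u, hu, p, ?_, hpS.mono hdom⟩
      rcases (by omega : p.1 = N ∨ p.1 = N - 1) with h | h
      · exact Or.inl h
      · right
        have h2 := hq2 p hpq h
        have h3 : ((p.1 + 1, p.2) : Pt) = q := by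
          apply Prod.ext
          · show p.1 + 1 = q.1
            linarith
          · exact h2
        rw [h3]
        exact hqE

/-- no crossing: closed path in the domain from the bottom to the top (`not_hx` for `force`, `crs_iff`; `rect ∩ (force E).col false = dom ∩ col false`) -/
theorem closed_of_not_crs (hN : 0 < N) (hN' : 0 < N') (hE : GoodE L N E) (h : ¬ L.Crs N N' E ω) :
    ∃ u ∈ {v : Pt | v.2 = -N'}, ∃ v ∈ {v : Pt | v.2 = N'},
      L.Cn (dom N N' E ∩ L.col false ω) u v := by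
  rw [crs_iff hN hE ω] at h
  have h1 := (not_hx (L := L.force E) (by linarith) (by linarith) true ω).1 h
  obtain ⟨u, v, hu, hv, huv⟩ := h1
  refine ⟨u, hu, v, hv, ?_⟩
  have huv' : L.Cn (rect (-N) N (-N') N' ∩ (L.force E).col false ω) u v := huv
  refine huv'.mono ?_
  rintro z ⟨h2, h3⟩
  obtain ⟨h4, h5⟩ := (force_col L E ω z).2.1 h3
  exact ⟨⟨h2, h4⟩, h5⟩

/-- `hex_not` for `force` -/
theorem not_closed_of_crs (hN : 0 < N) (hE : GoodE L N E) (h : L.Crs N N' E ω) :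
    ∀ u ∈ {v : Pt | v.2 = -N'}, ∀ v ∈ {v : Pt | v.2 = N'},
      ¬ L.Cn (dom N N' E ∩ L.col false ω) u v := by
  intro u hu v hv hc
  have h1 := (crs_iff hN hE ω).1 h
  refine hex_not (c := true) h1 ?_
  refine ⟨u, v, hu, hv, ?_⟩
  show L.Cn (rect (-N) N (-N') N' ∩ (L.force E).col false ω) u v
  refine hc.mono ?_
  rintro z ⟨⟨h2, h3⟩, h4⟩
  exact ⟨h2, (force_col L E ω z).2.2 ⟨h3, h4⟩⟩

/-- the crossing depends only on the domain (`Arm.dep`) -/
theorem Crs.dep (L : Lat) (N N' : ℤ) (E : Set Pt) : Dep (L.Crs N N' E) (dom N N' E) := by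
  exact Arm.dep L true (dom N N' E) {v | v.1 = -N} (rside N E)

end Lat

end SC

end
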