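import Mathlib
import Pool.Agent.Lib_MP_e0a489_m.G02
import Pool.Agent.Lib_MP_e0a489_m.G06
import Pool.Agent.Lib_MP_e0a489_m.G07
import Pool.Agent.Lib_MP_e0a489_m.G08
import Pool.Agent.Lib_MP_e0a489_m.G09
import Pool.Agent.Lib_MP_e0a489_m.G10
import Pool.Agent.Lib_MP_e0a489_m.G11

/-!
# MP_e0a489_pr: merged library part G14

Concatenation of library files (each in its own section), only to save build time.
-/

/-! ### from `Lib_MP_e0a489.IS2` -/

section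

/-!
# MP_e0a489, inner separation 2: inner blocks, exactness

`m = r + 1`; the blocks `ib w M s k` with `r = M w + w / 2` are inside `bx r`, next to the ring `m`.
-/

set_option autoImplicit false

namespace SC

open Classical

private theorem is2_lin (s : ℤ) (u v : Pt) : rt s (u + v) = rt s u + rt s v := by
  have h : ∀ n : ℤ, (n = 0 ∨ n = 1 ∨ n = 2 ∨ n = 3) → rt n (u + v) = rt n u + rt n v := by
    rintro n (rfl | rfl | rfl | rfl)
    · rw [rt_zero, rt_zero, rt_zero]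
    · rw [rt_one, rt_one, rt_one]
      ext
      · show -(u.2 + v.2) = -u.2 + -v.2
        ring
      · rfl
    · rw [rt_two, rt_two, rt_two]
      ext
      · show -(u.1 + v.1) = -u.1 + -v.1
        ring
      · show -(u.2 + v.2) = -u.2 + -v.2
        ring
    · rw [rt_three, rt_three, rt_three]
      ext
      · rfl
      · show -(u.1 + v.1) = -u.1 + -v.1
        ring
  have e : rt s = rt (s % 4) := rt_mod (by omega)
  rw [e]
  exact h _ (by omega)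

private theorem is2_sub (s : ℤ) (u v : Pt) : rt s u - rt s v = rt s (u - v) := by
  have h := is2_lin s (u - v) v
  rw [sub_add_cancel] at h
  rw [h, add_sub_cancel_right]

private theorem is2_y {w M k y : ℤ} (hw : w % 2 = 1) (hw0 : 0 < w) (hk : |k| < M)
    (h1 : k * w - w / 2 ≤ y) (h2 : y ≤ k * w + w / 2) : |y| + 1 ≤ M * w - w / 2 := by
  have h3 := abs_lt.1 hk
  have h4 : k * w ≤ (M - 1) * w := mul_le_mul_of_nonneg_right (by omega) hw0.le
  have h5 : -(M - 1) * w ≤ k * w := mul_le_mul_of_nonneg_right (by omega) hw0.le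
  have h6 : (M - 1) * w = M * w - w := by ring
  have h7 : -(M - 1) * w = w - M * w := by ring
  rw [h6] at h4
  rw [h7] at h5
  rcases abs_cases y with ⟨a, _⟩ | ⟨a, _⟩ <;> rw [a] <;> omega

private theorem is2_nrm {a y : ℤ} (h : |y| ≤ a) : nrm (a, y) = a := by
  have h0 : 0 ≤ a := le_trans (abs_nonneg y) h
  show max |a| |y| = a
  rw [abs_of_nonneg h0]
  exact max_eq_left h

/-- sites of an inner block: `rt s (x, y)` with `r - w < x ≤ r`, `|y - k w| ≤ w / 2` -/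
theorem ib_mem {w M s k r : ℤ} (hw : w % 2 = 1) (hw0 : 0 < w) (hr : r = M * w + w / 2) {v : Pt} :
    v ∈ ib w M s k ↔ ∃ x y : ℤ, r - w < x ∧ x ≤ r ∧ k * w - w / 2 ≤ y ∧ y ≤ k * w + w / 2 ∧
      v = rt s (x, y) := by
  rw [ib_eq hw hw0]
  constructor
  · rintro ⟨⟨x, y⟩, ⟨⟨h1, h2⟩, h3, h4⟩, rfl⟩
    simp only at h1 h2 h3 h4
    exact ⟨x, y, by omega, by omega, h3, h4, rfl⟩
  · rintro ⟨x, y, h1, h2, h3, h4, rfl⟩
    exact ⟨(x, y), ⟨⟨by show M * w - w / 2 ≤ x; omega, by show x ≤ M * w + w / 2; omega⟩,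
      h3, h4⟩, rfl⟩

theorem ob_mem {w M s k r : ℤ} (hw : w % 2 = 1) (hw0 : 0 < w) (hr : r = M * w + w / 2) {v : Pt} :
    v ∈ ob w M s k ↔ ∃ x y : ℤ, r < x ∧ x ≤ r + w ∧ k * w - w / 2 ≤ y ∧ y ≤ k * w + w / 2 ∧
      v = rt s (x, y) := by
  rw [ob_eq hw hw0]
  constructor
  · rintro ⟨⟨x, y⟩, ⟨⟨h1, h2⟩, h3, h4⟩, rfl⟩
    simp only at h1 h2 h3 h4
    exact ⟨x, y, by omega, by omega, h3, h4, rfl⟩
  · rintro ⟨x, y, h1, h2, h3, h4, rfl⟩
    exact ⟨(x, y), ⟨⟨by show M * w + w / 2 + 1 ≤ x; omega,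
      by show x ≤ M * w + w / 2 + w; omega⟩, h3, h4⟩, rfl⟩

/-- norms: `r - w < nrm v ≤ r` in an inner block with `|k| < M` -/
theorem ib_nrm {w M s k r : ℤ} (hw : w % 2 = 1) (hw0 : 0 < w) (hr : r = M * w + w / 2)
    (hk : |k| < M) {v : Pt} (hv : v ∈ ib w M s k) : r - w < nrm v ∧ nrm v ≤ r := by
  obtain ⟨x, y, h1, h2, h3, h4, rfl⟩ := (ib_mem hw hw0 hr).1 hv
  have h5 := is2_y hw hw0 hk h3 h4
  rw [nrm_rt, is2_nrm (by omega)]
  exact ⟨h1, h2⟩

theorem ob_nrm {w M s k r : ℤ} (hw : w % 2 = 1) (hw0 : 0 < w) (hr : r = M * w + w / 2)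
    (hk : |k| < M) {v : Pt} (hv : v ∈ ob w M s k) : r < nrm v ∧ nrm v ≤ r + w := by
  obtain ⟨x, y, h1, h2, h3, h4, rfl⟩ := (ob_mem hw hw0 hr).1 hv
  have h5 := is2_y hw hw0 hk h3 h4
  rw [nrm_rt, is2_nrm (by omega)]
  exact ⟨h1, h2⟩

/-- DISTANCE ON THE SIDES.  Two sites `rt s (x, y)`, `rt s' (x', y')` near the ring `m` (`m - g ≤ x, x' ≤ m`), far from the
corners (`|y|, |y'| ≤ m - 2 g`), on different sides: at distance at least `g`.  (Opposite sides: the first rotated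
coordinates differ by `x + x' ≥ g`.  Adjacent sides, say `s' = s + 1`: in the coordinates of `s` the sites are
`(x, y)` and `(-y', x')`, `x + y' ≥ (m - g) - (m - 2 g)`.) -/
theorem side_far {m g s s' x y x' y' : ℤ} (hg : 0 ≤ g) (hgm : 2 * g ≤ m) (hs : s % 4 ≠ s' % 4)
    (hx : m - g ≤ x) (hx' : m - g ≤ x') (hy : |y| ≤ m - 2 * g) (hy' : |y'| ≤ m - 2 * g) :
    g ≤ nrm (rt s (x, y) - rt s' (x', y')) := by
  have e : rt s' (x', y') = rt s (rt (s' - s) (x', y')) := by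
    rw [← rt_add, add_sub_cancel]
  rw [e, is2_sub, nrm_rt]
  have hy1 := abs_le.1 hy
  have hy1' := abs_le.1 hy'
  have hd : (s' - s) % 4 = 1 ∨ (s' - s) % 4 = 2 ∨ (s' - s) % 4 = 3 := by omega
  rcases hd with h | h | h
  · rw [show rt (s' - s) = rt 1 from rt_mod (by omega), rt_one]
    show g ≤ max |x - -y'| |y - x'|
    exact le_max_of_le_left (le_trans (by omega) (le_abs_self _))
  · rw [show rt (s' - s) = rt 2 from rt_mod (by omega), rt_two]
    show g ≤ max |x - -x'| |y - -y'|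
    exact le_max_of_le_left (le_trans (by omega) (le_abs_self _))
  · rw [show rt (s' - s) = rt 3 from rt_mod (by omega), rt_three]
    show g ≤ max |x - y'| |y - -x'|
    exact le_max_of_le_left (le_trans (by omega) (le_abs_self _))

/-- on the same side the distance is at least the difference of the second coordinates -/
theorem side_near {s s' x y x' y' : ℤ} (hs : s % 4 = s' % 4) :
    |y - y'| ≤ nrm (rt s (x, y) - rt s' (x', y')) := by
  rw [← rt_mod hs, is2_sub, nrm_rt]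
  show |y - y'| ≤ max |x - x'| |y - y'|
  exact le_max_right _ _

namespace Lat

variable {L : Lat}

theorem con_ib {w M s k : ℤ} (hw : w % 2 = 1) (hw0 : 0 < w) : L.Con (ib w M s k) := by
  exact con_rect _ _ _ _

/-- ADDING AN INNER BLOCK to a domain: `exact_add_in` (`ib_eq`, `a = M w - w/2`, `p = k w - w/2`, `q = k w + w/2`).  All neighbours
of the block in `D` are on the ring `r + 1`. -/
theorem exact_ib {w M s k r : ℤ} {D C : Set Pt} (hw : w % 2 = 1) (hw0 : 0 < w)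
    (hr : r = M * w + w / 2) (hk : |k| < M) (h : L.Exact D C) (hring : rng (r + 1) ⊆ D)
    (h1 : ∀ v ∈ ib w M s k, ∀ u ∈ D, L.Adj u v → u ∈ rng (r + 1))
    (h2 : ∀ v ∈ ib w M s k, v ∉ D) : L.Exact (D ∪ ib w M s k) C := by
  have h3 := is2_y (y := k * w - w / 2) hw hw0 hk le_rfl (by omega)
  have h4 := is2_y (y := k * w + w / 2) hw hw0 hk (by omega) le_rfl
  have h3' := abs_nonneg (k * w - w / 2)
  have h5 := neg_abs_le (k * w - w / 2)
  have h6 := le_abs_self (k * w + w / 2)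
  have e : ib w M s k = rt s '' rect (M * w - w / 2) (r + 1 - 1) (k * w - w / 2)
      (k * w + w / 2) := by
    rw [ib_eq hw hw0, hr, add_sub_cancel_right]
  rw [e] at h1 h2 ⊢
  exact exact_add_in h (m := r + 1) (by omega) (by omega) (by omega) (by omega) (by omega) (by omega)
    hring h1 h2

/-- neighbours of an inner block outside `bx r` are on the ring `r + 1`, in the middle cell enlarged by one: they are
`rt s (r + 1, y)` with `k w - w/2 - 1 ≤ y ≤ k w + w/2 + 1` -/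
theorem ib_nbr {w M s k r : ℤ} {u v : Pt} (hw : w % 2 = 1) (hw0 : 0 < w)
    (hr : r = M * w + w / 2) (hk : |k| < M) (hv : v ∈ ib w M s k) (hu : u ∉ bx r)
    (h : L.Adj u v) : ∃ y, k * w - w / 2 - 1 ≤ y ∧ y ≤ k * w + w / 2 + 1 ∧
      u = rt s (r + 1, y) := by
  obtain ⟨x, y, h1, h2, h3, h4, rfl⟩ := (ib_mem hw hw0 hr).1 hv
  have h5 := is2_y hw hw0 hk h3 h4
  have h5' := abs_nonneg y
  obtain ⟨⟨a, b⟩, rfl⟩ : ∃ p, u = rt s p := ⟨(rt s).symm u, by rw [Equiv.apply_symm_apply]⟩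
  have h6 := ((tr_rots L s).adj (a, b) (x, y)).2 h
  obtain ⟨h7, h8⟩ := h6.near
  simp only at h7 h8
  have h7' := abs_le.1 h7
  have h8' := abs_le.1 h8
  have h9 : r < nrm (rt s (a, b)) := not_le.1 hu
  rw [nrm_rt] at h9
  have h10 : r < max |a| |b| := h9
  have hb : |b| ≤ |y| + 1 := by
    rcases abs_cases b with ⟨c1, _⟩ | ⟨c1, _⟩ <;> rcases abs_cases y with ⟨c2, _⟩ | ⟨c2, _⟩ <;>
      omega
  have ha : r < |a| := by
    rcases lt_max_iff.1 h10 with h | h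
    · exact h
    · omega
  have ha0 : 0 ≤ a := by omega
  rw [abs_of_nonneg ha0] at ha
  have ha1 : a = r + 1 := by omega
  subst ha1
  exact ⟨b, by omega, by omega, rfl⟩

/-- every site of the inner side `rng (r + 1) ∩` middle cell has a neighbour in the block; in particular the block is next
to its triple: `rt s (r, k w)` and `rt s (r + 1, k w)` -/
theorem ib_touch {w M s k r : ℤ} (hw : w % 2 = 1) (hw0 : 0 < w) (hr : r = M * w + w / 2)
    (hk : |k| < M) : ∃ v ∈ ib w M s k, ∃ u ∈ trip w (r + 1) s k, L.Adj u v := by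
  have h5 := is2_y (y := k * w) hw hw0 hk (by omega) (by omega)
  have h5' := abs_nonneg (k * w)
  refine ⟨rt s (r, k * w), (ib_mem hw hw0 hr).2 ⟨r, k * w, by omega, le_rfl, by omega, by omega,
    rfl⟩, rt s (r + 1, k * w), ⟨2 * (r + 1) * s + k * w, ?_, ?_, ?_⟩, ?_⟩
  · have : (k - 1) * w = k * w - w := by ring
    omega
  · have : (k + 1) * w = k * w + w := by ring
    omega
  · exact rc_side (by omega) (by omega)
  · exact (((tr_rots L s).adj (r, k * w) (r + 1, k * w)).1 (adj_right (r, k * w))).symm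

end Lat

end SC

end

/-! ### from `Lib_MP_e0a489.IS3` -/

section

/-!
# MP_e0a489, inner separation 3: order of the arms
-/

set_option autoImplicit false

namespace SC

open Classical

private theorem is3_y {w M k y : ℤ} (hw : w % 2 = 1) (hw0 : 0 < w) (hk : |k| < M)
    (h1 : k * w - w / 2 ≤ y) (h2 : y ≤ k * w + w / 2) : |y| + 1 ≤ M * w - w / 2 := by
  have h3 := abs_lt.1 hk
  have h4 : k * w ≤ (M - 1) * w := mul_le_mul_of_nonneg_right (by omega) hw0.le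
  have h5 : -(M - 1) * w ≤ k * w := mul_le_mul_of_nonneg_right (by omega) hw0.le
  have h6 : (M - 1) * w = M * w - w := by ring
  have h7 : -(M - 1) * w = w - M * w := by ring
  rw [h6] at h4
  rw [h7] at h5
  rcases abs_cases y with ⟨a, _⟩ | ⟨a, _⟩ <;> rw [a] <;> omega

private theorem is3_nrm {a y : ℤ} (h : |y| ≤ a) : nrm (a, y) = a := by
  have h0 : 0 ≤ a := le_trans (abs_nonneg y) h
  show max |a| |y| = a
  rw [abs_of_nonneg h0]
  exact max_eq_left h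

/-- a site of the ring `r` in an inner block -/
private theorem is3_ring {w M s k r t : ℤ} (hw : w % 2 = 1) (hw0 : 0 < w)
    (hr : r = M * w + w / 2) (hr1 : 1 ≤ r) (hk : |k| < M) (h : rc r t ∈ ib w M s k) :
    ∃ y, k * w - w / 2 ≤ y ∧ y ≤ k * w + w / 2 ∧ 8 * r ∣ t - (2 * r * s + y) := by
  obtain ⟨x, y, h1, h2, h3, h4, h5⟩ := (ib_mem hw hw0 hr).1 h
  have hy := is3_y hw hw0 hk h3 h4
  have h6 : nrm (rc r t) = r := rc_nrm hr1
  rw [h5, nrm_rt, is3_nrm (by omega)] at h6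
  subst h6
  refine ⟨y, h3, h4, rc_inj hr1 ?_⟩
  rw [h5, rc_side hr1 (by omega)]

namespace Lat

variable {L : Lat}

/-- FROM THE RING `r + 1` TO THE RING `r`.  A site `rc (r+1) i` with a neighbour in `bx r` and `i` between two given
(side, coordinate) bounds has a neighbour `rc r t` with `t` between the corresponding bounds.
Proof.  `i = 2 (r+1) s + k`, `|k| ≤ r + 1` (`idx_side`), `t = 2 r s + max (-r) (min r k)`.  Lower bound: if `s₁ < s` then
`t ≥ 2 r s - r ≥ 2 r s₁ + r`; if `s₁ = s` then `a ≤ k`; `s₁ > s` is impossible since `2 (r+1) ≤ k - a ≤ 2 r + 1` is false.  The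
same for the upper bound.  Adjacency: if `|k| ≤ r` the sites are `rt s (r+1, k)` and `rt s (r, k)` (`rc_side`), nearest
neighbours.  If `k = ± (r+1)` the site is the corner `rt s (r+1, ± (r+1))`; its neighbour in `bx r` can only be
`rt s (r, ± r)`. -/
theorem ring_down {r s₁ a s₃ b i : ℤ} (hr : 1 ≤ r) (ha : |a| ≤ r) (hb : |b| ≤ r)
    (h1 : 2 * (r + 1) * s₁ + a ≤ i) (h3 : i ≤ 2 * (r + 1) * s₃ + b)
    (hi : rc (r + 1) i ∈ L.nb (bx r)) :
    ∃ t, 2 * r * s₁ + a ≤ t ∧ t ≤ 2 * r * s₃ + b ∧ L.Adj (rc (r + 1) i) (rc r t) := by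
  obtain ⟨s, k, hk, rfl⟩ := idx_side (m := r + 1) (by omega) i
  have ha' := abs_le.1 ha
  have hb' := abs_le.1 hb
  have hk' := abs_le.1 hk
  rw [rc_side (by omega) hk] at hi ⊢
  -- the coordinate on the ring `r`
  obtain ⟨k', hk1, hka, hkb, hadj⟩ : ∃ k', |k'| ≤ r ∧ (a ≤ k → a ≤ k') ∧ (k ≤ b → k' ≤ b) ∧
      L.Adj (rt s (r + 1, k)) (rt s (r, k')) := by
    by_cases h : |k| ≤ r
    · refine ⟨k, h, fun h => h, fun h => h, ?_⟩
      exact (((tr_rots L s).adj (r, k) (r + 1, k)).1 (adj_right (r, k))).symm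
    · obtain ⟨u, hu, hadj⟩ := hi
      obtain ⟨⟨x, y⟩, rfl⟩ : ∃ p, u = rt s p := ⟨(rt s).symm u, by rw [Equiv.apply_symm_apply]⟩
      have h6 := ((tr_rots L s).adj (x, y) (r + 1, k)).2 hadj
      obtain ⟨h7, h8⟩ := h6.near
      simp only at h7 h8
      have h7' := abs_le.1 h7
      have h8' := abs_le.1 h8
      have h9 : nrm (rt s (x, y)) ≤ r := hu
      rw [nrm_rt] at h9
      have h10 : max |x| |y| ≤ r := h9
      have h11 := abs_le.1 (le_trans (le_max_left _ _) h10)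
      have h12 := abs_le.1 (le_trans (le_max_right _ _) h10)
      have hx : x = r := by omega
      subst hx
      refine ⟨y, abs_le.2 h12, ?_, ?_, hadj.symm⟩
      · intro h
        rcases abs_cases k with ⟨c1, _⟩ | ⟨c1, _⟩ <;> omega
      · intro h
        rcases abs_cases k with ⟨c1, _⟩ | ⟨c1, _⟩ <;> omega
  have hk1' := abs_le.1 hk1
  refine ⟨2 * r * s + k', ?_, ?_, ?_⟩
  · rcases lt_trichotomy s₁ s with h | h | h
    · have h2 : 2 * r * (s₁ + 1) ≤ 2 * r * s := mul_le_mul_of_nonneg_left (by omega) (by omega)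
      have h3 : 2 * r * (s₁ + 1) = 2 * r * s₁ + 2 * r := by ring
      omega
    · subst h
      have := hka (by omega)
      omega
    · exfalso
      have h2 : 2 * (r + 1) * (s + 1) ≤ 2 * (r + 1) * s₁ :=
        mul_le_mul_of_nonneg_left (by omega) (by omega)
      have h3' : 2 * (r + 1) * (s + 1) = 2 * (r + 1) * s + 2 * (r + 1) := by ring
      omega
  · rcases lt_trichotomy s s₃ with h | h | h
    · have h2 : 2 * r * (s + 1) ≤ 2 * r * s₃ := mul_le_mul_of_nonneg_left (by omega) (by omega)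
      have h3 : 2 * r * (s + 1) = 2 * r * s + 2 * r := by ring
      omega
    · subst h
      have := hkb (by omega)
      omega
    · exfalso
      have h2 : 2 * (r + 1) * (s₃ + 1) ≤ 2 * (r + 1) * s :=
        mul_le_mul_of_nonneg_left (by omega) (by omega)
      have h3' : 2 * (r + 1) * (s₃ + 1) = 2 * (r + 1) * s₃ + 2 * (r + 1) := by ring
      omega
  · rw [rc_side hr hk1]
    exact hadj

/-- The site `rc r t` with `t` between the blocks is in none of the two inner blocks.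
(A site of `ib w M s k` of norm `r` is `rt s (r, y) = rc r (2 r s + y)`, `|y - k w| ≤ w/2`, by `ib_mem`; `rc_inj`: the
indices are equal modulo `8 r`; but `t` is strictly between `2 r s₁ + k₁ w + w/2` and `2 r s₃ + k₃ w - w/2`, and
these are at distance less than `8 r` from each other and from the other ends, by `h31`.) -/
theorem between_blocks {w M r s₁ k₁ s₃ k₃ t : ℤ} (hw : w % 2 = 1) (hw0 : 0 < w)
    (hr : r = M * w + w / 2) (hk₁ : |k₁| + 1 < M) (hk₃ : |k₃| + 1 < M)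
    (h1 : 2 * r * s₁ + ((k₁ + 1) * w + w / 2) ≤ t)
    (h3 : t ≤ 2 * r * s₃ + ((k₃ - 1) * w - w / 2))
    (h31 : 2 * (r + 1) * s₃ + k₃ * w < 2 * (r + 1) * (s₁ + 4) + k₁ * w) :
    rc r t ∉ ib w M s₁ k₁ ∧ rc r t ∉ ib w M s₃ k₃ := by
  have ha1 := abs_nonneg k₁
  have hM2 : 2 * w ≤ M * w := mul_le_mul_of_nonneg_right (by omega) hw0.le
  have hr1 : 1 ≤ r := by omega
  have hk1 := abs_lt.1 (show |k₁| < M - 1 by omega)
  have hk3 := abs_lt.1 (show |k₃| < M - 1 by omega)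
  have e1 : (k₁ + 1) * w = k₁ * w + w := by ring
  have e3 : (k₃ - 1) * w = k₃ * w - w := by ring
  rw [e1] at h1
  rw [e3] at h3
  have key : 2 * r * s₃ + k₃ * w < 2 * r * s₁ + 8 * r + k₁ * w + w := by
    rcases le_or_gt (s₁ + 4) s₃ with h | h
    · obtain ⟨d, hd, rfl⟩ : ∃ d, 0 ≤ d ∧ s₃ = s₁ + 4 + d := ⟨s₃ - (s₁ + 4), by omega, by ring⟩
      have q1 : 2 * (r + 1) * (s₁ + 4 + d) = 2 * (r + 1) * (s₁ + 4) + 2 * r * d + 2 * d := by ring
      have q2 : 2 * r * (s₁ + 4 + d) = 2 * r * s₁ + 8 * r + 2 * r * d := by ring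
      rw [q1] at h31
      rw [q2]
      omega
    · have q1 : 2 * r * s₃ ≤ 2 * r * (s₁ + 3) := mul_le_mul_of_nonneg_left (by omega) (by omega)
      have q2 : 2 * r * (s₁ + 3) = 2 * r * s₁ + 6 * r := by ring
      have q3 : k₃ * w ≤ (M - 1) * w := mul_le_mul_of_nonneg_right (by omega) hw0.le
      have q4 : -(M - 1) * w ≤ k₁ * w := mul_le_mul_of_nonneg_right (by omega) hw0.le
      have q5 : (M - 1) * w = M * w - w := by ring
      have q6 : -(M - 1) * w = w - M * w := by ring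
      rw [q5] at q3
      rw [q6] at q4
      omega
  constructor
  · intro h
    obtain ⟨y, hy1, hy2, hdvd⟩ := is3_ring hw hw0 hr hr1 (by omega) h
    have := Int.le_of_dvd (by omega) hdvd
    omega
  · intro h
    obtain ⟨y, hy1, hy2, hdvd⟩ := is3_ring hw hw0 hr hr1 (by omega) h
    have h5 : 8 * r ∣ (2 * r * s₃ + y) - t := by
      have := (dvd_neg (a := 8 * r)).2 hdvd
      rwa [neg_sub] at this
    have := Int.le_of_dvd (by omega) h5
    omega

/-- ORDER LEMMA.  Open arms from the inner blocks `θ₁`, `θ₃` to the opposite directions `d₁`, `d₃` (`0` and `2`), closed arms from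
the ring sites `i`, `j` to the directions `e`, `e'` (`1` and `3`).  The sites `i`, `j` are not both in the arc from `θ₁` to
`θ₃`.
Proof.  `P` = open arms together with `bx (M w - w/2 - 1)`: connected (the end `u` of an open arm is `rt s (M w - w/2, y)` with
`|y| ≤ M w - w/2 - 1`, next to `rt s (M w - w/2 - 1, y)`), in `bx (2R)`, contains sites with first coordinate `2R` and
`-2R` (`Je_coord`).  `t`, `t'` from `ring_down` for `i` and `j` (`a = (k₁+1) w + w/2`, `b = (k₃-1) w - w/2`).  `P'` = closed arms together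
with the arc of the ring `r` between `t` and `t'`: connected (`con_arc`), in `bx (2R)`, contains sites with second
coordinate `2R` and `-2R`.  By `cross` in `rect (-2R) (2R) (-2R) (2R)` there is a common site.  Open and closed arms have no
common site; the box `bx (M w - w/2 - 1)` meets neither the closed arms nor the ring `r`; a site of an open arm on the
ring `r` is in one of the blocks (`J_nrm`), which is excluded by `between_blocks`. -/
theorem order_in {w M r R s₁ k₁ s₃ k₃ d₁ d₃ e e' i j : ℤ} {ω : Cfg} (hw : w % 2 = 1)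
    (hw0 : 0 < w) (hr : r = M * w + w / 2) (hR : 8 * r ≤ R) (hk₁ : |k₁| + 1 < M)
    (hk₃ : |k₃| + 1 < M) (hd : (d₁ = 0 ∧ d₃ = 2) ∨ (d₁ = 2 ∧ d₃ = 0))
    (he : (e = 1 ∧ e' = 3) ∨ (e = 3 ∧ e' = 1))
    (a1 : L.Arm true (ann r R ∪ Jc true R ∪ ib w M s₁ k₁) (ib w M s₁ k₁ ∩ rng (M * w - w / 2))
      (Je d₁ R) ω)
    (a3 : L.Arm true (ann r R ∪ Jc true R ∪ ib w M s₃ k₃) (ib w M s₃ k₃ ∩ rng (M * w - w / 2))
      (Je d₃ R) ω)
    (bi : L.Arm false (ann r R ∪ Jc false R) {rc (r + 1) i} (Je e R) ω)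
    (bj : L.Arm false (ann r R ∪ Jc false R) {rc (r + 1) j} (Je e' R) ω)
    (hi : rc (r + 1) i ∈ L.nb (bx r)) (hj : rc (r + 1) j ∈ L.nb (bx r))
    (h1i : 2 * (r + 1) * s₁ + ((k₁ + 1) * w + w / 2) < i)
    (hi3 : i < 2 * (r + 1) * s₃ + ((k₃ - 1) * w - w / 2))
    (h1j : 2 * (r + 1) * s₁ + ((k₁ + 1) * w + w / 2) < j)
    (hj3 : j < 2 * (r + 1) * s₃ + ((k₃ - 1) * w - w / 2))
    (h31 : 2 * (r + 1) * s₃ + k₃ * w < 2 * (r + 1) * (s₁ + 4) + k₁ * w) : False := by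
  have hab1 := abs_nonneg k₁
  have hM2 : 2 * w ≤ M * w := mul_le_mul_of_nonneg_right (by omega) hw0.le
  have hr1 : 1 ≤ r := by omega
  have hk1 := abs_lt.1 (show |k₁| < M - 1 by omega)
  have hk3 := abs_lt.1 (show |k₃| < M - 1 by omega)
  obtain ⟨q, hq⟩ : ∃ q, q = M * w - w / 2 - 1 := ⟨_, rfl⟩
  have hqr : q < r := by omega
  have bnd : ∀ k : ℤ, -M < k → k < M → |k * w| + w ≤ M * w := by
    intro k h1 h2
    have h4 : k * w ≤ (M - 1) * w := mul_le_mul_of_nonneg_right (by omega) hw0.le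
    have h5 : -(M - 1) * w ≤ k * w := mul_le_mul_of_nonneg_right (by omega) hw0.le
    have h6 : (M - 1) * w = M * w - w := by ring
    have h7 : -(M - 1) * w = w - M * w := by ring
    rw [h6] at h4
    rw [h7] at h5
    rcases abs_cases (k * w) with ⟨a, _⟩ | ⟨a, _⟩ <;> rw [a] <;> omega
  have haa : |(k₁ + 1) * w + w / 2| ≤ r := by
    have h1 := bnd (k₁ + 1) (by omega) (by omega)
    have h2 := abs_le.1 (show |(k₁ + 1) * w| ≤ M * w - w by omega)
    exact abs_le.2 ⟨by omega, by omega⟩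
  have hbb : |(k₃ - 1) * w - w / 2| ≤ r := by
    have h1 := bnd (k₃ - 1) (by omega) (by omega)
    have h2 := abs_le.1 (show |(k₃ - 1) * w| ≤ M * w - w by omega)
    exact abs_le.2 ⟨by omega, by omega⟩
  -- the ends on the ring `r`
  obtain ⟨t, ht1, ht2, hta⟩ := ring_down (L := L) hr1 haa hbb h1i.le hi3.le hi
  obtain ⟨t', ht1', ht2', hta'⟩ := ring_down (L := L) hr1 haa hbb h1j.le hj3.le hj
  obtain ⟨x₁, ⟨hx₁, hx₁'⟩, y₁, hy₁, hc₁⟩ := a1
  obtain ⟨x₃, ⟨hx₃, hx₃'⟩, y₃, hy₃, hc₃⟩ := a3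
  obtain ⟨_, rfl, z, hz, hcz⟩ := bi
  obtain ⟨_, rfl, z', hz', hcz'⟩ := bj
  -- the box next to the inner blocks
  have hbox : ∀ (s k : ℤ) (x : Pt), |k| < M → x ∈ ib w M s k → x ∈ rng (M * w - w / 2) →
      ∃ b ∈ bx q, L.Adj x b := by
    intro s k x hk hx hx'
    obtain ⟨x₀, y₀, h1, h2, h3, h4, rfl⟩ := (ib_mem hw hw0 hr).1 hx
    have hy := is3_y hw hw0 hk h3 h4
    have hy0 := abs_nonneg y₀
    have h5 : nrm (rt s (x₀, y₀)) = M * w - w / 2 := hx'
    rw [nrm_rt, is3_nrm (by omega)] at h5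
    refine ⟨rt s (q, y₀), ?_, ?_⟩
    · show nrm (rt s (q, y₀)) ≤ q
      rw [nrm_rt, is3_nrm (by omega)]
    · have h6 : x₀ = q + 1 := by omega
      rw [h6]
      exact (((tr_rots L s).adj (q, y₀) (q + 1, y₀)).1 (adj_right (q, y₀))).symm
  obtain ⟨b₁, hb₁, hab₁⟩ := hbox s₁ k₁ x₁ (by omega) hx₁ hx₁'
  obtain ⟨b₃, hb₃, hab₃⟩ := hbox s₃ k₃ x₃ (by omega) hx₃ hx₃'
  have hJ : ∀ (c : Bool) (v : Pt), v ∈ Jc c R → R < nrm v ∧ nrm v ≤ 2 * R :=
    fun c v hv => Jc_sub_ann (by omega) hv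
  -- the two sets
  obtain ⟨P₁, hP₁⟩ : ∃ P : Set Pt, P = {v | L.Cn ((ann r R ∪ Jc true R ∪ ib w M s₁ k₁) ∩
    L.col true ω) x₁ v} := ⟨_, rfl⟩
  obtain ⟨P₃, hP₃⟩ : ∃ P : Set Pt, P = {v | L.Cn ((ann r R ∪ Jc true R ∪ ib w M s₃ k₃) ∩
    L.col true ω) x₃ v} := ⟨_, rfl⟩
  obtain ⟨Q₁, hQ₁⟩ : ∃ Q : Set Pt, Q = {v | L.Cn ((ann r R ∪ Jc false R) ∩ L.col false ω)
    (rc (r + 1) i) v} := ⟨_, rfl⟩
  obtain ⟨Q₃, hQ₃⟩ : ∃ Q : Set Pt, Q = {v | L.Cn ((ann r R ∪ Jc false R) ∩ L.col false ω)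
    (rc (r + 1) j) v} := ⟨_, rfl⟩
  have cP₁ : L.Con P₁ := by rw [hP₁]; exact con_cluster _ _
  have cP₃ : L.Con P₃ := by rw [hP₃]; exact con_cluster _ _
  have cQ₁ : L.Con Q₁ := by rw [hQ₁]; exact con_cluster _ _
  have cQ₃ : L.Con Q₃ := by rw [hQ₃]; exact con_cluster _ _
  have x1P : x₁ ∈ P₁ := by rw [hP₁]; exact Cn.refl hc₁.left
  have x3P : x₃ ∈ P₃ := by rw [hP₃]; exact Cn.refl hc₃.left
  have y1P : y₁ ∈ P₁ := by rw [hP₁]; exact hc₁
  have y3P : y₃ ∈ P₃ := by rw [hP₃]; exact hc₃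
  have iQ : rc (r + 1) i ∈ Q₁ := by rw [hQ₁]; exact Cn.refl hcz.left
  have jQ : rc (r + 1) j ∈ Q₃ := by rw [hQ₃]; exact Cn.refl hcz'.left
  have zQ : z ∈ Q₁ := by rw [hQ₁]; exact hcz
  have zQ' : z' ∈ Q₃ := by rw [hQ₃]; exact hcz'
  have sP₁ : ∀ v ∈ P₁, v ∈ (ann r R ∪ Jc true R ∪ ib w M s₁ k₁) ∩ L.col true ω := by
    intro v hv
    rw [hP₁] at hv
    exact Cn.right hv
  have sP₃ : ∀ v ∈ P₃, v ∈ (ann r R ∪ Jc true R ∪ ib w M s₃ k₃) ∩ L.col true ω := by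
    intro v hv
    rw [hP₃] at hv
    exact Cn.right hv
  have sQ₁ : ∀ v ∈ Q₁, v ∈ (ann r R ∪ Jc false R) ∩ L.col false ω := by
    intro v hv
    rw [hQ₁] at hv
    exact Cn.right hv
  have sQ₃ : ∀ v ∈ Q₃, v ∈ (ann r R ∪ Jc false R) ∩ L.col false ω := by
    intro v hv
    rw [hQ₃] at hv
    exact Cn.right hv
  obtain ⟨A, hA⟩ : ∃ A : Set Pt, A = arc r (min t t') (max t t') := ⟨_, rfl⟩
  have cA : L.Con A := by rw [hA]; exact con_arc hr1 _ _
  have tA : rc r t ∈ A := by rw [hA]; exact ⟨t, min_le_left _ _, le_max_left _ _, rfl⟩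
  have tA' : rc r t' ∈ A := by rw [hA]; exact ⟨t', min_le_right _ _, le_max_right _ _, rfl⟩
  have sA : ∀ v ∈ A, nrm v = r ∧ v ∉ ib w M s₁ k₁ ∧ v ∉ ib w M s₃ k₃ := by
    intro v hv
    rw [hA] at hv
    obtain ⟨n, hn1, hn2, rfl⟩ := hv
    refine ⟨rc_nrm hr1, ?_⟩
    refine between_blocks hw hw0 hr hk₁ hk₃ (le_trans ?_ hn1) (le_trans hn2 ?_) h31
    · exact le_min ht1 ht1'
    · exact max_le ht2 ht2'
  have cP : L.Con (P₁ ∪ bx q ∪ P₃) := by
    have h1 : L.Con (P₁ ∪ bx q) := Con.union_adj cP₁ (con_bx q) x1P hb₁ hab₁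
    exact Con.union_adj h1 cP₃ (Or.inr hb₃) x3P hab₃.symm
  have cP' : L.Con (Q₁ ∪ A ∪ Q₃) := by
    have h1 : L.Con (Q₁ ∪ A) := Con.union_adj cQ₁ cA iQ tA hta
    exact Con.union_adj h1 cQ₃ (Or.inr tA') jQ hta'.symm
  have rct : ∀ v : Pt, nrm v ≤ 2 * R → v ∈ rect (-(2 * R)) (2 * R) (-(2 * R)) (2 * R) := by
    intro v hv
    have h1 : max |v.1| |v.2| ≤ 2 * R := hv
    have h2 := abs_le.1 (le_trans (le_max_left _ _) h1)
    have h3 := abs_le.1 (le_trans (le_max_right _ _) h1)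
    exact ⟨h2, h3⟩
  have nib : ∀ s k v, |k| < M → v ∈ ib w M s k → nrm v ≤ r :=
    fun s k v hk hv => (ib_nrm hw hw0 hr hk hv).2
  have rP : P₁ ∪ bx q ∪ P₃ ⊆ rect (-(2 * R)) (2 * R) (-(2 * R)) (2 * R) := by
    rintro v ((hv | hv) | hv)
    · apply rct
      rcases (sP₁ v hv).1 with (h | h) | h
      · have := h.2; omega
      · exact (hJ _ _ h).2
      · have := nib _ _ _ (by omega) h; omega
    · apply rct
      have : nrm v ≤ q := hv
      omega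
    · apply rct
      rcases (sP₃ v hv).1 with (h | h) | h
      · have := h.2; omega
      · exact (hJ _ _ h).2
      · have := nib _ _ _ (by omega) h; omega
  have rP' : Q₁ ∪ A ∪ Q₃ ⊆ rect (-(2 * R)) (2 * R) (-(2 * R)) (2 * R) := by
    rintro v ((hv | hv) | hv)
    · apply rct
      rcases (sQ₁ v hv).1 with h | h
      · have := h.2; omega
      · exact (hJ _ _ h).2
    · apply rct
      have := (sA v hv).1
      omega
    · apply rct
      rcases (sQ₃ v hv).1 with h | h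
      · have := h.2; omega
      · exact (hJ _ _ h).2
  have e1 : ∃ v ∈ P₁ ∪ bx q ∪ P₃, v.1 = -(2 * R) := by
    rcases hd with ⟨rfl, rfl⟩ | ⟨rfl, rfl⟩
    · exact ⟨y₃, Or.inr y3P, Je_coord.2.2.1 hy₃⟩
    · exact ⟨y₁, Or.inl (Or.inl y1P), Je_coord.2.2.1 hy₁⟩
  have e2 : ∃ v ∈ P₁ ∪ bx q ∪ P₃, v.1 = 2 * R := by
    rcases hd with ⟨rfl, rfl⟩ | ⟨rfl, rfl⟩
    · exact ⟨y₁, Or.inl (Or.inl y1P), Je_coord.1 hy₁⟩
    · exact ⟨y₃, Or.inr y3P, Je_coord.1 hy₃⟩
  have e3 : ∃ v ∈ Q₁ ∪ A ∪ Q₃, v.2 = -(2 * R) := by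
    rcases he with ⟨rfl, rfl⟩ | ⟨rfl, rfl⟩
    · exact ⟨z', Or.inr zQ', Je_coord.2.2.2 hz'⟩
    · exact ⟨z, Or.inl (Or.inl zQ), Je_coord.2.2.2 hz⟩
  have e4 : ∃ v ∈ Q₁ ∪ A ∪ Q₃, v.2 = 2 * R := by
    rcases he with ⟨rfl, rfl⟩ | ⟨rfl, rfl⟩
    · exact ⟨z, Or.inl (Or.inl zQ), Je_coord.2.1 hz⟩
    · exact ⟨z', Or.inr zQ', Je_coord.2.1 hz'⟩
  obtain ⟨v, hv, hv'⟩ := cross cP cP' rP rP' e1 e2 e3 e4
  -- norms and colours on the second set
  have nQ : ∀ u, u ∈ Q₁ ∨ u ∈ Q₃ → r < nrm u ∧ L.st ω u = false := by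
    intro u hu
    have h1 : u ∈ (ann r R ∪ Jc false R) ∩ L.col false ω := hu.elim (sQ₁ u) (sQ₃ u)
    refine ⟨?_, h1.2⟩
    rcases h1.1 with h | h
    · exact h.1
    · have := (hJ _ _ h).1; omega
  have nP : ∀ u, u ∈ P₁ ∨ u ∈ P₃ → L.st ω u = true ∧ u ∉ A := by
    rintro u (hu | hu)
    · refine ⟨(sP₁ u hu).2, fun h => ?_⟩
      have h2 := sA u h
      rcases (sP₁ u hu).1 with (h | h) | h
      · have := h.1; omega
      · have := (hJ _ _ h).1; omega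
      · exact h2.2.1 h
    · refine ⟨(sP₃ u hu).2, fun h => ?_⟩
      have h2 := sA u h
      rcases (sP₃ u hu).1 with (h | h) | h
      · have := h.1; omega
      · have := (hJ _ _ h).1; omega
      · exact h2.2.2 h
  have fin : ∀ u, u ∈ P₁ ∨ u ∈ P₃ → u ∈ Q₁ ∪ A ∪ Q₃ → False := by
    rintro u hu ((h | h) | h)
    · have h1 := (nP u hu).1
      rw [(nQ u (Or.inl h)).2] at h1
      exact Bool.noConfusion h1
    · exact (nP u hu).2 h
    · have h1 := (nP u hu).1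
      rw [(nQ u (Or.inr h)).2] at h1
      exact Bool.noConfusion h1
  rcases hv with (hv | hv) | hv
  · exact fin v (Or.inl hv) hv'
  · have h1 : nrm v ≤ q := hv
    rcases hv' with (h | h) | h
    · have := (nQ v (Or.inl h)).1; omega
    · have := (sA v h).1; omega
    · have := (nQ v (Or.inr h)).1; omega
  · exact fin v (Or.inr hv) hv'

end Lat

end SC

end

/-! ### from `Lib_MP_e0a489.SH7` -/

section

/-!
# MP_e0a489, shared by OS and IS, 7: supplements to the exploration, landing step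
-/

set_option autoImplicit false

namespace SC

open Classical

namespace Lat

variable {L : Lat} {c : Bool} {M S : Set Pt} {ω : Cfg}

private theorem sh7_col {ω ω' : Cfg} {v : Pt} (h : ω v = ω' v) (b : Bool) :
    v ∈ L.col b ω ↔ v ∈ L.col b ω' := by
  show L.st ω v = b ↔ L.st ω' v = b
  unfold Lat.st
  rw [h]

/-- The source need not be connected: it is enough that its sites are joined in the explored set.  (Every site of
`cl c (M \ S) S ω` is joined inside `cl c (M \ S) S ω` to a site with a neighbour in `S`, see `Cx_con`.) -/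
theorem Cx_con' (h : ∀ u ∈ S, ∀ v ∈ S, L.Cn (L.Cx c M S ω) u v) : L.Con (L.Cx c M S ω) := by
  have key : ∀ w ∈ L.Cx c M S ω, ∃ s ∈ S, L.Cn (L.Cx c M S ω) s w := by
    rintro w (hw | ⟨u, ⟨s, hs, hsu⟩, hw⟩)
    · exact ⟨w, hw, Cn.refl (Or.inl hw)⟩
    · refine ⟨s, hs, ?_⟩
      have h1 := con_cluster (L := L) ((M \ S) ∩ L.col c ω) u u (Cn.refl hw.left) w hw
      have h2 : L.Cn (L.Cx c M S ω) u w := h1.mono (fun x hx => Or.inr ⟨u, ⟨s, hs, hsu⟩, hx⟩)
      exact (Cn.of_adj (Or.inl hs) h2.left hsu).trans h2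
  intro u hu v hv
  obtain ⟨s, hs, h1⟩ := key u hu
  obtain ⟨t, ht, h2⟩ := key v hv
  exact (h1.symm.trans (h s hs t ht)).trans h2

/-- A path in `M` all of whose sites have colour `c` or belong to `S`, and which contains a site of the explored set, is
contained in it.  (Induction along the path from `v`, `Cx_closed`.) -/
theorem Cx_of_cn {A : Set Pt} {u v : Pt} (hA : A ⊆ M) (hc : A ⊆ S ∪ L.col c ω) (h : L.Cn A u v)
    (hv : v ∈ L.Cx c M S ω) : u ∈ L.Cx c M S ω := by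
  have key : ∀ w, L.Cn A v w → w ∈ L.Cx c M S ω := by
    rintro w ⟨_, hw⟩
    induction hw with
    | refl => exact hv
    | tail _ hbc ih =>
      rcases hc hbc.2 with hs | hs
      · exact Cx_sup hs
      · exact Cx_closed (hA hbc.2) hs ⟨_, ih, hbc.1⟩
  exact key u h.symm

/-- A path all of whose sites are explored or outside `G` survives in the mixed configuration.  (Induction along the path;
`mix` does not change the sites of `Rev` and the sites outside `G`.) -/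
theorem cn_mix {G : Finset Pt} {η : Cfg} {A : Set Pt} {b : Bool} {u v : Pt}
    (h : L.Cn (A ∩ L.col b ω) u v)
    (hA : ∀ x, L.Cn (A ∩ L.col b ω) u x → x ∈ L.Rev c M S ω ∨ x ∉ G) :
    L.Cn (A ∩ L.col b (mix G (L.Rev c M S) ω η)) u v := by
  have h1 := con_cluster (L := L) (A ∩ L.col b ω) u u (Cn.refl h.left) v h
  refine h1.mono (fun x hx => ?_)
  have hx' : L.Cn (A ∩ L.col b ω) u x := hx
  refine ⟨hx'.right.1, ?_⟩
  rcases hA x hx' with hr | hg
  · exact (mix_col_rev hr b).2 hx'.right.2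
  · refine (sh7_col ?_ b).2 hx'.right.2
    unfold mix
    rw [if_neg (fun h' => hg h'.1)]

/-- An arm of the explored colour `c` in `A ⊆ M` that contains a site of `S` (or of the explored set) survives: all its
sites are explored (`Cx_of_cn`, `cn_mix`). -/
theorem cn_mix_Cx {G : Finset Pt} {η : Cfg} {A : Set Pt} {u v : Pt} (hA : A ⊆ M)
    (h : L.Cn (A ∩ L.col c ω) u v) (hv : v ∈ L.Cx c M S ω) :
    L.Cn (A ∩ L.col c (mix G (L.Rev c M S) ω η)) u v ∧ u ∈ L.Cx c M S ω := by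
  have hM : A ∩ L.col c ω ⊆ M := fun x hx => hA hx.1
  have hc : A ∩ L.col c ω ⊆ S ∪ L.col c ω := fun x hx => Or.inr hx.2
  have hu : u ∈ L.Cx c M S ω := Cx_of_cn hM hc h hv
  refine ⟨cn_mix h (fun x hx => Or.inl (Or.inl (Cx_of_cn hM hc hx.symm hu))), hu⟩

/-- Adding a region `N` next to a component: `N` is connected, disjoint from `M`, all its neighbours in `M` lie in the component
`V` of `M \ C`, and there is such a neighbour.  Then `V ∪ N` is a component of `(M ∪ N) \ C` (`C ⊆ M`). -/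
theorem comp_add {C V N : Set Pt} (hCM : C ⊆ M) (hV : L.Comp (M \ C) V) (hN : L.Con N)
    (hNM : ∀ v ∈ N, v ∉ M) (hNV : ∀ v ∈ N, ∀ u ∈ M, L.Adj u v → u ∈ V)
    (hadj : ∃ v ∈ N, ∃ u ∈ V, L.Adj u v) : L.Comp ((M ∪ N) \ C) (V ∪ N) := by
  obtain ⟨v, hv, u, hu, huv⟩ := hadj
  refine ⟨⟨u, Or.inl hu⟩, ?_, Con.union_adj hV.con hN hu hv huv, ?_⟩
  · rintro w (hw | hw)
    · exact ⟨Or.inl (hV.sub hw).1, (hV.sub hw).2⟩
    · exact ⟨Or.inr hw, fun h => hNM w hw (hCM h)⟩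
  · rintro a ha b ⟨hb | hb, hbC⟩ hab
    · rcases ha with ha | ha
      · exact Or.inl (hV.cl a ha b ⟨hb, hbC⟩ hab)
      · exact Or.inl (hNV a ha b hb hab.symm)
    · exact Or.inr hb

/-- LANDING STEP.  The clusters of colour `!c` attached to `S` in `M` are explored; `V` is a component of the rest, `N` a new
block next to it, `y ∈ V` has a neighbour in the explored set, `T ⊆ M ∪ N` is a connected set of fresh sites of colour `c`
which contains a site `u ∈ N` and meets the explored set.  Then in the mixed configuration `y` is joined to `u` in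
colour `c` in `V ∪ N`.  Proof: `step` with the component `V ∪ N` (`comp_add`), whose boundary is connected by
`con_bd` (`M ∪ N` exact). -/
theorem land_step {N V T : Set Pt} {G : Finset Pt} {η : Cfg} {y u : Pt} (hS : S ⊆ M)
    (hC : L.Con (L.Cx (!c) M S ω)) (hex : L.Exact (M ∪ N) (L.Cx (!c) M S ω))
    (hV : L.Comp (M \ L.Cx (!c) M S ω) V) (hN : L.Con N) (hNM : ∀ v ∈ N, v ∉ M)
    (hNV : ∀ v ∈ N, ∀ u ∈ M, L.Adj u v → u ∈ V) (hadj : ∃ v ∈ N, ∃ u ∈ V, L.Adj u v)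
    (hy : y ∈ V) (hy' : y ∈ L.nb (L.Cx (!c) M S ω)) (hT : L.Con T) (hTM : T ⊆ M ∪ N)
    (hTG : T ⊆ (G : Set Pt)) (hTc : T ⊆ L.col c η) (hu : u ∈ T) (huN : u ∈ N)
    (hTC : (T ∩ L.Cx (!c) M S ω).Nonempty) :
    L.Cn ((V ∪ N) ∩ L.col c (mix G (L.Rev (!c) M S) ω η)) y u := by
  have hCM : L.Cx (!c) M S ω ⊆ M := Cx_sub hS
  have hV' : L.Comp ((M ∪ N) \ L.Cx (!c) M S ω) (V ∪ N) := comp_add hCM hV hN hNM hNV hadj
  refine step hS (fun v hv => ⟨hNM v hv, ?_⟩) hV'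
    (con_bd hex hC (fun x hx => Or.inl (hCM hx)) hV') (Or.inl hy) hy' hT hTM hTG hTc hu huN
    (Or.inr huN) hTC
  rintro ⟨w, hw, hwv⟩
  exact (hV.sub (hNV v hv w (hCM hw) hwv)).2 hw

/-- The component of `M \ C` that contains the end `y` of a path of colour `c` in `M \ S` contains the whole path. -/
theorem comp_path {V : Set Pt} {x y : Pt} (hV : L.Comp (M \ L.Cx (!c) M S ω) V)
    (h : L.Cn ((M \ S) ∩ L.col c ω) x y) (hy : y ∈ V) : x ∈ V := by
  have hsub : (M \ S) ∩ L.col c ω ⊆ M \ L.Cx (!c) M S ω := by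
    rintro w ⟨⟨hwM, hwS⟩, hwc⟩
    refine ⟨hwM, fun hC => ?_⟩
    have h1 : L.st ω w = !c := (Cx_col hC hwS).2
    have h2 : L.st ω w = c := hwc
    rw [h2] at h1
    cases c <;> simp at h1
  have key : ∀ w, L.Cn ((M \ S) ∩ L.col c ω) y w → w ∈ V := by
    rintro w ⟨_, hw⟩
    induction hw with
    | refl => exact hy
    | tail _ hbc ih => exact hV.cl _ ih _ (hsub hbc.2) hbc.1
  exact key x h.symm

end Lat

end SC

end

/-! ### from `Lib_MP_e0a489.SE5` -/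

section

/-!
# MP_e0a489, module SE 5: inclusions between the events for different radii
-/

set_option autoImplicit false

namespace SC

open Classical

namespace Lat

variable {L : Lat} {c : Bool} {ω : Cfg}

private theorem se5_nrm_nb {r : ℤ} {x : Pt} (hx : x ∈ L.nb (bx r)) : nrm x ≤ r + 1 := by
  obtain ⟨u, hu, ha⟩ := hx
  obtain ⟨n1, n2⟩ := ha.near
  have hu' : max |u.1| |u.2| ≤ r := hu
  rw [max_le_iff, abs_le, abs_le] at hu'
  rw [abs_le] at n1 n2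
  obtain ⟨⟨a1, a2⟩, a3, a4⟩ := hu'
  unfold nrm
  rw [max_le_iff, abs_le, abs_le]
  refine ⟨⟨?_, ?_⟩, ?_, ?_⟩ <;> omega

private theorem se5_start {r r' : ℤ} {x : Pt} (hx : x ∈ L.nb (bx r)) (h1 : r ≤ r') :
    nrm x ≤ r' ∨ x ∈ L.nb (bx r') := by
  rcases eq_or_lt_of_le h1 with e | e
  · subst e
    exact Or.inr hx
  · have := se5_nrm_nb hx
    exact Or.inl (by omega)

private theorem se5_ann {r R r' R' : ℤ} (h1 : r ≤ r') (h3 : R' ≤ R) : ann r' R' ⊆ ann r R := by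
  rintro v ⟨h4, h5⟩
  exact ⟨by omega, by omega⟩

private theorem se5_cross {r R r' R' : ℤ} {x y : Pt}
    (h : L.Cn (ann r R ∩ L.col c ω) x y) (hx : x ∈ L.nb (bx r)) (hy : y ∈ rng R)
    (hr : 0 ≤ r) (h1 : r ≤ r') (h2 : r' < R') (h3 : R' ≤ R) :
    ∃ p ∈ L.nb (bx r'), ∃ w ∈ rng R', L.Cn (ann r' R' ∩ L.col c ω) p w ∧
      L.Cn (ann r R ∩ L.col c ω) x p := by
  have hQ : L.Cn {v | L.Cn (ann r R ∩ L.col c ω) x v} x y :=
    con_cluster (L := L) (ann r R ∩ L.col c ω) x x (Cn.refl h.left) y h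
  have hy' : nrm y = R := hy
  obtain ⟨p, w, hp, hw, hpw⟩ := Cn.crossing (r := r') (m := R') (by omega) h2 hQ (se5_start hx h1)
    (by omega)
  refine ⟨p, hp, w, hw, hpw.mono ?_, hpw.left.1⟩
  rintro v ⟨hv1, hv2⟩
  exact ⟨hv2, (Cn.right hv1).2⟩

/-- Let `Q = {z : x is joined to z in ann r R}` (connected, `con_cluster`), `Q'` the same for `x'`.  `Cn.crossing` for the set `Q` (radii
`r'`, `R'`; if `r < r'` the site `x ∈ nb (bx r)` has norm `≤ r + 1 ≤ r'`, if `r = r'` it is in `nb (bx r')`) gives `p ∈ nb (bx r')`, `w ∈ rng R'`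
joined in `Q ∩ ann r' R'`; similarly `p'`, `w'`.  If `p` and `p'` were joined in `ann r' R'` in colour `c`, then `x` and `x'` would be joined in
`ann r R ⊇ ann r' R'`. -/
theorem TwoA.mono {r R r' R' : ℤ} (h : L.TwoA c r R ω) (hr : 0 ≤ r) (h1 : r ≤ r') (h2 : r' < R')
    (h3 : R' ≤ R) : L.TwoA c r' R' ω := by
  obtain ⟨x, hx, y, hy, x', hx', y', hy', hxy, hxy', hn⟩ := h
  obtain ⟨p, hp, w, hw, hpw, hxp⟩ := se5_cross hxy hx hy hr h1 h2 h3
  obtain ⟨p', hp', w', hw', hpw', hxp'⟩ := se5_cross hxy' hx' hy' hr h1 h2 h3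
  refine ⟨p, hp, w, hw, p', hp', w', hw', hpw, hpw', fun hc => hn ?_⟩
  have hc' : L.Cn (ann r R ∩ L.col c ω) p p' :=
    hc.mono (Set.inter_subset_inter_left _ (se5_ann h1 h3))
  exact (hxp.trans hc').trans hxp'.symm

/-- An arm that starts next to `bx r` in a domain outside `bx r` and ends outside `bx r'`, `r ≤ r'`: if `r = r'` then
`D \ bx r' = D`; otherwise its first site has norm `≤ r + 1 ≤ r'`; take the part after the last visit of `bx r'`
(`Cn.last` with `S = bx r'`). -/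
theorem Arm.last_bx {D Y : Set Pt} {r r' : ℤ} (h : L.Arm c D (L.nb (bx r)) Y ω) (hr : 0 ≤ r)
    (h1 : r ≤ r') (hD : ∀ v ∈ D, r < nrm v) (hY : ∀ v ∈ Y, r' < nrm v) :
    L.Arm c (D \ bx r') (L.nb (bx r')) Y ω := by
  have _ := hr
  obtain ⟨x, hx, y, hy, hxy⟩ := h
  rcases eq_or_lt_of_le h1 with e | e
  · subst e
    refine ⟨x, hx, y, hy, hxy.mono ?_⟩
    rintro v ⟨hv1, hv2⟩
    refine ⟨⟨hv1, fun hb => ?_⟩, hv2⟩
    have hb' : nrm v ≤ r := hb
    have := hD v hv1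
    omega
  · have hx1 := se5_nrm_nb hx
    have hxS : x ∈ bx r' := by
      change nrm x ≤ r'
      omega
    have hyS : y ∉ bx r' := by
      intro hb
      have hb' : nrm y ≤ r' := hb
      have := hY y hy
      omega
    obtain ⟨p, q, -, hpS, ha, hc⟩ := hxy.last hxS hyS
    refine ⟨q, ⟨p, hpS, ha⟩, y, hy, hc.mono ?_⟩
    rintro v ⟨⟨hv1, hv2⟩, hv3⟩
    exact ⟨⟨hv1, hv3⟩, hv2⟩

/-- Both arms of each colour: `Arm.last_bx`, `(ann r R ∪ Jc c R) \ bx r' ⊆ ann r' R ∪ Jc c R`. -/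
theorem Sout.mono {r R r' : ℤ} (h : L.Sout r R ω) (hr : 0 ≤ r) (h1 : r ≤ r') (h2 : r' ≤ R) :
    L.Sout r' R ω := by
  rcases eq_or_lt_of_le h1 with e | e
  · subst e
    exact h
  · have key : ∀ (b : Bool) (s : ℤ), L.Arm b (ann r R ∪ Jc b R) (L.nb (bx r)) (Je s R) ω →
        L.Arm b (ann r' R ∪ Jc b R) (L.nb (bx r')) (Je s R) ω := by
      intro b s hb
      have h3 := Arm.last_bx hb hr h1 (r' := r') ?_ ?_
      · refine h3.mono ?_ (Set.Subset.refl _) (Set.Subset.refl _)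
        rintro v ⟨hv1 | hv1, hv2⟩
        · refine Or.inl ⟨?_, hv1.2⟩
          by_contra hlt
          exact hv2 (show nrm v ≤ r' by omega)
        · exact Or.inr hv1
      · rintro v (hv | hv)
        · exact hv.1
        · have := Jc_nrm (by omega) hv
          omega
      · intro v hv
        have := Zn_nrm (s := s) (a := 2 * R) (b := 2 * R) (h := R / 4) (by omega) (by omega) hv
        omega
    intro b
    exact ⟨key b _ (h b).1, key b _ (h b).2⟩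

end Lat

end SC

end

/-! ### from `Lib_MP_e0a489.SE16` -/

section

/-!
# MP_e0a489, module SE 16: pointwise outer separation for all radii
-/

set_option autoImplicit false

namespace SC

variable [IfL]

open Classical

/-- the smallest odd `w` with `m ≤ D w` -/
theorem choose_w {D : ℤ} (hD : 0 < D) (m : ℤ) : ∃ w : ℤ, w % 2 = 1 ∧ m ≤ D * w ∧
    D * w < m + 2 * D := by
  obtain ⟨q, hq1, hq2⟩ : ∃ q : ℤ, m ≤ D * q ∧ D * q < m + D := by
    refine ⟨-((-m) / D), ?_, ?_⟩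
    · have h1 := Int.mul_ediv_add_emod (-m) D
      have h2 := Int.emod_nonneg (-m) hD.ne'
      have h3 : D * -((-m) / D) = -(D * ((-m) / D)) := by ring
      omega
    · have h1 := Int.mul_ediv_add_emod (-m) D
      have h2 := Int.emod_lt_of_pos (-m) hD
      have h3 : D * -((-m) / D) = -(D * ((-m) / D)) := by ring
      omega
  by_cases h : q % 2 = 1
  · exact ⟨q, h, hq1, by omega⟩
  · refine ⟨q + 1, by omega, ?_, ?_⟩
    · rw [mul_add, mul_one]; omega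
    · rw [mul_add, mul_one]; omega

/-- Arithmetic of the choice of the block size, outer case.  `μ` odd, `M = μ Mc + μ / 2`, `D = 2 M + 1 = μ (2 Mc + 1)`, `w` from `choose_w` with
`m = R`, `R₁ = M w + w / 2`, so `2 R₁ + 1 = D w ∈ [R, R + 2 D)`.  (`w ≥ w₀` because `D w ≥ R ≥ D w₀`; `μ w ≤ D w / 3`;
`R / 4 ≤ R₁ / 2` because `(2 R₁ + 1) / 4 = R₁ / 2`.)  The last conclusion: if `2 μ + 20 ≤ M` then `D ≥ 4 μ + 41` and
`(μ + 10) w ≤ D w / 4`. -/
theorem outer_arith {μ Mc w₀ R : ℤ} (hμ : μ % 2 = 1) (hμ0 : 0 < μ) (hMc : 0 < Mc) (hw₀ : 0 < w₀)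
    (hR : (2 * (μ * Mc + μ / 2) + 1) * (w₀ + 6) ≤ R) (hR' : 16 ≤ R) :
    ∃ w R₁ : ℤ, w % 2 = 1 ∧ w₀ ≤ w ∧ R₁ = (μ * Mc + μ / 2) * w + w / 2 ∧ R₁ ≤ R ∧
      R ≤ 2 * R₁ + 1 ∧ R / 4 ≤ R₁ / 2 ∧ R₁ + μ * w ≤ 2 * R ∧ R ≤ 4 * R₁ ∧
      (2 * μ + 20 ≤ μ * Mc + μ / 2 → R₁ + (μ + 10) * w ≤ R) := by
  obtain ⟨M, hM⟩ : ∃ M, M = μ * Mc + μ / 2 := ⟨_, rfl⟩
  rw [← hM] at hR
  rw [← hM]
  have hD3 : 3 * μ ≤ 2 * M + 1 := by
    have h1 : μ * 1 ≤ μ * Mc := mul_le_mul_of_nonneg_left (by omega) hμ0.le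
    omega
  obtain ⟨w, hw1, hw2, hw3⟩ := choose_w (D := 2 * M + 1) (by omega) R
  obtain ⟨R₁, hR₁⟩ : ∃ R₁, R₁ = M * w + w / 2 := ⟨_, rfl⟩
  have hDw : (2 * M + 1) * w = 2 * R₁ + 1 := by
    have h2 : (2 * M + 1) * w = 2 * (M * w) + w := by ring
    omega
  have h7 : (2 * M + 1) * 7 ≤ (2 * M + 1) * (w₀ + 6) :=
    mul_le_mul_of_nonneg_left (by omega) (by omega)
  have hww : w₀ + 6 ≤ w := by
    by_contra hcon
    have h8 : (2 * M + 1) * w < (2 * M + 1) * (w₀ + 6) :=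
      mul_lt_mul_of_pos_left (by omega) (by omega)
    omega
  have hw0 : 0 ≤ w := by omega
  have h3w : 3 * (μ * w) ≤ 2 * R₁ + 1 := by
    have h9 : (3 * μ) * w ≤ (2 * M + 1) * w := mul_le_mul_of_nonneg_right hD3 hw0
    have h10 : 3 * μ * w = 3 * (μ * w) := by ring
    omega
  rw [hDw] at hw2 hw3
  refine ⟨w, R₁, hw1, by omega, hR₁, by omega, by omega, by omega, by omega, by omega, ?_⟩
  intro h11
  have h12 : (4 * (μ + 10)) * w ≤ (2 * M + 1) * w := mul_le_mul_of_nonneg_right (by omega) hw0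
  have h13 : 4 * (μ + 10) * w = 4 * ((μ + 10) * w) := by ring
  omega

/-- POINTWISE OUTER SEPARATION.  Take `μ, Mc, w₀, C₁, Λ` from `outer_land κ e`, for every `q ∈ Λ` the constants `p q`, `w₀ q` of
`route_out` (`choose`; use `Land` from the statement of `outer_land`), `C = C₁ ∑_{q ∈ Λ} 1 / p q + 1`, `R₀` so large that
`outer_arith` applies with `max w₀ (w₀ q)`.  Given `r, R, G, ω`: `w, R₁` from `outer_arith`; `G₁ = {R₁/2 < nrm v ≤ R₁ + μ w} ⊆ G` (`exists_annF`).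
`TwoA true r R ⊆ TwoA true r R₁` (`TwoA.mono`), so `cpr G (TwoA r R) ≤ cpr G (TwoA r R₁) = av G (cpr G₁ (TwoA r R₁))` (`av_av`, `G ∪ G₁ = G`)
`≤ e av G (ind (TwoA r (R₁/2))) + C₁ ∑ av G (cpr G₁ E2o)`.  First: `TwoA r (R₁/2) ⊆ TwoA r (R/4)`, which does not depend on `G`
(`TwoA.dep`, `av_of_dep`).  Second: `av G (cpr G₁ E2o) = cpr G E2o ≤ (1 / p q) cpr G (Sout r R)` by `route_out` with `R' = R` (if `Λ` is not
empty, `Land` gives `2 μ + 20 ≤ M`, so `R₁ + (μ + 10) w ≤ R`). -/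
theorem outer_pt (κ : ℕ → ℝ) (e : ℝ) (he : 0 < e) : ∃ (C : ℝ) (R₀ : ℤ), 0 < C ∧ 16 ≤ R₀ ∧
    ∀ L : Lat, RSW L κ → ∀ r R : ℤ, 1 ≤ r → R₀ ≤ R → 16 * r ≤ R → ∀ G : Finset Pt,
      (∀ v, v ∈ G ↔ R / 4 < nrm v ∧ nrm v ≤ 2 * R) → ∀ ω : Cfg,
      cpr G (L.TwoA true r R) ω ≤ e * ind (L.TwoA true r (R / 4)) ω +
        C * cpr G (L.Sout r R) ω := by
  obtain ⟨μ, Mc, w₀, C₁, Λ, hμ, hμ0, hMc, hw₀, hC₁, hLand, H⟩ := outer_land κ e he
  have hch : ∀ q : Bool × (Fin 4 → ℤ) × (Fin 4 → ℤ), ∃ (p : ℝ) (w₀' : ℤ), 0 < p ∧ 0 < w₀' ∧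
      (q ∈ Λ → ∀ L : Lat, RSW L κ → ∀ w r R' : ℤ, w % 2 = 1 → w₀' ≤ w →
      1 ≤ r → 2 * r ≤ (μ * Mc + μ / 2) * w + w / 2 →
      (μ * Mc + μ / 2) * w + w / 2 + (μ + 10) * w ≤ R' →
      R' ≤ 4 * ((μ * Mc + μ / 2) * w + w / 2) → ∀ G : Finset Pt,
      (∀ v, (μ * Mc + μ / 2) * w + w / 2 < nrm v → nrm v ≤ 2 * R' → v ∈ G) → ∀ ω : Cfg,
      p * cpr G (L.E2o r w μ Mc q.1 q.2.1 q.2.2) ω ≤ cpr G (L.Sout r R') ω) := by
    intro q
    by_cases hq : q ∈ Λ
    · obtain ⟨p, w₁, h1, h2, h3⟩ := route_out κ μ Mc hμ hμ0 hMc q.1 q.2.1 q.2.2 (hLand q hq)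
      exact ⟨p, w₁, h1, h2, fun _ => h3⟩
    · exact ⟨1, 1, one_pos, one_pos, fun h => absurd h hq⟩
  choose p w₁ hp hw₁ hroute using hch
  have hsum : 0 ≤ ∑ q ∈ Λ, w₁ q := Finset.sum_nonneg fun q _ => (hw₁ q).le
  have hsumC : 0 ≤ ∑ q ∈ Λ, 1 / p q := Finset.sum_nonneg fun q _ => (one_div_pos.2 (hp q)).le
  refine ⟨C₁ * ∑ q ∈ Λ, 1 / p q + 1,
    max 16 ((2 * (μ * Mc + μ / 2) + 1) * ((w₀ + ∑ q ∈ Λ, w₁ q) + 6)), by positivity,
    le_max_left _ _, ?_⟩
  intro L hL r R hr hR hrR G hG ω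
  obtain ⟨w, R₁, hw1, hww, hR₁, hR1, hR2, hR3, hR4, hR5, hR6⟩ := outer_arith (R := R) hμ hμ0 hMc
    (w₀ := w₀ + ∑ q ∈ Λ, w₁ q) (by omega) (le_trans (le_max_right _ _) hR)
    (le_trans (le_max_left _ _) hR)
  obtain ⟨G₁, hG₁⟩ := exists_annF (R₁ / 2) (R₁ + μ * w)
  have hGG : G ∪ G₁ = G := by
    refine Finset.union_eq_left.2 fun v hv => ?_
    have h1 := (hG₁ v).1 hv
    exact (hG v).2 ⟨by omega, by omega⟩
  have hpt : ∀ ω' : Cfg, cpr G₁ (L.TwoA true r R₁) ω' ≤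
      e * ind (L.TwoA true r (R₁ / 2)) ω' +
        C₁ * ∑ q ∈ Λ, cpr G₁ (L.E2o r w μ Mc q.1 q.2.1 q.2.2) ω' := by
    intro ω'
    have h1 := H L hL w r hw1 (by omega) hr (by rw [← hR₁]; omega) G₁
      (fun v => by rw [← hR₁]; exact hG₁ v) ω'
    rw [← hR₁] at h1
    exact h1
  have hav : ∀ A : Cfg → Prop, av G (cpr G₁ A) ω = cpr G A ω := by
    intro A
    show av G (av G₁ (ind A)) ω = av G (ind A) ω
    rw [av_av, hGG]
  have step1 : cpr G (L.TwoA true r R) ω ≤ cpr G (L.TwoA true r R₁) ω :=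
    cpr_mono fun ω' _ h => Lat.TwoA.mono h (by omega) le_rfl (by omega) hR1
  have step2 : cpr G (L.TwoA true r R₁) ω ≤
      e * av G (ind (L.TwoA true r (R₁ / 2))) ω +
        C₁ * ∑ q ∈ Λ, cpr G (L.E2o r w μ Mc q.1 q.2.1 q.2.2) ω := by
    rw [← hav]
    refine (av_mono fun ω' _ => hpt ω').trans (le_of_eq ?_)
    rw [av_add, av_smul, av_smul, av_sum]
    congr 2
    refine Finset.sum_congr rfl fun q _ => ?_
    exact hav _
  have step3 : av G (ind (L.TwoA true r (R₁ / 2))) ω ≤ ind (L.TwoA true r (R / 4)) ω := by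
    have h1 : av G (ind (L.TwoA true r (R₁ / 2))) ω ≤ av G (ind (L.TwoA true r (R / 4))) ω :=
      cpr_mono fun ω' _ h => Lat.TwoA.mono h (by omega) le_rfl (by omega) hR3
    refine h1.trans (le_of_eq ?_)
    refine av_of_dep (Dep.ind (Lat.TwoA.dep L true r (R / 4))) (fun v hv hv' => ?_) ω
    have h2 := (hG v).1 hv
    have h3 : r < nrm v ∧ nrm v ≤ R / 4 := hv'
    omega
  have step4 : ∀ q ∈ Λ, cpr G (L.E2o r w μ Mc q.1 q.2.1 q.2.2) ω ≤
      1 / p q * cpr G (L.Sout r R) ω := by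
    intro q hq
    have hl := hLand q hq
    have hcor := hl.cor 0
    have habs := abs_nonneg (fpos μ q.1 q.2.2 0)
    have h1 := hroute q hq L hL w r R hw1 ?_ hr (by rw [← hR₁]; omega)
      (by rw [← hR₁]; exact hR6 (by omega)) (by rw [← hR₁]; exact hR5) G
      (fun v h2 h3 => (hG v).2 ⟨by rw [← hR₁] at h2; omega, h3⟩) ω
    · rw [one_div, ← div_eq_inv_mul, le_div_iff₀ (hp q), mul_comm]
      exact h1
    · have h4 : w₁ q ≤ ∑ q ∈ Λ, w₁ q :=
        Finset.single_le_sum (f := w₁) (fun q _ => (hw₁ q).le) hq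
      omega
  have hS0 : 0 ≤ cpr G (L.Sout r R) ω := cpr_nonneg _ _ _
  have step5 : ∑ q ∈ Λ, cpr G (L.E2o r w μ Mc q.1 q.2.1 q.2.2) ω ≤
      (∑ q ∈ Λ, 1 / p q) * cpr G (L.Sout r R) ω := by
    rw [Finset.sum_mul]
    exact Finset.sum_le_sum step4
  calc cpr G (L.TwoA true r R) ω ≤ cpr G (L.TwoA true r R₁) ω := step1
    _ ≤ e * av G (ind (L.TwoA true r (R₁ / 2))) ω +
        C₁ * ∑ q ∈ Λ, cpr G (L.E2o r w μ Mc q.1 q.2.1 q.2.2) ω := step2
    _ ≤ e * ind (L.TwoA true r (R / 4)) ω +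
        C₁ * ((∑ q ∈ Λ, 1 / p q) * cpr G (L.Sout r R) ω) :=
        add_le_add (mul_le_mul_of_nonneg_left step3 he.le)
          (mul_le_mul_of_nonneg_left step5 hC₁.le)
    _ ≤ e * ind (L.TwoA true r (R / 4)) ω +
        (C₁ * ∑ q ∈ Λ, 1 / p q + 1) * cpr G (L.Sout r R) ω := by
        have h6 : (C₁ * ∑ q ∈ Λ, 1 / p q + 1) * cpr G (L.Sout r R) ω =
          C₁ * ((∑ q ∈ Λ, 1 / p q) * cpr G (L.Sout r R) ω) + cpr G (L.Sout r R) ω := by ring
        rw [h6]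
        linarith

end SC

end

/-! ### from `Lib_MP_e0a489.SE17` -/

section

/-!
# MP_e0a489, module SE 17: pointwise inner separation for all radii
-/

set_option autoImplicit false

namespace SC

variable [IfL]

open Classical

private theorem choose_w17 {D : ℤ} (hD : 0 < D) (m : ℤ) : ∃ w : ℤ, w % 2 = 1 ∧ m ≤ D * w ∧
    D * w < m + 2 * D := by
  obtain ⟨q, hq1, hq2⟩ : ∃ q : ℤ, m ≤ D * q ∧ D * q < m + D := by
    refine ⟨-((-m) / D), ?_, ?_⟩
    · have h1 := Int.mul_ediv_add_emod (-m) D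
      have h2 := Int.emod_nonneg (-m) hD.ne'
      have h3 : D * -((-m) / D) = -(D * ((-m) / D)) := by ring
      omega
    · have h1 := Int.mul_ediv_add_emod (-m) D
      have h2 := Int.emod_lt_of_pos (-m) hD
      have h3 : D * -((-m) / D) = -(D * ((-m) / D)) := by ring
      omega
  by_cases h : q % 2 = 1
  · exact ⟨q, h, hq1, by omega⟩
  · refine ⟨q + 1, by omega, ?_, ?_⟩
    · rw [mul_add, mul_one]; omega
    · rw [mul_add, mul_one]; omega

/-- Arithmetic of the choice of the block size, inner case.  `D = 2 (μ Mc + μ/2) + 1 = μ (2 Mc + 1)`, `w` the smallest odd number with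
`5 r ≤ D w`, so `D w < 5 r + 2 D`, `r₁ = M w + w / 2`, `2 r₁ + 1 = D w`.  `μ w ≤ D w / 3`; if `2 μ + 20 ≤ M` then `(μ + 10) w ≤ D w / 4`. -/
theorem inner_arith {μ Mc w₀ r : ℤ} (hμ : μ % 2 = 1) (hμ0 : 0 < μ) (hMc : 0 < Mc) (hw₀ : 0 < w₀)
    (hr : (2 * (μ * Mc + μ / 2) + 1) * (w₀ + 6) ≤ r) (hr' : 16 ≤ r) :
    ∃ w r₁ : ℤ, w % 2 = 1 ∧ w₀ ≤ w ∧ r₁ = (μ * Mc + μ / 2) * w + w / 2 ∧ r ≤ r₁ ∧
      8 * r₁ ≤ 64 * r ∧ r / 2 ≤ r₁ - μ * w ∧ 2 * r₁ ≤ 8 * r ∧ r₁ ≤ 4 * r ∧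
      (2 * μ + 20 ≤ μ * Mc + μ / 2 → r + (μ + 10) * w ≤ r₁) := by
  obtain ⟨M, hM⟩ : ∃ M, M = μ * Mc + μ / 2 := ⟨_, rfl⟩
  rw [← hM] at hr
  rw [← hM]
  have hD3 : 3 * μ ≤ 2 * M + 1 := by
    have h1 : μ * 1 ≤ μ * Mc := mul_le_mul_of_nonneg_left (by omega) hμ0.le
    omega
  obtain ⟨w, hw1, hw2, hw3⟩ := choose_w17 (D := 2 * M + 1) (by omega) (5 * r)
  obtain ⟨r₁, hr₁⟩ : ∃ r₁, r₁ = M * w + w / 2 := ⟨_, rfl⟩
  have hDw : (2 * M + 1) * w = 2 * r₁ + 1 := by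
    have h2 : (2 * M + 1) * w = 2 * (M * w) + w := by ring
    omega
  have h7 : (2 * M + 1) * 7 ≤ (2 * M + 1) * (w₀ + 6) :=
    mul_le_mul_of_nonneg_left (by omega) (by omega)
  have hww : w₀ + 6 ≤ w := by
    by_contra hcon
    have h8 : (2 * M + 1) * w < (2 * M + 1) * (w₀ + 6) :=
      mul_lt_mul_of_pos_left (by omega) (by omega)
    omega
  have hw0 : 0 ≤ w := by omega
  have h3w : 3 * (μ * w) ≤ 2 * r₁ + 1 := by
    have h9 : (3 * μ) * w ≤ (2 * M + 1) * w := mul_le_mul_of_nonneg_right hD3 hw0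
    have h10 : 3 * μ * w = 3 * (μ * w) := by ring
    omega
  rw [hDw] at hw2 hw3
  refine ⟨w, r₁, hw1, by omega, hr₁, by omega, by omega, by omega, by omega, by omega, ?_⟩
  intro h11
  have h12 : (4 * (μ + 10)) * w ≤ (2 * M + 1) * w := mul_le_mul_of_nonneg_right (by omega) hw0
  have h13 : 4 * (μ + 10) * w = 4 * ((μ + 10) * w) := by ring
  omega

/-- POINTWISE INNER SEPARATION.  As `outer_pt`, from `inner_land κ e` and `route_in` with `r' = r`.  `G₁ = {r₁ - μ w < nrm v ≤ 2 r₁} ⊆ G`,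
`Sout r R ⊆ Sout r₁ R` (`Sout.mono`), `Sout (2 r₁) R ⊆ Sout (8 r) R`, which does not depend on `G` (`Sout.dep`). -/
theorem inner_pt (κ : ℕ → ℝ) (e : ℝ) (he : 0 < e) : ∃ (C : ℝ) (R₀ : ℤ), 0 < C ∧ 16 ≤ R₀ ∧
    ∀ L : Lat, RSW L κ → ∀ r R : ℤ, R₀ ≤ r → 64 * r ≤ R → ∀ G : Finset Pt,
      (∀ v, v ∈ G ↔ r / 2 < nrm v ∧ nrm v ≤ 8 * r) → ∀ ω : Cfg,
      cpr G (L.Sout r R) ω ≤ e * ind (L.Sout (8 * r) R) ω + C * cpr G (L.S4 r R) ω := by
  obtain ⟨μ, Mc, w₀, C₁, Λ, hμ, hμ0, hMc, hw₀, hC₁, hLand, H⟩ := inner_land κ e he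
  have hch : ∀ q : Bool × (Fin 4 → ℤ) × (Fin 4 → ℤ) × (Fin 4 → ℤ), ∃ (p : ℝ) (w₀' : ℤ),
      0 < p ∧ 0 < w₀' ∧
      (q ∈ Λ → ∀ L : Lat, RSW L κ → ∀ w R r' : ℤ, w % 2 = 1 → w₀' ≤ w →
      2 * ((μ * Mc + μ / 2) * w + w / 2) ≤ R →
      r' + (μ + 10) * w ≤ (μ * Mc + μ / 2) * w + w / 2 →
      (μ * Mc + μ / 2) * w + w / 2 ≤ 4 * r' → ∀ G : Finset Pt,
      (∀ v, r' / 2 < nrm v → nrm v ≤ (μ * Mc + μ / 2) * w + w / 2 → v ∈ G) → ∀ ω : Cfg,
      p * cpr G (L.E2i w μ Mc R q.1 q.2.1 q.2.2.1 q.2.2.2) ω ≤ cpr G (L.S4 r' R) ω) := by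
    intro q
    by_cases hq : q ∈ Λ
    · obtain ⟨p, w₁, h1, h2, h3⟩ := route_in κ μ Mc hμ hμ0 hMc q.1 q.2.1 q.2.2.1 q.2.2.2
        (hLand q hq).1 (hLand q hq).2
      exact ⟨p, w₁, h1, h2, fun _ => h3⟩
    · exact ⟨1, 1, one_pos, one_pos, fun h => absurd h hq⟩
  choose p w₁ hp hw₁ hroute using hch
  have hsum : 0 ≤ ∑ q ∈ Λ, w₁ q := Finset.sum_nonneg fun q _ => (hw₁ q).le
  have hsumC : 0 ≤ ∑ q ∈ Λ, 1 / p q := Finset.sum_nonneg fun q _ => (one_div_pos.2 (hp q)).le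
  refine ⟨C₁ * ∑ q ∈ Λ, 1 / p q + 1,
    max 16 ((2 * (μ * Mc + μ / 2) + 1) * ((w₀ + ∑ q ∈ Λ, w₁ q) + 6)), by positivity,
    le_max_left _ _, ?_⟩
  intro L hL r R hr hrR G hG ω
  have hr16 : 16 ≤ r := le_trans (le_max_left _ _) hr
  obtain ⟨w, r₁, hw1, hww, hr₁, hr1, hr2, hr3, hr4, hr5, hr6⟩ := inner_arith (r := r) hμ hμ0 hMc
    (w₀ := w₀ + ∑ q ∈ Λ, w₁ q) (by omega) (le_trans (le_max_right _ _) hr) hr16
  obtain ⟨G₁, hG₁⟩ := exists_annF (r₁ - μ * w) (2 * r₁)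
  have hGG : G ∪ G₁ = G := by
    refine Finset.union_eq_left.2 fun v hv => ?_
    have h1 := (hG₁ v).1 hv
    exact (hG v).2 ⟨by omega, by omega⟩
  have hpt : ∀ ω' : Cfg, cpr G₁ (L.Sout r₁ R) ω' ≤
      e * ind (L.Sout (2 * r₁) R) ω' +
        C₁ * ∑ q ∈ Λ, cpr G₁ (L.E2i w μ Mc R q.1 q.2.1 q.2.2.1 q.2.2.2) ω' := by
    intro ω'
    have h1 := H L hL w R hw1 (by omega) (by rw [← hr₁]; omega) G₁
      (fun v => by rw [← hr₁]; exact hG₁ v) ω'
    rw [← hr₁] at h1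
    exact h1
  have hav : ∀ A : Cfg → Prop, av G (cpr G₁ A) ω = cpr G A ω := by
    intro A
    show av G (av G₁ (ind A)) ω = av G (ind A) ω
    rw [av_av, hGG]
  have step1 : cpr G (L.Sout r R) ω ≤ cpr G (L.Sout r₁ R) ω :=
    cpr_mono fun ω' _ h => Lat.Sout.mono h (by omega) hr1 (by omega)
  have step2 : cpr G (L.Sout r₁ R) ω ≤
      e * av G (ind (L.Sout (2 * r₁) R)) ω +
        C₁ * ∑ q ∈ Λ, cpr G (L.E2i w μ Mc R q.1 q.2.1 q.2.2.1 q.2.2.2) ω := by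
    rw [← hav]
    refine (av_mono fun ω' _ => hpt ω').trans (le_of_eq ?_)
    rw [av_add, av_smul, av_smul, av_sum]
    congr 2
    refine Finset.sum_congr rfl fun q _ => ?_
    exact hav _
  have step3 : av G (ind (L.Sout (2 * r₁) R)) ω ≤ ind (L.Sout (8 * r) R) ω := by
    have h1 : av G (ind (L.Sout (2 * r₁) R)) ω ≤ av G (ind (L.Sout (8 * r) R)) ω :=
      cpr_mono fun ω' _ h => Lat.Sout.mono h (by omega) (by omega) (by omega)
    refine h1.trans (le_of_eq ?_)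
    refine av_of_dep (Dep.ind (Lat.Sout.dep L (r := 8 * r) (R := R) (by omega) (by omega)))
      (fun v hv hv' => ?_) ω
    have h2 := (hG v).1 hv
    have h3 : 8 * r < nrm v ∧ nrm v ≤ 2 * R := hv'
    omega
  have step4 : ∀ q ∈ Λ, cpr G (L.E2i w μ Mc R q.1 q.2.1 q.2.2.1 q.2.2.2) ω ≤
      1 / p q * cpr G (L.S4 r R) ω := by
    intro q hq
    have hl := (hLand q hq).1
    have hcor := hl.cor 0
    have habs := abs_nonneg (fpos μ q.1 q.2.2.1 0)
    have h1 := hroute q hq L hL w R r hw1 ?_ (by rw [← hr₁]; omega)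
      (by rw [← hr₁]; exact hr6 (by omega)) (by rw [← hr₁]; exact hr5) G
      (fun v h2 h3 => (hG v).2 ⟨h2, by rw [← hr₁] at h3; omega⟩) ω
    · rw [one_div, ← div_eq_inv_mul, le_div_iff₀ (hp q), mul_comm]
      exact h1
    · have h4 : w₁ q ≤ ∑ q ∈ Λ, w₁ q :=
        Finset.single_le_sum (f := w₁) (fun q _ => (hw₁ q).le) hq
      omega
  have hS0 : 0 ≤ cpr G (L.S4 r R) ω := cpr_nonneg _ _ _
  have step5 : ∑ q ∈ Λ, cpr G (L.E2i w μ Mc R q.1 q.2.1 q.2.2.1 q.2.2.2) ω ≤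
      (∑ q ∈ Λ, 1 / p q) * cpr G (L.S4 r R) ω := by
    rw [Finset.sum_mul]
    exact Finset.sum_le_sum step4
  calc cpr G (L.Sout r R) ω ≤ cpr G (L.Sout r₁ R) ω := step1
    _ ≤ e * av G (ind (L.Sout (2 * r₁) R)) ω +
        C₁ * ∑ q ∈ Λ, cpr G (L.E2i w μ Mc R q.1 q.2.1 q.2.2.1 q.2.2.2) ω := step2
    _ ≤ e * ind (L.Sout (8 * r) R) ω +
        C₁ * ((∑ q ∈ Λ, 1 / p q) * cpr G (L.S4 r R) ω) :=
        add_le_add (mul_le_mul_of_nonneg_left step3 he.le)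
          (mul_le_mul_of_nonneg_left step5 hC₁.le)
    _ ≤ e * ind (L.Sout (8 * r) R) ω +
        (C₁ * ∑ q ∈ Λ, 1 / p q + 1) * cpr G (L.S4 r R) ω := by
        have h6 : (C₁ * ∑ q ∈ Λ, 1 / p q + 1) * cpr G (L.S4 r R) ω =
          C₁ * ((∑ q ∈ Λ, 1 / p q) * cpr G (L.S4 r R) ω) + cpr G (L.S4 r R) ω := by ring
        rw [h6]
        linarith

end SC

end

/-! ### from `Lib_MP_e0a489.XP1` -/

section

/-!
# MP_e0a489, exponents 1: two configurations which agree off a box (deterministic)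
-/

set_option autoImplicit false

namespace SC

namespace XP

open Classical

variable {L : Lat}

/-- `nrm` is a norm. -/
theorem nrm_comm (u v : Pt) : nrm (u - v) = nrm (v - u) := by
  unfold nrm
  rw [Prod.fst_sub, Prod.snd_sub, Prod.fst_sub, Prod.snd_sub, abs_sub_comm u.1, abs_sub_comm u.2]

theorem nrm_add (u v : Pt) : nrm (u + v) ≤ nrm u + nrm v := by
  unfold nrm
  rw [Prod.fst_add, Prod.snd_add]
  exact max_le ((abs_add_le _ _).trans (add_le_add (le_max_left _ _) (le_max_left _ _)))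
    ((abs_add_le _ _).trans (add_le_add (le_max_right _ _) (le_max_right _ _)))

/-- triangle inequality: `u - y = (u - v) + (v - y)` -/
theorem nrm_tri (u v y : Pt) : nrm (u - y) ≤ nrm (u - v) + nrm (v - y) := by
  have h := nrm_add (u - v) (v - y)
  rwa [sub_add_sub_cancel] at h

theorem abs_nrm (v : Pt) : |v.1| ≤ nrm v ∧ |v.2| ≤ nrm v := by
  exact ⟨le_max_left _ _, le_max_right _ _⟩

theorem nrm_nonneg' (v : Pt) : 0 ≤ nrm v := by
  exact le_max_of_le_left (abs_nonneg _)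

/-- `Adj.near`: adjacent sites have `nrm (u - v) ≤ 1`; triangle inequality -/
theorem adj_nrm {u v : Pt} (h : L.Adj u v) (y : Pt) : |nrm (u - y) - nrm (v - y)| ≤ 1 := by
  have h1 : nrm (u - v) ≤ 1 := max_le h.near.1 h.near.2
  have h2 := nrm_tri u v y
  have h3 := nrm_tri v u y
  rw [nrm_comm v u] at h3
  rw [abs_le]
  constructor <;> omega

/-- The first part of a path, up to the first site at distance `R` from `y`.  If `nrm (u - y) = R` take `w = u`.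
Otherwise use `Cn.exit` with `S = {z | nrm (z - y) < R}`: `Cn (A ∩ S) u p`, `Adj p q`, `q ∈ A`, `q ∉ S`, so
`nrm (q - y) = R` by `adj_nrm`; append the step `p → q`. -/
theorem to_rngAt {A : Set Pt} {u v y : Pt} {R : ℤ} (h : L.Cn A u v) (hu : nrm (u - y) ≤ R)
    (hv : R ≤ nrm (v - y)) : ∃ w, w ∈ rngAt y R ∧ L.Cn (A ∩ {z | nrm (z - y) ≤ R}) u w := by
  by_cases hR : nrm (u - y) = R
  · exact ⟨u, hR, Lat.Cn.refl ⟨h.left, hu⟩⟩
  · obtain ⟨p, q, h1, h2, h3, h4⟩ := h.exit (S := {z | nrm (z - y) < R})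
      (lt_of_le_of_ne hu hR) (fun hc => absurd hv (not_le.2 hc))
    have h5 : nrm (p - y) < R := h1.right.2
    have h6 := abs_le.1 (adj_nrm h2 y)
    have h7 : ¬ nrm (q - y) < R := h4
    have h8 : nrm (q - y) = R := by omega
    have h9 : L.Cn (A ∩ {z | nrm (z - y) ≤ R}) u p :=
      h1.mono fun z hz => ⟨hz.1, le_of_lt (show nrm (z - y) < R from hz.2)⟩
    exact ⟨q, h8, h9.trans (Lat.Cn.of_adj h9.right ⟨h3, h8.le⟩ h2)⟩

/-- sites where the configurations agree have the same colour -/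
theorem col_agree {c : Bool} {ω₁ ω₂ : Cfg} {v : Pt} (h : ω₁ v = ω₂ v) :
    v ∈ L.col c ω₁ ↔ v ∈ L.col c ω₂ := by
  show L.st ω₁ v = c ↔ L.st ω₂ v = c
  unfold Lat.st
  rw [h]

/-- Auxiliary statement.  Let `B = {z | r < nrm (z - y)}`, `A = Q ∩ col c ω₁`.
(a) The path from `u` to `v` is not contained in `B`: otherwise `A ∩ B ⊆ Q ∩ col c ω₂` (`col_agree`) and
`Cn (Q ∩ col c ω₂) u v`.
(b) Let `S = {z | Cn (A ∩ B) u z}`; `u ∈ S` because `R ≤ nrm (u - y)`, and `v ∉ S` by (a).  `Cn.exit`: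
`Cn (A ∩ S) u p`, `Adj p q`, `q ∈ A`, `q ∉ S`; so `p ∈ S`, that is `Cn (A ∩ B) u p`, and `q ∉ B` (otherwise `q ∈ S`), that is
`q ∈ bxAt y r`, `p ∈ L.nb (bxAt y r)`.
(c) `nrm (p - y) ≤ r + 1 ≤ R`.  Apply `to_rngAt` to the reversed path `Cn (A ∩ B) p u`. -/
theorem piv_aux {c : Bool} {Q S₁ S₂ : Set Pt} {ω₁ ω₂ : Cfg} {y : Pt} {r R : ℤ} (hrR : r < R)
    (hag : ∀ v, r < nrm (v - y) → ω₁ v = ω₂ v)
    {u v : Pt} (hu : u ∈ S₁) (hv : v ∈ S₂) (h1 : L.Cn (Q ∩ L.col c ω₁) u v)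
    (h2 : ∀ u ∈ S₁, ∀ v ∈ S₂, ¬ L.Cn (Q ∩ L.col c ω₂) u v)
    (hS₁ : ∀ v ∈ S₁, R ≤ nrm (v - y)) :
    ∃ p ∈ L.nb (bxAt y r), ∃ w ∈ rngAt y R, L.Cn (Q ∩ L.col c ω₁ ∩ {z | r < nrm (z - y)}) u p ∧
      L.Cn (Q ∩ annAt y r R ∩ L.col c ω₁) p w := by
  have hna : ¬ L.Cn (Q ∩ L.col c ω₁ ∩ {z | r < nrm (z - y)}) u v := by
    intro h
    exact h2 u hu v hv (h.mono fun z hz => ⟨hz.1.1, (col_agree (hag z hz.2)).1 hz.1.2⟩)
  have huR := hS₁ u hu
  have huB : u ∈ Q ∩ L.col c ω₁ ∩ {z | r < nrm (z - y)} := ⟨h1.left, lt_of_lt_of_le hrR huR⟩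
  obtain ⟨p, q, h3, h4, h5, h6⟩ := h1.exit
    (S := {z | L.Cn (Q ∩ L.col c ω₁ ∩ {z | r < nrm (z - y)}) u z}) (Lat.Cn.refl huB) hna
  have hp : L.Cn (Q ∩ L.col c ω₁ ∩ {z | r < nrm (z - y)}) u p := h3.right.2
  have hq : ¬ r < nrm (q - y) := fun h => h6 (hp.trans (Lat.Cn.of_adj hp.right ⟨h5, h⟩ h4))
  have hpq := abs_le.1 (adj_nrm h4 y)
  obtain ⟨w, hw, hpw⟩ := to_rngAt (y := y) (R := R) hp.symm (by omega) huR
  exact ⟨p, ⟨q, not_lt.1 hq, h4.symm⟩, w, hw, hp,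
    hpw.mono fun z hz => ⟨⟨hz.1.1.1, hz.1.2, hz.2⟩, hz.1.1.2⟩⟩

/-- ONE ARM: the two configurations agree off the box of radius `r` around `y`, the sets `S₁` and `S₂` are joined
for `ω₁` and not for `ω₂`, `S₁` is at distance `≥ R`.  Immediate from `piv_aux`. -/
theorem piv_arm {c : Bool} {Q S₁ S₂ : Set Pt} {ω₁ ω₂ : Cfg} {y : Pt} {r R : ℤ} (hrR : r < R)
    (hag : ∀ v, r < nrm (v - y) → ω₁ v = ω₂ v)
    (h1 : ∃ u ∈ S₁, ∃ v ∈ S₂, L.Cn (Q ∩ L.col c ω₁) u v)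
    (h2 : ∀ u ∈ S₁, ∀ v ∈ S₂, ¬ L.Cn (Q ∩ L.col c ω₂) u v)
    (hS₁ : ∀ v ∈ S₁, R ≤ nrm (v - y)) :
    L.Arm c (Q ∩ annAt y r R) (L.nb (bxAt y r)) (rngAt y R) ω₁ := by
  obtain ⟨u, hu, v, hv, h⟩ := h1
  obtain ⟨p, hp, w, hw, -, h3⟩ := piv_aux hrR hag hu hv h h2 hS₁
  exact ⟨p, hp, w, hw, h3⟩

/-- TWO CLUSTERS.  `piv_aux` for the path from `u` to `v` and for the reversed path from `v` to `u` gives `p, w` and
`p', w'`.  If `p` and `p'` were joined in `Q ∩ annAt y r R ∩ col c ω₁`, then `u` and `v` would be joined in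
`Q ∩ col c ω₁ ∩ {z | r < nrm (z - y)} ⊆ Q ∩ col c ω₂` (`col_agree`). -/
theorem piv_two {c : Bool} {Q S₁ S₂ : Set Pt} {ω₁ ω₂ : Cfg} {y : Pt} {r R : ℤ} (hrR : r < R)
    (hag : ∀ v, r < nrm (v - y) → ω₁ v = ω₂ v)
    (h1 : ∃ u ∈ S₁, ∃ v ∈ S₂, L.Cn (Q ∩ L.col c ω₁) u v)
    (h2 : ∀ u ∈ S₁, ∀ v ∈ S₂, ¬ L.Cn (Q ∩ L.col c ω₂) u v)
    (hS₁ : ∀ v ∈ S₁, R ≤ nrm (v - y)) (hS₂ : ∀ v ∈ S₂, R ≤ nrm (v - y)) :
    L.Two c (Q ∩ annAt y r R) (L.nb (bxAt y r)) (rngAt y R) ω₁ := by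
  obtain ⟨u, hu, v, hv, h⟩ := h1
  obtain ⟨p, hp, w, hw, h3, h4⟩ := piv_aux hrR hag hu hv h h2 hS₁
  obtain ⟨p', hp', w', hw', h3', h4'⟩ := piv_aux hrR hag hv hu h.symm
    (fun a ha b hb hab => h2 b hb a ha hab.symm) hS₂
  refine ⟨p, hp, w, hw, p', hp', w', hw', h4, h4', fun h5 => ?_⟩
  have h6 : L.Cn (Q ∩ L.col c ω₁ ∩ {z | r < nrm (z - y)}) p p' :=
    h5.mono fun z hz => ⟨⟨hz.1.1, hz.2⟩, hz.1.2.1⟩
  exact h2 u hu v hv (((h3.trans h6).trans h3'.symm).mono fun z hz =>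
    ⟨hz.1.1, (col_agree (hag z hz.2)).1 hz.1.2⟩)

/-- Domains of `Two` and `Arm` on which the configurations agree: `Two.dep`, `Arm.dep`. -/
theorem two_agree {c : Bool} {D X Y : Set Pt} {ω₁ ω₂ : Cfg} (hag : ∀ v ∈ D, ω₁ v = ω₂ v) :
    L.Two c D X Y ω₁ ↔ L.Two c D X Y ω₂ := by
  exact iff_of_eq (Lat.Two.dep L c D X Y ω₁ ω₂ hag)

theorem arm_agree {c : Bool} {D X Y : Set Pt} {ω₁ ω₂ : Cfg} (hag : ∀ v ∈ D, ω₁ v = ω₂ v) :
    L.Arm c D X Y ω₁ ↔ L.Arm c D X Y ω₂ := by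
  exact iff_of_eq (Lat.Arm.dep L c D X Y ω₁ ω₂ hag)

end XP

end SC

end

/-! ### from `Lib_MP_e0a489.XP2b` -/

section

/-!
# MP_e0a489, exponents 2b: the events in the coordinates of `L`
-/

set_option autoImplicit false

namespace SC

namespace XP

open Classical

/-- a finite set that contains the annulus -/
private theorem annAt_finite' (y : Pt) (r R : ℤ) : (annAt y r R).Finite := by
  refine (Finset.finite_toSet
    (Finset.Icc (y.1 - R) (y.1 + R) ×ˢ Finset.Icc (y.2 - R) (y.2 + R))).subset ?_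
  rintro v ⟨_, h⟩
  have h1 : |v.1 - y.1| ≤ R := (le_max_left _ _).trans h
  have h2 : |v.2 - y.2| ≤ R := (le_max_right _ _).trans h
  have h3 := abs_le.1 h1
  have h4 := abs_le.1 h2
  simp only [Finset.coe_product, Finset.coe_Icc, Set.mem_prod, Set.mem_Icc]
  omega

private theorem ann_finite' (r R : ℤ) : (ann r R).Finite := by
  refine (annAt_finite' 0 r R).subset (fun v hv => ?_)
  show r < nrm (v - 0) ∧ nrm (v - 0) ≤ R
  rw [sub_zero]
  exact hv

private theorem loc_of_dep' {A : Cfg → Prop} {D : Set Pt} (hD : D.Finite) (h : Dep A D) :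
    Loc A := by
  refine ⟨hD.toFinset, ?_⟩
  rw [Set.Finite.coe_toFinset]
  exact h

/-- `Tr.two`, `Tr.nb` for `tr_shift`, `image_ann0`, `image_bx0`, `image_rng0` -/
theorem twoAt_iff (L : Lat) (c : Bool) (x : Pt) (r R : ℤ) (ω : Cfg) :
    L.TwoAt c x r R ω ↔ L.Two c (annAt x r R) (L.nb (bxAt x r)) (rngAt x R) ω := by
  have h := (tr_shift L x).two c (ann r R) ((L.shift x).nb (bx r)) (rng R) ω
  rw [(tr_shift L x).nb, image_ann0, image_bx0, image_rng0] at h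
  exact h

/-- The event `TwoH` of the rotated and shifted lattice in the coordinates of `L` (`Tr.two`, `Tr.nb` for
`tr_rotshift`; the image of an intersection under a bijection is the intersection of the images). -/
theorem twoH_iff (L : Lat) (s : ℤ) (z : Pt) (c : Bool) (H : Set Pt) (r R : ℤ) (ω : Cfg) :
    ((L.rots s).shift z).TwoH c H r R (via (rt s * Equiv.addRight z) ω) ↔
      L.Two c (annAt (rt s z) r R ∩ (rt s * Equiv.addRight z : Equiv.Perm Pt) '' H)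
        (L.nb (bxAt (rt s z) r)) (rngAt (rt s z) R) ω := by
  have h := (tr_rotshift L s z).two c (ann r R ∩ H) (((L.rots s).shift z).nb (bx r)) (rng R) ω
  rw [(tr_rotshift L s z).nb, Set.image_inter (rt s * Equiv.addRight z : Equiv.Perm Pt).injective,
    image_ann, image_bx, image_rng] at h
  exact h

theorem twoQ_iff (L : Lat) (s : ℤ) (z : Pt) (H : Set Pt) (r R : ℤ) (ω : Cfg) :
    ((L.rots s).shift z).TwoQ H r R (via (rt s * Equiv.addRight z) ω) ↔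
      ∀ c : Bool, L.Arm c (annAt (rt s z) r R ∩ (rt s * Equiv.addRight z : Equiv.Perm Pt) '' H)
        (L.nb (bxAt (rt s z) r)) (rngAt (rt s z) R) ω := by
  refine forall_congr' fun c => ?_
  have h := (tr_rotshift L s z).arm c (ann r R ∩ H) (((L.rots s).shift z).nb (bx r)) (rng R) ω
  rw [(tr_rotshift L s z).nb, Set.image_inter (rt s * Equiv.addRight z : Equiv.Perm Pt).injective,
    image_ann, image_bx, image_rng] at h
  exact h

/-- `Two.dep` -/
theorem twoAt_dep (L : Lat) (c : Bool) (x : Pt) (r R : ℤ) : Dep (L.TwoAt c x r R) (annAt x r R) := by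
  intro ω ω' hw
  refine propext ?_
  rw [twoAt_iff, twoAt_iff]
  exact Eq.to_iff (Lat.Two.dep L c (annAt x r R) (L.nb (bxAt x r)) (rngAt x R) ω ω' hw)

/-- `annAt x r R` is finite -/
theorem twoAt_loc (L : Lat) (c : Bool) (x : Pt) (r R : ℤ) : Loc (L.TwoAt c x r R) := by
  exact loc_of_dep' (annAt_finite' x r R) (twoAt_dep L c x r R)

/-- the set `{v | 0 ≤ v.2}` is a half plane, and the quarter plane -/
theorem halfLike_std : HalfLike {v | 0 ≤ v.2} := by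
  refine ⟨fun v hv => ?_, fun v hv => hv⟩
  have h : (1 : ℤ) ≤ v.2 := hv
  show (0 : ℤ) ≤ v.2
  omega

theorem quartLike_std : QuartLike {v | 0 ≤ v.1 ∧ 0 ≤ v.2} := by
  refine ⟨fun v hv => ?_, fun v hv => hv⟩
  have h : (1 : ℤ) ≤ v.1 ∧ (1 : ℤ) ≤ v.2 := hv
  show (0 : ℤ) ≤ v.1 ∧ (0 : ℤ) ≤ v.2
  omega

/-- `annAt (rt s z) r R` is finite -/
theorem twoH_dep (L : Lat) (s : ℤ) (z : Pt) (c : Bool) (H : Set Pt) (r R : ℤ) :
    Dep (fun ω => ((L.rots s).shift z).TwoH c H r R (via (rt s * Equiv.addRight z) ω))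
      (annAt (rt s z) r R) := by
  intro ω ω' hw
  refine propext ?_
  show ((L.rots s).shift z).TwoH c H r R (via (rt s * Equiv.addRight z) ω) ↔
    ((L.rots s).shift z).TwoH c H r R (via (rt s * Equiv.addRight z) ω')
  rw [twoH_iff, twoH_iff]
  exact Eq.to_iff (Lat.Two.dep L c _ _ _ ω ω' (fun v hv => hw v hv.1))

theorem twoQ_dep (L : Lat) (s : ℤ) (z : Pt) (H : Set Pt) (r R : ℤ) :
    Dep (fun ω => ((L.rots s).shift z).TwoQ H r R (via (rt s * Equiv.addRight z) ω))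
      (annAt (rt s z) r R) := by
  intro ω ω' hw
  refine propext ?_
  show ((L.rots s).shift z).TwoQ H r R (via (rt s * Equiv.addRight z) ω) ↔
    ((L.rots s).shift z).TwoQ H r R (via (rt s * Equiv.addRight z) ω')
  rw [twoQ_iff, twoQ_iff]
  exact forall_congr' fun c => Eq.to_iff (Lat.Arm.dep L c _ _ _ ω ω' (fun v hv => hw v hv.1))

/-- a finite set that contains the annulus -/
theorem annAt_finite (y : Pt) (r R : ℤ) : (annAt y r R).Finite := by
  exact annAt_finite' y r R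

/-- an event that depends on a finite set of sites is local -/
theorem loc_of_dep {A : Cfg → Prop} {D : Set Pt} (hD : D.Finite) (h : Dep A D) : Loc A := by
  exact loc_of_dep' hD h

/-- `pr_via` -/
theorem pr_twoH (L : Lat) (s : ℤ) (z : Pt) (c : Bool) (H : Set Pt) (r R : ℤ) :
    pr (fun ω => ((L.rots s).shift z).TwoH c H r R (via (rt s * Equiv.addRight z) ω)) =
      pr (((L.rots s).shift z).TwoH c H r R) := by
  refine pr_via (A := ((L.rots s).shift z).TwoH c H r R) ?_ (rt s * Equiv.addRight z)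
  exact Lat.Two.loc _ c _ _ _ ((ann_finite' r R).subset Set.inter_subset_left)

theorem pr_twoQ (L : Lat) (s : ℤ) (z : Pt) (H : Set Pt) (r R : ℤ) :
    pr (fun ω => ((L.rots s).shift z).TwoQ H r R (via (rt s * Equiv.addRight z) ω)) =
      pr (((L.rots s).shift z).TwoQ H r R) := by
  refine pr_via (A := ((L.rots s).shift z).TwoQ H r R) ?_ (rt s * Equiv.addRight z)
  refine loc_of_dep' (ann_finite' r R) (fun ω ω' hw => propext ?_)
  exact forall_congr' fun c => Eq.to_iff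
    (Lat.Arm.dep ((L.rots s).shift z) c _ _ _ ω ω' (fun v hv => hw v hv.1))

/-- `L.shift 0 = L`, `via (Equiv.addRight 0) ω = ω` -/
theorem twoAt_zero (L : Lat) (c : Bool) (r R : ℤ) : L.TwoAt c 0 r R = L.TwoA c r R := by
  have h1 : L.shift 0 = L := by
    cases L with
    | mk ne typ =>
      unfold Lat.shift
      simp
  have h2 : ∀ ω : Cfg, via (Equiv.addRight (0 : Pt)) ω = ω := by
    intro ω
    funext v
    show ω (v + 0) = ω v
    rw [add_zero]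
  funext ω
  unfold Lat.TwoAt
  rw [h1, h2]

end XP

end SC

end

/-! ### from `Lib_MP_e0a489.XP3` -/

section

/-!
# MP_e0a489, exponents 3: pivotal boxes for the crossing of a rectangle (bulk, side, corner)
-/

set_option autoImplicit false

namespace SC

namespace XP

open Classical

variable {L : Lat}

/-- `HX` as a connection between two sets (definition) -/
theorem hx_cn {c : Bool} {a b p q : ℤ} {ω : Cfg} (h : L.HX c a b p q ω) :
    ∃ u ∈ {v : Pt | v.1 = a}, ∃ v ∈ {v : Pt | v.1 = b}, L.Cn (rect a b p q ∩ L.col c ω) u v := by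
  obtain ⟨u, v, hu, hv, h⟩ := h
  exact ⟨u, hu, v, hv, h⟩

theorem vx_cn {c : Bool} {a b p q : ℤ} {ω : Cfg} (h : L.VX c a b p q ω) :
    ∃ u ∈ {v : Pt | v.2 = p}, ∃ v ∈ {v : Pt | v.2 = q}, L.Cn (rect a b p q ∩ L.col c ω) u v := by
  obtain ⟨u, v, hu, hv, h⟩ := h
  exact ⟨u, hu, v, hv, h⟩

theorem not_hx_cn {c : Bool} {a b p q : ℤ} {ω : Cfg} (h : ¬ L.HX c a b p q ω) :
    ∀ u ∈ {v : Pt | v.1 = a}, ∀ v ∈ {v : Pt | v.1 = b},
      ¬ L.Cn (rect a b p q ∩ L.col c ω) u v := by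
  intro u hu v hv hc
  exact h ⟨u, v, hu, hv, hc⟩

theorem not_vx_cn {c : Bool} {a b p q : ℤ} {ω : Cfg} (h : ¬ L.VX c a b p q ω) :
    ∀ u ∈ {v : Pt | v.2 = p}, ∀ v ∈ {v : Pt | v.2 = q},
      ¬ L.Cn (rect a b p q ∩ L.col c ω) u v := by
  intro u hu v hv hc
  exact h ⟨u, v, hu, hv, hc⟩

/-- `bx N = rect (-N) N (-N) N` -/
theorem bx_rect (N : ℤ) : bx N = rect (-N) N (-N) N := by
  ext v
  show max |v.1| |v.2| ≤ N ↔ (-N ≤ v.1 ∧ v.1 ≤ N) ∧ -N ≤ v.2 ∧ v.2 ≤ N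
  rw [max_le_iff, abs_le, abs_le]

/-- lower bound for the norm by the first coordinate -/
private theorem le_nrm_fst {v y : Pt} {R : ℤ} (h : R ≤ |v.1 - y.1|) : R ≤ nrm (v - y) :=
  h.trans (abs_nrm (v - y)).1

private theorem le_nrm_snd {v y : Pt} {R : ℤ} (h : R ≤ |v.2 - y.2|) : R ≤ nrm (v - y) :=
  h.trans (abs_nrm (v - y)).2

/-- arm, first coordinate -/
private theorem arm_fst {c : Bool} {Q : Set Pt} {ω₁ ω₂ : Cfg} {y : Pt} {r R N : ℤ} (hrR : r < R)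
    (hag : ∀ v, r < nrm (v - y) → ω₁ v = ω₂ v) (hy : y.1 = N ∨ y.1 = -N) (hR : R ≤ 2 * N)
    (h1 : ∃ u ∈ {v : Pt | v.1 = -N}, ∃ v ∈ {v : Pt | v.1 = N}, L.Cn (Q ∩ L.col c ω₁) u v)
    (h2 : ∀ u ∈ {v : Pt | v.1 = -N}, ∀ v ∈ {v : Pt | v.1 = N}, ¬ L.Cn (Q ∩ L.col c ω₂) u v) :
    L.Arm c (Q ∩ annAt y r R) (L.nb (bxAt y r)) (rngAt y R) ω₁ := by
  rcases hy with hy | hy
  · refine piv_arm hrR hag h1 h2 ?_
    intro v hv
    have hv' : v.1 = -N := hv
    refine le_nrm_fst ?_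
    rw [hv', hy]
    have h3 := neg_abs_le (-N - N)
    have h4 := le_abs_self (-N - N)
    omega
  · refine piv_arm (S₁ := {v : Pt | v.1 = N}) (S₂ := {v : Pt | v.1 = -N}) hrR hag ?_ ?_ ?_
    · obtain ⟨u, hu, v, hv, h⟩ := h1
      exact ⟨v, hv, u, hu, h.symm⟩
    · intro u hu v hv h
      exact h2 v hv u hu h.symm
    · intro v hv
      have hv' : v.1 = N := hv
      refine le_nrm_fst ?_
      rw [hv', hy]
      have h4 := le_abs_self (N - -N)
      omega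

/-- arm, second coordinate -/
private theorem arm_snd {c : Bool} {Q : Set Pt} {ω₁ ω₂ : Cfg} {y : Pt} {r R N : ℤ} (hrR : r < R)
    (hag : ∀ v, r < nrm (v - y) → ω₁ v = ω₂ v) (hy : y.2 = N ∨ y.2 = -N) (hR : R ≤ 2 * N)
    (h1 : ∃ u ∈ {v : Pt | v.2 = -N}, ∃ v ∈ {v : Pt | v.2 = N}, L.Cn (Q ∩ L.col c ω₁) u v)
    (h2 : ∀ u ∈ {v : Pt | v.2 = -N}, ∀ v ∈ {v : Pt | v.2 = N}, ¬ L.Cn (Q ∩ L.col c ω₂) u v) :
    L.Arm c (Q ∩ annAt y r R) (L.nb (bxAt y r)) (rngAt y R) ω₁ := by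
  rcases hy with hy | hy
  · refine piv_arm hrR hag h1 h2 ?_
    intro v hv
    have hv' : v.2 = -N := hv
    refine le_nrm_snd ?_
    rw [hv', hy]
    have h3 := neg_abs_le (-N - N)
    have h4 := le_abs_self (-N - N)
    omega
  · refine piv_arm (S₁ := {v : Pt | v.2 = N}) (S₂ := {v : Pt | v.2 = -N}) hrR hag ?_ ?_ ?_
    · obtain ⟨u, hu, v, hv, h⟩ := h1
      exact ⟨v, hv, u, hu, h.symm⟩
    · intro u hu v hv h
      exact h2 v hv u hu h.symm
    · intro v hv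
      have hv' : v.2 = N := hv
      refine le_nrm_snd ?_
      rw [hv', hy]
      have h4 := le_abs_self (N - -N)
      omega

/-- the annulus around a site deep in the rectangle -/
private theorem rect_annAt {a b p q r R : ℤ} {x : Pt} (ha : a + R ≤ x.1) (hb : x.1 + R ≤ b)
    (hp : p + R ≤ x.2) (hq : x.2 + R ≤ q) : rect a b p q ∩ annAt x r R = annAt x r R := by
  refine Set.inter_eq_right.2 ?_
  rintro v ⟨-, hv⟩
  have h1 := abs_le.1 ((abs_nrm (v - x)).1.trans hv)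
  have h2 := abs_le.1 ((abs_nrm (v - x)).2.trans hv)
  rw [Prod.fst_sub] at h1
  rw [Prod.snd_sub] at h2
  exact ⟨⟨by omega, by omega⟩, by omega, by omega⟩

/-- BULK.  The box of radius `R` around `x` is contained in the rectangle.  Colour `true`: `piv_two` for
`Q = rect a b p q`, `S₁ = {v.1 = a}`, `S₂ = {v.1 = b}` (`hx_cn`, `not_hx_cn`; distance `≥ R` by `abs_nrm`), `Q ∩ annAt x r R = annAt x r R`,
`twoAt_iff`.  For `ω₂`: `two_agree`.  Colour `false`: `VX false` holds for `ω₂` (`not_hx`) and not for `ω₁` (`hex_not`); the same with `ω₁`, `ω₂`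
exchanged, `S₁ = {v.2 = p}`, `S₂ = {v.2 = q}`. -/
theorem piv_bulk {a b p q r R : ℤ} {x : Pt} {ω₁ ω₂ : Cfg} (hr : 0 ≤ r) (hrR : r < R)
    (ha : a + R ≤ x.1) (hb : x.1 + R ≤ b) (hp : p + R ≤ x.2) (hq : x.2 + R ≤ q)
    (hag : ∀ v, r < nrm (v - x) → ω₁ v = ω₂ v) (h1 : L.HX true a b p q ω₁)
    (h2 : ¬ L.HX true a b p q ω₂) (c : Bool) : L.TwoAt c x r R ω₁ ∧ L.TwoAt c x r R ω₂ := by
  have hag' : ∀ v, r < nrm (v - x) → ω₂ v = ω₁ v := fun v hv => (hag v hv).symm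
  have hagA : ∀ v ∈ annAt x r R, ω₁ v = ω₂ v := fun v hv => hag v hv.1
  have hi : (L.Two c (annAt x r R) (L.nb (bxAt x r)) (rngAt x R) ω₁ ↔
      L.Two c (annAt x r R) (L.nb (bxAt x r)) (rngAt x R) ω₂) := two_agree hagA
  rw [twoAt_iff, twoAt_iff]
  cases c with
  | true =>
    have h3 : L.Two true (annAt x r R) (L.nb (bxAt x r)) (rngAt x R) ω₁ := by
      have h4 := piv_two hrR hag (hx_cn h1) (not_hx_cn h2) ?_ ?_
      · rwa [rect_annAt ha hb hp hq] at h4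
      · intro v hv
        have hv' : v.1 = a := hv
        refine le_nrm_fst ?_
        rw [hv']
        have h5 := neg_abs_le (a - x.1)
        omega
      · intro v hv
        have hv' : v.1 = b := hv
        refine le_nrm_fst ?_
        rw [hv']
        have h5 := le_abs_self (b - x.1)
        omega
    exact ⟨h3, hi.1 h3⟩
  | false =>
    have h6 : L.VX false a b p q ω₂ := (Lat.not_hx (by omega) (by omega) true ω₂).1 h2
    have h7 : ¬ L.VX false a b p q ω₁ := fun h => Lat.hex_not h1 h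
    have h3 : L.Two false (annAt x r R) (L.nb (bxAt x r)) (rngAt x R) ω₂ := by
      have h4 := piv_two hrR hag' (vx_cn h6) (not_vx_cn h7) ?_ ?_
      · rwa [rect_annAt ha hb hp hq] at h4
      · intro v hv
        have hv' : v.2 = p := hv
        refine le_nrm_snd ?_
        rw [hv']
        have h5 := neg_abs_le (p - x.2)
        omega
      · intro v hv
        have hv' : v.2 = q := hv
        refine le_nrm_snd ?_
        rw [hv']
        have h5 := le_abs_self (q - x.2)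
        omega
    exact ⟨hi.2 h3, h3⟩

/-- coordinates of the centre of a side -/
private theorem rt_side (s t N : ℤ) :
    (s % 2 = 0 → |(rt s (t, -N)).1| = |t|) ∧ (s % 2 ≠ 0 → |(rt s (t, -N)).2| = |t|) := by
  have e : rt s = rt (s % 4) := rt_mod (by omega)
  have h : s % 4 = 0 ∨ s % 4 = 1 ∨ s % 4 = 2 ∨ s % 4 = 3 := by omega
  rw [e]
  rcases h with h | h | h | h
  · rw [h, rt_zero]
    exact ⟨fun _ => rfl, fun h' => absurd (by omega) h'⟩
  · rw [h, rt_one]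
    exact ⟨fun h' => by omega, fun _ => rfl⟩
  · rw [h, rt_two]
    exact ⟨fun _ => abs_neg t, fun h' => absurd (by omega) h'⟩
  · rw [h, rt_three]
    exact ⟨fun h' => by omega, fun _ => abs_neg t⟩

/-- coordinates of a corner -/
private theorem rt_corner (s N : ℤ) :
    ((rt s (-N, -N)).1 = N ∨ (rt s (-N, -N)).1 = -N) ∧
      ((rt s (-N, -N)).2 = N ∨ (rt s (-N, -N)).2 = -N) := by
  have e : rt s = rt (s % 4) := rt_mod (by omega)
  have h : s % 4 = 0 ∨ s % 4 = 1 ∨ s % 4 = 2 ∨ s % 4 = 3 := by omega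
  rw [e]
  rcases h with h | h | h | h
  · rw [h, rt_zero]
    exact ⟨Or.inr rfl, Or.inr rfl⟩
  · rw [h, rt_one]
    exact ⟨Or.inl (neg_neg N), Or.inr rfl⟩
  · rw [h, rt_two]
    exact ⟨Or.inl (neg_neg N), Or.inl (neg_neg N)⟩
  · rw [h, rt_three]
    exact ⟨Or.inr rfl, Or.inl (neg_neg N)⟩

/-- SIDE number `s` (`0` lower, `1` right, `2` upper, `3` left), centre `y = rt s (t, -N)` on the side.  `s` even: the colour `true` and the
sides `{v.1 = -N}`, `{v.1 = N}`, at distance `≥ N - |t| ≥ R` from `y` (`|y.1| = |t|`).  `s` odd: the colour `false` and the sides `{v.2 = ∓N}`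
(`|y.2| = |t|`), exchanging the roles of `ω₁`, `ω₂` as in `piv_bulk`.  `piv_two` with `Q = bx N` (`bx_rect`), `twoH_iff` and `image_half`; `two_agree` for the
other configuration. -/
theorem piv_half {N r R s t : ℤ} {ω₁ ω₂ : Cfg} (hr : 0 ≤ r) (hrR : r < R) (ht : |t| + R ≤ N)
    (hag : ∀ v, r < nrm (v - rt s (t, -N)) → ω₁ v = ω₂ v)
    (h1 : L.HX true (-N) N (-N) N ω₁) (h2 : ¬ L.HX true (-N) N (-N) N ω₂) :
    ((L.rots s).shift (t, -N)).TwoH (decide (s % 2 = 0)) {v | 0 ≤ v.2} r R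
        (via (rt s * Equiv.addRight (t, -N)) ω₁) ∧
      ((L.rots s).shift (t, -N)).TwoH (decide (s % 2 = 0)) {v | 0 ≤ v.2} r R
        (via (rt s * Equiv.addRight (t, -N)) ω₂) := by
  rw [twoH_iff, twoH_iff, image_half ht, bx_rect]
  obtain ⟨hs1, hs2⟩ := rt_side s t N
  have hN : 0 ≤ N := by
    have := abs_nonneg t
    omega
  have hag' : ∀ v, r < nrm (v - rt s (t, -N)) → ω₂ v = ω₁ v := fun v hv => (hag v hv).symm
  have hagA : ∀ v ∈ rect (-N) N (-N) N ∩ annAt (rt s (t, -N)) r R, ω₁ v = ω₂ v :=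
    fun v hv => hag v hv.2.1
  generalize rt s (t, -N) = y at *
  by_cases hs : s % 2 = 0
  · have hy := hs1 hs
    have hy1 := le_abs_self y.1
    have hy2 := neg_abs_le y.1
    rw [decide_eq_true hs]
    have h3 : L.Two true (rect (-N) N (-N) N ∩ annAt y r R) (L.nb (bxAt y r)) (rngAt y R) ω₁ := by
      refine piv_two hrR hag (hx_cn h1) (not_hx_cn h2) ?_ ?_
      · intro v hv
        have hv' : v.1 = -N := hv
        refine le_nrm_fst ?_
        rw [hv']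
        have h5 := neg_abs_le (-N - y.1)
        omega
      · intro v hv
        have hv' : v.1 = N := hv
        refine le_nrm_fst ?_
        rw [hv']
        have h5 := le_abs_self (N - y.1)
        omega
    exact ⟨h3, (two_agree hagA).1 h3⟩
  · have hy := hs2 hs
    have hy1 := le_abs_self y.2
    have hy2 := neg_abs_le y.2
    rw [decide_eq_false hs]
    have h6 : L.VX false (-N) N (-N) N ω₂ := (Lat.not_hx (by omega) (by omega) true ω₂).1 h2
    have h7 : ¬ L.VX false (-N) N (-N) N ω₁ := fun h => Lat.hex_not h1 h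
    have h3 : L.Two false (rect (-N) N (-N) N ∩ annAt y r R) (L.nb (bxAt y r)) (rngAt y R) ω₂ := by
      refine piv_two hrR hag' (vx_cn h6) (not_vx_cn h7) ?_ ?_
      · intro v hv
        have hv' : v.2 = -N := hv
        refine le_nrm_snd ?_
        rw [hv']
        have h5 := neg_abs_le (-N - y.2)
        omega
      · intro v hv
        have hv' : v.2 = N := hv
        refine le_nrm_snd ?_
        rw [hv']
        have h5 := le_abs_self (N - y.2)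
        omega
    exact ⟨(two_agree hagA).2 h3, h3⟩

/-- CORNER number `s` (`0` lower left, `1` lower right, ...), `y = rt s (-N, -N) = (±N, ±N)`.  Colour `true`: `piv_arm` with
`S₁ = {v.1 = -y.1}` (distance `2 N ≥ R`) and `S₂ = {v.1 = y.1}` (`hx_cn`, possibly reversed).  Colour `false`: `S₁ = {v.2 = -y.2}`,
`S₂ = {v.2 = y.2}`, roles of `ω₁`, `ω₂` exchanged.  `twoQ_iff`, `image_quart`, `arm_agree`. -/
theorem piv_quart {N r R s : ℤ} {ω₁ ω₂ : Cfg} (hr : 0 ≤ r) (hrR : r < R) (hR : R ≤ 2 * N)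
    (hag : ∀ v, r < nrm (v - rt s (-N, -N)) → ω₁ v = ω₂ v)
    (h1 : L.HX true (-N) N (-N) N ω₁) (h2 : ¬ L.HX true (-N) N (-N) N ω₂) :
    ((L.rots s).shift (-N, -N)).TwoQ {v | 0 ≤ v.1 ∧ 0 ≤ v.2} r R
        (via (rt s * Equiv.addRight (-N, -N)) ω₁) ∧
      ((L.rots s).shift (-N, -N)).TwoQ {v | 0 ≤ v.1 ∧ 0 ≤ v.2} r R
        (via (rt s * Equiv.addRight (-N, -N)) ω₂) := by
  rw [twoQ_iff, twoQ_iff, image_quart hR, bx_rect]
  obtain ⟨hy1, hy2⟩ := rt_corner s N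
  have hag' : ∀ v, r < nrm (v - rt s (-N, -N)) → ω₂ v = ω₁ v := fun v hv => (hag v hv).symm
  have hagA : ∀ v ∈ rect (-N) N (-N) N ∩ annAt (rt s (-N, -N)) r R, ω₁ v = ω₂ v :=
    fun v hv => hag v hv.2.1
  generalize rt s (-N, -N) = y at *
  have h3 : L.Arm true (rect (-N) N (-N) N ∩ annAt y r R) (L.nb (bxAt y r)) (rngAt y R) ω₁ :=
    arm_fst hrR hag hy1 hR (hx_cn h1) (not_hx_cn h2)
  have h6 : L.VX false (-N) N (-N) N ω₂ := (Lat.not_hx (by omega) (by omega) true ω₂).1 h2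
  have h7 : ¬ L.VX false (-N) N (-N) N ω₁ := fun h => Lat.hex_not h1 h
  have h4 : L.Arm false (rect (-N) N (-N) N ∩ annAt y r R) (L.nb (bxAt y r)) (rngAt y R) ω₂ :=
    arm_snd hrR hag' hy2 hR (vx_cn h6) (not_vx_cn h7)
  constructor
  · intro c
    cases c with
    | true => exact h3
    | false => exact (arm_agree hagA).2 h4
  · intro c
    cases c with
    | true => exact (arm_agree hagA).1 h3
    | false => exact h4

end XP

end SC

end

/-! ### from `Lib_MP_e0a489.FI5` -/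

section

/-!
# MP_e0a489, module FI 5: the local event around a pivotal block
-/

set_option autoImplicit false

namespace SC

open Classical

namespace FI

/-- the nearest point of the nearest side -/
noncomputable def yH (N N' : ℤ) (x : Pt) : Pt :=
  if N - |x.1| < N' - |x.2| then (if x.1 ≤ 0 then -N else N, x.2)
  else (x.1, if x.2 ≤ 0 then -N' else N')

/-- colour of the two clusters near the nearest side: open near the horizontal sides -/
noncomputable def cH (N N' : ℤ) (x : Pt) : Bool := decide (N' - |x.2| ≤ N - |x.1|)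

/-- the nearest corner -/
noncomputable def yQ (N N' : ℤ) (x : Pt) : Pt :=
  (if x.1 ≤ 0 then -N else N, if x.2 ≤ 0 then -N' else N')

end FI

open FI

namespace Lat

/-- bulk part, radii `a < b` -/
def EvB (L : Lat) (x : Pt) (a b : ℤ) (ω : Cfg) : Prop := a < b → L.TwoAt true x a b ω

/-- half plane part -/
def EvH (L : Lat) (N N' : ℤ) (E : Set Pt) (x : Pt) (a b : ℤ) (ω : Cfg) : Prop :=
  a < b → L.Two (cH N N' x) (dom N N' E ∩ annAt (yH N N' x) a b) (L.nb (bxAt (yH N N' x) a))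
    (rngAt (yH N N' x) b) ω

/-- corner part -/
def EvQ (L : Lat) (N N' : ℤ) (E : Set Pt) (x : Pt) (a b : ℤ) (ω : Cfg) : Prop :=
  a < b → ∀ c : Bool, L.Arm c (dom N N' E ∩ annAt (yQ N N' x) a b) (L.nb (bxAt (yQ N N' x) a))
    (rngAt (yQ N N' x) b) ω

/-- local event around `x` between the radii `a` and `b` -/
def Ev (L : Lat) (N N' : ℤ) (E : Set Pt) (x : Pt) (a b : ℤ) (ω : Cfg) : Prop :=
  L.EvB x a (min (hm N N' x) b - 1) ω ∧
    L.EvH N N' E x (2 * max a (hm N N' x)) (min (hM N N' x) b - 1) ω ∧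
    L.EvQ N N' E x (2 * max a (hM N N' x)) b ω

/-- if `b ≤ a` the annulus is empty and the event is always true -/
theorem EvB.dep (L : Lat) (x : Pt) (a b : ℤ) : Dep (L.EvB x a b) (annAt x a b) := by
  intro ω ω' h
  have h1 : L.TwoAt true x a b ω = L.TwoAt true x a b ω' := XP.twoAt_dep L true x a b ω ω' h
  show (a < b → L.TwoAt true x a b ω) = (a < b → L.TwoAt true x a b ω')
  rw [h1]

theorem EvH.dep (L : Lat) (N N' : ℤ) (E : Set Pt) (x : Pt) (a b : ℤ) :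
    Dep (L.EvH N N' E x a b) (annAt (yH N N' x) a b) := by
  intro ω ω' h
  have h1 := Two.dep L (cH N N' x) (dom N N' E ∩ annAt (yH N N' x) a b)
    (L.nb (bxAt (yH N N' x) a)) (rngAt (yH N N' x) b) ω ω' (fun v hv => h v hv.2)
  show (a < b → _) = (a < b → _)
  rw [h1]

theorem EvQ.dep (L : Lat) (N N' : ℤ) (E : Set Pt) (x : Pt) (a b : ℤ) :
    Dep (L.EvQ N N' E x a b) (annAt (yQ N N' x) a b) := by
  intro ω ω' h
  have h1 : ∀ c : Bool, L.Arm c (dom N N' E ∩ annAt (yQ N N' x) a b)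
      (L.nb (bxAt (yQ N N' x) a)) (rngAt (yQ N N' x) b) ω =
      L.Arm c (dom N N' E ∩ annAt (yQ N N' x) a b)
      (L.nb (bxAt (yQ N N' x) a)) (rngAt (yQ N N' x) b) ω' := fun c =>
    Arm.dep L c _ _ _ ω ω' (fun v hv => h v hv.2)
  show (a < b → ∀ c : Bool, _) = (a < b → ∀ c : Bool, _)
  simp only [h1]

end Lat

end SC

end
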