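import Mathlib
import Pool.Agent.Lib_MP_e0a489_m.G06
import Pool.Agent.Lib_MP_e0a489_m.G07
import Pool.Agent.Lib_MP_e0a489_m.G09
import Pool.Agent.Lib_MP_e0a489_m.G10
import Pool.Agent.Lib_MP_e0a489_m.G11

/-!
# MP_e0a489_pr: merged library part G15

Concatenation of library files (each in its own section), only to save build time.
-/

/-! ### from `Lib_MP_e0a489.TD2` -/

section

/-!
# MP_e0a489, topology 6b: circuits
-/

set_option autoImplicit false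

namespace SC

open Classical

variable {L : Lat} {κ : ℕ → ℝ}

namespace Lat

private theorem td2_top {r R : ℤ} (hr : 0 ≤ r) : rect (-R) R (r + 1) R ⊆ ann r R := by
  intro v hv
  obtain ⟨⟨h1, h2⟩, h3, h4⟩ := hv
  simp only [ann, nrm, Set.mem_ofPred_eq, lt_max_iff, max_le_iff, abs_le, lt_abs]
  omega

private theorem td2_bot {r R : ℤ} (hr : 0 ≤ r) : rect (-R) R (-R) (-r - 1) ⊆ ann r R := by
  intro v hv
  obtain ⟨⟨h1, h2⟩, h3, h4⟩ := hv
  simp only [ann, nrm, Set.mem_ofPred_eq, lt_max_iff, max_le_iff, abs_le, lt_abs]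
  omega

private theorem td2_left {r R : ℤ} (hr : 0 ≤ r) : rect (-R) (-r - 1) (-R) R ⊆ ann r R := by
  intro v hv
  obtain ⟨⟨h1, h2⟩, h3, h4⟩ := hv
  simp only [ann, nrm, Set.mem_ofPred_eq, lt_max_iff, max_le_iff, abs_le, lt_abs]
  omega

private theorem td2_right {r R : ℤ} (hr : 0 ≤ r) : rect (r + 1) R (-R) R ⊆ ann r R := by
  intro v hv
  obtain ⟨⟨h1, h2⟩, h3, h4⟩ := hv
  simp only [ann, nrm, Set.mem_ofPred_eq, lt_max_iff, max_le_iff, abs_le, lt_abs]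
  omega

theorem Circ.dep (L : Lat) (c : Bool) (r R : ℤ) (hr : 0 ≤ r) : Dep (L.Circ c r R) (ann r R) := by
  intro ω ω' h
  unfold Circ
  rw [((HX.dep L c (-R) R (r + 1) R).mono (td2_top hr)) ω ω' h,
    ((HX.dep L c (-R) R (-R) (-r - 1)).mono (td2_bot hr)) ω ω' h,
    ((VX.dep L c (-R) (-r - 1) (-R) R).mono (td2_left hr)) ω ω' h,
    ((VX.dep L c (r + 1) R (-R) R).mono (td2_right hr)) ω ω' h]

theorem Circ.loc (L : Lat) (c : Bool) (r R : ℤ) : Loc (L.Circ c r R) :=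
  (HX.loc L c _ _ _ _).and ((HX.loc L c _ _ _ _).and ((VX.loc L c _ _ _ _).and (VX.loc L c _ _ _ _)))

theorem Circ.mon (L : Lat) (c : Bool) (r R : ℤ) : MonC c (L.Circ c r R) := by
  have h1 := HX.mon L c (-R) R (r + 1) R
  have h2 := HX.mon L c (-R) R (-R) (-r - 1)
  have h3 := VX.mon L c (-R) (-r - 1) (-R) R
  have h4 := VX.mon L c (r + 1) R (-R) R
  cases c with
  | true =>
    unfold MonC at *
    rw [if_pos rfl] at *
    intro ω ω' h hC
    exact ⟨h1 ω ω' h hC.1, h2 ω ω' h hC.2.1, h3 ω ω' h hC.2.2.1, h4 ω ω' h hC.2.2.2⟩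
  | false =>
    unfold MonC at *
    rw [if_neg (by decide)] at *
    intro ω ω' h hC
    exact ⟨h1 ω ω' h hC.1, h2 ω ω' h hC.2.1, h3 ω ω' h hC.2.2.1, h4 ω ω' h hC.2.2.2⟩

/-- Monotonicity of the separation property. -/
theorem Sep.mono {σ : Set Pt} {r R r' R' : ℤ} (h : L.Sep σ r R) (hr : 0 ≤ r') (hr' : r' ≤ r)
    (hR : R ≤ R') : L.Sep σ r' R' := by
  obtain ⟨h1, h2, h3⟩ := h
  have hb : bx r' ⊆ bx r := fun v hv => le_trans (show nrm v ≤ r' from hv) hr'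
  refine ⟨h1, fun v hv => ?_, fun P hP hi ho => h3 P hP ?_ ?_⟩
  · obtain ⟨h4, h5⟩ := h2 hv
    exact ⟨lt_of_le_of_lt hr' h4, le_trans h5 hR⟩
  · obtain ⟨v, hv, hv'⟩ := hi
    refine ⟨v, hv, ?_⟩
    rcases hv' with hv' | ⟨u, hu, hu'⟩
    · exact Or.inl (hb hv')
    · exact Or.inr ⟨u, hb hu, hu'⟩
  · obtain ⟨v, hv, hv'⟩ := ho
    exact ⟨v, hv, le_trans hR hv'⟩

private theorem td2_hx {c : Bool} {a b p q : ℤ} {ω : Cfg} (h : L.HX c a b p q ω) :
    ∃ T : Set Pt, L.Con T ∧ T ⊆ rect a b p q ∩ L.col c ω ∧ (∃ v ∈ T, v.1 = a) ∧ ∃ v ∈ T, v.1 = b := by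
  obtain ⟨u, v, hu, hv, hc⟩ := h
  exact ⟨{x | L.Cn (rect a b p q ∩ L.col c ω) u x}, con_cluster _ _, fun x hx => hx.right,
    ⟨u, Cn.refl hc.left, hu⟩, ⟨v, hc, hv⟩⟩

private theorem td2_vx {c : Bool} {a b p q : ℤ} {ω : Cfg} (h : L.VX c a b p q ω) :
    ∃ T : Set Pt, L.Con T ∧ T ⊆ rect a b p q ∩ L.col c ω ∧ (∃ v ∈ T, v.2 = p) ∧ ∃ v ∈ T, v.2 = q := by
  obtain ⟨u, v, hu, hv, hc⟩ := h
  exact ⟨{x | L.Cn (rect a b p q ∩ L.col c ω) u x}, con_cluster _ _, fun x hx => hx.right,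
    ⟨u, Cn.refl hc.left, hu⟩, ⟨v, hc, hv⟩⟩

private theorem td2_nrm_adj {u v : Pt} (h : L.Adj u v) : nrm v ≤ nrm u + 1 := by
  obtain ⟨h1, h2⟩ := h.near
  unfold nrm
  rw [abs_le] at h1 h2
  have e1 : |v.1| ≤ |u.1| + 1 := by
    rcases abs_cases v.1 with ⟨a, _⟩ | ⟨a, _⟩ <;> rcases abs_cases u.1 with ⟨b, _⟩ | ⟨b, _⟩ <;>
      rw [a, b] <;> omega
  have e2 : |v.2| ≤ |u.2| + 1 := by
    rcases abs_cases v.2 with ⟨a, _⟩ | ⟨a, _⟩ <;> rcases abs_cases u.2 with ⟨b, _⟩ | ⟨b, _⟩ <;>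
      rw [a, b] <;> omega
  exact max_le (e1.trans (by have := le_max_left |u.1| |u.2|; omega))
    (e2.trans (by have := le_max_right |u.1| |u.2|; omega))

/-- the set `P` stopped at norm `R` together with the box -/
private theorem td2_stop {r R : ℤ} (hR : r < R) {P : Set Pt} (hP : L.Con P)
    (hi : ∃ v ∈ P, v ∈ bx r ∪ L.nb (bx r)) (ho : ∃ v ∈ P, R ≤ nrm v) :
    ∃ Q : Set Pt, Q ⊆ P ∧ Q ⊆ bx R ∧ L.Con (Q ∪ bx r) ∧ ∃ q ∈ Q, nrm q = R := by
  obtain ⟨v0, hv0, hv0'⟩ := hi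
  obtain ⟨v1, hv1, hv1'⟩ := ho
  have hn0 : nrm v0 ≤ r + 1 := by
    rcases hv0' with h | ⟨u, hu, hu'⟩
    · have : nrm v0 ≤ r := h
      omega
    · have h1 := td2_nrm_adj hu'
      have h2 : nrm u ≤ r := hu
      omega
  have hv0R : v0 ∈ bx R := by
    show nrm v0 ≤ R
    omega
  set Q : Set Pt := {x | L.Cn (P ∩ bx R) v0 x} with hQ
  have hQc : L.Con Q := con_cluster _ _
  have hv0Q : v0 ∈ Q := Cn.refl ⟨hv0, hv0R⟩
  refine ⟨Q, fun x hx => (Cn.right hx).1, fun x hx => (Cn.right hx).2, ?_, ?_⟩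
  · rcases hv0' with h | ⟨u, hu, hu'⟩
    · exact hQc.union (con_bx r) ⟨v0, hv0Q, h⟩
    · exact hQc.union_adj (con_bx r) hv0Q hu hu'.symm
  · by_cases hlt : nrm v0 < R
    · obtain ⟨p, q, h1, h2, h3, h4⟩ := (hP v0 hv0 v1 hv1).exit (S := {v | nrm v < R}) hlt
        (fun h => absurd (show nrm v1 < R from h) (by omega))
      have h5 : nrm p < R := h1.right.2
      have h6 := td2_nrm_adj h2
      have h7 : R ≤ nrm q := by
        by_contra hcon
        exact h4 (show nrm q < R by omega)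
      have h8 : nrm q = R := by omega
      refine ⟨q, ?_, h8⟩
      have h9 : L.Cn (P ∩ bx R) v0 p := h1.mono fun x hx => ⟨hx.1, le_of_lt (show nrm x < R from hx.2)⟩
      exact h9.trans (Cn.of_adj h9.right ⟨h3, le_of_eq h8⟩ h2)
    · exact ⟨v0, hv0Q, le_antisymm hv0R (not_lt.1 hlt)⟩

private theorem td2_mem {r : ℤ} {X Q C : Set Pt} (hX : ∀ x ∈ X, r < nrm x ∧ x ∉ C)
    (h : (X ∩ (Q ∪ bx r ∪ C)).Nonempty) : (X ∩ Q).Nonempty := by
  obtain ⟨x, hx, hx'⟩ := h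
  rcases hx' with (h1 | h1) | h1
  · exact ⟨x, hx, h1⟩
  · exact absurd (show nrm x ≤ r from h1) (not_le.2 (hX x hx).1)
  · exact absurd h1 (hX x hx).2

/-- A circuit separates.  `σ` = union of the four crossing sets: connected, because each of the
horizontal crossings meets each of the vertical crossings of the full rows and columns (`crossX` in
the corner squares, or `cross` in `[-R,R] × [r+1,R]`: the left crossing contains a crossing of the
corner square from bottom to top).  Separation: by `Cn.exit` we may assume that `P ⊆ bx R` (stop `P` at the first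
site of norm `R`), and adding `bx r` (connected; a site of `nb (bx r)` has a neighbour in it) that
`bx r ⊆ P`, `P` still connected, and it suffices that `σ` meets `P` (`σ` does not meet `bx r`).
If the last site `v` of `P` has `v.2 = R`: add the column `{0} × [-R, 0]` to `P`; this is connected and crosses
`[-R,R]²` from bottom to top, so it meets the top crossing `HX` of `[-R,R] × [r+1,R]` (`cross`), at a site
with second coordinate `≥ r + 1`, which is not in the column nor in `bx r`: it is in `P`.  The other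
three sides are similar. -/
theorem Circ.sep {c : Bool} {r R : ℤ} (hr : 0 ≤ r) (hR : r < R) {ω : Cfg} (h : L.Circ c r R ω) :
    ∃ σ, σ ⊆ L.col c ω ∧ L.Sep σ r R := by
  obtain ⟨hT, hB, hL, hE⟩ := h
  obtain ⟨T, hT1, hT2, hT3, hT4⟩ := td2_hx hT
  obtain ⟨B, hB1, hB2, hB3, hB4⟩ := td2_hx hB
  obtain ⟨W, hW1, hW2, hW3, hW4⟩ := td2_vx hL
  obtain ⟨E, hE1, hE2, hE3, hE4⟩ := td2_vx hE
  have hTW : (T ∩ W).Nonempty := by
    obtain ⟨x, hx, -⟩ := crossX hT1 hW1 (fun x hx => (hT2 hx).1) (fun x hx => (hW2 hx).1) hT3 hT4 hW3 hW4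
      (by omega) (by omega) (by omega) (by omega) (by omega) (by omega)
    exact ⟨x, hx⟩
  have hTE : (T ∩ E).Nonempty := by
    obtain ⟨x, hx, -⟩ := crossX hT1 hE1 (fun x hx => (hT2 hx).1) (fun x hx => (hE2 hx).1) hT3 hT4 hE3 hE4
      (by omega) (by omega) (by omega) (by omega) (by omega) (by omega)
    exact ⟨x, hx⟩
  have hBW : (B ∩ W).Nonempty := by
    obtain ⟨x, hx, -⟩ := crossX hB1 hW1 (fun x hx => (hB2 hx).1) (fun x hx => (hW2 hx).1) hB3 hB4 hW3 hW4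
      (by omega) (by omega) (by omega) (by omega) (by omega) (by omega)
    exact ⟨x, hx⟩
  have hc1 : L.Con (T ∪ W) := hT1.union hW1 hTW
  have hc2 : L.Con (T ∪ W ∪ E) := by
    obtain ⟨x, hx, hx'⟩ := hTE
    exact hc1.union hE1 ⟨x, Or.inl hx, hx'⟩
  have hc3 : L.Con (T ∪ W ∪ E ∪ B) := by
    obtain ⟨x, hx, hx'⟩ := hBW
    exact hc2.union hB1 ⟨x, Or.inl (Or.inr hx'), hx⟩
  refine ⟨T ∪ W ∪ E ∪ B, ?_, hc3, ?_, ?_⟩
  · rintro x (((hx | hx) | hx) | hx)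
    · exact (hT2 hx).2
    · exact (hW2 hx).2
    · exact (hE2 hx).2
    · exact (hB2 hx).2
  · rintro x (((hx | hx) | hx) | hx)
    · exact td2_top hr (hT2 hx).1
    · exact td2_left hr (hW2 hx).1
    · exact td2_right hr (hE2 hx).1
    · exact td2_bot hr (hB2 hx).1
  · intro P hP hi ho
    obtain ⟨Q, hQ1, hQ2, hQ3, q, hq, hqR⟩ := td2_stop hR hP hi ho
    have h0 : ((0 : ℤ), (0 : ℤ)) ∈ Q ∪ bx r := Or.inr (by
      show nrm (0, 0) ≤ r
      simpa [nrm] using hr)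
    have hbR : ∀ v : Pt, nrm v ≤ R → v ∈ rect (-R) R (-R) R := by
      intro v hv
      simp only [nrm, max_le_iff, abs_le] at hv
      exact ⟨⟨hv.1.1, hv.1.2⟩, hv.2.1, hv.2.2⟩
    have hQR : ∀ v ∈ Q ∪ bx r, v ∈ rect (-R) R (-R) R := by
      rintro v (hv | hv)
      · exact hbR v (hQ2 hv)
      · exact hbR v (le_trans (show nrm v ≤ r from hv) hR.le)
    have hq4 : q.2 = R ∨ q.2 = -R ∨ q.1 = R ∨ q.1 = -R := by
      unfold nrm at hqR
      rcases abs_cases q.1 with ⟨a, _⟩ | ⟨a, _⟩ <;> rcases abs_cases q.2 with ⟨b, _⟩ | ⟨b, _⟩ <;>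
        rw [a, b] at hqR <;> omega
    have fin : ∀ X : Set Pt, X ⊆ T ∪ W ∪ E ∪ B → (X ∩ Q).Nonempty →
        ((T ∪ W ∪ E ∪ B) ∩ P).Nonempty := by
      rintro X hX ⟨x, hx, hx'⟩
      exact ⟨x, hX hx, hQ1 hx'⟩
    rcases hq4 with h | h | h | h
    · -- top
      have hcol : L.Con (Q ∪ bx r ∪ rect 0 0 (-R) 0) :=
        hQ3.union (con_rect _ _ _ _) ⟨(0, 0), h0, by simp [rect]; omega⟩
      have h1 := cross hT1 hcol (a := -R) (b := R) (c := -R) (d := R)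
        (fun x hx => by
          obtain ⟨⟨a1, a2⟩, a3, a4⟩ := (hT2 hx).1
          exact ⟨⟨a1, a2⟩, by omega, a4⟩)
        (by
          rintro x (hx | hx)
          · exact hQR x hx
          · obtain ⟨⟨a1, a2⟩, a3, a4⟩ := hx
            exact ⟨⟨by omega, by omega⟩, a3, by omega⟩)
        hT3 hT4 ⟨(0, -R), Or.inr ⟨⟨le_rfl, le_rfl⟩, le_rfl, by show -R ≤ 0; omega⟩, rfl⟩
        ⟨q, Or.inl (Or.inl hq), h⟩
      refine fin T (fun x hx => Or.inl (Or.inl (Or.inl hx))) (td2_mem (fun x hx => ?_) h1)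
      refine ⟨(td2_top hr (hT2 hx).1).1, fun hx' => ?_⟩
      have a1 := (hT2 hx).1.2.1
      have a2 := hx'.2.2
      omega
    · -- bottom
      have hcol : L.Con (Q ∪ bx r ∪ rect 0 0 0 R) :=
        hQ3.union (con_rect _ _ _ _) ⟨(0, 0), h0, by simp [rect]; omega⟩
      have h1 := cross hB1 hcol (a := -R) (b := R) (c := -R) (d := R)
        (fun x hx => by
          obtain ⟨⟨a1, a2⟩, a3, a4⟩ := (hB2 hx).1
          exact ⟨⟨a1, a2⟩, a3, by omega⟩)
        (by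
          rintro x (hx | hx)
          · exact hQR x hx
          · obtain ⟨⟨a1, a2⟩, a3, a4⟩ := hx
            exact ⟨⟨by omega, by omega⟩, by omega, a4⟩)
        hB3 hB4 ⟨q, Or.inl (Or.inl hq), h⟩
        ⟨(0, R), Or.inr ⟨⟨le_rfl, le_rfl⟩, by show 0 ≤ R; omega, le_rfl⟩, rfl⟩
      refine fin B (fun x hx => Or.inr hx) (td2_mem (fun x hx => ?_) h1)
      refine ⟨(td2_bot hr (hB2 hx).1).1, fun hx' => ?_⟩
      have a1 := (hB2 hx).1.2.2
      have a2 := hx'.2.1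
      omega
    · -- right
      have hcol : L.Con (Q ∪ bx r ∪ rect (-R) 0 0 0) :=
        hQ3.union (con_rect _ _ _ _) ⟨(0, 0), h0, by simp [rect]; omega⟩
      have h1 := cross hcol hE1 (a := -R) (b := R) (c := -R) (d := R)
        (by
          rintro x (hx | hx)
          · exact hQR x hx
          · obtain ⟨⟨a1, a2⟩, a3, a4⟩ := hx
            exact ⟨⟨a1, by omega⟩, by omega, by omega⟩)
        (fun x hx => by
          obtain ⟨⟨a1, a2⟩, a3, a4⟩ := (hE2 hx).1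
          exact ⟨⟨by omega, a2⟩, a3, a4⟩)
        ⟨(-R, 0), Or.inr ⟨⟨le_rfl, by show -R ≤ 0; omega⟩, le_rfl, le_rfl⟩, rfl⟩
        ⟨q, Or.inl (Or.inl hq), h⟩ hE3 hE4
      rw [Set.inter_comm] at h1
      refine fin E (fun x hx => Or.inl (Or.inr hx)) (td2_mem (fun x hx => ?_) h1)
      refine ⟨(td2_right hr (hE2 hx).1).1, fun hx' => ?_⟩
      have a1 := (hE2 hx).1.1.1
      have a2 := hx'.1.2
      omega
    · -- left
      have hcol : L.Con (Q ∪ bx r ∪ rect 0 R 0 0) :=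
        hQ3.union (con_rect _ _ _ _) ⟨(0, 0), h0, by simp [rect]; omega⟩
      have h1 := cross hcol hW1 (a := -R) (b := R) (c := -R) (d := R)
        (by
          rintro x (hx | hx)
          · exact hQR x hx
          · obtain ⟨⟨a1, a2⟩, a3, a4⟩ := hx
            exact ⟨⟨by omega, a2⟩, by omega, by omega⟩)
        (fun x hx => by
          obtain ⟨⟨a1, a2⟩, a3, a4⟩ := (hW2 hx).1
          exact ⟨⟨a1, by omega⟩, a3, a4⟩)
        ⟨q, Or.inl (Or.inl hq), h⟩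
        ⟨(R, 0), Or.inr ⟨⟨by show 0 ≤ R; omega, le_rfl⟩, le_rfl, le_rfl⟩, rfl⟩ hW3 hW4
      rw [Set.inter_comm] at h1
      refine fin W (fun x hx => Or.inl (Or.inl (Or.inr hx))) (td2_mem (fun x hx => ?_) h1)
      refine ⟨(td2_left hr (hW2 hx).1).1, fun hx' => ?_⟩
      have a1 := (hW2 hx).1.1.2
      have a2 := hx'.1.1
      omega

end Lat

/-- Probability of a circuit (Harris inequality for the four crossings). -/
theorem circ_pr (h : RSW L κ) {k : ℕ} (hk : 1 ≤ k) (c : Bool) {r R : ℤ} (hr : 0 ≤ r)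
    (h4 : 4 ≤ R - r - 1) (hR : 2 * R ≤ k * (R - r - 1)) : κ k ^ 4 ≤ pr (L.Circ c r R) := by
  have hk0 := (h.pos k).le
  have h1 : κ k ≤ pr (L.HX c (-R) R (r + 1) R) := h.hx' hk c (by omega) (by omega) (by
    have e : R - (r + 1) = R - r - 1 := by ring
    rw [e]; linarith)
  have h2 : κ k ≤ pr (L.HX c (-R) R (-R) (-r - 1)) := h.hx' hk c (by omega) (by omega) (by
    have e : -r - 1 - -R = R - r - 1 := by ring
    rw [e]; linarith)
  have h3 : κ k ≤ pr (L.VX c (-R) (-r - 1) (-R) R) := h.vx' hk c (by omega) (by omega) (by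
    have e : -r - 1 - -R = R - r - 1 := by ring
    rw [e]; linarith)
  have h5 : κ k ≤ pr (L.VX c (r + 1) R (-R) R) := h.vx' hk c (by omega) (by omega) (by
    have e : R - (r + 1) = R - r - 1 := by ring
    rw [e]; linarith)
  let A : Fin 4 → Cfg → Prop := ![L.HX c (-R) R (r + 1) R, L.HX c (-R) R (-R) (-r - 1),
    L.VX c (-R) (-r - 1) (-R) R, L.VX c (r + 1) R (-R) R]
  have hA : ∏ i ∈ (Finset.univ : Finset (Fin 4)), pr (A i) ≤ pr (fun ω => ∀ i ∈ (Finset.univ : Finset (Fin 4)), A i ω) := by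
    refine pr_harris_mon c (fun i _ => ?_) (fun i _ => ?_)
    · fin_cases i
      · exact Lat.HX.loc L c _ _ _ _
      · exact Lat.HX.loc L c _ _ _ _
      · exact Lat.VX.loc L c _ _ _ _
      · exact Lat.VX.loc L c _ _ _ _
    · fin_cases i
      · exact Lat.HX.mon L c _ _ _ _
      · exact Lat.HX.mon L c _ _ _ _
      · exact Lat.VX.mon L c _ _ _ _
      · exact Lat.VX.mon L c _ _ _ _
  have he : (fun ω => ∀ i ∈ (Finset.univ : Finset (Fin 4)), A i ω) = L.Circ c r R := by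
    funext ω
    apply propext
    constructor
    · intro hh
      exact ⟨hh 0 (Finset.mem_univ _), hh 1 (Finset.mem_univ _), hh 2 (Finset.mem_univ _),
        hh 3 (Finset.mem_univ _)⟩
    · rintro ⟨a1, a2, a3, a4⟩ i -
      fin_cases i
      · exact a1
      · exact a2
      · exact a3
      · exact a4
  rw [he, Fin.prod_univ_four] at hA
  refine le_trans ?_ hA
  have e : κ k ^ 4 = κ k * κ k * κ k * κ k := by ring
  rw [e]
  exact mul_le_mul (mul_le_mul (mul_le_mul h1 h2 hk0 (pr_nonneg _)) h3 hk0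
    (mul_nonneg (pr_nonneg _) (pr_nonneg _))) h5 hk0
    (mul_nonneg (mul_nonneg (pr_nonneg _) (pr_nonneg _)) (pr_nonneg _))

end SC

end

/-! ### from `Lib_MP_e0a489.SH6` -/

section

/-!
# MP_e0a489, shared by OS and IS, 6: the fresh configuration, circuit and corridors
-/

set_option autoImplicit false

namespace SC

open Classical

variable {L : Lat} {κ : ℕ → ℝ}

namespace Lat

/-- crossing of colour `c` of the corridor `ib w M s k ∪ ob w M s k` in the radial direction -/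
def Cor (L : Lat) (c : Bool) (w M s k : ℤ) (ω : Cfg) : Prop :=
  (L.rots s).HX c (M * w - w / 2) (M * w + w / 2 + w) (k * w - w / 2) (k * w + w / 2)
    (via (rt s) ω)

/-- the fresh configuration: a circuit and the crossings of two corridors -/
def Fre (L : Lat) (c : Bool) (r R w M s k s' k' : ℤ) (ω : Cfg) : Prop :=
  L.Circ c r R ω ∧ L.Cor c w M s k ω ∧ L.Cor c w M s' k' ω

private theorem sh6_rect {w M s k : ℤ} (hw : w % 2 = 1) (hw0 : 0 < w) :
    rt s '' rect (M * w - w / 2) (M * w + w / 2 + w) (k * w - w / 2) (k * w + w / 2) =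
      ib w M s k ∪ ob w M s k := by
  rw [ib_eq hw hw0, ob_eq hw hw0, ← Set.image_union]
  congr 1
  ext v
  simp only [rect, Set.mem_union, Set.mem_ofPred_eq]
  have h1 : 0 ≤ w / 2 := by omega
  constructor
  · rintro ⟨⟨a1, a2⟩, a3⟩
    by_cases h : v.1 ≤ M * w + w / 2
    · exact Or.inl ⟨⟨a1, h⟩, a3⟩
    · exact Or.inr ⟨⟨by omega, a2⟩, a3⟩
  · rintro (⟨⟨a1, a2⟩, a3⟩ | ⟨⟨a1, a2⟩, a3⟩)
    · exact ⟨⟨a1, by omega⟩, a3⟩
    · exact ⟨⟨by omega, a2⟩, a3⟩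

private theorem sh6_y {w M k y : ℤ} (hw : w % 2 = 1) (hw0 : 0 < w) (hk : |k| < M)
    (h1 : k * w - w / 2 ≤ y) (h2 : y ≤ k * w + w / 2) : |y| + 1 ≤ M * w - w / 2 := by
  have h3 := abs_lt.1 hk
  have h4 : k * w ≤ (M - 1) * w := mul_le_mul_of_nonneg_right (by omega) hw0.le
  have h5 : -(M - 1) * w ≤ k * w := mul_le_mul_of_nonneg_right (by omega) hw0.le
  have h6 : (M - 1) * w = M * w - w := by ring
  have h7 : -(M - 1) * w = w - M * w := by ring
  rw [h6] at h4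
  rw [h7] at h5
  rcases abs_cases y with ⟨a, _⟩ | ⟨a, _⟩ <;> rw [a] <;> omega

private theorem sh6_nrm {a y : ℤ} (h : |y| ≤ a) : nrm (a, y) = a := by
  have h0 : 0 ≤ a := le_trans (abs_nonneg y) h
  show max |a| |y| = a
  rw [abs_of_nonneg h0]
  exact max_eq_left h

/-- transport of the crossing (`tr_rots`, `Tr.cn`, `Tr.col`): the image under `rt s` of the rectangle is
`ib w M s k ∪ ob w M s k` (`ib_eq`, `ob_eq`) -/
theorem Cor.set {c : Bool} {w M s k : ℤ} {ω : Cfg} (hw : w % 2 = 1) (hw0 : 0 < w) (hk : |k| < M)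
    (h : L.Cor c w M s k ω) : ∃ τ, L.Con τ ∧ τ ⊆ L.col c ω ∧ τ ⊆ ib w M s k ∪ ob w M s k ∧
      (∃ u ∈ τ, u ∈ ib w M s k ∧ u ∈ rng (M * w - w / 2)) ∧
      (∃ u ∈ τ, u ∈ ob w M s k ∧ u ∈ rng (M * w + w / 2 + w)) := by
  obtain ⟨u, v, hu, hv, hc⟩ := h
  have hc' := ((tr_rots L s).cn _ u v).1 hc
  rw [Set.image_inter (rt s).injective, (tr_rots L s).col, sh6_rect hw hw0] at hc'
  have huR := hc.left.1
  have hvR := hc.right.1
  refine ⟨{x | L.Cn ((ib w M s k ∪ ob w M s k) ∩ L.col c ω) (rt s u) x}, con_cluster _ _,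
    fun x hx => (Cn.right hx).2, fun x hx => (Cn.right hx).1,
    ⟨rt s u, Cn.refl hc'.left, ?_, ?_⟩, ⟨rt s v, hc', ?_, ?_⟩⟩
  · rw [ib_eq hw hw0]
    exact ⟨u, ⟨⟨by omega, by omega⟩, huR.2⟩, rfl⟩
  · show nrm (rt s u) = M * w - w / 2
    have h1 := sh6_y hw hw0 hk huR.2.1 huR.2.2
    rw [nrm_rt, show u = (M * w - w / 2, u.2) from Prod.ext hu rfl]
    exact sh6_nrm (by show |u.2| ≤ M * w - w / 2; omega)
  · rw [ob_eq hw hw0]
    exact ⟨v, ⟨⟨by omega, by omega⟩, hvR.2⟩, rfl⟩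
  · show nrm (rt s v) = M * w + w / 2 + w
    have h1 := sh6_y hw hw0 hk hvR.2.1 hvR.2.2
    rw [nrm_rt, show v = (M * w + w / 2 + w, v.2) from Prod.ext hv rfl]
    exact sh6_nrm (by show |v.2| ≤ M * w + w / 2 + w; omega)

theorem Cor.dep (L : Lat) (c : Bool) {w M s k : ℤ} (hw : w % 2 = 1) (hw0 : 0 < w) :
    Dep (L.Cor c w M s k) (ib w M s k ∪ ob w M s k) := by
  intro ω ω' h
  unfold Cor
  refine HX.dep (L.rots s) c _ _ _ _ (via (rt s) ω) (via (rt s) ω') fun v hv => ?_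
  show ω (rt s v) = ω' (rt s v)
  refine h _ ?_
  rw [← sh6_rect hw hw0]
  exact Set.mem_image_of_mem _ hv

theorem Cor.mon (L : Lat) (c : Bool) (w M s k : ℤ) : MonC c (L.Cor c w M s k) := by
  have h1 := HX.mon (L.rots s) c (M * w - w / 2) (M * w + w / 2 + w) (k * w - w / 2)
    (k * w + w / 2)
  cases c with
  | true =>
    unfold MonC at *
    rw [if_pos rfl] at *
    intro ω ω' h hC
    exact h1 (via (rt s) ω) (via (rt s) ω') (fun v => h _) hC
  | false =>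
    unfold MonC at *
    rw [if_neg (by decide)] at *
    intro ω ω' h hC
    exact h1 (via (rt s) ω) (via (rt s) ω') (fun v => h _) hC

/-- `Circ.dep`, `Cor.dep` -/
theorem Fre.dep (L : Lat) (c : Bool) {r R w M s k s' k' : ℤ} {A : Set Pt} (hr : 0 ≤ r)
    (hw : w % 2 = 1) (hw0 : 0 < w) (h1 : ann r R ⊆ A) (h2 : ib w M s k ∪ ob w M s k ⊆ A)
    (h3 : ib w M s' k' ∪ ob w M s' k' ⊆ A) : Dep (L.Fre c r R w M s k s' k') A := by
  intro ω ω' h
  unfold Fre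
  rw [((Circ.dep L c r R hr).mono h1) ω ω' h, ((Cor.dep L c hw hw0).mono h2) ω ω' h,
    ((Cor.dep L c hw hw0).mono h3) ω ω' h]

/-- THE SET `T`.  `σ` from `Circ.sep`, `τ` from `Cor.set`; `τ` has a site of norm `M w - w/2 ≤ r + 1`, which is in
`bx r ∪ nb (bx r)` (it is `rt s (r + 1, y)` with `|y| ≤ r`, next to `rt s (r, y)`, in the case `M w - w/2 = r + 1`), and a site of norm
`M w + w/2 + w ≥ R`; so `Sep` gives a common site of `σ` and `τ` and `T = σ ∪ τ` is connected. -/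
theorem fresh_set {c : Bool} {r R w M s k : ℤ} {ω : Cfg} (hw : w % 2 = 1) (hw0 : 0 < w)
    (hk : |k| < M) (hr : 0 ≤ r) (hrR : r < R) (h1 : M * w - w / 2 ≤ r + 1)
    (h2 : R ≤ M * w + w / 2 + w) (hc : L.Circ c r R ω) (ht : L.Cor c w M s k ω) :
    ∃ T, L.Con T ∧ T ⊆ L.col c ω ∧ T ⊆ ann r R ∪ (ib w M s k ∪ ob w M s k) ∧
      (∃ u ∈ T, u ∈ ib w M s k ∧ u ∈ rng (M * w - w / 2)) ∧
      (∃ u ∈ T, u ∈ ob w M s k ∧ u ∈ rng (M * w + w / 2 + w)) ∧
      ∀ P : Set Pt, L.Con P → (∃ v ∈ P, v ∈ bx r ∪ L.nb (bx r)) → (∃ v ∈ P, R ≤ nrm v) →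
        (T ∩ P).Nonempty := by
  obtain ⟨σ, hσc, hσ1, hσ2, hσ3⟩ := Circ.sep hr hrR hc
  obtain ⟨τ, hτ1, hτc, hτ2, ⟨u, hu, hui, hur⟩, ⟨v, hv, hvi, hvr⟩⟩ := Cor.set hw hw0 hk ht
  have hur' : nrm u = M * w - w / 2 := hur
  have hvr' : nrm v = M * w + w / 2 + w := hvr
  have hin : u ∈ bx r ∪ L.nb (bx r) := by
    by_cases hle : M * w - w / 2 ≤ r
    · exact Or.inl (show nrm u ≤ r by omega)
    · have he : M * w - w / 2 = r + 1 := by omega
      rw [ib_eq hw hw0] at hui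
      obtain ⟨z, ⟨⟨a1, a2⟩, a3, a4⟩, rfl⟩ := hui
      rw [nrm_rt] at hur'
      have hz : |z.2| + 1 ≤ M * w - w / 2 := sh6_y hw hw0 hk a3 a4
      have hz1 : z.1 = r + 1 := by
        have h5 : |z.1| ≤ nrm z := le_max_left _ _
        have h6 := le_abs_self z.1
        omega
      refine Or.inr ⟨rt s (r, z.2), ?_, ?_⟩
      · show nrm (rt s (r, z.2)) ≤ r
        rw [nrm_rt, sh6_nrm (by omega)]
      · refine ((tr_rots L s).adj _ _).1 ?_
        have h7 := adj_right (L := L.rots s) (r, z.2)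
        rwa [show ((r, z.2).1 + 1, (r, z.2).2) = z from Prod.ext hz1.symm rfl] at h7
  have hint : (σ ∩ τ).Nonempty := hσ3 τ hτ1 ⟨u, hu, hin⟩ ⟨v, hv, by omega⟩
  refine ⟨σ ∪ τ, hσ1.union hτ1 hint, Set.union_subset hσc hτc,
    Set.union_subset_union hσ2 hτ2, ⟨u, Or.inr hu, hui, hur⟩, ⟨v, Or.inr hv, hvi, hvr⟩,
    fun P hP hi ho => ?_⟩
  obtain ⟨x, hx, hx'⟩ := hσ3 P hP hi ho
  exact ⟨x, Or.inl hx, hx'⟩

end Lat

/-- `circ_pr` with `k = 4 (M + 3)` (`2 R ≤ 2 (M + 2) w ≤ 4 (M + 2) (w - 1)` and `R - r - 1 = w - 1 ≥ 4`), `RSW.hx'` for the lattice `L.rots s` with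
`k = 3` (`pr_via`), Harris (`pr_harris_mon`, three events). -/
theorem fre_pr (h : RSW L κ) (c : Bool) {r R w M s k s' k' : ℤ} (hw : w % 2 = 1) (hw5 : 5 ≤ w)
    (hM : 1 ≤ M) (hr : 0 ≤ r) (hR : R = r + w) (hR' : R ≤ M * w + w / 2 + w) :
    κ (4 * (M.toNat + 3)) ^ 4 * κ 3 ^ 2 ≤ pr (L.Fre c r R w M s k s' k') := by
  have hMn : (M.toNat : ℤ) = M := Int.toNat_of_nonneg (by omega)
  have h1 : κ (4 * (M.toNat + 3)) ^ 4 ≤ pr (L.Circ c r R) := by
    refine circ_pr h (by omega) c hr (by omega) ?_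
    push_cast
    rw [hMn]
    have h2 : R - r - 1 = w - 1 := by omega
    rw [h2]
    have h3 : 2 * R ≤ 2 * (M * w + w / 2 + w) := by omega
    have h4 : 2 * (w / 2) ≤ w := by omega
    nlinarith [mul_nonneg (show 0 ≤ M - 1 by omega) (show 0 ≤ w - 5 by omega)]
  have hcor : ∀ s₀ k₀ : ℤ, κ 3 ≤ pr (L.Cor c w M s₀ k₀) := by
    intro s₀ k₀
    unfold Lat.Cor
    rw [pr_via (Lat.HX.loc (L.rots s₀) c _ _ _ _) (rt s₀)]
    refine (h.rots s₀).hx' (by omega) c (by omega) (by omega) ?_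
    push_cast
    omega
  have hcl : ∀ s₀ k₀ : ℤ, Loc (L.Cor c w M s₀ k₀) := by
    intro s₀ k₀
    obtain ⟨F, hF⟩ := Lat.HX.loc (L.rots s₀) c (M * w - w / 2) (M * w + w / 2 + w)
      (k₀ * w - w / 2) (k₀ * w + w / 2)
    refine ⟨F.image (rt s₀), ?_⟩
    intro ω ω' hω
    refine hF (via (rt s₀) ω) (via (rt s₀) ω') fun v hv => ?_
    exact hω _ (by rw [Finset.coe_image]; exact Set.mem_image_of_mem _ hv)
  let A : Fin 3 → Cfg → Prop := ![L.Circ c r R, L.Cor c w M s k, L.Cor c w M s' k']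
  have hA : ∏ i ∈ (Finset.univ : Finset (Fin 3)), pr (A i) ≤
      pr (fun ω => ∀ i ∈ (Finset.univ : Finset (Fin 3)), A i ω) := by
    refine pr_harris_mon c (fun i _ => ?_) (fun i _ => ?_)
    · fin_cases i
      · exact Lat.Circ.loc L c r R
      · exact hcl s k
      · exact hcl s' k'
    · fin_cases i
      · exact Lat.Circ.mon L c r R
      · exact Lat.Cor.mon L c w M s k
      · exact Lat.Cor.mon L c w M s' k'
  have he : (fun ω => ∀ i ∈ (Finset.univ : Finset (Fin 3)), A i ω) =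
      L.Fre c r R w M s k s' k' := by
    funext ω
    apply propext
    constructor
    · intro hh
      exact ⟨hh 0 (Finset.mem_univ _), hh 1 (Finset.mem_univ _), hh 2 (Finset.mem_univ _)⟩
    · rintro ⟨a1, a2, a3⟩ i -
      fin_cases i
      · exact a1
      · exact a2
      · exact a3
  rw [he, Fin.prod_univ_three] at hA
  refine le_trans ?_ hA
  have hk3 := (h.pos 3).le
  have e : κ (4 * (M.toNat + 3)) ^ 4 * κ 3 ^ 2 = κ (4 * (M.toNat + 3)) ^ 4 * κ 3 * κ 3 := by ring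
  rw [e]
  exact mul_le_mul (mul_le_mul h1 (hcor s k) hk3 (pr_nonneg _)) (hcor s' k') hk3
    (mul_nonneg (pr_nonneg _) (pr_nonneg _))

end SC

end

/-! ### from `Lib_MP_e0a489.TTI1` -/

section

/-!
# MP_e0a489, module TT, sums over sites and power sums
-/

set_option autoImplicit false

namespace SC

namespace TT

open Classical

/-- The ring of radius `m ≥ 1` has at most `8 m` sites: `rc_surj` (with `a = 0`): it is contained in the image of `rc m` on `[0, 8m)`. -/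
theorem ring_card {m : ℤ} (hm : 1 ≤ m) {F : Finset Pt} (hF : ∀ v ∈ F, nrm v = m) :
    (F.card : ℝ) ≤ 8 * (m : ℝ) := by
  have h1 : F ⊆ (Finset.Ico (0 : ℤ) (8 * m)).image (rc m) := by
    intro v hv
    obtain ⟨i, h0, h8, hi⟩ := rc_surj hm (hF v hv) 0
    exact Finset.mem_image.2 ⟨i, Finset.mem_Ico.2 ⟨h0, by linarith⟩, hi⟩
  have h2 : F.card ≤ (8 * m).toNat := by
    refine (Finset.card_le_card h1).trans (Finset.card_image_le.trans ?_)
    rw [Int.card_Ico]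
    simp
  have h3 : ((8 * m).toNat : ℤ) = 8 * m := Int.toNat_of_nonneg (by omega)
  have h4 : (F.card : ℤ) ≤ 8 * m := by
    rw [← h3]
    exact_mod_cast h2
  exact_mod_cast h4

/-- Sum of a function of the norm over a finite set of sites with norms in `[a, b]`, `1 ≤ a`: fiberwise over the norm
(`Finset.sum_fiberwise_of_maps_to`), `ring_card`. -/
theorem sum_nrm {F : Finset Pt} {a b : ℤ} (ha : 1 ≤ a) (hF : ∀ v ∈ F, a ≤ nrm v ∧ nrm v ≤ b)
    {g : ℤ → ℝ} (hg : ∀ m, a ≤ m → m ≤ b → 0 ≤ g m) :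
    ∑ v ∈ F, g (nrm v) ≤ ∑ m ∈ Finset.Icc a b, 8 * (m : ℝ) * g m := by
  have hmap : ∀ v ∈ F, nrm v ∈ Finset.Icc a b := fun v hv => Finset.mem_Icc.2 (hF v hv)
  rw [← Finset.sum_fiberwise_of_maps_to hmap]
  refine Finset.sum_le_sum (fun m hm => ?_)
  rw [Finset.mem_Icc] at hm
  have h1 : ∑ v ∈ F.filter (fun v => nrm v = m), g (nrm v) =
      ((F.filter (fun v => nrm v = m)).card : ℝ) * g m := by
    rw [Finset.sum_congr rfl (fun v hv => by rw [(Finset.mem_filter.1 hv).2])]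
    rw [Finset.sum_const, nsmul_eq_mul]
  rw [h1]
  refine mul_le_mul_of_nonneg_right ?_ (hg m hm.1 hm.2)
  exact ring_card (by linarith [hm.1]) (fun v hv => (Finset.mem_filter.1 hv).2)

/-- One step, `0 < c ≤ 1`, `m ≥ 1`: `c m ^ (c - 1) ≤ m ^ c - (m - 1) ^ c`, because `(m-1) ^ c = m ^ c (1 - 1/m) ^ c ≤ m ^ c (1 - c / m)`
(`Real.rpow_one_add_le_one_add_mul_self` with `s = -1/m ≥ -1`, `0 ≤ c ≤ 1`). -/
theorem pow_step_up {c : ℝ} (h0 : 0 < c) (h1 : c ≤ 1) {m : ℤ} (hm : 1 ≤ m) :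
    c * (m : ℝ) ^ (c - 1) ≤ (m : ℝ) ^ c - ((m : ℝ) - 1) ^ c := by
  have hm' : (1 : ℝ) ≤ (m : ℝ) := by exact_mod_cast hm
  have hm0 : (0 : ℝ) < (m : ℝ) := by linarith
  have e1 : (m : ℝ) - 1 = (m : ℝ) * (1 + -(1 / (m : ℝ))) := by field_simp; ring
  have h2 : (0 : ℝ) ≤ 1 + -(1 / (m : ℝ)) := by
    have : 1 / (m : ℝ) ≤ 1 := by rw [div_le_one hm0]; exact hm'
    linarith
  have h3 : (1 + -(1 / (m : ℝ))) ^ c ≤ 1 + c * -(1 / (m : ℝ)) :=
    rpow_one_add_le_one_add_mul_self (by linarith) h0.le h1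
  have h4 : 0 < (m : ℝ) ^ c := Real.rpow_pos_of_pos hm0 c
  have e2 : ((m : ℝ) - 1) ^ c = (m : ℝ) ^ c * (1 + -(1 / (m : ℝ))) ^ c := by
    rw [e1, Real.mul_rpow hm0.le h2]
  have e3 : (m : ℝ) ^ (c - 1) = (m : ℝ) ^ c / (m : ℝ) := Real.rpow_sub_one hm0.ne' c
  rw [e2, e3]
  have h5 := mul_le_mul_of_nonneg_left h3 h4.le
  have e4 : (m : ℝ) ^ c * (1 + c * -(1 / (m : ℝ))) =
      (m : ℝ) ^ c - c * ((m : ℝ) ^ c / (m : ℝ)) := by field_simp; ring
  linarith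

/-- telescoping sum of `pow_step_up` -/
theorem sum_pow_up {c : ℝ} (h0 : 0 < c) (h1 : c ≤ 1) {n : ℤ} (hn : 0 ≤ n) :
    ∑ m ∈ Finset.Icc 1 n, (m : ℝ) ^ (c - 1) ≤ (n : ℝ) ^ c / c := by
  have key : ∀ k : ℕ, c * ∑ m ∈ Finset.Icc (1 : ℤ) (k : ℤ), (m : ℝ) ^ (c - 1) ≤ ((k : ℤ) : ℝ) ^ c := by
    intro k
    induction k with
    | zero =>
      simp only [Nat.cast_zero]
      rw [Finset.Icc_eq_empty (by norm_num), Finset.sum_empty, mul_zero]
      exact Real.rpow_nonneg (by norm_num) c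
    | succ k ih =>
      have e : Finset.Icc (1 : ℤ) ((k + 1 : ℕ) : ℤ) =
          insert (((k + 1 : ℕ) : ℤ)) (Finset.Icc (1 : ℤ) (k : ℤ)) := by
        ext i
        simp only [Finset.mem_Icc, Finset.mem_insert]
        push_cast
        omega
      have hn : (((k + 1 : ℕ) : ℤ)) ∉ Finset.Icc (1 : ℤ) (k : ℤ) := by
        simp only [Finset.mem_Icc]
        push_cast
        omega
      rw [e, Finset.sum_insert hn, mul_add]
      have h2 := pow_step_up h0 h1 (m := ((k + 1 : ℕ) : ℤ)) (by push_cast; omega)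
      have e2 : ((((k + 1 : ℕ) : ℤ)) : ℝ) - 1 = ((k : ℤ) : ℝ) := by push_cast; ring
      rw [e2] at h2
      linarith
  obtain ⟨k, rfl⟩ := Int.eq_ofNat_of_zero_le hn
  rw [le_div_iff₀ h0, mul_comm]
  exact key k

/-- One step, `0 < c ≤ 1`, `m ≥ 2`: `c m ^ (-1 - c) ≤ (m - 1) ^ (-c) - m ^ (-c)`: `(m - 1) ^ (-c) = m ^ (-c) (1 - 1/m) ^ (-c) ≥ m ^ (-c) (1 + c / m)`
(Bernoulli for the exponent `-c`: `one_add_mul_self_le_rpow_one_add` needs exponent `≥ 1`; instead `(1 - 1/m) ^ c ≤ 1 - c/m` as above and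
`1 / (1 - c/m) ≥ 1 + c/m`). -/
theorem pow_step_down {c : ℝ} (h0 : 0 < c) (h1 : c ≤ 1) {m : ℤ} (hm : 2 ≤ m) :
    c * (m : ℝ) ^ (-1 - c) ≤ ((m : ℝ) - 1) ^ (-c) - (m : ℝ) ^ (-c) := by
  have hm' : (2 : ℝ) ≤ (m : ℝ) := by exact_mod_cast hm
  have hm0 : (0 : ℝ) < (m : ℝ) := by linarith
  have e1 : (m : ℝ) - 1 = (m : ℝ) * (1 + -(1 / (m : ℝ))) := by field_simp; ring
  have h1m : 1 / (m : ℝ) ≤ 1 / 2 := one_div_le_one_div_of_le (by norm_num) hm'
  have h1m0 : 0 < 1 / (m : ℝ) := by positivity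
  have h2 : (0 : ℝ) < 1 + -(1 / (m : ℝ)) := by linarith
  have h3 : (1 + -(1 / (m : ℝ))) ^ c ≤ 1 + c * -(1 / (m : ℝ)) :=
    rpow_one_add_le_one_add_mul_self (by linarith) h0.le h1
  have h4 : 0 < (m : ℝ) ^ (-c) := Real.rpow_pos_of_pos hm0 _
  have h5 : 0 < (1 + -(1 / (m : ℝ))) ^ c := Real.rpow_pos_of_pos h2 c
  have hcm : c * (1 / (m : ℝ)) ≤ 1 / 2 := by nlinarith
  have h6 : 1 + c * (1 / (m : ℝ)) ≤ ((1 + -(1 / (m : ℝ))) ^ c)⁻¹ := by
    rw [← one_div, le_div_iff₀ h5]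
    have h7 : (1 + c * (1 / (m : ℝ))) * (1 + -(1 / (m : ℝ))) ^ c ≤
        (1 + c * (1 / (m : ℝ))) * (1 + c * -(1 / (m : ℝ))) :=
      mul_le_mul_of_nonneg_left h3 (by positivity)
    nlinarith [sq_nonneg (c * (1 / (m : ℝ)))]
  have e2 : ((m : ℝ) - 1) ^ (-c) = (m : ℝ) ^ (-c) * ((1 + -(1 / (m : ℝ))) ^ c)⁻¹ := by
    rw [e1, Real.mul_rpow hm0.le h2.le, Real.rpow_neg h2.le]
  have e3 : (m : ℝ) ^ (-1 - c) = (m : ℝ) ^ (-c) / (m : ℝ) := by
    have : (-1 - c) = -c - 1 := by ring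
    rw [this, Real.rpow_sub_one hm0.ne']
  rw [e2, e3]
  have h8 := mul_le_mul_of_nonneg_left h6 h4.le
  have e4 : (m : ℝ) ^ (-c) * (1 + c * (1 / (m : ℝ))) =
      (m : ℝ) ^ (-c) + c * ((m : ℝ) ^ (-c) / (m : ℝ)) := by field_simp
  linarith

/-- telescoping sum of `pow_step_down`: for `a ≥ 2`, the sum over `m ≥ a` is at most `(a - 1) ^ (-c) / c` -/
theorem sum_pow_down {c : ℝ} (h0 : 0 < c) (h1 : c ≤ 1) {a n : ℤ} (ha : 2 ≤ a) :
    ∑ m ∈ Finset.Icc a n, (m : ℝ) ^ (-1 - c) ≤ ((a : ℝ) - 1) ^ (-c) / c := by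
  have ha' : (1 : ℝ) ≤ (a : ℝ) - 1 := by
    have : (2 : ℝ) ≤ (a : ℝ) := by exact_mod_cast ha
    linarith
  have key : ∀ k : ℕ, c * ∑ m ∈ Finset.Icc a (a - 1 + (k : ℤ)), (m : ℝ) ^ (-1 - c) ≤
      ((a : ℝ) - 1) ^ (-c) - ((a : ℝ) - 1 + (k : ℝ)) ^ (-c) := by
    intro k
    induction k with
    | zero =>
      simp only [Nat.cast_zero, add_zero]
      rw [Finset.Icc_eq_empty (by omega), Finset.sum_empty]
      simp
    | succ k ih =>
      have e : Finset.Icc a (a - 1 + ((k + 1 : ℕ) : ℤ)) =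
          insert (a - 1 + ((k + 1 : ℕ) : ℤ)) (Finset.Icc a (a - 1 + (k : ℤ))) := by
        ext i
        simp only [Finset.mem_Icc, Finset.mem_insert]
        push_cast
        omega
      have hn : (a - 1 + ((k + 1 : ℕ) : ℤ)) ∉ Finset.Icc a (a - 1 + (k : ℤ)) := by
        simp only [Finset.mem_Icc]
        push_cast
        omega
      rw [e, Finset.sum_insert hn, mul_add]
      have h2 := pow_step_down h0 h1 (m := a - 1 + ((k + 1 : ℕ) : ℤ)) (by push_cast; omega)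
      have e2 : ((a - 1 + ((k + 1 : ℕ) : ℤ) : ℤ) : ℝ) - 1 = (a : ℝ) - 1 + (k : ℝ) := by
        push_cast; ring
      have e3 : ((a - 1 + ((k + 1 : ℕ) : ℤ) : ℤ) : ℝ) = (a : ℝ) - 1 + ((k + 1 : ℕ) : ℝ) := by
        push_cast; ring
      rw [e2] at h2
      rw [e3] at h2 ⊢
      linarith
  rw [le_div_iff₀ h0, mul_comm]
  by_cases hn : a - 1 ≤ n
  · obtain ⟨k, hk⟩ := Int.eq_ofNat_of_zero_le (by linarith : 0 ≤ n - (a - 1))
    have hk' : n = a - 1 + (k : ℤ) := by linarith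
    rw [hk']
    refine (key k).trans ?_
    have : 0 ≤ ((a : ℝ) - 1 + (k : ℝ)) ^ (-c) := Real.rpow_nonneg (by positivity) _
    linarith
  · rw [Finset.Icc_eq_empty (by omega), Finset.sum_empty, mul_zero]
    exact Real.rpow_nonneg (by linarith) _

/-- Number of sites `v ≡ x₀` modulo 2 with `2 nrm v ≤ n`: in each coordinate the integers `u ≡ x` modulo 2 with `|u| ≤ n / 2`, at least
`n / 4` of them (`n ≥ 16`).  So there is a finite set `V` of such sites with at least `n ^ 2 / 16` elements. -/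
theorem class_card (x₀ : Pt) {n : ℤ} (hn : 16 ≤ n) : ∃ V : Finset Pt,
    (∀ v ∈ V, 2 * nrm v ≤ n ∧ ∃ z : Pt, v = (x₀.1 + 2 * z.1, x₀.2 + 2 * z.2)) ∧
      (n : ℝ) ^ 2 / 16 ≤ (V.card : ℝ) := by
  obtain ⟨x, y⟩ := x₀
  obtain ⟨h, hh⟩ : ∃ h, h = n / 2 := ⟨_, rfl⟩
  have inj : Function.Injective (fun z : ℤ × ℤ => ((x + 2 * z.1, y + 2 * z.2) : Pt)) := by
    rintro ⟨a, b⟩ ⟨a', b'⟩ hab
    simp only [Prod.mk.injEq] at hab ⊢
    omega
  refine ⟨((Finset.Icc (-((h + x) / 2)) ((h - x) / 2)) ×ˢ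
    (Finset.Icc (-((h + y) / 2)) ((h - y) / 2))).image
      (fun z : ℤ × ℤ => ((x + 2 * z.1, y + 2 * z.2) : Pt)), ?_, ?_⟩
  · intro v hv
    obtain ⟨⟨i, j⟩, hz, rfl⟩ := Finset.mem_image.1 hv
    rw [Finset.mem_product, Finset.mem_Icc, Finset.mem_Icc] at hz
    obtain ⟨⟨h1, h2⟩, h3, h4⟩ := hz
    simp only at h1 h2 h3 h4
    refine ⟨?_, (i, j), rfl⟩
    have h5 : nrm ((x + 2 * i, y + 2 * j) : Pt) ≤ h := by
      refine max_le (abs_le.2 ⟨?_, ?_⟩) (abs_le.2 ⟨?_, ?_⟩) <;> simp only <;> omega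
    show 2 * nrm ((x + 2 * i, y + 2 * j) : Pt) ≤ n
    omega
  · rw [Finset.card_image_of_injective _ inj, Finset.card_product, Int.card_Icc, Int.card_Icc]
    have h1 : h ≤ ((((h - x) / 2 + 1 - -((h + x) / 2)).toNat : ℕ) : ℤ) := by omega
    have h2 : h ≤ ((((h - y) / 2 + 1 - -((h + y) / 2)).toNat : ℕ) : ℤ) := by omega
    have h3 : (h : ℝ) ≤ ((((h - x) / 2 + 1 - -((h + x) / 2)).toNat : ℕ) : ℝ) := by
      exact_mod_cast h1
    have h4 : (h : ℝ) ≤ ((((h - y) / 2 + 1 - -((h + y) / 2)).toNat : ℕ) : ℝ) := by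
      exact_mod_cast h2
    have h5 : n ≤ 2 * h + 1 := by omega
    have h6 : (n : ℝ) ≤ 2 * (h : ℝ) + 1 := by exact_mod_cast h5
    have h7 : (16 : ℝ) ≤ (n : ℝ) := by exact_mod_cast hn
    have h8 : (n : ℝ) / 4 ≤ (h : ℝ) := by linarith
    push_cast
    have h9 : (0 : ℝ) ≤ (h : ℝ) := by linarith
    calc (n : ℝ) ^ 2 / 16 = ((n : ℝ) / 4) * ((n : ℝ) / 4) := by ring
      _ ≤ (h : ℝ) * (h : ℝ) := mul_le_mul h8 h8 (by linarith) h9
      _ ≤ _ := mul_le_mul h3 h4 h9 (le_trans h9 h3)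

end TT

end SC

end

/-! ### from `Lib_MP_e0a489.HP6` -/

section

/-!
# MP_e0a489, module HP 6: circuits in the half plane and in the quarter plane
-/

set_option autoImplicit false

namespace SC

open Classical

/-- half plane (`q = false`) or quarter plane (`q = true`) -/
def Uq (q : Bool) : Set Pt := {v | 0 ≤ v.2 ∧ (q = true → 0 ≤ v.1)}

private theorem HP6_nrm (v : Pt) (k : ℤ) :
    nrm v ≤ k ↔ (-k ≤ v.1 ∧ v.1 ≤ k) ∧ -k ≤ v.2 ∧ v.2 ≤ k := by
  unfold nrm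
  rw [max_le_iff, abs_le, abs_le]

private theorem HP6_sub (v : Pt) : v - (0, 0) = v := by
  have h : ((0 : ℤ), (0 : ℤ)) = (0 : Pt) := rfl
  rw [h, sub_zero]

private theorem HP6_dep_and {A B : Cfg → Prop} {D : Set Pt} (hA : Dep A D) (hB : Dep B D) :
    Dep (fun ω => A ω ∧ B ω) D := by
  intro ω ω' H
  show (A ω ∧ B ω) = (A ω' ∧ B ω')
  rw [hA ω ω' H, hB ω ω' H]

private theorem HP6_mon_and {c : Bool} {A B : Cfg → Prop} (hA : MonC c A) (hB : MonC c B) :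
    MonC c (fun ω => A ω ∧ B ω) := by
  cases c with
  | true =>
    intro ω ω' h hAB
    exact ⟨hA ω ω' h hAB.1, hB ω ω' h hAB.2⟩
  | false =>
    intro ω ω' h hAB
    exact ⟨hA ω ω' h hAB.1, hB ω ω' h hAB.2⟩

private theorem HP6_s1 {r R : ℤ} (hr : 0 ≤ r) : rect (r + 1) R 0 R ⊆ ann r R ∩ Uq true := by
  rintro v ⟨⟨a1, a2⟩, a3, a4⟩
  refine ⟨⟨?_, (HP6_nrm v R).2 ⟨⟨by omega, by omega⟩, by omega, by omega⟩⟩, a3, fun _ => by omega⟩
  by_contra hc
  have := (HP6_nrm v r).1 (not_lt.1 hc)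
  omega

private theorem HP6_s2 {r R : ℤ} (hr : 0 ≤ r) : rect 0 R (r + 1) R ⊆ ann r R ∩ Uq true := by
  rintro v ⟨⟨a1, a2⟩, a3, a4⟩
  refine ⟨⟨?_, (HP6_nrm v R).2 ⟨⟨by omega, by omega⟩, by omega, by omega⟩⟩, by omega,
    fun _ => a1⟩
  by_contra hc
  have := (HP6_nrm v r).1 (not_lt.1 hc)
  omega

namespace Lat

variable {L : Lat}

/-- Half circuit (`q = false`) or quarter circuit (`q = true`) of colour `c` in `ann r R`. -/
def Ci (L : Lat) (q c : Bool) (r R : ℤ) (ω : Cfg) : Prop :=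
  if q then L.VX c (r + 1) R 0 R ω ∧ L.HX c 0 R (r + 1) R ω else L.HC c 0 r R ω

private theorem HP6_f (L : Lat) (c : Bool) (r R : ℤ) : L.Ci false c r R = L.HC c 0 r R := by
  funext ω
  simp [Ci]

private theorem HP6_t (L : Lat) (c : Bool) (r R : ℤ) :
    L.Ci true c r R = fun ω => L.VX c (r + 1) R 0 R ω ∧ L.HX c 0 R (r + 1) R ω := by
  funext ω
  simp [Ci]

/-- `HC.dep` with `x = 0`; `VX.dep`, `HX.dep` -/
theorem Ci.dep (L : Lat) (q c : Bool) {r R : ℤ} (hr : 0 ≤ r) :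
    Dep (L.Ci q c r R) (ann r R ∩ Uq q) := by
  cases q with
  | false =>
    rw [HP6_f]
    refine (HC.dep L c 0 r R hr).mono ?_
    rintro v ⟨⟨⟨a1, a2⟩, a3, a4⟩, a5⟩
    have a6 : r < nrm (v - (0, 0)) := a5
    rw [HP6_sub] at a6
    exact ⟨⟨a6, (HP6_nrm v R).2 ⟨⟨by omega, by omega⟩, by omega, by omega⟩⟩, a3,
      fun h => by simp at h⟩
  | true =>
    rw [HP6_t]
    exact HP6_dep_and ((VX.dep L c _ _ _ _).mono (HP6_s1 hr))
      ((HX.dep L c _ _ _ _).mono (HP6_s2 hr))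

theorem Ci.loc (L : Lat) (q c : Bool) (r R : ℤ) : Loc (L.Ci q c r R) := by
  cases q with
  | false =>
    rw [HP6_f]
    exact HC.loc L c 0 r R
  | true =>
    rw [HP6_t]
    exact (VX.loc L c _ _ _ _).and (HX.loc L c _ _ _ _)

theorem Ci.mon (L : Lat) (q c : Bool) (r R : ℤ) : MonC c (L.Ci q c r R) := by
  cases q with
  | false =>
    rw [HP6_f]
    exact HC.mon L c 0 r R
  | true =>
    rw [HP6_t]
    exact HP6_mon_and (VX.mon L c _ _ _ _) (HX.mon L c _ _ _ _)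

private theorem HP6_quart {c : Bool} {r R : ℤ} (hr : 0 ≤ r) (hR : r < R) {ω : Cfg}
    (h1 : L.VX c (r + 1) R 0 R ω) (h2 : L.HX c 0 R (r + 1) R ω) :
    ∃ σ, σ ⊆ L.col c ω ∧ L.Con σ ∧ σ ⊆ ann r R ∩ Uq true ∧
      ∀ P : Set Pt, L.Con P → P ⊆ Uq true → (∃ v ∈ P, nrm v ≤ r) → (∃ v ∈ P, R ≤ nrm v) →
        (σ ∩ P).Nonempty := by
  obtain ⟨u1, v1, hu1, hv1, c1⟩ := h1
  obtain ⟨u2, v2, hu2, hv2, c2⟩ := h2
  obtain ⟨A1, hA1⟩ : ∃ A, A = {w | L.Cn (rect (r + 1) R 0 R ∩ L.col c ω) u1 w} := ⟨_, rfl⟩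
  obtain ⟨A2, hA2⟩ : ∃ A, A = {w | L.Cn (rect 0 R (r + 1) R ∩ L.col c ω) u2 w} := ⟨_, rfl⟩
  have k1 : L.Con A1 := by rw [hA1]; exact con_cluster _ _
  have k2 : L.Con A2 := by rw [hA2]; exact con_cluster _ _
  have s1 : A1 ⊆ rect (r + 1) R 0 R ∩ L.col c ω := by
    rw [hA1]
    intro w hw
    exact Cn.right hw
  have s2 : A2 ⊆ rect 0 R (r + 1) R ∩ L.col c ω := by
    rw [hA2]
    intro w hw
    exact Cn.right hw
  have m1 : u1 ∈ A1 := by rw [hA1]; exact Cn.refl c1.left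
  have n1 : v1 ∈ A1 := by rw [hA1]; exact c1
  have m2 : u2 ∈ A2 := by rw [hA2]; exact Cn.refl c2.left
  have n2 : v2 ∈ A2 := by rw [hA2]; exact c2
  have i12 : (A2 ∩ A1).Nonempty := by
    obtain ⟨w, hw, -⟩ := crossX k2 k1 (fun v hv => (s2 hv).1) (fun v hv => (s1 hv).1)
      ⟨u2, m2, hu2⟩ ⟨v2, n2, hv2⟩ ⟨u1, m1, hu1⟩ ⟨v1, n1, hv1⟩ (by omega) le_rfl (by omega)
      le_rfl (by omega) (by omega)
    exact ⟨w, hw⟩
  refine ⟨A2 ∪ A1, ?_, k2.union k1 i12, ?_, ?_⟩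
  · rintro w (hw | hw)
    · exact (s2 hw).2
    · exact (s1 hw).2
  · rintro w (hw | hw)
    · exact HP6_s2 hr (s2 hw).1
    · exact HP6_s1 hr (s1 hw).1
  · intro P hP hP0 hin hout
    obtain ⟨p0, hp0, hp0r⟩ := hin
    obtain ⟨p1, hp1, hp1R⟩ := hout
    obtain ⟨p, q, hpp, hpq, hqP, hqS⟩ := (hP p0 hp0 p1 hp1).exit
      (S := {v | nrm v ≤ R - 1}) (show nrm p0 ≤ R - 1 by omega)
      (show ¬ nrm p1 ≤ R - 1 by omega)
    obtain ⟨P', hP'⟩ : ∃ A, A = {w | L.Cn (P ∩ {v | nrm v ≤ R - 1}) p0 w} ∪ {q} :=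
      ⟨_, rfl⟩
    have hp0' : p0 ∈ P' := by rw [hP']; exact Or.inl (Cn.refl hpp.left)
    have hq' : q ∈ P' := by rw [hP']; exact Or.inr rfl
    have hP'c : L.Con P' := by
      rw [hP']
      exact (con_cluster _ p0).union_adj (con_singleton q) (u := p) hpp rfl hpq
    have hP'P : P' ⊆ P := by
      rw [hP']
      rintro w (hw | hw)
      · exact (Cn.right hw).1
      · rw [Set.mem_singleton_iff.1 hw]
        exact hqP
    have hpR := (HP6_nrm p (R - 1)).1 hpp.right.2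
    have hnear := hpq.near
    rw [abs_le, abs_le] at hnear
    have hq0 : 0 ≤ q.2 := (hP0 hqP).1
    have hq1 : 0 ≤ q.1 := (hP0 hqP).2 rfl
    have hqR : nrm q ≤ R := (HP6_nrm q R).2 (by omega)
    have hqR' : ¬ nrm q ≤ R - 1 := hqS
    rw [HP6_nrm] at hqR hqR'
    have hP'r : P' ⊆ rect 0 R 0 R := by
      intro w hw
      have h0 : 0 ≤ w.2 := (hP0 (hP'P hw)).1
      have h0' : 0 ≤ w.1 := (hP0 (hP'P hw)).2 rfl
      have h1 : nrm w ≤ R := by
        rw [hP'] at hw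
        rcases hw with hw | hw
        · have h2 : nrm w ≤ R - 1 := (Cn.right hw).2
          omega
        · rw [Set.mem_singleton_iff.1 hw, HP6_nrm]
          exact hqR
      rw [HP6_nrm] at h1
      exact ⟨⟨h0', h1.1.2⟩, h0, h1.2.2⟩
    have hp00 : 0 ≤ p0.2 := (hP0 hp0).1
    have hp01 : 0 ≤ p0.1 := (hP0 hp0).2 rfl
    rw [HP6_nrm] at hp0r
    have hH : L.Con (P' ∪ rect 0 r 0 r) :=
      hP'c.union (con_rect _ _ _ _) ⟨p0, hp0', ⟨⟨hp01, hp0r.1.2⟩, hp00, hp0r.2.2⟩⟩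
    have hHr : P' ∪ rect 0 r 0 r ⊆ rect 0 R 0 R := by
      rintro w (hw | ⟨⟨a1, a2⟩, a3, a4⟩)
      · exact hP'r hw
      · exact ⟨⟨a1, by omega⟩, a3, by omega⟩
    have hx0 : ((0 : ℤ), (0 : ℤ)) ∈ rect 0 r 0 r := ⟨⟨le_rfl, hr⟩, le_rfl, hr⟩
    have hcase : q.2 = R ∨ q.1 = R := by omega
    rcases hcase with hq1 | hq1
    · obtain ⟨w, hw2, hwP⟩ := cross k2 hH (a := 0) (b := R) (c := 0) (d := R)
        (fun v hv => by
          obtain ⟨⟨a1, a2⟩, a3, a4⟩ := (s2 hv).1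
          exact ⟨⟨a1, a2⟩, by omega, a4⟩) hHr ⟨u2, m2, hu2⟩ ⟨v2, n2, hv2⟩
        ⟨(0, 0), Or.inr hx0, rfl⟩ ⟨q, Or.inl hq', hq1⟩
      refine ⟨w, Or.inl hw2, ?_⟩
      rcases hwP with hw | hw
      · exact hP'P hw
      · exfalso
        have h1 := (s2 hw2).1.2.1
        have h2 := hw.2.2
        omega
    · obtain ⟨w, hwP, hw1⟩ := cross hH k1 (a := 0) (b := R) (c := 0) (d := R) hHr
        (fun v hv => by
          obtain ⟨⟨a1, a2⟩, a3, a4⟩ := (s1 hv).1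
          exact ⟨⟨by omega, a2⟩, a3, a4⟩)
        ⟨(0, 0), Or.inr hx0, rfl⟩ ⟨q, Or.inl hq', hq1⟩ ⟨u1, m1, hu1⟩ ⟨v1, n1, hv1⟩
      refine ⟨w, Or.inr hw1, ?_⟩
      have h1 := (s1 hw1).1.1.1
      rcases hwP with hw | hw
      · exact hP'P hw
      · exfalso
        have h2 := hw.1.2
        omega

/-- `q = false`: `HC.sep` with `x = 0`.  `q = true`: `σ` = union of the two crossing sets `σ₁` (in `rect (r+1) R 0 R`, from row `0` to row `R`) and `σ₂` (in `rect 0 R (r+1) R`, from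
column `0` to column `R`); they meet (`crossX` with `a = 0`, `b = R`, `c = r + 1`, `d = R`, `a' = r + 1`, `b' = R`, `c' = 0`, `d' = R`), so `σ` is connected.  Let `P ⊆ {0 ≤ v.1, 0 ≤ v.2}` be connected with a
site of norm `≤ r` and one of norm `≥ R`; by `Cn.exit` (first exit from `{nrm v < R}`; norms of adjacent sites differ by at most one) we may assume `P ⊆ bx R` and that `P` has a site `v` of norm `R`.
`P ∪ rect 0 r 0 r` is connected (common site).  If `v.2 = R`: `P ∪ rect 0 r 0 r ⊆ rect 0 R 0 R` joins the rows `0` and `R`, so it meets `σ₂`, which joins the columns `0` and `R`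
(`cross` in `rect 0 R 0 R`), at a site with second coordinate `≥ r + 1`, hence in `P`.  If `v.1 = R`: it joins the columns `0` and `R`, so it meets `σ₁` at a site with first coordinate
`≥ r + 1`, hence in `P`. -/
theorem Ci.sep {q c : Bool} {r R : ℤ} (hr : 0 ≤ r) (hR : r < R) {ω : Cfg}
    (h : L.Ci q c r R ω) : ∃ σ, σ ⊆ L.col c ω ∧ L.Con σ ∧ σ ⊆ ann r R ∩ Uq q ∧
      ∀ P : Set Pt, L.Con P → P ⊆ Uq q → (∃ v ∈ P, nrm v ≤ r) → (∃ v ∈ P, R ≤ nrm v) →
        (σ ∩ P).Nonempty := by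
  cases q with
  | false =>
    rw [HP6_f] at h
    obtain ⟨σ, h1, h2, h3, -, -, h4⟩ := HC.sep hr hR h
    refine ⟨σ, h1, h2, ?_, ?_⟩
    · intro v hv
      obtain ⟨⟨⟨a1, a2⟩, a3, a4⟩, a5⟩ := h3 hv
      have a6 : r < nrm (v - (0, 0)) := a5
      rw [HP6_sub] at a6
      exact ⟨⟨a6, (HP6_nrm v R).2 ⟨⟨by omega, by omega⟩, by omega, by omega⟩⟩, a3,
        fun h => by simp at h⟩
    · rintro P hP hP0 ⟨v, hv, hv'⟩ ⟨w, hw, hw'⟩
      refine h4 P hP (fun u hu => (hP0 hu).1) ⟨v, hv, ?_⟩ ⟨w, hw, ?_⟩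
      · rw [HP6_sub]
        exact hv'
      · rw [HP6_sub]
        exact hw'
  | true =>
    rw [HP6_t] at h
    exact HP6_quart hr hR h.1 h.2

end Lat

/-- `q = false`: `hc_pr`.  `q = true`: `RSW.vx'`, `RSW.hx'` and the Harris inequality (`pr_harris_mon`) give `κ k ^ 2`, and `κ k ≤ 1` (it is at most a probability). -/
theorem ci_pr {L : Lat} {κ : ℕ → ℝ} (h : RSW L κ) {k : ℕ} (hk : 1 ≤ k) (q c : Bool) {r R : ℤ}
    (hr : 0 ≤ r) (h4 : 4 ≤ R - r - 1) (hR : 2 * R ≤ k * (R - r - 1)) :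
    κ k ^ 3 ≤ pr (L.Ci q c r R) := by
  cases q with
  | false =>
    rw [Lat.HP6_f]
    exact hc_pr h hk c hr h4 hR
  | true =>
    rw [Lat.HP6_t]
    have hκ : 0 ≤ κ k := (h.pos k).le
    have e1 : κ k ≤ pr (L.VX c (r + 1) R 0 R) :=
      h.vx' hk c (by omega) (by omega) (by
        have : R - (r + 1) = R - r - 1 := by ring
        rw [this]; omega)
    have e2 : κ k ≤ pr (L.HX c 0 R (r + 1) R) :=
      h.hx' hk c (by omega) (by omega) (by
        have : R - (r + 1) = R - r - 1 := by ring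
        rw [this]; omega)
    have e3 : κ k ≤ 1 := e1.trans (pr_le_one _)
    let A : Fin 2 → Cfg → Prop := ![L.VX c (r + 1) R 0 R, L.HX c 0 R (r + 1) R]
    have hH := pr_harris_mon (I := (Finset.univ : Finset (Fin 2))) (A := A) c
      (fun i _ => by
        fin_cases i
        · exact Lat.VX.loc L c _ _ _ _
        · exact Lat.HX.loc L c _ _ _ _)
      (fun i _ => by
        fin_cases i
        · exact Lat.VX.mon L c _ _ _ _
        · exact Lat.HX.mon L c _ _ _ _)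
    rw [Fin.prod_univ_two] at hH
    have hA : (fun ω => ∀ i ∈ (Finset.univ : Finset (Fin 2)), A i ω) =
        fun ω => L.VX c (r + 1) R 0 R ω ∧ L.HX c 0 R (r + 1) R ω := by
      funext ω
      apply propext
      constructor
      · intro hi
        exact ⟨hi 0 (Finset.mem_univ _), hi 1 (Finset.mem_univ _)⟩
      · rintro ⟨a1, a2⟩ i _
        fin_cases i
        · exact a1
        · exact a2
    rw [hA] at hH
    refine le_trans ?_ hH
    show κ k ^ 3 ≤ pr (L.VX c (r + 1) R 0 R) * pr (L.HX c 0 R (r + 1) R)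
    calc κ k ^ 3 = κ k * κ k * κ k := by ring
      _ ≤ κ k * κ k * 1 := mul_le_mul_of_nonneg_left e3 (mul_nonneg hκ hκ)
      _ = κ k * κ k := mul_one _
      _ ≤ _ := mul_le_mul e1 e2 hκ (hκ.trans e1)

end SC

end

/-! ### from `Lib_MP_e0a489.HP7` -/

section

/-!
# MP_e0a489, module HP 7: extension of an arm in the half plane or the quarter plane
-/

set_option autoImplicit false

namespace SC

open Classical

private theorem HP7_nrm (v : Pt) (k : ℤ) :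
    nrm v ≤ k ↔ (-k ≤ v.1 ∧ v.1 ≤ k) ∧ -k ≤ v.2 ∧ v.2 ≤ k := by
  unfold nrm
  rw [max_le_iff, abs_le, abs_le]

private theorem HP7_lt {v : Pt} {k : ℤ} (h : k < v.2) : k < nrm v := by
  by_contra hc
  have := (HP7_nrm v k).1 (not_lt.1 hc)
  omega

private theorem HP7_le {v : Pt} {k : ℤ} (h : k ≤ v.2) : k ≤ nrm v := by
  have := HP7_lt (v := v) (k := k - 1) (by omega)
  omega

private theorem HP7_rect {q : Bool} {r R a b w : ℤ} (ha : r + 1 ≤ a) (hr : 0 ≤ r) (hb : b ≤ R)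
    (hw : w ≤ R) : rect 0 w a b ⊆ ann r R ∩ Uq q := by
  rintro v ⟨⟨a1, a2⟩, a3, a4⟩
  exact ⟨⟨HP7_lt (by omega), (HP7_nrm v R).2 ⟨⟨by omega, by omega⟩, by omega, by omega⟩⟩,
    by omega, fun _ => a1⟩

namespace Lat

variable {L : Lat}

private theorem HP7_low {r w : ℤ} (hr : 0 ≤ r) (hw : w ≤ r) {u : Pt} (h1 : 0 ≤ u.1)
    (h2 : u.1 ≤ w) (h3 : u.2 = r + 1) : u ∈ L.nb (bx r) := by
  refine ⟨(u.1, u.2 - 1), (HP7_nrm _ r).2 ?_, Or.inl (Or.inr (Or.inl ⟨rfl, ?_⟩))⟩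
  · show (-r ≤ u.1 ∧ u.1 ≤ r) ∧ -r ≤ u.2 - 1 ∧ u.2 - 1 ≤ r
    omega
  · show u.2 = u.2 - 1 + 1
    omega

private theorem HP7_top {R w : ℤ} (hw : w ≤ R) {u : Pt} (h1 : 0 ≤ u.1)
    (h2 : u.1 ≤ w) (h3 : u.2 = R) : u ∈ rng R := by
  show nrm u = R
  refine le_antisymm ((HP7_nrm _ R).2 ?_) (HP7_le (by omega))
  omega

/-- a vertical crossing of a strip above the box is an arm of the half plane and of the quarter plane: the sites of `rect 0 w (r+1) R`, `w ≤ r`, have norm `v.2`; the lower end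
`(x, r+1)` has the neighbour `(x, r) ∈ bx r` -/
theorem strip_arm {q c : Bool} {r R w : ℤ} {ω : Cfg} (hr : 0 ≤ r) (hw : w ≤ r)
    (h : L.VX c 0 w (r + 1) R ω) : L.Arm c (ann r R ∩ Uq q) (L.nb (bx r)) (rng R) ω := by
  obtain ⟨u, v, hu, hv, hc⟩ := h
  obtain ⟨⟨⟨a1, a2⟩, a3, a4⟩, -⟩ := hc.left
  obtain ⟨⟨⟨b1, b2⟩, b3, b4⟩, -⟩ := hc.right
  refine ⟨u, HP7_low hr hw a1 a2 hu, v, HP7_top (by omega) b1 b2 hv, hc.mono ?_⟩
  rintro z ⟨hz, hz'⟩
  exact ⟨HP7_rect le_rfl hr le_rfl (by omega) hz, hz'⟩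

/-- EXTENSION.  `Arm`: `x ∈ nb (bx r)`, `y ∈ rng R`, joined in `ann r R ∩ Uq q ∩ col c ω`; let `γ = {v | Cn (ann r R ∩ Uq q ∩ col c ω) x v}` (connected), it contains `x` of norm `r + 1` (it is in `ann r R` and next to
`bx r`) and `y` of norm `R`.  `σ₁` from `Ci.sep` for `hc1` (in `ann (r+1) (2r)`), `σ₂` for `hc2` (in `ann (R/2) R`).  `γ` meets `σ₁` (`nrm x ≤ r + 1`, `nrm y ≥ 2 r`) and `σ₂`
(`nrm x = r + 1 ≤ R / 2`).  `τ₁` = crossing set of `hv1`, in `rect 0 (r'/2) (r'+1) (2r)`, its sites have norm `v.2`; it has a site `u` in row `r' + 1 ≤ r + 1` (so `u ∈ nb (bx r')`, its neighbour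
below is in `bx r'`) and a site in row `2 r`; so it meets `σ₁`.  `τ₂` = crossing set of `hv2`, in `rect 0 (R/4) (R/2) R'`, its sites have norm `v.2` (`R / 4 ≤ R / 2`); it has a site in row `R / 2` and a site
`w` in row `R'`, so `w ∈ rng R'`, and it meets `σ₂`.  All five sets have colour `c`, lie in `ann r' R' ∩ Uq q`, and the union is connected: `u` is joined to `w`. -/
theorem armU_ext {q c : Bool} {r R r' R' : ℤ} {ω : Cfg} (h0 : 2 ≤ r') (h1 : r' ≤ r)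
    (h2 : 4 * r ≤ R) (h3 : R ≤ R')
    (hA : L.Arm c (ann r R ∩ Uq q) (L.nb (bx r)) (rng R) ω)
    (hc1 : L.Ci q c (r + 1) (2 * r) ω) (hc2 : L.Ci q c (R / 2) R ω)
    (hv1 : L.VX c 0 (r' / 2) (r' + 1) (2 * r) ω) (hv2 : L.VX c 0 (R / 4) (R / 2) R' ω) :
    L.Arm c (ann r' R' ∩ Uq q) (L.nb (bx r')) (rng R') ω := by
  obtain ⟨x, hx, y, hy, hxy⟩ := hA
  obtain ⟨σ₁, s1c, s1k, s1s, s1m⟩ := Ci.sep (by omega) (by omega) hc1
  obtain ⟨σ₂, s2c, s2k, s2s, s2m⟩ := Ci.sep (by omega) (by omega) hc2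
  obtain ⟨u1, v1, hu1, hv1', k1⟩ := hv1
  obtain ⟨u2, v2, hu2, hv2', k2⟩ := hv2
  obtain ⟨γ, hγ⟩ : ∃ A, A = {w | L.Cn (ann r R ∩ Uq q ∩ L.col c ω) x w} := ⟨_, rfl⟩
  obtain ⟨τ₁, hτ₁⟩ : ∃ A, A = {w | L.Cn (rect 0 (r' / 2) (r' + 1) (2 * r) ∩ L.col c ω) u1 w} :=
    ⟨_, rfl⟩
  obtain ⟨τ₂, hτ₂⟩ : ∃ A, A = {w | L.Cn (rect 0 (R / 4) (R / 2) R' ∩ L.col c ω) u2 w} :=
    ⟨_, rfl⟩
  have gk : L.Con γ := by rw [hγ]; exact con_cluster _ _
  have t1k : L.Con τ₁ := by rw [hτ₁]; exact con_cluster _ _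
  have t2k : L.Con τ₂ := by rw [hτ₂]; exact con_cluster _ _
  have gs : γ ⊆ ann r R ∩ Uq q ∩ L.col c ω := by
    rw [hγ]
    intro w hw
    exact Cn.right hw
  have t1s : τ₁ ⊆ rect 0 (r' / 2) (r' + 1) (2 * r) ∩ L.col c ω := by
    rw [hτ₁]
    intro w hw
    exact Cn.right hw
  have t2s : τ₂ ⊆ rect 0 (R / 4) (R / 2) R' ∩ L.col c ω := by
    rw [hτ₂]
    intro w hw
    exact Cn.right hw
  have gx : x ∈ γ := by rw [hγ]; exact Cn.refl hxy.left
  have gy : y ∈ γ := by rw [hγ]; exact hxy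
  have t1u : u1 ∈ τ₁ := by rw [hτ₁]; exact Cn.refl k1.left
  have t1v : v1 ∈ τ₁ := by rw [hτ₁]; exact k1
  have t2u : u2 ∈ τ₂ := by rw [hτ₂]; exact Cn.refl k2.left
  have t2v : v2 ∈ τ₂ := by rw [hτ₂]; exact k2
  obtain ⟨⟨u1a, u1b⟩, u1c, u1d⟩ := k1.left.1
  obtain ⟨⟨u2a, u2b⟩, u2c, u2d⟩ := k2.left.1
  obtain ⟨⟨v2a, v2b⟩, v2c, v2d⟩ := k2.right.1
  -- norms of the end points
  have nx : nrm x ≤ r + 1 := by
    obtain ⟨z, hz, ha⟩ := hx
    have hz' := (HP7_nrm z r).1 hz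
    have hn := ha.near
    rw [abs_le, abs_le] at hn
    exact (HP7_nrm x (r + 1)).2 (by omega)
  have ny : nrm y = R := hy
  have nu1 : nrm u1 ≤ r + 1 := (HP7_nrm u1 (r + 1)).2 (by omega)
  have nv1 : 2 * r ≤ nrm v1 := HP7_le (by omega)
  have nu2 : nrm u2 ≤ R / 2 := (HP7_nrm u2 (R / 2)).2 (by omega)
  have nv2 : R ≤ nrm v2 := HP7_le (by omega)
  -- the four meetings
  have gU : γ ⊆ Uq q := fun w hw => (gs hw).1.2
  have t1U : τ₁ ⊆ Uq q := fun w hw =>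
    (HP7_rect (r := r') (R := R') le_rfl (by omega) (by omega) (by omega) (t1s hw).1).2
  have t2U : τ₂ ⊆ Uq q := fun w hw =>
    (HP7_rect (r := r') (R := R') (by omega) (by omega) le_rfl (by omega) (t2s hw).1).2
  have m1 : (σ₁ ∩ γ).Nonempty := s1m γ gk gU ⟨x, gx, nx⟩ ⟨y, gy, by omega⟩
  have m2 : (σ₂ ∩ γ).Nonempty := s2m γ gk gU ⟨x, gx, by omega⟩ ⟨y, gy, by omega⟩
  have m3 : (σ₁ ∩ τ₁).Nonempty := s1m τ₁ t1k t1U ⟨u1, t1u, nu1⟩ ⟨v1, t1v, nv1⟩
  have m4 : (σ₂ ∩ τ₂).Nonempty := s2m τ₂ t2k t2U ⟨u2, t2u, nu2⟩ ⟨v2, t2v, nv2⟩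
  -- the union
  have q1 : L.Con (σ₁ ∪ τ₁) := s1k.union t1k m3
  have q2 : L.Con (σ₂ ∪ τ₂) := s2k.union t2k m4
  have q3 : L.Con (γ ∪ (σ₁ ∪ τ₁)) := by
    obtain ⟨z, hz1, hz2⟩ := m1
    exact gk.union q1 ⟨z, hz2, Or.inl hz1⟩
  have q4 : L.Con (γ ∪ (σ₁ ∪ τ₁) ∪ (σ₂ ∪ τ₂)) := by
    obtain ⟨z, hz1, hz2⟩ := m2
    exact q3.union q2 ⟨z, Or.inl hz2, Or.inl hz1⟩
  refine ⟨u1, HP7_low (w := r' / 2) (by omega) (by omega) u1a u1b hu1, v2,
    HP7_top (w := R / 4) (by omega) v2a v2b hv2', ?_⟩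
  refine (q4 u1 (Or.inl (Or.inr (Or.inr t1u))) v2 (Or.inr (Or.inr t2v))).mono ?_
  rintro w ((hw | hw | hw) | hw | hw)
  · obtain ⟨⟨⟨a1, a2⟩, a3⟩, a4⟩ := gs hw
    exact ⟨⟨⟨by omega, by omega⟩, a3⟩, a4⟩
  · obtain ⟨⟨a1, a2⟩, a3⟩ := s1s hw
    exact ⟨⟨⟨by omega, by omega⟩, a3⟩, s1c hw⟩
  · exact ⟨HP7_rect le_rfl (by omega) (by omega) (by omega) (t1s hw).1, (t1s hw).2⟩
  · obtain ⟨⟨a1, a2⟩, a3⟩ := s2s hw
    exact ⟨⟨⟨by omega, by omega⟩, a3⟩, s2c hw⟩
  · exact ⟨HP7_rect (by omega) (by omega) le_rfl (by omega) (t2s hw).1, (t2s hw).2⟩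

end Lat

end SC

end

/-! ### from `Lib_MP_e0a489.HP8` -/

section

/-!
# MP_e0a489, module HP 8: probability of an arm in the half plane or the quarter plane, radial extension
-/

set_option autoImplicit false

namespace SC

open Classical

/-- probability of an arm of colour `c` in the half plane (`q = false`) or the quarter plane (`q = true`) -/
noncomputable def aU (L : Lat) (q c : Bool) (r R : ℤ) : ℝ :=
  pr (L.Arm c (ann r R ∩ Uq q) (L.nb (bx r)) (rng R))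

private theorem hp8_finite (r R : ℤ) : (ann r R).Finite := by
  refine (Finset.finite_toSet (Finset.Icc (-R) R ×ˢ Finset.Icc (-R) R)).subset ?_
  intro v hv
  have h1 : max |v.1| |v.2| ≤ R := hv.2
  rw [max_le_iff, abs_le, abs_le] at h1
  simp only [Finset.coe_product, Finset.coe_Icc, Set.mem_prod, Set.mem_Icc]
  exact h1

private theorem hp8_loc (L : Lat) (q c : Bool) (r R : ℤ) :
    Loc (L.Arm c (ann r R ∩ Uq q) (L.nb (bx r)) (rng R)) :=
  Lat.Arm.loc L c _ _ _ ((hp8_finite r R).subset Set.inter_subset_left)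

private theorem hp8_zero {A : Cfg → Prop} (h : ∀ ω, ¬ A ω) : pr A = 0 := by
  have e : ind A = fun _ => (0 : ℝ) := by
    funext ω
    unfold ind
    rw [if_neg (h ω)]
  unfold pr
  rw [e]
  exact ex_const 0

theorem aU_nonneg (L : Lat) (q c : Bool) (r R : ℤ) : 0 ≤ aU L q c r R :=
  pr_nonneg _

/-- `strip_arm` with `w = r / 2`, `RSW.vx'` with `k = 200`: `R - (r + 1) ≤ 63 r ≤ 200 (r / 2)`. -/
theorem aU_low {L : Lat} {κ : ℕ → ℝ} (h : RSW L κ) (q c : Bool) {r R : ℤ} (hr : 16 ≤ r)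
    (hR : r < R) (hR' : R ≤ 64 * r) : κ 200 ≤ aU L q c r R := by
  have h1 : κ 200 ≤ pr (L.VX c 0 (r / 2) (r + 1) R) := by
    refine h.vx' (by norm_num) c (by omega) (by omega) ?_
    push_cast
    omega
  exact h1.trans (pr_mono (Lat.VX.loc L c _ _ _ _) (hp8_loc L q c r R)
    fun ω hω => Lat.strip_arm (by omega) (by omega) hω)

/-- RADIAL EXTENSION.  `R ≤ r`: the annulus `ann r R` is empty, the left side is `0` (`pr` of the impossible event).  `r < R < 4 r`: then `r' < R' ≤ 16 r ≤ 64 r'`, the left side is at most `1` and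
`aU_low` bounds the right side.  `4 r ≤ R`: `armU_ext` and Harris (`pr_harris_mon`) for the five events `Arm`, `Ci q c (r+1) (2r)`, `Ci q c (R/2) R` (`ci_pr` with `k = 5`), and the two
vertical crossings (`RSW.vx'` with `k = 200`: `2 r - r' - 1 ≤ 7 r' ≤ 200 (r'/2)` and `R' - R/2 ≤ 4 R ≤ 200 (R / 4)`): `aU L q c r R * (κ 5 ^ 3 * κ 5 ^ 3 * κ 200 * κ 200) ≤ aU L q c r' R'`.
`C = 1 / κ 200 + 1 / (κ 5 ^ 6 * κ 200 ^ 2)`; if no lattice has `RSW L κ` there is nothing to prove, otherwise `κ k > 0` (`RSW.pos`). -/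
theorem aU_ext (κ : ℕ → ℝ) : ∃ C : ℝ, 0 < C ∧ ∀ L : Lat, RSW L κ →
    ∀ (q c : Bool) (r R r' R' : ℤ), 16 ≤ r' → r' ≤ r → r ≤ 4 * r' → R ≤ R' → R' ≤ 4 * R →
      aU L q c r R ≤ C * aU L q c r' R' := by
  by_cases hκ : 0 < κ 200 ∧ 0 < κ 5
  · obtain ⟨k2, k5⟩ := hκ
    refine ⟨1 / κ 200 + 1 / (κ 5 ^ 6 * κ 200 ^ 2), by positivity, ?_⟩
    intro L h q c r R r' R' h16 hr hr' hR hR'
    have hn := aU_nonneg L q c r' R'
    have hp1 : 0 ≤ 1 / κ 200 := by positivity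
    have hp2 : 0 ≤ 1 / (κ 5 ^ 6 * κ 200 ^ 2) := by positivity
    by_cases hRr : R ≤ r
    · have e : aU L q c r R = 0 := by
        refine hp8_zero ?_
        rintro ω ⟨x, -, y, -, hc⟩
        have h1 : r < nrm x := hc.left.1.1.1
        have h2 : nrm x ≤ R := hc.left.1.1.2
        omega
      rw [e]
      positivity
    · by_cases h4 : R < 4 * r
      · have h1 := aU_low h q c h16 (show r' < R' by omega) (by omega)
        have h2 : aU L q c r R ≤ 1 := pr_le_one _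
        have h3 : 1 ≤ 1 / κ 200 * aU L q c r' R' := by
          rw [one_div, inv_mul_eq_div, le_div_iff₀ k2]
          linarith
        have h4 := mul_nonneg hp2 hn
        linarith
      · have b1 : κ 5 ^ 3 ≤ pr (L.Ci q c (r + 1) (2 * r)) :=
          ci_pr h (by norm_num) q c (by omega) (by omega) (by push_cast; omega)
        have b2 : κ 5 ^ 3 ≤ pr (L.Ci q c (R / 2) R) :=
          ci_pr h (by norm_num) q c (by omega) (by omega) (by push_cast; omega)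
        have b3 : κ 200 ≤ pr (L.VX c 0 (r' / 2) (r' + 1) (2 * r)) := by
          refine h.vx' (by norm_num) c (by omega) (by omega) ?_
          push_cast
          omega
        have b4 : κ 200 ≤ pr (L.VX c 0 (R / 4) (R / 2) R') := by
          refine h.vx' (by norm_num) c (by omega) (by omega) ?_
          push_cast
          omega
        let A : Fin 5 → Cfg → Prop :=
          ![L.Arm c (ann r R ∩ Uq q) (L.nb (bx r)) (rng R), L.Ci q c (r + 1) (2 * r),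
            L.Ci q c (R / 2) R, L.VX c 0 (r' / 2) (r' + 1) (2 * r), L.VX c 0 (R / 4) (R / 2) R']
        have hl : ∀ i ∈ (Finset.univ : Finset (Fin 5)), Loc (A i) := by
          intro i _
          fin_cases i
          · exact hp8_loc L q c r R
          · exact Lat.Ci.loc L q c _ _
          · exact Lat.Ci.loc L q c _ _
          · exact Lat.VX.loc L c _ _ _ _
          · exact Lat.VX.loc L c _ _ _ _
        have hm : ∀ i ∈ (Finset.univ : Finset (Fin 5)), MonC c (A i) := by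
          intro i _
          fin_cases i
          · exact Lat.Arm.mon L c _ _ _
          · exact Lat.Ci.mon L q c _ _
          · exact Lat.Ci.mon L q c _ _
          · exact Lat.VX.mon L c _ _ _ _
          · exact Lat.VX.mon L c _ _ _ _
        have hH := pr_harris_mon (I := (Finset.univ : Finset (Fin 5))) (A := A) c hl hm
        rw [Fin.prod_univ_five] at hH
        have hall : Loc (fun ω => ∀ i ∈ (Finset.univ : Finset (Fin 5)), A i ω) := by
          have e : (fun ω => ∀ i ∈ (Finset.univ : Finset (Fin 5)), A i ω) =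
              fun ω => A 0 ω ∧ A 1 ω ∧ A 2 ω ∧ A 3 ω ∧ A 4 ω := by
            funext ω
            apply propext
            constructor
            · intro hi
              exact ⟨hi 0 (Finset.mem_univ _), hi 1 (Finset.mem_univ _),
                hi 2 (Finset.mem_univ _), hi 3 (Finset.mem_univ _), hi 4 (Finset.mem_univ _)⟩
            · rintro ⟨a0, a1, a2, a3, a4⟩ i _
              fin_cases i
              · exact a0
              · exact a1
              · exact a2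
              · exact a3
              · exact a4
          rw [e]
          exact (hl 0 (Finset.mem_univ _)).and ((hl 1 (Finset.mem_univ _)).and
            ((hl 2 (Finset.mem_univ _)).and ((hl 3 (Finset.mem_univ _)).and
              (hl 4 (Finset.mem_univ _)))))
        have hfin : pr (fun ω => ∀ i ∈ (Finset.univ : Finset (Fin 5)), A i ω) ≤
            aU L q c r' R' := by
          refine pr_mono hall (hp8_loc L q c r' R') fun ω hω => ?_
          exact Lat.armU_ext (by omega) hr (by omega) hR (hω 0 (Finset.mem_univ _))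
            (hω 1 (Finset.mem_univ _)) (hω 2 (Finset.mem_univ _)) (hω 3 (Finset.mem_univ _))
            (hω 4 (Finset.mem_univ _))
        have hn0 := aU_nonneg L q c r R
        have hprod : aU L q c r R * (κ 5 ^ 6 * κ 200 ^ 2) ≤ aU L q c r' R' := by
          refine le_trans ?_ (hH.trans hfin)
          show aU L q c r R * (κ 5 ^ 6 * κ 200 ^ 2) ≤ aU L q c r R *
            pr (L.Ci q c (r + 1) (2 * r)) * pr (L.Ci q c (R / 2) R) *
            pr (L.VX c 0 (r' / 2) (r' + 1) (2 * r)) * pr (L.VX c 0 (R / 4) (R / 2) R')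
          calc aU L q c r R * (κ 5 ^ 6 * κ 200 ^ 2) =
                aU L q c r R * κ 5 ^ 3 * κ 5 ^ 3 * κ 200 * κ 200 := by ring
            _ ≤ _ := by
                have p5 : 0 ≤ κ 5 ^ 3 := by positivity
                have m1 := mul_le_mul_of_nonneg_left b1 hn0
                have n1 : 0 ≤ aU L q c r R * pr (L.Ci q c (r + 1) (2 * r)) :=
                  mul_nonneg hn0 (pr_nonneg _)
                have m2 := mul_le_mul m1 b2 p5 n1
                have n2 := mul_nonneg n1 (pr_nonneg (L.Ci q c (R / 2) R))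
                have m3 := mul_le_mul m2 b3 k2.le n2
                have n3 := mul_nonneg n2 (pr_nonneg (L.VX c 0 (r' / 2) (r' + 1) (2 * r)))
                exact mul_le_mul m3 b4 k2.le n3
        have h5 : aU L q c r R ≤ 1 / (κ 5 ^ 6 * κ 200 ^ 2) * aU L q c r' R' := by
          rw [one_div, inv_mul_eq_div, le_div_iff₀ (by positivity)]
          exact hprod
        have h6 := mul_nonneg hp1 hn
        linarith
  · refine ⟨1, one_pos, fun L h => absurd ⟨h.pos 200, h.pos 5⟩ hκ⟩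

end SC

end

/-! ### from `Lib_MP_e0a489.HP12` -/

section

/-!
# MP_e0a489, module HP 12: arms in the four quarter planes give the four arm event
-/

set_option autoImplicit false

namespace SC

open Classical

private theorem hp12_a {m i : ℤ} (hm : 1 ≤ m) (h0 : 0 ≤ i) (h1 : i ≤ m) : rc m i = (m, i) := by
  have := rc_side (m := m) (s := 0) (k := i) hm (abs_le.mpr ⟨by omega, h1⟩)
  rw [show 2 * m * 0 + i = i by ring, rt_zero] at this
  exact this

private theorem hp12_b {m i : ℤ} (hm : 1 ≤ m) (h0 : m ≤ i) (h1 : i ≤ 3 * m) :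
    rc m i = (2 * m - i, m) := by
  have := rc_side (m := m) (s := 1) (k := i - 2 * m) hm (abs_le.mpr ⟨by omega, by omega⟩)
  rw [show 2 * m * 1 + (i - 2 * m) = i by ring, rt_one] at this
  rw [this]
  refine Prod.ext ?_ rfl
  dsimp only
  ring

private theorem hp12_c {m i : ℤ} (hm : 1 ≤ m) (h0 : 3 * m ≤ i) (h1 : i ≤ 5 * m) :
    rc m i = (-m, 4 * m - i) := by
  have := rc_side (m := m) (s := 2) (k := i - 4 * m) hm (abs_le.mpr ⟨by omega, by omega⟩)
  rw [show 2 * m * 2 + (i - 4 * m) = i by ring, rt_two] at this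
  rw [this]
  refine Prod.ext rfl ?_
  dsimp only
  ring

private theorem hp12_d {m i : ℤ} (hm : 1 ≤ m) (h0 : 5 * m ≤ i) (h1 : i ≤ 7 * m) :
    rc m i = (i - 6 * m, -m) := by
  have := rc_side (m := m) (s := 3) (k := i - 6 * m) hm (abs_le.mpr ⟨by omega, by omega⟩)
  rw [show 2 * m * 3 + (i - 6 * m) = i by ring, rt_three] at this
  exact this

private theorem hp12_e {m i : ℤ} (hm : 1 ≤ m) (h0 : 7 * m ≤ i) (h1 : i < 8 * m) :
    rc m i = (m, i - 8 * m) := by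
  have := rc_side (m := m) (s := 4) (k := i - 8 * m) hm (abs_le.mpr ⟨by omega, by omega⟩)
  rw [show 2 * m * 4 + (i - 8 * m) = i by ring, rt_mod (s' := 0) (by norm_num), rt_zero] at this
  exact this

/-- `idx_side`: `i = 2 m s + k`, `|k| ≤ m`, `rc m i = rt s (m, k)` (`rc_side`), `rt_zero`, ..., `rt_three`, `rt_four`: `s = 0` gives `(m, k)`, `s = 1` gives `(-k, m)`, `s = 2` gives `(-m, -k)`, `s = 3` gives `(k, -m)`,
`s = 4` gives `(m, k)`. -/
theorem rc_quad {m i : ℤ} (hm : 1 ≤ m) (h0 : 0 ≤ i) (h8 : i < 8 * m) :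
    (i < 2 * m → 1 ≤ (rc m i).1 ∧ 0 ≤ (rc m i).2) ∧
    (2 * m ≤ i → i < 4 * m → (rc m i).1 ≤ 0 ∧ 1 ≤ (rc m i).2) ∧
    (4 * m ≤ i → i < 6 * m → (rc m i).1 ≤ -1 ∧ (rc m i).2 ≤ 0) ∧
    (6 * m ≤ i → 0 ≤ (rc m i).1 ∧ (rc m i).2 ≤ -1) := by
  by_cases c1 : i ≤ m
  · rw [hp12_a hm h0 c1]
    dsimp only
    omega
  by_cases c2 : i ≤ 3 * m
  · rw [hp12_b hm (by omega) c2]
    dsimp only
    omega
  by_cases c3 : i ≤ 5 * m
  · rw [hp12_c hm (by omega) c3]
    dsimp only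
    omega
  by_cases c4 : i ≤ 7 * m
  · rw [hp12_d hm (by omega) c4]
    dsimp only
    omega
  · rw [hp12_e hm (by omega) h8]
    dsimp only
    omega

private theorem hp12_fin (r R : ℤ) (Q : Set Pt) : (ann r R ∩ Q).Finite := by
  refine ((Set.finite_Icc (-R) R).prod (Set.finite_Icc (-R) R)).subset ?_
  rintro v ⟨⟨_, hv⟩, _⟩
  have h1 : |v.1| ≤ R := (le_max_left _ _).trans hv
  have h2 : |v.2| ≤ R := (le_max_right _ _).trans hv
  rw [abs_le] at h1 h2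
  exact ⟨h1, h2⟩

namespace Lat

variable {L : Lat}

/-- Let `x_j`, `y_j` (`j = 0, 1, 2, 3`) be the ends of the four arms, `y_j = rc R i_j` with `0 ≤ i_j < 8 R` (`rc_surj`); by `rc_quad` `i₀ < 2 R ≤ i₁ < 4 R ≤ i₂ < 6 R ≤ i₃`.  The arms for `TwoA` are `x₀, y₀` and `x₂, y₂`
(`Cn.mono`).  Suppose `Cn (ann r R ∩ col true ω) x₀ x₂`; `P = {v | Cn (ann r R ∩ col true ω) x₀ v}` is connected and contains `y₀`, `y₂`.  `P'` = `bx r` together with the sites joined to `x₁` or to `x₃` in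
`ann r R ∩ col false ω`: connected (`con_bx`, `con_cluster`, `Con.union_adj`), contains `y₁`, `y₃`.  `interlace_rc`: a common site, impossible (colours, norms). -/
theorem quad_twoA {r R : ℤ} {ω : Cfg} (hr : 1 ≤ r) (hR : r < R)
    (h0 : L.Arm true (ann r R ∩ {v | 1 ≤ v.1 ∧ 0 ≤ v.2}) (L.nb (bx r)) (rng R) ω)
    (h1 : L.Arm false (ann r R ∩ {v | v.1 ≤ 0 ∧ 1 ≤ v.2}) (L.nb (bx r)) (rng R) ω)
    (h2 : L.Arm true (ann r R ∩ {v | v.1 ≤ -1 ∧ v.2 ≤ 0}) (L.nb (bx r)) (rng R) ω)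
    (h3 : L.Arm false (ann r R ∩ {v | 0 ≤ v.1 ∧ v.2 ≤ -1}) (L.nb (bx r)) (rng R) ω) :
    L.TwoA true r R ω := by
  obtain ⟨x0, hx0, y0, hy0, c0⟩ := h0
  obtain ⟨x1, hx1, y1, hy1, c1⟩ := h1
  obtain ⟨x2, hx2, y2, hy2, c2⟩ := h2
  obtain ⟨x3, hx3, y3, hy3, c3⟩ := h3
  have hm : (1 : ℤ) ≤ R := by omega
  have sub : ∀ (b : Bool) (Q : Set Pt), ann r R ∩ Q ∩ L.col b ω ⊆ ann r R ∩ L.col b ω :=
    fun b Q v hv => ⟨hv.1.1, hv.2⟩
  have q0 : 1 ≤ y0.1 ∧ 0 ≤ y0.2 := c0.right.1.2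
  have q1 : y1.1 ≤ 0 ∧ 1 ≤ y1.2 := c1.right.1.2
  have q2 : y2.1 ≤ -1 ∧ y2.2 ≤ 0 := c2.right.1.2
  have q3 : 0 ≤ y3.1 ∧ y3.2 ≤ -1 := c3.right.1.2
  obtain ⟨i0, a0, b0, e0⟩ := rc_surj hm (show nrm y0 = R from hy0) 0
  obtain ⟨i1, a1, b1, e1⟩ := rc_surj hm (show nrm y1 = R from hy1) 0
  obtain ⟨i2, a2, b2, e2⟩ := rc_surj hm (show nrm y2 = R from hy2) 0
  obtain ⟨i3, a3, b3, e3⟩ := rc_surj hm (show nrm y3 = R from hy3) 0
  have k0 := rc_quad hm a0 (by omega)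
  have k1 := rc_quad hm a1 (by omega)
  have k2 := rc_quad hm a2 (by omega)
  have k3 := rc_quad hm a3 (by omega)
  rw [e0] at k0
  rw [e1] at k1
  rw [e2] at k2
  rw [e3] at k3
  have l0 : i0 < 2 * R := by omega
  have l1 : 2 * R ≤ i1 ∧ i1 < 4 * R := by omega
  have l2 : 4 * R ≤ i2 ∧ i2 < 6 * R := by omega
  have l3 : 6 * R ≤ i3 := by omega
  refine ⟨x0, hx0, y0, hy0, x2, hx2, y2, hy2, c0.mono (sub _ _), c2.mono (sub _ _), ?_⟩
  intro hc
  have hP : L.Con {v | L.Cn (ann r R ∩ L.col true ω) x0 v} := con_cluster _ _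
  have hC1 : L.Con {v | L.Cn (ann r R ∩ L.col false ω) x1 v} := con_cluster _ _
  have hC3 : L.Con {v | L.Cn (ann r R ∩ L.col false ω) x3 v} := con_cluster _ _
  have m0 : y0 ∈ {v | L.Cn (ann r R ∩ L.col true ω) x0 v} := c0.mono (sub _ _)
  have m2 : y2 ∈ {v | L.Cn (ann r R ∩ L.col true ω) x0 v} := hc.trans (c2.mono (sub _ _))
  have m1 : y1 ∈ {v | L.Cn (ann r R ∩ L.col false ω) x1 v} := c1.mono (sub _ _)
  have m3 : y3 ∈ {v | L.Cn (ann r R ∩ L.col false ω) x3 v} := c3.mono (sub _ _)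
  have n1 : x1 ∈ {v | L.Cn (ann r R ∩ L.col false ω) x1 v} :=
    Cn.refl (c1.mono (sub _ _)).left
  have n3 : x3 ∈ {v | L.Cn (ann r R ∩ L.col false ω) x3 v} :=
    Cn.refl (c3.mono (sub _ _)).left
  obtain ⟨u1, hu1, au1⟩ := hx1
  obtain ⟨u3, hu3, au3⟩ := hx3
  have hB : L.Con (bx r ∪ {v | L.Cn (ann r R ∩ L.col false ω) x1 v}) :=
    (con_bx r).union_adj hC1 hu1 n1 au1
  have hP' : L.Con (bx r ∪ {v | L.Cn (ann r R ∩ L.col false ω) x1 v} ∪
      {v | L.Cn (ann r R ∩ L.col false ω) x3 v}) :=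
    hB.union_adj hC3 (Or.inl hu3) n3 au3
  have sP : {v | L.Cn (ann r R ∩ L.col true ω) x0 v} ⊆ bx R := by
    intro v hv
    exact (Cn.right hv).1.2
  have sP' : bx r ∪ {v | L.Cn (ann r R ∩ L.col false ω) x1 v} ∪
      {v | L.Cn (ann r R ∩ L.col false ω) x3 v} ⊆ bx R := by
    rintro v ((hv | hv) | hv)
    · have : nrm v ≤ r := hv
      show nrm v ≤ R
      omega
    · exact (Cn.right hv).1.2
    · exact (Cn.right hv).1.2
  obtain ⟨v, hv, hv'⟩ := interlace_rc hm hP hP' sP sP' (i1 := i0) (i2 := i1) (i3 := i2) (i4 := i3)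
    (by omega) (by omega) (by omega) (by omega) (by rw [e0]; exact m0) (by rw [e2]; exact m2)
    (by rw [e1]; exact Or.inl (Or.inr m1)) (by rw [e3]; exact Or.inr m3)
  have hv1 := Cn.right hv
  have s1 : L.st ω v = true := hv1.2
  rcases hv' with (hv' | hv') | hv'
  · have t1 : nrm v ≤ r := hv'
    have t2 : r < nrm v := hv1.1.1
    omega
  · have s2 : L.st ω v = false := (Cn.right hv').2
    rw [s1] at s2
    exact absurd s2 (by decide)
  · have s2 : L.st ω v = false := (Cn.right hv').2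
    rw [s1] at s2
    exact absurd s2 (by decide)

/-- `quad_twoA`, `pr_mono`, `pr_and` three times (`Arm.dep`; the four sets are disjoint) -/
theorem pr_quad (L : Lat) {r R : ℤ} (hr : 1 ≤ r) (hR : r < R) :
    pr (L.Arm true (ann r R ∩ {v | 1 ≤ v.1 ∧ 0 ≤ v.2}) (L.nb (bx r)) (rng R)) *
      pr (L.Arm false (ann r R ∩ {v | v.1 ≤ 0 ∧ 1 ≤ v.2}) (L.nb (bx r)) (rng R)) *
      (pr (L.Arm true (ann r R ∩ {v | v.1 ≤ -1 ∧ v.2 ≤ 0}) (L.nb (bx r)) (rng R)) *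
      pr (L.Arm false (ann r R ∩ {v | 0 ≤ v.1 ∧ v.2 ≤ -1}) (L.nb (bx r)) (rng R))) ≤
      pr (L.TwoA true r R) := by
  have l0 := Arm.loc L true (ann r R ∩ {v | 1 ≤ v.1 ∧ 0 ≤ v.2}) (L.nb (bx r)) (rng R)
    (hp12_fin _ _ _)
  have l1 := Arm.loc L false (ann r R ∩ {v | v.1 ≤ 0 ∧ 1 ≤ v.2}) (L.nb (bx r)) (rng R)
    (hp12_fin _ _ _)
  have l2 := Arm.loc L true (ann r R ∩ {v | v.1 ≤ -1 ∧ v.2 ≤ 0}) (L.nb (bx r)) (rng R)
    (hp12_fin _ _ _)
  have l3 := Arm.loc L false (ann r R ∩ {v | 0 ≤ v.1 ∧ v.2 ≤ -1}) (L.nb (bx r)) (rng R)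
    (hp12_fin _ _ _)
  have d0 := Arm.dep L true (ann r R ∩ {v | 1 ≤ v.1 ∧ 0 ≤ v.2}) (L.nb (bx r)) (rng R)
  have d1 := Arm.dep L false (ann r R ∩ {v | v.1 ≤ 0 ∧ 1 ≤ v.2}) (L.nb (bx r)) (rng R)
  have d2 := Arm.dep L true (ann r R ∩ {v | v.1 ≤ -1 ∧ v.2 ≤ 0}) (L.nb (bx r)) (rng R)
  have d3 := Arm.dep L false (ann r R ∩ {v | 0 ≤ v.1 ∧ v.2 ≤ -1}) (L.nb (bx r)) (rng R)
  have d01 := d0.comp2 d1 (fun p q => p ∧ q)
  have d23 := d2.comp2 d3 (fun p q => p ∧ q)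
  rw [← pr_and l0 l1 d0 d1 ?_, ← pr_and l2 l3 d2 d3 ?_, ← pr_and (l0.and l1) (l2.and l3) d01 d23 ?_]
  · refine pr_mono ((l0.and l1).and (l2.and l3)) ?_ ?_
    · have hf := hp12_fin r R Set.univ
      rw [Set.inter_univ] at hf
      exact Two.loc L true (ann r R) (L.nb (bx r)) (rng R) hf
    · rintro ω ⟨⟨h0, h1⟩, h2, h3⟩
      exact quad_twoA hr hR h0 h1 h2 h3
  · rintro v (⟨_, h, h'⟩ | ⟨_, h, h'⟩) (⟨_, g, g'⟩ | ⟨_, g, g'⟩) <;> omega
  · rintro v ⟨_, h, h'⟩ ⟨_, g, g'⟩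
    omega
  · rintro v ⟨_, h, h'⟩ ⟨_, g, g'⟩
    omega

end Lat

end SC

end

/-! ### from `Lib_MP_e0a489.XP15` -/

section

/-!
# MP_e0a489, exponents 15: crossings of nearby rectangles (pigeonhole)
-/

set_option autoImplicit false

namespace SC

namespace XP

open Classical

/-- Horizontal open crossing of `[-a, a] × [-b, b]`.  The event `F` (wide and high) and the event `X` (narrow and low) lie between
`E' = HX (a + D, b - D)` and `E = HX (a, b)` (`HX.mono`), so they differ at most on `E ∧ ¬ E'`, an event of probability `pr E - pr E'`. -/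
theorem sandwich (L : Lat) {a b D : ℤ} (ha : 0 ≤ a) (hD : 0 ≤ D) (hb : D ≤ b) :
    pr (fun ω => ¬ (L.HX true (-(a + D)) (a + D) (-b) b ω ↔
        L.HX true (-a) a (-(b - D)) (b - D) ω)) ≤
      pr (L.HX true (-a) a (-b) b) - pr (L.HX true (-(a + D)) (a + D) (-(b - D)) (b - D)) := by
  set F : Cfg → Prop := L.HX true (-(a + D)) (a + D) (-b) b with hF
  set X : Cfg → Prop := L.HX true (-a) a (-(b - D)) (b - D) with hX
  set E : Cfg → Prop := L.HX true (-a) a (-b) b with hE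
  set E' : Cfg → Prop := L.HX true (-(a + D)) (a + D) (-(b - D)) (b - D) with hE'
  have lF : Loc F := Lat.HX.loc L true _ _ _ _
  have lX : Loc X := Lat.HX.loc L true _ _ _ _
  have lE : Loc E := Lat.HX.loc L true _ _ _ _
  have lE' : Loc E' := Lat.HX.loc L true _ _ _ _
  have h1 : ∀ ω, E' ω → F ω := fun ω h =>
    Lat.HX.mono h le_rfl (by omega) le_rfl (by omega) (by omega)
  have h2 : ∀ ω, E' ω → X ω := fun ω h =>
    Lat.HX.mono h (by omega) (by omega) (by omega) le_rfl le_rfl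
  have h3 : ∀ ω, F ω → E ω := fun ω h =>
    Lat.HX.mono h (by omega) (by omega) (by omega) le_rfl le_rfl
  have h4 : ∀ ω, X ω → E ω := fun ω h =>
    Lat.HX.mono h le_rfl (by omega) le_rfl (by omega) (by omega)
  have hset : (fun ω => ¬ (F ω ↔ X ω)) = fun ω => (F ω ∧ ¬ X ω) ∨ (¬ F ω ∧ X ω) := by
    funext ω
    apply propext
    tauto
  have lN : Loc (fun ω => ¬ (F ω ↔ X ω)) := by
    rw [hset]
    exact (lF.and lX.not).or (lF.not.and lX)
  have key : pr (fun ω => ¬ (F ω ↔ X ω)) + pr E' ≤ pr E := by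
    unfold pr
    rw [← ex_add lN.lf lE'.lf]
    refine ex_mono (lN.lf.add lE'.lf) lE.lf fun ω => ?_
    have a1 := h1 ω
    have a2 := h2 ω
    have a3 := h3 ω
    have a4 := h4 ω
    unfold ind
    by_cases hf : F ω <;> by_cases hx : X ω <;> by_cases he : E ω <;> by_cases he' : E' ω <;>
      simp_all
  linarith

/-- Telescoping sum of a sequence of probabilities: some difference is at most `1 / m`. -/
theorem pigeon {m : ℕ} (hm : 1 ≤ m) (f : ℕ → ℝ) (h0 : ∀ j, 0 ≤ f j) (h1 : ∀ j, f j ≤ 1) :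
    ∃ j, j < m ∧ f j - f (j + 1) ≤ 1 / m := by
  by_contra hcon
  push Not at hcon
  have hm0 : (0 : ℝ) < m := by exact_mod_cast hm
  have hs : ∑ j ∈ Finset.range m, (f j - f (j + 1)) = f 0 - f m := Finset.sum_range_sub' f m
  have hlt : ∑ j ∈ Finset.range m, (1 / (m : ℝ)) < ∑ j ∈ Finset.range m, (f j - f (j + 1)) := by
    refine Finset.sum_lt_sum_of_nonempty ⟨0, Finset.mem_range.2 (by omega)⟩ fun j hj => ?_
    exact hcon j (Finset.mem_range.1 hj)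
  rw [Finset.sum_const, Finset.card_range, nsmul_eq_mul, mul_one_div_cancel hm0.ne', hs] at hlt
  have e1 := h1 0
  have e2 := h0 m
  linarith

/-- There is a scale `j < m` such that `F` and `X` differ with probability at most `1 / m`: `pigeon` for
`f j = pr (HX true (a_j, b_j))`, `a_j = N + j D`, `b_j = 2 N - j D`, and `sandwich` (`a_{j+1} = a_j + D`, `b_{j+1} = b_j - D`). -/
theorem good_scale (L : Lat) {N D : ℤ} {m : ℕ} (hm : 1 ≤ m) (hN : 0 ≤ N) (hD : 0 ≤ D)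
    (hmD : (m : ℤ) * D ≤ N) :
    ∃ a b : ℤ, N ≤ a ∧ a + D ≤ 2 * N ∧ N ≤ b - D ∧ b ≤ 2 * N ∧
      pr (fun ω => ¬ (L.HX true (-(a + D)) (a + D) (-b) b ω ↔
        L.HX true (-a) a (-(b - D)) (b - D) ω)) ≤ 1 / m := by
  obtain ⟨j, hj, hp⟩ := pigeon hm
    (fun j : ℕ => pr (L.HX true (-(N + j * D)) (N + j * D) (-(2 * N - j * D)) (2 * N - j * D)))
    (fun j => pr_nonneg _) (fun j => pr_le_one _)
  have hjD : ((j : ℤ) + 1) * D ≤ m * D := by
    refine mul_le_mul_of_nonneg_right ?_ hD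
    exact_mod_cast hj
  have hj0 : (0 : ℤ) ≤ (j : ℤ) * D := by positivity
  have hjD' : (j : ℤ) * D + D ≤ N := by nlinarith
  refine ⟨N + j * D, 2 * N - j * D, by linarith, by linarith, by linarith, by linarith, ?_⟩
  refine (sandwich L (a := N + j * D) (b := 2 * N - j * D) (D := D) (by linarith) hD
    (by linarith)).trans ?_
  have e1 : N + ((j + 1 : ℕ) : ℤ) * D = N + j * D + D := by push_cast; ring
  have e2 : 2 * N - ((j + 1 : ℕ) : ℤ) * D = 2 * N - j * D - D := by push_cast; ring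
  simp only [e1, e2] at hp
  exact hp

/-- Crossing probabilities of rectangles with sides between `2 N` and `4 N` are bounded away from `0` and `1`: `RSW.hx'` and, with `not_hx`, `RSW.vx'`
(aspect ratio at most `2`); `pr_not`.  If `p = pr X`, `κ 2 ≤ p` and `κ 2 ≤ 1 - p`, then `(κ 2) ^ 2 ≤ p (1 - p)`. -/
theorem var_lb {L : Lat} {κ : ℕ → ℝ} (h : RSW L κ) {N a b : ℤ} (hN : 4 ≤ N) (ha : N ≤ a)
    (ha' : a ≤ 2 * N) (hb : N ≤ b) (hb' : b ≤ 2 * N) :
    κ 2 ^ 2 ≤ pr (L.HX true (-a) a (-b) b) * (1 - pr (L.HX true (-a) a (-b) b)) := by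
  have hl : Loc (L.HX true (-a) a (-b) b) := Lat.HX.loc L true _ _ _ _
  have h1 : κ 2 ≤ pr (L.HX true (-a) a (-b) b) :=
    h.hx' (k := 2) (by norm_num) true (by omega) (by omega) (by push_cast; omega)
  have h2 : κ 2 ≤ 1 - pr (L.HX true (-a) a (-b) b) := by
    rw [← pr_not hl]
    have e : (fun ω => ¬ L.HX true (-a) a (-b) b ω) = L.VX false (-a) a (-b) b := by
      funext ω
      apply propext
      have := Lat.not_hx (L := L) (a := -a) (b := a) (p := -b) (q := b) (by omega) (by omega)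
        true ω
      simpa using this
    rw [e]
    exact h.vx' (k := 2) (by norm_num) false (by omega) (by omega) (by push_cast; omega)
  have h0 := h.pos 2
  nlinarith

end XP

end SC

end

/-! ### from `Lib_MP_e0a489.XP4` -/

section

/-!
# MP_e0a489, exponents 4: blocks
-/

set_option autoImplicit false

namespace SC

namespace XP

open Classical

theorem mem_rectF {a b p q : ℤ} {v : Pt} :
    v ∈ rectF a b p q ↔ (a ≤ v.1 ∧ v.1 ≤ b) ∧ p ≤ v.2 ∧ v.2 ≤ q := by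
  unfold rectF
  rw [Finset.mem_product, Finset.mem_Icc, Finset.mem_Icc]

theorem coe_rectF (a b p q : ℤ) : ((rectF a b p q : Finset Pt) : Set Pt) = rect a b p q := by
  ext v
  rw [Finset.mem_coe, mem_rectF]
  rfl

theorem coe_blkF (w : ℤ) (z : Pt) : ((blkF w z : Finset Pt) : Set Pt) = blk w z := by
  unfold blkF blk
  exact coe_rectF _ _ _ _

theorem mem_rectF_nrm {M : ℤ} {z : Pt} : z ∈ rectF (-M) M (-M) M ↔ nrm z ≤ M := by
  rw [mem_rectF]
  unfold nrm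
  rw [max_le_iff, abs_le, abs_le]

/-- the block number `z` of side `2 r + 1` is the box of radius `r` around its centre -/
theorem blk_bxAt {r : ℤ} (z : Pt) :
    blk (2 * r + 1) z = bxAt (z.1 * (2 * r + 1), z.2 * (2 * r + 1)) r := by
  have h : (2 * r + 1) / 2 = r := by omega
  ext v
  unfold blk bxAt rect nrm
  rw [h]
  simp only [Set.mem_ofPred_eq, Prod.fst_sub, Prod.snd_sub, max_le_iff, abs_le]
  constructor
  · rintro ⟨⟨h1, h2⟩, h3, h4⟩
    exact ⟨⟨by linarith, by linarith⟩, by linarith, by linarith⟩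
  · rintro ⟨⟨h1, h2⟩, h3, h4⟩
    exact ⟨⟨by linarith, by linarith⟩, by linarith, by linarith⟩

private theorem ctr_mem {w : ℤ} (hw0 : 0 < w) (z : Pt) :
    ((z.1 * w, z.2 * w) : Pt) ∈ blkF w z := by
  have h : 0 ≤ w / 2 := by omega
  unfold blkF
  rw [mem_rectF]
  exact ⟨⟨by simp only; linarith, by simp only; linarith⟩, by simp only; linarith,
    by simp only; linarith⟩

private theorem blkF_disj {w : ℤ} (hw : w % 2 = 1) (hw0 : 0 < w) {z z' : Pt} (h : z ≠ z') :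
    Disjoint (blkF w z) (blkF w z') := by
  rw [← Finset.disjoint_coe, coe_blkF, coe_blkF]
  exact blk_disj hw hw0 h

/-- different blocks are disjoint (`blk_disj`) and nonempty -/
theorem blkF_inj {w : ℤ} (hw : w % 2 = 1) (hw0 : 0 < w) : Function.Injective (blkF w) := by
  intro z z' h
  by_contra hne
  have hd := blkF_disj hw hw0 hne
  have h1 := ctr_mem hw0 z
  have h2 : ((z.1 * w, z.2 * w) : Pt) ∈ blkF w z' := by
    rw [← h]
    exact h1
  exact (Finset.disjoint_left.mp hd) h1 h2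

theorem blks_disj {M w : ℤ} (hw : w % 2 = 1) (hw0 : 0 < w) :
    ∀ B ∈ blks M w, ∀ B' ∈ blks M w, B ≠ B' → Disjoint B B' := by
  intro B hB B' hB' hne
  unfold blks at hB hB'
  rw [Finset.mem_image] at hB hB'
  obtain ⟨z, _, rfl⟩ := hB
  obtain ⟨z', _, rfl⟩ := hB'
  exact blkF_disj hw hw0 (fun e => hne (by rw [e]))

/-- `bx_blk` -/
theorem blks_union {M w : ℤ} (hw : w % 2 = 1) (hw0 : 0 < w) :
    (((blks M w).biUnion id : Finset Pt) : Set Pt) = bx (M * w + w / 2) := by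
  ext v
  rw [Finset.mem_coe, Finset.mem_biUnion, bx_blk hw hw0]
  constructor
  · rintro ⟨B, hB, hv⟩
    unfold blks at hB
    rw [Finset.mem_image] at hB
    obtain ⟨z, hz, rfl⟩ := hB
    refine ⟨z, mem_rectF_nrm.mp hz, ?_⟩
    rw [← coe_blkF, Finset.mem_coe]
    exact hv
  · rintro ⟨z, hz, hv⟩
    refine ⟨blkF w z, ?_, ?_⟩
    · unfold blks
      exact Finset.mem_image_of_mem _ (mem_rectF_nrm.mpr hz)
    · rw [← coe_blkF, Finset.mem_coe] at hv
      exact hv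

/-- a site of `bx (M w + w / 2)` belongs to a block -/
theorem exists_blk {M w : ℤ} (hw : w % 2 = 1) (hw0 : 0 < w) {v : Pt} (hv : v ∈ bx (M * w + w / 2)) :
    ∃ z, nrm z ≤ M ∧ v ∈ blkF w z := by
  obtain ⟨z, hz, hvz⟩ := (bx_blk hw hw0 v).mp hv
  refine ⟨z, hz, ?_⟩
  rw [← Finset.mem_coe, coe_blkF]
  exact hvz

/-- `Finset.sum_image`, `blkF_inj` -/
theorem sum_blks {M w : ℤ} (hw : w % 2 = 1) (hw0 : 0 < w) (f : Finset Pt → ℝ) :
    ∑ B ∈ blks M w, f B = ∑ z ∈ rectF (-M) M (-M) M, f (blkF w z) := by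
  unfold blks
  exact Finset.sum_image (fun z _ z' _ h => blkF_inj hw hw0 h)

/-- a function of the block number as a function of the block: `X B = XX (Function.invFun (blkF w) B)` -/
theorem exists_X {w : ℤ} (hw : w % 2 = 1) (hw0 : 0 < w) (XX : Pt → Cfg → ℝ) :
    ∃ X : Finset Pt → Cfg → ℝ, ∀ z, X (blkF w z) = XX z := by
  refine ⟨fun B => XX (Function.invFun (blkF w) B), fun z => ?_⟩
  have h := Function.leftInverse_invFun (blkF_inj hw hw0) z
  simp only [h]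

theorem card_rectF {M : ℤ} (hM : 0 ≤ M) :
    ((rectF (-M) M (-M) M).card : ℝ) = (2 * (M : ℝ) + 1) ^ 2 := by
  unfold rectF
  rw [Finset.card_product, Int.card_Icc]
  have h : (((M + 1 - -M).toNat : ℕ) : ℝ) = 2 * (M : ℝ) + 1 := by
    have h1 : (((M + 1 - -M).toNat : ℕ) : ℤ) = M + 1 - -M := Int.toNat_of_nonneg (by omega)
    have h2 : (((M + 1 - -M).toNat : ℕ) : ℝ) = (((M + 1 - -M).toNat : ℕ) : ℤ) := by norm_cast
    rw [h2, h1]
    push_cast
    ring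
  push_cast
  rw [h]
  ring

/-- the blocks with number `|z| ≤ M / 2`: at least `M ^ 2` of them (`2 (M / 2) + 1 ≥ M`) -/
theorem card_half {M : ℤ} (hM : 0 ≤ M) :
    (M : ℝ) ^ 2 ≤ (((rectF (-M) M (-M) M).filter (fun z => nrm z ≤ M / 2)).card : ℝ) := by
  have hsub : rectF (-(M / 2)) (M / 2) (-(M / 2)) (M / 2) ⊆
      (rectF (-M) M (-M) M).filter (fun z => nrm z ≤ M / 2) := by
    intro z hz
    rw [Finset.mem_filter]
    have h := mem_rectF_nrm.mp hz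
    exact ⟨mem_rectF_nrm.mpr (by omega), h⟩
  have h1 : ((rectF (-(M / 2)) (M / 2) (-(M / 2)) (M / 2)).card : ℝ) ≤
      (((rectF (-M) M (-M) M).filter (fun z => nrm z ≤ M / 2)).card : ℝ) := by
    exact_mod_cast Finset.card_le_card hsub
  refine le_trans ?_ h1
  rw [card_rectF (by omega : (0 : ℤ) ≤ M / 2)]
  have h2 : M ≤ 2 * (M / 2) + 1 := by omega
  have h3 : (M : ℝ) ≤ 2 * ((M / 2 : ℤ) : ℝ) + 1 := by exact_mod_cast h2
  have h4 : (0 : ℝ) ≤ (M : ℝ) := by exact_mod_cast hM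
  exact pow_le_pow_left₀ h4 h3 2

end XP

end SC

end
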