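import Mathlib
import Pool.Agent.Lib_MP_e0a489_m.G06
import Pool.Agent.Lib_MP_e0a489_m.G08
import Pool.Agent.Lib_MP_e0a489_m.G09
import Pool.Agent.Lib_MP_e0a489_m.G10
import Pool.Agent.Lib_MP_e0a489_m.G11
import Pool.Agent.Lib_MP_e0a489_m.G12

/-!
# MP_e0a489_pr: merged library part G16

Concatenation of library files (each in its own section), only to save build time.
-/

/-! ### from `Lib_MP_e0a489.FT1` -/

section

/-!
# MP_e0a489, foot lemma 1: first passage sets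

Half box `Hb β = rect (-2β) (2β) 0 (2β)`, source `A0 β` = the row just below the left quarter of it.
`fs (i+1)` is the exploration of the clusters of colour `cc i` attached to `fs i`.  `Rf i` = explored
sites (`∅` for `i = 0`).
-/

set_option autoImplicit false

namespace SC

open Classical

/-- the other three sides of the half box -/
def hbo (β : ℤ) : Set Pt :=
  {v | v ∈ rect (-(2 * β)) (2 * β) 0 (2 * β) ∧ (v.1 = -(2 * β) ∨ v.1 = 2 * β ∨ v.2 = 2 * β)}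

/-- the half box -/
def Hb (β : ℤ) : Set Pt := rect (-(2 * β)) (2 * β) 0 (2 * β)

/-- the source -/
def A0 (β : ℤ) : Set Pt := rect (-(2 * β)) (-β) (-1) (-1)

/-- the half box as a finite set -/
noncomputable def HbF (β : ℤ) : Finset Pt := Finset.Icc (-(2 * β)) (2 * β) ×ˢ Finset.Icc 0 (2 * β)

/-- colours of the exploration -/
def cc (i : ℕ) : Bool := decide (i % 2 = 0)

namespace Lat

/-- alternate triple within distance `a` -/
def Alt3 (L : Lat) (β a : ℤ) (ω : Cfg) : Prop :=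
  ∃ c : Bool, ∃ x₁ x₂ x₃ : ℤ, -β < x₁ ∧ x₁ < x₂ ∧ x₂ < x₃ ∧ x₃ < β ∧ x₃ - x₁ ≤ a ∧
    L.Arm c (rect (-(2 * β)) (2 * β) 0 (2 * β)) {(x₁, 0)} (hbo β) ω ∧
    L.Arm (!c) (rect (-(2 * β)) (2 * β) 0 (2 * β)) {(x₂, 0)} (hbo β) ω ∧
    L.Arm c (rect (-(2 * β)) (2 * β) 0 (2 * β)) {(x₃, 0)} (hbo β) ω

/-- first passage sets -/
def fs (L : Lat) (β : ℤ) (ω : Cfg) : ℕ → Set Pt
  | 0 => A0 β
  | i + 1 => L.Cx (cc i) (Hb β ∪ A0 β) (L.fs β ω i) ω

/-- explored sites -/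
def Rf (L : Lat) (β : ℤ) (i : ℕ) (ω : Cfg) : Set Pt :=
  if i = 0 then ∅ else L.fs β ω i ∪ L.bd (Hb β ∪ A0 β) (L.fs β ω i)

/-- `fs i` has no site `(x', 0)` with `x' ≥ β` -/
def Ef (L : Lat) (β : ℤ) (i : ℕ) (ω : Cfg) : Prop := ∀ x', β ≤ x' → (x', 0) ∉ L.fs β ω i

/-- the rightmost site of the bottom row in `fs i` is `x ∈ (-β, β)` and `fs (i+1)` does not reach
`x + a` -/
def Bad (L : Lat) (β a : ℤ) (i : ℕ) (ω : Cfg) : Prop :=
  ∃ x : ℤ, -β < x ∧ x < β ∧ (x, 0) ∈ L.fs β ω i ∧ (∀ x', x < x' → (x', 0) ∉ L.fs β ω i) ∧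
    ∀ x', x + a ≤ x' → (x', 0) ∉ L.fs β ω (i + 1)

end Lat

/-! ### general facts -/

theorem coe_HbF (β : ℤ) : ((HbF β : Finset Pt) : Set Pt) = Hb β := by
  ext v
  rw [Finset.mem_coe]
  unfold HbF
  rw [Finset.mem_product, Finset.mem_Icc, Finset.mem_Icc]
  exact Iff.rfl

theorem cc_succ (i : ℕ) : cc (i + 1) = !cc i := by
  unfold cc
  rcases Nat.mod_two_eq_zero_or_one i with h | h
  · have h' : (i + 1) % 2 = 1 := by omega
    rw [h, h']
    rfl
  · have h' : (i + 1) % 2 = 0 := by omega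
    rw [h, h']
    rfl

theorem A0_disj {β : ℤ} {v : Pt} (h : v ∈ Hb β) : v ∉ A0 β := by
  intro h'
  have h1 : 0 ≤ v.2 := h.2.1
  have h2 : v.2 ≤ -1 := h'.2.2
  omega

namespace Lat

variable {L : Lat} {β : ℤ} {ω : Cfg}

/-- explored sites keep their colour (any set `R`) -/
theorem mix_col_in {R : Cfg → Set Pt} {G : Finset Pt} {η : Cfg} {v : Pt} (h : v ∈ R ω) (b : Bool) :
    v ∈ L.col b (mix G R ω η) ↔ v ∈ L.col b ω := by
  have e : mix G R ω η v = ω v := by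
    unfold mix
    rw [if_neg (fun h' => h'.2 h)]
  show L.st (mix G R ω η) v = b ↔ L.st ω v = b
  unfold Lat.st
  rw [e]

/-- unexplored sites of `G` take the fresh colour -/
theorem mix_col_out {R : Cfg → Set Pt} {G : Finset Pt} {η : Cfg} {v : Pt} (h : v ∉ R ω)
    (hG : v ∈ G) (b : Bool) : v ∈ L.col b (mix G R ω η) ↔ v ∈ L.col b η := by
  have e : mix G R ω η v = η v := by
    unfold mix
    rw [if_pos ⟨hG, h⟩]
  show L.st (mix G R ω η) v = b ↔ L.st η v = b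
  unfold Lat.st
  rw [e]

theorem col_unique {b b' : Bool} {v : Pt} (h : v ∈ L.col b ω) (h' : v ∈ L.col b' ω) : b = b' :=
  Eq.trans (Eq.symm h) h'

/-! ### first passage sets -/

theorem fs_sub (i : ℕ) : L.fs β ω i ⊆ Hb β ∪ A0 β := by
  induction i with
  | zero => exact Set.subset_union_right
  | succ i ih => exact Cx_sub ih

theorem fs_le {i j : ℕ} (h : i ≤ j) : L.fs β ω i ⊆ L.fs β ω j := by
  induction h with
  | refl => exact subset_rfl
  | step _ ih => exact ih.trans Cx_sup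

theorem A0_sub (i : ℕ) : A0 β ⊆ L.fs β ω i := fs_le (Nat.zero_le i)

/-- `con_rect`, `Cx_con` -/
theorem fs_con (i : ℕ) : L.Con (L.fs β ω i) := by
  induction i with
  | zero => exact con_rect _ _ _ _
  | succ i ih => exact Cx_con ih

/-- a new site lies in the half box and has the right colour (`Cx_col`) -/
theorem fs_new {i : ℕ} {v : Pt} (h : v ∈ L.fs β ω (i + 1)) (h' : v ∉ L.fs β ω i) :
    v ∈ Hb β ∧ v ∈ L.col (cc i) ω := by
  obtain ⟨h1, h2⟩ := Cx_col h h'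
  rcases h1 with h1 | h1
  · exact ⟨h1, h2⟩
  · exact absurd (A0_sub i h1) h'

/-- sites of the half box next to `fs (i+1)`, not in it (`bd_col`) -/
theorem fs_col {i : ℕ} {v : Pt} (h : v ∈ Hb β) (hn : v ∈ L.nb (L.fs β ω (i + 1)))
    (hC : v ∉ L.fs β ω (i + 1)) : v ∈ L.col (cc (i + 1)) ω := by
  rw [cc_succ]
  exact bd_col (Or.inl h) hn hC

/-- A connected set of colour `cc i` in the half box off `fs i` which contains a site of
`fs (i+1)` or a site next to `fs i` lies in `fs (i+1)` (`Cx_path`). -/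
theorem fs_absorb {i : ℕ} {P : Set Pt} (hP : L.Con P) (hH : P ⊆ Hb β) (hc : P ⊆ L.col (cc i) ω)
    (hd : ∀ v ∈ P, v ∉ L.fs β ω i)
    (hm : ∃ v ∈ P, v ∈ L.fs β ω (i + 1) ∨ v ∈ L.nb (L.fs β ω i)) : P ⊆ L.fs β ω (i + 1) := by
  obtain ⟨v, hv, hm⟩ := hm
  intro w hw
  refine Cx_path (u := v) ((hP v hv w hw).mono ?_) hm.symm
  intro z hz
  exact ⟨⟨Or.inl (hH hz), hd z hz⟩, hc hz⟩

/-- The set `fs i` is determined by the configuration on the explored sites.  Induction on `i`: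
`Rf i ⊆ Rf (i+1)` because `fs` and `bd M ·` are monotone, so `fs i ω' = fs i ω`, and
`L.Rev (cc i) M (fs i ω) ω = Rf (i+1) ω`: `Cx_stop`. -/
theorem fs_stop {i : ℕ} {ω' : Cfg} (h : ∀ v ∈ L.Rf β i ω, ω v = ω' v) :
    L.fs β ω' i = L.fs β ω i := by
  induction i with
  | zero => rfl
  | succ i ih =>
    have h1 : L.Rf β i ω ⊆ L.Rf β (i + 1) ω := by
      unfold Rf
      rw [if_neg (Nat.succ_ne_zero i)]
      split_ifs with h0
      · exact Set.empty_subset _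
      · rintro v (hv | ⟨hv, u, hu, hw⟩)
        · exact Or.inl (fs_le (Nat.le_succ i) hv)
        · exact Or.inr ⟨hv, u, fs_le (Nat.le_succ i) hu, hw⟩
    have h2 := ih (fun v hv => h v (h1 hv))
    show L.Cx (cc i) (Hb β ∪ A0 β) (L.fs β ω' i) ω' = L.Cx (cc i) (Hb β ∪ A0 β) (L.fs β ω i) ω
    rw [h2]
    apply Cx_stop
    intro v hv
    apply h v
    unfold Rf
    rw [if_neg (Nat.succ_ne_zero i)]
    exact hv

theorem Rf_stop (L : Lat) (β : ℤ) (i : ℕ) : Stop (L.Rf β i) := by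
  intro ω ω' h
  unfold Rf
  rw [fs_stop h]

theorem fs_mix (i : ℕ) (G : Finset Pt) (η : Cfg) :
    L.fs β (mix G (L.Rf β i) ω η) i = L.fs β ω i := by
  apply fs_stop
  intro v hv
  unfold mix
  rw [if_neg (fun h' => h'.2 hv)]

/-- `fs i` depends only on the half box (induction; `Cx c M S ω` with `M \ S ⊆ Hb`) -/
theorem fs_dep (L : Lat) (β : ℤ) (i : ℕ) : Dep (fun ω => L.fs β ω i) (Hb β) := by
  intro ω ω' h
  induction i with
  | zero => rfl
  | succ i ih =>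
    have h2 : L.fs β ω i = L.fs β ω' i := ih
    show L.Cx (cc i) (Hb β ∪ A0 β) (L.fs β ω i) ω = L.Cx (cc i) (Hb β ∪ A0 β) (L.fs β ω' i) ω'
    rw [← h2]
    have h3 : ((Hb β ∪ A0 β) \ L.fs β ω i) ∩ L.col (cc i) ω =
        ((Hb β ∪ A0 β) \ L.fs β ω i) ∩ L.col (cc i) ω' := by
      ext v
      constructor
      · rintro ⟨⟨hv, hf⟩, hc⟩
        refine ⟨⟨hv, hf⟩, ?_⟩
        have hv' : v ∈ Hb β := hv.resolve_right (fun h0 => hf (A0_sub i h0))
        show L.st ω' v = cc i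
        have hc' : L.st ω v = cc i := hc
        unfold Lat.st at hc' ⊢
        rw [← h v hv']
        exact hc'
      · rintro ⟨⟨hv, hf⟩, hc⟩
        refine ⟨⟨hv, hf⟩, ?_⟩
        have hv' : v ∈ Hb β := hv.resolve_right (fun h0 => hf (A0_sub i h0))
        show L.st ω v = cc i
        have hc' : L.st ω' v = cc i := hc
        unfold Lat.st at hc' ⊢
        rw [h v hv']
        exact hc'
    unfold Cx cl
    rw [h3]

theorem Ef_dep (L : Lat) (β : ℤ) (i : ℕ) : Dep (L.Ef β i) (Hb β) := by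
  intro ω ω' h
  have h1 : L.fs β ω i = L.fs β ω' i := fs_dep L β i ω ω' h
  unfold Ef
  rw [h1]

theorem Bad_dep (L : Lat) (β a : ℤ) (i : ℕ) : Dep (L.Bad β a i) (Hb β) := by
  intro ω ω' h
  have h1 : L.fs β ω i = L.fs β ω' i := fs_dep L β i ω ω' h
  have h2 : L.fs β ω (i + 1) = L.fs β ω' (i + 1) := fs_dep L β (i + 1) ω ω' h
  unfold Bad
  rw [h1, h2]

theorem Alt3_dep (L : Lat) (β a : ℤ) : Dep (L.Alt3 β a) (Hb β) := by
  intro ω ω' h
  have h1 : ∀ b, rect (-(2 * β)) (2 * β) 0 (2 * β) ∩ L.col b ω =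
      rect (-(2 * β)) (2 * β) 0 (2 * β) ∩ L.col b ω' := by
    intro b
    ext v
    constructor
    · rintro ⟨hv, hc⟩
      refine ⟨hv, ?_⟩
      have hc' : L.st ω v = b := hc
      show L.st ω' v = b
      unfold Lat.st at hc' ⊢
      rw [← h v hv]
      exact hc'
    · rintro ⟨hv, hc⟩
      refine ⟨hv, ?_⟩
      have hc' : L.st ω' v = b := hc
      show L.st ω v = b
      unfold Lat.st at hc' ⊢
      rw [h v hv]
      exact hc'
  unfold Alt3 Arm
  simp only [h1]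

end Lat

end SC

end

/-! ### from `Lib_MP_e0a489.SH1` -/

section

/-!
# MP_e0a489, shared by OS and IS, 1: windows on a ring, bad event

`o = true`: inner separation, the half boxes of the ring `m` (`m = r + 1`) go outward; `o = false`: outer
separation, the half boxes of the ring `m` (`m = R`) go inward.  The site `(x, y)` of the standard half box
`rect (-2β) (2β) 0 (2β)` of the window `(s, y₀)` is the site `rt s (m ± y, y₀ + x)`.
-/

set_option autoImplicit false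

namespace SC

open Classical

/-- the window map -/
def we (o : Bool) (m s y₀ : ℤ) : Equiv.Perm Pt :=
  rt s * Equiv.addRight ((m, y₀) : Pt) * (if o then Equiv.prodComm ℤ ℤ else rotE)

/-- the lattice seen through the window map -/
def wl (L : Lat) (o : Bool) (m s y₀ : ℤ) : Lat :=
  if o then ((L.rots s).shift (m, y₀)).tr else ((L.rots s).shift (m, y₀)).rot

theorem we_true (m s y₀ x y : ℤ) : we true m s y₀ (x, y) = rt s (m + y, y₀ + x) := by
  have h : we true m s y₀ (x, y) = rt s ((y, x) + (m, y₀)) := rfl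
  rw [h, Prod.mk_add_mk, add_comm y m, add_comm x y₀]

theorem we_false (m s y₀ x y : ℤ) : we false m s y₀ (x, y) = rt s (m - y, y₀ + x) := by
  have h : we false m s y₀ (x, y) = rt s ((-y, x) + (m, y₀)) := rfl
  rw [h, Prod.mk_add_mk, add_comm x y₀, neg_add_eq_sub]

theorem tr_wl (L : Lat) (o : Bool) (m s y₀ : ℤ) : Tr L (wl L o m s y₀) (we o m s y₀) := by
  cases o with
  | true =>
    exact ((tr_rots L s).trans (tr_shift (L.rots s) (m, y₀))).trans (tr_tr ((L.rots s).shift (m, y₀)))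
  | false =>
    exact ((tr_rots L s).trans (tr_shift (L.rots s) (m, y₀))).trans (tr_rot ((L.rots s).shift (m, y₀)))

theorem rsw_wl {L : Lat} {κ : ℕ → ℝ} (h : RSW L κ) (o : Bool) (m s y₀ : ℤ) :
    RSW (wl L o m s y₀) κ := by
  cases o with
  | true => exact ((h.rots s).shift (m, y₀)).tr
  | false => exact ((h.rots s).shift (m, y₀)).rot

/-- the half box of a window with `|y₀| + 2β < m`, outward case: norms between `m` and `m + 2β` -/
theorem we_true_nrm {m s y₀ β : ℤ} (hβ : 0 ≤ β) (h : |y₀| + 2 * β < m) {v : Pt}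
    (hv : v ∈ rect (-(2 * β)) (2 * β) 0 (2 * β)) :
    m ≤ nrm (we true m s y₀ v) ∧ nrm (we true m s y₀ v) ≤ m + 2 * β := by
  obtain ⟨x, y⟩ := v
  obtain ⟨⟨h1, h2⟩, h3, h4⟩ := hv
  simp only at h1 h2 h3 h4
  rw [we_true, nrm_rt]
  have h0 := abs_nonneg y₀
  have h5 : |m + y| = m + y := abs_of_nonneg (by omega)
  have h6 : |y₀ + x| ≤ |y₀| + 2 * β := (abs_add_le _ _).trans (by
    have : |x| ≤ 2 * β := abs_le.2 ⟨h1, h2⟩
    omega)
  unfold nrm
  simp only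
  rw [h5]
  exact ⟨le_max_of_le_left (by omega), max_le (by omega) (by omega)⟩

/-- inward case: norms between `m - 2β` and `m` -/
theorem we_false_nrm {m s y₀ β : ℤ} (hβ : 0 ≤ β) (h : |y₀| + 2 * β < m) {v : Pt}
    (hv : v ∈ rect (-(2 * β)) (2 * β) 0 (2 * β)) :
    m - 2 * β ≤ nrm (we false m s y₀ v) ∧ nrm (we false m s y₀ v) ≤ m := by
  obtain ⟨x, y⟩ := v
  obtain ⟨⟨h1, h2⟩, h3, h4⟩ := hv
  simp only at h1 h2 h3 h4
  rw [we_false, nrm_rt]
  have h0 := abs_nonneg y₀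
  have h5 : |m - y| = m - y := abs_of_nonneg (by omega)
  have h6 : |y₀ + x| ≤ |y₀| + 2 * β := (abs_add_le _ _).trans (by
    have : |x| ≤ 2 * β := abs_le.2 ⟨h1, h2⟩
    omega)
  unfold nrm
  simp only
  rw [h5]
  exact ⟨le_max_of_le_left (by omega), max_le (by omega) (by omega)⟩

namespace Lat

/-- alternate triple within distance `a` in the window `(s, y₀)` of the ring `m`, half box of size `β` -/
def Tri (L : Lat) (o : Bool) (m s y₀ β a : ℤ) (ω : Cfg) : Prop :=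
  (wl L o m s y₀).Alt3 β a (via (we o m s y₀) ω)

/-- arm of colour `b` in `D` from distance `ρ` to distance `ℓ` of the corner number `s` of the ring `m` -/
def Crn (L : Lat) (b : Bool) (D : Set Pt) (m s ρ ℓ : ℤ) (ω : Cfg) : Prop :=
  L.Arm b (D ∩ {v | nrm (v - rt s (m, m)) ≤ ℓ}) {v | nrm (v - rt s (m, m)) ≤ ρ}
    {v | ℓ ≤ nrm (v - rt s (m, m))} ω

/-- bad event: an arm near one of the four corners, or an alternate triple in one of the windows
`y₀ = β j`, `|β j| + 2 β < m` -/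
def BadW (L : Lat) (o : Bool) (D : Set Pt) (m ρ ℓ β a : ℤ) (ω : Cfg) : Prop :=
  (∃ b : Bool, ∃ s ∈ Finset.Icc (0 : ℤ) 3, L.Crn b D m s ρ ℓ ω) ∨
    ∃ s ∈ Finset.Icc (0 : ℤ) 3, ∃ j ∈ Finset.Icc (-(m / β)) (m / β),
      |β * j| + 2 * β < m ∧ L.Tri o m s (β * j) β a ω

end Lat

end SC

end

/-! ### from `Lib_MP_e0a489.SH4` -/

section

/-!
# MP_e0a489, shared by OS and IS, 4: paths near a ring produce the bad event
-/

set_option autoImplicit false

namespace SC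

open Classical

/-- the region outside (`o = true`) or inside (`o = false`) the ring `m`, with the ring -/
def reg (o : Bool) (m : ℤ) : Set Pt := if o then {v | m ≤ nrm v} else {v | nrm v ≤ m}


private theorem sh4_lin (s : ℤ) (u v : Pt) : rt s (u + v) = rt s u + rt s v := by
  have h0 : rt s = rt (s % 4) := rt_mod (by omega)
  rw [h0]
  have h1 : s % 4 = 0 ∨ s % 4 = 1 ∨ s % 4 = 2 ∨ s % 4 = 3 := by omega
  obtain ⟨a, b⟩ := u
  obtain ⟨c, d⟩ := v
  rcases h1 with h | h | h | h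
  · rw [h, rt_zero, rt_zero, rt_zero]
  · rw [h, rt_one, rt_one, rt_one]
    show ((-(b + d), a + c) : Pt) = (-b + -d, a + c)
    rw [neg_add]
  · rw [h, rt_two, rt_two, rt_two]
    show ((-(a + c), -(b + d)) : Pt) = (-a + -c, -b + -d)
    rw [neg_add, neg_add]
  · rw [h, rt_three, rt_three, rt_three]
    show ((b + d, -(a + c)) : Pt) = (b + d, -a + -c)
    rw [neg_add]

private theorem sh4_sub (s : ℤ) (u v : Pt) : rt s u - rt s v = rt s (u - v) := by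
  have h := sh4_lin s (u - v) v
  rw [sub_add_cancel] at h
  rw [h, add_sub_cancel_right]

private theorem sh4_nrm_sub (s a b c d : ℤ) :
    nrm (rt s (a, b) - rt s (c, d)) = max |a - c| |b - d| := by
  rw [sh4_sub, nrm_rt]
  rfl

private theorem sh4_adj {L : Lat} {p q c : Pt} (h : L.Adj p q) : nrm (q - c) ≤ nrm (p - c) + 1 := by
  obtain ⟨h1, h2⟩ := h.near
  have h3 : nrm (p - c) = max |p.1 - c.1| |p.2 - c.2| := rfl
  have h4 : nrm (q - c) = max |q.1 - c.1| |q.2 - c.2| := rfl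
  rw [h3, h4]
  have e1 : |q.1 - c.1| ≤ |p.1 - c.1| + |p.1 - q.1| := by
    have := abs_sub_le q.1 p.1 c.1
    rw [abs_sub_comm q.1 p.1] at this
    linarith
  have e2 : |q.2 - c.2| ≤ |p.2 - c.2| + |p.2 - q.2| := by
    have := abs_sub_le q.2 p.2 c.2
    rw [abs_sub_comm q.2 p.2] at this
    linarith
  have m1 := le_max_left |p.1 - c.1| |p.2 - c.2|
  have m2 := le_max_right |p.1 - c.1| |p.2 - c.2|
  apply max_le <;> linarith

namespace Lat

variable {L : Lat}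

/-- A path of colour `b` in the region, from the site `rt s (m, y₀ + x)` of the ring to a site outside the half box
of the window, contains an arm of the half box.
Proof.  `Tr.arm` for `tr_wl`: it is enough to find the arm in `L` for the images under `e = we o m s y₀`;
`e (x, 0) = rt s (m, y₀ + x)`.  `Cn.exit` for the set `e '' rect ..`: `p = e p'`, `q = e q'`, `p'` in the half box, `q'`
not, `p'` and `q'` adjacent in `wl L o m s y₀` (`(tr_wl ..).adj`), so `Adj.near`.  If `p'` is not in `hbo β` then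
`|q'.1| ≤ 2β` and `q'.2 = -1`; so `q = rt s (m - 1, y₀ + q'.1)` (`o = true`, norm `< m` because
`|y₀ + q'.1| ≤ |y₀| + 2β < m`; `m ≥ 1`), or `q = rt s (m + 1, y₀ + q'.1)` (`o = false`, norm `> m`), contradiction to
`q ∈ D ⊆ reg o m`. -/
theorem arm_win {o b : Bool} {m s y₀ β x : ℤ} {D : Set Pt} {ω : Cfg} {v : Pt} (hβ : 1 ≤ β)
    (hy : |y₀| + 2 * β < m) (hx : |x| ≤ β) (hD : D ⊆ reg o m)
    (h : L.Cn (D ∩ L.col b ω) (rt s (m, y₀ + x)) v)
    (hv : v ∉ we o m s y₀ '' rect (-(2 * β)) (2 * β) 0 (2 * β)) :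
    (wl L o m s y₀).Arm b (rect (-(2 * β)) (2 * β) 0 (2 * β)) {(x, 0)} (hbo β)
      (via (we o m s y₀) ω) := by
  have T := tr_wl L o m s y₀
  have he : we o m s y₀ (x, 0) = rt s (m, y₀ + x) := by
    cases o with
    | true => rw [we_true, add_zero]
    | false => rw [we_false, sub_zero]
  obtain ⟨v', rfl⟩ := (we o m s y₀).surjective v
  have hv' : v' ∉ rect (-(2 * β)) (2 * β) 0 (2 * β) := fun hh => hv (Set.mem_image_of_mem _ hh)
  have himg : we o m s y₀ '' ((we o m s y₀ ⁻¹' D) ∩ (wl L o m s y₀).col b (via (we o m s y₀) ω)) =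
      D ∩ L.col b ω := by
    rw [Set.image_inter (we o m s y₀).injective, T.col,
      Set.image_preimage_eq _ (we o m s y₀).surjective]
  have h' : (wl L o m s y₀).Cn ((we o m s y₀ ⁻¹' D) ∩ (wl L o m s y₀).col b (via (we o m s y₀) ω))
      (x, 0) v' := by
    rw [T.cn, himg, he]
    exact h
  have hx1 := abs_le.1 hx
  have hin : ((x, 0) : Pt) ∈ rect (-(2 * β)) (2 * β) 0 (2 * β) := by
    refine ⟨⟨?_, ?_⟩, ?_, ?_⟩ <;> simp only <;> omega
  obtain ⟨p, q, hc, ha, hq, hqS⟩ := h'.exit hin hv'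
  refine ⟨(x, 0), rfl, p, ?_, hc.mono fun z hz => ⟨hz.2, hz.1.2⟩⟩
  have hp : p ∈ rect (-(2 * β)) (2 * β) 0 (2 * β) := hc.right.2
  by_contra hcon
  have hp1 : ¬ (p.1 = -(2 * β) ∨ p.1 = 2 * β ∨ p.2 = 2 * β) := fun hh => hcon ⟨hp, hh⟩
  obtain ⟨n1, n2⟩ := ha.near
  rw [abs_le] at n1 n2
  obtain ⟨⟨a1, a2⟩, a3, a4⟩ := hp
  have hq2 : q.2 = -1 := by
    by_contra hne
    apply hqS
    refine ⟨⟨?_, ?_⟩, ?_, ?_⟩ <;> omega
  have hq1 : |q.1| ≤ 2 * β := abs_le.2 ⟨by omega, by omega⟩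
  have hqy : |y₀ + q.1| < m := by
    have := abs_add_le y₀ q.1
    omega
  have hqD : we o m s y₀ q ∈ reg o m := hD hq.1
  have hqe : q = (q.1, -1) := by rw [← hq2]
  have hy0 := abs_nonneg y₀
  rw [hqe] at hqD
  cases o with
  | true =>
    rw [we_true] at hqD
    have h1 : m ≤ nrm (rt s (m + -1, y₀ + q.1)) := hqD
    rw [nrm_rt] at h1
    have h2 : nrm ((m + -1, y₀ + q.1) : Pt) = max |m + -1| |y₀ + q.1| := rfl
    rw [h2] at h1
    have h3 : |m + -1| = m + -1 := abs_of_nonneg (by omega)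
    rw [h3] at h1
    rcases le_max_iff.1 h1 with h4 | h4 <;> omega
  | false =>
    rw [we_false] at hqD
    have h1 : nrm (rt s (m - -1, y₀ + q.1)) ≤ m := hqD
    rw [nrm_rt] at h1
    have h2 : nrm ((m - -1, y₀ + q.1) : Pt) = max |m - -1| |y₀ + q.1| := rfl
    rw [h2] at h1
    have h3 : |m - -1| = m - -1 := abs_of_nonneg (by omega)
    rw [h3] at h1
    have h4 := (le_max_left _ _).trans h1
    omega

/-- ALTERNATE TRIPLE.  Three sites of the ring with indices `i₁ < z = 2 m s + y < i₃`, `i₃ - i₁ ≤ a`, far from the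
corners, with paths of colours `c, !c, c` in the region to sites at distance `≥ 3β` from `rc m z`.
Proof.  Replace `s` by `s % 4` (`rt_mod`).  `j = (y + β / 2) / β`, `y₀ = β j`, `|y - y₀| ≤ β / 2 + 1`, so `|y₀| + 2β < m` and
`|j| ≤ m / β`.  The sites are `rt s (m, y₀ + x_i)` (`rc_side`) with `-β < x₁ < x₂ < x₃ < β`.  Every site of the half box of the window
is at distance `≤ 2β + β / 2 + 1 < 3β` from `rc m z` (`nrm_rt`, `rt s` is additive).  So `arm_win` applies to the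
three paths. -/
theorem tri_of {o c : Bool} {m s y β a ρ ℓ i₁ i₃ : ℤ} {D D' : Set Pt} {ω : Cfg} {v₁ v₂ v₃ : Pt}
    (hβ : 8 ≤ β) (ha : 4 * a ≤ β) (hy : |y| + 3 * β ≤ m) (hD : D ⊆ reg o m)
    (h1 : i₁ < 2 * m * s + y) (h3 : 2 * m * s + y < i₃) (h13 : i₃ - i₁ ≤ a)
    (p₁ : L.Cn (D ∩ L.col c ω) (rc m i₁) v₁)
    (p₂ : L.Cn (D ∩ L.col (!c) ω) (rc m (2 * m * s + y)) v₂)
    (p₃ : L.Cn (D ∩ L.col c ω) (rc m i₃) v₃)
    (f₁ : 3 * β ≤ nrm (v₁ - rc m (2 * m * s + y)))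
    (f₂ : 3 * β ≤ nrm (v₂ - rc m (2 * m * s + y)))
    (f₃ : 3 * β ≤ nrm (v₃ - rc m (2 * m * s + y))) : L.BadW o D' m ρ ℓ β a ω := by
  have hβ0 : 0 < β := by omega
  have hy0 := abs_nonneg y
  have hm : 1 ≤ m := by omega
  set j : ℤ := (y + β / 2) / β with hj
  have hj1 : β * j ≤ y + β / 2 := Int.mul_ediv_self_le hβ0.ne'
  have hj2 : y + β / 2 < β * j + β := Int.lt_mul_ediv_self_add hβ0
  have hyy : |y - β * j| ≤ β / 2 + 1 := abs_le.2 ⟨by omega, by omega⟩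
  have hy00 : |β * j| ≤ |y| + (β / 2 + 1) := by
    have := abs_sub_abs_le_abs_sub (β * j) y
    rw [abs_sub_comm (β * j) y] at this
    omega
  have hlt : |β * j| + 2 * β < m := by omega
  have hjm : |j| ≤ m / β := by
    rw [Int.le_ediv_iff_mul_le hβ0]
    have h1 : |j| * β = |β * j| := by rw [abs_mul, abs_of_pos hβ0, mul_comm]
    rw [h1]
    omega
  have hjm' := abs_le.1 hjm
  have hyy' := abs_le.1 hyy
  have hrs : rt s = rt (s % 4) := rt_mod (by omega)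
  have hrc : rc m (2 * m * s + y) = rt s (m, y) := rc_side hm (by omega)
  have hfar : ∀ v : Pt, 3 * β ≤ nrm (v - rc m (2 * m * s + y)) →
      v ∉ we o m (s % 4) (β * j) '' rect (-(2 * β)) (2 * β) 0 (2 * β) := by
    rintro v hv ⟨⟨x', y'⟩, ⟨⟨b1, b2⟩, b3, b4⟩, rfl⟩
    simp only at b1 b2 b3 b4
    rw [hrc, hrs] at hv
    cases o with
    | true =>
      rw [we_true, sh4_nrm_sub] at hv
      have c1 : |m + y' - m| ≤ 2 * β := abs_le.2 ⟨by omega, by omega⟩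
      have c2 : |β * j + x' - y| < 3 * β := abs_lt.2 ⟨by omega, by omega⟩
      rcases le_max_iff.1 hv with h4 | h4 <;> omega
    | false =>
      rw [we_false, sh4_nrm_sub] at hv
      have c1 : |m - y' - m| ≤ 2 * β := abs_le.2 ⟨by omega, by omega⟩
      have c2 : |β * j + x' - y| < 3 * β := abs_lt.2 ⟨by omega, by omega⟩
      rcases le_max_iff.1 hv with h4 | h4 <;> omega
  have harm : ∀ (b : Bool) (i : ℤ) (v : Pt), |i - 2 * m * s - β * j| ≤ β →
      L.Cn (D ∩ L.col b ω) (rc m i) v → 3 * β ≤ nrm (v - rc m (2 * m * s + y)) →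
      (wl L o m (s % 4) (β * j)).Arm b (rect (-(2 * β)) (2 * β) 0 (2 * β))
        {(i - 2 * m * s - β * j, 0)} (hbo β) (via (we o m (s % 4) (β * j)) ω) := by
    intro b i v hi hc hv
    refine arm_win (D := D) (v := v) (by omega) hlt hi hD ?_ (hfar v hv)
    have e1 : i = 2 * m * s + (β * j + (i - 2 * m * s - β * j)) := by ring
    have e2 : rc m i = rt (s % 4) (m, β * j + (i - 2 * m * s - β * j)) := by
      rw [← hrs]
      conv_lhs => rw [e1]
      refine rc_side hm ?_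
      have := abs_add_le (β * j) (i - 2 * m * s - β * j)
      omega
    rw [← e2]
    exact hc
  set M : ℤ := 2 * m * s with hM
  refine Or.inr ⟨s % 4, Finset.mem_Icc.2 ⟨by omega, by omega⟩, j,
    Finset.mem_Icc.2 ⟨hjm'.1, hjm'.2⟩, hlt, ?_⟩
  have q2 : M + y - M - β * j = y - β * j := by ring
  have g2 := harm (!c) (M + y) v₂ (by rw [q2]; omega) p₂ f₂
  have g1 := harm c i₁ v₁ (abs_le.2 ⟨by omega, by omega⟩) p₁ f₁
  have g3 := harm c i₃ v₃ (abs_le.2 ⟨by omega, by omega⟩) p₃ f₃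
  exact ⟨c, i₁ - M - β * j, M + y - M - β * j, i₃ - M - β * j, by omega, by omega, by omega,
    by omega, by omega, g1, g2, g3⟩

/-- CORNER.  A site of the ring at distance `≤ ρ` from a corner with a path of colour `b` to a site at distance `≥ ℓ` from
all corners.  Proof.  `rc m (2 m s + y) = rt s (m, y)` (`rc_side`), the nearest corner is `rt s (m, m)` if `y ≥ 0` and
`rt (s + 3) (m, m) = rt s (m, -m)` if `y < 0`, at distance `m - |y| ≤ ρ`; reduce the number of the corner modulo 4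
(`rt_mod`).  The distance `nrm (v - corner)` changes by at most one along a step (`Adj.near`): if the start has distance
`≥ ℓ` take it alone when the distance is `ℓ`, in general use `Cn.exit` for the set `{distance < ℓ}`, the exit site has distance `ℓ`; if
the start has distance `> ℓ` the hypothesis `ρ ≤ ℓ` is violated. -/
theorem crn_of {o b : Bool} {m s y ρ ℓ β a : ℤ} {D D' : Set Pt} {ω : Cfg} {v : Pt} (hm : 1 ≤ m)
    (hρ : ρ ≤ ℓ) (hy : |y| ≤ m) (hy' : m ≤ |y| + ρ)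
    (h : L.Cn (D ∩ L.col b ω) (rc m (2 * m * s + y)) v)
    (hD : ∀ s, ∀ v ∈ D, nrm (v - rt s (m, m)) ≤ ℓ → v ∈ D')
    (hv : ∀ s, ℓ ≤ nrm (v - rt s (m, m))) : L.BadW o D' m ρ ℓ β a ω := by
  have hu : rc m (2 * m * s + y) = rt s (m, y) := rc_side hm hy
  have key : ∃ s₀ : ℤ, nrm (rc m (2 * m * s + y) - rt s₀ (m, m)) ≤ ρ := by
    rcases le_or_gt 0 y with h0 | h0
    · refine ⟨s, ?_⟩
      rw [hu, sh4_nrm_sub]
      have c1 : |m - m| = 0 := by rw [sub_self, abs_zero]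
      have hya : |y| = y := abs_of_nonneg h0
      have c2 : |y - m| ≤ ρ := abs_le.2 ⟨by omega, by omega⟩
      rw [c1]
      exact max_le (by omega) c2
    · refine ⟨s + 3, ?_⟩
      rw [hu, rt_add, rt_three]
      rw [show (((m, m) : Pt).2, -((m, m) : Pt).1) = (m, -m) from rfl, sh4_nrm_sub]
      have c1 : |m - m| = 0 := by rw [sub_self, abs_zero]
      have hya : |y| = -y := abs_of_neg h0
      have c2 : |y - -m| ≤ ρ := abs_le.2 ⟨by omega, by omega⟩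
      rw [c1]
      exact max_le (by omega) c2
  obtain ⟨s₀, hs₀⟩ := key
  have hrs : rt s₀ = rt (s₀ % 4) := rt_mod (by omega)
  refine Or.inl ⟨b, s₀ % 4, Finset.mem_Icc.2 ⟨by omega, by omega⟩, ?_⟩
  unfold Crn
  rw [← hrs]
  by_cases hin : nrm (rc m (2 * m * s + y) - rt s₀ (m, m)) < ℓ
  · obtain ⟨p, q, hc, ha, hq, hqS⟩ := h.exit
      (S := {z | nrm (z - rt s₀ (m, m)) < ℓ}) hin (fun hh => absurd (hv s₀) (not_le.2 hh))
    have hq1 : ℓ ≤ nrm (q - rt s₀ (m, m)) := not_lt.1 hqS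
    have hp1 : nrm (p - rt s₀ (m, m)) < ℓ := hc.right.2
    have hq2 : nrm (q - rt s₀ (m, m)) ≤ ℓ := by
      have := sh4_adj (c := rt s₀ (m, m)) ha
      omega
    refine ⟨_, hs₀, q, hq1, ?_⟩
    have hc' : L.Cn (D' ∩ {v | nrm (v - rt s₀ (m, m)) ≤ ℓ} ∩ L.col b ω)
        (rc m (2 * m * s + y)) p := hc.mono fun z hz => by
      have hz2 : nrm (z - rt s₀ (m, m)) < ℓ := hz.2
      have hz3 : nrm (z - rt s₀ (m, m)) ≤ ℓ := le_of_lt hz2
      exact ⟨⟨hD s₀ z hz.1.1 hz3, hz3⟩, hz.1.2⟩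
    have hfin : q ∈ D' ∩ {v | nrm (v - rt s₀ (m, m)) ≤ ℓ} ∩ L.col b ω :=
      ⟨⟨hD s₀ q hq.1 hq2, hq2⟩, hq.2⟩
    exact ⟨hc'.1, hc'.2.tail ⟨ha, hfin⟩⟩
  · have hge : ℓ ≤ nrm (rc m (2 * m * s + y) - rt s₀ (m, m)) := not_lt.1 hin
    have hle : nrm (rc m (2 * m * s + y) - rt s₀ (m, m)) ≤ ℓ := hs₀.trans hρ
    refine ⟨_, hs₀, _, hge, ?_⟩
    exact Cn.refl ⟨⟨hD s₀ _ h.1.1 hle, hle⟩, h.1.2⟩

end Lat

end SC

end

/-! ### from `Lib_MP_e0a489.SH5` -/

section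

/-!
# MP_e0a489, shared by OS and IS, 5: a good landing position
-/

set_option autoImplicit false

namespace SC

open Classical

namespace Lat

variable {L : Lat}

/-- GOOD POSITION.  `V` is a component of `D \ C`, `x = rc m z ∈ V` a site of the ring with a path of colour `c` in the
region to a far site; the sites of `C` on the ring near `x` have paths of colour `!c` to far sites.  If the bad
event does not occur then `x` is far from the corners and there is a cell of size `w` near `x` whose triple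
lies in `V`.
Proof.  `idx_side`: `z = 2 m s + y`, `|y| ≤ m`; `crn_of` gives `|y| + ρ < m`.  `Z = {i | rc m i ∈ C}`, `z ∉ Z`.  If `Z` had
elements on both sides of `z` within `6 w`, `tri_of` (with `c` replaced by `!c`, `a = 12 w`) would give the bad event.
So `good_cell` gives `k`.  The arc between `z` and the triple, `arc m (min ..) (max ..)`, is connected (`con_arc`), lies in
`rng m \ C ⊆ D \ C` (`rc_nrm`) and contains `x ∈ V`, so it is contained in `V` (`Comp.absorb`); it contains `trip w m s k`. -/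
theorem good_pos {o c : Bool} {m w ρ ℓ β z : ℤ} {D D' E C V : Set Pt} {ω : Cfg} {v : Pt}
    (hw : w % 2 = 1) (hw0 : 0 < w) (hβ : 8 ≤ β) (hwβ : 48 * w ≤ β) (hρ : 4 * β ≤ ρ) (hρℓ : ρ ≤ ℓ)
    (hm : 1 ≤ m) (hbad : ¬ L.BadW o D' m ρ ℓ β (12 * w) ω) (hE : E ⊆ reg o m)
    (hED : ∀ s, ∀ v ∈ E, nrm (v - rt s (m, m)) ≤ ℓ → v ∈ D')
    (hring : rng m ⊆ D) (hV : L.Comp (D \ C) V) (hz : rc m z ∈ V)
    (hp : L.Cn (E ∩ L.col c ω) (rc m z) v) (hv : 3 * β ≤ nrm (v - rc m z))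
    (hv' : ∀ s, ℓ ≤ nrm (v - rt s (m, m)))
    (hC : ∀ i, |i - z| ≤ 6 * w → rc m i ∈ C →
      ∃ v, L.Cn (E ∩ L.col (!c) ω) (rc m i) v ∧ 3 * β ≤ nrm (v - rc m z)) :
    ∃ s k y : ℤ, z = 2 * m * s + y ∧ |y| + ρ < m ∧ k ≠ 0 ∧ y - 6 * w ≤ (k - 1) * w - w / 2 ∧
      (k + 1) * w + w / 2 ≤ y + 6 * w ∧ trip w m s k ⊆ V := by
  obtain ⟨s, y, hy, hzy⟩ := idx_side hm z
  have hyρ : |y| + ρ < m := by
    by_contra hcon
    push Not at hcon
    apply hbad
    rw [hzy] at hp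
    exact crn_of hm hρℓ hy hcon hp hED hv'
  have hzC : rc m z ∉ C := (hV.sub hz).2
  have hzZ : 2 * m * s + y ∉ {i : ℤ | rc m i ∈ C} := by
    rw [← hzy]
    exact hzC
  have hns : ¬ ((∃ i ∈ {i : ℤ | rc m i ∈ C}, 2 * m * s + y - 6 * w ≤ i ∧ i < 2 * m * s + y) ∧
      ∃ j ∈ {i : ℤ | rc m i ∈ C}, 2 * m * s + y < j ∧ j ≤ 2 * m * s + y + 6 * w) := by
    rintro ⟨⟨i, hi, hi1, hi2⟩, ⟨j, hj, hj1, hj2⟩⟩
    have hi' : rc m i ∈ C := hi
    have hj' : rc m j ∈ C := hj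
    obtain ⟨v₁, q₁, f₁⟩ := hC i (abs_le.2 ⟨by omega, by omega⟩) hi'
    obtain ⟨v₃, q₃, f₃⟩ := hC j (abs_le.2 ⟨by omega, by omega⟩) hj'
    apply hbad
    rw [hzy] at hp hv f₁ f₃
    refine tri_of (c := !c) (i₁ := i) (i₃ := j) hβ (by omega) (by omega) hE hi2 hj1 (by omega)
      q₁ ?_ q₃ f₁ hv f₃
    rw [Bool.not_not]
    exact hp
  obtain ⟨k, hk0, hk1, hk2, hk3⟩ := good_cell hw hw0 (by omega) hzZ hns
  refine ⟨s, k, y, hzy, hyρ, hk0, hk1, hk2, ?_⟩
  have hww : 0 ≤ w / 2 := by omega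
  have hsub : arc m (min (2 * m * s + y) (2 * m * s + (k - 1) * w - w / 2))
      (max (2 * m * s + y) (2 * m * s + (k + 1) * w + w / 2)) ⊆ V := by
    refine hV.absorb (con_arc hm _ _) ?_ ⟨rc m z, ?_, hz⟩
    · rintro v ⟨i, hi1, hi2, rfl⟩
      refine ⟨hring (rc_nrm hm), ?_⟩
      intro hiC
      exact hk3 i hiC ⟨hi1, hi2⟩
    · refine ⟨2 * m * s + y, min_le_left _ _, le_max_left _ _, ?_⟩
      rw [hzy]
  intro v hvt
  obtain ⟨i, hi1, hi2, rfl⟩ := hvt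
  exact hsub ⟨i, (min_le_right _ _).trans hi1, hi2.trans (le_max_right _ _), rfl⟩

end Lat

end SC

end

/-! ### from `Lib_MP_e0a489.FT4` -/

section

/-!
# MP_e0a489, foot lemma 4: the deterministic step
-/

set_option autoImplicit false

namespace SC

open Classical

namespace Lat

variable {L : Lat} {β : ℤ} {ω : Cfg}

/-- DETERMINISTIC STEP.  `σ` is a connected set in the half box, of colour `cc i` in the fresh configuration `η`, with a
site `s` in `fs i` or next to it.  Then every site `u ∈ σ`, `u ∉ fs i`, belongs to `fs (i+1)` of the mixed configuration.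
Proof.  `ω' = mix (HbF β) (L.Rf β i) ω η`, `F = fs i ω = fs i ω'` (`fs_mix`), `X = F ∪ L.nb F`.
(a) If `q ∈ σ`, `q ∉ F`, `q ∈ L.nb F`, then `q ∈ L.col (cc i) ω'`: for `i = 0` we have `L.Rf β 0 ω = ∅`, so `q` is fresh (`mix_col_out`; `q ∈ HbF β` by
`coe_HbF`); for `i = j + 1` `q ∈ L.bd (Hb β ∪ A0 β) F ⊆ L.Rf β i ω` is explored and has colour `cc (j+1)` in `ω` (`fs_col`), so also in `ω'`
(`mix_col_in`).
(b) If `q ∈ σ`, `q ∉ X`, then `q ∉ L.Rf β i ω` (`Rf` is `∅` or `F ∪ bd (Hb β ∪ A0 β) F ⊆ X`), so `q` is fresh and has colour `cc i` in `ω'` (`mix_col_out`).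
Case `u ∈ L.nb F`: `fs_absorb` for `ω'` and `P = {u}` (`con_singleton`, (a)).
Case `u ∉ L.nb F`: `u ∉ X`, `s ∈ X`.  `Cn.exit` for the path in `σ` from `u` to `s` and the set `Xᶜ`: `p`, `q` with `L.Cn (σ ∩ Xᶜ) u p`, `L.Adj p q`, `q ∈ σ`,
`q ∈ X`.  `q ∉ F`, otherwise `p ∈ L.nb F` (`Adj.symm`), but `p ∉ X` (`Cn.right`).  So `q ∈ L.nb F`.  Let `P = {v | L.Cn (σ ∩ Xᶜ) u v} ∪ {q}`: connected
(`con_cluster`, `con_singleton`, `Con.union_adj`), contained in `Hb β`, disjoint from `F`, of colour `cc i` in `ω'` by (a), (b), and it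
contains `q ∈ L.nb F`.  `fs_absorb` gives `u ∈ P ⊆ fs (i+1) ω'`. -/
theorem fs_step {i : ℕ} {σ : Set Pt} {η : Cfg} {u : Pt} (hσ : L.Con σ) (hH : σ ⊆ Hb β)
    (hc : σ ⊆ L.col (cc i) η) (hu : u ∈ σ) (hu' : u ∉ L.fs β ω i)
    (hm : ∃ s ∈ σ, s ∈ L.fs β ω i ∨ s ∈ L.nb (L.fs β ω i)) :
    u ∈ L.fs β (mix (HbF β) (L.Rf β i) ω η) (i + 1) := by
  have hfs : L.fs β (mix (HbF β) (L.Rf β i) ω η) i = L.fs β ω i := fs_mix i (HbF β) η
  have hG : ∀ q ∈ σ, q ∈ HbF β := by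
    intro q hq
    rw [← Finset.mem_coe, coe_HbF]
    exact hH hq
  -- (b)
  have hb : ∀ q ∈ σ, q ∉ L.Rf β i ω → q ∈ L.col (cc i) (mix (HbF β) (L.Rf β i) ω η) := by
    intro q hq hR
    exact (mix_col_out hR (hG q hq) (cc i)).2 (hc hq)
  -- (a)
  have ha : ∀ q ∈ σ, q ∉ L.fs β ω i → q ∈ L.nb (L.fs β ω i) →
      q ∈ L.col (cc i) (mix (HbF β) (L.Rf β i) ω η) := by
    intro q hq hqf hqn
    cases i with
    | zero =>
      refine hb q hq ?_
      unfold Rf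
      rw [if_pos rfl]
      exact Set.notMem_empty q
    | succ j =>
      have hR : q ∈ L.Rf β (j + 1) ω := by
        unfold Rf
        rw [if_neg (Nat.succ_ne_zero j)]
        exact Or.inr ⟨Or.inl (hH hq), hqn⟩
      exact (mix_col_in hR (cc (j + 1))).2 (fs_col (hH hq) hqn hqf)
  have hX : ∀ q, q ∉ L.fs β ω i → q ∉ L.nb (L.fs β ω i) → q ∉ L.Rf β i ω := by
    intro q h1 h2 h3
    unfold Rf at h3
    split_ifs at h3 with h0
    · exact h3
    · rcases h3 with h3 | h3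
      · exact h1 h3
      · exact h2 h3.2
  by_cases hun : u ∈ L.nb (L.fs β ω i)
  · have h1 : ({u} : Set Pt) ⊆ L.fs β (mix (HbF β) (L.Rf β i) ω η) (i + 1) := by
      refine fs_absorb (con_singleton u) ?_ ?_ ?_ ?_
      · rintro v rfl
        exact hH hu
      · rintro v rfl
        exact ha _ hu hu' hun
      · rintro v rfl
        rw [hfs]
        exact hu'
      · refine ⟨u, rfl, Or.inr ?_⟩
        rw [hfs]
        exact hun
    exact h1 rfl
  · obtain ⟨s, hs, hsX⟩ := hm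
    set X : Set Pt := L.fs β ω i ∪ L.nb (L.fs β ω i) with hXdef
    have huX : u ∈ Xᶜ := by
      rintro (h | h)
      · exact hu' h
      · exact hun h
    have hsX' : s ∉ Xᶜ := by
      intro h
      exact h (by rcases hsX with h1 | h1; exacts [Or.inl h1, Or.inr h1])
    obtain ⟨p, q, hup, hpq, hq, hqX⟩ := Cn.exit (hσ u hu s hs) huX hsX'
    have hqX' : q ∈ X := by
      by_contra h
      exact hqX h
    have hpX : p ∈ Xᶜ := hup.right.2
    have hqf : q ∉ L.fs β ω i := by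
      intro h
      exact hpX (Or.inr ⟨q, h, Adj.symm hpq⟩)
    have hqn : q ∈ L.nb (L.fs β ω i) := hqX'.resolve_left hqf
    have hcon : L.Con ({v | L.Cn (σ ∩ Xᶜ) u v} ∪ {q}) :=
      Con.union_adj (con_cluster _ u) (con_singleton q) (u := p) (v := q) hup rfl hpq
    have h1 : ({v | L.Cn (σ ∩ Xᶜ) u v} ∪ {q}) ⊆ L.fs β (mix (HbF β) (L.Rf β i) ω η) (i + 1) := by
      refine fs_absorb hcon ?_ ?_ ?_ ?_
      · rintro v (hv | rfl)
        · exact hH (Cn.right hv).1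
        · exact hH hq
      · rintro v (hv | rfl)
        · have hv' := Cn.right hv
          exact hb v hv'.1 (hX v (fun h => hv'.2 (Or.inl h)) (fun h => hv'.2 (Or.inr h)))
        · exact ha _ hq hqf hqn
      · rintro v (hv | rfl)
        · rw [hfs]
          exact fun h => (Cn.right hv).2 (Or.inl h)
        · rw [hfs]
          exact hqf
      · refine ⟨q, Or.inr rfl, Or.inr ?_⟩
        rw [hfs]
        exact hqn
    exact h1 (Or.inl (Cn.refl ⟨hu, huX⟩))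

end Lat

end SC

end

/-! ### from `Lib_MP_e0a489.SE21` -/

section

/-!
# MP_e0a489, module SE 21: the separated event implies the four arm events
-/

set_option autoImplicit false

namespace SC

open Classical

/-- `cross` for two connected sets in `bx m`: one joins the left and the right side, the other one the bottom and the
top. -/
theorem cross_bx {L : Lat} {m : ℤ} {P P' : Set Pt} (hP : L.Con P) (hP' : L.Con P')
    (hPm : P ⊆ bx m) (hPm' : P' ⊆ bx m) (h1 : ∃ v ∈ P, v.1 = -m) (h2 : ∃ v ∈ P, v.1 = m)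
    (h3 : ∃ v ∈ P', v.2 = -m) (h4 : ∃ v ∈ P', v.2 = m) : (P ∩ P').Nonempty := by
  have hb : bx m ⊆ rect (-m) m (-m) m := by
    intro v hv
    have h5 : max |v.1| |v.2| ≤ m := hv
    have h6 := abs_le.1 ((le_max_left _ _).trans h5)
    have h7 := abs_le.1 ((le_max_right _ _).trans h5)
    exact ⟨h6, h7⟩
  exact Lat.cross hP hP' (hPm.trans hb) (hPm'.trans hb) h1 h2 h3 h4

/-- Sites of `Je s R` are at the end `2 R` of the direction `s`. -/
theorem Je_end {R : ℤ} {v : Pt} : (v ∈ Je 0 R → v.1 = 2 * R) ∧ (v ∈ Je 1 R → v.2 = 2 * R) ∧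
    (v ∈ Je 2 R → v.1 = -(2 * R)) ∧ (v ∈ Je 3 R → v.2 = -(2 * R)) := by
  rw [Je_eq, Je_eq, Je_eq, Je_eq, mem_Zn0, mem_Zn1, mem_Zn2, mem_Zn3]
  refine ⟨?_, ?_, ?_, ?_⟩ <;> rintro ⟨h1, h2, -, -⟩ <;> omega

private theorem se21_nrm_tri (u v : Pt) : nrm u ≤ nrm v + nrm (u - v) := by
  have h1 : |u.1| ≤ |v.1| + |u.1 - v.1| := by
    have h := abs_add_le v.1 (u.1 - v.1)
    rwa [add_sub_cancel] at h
  have h2 : |u.2| ≤ |v.2| + |u.2 - v.2| := by
    have h := abs_add_le v.2 (u.2 - v.2)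
    rwa [add_sub_cancel] at h
  show max |u.1| |u.2| ≤ max |v.1| |v.2| + max |u.1 - v.1| |u.2 - v.2|
  have h3 := le_max_left |v.1| |v.2|
  have h4 := le_max_right |v.1| |v.2|
  have h5 := le_max_left |u.1 - v.1| |u.2 - v.2|
  have h6 := le_max_right |u.1 - v.1| |u.2 - v.2|
  exact max_le (by omega) (by omega)

private theorem se21_nrm_sub_comm (u v : Pt) : nrm (u - v) = nrm (v - u) := by
  show max |u.1 - v.1| |u.2 - v.2| = max |v.1 - u.1| |v.2 - u.2|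
  rw [abs_sub_comm u.1, abs_sub_comm u.2]

private theorem se21_nrm_sub_le (u v : Pt) : nrm (u - v) ≤ nrm u + nrm v := by
  have h := se21_nrm_tri (u - v) (-v)
  have e1 : u - v - -v = u := by rw [sub_neg_eq_add, sub_add_cancel]
  have e2 : nrm (-v) = nrm v := by
    show max |-v.1| |-v.2| = max |v.1| |v.2|
    rw [abs_neg, abs_neg]
  rw [e1, e2] at h
  omega

/-- a site of the inner side of an inner zone is next to `bx (r / 2)` -/
private theorem se21_Ks_adj {L : Lat} {s r : ℤ} (hr : 16 ≤ r) {v : Pt} (hv : v ∈ Ks s r) :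
    ∃ u ∈ bx (r / 2), L.Adj u v := by
  have hs : s % 4 = 0 ∨ s % 4 = 1 ∨ s % 4 = 2 ∨ s % 4 = 3 := by omega
  rw [Ks_eq] at hv
  rcases hs with hs | hs | hs | hs
  · rw [Zn_mod (s' := 0) (by omega), mem_Zn0] at hv
    obtain ⟨h1, h2, h3, h4⟩ := hv
    refine ⟨(v.1 - 1, v.2), ?_, Lat.adj_of_nn ?_⟩
    · show max |v.1 - 1| |v.2| ≤ r / 2
      exact max_le (abs_le.2 ⟨by omega, by omega⟩) (abs_le.2 ⟨by omega, by omega⟩)
    · show |v.1 - 1 - v.1| + |v.2 - v.2| = 1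
      have e1 : v.1 - 1 - v.1 = -1 := by omega
      have e2 : v.2 - v.2 = 0 := by omega
      rw [e1, e2]
      norm_num
  · rw [Zn_mod (s' := 1) (by omega), mem_Zn1] at hv
    obtain ⟨h1, h2, h3, h4⟩ := hv
    refine ⟨(v.1, v.2 - 1), ?_, Lat.adj_of_nn ?_⟩
    · show max |v.1| |v.2 - 1| ≤ r / 2
      exact max_le (abs_le.2 ⟨by omega, by omega⟩) (abs_le.2 ⟨by omega, by omega⟩)
    · show |v.1 - v.1| + |v.2 - 1 - v.2| = 1
      have e1 : v.2 - 1 - v.2 = -1 := by omega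
      have e2 : v.1 - v.1 = 0 := by omega
      rw [e1, e2]
      norm_num
  · rw [Zn_mod (s' := 2) (by omega), mem_Zn2] at hv
    obtain ⟨h1, h2, h3, h4⟩ := hv
    refine ⟨(v.1 + 1, v.2), ?_, Lat.adj_of_nn ?_⟩
    · show max |v.1 + 1| |v.2| ≤ r / 2
      exact max_le (abs_le.2 ⟨by omega, by omega⟩) (abs_le.2 ⟨by omega, by omega⟩)
    · show |v.1 + 1 - v.1| + |v.2 - v.2| = 1
      have e1 : v.1 + 1 - v.1 = 1 := by omega
      have e2 : v.2 - v.2 = 0 := by omega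
      rw [e1, e2]
      norm_num
  · rw [Zn_mod (s' := 3) (by omega), mem_Zn3] at hv
    obtain ⟨h1, h2, h3, h4⟩ := hv
    refine ⟨(v.1, v.2 + 1), ?_, Lat.adj_of_nn ?_⟩
    · show max |v.1| |v.2 + 1| ≤ r / 2
      exact max_le (abs_le.2 ⟨by omega, by omega⟩) (abs_le.2 ⟨by omega, by omega⟩)
    · show |v.1 - v.1| + |v.2 + 1 - v.2| = 1
      have e1 : v.2 + 1 - v.2 = 1 := by omega
      have e2 : v.1 - v.1 = 0 := by omega
      rw [e1, e2]
      norm_num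

/-- the domain of the arms of colour `c` lies in `bx (2 R) \ bx (r / 2)` -/
private theorem se21_dom {c : Bool} {r R : ℤ} (hr : 16 ≤ r) (hR : r ≤ R) {v : Pt}
    (hv : v ∈ ann r R ∪ Jc c R ∪ Kc c r) : r / 2 < nrm v ∧ nrm v ≤ 2 * R := by
  rcases hv with (hv | hv) | hv
  · obtain ⟨h1, h2⟩ := hv
    omega
  · have := Jc_nrm (by omega) hv
    omega
  · have := Kc_nrm (by omega) hv
    omega

/-- the other colour: `bx (r / 2)` together with the two arms is connected and joins the two sides -/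
private theorem se21_other {L : Lat} {c : Bool} {r R : ℤ} {ω : Cfg} (hr : 16 ≤ r) (hR : r ≤ R)
    (h : L.Pairs c r R ω) : ∃ P : Set Pt, L.Con P ∧ P ⊆ bx (2 * R) ∧
      (∀ v ∈ P, v ∈ L.col c ω ∨ nrm v ≤ r / 2) ∧ (∃ v ∈ P, v ∈ Je (dc c) R) ∧
      ∃ v ∈ P, v ∈ Je (dc c + 2) R := by
  obtain ⟨x₁, hx₁, x₂, hx₂, y₁, y₂, hc₁, hc₂, hy⟩ : ∃ x₁ ∈ Ks (dc c) r, ∃ x₂ ∈ Ks (dc c + 2) r,
      ∃ y₁ y₂, L.Cn ((ann r R ∪ Jc c R ∪ Kc c r) ∩ L.col c ω) x₁ y₁ ∧
        L.Cn ((ann r R ∪ Jc c R ∪ Kc c r) ∩ L.col c ω) x₂ y₂ ∧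
        ((y₁ ∈ Je (dc c) R ∧ y₂ ∈ Je (dc c + 2) R) ∨
          (y₁ ∈ Je (dc c + 2) R ∧ y₂ ∈ Je (dc c) R)) := by
    rcases h with ⟨⟨x₁, h1, y₁, h2, h3⟩, x₂, h4, y₂, h5, h6⟩ | ⟨⟨x₁, h1, y₁, h2, h3⟩, x₂, h4, y₂, h5, h6⟩
    · exact ⟨x₁, h1, x₂, h4, y₁, y₂, h3, h6, Or.inl ⟨h2, h5⟩⟩
    · exact ⟨x₁, h1, x₂, h4, y₁, y₂, h3, h6, Or.inr ⟨h2, h5⟩⟩
  obtain ⟨u₁, hu₁, ha₁⟩ := se21_Ks_adj (L := L) hr hx₁
  obtain ⟨u₂, hu₂, ha₂⟩ := se21_Ks_adj (L := L) hr hx₂
  have hcon1 : L.Con (bx (r / 2) ∪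
      {z | L.Cn ((ann r R ∪ Jc c R ∪ Kc c r) ∩ L.col c ω) x₁ z}) :=
    (Lat.con_bx _).union_adj (Lat.con_cluster _ _) hu₁ (Lat.Cn.refl hc₁.left) ha₁
  have hcon2 : L.Con (bx (r / 2) ∪
      {z | L.Cn ((ann r R ∪ Jc c R ∪ Kc c r) ∩ L.col c ω) x₁ z} ∪
      {z | L.Cn ((ann r R ∪ Jc c R ∪ Kc c r) ∩ L.col c ω) x₂ z}) :=
    hcon1.union_adj (Lat.con_cluster _ _) (Or.inl hu₂) (Lat.Cn.refl hc₂.left) ha₂
  refine ⟨_, hcon2, ?_, ?_, ?_, ?_⟩
  · rintro v ((hv | hv) | hv)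
    · have h1 : nrm v ≤ r / 2 := hv
      show nrm v ≤ 2 * R
      omega
    · exact (se21_dom hr hR (Lat.Cn.right hv).1).2
    · exact (se21_dom hr hR (Lat.Cn.right hv).1).2
  · rintro v ((hv | hv) | hv)
    · exact Or.inr hv
    · exact Or.inl (Lat.Cn.right hv).2
    · exact Or.inl (Lat.Cn.right hv).2
  · rcases hy with ⟨h1, -⟩ | ⟨-, h2⟩
    · exact ⟨y₁, Or.inl (Or.inr hc₁), h1⟩
    · exact ⟨y₂, Or.inr hc₂, h2⟩
  · rcases hy with ⟨-, h2⟩ | ⟨h1, -⟩
    · exact ⟨y₂, Or.inr hc₂, h2⟩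
    · exact ⟨y₁, Or.inl (Or.inr hc₁), h1⟩

/-- The two arms of colour `c` of `Pairs c r R`, together with a connected subset of the annulus `{r < nrm v ≤ R}` of colour `c` that
meets both of them, would form a connected set `P` of colour `c` in `bx (2R)` which joins the two sides of the directions
`dc c`, `dc c + 2`, and avoids `bx (r/2)`; the arms of the other colour and `bx (r / 2)` form a connected set `P'` (the first sites
of the arms are in `Ks`, next to `bx (r/2)`) that joins the other two sides.  `cross_bx`: they meet, impossible (a site of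
`P ∩ P'` is not in `bx (r/2)`, because `Kc c r` and the annulus are outside, so it has both colours).  Stated for arbitrary connected
`S ⊆ {v : r < nrm v ≤ R}` of colour `c`. -/
theorem Pairs_not {L : Lat} {c : Bool} {r R : ℤ} {ω : Cfg} (hr : 16 ≤ r) (hR : r ≤ R)
    (h' : L.Pairs (!c) r R ω) {x₁ y₁ x₂ y₂ : Pt} (hx₁ : x₁ ∈ Ks (dc c) r)
    (hx₂ : x₂ ∈ Ks (dc c + 2) r)
    (hy : (y₁ ∈ Je (dc c) R ∧ y₂ ∈ Je (dc c + 2) R) ∨ (y₁ ∈ Je (dc c + 2) R ∧ y₂ ∈ Je (dc c) R))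
    (h₁ : L.Cn ((ann r R ∪ Jc c R ∪ Kc c r) ∩ L.col c ω) x₁ y₁)
    (h₂ : L.Cn ((ann r R ∪ Jc c R ∪ Kc c r) ∩ L.col c ω) x₂ y₂) :
    ¬ L.Cn ((ann r R ∪ Jc c R ∪ Kc c r) ∩ L.col c ω) x₁ x₂ := by
  intro h
  obtain ⟨P', hP', hPm', hPc', hJ1, hJ2⟩ := se21_other hr hR h'
  have hP : L.Con {z | L.Cn ((ann r R ∪ Jc c R ∪ Kc c r) ∩ L.col c ω) x₁ z} := Lat.con_cluster _ _
  have hPm : {z | L.Cn ((ann r R ∪ Jc c R ∪ Kc c r) ∩ L.col c ω) x₁ z} ⊆ bx (2 * R) :=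
    fun v hv => (se21_dom hr hR (Lat.Cn.right hv).1).2
  have hI1 : ∃ v ∈ {z | L.Cn ((ann r R ∪ Jc c R ∪ Kc c r) ∩ L.col c ω) x₁ z},
      v ∈ Je (dc c) R := by
    rcases hy with ⟨h1, -⟩ | ⟨-, h2⟩
    · exact ⟨y₁, h₁, h1⟩
    · exact ⟨y₂, h.trans h₂, h2⟩
  have hI2 : ∃ v ∈ {z | L.Cn ((ann r R ∪ Jc c R ∪ Kc c r) ∩ L.col c ω) x₁ z},
      v ∈ Je (dc c + 2) R := by
    rcases hy with ⟨-, h2⟩ | ⟨h1, -⟩
    · exact ⟨y₂, h.trans h₂, h2⟩
    · exact ⟨y₁, h₁, h1⟩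
  have hmeet : ({z | L.Cn ((ann r R ∪ Jc c R ∪ Kc c r) ∩ L.col c ω) x₁ z} ∩ P').Nonempty := by
    cases c
    · obtain ⟨a1, m1, b1⟩ := hI1
      obtain ⟨a2, m2, b2⟩ := hI2
      obtain ⟨a3, m3, b3⟩ := hJ1
      obtain ⟨a4, m4, b4⟩ := hJ2
      have h5 := cross_bx hP' hP hPm' hPm ⟨a4, m4, Je_end.2.2.1 b4⟩ ⟨a3, m3, Je_end.1 b3⟩
        ⟨a2, m2, Je_end.2.2.2 b2⟩ ⟨a1, m1, Je_end.2.1 b1⟩
      obtain ⟨z, hz1, hz2⟩ := h5
      exact ⟨z, hz2, hz1⟩
    · obtain ⟨a1, m1, b1⟩ := hI1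
      obtain ⟨a2, m2, b2⟩ := hI2
      obtain ⟨a3, m3, b3⟩ := hJ1
      obtain ⟨a4, m4, b4⟩ := hJ2
      exact cross_bx hP hP' hPm hPm' ⟨a2, m2, Je_end.2.2.1 b2⟩ ⟨a1, m1, Je_end.1 b1⟩
        ⟨a4, m4, Je_end.2.2.2 b4⟩ ⟨a3, m3, Je_end.2.1 b3⟩
  obtain ⟨z, hz1, hz2⟩ := hmeet
  have hz3 := Lat.Cn.right hz1
  rcases hPc' z hz2 with h5 | h5
  · have h6 : L.st ω z = c := hz3.2
    have h7 : L.st ω z = !c := h5
    rw [h6] at h7
    cases c <;> exact absurd h7 (by decide)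
  · have := (se21_dom hr hR hz3.1).1
    omega

/-- `TwoAt` in terms of `L` (unfold `TwoAt`, `TwoA`; `shift_cn`, `Tr.two` for `tr_shift`): two paths in the annulus around `x`. -/
theorem TwoAt_iff (L : Lat) (c : Bool) (x : Pt) (r R : ℤ) (ω : Cfg) :
    L.TwoAt c x r R ω ↔ L.Two c {v | r < nrm (v - x) ∧ nrm (v - x) ≤ R}
      (L.nb {v | nrm (v - x) ≤ r}) {v | nrm (v - x) = R} ω := by
  have key : ∀ B : Set Pt, (Equiv.addRight x : Equiv.Perm Pt) '' B = {v | v - x ∈ B} := by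
    intro B
    ext v
    constructor
    · rintro ⟨w, hw, rfl⟩
      show w + x - x ∈ B
      rw [add_sub_cancel_right]
      exact hw
    · intro hv
      exact ⟨v - x, hv, sub_add_cancel v x⟩
  unfold Lat.TwoAt Lat.TwoA
  rw [(tr_shift L x).two, (tr_shift L x).nb, key, key, key]
  exact Iff.rfl

/-- The two arms of colour `c` of `S4 r R` (`x_i` to `y_i`).  Let `Q_i` be the cluster `{z : x_i is joined to z in the domain}`
(`con_cluster`).  `x_i` is in `bx r ⊆ {nrm (v - x) ≤ r₁}` and `y_i` is outside `{nrm (v - x) ≤ R₁} ⊆ bx R`.  So `Q_i` contains a path from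
`p_i ∈ nb {nrm (v - x) ≤ r₁}` to `w_i`, `nrm (w_i - x) = R₁`, in the annulus around `x` (`Cn.crossing` for `L.shift x`, or `Cn.last` and the
first site with `nrm (v - x) = R₁`).  If `p₁`, `p₂` were joined in the annulus around `x` in colour `c`, then `x₁` and `x₂` would be joined in
`ann r R ∪ Jc c R ∪ Kc c r` (the annulus around `x` is contained in `ann r R`), contradiction to `Pairs_not`. -/
theorem S4_twoAt_x {L : Lat} {c : Bool} {r R r₁ R₁ d : ℤ} {x : Pt} {ω : Cfg} (h : L.S4 r R ω)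
    (hr : 16 ≤ r) (hd : nrm x ≤ d) (h1 : r + d ≤ r₁) (h2 : r₁ < R₁) (h3 : R₁ + d ≤ R) :
    L.TwoAt c x r₁ R₁ ω := by
  have hx0 : 0 ≤ nrm x := (abs_nonneg x.1).trans (le_max_left _ _)
  have hP : L.Pairs c r R ω := by
    cases c
    · exact h.2
    · exact h.1
  have hP' : L.Pairs (!c) r R ω := by
    cases c
    · exact h.1
    · exact h.2
  have hKs : ∀ s u, u ∈ Ks s r → nrm u ≤ r := by
    intro s u hu
    have h5 := Zn_nrm (s := s) (a := r / 2 + 1) (b := r / 2 + 1) (h := r / 8) (by omega)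
      (by omega) hu
    omega
  have hJe : ∀ s u, u ∈ Je s R → 2 * R ≤ nrm u := by
    intro s u hu
    exact (Zn_nrm (s := s) (a := 2 * R) (b := 2 * R) (h := R / 4) (by omega) (by omega) hu).1
  have key : ∀ u v, nrm u ≤ r → 2 * R ≤ nrm v →
      L.Cn ((ann r R ∪ Jc c R ∪ Kc c r) ∩ L.col c ω) u v →
      ∃ p w, p ∈ L.nb {z | nrm (z - x) ≤ r₁} ∧ nrm (w - x) = R₁ ∧
        L.Cn ({z | r₁ < nrm (z - x) ∧ nrm (z - x) ≤ R₁} ∩ L.col c ω) p w ∧
        L.Cn ((ann r R ∪ Jc c R ∪ Kc c r) ∩ L.col c ω) u p := by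
    intro u v hu hv hc
    have hQ : L.Cn {z | L.Cn ((ann r R ∪ Jc c R ∪ Kc c r) ∩ L.col c ω) u z} u v :=
      Lat.con_cluster _ _ u (Lat.Cn.refl hc.left) v hc
    have T := tr_shift L x
    have h5 : (L.shift x).Cn ((Equiv.addRight x : Equiv.Perm Pt) ⁻¹'
        {z | L.Cn ((ann r R ∪ Jc c R ∪ Kc c r) ∩ L.col c ω) u z}) (u - x) (v - x) := by
      rw [T.cn, Equiv.image_preimage]
      have e1 : (Equiv.addRight x : Equiv.Perm Pt) (u - x) = u := sub_add_cancel u x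
      have e2 : (Equiv.addRight x : Equiv.Perm Pt) (v - x) = v := sub_add_cancel v x
      rw [e1, e2]
      exact hQ
    have h6 := se21_nrm_sub_le u x
    have h7 := se21_nrm_tri v x
    obtain ⟨p, w, hp, hw, hpw⟩ := Lat.Cn.crossing (r := r₁) (m := R₁) (by omega) h2 h5
      (Or.inl (by omega)) (by omega)
    have hpx : (Equiv.addRight x : Equiv.Perm Pt) p = p + x := rfl
    have hwx : (Equiv.addRight x : Equiv.Perm Pt) w = w + x := rfl
    refine ⟨p + x, w + x, ?_, ?_, ?_, ?_⟩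
    · have h8 : (Equiv.addRight x : Equiv.Perm Pt) p ∈
          L.nb ((Equiv.addRight x : Equiv.Perm Pt) '' bx r₁) := by
        rw [← T.nb]
        exact Set.mem_image_of_mem _ hp
      obtain ⟨z, ⟨z', hz', rfl⟩, hadj⟩ := h8
      refine ⟨_, ?_, hadj⟩
      show nrm (z' + x - x) ≤ r₁
      rw [add_sub_cancel_right]
      exact hz'
    · rw [add_sub_cancel_right]
      exact hw
    · rw [T.cn, hpx, hwx] at hpw
      refine hpw.mono ?_
      rintro _ ⟨z, ⟨hz1, hz2⟩, rfl⟩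
      have hz3 : L.Cn ((ann r R ∪ Jc c R ∪ Kc c r) ∩ L.col c ω) u (z + x) := hz1
      refine ⟨?_, (Lat.Cn.right hz3).2⟩
      show r₁ < nrm (z + x - x) ∧ nrm (z + x - x) ≤ R₁
      rw [add_sub_cancel_right]
      exact hz2
    · exact hpw.left.1
  obtain ⟨x₁, hx₁, x₂, hx₂, y₁, y₂, hc₁, hc₂, hy⟩ : ∃ x₁ ∈ Ks (dc c) r, ∃ x₂ ∈ Ks (dc c + 2) r,
      ∃ y₁ y₂, L.Cn ((ann r R ∪ Jc c R ∪ Kc c r) ∩ L.col c ω) x₁ y₁ ∧
        L.Cn ((ann r R ∪ Jc c R ∪ Kc c r) ∩ L.col c ω) x₂ y₂ ∧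
        ((y₁ ∈ Je (dc c) R ∧ y₂ ∈ Je (dc c + 2) R) ∨
          (y₁ ∈ Je (dc c + 2) R ∧ y₂ ∈ Je (dc c) R)) := by
    rcases hP with ⟨⟨x₁, g1, y₁, g2, g3⟩, x₂, g4, y₂, g5, g6⟩ | ⟨⟨x₁, g1, y₁, g2, g3⟩, x₂, g4, y₂, g5, g6⟩
    · exact ⟨x₁, g1, x₂, g4, y₁, y₂, g3, g6, Or.inl ⟨g2, g5⟩⟩
    · exact ⟨x₁, g1, x₂, g4, y₁, y₂, g3, g6, Or.inr ⟨g2, g5⟩⟩
  have hy₁ : 2 * R ≤ nrm y₁ := by
    rcases hy with ⟨g, -⟩ | ⟨g, -⟩
    · exact hJe _ _ g
    · exact hJe _ _ g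
  have hy₂ : 2 * R ≤ nrm y₂ := by
    rcases hy with ⟨-, g⟩ | ⟨-, g⟩
    · exact hJe _ _ g
    · exact hJe _ _ g
  obtain ⟨p₁, w₁, hp₁, hw₁, hpw₁, hxp₁⟩ := key x₁ y₁ (hKs _ _ hx₁) hy₁ hc₁
  obtain ⟨p₂, w₂, hp₂, hw₂, hpw₂, hxp₂⟩ := key x₂ y₂ (hKs _ _ hx₂) hy₂ hc₂
  rw [TwoAt_iff]
  refine ⟨p₁, hp₁, w₁, hw₁, p₂, hp₂, w₂, hw₂, hpw₁, hpw₂, fun hpp => ?_⟩
  refine Pairs_not hr (by omega) hP' hx₁ hx₂ hy hc₁ hc₂ ?_
  refine (hxp₁.trans (hpp.mono ?_)).trans hxp₂.symm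
  rintro z ⟨⟨hz1, hz2⟩, hz3⟩
  refine ⟨Or.inl (Or.inl ⟨?_, ?_⟩), hz3⟩
  · have h8 := se21_nrm_sub_le z x
    omega
  · have h8 := se21_nrm_tri z x
    omega

/-- `TwoAt` for the origin -/
theorem TwoAt_zero (L : Lat) (c : Bool) (r R : ℤ) (ω : Cfg) :
    L.TwoAt c 0 r R ω ↔ L.TwoA c r R ω := by
  rw [TwoAt_iff]
  simp only [sub_zero]
  exact Iff.rfl

theorem TwoAt_loc (L : Lat) (c : Bool) (x : Pt) (r R : ℤ) : Loc (L.TwoAt c x r R) := by
  have h1 : L.TwoAt c x r R = L.Two c {v | r < nrm (v - x) ∧ nrm (v - x) ≤ R}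
      (L.nb {v | nrm (v - x) ≤ r}) {v | nrm (v - x) = R} :=
    funext fun ω => propext (TwoAt_iff L c x r R ω)
  rw [h1]
  refine Lat.Two.loc L c _ _ _ ?_
  obtain ⟨G, hG⟩ := exists_annF r R
  have h2 : {v : Pt | r < nrm (v - x) ∧ nrm (v - x) ≤ R} = (fun v => v - x) ⁻¹' (G : Set Pt) := by
    ext v
    rw [Set.mem_preimage, Finset.mem_coe, hG]
    exact Iff.rfl
  rw [h2]
  exact G.finite_toSet.preimage (sub_left_injective.injOn)

/-- the annulus `ann r R` is empty for `R ≤ r` -/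
theorem TwoA_false (L : Lat) (c : Bool) {r R : ℤ} (h : R ≤ r) (ω : Cfg) :
    ¬ L.TwoA c r R ω := by
  rintro ⟨u, -, v, -, -, -, -, -, h1, -, -⟩
  obtain ⟨⟨h2, h3⟩, -⟩ := h1.left
  omega

end SC

end

/-! ### from `Lib_MP_e0a489.HP2` -/

section

/-!
# MP_e0a489, module HP 2: the three arms of the half plane event
-/

set_option autoImplicit false

namespace SC

open Classical

/-- Upper half of the ring, without its two lowest sites.  `idx_side`: `i = 2 m s + k`, `|k| ≤ m`, and `rc m i = rt s (m, k)` (`rc_side`).  `0 < i < 4 m` leaves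
`s = 0` (`k > 0`, second coordinate `k`), `s = 1` (second coordinate `m`), `s = 2` (`k < 0`, second coordinate `-k`); `rt_zero`, `rt_one`,
`rt_two`. -/
theorem rc_up {m i : ℤ} (hm : 1 ≤ m) (h0 : 0 < i) (h1 : i < 4 * m) : 1 ≤ (rc m i).2 := by
  obtain ⟨s, k, hk, rfl⟩ := idx_side hm i
  rw [abs_le] at hk
  rw [rc_side hm (abs_le.2 hk)]
  have hs0 : 0 ≤ s := by
    by_contra hs
    have h2 : m * s ≤ m * (-1) := mul_le_mul_of_nonneg_left (by omega) (by omega)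
    nlinarith
  have hs2 : s ≤ 2 := by
    by_contra hs
    have h2 : m * 3 ≤ m * s := mul_le_mul_of_nonneg_left (by omega) (by omega)
    nlinarith
  obtain rfl | rfl | rfl : s = 0 ∨ s = 1 ∨ s = 2 := by omega
  · rw [rt_zero]
    show 1 ≤ k
    omega
  · rw [rt_one]
    exact hm
  · rw [rt_two]
    show 1 ≤ -k
    omega

/-- Lower half: `s = 2` (`k > 0`, second coordinate `-k`), `s = 3` (second coordinate `-m`), `s = 4` (`k < 0`, `rt 4 = rt 0`, second coordinate `k`). -/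
theorem rc_low {m i : ℤ} (hm : 1 ≤ m) (h0 : 4 * m < i) (h1 : i < 8 * m) : (rc m i).2 ≤ -1 := by
  obtain ⟨s, k, hk, rfl⟩ := idx_side hm i
  rw [abs_le] at hk
  rw [rc_side hm (abs_le.2 hk)]
  have hs0 : 2 ≤ s := by
    by_contra hs
    have h2 : m * s ≤ m * 1 := mul_le_mul_of_nonneg_left (by omega) (by omega)
    nlinarith
  have hs2 : s ≤ 4 := by
    by_contra hs
    have h2 : m * 5 ≤ m * s := mul_le_mul_of_nonneg_left (by omega) (by omega)
    nlinarith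
  obtain rfl | rfl | rfl : s = 2 ∨ s = 3 ∨ s = 4 := by omega
  · rw [rt_two]
    show -k ≤ -1
    omega
  · rw [rt_three]
    show -m ≤ -1
    omega
  · rw [show (4 : ℤ) = 0 + 4 by norm_num, rt_four, rt_zero]
    show k ≤ -1
    omega

/-- `rc_surj` with `a = 0` and `rc_low` -/
theorem rc_of_up {m : ℤ} (hm : 1 ≤ m) {v : Pt} (hv : nrm v = m) (h : 0 ≤ v.2) :
    ∃ i, 0 ≤ i ∧ i ≤ 4 * m ∧ rc m i = v := by
  obtain ⟨i, hi0, hi1, hi⟩ := rc_surj hm hv 0
  refine ⟨i, hi0, ?_, hi⟩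
  by_contra hcon
  have h1 := rc_low hm (i := i) (by omega) (by omega)
  rw [hi] at h1
  omega

/-- `rc_surj` with `a = 0`, `rc_up`; `rc m 0 = (m, 0)`, `rc m (4 m) = (-m, 0)` (`rc_side`). -/
theorem rc_of_low {m : ℤ} (hm : 1 ≤ m) {v : Pt} (hv : nrm v = m) (h : v.2 ≤ -1) :
    ∃ i, 4 * m < i ∧ i < 8 * m ∧ rc m i = v := by
  obtain ⟨i, hi0, hi1, hi⟩ := rc_surj hm hv 0
  refine ⟨i, ?_, by omega, hi⟩
  by_contra hcon
  rcases (show i = 0 ∨ i = 4 * m ∨ (0 < i ∧ i < 4 * m) by omega) with h1 | h1 | h1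
  · have h2 : rc m (2 * m * 0 + 0) = rt 0 (m, 0) := rc_side hm (by rw [abs_zero]; omega)
    rw [rt_zero, show 2 * m * 0 + 0 = i by omega, hi] at h2
    rw [h2] at h
    exact absurd h (by norm_num)
  · have h2 : rc m (2 * m * 2 + 0) = rt 2 (m, 0) := rc_side hm (by rw [abs_zero]; omega)
    rw [rt_two, show 2 * m * 2 + 0 = i by omega, hi] at h2
    rw [h2] at h
    exact absurd h (by norm_num)
  · have h2 := rc_up hm h1.1 h1.2
    rw [hi] at h2
    omega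

namespace Lat

variable {L : Lat}

private theorem hp2_mem_ann {r R : ℤ} {v : Pt} : v ∈ ann r R ↔
    (r < v.1 ∨ v.1 < -r ∨ r < v.2 ∨ v.2 < -r) ∧ (-R ≤ v.1 ∧ v.1 ≤ R) ∧ -R ≤ v.2 ∧ v.2 ≤ R := by
  show (r < max |v.1| |v.2| ∧ max |v.1| |v.2| ≤ R) ↔ _
  rw [lt_max_iff, max_le_iff, abs_le, abs_le, lt_abs, lt_abs]
  omega

private theorem hp2_mem_bx {r : ℤ} {v : Pt} : v ∈ bx r ↔
    (-r ≤ v.1 ∧ v.1 ≤ r) ∧ -r ≤ v.2 ∧ v.2 ≤ r := by
  show max |v.1| |v.2| ≤ r ↔ _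
  rw [max_le_iff, abs_le, abs_le]

private theorem hp2_middle {L : Lat} {c : Bool} {H : Set Pt} {r R : ℤ} {ω : Cfg} (hr : 1 ≤ r)
    (hR : r < R) (hH : HalfLike H) {x x' : Pt} {i i' : ℤ} (hx : x ∈ L.nb (bx r))
    (hx' : x' ∈ L.nb (bx r)) (h0 : 0 ≤ i) (hii : i < i') (h4 : i' ≤ 4 * R)
    (hxy : L.Cn (ann r R ∩ H ∩ L.col c ω) x (rc R i))
    (hxy' : L.Cn (ann r R ∩ H ∩ L.col c ω) x' (rc R i'))
    (hn : ¬ L.Cn (ann r R ∩ H ∩ L.col c ω) x x') :
    ∃ k, i < k ∧ k < i' ∧ ∃ x₂ ∈ L.nb (bx r),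
      L.Cn (ann r R ∩ H ∩ L.col (!c) ω) x₂ (rc R k) := by
  obtain ⟨hH1, hH2⟩ := hH
  set I₀ : Set Pt := rect (-r) r 0 r with hI₀
  set U : Set Pt := {v | v.2 = 0 ∧ (-R ≤ v.1 ∧ v.1 ≤ R) ∧ ((-r ≤ v.1 ∧ v.1 ≤ r) ∨ v ∈ H)} with hUdef
  set M : Set Pt := rect (-R) R 1 R ∪ U with hMdef
  have hIm : ∀ v : Pt, v ∈ I₀ ↔ (-r ≤ v.1 ∧ v.1 ≤ r) ∧ 0 ≤ v.2 ∧ v.2 ≤ r := fun _ => Iff.rfl
  have hRm : ∀ v : Pt, v ∈ rect (-R) R 1 R ↔ (-R ≤ v.1 ∧ v.1 ≤ R) ∧ 1 ≤ v.2 ∧ v.2 ≤ R :=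
    fun _ => Iff.rfl
  have hUm : ∀ v : Pt, v ∈ U ↔
      v.2 = 0 ∧ (-R ≤ v.1 ∧ v.1 ≤ R) ∧ ((-r ≤ v.1 ∧ v.1 ≤ r) ∨ v ∈ H) := fun _ => Iff.rfl
  have hH0 : ∀ v : Pt, v ∈ H → 0 ≤ v.2 := fun v hv => hH2 hv
  have hHH : ∀ v : Pt, 1 ≤ v.2 → v ∈ H := fun v hv => hH1 hv
  have hUr : U ⊆ rect (-R) R 0 0 := by
    intro v hv
    rw [hUm] at hv
    exact ⟨hv.2.1, by omega, by omega⟩
  have hIM : I₀ ⊆ M := by
    intro v hv
    rw [hIm] at hv
    by_cases h2 : 1 ≤ v.2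
    · left
      rw [hRm]
      omega
    · right
      rw [hUm]
      exact ⟨by omega, by omega, Or.inl hv.1⟩
  have hMI : M \ I₀ = ann r R ∩ H := by
    ext v
    constructor
    · rintro ⟨hv | hv, hvI⟩
      · rw [hRm] at hv
        rw [hIm] at hvI
        refine ⟨?_, hHH v hv.2.1⟩
        rw [hp2_mem_ann]
        omega
      · rw [hUm] at hv
        rw [hIm] at hvI
        refine ⟨?_, ?_⟩
        · rw [hp2_mem_ann]
          have := hv.1
          have := hv.2.1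
          omega
        · rcases hv.2.2 with h | h
          · exact absurd ⟨h, by omega, by omega⟩ hvI
          · exact h
    · rintro ⟨hv, hvH⟩
      rw [hp2_mem_ann] at hv
      have h2 := hH0 v hvH
      refine ⟨?_, ?_⟩
      · by_cases h3 : 1 ≤ v.2
        · left
          rw [hRm]
          omega
        · right
          rw [hUm]
          exact ⟨by omega, by omega, Or.inr hvH⟩
      · rw [hIm]
        omega
  have hnb : ∀ z ∈ L.nb (bx r), z ∈ ann r R ∩ H → z ∈ L.nb I₀ := by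
    rintro z ⟨u, hu, huz⟩ ⟨hz, hzH⟩
    have h1 := huz.near
    have h2 := hH0 z hzH
    rw [abs_le, abs_le] at h1
    rw [hp2_mem_bx] at hu
    rw [hp2_mem_ann] at hz
    by_cases h3 : 0 ≤ u.2
    · refine ⟨u, ?_, huz⟩
      rw [hIm]
      omega
    · by_cases h4 : r < z.1
      · refine ⟨(r, 0), ⟨⟨by simp only []; omega, le_refl _⟩, le_refl _, by simp only []; omega⟩, ?_⟩
        refine adj_of_nn ?_
        have e1 : r - z.1 = -1 := by omega
        have e2 : 0 - z.2 = 0 := by omega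
        show |r - z.1| + |0 - z.2| = 1
        rw [e1, e2]
        norm_num
      · refine ⟨(-r, 0), ⟨⟨le_refl _, by simp only []; omega⟩, le_refl _, by simp only []; omega⟩, ?_⟩
        refine adj_of_nn ?_
        have e1 : -r - z.1 = 1 := by omega
        have e2 : 0 - z.2 = 0 := by omega
        show |-r - z.1| + |0 - z.2| = 1
        rw [e1, e2]
        norm_num
  have hR1 : 1 ≤ R := by omega
  have hΓM : arc R i i' ⊆ M := by
    rintro v ⟨k, hk1, hk2, rfl⟩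
    rcases (show k = i ∨ k = i' ∨ (0 < k ∧ k < 4 * R) by omega) with h | h | h
    · rw [h]
      have h1 : rc R i ∈ M \ I₀ := by
        rw [hMI]
        exact hxy.right.1
      exact h1.1
    · rw [h]
      have h1 : rc R i' ∈ M \ I₀ := by
        rw [hMI]
        exact hxy'.right.1
      exact h1.1
    · left
      have h1 := rc_up hR1 h.1 h.2
      have h2 : nrm (rc R k) = R := rc_nrm hR1
      have h3 : max |(rc R k).1| |(rc R k).2| ≤ R := h2.le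
      rw [max_le_iff, abs_le, abs_le] at h3
      rw [hRm]
      omega
  have hne : I₀.Nonempty :=
    ⟨(0, 0), ⟨by simp only []; omega, by simp only []; omega⟩, le_refl _, by simp only []; omega⟩
  have hcol : ∀ z, z ∈ L.col (!c) ω → z ∈ L.col c ω → False := by
    intro z h1 h2
    have h3 : L.st ω z = !c := h1
    have h4 : L.st ω z = c := h2
    rw [h4] at h3
    revert h3
    cases c <;> decide
  obtain ⟨z, ⟨k, hk1, hk2, rfl⟩, hz⟩ := dual_sep (L := L) (M := M) (In := I₀) (Γ := arc R i i')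
    (c := c) (ω := ω) (fun C _ => exact_row hR1 hUr C) (con_rect _ _ _ _) hne hIM
    (hnb x hx hxy.left.1) (hnb x' hx' hxy'.left.1) (by rw [hMI]; exact hxy)
    (by rw [hMI]; exact hxy') (by rw [hMI]; exact hn) (con_arc hR1 i i') hΓM
    ⟨i, le_refl _, hii.le, rfl⟩ ⟨i', hii.le, le_refl _, rfl⟩
  rcases hz with hz | ⟨u, ⟨w, hw, hwu⟩, huz⟩
  · exfalso
    rw [hIm] at hz
    have h2 : nrm (rc R k) = R := rc_nrm hR1
    have h3 : max |(rc R k).1| |(rc R k).2| ≤ r := by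
      rw [max_le_iff, abs_le, abs_le]
      omega
    have h4 : nrm (rc R k) ≤ r := h3
    omega
  · rw [hMI] at huz
    refine ⟨k, ?_, ?_, u, ⟨w, ?_, hwu⟩, huz⟩
    · refine lt_of_le_of_ne hk1 ?_
      rintro rfl
      exact hcol _ huz.right.2 hxy.right.2
    · refine lt_of_le_of_ne hk2 ?_
      rintro rfl
      exact hcol _ huz.right.2 hxy'.right.2
    · rw [hIm] at hw
      rw [hp2_mem_bx]
      omega

/-- THREE ARMS.  `Two` gives `x, x' ∈ nb (bx r)`, `y, y' ∈ rng R` with `Cn (ann r R ∩ H ∩ col c ω) x y`, the same for `x', y'`, and `x`, `x'` are not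
joined.  `y, y' ∈ H` have second coordinate `≥ 0`, so `y = rc R i`, `y' = rc R i'` with `0 ≤ i, i' ≤ 4 R` (`rc_of_up`), `i ≠ i'` (otherwise `x` and `x'` would be
joined); exchange the two arms if necessary so that `i < i'`.
Let `In = rect (-r) r 0 r` (connected, nonempty) and `M = rect (-R) R 1 R ∪ U` with `U = {v | v.2 = 0 ∧ |v.1| ≤ R ∧ (|v.1| ≤ r ∨ v ∈ H)}`.  `M` is exact for every
`C` (`exact_row`).  Because of `{1 ≤ v.2} ⊆ H ⊆ {0 ≤ v.2}` we have `In ⊆ M` and `M \ In = ann r R ∩ H`.  A site of `{0 ≤ v.2}` that is in `nb (bx r)` and not in `bx r` is in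
`nb In` (if its neighbour in `bx r` has second coordinate `-1`, the site is `(r + 1, 0)` or `(-r - 1, 0)` and has the neighbour `(r, 0)` or `(-r, 0)` in `In`); and
`nb In ⊆ nb (bx r)`.
`Γ = arc R i i'` is connected (`con_arc`), contains `y` and `y'`, and lies in `M \ In`: its sites have norm `R > r` and, for indices strictly between `0` and
`4 R`, second coordinate `≥ 1` (`rc_up`), so they are in `H`; index `0` or `4 R` occurs only for the ends `y`, `y' ∈ H`.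
`dual_sep` gives `z ∈ Γ` in `In ∪ cl (!c) (M \ In) In ω`; `z ∉ In`.  So `z = rc R k`, `i ≤ k ≤ i'`, is joined in `ann r R ∩ H ∩ col (!c) ω` to a site `x₂ ∈ nb In ⊆ nb (bx r)`
(reverse the path).  `z` has colour `!c`, so `k ≠ i`, `k ≠ i'`. -/
theorem TwoH_three {c : Bool} {H : Set Pt} {r R : ℤ} {ω : Cfg} (hr : 1 ≤ r) (hR : r < R)
    (hH : HalfLike H) (h : L.TwoH c H r R ω) :
    ∃ i₁ i₂ i₃ : ℤ, ∃ x₁ ∈ L.nb (bx r), ∃ x₂ ∈ L.nb (bx r), ∃ x₃ ∈ L.nb (bx r),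
      0 ≤ i₁ ∧ i₁ < i₂ ∧ i₂ < i₃ ∧ i₃ ≤ 4 * R ∧
      L.Cn (ann r R ∩ H ∩ L.col c ω) x₁ (rc R i₁) ∧
      L.Cn (ann r R ∩ H ∩ L.col (!c) ω) x₂ (rc R i₂) ∧
      L.Cn (ann r R ∩ H ∩ L.col c ω) x₃ (rc R i₃) ∧
      ¬ L.Cn (ann r R ∩ H ∩ L.col c ω) x₁ x₃ := by
  have hR1 : 1 ≤ R := by omega
  obtain ⟨x, hx, y, hy, x', hx', y', hy', hxy, hxy', hn⟩ := h
  obtain ⟨i, hi0, hi4, rfl⟩ := rc_of_up hR1 hy (hH.2 hxy.right.1.2)
  obtain ⟨i', hi0', hi4', rfl⟩ := rc_of_up hR1 hy' (hH.2 hxy'.right.1.2)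
  rcases lt_trichotomy i i' with hii | hii | hii
  · obtain ⟨k, hk1, hk2, x₂, hx₂, h2⟩ := hp2_middle hr hR hH hx hx' hi0 hii hi4' hxy hxy' hn
    exact ⟨i, k, i', x, hx, x₂, hx₂, x', hx', hi0, hk1, hk2, hi4', hxy, h2, hxy', hn⟩
  · rw [← hii] at hxy'
    exact absurd (hxy.trans hxy'.symm) hn
  · have hn' : ¬ L.Cn (ann r R ∩ H ∩ L.col c ω) x' x := fun h => hn h.symm
    obtain ⟨k, hk1, hk2, x₂, hx₂, h2⟩ := hp2_middle hr hR hH hx' hx hi0' hii hi4 hxy' hxy hn'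
    exact ⟨i', k, i, x', hx', x₂, hx₂, x, hx, hi0', hk1, hk2, hi4, hxy', h2, hxy, hn'⟩

end Lat

end SC

end

/-! ### from `Lib_MP_e0a489.HP3` -/

section

/-!
# MP_e0a489, module HP 3: probability of the half plane event, upper bound by three arms
-/

set_option autoImplicit false

namespace SC

open Classical

/-- monotone configurations: the same witnesses -/
theorem DO.inc (A B : Cfg → Prop) : Inc (DO A B) := by
  rintro ω ω' h ⟨K, K', h1, h2, h3, h4, h5⟩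
  have key : ∀ v, ω v = true → ω' v = true := by
    intro v hv
    have h6 := h v
    rw [hv] at h6
    exact top_le_iff.mp h6
  exact ⟨K, K', h1, fun v hv => key v (h2 v hv), fun v hv => key v (h3 v hv), h4, h5⟩

private theorem hp3_open {L : Lat} {D : Set Pt} (hD : D.Finite) {ω : Cfg} {x : Pt} :
    {v | L.Cn (D ∩ L.col true ω) x v} ⊆ D ∩ L.col true (cfgOf (hD.toFinset.filter
      (fun v => L.typ v = none ∧ L.Cn (D ∩ L.col true ω) x v))) := by
  intro v hv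
  have hv' : L.Cn (D ∩ L.col true ω) x v := hv
  have h1 := hv'.right
  refine ⟨h1.1, ?_⟩
  have h2 : L.st ω v = true := h1.2
  show L.st (cfgOf _) v = true
  unfold Lat.st at h2 ⊢
  cases h3 : L.typ v with
  | none =>
    show cfgOf _ v = true
    unfold cfgOf
    rw [decide_eq_true_eq, Finset.mem_filter, Set.Finite.mem_toFinset]
    exact ⟨h1.1, h3, hv'⟩
  | some b =>
    rw [h3] at h2
    exact h2

private theorem hp3_true {L : Lat} {D : Set Pt} (hD : D.Finite) {ω : Cfg} {x v : Pt}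
    (hv : v ∈ hD.toFinset.filter (fun v => L.typ v = none ∧ L.Cn (D ∩ L.col true ω) x v)) :
    ω v = true := by
  rw [Finset.mem_filter] at hv
  have h2 : L.st ω v = true := hv.2.2.right.2
  unfold Lat.st at h2
  rw [hv.2.1] at h2
  exact h2

private theorem hp3_fin (H : Set Pt) (r R : ℤ) : (ann r R ∩ H).Finite := by
  have h : ann r R ∩ H ⊆ Set.Icc (-R) R ×ˢ Set.Icc (-R) R := by
    rintro v ⟨⟨-, h1⟩, -⟩
    have h2 : max |v.1| |v.2| ≤ R := h1
    rw [max_le_iff, abs_le, abs_le] at h2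
    exact ⟨h2.1, h2.2⟩
  exact ((Set.finite_Icc _ _).prod (Set.finite_Icc _ _)).subset h

namespace Lat

/-- DISJOINT ARMS.  Let `x, y, x', y'` be as in `Two` (colour `true`), `A = D ∩ col true ω`, `P = {v | Cn A x v}`, `P' = {v | Cn A x' v}`: disjoint because `x`, `x'` are
not joined.  `K` = the fair sites (`L.typ v = none`) of `P`, `K'` = the fair sites of `P'` (finite, subsets of `D`), disjoint.  A fair site of colour `true` has
`ω v = true`.  Every site of `P` has colour `true` for the configuration `cfgOf K`: a fair one is in `K`, for another one the state is the fixed one, as in `ω`.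
So `P ⊆ D ∩ col true (cfgOf K)` and `x` is joined to `y` in `P` (`con_cluster`), that is `Arm true D X Y (cfgOf K)`; the same for `K'`. -/
theorem two_do (L : Lat) {D X Y : Set Pt} (hD : D.Finite) {ω : Cfg} (h : L.Two true D X Y ω) :
    DO (L.Arm true D X Y) (L.Arm true D X Y) ω := by
  obtain ⟨x, hx, y, hy, x', hx', y', hy', h1, h2, h3⟩ := h
  refine ⟨hD.toFinset.filter (fun v => L.typ v = none ∧ L.Cn (D ∩ L.col true ω) x v),
    hD.toFinset.filter (fun v => L.typ v = none ∧ L.Cn (D ∩ L.col true ω) x' v), ?_,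
    fun v hv => hp3_true hD hv, fun v hv => hp3_true hD hv, ?_, ?_⟩
  · rw [Finset.disjoint_left]
    intro v hv hv'
    exact h3 ((Finset.mem_filter.1 hv).2.2.trans (Finset.mem_filter.1 hv').2.2.symm)
  · exact ⟨x, hx, y, hy, (con_cluster (D ∩ L.col true ω) x x (Cn.refl h1.left) y h1).mono
      (hp3_open hD)⟩
  · exact ⟨x', hx', y', hy', (con_cluster (D ∩ L.col true ω) x' x' (Cn.refl h2.left) y' h2).mono
      (hp3_open hD)⟩

/-- `Two.loc`; `ann r R` is contained in a finite rectangle -/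
theorem TwoH.loc (L : Lat) (c : Bool) (H : Set Pt) (r R : ℤ) : Loc (L.TwoH c H r R) :=
  Two.loc L c _ _ _ (hp3_fin H r R)

private theorem hp3_aux (L : Lat) {H : Set Pt} {r R : ℤ} (hr : 1 ≤ r) (hR : r < R)
    (hH : HalfLike H) :
    pr (L.TwoH true H r R) ≤ pr (L.Arm true (ann r R ∩ H) (L.nb (bx r)) (rng R)) ^ 2 *
      pr (L.Arm false (ann r R ∩ H) (L.nb (bx r)) (rng R)) := by
  have hf := hp3_fin H r R
  have lA := Arm.loc L true (ann r R ∩ H) (L.nb (bx r)) (rng R) hf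
  have lB := Arm.loc L false (ann r R ∩ H) (L.nb (bx r)) (rng R) hf
  have mA : Inc (L.Arm true (ann r R ∩ H) (L.nb (bx r)) (rng R)) := Arm.mon L true _ _ _
  have mB : Dec (L.Arm false (ann r R ∩ H) (L.nb (bx r)) (rng R)) := Arm.mon L false _ _ _
  have lD := DO.loc mA mA lA lA
  have h1 : pr (L.TwoH true H r R) ≤ pr (fun ω =>
      DO (L.Arm true (ann r R ∩ H) (L.nb (bx r)) (rng R))
        (L.Arm true (ann r R ∩ H) (L.nb (bx r)) (rng R)) ω ∧
      L.Arm false (ann r R ∩ H) (L.nb (bx r)) (rng R) ω) := by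
    refine pr_mono (TwoH.loc L true H r R) (lD.and lB) fun ω hω => ⟨two_do L hf hω, ?_⟩
    obtain ⟨i₁, i₂, i₃, x₁, hx₁, x₂, hx₂, x₃, hx₃, -, -, -, -, -, h2, -⟩ :=
      TwoH_three hr hR hH hω
    exact ⟨x₂, hx₂, rc R i₂, rc_nrm (by omega), h2⟩
  have h2 := pr_harris_neg lD lB (DO.inc _ _) mB
  have h3 := bk lA lA mA mA
  have h4 := mul_le_mul_of_nonneg_right h3
    (pr_nonneg (L.Arm false (ann r R ∩ H) (L.nb (bx r)) (rng R)))
  rw [sq]
  exact h1.trans (h2.trans h4)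

private theorem hp3_sw (L : Lat) (c : Bool) {D : Set Pt} (hD : D.Finite) (X Y : Set Pt) :
    pr (L.sw.Arm c D X Y) = pr (L.Arm (!c) D X Y) := by
  rw [← pr_flip (Arm.loc L.sw c D X Y hD)]
  congr 1
  funext ω
  exact propext (sw_arm L c D X Y ω)

/-- Colour `true`: `TwoH ω` implies `DO (Arm true) (Arm true) ω` (`two_do`) and `Arm false` in the same domain (`TwoH_three`); `DO` is increasing, `Arm false` decreasing:
`pr_harris_neg` and `bk`.
Colour `false`: `L.Two false D X Y ω ↔ L.sw.Two true D X Y (fun v => ! ω v)` (`sw_two`), `L.sw.nb = L.nb`, so `pr (L.TwoH false ..) = pr (L.sw.TwoH true ..)`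
(`pr_flip`), and in the same way (`sw_arm`) `pr (L.sw.Arm c D X Y) = pr (L.Arm (!c) D X Y)`. -/
theorem pr_twoH_le (L : Lat) (c : Bool) {H : Set Pt} {r R : ℤ} (hr : 1 ≤ r) (hR : r < R)
    (hH : HalfLike H) :
    pr (L.TwoH c H r R) ≤ pr (L.Arm c (ann r R ∩ H) (L.nb (bx r)) (rng R)) ^ 2 *
      pr (L.Arm (!c) (ann r R ∩ H) (L.nb (bx r)) (rng R)) := by
  cases c with
  | true => exact hp3_aux L hr hR hH
  | false =>
    have hf := hp3_fin H r R
    have h1 := hp3_aux L.sw hr hR hH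
    have h2 : pr (L.sw.TwoH true H r R) = pr (L.TwoH false H r R) := by
      rw [← pr_flip (TwoH.loc L.sw true H r R)]
      congr 1
      funext ω
      exact propext (sw_two L true (ann r R ∩ H) (L.nb (bx r)) (rng R) ω)
    have h3 := hp3_sw L true hf (L.nb (bx r)) (rng R)
    have h4 := hp3_sw L false hf (L.nb (bx r)) (rng R)
    rw [h2] at h1
    have h5 : L.sw.nb (bx r) = L.nb (bx r) := rfl
    rw [h5, h3, h4] at h1
    exact h1

end Lat

end SC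

end

/-! ### from `Lib_MP_e0a489.HP5` -/

section

/-!
# MP_e0a489, module HP 5: half plane event and one arm below the line give the four arm event
-/

set_option autoImplicit false

namespace SC

open Classical

namespace Lat

variable {L : Lat}

/-- DETERMINISTIC INCLUSION.  `TwoH_three`: `i₁ < i₂ < i₃` in `[0, 4 R]`, `x₁, x₂, x₃`.  The arm below the line ends at `rc R i₄`, `4 R < i₄ < 8 R` (`rc_of_low`), and starts at
`x₄ ∈ nb (bx r)`.  The two arms for `TwoA` are `x₁, rc R i₁` and `x₃, rc R i₃` (`Cn.mono`).  Suppose `Cn (ann r R ∩ col c ω) x₁ x₃`.  Then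
`P = {v | Cn (ann r R ∩ col c ω) x₁ v}` is connected (`con_cluster`) and contains `rc R i₁`, `rc R i₃`.  Let
`P' = bx r ∪ {v | Cn (ann r R ∩ H ∩ col (!c) ω) x₂ v} ∪ {v | Cn (ann r R ∩ {v.2 ≤ -1} ∩ col (!c) ω) x₄ v}`, connected (`con_bx`, `Con.union_adj` twice), containing `rc R i₂`,
`rc R i₄`.  Both are in `bx R`.  `interlace_rc` (`i₄ < 8 R ≤ i₁ + 8 R`): a common site.  But the sites of `P` have colour `c` and norm `> r`, those of `P'` have colour `!c`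
or norm `≤ r`. -/
theorem TwoH_low {c : Bool} {H : Set Pt} {r R : ℤ} {ω : Cfg} (hr : 1 ≤ r) (hR : r < R)
    (hH : HalfLike H) (h : L.TwoH c H r R ω)
    (h' : L.Arm (!c) (ann r R ∩ {v | v.2 ≤ -1}) (L.nb (bx r)) (rng R) ω) :
    L.TwoA c r R ω := by
  have hR1 : 1 ≤ R := by omega
  obtain ⟨i₁, i₂, i₃, x₁, hx₁, x₂, hx₂, x₃, hx₃, h0, h12, h23, h34, c1, c2, c3, hn⟩ :=
    TwoH_three hr hR hH h
  obtain ⟨x₄, hx₄, y₄, hy₄, c4⟩ := h'
  obtain ⟨i₄, h41, h42, rfl⟩ := rc_of_low hR1 hy₄ c4.right.1.2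
  have hsub : ann r R ∩ H ∩ L.col c ω ⊆ ann r R ∩ L.col c ω := fun v hv => ⟨hv.1.1, hv.2⟩
  refine ⟨x₁, hx₁, rc R i₁, rc_nrm hR1, x₃, hx₃, rc R i₃, rc_nrm hR1, c1.mono hsub, c3.mono hsub,
    fun hcon => ?_⟩
  obtain ⟨u₂, hu₂, a₂⟩ := hx₂
  obtain ⟨u₄, hu₄, a₄⟩ := hx₄
  have hP' : L.Con ((bx r ∪ {v | L.Cn (ann r R ∩ H ∩ L.col (!c) ω) x₂ v}) ∪
      {v | L.Cn (ann r R ∩ {v | v.2 ≤ -1} ∩ L.col (!c) ω) x₄ v}) :=
    Con.union_adj (Con.union_adj (con_bx r) (con_cluster _ _) hu₂ (Cn.refl c2.left) a₂)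
      (con_cluster _ _) (Or.inl hu₄) (Cn.refl c4.left) a₄
  have hbx : bx r ⊆ bx R := fun v hv => le_trans hv hR.le
  obtain ⟨z, hz, hz'⟩ := interlace_rc (L := L) hR1
    (P := {v | L.Cn (ann r R ∩ L.col c ω) x₁ v}) (con_cluster _ _) hP'
    (fun v hv => (Cn.right hv).1.2) (by
      rintro v ((hv | hv) | hv)
      · exact hbx hv
      · exact (Cn.right hv).1.1.2
      · exact (Cn.right hv).1.1.2)
    h12 h23 (by omega : i₃ < i₄) (by omega) (c1.mono hsub) (hcon.trans (c3.mono hsub))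
    (Or.inl (Or.inr c2)) (Or.inr c4)
  have hzr := Cn.right hz
  have hcol : z ∈ L.col (!c) ω → False := by
    intro h1
    have h3 : L.st ω z = !c := h1
    have h4 : L.st ω z = c := hzr.2
    rw [h4] at h3
    revert h3
    cases c <;> decide
  rcases hz' with (h5 | h5) | h5
  · have h6 : nrm z ≤ r := h5
    have h7 : r < nrm z := hzr.1.1
    omega
  · exact hcol (Cn.right h5).2
  · exact hcol (Cn.right h5).2

private theorem hp5_fin (H : Set Pt) (r R : ℤ) : (ann r R ∩ H).Finite := by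
  have h : ann r R ∩ H ⊆ Set.Icc (-R) R ×ˢ Set.Icc (-R) R := by
    rintro v ⟨⟨-, h1⟩, -⟩
    have h2 : max |v.1| |v.2| ≤ R := h1
    rw [max_le_iff, abs_le, abs_le] at h2
    exact ⟨h2.1, h2.2⟩
  exact ((Set.finite_Icc _ _).prod (Set.finite_Icc _ _)).subset h

private theorem hp5_loc (L : Lat) (c : Bool) (r R : ℤ) : Loc (L.TwoA c r R) := by
  have h := hp5_fin Set.univ r R
  rw [Set.inter_univ] at h
  exact Two.loc L c _ _ _ h

private theorem hp5_disj {H : Set Pt} {r R : ℤ} (hH : HalfLike H) :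
    ∀ v ∈ ann r R ∩ H, v ∉ ann r R ∩ {v : Pt | v.2 ≤ -1} := by
  rintro v ⟨-, h1⟩ ⟨-, h2⟩
  have h3 : 0 ≤ v.2 := hH.2 h1
  have h4 : v.2 ≤ -1 := h2
  omega

/-- `pr_and` (the two events depend on `ann r R ∩ H ⊆ {0 ≤ v.2}` and on `{v.2 ≤ -1}`), `TwoH_low`, `pr_mono` -/
theorem pr_half_low (L : Lat) (c : Bool) {H : Set Pt} {r R : ℤ} (hr : 1 ≤ r) (hR : r < R)
    (hH : HalfLike H) :
    pr (L.TwoH c H r R) *
      pr (L.Arm (!c) (ann r R ∩ {v | v.2 ≤ -1}) (L.nb (bx r)) (rng R)) ≤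
      pr (L.TwoA c r R) := by
  have dA : Dep (L.TwoH c H r R) (ann r R ∩ H) := Two.dep L c _ _ _
  have dB : Dep (L.Arm (!c) (ann r R ∩ {v | v.2 ≤ -1}) (L.nb (bx r)) (rng R))
      (ann r R ∩ {v | v.2 ≤ -1}) := Arm.dep L (!c) _ _ _
  have lA : Loc (L.TwoH c H r R) := Two.loc L c _ _ _ (hp5_fin H r R)
  have lB : Loc (L.Arm (!c) (ann r R ∩ {v | v.2 ≤ -1}) (L.nb (bx r)) (rng R)) :=
    Arm.loc L (!c) _ _ _ (hp5_fin _ r R)
  rw [← pr_and lA lB dA dB (hp5_disj hH)]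
  exact pr_mono (lA.and lB) (hp5_loc L c r R) fun ω hω => TwoH_low hr hR hH hω.1 hω.2

/-- the same for pairs of configurations: `pr2_and`, `pr2_mono` -/
theorem pr2_half_low (L : Lat) (c : Bool) {H : Set Pt} {r R : ℤ} (hr : 1 ≤ r) (hR : r < R)
    (hH : HalfLike H) {k : Pt → ℝ} (hk : Kap k) :
    pr2 k (L.TwoH c H r R) *
      pr2 k (L.Arm (!c) (ann r R ∩ {v | v.2 ≤ -1}) (L.nb (bx r)) (rng R)) ≤
      pr2 k (L.TwoA c r R) := by
  have dA : Dep (L.TwoH c H r R) (ann r R ∩ H) := Two.dep L c _ _ _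
  have dB : Dep (L.Arm (!c) (ann r R ∩ {v | v.2 ≤ -1}) (L.nb (bx r)) (rng R))
      (ann r R ∩ {v | v.2 ≤ -1}) := Arm.dep L (!c) _ _ _
  have lA : Loc (L.TwoH c H r R) := Two.loc L c _ _ _ (hp5_fin H r R)
  have lB : Loc (L.Arm (!c) (ann r R ∩ {v | v.2 ≤ -1}) (L.nb (bx r)) (rng R)) :=
    Arm.loc L (!c) _ _ _ (hp5_fin _ r R)
  rw [← pr2_and lA lB dA dB (hp5_disj hH) k]
  exact pr2_mono (lA.and lB) (hp5_loc L c r R) hk fun ω hω => TwoH_low hr hR hH hω.1 hω.2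

end Lat

end SC

end
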