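import Mathlib
import Pool.Agent.Lib_MP_e0a489_m.G06
import Pool.Agent.Lib_MP_e0a489_m.G07
import Pool.Agent.Lib_MP_e0a489_m.G08
import Pool.Agent.Lib_MP_e0a489_m.G09
import Pool.Agent.Lib_MP_e0a489_m.G10
import Pool.Agent.Lib_MP_e0a489_m.G11
import Pool.Agent.Lib_MP_e0a489_m.G12
import Pool.Agent.Lib_MP_e0a489_m.G13
import Pool.Agent.Lib_MP_e0a489_m.G14
import Pool.Agent.Lib_MP_e0a489_m.G15
import Pool.Agent.Lib_MP_e0a489_m.G16

/-!
# MP_e0a489_pr: merged library part G17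

Concatenation of library files (each in its own section), only to save build time.
-/

/-! ### from `Lib_MP_e0a489.OS3` -/

section

/-!
# MP_e0a489, outer separation 3: outer blocks, neighbours, exactness
-/

set_option autoImplicit false

namespace SC

open Classical

private theorem os3_y {w M k y : ℤ} (hw : w % 2 = 1) (hw0 : 0 < w) (hk : |k| < M)
    (h1 : k * w - w / 2 ≤ y) (h2 : y ≤ k * w + w / 2) : |y| + 1 ≤ M * w - w / 2 := by
  have h3 := abs_lt.1 hk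
  have h4 : k * w ≤ (M - 1) * w := mul_le_mul_of_nonneg_right (by omega) hw0.le
  have h5 : -(M - 1) * w ≤ k * w := mul_le_mul_of_nonneg_right (by omega) hw0.le
  have h6 : (M - 1) * w = M * w - w := by ring
  have h7 : -(M - 1) * w = w - M * w := by ring
  rw [h6] at h4
  rw [h7] at h5
  rcases abs_cases y with ⟨a, _⟩ | ⟨a, _⟩ <;> rw [a] <;> omega

private theorem os3_lip {L : Lat} {u v : Pt} (h : L.Adj u v) : nrm v ≤ nrm u + 1 := by
  obtain ⟨h1, h2⟩ := h.near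
  have h1' := abs_le.1 h1
  have h2' := abs_le.1 h2
  have a1 : |u.1| ≤ nrm u := le_max_left _ _
  have a2 : |u.2| ≤ nrm u := le_max_right _ _
  have b1 := abs_le.1 a1
  have b2 := abs_le.1 a2
  refine max_le ?_ ?_
  · rw [abs_le]
    constructor <;> omega
  · rw [abs_le]
    constructor <;> omega

private theorem os3_ring {L : Lat} {w M s k R : ℤ} (hw : w % 2 = 1) (hw0 : 0 < w)
    (hR : R = M * w + w / 2) (hk : |k| < M) {u v : Pt} (hv : v ∈ ob w M s k) (hu : u ∈ bx R)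
    (h : L.Adj u v) : u ∈ rng R := by
  have h1 := (ob_nrm hw hw0 hR hk hv).1
  have h2 := os3_lip h
  have h3 : nrm u ≤ R := hu
  show nrm u = R
  omega

private theorem os3_out {w M s k R : ℤ} (hw : w % 2 = 1) (hw0 : 0 < w)
    (hR : R = M * w + w / 2) (hk : |k| < M) {v : Pt} (hv : v ∈ ob w M s k) : v ∉ bx R :=
  not_le.2 (ob_nrm hw hw0 hR hk hv).1

private theorem os3_rng (R : ℤ) : rng R ⊆ bx R := fun _ hv => le_of_eq hv


namespace Lat

variable {L : Lat}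

/-- a block is a rectangle -/
theorem os_con_ob (w M s k : ℤ) : L.Con (ob w M s k) := con_rect _ _ _ _

/-- ADDING AN OUTER BLOCK to a domain: `exact_add_out` with `m = R` (`ob_eq`, `b = R + w`, `p = k w - w/2`,
`q = k w + w/2`). -/
theorem os_exact_ob {w M s k R : ℤ} {D C : Set Pt} (hw : w % 2 = 1) (hw0 : 0 < w)
    (hR : R = M * w + w / 2) (hM : 1 ≤ M) (hk : |k| < M) (h : L.Exact D C) (hring : rng R ⊆ D)
    (h1 : ∀ v ∈ ob w M s k, ∀ u ∈ D, L.Adj u v → u ∈ rng R)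
    (h2 : ∀ v ∈ ob w M s k, v ∉ D) : L.Exact (D ∪ ob w M s k) C := by
  have h3 := os3_y (y := k * w - w / 2) hw hw0 hk le_rfl (by omega)
  have h4 := os3_y (y := k * w + w / 2) hw hw0 hk (by omega) le_rfl
  have h3' := abs_nonneg (k * w - w / 2)
  have h5 := neg_abs_le (k * w - w / 2)
  have h6 := le_abs_self (k * w + w / 2)
  have e : ob w M s k = rt s '' rect (R + 1) (R + w) (k * w - w / 2) (k * w + w / 2) := by
    rw [ob_eq hw hw0, hR]
  rw [e] at h1 h2 ⊢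
  exact exact_add_out h (m := R) (by omega) (by omega) (by omega) (by omega) (by omega)
    hring h1 h2

/-- neighbours of an outer block inside `bx R` are on the ring `R`, in the middle cell enlarged by one -/
theorem os_ob_nbr {w M s k R : ℤ} {u v : Pt} (hw : w % 2 = 1) (hw0 : 0 < w)
    (hR : R = M * w + w / 2) (hv : v ∈ ob w M s k) (hu : u ∈ bx R) (h : L.Adj u v) :
    ∃ y, k * w - w / 2 - 1 ≤ y ∧ y ≤ k * w + w / 2 + 1 ∧ u = rt s (R, y) := by
  obtain ⟨x, y, h1, h2, h3, h4, rfl⟩ := (ob_mem hw hw0 hR).1 hv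
  obtain ⟨⟨a, b⟩, rfl⟩ : ∃ p, u = rt s p := ⟨(rt s).symm u, by rw [Equiv.apply_symm_apply]⟩
  have h6 := ((tr_rots L s).adj (a, b) (x, y)).2 h
  obtain ⟨h7, h8⟩ := h6.near
  simp only at h7 h8
  have h7' := abs_le.1 h7
  have h8' := abs_le.1 h8
  have h9 : nrm (rt s (a, b)) ≤ R := hu
  rw [nrm_rt] at h9
  have h10 : |a| ≤ R := (le_max_left |a| |b|).trans h9
  have h11 := abs_le.1 h10
  have ha1 : a = R := by omega
  subst ha1
  exact ⟨b, by omega, by omega, rfl⟩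

/-- the block is next to its triple: `rt s (R + 1, k w)` and `rt s (R, k w)` -/
theorem os_ob_touch {w M s k R : ℤ} (hw : w % 2 = 1) (hw0 : 0 < w) (hR : R = M * w + w / 2)
    (hM : 1 ≤ M) (hk : |k| < M) : ∃ v ∈ ob w M s k, ∃ u ∈ trip w R s k, L.Adj u v := by
  have h5 := os3_y (y := k * w) hw hw0 hk (by omega) (by omega)
  have h5' := abs_nonneg (k * w)
  refine ⟨rt s (R + 1, k * w), (ob_mem hw hw0 hR).2 ⟨R + 1, k * w, by omega, by omega, by omega,
    by omega, rfl⟩, rt s (R, k * w), ⟨2 * R * s + k * w, ?_, ?_, ?_⟩, ?_⟩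
  · have : (k - 1) * w = k * w - w := by ring
    omega
  · have : (k + 1) * w = k * w + w := by ring
    omega
  · exact rc_side (by omega) (by omega)
  · exact ((tr_rots L s).adj (R, k * w) (R + 1, k * w)).1 (adj_right (R, k * w))

/-- `bx R = rect (-R) R (-R) R`, `exact_rect` -/
theorem os_exact_bx (R : ℤ) (C : Set Pt) : L.Exact (bx R) C := by
  have e : bx R = rect (-R) R (-R) R := by
    ext v
    show max |v.1| |v.2| ≤ R ↔ (-R ≤ v.1 ∧ v.1 ≤ R) ∧ -R ≤ v.2 ∧ v.2 ≤ R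
    rw [max_le_iff, abs_le, abs_le]
  rw [e]
  exact exact_rect _ _ _ _ _

/-- `bx R` with one outer block -/
theorem os_exact_bx_ob {r R w M s k : ℤ} (h : OPar r R w M) (hk : |k| + 2 ≤ M) (C : Set Pt) :
    L.Exact (bx R ∪ ob w M s k) C := by
  have hM := h.M2
  have h0 := abs_nonneg k
  exact os_exact_ob h.od h.w0 h.eR (by omega) (by omega) (os_exact_bx R C) (os3_rng R)
    (fun v hv u hu ha => os3_ring h.od h.w0 h.eR (by omega) hv hu ha)
    (fun v hv => os3_out h.od h.w0 h.eR (by omega) hv)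

/-- `bx R` with two blocks which are apart: `os_exact_ob` twice (`os_ob_nbr`, `ob_nrm`) -/
theorem os_exact_D2 {r R w M s₁ k₁ s₃ k₃ : ℤ} (h : OPar r R w M) (hk₁ : |k₁| + 2 ≤ M)
    (hk₃ : |k₃| + 2 ≤ M) (ha : L.OApart (ob w M s₁ k₁) (ob w M s₃ k₃)) (C : Set Pt) :
    L.Exact (OD2 R w M s₁ k₁ s₃ k₃) C := by
  have hM := h.M2
  have e : OD2 R w M s₁ k₁ s₃ k₃ = (bx R ∪ ob w M s₁ k₁) ∪ ob w M s₃ k₃ :=
    (Set.union_assoc _ _ _).symm
  rw [e]
  refine os_exact_ob h.od h.w0 h.eR (by omega) (by omega) (os_exact_bx_ob h hk₁ C)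
    ((os3_rng R).trans Set.subset_union_left) ?_ ?_
  · rintro v hv u (hu | hu) had
    · exact os3_ring h.od h.w0 h.eR (by omega) hv hu had
    · exact absurd had (ha u hu v hv).2
  · rintro v hv (hu | hu)
    · exact os3_out h.od h.w0 h.eR (by omega) hv hu
    · exact (ha v hu v hv).1 rfl

/-- `bx R` with two coarse blocks and a fine block -/
theorem os_exact_D2_ob {r R w M s₁ k₁ s₃ k₃ w' M' s' k' : ℤ} (h : OPar r R w M)
    (h' : OPar r R w' M') (hk₁ : |k₁| + 2 ≤ M) (hk₃ : |k₃| + 2 ≤ M) (hk' : |k'| + 2 ≤ M')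
    (ha : L.OApart (ob w M s₁ k₁) (ob w M s₃ k₃)) (ha₁ : L.OApart (ob w M s₁ k₁) (ob w' M' s' k'))
    (ha₃ : L.OApart (ob w M s₃ k₃) (ob w' M' s' k')) (C : Set Pt) :
    L.Exact (OD2 R w M s₁ k₁ s₃ k₃ ∪ ob w' M' s' k') C := by
  have hM := h.M2
  have hM' := h'.M2
  refine os_exact_ob h'.od h'.w0 h'.eR (by omega) (by omega) (os_exact_D2 h hk₁ hk₃ ha C)
    ((os3_rng R).trans Set.subset_union_left) ?_ ?_
  · rintro v hv u (hu | hu | hu) had
    · exact os3_ring h'.od h'.w0 h'.eR (by omega) hv hu had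
    · exact absurd had (ha₁ u hu v hv).2
    · exact absurd had (ha₃ u hu v hv).2
  · rintro v hv (hu | hu | hu)
    · exact os3_out h'.od h'.w0 h'.eR (by omega) hv hu
    · exact (ha₁ v hu v hv).1 rfl
    · exact (ha₃ v hu v hv).1 rfl

/-- the sites of `OD2` which are not in the source `OS2` -/
theorem os_D2_diff {r R w M s₁ k₁ s₃ k₃ : ℤ} (h : OPar r R w M) (hk₁ : |k₁| + 2 ≤ M)
    (hk₃ : |k₃| + 2 ≤ M) : OD2 R w M s₁ k₁ s₃ k₃ \ OS2 r w M s₁ k₁ s₃ k₃ = ann r R := by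
  have hM := h.M2
  ext v
  constructor
  · rintro ⟨h1, h2⟩
    have h3 : v ∉ bx r := fun hh => h2 (Or.inl hh)
    rcases h1 with h1 | h1
    · exact ⟨not_le.1 h3, h1⟩
    · exact absurd (Or.inr h1) h2
  · rintro ⟨h1, h2⟩
    refine ⟨Or.inl h2, ?_⟩
    rintro (h3 | h3 | h3)
    · exact absurd h3 (not_le.2 h1)
    · exact os3_out h.od h.w0 h.eR (by omega) h3 h2
    · exact os3_out h.od h.w0 h.eR (by omega) h3 h2

theorem os_S2_sub {r R w M s₁ k₁ s₃ k₃ : ℤ} (h : OPar r R w M) :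
    OS2 r w M s₁ k₁ s₃ k₃ ⊆ OD2 R w M s₁ k₁ s₃ k₃ := by
  have h1 := h.r1
  have h2 := h.r8
  refine Set.union_subset_union_left _ ?_
  intro v hv
  have h3 : nrm v ≤ r := hv
  show nrm v ≤ R
  omega

end Lat

end SC

end

/-! ### from `Lib_MP_e0a489.OS5` -/

section

/-!
# MP_e0a489, outer separation 5: first exploration, the two components

`C = Cx false (bx R) (bx r) ω`: `bx r` and all closed clusters of `ann r R` attached to it.
-/

set_option autoImplicit false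

namespace SC

open Classical

private theorem os5_per {R : ℤ} (hR : 1 ≤ R) (i t : ℤ) : rc R (i + 8 * R * t) = rc R i := by
  have h1 : Function.Periodic (rc R) (8 * R) := fun i => rc_period hR
  have h2 := h1.int_mul t i
  rw [Int.cast_id, mul_comm t] at h2
  exact h2

private theorem os5_arc {R : ℤ} (hR : 1 ≤ R) (a b t : ℤ) :
    arc R (a + 8 * R * t) (b + 8 * R * t) = arc R a b := by
  ext v
  constructor
  · rintro ⟨k, h1, h2, rfl⟩
    refine ⟨k - 8 * R * t, by omega, by omega, ?_⟩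
    have h3 := os5_per hR (k - 8 * R * t) t
    rw [sub_add_cancel] at h3
    exact h3.symm
  · rintro ⟨k, h1, h2, rfl⟩
    exact ⟨k + 8 * R * t, by omega, by omega, os5_per hR k t⟩

private theorem os5_trip {R : ℤ} (hR : 1 ≤ R) (w s k t : ℤ) :
    trip w R (s + 4 * t) k = trip w R s k := by
  have h := os5_arc hR (osi R w s k) (oei R w s k) t
  have e1 : osi R w (s + 4 * t) k = osi R w s k + 8 * R * t := by
    unfold osi
    ring
  have e2 : oei R w (s + 4 * t) k = oei R w s k + 8 * R * t := by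
    unfold oei
    ring
  rw [os_trip_eq, os_trip_eq, e1, e2]
  exact h

private theorem os5_y {R w M k : ℤ} (hw : 5 ≤ w) (hR : R = M * w + w / 2) (hk : |k| + 100 ≤ M) :
    -R < (k - 1) * w - w / 2 ∧ (k + 1) * w + w / 2 < R := by
  have h1 := abs_le.1 (show |k| ≤ M - 100 by omega)
  have h2 : -(M - 100) * w ≤ k * w := mul_le_mul_of_nonneg_right h1.1 (by omega)
  have h3 : k * w ≤ (M - 100) * w := mul_le_mul_of_nonneg_right h1.2 (by omega)
  have e1 : -(M - 100) * w = 100 * w - M * w := by ring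
  have e2 : (M - 100) * w = M * w - 100 * w := by ring
  have e3 : (k - 1) * w = k * w - w := by ring
  have e4 : (k + 1) * w = k * w + w := by ring
  rw [e1] at h2
  rw [e2] at h3
  rw [e3, e4]
  constructor <;> omega

namespace Lat

variable {L : Lat}

private theorem os5_ne {R : ℤ} {C V V' : Set Pt} (hV : L.Comp (bx R \ C) V)
    (hV' : L.Comp (bx R \ C) V') (hne : V ≠ V') {v : Pt} (h : v ∈ V) (h' : v ∈ V') : False :=
  hne (Comp.eq hV hV' h h')

private theorem os5_gap {R : ℤ} (hR : 1 ≤ R) {C V V' : Set Pt} (hV : L.Comp (bx R \ C) V)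
    (hV' : L.Comp (bx R \ C) V') (hne : V ≠ V') {a b c d : ℤ} (hab : a ≤ b) (hbc : b < c)
    (hcd : c ≤ d) (h1 : arc R a b ⊆ V) (h2 : arc R c d ⊆ V') :
    ∃ i, b < i ∧ i < c ∧ rc R i ∈ C := by
  by_contra hno
  have h3 : arc R a d ⊆ bx R \ C := by
    rintro v ⟨i, hi1, hi2, rfl⟩
    rcases le_or_gt i b with h4 | h4
    · exact hV.sub (h1 ⟨i, hi1, h4, rfl⟩)
    rcases lt_or_ge i c with h5 | h5
    · refine ⟨le_of_eq (rc_nrm hR), fun h6 => hno ⟨i, h4, h5, h6⟩⟩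
    · exact hV'.sub (h2 ⟨i, h5, hi2, rfl⟩)
  have h4 := hV.absorb (con_arc hR a d) h3 ⟨rc R a, ⟨a, le_rfl, by omega, rfl⟩,
    h1 ⟨a, le_rfl, hab, rfl⟩⟩
  exact os5_ne hV hV' hne (h4 ⟨c, by omega, hcd, rfl⟩) (h2 ⟨c, le_rfl, hcd, rfl⟩)

/-- `bx R \ bx r = ann r R` -/
theorem os_bx_diff (r R : ℤ) : bx R \ bx r = ann r R := by
  ext v
  constructor
  · rintro ⟨h1, h2⟩
    exact ⟨not_le.1 h2, h1⟩
  · rintro ⟨h1, h2⟩
    exact ⟨h2, not_le.2 h1⟩

/-- the explored set is connected (`Cx_con`, `con_bx`) and contained in `bx R` (`Cx_sub`) -/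
theorem os_C1_con {r R : ℤ} (ω : Cfg) (hrR : r ≤ R) :
    L.Con (L.Cx false (bx R) (bx r) ω) ∧ L.Cx false (bx R) (bx r) ω ⊆ bx R ∧
      bx r ⊆ L.Cx false (bx R) (bx r) ω :=
  ⟨Cx_con (con_bx r), Cx_sub (fun _ hv => le_trans hv hrR), Cx_sup⟩

private theorem os5_open {r R : ℤ} {ω : Cfg} {v : Pt} (hv : v ∈ ann r R ∩ L.col true ω) :
    v ∈ bx R \ L.Cx false (bx R) (bx r) ω := by
  refine ⟨hv.1.2, fun h => ?_⟩
  have h1 : v ∈ L.col false ω := (Cx_col h (fun h' => absurd h' (not_le.2 hv.1.1))).2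
  have h2 : L.st ω v = true := hv.2
  have h3 : L.st ω v = false := h1
  rw [h2] at h3
  exact Bool.noConfusion h3

/-- THE TWO COMPONENTS.  `x₁ - y₁`, `x₃ - y₃` the two open arms.  The sites of the arms are open and in `ann r R`, so they are
not in `C` (`Cx_col`).  `V_i` = cluster of `y_i` in `bx R \ C` (`comp_cluster`); the arm is contained in `bx R \ C`, so
`x_i ∈ V_i` (`Cn.mono`, `Cn.symm`).  If `V₁ = V₃` then `x₁`, `x₃` would be joined by `step_ne` (`c = true`, `M = bx R`, `S = bx r`; `bd V C` is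
connected by `con_bd`, `os_exact_bx`).  `V ⊆ bx R \ C ⊆ ann r R`. -/
theorem os_two_comps {r R : ℤ} {ω : Cfg} (hr : 0 ≤ r) (hrR : r < R) (h : L.TwoA true r R ω) :
    ∃ V₁ V₃ x₁ y₁ x₃ y₃, L.Comp (bx R \ L.Cx false (bx R) (bx r) ω) V₁ ∧
      L.Comp (bx R \ L.Cx false (bx R) (bx r) ω) V₃ ∧ V₁ ≠ V₃ ∧ x₁ ∈ V₁ ∧ y₁ ∈ V₁ ∧ x₃ ∈ V₃ ∧
      y₃ ∈ V₃ ∧ x₁ ∈ L.nb (bx r) ∧ x₃ ∈ L.nb (bx r) ∧ nrm y₁ = R ∧ nrm y₃ = R ∧
      L.Cn (ann r R ∩ L.col true ω) y₁ x₁ ∧ L.Cn (ann r R ∩ L.col true ω) y₃ x₃ := by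
  obtain ⟨x₁, hx₁, y₁, hy₁, x₃, hx₃, y₃, hy₃, h1, h3, hno⟩ := h
  have c1 := h1.symm
  have c3 := h3.symm
  have g1 := c1.mono (fun v hv => os5_open hv)
  have g3 := c3.mono (fun v hv => os5_open hv)
  have hV₁ := comp_cluster (L := L) g1.left
  have hV₃ := comp_cluster (L := L) g3.left
  refine ⟨_, _, x₁, y₁, x₃, y₃, hV₁, hV₃, ?_, g1, Cn.refl g1.left, g3, Cn.refl g3.left, hx₁, hx₃,
    hy₁, hy₃, c1, c3⟩
  intro he
  apply hno
  obtain ⟨hC, hCR, hrC⟩ := os_C1_con (L := L) ω hrR.le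
  have hB := con_bd (os_exact_bx R (L.Cx false (bx R) (bx r) ω)) hC hCR hV₁
  have h5 : x₃ ∈ {v | L.Cn (bx R \ L.Cx false (bx R) (bx r) ω) y₁ v} := by
    rw [he]
    exact g3
  have h4 := step_ne (c := true) (M := bx R) (S := bx r) (ω := ω)
    (fun _ hv => le_trans hv hrR.le) hV₁ hB g1 h5 hx₁ hx₃
  rw [os_bx_diff] at h4
  exact h4

/-- a component of `bx R \ C` is contained in the annulus -/
theorem os_comp_ann {r R : ℤ} {ω : Cfg} {V : Set Pt}
    (hV : L.Comp (bx R \ L.Cx false (bx R) (bx r) ω) V) : V ⊆ ann r R := by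
  intro v hv
  obtain ⟨h1, h2⟩ := hV.sub hv
  rw [← os_bx_diff]
  exact ⟨h1, fun h => h2 (Cx_sup h)⟩

/-- sites of `C` outside `bx r` have a closed path to a neighbour of `bx r` (definition of `cl`) -/
theorem os_C1_path {r R : ℤ} {ω : Cfg} {v : Pt} (hv : v ∈ L.Cx false (bx R) (bx r) ω)
    (hv' : r < nrm v) : ∃ u ∈ L.nb (bx r), L.Cn (ann r R ∩ L.col false ω) v u := by
  rcases hv with hv | ⟨u, hu, hv⟩
  · exact absurd hv (not_le.2 hv')
  · rw [os_bx_diff] at hv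
    exact ⟨u, hu, hv.symm⟩

/-- a site of the ring with index strictly between `a` and `b`, in the explored set, gives `OMid` (`os_C1_path`) -/
theorem os_mid_of {r R w a b s y : ℤ} {ω : Cfg} (hr : 0 ≤ r) (hrR : r < R)
    (hy : |y| + 100 * w ≤ R) (ha : a < 2 * R * s + y) (hb : 2 * R * s + y < b)
    (hv : rc R (2 * R * s + y) ∈ L.Cx false (bx R) (bx r) ω) : L.OMid r R w a b ω := by
  obtain ⟨u, hu, h1⟩ := os_C1_path hv (by rw [rc_nrm (by omega)]; exact hrR)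
  exact ⟨s, y, hy, ha, hb, u, hu, _, rfl, h1.symm⟩

/-- ORDER OF THE TRIPLES.  Two triples in different components of `bx R \ C`.  Up to multiples of 4 in the number of the side the
positions are ordered, `s₁ ∈ [0, 3]`, and there are sites of `C` on the ring strictly between the triples, on both sides.
Proof.  Replace `s₁` by `s₁ % 4` (`rc_period`: `arc R (i + 8 R) (j + 8 R) = arc R i j`, so the triples do not change), and
`s₃` by `s₃ + 4 t` such that `osi R w s₁ k₁ ≤ osi R w s₃ k₃ < osi R w s₁ k₁ + 8 R`.  `V₁ ∩ V₃ = ∅` (`Comp.eq`).  `oei R w s₁ k₁ < osi R w s₃ k₃`: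
otherwise `rc R (osi R w s₃ k₃)` is in both triples.  `oei R w s₃ k₃ < osi R w s₁ k₁ + 8 R`: otherwise
`rc R (osi R w s₁ k₁ + 8 R) = rc R (osi R w s₁ k₁)` is in both.  So `OPos` holds; `0 ≤ s₃ ≤ 8` by `lex_of_idx` (file SH8) or
directly.  If no `rc R i ∈ C` with `oei R w s₁ k₁ < i < osi R w s₃ k₃`, then `arc R (osi R w s₁ k₁) (oei R w s₃ k₃) ⊆ bx R \ C` is connected
(`con_arc`, `rc_nrm`), meets `V₁`, so it is contained in `V₁` (`Comp.absorb`) and meets `V₃`, so `V₁ = V₃`.  The same for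
the other side with `arc R (osi R w s₃ k₃) (oei R w s₁ k₁ + 8 R)`. -/
theorem os_arcs_order {r R w M s₁ k₁ s₃ k₃ : ℤ} {C V₁ V₃ : Set Pt} (h : OPar r R w M)
    (hV₁ : L.Comp (bx R \ C) V₁) (hV₃ : L.Comp (bx R \ C) V₃) (hne : V₁ ≠ V₃)
    (h1 : trip w R s₁ k₁ ⊆ V₁) (h3 : trip w R s₃ k₃ ⊆ V₃) (hk₁ : |k₁| + 100 ≤ M)
    (hk₃ : |k₃| + 100 ≤ M) (n₁ : k₁ ≠ 0) (n₃ : k₃ ≠ 0) :
    ∃ s s' : ℤ, (s, k₁, s', k₃) ∈ OTht R w M ∧ trip w R s k₁ ⊆ V₁ ∧ trip w R s' k₃ ⊆ V₃ ∧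
      (∃ i, oei R w s k₁ < i ∧ i < osi R w s' k₃ ∧ rc R i ∈ C) ∧
      ∃ i, oei R w s' k₃ < i ∧ i < osi R w s k₁ + 8 * R ∧ rc R i ∈ C := by
  have hw := h.w5
  have hM := h.M2
  have hRw := h.Rw
  have hR : 1 ≤ R := by omega
  obtain ⟨s, ⟨hs0, hs3⟩, hst⟩ : ∃ s, (0 ≤ s ∧ s ≤ 3) ∧ trip w R s k₁ = trip w R s₁ k₁ := by
    refine ⟨s₁ % 4, by omega, ?_⟩
    have h4 := os5_trip hR w (s₁ % 4) k₁ (s₁ / 4)
    rw [← h4]
    congr 1
    omega
  obtain ⟨s', ⟨hl, hu⟩, hst'⟩ : ∃ s', (osi R w s k₁ ≤ osi R w s' k₃ ∧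
      osi R w s' k₃ < osi R w s k₁ + 8 * R) ∧ trip w R s' k₃ = trip w R s₃ k₃ := by
    refine ⟨s₃ + 4 * -((osi R w s₃ k₃ - osi R w s k₁) / (8 * R)), ?_, os5_trip hR w s₃ k₃ _⟩
    have e : osi R w (s₃ + 4 * -((osi R w s₃ k₃ - osi R w s k₁) / (8 * R))) k₃ =
        osi R w s₃ k₃ - 8 * R * ((osi R w s₃ k₃ - osi R w s k₁) / (8 * R)) := by
      unfold osi
      ring
    rw [e]
    have h5 := Int.mul_ediv_add_emod (osi R w s₃ k₃ - osi R w s k₁) (8 * R)
    have h6 := Int.emod_nonneg (osi R w s₃ k₃ - osi R w s k₁) (show 8 * R ≠ 0 by omega)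
    have h7 := Int.emod_lt_of_pos (osi R w s₃ k₃ - osi R w s k₁) (show 0 < 8 * R by omega)
    constructor <;> omega
  rw [← hst] at h1
  rw [← hst'] at h3
  have a1 := os5_y hw h.eR hk₁
  have a3 := os5_y hw h.eR hk₃
  have le1 : osi R w s k₁ ≤ oei R w s k₁ := by
    unfold osi oei
    have e1 : (k₁ - 1) * w = k₁ * w - w := by ring
    have e2 : (k₁ + 1) * w = k₁ * w + w := by ring
    omega
  have le3 : osi R w s' k₃ ≤ oei R w s' k₃ := by
    unfold osi oei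
    have e1 : (k₃ - 1) * w = k₃ * w - w := by ring
    have e2 : (k₃ + 1) * w = k₃ * w + w := by ring
    omega
  have h1' : arc R (osi R w s k₁) (oei R w s k₁) ⊆ V₁ := h1
  have h3' : arc R (osi R w s' k₃) (oei R w s' k₃) ⊆ V₃ := h3
  have h1'' : arc R (osi R w s k₁ + 8 * R) (oei R w s k₁ + 8 * R) ⊆ V₁ := by
    have e := os5_arc hR (osi R w s k₁) (oei R w s k₁) 1
    rw [mul_one] at e
    rw [e]
    exact h1'
  have o1 : oei R w s k₁ < osi R w s' k₃ := by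
    by_contra hcon
    exact os5_ne hV₁ hV₃ hne (h1' ⟨_, hl, not_lt.1 hcon, rfl⟩) (h3' ⟨_, le_rfl, le3, rfl⟩)
  have o3 : oei R w s' k₃ < osi R w s k₁ + 8 * R := by
    by_contra hcon
    exact os5_ne hV₁ hV₃ hne (h1'' ⟨_, le_rfl, by omega, rfl⟩) (h3' ⟨_, hu.le, not_lt.1 hcon, rfl⟩)
  have hs'0 : 0 ≤ s' := by
    by_contra hcon
    have h4 : s' ≤ s - 1 := by omega
    have h5 : 2 * R * s' ≤ 2 * R * (s - 1) := mul_le_mul_of_nonneg_left h4 (by omega)
    have e : 2 * R * (s - 1) = 2 * R * s - 2 * R := by ring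
    unfold osi at hl
    have e1 : (k₃ - 1) * w = k₃ * w - w := by ring
    have e2 : (k₃ + 1) * w = k₃ * w + w := by ring
    omega
  have hs'8 : s' ≤ 8 := by
    by_contra hcon
    have h4 : s + 5 ≤ s' := by omega
    have h5 : 2 * R * (s + 5) ≤ 2 * R * s' := mul_le_mul_of_nonneg_left h4 (by omega)
    have e : 2 * R * (s + 5) = 2 * R * s + 10 * R := by ring
    unfold osi at hu
    have e1 : (k₁ - 1) * w = k₁ * w - w := by ring
    have e2 : (k₁ + 1) * w = k₁ * w + w := by ring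
    omega
  refine ⟨s, s', ?_, h1, h3, os5_gap hR hV₁ hV₃ hne le1 o1 le3 h1' h3',
    os5_gap hR hV₃ hV₁ hne.symm le3 o3 (by omega) h3' h1''⟩
  have b1 := abs_le.1 (show |k₁| ≤ M by omega)
  have b3 := abs_le.1 (show |k₃| ≤ M by omega)
  refine Finset.mem_filter.2 ⟨?_, ⟨hk₁, hk₃, n₁, n₃, o1, o3⟩⟩
  unfold OPosF
  rw [Finset.mem_product, Finset.mem_product, Finset.mem_product]
  exact ⟨Finset.mem_Icc.2 ⟨hs0, hs3⟩, Finset.mem_Icc.2 b1, Finset.mem_Icc.2 ⟨hs'0, hs'8⟩,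
    Finset.mem_Icc.2 b3⟩

end Lat

end SC

end

/-! ### from `Lib_MP_e0a489.OS6` -/

section

/-!
# MP_e0a489, outer separation 6: first exploration, good coarse position

The bad event of the coarse scale: `BadW false (ann (R / 2) R) R (4 * β) ℓ β (12 * w)`, `48 w ≤ β`, `4 β ≤ ℓ`,
`R / 2 + ℓ < R`.
-/

set_option autoImplicit false

namespace SC

open Classical

/-- triangle inequality for `nrm` -/
theorem os_nrm_sub_ge (u v : Pt) : nrm v - nrm u ≤ nrm (u - v) := by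
  have e1 : nrm v = max |v.1| |v.2| := rfl
  have e2 : nrm u = max |u.1| |u.2| := rfl
  have e3 : nrm (u - v) = max |u.1 - v.1| |u.2 - v.2| := rfl
  rw [e1, e2, e3]
  have a1 := abs_sub_abs_le_abs_sub v.1 u.1
  have a2 := abs_sub_abs_le_abs_sub v.2 u.2
  rw [abs_sub_comm] at a1 a2
  have b1 := le_max_left |u.1| |u.2|
  have b2 := le_max_right |u.1| |u.2|
  have b3 := le_max_left |u.1 - v.1| |u.2 - v.2|
  have b4 := le_max_right |u.1 - v.1| |u.2 - v.2|
  rcases max_cases |v.1| |v.2| with ⟨h, _⟩ | ⟨h, _⟩ <;> rw [h] <;> omega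

/-- neighbours of `bx r` have norm at most `r + 1` (`Adj.near`) -/
theorem os_nb_bx_nrm {L : Lat} {r : ℤ} {v : Pt} (h : v ∈ L.nb (bx r)) : nrm v ≤ r + 1 := by
  obtain ⟨u, hu, ha⟩ := h
  have hu' : max |u.1| |u.2| ≤ r := hu
  obtain ⟨h1, h2⟩ := ha.near
  show max |v.1| |v.2| ≤ r + 1
  have a1 := abs_sub_abs_le_abs_sub v.1 u.1
  have a2 := abs_sub_abs_le_abs_sub v.2 u.2
  rw [abs_sub_comm] at a1 a2
  have b1 := (le_max_left _ _).trans hu'
  have b2 := (le_max_right _ _).trans hu'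
  exact max_le (by omega) (by omega)

private theorem os6_crn (s R : ℤ) (hR : 0 ≤ R) : nrm (rt s (R, R)) = R := by
  rw [nrm_rt]
  show max |R| |R| = R
  rw [max_self, abs_of_nonneg hR]

namespace Lat

variable {L : Lat}

/-- THE COARSE CELL of one open arm.  `V` is a component of `bx R \ C`, `y ∈ V` a site of the ring with an open path in
`ann r R` to a neighbour `x` of `bx r`.  Off the bad event there is a cell `(s, k)` with its triple in `V`.
Proof.  `y = rc R z` (`rc_surj`).  `good_pos` with `o = false`, `c = true`, `m = R`, `ρ = 4 β`, `D = bx R`, `D' = ann (R/2) R`,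
`E = ann r R`, `v = x`.  Distances: `nrm x ≤ r + 1`, `nrm (rc R z) = R = nrm (rt s (R, R))`, so
`nrm (x - ..) ≥ R - r - 1 ≥ ℓ ≥ 3 β` (`os_nrm_sub_ge`; `8 r ≤ R`, `R / 2 + ℓ < R`).  `hED`: `nrm v ≥ R - ℓ > R / 2`.  `hC`: a site of `C` on the ring
is outside `bx r`, so `os_C1_path`.  Conclusion: `z = 2 R s + y'`, `|y'| + 4 β < R`, `|k| w ≤ |y'| + 6 w`, `4 β ≥ 192 w`,
`R = M w + w / 2`: `|k| + 100 ≤ M`. -/
theorem os_coarse_cell {r R w M β ℓ : ℤ} {V : Set Pt} {x y : Pt} {ω : Cfg} (h : OPar r R w M)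
    (hβ : 48 * w ≤ β) (hℓ : 4 * β ≤ ℓ) (hℓR : R / 2 + ℓ < R)
    (hbad : ¬ L.BadW false (ann (R / 2) R) R (4 * β) ℓ β (12 * w) ω)
    (hV : L.Comp (bx R \ L.Cx false (bx R) (bx r) ω) V) (hy : y ∈ V) (hyR : nrm y = R)
    (hx : x ∈ L.nb (bx r)) (hp : L.Cn (ann r R ∩ L.col true ω) y x) :
    ∃ s k : ℤ, |k| + 100 ≤ M ∧ k ≠ 0 ∧ trip w R s k ⊆ V := by
  have hw0 := h.w0
  have hw5 := h.w5
  have hr1 := h.r1
  have hr8 := h.r8
  have hRw := h.Rw
  have hR1 : 1 ≤ R := by omega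
  have far : ∀ u ∈ L.nb (bx r), ∀ v : Pt, nrm v = R → ℓ ≤ nrm (u - v) := by
    intro u hu v hv
    have h1 := os_nb_bx_nrm hu
    have h2 := os_nrm_sub_ge u v
    omega
  obtain ⟨z, -, -, rfl⟩ := rc_surj hR1 hyR 0
  obtain ⟨s, k, y', hz, hy', hk0, hk1, hk2, htr⟩ := good_pos (o := false) (c := true) (m := R)
    (w := w) (ρ := 4 * β) (ℓ := ℓ) (β := β) (z := z) (D := bx R) (D' := ann (R / 2) R)
    (E := ann r R) (C := L.Cx false (bx R) (bx r) ω) (V := V) (ω := ω) (v := x)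
    h.od hw0 (by omega) hβ le_rfl hℓ hR1 hbad
    (fun v hv => by
      show nrm v ≤ R
      exact hv.2)
    (fun s v hv hd => by
      have h1 := os_nrm_sub_ge v (rt s (R, R))
      rw [os6_crn s R (by omega)] at h1
      exact ⟨by omega, hv.2⟩)
    (fun v hv => by
      show nrm v ≤ R
      exact le_of_eq hv)
    hV hy hp
    (by have := far x hx _ hyR; omega)
    (fun s => far x hx _ (os6_crn s R (by omega)))
    (fun i hi hiC => by
      have h1 : nrm (rc R i) = R := rc_nrm hR1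
      obtain ⟨u, hu, hc⟩ := os_C1_path hiC (by rw [h1]; omega)
      exact ⟨u, hc, by have := far u hu _ hyR; omega⟩)
  refine ⟨s, k, ?_, hk0, htr⟩
  have hy1 := neg_abs_le y'
  have hy2 := le_abs_self y'
  have hRe := h.eR
  have e1 : (k - 1) * w = k * w - w := by ring
  have e2 : (k + 1) * w = k * w + w := by ring
  rw [e1] at hk1
  rw [e2] at hk2
  have c1 : k * w < (M - 100) * w := by
    have : (M - 100) * w = M * w - 100 * w := by ring
    omega
  have c2 : (-(M - 100)) * w < k * w := by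
    have : (-(M - 100)) * w = 100 * w - M * w := by ring
    omega
  have d1 := lt_of_mul_lt_mul_right c1 hw0.le
  have d2 := lt_of_mul_lt_mul_right c2 hw0.le
  have d3 : |k| ≤ M - 100 := abs_le.2 ⟨by omega, by omega⟩
  omega

/-- CORNERS.  Off the bad event the explored sites of the ring are far from the corners.
Proof.  `i = 2 R s + y`, `|y| ≤ R` (`idx_side`).  If `R ≤ |y| + 4 β` then `crn_of` (`b = false`, `D = ann r R`, `D' = ann (R/2) R`, path from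
`os_C1_path`) gives the bad event (distances as in `os_coarse_cell`).  So `|y| + 4 β < R`, `4 β ≥ 192 w`. -/
theorem os_corner_C {r R w M β ℓ i : ℤ} {ω : Cfg} (h : OPar r R w M)
    (hβ : 48 * w ≤ β) (hℓ : 4 * β ≤ ℓ) (hℓR : R / 2 + ℓ < R)
    (hbad : ¬ L.BadW false (ann (R / 2) R) R (4 * β) ℓ β (12 * w) ω)
    (hi : rc R i ∈ L.Cx false (bx R) (bx r) ω) :
    ∃ s y : ℤ, i = 2 * R * s + y ∧ |y| + 100 * w ≤ R := by
  have hw0 := h.w0
  have hr1 := h.r1
  have hr8 := h.r8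
  have hRw := h.Rw
  have hR1 : 1 ≤ R := by omega
  obtain ⟨s, y, hy, rfl⟩ := idx_side hR1 i
  refine ⟨s, y, rfl, ?_⟩
  by_contra hcon
  apply hbad
  have h1 : nrm (rc R (2 * R * s + y)) = R := rc_nrm hR1
  obtain ⟨u, hu, hc⟩ := os_C1_path hi (by rw [h1]; omega)
  have h2 := os_nb_bx_nrm hu
  exact crn_of (b := false) hR1 hℓ hy (by omega) hc
    (fun s v hv hd => by
      have h1 := os_nrm_sub_ge v (rt s (R, R))
      rw [os6_crn s R (by omega)] at h1
      exact ⟨by omega, hv.2⟩)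
    (fun s => by
      have h3 := os_nrm_sub_ge u (rt s (R, R))
      rw [os6_crn s R (by omega)] at h3
      omega)

end Lat

end SC

end

/-! ### from `Lib_MP_e0a489.SE19` -/

section

/-!
# MP_e0a489, module SE 19: two-time inner separation
-/

set_option autoImplicit false

namespace SC

variable [IfL]

open Classical

/-- `inner_pt κ (e / 4)` and `min_trick` for the correlation `ko k R`, `A = Sout r R`, `B = S4 r R`, `D = Sout (8 r) R` (`A ⊆ D`: `Sout.mono`; `Sout.dep`),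
`l = min 1 (e / (4 C₁))`.  On `{r/2 < nrm v ≤ 2R}` (`S4.dep`) the new correlation is `kz k r R`. -/
theorem step_in (κ : ℕ → ℝ) (e : ℝ) (he : 0 < e) : ∃ (C : ℝ) (R₀ : ℤ), 0 < C ∧ 16 ≤ R₀ ∧
    ∀ L : Lat, RSW L κ → ∀ k : Pt → ℝ, Kap k → ∀ r R : ℤ, R₀ ≤ r → 64 * r ≤ R →
      pr2 (ko k R) (L.Sout r R) ≤ e * pr2 (ko k R) (L.Sout (8 * r) R) +
        C * pr2 (kz k r R) (L.S4 r R) := by
  obtain ⟨C₁, R₁, hC₁, hR₁, H⟩ := inner_pt κ (e / 4) (by positivity)
  have hl : 0 < min 1 (e / (4 * C₁)) := lt_min one_pos (by positivity)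
  refine ⟨2 / (min 1 (e / (4 * C₁))) ^ 2, R₁, by positivity, hR₁, ?_⟩
  intro L hL k hk r R hr hR
  obtain ⟨G, hG⟩ := exists_annF (r / 2) (8 * r)
  have hD : Dep (L.Sout (8 * r) R) {v | 8 * r < nrm v ∧ nrm v ≤ 2 * R} :=
    Lat.Sout.dep L (by omega) (by omega)
  have h1 := min_trick (A := L.Sout r R) (B := L.S4 r R) (D := L.Sout (8 * r) R)
    (Lat.Sout.loc L r R) (Lat.S4.loc L r R) (Lat.Sout.loc L (8 * r) R) (G := G) hD
    (fun v hv hv' => by
      have h2 := ((hG v).1 hv).2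
      have h3 : 8 * r < nrm v := hv'.1
      omega)
    (fun ω h => Lat.Sout.mono h (by omega) (by omega) (by omega))
    (e := e / 4) (C := C₁) (l := min 1 (e / (4 * C₁))) (by positivity) hC₁.le hl
    (fun ω => H L hL r R hr hR G hG ω) (ko_kap hk R)
  have h2 : pr2 (fun v => if v ∈ G then 0 else ko k R v) (L.S4 r R) =
      pr2 (kz k r R) (L.S4 r R) := by
    refine pr2_congr (Lat.S4.loc L r R) (Lat.S4.dep L (by omega) (by omega)) fun v hv => ?_
    have hv1 : r / 2 < nrm v := hv.1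
    show (if v ∈ G then 0 else ko k R v) = kz k r R v
    unfold kz ko
    by_cases h8 : nrm v ≤ 8 * r
    · rw [if_pos ((hG v).2 ⟨hv1, h8⟩), if_pos (Or.inl h8)]
    · have h9 : v ∉ G := fun hc => h8 ((hG v).1 hc).2
      rw [if_neg h9]
      by_cases h10 : R / 4 < nrm v
      · rw [if_pos h10, if_pos (Or.inr h10)]
      · rw [if_neg h10, if_neg (fun hc => hc.elim h8 h10)]
  rw [h2] at h1
  have h3 : C₁ * min 1 (e / (4 * C₁)) ≤ e / 4 := by
    have h4 : C₁ * min 1 (e / (4 * C₁)) ≤ C₁ * (e / (4 * C₁)) :=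
      mul_le_mul_of_nonneg_left (min_le_right _ _) hC₁.le
    have h5 : C₁ * (e / (4 * C₁)) = e / 4 := by
      field_simp
    rw [h5] at h4
    exact h4
  have h6 := pr2_nonneg (L.Sout (8 * r) R) (ko_kap hk R)
  have h7 : 2 * (e / 4 + C₁ * min 1 (e / (4 * C₁))) * pr2 (ko k R) (L.Sout (8 * r) R) ≤
      e * pr2 (ko k R) (L.Sout (8 * r) R) :=
    mul_le_mul_of_nonneg_right (by linarith) h6
  linarith

/-- bounded ratio of the radii -/
theorem sep_in_base {L : Lat} {κ : ℕ → ℝ} (hL : RSW L κ) {k : Pt → ℝ} (hk : Kap k) {r R : ℤ}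
    (hr : 16 ≤ r) (hrR : r ≤ R) (h : R ≤ 1000 * r) {C : ℝ} (hC : (κ 20000 ^ 8)⁻¹ ≤ C) :
    pr2 (ko k R) (L.Sout r R) ≤ C * pr2 (kz k r R) (L.S4 r R) := by
  have hq : 0 < κ 20000 ^ 8 := pow_pos (hL.pos 20000) 8
  have h1 := pr2_le_one (Lat.Sout.loc L r R) (ko_kap hk R)
  have h2 := S4_base' hL hr hrR h
  have h3 := pr2_ge_sq (Lat.S4.loc L r R) (kz_kap hk r R)
  have h4 : κ 20000 ^ 8 ≤ pr2 (kz k r R) (L.S4 r R) := by
    refine le_trans ?_ h3
    have h5 : κ 20000 ^ 8 = (κ 20000 ^ 4) ^ 2 := by rw [← pow_mul]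
    rw [h5]
    exact pow_le_pow_left₀ (pow_pos (hL.pos 20000) 4).le h2 2
  have h6 : (1 : ℝ) = (κ 20000 ^ 8)⁻¹ * κ 20000 ^ 8 := (inv_mul_cancel₀ hq.ne').symm
  calc pr2 (ko k R) (L.Sout r R) ≤ 1 := h1
    _ = (κ 20000 ^ 8)⁻¹ * κ 20000 ^ 8 := h6
    _ ≤ C * pr2 (kz k r R) (L.S4 r R) :=
      mul_le_mul hC h4 hq.le (le_trans (inv_pos.2 hq).le hC)

/-- TWO-TIME INNER SEPARATION.  As `sep_out`: `q = κ 2000 ^ 16`, `e = q / 2`, `C = max (2 C₁) ((κ 20000 ^ 8)⁻¹)`.  Induction on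
`Int.toNat (R - r)`.  If `R ≤ 512 r`: `S4_base'`.  Otherwise `step_in`, the induction hypothesis for `8 r`, and `inS2` (from the
inner radius `8 r` to `r`): `q * pr2 (kz k (8r) R) (S4 (8r) R) ≤ pr2 (kz k r R) (S4 r R)`. -/
theorem sep_in (κ : ℕ → ℝ) : ∃ (C : ℝ) (R₀ : ℤ), 0 < C ∧ 16 ≤ R₀ ∧
    ∀ L : Lat, RSW L κ → ∀ k : Pt → ℝ, Kap k → ∀ r R : ℤ, R₀ ≤ r → r ≤ R →
      pr2 (ko k R) (L.Sout r R) ≤ C * pr2 (kz k r R) (L.S4 r R) := by
  by_cases hκ : 0 < κ 2000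
  · have hq : 0 < κ 2000 ^ 16 := pow_pos hκ 16
    obtain ⟨C₁, R₁, hC₁, hR₁, H⟩ := step_in κ (κ 2000 ^ 16 / 2) (by positivity)
    refine ⟨max (2 * C₁) ((κ 20000 ^ 8)⁻¹), R₁, lt_max_of_lt_left (by positivity), hR₁, ?_⟩
    intro L hL k hk
    have hC : 0 < max (2 * C₁) ((κ 20000 ^ 8)⁻¹) := lt_max_of_lt_left (by positivity)
    have key : ∀ n : ℕ, ∀ r R : ℤ, R₁ ≤ r → r ≤ R → (R - r).toNat ≤ n →
        pr2 (ko k R) (L.Sout r R) ≤
          max (2 * C₁) ((κ 20000 ^ 8)⁻¹) * pr2 (kz k r R) (L.S4 r R) := by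
      intro n
      induction n with
      | zero =>
        intro r R hr hrR hn
        exact sep_in_base hL hk (by omega) hrR (by omega) (le_max_right _ _)
      | succ n ih =>
        intro r R hr hrR hn
        by_cases h512 : R ≤ 512 * r
        · exact sep_in_base hL hk (by omega) hrR (by omega) (le_max_right _ _)
        · have h1 := H L hL k hk r R hr (by omega)
          have h2 := ih (8 * r) R (by omega) (by omega) (by omega)
          have h3 := inS2 hL hk (r := 8 * r) (R := R) (r' := r) (by omega) (by omega)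
            (by omega) (by omega)
          have h4 := pr2_nonneg (L.S4 r R) (kz_kap hk r R)
          have h5 : κ 2000 ^ 16 / 2 * pr2 (ko k R) (L.Sout (8 * r) R) ≤
              κ 2000 ^ 16 / 2 * (max (2 * C₁) ((κ 20000 ^ 8)⁻¹) *
                pr2 (kz k (8 * r) R) (L.S4 (8 * r) R)) :=
            mul_le_mul_of_nonneg_left h2 (by positivity)
          have h6 : κ 2000 ^ 16 / 2 * (max (2 * C₁) ((κ 20000 ^ 8)⁻¹) *
                pr2 (kz k (8 * r) R) (L.S4 (8 * r) R)) ≤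
              max (2 * C₁) ((κ 20000 ^ 8)⁻¹) / 2 * pr2 (kz k r R) (L.S4 r R) := by
            have h7 := mul_le_mul_of_nonneg_left h3
              (show 0 ≤ max (2 * C₁) ((κ 20000 ^ 8)⁻¹) / 2 by positivity)
            calc κ 2000 ^ 16 / 2 * (max (2 * C₁) ((κ 20000 ^ 8)⁻¹) *
                pr2 (kz k (8 * r) R) (L.S4 (8 * r) R))
                = max (2 * C₁) ((κ 20000 ^ 8)⁻¹) / 2 *
                  (κ 2000 ^ 16 * pr2 (kz k (8 * r) R) (L.S4 (8 * r) R)) := by ring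
              _ ≤ _ := h7
          have h8 : C₁ * pr2 (kz k r R) (L.S4 r R) ≤
              max (2 * C₁) ((κ 20000 ^ 8)⁻¹) / 2 * pr2 (kz k r R) (L.S4 r R) := by
            refine mul_le_mul_of_nonneg_right ?_ h4
            have h9 := le_max_left (2 * C₁) ((κ 20000 ^ 8)⁻¹)
            linarith
          linarith
    intro r R hr hrR
    exact key _ r R hr hrR le_rfl
  · exact ⟨1, 16, one_pos, le_rfl, fun L hL => absurd (hL.pos 2000) hκ⟩

end SC

end

/-! ### from `Lib_MP_e0a489.XP7` -/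

section

/-!
# MP_e0a489, exponents 7: box events and core events (topology)
-/

set_option autoImplicit false

namespace SC

namespace XP

open Classical

variable {L : Lat}

private theorem img_rt7 {s : ℤ} {A B : Set Pt} {f g : Pt → Pt} (h : ∀ v, rt s v = f v)
    (h1 : ∀ v ∈ A, f v ∈ B) (h2 : ∀ v ∈ B, g v ∈ A ∧ f (g v) = v) : rt s '' A = B := by
  ext v
  constructor
  · rintro ⟨w, hw, rfl⟩
    rw [h w]
    exact h1 w hw
  · intro hv
    obtain ⟨h3, h4⟩ := h2 v hv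
    refine ⟨g v, h3, ?_⟩
    rw [h (g v), h4]

/-- the four inner zones in coordinates (`rt_zero`, ..., `rt_three`) -/
theorem K_zero (r : ℤ) : K 0 r = rect (r / 2 + 1) r (-(r / 8)) (r / 8) := by
  exact img_rt7 (f := fun v => v) (g := fun v => v) rt_zero (fun v hv => hv) (fun v hv => ⟨hv, rfl⟩)

theorem K_two (r : ℤ) : K 2 r = rect (-r) (-(r / 2) - 1) (-(r / 8)) (r / 8) := by
  refine img_rt7 (f := fun v => (-v.1, -v.2)) (g := fun v => (-v.1, -v.2)) rt_two ?_ ?_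
  · rintro v ⟨⟨h1, h2⟩, h3, h4⟩
    refine ⟨⟨?_, ?_⟩, ?_, ?_⟩ <;> simp only <;> omega
  · rintro v ⟨⟨h1, h2⟩, h3, h4⟩
    refine ⟨⟨⟨?_, ?_⟩, ?_, ?_⟩, ?_⟩
    · simp only; omega
    · simp only; omega
    · simp only; omega
    · simp only; omega
    · simp

theorem K_one (r : ℤ) : K 1 r = rect (-(r / 8)) (r / 8) (r / 2 + 1) r := by
  refine img_rt7 (f := fun v => (-v.2, v.1)) (g := fun v => (v.2, -v.1)) rt_one ?_ ?_
  · rintro v ⟨⟨h1, h2⟩, h3, h4⟩
    refine ⟨⟨?_, ?_⟩, ?_, ?_⟩ <;> simp only <;> omega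
  · rintro v ⟨⟨h1, h2⟩, h3, h4⟩
    refine ⟨⟨⟨?_, ?_⟩, ?_, ?_⟩, ?_⟩
    · simp only; omega
    · simp only; omega
    · simp only; omega
    · simp only; omega
    · simp

theorem K_three (r : ℤ) : K 3 r = rect (-(r / 8)) (r / 8) (-r) (-(r / 2) - 1) := by
  refine img_rt7 (f := fun v => (v.2, -v.1)) (g := fun v => (-v.2, v.1)) rt_three ?_ ?_
  · rintro v ⟨⟨h1, h2⟩, h3, h4⟩
    refine ⟨⟨?_, ?_⟩, ?_, ?_⟩ <;> simp only <;> omega
  · rintro v ⟨⟨h1, h2⟩, h3, h4⟩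
    refine ⟨⟨⟨?_, ?_⟩, ?_, ?_⟩, ?_⟩
    · simp only; omega
    · simp only; omega
    · simp only; omega
    · simp only; omega
    · simp

theorem Ks_zero (r : ℤ) : Ks 0 r = rect (r / 2 + 1) (r / 2 + 1) (-(r / 8)) (r / 8) := by
  exact img_rt7 (f := fun v => v) (g := fun v => v) rt_zero (fun v hv => hv) (fun v hv => ⟨hv, rfl⟩)

theorem Ks_two (r : ℤ) : Ks 2 r = rect (-(r / 2) - 1) (-(r / 2) - 1) (-(r / 8)) (r / 8) := by
  refine img_rt7 (f := fun v => (-v.1, -v.2)) (g := fun v => (-v.1, -v.2)) rt_two ?_ ?_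
  · rintro v ⟨⟨h1, h2⟩, h3, h4⟩
    refine ⟨⟨?_, ?_⟩, ?_, ?_⟩ <;> simp only <;> omega
  · rintro v ⟨⟨h1, h2⟩, h3, h4⟩
    refine ⟨⟨⟨?_, ?_⟩, ?_, ?_⟩, ?_⟩
    · simp only; omega
    · simp only; omega
    · simp only; omega
    · simp only; omega
    · simp

theorem Ks_one (r : ℤ) : Ks 1 r = rect (-(r / 8)) (r / 8) (r / 2 + 1) (r / 2 + 1) := by
  refine img_rt7 (f := fun v => (-v.2, v.1)) (g := fun v => (v.2, -v.1)) rt_one ?_ ?_
  · rintro v ⟨⟨h1, h2⟩, h3, h4⟩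
    refine ⟨⟨?_, ?_⟩, ?_, ?_⟩ <;> simp only <;> omega
  · rintro v ⟨⟨h1, h2⟩, h3, h4⟩
    refine ⟨⟨⟨?_, ?_⟩, ?_, ?_⟩, ?_⟩
    · simp only; omega
    · simp only; omega
    · simp only; omega
    · simp only; omega
    · simp

theorem Ks_three (r : ℤ) : Ks 3 r = rect (-(r / 8)) (r / 8) (-(r / 2) - 1) (-(r / 2) - 1) := by
  refine img_rt7 (f := fun v => (v.2, -v.1)) (g := fun v => (-v.2, v.1)) rt_three ?_ ?_
  · rintro v ⟨⟨h1, h2⟩, h3, h4⟩
    refine ⟨⟨?_, ?_⟩, ?_, ?_⟩ <;> simp only <;> omega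
  · rintro v ⟨⟨h1, h2⟩, h3, h4⟩
    refine ⟨⟨⟨?_, ?_⟩, ?_, ?_⟩, ?_⟩
    · simp only; omega
    · simp only; omega
    · simp only; omega
    · simp only; omega
    · simp

/-- An arm which starts at the inner side of the right zone `K 0 r` and leaves `bx r` crosses the zone: it contains a site of
the column `r / 2 + 1` and a site of the column `r`, joined in `K 0 r`.  `Cn.exit` with `S = K 0 r`: `Cn (A ∩ K 0 r) u p`, `Adj p q`, `q ∉ K 0 r`,
`q` in the domain: `q ∉ bx r` or `q ∈ K 2 r`.  The second is impossible (`Adj.near`), in the first case `nrm q ≥ r + 1` and `|q.2| ≤ |p.2| + 1 ≤ r / 8 + 1 ≤ r`,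
so `q.1 ≥ r + 1`, `p.1 = r`. -/
theorem arm_zone {r : ℤ} (hr : 16 ≤ r) {Q A : Set Pt} {u v : Pt} (hu : u ∈ K 0 r)
    (h : L.Cn ((Q \ bx r ∪ (K 0 r ∪ K 2 r)) ∩ A) u v) (hv : v ∉ bx r) :
    ∃ p, p.1 = r ∧ L.Cn (K 0 r ∩ ((Q \ bx r ∪ (K 0 r ∪ K 2 r)) ∩ A)) u p := by
  have hv' : v ∉ K 0 r := by
    intro h3
    rw [K_zero] at h3
    obtain ⟨⟨h4, h5⟩, h6, h7⟩ := h3
    apply hv
    show nrm v ≤ r
    rw [nrm, max_le_iff, abs_le, abs_le]
    omega
  obtain ⟨p, q, hc, ha, hq, hqS⟩ := h.exit hu hv'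
  have hp : p ∈ K 0 r := hc.right.2
  have hp0 := hp
  rw [K_zero] at hp
  obtain ⟨⟨h4, h5⟩, h6, h7⟩ := hp
  have hn := ha.near
  rw [abs_le, abs_le] at hn
  refine ⟨p, ?_, hc.mono (fun x hx => ⟨hx.2, hx.1⟩)⟩
  rcases hq.1 with h8 | h8 | h8
  · have h9 : ¬ nrm q ≤ r := h8.2
    rw [nrm, max_le_iff, abs_le, abs_le] at h9
    omega
  · exact absurd h8 hqS
  · rw [K_two] at h8
    obtain ⟨⟨h10, h11⟩, -, -⟩ := h8
    omega

/-- the same for the left zone -/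
theorem arm_zone' {r : ℤ} (hr : 16 ≤ r) {Q A : Set Pt} {u v : Pt} (hu : u ∈ K 2 r)
    (h : L.Cn ((Q \ bx r ∪ (K 0 r ∪ K 2 r)) ∩ A) u v) (hv : v ∉ bx r) :
    ∃ p, p.1 = -r ∧ L.Cn (K 2 r ∩ ((Q \ bx r ∪ (K 0 r ∪ K 2 r)) ∩ A)) u p := by
  have hv' : v ∉ K 2 r := by
    intro h3
    rw [K_two] at h3
    obtain ⟨⟨h4, h5⟩, h6, h7⟩ := h3
    apply hv
    show nrm v ≤ r
    rw [nrm, max_le_iff, abs_le, abs_le]
    omega
  obtain ⟨p, q, hc, ha, hq, hqS⟩ := h.exit hu hv'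
  have hp : p ∈ K 2 r := hc.right.2
  rw [K_two] at hp
  obtain ⟨⟨h4, h5⟩, h6, h7⟩ := hp
  have hn := ha.near
  rw [abs_le, abs_le] at hn
  refine ⟨p, ?_, hc.mono (fun x hx => ⟨hx.2, hx.1⟩)⟩
  rcases hq.1 with h8 | h8 | h8
  · have h9 : ¬ nrm q ≤ r := h8.2
    rw [nrm, max_le_iff, abs_le, abs_le] at h9
    omega
  · rw [K_zero] at h8
    obtain ⟨⟨h10, h11⟩, -, -⟩ := h8
    omega
  · exact absurd h8 hqS

/-- HORIZONTAL CORE.  All sets below lie in `rect a b p q ∩ col c ω`.  `A₁` = the sites joined to `u` in the domain of the arms (it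
contains `v`), `A₂` the same for `u'`, `v'`; `V₀`, `V₂` = connected sets of the vertical crossings of the zones, `S` = connected set of the crossing of
the strip (`con_cluster` for the witnesses of `hk0`, `hk2`, `hs`).  By `arm_zone` and `cross` in `K 0 r = rect (r/2+1) r (-(r/8)) (r/8)`, `A₁` meets `V₀`; by `arm_zone'` and
`cross` in `K 2 r`, `A₂` meets `V₂`; by `cross` in `rect (-r) r (-(r/8)) (r/8)`, `S` meets `V₀` and `V₂`.  So the union `A₁ ∪ V₀ ∪ S ∪ V₂ ∪ A₂` is connected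
(`Con.union`), and it contains a site of the column `a` and a site of the column `b`. -/
theorem core_gen {c : Bool} {r a b p q : ℤ} {ω : Cfg} (hr : 16 ≤ r) (ha : a < -r) (hb : r < b)
    (hp : p ≤ -r) (hq : r ≤ q) {u v u' v' : Pt} (hu : u ∈ Ks 0 r) (hu' : u' ∈ Ks 2 r)
    (hv : (v.1 = b ∧ v'.1 = a) ∨ (v.1 = a ∧ v'.1 = b))
    (h1 : L.Cn ((rect a b p q \ bx r ∪ (K 0 r ∪ K 2 r)) ∩ L.col c ω) u v)
    (h2 : L.Cn ((rect a b p q \ bx r ∪ (K 0 r ∪ K 2 r)) ∩ L.col c ω) u' v')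
    (hs : L.HX c (-r) r (-(r / 8)) (r / 8) ω)
    (hk0 : L.VX c (r / 2 + 1) r (-(r / 8)) (r / 8) ω)
    (hk2 : L.VX c (-r) (-(r / 2) - 1) (-(r / 8)) (r / 8) ω) : L.HX c a b p q ω := by
  have hT : (rect a b p q \ bx r ∪ (K 0 r ∪ K 2 r)) ∩ L.col c ω ⊆ rect a b p q ∩ L.col c ω := by
    rintro w ⟨h3 | h3 | h3, h4⟩
    · exact ⟨h3.1, h4⟩
    · rw [K_zero] at h3
      obtain ⟨⟨h5, h6⟩, h7, h8⟩ := h3
      exact ⟨⟨⟨by omega, by omega⟩, by omega, by omega⟩, h4⟩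
    · rw [K_two] at h3
      obtain ⟨⟨h5, h6⟩, h7, h8⟩ := h3
      exact ⟨⟨⟨by omega, by omega⟩, by omega, by omega⟩, h4⟩
  have huK : u ∈ K 0 r := by
    rw [Ks_zero] at hu
    obtain ⟨⟨h5, h6⟩, h7, h8⟩ := hu
    rw [K_zero]
    exact ⟨⟨by omega, by omega⟩, by omega, by omega⟩
  have huK' : u' ∈ K 2 r := by
    rw [Ks_two] at hu'
    obtain ⟨⟨h5, h6⟩, h7, h8⟩ := hu'
    rw [K_two]
    exact ⟨⟨by omega, by omega⟩, by omega, by omega⟩
  have hu1 : u.1 = r / 2 + 1 := by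
    rw [Ks_zero] at hu
    obtain ⟨⟨h5, h6⟩, -, -⟩ := hu
    omega
  have hu1' : u'.1 = -(r / 2) - 1 := by
    rw [Ks_two] at hu'
    obtain ⟨⟨h5, h6⟩, -, -⟩ := hu'
    omega
  have out : ∀ w : Pt, (w.1 = a ∨ w.1 = b) → w ∉ bx r := by
    intro w hw h3
    have h4 : nrm w ≤ r := h3
    rw [nrm, max_le_iff, abs_le, abs_le] at h4
    omega
  have hvo : v ∉ bx r := out v (by omega)
  have hvo' : v' ∉ bx r := out v' (by omega)
  obtain ⟨x, hx, hcx⟩ := arm_zone hr huK h1 hvo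
  obtain ⟨x', hx', hcx'⟩ := arm_zone' hr huK' h2 hvo'
  obtain ⟨y0, z0, hy0, hz0, hV0⟩ := hk0
  obtain ⟨y2, z2, hy2, hz2, hV2⟩ := hk2
  obtain ⟨s, t, hs1, ht1, hst⟩ := hs
  have cA1 := Lat.con_cluster (L := L) ((rect a b p q \ bx r ∪ (K 0 r ∪ K 2 r)) ∩ L.col c ω) u
  have cA2 := Lat.con_cluster (L := L) ((rect a b p q \ bx r ∪ (K 0 r ∪ K 2 r)) ∩ L.col c ω) u'
  have cV0 := Lat.con_cluster (L := L) (rect (r / 2 + 1) r (-(r / 8)) (r / 8) ∩ L.col c ω) y0
  have cV2 := Lat.con_cluster (L := L) (rect (-r) (-(r / 2) - 1) (-(r / 8)) (r / 8) ∩ L.col c ω) y2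
  have cS := Lat.con_cluster (L := L) (rect (-r) r (-(r / 8)) (r / 8) ∩ L.col c ω) s
  have m10 : (({w | L.Cn ((rect a b p q \ bx r ∪ (K 0 r ∪ K 2 r)) ∩ L.col c ω) u w}) ∩
      {w | L.Cn (rect (r / 2 + 1) r (-(r / 8)) (r / 8) ∩ L.col c ω) y0 w}).Nonempty := by
    obtain ⟨w, hw1, hw2⟩ := Lat.cross (Lat.con_cluster (L := L) (K 0 r ∩
        ((rect a b p q \ bx r ∪ (K 0 r ∪ K 2 r)) ∩ L.col c ω)) u) cV0
      (fun w hw => by
        have h3 : w ∈ K 0 r := (Lat.Cn.right hw).1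
        rw [K_zero] at h3
        exact h3)
      (fun w hw => (Lat.Cn.right hw).1)
      ⟨u, Lat.Cn.refl hcx.left, hu1⟩ ⟨x, hcx, hx⟩ ⟨y0, Lat.Cn.refl hV0.left, hy0⟩ ⟨z0, hV0, hz0⟩
    exact ⟨w, Lat.Cn.mono hw1 (fun z hz => hz.2), hw2⟩
  have m22 : (({w | L.Cn (rect (-r) (-(r / 2) - 1) (-(r / 8)) (r / 8) ∩ L.col c ω) y2 w}) ∩
      {w | L.Cn ((rect a b p q \ bx r ∪ (K 0 r ∪ K 2 r)) ∩ L.col c ω) u' w}).Nonempty := by
    obtain ⟨w, hw1, hw2⟩ := Lat.cross (Lat.con_cluster (L := L) (K 2 r ∩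
        ((rect a b p q \ bx r ∪ (K 0 r ∪ K 2 r)) ∩ L.col c ω)) u') cV2
      (fun w hw => by
        have h3 : w ∈ K 2 r := (Lat.Cn.right hw).1
        rw [K_two] at h3
        exact h3)
      (fun w hw => (Lat.Cn.right hw).1)
      ⟨x', hcx', hx'⟩ ⟨u', Lat.Cn.refl hcx'.left, hu1'⟩ ⟨y2, Lat.Cn.refl hV2.left, hy2⟩ ⟨z2, hV2, hz2⟩
    exact ⟨w, hw2, Lat.Cn.mono hw1 (fun z hz => hz.2)⟩
  have mS0 : (({w | L.Cn (rect (-r) r (-(r / 8)) (r / 8) ∩ L.col c ω) s w}) ∩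
      {w | L.Cn (rect (r / 2 + 1) r (-(r / 8)) (r / 8) ∩ L.col c ω) y0 w}).Nonempty :=
    Lat.cross cS cV0 (fun w hw => (Lat.Cn.right hw).1)
      (fun w hw => by
        obtain ⟨⟨h5, h6⟩, h7, h8⟩ := (Lat.Cn.right hw).1
        exact ⟨⟨by omega, by omega⟩, by omega, by omega⟩)
      ⟨s, Lat.Cn.refl hst.left, hs1⟩ ⟨t, hst, ht1⟩ ⟨y0, Lat.Cn.refl hV0.left, hy0⟩ ⟨z0, hV0, hz0⟩
  have mS2 : (({w | L.Cn (rect (-r) r (-(r / 8)) (r / 8) ∩ L.col c ω) s w}) ∩
      {w | L.Cn (rect (-r) (-(r / 2) - 1) (-(r / 8)) (r / 8) ∩ L.col c ω) y2 w}).Nonempty :=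
    Lat.cross cS cV2 (fun w hw => (Lat.Cn.right hw).1)
      (fun w hw => by
        obtain ⟨⟨h5, h6⟩, h7, h8⟩ := (Lat.Cn.right hw).1
        exact ⟨⟨by omega, by omega⟩, by omega, by omega⟩)
      ⟨s, Lat.Cn.refl hst.left, hs1⟩ ⟨t, hst, ht1⟩ ⟨y2, Lat.Cn.refl hV2.left, hy2⟩ ⟨z2, hV2, hz2⟩
  have c1 := Lat.Con.union cA1 cV0 m10
  have c2 := Lat.Con.union c1 cS (by
    obtain ⟨w, hw1, hw2⟩ := mS0
    exact ⟨w, Or.inr hw2, hw1⟩)
  have c3 := Lat.Con.union c2 cV2 (by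
    obtain ⟨w, hw1, hw2⟩ := mS2
    exact ⟨w, Or.inr hw1, hw2⟩)
  have c4 := Lat.Con.union c3 cA2 (by
    obtain ⟨w, hw1, hw2⟩ := m22
    exact ⟨w, Or.inr hw1, hw2⟩)
  have hsub : ((((({w | L.Cn ((rect a b p q \ bx r ∪ (K 0 r ∪ K 2 r)) ∩ L.col c ω) u w}) ∪
      {w | L.Cn (rect (r / 2 + 1) r (-(r / 8)) (r / 8) ∩ L.col c ω) y0 w}) ∪
      {w | L.Cn (rect (-r) r (-(r / 8)) (r / 8) ∩ L.col c ω) s w}) ∪
      {w | L.Cn (rect (-r) (-(r / 2) - 1) (-(r / 8)) (r / 8) ∩ L.col c ω) y2 w}) ∪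
      {w | L.Cn ((rect a b p q \ bx r ∪ (K 0 r ∪ K 2 r)) ∩ L.col c ω) u' w}) ⊆
      rect a b p q ∩ L.col c ω := by
    rintro w ((((hw | hw) | hw) | hw) | hw)
    · exact hT (Lat.Cn.right hw)
    · obtain ⟨⟨⟨h5, h6⟩, h7, h8⟩, h9⟩ := Lat.Cn.right hw
      exact ⟨⟨⟨by omega, by omega⟩, by omega, by omega⟩, h9⟩
    · obtain ⟨⟨⟨h5, h6⟩, h7, h8⟩, h9⟩ := Lat.Cn.right hw
      exact ⟨⟨⟨by omega, by omega⟩, by omega, by omega⟩, h9⟩
    · obtain ⟨⟨⟨h5, h6⟩, h7, h8⟩, h9⟩ := Lat.Cn.right hw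
      exact ⟨⟨⟨by omega, by omega⟩, by omega, by omega⟩, h9⟩
    · exact hT (Lat.Cn.right hw)
  have hc : L.Cn (rect a b p q ∩ L.col c ω) v v' :=
    (c4 v (Or.inl (Or.inl (Or.inl (Or.inl h1)))) v' (Or.inr h2)).mono hsub
  rcases hv with ⟨h3, h4⟩ | ⟨h3, h4⟩
  · exact ⟨v', v, h4, h3, hc.symm⟩
  · exact ⟨v, v', h3, h4, hc⟩

/-- The same in the vertical direction: `core_gen` for the lattice `L.tr` and the configuration `via (Equiv.prodComm ℤ ℤ) ω`
(`tr_hx`, `tr_vx`, `tr_cn`; transposition maps `K 1 r`, `K 3 r` to `K 0 r`, `K 2 r` by `K_zero`, ..., `K_three`). -/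
theorem core_gen' {c : Bool} {r a b p q : ℤ} {ω : Cfg} (hr : 16 ≤ r) (hp : p < -r) (hq : r < q)
    (ha : a ≤ -r) (hb : r ≤ b) {u v u' v' : Pt} (hu : u ∈ Ks 1 r) (hu' : u' ∈ Ks 3 r)
    (hv : (v.2 = q ∧ v'.2 = p) ∨ (v.2 = p ∧ v'.2 = q))
    (h1 : L.Cn ((rect a b p q \ bx r ∪ (K 1 r ∪ K 3 r)) ∩ L.col c ω) u v)
    (h2 : L.Cn ((rect a b p q \ bx r ∪ (K 1 r ∪ K 3 r)) ∩ L.col c ω) u' v')
    (hs : L.VX c (-(r / 8)) (r / 8) (-r) r ω)
    (hk1 : L.HX c (-(r / 8)) (r / 8) (r / 2 + 1) r ω)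
    (hk3 : L.HX c (-(r / 8)) (r / 8) (-r) (-(r / 2) - 1) ω) : L.VX c a b p q ω := by
  have key : ∀ x y : Pt, L.Cn ((rect a b p q \ bx r ∪ (K 1 r ∪ K 3 r)) ∩ L.col c ω) x y →
      L.tr.Cn ((rect p q a b \ bx r ∪ (K 0 r ∪ K 2 r)) ∩
        L.tr.col c (via (Equiv.prodComm ℤ ℤ) ω)) (x.2, x.1) (y.2, y.1) := by
    intro x y h3
    refine ((tr_tr L).cn _ _ _).2 ?_
    show L.Cn _ (x.1, x.2) (y.1, y.2)
    refine Lat.Cn.mono h3 ?_
    rintro w ⟨hw, hwc⟩
    refine ⟨(w.2, w.1), ⟨?_, ?_⟩, rfl⟩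
    · rcases hw with h4 | h4 | h4
      · refine Or.inl ⟨⟨h4.1.2, h4.1.1⟩, fun h5 => h4.2 ?_⟩
        have h6 : max |w.2| |w.1| ≤ r := h5
        show max |w.1| |w.2| ≤ r
        rw [max_comm]
        exact h6
      · refine Or.inr (Or.inl ?_)
        rw [K_one] at h4
        rw [K_zero]
        exact ⟨h4.2, h4.1⟩
      · refine Or.inr (Or.inr ?_)
        rw [K_three] at h4
        rw [K_two]
        exact ⟨h4.2, h4.1⟩
    · show L.tr.st (via (Equiv.prodComm ℤ ℤ) ω) (w.2, w.1) = c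
      rw [(tr_tr L).st]
      exact hwc
  refine (tr_hx L c p q a b ω).1 (core_gen (u := (u.2, u.1)) (u' := (u'.2, u'.1))
    (v := (v.2, v.1)) (v' := (v'.2, v'.1)) hr hp hq ha hb ?_ ?_ hv (key u v h1) (key u' v' h2)
    ((tr_hx L c _ _ _ _ ω).2 hs) ((tr_vx L c _ _ _ _ ω).2 hk1) ((tr_vx L c _ _ _ _ ω).2 hk3))
  · rw [Ks_one] at hu
    rw [Ks_zero]
    exact ⟨hu.2, hu.1⟩
  · rw [Ks_three] at hu'
    rw [Ks_two]
    exact ⟨hu'.2, hu'.1⟩

/-- BOX EVENT and CORE EVENT give the crossing in the direction of the colour (`core_gen`, `core_gen'`). -/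
theorem SQ_Co_DX {c : Bool} {r a b p q : ℤ} {ω : Cfg} (hr : 16 ≤ r) (ha : a < -r) (hb : r < b)
    (hp : p < -r) (hq : r < q) (h : L.SQ c r a b p q ω) (h' : L.Co c r ω) :
    L.DX c a b p q ω := by
  cases c with
  | true =>
    have e0 : dc true = 0 := if_pos rfl
    have eK : Kc true r = K 0 r ∪ K 2 r := by
      unfold Kc
      rw [e0, zero_add]
    have e1 : sdp true b q = {v : Pt | v.1 = b} := if_pos rfl
    have e2 : sdm true a p = {v : Pt | v.1 = a} := if_pos rfl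
    have e3 : L.DX true a b p q ω = L.HX true a b p q ω := if_pos rfl
    have e4 : L.Co true r ω = (L.HX true (-r) r (-(r / 8)) (r / 8) ω ∧
      L.VX true (r / 2 + 1) r (-(r / 8)) (r / 8) ω ∧
      L.VX true (-r) (-(r / 2) - 1) (-(r / 8)) (r / 8) ω) := if_pos rfl
    rw [e4] at h'
    rw [e3]
    unfold Lat.SQ at h
    rw [eK, e0, zero_add, e1, e2] at h
    obtain ⟨hs, hk0, hk2⟩ := h'
    rcases h with ⟨⟨u, hu, v, hv, hc⟩, ⟨u', hu', v', hv', hc'⟩⟩ |
      ⟨⟨u, hu, v, hv, hc⟩, ⟨u', hu', v', hv', hc'⟩⟩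
    · exact core_gen hr ha hb hp.le hq.le hu hu' (Or.inl ⟨hv, hv'⟩) hc hc' hs hk0 hk2
    · exact core_gen hr ha hb hp.le hq.le hu hu' (Or.inr ⟨hv, hv'⟩) hc hc' hs hk0 hk2
  | false =>
    have hf : ¬ (false = true) := Bool.false_ne_true
    have e0 : dc false = 1 := if_neg hf
    have e5 : (1 : ℤ) + 2 = 3 := by norm_num
    have eK : Kc false r = K 1 r ∪ K 3 r := by
      unfold Kc
      rw [e0, e5]
    have e1 : sdp false b q = {v : Pt | v.2 = q} := if_neg hf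
    have e2 : sdm false a p = {v : Pt | v.2 = p} := if_neg hf
    have e3 : L.DX false a b p q ω = L.VX false a b p q ω := if_neg hf
    have e4 : L.Co false r ω = (L.VX false (-(r / 8)) (r / 8) (-r) r ω ∧
      L.HX false (-(r / 8)) (r / 8) (r / 2 + 1) r ω ∧
      L.HX false (-(r / 8)) (r / 8) (-r) (-(r / 2) - 1) ω) := if_neg hf
    rw [e4] at h'
    rw [e3]
    unfold Lat.SQ at h
    rw [eK, e0, e5, e1, e2] at h
    obtain ⟨hs, hk0, hk2⟩ := h'
    rcases h with ⟨⟨u, hu, v, hv, hc⟩, ⟨u', hu', v', hv', hc'⟩⟩ |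
      ⟨⟨u, hu, v, hv, hc⟩, ⟨u', hu', v', hv', hc'⟩⟩
    · exact core_gen' hr hp hq ha.le hb.le hu hu' (Or.inl ⟨hv, hv'⟩) hc hc' hs hk0 hk2
    · exact core_gen' hr hp hq ha.le hb.le hu hu' (Or.inr ⟨hv, hv'⟩) hc hc' hs hk0 hk2

end XP

end SC

end

/-! ### from `Lib_MP_e0a489.XP10` -/

section

/-!
# MP_e0a489, exponents 10: box events and core events (probability)
-/

set_option autoImplicit false

namespace SC

namespace XP

open Classical

private theorem xp10_mon_and {c : Bool} {A B : Cfg → Prop} (hA : MonC c A) (hB : MonC c B) :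
    MonC c (fun ω => A ω ∧ B ω) := by
  cases c with
  | true =>
    intro ω ω' h1 h2
    exact ⟨hA ω ω' h1 h2.1, hB ω ω' h1 h2.2⟩
  | false =>
    intro ω ω' h1 h2
    exact ⟨hA ω ω' h1 h2.1, hB ω ω' h1 h2.2⟩

private theorem xp10_mon_or {c : Bool} {A B : Cfg → Prop} (hA : MonC c A) (hB : MonC c B) :
    MonC c (fun ω => A ω ∨ B ω) := by
  cases c with
  | true =>
    intro ω ω' h1 h2
    exact h2.imp (hA ω ω' h1) (hB ω ω' h1)
  | false =>
    intro ω ω' h1 h2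
    exact h2.imp (hA ω ω' h1) (hB ω ω' h1)

private theorem xp10_harris {c : Bool} {A B : Cfg → Prop} (lA : Loc A) (lB : Loc B)
    (hA : MonC c A) (hB : MonC c B) : pr A * pr B ≤ pr (fun ω => A ω ∧ B ω) := by
  cases c with
  | true => exact pr_harris lA lB hA hB
  | false => exact pr_harris_dec lA lB hA hB

private theorem xp10_rect_finite (a b p q : ℤ) : (rect a b p q).Finite := by
  have h : rect a b p q ⊆ Set.Icc a b ×ˢ Set.Icc p q := by
    rintro v ⟨h1, h2⟩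
    exact ⟨h1, h2⟩
  exact ((Set.finite_Icc a b).prod (Set.finite_Icc p q)).subset h

private theorem xp10_fin (c : Bool) (r a b p q : ℤ) :
    (rect a b p q \ bx r ∪ Kc c r).Finite := by
  refine Set.Finite.union ((xp10_rect_finite a b p q).subset Set.sdiff_subset) ?_
  unfold Kc K
  exact ((xp10_rect_finite _ _ _ _).image _).union ((xp10_rect_finite _ _ _ _).image _)

/-- `Arm.mon`; conjunctions and disjunctions of increasing (decreasing) events are increasing (decreasing) -/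
theorem SQ_mon (L : Lat) (c : Bool) (r a b p q : ℤ) : MonC c (L.SQ c r a b p q) := by
  exact xp10_mon_or (xp10_mon_and (Lat.Arm.mon L c _ _ _) (Lat.Arm.mon L c _ _ _))
    (xp10_mon_and (Lat.Arm.mon L c _ _ _) (Lat.Arm.mon L c _ _ _))

/-- `Arm.loc`; the domain is contained in `rect a b p q ∪ bx r` -/
theorem SQ_loc (L : Lat) (c : Bool) (r a b p q : ℤ) : Loc (L.SQ c r a b p q) := by
  have hf := xp10_fin c r a b p q
  exact Loc.or (Loc.and (Lat.Arm.loc L c _ _ _ hf) (Lat.Arm.loc L c _ _ _ hf))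
    (Loc.and (Lat.Arm.loc L c _ _ _ hf) (Lat.Arm.loc L c _ _ _ hf))

theorem Co_mon (L : Lat) (c : Bool) (r : ℤ) : MonC c (L.Co c r) := by
  cases c with
  | true =>
    exact xp10_mon_and (c := true) (Lat.HX.mon L true _ _ _ _)
      (xp10_mon_and (Lat.VX.mon L true _ _ _ _) (Lat.VX.mon L true _ _ _ _))
  | false =>
    exact xp10_mon_and (c := false) (Lat.VX.mon L false _ _ _ _)
      (xp10_mon_and (Lat.HX.mon L false _ _ _ _) (Lat.HX.mon L false _ _ _ _))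

private theorem xp10_sub {r a b p q : ℤ} (ha : -r ≤ a) (hb : b ≤ r) (hp : -r ≤ p) (hq : q ≤ r) :
    rect a b p q ⊆ bx r := by
  rintro v ⟨⟨h1, h2⟩, h3, h4⟩
  show max |v.1| |v.2| ≤ r
  rw [max_le_iff, abs_le, abs_le]
  exact ⟨⟨by linarith, by linarith⟩, by linarith, by linarith⟩

private theorem xp10_dep_and {A B : Cfg → Prop} {D : Set Pt} (hA : Dep A D) (hB : Dep B D) :
    Dep (fun ω => A ω ∧ B ω) D := by
  intro ω ω' h
  show (A ω ∧ B ω) = (A ω' ∧ B ω')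
  rw [hA ω ω' h, hB ω ω' h]

/-- `HX.dep`, `VX.dep`; the rectangles lie in `bx r` -/
theorem Co_dep (L : Lat) (c : Bool) {r : ℤ} (hr : 0 ≤ r) : Dep (L.Co c r) (bx r) := by
  cases c with
  | true =>
    exact xp10_dep_and ((Lat.HX.dep L true _ _ _ _).mono
        (xp10_sub (by omega) (by omega) (by omega) (by omega)))
      (xp10_dep_and ((Lat.VX.dep L true _ _ _ _).mono
        (xp10_sub (by omega) (by omega) (by omega) (by omega)))
        ((Lat.VX.dep L true _ _ _ _).mono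
        (xp10_sub (by omega) (by omega) (by omega) (by omega))))
  | false =>
    exact xp10_dep_and ((Lat.VX.dep L false _ _ _ _).mono
        (xp10_sub (by omega) (by omega) (by omega) (by omega)))
      (xp10_dep_and ((Lat.HX.dep L false _ _ _ _).mono
        (xp10_sub (by omega) (by omega) (by omega) (by omega)))
        ((Lat.HX.dep L false _ _ _ _).mono
        (xp10_sub (by omega) (by omega) (by omega) (by omega))))

theorem Co_loc (L : Lat) (c : Bool) (r : ℤ) : Loc (L.Co c r) := by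
  cases c with
  | true =>
    exact Loc.and (Lat.HX.loc L true _ _ _ _)
      (Loc.and (Lat.VX.loc L true _ _ _ _) (Lat.VX.loc L true _ _ _ _))
  | false =>
    exact Loc.and (Lat.VX.loc L false _ _ _ _)
      (Loc.and (Lat.HX.loc L false _ _ _ _) (Lat.HX.loc L false _ _ _ _))

private theorem xp10_three {c : Bool} {A B C : Cfg → Prop} {t : ℝ} (ht : 0 < t) (lA : Loc A)
    (lB : Loc B) (lC : Loc C) (mA : MonC c A) (mB : MonC c B) (mC : MonC c C) (hA : t ≤ pr A)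
    (hB : t ≤ pr B) (hC : t ≤ pr C) : t ^ 3 ≤ pr (fun ω => A ω ∧ (B ω ∧ C ω)) := by
  have h1 := xp10_harris lB lC mB mC
  have h2 := xp10_harris lA (Loc.and lB lC) mA (xp10_mon_and mB mC)
  have h3 : t * t ≤ pr B * pr C := mul_le_mul hB hC ht.le (ht.le.trans hB)
  have h4 : t * (t * t) ≤ pr A * pr (fun ω => B ω ∧ C ω) :=
    mul_le_mul hA (h3.trans h1) (by positivity) (ht.le.trans hA)
  calc t ^ 3 = t * (t * t) := by ring
    _ ≤ _ := h4.trans h2

/-- Three crossings of rectangles of aspect ratio at most `16` (`RSW.hx'`, `RSW.vx'`), Harris (`pr_harris_mon` or twice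
`pr_harris`, `pr_harris_dec`). -/
theorem co_pr {L : Lat} {κ : ℕ → ℝ} (h : RSW L κ) (c : Bool) {r : ℤ} (hr : 64 ≤ r) :
    κ 16 ^ 3 ≤ pr (L.Co c r) := by
  cases c with
  | true =>
    exact xp10_three (c := true) (h.pos 16) (Lat.HX.loc L true _ _ _ _)
      (Lat.VX.loc L true _ _ _ _) (Lat.VX.loc L true _ _ _ _) (Lat.HX.mon L true _ _ _ _)
      (Lat.VX.mon L true _ _ _ _) (Lat.VX.mon L true _ _ _ _)
      (h.hx' (by norm_num) true (by omega) (by omega) (by push_cast; omega))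
      (h.vx' (by norm_num) true (by omega) (by omega) (by push_cast; omega))
      (h.vx' (by norm_num) true (by omega) (by omega) (by push_cast; omega))
  | false =>
    exact xp10_three (c := false) (h.pos 16) (Lat.VX.loc L false _ _ _ _)
      (Lat.HX.loc L false _ _ _ _) (Lat.HX.loc L false _ _ _ _) (Lat.VX.mon L false _ _ _ _)
      (Lat.HX.mon L false _ _ _ _) (Lat.HX.mon L false _ _ _ _)
      (h.vx' (by norm_num) false (by omega) (by omega) (by push_cast; omega))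
      (h.hx' (by norm_num) false (by omega) (by omega) (by push_cast; omega))
      (h.hx' (by norm_num) false (by omega) (by omega) (by push_cast; omega))

private theorem xp10_disj {A B C : Cfg → Prop} (lA : Loc A) (lB : Loc B) (lC : Loc C)
    (h : ∀ ω, ¬ (A ω ∧ B ω)) (hA : ∀ ω, A ω → C ω) (hB : ∀ ω, B ω → C ω) :
    pr A + pr B ≤ pr C := by
  unfold pr
  rw [← ex_add lA.lf lB.lf]
  refine ex_mono (lA.lf.add lB.lf) lC.lf (fun ω => ?_)
  unfold ind
  by_cases h1 : A ω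
  · have h2 : ¬ B ω := fun h2 => h ω ⟨h1, h2⟩
    rw [if_pos h1, if_neg h2, if_pos (hA ω h1)]
    norm_num
  · by_cases h2 : B ω
    · rw [if_neg h1, if_pos h2, if_pos (hB ω h2)]
      norm_num
    · rw [if_neg h1, if_neg h2]
      split_ifs <;> norm_num

/-- CORE INFLUENCE.  Write `f = HX true`, `s = SQ true`, `s' = SQ false`, `u = Co true`, `v = Co false` (events).
(a) `s ∧ u ⊆ f` (`SQ_Co_DX`), so `(f ∨ s) ∧ u = f ∧ u`; `f ∨ s` and `u` are increasing: `P(f ∧ u) ≥ P(f ∨ s) P(u)` (`pr_harris`).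
(b) `s' ∧ v ⊆ VX false`, which excludes `f` (`hex_not`), so `f ∧ v = (f ∧ ¬ s') ∧ v`; `f ∧ ¬ s'` is increasing, `v` decreasing:
`P(f ∧ v) ≤ P(f ∧ ¬ s') P(v)` (`pr_harris_neg`).
(c) `f ∧ ¬ s'` and `s ∧ s'` are disjoint events contained in `f ∨ s`, so `P(f ∨ s) - P(f ∧ ¬ s') ≥ P(s ∧ s')`. -/
theorem core_infl {L : Lat} {r a b p q : ℤ} (hr : 16 ≤ r) (ha : a < -r) (hb : r < b)
    (hp : p < -r) (hq : r < q) (h0 : 0 < pr (L.Co true r)) (h1 : 0 < pr (L.Co false r)) :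
    pr (fun ω => L.SQ true r a b p q ω ∧ L.SQ false r a b p q ω) ≤
      pr (fun ω => L.HX true a b p q ω ∧ L.Co true r ω) / pr (L.Co true r) -
        pr (fun ω => L.HX true a b p q ω ∧ L.Co false r ω) / pr (L.Co false r) := by
  have lf : Loc (L.HX true a b p q) := Lat.HX.loc L true a b p q
  have ls := SQ_loc L true r a b p q
  have ls' := SQ_loc L false r a b p q
  have lu := Co_loc L true r
  have lv := Co_loc L false r
  have mf : Inc (L.HX true a b p q) := Lat.HX.mon L true a b p q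
  have ms : Inc (L.SQ true r a b p q) := SQ_mon L true r a b p q
  have ms' : Dec (L.SQ false r a b p q) := SQ_mon L false r a b p q
  have mu : Inc (L.Co true r) := Co_mon L true r
  have mv : Dec (L.Co false r) := Co_mon L false r
  have mfs : Inc (fun ω => L.HX true a b p q ω ∨ L.SQ true r a b p q ω) := fun ω ω' g1 g2 =>
    g2.imp (mf ω ω' g1) (ms ω ω' g1)
  have mfn : Inc (fun ω => L.HX true a b p q ω ∧ ¬ L.SQ false r a b p q ω) := fun ω ω' g1 g2 =>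
    ⟨mf ω ω' g1 g2.1, fun g3 => g2.2 (ms' ω ω' g1 g3)⟩
  -- (a)
  have ea : pr (fun ω => L.HX true a b p q ω ∨ L.SQ true r a b p q ω) * pr (L.Co true r) ≤
      pr (fun ω => L.HX true a b p q ω ∧ L.Co true r ω) := by
    refine le_trans (pr_harris (lf.or ls) lu mfs mu) ?_
    refine pr_mono ((lf.or ls).and lu) (lf.and lu) (fun ω hω => ?_)
    obtain ⟨hω1, hω2⟩ := hω
    refine ⟨?_, hω2⟩
    rcases hω1 with hω1 | hω1
    · exact hω1
    · have := SQ_Co_DX hr ha hb hp hq hω1 hω2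
      unfold Lat.DX at this
      rwa [if_pos rfl] at this
  -- (b)
  have eb : pr (fun ω => L.HX true a b p q ω ∧ L.Co false r ω) ≤
      pr (fun ω => L.HX true a b p q ω ∧ ¬ L.SQ false r a b p q ω) * pr (L.Co false r) := by
    refine le_trans ?_ (pr_harris_neg (lf.and ls'.not) lv mfn mv)
    refine pr_mono (lf.and lv) ((lf.and ls'.not).and lv) (fun ω hω => ?_)
    refine ⟨⟨hω.1, fun g => ?_⟩, hω.2⟩
    have := SQ_Co_DX hr ha hb hp hq g hω.2
    unfold Lat.DX at this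
    rw [if_neg (by decide)] at this
    exact Lat.hex_not hω.1 this
  -- (c)
  have ec : pr (fun ω => L.SQ true r a b p q ω ∧ L.SQ false r a b p q ω) +
      pr (fun ω => L.HX true a b p q ω ∧ ¬ L.SQ false r a b p q ω) ≤
        pr (fun ω => L.HX true a b p q ω ∨ L.SQ true r a b p q ω) := by
    refine xp10_disj (ls.and ls') (lf.and ls'.not) (lf.or ls) ?_ ?_ ?_
    · rintro ω ⟨g1, g2⟩
      exact g2.2 g1.2
    · intro ω g
      exact Or.inr g.1
    · intro ω g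
      exact Or.inl g.1
  have ea' := (le_div_iff₀ h0).2 ea
  have eb' := (div_le_iff₀ h1).2 eb
  linarith

end XP

end SC

end

/-! ### from `Lib_MP_e0a489.XP5` -/

section

/-!
# MP_e0a489, exponents 5: exploration from a column
-/

set_option autoImplicit false

namespace SC

namespace XP

open Classical

variable {L : Lat}

/-- A connected set of colour `c` in `M` that meets the source is explored.  Let `s ∈ P ∩ S` and `v ∈ P \ S`.  `Cn.last` for the path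
`Cn P s v` and the set `S`: `p ∈ S`, `Adj p q`, `Cn (P \ S) q v`; so `q ∈ L.nb S` and `v ∈ L.cl c (M \ S) S ω`. -/
theorem Cx_of_path {c : Bool} {M S P : Set Pt} {ω : Cfg} (hP : L.Con P) (hPM : P ⊆ M)
    (hPc : P ⊆ L.col c ω) (hPS : (P ∩ S).Nonempty) : P ⊆ L.Cx c M S ω := by
  intro v hv
  by_cases hvS : v ∈ S
  · exact Or.inl hvS
  · obtain ⟨s, hsP, hsS⟩ := hPS
    obtain ⟨p, q, -, hpS, hpq, hqv⟩ := (hP s hsP v hv).last hsS hvS
    exact Or.inr ⟨q, ⟨p, hpS, hpq⟩, hqv.mono fun z hz => ⟨⟨hPM hz.1, hz.2⟩, hPc hz.1⟩⟩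

/-- A path from `{v.1 ≤ x}` to `{x ≤ v.1}` contains a site of the column `x` (`Cn.exit` with `{v.1 < x}`, `Adj.near`). -/
theorem meets_col {A : Set Pt} {u v : Pt} {x : ℤ} (h : L.Cn A u v) (hu : u.1 ≤ x) (hv : x ≤ v.1) :
    ∃ w, w.1 = x ∧ L.Cn A u w := by
  by_cases hux : u.1 = x
  · exact ⟨u, hux, Lat.Cn.refl h.left⟩
  · have hu' : u ∈ {z : Pt | z.1 < x} := lt_of_le_of_ne hu hux
    have hv' : v ∉ {z : Pt | z.1 < x} := fun hc => absurd (show v.1 < x from hc) (not_lt.2 hv)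
    obtain ⟨p, q, hc, ha, hq, hqS⟩ := h.exit hu' hv'
    have h1 : p.1 < x := hc.right.2
    have h2 : ¬ q.1 < x := hqS
    have h3 := abs_le.1 ha.near.1
    refine ⟨q, by omega, (hc.mono Set.inter_subset_left).trans (Lat.Cn.of_adj hc.right.1 hq ha)⟩

/-- Let `u`, `v` be the ends of the crossing, `P = {z | Cn (rect ∩ col true ω) u z}` (`con_cluster`).  `meets_col`: `P` meets
the column `x`, so `P ⊆ Cx ⊆ Rev` (`Cx_of_path`); the sites of `P` have the same colour in `ω'`. -/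
theorem hx_of_rev {a b p q x : ℤ} (hax : a ≤ x) (hxb : x ≤ b) {ω ω' : Cfg}
    (h : ∀ v ∈ L.Rev true (rect a b p q) (rect x x p q) ω, ω v = ω' v)
    (hω : L.HX true a b p q ω) : L.HX true a b p q ω' := by
  obtain ⟨u, v, hu, hv, hc⟩ := hω
  obtain ⟨w, hw, huw⟩ := meets_col (x := x) hc (by omega) (by omega)
  have hP : L.Con {z | L.Cn (rect a b p q ∩ L.col true ω) u z} := Lat.con_cluster _ u
  have hsub : {z | L.Cn (rect a b p q ∩ L.col true ω) u z} ⊆
      L.Cx true (rect a b p q) (rect x x p q) ω := by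
    refine Cx_of_path hP (fun z hz => ?_) (fun z hz => ?_) ⟨w, huw, ?_⟩
    · exact (Lat.Cn.right (show L.Cn _ u z from hz)).1
    · exact (Lat.Cn.right (show L.Cn _ u z from hz)).2
    · have h1 := huw.right.1
      exact ⟨⟨hw.ge, hw.le⟩, h1.2⟩
  refine ⟨u, v, hu, hv, (hP u (Lat.Cn.refl hc.left) v hc).mono (fun z hz => ?_)⟩
  have h1 : L.Cn (rect a b p q ∩ L.col true ω) u z := hz
  have h2 := h z (Or.inl (hsub hz))
  refine ⟨h1.right.1, ?_⟩
  have h3 : L.st ω z = true := h1.right.2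
  show (L.typ z).getD (ω' z) = true
  rw [← h2]
  exact h3

/-- The crossing is determined by the explored sites: `hx_of_rev` in both directions, `Rev_stop`. -/
theorem hx_stop {a b p q x : ℤ} (hax : a ≤ x) (hxb : x ≤ b) {ω ω' : Cfg}
    (h : ∀ v ∈ L.Rev true (rect a b p q) (rect x x p q) ω, ω v = ω' v) :
    L.HX true a b p q ω ↔ L.HX true a b p q ω' := by
  refine ⟨hx_of_rev hax hxb h, hx_of_rev hax hxb ?_⟩
  have e := Lat.Rev_stop L true (rect a b p q) (rect x x p q) ω ω' h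
  rw [e]
  exact fun v hv => (h v hv).symm

/-- the explored sites lie in the domain -/
theorem Rev_sub {c : Bool} {M S : Set Pt} (h : S ⊆ M) (ω : Cfg) : L.Rev c M S ω ⊆ M := by
  rintro v (hv | hv)
  · exact Lat.Cx_sub h hv
  · exact hv.1

theorem bx_rect5 (N : ℤ) : bx N = rect (-N) N (-N) N := by
  ext v
  constructor
  · intro h
    obtain ⟨h1, h2⟩ := max_le_iff.1 (show nrm v ≤ N from h)
    exact ⟨abs_le.1 h1, abs_le.1 h2⟩
  · intro h
    exact max_le (abs_le.2 h.1) (abs_le.2 h.2)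

theorem src_sub {N x : ℤ} (hx : |x| ≤ N) : rect x x (-N) N ⊆ bx N := by
  rw [bx_rect5]
  intro v hv
  have h := abs_le.1 hx
  exact ⟨⟨h.1.trans hv.1.1, hv.1.2.trans h.2⟩, hv.2⟩

/-- an explored site belongs to a block of `Rb` (`exists_blk`, `Rev_sub`) -/
theorem Rev_blk {M w x : ℤ} (hw : w % 2 = 1) (hw0 : 0 < w) (hx : |x| ≤ M * w + w / 2) {ω : Cfg}
    {v : Pt} (hv : v ∈ L.Rev true (bx (M * w + w / 2))
      (rect x x (-(M * w + w / 2)) (M * w + w / 2)) ω) :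
    ∃ B ∈ L.Rb M w x ω, v ∈ B := by
  obtain ⟨z, hz, hvz⟩ := exists_blk hw hw0 (Rev_sub (src_sub hx) ω hv)
  refine ⟨blkF w z, ?_, hvz⟩
  unfold Lat.Rb
  rw [Finset.mem_filter]
  exact ⟨Finset.mem_image_of_mem _ (mem_rectF_nrm.2 hz), v, hvz, hv⟩

/-- `Rb` is a stopping set: if `ω = ω'` on the blocks of `Rb ω`, then `ω = ω'` on the explored sites (`Rev_blk`), so the explored
sites are the same (`Rev_stop`). -/
theorem Rb_stop {M w x : ℤ} (hw : w % 2 = 1) (hw0 : 0 < w) (hx : |x| ≤ M * w + w / 2) :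
    BStop (blks M w) (L.Rb M w x) := by
  refine ⟨fun ω => Finset.filter_subset _ _, fun ω ω' h => ?_⟩
  have e := Lat.Rev_stop L true (bx (M * w + w / 2))
    (rect x x (-(M * w + w / 2)) (M * w + w / 2)) ω ω' (fun v hv => by
      obtain ⟨B, hB, hvB⟩ := Rev_blk hw hw0 hx hv
      exact h B hB v hvB)
  unfold Lat.Rb
  rw [e]

/-- `Rb` determines the crossing (`hx_stop`, `Rev_blk`; `bx N = rect (-N) N (-N) N`) -/
theorem Rb_hx {M w x : ℤ} (hw : w % 2 = 1) (hw0 : 0 < w) (hx : |x| ≤ M * w + w / 2) {ω ω' : Cfg}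
    (h : ∀ B ∈ L.Rb M w x ω, ∀ v ∈ B, ω v = ω' v) :
    ind (L.HX true (-(M * w + w / 2)) (M * w + w / 2) (-(M * w + w / 2)) (M * w + w / 2)) ω' =
      ind (L.HX true (-(M * w + w / 2)) (M * w + w / 2) (-(M * w + w / 2)) (M * w + w / 2)) ω := by
  have e : L.HX true (-(M * w + w / 2)) (M * w + w / 2) (-(M * w + w / 2)) (M * w + w / 2) ω ↔
      L.HX true (-(M * w + w / 2)) (M * w + w / 2) (-(M * w + w / 2)) (M * w + w / 2) ω' := by
    refine hx_stop (x := x) (by have := (abs_le.1 hx).1; omega) (abs_le.1 hx).2 (fun v hv => ?_)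
    rw [← bx_rect5] at hv
    obtain ⟨B, hB, hvB⟩ := Rev_blk hw hw0 hx hv
    exact h B hB v hvB
  unfold ind
  rw [propext e]

/-- The set of explored blocks depends only on the sites of `bx (M w + w / 2)` (if `ω = ω'` there, then `ω = ω'` on the explored
sites, `Rev_stop`), so the event is local. -/
theorem Rb_dep {M w x : ℤ} (hw : w % 2 = 1) (hw0 : 0 < w) (hx : |x| ≤ M * w + w / 2)
    (B : Finset Pt) : Dep (fun ω => B ∈ L.Rb M w x ω) (bx (M * w + w / 2)) := by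
  intro ω ω' h
  have e := Lat.Rev_stop L true (bx (M * w + w / 2))
    (rect x x (-(M * w + w / 2)) (M * w + w / 2)) ω ω' (fun v hv => h v (Rev_sub (src_sub hx) ω hv))
  show (B ∈ L.Rb M w x ω) = (B ∈ L.Rb M w x ω')
  unfold Lat.Rb
  rw [e]

end XP

end SC

end

/-! ### from `Lib_MP_e0a489.XP17` -/

section

/-!
# MP_e0a489, exponents 17: the event around a block (bulk, side, corner)

`x = rt s (t, h - N)` is a site of `bx N`, `h` its distance to the nearest side (number `s`), `|t| ≤ N - h`, `N - |t| ≥ h` its distance to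
the second nearest side.
-/

set_option autoImplicit false

namespace SC

namespace XP

open Classical

/-- number of the nearest corner -/
def cnr (s t : ℤ) : ℤ := if t ≤ 0 then s else s + 1

/-- four arms around the block in the bulk, two arms in the half plane, two in the quarter plane -/
def Jb (L : Lat) (N r s t h : ℤ) (ω : Cfg) : Prop :=
  (r < h → L.TwoAt true (rt s (t, h - N)) r h ω) ∧
  (2 * h < N - |t| → ((L.rots s).shift (t, -N)).TwoH (decide (s % 2 = 0)) {v | 0 ≤ v.2} (2 * h)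
    (N - |t|) (via (rt s * Equiv.addRight (t, -N)) ω)) ∧
  (2 * (N - |t|) < N → ((L.rots (cnr s t)).shift (-N, -N)).TwoQ {v | 0 ≤ v.1 ∧ 0 ≤ v.2}
    (2 * (N - |t|)) N (via (rt (cnr s t) * Equiv.addRight (-N, -N)) ω))

private theorem nrm_mk (a b : ℤ) : nrm (a, b) = max |a| |b| := rfl

private theorem cnr_pt (N s t : ℤ) :
    rt (cnr s t) (-N, -N) = rt s (if t ≤ 0 then -N else N, -N) := by
  unfold cnr
  by_cases h : t ≤ 0
  · rw [if_pos h, if_pos h]
  · rw [if_neg h, if_neg h, rt_add, rt_one, neg_neg]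

/-- distances between the three centres `x = rt s (t, h - N)`, `y = rt s (t, -N)`, `y' = rt (cnr s t) (-N, -N)`:
`y' = rt s (-N, -N)` for `t ≤ 0` and `y' = rt s (N, -N)` for `t > 0` (`rt_add`, `rt_one`); `rt_lin_sub`, `nrm_rt`. -/
theorem dist_xy (N s t h : ℤ) (hh : 0 ≤ h) :
    nrm (rt s (t, h - N) - rt s (t, -N)) = h := by
  rw [← rt_lin_sub, nrm_rt, Prod.mk_sub_mk, nrm_mk, sub_self, abs_zero]
  have e : h - N - -N = h := by ring
  rw [e, abs_of_nonneg hh, max_eq_right hh]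

theorem dist_xy' {N s t h : ℤ} (hh : 0 ≤ h) (ht : |t| ≤ N - h) :
    nrm (rt s (t, h - N) - rt (cnr s t) (-N, -N)) = N - |t| := by
  rw [cnr_pt, ← rt_lin_sub, nrm_rt, Prod.mk_sub_mk, nrm_mk]
  have e : h - N - -N = h := by ring
  rw [e, abs_of_nonneg hh]
  have h0 := abs_nonneg t
  by_cases h1 : t ≤ 0
  · rw [if_pos h1]
    rw [abs_of_nonpos h1] at ht h0 ⊢
    rw [abs_of_nonneg (show 0 ≤ t - -N by omega)]
    omega
  · rw [if_neg h1]
    rw [abs_of_pos (show 0 < t by omega)] at ht h0 ⊢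
    rw [abs_of_nonpos (show t - N ≤ 0 by omega)]
    omega

theorem dist_yy' {N s t : ℤ} (ht : |t| ≤ N) :
    nrm (rt s (t, -N) - rt (cnr s t) (-N, -N)) = N - |t| := by
  have h := dist_xy' (N := N) (s := s) (t := t) (h := 0) le_rfl (by omega)
  rw [zero_sub] at h
  exact h

/-- If the box of radius `r ≤ h` around `x = rt s (t, h - N)` is pivotal for the crossing of `bx N`, then `Jb` holds (for both configurations).
Bulk: `piv_bulk` with `R = h` (`nrm x = N - h`, `abs_nrm`).  Side: `piv_half` with the radii `2 h < N - |t|`: off the box of radius `2 h` around `y` the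
configurations agree, because `nrm (v - x) ≥ nrm (v - y) - h > h ≥ r` (`nrm_tri`, `dist_xy`).  Corner: `piv_quart` with the radii `2 (N - |t|) < N`:
`nrm (v - x) ≥ nrm (v - y') - (N - |t|) > N - |t| ≥ h ≥ r` (`dist_xy'`). -/
theorem Jb_piv {L : Lat} {N r s t h : ℤ} {ω₁ ω₂ : Cfg} (hr : 0 ≤ r) (hrh : r ≤ h)
    (ht : |t| ≤ N - h) (hag : ∀ v, r < nrm (v - rt s (t, h - N)) → ω₁ v = ω₂ v)
    (h1 : L.HX true (-N) N (-N) N ω₁) (h2 : ¬ L.HX true (-N) N (-N) N ω₂) :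
    Jb L N r s t h ω₁ ∧ Jb L N r s t h ω₂ := by
  have hh : 0 ≤ h := hr.trans hrh
  have ht0 := abs_nonneg t
  have hx : nrm (rt s (t, h - N)) = N - h := by
    rw [nrm_rt, nrm_mk, abs_of_nonpos (by omega : h - N ≤ 0)]
    omega
  have hx1 := abs_le.1 ((abs_nrm (rt s (t, h - N))).1.trans hx.le)
  have hx2 := abs_le.1 ((abs_nrm (rt s (t, h - N))).2.trans hx.le)
  have hA : r < h → L.TwoAt true (rt s (t, h - N)) r h ω₁ ∧
      L.TwoAt true (rt s (t, h - N)) r h ω₂ := fun hlt =>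
    piv_bulk hr hlt (by omega) (by omega) (by omega) (by omega) hag h1 h2 true
  have hB : 2 * h < N - |t| → ((L.rots s).shift (t, -N)).TwoH (decide (s % 2 = 0)) {v | 0 ≤ v.2}
      (2 * h) (N - |t|) (via (rt s * Equiv.addRight (t, -N)) ω₁) ∧
      ((L.rots s).shift (t, -N)).TwoH (decide (s % 2 = 0)) {v | 0 ≤ v.2}
      (2 * h) (N - |t|) (via (rt s * Equiv.addRight (t, -N)) ω₂) := by
    intro hlt
    refine piv_half (by omega) hlt (by omega) ?_ h1 h2
    intro v hv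
    have h3 := nrm_tri v (rt s (t, h - N)) (rt s (t, -N))
    rw [dist_xy N s t h hh] at h3
    exact hag v (by omega)
  have hC : 2 * (N - |t|) < N → ((L.rots (cnr s t)).shift (-N, -N)).TwoQ {v | 0 ≤ v.1 ∧ 0 ≤ v.2}
      (2 * (N - |t|)) N (via (rt (cnr s t) * Equiv.addRight (-N, -N)) ω₁) ∧
      ((L.rots (cnr s t)).shift (-N, -N)).TwoQ {v | 0 ≤ v.1 ∧ 0 ≤ v.2}
      (2 * (N - |t|)) N (via (rt (cnr s t) * Equiv.addRight (-N, -N)) ω₂) := by
    intro hlt
    refine piv_quart (by omega) hlt (by omega) ?_ h1 h2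
    intro v hv
    have h3 := nrm_tri v (rt s (t, h - N)) (rt (cnr s t) (-N, -N))
    rw [dist_xy' (s := s) hh ht] at h3
    exact hag v (by omega)
  exact ⟨⟨fun p => (hA p).1, fun p => (hB p).1, fun p => (hC p).1⟩,
    ⟨fun p => (hA p).2, fun p => (hB p).2, fun p => (hC p).2⟩⟩

private theorem dep_imp {P : Prop} {A : Cfg → Prop} {D : Set Pt} (h : Dep A D) :
    Dep (fun ω => P → A ω) D :=
  Dep.comp h (fun p => P → p)

private theorem loc_imp {P : Prop} {A : Cfg → Prop} (h : Loc A) : Loc (fun ω => P → A ω) := by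
  obtain ⟨F, hF⟩ := h
  exact ⟨F, dep_imp hF⟩

private theorem pr_imp (P : Prop) [Decidable P] (A : Cfg → Prop) :
    pr (fun ω => P → A ω) = if P then pr A else 1 := by
  by_cases h : P
  · rw [if_pos h]
    congr 1
    funext ω
    exact propext ⟨fun hp => hp h, fun hp _ => hp⟩
  · rw [if_neg h]
    have e : ind (fun ω => P → A ω) = fun _ => (1 : ℝ) := by
      funext ω
      exact if_pos (fun hp => absurd hp h)
    unfold pr
    rw [e, ex_const]

private theorem twoH_loc' (L : Lat) (s : ℤ) (z : Pt) (c : Bool) (H : Set Pt) (r R : ℤ) :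
    Loc (fun ω => ((L.rots s).shift z).TwoH c H r R (via (rt s * Equiv.addRight z) ω)) :=
  loc_of_dep (annAt_finite _ _ _) (twoH_dep L s z c H r R)

private theorem twoQ_loc' (L : Lat) (s : ℤ) (z : Pt) (H : Set Pt) (r R : ℤ) :
    Loc (fun ω => ((L.rots s).shift z).TwoQ H r R (via (rt s * Equiv.addRight z) ω)) :=
  loc_of_dep (annAt_finite _ _ _) (twoQ_dep L s z H r R)

/-- local: `twoAt_loc`, `twoH_dep`, `twoQ_dep`, `annAt_finite`, `loc_of_dep`; an implication with a fixed premise is the event or `True` -/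
theorem Jb_loc (L : Lat) (N r s t h : ℤ) : Loc (Jb L N r s t h) := by
  exact (loc_imp (twoAt_loc L true (rt s (t, h - N)) r h)).and
    ((loc_imp (twoH_loc' L s (t, -N) (decide (s % 2 = 0)) {v | 0 ≤ v.2} (2 * h) (N - |t|))).and
      (loc_imp (twoQ_loc' L (cnr s t) (-N, -N) {v | 0 ≤ v.1 ∧ 0 ≤ v.2} (2 * (N - |t|)) N)))

/-- INDEPENDENCE.  The three annuli are disjoint: a site `v` of the bulk annulus has `nrm (v - x) ≤ h`, so `nrm (v - y) ≤ 2 h` (`dist_xy`) and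
`nrm (v - y') ≤ h + (N - |t|) ≤ 2 (N - |t|)` (`dist_xy'`); a site of the side annulus has `nrm (v - y) ≤ N - |t|`, so `nrm (v - y') ≤ 2 (N - |t|)`
(`dist_yy'`).  `pr_and` twice (an implication with a false premise is `True`, of probability `1`); `pr_twoH`, `pr_twoQ`. -/
theorem Jb_pr (L : Lat) {N r s t h : ℤ} (hh : 0 ≤ h) (ht : |t| ≤ N - h) :
    pr (Jb L N r s t h) ≤ (if r < h then pr (L.TwoAt true (rt s (t, h - N)) r h) else 1) *
      (if 2 * h < N - |t| then pr (((L.rots s).shift (t, -N)).TwoH (decide (s % 2 = 0))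
        {v | 0 ≤ v.2} (2 * h) (N - |t|)) else 1) *
      (if 2 * (N - |t|) < N then pr (((L.rots (cnr s t)).shift (-N, -N)).TwoQ
        {v | 0 ≤ v.1 ∧ 0 ≤ v.2} (2 * (N - |t|)) N) else 1) := by
  have lA := loc_imp (P := r < h) (twoAt_loc L true (rt s (t, h - N)) r h)
  have lB := loc_imp (P := 2 * h < N - |t|)
    (twoH_loc' L s (t, -N) (decide (s % 2 = 0)) {v | 0 ≤ v.2} (2 * h) (N - |t|))
  have lC := loc_imp (P := 2 * (N - |t|) < N)
    (twoQ_loc' L (cnr s t) (-N, -N) {v | 0 ≤ v.1 ∧ 0 ≤ v.2} (2 * (N - |t|)) N)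
  have dA := dep_imp (P := r < h) (twoAt_dep L true (rt s (t, h - N)) r h)
  have dB := dep_imp (P := 2 * h < N - |t|)
    (twoH_dep L s (t, -N) (decide (s % 2 = 0)) {v | 0 ≤ v.2} (2 * h) (N - |t|))
  have dC := dep_imp (P := 2 * (N - |t|) < N)
    (twoQ_dep L (cnr s t) (-N, -N) {v | 0 ≤ v.1 ∧ 0 ≤ v.2} (2 * (N - |t|)) N)
  have e1 := pr_and lB lC dB dC (by
    rintro v ⟨-, hv⟩ ⟨hw, -⟩
    have h3 := nrm_tri v (rt s (t, -N)) (rt (cnr s t) (-N, -N))
    rw [dist_yy' (s := s) (by omega)] at h3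
    omega)
  have dBC := Dep.comp2 dB dC (fun p q => p ∧ q)
  have e2 := pr_and lA (lB.and lC) dA dBC (by
    rintro v ⟨-, hv⟩ (⟨hw, -⟩ | ⟨hw, -⟩)
    · have h3 := nrm_tri v (rt s (t, h - N)) (rt s (t, -N))
      rw [dist_xy N s t h hh] at h3
      omega
    · have h3 := nrm_tri v (rt s (t, h - N)) (rt (cnr s t) (-N, -N))
      rw [dist_xy' (s := s) hh ht] at h3
      omega)
  rw [e1, pr_imp, pr_imp, pr_imp, pr_twoH, pr_twoQ, ← mul_assoc] at e2
  exact e2.le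

end XP

end SC

end

/-! ### from `Lib_MP_e0a489.FI19` -/

section

/-!
# MP_e0a489, module FI 19: `al L` is submultiplicative
-/

set_option autoImplicit false

namespace SC

open Classical

namespace FI

private theorem fi19_fin (r R : ℤ) : (ann r R).Finite := by
  have h : ann r R ⊆ Set.Icc (-R) R ×ˢ Set.Icc (-R) R := by
    rintro v ⟨-, h1⟩
    have h2 : max |v.1| |v.2| ≤ R := h1
    rw [max_le_iff, abs_le, abs_le] at h2
    exact ⟨h2.1, h2.2⟩
  exact ((Set.finite_Icc _ _).prod (Set.finite_Icc _ _)).subset h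

/-- Submultiplicativity: if `r = ρ` or `ρ = R` one factor is `1`; otherwise `TwoA r R` implies `TwoA r ρ` and `TwoA ρ R`
(`Lat.TwoA.mono`), which depend on the disjoint sets `ann r ρ`, `ann ρ R` (`Two.dep`); `pr_and`, `pr_mono`. -/
theorem al_sub (L : Lat) {r ρ R : ℤ} (h0 : 0 ≤ r) (h1 : r ≤ ρ) (h2 : ρ ≤ R) :
    al L r R ≤ al L r ρ * al L ρ R := by
  rcases eq_or_lt_of_le h1 with e1 | e1
  · subst e1
    have h3 : al L r r = 1 := if_neg (lt_irrefl r)
    rw [h3, one_mul]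
  · rcases eq_or_lt_of_le h2 with e2 | e2
    · subst e2
      have h3 : al L ρ ρ = 1 := if_neg (lt_irrefl ρ)
      rw [h3, mul_one]
    · have a1 : al L r R = pr (L.TwoA true r R) := if_pos (e1.trans e2)
      have a2 : al L r ρ = pr (L.TwoA true r ρ) := if_pos e1
      have a3 : al L ρ R = pr (L.TwoA true ρ R) := if_pos e2
      have l1 : Loc (L.TwoA true r R) := Lat.Two.loc L true _ _ _ (fi19_fin r R)
      have l2 : Loc (L.TwoA true r ρ) := Lat.Two.loc L true _ _ _ (fi19_fin r ρ)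
      have l3 : Loc (L.TwoA true ρ R) := Lat.Two.loc L true _ _ _ (fi19_fin ρ R)
      have d2 : Dep (L.TwoA true r ρ) (ann r ρ) := Lat.Two.dep L true _ _ _
      have d3 : Dep (L.TwoA true ρ R) (ann ρ R) := Lat.Two.dep L true _ _ _
      rw [a1, a2, a3, ← pr_and l2 l3 d2 d3 (fun v hv hv' => absurd hv'.1 (not_lt.2 hv.2))]
      exact pr_mono l1 (l2.and l3) fun ω hω =>
        ⟨hω.mono h0 le_rfl e1 e2.le, hω.mono h0 e1.le e2 le_rfl⟩

end FI

end SC

end
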