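import Mathlib
import Pool.Agent.Lib_MP_e0a489_m.G05
import Pool.Agent.Lib_MP_e0a489_m.G06
import Pool.Agent.Lib_MP_e0a489_m.G08
import Pool.Agent.Lib_MP_e0a489_m.G09
import Pool.Agent.Lib_MP_e0a489_m.G11
import Pool.Agent.Lib_MP_e0a489_m.G12
import Pool.Agent.Lib_MP_e0a489_m.G13
import Pool.Agent.Lib_MP_e0a489_m.G14
import Pool.Agent.Lib_MP_e0a489_m.G16

/-!
# MP_e0a489_pr: merged library part G18

Concatenation of library files (each in its own section), only to save build time.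
-/

/-! ### from `Lib_MP_e0a489.FT6` -/

section

/-!
# MP_e0a489, foot lemma 5: a half circuit around the rightmost site meets the explored region
-/

set_option autoImplicit false

namespace SC

open Classical

namespace Lat

variable {L : Lat} {β : ℤ} {ω : Cfg}

/-- Proof.  `A = rect (-(2β)) (-β) 0 0` is connected (`con_rect`), `B = fs i ∩ Hb β`; `Con.union_many`: let `v ∈ B`.  `fs i` is connected (`fs_con`) and
contains `(-β, -1) ∈ A0 β` (`A0_sub`), `v ∉ A0 β` (second coordinate), so `Cn.last` for `S = A0 β` gives `p ∈ A0 β`, `L.Adj p q`,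
`L.Cn (fs i \ A0 β) q v`, and `fs i \ A0 β ⊆ B` (`fs_sub`).  `q ∈ Hb β`, `p.2 = -1`, `p.1 ≤ -β`, so `q.2 = 0` and `q.1 ≤ -β + 1`
(`Adj.near`, `abs_le`).  If `q.1 = -(2β)` take `u = (-(2β) + 1, 0) ∈ A` (as `1 ≤ β`), otherwise `u = (q.1 - 1, 0) ∈ A`; it is a horizontal neighbour of
`q` (`adj_of_nn` or `adj_right`). -/
theorem fs_base (hβ : 1 ≤ β) (i : ℕ) :
    L.Con (rect (-(2 * β)) (-β) 0 0 ∪ (L.fs β ω i ∩ Hb β)) := by
  refine Con.union_many (con_rect _ _ _ _) ?_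
  rintro v ⟨hvf, hvH⟩
  have h0 : ((-β, -1) : Pt) ∈ A0 β := by
    refine ⟨⟨?_, ?_⟩, ?_, ?_⟩ <;> dsimp only <;> omega
  have hc : L.Cn (L.fs β ω i) (-β, -1) v := fs_con i _ (A0_sub i h0) v hvf
  obtain ⟨p, q, -, hpA, hpq, hqv⟩ := hc.last h0 (A0_disj hvH)
  have hsub : L.fs β ω i \ A0 β ⊆ L.fs β ω i ∩ Hb β :=
    fun z hz => ⟨hz.1, (fs_sub i hz.1).resolve_right hz.2⟩
  have hqB : q ∈ L.fs β ω i ∩ Hb β := hsub hqv.1
  obtain ⟨n1, n2⟩ := hpq.near
  rw [abs_le] at n1 n2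
  obtain ⟨⟨p1, p2⟩, p3, p4⟩ := hpA
  obtain ⟨⟨q1, q2⟩, q3, q4⟩ := hqB.2
  by_cases e : q.1 = -(2 * β)
  · refine ⟨(-(2 * β) + 1, 0), ⟨⟨?_, ?_⟩, ?_, ?_⟩, q, adj_of_nn ?_, hqv.mono hsub⟩
    · dsimp only; omega
    · dsimp only; omega
    · exact le_refl _
    · exact le_refl _
    · have e1 : (-(2 * β) + 1 : ℤ) - q.1 = 1 := by omega
      have e2 : (0 : ℤ) - q.2 = 0 := by omega
      show |(-(2 * β) + 1 : ℤ) - q.1| + |(0 : ℤ) - q.2| = 1
      rw [e1, e2]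
      norm_num
  · refine ⟨(q.1 - 1, 0), ⟨⟨?_, ?_⟩, ?_, ?_⟩, q, adj_of_nn ?_, hqv.mono hsub⟩
    · dsimp only; omega
    · dsimp only; omega
    · exact le_refl _
    · exact le_refl _
    · have e1 : (q.1 - 1 : ℤ) - q.1 = -1 := by omega
      have e2 : (0 : ℤ) - q.2 = 0 := by omega
      show |(q.1 - 1 : ℤ) - q.1| + |(0 : ℤ) - q.2| = 1
      rw [e1, e2]
      norm_num

/-- `(x, 0) ∈ fs i` and `σ` separates the half box of radius `ρ` around `(x, 0)` from the outside of the one of radius `R ≤ β`.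
Then `σ` has a site in or next to `fs i`.
Proof.  Apply `hs` to `P = rect (-(2β)) (-β) 0 0 ∪ (fs i ∩ Hb β)` (`fs_base`), which lies in `{0 ≤ v.2}` and contains `(x, 0)` (in `Hb β` because it is
not in `A0 β`, `fs_sub`) with `nrm ((x,0) - (x,0)) = 0 ≤ ρ` and `(-(2β), 0)`, `nrm ((-(2β), 0) - (x, 0)) ≥ x + 2β > β ≥ R`.  A common site `s`
of `σ` and `P` is in `fs i`, or it is `(y, 0)` with `-(2β) ≤ y ≤ -β`, next to `(y, -1) ∈ A0 β ⊆ fs i` (`adj_up`). -/
theorem fs_meet (hβ : 1 ≤ β) {i : ℕ} {σ : Set Pt} {x ρ R : ℤ} (hρ : 0 ≤ ρ) (hR : R ≤ β)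
    (hx : -β < x) (hx' : (x, 0) ∈ L.fs β ω i)
    (hs : ∀ P : Set Pt, L.Con P → P ⊆ {v | 0 ≤ v.2} → (∃ v ∈ P, nrm (v - (x, 0)) ≤ ρ) →
        (∃ v ∈ P, R ≤ nrm (v - (x, 0))) → (σ ∩ P).Nonempty) :
    ∃ s ∈ σ, s ∈ L.fs β ω i ∨ s ∈ L.nb (L.fs β ω i) := by
  have hxA : ((x, 0) : Pt) ∉ A0 β := by
    intro h
    have h2 : (0 : ℤ) ≤ -1 := h.2.2
    omega
  have hxH : ((x, 0) : Pt) ∈ Hb β := (fs_sub i hx').resolve_right hxA
  obtain ⟨s, hsσ, hsP⟩ := hs (rect (-(2 * β)) (-β) 0 0 ∪ (L.fs β ω i ∩ Hb β)) (fs_base hβ i)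
    (by
      rintro v (hv | hv)
      · exact hv.2.1
      · exact hv.2.2.1)
    ⟨(x, 0), Or.inr ⟨hx', hxH⟩, by
      rw [sub_self]
      show max |(0 : ℤ)| |(0 : ℤ)| ≤ ρ
      rw [abs_zero, max_self]
      exact hρ⟩
    ⟨(-(2 * β), 0), Or.inl (by
      refine ⟨⟨?_, ?_⟩, ?_, ?_⟩ <;> dsimp only <;> omega), by
      show R ≤ max |(-(2 * β) : ℤ) - x| |(0 : ℤ) - 0|
      refine le_trans ?_ (le_max_left _ _)
      rw [abs_sub_comm]
      refine le_trans ?_ (le_abs_self _)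
      omega⟩
  refine ⟨s, hsσ, ?_⟩
  rcases hsP with h | h
  · right
    obtain ⟨⟨s1, s2⟩, s3, s4⟩ := h
    refine ⟨(s.1, -1), A0_sub i ⟨⟨s1, s2⟩, le_refl _, le_refl _⟩, ?_⟩
    have e : s = (((s.1, -1) : Pt).1, ((s.1, -1) : Pt).2 + 1) := by
      refine Prod.ext rfl ?_
      show s.2 = -1 + 1
      omega
    rw [e]
    exact adj_up _
  · exact Or.inl h.1

end Lat

end SC

end

/-! ### from `Lib_MP_e0a489.FT7` -/

section

/-!
# MP_e0a489, foot lemma 6: effect of a fresh half circuit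
-/

set_option autoImplicit false

namespace SC

open Classical

namespace Lat

variable {L : Lat} {β : ℤ} {ω : Cfg}

/-- Let `x` be the largest first coordinate of the sites of `fs i` in the bottom row, `-β < x < β`.  If the fresh configuration has a
half circuit of colour `cc i` around `(x, 0)` of radii `ρ`, `2ρ`, with `a ≤ ρ`, `2ρ ≤ β`, then `Bad i` does not hold in the mixed configuration.
Proof.  `1 ≤ ρ`.  `HC.sep` (with `r = ρ`, `R = 2ρ`) gives `σ`, contained in `rect (x-2ρ) (x+2ρ) 0 (2ρ) ⊆ Hb β`, with a right foot `(f, 0)`,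
`x + ρ + 1 ≤ f`.  `(f, 0) ∉ fs i` by `hmax`.  `fs_meet` (`R = 2ρ ≤ β`) and `fs_step` (`u = (f, 0)`) give `(f, 0) ∈ fs (i+1)` of the mixed configuration `ω'`.  If
`Bad β a i ω'` holds with the site `x₀`: `fs i ω' = fs i ω` (`fs_mix`), so `x₀ = x` (both are the largest), and `(f, 0) ∉ fs (i+1) ω'` because
`f ≥ x + ρ + 1 ≥ x + a`, a contradiction. -/
theorem not_bad {a : ℤ} {i : ℕ} {x ρ : ℤ} {η : Cfg} (ha : 1 ≤ a) (hx : -β < x) (hx2 : x < β)
    (hx' : (x, 0) ∈ L.fs β ω i) (hmax : ∀ x', x < x' → (x', 0) ∉ L.fs β ω i) (haρ : a ≤ ρ)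
    (hρ : 2 * ρ ≤ β) (h : L.HC (cc i) x ρ (2 * ρ) η) :
    ¬ L.Bad β a i (mix (HbF β) (L.Rf β i) ω η) := by
  have hβ : 1 ≤ β := by omega
  obtain ⟨σ, h1, h2, h3, ⟨f, hf1, hf2, hf3⟩, _, hsep⟩ :=
    HC.sep (show (0 : ℤ) ≤ ρ by omega) (show ρ < 2 * ρ by omega) h
  have hH : σ ⊆ Hb β := by
    intro v hv
    obtain ⟨⟨⟨a1, a2⟩, a3, a4⟩, _⟩ := h3 hv
    exact ⟨⟨by omega, by omega⟩, a3, by omega⟩
  have hm := fs_meet (L := L) (ω := ω) hβ (show (0 : ℤ) ≤ ρ by omega) hρ hx hx' hsep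
  have hfn : (f, 0) ∉ L.fs β ω i := hmax f (by omega)
  have key := fs_step (ω := ω) h2 hH h1 hf3 hfn hm
  rintro ⟨x₀, _, _, e3, e4, e5⟩
  rw [fs_mix] at e3 e4
  have e : x₀ = x := by
    rcases lt_trichotomy x₀ x with e | e | e
    · exact absurd hx' (e4 x e)
    · exact e
    · exact absurd e3 (hmax x₀ e)
  subst e
  exact e5 f (by omega) key

/-- If `fs i` has no site `(x', 0)` with `x' ≥ β` and the fresh configuration has a half circuit of colour `cc i` around `(0, 0)` of radii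
`β - 1`, `2β`, then `fs (i+1)` of the mixed configuration has such a site.
Proof.  `HC.sep` (`x = 0`, `r = β - 1`, `R = 2β`) gives `σ ⊆ rect (0-2β) (0+2β) 0 (2β) = Hb β` with a right foot `(f, 0)`, `β ≤ f`, and a left foot `(g, 0)`,
`-(2β) ≤ g ≤ -β`.  `(g, 0)` is next to `(g, -1) ∈ A0 β ⊆ fs i` (`adj_up`, `A0_sub`), so `fs_step` with `s = (g, 0)`, `u = (f, 0)` (not in `fs i` by
`h`) gives `(f, 0) ∈ fs (i+1)` of the mixed configuration. -/
theorem not_ef {i : ℕ} {η : Cfg} (hβ : 1 ≤ β) (h : L.Ef β i ω)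
    (h' : L.HC (cc i) 0 (β - 1) (2 * β) η) :
    ¬ L.Ef β (i + 1) (mix (HbF β) (L.Rf β i) ω η) := by
  obtain ⟨σ, h1, h2, h3, ⟨f, hf1, hf2, hf3⟩, ⟨g, hg1, hg2, hg3⟩, _⟩ :=
    HC.sep (show (0 : ℤ) ≤ β - 1 by omega) (show β - 1 < 2 * β by omega) h'
  have hH : σ ⊆ Hb β := by
    intro v hv
    obtain ⟨⟨⟨a1, a2⟩, a3, a4⟩, _⟩ := h3 hv
    exact ⟨⟨by omega, by omega⟩, a3, a4⟩
  have hfn : (f, 0) ∉ L.fs β ω i := h f (by omega)
  have hA : ((g, -1) : Pt) ∈ A0 β := by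
    refine ⟨⟨?_, ?_⟩, ?_, ?_⟩
    · show -(2 * β) ≤ g
      omega
    · show g ≤ -β
      omega
    · exact le_refl _
    · exact le_refl _
  have hadj : L.Adj ((g, -1) : Pt) (g, 0) := adj_up (g, -1)
  have key := fs_step (ω := ω) h2 hH h1 hf3 hfn
    ⟨(g, 0), hg3, Or.inr ⟨(g, -1), A0_sub i hA, hadj⟩⟩
  intro hE
  exact hE f (by omega) key

end Lat

end SC

end

/-! ### from `Lib_MP_e0a489.FT8` -/

section

/-!
# MP_e0a489, foot lemma 7: probabilities
-/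

set_option autoImplicit false

namespace SC

open Classical

/-- Proof.  `pr_resample_le` with `R = L.Rf β i` (`Rf_stop`), `G = HbF β`, `E = L.Ef β i`, `Bad = L.Ef β (i+1)`, `F ω = L.HC (cc i) 0 (β-1) (2β)`,
`q = κ 4 ^ 3`.  `dE`, `dB`: `Ef_dep`, `coe_HbF`.  `hE`: `Ef β i` of the mixed configuration is `Ef β i ω` by `fs_mix`.  `hq`: `hc_pr` with `k = 4`: `4 ≤ 2β - (β-1) - 1 = β`,
`2 (2β) ≤ 4 β`.  `hF`: `HC.dep` and `Dep.mono` (`rect (0-2β) (0+2β) 0 (2β) = Hb β`).  `h`: `not_ef`.  The result is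
`pr (Ef i ∧ Ef (i+1)) ≤ (1 - q) pr (Ef i)`, and `Ef (i+1) → Ef i` (`fs_le`), so the two events `Ef (i+1)` and `Ef i ∧ Ef (i+1)` are equal. -/
theorem ef_step {κ : ℕ → ℝ} {L : Lat} (h : RSW L κ) {β : ℤ} (hβ : 4 ≤ β) (i : ℕ) :
    pr (L.Ef β (i + 1)) ≤ (1 - κ 4 ^ 3) * pr (L.Ef β i) := by
  have key := pr_resample_le (R := L.Rf β i) (Lat.Rf_stop L β i) (G := HbF β) (E := L.Ef β i)
    (Bad := L.Ef β (i + 1)) (F := fun _ => L.HC (cc i) 0 (β - 1) (2 * β)) (q := κ 4 ^ 3)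
    (by rw [coe_HbF]; exact Lat.Ef_dep L β i) (by rw [coe_HbF]; exact Lat.Ef_dep L β (i + 1))
    (by
      intro ω η hE
      unfold Lat.Ef at hE ⊢
      rw [Lat.fs_mix] at hE
      exact hE)
    (by
      intro ω _
      refine hc_pr h (by norm_num) (cc i) (by omega) (by omega) ?_
      have e : (2 * β - (β - 1) - 1 : ℤ) = β := by ring
      rw [e]
      push_cast
      omega)
    (by
      intro ω _
      rw [coe_HbF]
      refine (Lat.HC.dep L (cc i) 0 (β - 1) (2 * β) (by omega)).mono ?_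
      rintro v ⟨⟨⟨a1, a2⟩, a3, a4⟩, -⟩
      exact ⟨⟨by omega, by omega⟩, a3, a4⟩)
    (fun ω η hE h' => Lat.not_ef (by omega) hE h')
  have e : L.Ef β (i + 1) = fun ω => L.Ef β i ω ∧ L.Ef β (i + 1) ω := by
    funext ω
    apply propext
    constructor
    · intro hE
      exact ⟨fun x' hx' hm => hE x' hx' (Lat.fs_le (Nat.le_succ i) hm), hE⟩
    · exact fun hE => hE.2
  rw [e]
  exact key

/-- Proof.  Induction on `i` with `ef_step`; `0 ≤ 1 - κ 4 ^ 3` because `κ 4 ^ 3 ≤ pr (HC ..) ≤ 1` (`hc_pr`, `pr_le_one`); `pr (Ef 0) ≤ 1`. -/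
theorem ef_le {κ : ℕ → ℝ} {L : Lat} (h : RSW L κ) {β : ℤ} (hβ : 4 ≤ β) (i : ℕ) :
    pr (L.Ef β i) ≤ (1 - κ 4 ^ 3) ^ i := by
  have hq : κ 4 ^ 3 ≤ 1 := by
    have h1 : κ 4 ^ 3 ≤ pr (L.HC (cc i) 0 (β - 1) (2 * β)) := by
      refine hc_pr h (by norm_num) (cc i) (by omega) (by omega) ?_
      have e : (2 * β - (β - 1) - 1 : ℤ) = β := by ring
      rw [e]
      push_cast
      omega
    exact h1.trans (pr_le_one _)
  have h0 : 0 ≤ 1 - κ 4 ^ 3 := by linarith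
  induction i with
  | zero =>
    rw [pow_zero]
    exact pr_le_one _
  | succ i ih =>
    refine (ef_step h hβ i).trans ?_
    rw [pow_succ, mul_comm]
    exact mul_le_mul_of_nonneg_right ih h0

/-- Proof.  Let `C`, `c` be the constants of `hc_many`.  `pr_resample_le` with `R = L.Rf β i` (`Rf_stop`), `G = HbF β`, `E = L.Ef β i`,
`Bad = L.Bad β a i`, `q = 1 - C (a/β)^c`, and `F ω η = ∃ ρ, a ≤ ρ ∧ 2 * ρ ≤ β ∧ L.HC (cc i) (z ω) ρ (2 * ρ) η`, where `z ω = x` if there is an `x` with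
`-β < x < β`, `(x, 0) ∈ fs i ω` and `(x', 0) ∉ fs i ω` for all `x' > x`, and `z ω = 0` otherwise (`if h : ∃ x, .. then h.choose else 0`).  In all cases `-β < z ω < β`.
`dE`, `dB`: `Ef_dep`, `Bad_dep`, `coe_HbF`.  `hE`: `fs_mix`.  `hq`: `hc_many`.  `hF`: for each `ρ` with `2ρ ≤ β` (and `0 ≤ ρ`) `HC.dep` and `Dep.mono`:
`rect (z-2ρ) (z+2ρ) 0 (2ρ) ⊆ Hb β`.  `h`: if the site `x` exists use `not_bad`; otherwise `Bad β a i` of the mixed configuration would give such a site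
(`fs_mix`).  Result: `pr (Ef i ∧ Bad i) ≤ C (a/β)^c pr (Ef i)`; and `Bad i → Ef i` (`x < β ≤ x'`), so `pr (Bad i) = pr (Ef i ∧ Bad i)`. -/
theorem bad_le (κ : ℕ → ℝ) : ∃ C c : ℝ, 0 < C ∧ 0 < c ∧ c ≤ 1 / 2 ∧ ∀ L : Lat, RSW L κ →
    ∀ (β a : ℤ) (i : ℕ), 1 ≤ a → a ≤ β →
      pr (L.Bad β a i) ≤ C * ((a : ℝ) / β) ^ c * pr (L.Ef β i) := by
  obtain ⟨C, c, hC, hc, hc2, hmany⟩ := hc_many κ
  refine ⟨C, c, hC, hc, hc2, ?_⟩
  intro L hL β a i ha haβ
  obtain ⟨Pz, hPz⟩ : ∃ Pz : Cfg → ℤ → Prop, Pz = fun ω x => -β < x ∧ x < β ∧ (x, 0) ∈ L.fs β ω i ∧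
    ∀ x', x < x' → (x', 0) ∉ L.fs β ω i := ⟨_, rfl⟩
  obtain ⟨z, hz⟩ : ∃ z : Cfg → ℤ, z = fun ω => if h : ∃ x, Pz ω x then h.choose else 0 := ⟨_, rfl⟩
  have hz1 : ∀ ω, (∃ x, Pz ω x) → Pz ω (z ω) := by
    intro ω h
    rw [hz]
    show Pz ω (if h : ∃ x, Pz ω x then h.choose else 0)
    rw [dif_pos h]
    exact h.choose_spec
  have hz2 : ∀ ω, -β < z ω ∧ z ω < β := by
    intro ω
    by_cases h : ∃ x, Pz ω x
    · have h1 := hz1 ω h
      rw [hPz] at h1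
      exact ⟨h1.1, h1.2.1⟩
    · have h1 : z ω = 0 := by
        rw [hz]
        exact dif_neg h
      rw [h1]
      exact ⟨by omega, by omega⟩
  have key := pr_resample_le (R := L.Rf β i) (Lat.Rf_stop L β i) (G := HbF β) (E := L.Ef β i)
    (Bad := L.Bad β a i)
    (F := fun ω η => ∃ ρ, a ≤ ρ ∧ 2 * ρ ≤ β ∧ L.HC (cc i) (z ω) ρ (2 * ρ) η)
    (q := 1 - C * ((a : ℝ) / β) ^ c)
    (by rw [coe_HbF]; exact Lat.Ef_dep L β i) (by rw [coe_HbF]; exact Lat.Bad_dep L β a i)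
    (by
      intro ω η hE
      unfold Lat.Ef at hE ⊢
      rw [Lat.fs_mix] at hE
      exact hE)
    (fun ω _ => hmany L hL (cc i) (z ω) a β ha haβ)
    (by
      intro ω _
      rw [coe_HbF]
      intro η η' hη
      obtain ⟨hz3, hz4⟩ := hz2 ω
      have h1 : ∀ ρ, a ≤ ρ → 2 * ρ ≤ β →
          L.HC (cc i) (z ω) ρ (2 * ρ) η = L.HC (cc i) (z ω) ρ (2 * ρ) η' := by
        intro ρ h2 h3
        refine ((Lat.HC.dep L (cc i) (z ω) ρ (2 * ρ) (by omega)).mono ?_) η η' hη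
        rintro v ⟨⟨⟨a1, a2⟩, a3, a4⟩, -⟩
        exact ⟨⟨by omega, by omega⟩, a3, by omega⟩
      apply propext
      constructor
      · rintro ⟨ρ, h2, h3, h4⟩
        exact ⟨ρ, h2, h3, by rw [← h1 ρ h2 h3]; exact h4⟩
      · rintro ⟨ρ, h2, h3, h4⟩
        exact ⟨ρ, h2, h3, by rw [h1 ρ h2 h3]; exact h4⟩)
    (by
      rintro ω η - ⟨ρ, h2, h3, h4⟩
      by_cases h : ∃ x, Pz ω x
      · have h5 := hz1 ω h
        rw [hPz] at h5
        exact Lat.not_bad ha h5.1 h5.2.1 h5.2.2.1 h5.2.2.2 h2 h3 h4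
      · rintro ⟨x, b1, b2, b3, b4, -⟩
        rw [Lat.fs_mix] at b3 b4
        apply h
        rw [hPz]
        exact ⟨x, b1, b2, b3, b4⟩)
  have e : L.Bad β a i = fun ω => L.Ef β i ω ∧ L.Bad β a i ω := by
    funext ω
    apply propext
    constructor
    · intro hB
      refine ⟨?_, hB⟩
      obtain ⟨x, b1, b2, b3, b4, -⟩ := hB
      intro x' hx'
      exact b4 x' (by omega)
    · exact fun hE => hE.2
  rw [← e] at key
  have e2 : 1 - (1 - C * ((a : ℝ) / β) ^ c) = C * ((a : ℝ) / β) ^ c := by ring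
  rw [e2] at key
  exact key

end SC

end

/-! ### from `Lib_MP_e0a489.RO10` -/

section

/-!
# MP_e0a489, RO 10: the index intervals of the four paths are disjoint
-/

set_option autoImplicit false

namespace SC

open Classical

/-- Level of the arc of a path: `b` says right mover. -/
def rkb (b : Bool) (i : ℤ) : ℤ := if b then 4 - i else 5 + i

/-- ORDER LEMMA (abstract).  `x`, `x'`: indices of two positions (half widths `h`, `h'`), `y`, `y'`: indices of the targets,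
`i < j` numbers of the paths.  Unfold everything, `split_ifs`, `omega`.  (Both right movers: `ρ' < ρ`; up to level `ρ'` the
intervals are around `x`, `x'`, at the level `ρ'` we have `x < x' ≤ y'`, between the levels `x < x' ≤ y'`, at the level `ρ` it is
`max x y = y < y'`.  Both left movers: `ρ < ρ'`; at the level `ρ` we have `max x y = x < x'`, between `y ≤ x < x'`, at the level `ρ'`
`y < y' = min x' y'`.  Different movers: `max x y < min x' y'`, because a right and a left mover satisfy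
`x ≤ y < y' ≤ x'` and a left and a right mover `y ≤ x < x' ≤ y'`.) -/
theorem ord_abs {x x' y y' h h' t i j : ℤ} {b b' : Bool} (hi : 0 ≤ i) (hij : i < j) (hj : j ≤ 3)
    (h0 : 0 ≤ h) (h0' : 0 ≤ h') (hy : y < y') (hx : t ≤ 8 → x + h < x' - h')
    (h1 : b = true → t ≤ 8 → x ≤ y) (h2 : b = false → t ≤ 8 → y ≤ x)
    (h1' : b' = true → t ≤ 8 → x' ≤ y') (h2' : b' = false → t ≤ 8 → y' ≤ x') :
    hif x y h (rkb b i) t < lof x' y' h' (rkb b' j) t := by
  unfold hif lof rkb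
  rcases le_or_gt t 8 with ht | ht
  · have hx := hx ht
    cases b <;> cases b' <;>
      simp only [Bool.false_eq_true, if_false, if_true] <;>
      simp only [forall_true_left, reduceCtorEq, false_implies, ht] at h1 h2 h1' h2' <;>
      split_ifs <;> omega
  · cases b <;> cases b' <;>
      simp only [Bool.false_eq_true, if_false, if_true] <;>
      split_ifs <;> omega

/-- BOUNDS (abstract).  `0 < x - h` and `x + h < n` at the levels `t ≤ 8`, `0 ≤ y ≤ n`: the interval lies in `[0, n]`, contains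
`0` only if `y = 0` and `n` only if `y = n`. -/
theorem bnd_abs {x y h t i n : ℤ} {b : Bool} (hi : 0 ≤ i) (hi3 : i ≤ 3) (h0 : 0 ≤ h) (hy0 : 0 ≤ y)
    (hy1 : y ≤ n) (hx0 : t ≤ 8 → 0 < x - h) (hx1 : t ≤ 8 → x + h < n) :
    0 ≤ lof x y h (rkb b i) t ∧ hif x y h (rkb b i) t ≤ n ∧
      (lof x y h (rkb b i) t = 0 → y = 0) ∧ (hif x y h (rkb b i) t = n → y = n) := by
  unfold hif lof rkb
  rcases le_or_gt t 8 with ht | ht
  · have hx0 := hx0 ht
    have hx1 := hx1 ht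
    cases b <;> simp only [Bool.false_eq_true, if_false, if_true] <;>
      refine ⟨?_, ?_, ?_, ?_⟩ <;> (try intro hh) <;> split_ifs at * <;> omega
  · cases b <;> simp only [Bool.false_eq_true, if_false, if_true] <;>
      refine ⟨?_, ?_, ?_, ?_⟩ <;> (try intro hh) <;> split_ifs at * <;> omega

end SC

end

/-! ### from `Lib_MP_e0a489.RO11` -/

section

/-!
# MP_e0a489, RO 11: the four paths use different cells of each ring
-/

set_option autoImplicit false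

namespace SC

open Classical

/-- `4 - i` and `5 + i` for `i = 0, 1, 2, 3` -/
theorem rki_bd (μ : ℤ) (c₀ : Bool) (s k : Fin 4 → ℤ) (i : Fin 4) :
    1 ≤ rki μ c₀ s k i ∧ rki μ c₀ s k i ≤ 8 := by
  have h := i.isLt
  unfold rki
  split_ifs <;> omega

theorem hwd_bd {μ : ℤ} (hμ : μ % 2 = 1) (hμ0 : 0 < μ) (c₀ : Bool) (i : Fin 4) :
    0 ≤ hwd μ c₀ i ∧ 2 * hwd μ c₀ i + 1 ≤ μ := by
  unfold hwd
  split_ifs <;> omega

/-- `dc c₀` is `0` or `1` -/
theorem tgt_bd (c₀ : Bool) (i : Fin 4) : 0 ≤ tgt c₀ i ∧ tgt c₀ i ≤ 4 := by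
  have h := i.isLt
  unfold tgt dc
  split_ifs <;> omega

private theorem ro11_rki (μ : ℤ) (c₀ : Bool) (s k : Fin 4 → ℤ) (i : Fin 4) :
    rki μ c₀ s k i = rkb (decide (rmv (s i) (fpos μ c₀ k i) (tgt c₀ i))) (i.val : ℤ) := by
  unfold rki rkb
  by_cases h : rmv (s i) (fpos μ c₀ k i) (tgt c₀ i)
  · rw [if_pos h, if_pos (decide_eq_true h)]
  · rw [if_neg h, if_neg (by rw [decide_eq_false h]; decide)]

/-- the position is far from the corners -/
private theorem ro11_cor {μ M : ℤ} (hμ : μ % 2 = 1) (hμ0 : 0 < μ) {c₀ : Bool} {s k : Fin 4 → ℤ}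
    (hl : Land μ M c₀ s k) {m : ℤ} (ht : M - μ - 10 ≤ m) (i : Fin 4) :
    -m < fpos μ c₀ k i - hwd μ c₀ i ∧ fpos μ c₀ k i + hwd μ c₀ i < m := by
  have h1 := hl.cor i
  have h2 := hwd_bd hμ hμ0 c₀ i
  have h3 := neg_abs_le (fpos μ c₀ k i)
  have h4 := le_abs_self (fpos μ c₀ k i)
  constructor <;> omega

private theorem ro11_ord {μ M : ℤ} (hμ : μ % 2 = 1) (hμ0 : 0 < μ) {c₀ : Bool} {s k : Fin 4 → ℤ}
    (hl : Land μ M c₀ s k) {m : ℤ} (hm : 1 ≤ m) (ht : M - μ - 10 ≤ m) {i j : Fin 4} (hij : i < j) :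
    2 * m * s i + fpos μ c₀ k i + hwd μ c₀ i < 2 * m * s j + fpos μ c₀ k j - hwd μ c₀ j := by
  have h1 := ro11_cor hμ hμ0 hl ht i
  have h2 := ro11_cor hμ hμ0 hl ht j
  rcases hl.ord i j hij with h | ⟨h, h'⟩
  · have h3 : 2 * m * (s i + 1) ≤ 2 * m * s j := mul_le_mul_of_nonneg_left (by omega) (by omega)
    have h4 : 2 * m * (s i + 1) = 2 * m * s i + 2 * m := by ring
    linarith [h1.1, h1.2, h2.1, h2.2]
  · rw [h]
    linarith

private theorem ro11_first {μ M : ℤ} (hμ : μ % 2 = 1) (hμ0 : 0 < μ) {c₀ : Bool} {s k : Fin 4 → ℤ}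
    (hl : Land μ M c₀ s k) {m : ℤ} (hm : 1 ≤ m) (ht : M - μ - 10 ≤ m) (i : Fin 4) :
    0 < 2 * m * s i + fpos μ c₀ k i - hwd μ c₀ i := by
  have h0 : 0 < 2 * m * s 0 + fpos μ c₀ k 0 - hwd μ c₀ 0 := by
    rcases hl.first with h | ⟨h, h'⟩
    · have h1 := ro11_cor hμ hμ0 hl ht 0
      have h3 : 2 * m * 1 ≤ 2 * m * s 0 := mul_le_mul_of_nonneg_left (by omega) (by omega)
      linarith [h1.1, h1.2]
    · rw [h]
      unfold fpos hwd
      split_ifs with hc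
      · have h2 : μ * 1 ≤ μ * k 0 := mul_le_mul_of_nonneg_left (by omega) (by omega)
        omega
      · omega
  by_cases hi : i = 0
  · rw [hi]
    exact h0
  · have h1 := ro11_ord hμ hμ0 hl hm ht (Fin.pos_of_ne_zero hi)
    have h2 := (hwd_bd hμ hμ0 c₀ 0).1
    linarith

private theorem ro11_last {μ M : ℤ} (hμ : μ % 2 = 1) (hμ0 : 0 < μ) {c₀ : Bool} {s k : Fin 4 → ℤ}
    (hl : Land μ M c₀ s k) {m : ℤ} (hm : 1 ≤ m) (ht : M - μ - 10 ≤ m) (i : Fin 4) :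
    2 * m * s i + fpos μ c₀ k i + hwd μ c₀ i < 8 * m := by
  have h0 : 2 * m * s 3 + fpos μ c₀ k 3 + hwd μ c₀ 3 < 8 * m := by
    rcases hl.last with h | ⟨h, h'⟩
    · have h1 := ro11_cor hμ hμ0 hl ht 3
      have h3 : 2 * m * s 3 ≤ 2 * m * 3 := mul_le_mul_of_nonneg_left (by omega) (by omega)
      linarith [h1.1, h1.2]
    · rw [h]
      unfold fpos hwd
      split_ifs with hc
      · have h2 : μ * k 3 ≤ μ * (-1) := mul_le_mul_of_nonneg_left (by omega) (by omega)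
        omega
      · omega
  by_cases hi : i = 3
  · rw [hi]
    exact h0
  · have hlt : i < 3 := by
      have h5 := i.isLt
      have h6 : i.val ≠ 3 := fun h7 => hi (Fin.ext h7)
      show i.val < 3
      omega
    have h1 := ro11_ord hμ hμ0 hl hm ht hlt
    have h2 := (hwd_bd hμ hμ0 c₀ 3).1
    linarith

private theorem ro11_rm {μ M : ℤ} (hμ : μ % 2 = 1) (hμ0 : 0 < μ) {c₀ : Bool} {s k : Fin 4 → ℤ}
    (hl : Land μ M c₀ s k) {m : ℤ} (hm : 1 ≤ m) (ht : M - μ - 10 ≤ m) (i : Fin 4)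
    (h : rmv (s i) (fpos μ c₀ k i) (tgt c₀ i)) :
    2 * m * s i + fpos μ c₀ k i ≤ 2 * m * tgt c₀ i := by
  have h1 := ro11_cor hμ hμ0 hl ht i
  have h2 := (hwd_bd hμ hμ0 c₀ i).1
  rcases h with h | ⟨h, h'⟩
  · have h3 : 2 * m * (s i + 1) ≤ 2 * m * tgt c₀ i := mul_le_mul_of_nonneg_left (by omega) (by omega)
    have h4 : 2 * m * (s i + 1) = 2 * m * s i + 2 * m := by ring
    linarith [h1.1, h1.2]
  · rw [h]
    linarith

private theorem ro11_lm {μ M : ℤ} (hμ : μ % 2 = 1) (hμ0 : 0 < μ) {c₀ : Bool} {s k : Fin 4 → ℤ}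
    (hl : Land μ M c₀ s k) {m : ℤ} (hm : 1 ≤ m) (ht : M - μ - 10 ≤ m) (i : Fin 4)
    (h : ¬ rmv (s i) (fpos μ c₀ k i) (tgt c₀ i)) :
    2 * m * tgt c₀ i ≤ 2 * m * s i + fpos μ c₀ k i := by
  have h1 := ro11_cor hμ hμ0 hl ht i
  have h2 := (hwd_bd hμ hμ0 c₀ i).1
  unfold rmv at h
  push Not at h
  obtain ⟨h5, h6⟩ := h
  rcases lt_or_eq_of_le h5 with h7 | h7
  · have h3 : 2 * m * (tgt c₀ i + 1) ≤ 2 * m * s i := mul_le_mul_of_nonneg_left (by omega) (by omega)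
    have h4 : 2 * m * (tgt c₀ i + 1) = 2 * m * tgt c₀ i + 2 * m := by ring
    linarith [h1.1, h1.2]
  · have h8 := h6 h7.symm
    rw [← h7]
    linarith

private theorem ro11_lt {μ M : ℤ} (hμ : μ % 2 = 1) (hμ0 : 0 < μ) {c₀ : Bool} {s k : Fin 4 → ℤ}
    (hl : Land μ M c₀ s k) {m t : ℤ} (hm : 1 ≤ m) (ht : t ≤ 8 → M - μ - 10 ≤ m) {i j : Fin 4}
    (hij : i < j) {x y : ℤ} (hx1 : loi μ c₀ s k i m t ≤ x) (hx2 : x ≤ hii μ c₀ s k i m t)
    (hy1 : loi μ c₀ s k j m t ≤ y) (hy2 : y ≤ hii μ c₀ s k j m t) : rc m x ≠ rc m y := by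
  intro heq
  have hij' : i.val < j.val := hij
  have hj := j.isLt
  have hti : tgt c₀ i = dc c₀ + (i.val : ℤ) := rfl
  have htj : tgt c₀ j = dc c₀ + (j.val : ℤ) := rfl
  have bi := tgt_bd c₀ i
  have bj := tgt_bd c₀ j
  have hyy : 2 * m * tgt c₀ i < 2 * m * tgt c₀ j := by
    have h3 : 2 * m * (tgt c₀ i + 1) ≤ 2 * m * tgt c₀ j := mul_le_mul_of_nonneg_left (by omega) (by omega)
    have h4 : 2 * m * (tgt c₀ i + 1) = 2 * m * tgt c₀ i + 2 * m := by ring
    linarith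
  have hy0 : ∀ l : Fin 4, 0 ≤ 2 * m * tgt c₀ l := fun l =>
    mul_nonneg (by omega) (tgt_bd c₀ l).1
  have hy8 : ∀ l : Fin 4, 2 * m * tgt c₀ l ≤ 8 * m := fun l => by
    have h3 : 2 * m * tgt c₀ l ≤ 2 * m * 4 := mul_le_mul_of_nonneg_left (tgt_bd c₀ l).2 (by omega)
    linarith
  unfold loi at hx1 hy1
  unfold hii at hx2 hy2
  rw [ro11_rki] at hx1 hx2 hy1 hy2
  have key := ord_abs (t := t) (i := (i.val : ℤ)) (j := (j.val : ℤ))
    (b := decide (rmv (s i) (fpos μ c₀ k i) (tgt c₀ i)))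
    (b' := decide (rmv (s j) (fpos μ c₀ k j) (tgt c₀ j)))
    (by omega) (by omega) (by omega) (hwd_bd hμ hμ0 c₀ i).1 (hwd_bd hμ hμ0 c₀ j).1 hyy
    (fun h8 => ro11_ord hμ hμ0 hl hm (ht h8) hij)
    (fun hb h8 => ro11_rm hμ hμ0 hl hm (ht h8) i (of_decide_eq_true hb))
    (fun hb h8 => ro11_lm hμ hμ0 hl hm (ht h8) i (of_decide_eq_false hb))
    (fun hb h8 => ro11_rm hμ hμ0 hl hm (ht h8) j (of_decide_eq_true hb))
    (fun hb h8 => ro11_lm hμ hμ0 hl hm (ht h8) j (of_decide_eq_false hb))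
  have bdi := bnd_abs (t := t) (i := (i.val : ℤ)) (n := 8 * m)
    (b := decide (rmv (s i) (fpos μ c₀ k i) (tgt c₀ i)))
    (by omega) (by omega) (hwd_bd hμ hμ0 c₀ i).1 (hy0 i) (hy8 i)
    (fun h8 => ro11_first hμ hμ0 hl hm (ht h8) i) (fun h8 => ro11_last hμ hμ0 hl hm (ht h8) i)
  have bdj := bnd_abs (t := t) (i := (j.val : ℤ)) (n := 8 * m)
    (b := decide (rmv (s j) (fpos μ c₀ k j) (tgt c₀ j)))
    (by omega) (by omega) (hwd_bd hμ hμ0 c₀ j).1 (hy0 j) (hy8 j)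
    (fun h8 => ro11_first hμ hμ0 hl hm (ht h8) j) (fun h8 => ro11_last hμ hμ0 hl hm (ht h8) j)
  obtain ⟨p1, p2, p3, p4⟩ := bdi
  obtain ⟨q1, q2, q3, q4⟩ := bdj
  have hxy : x < y := lt_of_le_of_lt hx2 (lt_of_lt_of_le key hy1)
  have hx0 : 0 ≤ x := le_trans p1 hx1
  have hy8' : y ≤ 8 * m := le_trans hy2 q2
  obtain ⟨z, hz⟩ := rc_inj hm heq.symm
  have hz1 : 0 < z := by
    by_contra hcon
    have h5 : 8 * m * z ≤ 0 := mul_nonpos_of_nonneg_of_nonpos (by omega) (by omega)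
    omega
  have hz2 : 8 * m * 1 ≤ 8 * m * z := mul_le_mul_of_nonneg_left (by omega) (by omega)
  have hxz : x = 0 := by omega
  have hyz : y = 8 * m := by omega
  have e1 := p3 (le_antisymm (by rw [← hxz]; exact hx1) p1)
  have e2 := q4 (le_antisymm q2 (by rw [← hyz]; exact hy2))
  have e3 : tgt c₀ i = 0 := by
    rcases mul_eq_zero.1 e1 with h | h
    · omega
    · exact h
  have e4 : tgt c₀ j = 4 := by
    have h5 : 2 * m * (tgt c₀ j - 4) = 0 := by linarith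
    rcases mul_eq_zero.1 h5 with h | h
    · omega
    · omega
  omega

/-- THE PATHS USE DIFFERENT CELLS.  `m`: ring of cells, `t`: level (small levels only on large rings).  Let
`x i = 2 m s i + fpos i`, `h i = hwd i`, `y i = 2 m tgt i`.  For `t ≤ 8` we have `|fpos i| + h i < m` (`Land.cor`,
`μ ≥ 1`).  (a) `x i + h i < x j - h j` for `i < j`: `Land.ord`; if `s i < s j` then
`2 m s i + 2 m ≤ 2 m s j`.  (b) `rmv (s i) (fpos i) (tgt i)` implies `x i ≤ y i`, its negation `y i ≤ x i` (`2 m s ≤ 2 m d - 2 m` if `s < d`).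
(c) `0 < x i - h i`: enough for `i = 0` by (a), `Land.first` (`fpos = μ k` with `μ k - μ / 2 > 0` for an open position with `k > 0`).
(d) `x i + h i < 8 m`: enough for `i = 3`, `Land.last`.  By symmetry let `i < j`.  By `ord_abs` `x < y`.  By `bnd_abs` (with
`n = 8 m`) both are in `[0, 8 m]`.  If `rc m x = rc m y` then `8 m` divides `x - y` (`rc_inj`), so `x = 0`, `y = 8 m`, hence
`tgt c₀ i = 0` and `tgt c₀ j = 4`, but `tgt c₀ j - tgt c₀ i = j - i ≤ 3`.  (`rki` is `rkb (decide (rmv ..)) i`.) -/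
theorem idx_disj {μ M : ℤ} (hμ : μ % 2 = 1) (hμ0 : 0 < μ) {c₀ : Bool} {s k : Fin 4 → ℤ}
    (hl : Land μ M c₀ s k) {m t : ℤ} (hm : 1 ≤ m) (ht : t ≤ 8 → M - μ - 10 ≤ m) {i j : Fin 4}
    (hij : i ≠ j) {x y : ℤ} (hx1 : loi μ c₀ s k i m t ≤ x) (hx2 : x ≤ hii μ c₀ s k i m t)
    (hy1 : loi μ c₀ s k j m t ≤ y) (hy2 : y ≤ hii μ c₀ s k j m t) : rc m x ≠ rc m y := by
  rcases lt_or_gt_of_ne hij with h | h
  · exact ro11_lt hμ hμ0 hl hm ht h hx1 hx2 hy1 hy2
  · exact (ro11_lt hμ hμ0 hl hm ht h hy1 hy2 hx1 hx2).symm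

end SC

end

/-! ### from `Lib_MP_e0a489.SE18` -/

section

/-!
# MP_e0a489, module SE 18: two-time outer separation
-/

set_option autoImplicit false

namespace SC

variable [IfL]

open Classical

/-- `outer_pt κ (e / 4)` gives `C₁`; `min_trick` with `A = TwoA true r R`, `B = Sout r R`, `D = TwoA true r (R/4)` (`A ⊆ D`: `TwoA.mono`; `D` depends on
`ann r (R/4)`), `l = min 1 (e / (4 C₁))`: `2 (e / 4 + C₁ l) ≤ e`.  On `{r < nrm v ≤ 2R}` the correlation `0` on `G`, `k` off `G` is `ko k R`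
(`pr2_congr`, `Sout.dep`). -/
theorem step_out (κ : ℕ → ℝ) (e : ℝ) (he : 0 < e) : ∃ (C : ℝ) (R₀ : ℤ), 0 < C ∧ 16 ≤ R₀ ∧
    ∀ L : Lat, RSW L κ → ∀ k : Pt → ℝ, Kap k → ∀ r R : ℤ, 1 ≤ r → R₀ ≤ R → 16 * r ≤ R →
      pr2 k (L.TwoA true r R) ≤ e * pr2 k (L.TwoA true r (R / 4)) +
        C * pr2 (ko k R) (L.Sout r R) := by
  obtain ⟨C₁, R₀, hC₁, hR₀, H⟩ := outer_pt κ (e / 4) (by positivity)
  have hl0 : 0 < min 1 (e / (4 * C₁)) := lt_min one_pos (by positivity)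
  obtain ⟨l, hl⟩ : ∃ l, l = min 1 (e / (4 * C₁)) := ⟨_, rfl⟩
  rw [← hl] at hl0
  have hl1 : C₁ * l ≤ e / 4 := by
    have h1 : l ≤ e / (4 * C₁) := hl ▸ min_le_right _ _
    have h2 : C₁ * l ≤ C₁ * (e / (4 * C₁)) := mul_le_mul_of_nonneg_left h1 hC₁.le
    have h3 : C₁ * (e / (4 * C₁)) = e / 4 := by field_simp
    linarith
  refine ⟨2 / l ^ 2, R₀, by positivity, hR₀, fun L hL k hk r R hr hR hrR => ?_⟩
  obtain ⟨G, hG⟩ := exists_annF (R / 4) (2 * R)
  have h1 := min_trick (A := L.TwoA true r R) (B := L.Sout r R) (D := L.TwoA true r (R / 4))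
    (Lat.TwoA.loc L true r R) (Lat.Sout.loc L r R) (Lat.TwoA.loc L true r (R / 4)) (G := G)
    (Lat.TwoA.dep L true r (R / 4))
    (fun v hv hv' => by
      have h2 := (hG v).1 hv
      have h3 : r < nrm v ∧ nrm v ≤ R / 4 := hv'
      omega)
    (fun ω hω => Lat.TwoA.mono hω (by omega) (le_refl r) (by omega) (by omega))
    (e := e / 4) (C := C₁) (l := l) (by positivity) hC₁.le hl0
    (fun ω => H L hL r R hr hR hrR G hG ω) hk
  have h2 : pr2 (fun v => if v ∈ G then 0 else k v) (L.Sout r R) =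
      pr2 (ko k R) (L.Sout r R) := by
    refine pr2_congr (Lat.Sout.loc L r R) (Lat.Sout.dep L (by omega) (by omega)) fun v hv => ?_
    have hv1 : r < nrm v ∧ nrm v ≤ 2 * R := hv
    by_cases h3 : R / 4 < nrm v
    · have e1 : ko k R v = 0 := if_pos h3
      rw [e1]
      exact if_pos ((hG v).2 ⟨h3, hv1.2⟩)
    · have e1 : ko k R v = k v := if_neg h3
      rw [e1]
      exact if_neg fun h4 => h3 ((hG v).1 h4).1
  rw [h2] at h1
  refine h1.trans (add_le_add ?_ (le_refl _))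
  exact mul_le_mul_of_nonneg_right (by linarith) (pr2_nonneg _ hk)

/-- TWO-TIME OUTER SEPARATION.  `q = κ 2000 ^ 16` (`> 0` if some `RSW L κ` holds: do `by_cases h : 0 < κ 2000`; if not, no `L`
satisfies `RSW L κ`, and the statement is void), `e = q / 2` in `step_out` (constants `C₁, R₁`), `C = max (2 C₁) ((κ 20000 ^ 8)⁻¹)`,
`R₀ = max R₁ 64`.  Induction on `R` (`Int.toNat R`, strong).  If `R ≤ 64 r`: `pr2 (ko k R) (Sout r R) ≥ (pr (Sout r R))² ≥ κ 20000 ^ 8`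
(`Sout_base'`, `pr2_ge_sq`) and the left side is `≤ 1`.  If `R > 64 r`: `step_out`, the induction hypothesis for `R / 4 ≥ r`, and
`q * pr2 (ko k (R/4)) (Sout r (R/4)) ≤ pr2 (ko k R) (Sout r R)` (`out2`), so the left side is
`≤ (e C / q + C₁) pr2 (ko k R) (Sout r R) ≤ C pr2 (ko k R) (Sout r R)`. -/
theorem sep_out (κ : ℕ → ℝ) : ∃ (C : ℝ) (R₀ : ℤ), 0 < C ∧ 16 ≤ R₀ ∧
    ∀ L : Lat, RSW L κ → ∀ k : Pt → ℝ, Kap k → ∀ r R : ℤ, R₀ ≤ r → r ≤ R →
      pr2 k (L.TwoA true r R) ≤ C * pr2 (ko k R) (L.Sout r R) := by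
  by_cases hκ : 0 < κ 2000
  swap
  · exact ⟨1, 16, one_pos, le_refl _, fun L hL => absurd (hL.pos 2000) hκ⟩
  have hq : 0 < κ 2000 ^ 16 := pow_pos hκ 16
  obtain ⟨C₁, R₁, hC₁, hR₁, H⟩ := step_out κ (κ 2000 ^ 16 / 2) (by positivity)
  have hC : 0 < max (2 * C₁) ((κ 20000 ^ 8)⁻¹) := lt_max_of_lt_left (by positivity)
  refine ⟨max (2 * C₁) ((κ 20000 ^ 8)⁻¹), max R₁ 64, hC, by omega, fun L hL k hk r R hr => ?_⟩
  have hr1 : R₁ ≤ r := (le_max_left _ _).trans hr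
  have hr2 : 64 ≤ r := (le_max_right _ _).trans hr
  obtain ⟨C, hCe⟩ : ∃ C, C = max (2 * C₁) ((κ 20000 ^ 8)⁻¹) := ⟨_, rfl⟩
  rw [← hCe] at hC ⊢
  have hC1 : 2 * C₁ ≤ C := hCe ▸ le_max_left _ _
  have hC2 : (κ 20000 ^ 8)⁻¹ ≤ C := hCe ▸ le_max_right _ _
  suffices hmain : ∀ n : ℕ, ∀ R : ℤ, R.toNat ≤ n → r ≤ R →
      pr2 k (L.TwoA true r R) ≤ C * pr2 (ko k R) (L.Sout r R) from hmain R.toNat R (le_refl _)
  intro n
  induction n with
  | zero =>
    intro R hn hrR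
    exfalso
    omega
  | succ n ih =>
    intro R hn hrR
    by_cases hR : R ≤ 64 * r
    · have h1 : κ 20000 ^ 4 ≤ pr (L.Sout r R) := Sout_base' hL (by omega) hrR (by omega)
      have h2 : pr (L.Sout r R) ^ 2 ≤ pr2 (ko k R) (L.Sout r R) :=
        pr2_ge_sq (Lat.Sout.loc L r R) (ko_kap hk R)
      have hp : 0 < κ 20000 := hL.pos 20000
      have h3 : κ 20000 ^ 8 ≤ pr2 (ko k R) (L.Sout r R) := by
        have h4 : (κ 20000 ^ 4) ^ 2 ≤ pr (L.Sout r R) ^ 2 :=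
          pow_le_pow_left₀ (by positivity) h1 2
        have h5 : (κ 20000 ^ 4) ^ 2 = κ 20000 ^ 8 := by ring
        linarith
      have h6 : pr2 k (L.TwoA true r R) ≤ 1 := pr2_le_one (Lat.TwoA.loc L true r R) hk
      have h7 : (1 : ℝ) = (κ 20000 ^ 8)⁻¹ * κ 20000 ^ 8 :=
        (inv_mul_cancel₀ (ne_of_gt (pow_pos hp 8))).symm
      have h8 : (κ 20000 ^ 8)⁻¹ * κ 20000 ^ 8 ≤ C * pr2 (ko k R) (L.Sout r R) :=
        mul_le_mul hC2 h3 (by positivity) hC.le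
      linarith
    · have h1 := H L hL k hk r R (by omega) (by omega) (by omega)
      have h2 := ih (R / 4) (by omega) (by omega)
      have h3 := out2 hL hk (r := r) (R := R / 4) (R' := R) (by omega) (by omega) (by omega)
        (by omega) (by omega)
      have h4 : κ 2000 ^ 16 / 2 * pr2 k (L.TwoA true r (R / 4)) ≤
          κ 2000 ^ 16 / 2 * (C * pr2 (ko k (R / 4)) (L.Sout r (R / 4))) :=
        mul_le_mul_of_nonneg_left h2 (by positivity)
      have h5 : κ 2000 ^ 16 / 2 * (C * pr2 (ko k (R / 4)) (L.Sout r (R / 4))) =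
          C / 2 * (κ 2000 ^ 16 * pr2 (ko k (R / 4)) (L.Sout r (R / 4))) := by ring
      have h6 : C / 2 * (κ 2000 ^ 16 * pr2 (ko k (R / 4)) (L.Sout r (R / 4))) ≤
          C / 2 * pr2 (ko k R) (L.Sout r R) := mul_le_mul_of_nonneg_left h3 (by positivity)
      have h7 : 0 ≤ pr2 (ko k R) (L.Sout r R) := pr2_nonneg _ (ko_kap hk R)
      have h8 : 2 * C₁ * pr2 (ko k R) (L.Sout r R) ≤ C * pr2 (ko k R) (L.Sout r R) :=
        mul_le_mul_of_nonneg_right hC1 h7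
      linarith

end SC

end

/-! ### from `Lib_MP_e0a489.TT1` -/

section

/-!
# MP_e0a489, module TT 1: the two-time four arm probability `be`
-/

set_option autoImplicit false

namespace SC

namespace TT

open Classical

theorem kt_kap {t : ℝ} (ht : 0 ≤ t) : Kap (kt t) := by
  intro v
  exact ⟨(Real.exp_pos _).le, Real.exp_le_one_iff.2 (by linarith)⟩

/-- `exp` is increasing -/
theorem kt_anti {t s : ℝ} (h : t ≤ s) (v : Pt) : kt s v ≤ kt t v := by
  exact Real.exp_le_exp.2 (by linarith)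

private theorem tt1_ind_nonneg (A : Cfg → Prop) (ω : Cfg) : 0 ≤ ind A ω := by
  unfold ind
  split_ifs
  · exact zero_le_one
  · exact le_rfl

private theorem tt1_ind_or (A B : Cfg → Prop) (ω : Cfg) :
    ind (fun ω => A ω ∨ B ω) ω ≤ ind A ω + ind B ω := by
  unfold ind
  by_cases h : A ω <;> by_cases h' : B ω <;> simp [h, h']

/-- Union: `ind (A ∨ B) ≤ ind A + ind B` (`ex2_mono`), `ex2_add_le`. -/
theorem pr2_or_le {A B : Cfg → Prop} (hA : Loc A) (hB : Loc B) {k : Pt → ℝ} (hk : Kap k) :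
    pr2 k (fun ω => A ω ∨ B ω) ≤ 2 * pr2 k A + 2 * pr2 k B := by
  have lAB : Lf (ind fun ω => A ω ∨ B ω) := (hA.or hB).lf
  have lS : Lf (fun ω => ind A ω + ind B ω) := hA.lf.add hB.lf
  have h1 : ex2 k (ind fun ω => A ω ∨ B ω) (ind fun ω => A ω ∨ B ω) ≤
      ex2 k (fun ω => ind A ω + ind B ω) (fun ω => ind A ω + ind B ω) :=
    ex2_mono lAB lAB lS lS k hk (tt1_ind_nonneg _) (tt1_ind_nonneg _) (tt1_ind_or A B)
      (tt1_ind_or A B)
  exact h1.trans (ex2_add_le hA.lf hB.lf k fun v => (hk v).1)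

/-- Three independent parts, `pr2_and` twice. -/
theorem pr2_and3 {A B E : Cfg → Prop} (lA : Loc A) (lB : Loc B) (lE : Loc E)
    {D₁ D₂ D₃ : Set Pt} (hA : Dep A D₁) (hB : Dep B D₂) (hE : Dep E D₃) (h12 : ∀ v ∈ D₁, v ∉ D₂)
    (h13 : ∀ v ∈ D₁, v ∉ D₃) (h23 : ∀ v ∈ D₂, v ∉ D₃) (k : Pt → ℝ) :
    pr2 k (fun ω => A ω ∧ B ω ∧ E ω) = pr2 k A * (pr2 k B * pr2 k E) := by
  have hBE : Dep (fun ω => B ω ∧ E ω) (D₂ ∪ D₃) := Dep.comp2 hB hE (fun p q => p ∧ q)
  rw [← pr2_and lB lE hB hE h23 k]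
  refine pr2_and lA (lB.and lE) hA hBE (fun v hv hv' => ?_) k
  rcases hv' with hv' | hv'
  · exact h12 v hv hv'
  · exact h13 v hv hv'

/-- An event that never occurs (`ind A = 0`). -/
theorem pr2_false {A : Cfg → Prop} (h : ∀ ω, ¬ A ω) (k : Pt → ℝ) : pr2 k A = 0 := by
  have h1 : ∀ ω, ind A ω = 0 := by
    intro ω
    unfold ind
    rw [if_neg (h ω)]
  unfold pr2 ex2
  split_ifs
  · unfold ex2F
    refine Finset.sum_eq_zero fun S _ => Finset.sum_eq_zero fun T _ => ?_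
    rw [h1, zero_mul, mul_zero]
  · rfl

theorem be_nonneg (L : Lat) {t : ℝ} (ht : 0 ≤ t) (r R : ℤ) : 0 ≤ be L t r R := by
  unfold be
  split_ifs
  · exact pr2_nonneg _ (kt_kap ht)
  · exact zero_le_one

theorem be_le_one (L : Lat) {t : ℝ} (ht : 0 ≤ t) (r R : ℤ) : be L t r R ≤ 1 := by
  unfold be
  split_ifs
  · exact pr2_le_one (Lat.TwoA.loc L true r R) (kt_kap ht)
  · exact le_rfl

/-- `pr2_le_pr` -/
theorem be_le_al (L : Lat) {t : ℝ} (ht : 0 ≤ t) (r R : ℤ) : be L t r R ≤ al L r R := by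
  unfold be al
  split_ifs
  · exact pr2_le_pr (Lat.TwoA.loc L true r R) (kt_kap ht)
  · exact le_rfl

/-- smaller correlations (`pr2_mono_k`, `kt_anti`) -/
theorem be_anti (L : Lat) {t s : ℝ} (ht : 0 ≤ t) (h : t ≤ s) (r R : ℤ) :
    be L s r R ≤ be L t r R := by
  unfold be
  split_ifs
  · exact pr2_mono_k (Lat.TwoA.loc L true r R) (fun v => (kt_kap (ht.trans h) v).1) (kt_anti h)
  · exact le_rfl

/-- `TwoA.mono`; if `r = R` the right side is `1` -/
theorem be_mono (L : Lat) {t : ℝ} (ht : 0 ≤ t) {r R r' R' : ℤ} (h0 : 0 ≤ r') (h1 : r' ≤ r)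
    (h2 : r ≤ R) (h3 : R ≤ R') : be L t r' R' ≤ be L t r R := by
  by_cases h4 : r < R
  · unfold be
    rw [if_pos h4, if_pos (by omega)]
    exact pr2_mono (Lat.TwoA.loc L true r' R') (Lat.TwoA.loc L true r R) (kt_kap ht)
      fun ω hω => Lat.TwoA.mono hω h0 h1 h4 h3
  · have h5 : be L t r R = 1 := by
      unfold be
      rw [if_neg h4]
    rw [h5]
    exact be_le_one L ht r' R'

/-- Submultiplicative: for `r < ρ < R`, `TwoA r R ⊆ TwoA r ρ ∧ TwoA ρ R` (`TwoA.mono`), which depend on the disjoint annuli (`TwoA.dep`,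
`pr2_and`). -/
theorem be_submul (L : Lat) {t : ℝ} (ht : 0 ≤ t) {r ρ R : ℤ} (h0 : 0 ≤ r) (h1 : r ≤ ρ)
    (h2 : ρ ≤ R) : be L t r R ≤ be L t r ρ * be L t ρ R := by
  have hself : ∀ a : ℤ, be L t a a = 1 := by
    intro a
    unfold be
    rw [if_neg (lt_irrefl a)]
  rcases h1.eq_or_lt with rfl | h1'
  · rw [hself, one_mul]
  rcases h2.eq_or_lt with rfl | h2'
  · rw [hself, mul_one]
  have e1 : be L t r R = pr2 (kt t) (L.TwoA true r R) := by
    unfold be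
    rw [if_pos (h1'.trans h2')]
  have e2 : be L t r ρ = pr2 (kt t) (L.TwoA true r ρ) := by
    unfold be
    rw [if_pos h1']
  have e3 : be L t ρ R = pr2 (kt t) (L.TwoA true ρ R) := by
    unfold be
    rw [if_pos h2']
  have l1 := Lat.TwoA.loc L true r ρ
  have l2 := Lat.TwoA.loc L true ρ R
  rw [e1, e2, e3, ← pr2_and l1 l2 (Lat.TwoA.dep L true r ρ) (Lat.TwoA.dep L true ρ R)
    (fun v hv hv' => absurd hv.2 (not_le.2 hv'.1)) (kt t)]
  exact pr2_mono (Lat.TwoA.loc L true r R) (l1.and l2) (kt_kap ht) fun ω hω =>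
    ⟨Lat.TwoA.mono hω h0 le_rfl h1' h2, Lat.TwoA.mono hω h0 h1 h2' le_rfl⟩

/-- arbitrary correlations below `kt t` (if `R ≤ r` the event is impossible: `TwoA_false`, `pr2_false`) -/
theorem pr2_twoA_le (L : Lat) {t : ℝ} {k : Pt → ℝ} (hk : Kap k) (h : ∀ v, k v ≤ kt t v)
    (ht : 0 ≤ t) (r R : ℤ) : pr2 k (L.TwoA true r R) ≤ be L t r R := by
  by_cases h4 : r < R
  · have e1 : be L t r R = pr2 (kt t) (L.TwoA true r R) := by
      unfold be
      rw [if_pos h4]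
    rw [e1]
    exact pr2_mono_k (Lat.TwoA.loc L true r R) (fun v => (hk v).1) h
  · rw [pr2_false (fun ω => TwoA_false L true (not_lt.1 h4) ω) k]
    exact be_nonneg L ht r R

/-- `via` and `shift`: the two-time probability of the event around `x` is the one of the shifted lattice
(`pr2_via` for `Equiv.addRight x`, `kt t` is constant) -/
theorem pr2_twoAt (L : Lat) (t : ℝ) (c : Bool) (x : Pt) (r R : ℤ) :
    pr2 (kt t) (L.TwoAt c x r R) = pr2 (kt t) ((L.shift x).TwoA c r R) := by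
  exact pr2_via (Lat.TwoA.loc (L.shift x) c r R) (Equiv.addRight x) (kt t)

/-- `TwoAt_iff`, `Two.dep` -/
theorem TwoAt_dep (L : Lat) (c : Bool) (x : Pt) (r R : ℤ) :
    Dep (L.TwoAt c x r R) {v | r < nrm (v - x) ∧ nrm (v - x) ≤ R} := by
  have h1 : L.TwoAt c x r R = L.Two c {v | r < nrm (v - x) ∧ nrm (v - x) ≤ R}
      (L.nb {v | nrm (v - x) ≤ r}) {v | nrm (v - x) = R} :=
    funext fun ω => propext (TwoAt_iff L c x r R ω)
  rw [h1]
  exact Lat.Two.dep L c _ _ _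

/-- `TwoA.mono` for `L.shift x` -/
theorem TwoAt_mono {L : Lat} {c : Bool} {x : Pt} {r R r' R' : ℤ} {ω : Cfg}
    (h : L.TwoAt c x r R ω) (hr : 0 ≤ r) (h1 : r ≤ r') (h2 : r' < R') (h3 : R' ≤ R) :
    L.TwoAt c x r' R' ω := by
  exact Lat.TwoA.mono (L := L.shift x) h hr h1 h2 h3

/-- `TwoAt_false` -/
theorem TwoAt_false (L : Lat) (c : Bool) (x : Pt) {r R : ℤ} (h : R ≤ r) (ω : Cfg) :
    ¬ L.TwoAt c x r R ω := by
  exact TwoA_false (L.shift x) c h (via (Equiv.addRight x) ω)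

end TT

end SC

end

/-! ### from `Lib_MP_e0a489.TTP1` -/

section

/-!
# MP_e0a489, module TT, pivotal sites of the separated event
-/

set_option autoImplicit false

namespace SC

namespace TT

open Classical

variable {L : Lat} {r R : ℤ} {v : Pt} {ω : Cfg}

/-- the definition of `Piv`: the event holds for one state `b` of the site and fails for the other one -/
theorem piv_cases {A : Cfg → Prop} (h : Piv v A ω) :
    ∃ b : Bool, A (Function.update ω v b) ∧ ¬ A (Function.update ω v (!b)) := by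
  by_cases h1 : A (Function.update ω v true)
  · by_cases h2 : A (Function.update ω v false)
    · exact absurd (iff_of_true h1 h2) h
    · exact ⟨true, h1, h2⟩
  · by_cases h2 : A (Function.update ω v false)
    · exact ⟨false, h2, h1⟩
    · exact absurd (iff_of_false h1 h2) h

/-- an event that does not depend on `v` -/
theorem dep_update {A : Cfg → Prop} {D : Set Pt} (hA : Dep A D) (hv : v ∉ D) (b : Bool) :
    A (Function.update ω v b) ↔ A ω := by
  refine iff_of_eq (hA _ _ fun u hu => ?_)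
  have hne : u ≠ v := fun he => hv (he ▸ hu)
  exact Function.update_of_ne hne _ _

/-- If `Pairs` holds for `ω₁` and fails for `ω₂`, one of the arms (from an inner zone to an outer zone) exists in `ω₁` and not in
`ω₂` (in the pairing that holds for `ω₁` one of the two arms is missing in `ω₂`). -/
theorem Pairs_arm {c : Bool} {ω₁ ω₂ : Cfg} (h1 : L.Pairs c r R ω₁) (h2 : ¬ L.Pairs c r R ω₂) :
    ∃ i j : ℤ, L.Arm c (ann r R ∪ Jc c R ∪ Kc c r) (Ks i r) (Je j R) ω₁ ∧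
      ¬ L.Arm c (ann r R ∪ Jc c R ∪ Kc c r) (Ks i r) (Je j R) ω₂ := by
  rcases h1 with ⟨h3, h4⟩ | ⟨h3, h4⟩
  · by_cases h5 : L.Arm c (ann r R ∪ Jc c R ∪ Kc c r) (Ks (dc c) r) (Je (dc c) R) ω₂
    · refine ⟨_, _, h4, fun h6 => h2 (Or.inl ⟨h5, h6⟩)⟩
    · exact ⟨_, _, h3, h5⟩
  · by_cases h5 : L.Arm c (ann r R ∪ Jc c R ∪ Kc c r) (Ks (dc c) r) (Je (dc c + 2) R) ω₂
    · refine ⟨_, _, h4, fun h6 => h2 (Or.inr ⟨h5, h6⟩)⟩
    · exact ⟨_, _, h3, h5⟩

/-- The sites of `Ks i r` have norm `≤ r`, those of `Je j R` have norm `2 R` (`Ks_eq`, `Je_eq`, `Zn_nrm`; `Ks` at norm `r / 2 + 1`). -/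
theorem Ks_nrm {i : ℤ} (hr : 16 ≤ r) {u : Pt} (h : u ∈ Ks i r) : nrm u ≤ r := by
  rw [Ks_eq] at h
  have h5 := Zn_nrm (show r / 8 ≤ r / 2 + 1 by omega) (show 0 ≤ r / 8 by omega) h
  omega

theorem Je_nrm' {j : ℤ} (hR : 0 ≤ R) {u : Pt} (h : u ∈ Je j R) : nrm u = 2 * R := by
  rw [Je_eq] at h
  have h5 := Zn_nrm (show R / 4 ≤ 2 * R by omega) (show 0 ≤ R / 4 by omega) h
  omega

/-- LOCAL PART.  Let `v` be pivotal for `S4 r R = Pairs true ∧ Pairs false` (`piv_cases`: `S4 ω₁`, `¬ S4 ω₂`, the configurations agree off `v`), so some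
`Pairs c` holds for `ω₁` and not for `ω₂`.  `Pairs_arm` and `XP.piv_two` with `Q` = the domain, `S₁ = Ks i r`, `S₂ = Je j R`, both at distance `≥ b` from `v`
(`nrm v - r ≥ b`, `2 R - nrm v ≥ b`; triangle inequality `XP.nrm_tri`), radii `a < b`: `Two c (Q ∩ annAt v a b) ..` for `ω₁`.  `Q ∩ annAt v a b = annAt v a b`, because
`annAt v a b ⊆ ann r R` (`nrm v - b > r`, `nrm v + b ≤ R`).  `XP.twoAt_iff`, and the event does not depend on `v` (`TwoAt_dep`, `dep_update`,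
`nrm 0 = 0 ≤ a`). -/
theorem S4_piv_loc (hr : 16 ≤ r) (h8 : 8 * r < nrm v) (h4 : 4 * nrm v ≤ R) {a b : ℤ} (ha : 0 ≤ a)
    (hab : a < b) (hb : 4 * b ≤ nrm v) (h : Piv v (L.S4 r R) ω) :
    L.TwoAt true v a b ω ∨ L.TwoAt false v a b ω := by
  obtain ⟨s, h1, h2⟩ := piv_cases h
  have hag : ∀ u, a < nrm (u - v) →
      Function.update ω v s u = Function.update ω v (!s) u := by
    intro u hu
    have hne : u ≠ v := by
      rintro rfl
      rw [sub_self] at hu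
      have h0 : nrm (0 : Pt) = 0 := rfl
      omega
    rw [Function.update_of_ne hne, Function.update_of_ne hne]
  have tri : ∀ u : Pt, nrm u ≤ nrm (u - v) + nrm v ∧ nrm v ≤ nrm (u - v) + nrm u := by
    intro u
    have t1 := XP.nrm_tri u v 0
    have t2 := XP.nrm_tri v u 0
    rw [sub_zero, sub_zero] at t1 t2
    rw [XP.nrm_comm v u] at t2
    exact ⟨t1, t2⟩
  have key : ∀ c : Bool, L.Pairs c r R (Function.update ω v s) →
      ¬ L.Pairs c r R (Function.update ω v (!s)) → L.TwoAt c v a b ω := by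
    intro c h3 h4
    obtain ⟨i, j, h5, h6⟩ := Pairs_arm h3 h4
    have h7 := XP.piv_two (L := L) (c := c) (Q := ann r R ∪ Jc c R ∪ Kc c r)
      (S₁ := Ks i r) (S₂ := Je j R) (y := v) hab hag h5
      (fun u hu w hw huw => h6 ⟨u, hu, w, hw, huw⟩)
      (fun u hu => by
        have e1 := Ks_nrm hr hu
        have e2 := (tri u).2
        omega)
      (fun u hu => by
        have e1 := Je_nrm' (show (0 : ℤ) ≤ R by omega) hu
        have e2 := (tri u).1
        omega)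
    have e3 : (ann r R ∪ Jc c R ∪ Kc c r) ∩ annAt v a b = annAt v a b := by
      refine Set.inter_eq_right.2 fun u hu => Or.inl (Or.inl ?_)
      have e1 : nrm (u - v) ≤ b := hu.2
      have e2 := tri u
      exact ⟨by omega, by omega⟩
    rw [e3] at h7
    have h8 : L.TwoAt c v a b (Function.update ω v s) := (XP.twoAt_iff L c v a b _).2 h7
    refine (dep_update (TwoAt_dep L c v a b) ?_ s).1 h8
    intro hv
    have e4 : a < nrm (v - v) := hv.1
    rw [sub_self] at e4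
    have h0 : nrm (0 : Pt) = 0 := rfl
    omega
  by_cases h3 : L.Pairs true r R (Function.update ω v (!s))
  · right
    exact key false h1.2 fun h4 => h2 ⟨h3, h4⟩
  · left
    exact key true h1.1 h3

/-- INNER AND OUTER PART.  `S4 r R` holds for `update ω v b`, so `TwoAt true 0 r₁ R₁ = TwoA true r₁ R₁` holds (`S4_twoAt_x`, `d = 0`,
`TwoAt_zero`); it does not depend on `v`. -/
theorem S4_piv_out (hr : 16 ≤ r) {r₁ R₁ : ℤ} (h1 : r ≤ r₁) (h2 : r₁ < R₁) (h3 : R₁ ≤ R)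
    (hv : nrm v ≤ r₁ ∨ R₁ < nrm v) (h : Piv v (L.S4 r R) ω) : L.TwoA true r₁ R₁ ω := by
  obtain ⟨s, h4, -⟩ := piv_cases h
  have h0 : nrm (0 : Pt) ≤ 0 := le_of_eq rfl
  have h5 : L.TwoAt true 0 r₁ R₁ (Function.update ω v s) :=
    S4_twoAt_x (d := 0) h4 hr h0 (by omega) h2 (by omega)
  rw [TwoAt_zero] at h5
  refine (dep_update (Lat.TwoA.dep L true r₁ R₁) ?_ s).1 h5
  rintro ⟨h6, h7⟩
  rcases hv with hv | hv
  · omega
  · omega

/-- Two-time probability of the pivotal event: inclusion in the intersection of three events with disjoint supports `ann r ρ₁`,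
`annAt v a b`, `ann ρ₂ R` (`pr2_mono`, `pr2_and3`; `nrm v - b > ρ₁`, `nrm v + b ≤ ρ₂`), `pr2_or_le`. -/
theorem S4_piv_pr2 {k : Pt → ℝ} (hk : Kap k) (hr : 16 ≤ r) (h8 : 8 * r < nrm v)
    (h4 : 4 * nrm v ≤ R) {a b ρ₁ ρ₂ : ℤ} (ha : 0 ≤ a) (hab : a < b) (hb : 4 * b ≤ nrm v)
    (hρ : r < ρ₁) (hρ₁ : ρ₁ + b < nrm v) (hρ₂ : nrm v + b ≤ ρ₂) (hρR : ρ₂ < R) :
    pr2 k (Piv v (L.S4 r R)) ≤ pr2 k (L.TwoA true r ρ₁) *
      ((2 * pr2 k (L.TwoAt true v a b) + 2 * pr2 k (L.TwoAt false v a b)) *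
        pr2 k (L.TwoA true ρ₂ R)) := by
  have tri : ∀ u : Pt, nrm u ≤ nrm (u - v) + nrm v ∧ nrm v ≤ nrm (u - v) + nrm u := by
    intro u
    have t1 := XP.nrm_tri u v 0
    have t2 := XP.nrm_tri v u 0
    rw [sub_zero, sub_zero] at t1 t2
    rw [XP.nrm_comm v u] at t2
    exact ⟨t1, t2⟩
  have l1 : Loc (L.TwoA true r ρ₁) := Lat.TwoA.loc L true r ρ₁
  have l3 : Loc (L.TwoA true ρ₂ R) := Lat.TwoA.loc L true ρ₂ R
  have la : Loc (L.TwoAt true v a b) := TwoAt_loc L true v a b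
  have lb : Loc (L.TwoAt false v a b) := TwoAt_loc L false v a b
  have l2 : Loc (fun ω => L.TwoAt true v a b ω ∨ L.TwoAt false v a b ω) := la.or lb
  have lP : Loc (Piv v (L.S4 r R)) := by
    obtain ⟨F, hF⟩ := Lat.S4.loc L r R
    exact ⟨F, (hF.piv v).mono Set.sdiff_subset⟩
  have d2 : Dep (fun ω => L.TwoAt true v a b ω ∨ L.TwoAt false v a b ω)
      {u | a < nrm (u - v) ∧ nrm (u - v) ≤ b} := by
    intro ω ω' hw
    have e1 := TwoAt_dep L true v a b ω ω' hw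
    have e2 := TwoAt_dep L false v a b ω ω' hw
    show (L.TwoAt true v a b ω ∨ L.TwoAt false v a b ω) =
      (L.TwoAt true v a b ω' ∨ L.TwoAt false v a b ω')
    rw [e1, e2]
  have h1 : pr2 k (Piv v (L.S4 r R)) ≤ pr2 k (fun ω => L.TwoA true r ρ₁ ω ∧
      (L.TwoAt true v a b ω ∨ L.TwoAt false v a b ω) ∧ L.TwoA true ρ₂ R ω) := by
    refine pr2_mono lP (l1.and (l2.and l3)) hk fun ω h => ⟨?_, ?_, ?_⟩
    · exact S4_piv_out hr le_rfl hρ (by omega) (Or.inr (by omega)) h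
    · exact S4_piv_loc hr h8 h4 ha hab hb h
    · exact S4_piv_out hr (by omega) hρR le_rfl (Or.inl (by omega)) h
  have h2 := pr2_and3 l1 l2 l3 (Lat.TwoA.dep L true r ρ₁) d2 (Lat.TwoA.dep L true ρ₂ R)
    (fun u hu hu' => by
      have e1 : nrm u ≤ ρ₁ := hu.2
      have e2 : nrm (u - v) ≤ b := hu'.2
      have e3 := (tri u).2
      omega)
    (fun u hu hu' => by
      have e1 : nrm u ≤ ρ₁ := hu.2
      have e2 : ρ₂ < nrm u := hu'.1
      omega)
    (fun u hu hu' => by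
      have e1 : nrm (u - v) ≤ b := hu.2
      have e2 : ρ₂ < nrm u := hu'.1
      have e3 := (tri u).1
      omega) k
  rw [h2] at h1
  refine h1.trans (mul_le_mul_of_nonneg_left (mul_le_mul_of_nonneg_right ?_ ?_) ?_)
  · exact pr2_or_le la lb hk
  · exact pr2_nonneg _ hk
  · exact pr2_nonneg _ hk

end TT

end SC

end

/-! ### from `Lib_MP_e0a489.SQ9` -/

section

/-!
# MP_e0a489: the separated event in a rectangle (interface; part of module SE)
-/

set_option autoImplicit false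

namespace SC

open Classical

/-- From the separated event to the box event: the arms are extended from the zones `J s R` to the sides of
the rectangle by strips (territory lemma). -/
theorem sq2 (κ : ℕ → ℝ) : ∃ (C : ℝ) (R₀ : ℤ), 0 < C ∧ 16 ≤ R₀ ∧ ∀ L : Lat, RSW L κ →
    ∀ k : Pt → ℝ, (∀ v, 0 ≤ k v ∧ k v ≤ 1) → ∀ r R a b p q : ℤ, R₀ ≤ r → r ≤ R →
      2 * R ≤ -a → -a ≤ 64 * R → 2 * R ≤ b → b ≤ 64 * R → 2 * R ≤ -p → -p ≤ 64 * R →
      2 * R ≤ q → q ≤ 64 * R →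
      pr2 (kz k r R) (L.S4 r R) ≤
        C * pr2 (kz k r R) (fun ω => L.SQ true r a b p q ω ∧ L.SQ false r a b p q ω) :=
  sq2_x κ

end SC

end

/-! ### from `Lib_MP_e0a489.HL1` -/

section

/-!
# MP_e0a489, half plane 1: a change of colour on the boundary gives two arms of different colours

`fr a b h`: the left, right and upper side of the rectangle `rect a b 0 h`.
-/

set_option autoImplicit false

namespace SC

open Classical

/-- left, right and upper side -/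
def fr (a b h : ℤ) : Set Pt := {v | v ∈ rect a b 0 h ∧ (v.1 = a ∨ v.1 = b ∨ v.2 = h)}

namespace Lat

variable {L : Lat}

/-- the frame around the left, upper and right side -/
private theorem hl1_frame {a b h : ℤ} (hab : a ≤ b) (hh : 0 ≤ h) :
    L.Con (rect (a - 1) (b + 1) 0 (h + 1) \ rect a b 0 h) := by
  have e : rect (a - 1) (b + 1) 0 (h + 1) \ rect a b 0 h =
      (rect (a - 1) (a - 1) 0 (h + 1) ∪ rect (a - 1) (b + 1) (h + 1) (h + 1)) ∪
        rect (b + 1) (b + 1) 0 (h + 1) := by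
    ext v
    simp only [rect, Set.mem_diff, Set.mem_union, Set.mem_setOf_eq]
    omega
  rw [e]
  refine Con.union (Con.union (con_rect _ _ _ _) (con_rect _ _ _ _) ⟨(a - 1, h + 1), ?_, ?_⟩)
    (con_rect _ _ _ _) ⟨(b + 1, h + 1), Or.inr ?_, ?_⟩ <;>
    simp only [rect, Set.mem_setOf_eq] <;> omega

private theorem hl1_nb {a b h : ℤ} {y : Pt} (hy : y ∈ fr a b h) :
    y ∈ L.nb (rect (a - 1) (b + 1) 0 (h + 1) \ rect a b 0 h) := by
  obtain ⟨x, z⟩ := y
  obtain ⟨⟨⟨h1, h2⟩, h3, h4⟩, h5⟩ := hy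
  simp only at h1 h2 h3 h4 h5
  rcases h5 with h5 | h5 | h5
  · refine ⟨(x - 1, z), ?_, ?_⟩
    · simp only [rect, Set.mem_diff, Set.mem_setOf_eq]
      omega
    · have := L.adj_right (x - 1, z)
      simpa using this
  · refine ⟨(x + 1, z), ?_, ?_⟩
    · simp only [rect, Set.mem_diff, Set.mem_setOf_eq]
      omega
    · have := (L.adj_right (x, z)).symm
      simpa using this
  · refine ⟨(x, z + 1), ?_, ?_⟩
    · simp only [rect, Set.mem_diff, Set.mem_setOf_eq]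
      omega
    · have := (L.adj_up (x, z)).symm
      simpa using this

private theorem hl1_fr {a b h : ℤ} {y : Pt} (hy : y ∈ rect a b 0 h)
    (hn : y ∈ L.nb (rect (a - 1) (b + 1) 0 (h + 1) \ rect a b 0 h)) : y ∈ fr a b h := by
  obtain ⟨s, ⟨hs1, hs2⟩, hs⟩ := hn
  obtain ⟨h1, h2⟩ := hs.near
  rw [abs_le] at h1 h2
  refine ⟨hy, ?_⟩
  simp only [rect, Set.mem_setOf_eq] at hy hs1 hs2
  omega

/-- CHANGE OF COLOUR.  If a site of the bottom row has an arm of colour `c` and a site further to the right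
an arm of colour `!c`, then there are two neighbouring sites between them with such arms.
Proof.  Let `x` be the largest number in `[x₁, x₂]` such that `(x, 0)` has an arm of colour `c`.  Explore the
clusters of colour `c` attached to the frame `S` around the three sides: `(x, 0)` is in `C = Cx c M S`, the sites
`(x+1, 0), ..., (x₂, 0)` are not.  The component `V` of `M \ C` containing them contains the arm of `(x₂, 0)`;
its boundary is connected, of colour `!c`, and contains `(x+1, 0)` and the end of this arm. -/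
theorem switch {a b h x₁ x₂ : ℤ} {c : Bool} {ω : Cfg} (ha : a ≤ x₁) (hx : x₁ < x₂) (hb : x₂ ≤ b)
    (hh : 0 ≤ h) (h1 : L.Arm c (rect a b 0 h) {(x₁, 0)} (fr a b h) ω)
    (h2 : L.Arm (!c) (rect a b 0 h) {(x₂, 0)} (fr a b h) ω) :
    ∃ x, x₁ ≤ x ∧ x < x₂ ∧ L.Arm c (rect a b 0 h) {(x, 0)} (fr a b h) ω ∧
      L.Arm (!c) (rect a b 0 h) {(x + 1, 0)} (fr a b h) ω := by
  -- the largest `x`
  obtain ⟨x, ⟨hx1, hx2, hxA⟩, hmax⟩ := Int.exists_greatest_of_bdd
    (P := fun x => x₁ ≤ x ∧ x ≤ x₂ ∧ L.Arm c (rect a b 0 h) {(x, 0)} (fr a b h) ω)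
    ⟨x₂, fun z hz => hz.2.1⟩ ⟨x₁, le_refl _, hx.le, h1⟩
  obtain ⟨u₂, hu₂, y₂, hy₂, hc₂⟩ := h2
  rw [Set.mem_singleton_iff] at hu₂
  subst hu₂
  have hxlt : x < x₂ := by
    rcases hx2.lt_or_eq with h | h
    · exact h
    · exfalso
      obtain ⟨u, hu, y, hy, hc⟩ := hxA
      rw [Set.mem_singleton_iff] at hu
      subst hu
      rw [h] at hc
      have e1 : L.st ω (x₂, 0) = c := hc.left.2
      have e2 : L.st ω (x₂, 0) = !c := hc₂.left.2
      rw [e1] at e2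
      cases c <;> simp at e2
  have hno : ∀ z, x < z → z ≤ x₂ → ¬ L.Arm c (rect a b 0 h) {(z, 0)} (fr a b h) ω := by
    intro z hz1 hz2 hz
    have := hmax z ⟨by omega, hz2, hz⟩
    omega
  refine ⟨x, hx1, hxlt, hxA, ?_⟩
  set M : Set Pt := rect (a - 1) (b + 1) 0 (h + 1) with hM
  set D : Set Pt := rect a b 0 h with hD
  have hDM : D ⊆ M := by
    intro v hv
    simp only [hD, hM, rect, Set.mem_setOf_eq] at hv ⊢
    omega
  have hMS : M \ (M \ D) = D := Set.sdiff_sdiff_cancel_left hDM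
  set C : Set Pt := L.Cx c M (M \ D) ω with hC
  have hSC : M \ D ⊆ C := Cx_sup
  have hScon : L.Con (M \ D) := hl1_frame (by omega) hh
  have hxC : (x, 0) ∈ C := by
    obtain ⟨u, hu, y, hy, hc⟩ := hxA
    rw [Set.mem_singleton_iff] at hu
    subst hu
    exact Cx_path (by rw [hMS]; exact hc.symm) (Or.inl (hl1_nb hy))
  have hzC : ∀ z, x < z → z ≤ x₂ → (z, (0 : ℤ)) ∉ C := by
    intro z hz1 hz2 hz
    rcases hz with hz | ⟨u, hu, hc⟩
    · exact hz.2 (by simp only [hD, rect, Set.mem_setOf_eq]; omega)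
    · rw [hMS] at hc
      exact hno z hz1 hz2 ⟨(z, 0), rfl, u, hl1_fr hc.left.1 hu, hc.symm⟩
  have hrow : rect (x + 1) x₂ 0 0 ⊆ M \ C := by
    rintro ⟨p, q⟩ hv
    simp only [rect, Set.mem_setOf_eq] at hv
    have hq : q = 0 := by omega
    subst hq
    refine ⟨?_, hzC p (by omega) (by omega)⟩
    simp only [hM, rect, Set.mem_setOf_eq]
    omega
  have h0 : ((x + 1, 0) : Pt) ∈ rect (x + 1) x₂ 0 0 := by
    simp only [rect, Set.mem_setOf_eq]
    omega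
  have h0' : ((x₂, 0) : Pt) ∈ rect (x + 1) x₂ 0 0 := by
    simp only [rect, Set.mem_setOf_eq]
    omega
  have hV : L.Comp (M \ C) {v | L.Cn (M \ C) (x + 1, 0) v} := comp_cluster (hrow h0)
  set V : Set Pt := {v | L.Cn (M \ C) (x + 1, 0) v} with hVdef
  have hxV : ((x + 1, 0) : Pt) ∈ V := Cn.refl (hrow h0)
  have hx₂V : ((x₂, 0) : Pt) ∈ V := (con_rect (L := L) _ _ _ _ _ h0 _ h0').mono hrow
  have hy₂V : y₂ ∈ V := by
    refine Cn.trans hx₂V (hc₂.mono ?_)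
    rintro w ⟨hwD, hwc⟩
    refine ⟨hDM hwD, fun hwC => ?_⟩
    have e1 : L.st ω w = c := (Cx_col hwC (fun h => h.2 hwD)).2
    have e2 : L.st ω w = !c := hwc
    rw [e1] at e2
    cases c <;> simp at e2
  have hB : L.Con (L.bd V C) :=
    con_bd (exact_rect _ _ _ _ _) (Cx_con hScon) (Cx_sub Set.sdiff_subset) hV
  have hsub : L.bd V C ⊆ D ∩ L.col (!c) ω := by
    rintro v ⟨hvV, hvn⟩
    have hv := hV.sub hvV
    have hvD : v ∈ D := by
      by_contra hno'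
      exact hv.2 (hSC ⟨hv.1, hno'⟩)
    exact ⟨hvD, bd_col hv.1 hvn hv.2⟩
  refine ⟨(x + 1, 0), rfl, y₂, hy₂, (hB _ ⟨hxV, ?_⟩ _ ⟨hy₂V, ?_⟩).mono hsub⟩
  · exact ⟨(x, 0), hxC, L.adj_right (x, 0)⟩
  · obtain ⟨s, hs, hs'⟩ := hl1_nb (L := L) hy₂
    exact ⟨s, hSC hs, hs'⟩

end Lat

end SC

end

/-! ### from `Lib_MP_e0a489.HL3` -/

section

/-!
# MP_e0a489, half plane 3: lower bound for the product of the one arm probabilities of the half plane

The two arm exponent of the half plane is one: `half_two`.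
-/

set_option autoImplicit false

namespace SC

open Classical

namespace HL

open XP

/-- one arm of the half annulus -/
noncomputable def a1 (L : Lat) (c : Bool) (r R : ℤ) : ℝ :=
  pr (L.Arm c (ann r R ∩ {v | 0 ≤ v.2}) (L.nb (bx r)) (rng R))

/-- the arm around the site `z` of the line -/
def Az (L : Lat) (z : ℤ) (c : Bool) (r R : ℤ) (ω : Cfg) : Prop :=
  L.Arm c (annAt (z, 0) r R ∩ {v | 0 ≤ v.2}) (L.nb (bxAt (z, 0) r)) (rngAt (z, 0) R) ω

private theorem loc_exI {ι : Type} {A : ι → Cfg → Prop} (I : Finset ι)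
    (h : ∀ i ∈ I, Loc (A i)) : Loc (fun ω => ∃ i ∈ I, A i ω) := by
  induction I using Finset.induction_on with
  | empty =>
    refine ⟨∅, fun ω ω' _ => ?_⟩
    simp
  | insert a s _ ih =>
    have e : (fun ω => ∃ i ∈ insert a s, A i ω) = fun ω => A a ω ∨ ∃ i ∈ s, A i ω := by
      funext ω
      simp
    rw [e]
    exact (h a (Finset.mem_insert_self a s)).or
      (ih fun i hi => h i (Finset.mem_insert_of_mem hi))

theorem Az_loc (L : Lat) (z : ℤ) (c : Bool) (r R : ℤ) : Loc (Az L z c r R) :=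
  loc_of_dep ((annAt_finite (z, 0) r R).subset Set.inter_subset_left) (Lat.Arm.dep L c _ _ _)

theorem Az_pr (L : Lat) (z : ℤ) (c : Bool) (r R : ℤ) :
    pr (Az L z c r R) = a1 (L.shift (z, 0)) c r R := by
  have hloc : Loc ((L.shift (z, 0)).Arm c (ann r R ∩ {v | 0 ≤ v.2})
      ((L.shift (z, 0)).nb (bx r)) (rng R)) := by
    refine loc_of_dep (D := ann r R) ?_ ((Lat.Arm.dep _ c _ _ _).mono Set.inter_subset_left)
    refine (annAt_finite 0 r R).subset (fun v hv => ?_)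
    show r < nrm (v - 0) ∧ nrm (v - 0) ≤ R
    rw [sub_zero]
    exact hv
  unfold a1
  rw [← pr_via hloc (Equiv.addRight (z, 0))]
  congr 1
  funext ω
  apply propext
  rw [(tr_shift L (z, 0)).arm, (tr_shift L (z, 0)).nb,
    Set.image_inter (Equiv.addRight ((z, 0) : Pt)).injective, image_ann0, image_bx0, image_rng0]
  have e : (Equiv.addRight ((z, 0) : Pt) : Equiv.Perm Pt) '' {v | 0 ≤ v.2} = {v | 0 ≤ v.2} := by
    ext v
    constructor
    · rintro ⟨u, hu, rfl⟩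
      show 0 ≤ u.2 + 0
      rw [add_zero]
      exact hu
    · intro hv
      refine ⟨v - (z, 0), ?_, ?_⟩
      · show 0 ≤ v.2 - 0
        rw [sub_zero]
        exact hv
      · show v - (z, 0) + (z, 0) = v
        rw [sub_add_cancel]
  rw [e]
  rfl

/-- an arm from a site near `(z, 0)` to the far sides gives an arm in the half annulus -/
theorem to_arm {L : Lat} {a b h x z r R : ℤ} {c : Bool} {ω : Cfg} (hrR : r < R)
    (hx : |x - z| ≤ r) (hfr : ∀ y ∈ fr a b h, R ≤ nrm (y - (z, 0)))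
    (hA : L.Arm c (rect a b 0 h) {(x, 0)} (fr a b h) ω) : Az L z c r R ω := by
  obtain ⟨u, hu, y, hy, hc⟩ := hA
  rw [Set.mem_singleton_iff] at hu
  subst hu
  have hu' : ((x, 0) : Pt) ∈ bxAt (z, 0) r := by
    show nrm ((x, 0) - (z, 0)) ≤ r
    unfold nrm
    simp only [Prod.mk_sub_mk, sub_zero, abs_zero]
    exact max_le hx (le_trans (abs_nonneg _) hx)
  have hy' : y ∉ bxAt (z, 0) r := by
    intro h1
    have h2 : nrm (y - (z, 0)) ≤ r := h1
    have h3 := hfr y hy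
    omega
  obtain ⟨p, q, hpA, hpS, hpq, hqy⟩ := hc.last hu' hy'
  have hpS' : nrm (p - (z, 0)) ≤ r := hpS
  have hq : nrm (q - (z, 0)) ≤ R := by
    have := abs_le.1 (adj_nrm hpq ((z, 0) : Pt))
    omega
  obtain ⟨w, hw, hqw⟩ := to_rngAt hqy hq (hfr y hy)
  refine ⟨q, ⟨p, hpS, hpq⟩, w, hw, hqw.mono ?_⟩
  rintro v ⟨⟨⟨hv1, hv2⟩, hv3⟩, hv4⟩
  refine ⟨⟨⟨?_, hv4⟩, hv1.2.1⟩, hv2⟩
  by_contra h1
  exact hv3 (not_lt.1 h1)

/-- On the event of an open crossing in the left part and a closed crossing in the right part there is a block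
of the line with arms of both colours. -/
theorem exists_block {L : Lat} {r R : ℤ} {ω : Cfg} (hr : 1 ≤ r) (hrR : r < R)
    (h1 : L.VX true (-(R + r)) (-(R + r) + (R + r) / 2) 0 (2 * (R + r)) ω)
    (h2 : L.VX false ((R + r) - (R + r) / 2) (R + r) 0 (2 * (R + r)) ω) :
    ∃ i ∈ Finset.Icc (-((R + r) / r + 1)) ((R + r) / r + 1),
      Az L (i * r) true r R ω ∧ Az L (i * r) false r R ω := by
  set N : ℤ := R + r with hN
  obtain ⟨u, v, hu, hv, hc⟩ := h1
  obtain ⟨u', v', hu', hv', hc'⟩ := h2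
  have hlu := hc.left.1
  have hrv := hc.right.1
  have hlu' := hc'.left.1
  have hrv' := hc'.right.1
  obtain ⟨x₁, y₁⟩ := u
  obtain ⟨x₂, y₂⟩ := u'
  simp only at hu hu'
  subst hu
  subst hu'
  simp only [rect, Set.mem_ofPred_eq] at hlu hrv hlu' hrv'
  have hD : ∀ a b : ℤ, -N ≤ a → b ≤ N → rect a b 0 (2 * N) ⊆ rect (-(2 * N)) (2 * N) 0 (2 * N) := by
    intro a b ha hb w hw
    simp only [rect, Set.mem_ofPred_eq] at hw ⊢
    omega
  have hA1 : L.Arm true (rect (-(2 * N)) (2 * N) 0 (2 * N)) {(x₁, 0)}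
      (fr (-(2 * N)) (2 * N) (2 * N)) ω := by
    refine ⟨(x₁, 0), rfl, v, ⟨?_, Or.inr (Or.inr hv)⟩, hc.mono ?_⟩
    · simp only [rect, Set.mem_ofPred_eq]
      omega
    · exact Set.inter_subset_inter_left _ (hD _ _ (by omega) (by omega))
  have hA2 : L.Arm (!true) (rect (-(2 * N)) (2 * N) 0 (2 * N)) {(x₂, 0)}
      (fr (-(2 * N)) (2 * N) (2 * N)) ω := by
    refine ⟨(x₂, 0), rfl, v', ⟨?_, Or.inr (Or.inr hv')⟩, hc'.mono ?_⟩
    · simp only [rect, Set.mem_ofPred_eq]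
      omega
    · exact Set.inter_subset_inter_left _ (hD _ _ (by omega) (by omega))
  obtain ⟨x, hx1, hx2, hxA, hxB⟩ := Lat.switch (by omega) (by omega) (by omega) (by omega) hA1 hA2
  have hr0 : 0 < r := by omega
  have hm1 := Int.emod_nonneg x hr0.ne'
  have hm2 := Int.emod_lt_of_pos x hr0
  have hm3 : x / r * r = x - x % r := by
    have := Int.emod_add_mul_ediv x r
    linarith
  have hfr : ∀ y ∈ fr (-(2 * N)) (2 * N) (2 * N), R ≤ nrm (y - (x / r * r, 0)) := by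
    rintro ⟨p, q⟩ ⟨-, hy⟩
    simp only at hy
    have e1 : |p - x / r * r| ≤ nrm ((p, q) - (x / r * r, 0)) := le_max_left _ _
    have e2 : |q - 0| ≤ nrm ((p, q) - (x / r * r, 0)) := le_max_right _ _
    have e3 := le_abs_self (p - x / r * r)
    have e4 := neg_abs_le (p - x / r * r)
    have e5 := le_abs_self (q - 0)
    rcases hy with h | h | h <;> omega
  refine ⟨x / r, ?_, ?_, ?_⟩
  · rw [Finset.mem_Icc]
    constructor
    · have h3 : -(x / r) - 1 ≤ N / r := by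
        rw [Int.le_ediv_iff_mul_le hr0]
        linarith
      linarith
    · have h3 : x / r ≤ N / r := by
        rw [Int.le_ediv_iff_mul_le hr0]
        linarith
      linarith
  · refine to_arm hrR ?_ hfr hxA
    rw [abs_le]
    constructor <;> linarith
  · refine to_arm hrR ?_ hfr hxB
    rw [abs_le]
    constructor <;> linarith

/-- TWO ARMS OF THE HALF PLANE.  `P(E) ≥ κ 5 ^ 2` for the two crossings (disjoint rectangles); by
`exists_block` and Harris (`pr_harris_neg`) the sum over the at most `7 R / r` blocks of the products is at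
least `κ 5 ^ 2`. -/
theorem half_two (κ : ℕ → ℝ) : ∃ c₀ : ℝ, (0 < κ 5 → 0 < c₀) ∧ ∀ L : Lat, RSW L κ →
    ∀ r R : ℤ, 8 ≤ r → r < R → ∃ z : ℤ,
      c₀ * ((r : ℝ) / R) ≤ a1 (L.shift (z, 0)) true r R * a1 (L.shift (z, 0)) false r R := by
  refine ⟨κ 5 ^ 2 / 7, fun h => by positivity, ?_⟩
  intro L hL r R hr hrR
  by_contra hno
  push Not at hno
  set N : ℤ := R + r with hN
  have hk := hL.pos 5
  have h1 : κ 5 ≤ pr (L.VX true (-N) (-N + N / 2) 0 (2 * N)) :=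
    hL.vx' (by norm_num) true (by omega) (by omega) (by push_cast; omega)
  have h2 : κ 5 ≤ pr (L.VX false (N - N / 2) N 0 (2 * N)) :=
    hL.vx' (by norm_num) false (by omega) (by omega) (by push_cast; omega)
  have h3 : pr (fun ω => L.VX true (-N) (-N + N / 2) 0 (2 * N) ω ∧
      L.VX false (N - N / 2) N 0 (2 * N) ω) = pr (L.VX true (-N) (-N + N / 2) 0 (2 * N)) *
        pr (L.VX false (N - N / 2) N 0 (2 * N)) := by
    refine pr_and (Lat.VX.loc L _ _ _ _ _) (Lat.VX.loc L _ _ _ _ _) (Lat.VX.dep L _ _ _ _ _)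
      (Lat.VX.dep L _ _ _ _ _) (fun v hv hv' => ?_)
    simp only [rect, Set.mem_ofPred_eq] at hv hv'
    omega
  have hB : ∀ i : ℤ, Loc (fun ω => Az L (i * r) true r R ω ∧ Az L (i * r) false r R ω) :=
    fun i => (Az_loc _ _ _ _ _).and (Az_loc _ _ _ _ _)
  set I : Finset ℤ := Finset.Icc (-(N / r + 1)) (N / r + 1) with hI
  have h4 : pr (fun ω => L.VX true (-N) (-N + N / 2) 0 (2 * N) ω ∧
      L.VX false (N - N / 2) N 0 (2 * N) ω) ≤
      pr (fun ω => ∃ i ∈ I, Az L (i * r) true r R ω ∧ Az L (i * r) false r R ω) := by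
    refine pr_mono ((Lat.VX.loc L _ _ _ _ _).and (Lat.VX.loc L _ _ _ _ _)) ?_ (fun ω hω => ?_)
    · exact loc_exI I (fun i _ => hB i)
    · exact exists_block (by omega) hrR hω.1 hω.2
  have h5 := pr_ex_le (I := I) (A := fun i ω => Az L (i * r) true r R ω ∧ Az L (i * r) false r R ω)
    (fun i _ => hB i)
  have hr0 : (0 : ℝ) < r := by exact_mod_cast (by omega : 0 < r)
  have hR0 : (0 : ℝ) < R := by exact_mod_cast (by omega : 0 < R)
  have h6 : ∀ i ∈ I, pr (fun ω => Az L (i * r) true r R ω ∧ Az L (i * r) false r R ω) ≤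
      κ 5 ^ 2 / 7 * ((r : ℝ) / R) := by
    intro i _
    have hm1 := Lat.Arm.mon L true (annAt (i * r, 0) r R ∩ {v | 0 ≤ v.2}) (L.nb (bxAt (i * r, 0) r))
      (rngAt (i * r, 0) R)
    have hm2 := Lat.Arm.mon L false (annAt (i * r, 0) r R ∩ {v | 0 ≤ v.2})
      (L.nb (bxAt (i * r, 0) r)) (rngAt (i * r, 0) R)
    refine le_trans (pr_harris_neg (Az_loc _ _ _ _ _) (Az_loc _ _ _ _ _) hm1 hm2) ?_
    rw [Az_pr, Az_pr]
    exact (hno (i * r)).le
  have h7 : ∑ i ∈ I, pr (fun ω => Az L (i * r) true r R ω ∧ Az L (i * r) false r R ω) ≤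
      I.card * (κ 5 ^ 2 / 7 * ((r : ℝ) / R)) := by
    refine le_trans (Finset.sum_le_sum h6) ?_
    rw [Finset.sum_const, nsmul_eq_mul]
  have hcard : (I.card : ℝ) < 7 * ((R : ℝ) / r) := by
    have e1 : I.card = (N / r + 1 + 1 - -(N / r + 1)).toNat := Int.card_Icc _ _
    have e0 : 0 ≤ N / r := Int.ediv_nonneg (by omega) (by omega)
    have e2 : ((I.card : ℕ) : ℤ) = 2 * (N / r) + 3 := by
      rw [e1, Int.toNat_of_nonneg (by omega)]
      ring
    have e3 : (I.card : ℝ) = 2 * ((N / r : ℤ) : ℝ) + 3 := by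
      have : (((I.card : ℕ) : ℤ) : ℝ) = ((2 * (N / r) + 3 : ℤ) : ℝ) := by rw [e2]
      push_cast at this
      push_cast
      exact this
    have e4 : ((N / r : ℤ) : ℝ) ≤ (R : ℝ) / r + 1 := by
      have h8 : (N / r) * r ≤ N := Int.ediv_mul_le N (by omega)
      have h9 : ((N / r : ℤ) : ℝ) * r ≤ (R : ℝ) + r := by
        have : (((N / r) * r : ℤ) : ℝ) ≤ ((N : ℤ) : ℝ) := by exact_mod_cast h8
        rw [hN] at this
        push_cast at this
        rw [hN]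
        push_cast
        exact this
      have h10 : ((N / r : ℤ) : ℝ) ≤ ((R : ℝ) + r) / r := by
        rw [le_div_iff₀ hr0]
        exact h9
      rw [add_div, div_self hr0.ne'] at h10
      exact h10
    have e5 : (1 : ℝ) < (R : ℝ) / r := by
      rw [one_lt_div hr0]
      exact_mod_cast hrR
    rw [e3]
    linarith
  have h8 : κ 5 * κ 5 ≤ pr (L.VX true (-N) (-N + N / 2) 0 (2 * N)) *
        pr (L.VX false (N - N / 2) N 0 (2 * N)) := mul_le_mul h1 h2 hk.le (hk.le.trans h1)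
  have h9 : (I.card : ℝ) * (κ 5 ^ 2 / 7 * ((r : ℝ) / R)) <
      7 * ((R : ℝ) / r) * (κ 5 ^ 2 / 7 * ((r : ℝ) / R)) :=
    mul_lt_mul_of_pos_right hcard (by positivity)
  have h10 : 7 * ((R : ℝ) / r) * (κ 5 ^ 2 / 7 * ((r : ℝ) / R)) = κ 5 * κ 5 := by
    field_simp
  linarith

end HL

end SC

end

/-! ### from `Lib_MP_e0a489.FI5b` -/

section

/-!
# MP_e0a489, module FI 5b: the local event, distances and supports
-/

set_option autoImplicit false

namespace SC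

open Classical FI

namespace FI

private theorem tri5b (u v y : Pt) : nrm (u - y) ≤ nrm (u - v) + nrm (v - y) := by
  unfold nrm
  simp only [Prod.fst_sub, Prod.snd_sub]
  have h1 := abs_sub_le u.1 v.1 y.1
  have h2 := abs_sub_le u.2 v.2 y.2
  omega

private theorem comm5b (u v : Pt) : nrm (u - v) = nrm (v - u) := by
  unfold nrm
  rw [Prod.fst_sub, Prod.snd_sub, Prod.fst_sub, Prod.snd_sub, abs_sub_comm u.1, abs_sub_comm u.2]

private theorem nn5b (v : Pt) : 0 ≤ nrm v := le_max_of_le_left (abs_nonneg _)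

/-- distance of the nearest boundary point: `nrm (x - yH) = |hm N N' x|` -/
theorem nrm_yH (N N' : ℤ) (x : Pt) : nrm (x - yH N N' x) = |hm N N' x| := by
  obtain ⟨x1, x2⟩ := x
  simp only [nrm, yH, hm, Prod.fst_sub, Prod.snd_sub]
  split_ifs <;> simp only [abs_eq_max_neg] at * <;> omega

/-- `nrm (x - yQ) = max |N - |x.1|| |N' - |x.2|| ≤ max a (hM N N' x)` -/
theorem nrm_yQ {N N' a : ℤ} {x : Pt} (h1 : |x.1| ≤ N + a) (h2 : |x.2| ≤ N' + a) :
    nrm (x - yQ N N' x) ≤ max a (hM N N' x) := by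
  obtain ⟨x1, x2⟩ := x
  simp only [nrm, yQ, hM, Prod.fst_sub, Prod.snd_sub] at *
  split_ifs <;> simp only [abs_eq_max_neg] at * <;> omega

/-- `nrm (yH - yQ) = |hM N N' x|` -/
theorem nrm_yHQ (N N' : ℤ) (x : Pt) : nrm (yH N N' x - yQ N N' x) = |hM N N' x| := by
  obtain ⟨x1, x2⟩ := x
  simp only [nrm, yH, yQ, hM, Prod.fst_sub, Prod.snd_sub]
  split_ifs <;> simp only [abs_eq_max_neg] at * <;> omega

/-- The three annuli are disjoint.  Let `h = hm`, `h₂ = hM`.  `v ∈ annAt x a (min h b - 1)`: `0 ≤ a < h`,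
`nrm (v - yH) ≤ (h - 1) + h < 2 h`. -/
theorem disj_BH {N N' a b : ℤ} {x : Pt} (ha : 0 ≤ a) (v : Pt)
    (hv : v ∈ annAt x a (min (hm N N' x) b - 1)) :
    v ∉ annAt (yH N N' x) (2 * max a (hm N N' x)) (min (hM N N' x) b - 1) := by
  rintro ⟨h3, -⟩
  obtain ⟨h1, h2⟩ := hv
  have t1 := tri5b v x (yH N N' x)
  rw [nrm_yH] at t1
  simp only [abs_eq_max_neg] at t1
  omega

/-- `nrm (v - yQ) ≤ (h - 1) + h₂ < 2 h₂` (here `N - |x.1|`, `N' - |x.2| ≥ h > 0`) -/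
theorem disj_BQ {N N' a b : ℤ} {x : Pt} (ha : 0 ≤ a) (v : Pt)
    (hv : v ∈ annAt x a (min (hm N N' x) b - 1)) :
    v ∉ annAt (yQ N N' x) (2 * max a (hM N N' x)) b := by
  rintro ⟨h3, -⟩
  obtain ⟨h1, h2⟩ := hv
  have t1 := tri5b v x (yQ N N' x)
  have t3 : hm N N' x ≤ hM N N' x := by
    simp only [hm, hM]
    omega
  have t4 : 0 < hm N N' x := by
    have := nn5b (v - x)
    omega
  have t2 := nrm_yQ (N := N) (N' := N') (a := 0) (x := x) (by simp only [hm] at t4; omega)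
    (by simp only [hm] at t4; omega)
  omega

/-- `v ∈ annAt yH (2 max a h) (min h₂ b - 1)`: `0 < h₂`, `nrm (v - yQ) ≤ (h₂ - 1) + h₂ < 2 h₂` -/
theorem disj_HQ {N N' a b : ℤ} {x : Pt} (ha : 0 ≤ a) (v : Pt)
    (hv : v ∈ annAt (yH N N' x) (2 * max a (hm N N' x)) (min (hM N N' x) b - 1)) :
    v ∉ annAt (yQ N N' x) (2 * max a (hM N N' x)) b := by
  rintro ⟨h3, -⟩
  obtain ⟨h1, h2⟩ := hv
  have t1 := tri5b v (yH N N' x) (yQ N N' x)
  rw [nrm_yHQ] at t1
  simp only [abs_eq_max_neg] at t1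
  have t0 := nn5b (v - yH N N' x)
  omega

end FI

/-- Support of the local event.  Lower bound: `nrm (v - x) ≥ nrm (v - yH) - |h| > 2 max a h - |h| ≥ a` (`-a ≤ h`), similarly for `yQ`
(`nrm_yQ`).  Upper bound: `nrm (v - x) ≤ (b - 1) + |h| ≤ 2 b` because `2 max a h < b` if the annulus is not empty,
and `|h| ≤ max a h`; similarly for `yQ`. -/
theorem Lat.Ev.dep (L : Lat) {N N' : ℤ} (E : Set Pt) {x : Pt} {a b : ℤ} (ha : 0 ≤ a)
    (h1 : |x.1| ≤ N + a) (h2 : |x.2| ≤ N' + a) :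
    Dep (L.Ev N N' E x a b) (annAt x a (2 * b)) := by
  intro ω ω' h
  have hmM : -a ≤ hm N N' x := by
    simp only [hm]
    omega
  have hMM : hm N N' x ≤ hM N N' x := by
    simp only [hm, hM]
    omega
  have e1 : L.EvB x a (min (hm N N' x) b - 1) ω = L.EvB x a (min (hm N N' x) b - 1) ω' := by
    by_cases hab : a < min (hm N N' x) b - 1
    · refine EvB.dep L x a _ ω ω' fun v hv => h v ?_
      obtain ⟨k1, k2⟩ := hv
      exact ⟨k1, by omega⟩
    · exact propext ⟨fun _ k => absurd k hab, fun _ k => absurd k hab⟩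
  have e2 : L.EvH N N' E x (2 * max a (hm N N' x)) (min (hM N N' x) b - 1) ω =
      L.EvH N N' E x (2 * max a (hm N N' x)) (min (hM N N' x) b - 1) ω' := by
    by_cases hab : 2 * max a (hm N N' x) < min (hM N N' x) b - 1
    · refine EvH.dep L N N' E x _ _ ω ω' fun v hv => h v ?_
      obtain ⟨k1, k2⟩ := hv
      have t1 := tri5b v x (yH N N' x)
      have t2 := tri5b v (yH N N' x) x
      rw [comm5b (yH N N' x) x] at t2
      rw [nrm_yH] at t1 t2
      simp only [abs_eq_max_neg] at t1 t2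
      exact ⟨by omega, by omega⟩
    · exact propext ⟨fun _ k => absurd k hab, fun _ k => absurd k hab⟩
  have e3 : L.EvQ N N' E x (2 * max a (hM N N' x)) b ω =
      L.EvQ N N' E x (2 * max a (hM N N' x)) b ω' := by
    by_cases hab : 2 * max a (hM N N' x) < b
    · refine EvQ.dep L N N' E x _ _ ω ω' fun v hv => h v ?_
      obtain ⟨k1, k2⟩ := hv
      have t1 := tri5b v x (yQ N N' x)
      have t2 := tri5b v (yQ N N' x) x
      rw [comm5b (yQ N N' x) x] at t2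
      have t3 := nrm_yQ h1 h2
      exact ⟨by omega, by omega⟩
    · exact propext ⟨fun _ k => absurd k hab, fun _ k => absurd k hab⟩
  show (_ ∧ _ ∧ _) = (_ ∧ _ ∧ _)
  rw [e1, e2, e3]

end SC

end

/-! ### from `Lib_MP_e0a489.ZR4` -/

section

/-!
# MP_e0a489, module ZR, 4: the leftmost vertical crossing of a rectangle
-/

set_option autoImplicit false

namespace SC

open Classical

/-- LEFTMOST CROSSING.  The closed clusters of `rect 0 a 0 n` attached to the column `-1` are explored,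
`C = Cx false (rect (-1) a 0 n) (rect (-1) (-1) 0 n) ω`.  If there is an open vertical crossing, the boundary `Γ` of
`C` seen from the right is an open connected set which crosses the rectangle vertically.
Proof (same as `hex_or` in TD1.lean, copy it).  Let `S = rect (-1) (-1) 0 n`, `M = rect (-1) (a+1) 0 n`.  `C` is connected
(`Cx_con`), `C ⊆ rect (-1) a 0 n` (`Cx_sub`).  Every `v ∈ C` has `v.1 < a`: otherwise `v ∉ S`, so `v` is joined in
closed sites of `rect (-1) a 0 n \ S` to a site `u` with a neighbour in `S`, `u.1 = 0` (`Adj.near`), so `HX false 0 a 0 n ω`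
(this set difference is contained in `rect 0 a 0 n`), contradiction to `hex_not`.  `W` = component of `M \ C` that contains
the column `a + 1`, `Γ = bd W C`, connected by `con_bd (exact_rect ..)`.  A site `v ∈ Γ` is not in `C ⊇ S` and has a neighbour
`u ∈ C`, `u.1 < a`, so `v ∈ rect 0 a 0 n`; it is open (`bd_col`) and in `Rev`.  Every row `y` with `0 ≤ y ≤ n` contains a site of `Γ`: `Cn.last` for the row
`rect (-1) (a+1) y y` and the set `C`. -/
theorem left_crossing {L : Lat} {a n : ℤ} (ha : 0 ≤ a) (hn : 0 ≤ n) {ω : Cfg}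
    (h : L.VX true 0 a 0 n ω) : ∃ Γ : Set Pt, L.Con Γ ∧ Γ ⊆ rect 0 a 0 n ∩ L.col true ω ∧
      Γ ⊆ L.Rev false (rect (-1) a 0 n) (rect (-1) (-1) 0 n) ω ∧
      (∀ v ∈ Γ, v ∉ L.Cx false (rect (-1) a 0 n) (rect (-1) (-1) 0 n) ω) ∧
      (∃ v ∈ Γ, v.2 = 0) ∧ ∃ v ∈ Γ, v.2 = n := by
  set S : Set Pt := rect (-1) (-1) 0 n with hS
  set M₀ : Set Pt := rect (-1) a 0 n with hM₀
  set M : Set Pt := rect (-1) (a + 1) 0 n with hM
  set C : Set Pt := L.Cx false M₀ S ω with hC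
  have hSm : ∀ v : Pt, v ∈ S ↔ (-1 ≤ v.1 ∧ v.1 ≤ -1) ∧ 0 ≤ v.2 ∧ v.2 ≤ n := fun _ => Iff.rfl
  have hM₀m : ∀ v : Pt, v ∈ M₀ ↔ (-1 ≤ v.1 ∧ v.1 ≤ a) ∧ 0 ≤ v.2 ∧ v.2 ≤ n := fun _ => Iff.rfl
  have hMm : ∀ v : Pt, v ∈ M ↔ (-1 ≤ v.1 ∧ v.1 ≤ a + 1) ∧ 0 ≤ v.2 ∧ v.2 ≤ n := fun _ => Iff.rfl
  have hRm : ∀ v : Pt, v ∈ rect 0 a 0 n ↔ (0 ≤ v.1 ∧ v.1 ≤ a) ∧ 0 ≤ v.2 ∧ v.2 ≤ n :=
    fun _ => Iff.rfl
  have hSM : S ⊆ M₀ := by
    intro v hv
    rw [hSm] at hv
    rw [hM₀m]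
    omega
  have hCc : L.Con C := Lat.Cx_con (Lat.con_rect _ _ _ _)
  have hCM₀ : C ⊆ M₀ := Lat.Cx_sub hSM
  have hCM : C ⊆ M := by
    intro v hv
    have h1 := hCM₀ hv
    rw [hM₀m] at h1
    rw [hMm]
    omega
  have hSR : M₀ \ S ⊆ rect 0 a 0 n := by
    rintro v ⟨h1, h2⟩
    rw [hM₀m] at h1
    rw [hSm] at h2
    rw [hRm]
    omega
  have hCb : ∀ v ∈ C, v.1 < a := by
    intro v hv
    have h0 := hCM₀ hv
    rw [hM₀m] at h0
    rcases hv with hv | hv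
    · rw [hSm] at hv
      omega
    · obtain ⟨u, ⟨w, hw, hwu⟩, huv⟩ := hv
      have h2 := hSR huv.left.1
      rw [hRm] at h2
      rw [hSm] at hw
      have h3 := hwu.near
      rw [abs_le, abs_le] at h3
      by_contra hcon
      refine Lat.hex_not (L := L) (c := false) (a := 0) (b := a) (p := 0) (q := n) (ω := ω)
        ⟨u, v, by omega, by omega, huv.mono (Set.inter_subset_inter_left _ hSR)⟩ h
  have hcol : rect (a + 1) (a + 1) 0 n ⊆ M \ C := by
    intro v hv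
    have h1 : (a + 1 ≤ v.1 ∧ v.1 ≤ a + 1) ∧ 0 ≤ v.2 ∧ v.2 ≤ n := hv
    refine ⟨?_, fun hvC => ?_⟩
    · rw [hMm]
      omega
    · have h2 := hCb v hvC
      omega
  have hm : ∀ y, 0 ≤ y → y ≤ n → ((a + 1, y) : Pt) ∈ rect (a + 1) (a + 1) 0 n :=
    fun y h1 h2 => ⟨⟨le_refl _, le_refl _⟩, h1, h2⟩
  set W : Set Pt := {v | L.Cn (M \ C) (a + 1, 0) v} with hW
  have hWc : L.Comp (M \ C) W := Lat.comp_cluster (hcol (hm 0 (le_refl _) hn))
  have hB : L.Con (L.bd W C) := Lat.con_bd (Lat.exact_rect _ _ _ _ _) hCc hCM hWc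
  have hBR : ∀ v ∈ L.bd W C, v ∈ rect 0 a 0 n ∧ v ∈ M₀ ∧ v ∉ C := by
    rintro v ⟨hv, u, hu, huv⟩
    have h1 := hWc.sub hv
    have h2 := hCb u hu
    have h3 := huv.near
    rw [abs_le, abs_le] at h3
    have h4 : v ∉ S := fun h => h1.2 (Or.inl h)
    have h5 := h1.1
    rw [hSm] at h4
    rw [hMm] at h5
    refine ⟨?_, ?_, h1.2⟩
    · rw [hRm]
      omega
    · rw [hM₀m]
      omega
  have hrow : ∀ y, 0 ≤ y → y ≤ n → ∃ v ∈ L.bd W C, v.2 = y := by
    intro y hy1 hy2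
    have hT : L.Con (rect (-1) (a + 1) y y) := Lat.con_rect _ _ _ _
    have m1 : ((-1, y) : Pt) ∈ rect (-1) (a + 1) y y :=
      ⟨⟨le_refl _, by simp only []; omega⟩, le_refl _, le_refl _⟩
    have m2 : ((a + 1, y) : Pt) ∈ rect (-1) (a + 1) y y :=
      ⟨⟨by simp only []; omega, le_refl _⟩, le_refl _, le_refl _⟩
    have m3 : ((-1, y) : Pt) ∈ C := Or.inl ⟨⟨le_refl _, le_refl _⟩, hy1, hy2⟩
    have m4 : ((a + 1, y) : Pt) ∉ C := (hcol (hm y hy1 hy2)).2
    obtain ⟨z, w, hz, hzC, hzw, hw⟩ := (hT _ m1 _ m2).last m3 m4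
    have hTM : rect (-1) (a + 1) y y \ C ⊆ M \ C := by
      rintro v ⟨hv, hvC⟩
      have h1 : (-1 ≤ v.1 ∧ v.1 ≤ a + 1) ∧ y ≤ v.2 ∧ v.2 ≤ y := hv
      refine ⟨?_, hvC⟩
      rw [hMm]
      omega
    have h2 : L.Cn (M \ C) (a + 1, 0) (a + 1, y) :=
      (Lat.con_rect _ _ _ _ _ (hm 0 (le_refl _) hn) _ (hm y hy1 hy2)).mono hcol
    refine ⟨w, ⟨h2.trans (hw.mono hTM).symm, z, hzC, hzw⟩, ?_⟩
    have h3 : (-1 ≤ w.1 ∧ w.1 ≤ a + 1) ∧ y ≤ w.2 ∧ w.2 ≤ y := hw.left.1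
    omega
  refine ⟨L.bd W C, hB, ?_, ?_, fun v hv => (hBR v hv).2.2, hrow 0 (le_refl _) hn,
    hrow n hn (le_refl _)⟩
  · intro v hv
    exact ⟨(hBR v hv).1, Lat.bd_col (hBR v hv).2.1 hv.2 (hBR v hv).2.2⟩
  · intro v hv
    exact Or.inr ⟨(hBR v hv).2.1, hv.2⟩

end SC

end
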