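import Mathlib
import Pool.Agent.Lib_MP_e0a489_m.G06
import Pool.Agent.Lib_MP_e0a489_m.G07
import Pool.Agent.Lib_MP_e0a489_m.G08
import Pool.Agent.Lib_MP_e0a489_m.G09
import Pool.Agent.Lib_MP_e0a489_m.G10
import Pool.Agent.Lib_MP_e0a489_m.G11
import Pool.Agent.Lib_MP_e0a489_m.G14
import Pool.Agent.Lib_MP_e0a489_m.G15
import Pool.Agent.Lib_MP_e0a489_m.G16

/-!
# MP_e0a489_pr: merged library part G19

Concatenation of library files (each in its own section), only to save build time.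
-/

/-! ### from `Lib_MP_e0a489.IS4` -/

section

/-!
# MP_e0a489, inner separation 4: exploration domain, landing of one arm

`B` = union of the blocks that have already been landed (`∅` in the first step, two coarse blocks in the second step).  The
arms of colour `c` are landed, the clusters of colour `!c` are explored.
-/

set_option autoImplicit false

namespace SC

open Classical

/-- domain of the exploration -/
def Di (r R : ℤ) (B : Set Pt) : Set Pt := ann r (2 * R + 1) ∪ B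

/-- source of the exploration -/
def Si (c : Bool) (R : ℤ) (B : Set Pt) : Set Pt := Outc c R ∪ B

theorem Si_sub {c : Bool} {r R : ℤ} {B : Set Pt} (hrR : r ≤ R) : Si c R B ⊆ Di r R B := by
  exact Set.union_subset_union_left _ (Outc_sub hrR)

theorem Di_diff {c : Bool} {r R : ℤ} {B : Set Pt} (hR : 0 ≤ R) (hrR : r ≤ R) (hB : B ⊆ bx r) :
    Di r R B \ Si c R B = ann r R ∪ Jc c R := by
  have h := ann_diff_Outc (c := c) hR hrR
  ext v
  constructor
  · rintro ⟨hv | hv, hS⟩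
    · rw [← h]
      exact ⟨hv, fun hc => hS (Or.inl hc)⟩
    · exact absurd (Or.inr hv) hS
  · intro hv
    rw [← h] at hv
    refine ⟨Or.inl hv.1, ?_⟩
    rintro (hc | hc)
    · exact hv.2 hc
    · have h1 : nrm v ≤ r := hB hc
      have h2 : r < nrm v := hv.1.1
      omega

theorem nrm_le_add (u v : Pt) : nrm u ≤ nrm (u - v) + nrm v := by
  have h1 : |(u - v).1| ≤ nrm (u - v) := le_max_left _ _
  have h2 : |(u - v).2| ≤ nrm (u - v) := le_max_right _ _
  have h3 : |v.1| ≤ nrm v := le_max_left _ _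
  have h4 : |v.2| ≤ nrm v := le_max_right _ _
  have h5 : |u.1| ≤ |(u - v).1| + |v.1| := by
    have := abs_add_le (u.1 - v.1) v.1
    rw [sub_add_cancel] at this
    exact this
  have h6 : |u.2| ≤ |(u - v).2| + |v.2| := by
    have := abs_add_le (u.2 - v.2) v.2
    rw [sub_add_cancel] at this
    exact this
  exact max_le (by omega) (by omega)

namespace Lat

variable {L : Lat}

/-- norms of adjacent sites differ by at most one -/
theorem nrm_adj4 {u v : Pt} (h : L.Adj u v) : nrm u ≤ nrm v + 1 ∧ nrm v ≤ nrm u + 1 := by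
  have h1 := h.near
  have h2 : nrm (u - v) ≤ 1 := max_le h1.1 h1.2
  have h3 : nrm (v - u) ≤ 1 := by
    have h4 := h.symm.near
    exact max_le h4.1 h4.2
  have h5 := nrm_le_add u v
  have h6 := nrm_le_add v u
  exact ⟨by omega, by omega⟩

theorem nrm_ax4 {a : ℤ} (h : 0 ≤ a) : nrm ((a, 0) : Pt) = a := by
  show max |a| |(0 : ℤ)| = a
  rw [abs_zero, abs_of_nonneg h]
  exact max_eq_left h

/-- sites next to `Outc c R` -/
theorem nb_Outc_nrm {c : Bool} {R : ℤ} {v : Pt} (hv : v ∈ L.nb (Outc c R)) : R ≤ nrm v := by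
  obtain ⟨u, hu, huv⟩ := hv
  have h1 : R < nrm u := not_le.1 (fun hc => hu.2 (Or.inl hc))
  have h2 := nrm_adj4 huv
  omega

/-- A ring site in the explored set has a path of the explored colour to a site next to the source.  (It is not in the source:
its norm is `r + 1 ≤ R` and `B ⊆ bx r`; definition of `cl`, `Di_diff`.) -/
theorem attached {c : Bool} {r R : ℤ} {B : Set Pt} {ω : Cfg} {x : Pt} (hr : 0 ≤ r)
    (hrR : r + 1 ≤ R) (hB : B ⊆ bx r) (hx : nrm x = r + 1)
    (h : x ∈ L.Cx (!c) (Di r R B) (Si c R B) ω) :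
    ∃ v, v ∈ L.nb (Si c R B) ∧ L.Cn ((ann r R ∪ Jc c R) ∩ L.col (!c) ω) x v := by
  rcases h with h | ⟨u, hu, hc⟩
  · exfalso
    rcases h with h | h
    · exact h.2 (Or.inl (show nrm x ≤ R by omega))
    · have h1 : nrm x ≤ r := hB h
      omega
  · rw [Di_diff (by omega) (by omega) hB] at hc
    exact ⟨u, hu, hc.symm⟩

/-- The end of an arm of the landed colour has a neighbour in the explored set, and the arm lies outside the
explored set. -/
theorem end_nb {c : Bool} {r R d : ℤ} {B : Set Pt} {ω : Cfg} {y : Pt} (hR : 1 ≤ R)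
    (hy : y ∈ Je d R) : y ∈ L.nb (L.Cx (!c) (Di r R B) (Si c R B) ω) := by
  obtain ⟨u, hu, huy⟩ := Je_nb (L := L) hR hy
  exact ⟨u, Cx_sup (Or.inl (rng_sub_Outc (by omega) hu)), huy⟩

/-- An arm of the explored colour `!c` that ends in a zone of the colour `!c` (a subset of the source) is contained in the
explored set and survives in the mixed configuration.  (`cn_mix_Cx` with `A = ann r R ∪ Jc (!c) R ∪ B'`.) -/
theorem arm_keep {c : Bool} {r R d : ℤ} {B B' X : Set Pt} {ω η : Cfg} {G : Finset Pt} (hr : 0 ≤ r)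
    (hR : 1 ≤ R) (hrR : r ≤ R) (hd : d = dc (!c) ∨ d = dc (!c) + 2) (hB : B' ⊆ B)
    (h : L.Arm (!c) (ann r R ∪ Jc (!c) R ∪ B') X (Je d R) ω) :
    ∃ x ∈ X, x ∈ L.Cx (!c) (Di r R B) (Si c R B) ω ∧ ∃ y ∈ Je d R,
      L.Cn ((ann r R ∪ Jc (!c) R ∪ B') ∩ L.col (!c) ω) x y ∧
      L.Cn ((ann r R ∪ Jc (!c) R ∪ B') ∩
        L.col (!c) (mix G (L.Rev (!c) (Di r R B) (Si c R B)) ω η)) x y := by
  obtain ⟨x, hx, y, hy, hc⟩ := h
  have hA : ann r R ∪ Jc (!c) R ∪ B' ⊆ Di r R B := by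
    rintro v ((hv | hv) | hv)
    · exact Or.inl ⟨hv.1, hv.2.trans (by omega)⟩
    · exact Or.inl (Outc_sub hrR (Jc_sub_Outc (by omega) hv))
    · exact Or.inr (hB hv)
  have hyC : y ∈ L.Cx (!c) (Di r R B) (Si c R B) ω :=
    Cx_sup (Or.inl (Jc_sub_Outc (by omega) (Je_sub_Jc hR hd hy)))
  obtain ⟨h1, h2⟩ := cn_mix_Cx (G := G) (η := η) hA hc hyC
  exact ⟨x, hx, h2, y, hy, hc, h1⟩

/-- LANDING OF ONE ARM.
Proof.  `N = ib w M s k`, `C` the explored set.  `fresh_set` (radii `r`, `r + w`) gives `T`.  `T ⊆ Di ∪ N`: `ann r (r+w)` and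
`ob w M s k` (`ob_nrm`) are in `ann r (2R+1)`.  `T ⊆ G` (`ib_nrm`, `ob_nrm`).  `T` meets `C`: `C` is connected, contains a site of
`bx r ∪ nb (bx r)` (hypothesis) and the ring `2R+1` (`rng_sub_Outc`).  `Di ∪ N` is exact: `exact_ib` (a neighbour of `N` in `Di` is
not in `B`, so outside `bx r`, so on the ring `r + 1` by `ib_nbr`).  These neighbours are in the triple (`ib_adj`), hence
in `V`; `ib_touch`.  `land_step` gives the path in `V ∪ N ⊆ (Di \ Si) ∪ N = ann r R ∪ Jc c R ∪ N`. -/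
theorem land_in {c : Bool} {w M r R s k : ℤ} {B V : Set Pt} {ω η : Cfg} {G : Finset Pt} {y : Pt}
    (hw : w % 2 = 1) (hw5 : 5 ≤ w) (hr : r = M * w + w / 2) (hR : 8 * r ≤ R)
    (hk : |k| + 1 < M) (hB : B ⊆ bx r)
    (hBN : ∀ v ∈ ib w M s k, v ∉ B ∧ v ∉ L.nb B)
    (hC : L.Con (L.Cx (!c) (Di r R B) (Si c R B) ω))
    (hCi : ∃ v ∈ L.Cx (!c) (Di r R B) (Si c R B) ω, v ∈ bx r ∪ L.nb (bx r))
    (hex : L.Exact (Di r R B) (L.Cx (!c) (Di r R B) (Si c R B) ω))
    (hV : L.Comp (Di r R B \ L.Cx (!c) (Di r R B) (Si c R B) ω) V)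
    (ht : trip w (r + 1) s k ⊆ V) (hy : y ∈ V)
    (hy' : y ∈ L.nb (L.Cx (!c) (Di r R B) (Si c R B) ω))
    (hG : ∀ v, r - w < nrm v → nrm v ≤ r + w → v ∈ G)
    (hc : L.Circ c r (r + w) η) (hcor : L.Cor c w M s k η) :
    ∃ u, u ∈ ib w M s k ∩ rng (M * w - w / 2) ∧
      L.Cn ((ann r R ∪ Jc c R ∪ ib w M s k) ∩
        L.col c (mix G (L.Rev (!c) (Di r R B) (Si c R B)) ω η)) u y := by
  have hw0 : 0 < w := by omega
  have hk0 := abs_nonneg k
  have hM : 2 ≤ M := by omega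
  have hMw : 2 * w ≤ M * w := mul_le_mul_of_nonneg_right hM hw0.le
  have hww : 0 ≤ w / 2 := by omega
  have hr2 : 2 * w ≤ r := by omega
  obtain ⟨T, hT, hTc, hTs, ⟨u, huT, hui, hur⟩, -, hsep⟩ := fresh_set hw hw0 (by omega)
    (show 0 ≤ r by omega) (show r < r + w by omega) (by omega) (by omega) hc hcor
  have hSC : Si c R B ⊆ L.Cx (!c) (Di r R B) (Si c R B) ω := Cx_sup
  have hnb : ∀ v ∈ ib w M s k, ∀ u ∈ Di r R B, L.Adj u v → u ∉ bx r := by
    rintro v hv u (hu | hu) huv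
    · exact not_le.2 hu.1
    · exact absurd ⟨u, hu, huv⟩ (hBN v hv).2
  have hNM : ∀ v ∈ ib w M s k, v ∉ Di r R B := by
    rintro v hv (hc | hc)
    · have h1 := (ib_nrm hw hw0 hr (by omega) hv).2
      have h2 : r < nrm v := hc.1
      omega
    · exact (hBN v hv).1 hc
  have hex' : L.Exact (Di r R B ∪ ib w M s k) (L.Cx (!c) (Di r R B) (Si c R B) ω) := by
    refine exact_ib hw hw0 hr (by omega) hex ?_ ?_ hNM
    · intro v hv
      have h1 : nrm v = r + 1 := hv
      exact Or.inl ⟨by omega, by omega⟩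
    · intro v hv u hu huv
      have h1 : r < nrm u := not_le.1 (hnb v hv u hu huv)
      have h2 := (ib_nrm hw hw0 hr (by omega) hv).2
      have h3 := nrm_adj4 huv
      show nrm u = r + 1
      omega
  have hNV : ∀ v ∈ ib w M s k, ∀ u ∈ Di r R B, L.Adj u v → u ∈ V := by
    intro v hv u hu huv
    have h1 := hnb v hv u hu huv
    refine ht ?_
    rw [hr] at h1 ⊢
    exact ib_adj hw hw0 (by omega) hk hv h1 huv.symm
  have hadj : ∃ v ∈ ib w M s k, ∃ u ∈ V, L.Adj u v := by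
    obtain ⟨v, hv, u, hu, huv⟩ := ib_touch (L := L) (s := s) hw hw0 hr (show |k| < M by omega)
    exact ⟨v, hv, u, ht hu, huv⟩
  have hTM : T ⊆ Di r R B ∪ ib w M s k := by
    intro v hv
    rcases hTs hv with h1 | h1 | h1
    · exact Or.inl (Or.inl ⟨h1.1, h1.2.trans (by omega)⟩)
    · exact Or.inr h1
    · have h2 := ob_nrm hw hw0 hr (by omega) h1
      exact Or.inl (Or.inl ⟨h2.1, h2.2.trans (by omega)⟩)
  have hTG : T ⊆ (G : Set Pt) := by
    intro v hv
    rcases hTs hv with h1 | h1 | h1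
    · have h2 : r < nrm v := h1.1
      exact hG v (by omega) h1.2
    · have h2 := ib_nrm hw hw0 hr (by omega) h1
      exact hG v h2.1 (by omega)
    · have h2 := ob_nrm hw hw0 hr (by omega) h1
      exact hG v (by omega) h2.2
  have hTC : (T ∩ L.Cx (!c) (Di r R B) (Si c R B) ω).Nonempty := by
    refine hsep _ hC hCi ⟨(2 * R + 1, 0), hSC (Or.inl (rng_sub_Outc (by omega) ?_)), ?_⟩
    · exact nrm_ax4 (by omega)
    · rw [nrm_ax4 (by omega)]
      omega
  have h1 := land_step (Si_sub (by omega)) hC hex' hV (con_ib hw hw0) hNM hNV hadj hy hy' hT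
    hTM hTG hTc huT hui hTC
  refine ⟨u, ⟨hui, hur⟩, h1.symm.mono ?_⟩
  rintro v ⟨hv | hv, hvc⟩
  · refine ⟨Or.inl ?_, hvc⟩
    rw [← Di_diff (c := c) (by omega) (by omega) hB]
    exact ⟨(hV.sub hv).1, fun h2 => (hV.sub hv).2 (hSC h2)⟩
  · exact ⟨Or.inr hv, hvc⟩

end Lat

end SC

end

/-! ### from `Lib_MP_e0a489.IS6` -/

section

/-!
# MP_e0a489, inner separation 6: first step, the two components, the coarse cells

Step 1: nothing is landed (`B = ∅`), the closed clusters attached to `Outc true R` are explored.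
-/

set_option autoImplicit false

namespace SC

open Classical

/-- admissible cell: far from the corners, not the middle cell -/
def CellI (w m k : ℤ) : Prop := k ≠ 0 ∧ |k| * w + 100 * w ≤ m

namespace Lat

variable {L : Lat}

private theorem is6_adj {u v : Pt} (h : L.Adj u v) : nrm v ≤ nrm u + 1 := by
  have h1 := nrm_le_add v u
  have h2 := h.symm.near
  have h3 : nrm (v - u) ≤ 1 := max_le h2.1 h2.2
  omega

private theorem is6_nb {r : ℤ} {v : Pt} (h : v ∈ L.nb (bx r)) : nrm v ≤ r + 1 := by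
  obtain ⟨u, hu, huv⟩ := h
  have h1 := is6_adj huv
  have h2 : nrm u ≤ r := hu
  omega

private theorem is6_crn (s m : ℤ) (hm : 0 ≤ m) : nrm (rt s (m, m)) = m := by
  rw [nrm_rt]
  show max |m| |m| = m
  rw [max_self, abs_of_nonneg hm]

private theorem is6_dom {c : Bool} {r R : ℤ} (hr : 0 ≤ r) (hrR : r ≤ R) {v : Pt}
    (h : v ∈ ann r R ∪ Jc c R) : r < nrm v ∧ nrm v ≤ 2 * R := by
  rcases h with h | h
  · obtain ⟨h1, h2⟩ := h
    exact ⟨h1, by omega⟩
  · obtain ⟨h1, h2⟩ := Jc_sub_ann (by omega) h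
    exact ⟨by omega, h2⟩

private theorem is6_rect {R : ℤ} {v : Pt} (h : nrm v ≤ 2 * R) :
    v ∈ rect (-(2 * R)) (2 * R) (-(2 * R)) (2 * R) := by
  simp only [nrm, max_le_iff, abs_le] at h
  exact ⟨⟨h.1.1, h.1.2⟩, h.2.1, h.2.2⟩

private theorem is6_S (c : Bool) (R : ℤ) : Si c R ∅ = Outc c R := Set.union_empty _

private theorem is6_nbS {R : ℤ} (hR : 1 ≤ R) {s : ℤ} {v : Pt} (hv : v ∈ Je s R) (c : Bool) :
    v ∈ L.nb (Si c R ∅) := by
  obtain ⟨u, hu, huv⟩ := Je_nb (L := L) hR hv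
  exact ⟨u, by rw [is6_S]; exact rng_sub_Outc (by omega) hu, huv⟩

/-- connected explored set (`Cx_con`, `con_Outc`), exact domain (`exact_ann`, `rng_sub_Outc`) -/
theorem C1_con {r R : ℤ} {ω : Cfg} (hR : 1 ≤ R) :
    L.Con (L.Cx false (Di r R ∅) (Si true R ∅) ω) := by
  refine Cx_con ?_
  rw [is6_S]
  exact con_Outc hR

theorem C1_exact {r R : ℤ} {ω : Cfg} (hr : 0 ≤ r) (hrR : r ≤ R) :
    L.Exact (Di r R ∅) (L.Cx false (Di r R ∅) (Si true R ∅) ω) := by
  have h1 : Di r R ∅ = ann r (2 * R + 1) := Set.union_empty _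
  have h2 : rng (2 * R + 1) ⊆ L.Cx false (Di r R ∅) (Si true R ∅) ω := by
    refine Set.Subset.trans ?_ Cx_sup
    rw [is6_S]
    exact rng_sub_Outc (by omega)
  rw [h1] at h2 ⊢
  exact exact_ann hr (by omega) h2

/-- A closed arm of `Sout` starts in the explored set, at a site of the ring `r + 1` next to `bx r` (`arm_keep` with
`c = true`, `B = B' = ∅`). -/
theorem C1_inner {r R : ℤ} {ω : Cfg} (hr : 0 ≤ r) (hrR : r + 1 ≤ R) (h : L.Sout r R ω) :
    ∃ v ∈ L.Cx false (Di r R ∅) (Si true R ∅) ω, v ∈ bx r ∪ L.nb (bx r) := by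
  have h1 := (h false).1
  rw [← Set.union_empty (ann r R ∪ Jc false R)] at h1
  obtain ⟨x, hx, hx', -⟩ := arm_keep (c := true) (B := ∅) (B' := ∅) (η := ω) (G := ∅) hr
    (by omega) (by omega) (Or.inl rfl) (Set.Subset.refl _) h1
  exact ⟨x, hx', Or.inr hx⟩

/-- THE TWO COMPONENTS ARE DIFFERENT.  If one component `V` of the complement of the explored set contained ends in
`Je 0 R` and in `Je 2 R`, these ends would be joined by an open path in `ann r R ∪ Jc true R` (`step_ne`: `V` has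
connected boundary by `con_bd`, the ends have neighbours in the source by `Je_nb`, `Di_diff`).  The cluster of this path
and the set (closed arms of `Sout`) `∪ bx r` (connected: the arms start at neighbours of `bx r`) contradict
`cross` in `rect (-2R) (2R) (-2R) (2R)`: no common site (colours; `ann r R ∪ Jc true R` does not meet `bx r`); `Je_coord`. -/
theorem V_ne {r R : ℤ} {ω : Cfg} {V : Set Pt} {y y' : Pt} (hr : 0 ≤ r) (hrR : r + 1 ≤ R)
    (h : L.Sout r R ω)
    (hV : L.Comp (Di r R ∅ \ L.Cx false (Di r R ∅) (Si true R ∅) ω) V) (hy : y ∈ V)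
    (hy' : y' ∈ V) (h0 : y ∈ Je 0 R) (h2 : y' ∈ Je 2 R) : False := by
  have hR : 1 ≤ R := by omega
  have hB : L.Con (L.bd V (L.Cx false (Di r R ∅) (Si true R ∅) ω)) :=
    con_bd (C1_exact hr (by omega)) (C1_con hR) (Cx_sub (Si_sub (by omega))) hV
  have h3 : L.Cn ((Di r R ∅ \ Si true R ∅) ∩ L.col true ω) y y' :=
    step_ne (c := true) (Si_sub (by omega)) hV hB hy hy' (is6_nbS hR h0 true)
      (is6_nbS hR h2 true)
  rw [Di_diff (by omega) (by omega) (Set.empty_subset _)] at h3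
  obtain ⟨x₁, hx₁, y₁, hy₁, h4⟩ := (h false).1
  obtain ⟨x₃, hx₃, y₃, hy₃, h5⟩ := (h false).2
  have hd1 : dc false = 1 := rfl
  have hd3 : dc false + 2 = 3 := rfl
  rw [hd1] at hy₁
  rw [hd3] at hy₃
  have hP1 : L.Con {z | L.Cn ((ann r R ∪ Jc false R) ∩ L.col false ω) x₁ z} := con_cluster _ _
  have hP3 : L.Con {z | L.Cn ((ann r R ∪ Jc false R) ∩ L.col false ω) x₃ z} := con_cluster _ _
  obtain ⟨u₁, hu₁, hu₁'⟩ := hx₁
  obtain ⟨u₃, hu₃, hu₃'⟩ := hx₃
  have hQ1 : L.Con ({z | L.Cn ((ann r R ∪ Jc false R) ∩ L.col false ω) x₁ z} ∪ bx r) :=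
    hP1.union_adj (con_bx r) (Cn.refl h4.left) hu₁ hu₁'.symm
  have hQ3 : L.Con ({z | L.Cn ((ann r R ∪ Jc false R) ∩ L.col false ω) x₁ z} ∪ bx r ∪
      {z | L.Cn ((ann r R ∪ Jc false R) ∩ L.col false ω) x₃ z}) :=
    hQ1.union_adj hP3 (Or.inr hu₃) (Cn.refl h5.left) hu₃'
  have hbx : bx r ⊆ rect (-(2 * R)) (2 * R) (-(2 * R)) (2 * R) := fun v hv =>
    is6_rect (le_trans (show nrm v ≤ r from hv) (by omega))
  obtain ⟨z, hz, hz'⟩ := cross (L := L) (a := -(2 * R)) (b := 2 * R) (c := -(2 * R)) (d := 2 * R)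
    (P := {z | L.Cn ((ann r R ∪ Jc true R) ∩ L.col true ω) y z})
    (con_cluster _ _) hQ3
    (fun v hv => is6_rect (is6_dom hr (by omega) hv.right.1).2)
    (by
      rintro v ((hv | hv) | hv)
      · exact is6_rect (is6_dom hr (by omega) hv.right.1).2
      · exact hbx hv
      · exact is6_rect (is6_dom hr (by omega) hv.right.1).2)
    ⟨y', h3, Je_coord.2.2.1 h2⟩ ⟨y, Cn.refl h3.left, Je_coord.1 h0⟩
    ⟨y₃, Or.inr h5, Je_coord.2.2.2 hy₃⟩ ⟨y₁, Or.inl (Or.inl h4), Je_coord.2.1 hy₁⟩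
  have hz1 : L.Cn ((ann r R ∪ Jc true R) ∩ L.col true ω) y z := hz
  have e1 : L.st ω z = true := hz1.right.2
  rcases hz' with (hz' | hz') | hz'
  · have e2 : L.st ω z = false := (Cn.right hz').2
    rw [e1] at e2
    exact Bool.noConfusion e2
  · have e3 := (is6_dom hr (by omega) hz1.right.1).1
    exact absurd (show nrm z ≤ r from hz') (not_le.2 e3)
  · have e2 : L.st ω z = false := (Cn.right hz').2
    rw [e1] at e2
    exact Bool.noConfusion e2

/-- THE COARSE CELL of an open arm.  `m = r + 1`; `r = M w + w/2`, `M = 2 K B`.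
Proof.  The arm goes from `x ∈ nb (bx r)` to `y ∈ Je d R`, `x` is on the ring `m` (its norm is at most `r + 1`, and `x` is in
`ann r R ∪ Jc true R`), `x = rc m z` (`rc_surj`).  `y` is not explored (it is open and not in the source; `Cx_col`), let `V` be
its component (`comp_cluster`); `x ∈ V` (`comp_path`).  `good_pos` with `o = true`, `c = true`, `D = Di r R ∅`,
`E = ann r R ∪ Jc true R`, `D' = ann r (2r)`, `ρ = 4 B w`, `ℓ = K B w`, `β = B w`: `hED`: a site at distance `≤ ℓ` from a corner has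
norm `≤ r + 1 + K B w ≤ 2 r < R`; the far site is `y`, of norm `2R ≥ 16 r`; `hC`: `attached` (with `c = true`) and
`nb_Outc_nrm` give a path to a site of norm `≥ R ≥ 8 r`, distance `≥ R - (r+1) ≥ 3β` (`nrm_le_add`).  The cell satisfies
`|k w - y₀| ≤ 6 w`, `|y₀| + 4 B w < m`, `B ≥ 48`, so `|k| w + 100 w ≤ m`. -/
theorem cell1 {w M K B r R d : ℤ} {ω : Cfg} (hw : w % 2 = 1) (hw5 : 5 ≤ w) (hK : 4 ≤ K)
    (hB : 48 ≤ B) (hM : M = 2 * K * B) (hr : r = M * w + w / 2) (hR : 8 * r ≤ R)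
    (hd : d = 0 ∨ d = 2)
    (hbad : ¬ L.BadW true (ann r (2 * r)) (r + 1) (4 * B * w) (K * B * w) (B * w) (12 * w) ω)
    (h : L.Arm true (ann r R ∪ Jc true R) (L.nb (bx r)) (Je d R) ω) :
    ∃ y ∈ Je d R, ∃ V, L.Comp (Di r R ∅ \ L.Cx false (Di r R ∅) (Si true R ∅) ω) V ∧ y ∈ V ∧
      ∃ s k, CellI w (r + 1) k ∧ trip w (r + 1) s k ⊆ V := by
  have hw0 : 0 < w := by omega
  have hBw : 48 * w ≤ B * w := mul_le_mul_of_nonneg_right hB hw0.le
  have hKB : 4 * (B * w) ≤ K * (B * w) := mul_le_mul_of_nonneg_right hK (by omega)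
  have eK : K * B * w = K * (B * w) := by ring
  have e4 : 4 * B * w = 4 * (B * w) := by ring
  have eM : M * w = 2 * (K * (B * w)) := by rw [hM]; ring
  have hw2 : 0 ≤ w / 2 := by omega
  have hr0 : 0 ≤ r := by omega
  have hR1 : 1 ≤ R := by omega
  have hrR : r + 1 ≤ R := by omega
  obtain ⟨x, hx, y, hy, hxy⟩ := h
  have hxn : nrm x = r + 1 := by
    have h1 := is6_nb hx
    have h2 := (is6_dom hr0 (by omega) hxy.left.1).1
    omega
  obtain ⟨z, -, -, hz⟩ := rc_surj (m := r + 1) (by omega) hxn 0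
  have hyn : nrm y = 2 * R := Je_nrm hR1 hy
  have hdd : d = dc true ∨ d = dc true + 2 := by
    rcases hd with rfl | rfl
    · exact Or.inl rfl
    · exact Or.inr rfl
  have hyJ : y ∈ Jc true R := Je_sub_Jc hR1 hdd hy
  have hyC : y ∉ L.Cx false (Di r R ∅) (Si true R ∅) ω := by
    intro hc
    have h1 : y ∉ Si true R ∅ := by
      rw [is6_S]
      exact fun h2 => h2.2 (Or.inr hyJ)
    have e2 : L.st ω y = false := (Cx_col hc h1).2
    have e1 : L.st ω y = true := hxy.right.2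
    rw [e1] at e2
    exact Bool.noConfusion e2
  have hyD : y ∈ Di r R ∅ := Or.inl ⟨by omega, by omega⟩
  have hV : L.Comp (Di r R ∅ \ L.Cx false (Di r R ∅) (Si true R ∅) ω)
      {v | L.Cn (Di r R ∅ \ L.Cx false (Di r R ∅) (Si true R ∅) ω) y v} :=
    comp_cluster ⟨hyD, hyC⟩
  have hyV : y ∈ {v | L.Cn (Di r R ∅ \ L.Cx false (Di r R ∅) (Si true R ∅) ω) y v} :=
    Cn.refl ⟨hyD, hyC⟩
  have hxV : x ∈ {v | L.Cn (Di r R ∅ \ L.Cx false (Di r R ∅) (Si true R ∅) ω) y v} := by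
    refine comp_path (c := true) hV ?_ hyV
    rw [Di_diff (by omega) (by omega) (Set.empty_subset _)]
    exact hxy
  rw [← hz] at hxV hxy
  obtain ⟨s, k, y₀, g1, g2, g3, g4, g5, g6⟩ := good_pos (o := true) (c := true) (m := r + 1)
    (w := w) (ρ := 4 * B * w) (ℓ := K * B * w) (β := B * w) (z := z) (D := Di r R ∅)
    (D' := ann r (2 * r)) (E := ann r R ∪ Jc true R)
    (C := L.Cx false (Di r R ∅) (Si true R ∅) ω) (ω := ω) (v := y) hw hw0 (by omega) hBw
    (by omega) (by omega) (by omega) hbad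
    (by
      intro v hv
      have h1 := (is6_dom hr0 (by omega) hv).1
      show r + 1 ≤ nrm v
      omega)
    (by
      intro s v hv h1
      have h2 := (is6_dom hr0 (by omega) hv).1
      have h3 := nrm_le_add v (rt s (r + 1, r + 1))
      rw [is6_crn s (r + 1) (by omega)] at h3
      exact ⟨h2, by omega⟩)
    (by
      intro v hv
      have h1 : nrm v = r + 1 := hv
      exact Or.inl ⟨by omega, by omega⟩)
    hV hxV hxy
    (by
      have h3 := nrm_le_add y (rc (r + 1) z)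
      rw [hyn, rc_nrm (by omega)] at h3
      omega)
    (by
      intro s
      have h3 := nrm_le_add y (rt s (r + 1, r + 1))
      rw [hyn, is6_crn s (r + 1) (by omega)] at h3
      omega)
    (by
      intro i _ hi
      obtain ⟨v, hv, hv'⟩ := attached (c := true) (B := ∅) hr0 hrR (Set.empty_subset _)
        (rc_nrm (by omega)) hi
      refine ⟨v, hv', ?_⟩
      rw [is6_S] at hv
      have h1 := nb_Outc_nrm hv
      have h3 := nrm_le_add v (rc (r + 1) z)
      rw [rc_nrm (by omega)] at h3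
      omega)
  refine ⟨y, hy, _, hV, hyV, s, k, ⟨g3, ?_⟩, g6⟩
  have e5 : (k - 1) * w = k * w - w := by ring
  have e6 : (k + 1) * w = k * w + w := by ring
  have e7 : |k| * w = |k * w| := by rw [abs_mul, abs_of_pos hw0]
  rw [e7]
  rcases abs_cases (k * w) with ⟨c1, _⟩ | ⟨c1, _⟩ <;> rcases abs_cases y₀ with ⟨c2, _⟩ | ⟨c2, _⟩ <;>
    omega

/-- THE START OF A CLOSED ARM is far from the corners: it is `rc m (2 m s + y)` with `|y| + 100 w ≤ m`; it is explored, and
the arm survives (`arm_keep`).  Proof: `rc_surj`, `idx_side`, `crn_of` (`ρ = 4 B w ≥ 192 w`). -/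
theorem start1 {w M K B r R d : ℤ} {ω : Cfg} (hw : w % 2 = 1) (hw5 : 5 ≤ w) (hK : 4 ≤ K)
    (hB : 48 ≤ B) (hM : M = 2 * K * B) (hr : r = M * w + w / 2) (hR : 8 * r ≤ R)
    (hd : d = 1 ∨ d = 3)
    (hbad : ¬ L.BadW true (ann r (2 * r)) (r + 1) (4 * B * w) (K * B * w) (B * w) (12 * w) ω)
    (h : L.Arm false (ann r R ∪ Jc false R) (L.nb (bx r)) (Je d R) ω) :
    ∃ s y, |y| + 100 * w ≤ r + 1 ∧ rc (r + 1) (2 * (r + 1) * s + y) ∈ L.nb (bx r) ∧
      rc (r + 1) (2 * (r + 1) * s + y) ∈ L.Cx false (Di r R ∅) (Si true R ∅) ω ∧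
      ∀ (G : Finset Pt) (η : Cfg), L.Arm false (ann r R ∪ Jc false R)
        {rc (r + 1) (2 * (r + 1) * s + y)} (Je d R)
        (mix G (L.Rev false (Di r R ∅) (Si true R ∅)) ω η) := by
  have hw0 : 0 < w := by omega
  have hBw : 48 * w ≤ B * w := mul_le_mul_of_nonneg_right hB hw0.le
  have hKB : 4 * (B * w) ≤ K * (B * w) := mul_le_mul_of_nonneg_right hK (by omega)
  have eK : K * B * w = K * (B * w) := by ring
  have e4 : 4 * B * w = 4 * (B * w) := by ring
  have eM : M * w = 2 * (K * (B * w)) := by rw [hM]; ring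
  have hw2 : 0 ≤ w / 2 := by omega
  have hr0 : 0 ≤ r := by omega
  have hR1 : 1 ≤ R := by omega
  have hrR : r + 1 ≤ R := by omega
  obtain ⟨x, hx, y, hy, hxy⟩ := h
  have hxn : nrm x = r + 1 := by
    have h1 := is6_nb hx
    have h2 := (is6_dom hr0 (by omega) hxy.left.1).1
    omega
  obtain ⟨i, -, -, hi⟩ := rc_surj (m := r + 1) (by omega) hxn 0
  obtain ⟨s, y₀, hy₀, hiy⟩ := idx_side (m := r + 1) (by omega) i
  have hyn : nrm y = 2 * R := Je_nrm hR1 hy
  rw [hiy] at hi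
  have hdd : d = dc (!true) ∨ d = dc (!true) + 2 := by
    rcases hd with rfl | rfl
    · exact Or.inl rfl
    · exact Or.inr rfl
  have key : ∀ (G : Finset Pt) (η : Cfg), x ∈ L.Cx false (Di r R ∅) (Si true R ∅) ω ∧
      L.Arm false (ann r R ∪ Jc false R) {x} (Je d R)
        (mix G (L.Rev false (Di r R ∅) (Si true R ∅)) ω η) := by
    intro G η
    have h1 : L.Arm (!true) (ann r R ∪ Jc (!true) R ∪ ∅) {x} (Je d R) ω := by
      rw [Set.union_empty]
      exact ⟨x, rfl, y, hy, hxy⟩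
    obtain ⟨x', hx', h2, y', hy', -, h3⟩ := arm_keep (c := true) (B := ∅) (B' := ∅) (η := η)
      (G := G) hr0 hR1 (by omega) hdd (Set.Subset.refl _) h1
    rw [Set.union_empty] at h3
    have e : x' = x := hx'
    subst e
    exact ⟨h2, x', rfl, y', hy', h3⟩
  rw [← hi] at hxy hx key
  refine ⟨s, y₀, ?_, hx, (key ∅ ω).1, fun G η => (key G η).2⟩
  by_contra hcon
  apply hbad
  refine crn_of (o := true) (b := false) (m := r + 1) (s := s) (y := y₀) (ρ := 4 * B * w)
    (ℓ := K * B * w) (D := ann r R ∪ Jc false R) (v := y) (by omega) (by omega) hy₀ (by omega)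
    hxy ?_ ?_
  · intro s v hv h1
    have h2 := (is6_dom hr0 (by omega) hv).1
    have h3 := nrm_le_add v (rt s (r + 1, r + 1))
    rw [is6_crn s (r + 1) (by omega)] at h3
    exact ⟨h2, by omega⟩
  · intro s
    have h3 := nrm_le_add y (rt s (r + 1, r + 1))
    rw [hyn, is6_crn s (r + 1) (by omega)] at h3
    omega

end Lat

end SC

end

/-! ### from `Lib_MP_e0a489.FT2` -/

section

/-!
# MP_e0a489, foot lemma 2: the first passage sets fill the half box
-/

set_option autoImplicit false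

namespace SC

open Classical

namespace Lat

variable {L : Lat} {β : ℤ} {ω : Cfg}

private theorem ft2_con (hβ : 0 ≤ β) : L.Con (A0 β ∪ Hb β) := by
  refine Con.union_adj (u := (-β, -1)) (v := (-β, 0)) (con_rect _ _ _ _) (con_rect _ _ _ _)
    ?_ ?_ ?_
  · refine ⟨⟨?_, ?_⟩, ?_, ?_⟩
    · show -(2 * β) ≤ -β
      linarith
    · show -β ≤ -β
      exact le_refl _
    · show (-1 : ℤ) ≤ -1
      exact le_refl _
    · show (-1 : ℤ) ≤ -1
      exact le_refl _
  · refine ⟨⟨?_, ?_⟩, ?_, ?_⟩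
    · show -(2 * β) ≤ -β
      linarith
    · show -β ≤ 2 * β
      linarith
    · show (0 : ℤ) ≤ 0
      exact le_refl _
    · show (0 : ℤ) ≤ 2 * β
      linarith
  · have h := adj_up (L := L) (-β, -1)
    simpa using h

private theorem ft2_mem (hβ : 0 ≤ β) : ((-β, -1) : Pt) ∈ A0 β := by
  refine ⟨⟨?_, ?_⟩, ?_, ?_⟩
  · show -(2 * β) ≤ -β
    linarith
  · show -β ≤ -β
    exact le_refl _
  · show (-1 : ℤ) ≤ -1
    exact le_refl _
  · show (-1 : ℤ) ≤ -1
    exact le_refl _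

private theorem ft2_cc (i : ℕ) (q : Pt) : q ∈ L.col (cc i) ω ∨ q ∈ L.col (cc (i + 1)) ω := by
  rw [cc_succ]
  show L.st ω q = cc i ∨ L.st ω q = !cc i
  cases L.st ω q <;> cases cc i <;> simp

/-- If `fs i` is not everything, a new site is added in two steps.
Proof.  `Hb β ∪ A0 β` is connected: `Con.union_many` or `Con.union_adj` with `con_rect` for `Hb β` and `A0 β` and the edge from `(-β, -1)` to
`(-β, 0)` (`adj_up`).  Path in `Hb β ∪ A0 β` from `(-β, -1) ∈ A0 β ⊆ fs i` (`A0_sub`) to a site `w ∈ Hb β`, `w ∉ fs i`; first exit (`Cn.exit`)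
from `S = fs i`: `Adj p q`, `p ∈ fs i`, `q ∉ fs i`, `q ∈ Hb β ∪ A0 β`, so `q ∈ Hb β` and `q ∈ L.nb (fs i)`.  The colour `L.st ω q` of `q` is `cc i` or
`cc (i+1)` (`cc_succ`).  If it is `cc i`, then `{q} ⊆ fs (i+1)` by `fs_absorb` (`con_singleton`), and `fs (i+1) ⊆ fs (i+2)` (`fs_le`).  If it is
`cc (i+1)`: either `q ∈ fs (i+1) ⊆ fs (i+2)` or `q ∉ fs (i+1)`, and then `q ∈ L.nb (fs (i+1))` (monotone in the set) and `fs_absorb` with
`i+1` gives `q ∈ fs (i+2)`. -/
theorem fs_two (hβ : 0 ≤ β) {i : ℕ} (h : ¬ Hb β ⊆ L.fs β ω i) :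
    ∃ q ∈ Hb β, q ∉ L.fs β ω i ∧ q ∈ L.fs β ω (i + 2) := by
  obtain ⟨w, hw, hwf⟩ := Set.not_subset.1 h
  obtain ⟨p, q, h1, h2, h3, h4⟩ := (ft2_con (L := L) hβ (-β, -1) (Or.inl (ft2_mem hβ)) w
    (Or.inr hw)).exit (S := L.fs β ω i) (A0_sub i (ft2_mem hβ)) hwf
  have hp : p ∈ L.fs β ω i := h1.right.2
  have hq : q ∈ Hb β := h3.resolve_left (fun h0 => h4 (A0_sub i h0))
  refine ⟨q, hq, h4, ?_⟩
  by_cases h5 : q ∈ L.fs β ω (i + 1)
  · exact fs_le (Nat.le_succ (i + 1)) h5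
  · rcases ft2_cc (L := L) (ω := ω) i q with hc | hc
    · refine absurd ?_ h5
      refine fs_absorb (P := {q}) (con_singleton q) ?_ ?_ ?_ ?_ (Set.mem_singleton q)
      · rintro v rfl
        exact hq
      · rintro v rfl
        exact hc
      · rintro v rfl
        exact h4
      · exact ⟨q, Set.mem_singleton q, Or.inr ⟨p, hp, h2⟩⟩
    · refine fs_absorb (i := i + 1) (P := {q}) (con_singleton q) ?_ ?_ ?_ ?_
        (Set.mem_singleton q)
      · rintro v rfl
        exact hq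
      · rintro v rfl
        exact hc
      · rintro v rfl
        exact h5
      · exact ⟨q, Set.mem_singleton q, Or.inr ⟨p, fs_le (Nat.le_succ i) hp, h2⟩⟩

/-- Proof.  By induction on `k`: `Hb β ⊆ fs (2k)` or `k ≤ ((HbF β).filter (· ∈ fs (2k))).card`.  Step: if `Hb β ⊆ fs (2k)` use `fs_le`; otherwise
`fs_two` gives a new site in `fs (2k+2)`, so the filter for `2(k+1)` strictly contains the one for `2k` (`fs_le`, `Finset.card_lt_card`).
For `k = (HbF β).card` the second alternative says that the filter is everything (`Finset.eq_of_subset_of_card_le`), i.e.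
`Hb β ⊆ fs (2k)` as well (`coe_HbF`). -/
theorem fs_fill (hβ : 0 ≤ β) : Hb β ⊆ L.fs β ω (2 * (HbF β).card) := by
  have hmem : ∀ v, v ∈ HbF β ↔ v ∈ Hb β := by
    intro v
    rw [← coe_HbF β, Finset.mem_coe]
  have key : ∀ k : ℕ, Hb β ⊆ L.fs β ω (2 * k) ∨
      k ≤ ((HbF β).filter (fun v => v ∈ L.fs β ω (2 * k))).card := by
    intro k
    induction k with
    | zero => exact Or.inr (Nat.zero_le _)
    | succ k ih =>
      by_cases hk : Hb β ⊆ L.fs β ω (2 * k)
      · exact Or.inl (hk.trans (fs_le (by omega)))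
      · refine Or.inr ?_
        have h1 := ih.resolve_left hk
        obtain ⟨q, hq, hq1, hq2⟩ := fs_two hβ hk
        have h2 : ((HbF β).filter (fun v => v ∈ L.fs β ω (2 * k))).card <
            ((HbF β).filter (fun v => v ∈ L.fs β ω (2 * (k + 1)))).card := by
          refine Finset.card_lt_card ?_
          rw [Finset.ssubset_iff_of_subset]
          · refine ⟨q, ?_, ?_⟩
            · rw [Finset.mem_filter]
              exact ⟨(hmem q).2 hq, hq2⟩
            · rw [Finset.mem_filter]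
              exact fun h0 => hq1 h0.2
          · intro v hv
            rw [Finset.mem_filter] at hv ⊢
            exact ⟨hv.1, fs_le (by omega) hv.2⟩
        omega
  rcases key (HbF β).card with h | h
  · exact h
  · have h1 : (HbF β).filter (fun v => v ∈ L.fs β ω (2 * (HbF β).card)) = HbF β :=
      Finset.eq_of_subset_of_card_le (Finset.filter_subset _ _) h
    intro v hv
    have h2 : v ∈ (HbF β).filter (fun v => v ∈ L.fs β ω (2 * (HbF β).card)) := by
      rw [h1]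
      exact (hmem v).2 hv
    exact (Finset.mem_filter.1 h2).2

end Lat

end SC

end

/-! ### from `Lib_MP_e0a489.FT3` -/

section

/-!
# MP_e0a489, foot lemma 3: first passage index of a foot; an alternate triple gives a bad index
-/

set_option autoImplicit false

namespace SC

open Classical

namespace Lat

variable {L : Lat} {β : ℤ} {ω : Cfg}

/-- Let `(x, 0)`, `-β < x < β`, have an arm of colour `c` in the half box to one of its three other sides.  Let `i` be the last index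
such that no site `(x', 0)` with `x' ≥ x` is in `fs i`.  Then `cc i = c`.
Proof.  `n = 2 * (HbF β).card`.  `(x, 0) ∈ Hb β ⊆ fs n` (`fs_fill`), and `fs 0 = A0 β` contains no site `(x', 0)`.  With `Nat.find` let `j` be the
least index with `∃ x' ≥ x, (x', 0) ∈ fs j`; `1 ≤ j ≤ n`, `j = i + 1`.  Let `x'` be such a site for `j`.
Let `y` be the end of the arm (`y ∈ hbo β`) and `P = {v | L.Cn (Hb β ∩ L.col c ω) (x, 0) v}`: connected (`con_cluster`), `P ⊆ Hb β ∩ L.col c ω`
(`Cn.right`), `(x, 0) ∈ P`, `y ∈ P`.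
CLAIM: `fs (i+1)` meets `P`.  Apply `arch` in `rect (-(2β)) (2β) (-1) (2β)` to `P₁ = fs (i+1) ∪ {(x', -1)}` (connected: `fs_con`, `Con.union_adj`, `adj_up`;
inside the rectangle: `fs_sub`; it contains `(-β, -1)` by `A0_sub`) and `P₂ = P ∪ {(x, -1)}` (connected in the same way), with the points
`-β ≤ x ≤ x'` of the bottom row; `m4`: the site `y`.  A common site: if `x = x'`, then `(x, 0)` is in `fs (i+1)` and in `P`.  Otherwise
it is not `(x', -1)` (`P₂` has only the site `(x, -1)` with second coordinate `-1`) and not `(x, -1)` (`x ≠ x'`, and `fs (i+1)` contains only sites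
of `Hb β` and `A0 β`, where `A0 β` has first coordinates `≤ -β < x`).  So it is in `fs (i+1)` and in `P`.
Let `k + 1` be the least index such that `fs (k+1)` meets `P` (`Nat.find`; `fs 0 = A0 β` does not meet `P ⊆ Hb β`); `k ≤ i`.  A common site `v` of
`fs (k+1)` and `P` is not in `fs k`, so it has colour `cc k` (`fs_new`) and colour `c`: `cc k = c` (`col_unique`).  By `fs_absorb` (`P` is
disjoint from `fs k`) `P ⊆ fs (k+1)`, so `(x, 0) ∈ fs (k+1)`, so `i + 1 ≤ k + 1` by minimality of `j`.  Hence `k = i`. -/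
theorem first_idx {c : Bool} {x : ℤ} (h1 : -β < x) (h2 : x < β)
    (h : L.Arm c (Hb β) {(x, 0)} (hbo β) ω) :
    ∃ i, i < 2 * (HbF β).card ∧ cc i = c ∧ (∃ x', x ≤ x' ∧ (x', 0) ∈ L.fs β ω (i + 1)) ∧
      ∀ x', x ≤ x' → (x', 0) ∉ L.fs β ω i := by
  obtain ⟨x₀, hx₀, y, hy, hcn⟩ := h
  rw [Set.mem_singleton_iff] at hx₀
  subst hx₀
  have hβ : 0 ≤ β := by omega
  have hxH : ((x, 0) : Pt) ∈ Hb β := ⟨⟨by simp only; omega, by simp only; omega⟩, le_refl _,
    by simp only; omega⟩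
  have hQn : ∃ j, ∃ x', x ≤ x' ∧ (x', 0) ∈ L.fs β ω j :=
    ⟨2 * (HbF β).card, x, le_refl _, fs_fill hβ hxH⟩
  have hQ0 : ¬ ∃ x', x ≤ x' ∧ (x', 0) ∈ L.fs β ω 0 := by
    rintro ⟨x', _, h3⟩
    have h4 : (0 : ℤ) ≤ -1 := h3.2.2
    omega
  have hle : Nat.find hQn ≤ 2 * (HbF β).card := Nat.find_le ⟨x, le_refl _, fs_fill hβ hxH⟩
  have hne : Nat.find hQn ≠ 0 := by
    intro h0
    have h3 := Nat.find_spec hQn
    rw [h0] at h3
    exact hQ0 h3
  obtain ⟨i, hi⟩ := Nat.exists_eq_succ_of_ne_zero hne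
  have hspec := Nat.find_spec hQn
  have hmin := fun m (hm : m < Nat.find hQn) => Nat.find_min hQn hm
  rw [hi] at hspec hmin hle
  refine ⟨i, by omega, ?_, hspec, fun x' hx' hm => hmin i (Nat.lt_succ_self i) ⟨x', hx', hm⟩⟩
  -- the cluster
  have hPc : L.Con {v | L.Cn (Hb β ∩ L.col c ω) (x, 0) v} := con_cluster _ _
  have hPs : ∀ v ∈ {v | L.Cn (Hb β ∩ L.col c ω) (x, 0) v}, v ∈ Hb β ∧ v ∈ L.col c ω :=
    fun v hv => Cn.right hv
  have hxP : ((x, 0) : Pt) ∈ {v | L.Cn (Hb β ∩ L.col c ω) (x, 0) v} := Cn.refl (Cn.left hcn)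
  have hyP : y ∈ {v | L.Cn (Hb β ∩ L.col c ω) (x, 0) v} := hcn
  generalize {v | L.Cn (Hb β ∩ L.col c ω) (x, 0) v} = P at hPc hPs hxP hyP
  have hfr : ∀ m, L.fs β ω m ⊆ rect (-(2 * β)) (2 * β) (-1) (2 * β) := by
    intro m v hv
    rcases fs_sub m hv with ⟨⟨u1, u2⟩, u3, u4⟩ | ⟨⟨u1, u2⟩, u3, u4⟩
    · exact ⟨⟨u1, u2⟩, by omega, u4⟩
    · exact ⟨⟨u1, by omega⟩, u3, by omega⟩
  have claim : (L.fs β ω (i + 1) ∩ P).Nonempty := by
    obtain ⟨x', hx', hm⟩ := hspec
    by_cases hxx : x = x'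
    · subst hxx
      exact ⟨_, hm, hxP⟩
    have hm' : ((x', 0) : Pt) ∈ L.fs β ω (i + 1) := hm
    obtain ⟨⟨r1, r2⟩, r3, r4⟩ := hfr _ hm'
    simp only at r1 r2 r3 r4
    have c1 : L.Con (L.fs β ω (i + 1) ∪ {(x', -1)}) := by
      refine (fs_con _).union_adj (con_singleton _) hm' (Set.mem_singleton _) ?_
      have := (adj_up (L := L) (x', -1)).symm
      simpa using this
    have c2 : L.Con (P ∪ {(x, -1)}) := by
      refine hPc.union_adj (con_singleton _) hxP (Set.mem_singleton _) ?_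
      have := (adj_up (L := L) (x, -1)).symm
      simpa using this
    obtain ⟨z, hz1, hz2⟩ := arch (a := -(2 * β)) (b := 2 * β) (c := -1) (d := 2 * β)
      (P := L.fs β ω (i + 1) ∪ {(x', -1)}) (P' := P ∪ {(x, -1)}) (x1 := -β) (x2 := x) (x3 := x')
      (by omega) (by omega) c1 c2
      (by
        rintro v (hv | hv)
        · exact hfr _ hv
        · rw [Set.mem_singleton_iff] at hv
          subst hv
          exact ⟨⟨r1, r2⟩, le_refl _, by simp only; omega⟩)
      (by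
        rintro v (hv | hv)
        · obtain ⟨⟨⟨u1, u2⟩, u3, u4⟩, _⟩ := hPs v hv
          exact ⟨⟨u1, u2⟩, by omega, u4⟩
        · rw [Set.mem_singleton_iff] at hv
          subst hv
          exact ⟨⟨by simp only; omega, by simp only; omega⟩, le_refl _, by simp only; omega⟩)
      (by omega) hx'
      (Or.inl (A0_sub _ ⟨⟨by simp only; omega, le_refl _⟩, le_refl _, le_refl _⟩))
      (Or.inr (Set.mem_singleton _)) (Or.inr (Set.mem_singleton _)) ⟨y, Or.inl hyP, hy.2⟩
    rcases hz1 with hz1 | hz1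
    · rcases hz2 with hz2 | hz2
      · exact ⟨z, hz1, hz2⟩
      · exfalso
        rw [Set.mem_singleton_iff] at hz2
        subst hz2
        rcases fs_sub _ hz1 with ⟨_, u3, _⟩ | ⟨⟨_, u2⟩, _⟩
        · simp only at u3
          omega
        · simp only at u2
          omega
    · exfalso
      rw [Set.mem_singleton_iff] at hz1
      subst hz1
      rcases hz2 with hz2 | hz2
      · obtain ⟨⟨_, u3, _⟩, _⟩ := hPs _ hz2
        simp only at u3
        omega
      · rw [Set.mem_singleton_iff] at hz2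
        exact hxx (congrArg Prod.fst hz2).symm
  have hK : ∃ m, (L.fs β ω m ∩ P).Nonempty := ⟨i + 1, claim⟩
  have hKne : Nat.find hK ≠ 0 := by
    intro h0
    have h3 := Nat.find_spec hK
    rw [h0] at h3
    obtain ⟨z, hz1, hz2⟩ := h3
    exact A0_disj (hPs z hz2).1 hz1
  obtain ⟨k, hk⟩ := Nat.exists_eq_succ_of_ne_zero hKne
  have kspec := Nat.find_spec hK
  have kmin := fun m (hm : m < Nat.find hK) => Nat.find_min hK hm
  have kle : Nat.find hK ≤ i + 1 := Nat.find_le claim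
  rw [hk] at kspec kmin kle
  obtain ⟨v, hv1, hv2⟩ := kspec
  have hdis : ∀ v ∈ P, v ∉ L.fs β ω k := fun v hv hf => kmin k (Nat.lt_succ_self k) ⟨v, hf, hv⟩
  have hck : cc k = c := col_unique (fs_new hv1 (hdis v hv2)).2 (hPs v hv2).2
  have habs : P ⊆ L.fs β ω (k + 1) := by
    refine fs_absorb hPc (fun v hv => (hPs v hv).1) (fun v hv => ?_) hdis ⟨v, hv2, Or.inl hv1⟩
    rw [hck]
    exact (hPs v hv).2
  have hki : ¬ k + 1 < i + 1 := fun hlt => hmin (k + 1) hlt ⟨x, le_refl _, habs hxP⟩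
  have : k = i := by omega
  rw [← this]
  exact hck

/-- Proof.  Let `c`, `x₁ < x₂ < x₃` be the alternate triple (note that `Hb β` is the rectangle of `Alt3`, by definition) and `i₁`, `i₂`, `i₃` the
indices of `first_idx`; `cc i₁ = c`, `cc i₂ = !c`, `cc i₃ = c`.  `i₁ ≤ i₂`: otherwise `i₂ + 1 ≤ i₁`, the site `(x', 0) ∈ fs (i₂+1) ⊆ fs i₁` (`fs_le`) has
`x' ≥ x₂ ≥ x₁`, a contradiction.  Similarly `i₂ ≤ i₃`.  The colours differ, so `i₁ < i₂ < i₃`.  Then `Bad i₂`: the set of the `z` with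
`(z, 0) ∈ fs i₂` is bounded (`fs_sub`: `z ≤ 2β`), and there is one with `z ≥ x₁` (`i₁ + 1 ≤ i₂`), so there is a largest `x` (for instance
`Int.exists_greatest_of_bdd`); `x₁ ≤ x < x₂` because no `(x', 0)`, `x' ≥ x₂`, is in `fs i₂`.  And `fs (i₂+1) ⊆ fs i₃` has no site `(x', 0)` with `x' ≥ x₃`, in
particular none with `x' ≥ x + a ≥ x₁ + a ≥ x₃`. -/
theorem alt_bad {a : ℤ} (h : L.Alt3 β a ω) :
    ∃ i ∈ Finset.range (2 * (HbF β).card), L.Bad β a i ω := by
  obtain ⟨c, x₁, x₂, x₃, h1, h12, h23, h3, ha, a1, a2, a3⟩ := h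
  obtain ⟨i₁, hi₁, c₁, ⟨y₁, hy₁, m₁⟩, n₁⟩ := first_idx (L := L) (ω := ω) h1 (by omega) a1
  obtain ⟨i₂, hi₂, c₂, ⟨y₂, hy₂, m₂⟩, n₂⟩ :=
    first_idx (L := L) (ω := ω) (x := x₂) (by omega) (by omega) a2
  obtain ⟨i₃, hi₃, c₃, ⟨y₃, hy₃, m₃⟩, n₃⟩ :=
    first_idx (L := L) (ω := ω) (x := x₃) (by omega) h3 a3
  have e12 : i₁ ≤ i₂ := by
    by_contra hc
    exact n₁ y₂ (by omega) (fs_le (show i₂ + 1 ≤ i₁ by omega) m₂)
  have e23 : i₂ ≤ i₃ := by
    by_contra hc
    exact n₂ y₃ (by omega) (fs_le (show i₃ + 1 ≤ i₂ by omega) m₃)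
  have ne12 : i₁ ≠ i₂ := by
    intro he
    rw [he, c₂] at c₁
    cases c <;> simp at c₁
  have ne23 : i₂ ≠ i₃ := by
    intro he
    rw [he, c₃] at c₂
    cases c <;> simp at c₂
  obtain ⟨x, hx, hmax⟩ := Int.exists_greatest_of_bdd (P := fun z => ((z, 0) : Pt) ∈ L.fs β ω i₂)
    ⟨2 * β, fun z hz => by
      rcases fs_sub _ hz with ⟨⟨_, u2⟩, _⟩ | ⟨_, _, u4⟩
      · exact u2
      · simp only at u4
        omega⟩
    ⟨y₁, fs_le (show i₁ + 1 ≤ i₂ by omega) m₁⟩
  have k1 : y₁ ≤ x := hmax y₁ (fs_le (show i₁ + 1 ≤ i₂ by omega) m₁)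
  have k2 : x < x₂ := by
    by_contra hc
    exact n₂ x (by omega) hx
  refine ⟨i₂, Finset.mem_range.mpr hi₂, x, by omega, by omega, hx, ?_, ?_⟩
  · intro x' hx' hm
    have := hmax x' hm
    omega
  · intro x' hx' hm
    exact n₃ x' (by omega) (fs_le (show i₂ + 1 ≤ i₃ by omega) hm)

end Lat

end SC

end

/-! ### from `Lib_MP_e0a489.TD4` -/

section

/-!
# MP_e0a489, topology 6d: one arm bound
-/

set_option autoImplicit false

namespace SC

open Classical

/-- no circuit of colour `b` in the annuli number `j < J` -/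
private def td4_ev (L : Lat) (b : Bool) (m : ℤ) (J : ℕ) (ω : Cfg) : Prop :=
  ∀ j < J, ¬ L.Circ b (4 ^ j * m) (2 * (4 ^ j * m)) ω

private theorem td4_ev_zero (L : Lat) (b : Bool) (m : ℤ) :
    td4_ev L b m 0 = fun _ => True := by
  funext ω
  exact propext ⟨fun _ => trivial, fun _ j hj => absurd hj (Nat.not_lt_zero j)⟩

private theorem td4_ev_succ (L : Lat) (b : Bool) (m : ℤ) (J : ℕ) :
    td4_ev L b m (J + 1) =
      fun ω => td4_ev L b m J ω ∧ ¬ L.Circ b (4 ^ J * m) (2 * (4 ^ J * m)) ω := by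
  funext ω
  refine propext ⟨fun h => ⟨fun j hj => h j (by omega), h J (by omega)⟩, fun h j hj => ?_⟩
  by_cases h1 : j = J
  · subst h1
    exact h.2
  · exact h.1 j (by omega)

private theorem td4_indep {L : Lat} {κ : ℕ → ℝ} (h : RSW L κ) (b : Bool) {m : ℤ} (hm : 8 ≤ m)
    (J : ℕ) : Loc (td4_ev L b m J) ∧ Dep (td4_ev L b m J) (bx (4 ^ J * m)) ∧
      pr (td4_ev L b m J) ≤ (1 - κ 5 ^ 4) ^ J := by
  induction J with
  | zero =>
    rw [td4_ev_zero]
    refine ⟨⟨∅, fun _ _ _ => rfl⟩, fun _ _ _ => rfl, ?_⟩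
    rw [pow_zero]
    exact pr_le_one _
  | succ J ih =>
    obtain ⟨h1, h2, h3⟩ := ih
    have hρ : 8 ≤ 4 ^ J * m := by
      have : (1 : ℤ) ≤ 4 ^ J := one_le_pow₀ (by norm_num)
      nlinarith
    have hρ' : (4 : ℤ) ^ (J + 1) * m = 4 * (4 ^ J * m) := by
      rw [pow_succ]
      ring
    have hcd : Dep (fun ω => ¬ L.Circ b (4 ^ J * m) (2 * (4 ^ J * m)) ω)
        (ann (4 ^ J * m) (2 * (4 ^ J * m))) :=
      (Lat.Circ.dep L b _ _ (by omega)).comp Not
    have hcl : Loc (fun ω => ¬ L.Circ b (4 ^ J * m) (2 * (4 ^ J * m)) ω) :=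
      (Lat.Circ.loc L b _ _).not
    rw [td4_ev_succ]
    refine ⟨h1.and hcl, ?_, ?_⟩
    · refine (h2.comp2 hcd And).mono ?_
      rintro v (hv | hv)
      · have h4 : nrm v ≤ 4 ^ J * m := hv
        show nrm v ≤ 4 ^ (J + 1) * m
        omega
      · have h4 : nrm v ≤ 2 * (4 ^ J * m) := hv.2
        show nrm v ≤ 4 ^ (J + 1) * m
        omega
    · rw [pr_and h1 hcl h2 hcd (fun v hv hv' => absurd hv'.1 (not_lt.2 hv)), pow_succ]
      have h4 : κ 5 ^ 4 ≤ pr (L.Circ b (4 ^ J * m) (2 * (4 ^ J * m))) :=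
        circ_pr h (by norm_num) b (by omega) (by omega) (by push_cast; omega)
      have h5 := pr_not (Lat.Circ.loc L b (4 ^ J * m) (2 * (4 ^ J * m)))
      refine mul_le_mul h3 (by rw [h5]; linarith) (pr_nonneg _) (le_trans (pr_nonneg _) h3)

/-- the exponent -/
private noncomputable def td4_c (κ : ℕ → ℝ) : ℝ :=
  -Real.log (max (1 / 2) (1 - κ 5 ^ 4)) / Real.log 4

private theorem td4_log4 : Real.log 4 = 2 * Real.log 2 := by
  have : (4 : ℝ) = 2 ^ (2 : ℕ) := by norm_num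
  rw [this, Real.log_pow]
  norm_num

private theorem td4_c_pos {κ : ℕ → ℝ} (hκ : 0 < κ 5) : 0 < td4_c κ := by
  have h1 : max (1 / 2 : ℝ) (1 - κ 5 ^ 4) < 1 := by
    refine max_lt (by norm_num) ?_
    have : 0 < κ 5 ^ 4 := by positivity
    linarith
  have h0 : (0 : ℝ) < max (1 / 2 : ℝ) (1 - κ 5 ^ 4) := lt_max_of_lt_left (by norm_num)
  unfold td4_c
  exact div_pos (neg_pos.2 (Real.log_neg h0 h1)) (Real.log_pos (by norm_num))

private theorem td4_c_le (κ : ℕ → ℝ) : td4_c κ ≤ 1 / 2 := by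
  have h1 : Real.log (1 / 2) ≤ Real.log (max (1 / 2 : ℝ) (1 - κ 5 ^ 4)) :=
    Real.log_le_log (by norm_num) (le_max_left _ _)
  have h2 : Real.log (1 / 2) = -Real.log 2 := by
    rw [one_div, Real.log_inv]
  have h3 : 0 < Real.log 2 := Real.log_pos (by norm_num)
  unfold td4_c
  rw [div_le_iff₀ (Real.log_pos (by norm_num)), td4_log4]
  linarith

private theorem td4_q (κ : ℕ → ℝ) : (4 : ℝ) ^ (-td4_c κ) = max (1 / 2) (1 - κ 5 ^ 4) := by
  have h0 : (0 : ℝ) < max (1 / 2 : ℝ) (1 - κ 5 ^ 4) := lt_max_of_lt_left (by norm_num)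
  have h1 : Real.log 4 ≠ 0 := (Real.log_pos (by norm_num)).ne'
  rw [Real.rpow_def_of_pos (by norm_num)]
  have h2 : Real.log 4 * -td4_c κ = Real.log (max (1 / 2) (1 - κ 5 ^ 4)) := by
    unfold td4_c
    field_simp
  rw [h2, Real.exp_log h0]

private theorem td4_key {L : Lat} {κ : ℕ → ℝ} (h : RSW L κ) (b : Bool)
    {r R : ℤ} (hr : 1 ≤ r) (hR : r ≤ R) {A : Cfg → Prop} (lA : Loc A)
    (hA : ∀ ω, A ω → ∃ P : Set Pt, L.Con P ∧ P ⊆ L.col b ω ∧
      (∃ v ∈ P, v ∈ bx r ∪ L.nb (bx r)) ∧ ∃ v ∈ P, R ≤ nrm v) :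
    pr A ≤ 4 * ((r : ℝ) / R) ^ td4_c κ := by
  set m : ℤ := max r 8 with hm
  have hm8 : 8 ≤ m := le_max_right _ _
  have hmr : r ≤ m := le_max_left _ _
  have hm8r : m ≤ 8 * r := max_le (by omega) (by omega)
  have hex : ∃ n : ℕ, R < 2 * (4 ^ n * m) := by
    obtain ⟨n, hn⟩ := pow_unbounded_of_one_lt R (show (1 : ℤ) < 4 by norm_num)
    refine ⟨n, lt_of_lt_of_le hn ?_⟩
    have : (0 : ℤ) < 4 ^ n := by positivity
    nlinarith
  have hJ := Nat.find_spec hex
  have hJ' : ∀ j < Nat.find hex, 2 * (4 ^ j * m) ≤ R := fun j hj => not_lt.1 (Nat.find_min hex hj)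
  set J : ℕ := Nat.find hex with hJdef
  obtain ⟨h1, h2, h3⟩ := td4_indep h (!b) hm8 J
  have hp1 : κ 5 ^ 4 ≤ 1 :=
    (circ_pr (r := 8) (R := 16) h (by norm_num : 1 ≤ 5) b (by norm_num) (by norm_num)
      (by norm_num)).trans (pr_le_one _)
  have h4 : pr A ≤ pr (td4_ev L (!b) m J) := by
    refine pr_mono lA h1 fun ω hω j hj hC => ?_
    obtain ⟨P, hP1, hP2, hP3, hP4⟩ := hA ω hω
    have hρ : 1 * m ≤ 4 ^ j * m :=
      mul_le_mul_of_nonneg_right (one_le_pow₀ (by norm_num)) (by omega)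
    obtain ⟨σ, hσ, hs⟩ := Lat.Circ.sep (by omega) (by omega) hC
    have hs' : L.Sep σ r R := hs.mono (by omega) (by omega) (hJ' j hj)
    obtain ⟨x, hx, hx'⟩ := hs'.2.2 P hP1 hP3 hP4
    have e1 : L.st ω x = !b := hσ hx
    have e2 : L.st ω x = b := hP2 hx'
    rw [e2] at e1
    exact absurd e1 (by cases b <;> decide)
  have h5 : (1 - κ 5 ^ 4) ^ J ≤ ((4 : ℝ) ^ J) ^ (-td4_c κ) := by
    have e : ((4 : ℝ) ^ J) ^ (-td4_c κ) = ((4 : ℝ) ^ (-td4_c κ)) ^ J := by
      rw [← Real.rpow_natCast, ← Real.rpow_mul (by norm_num), mul_comm, Real.rpow_mul (by norm_num),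
        Real.rpow_natCast]
    rw [e, td4_q]
    exact pow_le_pow_left₀ (by linarith) (le_max_right _ _) J
  have h6 : ((4 : ℝ) ^ J) ^ (-td4_c κ) ≤ 4 * ((r : ℝ) / R) ^ td4_c κ := by
    have hc0 : 0 ≤ td4_c κ := by
      have hκ : 0 < κ 5 := h.pos 5
      exact (td4_c_pos hκ).le
    have hr0 : (0 : ℝ) < r := by exact_mod_cast (by omega : 0 < r)
    have hR0 : (0 : ℝ) < R := by exact_mod_cast (by omega : 0 < R)
    have hx0 : (0 : ℝ) < (4 : ℝ) ^ J := by positivity
    have h7 : (R : ℝ) ≤ 16 * r * 4 ^ J := by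
      have : R ≤ 16 * r * 4 ^ J := by
        have h9 : (0 : ℤ) < 4 ^ J := by positivity
        nlinarith
      exact_mod_cast this
    have h8 : ((4 : ℝ) ^ J)⁻¹ ≤ 16 * ((r : ℝ) / R) := by
      rw [inv_le_iff_one_le_mul₀ hx0]
      have : 16 * ((r : ℝ) / R) * 4 ^ J = (16 * r * 4 ^ J) / R := by ring
      rw [this, le_div_iff₀ hR0]
      linarith
    have h9 : ((4 : ℝ) ^ J) ^ (-td4_c κ) = (((4 : ℝ) ^ J)⁻¹) ^ td4_c κ := by
      rw [Real.rpow_neg hx0.le, Real.inv_rpow hx0.le]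
    rw [h9]
    refine (Real.rpow_le_rpow (by positivity) h8 hc0).trans ?_
    rw [Real.mul_rpow (by norm_num) (by positivity)]
    refine mul_le_mul_of_nonneg_right ?_ (by positivity)
    have h10 : (16 : ℝ) ^ td4_c κ ≤ (16 : ℝ) ^ (1 / 2 : ℝ) :=
      Real.rpow_le_rpow_of_exponent_le (by norm_num) (td4_c_le κ)
    have h11 : (16 : ℝ) ^ (1 / 2 : ℝ) = 4 := by
      rw [show (16 : ℝ) = 4 ^ (2 : ℝ) by norm_num, ← Real.rpow_mul (by norm_num)]
      norm_num
    linarith
  exact h4.trans (h3.trans (h5.trans h6))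

/-- ONE ARM BOUND.  Circuits of the other colour in the annuli `ann ρ (2ρ)`, `ρ = 4 ^ j r'`, `r' = max r 8`,
`2 ρ ≤ R`, are independent and each has probability at least `κ 5 ^ 4` (`circ_pr`); if one of them
occurs there is no arm (`Circ.sep`, the arm is a connected set of colour `b` from `nb (bx r)` to `rng R`).  So the
probability is at most `(1 - κ 5 ^ 4) ^ J` with `J ≥ log_4 (R / r') - 2`. -/
theorem one_arm (κ : ℕ → ℝ) : ∃ C c : ℝ, 0 < C ∧ 0 < c ∧ c ≤ 1 / 2 ∧ ∀ L : Lat, RSW L κ →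
    ∀ (b : Bool) (r R : ℤ), 1 ≤ r → r ≤ R →
      pr (L.Arm b (ann r R) (L.nb (bx r)) (rng R)) ≤ C * ((r : ℝ) / R) ^ c := by
  by_cases hκ : 0 < κ 5
  · refine ⟨4, td4_c κ, by norm_num, td4_c_pos hκ, td4_c_le κ, fun L h b r R hr hR => ?_⟩
    have hfin : (ann r R).Finite := by
      refine (Set.Finite.subset (Set.Finite.prod (Set.finite_Icc (-R) R) (Set.finite_Icc (-R) R)) ?_)
      rintro v ⟨-, hv⟩
      simp only [nrm, max_le_iff, abs_le] at hv
      exact ⟨⟨hv.1.1, hv.1.2⟩, hv.2.1, hv.2.2⟩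
    refine td4_key h b hr hR (Lat.Arm.loc L b _ _ _ hfin) ?_
    rintro ω ⟨x, hx, y, hy, hxy⟩
    refine ⟨{z | L.Cn (ann r R ∩ L.col b ω) x z}, Lat.con_cluster _ _, fun z hz => (Lat.Cn.right hz).2,
      ⟨x, Lat.Cn.refl hxy.left, Or.inr hx⟩, ⟨y, hxy, ge_of_eq hy⟩⟩
  · exact ⟨1, 1 / 2, by norm_num, by norm_num, le_rfl, fun L h => absurd (h.pos 5) hκ⟩

/-- The same for an arm between two sets at distance: `X ⊆ {nrm (v - x) ≤ r}`, `Y ⊆ {nrm (v - x) ≥ R}` and any
finite domain.  (The arm contains a crossing of the annulus around `x`; `RSW (L.shift x)`.) -/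
theorem one_arm' (κ : ℕ → ℝ) : ∃ C c : ℝ, 0 < C ∧ 0 < c ∧ c ≤ 1 / 2 ∧ ∀ L : Lat, RSW L κ →
    ∀ (b : Bool) (x : Pt) (r R : ℤ) (D X Y : Set Pt), 1 ≤ r → r ≤ R → D.Finite →
      X ⊆ {v | nrm (v - x) ≤ r} → Y ⊆ {v | R ≤ nrm (v - x)} →
      pr (L.Arm b D X Y) ≤ C * ((r : ℝ) / R) ^ c := by
  by_cases hκ : 0 < κ 5
  · refine ⟨4, td4_c κ, by norm_num, td4_c_pos hκ, td4_c_le κ,
      fun L h b x r R D X Y hr hR hD hX hY => ?_⟩
    set e : Equiv.Perm Pt := Equiv.addRight x with he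
    have hT : Tr L (L.shift x) e := tr_shift L x
    have hi : ∀ S : Set Pt, e '' (e ⁻¹' S) = S := fun S => Set.image_preimage_eq S e.surjective
    have hev : (fun ω => (L.shift x).Arm b (e ⁻¹' D) (e ⁻¹' X) (e ⁻¹' Y) (via e ω)) =
        L.Arm b D X Y := by
      funext ω
      rw [hT.arm, hi, hi, hi]
    have hfin : (e ⁻¹' D).Finite := hD.preimage e.injective.injOn
    have hloc : Loc ((L.shift x).Arm b (e ⁻¹' D) (e ⁻¹' X) (e ⁻¹' Y)) :=
      Lat.Arm.loc _ b _ _ _ hfin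
    rw [← hev, pr_via hloc e]
    refine td4_key (h.shift x) b hr hR hloc ?_
    rintro ω ⟨u, hu, v, hv, huv⟩
    refine ⟨{z | (L.shift x).Cn (e ⁻¹' D ∩ (L.shift x).col b ω) u z}, Lat.con_cluster _ _,
      fun z hz => (Lat.Cn.right hz).2, ⟨u, Lat.Cn.refl huv.left, Or.inl ?_⟩, ⟨v, huv, ?_⟩⟩
    · have h1 := hX hu
      have h2 : e u - x = u := by simp [he]
      simp only [Set.mem_ofPred_eq, h2] at h1
      exact h1
    · have h1 := hY hv
      have h2 : e v - x = v := by simp [he]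
      simp only [Set.mem_ofPred_eq, h2] at h1
      exact h1
  · exact ⟨1, 1 / 2, by norm_num, by norm_num, le_rfl, fun L h => absurd (h.pos 5) hκ⟩

end SC

end

/-! ### from `Lib_MP_e0a489.OS2` -/

section

/-!
# MP_e0a489, outer separation 2: distances between outer blocks and sites of the ring
-/

set_option autoImplicit false

namespace SC

open Classical

private theorem os2_kw {R w M k c : ℤ} (hw : 0 < w) (hR : R = M * w + w / 2)
    (hk : |k| + c ≤ M) : |k * w| + c * w + w / 2 ≤ R := by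
  rw [abs_mul, abs_of_pos hw]
  have h1 : (|k| + c) * w ≤ M * w := mul_le_mul_of_nonneg_right hk hw.le
  rw [add_mul] at h1
  omega

/-- A site of the side `s'` that is not in the triple of the cell `(s, k)`, `s ≡ s'` modulo 4: its coordinate is
outside the triple.  Proof: `s' = s + 4 t'`, let `t` be as in `OFar`.  `|(k ± 1) w ± w / 2| < R` (because
`|k| + 100 ≤ M`) and `|y| < R`.  `lex_of_idx` for `oei R w (s + 4 t) k < 2 R s' + y` gives `s + 4 t < s'` or
(`s + 4 t = s'` and `(k + 1) w + w / 2 < y`, done); `lex_of_idx` for `2 R s' + y < osi R w (s + 4 t) k + 8 R`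
`= 2 R (s + 4 t + 4) + ..` gives `s' < s + 4 t + 4` or (`=` and `y < ..`, done); `4 t < 4 t' < 4 t + 4` is impossible. -/
theorem os_fari_side {r R w M s k s' y : ℤ} (h : OPar r R w M) (hk : |k| + 100 ≤ M)
    (hs : s % 4 = s' % 4) (hy : |y| + 100 * w ≤ R) (hF : OFar R w s k (2 * R * s' + y)) :
    (k + 1) * w + w / 2 < y ∨ y < (k - 1) * w - w / 2 := by
  obtain ⟨t, h1, h2⟩ := hF
  have hw := h.w0
  have hkw := os2_kw (c := 100) hw h.eR hk
  have e1 : (k + 1) * w = k * w + w := by ring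
  have e2 : (k - 1) * w = k * w - w := by ring
  have a1 := neg_abs_le (k * w)
  have a2 := le_abs_self (k * w)
  have a3 := neg_abs_le y
  have a4 := le_abs_self y
  have l1 := lex_of_idx (m := R) (s := s + 4 * t) (s' := s') (y := (k + 1) * w + w / 2) (y' := y)
    (by rw [abs_lt]; omega) (by omega) (by
      unfold oei at h1
      omega)
  have l2 := lex_of_idx (m := R) (s := s') (s' := s + 4 * t + 4) (y := y)
    (y' := (k - 1) * w - w / 2) (by omega) (by rw [abs_lt]; omega) (by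
      unfold osi at h2
      have e3 : 2 * R * (s + 4 * t + 4) = 2 * R * (s + 4 * t) + 8 * R := by ring
      omega)
  omega

/-- DISTANCE.  The sites of the ring next to the block `(s, k)` have distance at least `w` from a site of the ring which is
not in the triple.  Proof: `s ≡ s'` modulo 4: `os_fari_side`, `side_near`.  Otherwise `side_far` with `m = R`, `g = w`
(`|y'| ≤ |k| w + w / 2 + 1 ≤ R - 2 w`). -/
theorem os_mid_far {r R w M s k s' y y' : ℤ} (h : OPar r R w M) (hk : |k| + 100 ≤ M)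
    (hy : |y| + 100 * w ≤ R) (hF : OFar R w s k (2 * R * s' + y))
    (h1 : k * w - w / 2 - 1 ≤ y') (h2 : y' ≤ k * w + w / 2 + 1) :
    w ≤ nrm (rt s' (R, y) - rt s (R, y')) := by
  have hw := h.w0
  have hw5 := h.w5
  have hkw := os2_kw (c := 100) hw h.eR hk
  have a1 := neg_abs_le (k * w)
  have a2 := le_abs_self (k * w)
  by_cases hs : s % 4 = s' % 4
  · refine le_trans ?_ (side_near hs.symm)
    have h3 := os_fari_side h hk hs hy hF
    have e1 : (k + 1) * w = k * w + w := by ring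
    have e2 : (k - 1) * w = k * w - w := by ring
    rw [e1, e2] at h3
    have a5 := neg_abs_le (y - y')
    have a6 := le_abs_self (y - y')
    omega
  · refine side_far (m := R) (g := w) hw.le ?_ (fun e => hs e.symm) ?_ ?_ ?_ ?_
    · have := h.Rw
      omega
    · omega
    · omega
    · omega
    · rw [abs_le]
      omega

/-- In step 2 both ring sites are outside both triples: the positions `(s₁, k₁)`, `(s₃, k₃)` and an index `i` between the
triples.  Proof: for `(s₁, k₁)` take `t = 0`; for `(s₃, k₃)` take `t = -1` in the first case and `t = 0` in the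
second case (`oei R w (s + 4 t) k = oei R w s k + 8 R t`; `osi ≤ oei`). -/
theorem os_fari_mid {R w M s₁ k₁ s₃ k₃ i : ℤ} (hw : 0 < w) (hR : 0 < R)
    (h : OPos R w M s₁ k₁ s₃ k₃)
    (hi : (oei R w s₁ k₁ < i ∧ i < osi R w s₃ k₃) ∨
      (oei R w s₃ k₃ < i ∧ i < osi R w s₁ k₁ + 8 * R)) :
    OFar R w s₁ k₁ i ∧ OFar R w s₃ k₃ i := by
  have e1 : ∀ s t k : ℤ, oei R w (s + 4 * t) k = oei R w s k + 8 * R * t := by
    intro s t k
    unfold oei
    ring
  have e2 : ∀ s t k : ℤ, osi R w (s + 4 * t) k = osi R w s k + 8 * R * t := by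
    intro s t k
    unfold osi
    ring
  have e3 : ∀ s k : ℤ, osi R w s k ≤ oei R w s k := by
    intro s k
    unfold osi oei
    have e4 : (k + 1) * w = (k - 1) * w + 2 * w := by ring
    omega
  have o1 := h.o₁
  have o3 := h.o₃
  have m1 := e3 s₁ k₁
  have m3 := e3 s₃ k₃
  rcases hi with ⟨h1, h2⟩ | ⟨h1, h2⟩
  · refine ⟨⟨0, ?_, ?_⟩, ⟨-1, ?_, ?_⟩⟩
    · rw [e1]
      omega
    · rw [e2]
      omega
    · rw [e1]
      omega
    · rw [e2]
      omega
  · refine ⟨⟨0, ?_, ?_⟩, ⟨0, ?_, ?_⟩⟩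
    · rw [e1]
      omega
    · rw [e2]
      omega
    · rw [e1]
      omega
    · rw [e2]
      omega

namespace Lat

variable {L : Lat}

/-- sites that are equal or adjacent have distance at most one (`Adj.near`) -/
theorem os_apart_of {A B : Set Pt} (h : ∀ u ∈ A, ∀ v ∈ B, 2 ≤ nrm (u - v)) : L.OApart A B := by
  intro u hu v hv
  have h1 := h u hu v hv
  refine ⟨?_, ?_⟩
  · rintro rfl
    rw [sub_self] at h1
    have h2 : nrm (0 : Pt) = 0 := by
      show max |(0 : ℤ)| |(0 : ℤ)| = 0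
      rw [abs_zero, max_self]
    omega
  · intro hadj
    obtain ⟨n1, n2⟩ := hadj.near
    have h2 : nrm (u - v) ≤ 1 := max_le n1 n2
    omega

/-- Two outer blocks, possibly of different sizes.  Proof: `ob_mem`, `os_apart_of`; on the same side (modulo 4) `side_near`;
on different sides `side_far` with `m = R`, `g = 2` (`|y| ≤ |k| w + w / 2 ≤ R - 4`). -/
theorem os_ob_apart {r R w M s k w' M' s' k' : ℤ} (h : OPar r R w M) (h' : OPar r R w' M')
    (hk : |k| + 2 ≤ M) (hk' : |k'| + 2 ≤ M')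
    (hs : s % 4 = s' % 4 → k * w + w / 2 + 1 < k' * w' - w' / 2 ∨
      k' * w' + w' / 2 + 1 < k * w - w / 2) :
    L.OApart (ob w M s k) (ob w' M' s' k') := by
  refine os_apart_of fun u hu v hv => ?_
  obtain ⟨x, y, a1, a2, a3, a4, rfl⟩ := (ob_mem h.od h.w0 h.eR).1 hu
  obtain ⟨x', y', b1, b2, b3, b4, rfl⟩ := (ob_mem h'.od h'.w0 h'.eR).1 hv
  by_cases hss : s % 4 = s' % 4
  · refine le_trans ?_ (side_near hss)
    have h3 := hs hss
    have a5 := neg_abs_le (y - y')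
    have a6 := le_abs_self (y - y')
    omega
  · have hkw := os2_kw (c := 2) h.w0 h.eR hk
    have hkw' := os2_kw (c := 2) h'.w0 h'.eR hk'
    have c1 := neg_abs_le (k * w)
    have c2 := le_abs_self (k * w)
    have c3 := neg_abs_le (k' * w')
    have c4 := le_abs_self (k' * w')
    have w5 := h.w5
    have w5' := h'.w5
    have hRw := h.Rw
    refine side_far (m := R) (g := 2) (by omega) (by omega) hss (by omega) (by omega) ?_ ?_
    · rw [abs_le]
      omega
    · rw [abs_le]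
      omega

/-- the two coarse blocks of a position (`os_ob_apart`; the order of the triples gives the separation: if
`s₁ ≡ s₃` modulo 4 use `os_fari_side` for the index `2 R s₃ + k₃ w`, which is not in the triple of `(s₁, k₁)`) -/
theorem os_pos_apart {r R w M s₁ k₁ s₃ k₃ : ℤ} (h : OPar r R w M) (hP : OPos R w M s₁ k₁ s₃ k₃) :
    L.OApart (ob w M s₁ k₁) (ob w M s₃ k₃) := by
  have hw := h.w0
  have w5 := h.w5
  have ha1 := hP.a₁
  have ha3 := hP.a₃
  have o1 := hP.o₁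
  have o3 := hP.o₃
  have hkw3 := os2_kw (c := 100) hw h.eR ha3
  refine os_ob_apart h h (by omega) (by omega) fun hs => ?_
  have e1 : (k₁ + 1) * w = k₁ * w + w := by ring
  have e2 : (k₁ - 1) * w = k₁ * w - w := by ring
  have e3 : (k₃ + 1) * w = k₃ * w + w := by ring
  have e4 : (k₃ - 1) * w = k₃ * w - w := by ring
  have e5 : 2 * R * (s₁ + 4 * 0) = 2 * R * s₁ := by ring
  unfold oei osi at o1 o3
  have h3 := os_fari_side (s' := s₃) (y := k₃ * w) h ha1 hs (by omega) ⟨0, by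
    unfold oei
    omega, by
    unfold osi
    omega⟩
  omega

/-- A fine block near a ring site which is not in the triple of a coarse block (`os_ob_apart`; on the same side by
`os_fari_side` the coordinate `y` is at distance `> μ w + μ w / 2` from `k μ w`, and the fine block is within `7 w` of `y`). -/
theorem os_fine_apart {r R w M μ Mc s k s' k' y : ℤ} (h : OPar r R w M) (h' : OPar r R (μ * w) Mc)
    (hμ : 10 ≤ μ) (hk : |k| + 100 ≤ Mc) (hk' : |k'| + 2 ≤ M)
    (hy : |y| + 100 * (μ * w) ≤ R) (hF : OFar R (μ * w) s k (2 * R * s' + y))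
    (hky : |k' * w - y| ≤ 6 * w) : L.OApart (ob (μ * w) Mc s k) (ob w M s' k') := by
  have hw := h.w0
  have w5 := h.w5
  have hμw : 10 * w ≤ μ * w := mul_le_mul_of_nonneg_right hμ hw.le
  refine os_ob_apart h' h (by omega) hk' fun hs => ?_
  have h3 := os_fari_side h' hk hs hy hF
  have e1 : (k + 1) * (μ * w) = k * (μ * w) + μ * w := by ring
  have e2 : (k - 1) * (μ * w) = k * (μ * w) - μ * w := by ring
  rw [abs_le] at hky
  omega

end Lat

end SC

end

/-! ### from `Lib_MP_e0a489.ZR2` -/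

section

/-!
# MP_e0a489, module ZR, 2: invariance of the crossing probabilities of `Z2`
-/

set_option autoImplicit false

namespace SC

open Classical

theorem z2_pr_tr_hx (c : Bool) (a b p q : ℤ) :
    pr (Z2.HX c a b p q) = pr (Z2.VX c p q a b) := by
  have h := pr_via (Lat.HX.loc Z2 c a b p q) (Equiv.prodComm ℤ ℤ)
  rw [← h]
  congr 1
  funext ω
  have := tr_hx Z2 c a b p q ω
  rw [z2_tr] at this
  exact propext this

theorem z2_pr_tr_vx (c : Bool) (a b p q : ℤ) :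
    pr (Z2.VX c a b p q) = pr (Z2.HX c p q a b) := (z2_pr_tr_hx c p q a b).symm

/-- translations by even vectors -/
theorem z2_pr_shift_hx (c : Bool) (a b p q x y : ℤ) (hx : x % 2 = 0) (hy : y % 2 = 0) :
    pr (Z2.HX c (a + x) (b + x) (p + y) (q + y)) = pr (Z2.HX c a b p q) := by
  have h := pr_via (Lat.HX.loc Z2 c a b p q) (Equiv.addRight ((x, y) : Pt))
  rw [← h]
  congr 1
  funext ω
  have := shift_hx Z2 (x, y) c a b p q ω
  rw [z2_shift (x, y) hx hy] at this
  exact propext this.symm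

theorem z2_pr_shift_vx (c : Bool) (a b p q x y : ℤ) (hx : x % 2 = 0) (hy : y % 2 = 0) :
    pr (Z2.VX c (a + x) (b + x) (p + y) (q + y)) = pr (Z2.VX c a b p q) := by
  have h := pr_via (Lat.VX.loc Z2 c a b p q) (Equiv.addRight ((x, y) : Pt))
  rw [← h]
  congr 1
  funext ω
  have := shift_vx Z2 (x, y) c a b p q ω
  rw [z2_shift (x, y) hx hy] at this
  exact propext this.symm

/-- exchange of the colours in crossings -/
theorem sw_hx (L : Lat) (c : Bool) (a b p q : ℤ) (ω : Cfg) :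
    L.sw.HX c a b p q (fun v => ! ω v) ↔ L.HX (!c) a b p q ω := by
  have e : L.sw.col c (fun v => ! ω v) = L.col (!c) ω := by
    rw [Lat.sw_col]
    congr 1
    funext v
    exact Bool.not_not _
  constructor
  · rintro ⟨u, v, h1, h2, h3⟩
    rw [e] at h3
    exact ⟨u, v, h1, h2, h3⟩
  · rintro ⟨u, v, h1, h2, h3⟩
    rw [← e] at h3
    exact ⟨u, v, h1, h2, h3⟩

theorem sw_vx (L : Lat) (c : Bool) (a b p q : ℤ) (ω : Cfg) :
    L.sw.VX c a b p q (fun v => ! ω v) ↔ L.VX (!c) a b p q ω := by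
  have e : L.sw.col c (fun v => ! ω v) = L.col (!c) ω := by
    rw [Lat.sw_col]
    congr 1
    funext v
    exact Bool.not_not _
  constructor
  · rintro ⟨u, v, h1, h2, h3⟩
    rw [e] at h3
    exact ⟨u, v, h1, h2, h3⟩
  · rintro ⟨u, v, h1, h2, h3⟩
    rw [← e] at h3
    exact ⟨u, v, h1, h2, h3⟩

/-- the exchange of the colours is the translation by `(1, 1)` -/
theorem z2_pr_sw_hx (c : Bool) (a b p q : ℤ) :
    pr (Z2.HX (!c) a b p q) = pr (Z2.HX c (a + 1) (b + 1) (p + 1) (q + 1)) := by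
  have h1 : pr (Z2.HX (!c) a b p q) = pr (Z2.sw.HX c a b p q) := by
    have h := pr_flip (Lat.HX.loc Z2.sw c a b p q)
    rw [← h]
    congr 1
    funext ω
    exact propext (sw_hx Z2 c a b p q ω).symm
  rw [h1, z2_sw]
  have h := pr_via (Lat.HX.loc (Z2.shift (1, 1)) c a b p q) (Equiv.addRight ((1, 1) : Pt))
  rw [← h]
  congr 1
  funext ω
  exact propext (shift_hx Z2 (1, 1) c a b p q ω)

theorem z2_pr_sw_vx (c : Bool) (a b p q : ℤ) :
    pr (Z2.VX (!c) a b p q) = pr (Z2.VX c (a + 1) (b + 1) (p + 1) (q + 1)) := by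
  rw [z2_pr_tr_vx, z2_pr_sw_hx, z2_pr_tr_hx]

end SC

end

/-! ### from `Lib_MP_e0a489.ZT1` -/

section

/-!
# MP_e0a489, triangular lattice, 1: symmetries, invariance of the crossing probabilities
-/

set_option autoImplicit false

namespace SC

open Classical

/-- the row drawing with the parities of the rows exchanged -/
def TO : Lat := TL.shift (0, 1)

private theorem zt1_ext {L L' : Lat} (h1 : ∀ i j, L.ne i j = L'.ne i j)
    (h2 : ∀ v, L.typ v = L'.typ v) : L = L' := by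
  cases L with
  | mk ne typ =>
    cases L' with
    | mk ne' typ' =>
      have e1 : ne = ne' := funext fun i => funext fun j => h1 i j
      have e2 : typ = typ' := funext fun v => h2 v
      rw [e1, e2]

private theorem zt1_shift_hx (L : Lat) (x : Pt) (c : Bool) (a b p q : ℤ) :
    pr (L.HX c (a + x.1) (b + x.1) (p + x.2) (q + x.2)) = pr ((L.shift x).HX c a b p q) := by
  rw [← pr_via (Lat.HX.loc (L.shift x) c a b p q) (Equiv.addRight x)]
  congr 1
  funext ω
  exact propext (shift_hx L x c a b p q ω).symm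

private theorem zt1_shift_vx (L : Lat) (x : Pt) (c : Bool) (a b p q : ℤ) :
    pr (L.VX c (a + x.1) (b + x.1) (p + x.2) (q + x.2)) = pr ((L.shift x).VX c a b p q) := by
  rw [← pr_via (Lat.VX.loc (L.shift x) c a b p q) (Equiv.addRight x)]
  congr 1
  funext ω
  exact propext (shift_vx L x c a b p q ω).symm

private theorem zt1_rx_hx (L : Lat) (c : Bool) (a b p q : ℤ) :
    pr (L.rx.HX c a b p q) = pr (L.HX c (-b) (-a) p q) := by
  rw [← pr_via (Lat.HX.loc L.rx c a b p q) rxE]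
  congr 1
  funext ω
  exact propext (rx_hx L c a b p q ω)

private theorem zt1_rx_vx (L : Lat) (c : Bool) (a b p q : ℤ) :
    pr (L.rx.VX c a b p q) = pr (L.VX c (-b) (-a) p q) := by
  rw [← pr_via (Lat.VX.loc L.rx c a b p q) rxE]
  congr 1
  funext ω
  exact propext (rx_vx L c a b p q ω)

private theorem zt1_sw_hx (L : Lat) (c : Bool) (a b p q : ℤ) :
    pr (L.sw.HX c a b p q) = pr (L.HX (!c) a b p q) := by
  rw [← pr_flip (Lat.HX.loc L.sw c a b p q)]
  congr 1
  funext ω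
  exact propext (sw_hx L c a b p q ω)

private theorem zt1_sw_vx (L : Lat) (c : Bool) (a b p q : ℤ) :
    pr (L.sw.VX c a b p q) = pr (L.VX (!c) a b p q) := by
  rw [← pr_flip (Lat.VX.loc L.sw c a b p q)]
  congr 1
  funext ω
  exact propext (sw_vx L c a b p q ω)

/-- `zr1_ext` (copy it from ZR1.lean): two lattices with the same `ne` and `typ` are equal -/
theorem tl_shift_even (x : Pt) (h : x.2 % 2 = 0) : TL.shift x = TL := by
  refine zt1_ext (fun i j => ?_) (fun v => rfl)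
  show decide ((j + x.2) % 2 = 1) = decide (j % 2 = 1)
  by_cases h1 : j % 2 = 1
  · rw [decide_eq_true h1, decide_eq_true (by omega)]
  · rw [decide_eq_false h1, decide_eq_false (by omega)]

theorem tl_shift_odd (x : Pt) (h : x.2 % 2 = 1) : TL.shift x = TO := by
  refine zt1_ext (fun i j => ?_) (fun v => rfl)
  show decide ((j + x.2) % 2 = 1) = decide ((j + 1) % 2 = 1)
  by_cases h1 : (j + 1) % 2 = 1
  · rw [decide_eq_true h1, decide_eq_true (by omega)]
  · rw [decide_eq_false h1, decide_eq_false (by omega)]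

theorem to_shift_even (x : Pt) (h : x.2 % 2 = 0) : TO.shift x = TO := by
  refine zt1_ext (fun i j => ?_) (fun v => rfl)
  show decide ((j + x.2 + 1) % 2 = 1) = decide ((j + 1) % 2 = 1)
  by_cases h1 : (j + 1) % 2 = 1
  · rw [decide_eq_true h1, decide_eq_true (by omega)]
  · rw [decide_eq_false h1, decide_eq_false (by omega)]

/-- `TO.ry.ne i j = ! TL.ne i (-j - 1 + 1)`, and this is `true` iff `j` is even -/
theorem to_ry : TO.ry = TO := by
  refine zt1_ext (fun i j => ?_) (fun v => rfl)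
  show (! decide ((-j - 1 + 1) % 2 = 1)) = decide ((j + 1) % 2 = 1)
  by_cases h1 : (j + 1) % 2 = 1
  · rw [decide_eq_true h1, decide_eq_false (by omega)]
    rfl
  · rw [decide_eq_false h1, decide_eq_true (by omega)]
    rfl

/-- `tr_rfy`, `TL_ry`, `tl_shift_even` -/
theorem tl_tr_rfy (n : ℤ) : Tr TL TL (rfy (2 * n)) := by
  have h := tr_rfy TL (2 * n)
  rwa [TL_ry, tl_shift_even (0, -(2 * n)) (by show (-(2 * n)) % 2 = 0; omega)] at h

/-- `tr_rfy`, `to_ry`, `to_shift_even` -/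
theorem to_tr_rfy (n : ℤ) : Tr TO TO (rfy (2 * n)) := by
  have h := tr_rfy TO (2 * n)
  rwa [to_ry, to_shift_even (0, -(2 * n)) (by show (-(2 * n)) % 2 = 0; omega)] at h

/-- `tr_rfx`, `TL_rx`, `to_shift_even` -/
theorem tl_tr_rfx (a : ℤ) : Tr TL TO (rfx a) := by
  have h := tr_rfx TL a
  have e : TL.rx = TO := TL_rx
  rwa [e, to_shift_even (-a, 0) (by show (0 : ℤ) % 2 = 0; rfl)] at h

/-- horizontal crossing probability: `a + 1` columns, `b + 1` rows -/
noncomputable def tH (a b : ℤ) : ℝ := pr (TL.HX true 0 a 0 b)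

/-- vertical crossing probability -/
noncomputable def tV (a b : ℤ) : ℝ := pr (TL.VX true 0 a 0 b)

/-- All translations.  Open crossings, `y` even: `shift_hx`, `pr_via` (see `z2_pr_shift_hx` in ZR2.lean) and `tl_shift_even`.  `y` odd: `TL.shift (x, y) = TO = TL.rx`
(`TL_rx`) and `rx_hx`: `pr (TL.rx.HX true 0 a 0 b) = pr (TL.HX true (-a) 0 0 b)`, a translate by an even vector `(-a, 0)`.  Closed crossings: `sw_hx` (ZR2.lean), `TL_sw`, `pr_flip`. -/
theorem tl_hx (c : Bool) (x x' y y' : ℤ) : pr (TL.HX c x x' y y') = tH (x' - x) (y' - y) := by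
  have hev : ∀ x x' y y' : ℤ, y % 2 = 0 → pr (TL.HX true x x' y y') = tH (x' - x) (y' - y) := by
    intro x x' y y' hy
    have h := zt1_shift_hx TL (x, y) true 0 (x' - x) 0 (y' - y)
    rw [tl_shift_even (x, y) hy] at h
    have e1 : (0 : ℤ) + ((x, y) : Pt).1 = x := zero_add x
    have e2 : x' - x + ((x, y) : Pt).1 = x' := sub_add_cancel x' x
    have e3 : (0 : ℤ) + ((x, y) : Pt).2 = y := zero_add y
    have e4 : y' - y + ((x, y) : Pt).2 = y' := sub_add_cancel y' y
    rw [e1, e2, e3, e4] at h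
    exact h
  have hop : ∀ x x' y y' : ℤ, pr (TL.HX true x x' y y') = tH (x' - x) (y' - y) := by
    intro x x' y y'
    rcases Int.emod_two_eq_zero_or_one y with hy | hy
    · exact hev x x' y y' hy
    · have h := zt1_shift_hx TL (x, y) true 0 (x' - x) 0 (y' - y)
      have e0 : TL.shift (x, y) = TL.rx := (tl_shift_odd (x, y) hy).trans TL_rx.symm
      rw [e0, zt1_rx_hx] at h
      have e1 : (0 : ℤ) + ((x, y) : Pt).1 = x := zero_add x
      have e2 : x' - x + ((x, y) : Pt).1 = x' := sub_add_cancel x' x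
      have e3 : (0 : ℤ) + ((x, y) : Pt).2 = y := zero_add y
      have e4 : y' - y + ((x, y) : Pt).2 = y' := sub_add_cancel y' y
      rw [e1, e2, e3, e4, hev _ _ 0 _ rfl] at h
      rw [h]
      congr 1 <;> ring
  cases c with
  | true => exact hop x x' y y'
  | false =>
    have h := zt1_sw_hx TL true x x' y y'
    rw [TL_sw, hop] at h
    exact h.symm

/-- the same proof (`shift_vx`, `rx_vx`, `sw_vx`) -/
theorem tl_vx (c : Bool) (x x' y y' : ℤ) : pr (TL.VX c x x' y y') = tV (x' - x) (y' - y) := by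
  have hev : ∀ x x' y y' : ℤ, y % 2 = 0 → pr (TL.VX true x x' y y') = tV (x' - x) (y' - y) := by
    intro x x' y y' hy
    have h := zt1_shift_vx TL (x, y) true 0 (x' - x) 0 (y' - y)
    rw [tl_shift_even (x, y) hy] at h
    have e1 : (0 : ℤ) + ((x, y) : Pt).1 = x := zero_add x
    have e2 : x' - x + ((x, y) : Pt).1 = x' := sub_add_cancel x' x
    have e3 : (0 : ℤ) + ((x, y) : Pt).2 = y := zero_add y
    have e4 : y' - y + ((x, y) : Pt).2 = y' := sub_add_cancel y' y
    rw [e1, e2, e3, e4] at h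
    exact h
  have hop : ∀ x x' y y' : ℤ, pr (TL.VX true x x' y y') = tV (x' - x) (y' - y) := by
    intro x x' y y'
    rcases Int.emod_two_eq_zero_or_one y with hy | hy
    · exact hev x x' y y' hy
    · have h := zt1_shift_vx TL (x, y) true 0 (x' - x) 0 (y' - y)
      have e0 : TL.shift (x, y) = TL.rx := (tl_shift_odd (x, y) hy).trans TL_rx.symm
      rw [e0, zt1_rx_vx] at h
      have e1 : (0 : ℤ) + ((x, y) : Pt).1 = x := zero_add x
      have e2 : x' - x + ((x, y) : Pt).1 = x' := sub_add_cancel x' x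
      have e3 : (0 : ℤ) + ((x, y) : Pt).2 = y := zero_add y
      have e4 : y' - y + ((x, y) : Pt).2 = y' := sub_add_cancel y' y
      rw [e1, e2, e3, e4, hev _ _ 0 _ rfl] at h
      rw [h]
      congr 1 <;> ring
  cases c with
  | true => exact hop x x' y y'
  | false =>
    have h := zt1_sw_vx TL true x x' y y'
    rw [TL_sw, hop] at h
    exact h.symm

/-- `shift_hx`, `pr_via`, `tl_hx` -/
theorem to_hx (a b : ℤ) : pr (TO.HX true 0 a 0 b) = tH a b := by
  have h := zt1_shift_hx TL (0, 1) true 0 a 0 b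
  rw [tl_hx] at h
  have h2 : pr (TO.HX true 0 a 0 b) = _ := h.symm
  rw [h2]
  congr 1 <;> simp

theorem to_vx (a b : ℤ) : pr (TO.VX true 0 a 0 b) = tV a b := by
  have h := zt1_shift_vx TL (0, 1) true 0 a 0 b
  rw [tl_vx] at h
  have h2 : pr (TO.VX true 0 a 0 b) = _ := h.symm
  rw [h2]
  congr 1 <;> simp

/-- duality (`not_hx`, `pr_not`, `tl_vx` for the colour `false`) -/
theorem tV_eq {a b : ℤ} (ha : 0 ≤ a) (hb : 0 ≤ b) : tV a b = 1 - tH a b := by
  have h1 := pr_not (Lat.HX.loc TL true 0 a 0 b)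
  have h2 : (fun ω => ¬ TL.HX true 0 a 0 b ω) = TL.VX false 0 a 0 b := by
    funext ω
    exact propext (Lat.not_hx ha hb true ω)
  rw [h2, tl_vx, sub_zero, sub_zero] at h1
  exact h1

/-- `HX.mono`, `pr_mono` -/
theorem tH_mono {a b a' b' : ℤ} (h0 : 0 ≤ a') (h : a' ≤ a) (h' : b ≤ b') : tH a b ≤ tH a' b' :=
  pr_mono (Lat.HX.loc _ _ _ _ _ _) (Lat.HX.loc _ _ _ _ _ _) fun _ hω =>
    hω.mono le_rfl h0 h le_rfl h'

/-- `VX.mono`, `pr_mono` -/
theorem tV_mono {a b a' b' : ℤ} (h0 : 0 ≤ b') (h : a ≤ a') (h' : b' ≤ b) : tV a b ≤ tV a' b' :=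
  pr_mono (Lat.VX.loc _ _ _ _ _ _) (Lat.VX.loc _ _ _ _ _ _) fun _ hω =>
    hω.mono le_rfl h le_rfl h0 h'

end SC

end

/-! ### from `Lib_MP_e0a489.ZT2` -/

section

/-!
# MP_e0a489, triangular lattice, 2: the rhombus
-/

set_option autoImplicit false

namespace SC

open Classical

namespace Lat

variable {L : Lat}

/-- the first part of a path up to the level `t` of a Lipschitz function (copy of `te3_cut`) -/
private theorem zt2_cut {A : Set Pt} {u v : Pt} (h : L.Cn A u v) (f : Pt → ℤ)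
    (hf : ∀ x y, L.Adj x y → |f x - f y| ≤ 1) (t : ℤ) (hu : f u ≤ t) (hv : t ≤ f v) :
    ∃ w, f w = t ∧ L.Cn (A ∩ {x | f x ≤ t}) u w := by
  by_cases hv' : f v ≤ t
  · by_cases hA : L.Cn (A ∩ {x | f x ≤ t}) u v
    · exact ⟨v, le_antisymm hv' hv, hA⟩
    · have key : L.Cn (A ∩ {x | f x ≤ t}) u v ∨
          ∃ p q, L.Cn (A ∩ {x | f x ≤ t}) u p ∧ L.Adj p q ∧ q ∈ A ∧ q ∉ {x | f x ≤ t} := by
        obtain ⟨hu', hp⟩ := h
        clear hA hv hv'
        induction hp with
        | refl => exact Or.inl (Cn.refl ⟨hu', hu⟩)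
        | @tail x y _ hxy ih =>
          rcases ih with ih | ih
          · by_cases hS : f y ≤ t
            · refine Or.inl (ih.trans (Cn.of_adj ih.right ⟨hxy.2, hS⟩ hxy.1))
            · exact Or.inr ⟨x, y, ih, hxy.1, hxy.2, hS⟩
          · exact Or.inr ih
      rcases key with key | ⟨p, q, hc, ha, _, hqS⟩
      · exact absurd key hA
      · refine ⟨p, ?_, hc⟩
        have h1 : f p ≤ t := hc.right.2
        have h2 : ¬ f q ≤ t := hqS
        have h3 := abs_le.mp (hf p q ha)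
        omega
  · obtain ⟨p, q, hc, ha, _, hqS⟩ := h.exit (S := {x | f x ≤ t}) hu hv'
    refine ⟨p, ?_, hc⟩
    have h1 : f p ≤ t := hc.right.2
    have h2 : ¬ f q ≤ t := hqS
    have h3 := abs_le.mp (hf p q ha)
    omega

/-- the part of a path between the levels `s` and `t` of a Lipschitz function -/
private theorem zt2_cut2 {A : Set Pt} {u v : Pt} (h : L.Cn A u v) (f : Pt → ℤ)
    (hf : ∀ x y, L.Adj x y → |f x - f y| ≤ 1) (s t : ℤ) (hst : s ≤ t) (hu : f u ≤ s)
    (hv : t ≤ f v) :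
    ∃ w z, f w = s ∧ f z = t ∧ L.Cn ((A ∩ {x | f x ≤ t}) ∩ {x | s ≤ f x}) w z := by
  obtain ⟨z, hz, hc⟩ := zt2_cut h f hf t (hu.trans hst) hv
  obtain ⟨w, hw, hc'⟩ := zt2_cut hc.symm (fun x => - f x)
    (fun x y hxy => by
      have h1 := abs_le.mp (hf x y hxy)
      rw [abs_le]
      constructor <;> omega) (-s) (by show - f z ≤ -s; omega) (by show -s ≤ - f u; omega)
  refine ⟨w, z, by have h1 : - f w = -s := hw; omega, hz, hc'.symm.mono ?_⟩
  rintro x ⟨h1, h2⟩
  refine ⟨h1, ?_⟩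
  have h3 : - f x ≤ - s := h2
  show s ≤ f x
  omega

end Lat

/-- A path from the left of the column `a` to the right of the column `b` contains a crossing.  Same proof as `HX.mono` in TE3.lean (`Cn.last` for `{w | w.1 ≤ a}`, then `Cn.exit` for `{w | w.1 ≤ b}`;
copy the private lemma `te3_cut2`). -/
theorem hx_cut {L : Lat} {c : Bool} {A : Set Pt} {a b p q : ℤ} (hab : a ≤ b) {ω : Cfg}
    {u v : Pt} (h : L.Cn (A ∩ L.col c ω) u v) (hA : ∀ w ∈ A, p ≤ w.2 ∧ w.2 ≤ q)
    (hu : u.1 ≤ a) (hv : b ≤ v.1) : L.HX c a b p q ω := by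
  obtain ⟨w, z, hw, hz, hc⟩ := Lat.zt2_cut2 h (fun x => x.1)
    (fun x y hxy => (Lat.Adj.near hxy).1) a b hab hu hv
  refine ⟨w, z, hw, hz, hc.mono ?_⟩
  rintro x ⟨⟨⟨h1, h2⟩, h3⟩, h4⟩
  exact ⟨⟨⟨h4, h3⟩, hA x h1⟩, h2⟩

theorem sl_tr : SL.tr = SL := by
  rfl

theorem sl_sw : SL.sw = SL := by
  rfl

private theorem sl_vx_hx (n : ℤ) : pr (SL.VX true 0 n 0 n) = pr (SL.HX true 0 n 0 n) := by
  have h := pr_via (Lat.HX.loc SL true 0 n 0 n) (Equiv.prodComm ℤ ℤ)
  rw [← h]
  congr 1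
  funext ω
  have := tr_hx SL true 0 n 0 n ω
  rw [sl_tr] at this
  exact propext this.symm

private theorem sl_vx_sw (n : ℤ) : pr (SL.VX false 0 n 0 n) = pr (SL.VX true 0 n 0 n) := by
  have h := pr_flip (Lat.VX.loc SL true 0 n 0 n)
  rw [← h]
  congr 1
  funext ω
  have := sw_vx SL true 0 n 0 n ω
  rw [sl_sw] at this
  exact propext this.symm

/-- `pr (HX true) = 1 - pr (VX false)` (`not_hx`, `pr_not`), `pr (VX false) = pr (VX true)` (`sw_vx` in ZR2.lean, `sl_sw`, `pr_flip`), `pr (VX true) = pr (HX true)` (`tr_hx`, `sl_tr`, `pr_via`, see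
`z2_pr_tr_hx` in ZR2.lean) -/
theorem sl_half {n : ℤ} (hn : 0 ≤ n) : pr (SL.HX true 0 n 0 n) = 1 / 2 := by
  have h1 := pr_not (Lat.HX.loc SL true 0 n 0 n)
  have h2 : (fun ω => ¬ SL.HX true 0 n 0 n ω) = SL.VX false 0 n 0 n := by
    funext ω
    exact propext (Lat.not_hx hn hn true ω)
  rw [h2, sl_vx_sw, sl_vx_hx] at h1
  linarith

theorem sl_half_v {n : ℤ} (hn : 0 ≤ n) : pr (SL.VX true 0 n 0 n) = 1 / 2 := by
  rw [sl_vx_hx]
  exact sl_half hn

/-- a path of the sheared drawing is a path of the row drawing -/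
private theorem sh_cn {n : ℤ} {η : Cfg} {u v : Pt}
    (h : SL.Cn (rect 0 n 0 n ∩ SL.col true (via shE η)) u v) :
    TL.Cn (shE '' rect 0 n 0 n ∩ TL.col true η) (shE u) (shE v) := by
  have h1 := (tr_shE.cn _ u v).1 h
  rwa [Set.image_inter shE.injective, tr_shE.col] at h1

/-- `SL.HX true 0 n 0 n (via shE η)` implies `TL.HX true (n / 2) n 0 n η`: by `tr_shE` (`Tr.cn`, `Tr.col`, `Set.image_inter`) the path of `SL` is a path of `TL` in `shE '' rect 0 n 0 n`, rows `0` to `n`, from the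
column `u.2 / 2 ≤ n / 2` to the column `n + v.2 / 2 ≥ n`: `hx_cut`.  Then `pr_via`, `pr_mono`, `sl_half`, `tl_hx`. -/
theorem tl_rh_h {n : ℤ} (hn : 0 ≤ n) : 1 / 2 ≤ tH (n - n / 2) n := by
  have e1 := tl_hx true (n / 2) n 0 n
  rw [sub_zero] at e1
  rw [← e1, ← sl_half hn, ← pr_via (Lat.HX.loc SL true 0 n 0 n) shE]
  refine pr_mono ?_ (Lat.HX.loc TL true _ _ _ _) ?_
  · obtain ⟨F, hF⟩ := Lat.HX.loc SL true 0 n 0 n
    refine ⟨F.image shE, fun ω ω' hw => hF _ _ fun v hv => hw _ ?_⟩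
    rw [Finset.coe_image]
    exact Set.mem_image_of_mem _ hv
  · rintro η ⟨u, v, hu, hv, hc⟩
    have hu' : u ∈ rect 0 n 0 n := hc.left.1
    have hv' : v ∈ rect 0 n 0 n := hc.right.1
    refine hx_cut (by omega) (sh_cn hc) ?_ ?_ ?_
    · rintro _ ⟨w, hw, rfl⟩
      exact hw.2
    · show u.1 + u.2 / 2 ≤ n / 2
      have := hu'.2.2
      omega
    · show n ≤ v.1 + v.2 / 2
      have := hv'.2.1
      omega

/-- `SL.VX true 0 n 0 n (via shE η)` implies `TL.VX true 0 (n + n / 2) 0 n η` (`shE '' rect 0 n 0 n ⊆ rect 0 (n + n / 2) 0 n`; `shE` does not change the rows) -/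
theorem tl_rh_v {n : ℤ} (hn : 0 ≤ n) : 1 / 2 ≤ tV (n + n / 2) n := by
  unfold tV
  rw [← sl_half_v hn, ← pr_via (Lat.VX.loc SL true 0 n 0 n) shE]
  refine pr_mono ?_ (Lat.VX.loc TL true _ _ _ _) ?_
  · obtain ⟨F, hF⟩ := Lat.VX.loc SL true 0 n 0 n
    refine ⟨F.image shE, fun ω ω' hw => hF _ _ fun v hv => hw _ ?_⟩
    rw [Finset.coe_image]
    exact Set.mem_image_of_mem _ hv
  · rintro η ⟨u, v, hu, hv, hc⟩
    refine ⟨shE u, shE v, hu, hv, (sh_cn hc).mono ?_⟩
    rintro _ ⟨⟨w, ⟨⟨h1, h2⟩, h3, h4⟩, rfl⟩, hcol⟩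
    refine ⟨⟨⟨?_, ?_⟩, h3, h4⟩, hcol⟩
    · show 0 ≤ w.1 + w.2 / 2
      omega
    · show w.1 + w.2 / 2 ≤ n + n / 2
      omega

end SC

end
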