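import Mathlib
import Pool.Agent.Lib_MP_e0a489_m.G05
import Pool.Agent.Lib_MP_e0a489_m.G06
import Pool.Agent.Lib_MP_e0a489_m.G07
import Pool.Agent.Lib_MP_e0a489_m.G10
import Pool.Agent.Lib_MP_e0a489_m.G11
import Pool.Agent.Lib_MP_e0a489_m.G12
import Pool.Agent.Lib_MP_e0a489_m.G13
import Pool.Agent.Lib_MP_e0a489_m.G14
import Pool.Agent.Lib_MP_e0a489_m.G16

/-!
# MP_e0a489_pr: merged library part G20

Concatenation of library files (each in its own section), only to save build time.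
-/

/-! ### from `Lib_MP_e0a489.IS5` -/

section

/-!
# MP_e0a489, inner separation 5: arithmetic of the cells
-/

set_option autoImplicit false

namespace SC

open Classical

/-- two disjoint windows on a cycle of length `N`: choose the representative of the second one in the period after
the first one -/
theorem arcs_rep {N h a b : ℤ} (hh : 0 ≤ h) (hN : 0 < N)
    (hd : ∀ i j, |i - a| ≤ h → |j - b| ≤ h → ¬ N ∣ i - j) :
    ∃ n, a + h < b + N * n - h ∧ b + N * n + h < a + N - h := by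
  have hq := Int.mul_ediv_add_emod (b - a) N
  have h0 := Int.emod_nonneg (b - a) (ne_of_gt hN)
  have h1 := Int.emod_lt_of_pos (b - a) hN
  set ρ := (b - a) % N with hρ
  set q := (b - a) / N with hq'
  have e : N * -q = -(N * q) := by ring
  refine ⟨-q, ?_, ?_⟩
  · by_contra hc
    rw [e] at hc
    by_cases h2 : ρ ≤ h
    · refine hd (a + ρ) b (by rw [add_sub_cancel_left, abs_of_nonneg h0]; exact h2)
        (by rw [sub_self, abs_zero]; exact hh) ⟨-q, ?_⟩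
      rw [e]
      omega
    · refine hd (a + h) (b - (ρ - h)) (by rw [add_sub_cancel_left, abs_of_nonneg hh])
        (by rw [abs_le]; omega) ⟨-q, ?_⟩
      rw [e]
      omega
  · by_contra hc
    rw [e] at hc
    have e' : N * (-q - 1) = -(N * q) - N := by ring
    by_cases h2 : N - ρ ≤ h
    · refine hd (a - (N - ρ)) b (by rw [abs_le]; omega)
        (by rw [sub_self, abs_zero]; exact hh) ⟨-q - 1, ?_⟩
      rw [e']
      omega
    · refine hd (a - h) (b + (N - ρ - h)) (by rw [abs_le]; omega)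
        (by rw [abs_le]; omega) ⟨-q - 1, ?_⟩
      rw [e']
      omega

/-- a point outside both windows lies in one of the two arcs -/
theorem arcs_pt {N h a b i : ℤ} (hh : 0 ≤ h) (hN : 0 < N) (hab : a + h < b - h)
    (hba : b + h < a + N - h) (ha : ∀ j, |j - a| ≤ h → ¬ N ∣ i - j)
    (hb : ∀ j, |j - b| ≤ h → ¬ N ∣ i - j) :
    ∃ n, (a + h < i + N * n ∧ i + N * n < b - h) ∨
      (b + h < i + N * n ∧ i + N * n < a + N - h) := by
  have hq := Int.mul_ediv_add_emod (i - a) N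
  have h0 := Int.emod_nonneg (i - a) (ne_of_gt hN)
  have h1 := Int.emod_lt_of_pos (i - a) hN
  set ρ := (i - a) % N with hρ
  set q := (i - a) / N with hq'
  have e : N * -q = -(N * q) := by ring
  have e' : N * (q + 1) = N * q + N := by ring
  have h2 : h < ρ := by
    by_contra hc
    refine ha (a + ρ) (by rw [add_sub_cancel_left, abs_of_nonneg h0]; omega) ⟨q, ?_⟩
    omega
  have h3 : h < N - ρ := by
    by_contra hc
    refine ha (a - (N - ρ)) (by rw [abs_le]; omega) ⟨q + 1, ?_⟩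
    rw [e']
    omega
  refine ⟨-q, ?_⟩
  rw [e]
  by_contra hc
  refine hb (a + ρ) ?_ ⟨q, by omega⟩
  rw [abs_le]
  omega

/-- the triple of a cell as a set of ring sites -/
theorem mem_trip {w m s k : ℤ} {v : Pt} :
    v ∈ trip w m s k ↔ ∃ i, |i - (2 * m * s + k * w)| ≤ w + w / 2 ∧ rc m i = v := by
  unfold trip arc
  rw [Set.mem_setOf_eq]
  have e1 : (k - 1) * w = k * w - w := by ring
  have e2 : (k + 1) * w = k * w + w := by ring
  rw [e1, e2]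
  constructor
  · rintro ⟨i, h1, h2, h3⟩
    refine ⟨i, ?_, h3⟩
    rw [abs_le]
    omega
  · rintro ⟨i, h1, h3⟩
    rw [abs_le] at h1
    exact ⟨i, by omega, by omega, h3⟩

/-- BLOCKS ARE FAR.  Two inner blocks of sizes `w' ≤ w` with the same `r`, far from the corners (in terms of `w`), whose
middle cells are separated by at least two: all distances are at least `2`.
Proof.  `ib_mem`: `u = rt s (x, y)`, `v = rt s' (x', y')`, `r - w < x, x' ≤ r`, `|y - k w| ≤ w/2`, `|y' - k' w'| ≤ w'/2`.  Different sides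
(modulo 4): `side_far` with `m = r + 1`, `g = w`.  Same side, `s' = s + 4 n`: the two index inequalities give `n = 0` and
`k' w' - k w > w/2 + w'/2 + 1`, or `n = 1` and `k w - k' w' > w/2 + w'/2 + 1` (all coordinates are smaller than `m`); `side_near`. -/
theorem ib_far {w M w' M' r s k s' k' : ℤ} (hw : w % 2 = 1) (hw0 : 2 ≤ w) (hw' : w' % 2 = 1)
    (hw0' : 0 < w') (hww : w' ≤ w) (hr : r = M * w + w / 2) (hr' : r = M' * w' + w' / 2)
    (hk : |k| * w + 4 * w ≤ r + 1) (hk' : |k'| * w' + 4 * w ≤ r + 1)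
    (h1 : 2 * (r + 1) * s + k * w + w / 2 + w' / 2 + 1 < 2 * (r + 1) * s' + k' * w')
    (h2 : 2 * (r + 1) * s' + k' * w' + w / 2 + w' / 2 + 1 < 2 * (r + 1) * (s + 4) + k * w)
    {u v : Pt} (hu : u ∈ ib w M s k) (hv : v ∈ ib w' M' s' k') : 2 ≤ nrm (u - v) := by
  obtain ⟨x, y, a1, a2, a3, a4, rfl⟩ := (ib_mem hw (by omega) hr).1 hu
  obtain ⟨x', y', b1, b2, b3, b4, rfl⟩ := (ib_mem hw' hw0' hr').1 hv
  have e1 : |k| * w = |k * w| := by rw [abs_mul, abs_of_pos (show 0 < w by omega)]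
  have e2 : |k'| * w' = |k' * w'| := by rw [abs_mul, abs_of_pos hw0']
  rw [e1] at hk
  rw [e2] at hk'
  obtain ⟨A, hA⟩ : ∃ A, A = k * w := ⟨_, rfl⟩
  obtain ⟨B, hB⟩ : ∃ B, B = k' * w' := ⟨_, rfl⟩
  rw [← hA] at hk h1 h2 a3 a4
  rw [← hB] at hk' h1 h2 b3 b4
  have hk1 := abs_le.1 (show |A| ≤ r + 1 - 4 * w by omega)
  have hk2 := abs_le.1 (show |B| ≤ r + 1 - 4 * w by omega)
  by_cases hs : s % 4 = s' % 4
  · refine le_trans ?_ (side_near hs)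
    obtain ⟨n, hn⟩ : ∃ n, s' = s + 4 * n := ⟨s' / 4 - s / 4, by omega⟩
    subst hn
    have e3 : 2 * (r + 1) * (s + 4 * n) = 2 * (r + 1) * s + 8 * ((r + 1) * n) := by ring
    have e4 : 2 * (r + 1) * (s + 4) = 2 * (r + 1) * s + 8 * (r + 1) := by ring
    rw [e3] at h1 h2
    rw [e4] at h2
    have hr1 : 0 < r + 1 := by omega
    have hn0 : 0 ≤ n := by
      by_contra hc
      have : (r + 1) * n ≤ (r + 1) * (-1) := mul_le_mul_of_nonneg_left (by omega) hr1.le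
      omega
    have hn1 : n ≤ 1 := by
      by_contra hc
      have : (r + 1) * 2 ≤ (r + 1) * n := mul_le_mul_of_nonneg_left (by omega) hr1.le
      omega
    have hn2 : n = 0 ∨ n = 1 := by omega
    rcases hn2 with rfl | rfl
    · rw [mul_zero] at h1 h2
      rw [abs_sub_comm]
      exact le_trans (by omega) (le_abs_self _)
    · rw [mul_one] at h1 h2
      exact le_trans (by omega) (le_abs_self _)
  · refine le_trans hw0 (side_far (m := r + 1) (by omega) (by omega) hs (by omega) (by omega)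
      ?_ ?_)
    · rw [abs_le]
      omega
    · rw [abs_le]
      omega

/-- RING SITES ARE FAR from the neighbours of a coarse block: `u = rt s (r + 1, y')`, `|y' - k w| ≤ w/2 + 1`, the other site is
`rc (r + 1) (2 (r+1) s₂ + y₂)`, outside the triple of `(s, k)`.  Same proof (`rc_side`). -/
theorem ring_far {w r s k s₂ y₂ y' : ℤ} (hw : w % 2 = 1) (hw0 : 2 ≤ w)
    (hk : |k| * w + 4 * w ≤ r + 1) (hy : |y₂| + 4 * w ≤ r + 1)
    (h1 : 2 * (r + 1) * s + ((k + 1) * w + w / 2) < 2 * (r + 1) * s₂ + y₂)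
    (h2 : 2 * (r + 1) * s₂ + y₂ < 2 * (r + 1) * (s + 4) + ((k - 1) * w - w / 2))
    (hy' : |y' - k * w| ≤ w / 2 + 1) :
    w - 1 ≤ nrm (rt s (r + 1, y') - rc (r + 1) (2 * (r + 1) * s₂ + y₂)) := by
  have e1 : |k| * w = |k * w| := by rw [abs_mul, abs_of_pos (show 0 < w by omega)]
  rw [e1] at hk
  have e5 : (k + 1) * w = k * w + w := by ring
  have e6 : (k - 1) * w = k * w - w := by ring
  rw [e5] at h1
  rw [e6] at h2
  obtain ⟨A, hA⟩ : ∃ A, A = k * w := ⟨_, rfl⟩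
  rw [← hA] at hk h1 h2 hy'
  have hk1 := abs_le.1 (show |A| ≤ r + 1 - 4 * w by omega)
  have hy1 := abs_le.1 (show |y₂| ≤ r + 1 - 4 * w by omega)
  have hy2 := abs_le.1 hy'
  have hr1 : 0 < r + 1 := by have := abs_nonneg A; omega
  rw [rc_side (m := r + 1) (by omega) (by omega)]
  by_cases hs : s % 4 = s₂ % 4
  · refine le_trans ?_ (side_near hs)
    obtain ⟨n, hn⟩ : ∃ n, s₂ = s + 4 * n := ⟨s₂ / 4 - s / 4, by omega⟩
    subst hn
    have e3 : 2 * (r + 1) * (s + 4 * n) = 2 * (r + 1) * s + 8 * ((r + 1) * n) := by ring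
    have e4 : 2 * (r + 1) * (s + 4) = 2 * (r + 1) * s + 8 * (r + 1) := by ring
    rw [e3] at h1 h2
    rw [e4] at h2
    have hn0 : 0 ≤ n := by
      by_contra hc
      have : (r + 1) * n ≤ (r + 1) * (-1) := mul_le_mul_of_nonneg_left (by omega) hr1.le
      omega
    have hn1 : n ≤ 1 := by
      by_contra hc
      have : (r + 1) * 2 ≤ (r + 1) * n := mul_le_mul_of_nonneg_left (by omega) hr1.le
      omega
    have hn2 : n = 0 ∨ n = 1 := by omega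
    rcases hn2 with rfl | rfl
    · rw [mul_zero] at h1 h2
      rw [abs_sub_comm]
      exact le_trans (by omega) (le_abs_self _)
    · rw [mul_one] at h1 h2
      exact le_trans (by omega) (le_abs_self _)
  · refine le_trans (show w - 1 ≤ w by omega) (side_far (m := r + 1) (by omega) (by omega) hs
      (by omega) (by omega) ?_ ?_)
    · rw [abs_le]
      omega
    · rw [abs_le]
      omega

end SC

end

/-! ### from `Lib_MP_e0a489.SH9` -/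

section

/-!
# MP_e0a489, shared by OS and IS, 9: a good landing position, version without corner events
-/

set_option autoImplicit false

namespace SC

open Classical

namespace Lat

variable {L : Lat}

/-- GOOD POSITION, the site being far from the corners by hypothesis.  `V` is a component of `D \ C`,
`x = rc m (2 m s + y) ∈ V` a site of the ring with a path of colour `c` in the region to a far site; the sites of `C` on the
ring near `x` have paths of colour `!c` to far sites.  If the bad event (its part with the alternate triples) does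
not occur there is a cell of size `w` near `x` whose triple lies in `V`.
Proof.  `z = 2 m s + y`, `Z = {i | rc m i ∈ C}`, `z ∉ Z`.  If `Z` had elements on both sides of `z` within `6 w`, `tri_of`
(with `c` replaced by `!c`, `a = 12 w`) would give the bad event.  So `good_cell` gives `k`.  The arc between `z` and the
triple, `arc m (min ..) (max ..)`, is connected (`con_arc`), lies in `rng m \ C ⊆ D \ C` (`rc_nrm`) and contains
`x ∈ V`, so it is contained in `V` (`Comp.absorb`); it contains `trip w m s k`. -/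
theorem good_pos' {o c : Bool} {m w ρ ℓ β s y : ℤ} {D D' E C V : Set Pt} {ω : Cfg} {v : Pt}
    (hw : w % 2 = 1) (hw0 : 0 < w) (hβ : 8 ≤ β) (hwβ : 48 * w ≤ β) (hy : |y| + 4 * β ≤ m)
    (hm : 1 ≤ m) (hbad : ¬ L.BadW o D' m ρ ℓ β (12 * w) ω) (hE : E ⊆ reg o m)
    (hring : rng m ⊆ D) (hV : L.Comp (D \ C) V) (hz : rc m (2 * m * s + y) ∈ V)
    (hp : L.Cn (E ∩ L.col c ω) (rc m (2 * m * s + y)) v)
    (hv : 3 * β ≤ nrm (v - rc m (2 * m * s + y)))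
    (hC : ∀ i, |i - (2 * m * s + y)| ≤ 6 * w → rc m i ∈ C →
      ∃ v, L.Cn (E ∩ L.col (!c) ω) (rc m i) v ∧ 3 * β ≤ nrm (v - rc m (2 * m * s + y))) :
    ∃ k : ℤ, k ≠ 0 ∧ y - 6 * w ≤ (k - 1) * w - w / 2 ∧
      (k + 1) * w + w / 2 ≤ y + 6 * w ∧ trip w m s k ⊆ V := by
  have hzZ : 2 * m * s + y ∉ {i : ℤ | rc m i ∈ C} := (hV.sub hz).2
  have hns : ¬ ((∃ i ∈ {i : ℤ | rc m i ∈ C}, 2 * m * s + y - 6 * w ≤ i ∧ i < 2 * m * s + y) ∧
      ∃ j ∈ {i : ℤ | rc m i ∈ C}, 2 * m * s + y < j ∧ j ≤ 2 * m * s + y + 6 * w) := by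
    rintro ⟨⟨i, hi, hi1, hi2⟩, ⟨j, hj, hj1, hj2⟩⟩
    have hi' : rc m i ∈ C := hi
    have hj' : rc m j ∈ C := hj
    obtain ⟨v₁, q₁, f₁⟩ := hC i (abs_le.2 ⟨by omega, by omega⟩) hi'
    obtain ⟨v₃, q₃, f₃⟩ := hC j (abs_le.2 ⟨by omega, by omega⟩) hj'
    apply hbad
    refine tri_of (c := !c) (i₁ := i) (i₃ := j) hβ (by omega) (by omega) hE hi2 hj1 (by omega)
      q₁ ?_ q₃ f₁ hv f₃
    rw [Bool.not_not]
    exact hp
  obtain ⟨k, hk0, hk1, hk2, hk3⟩ := good_cell hw hw0 (by omega) hzZ hns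
  refine ⟨k, hk0, hk1, hk2, ?_⟩
  have hww : 0 ≤ w / 2 := by omega
  have hsub : arc m (min (2 * m * s + y) (2 * m * s + (k - 1) * w - w / 2))
      (max (2 * m * s + y) (2 * m * s + (k + 1) * w + w / 2)) ⊆ V := by
    refine hV.absorb (con_arc hm _ _) ?_ ⟨rc m (2 * m * s + y), ?_, hz⟩
    · rintro v ⟨i, hi1, hi2, rfl⟩
      refine ⟨hring (rc_nrm hm), ?_⟩
      intro hiC
      exact hk3 i hiC ⟨hi1, hi2⟩
    · exact ⟨2 * m * s + y, min_le_left _ _, le_max_left _ _, rfl⟩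
  intro v hvt
  obtain ⟨i, hi1, hi2, rfl⟩ := hvt
  exact hsub ⟨i, (min_le_right _ _).trans hi1, hi2.trans (le_max_right _ _), rfl⟩

end Lat

end SC

end

/-! ### from `Lib_MP_e0a489.TTHD` -/

section

/-!
# MP_e0a489, module TTH: definitions (half plane and corner, two times)
-/

set_option autoImplicit false

namespace SC

open Classical

/-- BEYOND THE CORRELATION LENGTH, half plane: the exponent is larger than one, uniformly (`C`, `c` do not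
depend on `ℓ`, `t`). -/
def KBHOK (L : Lat) (C c : ℝ) (R₀ : ℤ) : Prop :=
  ∀ (ℓ : ℤ) (t : ℝ), R₀ ≤ ℓ → Beyond L R₀ ℓ t → ∀ (s : ℤ) (b : Bool) (x : Pt) (H : Set Pt)
    (r R : ℤ), HalfLike H → ℓ ≤ r → r ≤ R →
      pr2 (kt t) (((L.rots s).shift x).TwoH b H r R) ≤ C * ((r : ℝ) / R) ^ (1 + c)

/-- CHANGE OF THE SCALE: for a larger lag `s` there is a suitable smaller length `ℓ'` (the least one with
`Beyond`, and `R₀` if `s` is large). -/
def ScaleOK (L : Lat) (C : ℝ) (R₀ : ℤ) : Prop :=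
  ∀ (ℓ : ℤ) (t s : ℝ), R₀ ≤ ℓ → Beyond L R₀ ℓ t → t ≤ s → ∃ ℓ' : ℤ, R₀ ≤ ℓ' ∧ ℓ' ≤ ℓ ∧
    Beyond L R₀ ℓ' s ∧ s * Real.exp (-(s / 2)) * ((ℓ' : ℝ) ^ 2 * al L R₀ ℓ') ≤ C ∧
    Real.exp (-(s / 2)) * ℓ' ≤ C * (ℓ * (t / s) ^ ((1 : ℝ) / 2)) ∧
    (ℓ' = R₀ ∨ (ℓ' : ℝ) ≤ 2 * (ℓ * (t / s) ^ ((1 : ℝ) / 2)))

namespace Lat

/-- two clusters of colour `c` crossing the annulus around `y` in the domain `Q` -/
def TwoD (L : Lat) (Q : Set Pt) (c : Bool) (y : Pt) (r R : ℤ) (ω : Cfg) : Prop :=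
  L.Two c (annAt y r R ∩ Q) (L.nb (bxAt y r)) (rngAt y R) ω

/-- the local event: two clusters of colour `c` in `Q` around the site `v`, up to distance `D` (always true if
`D ≤ 0`) -/
def LocE (L : Lat) (Q : Set Pt) (c : Bool) (v : Pt) (D : ℤ) (ω : Cfg) : Prop :=
  1 ≤ D → L.TwoD Q c v 0 D ω

end Lat

/-- Abstract form of the crossing events of annuli in a domain `Q` (half plane: `TwoH`; corner: `TwoQ`) and of
the local events around a pivotal site (`W b v D`: `LocE`). -/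
structure CrE (Q : Set Pt) (E : ℤ → ℤ → Cfg → Prop) (W : Bool → Pt → ℤ → Cfg → Prop) : Prop where
  dep : ∀ r R, Dep (E r R) (ann r R ∩ Q)
  mono : ∀ r R r' R' ω, 0 ≤ r → r ≤ r' → r' < R' → R' ≤ R → E r R ω → E r' R' ω
  depW : ∀ b v D, Dep (W b v D) (bxAt v D ∩ Q)
  piv : ∀ r R v D ω, 0 ≤ r → v ∈ Q → r + 1 + D ≤ nrm v → nrm v + D ≤ R → 8 * D ≤ nrm v →
    Piv v (E r R) ω → ∃ b, W b v D ω

/-- graded sets: `2 r (2 - q ^ j) < nrm v ≤ (R / 4) (1 + q ^ j)` -/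
noncomputable def ttV (Q : Set Pt) (q : ℝ) (r R : ℤ) (j : ℕ) : Finset Pt :=
  (rectF (-R) R (-R) R).filter (fun v => v ∈ Q ∧ 2 * (r : ℝ) * (2 - q ^ j) < (nrm v : ℝ) ∧
    (nrm v : ℝ) ≤ (R : ℝ) / 4 * (1 + q ^ j))

/-- shell: `ρ < nrm v ≤ 2 ρ` -/
noncomputable def ttSh (Q : Set Pt) (ρ : ℤ) : Finset Pt :=
  (rectF (-(2 * ρ)) (2 * ρ) (-(2 * ρ)) (2 * ρ)).filter (fun v => v ∈ Q ∧ ρ < nrm v ∧ nrm v ≤ 2 * ρ)

/-- the ratio of the graded sets -/
noncomputable def ttq (ε : ℝ) : ℝ := (2 : ℝ) ^ (-(ε / 8))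

/-- radius of the local events in the shell `ρ` at the step `j` -/
noncomputable def ttR (q : ℝ) (ρ : ℤ) (j : ℕ) : ℤ := ⌊(1 - q) / 8 * q ^ j * ρ⌋

/-- height function (distance from the boundary of the domain `Q`): on each shell there are at most `C ρ` sites of
a given height -/
structure HtOK (Q : Set Pt) (ht : Pt → ℤ) : Prop where
  nonneg : ∀ v ∈ Q, 0 ≤ ht v
  le : ∀ v ∈ Q, ht v ≤ nrm v
  card : ∀ ρ h : ℤ, 1 ≤ ρ → (((ttSh Q ρ).filter (fun v => ht v = h)).card : ℝ) ≤ 10 * ρ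

/-- LOCAL BOUND: `s e^{-s} P_s(W b v D) ≤ C₁ e^{-s/2} (ℓ / D) ^ ε (1 / (D d)) (d / D) ^ ε`, `d` = distance from the
boundary (at most `D`), where `s ≈ 1 / (ℓ² α(ℓ))`. -/
def LocB (L : Lat) (R₀ : ℤ) (Q : Set Pt) (W : Bool → Pt → ℤ → Cfg → Prop) (ht : Pt → ℤ)
    (C₁ C₃ ε : ℝ) : Prop :=
  ∀ (ℓ : ℤ) (s : ℝ), R₀ ≤ ℓ → Beyond L R₀ ℓ s →
    s * Real.exp (-(s / 2)) * ((ℓ : ℝ) ^ 2 * al L R₀ ℓ) ≤ C₃ → ∀ (b : Bool) (v : Pt) (D : ℤ),
    v ∈ Q → 16 * ℓ ≤ D → 8 * D ≤ nrm v →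
      s * Real.exp (-s) * pr2 (kt s) (W b v D) ≤ C₁ * (Real.exp (-(s / 2)) * (((ℓ : ℝ) / D) ^ ε *
        ((D : ℝ) ^ (-1 - ε) * ((min (ht v + 1) D : ℤ) : ℝ) ^ (ε - 1))))

/-- `pr2 κ (E r R)`, and `1` if the annulus is empty -/
noncomputable def crF (E : ℤ → ℤ → Cfg → Prop) (κ : Pt → ℝ) (r R : ℤ) : ℝ :=
  if r < R then pr2 κ (E r R) else 1

/-- two-time probability of the four arm event, `1` if the annulus is empty -/
noncomputable def atF (L : Lat) (t : ℝ) (b : Bool) (y : Pt) (r R : ℤ) : ℝ :=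
  if r < R then pr2 (kt t) (L.TwoAt b y r R) else 1

/-- two-time probability of the half plane event, `1` if the annulus is empty -/
noncomputable def hfF (L : Lat) (t : ℝ) (b : Bool) (H : Set Pt) (r R : ℤ) : ℝ :=
  if r < R then pr2 (kt t) (L.TwoH b H r R) else 1

/-- BEYOND THE CORRELATION LENGTH, probability from the radius `R₀` (consequence of `KBOK`) -/
def LBKOK (L : Lat) (C c : ℝ) (R₀ : ℤ) : Prop :=
  ∀ (ℓ : ℤ) (s : ℝ), R₀ ≤ ℓ → Beyond L R₀ ℓ s → ∀ (b : Bool) (y : Pt) (d : ℤ), ℓ ≤ d →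
    pr2 (kt s) (L.TwoAt b y R₀ d) ≤ C * (al L R₀ ℓ * ((ℓ : ℝ) / d) ^ (2 + c))

end SC

end

/-! ### from `Lib_MP_e0a489.TTA3` -/

section

/-!
# MP_e0a489, module TTA 3: the pivotal sites factorize
-/

set_option autoImplicit false

namespace SC

open Classical

variable {Q : Set Pt} {E : ℤ → ℤ → Cfg → Prop} {W : Bool → Pt → ℤ → Cfg → Prop}

private theorem tta3_dep (h : CrE Q E W) (a b : ℤ) :
    Dep (fun ω => a < b → E a b ω) (ann a b ∩ Q) :=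
  (h.dep a b).comp (fun P => (a < b → P))

private theorem tta3_nn (A : Cfg → Prop) (ω : Cfg) : 0 ≤ ind A ω := by
  unfold ind
  split_ifs
  · exact zero_le_one
  · exact le_refl _

private theorem tta3_true (κ : Pt → ℝ) : pr2 κ (fun _ => True) = 1 := by
  have h1 : Dep (ind (fun _ => True)) (∅ : Set Pt) := by
    intro ω ω' _
    rfl
  have h2 : Lf (ind (fun _ => True)) := ⟨∅, by
    intro ω ω' _
    rfl⟩
  unfold pr2
  rw [ex2_one h2 h2 h1 κ (fun v hv => absurd hv (Set.notMem_empty v))]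
  have h3 : (fun ω => ind (fun _ => True) ω * ind (fun _ => True) ω) = fun _ : Cfg => (1 : ℝ) := by
    funext ω
    unfold ind
    rw [if_pos trivial, mul_one]
  rw [h3]
  exact ex_const 1

private theorem tta3_crF (κ : Pt → ℝ) (a b : ℤ) :
    pr2 κ (fun ω => a < b → E a b ω) = crF E κ a b := by
  unfold crF
  by_cases hab : a < b
  · rw [if_pos hab]
    congr 1
    funext ω
    exact propext ⟨fun h => h hab, fun h _ => h⟩
  · rw [if_neg hab]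
    have e : (fun ω => a < b → E a b ω) = fun _ => True := by
      funext ω
      exact propext ⟨fun _ => trivial, fun _ h => absurd h hab⟩
    rw [e]
    exact tta3_true κ

/-- If `v` is pivotal for `E r R` then `E r R` holds for `update ω v true` or for `update ω v false`, hence
(`CrE.mono`) `E r' R'` holds for this configuration, hence (`CrE.dep`, `v ∉ ann r' R'`) for `ω`. -/
theorem CrE.piv_ann (h : CrE Q E W) {r R r' R' : ℤ} {v : Pt} {ω : Cfg} (hr : 0 ≤ r)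
    (h1 : r ≤ r') (h2 : r' < R') (h3 : R' ≤ R) (hv : v ∉ ann r' R') (hp : Piv v (E r R) ω) :
    E r' R' ω := by
  have h0 : ∃ b, E r R (Function.update ω v b) := by
    by_contra hn
    push Not at hn
    exact hp ⟨fun h => absurd h (hn true), fun h => absurd h (hn false)⟩
  obtain ⟨b, hb⟩ := h0
  have h4 := h.mono r R r' R' _ hr h1 h2 h3 hb
  have h5 : E r' R' (Function.update ω v b) = E r' R' ω := by
    refine h.dep r' R' _ _ (fun u hu => ?_)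
    have hne : u ≠ v := fun he => hv (he ▸ hu.1)
    rw [Function.update_of_ne hne]
  rw [← h5]
  exact h4

/-- a finite set containing the annulus / the ball (`rectF`), so the events are local -/
theorem CrE.loc (h : CrE Q E W) (r R : ℤ) : Loc (E r R) := by
  refine ⟨rectF (-R) R (-R) R, (h.dep r R).mono ?_⟩
  rintro z ⟨⟨-, hz⟩, -⟩
  have h1 : |z.1| ≤ nrm z := le_max_left _ _
  have h2 : |z.2| ≤ nrm z := le_max_right _ _
  rw [abs_le] at h1 h2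
  unfold rectF
  rw [Finset.mem_coe, Finset.mem_product, Finset.mem_Icc, Finset.mem_Icc]
  exact ⟨⟨by linarith, by linarith⟩, by linarith, by linarith⟩

theorem CrE.locW (h : CrE Q E W) (b : Bool) (v : Pt) (D : ℤ) : Loc (W b v D) := by
  refine ⟨rectF (v.1 - D) (v.1 + D) (v.2 - D) (v.2 + D), (h.depW b v D).mono ?_⟩
  rintro z ⟨hz, -⟩
  have hz' : nrm (z - v) ≤ D := hz
  have h1 : |z.1 - v.1| ≤ nrm (z - v) := le_max_left _ _
  have h2 : |z.2 - v.2| ≤ nrm (z - v) := le_max_right _ _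
  rw [abs_le] at h1 h2
  unfold rectF
  rw [Finset.mem_coe, Finset.mem_product, Finset.mem_Icc, Finset.mem_Icc]
  exact ⟨⟨by linarith, by linarith⟩, by linarith, by linarith⟩

private theorem tta3_loc (h : CrE Q E W) (a b : ℤ) : Loc (fun ω => a < b → E a b ω) := by
  obtain ⟨F, hF⟩ := h.loc a b
  exact ⟨F, hF.comp (fun P => (a < b → P))⟩

/-- FACTORIZATION.  `Piv v (E r R)` implies `E r ρ` (if `r < ρ`), `E (8 ρ) R` (if `8 ρ < R`) (`piv_ann`) and `W true v D` or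
`W false v D` (`CrE.piv`: `r + 1 + D ≤ 2 ρ + 1 ≤ nrm v` as `4 D ≤ ρ`, `nrm v + D ≤ 2 nrm v ≤ R`).  Let
`A ω = (r < ρ → E r ρ ω) ∧ (8 ρ < R → E (8 ρ) R ω)`, `A_b = A ∧ W b v D`.  `ind (Piv v (E r R)) ≤ ind A_true + ind A_false`;
`ex2_mono`, `ex2_add_le`: `pr2 κ (Piv ..) ≤ 2 pr2 κ A_true + 2 pr2 κ A_false`.  The three events depend on the disjoint sets
`ann r ρ`, `ann (8 ρ) R`, `bxAt v D` (for `z ∈ bxAt v D`: `ρ < 2 ρ - D < nrm z ≤ 4 ρ + D ≤ 8 ρ`; `XP.nrm_tri`), so by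
`ex2_mul` (`ind (A ∧ B) = ind A * ind B`) `pr2 κ A_b = crF E κ r ρ * crF E κ (8 ρ) R * pr2 κ (W b v D)`; an event which is
always true has `pr2 = 1` (constant function; `ex2_one` or `ex2_eq`). -/
theorem piv_fac (h : CrE Q E W) {κ : Pt → ℝ} (hκ : ∀ v, 0 ≤ κ v ∧ κ v ≤ 1) {r R ρ D : ℤ}
    {v : Pt} (hr : 1 ≤ r) (hρ : r ≤ ρ) (hv : v ∈ Q) (h1 : 2 * ρ < nrm v) (h2 : nrm v ≤ 4 * ρ)
    (h3 : 4 * D ≤ ρ) (h4 : 2 * nrm v ≤ R) :
    pr2 κ (Piv v (E r R)) ≤ 2 * (crF E κ r ρ * crF E κ (8 * ρ) R *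
      (pr2 κ (W true v D) + pr2 κ (W false v D))) := by
  have hr0 : 0 ≤ r := by linarith
  have hρ1 : 1 ≤ ρ := by linarith
  have hρR : ρ ≤ R := by linarith
  have l1 : Loc (fun ω => r < ρ → E r ρ ω) := tta3_loc h r ρ
  have l2 : Loc (fun ω => 8 * ρ < R → E (8 * ρ) R ω) := tta3_loc h (8 * ρ) R
  have lW : ∀ b, Loc (W b v D) := fun b => h.locW b v D
  have lA : ∀ b, Loc (fun ω => (r < ρ → E r ρ ω) ∧ ((8 * ρ < R → E (8 * ρ) R ω) ∧ W b v D ω)) :=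
    fun b => Loc.and l1 (Loc.and l2 (lW b))
  have lP : Loc (Piv v (E r R)) := by
    obtain ⟨F, hF⟩ := h.loc r R
    exact ⟨F, (hF.piv v).mono Set.sdiff_subset⟩
  -- inclusion
  have hinc : ∀ ω, ind (Piv v (E r R)) ω ≤
      ind (fun ω => (r < ρ → E r ρ ω) ∧ ((8 * ρ < R → E (8 * ρ) R ω) ∧ W true v D ω)) ω +
      ind (fun ω => (r < ρ → E r ρ ω) ∧ ((8 * ρ < R → E (8 * ρ) R ω) ∧ W false v D ω)) ω := by
    intro ω
    by_cases hp : Piv v (E r R) ω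
    · have a1 : r < ρ → E r ρ ω := fun hlt =>
        h.piv_ann hr0 (le_refl _) hlt hρR (fun hm => absurd hm.2 (by omega)) hp
      have a2 : 8 * ρ < R → E (8 * ρ) R ω := fun hlt =>
        h.piv_ann hr0 (by linarith) hlt (le_refl _) (fun hm => absurd hm.1 (by omega)) hp
      obtain ⟨b, hb⟩ := h.piv r R v D ω hr0 hv (by omega) (by omega) (by omega) hp
      have e1 : ind (Piv v (E r R)) ω = 1 := if_pos hp
      rw [e1]
      cases b with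
      | true =>
        have e2 : ind (fun ω => (r < ρ → E r ρ ω) ∧
            ((8 * ρ < R → E (8 * ρ) R ω) ∧ W true v D ω)) ω = 1 := if_pos ⟨a1, a2, hb⟩
        rw [e2]
        have := tta3_nn (fun ω => (r < ρ → E r ρ ω) ∧
            ((8 * ρ < R → E (8 * ρ) R ω) ∧ W false v D ω)) ω
        linarith
      | false =>
        have e2 : ind (fun ω => (r < ρ → E r ρ ω) ∧
            ((8 * ρ < R → E (8 * ρ) R ω) ∧ W false v D ω)) ω = 1 := if_pos ⟨a1, a2, hb⟩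
        rw [e2]
        have := tta3_nn (fun ω => (r < ρ → E r ρ ω) ∧
            ((8 * ρ < R → E (8 * ρ) R ω) ∧ W true v D ω)) ω
        linarith
    · have e1 : ind (Piv v (E r R)) ω = 0 := if_neg hp
      rw [e1]
      exact add_nonneg (tta3_nn _ ω) (tta3_nn _ ω)
  -- factorization
  have hfac : ∀ b, pr2 κ (fun ω => (r < ρ → E r ρ ω) ∧
      ((8 * ρ < R → E (8 * ρ) R ω) ∧ W b v D ω)) =
      crF E κ r ρ * (crF E κ (8 * ρ) R * pr2 κ (W b v D)) := by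
    intro b
    have d1 := tta3_dep h r ρ
    have d2 := tta3_dep h (8 * ρ) R
    have d3 := h.depW b v D
    have d23 : Dep (fun ω => (8 * ρ < R → E (8 * ρ) R ω) ∧ W b v D ω)
        ((ann (8 * ρ) R ∩ Q) ∪ (bxAt v D ∩ Q)) := d2.comp2 d3 And
    have e1 := pr2_and l1 (Loc.and l2 (lW b)) d1 d23 (by
      rintro z ⟨⟨_, hz2⟩, _⟩ (⟨⟨hz3, _⟩, _⟩ | ⟨hz3, _⟩)
      · omega
      · have hz3' : nrm (z - v) ≤ D := hz3
        have h5 := XP.nrm_tri v z 0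
        rw [sub_zero, sub_zero, XP.nrm_comm v z] at h5
        omega) κ
    have e2 := pr2_and l2 (lW b) d2 d3 (by
      rintro z ⟨⟨hz1, _⟩, _⟩ ⟨hz3, _⟩
      have hz3' : nrm (z - v) ≤ D := hz3
      have h5 := XP.nrm_tri z v 0
      rw [sub_zero, sub_zero] at h5
      omega) κ
    rw [e1, e2, tta3_crF, tta3_crF]
  have e1 : pr2 κ (Piv v (E r R)) ≤
      ex2 κ (fun ω => ind (fun ω => (r < ρ → E r ρ ω) ∧
            ((8 * ρ < R → E (8 * ρ) R ω) ∧ W true v D ω)) ω +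
          ind (fun ω => (r < ρ → E r ρ ω) ∧
            ((8 * ρ < R → E (8 * ρ) R ω) ∧ W false v D ω)) ω)
        (fun ω => ind (fun ω => (r < ρ → E r ρ ω) ∧
            ((8 * ρ < R → E (8 * ρ) R ω) ∧ W true v D ω)) ω +
          ind (fun ω => (r < ρ → E r ρ ω) ∧
            ((8 * ρ < R → E (8 * ρ) R ω) ∧ W false v D ω)) ω) := by
    unfold pr2
    exact ex2_mono lP.lf lP.lf ((lA true).lf.add (lA false).lf) ((lA true).lf.add (lA false).lf) κ hκ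
      (fun ω => tta3_nn _ ω) (fun ω => tta3_nn _ ω) hinc hinc
  have e2 := ex2_add_le (lA true).lf (lA false).lf κ (fun v => (hκ v).1)
  have e3 : ∀ b, ex2 κ (ind fun ω => (r < ρ → E r ρ ω) ∧
      ((8 * ρ < R → E (8 * ρ) R ω) ∧ W b v D ω)) (ind fun ω => (r < ρ → E r ρ ω) ∧
      ((8 * ρ < R → E (8 * ρ) R ω) ∧ W b v D ω)) =
      crF E κ r ρ * (crF E κ (8 * ρ) R * pr2 κ (W b v D)) := hfac
  rw [e3 true, e3 false] at e2
  refine (e1.trans e2).trans (le_of_eq ?_)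
  ring

end SC

end

/-! ### from `Lib_MP_e0a489.TTA5` -/

section

/-!
# MP_e0a489, module TTA 5: the sum over the times (real numbers only)

`q = ttq ε = 2 ^ (-ε/8)`, `c₀ = (1 - q) / 8`, `s = 2 ^ j t`, `D = ttR q ρ j = ⌊c₀ q ^ j ρ⌋`.
-/

set_option autoImplicit false

namespace SC

open Classical

theorem ttq_mem {ε : ℝ} (hε : 0 < ε) : 0 < ttq ε ∧ ttq ε < 1 := by
  unfold ttq
  exact ⟨Real.rpow_pos_of_pos (by norm_num) _,
    Real.rpow_lt_one_of_one_lt_of_neg (by norm_num) (by linarith)⟩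

private theorem tta5_qj (ε : ℝ) (j : ℕ) : ttq ε ^ j = (2 : ℝ) ^ (-(ε / 8) * j) := by
  unfold ttq
  rw [Real.rpow_mul (by norm_num), Real.rpow_natCast]

private theorem tta5_w {t : ℝ} (ht : 0 < t) (j : ℕ) :
    (t / (2 ^ j * t)) ^ ((1 : ℝ) / 2) = (2 : ℝ) ^ (-((j : ℝ) / 2)) := by
  have h1 : t / (2 ^ j * t) = (2 : ℝ) ^ (-(j : ℝ)) := by
    rw [Real.rpow_neg (by norm_num), Real.rpow_natCast]
    field_simp
  rw [h1, ← Real.rpow_mul (by norm_num)]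
  congr 1
  ring

private theorem tta5_floor {ε : ℝ} (ρ : ℤ) (j : ℕ) :
    (1 - ttq ε) / 8 * ttq ε ^ j * ρ < (ttR (ttq ε) ρ j : ℝ) + 1 := by
  unfold ttR
  exact Int.lt_floor_add_one _

private theorem tta5_exp {s : ℝ} (hs : 0 ≤ s) : s ^ 2 * Real.exp (-s) ≤ 1 := by
  have h1 : (1 + s / 4) ^ 4 ≤ Real.exp s := by
    have h2 : Real.exp s = Real.exp (s / 4) ^ 4 := by
      rw [← Real.exp_nat_mul]
      congr 1
      push_cast
      ring
    rw [h2]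
    have h3 := Real.add_one_le_exp (s / 4)
    exact pow_le_pow_left₀ (by positivity) (by linarith) 4
  have h4 : s ^ 2 ≤ (1 + s / 4) ^ 4 := by
    have h5 : s ≤ (1 + s / 4) ^ 2 := by nlinarith [sq_nonneg (1 - s / 4)]
    calc s ^ 2 ≤ ((1 + s / 4) ^ 2) ^ 2 := pow_le_pow_left₀ hs h5 2
      _ = (1 + s / 4) ^ 4 := by ring
  have h6 : s ^ 2 ≤ Real.exp s := le_trans h4 h1
  rw [Real.exp_neg]
  have h7 := Real.exp_pos s
  rw [← div_eq_mul_inv, div_le_one h7]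
  exact h6

/-- CASE `D ≥ 16 ℓ'`.  `t / s = 2 ^ (-j)`.  Since `ε ≤ 1`, `e^{-s/2} ≤ (e^{-s/2}) ^ ε`, so
`e^{-s/2} (ℓ'/D) ^ ε ≤ (e^{-s/2} ℓ' / D) ^ ε ≤ (C₃ ℓ 2^(-j/2) / D) ^ ε`.  As `D ≥ 16`, `D ≥ c₀ q ^ j ρ - 1` gives
`D ≥ c₀ q ^ j ρ / 2`, so `ρ / D ≤ (2 / c₀) q ^ (-j)`.  Total: at most
`C₃ ^ ε (2 / c₀) ^ (2 + ε) (ℓ / ρ) ^ ε 2^(-j ε / 2) q ^ (-j (2 + ε))`, and `2^(-ε/2) q ^ (-(2+ε)) ≤ q` because
`q ^ (3 + ε) = 2 ^ (-ε (3 + ε) / 8) ≥ 2 ^ (-ε / 2)`. -/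
theorem time_a {ε C₃ : ℝ} (hε : 0 < ε ∧ ε ≤ 1) (hC : 0 < C₃) : ∃ C : ℝ, 0 < C ∧
    ∀ (ℓ ℓ' ρ : ℤ) (t : ℝ) (j : ℕ), 1 ≤ ℓ → 1 ≤ ℓ' → 1 ≤ ρ → 0 < t →
      16 * ℓ' ≤ ttR (ttq ε) ρ j →
      Real.exp (-(2 ^ j * t / 2)) * ℓ' ≤ C₃ * (ℓ * (t / (2 ^ j * t)) ^ ((1 : ℝ) / 2)) →
      Real.exp (-(2 ^ j * t / 2)) * (((ℓ' : ℝ) / ttR (ttq ε) ρ j) ^ ε *
        ((ρ : ℝ) / ttR (ttq ε) ρ j) ^ 2) ≤ C * (ttq ε ^ j * ((ℓ : ℝ) / ρ) ^ ε) := by
  obtain ⟨hq0, hq1⟩ := ttq_mem hε.1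
  set q := ttq ε with hq
  have hc0 : 0 < (1 - q) / 8 := by linarith
  set c₀ := (1 - q) / 8 with hc
  have hB : 0 < 2 / c₀ := by positivity
  refine ⟨C₃ ^ ε * ((2 / c₀) ^ ε * (2 / c₀) ^ 2), by positivity, ?_⟩
  intro ℓ ℓ' ρ t j hℓ hℓ' hρ ht hD hw
  rw [tta5_w ht j] at hw
  have hD16 : (16 : ℝ) * ℓ' ≤ (ttR q ρ j : ℝ) := by exact_mod_cast hD
  have hℓr : (1 : ℝ) ≤ ℓ := by exact_mod_cast hℓ
  have hℓr' : (1 : ℝ) ≤ ℓ' := by exact_mod_cast hℓ'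
  have hρr : (1 : ℝ) ≤ ρ := by exact_mod_cast hρ
  set D : ℝ := (ttR q ρ j : ℝ) with hDdef
  have hfl : c₀ * q ^ j * ρ < D + 1 := tta5_floor (ε := ε) ρ j
  have hDpos : 0 < D := by linarith
  have hqj : 0 < q ^ j := pow_pos hq0 j
  set e := Real.exp (-(2 ^ j * t / 2)) with he
  have he0 : 0 < e := Real.exp_pos _
  have he1 : e ≤ 1 := by
    rw [he, ← Real.exp_zero]
    refine Real.exp_le_exp.2 ?_
    have : (0 : ℝ) < 2 ^ j * t := by positivity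
    linarith
  set w : ℝ := (2 : ℝ) ^ (-((j : ℝ) / 2)) with hwd
  have hw0 : 0 < w := Real.rpow_pos_of_pos (by norm_num) _
  have ha : (ρ : ℝ) / D ≤ 2 / c₀ * (q ^ j)⁻¹ := by
    rw [div_le_iff₀ hDpos]
    have h1 : c₀ * q ^ j * ρ ≤ 2 * D := by linarith
    have h2 : 2 / c₀ * (q ^ j)⁻¹ * D = 2 * D / (c₀ * q ^ j) := by
      field_simp
    rw [h2, le_div_iff₀ (by positivity)]
    linarith
  have ha0 : 0 < (ρ : ℝ) / D := by positivity
  set a := (ρ : ℝ) / D with had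
  set A := 2 / c₀ * (q ^ j)⁻¹ with hA
  have hA0 : 0 < A := by positivity
  have hX0 : 0 < (ℓ : ℝ) / ρ := by positivity
  set X := (ℓ : ℝ) / ρ with hX
  have hee : e ≤ e ^ ε := by
    have := Real.rpow_le_rpow_of_exponent_ge he0 he1 hε.2
    rwa [Real.rpow_one] at this
  have s1 : e * ((ℓ' : ℝ) / D) ^ ε ≤ (C₃ * (X * (w * a))) ^ ε := by
    have h1 : e * ((ℓ' : ℝ) / D) ^ ε ≤ e ^ ε * ((ℓ' : ℝ) / D) ^ ε :=
      mul_le_mul_of_nonneg_right hee (by positivity)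
    have h2 : e ^ ε * ((ℓ' : ℝ) / D) ^ ε = (e * ((ℓ' : ℝ) / D)) ^ ε :=
      (Real.mul_rpow he0.le (by positivity)).symm
    have h3 : e * ((ℓ' : ℝ) / D) ≤ C₃ * (X * (w * a)) := by
      have h4 : C₃ * (X * (w * a)) = C₃ * (ℓ * w) / D := by
        rw [hX, had]
        field_simp
      rw [h4, ← mul_div_assoc]
      exact div_le_div_of_nonneg_right hw hDpos.le
    rw [h2] at h1
    exact le_trans h1 (Real.rpow_le_rpow (by positivity) h3 hε.1.le)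
  have s2 : (C₃ * (X * (w * a))) ^ ε ≤ (C₃ * (X * (w * A))) ^ ε := by
    refine Real.rpow_le_rpow (by positivity) ?_ hε.1.le
    gcongr
  have s3 : a ^ 2 ≤ A ^ 2 := pow_le_pow_left₀ ha0.le ha 2
  have s4 : e * (((ℓ' : ℝ) / D) ^ ε * a ^ 2) ≤ (C₃ * (X * (w * A))) ^ ε * A ^ 2 := by
    rw [← mul_assoc]
    exact mul_le_mul (le_trans s1 s2) s3 (by positivity) (by positivity)
  have s5 : (C₃ * (X * (w * A))) ^ ε * A ^ 2
      = C₃ ^ ε * ((2 / c₀) ^ ε * (2 / c₀) ^ 2) * (X ^ ε * (w ^ ε * ((q ^ j)⁻¹) ^ ε * ((q ^ j)⁻¹) ^ 2)) := by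
    rw [Real.mul_rpow hC.le (by positivity), Real.mul_rpow hX0.le (by positivity),
      Real.mul_rpow hw0.le hA0.le, hA, Real.mul_rpow hB.le (by positivity)]
    ring
  have s6 : w ^ ε * ((q ^ j)⁻¹) ^ ε * ((q ^ j)⁻¹) ^ 2 ≤ q ^ j := by
    have e1 : q ^ j = (2 : ℝ) ^ (-(ε / 8) * j) := tta5_qj ε j
    have e2 : (q ^ j)⁻¹ = (2 : ℝ) ^ ((ε / 8) * j) := by
      rw [e1, ← Real.rpow_neg (by norm_num)]
      congr 1
      ring
    rw [e2, hwd, ← Real.rpow_mul (by norm_num), ← Real.rpow_mul (by norm_num),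
      ← Real.rpow_natCast, ← Real.rpow_mul (by norm_num), ← Real.rpow_add (by norm_num),
      ← Real.rpow_add (by norm_num), e1]
    refine Real.rpow_le_rpow_of_exponent_le (by norm_num) ?_
    push_cast
    have hj : (0 : ℝ) ≤ j := Nat.cast_nonneg j
    have : 0 ≤ ε * j * (1 - ε) := by
      have := hε.1.le
      have h1 : 0 ≤ 1 - ε := by linarith [hε.2]
      positivity
    nlinarith
  calc e * (((ℓ' : ℝ) / D) ^ ε * a ^ 2) ≤ (C₃ * (X * (w * A))) ^ ε * A ^ 2 := s4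
    _ = C₃ ^ ε * ((2 / c₀) ^ ε * (2 / c₀) ^ 2) * (X ^ ε * (w ^ ε * ((q ^ j)⁻¹) ^ ε * ((q ^ j)⁻¹) ^ 2)) := s5
    _ ≤ C₃ ^ ε * ((2 / c₀) ^ ε * (2 / c₀) ^ 2) * (X ^ ε * q ^ j) := by
        refine mul_le_mul_of_nonneg_left ?_ (by positivity)
        exact mul_le_mul_of_nonneg_left s6 (by positivity)
    _ = C₃ ^ ε * ((2 / c₀) ^ ε * (2 / c₀) ^ 2) * (q ^ j * X ^ ε) := by ring

/-- CASE `D < 16 ℓ'`.  `c₀ q ^ j ρ < D + 1 ≤ 16 ℓ' < 17 ℓ'`.
If `ℓ' ≤ 2 ℓ (t / s) ^ (1/2) = 2 ℓ 2^(-j/2)` then `c₀ q ^ j ρ < 34 ℓ 2^(-j/2)`, so `ρ / ℓ < (34 / c₀) (2^(-1/2) / q) ^ j ≤ 34 / c₀`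
(as `q = 2 ^ (-ε/8) ≥ 2^(-1/2)`): impossible if `Λ ≥ 34 / c₀`.
So `ℓ' = R₀` and `q ^ j ρ ≤ K := 17 R₀ / c₀`, `ρ ≤ K 2 ^ (j ε / 8) ≤ K 2 ^ (j / 64)`.  From `t ≥ 1 / ℓ ^ 2 ≥ 1 / ρ ^ 2`: `s ≥ 2 ^ j / ρ ^ 2`.
`s e^{-s} ≤ 1 / s`.  So the left side is at most `25 ρ ^ 2 / s ≤ 25 ρ ^ 4 / 2 ^ j`.  Since `(ℓ / ρ) ^ ε ≥ ρ ^ (-ε) ≥ 1 / ρ`, and
`25 ρ ^ 5 ≤ 25 K ^ 5 2 ^ (5 j / 64) ≤ 25 K ^ 5 2 ^ (j / 2) ≤ 25 K ^ 5 2 ^ j q ^ j`, the claim holds with
`C = 25 K ^ 5`. -/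
theorem time_b {ε : ℝ} {R₀ : ℤ} (hε : 0 < ε ∧ ε ≤ 1 / 8) (hR : 1 ≤ R₀) :
    ∃ (C : ℝ) (Λ : ℤ), 0 < C ∧ 1 ≤ Λ ∧
    ∀ (ℓ ℓ' ρ : ℤ) (t : ℝ) (j : ℕ), R₀ ≤ ℓ → R₀ ≤ ℓ' → Λ * ℓ ≤ ρ → 1 ≤ t * (ℓ : ℝ) ^ 2 →
      ttR (ttq ε) ρ j < 16 * ℓ' →
      (ℓ' = R₀ ∨ (ℓ' : ℝ) ≤ 2 * (ℓ * (t / (2 ^ j * t)) ^ ((1 : ℝ) / 2))) →
      2 ^ j * t * Real.exp (-(2 ^ j * t)) * (25 * (ρ : ℝ) ^ 2) ≤
        C * (ttq ε ^ j * ((ℓ : ℝ) / ρ) ^ ε) := by
  obtain ⟨hq0, hq1⟩ := ttq_mem hε.1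
  set q := ttq ε with hq
  have hc0 : 0 < (1 - q) / 8 := by linarith
  set c₀ := (1 - q) / 8 with hc
  have hRr : (1 : ℝ) ≤ R₀ := by exact_mod_cast hR
  have hK : 0 < 17 * (R₀ : ℝ) / c₀ := by positivity
  have hΛ1 : 1 ≤ ⌈34 / c₀⌉ := by
    have : (0 : ℝ) < 34 / c₀ := by positivity
    exact Int.one_le_ceil_iff.2 this
  refine ⟨25 * (17 * (R₀ : ℝ) / c₀) ^ 5, ⌈34 / c₀⌉, by positivity, hΛ1, ?_⟩
  set K := 17 * (R₀ : ℝ) / c₀ with hKd
  intro ℓ ℓ' ρ t j hℓ hℓ' hΛ ht hD hor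
  have hℓr : (1 : ℝ) ≤ ℓ := by exact_mod_cast le_trans hR hℓ
  have hℓr' : (1 : ℝ) ≤ ℓ' := by exact_mod_cast le_trans hR hℓ'
  have htpos : 0 < t := by
    by_contra hneg
    have : t * (ℓ : ℝ) ^ 2 ≤ 0 := mul_nonpos_of_nonpos_of_nonneg (not_lt.1 hneg) (by positivity)
    linarith
  rw [tta5_w htpos j] at hor
  have hΛr : (34 / c₀) * (ℓ : ℝ) ≤ ρ := by
    have h1 : (34 / c₀ : ℝ) ≤ (⌈34 / c₀⌉ : ℝ) := Int.le_ceil _
    have h2 : (((⌈34 / c₀⌉ * ℓ : ℤ)) : ℝ) ≤ (ρ : ℝ) := by exact_mod_cast hΛ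
    push_cast at h2
    have h3 : (34 / c₀) * (ℓ : ℝ) ≤ (⌈34 / c₀⌉ : ℝ) * ℓ :=
      mul_le_mul_of_nonneg_right h1 (by linarith)
    linarith
  have hℓρ : (ℓ : ℝ) ≤ ρ := by
    have h2 : (((⌈34 / c₀⌉ * ℓ : ℤ)) : ℝ) ≤ (ρ : ℝ) := by exact_mod_cast hΛ
    push_cast at h2
    have h3 : (1 : ℝ) ≤ (⌈34 / c₀⌉ : ℝ) := by exact_mod_cast hΛ1
    nlinarith
  have hρr : (1 : ℝ) ≤ ρ := le_trans hℓr hℓρ
  have hfl : c₀ * q ^ j * ρ < (ttR q ρ j : ℝ) + 1 := tta5_floor (ε := ε) ρ j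
  have hD' : (ttR q ρ j : ℝ) + 1 ≤ 16 * ℓ' := by exact_mod_cast hD
  have hqj : 0 < q ^ j := pow_pos hq0 j
  have hqj1 : q ^ j ≤ 1 := pow_le_one₀ hq0.le hq1.le
  have hj : (0 : ℝ) ≤ j := Nat.cast_nonneg j
  rcases hor with hor | hor
  · -- `ℓ' = R₀`
    have h1 : q ^ j * ρ ≤ K := by
      rw [hKd, le_div_iff₀ hc0]
      have h2 : (ℓ' : ℝ) = R₀ := by rw [hor]
      nlinarith
    have hs : 0 < 2 ^ j * t := by positivity
    set s := 2 ^ j * t with hsd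
    have h2 : s * Real.exp (-s) ≤ 1 / s := by
      rw [le_div_iff₀ hs]
      have := tta5_exp hs.le
      calc s * Real.exp (-s) * s = s ^ 2 * Real.exp (-s) := by ring
        _ ≤ 1 := this
    have h3 : 1 / s ≤ (ρ : ℝ) ^ 2 / 2 ^ j := by
      rw [div_le_div_iff₀ hs (by positivity)]
      have h4 : (ℓ : ℝ) ^ 2 ≤ (ρ : ℝ) ^ 2 := pow_le_pow_left₀ (by linarith) hℓρ 2
      have h5 : 1 ≤ t * (ρ : ℝ) ^ 2 :=
        le_trans ht (mul_le_mul_of_nonneg_left h4 htpos.le)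
      have h6 : (0 : ℝ) < 2 ^ j := by positivity
      calc (1 : ℝ) * 2 ^ j ≤ (t * (ρ : ℝ) ^ 2) * 2 ^ j :=
            mul_le_mul_of_nonneg_right h5 h6.le
        _ = (ρ : ℝ) ^ 2 * s := by rw [hsd]; ring
    have h4 : s * Real.exp (-s) * (25 * (ρ : ℝ) ^ 2) ≤ 25 * ((ρ : ℝ) ^ 4 / 2 ^ j) := by
      calc s * Real.exp (-s) * (25 * (ρ : ℝ) ^ 2)
          ≤ ((ρ : ℝ) ^ 2 / 2 ^ j) * (25 * (ρ : ℝ) ^ 2) :=
            mul_le_mul_of_nonneg_right (le_trans h2 h3) (by positivity)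
        _ = 25 * ((ρ : ℝ) ^ 4 / 2 ^ j) := by ring
    have h5 : 1 / (ρ : ℝ) ≤ ((ℓ : ℝ) / ρ) ^ ε := by
      have h6 : 1 / (ρ : ℝ) ≤ (ℓ : ℝ) / ρ := div_le_div_of_nonneg_right hℓr (by linarith)
      have h7 : (ℓ : ℝ) / ρ ≤ 1 := (div_le_one (by linarith)).2 hℓρ
      have h8 : (ℓ : ℝ) / ρ ≤ ((ℓ : ℝ) / ρ) ^ ε := by
        have := Real.rpow_le_rpow_of_exponent_ge (by positivity : 0 < (ℓ : ℝ) / ρ) h7
          (by linarith [hε.2] : ε ≤ 1)
        rwa [Real.rpow_one] at this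
      linarith
    have h6 : (1 : ℝ) ≤ 2 ^ j * (q ^ j) ^ 6 := by
      have e1 : q ^ j = (2 : ℝ) ^ (-(ε / 8) * j) := tta5_qj ε j
      have e2 : (2 : ℝ) ^ j * (q ^ j) ^ 6 = (2 : ℝ) ^ ((j : ℝ) + -(ε / 8) * j * 6) := by
        rw [e1, ← Real.rpow_natCast, ← Real.rpow_natCast, ← Real.rpow_mul (by norm_num),
          ← Real.rpow_add (by norm_num)]
        norm_num
      rw [e2]
      refine Real.one_le_rpow (by norm_num) ?_
      have h9 : ε * j ≤ 1 / 8 * j := mul_le_mul_of_nonneg_right hε.2 hj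
      nlinarith
    have h7 : (ρ : ℝ) ^ 5 / 2 ^ j ≤ K ^ 5 * q ^ j := by
      have h8 : (q ^ j * ρ) ^ 5 ≤ K ^ 5 := pow_le_pow_left₀ (by positivity) h1 5
      rw [div_le_iff₀ (by positivity)]
      calc (ρ : ℝ) ^ 5 = (ρ : ℝ) ^ 5 * 1 := by ring
        _ ≤ (ρ : ℝ) ^ 5 * (2 ^ j * (q ^ j) ^ 6) :=
            mul_le_mul_of_nonneg_left h6 (by positivity)
        _ = (q ^ j * ρ) ^ 5 * (q ^ j * 2 ^ j) := by ring
        _ ≤ K ^ 5 * (q ^ j * 2 ^ j) := mul_le_mul_of_nonneg_right h8 (by positivity)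
        _ = K ^ 5 * q ^ j * 2 ^ j := by ring
    calc s * Real.exp (-s) * (25 * (ρ : ℝ) ^ 2) ≤ 25 * ((ρ : ℝ) ^ 4 / 2 ^ j) := h4
      _ = 25 * ((ρ : ℝ) ^ 5 / 2 ^ j) * (1 / ρ) := by
          field_simp
      _ ≤ 25 * (K ^ 5 * q ^ j) * (1 / ρ) := by
          refine mul_le_mul_of_nonneg_right ?_ (by positivity)
          exact mul_le_mul_of_nonneg_left h7 (by norm_num)
      _ ≤ 25 * (K ^ 5 * q ^ j) * ((ℓ : ℝ) / ρ) ^ ε :=
          mul_le_mul_of_nonneg_left h5 (by positivity)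
      _ = 25 * K ^ 5 * (q ^ j * ((ℓ : ℝ) / ρ) ^ ε) := by ring
  · exfalso
    have h1 : (2 : ℝ) ^ (-((j : ℝ) / 2)) ≤ q ^ j := by
      rw [show q ^ j = (2 : ℝ) ^ (-(ε / 8) * j) from tta5_qj ε j]
      refine Real.rpow_le_rpow_of_exponent_le (by norm_num) ?_
      have h9 : ε * j ≤ 1 / 8 * j := mul_le_mul_of_nonneg_right hε.2 hj
      nlinarith
    have h2 : c₀ * q ^ j * ρ < 32 * ℓ * q ^ j := by
      have h3 : (ℓ : ℝ) * (2 : ℝ) ^ (-((j : ℝ) / 2)) ≤ ℓ * q ^ j :=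
        mul_le_mul_of_nonneg_left h1 (by linarith)
      linarith
    have h3 : c₀ * ρ < 32 * ℓ := by
      have h4 : (c₀ * ρ) * q ^ j < (32 * ℓ) * q ^ j := by linarith
      exact lt_of_mul_lt_mul_right h4 hqj.le
    have h4 : 34 * (ℓ : ℝ) ≤ c₀ * ρ := by
      have h5 : c₀ * ((34 / c₀) * (ℓ : ℝ)) ≤ c₀ * ρ := mul_le_mul_of_nonneg_left hΛr hc0.le
      have h6 : c₀ * ((34 / c₀) * (ℓ : ℝ)) = 34 * ℓ := by
        field_simp
      linarith
    linarith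

end SC

end

/-! ### from `Lib_MP_e0a489.TTA2` -/

section

/-!
# MP_e0a489, module TTA 2: the graded sets `ttV` and the shells `ttSh`
-/

set_option autoImplicit false

namespace SC

open Classical

variable {Q : Set Pt} {q : ℝ} {r R : ℤ}

private theorem tta2_rect (R : ℤ) (v : Pt) : v ∈ rectF (-R) R (-R) R ↔ nrm v ≤ R := by
  unfold rectF nrm
  rw [Finset.mem_product, Finset.mem_Icc, Finset.mem_Icc, max_le_iff, abs_le, abs_le]

private theorem tta2_mem {j : ℕ} {v : Pt} : v ∈ ttV Q q r R j ↔ nrm v ≤ R ∧ v ∈ Q ∧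
    2 * (r : ℝ) * (2 - q ^ j) < (nrm v : ℝ) ∧ (nrm v : ℝ) ≤ (R : ℝ) / 4 * (1 + q ^ j) := by
  unfold ttV
  rw [Finset.mem_filter, tta2_rect]

private theorem tta2_sh {ρ : ℤ} {v : Pt} :
    v ∈ ttSh Q ρ ↔ v ∈ Q ∧ ρ < nrm v ∧ nrm v ≤ 2 * ρ := by
  unfold ttSh
  rw [Finset.mem_filter, tta2_rect]
  exact ⟨fun h => h.2, fun h => ⟨h.2.2, h⟩⟩

/-- `q ^ (j+1) ≤ q ^ j` -/
theorem ttV_anti (hq : 0 ≤ q ∧ q ≤ 1) (hr : 0 ≤ r) (hR : 0 ≤ R) (j : ℕ) :
    ttV Q q r R (j + 1) ⊆ ttV Q q r R j := by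
  intro v hv
  rw [tta2_mem] at hv ⊢
  obtain ⟨h1, h2, h3, h4⟩ := hv
  have hp : q ^ (j + 1) ≤ q ^ j := pow_le_pow_of_le_one hq.1 hq.2 (Nat.le_succ j)
  have hr' : (0 : ℝ) ≤ r := by exact_mod_cast hr
  have hR' : (0 : ℝ) ≤ R := by exact_mod_cast hR
  refine ⟨h1, h2, ?_, ?_⟩
  · nlinarith
  · nlinarith

/-- `q ^ (j+1) < 1` gives `2 r < nrm v`, `2 nrm v < R` for `j + 1 ≥ 1`. -/
theorem ttV_mem (hq : 0 ≤ q ∧ q < 1) (hr : 1 ≤ r) (hR : 1 ≤ R) {j : ℕ} {v : Pt}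
    (hv : v ∈ ttV Q q r R (j + 1)) : v ∈ Q ∧ 2 * r < nrm v ∧ 2 * nrm v ≤ R := by
  rw [tta2_mem] at hv
  obtain ⟨h1, h2, h3, h4⟩ := hv
  have hp : q ^ (j + 1) < 1 := pow_lt_one₀ hq.1 hq.2 (Nat.succ_ne_zero j)
  have hr' : (1 : ℝ) ≤ r := by exact_mod_cast hr
  have hR' : (1 : ℝ) ≤ R := by exact_mod_cast hR
  refine ⟨h2, ?_, ?_⟩
  · have h5 : (2 * r : ℝ) < nrm v := by nlinarith
    exact_mod_cast h5
  · have h5 : (2 * nrm v : ℝ) ≤ R := by nlinarith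
    exact_mod_cast h5

/-- `2 r (2 - q ^ n) ≤ 4 r`, `R / 4 ≤ (R / 4) (1 + q ^ n)`; in the hypothesis `R / 4` is the integer quotient -/
theorem ttV_sup (hq : 0 ≤ q ∧ q < 1) (hr : 0 ≤ r) (n : ℕ) {v : Pt} (hv : v ∈ Q)
    (h1 : 4 * r < nrm v) (h2 : nrm v ≤ R / 4) : v ∈ ttV Q q r R n := by
  rw [tta2_mem]
  have hp : 0 ≤ q ^ n := pow_nonneg hq.1 n
  have hr' : (0 : ℝ) ≤ r := by exact_mod_cast hr
  have h3 : 4 * nrm v ≤ R := by omega
  have h4 : 0 ≤ nrm v := XP.nrm_nonneg' v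
  have h3' : (4 * nrm v : ℝ) ≤ R := by exact_mod_cast h3
  have h4' : (0 : ℝ) ≤ nrm v := by exact_mod_cast h4
  have h1' : (4 * r : ℝ) < nrm v := by exact_mod_cast h1
  refine ⟨by omega, hv, ?_, ?_⟩
  · nlinarith
  · have hR' : (0 : ℝ) ≤ R := by linarith
    nlinarith

/-- `x - 1 < ⌊x⌋ ≤ x`, `(1 - q) / 8 * q ^ j ≤ 1 / 8` -/
theorem ttR_le (hq : 0 ≤ q ∧ q < 1) {ρ : ℤ} (hρ : 0 ≤ ρ) (j : ℕ) : 8 * ttR q ρ j ≤ ρ := by
  unfold ttR
  have h1 := Int.floor_le ((1 - q) / 8 * q ^ j * ρ)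
  have hρ' : (0 : ℝ) ≤ ρ := by exact_mod_cast hρ
  have hp : 0 ≤ q ^ j := pow_nonneg hq.1 j
  have hp1 : q ^ j ≤ 1 := pow_le_one₀ hq.1 hq.2.le
  have h2 : (1 - q) * q ^ j ≤ 1 := by nlinarith [hq.1, hq.2]
  have h3 : (8 * (⌊(1 - q) / 8 * q ^ j * ρ⌋ : ℤ) : ℝ) ≤ ρ := by nlinarith
  exact_mod_cast h3

theorem ttR_gt (q : ℝ) (ρ : ℤ) (j : ℕ) : (1 - q) / 8 * q ^ j * ρ < ttR q ρ j + 1 :=
  Int.lt_floor_add_one _

/-- The balls around the sites of the `j + 1`-st set lie in the `j`-th set.  Let `x = nrm v`, `y = nrm z`,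
`D = ttR q ρ j ≤ c q ^ j x`, `c = (1 - q) / 8` (as `ρ < x`); `|y - x| ≤ D` (`XP.nrm_tri`).  Lower bound: `a < x` with `a = 2 r (2 - q ^ (j+1))`, so
`y ≥ x (1 - c q ^ j) > a (1 - c q ^ j) ≥ 2 r (2 - q ^ j)` because `a - 2 r (2 - q ^ j) = 2 r q ^ j (1 - q)` and
`a c q ^ j ≤ 4 r c q ^ j ≤ 2 r q ^ j (1 - q)`.  Upper bound: `x ≤ b = (R / 4) (1 + q ^ (j+1)) ≤ R / 2`, so
`y ≤ x (1 + c q ^ j) ≤ b + (R / 2) c q ^ j ≤ (R / 4) (1 + q ^ j)`.  And `z ∈ rectF (-R) R (-R) R` as `y ≤ R / 2 ≤ R`. -/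
theorem ttV_ball (hq : 0 ≤ q ∧ q < 1) (hr : 0 ≤ r) (hR : 0 ≤ R) {j : ℕ} {ρ : ℤ} {v z : Pt}
    (hv : v ∈ ttV Q q r R (j + 1)) (hρ0 : 0 ≤ ρ) (hρ : ρ < nrm v) (hz : z ∈ Q)
    (hz' : nrm (z - v) ≤ ttR q ρ j) : z ∈ ttV Q q r R j := by
  rw [tta2_mem] at hv ⊢
  obtain ⟨h1, h2, h3, h4⟩ := hv
  have e1 : nrm z ≤ nrm (z - v) + nrm v := by
    have := XP.nrm_add (z - v) v
    rwa [sub_add_cancel] at this
  have e2 : nrm v ≤ nrm (z - v) + nrm z := by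
    have := XP.nrm_add (v - z) z
    rwa [sub_add_cancel, XP.nrm_comm] at this
  have hD : ((ttR q ρ j : ℤ) : ℝ) ≤ (1 - q) / 8 * q ^ j * ρ := Int.floor_le _
  obtain ⟨x, hx⟩ : ∃ x : ℝ, x = (nrm v : ℝ) := ⟨_, rfl⟩
  obtain ⟨y, hy⟩ : ∃ y : ℝ, y = (nrm z : ℝ) := ⟨_, rfl⟩
  obtain ⟨p, hp⟩ : ∃ p : ℝ, p = q ^ j := ⟨_, rfl⟩
  obtain ⟨D, hDD⟩ : ∃ D : ℝ, D = ((ttR q ρ j : ℤ) : ℝ) := ⟨_, rfl⟩
  have hp0 : 0 ≤ p := by rw [hp]; exact pow_nonneg hq.1 j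
  have hp1 : p ≤ 1 := by rw [hp]; exact pow_le_one₀ hq.1 hq.2.le
  have hr' : (0 : ℝ) ≤ r := by exact_mod_cast hr
  have hR' : (0 : ℝ) ≤ R := by exact_mod_cast hR
  have hρx : (ρ : ℝ) ≤ x := by rw [hx]; exact_mod_cast hρ.le
  have hρ0' : (0 : ℝ) ≤ ρ := by exact_mod_cast hρ0
  have hx0 : 0 ≤ x := hρ0'.trans hρx
  rw [← hDD, ← hp] at hD
  have h1q : 0 < 1 - q := by linarith [hq.2]
  have hcp : 0 ≤ (1 - q) / 8 * p := by positivity
  have hcp8 : (1 - q) / 8 * p ≤ 1 / 8 := by nlinarith [hq.1]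
  have hD2 : D ≤ (1 - q) / 8 * p * x := hD.trans (mul_le_mul_of_nonneg_left hρx hcp)
  have f1 : y ≤ D + x := by
    rw [hy, hDD, hx]
    have : nrm z ≤ ttR q ρ j + nrm v := by omega
    exact_mod_cast this
  have f2 : x ≤ D + y := by
    rw [hy, hDD, hx]
    have : nrm v ≤ ttR q ρ j + nrm z := by omega
    exact_mod_cast this
  rw [pow_succ, ← hp, ← hx] at h3 h4
  rw [← hp, ← hy]
  -- lower bound
  have g1 : 2 * (r : ℝ) * (2 - p) < y := by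
    have k1 : x * (1 - (1 - q) / 8 * p) ≤ y := by linarith
    have k2 : 2 * (r : ℝ) * (2 - p * q) * (1 - (1 - q) / 8 * p) <
        x * (1 - (1 - q) / 8 * p) := mul_lt_mul_of_pos_right h3 (by linarith)
    have k3 : 0 ≤ (r : ℝ) * (p * (1 - q)) := by positivity
    have k4 : 0 ≤ (r : ℝ) * (p * (1 - q)) * (p * q) := by
      have := hq.1
      positivity
    nlinarith
  -- upper bound
  have g2 : y ≤ (R : ℝ) / 4 * (1 + p) := by
    have k0 : p * q ≤ 1 := by nlinarith [hq.1, hq.2]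
    have k1 : x ≤ (R : ℝ) / 2 := by nlinarith
    have k2 : D ≤ (1 - q) / 8 * p * ((R : ℝ) / 2) := hD2.trans (mul_le_mul_of_nonneg_left k1 hcp)
    have k3 : 0 ≤ (R : ℝ) * (p * (1 - q)) := by positivity
    nlinarith
  refine ⟨?_, hz, g1, g2⟩
  have g3 : y ≤ (R : ℝ) := by nlinarith
  rw [hy] at g3
  exact_mod_cast g3

/-- DECOMPOSITION INTO SHELLS.  `n` = the least number with `R < 2 ^ (n+2) r` (it exists as `r ≥ 1`).  For
`i < n`: `2 ^ (i+2) r ≤ R`.  Every `v ∈ V` is in the shell `i` with `2 ^ (i+1) r < nrm v ≤ 2 ^ (i+2) r` (`i` = the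
least number with `nrm v ≤ 2 ^ (i+2) r`; if `i = 0` use `2 r < nrm v`), and `2 ^ (i+2) r < 2 nrm v ≤ R`, so `i < n`.
Then `∑_V f ≤ ∑_{i < n} ∑_{V ∩ shell i} f` (`Finset.sum_le_sum_of_subset_of_nonneg` and `Finset.sum_biUnion_le`-type
argument: `V ⊆ ⋃_{i<n} (V ∩ shell i)`; for `f ≥ 0` the sum over a union is at most the sum of the sums). -/
theorem tt_shells (hr : 1 ≤ r) : ∃ n : ℕ, (∀ i : ℕ, i < n → 2 ^ (i + 2) * r ≤ R) ∧
    ∀ (V : Finset Pt) (f : Pt → ℝ), (∀ v, 0 ≤ f v) →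
      (∀ v ∈ V, v ∈ Q ∧ 2 * r < nrm v ∧ 2 * nrm v ≤ R) →
      ∑ v ∈ V, f v ≤ ∑ i ∈ Finset.range n,
        ∑ v ∈ V.filter (fun v => v ∈ ttSh Q (2 ^ (i + 1) * r)), f v := by
  have hex : ∀ x : ℤ, ∃ n : ℕ, x < 2 ^ (n + 2) * r := by
    intro x
    refine ⟨x.toNat, ?_⟩
    have h1 : (x.toNat : ℤ) < 2 ^ x.toNat := by exact_mod_cast Nat.lt_two_pow_self
    have h2 : x ≤ (x.toNat : ℤ) := Int.self_le_toNat x
    rw [pow_add]
    nlinarith
  refine ⟨Nat.find (hex R), fun i hi => not_lt.1 (Nat.find_min (hex R) hi), ?_⟩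
  intro V f hf hV
  have hN := Nat.find_spec (hex R)
  have hsh : ∀ v ∈ V, ∃ i ∈ Finset.range (Nat.find (hex R)), v ∈ ttSh Q (2 ^ (i + 1) * r) := by
    intro v hv
    obtain ⟨a1, a2, a3⟩ := hV v hv
    have hexv : ∃ i : ℕ, nrm v ≤ 2 ^ (i + 2) * r := (hex (nrm v)).imp fun _ h => h.le
    obtain ⟨i, hi1, hi2⟩ : ∃ i : ℕ, nrm v ≤ 2 ^ (i + 2) * r ∧ 2 ^ (i + 1) * r < nrm v := by
      refine ⟨Nat.find hexv, Nat.find_spec hexv, ?_⟩
      rcases Nat.eq_zero_or_pos (Nat.find hexv) with h0 | h0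
      · rw [h0]
        simpa using a2
      · have h1 := Nat.find_min hexv (m := Nat.find hexv - 1) (by omega)
        rw [show Nat.find hexv - 1 + 2 = Nat.find hexv + 1 by omega] at h1
        exact not_le.1 h1
    refine ⟨i, ?_, ?_⟩
    · rw [Finset.mem_range]
      by_contra hc
      have h1 : (2 : ℤ) ^ (Nat.find (hex R) + 2) ≤ 2 ^ (i + 2) :=
        pow_le_pow_right₀ (by norm_num) (by omega)
      have h2 : (2 : ℤ) ^ (i + 2) = 2 * 2 ^ (i + 1) := by ring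
      nlinarith
    · rw [tta2_sh]
      refine ⟨a1, hi2, ?_⟩
      have h2 : (2 : ℤ) ^ (i + 2) = 2 * 2 ^ (i + 1) := by ring
      rw [h2] at hi1
      linarith
  have e : ∑ i ∈ Finset.range (Nat.find (hex R)),
      ∑ v ∈ V.filter (fun v => v ∈ ttSh Q (2 ^ (i + 1) * r)), f v =
      ∑ v ∈ V, ∑ i ∈ Finset.range (Nat.find (hex R)),
        (if v ∈ ttSh Q (2 ^ (i + 1) * r) then f v else 0) := by
    rw [Finset.sum_comm]
    refine Finset.sum_congr rfl fun i _ => ?_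
    rw [Finset.sum_filter]
  rw [e]
  refine Finset.sum_le_sum fun v hv => ?_
  obtain ⟨i, hi, hi'⟩ := hsh v hv
  have h1 := Finset.single_le_sum (s := Finset.range (Nat.find (hex R)))
    (f := fun i : ℕ => if v ∈ ttSh Q (2 ^ (i + 1) * r) then f v else 0)
    (fun k _ => by
      show 0 ≤ (if v ∈ ttSh Q (2 ^ (k + 1) * r) then f v else 0)
      split_ifs
      · exact hf v
      · exact le_refl _) hi
  have h2 : (if v ∈ ttSh Q (2 ^ (i + 1) * r) then f v else 0) = f v := if_pos hi'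
  calc f v = (if v ∈ ttSh Q (2 ^ (i + 1) * r) then f v else 0) := h2.symm
    _ ≤ _ := h1

end SC

end

/-! ### from `Lib_MP_e0a489.TTH1` -/

section

/-!
# MP_e0a489, module TTH 1: smaller annuli with another centre
-/

set_option autoImplicit false

namespace SC

open Classical XP

namespace Lat

variable {L : Lat} {c : Bool} {Q : Set Pt} {ω : Cfg}

/-- CROSSING OF A SMALLER ANNULUS.  Let `d = nrm (y - y')`, `A = annAt y r R ∩ Q ∩ col c ω`, `S = bxAt y' r'`.  `nrm (w - y') ≥ R - d ≥ R' > r'`, so `w ∉ S`.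
Claim: there is `p ∈ nb S`, `p ∉ S`, with `Cn (A \ S) p w` and `Cn A x p`.
(1) `x ∈ S`: `Cn.last` for `Cn A x w`.
(2) `x ∉ S` and `Cn (A \ S) x w`: `p = x`; `x` has a neighbour in `bxAt y r ⊆ S` (as `r + d ≤ r'`).
(3) `x ∉ S` and not `Cn (A \ S) x w`: `Cn.exit` with the set `{z | Cn (A \ S) x z}` gives `q ∈ A`, `q ∈ S`, `Cn A x q`; then `Cn.last` for `Cn A q w`.
Then `nrm (p - y') = r' + 1 ≤ R'` (`adj_nrm`), and `to_rngAt` (`y'`, `R'`) gives `z ∈ rngAt y' R'` with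
`Cn ((A \ S) ∩ {z | nrm (z - y') ≤ R'}) p z`, and this set is contained in `annAt y' r' R' ∩ Q ∩ col c ω`. -/
theorem cross_at {y y' : Pt} {r R r' R' : ℤ} {x w : Pt}
    (h : L.Cn (annAt y r R ∩ Q ∩ L.col c ω) x w) (hx : x ∈ L.nb (bxAt y r)) (hw : w ∈ rngAt y R)
    (h1 : r + nrm (y - y') ≤ r') (h2 : r' < R') (h3 : R' + nrm (y - y') ≤ R) :
    ∃ p ∈ L.nb (bxAt y' r'), ∃ z ∈ rngAt y' R', L.Cn (annAt y' r' R' ∩ Q ∩ L.col c ω) p z ∧
      L.Cn (annAt y r R ∩ Q ∩ L.col c ω) x p := by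
  have hwR : nrm (w - y) = R := hw
  have e1 := nrm_tri w y' y
  rw [nrm_comm y' y] at e1
  have hwS : w ∉ bxAt y' r' := by
    intro hc
    have hc' : nrm (w - y') ≤ r' := hc
    omega
  have key : ∃ p ∈ L.nb (bxAt y' r'), L.Cn ((annAt y r R ∩ Q ∩ L.col c ω) \ bxAt y' r') p w := by
    have key0 : ∀ q ∈ bxAt y' r', L.Cn (annAt y r R ∩ Q ∩ L.col c ω) q w →
        ∃ p ∈ L.nb (bxAt y' r'), L.Cn ((annAt y r R ∩ Q ∩ L.col c ω) \ bxAt y' r') p w := by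
      intro q hq hqw
      obtain ⟨p0, q0, -, h4, h5, h6⟩ := hqw.last hq hwS
      exact ⟨q0, ⟨p0, h4, h5⟩, h6⟩
    by_cases hxS : x ∈ bxAt y' r'
    · exact key0 x hxS h
    · by_cases hxw : L.Cn ((annAt y r R ∩ Q ∩ L.col c ω) \ bxAt y' r') x w
      · obtain ⟨u, hu, hux⟩ := hx
        refine ⟨x, ⟨u, ?_, hux⟩, hxw⟩
        have hu' : nrm (u - y) ≤ r := hu
        have e2 := nrm_tri u y y'
        show nrm (u - y') ≤ r'
        omega
      · obtain ⟨p0, q0, h4, h5, h6, h7⟩ := h.exit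
          (S := {z | L.Cn ((annAt y r R ∩ Q ∩ L.col c ω) \ bxAt y' r') x z})
          (Cn.refl ⟨h.left, hxS⟩) hxw
        have hqS : q0 ∈ bxAt y' r' := by
          by_contra hc
          have h8 : L.Cn ((annAt y r R ∩ Q ∩ L.col c ω) \ bxAt y' r') x p0 := h4.right.2
          exact h7 (h8.trans (Cn.of_adj h8.right ⟨h6, hc⟩ h5))
        have h9 : L.Cn (annAt y r R ∩ Q ∩ L.col c ω) x q0 :=
          (h4.mono (fun z hz => hz.1)).trans (Cn.of_adj h4.right.1 h6 h5)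
        exact key0 q0 hqS (h9.symm.trans h)
  obtain ⟨p, hp, hpw⟩ := key
  have hpn : nrm (p - y') ≤ R' := by
    obtain ⟨u, hu, hup⟩ := hp
    have hu' : nrm (u - y') ≤ r' := hu
    have e3 := abs_le.1 (adj_nrm hup y')
    omega
  have hwn : R' ≤ nrm (w - y') := by omega
  obtain ⟨z, hz, hpz⟩ := to_rngAt (y := y') (R := R') hpw hpn hwn
  refine ⟨p, hp, z, hz, hpz.mono ?_, h.trans (hpw.mono (fun z hz => hz.1)).symm⟩
  rintro v ⟨⟨⟨⟨-, hvQ⟩, hvc⟩, hvS⟩, hvR⟩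
  refine ⟨⟨⟨?_, hvR⟩, hvQ⟩, hvc⟩
  have hvS' : ¬ nrm (v - y') ≤ r' := hvS
  omega

/-- `cross_at` for both paths; if `p` and `p'` were joined in `annAt y' r' R' ∩ Q ⊆ annAt y r R ∩ Q` (triangle inequality) then `x` and `x'`
would be joined. -/
theorem two_sub {y y' : Pt} {r R r' R' : ℤ} (h : L.TwoD Q c y r R ω)
    (h1 : r + nrm (y - y') ≤ r') (h2 : r' < R') (h3 : R' + nrm (y - y') ≤ R) :
    L.TwoD Q c y' r' R' ω := by
  obtain ⟨x, hx, w, hw, x', hx', w', hw', hc, hc', hn⟩ := h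
  obtain ⟨p, hp, z, hz, h4, h5⟩ := cross_at hc hx hw h1 h2 h3
  obtain ⟨p', hp', z', hz', h4', h5'⟩ := cross_at hc' hx' hw' h1 h2 h3
  refine ⟨p, hp, z, hz, p', hp', z', hz', h4, h4', fun h6 => hn ?_⟩
  have h7 : L.Cn (annAt y r R ∩ Q ∩ L.col c ω) p p' := by
    refine h6.mono ?_
    rintro v ⟨⟨⟨hv1, hv2⟩, hvQ⟩, hvc⟩
    have e1 := nrm_tri v y y'
    have e2 := nrm_tri v y' y
    rw [nrm_comm y' y] at e2
    refine ⟨⟨⟨?_, ?_⟩, hvQ⟩, hvc⟩
    · omega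
    · omega
  exact (h5.trans h7).trans h5'.symm

theorem arm_sub {y y' : Pt} {r R r' R' : ℤ}
    (h : L.Arm c (annAt y r R ∩ Q) (L.nb (bxAt y r)) (rngAt y R) ω)
    (h1 : r + nrm (y - y') ≤ r') (h2 : r' < R') (h3 : R' + nrm (y - y') ≤ R) :
    L.Arm c (annAt y' r' R' ∩ Q) (L.nb (bxAt y' r')) (rngAt y' R') ω := by
  obtain ⟨x, hx, w, hw, hc⟩ := h
  obtain ⟨p, hp, z, hz, h4, -⟩ := cross_at hc hx hw h1 h2 h3
  exact ⟨p, hp, z, hz, h4⟩

/-- `annAt 0 r R = ann r R` etc. (`sub_zero`), commutativity of the intersection -/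
theorem twoH_iff_twoD (L : Lat) (c : Bool) (H : Set Pt) (r R : ℤ) (ω : Cfg) :
    L.TwoH c H r R ω ↔ L.TwoD H c 0 r R ω := by
  have e1 : annAt 0 r R = ann r R := by
    ext v
    show r < nrm (v - 0) ∧ nrm (v - 0) ≤ R ↔ r < nrm v ∧ nrm v ≤ R
    rw [sub_zero]
  have e2 : bxAt 0 r = bx r := by
    ext v
    show nrm (v - 0) ≤ r ↔ nrm v ≤ r
    rw [sub_zero]
  have e3 : rngAt 0 R = rng R := by
    ext v
    show nrm (v - 0) = R ↔ nrm v = R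
    rw [sub_zero]
  unfold TwoH TwoD
  rw [e1, e2, e3]

theorem twoQ_iff_arm (L : Lat) (H : Set Pt) (r R : ℤ) (ω : Cfg) :
    L.TwoQ H r R ω ↔ ∀ c : Bool, L.Arm c (annAt 0 r R ∩ H) (L.nb (bxAt 0 r)) (rngAt 0 R) ω := by
  have e1 : annAt 0 r R = ann r R := by
    ext v
    show r < nrm (v - 0) ∧ nrm (v - 0) ≤ R ↔ r < nrm v ∧ nrm v ≤ R
    rw [sub_zero]
  have e2 : bxAt 0 r = bx r := by
    ext v
    show nrm (v - 0) ≤ r ↔ nrm v ≤ r
    rw [sub_zero]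
  have e3 : rngAt 0 R = rng R := by
    ext v
    show nrm (v - 0) = R ↔ nrm v = R
    rw [sub_zero]
  unfold TwoQ
  rw [e1, e2, e3]

/-- `XP.twoAt_iff`: the same event as `TwoAt`; if the annulus is contained in `Q` the domain is the annulus -/
theorem twoAt_of_twoD {y : Pt} {r R : ℤ} (hQ : annAt y r R ⊆ Q) (h : L.TwoD Q c y r R ω) :
    L.TwoAt c y r R ω := by
  rw [twoAt_iff]
  have e1 : annAt y r R ∩ Q = annAt y r R := Set.inter_eq_left.2 hQ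
  unfold TwoD at h
  rwa [e1] at h

end Lat

end SC

end

/-! ### from `Lib_MP_e0a489.TTH2` -/

section

/-!
# MP_e0a489, module TTH 2: `TwoH` and `TwoQ` as abstract crossing events, pivotal sites
-/

set_option autoImplicit false

namespace SC

open Classical XP

namespace Lat

variable {L : Lat} {c : Bool} {Q : Set Pt} {ω : Cfg}

/-- The domain `annAt v 0 D ∩ Q` is contained in `bxAt v D ∩ Q` (`Two.dep`). -/
theorem locE_dep (L : Lat) (Q : Set Pt) (b : Bool) (v : Pt) (D : ℤ) :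
    Dep (L.LocE Q b v D) (bxAt v D ∩ Q) := by
  intro ω ω' h
  have h1 : L.TwoD Q b v 0 D ω = L.TwoD Q b v 0 D ω' :=
    Two.dep L b (annAt v 0 D ∩ Q) _ _ ω ω' fun u hu => h u ⟨hu.1.2, hu.2⟩
  show (1 ≤ D → L.TwoD Q b v 0 D ω) = (1 ≤ D → L.TwoD Q b v 0 D ω')
  rw [h1]

private theorem TTH2_dom {H : Set Pt} {v : Pt} {r R D : ℤ} (h1 : r + 1 + D ≤ nrm v)
    (h2 : nrm v + D ≤ R) : (ann r R ∩ H) ∩ annAt v 0 D = annAt v 0 D ∩ H := by
  ext z
  constructor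
  · rintro ⟨⟨_, a2⟩, a3⟩
    exact ⟨a3, a2⟩
  · rintro ⟨a3, a2⟩
    have b1 : nrm (z - v) ≤ D := a3.2
    have b2 := nrm_add (z - v) v
    rw [sub_add_cancel] at b2
    have b3 := nrm_tri v z 0
    rw [sub_zero, sub_zero, nrm_comm v z] at b3
    exact ⟨⟨⟨by omega, by omega⟩, a2⟩, a3⟩

private theorem TTH2_in {v x : Pt} {r D : ℤ} (h1 : r + 1 + D ≤ nrm v) (hx : x ∈ L.nb (bx r)) :
    D ≤ nrm (x - v) := by
  obtain ⟨z, hz, ha⟩ := hx
  have b1 : nrm z ≤ r := hz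
  have b2 := abs_le.1 (adj_nrm ha 0)
  rw [sub_zero, sub_zero] at b2
  have b3 := nrm_tri v x 0
  rw [sub_zero, sub_zero, nrm_comm v x] at b3
  omega

private theorem TTH2_out {v y : Pt} {R D : ℤ} (h2 : nrm v + D ≤ R) (hy : y ∈ rng R) :
    D ≤ nrm (y - v) := by
  have b1 : nrm y = R := hy
  have b3 := nrm_tri y v 0
  rw [sub_zero, sub_zero] at b3
  omega

/-- the event for the updated configuration and for `ω` -/
private theorem TTH2_fin {H : Set Pt} {v : Pt} {r R D : ℤ} (h1 : r + 1 + D ≤ nrm v)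
    (h2 : nrm v + D ≤ R) {ω₁ : Cfg} (hag : ∀ u, u ≠ v → ω₁ u = ω u)
    (h : L.Two c ((ann r R ∩ H) ∩ annAt v 0 D) (L.nb (bxAt v 0)) (rngAt v D) ω₁) :
    L.TwoD H c v 0 D ω := by
  rw [TTH2_dom h1 h2] at h
  refine (two_agree (ω₁ := ω₁) fun u hu => hag u ?_).1 h
  rintro rfl
  have b1 : 0 < nrm (u - u) := hu.1.1
  rw [sub_self] at b1
  exact absurd b1 (by decide)

private theorem TTH2_ag {v : Pt} {ω₁ ω₂ : Cfg} (h1 : ∀ u, u ≠ v → ω₁ u = ω u)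
    (h2 : ∀ u, u ≠ v → ω₂ u = ω u) : ∀ u, 0 < nrm (u - v) → ω₁ u = ω₂ u := by
  intro u hu
  have hne : u ≠ v := by
    rintro rfl
    rw [sub_self] at hu
    exact absurd hu (by decide)
  rw [h1 u hne, h2 u hne]

private theorem TTH2_half {H : Set Pt} {v : Pt} {r R D : ℤ} (h1 : r + 1 + D ≤ nrm v)
    (h2 : nrm v + D ≤ R) (hD : 1 ≤ D) {ω₁ ω₂ : Cfg} (ha1 : ∀ u, u ≠ v → ω₁ u = ω u)
    (ha2 : ∀ u, u ≠ v → ω₂ u = ω u) (h : L.TwoH c H r R ω₁) (hn : ¬ L.TwoH c H r R ω₂) :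
    L.TwoD H c v 0 D ω := by
  obtain ⟨x, hx, y, hy, x', hx', y', hy', c1, c2, c3⟩ := h
  have hag := TTH2_ag ha1 ha2
  have hag' : ∀ u, 0 < nrm (u - v) → ω₂ u = ω₁ u := fun u hu => (hag u hu).symm
  by_cases e1 : L.Cn (ann r R ∩ H ∩ L.col c ω₂) x y
  · by_cases e2 : L.Cn (ann r R ∩ H ∩ L.col c ω₂) x' y'
    · by_cases e3 : L.Cn (ann r R ∩ H ∩ L.col c ω₂) x x'
      · refine TTH2_fin h1 h2 ha2 (piv_two (S₁ := {x}) (S₂ := {x'}) (ω₂ := ω₁) (by omega) hag'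
          ⟨x, rfl, x', rfl, e3⟩ ?_ ?_ ?_)
        · rintro _ rfl _ rfl
          exact c3
        · rintro _ rfl
          exact TTH2_in h1 hx
        · rintro _ rfl
          exact TTH2_in h1 hx'
      · exact absurd ⟨x, hx, y, hy, x', hx', y', hy', e1, e2, e3⟩ hn
    · refine TTH2_fin h1 h2 ha1 (piv_two (S₁ := {x'}) (S₂ := {y'}) (ω₂ := ω₂) (by omega) hag
        ⟨x', rfl, y', rfl, c2⟩ ?_ ?_ ?_)
      · rintro _ rfl _ rfl
        exact e2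
      · rintro _ rfl
        exact TTH2_in h1 hx'
      · rintro _ rfl
        exact TTH2_out h2 hy'
  · refine TTH2_fin h1 h2 ha1 (piv_two (S₁ := {x}) (S₂ := {y}) (ω₂ := ω₂) (by omega) hag
      ⟨x, rfl, y, rfl, c1⟩ ?_ ?_ ?_)
    · rintro _ rfl _ rfl
      exact e1
    · rintro _ rfl
      exact TTH2_in h1 hx
    · rintro _ rfl
      exact TTH2_out h2 hy

private theorem TTH2_quart {H : Set Pt} {v : Pt} {r R D : ℤ} (h1 : r + 1 + D ≤ nrm v)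
    (h2 : nrm v + D ≤ R) (hD : 1 ≤ D) {ω₁ ω₂ : Cfg} (ha1 : ∀ u, u ≠ v → ω₁ u = ω u)
    (ha2 : ∀ u, u ≠ v → ω₂ u = ω u) (h : L.TwoQ H r R ω₁) (hn : ¬ L.TwoQ H r R ω₂) :
    ∃ b, L.TwoD H b v 0 D ω := by
  obtain ⟨b, hb⟩ := not_forall.1 hn
  obtain ⟨x, hx, y, hy, c1⟩ := h b
  refine ⟨b, TTH2_fin h1 h2 ha1 (piv_two (S₁ := L.nb (bx r)) (S₂ := rng R) (ω₂ := ω₂) (by omega)
    (TTH2_ag ha1 ha2) ⟨x, hx, y, hy, c1⟩ ?_ (fun u hu => TTH2_in h1 hu)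
    (fun u hu => TTH2_out h2 hu))⟩
  intro u hu w hw hc
  exact hb ⟨u, hu, w, hw, hc⟩

private theorem TTH2_upd (ω : Cfg) (v : Pt) (b : Bool) :
    ∀ u, u ≠ v → Function.update ω v b u = ω u := fun _ hu => Function.update_of_ne hu _ _

/-- HALF PLANE.  `dep`: `Two.dep`.  `mono`: `twoH_iff_twoD`, `two_sub` with `y = y' = 0`.  `depW`: `locE_dep`.
`piv`: let `D ≥ 1` (otherwise `LocE` is trivially true).  Let `ω₁`, `ω₂` be the two configurations `Function.update ω v (true / false)`, `TwoH` true for `ω₁`,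
false for `ω₂`; `A_i = ann r R ∩ H ∩ col c ω_i`; `x, y, x', y'` from `TwoH` for `ω₁`.
(a) If `Cn A₂ x y` and `Cn A₂ x' y'`: `TwoH` fails for `ω₂`, so `Cn A₂ x x'`, while `¬ Cn A₁ x x'`: `piv_two` (`ω₁ := ω₂`, `ω₂ := ω₁`, `S₁ = {x}`, `S₂ = {x'}`).
(b) If `¬ Cn A₂ x y`: `piv_two` with `S₁ = {x}`, `S₂ = {y}` (joined for `ω₁`, not for `ω₂`).  (c) The same if `¬ Cn A₂ x' y'`.
The radii in `piv_two` are `0` and `D`, the centre is `v`: the configurations agree off `v` (`0 < nrm (u - v)` means `u ≠ v`); `nrm (x - v) ≥ nrm v - (r + 1) ≥ D` and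
`nrm (y - v) ≥ R - nrm v ≥ D`.  The domain is `(ann r R ∩ H) ∩ annAt v 0 D = annAt v 0 D ∩ H` (`nrm z ≥ nrm v - D ≥ r + 1`, `nrm z ≤ nrm v + D ≤ R`).  It does
not contain `v`, so the event holds for `ω` as well (`Two.dep`). -/
theorem crE_half (L : Lat) (c : Bool) (H : Set Pt) :
    CrE H (fun r R => L.TwoH c H r R) (L.LocE H) := by
  refine ⟨fun r R => Two.dep L c _ _ _, ?_, fun b v D => locE_dep L H b v D, ?_⟩
  · intro r R r' R' ω _ h2 h3 h4 h5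
    have h0 : nrm ((0 : Pt) - 0) = 0 := by rw [sub_self]; decide
    exact (twoH_iff_twoD L c H r' R' ω).2 (two_sub ((twoH_iff_twoD L c H r R ω).1 h5)
      (by rw [h0]; omega) h3 (by rw [h0]; omega))
  · intro r R v D ω _ _ h3 h4 _ hp
    refine ⟨c, fun hD => ?_⟩
    by_cases e1 : L.TwoH c H r R (Function.update ω v true)
    · by_cases e2 : L.TwoH c H r R (Function.update ω v false)
      · exact absurd (iff_of_true e1 e2) hp
      · exact TTH2_half h3 h4 hD (TTH2_upd ω v true) (TTH2_upd ω v false) e1 e2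
    · by_cases e2 : L.TwoH c H r R (Function.update ω v false)
      · exact TTH2_half h3 h4 hD (TTH2_upd ω v false) (TTH2_upd ω v true) e2 e1
      · exact absurd (iff_of_false e1 e2) hp

/-- CORNER.  As for the half plane (`Arm.dep`, `twoQ_iff_arm`, `arm_sub`).  `piv`: `TwoQ` true for `ω₁`, false for `ω₂`: for some colour `c` the arm exists for `ω₁`
and not for `ω₂`: `piv_two` with `S₁ = nb (bx r)`, `S₂ = rng R`. -/
theorem crE_quart (L : Lat) (H : Set Pt) : CrE H (fun r R => L.TwoQ H r R) (L.LocE H) := by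
  refine ⟨?_, ?_, fun b v D => locE_dep L H b v D, ?_⟩
  · intro r R ω ω' h
    show (∀ c : Bool, L.Arm c (ann r R ∩ H) (L.nb (bx r)) (rng R) ω) =
      ∀ c : Bool, L.Arm c (ann r R ∩ H) (L.nb (bx r)) (rng R) ω'
    exact forall_congr fun b => Arm.dep L b _ _ _ ω ω' h
  · intro r R r' R' ω _ h2 h3 h4 h5
    have h0 : nrm ((0 : Pt) - 0) = 0 := by rw [sub_self]; decide
    exact (twoQ_iff_arm L H r' R' ω).2 fun b => arm_sub ((twoQ_iff_arm L H r R ω).1 h5 b)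
      (by rw [h0]; omega) h3 (by rw [h0]; omega)
  · intro r R v D ω _ _ h3 h4 _ hp
    by_cases hD : 1 ≤ D
    · by_cases e1 : L.TwoQ H r R (Function.update ω v true)
      · by_cases e2 : L.TwoQ H r R (Function.update ω v false)
        · exact absurd (iff_of_true e1 e2) hp
        · obtain ⟨b, hb⟩ := TTH2_quart h3 h4 hD (TTH2_upd ω v true) (TTH2_upd ω v false) e1 e2
          exact ⟨b, fun _ => hb⟩
      · by_cases e2 : L.TwoQ H r R (Function.update ω v false)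
        · obtain ⟨b, hb⟩ := TTH2_quart h3 h4 hD (TTH2_upd ω v false) (TTH2_upd ω v true) e2 e1
          exact ⟨b, fun _ => hb⟩
        · exact absurd (iff_of_false e1 e2) hp
    · exact ⟨true, fun h => absurd h hD⟩

end Lat

/-- `ht v = v.2`; in the shell there are at most `4 ρ + 1 ≤ 10 ρ` sites of a given height (the first coordinate is between `-2 ρ` and `2 ρ`). -/
theorem htOK_half {H : Set Pt} (hH : HalfLike H) : HtOK H (fun v => v.2) := by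
  refine ⟨fun v hv => hH.2 hv, fun v _ => (le_abs_self _).trans (abs_nrm v).2, ?_⟩
  intro ρ h hρ
  have h1 : ((ttSh H ρ).filter (fun v => v.2 = h)) ⊆
      Finset.Icc (-(2 * ρ)) (2 * ρ) ×ˢ ({h} : Finset ℤ) := by
    intro v hv
    rw [Finset.mem_filter] at hv
    have h2 := hv.1
    unfold ttSh rectF at h2
    rw [Finset.mem_filter, Finset.mem_product] at h2
    rw [Finset.mem_product, Finset.mem_singleton]
    exact ⟨h2.1.1, hv.2⟩
  have h2 := Finset.card_le_card h1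
  rw [Finset.card_product, Finset.card_singleton, Int.card_Icc, mul_one] at h2
  have h3 : (((ttSh H ρ).filter (fun v => v.2 = h)).card : ℤ) ≤ 10 * ρ := by omega
  exact_mod_cast h3

/-- `ht v = min v.1 v.2`: at most `2 (2 ρ + 1) ≤ 10 ρ` sites -/
theorem htOK_quart {H : Set Pt} (hH : QuartLike H) : HtOK H (fun v => min v.1 v.2) := by
  refine ⟨fun v hv => le_min (hH.2 hv).1 (hH.2 hv).2,
    fun v _ => (min_le_left _ _).trans ((le_abs_self _).trans (abs_nrm v).1), ?_⟩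
  intro ρ h hρ
  have h1 : ((ttSh H ρ).filter (fun v => min v.1 v.2 = h)) ⊆
      (Finset.Icc (-(2 * ρ)) (2 * ρ) ×ˢ ({h} : Finset ℤ)) ∪
        (({h} : Finset ℤ) ×ˢ Finset.Icc (-(2 * ρ)) (2 * ρ)) := by
    intro v hv
    rw [Finset.mem_filter] at hv
    have h2 := hv.1
    unfold ttSh rectF at h2
    rw [Finset.mem_filter, Finset.mem_product] at h2
    rw [Finset.mem_union, Finset.mem_product, Finset.mem_product, Finset.mem_singleton,
      Finset.mem_singleton]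
    have h3 : min v.1 v.2 = h := hv.2
    rcases min_choice v.1 v.2 with h4 | h4
    · exact Or.inr ⟨h4.symm.trans h3, h2.1.2⟩
    · exact Or.inl ⟨h2.1.1, h4.symm.trans h3⟩
  have h2 := (Finset.card_le_card h1).trans (Finset.card_union_le _ _)
  rw [Finset.card_product, Finset.card_product, Finset.card_singleton, Int.card_Icc, mul_one,
    one_mul] at h2
  have h3 : (((ttSh H ρ).filter (fun v => min v.1 v.2 = h)).card : ℤ) ≤ 10 * ρ := by omega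
  exact_mod_cast h3

end SC

end

/-! ### from `Lib_MP_e0a489.FI3` -/

section

/-!
# MP_e0a489, module FI 3: arms around a pivotal set of sites
-/

set_option autoImplicit false

namespace SC

open Classical

namespace Lat

variable {L : Lat} {N N' : ℤ} {E B : Set Pt} {ω : Cfg}

private theorem fi3_agree {B : Set Pt} {ω ω₁ ω₂ : Cfg} {y : Pt} {r : ℤ} (hB : B ⊆ bxAt y r)
    (h1 : ∀ v, v ∉ B → ω₁ v = ω v) (h2 : ∀ v, v ∉ B → ω₂ v = ω v) :
    ∀ v, r < nrm (v - y) → ω₁ v = ω₂ v := by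
  intro v hv
  have h3 : v ∉ B := fun h => absurd (hB h) (not_le.2 hv)
  rw [h1 v h3, h2 v h3]

private theorem fi3_dom {B : Set Pt} {ω ω₁ : Cfg} {y : Pt} {r R : ℤ} {D : Set Pt}
    (hB : B ⊆ bxAt y r) (h1 : ∀ v, v ∉ B → ω₁ v = ω v) : ∀ v ∈ D ∩ annAt y r R, ω₁ v = ω v := by
  intro v hv
  refine h1 v fun h => ?_
  have h2 : nrm (v - y) ≤ r := hB h
  have h3 : r < nrm (v - y) := hv.2.1
  omega

private theorem fi3_left {y v : Pt} {N R : ℤ} (h1 : -N + R ≤ y.1) (hv : v.1 = -N) :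
    R ≤ nrm (v - y) := by
  have h := (XP.abs_nrm (v - y)).1
  rw [Prod.fst_sub] at h
  have := neg_abs_le (v.1 - y.1)
  omega

private theorem fi3_right {y v : Pt} {R : ℤ} (hE : GoodE L N E) (h2 : y.1 + R ≤ N - 1)
    (hv : v ∈ rside N E) : R ≤ nrm (v - y) := by
  have h := (XP.abs_nrm (v - y)).1
  rw [Prod.fst_sub] at h
  have h3 := le_abs_self (v.1 - y.1)
  rcases hv with hv | hv
  · omega
  · have h4 : v.1 + 1 = N := (hE _ hv).1
    omega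

private theorem fi3_bot {y v : Pt} {N' R : ℤ} (h1 : -N' + R ≤ y.2) (hv : v.2 = -N') :
    R ≤ nrm (v - y) := by
  have h := (XP.abs_nrm (v - y)).2
  rw [Prod.snd_sub] at h
  have := neg_abs_le (v.2 - y.2)
  omega

private theorem fi3_top {y v : Pt} {N' R : ℤ} (h1 : y.2 + R ≤ N') (hv : v.2 = N') :
    R ≤ nrm (v - y) := by
  have h := (XP.abs_nrm (v - y)).2
  rw [Prod.snd_sub] at h
  have := le_abs_self (v.2 - y.2)
  omega

/-- Two open clusters, if both vertical sides are far.  `PivS` gives `ω₁`, `ω₂`; `XP.piv_two` with `c = true`, `Q = dom`,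
`S₁ = {v ∈ dom | v.1 = -N}`, `S₂ = dom ∩ rside` (the ends of a path in `dom` are in `dom`).  Distances: `v.1 = -N` gives `|v.1 - y.1| ≥ R`;
a site of `rside` has `v.1 ≥ N - 1` (`GoodE`).  `XP.two_agree`: `ω₁ = ω` on `annAt y r R`, because `B ⊆ bxAt y r`. -/
theorem PivS.two_open (hp : L.PivS N N' E B ω) (hE : GoodE L N E) {y : Pt} {r R : ℤ} (hr : r < R)
    (hB : B ⊆ bxAt y r) (h1 : -N + R ≤ y.1) (h2 : y.1 + R ≤ N - 1) :
    L.Two true (dom N N' E ∩ annAt y r R) (L.nb (bxAt y r)) (rngAt y R) ω := by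
  obtain ⟨ω₁, ω₂, a1, a2, ⟨p, hp, q, hq, hc⟩, b2⟩ := hp
  refine (XP.two_agree (fi3_dom hB a1)).1 ?_
  refine XP.piv_two (S₁ := {v | v.1 = -N}) (S₂ := rside N E) hr (fi3_agree hB a1 a2)
    ⟨p, hp, q, hq, hc⟩ (fun u hu v hv h => b2 ⟨u, hu, v, hv, h⟩) ?_ ?_
  · exact fun v hv => fi3_left h1 hv
  · exact fun v hv => fi3_right hE h2 hv

/-- Two closed clusters, if both horizontal sides are far (`closed_of_not_crs` for `ω₂`, `not_closed_of_crs` for `ω₁`; `XP.piv_two` with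
`c = false` and the configurations exchanged). -/
theorem PivS.two_closed (hp : L.PivS N N' E B ω) (hN : 0 < N) (hN' : 0 < N') (hE : GoodE L N E)
    {y : Pt} {r R : ℤ} (hr : r < R) (hB : B ⊆ bxAt y r) (h1 : -N' + R ≤ y.2)
    (h2 : y.2 + R ≤ N') :
    L.Two false (dom N N' E ∩ annAt y r R) (L.nb (bxAt y r)) (rngAt y R) ω := by
  obtain ⟨ω₁, ω₂, a1, a2, b1, b2⟩ := hp
  refine (XP.two_agree (fi3_dom hB a2)).1 ?_
  refine XP.piv_two (S₁ := {v | v.2 = -N'}) (S₂ := {v | v.2 = N'}) hr (fi3_agree hB a2 a1)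
    (closed_of_not_crs hN hN' hE b2) (not_closed_of_crs hN hE b1) ?_ ?_
  · exact fun v hv => fi3_bot h1 hv
  · exact fun v hv => fi3_top h2 hv

/-- One open arm, if one of the vertical sides is far (`XP.piv_arm`, `S₁` = the far side). -/
theorem PivS.arm_open (hp : L.PivS N N' E B ω) (hE : GoodE L N E) {y : Pt} {r R : ℤ} (hr : r < R)
    (hB : B ⊆ bxAt y r) (h : -N + R ≤ y.1 ∨ y.1 + R ≤ N - 1) :
    L.Arm true (dom N N' E ∩ annAt y r R) (L.nb (bxAt y r)) (rngAt y R) ω := by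
  obtain ⟨ω₁, ω₂, a1, a2, ⟨p, hp, q, hq, hc⟩, b2⟩ := hp
  refine (XP.arm_agree (fi3_dom hB a1)).1 ?_
  rcases h with h | h
  · exact XP.piv_arm (S₁ := {v | v.1 = -N}) (S₂ := rside N E) hr (fi3_agree hB a1 a2)
      ⟨p, hp, q, hq, hc⟩ (fun u hu v hv h => b2 ⟨u, hu, v, hv, h⟩) (fun v hv => fi3_left h hv)
  · exact XP.piv_arm (S₁ := rside N E) (S₂ := {v | v.1 = -N}) hr (fi3_agree hB a1 a2)
      ⟨q, hq, p, hp, hc.symm⟩ (fun u hu v hv h => b2 ⟨v, hv, u, hu, h.symm⟩)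
      (fun v hv => fi3_right hE h hv)

/-- One closed arm, if one of the horizontal sides is far. -/
theorem PivS.arm_closed (hp : L.PivS N N' E B ω) (hN : 0 < N) (hN' : 0 < N') (hE : GoodE L N E)
    {y : Pt} {r R : ℤ} (hr : r < R) (hB : B ⊆ bxAt y r) (h : -N' + R ≤ y.2 ∨ y.2 + R ≤ N') :
    L.Arm false (dom N N' E ∩ annAt y r R) (L.nb (bxAt y r)) (rngAt y R) ω := by
  obtain ⟨ω₁, ω₂, a1, a2, b1, b2⟩ := hp
  refine (XP.arm_agree (fi3_dom hB a2)).1 ?_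
  obtain ⟨p, hp, q, hq, hc⟩ := closed_of_not_crs hN hN' hE b2
  have hnc := not_closed_of_crs hN hE b1 (N' := N')
  rcases h with h | h
  · exact XP.piv_arm (S₁ := {v | v.2 = -N'}) (S₂ := {v | v.2 = N'}) hr (fi3_agree hB a2 a1)
      ⟨p, hp, q, hq, hc⟩ hnc (fun v hv => fi3_bot h hv)
  · exact XP.piv_arm (S₁ := {v | v.2 = N'}) (S₂ := {v | v.2 = -N'}) hr (fi3_agree hB a2 a1)
      ⟨q, hq, p, hp, hc.symm⟩ (fun u hu v hv h => hnc v hv u hu h.symm)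
      (fun v hv => fi3_top h hv)

end Lat

end SC

end

/-! ### from `Lib_MP_e0a489.FI4` -/

section

/-!
# MP_e0a489, module FI 4: local shape of a domain: half planes and quarter planes
-/

set_option autoImplicit false

namespace SC

open Classical

/-- the set `annAt y r R ∩ image of H` for a shape `H` given by `D` on its boundary -/
private theorem fi4_image (D H : Set Pt) (s : ℤ) (z y : Pt) (r R : ℤ) (hz : rt s z = y)
    (hH : ∀ v, nrm v ≤ R → (v ∈ H ↔ rt s v + y ∈ D)) :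
    annAt y r R ∩ (rt s * Equiv.addRight z : Equiv.Perm Pt) '' H = D ∩ annAt y r R := by
  have hap : ∀ v, (rt s * Equiv.addRight z : Equiv.Perm Pt) v = rt s v + y := by
    intro v
    rw [XP.rtz_apply, XP.rt_lin, hz]
  ext u
  constructor
  · rintro ⟨hu, v, hv, rfl⟩
    refine ⟨?_, hu⟩
    rw [hap] at hu ⊢
    have h1 : nrm (rt s v + y - y) ≤ R := hu.2
    rw [add_sub_cancel_right, nrm_rt] at h1
    exact (hH v h1).1 hv
  · rintro ⟨hD, hu⟩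
    refine ⟨hu, (rt s * Equiv.addRight z : Equiv.Perm Pt).symm u, ?_, Equiv.apply_symm_apply _ u⟩
    obtain ⟨v, rfl⟩ : ∃ v, u = (rt s * Equiv.addRight z : Equiv.Perm Pt) v :=
      ⟨_, (Equiv.apply_symm_apply _ u).symm⟩
    rw [Equiv.symm_apply_apply]
    rw [hap] at hu hD
    have h1 : nrm (rt s v + y - y) ≤ R := hu.2
    rw [add_sub_cancel_right, nrm_rt] at h1
    exact (hH v h1).2 hD

/-- Near `y` the domain `D` is a half plane (seen through `v ↦ rt s v + y`), with arbitrary sites of the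
boundary row.  Take `z = rt (-s) y` (so `rt s z = y`, `(rt s * addRight z) v = rt s v + y`) and
`H = {v | 0 ≤ v.2 ∧ (v.2 = 0 → rt s v + y ∈ D)}`.  `twoH_iff`; the set `annAt y r R ∩ image of H` is `D ∩ annAt y r R`: for `u = rt s v + y` in
the annulus `nrm v = nrm (u - y) ≤ R`, and `u ∈ D ↔ v ∈ H` by the two hypotheses. -/
theorem half_shape (L : Lat) (c : Bool) (D : Set Pt) (s : ℤ) (y : Pt) (r R : ℤ)
    (h1 : ∀ v, nrm v ≤ R → v.2 < 0 → rt s v + y ∉ D)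
    (h2 : ∀ v, nrm v ≤ R → 1 ≤ v.2 → rt s v + y ∈ D) :
    ∃ (z : Pt) (H : Set Pt), HalfLike H ∧
      ∀ ω, L.Two c (D ∩ annAt y r R) (L.nb (bxAt y r)) (rngAt y R) ω ↔
        ((L.rots s).shift z).TwoH c H r R (via (rt s * Equiv.addRight z) ω) := by
  have hz : rt s ((rt s).symm y) = y := Equiv.apply_symm_apply _ y
  refine ⟨(rt s).symm y, {v | 0 ≤ v.2 ∧ (v.2 = 0 → rt s v + y ∈ D)}, ⟨?_, ?_⟩, ?_⟩
  · intro v hv
    have h : (1 : ℤ) ≤ v.2 := hv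
    exact ⟨by omega, fun h0 => by omega⟩
  · intro v hv
    exact hv.1
  · intro ω
    rw [XP.twoH_iff, hz, fi4_image D _ s _ y r R hz]
    intro v hv
    constructor
    · rintro ⟨h3, h4⟩
      by_cases h0 : v.2 = 0
      · exact h4 h0
      · exact h2 v hv (by omega)
    · intro h3
      refine ⟨?_, fun _ => h3⟩
      by_contra h0
      exact h1 v hv (by omega) h3

/-- The same for a corner, `H = {v | 0 ≤ v.1 ∧ 0 ≤ v.2 ∧ (v.1 = 0 ∨ v.2 = 0 → rt s v + y ∈ D)}` (`twoQ_iff`). -/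
theorem quart_shape (L : Lat) (D : Set Pt) (s : ℤ) (y : Pt) (r R : ℤ)
    (h1 : ∀ v, nrm v ≤ R → v.1 < 0 ∨ v.2 < 0 → rt s v + y ∉ D)
    (h2 : ∀ v, nrm v ≤ R → 1 ≤ v.1 → 1 ≤ v.2 → rt s v + y ∈ D) :
    ∃ (z : Pt) (H : Set Pt), QuartLike H ∧
      ∀ ω, (∀ c : Bool, L.Arm c (D ∩ annAt y r R) (L.nb (bxAt y r)) (rngAt y R) ω) ↔
        ((L.rots s).shift z).TwoQ H r R (via (rt s * Equiv.addRight z) ω) := by
  have hz : rt s ((rt s).symm y) = y := Equiv.apply_symm_apply _ y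
  refine ⟨(rt s).symm y, {v | (0 ≤ v.1 ∧ 0 ≤ v.2) ∧ (v.1 = 0 ∨ v.2 = 0 → rt s v + y ∈ D)},
    ⟨?_, ?_⟩, ?_⟩
  · rintro v ⟨h3, h4⟩
    exact ⟨⟨by omega, by omega⟩, fun h0 => by omega⟩
  · intro v hv
    exact hv.1
  · intro ω
    rw [XP.twoQ_iff, hz, fi4_image D _ s _ y r R hz]
    intro v hv
    constructor
    · rintro ⟨⟨h3, h3'⟩, h4⟩
      by_cases h0 : v.1 = 0 ∨ v.2 = 0
      · exact h4 h0
      · exact h2 v hv (by omega) (by omega)
    · intro h3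
      refine ⟨?_, fun _ => h3⟩
      by_contra h0
      exact h1 v hv (by omega) h3

private theorem fi4_in {L : Lat} {N N' : ℤ} {E : Set Pt} (hE : GoodE L N E) {u : Pt}
    (h1 : -N ≤ u.1) (h2 : u.1 < N) (h3 : -N' ≤ u.2) (h4 : u.2 ≤ N') : u ∈ dom N N' E := by
  refine ⟨⟨⟨h1, by omega⟩, h3, h4⟩, fun hu => ?_⟩
  have := (hE u hu).1
  omega

private theorem fi4_out {N N' : ℤ} {E : Set Pt} {u : Pt}
    (h : u.1 < -N ∨ N < u.1 ∨ u.2 < -N' ∨ N' < u.2) : u ∉ dom N N' E := by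
  rintro ⟨⟨⟨h1, h2⟩, h3, h4⟩, -⟩
  omega

private theorem fi4_nrm {v : Pt} {R : ℤ} (h : nrm v ≤ R) :
    -R ≤ v.1 ∧ v.1 ≤ R ∧ -R ≤ v.2 ∧ v.2 ≤ R := by
  have h2 : max |v.1| |v.2| ≤ R := h
  rw [max_le_iff, abs_le, abs_le] at h2
  exact ⟨h2.1.1, h2.1.2, h2.2.1, h2.2.2⟩

private theorem fi4_c0 (v y : Pt) : (rt 0 v + y).1 = v.1 + y.1 ∧ (rt 0 v + y).2 = v.2 + y.2 := by
  rw [rt_zero]
  exact ⟨rfl, rfl⟩

private theorem fi4_c1 (v y : Pt) : (rt 1 v + y).1 = -v.2 + y.1 ∧ (rt 1 v + y).2 = v.1 + y.2 := by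
  rw [rt_one]
  exact ⟨rfl, rfl⟩

private theorem fi4_c2 (v y : Pt) :
    (rt 2 v + y).1 = -v.1 + y.1 ∧ (rt 2 v + y).2 = -v.2 + y.2 := by
  rw [rt_two]
  exact ⟨rfl, rfl⟩

private theorem fi4_c3 (v y : Pt) : (rt 3 v + y).1 = v.2 + y.1 ∧ (rt 3 v + y).2 = -v.1 + y.2 := by
  rw [rt_three]
  exact ⟨rfl, rfl⟩

/-- Sides of the domain: `s = 0` lower, `1` right, `2` upper, `3` left; `y` on the side, far from the two neighbouring
sides and the opposite side (`R ≤ N`, `R ≤ N'`).  `rt 0 v = v`, `rt 1 v = (-v.2, v.1)`, `rt 2 v = -v`, `rt 3 v = (v.2, -v.1)`.  A site `rt s v + y` with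
`1 ≤ v.2 ≤ R` is in the rectangle and not in the last column (for `s` even `|y.1| + R ≤ N - 1`; for `s = 1` the first coordinate is
`N - v.2 ≤ N - 1`; for `s = 3` it is `-N + v.2 ≤ 0 < N`), so it is not in `E`. -/
theorem dom_half {L : Lat} {N N' : ℤ} {E : Set Pt} (hE : GoodE L N E) {y : Pt} {R : ℤ}
    (hR0 : 0 ≤ R) (hN : 0 < N) (hR : R ≤ N) (hR' : R ≤ N')
    (h : ((y.2 = -N' ∨ y.2 = N') ∧ |y.1| + R ≤ N - 1) ∨
      ((y.1 = -N ∨ y.1 = N) ∧ |y.2| + R ≤ N')) :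
    ∃ s : ℤ, (∀ v, nrm v ≤ R → v.2 < 0 → rt s v + y ∉ dom N N' E) ∧
      (∀ v, nrm v ≤ R → 1 ≤ v.2 → rt s v + y ∈ dom N N' E) := by
  rcases h with ⟨h, hy⟩ | ⟨h, hy⟩
  · have g1 := le_abs_self y.1
    have g2 := neg_abs_le y.1
    rcases h with h | h
    · refine ⟨0, fun v hv h0 => fi4_out ?_, fun v hv h0 => ?_⟩
      · obtain ⟨e1, e2⟩ := fi4_c0 v y
        omega
      · obtain ⟨e1, e2⟩ := fi4_c0 v y
        obtain ⟨n1, n2, n3, n4⟩ := fi4_nrm hv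
        exact fi4_in hE (by omega) (by omega) (by omega) (by omega)
    · refine ⟨2, fun v hv h0 => fi4_out ?_, fun v hv h0 => ?_⟩
      · obtain ⟨e1, e2⟩ := fi4_c2 v y
        omega
      · obtain ⟨e1, e2⟩ := fi4_c2 v y
        obtain ⟨n1, n2, n3, n4⟩ := fi4_nrm hv
        exact fi4_in hE (by omega) (by omega) (by omega) (by omega)
  · have g1 := le_abs_self y.2
    have g2 := neg_abs_le y.2
    rcases h with h | h
    · refine ⟨3, fun v hv h0 => fi4_out ?_, fun v hv h0 => ?_⟩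
      · obtain ⟨e1, e2⟩ := fi4_c3 v y
        omega
      · obtain ⟨e1, e2⟩ := fi4_c3 v y
        obtain ⟨n1, n2, n3, n4⟩ := fi4_nrm hv
        exact fi4_in hE (by omega) (by omega) (by omega) (by omega)
    · refine ⟨1, fun v hv h0 => fi4_out ?_, fun v hv h0 => ?_⟩
      · obtain ⟨e1, e2⟩ := fi4_c1 v y
        omega
      · obtain ⟨e1, e2⟩ := fi4_c1 v y
        obtain ⟨n1, n2, n3, n4⟩ := fi4_nrm hv
        exact fi4_in hE (by omega) (by omega) (by omega) (by omega)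

/-- Corners: `s = 0` lower left, `1` lower right, `2` upper right, `3` upper left. -/
theorem dom_quart {L : Lat} {N N' : ℤ} {E : Set Pt} (hE : GoodE L N E) {y : Pt} {R : ℤ}
    (hR0 : 0 ≤ R) (hN : 0 < N) (hR : R ≤ N) (hR' : R ≤ N') (h1 : y.1 = -N ∨ y.1 = N)
    (h2 : y.2 = -N' ∨ y.2 = N') :
    ∃ s : ℤ, (∀ v, nrm v ≤ R → v.1 < 0 ∨ v.2 < 0 → rt s v + y ∉ dom N N' E) ∧
      (∀ v, nrm v ≤ R → 1 ≤ v.1 → 1 ≤ v.2 → rt s v + y ∈ dom N N' E) := by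
  rcases h1 with h1 | h1 <;> rcases h2 with h2 | h2
  · refine ⟨0, fun v hv h0 => fi4_out ?_, fun v hv h0 h0' => ?_⟩
    · obtain ⟨e1, e2⟩ := fi4_c0 v y
      omega
    · obtain ⟨e1, e2⟩ := fi4_c0 v y
      obtain ⟨n1, n2, n3, n4⟩ := fi4_nrm hv
      exact fi4_in hE (by omega) (by omega) (by omega) (by omega)
  · refine ⟨3, fun v hv h0 => fi4_out ?_, fun v hv h0 h0' => ?_⟩
    · obtain ⟨e1, e2⟩ := fi4_c3 v y
      omega
    · obtain ⟨e1, e2⟩ := fi4_c3 v y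
      obtain ⟨n1, n2, n3, n4⟩ := fi4_nrm hv
      exact fi4_in hE (by omega) (by omega) (by omega) (by omega)
  · refine ⟨1, fun v hv h0 => fi4_out ?_, fun v hv h0 h0' => ?_⟩
    · obtain ⟨e1, e2⟩ := fi4_c1 v y
      omega
    · obtain ⟨e1, e2⟩ := fi4_c1 v y
      obtain ⟨n1, n2, n3, n4⟩ := fi4_nrm hv
      exact fi4_in hE (by omega) (by omega) (by omega) (by omega)
  · refine ⟨2, fun v hv h0 => fi4_out ?_, fun v hv h0 h0' => ?_⟩
    · obtain ⟨e1, e2⟩ := fi4_c2 v y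
      omega
    · obtain ⟨e1, e2⟩ := fi4_c2 v y
      obtain ⟨n1, n2, n3, n4⟩ := fi4_nrm hv
      exact fi4_in hE (by omega) (by omega) (by omega) (by omega)

end SC

end
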