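import Mathlib
import Pool.Agent.Lib_MP_e0a489_m.G06
import Pool.Agent.Lib_MP_e0a489_m.G15
import Pool.Agent.Lib_MP_e0a489_m.G16
import Pool.Agent.Lib_MP_e0a489_m.G17
import Pool.Agent.Lib_MP_e0a489_m.G18

/-!
# MP_e0a489_pr: merged library part G21

Concatenation of library files (each in its own section), only to save build time.
-/

/-! ### from `Lib_MP_e0a489.SE20` -/

section

/-!
# MP_e0a489, module SE 20: the two-time separation theorem
-/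

set_option autoImplicit false

namespace SC

variable [IfL]

open Classical

theorem Loc.via {A : Cfg → Prop} (hA : Loc A) (e : Equiv.Perm Pt) :
    Loc fun ω => A (SC.via e ω) := by
  obtain ⟨F, hF⟩ := hA
  refine ⟨F.image e, fun ω ω' h => ?_⟩
  refine hF _ _ fun v hv => ?_
  have h1 : e v ∈ ((F.image e : Finset Pt) : Set Pt) := by
    rw [Finset.mem_coe, Finset.mem_image]
    exact ⟨v, hv, rfl⟩
  exact h (e v) h1

theorem Loc.flip {A : Cfg → Prop} (hA : Loc A) : Loc fun ω => A fun v => ! ω v := by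
  obtain ⟨F, hF⟩ := hA
  refine ⟨F, fun ω ω' h => ?_⟩
  refine hF _ _ fun v hv => ?_
  have h1 := h v hv
  simp only [h1]

/-- colour exchange and transposition, in law: `pr2_flip` and `pr2_via` -/
theorem pr2_swtr {A : Cfg → Prop} (hA : Loc A) (k : Pt → ℝ) :
    pr2 k (fun ω => A (via (Equiv.prodComm ℤ ℤ) fun v => ! ω v)) =
      pr2 (fun v => k (v.2, v.1)) A := by
  have h1 := pr2_via hA.flip (Equiv.prodComm ℤ ℤ) k
  have h2 := pr2_flip hA (fun v => k ((Equiv.prodComm ℤ ℤ) v))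
  exact h1.trans h2

/-- `sep_out` and `sep_in`. -/
theorem sep2_true (κ : ℕ → ℝ) : ∃ (C : ℝ) (R₀ : ℤ), 0 < C ∧ 16 ≤ R₀ ∧ ∀ L : Lat, RSW L κ →
    ∀ k : Pt → ℝ, Kap k → ∀ r R : ℤ, R₀ ≤ r → r ≤ R →
      pr2 k (L.TwoA true r R) ≤ C * pr2 (kz k r R) (L.S4 r R) := by
  obtain ⟨C₁, R₁, hC₁, hR₁, H₁⟩ := sep_out κ
  obtain ⟨C₂, R₂, hC₂, hR₂, H₂⟩ := sep_in κ
  refine ⟨C₁ * C₂, max R₁ R₂, mul_pos hC₁ hC₂, le_max_of_le_left hR₁, ?_⟩
  intro L hL k hk r R hr hrR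
  have h1 := H₁ L hL k hk r R ((le_max_left _ _).trans hr) hrR
  have h2 := H₂ L hL k hk r R ((le_max_right _ _).trans hr) hrR
  have h3 := mul_le_mul_of_nonneg_left h2 hC₁.le
  rw [mul_assoc]
  exact h1.trans h3

/-- For `c = false` apply `sep2_true` to the lattice `L.sw.tr` (`RSW.sw`, `RSW.tr`) and the correlation `k (v.2, v.1)`; `TwoA_swtr`, `S4_swtr`,
`pr2_swtr`; `kz` commutes with the transposition because the norm is invariant. -/
theorem sep2_x (κ : ℕ → ℝ) : ∃ (C : ℝ) (R₀ : ℤ), 0 < C ∧ 16 ≤ R₀ ∧ ∀ L : Lat, RSW L κ →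
    ∀ k : Pt → ℝ, (∀ v, 0 ≤ k v ∧ k v ≤ 1) → ∀ (c : Bool) (r R : ℤ), R₀ ≤ r → r ≤ R →
      pr2 k (L.TwoA c r R) ≤ C * pr2 (kz k r R) (L.S4 r R) := by
  obtain ⟨C, R₀, hC, hR₀, H⟩ := sep2_true κ
  refine ⟨C, R₀, hC, hR₀, ?_⟩
  intro L hL k hk c r R hr hrR
  cases c with
  | true => exact H L hL k hk r R hr hrR
  | false =>
    have h1 := H L.sw.tr hL.sw.tr (fun v => k (v.2, v.1)) (fun v => hk _) r R hr hrR
    have e1 : pr2 k (L.TwoA false r R) =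
        pr2 (fun v => k (v.2, v.1)) (L.sw.tr.TwoA true r R) := by
      rw [← pr2_swtr (Lat.TwoA.loc L.sw.tr true r R) k]
      congr 1
      funext ω
      exact propext (Lat.TwoA_swtr L true r R ω).symm
    have e2 : pr2 (kz k r R) (L.S4 r R) =
        pr2 (kz (fun v => k (v.2, v.1)) r R) (L.sw.tr.S4 r R) := by
      have e3 : kz (fun v => k (v.2, v.1)) r R = fun v => kz k r R (v.2, v.1) := by
        funext v
        have hn : nrm (v.2, v.1) = nrm v := max_comm _ _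
        unfold kz
        rw [hn]
      rw [e3, ← pr2_swtr (Lat.S4.loc L.sw.tr r R) (kz k r R)]
      congr 1
      funext ω
      exact propext (Lat.S4_swtr L r R ω).symm
    rw [e1, e2]
    exact h1

end SC

end

/-! ### from `Lib_MP_e0a489.SE22` -/

section

/-!
# MP_e0a489, module SE 22: two-time extension (all ratios) and gluing
-/

set_option autoImplicit false

namespace SC

variable [IfL]

open Classical

/-- TWO-TIME EXTENSION.  Constants: `q = κ 2000 ^ 16` (if `κ 2000 ≤ 0` there is no `L` with `RSW L κ`), `C₁, R₁` from `sep2_x`,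
`C = q⁻¹ * q⁻¹ * max 1 C₁ + (κ 20000 ^ 8)⁻¹`, `R₀ = 8 R₁ + 200`.
If `R' ≤ 1000 r'`: the right side is at least `1` (`S4_base'`, `pr2_ge_sq`) and the left side at most `1`.  Otherwise `r' < R'`.
Outward: `outS2`: `pr2 (kz k r R) (S4 r R) ≤ q⁻¹ pr2 (kz k r R') (S4 r R')`.
Inward, case `2 r' ≤ r`: `inS2` from `r` to `r'`.
Inward, case `r < 2 r'`: with `r'' = r / 4` (`2 r'' ≤ r ≤ 64 r''`, `16 ≤ r''`, `r'' ≤ r'`), `inS2` from `r` to `r''` and
`S4 r'' R' ⊆ TwoAt true 0 r' R' = TwoA true r' R'` (`S4_twoAt_x` with `d = 0`, `TwoAt_zero`), then `sep2_x` for the correlation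
`kz k r'' R'`: `≤ C₁ pr2 (kz (kz k r'' R') r' R') (S4 r' R') ≤ C₁ pr2 (kz k r' R') (S4 r' R')` (`kz_kz_le`). -/
theorem ext2_x (κ : ℕ → ℝ) : ∃ (C : ℝ) (R₀ : ℤ), 0 < C ∧ 16 ≤ R₀ ∧ ∀ L : Lat, RSW L κ →
    ∀ k : Pt → ℝ, (∀ v, 0 ≤ k v ∧ k v ≤ 1) → ∀ r R r' R' : ℤ, R₀ ≤ r' → r' ≤ r → r ≤ 64 * r' →
      r ≤ R → R ≤ R' → R' ≤ 64 * R →
      pr2 (kz k r R) (L.S4 r R) ≤ C * pr2 (kz k r' R') (L.S4 r' R') := by
  by_cases hpos : 0 < κ 2000 ∧ 0 < κ 20000
  swap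
  · refine ⟨1, 16, one_pos, le_refl _, fun L hL => ?_⟩
    exact absurd ⟨hL.pos 2000, hL.pos 20000⟩ hpos
  obtain ⟨hp1, hp2⟩ := hpos
  obtain ⟨C₁, R₁, hC₁, hR₁, hsep⟩ := sep2_x κ
  have hq : 0 < κ 2000 ^ 16 := pow_pos hp1 16
  have hs : 0 < κ 20000 ^ 8 := pow_pos hp2 8
  have hm : (0 : ℝ) < max 1 C₁ := lt_of_lt_of_le one_pos (le_max_left _ _)
  refine ⟨(κ 2000 ^ 16)⁻¹ * (κ 2000 ^ 16)⁻¹ * max 1 C₁ + (κ 20000 ^ 8)⁻¹, 8 * R₁ + 200, by positivity,
    by omega, ?_⟩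
  intro L hL k hk' r R r' R' h0 h1 h2 h3 h4 h5
  have hk : Kap k := hk'
  have hQ : 0 ≤ pr2 (kz k r' R') (L.S4 r' R') := pr2_nonneg _ (kz_kap hk r' R')
  by_cases hA : R' ≤ 1000 * r'
  · have e1 : κ 20000 ^ 4 ≤ pr (L.S4 r' R') := S4_base' hL (by omega) (by omega) hA
    have e2 : pr (L.S4 r' R') ^ 2 ≤ pr2 (kz k r' R') (L.S4 r' R') :=
      pr2_ge_sq (Lat.S4.loc L r' R') (kz_kap hk r' R')
    have e3 : (κ 20000 ^ 4) ^ 2 ≤ pr (L.S4 r' R') ^ 2 :=
      pow_le_pow_left₀ (le_of_lt (pow_pos hp2 4)) e1 2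
    have e4 : (κ 20000 ^ 4) ^ 2 = κ 20000 ^ 8 := by rw [← pow_mul]
    have e5 : κ 20000 ^ 8 ≤ pr2 (kz k r' R') (L.S4 r' R') := by
      rw [← e4]
      exact le_trans e3 e2
    have e6 : pr2 (kz k r R) (L.S4 r R) ≤ 1 := pr2_le_one (Lat.S4.loc L r R) (kz_kap hk r R)
    have e7 : 1 ≤ (κ 20000 ^ 8)⁻¹ * pr2 (kz k r' R') (L.S4 r' R') := by
      rw [inv_mul_eq_div, le_div_iff₀ hs, one_mul]
      exact e5
    have e8 : 0 ≤ (κ 2000 ^ 16)⁻¹ * (κ 2000 ^ 16)⁻¹ * max 1 C₁ *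
        pr2 (kz k r' R') (L.S4 r' R') := mul_nonneg (by positivity) hQ
    rw [add_mul]
    linarith
  · have hA' : 1000 * r' < R' := not_le.1 hA
    have f1 : κ 2000 ^ 16 * pr2 (kz k r R) (L.S4 r R) ≤ pr2 (kz k r R') (L.S4 r R') :=
      outS2 hL hk (by omega) (by omega) h3 h4 h5
    have f2 : κ 2000 ^ 16 * pr2 (kz k r R') (L.S4 r R') ≤
        max 1 C₁ * pr2 (kz k r' R') (L.S4 r' R') := by
      by_cases hB : 2 * r' ≤ r
      · refine le_trans (inS2 hL hk (by omega) hB h2 (by omega)) ?_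
        exact le_mul_of_one_le_left hQ (le_max_left _ _)
      · have g1 : κ 2000 ^ 16 * pr2 (kz k r R') (L.S4 r R') ≤
            pr2 (kz k (r / 4) R') (L.S4 (r / 4) R') :=
          inS2 hL hk (by omega) (by omega) (by omega) (by omega)
        have g2 : pr2 (kz k (r / 4) R') (L.S4 (r / 4) R') ≤
            pr2 (kz k (r / 4) R') (L.TwoA true r' R') := by
          refine pr2_mono (Lat.S4.loc L (r / 4) R') (Lat.TwoA.loc L true r' R')
            (kz_kap hk (r / 4) R') fun ω hω => ?_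
          rw [← TwoAt_zero]
          refine S4_twoAt_x (d := 0) hω (by omega) ?_ (by omega) (by omega) (by omega)
          simp [nrm]
        have g3 : pr2 (kz k (r / 4) R') (L.TwoA true r' R') ≤
            C₁ * pr2 (kz (kz k (r / 4) R') r' R') (L.S4 r' R') :=
          hsep L hL (kz k (r / 4) R') (kz_kap hk (r / 4) R') true r' R' (by omega) (by omega)
        have g4 : pr2 (kz (kz k (r / 4) R') r' R') (L.S4 r' R') ≤
            pr2 (kz k r' R') (L.S4 r' R') :=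
          pr2_mono_k (Lat.S4.loc L r' R') (fun v => (kz_kap (kz_kap hk (r / 4) R') r' R' v).1)
            fun v => kz_kz_le hk (r / 4) R' r' R' v
        have g5 : C₁ * pr2 (kz (kz k (r / 4) R') r' R') (L.S4 r' R') ≤
            max 1 C₁ * pr2 (kz k r' R') (L.S4 r' R') :=
          le_trans (mul_le_mul_of_nonneg_left g4 (le_of_lt hC₁))
            (mul_le_mul_of_nonneg_right (le_max_right _ _) hQ)
        exact le_trans g1 (le_trans g2 (le_trans g3 g5))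
    have f3 : pr2 (kz k r R) (L.S4 r R) ≤
        (κ 2000 ^ 16)⁻¹ * ((κ 2000 ^ 16)⁻¹ * (max 1 C₁ * pr2 (kz k r' R') (L.S4 r' R'))) := by
      rw [inv_mul_eq_div, le_div_iff₀ hq, mul_comm]
      refine le_trans f1 ?_
      rw [inv_mul_eq_div, le_div_iff₀ hq, mul_comm]
      exact f2
    have f4 : 0 ≤ (κ 20000 ^ 8)⁻¹ * pr2 (kz k r' R') (L.S4 r' R') :=
      mul_nonneg (le_of_lt (inv_pos.mpr hs)) hQ
    have f5 : (κ 2000 ^ 16)⁻¹ * ((κ 2000 ^ 16)⁻¹ * (max 1 C₁ * pr2 (kz k r' R') (L.S4 r' R'))) =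
        (κ 2000 ^ 16)⁻¹ * (κ 2000 ^ 16)⁻¹ * max 1 C₁ * pr2 (kz k r' R') (L.S4 r' R') := by ring
    rw [add_mul]
    linarith

/-- `glueS2`, `C = (κ 2000 ^ 24)⁻¹` (if `κ 2000 ≤ 0` there is no `L`; take `C = 1`). -/
theorem glue2_x (κ : ℕ → ℝ) : ∃ (C : ℝ) (R₀ : ℤ), 0 < C ∧ 16 ≤ R₀ ∧ ∀ L : Lat, RSW L κ →
    ∀ k : Pt → ℝ, (∀ v, 0 ≤ k v ∧ k v ≤ 1) → ∀ r ρ ρ' R : ℤ, R₀ ≤ r → r ≤ ρ → 8 * ρ ≤ ρ' →
      ρ' ≤ 64 * ρ → ρ' ≤ R →
      pr2 (kz k r ρ) (L.S4 r ρ) * pr2 (kz k ρ' R) (L.S4 ρ' R) ≤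
        C * pr2 (kz k r R) (L.S4 r R) := by
  by_cases hpos : 0 < κ 2000
  swap
  · refine ⟨1, 16, one_pos, le_refl _, fun L hL => ?_⟩
    exact absurd (hL.pos 2000) hpos
  have hq : 0 < κ 2000 ^ 24 := pow_pos hpos 24
  refine ⟨(κ 2000 ^ 24)⁻¹, 16, inv_pos.mpr hq, le_refl _, ?_⟩
  intro L hL k hk r ρ ρ' R h0 h1 h2 h3 h4
  rw [inv_mul_eq_div, le_div_iff₀ hq, mul_comm]
  exact glueS2 hL hk (by omega) (by omega) h1 h2 h3 h4

end SC

end

/-! ### from `Lib_MP_e0a489.SE23` -/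

section

/-!
# MP_e0a489, module SE 23: comparison and quasi-multiplicativity for pairs of configurations
-/

set_option autoImplicit false

namespace SC

variable [IfL]

open Classical

private theorem SE23_S4_le {L : Lat} {k : Pt → ℝ} (hk : Kap k) {a b : ℤ} {r R r₁ R₁ : ℤ} {x : Pt}
    (c : Bool) (hr : 16 ≤ r) (h1 : r + nrm x ≤ r₁) (h2 : r₁ < R₁) (h3 : R₁ + nrm x ≤ R) :
    pr2 (kz k a b) (L.S4 r R) ≤ pr2 k (L.TwoAt c x r₁ R₁) := by
  have hkz : Kap (kz k a b) := kz_kap hk a b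
  calc pr2 (kz k a b) (L.S4 r R) ≤ pr2 (kz k a b) (L.TwoAt c x r₁ R₁) :=
        pr2_mono (Lat.S4.loc L r R) (TwoAt_loc L c x r₁ R₁) hkz
          fun ω h => S4_twoAt_x h hr le_rfl h1 h2 h3
    _ ≤ pr2 k (L.TwoAt c x r₁ R₁) :=
        pr2_mono_k (TwoAt_loc L c x r₁ R₁) (fun v => (hkz v).1) (kz_le_self hk a b)

private theorem SE23_zero {A : Cfg → Prop} (h : ∀ ω, ¬ A ω) (k : Pt → ℝ) : pr2 k A = 0 := by
  have h0 : ∀ ω, ind A ω = 0 := fun ω => if_neg (h ω)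
  unfold pr2 ex2
  split_ifs
  · unfold ex2F
    simp [h0]
  · rfl

/-- Radii changed by bounded factors, first the separated event.  `sep2_x` for `(r, R)`, `ext2_x` from `(r, R)` to `(r / 4, 5 R)`,
`S4_twoAt_x` with `d = nrm x` (`r / 4 + nrm x ≤ r / 2 ≤ r'`, `R' + nrm x ≤ 4 R + R / 4 ≤ 5 R`), `pr2_mono` (`TwoAt_loc`), `pr2_mono_k` (`kz_le_self`).
`R₀` = four times the constants of the two theorems plus `64`. -/
theorem cmp2_x (κ : ℕ → ℝ) : ∃ (C : ℝ) (R₀ : ℤ), 0 < C ∧ 16 ≤ R₀ ∧ ∀ L : Lat, RSW L κ →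
    ∀ k : Pt → ℝ, (∀ v, 0 ≤ k v ∧ k v ≤ 1) → ∀ (c c' : Bool) (x : Pt) (r R r' R' : ℤ),
      R₀ ≤ r → R₀ ≤ r' → r ≤ R → 4 * nrm x ≤ r → r ≤ 2 * r' → r' < R' → R' ≤ 4 * R →
      pr2 k (L.TwoA c r R) ≤ C * pr2 k (L.TwoAt c' x r' R') := by
  obtain ⟨C₁, R₁, hC₁, hR₁, H1⟩ := sep2_x κ
  obtain ⟨C₂, R₂, hC₂, hR₂, H2⟩ := ext2_x κ
  refine ⟨C₁ * C₂, 4 * (R₁ + R₂) + 64, mul_pos hC₁ hC₂, by omega, ?_⟩
  intro L hL k hk c c' x r R r' R' hr hr' hrR hx h2 h3 h4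
  have a1 := H1 L hL k hk c r R (by omega) hrR
  have a2 := H2 L hL k hk r R (r / 4) (5 * R) (by omega) (by omega) (by omega) hrR (by omega)
    (by omega)
  have a3 : pr2 (kz k (r / 4) (5 * R)) (L.S4 (r / 4) (5 * R)) ≤ pr2 k (L.TwoAt c' x r' R') :=
    SE23_S4_le hk c' (by omega) (by omega) h3 (by omega)
  calc pr2 k (L.TwoA c r R) ≤ C₁ * pr2 (kz k r R) (L.S4 r R) := a1
    _ ≤ C₁ * (C₂ * pr2 (kz k (r / 4) (5 * R)) (L.S4 (r / 4) (5 * R))) :=
        mul_le_mul_of_nonneg_left a2 hC₁.le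
    _ ≤ C₁ * (C₂ * pr2 k (L.TwoAt c' x r' R')) :=
        mul_le_mul_of_nonneg_left (mul_le_mul_of_nonneg_left a3 hC₂.le) hC₁.le
    _ = C₁ * C₂ * pr2 k (L.TwoAt c' x r' R') := by ring

private theorem SE23_S4_le0 {L : Lat} {k : Pt → ℝ} (hk : Kap k) {a b : ℤ} {r R : ℤ}
    (c : Bool) (hr : 16 ≤ r) (h2 : r < R) :
    pr2 (kz k a b) (L.S4 r R) ≤ pr2 k (L.TwoA c r R) := by
  have hn : nrm (0 : Pt) = 0 := by simp [nrm]
  have h := SE23_S4_le (L := L) (k := k) hk (a := a) (b := b) (r := r) (R := R) (r₁ := r)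
    (R₁ := R) (x := 0) c hr (by omega) h2 (by omega)
  have e : L.TwoAt c 0 r R = L.TwoA c r R := by
    funext ω
    exact propext (TwoAt_zero L c r R ω)
  rwa [e] at h

/-- QUASI-MULTIPLICATIVITY.  If `r = ρ` or `ρ = R` the left side is `0` (`TwoA_false`: `pr2 k False = 0`, e.g. `pr2_mono` with an event of
probability `0`, or `ind` is the zero function) and the right side is `≥ 0`.  So `r < ρ < R`.
Case `8 ρ < R`: `TwoA c ρ R ⊆ TwoA c (8ρ) R` (`TwoA.mono`); `sep2_x` for both factors; `glue2_x` with `ρ' = 8 ρ`; `S4 r R ⊆ TwoA c r R` (`S4_twoAt_x`,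
`x = 0`, `d = 0`, `TwoAt_zero`); `kz k r R ≤ k`.
Case `R ≤ 8 ρ`: the second factor is `≤ 1`; `sep2_x` for `(r, ρ)`, `ext2_x` from `(r, ρ)` to `(r, R)` (`R ≤ 64 ρ`), and again
`S4 r R ⊆ TwoA c r R`. -/
theorem qmult2_x (κ : ℕ → ℝ) : ∃ (C : ℝ) (R₀ : ℤ), 0 < C ∧ 16 ≤ R₀ ∧ ∀ L : Lat, RSW L κ →
    ∀ k : Pt → ℝ, (∀ v, 0 ≤ k v ∧ k v ≤ 1) → ∀ (c : Bool) (r ρ R : ℤ),
      R₀ ≤ r → r ≤ ρ → ρ ≤ R →
      pr2 k (L.TwoA c r ρ) * pr2 k (L.TwoA c ρ R) ≤ C * pr2 k (L.TwoA c r R) := by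
  obtain ⟨C₁, R₁, hC₁, hR₁, H1⟩ := sep2_x κ
  obtain ⟨C₂, R₂, hC₂, hR₂, H2⟩ := ext2_x κ
  obtain ⟨C₃, R₃, hC₃, hR₃, H3⟩ := glue2_x κ
  refine ⟨C₁ * C₁ * C₃ + C₁ * C₂, R₁ + R₂ + R₃, by positivity, by omega, ?_⟩
  intro L hL k hk c r ρ R hr hrρ hρR
  have hk' : Kap k := hk
  have hT0 : 0 ≤ pr2 k (L.TwoA c r R) := pr2_nonneg _ hk'
  have hrhs : 0 ≤ (C₁ * C₁ * C₃ + C₁ * C₂) * pr2 k (L.TwoA c r R) := by positivity
  rcases eq_or_lt_of_le hrρ with hre | hrl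
  · rw [SE23_zero (TwoA_false L c (by omega : ρ ≤ r)) k, zero_mul]
    exact hrhs
  rcases eq_or_lt_of_le hρR with hRe | hRl
  · rw [SE23_zero (TwoA_false L c (by omega : R ≤ ρ)) k, mul_zero]
    exact hrhs
  have a1 := H1 L hL k hk c r ρ (by omega) hrρ
  have hX0 : 0 ≤ pr2 (kz k r ρ) (L.S4 r ρ) := pr2_nonneg _ (kz_kap hk' r ρ)
  have hZ : pr2 (kz k r R) (L.S4 r R) ≤ pr2 k (L.TwoA c r R) :=
    SE23_S4_le0 hk' c (by omega) (by omega)
  rcases lt_or_ge (8 * ρ) R with h8 | h8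
  · have a2 : pr2 k (L.TwoA c ρ R) ≤ pr2 k (L.TwoA c (8 * ρ) R) :=
      pr2_mono (Lat.TwoA.loc L c ρ R) (Lat.TwoA.loc L c (8 * ρ) R) hk'
        fun ω h => Lat.TwoA.mono h (by omega) (by omega) h8 le_rfl
    have a3 := H1 L hL k hk c (8 * ρ) R (by omega) (by omega)
    have a4 := H3 L hL k hk r ρ (8 * ρ) R (by omega) hrρ le_rfl (by omega) (by omega)
    calc pr2 k (L.TwoA c r ρ) * pr2 k (L.TwoA c ρ R)
        ≤ (C₁ * pr2 (kz k r ρ) (L.S4 r ρ)) *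
            (C₁ * pr2 (kz k (8 * ρ) R) (L.S4 (8 * ρ) R)) :=
          mul_le_mul a1 (a2.trans a3) (pr2_nonneg _ hk') (mul_nonneg hC₁.le hX0)
      _ = C₁ * C₁ * (pr2 (kz k r ρ) (L.S4 r ρ) *
            pr2 (kz k (8 * ρ) R) (L.S4 (8 * ρ) R)) := by ring
      _ ≤ C₁ * C₁ * (C₃ * pr2 (kz k r R) (L.S4 r R)) :=
          mul_le_mul_of_nonneg_left a4 (by positivity)
      _ ≤ C₁ * C₁ * (C₃ * pr2 k (L.TwoA c r R)) :=
          mul_le_mul_of_nonneg_left (mul_le_mul_of_nonneg_left hZ hC₃.le) (by positivity)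
      _ ≤ (C₁ * C₁ * C₃ + C₁ * C₂) * pr2 k (L.TwoA c r R) := by
          have : 0 ≤ C₁ * C₂ * pr2 k (L.TwoA c r R) := by positivity
          nlinarith [this]
  · have a2 : pr2 k (L.TwoA c ρ R) ≤ 1 := pr2_le_one (Lat.TwoA.loc L c ρ R) hk'
    have a3 := H2 L hL k hk r ρ r R (by omega) le_rfl (by omega) hrρ hρR (by omega)
    calc pr2 k (L.TwoA c r ρ) * pr2 k (L.TwoA c ρ R)
        ≤ pr2 k (L.TwoA c r ρ) * 1 :=
          mul_le_mul_of_nonneg_left a2 (pr2_nonneg _ hk')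
      _ = pr2 k (L.TwoA c r ρ) := mul_one _
      _ ≤ C₁ * pr2 (kz k r ρ) (L.S4 r ρ) := a1
      _ ≤ C₁ * (C₂ * pr2 (kz k r R) (L.S4 r R)) := mul_le_mul_of_nonneg_left a3 hC₁.le
      _ ≤ C₁ * (C₂ * pr2 k (L.TwoA c r R)) :=
          mul_le_mul_of_nonneg_left (mul_le_mul_of_nonneg_left hZ hC₂.le) hC₁.le
      _ ≤ (C₁ * C₁ * C₃ + C₁ * C₂) * pr2 k (L.TwoA c r R) := by
          have : 0 ≤ C₁ * C₁ * C₃ * pr2 k (L.TwoA c r R) := by positivity
          nlinarith [this]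

end SC

end

/-! ### from `Lib_MP_e0a489.SE24` -/

section

/-!
# MP_e0a489, module SE 24: basic properties of the four arm probability
-/

set_option autoImplicit false

namespace SC

variable [IfL]

open Classical

theorem shift_shift (L : Lat) (x y : Pt) : (L.shift x).shift y = L.shift (x + y) := by
  unfold Lat.shift
  congr 1
  · funext i j
    show L.ne (i + y.1 + x.1) (j + y.2 + x.2) = L.ne (i + (x + y).1) (j + (x + y).2)
    rw [Prod.fst_add, Prod.snd_add, add_assoc, add_assoc, add_comm y.1 x.1, add_comm y.2 x.2]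
  · funext v
    show L.typ (v + y + x) = L.typ (v + (x + y))
    rw [add_assoc, add_comm y x]

theorem shift_zero (L : Lat) : L.shift 0 = L := by
  unfold Lat.shift
  cases L
  simp

/-- `pr_via` for `Equiv.addRight x`. -/
theorem pr_TwoAt (L : Lat) (c : Bool) (x : Pt) (r R : ℤ) :
    pr (L.TwoAt c x r R) = pr ((L.shift x).TwoA c r R) := by
  exact pr_via (Lat.TwoA.loc (L.shift x) c r R) (Equiv.addRight x)

/-- Period 2: induction on the integers in both directions (`shift_shift`). -/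
theorem shift_even {L : Lat} {κ : ℕ → ℝ} (h : Fam L κ) (z : Pt) :
    L.shift (2 * z.1, 2 * z.2) = L := by
  have h1 : ∀ n : ℤ, L.shift (2 * n, 0) = L := by
    intro n
    induction n using Int.induction_on with
    | zero => exact shift_zero L
    | succ n ih =>
      have e := shift_shift L (2 * (n : ℤ), 0) (2, 0)
      rw [ih, h.per1] at e
      rw [show ((2 * ((n : ℤ) + 1), 0) : Pt) = (2 * (n : ℤ), 0) + (2, 0) by
        simp only [Prod.mk_add_mk, add_zero, Prod.mk.injEq, and_true]; ring]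
      exact e.symm
    | pred n ih =>
      have e := shift_shift L (2, 0) (2 * (-(n : ℤ) - 1), 0)
      rw [h.per1] at e
      rw [e, show ((2, 0) : Pt) + (2 * (-(n : ℤ) - 1), 0) = (2 * (-(n : ℤ)), 0) by
        simp only [Prod.mk_add_mk, add_zero, Prod.mk.injEq, and_true]; ring]
      exact ih
  have h2 : ∀ n : ℤ, L.shift (0, 2 * n) = L := by
    intro n
    induction n using Int.induction_on with
    | zero => exact shift_zero L
    | succ n ih =>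
      have e := shift_shift L (0, 2 * (n : ℤ)) (0, 2)
      rw [ih, h.per2] at e
      rw [show ((0, 2 * ((n : ℤ) + 1)) : Pt) = (0, 2 * (n : ℤ)) + (0, 2) by
        simp only [Prod.mk_add_mk, add_zero, Prod.mk.injEq, true_and]; ring]
      exact e.symm
    | pred n ih =>
      have e := shift_shift L (0, 2) (0, 2 * (-(n : ℤ) - 1))
      rw [h.per2] at e
      rw [e, show ((0, 2) : Pt) + (0, 2 * (-(n : ℤ) - 1)) = (0, 2 * (-(n : ℤ))) by
        simp only [Prod.mk_add_mk, add_zero, Prod.mk.injEq, true_and]; ring]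
      exact ih
  have e := shift_shift L (2 * z.1, 0) (0, 2 * z.2)
  rw [h1, h2] at e
  rw [show ((2 * z.1, 2 * z.2) : Pt) = (2 * z.1, 0) + (0, 2 * z.2) by simp]
  exact e.symm

/-- Every shift of `L` is a shift by a site `x'` of norm `≤ 1` (`x' = x mod 2`). -/
theorem shift_small {L : Lat} {κ : ℕ → ℝ} (h : Fam L κ) (x : Pt) :
    ∃ x' : Pt, nrm x' ≤ 1 ∧ L.shift x = L.shift x' := by
  refine ⟨(x.1 % 2, x.2 % 2), ?_, ?_⟩
  · unfold nrm
    simp only [max_le_iff, abs_le]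
    omega
  · have e := shift_shift L (2 * (x.1 / 2), 2 * (x.2 / 2)) (x.1 % 2, x.2 % 2)
    rw [shift_even h (x.1 / 2, x.2 / 2)] at e
    rw [e]
    congr 1
    ext
    · show x.1 = 2 * (x.1 / 2) + x.1 % 2
      omega
    · show x.2 = 2 * (x.2 / 2) + x.2 % 2
      omega

/-- `cmp2_x` for `k = 1` (`pr2_one`) and all centres, `r' < R'`.  `pr (TwoAt c x r R) = pr (L'.TwoA c r R)` with `L' = L.shift x'`, `nrm x' ≤ 1`
(`pr_TwoAt`, `shift_small`); `cmp2_x` for `L'` (`RSW.shift`), colours `c`, `true` and the centre `-x'` (`nrm (-x') ≤ 1`, `4 ≤ r`):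
`≤ C pr (L'.TwoAt true (-x') r' R') = C pr ((L'.shift (-x')).TwoA true r' R') = C pr (L.TwoA true r' R')`. -/
theorem cmp_all (κ : ℕ → ℝ) : ∃ (C : ℝ) (R₀ : ℤ), 0 < C ∧ 16 ≤ R₀ ∧ ∀ L : Lat, Fam L κ →
    ∀ (c : Bool) (x : Pt) (r R r' R' : ℤ), R₀ ≤ r → R₀ ≤ r' → r ≤ R → r ≤ 2 * r' → r' < R' →
      R' ≤ 4 * R → pr (L.TwoAt c x r R) ≤ C * pr (L.TwoA true r' R') := by
  obtain ⟨C, R₀, hC, hR₀, H⟩ := cmp2_x κ
  refine ⟨C, R₀, hC, hR₀, ?_⟩
  intro L hL c x r R r' R' h1 h2 h3 h4 h5 h6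
  obtain ⟨x', hx', hs⟩ := shift_small hL x
  have hn : nrm (-x') = nrm x' := by
    unfold nrm
    rw [Prod.fst_neg, Prod.snd_neg, abs_neg, abs_neg]
  have key := H (L.shift x') (hL.rsw.shift x') (fun _ => 1) (fun _ => ⟨zero_le_one, le_refl _⟩) c
    true (-x') r R r' R' h1 h2 h3 (by rw [hn]; omega) h4 h5 h6
  rw [pr2_one (Lat.TwoA.loc _ _ _ _)] at key
  rw [pr_TwoAt, hs]
  have e : (L.shift x').shift (-x') = L := by
    rw [shift_shift, add_neg_cancel, shift_zero]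
  have e2 : pr2 (fun _ => 1) ((L.shift x').TwoAt true (-x') r' R') = pr (L.TwoA true r' R') := by
    rw [pr2_one (TwoAt_loc _ _ _ _ _), pr_TwoAt, e]
  rw [e2] at key
  exact key

/-- `C` = maximum of `1` and the constants of `cmp_all`, `qmult2_x`; `R₀` the maximum of the radii.  `pos`: `al L r r = 1`; for `r < R`,
`S4 r R ⊆ TwoA true r R` (`S4_twoAt_x`, `TwoAt_zero`) and `S4_pos`.  `mono`: if `r = R` then `al L r R = 1`; otherwise `TwoA.mono`.  `cmp`: if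
`r' = R'` the right side is `C ≥ 1`.  `qmult`: if `r = ρ` or `ρ = R` one factor is `1` and the other one is `al L r R` (or both are `1`);
otherwise `qmult2_x` with `k = 1`, `pr2_one`. -/
theorem al_props_x (κ : ℕ → ℝ) : ∃ (C : ℝ) (R₀ : ℤ), ∀ L : Lat, Fam L κ → AlProps L C R₀ := by
  obtain ⟨C₁, R₁, hC₁, hR₁, H₁⟩ := cmp_all κ
  obtain ⟨C₂, R₂, hC₂, hR₂, H₂⟩ := qmult2_x κ
  refine ⟨max 1 (max C₁ C₂), max R₁ R₂, fun L hL => ?_⟩
  have hnn : ∀ r R, 0 ≤ al L r R := by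
    intro r R
    unfold al
    split_ifs
    · exact pr_nonneg _
    · exact zero_le_one
  have hle : ∀ r R, al L r R ≤ 1 := by
    intro r R
    unfold al
    split_ifs
    · exact pr_le_one _
    · exact le_refl _
  have hlt : ∀ {r R : ℤ}, r < R → al L r R = pr (L.TwoA true r R) := by
    intro r R h
    unfold al
    rw [if_pos h]
  have heq : ∀ {r R : ℤ}, ¬ r < R → al L r R = 1 := by
    intro r R h
    unfold al
    rw [if_neg h]
  have hC1 : (1 : ℝ) ≤ max 1 (max C₁ C₂) := le_max_left _ _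
  refine ⟨hC1, le_trans hR₁ (le_max_left _ _), ?_, hle, ?_, ?_, ?_⟩
  · intro r R h1 h2
    rcases h2.lt_or_eq with h | h
    · rw [hlt h]
      have h16 : 16 ≤ r := le_trans hR₁ (le_trans (le_max_left _ _) h1)
      refine lt_of_lt_of_le (S4_pos hL.rsw h16 h2) ?_
      refine pr_mono (Lat.S4.loc L r R) (Lat.TwoA.loc L true r R) (fun ω hω => ?_)
      exact (TwoAt_zero L true r R ω).1 (S4_twoAt_x (x := 0) (d := 0) hω h16
        (by simp [nrm]) (by omega) h (by omega))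
    · rw [heq (by omega)]
      exact zero_lt_one
  · intro r R r' R' h0 h1 h2 h3
    by_cases h : r < R
    · rw [hlt h, hlt (by omega)]
      exact pr_mono (Lat.TwoA.loc _ _ _ _) (Lat.TwoA.loc _ _ _ _)
        (fun ω hω => Lat.TwoA.mono hω h0 h1 h h3)
    · rw [heq h]
      exact hle _ _
  · intro c x r R r' R' h1 h2 h3 h4 h5 h6
    by_cases h : r' < R'
    · rw [hlt h]
      refine le_trans (H₁ L hL c x r R r' R' (le_trans (le_max_left _ _) h1)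
        (le_trans (le_max_left _ _) h2) h3 h4 h h6) ?_
      exact mul_le_mul_of_nonneg_right (le_trans (le_max_left _ _) (le_max_right _ _)) (pr_nonneg _)
    · rw [heq h, mul_one]
      exact le_trans (pr_le_one _) hC1
  · intro r ρ R h1 h2 h3
    by_cases h : r < ρ
    · by_cases h' : ρ < R
      · rw [hlt h, hlt h', hlt (by omega)]
        have key := H₂ L hL.rsw (fun _ => 1) (fun _ => ⟨zero_le_one, le_refl _⟩) true r ρ R
          (le_trans (le_max_right _ _) h1) h2 h3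
        rw [pr2_one (Lat.TwoA.loc _ _ _ _), pr2_one (Lat.TwoA.loc _ _ _ _),
          pr2_one (Lat.TwoA.loc _ _ _ _)] at key
        refine le_trans key ?_
        exact mul_le_mul_of_nonneg_right (le_trans (le_max_right _ _) (le_max_right _ _))
          (pr_nonneg _)
      · have e : ρ = R := by omega
        subst e
        rw [heq h', mul_one]
        exact le_mul_of_one_le_left (hnn _ _) hC1
    · have e : r = ρ := by omega
      subst e
      rw [heq h, one_mul]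
      exact le_mul_of_one_le_left (hnn _ _) hC1

end SC

end

/-! ### from `Lib_MP_e0a489.SE9` -/

section

/-!
# MP_e0a489, module SE: two-time separation theorem, quasi-multiplicativity (interface)
-/

set_option autoImplicit false

namespace SC

variable [IfL]

open Classical

/-- TWO-TIME SEPARATION.  (`k` arbitrary correlations; with `k = 1` this is the separation lemma for one
configuration.) -/
theorem sep2 (κ : ℕ → ℝ) : ∃ (C : ℝ) (R₀ : ℤ), 0 < C ∧ 16 ≤ R₀ ∧ ∀ L : Lat, RSW L κ →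
    ∀ k : Pt → ℝ, (∀ v, 0 ≤ k v ∧ k v ≤ 1) → ∀ (c : Bool) (r R : ℤ), R₀ ≤ r → r ≤ R →
      pr2 k (L.TwoA c r R) ≤ C * pr2 (kz k r R) (L.S4 r R) :=
  sep2_x κ

/-- extension on both sides -/
theorem ext2 (κ : ℕ → ℝ) : ∃ (C : ℝ) (R₀ : ℤ), 0 < C ∧ 16 ≤ R₀ ∧ ∀ L : Lat, RSW L κ →
    ∀ k : Pt → ℝ, (∀ v, 0 ≤ k v ∧ k v ≤ 1) → ∀ r R r' R' : ℤ, R₀ ≤ r' → r' ≤ r → r ≤ 64 * r' →
      r ≤ R → R ≤ R' → R' ≤ 64 * R →
      pr2 (kz k r R) (L.S4 r R) ≤ C * pr2 (kz k r' R') (L.S4 r' R') :=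
  ext2_x κ

/-- gluing -/
theorem glue2 (κ : ℕ → ℝ) : ∃ (C : ℝ) (R₀ : ℤ), 0 < C ∧ 16 ≤ R₀ ∧ ∀ L : Lat, RSW L κ →
    ∀ k : Pt → ℝ, (∀ v, 0 ≤ k v ∧ k v ≤ 1) → ∀ r ρ ρ' R : ℤ, R₀ ≤ r → r ≤ ρ → 8 * ρ ≤ ρ' →
      ρ' ≤ 64 * ρ → ρ' ≤ R →
      pr2 (kz k r ρ) (L.S4 r ρ) * pr2 (kz k ρ' R) (L.S4 ρ' R) ≤
        C * pr2 (kz k r R) (L.S4 r R) :=
  glue2_x κ

/-- the separated event implies the four arm event of both colours around every near centre -/
theorem S4_twoAt {L : Lat} {c : Bool} {r R r₁ R₁ d : ℤ} {x : Pt} {ω : Cfg} (h : L.S4 r R ω)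
    (hr : 16 ≤ r) (hd : nrm x ≤ d) (h1 : r + d ≤ r₁) (h2 : r₁ < R₁) (h3 : R₁ + d ≤ R) :
    L.TwoAt c x r₁ R₁ ω :=
  S4_twoAt_x h hr hd h1 h2 h3

/-- comparison of colours, centres and radii -/
theorem cmp2 (κ : ℕ → ℝ) : ∃ (C : ℝ) (R₀ : ℤ), 0 < C ∧ 16 ≤ R₀ ∧ ∀ L : Lat, RSW L κ →
    ∀ k : Pt → ℝ, (∀ v, 0 ≤ k v ∧ k v ≤ 1) → ∀ (c c' : Bool) (x : Pt) (r R r' R' : ℤ),
      R₀ ≤ r → R₀ ≤ r' → r ≤ R → 4 * nrm x ≤ r → r ≤ 2 * r' → r' < R' → R' ≤ 4 * R →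
      pr2 k (L.TwoA c r R) ≤ C * pr2 k (L.TwoAt c' x r' R') :=
  cmp2_x κ

/-- quasi-multiplicativity for pairs of configurations -/
theorem qmult2 (κ : ℕ → ℝ) : ∃ (C : ℝ) (R₀ : ℤ), 0 < C ∧ 16 ≤ R₀ ∧ ∀ L : Lat, RSW L κ →
    ∀ k : Pt → ℝ, (∀ v, 0 ≤ k v ∧ k v ≤ 1) → ∀ (c : Bool) (r ρ R : ℤ),
      R₀ ≤ r → r ≤ ρ → ρ ≤ R →
      pr2 k (L.TwoA c r ρ) * pr2 k (L.TwoA c ρ R) ≤ C * pr2 k (L.TwoA c r R) :=
  qmult2_x κ

/-! ### One configuration -/

theorem al_props (κ : ℕ → ℝ) : ∃ (C : ℝ) (R₀ : ℤ), ∀ L : Lat, Fam L κ → AlProps L C R₀ :=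
  al_props_x κ

end SC

end

/-! ### from `Lib_MP_e0a489.HP4` -/

section

/-!
# MP_e0a489, module HP 4: symmetries of the family `Fam`
-/

set_option autoImplicit false

namespace SC

variable [IfL]

open Classical

variable {L : Lat} {κ : ℕ → ℝ}

private theorem hp4_ext {L L' : Lat} (h1 : ∀ i j, L.ne i j = L'.ne i j)
    (h2 : ∀ v, L.typ v = L'.typ v) : L = L' := by
  cases L
  cases L'
  have e1 := funext fun i => funext fun j => h1 i j
  have e2 := funext h2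
  simp only at e1 e2
  subst e1
  subst e2
  rfl

private theorem hp4_ne (L : Lat) (i j : ℤ) : L.ne i j = true ↔ L.Adj (i, j) (i + 1, j + 1) := by
  constructor
  · intro h
    exact Or.inl (Or.inr (Or.inr (Or.inl ⟨rfl, rfl, h⟩)))
  · rintro ((⟨h1, h2⟩ | ⟨h1, h2⟩ | ⟨h1, h2, h3⟩ | ⟨h1, h2, h3⟩) | (⟨h1, h2⟩ | ⟨h1, h2⟩ |
      ⟨h1, h2, h3⟩ | ⟨h1, h2, h3⟩))
    · simp only at h1 h2
      omega
    · simp only at h1 h2
      omega
    · exact h3
    · simp only at h1 h2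
      omega
    · simp only at h1 h2
      omega
    · simp only at h1 h2
      omega
    · simp only at h1 h2
      omega
    · simp only at h1 h2
      omega

/-- A lattice is determined by its adjacency and its types: `L.ne i j = true ↔ L.Adj (i, j) (i + 1, j + 1)`. -/
theorem lat_ext {L L' : Lat} (h : ∀ u v, L.Adj u v ↔ L'.Adj u v)
    (ht : ∀ v, L.typ v = L'.typ v) : L = L' := by
  refine hp4_ext (fun i j => ?_) ht
  have h1 := h (i, j) (i + 1, j + 1)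
  rw [← hp4_ne, ← hp4_ne] at h1
  exact Bool.eq_iff_iff.mpr h1

/-- `lat_ext` -/
theorem Tr.unique {L L₁ L₂ : Lat} {e : Equiv.Perm Pt} (h₁ : Tr L L₁ e) (h₂ : Tr L L₂ e) :
    L₁ = L₂ := by
  exact lat_ext (fun u v => (h₁.adj u v).trans (h₂.adj u v).symm)
    (fun v => (h₁.typ v).trans (h₂.typ v).symm)

theorem Tr.sw {L L' : Lat} {e : Equiv.Perm Pt} (h : Tr L L' e) : Tr L.sw L'.sw e := by
  refine ⟨fun u v => h.adj u v, fun v => ?_⟩
  show (L'.typ v).map Bool.not = (L.typ (e v)).map Bool.not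
  rw [h.typ]

/-- `rt_mod`, `rt_zero`, ..., `rt_three` -/
theorem rt_vadd (s : ℤ) (u v : Pt) : rt s (u + v) = rt s u + rt s v := by
  have h : ∀ n : ℤ, (n = 0 ∨ n = 1 ∨ n = 2 ∨ n = 3) → rt n (u + v) = rt n u + rt n v := by
    rintro n (rfl | rfl | rfl | rfl)
    · rw [rt_zero, rt_zero, rt_zero]
    · rw [rt_one, rt_one, rt_one]
      ext
      · show -(u.2 + v.2) = -u.2 + -v.2
        ring
      · rfl
    · rw [rt_two, rt_two, rt_two]
      ext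
      · show -(u.1 + v.1) = -u.1 + -v.1
        ring
      · show -(u.2 + v.2) = -u.2 + -v.2
        ring
    · rw [rt_three, rt_three, rt_three]
      ext
      · rfl
      · show -(u.1 + v.1) = -u.1 + -v.1
        ring
  have e : rt s = rt (s % 4) := rt_mod (by omega)
  rw [e]
  exact h _ (by omega)

/-- `Tr.unique`: both sides are `L` seen through `v ↦ rt s (v + x) = rt s v + rt s x` (`tr_rots`, `tr_shift`, `Tr.trans`). -/
theorem rots_shift (L : Lat) (s : ℤ) (x : Pt) :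
    (L.rots s).shift x = (L.shift (rt s x)).rots s := by
  have h₁ : Tr L ((L.rots s).shift x) (rt s * Equiv.addRight x) :=
    (tr_rots L s).trans (tr_shift (L.rots s) x)
  have h₂ : Tr L ((L.shift (rt s x)).rots s) (Equiv.addRight (rt s x) * rt s) :=
    (tr_shift L (rt s x)).trans (tr_rots (L.shift (rt s x)) s)
  have e : (rt s * Equiv.addRight x : Equiv.Perm Pt) = Equiv.addRight (rt s x) * rt s := by
    apply Equiv.ext
    intro v
    show rt s (v + x) = rt s v + rt s x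
    exact rt_vadd s v x
  rw [e] at h₁
  exact Tr.unique h₁ h₂

/-- `rots_shift` for `x = rt (-s) y` (`rt_add`, `rt_zero`) -/
theorem shift_rots (L : Lat) (s : ℤ) (y : Pt) :
    (L.shift y).rots s = (L.rots s).shift (rt (-s) y) := by
  have h := rots_shift L s (rt (-s) y)
  rw [← rt_add, add_neg_cancel, rt_zero] at h
  exact h.symm

theorem rx_shift (L : Lat) (x : Pt) : (L.shift x).rx = L.rx.shift (-x.1, x.2) := by
  refine hp4_ext (fun i j => ?_) (fun v => ?_)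
  · show (! L.ne (-i - 1 + x.1) (j + x.2)) = ! L.ne (-(i + -x.1) - 1) (j + x.2)
    have e : -i - 1 + x.1 = -(i + -x.1) - 1 := by ring
    rw [e]
  · show L.typ (-v.1 + x.1, v.2 + x.2) = L.typ (-(v.1 + -x.1), v.2 + x.2)
    have e : -v.1 + x.1 = -(v.1 + -x.1) := by ring
    rw [e]

theorem ry_shift (L : Lat) (x : Pt) : (L.shift x).ry = L.ry.shift (x.1, -x.2) := by
  refine hp4_ext (fun i j => ?_) (fun v => ?_)
  · show (! L.ne (i + x.1) (-j - 1 + x.2)) = ! L.ne (i + x.1) (-(j + -x.2) - 1)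
    have e : -j - 1 + x.2 = -(j + -x.2) - 1 := by ring
    rw [e]
  · show L.typ (v.1 + x.1, -v.2 + x.2) = L.typ (v.1 + x.1, -(v.2 + -x.2))
    have e : -v.2 + x.2 = -(v.2 + -x.2) := by ring
    rw [e]

theorem sw_shift (L : Lat) (x : Pt) : (L.shift x).sw = L.sw.shift x := by
  rfl

theorem rx_ry (L : Lat) : L.rx.ry = L.ry.rx := by
  rfl

/-- `(L.shift x).sw = L.sw.shift x = (L.shift x₀).shift x = (L.shift x).shift x₀` (`sw_shift`, `shift_shift`); for the reflections `rx_shift`, `ry_shift` in the same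
way: `(L.shift x).rx = L.rx.shift x' = L.shift (x₀ + x') = (L.shift x).shift (x₀ + x' - x)`. -/
theorem Fam.toShift (h : Fam L κ) (x : Pt) : Fam (L.shift x) κ := by
  have hc : ∀ y : Pt, (L.shift x).shift y = (L.shift y).shift x := by
    intro y
    rw [shift_shift, shift_shift, add_comm]
  have hz : ∀ y : Pt, L.shift y = (L.shift x).shift (y - x) := by
    intro y
    rw [shift_shift, add_sub_cancel]
  refine ⟨h.rsw.shift x, ?_, ?_, ?_, ?_, ?_⟩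
  · rw [hc, h.per1]
  · rw [hc, h.per2]
  · obtain ⟨x₀, h₀⟩ := h.sw
    refine ⟨x₀, ?_⟩
    rw [sw_shift, h₀, hc]
  · obtain ⟨x₀, h₀⟩ := h.rx
    refine ⟨x₀ + (-x.1, x.2) - x, ?_⟩
    rw [rx_shift, h₀, shift_shift]
    exact hz _
  · obtain ⟨x₀, h₀⟩ := h.ry
    refine ⟨x₀ + (x.1, -x.2) - x, ?_⟩
    rw [ry_shift, h₀, shift_shift]
    exact hz _

/-- `L.rx = L.shift x₀`, `Fam.toShift` -/
theorem Fam.toRx (h : Fam L κ) : Fam L.rx κ := by
  obtain ⟨x₀, h₀⟩ := h.rx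
  rw [h₀]
  exact h.toShift x₀

theorem Fam.toRy (h : Fam L κ) : Fam L.ry κ := by
  obtain ⟨x₀, h₀⟩ := h.ry
  rw [h₀]
  exact h.toShift x₀

private theorem hp4_rt (s : ℤ) (v : Pt) :
    (s % 2 = 0 → rt s (rxE v) = rxE (rt s v) ∧ rt s (ryE v) = ryE (rt s v)) ∧
      (s % 2 = 1 → rt s (rxE v) = ryE (rt s v) ∧ rt s (ryE v) = rxE (rt s v)) := by
  have ex : ∀ v : Pt, rxE v = (-v.1, v.2) := fun _ => rfl
  have ey : ∀ v : Pt, ryE v = (v.1, -v.2) := fun _ => rfl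
  have e : rt s = rt (s % 4) := rt_mod (by omega)
  rw [e]
  have h4 : s % 4 = 0 ∨ s % 4 = 1 ∨ s % 4 = 2 ∨ s % 4 = 3 := by omega
  constructor
  · intro hs
    rcases h4 with h | h | h | h
    · rw [h, rt_zero, rt_zero, rt_zero]
      exact ⟨rfl, rfl⟩
    · omega
    · rw [h, rt_two, rt_two, rt_two, ex, ey, ex, ey]
      simp
    · omega
  · intro hs
    rcases h4 with h | h | h | h
    · omega
    · rw [h, rt_one, rt_one, rt_one, ex, ey, ex, ey]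
      simp
    · omega
    · rw [h, rt_three, rt_three, rt_three, ex, ey, ex, ey]
      simp

/-- `rsw`: `RSW.rots`.  `per1`, `per2`: `rots_shift` and `shift_even` (`rt s (2, 0)` and `rt s (0, 2)` have even coordinates).  `sw`: `(L.rots s).sw = L.sw.rots s` (`Tr.unique` for
`L.sw`: `tr_rots L.sw s` and `(tr_rots L s).sw`), `= (L.shift x₀).rots s = (L.rots s).shift (rt (-s) x₀)` (`shift_rots`).  `rx`: the lattice `(L.rots s).rx` is `L` seen through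
`rt s * rxE`, which is `rxE * rt s` for even `s` and `ryE * rt s` for odd `s`, so it is `L.rx.rots s` or `L.ry.rots s`; continue as for `sw`.  `ry` in the same way. -/
theorem Fam.toRots (h : Fam L κ) (s : ℤ) : Fam (L.rots s) κ := by
  have hper : ∀ z : Pt, L.shift (z + z) = L := by
    intro z
    have e : z + z = (2 * z.1, 2 * z.2) := by
      ext
      · show z.1 + z.1 = 2 * z.1
        ring
      · show z.2 + z.2 = 2 * z.2
        ring
    rw [e]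
    exact shift_even h z
  have hr : ∀ L' : Lat, (∃ x₀, L' = L.shift x₀) → ∃ x₁, L'.rots s = (L.rots s).shift x₁ := by
    rintro L' ⟨x₀, rfl⟩
    exact ⟨_, shift_rots L s x₀⟩
  refine ⟨h.rsw.rots s, ?_, ?_, ?_, ?_, ?_⟩
  · rw [rots_shift, show ((2, 0) : Pt) = (1, 0) + (1, 0) from rfl, rt_vadd, hper]
  · rw [rots_shift, show ((0, 2) : Pt) = (0, 1) + (0, 1) from rfl, rt_vadd, hper]
  · have e : (L.rots s).sw = L.sw.rots s := Tr.unique (tr_rots L s).sw (tr_rots L.sw s)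
    rw [e]
    exact hr _ h.sw
  · rcases Int.emod_two_eq_zero_or_one s with hs | hs
    · have h₁ : Tr L (L.rots s).rx (rt s * rxE) := (tr_rots L s).trans (tr_rx (L.rots s))
      have h₂ : Tr L (L.rx.rots s) (rxE * rt s) := (tr_rx L).trans (tr_rots L.rx s)
      have e : (rt s * rxE : Equiv.Perm Pt) = rxE * rt s :=
        Equiv.ext fun v => ((hp4_rt s v).1 hs).1
      rw [e] at h₁
      rw [Tr.unique h₁ h₂]
      exact hr _ h.rx
    · have h₁ : Tr L (L.rots s).rx (rt s * rxE) := (tr_rots L s).trans (tr_rx (L.rots s))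
      have h₂ : Tr L (L.ry.rots s) (ryE * rt s) := (tr_ry L).trans (tr_rots L.ry s)
      have e : (rt s * rxE : Equiv.Perm Pt) = ryE * rt s :=
        Equiv.ext fun v => ((hp4_rt s v).2 hs).1
      rw [e] at h₁
      rw [Tr.unique h₁ h₂]
      exact hr _ h.ry
  · rcases Int.emod_two_eq_zero_or_one s with hs | hs
    · have h₁ : Tr L (L.rots s).ry (rt s * ryE) := (tr_rots L s).trans (tr_ry (L.rots s))
      have h₂ : Tr L (L.ry.rots s) (ryE * rt s) := (tr_ry L).trans (tr_rots L.ry s)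
      have e : (rt s * ryE : Equiv.Perm Pt) = ryE * rt s :=
        Equiv.ext fun v => ((hp4_rt s v).1 hs).2
      rw [e] at h₁
      rw [Tr.unique h₁ h₂]
      exact hr _ h.ry
    · have h₁ : Tr L (L.rots s).ry (rt s * ryE) := (tr_rots L s).trans (tr_ry (L.rots s))
      have h₂ : Tr L (L.rx.rots s) (rxE * rt s) := (tr_rx L).trans (tr_rots L.rx s)
      have e : (rt s * ryE : Equiv.Perm Pt) = rxE * rt s :=
        Equiv.ext fun v => ((hp4_rt s v).2 hs).2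
      rw [e] at h₁
      rw [Tr.unique h₁ h₂]
      exact hr _ h.rx

/-- every lattice of the family is a shift of every other one (with period `2`) -/
theorem shift_eq {L : Lat} (h : Fam L κ) {x y : Pt} (h1 : (x.1 - y.1) % 2 = 0)
    (h2 : (x.2 - y.2) % 2 = 0) : L.shift x = L.shift y := by
  have e : x = (2 * ((x.1 - y.1) / 2), 2 * ((x.2 - y.2) / 2)) + y := by
    ext
    · show x.1 = 2 * ((x.1 - y.1) / 2) + y.1
      omega
    · show x.2 = 2 * ((x.2 - y.2) / 2) + y.2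
      omega
  rw [e, ← shift_shift]
  have h3 := shift_even h ((x.1 - y.1) / 2, (x.2 - y.2) / 2)
  simp only at h3
  rw [h3]

/-- `rots_twoA`, `pr_via` (`Two.loc`) -/
theorem al_rots (L : Lat) (s r R : ℤ) : al (L.rots s) r R = al L r R := by
  have e : pr ((L.rots s).TwoA true r R) = pr (L.TwoA true r R) := by
    rw [← pr_via (Lat.TwoA.loc (L.rots s) true r R) (rt s)]
    congr 1
    funext ω
    exact propext (rots_twoA L s true r R ω)
  unfold al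
  rw [e]

/-- `pr (((L.rots s).shift x).TwoA c r R) = pr ((L.rots s).TwoAt c x r R)` (`pr_TwoAt`); `AlProps.cmp` for `L.rots s` (`al_props_x`, `Fam.toRots`) with `r' = r`, `R' = R`;
`al_rots`.  `R₀ ≥ 16` is part of `AlProps`; take `max`. -/
theorem al_all (κ : ℕ → ℝ) : ∃ (C : ℝ) (R₀ : ℤ), 1 ≤ C ∧ 16 ≤ R₀ ∧ ∀ L : Lat, Fam L κ →
    ∀ (s : ℤ) (x : Pt) (c : Bool) (r R : ℤ), R₀ ≤ r → r < R →
      pr (((L.rots s).shift x).TwoA c r R) ≤ C * al L r R := by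
  obtain ⟨C, R₀, H⟩ := al_props_x κ
  refine ⟨max C 1, max R₀ 16, le_max_right _ _, le_max_right _ _, ?_⟩
  intro L hL s x c r R hr hrR
  have h0 : R₀ ≤ r := le_trans (le_max_left _ _) hr
  have h16 : 16 ≤ r := le_trans (le_max_right _ _) hr
  have h1 := (H (L.rots s) (hL.toRots s)).cmp c x r R r R h0 h0 hrR.le (by omega) hrR.le
    (by omega)
  rw [pr_TwoAt, al_rots] at h1
  have h2 : 0 < al L r R := (H L hL).pos r R h0 hrR.le
  exact le_trans h1 (mul_le_mul_of_nonneg_right (le_max_left _ _) h2.le)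

/-- Constant correlation: `rots_shift`, `pr2_via` for `rt s` (`rots_twoA`) and for `Equiv.addRight (rt s x)`; `kt t` is constant. -/
theorem pr2_rots (L : Lat) (t : ℝ) (s : ℤ) (x : Pt) (c : Bool) (r R : ℤ) :
    pr2 (kt t) (((L.rots s).shift x).TwoA c r R) = pr2 (kt t) (L.TwoAt c (rt s x) r R) := by
  have h1 : pr2 (kt t) (L.TwoAt c (rt s x) r R) = pr2 (kt t) ((L.shift (rt s x)).TwoA c r R) :=
    pr2_via (Lat.TwoA.loc (L.shift (rt s x)) c r R) (Equiv.addRight (rt s x)) (kt t)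
  have h2 : pr2 (kt t) (fun ω => ((L.shift (rt s x)).rots s).TwoA c r R (via (rt s) ω)) =
      pr2 (kt t) (((L.shift (rt s x)).rots s).TwoA c r R) :=
    pr2_via (Lat.TwoA.loc ((L.shift (rt s x)).rots s) c r R) (rt s) (kt t)
  have h3 : (fun ω => ((L.shift (rt s x)).rots s).TwoA c r R (via (rt s) ω)) =
      (L.shift (rt s x)).TwoA c r R :=
    funext fun ω => propext (rots_twoA (L.shift (rt s x)) s c r R ω)
  rw [rots_shift, h1, ← h2, h3]

end SC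

end

/-! ### from `Lib_MP_e0a489.HP10` -/

section

/-!
# MP_e0a489, module HP 10: comparison of the arm probabilities for all positions and colours
-/

set_option autoImplicit false

namespace SC

variable [IfL]

open Classical

theorem ann_finite (r R : ℤ) : (ann r R).Finite := by
  refine (Finset.finite_toSet (Finset.Icc (-R) R ×ˢ Finset.Icc (-R) R)).subset ?_
  intro v hv
  have h1 : max |v.1| |v.2| ≤ R := hv.2
  rw [max_le_iff, abs_le, abs_le] at h1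
  simp only [Finset.coe_product, Finset.coe_Icc, Set.mem_prod, Set.mem_Icc]
  exact h1

private theorem hp10_nrm (v : Pt) (k : ℤ) :
    nrm v ≤ k ↔ (-k ≤ v.1 ∧ v.1 ≤ k) ∧ -k ≤ v.2 ∧ v.2 ≤ k := by
  unfold nrm
  rw [max_le_iff, abs_le, abs_le]

private theorem hp10_tri (x u : Pt) : nrm (x - u) ≤ nrm x + nrm u := by
  obtain ⟨⟨a1, a2⟩, a3, a4⟩ := (hp10_nrm x (nrm x)).1 le_rfl
  obtain ⟨⟨b1, b2⟩, b3, b4⟩ := (hp10_nrm u (nrm u)).1 le_rfl
  refine (hp10_nrm _ _).2 ⟨⟨?_, ?_⟩, ?_, ?_⟩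
  · show -(nrm x + nrm u) ≤ x.1 - u.1
    omega
  · show x.1 - u.1 ≤ nrm x + nrm u
    omega
  · show -(nrm x + nrm u) ≤ x.2 - u.2
    omega
  · show x.2 - u.2 ≤ nrm x + nrm u
    omega

private theorem hp10_adj {L : Lat} {u v : Pt} (h : L.Adj u v) :
    (u.1 - 1 ≤ v.1 ∧ v.1 ≤ u.1 + 1) ∧ u.2 - 1 ≤ v.2 ∧ v.2 ≤ u.2 + 1 := by
  rcases h with (⟨h1, h2⟩ | ⟨h1, h2⟩ | ⟨h1, h2, h3⟩ | ⟨h1, h2, h3⟩) | (⟨h1, h2⟩ | ⟨h1, h2⟩ |
      ⟨h1, h2, h3⟩ | ⟨h1, h2, h3⟩) <;> omega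

private theorem hp10_nb {L : Lat} {r : ℤ} {x : Pt} (h : x ∈ L.nb (bx r)) : nrm x ≤ r + 1 := by
  obtain ⟨z, hz, ha⟩ := h
  obtain ⟨⟨a1, a2⟩, a3, a4⟩ := (hp10_nrm z r).1 hz
  obtain ⟨⟨b1, b2⟩, b3, b4⟩ := hp10_adj ha
  refine (hp10_nrm _ _).2 ⟨⟨?_, ?_⟩, ?_, ?_⟩ <;> omega

/-- SHIFT OF AN ARM.  `Arm`: `x ∈ nb (bx r)`, `y ∈ rng R`, joined in `ann r R ∩ S ∩ col c ω`.  The lattice `L.shift u` is `L` seen through `e v = v + u` (`tr_shift`).  Let
`A' = {v | v + u ∈ ann r R ∩ S ∩ L.col c ω}`; `Tr.cn` gives `(L.shift u).Cn A' (x - u) (y - u)`, and `A' ⊆ S' ∩ (L.shift u).col c (via e ω)` (`hS`, `Tr.st`).  `nrm (x - u) ≤ r + 2 ≤ r₁` (a site next to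
`bx r` has norm `≤ r + 1`) and `R₁ ≤ R - 1 ≤ nrm (y - u)`, so `Cn.crossing` gives the arm in `ann r₁ R₁ ∩ S'`. -/
theorem arm_shift {L : Lat} {c : Bool} {S S' : Set Pt} {u : Pt} {r R r₁ R₁ : ℤ} {ω : Cfg}
    (hu : nrm u ≤ 1) (hS : ∀ v ∈ S, v - u ∈ S') (hr : 0 ≤ r) (h1 : r + 2 ≤ r₁) (h2 : r₁ < R₁)
    (h3 : R₁ + 1 ≤ R) (h : L.Arm c (ann r R ∩ S) (L.nb (bx r)) (rng R) ω) :
    (L.shift u).Arm c (ann r₁ R₁ ∩ S') ((L.shift u).nb (bx r₁)) (rng R₁)
      (via (Equiv.addRight u) ω) := by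
  obtain ⟨x, hx, y, hy, hc⟩ := h
  have hT := tr_shift L u
  have he : ∀ v : Pt, (Equiv.addRight u) (v - u) = v := fun v => by
    show v - u + u = v
    exact sub_add_cancel v u
  have hc1 : (L.shift u).Cn {v : Pt | v + u ∈ ann r R ∩ S ∩ L.col c ω} (x - u) (y - u) := by
    refine (hT.cn _ _ _).2 ?_
    rw [he, he]
    refine hc.mono ?_
    intro v hv
    refine ⟨v - u, ?_, he v⟩
    show v - u + u ∈ ann r R ∩ S ∩ L.col c ω
    rw [sub_add_cancel]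
    exact hv
  have hxn := hp10_nb hx
  have hyn : nrm y = R := hy
  have t1 := hp10_tri x u
  have t2 : nrm y ≤ nrm (y - u) + nrm u := by
    have h5 := hp10_tri (y - u) (-u)
    have h6 : y - u - -u = y := by
      rw [sub_neg_eq_add, sub_add_cancel]
    have h7 : nrm (-u) = nrm u := by
      show max |(-u).1| |(-u).2| = max |u.1| |u.2|
      rw [Prod.fst_neg, Prod.snd_neg, abs_neg, abs_neg]
    rw [h6, h7] at h5
    exact h5
  obtain ⟨p, w, hp, hw, hcw⟩ := Lat.Cn.crossing (r := r₁) (m := R₁) (by omega) h2 hc1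
    (Or.inl (by omega)) (by omega)
  refine ⟨p, hp, w, hw, hcw.mono ?_⟩
  rintro v ⟨hv, hva⟩
  obtain ⟨⟨hv1, hv2⟩, hv3⟩ := hv
  refine ⟨⟨hva, ?_⟩, ?_⟩
  · have h5 := hS _ hv2
    rw [add_sub_cancel_right] at h5
    exact h5
  · show (L.shift u).st (via (Equiv.addRight u) ω) v = c
    rw [hT.st]
    exact hv3

/-- `arm_shift`, `pr_mono`, `pr_via` -/
theorem pr_arm_shift {L : Lat} {c : Bool} {S S' : Set Pt} {u : Pt} {r R r₁ R₁ : ℤ}
    (hu : nrm u ≤ 1) (hS : ∀ v ∈ S, v - u ∈ S') (hr : 0 ≤ r) (h1 : r + 2 ≤ r₁) (h2 : r₁ < R₁)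
    (h3 : R₁ + 1 ≤ R) : pr (L.Arm c (ann r R ∩ S) (L.nb (bx r)) (rng R)) ≤
      pr ((L.shift u).Arm c (ann r₁ R₁ ∩ S') ((L.shift u).nb (bx r₁)) (rng R₁)) := by
  have hfin : (ann r₁ R₁ ∩ S').Finite := (ann_finite r₁ R₁).subset Set.inter_subset_left
  have hfin' : (ann r R ∩ S).Finite := (ann_finite r R).subset Set.inter_subset_left
  have hl := Lat.Arm.loc (L.shift u) c (ann r₁ R₁ ∩ S') ((L.shift u).nb (bx r₁)) (rng R₁) hfin
  rw [← pr_via hl (Equiv.addRight u)]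
  refine pr_mono (Lat.Arm.loc L c _ _ _ hfin') ?_
    fun ω hω => arm_shift hu hS hr h1 h2 h3 hω
  obtain ⟨F, hF⟩ := hl
  refine ⟨F.image (Equiv.addRight u), ?_⟩
  intro ω ω' h
  refine hF _ _ fun v hv => ?_
  exact h _ (Finset.mem_coe.2 (Finset.mem_image_of_mem _ (Finset.mem_coe.1 hv)))

/-- `sw_arm`, `pr_flip` -/
theorem pr_arm_sw (L : Lat) (c : Bool) {D : Set Pt} (hD : D.Finite) (X Y : Set Pt) :
    pr (L.sw.Arm c D X Y) = pr (L.Arm (!c) D X Y) := by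
  rw [← pr_flip (Lat.Arm.loc L.sw c D X Y hD)]
  congr 1
  funext ω
  exact propext (sw_arm L c D X Y ω)

private theorem hp10_vx {L : Lat} {c : Bool} {S : Set Pt} {r R : ℤ} {ω : Cfg} (hr : 2 ≤ r)
    (hR : r < R) (hS : ∀ v : Pt, 1 ≤ v.1 → 1 ≤ v.2 → v ∈ S) (h : L.VX c 1 (r / 2) (r + 1) R ω) :
    L.Arm c (ann r R ∩ S) (L.nb (bx r)) (rng R) ω := by
  obtain ⟨u, v, hu, hv, hc⟩ := h
  obtain ⟨⟨⟨a1, a2⟩, a3, a4⟩, -⟩ := hc.left
  obtain ⟨⟨⟨b1, b2⟩, b3, b4⟩, -⟩ := hc.right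
  have key : ∀ z : Pt, 1 ≤ z.1 → z.1 ≤ r / 2 → r + 1 ≤ z.2 → nrm z = z.2 := by
    intro z z1 z2 z3
    refine le_antisymm ((hp10_nrm z _).2 ⟨⟨by omega, by omega⟩, by omega, le_rfl⟩) ?_
    exact ((hp10_nrm z (nrm z)).1 le_rfl).2.2
  refine ⟨u, ⟨(u.1, u.2 - 1), ?_, ?_⟩, v, ?_, hc.mono ?_⟩
  · refine (hp10_nrm _ _).2 ⟨⟨?_, ?_⟩, ?_, ?_⟩
    · show -r ≤ u.1
      omega
    · show u.1 ≤ r
      omega
    · show -r ≤ u.2 - 1
      omega
    · show u.2 - 1 ≤ r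
      omega
  · refine Or.inl (Or.inr (Or.inl ⟨rfl, ?_⟩))
    show u.2 = u.2 - 1 + 1
    omega
  · show nrm v = R
    rw [key v b1 b2 b3]
    exact hv
  · rintro z ⟨⟨⟨z1, z2⟩, z3, z4⟩, hz⟩
    refine ⟨⟨⟨?_, ?_⟩, hS z z1 (by omega)⟩, hz⟩
    · rw [key z z1 z2 z3]
      omega
    · rw [key z z1 z2 z3]
      exact z4

/-- COMPARISON.  `R < 4 r`: the left side is `≤ 1`; a vertical crossing of `rect 1 (r/2) (r+1) R` of colour `c'` is an arm in `{v | v - u ∈ Uq q}` (see `strip_arm`), probability `≥ κ 200` (`RSW.vx'`).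
`4 r ≤ R`.  Step A (colour): if `c' = !c` then `L.sw = L.shift x₀` (`Fam.sw`) gives `aU (L.shift x) q c r R = aU (L.shift x).sw q c' r R = aU (L.shift (x₀ + x)) q c' r R` (`pr_arm_sw`, `sw_shift`,
`shift_shift`); so there is `x₁` with `aU (L.shift x) q c r R = aU (L.shift x₁) q c' r R`.  Step B: choose `z ∈ {-1, 0} × {-1, 0}` with `x₁ + z ≡ u` modulo 2: `(L.shift x₁).shift z = L.shift (x₁ + z) = L.shift u`
(`shift_shift`, `shift_eq`).  `pr_arm_shift` with `S = S' = Uq q` (`v - z ∈ Uq q` because `-z` has nonnegative coordinates): `aU (L.shift x₁) q c' r R ≤ aU (L.shift u) q c' (r + 2) (R - 2)`.  Step C: `aU_ext` with `r' = r - 2 ≥ 16`, `R' = R + 1`: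
`≤ C aU (L.shift u) q c' (r - 2) (R + 1)`.  Step D: `pr_arm_shift` for the lattice `L.shift u` and the vector `-u` (`(L.shift u).shift (-u) = L`, `shift_zero`), `S = Uq q`, `S' = {v | v - u ∈ Uq q}`, radii `(r - 2, R + 1)` and
`(r, R)`. -/
theorem cmpU (κ : ℕ → ℝ) : ∃ (C : ℝ) (R₀ : ℤ), 1 ≤ C ∧ 32 ≤ R₀ ∧ ∀ L : Lat, Fam L κ →
    ∀ (q c c' : Bool) (x u : Pt) (r R : ℤ), 0 ≤ u.1 → u.1 ≤ 1 → 0 ≤ u.2 → u.2 ≤ 1 → R₀ ≤ r →
      r < R → aU (L.shift x) q c r R ≤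
        C * pr (L.Arm c' (ann r R ∩ {v | v - u ∈ Uq q}) (L.nb (bx r)) (rng R)) := by
  by_cases hκ : 0 < κ 200
  · obtain ⟨C₀, hC₀, hext⟩ := aU_ext κ
    have hi : 0 < 1 / κ 200 := by positivity
    refine ⟨1 + 1 / κ 200 + C₀, 32, by linarith, le_rfl, ?_⟩
    intro L hL q c c' x u r R hu1 hu2 hu3 hu4 hr hR
    have hfin : (ann r R ∩ {v : Pt | v - u ∈ Uq q}).Finite :=
      (ann_finite r R).subset Set.inter_subset_left
    have hp0 := pr_nonneg (L.Arm c' (ann r R ∩ {v : Pt | v - u ∈ Uq q}) (L.nb (bx r)) (rng R))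
    by_cases h4 : R < 4 * r
    · have h1 : κ 200 ≤ pr (L.VX c' 1 (r / 2) (r + 1) R) := by
        refine hL.rsw.vx' (by norm_num) c' (by omega) (by omega) ?_
        push_cast
        omega
      have h2 : pr (L.VX c' 1 (r / 2) (r + 1) R) ≤
          pr (L.Arm c' (ann r R ∩ {v : Pt | v - u ∈ Uq q}) (L.nb (bx r)) (rng R)) := by
        refine pr_mono (Lat.VX.loc L c' _ _ _ _) (Lat.Arm.loc L c' _ _ _ hfin)
          fun ω hω => hp10_vx (by omega) hR ?_ hω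
        intro v h5 h6
        show 0 ≤ v.2 - u.2 ∧ (q = true → 0 ≤ v.1 - u.1)
        exact ⟨by omega, fun _ => by omega⟩
      have h3 : aU (L.shift x) q c r R ≤ 1 := pr_le_one _
      have h5 := h1.trans h2
      calc aU (L.shift x) q c r R ≤ 1 := h3
        _ = (1 / κ 200) * κ 200 := by field_simp
        _ ≤ (1 + 1 / κ 200 + C₀) * κ 200 := by
          apply mul_le_mul_of_nonneg_right _ hκ.le
          linarith
        _ ≤ _ := mul_le_mul_of_nonneg_left h5 (by linarith)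
    · -- step A
      obtain ⟨x₁, hx₁⟩ : ∃ x₁ : Pt, aU (L.shift x) q c r R = aU (L.shift x₁) q c' r R := by
        by_cases hcc : c' = c
        · exact ⟨x, by rw [hcc]⟩
        · obtain ⟨x₀, hx₀⟩ := hL.sw
          refine ⟨x₀ + x, ?_⟩
          have hc : c = !c' := by
            cases c <;> cases c' <;> simp_all
          have h1 : pr ((L.shift x).sw.Arm c' (ann r R ∩ Uq q) ((L.shift x).nb (bx r)) (rng R)) =
              pr ((L.shift x).Arm (!c') (ann r R ∩ Uq q) ((L.shift x).nb (bx r)) (rng R)) :=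
            pr_arm_sw (L.shift x) c' ((ann_finite r R).subset Set.inter_subset_left) _ _
          have h2 : (L.shift x).sw = L.shift (x₀ + x) := by
            rw [sw_shift, hx₀, shift_shift]
          have h3 : (L.shift x).nb (bx r) = (L.shift (x₀ + x)).nb (bx r) := by
            rw [← h2]
            rfl
          rw [hc]
          unfold aU
          rw [← h1, h2, h3]
      -- step B
      obtain ⟨z, hz, hz1, hz2, hz3⟩ : ∃ z : Pt, nrm z ≤ 1 ∧ z.1 ≤ 0 ∧ z.2 ≤ 0 ∧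
          L.shift (x₁ + z) = L.shift u := by
        refine ⟨(-((x₁.1 - u.1) % 2), -((x₁.2 - u.2) % 2)), ?_, ?_, ?_, ?_⟩
        · refine (hp10_nrm _ _).2 ⟨⟨?_, ?_⟩, ?_, ?_⟩
          · show -1 ≤ -((x₁.1 - u.1) % 2)
            omega
          · show -((x₁.1 - u.1) % 2) ≤ 1
            omega
          · show -1 ≤ -((x₁.2 - u.2) % 2)
            omega
          · show -((x₁.2 - u.2) % 2) ≤ 1
            omega
        · show -((x₁.1 - u.1) % 2) ≤ 0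
          omega
        · show -((x₁.2 - u.2) % 2) ≤ 0
          omega
        · refine shift_eq hL ?_ ?_
          · show (x₁.1 + -((x₁.1 - u.1) % 2) - u.1) % 2 = 0
            omega
          · show (x₁.2 + -((x₁.2 - u.2) % 2) - u.2) % 2 = 0
            omega
      have hB : aU (L.shift x₁) q c' r R ≤ aU (L.shift u) q c' (r + 2) (R - 2) := by
        have h1 := pr_arm_shift (L := L.shift x₁) (c := c') (S := Uq q) (S' := Uq q) (u := z)
          (r := r) (R := R) (r₁ := r + 2) (R₁ := R - 2) hz (by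
            rintro v ⟨v1, v2⟩
            refine ⟨?_, fun hq => ?_⟩
            · show 0 ≤ v.2 - z.2
              omega
            · show 0 ≤ v.1 - z.1
              have := v2 hq
              omega) (by omega) le_rfl (by omega) (by omega)
        rw [shift_shift, hz3] at h1
        exact h1
      -- step C
      have hC := hext (L.shift u) (hL.toShift u).rsw q c' (r + 2) (R - 2) (r - 2) (R + 1)
        (by omega) (by omega) (by omega) (by omega) (by omega)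
      -- step D
      have hD : aU (L.shift u) q c' (r - 2) (R + 1) ≤
          pr (L.Arm c' (ann r R ∩ {v : Pt | v - u ∈ Uq q}) (L.nb (bx r)) (rng R)) := by
        have h1 := pr_arm_shift (L := L.shift u) (c := c') (S := Uq q)
          (S' := {v : Pt | v - u ∈ Uq q}) (u := -u)
          (r := r - 2) (R := R + 1) (r₁ := r) (R₁ := R) (by
            refine (hp10_nrm _ _).2 ⟨⟨?_, ?_⟩, ?_, ?_⟩
            · show -1 ≤ -u.1
              omega
            · show -u.1 ≤ 1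
              omega
            · show -1 ≤ -u.2
              omega
            · show -u.2 ≤ 1
              omega) (by
            intro v hv
            show v - -u - u ∈ Uq q
            rw [sub_neg_eq_add, add_sub_cancel_right]
            exact hv) (by omega) (by omega) hR le_rfl
        rw [shift_shift, add_neg_cancel, shift_zero] at h1
        exact h1
      calc aU (L.shift x) q c r R = aU (L.shift x₁) q c' r R := hx₁
        _ ≤ aU (L.shift u) q c' (r + 2) (R - 2) := hB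
        _ ≤ C₀ * aU (L.shift u) q c' (r - 2) (R + 1) := hC
        _ ≤ C₀ * pr (L.Arm c' (ann r R ∩ {v : Pt | v - u ∈ Uq q}) (L.nb (bx r)) (rng R)) :=
          mul_le_mul_of_nonneg_left hD hC₀.le
        _ ≤ _ := by
          apply mul_le_mul_of_nonneg_right _ hp0
          linarith
  · refine ⟨1, 32, le_rfl, le_rfl, ?_⟩
    intro L hL
    exact absurd (hL.rsw.pos 200) hκ

end SC

end

/-! ### from `Lib_MP_e0a489.HP11` -/

section

/-!
# MP_e0a489, module HP 11: reflections; the one arm probability of the half plane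
-/

set_option autoImplicit false

namespace SC

variable [IfL]

open Classical

private theorem hp11_img {e : Equiv.Perm Pt} (hn : ∀ v, nrm (e v) = nrm v) (P : ℤ → Prop) :
    e '' {v | P (nrm v)} = {v | P (nrm v)} := by
  ext v
  constructor
  · rintro ⟨w, hw, rfl⟩
    show P _
    rw [hn]
    exact hw
  · intro hv
    refine ⟨e.symm v, ?_, Equiv.apply_symm_apply e v⟩
    show P _
    rw [← hn, Equiv.apply_symm_apply]
    exact hv

private theorem hp11_rx (v : Pt) : nrm (rxE v) = nrm v := by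
  show max |-v.1| |v.2| = max |v.1| |v.2|
  rw [abs_neg]

private theorem hp11_ry (v : Pt) : nrm (ryE v) = nrm v := by
  show max |v.1| |-v.2| = max |v.1| |v.2|
  rw [abs_neg]

private theorem hp11_rxry {L : Lat} {κ : ℕ → ℝ} (h : Fam L κ) : ∃ x, L.rx.ry = L.shift x := by
  obtain ⟨a, ha⟩ := h.rx
  obtain ⟨b, hb⟩ := h.ry
  refine ⟨b + (a.1, -a.2), ?_⟩
  rw [ha, ry_shift, hb, shift_shift]

/-- `Tr.arm` with `D = ann r R ∩ S`: `e '' D = ann r R ∩ e '' S` and `e '' rng R = rng R` (`e` preserves the norm), `e '' L'.nb (bx r) = L.nb (e '' bx r) = L.nb (bx r)` (`Tr.nb`); `pr_via`. -/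
theorem pr_arm_tr {L L' : Lat} {e : Equiv.Perm Pt} (h : Tr L L' e) (hn : ∀ v, nrm (e v) = nrm v)
    (c : Bool) (S : Set Pt) (r R : ℤ) :
    pr (L.Arm c (ann r R ∩ e '' S) (L.nb (bx r)) (rng R)) =
      pr (L'.Arm c (ann r R ∩ S) (L'.nb (bx r)) (rng R)) := by
  have hloc : Loc (L'.Arm c (ann r R ∩ S) (L'.nb (bx r)) (rng R)) :=
    Lat.Arm.loc L' c _ _ _ ((ann_finite r R).subset Set.inter_subset_left)
  rw [← pr_via hloc e]
  congr 1
  funext ω
  refine propext ?_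
  rw [h.arm, h.nb, Set.image_inter e.injective]
  have e1 : e '' ann r R = ann r R := hp11_img hn (fun a => r < a ∧ a ≤ R)
  have e2 : e '' bx r = bx r := hp11_img hn (fun a => a ≤ r)
  have e3 : e '' rng R = rng R := hp11_img hn (fun a => a = R)
  rw [e1, e2, e3]

/-- Let `L' = L, L.rx, L.ry, L.rx.ry`, which is `L` seen through `e` (`Tr.refl`, `tr_rx`, `tr_ry`, `Tr.trans`).  `Fam L' κ` (`Fam.toRx`, `Fam.toRy`) and `L' = L.shift x₀` for some `x₀` (`Fam.rx`, `Fam.ry`, `ry_shift`,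
`shift_shift`), so `L = L'.shift (-x₀)` and `L.shift x = L'.shift (x - x₀)`.  `cmpU` for `L'`, and `pr_arm_tr`. -/
theorem aU_all (κ : ℕ → ℝ) : ∃ (C : ℝ) (R₀ : ℤ), 1 ≤ C ∧ 32 ≤ R₀ ∧ ∀ L : Lat, Fam L κ →
    ∀ (q c c' : Bool) (x u : Pt) (e : Equiv.Perm Pt) (r R : ℤ),
      (e = 1 ∨ e = rxE ∨ e = ryE ∨ e = rxE * ryE) →
      0 ≤ u.1 → u.1 ≤ 1 → 0 ≤ u.2 → u.2 ≤ 1 → R₀ ≤ r → r < R → aU (L.shift x) q c r R ≤
        C * pr (L.Arm c' (ann r R ∩ e '' {v | v - u ∈ Uq q}) (L.nb (bx r)) (rng R)) := by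
  obtain ⟨C, R₀, hC, hR₀, hcmp⟩ := cmpU κ
  refine ⟨C, R₀, hC, hR₀, ?_⟩
  intro L hL q c c' x u e r R he hu1 hu2 hu3 hu4 hr hrR
  have key : ∃ (L' : Lat) (x₀ : Pt), Tr L L' e ∧ Fam L' κ ∧ L' = L.shift x₀ ∧
      ∀ v, nrm (e v) = nrm v := by
    rcases he with rfl | rfl | rfl | rfl
    · exact ⟨L, 0, Tr.refl L, hL, (shift_zero L).symm, fun v => rfl⟩
    · obtain ⟨x₀, h₀⟩ := hL.rx
      exact ⟨L.rx, x₀, tr_rx L, hL.toRx, h₀, hp11_rx⟩
    · obtain ⟨x₀, h₀⟩ := hL.ry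
      exact ⟨L.ry, x₀, tr_ry L, hL.toRy, h₀, hp11_ry⟩
    · obtain ⟨x₀, h₀⟩ := hp11_rxry hL
      refine ⟨L.rx.ry, x₀, (tr_rx L).trans (tr_ry L.rx), hL.toRx.toRy, h₀, fun v => ?_⟩
      show nrm (rxE (ryE v)) = nrm v
      rw [hp11_rx, hp11_ry]
  obtain ⟨L', x₀, hT, hL', hx₀, hn⟩ := key
  have h1 := hcmp L' hL' q c c' (x - x₀) u r R hu1 hu2 hu3 hu4 hr hrR
  have h2 : L'.shift (x - x₀) = L.shift x := by
    rw [hx₀, shift_shift, add_sub_cancel]
  rw [h2] at h1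
  rw [pr_arm_tr hT hn]
  exact h1

/-- `s` and `s'` of the same parity: the rotated lattices are shifts of each other.  If `s % 4 = s' % 4` they are equal.  Otherwise `rt s' = rt (s + 2) = rt s * rxE * ryE` (`rt_mod`, `rt_add`, `rt_two`), so
`L.rots s' = (L.rots s).rx.ry` (`Tr.unique`, `tr_rots`, `tr_rx`, `tr_ry`), a shift of `L.rots s` (`Fam.toRots`). -/
theorem rots_par {L : Lat} {κ : ℕ → ℝ} (h : Fam L κ) {s s' : ℤ} (hs : s % 2 = s' % 2) :
    ∃ x, L.rots s = (L.rots s').shift x := by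
  by_cases h4 : s % 4 = s' % 4
  · refine ⟨0, ?_⟩
    rw [shift_zero]
    have e1 : rt s = rt s' := rt_mod h4
    have h1 := tr_rots L s
    rw [e1] at h1
    exact Tr.unique h1 (tr_rots L s')
  · have h5 : s % 4 = (s' + 2) % 4 := by omega
    have e1 : rt s = rt s' * (rxE * ryE) := by
      rw [rt_mod h5]
      apply Equiv.ext
      intro v
      rw [rt_add, rt_two]
      rfl
    have h1 := tr_rots L s
    rw [e1] at h1
    have h2 : Tr L (L.rots s').rx.ry (rt s' * (rxE * ryE)) :=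
      (tr_rots L s').trans ((tr_rx (L.rots s')).trans (tr_ry (L.rots s').rx))
    obtain ⟨x, hx⟩ := hp11_rxry (h.toRots s')
    exact ⟨x, (Tr.unique h1 h2).trans hx⟩

/-- one arm probability of the half plane -/
noncomputable def Lat.oneH (L : Lat) (c : Bool) (r R : ℤ) : ℝ :=
  pr (L.Arm c (ann r R ∩ {v | 0 ≤ v.2}) (L.nb (bx r)) (rng R))

private theorem hp11_uq : Uq false = {v : Pt | 0 ≤ v.2} := by
  ext v
  constructor
  · intro h
    exact h.1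
  · intro h
    refine ⟨h, fun h' => ?_⟩
    exact absurd h' (by decide)

private theorem hp11_shift {L : Lat} {κ : ℕ → ℝ} (h : Fam L κ) {s s' : ℤ} (hs : s % 2 = s' % 2)
    (x x' : Pt) : ∃ x₂, (L.rots s).shift x = ((L.rots s').shift x').shift x₂ := by
  obtain ⟨a, ha⟩ := rots_par h hs
  refine ⟨a + x - x', ?_⟩
  rw [ha, shift_shift, shift_shift]
  congr 1
  abel

/-- `Uq false = {0 ≤ v.2}` -/
theorem oneH_eq (L : Lat) (c : Bool) (r R : ℤ) : L.oneH c r R = aU L false c r R := by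
  unfold Lat.oneH aU
  rw [hp11_uq]

/-- Let `L₂ = (L.rots s').shift x'`, `Fam L₂ κ` (`Fam.toRots`, `Fam.toShift`).  `(L.rots s).shift x = L₂.shift x₂` for some `x₂` (`rots_par`, `shift_shift`, `L.rots s' = L₂.shift (-x')`).  `aU_all` with `e = 1`, `u = 0`. -/
theorem oneH_cmp (κ : ℕ → ℝ) : ∃ (C : ℝ) (R₀ : ℤ), 0 < C ∧ 16 ≤ R₀ ∧ ∀ L : Lat, Fam L κ →
    ∀ (s s' : ℤ) (x x' : Pt) (c c' : Bool) (r R : ℤ), s % 2 = s' % 2 → R₀ ≤ r → r < R →
      ((L.rots s).shift x).oneH c r R ≤ C * ((L.rots s').shift x').oneH c' r R := by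
  obtain ⟨C, R₀, hC, hR₀, hall⟩ := aU_all κ
  refine ⟨C, R₀, by linarith, by omega, ?_⟩
  intro L hL s s' x x' c c' r R hs hr hrR
  have hL₂ : Fam ((L.rots s').shift x') κ := (hL.toRots s').toShift x'
  obtain ⟨x₂, hx₂⟩ := hp11_shift hL hs x x'
  have h1 := hall ((L.rots s').shift x') hL₂ false c c' x₂ 0 1 r R (Or.inl rfl) le_rfl
    zero_le_one le_rfl zero_le_one hr hrR
  rw [← hx₂, ← oneH_eq] at h1
  have e1 : ((1 : Equiv.Perm Pt) '' {v : Pt | v - 0 ∈ Uq false}) = {v : Pt | 0 ≤ v.2} := by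
    rw [Equiv.Perm.coe_one, Set.image_id, ← hp11_uq]
    ext v
    show v - 0 ∈ Uq false ↔ v ∈ Uq false
    rw [sub_zero]
  rw [e1] at h1
  exact h1

/-- the same with `e = ryE`, `u = (0, 1)`: `ryE '' {v | v - (0, 1) ∈ Uq false} = {v | v.2 ≤ -1}` -/
theorem oneH_low (κ : ℕ → ℝ) : ∃ (C : ℝ) (R₀ : ℤ), 0 < C ∧ 16 ≤ R₀ ∧ ∀ L : Lat, Fam L κ →
    ∀ (s s' : ℤ) (x x' : Pt) (c c' : Bool) (r R : ℤ), s % 2 = s' % 2 → R₀ ≤ r → r < R →
      ((L.rots s).shift x).oneH c r R ≤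
        C * pr (((L.rots s').shift x').Arm c' (ann r R ∩ {v | v.2 ≤ -1})
          (((L.rots s').shift x').nb (bx r)) (rng R)) := by
  obtain ⟨C, R₀, hC, hR₀, hall⟩ := aU_all κ
  refine ⟨C, R₀, by linarith, by omega, ?_⟩
  intro L hL s s' x x' c c' r R hs hr hrR
  have hL₂ : Fam ((L.rots s').shift x') κ := (hL.toRots s').toShift x'
  obtain ⟨x₂, hx₂⟩ := hp11_shift hL hs x x'
  have h1 := hall ((L.rots s').shift x') hL₂ false c c' x₂ (0, 1) ryE r R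
    (Or.inr (Or.inr (Or.inl rfl))) le_rfl zero_le_one zero_le_one le_rfl hr hrR
  rw [← hx₂, ← oneH_eq] at h1
  have e1 : (ryE '' {v : Pt | v - (0, 1) ∈ Uq false}) = {v : Pt | v.2 ≤ -1} := by
    rw [hp11_uq]
    ext v
    constructor
    · rintro ⟨w, hw, rfl⟩
      have h2 : 0 ≤ w.2 - 1 := hw
      show -w.2 ≤ -1
      omega
    · intro hv
      have h2 : v.2 ≤ -1 := hv
      refine ⟨(v.1, -v.2), ?_, ?_⟩
      · show 0 ≤ -v.2 - 1
        omega
      · show (v.1, - -v.2) = v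
        rw [neg_neg]
  rw [e1] at h1
  exact h1

end SC

end

/-! ### from `Lib_MP_e0a489.HP13` -/

section

/-!
# MP_e0a489, module HP 13: half plane and corner bounds for one lattice
-/

set_option autoImplicit false

namespace SC

variable [IfL]

open Classical

/-- `P ^ 4 = P * P ^ 3 ≤ C₁ (a P) ^ 3 ≤ C₁ C₂ ^ 3 α ^ 3`; take the fourth root (`Real.mul_rpow`, `Real.rpow_le_rpow`). -/
theorem rpow34 {P a α C₁ C₂ : ℝ} (hP : 0 ≤ P) (ha : 0 ≤ a) (hα : 0 ≤ α) (hC₁ : 0 ≤ C₁)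
    (hC₂ : 0 ≤ C₂) (h1 : P ≤ C₁ * a ^ 3) (h2 : P * a ≤ C₂ * α) :
    P ≤ (C₁ * C₂ ^ 3) ^ ((1 : ℝ) / 4) * α ^ ((3 : ℝ) / 4) := by
  have h3 : 0 ≤ C₁ * C₂ ^ 3 := mul_nonneg hC₁ (pow_nonneg hC₂ 3)
  have h4 : P ^ 4 ≤ (C₁ * C₂ ^ 3) * α ^ 3 := by
    calc P ^ 4 = P * P ^ 3 := by ring
      _ ≤ (C₁ * a ^ 3) * P ^ 3 := mul_le_mul_of_nonneg_right h1 (pow_nonneg hP 3)
      _ = C₁ * (P * a) ^ 3 := by ring
      _ ≤ C₁ * (C₂ * α) ^ 3 :=
          mul_le_mul_of_nonneg_left (pow_le_pow_left₀ (mul_nonneg hP ha) h2 3) hC₁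
      _ = (C₁ * C₂ ^ 3) * α ^ 3 := by ring
  have h5 : P = (P ^ 4) ^ ((1 : ℝ) / 4) := by
    rw [← Real.rpow_natCast, ← Real.rpow_mul hP]
    norm_num
  have h6 : (α ^ 3) ^ ((1 : ℝ) / 4) = α ^ ((3 : ℝ) / 4) := by
    rw [← Real.rpow_natCast, ← Real.rpow_mul hα]
    norm_num
  rw [← h6, ← Real.mul_rpow h3 (pow_nonneg hα 3)]
  calc P = (P ^ 4) ^ ((1 : ℝ) / 4) := h5
    _ ≤ _ := Real.rpow_le_rpow (pow_nonneg hP 4) h4 (by norm_num)

theorem rpow12 {P α C : ℝ} (hP : 0 ≤ P) (hα : 0 ≤ α) (hC : 0 ≤ C) (h : P ^ 2 ≤ C ^ 2 * α) :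
    P ≤ C * α ^ ((1 : ℝ) / 2) := by
  have h1 : (α ^ ((1 : ℝ) / 2)) ^ 2 = α := by
    rw [← Real.rpow_natCast, ← Real.rpow_mul hα]
    norm_num
  have h2 : 0 ≤ α ^ ((1 : ℝ) / 2) := Real.rpow_nonneg hα _
  have h3 : P ^ 2 ≤ (C * α ^ ((1 : ℝ) / 2)) ^ 2 := by
    rw [mul_pow, h1]
    exact h
  exact (pow_le_pow_iff_left₀ hP (mul_nonneg hC h2) two_ne_zero).1 h3

private theorem hp13_fin (r R : ℤ) (Q : Set Pt) : (ann r R ∩ Q).Finite :=
  (ann_finite r R).subset Set.inter_subset_left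

private theorem hp13_loc (L : Lat) (c : Bool) (r R : ℤ) (Q : Set Pt) :
    Loc (L.Arm c (ann r R ∩ Q) (L.nb (bx r)) (rng R)) :=
  Lat.Arm.loc L c _ _ _ (hp13_fin r R Q)

private theorem hp13_mono (L : Lat) (c : Bool) (r R : ℤ) {Q Q' : Set Pt} (h : Q ⊆ Q') :
    pr (L.Arm c (ann r R ∩ Q) (L.nb (bx r)) (rng R)) ≤
      pr (L.Arm c (ann r R ∩ Q') (L.nb (bx r)) (rng R)) :=
  pr_mono (hp13_loc L c r R Q) (hp13_loc L c r R Q')
    fun _ hω => hω.mono (Set.inter_subset_inter_right _ h) subset_rfl subset_rfl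

private theorem hp13_rots (L : Lat) : L.rots 0 = L := by
  unfold Lat.rots
  rw [if_pos (by norm_num)]

private theorem hp13_low : (ryE '' {v : Pt | v - (0, 1) ∈ Uq false} : Set Pt) =
    {v | v.2 ≤ -1} := by
  ext v
  simp only [Set.mem_image, Set.mem_ofPred_eq]
  constructor
  · rintro ⟨w, hw, rfl⟩
    have h1 : 0 ≤ w.2 - 1 := hw.1
    show -w.2 ≤ -1
    omega
  · intro hv
    refine ⟨(v.1, -v.2), ⟨?_, fun h => absurd h (by decide)⟩, ?_⟩
    · show 0 ≤ -v.2 - 1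
      omega
    · show ((v.1, - -v.2) : Pt) = v
      rw [neg_neg]

private theorem hp13_q0 : (((1 : Equiv.Perm Pt) '' {v : Pt | v - (1, 0) ∈ Uq true}) : Set Pt) =
    {v | 1 ≤ v.1 ∧ 0 ≤ v.2} := by
  ext v
  simp only [Set.mem_image, Set.mem_ofPred_eq]
  constructor
  · rintro ⟨w, hw, rfl⟩
    have h1 : 0 ≤ w.2 - 0 := hw.1
    have h2 : 0 ≤ w.1 - 1 := hw.2 rfl
    show 1 ≤ w.1 ∧ 0 ≤ w.2
    omega
  · rintro ⟨h1, h2⟩
    refine ⟨v, ⟨?_, fun _ => ?_⟩, rfl⟩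
    · show 0 ≤ v.2 - 0
      omega
    · show 0 ≤ v.1 - 1
      omega

private theorem hp13_q1 : (rxE '' {v : Pt | v - (0, 1) ∈ Uq true} : Set Pt) =
    {v | v.1 ≤ 0 ∧ 1 ≤ v.2} := by
  ext v
  simp only [Set.mem_image, Set.mem_ofPred_eq]
  constructor
  · rintro ⟨w, hw, rfl⟩
    have h1 : 0 ≤ w.2 - 1 := hw.1
    have h2 : 0 ≤ w.1 - 0 := hw.2 rfl
    show -w.1 ≤ 0 ∧ 1 ≤ w.2
    omega
  · rintro ⟨h1, h2⟩
    refine ⟨(-v.1, v.2), ⟨?_, fun _ => ?_⟩, ?_⟩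
    · show 0 ≤ v.2 - 1
      omega
    · show 0 ≤ -v.1 - 0
      omega
    · show ((- -v.1, v.2) : Pt) = v
      rw [neg_neg]

private theorem hp13_q2 : ((rxE * ryE : Equiv.Perm Pt) '' {v : Pt | v - (1, 0) ∈ Uq true} : Set Pt) =
    {v | v.1 ≤ -1 ∧ v.2 ≤ 0} := by
  ext v
  simp only [Set.mem_image, Set.mem_ofPred_eq]
  constructor
  · rintro ⟨w, hw, rfl⟩
    have h1 : 0 ≤ w.2 - 0 := hw.1
    have h2 : 0 ≤ w.1 - 1 := hw.2 rfl
    show -w.1 ≤ -1 ∧ -w.2 ≤ 0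
    omega
  · rintro ⟨h1, h2⟩
    refine ⟨(-v.1, -v.2), ⟨?_, fun _ => ?_⟩, ?_⟩
    · show 0 ≤ -v.2 - 0
      omega
    · show 0 ≤ -v.1 - 1
      omega
    · show ((- -v.1, - -v.2) : Pt) = v
      rw [neg_neg, neg_neg]

private theorem hp13_q3 : (ryE '' {v : Pt | v - (0, 1) ∈ Uq true} : Set Pt) =
    {v | 0 ≤ v.1 ∧ v.2 ≤ -1} := by
  ext v
  simp only [Set.mem_image, Set.mem_ofPred_eq]
  constructor
  · rintro ⟨w, hw, rfl⟩
    have h1 : 0 ≤ w.2 - 1 := hw.1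
    have h2 : 0 ≤ w.1 - 0 := hw.2 rfl
    show 0 ≤ w.1 ∧ -w.2 ≤ -1
    omega
  · rintro ⟨h1, h2⟩
    refine ⟨(v.1, -v.2), ⟨?_, fun _ => ?_⟩, ?_⟩
    · show 0 ≤ -v.2 - 1
      omega
    · show 0 ≤ v.1 - 0
      omega
    · show ((v.1, - -v.2) : Pt) = v
      rw [neg_neg]

private theorem hp13_one (q : Bool) : (((1 : Equiv.Perm Pt) '' {v : Pt | v - 0 ∈ Uq q}) : Set Pt) =
    Uq q := by
  ext v
  simp only [Set.mem_image, Set.mem_ofPred_eq, sub_zero]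
  constructor
  · rintro ⟨w, hw, rfl⟩
    exact hw
  · intro hv
    exact ⟨v, hv, rfl⟩

/-- HALF PLANE.  `P = pr (L.TwoH c H r R)`, `a = aU L false c r R`.  `ann r R ∩ H ⊆ ann r R ∩ Uq false`, so `pr_twoH_le` and `Arm.mono` give `P ≤ aU L false c r R ^ 2 * aU L false (!c) r R ≤ C a ^ 3`
(`aU_all` with `e = 1`, `u = 0`, `x = 0`; `shift_zero`).  `aU_all` with `e = ryE`, `u = (0, 1)`: `a ≤ C pr (Arm (!c) (ann r R ∩ {v.2 ≤ -1}) ..)`, so `pr_half_low` gives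
`P a ≤ C pr (L.TwoA c r R) ≤ C C' al L r R` (`al_all` with `s = 0`, `x = 0`; `L.rots 0 = L`).  `rpow34`. -/
theorem half_core (κ : ℕ → ℝ) : ∃ (C : ℝ) (R₀ : ℤ), 1 ≤ C ∧ 32 ≤ R₀ ∧ ∀ L : Lat, Fam L κ →
    ∀ (c : Bool) (H : Set Pt) (r R : ℤ), HalfLike H → R₀ ≤ r → r < R →
      pr (L.TwoH c H r R) ≤ C * (al L r R) ^ ((3 : ℝ) / 4) := by
  obtain ⟨C, R₁, hC, hR₁, H1⟩ := aU_all κ
  obtain ⟨C', R₂, hC', hR₂, H2⟩ := al_all κ
  have hC0 : (0 : ℝ) ≤ C := by linarith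
  have hC'0 : (0 : ℝ) ≤ C' := by linarith
  refine ⟨max 1 ((C * (C * C') ^ 3) ^ ((1 : ℝ) / 4)), max R₁ R₂, le_max_left _ _,
    le_trans hR₁ (le_max_left _ _), ?_⟩
  intro L hL c H r R hH hr hR
  have r1 : R₁ ≤ r := le_trans (le_max_left _ _) hr
  have r2 : R₂ ≤ r := le_trans (le_max_right _ _) hr
  have r0 : 1 ≤ r := by omega
  have hU : H ⊆ Uq false := fun v hv => ⟨hH.2 hv, fun h => absurd h (by decide)⟩
  have hP : 0 ≤ pr (L.TwoH c H r R) := pr_nonneg _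
  have ha : 0 ≤ aU L false c r R := aU_nonneg L false c r R
  have hal : 0 ≤ al L r R := by
    unfold al
    rw [if_pos hR]
    exact pr_nonneg _
  have a1 : pr (L.Arm c (ann r R ∩ H) (L.nb (bx r)) (rng R)) ≤ aU L false c r R :=
    hp13_mono L c r R hU
  have a2 : pr (L.Arm (!c) (ann r R ∩ H) (L.nb (bx r)) (rng R)) ≤ C * aU L false c r R := by
    refine le_trans (hp13_mono L (!c) r R hU) ?_
    have h := H1 L hL false (!c) c 0 0 1 r R (Or.inl rfl) le_rfl (by norm_num) le_rfl (by norm_num)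
      r1 hR
    rw [hp13_one, shift_zero] at h
    exact h
  have h1 : pr (L.TwoH c H r R) ≤ C * aU L false c r R ^ 3 := by
    calc pr (L.TwoH c H r R) ≤ pr (L.Arm c (ann r R ∩ H) (L.nb (bx r)) (rng R)) ^ 2 *
          pr (L.Arm (!c) (ann r R ∩ H) (L.nb (bx r)) (rng R)) := Lat.pr_twoH_le L c r0 hR hH
      _ ≤ aU L false c r R ^ 2 * (C * aU L false c r R) :=
          mul_le_mul (pow_le_pow_left₀ (pr_nonneg _) a1 2) a2 (pr_nonneg _) (pow_nonneg ha 2)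
      _ = C * aU L false c r R ^ 3 := by ring
  have h2 : pr (L.TwoH c H r R) * aU L false c r R ≤ (C * C') * al L r R := by
    have h := H1 L hL false c (!c) 0 (0, 1) ryE r R (Or.inr (Or.inr (Or.inl rfl))) le_rfl
      (by norm_num) (by norm_num) le_rfl r1 hR
    rw [hp13_low, shift_zero] at h
    have h3 := Lat.pr_half_low L c r0 hR hH
    have h4 := H2 L hL 0 0 c r R r2 hR
    rw [hp13_rots, shift_zero] at h4
    calc pr (L.TwoH c H r R) * aU L false c r R ≤ pr (L.TwoH c H r R) *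
          (C * pr (L.Arm (!c) (ann r R ∩ {v | v.2 ≤ -1}) (L.nb (bx r)) (rng R))) :=
          mul_le_mul_of_nonneg_left h hP
      _ = C * (pr (L.TwoH c H r R) *
          pr (L.Arm (!c) (ann r R ∩ {v | v.2 ≤ -1}) (L.nb (bx r)) (rng R))) := by ring
      _ ≤ C * (C' * al L r R) := mul_le_mul_of_nonneg_left (le_trans h3 h4) hC0
      _ = (C * C') * al L r R := by ring
  have h5 := rpow34 hP ha hal hC0 (mul_nonneg hC0 hC'0) h1 h2
  exact le_trans h5 (mul_le_mul_of_nonneg_right (le_max_right _ _) (Real.rpow_nonneg hal _))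

/-- CORNER.  `ann r R ∩ H ⊆ ann r R ∩ Uq true`, so `P = pr (L.TwoQ H r R) ≤ q₁ q₀`, `q₁ = aU L true true r R`, `q₀ = aU L true false r R` (`Arm.mono`, `pr_harris_neg`).  `aU_all` four times (`x = 0`, `q = true`):
`e = 1`, `u = (1, 0)`: `{v | v - (1,0) ∈ Uq true} = {1 ≤ v.1, 0 ≤ v.2}`, colour `true`; `e = rxE`, `u = (0, 1)`: `rxE '' {0 ≤ v.1, 1 ≤ v.2} = {v.1 ≤ 0, 1 ≤ v.2}`, colour `false`; `e = rxE * ryE`, `u = (1, 0)`:
`{v.1 ≤ -1, v.2 ≤ 0}`, colour `true`; `e = ryE`, `u = (0, 1)`: `{0 ≤ v.1, v.2 ≤ -1}`, colour `false`.  So `(q₁ q₀) ^ 2 ≤ C ^ 4 * (product of the four probabilities) ≤ C ^ 4 pr (L.TwoA true r R) = C ^ 4 al L r R`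
(`pr_quad`; `al` for `r < R`).  `rpow12`. -/
theorem quart_core (κ : ℕ → ℝ) : ∃ (C : ℝ) (R₀ : ℤ), 1 ≤ C ∧ 32 ≤ R₀ ∧ ∀ L : Lat, Fam L κ →
    ∀ (H : Set Pt) (r R : ℤ), QuartLike H → R₀ ≤ r → r < R →
      pr (L.TwoQ H r R) ≤ C * (al L r R) ^ ((1 : ℝ) / 2) := by
  obtain ⟨C, R₁, hC, hR₁, H1⟩ := aU_all κ
  have hC0 : (0 : ℝ) ≤ C := by linarith
  refine ⟨C ^ 2, R₁, one_le_pow₀ hC, hR₁, ?_⟩
  intro L hL H r R hH hr hR
  have r0 : 1 ≤ r := by omega
  have hU : H ⊆ Uq true := fun v hv => ⟨(hH.2 hv).2, fun _ => (hH.2 hv).1⟩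
  have hP : 0 ≤ pr (L.TwoQ H r R) := pr_nonneg _
  have q1 : 0 ≤ aU L true true r R := aU_nonneg L true true r R
  have q0 : 0 ≤ aU L true false r R := aU_nonneg L true false r R
  have hal : al L r R = pr (L.TwoA true r R) := by
    unfold al
    rw [if_pos hR]
  have hal0 : 0 ≤ al L r R := by
    rw [hal]
    exact pr_nonneg _
  have hle : pr (L.TwoQ H r R) ≤ aU L true true r R * aU L true false r R := by
    have e : L.TwoQ H r R = fun ω => L.Arm true (ann r R ∩ H) (L.nb (bx r)) (rng R) ω ∧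
        L.Arm false (ann r R ∩ H) (L.nb (bx r)) (rng R) ω := by
      funext ω
      refine propext ⟨fun h => ⟨h true, h false⟩, fun h c => ?_⟩
      cases c with
      | true => exact h.1
      | false => exact h.2
    rw [e]
    refine le_trans (pr_harris_neg (hp13_loc L true r R H) (hp13_loc L false r R H)
      (Lat.Arm.mon L true _ _ _) (Lat.Arm.mon L false _ _ _)) ?_
    exact mul_le_mul (hp13_mono L true r R hU) (hp13_mono L false r R hU) (pr_nonneg _) q1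
  have b0 := H1 L hL true true true 0 (1, 0) 1 r R (Or.inl rfl) (by norm_num) le_rfl le_rfl
    (by norm_num) hr hR
  have b1 := H1 L hL true false false 0 (0, 1) rxE r R (Or.inr (Or.inl rfl)) le_rfl
    (by norm_num) (by norm_num) le_rfl hr hR
  have b2 := H1 L hL true true true 0 (1, 0) (rxE * ryE) r R (Or.inr (Or.inr (Or.inr rfl)))
    (by norm_num) le_rfl le_rfl (by norm_num) hr hR
  have b3 := H1 L hL true false false 0 (0, 1) ryE r R (Or.inr (Or.inr (Or.inl rfl))) le_rfl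
    (by norm_num) (by norm_num) le_rfl hr hR
  rw [hp13_q0, shift_zero] at b0
  rw [hp13_q1, shift_zero] at b1
  rw [hp13_q2, shift_zero] at b2
  rw [hp13_q3, shift_zero] at b3
  have hq := Lat.pr_quad L r0 hR
  obtain ⟨p0, e0⟩ : ∃ p, p = pr (L.Arm true (ann r R ∩ {v | 1 ≤ v.1 ∧ 0 ≤ v.2})
    (L.nb (bx r)) (rng R)) := ⟨_, rfl⟩
  obtain ⟨p1, e1⟩ : ∃ p, p = pr (L.Arm false (ann r R ∩ {v | v.1 ≤ 0 ∧ 1 ≤ v.2})
    (L.nb (bx r)) (rng R)) := ⟨_, rfl⟩
  obtain ⟨p2, e2⟩ : ∃ p, p = pr (L.Arm true (ann r R ∩ {v | v.1 ≤ -1 ∧ v.2 ≤ 0})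
    (L.nb (bx r)) (rng R)) := ⟨_, rfl⟩
  obtain ⟨p3, e3⟩ : ∃ p, p = pr (L.Arm false (ann r R ∩ {v | 0 ≤ v.1 ∧ v.2 ≤ -1})
    (L.nb (bx r)) (rng R)) := ⟨_, rfl⟩
  rw [← e0] at b0
  rw [← e1] at b1
  rw [← e2] at b2
  rw [← e3] at b3
  rw [← e0, ← e1, ← e2, ← e3, ← hal] at hq
  have n0 : 0 ≤ p0 := by rw [e0]; exact pr_nonneg _
  have n1 : 0 ≤ p1 := by rw [e1]; exact pr_nonneg _
  have n2 : 0 ≤ p2 := by rw [e2]; exact pr_nonneg _
  have n3 : 0 ≤ p3 := by rw [e3]; exact pr_nonneg _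
  refine rpow12 hP hal0 (pow_nonneg hC0 2) ?_
  calc pr (L.TwoQ H r R) ^ 2 ≤ (aU L true true r R * aU L true false r R) ^ 2 :=
        pow_le_pow_left₀ hP hle 2
    _ = (aU L true true r R * aU L true false r R) *
        (aU L true true r R * aU L true false r R) := sq _
    _ ≤ ((C * p0) * (C * p1)) * ((C * p2) * (C * p3)) :=
        mul_le_mul (mul_le_mul b0 b1 q0 (mul_nonneg hC0 n0))
          (mul_le_mul b2 b3 q0 (mul_nonneg hC0 n2)) (mul_nonneg q1 q0)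
          (mul_nonneg (mul_nonneg hC0 n0) (mul_nonneg hC0 n1))
    _ = (C ^ 2) ^ 2 * (p0 * p1 * (p2 * p3)) := by ring
    _ ≤ (C ^ 2) ^ 2 * al L r R := mul_le_mul_of_nonneg_left hq (by positivity)

end SC

end

/-! ### from `Lib_MP_e0a489.HP9` -/

section

/-!
# MP_e0a489, module HP: half plane and corner events (interface)
-/

set_option autoImplicit false

namespace SC

variable [IfL]

open Classical

private theorem hp9_al (L : Lat) (r : ℤ) : al L r r = 1 := by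
  unfold al
  rw [if_neg (lt_irrefl r)]

private theorem hp9_nonneg (L : Lat) (r R : ℤ) : 0 ≤ al L r R := by
  unfold al
  split_ifs
  · exact pr_nonneg _
  · exact zero_le_one

private theorem hp9_al_le {L : Lat} {C : ℝ} {s : ℤ} {x : Pt} {r R : ℤ} (h : r < R)
    (H : pr (((L.rots s).shift x).TwoA true r R) ≤ C * al L r R) :
    al ((L.rots s).shift x) r R ≤ C * al L r R := by
  have : al ((L.rots s).shift x) r R = pr (((L.rots s).shift x).TwoA true r R) := by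
    unfold al
    rw [if_pos h]
  rw [this]
  exact H

/-- half plane: two clusters of one colour -/
theorem half_le (κ : ℕ → ℝ) : ∃ (C : ℝ) (R₀ : ℤ), 0 < C ∧ 16 ≤ R₀ ∧ ∀ L : Lat, Fam L κ →
    ∀ (s : ℤ) (x : Pt) (c : Bool) (H : Set Pt) (r R : ℤ), HalfLike H → R₀ ≤ r → r ≤ R →
      pr (((L.rots s).shift x).TwoH c H r R) ≤ C * (al L r R) ^ ((3 : ℝ) / 4) := by
  obtain ⟨C₁, R₁, hC₁, hR₁, h₁⟩ := half_core κ
  obtain ⟨C₂, R₂, hC₂, hR₂, h₂⟩ := al_all κ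
  have hC₂' : (1 : ℝ) ≤ C₂ ^ ((3 : ℝ) / 4) := Real.one_le_rpow hC₂ (by norm_num)
  have hC : (1 : ℝ) ≤ C₁ * C₂ ^ ((3 : ℝ) / 4) := by nlinarith
  refine ⟨C₁ * C₂ ^ ((3 : ℝ) / 4), max R₁ R₂, by linarith, le_trans hR₂ (le_max_right _ _), ?_⟩
  intro L hL s x c H r R hH hr hrR
  rcases eq_or_lt_of_le hrR with rfl | hlt
  · rw [hp9_al, Real.one_rpow, mul_one]
    exact le_trans (pr_le_one _) hC
  · have hF : Fam ((L.rots s).shift x) κ := (hL.toRots s).toShift x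
    have e1 := h₁ _ hF c H r R hH (le_trans (le_max_left _ _) hr) hlt
    have e2 := hp9_al_le hlt (h₂ L hL s x true r R (le_trans (le_max_right _ _) hr) hlt)
    have e3 : (al ((L.rots s).shift x) r R) ^ ((3 : ℝ) / 4) ≤
        C₂ ^ ((3 : ℝ) / 4) * (al L r R) ^ ((3 : ℝ) / 4) := by
      rw [← Real.mul_rpow (by linarith) (hp9_nonneg L r R)]
      exact Real.rpow_le_rpow (hp9_nonneg _ r R) e2 (by norm_num)
    calc _ ≤ C₁ * (al ((L.rots s).shift x) r R) ^ ((3 : ℝ) / 4) := e1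
      _ ≤ C₁ * (C₂ ^ ((3 : ℝ) / 4) * (al L r R) ^ ((3 : ℝ) / 4)) :=
          mul_le_mul_of_nonneg_left e3 (by linarith)
      _ = _ := by ring

/-- corner: two arms of different colours -/
theorem quart_le (κ : ℕ → ℝ) : ∃ (C : ℝ) (R₀ : ℤ), 0 < C ∧ 16 ≤ R₀ ∧ ∀ L : Lat, Fam L κ →
    ∀ (s : ℤ) (x : Pt) (H : Set Pt) (r R : ℤ), QuartLike H → R₀ ≤ r → r ≤ R →
      pr (((L.rots s).shift x).TwoQ H r R) ≤ C * (al L r R) ^ ((1 : ℝ) / 2) := by
  obtain ⟨C₁, R₁, hC₁, hR₁, h₁⟩ := quart_core κ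
  obtain ⟨C₂, R₂, hC₂, hR₂, h₂⟩ := al_all κ
  have hC₂' : (1 : ℝ) ≤ C₂ ^ ((1 : ℝ) / 2) := Real.one_le_rpow hC₂ (by norm_num)
  have hC : (1 : ℝ) ≤ C₁ * C₂ ^ ((1 : ℝ) / 2) := by nlinarith
  refine ⟨C₁ * C₂ ^ ((1 : ℝ) / 2), max R₁ R₂, by linarith, le_trans hR₂ (le_max_right _ _), ?_⟩
  intro L hL s x H r R hH hr hrR
  rcases eq_or_lt_of_le hrR with rfl | hlt
  · rw [hp9_al, Real.one_rpow, mul_one]
    exact le_trans (pr_le_one _) hC
  · have hF : Fam ((L.rots s).shift x) κ := (hL.toRots s).toShift x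
    have e1 := h₁ _ hF H r R hH (le_trans (le_max_left _ _) hr) hlt
    have e2 := hp9_al_le hlt (h₂ L hL s x true r R (le_trans (le_max_right _ _) hr) hlt)
    have e3 : (al ((L.rots s).shift x) r R) ^ ((1 : ℝ) / 2) ≤
        C₂ ^ ((1 : ℝ) / 2) * (al L r R) ^ ((1 : ℝ) / 2) := by
      rw [← Real.mul_rpow (by linarith) (hp9_nonneg L r R)]
      exact Real.rpow_le_rpow (hp9_nonneg _ r R) e2 (by norm_num)
    calc _ ≤ C₁ * (al ((L.rots s).shift x) r R) ^ ((1 : ℝ) / 2) := e1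
      _ ≤ C₁ * (C₂ ^ ((1 : ℝ) / 2) * (al L r R) ^ ((1 : ℝ) / 2)) :=
          mul_le_mul_of_nonneg_left e3 (by linarith)
      _ = _ := by ring

end SC

end
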