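import Mathlib
import Pool.Agent.Lib_MP_e0a489_m.G02
import Pool.Agent.Lib_MP_e0a489_m.G06
import Pool.Agent.Lib_MP_e0a489_m.G09
import Pool.Agent.Lib_MP_e0a489_m.G11
import Pool.Agent.Lib_MP_e0a489_m.G12
import Pool.Agent.Lib_MP_e0a489_m.G13
import Pool.Agent.Lib_MP_e0a489_m.G14
import Pool.Agent.Lib_MP_e0a489_m.G15
import Pool.Agent.Lib_MP_e0a489_m.G17
import Pool.Agent.Lib_MP_e0a489_m.G18
import Pool.Agent.Lib_MP_e0a489_m.G19
import Pool.Agent.Lib_MP_e0a489_m.G20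

/-!
# MP_e0a489_pr: merged library part G22

Concatenation of library files (each in its own section), only to save build time.
-/

/-! ### from `Lib_MP_e0a489.OS10` -/

section

/-!
# MP_e0a489, outer separation 10: second exploration (open clusters attached to `bx r` and the coarse blocks)

`D₂ = OD2 R w M s₁ k₁ s₃ k₃ = bx R ∪` two coarse blocks, `S₂ = OS2 r w M s₁ k₁ s₃ k₃ = bx r ∪` two coarse blocks,
`C₂ = Cx true D₂ S₂ ω`, `D₂ \ S₂ = ann r R` (`os_D2_diff`).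
-/

set_option autoImplicit false

namespace SC

open Classical

namespace Lat

variable {L : Lat}

private theorem os10_comm (u v : Pt) : nrm (u - v) = nrm (v - u) := by
  show max |u.1 - v.1| |u.2 - v.2| = max |v.1 - u.1| |v.2 - u.2|
  rw [abs_sub_comm u.1, abs_sub_comm u.2]

private theorem os10_zero {r : ℤ} (hr : 1 ≤ r) : (0 : Pt) ∈ bx r := by
  show max |(0 : ℤ)| |(0 : ℤ)| ≤ r
  simp only [abs_zero, max_self]
  linarith

/-- An open arm to a coarse block is contained in the explored set: its last site is in the block, so in `S₂`, and all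
its sites are in `D₂` and open (`Cx_of_cn`).  In particular its first site is in `C₂`. -/
theorem Oarm.sub {r R w M s₁ k₁ s₃ k₃ s k : ℤ} {ω : Cfg} (h : OPar r R w M)
    (hsk : (s = s₁ ∧ k = k₁) ∨ (s = s₃ ∧ k = k₃)) (hA : L.Oarm true r R w M s k ω) :
    ∃ x ∈ L.nb (bx r), ∃ y ∈ ob w M s k,
      L.Cn (L.Cx true (OD2 R w M s₁ k₁ s₃ k₃) (OS2 r w M s₁ k₁ s₃ k₃) ω) x y := by
  obtain ⟨x, hx, y, hy, hxy⟩ := hA
  have hyo : y ∈ OS2 r w M s₁ k₁ s₃ k₃ := by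
    rcases hsk with ⟨rfl, rfl⟩ | ⟨rfl, rfl⟩
    · exact Or.inr (Or.inl hy.1)
    · exact Or.inr (Or.inr hy.1)
  have hob : ob w M s k ⊆ OD2 R w M s₁ k₁ s₃ k₃ := by
    rcases hsk with ⟨rfl, rfl⟩ | ⟨rfl, rfl⟩
    · exact fun z hz => Or.inr (Or.inl hz)
    · exact fun z hz => Or.inr (Or.inr hz)
  have hAD : (ann r R ∪ ob w M s k) ∩ L.col true ω ⊆ OD2 R w M s₁ k₁ s₃ k₃ := by
    rintro z ⟨hz | hz, -⟩
    · exact Or.inl hz.2
    · exact hob hz
  have hsub : {z | L.Cn ((ann r R ∪ ob w M s k) ∩ L.col true ω) x z} ⊆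
      L.Cx true (OD2 R w M s₁ k₁ s₃ k₃) (OS2 r w M s₁ k₁ s₃ k₃) ω := by
    intro z hz
    have hz' : L.Cn ((ann r R ∪ ob w M s k) ∩ L.col true ω) x z := hz
    exact Cx_of_cn hAD (fun v hv => Or.inr hv.2) (hz'.symm.trans hxy) (Cx_sup hyo)
  have hcon := con_cluster (L := L) ((ann r R ∪ ob w M s k) ∩ L.col true ω) x
  exact ⟨x, hx, y, hy.1, (hcon x (Cn.refl hxy.left) y hxy).mono hsub⟩

/-- `C₂` is connected: `Cx_con'`.  Sites of `bx r` are joined in `bx r` (`con_bx`), sites of a block are joined in the block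
(`os_con_ob`), and the arms join `bx r` to the two blocks in `C₂` (`Oarm.sub`). -/
theorem os_C2_con {r R w M s₁ k₁ s₃ k₃ : ℤ} {ω : Cfg} (h : OPar r R w M)
    (h1 : L.Oarm true r R w M s₁ k₁ ω) (h3 : L.Oarm true r R w M s₃ k₃ ω) :
    L.Con (L.Cx true (OD2 R w M s₁ k₁ s₃ k₃) (OS2 r w M s₁ k₁ s₃ k₃) ω) := by
  obtain ⟨x₁, hx₁, y₁, hy₁, c₁⟩ := Oarm.sub (s₁ := s₁) (k₁ := k₁) (s₃ := s₃) (k₃ := k₃) h
    (Or.inl ⟨rfl, rfl⟩) h1
  obtain ⟨x₃, hx₃, y₃, hy₃, c₃⟩ := Oarm.sub (s₁ := s₁) (k₁ := k₁) (s₃ := s₃) (k₃ := k₃) h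
    (Or.inr ⟨rfl, rfl⟩) h3
  have hSC : OS2 r w M s₁ k₁ s₃ k₃ ⊆
      L.Cx true (OD2 R w M s₁ k₁ s₃ k₃) (OS2 r w M s₁ k₁ s₃ k₃) ω := Cx_sup
  have hbx : ∀ u ∈ bx r, L.Cn (L.Cx true (OD2 R w M s₁ k₁ s₃ k₃)
      (OS2 r w M s₁ k₁ s₃ k₃) ω) u 0 := by
    intro u hu
    exact (con_bx (L := L) r u hu 0 (os10_zero h.r1)).mono (fun z hz => hSC (Or.inl hz))
  have hnb : ∀ x ∈ L.nb (bx r), x ∈ L.Cx true (OD2 R w M s₁ k₁ s₃ k₃)
      (OS2 r w M s₁ k₁ s₃ k₃) ω → L.Cn (L.Cx true (OD2 R w M s₁ k₁ s₃ k₃)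
      (OS2 r w M s₁ k₁ s₃ k₃) ω) x 0 := by
    rintro x ⟨b, hb, hbx'⟩ hx
    exact (Cn.of_adj hx (hSC (Or.inl hb)) hbx'.symm).trans (hbx b hb)
  have toO : ∀ u ∈ OS2 r w M s₁ k₁ s₃ k₃, L.Cn (L.Cx true (OD2 R w M s₁ k₁ s₃ k₃)
      (OS2 r w M s₁ k₁ s₃ k₃) ω) u 0 := by
    rintro u (hu | hu | hu)
    · exact hbx u hu
    · exact (((os_con_ob (L := L) w M s₁ k₁ u hu y₁ hy₁).mono
        (fun z hz => hSC (Or.inr (Or.inl hz)))).trans c₁.symm).trans (hnb x₁ hx₁ c₁.left)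
    · exact (((os_con_ob (L := L) w M s₃ k₃ u hu y₃ hy₃).mono
        (fun z hz => hSC (Or.inr (Or.inr hz)))).trans c₃.symm).trans (hnb x₃ hx₃ c₃.left)
  exact Cx_con' (fun u hu v hv => (toO u hu).trans (toO v hv).symm)

/-- An explored site of the ring has an open path in `ann r R` to a site `u` next to the source.
Proof.  It is not in `S₂` (norm `R`), so it is in `cl true (D₂ \ S₂) S₂ ω`; `os_D2_diff`; `u` has a neighbour in `bx r` or in a block; in the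
second case `os_ob_nbr`. -/
theorem os_C2_path {r R w M s₁ k₁ s₃ k₃ : ℤ} {ω : Cfg} {v : Pt} (h : OPar r R w M)
    (hk₁ : |k₁| + 2 ≤ M) (hk₃ : |k₃| + 2 ≤ M)
    (hv : v ∈ L.Cx true (OD2 R w M s₁ k₁ s₃ k₃) (OS2 r w M s₁ k₁ s₃ k₃) ω) (hvR : nrm v = R) :
    ∃ u, L.Cn (ann r R ∩ L.col true ω) v u ∧ (u ∈ L.nb (bx r) ∨
      (∃ y, k₁ * w - w / 2 - 1 ≤ y ∧ y ≤ k₁ * w + w / 2 + 1 ∧ u = rt s₁ (R, y)) ∨
        ∃ y, k₃ * w - w / 2 - 1 ≤ y ∧ y ≤ k₃ * w + w / 2 + 1 ∧ u = rt s₃ (R, y)) := by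
  have hrR : r < R := by
    have := h.r1
    have := h.r8
    omega
  have hvS : v ∉ OS2 r w M s₁ k₁ s₃ k₃ := by
    rintro (hv' | hv' | hv')
    · have h1 : nrm v ≤ r := hv'
      linarith
    · have h1 := (ob_nrm h.od h.w0 h.eR (by linarith) hv').1
      linarith
    · have h1 := (ob_nrm h.od h.w0 h.eR (by linarith) hv').1
      linarith
  rcases hv with hv' | ⟨u, ⟨z, hz, hzu⟩, huv⟩
  · exact absurd hv' hvS
  · rw [os_D2_diff h hk₁ hk₃] at huv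
    refine ⟨u, huv.symm, ?_⟩
    have huR : u ∈ bx R := huv.left.1.2
    rcases hz with hz | hz | hz
    · exact Or.inl ⟨z, hz, hzu⟩
    · obtain ⟨y, e1, e2, e3⟩ := os_ob_nbr h.od h.w0 h.eR hz huR hzu.symm
      exact Or.inr (Or.inl ⟨y, e1, e2, e3⟩)
    · obtain ⟨y, e1, e2, e3⟩ := os_ob_nbr h.od h.w0 h.eR hz huR hzu.symm
      exact Or.inr (Or.inr ⟨y, e1, e2, e3⟩)

/-- THE FINE CELL of one closed path.  `w` fine, `μ w` coarse block size, `μ = 4 B + 1`.  `i = 2 R s + y` is the index of the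
end of a closed path in `ann r R` from a neighbour `x` of `bx r`, outside the triples of the coarse blocks.
Proof.  The path is closed and in `D₂ \ S₂ = ann r R`, so it does not meet `C₂` (`Cx_col`).  `V` = cluster of `rc R i` in `D₂ \ C₂`
(`comp_cluster`), `x ∈ V`.  `good_pos'` with `o = false`, `c = false`, `m = R`, `β = B w`, `D = D₂`, `C = C₂`, `E = ann r R`, `v = x`:
`|y| + 4 B w ≤ R`; `nrm (x - rc R i) ≥ R - r - 1 ≥ 3 B w` (`os_nrm_sub_ge`, `os_nb_bx_nrm`).  `hC`: for a site of `C₂` on the ring `os_C2_path` gives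
`u`; if `u ∈ nb (bx r)` as before; otherwise `os_mid_far` at the coarse scale: distance `≥ μ w ≥ 3 B w` (`rc_side`).
Conclusion: `|k w - y| ≤ 6 w` and `|k| w ≤ |y| + 6 w ≤ R - 100 μ w + 6 w`, `R = M w + w / 2`. -/
theorem os_fine_cell {r R w M μ Mc B s₁ k₁ s₃ k₃ s y ℓ : ℤ} {ω : Cfg} {x : Pt}
    (h : OPar r R w M) (h' : OPar r R (μ * w) Mc) (hμ : μ = 4 * B + 1) (hB : 48 ≤ B)
    (hP : OPos R (μ * w) Mc s₁ k₁ s₃ k₃) (hy : |y| + 100 * (μ * w) ≤ R)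
    (hF₁ : OFar R (μ * w) s₁ k₁ (2 * R * s + y)) (hF₃ : OFar R (μ * w) s₃ k₃ (2 * R * s + y))
    (hx : x ∈ L.nb (bx r)) (hp : L.Cn (ann r R ∩ L.col false ω) (rc R (2 * R * s + y)) x)
    (hbad : ¬ L.BadW false ∅ R 1 ℓ (B * w) (12 * w) ω) :
    ∃ V k, L.Comp (OD2 R (μ * w) Mc s₁ k₁ s₃ k₃ \
        L.Cx true (OD2 R (μ * w) Mc s₁ k₁ s₃ k₃) (OS2 r (μ * w) Mc s₁ k₁ s₃ k₃) ω) V ∧
      x ∈ V ∧ trip w R s k ⊆ V ∧ k ≠ 0 ∧ |k * w - y| ≤ 6 * w ∧ |k| + 2 * μ + 20 ≤ M := by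
  have hw0 := h.w0
  have hw5 := h.w5
  have hr1 := h.r1
  have hr8 := h.r8
  have hRw := h'.Rw
  have hBw : 48 * w ≤ B * w := by nlinarith
  have hWe : μ * w = 4 * (B * w) + w := by
    rw [hμ]
    ring
  have hR1 : 1 ≤ R := by linarith
  have hrR : r < R := by omega
  have hk₁ : |k₁| + 2 ≤ Mc := by have := hP.a₁; linarith
  have hk₃ : |k₃| + 2 ≤ Mc := by have := hP.a₃; linarith
  have hdiff := os_D2_diff (r := r) (s₁ := s₁) (s₃ := s₃) h' hk₁ hk₃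
  have hnx : nrm (rc R (2 * R * s + y)) = R := rc_nrm hR1
  have hzDS : rc R (2 * R * s + y) ∈ OD2 R (μ * w) Mc s₁ k₁ s₃ k₃ \
      OS2 r (μ * w) Mc s₁ k₁ s₃ k₃ := by
    rw [hdiff]
    exact ⟨by linarith, by linarith⟩
  have hzC : rc R (2 * R * s + y) ∉ L.Cx true (OD2 R (μ * w) Mc s₁ k₁ s₃ k₃)
      (OS2 r (μ * w) Mc s₁ k₁ s₃ k₃) ω := by
    intro hc
    have h1 := (Cx_col hc hzDS.2).2
    have h2 : rc R (2 * R * s + y) ∈ L.col false ω := hp.left.2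
    have h3 : L.st ω (rc R (2 * R * s + y)) = true := h1
    have h4 : L.st ω (rc R (2 * R * s + y)) = false := h2
    rw [h3] at h4
    exact absurd h4 (by decide)
  have hzm : rc R (2 * R * s + y) ∈ OD2 R (μ * w) Mc s₁ k₁ s₃ k₃ \
      L.Cx true (OD2 R (μ * w) Mc s₁ k₁ s₃ k₃) (OS2 r (μ * w) Mc s₁ k₁ s₃ k₃) ω :=
    ⟨hzDS.1, hzC⟩
  have hV := comp_cluster (L := L) hzm
  have hzV : rc R (2 * R * s + y) ∈ {z | L.Cn (OD2 R (μ * w) Mc s₁ k₁ s₃ k₃ \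
      L.Cx true (OD2 R (μ * w) Mc s₁ k₁ s₃ k₃) (OS2 r (μ * w) Mc s₁ k₁ s₃ k₃) ω)
      (rc R (2 * R * s + y)) z} := Cn.refl hzm
  have hxV := comp_path (c := false) (S := OS2 r (μ * w) Mc s₁ k₁ s₃ k₃)
    (M := OD2 R (μ * w) Mc s₁ k₁ s₃ k₃) (x := x) hV
    (by rw [hdiff]; exact hp.symm) hzV
  have hxd : 3 * (B * w) ≤ nrm (x - rc R (2 * R * s + y)) := by
    have h1 := os_nrm_sub_ge x (rc R (2 * R * s + y))
    have h2 := os_nb_bx_nrm hx
    rw [hnx] at h1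
    omega
  obtain ⟨k, hk0, hk1, hk2, hk3⟩ := good_pos' (L := L) (o := false) (c := false) (m := R)
    (w := w) (ρ := 1) (ℓ := ℓ) (β := B * w) (s := s) (y := y)
    (D := OD2 R (μ * w) Mc s₁ k₁ s₃ k₃) (D' := ∅) (E := ann r R)
    (v := x) h.od hw0 (by linarith) hBw (by linarith) hR1 hbad
    (by
      intro z hz
      show nrm z ≤ R
      exact hz.2)
    (by
      intro z hz
      have hz' : nrm z = R := hz
      exact Or.inl (show nrm z ≤ R by linarith))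
    hV hzV hp hxd
    (by
      intro i _ hiC
      have hni : nrm (rc R i) = R := rc_nrm hR1
      obtain ⟨u, hiu, hu⟩ := os_C2_path (r := r) h' hk₁ hk₃ hiC hni
      refine ⟨u, hiu, ?_⟩
      have hyR : |y| ≤ R := by
        have : 0 ≤ 100 * (μ * w) := by linarith
        linarith
      rcases hu with hu | ⟨y', e1, e2, rfl⟩ | ⟨y', e1, e2, rfl⟩
      · have h1 := os_nrm_sub_ge u (rc R (2 * R * s + y))
        have h2 := os_nb_bx_nrm hu
        rw [hnx] at h1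
        omega
      · have h1 := os_mid_far h' hP.a₁ hy hF₁ e1 e2
        rw [rc_side hR1 hyR, os10_comm]
        linarith
      · have h1 := os_mid_far h' hP.a₃ hy hF₃ e1 e2
        rw [rc_side hR1 hyR, os10_comm]
        linarith)
  have hwd : 0 ≤ w / 2 := by omega
  have e1 : (k - 1) * w = k * w - w := by ring
  have e2 : (k + 1) * w = k * w + w := by ring
  rw [e1] at hk1
  rw [e2] at hk2
  have hkw : |k * w - y| ≤ 6 * w := by
    rw [abs_le]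
    constructor <;> linarith
  refine ⟨_, k, hV, hxV, hk3, hk0, hkw, ?_⟩
  by_contra hn
  have hn' : M - 2 * μ - 19 ≤ |k| := by omega
  have f1 : (M - 2 * μ - 19) * w ≤ |k| * w := mul_le_mul_of_nonneg_right hn' hw0.le
  have f2 : |k| * w = |k * w| := by rw [abs_mul, abs_of_pos hw0]
  have f3 : |k * w| ≤ |k * w - y| + |y| := by
    have := abs_add_le (k * w - y) y
    rwa [sub_add_cancel] at this
  have f4 : (M - 2 * μ - 19) * w = M * w - 2 * (μ * w) - 19 * w := by ring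
  have hμw : 193 * w ≤ μ * w := mul_le_mul_of_nonneg_right (by linarith) hw0.le
  have hw2 : w / 2 ≤ w := by omega
  have heR := h.eR
  linarith

end Lat

end SC

end

/-! ### from `Lib_MP_e0a489.OS4` -/

section

/-!
# MP_e0a489, outer separation 4: landing of an arm in an outer block
-/

set_option autoImplicit false

namespace SC

open Classical

namespace Lat

variable {L : Lat}

/-- LANDING IN AN OUTER BLOCK.  `D` is the domain of the exploration (`bx R`, or `bx R` with two coarse blocks), `S` its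
source, `C = Cx (!c) D S ω`; `V` is a component of `D \ C` which contains the triple of the block and a site `x` next to
`bx r`.  If the fresh configuration has a circuit and a crossing of the corridor then in the mixed configuration there
is an arm of colour `c` to the far side of the block.
Proof.  `fresh_set` with `r := R - w` (`M w - w/2 = R - w + 1`, `R ≤ M w + w/2 + w = R + w`) gives `T` and `u ∈ T ∩ ob ∩ rng (R + w)`; `C` is connected,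
contains `bx r` (`hS`, `Cx_sup`) and a site of norm `≥ R` (`hCR`), so `T` meets `C`.  `T ⊆ D ∪ ob`: `ann (R-w) R ⊆ bx R ⊆ D`,
`ib ⊆ bx R` (`ib_nrm`); `T ⊆ G` by `hG`, `ib_nrm`, `ob_nrm`.  `land_step` with `M := D`, `N := ob w M s k` (`os_con_ob`): the neighbours
of `N` in `D` are in `bx R` (`hDN`), so in the triple (`ob_adj`), so in `V`; `os_ob_touch`; `x ∈ nb (bx r) ⊆ nb C`.  So `x` is
joined to `u` in `(V ∪ ob) ∩ col c (mix ..)`, and `V ⊆ ann r R`. -/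
theorem os_land_arm {c : Bool} {r R w M s k : ℤ} (h : OPar r R w M) (hk : |k| + 2 ≤ M)
    {D S V : Set Pt} {ω η : Cfg} {G : Finset Pt} {x : Pt} (hRD : bx R ⊆ D) (hS : bx r ⊆ S)
    (hSD : S ⊆ D) (hDN : ∀ v ∈ ob w M s k, v ∉ D ∧ ∀ u ∈ D, L.Adj u v → u ∈ bx R)
    (hC : L.Con (L.Cx (!c) D S ω)) (hex : L.Exact (D ∪ ob w M s k) (L.Cx (!c) D S ω))
    (hCR : ∃ v ∈ L.Cx (!c) D S ω, R ≤ nrm v) (hV : L.Comp (D \ L.Cx (!c) D S ω) V)
    (htr : trip w R s k ⊆ V) (hVr : V ⊆ ann r R) (hx : x ∈ V) (hx' : x ∈ L.nb (bx r))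
    (hG : ∀ v, R - w < nrm v → nrm v ≤ R + w → v ∈ G) (h1 : L.Circ c (R - w) R η)
    (h2 : L.Cor c w M s k η) : L.Oarm c r R w M s k (mix G (L.Rev (!c) D S) ω η) := by
  have hw0 := h.w0
  have hkM : |k| < M := by omega
  have hR := h.eR
  have hRw := h.Rw
  have hw5 := h.w5
  have hM := h.M2
  have hod := h.od
  obtain ⟨T, hTc, hTcol, hTsub, -, ⟨u, hu, huo, hur⟩, hTP⟩ :=
    fresh_set (r := R - w) (R := R) hod hw0 hkM (by omega) (by omega) (by omega) (by omega) h1 h2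
  have h0 : (0 : Pt) ∈ bx r := by
    show max |(0 : ℤ)| |(0 : ℤ)| ≤ r
    rw [abs_zero, max_self]
    have := h.r1
    omega
  have h0' : (0 : Pt) ∈ bx (R - w) := by
    show max |(0 : ℤ)| |(0 : ℤ)| ≤ R - w
    rw [abs_zero, max_self]
    omega
  have hTC : (T ∩ L.Cx (!c) D S ω).Nonempty :=
    hTP _ hC ⟨0, Cx_sup (hS h0), Or.inl h0'⟩ hCR
  have hNV : ∀ v ∈ ob w M s k, ∀ u ∈ D, L.Adj u v → u ∈ V := by
    intro v hv u' hu' huv
    apply htr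
    have h3 := (hDN v hv).2 u' hu' huv
    rw [hR] at h3
    have h4 := ob_adj (L := L) hod hw0 (by omega) hkM hv h3 huv.symm
    rwa [← hR] at h4
  have hadj : ∃ v ∈ ob w M s k, ∃ u ∈ V, L.Adj u v := by
    obtain ⟨v, hv, u', hu', huv⟩ := os_ob_touch (L := L) hod hw0 hR (by omega) hkM
    exact ⟨v, hv, u', htr hu', huv⟩
  have hxC : x ∈ L.nb (L.Cx (!c) D S ω) := by
    obtain ⟨v, hv, hvx⟩ := hx'
    exact ⟨v, Cx_sup (hS hv), hvx⟩
  have hTM : T ⊆ D ∪ ob w M s k := by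
    intro v hv
    rcases hTsub hv with h3 | h3 | h3
    · exact Or.inl (hRD h3.2)
    · exact Or.inl (hRD (ib_nrm hod hw0 hR hkM h3).2)
    · exact Or.inr h3
  have hTG : T ⊆ (G : Set Pt) := by
    intro v hv
    rcases hTsub hv with h3 | h3 | h3
    · exact hG v h3.1 (by have := h3.2; omega)
    · have h4 := ib_nrm hod hw0 hR hkM h3
      exact hG v h4.1 (by omega)
    · have h4 := ob_nrm hod hw0 hR hkM h3
      exact hG v (by omega) h4.2
  have key := land_step (G := G) (η := η) hSD hC hex hV (os_con_ob w M s k)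
    (fun v hv => (hDN v hv).1) hNV hadj hx hxC hTc hTM hTG hTcol hu huo hTC
  refine ⟨x, hx', u, ⟨huo, ?_⟩, key.mono ?_⟩
  · rw [hR]
    exact hur
  · rintro v ⟨hv | hv, hvc⟩
    · exact ⟨Or.inl (hVr hv), hvc⟩
    · exact ⟨Or.inr hv, hvc⟩

end Lat

end SC

end

/-! ### from `Lib_MP_e0a489.TTE2` -/

section

/-!
# MP_e0a489, module TT, part E 2: the core at both times
-/

set_option autoImplicit false

namespace SC

namespace TTE

open Classical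

variable {L : Lat}

theorem Fx_dep (m : ℤ) (ξ : Cfg) : Dep (Fx m ξ) (bx m \ {0}) := by
  intro ω ω' h
  refine propext ⟨fun H v hv h0 => ?_, fun H v hv h0 => ?_⟩
  · rw [← h v ⟨hv, h0⟩]
    exact H v hv h0
  · rw [h v ⟨hv, h0⟩]
    exact H v hv h0

private theorem tte2_fin (m : ℤ) : (bx m).Finite := by
  have h : bx m ⊆ Set.Icc (-m) m ×ˢ Set.Icc (-m) m := by
    intro v h1
    have h2 : max |v.1| |v.2| ≤ m := h1
    rw [max_le_iff, abs_le, abs_le] at h2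
    exact ⟨h2.1, h2.2⟩
  exact ((Set.finite_Icc _ _).prod (Set.finite_Icc _ _)).subset h

private theorem tte2_dep (m : ℤ) (ξ : Cfg) :
    Dep (Fx m ξ) (((tte2_fin m).toFinset : Finset Pt) : Set Pt) := by
  rw [Set.Finite.coe_toFinset]
  exact (Fx_dep m ξ).mono Set.sdiff_subset

theorem Fx_loc (m : ℤ) (ξ : Cfg) : Loc (Fx m ξ) := ⟨_, tte2_dep m ξ⟩

/-- A pivotal event is local (`Dep.piv`). -/
theorem Piv_loc {A : Cfg → Prop} (hA : Loc A) (v : Pt) : Loc (Piv v A) := by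
  obtain ⟨F, hF⟩ := hA
  exact ⟨F, (hF.piv v).mono Set.sdiff_subset⟩

/-- `pr (Fx m ξ) ≥ 2 ^ (-card F)` for a finite set `F` that contains `bx m` (`ex_eq_av` and `av_ind_pos` with the configuration that is `ξ` on `F`), and
`pr2_ge_sq`. -/
theorem Fx_pr2 (m : ℤ) : ∃ c : ℝ, 0 < c ∧ ∀ (ξ : Cfg) (k : Pt → ℝ), Kap k → c ≤ pr2 k (Fx m ξ) := by
  refine ⟨((1 / 2 : ℝ) ^ (tte2_fin m).toFinset.card) ^ 2, by positivity, fun ξ k hk => ?_⟩
  have h1 : (1 / 2 : ℝ) ^ (tte2_fin m).toFinset.card ≤ pr (Fx m ξ) :=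
    pr_pos (tte2_dep m ξ) (ω := ξ) (fun v _ _ => rfl)
  exact (pow_le_pow_left₀ (by positivity) h1 2).trans (pr2_ge_sq (Fx_loc m ξ) hk)

private theorem tte2_SQ_loc {r a b p q : ℤ} (c : Bool) : Loc (L.SQ c r a b p q) := by
  have hr : (rect a b p q).Finite := by
    have h : rect a b p q ⊆ Set.Icc a b ×ˢ Set.Icc p q := by
      rintro v ⟨h1, h2⟩
      exact ⟨h1, h2⟩
    exact ((Set.finite_Icc _ _).prod (Set.finite_Icc _ _)).subset h
  have hr2 : ∀ a b p q : ℤ, (rect a b p q).Finite := by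
    intro a b p q
    have h : rect a b p q ⊆ Set.Icc a b ×ˢ Set.Icc p q := by
      rintro v ⟨h1, h2⟩
      exact ⟨h1, h2⟩
    exact ((Set.finite_Icc _ _).prod (Set.finite_Icc _ _)).subset h
  have hf : (rect a b p q \ bx r ∪ Kc c r).Finite := by
    refine Set.Finite.union (hr.subset Set.sdiff_subset) ?_
    unfold Kc K
    exact ((hr2 _ _ _ _).image _).union ((hr2 _ _ _ _).image _)
  exact ⟨hf.toFinset, (Lat.SQ.dep L c r a b p q).mono (by rw [Set.Finite.coe_toFinset])⟩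

/-- Independence (`pr2_and`): `Fx (r / 2) ξ` depends on `bx (r / 2)`, the box events on `rect \ bx r ∪ Kc c r` (`SQ.dep`, `Kc_nrm`); `core_piv` and
`pr2_mono`. -/
theorem piv_zero {r a b p q : ℤ} {ξ : Cfg} (hr : 16 ≤ r) (ha : a ≤ -r)
    (hb : r ≤ b) (hp : p ≤ -r) (hq : r ≤ q) (h0 : L.typ 0 = none) (hc : CoreAt L (r / 2) ξ)
    {k : Pt → ℝ} (hk : Kap k) :
    pr2 k (Fx (r / 2) ξ) *
        pr2 k (fun ω => L.SQ true r a b p q ω ∧ L.SQ false r a b p q ω) ≤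
      pr2 k (Piv 0 (L.HX true a b p q)) := by
  have ls : Loc (L.SQ true r a b p q) := tte2_SQ_loc true
  have ls' : Loc (L.SQ false r a b p q) := tte2_SQ_loc false
  have ds : Dep (fun ω => L.SQ true r a b p q ω ∧ L.SQ false r a b p q ω)
      ((rect a b p q \ bx r ∪ Kc true r) ∪ (rect a b p q \ bx r ∪ Kc false r)) := by
    intro ω ω' H
    show (L.SQ true r a b p q ω ∧ L.SQ false r a b p q ω) =
      (L.SQ true r a b p q ω' ∧ L.SQ false r a b p q ω')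
    rw [Lat.SQ.dep L true r a b p q ω ω' (fun v hv => H v (Or.inl hv)),
      Lat.SQ.dep L false r a b p q ω ω' (fun v hv => H v (Or.inr hv))]
  have hdis : ∀ v ∈ bx (r / 2) \ {0},
      v ∉ (rect a b p q \ bx r ∪ Kc true r) ∪ (rect a b p q \ bx r ∪ Kc false r) := by
    rintro v ⟨hv, -⟩
    have hv' : nrm v ≤ r / 2 := hv
    rintro ((h1 | h1) | (h1 | h1))
    · exact h1.2 (show nrm v ≤ r by omega)
    · have := Kc_nrm (by omega) h1
      omega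
    · exact h1.2 (show nrm v ≤ r by omega)
    · have := Kc_nrm (by omega) h1
      omega
  rw [← pr2_and (Fx_loc _ ξ) (ls.and ls') (Fx_dep _ ξ) ds hdis k]
  exact pr2_mono ((Fx_loc _ ξ).and (ls.and ls')) (Piv_loc (Lat.HX.loc L true a b p q) 0) hk
    fun ω hω => core_piv hr ha hb hp hq h0 hc hω.1 hω.2.1 hω.2.2

/-- TRANSPORT.  `(L.shift x).HX true (-N - x.1) (N - x.1) (-N - x.2) (N - x.2) (via (Equiv.addRight x) ω) ↔ L.HX true (-N) N (-N) N ω` (`shift_hx`), and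
`via (Equiv.addRight x) (Function.update ω x b) = Function.update (via (Equiv.addRight x) ω) 0 b`; so `x` is pivotal for the crossing iff the origin is pivotal for the
crossing in the shifted lattice, and `pr2_via` (the correlation is constant). -/
theorem piv_shift (L : Lat) (x : Pt) (N : ℤ) (s : ℝ) :
    pr2 (kt s) (Piv x (L.HX true (-N) N (-N) N)) =
      pr2 (kt s) (Piv 0 ((L.shift x).HX true (-N - x.1) (N - x.1) (-N - x.2) (N - x.2))) := by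
  have h1 := pr2_via (Piv_loc (Lat.HX.loc (L.shift x) true (-N - x.1) (N - x.1) (-N - x.2)
    (N - x.2)) 0) (Equiv.addRight x) (kt s)
  have h2 : (fun v => kt s ((Equiv.addRight x) v)) = kt s := rfl
  rw [h2] at h1
  rw [← h1]
  congr 1
  funext ω
  have h3 : ∀ b : Bool, Function.update (via (Equiv.addRight x) ω) 0 b =
      via (Equiv.addRight x) (Function.update ω x b) := by
    intro b
    funext v
    show Function.update (via (Equiv.addRight x) ω) 0 b v = Function.update ω x b (v + x)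
    by_cases hv : v = 0
    · subst hv
      rw [Function.update_self, zero_add, Function.update_self]
    · rw [Function.update_of_ne hv, Function.update_of_ne]
      · rfl
      · intro h
        exact hv (by simpa using h)
  have h4 : ∀ b : Bool, (L.shift x).HX true (-N - x.1) (N - x.1) (-N - x.2) (N - x.2)
      (Function.update (via (Equiv.addRight x) ω) 0 b) ↔
      L.HX true (-N) N (-N) N (Function.update ω x b) := by
    intro b
    rw [h3, shift_hx, sub_add_cancel, sub_add_cancel, sub_add_cancel, sub_add_cancel]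
  unfold Piv
  rw [h4, h4]

end TTE

end SC

end

/-! ### from `Lib_MP_e0a489.TTE4` -/

section

/-!
# MP_e0a489, module TT, part E 4: energy of the crossing event
-/

set_option autoImplicit false

namespace SC

namespace TTE

open Classical

/-- For an increasing event the derivative of the indicator is half of the indicator of the pivotal event (not only up to the sign). -/
theorem dv_inc {A : Cfg → Prop} (hA : Inc A) (v : Pt) (ω : Cfg) :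
    dv v (ind A) ω = (1 / 2) * ind (Piv v A) ω := by
  have h := hA (Function.update ω v false) (Function.update ω v true) (fun u => by
    by_cases hu : u = v
    · subst hu
      rw [Function.update_self, Function.update_self]
      decide
    · rw [Function.update_of_ne hu, Function.update_of_ne hu])
  unfold dv ind Piv
  by_cases h1 : A (Function.update ω v true) <;> by_cases h2 : A (Function.update ω v false)
  · simp [h1, h2]
  · simp only [h1, h2, if_true, if_false]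
    norm_num
  · exact absurd (h h2) h1
  · simp [h1, h2]

private theorem tte4_loc {A : Cfg → Prop} (lA : Loc A) (v : Pt) : Loc (Piv v A) := by
  obtain ⟨F, hF⟩ := lA
  exact ⟨F, fun ω ω' H => (hF.piv v) ω ω' fun u hu => H u hu.1⟩

/-- `dv_inc` and bilinearity (`ex2_smul_left`, `ex2_comm`) -/
theorem ex2_dv_inc {A : Cfg → Prop} (hA : Inc A) (lA : Loc A) (v : Pt) {k : Pt → ℝ} :
    ex2 k (dv v (ind A)) (dv v (ind A)) = (1 / 4) * pr2 k (Piv v A) := by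
  have e : dv v (ind A) = fun ω => (1 / 2 : ℝ) * ind (Piv v A) ω := funext fun ω => dv_inc hA v ω
  have l1 : Lf (ind (Piv v A)) := (tte4_loc lA v).lf
  have l2 : Lf (fun ω => (1 / 2 : ℝ) * ind (Piv v A) ω) := l1.smul (1 / 2)
  rw [e, ex2_smul_left l1 l2, ex2_comm l1 l2, ex2_smul_left l1 l1]
  unfold pr2
  ring

private theorem tte4_nonneg {τ : ℕ → ℝ} (h0 : 0 ≤ τ 0) (h2 : ∀ i, 2 * τ i ≤ τ (i + 1)) (i : ℕ) :
    0 ≤ τ i := by
  induction i with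
  | zero => exact h0
  | succ i ih =>
    have := h2 i
    linarith

private theorem tte4_kap (W : Finset Pt) {t : ℝ} (ht : 0 ≤ t) (v : Pt) :
    0 ≤ kon W (Real.exp (-t)) (fun _ => 1) v ∧ kon W (Real.exp (-t)) (fun _ => 1) v ≤ 1 := by
  unfold kon
  split_ifs
  · exact ⟨(Real.exp_pos _).le, Real.exp_le_one_iff.2 (by linarith)⟩
  · exact ⟨zero_le_one, le_refl _⟩

/-- ENERGY for a sequence of times with `2 τ i ≤ τ (i + 1)`.  Let `F` be a finite support of `A`, `W = V ∪ F`, `g = ind A`, `e t = ex2 (kon W (exp (-t)) 1) g g`.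
`lag_low` with `s = τ i`: `e (2 τ i) + τ i ∑_{v ∈ W} exp (-(2 τ i)) ex2 (kon W (exp (-(2 τ i))) 1) (dv v g) (dv v g) ≤ e (τ i)`; the terms of `W \ V` are nonnegative;
`ex2_dv_inc`; on the support of `Piv v A` (contained in `F`, `Dep.piv`) the correlation `kon W (exp (-t)) 1` is `kt t` (`pr2_congr`).  `e (τ (i + 1)) ≤ e (2 τ i)`
(`ex2_mono_kappa`).  Sum over `i < n`: `∑ .. ≤ 4 (e (τ 0) - e (τ n)) ≤ 4 ex (g ^ 2) ≤ 4` (`ex2_le_sq`, `ex2_self_nonneg`). -/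
theorem energy_inc {A : Cfg → Prop} (hA : Inc A) (lA : Loc A) (V : Finset Pt) {τ : ℕ → ℝ}
    (h0 : 0 ≤ τ 0) (h2 : ∀ i, 2 * τ i ≤ τ (i + 1)) (n : ℕ) :
    ∑ i ∈ Finset.range n, τ i * Real.exp (-(2 * τ i)) *
      ∑ v ∈ V, pr2 (kt (2 * τ i)) (Piv v A) ≤ 4 := by
  have lA' := lA
  obtain ⟨F, hF⟩ := lA'
  have hτ := tte4_nonneg h0 h2
  have hstep : ∀ i, τ i * Real.exp (-(2 * τ i)) * ∑ v ∈ V, pr2 (kt (2 * τ i)) (Piv v A) +
      4 * ex2 (kon (V ∪ F) (Real.exp (-(τ (i + 1)))) fun _ => 1) (ind A) (ind A) ≤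
      4 * ex2 (kon (V ∪ F) (Real.exp (-(τ i))) fun _ => 1) (ind A) (ind A) := by
    intro i
    have h3 := lag_low lA.lf (V ∪ F) (κ := fun _ => 1) (fun _ => zero_le_one) (hτ i)
    have h4 : ex2 (kon (V ∪ F) (Real.exp (-(τ (i + 1)))) fun _ => 1) (ind A) (ind A) ≤
        ex2 (kon (V ∪ F) (Real.exp (-(2 * τ i))) fun _ => 1) (ind A) (ind A) := by
      refine ex2_mono_kappa lA.lf (fun v => (tte4_kap _ (hτ (i + 1)) v).1) (fun v => ?_)
      unfold kon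
      split_ifs
      · exact Real.exp_le_exp.2 (by have := h2 i; linarith)
      · exact le_refl _
    have h5 : ∀ v, pr2 (kt (2 * τ i)) (Piv v A) =
        4 * ex2 (kon (V ∪ F) (Real.exp (-(2 * τ i))) fun _ => 1) (dv v (ind A)) (dv v (ind A)) := by
      intro v
      rw [ex2_dv_inc hA lA v, pr2_congr (tte4_loc lA v) (hF.piv v)
        (k := kt (2 * τ i)) (k' := kon (V ∪ F) (Real.exp (-(2 * τ i))) fun _ => 1)]
      · ring
      · intro u hu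
        unfold kon kt
        rw [if_pos (Finset.mem_union_right _ (Finset.mem_coe.1 hu.1))]
    have h6 : ∑ v ∈ V, pr2 (kt (2 * τ i)) (Piv v A) ≤
        4 * ∑ v ∈ V ∪ F, ex2 (kon (V ∪ F) (Real.exp (-(2 * τ i))) fun _ => 1)
          (dv v (ind A)) (dv v (ind A)) := by
      rw [Finset.mul_sum, Finset.sum_congr rfl fun v _ => h5 v]
      refine Finset.sum_le_sum_of_subset_of_nonneg Finset.subset_union_left fun v _ _ => ?_
      rw [ex2_dv_inc hA lA v]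
      have := pr2_nonneg (Piv v A) (k := kon (V ∪ F) (Real.exp (-(2 * τ i))) fun _ => 1)
        (fun v => tte4_kap _ (by have := hτ i; linarith) v)
      linarith
    rw [← Finset.mul_sum] at h3
    have h7 : 0 ≤ τ i * Real.exp (-(2 * τ i)) := mul_nonneg (hτ i) (Real.exp_pos _).le
    have h8 := mul_le_mul_of_nonneg_left h6 h7
    nlinarith [h3, h4, h8]
  have key : ∀ n : ℕ, ∑ i ∈ Finset.range n, τ i * Real.exp (-(2 * τ i)) *
      ∑ v ∈ V, pr2 (kt (2 * τ i)) (Piv v A) +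
      4 * ex2 (kon (V ∪ F) (Real.exp (-(τ n))) fun _ => 1) (ind A) (ind A) ≤
      4 * ex2 (kon (V ∪ F) (Real.exp (-(τ 0))) fun _ => 1) (ind A) (ind A) := by
    intro n
    induction n with
    | zero => simp
    | succ n ih =>
      rw [Finset.sum_range_succ]
      have := hstep n
      linarith
  have h3 := key n
  have h4 : 0 ≤ ex2 (kon (V ∪ F) (Real.exp (-(τ n))) fun _ => 1) (ind A) (ind A) :=
    ex2_self_nonneg lA.lf _ fun v => (tte4_kap _ (hτ n) v).1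
  have h5 : ex2 (kon (V ∪ F) (Real.exp (-(τ 0))) fun _ => 1) (ind A) (ind A) ≤ 1 :=
    pr2_le_one lA fun v => tte4_kap _ (hτ 0) v
  linarith

/-- `energy_inc` for the crossing (`Lat.HX.mon`, `Lat.HX.loc`) -/
theorem energy_hx (L : Lat) (N : ℤ) (V : Finset Pt) {τ : ℕ → ℝ}
    (h0 : 0 ≤ τ 0) (h2 : ∀ i, 2 * τ i ≤ τ (i + 1)) (n : ℕ) :
    ∑ i ∈ Finset.range n, τ i * Real.exp (-(2 * τ i)) *
      ∑ v ∈ V, pr2 (kt (2 * τ i)) (Piv v (L.HX true (-N) N (-N) N)) ≤ 4 := by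
  exact energy_inc (by simpa [MonC] using Lat.HX.mon L true (-N) N (-N) N)
    (Lat.HX.loc L true (-N) N (-N) N) V h0 h2 n

end TTE

end SC

end

/-! ### from `Lib_MP_e0a489.TTA4` -/

section

/-!
# MP_e0a489, module TTA 4: the sum over the sites of a shell
-/

set_option autoImplicit false

namespace SC

open Classical

/-- `∑_{k=1}^{n} k ^ (ε-1) ≤ n ^ ε / ε`: induction, `ε k ^ (ε-1) ≤ k ^ ε - (k-1) ^ ε` for `k ≥ 1` (Bernoulli:
`((k-1)/k) ^ ε = (1 - 1/k) ^ ε ≤ 1 - ε / k`, `Real.rpow_one_add_le_one_add_mul_self` or concavity). -/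
theorem sum_rpow_le {ε : ℝ} (hε : 0 < ε ∧ ε ≤ 1) (n : ℕ) :
    ∑ k ∈ Finset.range n, ((k : ℝ) + 1) ^ (ε - 1) ≤ (n : ℝ) ^ ε / ε := by
  obtain ⟨h0, h1⟩ := hε
  induction n with
  | zero => simp [Real.zero_rpow h0.ne']
  | succ n ih =>
    rw [Finset.sum_range_succ]
    have hn : (0 : ℝ) < (n : ℝ) + 1 := by positivity
    have hn1 : (n : ℝ) = ((n : ℝ) + 1) * (1 + -(1 / ((n : ℝ) + 1))) := by
      field_simp
      ring
    have hs : (-1 : ℝ) ≤ -(1 / ((n : ℝ) + 1)) := by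
      rw [neg_le_neg_iff, div_le_one hn]
      have : (0 : ℝ) ≤ n := Nat.cast_nonneg n
      linarith
    have hb := rpow_one_add_le_one_add_mul_self hs h0.le h1
    have e1 : (n : ℝ) ^ ε ≤ ((n : ℝ) + 1) ^ ε - ε * ((n : ℝ) + 1) ^ (ε - 1) := by
      have hs0 : (0 : ℝ) ≤ 1 + -(1 / ((n : ℝ) + 1)) := by linarith
      calc (n : ℝ) ^ ε = (((n : ℝ) + 1) * (1 + -(1 / ((n : ℝ) + 1)))) ^ ε := by rw [← hn1]
        _ = ((n : ℝ) + 1) ^ ε * (1 + -(1 / ((n : ℝ) + 1))) ^ ε := Real.mul_rpow hn.le hs0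
        _ ≤ ((n : ℝ) + 1) ^ ε * (1 + ε * -(1 / ((n : ℝ) + 1))) :=
            mul_le_mul_of_nonneg_left hb (Real.rpow_nonneg hn.le _)
        _ = ((n : ℝ) + 1) ^ ε - ε * ((n : ℝ) + 1) ^ (ε - 1) := by
            rw [Real.rpow_sub_one hn.ne']
            ring
    have e2 : ((n : ℝ) + 1) ^ (ε - 1) ≤ (((n : ℝ) + 1) ^ ε - (n : ℝ) ^ ε) / ε := by
      rw [le_div_iff₀ h0]
      linarith
    have e3 : (((n + 1 : ℕ) : ℝ)) ^ ε / ε = (n : ℝ) ^ ε / ε + (((n : ℝ) + 1) ^ ε - (n : ℝ) ^ ε) / ε := by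
      push_cast
      ring
    rw [e3]
    exact add_le_add ih e2

/-- At most `25 ρ ^ 2` sites in the shell: it is contained in a square of side `4 ρ + 1 ≤ 5 ρ`. -/
theorem card_ttSh (Q : Set Pt) {ρ : ℤ} (hρ : 1 ≤ ρ) : ((ttSh Q ρ).card : ℝ) ≤ 25 * (ρ : ℝ) ^ 2 := by
  have h1 : (ttSh Q ρ).card ≤ (rectF (-(2 * ρ)) (2 * ρ) (-(2 * ρ)) (2 * ρ)).card :=
    Finset.card_filter_le _ _
  have h2 : (rectF (-(2 * ρ)) (2 * ρ) (-(2 * ρ)) (2 * ρ)).card =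
      (4 * ρ + 1).toNat * (4 * ρ + 1).toNat := by
    rw [rectF, Finset.card_product, Int.card_Icc]
    congr 2 <;> ring
  have h3 : (((4 * ρ + 1).toNat : ℕ) : ℝ) = 4 * (ρ : ℝ) + 1 := by
    have : (((4 * ρ + 1).toNat : ℕ) : ℤ) = 4 * ρ + 1 := Int.toNat_of_nonneg (by omega)
    exact_mod_cast this
  have h4 : ((ttSh Q ρ).card : ℝ) ≤ (4 * (ρ : ℝ) + 1) * (4 * (ρ : ℝ) + 1) := by
    have h5 : ((ttSh Q ρ).card : ℝ) ≤ (((4 * ρ + 1).toNat * (4 * ρ + 1).toNat : ℕ) : ℝ) := by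
      exact_mod_cast (h2 ▸ h1)
    rw [Nat.cast_mul, h3] at h5
    exact h5
  have hρ' : (1 : ℝ) ≤ ρ := by exact_mod_cast hρ
  nlinarith

/-- Every `v` of the shell has `0 ≤ ht v ≤ 2 ρ`, so the sum is `∑_{h=0}^{2 ρ}` (number of sites of height `h`)
`min (h+1, D) ^ (ε-1)` `≤ 10 ρ (∑_{h < D} (h+1) ^ (ε-1) + ∑_{D ≤ h ≤ 2 ρ} D ^ (ε-1))` `≤ 10 ρ (D ^ ε / ε + (2 ρ + 1) D ^ (ε-1))`
(`sum_rpow_le`) `≤ 10 ρ (ρ D ^ (ε-1) / ε + 3 ρ D ^ (ε-1))` (as `D ≤ ρ`) `≤ (40 / ε) ρ ^ 2 D ^ (ε-1)`.  (For the decomposition by heights: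
`Finset.sum_fiberwise_of_maps_to` with `Finset.Icc 0 (2 ρ)`.) -/
theorem ht_sum {Q : Set Pt} {ht : Pt → ℤ} (h : HtOK Q ht) {ε : ℝ} (hε : 0 < ε ∧ ε ≤ 1) {ρ D : ℤ}
    (hD : 1 ≤ D) (hDρ : D ≤ ρ) :
    ∑ v ∈ ttSh Q ρ, ((min (ht v + 1) D : ℤ) : ℝ) ^ (ε - 1) ≤
      40 / ε * ((ρ : ℝ) ^ 2 * (D : ℝ) ^ (ε - 1)) := by
  obtain ⟨h0, h1⟩ := hε
  have hD0 : (0 : ℝ) < D := by exact_mod_cast (show (0 : ℤ) < D by omega)
  have hρ1 : (1 : ℤ) ≤ ρ := le_trans hD hDρ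
  have hρ1' : (1 : ℝ) ≤ ρ := by exact_mod_cast hρ1
  have hDρ' : (D : ℝ) ≤ ρ := by exact_mod_cast hDρ
  set φ : ℤ → ℝ := fun h => ((min (h + 1) D : ℤ) : ℝ) ^ (ε - 1) with hφ
  have hmaps : ∀ v ∈ ttSh Q ρ, ht v ∈ Finset.Icc (0 : ℤ) (2 * ρ) := by
    intro v hv
    have hv' := (Finset.mem_filter.1 hv).2
    rw [Finset.mem_Icc]
    exact ⟨h.nonneg v hv'.1, le_trans (h.le v hv'.1) hv'.2.2⟩
  have s1 : ∑ v ∈ ttSh Q ρ, φ (ht v) =
      ∑ k ∈ Finset.Icc (0 : ℤ) (2 * ρ), ∑ v ∈ (ttSh Q ρ).filter (fun v => ht v = k), φ (ht v) :=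
    (Finset.sum_fiberwise_of_maps_to hmaps _).symm
  have hφ0 : ∀ k ∈ Finset.Icc (0 : ℤ) (2 * ρ), 0 ≤ φ k := by
    intro k hk
    have hk0 := (Finset.mem_Icc.1 hk).1
    apply Real.rpow_nonneg
    have : (0 : ℤ) ≤ min (k + 1) D := le_min (by omega) (by omega)
    exact_mod_cast this
  have s2 : ∑ v ∈ ttSh Q ρ, φ (ht v) ≤ 10 * (ρ : ℝ) * ∑ k ∈ Finset.Icc (0 : ℤ) (2 * ρ), φ k := by
    rw [s1, Finset.mul_sum]
    apply Finset.sum_le_sum
    intro k hk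
    have e : ∑ v ∈ (ttSh Q ρ).filter (fun v => ht v = k), φ (ht v) =
        (((ttSh Q ρ).filter (fun v => ht v = k)).card : ℝ) * φ k := by
      rw [Finset.sum_congr rfl (g := fun _ => φ k)
        (fun v hv => by rw [(Finset.mem_filter.1 hv).2]), Finset.sum_const, nsmul_eq_mul]
    rw [e]
    exact mul_le_mul_of_nonneg_right (h.card ρ k hρ1) (hφ0 k hk)
  have s3 : ∑ k ∈ Finset.Icc (0 : ℤ) (2 * ρ), φ k ≤
      ∑ k ∈ (Finset.Icc (0 : ℤ) (2 * ρ)).filter (fun k => k < D), ((k : ℝ) + 1) ^ (ε - 1) +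
        (2 * (ρ : ℝ) + 1) * (D : ℝ) ^ (ε - 1) := by
    have e1 : ∑ k ∈ Finset.Icc (0 : ℤ) (2 * ρ), φ k ≤ ∑ k ∈ Finset.Icc (0 : ℤ) (2 * ρ),
        ((if k < D then ((k : ℝ) + 1) ^ (ε - 1) else 0) + (D : ℝ) ^ (ε - 1)) := by
      apply Finset.sum_le_sum
      intro k hk
      have hD1 : (0 : ℝ) ≤ (D : ℝ) ^ (ε - 1) := Real.rpow_nonneg hD0.le _
      by_cases hkD : k < D
      · rw [if_pos hkD]
        have : min (k + 1) D = k + 1 := min_eq_left (by omega)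
        simp only [hφ, this]
        push_cast
        linarith
      · rw [if_neg hkD]
        have : min (k + 1) D = D := min_eq_right (by omega)
        simp only [hφ, this]
        linarith
    rw [Finset.sum_add_distrib, ← Finset.sum_filter, Finset.sum_const, nsmul_eq_mul,
      Int.card_Icc] at e1
    have e2 : (((2 * ρ + 1 - 0).toNat : ℕ) : ℝ) = 2 * (ρ : ℝ) + 1 := by
      have : (((2 * ρ + 1 - 0).toNat : ℕ) : ℤ) = 2 * ρ + 1 := by
        rw [Int.toNat_of_nonneg (by omega)]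
        ring
      exact_mod_cast this
    rw [e2] at e1
    exact e1
  have s4 : ∑ k ∈ (Finset.Icc (0 : ℤ) (2 * ρ)).filter (fun k => k < D), ((k : ℝ) + 1) ^ (ε - 1) ≤
      (D : ℝ) ^ ε / ε := by
    have hDn : ((D.toNat : ℕ) : ℝ) = (D : ℝ) := by
      have : ((D.toNat : ℕ) : ℤ) = D := Int.toNat_of_nonneg (by omega)
      exact_mod_cast this
    have hsub : (Finset.Icc (0 : ℤ) (2 * ρ)).filter (fun k => k < D) ⊆
        (Finset.range D.toNat).image (fun n : ℕ => (n : ℤ)) := by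
      intro k hk
      obtain ⟨hk1, hk2⟩ := Finset.mem_filter.1 hk
      have hk0 := (Finset.mem_Icc.1 hk1).1
      rw [Finset.mem_image]
      refine ⟨k.toNat, ?_, Int.toNat_of_nonneg hk0⟩
      rw [Finset.mem_range]
      omega
    have e1 := Finset.sum_le_sum_of_subset_of_nonneg (f := fun k : ℤ => ((k : ℝ) + 1) ^ (ε - 1)) hsub
      (by
        intro k hk _
        obtain ⟨n, _, hn⟩ := Finset.mem_image.1 hk
        apply Real.rpow_nonneg
        rw [← hn]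
        positivity)
    rw [Finset.sum_image (by
      intro a _ b _ hab
      simpa using hab)] at e1
    have e2 := sum_rpow_le ⟨h0, h1⟩ D.toNat
    rw [hDn] at e2
    refine le_trans e1 ?_
    simpa using e2
  have s5 : (D : ℝ) ^ ε / ε ≤ (ρ : ℝ) * (D : ℝ) ^ (ε - 1) / ε := by
    apply div_le_div_of_nonneg_right _ h0.le
    have : (D : ℝ) ^ ε = D * (D : ℝ) ^ (ε - 1) := by
      rw [Real.rpow_sub_one hD0.ne']
      field_simp
    rw [this]
    exact mul_le_mul_of_nonneg_right hDρ' (Real.rpow_nonneg hD0.le _)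
  have hX : (0 : ℝ) ≤ (D : ℝ) ^ (ε - 1) := Real.rpow_nonneg hD0.le _
  have s6 : (2 * (ρ : ℝ) + 1) * (D : ℝ) ^ (ε - 1) ≤ 3 * ((ρ : ℝ) * (D : ℝ) ^ (ε - 1) / ε) := by
    have a1 : (2 * (ρ : ℝ) + 1) * (D : ℝ) ^ (ε - 1) ≤ 3 * ((ρ : ℝ) * (D : ℝ) ^ (ε - 1)) := by
      nlinarith
    have a2 : (ρ : ℝ) * (D : ℝ) ^ (ε - 1) ≤ (ρ : ℝ) * (D : ℝ) ^ (ε - 1) / ε := by
      rw [le_div_iff₀ h0]
      have : (0 : ℝ) ≤ (ρ : ℝ) * (D : ℝ) ^ (ε - 1) := by positivity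
      nlinarith
    linarith
  have s7 : ∑ k ∈ Finset.Icc (0 : ℤ) (2 * ρ), φ k ≤ 4 * ((ρ : ℝ) * (D : ℝ) ^ (ε - 1) / ε) := by
    linarith
  calc ∑ v ∈ ttSh Q ρ, φ (ht v) ≤ 10 * (ρ : ℝ) * ∑ k ∈ Finset.Icc (0 : ℤ) (2 * ρ), φ k := s2
    _ ≤ 10 * (ρ : ℝ) * (4 * ((ρ : ℝ) * (D : ℝ) ^ (ε - 1) / ε)) :=
        mul_le_mul_of_nonneg_left s7 (by positivity)
    _ = 40 / ε * ((ρ : ℝ) ^ 2 * (D : ℝ) ^ (ε - 1)) := by ring

/-- CASE `D ≥ 16 ℓ`.  Sum of `LocB` over the shell (`8 D ≤ ρ < nrm v`) and `ht_sum`; `D ^ (-1-ε) D ^ (ε-1) = D ^ (-2)`. -/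
theorem shell_a {L : Lat} {R₀ : ℤ} {Q : Set Pt} {W : Bool → Pt → ℤ → Cfg → Prop} {ht : Pt → ℤ}
    {C₁ C₃ ε : ℝ} (hL : LocB L R₀ Q W ht C₁ C₃ ε) (h : HtOK Q ht) (hε : 0 < ε ∧ ε ≤ 1)
    (hC : 0 ≤ C₁) {ℓ D ρ : ℤ} {s : ℝ} (hR : 1 ≤ R₀) (hℓ : R₀ ≤ ℓ) (hB : Beyond L R₀ ℓ s)
    (hs : s * Real.exp (-(s / 2)) * ((ℓ : ℝ) ^ 2 * al L R₀ ℓ) ≤ C₃) (hD : 16 * ℓ ≤ D)
    (hρ : 8 * D ≤ ρ) (b : Bool) :
    s * Real.exp (-s) * ∑ v ∈ ttSh Q ρ, pr2 (kt s) (W b v D) ≤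
      C₁ * (40 / ε) * (Real.exp (-(s / 2)) * (((ℓ : ℝ) / D) ^ ε * ((ρ : ℝ) / D) ^ 2)) := by
  have hD0 : (0 : ℤ) < D := by omega
  have hD0' : (0 : ℝ) < D := by exact_mod_cast hD0
  rw [Finset.mul_sum]
  have s1 : ∑ v ∈ ttSh Q ρ, s * Real.exp (-s) * pr2 (kt s) (W b v D) ≤
      ∑ v ∈ ttSh Q ρ, C₁ * (Real.exp (-(s / 2)) * (((ℓ : ℝ) / D) ^ ε *
        ((D : ℝ) ^ (-1 - ε) * ((min (ht v + 1) D : ℤ) : ℝ) ^ (ε - 1)))) := by
    apply Finset.sum_le_sum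
    intro v hv
    have hv' := (Finset.mem_filter.1 hv).2
    exact hL ℓ s hℓ hB hs b v D hv'.1 hD (by omega)
  have s2 : ∑ v ∈ ttSh Q ρ, C₁ * (Real.exp (-(s / 2)) * (((ℓ : ℝ) / D) ^ ε *
        ((D : ℝ) ^ (-1 - ε) * ((min (ht v + 1) D : ℤ) : ℝ) ^ (ε - 1)))) =
      (C₁ * (Real.exp (-(s / 2)) * (((ℓ : ℝ) / D) ^ ε * (D : ℝ) ^ (-1 - ε)))) *
        ∑ v ∈ ttSh Q ρ, ((min (ht v + 1) D : ℤ) : ℝ) ^ (ε - 1) := by
    rw [Finset.mul_sum]
    apply Finset.sum_congr rfl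
    intro v _
    ring
  have hl0 : (0 : ℝ) ≤ (ℓ : ℝ) / D := by
    have : (0 : ℝ) ≤ ℓ := by exact_mod_cast (show (0 : ℤ) ≤ ℓ by omega)
    positivity
  have hc : 0 ≤ C₁ * (Real.exp (-(s / 2)) * (((ℓ : ℝ) / D) ^ ε * (D : ℝ) ^ (-1 - ε))) := by
    have := Real.rpow_nonneg hl0 ε
    have := Real.rpow_nonneg hD0'.le (-1 - ε)
    positivity
  have s3 := ht_sum h hε (show (1 : ℤ) ≤ D by omega) (show D ≤ ρ by omega)
  have e1 : (D : ℝ) ^ (-1 - ε) * (D : ℝ) ^ (ε - 1) = ((D : ℝ) ^ 2)⁻¹ := by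
    rw [← Real.rpow_add hD0', show (-1 - ε + (ε - 1) : ℝ) = -((2 : ℕ) : ℝ) by push_cast; ring,
      Real.rpow_neg hD0'.le, Real.rpow_natCast]
  calc ∑ v ∈ ttSh Q ρ, s * Real.exp (-s) * pr2 (kt s) (W b v D)
      ≤ (C₁ * (Real.exp (-(s / 2)) * (((ℓ : ℝ) / D) ^ ε * (D : ℝ) ^ (-1 - ε)))) *
        ∑ v ∈ ttSh Q ρ, ((min (ht v + 1) D : ℤ) : ℝ) ^ (ε - 1) := by rw [← s2]; exact s1
    _ ≤ (C₁ * (Real.exp (-(s / 2)) * (((ℓ : ℝ) / D) ^ ε * (D : ℝ) ^ (-1 - ε)))) *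
        (40 / ε * ((ρ : ℝ) ^ 2 * (D : ℝ) ^ (ε - 1))) := mul_le_mul_of_nonneg_left s3 hc
    _ = C₁ * (40 / ε) * (Real.exp (-(s / 2)) * (((ℓ : ℝ) / D) ^ ε *
        ((ρ : ℝ) ^ 2 * ((D : ℝ) ^ (-1 - ε) * (D : ℝ) ^ (ε - 1))))) := by ring
    _ = C₁ * (40 / ε) * (Real.exp (-(s / 2)) * (((ℓ : ℝ) / D) ^ ε * ((ρ : ℝ) / D) ^ 2)) := by
        rw [e1, div_pow]
        ring

end SC

end

/-! ### from `Lib_MP_e0a489.TTA6` -/

section

/-!
# MP_e0a489, module TTA 6: local events, sum over one shell and all times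
-/

set_option autoImplicit false

namespace SC

open Classical

private theorem tta6_al_le (L : Lat) (r R : ℤ) : al L r R ≤ 1 := by
  unfold al
  split_ifs
  · exact pr_le_one _
  · exact le_rfl

private theorem tta6_al_nonneg (L : Lat) (r R : ℤ) : 0 ≤ al L r R := by
  unfold al
  split_ifs
  · exact pr_nonneg _
  · exact zero_le_one

private theorem tta6_kt {t : ℝ} (ht : 0 ≤ t) (v : Pt) : 0 ≤ kt t v ∧ kt t v ≤ 1 := by
  refine ⟨(Real.exp_pos _).le, ?_⟩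
  show Real.exp (-t) ≤ 1
  rw [← Real.exp_zero]
  exact Real.exp_le_exp.2 (by linarith)

private theorem tta6_pr2_le {A : Cfg → Prop} (hA : Loc A) {κ : Pt → ℝ}
    (hκ : ∀ v, 0 ≤ κ v ∧ κ v ≤ 1) : pr2 κ A ≤ 1 := by
  have h := ex2_le_sq hA.lf κ hκ
  have e : (fun ω => ind A ω ^ 2) = ind A := by
    funext ω
    unfold ind
    split_ifs <;> norm_num
  rw [e] at h
  exact le_trans h (pr_le_one A)

private theorem tta6_R {q : ℝ} (hq : 0 < q ∧ q < 1) {ρ : ℤ} (hρ : 1 ≤ ρ) (j : ℕ) :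
    8 * ttR q ρ j ≤ ρ := by
  have h1 : ((ttR q ρ j : ℤ) : ℝ) ≤ (1 - q) / 8 * q ^ j * ρ := by
    unfold ttR
    exact Int.floor_le _
  have h2 : q ^ j ≤ 1 := pow_le_one₀ hq.1.le hq.2.le
  have h3 : 0 ≤ q ^ j := pow_nonneg hq.1.le j
  have hρ' : (0 : ℝ) ≤ (ρ : ℝ) := by
    have : (1 : ℝ) ≤ (ρ : ℝ) := by exact_mod_cast hρ
    linarith
  have h4 : (1 - q) * q ^ j ≤ 1 := by
    have h5 : (1 - q) * q ^ j ≤ 1 * 1 :=
      mul_le_mul (by linarith [hq.1]) h2 h3 zero_le_one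
    linarith
  have h6 : (1 - q) * q ^ j * (ρ : ℝ) ≤ 1 * (ρ : ℝ) := mul_le_mul_of_nonneg_right h4 hρ'
  have h7 : (8 : ℝ) * ((ttR q ρ j : ℤ) : ℝ) ≤ (ρ : ℝ) := by nlinarith
  exact_mod_cast h7

/-- For `s = 2 ^ j t ≥ t` take `ℓ'` from `ScaleOK`; `D = ttR (ttq ε) ρ j`, `8 D ≤ ρ` (as `D ≤ (1-q)/8 ρ`; prove it from the
definition of `ttR` or use `ttR_le`).
If `16 ℓ' ≤ D`: `shell_a` and `time_a`.  Otherwise every `pr2` is at most `1` (`ex2_le_sq`-type bound: `pr2 κ A ≤ pr A ≤ 1`), there are at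
most `25 ρ ^ 2` sites (`card_ttSh`), and `time_b`; `1 ≤ t ℓ ^ 2` because `Beyond` and `al ≤ 1`.
`C` = maximum of the two constants.  `al L R₀ ℓ ≤ 1` is a probability (`pr_le_one`). -/
theorem shell_time {L : Lat} {R₀ : ℤ} {C₁ C₃ ε : ℝ} (hε : 0 < ε ∧ ε ≤ 1 / 8) (hR : 1 ≤ R₀)
    (hC₁ : 0 < C₁) (hC₃ : 0 < C₃) (hS : ScaleOK L C₃ R₀) : ∃ (C : ℝ) (Λ : ℤ), 0 < C ∧ 1 ≤ Λ ∧
    ∀ (Q : Set Pt) (E : ℤ → ℤ → Cfg → Prop) (W : Bool → Pt → ℤ → Cfg → Prop) (ht : Pt → ℤ),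
      CrE Q E W → HtOK Q ht → LocB L R₀ Q W ht C₁ C₃ ε →
      ∀ (ℓ : ℤ) (t : ℝ), R₀ ≤ ℓ → Beyond L R₀ ℓ t → ∀ (j : ℕ) (b : Bool) (ρ : ℤ), Λ * ℓ ≤ ρ →
        2 ^ j * t * Real.exp (-(2 ^ j * t)) *
          ∑ v ∈ ttSh Q ρ, pr2 (kt (2 ^ j * t)) (W b v (ttR (ttq ε) ρ j)) ≤
            C * (ttq ε ^ j * ((ℓ : ℝ) / ρ) ^ ε) := by
  have hε1 : 0 < ε ∧ ε ≤ 1 := ⟨hε.1, by linarith [hε.2]⟩
  obtain ⟨Ca, hCa, ha⟩ := time_a (ε := ε) (C₃ := C₃) hε1 hC₃
  obtain ⟨Cb, Λ, hCb, hΛ, hb⟩ := time_b (ε := ε) (R₀ := R₀) hε hR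
  have hq := ttq_mem hε.1
  have hK : 0 < C₁ * (40 / ε) := mul_pos hC₁ (div_pos (by norm_num) hε.1)
  refine ⟨C₁ * (40 / ε) * Ca + Cb, Λ, add_pos (mul_pos hK hCa) hCb, hΛ, ?_⟩
  intro Q E W ht hE hH hL ℓ t hℓ hB j b ρ hρ
  have hℓ1 : 1 ≤ ℓ := le_trans hR hℓ
  have hρ1 : 1 ≤ ρ := by nlinarith
  have hal1 := tta6_al_le L R₀ ℓ
  have hal0 := tta6_al_nonneg L R₀ ℓ
  have hℓ0 : (0 : ℝ) ≤ (ℓ : ℝ) ^ 2 := sq_nonneg _
  have ht0 : 0 < t := by
    by_contra hcon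
    have hcon' : t ≤ 0 := not_lt.mp hcon
    have h1 : t * ((ℓ : ℝ) ^ 2 * al L R₀ ℓ) ≤ 0 :=
      mul_nonpos_of_nonpos_of_nonneg hcon' (mul_nonneg hℓ0 hal0)
    have h2 : 1 ≤ t * ((ℓ : ℝ) ^ 2 * al L R₀ ℓ) := hB
    linarith
  have hpw : (1 : ℝ) ≤ 2 ^ j := one_le_pow₀ (by norm_num)
  have hts : t ≤ 2 ^ j * t := by nlinarith
  have hs0 : 0 < 2 ^ j * t := lt_of_lt_of_le ht0 hts
  obtain ⟨ℓ', h1, h2, h3, h4, h5, h6⟩ := hS ℓ t (2 ^ j * t) hℓ hB hts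
  have hℓ'1 : 1 ≤ ℓ' := le_trans hR h1
  have hρp : (0 : ℝ) < (ρ : ℝ) := by exact_mod_cast (lt_of_lt_of_le one_pos hρ1)
  have hℓp : (0 : ℝ) < (ℓ : ℝ) := by exact_mod_cast (lt_of_lt_of_le one_pos hℓ1)
  have hX : 0 ≤ ttq ε ^ j * ((ℓ : ℝ) / ρ) ^ ε :=
    mul_nonneg (pow_nonneg hq.1.le j) (Real.rpow_nonneg (div_pos hℓp hρp).le _)
  have h8 := tta6_R hq hρ1 j
  by_cases hD : 16 * ℓ' ≤ ttR (ttq ε) ρ j
  · have e1 := shell_a hL hH hε1 hC₁.le hR h1 h3 h4 hD h8 b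
    have e2 := ha ℓ ℓ' ρ t j hℓ1 hℓ'1 hρ1 ht0 hD h5
    have e3 := mul_le_mul_of_nonneg_left e2 hK.le
    have e4 : 0 ≤ Cb * (ttq ε ^ j * ((ℓ : ℝ) / ρ) ^ ε) := mul_nonneg hCb.le hX
    calc _ ≤ _ := e1
      _ ≤ _ := e3
      _ ≤ (C₁ * (40 / ε) * Ca + Cb) * (ttq ε ^ j * ((ℓ : ℝ) / ρ) ^ ε) := by
          rw [add_mul, mul_assoc (C₁ * (40 / ε)) Ca]
          linarith
  · have hD' : ttR (ttq ε) ρ j < 16 * ℓ' := not_le.mp hD
    have f1 : ∑ v ∈ ttSh Q ρ, pr2 (kt (2 ^ j * t)) (W b v (ttR (ttq ε) ρ j)) ≤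
        25 * (ρ : ℝ) ^ 2 := by
      refine le_trans ?_ (card_ttSh Q hρ1)
      have f2 : ∑ v ∈ ttSh Q ρ, pr2 (kt (2 ^ j * t)) (W b v (ttR (ttq ε) ρ j)) ≤
          ∑ _v ∈ ttSh Q ρ, (1 : ℝ) := by
        refine Finset.sum_le_sum (fun v _ => ?_)
        exact tta6_pr2_le (hE.locW b v _) (fun w => tta6_kt hs0.le w)
      rw [Finset.sum_const, nsmul_eq_mul, mul_one] at f2
      exact f2
    have f3 : 0 ≤ 2 ^ j * t * Real.exp (-(2 ^ j * t)) := mul_nonneg hs0.le (Real.exp_pos _).le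
    have f4 := mul_le_mul_of_nonneg_left f1 f3
    have f5 : 1 ≤ t * (ℓ : ℝ) ^ 2 := by
      have g1 : 1 ≤ t * ((ℓ : ℝ) ^ 2 * al L R₀ ℓ) := hB
      have g2 : (ℓ : ℝ) ^ 2 * al L R₀ ℓ ≤ (ℓ : ℝ) ^ 2 := by nlinarith
      have g3 : t * ((ℓ : ℝ) ^ 2 * al L R₀ ℓ) ≤ t * (ℓ : ℝ) ^ 2 :=
        mul_le_mul_of_nonneg_left g2 ht0.le
      linarith
    have f6 := hb ℓ ℓ' ρ t j hℓ h1 hρ f5 hD' h6
    have f7 : 0 ≤ C₁ * (40 / ε) * Ca * (ttq ε ^ j * ((ℓ : ℝ) / ρ) ^ ε) :=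
      mul_nonneg (mul_pos hK hCa).le hX
    calc _ ≤ _ := f4
      _ ≤ _ := f6
      _ ≤ (C₁ * (40 / ε) * Ca + Cb) * (ttq ε ^ j * ((ℓ : ℝ) / ρ) ^ ε) := by
          rw [add_mul]
          linarith

end SC

end

/-! ### from `Lib_MP_e0a489.TTA7` -/

section

/-!
# MP_e0a489, module TTA 7: the inequality for one annulus
-/

set_option autoImplicit false

namespace SC

open Classical

variable {Q : Set Pt} {E : ℤ → ℤ → Cfg → Prop} {W : Bool → Pt → ℤ → Cfg → Prop}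

private theorem tta7_ind_nonneg (A : Cfg → Prop) (ω : Cfg) : 0 ≤ ind A ω := by
  unfold ind
  split_ifs <;> norm_num

private theorem tta7_ind_le {A B : Cfg → Prop} {ω : Cfg} (h : A ω → B ω) :
    ind A ω ≤ ind B ω := by
  unfold ind
  by_cases hA : A ω
  · rw [if_pos hA, if_pos (h hA)]
  · rw [if_neg hA]
    split_ifs <;> norm_num

private theorem tta7_lf_dv {g : Cfg → ℝ} (hg : Lf g) (v : Pt) : Lf (dv v g) := by
  obtain ⟨F, hF⟩ := hg
  exact ⟨F, (hF.dv v).mono Set.sdiff_subset⟩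

private theorem tta7_sq (A : Cfg → Prop) : ex (fun ω => ind A ω ^ 2) ≤ 1 := by
  have h : (fun ω => ind A ω ^ 2) = ind A := by
    funext ω
    unfold ind
    split_ifs <;> norm_num
  rw [h]
  exact pr_le_one A

private theorem tta7_exp {t : ℝ} (ht : 0 ≤ t) (j : ℕ) :
    Real.exp (-(2 ^ j * t)) ≤ Real.exp (-t) := by
  refine Real.exp_le_exp.2 ?_
  have h1 : (1 : ℝ) ≤ 2 ^ j := one_le_pow₀ (by norm_num)
  nlinarith

private theorem tta7_exp1 {t : ℝ} (ht : 0 ≤ t) (j : ℕ) :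
    0 ≤ Real.exp (-(2 ^ j * t)) ∧ Real.exp (-(2 ^ j * t)) ≤ 1 := by
  refine ⟨(Real.exp_pos _).le, ?_⟩
  rw [← Real.exp_zero]
  refine Real.exp_le_exp.2 ?_
  have h1 : (0 : ℝ) ≤ 2 ^ j := by positivity
  nlinarith

private theorem tta7_crF_nonneg {κ : Pt → ℝ} (hκ : ∀ v, 0 ≤ κ v ∧ κ v ≤ 1) (r R : ℤ) :
    0 ≤ crF E κ r R := by
  unfold crF
  split_ifs
  · exact ex2_nonneg κ hκ (tta7_ind_nonneg _) (tta7_ind_nonneg _)
  · norm_num

private theorem tta7_crF_mono (h : CrE Q E W) {κ κ' : Pt → ℝ} (h0 : ∀ v, 0 ≤ κ v)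
    (h1 : ∀ v, κ v ≤ κ' v) (r R : ℤ) : crF E κ r R ≤ crF E κ' r R := by
  unfold crF
  split_ifs
  · exact ex2_mono_kappa (h.loc r R).lf h0 h1
  · exact le_refl _

private theorem tta7_limit {X Y t : ℝ} (ht : 0 < t)
    (h : ∀ m : ℕ, X ≤ Y + Real.exp (-(2 ^ m * t))) : X ≤ Y := by
  have h1 : Filter.Tendsto (fun m : ℕ => Y + Real.exp (-(2 ^ m * t))) Filter.atTop
      (nhds (Y + 0)) := by
    refine Filter.Tendsto.add tendsto_const_nhds ?_
    refine Real.tendsto_exp_neg_atTop_nhds_zero.comp ?_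
    exact Filter.Tendsto.atTop_mul_const ht
      (tendsto_pow_atTop_atTop_of_one_lt (by norm_num : (1 : ℝ) < 2))
  rw [add_zero] at h1
  exact ge_of_tendsto' h1 h

private theorem tta7_geom {q : ℝ} (hq : 0 ≤ q ∧ q < 1) (m : ℕ) :
    ∑ j ∈ Finset.range m, q ^ j ≤ 1 / (1 - q) := by
  have h1 : 0 < 1 - q := by linarith [hq.2]
  have h2 : (∑ j ∈ Finset.range m, q ^ j) * (1 - q) = 1 - q ^ m := by
    induction m with
    | zero => simp
    | succ m ih =>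
      rw [Finset.sum_range_succ, add_mul, ih, pow_succ]
      ring
  rw [le_div_iff₀ h1, h2]
  linarith [pow_nonneg hq.1 m]

/-- FIRST TERM.  `E r R` implies `E (4 r) (R / 4)` (`CrE.mono`), which depends on `ann (4 r) (R / 4) ∩ Q ⊆ V n`
(`ttV_sup`), where the correlation is `0`: `pr2 ≤ pr ^ 2` (`ex2_mono`, `ex2_zero`). -/
theorem tt_first (h : CrE Q E W) {q : ℝ} (hq : 0 ≤ q ∧ q < 1) {r R : ℤ} (hr : 1 ≤ r)
    (hR : 64 * r < R) {t : ℝ} (ht : 0 ≤ t) (n : ℕ) :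
    ex2 (kon (ttV Q q r R n) 0 (kt t)) (ind (E r R)) (ind (E r R)) ≤
      pr (E (4 * r) (R / 4)) ^ 2 := by
  have hκ : ∀ v, 0 ≤ kon (ttV Q q r R n) 0 (kt t) v ∧ kon (ttV Q q r R n) 0 (kt t) v ≤ 1 :=
    kon_mem ⟨le_refl _, zero_le_one⟩ (kt_mem ht)
  have l1 : Lf (ind (E r R)) := (h.loc r R).lf
  have l2 : Lf (ind (E (4 * r) (R / 4))) := (h.loc (4 * r) (R / 4)).lf
  have hm : ∀ ω, ind (E r R) ω ≤ ind (E (4 * r) (R / 4)) ω := fun ω =>
    tta7_ind_le (h.mono r R (4 * r) (R / 4) ω (by omega) (by omega) (by omega) (by omega))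
  refine (ex2_mono l1 l1 l2 l2 _ hκ (tta7_ind_nonneg _) (tta7_ind_nonneg _) hm hm).trans ?_
  rw [ex2_zero l2 l2 (Dep.ind (h.dep (4 * r) (R / 4))) _ (fun v hv => ?_)]
  · unfold pr
    rw [sq]
  · unfold kon
    rw [if_pos (ttV_sup hq (by omega) n hv.2 hv.1.1 hv.1.2)]

/-- ONE SITE.  `κ = kon (V j) e^{-s} (kt t)`, `s = 2 ^ j t`, `ρ = 2 ^ (i+1) r`, `v ∈ V (j+1)` in the shell `ρ < nrm v ≤ 2 ρ`,
`D = ttR q ρ j`.  `ex2_dv_le` and `piv_fac` (with `ρ / 2 = 2 ^ i r` for `ρ`; `4 D ≤ 2 ^ i r` by `ttR_le`; `2 nrm v ≤ R` by `ttV_mem`).  `κ ≤ kt t`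
(`e^{-s} ≤ e^{-t}`), so `crF E κ ≤ crF E (kt t)` (`ex2_mono_kappa`).  `W b v D` depends on `bxAt v D ∩ Q ⊆ V j` (`ttV_ball`),
where `κ = e^{-s} = kt s` (`ex2_congr`). -/
theorem tt_site (h : CrE Q E W) {q : ℝ} (hq : 0 ≤ q ∧ q < 1) {r R : ℤ} (hr : 1 ≤ r)
    (hR : 64 * r < R) {t : ℝ} (ht : 0 ≤ t) (j i : ℕ) {v : Pt} (hv : v ∈ ttV Q q r R (j + 1))
    (hv' : v ∈ ttSh Q (2 ^ (i + 1) * r)) :
    ex2 (kon (ttV Q q r R j) (Real.exp (-(2 ^ j * t))) (kt t)) (dv v (ind (E r R)))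
        (dv v (ind (E r R))) ≤
      1 / 2 * (crF E (kt t) r (2 ^ i * r) * crF E (kt t) (8 * (2 ^ i * r)) R *
        (pr2 (kt (2 ^ j * t)) (W true v (ttR q (2 ^ (i + 1) * r) j)) +
          pr2 (kt (2 ^ j * t)) (W false v (ttR q (2 ^ (i + 1) * r) j)))) := by
  have hκ : ∀ z, 0 ≤ kon (ttV Q q r R j) (Real.exp (-(2 ^ j * t))) (kt t) z ∧
      kon (ttV Q q r R j) (Real.exp (-(2 ^ j * t))) (kt t) z ≤ 1 :=
    kon_mem (tta7_exp1 ht j) (kt_mem ht)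
  have hκt : ∀ z, kon (ttV Q q r R j) (Real.exp (-(2 ^ j * t))) (kt t) z ≤ kt t z := by
    intro z
    unfold kon
    split_ifs
    · exact tta7_exp ht j
    · exact le_refl _
  obtain ⟨κ, hκd⟩ : ∃ κ, κ = kon (ttV Q q r R j) (Real.exp (-(2 ^ j * t))) (kt t) := ⟨_, rfl⟩
  rw [← hκd] at hκ hκt ⊢
  unfold ttSh at hv'
  rw [Finset.mem_filter] at hv'
  obtain ⟨_, hvQ, hv1, hv2⟩ := hv'
  have hp : (2 : ℤ) ^ (i + 1) * r = 2 * (2 ^ i * r) := by rw [pow_succ]; ring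
  have hp1 : (1 : ℤ) ≤ 2 ^ i := one_le_pow₀ (by norm_num)
  have hp2 : r ≤ 2 ^ i * r := by nlinarith
  obtain ⟨_, _, hv3⟩ := ttV_mem hq hr (by omega) hv
  have hD := ttR_le (q := q) hq (ρ := 2 ^ (i + 1) * r) (by rw [hp]; omega) j
  have h1 := ex2_dv_le (h.loc r R) v hκ
  have h2 := piv_fac h hκ (r := r) (R := R) (ρ := 2 ^ i * r) (D := ttR q (2 ^ (i + 1) * r) j)
    (v := v) hr hp2 hvQ (by rw [hp] at hv1; exact hv1) (by rw [hp] at hv2; omega)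
    (by rw [hp] at hD ⊢; omega) hv3
  have hW : ∀ b, pr2 κ (W b v (ttR q (2 ^ (i + 1) * r) j)) =
      pr2 (kt (2 ^ j * t)) (W b v (ttR q (2 ^ (i + 1) * r) j)) := by
    intro b
    have lW : Lf (ind (W b v (ttR q (2 ^ (i + 1) * r) j))) := (h.locW b v _).lf
    refine ex2_congr lW lW (Dep.ind (h.depW b v _)) fun z hz => ?_
    have hz1 := ttV_ball hq (by omega) (by omega) hv (ρ := 2 ^ (i + 1) * r)
      (by rw [hp]; omega) hv1 hz.2 hz.1
    rw [hκd]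
    show kon _ _ _ z = Real.exp (-(2 ^ j * t))
    unfold kon
    rw [if_pos hz1]
  rw [hW, hW] at h2
  have hW0 : ∀ b, 0 ≤ pr2 (kt (2 ^ j * t)) (W b v (ttR q (2 ^ (i + 1) * r) j)) := fun b =>
    ex2_nonneg _ (kt_mem (by positivity)) (tta7_ind_nonneg _) (tta7_ind_nonneg _)
  have hc1 : crF E κ r (2 ^ i * r) ≤ crF E (kt t) r (2 ^ i * r) :=
    tta7_crF_mono h (fun z => (hκ z).1) hκt _ _
  have hc2 : crF E κ (8 * (2 ^ i * r)) R ≤ crF E (kt t) (8 * (2 ^ i * r)) R :=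
    tta7_crF_mono h (fun z => (hκ z).1) hκt _ _
  have hc3 : crF E κ r (2 ^ i * r) * crF E κ (8 * (2 ^ i * r)) R ≤
      crF E (kt t) r (2 ^ i * r) * crF E (kt t) (8 * (2 ^ i * r)) R :=
    mul_le_mul hc1 hc2 (tta7_crF_nonneg hκ _ _) (tta7_crF_nonneg (kt_mem ht) _ _)
  have hc4 := mul_le_mul_of_nonneg_right hc3 (add_nonneg (hW0 true) (hW0 false))
  linarith

/-- STEP.  `lag_graded` with `V = ttV Q (ttq ε) r R`, for every `m`:
`pr2 (kt t) (E r R) ≤ (tt_first) + ∑_{j<m} 2^j t e^{-2^j t} ∑_{v ∈ V (j+1)} (..) + e^{-2^m t}` (`E[g²] ≤ 1`).  By `tt_shells` (with `n`) and `tt_site` the `j`-th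
term is at most `∑_{i<n} crF r (2^i r) crF (8 2^i r) R (1/2) ∑_b 2^j t e^{-2^j t} ∑_{v ∈ ttSh} pr2 (kt (2^j t)) (W b v D)`
(`V ∩ shell ⊆ ttSh`, the terms are nonnegative) `≤ ∑_{i<n} crF crF C q^j (ℓ / (2^(i+1) r)) ^ ε` by the hypothesis `hsh` (`2^(i+1) r ≥ r ≥ Λ ℓ`), and
`(ℓ / (2^(i+1) r)) ^ ε ≤ (ℓ / (2^i r)) ^ ε`.  `∑_j q^j ≤ 1 / (1 - q)`.  The bound holds for all `m`, and `e^{-2^m t} → 0`. -/
theorem tt_step (h : CrE Q E W) {ε C : ℝ} (hε : 0 < ε) (hC : 0 ≤ C) {ℓ Λ : ℤ} (hℓ : 1 ≤ ℓ)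
    {t : ℝ} (ht : 0 < t)
    (hsh : ∀ (j : ℕ) (b : Bool) (ρ : ℤ), Λ * ℓ ≤ ρ → 2 ^ j * t * Real.exp (-(2 ^ j * t)) *
      ∑ v ∈ ttSh Q ρ, pr2 (kt (2 ^ j * t)) (W b v (ttR (ttq ε) ρ j)) ≤
        C * (ttq ε ^ j * ((ℓ : ℝ) / ρ) ^ ε)) {r R : ℤ} (hr : 1 ≤ r) (hr' : Λ * ℓ ≤ r)
    (hR : 64 * r < R) : ∃ n : ℕ, (∀ i : ℕ, i < n → 2 ^ (i + 2) * r ≤ R) ∧
      pr2 (kt t) (E r R) ≤ pr (E (4 * r) (R / 4)) ^ 2 + C / (1 - ttq ε) *
        ∑ i ∈ Finset.range n, ((ℓ : ℝ) / ((2 : ℝ) ^ i * r)) ^ ε *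
          (crF E (kt t) r (2 ^ i * r) * crF E (kt t) (8 * (2 ^ i * r)) R) := by
  obtain ⟨hq0, hq1⟩ := ttq_mem hε
  have hq : 0 ≤ ttq ε ∧ ttq ε < 1 := ⟨hq0.le, hq1⟩
  obtain ⟨n, hn, hshell⟩ := tt_shells (Q := Q) (r := r) (R := R) hr
  refine ⟨n, hn, ?_⟩
  have lg : Lf (ind (E r R)) := (h.loc r R).lf
  -- abbreviation for the products
  obtain ⟨P, hP⟩ : ∃ P : ℕ → ℝ, ∀ i, P i =
      crF E (kt t) r (2 ^ i * r) * crF E (kt t) (8 * (2 ^ i * r)) R := ⟨_, fun _ => rfl⟩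
  have hP0 : ∀ i, 0 ≤ P i := fun i => by
    rw [hP]
    exact mul_nonneg (tta7_crF_nonneg (kt_mem ht.le) _ _) (tta7_crF_nonneg (kt_mem ht.le) _ _)
  have hrw : ∑ i ∈ Finset.range n, ((ℓ : ℝ) / ((2 : ℝ) ^ i * r)) ^ ε *
      (crF E (kt t) r (2 ^ i * r) * crF E (kt t) (8 * (2 ^ i * r)) R) =
      ∑ i ∈ Finset.range n, ((ℓ : ℝ) / ((2 : ℝ) ^ i * r)) ^ ε * P i :=
    Finset.sum_congr rfl fun i _ => by rw [hP]
  rw [hrw]
  obtain ⟨S, hS⟩ : ∃ S, S = ∑ i ∈ Finset.range n, ((ℓ : ℝ) / ((2 : ℝ) ^ i * r)) ^ ε * P i :=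
    ⟨_, rfl⟩
  rw [← hS]
  have hrR : (0 : ℝ) < r := by exact_mod_cast (by omega : (0 : ℤ) < r)
  have hℓR : (0 : ℝ) < ℓ := by exact_mod_cast (by omega : (0 : ℤ) < ℓ)
  have hS0 : 0 ≤ S := by
    rw [hS]
    refine Finset.sum_nonneg fun i _ => mul_nonneg (Real.rpow_nonneg ?_ _) (hP0 i)
    positivity
  refine tta7_limit ht fun m => ?_
  have hlag := lag_graded lg (V := ttV Q (ttq ε) r R)
    (fun j => ttV_anti ⟨hq.1, hq.2.le⟩ (by omega) (by omega) j) ht.le m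
  have hfirst := tt_first h hq hr hR ht.le m
  have hlast : Real.exp (-(2 ^ m * t)) * ex (fun ω => ind (E r R) ω ^ 2) ≤
      Real.exp (-(2 ^ m * t)) := by
    have h1 := mul_le_mul_of_nonneg_left (tta7_sq (E r R)) (Real.exp_pos (-(2 ^ m * t))).le
    rwa [mul_one] at h1
  have hmid : ∀ j : ℕ, (2 ^ j * t) * ∑ v ∈ ttV Q (ttq ε) r R (j + 1), Real.exp (-(2 ^ j * t)) *
      ex2 (kon (ttV Q (ttq ε) r R j) (Real.exp (-(2 ^ j * t))) (kt t)) (dv v (ind (E r R)))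
        (dv v (ind (E r R))) ≤ C * S * ttq ε ^ j := by
    intro j
    have hf0 : ∀ v, 0 ≤ ex2 (kon (ttV Q (ttq ε) r R j) (Real.exp (-(2 ^ j * t))) (kt t))
        (dv v (ind (E r R))) (dv v (ind (E r R))) := fun v =>
      ex2_self_nonneg (tta7_lf_dv lg v) _ fun z =>
        (kon_mem (tta7_exp1 ht.le j) (kt_mem ht.le) z).1
    have hs1 := hshell (ttV Q (ttq ε) r R (j + 1)) (fun v =>
      ex2 (kon (ttV Q (ttq ε) r R j) (Real.exp (-(2 ^ j * t))) (kt t))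
        (dv v (ind (E r R))) (dv v (ind (E r R)))) hf0
      (fun v hv => ttV_mem hq hr (by omega) hv)
    have hc : 0 ≤ 2 ^ j * t * Real.exp (-(2 ^ j * t)) := by positivity
    have hshl : ∀ i ∈ Finset.range n, 2 ^ j * t * Real.exp (-(2 ^ j * t)) *
        ∑ v ∈ (ttV Q (ttq ε) r R (j + 1)).filter (fun v => v ∈ ttSh Q (2 ^ (i + 1) * r)),
          ex2 (kon (ttV Q (ttq ε) r R j) (Real.exp (-(2 ^ j * t))) (kt t))
            (dv v (ind (E r R))) (dv v (ind (E r R))) ≤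
        C * (((ℓ : ℝ) / ((2 : ℝ) ^ i * r)) ^ ε * P i) * ttq ε ^ j := by
      intro i _
      have hW0 : ∀ (b : Bool) (v : Pt),
          0 ≤ pr2 (kt (2 ^ j * t)) (W b v (ttR (ttq ε) (2 ^ (i + 1) * r) j)) := fun b v =>
        ex2_nonneg _ (kt_mem (by positivity)) (tta7_ind_nonneg _) (tta7_ind_nonneg _)
      have e1 : ∑ v ∈ (ttV Q (ttq ε) r R (j + 1)).filter (fun v => v ∈ ttSh Q (2 ^ (i + 1) * r)),
          ex2 (kon (ttV Q (ttq ε) r R j) (Real.exp (-(2 ^ j * t))) (kt t))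
            (dv v (ind (E r R))) (dv v (ind (E r R))) ≤
          1 / 2 * P i * (∑ v ∈ ttSh Q (2 ^ (i + 1) * r),
            pr2 (kt (2 ^ j * t)) (W true v (ttR (ttq ε) (2 ^ (i + 1) * r) j)) +
          ∑ v ∈ ttSh Q (2 ^ (i + 1) * r),
            pr2 (kt (2 ^ j * t)) (W false v (ttR (ttq ε) (2 ^ (i + 1) * r) j))) := by
        rw [← Finset.sum_add_distrib, Finset.mul_sum]
        refine (Finset.sum_le_sum (g := fun v => 1 / 2 * P i *
          (pr2 (kt (2 ^ j * t)) (W true v (ttR (ttq ε) (2 ^ (i + 1) * r) j)) +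
            pr2 (kt (2 ^ j * t)) (W false v (ttR (ttq ε) (2 ^ (i + 1) * r) j))))
          fun v hv => ?_).trans ?_
        · rw [Finset.mem_filter] at hv
          have h1 := tt_site h hq hr hR ht.le j i hv.1 hv.2
          rw [← hP] at h1
          refine h1.trans (le_of_eq ?_)
          ring
        · refine Finset.sum_le_sum_of_subset_of_nonneg (fun v hv => (Finset.mem_filter.1 hv).2)
            fun v _ _ => ?_
          have h1 := hP0 i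
          have h2 := hW0 true v
          have h3 := hW0 false v
          positivity
      have hp1 : (1 : ℤ) ≤ 2 ^ (i + 1) := one_le_pow₀ (by norm_num)
      have hp2 : r ≤ 2 ^ (i + 1) * r := by nlinarith
      have e2 := hsh j true (2 ^ (i + 1) * r) (hr'.trans hp2)
      have e3 := hsh j false (2 ^ (i + 1) * r) (hr'.trans hp2)
      have e4 : ((ℓ : ℝ) / ((2 ^ (i + 1) * r : ℤ) : ℝ)) ^ ε ≤
          ((ℓ : ℝ) / ((2 : ℝ) ^ i * r)) ^ ε := by
        refine Real.rpow_le_rpow (by push_cast; positivity) ?_ hε.le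
        push_cast
        refine div_le_div_of_nonneg_left hℓR.le (by positivity) ?_
        rw [pow_succ]
        have h1 : (0 : ℝ) < 2 ^ i := by positivity
        nlinarith [mul_pos h1 hrR]
      have e5 : C * (ttq ε ^ j * ((ℓ : ℝ) / ((2 ^ (i + 1) * r : ℤ) : ℝ)) ^ ε) ≤
          C * (ttq ε ^ j * ((ℓ : ℝ) / ((2 : ℝ) ^ i * r)) ^ ε) :=
        mul_le_mul_of_nonneg_left (mul_le_mul_of_nonneg_left e4 (by positivity)) hC
      have e6 := mul_le_mul_of_nonneg_left e1 hc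
      refine e6.trans ?_
      have e7 : 2 ^ j * t * Real.exp (-(2 ^ j * t)) * (1 / 2 * P i *
          (∑ v ∈ ttSh Q (2 ^ (i + 1) * r),
            pr2 (kt (2 ^ j * t)) (W true v (ttR (ttq ε) (2 ^ (i + 1) * r) j)) +
          ∑ v ∈ ttSh Q (2 ^ (i + 1) * r),
            pr2 (kt (2 ^ j * t)) (W false v (ttR (ttq ε) (2 ^ (i + 1) * r) j)))) =
          1 / 2 * P i * (2 ^ j * t * Real.exp (-(2 ^ j * t)) * ∑ v ∈ ttSh Q (2 ^ (i + 1) * r),
            pr2 (kt (2 ^ j * t)) (W true v (ttR (ttq ε) (2 ^ (i + 1) * r) j)) +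
          2 ^ j * t * Real.exp (-(2 ^ j * t)) * ∑ v ∈ ttSh Q (2 ^ (i + 1) * r),
            pr2 (kt (2 ^ j * t)) (W false v (ttR (ttq ε) (2 ^ (i + 1) * r) j))) := by ring
      rw [e7]
      have hPi : 0 ≤ 1 / 2 * P i := by linarith [hP0 i]
      have e8 := mul_le_mul_of_nonneg_left (add_le_add (e2.trans e5) (e3.trans e5)) hPi
      refine e8.trans (le_of_eq ?_)
      ring
    rw [← Finset.mul_sum]
    have e9 : 2 ^ j * t * (Real.exp (-(2 ^ j * t)) * ∑ v ∈ ttV Q (ttq ε) r R (j + 1),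
        ex2 (kon (ttV Q (ttq ε) r R j) (Real.exp (-(2 ^ j * t))) (kt t)) (dv v (ind (E r R)))
          (dv v (ind (E r R)))) ≤ 2 ^ j * t * Real.exp (-(2 ^ j * t)) *
        ∑ i ∈ Finset.range n, ∑ v ∈ (ttV Q (ttq ε) r R (j + 1)).filter
          (fun v => v ∈ ttSh Q (2 ^ (i + 1) * r)),
          ex2 (kon (ttV Q (ttq ε) r R j) (Real.exp (-(2 ^ j * t))) (kt t))
            (dv v (ind (E r R))) (dv v (ind (E r R))) := by
      rw [← mul_assoc]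
      exact mul_le_mul_of_nonneg_left hs1 hc
    refine e9.trans ?_
    rw [Finset.mul_sum]
    refine (Finset.sum_le_sum hshl).trans (le_of_eq ?_)
    rw [← Finset.sum_mul, ← Finset.mul_sum, hS]
  have hsum : ∑ j ∈ Finset.range m, (2 ^ j * t) * ∑ v ∈ ttV Q (ttq ε) r R (j + 1),
      Real.exp (-(2 ^ j * t)) * ex2 (kon (ttV Q (ttq ε) r R j) (Real.exp (-(2 ^ j * t))) (kt t))
        (dv v (ind (E r R))) (dv v (ind (E r R))) ≤ C / (1 - ttq ε) * S := by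
    refine (Finset.sum_le_sum fun j _ => hmid j).trans ?_
    rw [← Finset.mul_sum]
    have h1 := mul_le_mul_of_nonneg_left (tta7_geom hq m) (mul_nonneg hC hS0)
    refine h1.trans (le_of_eq ?_)
    ring
  unfold pr2
  linarith

end SC

end

/-! ### from `Lib_MP_e0a489.XP6` -/

section

/-!
# MP_e0a489, exponents 6: probability that a block is explored
-/

set_option autoImplicit false

namespace SC

namespace XP

open Classical

variable {L : Lat}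

/-- If the block number `z` is explored from the column `u w` and `n = |z.1 - u| ≥ 2`, there is an open arm from distance
`≤ w` of the centre `x = (z.1 w, z.2 w)` to distance `≥ (n - 1) w`.  There is `v ∈ blkF w z` in `Cx ∪ bd Q Cx`, `Q = bx N`, `S` = column `u w`;
so there is `v' ∈ Cx`, `v' = v` or `Adj v' v`, with `nrm (v' - x) ≤ w / 2 + 1 ≤ w`.  `v' ∉ S`, because `|v'.1 - u w| ≥ n w - w > 0`.  So
`v' ∈ L.cl true (Q \ S) S ω`: a path in `(Q \ S) ∩ col true ω` from `u' ∈ L.nb S` to `v'`, and `|u'.1 - u w| ≤ 1` gives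
`nrm (u' - x) ≥ n w - 1 ≥ (n - 1) w`. -/
theorem Rb_arm {M w u : ℤ} {z : Pt} {ω : Cfg} (hw : w % 2 = 1) (hw0 : 0 < w)
    (hn : 2 ≤ |z.1 - u|) (h : blkF w z ∈ L.Rb M w (u * w) ω) :
    L.Arm true (bx (M * w + w / 2)) {v | nrm (v - (z.1 * w, z.2 * w)) ≤ w}
      {v | (|z.1 - u| - 1) * w ≤ nrm (v - (z.1 * w, z.2 * w))} ω := by
  obtain ⟨-, v, hvB, hv⟩ := Finset.mem_filter.1 h
  have hvB' := mem_rectF.1 hvB
  have hvx : nrm (v - (z.1 * w, z.2 * w)) ≤ w / 2 := by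
    obtain ⟨⟨h1, h2⟩, h3, h4⟩ := hvB'
    refine max_le (abs_le.2 ⟨?_, ?_⟩) (abs_le.2 ⟨?_, ?_⟩)
    · show -(w / 2) ≤ v.1 - z.1 * w
      linarith
    · show v.1 - z.1 * w ≤ w / 2
      linarith
    · show -(w / 2) ≤ v.2 - z.2 * w
      linarith
    · show v.2 - z.2 * w ≤ w / 2
      linarith
  have hww : w / 2 + 1 ≤ w := by omega
  have key : ∃ v', v' ∈ L.Cx true (bx (M * w + w / 2))
      (rect (u * w) (u * w) (-(M * w + w / 2)) (M * w + w / 2)) ω ∧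
      nrm (v' - (z.1 * w, z.2 * w)) ≤ w := by
    rcases hv with hv | ⟨-, v', hv', hadj⟩
    · exact ⟨v, hv, by omega⟩
    · have h5 := abs_le.1 (adj_nrm hadj (z.1 * w, z.2 * w))
      exact ⟨v', hv', by omega⟩
  obtain ⟨v', hv', hvn⟩ := key
  have hzu : |z.1 * w - u * w| = |z.1 - u| * w := by
    rw [← sub_mul, abs_mul, abs_of_pos hw0]
  have h6 : |v'.1 - z.1 * w| ≤ w := (abs_nrm (v' - (z.1 * w, z.2 * w))).1.trans hvn
  have h7 : 2 * w ≤ |z.1 - u| * w := mul_le_mul_of_nonneg_right hn hw0.le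
  rcases hv' with hS | ⟨u', ⟨s, hs, hsu⟩, hc⟩
  · exfalso
    have h8 : v'.1 = u * w := le_antisymm hS.1.2 hS.1.1
    rw [h8, abs_sub_comm, hzu] at h6
    omega
  · have h8 : s.1 = u * w := le_antisymm hs.1.2 hs.1.1
    have h9 : |u * w - u'.1| ≤ 1 := by
      rw [← h8]
      exact hsu.near.1
    refine ⟨v', hvn, u', ?_, hc.symm.mono fun y hy => ⟨hy.1.1, hy.2⟩⟩
    have h10 : |u'.1 - z.1 * w| ≤ nrm (u' - (z.1 * w, z.2 * w)) :=
      (abs_nrm (u' - (z.1 * w, z.2 * w))).1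
    have h11 : |z.1 * w - u * w| ≤ |z.1 * w - u'.1| + |u'.1 - u * w| := abs_sub_le _ _ _
    rw [abs_sub_comm (z.1 * w) u'.1, abs_sub_comm u'.1 (u * w), hzu] at h11
    show (|z.1 - u| - 1) * w ≤ nrm (u' - (z.1 * w, z.2 * w))
    have h12 : (|z.1 - u| - 1) * w = |z.1 - u| * w - w := by ring
    rw [h12]
    omega

/-- Probability that the block number `z` is explored from the column `u w`.  Let `C₁`, `c` be the constants of `one_arm'` and
`C = 3 C₁ + 2`, `n = |z.1 - u|`.  For `n ≤ 1` the right side is at least `2 (1/2) ^ c ≥ 1` (`c ≤ 1/2`).  For `n ≥ 2` use `Rb_arm`, `one_arm'` with `r = w`,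
`R = (n - 1) w`: at most `C₁ (1 / (n - 1)) ^ c ≤ C₁ (3 / (n + 1)) ^ c ≤ 3 C₁ (1 / (1 + n)) ^ c`.  (`Rb_dep`: the event is local; `bx N` is finite.) -/
theorem Rb_pr (κ : ℕ → ℝ) : ∃ C c : ℝ, 0 < C ∧ 0 < c ∧ c ≤ 1 / 2 ∧ ∀ L : Lat, RSW L κ →
    ∀ (M w u : ℤ) (z : Pt), w % 2 = 1 → 0 < w → |u| ≤ M →
      pr (fun ω => blkF w z ∈ L.Rb M w (u * w) ω) ≤
        C * (1 / (1 + ((|z.1 - u| : ℤ) : ℝ))) ^ c := by
  obtain ⟨C₁, c, hC₁, hc, hc2, H⟩ := one_arm' κ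
  refine ⟨3 * C₁ + 2, c, by positivity, hc, hc2, fun L hL M w u z hw hw0 hu => ?_⟩
  have hn0 : 0 ≤ |z.1 - u| := abs_nonneg _
  have hn0' : (0 : ℝ) ≤ ((|z.1 - u| : ℤ) : ℝ) := by exact_mod_cast hn0
  have hpos : (0 : ℝ) ≤ (1 / (1 + ((|z.1 - u| : ℤ) : ℝ))) ^ c :=
    Real.rpow_nonneg (by positivity) _
  rcases lt_or_ge |z.1 - u| 2 with hn | hn
  · have h1 : ((|z.1 - u| : ℤ) : ℝ) ≤ 1 := by
      have : |z.1 - u| ≤ 1 := by omega
      exact_mod_cast this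
    have h2 : (1 / 2 : ℝ) ≤ 1 / (1 + ((|z.1 - u| : ℤ) : ℝ)) := by
      apply one_div_le_one_div_of_le (by positivity)
      linarith
    have h3 : (1 / 2 : ℝ) ^ c ≤ (1 / (1 + ((|z.1 - u| : ℤ) : ℝ))) ^ c :=
      Real.rpow_le_rpow (by norm_num) h2 hc.le
    have h4 : (1 / 2 : ℝ) ^ (1 : ℝ) ≤ (1 / 2 : ℝ) ^ c :=
      Real.rpow_le_rpow_of_exponent_ge (by norm_num) (by norm_num) (by linarith)
    rw [Real.rpow_one] at h4
    have h5 := pr_le_one (fun ω => blkF w z ∈ L.Rb M w (u * w) ω)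
    have h6 : (0 : ℝ) ≤ 3 * C₁ * (1 / (1 + ((|z.1 - u| : ℤ) : ℝ))) ^ c :=
      mul_nonneg (by positivity) hpos
    nlinarith
  · have hfin : (bx (M * w + w / 2)).Finite := by
      rw [bx_rect5, ← coe_rectF]
      exact Finset.finite_toSet _
    have hxN : |u * w| ≤ M * w + w / 2 := by
      rw [abs_mul, abs_of_pos hw0]
      have := mul_le_mul_of_nonneg_right hu hw0.le
      omega
    have hloc : Loc (fun ω => blkF w z ∈ L.Rb M w (u * w) ω) := by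
      refine ⟨hfin.toFinset, ?_⟩
      rw [Set.Finite.coe_toFinset]
      exact Rb_dep hw hw0 hxN _
    have h1 : pr (fun ω => blkF w z ∈ L.Rb M w (u * w) ω) ≤
        pr (L.Arm true (bx (M * w + w / 2)) {v | nrm (v - (z.1 * w, z.2 * w)) ≤ w}
          {v | (|z.1 - u| - 1) * w ≤ nrm (v - (z.1 * w, z.2 * w))}) :=
      pr_mono hloc (Lat.Arm.loc L true _ _ _ hfin) fun ω hω => Rb_arm hw hw0 hn hω
    have h2 := H L hL true (z.1 * w, z.2 * w) w ((|z.1 - u| - 1) * w) (bx (M * w + w / 2))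
      {v | nrm (v - (z.1 * w, z.2 * w)) ≤ w}
      {v | (|z.1 - u| - 1) * w ≤ nrm (v - (z.1 * w, z.2 * w))} (by omega)
      (by nlinarith) hfin (fun _ hv => hv) (fun _ hv => hv)
    have hwR : (0 : ℝ) < (w : ℝ) := by exact_mod_cast hw0
    have hnR : (2 : ℝ) ≤ ((|z.1 - u| : ℤ) : ℝ) := by exact_mod_cast hn
    have h3 : ((w : ℝ) / (((|z.1 - u| - 1) * w : ℤ) : ℝ)) ≤
        3 * (1 / (1 + ((|z.1 - u| : ℤ) : ℝ))) := by
      rw [Int.cast_mul, Int.cast_sub, Int.cast_one]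
      rw [mul_one_div, div_le_div_iff₀ (mul_pos (by linarith) hwR) (by linarith)]
      nlinarith
    have h4 : ((w : ℝ) / (((|z.1 - u| - 1) * w : ℤ) : ℝ)) ^ c ≤
        (3 * (1 / (1 + ((|z.1 - u| : ℤ) : ℝ)))) ^ c := by
      refine Real.rpow_le_rpow ?_ h3 hc.le
      rw [Int.cast_mul, Int.cast_sub, Int.cast_one]
      exact div_nonneg hwR.le (mul_nonneg (by linarith) hwR.le)
    have h5 : (3 * (1 / (1 + ((|z.1 - u| : ℤ) : ℝ)))) ^ c =
        3 ^ c * (1 / (1 + ((|z.1 - u| : ℤ) : ℝ))) ^ c :=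
      Real.mul_rpow (by norm_num) (by positivity)
    have h6 : (3 : ℝ) ^ c ≤ 3 := by
      calc (3 : ℝ) ^ c ≤ 3 ^ (1 : ℝ) :=
            Real.rpow_le_rpow_of_exponent_le (by norm_num) (by linarith)
        _ = 3 := Real.rpow_one 3
    calc pr (fun ω => blkF w z ∈ L.Rb M w (u * w) ω)
        ≤ C₁ * ((w : ℝ) / (((|z.1 - u| - 1) * w : ℤ) : ℝ)) ^ c := h1.trans h2
      _ ≤ C₁ * (3 * (1 / (1 + ((|z.1 - u| : ℤ) : ℝ))) ^ c) := by
          refine mul_le_mul_of_nonneg_left ?_ hC₁.le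
          rw [h5] at h4
          exact h4.trans (mul_le_mul_of_nonneg_right h6 hpos)
      _ ≤ (3 * C₁ + 2) * (1 / (1 + ((|z.1 - u| : ℤ) : ℝ))) ^ c := by
          have : (0 : ℝ) ≤ 2 * (1 / (1 + ((|z.1 - u| : ℤ) : ℝ))) ^ c :=
            mul_nonneg (by norm_num) hpos
          nlinarith

end XP

end SC

end

/-! ### from `Lib_MP_e0a489.FI7` -/

section

/-!
# MP_e0a489, module FI 7: two-time probability of the local event, products
-/

set_option autoImplicit false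

namespace SC

open Classical

namespace FI

private theorem fi7_locB (L : Lat) (x : Pt) (a b : ℤ) : Loc (L.EvB x a b) :=
  XP.loc_of_dep (XP.annAt_finite x a b) (Lat.EvB.dep L x a b)

private theorem fi7_locH (L : Lat) (N N' : ℤ) (E : Set Pt) (x : Pt) (a b : ℤ) :
    Loc (L.EvH N N' E x a b) :=
  XP.loc_of_dep (XP.annAt_finite _ a b) (Lat.EvH.dep L N N' E x a b)

private theorem fi7_locQ (L : Lat) (N N' : ℤ) (E : Set Pt) (x : Pt) (a b : ℤ) :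
    Loc (L.EvQ N N' E x a b) :=
  XP.loc_of_dep (XP.annAt_finite _ a b) (Lat.EvQ.dep L N N' E x a b)

private theorem fi7_and {A B : Cfg → Prop} {D D' : Set Pt} (hA : Dep A D) (hB : Dep B D') :
    Dep (fun ω => A ω ∧ B ω) (D ∪ D') := by
  intro ω ω' h
  have e1 := hA ω ω' fun v hv => h v (Or.inl hv)
  have e2 := hB ω ω' fun v hv => h v (Or.inr hv)
  show (A ω ∧ B ω) = (A ω' ∧ B ω')
  rw [e1, e2]

private theorem fi7_annf (r R : ℤ) (H : Set Pt) : (ann r R ∩ H).Finite := by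
  refine (XP.annAt_finite (0 : Pt) r R).subset ?_
  rintro v ⟨hv, -⟩
  show r < nrm (v - 0) ∧ nrm (v - 0) ≤ R
  rw [sub_zero]
  exact hv


theorem kt_kap {t : ℝ} (ht : 0 ≤ t) : Kap (kt t) := by
  intro v
  exact ⟨(Real.exp_pos _).le, Real.exp_le_one_iff.2 (by linarith)⟩

/-- the three parts are independent: `EvB.dep`, `EvH.dep`, `EvQ.dep`, `disj_BH`, `disj_BQ`, `disj_HQ`, `pr2_and`
(local by `XP` lemma `loc_of_dep`, `annAt_finite`) -/
theorem Ev_pr2 (L : Lat) (N N' : ℤ) (E : Set Pt) (x : Pt) {a b : ℤ} (ha : 0 ≤ a) (κ : Pt → ℝ) :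
    pr2 κ (L.Ev N N' E x a b) =
      pr2 κ (L.EvB x a (min (hm N N' x) b - 1)) *
        pr2 κ (L.EvH N N' E x (2 * max a (hm N N' x)) (min (hM N N' x) b - 1)) *
        pr2 κ (L.EvQ N N' E x (2 * max a (hM N N' x)) b) := by
  have hBQ := disj_BQ (N := N) (N' := N') (a := a) (b := b) (x := x) ha
  have hBH := disj_BH (N := N) (N' := N') (a := a) (b := b) (x := x) ha
  have hHQ := disj_HQ (N := N) (N' := N') (a := a) (b := b) (x := x) ha
  have lB := fi7_locB L x a (min (hm N N' x) b - 1)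
  have lH := fi7_locH L N N' E x (2 * max a (hm N N' x)) (min (hM N N' x) b - 1)
  have lQ := fi7_locQ L N N' E x (2 * max a (hM N N' x)) b
  have dB := Lat.EvB.dep L x a (min (hm N N' x) b - 1)
  have dH := Lat.EvH.dep L N N' E x (2 * max a (hm N N' x)) (min (hM N N' x) b - 1)
  have dQ := Lat.EvQ.dep L N N' E x (2 * max a (hM N N' x)) b
  have dHQ := fi7_and dH dQ
  have lHQ : Loc (fun ω => L.EvH N N' E x (2 * max a (hm N N' x)) (min (hM N N' x) b - 1) ω ∧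
      L.EvQ N N' E x (2 * max a (hM N N' x)) b ω) :=
    XP.loc_of_dep ((XP.annAt_finite _ _ _).union (XP.annAt_finite _ _ _)) dHQ
  have e1 := pr2_and lB lHQ dB dHQ (fun v hv hv' => hv'.elim (hBH v hv) (hBQ v hv)) κ
  have e2 := pr2_and lH lQ dH dQ (fun v hv => hHQ v hv) κ
  rw [e2] at e1
  rw [mul_assoc]
  exact e1

/-- the same for one configuration -/
theorem Ev_pr (L : Lat) (N N' : ℤ) (E : Set Pt) (x : Pt) {a b : ℤ} (ha : 0 ≤ a) :
    pr (L.Ev N N' E x a b) =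
      pr (L.EvB x a (min (hm N N' x) b - 1)) *
        pr (L.EvH N N' E x (2 * max a (hm N N' x)) (min (hM N N' x) b - 1)) *
        pr (L.EvQ N N' E x (2 * max a (hM N N' x)) b) := by
  have h := Ev_pr2 L N N' E x (a := a) (b := b) ha (fun _ => 1)
  have lB := fi7_locB L x a (min (hm N N' x) b - 1)
  have lH := fi7_locH L N N' E x (2 * max a (hm N N' x)) (min (hM N N' x) b - 1)
  have lQ := fi7_locQ L N N' E x (2 * max a (hM N N' x)) b
  have dB := Lat.EvB.dep L x a (min (hm N N' x) b - 1)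
  have dH := Lat.EvH.dep L N N' E x (2 * max a (hm N N' x)) (min (hM N N' x) b - 1)
  have dQ := Lat.EvQ.dep L N N' E x (2 * max a (hM N N' x)) b
  have lE : Loc (L.Ev N N' E x a b) :=
    XP.loc_of_dep ((XP.annAt_finite _ _ _).union
      ((XP.annAt_finite _ _ _).union (XP.annAt_finite _ _ _))) (fi7_and dB (fi7_and dH dQ))
  rw [pr2_one lE, pr2_one lB, pr2_one lH, pr2_one lQ] at h
  exact h

/-- If `a < b` the half plane part is (up to a permutation of the sites) an event `TwoH`: `dom_half`, `half_shape`, `pr2_via`.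
Here `b ≤ hM - 1`, `b ≤ N`, `b ≤ N'`. -/
theorem EvH_pr2 {L : Lat} {N N' : ℤ} {E : Set Pt} (hE : GoodE L N E) (hN : 0 < N) {x : Pt}
    {a b : ℤ} (ha : 0 ≤ a) (hab : a < b) (hb : b ≤ N) (hb' : b ≤ N') (h : b ≤ hM N N' x - 1)
    (t : ℝ) : ∃ (s : ℤ) (z : Pt) (H : Set Pt), HalfLike H ∧
      pr2 (kt t) (L.EvH N N' E x a b) =
        pr2 (kt t) (((L.rots s).shift z).TwoH (cH N N' x) H a b) := by
  have hy : ((yH N N' x).2 = -N' ∨ (yH N N' x).2 = N') ∧ |(yH N N' x).1| + b ≤ N - 1 ∨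
      ((yH N N' x).1 = -N ∨ (yH N N' x).1 = N) ∧ |(yH N N' x).2| + b ≤ N' := by
    by_cases hc : N - |x.1| < N' - |x.2|
    · right
      have hMe : hM N N' x = N' - |x.2| := by
        unfold hM
        exact max_eq_right hc.le
      unfold yH
      rw [if_pos hc]
      refine ⟨?_, by show |x.2| + b ≤ N'; omega⟩
      by_cases hx : x.1 ≤ 0
      · left
        simp only [if_pos hx]
      · right
        simp only [if_neg hx]
    · left
      have hMe : hM N N' x = N - |x.1| := by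
        unfold hM
        exact max_eq_left (not_lt.1 hc)
      unfold yH
      rw [if_neg hc]
      refine ⟨?_, by show |x.1| + b ≤ N - 1; omega⟩
      by_cases hx : x.2 ≤ 0
      · left
        simp only [if_pos hx]
      · right
        simp only [if_neg hx]
  obtain ⟨s, h1, h2⟩ := dom_half hE (R := b) (by omega) hN hb hb' hy
  obtain ⟨z, H, hH, hiff⟩ := half_shape L (cH N N' x) (dom N N' E) s (yH N N' x) a b h1 h2
  refine ⟨s, z, H, hH, ?_⟩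
  have e1 : L.EvH N N' E x a b = fun ω =>
      ((L.rots s).shift z).TwoH (cH N N' x) H a b (via (rt s * Equiv.addRight z) ω) := by
    funext ω
    apply propext
    constructor
    · intro h'
      exact (hiff ω).1 (h' hab)
    · intro h' _
      exact (hiff ω).2 h'
  have lT : Loc (((L.rots s).shift z).TwoH (cH N N' x) H a b) :=
    Lat.Two.loc _ _ _ _ _ (fi7_annf a b H)
  rw [e1, pr2_via lT]
  rfl

/-- Corner part: `dom_quart`, `quart_shape`, `pr2_via`. -/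
theorem EvQ_pr2 {L : Lat} {N N' : ℤ} {E : Set Pt} (hE : GoodE L N E) (hN : 0 < N) {x : Pt}
    {a b : ℤ} (ha : 0 ≤ a) (hab : a < b) (hb : b ≤ N) (hb' : b ≤ N') (t : ℝ) :
    ∃ (s : ℤ) (z : Pt) (H : Set Pt), QuartLike H ∧
      pr2 (kt t) (L.EvQ N N' E x a b) = pr2 (kt t) (((L.rots s).shift z).TwoQ H a b) := by
  have hy1 : (yQ N N' x).1 = -N ∨ (yQ N N' x).1 = N := by
    unfold yQ
    by_cases hx : x.1 ≤ 0
    · left
      simp only [if_pos hx]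
    · right
      simp only [if_neg hx]
  have hy2 : (yQ N N' x).2 = -N' ∨ (yQ N N' x).2 = N' := by
    unfold yQ
    by_cases hx : x.2 ≤ 0
    · left
      simp only [if_pos hx]
    · right
      simp only [if_neg hx]
  obtain ⟨s, h1, h2⟩ := dom_quart hE (R := b) (by omega) hN hb hb' hy1 hy2
  obtain ⟨z, H, hH, hiff⟩ := quart_shape L (dom N N' E) s (yQ N N' x) a b h1 h2
  refine ⟨s, z, H, hH, ?_⟩
  have e1 : L.EvQ N N' E x a b = fun ω =>
      ((L.rots s).shift z).TwoQ H a b (via (rt s * Equiv.addRight z) ω) := by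
    funext ω
    apply propext
    constructor
    · intro h'
      exact (hiff ω).1 (h' hab)
    · intro h' _
      exact (hiff ω).2 h'
  have lT : Loc (((L.rots s).shift z).TwoQ H a b) := by
    refine XP.loc_of_dep (fi7_annf a b H) ?_
    intro ω ω' h
    apply propext
    constructor
    · intro h' c
      have h3 := Lat.Arm.dep ((L.rots s).shift z) c (ann a b ∩ H)
        (((L.rots s).shift z).nb (bx a)) (rng b) ω ω' h
      rw [← h3]
      exact h' c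
    · intro h' c
      have h3 := Lat.Arm.dep ((L.rots s).shift z) c (ann a b ∩ H)
        (((L.rots s).shift z).nb (bx a)) (rng b) ω ω' h
      rw [h3]
      exact h' c
  rw [e1, pr2_via lT]
  rfl

end FI

end SC

end

/-! ### from `Lib_MP_e0a489.FI8` -/

section

/-!
# MP_e0a489, module FI 8: two-time probability of the local event, bound by `gg`
-/

set_option autoImplicit false

namespace SC

open Classical

namespace FI

/-- the two-time bounds at time `t` for inner radii at least `r₀` -/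
structure TB (L : Lat) (M : ℝ) (r₀ : ℤ) (t : ℝ) : Prop where
  t0 : 0 ≤ t
  M1 : 1 ≤ M
  bulk : ∀ (c : Bool) (x : Pt) (r R : ℤ), r₀ ≤ r → r ≤ R →
    pr2 (kt t) (L.TwoAt c x r R) ≤ M * (al L r R) ^ 2
  half : ∀ (s : ℤ) (c : Bool) (x : Pt) (H : Set Pt) (r R : ℤ), HalfLike H → r₀ ≤ r → r ≤ R →
    pr2 (kt t) (((L.rots s).shift x).TwoH c H r R) ≤ M * (al L r R) ^ ((3 : ℝ) / 2)
  quart : ∀ (s : ℤ) (x : Pt) (H : Set Pt) (r R : ℤ), QuartLike H → r₀ ≤ r → r ≤ R →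
    pr2 (kt t) (((L.rots s).shift x).TwoQ H r R) ≤ M * al L r R

private theorem fi8_al_one (L : Lat) {a b : ℤ} (h : ¬ a < b) : al L a b = 1 := by
  unfold al
  rw [if_neg h]

/-- If `a < b` the event is `TwoAt`; otherwise it is always true, `al L a b = 1` and `pr2 ≤ 1 ≤ M`. -/
theorem EvB_le {L : Lat} {M t : ℝ} {r₀ : ℤ} (hT : TB L M r₀ t) {x : Pt} {a b : ℤ}
    (ha : r₀ ≤ a) : pr2 (kt t) (L.EvB x a b) ≤ M * al L a b ^ 2 := by
  by_cases hab : a < b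
  · have e : L.EvB x a b = L.TwoAt true x a b := by
      funext ω
      apply propext
      constructor
      · intro h
        exact h hab
      · intro h _
        exact h
    rw [e]
    exact hT.bulk true x a b ha hab.le
  · rw [fi8_al_one L hab, one_pow, mul_one]
    have hloc : Loc (L.EvB x a b) := XP.loc_of_dep (XP.annAt_finite x a b) (Lat.EvB.dep L x a b)
    exact (pr2_le_one hloc (kt_kap hT.t0)).trans hT.M1

/-- `EvH_pr2`, `TB.half`. -/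
theorem EvH_le {L : Lat} {M t : ℝ} {r₀ : ℤ} (hT : TB L M r₀ t) {N N' : ℤ} {E : Set Pt}
    (hE : GoodE L N E) (hN : 0 < N) {x : Pt} {a b : ℤ} (h0 : 0 ≤ a) (ha : r₀ ≤ a) (hb : b ≤ N)
    (hb' : b ≤ N') (h : b ≤ hM N N' x - 1) :
    pr2 (kt t) (L.EvH N N' E x a b) ≤ M * al L a b ^ ((3 : ℝ) / 2) := by
  by_cases hab : a < b
  · obtain ⟨s, z, H, hH, e⟩ := EvH_pr2 hE hN h0 hab hb hb' h t
    rw [e]
    exact hT.half s (cH N N' x) z H a b hH ha hab.le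
  · rw [fi8_al_one L hab, Real.one_rpow, mul_one]
    have hloc : Loc (L.EvH N N' E x a b) :=
      XP.loc_of_dep (XP.annAt_finite _ a b) (Lat.EvH.dep L N N' E x a b)
    exact (pr2_le_one hloc (kt_kap hT.t0)).trans hT.M1

/-- `EvQ_pr2`, `TB.quart`. -/
theorem EvQ_le {L : Lat} {M t : ℝ} {r₀ : ℤ} (hT : TB L M r₀ t) {N N' : ℤ} {E : Set Pt}
    (hE : GoodE L N E) (hN : 0 < N) {x : Pt} {a b : ℤ} (h0 : 0 ≤ a) (ha : r₀ ≤ a) (hb : b ≤ N)
    (hb' : b ≤ N') : pr2 (kt t) (L.EvQ N N' E x a b) ≤ M * al L a b := by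
  by_cases hab : a < b
  · obtain ⟨s, z, H, hH, e⟩ := EvQ_pr2 hE hN h0 hab hb hb' t
    rw [e]
    exact hT.quart s z H a b hH ha hab.le
  · rw [fi8_al_one L hab, mul_one]
    have hloc : Loc (L.EvQ N N' E x a b) :=
      XP.loc_of_dep (XP.annAt_finite _ a b) (Lat.EvQ.dep L N N' E x a b)
    exact (pr2_le_one hloc (kt_kap hT.t0)).trans hT.M1

/-- `Ev_pr2`, the three bounds, `AG.three_sq` for `f = al L`; `C' = max 1 (M ^ 3 * C'')`. -/
theorem Ev_le {L : Lat} {C γ M : ℝ} {R₀ : ℤ} (hG : AG (al L) C γ R₀) (hM : 1 ≤ M) :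
    ∃ C' : ℝ, 1 ≤ C' ∧
    ∀ (t : ℝ) (r₀ : ℤ), R₀ ≤ r₀ → TB L M r₀ t → ∀ (N N' : ℤ) (E : Set Pt) (x : Pt) (a b : ℤ),
      GoodE L N E → 0 < N → r₀ ≤ a → a ≤ b → b ≤ N → b ≤ N' →
      pr2 (kt t) (L.Ev N N' E x a b) ≤ C' * gg (al L) γ N N' a b x := by
  have hM0 : 0 ≤ M := by linarith
  clear hM
  obtain ⟨C₂, hC₂, H⟩ := hG.three_sq
  refine ⟨max 1 (M ^ 3 * C₂), le_max_left _ _, ?_⟩
  intro t r₀ hr hT N N' E x a b hE hN ha hab hb hb'
  have h16 := hG.R16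
  have ha0 : 0 ≤ a := by omega
  have hm0 : a ≤ max a (hm N N' x) := le_max_left _ _
  have hM0' : a ≤ max a (hM N N' x) := le_max_left _ _
  have hk := kt_kap hT.t0
  have b1 : pr2 (kt t) (L.EvB x a (min (hm N N' x) b - 1)) ≤
      M * al L a (min (hm N N' x) b - 1) ^ 2 := EvB_le hT ha
  have b2 : pr2 (kt t) (L.EvH N N' E x (2 * max a (hm N N' x)) (min (hM N N' x) b - 1)) ≤
      M * al L (2 * max a (hm N N' x)) (min (hM N N' x) b - 1) ^ ((3 : ℝ) / 2) :=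
    EvH_le hT hE hN (by omega) (by omega) (by omega) (by omega) (by omega)
  have b3 : pr2 (kt t) (L.EvQ N N' E x (2 * max a (hM N N' x)) b) ≤
      M * al L (2 * max a (hM N N' x)) b :=
    EvQ_le hT hE hN (by omega) (by omega) hb hb'
  have n1 := pr2_nonneg (L.EvB x a (min (hm N N' x) b - 1)) hk
  have n2 := pr2_nonneg (L.EvH N N' E x (2 * max a (hm N N' x)) (min (hM N N' x) b - 1)) hk
  have n3 := pr2_nonneg (L.EvQ N N' E x (2 * max a (hM N N' x)) b) hk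
  have k1 : 0 ≤ al L a (min (hm N N' x) b - 1) := hG.nn _ _
  have k2 : 0 ≤ al L (2 * max a (hm N N' x)) (min (hM N N' x) b - 1) := hG.nn _ _
  have k3 : 0 ≤ al L (2 * max a (hM N N' x)) b := hG.nn _ _
  have h3 := H a b N N' x (by omega) hab
  have hp : 0 ≤ al L a (min (hm N N' x) b - 1) ^ 2 *
      al L (2 * max a (hm N N' x)) (min (hM N N' x) b - 1) ^ (3 / 2 : ℝ) *
      al L (2 * max a (hM N N' x)) b := by positivity
  have hg : 0 ≤ gg (al L) γ N N' a b x := by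
    by_contra hneg
    have := mul_neg_of_pos_of_neg hC₂ (not_le.1 hneg)
    linarith
  rw [Ev_pr2 L N N' E x ha0]
  calc pr2 (kt t) (L.EvB x a (min (hm N N' x) b - 1)) *
        pr2 (kt t) (L.EvH N N' E x (2 * max a (hm N N' x)) (min (hM N N' x) b - 1)) *
        pr2 (kt t) (L.EvQ N N' E x (2 * max a (hM N N' x)) b)
      ≤ (M * al L a (min (hm N N' x) b - 1) ^ 2) *
        (M * al L (2 * max a (hm N N' x)) (min (hM N N' x) b - 1) ^ ((3 : ℝ) / 2)) *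
        (M * al L (2 * max a (hM N N' x)) b) := by
        apply mul_le_mul _ b3 n3 (by positivity)
        exact mul_le_mul b1 b2 n2 (by positivity)
    _ = M ^ 3 * (al L a (min (hm N N' x) b - 1) ^ 2 *
        al L (2 * max a (hm N N' x)) (min (hM N N' x) b - 1) ^ (3 / 2 : ℝ) *
        al L (2 * max a (hM N N' x)) b) := by ring
    _ ≤ M ^ 3 * (C₂ * gg (al L) γ N N' a b x) :=
        mul_le_mul_of_nonneg_left h3 (pow_nonneg hM0 3)
    _ = (M ^ 3 * C₂) * gg (al L) γ N N' a b x := by ring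
    _ ≤ max 1 (M ^ 3 * C₂) * gg (al L) γ N N' a b x :=
        mul_le_mul_of_nonneg_right (le_max_right _ _) hg

/-- `cl p n n = n`, `al L n n = 1` -/
theorem gg_self {f : ℤ → ℤ → ℝ} {γ : ℝ} (hf : ∀ n, f n n = 1) (N N' : ℤ) {n : ℤ} (hn : 0 < n)
    (x : ℤ × ℤ) : gg f γ N N' n n x = 1 := by
  have hcl : ∀ p : ℤ, cl p n n = n := by
    intro p
    unfold cl
    omega
  have hn' : (n : ℝ) ≠ 0 := by exact_mod_cast hn.ne'
  unfold gg
  rw [hcl, hcl, hf, div_self hn', Real.one_rpow]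
  norm_num

end FI

end SC

end
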