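import Mathlib
import Pool.Agent.Lib_MP_e0a489_m.G05
import Pool.Agent.Lib_MP_e0a489_m.G07
import Pool.Agent.Lib_MP_e0a489_m.G08
import Pool.Agent.Lib_MP_e0a489_m.G10
import Pool.Agent.Lib_MP_e0a489_m.G12
import Pool.Agent.Lib_MP_e0a489_m.G13
import Pool.Agent.Lib_MP_e0a489_m.G16
import Pool.Agent.Lib_MP_e0a489_m.G18
import Pool.Agent.Lib_MP_e0a489_m.G19
import Pool.Agent.Lib_MP_e0a489_m.G20

/-!
# MP_e0a489_pr: merged library part G23

Concatenation of library files (each in its own section), only to save build time.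
-/

/-! ### from `Lib_MP_e0a489.FT5` -/

section

/-!
# MP_e0a489, foot lemma, final statement

The half box `rect (-2β) (2β) 0 (2β)`; an alternate triple: three sites `x₁ < x₂ < x₃` of the bottom row within
distance `a`, in the middle half, with arms of colours `c, !c, c` to the other three sides
(definitions `hbo` and `Lat.Alt3` in `FT1.lean`).
-/

set_option autoImplicit false

namespace SC

open Classical

/-- FOOT LEMMA.
Proof.  If `κ 4 ≤ 0` there is no `L` with `RSW L κ` (`RSW.pos`); take `C = 1`, `c = 1/2`.  Let `0 < κ 4`, `q = κ 4 ^ 3`, `C₀`, `c` the constants of `bad_le`, and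
`C = max 2 (C₀ / q)`.  For `β < 4`: `a/β ≥ 1/3`, `(a/β)^c ≥ (1/3)^(1/2) ≥ 1/2`, so the right side is `≥ 1 ≥ pr` (`pr_le_one`; for `0 < y ≤ 1`, `c ≤ 1/2`:
`y^c ≥ y^(1/2) = sqrt y`).  For `β ≥ 4`: `Alt3 → ∃ i ∈ range n, Bad i` (`alt_bad`, `n = 2 * (HbF β).card`), so by `pr_mono`, `pr_ex_le`, `bad_le`, `ef_le`
`pr Alt3 ≤ ∑_{i<n} C₀ (a/β)^c (1-q)^i ≤ C₀ (a/β)^c / q` (`geom_sum`, `0 < q ≤ 1`).  `Loc`: `Bad_dep`, `coe_HbF`; `Alt3` depends on `HbF β` (the three arms are `Cn` in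
`Hb β ∩ col`). -/
theorem foot (κ : ℕ → ℝ) : ∃ C c : ℝ, 0 < C ∧ 0 < c ∧ c ≤ 1 / 2 ∧ ∀ L : Lat, RSW L κ →
    ∀ β a : ℤ, 1 ≤ a → a ≤ β → pr (L.Alt3 β a) ≤ C * ((a : ℝ) / β) ^ c := by
  by_cases hκ : 0 < κ 4
  · obtain ⟨C₀, c, hC₀, hc, hc2, hb⟩ := bad_le κ
    have hq0 : 0 < κ 4 ^ 3 := by positivity
    refine ⟨max 2 (C₀ / κ 4 ^ 3), c, lt_max_of_lt_left (by norm_num), hc, hc2,
      fun L h β a ha haβ => ?_⟩
    have ha0 : (1 : ℝ) ≤ a := by exact_mod_cast ha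
    have hβ0 : (1 : ℝ) ≤ β := by exact_mod_cast ha.trans haβ
    have hab : (a : ℝ) ≤ β := by exact_mod_cast haβ
    have hy0 : (0 : ℝ) < (a : ℝ) / β := by positivity
    have hpos : 0 ≤ ((a : ℝ) / β) ^ c := by positivity
    by_cases h4 : 4 ≤ β
    · have hlocB : ∀ i, Loc (L.Bad β a i) := fun i =>
        ⟨HbF β, by rw [coe_HbF]; exact Lat.Bad_dep L β a i⟩
      have hlocA : Loc (L.Alt3 β a) := ⟨HbF β, by rw [coe_HbF]; exact Lat.Alt3_dep L β a⟩
      have hloc : Loc (fun ω => ∃ i ∈ Finset.range (2 * (HbF β).card), L.Bad β a i ω) := by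
        refine ⟨HbF β, fun ω ω' hω => ?_⟩
        have h5 : ∀ i, L.Bad β a i ω = L.Bad β a i ω' := fun i =>
          Lat.Bad_dep L β a i ω ω' (by rw [← coe_HbF]; exact hω)
        simp only [h5]
      have h1 : pr (L.Alt3 β a) ≤ ∑ i ∈ Finset.range (2 * (HbF β).card), pr (L.Bad β a i) :=
        (pr_mono hlocA hloc fun ω hω => Lat.alt_bad hω).trans (pr_ex_le fun i _ => hlocB i)
      have h2 : ∑ i ∈ Finset.range (2 * (HbF β).card), pr (L.Bad β a i) ≤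
          ∑ i ∈ Finset.range (2 * (HbF β).card), C₀ * ((a : ℝ) / β) ^ c * (1 - κ 4 ^ 3) ^ i := by
        refine Finset.sum_le_sum fun i _ => (hb L h β a i ha haβ).trans ?_
        exact mul_le_mul_of_nonneg_left (ef_le h h4 i) (by positivity)
      rw [← Finset.mul_sum] at h2
      have h3 : (∑ i ∈ Finset.range (2 * (HbF β).card), (1 - κ 4 ^ 3) ^ i) ≤ 1 / κ 4 ^ 3 := by
        have h6 := geom_sum_mul (1 - κ 4 ^ 3) (2 * (HbF β).card)
        have h7 : 0 ≤ 1 - κ 4 ^ 3 := by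
          have := (pr_nonneg _).trans (ef_le h h4 1)
          simpa using this
        have h8 := pow_nonneg h7 (2 * (HbF β).card)
        rw [le_div_iff₀ hq0]
        linarith
      calc pr (L.Alt3 β a) ≤ C₀ * ((a : ℝ) / β) ^ c *
            ∑ i ∈ Finset.range (2 * (HbF β).card), (1 - κ 4 ^ 3) ^ i := h1.trans h2
        _ ≤ C₀ * ((a : ℝ) / β) ^ c * (1 / κ 4 ^ 3) :=
            mul_le_mul_of_nonneg_left h3 (by positivity)
        _ = C₀ / κ 4 ^ 3 * ((a : ℝ) / β) ^ c := by ring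
        _ ≤ _ := mul_le_mul_of_nonneg_right (le_max_right _ _) hpos
    · have hβ3 : (β : ℝ) ≤ 3 := by exact_mod_cast (by omega : β ≤ 3)
      have h5 : (1 / 4 : ℝ) ≤ (a : ℝ) / β := by
        rw [div_le_div_iff₀ (by norm_num) (by linarith)]
        linarith
      have h6 : (a : ℝ) / β ≤ 1 := by
        rw [div_le_one (by linarith)]
        exact hab
      have h7 : ((a : ℝ) / β) ^ (1 / 2 : ℝ) ≤ ((a : ℝ) / β) ^ c :=
        Real.rpow_le_rpow_of_exponent_ge hy0 h6 hc2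
      have h8 : ((1 / 4 : ℝ)) ^ (1 / 2 : ℝ) ≤ ((a : ℝ) / β) ^ (1 / 2 : ℝ) :=
        Real.rpow_le_rpow (by norm_num) h5 (by norm_num)
      have h9 : ((1 / 4 : ℝ)) ^ (1 / 2 : ℝ) = 1 / 2 := by
        rw [show (1 / 4 : ℝ) = (1 / 2) ^ (2 : ℝ) by norm_num, ← Real.rpow_mul (by norm_num)]
        norm_num
      have h10 : (1 : ℝ) ≤ 2 * ((a : ℝ) / β) ^ c := by linarith
      exact (pr_le_one _).trans (h10.trans (mul_le_mul_of_nonneg_right (le_max_left _ _) hpos))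
  · exact ⟨1, 1 / 2, by norm_num, by norm_num, le_rfl, fun L h => absurd (h.pos 4) hκ⟩

end SC

end

/-! ### from `Lib_MP_e0a489.SH2` -/

section

/-!
# MP_e0a489, shared by OS and IS, 2: the bad event, dependence and probability
-/

set_option autoImplicit false

namespace SC

open Classical

namespace Lat

private theorem sh2_alt3 (L : Lat) (β a : ℤ) :
    Dep (L.Alt3 β a) (rect (-(2 * β)) (2 * β) 0 (2 * β)) := by
  intro ω ω' h
  have h1 : ∀ (c : Bool) (x : ℤ), L.Arm c (rect (-(2 * β)) (2 * β) 0 (2 * β)) {(x, 0)} (hbo β) ω =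
      L.Arm c (rect (-(2 * β)) (2 * β) 0 (2 * β)) {(x, 0)} (hbo β) ω' :=
    fun c x => Arm.dep L c _ _ _ ω ω' h
  unfold Lat.Alt3
  simp only [h1]

/-- `Arm.dep` in the transported lattice: if `ω` and `ω'` agree on the image of the half box under `we`, then
`via (we ..) ω` and `via (we ..) ω'` agree on the half box. -/
theorem Tri.dep (L : Lat) (o : Bool) (m s y₀ β a : ℤ) :
    Dep (L.Tri o m s y₀ β a) (we o m s y₀ '' rect (-(2 * β)) (2 * β) 0 (2 * β)) := by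
  intro ω ω' h
  unfold Lat.Tri
  refine sh2_alt3 _ β a _ _ (fun v hv => ?_)
  exact h _ ⟨v, hv, rfl⟩

/-- `Arm.dep`, `Tri.dep`, `we_true_nrm`, `we_false_nrm` -/
theorem BadW.dep (L : Lat) {o : Bool} {D A : Set Pt} {m ρ ℓ β a : ℤ} (hβ : 1 ≤ β) (hD : D ⊆ A)
    (h1 : o = true → ∀ v, m ≤ nrm v → nrm v ≤ m + 2 * β → v ∈ A)
    (h2 : o = false → ∀ v, m - 2 * β ≤ nrm v → nrm v ≤ m → v ∈ A) :
    Dep (L.BadW o D m ρ ℓ β a) A := by
  have key : ∀ ω ω' : Cfg, (∀ v ∈ A, ω v = ω' v) → L.BadW o D m ρ ℓ β a ω →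
      L.BadW o D m ρ ℓ β a ω' := by
    intro ω ω' h hb
    rcases hb with ⟨b, s, hs, hc⟩ | ⟨s, hs, j, hj, hlt, ht⟩
    · refine Or.inl ⟨b, s, hs, ?_⟩
      unfold Lat.Crn at hc ⊢
      have e := Arm.dep L b (D ∩ {v | nrm (v - rt s (m, m)) ≤ ℓ})
        {v | nrm (v - rt s (m, m)) ≤ ρ} {v | ℓ ≤ nrm (v - rt s (m, m))} ω ω'
        (fun v hv => h v (hD hv.1))
      rw [← e]
      exact hc
    · refine Or.inr ⟨s, hs, j, hj, hlt, ?_⟩
      have e := Tri.dep L o m s (β * j) β a ω ω' (by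
        rintro u ⟨v, hv, rfl⟩
        apply h
        cases o with
        | true =>
          obtain ⟨e1, e2⟩ := we_true_nrm (s := s) (by linarith) hlt hv
          exact h1 rfl _ e1 e2
        | false =>
          obtain ⟨e1, e2⟩ := we_false_nrm (s := s) (by linarith) hlt hv
          exact h2 rfl _ e1 e2)
      rw [← e]
      exact ht
  intro ω ω' h
  exact propext ⟨key ω ω' h, key ω' ω (fun v hv => (h v hv).symm)⟩

end Lat

/-- `foot` for the transported lattice `wl L o m s y₀` (`rsw_wl`, `pr_via`; `Alt3` is local: `Arm.dep`, the half box is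
finite). -/
theorem tri_pr (κ : ℕ → ℝ) : ∃ C c : ℝ, 0 < C ∧ 0 < c ∧ c ≤ 1 / 2 ∧ ∀ L : Lat, RSW L κ →
    ∀ (o : Bool) (m s y₀ β a : ℤ), 1 ≤ a → a ≤ β →
      pr (L.Tri o m s y₀ β a) ≤ C * ((a : ℝ) / β) ^ c := by
  obtain ⟨C, c, hC, hc, hc2, h⟩ := foot κ
  refine ⟨C, c, hC, hc, hc2, ?_⟩
  intro L hL o m s y₀ β a h1 h2
  have hf : (rect (-(2 * β)) (2 * β) 0 (2 * β)).Finite := by
    have hs : rect (-(2 * β)) (2 * β) 0 (2 * β) ⊆
        Set.Icc (-(2 * β)) (2 * β) ×ˢ Set.Icc 0 (2 * β) := by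
      rintro v ⟨e1, e2⟩
      exact ⟨e1, e2⟩
    exact ((Set.finite_Icc _ _).prod (Set.finite_Icc _ _)).subset hs
  have hl : Loc ((wl L o m s y₀).Alt3 β a) :=
    ⟨hf.toFinset, (Lat.sh2_alt3 _ β a).mono (by rw [Set.Finite.coe_toFinset])⟩
  have e : pr (L.Tri o m s y₀ β a) = pr ((wl L o m s y₀).Alt3 β a) :=
    pr_via hl (we o m s y₀)
  rw [e]
  exact h (wl L o m s y₀) (rsw_wl hL o m s y₀) β a h1 h2

end SC

end

/-! ### from `Lib_MP_e0a489.SH3` -/

section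

/-!
# MP_e0a489, shared by OS and IS, 3: probability of the bad event
-/

set_option autoImplicit false

namespace SC

open Classical

private theorem sh3_loc_of_dep {A : Cfg → Prop} {D : Set Pt} (h : Dep A D) (hD : D.Finite) :
    Loc A := by
  refine ⟨hD.toFinset, ?_⟩
  rw [hD.coe_toFinset]
  exact h

private theorem sh3_rect_finite (a b p q : ℤ) : (rect a b p q).Finite := by
  refine ((Set.finite_Icc a b).prod (Set.finite_Icc p q)).subset ?_
  rintro v ⟨⟨h1, h2⟩, h3, h4⟩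
  exact ⟨⟨h1, h2⟩, h3, h4⟩

private theorem sh3_loc_ex {ι : Type} {I : Finset ι} {A : ι → Cfg → Prop}
    (h : ∀ i ∈ I, Loc (A i)) : Loc (fun ω => ∃ i ∈ I, A i ω) := by
  choose F hF using h
  refine ⟨I.attach.biUnion fun i => F i.1 i.2, ?_⟩
  intro ω ω' H
  refine propext ⟨?_, ?_⟩
  · rintro ⟨i, hi, h⟩
    refine ⟨i, hi, ?_⟩
    rw [← hF i hi ω ω' fun v hv => H v (Finset.mem_coe.2
      (Finset.mem_biUnion.2 ⟨⟨i, hi⟩, Finset.mem_attach _ _, Finset.mem_coe.1 hv⟩))]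
    exact h
  · rintro ⟨i, hi, h⟩
    refine ⟨i, hi, ?_⟩
    rw [hF i hi ω ω' fun v hv => H v (Finset.mem_coe.2
      (Finset.mem_biUnion.2 ⟨⟨i, hi⟩, Finset.mem_attach _ _, Finset.mem_coe.1 hv⟩))]
    exact h

private theorem sh3_rpow {x y : ℤ} {c c' : ℝ} (hx : 1 ≤ x) (hxy : x ≤ y) (hc : c ≤ c') :
    ((x : ℝ) / y) ^ c' ≤ ((x : ℝ) / y) ^ c := by
  have hx' : (0 : ℝ) < x := by exact_mod_cast (by omega : 0 < x)
  have hy' : (0 : ℝ) < y := by exact_mod_cast (by omega : 0 < y)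
  refine Real.rpow_le_rpow_of_exponent_ge (by positivity) ?_ hc
  rw [div_le_one hy']
  exact_mod_cast hxy

/-- Union bound (`pr_or_le`, `pr_ex_le`): `8` corner events (`one_arm'` for the centre `rt s (m, m)`), `4` sides times
at most `2 (m / β) + 1 ≤ 3 m / β` windows (`tri_pr`).  If `C₁, c₁` are the constants of `one_arm'` and `C₂, c₂` those of
`tri_pr` take `C = max (8 C₁) (12 C₂)`, `c = min c₁ c₂` (the ratios are at most one, so the powers with the smaller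
exponent are larger: `Real.rpow_le_rpow_of_exponent_ge`).  All events are local (`Arm.loc`, `Tri.dep`). -/
theorem bad_pr (κ : ℕ → ℝ) : ∃ C c : ℝ, 0 < C ∧ 0 < c ∧ c ≤ 1 / 2 ∧ ∀ L : Lat, RSW L κ →
    ∀ (o : Bool) (D : Set Pt) (m ρ ℓ β a : ℤ), D.Finite → 1 ≤ ρ → ρ ≤ ℓ → 1 ≤ a → a ≤ β → β ≤ m →
      pr (L.BadW o D m ρ ℓ β a) ≤
        C * ((ρ : ℝ) / ℓ) ^ c + C * ((m : ℝ) / β) * ((a : ℝ) / β) ^ c := by
  obtain ⟨C₁, c₁, hC₁, hc₁, hc₁', H₁⟩ := one_arm' κ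
  obtain ⟨C₂, c₂, hC₂, hc₂, hc₂', H₂⟩ := tri_pr κ
  refine ⟨max (8 * C₁) (12 * C₂), min c₁ c₂, lt_max_of_lt_left (by positivity), lt_min hc₁ hc₂,
    (min_le_left _ _).trans hc₁', fun L hL o D m ρ ℓ β a hD hρ hρℓ ha haβ hβm => ?_⟩
  have hβ : 1 ≤ β := ha.trans haβ
  have locC : ∀ b s, Loc (L.Crn b D m s ρ ℓ) := fun b s =>
    Lat.Arm.loc L b _ _ _ (hD.subset Set.inter_subset_left)
  have prC : ∀ b s, pr (L.Crn b D m s ρ ℓ) ≤ C₁ * ((ρ : ℝ) / ℓ) ^ c₁ := fun b s =>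
    H₁ L hL b (rt s (m, m)) ρ ℓ _ _ _ hρ hρℓ (hD.subset Set.inter_subset_left)
      (fun v hv => hv) (fun v hv => hv)
  have locT : ∀ s y, Loc (L.Tri o m s y β a) := fun s y =>
    sh3_loc_of_dep (Lat.Tri.dep L o m s y β a) ((sh3_rect_finite _ _ _ _).image _)
  have prT : ∀ s y, pr (L.Tri o m s y β a) ≤ C₂ * ((a : ℝ) / β) ^ c₂ := fun s y =>
    H₂ L hL o m s y β a ha haβ
  -- the events
  let E₁ : Cfg → Prop := fun ω => ∃ i ∈ (Finset.univ : Finset Bool) ×ˢ Finset.Icc (0 : ℤ) 3,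
    L.Crn i.1 D m i.2 ρ ℓ ω
  let E₂ : Cfg → Prop := fun ω => ∃ i ∈ Finset.Icc (0 : ℤ) 3 ×ˢ Finset.Icc (-(m / β)) (m / β),
    L.Tri o m i.1 (β * i.2) β a ω
  have lE₁ : Loc E₁ := sh3_loc_ex fun i _ => locC i.1 i.2
  have lE₂ : Loc E₂ := sh3_loc_ex fun i _ => locT i.1 (β * i.2)
  have p₁ : pr E₁ ≤ 8 * (C₁ * ((ρ : ℝ) / ℓ) ^ c₁) := by
    refine (pr_ex_le fun i _ => locC i.1 i.2).trans ?_
    refine (Finset.sum_le_sum fun i _ => prC i.1 i.2).trans ?_
    rw [Finset.sum_const, Finset.card_product]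
    simp
  have hq : 1 ≤ m / β := by
    rw [Int.le_ediv_iff_mul_le (by omega)]
    omega
  have hq' : ((m / β : ℤ) : ℝ) ≤ (m : ℝ) / β := by
    have hβ0 : (0 : ℝ) < β := by exact_mod_cast (by omega : 0 < β)
    rw [le_div_iff₀ hβ0]
    exact_mod_cast Int.ediv_mul_le m (by omega)
  have p₂ : pr E₂ ≤ 12 * ((m : ℝ) / β) * (C₂ * ((a : ℝ) / β) ^ c₂) := by
    refine (pr_ex_le fun i _ => locT i.1 (β * i.2)).trans ?_
    refine (Finset.sum_le_sum fun i _ => prT i.1 (β * i.2)).trans ?_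
    rw [Finset.sum_const, Finset.card_product, nsmul_eq_mul]
    have h0 : 0 ≤ C₂ * ((a : ℝ) / β) ^ c₂ := (pr_nonneg _).trans (prT 0 0)
    refine mul_le_mul_of_nonneg_right ?_ h0
    have h1 : ((Finset.Icc (0 : ℤ) 3).card : ℝ) = 4 := by simp
    have h2 : ((Finset.Icc (-(m / β)) (m / β)).card : ℝ) = 2 * ((m / β : ℤ) : ℝ) + 1 := by
      have h3 : ((Finset.Icc (-(m / β)) (m / β)).card : ℤ) = 2 * (m / β) + 1 := by
        rw [Int.card_Icc, Int.toNat_of_nonneg (by omega)]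
        ring
      exact_mod_cast h3
    rw [Nat.cast_mul, h1, h2]
    have h4 : (1 : ℝ) ≤ ((m / β : ℤ) : ℝ) := by exact_mod_cast hq
    nlinarith
  have lB : Loc (L.BadW o D m ρ ℓ β a) := by
    have e : L.BadW o D m ρ ℓ β a = fun ω => E₁ ω ∨
        ∃ i ∈ Finset.Icc (0 : ℤ) 3 ×ˢ Finset.Icc (-(m / β)) (m / β),
          |β * i.2| + 2 * β < m ∧ L.Tri o m i.1 (β * i.2) β a ω := by
      funext ω
      refine propext ⟨?_, ?_⟩
      · rintro (⟨b, s, hs, h⟩ | ⟨s, hs, j, hj, h⟩)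
        · exact Or.inl ⟨(b, s), Finset.mem_product.2 ⟨Finset.mem_univ _, hs⟩, h⟩
        · exact Or.inr ⟨(s, j), Finset.mem_product.2 ⟨hs, hj⟩, h⟩
      · rintro (⟨⟨b, s⟩, hs, h⟩ | ⟨⟨s, j⟩, hs, h⟩)
        · exact Or.inl ⟨b, s, (Finset.mem_product.1 hs).2, h⟩
        · exact Or.inr ⟨s, (Finset.mem_product.1 hs).1, j, (Finset.mem_product.1 hs).2, h⟩
    rw [e]
    refine lE₁.or (sh3_loc_ex fun i _ => ?_)
    exact Loc.and ⟨∅, fun _ _ _ => rfl⟩ (locT i.1 (β * i.2))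
  have hle : pr (L.BadW o D m ρ ℓ β a) ≤ pr E₁ + pr E₂ := by
    refine (pr_mono lB (lE₁.or lE₂) fun ω hω => ?_).trans (pr_or_le lE₁ lE₂)
    rcases hω with ⟨b, s, hs, h⟩ | ⟨s, hs, j, hj, -, h⟩
    · exact Or.inl ⟨(b, s), Finset.mem_product.2 ⟨Finset.mem_univ _, hs⟩, h⟩
    · exact Or.inr ⟨(s, j), Finset.mem_product.2 ⟨hs, hj⟩, h⟩
  have hm0 : (0 : ℝ) < m := by exact_mod_cast (by omega : 0 < m)
  have hβ0 : (0 : ℝ) < β := by exact_mod_cast (by omega : 0 < β)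
  have hρ0 : (0 : ℝ) < ρ := by exact_mod_cast (by omega : 0 < ρ)
  have hℓ0 : (0 : ℝ) < ℓ := by exact_mod_cast (by omega : 0 < ℓ)
  have ha0 : (0 : ℝ) < a := by exact_mod_cast (by omega : 0 < a)
  have r₁ : ((ρ : ℝ) / ℓ) ^ c₁ ≤ ((ρ : ℝ) / ℓ) ^ min c₁ c₂ := sh3_rpow hρ hρℓ (min_le_left _ _)
  have r₂ : ((a : ℝ) / β) ^ c₂ ≤ ((a : ℝ) / β) ^ min c₁ c₂ := sh3_rpow ha haβ (min_le_right _ _)
  refine hle.trans (add_le_add (p₁.trans ?_) (p₂.trans ?_))
  · calc 8 * (C₁ * ((ρ : ℝ) / ℓ) ^ c₁) = (8 * C₁) * ((ρ : ℝ) / ℓ) ^ c₁ := by ring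
      _ ≤ max (8 * C₁) (12 * C₂) * ((ρ : ℝ) / ℓ) ^ min c₁ c₂ :=
        mul_le_mul (le_max_left _ _) r₁ (by positivity) (le_max_of_le_left (by positivity))
  · calc 12 * ((m : ℝ) / β) * (C₂ * ((a : ℝ) / β) ^ c₂)
        = (12 * C₂) * ((m : ℝ) / β) * ((a : ℝ) / β) ^ c₂ := by ring
      _ ≤ max (8 * C₁) (12 * C₂) * ((m : ℝ) / β) * ((a : ℝ) / β) ^ min c₁ c₂ := by
        refine mul_le_mul (mul_le_mul_of_nonneg_right (le_max_right _ _) (by positivity)) r₂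
          (by positivity) ?_
        exact mul_nonneg (le_max_of_le_left (by positivity)) (by positivity)

end SC

end

/-! ### from `Lib_MP_e0a489.OS12` -/

section

/-!
# MP_e0a489, outer separation 12: four arms to landing blocks give `E2o`
-/

set_option autoImplicit false

namespace SC

open Classical

/-- ORDER, a fine position after a coarse position.  `lex_of_idx` (`|(k + 1) μ w + μ w / 2| < R` because `|k| + 100 ≤ Mc`; `|y| < R`):
`s < s'` or (`s = s'` and `(k + 1) μ w + μ w / 2 < y ≤ k' w + 6 w`, so `k' + 6 > (k + 1) μ`, `k' > μ k + μ / 2` because `μ ≥ 100`). -/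
theorem os_ord_up {r R w M μ Mc s k s' k' y : ℤ} (h : OPar r R w M) (h' : OPar r R (μ * w) Mc)
    (hμ : 100 ≤ μ) (hk : |k| + 100 ≤ Mc) (hy : |y| + 100 * (μ * w) ≤ R)
    (hky : |k' * w - y| ≤ 6 * w) (hi : oei R (μ * w) s k < 2 * R * s' + y) :
    s < s' ∨ (s = s' ∧ μ * k + μ / 2 < k') := by
  have hw5 := h.w5
  have hW5 := h'.w5
  have hR := h'.eR
  have hW0 : 0 < μ * w := by omega
  have hw0 : 0 < w := by omega
  have hk1 := abs_le.1 (show |k| ≤ Mc - 100 by omega)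
  have e0 : (Mc - 100) * (μ * w) = Mc * (μ * w) - 100 * (μ * w) := by ring
  have e1 : k * (μ * w) ≤ (Mc - 100) * (μ * w) := mul_le_mul_of_nonneg_right hk1.2 hW0.le
  have e2 : -(Mc - 100) * (μ * w) ≤ k * (μ * w) := mul_le_mul_of_nonneg_right hk1.1 hW0.le
  have e3 : -(Mc - 100) * (μ * w) = -(Mc * (μ * w)) + 100 * (μ * w) := by ring
  have e4 : (k + 1) * (μ * w) = k * (μ * w) + μ * w := by ring
  have hy1 : |y| < R := by omega
  have hc : |(k + 1) * (μ * w) + μ * w / 2| < R := by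
    rw [abs_lt]
    constructor <;> omega
  unfold oei at hi
  have hi' : 2 * R * s + ((k + 1) * (μ * w) + μ * w / 2) < 2 * R * s' + y := by omega
  rcases lex_of_idx hc hy1 hi' with h1 | ⟨h1, h2⟩
  · exact Or.inl h1
  · refine Or.inr ⟨h1, ?_⟩
    have h3 := abs_le.1 hky
    have h4 : (k + 1) * μ * w < (k' + 6) * w := by
      have e5 : (k + 1) * μ * w = (k + 1) * (μ * w) := by ring
      have e6 : (k' + 6) * w = k' * w + 6 * w := by ring
      omega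
    have h5 : (k + 1) * μ < k' + 6 := lt_of_mul_lt_mul_right h4 hw0.le
    have e7 : (k + 1) * μ = μ * k + μ := by ring
    omega

/-- ORDER, a fine position before a coarse position -/
theorem os_ord_dn {r R w M μ Mc s k s' k' y : ℤ} (h : OPar r R w M) (h' : OPar r R (μ * w) Mc)
    (hμ : 100 ≤ μ) (hk : |k| + 100 ≤ Mc) (hy : |y| + 100 * (μ * w) ≤ R)
    (hky : |k' * w - y| ≤ 6 * w) (hi : 2 * R * s' + y < osi R (μ * w) s k) :
    s' < s ∨ (s' = s ∧ k' < μ * k - μ / 2) := by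
  have hw5 := h.w5
  have hW5 := h'.w5
  have hR := h'.eR
  have hW0 : 0 < μ * w := by omega
  have hw0 : 0 < w := by omega
  have hk1 := abs_le.1 (show |k| ≤ Mc - 100 by omega)
  have e0 : (Mc - 100) * (μ * w) = Mc * (μ * w) - 100 * (μ * w) := by ring
  have e1 : k * (μ * w) ≤ (Mc - 100) * (μ * w) := mul_le_mul_of_nonneg_right hk1.2 hW0.le
  have e2 : -(Mc - 100) * (μ * w) ≤ k * (μ * w) := mul_le_mul_of_nonneg_right hk1.1 hW0.le
  have e3 : -(Mc - 100) * (μ * w) = -(Mc * (μ * w)) + 100 * (μ * w) := by ring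
  have e4 : (k - 1) * (μ * w) = k * (μ * w) - μ * w := by ring
  have hy1 : |y| < R := by omega
  have hc : |(k - 1) * (μ * w) - μ * w / 2| < R := by
    rw [abs_lt]
    constructor <;> omega
  unfold osi at hi
  have hi' : 2 * R * s' + y < 2 * R * s + ((k - 1) * (μ * w) - μ * w / 2) := by omega
  rcases lex_of_idx hy1 hc hi' with h1 | ⟨h1, h2⟩
  · exact Or.inl h1
  · refine Or.inr ⟨h1, ?_⟩
    have h3 := abs_le.1 hky
    have h4 : (k' - 6) * w < (k - 1) * μ * w := by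
      have e5 : (k - 1) * μ * w = (k - 1) * (μ * w) := by ring
      have e6 : (k' - 6) * w = k' * w - 6 * w := by ring
      omega
    have h5 : k' - 6 < (k - 1) * μ := lt_of_mul_lt_mul_right h4 hw0.le
    have e7 : (k - 1) * μ = μ * k - μ := by ring
    omega

/-- the outer block depends on the side modulo 4 (`rt_mod`) -/
theorem os_ob_mod {w M s s' k : ℤ} (h : s % 4 = s' % 4) : ob w M s k = ob w M s' k := by
  unfold ob
  rw [rt_mod h]

private theorem OS12_lbo_mod {w μ Mc : ℤ} {c : Bool} {s s' k : ℤ} (h : s % 4 = s' % 4) :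
    lbo w μ Mc c s k = lbo w μ Mc c s' k := by
  unfold lbo
  split_ifs
  · exact os_ob_mod h
  · exact os_ob_mod h

private theorem OS12_abs_mul {μ Mc k : ℤ} (hμ : 100 ≤ μ) (hk : |k| + 100 ≤ Mc) :
    |μ * k| + 2 * μ + 20 ≤ μ * Mc + μ / 2 := by
  have h1 : |μ * k| = μ * |k| := by
    rw [abs_mul, abs_of_pos (by omega : (0 : ℤ) < μ)]
  rw [h1]
  have h2 : μ * |k| ≤ μ * (Mc - 100) := mul_le_mul_of_nonneg_left (by omega) (by omega)
  have h3 : μ * (Mc - 100) = μ * Mc - 100 * μ := by ring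
  omega

/-- FOUR ARMS GIVE `E2o`.  `land_of` for `s = ![s₁, s₂, s₃, s₄]`, `k = ![k₁, k₂, k₃, k₄]` (`fpos μ true k i` is `μ k i` for `i` even and `k i` for
`i` odd, `hwd` is `μ / 2`, `0`; `|μ k₁| + 2 μ + 20 ≤ M` because `|k₁| + 100 ≤ Mc`) gives `c₀, s', k', j`; `q = (c₀, s', k')`, `mem_LamO`.
`E2o` for `i` is the arm number `i + j`: `lbo w μ Mc (colr c₀ i) (s' i) (k' i)` is the block of the arm number `i + j`
(`os_ob_mod`; case distinction on `i + j`), `lw w μ true = μ w`, `lw w μ false = w`. -/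
theorem E2o_of {L : Lat} {r w μ Mc R s₁ k₁ s₂ k₂ s₃ k₃ s₄ k₄ : ℤ} {ω : Cfg} (hμ : 100 ≤ μ)
    (hR : R = (μ * Mc + μ / 2) * w + w / 2) (hk₁ : |k₁| + 100 ≤ Mc) (hk₃ : |k₃| + 100 ≤ Mc)
    (hk₂ : |k₂| + 2 * μ + 20 ≤ μ * Mc + μ / 2) (hk₄ : |k₄| + 2 * μ + 20 ≤ μ * Mc + μ / 2)
    (n₁ : k₁ ≠ 0) (n₂ : k₂ ≠ 0) (n₃ : k₃ ≠ 0) (n₄ : k₄ ≠ 0)
    (h12 : s₁ < s₂ ∨ (s₁ = s₂ ∧ μ * k₁ + μ / 2 < k₂))
    (h23 : s₂ < s₃ ∨ (s₂ = s₃ ∧ k₂ < μ * k₃ - μ / 2))
    (h34 : s₃ < s₄ ∨ (s₃ = s₄ ∧ μ * k₃ + μ / 2 < k₄))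
    (h41 : s₄ < s₁ + 4 ∨ (s₄ = s₁ + 4 ∧ k₄ < μ * k₁ - μ / 2))
    (a₁ : L.Oarm true r R (μ * w) Mc s₁ k₁ ω) (a₂ : L.Oarm false r R w (μ * Mc + μ / 2) s₂ k₂ ω)
    (a₃ : L.Oarm true r R (μ * w) Mc s₃ k₃ ω) (a₄ : L.Oarm false r R w (μ * Mc + μ / 2) s₄ k₄ ω) :
    ∃ q ∈ LamO μ Mc, L.E2o r w μ Mc q.1 q.2.1 q.2.2 ω := by
  have hμ0 : 0 < μ := by omega
  obtain ⟨c₀, s', k', j, hL, hj⟩ := land_of (μ := μ) (M := μ * Mc + μ / 2) hμ0
    (s := ![s₁, s₂, s₃, s₄]) (k := ![k₁, k₂, k₃, k₄]) (by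
      intro i
      fin_cases i
      · exact OS12_abs_mul hμ hk₁
      · exact hk₂
      · exact OS12_abs_mul hμ hk₃
      · exact hk₄) (by
      intro i
      fin_cases i
      · exact n₁
      · exact n₂
      · exact n₃
      · exact n₄)
    (by
      show s₁ < s₂ ∨ (s₁ = s₂ ∧ μ * k₁ + μ / 2 < k₂ - 0)
      omega)
    (by
      show s₂ < s₃ ∨ (s₂ = s₃ ∧ k₂ + 0 < μ * k₃ - μ / 2)
      omega)
    (by
      show s₃ < s₄ ∨ (s₃ = s₄ ∧ μ * k₃ + μ / 2 < k₄ - 0)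
      omega)
    (by
      show s₄ < s₁ + 4 ∨ (s₄ = s₁ + 4 ∧ k₄ + 0 < μ * k₁ - μ / 2)
      omega)
  refine ⟨(c₀, s', k'), (mem_LamO hμ0 _).2 hL, ?_⟩
  have harm : ∀ m : Fin 4, L.Arm (colr true m)
      (ann r ((μ * Mc + μ / 2) * w + w / 2) ∪
        lbo w μ Mc (colr true m) ((![s₁, s₂, s₃, s₄] : Fin 4 → ℤ) m)
          ((![k₁, k₂, k₃, k₄] : Fin 4 → ℤ) m)) (L.nb (bx r))
      (lbo w μ Mc (colr true m) ((![s₁, s₂, s₃, s₄] : Fin 4 → ℤ) m)
          ((![k₁, k₂, k₃, k₄] : Fin 4 → ℤ) m) ∩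
        rng ((μ * Mc + μ / 2) * w + w / 2 + lw w μ (colr true m))) ω := by
    rw [← hR]
    intro m
    fin_cases m
    · exact a₁
    · exact a₂
    · exact a₃
    · exact a₄
  intro i
  obtain ⟨h1, h2, h3⟩ := hj i
  have h4 := harm (i + j)
  show L.Arm (colr c₀ i)
    (ann r ((μ * Mc + μ / 2) * w + w / 2) ∪ lbo w μ Mc (colr c₀ i) (s' i) (k' i)) (L.nb (bx r))
    (lbo w μ Mc (colr c₀ i) (s' i) (k' i) ∩
      rng ((μ * Mc + μ / 2) * w + w / 2 + lw w μ (colr c₀ i))) ω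
  rw [OS12_lbo_mod h1, h2, h3]
  exact h4

end SC

end

/-! ### from `Lib_MP_e0a489.RO8` -/

section

/-!
# MP_e0a489, RO 8: cells
-/

set_option autoImplicit false

namespace SC

open Classical

private theorem ro8_ge {w : ℤ} (hw0 : 0 < w) (a x : ℤ) :
    a * w - w / 2 ≤ x ↔ a ≤ (x + w / 2) / w := by
  rw [Int.le_ediv_iff_mul_le hw0]
  constructor <;> intro h <;> linarith

private theorem ro8_le {w : ℤ} (hw : w % 2 = 1) (hw0 : 0 < w) (b x : ℤ) :
    x ≤ b * w + w / 2 ↔ (x + w / 2) / w ≤ b := by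
  rw [← Int.lt_add_one_iff (a := (x + w / 2) / w), Int.ediv_lt_iff_lt_mul hw0]
  have e : (b + 1) * w = b * w + w := by ring
  rw [e]
  generalize b * w = t
  omega

private theorem ro8_neg {w : ℤ} (hw : w % 2 = 1) (hw0 : 0 < w) (y : ℤ) :
    (-y + w / 2) / w = -((y + w / 2) / w) := by
  symm
  apply le_antisymm
  · rw [← ro8_ge hw0, neg_mul]
    have h : y + w / 2 - w + 1 ≤ (y + w / 2) / w * w := by
      have h1 := Int.lt_ediv_add_one_mul_self (y + w / 2) hw0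
      have e : ((y + w / 2) / w + 1) * w = (y + w / 2) / w * w + w := by ring
      rw [e] at h1
      omega
    generalize (y + w / 2) / w * w = t at *
    omega
  · rw [← ro8_le hw hw0, neg_mul]
    have h1 := Int.ediv_mul_le (y + w / 2) (ne_of_gt hw0)
    generalize (y + w / 2) / w * w = t at *
    omega

/-- Division with remainder, `w` odd: `a w - w/2 ≤ x` iff `a ≤ (x + w/2) / w` (`Int.le_ediv_iff_mul_le`), and
`x ≤ b w + w/2` iff `x + w/2 < (b + 1) w` iff `(x + w/2) / w ≤ b` (`Int.ediv_lt_iff_lt_mul`), as `2 (w/2) = w - 1`. -/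
theorem cel_rect {w : ℤ} (hw : w % 2 = 1) (hw0 : 0 < w) {a b p q : ℤ} (v : Pt) :
    v ∈ rect (a * w - w / 2) (b * w + w / 2) (p * w - w / 2) (q * w + w / 2) ↔
      cel w v ∈ rect a b p q := by
  unfold rect cel
  simp only [Set.mem_ofPred_eq]
  rw [ro8_ge hw0, ro8_le hw hw0, ro8_ge hw0, ro8_le hw hw0]

/-- It is enough to treat `s = 1` (`rt_add`, `rt_mod`: cases `s % 4 = 0, 1, 2, 3` with `rt_zero`, `rt_one`, `rt_two`, `rt_three`): `(-y + w/2) / w = -((y + w/2) / w)`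
for `w` odd. -/
theorem cel_rt {w : ℤ} (hw : w % 2 = 1) (hw0 : 0 < w) (s : ℤ) (v : Pt) :
    cel w (rt s v) = rt s (cel w v) := by
  have h1 : ∀ u : Pt, cel w (rt 1 u) = rt 1 (cel w u) := by
    intro u
    rw [rt_one, rt_one]
    unfold cel
    simp only
    rw [ro8_neg hw hw0]
  have h : s % 4 = 0 ∨ s % 4 = 1 ∨ s % 4 = 2 ∨ s % 4 = 3 := by omega
  rcases h with h | h | h | h
  · rw [show rt s = rt 0 from rt_mod (by omega), rt_zero, rt_zero]
  · rw [show rt s = rt 1 from rt_mod (by omega), h1]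
  · rw [show rt s = rt (1 + 1) from rt_mod (by omega), rt_add, h1, h1, ← rt_add]
  · rw [show rt s = rt (1 + (1 + 1)) from rt_mod (by omega), rt_add, rt_add, h1, h1, h1]
    rw [rt_add, rt_add]

/-- `cel_rect`, `cel_rt` -/
theorem cel_rot {w : ℤ} (hw : w % 2 = 1) (hw0 : 0 < w) {s a b p q : ℤ} {v : Pt} :
    v ∈ rt s '' rect (a * w - w / 2) (b * w + w / 2) (p * w - w / 2) (q * w + w / 2) ↔
      cel w v ∈ rt s '' rect a b p q := by
  constructor
  · rintro ⟨u, hu, rfl⟩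
    exact ⟨cel w u, (cel_rect hw hw0 u).1 hu, (cel_rt hw hw0 s u).symm⟩
  · rintro ⟨z, hz, he⟩
    refine ⟨(rt s).symm v, ?_, (rt s).apply_symm_apply v⟩
    rw [cel_rect hw hw0]
    have e : cel w v = rt s (cel w ((rt s).symm v)) := by
      rw [← cel_rt hw hw0, (rt s).apply_symm_apply]
    rw [e] at he
    rw [← (rt s).injective he]
    exact hz

/-- `cel_rect` with `a = p = -M`, `b = q = M` -/
theorem cel_nrm {w : ℤ} (hw : w % 2 = 1) (hw0 : 0 < w) {M : ℤ} {v : Pt} :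
    nrm (cel w v) ≤ M ↔ nrm v ≤ M * w + w / 2 := by
  have h := cel_rect hw hw0 (a := -M) (b := M) (p := -M) (q := M) v
  unfold rect at h
  simp only [Set.mem_ofPred_eq] at h
  unfold nrm
  rw [max_le_iff, max_le_iff, abs_le, abs_le, abs_le, abs_le, ← h]
  rw [show -M * w - w / 2 = -(M * w + w / 2) by ring]

/-- A cell `rt s (m, k)`, `|k| ≤ m`, `1 ≤ m`, is on the ring `m` and has the index `2 m s + k` (`rc_side`, `nrm_rt`). -/
theorem cel_idx {z : Pt} {s a b p q : ℤ} (ha : 1 ≤ a) (hp : -a ≤ p) (hq : q ≤ a)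
    (hz : z ∈ rt s '' rect a b p q) : a ≤ nrm z ∧ nrm z ≤ b ∧
      ∃ k, p ≤ k ∧ k ≤ q ∧ rc (nrm z) (2 * nrm z * s + k) = z := by
  obtain ⟨⟨m, k⟩, hu, rfl⟩ := hz
  obtain ⟨⟨h1, h2⟩, h3, h4⟩ := hu
  simp only at h1 h2 h3 h4
  have hk : |k| ≤ m := abs_le.2 ⟨by omega, by omega⟩
  have hn : nrm (rt s (m, k)) = m := by
    rw [nrm_rt]
    unfold nrm
    simp only
    rw [abs_of_nonneg (by omega : (0 : ℤ) ≤ m)]
    exact max_eq_left hk
  rw [hn]
  exact ⟨h1, h2, k, h3, h4, rc_side (by omega) hk⟩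

end SC

end

/-! ### from `Lib_MP_e0a489.RO2` -/

section

/-!
# MP_e0a489, RO 2: crossing sets of rotated rectangles meet
-/

set_option autoImplicit false

namespace SC

open Classical

namespace Lat

variable {L : Lat}

private theorem RO2_img {s : ℤ} (Q : Set Pt) : rt s '' {v | rt s v ∈ Q} = Q := by
  ext v
  constructor
  · rintro ⟨u, hu, rfl⟩
    exact hu
  · intro hv
    refine ⟨(rt s).symm v, ?_, (rt s).apply_symm_apply v⟩
    show rt s ((rt s).symm v) ∈ Q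
    rw [(rt s).apply_symm_apply]
    exact hv

private theorem RO2_pre {s : ℤ} {Q R : Set Pt} (h : Q ⊆ rt s '' R) {v : Pt}
    (hv : rt s v ∈ Q) : v ∈ R := by
  obtain ⟨u, hu, he⟩ := h hv
  have h1 : u = v := (rt s).injective he
  rw [h1] at hu
  exact hu

/-- `crossX` in the lattice `L.rots s` for the preimages `{v | rt s v ∈ Q}`, `{v | rt s v ∈ Q'}`: they are connected
by `Tr.con` for `tr_rots L s` (the image of the preimage is the set itself, because `rt s` is bijective) and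
contained in `rect a b p q`, `rect a' b' p' q'`. -/
theorem Rad.meet {s a b p q a' b' p' q' : ℤ} {Q Q' : Set Pt} (h : L.Rad s a b p q Q)
    (h' : L.Par s a' b' p' q' Q') (ha : a ≤ a') (hb : b' ≤ b) (hp : p' ≤ p) (hq : q ≤ q')
    (hab : a' ≤ b') (hpq : p ≤ q) : (Q ∩ Q').Nonempty := by
  obtain ⟨hc, hr, ⟨y1, hy1⟩, ⟨y2, hy2⟩⟩ := h
  obtain ⟨hc', hr', ⟨x1, hx1⟩, ⟨x2, hx2⟩⟩ := h'
  have hC : (L.rots s).Con {v | rt s v ∈ Q} := by
    rw [(tr_rots L s).con, RO2_img]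
    exact hc
  have hC' : (L.rots s).Con {v | rt s v ∈ Q'} := by
    rw [(tr_rots L s).con, RO2_img]
    exact hc'
  have hR : {v | rt s v ∈ Q} ⊆ rect a b p q := fun v hv => RO2_pre hr hv
  have hR' : {v | rt s v ∈ Q'} ⊆ rect a' b' p' q' := fun v hv => RO2_pre hr' hv
  obtain ⟨w, hw, _⟩ := crossX hC hC' hR hR' ⟨(a, y1), hy1, rfl⟩ ⟨(b, y2), hy2, rfl⟩
    ⟨(x1, p'), hx1, rfl⟩ ⟨(x2, q'), hx2, rfl⟩ ha hb hp hq hab hpq
  exact ⟨rt s w, hw.1, hw.2⟩

/-- Change of the frame at a corner: `rt (s+1) (x, y) = rt s (-y, x)` (`rt_add`, `rt_one`).  The sites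
`rt (s+1) (x, p) = rt s (-p, x)` and `rt (s+1) (x, q) = rt s (-q, x)` are on the two radial sides. -/
theorem Par.rot {s a b p q : ℤ} {Q : Set Pt} (h : L.Par (s + 1) a b p q Q) :
    L.Rad s (-q) (-p) a b Q := by
  obtain ⟨hc, hr, ⟨x1, hx1⟩, ⟨x2, hx2⟩⟩ := h
  refine ⟨hc, fun v hv => ?_, ⟨x2, ?_⟩, ⟨x1, ?_⟩⟩
  · obtain ⟨u, hu, rfl⟩ := hr hv
    refine ⟨(-u.2, u.1), ?_, ?_⟩
    · obtain ⟨⟨h1, h2⟩, h3, h4⟩ := hu
      exact ⟨⟨neg_le_neg h4, neg_le_neg h3⟩, h1, h2⟩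
    · rw [rt_add, rt_one]
  · have h1 := hx2
    rw [rt_add, rt_one] at h1
    exact h1
  · have h1 := hx1
    rw [rt_add, rt_one] at h1
    exact h1

/-- A chain of connected sets, consecutive ones meet.  Induction on `b ≥ a` (`Int.le_induction`): the union up to
`b + 1` is the union up to `b` together with `Q (b + 1)`, `Con.union`. -/
theorem Con.chain {Q : ℤ → Set Pt} {a b : ℤ} (hab : a ≤ b)
    (hc : ∀ t, a ≤ t → t ≤ b → L.Con (Q t))
    (hi : ∀ t, a ≤ t → t < b → (Q t ∩ Q (t + 1)).Nonempty) :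
    L.Con {v | ∃ t, a ≤ t ∧ t ≤ b ∧ v ∈ Q t} := by
  have key : ∀ n : ℤ, a ≤ n → n ≤ b → L.Con {v | ∃ t, a ≤ t ∧ t ≤ n ∧ v ∈ Q t} := by
    intro n hn
    induction n, hn using Int.leInduction with
    | base =>
      intro hb
      have e : {v | ∃ t, a ≤ t ∧ t ≤ a ∧ v ∈ Q t} = Q a := by
        ext v
        constructor
        · rintro ⟨t, h1, h2, h3⟩
          have h4 : t = a := le_antisymm h2 h1
          rw [h4] at h3
          exact h3
        · intro h3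
          exact ⟨a, le_refl a, le_refl a, h3⟩
      rw [e]
      exact hc a (le_refl a) hb
    | succ n hn ih =>
      intro hb
      have hnb : n ≤ b := by omega
      have e : {v | ∃ t, a ≤ t ∧ t ≤ n + 1 ∧ v ∈ Q t} =
          {v | ∃ t, a ≤ t ∧ t ≤ n ∧ v ∈ Q t} ∪ Q (n + 1) := by
        ext v
        constructor
        · rintro ⟨t, h1, h2, h3⟩
          rcases eq_or_ne t (n + 1) with h4 | h4
          · rw [h4] at h3
            exact Or.inr h3
          · exact Or.inl ⟨t, h1, by omega, h3⟩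
        · rintro (⟨t, h1, h2, h3⟩ | h3)
          · exact ⟨t, h1, by omega, h3⟩
          · exact ⟨n + 1, by omega, le_refl _, h3⟩
      rw [e]
      obtain ⟨z, hz1, hz2⟩ := hi n hn (by omega)
      exact Con.union (ih hnb) (hc (n + 1) (by omega) hb) ⟨z, ⟨n, hn, le_refl n, hz1⟩, hz2⟩
  exact key b hab (le_refl b)

end Lat

end SC

end

/-! ### from `Lib_MP_e0a489.RO17` -/

section

/-!
# MP_e0a489, RO 17: the inward paths: conditions, location
-/

set_option autoImplicit false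

namespace SC

open Classical

private theorem ro17_mulw {X N w : ℤ} (hX : 0 ≤ X) (hw : 5 ≤ w) (hN : 2 * X ≤ N) :
    X * w ≤ N * (w - 1) := by
  have h1 : 0 ≤ X * (w - 2) := mul_nonneg hX (by omega)
  have h2 : 0 ≤ (N - 2 * X) * (w - 1) := mul_nonneg (by omega) (by omega)
  nlinarith

/-- Arithmetic as in `outP_ok`: `m = M + 1 - μ - ρ ≥ M - μ - 7 ≥ 1`, `|f| ≤ M - 2 μ - 20 ≤ m`;
`a2 ≤ a1`: `M + 1 - μ - ρ ≤ M - 2 h` (`2 h + 1 ≤ μ`, `ρ ≥ 1`); `a4m`: `r' / 2 + 1 ≤ m w - w/2`, because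
`r' ≤ (M - μ - 10) w + w/2`; `b4 - a4 ≤ (M + 1) w`. -/
theorem inP_ok {w μ M r' : ℤ} (hw : w % 2 = 1) (hw5 : 5 ≤ w) (hμ : μ % 2 = 1) (hμ0 : 0 < μ)
    {c₀ : Bool} {s k : Fin 4 → ℤ} (hl : Land μ M c₀ s k) (h1 : r' + (μ + 10) * w ≤ M * w + w / 2)
    (h2 : M * w + w / 2 ≤ 4 * r') (i : Fin 4) :
    (inP w μ M r' c₀ s k i).Ok w (16 * (M + μ + 10)).toNat := by
  have hc := hl.cor i
  have hsd := hl.side i
  have hr := rki_bd μ c₀ s k i
  have hh := hwd_bd hμ hμ0 c₀ i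
  have ht := tgt_bd c₀ i
  have hf0 := abs_nonneg (fpos μ c₀ k i)
  have hf1 := le_abs_self (fpos μ c₀ k i)
  set f := fpos μ c₀ k i with hf
  set h := hwd μ c₀ i with hhd
  set ρ := rki μ c₀ s k i with hρ
  have hM : 22 ≤ M := by omega
  have hMw : 22 * w ≤ M * w := mul_le_mul_of_nonneg_right hM (by omega)
  have e1 : (μ + 10) * w = μ * w + 10 * w := by ring
  have hρw1 : 1 * w ≤ ρ * w := mul_le_mul_of_nonneg_right hr.1 (by omega)
  have hρw2 : ρ * w ≤ 8 * w := mul_le_mul_of_nonneg_right hr.2 (by omega)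
  have hhw : (2 * h + 1) * w ≤ μ * w := mul_le_mul_of_nonneg_right hh.2 (by omega)
  have hhw0 : 0 ≤ h * w := mul_nonneg hh.1 (by omega)
  have e2 : (2 * h + 1) * w = 2 * (h * w) + w := by ring
  have e3 : (M + 1 - μ - ρ) * w = M * w + w - μ * w - ρ * w := by ring
  have e4 : (M - 2 * h) * w = M * w - 2 * (h * w) := by ring
  have hN : (((16 * (M + μ + 10)).toNat : ℕ) : ℤ) = 16 * (M + μ + 10) :=
    Int.toNat_of_nonneg (by omega)
  have hq : w / 2 + w / 2 = w - 1 := by omega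
  refine
    { s0 := hsd.1, s4 := hsd.2, d0 := ht.1, d4 := ht.2, h0 := hh.1, m1 := ?_, fm := ?_,
      ab1 := ?_, a21 := ?_, b12 := le_rfl, a2m := le_rfl, b2m := ?_, a4m := ?_, b4m := le_rfl,
      n1 := ?_, n2 := ?_, n3 := ?_, n4 := ?_ }
  · show 1 ≤ M + 1 - μ - ρ
    omega
  · show |f| ≤ M + 1 - μ - ρ
    omega
  · show (M * w + w / 2) - ((M - 2 * h) * w - w / 2) = (2 * h + 1) * w - 1
    rw [e4, e2]
    omega
  · show (M + 1 - μ - ρ) * w - w / 2 ≤ (M - 2 * h) * w - w / 2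
    rw [e3, e4]
    omega
  · show (M + 1 - μ - ρ) * w + w / 2 ≤ M * w + w / 2
    rw [e3]
    omega
  · show r' / 2 + 1 ≤ (M + 1 - μ - ρ) * w - w / 2
    rw [e3]
    rw [e1] at h1
    omega
  · have : (1 : ℤ) ≤ (((16 * (M + μ + 10)).toNat : ℕ) : ℤ) := by rw [hN]; omega
    exact_mod_cast this
  · show (M * w + w / 2) - ((M + 1 - μ - ρ) * w - w / 2) ≤
      (((16 * (M + μ + 10)).toNat : ℕ) : ℤ) * (w - 1)
    rw [hN]
    have h5 := ro17_mulw (X := μ + ρ) (N := 16 * (M + μ + 10)) (w := w) (by omega) hw5 (by omega)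
    have e5 : (μ + ρ) * w = μ * w + ρ * w := by ring
    rw [e5] at h5
    rw [e3]
    omega
  · show (2 * (M + 1 - μ - ρ) + 1) * w ≤ (((16 * (M + μ + 10)).toNat : ℕ) : ℤ) * (w - 1)
    rw [hN]
    exact ro17_mulw (by omega) hw5 (by omega)
  · show ((M + 1 - μ - ρ) * w + w / 2) - (r' / 2 + 1) ≤
      (((16 * (M + μ + 10)).toNat : ℕ) : ℤ) * (w - 1)
    rw [hN]
    have h5 := ro17_mulw (X := M + 1) (N := 16 * (M + μ + 10)) (w := w) (by omega) hw5 (by omega)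
    have e5 : (M + 1) * w = M * w + w := by ring
    rw [e5] at h5
    rw [e3]
    omega

/-- `4 w ≤ r'` -/
theorem in_rw {w μ M r' : ℤ} (hw5 : 5 ≤ w) (hμ0 : 0 < μ) {c₀ : Bool} {s k : Fin 4 → ℤ}
    (hl : Land μ M c₀ s k) (h2 : M * w + w / 2 ≤ 4 * r') : 4 * w ≤ r' := by
  have hc := hl.cor 0
  have hf0 := abs_nonneg (fpos μ c₀ k 0)
  have hM : 22 ≤ M := by omega
  have hMw : 22 * w ≤ M * w := mul_le_mul_of_nonneg_right hM (by omega)
  omega

private theorem ro17_nrm {u x y : ℤ} : nrm (rt u (x, y)) = max |x| |y| := by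
  rw [nrm_rt]
  rfl

/-- LOCATION.  Landing block, strip, arc: `v = rt u (x, y)` with `(M - μ - 7) w - w/2 ≤ x ≤ M w + w/2`, `|y| ≤ M w + w/2`, and
`(M - μ - 7) w - w/2 > (M - μ - 10) w + w/2 ≥ r'`.  Final strip: `r'/2 + 1 ≤ x ≤ m w + w/2`, `|y| ≤ w/2 ≤ r'/8` (`4 r' ≥ M w ≥ 22 w`, so
`8 (w/2) ≤ 4 w ≤ r'`), `nrm v = x`; if `x ≤ r'` then `v ∈ K d r'`. -/
theorem in_reg {w μ M r' : ℤ} (hw : w % 2 = 1) (hw5 : 5 ≤ w) (hμ : μ % 2 = 1) (hμ0 : 0 < μ)
    {c₀ : Bool} {s k : Fin 4 → ℤ} (hl : Land μ M c₀ s k) (h1 : r' + (μ + 10) * w ≤ M * w + w / 2)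
    (h2 : M * w + w / 2 ≤ 4 * r') (i : Fin 4) {v : Pt}
    (hv : v ∈ (inP w μ M r' c₀ s k i).reg w) :
    r' / 2 < nrm v ∧ nrm v ≤ M * w + w / 2 ∧ (r' < nrm v ∨ v ∈ K (tgt c₀ i) r') := by
  have h4 := in_rw hw5 hμ0 hl h2
  have hc := hl.cor i
  have hr := rki_bd μ c₀ s k i
  have hh := hwd_bd hμ hμ0 c₀ i
  have hf0 := abs_nonneg (fpos μ c₀ k i)
  unfold Pth.reg at hv
  have hls : (inP w μ M r' c₀ s k i).lk = fpos μ c₀ k i ∨ (inP w μ M r' c₀ s k i).lk = 0 := by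
    unfold Pth.lk
    split_ifs
    · exact Or.inl rfl
    · exact Or.inr rfl
  have hus : (inP w μ M r' c₀ s k i).uk = fpos μ c₀ k i ∨ (inP w μ M r' c₀ s k i).uk = 0 := by
    unfold Pth.uk
    split_ifs
    · exact Or.inr rfl
    · exact Or.inl rfl
  have em : (inP w μ M r' c₀ s k i).m = M + 1 - μ - rki μ c₀ s k i := rfl
  rw [em] at hv
  simp only [inP] at hv
  set f := fpos μ c₀ k i with hf
  set h := hwd μ c₀ i with hhd
  set ρ := rki μ c₀ s k i with hρ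
  have hf1 := le_abs_self f
  have hf2 := neg_abs_le f
  have hM : 22 ≤ M := by omega
  have hMw : 22 * w ≤ M * w := mul_le_mul_of_nonneg_right hM (by omega)
  have e1 : (μ + 10) * w = μ * w + 10 * w := by ring
  rw [e1] at h1
  have hρw1 : 1 * w ≤ ρ * w := mul_le_mul_of_nonneg_right hr.1 (by omega)
  have hρw2 : ρ * w ≤ 8 * w := mul_le_mul_of_nonneg_right hr.2 (by omega)
  have hhw : (2 * h + 1) * w ≤ μ * w := mul_le_mul_of_nonneg_right hh.2 (by omega)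
  have hhw0 : 0 ≤ h * w := mul_nonneg hh.1 (by omega)
  have hμw : 1 * w ≤ μ * w := mul_le_mul_of_nonneg_right (by omega) (by omega)
  have e2 : (2 * h + 1) * w = 2 * (h * w) + w := by ring
  rw [e2] at hhw
  have e3 : (M + 1 - μ - ρ) * w = M * w + w - μ * w - ρ * w := by ring
  have e4 : (M - 2 * h) * w = M * w - 2 * (h * w) := by ring
  have hcw : (|f| + 2 * μ + 20) * w ≤ M * w := mul_le_mul_of_nonneg_right hc (by omega)
  have e5 : (|f| + 2 * μ + 20) * w = |f| * w + 2 * (μ * w) + 20 * w := by ring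
  rw [e5] at hcw
  have hfw1 : f * w ≤ |f| * w := mul_le_mul_of_nonneg_right hf1 (by omega)
  have hfw2 : (-|f|) * w ≤ f * w := mul_le_mul_of_nonneg_right hf2 (by omega)
  have hfw0 : 0 ≤ |f| * w := mul_nonneg hf0 (by omega)
  have e6 : (-|f|) * w = -(|f| * w) := by ring
  rw [e6] at hfw2
  -- the common conclusion
  have key : ∀ (u x y : ℤ), M * w - μ * w - 7 * w - w / 2 ≤ x → x ≤ M * w + w / 2 →
      -(M * w + w / 2) ≤ y → y ≤ M * w + w / 2 →
      r' / 2 < nrm (rt u (x, y)) ∧ nrm (rt u (x, y)) ≤ M * w + w / 2 ∧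
        (r' < nrm (rt u (x, y)) ∨ rt u (x, y) ∈ K (tgt c₀ i) r') := by
    intro u x y hx1 hx2 hy1 hy2
    rw [ro17_nrm]
    have hx3 : r' < x := by omega
    have hx4 : |x| = x := abs_of_nonneg (by omega)
    have hy3 : |y| ≤ M * w + w / 2 := abs_le.2 ⟨hy1, hy2⟩
    have h5 : x ≤ max |x| |y| := by rw [hx4]; exact le_max_left _ _
    refine ⟨by omega, max_le (by rw [hx4]; exact hx2) hy3, Or.inl (by omega)⟩
  rcases hv with ((hv | hv) | hv) | hv
  · obtain ⟨⟨x, y⟩, ⟨⟨hx1, hx2⟩, hy1, hy2⟩, rfl⟩ := hv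
    simp only at hx1 hx2 hy1 hy2
    have e7 : (f - h) * w = f * w - h * w := by ring
    have e8 : (f + h) * w = f * w + h * w := by ring
    rw [e4] at hx1
    rw [e7] at hy1
    rw [e8] at hy2
    exact key _ x y (by omega) (by omega) (by omega) (by omega)
  · obtain ⟨⟨x, y⟩, ⟨⟨hx1, hx2⟩, hy1, hy2⟩, rfl⟩ := hv
    simp only at hx1 hx2 hy1 hy2
    rw [e3] at hx1
    exact key _ x y (by omega) (by omega) (by omega) (by omega)
  · obtain ⟨t, ht1, ht2, ⟨x, y⟩, ⟨⟨hx1, hx2⟩, hy1, hy2⟩, rfl⟩ := hv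
    simp only at hx1 hx2 hy1 hy2
    have e9 : ∀ z : ℤ, (z = f ∨ z = 0 ∨ z = M + 1 - μ - ρ ∨ z = -(M + 1 - μ - ρ)) →
        -(M * w) ≤ z * w ∧ z * w ≤ M * w := by
      intro z hz
      rcases hz with rfl | rfl | rfl | rfl
      · constructor <;> omega
      · rw [zero_mul]; constructor <;> omega
      · rw [e3]; constructor <;> omega
      · have e10 : -(M + 1 - μ - ρ) * w = -(M * w + w - μ * w - ρ * w) := by ring
        rw [e10]; constructor <;> omega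
    have hg1 := (e9 (sgl (M + 1 - μ - ρ) (inP w μ M r' c₀ s k i).ls
      (inP w μ M r' c₀ s k i).lk t) (by
        unfold sgl
        split_ifs
        · rcases hls with h | h
          · exact Or.inl h
          · exact Or.inr (Or.inl h)
        · exact Or.inr (Or.inr (Or.inr rfl)))).1
    have hg2 := (e9 (sgu (M + 1 - μ - ρ) (inP w μ M r' c₀ s k i).us
      (inP w μ M r' c₀ s k i).uk t) (by
        unfold sgu
        split_ifs
        · rcases hus with h | h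
          · exact Or.inl h
          · exact Or.inr (Or.inl h)
        · exact Or.inr (Or.inr (Or.inl rfl)))).2
    rw [e3] at hx1 hx2
    refine key _ x y (by omega) (by omega) ?_ ?_
    · have hb : -(M * w + w / 2) ≤ sgl (M + 1 - μ - ρ) (inP w μ M r' c₀ s k i).ls
        (inP w μ M r' c₀ s k i).lk t * w - w / 2 := by omega
      exact le_trans hb hy1
    · have hb : sgu (M + 1 - μ - ρ) (inP w μ M r' c₀ s k i).us
        (inP w μ M r' c₀ s k i).uk t * w + w / 2 ≤ M * w + w / 2 := by omega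
      exact le_trans hy2 hb
  · obtain ⟨⟨x, y⟩, ⟨⟨hx1, hx2⟩, hy1, hy2⟩, rfl⟩ := hv
    simp only at hx1 hx2 hy1 hy2
    rw [e3] at hx2
    have hx4 : |x| = x := abs_of_nonneg (by omega)
    have hy3 : |y| ≤ x := abs_le.2 ⟨by omega, by omega⟩
    have hn : nrm (rt (tgt c₀ i) (x, y)) = x := by
      rw [ro17_nrm, hx4]
      exact max_eq_left hy3
    rw [hn]
    refine ⟨by omega, by omega, ?_⟩
    rcases lt_or_ge r' x with h5 | h5
    · exact Or.inl h5
    · refine Or.inr ⟨(x, y), ⟨⟨hx1, h5⟩, ?_, ?_⟩, rfl⟩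
      · show -(r' / 8) ≤ y
        omega
      · show y ≤ r' / 8
        omega

/-- the inner end of the final strip -/
theorem in_end {w r' d y : ℤ} (hw5 : 5 ≤ w) (hr : 4 * w ≤ r') (hy : |y| ≤ w / 2) :
    rt d (r' / 2 + 1, y) ∈ Ks d r' := by
  have h := abs_le.1 hy
  refine ⟨(r' / 2 + 1, y), ⟨⟨le_rfl, le_rfl⟩, ?_, ?_⟩, rfl⟩
  · show -(r' / 8) ≤ y
    omega
  · show y ≤ r' / 8
    omega

end SC

end

/-! ### from `Lib_MP_e0a489.FI6` -/

section

/-!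
# MP_e0a489, module FI 6: the local event holds around a pivotal block
-/

set_option autoImplicit false

namespace SC

open Classical FI

private theorem fi6_nrm {v : Pt} {R : ℤ} (h : nrm v ≤ R) :
    -R ≤ v.1 ∧ v.1 ≤ R ∧ -R ≤ v.2 ∧ v.2 ≤ R := by
  have h1 := (XP.abs_nrm v).1.trans h
  have h2 := (XP.abs_nrm v).2.trans h
  rw [abs_le] at h1 h2
  exact ⟨h1.1, h1.2, h2.1, h2.2⟩

private theorem fi6_hm (N N' : ℤ) (x : Pt) :
    hm N N' x ≤ N - |x.1| ∧ hm N N' x ≤ N' - |x.2| := ⟨min_le_left _ _, min_le_right _ _⟩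


/-- Bulk part: with `R = min h b - 1`, `h = hm N N' x`, the box `bxAt x R` is contained in the domain (its sites have
`|v.1| ≤ N - 1`, `|v.2| ≤ N' - 1`), so `dom ∩ annAt x a R = annAt x a R`, `PivS.two_open`, `twoAt_iff`. -/
theorem Lat.PivS.evB {L : Lat} {N N' : ℤ} {E B : Set Pt} {ω : Cfg} (hp : L.PivS N N' E B ω)
    (hE : GoodE L N E) {x : Pt} {a b : ℤ} (ha : 0 ≤ a) (hB : B ⊆ bxAt x a) :
    L.EvB x a (min (hm N N' x) b - 1) ω := by
  intro hlt
  have hh := fi6_hm N N' x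
  have hm1 : min (hm N N' x) b ≤ hm N N' x := min_le_left _ _
  have e1 := abs_le.1 (le_refl |x.1|)
  have e2 := abs_le.1 (le_refl |x.2|)
  have h := hp.two_open hE hlt hB (by omega) (by omega)
  rw [XP.twoAt_iff]
  have hs : dom N N' E ∩ annAt x a (min (hm N N' x) b - 1) =
      annAt x a (min (hm N N' x) b - 1) := by
    apply Set.inter_eq_right.2
    intro v hv
    have h3 := fi6_nrm hv.2
    have h4 : (v - x).1 = v.1 - x.1 := rfl
    have h5 : (v - x).2 = v.2 - x.2 := rfl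
    rw [h4, h5] at h3
    refine ⟨⟨⟨?_, ?_⟩, ?_, ?_⟩, fun he => ?_⟩
    · omega
    · omega
    · omega
    · omega
    · have h6 := (hE v he).1
      omega
  rw [hs] at h
  exact h

/-- Half plane part.  `B ⊆ bxAt yH (2 max a h)`: `nrm (v - yH) ≤ a + |h|` (`nrm_yH`), `|h| ≤ max a h`.  If `N - |x.1| < N' - |x.2|`: colour `false`,
`yH.2 = x.2`, `PivS.two_closed` with `R = min h₂ b - 1`, `h₂ = N' - |x.2|`.  Otherwise colour `true`, `yH.1 = x.1`,
`PivS.two_open`, `h₂ = N - |x.1|`. -/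
theorem Lat.PivS.evH {L : Lat} {N N' : ℤ} {E B : Set Pt} {ω : Cfg} (hp : L.PivS N N' E B ω)
    (hN : 0 < N) (hN' : 0 < N') (hE : GoodE L N E) {x : Pt} {a b : ℤ} (ha : 0 ≤ a)
    (h1 : |x.1| ≤ N + a) (h2 : |x.2| ≤ N' + a) (hB : B ⊆ bxAt x a) :
    L.EvH N N' E x (2 * max a (hm N N' x)) (min (hM N N' x) b - 1) ω := by
  intro hlt
  have hh := fi6_hm N N' x
  have hmin : hm N N' x = N - |x.1| ∨ hm N N' x = N' - |x.2| := min_choice _ _
  have hm1 : min (hM N N' x) b ≤ hM N N' x := min_le_left _ _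
  have hm2 : min (hM N N' x) b ≤ b := min_le_right _ _
  have e1 := abs_le.1 (le_refl |x.1|)
  have e2 := abs_le.1 (le_refl |x.2|)
  have a1 : a ≤ max a (hm N N' x) := le_max_left _ _
  have a2 : hm N N' x ≤ max a (hm N N' x) := le_max_right _ _
  have hB' : B ⊆ bxAt (yH N N' x) (2 * max a (hm N N' x)) := by
    intro v hv
    have h3 : nrm (v - x) ≤ a := hB hv
    have h4 := XP.nrm_tri v x (yH N N' x)
    have h5 := nrm_yH N N' x
    have h6 : |hm N N' x| ≤ max a (hm N N' x) := by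
      rw [abs_le]
      constructor
      · rcases hmin with h | h <;> omega
      · omega
    show nrm (v - yH N N' x) ≤ _
    omega
  by_cases hc : N - |x.1| < N' - |x.2|
  · have hcH : cH N N' x = false := by
      unfold cH
      rw [decide_eq_false_iff_not]
      omega
    have hy : (yH N N' x).2 = x.2 := by
      unfold yH
      rw [if_pos hc]
    have hMe : hM N N' x = N' - |x.2| := by
      unfold hM
      exact max_eq_right hc.le
    rw [hcH]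
    exact hp.two_closed hN hN' hE hlt hB' (by rw [hy]; omega) (by rw [hy]; omega)
  · have hcH : cH N N' x = true := by
      unfold cH
      rw [decide_eq_true_iff]
      omega
    have hy : (yH N N' x).1 = x.1 := by
      unfold yH
      rw [if_neg hc]
    have hMe : hM N N' x = N - |x.1| := by
      unfold hM
      exact max_eq_left (not_lt.1 hc)
    rw [hcH]
    exact hp.two_open hE hlt hB' (by rw [hy]; omega) (by rw [hy]; omega)

/-- Corner part.  `B ⊆ bxAt yQ (2 max a h₂)` (`nrm_yQ`).  `yQ.1 = -N`: `yQ.1 + b ≤ N - 1`; `yQ.1 = N`: `-N + b ≤ yQ.1`; `PivS.arm_open`;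
the same for the second coordinate, `PivS.arm_closed`. -/
theorem Lat.PivS.evQ {L : Lat} {N N' : ℤ} {E B : Set Pt} {ω : Cfg} (hp : L.PivS N N' E B ω)
    (hN : 0 < N) (hN' : 0 < N') (hE : GoodE L N E) {x : Pt} {a b : ℤ} (ha : 0 ≤ a) (hb : b ≤ N)
    (hb' : b ≤ N') (h1 : |x.1| ≤ N + a) (h2 : |x.2| ≤ N' + a) (hB : B ⊆ bxAt x a) :
    L.EvQ N N' E x (2 * max a (hM N N' x)) b ω := by
  intro hlt c
  have a1 : a ≤ max a (hM N N' x) := le_max_left _ _
  have hB' : B ⊆ bxAt (yQ N N' x) (2 * max a (hM N N' x)) := by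
    intro v hv
    have h3 : nrm (v - x) ≤ a := hB hv
    have h4 := XP.nrm_tri v x (yQ N N' x)
    have h5 := nrm_yQ h1 h2
    show nrm (v - yQ N N' x) ≤ _
    omega
  cases c with
  | true =>
    refine hp.arm_open hE hlt hB' ?_
    have hy : (yQ N N' x).1 = -N ∨ (yQ N N' x).1 = N := by
      unfold yQ
      by_cases hx : x.1 ≤ 0
      · left
        simp only [if_pos hx]
      · right
        simp only [if_neg hx]
    rcases hy with hy | hy
    · right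
      omega
    · left
      omega
  | false =>
    refine hp.arm_closed hN hN' hE hlt hB' ?_
    have hy : (yQ N N' x).2 = -N' ∨ (yQ N N' x).2 = N' := by
      unfold yQ
      by_cases hx : x.2 ≤ 0
      · left
        simp only [if_pos hx]
      · right
        simp only [if_neg hx]
    rcases hy with hy | hy
    · right
      omega
    · left
      omega

/-- LOCAL EVENT. -/
theorem Lat.PivS.ev {L : Lat} {N N' : ℤ} {E B : Set Pt} {ω : Cfg} (hp : L.PivS N N' E B ω)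
    (hN : 0 < N) (hN' : 0 < N') (hE : GoodE L N E) {x : Pt} {a b : ℤ} (ha : 0 ≤ a) (hb : b ≤ N)
    (hb' : b ≤ N') (h1 : |x.1| ≤ N + a) (h2 : |x.2| ≤ N' + a) (hB : B ⊆ bxAt x a) :
    L.Ev N N' E x a b ω :=
  ⟨hp.evB hE ha hB, hp.evH hN hN' hE ha h1 h2 hB, hp.evQ hN hN' hE ha hb hb' h1 h2 hB⟩

end SC

end

/-! ### from `Lib_MP_e0a489.FI16` -/

section

/-!
# MP_e0a489, module FI 16: two pivotal blocks
-/

set_option autoImplicit false

namespace SC

open Classical FI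

/-- the three local events of a pair of blocks at distance between `D` and `2 D` -/
def Lat.JJ (L : Lat) (N N' : ℤ) (E : Set Pt) (w n : ℤ) (z z' : Pt) (D : ℤ) (ω : Cfg) : Prop :=
  (L.Ev N N' E (sc w z) w (D / 16) ω ∧ L.Ev N N' E (sc w z') w (D / 16) ω) ∧
    L.Ev N N' E (sc w z) (4 * D) n ω

namespace FI

/-- the part of the block number `z` in `F` -/
noncomputable def fb (F : Finset Pt) (w : ℤ) (z : Pt) : Finset Pt :=
  F.filter fun v => v.1 / w = z.1 ∧ v.2 / w = z.2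

/-- sizes and positions of two blocks -/
structure Cnd (N N' w n : ℤ) (z z' : Pt) (D : ℤ) : Prop where
  w1 : 1 ≤ w
  wn : w ≤ n
  nN : n ≤ N
  nN' : n ≤ N'
  wD : 16 * w ≤ D
  Dn : D ≤ 16 * n
  d1 : D < bd2 w z z'
  d2 : bd2 w z z' ≤ 2 * D
  z1 : |w * z.1| ≤ N + w
  z2 : |w * z.2| ≤ N' + w
  z1' : |w * z'.1| ≤ N + w
  z2' : |w * z'.2| ≤ N' + w

private theorem fi16_comm (u v : Pt) : nrm (u - v) = nrm (v - u) := by
  show max |u.1 - v.1| |u.2 - v.2| = max |v.1 - u.1| |v.2 - u.2|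
  rw [abs_sub_comm u.1 v.1, abs_sub_comm u.2 v.2]

private theorem fi16_nn (u : Pt) : 0 ≤ nrm u := le_trans (abs_nonneg u.1) (le_max_left _ _)

private theorem fi16_crs (L : Lat) (N N' : ℤ) (E : Set Pt) : Dep (L.Crs N N' E) (dom N N' E) :=
  Lat.Arm.dep L true _ _ _

private theorem fi16_ind {L : Lat} {N N' : ℤ} {E : Set Pt} {F : Finset Pt}
    (hF : ∀ v, v ∈ F ↔ v ∈ dom N N' E) : Dep (ind (L.Crs N N' E)) (F : Set Pt) := by
  intro ω ω' h
  have h1 := fi16_crs L N N' E ω ω' (fun v hv => h v (Finset.mem_coe.2 ((hF v).2 hv)))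
  unfold ind
  rw [h1]

private theorem fi16_piv {L : Lat} {N N' : ℤ} {E B : Set Pt} {ω ω' ω'' : Cfg}
    (h1 : ∀ v, v ∉ B → ω' v = ω v) (h2 : ∀ v, v ∉ B → ω'' v = ω v)
    (hne : ind (L.Crs N N' E) ω'' ≠ ind (L.Crs N N' E) ω') : L.PivS N N' E B ω := by
  unfold ind at hne
  by_cases c1 : L.Crs N N' E ω''
  · by_cases c2 : L.Crs N N' E ω'
    · rw [if_pos c1, if_pos c2] at hne
      exact absurd rfl hne
    · exact ⟨ω'', ω', h2, h1, c1, c2⟩
  · by_cases c2 : L.Crs N N' E ω'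
    · exact ⟨ω', ω'', h1, h2, c2, c1⟩
    · rw [if_neg c1, if_neg c2] at hne
      exact absurd rfl hne

private theorem fi16_ind01 (A : Cfg → Prop) (ω : Cfg) : 0 ≤ ind A ω ∧ ind A ω ≤ 1 := by
  unfold ind
  split_ifs
  · exact ⟨zero_le_one, le_refl _⟩
  · exact ⟨le_refl _, zero_le_one⟩

/-- `0 ≤ v.1 - w z.1 < w` -/
theorem fb_sub {F : Finset Pt} {w : ℤ} (hw : 1 ≤ w) (z : Pt) :
    ((fb F w z : Finset Pt) : Set Pt) ⊆ bxAt (sc w z) w := by
  intro v hv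
  have hv' := Finset.mem_coe.1 hv
  unfold fb at hv'
  obtain ⟨-, h1, h2⟩ := Finset.mem_filter.1 hv'
  have a1 := Int.emod_add_mul_ediv v.1 w
  have a2 := Int.emod_add_mul_ediv v.2 w
  have a3 := Int.emod_nonneg v.1 (show w ≠ 0 by omega)
  have a4 := Int.emod_nonneg v.2 (show w ≠ 0 by omega)
  have a5 := Int.emod_lt_of_pos v.1 (show 0 < w by omega)
  have a6 := Int.emod_lt_of_pos v.2 (show 0 < w by omega)
  rw [h1] at a1
  rw [h2] at a2
  show max |v.1 - w * z.1| |v.2 - w * z.2| ≤ w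
  refine max_le ?_ ?_
  · rw [abs_le]
    constructor <;> linarith
  · rw [abs_le]
    constructor <;> linarith

theorem bd2_nrm (w : ℤ) (z z' : Pt) : bd2 w z z' = nrm (sc w z - sc w z') := rfl

/-- If the block `B` is pivotal for `ω₁` and `B'` is pivotal for `ω₂`, where `ω₁ = ω₂ = ω` off `B ∪ B'`, then the three local
events hold for `ω`.  (1) `PivS.ev` for `ω₁`, `x = sc w z`, radii `w`, `D / 16` (`≤ n`); the event depends on `annAt x w (2 (D/16))`
(`Ev.dep`), where `ω₁ = ω`: such a site is not in `B`, and not in `B'`, because its distance to `sc w z'` is more than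
`D - 2 (D / 16) ≥ w`.  (2) the same for `ω₂`.  (3) `PivS (B ∪ B') ω` (the two configurations for `ω₁` agree with `ω` off `B ∪ B'`),
`B ∪ B' ⊆ bxAt x (2 D + w) ⊆ bxAt x (4 D)`; `PivS.ev` with radii `4 D`, `n`. -/
theorem JJ_of_piv {L : Lat} {N N' : ℤ} {E : Set Pt} {w n D : ℤ} {z z' : Pt}
    (h : Cnd N N' w n z z' D) (hE : GoodE L N E) {B B' : Set Pt} (hB : B ⊆ bxAt (sc w z) w)
    (hB' : B' ⊆ bxAt (sc w z') w) {ω ω₁ ω₂ : Cfg} (h1 : ∀ v, v ∉ B → v ∉ B' → ω₁ v = ω v)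
    (h2 : ∀ v, v ∉ B → v ∉ B' → ω₂ v = ω v) (p1 : L.PivS N N' E B ω₁)
    (p2 : L.PivS N N' E B' ω₂) : L.JJ N N' E w n z z' D ω := by
  obtain ⟨w1, wn, nN, nN', wD, Dn, d1, d2, z1, z2, z1', z2'⟩ := h
  rw [bd2_nrm] at d1 d2
  have c0 := fi16_comm (sc w z) (sc w z')
  refine ⟨⟨?_, ?_⟩, ?_⟩
  · have e := p1.ev (x := sc w z) (a := w) (b := D / 16) (by omega) (by omega) hE (by omega)
      (by omega) (by omega) z1 z2 hB
    rw [← Lat.Ev.dep L E (by omega) z1 z2 ω₁ ω (fun v hv => ?_)]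
    · exact e
    · obtain ⟨k1, k2⟩ := hv
      refine h1 v (fun hv' => ?_) (fun hv' => ?_)
      · have k3 : nrm (v - sc w z) ≤ w := hB hv'
        omega
      · have k3 : nrm (v - sc w z') ≤ w := hB' hv'
        have k4 := XP.nrm_tri (sc w z) v (sc w z')
        have k5 := fi16_comm (sc w z) v
        omega
  · have e := p2.ev (x := sc w z') (a := w) (b := D / 16) (by omega) (by omega) hE (by omega)
      (by omega) (by omega) z1' z2' hB'
    rw [← Lat.Ev.dep L E (by omega) z1' z2' ω₂ ω (fun v hv => ?_)]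
    · exact e
    · obtain ⟨k1, k2⟩ := hv
      refine h2 v (fun hv' => ?_) (fun hv' => ?_)
      · have k3 : nrm (v - sc w z) ≤ w := hB hv'
        have k4 := XP.nrm_tri (sc w z) v (sc w z')
        have k5 := fi16_comm (sc w z) v
        omega
      · have k3 : nrm (v - sc w z') ≤ w := hB' hv'
        omega
  · have hp : L.PivS N N' E (B ∪ B') ω := by
      obtain ⟨ω₃, ω₄, h3, h4, c3, c4⟩ := p1
      refine ⟨ω₃, ω₄, fun v hv => ?_, fun v hv => ?_, c3, c4⟩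
      · have hv1 : v ∉ B := fun h => hv (Or.inl h)
        have hv2 : v ∉ B' := fun h => hv (Or.inr h)
        rw [h3 v hv1, h1 v hv1 hv2]
      · have hv1 : v ∉ B := fun h => hv (Or.inl h)
        have hv2 : v ∉ B' := fun h => hv (Or.inr h)
        rw [h4 v hv1, h1 v hv1 hv2]
    refine hp.ev (by omega) (by omega) hE (by omega) (by omega) (by omega) ?_ ?_ ?_
    · exact z1.trans (by omega)
    · exact z2.trans (by omega)
    · intro v hv
      show nrm (v - sc w z) ≤ 4 * D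
      rcases hv with hv | hv
      · have k3 : nrm (v - sc w z) ≤ w := hB hv
        omega
      · have k3 : nrm (v - sc w z') ≤ w := hB' hv
        have k4 := XP.nrm_tri v (sc w z') (sc w z)
        omega

/-- `Ev.dep` (the supports are finite, `annAt_finite`) -/
theorem Ev_loc (L : Lat) {N N' : ℤ} (E : Set Pt) {x : Pt} {a b : ℤ} (ha : 0 ≤ a)
    (h1 : |x.1| ≤ N + a) (h2 : |x.2| ≤ N' + a) : Loc (L.Ev N N' E x a b) :=
  XP.loc_of_dep (XP.annAt_finite _ _ _) (Lat.Ev.dep L E ha h1 h2)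

private theorem fi16_and {A B : Cfg → Prop} {D D' : Set Pt} (hA : Dep A D) (hB : Dep B D') :
    Dep (fun ω => A ω ∧ B ω) (D ∪ D') := by
  intro ω ω' h
  have e1 := hA ω ω' fun v hv => h v (Or.inl hv)
  have e2 := hB ω ω' fun v hv => h v (Or.inr hv)
  show (A ω ∧ B ω) = (A ω' ∧ B ω')
  rw [e1, e2]

private theorem fi16_JJ_dep {L : Lat} {N N' : ℤ} {E : Set Pt} {w n D : ℤ} {z z' : Pt}
    (h : Cnd N N' w n z z' D) :
    Dep (fun ω => L.Ev N N' E (sc w z) w (D / 16) ω ∧ L.Ev N N' E (sc w z') w (D / 16) ω)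
      (annAt (sc w z) w (2 * (D / 16)) ∪ annAt (sc w z') w (2 * (D / 16))) ∧
    Dep (L.Ev N N' E (sc w z) (4 * D) n) (annAt (sc w z) (4 * D) (2 * n)) := by
  obtain ⟨w1, wn, nN, nN', wD, Dn, d1, d2, z1, z2, z1', z2'⟩ := h
  exact ⟨fi16_and (Lat.Ev.dep L E (by omega) z1 z2) (Lat.Ev.dep L E (by omega) z1' z2'),
    Lat.Ev.dep L E (by omega) (z1.trans (by omega)) (z2.trans (by omega))⟩

/-- independence: the supports `annAt (sc w z) w (2 (D/16))`, `annAt (sc w z') w (2 (D/16))`, `annAt (sc w z) (4 D) (2 n)` are disjoint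
(`D < nrm (sc w z - sc w z') ≤ 2 D`), `pr2_and` twice -/
theorem JJ_pr2 {L : Lat} {N N' : ℤ} {E : Set Pt} {w n D : ℤ} {z z' : Pt}
    (h : Cnd N N' w n z z' D) (κ : Pt → ℝ) :
    pr2 κ (L.JJ N N' E w n z z' D) = pr2 κ (L.Ev N N' E (sc w z) w (D / 16)) *
      pr2 κ (L.Ev N N' E (sc w z') w (D / 16)) * pr2 κ (L.Ev N N' E (sc w z) (4 * D) n) := by
  obtain ⟨dAB, dC⟩ := fi16_JJ_dep (L := L) (E := E) h
  obtain ⟨w1, wn, nN, nN', wD, Dn, d1, d2, z1, z2, z1', z2'⟩ := h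
  rw [bd2_nrm] at d1 d2
  have dA := Lat.Ev.dep L E (x := sc w z) (a := w) (b := D / 16) (by omega) z1 z2
  have dB := Lat.Ev.dep L E (x := sc w z') (a := w) (b := D / 16) (by omega) z1' z2'
  have lA := Ev_loc L E (x := sc w z) (a := w) (b := D / 16) (by omega) z1 z2
  have lB := Ev_loc L E (x := sc w z') (a := w) (b := D / 16) (by omega) z1' z2'
  have lC := XP.loc_of_dep (XP.annAt_finite _ _ _) dC
  have lAB : Loc (fun ω => L.Ev N N' E (sc w z) w (D / 16) ω ∧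
      L.Ev N N' E (sc w z') w (D / 16) ω) :=
    XP.loc_of_dep ((XP.annAt_finite _ _ _).union (XP.annAt_finite _ _ _)) dAB
  have c0 := fi16_comm (sc w z) (sc w z')
  have e1 : pr2 κ (L.JJ N N' E w n z z' D) =
      pr2 κ (fun ω => L.Ev N N' E (sc w z) w (D / 16) ω ∧ L.Ev N N' E (sc w z') w (D / 16) ω) *
        pr2 κ (L.Ev N N' E (sc w z) (4 * D) n) := by
    refine pr2_and lAB lC dAB dC (fun v hv hv' => ?_) κ
    obtain ⟨k1, k2⟩ := hv'
    rcases hv with ⟨k3, k4⟩ | ⟨k3, k4⟩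
    · omega
    · have k5 := XP.nrm_tri v (sc w z') (sc w z)
      omega
  have e2 : pr2 κ (fun ω => L.Ev N N' E (sc w z) w (D / 16) ω ∧
      L.Ev N N' E (sc w z') w (D / 16) ω) =
      pr2 κ (L.Ev N N' E (sc w z) w (D / 16)) * pr2 κ (L.Ev N N' E (sc w z') w (D / 16)) := by
    refine pr2_and lA lB dA dB (fun v hv hv' => ?_) κ
    obtain ⟨k1, k2⟩ := hv
    obtain ⟨k3, k4⟩ := hv'
    have k5 := XP.nrm_tri (sc w z) v (sc w z')
    have k6 := fi16_comm (sc w z) v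
    omega
  rw [e1, e2]

/-- `infl2` for `g = ind (Crs)`, `B = fb F w z`, `B' = fb F w z'`, `J = JJ`.  If `¬ J ω`, then by `JJ_of_piv` either no configuration that
agrees with `ω` off `B ∪ B'` has `B` pivotal, or none has `B'` pivotal; `ind Crs ω'' ≠ ind Crs ω'` with `ω'' = ω'` off `B` gives
`PivS B ω'`. -/
theorem JJ_sum {L : Lat} {N N' : ℤ} {E : Set Pt} {w n D : ℤ} {z z' : Pt}
    (h : Cnd N N' w n z z' D) (hE : GoodE L N E) {F : Finset Pt}
    (hF : ∀ v, v ∈ F ↔ v ∈ dom N N' E) {κ : Pt → ℝ} (hκ : Kap κ) :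
    ∑ S ∈ F.powerset.filter (fun S => ¬ Disjoint S (fb F w z) ∧ ¬ Disjoint S (fb F w z')),
      (∏ v ∈ S, κ v) * fc (ind (L.Crs N N' E)) S ^ 2 ≤
      16 * pr2 κ (L.JJ N N' E w n z z' D) := by
  obtain ⟨dAB, dC⟩ := fi16_JJ_dep (L := L) (E := E) h
  have lJ : Loc (L.JJ N N' E w n z z' D) :=
    XP.loc_of_dep (((XP.annAt_finite _ _ _).union (XP.annAt_finite _ _ _)).union
      (XP.annAt_finite _ _ _)) (fi16_and dAB dC)
  refine infl2 (fi16_ind hF) (fb F w z) (fb F w z') lJ (fun ω => (fi16_ind01 _ ω).1)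
    (fun ω => (fi16_ind01 _ ω).2) (fun ω hJ => ?_) hκ
  by_contra hcon
  push Not at hcon
  obtain ⟨⟨ω₁, ω₁', a1, a2, a3⟩, ω₂, ω₂', b1, b2, b3⟩ := hcon
  refine hJ (JJ_of_piv h hE (fb_sub h.w1 z) (fb_sub h.w1 z') (ω₁ := ω₁) (ω₂ := ω₂)
    (fun v hv hv' => a1 v (fun k => hv (Finset.mem_coe.2 k)) (fun k => hv' (Finset.mem_coe.2 k)))
    (fun v hv hv' => b1 v (fun k => hv (Finset.mem_coe.2 k)) (fun k => hv' (Finset.mem_coe.2 k)))
    ?_ ?_)
  · exact fi16_piv (fun v _ => rfl) (fun v hv => a2 v (fun k => hv (Finset.mem_coe.2 k))) a3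
  · exact fi16_piv (fun v _ => rfl) (fun v hv => b2 v (fun k => hv (Finset.mem_coe.2 k))) b3

/-- single block, `infl1`, `PivS.ev` with radii `w`, `n` -/
theorem Ev_sum {L : Lat} {N N' : ℤ} {E : Set Pt} {w n : ℤ} {z : Pt} (hw : 1 ≤ w) (hn : 0 < n)
    (hnN : n ≤ N) (hnN' : n ≤ N') (h1 : |w * z.1| ≤ N + w) (h2 : |w * z.2| ≤ N' + w)
    (hE : GoodE L N E) {F : Finset Pt} (hF : ∀ v, v ∈ F ↔ v ∈ dom N N' E) {κ : Pt → ℝ}
    (hκ : Kap κ) :
    ∑ S ∈ F.powerset.filter (fun S => ¬ Disjoint S (fb F w z)),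
      (∏ v ∈ S, κ v) * fc (ind (L.Crs N N' E)) S ^ 2 ≤
      4 * pr2 κ (L.Ev N N' E (sc w z) w n) := by
  have lJ : Loc (L.Ev N N' E (sc w z) w n) := Ev_loc L E (x := sc w z) (by omega) h1 h2
  refine infl1 (fi16_ind hF) (fb F w z) lJ (fun ω => (fi16_ind01 _ ω).1)
    (fun ω => (fi16_ind01 _ ω).2) (fun ω hJ ω' ω'' a1 a2 => ?_) hκ
  by_contra hne
  refine hJ ?_
  have hp : L.PivS N N' E ((fb F w z : Finset Pt) : Set Pt) ω :=
    fi16_piv (fun v hv => a1 v (fun k => hv (Finset.mem_coe.2 k)))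
      (fun v hv => a2 v (fun k => hv (Finset.mem_coe.2 k))) hne
  exact hp.ev (x := sc w z) (by omega) (by omega) hE (by omega) hnN hnN' h1 h2 (fb_sub hw z)

end FI

end SC

end

/-! ### from `Lib_MP_e0a489.FI18` -/

section

/-!
# MP_e0a489, module FI 18: from small sets to blocks
-/

set_option autoImplicit false

namespace SC

open Classical

namespace FI

/-- numbers of the blocks that meet `F` -/
noncomputable def fz (F : Finset Pt) (w : ℤ) : Finset Pt := F.image fun v => (v.1 / w, v.2 / w)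

private theorem fi18_div {w x : ℤ} (hw : 1 ≤ w) : w * (x / w) ≤ x ∧ x - w < w * (x / w) := by
  have h1 := Int.mul_ediv_add_emod x w
  have h2 := Int.emod_nonneg x (show w ≠ 0 by omega)
  have h3 := Int.emod_lt_of_pos x (show 0 < w by omega)
  constructor
  · omega
  · omega

private theorem fi18_abs {w x y : ℤ} (hw : 1 ≤ w) :
    |x - y| - w ≤ |w * (x / w) - w * (y / w)| := by
  obtain ⟨a1, a2⟩ := fi18_div (x := x) hw
  obtain ⟨b1, b2⟩ := fi18_div (x := y) hw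
  rcases abs_cases (x - y) with ⟨h, _⟩ | ⟨h, _⟩ <;>
    rcases abs_cases (w * (x / w) - w * (y / w)) with ⟨h', _⟩ | ⟨h', _⟩ <;> rw [h, h'] <;> linarith

private theorem fi18_bd2 {w d : ℤ} {u v : Pt} (hw : 1 ≤ w) (h : d ≤ nrm (u - v)) :
    d - w ≤ bd2 w (u.1 / w, u.2 / w) (v.1 / w, v.2 / w) := by
  have h1 : |u.1 - v.1| - w ≤ |w * (u.1 / w) - w * (v.1 / w)| := fi18_abs hw
  have h2 : |u.2 - v.2| - w ≤ |w * (u.2 / w) - w * (v.2 / w)| := fi18_abs hw
  have h3 : nrm (u - v) = max |u.1 - v.1| |u.2 - v.2| := rfl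
  rw [h3] at h
  show d - w ≤ max |w * (u.1 / w) - w * (v.1 / w)| |w * (u.2 / w) - w * (v.2 / w)|
  rcases le_max_iff.1 h with h | h
  · exact le_trans (by linarith) (le_max_left _ _)
  · exact le_trans (by linarith) (le_max_right _ _)

private theorem fi18_kt {t a : ℝ} (ht : 0 ≤ t) (hta : t * a ≤ 1) {S : Finset Pt}
    (hS : (S.card : ℝ) ≤ a) : 1 ≤ 3 * ∏ v ∈ S, kt t v := by
  have h1 : ∏ v ∈ S, kt t v = Real.exp (-(t * S.card)) := by
    unfold kt
    rw [Finset.prod_const, ← Real.exp_nat_mul]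
    congr 1
    ring
  have h2 : t * S.card ≤ 1 := le_trans (mul_le_mul_of_nonneg_left hS ht) hta
  have h3 : Real.exp (-1) ≤ Real.exp (-(t * S.card)) := Real.exp_le_exp.2 (by linarith)
  have h4 : (1 : ℝ) ≤ 3 * Real.exp (-1) := by
    rw [Real.exp_neg]
    have h5 : Real.exp 1 < 3 := Real.exp_one_lt_three
    have h6 : 0 < Real.exp 1 := Real.exp_pos 1
    rw [← div_eq_mul_inv, le_div_iff₀ h6]
    linarith
  rw [h1]
  linarith

private theorem fi18_nn {t : ℝ} (g : Cfg → ℝ) (S : Finset Pt) :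
    0 ≤ (∏ v ∈ S, kt t v) * fc g S ^ 2 :=
  mul_nonneg (Finset.prod_nonneg fun _ _ => (Real.exp_pos _).le) (sq_nonneg _)

private theorem fi18_sub {ι : Type} (I : Finset ι) (B : ι → Finset (Finset Pt))
    {h : Finset Pt → ℝ} (h0 : ∀ S, 0 ≤ h S) :
    ∑ S ∈ I.biUnion B, h S ≤ ∑ i ∈ I, ∑ S ∈ B i, h S := by
  induction I using Finset.induction_on with
  | empty => simp
  | insert a s ha ih =>
    rw [Finset.biUnion_insert, Finset.sum_insert ha]
    have h4 := Finset.sum_union_inter (s₁ := B a) (s₂ := s.biUnion B) (f := h)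
    have h5 : 0 ≤ ∑ S ∈ B a ∩ s.biUnion B, h S := Finset.sum_nonneg fun S _ => h0 S
    linarith

private theorem fi18_cover {ι : Type} {A : Finset (Finset Pt)} {I : Finset ι}
    {B : ι → Finset (Finset Pt)} {f h : Finset Pt → ℝ} (hf : ∀ S ∈ A, f S ≤ 3 * h S)
    (h0 : ∀ S, 0 ≤ h S) (hc : ∀ S ∈ A, ∃ i ∈ I, S ∈ B i) :
    ∑ S ∈ A, f S ≤ 3 * ∑ i ∈ I, ∑ S ∈ B i, h S := by
  have h1 : ∑ S ∈ A, f S ≤ 3 * ∑ S ∈ A, h S := by
    rw [Finset.mul_sum]
    exact Finset.sum_le_sum hf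
  have h2 : ∑ S ∈ A, h S ≤ ∑ S ∈ I.biUnion B, h S := by
    refine Finset.sum_le_sum_of_subset_of_nonneg ?_ (fun S _ _ => h0 S)
    intro S hS
    obtain ⟨i, hi, hS'⟩ := hc S hS
    exact Finset.mem_biUnion.2 ⟨i, hi, hS'⟩
  have h3 : ∑ S ∈ I.biUnion B, h S ≤ ∑ i ∈ I, ∑ S ∈ B i, h S := fi18_sub I B h0
  linarith

/-- positions of the blocks: `v.1 - w < w (v.1 / w) ≤ v.1` -/
theorem fz_pos {N N' w : ℤ} {E : Set Pt} {F : Finset Pt} (hw : 1 ≤ w)
    (hF : ∀ v, v ∈ F ↔ v ∈ dom N N' E) :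
    ∀ z ∈ fz F w, |w * z.1| ≤ N + w ∧ |w * z.2| ≤ N' + w := by
  intro z hz
  obtain ⟨v, hv, rfl⟩ := Finset.mem_image.1 hz
  have hd : v ∈ dom N N' E := (hF v).1 hv
  obtain ⟨⟨⟨a1, a2⟩, a3, a4⟩, _⟩ := hd
  obtain ⟨b1, b2⟩ := fi18_div (x := v.1) hw
  obtain ⟨c1, c2⟩ := fi18_div (x := v.2) hw
  constructor
  · show |w * (v.1 / w)| ≤ N + w
    rw [abs_le]
    constructor <;> linarith
  · show |w * (v.2 / w)| ≤ N' + w
    rw [abs_le]
    constructor <;> linarith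

/-- Pairs of blocks.  For a set `S` of the left side, with `u, v ∈ S`, `d ≤ nrm (u - v)`, let `z = (u.1 / w, u.2 / w)`, `z'` the same for `v`; then `S` meets
`fb F w z` and `fb F w z'` and `bd2 w z z' ≥ d - w` (`|u.1 - w z.1| < w` with the same sign, so `|w z.1 - w z'.1| > |u.1 - v.1| - w`).  Moreover
`∏ kt t = exp (- t |S|) ≥ exp (-1) ≥ 1/3`.  So `fc g S ^ 2 ≤ 3 (∏ kt t) fc g S ^ 2`, and the left side is at most `3` times
the sum over the pairs of blocks of the sums over the sets which meet both. -/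
theorem small_pairs {g : Cfg → ℝ} {F : Finset Pt} {t a : ℝ} {w d : ℤ} (ht : 0 ≤ t)
    (hta : t * a ≤ 1) (hw : 1 ≤ w) :
    ∑ S ∈ F.powerset.filter (fun S => (S.card : ℝ) ≤ a ∧ ∃ u ∈ S, ∃ v ∈ S, d ≤ nrm (u - v)),
      fc g S ^ 2 ≤
    3 * ∑ p ∈ (fz F w ×ˢ fz F w).filter (fun p => d - w ≤ bd2 w p.1 p.2),
      ∑ S ∈ F.powerset.filter
        (fun S => ¬ Disjoint S (fb F w p.1) ∧ ¬ Disjoint S (fb F w p.2)),
        (∏ v ∈ S, kt t v) * fc g S ^ 2 := by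
  refine fi18_cover (fun S hS => ?_) (fun S => fi18_nn g S) (fun S hS => ?_)
  · obtain ⟨_, h1, _⟩ := Finset.mem_filter.1 hS
    have h2 := fi18_kt ht hta h1
    have h3 := mul_le_mul_of_nonneg_right h2 (sq_nonneg (fc g S))
    calc fc g S ^ 2 = 1 * fc g S ^ 2 := (one_mul _).symm
      _ ≤ 3 * (∏ v ∈ S, kt t v) * fc g S ^ 2 := h3
      _ = 3 * ((∏ v ∈ S, kt t v) * fc g S ^ 2) := by ring
  · obtain ⟨h0, _, u, hu, v, hv, hd⟩ := Finset.mem_filter.1 hS
    have h1 := Finset.mem_powerset.1 h0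
    refine ⟨((u.1 / w, u.2 / w), (v.1 / w, v.2 / w)), ?_, ?_⟩
    · refine Finset.mem_filter.2 ⟨Finset.mem_product.2 ⟨?_, ?_⟩, fi18_bd2 hw hd⟩
      · exact Finset.mem_image.2 ⟨u, h1 hu, rfl⟩
      · exact Finset.mem_image.2 ⟨v, h1 hv, rfl⟩
    · refine Finset.mem_filter.2 ⟨h0, ?_, ?_⟩
      · exact Finset.not_disjoint_iff.2 ⟨u, hu, Finset.mem_filter.2 ⟨h1 hu, rfl, rfl⟩⟩
      · exact Finset.not_disjoint_iff.2 ⟨v, hv, Finset.mem_filter.2 ⟨h1 hv, rfl, rfl⟩⟩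

/-- The same with one block (`u ∈ S`). -/
theorem small_single {g : Cfg → ℝ} {F : Finset Pt} {t a : ℝ} {w d : ℤ} (ht : 0 ≤ t)
    (hta : t * a ≤ 1) (hw : 1 ≤ w) :
    ∑ S ∈ F.powerset.filter (fun S => (S.card : ℝ) ≤ a ∧ ∃ u ∈ S, ∃ v ∈ S, d ≤ nrm (u - v)),
      fc g S ^ 2 ≤
    3 * ∑ z ∈ fz F w, ∑ S ∈ F.powerset.filter (fun S => ¬ Disjoint S (fb F w z)),
        (∏ v ∈ S, kt t v) * fc g S ^ 2 := by
  refine fi18_cover (fun S hS => ?_) (fun S => fi18_nn g S) (fun S hS => ?_)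
  · obtain ⟨_, h1, _⟩ := Finset.mem_filter.1 hS
    have h2 := fi18_kt ht hta h1
    have h3 := mul_le_mul_of_nonneg_right h2 (sq_nonneg (fc g S))
    calc fc g S ^ 2 = 1 * fc g S ^ 2 := (one_mul _).symm
      _ ≤ 3 * (∏ v ∈ S, kt t v) * fc g S ^ 2 := h3
      _ = 3 * ((∏ v ∈ S, kt t v) * fc g S ^ 2) := by ring
  · obtain ⟨h0, _, u, hu, _⟩ := Finset.mem_filter.1 hS
    have h1 := Finset.mem_powerset.1 h0
    refine ⟨(u.1 / w, u.2 / w), Finset.mem_image.2 ⟨u, h1 hu, rfl⟩, ?_⟩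
    refine Finset.mem_filter.2 ⟨h0, ?_⟩
    exact Finset.not_disjoint_iff.2 ⟨u, hu, Finset.mem_filter.2 ⟨h1 hu, rfl, rfl⟩⟩

/-- Trivial bound: Parseval, `ind ^ 2 = ind`, `pr_le_one`. -/
theorem small_one {L : Lat} {N N' : ℤ} {E : Set Pt} {F : Finset Pt}
    (hF : ∀ v, v ∈ F ↔ v ∈ dom N N' E) (P : Finset Pt → Prop) :
    ∑ S ∈ F.powerset.filter P, fc (ind (L.Crs N N' E)) S ^ 2 ≤ 1 := by
  have hset : (F : Set Pt) = dom N N' E := Set.ext fun v => by
    rw [Finset.mem_coe]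
    exact hF v
  have hd : Dep (ind (L.Crs N N' E)) (F : Set Pt) := by
    rw [hset]
    exact (Lat.Crs.dep L N N' E).ind
  have h1 := parseval hd hd
  have h2 : ex (fun ω => ind (L.Crs N N' E) ω * ind (L.Crs N N' E) ω) = pr (L.Crs N N' E) := by
    unfold pr
    congr 1
    funext ω
    unfold ind
    split_ifs <;> norm_num
  have h3 : ∑ S ∈ F.powerset, fc (ind (L.Crs N N' E)) S * fc (ind (L.Crs N N' E)) S =
      ∑ S ∈ F.powerset, fc (ind (L.Crs N N' E)) S ^ 2 :=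
    Finset.sum_congr rfl fun S _ => (sq _).symm
  have h4 : ∑ S ∈ F.powerset.filter P, fc (ind (L.Crs N N' E)) S ^ 2 ≤
      ∑ S ∈ F.powerset, fc (ind (L.Crs N N' E)) S ^ 2 :=
    Finset.sum_le_sum_of_subset_of_nonneg (Finset.filter_subset _ _) fun S _ _ => sq_nonneg _
  have h5 : pr (L.Crs N N' E) ≤ 1 := pr_le_one _
  rw [h2, h3] at h1
  linarith

end FI

end SC

end

/-! ### from `Lib_MP_e0a489.ZT3` -/

section

/-!
# MP_e0a489, triangular lattice, 3: the critical width of a height, one more column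
-/

set_option autoImplicit false

namespace SC

open Classical

/-- the finite set of the sites of a rectangle -/
private noncomputable def zt3_R (a b p q : ℤ) : Finset Pt := Finset.Icc a b ×ˢ Finset.Icc p q

private theorem zt3_mem {a b p q : ℤ} {v : Pt} : v ∈ zt3_R a b p q ↔ v ∈ rect a b p q := by
  unfold zt3_R
  rw [Finset.mem_product, Finset.mem_Icc, Finset.mem_Icc]
  exact Iff.rfl

private theorem zt3_sub (a b p q : ℤ) : rect a b p q ⊆ (zt3_R a b p q : Set Pt) :=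
  fun _ hv => Finset.mem_coe.2 (zt3_mem.2 hv)

private theorem zt3_st (ω : Cfg) (v : Pt) : TL.st ω v = ω v := rfl

/-- search for the last good width -/
private theorem zt3_find {n : ℤ} (k : ℕ) (h0 : 1 / 2 ≤ tH (n - n / 2) n) :
    1 / 2 ≤ tH (n - n / 2 + k) n ∨ ∃ m : ℤ, n - n / 2 ≤ m ∧ m < n - n / 2 + k ∧
      1 / 2 ≤ tH m n ∧ tH (m + 1) n < 1 / 2 := by
  induction k with
  | zero =>
    left
    have e : n - n / 2 + ((0 : ℕ) : ℤ) = n - n / 2 := by simp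
    rw [e]
    exact h0
  | succ k ih =>
    rcases ih with ih | ⟨m, h1, h2, h3, h4⟩
    · by_cases hk : 1 / 2 ≤ tH (n - n / 2 + ((k + 1 : ℕ) : ℤ)) n
      · exact Or.inl hk
      · refine Or.inr ⟨n - n / 2 + k, by omega, by push_cast; omega, ih, ?_⟩
        have e : n - n / 2 + (k : ℤ) + 1 = n - n / 2 + ((k + 1 : ℕ) : ℤ) := by push_cast; ring
        rw [e]
        exact not_le.1 hk
    · exact Or.inr ⟨m, h1, by push_cast; omega, h3, h4⟩

/-- The critical width.  Either `1/2 ≤ tH (n + n/2) n`, then `m = n + n/2` (`tV (m+1) n ≥ tV m n ≥ 1/2` by `tV_mono`, `tl_rh_v`); or there is `m` with `n - n/2 ≤ m < n + n/2`, `1/2 ≤ tH m n`,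
`tH (m+1) n < 1/2` (start with `tl_rh_h` and increase `m` until the inequality fails: induction on the distance, or `Nat.findGreatest`), then `tV (m+1) n = 1 - tH (m+1) n > 1/2` (`tV_eq`). -/
theorem tl_a {n : ℤ} (hn : 0 ≤ n) : ∃ m : ℤ, n - n / 2 ≤ m ∧ m ≤ n + n / 2 ∧
    1 / 2 ≤ tH m n ∧ 1 / 2 ≤ tV (m + 1) n := by
  obtain ⟨k, hk⟩ : ∃ k : ℕ, (k : ℤ) = 2 * (n / 2) := ⟨(2 * (n / 2)).toNat, by omega⟩
  rcases zt3_find k (tl_rh_h hn) with h | ⟨m, h1, h2, h3, h4⟩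
  · have e : n - n / 2 + (k : ℤ) = n + n / 2 := by omega
    rw [e] at h
    refine ⟨n + n / 2, by omega, le_rfl, h, (tl_rh_v hn).trans ?_⟩
    exact tV_mono hn (by omega) le_rfl
  · refine ⟨m, h1, by omega, h3, ?_⟩
    rw [tV_eq (by omega) hn]
    linarith

/-- One more column costs a factor `1/2`.  `resample` (PD2.lean) with the constant stopping set `R = fun _ => rect 0 a 0 b`, `G` = the sites of `rect 0 (a+1) 0 b`, `E = HX true 0 a 0 b`,
`E' = HX true 0 (a+1) 0 b`; for `ω ∈ E` choose a crossing with end `w = w(ω)`, `w.1 = a`, and let `F ω` be the event that the site `w + (1, 0)` is open, `p = 1/2 ≤ pr (F ω)` (`pr_pos` for the finite set `{w + (1, 0)}`).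
The mixed configuration is `ω` on `rect 0 a 0 b` and `η` at `w + (1, 0)`: the crossing is continued by this site (`adj_right`).  The conditional probabilities are probabilities: `cpr_eq_pr`. -/
theorem tl_col {a b : ℤ} (ha : 0 ≤ a) (hb : 0 ≤ b) : 1 / 2 * tH a b ≤ tH (a + 1) b := by
  obtain ⟨w, hw⟩ : ∃ w : Cfg → Pt, ∀ ω, TL.HX true 0 a 0 b ω →
      (w ω).1 = a ∧ ∃ u : Pt, u.1 = 0 ∧ TL.Cn (rect 0 a 0 b ∩ TL.col true ω) u (w ω) := by
    refine ⟨fun ω => if h : TL.HX true 0 a 0 b ω then h.choose_spec.choose else 0, fun ω h => ?_⟩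
    have h1 := h.choose_spec.choose_spec
    show (dite _ _ _ : Pt).1 = a ∧ ∃ u : Pt, u.1 = 0 ∧
      TL.Cn (rect 0 a 0 b ∩ TL.col true ω) u (dite _ _ _)
    rw [dif_pos h]
    exact ⟨h1.2.1, h.choose, h1.1, h1.2.2⟩
  have hmemw : ∀ ω, TL.HX true 0 a 0 b ω → w ω ∈ rect 0 a 0 b := by
    intro ω h
    obtain ⟨_, u, _, h2⟩ := hw ω h
    exact h2.right.1
  have hw' : ∀ ω, TL.HX true 0 a 0 b ω →
      ((w ω).1 + 1, (w ω).2) ∈ rect 0 (a + 1) 0 b := by
    intro ω h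
    obtain ⟨h1, h2⟩ := hmemw ω h
    have h3 := (hw ω h).1
    refine ⟨⟨?_, ?_⟩, h2⟩
    · show 0 ≤ (w ω).1 + 1
      omega
    · show (w ω).1 + 1 ≤ a + 1
      omega
  have key := resample (R := fun _ => rect 0 a 0 b) (fun _ _ _ => rfl)
    (G := zt3_R 0 (a + 1) 0 b) (I := ({()} : Finset Unit)) (E := TL.HX true 0 a 0 b)
    (F := fun ω η => η ((w ω).1 + 1, (w ω).2) = true)
    (E' := fun _ => TL.HX true 0 (a + 1) 0 b) (p := 1 / 2)
    (fun ω h => by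
      have h1 : Dep (fun η : Cfg => η ((w ω).1 + 1, (w ω).2) = true)
          ((({((w ω).1 + 1, (w ω).2)} : Finset Pt)) : Set Pt) := by
        intro η η' hη
        have h2 := hη ((w ω).1 + 1, (w ω).2) (Finset.mem_coe.2 (Finset.mem_singleton_self _))
        show (η ((w ω).1 + 1, (w ω).2) = true) = (η' ((w ω).1 + 1, (w ω).2) = true)
        rw [h2]
      have h3 := pr_pos h1 (ω := fun _ => true) rfl
      rw [Finset.card_singleton, pow_one] at h3
      exact h3)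
    (fun ω h => by
      intro η η' hη
      have h2 := hη ((w ω).1 + 1, (w ω).2) (zt3_sub _ _ _ _ (hw' ω h))
      show (η ((w ω).1 + 1, (w ω).2) = true) = (η' ((w ω).1 + 1, (w ω).2) = true)
      rw [h2])
    (fun ω η h hη => by
      refine ⟨(), Finset.mem_singleton_self _, ?_⟩
      obtain ⟨h1, u, h2, h3⟩ := hw ω h
      have hsub : rect 0 a 0 b ∩ TL.col true ω ⊆
          rect 0 (a + 1) 0 b ∩ TL.col true (mix (zt3_R 0 (a + 1) 0 b) (fun _ => rect 0 a 0 b) ω η) := by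
        rintro x ⟨hx1, hx2⟩
        refine ⟨⟨⟨hx1.1.1, hx1.1.2.trans (by omega)⟩, hx1.2⟩, ?_⟩
        show mix (zt3_R 0 (a + 1) 0 b) (fun _ => rect 0 a 0 b) ω η x = true
        unfold mix
        rw [if_neg (fun hh => hh.2 hx1)]
        exact hx2
      have hend : (((w ω).1 + 1, (w ω).2) : Pt) ∈ rect 0 (a + 1) 0 b ∩
          TL.col true (mix (zt3_R 0 (a + 1) 0 b) (fun _ => rect 0 a 0 b) ω η) := by
        refine ⟨hw' ω h, ?_⟩
        show mix (zt3_R 0 (a + 1) 0 b) (fun _ => rect 0 a 0 b) ω η ((w ω).1 + 1, (w ω).2) = true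
        unfold mix
        rw [if_pos]
        · exact hη
        · refine ⟨zt3_mem.2 (hw' ω h), fun hh => ?_⟩
          have h4 : (w ω).1 + 1 ≤ a := hh.1.2
          omega
      refine ⟨u, ((w ω).1 + 1, (w ω).2), h2, ?_, (h3.mono hsub).trans
        (Lat.Cn.of_adj (h3.mono hsub).right hend (Lat.adj_right (L := TL) (w ω)))⟩
      show (w ω).1 + 1 = a + 1
      rw [h1])
    (fun _ => false)
  rw [Finset.sum_singleton] at key
  rw [cpr_eq_pr ((Lat.HX.dep TL true 0 (a + 1) 0 b).mono (zt3_sub _ _ _ _)),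
    cpr_eq_pr ((Lat.HX.dep TL true 0 a 0 b).mono fun v hv =>
      zt3_sub _ _ _ _ ⟨⟨hv.1.1, hv.1.2.trans (by omega)⟩, hv.2⟩)] at key
  exact key

/-- all sites of the row `0` are open (`pr_pos` for `HX true 0 a 0 0` and the finite set of its sites, then `tH_mono`) -/
theorem tl_row {a b : ℤ} (ha : 0 ≤ a) (hb : 0 ≤ b) : (1 / 2 : ℝ) ^ (a.toNat + 1) ≤ tH a b := by
  have hpath : ∀ k : ℕ, (k : ℤ) ≤ a →
      TL.Cn (rect 0 a 0 0 ∩ TL.col true (fun _ => true)) (0, 0) ((k : ℤ), 0) := by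
    intro k
    induction k with
    | zero =>
      intro _
      exact Lat.Cn.refl ⟨⟨⟨le_rfl, ha⟩, le_rfl, le_rfl⟩, rfl⟩
    | succ k ih =>
      intro hk
      push_cast at hk ⊢
      have h1 := ih (by omega)
      have hmem1 : (((k : ℤ), 0) : Pt) ∈ rect 0 a 0 0 ∩ TL.col true (fun _ => true) :=
        ⟨⟨⟨by dsimp only; omega, by dsimp only; omega⟩, le_rfl, le_rfl⟩, rfl⟩
      have hmem2 : (((k : ℤ) + 1, 0) : Pt) ∈ rect 0 a 0 0 ∩ TL.col true (fun _ => true) :=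
        ⟨⟨⟨by dsimp only; omega, by dsimp only; omega⟩, le_rfl, le_rfl⟩, rfl⟩
      exact Lat.Cn.trans h1 (Lat.Cn.of_adj hmem1 hmem2 (Lat.adj_right (L := TL) ((k : ℤ), 0)))
  have hω : TL.HX true 0 a 0 0 (fun _ => true) := by
    refine ⟨(0, 0), (a, 0), rfl, rfl, ?_⟩
    have h1 := hpath a.toNat (by omega)
    rwa [Int.toNat_of_nonneg ha] at h1
  have hdep : Dep (TL.HX true 0 a 0 0) ((zt3_R 0 a 0 0 : Finset Pt) : Set Pt) :=
    (Lat.HX.dep TL true 0 a 0 0).mono (zt3_sub _ _ _ _)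
  have hcard : (zt3_R 0 a 0 0).card = a.toNat + 1 := by
    unfold zt3_R
    rw [Finset.card_product, Int.card_Icc, Int.card_Icc]
    have e : ((0 : ℤ) + 1 - 0).toNat = 1 := rfl
    rw [e, mul_one]
    omega
  have h5 := pr_pos hdep hω
  rw [hcard] at h5
  refine h5.trans ?_
  exact tH_mono (a := a) (b := 0) ha le_rfl hb

/-- all sites of the column `0` are open -/
theorem tl_row_v {a b : ℤ} (ha : 0 ≤ a) (hb : 0 ≤ b) : (1 / 2 : ℝ) ^ (b.toNat + 1) ≤ tV a b := by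
  have hpath : ∀ k : ℕ, (k : ℤ) ≤ b →
      TL.Cn (rect 0 0 0 b ∩ TL.col true (fun _ => true)) (0, 0) (0, (k : ℤ)) := by
    intro k
    induction k with
    | zero =>
      intro _
      exact Lat.Cn.refl ⟨⟨⟨le_rfl, le_rfl⟩, le_rfl, hb⟩, rfl⟩
    | succ k ih =>
      intro hk
      push_cast at hk ⊢
      have h1 := ih (by omega)
      have hmem1 : ((0, (k : ℤ)) : Pt) ∈ rect 0 0 0 b ∩ TL.col true (fun _ => true) :=
        ⟨⟨⟨le_rfl, le_rfl⟩, by dsimp only; omega, by dsimp only; omega⟩, rfl⟩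
      have hmem2 : ((0, (k : ℤ) + 1) : Pt) ∈ rect 0 0 0 b ∩ TL.col true (fun _ => true) :=
        ⟨⟨⟨le_rfl, le_rfl⟩, by dsimp only; omega, by dsimp only; omega⟩, rfl⟩
      exact Lat.Cn.trans h1 (Lat.Cn.of_adj hmem1 hmem2 (Lat.adj_up (L := TL) (0, (k : ℤ))))
  have hω : TL.VX true 0 0 0 b (fun _ => true) := by
    refine ⟨(0, 0), (0, b), rfl, rfl, ?_⟩
    have h1 := hpath b.toNat (by omega)
    rwa [Int.toNat_of_nonneg hb] at h1
  have hdep : Dep (TL.VX true 0 0 0 b) ((zt3_R 0 0 0 b : Finset Pt) : Set Pt) :=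
    (Lat.VX.dep TL true 0 0 0 b).mono (zt3_sub _ _ _ _)
  have hcard : (zt3_R 0 0 0 b).card = b.toNat + 1 := by
    unfold zt3_R
    rw [Finset.card_product, Int.card_Icc, Int.card_Icc]
    have e : ((0 : ℤ) + 1 - 0).toNat = 1 := rfl
    rw [e, one_mul]
    omega
  have h5 := pr_pos hdep hω
  rw [hcard] at h5
  refine h5.trans ?_
  exact tV_mono (a := 0) (b := b) hb ha le_rfl

end SC

end
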