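import Mathlib
import Pool.Agent.Lib_MP_e0a489_m.G06
import Pool.Agent.Lib_MP_e0a489_m.G08
import Pool.Agent.Lib_MP_e0a489_m.G09
import Pool.Agent.Lib_MP_e0a489_m.G10
import Pool.Agent.Lib_MP_e0a489_m.G11
import Pool.Agent.Lib_MP_e0a489_m.G12
import Pool.Agent.Lib_MP_e0a489_m.G13
import Pool.Agent.Lib_MP_e0a489_m.G14
import Pool.Agent.Lib_MP_e0a489_m.G18
import Pool.Agent.Lib_MP_e0a489_m.G19
import Pool.Agent.Lib_MP_e0a489_m.G20

/-!
# MP_e0a489_pr: merged library part G24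

Concatenation of library files (each in its own section), only to save build time.
-/

/-! ### from `Lib_MP_e0a489.IS7` -/

section

/-!
# MP_e0a489, inner separation 7: the event after the first step
-/

set_option autoImplicit false

namespace SC

open Classical

namespace Lat

variable {L : Lat}

/-- Event after the first step (`r = M w + w / 2`, `w` the coarse size): open arms from `Je 0 R`, `Je 2 R` to the far sides of the
inner blocks `(s₁, k₁)`, `(s₃, k₃)`; closed arms from two ring sites in the two arcs between the triples of these blocks,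
far from the corners, to `Je 1 R`, `Je 3 R` (in some order). -/
def E1i (L : Lat) (r w M R s₁ k₁ s₃ k₃ : ℤ) (ω : Cfg) : Prop :=
  (CellI w (r + 1) k₁ ∧ CellI w (r + 1) k₃) ∧
  L.Arm true (ann r R ∪ Jc true R ∪ ib w M s₁ k₁) (ib w M s₁ k₁ ∩ rng (M * w - w / 2))
    (Je 0 R) ω ∧
  L.Arm true (ann r R ∪ Jc true R ∪ ib w M s₃ k₃) (ib w M s₃ k₃ ∩ rng (M * w - w / 2))
    (Je 2 R) ω ∧
  ∃ s₂ y₂ s₄ y₄ e₂ e₄ : ℤ, ((e₂ = 1 ∧ e₄ = 3) ∨ (e₂ = 3 ∧ e₄ = 1)) ∧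
    |y₂| + 100 * w ≤ r + 1 ∧ |y₄| + 100 * w ≤ r + 1 ∧
    2 * (r + 1) * s₁ + ((k₁ + 1) * w + w / 2) < 2 * (r + 1) * s₂ + y₂ ∧
    2 * (r + 1) * s₂ + y₂ < 2 * (r + 1) * s₃ + ((k₃ - 1) * w - w / 2) ∧
    2 * (r + 1) * s₃ + ((k₃ + 1) * w + w / 2) < 2 * (r + 1) * s₄ + y₄ ∧
    2 * (r + 1) * s₄ + y₄ < 2 * (r + 1) * (s₁ + 4) + ((k₁ - 1) * w - w / 2) ∧
    L.Arm false (ann r R ∪ Jc false R) {rc (r + 1) (2 * (r + 1) * s₂ + y₂)} (Je e₂ R) ω ∧
    L.Arm false (ann r R ∪ Jc false R) {rc (r + 1) (2 * (r + 1) * s₄ + y₄)} (Je e₄ R) ω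

/-- the positions of the coarse cells: a finite set -/
noncomputable def cellsI (M : ℤ) : Finset (ℤ × ℤ × ℤ × ℤ) :=
  Finset.Icc 0 3 ×ˢ Finset.Icc (-M) M ×ˢ Finset.Icc 0 8 ×ˢ Finset.Icc (-M) M

private theorem is7_per {m : ℤ} (hm : 1 ≤ m) (i n : ℤ) : rc m (i + 8 * m * n) = rc m i := by
  induction n using Int.induction_on with
  | zero => simp
  | succ n ih =>
    have e : i + 8 * m * ((n : ℤ) + 1) = (i + 8 * m * n) + 8 * m := by ring
    rw [e, rc_period hm, ih]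
  | pred n ih =>
    have e : i + 8 * m * (-(n : ℤ)) = (i + 8 * m * (-(n : ℤ) - 1)) + 8 * m := by ring
    rw [e, rc_period hm] at ih
    exact ih

private theorem is7_ib {w M s s' k : ℤ} (h : s % 4 = s' % 4) : ib w M s k = ib w M s' k := by
  unfold ib
  rw [rt_mod h]

/-- ORDER IN THE MIXED CONFIGURATION.  Open arms to the blocks `(s, k)`, `(s', k')` (directions `0`, `2`), closed arms from the
ring sites number `2 m t + y`, `2 m t' + y'` (directions `1`, `3`), all sites of the triples different from each other and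
from the two ring sites (`m = r + 1`).  Then `E1i` holds for suitable representatives.
Proof.  `N = 8 m`, `h = w + w/2`, `a = 2 m s + k w`, `b = 2 m s' + k' w`; choose `s₁ = s - 4 (s / 4) ∈ [0, 3]` (so replace `s` by `s₁`,
the block and the sites do not change: `rt_four`, `rc_period`).  `arcs_rep` (the hypotheses `hd` say that there is no common
site; `mem_trip`, `rc_period`) gives `s₃ = s' + 4 n` with `a + h < b' - h`, `b' + h < a + 8 m - h`; since `|k| w, |k'| w < m` we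
have `s₁ ≤ s₃ ≤ s₁ + 4`, so `s₃ ∈ [0, 8]`.  `arcs_pt` puts (representatives of) the two ring sites into the two arcs.  If
both were in the arc from `a` to `b'`: `order_in` with `d₁ = 0`, `d₃ = 2`; if both were in the arc from `b'` to `a + 8 m`: `order_in`
with the blocks `(s₃, k')`, `(s₁ + 4, k)` and `d₁ = 2`, `d₃ = 0`.  So exactly one is in each arc; name them accordingly. -/
theorem order_mix {w M r R s k s' k' t y t' y' : ℤ} {ω : Cfg} (hw : w % 2 = 1) (hw5 : 5 ≤ w)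
    (hr : r = M * w + w / 2) (hR : 8 * r ≤ R) (hk : CellI w (r + 1) k)
    (hk' : CellI w (r + 1) k')
    (a1 : L.Arm true (ann r R ∪ Jc true R ∪ ib w M s k) (ib w M s k ∩ rng (M * w - w / 2))
      (Je 0 R) ω)
    (a3 : L.Arm true (ann r R ∪ Jc true R ∪ ib w M s' k') (ib w M s' k' ∩ rng (M * w - w / 2))
      (Je 2 R) ω)
    (hd : ∀ v ∈ trip w (r + 1) s k, v ∉ trip w (r + 1) s' k')
    (hy : |y| + 100 * w ≤ r + 1) (hy' : |y'| + 100 * w ≤ r + 1)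
    (hn : rc (r + 1) (2 * (r + 1) * t + y) ∈ L.nb (bx r))
    (hn' : rc (r + 1) (2 * (r + 1) * t' + y') ∈ L.nb (bx r))
    (b1 : L.Arm false (ann r R ∪ Jc false R) {rc (r + 1) (2 * (r + 1) * t + y)} (Je 1 R) ω)
    (b3 : L.Arm false (ann r R ∪ Jc false R) {rc (r + 1) (2 * (r + 1) * t' + y')} (Je 3 R) ω)
    (h1 : rc (r + 1) (2 * (r + 1) * t + y) ∉ trip w (r + 1) s k ∪ trip w (r + 1) s' k')
    (h3 : rc (r + 1) (2 * (r + 1) * t' + y') ∉ trip w (r + 1) s k ∪ trip w (r + 1) s' k') :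
    ∃ q ∈ cellsI M, L.E1i r w M R q.1 q.2.1 q.2.2.1 q.2.2.2 ω := by
  obtain ⟨hk0, hk1⟩ := hk
  obtain ⟨hk0', hk1'⟩ := hk'
  have hm : 1 ≤ r + 1 := by
    have := abs_nonneg k
    nlinarith
  have habs : |k * w| = |k| * w := by rw [abs_mul, abs_of_pos (by omega : (0 : ℤ) < w)]
  have habs' : |k' * w| = |k'| * w := by rw [abs_mul, abs_of_pos (by omega : (0 : ℤ) < w)]
  have hkm : |k * w| < r + 1 := by omega
  have hkm' : |k' * w| < r + 1 := by omega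
  have hMk : ∀ l : ℤ, |l| * w + 100 * w ≤ r + 1 → |l| + 1 < M := by
    intro l hl
    by_contra hcon
    have h5 : M ≤ |l| + 1 := not_lt.mp hcon
    have h6 : M * w ≤ (|l| + 1) * w := mul_le_mul_of_nonneg_right h5 (by omega)
    have h7 : (|l| + 1) * w = |l| * w + w := by ring
    omega
  have hkM := hMk k hk1
  have hkM' := hMk k' hk1'
  -- representative of the first side
  obtain ⟨s₁, n₀, hs0, hs3, hs₁⟩ : ∃ s₁ n₀ : ℤ, 0 ≤ s₁ ∧ s₁ ≤ 3 ∧ s₁ = s + 4 * n₀ :=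
    ⟨s % 4, -(s / 4), by omega, by omega, by omega⟩
  have a1' : L.Arm true (ann r R ∪ Jc true R ∪ ib w M s₁ k)
      (ib w M s₁ k ∩ rng (M * w - w / 2)) (Je 0 R) ω := by
    rw [is7_ib (show s₁ % 4 = s % 4 by omega)]
    exact a1
  have ha : ∀ i, |i - (2 * (r + 1) * s₁ + k * w)| ≤ w + w / 2 →
      rc (r + 1) i ∈ trip w (r + 1) s k := by
    intro i hi
    rw [mem_trip]
    refine ⟨i + 8 * (r + 1) * (-n₀), ?_, is7_per hm _ _⟩
    have e : i + 8 * (r + 1) * (-n₀) - (2 * (r + 1) * s + k * w) =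
        i - (2 * (r + 1) * s₁ + k * w) := by
      rw [hs₁]
      ring
    rw [e]
    exact hi
  have hb : ∀ i, |i - (2 * (r + 1) * s' + k' * w)| ≤ w + w / 2 →
      rc (r + 1) i ∈ trip w (r + 1) s' k' := by
    intro i hi
    rw [mem_trip]
    exact ⟨i, hi, rfl⟩
  have hN : 0 < 8 * (r + 1) := by omega
  have hh : 0 ≤ w + w / 2 := by omega
  obtain ⟨n, hn1, hn2⟩ := arcs_rep (N := 8 * (r + 1)) (h := w + w / 2)
    (a := 2 * (r + 1) * s₁ + k * w) (b := 2 * (r + 1) * s' + k' * w) hh hN (by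
      rintro i j hi hj ⟨q, hq⟩
      have e : i = j + 8 * (r + 1) * q := by omega
      have h5 : rc (r + 1) i = rc (r + 1) j := by
        rw [e]
        exact is7_per hm j q
      have h6 := ha i hi
      rw [h5] at h6
      exact hd _ h6 (hb j hj))
  obtain ⟨s₃, hs₃⟩ : ∃ s₃ : ℤ, s₃ = s' + 4 * n := ⟨_, rfl⟩
  have hb3 : 2 * (r + 1) * s' + k' * w + 8 * (r + 1) * n = 2 * (r + 1) * s₃ + k' * w := by
    rw [hs₃]
    ring
  rw [hb3] at hn1 hn2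
  have a3' : L.Arm true (ann r R ∪ Jc true R ∪ ib w M s₃ k')
      (ib w M s₃ k' ∩ rng (M * w - w / 2)) (Je 2 R) ω := by
    rw [is7_ib (show s₃ % 4 = s' % 4 by omega)]
    exact a3
  have hb' : ∀ i, |i - (2 * (r + 1) * s₃ + k' * w)| ≤ w + w / 2 →
      rc (r + 1) i ∈ trip w (r + 1) s' k' := by
    intro i hi
    rw [mem_trip]
    refine ⟨i + 8 * (r + 1) * (-n), ?_, is7_per hm _ _⟩
    have e : i + 8 * (r + 1) * (-n) - (2 * (r + 1) * s' + k' * w) =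
        i - (2 * (r + 1) * s₃ + k' * w) := by
      rw [hs₃]
      ring
    rw [e]
    exact hi
  have e4 : 2 * (r + 1) * (s₁ + 4) + k * w = 2 * (r + 1) * s₁ + k * w + 8 * (r + 1) := by ring
  have e4' : 2 * (r + 1) * (s₃ + 4) + k' * w = 2 * (r + 1) * s₃ + k' * w + 8 * (r + 1) := by ring
  have l1 := lex_of_idx hkm hkm' (s := s₁) (s' := s₃) (by omega)
  have l2 := lex_of_idx hkm' hkm (s := s₃) (s' := s₁ + 4) (by omega)
  have hs3lo : s₁ ≤ s₃ := by omega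
  have hs3hi : s₃ ≤ s₁ + 4 := by omega
  have pt : ∀ t y : ℤ, rc (r + 1) (2 * (r + 1) * t + y) ∉
      trip w (r + 1) s k ∪ trip w (r + 1) s' k' → ∃ n, ∃ t₂, t₂ = t + 4 * n ∧
        rc (r + 1) (2 * (r + 1) * t₂ + y) = rc (r + 1) (2 * (r + 1) * t + y) ∧
        ((2 * (r + 1) * s₁ + k * w + (w + w / 2) < 2 * (r + 1) * t₂ + y ∧
          2 * (r + 1) * t₂ + y < 2 * (r + 1) * s₃ + k' * w - (w + w / 2)) ∨
        (2 * (r + 1) * s₃ + k' * w + (w + w / 2) < 2 * (r + 1) * t₂ + y ∧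
          2 * (r + 1) * t₂ + y < 2 * (r + 1) * s₁ + k * w + 8 * (r + 1) - (w + w / 2))) := by
    intro t y h5
    obtain ⟨n', hn'⟩ := arcs_pt (N := 8 * (r + 1)) (h := w + w / 2)
      (a := 2 * (r + 1) * s₁ + k * w) (b := 2 * (r + 1) * s₃ + k' * w)
      (i := 2 * (r + 1) * t + y) hh hN hn1 hn2
      (by
        rintro j hj ⟨q, hq⟩
        apply h5
        left
        have e : 2 * (r + 1) * t + y = j + 8 * (r + 1) * q := by omega
        rw [e, is7_per hm]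
        exact ha j hj)
      (by
        rintro j hj ⟨q, hq⟩
        apply h5
        right
        have e : 2 * (r + 1) * t + y = j + 8 * (r + 1) * q := by omega
        rw [e, is7_per hm]
        exact hb' j hj)
    have e : 2 * (r + 1) * (t + 4 * n') + y = 2 * (r + 1) * t + y + 8 * (r + 1) * n' := by ring
    refine ⟨n', t + 4 * n', rfl, ?_, ?_⟩
    · rw [e]
      exact is7_per hm _ _
    · rw [e]
      exact hn'
  obtain ⟨-, t₂, -, er, hpt⟩ := pt t y h1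
  obtain ⟨-, t₄, -, er', hpt'⟩ := pt t' y' h3
  have b1' : L.Arm false (ann r R ∪ Jc false R) {rc (r + 1) (2 * (r + 1) * t₂ + y)}
      (Je 1 R) ω := by
    rw [er]
    exact b1
  have b3' : L.Arm false (ann r R ∪ Jc false R) {rc (r + 1) (2 * (r + 1) * t₄ + y')}
      (Je 3 R) ω := by
    rw [er']
    exact b3
  have hn₂ : rc (r + 1) (2 * (r + 1) * t₂ + y) ∈ L.nb (bx r) := by
    rw [er]
    exact hn
  have hn₄ : rc (r + 1) (2 * (r + 1) * t₄ + y') ∈ L.nb (bx r) := by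
    rw [er']
    exact hn'
  have ek1 : (k + 1) * w + w / 2 = k * w + (w + w / 2) := by ring
  have ek2 : (k - 1) * w - w / 2 = k * w - (w + w / 2) := by ring
  have ek3 : (k' + 1) * w + w / 2 = k' * w + (w + w / 2) := by ring
  have ek4 : (k' - 1) * w - w / 2 = k' * w - (w + w / 2) := by ring
  have hmem : ((s₁, k, s₃, k') : ℤ × ℤ × ℤ × ℤ) ∈ cellsI M := by
    have h5 := abs_lt.mp (lt_trans (lt_add_one |k|) hkM)
    have h6 := abs_lt.mp (lt_trans (lt_add_one |k'|) hkM')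
    unfold cellsI
    simp only [Finset.mem_product, Finset.mem_Icc]
    omega
  rcases hpt with hpt | hpt <;> rcases hpt' with hpt' | hpt'
  · exfalso
    exact order_in hw (by omega) hr hR hkM hkM' (Or.inl ⟨rfl, rfl⟩) (Or.inl ⟨rfl, rfl⟩) a1' a3'
      b1' b3' hn₂ hn₄ (by rw [ek1]; omega) (by rw [ek4]; omega) (by rw [ek1]; omega)
      (by rw [ek4]; omega) (by omega)
  · refine ⟨(s₁, k, s₃, k'), hmem, ⟨⟨hk0, hk1⟩, ⟨hk0', hk1'⟩⟩, a1', a3', t₂, y, t₄, y', 1, 3,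
      Or.inl ⟨rfl, rfl⟩, hy, hy', ?_, ?_, ?_, ?_, b1', b3'⟩
    · show 2 * (r + 1) * s₁ + ((k + 1) * w + w / 2) < 2 * (r + 1) * t₂ + y
      rw [ek1]
      omega
    · show 2 * (r + 1) * t₂ + y < 2 * (r + 1) * s₃ + ((k' - 1) * w - w / 2)
      rw [ek4]
      omega
    · show 2 * (r + 1) * s₃ + ((k' + 1) * w + w / 2) < 2 * (r + 1) * t₄ + y'
      rw [ek3]
      omega
    · show 2 * (r + 1) * t₄ + y' < 2 * (r + 1) * (s₁ + 4) + ((k - 1) * w - w / 2)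
      rw [ek2]
      omega
  · refine ⟨(s₁, k, s₃, k'), hmem, ⟨⟨hk0, hk1⟩, ⟨hk0', hk1'⟩⟩, a1', a3', t₄, y', t₂, y, 3, 1,
      Or.inr ⟨rfl, rfl⟩, hy', hy, ?_, ?_, ?_, ?_, b3', b1'⟩
    · show 2 * (r + 1) * s₁ + ((k + 1) * w + w / 2) < 2 * (r + 1) * t₄ + y'
      rw [ek1]
      omega
    · show 2 * (r + 1) * t₄ + y' < 2 * (r + 1) * s₃ + ((k' - 1) * w - w / 2)
      rw [ek4]
      omega
    · show 2 * (r + 1) * s₃ + ((k' + 1) * w + w / 2) < 2 * (r + 1) * t₂ + y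
      rw [ek3]
      omega
    · show 2 * (r + 1) * t₂ + y < 2 * (r + 1) * (s₁ + 4) + ((k - 1) * w - w / 2)
      rw [ek2]
      omega
  · exfalso
    have a1'' : L.Arm true (ann r R ∪ Jc true R ∪ ib w M (s₁ + 4) k)
        (ib w M (s₁ + 4) k ∩ rng (M * w - w / 2)) (Je 0 R) ω := by
      rw [is7_ib (show (s₁ + 4) % 4 = s₁ % 4 by omega)]
      exact a1'
    exact order_in hw (by omega) hr hR hkM' hkM (Or.inr ⟨rfl, rfl⟩) (Or.inl ⟨rfl, rfl⟩) a3' a1''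
      b1' b3' hn₂ hn₄ (by rw [ek3]; omega) (by rw [ek2]; omega) (by rw [ek3]; omega)
      (by rw [ek2]; omega) (by omega)

/-- FIRST STEP, deterministic part.
Proof.  `cell1` for the two open arms gives components `V`, `V'` and cells; `V ∩ V' = ∅` (`Comp.eq`, `V_ne`), so the triples are
disjoint.  `start1` for the two closed arms; their first sites are explored, hence not in the triples (`V ⊆ Di \ C`).
Given `η` with the fresh event, `land_in` (`c = true`, `B = ∅`; `C1_con`, `C1_inner`, `C1_exact`, `end_nb`) lands both open arms; then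
`order_mix`.  (`|k| + 1 < M` follows from `CellI`.) -/
theorem step1_in {w M K B r R : ℤ} {ω : Cfg} {G : Finset Pt} (hw : w % 2 = 1) (hw5 : 5 ≤ w)
    (hK : 4 ≤ K) (hB : 48 ≤ B) (hM : M = 2 * K * B) (hr : r = M * w + w / 2) (hR : 8 * r ≤ R)
    (hG : ∀ v, r - w < nrm v → nrm v ≤ r + w → v ∈ G)
    (hbad : ¬ L.BadW true (ann r (2 * r)) (r + 1) (4 * B * w) (K * B * w) (B * w) (12 * w) ω)
    (h : L.Sout r R ω) :
    ∃ s k s' k' : ℤ, (CellI w (r + 1) k ∧ CellI w (r + 1) k') ∧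
      ∀ η, L.Fre true r (r + w) w M s k s' k' η → ∃ q ∈ cellsI M,
        L.E1i r w M R q.1 q.2.1 q.2.2.1 q.2.2.2
          (mix G (L.Rev false (Di r R ∅) (Si true R ∅)) ω η) := by
  have hM0 : 384 ≤ M := by
    rw [hM]
    nlinarith
  have hMw : 384 * 5 ≤ M * w := mul_le_mul hM0 hw5 (by norm_num) (by omega)
  have hr0 : 1920 ≤ r := by omega
  have hR1 : 1 ≤ R := by omega
  have ht := h true
  have hf := h false
  have e1 : dc true = 0 := if_pos rfl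
  have e2 : dc false = 1 := if_neg Bool.false_ne_true
  have e3 : (0 : ℤ) + 2 = 2 := by norm_num
  have e4 : (1 : ℤ) + 2 = 3 := by norm_num
  rw [e1, e3] at ht
  rw [e2, e4] at hf
  obtain ⟨y₀, hy₀, V, hV, hyV, s, k, hk, hsk⟩ := cell1 hw hw5 hK hB hM hr hR (Or.inl rfl) hbad ht.1
  obtain ⟨y₂, hy₂, V', hV', hyV', s', k', hk', hsk'⟩ :=
    cell1 hw hw5 hK hB hM hr hR (Or.inr rfl) hbad ht.2
  obtain ⟨t, y, hy, hn, hx, harm⟩ := start1 hw hw5 hK hB hM hr hR (Or.inl rfl) hbad hf.1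
  obtain ⟨t', y', hy', hn', hx', harm'⟩ := start1 hw hw5 hK hB hM hr hR (Or.inr rfl) hbad hf.2
  have hdis : ∀ v ∈ V, v ∉ V' := by
    intro v hv hv'
    have e : V = V' := Comp.eq hV hV' hv hv'
    rw [← e] at hyV'
    exact V_ne (by omega) (by omega) h hV hyV hyV' hy₀ hy₂
  have hout : ∀ v, v ∈ L.Cx false (Di r R ∅) (Si true R ∅) ω →
      v ∉ trip w (r + 1) s k ∪ trip w (r + 1) s' k' := by
    rintro v hv (h5 | h5)
    · exact (hV.sub (hsk h5)).2 hv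
    · exact (hV'.sub (hsk' h5)).2 hv
  have hkM : ∀ l : ℤ, CellI w (r + 1) l → |l| + 1 < M := by
    rintro l ⟨-, hl⟩
    by_contra hcon
    have h5 : M ≤ |l| + 1 := not_lt.mp hcon
    have h6 : M * w ≤ (|l| + 1) * w := mul_le_mul_of_nonneg_right h5 (by omega)
    have h7 : (|l| + 1) * w = |l| * w + w := by ring
    omega
  refine ⟨s, k, s', k', ⟨hk, hk'⟩, fun η hF => ?_⟩
  obtain ⟨hc, hcor, hcor'⟩ := hF
  have hnbe : ∀ v : Pt, v ∉ (∅ : Set Pt) ∧ v ∉ L.nb (∅ : Set Pt) := by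
    intro v
    refine ⟨Set.notMem_empty v, ?_⟩
    rintro ⟨u, hu, -⟩
    exact Set.notMem_empty u hu
  obtain ⟨u, hu, hcu⟩ := land_in (c := true) (B := ∅) (V := V) (G := G) (y := y₀) hw hw5 hr hR
    (hkM k hk) (Set.empty_subset _) (fun v _ => hnbe v) (C1_con hR1)
    (C1_inner (by omega) (by omega) h) (C1_exact (by omega) (by omega)) hV hsk hyV
    (end_nb hR1 hy₀) hG hc hcor
  obtain ⟨u', hu', hcu'⟩ := land_in (c := true) (B := ∅) (V := V') (G := G) (y := y₂) hw hw5 hr hR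
    (hkM k' hk') (Set.empty_subset _) (fun v _ => hnbe v) (C1_con hR1)
    (C1_inner (by omega) (by omega) h) (C1_exact (by omega) (by omega)) hV' hsk' hyV'
    (end_nb hR1 hy₂) hG hc hcor'
  exact order_mix hw hw5 hr hR hk hk' ⟨u, hu, y₀, hy₀, hcu⟩ ⟨u', hu', y₂, hy₂, hcu'⟩
    (fun v hv hv' => hdis v (hsk hv) (hsk' hv')) hy hy' hn hn' (harm G η) (harm' G η)
    (hout _ hx) (hout _ hx')

end Lat

end SC

end

/-! ### from `Lib_MP_e0a489.IS8` -/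

section

/-!
# MP_e0a489, inner separation 8: second step

Step 2: the two coarse blocks `(s₁, k₁)`, `(s₃, k₃)` of size `W = μ w` are landed, `B = ib W M' s₁ k₁ ∪ ib W M' s₃ k₃`
(`r = M' W + W / 2`); the open clusters attached to `Outc false R ∪ B` are explored; the closed arms are landed in
fine blocks of size `w` (`r = M w + w / 2`).
-/

set_option autoImplicit false

namespace SC

open Classical

namespace Lat

variable {L : Lat}

/-- the two coarse blocks -/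
def B2 (W M s₁ k₁ s₃ k₃ : ℤ) : Set Pt := ib W M s₁ k₁ ∪ ib W M s₃ k₃

private theorem is8_kM {W M r k : ℤ} (hW0 : 0 < W) (hr : r = M * W + W / 2)
    (hk : CellI W (r + 1) k) : |k| < M := by
  obtain ⟨-, hk⟩ := hk
  by_contra h
  have h1 : M * W ≤ |k| * W := mul_le_mul_of_nonneg_right (not_lt.1 h) (le_of_lt hW0)
  have h2 : W / 2 ≤ W := by omega
  have h3 : W / 2 + 1 ≤ W + 1 := by omega
  nlinarith

private theorem is8_r {W M r k : ℤ} (hW0 : 0 < W) (hr : r = M * W + W / 2)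
    (hk : CellI W (r + 1) k) : 99 * W ≤ r := by
  obtain ⟨-, hk⟩ := hk
  have h1 : 0 ≤ |k| * W := mul_nonneg (abs_nonneg k) (le_of_lt hW0)
  linarith

/-- the blocks are in `bx r` (`ib_nrm`) -/
theorem B2_sub {W M r s₁ k₁ s₃ k₃ : ℤ} (hW : W % 2 = 1) (hW0 : 0 < W) (hr : r = M * W + W / 2)
    (hk₁ : CellI W (r + 1) k₁) (hk₃ : CellI W (r + 1) k₃) : B2 W M s₁ k₁ s₃ k₃ ⊆ bx r := by
  have hM₁ := is8_kM hW0 hr hk₁
  have hM₃ := is8_kM hW0 hr hk₃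
  rintro v (hv | hv)
  · exact (ib_nrm hW hW0 hr hM₁ hv).2
  · exact (ib_nrm hW hW0 hr hM₃ hv).2

/-- CONNECTED.  `Cx_con'`: `Outc false R` is connected (`con_Outc`), each block is connected (`con_ib`), and the open arm of `E1i`
that starts in the block is contained in the explored set (`arm_keep` with `c = false`; all its sites, by
`Cx_of_cn`), and ends in `Je d R ⊆ Jc true R ⊆ Outc false R`. -/
theorem C2_con {W M r R s₁ k₁ s₃ k₃ : ℤ} {ω : Cfg} (hW : W % 2 = 1) (hW0 : 5 ≤ W)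
    (hr : r = M * W + W / 2) (hR : 8 * r ≤ R) (h : L.E1i r W M R s₁ k₁ s₃ k₃ ω) :
    L.Con (L.Cx true (Di r R (B2 W M s₁ k₁ s₃ k₃)) (Si false R (B2 W M s₁ k₁ s₃ k₃)) ω) := by
  have hW0' : 0 < W := by linarith
  obtain ⟨⟨hk₁, hk₃⟩, a1, a3, -⟩ := h
  have hr99 := is8_r hW0' hr hk₁
  have hr0 : 0 ≤ r := by linarith
  have hR1 : 1 ≤ R := by linarith
  have hrR : r ≤ R := by linarith
  have hSC : Si false R (B2 W M s₁ k₁ s₃ k₃) ⊆
      L.Cx true (Di r R (B2 W M s₁ k₁ s₃ k₃)) (Si false R (B2 W M s₁ k₁ s₃ k₃)) ω := Cx_sup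
  have hOC : Outc false R ⊆
      L.Cx true (Di r R (B2 W M s₁ k₁ s₃ k₃)) (Si false R (B2 W M s₁ k₁ s₃ k₃)) ω :=
    fun v hv => hSC (Or.inl hv)
  -- the arm from a block
  have key : ∀ (s k d : ℤ), (d = 0 ∨ d = 2) → ib W M s k ⊆ B2 W M s₁ k₁ s₃ k₃ →
      L.Arm true (ann r R ∪ Jc true R ∪ ib W M s k) (ib W M s k ∩ rng (M * W - W / 2))
        (Je d R) ω →
      ∃ x ∈ ib W M s k, ∃ y ∈ Outc false R,
        L.Cn (L.Cx true (Di r R (B2 W M s₁ k₁ s₃ k₃)) (Si false R (B2 W M s₁ k₁ s₃ k₃)) ω)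
          x y := by
    intro s k d hd hsub ha
    have hd' : d = dc (!false) ∨ d = dc (!false) + 2 := by
      rcases hd with h | h
      · exact Or.inl (by rw [h]; rfl)
      · exact Or.inr (by rw [h]; rfl)
    obtain ⟨x, hx, hxC, y, hy, hxy, -⟩ :=
      arm_keep (L := L) (c := false) (r := r) (R := R) (d := d) (B := B2 W M s₁ k₁ s₃ k₃)
        (B' := ib W M s k) (X := ib W M s k ∩ rng (M * W - W / 2)) (ω := ω) (η := ω)
        (G := ∅) hr0 hR1 hrR hd' hsub ha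
    have hyO : y ∈ Outc false R :=
      Jc_sub_Outc (c := false) (by linarith) (Je_sub_Jc (c := true) hR1 hd' hy)
    refine ⟨x, hx.1, y, hyO, ?_⟩
    have hA : (ann r R ∪ Jc (!false) R ∪ ib W M s k) ∩ L.col (!false) ω ⊆
        Di r R (B2 W M s₁ k₁ s₃ k₃) := by
      rintro z ⟨(hz | hz) | hz, -⟩
      · exact Or.inl ⟨hz.1, by have := hz.2; linarith⟩
      · have h1 := Jc_sub_ann (c := !false) (by linarith : (0 : ℤ) ≤ R) hz
        exact Or.inl ⟨lt_of_le_of_lt hrR h1.1, by have := h1.2; linarith⟩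
      · exact Or.inr (hsub hz)
    have hsubC : {z | L.Cn ((ann r R ∪ Jc (!false) R ∪ ib W M s k) ∩ L.col (!false) ω) x z} ⊆
        L.Cx true (Di r R (B2 W M s₁ k₁ s₃ k₃)) (Si false R (B2 W M s₁ k₁ s₃ k₃)) ω := by
      intro z hz
      exact Cx_of_cn hA (fun w hw => Or.inr hw.2) (Cn.symm hz) hxC
    have hcon := con_cluster (L := L)
      ((ann r R ∪ Jc (!false) R ∪ ib W M s k) ∩ L.col (!false) ω) x
    exact (hcon x (Cn.refl hxy.left) y hxy).mono hsubC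
  obtain ⟨x₁, hx₁, z₁, hz₁, c₁⟩ := key s₁ k₁ 0 (Or.inl rfl) Set.subset_union_left a1
  obtain ⟨x₃, hx₃, z₃, hz₃, c₃⟩ := key s₃ k₃ 2 (Or.inr rfl) Set.subset_union_right a3
  have toO : ∀ u ∈ Si false R (B2 W M s₁ k₁ s₃ k₃),
      L.Cn (L.Cx true (Di r R (B2 W M s₁ k₁ s₃ k₃)) (Si false R (B2 W M s₁ k₁ s₃ k₃)) ω)
        u z₁ := by
    rintro u (hu | hu | hu)
    · exact (con_Outc (L := L) hR1 u hu z₁ hz₁).mono hOC
    · exact ((con_ib (L := L) hW hW0' u hu x₁ hx₁).mono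
        (fun w hw => hSC (Or.inr (Or.inl hw)))).trans c₁
    · exact (((con_ib (L := L) hW hW0' u hu x₃ hx₃).mono
        (fun w hw => hSC (Or.inr (Or.inr hw)))).trans c₃).trans
          ((con_Outc (L := L) hR1 z₃ hz₃ z₁ hz₁).mono hOC)
  exact Cx_con' (fun u hu v hv => (toO u hu).trans (toO v hv).symm)

/-- EXACT.  `exact_ann` (the ring `2R+1` is in the source) and `exact_ib` twice; the blocks are not adjacent to each other
(`ib_far` with `w = w' = W`; the index inequalities follow from those of `E1i`: the distance of the middle indices is more than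
`2 (W + W/2)`), and their neighbours outside `bx r` are on the ring `r + 1` (`ib_nbr`). -/
theorem C2_exact {W M r R s₁ k₁ s₃ k₃ : ℤ} {ω : Cfg} (hW : W % 2 = 1) (hW0 : 5 ≤ W)
    (hr : r = M * W + W / 2) (hR : 8 * r ≤ R) (h : L.E1i r W M R s₁ k₁ s₃ k₃ ω) :
    L.Exact (Di r R (B2 W M s₁ k₁ s₃ k₃))
      (L.Cx true (Di r R (B2 W M s₁ k₁ s₃ k₃)) (Si false R (B2 W M s₁ k₁ s₃ k₃)) ω) := by
  have hW0' : 0 < W := by linarith
  obtain ⟨⟨hk₁, hk₃⟩, -, -, s₂, y₂, s₄, y₄, e₂, e₄, -, -, -, i1, i2, i3, i4, -⟩ := h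
  have hr99 := is8_r hW0' hr hk₁
  have hr0 : 0 ≤ r := by linarith
  have hM₁ := is8_kM hW0' hr hk₁
  have hM₃ := is8_kM hW0' hr hk₃
  have hC : rng (2 * R + 1) ⊆
      L.Cx true (Di r R (B2 W M s₁ k₁ s₃ k₃)) (Si false R (B2 W M s₁ k₁ s₃ k₃)) ω :=
    fun v hv => Cx_sup (Or.inl (rng_sub_Outc (by linarith) hv))
  have e0 := exact_ann (L := L) hr0 (by linarith : r < 2 * R + 1) hC
  have hring : rng (r + 1) ⊆ ann r (2 * R + 1) := by
    intro v hv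
    have hv' : nrm v = r + 1 := hv
    exact ⟨by linarith, by linarith⟩
  have nbr : ∀ s k : ℤ, CellI W (r + 1) k → |k| < M → ∀ v ∈ ib W M s k,
      ∀ u ∈ ann r (2 * R + 1), L.Adj u v → u ∈ rng (r + 1) := by
    intro s k hkc hk v hv u hu hadj
    have hub : u ∉ bx r := fun h => absurd hu.1 (not_lt.2 h)
    have h2 : u.1 - v.1 ≤ 1 ∧ u.2 - v.2 ≤ 1 ∧ v.1 - u.1 ≤ 1 ∧ v.2 - u.2 ≤ 1 := by
      obtain ⟨h1, h2⟩ := Adj.near hadj
      rw [abs_le] at h1 h2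
      exact ⟨by linarith, by linarith, by linarith, by linarith⟩
    have h3 := (ib_nrm hW hW0' hr hk hv).2
    show nrm u = r + 1
    have h4 : nrm u ≤ nrm v + 1 := (nrm_adj4 hadj).1
    have h5 := hu.1
    omega
  have e1 := exact_ib hW hW0' hr hM₁ e0 hring (nbr s₁ k₁ hk₁ hM₁)
    (fun v hv h => absurd h.1 (not_lt.2 (ib_nrm hW hW0' hr hM₁ hv).2))
  have hfar : ∀ u ∈ ib W M s₁ k₁, ∀ v ∈ ib W M s₃ k₃, 2 ≤ nrm (u - v) := by
    intro u hu v hv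
    have h4 : 4 * W ≤ 100 * W := by linarith
    have hWd : W / 2 ≤ W := by omega
    have hWd0 : 0 ≤ W / 2 := by omega
    refine ib_far hW (by linarith) hW hW0' (le_refl _) hr hr ?_ ?_ ?_ ?_ hu hv
    · have := hk₁.2
      linarith
    · have := hk₃.2
      linarith
    · have e1 : (k₁ + 1) * W = k₁ * W + W := by ring
      have e2 : (k₃ - 1) * W = k₃ * W - W := by ring
      rw [e1] at i1
      rw [e2] at i2
      linarith
    · have e1 : (k₃ + 1) * W = k₃ * W + W := by ring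
      have e2 : (k₁ - 1) * W = k₁ * W - W := by ring
      rw [e1] at i3
      rw [e2] at i4
      linarith
  have n3 : ∀ v ∈ ib W M s₃ k₃, ∀ u ∈ ann r (2 * R + 1) ∪ ib W M s₁ k₁,
      L.Adj u v → u ∈ rng (r + 1) := by
    rintro v hv u (hu | hu) hadj
    · exact nbr s₃ k₃ hk₃ hM₃ v hv u hu hadj
    · exfalso
      have h1 := hfar u hu v hv
      obtain ⟨h2, h3⟩ := Adj.near hadj
      have h4 : nrm (u - v) ≤ 1 := max_le h2 h3
      linarith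
  have d3 : ∀ v ∈ ib W M s₃ k₃, v ∉ ann r (2 * R + 1) ∪ ib W M s₁ k₁ := by
    rintro v hv (h | h)
    · exact absurd h.1 (not_lt.2 (ib_nrm hW hW0' hr hM₃ hv).2)
    · have h1 := hfar v h v hv
      rw [sub_self] at h1
      have h2 : nrm (0 : Pt) = 0 := by
        show max |(0 : ℤ)| |(0 : ℤ)| = 0
        simp
      rw [h2] at h1
      exact absurd h1 (by norm_num)
  have e2 := exact_ib hW hW0' hr hM₃ e1 (hring.trans Set.subset_union_left) n3 d3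
  rw [Set.union_assoc] at e2
  exact e2

/-- a site of the explored set in `bx r`: any site of a block -/
theorem C2_inner {W M r R s₁ k₁ s₃ k₃ : ℤ} {ω : Cfg} (hW : W % 2 = 1) (hW0 : 5 ≤ W)
    (hr : r = M * W + W / 2) (hk₁ : CellI W (r + 1) k₁) (hk₃ : CellI W (r + 1) k₃) :
    ∃ v ∈ L.Cx true (Di r R (B2 W M s₁ k₁ s₃ k₃)) (Si false R (B2 W M s₁ k₁ s₃ k₃)) ω,
      v ∈ bx r ∪ L.nb (bx r) := by
  have hW0' : 0 < W := by linarith
  have hM₁ := is8_kM hW0' hr hk₁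
  have hv : (((rt s₁ (M, k₁)).1 * W, (rt s₁ (M, k₁)).2 * W) : Pt) ∈ ib W M s₁ k₁ := by
    have hWd0 : 0 ≤ W / 2 := by omega
    refine ⟨⟨?_, ?_⟩, ?_, ?_⟩
    · show (rt s₁ (M, k₁)).1 * W - W / 2 ≤ (rt s₁ (M, k₁)).1 * W
      linarith
    · show (rt s₁ (M, k₁)).1 * W ≤ (rt s₁ (M, k₁)).1 * W + W / 2
      linarith
    · show (rt s₁ (M, k₁)).2 * W - W / 2 ≤ (rt s₁ (M, k₁)).2 * W
      linarith
    · show (rt s₁ (M, k₁)).2 * W ≤ (rt s₁ (M, k₁)).2 * W + W / 2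
      linarith
  exact ⟨_, Cx_sup (Or.inr (Or.inl hv)), Or.inl (ib_nrm hW hW0' hr hM₁ hv).2⟩

/-- THE FINE CELL of a closed arm.  `2 (r+1) s + y` is the index of its first site; it is outside the triples of the two
coarse blocks: `g1`-`g4` say that it is between the triples of `(a, k₁)` and `(a + 4, k₁)`, and between those of `(b, k₃)` and
`(b + 4, k₃)`, where `a`, `b` are `s₁`, `s₃` up to multiples of 4.
Proof.  `v` = last site of the arm, in `Je e R`; it is closed and not in the source, so not explored; `V` = its component;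
the first site is in `V` (`comp_path`, `Di_diff`).  `good_pos'` with `o = true`, `c = false`, `m = r + 1`, `D = Di`, `E = ann r R ∪ Jc false R`,
`β = B w`: `|y| + 4 B w ≤ m` because `4 B w ≤ W`; the far site is `v` (norm `2R`).  `hC`: for an explored ring site `attached`
(`c = false`) gives an open path to a site `u` next to the source; if `u` is next to `Outc false R` its norm is `≥ R`
(`nb_Outc_nrm`); otherwise `u` is next to a block, `ib_nbr` and `ring_far` give distance `≥ W - 1 ≥ 3 B w` from `rc (r+1) (2 (r+1) s + y)`. -/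
theorem fine_cell {W M w μ B r R s₁ k₁ s₃ k₃ a b s y e : ℤ} {ω : Cfg} (hw : w % 2 = 1)
    (hw5 : 5 ≤ w) (hB : 48 ≤ B) (hμ : μ = 4 * B + 1) (hW : W = μ * w) (hr : r = M * W + W / 2)
    (hR : 8 * r ≤ R) (hk₁ : CellI W (r + 1) k₁) (hk₃ : CellI W (r + 1) k₃)
    (hy : |y| + 100 * W ≤ r + 1) (he : e = 1 ∨ e = 3) (ha : a % 4 = s₁ % 4)
    (hb : b % 4 = s₃ % 4)
    (g1 : 2 * (r + 1) * a + ((k₁ + 1) * W + W / 2) < 2 * (r + 1) * s + y)
    (g2 : 2 * (r + 1) * s + y < 2 * (r + 1) * (a + 4) + ((k₁ - 1) * W - W / 2))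
    (g3 : 2 * (r + 1) * b + ((k₃ + 1) * W + W / 2) < 2 * (r + 1) * s + y)
    (g4 : 2 * (r + 1) * s + y < 2 * (r + 1) * (b + 4) + ((k₃ - 1) * W - W / 2))
    {ℓ : ℤ} (hbad : ¬ L.BadW true ∅ (r + 1) 1 ℓ (B * w) (12 * w) ω)
    (h : L.Arm false (ann r R ∪ Jc false R) {rc (r + 1) (2 * (r + 1) * s + y)} (Je e R) ω) :
    ∃ v ∈ Je e R, ∃ V, L.Comp (Di r R (B2 W M s₁ k₁ s₃ k₃) \
        L.Cx true (Di r R (B2 W M s₁ k₁ s₃ k₃)) (Si false R (B2 W M s₁ k₁ s₃ k₃)) ω) V ∧ v ∈ V ∧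
      ∃ k, k ≠ 0 ∧ |y - k * w| ≤ 5 * w ∧ trip w (r + 1) s k ⊆ V := by
  have hB0 : 0 < B := by linarith
  have hBw : 48 * w ≤ B * w := by nlinarith
  have hBw0 : 240 ≤ B * w := by nlinarith
  have hWe : W = 4 * (B * w) + w := by
    rw [hW, hμ]
    ring
  have hW2 : W % 2 = 1 := by omega
  have hW0 : 5 ≤ W := by linarith
  have hW0' : 0 < W := by linarith
  have hM₁ := is8_kM hW0' hr hk₁
  have hM₃ := is8_kM hW0' hr hk₃
  have hr99 := is8_r hW0' hr hk₁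
  have hr0 : 0 ≤ r := by linarith
  have hR1 : 1 ≤ R := by linarith
  have hrR : r + 1 ≤ R := by linarith
  have hBs : B2 W M s₁ k₁ s₃ k₃ ⊆ bx r := B2_sub hW2 hW0' hr hk₁ hk₃
  obtain ⟨x, hx, v, hv, hxv⟩ := h
  have hx' : x = rc (r + 1) (2 * (r + 1) * s + y) := hx
  subst hx'
  have hnx : nrm (rc (r + 1) (2 * (r + 1) * s + y)) = r + 1 := rc_nrm (by linarith)
  have hnv : nrm v = 2 * R := Je_nrm hR1 hv
  have hvJ : v ∈ Jc false R := by
    refine Je_sub_Jc (c := false) (d := e) hR1 ?_ hv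
    rcases he with h | h
    · exact Or.inl (by rw [h]; rfl)
    · exact Or.inr (by rw [h]; rfl)
  have hdiff : Di r R (B2 W M s₁ k₁ s₃ k₃) \ Si false R (B2 W M s₁ k₁ s₃ k₃) =
      ann r R ∪ Jc false R := Di_diff (by linarith) (by linarith) hBs
  have hvDS : v ∈ Di r R (B2 W M s₁ k₁ s₃ k₃) \ Si false R (B2 W M s₁ k₁ s₃ k₃) := by
    rw [hdiff]
    exact Or.inr hvJ
  have hvC : v ∉ L.Cx true (Di r R (B2 W M s₁ k₁ s₃ k₃))
      (Si false R (B2 W M s₁ k₁ s₃ k₃)) ω := by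
    intro h
    have h1 := (Cx_col h hvDS.2).2
    have h2 : v ∈ L.col false ω := hxv.right.2
    have h3 : L.st ω v = true := h1
    have h4 : L.st ω v = false := h2
    rw [h3] at h4
    exact absurd h4 (by decide)
  have hvm : v ∈ Di r R (B2 W M s₁ k₁ s₃ k₃) \ L.Cx true (Di r R (B2 W M s₁ k₁ s₃ k₃))
      (Si false R (B2 W M s₁ k₁ s₃ k₃)) ω := ⟨hvDS.1, hvC⟩
  have hV := comp_cluster (L := L) hvm
  have hvV : v ∈ {z | L.Cn (Di r R (B2 W M s₁ k₁ s₃ k₃) \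
      L.Cx true (Di r R (B2 W M s₁ k₁ s₃ k₃)) (Si false R (B2 W M s₁ k₁ s₃ k₃)) ω) v z} :=
    Cn.refl hvm
  refine ⟨v, hv, _, hV, hvV, ?_⟩
  have hxV := comp_path (c := false) (S := Si false R (B2 W M s₁ k₁ s₃ k₃))
    (M := Di r R (B2 W M s₁ k₁ s₃ k₃)) (x := rc (r + 1) (2 * (r + 1) * s + y)) hV
    (by rw [hdiff]; exact hxv) hvV
  obtain ⟨k, hk0, hk1, hk2, hk3⟩ := good_pos' (L := L) (o := true) (c := false) (m := r + 1)
    (w := w) (ρ := 1) (ℓ := ℓ) (β := B * w) (s := s) (y := y)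
    (D := Di r R (B2 W M s₁ k₁ s₃ k₃)) (D' := ∅) (E := ann r R ∪ Jc false R)
    (v := v) hw (by linarith) (by linarith) hBw (by linarith) (by linarith) hbad
    (by
      rintro z (hz | hz)
      · show r + 1 ≤ nrm z
        have := hz.1
        linarith
      · show r + 1 ≤ nrm z
        have h1 := (Jc_sub_ann (by linarith : (0 : ℤ) ≤ R) hz).1
        linarith)
    (by
      intro z hz
      have hz' : nrm z = r + 1 := hz
      exact Or.inl ⟨by linarith, by linarith⟩)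
    hV hxV hxv
    (by
      have h1 := nrm_le_add v (rc (r + 1) (2 * (r + 1) * s + y))
      rw [hnx, hnv] at h1
      linarith)
    (by
      intro i _ hiC
      have hni : nrm (rc (r + 1) i) = r + 1 := rc_nrm (by linarith)
      obtain ⟨u, hu, hiu⟩ := attached (c := false) hr0 hrR hBs hni hiC
      refine ⟨u, hiu, ?_⟩
      have hur : u ∉ bx r := by
        intro hb
        have hb' : nrm u ≤ r := hb
        rcases hiu.right.1 with h1 | h1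
        · have := h1.1
          linarith
        · have := (Jc_sub_ann (by linarith : (0 : ℤ) ≤ R) h1).1
          linarith
      have hcase : ∀ (s' k' a' : ℤ), CellI W (r + 1) k' → |k'| < M → a' % 4 = s' % 4 →
          2 * (r + 1) * a' + ((k' + 1) * W + W / 2) < 2 * (r + 1) * s + y →
          2 * (r + 1) * s + y < 2 * (r + 1) * (a' + 4) + ((k' - 1) * W - W / 2) →
          ∀ b' ∈ ib W M s' k', L.Adj b' u →
            3 * (B * w) ≤ nrm (u - rc (r + 1) (2 * (r + 1) * s + y)) := by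
        intro s' k' a' hkc hkM hmod q1 q2 b' hb' hadj
        obtain ⟨y', h1, h2, h3⟩ := ib_nbr hW2 hW0' hr hkM hb' hur (Adj.symm hadj)
        have h4 := ring_far (w := W) (r := r) (s := a') (k := k') (s₂ := s) (y₂ := y) (y' := y')
          hW2 (by linarith) (by have := hkc.2; linarith) (by linarith) q1 q2
          (by rw [abs_le]; constructor <;> linarith)
        rw [h3, ← rt_mod hmod]
        linarith
      obtain ⟨z, hz, hzu⟩ := hu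
      rcases hz with hz | hz | hz
      · have h1 : R ≤ nrm u := nb_Outc_nrm (c := false) ⟨z, hz, hzu⟩
        have h2 := nrm_le_add u (rc (r + 1) (2 * (r + 1) * s + y))
        rw [hnx] at h2
        linarith
      · exact hcase s₁ k₁ a hk₁ hM₁ ha g1 g2 z hz hzu
      · exact hcase s₃ k₃ b hk₃ hM₃ hb g3 g4 z hz hzu)
  refine ⟨k, hk0, ?_, hk3⟩
  have hwd : 0 ≤ w / 2 := by omega
  have e1 : (k - 1) * w = k * w - w := by ring
  have e2 : (k + 1) * w = k * w + w := by ring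
  rw [e1] at hk1
  rw [e2] at hk2
  rw [abs_le]
  constructor <;> linarith

end Lat

end SC

end

/-! ### from `Lib_MP_e0a489.IS10` -/

section

/-!
# MP_e0a489, inner separation 10: second step, deterministic part
-/

set_option autoImplicit false

namespace SC

open Classical

namespace Lat

variable {L : Lat}

private theorem is10_ib {w M s s' k : ℤ} (h : s % 4 = s' % 4) : ib w M s k = ib w M s' k := by
  unfold ib
  rw [rt_mod h]

private theorem is10_odd {a b : ℤ} (ha : a % 2 = 1) (hb : b % 2 = 1) : (a * b) % 2 = 1 := by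
  rw [Int.mul_emod, ha, hb]
  rfl

private theorem is10_half {μ w : ℤ} (hμ : μ % 2 = 1) (hw : w % 2 = 1) :
    (μ * w) / 2 = (μ / 2) * w + w / 2 := by
  obtain ⟨a, rfl⟩ : ∃ a, μ = 2 * a + 1 := ⟨μ / 2, by omega⟩
  have h1 : (2 * a + 1) / 2 = a := by omega
  have h2 : (2 * a + 1) * w = 2 * (a * w) + w := by ring
  rw [h1, h2]
  omega

private theorem is10_abs {w k y r : ℤ} (hw0 : 0 < w) (hk : |y - k * w| ≤ 5 * w) (hy : |y| ≤ r) :
    |k| * w ≤ r + 5 * w := by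
  have e1 : |k| * w = |k * w| := by rw [abs_mul, abs_of_pos hw0]
  rw [e1]
  have h1 := abs_le.1 hk
  have h2 := abs_le.1 hy
  rw [abs_le]
  omega

private theorem is10_far {u v : Pt} (h : 2 ≤ nrm (u - v)) : u ≠ v ∧ ∀ L : Lat, ¬ L.Adj u v := by
  constructor
  · rintro rfl
    rw [sub_self] at h
    have : nrm (0 : Pt) = 0 := by
      show max |(0 : ℤ)| |(0 : ℤ)| = 0
      simp
    omega
  · intro L hadj
    have h1 := hadj.near
    have h2 : nrm (u - v) ≤ 1 := max_le h1.1 h1.2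
    omega

/-- one coarse block -/
private theorem fine_far1 {W M w M' μ B r s₁ k₁ a s k y : ℤ} (hw : w % 2 = 1)
    (hw5 : 5 ≤ w) (hB : 48 ≤ B) (hμ : μ = 4 * B + 1) (hW : W = μ * w) (hr : r = M * W + W / 2)
    (hr' : r = M' * w + w / 2)
    (hk₁ : CellI W (r + 1) k₁)
    (hy : |y| + 100 * W ≤ r + 1) (ha : a % 4 = s₁ % 4)
    (g1 : 2 * (r + 1) * a + ((k₁ + 1) * W + W / 2) < 2 * (r + 1) * s + y)
    (g2 : 2 * (r + 1) * s + y < 2 * (r + 1) * (a + 4) + ((k₁ - 1) * W - W / 2))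
    (hk : |y - k * w| ≤ 5 * w) {u v : Pt} (hu : u ∈ ib W M s₁ k₁) (hv : v ∈ ib w M' s k) :
    2 ≤ nrm (u - v) := by
  have hμ2 : μ % 2 = 1 := by omega
  have hWo : W % 2 = 1 := by rw [hW]; exact is10_odd hμ2 hw
  have hW9 : 100 * w ≤ W := by
    rw [hW]
    exact mul_le_mul_of_nonneg_right (by omega) (by omega)
  have hk' := is10_abs (by omega) hk (show |y| ≤ r + 1 - 100 * W by omega)
  have h1 := abs_le.1 hk
  have e1 : (k₁ + 1) * W = k₁ * W + W := by ring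
  have e2 : (k₁ - 1) * W = k₁ * W - W := by ring
  rw [e1] at g1
  rw [e2] at g2
  rw [← is10_ib ha] at hu
  obtain ⟨-, hc⟩ := hk₁
  exact ib_far (w := W) (w' := w) (M := M) (M' := M') (r := r) (s := a) (k := k₁) (s' := s)
    (k' := k) hWo (by omega) hw (by omega) (by omega) hr hr' (by omega) (by omega) (by omega)
    (by omega) hu hv

/-- THE FINE BLOCK IS FAR FROM THE COARSE BLOCKS: not in them and not adjacent to them.
Proof.  `ib_far` with the coarse block first (`w := W`, `w' := w`), for `(a, k₁)` and `(b, k₃)` (`ib W M a k₁ = ib W M s₁ k₁`, `rt_mod`).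
The index inequalities: `2 m s + k w ≥ 2 m s + y - 5 w > 2 m a + k₁ W + W + W/2 - 5 w` and `W - 5 w > w/2 + 1`; similarly on the
other side.  `|k| w ≤ |y| + 5 w`. -/
theorem fine_far {W M w M' μ B r s₁ k₁ s₃ k₃ a b s k y : ℤ} (hw : w % 2 = 1)
    (hw5 : 5 ≤ w) (hB : 48 ≤ B) (hμ : μ = 4 * B + 1) (hW : W = μ * w) (hr : r = M * W + W / 2)
    (hr' : r = M' * w + w / 2)
    (hk₁ : CellI W (r + 1) k₁) (hk₃ : CellI W (r + 1) k₃)
    (hy : |y| + 100 * W ≤ r + 1) (ha : a % 4 = s₁ % 4) (hb : b % 4 = s₃ % 4)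
    (g1 : 2 * (r + 1) * a + ((k₁ + 1) * W + W / 2) < 2 * (r + 1) * s + y)
    (g2 : 2 * (r + 1) * s + y < 2 * (r + 1) * (a + 4) + ((k₁ - 1) * W - W / 2))
    (g3 : 2 * (r + 1) * b + ((k₃ + 1) * W + W / 2) < 2 * (r + 1) * s + y)
    (g4 : 2 * (r + 1) * s + y < 2 * (r + 1) * (b + 4) + ((k₃ - 1) * W - W / 2))
    (hk : |y - k * w| ≤ 5 * w) :
    ∀ v ∈ ib w M' s k, v ∉ B2 W M s₁ k₁ s₃ k₃ ∧ v ∉ L.nb (B2 W M s₁ k₁ s₃ k₃) := by
  intro v hv
  have key : ∀ u ∈ B2 W M s₁ k₁ s₃ k₃, 2 ≤ nrm (u - v) := by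
    rintro u (hu | hu)
    · exact fine_far1 hw hw5 hB hμ hW hr hr' hk₁ hy ha g1 g2 hk hu hv
    · exact fine_far1 hw hw5 hB hμ hW hr hr' hk₃ hy hb g3 g4 hk hu hv
  refine ⟨fun h => (is10_far (key v h)).1 rfl, ?_⟩
  rintro ⟨u, hu, huv⟩
  exact (is10_far (key u hu)).2 L huv

/-- THE LANDING EVENT FROM FOUR ARMS.  Two open arms from coarse blocks, two closed arms from fine blocks, in cyclic order.
Proof.  `land_of` with `s = ![s₁, s₂, s₃, s₄]`, `k = ![k₁, k₂, k₃, k₄]` (`fpos`: `μ k₁, k₂, μ k₃, k₄`; `hwd`: `μ/2, 0, μ/2, 0`).  The conditions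
`cor`: `|k₁| W + 100 W ≤ r + 1 < (M' + 1) w` (`W = μ w`) gives `|μ k₁| + 100 μ ≤ M'`; `|k₂| w + 90 W ≤ r + 1` gives
`|k₂| + 90 μ ≤ M'`.  The order: `lex_of_idx` for the coordinates of the cells (all smaller than `m = r + 1`) and
`(μ w) / 2 = (μ / 2) w + w / 2`.  Directions: `d = ![0, e₂, 2, e₄]`, `q = (c₀, s', k', i ↦ d (i + j))`.  The blocks depend on `s`
modulo 4 only (`rt_mod`); `lbi`, `lw` are the coarse block and `W` for `true`, the fine block and `w` for `false`; the four values of `i` (and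
`j`) by cases. -/
theorem E2i_of {μ Mc w r R s₁ k₁ s₂ k₂ s₃ k₃ s₄ k₄ e₂ e₄ : ℤ} {ω : Cfg} (hμ : μ % 2 = 1)
    (hμ1 : 100 ≤ μ) (hMc : 0 < Mc) (hw : w % 2 = 1) (hw5 : 5 ≤ w)
    (hr : r = (μ * Mc + μ / 2) * w + w / 2)
    (hk₁ : CellI (μ * w) (r + 1) k₁) (hk₃ : CellI (μ * w) (r + 1) k₃)
    (hk₂ : k₂ ≠ 0 ∧ |k₂| * w + 90 * (μ * w) ≤ r + 1)
    (hk₄ : k₄ ≠ 0 ∧ |k₄| * w + 90 * (μ * w) ≤ r + 1)
    (he : (e₂ = 1 ∧ e₄ = 3) ∨ (e₂ = 3 ∧ e₄ = 1))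
    (h12 : 2 * (r + 1) * s₁ + k₁ * (μ * w) + (μ * w) / 2 + w < 2 * (r + 1) * s₂ + k₂ * w)
    (h23 : 2 * (r + 1) * s₂ + k₂ * w < 2 * (r + 1) * s₃ + k₃ * (μ * w) - (μ * w) / 2 - w)
    (h34 : 2 * (r + 1) * s₃ + k₃ * (μ * w) + (μ * w) / 2 + w < 2 * (r + 1) * s₄ + k₄ * w)
    (h41 : 2 * (r + 1) * s₄ + k₄ * w <
      2 * (r + 1) * (s₁ + 4) + k₁ * (μ * w) - (μ * w) / 2 - w)
    (a1 : L.Arm true (ann r R ∪ Jc true R ∪ ib (μ * w) Mc s₁ k₁)
      (ib (μ * w) Mc s₁ k₁ ∩ rng (r - μ * w + 1)) (Je 0 R) ω)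
    (a3 : L.Arm true (ann r R ∪ Jc true R ∪ ib (μ * w) Mc s₃ k₃)
      (ib (μ * w) Mc s₃ k₃ ∩ rng (r - μ * w + 1)) (Je 2 R) ω)
    (b2 : L.Arm false (ann r R ∪ Jc false R ∪ ib w (μ * Mc + μ / 2) s₂ k₂)
      (ib w (μ * Mc + μ / 2) s₂ k₂ ∩ rng (r - w + 1)) (Je e₂ R) ω)
    (b4 : L.Arm false (ann r R ∪ Jc false R ∪ ib w (μ * Mc + μ / 2) s₄ k₄)
      (ib w (μ * Mc + μ / 2) s₄ k₄ ∩ rng (r - w + 1)) (Je e₄ R) ω) :
    ∃ q ∈ LamI μ Mc, L.E2i w μ Mc R q.1 q.2.1 q.2.2.1 q.2.2.2 ω := by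
  have hw0 : 0 < w := by omega
  have hμ0 : 0 < μ := by omega
  have hWh := is10_half hμ hw
  have hrw : r + 1 < (μ * Mc + μ / 2 + 1) * w := by
    have : (μ * Mc + μ / 2 + 1) * w = (μ * Mc + μ / 2) * w + w := by ring
    omega
  have hr1 : 0 < r + 1 := by
    have : 0 ≤ (μ * Mc + μ / 2) * w := by positivity
    omega
  have hMpos : 0 < μ * Mc := mul_pos hμ0 hMc
  -- coordinates of the middle of the cells
  have cor1 : ∀ k, CellI (μ * w) (r + 1) k → |μ * k| + 2 * μ + 20 ≤ μ * Mc + μ / 2 := by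
    intro k hk
    have h1 : (|μ * k| + 100 * μ) * w < (μ * Mc + μ / 2 + 1) * w := by
      refine lt_of_le_of_lt (le_of_eq ?_) (lt_of_le_of_lt hk.2 hrw)
      rw [abs_mul, abs_of_pos hμ0]
      ring
    have h2 := lt_of_mul_lt_mul_right h1 hw0.le
    omega
  have cor2 : ∀ k, |k| * w + 90 * (μ * w) ≤ r + 1 → |k| + 2 * μ + 20 ≤ μ * Mc + μ / 2 := by
    intro k hk
    have h1 : (|k| + 90 * μ) * w < (μ * Mc + μ / 2 + 1) * w := by
      refine lt_of_le_of_lt (le_of_eq ?_) (lt_of_le_of_lt hk hrw)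
      ring
    have h2 := lt_of_mul_lt_mul_right h1 hw0.le
    omega
  have ab1 : ∀ k, CellI (μ * w) (r + 1) k → |k * (μ * w)| + 100 * (μ * w) ≤ r + 1 := by
    intro k hk
    rw [abs_mul, abs_of_pos (mul_pos hμ0 hw0)]
    exact hk.2
  have ab2 : ∀ k, |k| * w + 90 * (μ * w) ≤ r + 1 → |k * w| + 90 * (μ * w) ≤ r + 1 := by
    intro k hk
    rw [abs_mul, abs_of_pos hw0]
    exact hk
  have hμw : 100 * w ≤ μ * w := mul_le_mul_of_nonneg_right hμ1 hw0.le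
  have A1 := abs_le.1 (show |k₁ * (μ * w)| ≤ r + 1 - 100 * (μ * w) by have := ab1 _ hk₁; omega)
  have A3 := abs_le.1 (show |k₃ * (μ * w)| ≤ r + 1 - 100 * (μ * w) by have := ab1 _ hk₃; omega)
  have A2 := abs_le.1 (show |k₂ * w| ≤ r + 1 - 90 * (μ * w) by have := ab2 _ hk₂.2; omega)
  have A4 := abs_le.1 (show |k₄ * w| ≤ r + 1 - 90 * (μ * w) by have := ab2 _ hk₄.2; omega)
  -- comparison of the fine cells
  have cmp1 : ∀ k k', k * (μ * w) + (μ * w) / 2 + w < k' * w → μ * k + μ / 2 < k' := by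
    intro k k' h
    have h1 : (μ * k + μ / 2) * w < k' * w := by
      have : (μ * k + μ / 2) * w = k * (μ * w) + (μ / 2) * w := by ring
      omega
    exact lt_of_mul_lt_mul_right h1 hw0.le
  have cmp2 : ∀ k k', k' * w < k * (μ * w) - (μ * w) / 2 - w → k' < μ * k - μ / 2 := by
    intro k k' h
    have h1 : k' * w < (μ * k - μ / 2) * w := by
      have : (μ * k - μ / 2) * w = k * (μ * w) - (μ / 2) * w := by ring
      omega
    exact lt_of_mul_lt_mul_right h1 hw0.le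
  have l12 : s₁ < s₂ ∨ (s₁ = s₂ ∧ μ * k₁ + μ / 2 < k₂) := by
    rcases lex_of_idx (m := r + 1) (s := s₁) (s' := s₂) (y := k₁ * (μ * w) + (μ * w) / 2 + w)
      (y' := k₂ * w) (by rw [abs_lt]; omega) (by rw [abs_lt]; omega) (by omega) with h | ⟨h, h'⟩
    · exact Or.inl h
    · exact Or.inr ⟨h, cmp1 _ _ h'⟩
  have l23 : s₂ < s₃ ∨ (s₂ = s₃ ∧ k₂ < μ * k₃ - μ / 2) := by
    rcases lex_of_idx (m := r + 1) (s := s₂) (s' := s₃) (y := k₂ * w)
      (y' := k₃ * (μ * w) - (μ * w) / 2 - w) (by rw [abs_lt]; omega) (by rw [abs_lt]; omega)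
      (by omega) with h | ⟨h, h'⟩
    · exact Or.inl h
    · exact Or.inr ⟨h, cmp2 _ _ h'⟩
  have l34 : s₃ < s₄ ∨ (s₃ = s₄ ∧ μ * k₃ + μ / 2 < k₄) := by
    rcases lex_of_idx (m := r + 1) (s := s₃) (s' := s₄) (y := k₃ * (μ * w) + (μ * w) / 2 + w)
      (y' := k₄ * w) (by rw [abs_lt]; omega) (by rw [abs_lt]; omega) (by omega) with h | ⟨h, h'⟩
    · exact Or.inl h
    · exact Or.inr ⟨h, cmp1 _ _ h'⟩
  have l41 : s₄ < s₁ + 4 ∨ (s₄ = s₁ + 4 ∧ k₄ < μ * k₁ - μ / 2) := by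
    rcases lex_of_idx (m := r + 1) (s := s₄) (s' := s₁ + 4) (y := k₄ * w)
      (y' := k₁ * (μ * w) - (μ * w) / 2 - w) (by rw [abs_lt]; omega) (by rw [abs_lt]; omega)
      (by omega) with h | ⟨h, h'⟩
    · exact Or.inl h
    · exact Or.inr ⟨h, cmp2 _ _ h'⟩
  obtain ⟨c₀, s', k', j, hL, hj⟩ := land_of (μ := μ) (M := μ * Mc + μ / 2) hμ0
    (s := ![s₁, s₂, s₃, s₄]) (k := ![k₁, k₂, k₃, k₄]) (by
      intro i
      fin_cases i
      · exact cor1 _ hk₁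
      · exact cor2 _ hk₂.2
      · exact cor1 _ hk₃
      · exact cor2 _ hk₄.2) (by
      intro i
      fin_cases i
      · exact hk₁.1
      · exact hk₂.1
      · exact hk₃.1
      · exact hk₄.1) (by
      show s₁ < s₂ ∨ (s₁ = s₂ ∧ μ * k₁ + μ / 2 < k₂ - 0)
      omega) (by
      show s₂ < s₃ ∨ (s₂ = s₃ ∧ k₂ + 0 < μ * k₃ - μ / 2)
      omega) (by
      show s₃ < s₄ ∨ (s₃ = s₄ ∧ μ * k₃ + μ / 2 < k₄ - 0)
      omega) (by
      show s₄ < s₁ + 4 ∨ (s₄ = s₁ + 4 ∧ k₄ + 0 < μ * k₁ - μ / 2)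
      omega)
  refine ⟨(c₀, s', k', fun i => ![0, e₂, 2, e₄] (i + j)), (mem_LamI hμ0 _).2 ⟨hL, ?_, ?_, ?_⟩, ?_⟩
  · intro i
    have hd : ∀ t : Fin 4, (![0, e₂, 2, e₄] : Fin 4 → ℤ) t = dc (colr true t) ∨
        (![0, e₂, 2, e₄] : Fin 4 → ℤ) t = dc (colr true t) + 2 := by
      intro t
      fin_cases t
      · exact Or.inl rfl
      · show e₂ = 1 ∨ e₂ = 1 + 2
        omega
      · exact Or.inr rfl
      · show e₄ = 1 ∨ e₄ = 1 + 2
        omega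
    show ![0, e₂, 2, e₄] (i + j) = dc (colr c₀ i) ∨ ![0, e₂, 2, e₄] (i + j) = dc (colr c₀ i) + 2
    rw [(hj i).2.2]
    exact hd _
  · show (![0, e₂, 2, e₄] : Fin 4 → ℤ) (0 + j) ≠ ![0, e₂, 2, e₄] (2 + j)
    have : ∀ t : Fin 4, (![0, e₂, 2, e₄] : Fin 4 → ℤ) (0 + t) ≠ ![0, e₂, 2, e₄] (2 + t) := by
      intro t
      fin_cases t
      · show (0 : ℤ) ≠ 2
        omega
      · show e₂ ≠ e₄
        omega
      · show (2 : ℤ) ≠ 0
        omega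
      · show e₄ ≠ e₂
        omega
    exact this j
  · show (![0, e₂, 2, e₄] : Fin 4 → ℤ) (1 + j) ≠ ![0, e₂, 2, e₄] (3 + j)
    have : ∀ t : Fin 4, (![0, e₂, 2, e₄] : Fin 4 → ℤ) (1 + t) ≠ ![0, e₂, 2, e₄] (3 + t) := by
      intro t
      fin_cases t
      · show e₂ ≠ e₄
        omega
      · show (2 : ℤ) ≠ 0
        omega
      · show e₄ ≠ e₂
        omega
      · show (0 : ℤ) ≠ 2
        omega
    exact this j
  · intro i
    have hs : lbi w μ Mc (colr c₀ i) (s' i) (k' i) =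
        lbi w μ Mc (colr true (i + j)) ((![s₁, s₂, s₃, s₄] : Fin 4 → ℤ) (i + j))
          ((![k₁, k₂, k₃, k₄] : Fin 4 → ℤ) (i + j)) := by
      rw [(hj i).2.2, (hj i).2.1]
      unfold lbi
      rw [is10_ib (hj i).1, is10_ib (hj i).1]
    show L.Arm (colr c₀ i) (ann ((μ * Mc + μ / 2) * w + w / 2) R ∪ Jc (colr c₀ i) R ∪
        lbi w μ Mc (colr c₀ i) (s' i) (k' i)) (lbi w μ Mc (colr c₀ i) (s' i) (k' i) ∩
        rng ((μ * Mc + μ / 2) * w + w / 2 - lw w μ (colr c₀ i) + 1))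
        (Je ((![0, e₂, 2, e₄] : Fin 4 → ℤ) (i + j)) R) ω
    rw [hs, (hj i).2.2, ← hr]
    have all : ∀ t : Fin 4, L.Arm (colr true t) (ann r R ∪ Jc (colr true t) R ∪
        lbi w μ Mc (colr true t) ((![s₁, s₂, s₃, s₄] : Fin 4 → ℤ) t)
          ((![k₁, k₂, k₃, k₄] : Fin 4 → ℤ) t))
        (lbi w μ Mc (colr true t) ((![s₁, s₂, s₃, s₄] : Fin 4 → ℤ) t)
          ((![k₁, k₂, k₃, k₄] : Fin 4 → ℤ) t) ∩ rng (r - lw w μ (colr true t) + 1))
        (Je ((![0, e₂, 2, e₄] : Fin 4 → ℤ) t) R) ω := by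
      intro t
      fin_cases t
      · exact a1
      · exact b2
      · exact a3
      · exact b4
    exact all _

/-- SECOND STEP, deterministic part (`W = μ w`).
Proof.  `E1i` gives the ring sites with indices `2 m s₂ + y₂`, `2 m s₄ + y₄`.  `fine_cell` for both (for the first one `a = s₁`, `b = s₃ - 4`,
for the second one `a = s₁`, `b = s₃`; the missing inequalities follow from those of `E1i`).  For `η` with the fresh event:
`land_in` with `c = false`, `B = B2 ..` (`C2_con`, `C2_inner`, `C2_exact`, `end_nb`, `fine_far`) lands both closed arms; the open arms survive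
(`arm_keep` with `c = false`, `B' =` block).  Then `E2i_of` (`M W - W/2 = r - W + 1`). -/
theorem step2_in {μ Mc w B r R s₁ k₁ s₃ k₃ ℓ : ℤ} {ω : Cfg} {G : Finset Pt} (hw : w % 2 = 1)
    (hw5 : 5 ≤ w) (hB : 48 ≤ B) (hμ : μ = 4 * B + 1) (hMc : 0 < Mc)
    (hr : r = (μ * Mc + μ / 2) * w + w / 2) (hR : 8 * r ≤ R)
    (hG : ∀ v, r - w < nrm v → nrm v ≤ r + w → v ∈ G)
    (hbad : ¬ L.BadW true ∅ (r + 1) 1 ℓ (B * w) (12 * w) ω)
    (h : L.E1i r (μ * w) Mc R s₁ k₁ s₃ k₃ ω) :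
    ∃ s k s' k' : ℤ, (|k| + 1 < μ * Mc + μ / 2 ∧ |k'| + 1 < μ * Mc + μ / 2) ∧
      ∀ η, L.Fre false r (r + w) w (μ * Mc + μ / 2) s k s' k' η → ∃ q ∈ LamI μ Mc,
        L.E2i w μ Mc R q.1 q.2.1 q.2.2.1 q.2.2.2
          (mix G (L.Rev true (Di r R (B2 (μ * w) Mc s₁ k₁ s₃ k₃))
            (Si false R (B2 (μ * w) Mc s₁ k₁ s₃ k₃))) ω η) := by
  have hw0 : 0 < w := by omega
  have hμ2 : μ % 2 = 1 := by omega
  have hμ0 : 0 < μ := by omega
  have hμ1 : 100 ≤ μ := by omega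
  have hWh := is10_half hμ2 hw
  have hWo : (μ * w) % 2 = 1 := is10_odd hμ2 hw
  have hμw : 190 * w ≤ μ * w := mul_le_mul_of_nonneg_right (by omega) hw0.le
  have hrW : r = Mc * (μ * w) + (μ * w) / 2 := by
    rw [hr, hWh]
    ring
  have hMpos : 0 < μ * Mc := mul_pos hμ0 hMc
  have hrw : r + 1 < (μ * Mc + μ / 2 + 1) * w := by
    have : (μ * Mc + μ / 2 + 1) * w = (μ * Mc + μ / 2) * w + w := by ring
    omega
  have hC2c := C2_con hWo (by omega) hrW hR h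
  have hC2e := C2_exact hWo (by omega) hrW hR h
  have hh := h
  obtain ⟨⟨hk₁, hk₃⟩, a1, a3, s₂, y₂, s₄, y₄, e₂, e₄, he, hy₂, hy₄, i12, i23, i34, i41, b2, b4⟩ := hh
  have hC2i := C2_inner (L := L) (R := R) (s₁ := s₁) (s₃ := s₃) (ω := ω) hWo (by omega) hrW
    hk₁ hk₃
  have hB2 := B2_sub (s₁ := s₁) (s₃ := s₃) hWo (by omega) hrW hk₁ hk₃
  have p1 : (k₁ + 1) * (μ * w) = k₁ * (μ * w) + μ * w := by ring
  have p2 : (k₁ - 1) * (μ * w) = k₁ * (μ * w) - μ * w := by ring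
  have p3 : (k₃ + 1) * (μ * w) = k₃ * (μ * w) + μ * w := by ring
  have p4 : (k₃ - 1) * (μ * w) = k₃ * (μ * w) - μ * w := by ring
  have p5 : 2 * (r + 1) * (s₁ + 4) = 2 * (r + 1) * s₁ + 8 * (r + 1) := by ring
  have p6 : 2 * (r + 1) * (s₃ + 4) = 2 * (r + 1) * s₃ + 8 * (r + 1) := by ring
  have p7 : 2 * (r + 1) * (s₃ - 4) = 2 * (r + 1) * s₃ - 8 * (r + 1) := by ring
  -- first closed arm
  have g1 := i12
  have g2 : 2 * (r + 1) * s₂ + y₂ <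
      2 * (r + 1) * (s₁ + 4) + ((k₁ - 1) * (μ * w) - (μ * w) / 2) := by omega
  have g3 : 2 * (r + 1) * (s₃ - 4) + ((k₃ + 1) * (μ * w) + (μ * w) / 2) <
      2 * (r + 1) * s₂ + y₂ := by omega
  have g4 : 2 * (r + 1) * s₂ + y₂ <
      2 * (r + 1) * (s₃ - 4 + 4) + ((k₃ - 1) * (μ * w) - (μ * w) / 2) := by
    rw [sub_add_cancel]
    exact i23
  -- second closed arm
  have q1 : 2 * (r + 1) * s₁ + ((k₁ + 1) * (μ * w) + (μ * w) / 2) <
      2 * (r + 1) * s₄ + y₄ := by omega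
  have q2 := i41
  have q3 := i34
  have q4 : 2 * (r + 1) * s₄ + y₄ <
      2 * (r + 1) * (s₃ + 4) + ((k₃ - 1) * (μ * w) - (μ * w) / 2) := by omega
  have hb4 : (s₃ - 4) % 4 = s₃ % 4 := by omega
  obtain ⟨v₂, hv₂, V₂, hV₂, hvV₂, k₂, hk₂0, hk₂, ht₂⟩ := fine_cell (a := s₁) (b := s₃ - 4)
    hw hw5 hB hμ rfl hrW hR hk₁ hk₃ hy₂ (by omega) rfl hb4 g1 g2 g3 g4 hbad b2
  obtain ⟨v₄, hv₄, V₄, hV₄, hvV₄, k₄, hk₄0, hk₄, ht₄⟩ := fine_cell (a := s₁) (b := s₃)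
    hw hw5 hB hμ rfl hrW hR hk₁ hk₃ hy₄ (by omega) rfl rfl q1 q2 q3 q4 hbad b4
  have f₂ := fine_far (L := L) hw hw5 hB hμ rfl hrW hr hk₁ hk₃ hy₂ rfl hb4 g1 g2 g3 g4 hk₂
  have f₄ := fine_far (L := L) hw hw5 hB hμ rfl hrW hr hk₁ hk₃ hy₄ rfl rfl q1 q2 q3 q4 hk₄
  have c₂ := is10_abs hw0 hk₂ (show |y₂| ≤ r + 1 - 100 * (μ * w) by omega)
  have c₄ := is10_abs hw0 hk₄ (show |y₄| ≤ r + 1 - 100 * (μ * w) by omega)
  have n₂ : |k₂| + 1 < μ * Mc + μ / 2 := by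
    have h1 : (|k₂| + 2) * w < (μ * Mc + μ / 2 + 1) * w := by
      have : (|k₂| + 2) * w = |k₂| * w + 2 * w := by ring
      omega
    have h2 := lt_of_mul_lt_mul_right h1 hw0.le
    omega
  have n₄ : |k₄| + 1 < μ * Mc + μ / 2 := by
    have h1 : (|k₄| + 2) * w < (μ * Mc + μ / 2 + 1) * w := by
      have : (|k₄| + 2) * w = |k₄| * w + 2 * w := by ring
      omega
    have h2 := lt_of_mul_lt_mul_right h1 hw0.le
    omega
  refine ⟨s₂, k₂, s₄, k₄, ⟨n₂, n₄⟩, ?_⟩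
  rintro η ⟨hcirc, hcor₂, hcor₄⟩
  obtain ⟨u₂, hu₂, hc₂⟩ := land_in (c := false) hw hw5 hr hR n₂ hB2 f₂ hC2c hC2i hC2e hV₂ ht₂ hvV₂
    (end_nb (by omega) hv₂) hG hcirc hcor₂
  obtain ⟨u₄, hu₄, hc₄⟩ := land_in (c := false) hw hw5 hr hR n₄ hB2 f₄ hC2c hC2i hC2e hV₄ ht₄ hvV₄
    (end_nb (by omega) hv₄) hG hcirc hcor₄
  obtain ⟨x₁, hx₁, -, z₁, hz₁, -, m₁⟩ := arm_keep (c := false) (B := B2 (μ * w) Mc s₁ k₁ s₃ k₃)
    (G := G) (η := η) (by omega) (by omega) (by omega) (Or.inl rfl)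
    (show ib (μ * w) Mc s₁ k₁ ⊆ B2 (μ * w) Mc s₁ k₁ s₃ k₃ from Set.subset_union_left) a1
  obtain ⟨x₃, hx₃, -, z₃, hz₃, -, m₃⟩ := arm_keep (c := false) (B := B2 (μ * w) Mc s₁ k₁ s₃ k₃)
    (G := G) (η := η) (by omega) (by omega) (by omega) (Or.inr rfl)
    (show ib (μ * w) Mc s₃ k₃ ⊆ B2 (μ * w) Mc s₁ k₁ s₃ k₃ from Set.subset_union_right) a3
  have r1 : Mc * (μ * w) - (μ * w) / 2 = r - μ * w + 1 := by omega
  have r2 : (μ * Mc + μ / 2) * w - w / 2 = r - w + 1 := by omega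
  rw [r1] at hx₁ hx₃
  rw [r2] at hu₂ hu₄
  have d₂ := abs_le.1 hk₂
  have d₄ := abs_le.1 hk₄
  exact E2i_of (e₂ := e₂) (e₄ := e₄) hμ2 hμ1 hMc hw hw5 hr hk₁ hk₃ ⟨hk₂0, by omega⟩
    ⟨hk₄0, by omega⟩ he
    (by omega) (by omega) (by omega) (by omega)
    ⟨x₁, hx₁, z₁, hz₁, m₁⟩ ⟨x₃, hx₃, z₃, hz₃, m₃⟩ ⟨u₂, hu₂, v₂, hv₂, hc₂⟩ ⟨u₄, hu₄, v₄, hv₄, hc₄⟩

end Lat

end SC

end

/-! ### from `Lib_MP_e0a489.RO1` -/

section

/-!
# MP_e0a489, RO 1: crossings of rotated rectangles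
-/

set_option autoImplicit false

namespace SC

open Classical

namespace Lat

private theorem ro1_finite (s a b p q : ℤ) : (rt s '' rect a b p q).Finite := by
  have h : rect a b p q ⊆ Set.Icc a b ×ˢ Set.Icc p q := by
    rintro v ⟨h1, h2⟩
    exact ⟨h1, h2⟩
  exact (((Set.finite_Icc a b).prod (Set.finite_Icc p q)).subset h).image _

private theorem ro1_dep {A : Cfg → Prop} {D : Set Pt} (h : Dep A D) (s : ℤ) :
    Dep (fun ω => A (via (rt s) ω)) (rt s '' D) := by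
  intro ω ω' H
  exact h _ _ fun v hv => H (rt s v) (Set.mem_image_of_mem _ hv)

private theorem ro1_loc {A : Cfg → Prop} {s a b p q : ℤ} (h : Dep A (rt s '' rect a b p q)) :
    Loc A :=
  ⟨(ro1_finite s a b p q).toFinset, h.mono (by rw [Set.Finite.coe_toFinset])⟩

private theorem ro1_mon {A : Cfg → Prop} {c : Bool} (h : MonC c A) (s : ℤ) :
    MonC c (fun ω => A (via (rt s) ω)) := by
  cases c with
  | true =>
    have h0 : Inc A := h
    intro ω ω' hle h1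
    exact h0 _ _ (fun v => hle (rt s v)) h1
  | false =>
    have h0 : Dec A := h
    intro ω ω' hle h1
    exact h0 _ _ (fun v => hle (rt s v)) h1

private theorem ro1_set {L : Lat} {c : Bool} {s a b p q : ℤ} {ω : Cfg} {u v : Pt}
    (h : (L.rots s).Cn (rect a b p q ∩ (L.rots s).col c (via (rt s) ω)) u v) :
    ∃ Q, Q ⊆ L.col c ω ∧ L.Con Q ∧ Q ⊆ rt s '' rect a b p q ∧ rt s u ∈ Q ∧ rt s v ∈ Q := by
  refine ⟨rt s '' {x | (L.rots s).Cn (rect a b p q ∩ (L.rots s).col c (via (rt s) ω)) u x},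
    ?_, ?_, ?_, ?_, ?_⟩
  · rw [← (tr_rots L s).col c ω]
    rintro _ ⟨x, hx, rfl⟩
    have hx' : (L.rots s).Cn (rect a b p q ∩ (L.rots s).col c (via (rt s) ω)) u x := hx
    exact Set.mem_image_of_mem _ hx'.right.2
  · exact ((tr_rots L s).con _).1 (con_cluster _ _)
  · rintro _ ⟨x, hx, rfl⟩
    have hx' : (L.rots s).Cn (rect a b p q ∩ (L.rots s).col c (via (rt s) ω)) u x := hx
    exact Set.mem_image_of_mem _ hx'.right.1
  · exact Set.mem_image_of_mem _ (Cn.refl h.left)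
  · exact Set.mem_image_of_mem _ h

/-- `HX.dep` for `L.rots s`: if `ω = ω'` on `rt s '' rect a b p q` then `via (rt s) ω = via (rt s) ω'` on
`rect a b p q` (`via (rt s) ω v = ω (rt s v)`). -/
theorem RX.dep (L : Lat) (c : Bool) (s a b p q : ℤ) :
    Dep (L.RX c s a b p q) (rt s '' rect a b p q) := by
  exact ro1_dep (HX.dep (L.rots s) c a b p q) s

theorem PX.dep (L : Lat) (c : Bool) (s a b p q : ℤ) :
    Dep (L.PX c s a b p q) (rt s '' rect a b p q) := by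
  exact ro1_dep (VX.dep (L.rots s) c a b p q) s

/-- `RX.dep`, the rectangle is finite (subset of a product of two intervals), its image is finite. -/
theorem RX.loc (L : Lat) (c : Bool) (s a b p q : ℤ) : Loc (L.RX c s a b p q) := by
  exact ro1_loc (RX.dep L c s a b p q)

theorem PX.loc (L : Lat) (c : Bool) (s a b p q : ℤ) : Loc (L.PX c s a b p q) := by
  exact ro1_loc (PX.dep L c s a b p q)

/-- `HX.mon` for `L.rots s`, case distinction on `c`; `ω ≤ ω'` implies `via (rt s) ω ≤ via (rt s) ω'`. -/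
theorem RX.mon (L : Lat) (c : Bool) (s a b p q : ℤ) : MonC c (L.RX c s a b p q) := by
  exact ro1_mon (HX.mon (L.rots s) c a b p q) s

theorem PX.mon (L : Lat) (c : Bool) (s a b p q : ℤ) : MonC c (L.PX c s a b p q) := by
  exact ro1_mon (VX.mon (L.rots s) c a b p q) s

/-- `HX` gives `u`, `v` with `Cn (rect a b p q ∩ col) u v` in `L' = L.rots s`; take the image under `rt s` of the
cluster `{x | L'.Cn (rect a b p q ∩ L'.col c (via (rt s) ω)) u x}` (`con_cluster`, `Tr.con`, `Tr.col` for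
`tr_rots L s`). -/
theorem RX.set {L : Lat} {c : Bool} {s a b p q : ℤ} {ω : Cfg} (h : L.RX c s a b p q ω) :
    ∃ Q, Q ⊆ L.col c ω ∧ L.Rad s a b p q Q := by
  obtain ⟨⟨u1, u2⟩, ⟨v1, v2⟩, hu, hv, hc⟩ := h
  have hu' : u1 = a := hu
  have hv' : v1 = b := hv
  subst hu' hv'
  obtain ⟨Q, h1, h2, h3, h4, h5⟩ := ro1_set hc
  exact ⟨Q, h1, h2, h3, ⟨u2, h4⟩, v2, h5⟩

theorem PX.set {L : Lat} {c : Bool} {s a b p q : ℤ} {ω : Cfg} (h : L.PX c s a b p q ω) :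
    ∃ Q, Q ⊆ L.col c ω ∧ L.Par s a b p q Q := by
  obtain ⟨⟨u1, u2⟩, ⟨v1, v2⟩, hu, hv, hc⟩ := h
  have hu' : u2 = p := hu
  have hv' : v2 = q := hv
  subst hu' hv'
  obtain ⟨Q, h1, h2, h3, h4, h5⟩ := ro1_set hc
  exact ⟨Q, h1, h2, h3, ⟨u1, h4⟩, v1, h5⟩

end Lat

/-- `pr_via` (with `HX.loc`), `RSW.rots`, `RSW.hx'` -/
theorem RSW.prRX {L : Lat} {κ : ℕ → ℝ} (h : RSW L κ) {k : ℕ} (hk : 1 ≤ k) (c : Bool)
    {s a b p q : ℤ} (hab : a ≤ b) (h4 : 4 ≤ q - p) (hr : b - a ≤ k * (q - p)) :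
    κ k ≤ pr (L.RX c s a b p q) := by
  have h1 : pr (L.RX c s a b p q) = pr ((L.rots s).HX c a b p q) :=
    pr_via (Lat.HX.loc (L.rots s) c a b p q) (rt s)
  rw [h1]
  exact (h.rots s).hx' hk c hab h4 hr

theorem RSW.prPX {L : Lat} {κ : ℕ → ℝ} (h : RSW L κ) {k : ℕ} (hk : 1 ≤ k) (c : Bool)
    {s a b p q : ℤ} (hpq : p ≤ q) (h4 : 4 ≤ b - a) (hr : q - p ≤ k * (b - a)) :
    κ k ≤ pr (L.PX c s a b p q) := by
  have h1 : pr (L.PX c s a b p q) = pr ((L.rots s).VX c a b p q) :=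
    pr_via (Lat.VX.loc (L.rots s) c a b p q) (rt s)
  rw [h1]
  exact (h.rots s).vx' hk c hpq h4 hr

end SC

end

/-! ### from `Lib_MP_e0a489.TTI2` -/

section

/-!
# MP_e0a489, module TT (9a), loss of a small lag for the separated event
-/

set_option autoImplicit false

namespace SC

namespace TT

open Classical

variable {L : Lat}

/-- The zones of `kz`: `G` contains all sites of `bx (2 R)` with `nrm v ≤ 8 r` or `R / 4 < nrm v` (`exists_annF` with `a = -1`, and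
`Finset.filter`). -/
theorem exists_zone (r R : ℤ) : ∃ G : Finset Pt, ∀ v, v ∈ G ↔
    nrm v ≤ 2 * R ∧ (nrm v ≤ 8 * r ∨ R / 4 < nrm v) := by
  obtain ⟨G, hG⟩ := exists_annF (-1) (2 * R)
  refine ⟨G.filter fun v => nrm v ≤ 8 * r ∨ R / 4 < nrm v, fun v => ?_⟩
  rw [Finset.mem_filter, hG]
  have h0 : 0 ≤ nrm v := by
    unfold nrm
    exact le_trans (abs_nonneg _) (le_max_left _ _)
  constructor
  · exact fun h => ⟨h.1.2, h.2⟩
  · exact fun h => ⟨⟨by omega, h.1⟩, h.2⟩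

/-- `h = cpr G (S4 r R)` depends only on the sites with `8 r < nrm v ≤ R / 4` (`Lat.S4.dep`: norms in `(r/2, 2R]`; `Dep.av`). -/
theorem zone_dep {r R : ℤ} (hr : 0 ≤ r) (hR : r ≤ R) {G : Finset Pt}
    (hG : ∀ v, v ∈ G ↔ nrm v ≤ 2 * R ∧ (nrm v ≤ 8 * r ∨ R / 4 < nrm v)) :
    Dep (cpr G (L.S4 r R)) {v | 8 * r < nrm v ∧ nrm v ≤ R / 4} := by
  have h1 : Dep (SC.av G (ind (L.S4 r R)))
      ({v | r / 2 < nrm v ∧ nrm v ≤ 2 * R} \ (G : Set Pt)) :=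
    Dep.av (Dep.ind (Lat.S4.dep L hr hR)) G
  refine Dep.mono h1 (fun v hv => ?_)
  have h2 : nrm v ≤ 2 * R := hv.1.2
  have h3 : ¬ (nrm v ≤ 2 * R ∧ (nrm v ≤ 8 * r ∨ R / 4 < nrm v)) :=
    fun h => hv.2 (Finset.mem_coe.2 ((hG v).2 h))
  show 8 * r < nrm v ∧ nrm v ≤ R / 4
  by_contra h4
  apply h3
  refine ⟨h2, ?_⟩
  by_contra h5
  exact h4 ⟨by omega, by omega⟩

/-- `pr2 (kz k r R) (S4 r R) = ex2 k h h`: `ex2_av` (`kz k r R = 0` on `G`) and `ex2_congr` (`kz k r R = k` on the sites on which `h` depends). -/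
theorem zone_ex2 {r R : ℤ} (hr : 0 ≤ r) (hR : r ≤ R) {G : Finset Pt}
    (hG : ∀ v, v ∈ G ↔ nrm v ≤ 2 * R ∧ (nrm v ≤ 8 * r ∨ R / 4 < nrm v)) (k : Pt → ℝ) :
    pr2 (kz k r R) (L.S4 r R) = ex2 k (cpr G (L.S4 r R)) (cpr G (L.S4 r R)) := by
  have l1 : Lf (ind (L.S4 r R)) := (Lat.S4.loc L r R).lf
  have l2 : Lf (cpr G (L.S4 r R)) := l1.av G
  have h1 : pr2 (kz k r R) (L.S4 r R) =
      ex2 (kz k r R) (cpr G (L.S4 r R)) (cpr G (L.S4 r R)) := by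
    refine ex2_av l1 l1 G (kz k r R) (fun v hv => ?_)
    exact if_pos ((hG v).1 hv).2
  rw [h1]
  refine ex2_congr l2 l2 (zone_dep hr hR hG) (fun v hv => ?_)
  have h2 : 8 * r < nrm v ∧ nrm v ≤ R / 4 := hv
  exact if_neg (fun h => by omega)

/-- Averaging does not increase the square of the derivative: for `v ∉ G`, `dv v h = av G (dv v f)` (`dv_av`), `f = ind (S4 r R)`; with `k₁ = 1` off
`G`, `0` on `G`: `ex ((dv v h)²) = ex2 1 (dv v h) (dv v h)` (`ex2_one`) `= ex2 k₁ (dv v h) (dv v h)` (`ex2_congr`, `dv v h` does not depend on `G`) `= ex2 k₁ (dv v f) (dv v f)`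
(`ex2_av`) `≤ ex2 1 (dv v f) (dv v f)` (`ex2_mono_kappa`) `= ex ((dv v f)²) = (1/4) pr (Piv v (S4 r R))` (`abs_dv_ind`).  General statement for a local event. -/
theorem dv_av_sq {A : Cfg → Prop} (hA : Loc A) {G : Finset Pt} {v : Pt} (hv : v ∉ G) :
    ex (fun ω => dv v (cpr G A) ω ^ 2) ≤ 1 / 4 * pr (Piv v A) := by
  obtain ⟨F, hF⟩ := hA
  have hd : Dep (dv v (ind A)) (F : Set Pt) :=
    Dep.mono (Dep.dv (Dep.ind hF) v) Set.sdiff_subset
  have ld : Lf (dv v (ind A)) := ⟨F, hd⟩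
  have e1 : dv v (cpr G A) = SC.av G (dv v (ind A)) := by
    funext ω
    exact dv_av ⟨F, Dep.ind hF⟩ hv ω
  have hk : ∀ u : Pt, 0 ≤ (if u ∈ G then (0 : ℝ) else 1) ∧ (if u ∈ G then (0 : ℝ) else 1) ≤ 1 := by
    intro u
    split_ifs
    · exact ⟨le_refl _, zero_le_one⟩
    · exact ⟨zero_le_one, le_refl _⟩
  have h1 := ex2_le_sq ld (fun u => if u ∈ G then (0 : ℝ) else 1) hk
  rw [ex2_av ld ld G (fun u => if u ∈ G then (0 : ℝ) else 1) (fun u hu => if_pos hu),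
    ex2_one (ld.av G) (ld.av G) (Dep.av hd G) (fun u => if u ∈ G then (0 : ℝ) else 1)
      (fun u hu => if_neg (fun h => hu.2 (Finset.mem_coe.2 h)))] at h1
  have e2 : (fun ω => dv v (cpr G A) ω ^ 2) =
      fun ω => SC.av G (dv v (ind A)) ω * SC.av G (dv v (ind A)) ω := by
    funext ω
    rw [e1]
    ring
  rw [e2]
  refine le_trans h1 (le_of_eq ?_)
  have e3 : (fun ω => dv v (ind A) ω ^ 2) = fun ω => 1 / 4 * ind (Piv v A) ω := by
    funext ω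
    rw [← sq_abs, abs_dv_ind]
    unfold ind
    split_ifs
    · norm_num
    · norm_num
  rw [e3]
  have lp : Lf (ind (Piv v A)) := ⟨F, Dep.ind (Dep.mono (Dep.piv hF v) Set.sdiff_subset)⟩
  exact ex_smul lp (1 / 4)

/-- LOSS.  `h` as above, `W` the set of the sites with `8 r < nrm v ≤ R / 4`.  `lag_loss` for `h` and `W`: `ex (h²) ≤ ex2 (kon W (e^-s) 1) h h + s ∑_W ex ((dv v h)²)`;
`ex (h²) = ex2 1 h h = pr2 (kz 1 r R) (S4 r R)` (`ex2_one`, `zone_ex2`), `ex2 (kon W (e^-s) 1) h h = ex2 (kt s) h h` (`ex2_congr`, `zone_dep`) `= pr2 (kz (kt s) r R) (S4 r R)`; `dv_av_sq`. -/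
theorem S4_loss {r R : ℤ} (hr : 0 ≤ r) (hR : r ≤ R) {s : ℝ} (hs : 0 ≤ s) {W : Finset Pt}
    (hW : ∀ v, v ∈ W ↔ 8 * r < nrm v ∧ nrm v ≤ R / 4) :
    pr2 (kz (fun _ => 1) r R) (L.S4 r R) ≤ pr2 (kz (kt s) r R) (L.S4 r R) +
      s * ∑ v ∈ W, 1 / 4 * pr (Piv v (L.S4 r R)) := by
  obtain ⟨G, hG⟩ := exists_zone r R
  have l1 : Lf (ind (L.S4 r R)) := (Lat.S4.loc L r R).lf
  have l2 : Lf (cpr G (L.S4 r R)) := l1.av G
  have hd := zone_dep (L := L) hr hR hG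
  rw [zone_ex2 hr hR hG, zone_ex2 hr hR hG,
    ex2_one l2 l2 hd (fun _ => (1 : ℝ)) (fun _ _ => rfl)]
  have h1 := lag_loss l2 W hs
  have e1 : (fun ω => cpr G (L.S4 r R) ω ^ 2) =
      fun ω => cpr G (L.S4 r R) ω * cpr G (L.S4 r R) ω := by
    funext ω
    ring
  rw [e1] at h1
  have e2 : ex2 (kon W (Real.exp (-s)) fun _ => 1) (cpr G (L.S4 r R)) (cpr G (L.S4 r R)) =
      ex2 (kt s) (cpr G (L.S4 r R)) (cpr G (L.S4 r R)) := by
    refine ex2_congr l2 l2 hd (fun v hv => ?_)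
    exact if_pos ((hW v).2 hv)
  rw [e2] at h1
  refine le_trans h1 (add_le_add (le_refl _) (mul_le_mul_of_nonneg_left ?_ hs))
  refine Finset.sum_le_sum (fun v hv => ?_)
  refine dv_av_sq (Lat.S4.loc L r R) (fun hvG => ?_)
  have h2 := (hW v).1 hv
  have h3 := (hG v).1 hvG
  omega

end TT

end SC

end

/-! ### from `Lib_MP_e0a489.ZR7` -/

section

/-!
# MP_e0a489, module ZR, 7: the RSW lemma of Bollobás and Riordan

`hL : Tr L L (rfy (2 * n))`: the reflection in the row `n` is a symmetry of the lattice.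
-/

set_option autoImplicit false

namespace SC

open Classical

variable {L : Lat} {a m n : ℤ}

private theorem zr7_inv (h : ℤ) (v : Pt) : rfy h (rfy h v) = v := by
  show ((v.1, h - (h - v.2)) : Pt) = v
  rw [sub_sub_cancel]

private theorem zr7_mem (h : ℤ) (A : Set Pt) (v : Pt) : v ∈ rfy h '' A ↔ rfy h v ∈ A := by
  constructor
  · rintro ⟨w, hw, rfl⟩
    rwa [zr7_inv]
  · intro hv
    exact ⟨rfy h v, hv, zr7_inv h v⟩

private theorem zr7_rect (h x y : ℤ) : rfy h '' rect x y 0 h = rect x y 0 h := by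
  ext v
  rw [zr7_mem]
  constructor
  · rintro ⟨⟨h1, h2⟩, h3, h4⟩
    have h3' : 0 ≤ h - v.2 := h3
    have h4' : h - v.2 ≤ h := h4
    exact ⟨⟨h1, h2⟩, by omega, by omega⟩
  · rintro ⟨⟨h1, h2⟩, h3, h4⟩
    refine ⟨⟨h1, h2⟩, ?_, ?_⟩
    · show 0 ≤ h - v.2
      omega
    · show h - v.2 ≤ h
      omega

private theorem zr7_finite (x y p q : ℤ) : (rect x y p q).Finite := by
  have h : rect x y p q ⊆ Set.Icc x y ×ˢ Set.Icc p q := by
    rintro v ⟨h1, h2⟩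
    exact ⟨h1, h2⟩
  exact ((Set.finite_Icc _ _).prod (Set.finite_Icc _ _)).subset h

/-- THE SYMMETRIC SET.  `Γ` as in `left_crossing`, `e = rfy (2n)`, `B = Γ ∪ e '' Γ`.  `B` is connected (`Tr.con` for `e '' Γ`, the site of `Γ` in the row `n` is fixed
by `e`, `Con.union`), contained in `rect 0 a 0 (2n)`, contains sites of the rows `0` and `2n`, `e '' B = B`. -/
theorem zr_B (hL : Tr L L (rfy (2 * n))) (hn : 0 ≤ n) {Γ : Set Pt} (hΓ : L.Con Γ)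
    (hr : Γ ⊆ rect 0 a 0 n) (h0 : ∃ v ∈ Γ, v.2 = 0) (h1 : ∃ v ∈ Γ, v.2 = n) :
    L.Con (Γ ∪ rfy (2 * n) '' Γ) ∧ Γ ∪ rfy (2 * n) '' Γ ⊆ rect 0 a 0 (2 * n) ∧
      (∃ v ∈ Γ ∪ rfy (2 * n) '' Γ, v.2 = 0) ∧ (∃ v ∈ Γ ∪ rfy (2 * n) '' Γ, v.2 = 2 * n) ∧
      rfy (2 * n) '' (Γ ∪ rfy (2 * n) '' Γ) = Γ ∪ rfy (2 * n) '' Γ := by
  obtain ⟨u, hu, hu0⟩ := h0
  obtain ⟨v, hv, hvn⟩ := h1
  refine ⟨?_, ?_, ⟨u, Or.inl hu, hu0⟩, ?_, ?_⟩
  · refine Lat.Con.union hΓ ((hL.con Γ).1 hΓ) ⟨v, hv, ?_⟩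
    rw [zr7_mem]
    have e : rfy (2 * n) v = v := by
      show ((v.1, 2 * n - v.2) : Pt) = v
      refine Prod.ext rfl ?_
      show 2 * n - v.2 = v.2
      omega
    rwa [e]
  · rintro w (hw | hw)
    · obtain ⟨⟨q1, q2⟩, q3, q4⟩ := hr hw
      exact ⟨⟨q1, q2⟩, q3, by omega⟩
    · rw [zr7_mem] at hw
      obtain ⟨⟨q1, q2⟩, q3, q4⟩ := hr hw
      have q1' : 0 ≤ w.1 := q1
      have q2' : w.1 ≤ a := q2
      have q3' : 0 ≤ 2 * n - w.2 := q3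
      have q4' : 2 * n - w.2 ≤ n := q4
      exact ⟨⟨q1', q2'⟩, by omega, by omega⟩
  · refine ⟨rfy (2 * n) u, Or.inr ⟨u, hu, rfl⟩, ?_⟩
    show 2 * n - u.2 = 2 * n
    omega
  · rw [Set.image_union]
    have e : rfy (2 * n) '' (rfy (2 * n) '' Γ) = Γ := by
      ext w
      rw [zr7_mem, zr7_mem, zr7_inv]
    rw [e, Set.union_comm]

private theorem zr7_dom (hL : Tr L L (rfy (2 * n))) (hm : 0 ≤ m) (hn : 0 ≤ n) {B : Set Pt}
    (hB : B ⊆ rect 0 m 0 (2 * n)) (heB : rfy (2 * n) '' B = B) :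
    rfy (2 * n) '' (L.rgt B m (2 * n) ∩ rect 0 m 0 (2 * n)) =
      L.rgt B m (2 * n) ∩ rect 0 m 0 (2 * n) := by
  rw [Set.image_inter (rfy (2 * n)).injective, zr7_rect,
    rgt_sym hL hm (by omega) hB heB (zr7_rect _ _ _) rfl]

/-- HALF OF THE PROBABILITY.  A crossing of `[0,m] × [0,2n]` gives a path in the region `D` on the right of `B`, starting next to
`Γ` or next to `e '' Γ`; both cases have the same probability by the reflection `e = rfy (2n)`.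
Proof.  `rgt_arm` for `B` (`zr_B`; `h = 2n`): `HX true 0 m 0 (2n) η` implies `Arm true D (nb B) Y η`, `D = rgt B m (2n) ∩ rect 0 m 0 (2n)`, `Y = {v | v.1 = m}`; `nb B = nb Γ ∪ nb (e '' Γ)`.
So `pr (HX) ≤ pr (Arm D (nb Γ) Y) + pr (Arm D (nb (e '' Γ)) Y)` (`pr_mono`, `pr_or_le`; the events are local: `Arm.loc`, `D` is a subset of a finite rectangle).
By `Tr.arm hL`: `Arm D (nb Γ) Y (via e η) ↔ Arm (e '' D) (e '' nb Γ) (e '' Y) η`, `e '' D = D` (`rgt_sym`, `Set.image_inter`), `e '' nb Γ = nb (e '' Γ)` (`Tr.nb`), `e '' Y = Y`; so the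
two probabilities are equal (`pr_via`). -/
theorem zr_half (hL : Tr L L (rfy (2 * n))) (ha : 0 ≤ a) (ham : a < m) (hn : 0 ≤ n) {Γ : Set Pt}
    (hΓ : L.Con Γ) (hr : Γ ⊆ rect 0 a 0 n) (h0 : ∃ v ∈ Γ, v.2 = 0) (h1 : ∃ v ∈ Γ, v.2 = n) :
    1 / 2 * pr (L.HX true 0 m 0 (2 * n)) ≤
      pr (L.Arm true (L.rgt (Γ ∪ rfy (2 * n) '' Γ) m (2 * n) ∩ rect 0 m 0 (2 * n)) (L.nb Γ)
        {v | v.1 = m}) := by
  obtain ⟨b1, b2, b3, b4, b5⟩ := zr_B hL hn hΓ hr h0 h1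
  set B : Set Pt := Γ ∪ rfy (2 * n) '' Γ with hB
  have hBm : B ⊆ rect 0 m 0 (2 * n) := by
    intro w hw
    obtain ⟨⟨q1, q2⟩, q3⟩ := b2 hw
    exact ⟨⟨q1, by omega⟩, q3⟩
  set D : Set Pt := L.rgt B m (2 * n) ∩ rect 0 m 0 (2 * n) with hD
  have hDf : D.Finite := (zr7_finite 0 m 0 (2 * n)).subset Set.inter_subset_right
  have hDe : rfy (2 * n) '' D = D := zr7_dom hL (by omega) hn hBm b5
  have l1 : Loc (L.Arm true D (L.nb Γ) {v | v.1 = m}) := Lat.Arm.loc L true _ _ _ hDf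
  have l2 : Loc (L.Arm true D (L.nb (rfy (2 * n) '' Γ)) {v | v.1 = m}) :=
    Lat.Arm.loc L true _ _ _ hDf
  have l3 : Loc (L.HX true 0 m 0 (2 * n)) := Lat.HX.loc L true _ _ _ _
  have hY : rfy (2 * n) '' {v : Pt | v.1 = m} = {v : Pt | v.1 = m} := by
    ext w
    rw [zr7_mem]
    exact Iff.rfl
  have e1 : pr (L.Arm true D (L.nb (rfy (2 * n) '' Γ)) {v | v.1 = m}) =
      pr (L.Arm true D (L.nb Γ) {v | v.1 = m}) := by
    rw [← pr_via l1 (rfy (2 * n))]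
    congr 1
    funext ω
    have h2 := hL.arm true D (L.nb Γ) {v | v.1 = m} ω
    rw [hDe, hL.nb, hY] at h2
    exact (propext h2).symm
  have e2 : pr (L.HX true 0 m 0 (2 * n)) ≤ pr (L.Arm true D (L.nb Γ) {v | v.1 = m}) +
      pr (L.Arm true D (L.nb (rfy (2 * n) '' Γ)) {v | v.1 = m}) := by
    refine le_trans (pr_mono l3 (l1.or l2) (fun η hη => ?_)) (pr_or_le l1 l2)
    obtain ⟨x, ⟨s, hs, hsx⟩, y, hy, hc⟩ := rgt_arm ha ham (by omega) b1 b2 b3 b4 hη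
    rcases hs with hs | hs
    · exact Or.inl ⟨x, ⟨s, hs, hsx⟩, y, hy, hc⟩
    · exact Or.inr ⟨x, ⟨s, hs, hsx⟩, y, hy, hc⟩
  rw [e1] at e2
  linarith

/-- THE MIXED CONFIGURATION.  `Γ` is open and explored, the region `D` is not explored (`rgt_avoid` with `h = 2n` and `C = Cx ..`, which does not meet `B`:
it does not meet `Γ`; a site `z ∈ C` has `z.2 ≤ n` and the sites of `e '' Γ` have second coordinate `≥ n`, so a common site has `z.2 = n` and is a site of `Γ`).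
So in `ζ = mix G R ω η` the sites of `Γ` are open (`mix_col_rev`), the open sites of `D` are those of `η` (`mix_col_new`).  Take `u`, `v` = sites of `Γ` in the rows `0`
and `n`, `w` = end of the arm: `u` is joined in `Γ` to the neighbour of the start of the arm.  (`C` is connected, contained in `rect (-1) a 0 n`, contains `(-1, 0)`: `Cx_con`, `Cx_sub`, `Cx_sup`.
`Rev = C ∪ bd .. C` and `bd M C ⊆ nb C`.) -/
theorem zr_mix (hL : Tr L L (rfy (2 * n))) (ha : 0 ≤ a) (ham : a < m) (hn : 0 ≤ n) {G : Finset Pt}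
    (hG : rect 0 m 0 (2 * n) ⊆ (G : Set Pt)) {ω η : Cfg} {Γ : Set Pt} (hΓ : L.Con Γ)
    (hr : Γ ⊆ rect 0 a 0 n ∩ L.col true ω)
    (hR : Γ ⊆ L.Rev false (rect (-1) a 0 n) (rect (-1) (-1) 0 n) ω)
    (hC : ∀ v ∈ Γ, v ∉ L.Cx false (rect (-1) a 0 n) (rect (-1) (-1) 0 n) ω)
    (h0 : ∃ v ∈ Γ, v.2 = 0) (h1 : ∃ v ∈ Γ, v.2 = n)
    (hA : L.Arm true (L.rgt (Γ ∪ rfy (2 * n) '' Γ) m (2 * n) ∩ rect 0 m 0 (2 * n)) (L.nb Γ)
      {v | v.1 = m} η) :
    L.XX a m n (mix G (L.Rev false (rect (-1) a 0 n) (rect (-1) (-1) 0 n)) ω η) := by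
  obtain ⟨b1, b2, b3, b4, b5⟩ := zr_B hL hn hΓ (fun v hv => (hr hv).1) h0 h1
  have hBm : Γ ∪ rfy (2 * n) '' Γ ⊆ rect 0 m 0 (2 * n) := by
    intro w hw
    obtain ⟨⟨q1, q2⟩, q3⟩ := b2 hw
    exact ⟨⟨q1, by omega⟩, q3⟩
  have hSM : rect (-1) (-1) 0 n ⊆ rect (-1) a 0 n := by
    rintro v ⟨⟨q1, q2⟩, q3⟩
    exact ⟨⟨q1, by omega⟩, q3⟩
  have hCc : L.Con (L.Cx false (rect (-1) a 0 n) (rect (-1) (-1) 0 n) ω) :=
    Lat.Cx_con (Lat.con_rect _ _ _ _)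
  have hCs : L.Cx false (rect (-1) a 0 n) (rect (-1) (-1) 0 n) ω ⊆ rect (-1) a 0 n :=
    Lat.Cx_sub hSM
  have hCr : L.Cx false (rect (-1) a 0 n) (rect (-1) (-1) 0 n) ω ⊆
      rect (-1) (m + 1) 0 (2 * n) := by
    intro v hv
    obtain ⟨⟨q1, q2⟩, q3, q4⟩ := hCs hv
    exact ⟨⟨q1, by omega⟩, q3, by omega⟩
  have hC1 : ∃ v ∈ L.Cx false (rect (-1) a 0 n) (rect (-1) (-1) 0 n) ω, v.1 = -1 :=
    ⟨(-1, 0), Lat.Cx_sup ⟨⟨le_refl _, le_refl _⟩, le_refl _, hn⟩, rfl⟩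
  have hCB : ∀ v ∈ L.Cx false (rect (-1) a 0 n) (rect (-1) (-1) 0 n) ω,
      v ∉ Γ ∪ rfy (2 * n) '' Γ := by
    rintro v hv (hv2 | hv2)
    · exact hC v hv2 hv
    · rw [zr7_mem] at hv2
      obtain ⟨⟨q1, q2⟩, q3, q4⟩ := (hr hv2).1
      obtain ⟨⟨p1, p2⟩, p3, p4⟩ := hCs hv
      have q4' : 2 * n - v.2 ≤ n := q4
      have e : rfy (2 * n) v = v := by
        show ((v.1, 2 * n - v.2) : Pt) = v
        refine Prod.ext rfl ?_
        show 2 * n - v.2 = v.2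
        omega
      rw [e] at hv2
      exact hC v hv2 hv
  set R : Cfg → Set Pt := L.Rev false (rect (-1) a 0 n) (rect (-1) (-1) 0 n) with hRd
  have hζΓ : Γ ⊆ rect 0 a 0 n ∩ L.col true (mix G R ω η) := fun v hv =>
    ⟨(hr hv).1, (Lat.mix_col_rev (hR hv) true).2 (hr hv).2⟩
  have hζD : (L.rgt (Γ ∪ rfy (2 * n) '' Γ) m (2 * n) ∩ rect 0 m 0 (2 * n)) ∩ L.col true η ⊆
      rect 0 m 0 (2 * n) ∩ L.col true (mix G R ω η) := by
    rintro v ⟨⟨hv1, hv2⟩, hv3⟩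
    refine ⟨hv2, (Lat.mix_col_new ?_ (by exact_mod_cast hG hv2) true).2 hv3⟩
    have h2 := rgt_avoid (by omega) (by omega) hCc hCr hC1 hCB b1 hBm b3 b4 hv1
    rintro (h3 | h3)
    · exact h2.1 h3
    · exact h2.2 h3.2
  have hsub : rect 0 a 0 n ∩ L.col true (mix G R ω η) ⊆
      rect 0 m 0 (2 * n) ∩ L.col true (mix G R ω η) := by
    rintro v ⟨⟨⟨q1, q2⟩, q3, q4⟩, h2⟩
    exact ⟨⟨⟨q1, by omega⟩, q3, by omega⟩, h2⟩
  obtain ⟨u, hu, hu0⟩ := h0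
  obtain ⟨v, hv, hvn⟩ := h1
  obtain ⟨x, ⟨s, hs, hsx⟩, y, hy, hc⟩ := hA
  have hc' := hc.mono hζD
  have hus := (hΓ u hu s hs).mono (hζΓ.trans hsub)
  refine ⟨u, v, y, hu0, hvn, hy, (hΓ u hu v hv).mono hζΓ, ?_⟩
  exact (hus.trans (Lat.Cn.of_adj hus.right hc'.left hsx)).trans hc'

/-- RSW LEMMA.  `resample` (`Rev_stop`) with one event `E' = XX a m n` (`I = Finset.univ` for `Unit`), `E = VX true 0 a 0 n`, `F ω` = the arm event
of `zr_half` for a set `Γ` chosen by `left_crossing` (if `E ω` holds; otherwise `fun _ => True`), `p = ½ pr (HX true 0 m 0 (2n))`, `G` = the sites of `rect 0 m 0 (2n)` (`zr_half`, `zr_mix`).  The conditional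
probabilities are probabilities: `cpr_eq_pr` (`VX.dep`, `XX.dep`, `Dep.mono`). -/
theorem zr_rsw (hL : Tr L L (rfy (2 * n))) (ha : 0 ≤ a) (ham : a < m) (hn : 0 ≤ n) :
    1 / 2 * pr (L.HX true 0 m 0 (2 * n)) * pr (L.VX true 0 a 0 n) ≤ pr (L.XX a m n) := by
  have hlc : ∀ ω : Cfg, L.VX true 0 a 0 n ω → ∃ Γ : Set Pt, L.Con Γ ∧
      Γ ⊆ rect 0 a 0 n ∩ L.col true ω ∧
      Γ ⊆ L.Rev false (rect (-1) a 0 n) (rect (-1) (-1) 0 n) ω ∧
      (∀ v ∈ Γ, v ∉ L.Cx false (rect (-1) a 0 n) (rect (-1) (-1) 0 n) ω) ∧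
      (∃ v ∈ Γ, v.2 = 0) ∧ ∃ v ∈ Γ, v.2 = n := fun ω h => left_crossing ha hn h
  choose! Γ hΓ using hlc
  have hGc : (((zr7_finite 0 m 0 (2 * n)).toFinset : Finset Pt) : Set Pt) =
      rect 0 m 0 (2 * n) := Set.Finite.coe_toFinset _
  have key := resample (L.Rev_stop false (rect (-1) a 0 n) (rect (-1) (-1) 0 n))
    (G := (zr7_finite 0 m 0 (2 * n)).toFinset) (I := (Finset.univ : Finset Unit))
    (E := L.VX true 0 a 0 n)
    (F := fun ω => L.Arm true (L.rgt (Γ ω ∪ rfy (2 * n) '' Γ ω) m (2 * n) ∩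
      rect 0 m 0 (2 * n)) (L.nb (Γ ω)) {v | v.1 = m})
    (E' := fun _ => L.XX a m n) (p := 1 / 2 * pr (L.HX true 0 m 0 (2 * n)))
    (fun ω hω => zr_half hL ha ham hn (hΓ ω hω).1 (fun v hv => ((hΓ ω hω).2.1 hv).1)
      (hΓ ω hω).2.2.2.2.1 (hΓ ω hω).2.2.2.2.2)
    (fun ω _ => (Lat.Arm.dep L true _ _ _).mono (by rw [hGc]; exact Set.inter_subset_right))
    (fun ω η hω hF => ⟨(), Finset.mem_univ _, zr_mix hL ha ham hn (by rw [hGc])
      (hΓ ω hω).1 (hΓ ω hω).2.1 (hΓ ω hω).2.2.1 (hΓ ω hω).2.2.2.1 (hΓ ω hω).2.2.2.2.1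
      (hΓ ω hω).2.2.2.2.2 hF⟩) (fun _ => false)
  have d1 : Dep (L.VX true 0 a 0 n) (((zr7_finite 0 m 0 (2 * n)).toFinset : Finset Pt) : Set Pt) := by
    rw [hGc]
    refine (Lat.VX.dep L true 0 a 0 n).mono ?_
    rintro v ⟨⟨q1, q2⟩, q3, q4⟩
    exact ⟨⟨q1, by omega⟩, q3, by omega⟩
  have d2 : Dep (L.XX a m n) (((zr7_finite 0 m 0 (2 * n)).toFinset : Finset Pt) : Set Pt) := by
    rw [hGc]
    exact XX.dep L ham.le hn
  rw [cpr_eq_pr d1, Finset.sum_const, Finset.card_univ, Fintype.card_unit, one_smul,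
    cpr_eq_pr d2] at key
  exact key

end SC

end

/-! ### from `Lib_MP_e0a489.TQ3` -/

section

/-!
# MP_e0a489, module TQ 3: four arms in the Euclidean annulus, row drawing
-/

set_option autoImplicit false

namespace SC

open Classical

/-- an arm of colour `c` in the annulus between the boundaries of the boxes `TB H₁ J₁` and `TB H₂ J₂` -/
structure RArm (H₁ J₁ H₂ J₂ : ℤ) (c : Bool) (ω : Cfg) (γ : List Pt) : Prop where
  chain : γ.IsChain TL.Adj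
  mem : ∀ v ∈ γ, v ∈ TB H₂ J₂ ∧ v ∉ TB (H₁ - 2) (J₁ - 1)
  col : ∀ v ∈ γ, ω v = c
  start : ∃ v, γ.head? = some v ∧ v ∈ TB H₁ J₁
  fin : ∃ v, γ.getLast? = some v ∧ v ∉ TB (H₂ - 2) (J₂ - 1)

/-- four arms in alternating order -/
def RFour (H₁ J₁ H₂ J₂ : ℤ) (ω : Cfg) : Prop :=
  ∃ γ₁ γ₂ γ₃ γ₄ : List Pt, RArm H₁ J₁ H₂ J₂ true ω γ₁ ∧ RArm H₁ J₁ H₂ J₂ false ω γ₂ ∧
    RArm H₁ J₁ H₂ J₂ true ω γ₃ ∧ RArm H₁ J₁ H₂ J₂ false ω γ₄ ∧ γ₁.Disjoint γ₃ ∧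
    γ₂.Disjoint γ₄ ∧
    ∀ δ : List Pt, δ.IsChain TL.Adj → (∀ v ∈ δ, v ∈ TB H₂ J₂ ∧ v ∉ TB (H₁ - 2) (J₁ - 1)) →
      (∃ v ∈ γ₁, δ.head? = some v) → (∃ v ∈ γ₃, δ.getLast? = some v) →
        ∃ v ∈ δ, v ∈ γ₂ ∨ v ∈ γ₄

/-- the event with two open arms only -/
def RTwo (H₁ J₁ H₂ J₂ : ℤ) (ω : Cfg) : Prop :=
  TL.Two true (TB H₂ J₂ \ TB (H₁ - 2) (J₁ - 1)) (TL.nb (TB (H₁ - 2) (J₁ - 1)))
    {v | v ∈ TB H₂ J₂ ∧ ∃ u, TL.Adj v u ∧ u ∉ TB H₂ J₂} ω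

/-- One arm with its end on the side of the bounding rectangle.  `γ` = list of `Cn.path`, `ŷ` a site of the sides with `twn ŷ = y`; the set `{v | v ∈ γ} ∪ {ŷ}` is connected (`con_list`, `Con.insert`,
`twn_near`), contained in the annulus of the rectangle, of colour `c` for `ω ∘ twn`.  (`x ∈ nb (inner box)`, so `x ∈ TB H₁ J₁` by `TB_nb`; `ŷ` is not in the inner box by `side_bd` and `twn_id`.) -/
theorem arm_list {H₁ J₁ H₂ J₂ : ℤ} (hH : 2 ≤ H₁) (hJ : 1 ≤ J₁) (hH2 : H₁ ≤ H₂) (hJ2 : J₁ ≤ J₂)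
    {c : Bool} {ω : Cfg} {x y ŷ : Pt} (hx : x ∈ TL.nb (TB (H₁ - 2) (J₁ - 1)))
    (hy : ŷ ∈ sides (-((H₂ + 1) / 2)) (H₂ / 2) (-J₂) J₂) (hty : twn H₂ ŷ = y)
    (h : TL.Cn ((TB H₂ J₂ \ TB (H₁ - 2) (J₁ - 1)) ∩ TL.col c ω) x y) :
    ∃ γ : List Pt, RArm H₁ J₁ H₂ J₂ c ω γ ∧ γ.head? = some x ∧ γ.getLast? = some y ∧
      TL.Con ({v | v ∈ γ} ∪ {ŷ}) ∧
      ({v | v ∈ γ} ∪ {ŷ}) ⊆ (TR H₂ J₂ \ TB (H₁ - 2) (J₁ - 1)) ∩
        TL.col c (fun w => ω (twn H₂ w)) := by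
  obtain ⟨γ, -, h1, h2, h3, h4⟩ := h.path
  have hyb : twn H₂ ŷ ∉ TB (H₂ - 2) (J₂ - 1) := side_bd (by omega) hy
  have hyR : ŷ ∈ TR H₂ J₂ := hy.1
  have hym : y ∈ γ := List.mem_of_getLast? h2
  have hyI : ŷ ∉ TB (H₁ - 2) (J₁ - 1) := by
    intro hI
    have h5 : ŷ ∈ TB H₂ J₂ := TB_mono (by omega) (by omega) hI
    rw [twn_id h5] at hyb
    exact hyb (TB_mono (by omega) (by omega) hI)
  refine ⟨γ, ⟨h4, ?_, ?_, ?_, ?_⟩, h1, h2, ?_, ?_⟩
  · intro v hv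
    exact (h3 v hv).1
  · intro v hv
    exact (h3 v hv).2
  · obtain ⟨u, hu, hux⟩ := hx
    exact ⟨x, h1, TB_nb hu hux⟩
  · refine ⟨y, h2, ?_⟩
    rw [← hty]
    exact hyb
  · refine Lat.Con.insert (Lat.con_list h4) (u := y) hym ?_
    rcases twn_near hyR with h5 | h5
    · right
      rw [← hty, h5]
    · left
      rw [← hty]
      exact h5
  · rintro v (hv | hv)
    · have h5 := h3 v hv
      refine ⟨⟨TB_sub_TR H₂ J₂ h5.1.1, h5.1.2⟩, ?_⟩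
      change ω (twn H₂ v) = c
      rw [twn_id h5.1.1]
      exact h5.2
    · have hv' : v = ŷ := hv
      subst hv'
      refine ⟨⟨hyR, hyI⟩, ?_⟩
      change ω (twn H₂ v) = c
      rw [hty]
      exact (h3 y hym).2

/-- DUALITY IN THE EUCLIDEAN ANNULUS.  `In = TB (H₁-2) (J₁-1)` (`TB_con`), rectangle `TR H₂ J₂`, configuration `ω' = ω ∘ twn`.  `In` is not on the sides (`side_bd`, `twn_id`).
The two open arms `x₁ - y₁`, `x₃ - y₃`: `yᵢ` is a boundary site (`TB_nb` contraposed), `bd_side` gives `ŷᵢ` on the sides with `twn ŷᵢ = yᵢ`; in the rectangle `xᵢ` is joined to `ŷᵢ` (`cn_twn`, one more step `twn_near`).  They are not joined in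
the rectangle (`twn_cn`, `twn_id`).  `dual4` (`k = true`) gives closed arms `x₂ - ŷ₂`, `x₄ - ŷ₄` for `ω'` and `Alt`; `twn_cn` maps them to closed arms for `ω` (`x₂ ∈ TB` so `twn x₂ = x₂`; the end `twn ŷ₂` is not in
`TB (H₂-2) (J₂-1)`: `side_bd`).  `arm_list` for all four; `alt_sep` with `Qᵢ = {v | v ∈ γᵢ} ∪ {ŷᵢ}`.  A common site of `δ` (in `TB H₂ J₂`) and `Q₂` is in `γ₂`: if it is `ŷ₂` then `ŷ₂ = twn ŷ₂ = y₂`, the last site of `γ₂`. -/
theorem rtwo_rfour {H₁ J₁ H₂ J₂ : ℤ} (hH : 2 ≤ H₁) (hJ : 1 ≤ J₁) (h3 : 3 ≤ H₁ ∨ J₁ = 1)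
    (hH2 : H₁ ≤ H₂) (hJ2 : J₁ ≤ J₂) {ω : Cfg} (h : RTwo H₁ J₁ H₂ J₂ ω) :
    RFour H₁ J₁ H₂ J₂ ω := by
  obtain ⟨x₁, hx₁, y₁, hy₁, x₃, hx₃, y₃, hy₃, c₁, c₃, hn⟩ := h
  have hII : TB (H₁ - 2) (J₁ - 1) ⊆ TB (H₂ - 2) (J₂ - 1) := TB_mono (by omega) (by omega)
  have hIB : TB (H₁ - 2) (J₁ - 1) ⊆ TB H₂ J₂ := TB_mono (by omega) (by omega)
  have hIn : TL.Con (TB (H₁ - 2) (J₁ - 1)) := TB_con (by omega) (by omega) (by omega)
  have hne : (TB (H₁ - 2) (J₁ - 1)).Nonempty := by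
    refine ⟨(0, 0), ?_⟩
    simp only [TB, Set.mem_setOf_eq, abs_le]
    omega
  have hsub : TB (H₁ - 2) (J₁ - 1) ⊆ rect (-((H₂ + 1) / 2)) (H₂ / 2) (-J₂) J₂ :=
    fun v hv => TB_sub_TR H₂ J₂ (hIB hv)
  have hs : ∀ v ∈ TB (H₁ - 2) (J₁ - 1), v ∉ sides (-((H₂ + 1) / 2)) (H₂ / 2) (-J₂) J₂ := by
    intro v hv hv'
    have h1 : twn H₂ v ∉ TB (H₂ - 2) (J₂ - 1) := side_bd (by omega) hv'
    rw [twn_id (hIB hv)] at h1
    exact h1 (hII hv)
  have hxx : ∀ x ∈ TL.nb (TB (H₁ - 2) (J₁ - 1)), twn H₂ x = x := by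
    rintro x ⟨u, hu, hux⟩
    exact twn_id (TB_mono hH2 hJ2 (TB_nb hu hux))
  have hbd : ∀ y ∈ {v | v ∈ TB H₂ J₂ ∧ ∃ u, TL.Adj v u ∧ u ∉ TB H₂ J₂},
      ∃ w, w ∈ sides (-((H₂ + 1) / 2)) (H₂ / 2) (-J₂) J₂ ∧ twn H₂ w = y := by
    rintro y ⟨hy, u, hyu, hu⟩
    exact bd_side (by omega) hy fun h1 => hu (TB_nb h1 hyu)
  obtain ⟨z₁, hz₁, hzy₁⟩ := hbd y₁ hy₁
  obtain ⟨z₃, hz₃, hzy₃⟩ := hbd y₃ hy₃
  obtain ⟨γ₁, A₁, g₁, l₁, C₁, S₁⟩ := arm_list hH hJ hH2 hJ2 hx₁ hz₁ hzy₁ c₁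
  obtain ⟨γ₃, A₃, g₃, l₃, C₃, S₃⟩ := arm_list hH hJ hH2 hJ2 hx₃ hz₃ hzy₃ c₃
  have e₁ : x₁ ∈ γ₁ := List.mem_of_head? g₁
  have e₃ : x₃ ∈ γ₃ := List.mem_of_head? g₃
  have d₁ : TL.Cn ((TR H₂ J₂ \ TB (H₁ - 2) (J₁ - 1)) ∩ TL.col true (fun w => ω (twn H₂ w)))
      x₁ z₁ := (C₁ x₁ (Or.inl e₁) z₁ (Or.inr rfl)).mono S₁
  have d₃ : TL.Cn ((TR H₂ J₂ \ TB (H₁ - 2) (J₁ - 1)) ∩ TL.col true (fun w => ω (twn H₂ w)))
      x₃ z₃ := (C₃ x₃ (Or.inl e₃) z₃ (Or.inr rfl)).mono S₃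
  have hn' : ¬ TL.Cn ((TR H₂ J₂ \ TB (H₁ - 2) (J₁ - 1)) ∩
      TL.col true (fun w => ω (twn H₂ w))) x₁ x₃ := by
    intro h1
    have h2 := twn_cn (by omega) hII h1
    rw [hxx x₁ hx₁, hxx x₃ hx₃] at h2
    exact hn h2
  obtain ⟨x₂, z₂, x₄, z₄, hx₂, hx₄, hz₂, hz₄, c₂, c₄, halt⟩ :=
    Lat.dual4 (L := TL) (k := true) (ω := fun w => ω (twn H₂ w))
      (a := -((H₂ + 1) / 2)) (b := H₂ / 2) (c := -J₂) (d := J₂) (by omega) (by omega)
      hIn hne hsub hs hx₁ hx₃ hz₁ hz₃ d₁ d₃ hn'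
  have c₂' := twn_cn (J := J₂) (by omega) hII c₂
  have c₄' := twn_cn (J := J₂) (by omega) hII c₄
  rw [hxx x₂ hx₂] at c₂'
  rw [hxx x₄ hx₄] at c₄'
  obtain ⟨γ₂, A₂, g₂, l₂, C₂, S₂⟩ := arm_list hH hJ hH2 hJ2 hx₂ hz₂ rfl c₂'
  obtain ⟨γ₄, A₄, g₄, l₄, C₄, S₄⟩ := arm_list hH hJ hH2 hJ2 hx₄ hz₄ rfl c₄'
  have e₂ : x₂ ∈ γ₂ := List.mem_of_head? g₂
  have e₄ : x₄ ∈ γ₄ := List.mem_of_head? g₄
  obtain ⟨D₂₄, D₁₃, hsep⟩ := Lat.alt_sep (L := TL) (k := true) (ω := fun w => ω (twn H₂ w))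
    hIn hsub C₁ C₂ C₃ C₄ S₁ S₂ S₃ S₄ ⟨x₁, Or.inl e₁, hx₁⟩ ⟨x₂, Or.inl e₂, hx₂⟩
    ⟨x₃, Or.inl e₃, hx₃⟩ ⟨x₄, Or.inl e₄, hx₄⟩ (Or.inr rfl) (Or.inr rfl) (Or.inr rfl)
    (Or.inr rfl) halt
  refine ⟨γ₁, γ₂, γ₃, γ₄, A₁, A₂, A₃, A₄, ?_, ?_, ?_⟩
  · intro v hv hv'
    exact D₁₃ v (Or.inl hv) (Or.inl hv')
  · intro v hv hv'
    exact D₂₄ v (Or.inl hv) (Or.inl hv')
  · rintro δ hδ hm ⟨v, hv, hδv⟩ ⟨w, hw, hδw⟩
    obtain ⟨z, hz, hz'⟩ := hsep {v | v ∈ δ} (Lat.con_list hδ)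
      (fun v hv => ⟨TB_sub_TR H₂ J₂ (hm v hv).1, (hm v hv).2⟩)
      ⟨v, List.mem_of_head? hδv, Or.inl hv⟩ ⟨w, List.mem_of_getLast? hδw, Or.inl hw⟩
    refine ⟨z, hz, ?_⟩
    have hzz : twn H₂ z = z := twn_id (hm z hz).1
    rcases hz' with (hz' | hz') | (hz' | hz')
    · exact Or.inl hz'
    · left
      have h1 : z = z₂ := hz'
      rw [← h1, hzz] at l₂
      exact List.mem_of_getLast? l₂
    · exact Or.inr hz'
    · right
      have h1 : z = z₄ := hz'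
      rw [← h1, hzz] at l₄
      exact List.mem_of_getLast? l₄

end SC

end
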