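import Mathlib
import Pool.Agent.Lib_MP_e0a489_m.G10
import Pool.Agent.Lib_MP_e0a489_m.G13
import Pool.Agent.Lib_MP_e0a489_m.G14
import Pool.Agent.Lib_MP_e0a489_m.G17
import Pool.Agent.Lib_MP_e0a489_m.G18
import Pool.Agent.Lib_MP_e0a489_m.G20
import Pool.Agent.Lib_MP_e0a489_m.G21
import Pool.Agent.Lib_MP_e0a489_m.G22
import Pool.Agent.Lib_MP_e0a489_m.G23
import Pool.Agent.Lib_MP_e0a489_m.G24

/-!
# MP_e0a489_pr: merged library part G25

Concatenation of library files (each in its own section), only to save build time.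
-/

/-! ### from `Lib_MP_e0a489.SH10` -/

section

/-!
# MP_e0a489, shared by OS and IS, 10: choice of the parameters, resampling with a choice
-/

set_option autoImplicit false

namespace SC

open Classical

private theorem sh10_small (A t c δ : ℝ) (hc : 0 < c) (hδ : 0 < δ) (n₀ : ℤ) :
    ∃ n : ℤ, n₀ ≤ n ∧ A * (t / n) ^ c ≤ δ := by
  have h1 : Filter.Tendsto (fun n : ℕ => t / (n : ℝ)) Filter.atTop (nhds 0) :=
    tendsto_const_div_atTop_nhds_zero_nat t
  have h2 : Filter.Tendsto (fun n : ℕ => A * (t / (n : ℝ)) ^ c) Filter.atTop (nhds (A * 0 ^ c)) :=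
    (((Real.continuousAt_rpow_const 0 c (Or.inr hc.le)).tendsto).comp h1).const_mul A
  rw [Real.zero_rpow hc.ne', mul_zero] at h2
  have h3 : ∀ᶠ n : ℕ in Filter.atTop, A * (t / (n : ℝ)) ^ c < δ := h2.eventually_lt_const hδ
  obtain ⟨n, hn1, hn2⟩ := (h3.and (Filter.eventually_ge_atTop n₀.toNat)).exists
  refine ⟨(n : ℤ), by omega, ?_⟩
  have h4 : (((n : ℤ) : ℝ)) = (n : ℝ) := by push_cast; rfl
  rw [h4]
  exact hn1.le

/-- COARSE SCALE.  `bad_pr` with `ρ = 4 B w`, `ℓ = K B w`, `β = B w`, `a = 12 w`: `ρ / ℓ = 4 / K`, `m / β ≤ 2 K + 1 ≤ 3 K`,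
`a / β = 12 / B`.  So the probability is at most `C (4 / K) ^ c + 3 C K (12 / B) ^ c`: choose first `K`, then `B`
(`Real.rpow` tends to zero: e.g. `tendsto_rpow_neg_atTop`). -/
theorem bad_small1 (κ : ℕ → ℝ) (ε : ℝ) (hε : 0 < ε) : ∃ K B : ℤ, 4 ≤ K ∧ 48 ≤ B ∧
    ∀ L : Lat, RSW L κ → ∀ (o : Bool) (D : Set Pt) (m w : ℤ), D.Finite → 1 ≤ w → B * w ≤ m →
      m ≤ (2 * K * B + 1) * w →
      pr (L.BadW o D m (4 * B * w) (K * B * w) (B * w) (12 * w)) ≤ ε := by
  obtain ⟨C, c, hC, hc, -, H⟩ := bad_pr κ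
  obtain ⟨K, hK, hK'⟩ := sh10_small C 4 c (ε / 2) hc (by positivity) 4
  obtain ⟨B, hB, hB'⟩ := sh10_small (C * (2 * K + 1)) 12 c (ε / 2) hc (by positivity) 48
  refine ⟨K, B, hK, hB, fun L hL o D m w hD hw h1 h2 => ?_⟩
  have hBw : 48 * 1 ≤ B * w := mul_le_mul hB hw (by norm_num) (by omega)
  have hw' : (0 : ℝ) < w := by exact_mod_cast (by omega : 0 < w)
  have hBp : (0 : ℝ) < B := by exact_mod_cast (by omega : 0 < B)
  have hKp : (0 : ℝ) < K := by exact_mod_cast (by omega : 0 < K)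
  refine (H L hL o D m (4 * B * w) (K * B * w) (B * w) (12 * w) hD (by nlinarith) ?_ (by omega)
    ?_ h1).trans ?_
  · have : 4 * (B * w) ≤ K * (B * w) := mul_le_mul_of_nonneg_right hK (by omega)
    calc 4 * B * w = 4 * (B * w) := by ring
      _ ≤ K * (B * w) := this
      _ = K * B * w := by ring
  · exact mul_le_mul_of_nonneg_right (by omega) (by omega)
  · have e1 : (((4 * B * w : ℤ) : ℝ) / ((K * B * w : ℤ) : ℝ)) = 4 / K := by
      push_cast
      field_simp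
    have e2 : (((12 * w : ℤ) : ℝ) / ((B * w : ℤ) : ℝ)) = 12 / B := by
      push_cast
      field_simp
    have e3 : ((m : ℝ) / ((B * w : ℤ) : ℝ)) ≤ 2 * K + 1 := by
      have h3 : (m : ℝ) ≤ (2 * K * B + 1) * w := by exact_mod_cast h2
      have h4 : (1 : ℝ) ≤ B := by exact_mod_cast (by omega : 1 ≤ B)
      push_cast
      rw [div_le_iff₀ (by positivity)]
      nlinarith [mul_le_mul_of_nonneg_right h4 hw'.le]
    rw [e1, e2]
    have e4 : (0 : ℝ) ≤ (12 / (B : ℝ)) ^ c := by positivity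
    have e5 : C * ((m : ℝ) / ((B * w : ℤ) : ℝ)) * (12 / (B : ℝ)) ^ c ≤
        C * (2 * K + 1) * (12 / (B : ℝ)) ^ c :=
      mul_le_mul_of_nonneg_right (mul_le_mul_of_nonneg_left e3 hC.le) e4
    linarith

/-- FINE SCALE (no corner events: `D = ∅`).  `bad_pr` with `ρ = 1`, `ℓ`, `β = B w`, `a = 12 w`: the probability is at most
`C (1 / ℓ) ^ c + 5 C (N + 1) (12 / B) ^ c` (`m / β ≤ (N + 1) (4 B + 1) / B ≤ 5 (N + 1)`): choose `ℓ` and `B` large. -/
theorem bad_small2 (κ : ℕ → ℝ) (ε : ℝ) (hε : 0 < ε) (N : ℤ) (hN : 1 ≤ N) : ∃ ℓ B : ℤ, 1 ≤ ℓ ∧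
    48 ≤ B ∧ ∀ L : Lat, RSW L κ → ∀ (o : Bool) (m w : ℤ), 1 ≤ w → B * w ≤ m →
      m ≤ (N + 1) * (4 * B + 1) * w →
      pr (L.BadW o ∅ m 1 ℓ (B * w) (12 * w)) ≤ ε := by
  obtain ⟨C, c, hC, hc, -, H⟩ := bad_pr κ
  obtain ⟨K, hK, hK'⟩ := sh10_small C 1 c (ε / 2) hc (by positivity) 1
  obtain ⟨B, hB, hB'⟩ := sh10_small (C * (5 * (N + 1))) 12 c (ε / 2) hc (by positivity) 48
  refine ⟨K, B, hK, hB, fun L hL o m w hw h1 h2 => ?_⟩
  have hBw : 48 * 1 ≤ B * w := mul_le_mul hB hw (by norm_num) (by omega)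
  have hw' : (0 : ℝ) < w := by exact_mod_cast (by omega : 0 < w)
  have hBp : (0 : ℝ) < B := by exact_mod_cast (by omega : 0 < B)
  have hNp : (0 : ℝ) < N := by exact_mod_cast (by omega : 0 < N)
  refine (H L hL o ∅ m 1 K (B * w) (12 * w) Set.finite_empty le_rfl hK (by omega) ?_ h1).trans ?_
  · exact mul_le_mul_of_nonneg_right (by omega) (by omega)
  · have e1 : (((1 : ℤ) : ℝ) / (K : ℝ)) = 1 / K := by
      push_cast
      rfl
    have e2 : (((12 * w : ℤ) : ℝ) / ((B * w : ℤ) : ℝ)) = 12 / B := by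
      push_cast
      field_simp
    have e3 : ((m : ℝ) / ((B * w : ℤ) : ℝ)) ≤ 5 * (N + 1) := by
      have h3 : (m : ℝ) ≤ (N + 1) * (4 * B + 1) * w := by exact_mod_cast h2
      have h4 : (1 : ℝ) ≤ B := by exact_mod_cast (by omega : 1 ≤ B)
      push_cast
      rw [div_le_iff₀ (by positivity)]
      have h5 : ((N : ℝ) + 1) * (4 * B + 1) * w ≤ (N + 1) * (5 * B) * w := by
        refine mul_le_mul_of_nonneg_right (mul_le_mul_of_nonneg_left ?_ (by positivity)) hw'.le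
        linarith
      calc (m : ℝ) ≤ (N + 1) * (4 * B + 1) * w := h3
        _ ≤ (N + 1) * (5 * B) * w := h5
        _ = 5 * (N + 1) * (B * w) := by ring
    rw [e1, e2]
    have e4 : (0 : ℝ) ≤ (12 / (B : ℝ)) ^ c := by positivity
    have e5 : C * ((m : ℝ) / ((B * w : ℤ) : ℝ)) * (12 / (B : ℝ)) ^ c ≤
        C * (5 * (N + 1)) * (12 / (B : ℝ)) ^ c :=
      mul_le_mul_of_nonneg_right (mul_le_mul_of_nonneg_left e3 hC.le) e4
    linarith

/-- RESAMPLING WITH A CHOICE.  `resample` with `F ω = F (t ω)`, where `t ω` is chosen for `ω ∈ E`. -/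
theorem resample_ex {R : Cfg → Set Pt} (hR : Stop R) {G : Finset Pt} {ι τ : Type} {I : Finset ι}
    {E : Cfg → Prop} {F : τ → Cfg → Prop} {P : τ → Prop} {E' : ι → Cfg → Prop} {p : ℝ}
    (hp : ∀ t, P t → p ≤ pr (F t)) (hF : ∀ t, P t → Dep (F t) (G : Set Pt))
    (h : ∀ ω, E ω → ∃ t, P t ∧ ∀ η, F t η → ∃ i ∈ I, E' i (mix G R ω η)) (ω : Cfg) :
    p * cpr G E ω ≤ ∑ i ∈ I, cpr G (E' i) ω := by
  by_cases hne : ∃ ω, E ω
  · obtain ⟨ω₀, hω₀⟩ := hne
    obtain ⟨t₀, -⟩ := h ω₀ hω₀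
    haveI : Nonempty τ := ⟨t₀⟩
    choose! t ht1 ht2 using h
    exact resample hR (F := fun ω => F (t ω)) (fun ω hE => hp _ (ht1 ω hE))
      (fun ω hE => hF _ (ht1 ω hE)) (fun ω η hE hη => ht2 ω hE η hη) ω
  · push_neg at hne
    exact resample hR (F := fun _ _ => False) (fun ω hE => absurd hE (hne ω))
      (fun ω hE => absurd hE (hne ω)) (fun ω η hE _ => absurd hE (hne ω)) ω

end SC

end

/-! ### from `Lib_MP_e0a489.OS11` -/

section

/-!
# MP_e0a489, outer separation 11: second step, landing of the closed arms, the open arms survive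
-/

set_option autoImplicit false

namespace SC

open Classical

namespace Lat

variable {L : Lat}

/-- THE OPEN ARMS SURVIVE.  The arm is contained in `D₂`, its last site is in the block, so in `S₂ ⊆ C₂`: `cn_mix_Cx`. -/
theorem Oarm.stay {r R w M s₁ k₁ s₃ k₃ s k : ℤ} {ω η : Cfg} (G : Finset Pt) (h : OPar r R w M)
    (hsk : (s = s₁ ∧ k = k₁) ∨ (s = s₃ ∧ k = k₃)) (hA : L.Oarm true r R w M s k ω) :
    L.Oarm true r R w M s k
      (mix G (L.Rev true (OD2 R w M s₁ k₁ s₃ k₃) (OS2 r w M s₁ k₁ s₃ k₃)) ω η) := by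
  obtain ⟨x, hx, y, hy, hxy⟩ := hA
  have hobD : ob w M s k ⊆ ob w M s₁ k₁ ∪ ob w M s₃ k₃ := by
    rcases hsk with ⟨rfl, rfl⟩ | ⟨rfl, rfl⟩
    · exact Set.subset_union_left
    · exact Set.subset_union_right
  have hA : ann r R ∪ ob w M s k ⊆ OD2 R w M s₁ k₁ s₃ k₃ := by
    rintro v (hv | hv)
    · exact Or.inl hv.2
    · exact Or.inr (hobD hv)
  have hyC : y ∈ L.Cx true (OD2 R w M s₁ k₁ s₃ k₃) (OS2 r w M s₁ k₁ s₃ k₃) ω :=
    Cx_sup (Or.inr (hobD hy.1))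
  exact ⟨x, hx, y, hy, (cn_mix_Cx hA hxy hyC).1⟩

/-- THE CLOSED ARMS LAND.  `os_land_arm` with `c = false`, `D = D₂`, `S = S₂` (`!false = true`).  `C₂` connected: `os_C2_con`; exactness:
`os_exact_D2_ob` with `os_pos_apart`, `os_fine_apart`; `hDN`: a neighbour in `D₂` of the fine block is in `bx R` because the coarse
blocks are apart from it, and the fine block does not meet `D₂` (`ob_nrm`, `os_fine_apart`); the site of norm `≥ R` is any site of a
coarse block; `V ⊆ D₂ \ C₂ ⊆ D₂ \ S₂ = ann r R`. -/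
theorem os_closed_land {r R w M μ Mc s₁ k₁ s₃ k₃ s k y : ℤ} {ω η : Cfg} {G : Finset Pt} {x : Pt}
    {V : Set Pt} (h : OPar r R w M) (h' : OPar r R (μ * w) Mc) (hμ : 10 ≤ μ)
    (hP : OPos R (μ * w) Mc s₁ k₁ s₃ k₃) (hE : L.E1o r R (μ * w) Mc s₁ k₁ s₃ k₃ ω)
    (hy : |y| + 100 * (μ * w) ≤ R)
    (hF₁ : OFar R (μ * w) s₁ k₁ (2 * R * s + y)) (hF₃ : OFar R (μ * w) s₃ k₃ (2 * R * s + y))
    (hV : L.Comp (OD2 R (μ * w) Mc s₁ k₁ s₃ k₃ \
        L.Cx true (OD2 R (μ * w) Mc s₁ k₁ s₃ k₃) (OS2 r (μ * w) Mc s₁ k₁ s₃ k₃) ω) V)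
    (hx : x ∈ V) (hx' : x ∈ L.nb (bx r)) (htr : trip w R s k ⊆ V) (hky : |k * w - y| ≤ 6 * w)
    (hk : |k| + 2 ≤ M) (hG : ∀ v, R - w < nrm v → nrm v ≤ R + w → v ∈ G)
    (h1 : L.Circ false (R - w) R η) (h2 : L.Cor false w M s k η) :
    L.Oarm false r R w M s k
      (mix G (L.Rev true (OD2 R (μ * w) Mc s₁ k₁ s₃ k₃) (OS2 r (μ * w) Mc s₁ k₁ s₃ k₃)) ω η) := by
  have hw0 := h'.w0
  have hk₁ : |k₁| + 2 ≤ Mc := by have := hP.a₁; omega
  have hk₃ : |k₃| + 2 ≤ Mc := by have := hP.a₃; omega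
  have ha := os_pos_apart (L := L) h' hP
  have ha₁ := os_fine_apart (L := L) h h' hμ hP.a₁ hk hy hF₁ hky
  have ha₃ := os_fine_apart (L := L) h h' hμ hP.a₃ hk hy hF₃ hky
  have hC := os_C2_con h' hE.1 hE.2.1
  obtain ⟨z, -, u, hu, -⟩ := hE.1
  have huR : nrm u = R + μ * w := hu.2
  refine os_land_arm (c := false) (D := OD2 R (μ * w) Mc s₁ k₁ s₃ k₃)
    (S := OS2 r (μ * w) Mc s₁ k₁ s₃ k₃) (V := V) h hk Set.subset_union_left
    Set.subset_union_left (os_S2_sub h') ?_ hC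
    (os_exact_D2_ob h' h hk₁ hk₃ hk ha ha₁ ha₃ _)
    ⟨u, Cx_sup (Or.inr (Or.inl hu.1)), by omega⟩ hV htr ?_ hx hx' hG h1 h2
  · intro v hv
    have hvn := (ob_nrm h.od h.w0 h.eR (by omega) hv).1
    refine ⟨?_, ?_⟩
    · rintro (hv' | hv' | hv')
      · exact absurd (show nrm v ≤ R from hv') (not_le.2 hvn)
      · exact (ha₁ v hv' v hv).1 rfl
      · exact (ha₃ v hv' v hv).1 rfl
    · rintro u' (hu' | hu' | hu') hadj
      · exact hu'
      · exact absurd hadj (ha₁ u' hu' v hv).2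
      · exact absurd hadj (ha₃ u' hu' v hv).2
  · rw [← os_D2_diff (s₁ := s₁) (s₃ := s₃) h' hk₁ hk₃]
    intro v hv
    have h3 := hV.sub hv
    exact ⟨h3.1, fun h4 => h3.2 (Cx_sup h4)⟩

end Lat

end SC

end

/-! ### from `Lib_MP_e0a489.OS13` -/

section

/-!
# MP_e0a489, outer separation 13: step 2, deterministic part
-/

set_option autoImplicit false

namespace SC

open Classical

namespace Lat

variable {L : Lat}

/-- STEP 2.  On `E1o`, off the fine bad event, there are two fine positions such that for every good fresh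
configuration one of the events `E2o` holds in the mixed configuration.
Proof.  The two `OMid` events give `s₂, y₂`, `s₄, y₄` and closed paths; `os_fari_mid` (both indices are outside both triples);
`os_fine_cell` gives `V₂, k₂` and `V₄, k₄`; `t = ((s₂, k₂), (s₄, k₄))`.  For `η`: `os_closed_land` twice, `Oarm.stay` twice, `E2o_of`; the order from
`os_ord_up` (`s₁ - s₂`, `s₃ - s₄`) and `os_ord_dn` (`s₂ - s₃`; for `s₄ - s₁` use `osi R w s₁ k₁ + 8 R = osi R w (s₁ + 4) k₁`). -/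
theorem os_step2_det {r R w μ Mc B s₁ k₁ s₃ k₃ ℓ : ℤ} {ω : Cfg}
    (h : OPar r R w (μ * Mc + μ / 2)) (h' : OPar r R (μ * w) Mc) (hμ : μ = 4 * B + 1)
    (hB : 48 ≤ B) (hP : OPos R (μ * w) Mc s₁ k₁ s₃ k₃)
    (hE : L.E1o r R (μ * w) Mc s₁ k₁ s₃ k₃ ω)
    (hbad : ¬ L.BadW false ∅ R 1 ℓ (B * w) (12 * w) ω) :
    ∃ t : (ℤ × ℤ) × (ℤ × ℤ), (|t.1.2| + 2 ≤ μ * Mc + μ / 2 ∧ |t.2.2| + 2 ≤ μ * Mc + μ / 2) ∧
      ∀ G : Finset Pt, (∀ v, R - w < nrm v → nrm v ≤ R + w → v ∈ G) → ∀ η,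
        L.Fre false (R - w) R w (μ * Mc + μ / 2) t.1.1 t.1.2 t.2.1 t.2.2 η →
          ∃ q ∈ LamO μ Mc, L.E2o r w μ Mc q.1 q.2.1 q.2.2 (mix G (L.Rev true
            (OD2 R (μ * w) Mc s₁ k₁ s₃ k₃) (OS2 r (μ * w) Mc s₁ k₁ s₃ k₃)) ω η) := by
  obtain ⟨hA₁, hA₃, ⟨s₂, y₂, hy₂, ha₂, hb₂, x₂, hx₂, z₂, hz₂, hp₂⟩,
    ⟨s₄, y₄, hy₄, ha₄, hb₄, x₄, hx₄, z₄, hz₄, hp₄⟩⟩ := id hE
  rw [Set.mem_singleton_iff] at hz₂ hz₄
  subst hz₂ hz₄
  have hw0 := h'.w0
  have hRw := h'.Rw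
  have hR0 : 0 < R := by omega
  have hμ100 : 100 ≤ μ := by omega
  obtain ⟨hF₂₁, hF₂₃⟩ := os_fari_mid hw0 hR0 hP (Or.inl ⟨ha₂, hb₂⟩)
  obtain ⟨hF₄₁, hF₄₃⟩ := os_fari_mid hw0 hR0 hP (Or.inr ⟨ha₄, hb₄⟩)
  obtain ⟨V₂, k₂, hV₂, hxV₂, htr₂, n₂, hky₂, hk₂⟩ :=
    os_fine_cell h h' hμ hB hP hy₂ hF₂₁ hF₂₃ hx₂ (Cn.symm hp₂) hbad
  obtain ⟨V₄, k₄, hV₄, hxV₄, htr₄, n₄, hky₄, hk₄⟩ :=
    os_fine_cell h h' hμ hB hP hy₄ hF₄₁ hF₄₃ hx₄ (Cn.symm hp₄) hbad
  have hk₂' : |k₂| + 2 ≤ μ * Mc + μ / 2 := by omega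
  have hk₄' : |k₄| + 2 ≤ μ * Mc + μ / 2 := by omega
  refine ⟨((s₂, k₂), (s₄, k₄)), ⟨hk₂', hk₄'⟩, ?_⟩
  intro G hG η hη
  obtain ⟨hc, hcor₂, hcor₄⟩ := hη
  have a₂ := os_closed_land (G := G) (η := η) h h' (by omega) hP hE hy₂ hF₂₁ hF₂₃ hV₂ hxV₂ hx₂
    htr₂ hky₂ hk₂' hG hc hcor₂
  have a₄ := os_closed_land (G := G) (η := η) h h' (by omega) hP hE hy₄ hF₄₁ hF₄₃ hV₄ hxV₄ hx₄
    htr₄ hky₄ hk₄' hG hc hcor₄
  have a₁ := Oarm.stay (η := η) G h' (s₁ := s₁) (k₁ := k₁) (s₃ := s₃) (k₃ := k₃)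
    (Or.inl ⟨rfl, rfl⟩) hA₁
  have a₃ := Oarm.stay (η := η) G h' (s₁ := s₁) (k₁ := k₁) (s₃ := s₃) (k₃ := k₃)
    (Or.inr ⟨rfl, rfl⟩) hA₃
  have hb₄' : 2 * R * s₄ + y₄ < osi R (μ * w) (s₁ + 4) k₁ := by
    have e : osi R (μ * w) (s₁ + 4) k₁ = osi R (μ * w) s₁ k₁ + 8 * R := by
      unfold osi
      ring
    rw [e]
    exact hb₄
  exact E2o_of hμ100 h.eR hP.a₁ hP.a₃ hk₂ hk₄ hP.n₁ n₂ hP.n₃ n₄
    (os_ord_up h h' hμ100 hP.a₁ hy₂ hky₂ ha₂)
    (os_ord_dn h h' hμ100 hP.a₃ hy₂ hky₂ hb₂)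
    (os_ord_up h h' hμ100 hP.a₃ hy₄ hky₄ ha₄)
    (os_ord_dn h h' hμ100 hP.a₁ hy₄ hky₄ hb₄') a₁ a₂ a₃ a₄

end Lat

end SC

end

/-! ### from `Lib_MP_e0a489.OS8` -/

section

/-!
# MP_e0a489, outer separation 8: `E1o` implies the four arm event
-/

set_option autoImplicit false

namespace SC

open Classical

namespace Lat

variable {L : Lat}

private theorem os8_nb_nrm {r : ℤ} {x : Pt} (hx : x ∈ L.nb (bx r)) : nrm x ≤ r + 1 := by
  obtain ⟨u, hu, hux⟩ := hx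
  have hu' : max |u.1| |u.2| ≤ r := hu
  have h1 := hux.near
  have a1 := le_trans (le_max_left _ _) hu'
  have a2 := le_trans (le_max_right _ _) hu'
  show max |x.1| |x.2| ≤ r + 1
  rw [abs_le] at a1 a2
  obtain ⟨h2, h3⟩ := h1
  rw [abs_le] at h2 h3
  refine max_le (abs_le.2 ⟨by linarith, by linarith⟩) (abs_le.2 ⟨by linarith, by linarith⟩)

/-- The part of an open arm to an outer block inside `bx R`: it contains a site of the triple.
Proof.  The arm goes from `x` (norm `≤ r + 1 ≤ R`) to a site of norm `R + w`; first exit from `bx R` (`Cn.exit`): the exit site is in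
`ob w M s k`, the last site `p` in `bx R` is next to it, so `p ∈ trip w R s k` (`ob_adj`). -/
theorem Oarm.inner {r R w M s k : ℤ} {ω : Cfg} (h : OPar r R w M) (hk : |k| + 2 ≤ M)
    (hA : L.Oarm true r R w M s k ω) :
    ∃ x ∈ L.nb (bx r), ∃ i, osi R w s k ≤ i ∧ i ≤ oei R w s k ∧
      L.Cn (ann r R ∩ L.col true ω) x (rc R i) := by
  obtain ⟨x, hx, y, ⟨-, hyR⟩, hxy⟩ := hA
  have hxr := os8_nb_nrm hx
  have h8 := h.r8
  have h1 := h.r1
  have hw0 := h.w0
  have hxR : x ∈ bx R := by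
    show nrm x ≤ R
    linarith
  have hyR' : y ∉ bx R := by
    intro hy
    have h2 : nrm y ≤ R := hy
    have h3 : nrm y = R + w := hyR
    linarith
  obtain ⟨p, q, hxp, hpq, hqA, hqR⟩ := hxy.exit hxR hyR'
  have hq : q ∈ ob w M s k := by
    rcases hqA.1 with hq | hq
    · exact absurd hq.2 hqR
    · exact hq
  have hpR : p ∈ bx (M * w + w / 2) := by
    rw [← h.eR]
    exact hxp.right.2
  have hp := ob_adj h.od hw0 (by have := h.M2; linarith) (by linarith) hq hpR hpq.symm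
  rw [← h.eR, os_trip_eq] at hp
  obtain ⟨i, hi1, hi2, hi3⟩ := hp
  refine ⟨x, hx, i, hi1, hi2, ?_⟩
  rw [hi3]
  refine hxp.mono ?_
  rintro v ⟨⟨hv | hv, hvc⟩, hvR⟩
  · exact ⟨hv, hvc⟩
  · have h2 := (ob_nrm h.od hw0 h.eR (by linarith) hv).1
    have h3 : nrm v ≤ R := hvR
    exact absurd h3 (by linarith)

/-- `E1o` IMPLIES FOUR ARMS in every smaller annulus.
Proof.  `Oarm.inner` gives `x₁`, `j₁`, `x₃`, `j₃`.  `Cn.to_rng` cuts the arms at the ring `R'`: `y₁`, `y₃` with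
`Cn (ann r R' ∩ col true ω) x_i y_i`.  If `x₁`, `x₃` were joined in `ann r R' ∩ col true ω`, then `P = {v | Cn (ann r R ∩ col true ω) x₁ v}` is connected,
contained in `bx R`, contains `rc R j₁` and `rc R j₃`.  `P' = bx r ∪` closed path to `rc R i₂` `∪` closed path to `rc R i₄` (clusters in
`ann r R ∩ col false ω`) is connected and contained in `bx R`.  `j₁ < i₂ < j₃ < i₄ < j₁ + 8 R`, so by `interlace_rc` `P` and `P'` meet: a
common site is open and in `ann r R`, so it is not in `bx r` and not closed, contradiction. -/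
theorem E1o.two {r R w M s₁ k₁ s₃ k₃ R' : ℤ} {ω : Cfg} (h : OPar r R w M)
    (hP : OPos R w M s₁ k₁ s₃ k₃) (hE : L.E1o r R w M s₁ k₁ s₃ k₃ ω) (hR' : r < R')
    (hR'R : R' ≤ R) : L.TwoA true r R' ω := by
  obtain ⟨hA₁, hA₃, ⟨s₂, y₂, -, h2a, h2b, z₂, hz₂, v₂, hv₂, hc₂⟩,
    ⟨s₄, y₄, -, h4a, h4b, z₄, hz₄, v₄, hv₄, hc₄⟩⟩ := hE
  rw [Set.mem_singleton_iff] at hv₂ hv₄
  subst hv₂ hv₄
  obtain ⟨x₁, hx₁, j₁, a₁, b₁, c₁⟩ := Oarm.inner h (by have := hP.a₁; linarith) hA₁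
  obtain ⟨x₃, hx₃, j₃, a₃, b₃, c₃⟩ := Oarm.inner h (by have := hP.a₃; linarith) hA₃
  have hR1 : 1 ≤ R := by have := h.r8; have := h.r1; linarith
  have n₁ : nrm (rc R j₁) = R := rc_nrm hR1
  have n₃ : nrm (rc R j₃) = R := rc_nrm hR1
  have m₁ := os8_nb_nrm hx₁
  have m₃ := os8_nb_nrm hx₃
  obtain ⟨y₁, hy₁, d₁⟩ := c₁.to_rng (m := R') (by linarith) (by linarith)
  obtain ⟨y₃, hy₃, d₃⟩ := c₃.to_rng (m := R') (by linarith) (by linarith)
  have hsub : (ann r R ∩ L.col true ω) ∩ bx R' ⊆ ann r R' ∩ L.col true ω := by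
    rintro v ⟨⟨⟨hv1, -⟩, hvc⟩, hv2⟩
    exact ⟨⟨hv1, hv2⟩, hvc⟩
  refine ⟨x₁, hx₁, y₁, hy₁, x₃, hx₃, y₃, hy₃, d₁.mono hsub, d₃.mono hsub, ?_⟩
  intro hc
  have hc' : L.Cn (ann r R ∩ L.col true ω) x₁ x₃ := by
    refine hc.mono ?_
    rintro v ⟨⟨hv1, hv2⟩, hvc⟩
    exact ⟨⟨hv1, by linarith⟩, hvc⟩
  -- the open cluster
  have hPcon := con_cluster (L := L) (ann r R ∩ L.col true ω) x₁
  -- the closed set
  obtain ⟨u₂, hu₂, hu₂z⟩ := hz₂
  obtain ⟨u₄, hu₄, hu₄z⟩ := hz₄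
  have hQ2 := Con.union_adj (con_bx (L := L) r)
    (con_cluster (L := L) (ann r R ∩ L.col false ω) z₂) hu₂ (Cn.refl hc₂.left) hu₂z
  have hQ4 := Con.union_adj hQ2 (con_cluster (L := L) (ann r R ∩ L.col false ω) z₄)
    (Or.inl hu₄) (Cn.refl hc₄.left) hu₄z
  have hrR : r ≤ R := by linarith
  obtain ⟨v, hvP, hvQ⟩ := interlace_rc (L := L) hR1 hPcon hQ4
    (fun v hv => (Cn.right hv).1.2)
    (by
      rintro v ((hv | hv) | hv)
      · exact le_trans hv hrR
      · exact (Cn.right hv).1.2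
      · exact (Cn.right hv).1.2)
    (i1 := j₁) (i2 := 2 * R * s₂ + y₂) (i3 := j₃) (i4 := 2 * R * s₄ + y₄)
    (by linarith) (by linarith) (by linarith) (by linarith) c₁ (hc'.trans c₃)
    (Or.inl (Or.inr hc₂)) (Or.inr hc₄)
  have hv := Cn.right hvP
  have hno : ∀ u : Pt, L.Cn (ann r R ∩ L.col false ω) u v → False := by
    intro u hu
    have h1 : L.st ω v = false := (Cn.right hu).2
    have h2 : L.st ω v = true := hv.2
    rw [h1] at h2
    exact absurd h2 (by decide)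
  rcases hvQ with (hvQ | hvQ) | hvQ
  · have h1 : nrm v ≤ r := hvQ
    have h2 : r < nrm v := hv.1.1
    linarith
  · exact hno _ hvQ
  · exact hno _ hvQ

end Lat

end SC

end

/-! ### from `Lib_MP_e0a489.RO12` -/

section

/-!
# MP_e0a489, RO 12: the cells of the outward paths
-/

set_option autoImplicit false

namespace SC

open Classical

/-- Cells of the first three pieces and of the last piece, general form.  `z` is the cell of a site of the piece, `m = nrm z`.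
The four cases are: (1) `z = rt s (m, k)` with `f - h ≤ k ≤ f + h` at a level `t ≤ 0`; (2) `z = rt s (m, f)` at a level `t ≤ ρ`;
(3) `z = rt u (m, k)` on the side `u` of the arc at the level `t = ρ`; (4) `z = rt d (m, 0)` at a level `t ≥ ρ`.  Index `2 m u + k`
(`cel_idx`).  (1), (2), (4): unfold `lof`, `hif` (`1 ≤ ρ`, `0 ≤ h`).  (3): `lof = min x y`, `hif = max x y` with `x = 2 m s + f`,
`y = 2 m d`; right mover: `ls = s`, `lk = f`, `us = d`, `uk = 0`, and `x ≤ 2 m u + k ≤ y` for `s ≤ u ≤ d`, `sgl ≤ k ≤ sgu`: if `u = s` then `k ≥ f`,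
if `u > s` then `2 m u + k ≥ 2 m s + 2 m - m ≥ x`; the upper end is similar; left mover: the roles are exchanged. -/
theorem arc_idx {s f d m u k x : ℤ} (hm : 1 ≤ m) (hf : |f| ≤ m)
    (h1 : (if rmv s f d then s else d) ≤ u) (h2 : u ≤ if rmv s f d then d else s)
    (h3 : sgl m (if rmv s f d then s else d) (if rmv s f d then f else 0) u ≤ k)
    (h4 : k ≤ sgu m (if rmv s f d then d else s) (if rmv s f d then 0 else f) u)
    (hx : x = 2 * m * u + k) :
    min (2 * m * s + f) (2 * m * d) ≤ x ∧ x ≤ max (2 * m * s + f) (2 * m * d) := by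
  have hf1 : -m ≤ f := (abs_le.1 hf).1
  have hf2 : f ≤ m := (abs_le.1 hf).2
  subst hx
  unfold sgl at h3
  unfold sgu at h4
  by_cases hr : rmv s f d
  · rw [if_pos hr] at h1 h2
    rw [if_pos hr, if_pos hr] at h3 h4
    constructor
    · refine (min_le_left _ _).trans ?_
      by_cases hu : u = s
      · rw [if_pos hu] at h3
        subst hu
        linarith
      · rw [if_neg hu] at h3
        have h5 : s + 1 ≤ u := by omega
        nlinarith [mul_nonneg (sub_nonneg.2 h5) (sub_nonneg.2 hm)]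
    · refine le_trans ?_ (le_max_right _ _)
      by_cases hu : u = d
      · rw [if_pos hu] at h4
        subst hu
        linarith
      · rw [if_neg hu] at h4
        have h5 : u + 1 ≤ d := by omega
        nlinarith [mul_nonneg (sub_nonneg.2 h5) (sub_nonneg.2 hm)]
  · rw [if_neg hr] at h1 h2
    rw [if_neg hr, if_neg hr] at h3 h4
    constructor
    · refine (min_le_right _ _).trans ?_
      by_cases hu : u = d
      · rw [if_pos hu] at h3
        subst hu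
        linarith
      · rw [if_neg hu] at h3
        have h5 : d + 1 ≤ u := by omega
        nlinarith [mul_nonneg (sub_nonneg.2 h5) (sub_nonneg.2 hm)]
    · refine le_trans ?_ (le_max_left _ _)
      by_cases hu : u = s
      · rw [if_pos hu] at h4
        subst hu
        linarith
      · rw [if_neg hu] at h4
        have h5 : u + 1 ≤ s := by omega
        nlinarith [mul_nonneg (sub_nonneg.2 h5) (sub_nonneg.2 hm)]

/-- CELLS OF THE OUTWARD PATHS.  The level of the ring `m` is `m - M - μ`.  Every piece of `(outP ..).reg w` is a rotated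
rectangle `rt u '' rect (a w - w/2) (b w + w/2) (p w - w/2) (q w + w/2)` or contained in one (final strip: `b = 2 R'`, as
`2 R' ≤ 2 R' w + w/2`; `-(w/2) = 0 w - w/2`), so the cell of `v` is in `rt u '' rect a b p q` (`cel_rot`) and `cel_idx` gives its ring and index.
Landing block: rings `M + 1, ..., M + 2h + 1 ≤ M + μ`, levels `≤ 0`; strip: rings `M + 1, ..., M + μ + ρ`, levels `≤ ρ`; arc: ring
`M + μ + ρ`, `arc_idx`; final strip: rings `≥ M + μ + ρ`.  The hypotheses `-a ≤ p`, `q ≤ a` of `cel_idx` follow from `Land.cor`. -/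
theorem out_cells {w μ M R' : ℤ} (hw : w % 2 = 1) (hw0 : 0 < w) (hμ : μ % 2 = 1) (hμ0 : 0 < μ)
    {c₀ : Bool} {s k : Fin 4 → ℤ} (hl : Land μ M c₀ s k) (hR' : 0 ≤ R') (i : Fin 4) {v : Pt}
    (hv : v ∈ (outP w μ M R' c₀ s k i).reg w) :
    M + 1 ≤ nrm (cel w v) ∧
      ∃ x, loi μ c₀ s k i (nrm (cel w v)) (nrm (cel w v) - M - μ) ≤ x ∧
        x ≤ hii μ c₀ s k i (nrm (cel w v)) (nrm (cel w v) - M - μ) ∧
        rc (nrm (cel w v)) x = cel w v := by
  have hcor := hl.cor i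
  obtain ⟨hh0, hh1⟩ := hwd_bd hμ hμ0 c₀ i
  obtain ⟨hr1, hr8⟩ := rki_bd μ c₀ s k i
  unfold loi hii
  obtain ⟨f, hf⟩ : ∃ f, f = fpos μ c₀ k i := ⟨_, rfl⟩
  obtain ⟨h, hh⟩ : ∃ h, h = hwd μ c₀ i := ⟨_, rfl⟩
  obtain ⟨ρ, hρ⟩ : ∃ ρ, ρ = rki μ c₀ s k i := ⟨_, rfl⟩
  obtain ⟨d, hd⟩ : ∃ d, d = tgt c₀ i := ⟨_, rfl⟩
  have hreg : (outP w μ M R' c₀ s k i).reg w =
      rt (s i) '' rect ((M + 1) * w - w / 2) ((M + 2 * h + 1) * w + w / 2)
        ((f - h) * w - w / 2) ((f + h) * w + w / 2) ∪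
      rt (s i) '' rect ((M + 1) * w - w / 2) ((M + μ + ρ) * w + w / 2)
        (f * w - w / 2) (f * w + w / 2) ∪
      arcReg w (M + μ + ρ) (if rmv (s i) f d then s i else d) (if rmv (s i) f d then f else 0)
        (if rmv (s i) f d then d else s i) (if rmv (s i) f d then 0 else f) ∪
      rt d '' rect ((M + μ + ρ) * w - w / 2) (2 * R') (-(w / 2)) (w / 2) := by
    rw [hf, hh, hρ, hd]
    rfl
  rw [hreg] at hv
  rw [← hf] at hcor
  rw [← hh] at hh0 hh1
  rw [← hρ] at hr1 hr8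
  rw [← hf, ← hh, ← hρ, ← hd]
  have hf1 : -|f| ≤ f := neg_abs_le f
  have hf2 : f ≤ |f| := le_abs_self f
  clear hreg
  rcases hv with ((hv | hv) | hv) | hv
  · rw [cel_rot hw hw0] at hv
    obtain ⟨h1, h2, κ, h3, h4, h5⟩ := cel_idx (by omega) (by omega) (by omega) hv
    refine ⟨h1, 2 * nrm (cel w v) * s i + κ, ?_, ?_, h5⟩
    · unfold lof
      rw [if_pos (by omega)]
      linarith
    · unfold hif
      rw [if_pos (by omega)]
      linarith
  · rw [cel_rot hw hw0] at hv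
    obtain ⟨h1, h2, κ, h3, h4, h5⟩ := cel_idx (by omega) (by omega) (by omega) hv
    have hκ : κ = f := le_antisymm h4 h3
    subst hκ
    refine ⟨h1, 2 * nrm (cel w v) * s i + κ, ?_, ?_, h5⟩
    · unfold lof
      split_ifs with h6 h7 h8
      · linarith
      · exact le_refl _
      · exact min_le_left _ _
      · omega
    · unfold hif
      split_ifs with h6 h7 h8
      · linarith
      · exact le_refl _
      · exact le_max_left _ _
      · omega
  · obtain ⟨u, hu1, hu2, hv⟩ := hv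
    rw [cel_rot hw hw0] at hv
    have hlk : -(M + μ + ρ) ≤ sgl (M + μ + ρ) (if rmv (s i) f d then s i else d)
        (if rmv (s i) f d then f else 0) u := by
      unfold sgl
      split_ifs <;> omega
    have huk : sgu (M + μ + ρ) (if rmv (s i) f d then d else s i)
        (if rmv (s i) f d then 0 else f) u ≤ M + μ + ρ := by
      unfold sgu
      split_ifs <;> omega
    obtain ⟨h1, h2, κ, h3, h4, h5⟩ := cel_idx (by omega) hlk huk hv
    have hm : nrm (cel w v) = M + μ + ρ := le_antisymm h2 h1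
    have hidx := arc_idx (s := s i) (f := f) (d := d) (m := M + μ + ρ) (u := u) (k := κ)
      (x := 2 * (M + μ + ρ) * u + κ) (by omega) (abs_le.2 ⟨by omega, by omega⟩) hu1 hu2 h3 h4 rfl
    rw [hm] at h5 ⊢
    refine ⟨by omega, 2 * (M + μ + ρ) * u + κ, ?_, ?_, h5⟩
    · unfold lof
      rw [if_neg (by omega), if_neg (by omega), if_pos (by omega)]
      exact hidx.1
    · unfold hif
      rw [if_neg (by omega), if_neg (by omega), if_pos (by omega)]
      exact hidx.2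
  · have hv' : v ∈ rt d '' rect ((M + μ + ρ) * w - w / 2) ((2 * R') * w + w / 2)
        (0 * w - w / 2) (0 * w + w / 2) := by
      refine Set.image_mono ?_ hv
      intro z hz
      obtain ⟨⟨h1, h2⟩, h3, h4⟩ := hz
      have h5 : 2 * R' ≤ 2 * R' * w := by nlinarith
      have h6 : 0 ≤ w / 2 := by omega
      exact ⟨⟨h1, by linarith⟩, by linarith, by linarith⟩
    rw [cel_rot hw hw0] at hv'
    obtain ⟨h1, h2, κ, h3, h4, h5⟩ := cel_idx (by omega) (by omega) (by omega) hv'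
    have hκ : κ = 0 := le_antisymm h4 h3
    subst hκ
    rw [add_zero] at h5
    refine ⟨by omega, 2 * nrm (cel w v) * d, ?_, ?_, h5⟩
    · unfold lof
      rw [if_neg (by omega), if_neg (by omega)]
      split_ifs with h8
      · exact min_le_right _ _
      · exact le_refl _
    · unfold hif
      rw [if_neg (by omega), if_neg (by omega)]
      split_ifs with h8
      · exact le_max_right _ _
      · exact le_refl _

/-- `out_cells` for `i` and `j`, `idx_disj` with `t = m - M - μ` (`m ≥ M + 1`; `M ≥ 20` by `Land.cor`). -/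
theorem out_disj {w μ M R' : ℤ} (hw : w % 2 = 1) (hw0 : 0 < w) (hμ : μ % 2 = 1) (hμ0 : 0 < μ)
    {c₀ : Bool} {s k : Fin 4 → ℤ} (hl : Land μ M c₀ s k) (hR' : 0 ≤ R') {i j : Fin 4}
    (hij : i ≠ j) :
    Disjoint ((outP w μ M R' c₀ s k i).reg w) ((outP w μ M R' c₀ s k j).reg w) := by
  rw [Set.disjoint_left]
  intro v hvi hvj
  obtain ⟨h1, x, hx1, hx2, hx3⟩ := out_cells hw hw0 hμ hμ0 hl hR' i hvi
  obtain ⟨_, y, hy1, hy2, hy3⟩ := out_cells hw hw0 hμ hμ0 hl hR' j hvj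
  have hcor := hl.cor i
  have habs := abs_nonneg (fpos μ c₀ k i)
  exact idx_disj hμ hμ0 hl (by omega) (fun _ => by omega) hij hx1 hx2 hy1 hy2 (hx3.trans hy3.symm)

end SC

end

/-! ### from `Lib_MP_e0a489.RO15` -/

section

/-!
# MP_e0a489, RO 15: landing blocks in fine coordinates
-/

set_option autoImplicit false

namespace SC

open Classical

/-- `lw = (2 h + 1) w` -/
theorem lw_eq {μ : ℤ} (w : ℤ) (hμ : μ % 2 = 1) (c₀ : Bool) (i : Fin 4) :
    lw w μ (colr c₀ i) = (2 * hwd μ c₀ i + 1) * w := by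
  unfold lw hwd
  cases colr c₀ i with
  | true =>
    simp only [if_true]
    rw [show 2 * (μ / 2) + 1 = μ by omega]
  | false =>
    simp only [Bool.false_eq_true, if_false]
    ring

private theorem ro15_half {w μ : ℤ} (hw : w % 2 = 1) (hμ : μ % 2 = 1) :
    (μ * w) / 2 = (μ / 2) * w + w / 2 := by
  have h1 : μ * w = 2 * ((μ / 2) * w + w / 2) + 1 := by
    have h2 : μ = 2 * (μ / 2) + 1 := by omega
    have h3 : w = 2 * (w / 2) + 1 := by omega
    calc μ * w = (2 * (μ / 2) + 1) * w := by rw [← h2]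
      _ = 2 * ((μ / 2) * w) + w := by ring
      _ = 2 * ((μ / 2) * w) + (2 * (w / 2) + 1) := by rw [← h3]
      _ = 2 * ((μ / 2) * w + w / 2) + 1 := by ring
  omega

private theorem ro15_odd {w μ : ℤ} (hw : w % 2 = 1) (hμ : μ % 2 = 1) : (μ * w) % 2 = 1 := by
  rw [Int.mul_emod, hw, hμ]
  rfl

/-- `ob_eq` for `μ w` (odd) or `w`.  Write `μ = 2 a + 1`, `w = 2 b + 1`: `(μ w) / 2 = a w + b`, `μ / 2 = a`, `w / 2 = b`, so
`Mc (μ w) + (μ w) / 2 = (μ Mc + a) w + b = M w + w/2`, `M w + w/2 + 1 = (M + 1) w - w/2`, `k (μ w) ± (μ w)/2 = (μ k ± a) w ± b`. -/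
theorem lbo_eq {w μ Mc : ℤ} (hw : w % 2 = 1) (hw0 : 0 < w) (hμ : μ % 2 = 1) (hμ0 : 0 < μ)
    (c₀ : Bool) (s : ℤ) (k : Fin 4 → ℤ) (i : Fin 4) :
    lbo w μ Mc (colr c₀ i) s (k i) = rt s ''
      rect ((μ * Mc + μ / 2 + 1) * w - w / 2) ((μ * Mc + μ / 2 + 2 * hwd μ c₀ i + 1) * w + w / 2)
        ((fpos μ c₀ k i - hwd μ c₀ i) * w - w / 2) ((fpos μ c₀ k i + hwd μ c₀ i) * w + w / 2) := by
  have hh := ro15_half hw hμ
  have h3 : w = 2 * (w / 2) + 1 := by omega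
  have h2 : μ = 2 * (μ / 2) + 1 := by omega
  have h4 : μ * w = 2 * ((μ / 2) * w) + w := by
    calc μ * w = (2 * (μ / 2) + 1) * w := by rw [← h2]
      _ = _ := by ring
  unfold lbo fpos hwd
  cases colr c₀ i with
  | true =>
    simp only [if_true]
    rw [ob_eq (ro15_odd hw hμ) (mul_pos hμ0 hw0), hh]
    congr 2
    · linear_combination -h3
    · linear_combination h4
    · ring
    · ring
  | false =>
    simp only [Bool.false_eq_true, if_false]
    rw [ob_eq hw hw0]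
    congr 2
    · linear_combination -h3
    · ring
    · ring
    · ring

/-- `ib_eq` in the same way: `Mc (μ w) - (μ w) / 2 = (M - 2 a) w - w/2`. -/
theorem lbi_eq {w μ Mc : ℤ} (hw : w % 2 = 1) (hw0 : 0 < w) (hμ : μ % 2 = 1) (hμ0 : 0 < μ)
    (c₀ : Bool) (s : ℤ) (k : Fin 4 → ℤ) (i : Fin 4) :
    lbi w μ Mc (colr c₀ i) s (k i) = rt s ''
      rect ((μ * Mc + μ / 2 - 2 * hwd μ c₀ i) * w - w / 2) ((μ * Mc + μ / 2) * w + w / 2)
        ((fpos μ c₀ k i - hwd μ c₀ i) * w - w / 2) ((fpos μ c₀ k i + hwd μ c₀ i) * w + w / 2) := by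
  have hh := ro15_half hw hμ
  unfold lbi fpos hwd
  cases colr c₀ i with
  | true =>
    simp only [if_true]
    rw [ib_eq (ro15_odd hw hμ) (mul_pos hμ0 hw0), hh]
    congr 2
    all_goals ring
  | false =>
    simp only [Bool.false_eq_true, if_false]
    rw [ib_eq hw hw0]
    congr 2
    all_goals ring

end SC

end

/-! ### from `Lib_MP_e0a489.RO18` -/

section

/-!
# MP_e0a489, RO 18: the four targets are the four zones
-/

set_option autoImplicit false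

namespace SC

open Classical

/-- `J`, `Je`, `K`, `Ks` depend only on the direction modulo 4 (`rt_mod`) -/
theorem J_mod {s s' : ℤ} (h : s % 4 = s' % 4) (R : ℤ) : J s R = J s' R ∧ Je s R = Je s' R := by
  unfold J Je
  rw [rt_mod h]
  exact ⟨rfl, rfl⟩

theorem K_mod {s s' : ℤ} (h : s % 4 = s' % 4) (r : ℤ) : K s r = K s' r ∧ Ks s r = Ks s' r := by
  unfold K Ks
  rw [rt_mod h]
  exact ⟨rfl, rfl⟩

/-- modulo 4 the target of the arm `i` is one of the two directions of its colour (four values of `i`, two of `c₀`) -/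
theorem tgt_col (c₀ : Bool) (i : Fin 4) : tgt c₀ i % 4 = dc (colr c₀ i) % 4 ∨
    tgt c₀ i % 4 = (dc (colr c₀ i) + 2) % 4 := by
  unfold tgt colr dc
  fin_cases i <;> cases c₀ <;> simp

theorem J_tgt (c₀ : Bool) (i : Fin 4) (R : ℤ) : J (tgt c₀ i) R ⊆ Jc (colr c₀ i) R := by
  unfold Jc
  rcases tgt_col c₀ i with h | h
  · rw [(J_mod h R).1]
    exact Set.subset_union_left
  · rw [(J_mod h R).1]
    exact Set.subset_union_right

theorem K_tgt (c₀ : Bool) (i : Fin 4) (r : ℤ) : K (tgt c₀ i) r ⊆ Kc (colr c₀ i) r := by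
  unfold Kc
  rcases tgt_col c₀ i with h | h
  · rw [(K_mod h r).1]
    exact Set.subset_union_left
  · rw [(K_mod h r).1]
    exact Set.subset_union_right

private theorem ro18_pick (c₀ c : Bool) : ∃ i j : Fin 4, colr c₀ i = c ∧ colr c₀ j = c ∧
    tgt c₀ i % 4 = dc c % 4 ∧ tgt c₀ j % 4 = (dc c + 2) % 4 ∧
    ((i = 0 ∧ j = 2) ∨ (i = 2 ∧ j = 0) ∨ (i = 1 ∧ j = 3) ∨ (i = 3 ∧ j = 1)) := by
  cases c₀ <;> cases c
  · exact ⟨0, 2, by simp [colr], by simp [colr], by simp [tgt, dc], by simp [tgt, dc], by simp⟩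
  · exact ⟨3, 1, by simp [colr], by simp [colr], by simp [tgt, dc], by simp [tgt, dc], by simp⟩
  · exact ⟨1, 3, by simp [colr], by simp [colr], by simp [tgt, dc], by simp [tgt, dc], by simp⟩
  · exact ⟨0, 2, by simp [colr], by simp [colr], by simp [tgt, dc], by simp [tgt, dc], by simp⟩

/-- For the colour `c` and the direction `dc c` (or `dc c + 2`) there is an `i` with `colr c₀ i = c` and
`tgt c₀ i` congruent to it modulo 4 (cases on `c`, `c₀`): `c = c₀`: `i = 0`, `i = 2`; `c₀ = true`, `c = false`: `i = 1`, `i = 3`; `c₀ = false`,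
`c = true`: `i = 3` (`tgt = 4`), `i = 1`. -/
theorem sout_of {L : Lat} {r R : ℤ} {c₀ : Bool} {ω : Cfg}
    (h : ∀ i, L.Arm (colr c₀ i) (ann r R ∪ Jc (colr c₀ i) R) (L.nb (bx r)) (Je (tgt c₀ i) R) ω) :
    L.Sout r R ω := by
  intro c
  obtain ⟨i, j, hi, hj, hti, htj, -⟩ := ro18_pick c₀ c
  have h1 := h i
  have h2 := h j
  rw [hi, (J_mod hti R).2] at h1
  rw [hj, (J_mod htj R).2] at h2
  exact ⟨h1, h2⟩

/-- The arms `i` and `i + 2` (`i = 0` or `1`) have the same colour `c`; the inner directions `tgt` of the two arms are `dc c`,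
`dc c + 2` modulo 4 in some order, the outer directions `d i`, `d (i + 2)` are `dc c`, `dc c + 2` in some order (`Dirs`: each is one of
the two, and they are different).  So one of the two pairings of `Pairs` holds. -/
theorem s4_of {L : Lat} {r R : ℤ} {c₀ : Bool} {d : Fin 4 → ℤ} (hd : Dirs c₀ d) {ω : Cfg}
    (h : ∀ i, L.Arm (colr c₀ i) (ann r R ∪ Jc (colr c₀ i) R ∪ Kc (colr c₀ i) r)
      (Ks (tgt c₀ i) r) (Je (d i) R) ω) : L.S4 r R ω := by
  have key : ∀ c, L.Pairs c r R ω := by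
    intro c
    obtain ⟨i, j, hi, hj, hti, htj, hij⟩ := ro18_pick c₀ c
    have h1 := h i
    have h2 := h j
    have hdi := hd.1 i
    have hdj := hd.1 j
    rw [hi, (K_mod hti r).2] at h1
    rw [hj, (K_mod htj r).2] at h2
    rw [hi] at hdi
    rw [hj] at hdj
    have hne : d i ≠ d j := by
      rcases hij with ⟨rfl, rfl⟩ | ⟨rfl, rfl⟩ | ⟨rfl, rfl⟩ | ⟨rfl, rfl⟩
      · exact hd.2.1
      · exact hd.2.1.symm
      · exact hd.2.2
      · exact hd.2.2.symm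
    rcases hdi with e1 | e1
    · rcases hdj with e2 | e2
      · exact absurd (e1.trans e2.symm) hne
      · rw [e1] at h1
        rw [e2] at h2
        exact Or.inl ⟨h1, h2⟩
    · rcases hdj with e2 | e2
      · rw [e1] at h1
        rw [e2] at h2
        exact Or.inr ⟨h1, h2⟩
      · exact absurd (e1.trans e2.symm) hne
  exact ⟨key true, key false⟩

end SC

end

/-! ### from `Lib_MP_e0a489.RO3` -/

section

/-!
# MP_e0a489, RO 3: arcs of a ring of cells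
-/

set_option autoImplicit false

namespace SC

open Classical

private theorem ro3_rect_finite (a b p q : ℤ) : (rect a b p q).Finite := by
  refine Set.Finite.subset (Set.Finite.prod (Set.finite_Icc a b) (Set.finite_Icc p q)) ?_
  rintro v ⟨⟨h1, h2⟩, h3, h4⟩
  exact ⟨⟨h1, h2⟩, h3, h4⟩

theorem arcReg_finite (w m s k s' k' : ℤ) : (arcReg w m s k s' k').Finite := by
  refine Set.Finite.subset (Set.Finite.biUnion (Set.finite_Icc s s')
    (t := fun t => rt t '' rect (m * w - w / 2) (m * w + w / 2)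
      (sgl m s k t * w - w / 2) (sgu m s' k' t * w + w / 2))
    fun t _ => (ro3_rect_finite _ _ _ _).image _) ?_
  rintro v ⟨t, h1, h2, h3⟩
  exact Set.mem_biUnion (show t ∈ Set.Icc s s' from ⟨h1, h2⟩) h3

namespace Lat

/-- `PX.dep` for each side -/
theorem ArcE.dep (L : Lat) (c : Bool) (w m s k s' k' : ℤ) :
    Dep (L.ArcE c w m s k s' k') (arcReg w m s k s' k') := by
  intro ω ω' h
  have key : ∀ t, s ≤ t → t ≤ s' → L.PX c t (m * w - w / 2) (m * w + w / 2)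
      (sgl m s k t * w - w / 2) (sgu m s' k' t * w + w / 2) ω =
      L.PX c t (m * w - w / 2) (m * w + w / 2)
      (sgl m s k t * w - w / 2) (sgu m s' k' t * w + w / 2) ω' := fun t h1 h2 =>
    PX.dep L c t _ _ _ _ ω ω' fun v hv => h v ⟨t, h1, h2, hv⟩
  apply propext
  constructor
  · intro H t h1 h2
    rw [← key t h1 h2]
    exact H t h1 h2
  · intro H t h1 h2
    rw [key t h1 h2]
    exact H t h1 h2

theorem ArcE.loc (L : Lat) (c : Bool) (w m s k s' k' : ℤ) : Loc (L.ArcE c w m s k s' k') := by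
  refine ⟨(arcReg_finite w m s k s' k').toFinset, ?_⟩
  rw [Set.Finite.coe_toFinset]
  exact ArcE.dep L c w m s k s' k'

/-- `PX.mon` -/
theorem ArcE.mon (L : Lat) (c : Bool) (w m s k s' k' : ℤ) : MonC c (L.ArcE c w m s k s' k') := by
  have h := fun t : ℤ => PX.mon L c t (m * w - w / 2) (m * w + w / 2)
    (sgl m s k t * w - w / 2) (sgu m s' k' t * w + w / 2)
  cases c with
  | true =>
    unfold MonC at *
    simp only [if_true] at *
    exact fun ω ω' hω H t h1 h2 => h t ω ω' hω (H t h1 h2)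
  | false =>
    unfold MonC at *
    simp only [Bool.false_eq_true, if_false] at *
    exact fun ω ω' hω H t h1 h2 => h t ω ω' hω (H t h1 h2)

/-- THE ARC IS CONNECTED.  For `s ≤ t ≤ s'` choose the crossing set `Q t` of the side `t` (`PX.set`, with
`Q t = ∅` for the other `t`); `T = ⋃ Q t` is connected by `Con.chain`: let `s ≤ t < s'`.  Then `sgu m s' k' t = m` and
`sgl m s k (t + 1) = -m`, so `Q (t + 1)` is a crossing set `Par (t + 1) (m w - w/2) (m w + w/2) (-m w - w/2) (e w + w/2)`,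
`e = sgu m s' k' (t + 1) ≥ -m`; by `Par.rot` it is `Rad t (-(e w + w/2)) (m w + w/2) (m w - w/2) (m w + w/2)` and it meets
`Q t`, which is `Par t (m w - w/2) (m w + w/2) (l w - w/2) (m w + w/2)`, `l = sgl m s k t ≤ m` (`Rad.meet`). -/
theorem ArcE.glue {L : Lat} {c : Bool} {w m s k s' k' : ℤ} {ω : Cfg} (hw : 0 < w) (hm : 0 ≤ m)
    (hk : |k| ≤ m) (hk' : |k'| ≤ m) (hss : s ≤ s') (h : L.ArcE c w m s k s' k' ω) :
    ∃ T, L.Con T ∧ T ⊆ L.col c ω ∧ T ⊆ arcReg w m s k s' k' ∧ ∀ t, s ≤ t → t ≤ s' →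
      ∃ Q, Q ⊆ T ∧ L.Par t (m * w - w / 2) (m * w + w / 2)
        (sgl m s k t * w - w / 2) (sgu m s' k' t * w + w / 2) Q := by
  have hx : ∀ t, ∃ Q : Set Pt, s ≤ t → t ≤ s' → Q ⊆ L.col c ω ∧
      L.Par t (m * w - w / 2) (m * w + w / 2)
        (sgl m s k t * w - w / 2) (sgu m s' k' t * w + w / 2) Q := by
    intro t
    by_cases ht : s ≤ t ∧ t ≤ s'
    · obtain ⟨Q, hQ⟩ := PX.set (h t ht.1 ht.2)
      exact ⟨Q, fun _ _ => hQ⟩
    · exact ⟨∅, fun h1 h2 => absurd ⟨h1, h2⟩ ht⟩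
  choose Q hQ using hx
  have hk1 := abs_le.1 hk
  have hk2 := abs_le.1 hk'
  have hw2 : 0 ≤ w / 2 := by omega
  refine ⟨{v | ∃ t, s ≤ t ∧ t ≤ s' ∧ v ∈ Q t}, ?_, ?_, ?_, ?_⟩
  · refine Con.chain hss (fun t h1 h2 => (hQ t h1 h2).2.1) fun t h1 h2 => ?_
    have hA := (hQ t h1 (by omega)).2
    have hB := (hQ (t + 1) (by omega) (by omega)).2.rot
    have e1 : sgl m s k (t + 1) = -m := if_neg (by omega)
    have e2 : sgu m s' k' t = m := if_neg (by omega)
    have e3 : -m ≤ sgu m s' k' (t + 1) := by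
      unfold sgu
      split_ifs <;> omega
    have e4 : sgl m s k t ≤ m := by
      unfold sgl
      split_ifs <;> omega
    have e5 : -m * w ≤ sgu m s' k' (t + 1) * w := mul_le_mul_of_nonneg_right e3 hw.le
    have e6 : sgl m s k t * w ≤ m * w := mul_le_mul_of_nonneg_right e4 hw.le
    have e7 : -m * w = -(m * w) := by ring
    rw [e1] at hB
    rw [e2] at hA
    rw [Set.inter_comm]
    exact hB.meet hA (by omega) (by omega) (by omega) le_rfl (by omega) (by omega)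
  · rintro v ⟨t, h1, h2, hv⟩
    exact (hQ t h1 h2).1 hv
  · rintro v ⟨t, h1, h2, hv⟩
    exact ⟨t, h1, h2, (hQ t h1 h2).2.2.1 hv⟩
  · intro t h1 h2
    exact ⟨Q t, fun v hv => ⟨t, h1, h2, hv⟩, (hQ t h1 h2).2⟩

end Lat

end SC

end

/-! ### from `Lib_MP_e0a489.RO5` -/

section

/-!
# MP_e0a489, RO 5: the path event, dependence, monotonicity, gluing
-/

set_option autoImplicit false

namespace SC

open Classical

private theorem ro5_rect_finite (a b p q : ℤ) : (rect a b p q).Finite := by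
  refine ((Set.finite_Icc a b).prod (Set.finite_Icc p q)).subset ?_
  rintro v ⟨⟨h1, h2⟩, h3, h4⟩
  exact ⟨⟨h1, h2⟩, h3, h4⟩

private theorem ro5_bd (P : Pth) (hm : 1 ≤ P.m) (hf : |P.f| ≤ P.m) :
    |P.lk| ≤ P.m ∧ |P.uk| ≤ P.m ∧ P.ls ≤ P.us := by
  unfold Pth.ls Pth.us Pth.lk Pth.uk
  by_cases h : rmv P.s P.f P.d
  · rw [if_pos h, if_pos h, if_pos h, if_pos h]
    unfold rmv at h
    exact ⟨hf, by simp; omega, by omega⟩
  · rw [if_neg h, if_neg h, if_neg h, if_neg h]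
    unfold rmv at h
    exact ⟨by simp; omega, hf, by omega⟩

private theorem ro5_s (P : Pth) (hf : |P.f| ≤ P.m) :
    P.ls ≤ P.s ∧ P.s ≤ P.us ∧ sgl P.m P.ls P.lk P.s ≤ P.f ∧ P.f ≤ sgu P.m P.us P.uk P.s := by
  rw [abs_le] at hf
  unfold Pth.ls Pth.us Pth.lk Pth.uk
  by_cases h : rmv P.s P.f P.d
  · rw [if_pos h, if_pos h, if_pos h, if_pos h]
    unfold rmv at h
    unfold sgl sgu
    refine ⟨le_rfl, by omega, ?_, ?_⟩
    · rw [if_pos rfl]
    · split_ifs <;> omega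
  · rw [if_neg h, if_neg h, if_neg h, if_neg h]
    unfold rmv at h
    unfold sgl sgu
    refine ⟨by omega, le_rfl, ?_, ?_⟩
    · split_ifs <;> omega
    · rw [if_pos rfl]

private theorem ro5_d (P : Pth) (hm : 1 ≤ P.m) :
    P.ls ≤ P.d ∧ P.d ≤ P.us ∧ sgl P.m P.ls P.lk P.d ≤ 0 ∧ 0 ≤ sgu P.m P.us P.uk P.d := by
  unfold Pth.ls Pth.us Pth.lk Pth.uk
  by_cases h : rmv P.s P.f P.d
  · rw [if_pos h, if_pos h, if_pos h, if_pos h]
    unfold rmv at h
    unfold sgl sgu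
    refine ⟨by omega, le_rfl, ?_, ?_⟩
    · split_ifs <;> omega
    · rw [if_pos rfl]
  · rw [if_neg h, if_neg h, if_neg h, if_neg h]
    unfold rmv at h
    unfold sgl sgu
    refine ⟨le_rfl, by omega, ?_, ?_⟩
    · rw [if_pos rfl]
    · split_ifs <;> omega

theorem Pth.reg_finite (P : Pth) (w : ℤ) : (P.reg w).Finite := by
  unfold Pth.reg
  exact ((((ro5_rect_finite _ _ _ _).image _).union ((ro5_rect_finite _ _ _ _).image _)).union
    (arcReg_finite _ _ _ _ _ _)).union ((ro5_rect_finite _ _ _ _).image _)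

/-- order of the two ends of the arc -/
theorem Pth.arc_ord (P : Pth) : P.ls < P.us ∨ (P.ls = P.us ∧ P.lk ≤ P.uk) := by
  unfold Pth.ls Pth.us Pth.lk Pth.uk
  by_cases h : rmv P.s P.f P.d
  · rw [if_pos h, if_pos h, if_pos h, if_pos h]
    unfold rmv at h
    omega
  · rw [if_neg h, if_neg h, if_neg h, if_neg h]
    unfold rmv at h
    omega

namespace Lat

/-- `RX.dep`, `PX.dep`, `ArcE.dep`, `Dep.mono` -/
theorem PathE.dep (L : Lat) (c : Bool) (w : ℤ) (P : Pth) : Dep (L.PathE c w P) (P.reg w) := by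
  intro ω ω' h
  unfold Pth.reg at h
  show (_ ∧ _ ∧ _ ∧ _) = (_ ∧ _ ∧ _ ∧ _)
  rw [PX.dep L c P.s P.a1 P.b1 _ _ ω ω' (fun v hv => h v (Or.inl (Or.inl (Or.inl hv)))),
    RX.dep L c P.s P.a2 P.b2 _ _ ω ω' (fun v hv => h v (Or.inl (Or.inl (Or.inr hv)))),
    ArcE.dep L c w P.m P.ls P.lk P.us P.uk ω ω' (fun v hv => h v (Or.inl (Or.inr hv))),
    RX.dep L c P.d P.a4 P.b4 _ _ ω ω' (fun v hv => h v (Or.inr hv))]

theorem PathE.loc (L : Lat) (c : Bool) (w : ℤ) (P : Pth) : Loc (L.PathE c w P) := by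
  refine ⟨(P.reg_finite w).toFinset, ?_⟩
  rw [Set.Finite.coe_toFinset]
  exact PathE.dep L c w P

theorem PathE.mon (L : Lat) (c : Bool) (w : ℤ) (P : Pth) : MonC c (L.PathE c w P) := by
  have h1 := PX.mon L c P.s P.a1 P.b1 ((P.f - P.h) * w - w / 2) ((P.f + P.h) * w + w / 2)
  have h2 := RX.mon L c P.s P.a2 P.b2 (P.f * w - w / 2) (P.f * w + w / 2)
  have h3 := ArcE.mon L c w P.m P.ls P.lk P.us P.uk
  have h4 := RX.mon L c P.d P.a4 P.b4 (-(w / 2)) (w / 2)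
  unfold MonC at h1 h2 h3 h4 ⊢
  cases c
  · rw [if_neg (by simp)] at h1 h2 h3 h4 ⊢
    intro ω ω' hle h
    exact ⟨h1 ω ω' hle h.1, h2 ω ω' hle h.2.1, h3 ω ω' hle h.2.2.1, h4 ω ω' hle h.2.2.2⟩
  · rw [if_pos rfl] at h1 h2 h3 h4 ⊢
    intro ω ω' hle h
    exact ⟨h1 ω ω' hle h.1, h2 ω ω' hle h.2.1, h3 ω ω' hle h.2.2.1, h4 ω ω' hle h.2.2.2⟩

/-- THE PATH IS CONNECTED.  Crossing sets `Q₁` (landing block, parallel), `Q₂` (first strip, radial), `T₃` (arc), `Q₄` (final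
strip, radial).  `Q₂` meets `Q₁` (`Rad.meet`, `a2 ≤ a1`, `b1 ≤ b2`, `h ≥ 0`).  `Q₂` meets the crossing of `T₃` on the side `s`:
`ls ≤ s ≤ us`, and the segment on the side `s` contains the cell `f` (right mover: `sgl m s f s = f`, `sgu m d 0 s` is `0 > f` if
`s = d` and `m` otherwise; left mover: `sgl m d 0 s` is `0 ≤ f` if `s = d` and `-m` otherwise, `sgu m s f s = f`).  In the same way
`Q₄` meets the crossing of `T₃` on the side `d`, its segment contains the cell `0`.  `T = Q₁ ∪ Q₂ ∪ T₃ ∪ Q₄`.  The last two sites are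
the end sites of `Q₄ ⊆ rt d '' rect a4 b4 (-(w/2)) (w/2)` (`rt d` is injective). -/
theorem PathE.glue {L : Lat} {c : Bool} {w : ℤ} {N : ℕ} {P : Pth} {ω : Cfg} (hw : 0 < w)
    (hP : P.Ok w N) (h : L.PathE c w P ω) :
    ∃ T, L.Con T ∧ T ⊆ L.col c ω ∧ T ⊆ P.reg w ∧
      (∃ Q, Q ⊆ T ∧ L.Par P.s P.a1 P.b1 ((P.f - P.h) * w - w / 2) ((P.f + P.h) * w + w / 2) Q) ∧
      (∃ y, |y| ≤ w / 2 ∧ rt P.d (P.a4, y) ∈ T) ∧ ∃ y, |y| ≤ w / 2 ∧ rt P.d (P.b4, y) ∈ T := by
  obtain ⟨hQ1, hQ2, hA, hQ4⟩ := h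
  obtain ⟨Q1, c1, p1⟩ := PX.set hQ1
  obtain ⟨Q2, c2, r2⟩ := RX.set hQ2
  obtain ⟨Q4, c4, r4⟩ := RX.set hQ4
  have hm1 := hP.m1
  have hfm := hP.fm
  rw [abs_le] at hfm
  obtain ⟨b1, b2, b3⟩ := ro5_bd P hP.m1 hP.fm
  obtain ⟨s1, s2, s3, s4⟩ := ro5_s P hP.fm
  obtain ⟨d1, d2, d3, d4⟩ := ro5_d P hP.m1
  obtain ⟨T3, hc3, k3, t3, hq3⟩ := ArcE.glue hw (by omega) b1 b2 b3 hA
  obtain ⟨Qs, qs1, qs2⟩ := hq3 P.s s1 s2
  obtain ⟨Qd, qd1, qd2⟩ := hq3 P.d d1 d2
  have hw2 : 0 ≤ w / 2 := by omega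
  have m12 : (Q2 ∩ Q1).Nonempty := by
    refine Rad.meet r2 p1 hP.a21 hP.b12 ?_ ?_ ?_ (by omega)
    · have := mul_nonneg hP.h0 hw.le
      nlinarith
    · have := mul_nonneg hP.h0 hw.le
      nlinarith
    · have h1 := hP.ab1
      have := mul_nonneg hP.h0 hw.le
      nlinarith
  have m23 : (Q2 ∩ Qs).Nonempty := by
    refine Rad.meet r2 qs2 hP.a2m hP.b2m ?_ ?_ (by omega) (by omega)
    · have := mul_le_mul_of_nonneg_right s3 hw.le
      linarith
    · have := mul_le_mul_of_nonneg_right s4 hw.le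
      linarith
  have m43 : (Q4 ∩ Qd).Nonempty := by
    refine Rad.meet r4 qd2 hP.a4m hP.b4m ?_ ?_ (by omega) (by omega)
    · have := mul_le_mul_of_nonneg_right d3 hw.le
      linarith
    · have := mul_le_mul_of_nonneg_right d4 hw.le
      linarith
  have u1 : L.Con (Q1 ∪ Q2) := by
    refine Con.union p1.1 r2.1 ?_
    rwa [Set.inter_comm] at m12
  have u2 : L.Con (Q1 ∪ Q2 ∪ T3) := by
    refine Con.union u1 hc3 ?_
    obtain ⟨z, z1, z2⟩ := m23
    exact ⟨z, Or.inr z1, qs1 z2⟩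
  have u3 : L.Con (Q1 ∪ Q2 ∪ T3 ∪ Q4) := by
    refine Con.union u2 r4.1 ?_
    obtain ⟨z, z1, z2⟩ := m43
    exact ⟨z, Or.inr (qd1 z2), z1⟩
  have hyb : ∀ x y : ℤ, rt P.d (x, y) ∈ Q4 → |y| ≤ w / 2 := by
    intro x y hxy
    obtain ⟨z, hz, hzz⟩ := r4.2.1 hxy
    have h1 := (rt P.d).injective hzz
    subst h1
    rw [abs_le]
    exact hz.2
  refine ⟨Q1 ∪ Q2 ∪ T3 ∪ Q4, u3, ?_, ?_, ?_, ?_, ?_⟩
  · exact Set.union_subset (Set.union_subset (Set.union_subset c1 c2) k3) c4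
  · unfold Pth.reg
    exact Set.union_subset_union (Set.union_subset_union (Set.union_subset_union p1.2.1 r2.2.1) t3)
      r4.2.1
  · exact ⟨Q1, fun x hx => Or.inl (Or.inl (Or.inl hx)), p1⟩
  · obtain ⟨y, hy⟩ := r4.2.2.1
    exact ⟨y, hyb _ _ hy, Or.inr hy⟩
  · obtain ⟨y, hy⟩ := r4.2.2.2
    exact ⟨y, hyb _ _ hy, Or.inr hy⟩

end Lat

end SC

end

/-! ### from `Lib_MP_e0a489.XP12` -/

section

/-!
# MP_e0a489, exponents 12: lower bound of the box event by the four arm probability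
-/

set_option autoImplicit false

namespace SC

variable [IfL]

namespace XP

open Classical

private theorem xp12_shsh (L : Lat) (x y : Pt) : (L.shift x).shift y = L.shift (x + y) := by
  unfold Lat.shift
  congr 1
  · funext i j
    show L.ne (i + y.1 + x.1) (j + y.2 + x.2) = L.ne (i + (x + y).1) (j + (x + y).2)
    have h1 : i + y.1 + x.1 = i + (x + y).1 := by
      rw [Prod.fst_add]; ring
    have h2 : j + y.2 + x.2 = j + (x + y).2 := by
      rw [Prod.snd_add]; ring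
    rw [h1, h2]
  · funext v
    show L.typ (v + y + x) = L.typ (v + (x + y))
    have h1 : v + y + x = v + (x + y) := by rw [add_assoc, add_comm y x]
    rw [h1]

private theorem xp12_sw (L : Lat) (x : Pt) : (L.shift x).sw = L.sw.shift x := rfl

private theorem xp12_rx (L : Lat) (x : Pt) : (L.shift x).rx = L.rx.shift (-x.1, x.2) := by
  unfold Lat.shift Lat.rx
  congr 1
  · funext i j
    show (! L.ne (-i - 1 + x.1) (j + x.2)) = ! L.ne (-(i + -x.1) - 1) (j + x.2)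
    have h1 : -i - 1 + x.1 = -(i + -x.1) - 1 := by ring
    rw [h1]
  · funext v
    show L.typ ((-v.1, v.2) + x) = L.typ (-(v + (-x.1, x.2)).1, (v + (-x.1, x.2)).2)
    have h1 : ((-v.1, v.2) + x : Pt) = (-(v + (-x.1, x.2)).1, (v + (-x.1, x.2)).2) := by
      refine Prod.ext ?_ ?_
      · show -v.1 + x.1 = -(v.1 + -x.1)
        ring
      · rfl
    rw [h1]

private theorem xp12_ry (L : Lat) (x : Pt) : (L.shift x).ry = L.ry.shift (x.1, -x.2) := by
  unfold Lat.shift Lat.ry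
  congr 1
  · funext i j
    show (! L.ne (i + x.1) (-j - 1 + x.2)) = ! L.ne (i + x.1) (-(j + -x.2) - 1)
    have h1 : -j - 1 + x.2 = -(j + -x.2) - 1 := by ring
    rw [h1]
  · funext v
    show L.typ ((v.1, -v.2) + x) = L.typ ((v + (x.1, -x.2)).1, -(v + (x.1, -x.2)).2)
    have h1 : ((v.1, -v.2) + x : Pt) = ((v + (x.1, -x.2)).1, -(v + (x.1, -x.2)).2) := by
      refine Prod.ext ?_ ?_
      · rfl
      · show -v.2 + x.2 = -(v.2 + -x.2)
        ring
    rw [h1]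

private theorem xp12_shift0 (L : Lat) : L.shift 0 = L := by
  unfold Lat.shift
  cases L with
  | mk ne typ => simp

private theorem xp12_finite (r R : ℤ) : (ann r R).Finite := by
  refine (annAt_finite 0 r R).subset (fun v hv => ?_)
  show r < nrm (v - 0) ∧ nrm (v - 0) ≤ R
  rw [sub_zero]
  exact hv

private theorem xp12_loc (L : Lat) (c : Bool) (r R : ℤ) : Loc (L.TwoA c r R) :=
  Lat.Two.loc L c (ann r R) (L.nb (bx r)) (rng R) (xp12_finite r R)

private theorem xp12_al_nonneg (L : Lat) (r R : ℤ) : 0 ≤ al L r R := by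
  unfold al
  split_ifs
  · exact pr_nonneg _
  · exact zero_le_one

private theorem xp12_kap (r R : ℤ) : Kap (kz (fun _ => 1) r R) := by
  intro v
  unfold kz
  split_ifs
  · exact ⟨le_rfl, zero_le_one⟩
  · exact ⟨zero_le_one, le_rfl⟩

/-- `RSW.shift`; `(L.shift x).shift y = L.shift (x + y)` up to the order of the summands, `(L.shift x).sw = L.sw.shift x`,
`(L.shift x).rx = L.rx.shift (-x.1, x.2)`, `(L.shift x).ry = L.ry.shift (x.1, -x.2)` (definitions; for `rx` the pattern is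
`! L.ne (-i - 1 + x.1) (j + x.2)` on both sides). -/
theorem fam_shift {L : Lat} {κ : ℕ → ℝ} (h : Fam L κ) (x : Pt) : Fam (L.shift x) κ := by
  refine ⟨h.rsw.shift x, ?_, ?_, ?_, ?_, ?_⟩
  · rw [xp12_shsh, add_comm, ← xp12_shsh, h.per1]
  · rw [xp12_shsh, add_comm, ← xp12_shsh, h.per2]
  · obtain ⟨x₀, hx⟩ := h.sw
    refine ⟨x₀, ?_⟩
    rw [xp12_sw, hx, xp12_shsh, xp12_shsh, add_comm]
  · obtain ⟨x₀, hx⟩ := h.rx
    refine ⟨x₀ + (-x.1, x.2) - x, ?_⟩
    rw [xp12_rx, hx, xp12_shsh, xp12_shsh, add_sub_cancel]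
  · obtain ⟨x₀, hx⟩ := h.ry
    refine ⟨x₀ + (x.1, -x.2) - x, ?_⟩
    rw [xp12_ry, hx, xp12_shsh, xp12_shsh, add_sub_cancel]

theorem al_lt {L : Lat} {r R : ℤ} (h : r < R) : al L r R = pr (L.TwoA true r R) := by
  unfold al
  rw [if_pos h]

/-- `(L.shift x).TwoAt true (-x) r R (via (Equiv.addRight x) ω) ↔ L.TwoA true r R ω` -/
theorem twoAt_neg (L : Lat) (x : Pt) (c : Bool) (r R : ℤ) (ω : Cfg) :
    (L.shift x).TwoAt c (-x) r R (via (Equiv.addRight x) ω) ↔ L.TwoA c r R ω := by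
  have h1 : (L.shift x).shift (-x) = L := by
    rw [xp12_shsh, add_neg_cancel, xp12_shift0]
  have h2 : via (Equiv.addRight (-x)) (via (Equiv.addRight x) ω) = ω := by
    funext v
    show ω (v + -x + x) = ω v
    rw [neg_add_cancel_right]
  unfold Lat.TwoAt
  rw [h1, h2]

/-- `twoAt_neg`, `pr_via` and `AlProps.cmp` for the lattice `L.shift x` (`fam_shift`, `al_props κ`) with `r' = r`, `R' = R`; for `r = R` both sides
are trivial (`al = 1`, `C ≥ 1`). -/
theorem al_shift_le (κ : ℕ → ℝ) : ∃ (C : ℝ) (R₀ : ℤ), 1 ≤ C ∧ 16 ≤ R₀ ∧ ∀ L : Lat, Fam L κ →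
    ∀ (x : Pt) (r R : ℤ), R₀ ≤ r → r ≤ R → al L r R ≤ C * al (L.shift x) r R := by
  obtain ⟨C, R₀, hA⟩ := al_props κ
  refine ⟨max C 1, max R₀ 16, le_max_right _ _, le_max_right _ _, ?_⟩
  intro L h x r R hr hrR
  have P := hA (L.shift x) (fam_shift h x)
  have hr0 : R₀ ≤ r := (le_max_left _ _).trans hr
  have hr16 : 16 ≤ r := (le_max_right _ _).trans hr
  rcases lt_or_eq_of_le hrR with hlt | heq
  · have h1 : al L r R = pr ((L.shift x).TwoAt true (-x) r R) := by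
      rw [al_lt hlt, ← pr_via (twoAt_loc (L.shift x) true (-x) r R) (Equiv.addRight x)]
      congr 1
      funext ω
      exact propext (twoAt_neg L x true r R ω).symm
    rw [h1]
    refine (P.cmp true (-x) r R r R hr0 hr0 hrR (by omega) hrR (by omega)).trans ?_
    exact mul_le_mul_of_nonneg_right (le_max_left _ _) (xp12_al_nonneg _ _ _)
  · subst heq
    have h1 : al L r r = 1 := by unfold al; rw [if_neg (lt_irrefl r)]
    have h2 : al (L.shift x) r r = 1 := by unfold al; rw [if_neg (lt_irrefl r)]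
    rw [h1, h2, mul_one]
    exact le_max_right _ _

/-- One configuration: `sep2` and `sq2` with `k = 1`: `pr (L.TwoA true r R) = pr2 1 (..)` (`ex2_one`), and `pr2 (kz 1 r R) A ≤ pr A` (`ex2_le_sq`,
`ind A ^ 2 = ind A`). -/
theorem sq_low (κ : ℕ → ℝ) : ∃ (C : ℝ) (R₀ : ℤ), 0 < C ∧ 16 ≤ R₀ ∧ ∀ L : Lat, RSW L κ →
    ∀ r R a b p q : ℤ, R₀ ≤ r → r < R →
      2 * R ≤ -a → -a ≤ 64 * R → 2 * R ≤ b → b ≤ 64 * R → 2 * R ≤ -p → -p ≤ 64 * R →
      2 * R ≤ q → q ≤ 64 * R →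
      al L r R ≤ C * pr (fun ω => L.SQ true r a b p q ω ∧ L.SQ false r a b p q ω) := by
  obtain ⟨C₁, R₁, hC₁, hR₁, h1⟩ := sep2 κ
  obtain ⟨C₂, R₂, hC₂, hR₂, h2⟩ := sq2 κ
  refine ⟨C₁ * C₂, max R₁ R₂, mul_pos hC₁ hC₂, hR₁.trans (le_max_left _ _), ?_⟩
  intro L hL r R a b p q hr hrR ha ha' hb hb' hp hp' hq hq'
  have hr1 : R₁ ≤ r := (le_max_left _ _).trans hr
  have hr2 : R₂ ≤ r := (le_max_right _ _).trans hr
  have hk : ∀ v : Pt, (0 : ℝ) ≤ (fun _ : Pt => (1 : ℝ)) v ∧ (fun _ : Pt => (1 : ℝ)) v ≤ 1 :=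
    fun v => ⟨zero_le_one, le_rfl⟩
  have e1 : al L r R = pr2 (fun _ => 1) (L.TwoA true r R) := by
    rw [al_lt hrR, pr2_one (xp12_loc L true r R)]
  have e2 := h1 L hL (fun _ => 1) hk true r R hr1 hrR.le
  have e3 := h2 L hL (fun _ => 1) hk r R a b p q hr2 hrR.le ha ha' hb hb' hp hp' hq hq'
  have hloc : Loc (fun ω => L.SQ true r a b p q ω ∧ L.SQ false r a b p q ω) :=
    Loc.and (Lat.SQ.loc L true r a b p q) (Lat.SQ.loc L false r a b p q)
  have e4 := pr2_le_pr hloc (xp12_kap r R)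
  rw [e1, mul_assoc]
  refine e2.trans (mul_le_mul_of_nonneg_left ?_ hC₁.le)
  exact e3.trans (mul_le_mul_of_nonneg_left e4 hC₂.le)

/-- BOX EVENT AT A SITE `x` of the middle part of the box `bx N`.  `R = N / 4`: `r < R ≤ N`; `al L r N ≤ al L r R` (`AlProps.mono`),
`al_shift_le`, `sq_low` for `L.shift x`: the distances `N ± x.1`, `N ± x.2` are between `N / 2 ≥ 2 R` and `3 N / 2 ≤ 64 R`. -/
theorem box_low (κ : ℕ → ℝ) : ∃ (C : ℝ) (R₀ : ℤ), 0 < C ∧ 64 ≤ R₀ ∧ ∀ L : Lat, Fam L κ →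
    ∀ (x : Pt) (r N : ℤ), R₀ ≤ r → 32 * r ≤ N → 2 * nrm x ≤ N →
      al L r N ≤ C * pr (fun ω =>
        (L.shift x).SQ true r (-N - x.1) (N - x.1) (-N - x.2) (N - x.2) ω ∧
          (L.shift x).SQ false r (-N - x.1) (N - x.1) (-N - x.2) (N - x.2) ω) := by
  obtain ⟨C₀, R₀, hA⟩ := al_props κ
  obtain ⟨C₁, R₁, hC₁, hR₁, h1⟩ := al_shift_le κ
  obtain ⟨C₂, R₂, hC₂, hR₂, h2⟩ := sq_low κ
  refine ⟨C₁ * C₂, max 64 (max R₀ (max R₁ R₂)), mul_pos (by linarith) hC₂, le_max_left _ _, ?_⟩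
  intro L hL x r N hr hN hx
  have g64 : 64 ≤ r := (le_max_left _ _).trans hr
  have g' : max R₀ (max R₁ R₂) ≤ r := (le_max_right _ _).trans hr
  have g0 : R₀ ≤ r := (le_max_left _ _).trans g'
  have g'' : max R₁ R₂ ≤ r := (le_max_right _ _).trans g'
  have g1 : R₁ ≤ r := (le_max_left _ _).trans g''
  have g2 : R₂ ≤ r := (le_max_right _ _).trans g''
  have P := hA L hL
  have hx1 : -nrm x ≤ x.1 ∧ x.1 ≤ nrm x := abs_le.1 (le_max_left |x.1| |x.2|)
  have hx2 : -nrm x ≤ x.2 ∧ x.2 ≤ nrm x := abs_le.1 (le_max_right |x.1| |x.2|)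
  have hrR : r < N / 4 := by omega
  have e1 : al L r N ≤ al L r (N / 4) := P.mono r (N / 4) r N (by omega) le_rfl hrR.le (by omega)
  have e2 : al L r (N / 4) ≤ C₁ * al (L.shift x) r (N / 4) := h1 L hL x r (N / 4) g1 hrR.le
  have e3 := h2 (L.shift x) (fam_shift hL x).rsw r (N / 4) (-N - x.1) (N - x.1) (-N - x.2)
    (N - x.2) g2 hrR (by omega) (by omega) (by omega) (by omega) (by omega) (by omega) (by omega)
    (by omega)
  rw [mul_assoc]
  refine e1.trans (e2.trans (mul_le_mul_of_nonneg_left e3 (by linarith)))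

end XP

end SC

end

/-! ### from `Lib_MP_e0a489.TTH3` -/

section

/-!
# MP_e0a489, module TTH 3: factorization of the local event in the half plane
-/

set_option autoImplicit false

namespace SC

variable [IfL]

open Classical XP

private theorem tth3_nrm_img (P : ℤ → Prop) (σ : ℤ) (x y : Pt) :
    (rt σ * Equiv.addRight x : Equiv.Perm Pt) '' {v | P (nrm (v - y))} =
      {v | P (nrm (v - rt σ (y + x)))} := by
  have key : ∀ w : Pt, nrm ((rt σ * Equiv.addRight x : Equiv.Perm Pt) w - rt σ (y + x)) =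
      nrm (w - y) := by
    intro w
    rw [rtz_apply, ← rt_lin_sub, nrm_rt]
    congr 1
    abel
  ext v
  constructor
  · rintro ⟨w, hw, rfl⟩
    show P _
    rw [key]
    exact hw
  · intro hv
    refine ⟨(rt σ * Equiv.addRight x : Equiv.Perm Pt).symm v, ?_, Equiv.apply_symm_apply _ v⟩
    show P _
    rw [← key, Equiv.apply_symm_apply]
    exact hv

private theorem tth3_true (κ : Pt → ℝ) : pr2 κ (fun _ => True) = 1 := by
  have h1 : Dep (ind (fun _ => True)) (∅ : Set Pt) := by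
    intro ω ω' _
    rfl
  have h2 : Lf (ind (fun _ => True)) := ⟨∅, by
    intro ω ω' _
    rfl⟩
  unfold pr2
  rw [ex2_one h2 h2 h1 κ (fun v hv => absurd hv (Set.notMem_empty v))]
  have h3 : (fun ω => ind (fun _ => True) ω * ind (fun _ => True) ω) = fun _ : Cfg => (1 : ℝ) := by
    funext ω
    unfold ind
    rw [if_pos trivial, mul_one]
  rw [h3]
  exact ex_const 1

private theorem tth3_imp (κ : Pt → ℝ) (A : Cfg → Prop) (a b : ℤ) :
    pr2 κ (fun ω => a < b → A ω) = if a < b then pr2 κ A else 1 := by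
  by_cases hab : a < b
  · rw [if_pos hab]
    congr 1
    funext ω
    exact propext ⟨fun h => h hab, fun h _ => h⟩
  · rw [if_neg hab]
    have e : (fun ω => a < b → A ω) = fun _ => True := by
      funext ω
      exact propext ⟨fun _ => trivial, fun _ h => absurd h hab⟩
    rw [e]
    exact tth3_true κ

private theorem tth3_kap {t : ℝ} (ht : 0 ≤ t) : Kap (kt t) := by
  intro v
  refine ⟨(Real.exp_pos _).le, ?_⟩
  show Real.exp (-t) ≤ 1
  rw [← Real.exp_zero]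
  exact Real.exp_le_exp.2 (by linarith)

private theorem tth3_bx_finite (y : Pt) (R : ℤ) : (bxAt y R).Finite := by
  refine (Finset.finite_toSet
    (Finset.Icc (y.1 - R) (y.1 + R) ×ˢ Finset.Icc (y.2 - R) (y.2 + R))).subset ?_
  intro v h
  have h1 : |v.1 - y.1| ≤ R := (le_max_left _ _).trans h
  have h2 : |v.2 - y.2| ≤ R := (le_max_right _ _).trans h
  have h3 := abs_le.1 h1
  have h4 := abs_le.1 h2
  simp only [Finset.coe_product, Finset.coe_Icc, Set.mem_prod, Set.mem_Icc]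
  omega

private theorem tth3_twoD_dep (L : Lat) (Q : Set Pt) (c : Bool) (y : Pt) (r R : ℤ) :
    Dep (L.TwoD Q c y r R) (annAt y r R) := by
  intro ω ω' hw
  exact Lat.Two.dep L c (annAt y r R ∩ Q) _ _ ω ω' (fun v hv => hw v hv.1)

private theorem tth3_locE (L : Lat) (Q : Set Pt) (b : Bool) (v : Pt) (D : ℤ) :
    Loc (L.LocE Q b v D) := by
  refine loc_of_dep (annAt_finite v 0 D) ?_
  intro ω ω' hw
  have h := tth3_twoD_dep L Q b v 0 D ω ω' hw
  show (1 ≤ D → L.TwoD Q b v 0 D ω) = (1 ≤ D → L.TwoD Q b v 0 D ω')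
  rw [h]

private theorem tth3_imp_dep {A : Cfg → Prop} {S : Set Pt} (h : Dep A S) (a b : ℤ) :
    Dep (fun ω => a < b → A ω) S := by
  intro ω ω' hw
  show (a < b → A ω) = (a < b → A ω')
  rw [h ω ω' hw]

private theorem tth3_one {L' : Lat} {H : Set Pt} (hH : HalfLike H) {b : Bool} {v : Pt}
    {D r₁ m : ℤ} (hD : 1 ≤ D) (hr : 0 ≤ r₁) (hm : m < v.2) (hmD : m ≤ D) {ω : Cfg}
    (h : L'.LocE H b v D ω) (hrm : r₁ < m) : L'.TwoAt b v r₁ m ω := by
  have h0 : L'.TwoD H b v 0 D ω := h hD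
  have e0 : nrm (v - v) = 0 := by
    rw [sub_self]
    rfl
  have h1 : L'.TwoD H b v r₁ m ω := Lat.two_sub h0 (by omega) hrm (by omega)
  refine Lat.twoAt_of_twoD ?_ h1
  rintro z ⟨_, hz⟩
  refine hH.1 ?_
  show 1 ≤ z.2
  have h2 : |(z - v).2| ≤ nrm (z - v) := (abs_nrm (z - v)).2
  have h3 : (z - v).2 = z.2 - v.2 := rfl
  rw [h3] at h2
  have h4 := (abs_le.1 h2).1
  omega

/-- Let `e = rt σ * Equiv.addRight x` (`tr_rotshift`, `rtz_apply`).  `XP.twoAt_iff` for `(L.rots σ).shift x`, `Tr.two`, `Tr.nb`; the images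
under `e` of `annAt y r R`, `bxAt y r`, `rngAt y R` are the sets around `e y = rt σ (y + x)` (`nrm (e u - e y) = nrm (u - y)`, `rt_lin_sub`, `nrm_rt`).  So
`((L.rots σ).shift x).TwoAt b y r R (via e ω) ↔ L.TwoAt b (rt σ (y + x)) r R ω`, and `pr2_via` (the correlation is constant). -/
theorem pr2_twoAt_rots (L : Lat) (σ : ℤ) (x y : Pt) (b : Bool) (r R : ℤ) (t : ℝ) :
    pr2 (kt t) (((L.rots σ).shift x).TwoAt b y r R) =
      pr2 (kt t) (L.TwoAt b (rt σ (y + x)) r R) := by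
  have hT := tr_rotshift L σ x
  have hloc : Loc (((L.rots σ).shift x).TwoAt b y r R) := twoAt_loc _ b y r R
  have h1 := pr2_via hloc (rt σ * Equiv.addRight x) (kt t)
  have h2 : (fun v => kt t ((rt σ * Equiv.addRight x : Equiv.Perm Pt) v)) = kt t := rfl
  rw [h2] at h1
  rw [← h1]
  congr 1
  funext ω
  refine propext ?_
  show ((L.rots σ).shift x).TwoAt b y r R (via (rt σ * Equiv.addRight x) ω) ↔ _
  rw [twoAt_iff, twoAt_iff, hT.two, hT.nb]
  have e1 : (rt σ * Equiv.addRight x : Equiv.Perm Pt) '' annAt y r R =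
      annAt (rt σ (y + x)) r R := tth3_nrm_img (fun a => r < a ∧ a ≤ R) σ x y
  have e2 : (rt σ * Equiv.addRight x : Equiv.Perm Pt) '' bxAt y r = bxAt (rt σ (y + x)) r :=
    tth3_nrm_img (fun a => a ≤ r) σ x y
  have e3 : (rt σ * Equiv.addRight x : Equiv.Perm Pt) '' rngAt y R = rngAt (rt σ (y + x)) R :=
    tth3_nrm_img (fun a => a = R) σ x y
  rw [e1, e2, e3]

/-- `Tr.two`, `Tr.nb` for `tr_shift L p`, `image_ann0`, `image_bx0`, `image_rng0`, `Set.image_inter`; the image of `{z | z + p ∈ H}` under the translation by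
`p` is `H`; `pr2_via`. -/
theorem pr2_twoD_shift (L : Lat) (p : Pt) (b : Bool) (H : Set Pt) (r R : ℤ) (t : ℝ) :
    pr2 (kt t) (L.TwoD H b p r R) = pr2 (kt t) ((L.shift p).TwoH b {z | z + p ∈ H} r R) := by
  have hT := tr_shift L p
  have hloc : Loc ((L.shift p).TwoH b {z | z + p ∈ H} r R) := by
    refine Lat.Two.loc _ b _ _ _ (Set.Finite.subset (annAt_finite 0 r R) ?_)
    rintro z ⟨hz, _⟩
    show r < nrm (z - 0) ∧ nrm (z - 0) ≤ R
    rw [sub_zero]
    exact hz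
  have h1 := pr2_via hloc (Equiv.addRight p) (kt t)
  have h2 : (fun v => kt t ((Equiv.addRight p : Equiv.Perm Pt) v)) = kt t := rfl
  rw [h2] at h1
  rw [← h1]
  congr 1
  funext ω
  refine propext ?_
  show L.Two b (annAt p r R ∩ H) (L.nb (bxAt p r)) (rngAt p R) ω ↔
    (L.shift p).Two b (ann r R ∩ {z | z + p ∈ H}) ((L.shift p).nb (bx r)) (rng R)
      (via (Equiv.addRight p) ω)
  rw [hT.two, hT.nb, Set.image_inter (Equiv.addRight p : Equiv.Perm Pt).injective, image_ann0,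
    image_bx0, image_rng0]
  have e1 : (Equiv.addRight p : Equiv.Perm Pt) '' {z | z + p ∈ H} = H := by
    ext v
    constructor
    · rintro ⟨w, hw, rfl⟩
      exact hw
    · intro hv
      refine ⟨v - p, ?_, sub_add_cancel v p⟩
      show v - p + p ∈ H
      rw [sub_add_cancel]
      exact hv
  rw [e1]

theorem halfLike_add {H : Set Pt} (hH : HalfLike H) {p : Pt} (hp : p.2 = 0) :
    HalfLike {z | z + p ∈ H} := by
  constructor
  · intro z hz
    refine hH.1 ?_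
    have h1 : 1 ≤ z.2 := hz
    show 1 ≤ z.2 + p.2
    omega
  · intro z hz
    have h1 : 0 ≤ z.2 + p.2 := hH.2 hz
    show 0 ≤ z.2
    omega

/-- FACTORIZATION.  Let `L' = (L.rots σ).shift x`, `p = (v.1, 0)`, `nrm (v - p) = v.2`.  The local event (`1 ≤ D`) implies
(1) `L'.TwoAt b v r₁ m` if `r₁ < m`: `two_sub` (`y = y' = v`) and `twoAt_of_twoD` (`annAt v r₁ m ⊆ {1 ≤ z.2} ⊆ H` because `m < v.2`);
(2) `L'.TwoD H b p m₀ m₁` if `m₀ < m₁`, and `L'.TwoD H b p m₂ R'` if `m₂ < R'`: `two_sub` with `y = v`, `y' = p` (`m₁ ≤ R'`).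
These depend on the disjoint sets `bxAt v m` (for `z` in it: `nrm (z - p) ≤ m + v.2 < 2 v.2 ≤ m₀`), `annAt p m₀ m₁`, `annAt p m₂ R'`
(`m₁ ≤ m₂`).  `pr2_mono`, `pr2_and` (an implication with a false premise is always true and has `pr2 = 1`), `pr2_twoAt_rots`, `pr2_twoD_shift`,
`shift_shift`. -/
theorem locE_fac (L : Lat) (σ : ℤ) (x : Pt) {H : Set Pt} (hH : HalfLike H) (b : Bool) {v : Pt}
    {D r₁ m m₀ m₁ m₂ R' : ℤ} {t : ℝ} (ht : 0 ≤ t) (hv : 0 ≤ v.2) (hD : 1 ≤ D) (hr : 0 ≤ r₁)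
    (hm : m < v.2) (hmD : m ≤ D) (h0 : 2 * v.2 ≤ m₀) (h1 : m₁ ≤ m₂) (h2 : m₀ ≤ m₂)
    (h3 : m₂ ≤ R') (h4 : R' + v.2 ≤ D) :
    pr2 (kt t) (((L.rots σ).shift x).LocE H b v D) ≤ atF L t b (rt σ (v + x)) r₁ m *
      (hfF ((L.rots σ).shift (x + (v.1, 0))) t b {z | z + (v.1, 0) ∈ H} m₀ m₁ *
        hfF ((L.rots σ).shift (x + (v.1, 0))) t b {z | z + (v.1, 0) ∈ H} m₂ R') := by
  set L' : Lat := (L.rots σ).shift x with hL'
  set p : Pt := (v.1, 0) with hp
  have hvp : nrm (v - p) = v.2 := by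
    have e1 : v - p = (v.1 - v.1, v.2 - 0) := rfl
    rw [e1]
    unfold nrm
    show max |v.1 - v.1| |v.2 - 0| = v.2
    rw [sub_self, abs_zero, sub_zero, abs_of_nonneg hv, max_eq_right hv]
  have hk := tth3_kap ht
  -- the three events
  have d1 : Dep (fun ω => r₁ < m → L'.TwoAt b v r₁ m ω) (annAt v r₁ m) :=
    tth3_imp_dep (twoAt_dep L' b v r₁ m) r₁ m
  have d2 : Dep (fun ω => m₀ < m₁ → L'.TwoD H b p m₀ m₁ ω) (annAt p m₀ m₁) :=
    tth3_imp_dep (tth3_twoD_dep L' H b p m₀ m₁) m₀ m₁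
  have d3 : Dep (fun ω => m₂ < R' → L'.TwoD H b p m₂ R' ω) (annAt p m₂ R') :=
    tth3_imp_dep (tth3_twoD_dep L' H b p m₂ R') m₂ R'
  have l1 := loc_of_dep (annAt_finite v r₁ m) d1
  have l2 := loc_of_dep (annAt_finite p m₀ m₁) d2
  have l3 := loc_of_dep (annAt_finite p m₂ R') d3
  have d23 : Dep (fun ω => (m₀ < m₁ → L'.TwoD H b p m₀ m₁ ω) ∧
      (m₂ < R' → L'.TwoD H b p m₂ R' ω)) (annAt p m₀ m₁ ∪ annAt p m₂ R') := by
    intro ω ω' hw
    have g1 := d2 ω ω' (fun v hv => hw v (Or.inl hv))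
    have g2 := d3 ω ω' (fun v hv => hw v (Or.inr hv))
    exact congrArg₂ And g1 g2
  have l23 := loc_of_dep ((annAt_finite p m₀ m₁).union (annAt_finite p m₂ R')) d23
  have dj23 : ∀ z ∈ annAt p m₀ m₁, z ∉ annAt p m₂ R' := by
    rintro z ⟨_, hz1⟩ ⟨hz2, _⟩
    omega
  have dj1 : ∀ z ∈ annAt v r₁ m, z ∉ annAt p m₀ m₁ ∪ annAt p m₂ R' := by
    rintro z ⟨_, hz1⟩ hz
    have h5 := nrm_tri z v p
    rcases hz with hz | hz
    · have h6 : m₀ < nrm (z - p) := hz.1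
      omega
    · have h6 : m₂ < nrm (z - p) := hz.1
      omega
  have l123 : Loc (fun ω => (r₁ < m → L'.TwoAt b v r₁ m ω) ∧
      ((m₀ < m₁ → L'.TwoD H b p m₀ m₁ ω) ∧ (m₂ < R' → L'.TwoD H b p m₂ R' ω))) := by
    refine loc_of_dep ((annAt_finite v r₁ m).union
      ((annAt_finite p m₀ m₁).union (annAt_finite p m₂ R'))) ?_
    intro ω ω' hw
    have g1 := d1 ω ω' (fun v hv => hw v (Or.inl hv))
    have g2 := d23 ω ω' (fun v hv => hw v (Or.inr hv))
    exact congrArg₂ And g1 g2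
  have hsub : ∀ ω, L'.LocE H b v D ω → (r₁ < m → L'.TwoAt b v r₁ m ω) ∧
      ((m₀ < m₁ → L'.TwoD H b p m₀ m₁ ω) ∧ (m₂ < R' → L'.TwoD H b p m₂ R' ω)) := by
    intro ω h
    have h5 : L'.TwoD H b v 0 D ω := h hD
    refine ⟨fun hrm => tth3_one hH hD hr hm hmD h hrm, fun h6 => ?_, fun h6 => ?_⟩
    · exact Lat.two_sub h5 (by omega) h6 (by omega)
    · exact Lat.two_sub h5 (by omega) h6 (by omega)
  have key := pr2_mono (tth3_locE L' H b v D) l123 hk hsub
  rw [pr2_and l1 l23 d1 d23 dj1 (kt t), pr2_and l2 l3 d2 d3 dj23 (kt t), tth3_imp, tth3_imp,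
    tth3_imp, pr2_twoAt_rots, pr2_twoD_shift, pr2_twoD_shift, hL', shift_shift] at key
  exact key

/-- the bulk factor alone (part (1) of `locE_fac`) -/
theorem locE_at (L : Lat) (σ : ℤ) (x : Pt) {H : Set Pt} (hH : HalfLike H) (b : Bool) {v : Pt}
    {D r₁ m : ℤ} {t : ℝ} (ht : 0 ≤ t) (hD : 1 ≤ D) (hr : 0 ≤ r₁) (hm : m < v.2) (hmD : m ≤ D) :
    pr2 (kt t) (((L.rots σ).shift x).LocE H b v D) ≤ atF L t b (rt σ (v + x)) r₁ m := by
  have d1 : Dep (fun ω => r₁ < m → ((L.rots σ).shift x).TwoAt b v r₁ m ω) (annAt v r₁ m) :=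
    tth3_imp_dep (twoAt_dep _ b v r₁ m) r₁ m
  have l1 := loc_of_dep (annAt_finite v r₁ m) d1
  have key := pr2_mono (tth3_locE ((L.rots σ).shift x) H b v D) l1 (tth3_kap ht)
    (fun ω h hrm => tth3_one hH hD hr hm hmD h hrm)
  rw [tth3_imp, pr2_twoAt_rots] at key
  exact key

end SC

end

/-! ### from `Lib_MP_e0a489.XP11` -/

section

/-!
# MP_e0a489, exponents 11: the centred core functional at a site
-/

set_option autoImplicit false

namespace SC

namespace XP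

open Classical

/-- centred functional of the block around `x` -/
noncomputable def Xc (L : Lat) (x : Pt) (r : ℤ) : Cfg → ℝ := fun ω =>
  ind (fun ω => (L.shift x).Co true r (via (Equiv.addRight x) ω)) ω / pr ((L.shift x).Co true r) -
    ind (fun ω => (L.shift x).Co false r (via (Equiv.addRight x) ω)) ω /
      pr ((L.shift x).Co false r)

/-- The event `A (via (Equiv.addRight x) ω)` depends on the sites `v + x`, `v ∈ D`. -/
theorem dep_via {A : Cfg → Prop} {D : Set Pt} (h : Dep A D) (x : Pt) :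
    Dep (fun ω => A (via (Equiv.addRight x) ω)) {v | v - x ∈ D} := by
  intro ω ω' H
  refine h _ _ (fun v hv => H (v + x) ?_)
  show v + x - x ∈ D
  rwa [add_sub_cancel_right]

private theorem xp11_loc_via {A : Cfg → Prop} (h : Loc A) (x : Pt) :
    Loc (fun ω => A (via (Equiv.addRight x) ω)) := by
  obtain ⟨F, hF⟩ := h
  refine ⟨F.map (Equiv.addRight x).toEmbedding, (dep_via hF x).mono ?_⟩
  intro v hv
  have hv' : v - x ∈ F := by exact_mod_cast hv
  rw [Finset.mem_coe, Finset.mem_map]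
  refine ⟨v - x, hv', ?_⟩
  show v - x + x = v
  exact sub_add_cancel v x

/-- `Co_dep`, `dep_via` -/
theorem Xc_dep (L : Lat) (x : Pt) {r : ℤ} (hr : 0 ≤ r) : Dep (Xc L x r) (bxAt x r) := by
  have h1 := (dep_via (Co_dep (L.shift x) true hr) x).ind
  have h2 := (dep_via (Co_dep (L.shift x) false hr) x).ind
  intro ω ω' H
  unfold Xc
  rw [h1 ω ω' H, h2 ω ω' H]

private theorem xp11_ind_lf (L : Lat) (x : Pt) (r : ℤ) (c : Bool) :
    Lf (ind (fun ω => (L.shift x).Co c r (via (Equiv.addRight x) ω))) :=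
  (xp11_loc_via (Co_loc (L.shift x) c r) x).lf

private theorem xp11_eq (L : Lat) (x : Pt) (r : ℤ) : Xc L x r = fun ω =>
    (pr ((L.shift x).Co true r))⁻¹ *
      ind (fun ω => (L.shift x).Co true r (via (Equiv.addRight x) ω)) ω -
    (pr ((L.shift x).Co false r))⁻¹ *
      ind (fun ω => (L.shift x).Co false r (via (Equiv.addRight x) ω)) ω := by
  funext ω
  unfold Xc
  rw [div_eq_inv_mul, div_eq_inv_mul]

theorem Xc_lf (L : Lat) (x : Pt) (r : ℤ) : Lf (Xc L x r) := by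
  rw [xp11_eq]
  exact ((xp11_ind_lf L x r true).smul _).sub ((xp11_ind_lf L x r false).smul _)

private theorem xp11_pos {L : Lat} {κ : ℕ → ℝ} (h : RSW L κ) (x : Pt) {r : ℤ} (hr : 64 ≤ r)
    (c : Bool) : 0 < pr ((L.shift x).Co c r) :=
  lt_of_lt_of_le (pow_pos (h.pos 16) 3) (co_pr (h.shift x) c hr)

private theorem xp11_pr (L : Lat) (x : Pt) (r : ℤ) (c : Bool) :
    ex (ind (fun ω => (L.shift x).Co c r (via (Equiv.addRight x) ω))) =
      pr ((L.shift x).Co c r) :=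
  pr_via (Co_loc (L.shift x) c r) (Equiv.addRight x)

/-- `pr_via`, `Co_loc`, `co_pr` (the probabilities are positive): `1 - 1 = 0` -/
theorem Xc_ex {L : Lat} {κ : ℕ → ℝ} (h : RSW L κ) (x : Pt) {r : ℤ} (hr : 64 ≤ r) :
    ex (Xc L x r) = 0 := by
  rw [xp11_eq, ex_sub ((xp11_ind_lf L x r true).smul _) ((xp11_ind_lf L x r false).smul _),
    ex_smul (xp11_ind_lf L x r true), ex_smul (xp11_ind_lf L x r false), xp11_pr, xp11_pr,
    inv_mul_cancel₀ (xp11_pos h x hr true).ne', inv_mul_cancel₀ (xp11_pos h x hr false).ne',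
    sub_self]

private theorem xp11_sq {A B : Cfg → Prop} {p q : ℝ} (hp : 0 < p) (hq : 0 < q) (ω : Cfg) :
    (ind A ω / p - ind B ω / q) ^ 2 ≤ (p⁻¹) ^ 2 * ind A ω + (q⁻¹) ^ 2 * ind B ω := by
  have h1 : 0 < p⁻¹ := inv_pos.2 hp
  have h2 : 0 < q⁻¹ := inv_pos.2 hq
  unfold ind
  rw [div_eq_mul_inv, div_eq_mul_inv]
  split_ifs <;> nlinarith [mul_pos h1 h2, sq_nonneg (p⁻¹), sq_nonneg (q⁻¹)]

/-- `(A / p - B / q) ^ 2 ≤ A / p ^ 2 + B / q ^ 2` for indicators `A`, `B` and `p, q > 0`, so the expectation is at most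
`1 / p + 1 / q` (`pr_via`), and `p, q ≥ κ 16 ^ 3` (`co_pr` for `L.shift x`, `RSW.shift`). -/
theorem Xc_sq {L : Lat} {κ : ℕ → ℝ} (h : RSW L κ) (x : Pt) {r : ℤ} (hr : 64 ≤ r) :
    ex (fun ω => Xc L x r ω ^ 2) ≤ 2 / κ 16 ^ 3 := by
  have hp := xp11_pos h x hr true
  have hq := xp11_pos h x hr false
  have hp' := co_pr (h.shift x) true hr
  have hq' := co_pr (h.shift x) false hr
  have hk : 0 < κ 16 ^ 3 := pow_pos (h.pos 16) 3
  have l1 : Lf (fun ω => Xc L x r ω ^ 2) := by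
    have e : (fun ω => Xc L x r ω ^ 2) = fun ω => Xc L x r ω * Xc L x r ω := by
      funext ω
      ring
    rw [e]
    exact (Xc_lf L x r).mul (Xc_lf L x r)
  have l2 := (xp11_ind_lf L x r true).smul ((pr ((L.shift x).Co true r))⁻¹ ^ 2)
  have l3 := (xp11_ind_lf L x r false).smul ((pr ((L.shift x).Co false r))⁻¹ ^ 2)
  refine le_trans (ex_mono l1 (l2.add l3) (fun ω => xp11_sq hp hq ω)) ?_
  rw [ex_add l2 l3, ex_smul (xp11_ind_lf L x r true), ex_smul (xp11_ind_lf L x r false), xp11_pr,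
    xp11_pr]
  have e1 : ∀ t : ℝ, 0 < t → κ 16 ^ 3 ≤ t → t⁻¹ ^ 2 * t ≤ (κ 16 ^ 3)⁻¹ := by
    intro t ht hkt
    have e2 : t⁻¹ ^ 2 * t = t⁻¹ := by
      field_simp
    rw [e2]
    exact inv_anti₀ hk hkt
  have g1 := e1 _ hp hp'
  have g2 := e1 _ hq hq'
  have e3 : 2 / κ 16 ^ 3 = (κ 16 ^ 3)⁻¹ + (κ 16 ^ 3)⁻¹ := by
    rw [div_eq_mul_inv]
    ring
  rw [e3]
  exact add_le_add g1 g2

private theorem xp11_ind_mul (A B : Cfg → Prop) (ω : Cfg) :
    ind A ω * ind B ω = ind (fun ω => A ω ∧ B ω) ω := by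
  unfold ind
  by_cases h1 : A ω <;> by_cases h2 : B ω <;> simp [h1, h2]

private theorem xp11_prod {L : Lat} {x : Pt} {r N : ℤ} (c : Bool) :
    ex (fun ω => ind (L.HX true (-N) N (-N) N) ω *
      ind (fun ω => (L.shift x).Co c r (via (Equiv.addRight x) ω)) ω) =
    pr (fun ω => (L.shift x).HX true (-N - x.1) (N - x.1) (-N - x.2) (N - x.2) ω ∧
      (L.shift x).Co c r ω) := by
  rw [← pr_via (Loc.and (Lat.HX.loc (L.shift x) true _ _ _ _) (Co_loc (L.shift x) c r))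
    (Equiv.addRight x)]
  unfold pr
  congr 1
  funext ω
  rw [xp11_ind_mul]
  have h1 : L.HX true (-N) N (-N) N ω ↔
      (L.shift x).HX true (-N - x.1) (N - x.1) (-N - x.2) (N - x.2)
        (via (Equiv.addRight x) ω) := by
    rw [shift_hx, sub_add_cancel, sub_add_cancel, sub_add_cancel, sub_add_cancel]
  by_cases h2 : L.HX true (-N) N (-N) N ω ∧
      (L.shift x).Co c r (via (Equiv.addRight x) ω)
  · have h3 : (L.shift x).HX true (-N - x.1) (N - x.1) (-N - x.2) (N - x.2)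
        (via (Equiv.addRight x) ω) ∧ (L.shift x).Co c r (via (Equiv.addRight x) ω) :=
      ⟨h1.1 h2.1, h2.2⟩
    exact (if_pos h2).trans (if_pos h3).symm
  · have h3 : ¬ ((L.shift x).HX true (-N - x.1) (N - x.1) (-N - x.2) (N - x.2)
        (via (Equiv.addRight x) ω) ∧ (L.shift x).Co c r (via (Equiv.addRight x) ω)) :=
      fun h4 => h2 ⟨h1.2 h4.1, h4.2⟩
    exact (if_neg h2).trans (if_neg h3).symm

/-- `core_infl` for the lattice `L' = L.shift x` and the rectangle `rect (-N - x.1) (N - x.1) (-N - x.2) (N - x.2)`, transported to `L`: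
`L.HX true (-N) N (-N) N ω ↔ L'.HX true (-N - x.1) (N - x.1) (-N - x.2) (N - x.2) (via (Equiv.addRight x) ω)` (`shift_hx`), `ex_via` for the
product.  The expectation of `ind A * (ind U / p - ind V / q)` is `P(A ∧ U) / p - P(A ∧ V) / q`. -/
theorem Xc_infl {L : Lat} {κ : ℕ → ℝ} (h : RSW L κ) {x : Pt} {r N : ℤ} (hr : 64 ≤ r)
    (hx : nrm x + r < N) :
    pr (fun ω => (L.shift x).SQ true r (-N - x.1) (N - x.1) (-N - x.2) (N - x.2) ω ∧
        (L.shift x).SQ false r (-N - x.1) (N - x.1) (-N - x.2) (N - x.2) ω) ≤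
      ex (fun ω => ind (L.HX true (-N) N (-N) N) ω * Xc L x r ω) := by
  have hn : |x.1| ≤ nrm x ∧ |x.2| ≤ nrm x := ⟨le_max_left _ _, le_max_right _ _⟩
  have hn1 := abs_le.1 hn.1
  have hn2 := abs_le.1 hn.2
  have hc := core_infl (L := L.shift x) (r := r) (a := -N - x.1) (b := N - x.1) (p := -N - x.2)
    (q := N - x.2) (by omega) (by omega) (by omega) (by omega) (by omega)
    (xp11_pos h x hr true) (xp11_pos h x hr false)
  refine le_trans hc (le_of_eq ?_)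
  have lf : Lf (ind (L.HX true (-N) N (-N) N)) := (Lat.HX.loc L true _ _ _ _).lf
  have e1 : (fun ω => ind (L.HX true (-N) N (-N) N) ω * Xc L x r ω) = fun ω =>
      (pr ((L.shift x).Co true r))⁻¹ * (ind (L.HX true (-N) N (-N) N) ω *
        ind (fun ω => (L.shift x).Co true r (via (Equiv.addRight x) ω)) ω) -
      (pr ((L.shift x).Co false r))⁻¹ * (ind (L.HX true (-N) N (-N) N) ω *
        ind (fun ω => (L.shift x).Co false r (via (Equiv.addRight x) ω)) ω) := by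
    funext ω
    rw [xp11_eq]
    ring
  rw [e1, ex_sub ((lf.mul (xp11_ind_lf L x r true)).smul _)
    ((lf.mul (xp11_ind_lf L x r false)).smul _), ex_smul (lf.mul (xp11_ind_lf L x r true)),
    ex_smul (lf.mul (xp11_ind_lf L x r false)), xp11_prod, xp11_prod, div_eq_inv_mul,
    div_eq_inv_mul]

end XP

end SC

end
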