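import Mathlib
import Pool.Agent.Lib_MP_e0a489_m.G05
import Pool.Agent.Lib_MP_e0a489_m.G06
import Pool.Agent.Lib_MP_e0a489_m.G08
import Pool.Agent.Lib_MP_e0a489_m.G09
import Pool.Agent.Lib_MP_e0a489_m.G13
import Pool.Agent.Lib_MP_e0a489_m.G14
import Pool.Agent.Lib_MP_e0a489_m.G15
import Pool.Agent.Lib_MP_e0a489_m.G17
import Pool.Agent.Lib_MP_e0a489_m.G18
import Pool.Agent.Lib_MP_e0a489_m.G20
import Pool.Agent.Lib_MP_e0a489_m.G21
import Pool.Agent.Lib_MP_e0a489_m.G22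

/-!
# MP_e0a489_pr: merged library part G26

Concatenation of library files (each in its own section), only to save build time.
-/

/-! ### from `Lib_MP_e0a489.OS7` -/

section

/-!
# MP_e0a489, outer separation 7: step 1, deterministic part and inequality
-/

set_option autoImplicit false

namespace SC

open Classical

namespace Lat

variable {L : Lat}

/-- STEP 1.  On the four arm event, off the bad event, there is a coarse position such that for every good fresh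
configuration the event `E1o` holds in the mixed configuration.
Proof.  `os_two_comps`, `os_coarse_cell` for both arms, `os_arcs_order` give `q = (s, k₁, s', k₃)` and `i₂`, `i₄`.  Let `ω' = mix G (Rev ..) ω η`;
`Cx false (bx R) (bx r) ω' = Cx false (bx R) (bx r) ω` (`Cx_mix`).  Open arms: `os_land_arm` with `c = true`, `D = bx R`, `S = bx r`, `V = V_i`,
`x = x_i` (`os_C1_con`, `os_exact_bx_ob`, `os_comp_ann`, `ob_nrm` for `v ∉ bx R`; the site of `C` with norm `≥ R` is `rc R i₂`).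
Closed paths: `os_corner_C` for `i₂`, `i₄`, then `os_mid_of` for `ω'`. -/
theorem os_step1_det {r R w M β ℓ : ℤ} {ω : Cfg} (h : OPar r R w M)
    (hβ : 48 * w ≤ β) (hℓ : 4 * β ≤ ℓ) (hℓR : R / 2 + ℓ < R) (hT : L.TwoA true r R ω)
    (hbad : ¬ L.BadW false (ann (R / 2) R) R (4 * β) ℓ β (12 * w) ω) :
    ∃ q ∈ OTht R w M, ∀ G : Finset Pt, (∀ v, R - w < nrm v → nrm v ≤ R + w → v ∈ G) →
      ∀ η, L.Fre true (R - w) R w M q.1 q.2.1 q.2.2.1 q.2.2.2 η →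
        L.E1o r R w M q.1 q.2.1 q.2.2.1 q.2.2.2 (mix G (L.Rev false (bx R) (bx r)) ω η) := by
  have hr1 := h.r1
  have hr8 := h.r8
  have hRw := h.Rw
  have hw0 := h.w0
  have hM := h.M2
  have hrR : r < R := by omega
  have hR1 : 1 ≤ R := by omega
  obtain ⟨V₁, V₃, x₁, y₁, x₃, y₃, hV₁, hV₃, hne, hx₁, hy₁, hx₃, hy₃, hnx₁, hnx₃, hR₁, hR₃, hc₁,
    hc₃⟩ := os_two_comps (by omega) hrR hT
  obtain ⟨s₁, k₁, hk₁, n₁, ht₁⟩ := os_coarse_cell h hβ hℓ hℓR hbad hV₁ hy₁ hR₁ hnx₁ hc₁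
  obtain ⟨s₃, k₃, hk₃, n₃, ht₃⟩ := os_coarse_cell h hβ hℓ hℓR hbad hV₃ hy₃ hR₃ hnx₃ hc₃
  obtain ⟨s, s', hq, ht, ht', ⟨i₂, h2a, h2b, h2c⟩, i₄, h4a, h4b, h4c⟩ :=
    os_arcs_order h hV₁ hV₃ hne ht₁ ht₃ hk₁ hk₃ n₁ n₃
  refine ⟨(s, k₁, s', k₃), hq, fun G hG η hF => ?_⟩
  obtain ⟨hcon, hsub, hsup⟩ := os_C1_con (L := L) ω hrR.le
  have hbx : bx r ⊆ bx R := fun v hv => le_trans (show nrm v ≤ r from hv) hrR.le
  have hDN : ∀ (s k : ℤ), |k| + 2 ≤ M → ∀ v ∈ ob w M s k, v ∉ bx R ∧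
      ∀ u ∈ bx R, L.Adj u v → u ∈ bx R := by
    intro s k hk v hv
    refine ⟨fun hb => ?_, fun u hu _ => hu⟩
    have h1 := (ob_nrm h.od hw0 h.eR (by omega) hv).1
    have h2 : nrm v ≤ R := hb
    omega
  have hmid : ∀ i a b : ℤ, a < i → i < b → rc R i ∈ L.Cx false (bx R) (bx r) ω →
      L.OMid r R w a b (mix G (L.Rev false (bx R) (bx r)) ω η) := by
    intro i a b ha hb hi
    obtain ⟨t, y, rfl, hy⟩ := os_corner_C h hβ hℓ hℓR hbad hi
    refine os_mid_of (by omega) hrR hy ha hb ?_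
    rw [Cx_mix]
    exact hi
  have hCR : ∃ v ∈ L.Cx false (bx R) (bx r) ω, R ≤ nrm v := ⟨rc R i₂, h2c, (rc_nrm hR1).ge⟩
  have harm : ∀ (s k : ℤ) (V : Set Pt) (x : Pt), |k| + 100 ≤ M →
      L.Comp (bx R \ L.Cx false (bx R) (bx r) ω) V → trip w R s k ⊆ V → x ∈ V →
      x ∈ L.nb (bx r) → L.Cor true w M s k η →
      L.Oarm true r R w M s k (mix G (L.Rev false (bx R) (bx r)) ω η) := by
    intro s k V x hk hV htr hx hx' hcor
    exact os_land_arm (c := true) h (by omega) (Set.Subset.refl (bx R)) (Set.Subset.refl (bx r))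
      hbx (hDN s k (by omega)) hcon (os_exact_bx_ob h (by omega) _) hCR hV htr (os_comp_ann hV) hx
      hx' hG hF.1 hcor
  exact ⟨harm s k₁ V₁ x₁ hk₁ hV₁ ht hx₁ hnx₁ hF.2.1, harm s' k₃ V₃ x₃ hk₃ hV₃ ht' hx₃ hnx₃ hF.2.2,
    hmid i₂ _ _ h2a h2b h2c, hmid i₄ _ _ h4a h4b h4c⟩

end Lat

end SC

end

/-! ### from `Lib_MP_e0a489.RO16` -/

section

/-!
# MP_e0a489, RO 16: the outward paths: conditions, location
-/

set_option autoImplicit false

namespace SC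

open Classical

/-- Arithmetic: `1 ≤ ρ ≤ 8` (`rki_bd`), `hwd_bd`, `tgt_bd`, `Land.side`, `Land.cor`, `M ≥ 2 μ + 20`, `2 (w/2) = w - 1`.
`b1 - a1 = 2 h w + 2 (w/2) = (2 h + 1) w - 1`.  `b4m`: `(M + μ + 8) w + w/2 ≤ R' ≤ 2 R'`.  Sizes, with `w ≤ 2 (w - 1)`:
`b2 - a2 ≤ (μ + 8) w`, `(2 m + 1) w ≤ (2 (M + μ + 8) + 1) w`, `b4 - a4 ≤ 2 R' ≤ 8 (M + 1) w ≤ 16 (M + 1) (w - 1)`. -/
theorem outP_ok {w μ M R' : ℤ} (hw : w % 2 = 1) (hw5 : 5 ≤ w) (hμ : μ % 2 = 1) (hμ0 : 0 < μ)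
    {c₀ : Bool} {s k : Fin 4 → ℤ} (hl : Land μ M c₀ s k) (h1 : M * w + w / 2 + (μ + 10) * w ≤ R')
    (h2 : R' ≤ 4 * (M * w + w / 2)) (i : Fin 4) :
    (outP w μ M R' c₀ s k i).Ok w (16 * (M + μ + 10)).toNat := by
  have hρ := rki_bd μ c₀ s k i
  have hh := hwd_bd hμ hμ0 c₀ i
  have hd := tgt_bd c₀ i
  have hs := hl.side i
  have hc := hl.cor i
  have hf0 := abs_nonneg (fpos μ c₀ k i)
  have hw2 : 2 * (w / 2) = w - 1 := by omega
  have hM : 0 < M := by omega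
  have hN : (((16 * (M + μ + 10)).toNat : ℕ) : ℤ) = 16 * (M + μ + 10) := Int.toNat_of_nonneg (by omega)
  obtain ⟨hρ1, hρ2⟩ := hρ
  obtain ⟨hh1, hh2⟩ := hh
  generalize hρe : rki μ c₀ s k i = ρ at *
  generalize hhe : hwd μ c₀ i = h at *
  have hww : 0 < w := by omega
  have e1 : ρ * w ≤ 8 * w := by nlinarith
  have e2 : w ≤ ρ * w := by nlinarith
  have e3 : (2 * h + 1) * w ≤ μ * w := by nlinarith
  have e4 : 0 ≤ h * w := by positivity
  have e5 : w ≤ μ * w := by nlinarith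
  have e6 : 0 ≤ M * w := by positivity
  have e7 : M * w ≤ 2 * (M * (w - 1)) := by nlinarith
  have e8 : μ * w ≤ 2 * (μ * (w - 1)) := by nlinarith
  refine ⟨hs.1, hs.2, hd.1, hd.2, ?_, ?_, ?_, ?_, ?_, ?_, ?_, ?_, ?_, ?_, ?_, ?_, ?_, ?_⟩
  · simpa only [outP, hhe] using hh1
  · simp only [outP, hρe]; omega
  · simp only [outP, hρe]; omega
  · simp only [outP, hhe]; linarith [hw2]
  · simp only [outP]; exact le_refl _
  · simp only [outP, hhe, hρe]; linarith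
  · simp only [outP, hρe]; linarith
  · simp only [outP, hρe]; exact le_refl _
  · simp only [outP, hρe]; exact le_refl _
  · simp only [outP, hρe]; linarith
  · omega
  · simp only [outP, hρe]; rw [hN]; linarith
  · simp only [outP, hρe]; rw [hN]; linarith
  · simp only [outP, hρe]; rw [hN]; linarith

private theorem out_loc {w μ M R' : ℤ} (hw : w % 2 = 1) (hw5 : 5 ≤ w) (hM : 0 < M)
    (h1 : M * w + w / 2 + (μ + 10) * w ≤ R') {u x y : ℤ}
    (hx1 : (M + 1) * w - w / 2 ≤ x) (hx2 : x ≤ (M + μ + 8) * w + w / 2)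
    (hy : |y| ≤ (M + μ + 8) * w + w / 2) :
    M * w + w / 2 < nrm (rt u (x, y)) ∧ nrm (rt u (x, y)) ≤ R' := by
  have hw2 : 2 * (w / 2) = w - 1 := by omega
  have e6 : 0 ≤ M * w := by positivity
  rw [nrm_rt]
  simp only [nrm]
  have hxp : |x| = x := abs_of_nonneg (by linarith)
  rw [hxp]
  constructor
  · apply lt_max_of_lt_left; linarith
  · apply max_le <;> linarith

/-- LOCATION.  Landing block, strip, arc: `v = rt u (x, y)` with `(M + 1) w - w/2 ≤ x ≤ (M + μ + 8) w + w/2 ≤ R'` and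
`|y| ≤ m w + w/2` (`≤ R'` as well), `(M + 1) w - w/2 = M w + w/2 + 1`; `nrm v = max |x| |y|` (`nrm_rt`).  Final strip: `|y| ≤ w/2`,
`m w - w/2 ≤ x ≤ 2 R'`, `nrm v = x`; if `x > R'` then `v ∈ J d R'` because `w/2 ≤ R'/4` (`11 w ≤ R'`). -/
theorem out_reg {w μ M R' : ℤ} (hw : w % 2 = 1) (hw5 : 5 ≤ w) (hμ : μ % 2 = 1) (hμ0 : 0 < μ)
    {c₀ : Bool} {s k : Fin 4 → ℤ} (hl : Land μ M c₀ s k) (h1 : M * w + w / 2 + (μ + 10) * w ≤ R')
    (i : Fin 4) {v : Pt} (hv : v ∈ (outP w μ M R' c₀ s k i).reg w) :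
    M * w + w / 2 < nrm v ∧ nrm v ≤ 2 * R' ∧ (nrm v ≤ R' ∨ v ∈ J (tgt c₀ i) R') := by
  have hρ := rki_bd μ c₀ s k i
  have hh := hwd_bd hμ hμ0 c₀ i
  have hc := hl.cor i
  have hf0 := abs_nonneg (fpos μ c₀ k i)
  have hf1 := neg_abs_le (fpos μ c₀ k i)
  have hf2 := le_abs_self (fpos μ c₀ k i)
  have hw2 : 2 * (w / 2) = w - 1 := by omega
  have hM : 0 < M := by omega
  obtain ⟨hρ1, hρ2⟩ := hρ
  obtain ⟨hh1, hh2⟩ := hh
  simp only [Pth.reg, outP] at hv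
  generalize hρe : rki μ c₀ s k i = ρ at *
  generalize hhe : hwd μ c₀ i = h at *
  generalize hfe : fpos μ c₀ k i = f at *
  have hww : 0 < w := by omega
  have e1 : ρ * w ≤ 8 * w := by nlinarith
  have e2 : w ≤ ρ * w := by nlinarith
  have e3 : (2 * h + 1) * w ≤ μ * w := by nlinarith
  have e4 : 0 ≤ h * w := by positivity
  have e5 : w ≤ μ * w := by nlinarith
  have e6 : 0 ≤ M * w := by positivity
  have e7 : f * w ≤ (M - 2 * μ - 20) * w := by nlinarith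
  have e8 : -((M - 2 * μ - 20) * w) ≤ f * w := by nlinarith
  have hR0 : 0 ≤ R' := by linarith
  have e9 : 11 * w ≤ R' := by linarith
  have key : ∀ u x y : ℤ, (M + 1) * w - w / 2 ≤ x → x ≤ (M + μ + 8) * w + w / 2 →
      |y| ≤ (M + μ + 8) * w + w / 2 →
      M * w + w / 2 < nrm (rt u (x, y)) ∧ nrm (rt u (x, y)) ≤ 2 * R' ∧
        (nrm (rt u (x, y)) ≤ R' ∨ rt u (x, y) ∈ J (tgt c₀ i) R') := by
    intro u x y hx1 hx2 hy
    have := out_loc hw hw5 hM h1 hx1 hx2 hy (u := u)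
    exact ⟨this.1, by linarith [this.2], Or.inl this.2⟩
  rcases hv with ((hv | hv) | hv) | hv
  · obtain ⟨⟨x, y⟩, ⟨⟨hx1, hx2⟩, hy1, hy2⟩, rfl⟩ := hv
    simp only at hx1 hx2 hy1 hy2
    refine key _ _ _ hx1 (by linarith) (abs_le.2 ⟨by linarith, by linarith⟩)
  · obtain ⟨⟨x, y⟩, ⟨⟨hx1, hx2⟩, hy1, hy2⟩, rfl⟩ := hv
    simp only at hx1 hx2 hy1 hy2
    refine key _ _ _ hx1 (by linarith) (abs_le.2 ⟨by linarith, by linarith⟩)
  · obtain ⟨t, -, -, hv⟩ := hv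
    obtain ⟨⟨x, y⟩, ⟨⟨hx1, hx2⟩, hy1, hy2⟩, rfl⟩ := hv
    simp only at hx1 hx2 hy1 hy2
    have hlo : ∀ b q : ℤ, (q = f ∨ q = 0) → -((M + μ + ρ) * w) ≤ sgl (M + μ + ρ) b q t * w := by
      intro b q hq
      simp only [sgl]
      split_ifs
      · rcases hq with rfl | rfl <;> linarith
      · linarith
    have hup : ∀ b q : ℤ, (q = f ∨ q = 0) → sgu (M + μ + ρ) b q t * w ≤ (M + μ + ρ) * w := by
      intro b q hq
      simp only [sgu]
      split_ifs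
      · rcases hq with rfl | rfl <;> linarith
      · linarith
    have hy3 : -((M + μ + ρ) * w) - w / 2 ≤ y := by
      refine le_trans ?_ hy1
      have := hlo (Pth.ls (outP w μ M R' c₀ s k i)) (Pth.lk (outP w μ M R' c₀ s k i)) (by
        simp only [Pth.lk, outP, hfe]; split_ifs <;> simp)
      simp only [outP, hρe, hhe, hfe] at this
      linarith
    have hy4 : y ≤ (M + μ + ρ) * w + w / 2 := by
      refine le_trans hy2 ?_
      have := hup (Pth.us (outP w μ M R' c₀ s k i)) (Pth.uk (outP w μ M R' c₀ s k i)) (by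
        simp only [Pth.uk, outP, hfe]; split_ifs <;> simp)
      simp only [outP, hρe, hhe, hfe] at this
      linarith
    refine key _ _ _ (by linarith) (by linarith) (abs_le.2 ⟨by linarith, by linarith⟩)
  · obtain ⟨⟨x, y⟩, ⟨⟨hx1, hx2⟩, hy1, hy2⟩, rfl⟩ := hv
    simp only at hx1 hx2 hy1 hy2
    by_cases hxR : x ≤ R'
    · have hxn : nrm (rt (tgt c₀ i) (x, y)) ≤ R' := by
        rw [nrm_rt]; simp only [nrm]
        apply max_le
        · rw [abs_of_nonneg (by linarith)]; exact hxR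
        · rw [abs_le]; constructor <;> linarith
      refine ⟨?_, by linarith, Or.inl hxn⟩
      rw [nrm_rt]; simp only [nrm]
      apply lt_max_of_lt_left
      rw [abs_of_nonneg (by linarith)]; linarith
    · push Not at hxR
      refine ⟨?_, ?_, Or.inr ?_⟩
      · rw [nrm_rt]; simp only [nrm]
        apply lt_max_of_lt_left
        rw [abs_of_nonneg (by linarith)]; linarith
      · rw [nrm_rt]; simp only [nrm]
        apply max_le
        · rw [abs_of_nonneg (by linarith)]; exact hx2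
        · rw [abs_le]; constructor <;> linarith
      · refine ⟨(x, y), ⟨⟨by show R' + 1 ≤ x; omega, hx2⟩, ?_, ?_⟩, rfl⟩
        · show -(R' / 4) ≤ y
          have : w / 2 ≤ R' / 4 := by clear e1 e2 e3 e4 e5 e6 e7 e8 hx1; omega
          linarith
        · show y ≤ R' / 4
          have : w / 2 ≤ R' / 4 := by clear e1 e2 e3 e4 e5 e6 e7 e8 hx1; omega
          linarith

/-- the outer end of the final strip -/
theorem out_end {w R' d y : ℤ} (hw5 : 5 ≤ w) (hR : 11 * w ≤ R') (hy : |y| ≤ w / 2) :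
    rt d (2 * R', y) ∈ Je d R' := by
  have h := abs_le.1 hy
  have : w / 2 ≤ R' / 4 := by omega
  exact ⟨(2 * R', y), ⟨⟨le_refl _, le_refl _⟩, by show -(R' / 4) ≤ y; linarith [h.1],
    by show y ≤ R' / 4; linarith [h.2]⟩, rfl⟩

end SC

end

/-! ### from `Lib_MP_e0a489.XP16` -/

section

/-!
# MP_e0a489, exponents 16: a priori lower bound
-/

set_option autoImplicit false

namespace SC

variable [IfL]

namespace XP

open Classical

/-- Blocks of side `w = 2 r + 1`, `D = 2 ρ`, `r ≤ ρ`, `N = m D`, where `m` is so large that `1 / m ≤ (κ 2) ^ 2 / 4`.  `good_scale` gives `a`, `b`, the events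
`F = HX (a + D, b)`, `X = HX (a, b - D)`, `Q' = rectF (-a) a (-(b - D)) (b - D)`.  `M = 2 N / w + 1`, so that `bx (M w + r) ⊇ bx (2 N)`; `I` = the blocks `z`,
`nrm z ≤ M`, that meet `Q'`.  If `z ∈ I`, the centre `x = (z.1 w, z.2 w)` has `|x.1| ≤ a + r`, `|x.2| ≤ b - D + r`, so the box of radius `ρ ≤ D - r` around `x` lies in the
rectangle of `F`: `piv_bulk` (in both directions `F ω, ¬ F ω'` and `¬ F ω, F ω'`; `blk_bxAt`) shows that the hypothesis of `var_blocks` holds for `J z = L.TwoAt true x r ρ`.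
So `(κ 2) ^ 2 / 4 ≤ var_lb / 2 - 1 / m ≤ ∑_{z ∈ I} pr (L.TwoAt true x r ρ)`. -/
theorem apriori_sum {L : Lat} {κ : ℕ → ℝ} (h : RSW L κ) {m : ℕ} (hm : 1 ≤ m)
    (hm' : 1 / (m : ℝ) ≤ κ 2 ^ 2 / 4) {r ρ : ℤ} (hr : 1 ≤ r) (hρ : r < ρ) :
    κ 2 ^ 2 / 4 ≤ ∑ z ∈ rectF (-(2 * (2 * m * ρ) / (2 * r + 1) + 1))
        (2 * (2 * m * ρ) / (2 * r + 1) + 1) (-(2 * (2 * m * ρ) / (2 * r + 1) + 1))
        (2 * (2 * m * ρ) / (2 * r + 1) + 1),
      pr (L.TwoAt true (z.1 * (2 * r + 1), z.2 * (2 * r + 1)) r ρ) := by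
  set N : ℤ := 2 * m * ρ with hN
  set w : ℤ := 2 * r + 1 with hw
  have hm1 : (1 : ℤ) ≤ (m : ℤ) := by exact_mod_cast hm
  have hN4 : 4 ≤ N := by
    rw [hN]
    nlinarith
  obtain ⟨a, b, h1, h2, h3, h4, h5⟩ := good_scale L (N := N) (D := 2 * ρ) hm (by omega) (by omega)
    (by rw [hN]; nlinarith)
  have hX := var_lb h hN4 h1 (by omega : a ≤ 2 * N) h3 (by omega : b - 2 * ρ ≤ 2 * N)
  set M : ℤ := 2 * N / w + 1 with hM
  have hMw : 2 * N ≤ M * w + w / 2 := by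
    have e1 := Int.emod_add_mul_ediv (2 * N) w
    have e2 := Int.emod_lt_of_pos (2 * N) (by omega : 0 < w)
    have e3 : M * w = w * (2 * N / w) + w := by rw [hM]; ring
    omega
  have hQ : (rectF (-a) a (-(b - 2 * ρ)) (b - 2 * ρ)) ⊆
      rectF (-(a + 2 * ρ)) (a + 2 * ρ) (-b) b := by
    intro v hv
    rw [mem_rectF] at hv ⊢
    omega
  have hF : Dep (L.HX true (-(a + 2 * ρ)) (a + 2 * ρ) (-b) b)
      ((rectF (-(a + 2 * ρ)) (a + 2 * ρ) (-b) b : Finset Pt) : Set Pt) := by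
    rw [coe_rectF]
    exact Lat.HX.dep L true _ _ _ _
  have hXd : Dep (L.HX true (-a) a (-(b - 2 * ρ)) (b - 2 * ρ))
      ((rectF (-a) a (-(b - 2 * ρ)) (b - 2 * ρ) : Finset Pt) : Set Pt) := by
    rw [coe_rectF]
    exact Lat.HX.dep L true _ _ _ _
  have hblk : ∀ z v : Pt, v ∈ blkF w z ↔ nrm (v - (z.1 * w, z.2 * w)) ≤ r := by
    intro z v
    rw [← Finset.mem_coe, coe_blkF, hw, blk_bxAt]
    rfl
  obtain ⟨I, hI⟩ : ∃ I : Finset Pt, ∀ z, z ∈ I ↔ (z ∈ rectF (-M) M (-M) M ∧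
      ∃ v ∈ rectF (-a) a (-(b - 2 * ρ)) (b - 2 * ρ), v ∈ blkF w z) :=
    ⟨(rectF (-M) M (-M) M).filter
      (fun z => ∃ v ∈ rectF (-a) a (-(b - 2 * ρ)) (b - 2 * ρ), v ∈ blkF w z),
      fun z => by simp only [Finset.mem_filter]⟩
  have key := var_blocks hQ hF hXd h5 (ι := Pt) (I := I)
    (B := blkF w) (J := fun z => L.TwoAt true (z.1 * w, z.2 * w) r ρ)
    (fun v hv => by
      have hv' : v ∈ bx (M * w + w / 2) := by
        have hv2 := mem_rectF.1 hv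
        have e1 : |v.1| ≤ 2 * N := abs_le.2 ⟨by omega, by omega⟩
        have e2 : |v.2| ≤ 2 * N := abs_le.2 ⟨by omega, by omega⟩
        exact (max_le e1 e2).trans hMw
      obtain ⟨z, hz, hvz⟩ := exists_blk (by omega : w % 2 = 1) (by omega : 0 < w) hv'
      exact ⟨z, (hI z).2 ⟨mem_rectF_nrm.2 hz, v, hv, hvz⟩, hvz⟩)
    (fun z _ => twoAt_loc L true _ r ρ)
    (fun z hz ω ω' hag hJ => by
      obtain ⟨-, v, hv, hvz⟩ := (hI z).1 hz
      have hv2 := mem_rectF.1 hv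
      have hv3 := (hblk z v).1 hvz
      have e1 : |v.1 - z.1 * w| ≤ r := (le_max_left _ _).trans hv3
      have e2 : |v.2 - z.2 * w| ≤ r := (le_max_right _ _).trans hv3
      rw [abs_le] at e1 e2
      have hag' : ∀ u, r < nrm (u - (z.1 * w, z.2 * w)) → ω u = ω' u := by
        intro u hu
        apply hag
        rw [hblk]
        omega
      by_contra hcon
      apply hJ
      by_cases hFω : L.HX true (-(a + 2 * ρ)) (a + 2 * ρ) (-b) b ω
      · have hFω' : ¬ L.HX true (-(a + 2 * ρ)) (a + 2 * ρ) (-b) b ω' := by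
          intro hh
          exact hcon ⟨fun _ => hh, fun _ => hFω⟩
        exact (piv_bulk (x := (z.1 * w, z.2 * w)) (by omega) hρ (by simp only; omega)
          (by simp only; omega) (by simp only; omega) (by simp only; omega) hag' hFω hFω' true).1
      · have hFω' : L.HX true (-(a + 2 * ρ)) (a + 2 * ρ) (-b) b ω' := by
          by_contra hh
          exact hcon ⟨fun h => absurd h hFω, fun h => absurd h hh⟩
        exact (piv_bulk (x := (z.1 * w, z.2 * w)) (by omega) hρ (by simp only; omega)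
          (by simp only; omega) (by simp only; omega) (by simp only; omega)
          (fun u hu => (hag' u hu).symm) hFω' hFω true).2)
  have hle : ∑ z ∈ I, pr (L.TwoAt true (z.1 * w, z.2 * w) r ρ) ≤
      ∑ z ∈ rectF (-M) M (-M) M, pr (L.TwoAt true (z.1 * w, z.2 * w) r ρ) :=
    Finset.sum_le_sum_of_subset_of_nonneg (fun z hz => ((hI z).1 hz).1)
      (fun z _ _ => pr_nonneg _)
  refine le_trans ?_ (key.trans hle)
  linarith

/-- A PRIORI BOUND.  `R = r`: `al = 1`.  For `r < R` apply `apriori_sum` with `ρ = R + r ≤ 2 R` and `m ≥ 4 / (κ 2) ^ 2`: every term is at most `C₁ al L r R` (`AlProps.cmp`: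
`R ≤ 4 ρ`), the number of terms is `(2 M + 1) ^ 2` (`card_rectF`) with `M = 4 m ρ / (2 r + 1) + 1 ≤ 4 m R / r + 1 ≤ 5 m R / r`. -/
theorem apriori (κ : ℕ → ℝ) : ∃ (C : ℝ) (R₀ : ℤ), 0 < C ∧ 16 ≤ R₀ ∧ ∀ L : Lat, Fam L κ →
    ∀ r R : ℤ, R₀ ≤ r → r ≤ R → ((r : ℝ) / R) ^ 2 ≤ C * al L r R := by
  obtain ⟨C₁, R₁, hA⟩ := al_props κ
  obtain ⟨m, hm⟩ := exists_nat_ge (4 / κ 2 ^ 2)
  have hC1 : (1 : ℝ) ≤ max C₁ 1 := le_max_right _ _
  have hCp : (0 : ℝ) < max C₁ 1 := by linarith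
  have hm2 : (0 : ℝ) ≤ 196 * ((m : ℝ) + 1) ^ 2 := mul_nonneg (by norm_num) (sq_nonneg _)
  have hC0 : 0 ≤ 196 * ((m : ℝ) + 1) ^ 2 * max C₁ 1 / κ 2 ^ 2 :=
    div_nonneg (mul_nonneg hm2 hCp.le) (sq_nonneg _)
  refine ⟨196 * ((m : ℝ) + 1) ^ 2 * max C₁ 1 / κ 2 ^ 2 + 1, max R₁ 16, by linarith,
    le_max_right _ _, fun L hL r R hr hrR => ?_⟩
  have hr1 : R₁ ≤ r := (le_max_left _ _).trans hr
  have hr16 : 16 ≤ r := (le_max_right _ _).trans hr
  have hr0 : (0 : ℝ) < r := by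
    have : (0 : ℤ) < r := by omega
    exact_mod_cast this
  have hrR' : (r : ℝ) ≤ R := by exact_mod_cast hrR
  have hR0 : (0 : ℝ) < R := hr0.trans_le hrR'
  have hk : 0 < κ 2 := hL.rsw.pos 2
  rcases hrR.eq_or_lt with rfl | hlt
  · have e1 : al L r r = 1 := by
      unfold al
      rw [if_neg (lt_irrefl r)]
    rw [e1, div_self hr0.ne', mul_one]
    linarith
  · have hA' := hA L hL
    have hm1 : 1 / ((m + 1 : ℕ) : ℝ) ≤ κ 2 ^ 2 / 4 := by
      rw [div_le_iff₀ (by positivity), Nat.cast_add, Nat.cast_one]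
      rw [div_le_iff₀ (by positivity)] at hm
      nlinarith [sq_nonneg (κ 2)]
    have key := apriori_sum hL.rsw (m := m + 1) (by omega) hm1 (r := r) (ρ := R) (by omega) hlt
    set M : ℤ := 2 * (2 * ((m + 1 : ℕ) : ℤ) * R) / (2 * r + 1) + 1 with hM
    have hq0 : 0 ≤ 2 * (2 * ((m + 1 : ℕ) : ℤ) * R) / (2 * r + 1) :=
      Int.ediv_nonneg (mul_nonneg (by norm_num) (mul_nonneg (by positivity) (by omega))) (by omega)
    have hM0 : 0 ≤ M := by omega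
    have hterm : ∀ z ∈ rectF (-M) M (-M) M,
        pr (L.TwoAt true (z.1 * (2 * r + 1), z.2 * (2 * r + 1)) r R) ≤ max C₁ 1 * al L r R := by
      intro z _
      refine (hA'.cmp true _ r R r R hr1 hr1 hrR (by omega) hrR (by omega)).trans ?_
      exact mul_le_mul_of_nonneg_right (le_max_left _ _) (hA'.pos r R hr1 hrR).le
    have hsum := key.trans (Finset.sum_le_card_nsmul _ _ _ hterm)
    rw [nsmul_eq_mul, card_rectF hM0] at hsum
    have hal : 0 < al L r R := hA'.pos r R hr1 hrR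
    have hMr : (2 * (M : ℝ) + 1) * r ≤ 7 * ((m : ℝ) + 1) * R := by
      have e1 : 2 * (2 * ((m + 1 : ℕ) : ℤ) * R) / (2 * r + 1) * (2 * r + 1) ≤
          2 * (2 * ((m + 1 : ℕ) : ℤ) * R) := Int.ediv_mul_le _ (by omega)
      have e2 : (2 * M + 1) * r ≤ 7 * ((m + 1 : ℕ) : ℤ) * R := by
        have e3 : R ≤ ((m + 1 : ℕ) : ℤ) * R := by
          have : (1 : ℤ) ≤ ((m + 1 : ℕ) : ℤ) := by exact_mod_cast Nat.succ_le_succ (Nat.zero_le m)
          nlinarith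
        have e4 : (2 * M + 1) * r = 2 * (2 * (2 * ((m + 1 : ℕ) : ℤ) * R) / (2 * r + 1) * r) + 3 * r := by
          rw [hM]
          ring
        have e5 : 2 * (2 * (2 * ((m + 1 : ℕ) : ℤ) * R) / (2 * r + 1) * r) ≤
            2 * (2 * ((m + 1 : ℕ) : ℤ) * R) := by nlinarith
        rw [e4]
        nlinarith
      exact_mod_cast e2
    have hMr2 : (2 * (M : ℝ) + 1) ^ 2 * r ^ 2 ≤ 49 * ((m : ℝ) + 1) ^ 2 * R ^ 2 := by
      have hMp : 0 ≤ (2 * (M : ℝ) + 1) * r := by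
        have : (0 : ℝ) ≤ M := by exact_mod_cast hM0
        positivity
      have := pow_le_pow_left₀ hMp hMr 2
      calc (2 * (M : ℝ) + 1) ^ 2 * r ^ 2 = ((2 * (M : ℝ) + 1) * r) ^ 2 := by ring
        _ ≤ (7 * ((m : ℝ) + 1) * R) ^ 2 := this
        _ = _ := by ring
    have hfin : κ 2 ^ 2 * r ^ 2 ≤ 196 * ((m : ℝ) + 1) ^ 2 * max C₁ 1 * al L r R * R ^ 2 := by
      have hp : 0 ≤ max C₁ 1 * al L r R := mul_nonneg hCp.le hal.le
      have e1 : κ 2 ^ 2 / 4 * r ^ 2 ≤ (2 * (M : ℝ) + 1) ^ 2 * (max C₁ 1 * al L r R) * r ^ 2 :=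
        mul_le_mul_of_nonneg_right hsum (by positivity)
      have e2 := mul_le_mul_of_nonneg_right hMr2 hp
      nlinarith
    rw [div_pow, div_le_iff₀ (by positivity)]
    have e3 : (r : ℝ) ^ 2 ≤ 196 * ((m : ℝ) + 1) ^ 2 * max C₁ 1 / κ 2 ^ 2 * al L r R * R ^ 2 := by
      have e4 : 196 * ((m : ℝ) + 1) ^ 2 * max C₁ 1 / κ 2 ^ 2 * al L r R * R ^ 2 =
          196 * ((m : ℝ) + 1) ^ 2 * max C₁ 1 * al L r R * R ^ 2 / κ 2 ^ 2 := by ring
      rw [e4, le_div_iff₀ (by positivity)]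
      linarith
    have e5 : 0 ≤ al L r R * (R : ℝ) ^ 2 := by positivity
    nlinarith

end XP

end SC

end

/-! ### from `Lib_MP_e0a489.TTH4` -/

section

/-!
# MP_e0a489, module TTH 4: static bounds
-/

set_option autoImplicit false

namespace SC

variable [IfL]

open Classical

private theorem tth4_one {L : Lat} {r R : ℤ} (h : R ≤ r) : al L r R = 1 := by
  unfold al
  rw [if_neg (not_lt.2 h)]

private theorem tth4_nn {L : Lat} {C : ℝ} {R₀ : ℤ} (h : AlProps L C R₀) {r R : ℤ} (hr : R₀ ≤ r) :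
    0 ≤ al L r R := by
  by_cases hrR : r ≤ R
  · exact (h.pos r R hr hrR).le
  · rw [tth4_one (by linarith)]
    exact zero_le_one

private theorem tth4_up {L : Lat} {C C' : ℝ} {R₀ R₀' : ℤ} (h : AlProps L C R₀) (hC : C ≤ C')
    (hR : R₀ ≤ R₀') : AlProps L C' R₀' where
  C1 := h.C1.trans hC
  R16 := h.R16.trans hR
  pos := fun r R h1 h2 => h.pos r R (hR.trans h1) h2
  le1 := h.le1
  mono := h.mono
  cmp := fun c x r R r' R' h1 h2 h3 h4 h5 h6 =>
    (h.cmp c x r R r' R' (hR.trans h1) (hR.trans h2) h3 h4 h5 h6).trans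
      (mul_le_mul_of_nonneg_right hC (h.pos r' R' (hR.trans h2) h5).le)
  qmult := fun r ρ R h1 h2 h3 =>
    (h.qmult r ρ R (hR.trans h1) h2 h3).trans
      (mul_le_mul_of_nonneg_right hC (h.pos r R (hR.trans h1) (h2.trans h3)).le)

private theorem tth4_pow {y q : ℝ} (hy : 0 < y) (hq : 0 ≤ q) (h : 1 ≤ y * q ^ 4) :
    y ^ ((3 : ℝ) / 4) ≤ y * q := by
  have hs : 0 < y ^ ((1 : ℝ) / 4) := Real.rpow_pos_of_pos hy _
  have e4 : (y ^ ((1 : ℝ) / 4)) ^ 4 = y := by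
    rw [← Real.rpow_natCast, ← Real.rpow_mul hy.le]
    norm_num
  have e3 : (y ^ ((1 : ℝ) / 4)) ^ 3 = y ^ ((3 : ℝ) / 4) := by
    rw [← Real.rpow_natCast, ← Real.rpow_mul hy.le]
    norm_num
  generalize y ^ ((1 : ℝ) / 4) = s at hs e4 e3
  rw [← e3]
  have h1 : 1 ≤ s * q := by
    by_contra hn
    have hn' : s * q < 1 := not_le.1 hn
    have h2 : (s * q) ^ 4 < 1 := pow_lt_one₀ (mul_nonneg hs.le hq) hn' (by norm_num)
    have h3 : (s * q) ^ 4 = y * q ^ 4 := by rw [mul_pow, e4]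
    linarith
  calc s ^ 3 = s ^ 3 * 1 := by ring
    _ ≤ s ^ 3 * (s * q) := mul_le_mul_of_nonneg_left h1 (by positivity)
    _ = s ^ 4 * q := by ring
    _ = y * q := by rw [e4]

/-- `al_props κ`, `XP.apriori κ`, `half_le κ`, `quart_le κ`: maximum of the constants and of the radii.  (`AlProps L C R₀` remains true for larger `C` and
larger `R₀`; write a small lemma.) -/
theorem hprops (κ : ℕ → ℝ) : ∃ (C : ℝ) (R₁ : ℤ), 1 ≤ C ∧ 16 ≤ R₁ ∧ ∀ L : Lat, Fam L κ →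
    ∀ R₀ : ℤ, R₁ ≤ R₀ → HProps L C R₀ := by
  obtain ⟨C1, r1, h1⟩ := al_props κ
  obtain ⟨C2, r2, hC2, hr2, h2⟩ := XP.apriori κ
  obtain ⟨C3, r3, hC3, hr3, h3⟩ := half_le κ
  obtain ⟨C4, r4, hC4, hr4, h4⟩ := quart_le κ
  refine ⟨max 1 (max (max C1 C2) (max C3 C4)), max 16 (max (max r1 r2) (max r3 r4)),
    le_max_left _ _, le_max_left _ _, ?_⟩
  intro L hL R₀ hR₀
  have c1 : C1 ≤ max 1 (max (max C1 C2) (max C3 C4)) :=
    ((le_max_left _ _).trans (le_max_left _ _)).trans (le_max_right _ _)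
  have c2 : C2 ≤ max 1 (max (max C1 C2) (max C3 C4)) :=
    ((le_max_right _ _).trans (le_max_left _ _)).trans (le_max_right _ _)
  have c3 : C3 ≤ max 1 (max (max C1 C2) (max C3 C4)) :=
    ((le_max_left _ _).trans (le_max_right _ _)).trans (le_max_right _ _)
  have c4 : C4 ≤ max 1 (max (max C1 C2) (max C3 C4)) :=
    ((le_max_right _ _).trans (le_max_right _ _)).trans (le_max_right _ _)
  have q1 : r1 ≤ R₀ :=
    (((le_max_left _ _).trans (le_max_left _ _)).trans (le_max_right _ _)).trans hR₀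
  have q2 : r2 ≤ R₀ :=
    (((le_max_right _ _).trans (le_max_left _ _)).trans (le_max_right _ _)).trans hR₀
  have q3 : r3 ≤ R₀ :=
    (((le_max_left _ _).trans (le_max_right _ _)).trans (le_max_right _ _)).trans hR₀
  have q4 : r4 ≤ R₀ :=
    (((le_max_right _ _).trans (le_max_right _ _)).trans (le_max_right _ _)).trans hR₀
  generalize max 1 (max (max C1 C2) (max C3 C4)) = C at c1 c2 c3 c4 ⊢
  have ha := tth4_up (h1 L hL) c1 q1
  refine ⟨ha, ?_, ?_, ?_⟩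
  · intro r R e1 e2
    exact (h2 L hL r R (q2.trans e1) e2).trans
      (mul_le_mul_of_nonneg_right c2 (ha.pos r R e1 e2).le)
  · intro s x c H r R hH e1 e2
    exact (h3 L hL s x c H r R hH (q3.trans e1) e2).trans
      (mul_le_mul_of_nonneg_right c3 (Real.rpow_nonneg (ha.pos r R e1 e2).le _))
  · intro s x H r R hH e1 e2
    exact (h4 L hL s x H r R hH (q4.trans e1) e2).trans
      (mul_le_mul_of_nonneg_right c4 (Real.rpow_nonneg (ha.pos r R e1 e2).le _))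

namespace HProps

variable {L : Lat} {C : ℝ} {R₀ : ℤ}

/-- `R < r` or `R = r`: `al = 1`.  Otherwise `low` with `r / R ≥ 1 / 64`. -/
theorem small (h : HProps L C R₀) {r R : ℤ} (hr : R₀ ≤ r) (hR : R ≤ 64 * r) :
    1 ≤ 4096 * C * al L r R := by
  have hC1 := h.ap.C1
  by_cases hrR : R ≤ r
  · rw [tth4_one hrR]
    linarith
  · have hrR' : r ≤ R := by linarith
    have hr16 := h.ap.R16
    have h1 := h.low r R hr hrR'
    have hr0 : (0 : ℝ) < r := by exact_mod_cast (by linarith : 0 < r)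
    have hR0 : (0 : ℝ) < R := by exact_mod_cast (by linarith : 0 < R)
    have hR64 : (R : ℝ) ≤ 64 * r := by exact_mod_cast hR
    have h2 : (1 : ℝ) / 64 ≤ (r : ℝ) / R := by
      rw [div_le_div_iff₀ (by norm_num) hR0]
      linarith
    have h3 : ((1 : ℝ) / 64) ^ 2 ≤ ((r : ℝ) / R) ^ 2 := pow_le_pow_left₀ (by norm_num) h2 2
    have h4 : ((1 : ℝ) / 64) ^ 2 = 1 / 4096 := by norm_num
    rw [h4] at h3
    linarith

/-- Inner radius.  If `R < r'` the right side is `4096 C al L r' R`, `al L r' R = 1 ≥ al L r R`.  If `r' ≤ R < r` or `R = r`: `small` for `r'` (`R ≤ r ≤ 2 r'`).  If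
`r < R` and `r' ≤ R`: `al L r R = pr (TwoA true r R) = pr (TwoAt true 0 r R)` (`TwoAt_zero`) and `AlProps.cmp` with `R' = R`. -/
theorem inn (h : HProps L C R₀) {r r' R : ℤ} (hr : R₀ ≤ r) (hr' : R₀ ≤ r') (h2 : r ≤ 2 * r') :
    al L r R ≤ 4096 * C * al L r' R := by
  have hC1 := h.ap.C1
  have hr16 := h.ap.R16
  by_cases h3 : R ≤ r'
  · rw [tth4_one h3]
    have := h.ap.le1 r R
    linarith
  · by_cases h4 : R ≤ r
    · exact (h.ap.le1 r R).trans (h.small hr' (by linarith))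
    · have h5 : al L r R = pr (L.TwoAt true 0 r R) := by
        unfold al
        rw [if_pos (by linarith), XP.twoAt_zero]
      have h6 := h.ap.cmp true 0 r R r' R hr hr' (by linarith) h2 (by linarith) (by linarith)
      rw [← h5] at h6
      have h7 := tth4_nn h.ap (R := R) hr'
      nlinarith

/-- Outer radius.  If `R' < r`: `al L r R' = 1`.  If `r ≤ R'` and `R ≤ r`: `R' ≤ 4 r`, `small`.  If `r < R`, `r ≤ R'`: `AlProps.cmp`. -/
theorem out (h : HProps L C R₀) {r R R' : ℤ} (hr : R₀ ≤ r) (h4 : R' ≤ 4 * R) :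
    al L r R ≤ 4096 * C * al L r R' := by
  have hC1 := h.ap.C1
  have hr16 := h.ap.R16
  by_cases h3 : R' ≤ r
  · rw [tth4_one h3]
    have := h.ap.le1 r R
    linarith
  · by_cases h4' : R ≤ r
    · exact (h.ap.le1 r R).trans (h.small hr (by linarith))
    · have h5 : al L r R = pr (L.TwoAt true 0 r R) := by
        unfold al
        rw [if_pos (by linarith), XP.twoAt_zero]
      have h6 := h.ap.cmp true 0 r R r R' hr hr (by linarith) (by linarith) (by linarith) h4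
      rw [← h5] at h6
      have h7 := tth4_nn h.ap (R := R') hr
      nlinarith

/-- `inn` three times (`8 ρ`, `4 ρ`, `2 ρ`, `ρ`) and `AlProps.qmult` -/
theorem qm8 (h : HProps L C R₀) {r ρ R : ℤ} (hr : R₀ ≤ r) (h1 : r ≤ ρ) (h2 : ρ ≤ R) :
    al L r ρ * al L (8 * ρ) R ≤ (4096 * C) ^ 4 * al L r R := by
  have hC1 := h.ap.C1
  have hr16 := h.ap.R16
  have e1 := h.inn (r := 8 * ρ) (r' := 4 * ρ) (R := R) (by linarith) (by linarith) (by linarith)
  have e2 := h.inn (r := 4 * ρ) (r' := 2 * ρ) (R := R) (by linarith) (by linarith) (by linarith)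
  have e3 := h.inn (r := 2 * ρ) (r' := ρ) (R := R) (by linarith) (by linarith) (by linarith)
  have e4 := h.ap.qmult r ρ R hr h1 h2
  have n1 := tth4_nn h.ap (R := ρ) hr
  have n2 := tth4_nn h.ap (R := R) hr
  have hK : 0 ≤ 4096 * C := by linarith
  have e5 : al L (8 * ρ) R ≤ (4096 * C) ^ 3 * al L ρ R := by
    calc al L (8 * ρ) R ≤ 4096 * C * al L (4 * ρ) R := e1
      _ ≤ 4096 * C * (4096 * C * al L (2 * ρ) R) := mul_le_mul_of_nonneg_left e2 hK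
      _ ≤ 4096 * C * (4096 * C * (4096 * C * al L ρ R)) :=
          mul_le_mul_of_nonneg_left (mul_le_mul_of_nonneg_left e3 hK) hK
      _ = _ := by ring
  calc al L r ρ * al L (8 * ρ) R ≤ al L r ρ * ((4096 * C) ^ 3 * al L ρ R) :=
        mul_le_mul_of_nonneg_left e5 n1
    _ = (4096 * C) ^ 3 * (al L r ρ * al L ρ R) := by ring
    _ ≤ (4096 * C) ^ 3 * (C * al L r R) := mul_le_mul_of_nonneg_left e4 (by positivity)
    _ ≤ (4096 * C) ^ 3 * (4096 * C * al L r R) := by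
        refine mul_le_mul_of_nonneg_left (mul_le_mul_of_nonneg_right ?_ n2) (by positivity)
        linarith
    _ = _ := by ring

/-- `inn` twice (`4 r`, `2 r`, `r`), `out` twice (`R / 4`, `4 (R / 4)`, `R`) -/
theorem quarter (h : HProps L C R₀) {r R : ℤ} (hr : R₀ ≤ r) (h1 : 64 * r < R) :
    al L (4 * r) (R / 4) ≤ (4096 * C) ^ 4 * al L r R := by
  have hC1 := h.ap.C1
  have hr16 := h.ap.R16
  have e1 := h.inn (r := 4 * r) (r' := 2 * r) (R := R / 4) (by linarith) (by linarith) (by linarith)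
  have e2 := h.inn (r := 2 * r) (r' := r) (R := R / 4) (by linarith) (by linarith) (by linarith)
  have e3 := h.out (r := r) (R := R / 4) (R' := 4 * (R / 4)) hr (le_refl _)
  have e4 := h.out (r := r) (R := 4 * (R / 4)) (R' := R) hr (by omega)
  have hK : 0 ≤ 4096 * C := by linarith
  calc al L (4 * r) (R / 4) ≤ 4096 * C * al L (2 * r) (R / 4) := e1
    _ ≤ 4096 * C * (4096 * C * al L r (R / 4)) := mul_le_mul_of_nonneg_left e2 hK
    _ ≤ 4096 * C * (4096 * C * (4096 * C * al L r (4 * (R / 4)))) :=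
        mul_le_mul_of_nonneg_left (mul_le_mul_of_nonneg_left e3 hK) hK
    _ ≤ 4096 * C * (4096 * C * (4096 * C * (4096 * C * al L r R))) :=
        mul_le_mul_of_nonneg_left (mul_le_mul_of_nonneg_left
          (mul_le_mul_of_nonneg_left e4 hK) hK) hK
    _ = _ := by ring

/-- PRODUCT.  `u = max h R₀`, `m₀ = max (2 h) R₀ ≤ 2 u`.  `al L m₀ ℓ ≤ K al L u ℓ` (`inn`, `K = 4096 C`), `al L R₀ u * al L u ℓ ≤ C al L R₀ ℓ` (`qmult`; `u ≤ ℓ`),
and `(u / ℓ) ^ 2 ≤ C al L u ℓ` (`low`), so `(al L u ℓ) ^ (-1/4) ≤ C ^ (1/4) (ℓ / u) ^ (1/2)`.  Hence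
`al L R₀ u (al L m₀ ℓ) ^ (3/4) ≤ K ^ (3/4) al L R₀ u al L u ℓ (al L u ℓ) ^ (-1/4) ≤ K ^ (3/4) C C ^ (1/4) al L R₀ ℓ (ℓ / u) ^ (1/2)`, and `K ^ (3/4) C ^ (1/4) ≤ K`. -/
theorem prod (h : HProps L C R₀) {k ℓ : ℤ} (hk : 0 ≤ k) (hkl : 2 * k < ℓ) (hℓ : R₀ ≤ ℓ) :
    al L R₀ (max k R₀) * (al L (max (2 * k) R₀) ℓ) ^ ((3 : ℝ) / 4) ≤
      4096 * C ^ 2 * (al L R₀ ℓ * ((ℓ : ℝ) / (max k R₀ : ℤ)) ^ ((1 : ℝ) / 2)) := by
  have hC1 := h.ap.C1
  have hr16 := h.ap.R16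
  have hu0 : R₀ ≤ max k R₀ := le_max_right _ _
  have huℓ : max k R₀ ≤ ℓ := max_le (by linarith) hℓ
  have hm0 : R₀ ≤ max (2 * k) R₀ := le_max_right _ _
  have hmu : max (2 * k) R₀ ≤ 2 * max k R₀ := by omega
  have e1 := h.inn (R := ℓ) hm0 hu0 hmu
  have e2 := h.low (max k R₀) ℓ hu0 huℓ
  have e3 := h.ap.qmult R₀ (max k R₀) ℓ (le_refl _) hu0 huℓ
  have ha := h.ap.pos (max k R₀) ℓ hu0 huℓ
  have hb := tth4_nn h.ap (R := ℓ) hm0
  have hc := tth4_nn h.ap (R := max k R₀) (le_refl R₀)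
  have hu : (0 : ℝ) < ((max k R₀ : ℤ) : ℝ) := by
    exact_mod_cast (by linarith : 0 < max k R₀)
  have hl : (0 : ℝ) < (ℓ : ℝ) := by exact_mod_cast (by linarith : 0 < ℓ)
  generalize al L (max (2 * k) R₀) ℓ = b at e1 hb ⊢
  generalize al L (max k R₀) ℓ = a at e1 e2 e3 ha ⊢
  generalize al L R₀ (max k R₀) = d at e3 hc ⊢
  generalize al L R₀ ℓ = f at e3 ⊢
  generalize ((max k R₀ : ℤ) : ℝ) = u at e2 hu ⊢
  generalize (ℓ : ℝ) = l at e2 hl ⊢
  have hq : 0 ≤ (l / u) ^ ((1 : ℝ) / 2) := Real.rpow_nonneg (by positivity) _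
  have hq4 : ((l / u) ^ ((1 : ℝ) / 2)) ^ 4 = (l / u) ^ 2 := by
    rw [← Real.rpow_natCast, ← Real.rpow_mul (by positivity)]
    norm_num
  generalize (l / u) ^ ((1 : ℝ) / 2) = q at hq hq4 ⊢
  have hy : 0 < 4096 * C * a := by positivity
  have h1 : 1 ≤ 4096 * C * a * q ^ 4 := by
    rw [hq4]
    have h2 : (u / l) ^ 2 * (l / u) ^ 2 = 1 := by
      field_simp
    have h3 : (u / l) ^ 2 * (l / u) ^ 2 ≤ 4096 * C * a * (l / u) ^ 2 := by
      refine mul_le_mul_of_nonneg_right ?_ (by positivity)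
      nlinarith
    linarith
  have h2 := tth4_pow hy hq h1
  have h3 : b ^ ((3 : ℝ) / 4) ≤ (4096 * C * a) ^ ((3 : ℝ) / 4) :=
    Real.rpow_le_rpow hb e1 (by norm_num)
  calc d * b ^ ((3 : ℝ) / 4) ≤ d * (4096 * C * a * q) :=
        mul_le_mul_of_nonneg_left (h3.trans h2) hc
    _ = 4096 * C * q * (d * a) := by ring
    _ ≤ 4096 * C * q * (C * f) := mul_le_mul_of_nonneg_left e3 (by positivity)
    _ = _ := by ring

end HProps

end SC

end

/-! ### from `Lib_MP_e0a489.TTH5` -/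

section

/-!
# MP_e0a489, module TTH 5: bounds for the factors of the local event
-/

set_option autoImplicit false

namespace SC

variable [IfL]

open Classical

variable {L : Lat} {C : ℝ} {R₀ : ℤ}

private theorem tth5_kap {t : ℝ} (ht : 0 ≤ t) : Kap (kt t) := by
  intro v
  exact ⟨(Real.exp_pos _).le, Real.exp_le_one_iff.2 (by linarith)⟩

private theorem tth5_locH (L : Lat) (b : Bool) (H : Set Pt) (r R : ℤ) :
    Loc (L.TwoH b H r R) := by
  refine XP.loc_of_dep (D := ann r R ∩ H) ?_ (Lat.Two.dep L b _ _ _)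
  refine (XP.annAt_finite 0 r R).subset ?_
  rintro v ⟨⟨h1, h2⟩, _⟩
  refine ⟨?_, ?_⟩ <;> simpa using ‹_›

private theorem tth5_al0 (h : HProps L C R₀) {R : ℤ} (hR : R₀ ≤ R) : 0 < al L R₀ R :=
  h.ap.pos _ _ le_rfl hR

private theorem tth5_ratio {ℓ m : ℤ} {e : ℝ} (hm : 0 < m) (h : m ≤ ℓ) (he : 0 ≤ e) :
    1 ≤ ((ℓ : ℝ) / m) ^ e := by
  apply Real.one_le_rpow _ he
  have : (0 : ℝ) < m := by exact_mod_cast hm
  rw [one_le_div this]
  exact_mod_cast h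

/-- `Beyond` implies `0 < s` (`ℓ ^ 2 al ≥ 0`). -/
theorem Beyond.pos {ℓ : ℤ} {s : ℝ} (h : Beyond L R₀ ℓ s) (hal : 0 ≤ al L R₀ ℓ) : 0 < s := by
  unfold Beyond at h
  by_contra hcon
  have h1 : s ≤ 0 := not_lt.1 hcon
  have h2 : 0 ≤ (ℓ : ℝ) ^ 2 * al L R₀ ℓ := by positivity
  nlinarith [mul_nonpos_of_nonpos_of_nonneg h1 h2]

/-- BULK FACTOR, STATIC.  If `R₀ < k - 1`: `pr2 ≤ pr` (`pr2_le_pr`) and `AlProps.cmp` with `r = r' = R₀`, `R = k - 1`, `R' = k ≤ 4 (k - 1)`.  Otherwise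
`max k R₀ ≤ R₀ + 1` and `HProps.small`. -/
theorem atF_static (h : HProps L C R₀) (hR : 16 ≤ R₀) {s : ℝ} (hs : 0 ≤ s) (b : Bool) (y : Pt)
    (k : ℤ) : atF L s b y R₀ (k - 1) ≤ 4096 * C * al L R₀ (max k R₀) := by
  have hC := h.ap.C1
  unfold atF
  split_ifs with hk
  · have h1 : pr2 (kt s) (L.TwoAt b y R₀ (k - 1)) ≤ pr (L.TwoAt b y R₀ (k - 1)) :=
      pr2_le_pr (TwoAt_loc _ _ _ _ _) (tth5_kap hs)
    have h2 := h.ap.cmp b y R₀ (k - 1) R₀ k le_rfl le_rfl hk.le (by omega) (by omega) (by omega)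
    have h3 : max k R₀ = k := max_eq_left (by omega)
    rw [h3]
    have h4 := tth5_al0 h (R := k) (by omega)
    have h5 : 0 ≤ C * al L R₀ k := by positivity
    linarith
  · exact h.small le_rfl (by rcases le_total k R₀ with h' | h'
                             · rw [max_eq_right h']; omega
                             · rw [max_eq_left h']; omega)

/-- BULK FACTOR beyond the correlation length, for every radius `m` with `ℓ ≤ 4 m` and `16 ≤ m` (the `4` allows `m = k - 1`, `2 k ≥ ℓ`).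
If `ℓ ≤ m`: `LBKOK` (if `R₀ < m`; if `m = ℓ = R₀` then `atF = 1 = al L R₀ ℓ` and the ratio is `1`).
If `m < ℓ` and `R₀ < m`: `pr2 ≤ pr ≤ C al L R₀ ℓ` (`cmp` with `R' = ℓ ≤ 4 m`) and `(ℓ / m) ^ (2 + c) ≥ 1`.
If `m < ℓ`, `m ≤ R₀`: `atF = 1 ≤ 4096 C al L R₀ ℓ` (`small`, `ℓ ≤ 4 m ≤ 4 R₀`) and `(ℓ / m) ^ (2 + c) ≥ 1`. -/
theorem atF_beyond (h : HProps L C R₀) {Cb c : ℝ} (hb : LBKOK L Cb c R₀) (hc : 0 < c)
    (hCb : 0 ≤ Cb) {ℓ m : ℤ} {s : ℝ} (hℓ : R₀ ≤ ℓ) (hB : Beyond L R₀ ℓ s) (b : Bool) (y : Pt)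
    (hm : ℓ ≤ 4 * m) (hm1 : 1 ≤ m) :
    atF L s b y R₀ m ≤ (Cb + 4096 * C) * (al L R₀ ℓ * ((ℓ : ℝ) / m) ^ (2 + c)) := by
  have hC := h.ap.C1
  have hR : (16 : ℤ) ≤ R₀ := h.ap.R16
  have hal := tth5_al0 h hℓ
  have hs := Beyond.pos hB hal.le
  have hm0 : (0 : ℝ) < m := by
    have : (0 : ℤ) < m := by omega
    exact_mod_cast this
  have hl0 : (0 : ℝ) < ℓ := by
    have : (0 : ℤ) < ℓ := by omega
    exact_mod_cast this
  have hrat : 0 ≤ ((ℓ : ℝ) / m) ^ (2 + c) := by positivity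
  have hX : 0 ≤ al L R₀ ℓ * ((ℓ : ℝ) / m) ^ (2 + c) := by positivity
  have hCX : 0 ≤ C * (al L R₀ ℓ * ((ℓ : ℝ) / m) ^ (2 + c)) := by positivity
  have hCbX : 0 ≤ Cb * (al L R₀ ℓ * ((ℓ : ℝ) / m) ^ (2 + c)) := by positivity
  -- it suffices to bound by one of the two parts
  have key1 : ∀ z : ℝ, z ≤ Cb * (al L R₀ ℓ * ((ℓ : ℝ) / m) ^ (2 + c)) →
      z ≤ (Cb + 4096 * C) * (al L R₀ ℓ * ((ℓ : ℝ) / m) ^ (2 + c)) := by
    intro z hz
    calc z ≤ Cb * (al L R₀ ℓ * ((ℓ : ℝ) / m) ^ (2 + c)) := hz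
      _ ≤ Cb * (al L R₀ ℓ * ((ℓ : ℝ) / m) ^ (2 + c)) +
          4096 * (C * (al L R₀ ℓ * ((ℓ : ℝ) / m) ^ (2 + c))) := by linarith
      _ = _ := by ring
  have key2 : ∀ z : ℝ, 1 ≤ ((ℓ : ℝ) / m) ^ (2 + c) → z ≤ 4096 * C * al L R₀ ℓ →
      z ≤ (Cb + 4096 * C) * (al L R₀ ℓ * ((ℓ : ℝ) / m) ^ (2 + c)) := by
    intro z h1 hz
    have h2 : 4096 * C * al L R₀ ℓ ≤ 4096 * C * al L R₀ ℓ * ((ℓ : ℝ) / m) ^ (2 + c) :=
      le_mul_of_one_le_right (by positivity) h1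
    calc z ≤ 4096 * C * al L R₀ ℓ := hz
      _ ≤ 4096 * C * al L R₀ ℓ * ((ℓ : ℝ) / m) ^ (2 + c) := h2
      _ = 4096 * (C * (al L R₀ ℓ * ((ℓ : ℝ) / m) ^ (2 + c))) := by ring
      _ ≤ Cb * (al L R₀ ℓ * ((ℓ : ℝ) / m) ^ (2 + c)) +
          4096 * (C * (al L R₀ ℓ * ((ℓ : ℝ) / m) ^ (2 + c))) := by linarith
      _ = _ := by ring
  rcases le_or_gt ℓ m with hlm | hlm
  · rcases lt_or_ge R₀ m with hRm | hRm
    · apply key1
      unfold atF
      rw [if_pos hRm]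
      exact hb ℓ s hℓ hB b y m hlm
    · apply key2
      · exact tth5_ratio (by omega) (by omega) (by linarith)
      · unfold atF
        rw [if_neg (not_lt.2 hRm)]
        exact h.small le_rfl (by omega)
  · apply key2
    · exact tth5_ratio (by omega) hlm.le (by linarith)
    · unfold atF
      split_ifs with hk
      · have h1 : pr2 (kt s) (L.TwoAt b y R₀ m) ≤ pr (L.TwoAt b y R₀ m) :=
          pr2_le_pr (TwoAt_loc _ _ _ _ _) (tth5_kap hs.le)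
        have h2 := h.ap.cmp b y R₀ m R₀ ℓ le_rfl le_rfl hk.le (by omega) (by omega) (by omega)
        have h5 : 0 ≤ C * al L R₀ ℓ := by positivity
        linarith
      · exact h.small le_rfl (by omega)

/-- HALF PLANE FACTOR, STATIC: `pr2 ≤ pr` and `HProps.half`; if the annulus is empty then `al = 1`, `C ≥ 1`. -/
theorem hfF_static (h : HProps L C R₀) {s : ℝ} (hs : 0 ≤ s) (σ : ℤ) (x : Pt) (b : Bool)
    {H : Set Pt} (hH : HalfLike H) {r R : ℤ} (hr : R₀ ≤ r) :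
    hfF ((L.rots σ).shift x) s b H r R ≤ C * (al L r R) ^ ((3 : ℝ) / 4) := by
  have hC := h.ap.C1
  unfold hfF
  split_ifs with hk
  · exact (pr2_le_pr (tth5_locH _ _ _ _ _) (tth5_kap hs)).trans (h.half σ x b H r R hH hr hk.le)
  · have h1 : al L r R = 1 := by
      unfold al
      rw [if_neg hk]
    rw [h1, Real.one_rpow]
    linarith

/-- HALF PLANE FACTOR beyond the correlation length: `KBHOK`; if `r = R` both sides are `≥ 1`. -/
theorem hfF_beyond {Ch c : ℝ} (hh : KBHOK L Ch c R₀) (hR : 1 ≤ R₀) (hCh : 1 ≤ Ch) {ℓ : ℤ} {s : ℝ}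
    (hℓ : R₀ ≤ ℓ) (hB : Beyond L R₀ ℓ s) (σ : ℤ) (x : Pt) (b : Bool)
    {H : Set Pt} (hH : HalfLike H) {r R : ℤ} (hr : ℓ ≤ r) (hrR : r ≤ R) :
    hfF ((L.rots σ).shift x) s b H r R ≤ Ch * ((r : ℝ) / R) ^ (1 + c) := by
  unfold hfF
  split_ifs with hk
  · exact hh ℓ s hℓ hB σ b x H r R hH hr hrR
  · have h1 : r = R := by omega
    subst h1
    have h2 : (0 : ℝ) < r := by
      have : (0 : ℤ) < r := by omega
      exact_mod_cast this
    rw [div_self h2.ne', Real.one_rpow]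
    linarith

/-- the exponents may be decreased (`r / R ≤ 1`) -/
theorem KBHOK.mono {Ch Ch' c c' : ℝ} (hh : KBHOK L Ch c R₀) (hR : 1 ≤ R₀) (hC : Ch ≤ Ch')
    (h0 : 0 ≤ Ch) (hc : c' ≤ c) (h1 : 0 ≤ 1 + c') : KBHOK L Ch' c' R₀ := by
  intro ℓ t hℓ hB s b x H r R hH hr hrR
  have h2 : (0 : ℝ) < r := by
    have : (0 : ℤ) < r := by omega
    exact_mod_cast this
  have h3 : (0 : ℝ) < R := by
    have : (0 : ℤ) < R := by omega
    exact_mod_cast this
  have h4 : (r : ℝ) / R ≤ 1 := by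
    rw [div_le_one h3]
    exact_mod_cast hrR
  have h5 : ((r : ℝ) / R) ^ (1 + c) ≤ ((r : ℝ) / R) ^ (1 + c') :=
    Real.rpow_le_rpow_of_exponent_ge (by positivity) h4 (by linarith)
  calc _ ≤ Ch * ((r : ℝ) / R) ^ (1 + c) := hh ℓ t hℓ hB s b x H r R hH hr hrR
    _ ≤ Ch' * ((r : ℝ) / R) ^ (1 + c') :=
      mul_le_mul hC h5 (by positivity) (h0.trans hC)

theorem LBKOK.mono {Cb Cb' c c' : ℝ} (hb : LBKOK L Cb c R₀) (hR : 1 ≤ R₀) (hC : Cb ≤ Cb')
    (h0 : 0 ≤ Cb) (hc : c' ≤ c) (h1 : 0 ≤ 2 + c')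
    (hal : ∀ ℓ, R₀ ≤ ℓ → 0 ≤ al L R₀ ℓ) : LBKOK L Cb' c' R₀ := by
  intro ℓ s hℓ hB b y d hd
  have h2 : (0 : ℝ) < ℓ := by
    have : (0 : ℤ) < ℓ := by omega
    exact_mod_cast this
  have h3 : (0 : ℝ) < d := by
    have : (0 : ℤ) < d := by omega
    exact_mod_cast this
  have h4 : (ℓ : ℝ) / d ≤ 1 := by
    rw [div_le_one h3]
    exact_mod_cast hd
  have h5 : ((ℓ : ℝ) / d) ^ (2 + c) ≤ ((ℓ : ℝ) / d) ^ (2 + c') :=
    Real.rpow_le_rpow_of_exponent_ge (by positivity) h4 (by linarith)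
  have h6 := hal ℓ hℓ
  calc _ ≤ Cb * (al L R₀ ℓ * ((ℓ : ℝ) / d) ^ (2 + c)) := hb ℓ s hℓ hB b y d hd
    _ ≤ Cb' * (al L R₀ ℓ * ((ℓ : ℝ) / d) ^ (2 + c')) :=
      mul_le_mul hC (mul_le_mul_of_nonneg_left h5 h6) (by positivity) (h0.trans hC)

end SC

end

/-! ### from `Lib_MP_e0a489.TP9` -/

section

/-!
# MP_e0a489, module TP 9: four arm probability down to the innermost radius
-/

set_option autoImplicit false

namespace SC

variable [IfL]

open Classical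

/-- Let `ξ` be the core configuration of `hc` for the radius `m`; the event `A` that `ω v = ξ v` for `v ∈ bx m`, `v ≠ 0`, depends on the finite set `bx m` and has positive probability (`pr_pos`).
`S4 (2m) R` depends on `{v | m < nrm v ∧ nrm v ≤ 2R}` (`S4.dep`), so `pr (S4 ∧ A) = pr S4 * pr A` (`pr_and`), and `S4 ∧ A → TwoA true 0 (2R)` (`S4_core`).
`pr (TwoA true (2m) R) ≤ C pr (S4 (2m) R)`: `sep2` with `k = 1` (`pr2_one`, `pr2_le_pr`, `kz_kap`), if `2m ≥` the constant `R₀` of `sep2`. -/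
theorem core_lower {L : Lat} {κ : ℕ → ℝ} (h : RSW L κ) (hc : ∀ m : ℤ, 8 ≤ m → CoreOK L m) :
    ∃ m₀ : ℤ, 8 ≤ m₀ ∧ ∀ m, m₀ ≤ m → ∃ C : ℝ, 0 < C ∧ ∀ R, 2 * m ≤ R →
      pr (L.TwoA true (2 * m) R) ≤ C * pr (L.TwoA true 0 (2 * R)) := by
  obtain ⟨C₀, R₀, hC₀, hR₀, H⟩ := sep2 κ
  refine ⟨R₀, by omega, ?_⟩
  intro m hm
  obtain ⟨h0, ξ, hξ⟩ := hc m (by omega)
  obtain ⟨F, hF⟩ : ∃ F : Finset Pt, (F : Set Pt) = bx m := by
    have h1 : (bx m).Finite := by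
      obtain ⟨G, hG⟩ := exists_annF (-1) m
      refine G.finite_toSet.subset fun v hv => (hG v).2 ?_
      have h2 : nrm v ≤ m := hv
      have h3 : 0 ≤ nrm v := XP.nrm_nonneg' v
      exact ⟨by omega, h2⟩
    exact ⟨h1.toFinset, h1.coe_toFinset⟩
  have hA : Dep (fun ω : Cfg => ∀ v ∈ bx m, v ≠ 0 → ω v = ξ v) (F : Set Pt) := by
    intro ω ω' h1
    rw [hF] at h1
    apply propext
    constructor
    · intro h2 v hv hv0
      rw [← h1 v hv]
      exact h2 v hv hv0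
    · intro h2 v hv hv0
      rw [h1 v hv]
      exact h2 v hv hv0
  have hpos : 0 < pr (fun ω : Cfg => ∀ v ∈ bx m, v ≠ 0 → ω v = ξ v) :=
    lt_of_lt_of_le (by positivity) (pr_pos hA (ω := ξ) (fun v _ _ => rfl))
  refine ⟨C₀ / pr (fun ω : Cfg => ∀ v ∈ bx m, v ≠ 0 → ω v = ξ v), div_pos hC₀ hpos, ?_⟩
  intro R hR
  have h1 := H L h (fun _ => 1) (fun _ => ⟨zero_le_one, le_refl _⟩) true (2 * m) R (by omega) hR
  rw [pr2_one (Lat.TwoA.loc L true (2 * m) R)] at h1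
  have h2 : pr2 (kz (fun _ => 1) (2 * m) R) (L.S4 (2 * m) R) ≤ pr (L.S4 (2 * m) R) :=
    pr2_le_pr (Lat.S4.loc L (2 * m) R) (kz_kap (fun _ => ⟨zero_le_one, le_refl _⟩) _ _)
  have h3 : pr (fun ω => L.S4 (2 * m) R ω ∧ ∀ v ∈ bx m, v ≠ 0 → ω v = ξ v) =
      pr (L.S4 (2 * m) R) * pr (fun ω : Cfg => ∀ v ∈ bx m, v ≠ 0 → ω v = ξ v) := by
    refine pr_and (Lat.S4.loc L (2 * m) R) ⟨F, hA⟩ (Lat.S4.dep L (by omega) hR) hA ?_
    intro v hv hv'
    rw [hF] at hv'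
    have h4 : 2 * m / 2 < nrm v := hv.1
    have h5 : nrm v ≤ m := hv'
    omega
  have h4 : pr (fun ω => L.S4 (2 * m) R ω ∧ ∀ v ∈ bx m, v ≠ 0 → ω v = ξ v) ≤
      pr (L.TwoA true 0 (2 * R)) := by
    refine pr_mono ((Lat.S4.loc L (2 * m) R).and ⟨F, hA⟩) (Lat.TwoA.loc L true 0 (2 * R)) ?_
    rintro ω ⟨h5, h6⟩
    exact Lat.S4_core (by omega) hR h5 (hξ ω h6)
  rw [h3] at h4
  have h5 : pr (L.S4 (2 * m) R) ≤ pr (L.TwoA true 0 (2 * R)) /
      pr (fun ω : Cfg => ∀ v ∈ bx m, v ≠ 0 → ω v = ξ v) := by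
    rw [le_div_iff₀ hpos]
    exact h4
  calc pr (L.TwoA true (2 * m) R) ≤ C₀ * pr2 (kz (fun _ => 1) (2 * m) R) (L.S4 (2 * m) R) := h1
    _ ≤ C₀ * (pr (L.TwoA true 0 (2 * R)) /
      pr (fun ω : Cfg => ∀ v ∈ bx m, v ≠ 0 → ω v = ξ v)) :=
        mul_le_mul_of_nonneg_left (h2.trans h5) hC₀.le
    _ = _ := by ring

/-- Inclusion of events: four arms from `x₀` to distance `R'` imply four arms from `bx i` to `rng R`.  In `L`, the event `TwoAt true x₀ 0 R'` is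
`Two true {v | 0 < nrm (v - x₀) ∧ nrm (v - x₀) ≤ R'} (nb {x₀}) {v | nrm (v - x₀) = R'} ω` (`Tr.two` for `tr_shift`, `Tr.nb`); `Two.trunc` with `B = bx R`, `I = bx i`
(`x₀ ∈ I`; for `i = 0` this means `x₀ = 0`); the new ends have norm `R` (`Adj.near`) and `bx R \ bx i = ann i R`. -/
theorem twoAt_inner {L : Lat} {x₀ : Pt} {i R R' : ℤ} (hx : nrm x₀ ≤ i) (hi : i ≤ 1) (hR : 2 ≤ R)
    (hR' : R + 2 ≤ R') {ω : Cfg} (h : L.TwoAt true x₀ 0 R' ω) : L.TwoA true i R ω := by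
  rw [TwoAt_iff] at h
  have hx0 : 0 ≤ nrm x₀ := XP.nrm_nonneg' x₀
  have key : ∀ v : Pt, nrm (v - x₀) ≤ nrm v + nrm x₀ ∧ nrm v ≤ nrm (v - x₀) + nrm x₀ := by
    intro v
    constructor
    · have h1 := XP.nrm_tri v 0 x₀
      rw [sub_zero, XP.nrm_comm 0 x₀, sub_zero] at h1
      exact h1
    · have h1 := XP.nrm_add (v - x₀) x₀
      rw [sub_add_cancel] at h1
      exact h1
  have hadj : ∀ u v : Pt, L.Adj u v → nrm u ≤ nrm v + 1 ∧ nrm v ≤ nrm u + 1 := by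
    intro u v huv
    have h1 := abs_le.1 (XP.adj_nrm huv 0)
    rw [sub_zero, sub_zero] at h1
    constructor <;> omega
  have ht := Lat.Two.trunc (B := bx R) (I := bx i) (D := {v | 0 < nrm (v - x₀) ∧ nrm (v - x₀) ≤ R'})
    (X := L.nb {v | nrm (v - x₀) ≤ 0}) (Y := {v | nrm (v - x₀) = R'})
    (fun u hu v huv => by
      have h1 : nrm u ≤ i := hu
      have h2 := (hadj u v huv).2
      show nrm v ≤ R
      omega)
    (fun v hv => by
      have h1 : nrm v ≤ R := hv.1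
      have h2 : ¬ nrm v ≤ i := hv.2
      have h3 := key v
      show 0 < nrm (v - x₀) ∧ nrm (v - x₀) ≤ R'
      constructor <;> omega)
    (fun x hxx _ => by
      obtain ⟨u, hu, hux⟩ := hxx
      have h1 : nrm (u - x₀) ≤ 0 := hu
      have h2 := (key u).2
      have h3 := hadj u x hux
      refine ⟨?_, fun _ => ⟨u, ?_, hux⟩⟩
      · show nrm x ≤ R
        omega
      · show nrm u ≤ i
        omega)
    (fun y hy => by
      have h1 : nrm (y - x₀) = R' := hy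
      have h2 := key y
      show ¬ nrm y ≤ R
      omega) h
  obtain ⟨x, hx1, y, hy1, x', hx1', y', hy1', g1, g2, g3⟩ := ht
  have e1 : bx R \ bx i = ann i R := by
    ext v
    constructor
    · rintro ⟨a, b⟩
      exact ⟨not_le.1 b, a⟩
    · rintro ⟨a, b⟩
      exact ⟨b, not_le.2 a⟩
  rw [e1] at g1 g2 g3
  have e2 : ∀ v : Pt, (v ∈ bx R ∧ ∃ u, L.Adj v u ∧ u ∉ bx R) → v ∈ rng R := by
    rintro v ⟨a, u, b, c⟩
    have h1 : nrm v ≤ R := a
    have h2 : ¬ nrm u ≤ R := c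
    have h3 := hadj v u b
    show nrm v = R
    omega
  exact ⟨x, hx1, y, e2 y hy1, x', hx1', y', e2 y' hy1', g1, g2, g3⟩

/-- INNER ESTIMATE.  `R₂` = maximum of 16, `2 m₀` (`core_lower` for `L.shift x₀`, `RSW.shift`) and the constant of `cmp2`.  Given `R₁ ≥ R₂` put `m = (R₁ + 1) / 2`, so `R₁ ≤ 2m ≤ R₁ + 1`.
For `R > R₁`: `al L R₁ R = pr (TwoA true R₁ R) ≤ C pr (TwoAt true x₀ (2m) (R + 2))` (`cmp2` with `k = 1`, `pr2_one`; `2m < R + 2`), `= C pr ((L.shift x₀).TwoA true (2m) (R + 2))` (`pr_via`, `TwoAt`),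
`≤ C' pr ((L.shift x₀).TwoA true 0 (2 (R + 2)))` (`core_lower`), `≤ C' pr (TwoA true i R)` (`pr_via`, `twoAt_inner`, `pr_mono`), `= C' al L i R`.
For `R = R₁`: `al L R₁ R₁ = 1` and `al L i R₁ ≥ al L i (R₁ + 1) ≥ al L R₁ (R₁ + 1) / C' > 0` (`al_props`: `mono`, `pos`; take `R₂ ≥` its `R₀`). -/
theorem inner_al {L : Lat} {κ : ℕ → ℝ} (h : Fam L κ) {x₀ : Pt} {i : ℤ} (hx : nrm x₀ ≤ i)
    (hi : i ≤ 1) (hc : ∀ m : ℤ, 8 ≤ m → CoreOK (L.shift x₀) m) :
    ∃ R₂ : ℤ, ∀ R₁, R₂ ≤ R₁ → ∃ C : ℝ, 0 < C ∧ ∀ R, R₁ ≤ R → al L R₁ R ≤ C * al L i R := by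
  have hx0 : 0 ≤ nrm x₀ := XP.nrm_nonneg' x₀
  obtain ⟨m₀, hm₀, H⟩ := core_lower (h.rsw.shift x₀) hc
  obtain ⟨Cc, Rc, hCc, hRc, Hc⟩ := cmp2 κ
  obtain ⟨Ca, Ra, Ha⟩ := al_props κ
  have hal := Ha L h
  refine ⟨max (max 16 (2 * m₀)) (max Rc Ra), ?_⟩
  intro R₁ hR₁
  have r1 : 16 ≤ R₁ := (le_max_left _ _).trans ((le_max_left _ _).trans hR₁)
  have r2 : 2 * m₀ ≤ R₁ := (le_max_right _ _).trans ((le_max_left _ _).trans hR₁)
  have r3 : Rc ≤ R₁ := (le_max_left _ _).trans ((le_max_right _ _).trans hR₁)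
  have r4 : Ra ≤ R₁ := (le_max_right _ _).trans ((le_max_right _ _).trans hR₁)
  obtain ⟨m, hm1, hm2⟩ : ∃ m : ℤ, R₁ ≤ 2 * m ∧ 2 * m ≤ R₁ + 1 := ⟨(R₁ + 1) / 2, by omega, by omega⟩
  obtain ⟨C₁, hC₁, H₁⟩ := H m (by omega)
  have hCC : 0 < Cc * C₁ := mul_pos hCc hC₁
  have hloc : ∀ (x : Pt) (r R : ℤ), pr (L.TwoAt true x r R) = pr ((L.shift x).TwoA true r R) :=
    fun x r R => pr_via (Lat.TwoA.loc (L.shift x) true r R) (Equiv.addRight x)
  have main : ∀ R, R₁ < R → al L R₁ R ≤ Cc * C₁ * al L i R := by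
    intro R hR
    have a1 := Hc L h.rsw (fun _ => 1) (fun _ => ⟨zero_le_one, le_refl _⟩) true true x₀ R₁ R (2 * m)
      (R + 2) r3 (by omega) hR.le (by omega) (by omega) (by omega) (by omega)
    rw [pr2_one (Lat.TwoA.loc L true R₁ R), pr2_one (TwoAt_loc L true x₀ (2 * m) (R + 2)),
      hloc] at a1
    have a2 := H₁ (R + 2) (by omega)
    rw [← hloc] at a2
    rw [← hloc] at a1
    have a3 : pr (L.TwoAt true x₀ 0 (2 * (R + 2))) ≤ pr (L.TwoA true i R) := by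
      refine pr_mono (TwoAt_loc L true x₀ 0 (2 * (R + 2))) (Lat.TwoA.loc L true i R) ?_
      intro ω hω
      exact twoAt_inner hx hi (by omega) (by omega) hω
    have e1 : al L R₁ R = pr (L.TwoA true R₁ R) := by
      unfold al
      rw [if_pos hR]
    have e2 : al L i R = pr (L.TwoA true i R) := by
      unfold al
      rw [if_pos (by omega)]
    rw [e1, e2]
    rw [← hloc] at a2
    calc pr (L.TwoA true R₁ R) ≤ Cc * pr (L.TwoAt true x₀ (2 * m) (R + 2)) := a1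
      _ ≤ Cc * (C₁ * pr (L.TwoAt true x₀ 0 (2 * (R + 2)))) := mul_le_mul_of_nonneg_left a2 hCc.le
      _ ≤ Cc * (C₁ * pr (L.TwoA true i R)) :=
          mul_le_mul_of_nonneg_left (mul_le_mul_of_nonneg_left a3 hC₁.le) hCc.le
      _ = _ := by ring
  have b1 : 0 < al L R₁ (R₁ + 1) := hal.pos R₁ (R₁ + 1) r4 (by omega)
  have b2 := main (R₁ + 1) (by omega)
  have b3 : al L i (R₁ + 1) ≤ al L i R₁ := hal.mono i R₁ i (R₁ + 1) (by omega) le_rfl (by omega)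
    (by omega)
  refine ⟨max (Cc * C₁) (Cc * C₁ / al L R₁ (R₁ + 1)), lt_max_of_lt_left hCC, ?_⟩
  intro R hR
  rcases lt_or_eq_of_le hR with h1 | h1
  · refine (main R h1).trans (mul_le_mul_of_nonneg_right (le_max_left _ _) ?_)
    unfold al
    split_ifs
    · exact pr_nonneg _
    · exact zero_le_one
  · rw [← h1]
    have c1 : al L R₁ R₁ = 1 := by
      unfold al
      rw [if_neg (lt_irrefl _)]
    have c2 : al L R₁ (R₁ + 1) ≤ Cc * C₁ * al L i R₁ :=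
      b2.trans (mul_le_mul_of_nonneg_left b3 hCC.le)
    have c3 : 1 ≤ Cc * C₁ / al L R₁ (R₁ + 1) * al L i R₁ := by
      rw [div_mul_eq_mul_div, le_div_iff₀ b1, one_mul]
      exact c2
    have c4 : 0 ≤ al L i R₁ := by
      unfold al
      split_ifs
      · exact pr_nonneg _
      · exact zero_le_one
    rw [c1]
    exact c3.trans (mul_le_mul_of_nonneg_right (le_max_right _ _) c4)

end SC

end

/-! ### from `Lib_MP_e0a489.TP7` -/

section

/-!
# MP_e0a489, module TP 7: bond percolation, the crossing event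
-/

set_option autoImplicit false

namespace SC

open Classical

private theorem tp7_even {ω : Cfg} {v : Pt} (h1 : v.1 % 2 = 0) (h2 : v.2 % 2 = 0) :
    v ∈ Z2.col true ω := by
  show (Z2.typ v).getD (ω v) = true
  have : Z2.typ v = some true := by
    show (if v.1 % 2 = 0 ∧ v.2 % 2 = 0 then some true
      else if v.1 % 2 = 1 ∧ v.2 % 2 = 1 then some false else none) = some true
    rw [if_pos ⟨h1, h2⟩]
  rw [this]
  rfl

private theorem tp7_oo {ω : Cfg} {v : Pt} (h1 : v.1 % 2 = 1) (h2 : v.2 % 2 = 1) :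
    v ∉ Z2.col true ω := by
  intro h
  have h' : (Z2.typ v).getD (ω v) = true := h
  have : Z2.typ v = some false := by
    show (if v.1 % 2 = 0 ∧ v.2 % 2 = 0 then some true
      else if v.1 % 2 = 1 ∧ v.2 % 2 = 1 then some false else none) = some false
    rw [if_neg (by omega), if_pos ⟨h1, h2⟩]
  rw [this] at h'
  exact Bool.noConfusion h'

private theorem tp7_odd {ω : Cfg} {v : Pt} (h : (v.1 + v.2) % 2 = 1) :
    v ∈ Z2.col true ω ↔ ω v = true := by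
  have : Z2.typ v = none := by
    show (if v.1 % 2 = 0 ∧ v.2 % 2 = 0 then some true
      else if v.1 % 2 = 1 ∧ v.2 % 2 = 1 then some false else none) = none
    rw [if_neg (by omega), if_neg (by omega)]
  show (Z2.typ v).getD (ω v) = true ↔ _
  rw [this]
  rfl

private theorem tp7_nn {u v : Pt} (h : SCTop.NN u v) :
    (v.1 = u.1 + 1 ∧ v.2 = u.2) ∨ (v.1 = u.1 - 1 ∧ v.2 = u.2) ∨
      (v.1 = u.1 ∧ v.2 = u.2 + 1) ∨ (v.1 = u.1 ∧ v.2 = u.2 - 1) := by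
  have h' : |u.1 - v.1| + |u.2 - v.2| = 1 := h
  rcases abs_cases (u.1 - v.1) with ⟨e1, _⟩ | ⟨e1, _⟩ <;>
    rcases abs_cases (u.2 - v.2) with ⟨e2, _⟩ | ⟨e2, _⟩ <;> rw [e1, e2] at h' <;> omega

private theorem tp7_nn' {u v : Pt} (h : (v.1 = u.1 + 1 ∧ v.2 = u.2) ∨
    (v.1 = u.1 - 1 ∧ v.2 = u.2) ∨ (v.1 = u.1 ∧ v.2 = u.2 + 1) ∨ (v.1 = u.1 ∧ v.2 = u.2 - 1)) :
    SCTop.NN u v := by
  show |u.1 - v.1| + |u.2 - v.2| = 1
  rcases h with ⟨h1, h2⟩ | ⟨h1, h2⟩ | ⟨h1, h2⟩ | ⟨h1, h2⟩ <;> rw [h1, h2]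
  · rw [show u.1 - (u.1 + 1) = -1 by ring, show u.2 - u.2 = 0 by ring]; norm_num
  · rw [show u.1 - (u.1 - 1) = 1 by ring, show u.2 - u.2 = 0 by ring]; norm_num
  · rw [show u.2 - (u.2 + 1) = -1 by ring, show u.1 - u.1 = 0 by ring]; norm_num
  · rw [show u.2 - (u.2 - 1) = 1 by ring, show u.1 - u.1 = 0 by ring]; norm_num

private theorem tp7_edge {n : ℕ} {ω : Cfg} {v : Pt} (h1 : -(2 * n : ℤ) ≤ v.1)
    (h2 : v.1 ≤ 2 * n) (h3 : -(2 * n : ℤ) ≤ v.2) (h4 : v.2 ≤ 2 * n) (h : (v.1 + v.2) % 2 = 1)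
    (hω : ω v = true) : v ∈ opn (SCTop.edges n) 1 ω := by
  rw [mem_opn]
  refine ⟨?_, hω⟩
  rw [mem_edges]
  refine ⟨?_, h⟩
  show max |v.1| |v.2| ≤ 2 * n
  exact max_le (abs_le.2 ⟨by linarith, h2⟩) (abs_le.2 ⟨by linarith, h4⟩)

private theorem tp7_edge' {n : ℕ} {ω : Cfg} {v : Pt} (h : v ∈ opn (SCTop.edges n) 1 ω) :
    (-(2 * n : ℤ) ≤ v.1 ∧ v.1 ≤ 2 * n) ∧ (-(2 * n : ℤ) ≤ v.2 ∧ v.2 ≤ 2 * n) ∧
      (v.1 + v.2) % 2 = 1 ∧ ω v = true := by
  rw [mem_opn, mem_edges] at h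
  obtain ⟨⟨h1, h2⟩, h3⟩ := h
  have h1' : max |v.1| |v.2| ≤ 2 * n := h1
  have ha := abs_le.1 ((le_max_left _ _).trans h1')
  have hb := abs_le.1 ((le_max_right _ _).trans h1')
  exact ⟨ha, hb, h2, h3⟩

/-- Doubling a path of vertices: `2 a`, `a + b`, `2 b` are consecutive sites of `Z2`; `a + b ∈ A` is an open edge of `edges n`, so it is in the square, and `2 b` has
coordinates `≤ 2 n + 1` in absolute value, even, so `≤ 2 n`.  Induction along `ReflTransGen`. -/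
theorem crossing_double {n : ℕ} {ω : Cfg} {u v : Pt} (hu1 : |u.1| ≤ n) (hu2 : |u.2| ≤ n)
    (h : Relation.ReflTransGen
      (fun a b => SCTop.NN a b ∧ a + b ∈ opn (SCTop.edges n) 1 ω) u v) :
    Z2.Cn (rect (-(2 * n)) (2 * n) (-(2 * n)) (2 * n) ∩ Z2.col true ω) (u + u) (v + v) := by
  induction h with
  | refl =>
    have ha := abs_le.1 hu1
    have hb := abs_le.1 hu2
    refine ⟨⟨⟨⟨?_, ?_⟩, ?_, ?_⟩, ?_⟩, Relation.ReflTransGen.refl⟩
    · show -(2 * (n : ℤ)) ≤ u.1 + u.1; omega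
    · show u.1 + u.1 ≤ 2 * (n : ℤ); omega
    · show -(2 * (n : ℤ)) ≤ u.2 + u.2; omega
    · show u.2 + u.2 ≤ 2 * (n : ℤ); omega
    · exact tp7_even (by show (u.1 + u.1) % 2 = 0; omega) (by show (u.2 + u.2) % 2 = 0; omega)
  | @tail b c _ hbc ih =>
    obtain ⟨hnn, hop⟩ := hbc
    obtain ⟨h1, h2⟩ := ih
    have he := tp7_edge' hop
    obtain ⟨⟨e1, e2⟩, ⟨e3, e4⟩, e5, e6⟩ := he
    have e1' : -(2 * (n : ℤ)) ≤ b.1 + c.1 := e1
    have e2' : b.1 + c.1 ≤ 2 * (n : ℤ) := e2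
    have e3' : -(2 * (n : ℤ)) ≤ b.2 + c.2 := e3
    have e4' : b.2 + c.2 ≤ 2 * (n : ℤ) := e4
    have hc := tp7_nn hnn
    have s1 : Z2.Adj (b + b) (b + c) := by
      apply nn_adj
      apply tp7_nn'
      show (b.1 + c.1 = b.1 + b.1 + 1 ∧ b.2 + c.2 = b.2 + b.2) ∨
        (b.1 + c.1 = b.1 + b.1 - 1 ∧ b.2 + c.2 = b.2 + b.2) ∨
        (b.1 + c.1 = b.1 + b.1 ∧ b.2 + c.2 = b.2 + b.2 + 1) ∨
        (b.1 + c.1 = b.1 + b.1 ∧ b.2 + c.2 = b.2 + b.2 - 1)
      omega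
    have s2 : Z2.Adj (b + c) (c + c) := by
      apply nn_adj
      apply tp7_nn'
      show (c.1 + c.1 = b.1 + c.1 + 1 ∧ c.2 + c.2 = b.2 + c.2) ∨
        (c.1 + c.1 = b.1 + c.1 - 1 ∧ c.2 + c.2 = b.2 + c.2) ∨
        (c.1 + c.1 = b.1 + c.1 ∧ c.2 + c.2 = b.2 + c.2 + 1) ∨
        (c.1 + c.1 = b.1 + c.1 ∧ c.2 + c.2 = b.2 + c.2 - 1)
      omega
    have m1 : b + c ∈ rect (-(2 * n)) (2 * n) (-(2 * n)) (2 * n) ∩ Z2.col true ω :=
      ⟨⟨⟨e1', e2'⟩, e3', e4'⟩, (tp7_odd e5).2 e6⟩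
    have m2 : c + c ∈ rect (-(2 * n)) (2 * n) (-(2 * n)) (2 * n) ∩ Z2.col true ω := by
      refine ⟨⟨⟨?_, ?_⟩, ?_, ?_⟩, ?_⟩
      · show -(2 * (n : ℤ)) ≤ c.1 + c.1; omega
      · show c.1 + c.1 ≤ 2 * (n : ℤ); omega
      · show -(2 * (n : ℤ)) ≤ c.2 + c.2; omega
      · show c.2 + c.2 ≤ 2 * (n : ℤ); omega
      · exact tp7_even (by show (c.1 + c.1) % 2 = 0; omega) (by show (c.2 + c.2) % 2 = 0; omega)
    exact ⟨h1, (h2.tail ⟨s1, m1⟩).tail ⟨s2, m2⟩⟩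

/-- Halving a path of open sites of `Z2`.  `P w` = for every `b` with `w = b + b` or `NN (b + b) w`: the vertices `u` and `b` are joined by open edges.  `P` is kept along an open path in the
square: the step from `w` to `w'` is a nearest neighbour step (`z2_nn`).  If `w' = b + b` then `NN (b + b) w`, use `P w`.  If `w'` is an edge (odd sum, `w' ∈ edges n`, open) then `w = a + a`
with `NN (a + a) w'`, `w' = a + a'` with `NN a a'` (`a' = w' - a`), and the only `b` with `NN (b + b) w'` are `a` and `a'`; `P w` gives `u - a`, one more step gives `a'`. -/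
theorem crossing_half {n : ℕ} {ω : Cfg} {x w u : Pt}
    (h : Z2.Cn (rect (-(2 * n)) (2 * n) (-(2 * n)) (2 * n) ∩ Z2.col true ω) x w)
    (hx : ∀ b : Pt, (x = b + b ∨ SCTop.NN (b + b) x) → Relation.ReflTransGen
      (fun a b => SCTop.NN a b ∧ a + b ∈ opn (SCTop.edges n) 1 ω) u b) (b : Pt)
    (hb : w = b + b ∨ SCTop.NN (b + b) w) :
    Relation.ReflTransGen (fun a b => SCTop.NN a b ∧ a + b ∈ opn (SCTop.edges n) 1 ω) u b := by
  obtain ⟨hx0, h⟩ := h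
  induction h generalizing b with
  | refl => exact hx b hb
  | @tail w' w hw hww ih =>
    obtain ⟨hadj, hwD⟩ := hww
    have hw'D : w' ∈ rect (-(2 * n)) (2 * n) (-(2 * n)) (2 * n) ∩ Z2.col true ω := by
      rcases Relation.ReflTransGen.cases_tail hw with h0 | ⟨_, _, h2⟩
      · rw [h0]; exact hx0
      · exact h2.2
    have hnn := tp7_nn (z2_nn hadj hw'D.2 hwD.2)
    rcases hb with hb | hb
    · apply ih b
      right
      apply tp7_nn'
      have e1 : w.1 = b.1 + b.1 := by rw [hb]; rfl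
      have e2 : w.2 = b.2 + b.2 := by rw [hb]; rfl
      show (w'.1 = b.1 + b.1 + 1 ∧ w'.2 = b.2 + b.2) ∨
        (w'.1 = b.1 + b.1 - 1 ∧ w'.2 = b.2 + b.2) ∨
        (w'.1 = b.1 + b.1 ∧ w'.2 = b.2 + b.2 + 1) ∨
        (w'.1 = b.1 + b.1 ∧ w'.2 = b.2 + b.2 - 1)
      omega
    · have hb' : (w.1 = b.1 + b.1 + 1 ∧ w.2 = b.2 + b.2) ∨ (w.1 = b.1 + b.1 - 1 ∧ w.2 = b.2 + b.2) ∨
          (w.1 = b.1 + b.1 ∧ w.2 = b.2 + b.2 + 1) ∨ (w.1 = b.1 + b.1 ∧ w.2 = b.2 + b.2 - 1) :=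
        tp7_nn hb
      have hev : w'.1 % 2 = 0 ∧ w'.2 % 2 = 0 := by
        by_contra hcon
        have : w'.1 % 2 = 1 ∧ w'.2 % 2 = 1 := by omega
        exact tp7_oo this.1 this.2 hw'D.2
      obtain ⟨a, ha1, ha2⟩ : ∃ a : Pt, w'.1 = a.1 + a.1 ∧ w'.2 = a.2 + a.2 :=
        ⟨(w'.1 / 2, w'.2 / 2), by show w'.1 = w'.1 / 2 + w'.1 / 2; omega,
          by show w'.2 = w'.2 / 2 + w'.2 / 2; omega⟩
      have hwa : w' = a + a := Prod.ext ha1 ha2
      have hodd : (w.1 + w.2) % 2 = 1 := by omega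
      obtain ⟨⟨⟨r1, r2⟩, r3, r4⟩, hcol⟩ := hwD
      have hop : w ∈ opn (SCTop.edges n) 1 ω :=
        tp7_edge (by exact_mod_cast r1) r2 (by exact_mod_cast r3) r4 hodd ((tp7_odd hodd).1 hcol)
      by_cases hab : a = b
      · subst hab
        exact ih a (Or.inl hwa)
      · have h1 := ih a (Or.inl hwa)
        have hab' : ¬ (a.1 = b.1 ∧ a.2 = b.2) := fun hh => hab (Prod.ext hh.1 hh.2)
        have hsum : a + b = w := by
          refine Prod.ext ?_ ?_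
          · show a.1 + b.1 = w.1; omega
          · show a.2 + b.2 = w.2; omega
        refine h1.tail ⟨?_, ?_⟩
        · apply tp7_nn'
          omega
        · rw [hsum]; exact hop

/-- CROSSING.  From right to left `crossing_double`.  From left to right: the first site `x` of the path has `x.1 = -2n`; if it is `(−2n, 2k)` put `u = (−n, k)`; if it is an
edge `(-2n, 2k+1)` put `u = (-n, k)` (the edge joins `(-n,k)` and `(-n,k+1)`; `(-n, k)` is the other end of no horizontal edge: the `b` with `NN (b + b) x` are `(-n,k)` and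
`(-n,k+1)`), so the hypothesis `hx` of `crossing_half` holds.  Last site `w`, `w.1 = 2n`: either `w = b + b` or `w = b + b + (0,1)` with `b.1 = n`, `|b.2| ≤ n`. -/
theorem crossing_iff (n : ℕ) (ω : Cfg) :
    Z2.Arm true (rect (-(2 * n)) (2 * n) (-(2 * n)) (2 * n)) {v | v.1 = -(2 * n)}
      {v | v.1 = 2 * n} ω ↔ SCTop.crossing n (opn (SCTop.edges n) 1 ω) := by
  constructor
  · rintro ⟨x, hx, y, hy, hc⟩
    have hx1 : x.1 = -(2 * (n : ℤ)) := hx
    have hy1 : y.1 = 2 * (n : ℤ) := hy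
    obtain ⟨⟨⟨⟨r1, r2⟩, r3, r4⟩, hcol⟩, hch⟩ := hc
    have hyD : y ∈ rect (-(2 * n)) (2 * n) (-(2 * n)) (2 * n) ∩ Z2.col true ω := by
      rcases Relation.ReflTransGen.cases_tail hch with h0 | ⟨_, _, h2⟩
      · rw [h0]; exact ⟨⟨⟨r1, r2⟩, r3, r4⟩, hcol⟩
      · exact h2.2
    obtain ⟨⟨⟨q1, q2⟩, q3, q4⟩, hcol'⟩ := hyD
    have r3' : -(2 * (n : ℤ)) ≤ x.2 := r3
    have r4' : x.2 ≤ 2 * (n : ℤ) := r4
    have q3' : -(2 * (n : ℤ)) ≤ y.2 := q3
    have q4' : y.2 ≤ 2 * (n : ℤ) := q4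
    refine ⟨(-(n : ℤ), x.2 / 2), ((n : ℤ), y.2 / 2), rfl, ?_, rfl, ?_, ?_⟩
    · show |x.2 / 2| ≤ (n : ℤ)
      exact abs_le.2 ⟨by omega, by omega⟩
    · show |y.2 / 2| ≤ (n : ℤ)
      exact abs_le.2 ⟨by omega, by omega⟩
    · refine crossing_half (x := x) (w := y) ⟨⟨⟨⟨r1, r2⟩, r3, r4⟩, hcol⟩, hch⟩ ?_ _ ?_
      · intro b hb
        rcases hb with hb | hb
        · have e1 : x.1 = b.1 + b.1 := by rw [hb]; rfl
          have e2 : x.2 = b.2 + b.2 := by rw [hb]; rfl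
          have : ((-(n : ℤ), x.2 / 2) : Pt) = b := by
            refine Prod.ext ?_ ?_
            · show -(n : ℤ) = b.1; omega
            · show x.2 / 2 = b.2; omega
          rw [this]
        · have hb' : (x.1 = b.1 + b.1 + 1 ∧ x.2 = b.2 + b.2) ∨
              (x.1 = b.1 + b.1 - 1 ∧ x.2 = b.2 + b.2) ∨
              (x.1 = b.1 + b.1 ∧ x.2 = b.2 + b.2 + 1) ∨
              (x.1 = b.1 + b.1 ∧ x.2 = b.2 + b.2 - 1) := tp7_nn hb
          have hodd : (x.1 + x.2) % 2 = 1 := by omega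
          have hop : x ∈ opn (SCTop.edges n) 1 ω :=
            tp7_edge (by omega) (by omega) r3' r4' hodd ((tp7_odd hodd).1 hcol)
          by_cases hk : b.2 = x.2 / 2
          · have : ((-(n : ℤ), x.2 / 2) : Pt) = b := by
              refine Prod.ext ?_ ?_
              · show -(n : ℤ) = b.1; omega
              · show x.2 / 2 = b.2; omega
            rw [this]
          · refine Relation.ReflTransGen.single ⟨?_, ?_⟩
            · apply tp7_nn'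
              show (b.1 = -(n : ℤ) + 1 ∧ b.2 = x.2 / 2) ∨ (b.1 = -(n : ℤ) - 1 ∧ b.2 = x.2 / 2) ∨
                (b.1 = -(n : ℤ) ∧ b.2 = x.2 / 2 + 1) ∨ (b.1 = -(n : ℤ) ∧ b.2 = x.2 / 2 - 1)
              omega
            · have : ((-(n : ℤ), x.2 / 2) : Pt) + b = x := by
                refine Prod.ext ?_ ?_
                · show -(n : ℤ) + b.1 = x.1; omega
                · show x.2 / 2 + b.2 = x.2; omega
              rw [this]; exact hop
      · by_cases hev : y.2 % 2 = 0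
        · left
          refine Prod.ext ?_ ?_
          · show y.1 = (n : ℤ) + (n : ℤ); omega
          · show y.2 = y.2 / 2 + y.2 / 2; omega
        · right
          apply tp7_nn'
          show (y.1 = (n : ℤ) + (n : ℤ) + 1 ∧ y.2 = y.2 / 2 + y.2 / 2) ∨
            (y.1 = (n : ℤ) + (n : ℤ) - 1 ∧ y.2 = y.2 / 2 + y.2 / 2) ∨
            (y.1 = (n : ℤ) + (n : ℤ) ∧ y.2 = y.2 / 2 + y.2 / 2 + 1) ∨
            (y.1 = (n : ℤ) + (n : ℤ) ∧ y.2 = y.2 / 2 + y.2 / 2 - 1)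
          omega
  · rintro ⟨u, v, hu1, hu2, hv1, _, hch⟩
    refine ⟨u + u, ?_, v + v, ?_, ?_⟩
    · show u.1 + u.1 = -(2 * (n : ℤ))
      rw [hu1]; ring
    · show v.1 + v.1 = 2 * (n : ℤ)
      rw [hv1]; ring
    · refine crossing_double ?_ hu2 hch
      rw [hu1, abs_neg]
      exact (abs_of_nonneg (by omega)).le

end SC

end

/-! ### from `Lib_MP_e0a489.TQ6` -/

section

/-!
# MP_e0a489, module TQ 6: site percolation on the triangular lattice as a model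
-/

set_option autoImplicit false

namespace SC

open Classical

/-- number of rows above the row `0` -/
noncomputable def tN (n : ℕ) : ℤ := ⌊2 * (n : ℝ) / Real.sqrt 3⌋

/-- the missing sites: the odd rows are shorter by one site -/
def tE (n : ℕ) : Set Pt := {v | v.1 = n ∧ v.2 % 2 = 1}

private theorem tq6_floor (n : ℕ) : ⌊2 * (n : ℝ)⌋ = 2 * (n : ℤ) := by
  rw [Int.floor_eq_iff]
  constructor
  · push_cast
    exact le_refl _
  · push_cast
    linarith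

/-- `n ≤ tN n ≤ 2 n` (`√3 ≤ 2`, `1 ≤ √3`) -/
theorem tN_bd (n : ℕ) : (n : ℤ) ≤ tN n ∧ tN n ≤ 2 * n := by
  have hs0 : (0 : ℝ) < Real.sqrt 3 := Real.sqrt_pos.mpr (by norm_num)
  have hs1 : (1 : ℝ) ≤ Real.sqrt 3 := by
    rw [show (1 : ℝ) = Real.sqrt 1 from Real.sqrt_one.symm]
    exact Real.sqrt_le_sqrt (by norm_num)
  have hs2 : Real.sqrt 3 ≤ 2 := by
    rw [Real.sqrt_le_left (by norm_num)]
    norm_num
  have hn : (0 : ℝ) ≤ n := Nat.cast_nonneg n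
  constructor
  · unfold tN
    rw [Int.le_floor, le_div_iff₀ hs0]
    push_cast
    nlinarith
  · rw [← tq6_floor]
    unfold tN
    apply Int.floor_le_floor
    rw [div_le_iff₀ hs0]
    nlinarith

/-- `TL_adj_iff`: a site `(n, j)`, `j` odd, is adjacent in the column `n - 1` only to `(n - 1, j)` -/
theorem good_tE (n : ℕ) : GoodE TL n (tE n) := by
  intro e he
  obtain ⟨h1, h2⟩ := he
  refine ⟨h1, fun p hp hp1 => ?_⟩
  rw [TL_adj_iff] at hp
  omega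

private theorem tq6_dom (n : ℕ) (w : Pt) : w ∈ dom n (tN n) (tE n) ↔
    ((-(n : ℤ) ≤ w.1 ∧ w.1 ≤ n) ∧ -(tN n) ≤ w.2 ∧ w.2 ≤ tN n) ∧ ¬ (w.1 = n ∧ w.2 % 2 = 1) :=
  Iff.rfl

/-- `⌊2 * (n : ℝ)⌋ = 2 n`; even rows `|w.1| ≤ n`, odd rows `-n ≤ w.1 ≤ n - 1` -/
theorem dom_tE (n : ℕ) : dom n (tN n) (tE n) = TB ⌊2 * (n : ℝ)⌋ (tN n) := by
  rw [tq6_floor]
  ext w
  rw [tq6_dom]
  have h1 : w ∈ TB (2 * (n : ℤ)) (tN n) ↔ |2 * w.1 + w.2 % 2| ≤ 2 * (n : ℤ) ∧ |w.2| ≤ tN n :=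
    Iff.rfl
  rw [h1, abs_le, abs_le]
  omega

private theorem tq6_inBox (n : ℕ) (v : Pt) :
    SCTop.inBox (n : ℝ) v ↔ shE v ∈ dom n (tN n) (tE n) := by
  rw [inBox_iff, dom_tE]
  rfl

private theorem tq6_mem (n : ℕ) (ω : Cfg) (v : Pt) : v ∈ opn (SCTop.sites n) shE ω ↔
    shE v ∈ dom n (tN n) (tE n) ∩ TL.col true ω := by
  rw [mem_opn, mem_sites, tq6_inBox]
  exact Iff.rfl

private theorem tq6_left (n : ℕ) {v : Pt} (hv : shE v ∈ dom n (tN n) (tE n)) :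
    ¬ SCTop.inBox (n : ℝ) (v - (1, 0)) ↔ (shE v).1 = -(n : ℤ) := by
  rw [tq6_inBox]
  have e1 : shE (v - (1, 0)) = ((shE v).1 - 1, (shE v).2) := by
    ext
    · rw [shE_fst, shE_fst]
      simp
      ring
    · rw [shE_snd, shE_snd]
      simp
  rw [e1]
  rw [tq6_dom] at hv
  rw [tq6_dom]
  have h2 := hv.1.1.1
  have h3 := hv.1.1.2
  have h4 := hv.1.2
  constructor
  · intro h
    by_contra hne
    apply h
    exact ⟨⟨⟨by dsimp only; omega, by dsimp only; omega⟩, h4⟩, fun h5 => by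
      have := h5.1
      dsimp only at this
      omega⟩
  · intro h h5
    have := h5.1.1.1
    dsimp only at this
    omega

private theorem tq6_right (n : ℕ) {v : Pt} (hv : shE v ∈ dom n (tN n) (tE n)) :
    ¬ SCTop.inBox (n : ℝ) (v + (1, 0)) ↔ shE v ∈ rside n (tE n) := by
  rw [tq6_inBox]
  have e1 : shE (v + (1, 0)) = ((shE v).1 + 1, (shE v).2) := by
    ext
    · rw [shE_fst, shE_fst]
      simp
      ring
    · rw [shE_snd, shE_snd]
      simp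
  rw [e1]
  rw [tq6_dom] at hv
  rw [tq6_dom]
  have h2 := hv.1.1.1
  have h3 := hv.1.1.2
  have h4 := hv.1.2
  have h6 : shE v ∈ rside n (tE n) ↔
      (shE v).1 = (n : ℤ) ∨ ((shE v).1 + 1 = (n : ℤ) ∧ (shE v).2 % 2 = 1) := Iff.rfl
  rw [h6]
  constructor
  · intro h
    by_contra hne
    apply h
    push Not at hne
    refine ⟨⟨⟨by dsimp only; omega, by have := hne.1; dsimp only; omega⟩, h4⟩, fun h5 => ?_⟩
    exact hne.2 h5.1 h5.2
  · intro h h5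
    rcases h with h | h
    · have := h5.1.1.2
      dsimp only at this
      omega
    · exact h5.2 h

/-- CROSSING.  `v ∈ sites n ↔ shE v ∈ dom` (`mem_sites`, `inBox_iff`, `dom_tE`); `A = opn (sites n) shE ω`.  A path in `A` is mapped by `shE` to an open path of `TL` in `dom` (`TAdj_iff`, `Relation.ReflTransGen.lift`-like induction).
First site: for `w = shE u ∈ dom`, `¬ inBox n (u - (1,0))` means `(w.1 - 1, w.2) ∉ dom`, that is `w.1 = -n`; last site: `(w.1 + 1, w.2) ∉ dom` means `w.1 = n` or `(w.1 + 1, w.2) ∈ tE n`, that is `w ∈ rside n (tE n)`.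
(`shE (v + (1, 0)) = shE v + (1, 0)`.) -/
theorem tcrs_iff (n : ℕ) (hn : 1 ≤ n) (ω : Cfg) :
    TL.Crs n (tN n) (tE n) ω ↔ SCTop.tcrossing n (opn (SCTop.sites n) shE ω) := by
  constructor
  · rintro ⟨x, hx, y, hy, hxy⟩
    have hxA := hxy.1
    have hyA := Lat.Cn.right hxy
    refine ⟨shE.symm x, shE.symm y, ?_, ?_, ?_, ?_⟩
    · rw [tq6_mem, Equiv.apply_symm_apply]
      exact hxA
    · rw [tq6_left n (by rw [Equiv.apply_symm_apply]; exact hxA.1), Equiv.apply_symm_apply]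
      exact hx
    · rw [tq6_right n (by rw [Equiv.apply_symm_apply]; exact hyA.1), Equiv.apply_symm_apply]
      exact hy
    · refine Relation.ReflTransGen.lift shE.symm (fun a b hab => ⟨?_, ?_⟩) _ _ hxy.2
      · rw [TAdj_iff, Equiv.apply_symm_apply, Equiv.apply_symm_apply]
        exact hab.1
      · rw [tq6_mem, Equiv.apply_symm_apply]
        exact hab.2
  · rintro ⟨u, v, hu, hul, hvr, huv⟩
    have hlift : TL.Cn (dom n (tN n) (tE n) ∩ TL.col true ω) (shE u) (shE v) := by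
      refine ⟨(tq6_mem n ω u).mp hu, ?_⟩
      refine Relation.ReflTransGen.lift shE (fun a b hab => ⟨?_, ?_⟩) _ _ huv
      · exact (TAdj_iff a b).mp hab.1
      · exact (tq6_mem n ω b).mp hab.2
    refine ⟨shE u, ?_, shE v, ?_, hlift⟩
    · exact (tq6_left n hlift.1.1).mp hul
    · exact (tq6_right n (Lat.Cn.right hlift).1).mp hvr

/-- A horizontal crossing of the rectangle contains a crossing of the domain: let `q` be the first site of the path in the column `n` (`Cn.exit` with `S = {v | v.1 ≤ n - 1}`), `p` the site before.  If `q ∉ tE n` it is in `rside`, otherwise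
`p = (n - 1, q.2)` (`good_tE`) is in `rside`. -/
theorem hx_crs {n : ℕ} (hn : 1 ≤ n) {ω : Cfg} (h : TL.HX true (-n) n (-(tN n)) (tN n) ω) :
    TL.Crs n (tN n) (tE n) ω := by
  obtain ⟨u, v, hu, hv, huv⟩ := h
  obtain ⟨p, q, hp, hpq, hqA, hqS⟩ := Lat.Cn.exit huv
    (S := {v : Pt | v.1 ≤ (n : ℤ) - 1})
    (by
      have : u.1 ≤ (n : ℤ) - 1 := by omega
      exact this)
    (by
      intro h1
      have h2 : v.1 ≤ (n : ℤ) - 1 := h1
      omega)
  have hsub : (rect (-(n : ℤ)) n (-(tN n)) (tN n) ∩ TL.col true ω) ∩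
      {v : Pt | v.1 ≤ (n : ℤ) - 1} ⊆ dom n (tN n) (tE n) ∩ TL.col true ω := by
    rintro w ⟨⟨hw1, hw2⟩, hw3⟩
    have hw3' : w.1 ≤ (n : ℤ) - 1 := hw3
    refine ⟨⟨hw1, fun hE => ?_⟩, hw2⟩
    have := hE.1
    omega
  have hcn := Lat.Cn.mono hp hsub
  have hq1 : ¬ q.1 ≤ (n : ℤ) - 1 := hqS
  have hq2 : q.1 ≤ (n : ℤ) := hqA.1.1.2
  have hqn : q.1 = (n : ℤ) := by omega
  by_cases hqE : q ∈ tE n
  · refine ⟨u, hu, p, ?_, hcn⟩
    have hp1 : p.1 ≤ (n : ℤ) - 1 := (Lat.Cn.right hp).2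
    have hp2 : p.1 = (n : ℤ) - 1 := by
      have h3 := hpq
      rw [TL_adj_iff] at h3
      omega
    have hp3 := (good_tE n q hqE).2 p hpq hp2
    right
    have e1 : ((p.1 + 1, p.2) : Pt) = q := by
      ext
      · show p.1 + 1 = q.1
        omega
      · exact hp3
    rw [e1]
    exact hqE
  · refine ⟨u, hu, q, Or.inl hqn, ?_⟩
    have hqD : q ∈ dom n (tN n) (tE n) ∩ TL.col true ω := ⟨⟨hqA.1, hqE⟩, hqA.2⟩
    exact Lat.Cn.trans hcn (Lat.Cn.of_adj (Lat.Cn.right hcn) hqD hpq)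

private theorem tq6_fin (n : ℕ) : ∃ F : Finset Pt, dom n (tN n) (tE n) ⊆ (F : Set Pt) := by
  refine ⟨Finset.Icc (-(n : ℤ)) n ×ˢ Finset.Icc (-(tN n)) (tN n), fun w hw => ?_⟩
  rw [tq6_dom] at hw
  rw [Finset.mem_coe, Finset.mem_product, Finset.mem_Icc, Finset.mem_Icc]
  exact hw.1

private theorem tq6_dep (n : ℕ) : ∃ F : Finset Pt, Dep (TL.Crs n (tN n) (tE n)) (F : Set Pt) := by
  obtain ⟨F, hF⟩ := tq6_fin n
  exact ⟨F, fun ω ω' h => Lat.Crs.dep TL n (tN n) (tE n) ω ω' fun v hv => h v (hF hv)⟩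

/-- lower bound of the crossing probability.  `n ≥ 2`: `hx_crs`, `RSW.hx'` with `k = 1` (`2 n ≤ 2 tN n`, `4 ≤ 2 tN n`).  `n = 1`: the configuration `fun _ => true` has a crossing, `pr_pos`. -/
theorem tcrs_pr {κ : ℕ → ℝ} (h : RSW TL κ) : ∃ p : ℝ, 0 < p ∧ ∀ n : ℕ, 1 ≤ n →
    p ≤ pr (TL.Crs n (tN n) (tE n)) := by
  obtain ⟨F, hF⟩ := tq6_dep 1
  refine ⟨min (κ 1) ((1 / 2 : ℝ) ^ F.card), lt_min (h.pos 1) (by positivity), fun n hn => ?_⟩
  rcases Nat.lt_or_ge n 2 with h2 | h2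
  · have hn1 : n = 1 := by omega
    subst hn1
    refine (min_le_right _ _).trans (pr_pos hF (ω := fun _ => true) ?_)
    apply hx_crs hn
    have hb := (tN_bd 1).1
    have hmem : ∀ a : ℤ, -1 ≤ a → a ≤ 1 → ((a, 0) : Pt) ∈
        rect (-((1 : ℕ) : ℤ)) ((1 : ℕ) : ℤ) (-(tN 1)) (tN 1) ∩ TL.col true (fun _ => true) := by
      intro a h1 h3
      refine ⟨⟨⟨?_, ?_⟩, ?_, ?_⟩, rfl⟩
      · push_cast
        exact h1
      · push_cast
        exact h3
      · show -(tN 1) ≤ 0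
        push_cast at hb
        omega
      · show (0 : ℤ) ≤ tN 1
        push_cast at hb
        omega
    refine ⟨(-1, 0), (1, 0), by norm_num, by norm_num, ?_⟩
    refine Lat.Cn.trans (Lat.Cn.of_adj (hmem (-1) (by norm_num) (by norm_num))
      (hmem 0 (by norm_num) (by norm_num)) ?_) (Lat.Cn.of_adj
      (hmem 0 (by norm_num) (by norm_num)) (hmem 1 (by norm_num) (by norm_num)) ?_)
    · rw [TL_adj_iff]
      left
      exact ⟨rfl, Or.inl (by norm_num)⟩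
    · rw [TL_adj_iff]
      left
      exact ⟨rfl, Or.inl (by norm_num)⟩
  · refine (min_le_left _ _).trans ?_
    have hb := (tN_bd n).1
    have h2' : (2 : ℤ) ≤ n := by exact_mod_cast h2
    have h3 := h.hx' (k := 1) le_rfl true (a := -(n : ℤ)) (b := n) (p := -(tN n)) (q := tN n)
      (by omega) (by omega) (by push_cast; omega)
    refine h3.trans (pr_mono (Lat.HX.loc TL true _ _ _ _) ?_ fun ω hω => hx_crs hn hω)
    exact tq6_dep n

end SC

end
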