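import Mathlib
import Pool.Agent.Lib_MP_e0a489_m.G05
import Pool.Agent.Lib_MP_e0a489_m.G06
import Pool.Agent.Lib_MP_e0a489_m.G12
import Pool.Agent.Lib_MP_e0a489_m.G15
import Pool.Agent.Lib_MP_e0a489_m.G18
import Pool.Agent.Lib_MP_e0a489_m.G21

/-!
# MP_e0a489_pr: merged library part G27

Concatenation of library files (each in its own section), only to save build time.
-/

/-! ### from `Lib_MP_e0a489.TT2` -/

section

/-!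
# MP_e0a489, module TT 2: the constants of one lattice
-/

set_option autoImplicit false

namespace SC

variable [IfL] [IfX]

namespace TT

open Classical

/-- All one-time properties and the comparison for constant correlations, with common constants `C`, `c`,
`R₀`. -/
structure TP (L : Lat) (C c : ℝ) (R₀ : ℤ) : Prop where
  ap : AlProps L C R₀
  c0 : 0 < c
  c1 : c ≤ 1 / 2
  up : ∀ r R : ℤ, R₀ ≤ r → r ≤ R → al L r R ≤ C * ((r : ℝ) / R) ^ (1 + c)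
  low : ∀ r R : ℤ, R₀ ≤ r → r ≤ R → ((r : ℝ) / R) ^ (2 - c) ≤ C * al L r R
  cmpt : ∀ t : ℝ, 0 ≤ t → ∀ (b : Bool) (x : Pt) (r R r' R' : ℤ), R₀ ≤ r → R₀ ≤ r' → r ≤ R →
    r ≤ 2 * r' → r' ≤ R' → R' ≤ 4 * R → pr2 (kt t) (L.TwoAt b x r R) ≤ C * be L t r' R'

/-- all fields only concern radii `≥ R₀` -/
theorem AlProps.mono' {L : Lat} {C C' : ℝ} {R₀ R₁ : ℤ} (h : AlProps L C R₀) (hC : C ≤ C')
    (hR : R₀ ≤ R₁) : AlProps L C' R₁ := by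
  obtain ⟨h1, h2, h3, h4, h5, h6, h7⟩ := h
  refine ⟨h1.trans hC, h2.trans hR, fun r R a b => h3 r R (hR.trans a) b, h4, h5, ?_, ?_⟩
  · intro c x r R r' R' a1 a2 a3 a4 a5 a6
    exact (h6 c x r R r' R' (hR.trans a1) (hR.trans a2) a3 a4 a5 a6).trans
      (mul_le_mul_of_nonneg_right hC (h3 r' R' (hR.trans a2) a5).le)
  · intro r ρ R a1 a2 a3
    exact (h7 r ρ R (hR.trans a1) a2 a3).trans
      (mul_le_mul_of_nonneg_right hC (h3 r R (hR.trans a1) (a2.trans a3)).le)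

/-- Comparison for all centres and constant correlations: the proof of `cmp_all` (SE24) for `pr2 (kt t)`: `pr2_twoAt`, `shift_small`
(`L.shift x = L.shift x'`, `nrm x' ≤ 1`), `cmp2` for `L' = L.shift x'` (`RSW.shift`), colours `b`, `true`, centre `-x'`, and
`(L'.shift (-x')) = L` (`shift_shift`, `shift_zero`).  If `r' = R'` the right side is `C` and the left side at most `1` (`C ≥ 1`). -/
theorem cmpt_ex (κ : ℕ → ℝ) : ∃ (C : ℝ) (R₀ : ℤ), 1 ≤ C ∧ 16 ≤ R₀ ∧ ∀ L : Lat, Fam L κ →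
    ∀ t : ℝ, 0 ≤ t → ∀ (b : Bool) (x : Pt) (r R r' R' : ℤ), R₀ ≤ r → R₀ ≤ r' → r ≤ R →
      r ≤ 2 * r' → r' ≤ R' → R' ≤ 4 * R → pr2 (kt t) (L.TwoAt b x r R) ≤ C * be L t r' R' := by
  obtain ⟨C, R₀, hC, hR₀, H⟩ := cmp2_x κ
  refine ⟨max 1 C, R₀, le_max_left _ _, hR₀, ?_⟩
  intro L hL t ht b x r R r' R' h1 h2 h3 h4 h5 h6
  have hk : Kap (kt t) := kt_kap ht
  unfold be
  split_ifs with h
  · obtain ⟨x', hx', hs⟩ := shift_small hL x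
    have hn : nrm (-x') = nrm x' := by
      unfold nrm
      rw [Prod.fst_neg, Prod.snd_neg, abs_neg, abs_neg]
    have key := H (L.shift x') (hL.rsw.shift x') (kt t) (fun v => hk v) b
      true (-x') r R r' R' h1 h2 h3 (by rw [hn]; omega) h4 h h6
    have e : (L.shift x').shift (-x') = L := by
      rw [shift_shift, add_neg_cancel, shift_zero]
    rw [pr2_twoAt (L.shift x'), e] at key
    rw [pr2_twoAt, hs]
    exact key.trans (mul_le_mul_of_nonneg_right (le_max_right _ _) (pr2_nonneg _ hk))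
  · rw [mul_one]
    exact (pr2_le_one (TwoAt_loc _ _ _ _ _) hk).trans (le_max_left _ _)

/-- Common constants: `C` = maximum of `1` and all the constants, `c` = minimum of the exponents of `al_upper` and `al_lower` (`0 < r / R ≤ 1`, so
`(r/R) ^ (1 + c_up) ≤ (r/R) ^ (1 + c)` and `(r/R) ^ (2 - c) ≤ (r/R) ^ (2 - c_low)`), `R₁` = maximum of the radii. -/
theorem tp_ex {L : Lat} {κ : ℕ → ℝ} (h : Fam L κ) :
    ∃ (C c : ℝ) (R₁ : ℤ), ∀ R₀, R₁ ≤ R₀ → TP L C c R₀ := by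
  obtain ⟨C₁, R₁, H₁⟩ := al_props κ
  obtain ⟨C₂, c₂, R₂, a1, a2, a3, a4, a5⟩ := al_upper h
  obtain ⟨C₃, c₃, R₃, b1, b2, b3, b4, b5⟩ := al_lower h
  obtain ⟨C₄, R₄, d1, d2, d3⟩ := cmpt_ex κ
  have hA := H₁ L h
  refine ⟨max (max C₁ C₂) (max C₃ C₄), min c₂ c₃, max (max R₁ R₂) (max R₃ R₄), ?_⟩
  intro R₀ hR₀
  have q1 : C₁ ≤ max (max C₁ C₂) (max C₃ C₄) := (le_max_left _ _).trans (le_max_left _ _)
  have q2 : C₂ ≤ max (max C₁ C₂) (max C₃ C₄) := (le_max_right _ _).trans (le_max_left _ _)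
  have q3 : C₃ ≤ max (max C₁ C₂) (max C₃ C₄) := (le_max_left _ _).trans (le_max_right _ _)
  have q4 : C₄ ≤ max (max C₁ C₂) (max C₃ C₄) := (le_max_right _ _).trans (le_max_right _ _)
  have r1 : R₁ ≤ R₀ := ((le_max_left _ _).trans (le_max_left _ _)).trans hR₀
  have r2 : R₂ ≤ R₀ := ((le_max_right _ _).trans (le_max_left _ _)).trans hR₀
  have r3 : R₃ ≤ R₀ := ((le_max_left _ _).trans (le_max_right _ _)).trans hR₀
  have r4 : R₄ ≤ R₀ := ((le_max_right _ _).trans (le_max_right _ _)).trans hR₀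
  have hA' : AlProps L (max (max C₁ C₂) (max C₃ C₄)) R₀ := AlProps.mono' hA q1 r1
  have frac : ∀ r R : ℤ, R₀ ≤ r → r ≤ R → 0 < (r : ℝ) / R ∧ (r : ℝ) / R ≤ 1 := by
    intro r R h1 h2
    have h16 : (16 : ℤ) ≤ R₀ := hA'.R16
    have hr : (0 : ℝ) < r := by exact_mod_cast (by omega : (0 : ℤ) < r)
    have hRR : (0 : ℝ) < R := by exact_mod_cast (by omega : (0 : ℤ) < R)
    exact ⟨div_pos hr hRR, (div_le_one hRR).2 (by exact_mod_cast h2)⟩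
  refine ⟨hA', lt_min a2 b2, (min_le_left _ _).trans a3, ?_, ?_, ?_⟩
  · intro r R h1 h2
    obtain ⟨f1, f2⟩ := frac r R h1 h2
    have e1 : ((r : ℝ) / R) ^ (1 + c₂) ≤ ((r : ℝ) / R) ^ (1 + min c₂ c₃) :=
      Real.rpow_le_rpow_of_exponent_ge f1 f2 (by linarith [min_le_left c₂ c₃])
    have e2 : 0 ≤ ((r : ℝ) / R) ^ (1 + min c₂ c₃) := Real.rpow_nonneg f1.le _
    calc al L r R ≤ C₂ * ((r : ℝ) / R) ^ (1 + c₂) := a5 r R (r2.trans h1) h2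
      _ ≤ C₂ * ((r : ℝ) / R) ^ (1 + min c₂ c₃) := mul_le_mul_of_nonneg_left e1 a1.le
      _ ≤ _ := mul_le_mul_of_nonneg_right q2 e2
  · intro r R h1 h2
    obtain ⟨f1, f2⟩ := frac r R h1 h2
    have e1 : ((r : ℝ) / R) ^ (2 - min c₂ c₃) ≤ ((r : ℝ) / R) ^ (2 - c₃) :=
      Real.rpow_le_rpow_of_exponent_ge f1 f2 (by linarith [min_le_right c₂ c₃])
    exact e1.trans ((b5 r R (r3.trans h1) h2).trans
      (mul_le_mul_of_nonneg_right q3 (hA'.pos r R h1 h2).le))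
  · intro t ht b x r R r' R' h1 h2 h3 h4 h5 h6
    exact (d3 L h t ht b x r R r' R' (r4.trans h1) (r4.trans h2) h3 h4 h5 h6).trans
      (mul_le_mul_of_nonneg_right q4 (be_nonneg L ht _ _))

/-! ### Consequences -/

variable {L : Lat} {C c : ℝ} {R₀ : ℤ}

/-- `pr (TwoAt b x r R) ≤ C al L r' R'` is `AlProps.cmp`; here the special case of the event `TwoA true`
with changed radii (`al L r R = 1` only if `r = R`, then `R' ≤ 4 R = 4 r`, `r ≤ 2 r'`; use `AlProps.cmp` if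
`r < R` and for `r = R` the bound `1 ≤ C al L r' R'`: `al L r' (2 r)`-type annuli of bounded ratio: apply `AlProps.low`... ).
PROOF for `r = R`: `r' ≤ R' ≤ 4 r ≤ 8 r'`, and `((r' : ℝ) / R') ^ (2 - c) ≤ C * al L r' R'` with
`(r' / R') ≥ 1 / 8`, so `1 ≤ 64 C al L r' R'`. -/
theorem TP.al_cmp (hp : TP L C c R₀) {r R r' R' : ℤ} (h0 : R₀ ≤ r) (h1 : R₀ ≤ r') (h2 : r ≤ R)
    (h3 : r ≤ 2 * r') (h4 : r' ≤ R') (h5 : R' ≤ 4 * R) : al L r R ≤ 64 * C * al L r' R' := by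
  have hC := hp.ap.C1
  have h16 := hp.ap.R16
  have hpos : 0 < al L r' R' := hp.ap.pos r' R' h1 h4
  by_cases h : r < R
  · have e : al L r R = pr (L.TwoAt true 0 r R) := by
      unfold al
      rw [if_pos h]
      congr 1
      funext ω
      exact propext (TwoAt_zero L true r R ω).symm
    have e2 := hp.ap.cmp true 0 r R r' R' h0 h1 h2 h3 h4 h5
    rw [e]
    refine e2.trans ?_
    have e3 : 0 ≤ C * al L r' R' := mul_nonneg (by linarith) hpos.le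
    rw [mul_assoc]
    linarith
  · have hr' : (0 : ℝ) < r' := by exact_mod_cast (by omega : (0 : ℤ) < r')
    have hR' : (0 : ℝ) < R' := by exact_mod_cast (by omega : (0 : ℤ) < R')
    have h8 : (R' : ℝ) ≤ 8 * r' := by exact_mod_cast (by omega : R' ≤ 8 * r')
    have f1 : (1 : ℝ) / 8 ≤ (r' : ℝ) / R' := by
      rw [div_le_div_iff₀ (by norm_num) hR']
      linarith
    have hc0 := hp.c0
    have hc1 := hp.c1
    have f2 : ((1 : ℝ) / 8) ^ (2 - c) ≤ ((r' : ℝ) / R') ^ (2 - c) :=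
      Real.rpow_le_rpow (by norm_num) f1 (by linarith)
    have f3 : ((1 : ℝ) / 8) ^ (2 : ℝ) ≤ ((1 : ℝ) / 8) ^ (2 - c) :=
      Real.rpow_le_rpow_of_exponent_ge (by norm_num) (by norm_num) (by linarith)
    have f4 : ((1 : ℝ) / 8) ^ (2 : ℝ) = 1 / 64 := by
      rw [Real.rpow_two]
      norm_num
    have f5 := hp.low r' R' h1 h4
    have f6 := hp.ap.le1 r R
    rw [mul_assoc]
    linarith

/-- `be L t r R` with changed radii: for `r < R` it is `cmpt` (`b = true`, `x = 0`, `TwoAt_zero`); for `r = R` it is `1` and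
`R' ≤ 8 r'`: `1 ≤ 64 C al L r' R' `; but `be L t r' R'` may be much smaller than `al`, so we need `r < R`. -/
theorem TP.be_cmp (hp : TP L C c R₀) {t : ℝ} (ht : 0 ≤ t) {r R r' R' : ℤ} (h0 : R₀ ≤ r)
    (h1 : R₀ ≤ r') (h2 : r < R) (h3 : r ≤ 2 * r') (h4 : r' ≤ R') (h5 : R' ≤ 4 * R) :
    be L t r R ≤ C * be L t r' R' := by
  have e : be L t r R = pr2 (kt t) (L.TwoAt true 0 r R) := by
    unfold be
    rw [if_pos h2]
    congr 1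
    funext ω
    exact propext (TwoAt_zero L true r R ω).symm
  rw [e]
  exact hp.cmpt t ht true 0 r R r' R' h0 h1 h2.le h3 h4 h5

/-- The function `m ^ 2 α(R₀, m)` grows at least like `m ^ c`:
`C al(R₀,n) ≥ al(R₀,m) al(m,n) ≥ al(R₀,m) C⁻¹ (m/n) ^ (2-c)` (`qmult`, `low`); multiply by `n ^ 2`. -/
theorem TP.growth (hp : TP L C c R₀) {m n : ℤ} (h1 : R₀ ≤ m) (h2 : m ≤ n) :
    ((m : ℝ) ^ 2 * al L R₀ m) * ((n : ℝ) / m) ^ c ≤ C ^ 2 * ((n : ℝ) ^ 2 * al L R₀ n) := by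
  have hC := hp.ap.C1
  have h16 := hp.ap.R16
  have hm : (0 : ℝ) < m := by exact_mod_cast (by omega : (0 : ℤ) < m)
  have hn : (0 : ℝ) < n := by exact_mod_cast (by omega : (0 : ℤ) < n)
  have a1 := hp.ap.qmult R₀ m n le_rfl h1 h2
  have a2 := hp.low m n h1 h2
  have a3 : 0 ≤ al L R₀ m := (hp.ap.pos R₀ m le_rfl h1).le
  have a4 : al L R₀ m * ((m : ℝ) / n) ^ (2 - c) ≤ C ^ 2 * al L R₀ n := by
    calc al L R₀ m * ((m : ℝ) / n) ^ (2 - c) ≤ al L R₀ m * (C * al L m n) :=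
          mul_le_mul_of_nonneg_left a2 a3
      _ = C * (al L R₀ m * al L m n) := by ring
      _ ≤ C * (C * al L R₀ n) := mul_le_mul_of_nonneg_left a1 (by linarith)
      _ = C ^ 2 * al L R₀ n := by ring
  have a5 : ((m : ℝ) / n) ^ (2 - c) = ((m : ℝ) / n) ^ 2 * ((n : ℝ) / m) ^ c := by
    rw [Real.rpow_sub (div_pos hm hn), Real.rpow_two, ← inv_div (n : ℝ) m,
      Real.inv_rpow (div_pos hn hm).le, div_inv_eq_mul]
  rw [a5] at a4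
  have a6 : (n : ℝ) ^ 2 * ((m : ℝ) / n) ^ 2 = (m : ℝ) ^ 2 := by
    rw [← mul_pow, mul_div_cancel₀ _ hn.ne']
  calc ((m : ℝ) ^ 2 * al L R₀ m) * ((n : ℝ) / m) ^ c
      = (n : ℝ) ^ 2 * (al L R₀ m * (((m : ℝ) / n) ^ 2 * ((n : ℝ) / m) ^ c)) := by
        rw [← a6]; ring
    _ ≤ (n : ℝ) ^ 2 * (C ^ 2 * al L R₀ n) := mul_le_mul_of_nonneg_left a4 (sq_nonneg _)
    _ = C ^ 2 * ((n : ℝ) ^ 2 * al L R₀ n) := by ring

/-- `growth` with `m = R₀` (`al L R₀ R₀ = 1`) -/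
theorem TP.growth0 (hp : TP L C c R₀) {n : ℤ} (h : R₀ ≤ n) :
    1 ≤ C ^ 2 * ((n : ℝ) ^ 2 * al L R₀ n) := by
  have h16 := hp.ap.R16
  have hR : (1 : ℝ) ≤ R₀ := by exact_mod_cast (by omega : (1 : ℤ) ≤ R₀)
  have hn : (R₀ : ℝ) ≤ n := by exact_mod_cast h
  have a1 := hp.growth le_rfl h
  have a2 : al L R₀ R₀ = 1 := by
    unfold al
    rw [if_neg (lt_irrefl _)]
  rw [a2, mul_one] at a1
  have a3 : (1 : ℝ) ≤ ((n : ℝ) / R₀) ^ c :=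
    Real.one_le_rpow ((one_le_div (by linarith)).2 hn) hp.c0.le
  have a4 : (1 : ℝ) ≤ (R₀ : ℝ) ^ 2 := one_le_pow₀ hR
  refine le_trans ?_ a1
  nlinarith [mul_le_mul a4 a3 zero_le_one (by linarith)]

/-- `1 ≤ t (ℓ² al)` and `0 ≤ al ≤ 1` -/
theorem TP.beyond_pos (hp : TP L C c R₀) {ℓ : ℤ} {t : ℝ} (h1 : R₀ ≤ ℓ) (h : Beyond L R₀ ℓ t) :
    0 < t ∧ 1 ≤ t * (ℓ : ℝ) ^ 2 := by
  have h16 := hp.ap.R16
  have a1 : 0 < al L R₀ ℓ := hp.ap.pos R₀ ℓ le_rfl h1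
  have a2 : al L R₀ ℓ ≤ 1 := hp.ap.le1 _ _
  have a3 : 0 ≤ (ℓ : ℝ) ^ 2 * al L R₀ ℓ := mul_nonneg (sq_nonneg _) a1.le
  unfold Beyond at h
  have ht : 0 < t := by
    by_contra hc
    have := mul_nonpos_of_nonpos_of_nonneg (not_lt.1 hc) a3
    linarith
  refine ⟨ht, h.trans ?_⟩
  exact mul_le_mul_of_nonneg_left (mul_le_of_le_one_right (sq_nonneg _) a2) ht.le

/-- `growth` (with `(n/m) ^ c ≥ 1`): beyond a larger scale up to the constant `C ^ 2` -/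
theorem TP.beyond_up (hp : TP L C c R₀) {ℓ m : ℤ} {t : ℝ} (h1 : R₀ ≤ ℓ) (h2 : ℓ ≤ m)
    (h : Beyond L R₀ ℓ t) : 1 ≤ C ^ 2 * (t * ((m : ℝ) ^ 2 * al L R₀ m)) := by
  have h16 := hp.ap.R16
  obtain ⟨ht, -⟩ := hp.beyond_pos h1 h
  have hl : (0 : ℝ) < ℓ := by exact_mod_cast (by omega : (0 : ℤ) < ℓ)
  have hm : (ℓ : ℝ) ≤ m := by exact_mod_cast h2
  have a1 := hp.growth h1 h2
  have a2 : (1 : ℝ) ≤ ((m : ℝ) / ℓ) ^ c :=
    Real.one_le_rpow ((one_le_div hl).2 hm) hp.c0.le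
  have a3 : 0 ≤ (ℓ : ℝ) ^ 2 * al L R₀ ℓ :=
    mul_nonneg (sq_nonneg _) (hp.ap.pos R₀ ℓ le_rfl h1).le
  have a4 : (ℓ : ℝ) ^ 2 * al L R₀ ℓ ≤ C ^ 2 * ((m : ℝ) ^ 2 * al L R₀ m) :=
    (le_mul_of_one_le_right a3 a2).trans a1
  unfold Beyond at h
  calc (1 : ℝ) ≤ t * ((ℓ : ℝ) ^ 2 * al L R₀ ℓ) := h
    _ ≤ t * (C ^ 2 * ((m : ℝ) ^ 2 * al L R₀ m)) := mul_le_mul_of_nonneg_left a4 ht.le
    _ = C ^ 2 * (t * ((m : ℝ) ^ 2 * al L R₀ m)) := by ring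

/-- The product of the probabilities of two annuli around a ring of radius `ρ`: `al(r, ρ₁) ≤ 64 C al(r, ρ)` if
`ρ ≤ 4 ρ₁`, `al(ρ₂, R) ≤ 64 C al(ρ, R)` if `ρ₂ ≤ 2 ρ` (`al_cmp`), `qmult`. -/
theorem TP.al_mul (hp : TP L C c R₀) {r ρ₁ ρ ρ₂ R : ℤ} (h0 : R₀ ≤ r) (h1 : r ≤ ρ₁) (h2 : ρ₁ ≤ ρ)
    (h3 : ρ ≤ 4 * ρ₁) (h4 : ρ ≤ ρ₂) (h5 : ρ₂ ≤ 2 * ρ) (h6 : ρ₂ ≤ R) :
    al L r ρ₁ * al L ρ₂ R ≤ (64 * C) ^ 3 * al L r R := by
  have hC := hp.ap.C1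
  have h16 := hp.ap.R16
  have b1 : al L r ρ₁ ≤ 64 * C * al L r ρ :=
    hp.al_cmp h0 h0 h1 (by omega) (h1.trans h2) h3
  have b2 : al L ρ₂ R ≤ 64 * C * al L ρ R :=
    hp.al_cmp (by omega) (by omega) h6 h5 (h4.trans h6) (by omega)
  have b3 := hp.ap.qmult r ρ R h0 (h1.trans h2) (h4.trans h6)
  have p1 : 0 ≤ al L r ρ := (hp.ap.pos r ρ h0 (h1.trans h2)).le
  have p2 : 0 ≤ al L ρ₂ R := (hp.ap.pos ρ₂ R (by omega) h6).le
  have p3 : 0 ≤ al L r R := (hp.ap.pos r R h0 (by omega)).le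
  have hC0 : 0 ≤ 64 * C := by linarith
  calc al L r ρ₁ * al L ρ₂ R ≤ (64 * C * al L r ρ) * (64 * C * al L ρ R) :=
        mul_le_mul b1 b2 p2 (mul_nonneg hC0 p1)
    _ = (64 * C) ^ 2 * (al L r ρ * al L ρ R) := by ring
    _ ≤ (64 * C) ^ 2 * (C * al L r R) := mul_le_mul_of_nonneg_left b3 (by positivity)
    _ ≤ (64 * C) ^ 2 * ((64 * C) * al L r R) := by
        refine mul_le_mul_of_nonneg_left (mul_le_mul_of_nonneg_right (by linarith) p3) (by positivity)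
    _ = (64 * C) ^ 3 * al L r R := by ring

end TT

end SC

end

/-! ### from `Lib_MP_e0a489.TTS` -/

section

/-!
# MP_e0a489, module TT, scales: the correlation length of the lag `s`, local factors
-/

set_option autoImplicit false

namespace SC

variable [IfL] [IfX]

namespace TT

open Classical

variable {L : Lat} {C c : ℝ} {R₀ : ℤ}

private theorem tts_al_self (L : Lat) (r : ℤ) : al L r r = 1 := by
  unfold al
  rw [if_neg (lt_irrefl r)]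

private theorem tts_pr2_nonneg (L : Lat) (b : Bool) (x : Pt) (r d : ℤ) {s : ℝ} (hs : 0 ≤ s) :
    0 ≤ pr2 (kt s) (L.TwoAt b x r d) :=
  (sq_nonneg _).trans (pr2_ge_sq (TwoAt_loc L b x r d) (kt_kap hs))

private theorem tts_exp_half {s : ℝ} (hs : 0 ≤ s) : s * Real.exp (-(s / 2)) ≤ 2 := by
  have h1 : s / 2 + 1 ≤ Real.exp (s / 2) := Real.add_one_le_exp _
  have h2 : Real.exp (s / 2) * Real.exp (-(s / 2)) = 1 := by
    rw [← Real.exp_add, add_neg_cancel, Real.exp_zero]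
  have h3 : 0 < Real.exp (-(s / 2)) := Real.exp_pos _
  have h4 : (s / 2 + 1) * Real.exp (-(s / 2)) ≤ 1 :=
    (mul_le_mul_of_nonneg_right h1 h3.le).trans h2.le
  nlinarith

private theorem tts_exp_one (s : ℝ) : s * Real.exp (-s) ≤ 1 := by
  have h1 : s + 1 ≤ Real.exp s := Real.add_one_le_exp _
  have h2 : Real.exp s * Real.exp (-s) = 1 := by
    rw [← Real.exp_add, add_neg_cancel, Real.exp_zero]
  have h3 : 0 < Real.exp (-s) := Real.exp_pos _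
  have h4 : (s + 1) * Real.exp (-s) ≤ 1 :=
    (mul_le_mul_of_nonneg_right h1 h3.le).trans h2.le
  nlinarith

/-- CORRELATION LENGTH of the lag `s ≥ t`.  Let `ℓ'` be the smallest integer `≥ R₀` with `Beyond L R₀ ℓ' s`; `ℓ` is such an integer (`t ≤ s`), so
`ℓ' ≤ ℓ`.  If `ℓ' > R₀` then `s (ℓ'-1) ^ 2 al L R₀ (ℓ'-1) < 1`, `ℓ' ≤ 2 (ℓ'-1)`, `al L R₀ ℓ' ≤ al L R₀ (ℓ'-1)` (`mono`), so `s ℓ' ^ 2 al L R₀ ℓ' ≤ 4`; and
`al L R₀ ℓ ≤ al L R₀ ℓ'`, `1 ≤ t ℓ ^ 2 al L R₀ ℓ ≤ t ℓ ^ 2 al L R₀ ℓ'`, so (multiply the inequality `s ℓ' ^ 2 al L R₀ ℓ' ≤ 4` by `t ℓ ^ 2` and divide by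
`t ℓ ^ 2 al L R₀ ℓ' ≥ 1`) `s ℓ' ^ 2 ≤ 4 t ℓ ^ 2`. -/
theorem scale (hp : TP L C c R₀) {ℓ : ℤ} {t s : ℝ} (hℓ : R₀ ≤ ℓ) (hb : Beyond L R₀ ℓ t)
    (hts : t ≤ s) : ∃ ℓ' : ℤ, R₀ ≤ ℓ' ∧ ℓ' ≤ ℓ ∧ Beyond L R₀ ℓ' s ∧
      (ℓ' = R₀ ∨ (s * ((ℓ' : ℝ) ^ 2 * al L R₀ ℓ') ≤ 4 ∧ s * (ℓ' : ℝ) ^ 2 ≤ 4 * (t * (ℓ : ℝ) ^ 2))) := by
  have ht := hp.beyond_pos hℓ hb
  have hs0 : 0 < s := ht.1.trans_le hts
  have hal0 : 0 < al L R₀ ℓ := hp.ap.pos R₀ ℓ le_rfl hℓ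
  have hbs : Beyond L R₀ ℓ s := by
    unfold Beyond at hb ⊢
    exact hb.trans (mul_le_mul_of_nonneg_right hts (mul_nonneg (sq_nonneg _) hal0.le))
  obtain ⟨ℓ', ⟨h1, h2⟩, h3⟩ := Int.exists_least_of_bdd
    (P := fun n => R₀ ≤ n ∧ Beyond L R₀ n s) ⟨R₀, fun z hz => hz.1⟩ ⟨ℓ, hℓ, hbs⟩
  refine ⟨ℓ', h1, h3 ℓ ⟨hℓ, hbs⟩, h2, ?_⟩
  rcases h1.eq_or_lt with he | hlt
  · exact Or.inl he.symm
  right
  have hR := hp.ap.R16
  have hnb : ¬ Beyond L R₀ (ℓ' - 1) s := by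
    intro h
    have := h3 (ℓ' - 1) ⟨by omega, h⟩
    omega
  unfold Beyond at hnb hb
  push_cast at hnb
  rw [not_le] at hnb
  have hℓ'17 : (17 : ℝ) ≤ ℓ' := by exact_mod_cast (by omega : (17 : ℤ) ≤ ℓ')
  have hal' : 0 < al L R₀ ℓ' := hp.ap.pos R₀ ℓ' le_rfl h1
  have hm1 : al L R₀ ℓ' ≤ al L R₀ (ℓ' - 1) :=
    hp.ap.mono R₀ (ℓ' - 1) R₀ ℓ' (by omega) le_rfl (by omega) (by omega)
  have hm2 : al L R₀ ℓ ≤ al L R₀ ℓ' :=
    hp.ap.mono R₀ ℓ' R₀ ℓ (by omega) le_rfl h1 (h3 ℓ ⟨hℓ, hbs⟩)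
  have hsq : (ℓ' : ℝ) ^ 2 ≤ 4 * ((ℓ' : ℝ) - 1) ^ 2 := by nlinarith
  have e1 : s * ((ℓ' : ℝ) ^ 2 * al L R₀ ℓ') ≤ 4 := by
    have e2 : (ℓ' : ℝ) ^ 2 * al L R₀ ℓ' ≤ 4 * ((ℓ' : ℝ) - 1) ^ 2 * al L R₀ (ℓ' - 1) :=
      mul_le_mul hsq hm1 hal'.le (by positivity)
    have e3 := mul_le_mul_of_nonneg_left e2 hs0.le
    nlinarith
  refine ⟨e1, ?_⟩
  have e4 : 1 ≤ t * ((ℓ : ℝ) ^ 2 * al L R₀ ℓ') :=
    hb.trans (mul_le_mul_of_nonneg_left (mul_le_mul_of_nonneg_left hm2 (sq_nonneg _)) ht.1.le)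
  have e5 : 0 ≤ s * (ℓ' : ℝ) ^ 2 := by positivity
  have e6 : s * (ℓ' : ℝ) ^ 2 * 1 ≤ s * (ℓ' : ℝ) ^ 2 * (t * ((ℓ : ℝ) ^ 2 * al L R₀ ℓ')) :=
    mul_le_mul_of_nonneg_left e4 e5
  have e7 : 0 ≤ t * (ℓ : ℝ) ^ 2 := by have := ht.1; positivity
  have e8 := mul_le_mul_of_nonneg_right e1 e7
  calc s * (ℓ' : ℝ) ^ 2 ≤ s * (ℓ' : ℝ) ^ 2 * (t * ((ℓ : ℝ) ^ 2 * al L R₀ ℓ')) := by
        rw [mul_one] at e6; exact e6
    _ = s * ((ℓ' : ℝ) ^ 2 * al L R₀ ℓ') * (t * (ℓ : ℝ) ^ 2) := by ring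
    _ ≤ 4 * (t * (ℓ : ℝ) ^ 2) := e8

/-- The same with a weight `exp (- s / 2)` and without alternative.  If `ℓ' = R₀`: `al L R₀ R₀ = 1`, `s exp (-s/2) ≤ 1`, and
`s exp (-s) R₀ ^ 2 ≤ R₀ ^ 2 ≤ R₀ ^ 2 t ℓ ^ 2` (`beyond_pos`); otherwise the exponentials are at most `1` and `R₀ ≥ 1`. -/
theorem scale' (hp : TP L C c R₀) {ℓ : ℤ} {t s : ℝ} (hℓ : R₀ ≤ ℓ) (hb : Beyond L R₀ ℓ t)
    (hts : t ≤ s) : ∃ ℓ' : ℤ, R₀ ≤ ℓ' ∧ ℓ' ≤ ℓ ∧ Beyond L R₀ ℓ' s ∧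
      s * Real.exp (-(s / 2)) * ((ℓ' : ℝ) ^ 2 * al L R₀ ℓ') ≤ 4 * (R₀ : ℝ) ^ 2 ∧
      s * Real.exp (-s) * (ℓ' : ℝ) ^ 2 ≤ 4 * (R₀ : ℝ) ^ 2 * (t * (ℓ : ℝ) ^ 2) := by
  obtain ⟨ℓ', h1, h2, h3, h4⟩ := scale hp hℓ hb hts
  have ht := hp.beyond_pos hℓ hb
  have hs0 : 0 < s := ht.1.trans_le hts
  have hR := hp.ap.R16
  have hR1 : (1 : ℝ) ≤ (R₀ : ℝ) ^ 2 := by
    have : (16 : ℝ) ≤ R₀ := by exact_mod_cast hR
    nlinarith
  refine ⟨ℓ', h1, h2, h3, ?_⟩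
  rcases h4 with h4 | ⟨h4, h5⟩
  · subst h4
    have e1 := tts_exp_half hs0.le
    have e2 := tts_exp_one s
    constructor
    · rw [tts_al_self, mul_one]
      nlinarith
    · have e3 : 0 ≤ s * Real.exp (-s) := by positivity
      have e4 : s * Real.exp (-s) * (ℓ' : ℝ) ^ 2 ≤ 1 * (ℓ' : ℝ) ^ 2 :=
        mul_le_mul_of_nonneg_right e2 (sq_nonneg _)
      have e5 : (ℓ' : ℝ) ^ 2 * 1 ≤ (ℓ' : ℝ) ^ 2 * (t * (ℓ : ℝ) ^ 2) :=
        mul_le_mul_of_nonneg_left ht.2 (sq_nonneg _)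
      nlinarith
  · have hal' : 0 < al L R₀ ℓ' := hp.ap.pos R₀ ℓ' le_rfl h1
    have hE1 : Real.exp (-(s / 2)) ≤ 1 := by
      rw [Real.exp_le_one_iff]; linarith
    have hE2 : Real.exp (-s) ≤ 1 := by
      rw [Real.exp_le_one_iff]; linarith
    constructor
    · have e1 : 0 ≤ s * ((ℓ' : ℝ) ^ 2 * al L R₀ ℓ') := by positivity
      have e2 := mul_le_mul_of_nonneg_right hE1 e1
      calc s * Real.exp (-(s / 2)) * ((ℓ' : ℝ) ^ 2 * al L R₀ ℓ')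
          = Real.exp (-(s / 2)) * (s * ((ℓ' : ℝ) ^ 2 * al L R₀ ℓ')) := by ring
        _ ≤ 1 * (s * ((ℓ' : ℝ) ^ 2 * al L R₀ ℓ')) := e2
        _ ≤ 4 := by rw [one_mul]; exact h4
        _ ≤ 4 * (R₀ : ℝ) ^ 2 := by linarith
    · have e1 : 0 ≤ s * (ℓ' : ℝ) ^ 2 := by positivity
      have e2 := mul_le_mul_of_nonneg_right hE2 e1
      have e3 : 0 ≤ t * (ℓ : ℝ) ^ 2 := by linarith [ht.2]
      calc s * Real.exp (-s) * (ℓ' : ℝ) ^ 2 = Real.exp (-s) * (s * (ℓ' : ℝ) ^ 2) := by ring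
        _ ≤ 1 * (s * (ℓ' : ℝ) ^ 2) := e2
        _ ≤ 4 * (t * (ℓ : ℝ) ^ 2) := by rw [one_mul]; exact h5
        _ ≤ 4 * (R₀ : ℝ) ^ 2 * (t * (ℓ : ℝ) ^ 2) := by nlinarith

/-- LOCAL FACTOR.  `s` beyond the scale `ℓ'`: one-time bound up to `ℓ'`, then `KBOK`.  If `ℓ' = R₀`: `KBOK` with `r = R₀`, `al L R₀ R₀ = 1`, `C ≥ 1`.  If `ℓ' = d`:
`pr2 ≤ pr ≤ C al L R₀ d` (`AlProps.cmp`).  Otherwise `TwoAt b x R₀ d ⊆ TwoAt b x R₀ ℓ' ∧ TwoAt b x ℓ' d` (`TwoAt_mono`), `pr2_and` (`TwoAt_dep`),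
`pr2_le_pr`, `AlProps.cmp`, `KBOK`. -/
theorem loc_bulk (hp : TP L C c R₀) {C₁ c₁ : ℝ} (h1 : 1 ≤ C₁) (hc₁ : 0 ≤ c₁) (hk : KBOK L C₁ c₁ R₀) {ℓ' : ℤ}
    {s : ℝ} (hℓ : R₀ ≤ ℓ') (hb : Beyond L R₀ ℓ' s) (b : Bool) (x : Pt) {d : ℤ} (hd : ℓ' ≤ d) :
    pr2 (kt s) (L.TwoAt b x R₀ d) ≤ C * C₁ * (al L R₀ ℓ' * ((ℓ' : ℝ) / d) ^ (2 + c₁)) := by
  have hC := hp.ap.C1
  have hs := hp.beyond_pos hℓ hb
  have hR := hp.ap.R16
  have hK := kt_kap hs.1.le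
  have hd0 : (0 : ℝ) < d := by exact_mod_cast (by omega : (0 : ℤ) < d)
  have hl0 : (0 : ℝ) < ℓ' := by exact_mod_cast (by omega : (0 : ℤ) < ℓ')
  have hal := hp.ap.pos R₀ ℓ' le_rfl hℓ
  have hpow : 0 ≤ ((ℓ' : ℝ) / d) ^ (2 + c₁) := by positivity
  rcases hd.eq_or_lt with he | hlt
  · subst he
    have e1 := (pr2_le_pr (TwoAt_loc L b x R₀ ℓ') hK).trans
      (hp.ap.cmp b x R₀ ℓ' R₀ ℓ' le_rfl le_rfl hℓ (by omega) hℓ (by omega))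
    rw [div_self hl0.ne', Real.one_rpow, mul_one]
    have e2 : 0 ≤ C * al L R₀ ℓ' := by positivity
    nlinarith
  rcases hℓ.eq_or_lt with he | hlt'
  · have e1 := hk ℓ' s hℓ hb b x ℓ' d le_rfl hd
    have e2 : pr2 (kt s) (L.TwoAt b x R₀ d) = pr2 (kt s) (L.TwoAt b x ℓ' d) := by rw [← he]
    rw [e2]
    have e3 : al L R₀ ℓ' = 1 := by rw [← he]; exact tts_al_self L R₀
    rw [e3, one_mul]
    have e4 : 0 ≤ C₁ * ((ℓ' : ℝ) / d) ^ (2 + c₁) := by positivity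
    nlinarith
  · have e0 : pr2 (kt s) (L.TwoAt b x R₀ d) ≤
        pr2 (kt s) (fun ω => L.TwoAt b x R₀ ℓ' ω ∧ L.TwoAt b x ℓ' d ω) :=
      pr2_mono (TwoAt_loc L b x R₀ d) ((TwoAt_loc L b x R₀ ℓ').and (TwoAt_loc L b x ℓ' d)) hK
        fun ω h => ⟨TwoAt_mono h (by omega) le_rfl hlt' hd, TwoAt_mono h (by omega) hℓ hlt le_rfl⟩
    have e1 : pr2 (kt s) (fun ω => L.TwoAt b x R₀ ℓ' ω ∧ L.TwoAt b x ℓ' d ω) =
        pr2 (kt s) (L.TwoAt b x R₀ ℓ') * pr2 (kt s) (L.TwoAt b x ℓ' d) :=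
      pr2_and (TwoAt_loc L b x R₀ ℓ') (TwoAt_loc L b x ℓ' d) (TwoAt_dep L b x R₀ ℓ')
        (TwoAt_dep L b x ℓ' d) (fun v hv hv' => by
          have h1 : nrm (v - x) ≤ ℓ' := hv.2
          have h2 : ℓ' < nrm (v - x) := hv'.1
          omega) (kt s)
    have e2 := (pr2_le_pr (TwoAt_loc L b x R₀ ℓ') hK).trans
      (hp.ap.cmp b x R₀ ℓ' R₀ ℓ' le_rfl le_rfl hℓ (by omega) hℓ (by omega))
    have e3 := hk ℓ' s hℓ hb b x ℓ' d le_rfl hd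
    rw [e1] at e0
    refine e0.trans ?_
    have e4 := mul_le_mul e2 e3 (tts_pr2_nonneg L b x ℓ' d hs.1.le) (by positivity)
    refine e4.trans (le_of_eq ?_)
    ring

/-- The weighted local factor at the time `s ≥ t`, `d ≥ ℓ`.  `scale'` and `loc_bulk`:
`s e ^ (-s) (al ℓ' ^ 2) (ℓ' / d) ^ c₁ d ^ (-2) ≤ [s e ^ (-s/2) ℓ' ^ 2 al] d ^ (-2) e ^ (-s/2) (ℓ'/d) ^ c₁`, and `e ^ (-s/2) ℓ' ^ c₁ ≤ (e ^ (-s) ℓ' ^ 2) ^ (c₁/2)`
(`c₁ ≤ 1`) `≤ (4 R₀ ^ 2 ℓ ^ 2 t / s) ^ (c₁/2) ≤ 2 R₀ ℓ ^ c₁ (t/s) ^ (c₁/2)`.  So `C₂ = C C₁ 4 R₀ ^ 2 · 2 R₀` works. -/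
theorem loc_time (hp : TP L C c R₀) {C₁ c₁ : ℝ} (h1 : 1 ≤ C₁) (hc₁ : 0 < c₁) (hc₁' : c₁ ≤ 1 / 2)
    (hk : KBOK L C₁ c₁ R₀) : ∃ C₂ : ℝ, 0 < C₂ ∧ ∀ (ℓ d : ℤ) (t s : ℝ), R₀ ≤ ℓ → ℓ ≤ d →
      Beyond L R₀ ℓ t → t ≤ s → ∀ (b : Bool) (x : Pt),
      s * Real.exp (-s) * pr2 (kt s) (L.TwoAt b x R₀ d) ≤
        C₂ * (((ℓ : ℝ) / d) ^ c₁ / (d : ℝ) ^ 2) * (t / s) ^ (c₁ / 2) := by
  have hC := hp.ap.C1
  have hR := hp.ap.R16
  have hR0 : (16 : ℝ) ≤ R₀ := by exact_mod_cast hR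
  refine ⟨C * C₁ * (4 * (R₀ : ℝ) ^ 2) * (4 * (R₀ : ℝ) ^ 2), by positivity, ?_⟩
  intro ℓ d t s hℓ hℓd hb hts b x
  have ht := hp.beyond_pos hℓ hb
  have hs0 : 0 < s := ht.1.trans_le hts
  obtain ⟨ℓ', h1', h2', h3', h4, h5⟩ := scale' hp hℓ hb hts
  have hloc := loc_bulk hp h1 hc₁.le hk h1' h3' b x (h2'.trans hℓd)
  have hd0 : (0 : ℝ) < d := by exact_mod_cast (by omega : (0 : ℤ) < d)
  have hl0 : (0 : ℝ) < ℓ' := by exact_mod_cast (by omega : (0 : ℤ) < ℓ')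
  have hll0 : (0 : ℝ) < ℓ := by exact_mod_cast (by omega : (0 : ℤ) < ℓ)
  have hal := hp.ap.pos R₀ ℓ' le_rfl h1'
  have ht0 := ht.1
  -- the power
  have p1 : ((ℓ' : ℝ) / d) ^ (2 + c₁) = (ℓ' : ℝ) ^ 2 * (1 / (d : ℝ) ^ 2) * ((ℓ' : ℝ) ^ c₁ / (d : ℝ) ^ c₁) := by
    rw [Real.rpow_add (by positivity), Real.div_rpow hl0.le hd0.le, Real.div_rpow hl0.le hd0.le]
    have e1 : (ℓ' : ℝ) ^ (2 : ℝ) = (ℓ' : ℝ) ^ 2 := by
      rw [← Real.rpow_natCast]; norm_num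
    have e2 : (d : ℝ) ^ (2 : ℝ) = (d : ℝ) ^ 2 := by
      rw [← Real.rpow_natCast]; norm_num
    rw [e1, e2]
    ring
  -- `exp (-s/2) ℓ' ^ c₁ ≤ 4 R₀ ^ 2 ℓ ^ c₁ (t / s) ^ (c₁ / 2)`
  have q1 : Real.exp (-(s / 2)) ≤ (Real.exp (-s)) ^ (c₁ / 2) := by
    rw [← Real.exp_mul]
    refine Real.exp_le_exp.2 ?_
    nlinarith
  have q2 : (ℓ' : ℝ) ^ c₁ = ((ℓ' : ℝ) ^ 2) ^ (c₁ / 2) := by
    rw [← Real.rpow_natCast, ← Real.rpow_mul hl0.le]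
    congr 1
    push_cast
    ring
  have q2' : (ℓ : ℝ) ^ c₁ = ((ℓ : ℝ) ^ 2) ^ (c₁ / 2) := by
    rw [← Real.rpow_natCast, ← Real.rpow_mul hll0.le]
    congr 1
    push_cast
    ring
  have q3 : Real.exp (-(s / 2)) * (ℓ' : ℝ) ^ c₁ ≤ (Real.exp (-s) * (ℓ' : ℝ) ^ 2) ^ (c₁ / 2) := by
    rw [Real.mul_rpow (Real.exp_pos _).le (by positivity), q2]
    exact mul_le_mul_of_nonneg_right q1 (by positivity)
  have q4 : Real.exp (-s) * (ℓ' : ℝ) ^ 2 ≤ 4 * (R₀ : ℝ) ^ 2 * ((ℓ : ℝ) ^ 2 * (t / s)) := by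
    have e1 : Real.exp (-s) * (ℓ' : ℝ) ^ 2 = (s * Real.exp (-s) * (ℓ' : ℝ) ^ 2) / s := by
      field_simp
    have e2 : 4 * (R₀ : ℝ) ^ 2 * ((ℓ : ℝ) ^ 2 * (t / s)) =
        (4 * (R₀ : ℝ) ^ 2 * (t * (ℓ : ℝ) ^ 2)) / s := by
      field_simp
    rw [e1, e2]
    exact div_le_div_of_nonneg_right h5 hs0.le
  have q5 : (Real.exp (-s) * (ℓ' : ℝ) ^ 2) ^ (c₁ / 2) ≤
      4 * (R₀ : ℝ) ^ 2 * ((ℓ : ℝ) ^ c₁ * (t / s) ^ (c₁ / 2)) := by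
    have e1 := Real.rpow_le_rpow (by positivity) q4 (by positivity : (0 : ℝ) ≤ c₁ / 2)
    refine e1.trans ?_
    have e0 : (0 : ℝ) ≤ t / s := by positivity
    rw [Real.mul_rpow (x := 4 * (R₀ : ℝ) ^ 2) (y := (ℓ : ℝ) ^ 2 * (t / s)) (by positivity)
      (by positivity), Real.mul_rpow (x := (ℓ : ℝ) ^ 2) (y := t / s) (by positivity) e0, ← q2']
    refine mul_le_mul_of_nonneg_right ?_ (by positivity)
    have e3 : (1 : ℝ) ≤ 4 * (R₀ : ℝ) ^ 2 := by nlinarith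
    calc (4 * (R₀ : ℝ) ^ 2) ^ (c₁ / 2) ≤ (4 * (R₀ : ℝ) ^ 2) ^ (1 : ℝ) :=
          Real.rpow_le_rpow_of_exponent_le e3 (by linarith)
      _ = 4 * (R₀ : ℝ) ^ 2 := Real.rpow_one _
  have q6 := q3.trans q5
  -- splitting of the exponential
  have r1 : Real.exp (-s) = Real.exp (-(s / 2)) * Real.exp (-(s / 2)) := by
    rw [← Real.exp_add]
    congr 1
    ring
  have w0 : 0 ≤ s * Real.exp (-s) := by positivity
  have w1 := mul_le_mul_of_nonneg_left hloc w0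
  refine w1.trans ?_
  have hdc : 0 < (d : ℝ) ^ c₁ := by positivity
  calc s * Real.exp (-s) * (C * C₁ * (al L R₀ ℓ' * ((ℓ' : ℝ) / d) ^ (2 + c₁)))
      = C * C₁ * (1 / (d : ℝ) ^ 2) * (1 / (d : ℝ) ^ c₁) *
          ((s * Real.exp (-(s / 2)) * ((ℓ' : ℝ) ^ 2 * al L R₀ ℓ')) *
            (Real.exp (-(s / 2)) * (ℓ' : ℝ) ^ c₁)) := by
        rw [p1, r1]
        ring
    _ ≤ C * C₁ * (1 / (d : ℝ) ^ 2) * (1 / (d : ℝ) ^ c₁) *
          ((4 * (R₀ : ℝ) ^ 2) * (4 * (R₀ : ℝ) ^ 2 * ((ℓ : ℝ) ^ c₁ * (t / s) ^ (c₁ / 2)))) := by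
        refine mul_le_mul_of_nonneg_left ?_ (by positivity)
        exact mul_le_mul h4 q6 (by positivity) (by positivity)
    _ = C * C₁ * (4 * (R₀ : ℝ) ^ 2) * (4 * (R₀ : ℝ) ^ 2) * (((ℓ : ℝ) / d) ^ c₁ / (d : ℝ) ^ 2) *
          (t / s) ^ (c₁ / 2) := by
        rw [Real.div_rpow hll0.le hd0.le]
        ring

/-- Sum over the times `s = 2 ^ j t`: `(t / s) ^ (c₁/2) = (2 ^ (-c₁/2)) ^ j`, geometric series. -/
theorem loc_times (hp : TP L C c R₀) {C₁ c₁ : ℝ} (h1 : 1 ≤ C₁) (hc₁ : 0 < c₁) (hc₁' : c₁ ≤ 1 / 2)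
    (hk : KBOK L C₁ c₁ R₀) : ∃ C₃ : ℝ, 0 < C₃ ∧ ∀ (ℓ d : ℤ) (t : ℝ), R₀ ≤ ℓ → ℓ ≤ d →
      Beyond L R₀ ℓ t → ∀ (b : Bool) (x : Pt) (n : ℕ),
      ∑ j ∈ Finset.range n, (2 ^ j * t) * (Real.exp (-(2 ^ j * t)) *
        pr2 (kt (2 ^ j * t)) (L.TwoAt b x R₀ d)) ≤ C₃ * (((ℓ : ℝ) / d) ^ c₁ / (d : ℝ) ^ 2) := by
  obtain ⟨C₂, hC₂, h⟩ := loc_time hp h1 hc₁ hc₁' hk
  have hR := hp.ap.R16
  set q : ℝ := (2 : ℝ) ^ (-(c₁ / 2)) with hq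
  have hq0 : 0 < q := by positivity
  have hq1 : q < 1 := by
    rw [hq]
    exact Real.rpow_lt_one_of_one_lt_of_neg (by norm_num) (by linarith)
  refine ⟨C₂ * (1 - q)⁻¹, mul_pos hC₂ (inv_pos.2 (by linarith)), ?_⟩
  intro ℓ d t hℓ hℓd hb b x n
  have ht := hp.beyond_pos hℓ hb
  have ht0 := ht.1
  have hd0 : (0 : ℝ) < d := by exact_mod_cast (by omega : (0 : ℤ) < d)
  have hll0 : (0 : ℝ) < ℓ := by exact_mod_cast (by omega : (0 : ℤ) < ℓ)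
  have hX : 0 ≤ ((ℓ : ℝ) / d) ^ c₁ / (d : ℝ) ^ 2 := by positivity
  have hterm : ∀ j ∈ Finset.range n, (2 ^ j * t) * (Real.exp (-(2 ^ j * t)) *
      pr2 (kt (2 ^ j * t)) (L.TwoAt b x R₀ d)) ≤
        C₂ * (((ℓ : ℝ) / d) ^ c₁ / (d : ℝ) ^ 2) * q ^ j := by
    intro j _
    have h2 : (1 : ℝ) ≤ 2 ^ j := one_le_pow₀ (by norm_num)
    have h3 := h ℓ d t (2 ^ j * t) hℓ hℓd hb (by nlinarith) b x
    have h4 : (t / (2 ^ j * t)) ^ (c₁ / 2) = q ^ j := by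
      have e1 : t / (2 ^ j * t) = ((2 : ℝ) ^ j)⁻¹ := by
        field_simp
      rw [e1, Real.inv_rpow (by positivity), hq, ← Real.rpow_natCast, ← Real.rpow_natCast,
        ← Real.rpow_mul (by norm_num), ← Real.rpow_mul (by norm_num), ← Real.rpow_neg (by norm_num)]
      congr 1
      ring
    rw [h4] at h3
    refine le_trans (le_of_eq ?_) h3
    ring
  refine (Finset.sum_le_sum hterm).trans ?_
  rw [← Finset.mul_sum]
  have hs := Summable.sum_le_tsum (Finset.range n) (fun j _ => (pow_pos hq0 j).le)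
    (summable_geometric_of_lt_one hq0.le hq1)
  rw [tsum_geometric_of_lt_one hq0.le hq1] at hs
  calc C₂ * (((ℓ : ℝ) / d) ^ c₁ / (d : ℝ) ^ 2) * ∑ j ∈ Finset.range n, q ^ j
      ≤ C₂ * (((ℓ : ℝ) / d) ^ c₁ / (d : ℝ) ^ 2) * (1 - q)⁻¹ :=
        mul_le_mul_of_nonneg_left hs (mul_nonneg hC₂.le hX)
    _ = C₂ * (1 - q)⁻¹ * (((ℓ : ℝ) / d) ^ c₁ / (d : ℝ) ^ 2) := by ring

end TT

end SC

end

/-! ### from `Lib_MP_e0a489.TTB1` -/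

section

/-!
# MP_e0a489, module TT (9e), sum of the local factors over the times and the sites
-/

set_option autoImplicit false

namespace SC

variable [IfL] [IfX]

namespace TT

open Classical

variable {L : Lat} {C c : ℝ} {R₀ : ℤ}

/-- `d = ρ / 4` (integer division), `ρ ≥ 8`: `d ≥ ρ / 8`, so `(ℓ / d) ^ c₁ / d ^ 2 ≤ 8 ^ 3 (ℓ / ρ) ^ c₁ / ρ ^ 2 = 8 ^ 3 ℓ ^ c₁ ρ ^ (- 2 - c₁)`. -/
theorem quarter_le {c₁ : ℝ} (h0 : 0 ≤ c₁) (h1 : c₁ ≤ 1 / 2) {ℓ ρ : ℤ} (hℓ : 1 ≤ ℓ) (hρ : 8 ≤ ρ) :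
    ((ℓ : ℝ) / ((ρ / 4 : ℤ) : ℝ)) ^ c₁ / ((ρ / 4 : ℤ) : ℝ) ^ 2 ≤
      8 ^ 3 * ((ℓ : ℝ) ^ c₁ * ((ρ : ℝ) ^ (-2 - c₁))) := by
  have hd : ρ ≤ 8 * (ρ / 4) := by omega
  obtain ⟨d, hd'⟩ : ∃ d : ℤ, d = ρ / 4 := ⟨_, rfl⟩
  rw [← hd'] at hd ⊢
  have hℓ0 : (0 : ℝ) < (ℓ : ℝ) := by exact_mod_cast (by linarith : (0 : ℤ) < ℓ)
  have hρ0 : (0 : ℝ) < (ρ : ℝ) := by exact_mod_cast (by linarith : (0 : ℤ) < ρ)
  have hd1 : (ρ : ℝ) / 8 ≤ (d : ℝ) := by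
    have : (ρ : ℝ) ≤ 8 * (d : ℝ) := by exact_mod_cast hd
    linarith
  have hd0 : (0 : ℝ) < (d : ℝ) := lt_of_lt_of_le (by positivity) hd1
  have e1 : (ℓ : ℝ) / (d : ℝ) ≤ 8 * ((ℓ : ℝ) / (ρ : ℝ)) := by
    rw [div_le_iff₀ hd0]
    have : 8 * ((ℓ : ℝ) / (ρ : ℝ)) * ((ρ : ℝ) / 8) ≤ 8 * ((ℓ : ℝ) / (ρ : ℝ)) * (d : ℝ) :=
      mul_le_mul_of_nonneg_left hd1 (by positivity)
    have e2 : 8 * ((ℓ : ℝ) / (ρ : ℝ)) * ((ρ : ℝ) / 8) = (ℓ : ℝ) := by field_simp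
    linarith
  have e3 : ((ℓ : ℝ) / (d : ℝ)) ^ c₁ ≤ 8 * ((ℓ : ℝ) / (ρ : ℝ)) ^ c₁ := by
    have h3 := Real.rpow_le_rpow (by positivity) e1 h0
    rw [Real.mul_rpow (by norm_num) (by positivity)] at h3
    have h4 : (8 : ℝ) ^ c₁ ≤ 8 := by
      have h5 := Real.rpow_le_rpow_of_exponent_le (by norm_num : (1 : ℝ) ≤ 8) (by linarith : c₁ ≤ 1)
      rwa [Real.rpow_one] at h5
    exact h3.trans (mul_le_mul_of_nonneg_right h4 (Real.rpow_nonneg (by positivity) _))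
  have e4 : ((ρ : ℝ) / 8) ^ 2 ≤ (d : ℝ) ^ 2 := by
    exact pow_le_pow_left₀ (by positivity) hd1 2
  have e5 : (ρ : ℝ) ^ (-2 - c₁) = ((ρ : ℝ) ^ 2)⁻¹ * ((ρ : ℝ) ^ c₁)⁻¹ := by
    have : (-2 - c₁) = (-(2 : ℕ) : ℝ) + -c₁ := by push_cast; ring
    rw [this, Real.rpow_add hρ0, Real.rpow_neg hρ0.le, Real.rpow_neg hρ0.le, Real.rpow_natCast]
  have e6 : ((ℓ : ℝ) / (ρ : ℝ)) ^ c₁ = (ℓ : ℝ) ^ c₁ * ((ρ : ℝ) ^ c₁)⁻¹ := by
    rw [Real.div_rpow hℓ0.le hρ0.le, div_eq_mul_inv]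
  calc ((ℓ : ℝ) / (d : ℝ)) ^ c₁ / (d : ℝ) ^ 2 ≤
        (8 * ((ℓ : ℝ) / (ρ : ℝ)) ^ c₁) / ((ρ : ℝ) / 8) ^ 2 :=
        div_le_div₀ (by positivity) e3 (by positivity) e4
    _ = 8 ^ 3 * ((ℓ : ℝ) ^ c₁ * ((ρ : ℝ) ^ (-2 - c₁))) := by
        rw [e5, e6]
        have : (ρ : ℝ) ^ c₁ ≠ 0 := (Real.rpow_pos_of_pos hρ0 _).ne'
        field_simp
        try norm_num

/-- Sum over the sites: `sum_nrm` with `g m = m ^ (-2 - c₁)` and `sum_pow_down` with `a = 8 r + 1`: `∑ 8 m m ^ (-2 - c₁) = 8 ∑ m ^ (-1 - c₁) ≤ 8 (8 r) ^ (-c₁) / c₁ ≤ 8 r ^ (-c₁) / c₁`. -/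
theorem site_pow {c₁ : ℝ} (h0 : 0 < c₁) (h1 : c₁ ≤ 1 / 2) {ℓ r : ℤ} (hℓ : 1 ≤ ℓ) (hr : 1 ≤ r)
    {W : Finset Pt} (hW : ∀ v ∈ W, 8 * r < nrm v) :
    ∑ v ∈ W, (ℓ : ℝ) ^ c₁ * ((nrm v : ℝ) ^ (-2 - c₁)) ≤ 8 / c₁ * ((ℓ : ℝ) / r) ^ c₁ := by
  have hℓ0 : (0 : ℝ) < (ℓ : ℝ) := by exact_mod_cast (by linarith : (0 : ℤ) < ℓ)
  have hr0 : (0 : ℝ) < (r : ℝ) := by exact_mod_cast (by linarith : (0 : ℤ) < r)
  rw [← Finset.mul_sum]
  have hb : ∀ v ∈ W, 8 * r + 1 ≤ nrm v ∧ nrm v ≤ ∑ w ∈ W, |nrm w| := by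
    intro v hv
    refine ⟨by linarith [hW v hv], ?_⟩
    exact (le_abs_self _).trans (Finset.single_le_sum (f := fun w => |nrm w|)
      (fun w _ => abs_nonneg _) hv)
  have h2 := sum_nrm (F := W) (a := 8 * r + 1) (b := ∑ w ∈ W, |nrm w|) (by linarith) hb
    (g := fun m => (m : ℝ) ^ (-2 - c₁)) (fun m hm _ => by
      have : (0 : ℝ) ≤ (m : ℝ) := by exact_mod_cast (by linarith : (0 : ℤ) ≤ m)
      exact Real.rpow_nonneg this _)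
  have h3 : ∑ m ∈ Finset.Icc (8 * r + 1) (∑ w ∈ W, |nrm w|), 8 * (m : ℝ) * (m : ℝ) ^ (-2 - c₁) =
      8 * ∑ m ∈ Finset.Icc (8 * r + 1) (∑ w ∈ W, |nrm w|), (m : ℝ) ^ (-1 - c₁) := by
    rw [Finset.mul_sum]
    refine Finset.sum_congr rfl (fun m hm => ?_)
    have hm' := (Finset.mem_Icc.1 hm).1
    have hm0 : (0 : ℝ) < (m : ℝ) := by exact_mod_cast (by linarith : (0 : ℤ) < m)
    have e : (-1 - c₁) = (-2 - c₁) + 1 := by ring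
    rw [e, Real.rpow_add hm0, Real.rpow_one]
    ring
  have h4 := sum_pow_down h0 (by linarith : c₁ ≤ 1) (a := 8 * r + 1) (n := ∑ w ∈ W, |nrm w|)
    (by linarith)
  have e4 : (((8 * r + 1 : ℤ) : ℝ)) - 1 = 8 * (r : ℝ) := by push_cast; ring
  rw [e4] at h4
  have h5 : (8 * (r : ℝ)) ^ (-c₁) ≤ (r : ℝ) ^ (-c₁) := by
    exact Real.rpow_le_rpow_of_nonpos hr0 (by linarith) (by linarith)
  have h6 : (r : ℝ) ^ (-c₁) = ((r : ℝ) ^ c₁)⁻¹ := Real.rpow_neg hr0.le c₁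
  have h7 : ∑ v ∈ W, ((nrm v : ℝ) ^ (-2 - c₁)) ≤ 8 * ((r : ℝ) ^ (-c₁) / c₁) := by
    refine h2.trans ?_
    rw [h3]
    refine mul_le_mul_of_nonneg_left (h4.trans ?_) (by norm_num)
    exact div_le_div_of_nonneg_right h5 h0.le
  calc (ℓ : ℝ) ^ c₁ * ∑ v ∈ W, ((nrm v : ℝ) ^ (-2 - c₁)) ≤
        (ℓ : ℝ) ^ c₁ * (8 * ((r : ℝ) ^ (-c₁) / c₁)) :=
        mul_le_mul_of_nonneg_left h7 (Real.rpow_nonneg hℓ0.le _)
    _ = 8 / c₁ * ((ℓ : ℝ) / r) ^ c₁ := by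
        rw [Real.div_rpow hℓ0.le hr0.le, h6]
        ring

/-- local factor of the site `v` at the time `s` -/
noncomputable def locf (L : Lat) (R₀ : ℤ) (s : ℝ) (v : Pt) : ℝ :=
  2 * pr2 (kt s) (L.TwoAt true v R₀ (nrm v / 4)) + 2 * pr2 (kt s) (L.TwoAt false v R₀ (nrm v / 4))

/-- Exchange the sums; for every site `loc_times` with `d = nrm v / 4 ≥ 2 r ≥ ℓ` for both colours, `quarter_le`, `site_pow`. -/
theorem site_sum (hp : TP L C c R₀) {C₁ c₁ : ℝ} (h1 : 1 ≤ C₁) (hc₁ : 0 < c₁) (hc₁' : c₁ ≤ 1 / 2)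
    (hk : KBOK L C₁ c₁ R₀) : ∃ C₅ : ℝ, 0 < C₅ ∧ ∀ (ℓ r : ℤ) (t : ℝ), R₀ ≤ ℓ → ℓ ≤ r →
      Beyond L R₀ ℓ t → ∀ (W : Finset Pt) (n : ℕ), (∀ v ∈ W, 8 * r < nrm v) →
      ∑ j ∈ Finset.range n, (2 ^ j * t) * ∑ v ∈ W, Real.exp (-(2 ^ j * t)) *
        locf L R₀ (2 ^ j * t) v ≤ C₅ * ((ℓ : ℝ) / r) ^ c₁ := by
  obtain ⟨C₃, h3, H⟩ := loc_times hp h1 hc₁ hc₁' hk
  have h16 : 16 ≤ R₀ := hp.ap.R16
  refine ⟨4 * C₃ * 8 ^ 3 * (8 / c₁), by positivity, ?_⟩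
  intro ℓ r t hℓ hr hb W n hW
  have e1 : ∑ j ∈ Finset.range n, (2 ^ j * t) * ∑ v ∈ W, Real.exp (-(2 ^ j * t)) *
        locf L R₀ (2 ^ j * t) v =
      ∑ v ∈ W, (2 * ∑ j ∈ Finset.range n, (2 ^ j * t) * (Real.exp (-(2 ^ j * t)) *
        pr2 (kt (2 ^ j * t)) (L.TwoAt true v R₀ (nrm v / 4))) +
        2 * ∑ j ∈ Finset.range n, (2 ^ j * t) * (Real.exp (-(2 ^ j * t)) *
        pr2 (kt (2 ^ j * t)) (L.TwoAt false v R₀ (nrm v / 4)))) := by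
    rw [Finset.sum_congr rfl (fun j _ => Finset.mul_sum _ _ _), Finset.sum_comm]
    refine Finset.sum_congr rfl (fun v _ => ?_)
    rw [Finset.mul_sum, Finset.mul_sum, ← Finset.sum_add_distrib]
    refine Finset.sum_congr rfl (fun j _ => ?_)
    unfold locf
    ring
  rw [e1]
  have e2 : ∀ v ∈ W, (2 * ∑ j ∈ Finset.range n, (2 ^ j * t) * (Real.exp (-(2 ^ j * t)) *
        pr2 (kt (2 ^ j * t)) (L.TwoAt true v R₀ (nrm v / 4))) +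
        2 * ∑ j ∈ Finset.range n, (2 ^ j * t) * (Real.exp (-(2 ^ j * t)) *
        pr2 (kt (2 ^ j * t)) (L.TwoAt false v R₀ (nrm v / 4)))) ≤
      4 * C₃ * 8 ^ 3 * ((ℓ : ℝ) ^ c₁ * ((nrm v : ℝ) ^ (-2 - c₁))) := by
    intro v hv
    have hv' := hW v hv
    have hd : ℓ ≤ nrm v / 4 := by omega
    have a1 := H ℓ (nrm v / 4) t hℓ hd hb true v n
    have a2 := H ℓ (nrm v / 4) t hℓ hd hb false v n
    have a3 := quarter_le hc₁.le hc₁' (ℓ := ℓ) (ρ := nrm v) (by linarith) (by linarith)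
    have a4 := mul_le_mul_of_nonneg_left a3 h3.le
    linarith
  refine (Finset.sum_le_sum e2).trans ?_
  rw [← Finset.mul_sum]
  have a5 := site_pow hc₁ hc₁' (ℓ := ℓ) (r := r) (by linarith) (by linarith) hW
  have a6 := mul_le_mul_of_nonneg_left a5 (by positivity : (0 : ℝ) ≤ 4 * C₃ * 8 ^ 3)
  refine a6.trans (le_of_eq ?_)
  ring

end TT

end SC

end

/-! ### from `Lib_MP_e0a489.TTB2` -/

section

/-!
# MP_e0a489, module TT (9e), one step of the bootstrap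
-/

set_option autoImplicit false

namespace SC

variable [IfL] [IfX]

namespace TT

open Classical

variable {L : Lat} {C c : ℝ} {R₀ : ℤ}

/-- With the correlation `0` off `W = {8 r < nrm v ≤ R / 4}`: `kz (kt s) r R = kon W (exp (-s)) 0`. -/
theorem kz_kon {r R : ℤ} {W : Finset Pt} (hW : ∀ v, v ∈ W ↔ 8 * r < nrm v ∧ nrm v ≤ R / 4)
    (s : ℝ) : kz (kt s) r R = kon W (Real.exp (-s)) fun _ => 0 := by
  funext v
  unfold kz kon kt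
  by_cases h : v ∈ W
  · rw [if_pos h, if_neg]
    have := (hW v).1 h
    omega
  · rw [if_neg h, if_pos]
    have h1 : ¬ (8 * r < nrm v ∧ nrm v ≤ R / 4) := fun h2 => h ((hW v).2 h2)
    omega

/-- `ex2 0 f f = (ex f) ^ 2` (`ex2_zero`), and `pr (S4 r R) ≤ pr (TwoA true r R) = al L r R` for `r < R` (`S4_twoAt_x` with `x = 0`, `d = 0`,
`TwoAt_zero`). -/
theorem S4_zero {r R : ℤ} (hr : 16 ≤ r) (hrR : r < R) (W : Finset Pt) :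
    ex2 (kon W 0 fun _ => 0) (ind (L.S4 r R)) (ind (L.S4 r R)) ≤ (al L r R) ^ 2 := by
  have hloc : Loc (L.S4 r R) := Lat.S4.loc L r R
  have hdep : Dep (ind (L.S4 r R)) (Set.univ : Set Pt) := by
    intro ω ω' H
    have e : ω = ω' := funext fun v => H v (Set.mem_univ v)
    rw [e]
  have h1 : ex2 (kon W 0 fun _ => 0) (ind (L.S4 r R)) (ind (L.S4 r R)) =
      ex (ind (L.S4 r R)) * ex (ind (L.S4 r R)) := by
    refine ex2_zero hloc.lf hloc.lf hdep _ (fun v _ => ?_)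
    unfold kon
    split_ifs <;> rfl
  have h2 : pr (L.S4 r R) ≤ al L r R := by
    have e1 : al L r R = pr (L.TwoAt true 0 r R) := by
      unfold al
      rw [if_pos hrR]
      congr 1
      funext ω
      exact propext (TwoAt_zero L true r R ω).symm
    rw [e1]
    refine pr_mono hloc (TwoAt_loc L true 0 r R) (fun ω h => ?_)
    exact S4_twoAt_x h hr (d := 0) (by show max |(0 : ℤ)| |(0 : ℤ)| ≤ 0; simp) (by omega) hrR
      (by omega)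
  have h3 : 0 ≤ pr (L.S4 r R) := pr_nonneg _
  rw [h1, ← pow_two]
  exact pow_le_pow_left₀ h3 h2 2

/-- Pivotal term at the time `s ≥ t` for `v` with `8 r < nrm v ≤ R / 4`, `R₀ ≤ r`: `ex2_dv_le`, then `S4_piv_pr2` for the correlation `k = kon W (e^-s) 0 ≤ kt s ≤ kt t` with
`a = R₀`, `b = nrm v / 4` (`b ≥ 2 r > R₀`), `ρ₁ = nrm v - nrm v / 4 - 1`, `ρ₂ = nrm v + nrm v / 4 < R`; first and last factor: `pr2_twoA_le` with `t`; local factor: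
`pr2_mono_k` with `kt s` (`TwoAt_loc`). -/
theorem piv_term (hR₀ : 16 ≤ R₀) {r R : ℤ} (hr : R₀ ≤ r) {t s : ℝ} (ht : 0 ≤ t) (hts : t ≤ s)
    {W : Finset Pt} {v : Pt} (h8 : 8 * r < nrm v) (h4 : nrm v ≤ R / 4) :
    ex2 (kon W (Real.exp (-s)) fun _ => 0) (dv v (ind (L.S4 r R))) (dv v (ind (L.S4 r R))) ≤
      be L t r (nrm v - nrm v / 4 - 1) * (locf L R₀ s v * be L t (nrm v + nrm v / 4) R) := by
  set k : Pt → ℝ := kon W (Real.exp (-s)) fun _ => 0 with hkdef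
  have hs : 0 ≤ s := ht.trans hts
  have he : 0 ≤ Real.exp (-s) ∧ Real.exp (-s) ≤ 1 :=
    ⟨(Real.exp_pos _).le, (kt_mem hs (0, 0)).2⟩
  have hk : Kap k := fun u => kon_mem he (fun _ => ⟨le_rfl, zero_le_one⟩) u
  have hks : ∀ u, k u ≤ kt s u := by
    intro u
    show kon W (Real.exp (-s)) (fun _ => 0) u ≤ Real.exp (-s)
    unfold kon
    split_ifs
    · exact le_rfl
    · exact he.1
  have hkt : ∀ u, k u ≤ kt t u := fun u => (hks u).trans (kt_anti hts u)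
  have e1 : ex2 k (dv v (ind (L.S4 r R))) (dv v (ind (L.S4 r R))) ≤
      (1 / 4) * pr2 k (Piv v (L.S4 r R)) := ex2_dv_le (Lat.S4.loc L r R) v hk
  have e2 : pr2 k (Piv v (L.S4 r R)) ≤ pr2 k (L.TwoA true r (nrm v - nrm v / 4 - 1)) *
      ((2 * pr2 k (L.TwoAt true v R₀ (nrm v / 4)) + 2 * pr2 k (L.TwoAt false v R₀ (nrm v / 4))) *
        pr2 k (L.TwoA true (nrm v + nrm v / 4) R)) :=
    S4_piv_pr2 hk (by omega) h8 (by omega) (by omega) (by omega) (by omega) (by omega) (by omega)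
      (by omega) (by omega)
  have f1 : pr2 k (L.TwoA true r (nrm v - nrm v / 4 - 1)) ≤
      be L t r (nrm v - nrm v / 4 - 1) := pr2_twoA_le L hk hkt ht _ _
  have f2 : pr2 k (L.TwoA true (nrm v + nrm v / 4) R) ≤ be L t (nrm v + nrm v / 4) R :=
    pr2_twoA_le L hk hkt ht _ _
  have f3 : ∀ b : Bool, pr2 k (L.TwoAt b v R₀ (nrm v / 4)) ≤
      pr2 (kt s) (L.TwoAt b v R₀ (nrm v / 4)) := fun b =>
    pr2_mono_k (TwoAt_loc L b v _ _) (fun u => (hk u).1) hks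
  have g0 : ∀ A : Cfg → Prop, 0 ≤ pr2 k A := fun A => pr2_nonneg A hk
  have f4 : 2 * pr2 k (L.TwoAt true v R₀ (nrm v / 4)) +
      2 * pr2 k (L.TwoAt false v R₀ (nrm v / 4)) ≤ locf L R₀ s v := by
    unfold locf
    linarith [f3 true, f3 false]
  have g1 : 0 ≤ 2 * pr2 k (L.TwoAt true v R₀ (nrm v / 4)) +
      2 * pr2 k (L.TwoAt false v R₀ (nrm v / 4)) := by
    linarith [g0 (L.TwoAt true v R₀ (nrm v / 4)), g0 (L.TwoAt false v R₀ (nrm v / 4))]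
  have g2 : 0 ≤ be L t r (nrm v - nrm v / 4 - 1) := be_nonneg L ht _ _
  have f5 : pr2 k (L.TwoA true r (nrm v - nrm v / 4 - 1)) *
      ((2 * pr2 k (L.TwoAt true v R₀ (nrm v / 4)) + 2 * pr2 k (L.TwoAt false v R₀ (nrm v / 4))) *
        pr2 k (L.TwoA true (nrm v + nrm v / 4) R)) ≤
      be L t r (nrm v - nrm v / 4 - 1) * (locf L R₀ s v * be L t (nrm v + nrm v / 4) R) := by
    refine mul_le_mul f1 ?_ (mul_nonneg g1 (g0 _)) g2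
    exact mul_le_mul f4 f2 (g0 _) (g1.trans f4)
  have g3 : 0 ≤ pr2 k (Piv v (L.S4 r R)) := g0 _
  linarith

/-- ONE STEP.  `be L t r R = pr2 (kt t) (TwoA true r R) ≤ C₁ pr2 (kz (kt t) r R) (S4 r R)` (hypothesis `hs`, from `sep2`), `kz_kon`, `lag_sum` with `κ = 0`, `S4_zero`,
`piv_term`, `ex (f ^ 2) ≤ 1`. -/
theorem bulk_step (hR₀ : 16 ≤ R₀) {C₁ : ℝ} (hC₁ : 0 < C₁) {r R : ℤ} (hr : R₀ ≤ r) (hrR : r < R)
    {t : ℝ} (ht : 0 ≤ t)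
    (hs : pr2 (kt t) (L.TwoA true r R) ≤ C₁ * pr2 (kz (kt t) r R) (L.S4 r R))
    {W : Finset Pt} (hW : ∀ v, v ∈ W ↔ 8 * r < nrm v ∧ nrm v ≤ R / 4) (n : ℕ) :
    be L t r R ≤ C₁ * ((al L r R) ^ 2 +
      ∑ j ∈ Finset.range n, (2 ^ j * t) * ∑ v ∈ W, Real.exp (-(2 ^ j * t)) *
        (be L t r (nrm v - nrm v / 4 - 1) *
          (locf L R₀ (2 ^ j * t) v * be L t (nrm v + nrm v / 4) R)) +
      Real.exp (-(2 ^ n * t))) := by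
  have hloc : Loc (L.S4 r R) := Lat.S4.loc L r R
  have h16 : 16 ≤ r := hR₀.trans hr
  have e1 : be L t r R = pr2 (kt t) (L.TwoA true r R) := by
    unfold be
    rw [if_pos hrR]
  have e2 : pr2 (kz (kt t) r R) (L.S4 r R) =
      ex2 (kon W (Real.exp (-t)) fun _ => 0) (ind (L.S4 r R)) (ind (L.S4 r R)) := by
    rw [kz_kon hW t]
    rfl
  have e3 := lag_sum hloc.lf W (κ := fun _ => 0) (fun _ => ⟨le_rfl, zero_le_one⟩) ht n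
  have e4 := S4_zero (L := L) h16 hrR W
  have e5 : ex (fun ω => ind (L.S4 r R) ω ^ 2) ≤ 1 := by
    have h1 : (fun ω => ind (L.S4 r R) ω ^ 2) = ind (L.S4 r R) := by
      funext ω
      unfold ind
      split_ifs <;> norm_num
    rw [h1]
    exact pr_le_one _
  have e6 : ∑ j ∈ Finset.range n, (2 ^ j * t) * ∑ v ∈ W, Real.exp (-(2 ^ j * t)) *
        ex2 (kon W (Real.exp (-(2 ^ j * t))) fun _ => 0) (dv v (ind (L.S4 r R)))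
          (dv v (ind (L.S4 r R))) ≤
      ∑ j ∈ Finset.range n, (2 ^ j * t) * ∑ v ∈ W, Real.exp (-(2 ^ j * t)) *
        (be L t r (nrm v - nrm v / 4 - 1) *
          (locf L R₀ (2 ^ j * t) v * be L t (nrm v + nrm v / 4) R)) := by
    refine Finset.sum_le_sum fun j _ => ?_
    have h1 : (1 : ℝ) ≤ 2 ^ j := one_le_pow₀ (by norm_num)
    have h2 : t ≤ 2 ^ j * t := by nlinarith
    refine mul_le_mul_of_nonneg_left (Finset.sum_le_sum fun v hv => ?_) (ht.trans h2)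
    refine mul_le_mul_of_nonneg_left ?_ (Real.exp_pos _).le
    exact piv_term hR₀ hr ht h2 ((hW v).1 hv).1 ((hW v).1 hv).2
  have e7 : Real.exp (-(2 ^ n * t)) * ex (fun ω => ind (L.S4 r R) ω ^ 2) ≤
      Real.exp (-(2 ^ n * t)) := by
    have := mul_le_mul_of_nonneg_left e5 (Real.exp_pos (-(2 ^ n * t))).le
    rwa [mul_one] at this
  rw [e1]
  refine hs.trans (mul_le_mul_of_nonneg_left ?_ hC₁.le)
  rw [e2]
  linarith

end TT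

end SC

end

/-! ### from `Lib_MP_e0a489.TTI3` -/

section

/-!
# MP_e0a489, module TT (9a), sum over the pivotal sites of the separated event (one configuration)
-/

set_option autoImplicit false

namespace SC

variable [IfL] [IfX]

namespace TT

open Classical

variable {L : Lat} {C c : ℝ} {R₀ : ℤ}

/-- `pr ((L.shift x).TwoAt b v r R) = pr (L.TwoAt b (v + x) r R)`: `XP.twoAt_iff` for both lattices (`(L.shift x).Two` through `tr_shift`), or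
`(L.shift x).shift v = L.shift (x + v)` (`shift_shift`) and `pr_TwoAt`. -/
theorem pr_shift_twoAt (L : Lat) (x v : Pt) (b : Bool) (r R : ℤ) :
    pr ((L.shift x).TwoAt b v r R) = pr (L.TwoAt b (x + v) r R) := by
  rw [pr_TwoAt, pr_TwoAt, shift_shift]

/-- Pivotal site of norm `ρ = nrm v`.  `S4_piv_pr2` for `L.shift x`, `k = 1` (`pr2_one`), `r = a = R₀`, `b = ρ / 4`, `ρ₁ = ρ - ρ / 4 - 1`, `ρ₂ = ρ + ρ / 4`.
With `AlProps.cmp` (`pr_TwoAt`, `pr_shift_twoAt`): `pr (TwoA true R₀ ρ₁) ≤ C al L R₀ ρ` (`ρ ≤ 4 ρ₁`), `pr (TwoAt b v R₀ (ρ / 4)) ≤ C al L R₀ (4 (ρ/4))` and `al_cmp` to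
`al L R₀ ρ`, `pr (TwoA true ρ₂ R) ≤ C al L ρ R` (`ρ₂ ≤ 2 ρ`); `qmult`: `al L R₀ ρ * al L ρ R ≤ C al L R₀ R`. -/
theorem piv_one (hp : TP L C c R₀) (x : Pt) {R : ℤ} {v : Pt} (h8 : 8 * R₀ < nrm v)
    (h4 : nrm v ≤ R / 4) :
    pr (Piv v ((L.shift x).S4 R₀ R)) ≤ 256 * C ^ 5 * (al L R₀ (nrm v) * al L R₀ R) := by
  have h16 := hp.ap.R16
  have hC := hp.ap.C1
  have hk1 : Kap (fun _ : Pt => (1 : ℝ)) := fun v => ⟨zero_le_one, le_rfl⟩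
  have lP : Loc (Piv v ((L.shift x).S4 R₀ R)) := by
    obtain ⟨F, hF⟩ := Lat.S4.loc (L.shift x) R₀ R
    exact ⟨F, (hF.piv v).mono Set.sdiff_subset⟩
  obtain ⟨ρ, hρ⟩ : ∃ ρ, ρ = nrm v := ⟨_, rfl⟩
  rw [← hρ] at h8 h4 ⊢
  have key := S4_piv_pr2 (L := L.shift x) (v := v) (r := R₀) (R := R) hk1 h16
    (by rw [← hρ]; exact h8) (by rw [← hρ]; omega) (a := R₀) (b := ρ / 4)
    (ρ₁ := ρ - ρ / 4 - 1) (ρ₂ := ρ + ρ / 4) (by omega) (by omega) (by rw [← hρ]; omega)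
    (by omega) (by rw [← hρ]; omega) (by rw [← hρ]) (by omega)
  rw [pr2_one lP, pr2_one (Lat.TwoA.loc _ _ _ _), pr2_one (Lat.TwoA.loc _ _ _ _),
    pr2_one (TwoAt_loc _ _ _ _ _), pr2_one (TwoAt_loc _ _ _ _ _), pr_shift_twoAt,
    pr_shift_twoAt, ← pr_TwoAt, ← pr_TwoAt] at key
  have pA : 0 ≤ al L R₀ ρ := (hp.ap.pos R₀ ρ le_rfl (by omega)).le
  have pB : 0 ≤ al L ρ R := (hp.ap.pos ρ R (by omega) (by omega)).le
  have a1 : pr (L.TwoAt true x R₀ (ρ - ρ / 4 - 1)) ≤ C * al L R₀ ρ :=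
    hp.ap.cmp true x _ _ _ _ le_rfl le_rfl (by omega) (by omega) (by omega) (by omega)
  have a2 : ∀ b : Bool, pr (L.TwoAt b (x + v) R₀ (ρ / 4)) ≤ 64 * C ^ 2 * al L R₀ ρ := by
    intro b
    have e1 : pr (L.TwoAt b (x + v) R₀ (ρ / 4)) ≤ C * al L R₀ (4 * (ρ / 4)) :=
      hp.ap.cmp b (x + v) _ _ _ _ le_rfl le_rfl (by omega) (by omega) (by omega) (by omega)
    have e2 : al L R₀ (4 * (ρ / 4)) ≤ 64 * C * al L R₀ ρ :=
      hp.al_cmp le_rfl le_rfl (by omega) (by omega) (by omega) (by omega)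
    calc pr (L.TwoAt b (x + v) R₀ (ρ / 4)) ≤ C * al L R₀ (4 * (ρ / 4)) := e1
      _ ≤ C * (64 * C * al L R₀ ρ) := mul_le_mul_of_nonneg_left e2 (by linarith)
      _ = 64 * C ^ 2 * al L R₀ ρ := by ring
  have a3 : pr (L.TwoAt true x (ρ + ρ / 4) R) ≤ C * al L ρ R :=
    hp.ap.cmp true x _ _ _ _ (by omega) (by omega) (by omega) (by omega) (by omega) (by omega)
  have a4 := hp.ap.qmult R₀ ρ R le_rfl (by omega) (by omega)
  have n0 : ∀ (b : Bool) (y : Pt) (r R : ℤ), 0 ≤ pr (L.TwoAt b y r R) := by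
    intro b y r R
    rw [← pr2_one (TwoAt_loc _ _ _ _ _)]
    exact pr2_nonneg _ hk1
  have b1 : 2 * pr (L.TwoAt true (x + v) R₀ (ρ / 4)) + 2 * pr (L.TwoAt false (x + v) R₀ (ρ / 4)) ≤
      256 * C ^ 2 * al L R₀ ρ := by
    have e1 := a2 true
    have e2 := a2 false
    nlinarith
  have b2 : 0 ≤ 256 * C ^ 2 * al L R₀ ρ := by positivity
  have b3 : (2 * pr (L.TwoAt true (x + v) R₀ (ρ / 4)) +
      2 * pr (L.TwoAt false (x + v) R₀ (ρ / 4))) * pr (L.TwoAt true x (ρ + ρ / 4) R) ≤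
      256 * C ^ 2 * al L R₀ ρ * (C * al L ρ R) :=
    mul_le_mul b1 a3 (n0 _ _ _ _) b2
  have b4 : 0 ≤ C * al L R₀ ρ := mul_nonneg (by linarith) pA
  have b5 : 0 ≤ (2 * pr (L.TwoAt true (x + v) R₀ (ρ / 4)) +
      2 * pr (L.TwoAt false (x + v) R₀ (ρ / 4))) * pr (L.TwoAt true x (ρ + ρ / 4) R) := by
    have e1 := n0 true (x + v) R₀ (ρ / 4)
    have e2 := n0 false (x + v) R₀ (ρ / 4)
    exact mul_nonneg (by linarith) (n0 _ _ _ _)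
  calc pr (Piv v ((L.shift x).S4 R₀ R)) ≤ _ := key
    _ ≤ (C * al L R₀ ρ) * (256 * C ^ 2 * al L R₀ ρ * (C * al L ρ R)) :=
        mul_le_mul a1 b3 b5 b4
    _ = 256 * C ^ 4 * al L R₀ ρ * (al L R₀ ρ * al L ρ R) := by ring
    _ ≤ 256 * C ^ 4 * al L R₀ ρ * (C * al L R₀ R) :=
        mul_le_mul_of_nonneg_left a4 (by positivity)
    _ = 256 * C ^ 5 * (al L R₀ ρ * al L R₀ R) := by ring

/-- `al L R₀ ρ ≤ C ^ 2 al L R₀ R (R / ρ) ^ (2 - c)` (`qmult`, `low`) -/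
theorem al_back (hp : TP L C c R₀) {ρ R : ℤ} (h1 : R₀ ≤ ρ) (h2 : ρ ≤ R) :
    al L R₀ ρ ≤ C ^ 2 * (al L R₀ R * ((R : ℝ) / ρ) ^ (2 - c)) := by
  have h16 := hp.ap.R16
  have hC := hp.ap.C1
  have hm : (0 : ℝ) < ρ := by exact_mod_cast (by omega : (0 : ℤ) < ρ)
  have hn : (0 : ℝ) < R := by exact_mod_cast (by omega : (0 : ℤ) < R)
  have a1 := hp.ap.qmult R₀ ρ R le_rfl h1 h2
  have a2 := hp.low ρ R h1 h2
  have a3 : 0 ≤ al L R₀ ρ := (hp.ap.pos R₀ ρ le_rfl h1).le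
  have a4 : al L R₀ ρ * ((ρ : ℝ) / R) ^ (2 - c) ≤ C ^ 2 * al L R₀ R := by
    calc al L R₀ ρ * ((ρ : ℝ) / R) ^ (2 - c) ≤ al L R₀ ρ * (C * al L ρ R) :=
          mul_le_mul_of_nonneg_left a2 a3
      _ = C * (al L R₀ ρ * al L ρ R) := by ring
      _ ≤ C * (C * al L R₀ R) := mul_le_mul_of_nonneg_left a1 (by linarith)
      _ = C ^ 2 * al L R₀ R := by ring
  have a5 : ((ρ : ℝ) / R) ^ (2 - c) * ((R : ℝ) / ρ) ^ (2 - c) = 1 := by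
    rw [← Real.mul_rpow (div_pos hm hn).le (div_pos hn hm).le]
    rw [div_mul_div_cancel₀ hn.ne', div_self hm.ne', Real.one_rpow]
  have a6 : 0 ≤ ((R : ℝ) / ρ) ^ (2 - c) := Real.rpow_nonneg (div_pos hn hm).le _
  calc al L R₀ ρ = al L R₀ ρ * ((ρ : ℝ) / R) ^ (2 - c) * ((R : ℝ) / ρ) ^ (2 - c) := by
        rw [mul_assoc, a5, mul_one]
    _ ≤ C ^ 2 * al L R₀ R * ((R : ℝ) / ρ) ^ (2 - c) := mul_le_mul_of_nonneg_right a4 a6
    _ = C ^ 2 * (al L R₀ R * ((R : ℝ) / ρ) ^ (2 - c)) := by ring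

/-- `∑_v al L R₀ (nrm v) ≤ C ^ 2 al L R₀ R ∑_v (R / nrm v) ^ (2 - c)`; `sum_nrm` with `g m = (R / m) ^ (2 - c)`: `8 m (R / m) ^ (2 - c) = 8 R ^ (2 - c) m ^ (c - 1)`, `sum_pow_up`:
at most `8 R ^ (2 - c) (R ^ c / c) = 8 R ^ 2 / c`. -/
theorem al_sum (hp : TP L C c R₀) {R : ℤ} {W : Finset Pt} (hW : ∀ v ∈ W, R₀ ≤ nrm v ∧ nrm v ≤ R) :
    ∑ v ∈ W, al L R₀ (nrm v) ≤ 8 * C ^ 2 / c * ((R : ℝ) ^ 2 * al L R₀ R) := by
  have h16 := hp.ap.R16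
  have hC := hp.ap.C1
  have hc0 := hp.c0
  have hc1 := hp.c1
  rcases W.eq_empty_or_nonempty with rfl | ⟨w, hw⟩
  · rw [Finset.sum_empty]
    have h0 : 0 ≤ al L R₀ R := by
      by_cases h : R₀ ≤ R
      · exact (hp.ap.pos R₀ R le_rfl h).le
      · unfold al
        rw [if_neg (by omega)]
        exact zero_le_one
    positivity
  have hR : R₀ ≤ R := (hW w hw).1.trans (hW w hw).2
  have hn : (0 : ℝ) < R := by exact_mod_cast (by omega : (0 : ℤ) < R)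
  have hpos : 0 ≤ al L R₀ R := (hp.ap.pos R₀ R le_rfl hR).le
  have e1 : ∑ v ∈ W, al L R₀ (nrm v) ≤
      ∑ v ∈ W, C ^ 2 * al L R₀ R * ((R : ℝ) / (nrm v : ℝ)) ^ (2 - c) := by
    refine Finset.sum_le_sum fun v hv => ?_
    refine (al_back hp (hW v hv).1 (hW v hv).2).trans (le_of_eq ?_)
    ring
  rw [← Finset.mul_sum] at e1
  have e2 : ∑ v ∈ W, ((R : ℝ) / (nrm v : ℝ)) ^ (2 - c) ≤
      ∑ m ∈ Finset.Icc R₀ R, 8 * (m : ℝ) * ((R : ℝ) / (m : ℝ)) ^ (2 - c) :=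
    sum_nrm (g := fun m : ℤ => ((R : ℝ) / (m : ℝ)) ^ (2 - c)) (by omega) hW
      (fun m hm _ => Real.rpow_nonneg (div_nonneg hn.le
        (by exact_mod_cast (by omega : (0 : ℤ) ≤ m))) _)
  have e3 : ∑ m ∈ Finset.Icc R₀ R, 8 * (m : ℝ) * ((R : ℝ) / (m : ℝ)) ^ (2 - c) ≤
      ∑ m ∈ Finset.Icc 1 R, 8 * (R : ℝ) ^ (2 - c) * (m : ℝ) ^ (c - 1) := by
    have f1 : ∑ m ∈ Finset.Icc R₀ R, 8 * (m : ℝ) * ((R : ℝ) / (m : ℝ)) ^ (2 - c) =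
        ∑ m ∈ Finset.Icc R₀ R, 8 * (R : ℝ) ^ (2 - c) * (m : ℝ) ^ (c - 1) := by
      refine Finset.sum_congr rfl fun m hm => ?_
      rw [Finset.mem_Icc] at hm
      have hm0 : (0 : ℝ) < m := by exact_mod_cast (by omega : (0 : ℤ) < m)
      have g1 : (m : ℝ) * ((R : ℝ) / (m : ℝ)) ^ (2 - c) = (R : ℝ) ^ (2 - c) * (m : ℝ) ^ (c - 1) := by
        rw [Real.div_rpow hn.le hm0.le, mul_div_assoc', mul_comm, mul_div_assoc]
        congr 1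
        rw [show c - 1 = 1 - (2 - c) by ring, Real.rpow_sub hm0 1 (2 - c), Real.rpow_one]
      rw [mul_assoc, g1, mul_assoc]
    rw [f1]
    refine Finset.sum_le_sum_of_subset_of_nonneg ?_ ?_
    · exact Finset.Icc_subset_Icc_left (by omega)
    · intro m hm _
      rw [Finset.mem_Icc] at hm
      have hm0 : (0 : ℝ) ≤ m := by exact_mod_cast (by omega : (0 : ℤ) ≤ m)
      positivity
  have e4 : ∑ m ∈ Finset.Icc 1 R, 8 * (R : ℝ) ^ (2 - c) * (m : ℝ) ^ (c - 1) ≤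
      8 * (R : ℝ) ^ 2 / c := by
    rw [← Finset.mul_sum]
    have f1 := sum_pow_up hc0 (by linarith : c ≤ 1) (n := R) (by omega)
    have f2 : (R : ℝ) ^ (2 - c) * (R : ℝ) ^ c = (R : ℝ) ^ 2 := by
      rw [← Real.rpow_add hn, sub_add_cancel, Real.rpow_two]
    have f3 : 0 ≤ 8 * (R : ℝ) ^ (2 - c) := by positivity
    calc 8 * (R : ℝ) ^ (2 - c) * ∑ m ∈ Finset.Icc 1 R, (m : ℝ) ^ (c - 1)
        ≤ 8 * (R : ℝ) ^ (2 - c) * ((R : ℝ) ^ c / c) := mul_le_mul_of_nonneg_left f1 f3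
      _ = 8 * ((R : ℝ) ^ (2 - c) * (R : ℝ) ^ c) / c := by ring
      _ = 8 * (R : ℝ) ^ 2 / c := by rw [f2]
  have e5 : 0 ≤ C ^ 2 * al L R₀ R := by positivity
  calc ∑ v ∈ W, al L R₀ (nrm v)
      ≤ C ^ 2 * al L R₀ R * ∑ v ∈ W, ((R : ℝ) / (nrm v : ℝ)) ^ (2 - c) := e1
    _ ≤ C ^ 2 * al L R₀ R * (8 * (R : ℝ) ^ 2 / c) :=
        mul_le_mul_of_nonneg_left (e2.trans (e3.trans e4)) e5
    _ = 8 * C ^ 2 / c * ((R : ℝ) ^ 2 * al L R₀ R) := by ring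

/-- `piv_one` and `al_sum` -/
theorem piv_sum (hp : TP L C c R₀) : ∃ C₄ : ℝ, 0 < C₄ ∧ ∀ (x : Pt) (R : ℤ) (W : Finset Pt),
    R₀ ≤ R → (∀ v ∈ W, 8 * R₀ < nrm v ∧ nrm v ≤ R / 4) →
      ∑ v ∈ W, pr (Piv v ((L.shift x).S4 R₀ R)) ≤ C₄ * ((R : ℝ) * al L R₀ R) ^ 2 := by
  have h16 := hp.ap.R16
  have hC := hp.ap.C1
  have hc0 := hp.c0
  refine ⟨256 * C ^ 5 * (8 * C ^ 2 / c), by positivity, ?_⟩
  intro x R W hR hW
  have hpos : 0 ≤ al L R₀ R := (hp.ap.pos R₀ R le_rfl hR).le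
  have e1 : ∑ v ∈ W, pr (Piv v ((L.shift x).S4 R₀ R)) ≤
      ∑ v ∈ W, 256 * C ^ 5 * al L R₀ R * al L R₀ (nrm v) := by
    refine Finset.sum_le_sum fun v hv => ?_
    refine (piv_one hp x (hW v hv).1 (hW v hv).2).trans (le_of_eq ?_)
    ring
  rw [← Finset.mul_sum] at e1
  have e2 := al_sum hp (R := R) (W := W) (fun v hv => by
    have h := hW v hv
    constructor <;> omega)
  have e3 : 0 ≤ 256 * C ^ 5 * al L R₀ R := by positivity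
  calc ∑ v ∈ W, pr (Piv v ((L.shift x).S4 R₀ R))
      ≤ 256 * C ^ 5 * al L R₀ R * ∑ v ∈ W, al L R₀ (nrm v) := e1
    _ ≤ 256 * C ^ 5 * al L R₀ R * (8 * C ^ 2 / c * ((R : ℝ) ^ 2 * al L R₀ R)) :=
        mul_le_mul_of_nonneg_left e2 e3
    _ = 256 * C ^ 5 * (8 * C ^ 2 / c) * ((R : ℝ) * al L R₀ R) ^ 2 := by ring

end TT

end SC

end

/-! ### from `Lib_MP_e0a489.TTK1` -/

section

/-!
# MP_e0a489, module TT (9c), a good scale by the energy inequality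
-/

set_option autoImplicit false

namespace SC

variable [IfL] [IfX]

namespace TT

open Classical

/-- the critical time of the scale `m` (times `a`) -/
noncomputable def tm (L : Lat) (R₀ : ℤ) (a : ℝ) (m : ℤ) : ℝ := a / ((m : ℝ) ^ 2 * al L R₀ m)

/-- hypothesis: lower bound for the probability that the sites of one class are pivotal at both times -/
def PivLow (L : Lat) (R₀ : ℤ) (x₀ : Pt) (a c₃ : ℝ) : Prop :=
  ∀ (m N : ℤ) (s : ℝ) (z : Pt), R₀ ≤ m → 64 * m ≤ N → 0 ≤ s →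
    s * ((m : ℝ) ^ 2 * al L R₀ m) ≤ a →
    2 * nrm (x₀.1 + 2 * z.1, x₀.2 + 2 * z.2) ≤ N →
    c₃ * (al L R₀ m * be L s m N) ≤
      pr2 (kt s) (Piv (x₀.1 + 2 * z.1, x₀.2 + 2 * z.2) (L.HX true (-N) N (-N) N))

/-- hypothesis: energy inequality -/
def Energy (L : Lat) : Prop :=
  ∀ (N : ℤ) (V : Finset Pt) (τ : ℕ → ℝ) (n : ℕ), 1 ≤ N → 0 ≤ τ 0 → (∀ i, 2 * τ i ≤ τ (i + 1)) →
    ∑ i ∈ Finset.range n, τ i * (Real.exp (-(2 * τ i)) * ∑ v ∈ V,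
      pr2 (kt (2 * τ i)) (Piv v (L.HX true (-N) N (-N) N))) ≤ 4

variable {L : Lat} {C c : ℝ} {R₀ : ℤ}

/-- The scales `m_i = n / B ^ i`: if `R₀ B ^ K ≤ n` and `i ≤ K`, then `R₀ ≤ m_i`, `n / m_i` is between `B ^ i` and `2 B ^ i`, and `B m_{i+1} ≤ m_i`. -/
theorem scales {B n : ℤ} (hB : 64 ≤ B) (hR : 1 ≤ R₀) {K : ℕ} (hn : R₀ * B ^ K ≤ n) {i : ℕ}
    (hi : i ≤ K) : R₀ ≤ n / B ^ i ∧ (n / B ^ i) * B ^ i ≤ n ∧ n ≤ 2 * ((n / B ^ i) * B ^ i) ∧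
      B * (n / B ^ (i + 1)) ≤ n / B ^ i := by
  have hB0 : 0 < B := by omega
  have hBi : 0 < B ^ i := pow_pos hB0 i
  have hBi1 : 0 < B ^ (i + 1) := pow_pos hB0 (i + 1)
  have h1 : R₀ ≤ n / B ^ i := by
    rw [Int.le_ediv_iff_mul_le hBi]
    refine le_trans ?_ hn
    exact mul_le_mul_of_nonneg_left (pow_le_pow_right₀ (by omega) hi) (by omega)
  have h2 : (n / B ^ i) * B ^ i ≤ n := Int.ediv_mul_le n hBi.ne'
  refine ⟨h1, h2, ?_, ?_⟩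
  · have h3 : n < (n / B ^ i + 1) * B ^ i := Int.lt_ediv_add_one_mul_self n hBi
    have h4 : 1 * B ^ i ≤ (n / B ^ i) * B ^ i :=
      mul_le_mul_of_nonneg_right (by omega) hBi.le
    have h5 : (n / B ^ i + 1) * B ^ i = (n / B ^ i) * B ^ i + 1 * B ^ i := by ring
    rw [h5] at h3
    omega
  · rw [Int.le_ediv_iff_mul_le hBi]
    have h3 : (n / B ^ (i + 1)) * B ^ (i + 1) ≤ n := Int.ediv_mul_le n hBi1.ne'
    calc B * (n / B ^ (i + 1)) * B ^ i = (n / B ^ (i + 1)) * B ^ (i + 1) := by ring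
      _ ≤ n := h3

private theorem ttk1_pos (hp : TP L C c R₀) {m : ℤ} (h : R₀ ≤ m) :
    0 < (m : ℝ) ∧ 0 < al L R₀ m ∧ 0 < (m : ℝ) ^ 2 * al L R₀ m := by
  have h16 := hp.ap.R16
  have hm : (0 : ℝ) < (m : ℝ) := by exact_mod_cast (by omega : (0 : ℤ) < m)
  have ha := hp.ap.pos R₀ m le_rfl h
  exact ⟨hm, ha, by positivity⟩

/-- The critical times at least double from one scale to the next one if `B ^ c ≥ 2 C ^ 2` (`TP.growth` with `n / m ≥ B`). -/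
theorem tm_double (hp : TP L C c R₀) {a : ℝ} (ha : 0 < a) {B m m' : ℤ} (h1 : R₀ ≤ m')
    (h2 : B * m' ≤ m) (hB : 1 ≤ B) (hBc : 2 * C ^ 2 ≤ (B : ℝ) ^ c) :
    2 * tm L R₀ a m ≤ tm L R₀ a m' := by
  have h16 := hp.ap.R16
  have hC := hp.ap.C1
  have hm' : m' ≤ m := le_trans (by nlinarith) h2
  obtain ⟨p1, p2, p3⟩ := ttk1_pos hp h1
  obtain ⟨q1, q2, q3⟩ := ttk1_pos hp (h1.trans hm')
  have hg := hp.growth h1 hm'
  have hB0 : (0 : ℝ) ≤ (B : ℝ) := by exact_mod_cast (by omega : (0 : ℤ) ≤ B)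
  have hBm : (B : ℝ) ≤ (m : ℝ) / m' := by
    rw [le_div_iff₀ p1]
    exact_mod_cast h2
  have hpow : 2 * C ^ 2 ≤ ((m : ℝ) / m') ^ c :=
    hBc.trans (Real.rpow_le_rpow hB0 hBm hp.c0.le)
  have h3 : ((m' : ℝ) ^ 2 * al L R₀ m') * (2 * C ^ 2) ≤ C ^ 2 * ((m : ℝ) ^ 2 * al L R₀ m) :=
    le_trans (mul_le_mul_of_nonneg_left hpow p3.le) hg
  have hC2 : 0 < C ^ 2 := by positivity
  have h4 : 2 * ((m' : ℝ) ^ 2 * al L R₀ m') ≤ (m : ℝ) ^ 2 * al L R₀ m := by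
    refine le_of_mul_le_mul_left ?_ hC2
    calc C ^ 2 * (2 * ((m' : ℝ) ^ 2 * al L R₀ m')) = ((m' : ℝ) ^ 2 * al L R₀ m') * (2 * C ^ 2) := by
          ring
      _ ≤ _ := h3
  unfold tm
  rw [mul_div_assoc', div_le_div_iff₀ q3 p3]
  calc 2 * a * ((m' : ℝ) ^ 2 * al L R₀ m') = a * (2 * ((m' : ℝ) ^ 2 * al L R₀ m')) := by ring
    _ ≤ a * ((m : ℝ) ^ 2 * al L R₀ m) := mul_le_mul_of_nonneg_left h4 ha.le

/-- `TP.growth0` -/
theorem tm_le (hp : TP L C c R₀) {a : ℝ} (ha : 0 < a) {m : ℤ} (h1 : R₀ ≤ m) :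
    tm L R₀ a m ≤ a * C ^ 2 := by
  obtain ⟨p1, p2, p3⟩ := ttk1_pos hp h1
  have hg := hp.growth0 h1
  unfold tm
  rw [div_le_iff₀ p3]
  calc a = a * 1 := (mul_one a).symm
    _ ≤ a * (C ^ 2 * ((m : ℝ) ^ 2 * al L R₀ m)) := mul_le_mul_of_nonneg_left hg ha.le
    _ = a * C ^ 2 * ((m : ℝ) ^ 2 * al L R₀ m) := by ring

/-- SUM OVER THE SCALES.  Apply the energy inequality with `N = n`, `V` from `class_card x₀` (at least `n ^ 2 / 16` sites), and a sequence of times with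
`τ i = tm L R₀ a (n / B ^ (i + 1)) / 2` for `i < K` (continue it by doubling: `τ i = 2 ^ (i + 1 - K) τ (K - 1)` for `i ≥ K`; `tm_double`).  For `i < K`, `m = n / B ^ (i + 1)`,
`s = 2 τ i = tm L R₀ a m`: `s m ^ 2 al L R₀ m = a`, `64 m ≤ n`, so every `v ∈ V` has `pr2 (kt s) (Piv v ..) ≥ c₃ al L R₀ m be L s m n`; `exp (-s) ≥ exp (-a C ^ 2)` (`tm_le`).  The
term number `i` is at least `(a / (2 m ^ 2 al)) exp (-a C ^ 2) (n ^ 2 / 16) c₃ al be = C₄⁻¹ 4 (n / m) ^ 2 be` with `C₄ = 128 exp (a C ^ 2) / (a c₃)`. -/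
theorem scale_sum (hp : TP L C c R₀) {x₀ : Pt} {a c₃ : ℝ} (ha : 0 < a) (hc₃ : 0 < c₃)
    (hlow : PivLow L R₀ x₀ a c₃) (hen : Energy L) {B : ℤ} (hB : 64 ≤ B)
    (hBc : 2 * C ^ 2 ≤ (B : ℝ) ^ c) {K : ℕ} {n : ℤ} (hn : R₀ * B ^ K ≤ n) :
    ∑ i ∈ Finset.range K, ((n : ℝ) / ((n / B ^ (i + 1) : ℤ) : ℝ)) ^ 2 *
      be L (tm L R₀ a (n / B ^ (i + 1))) (n / B ^ (i + 1)) n ≤
        128 * Real.exp (a * C ^ 2) / (a * c₃) := by
  have h16 := hp.ap.R16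
  have hC := hp.ap.C1
  rcases Nat.eq_zero_or_pos K with hK0 | hK0
  · rw [hK0, Finset.sum_range_zero]
    positivity
  have hR1 : 1 ≤ R₀ := by omega
  have hsc : ∀ i, i < K → R₀ ≤ n / B ^ (i + 1) ∧ 64 * (n / B ^ (i + 1)) ≤ n := by
    intro i hi
    obtain ⟨h1, h2, -, -⟩ := scales hB hR1 hn (i := i + 1) (by omega)
    refine ⟨h1, le_trans ?_ h2⟩
    rw [mul_comm]
    apply mul_le_mul_of_nonneg_left _ (by omega)
    calc (64 : ℤ) ≤ B := hB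
      _ = B ^ 1 := (pow_one B).symm
      _ ≤ B ^ (i + 1) := pow_le_pow_right₀ (by omega) (by omega)
  have hn16 : 16 ≤ n := by
    have h1 := hsc 0 hK0
    omega
  obtain ⟨V, hV, hVc⟩ := class_card x₀ hn16
  let T : ℕ → ℝ := fun j => tm L R₀ a (n / B ^ (j + 1)) / 2
  let τ : ℕ → ℝ := fun i => 2 ^ (i - min i (K - 1)) * T (min i (K - 1))
  have hT0 : ∀ j, j < K → 0 ≤ T j := by
    intro j hj
    obtain ⟨p1, p2, p3⟩ := ttk1_pos hp (hsc j hj).1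
    show 0 ≤ tm L R₀ a (n / B ^ (j + 1)) / 2
    unfold tm
    positivity
  have hτi : ∀ i, i < K → τ i = T i := by
    intro i hi
    have h1 : min i (K - 1) = i := by omega
    show 2 ^ (i - min i (K - 1)) * T (min i (K - 1)) = T i
    rw [h1, Nat.sub_self, pow_zero, one_mul]
  have hτ0 : 0 ≤ τ 0 := by
    rw [hτi 0 hK0]
    exact hT0 0 hK0
  have hτ2 : ∀ i, 2 * τ i ≤ τ (i + 1) := by
    intro i
    by_cases hi : i + 1 < K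
    · rw [hτi i (by omega), hτi (i + 1) hi]
      show 2 * (tm L R₀ a (n / B ^ (i + 1)) / 2) ≤ tm L R₀ a (n / B ^ (i + 1 + 1)) / 2
      obtain ⟨-, -, -, h4⟩ := scales hB hR1 hn (i := i + 1) (by omega)
      have h5 := tm_double hp ha (hsc (i + 1) hi).1 h4 (by omega) hBc
      linarith
    · have h1 : min i (K - 1) = K - 1 := by omega
      have h2 : min (i + 1) (K - 1) = K - 1 := by omega
      have h3 : i + 1 - (K - 1) = (i - (K - 1)) + 1 := by omega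
      show 2 * (2 ^ (i - min i (K - 1)) * T (min i (K - 1))) ≤
        2 ^ (i + 1 - min (i + 1) (K - 1)) * T (min (i + 1) (K - 1))
      rw [h1, h2, h3, pow_succ]
      apply le_of_eq
      ring
  have hE := hen n V τ K (by omega) hτ0 hτ2
  have hterm : ∀ i ∈ Finset.range K,
      a * c₃ / 32 * Real.exp (-(a * C ^ 2)) * (((n : ℝ) / ((n / B ^ (i + 1) : ℤ) : ℝ)) ^ 2 *
        be L (tm L R₀ a (n / B ^ (i + 1))) (n / B ^ (i + 1)) n) ≤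
      τ i * (Real.exp (-(2 * τ i)) * ∑ v ∈ V,
        pr2 (kt (2 * τ i)) (Piv v (L.HX true (-n) n (-n) n))) := by
    intro i hi
    have hiK := Finset.mem_range.1 hi
    obtain ⟨h1, h2⟩ := hsc i hiK
    have h2τ : 2 * τ i = tm L R₀ a (n / B ^ (i + 1)) := by
      rw [hτi i hiK]
      show 2 * (tm L R₀ a (n / B ^ (i + 1)) / 2) = _
      ring
    obtain ⟨m, hm⟩ : ∃ m : ℤ, m = n / B ^ (i + 1) := ⟨_, rfl⟩
    rw [← hm] at h1 h2 h2τ ⊢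
    obtain ⟨p1, p2, p3⟩ := ttk1_pos hp h1
    obtain ⟨s, hs⟩ : ∃ s : ℝ, s = tm L R₀ a m := ⟨_, rfl⟩
    rw [← hs] at h2τ ⊢
    have hτs : τ i = s / 2 := by linarith
    have hsm : s * ((m : ℝ) ^ 2 * al L R₀ m) = a := by
      rw [hs]
      unfold tm
      exact div_mul_cancel₀ a p3.ne'
    have hs0 : 0 ≤ s := by
      rw [hs]
      unfold tm
      positivity
    have hsC : s ≤ a * C ^ 2 := by
      rw [hs]
      exact tm_le hp ha h1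
    have hbe := be_nonneg L hs0 m n
    have hsum : (n : ℝ) ^ 2 / 16 * (c₃ * (al L R₀ m * be L s m n)) ≤
        ∑ v ∈ V, pr2 (kt s) (Piv v (L.HX true (-n) n (-n) n)) := by
      calc (n : ℝ) ^ 2 / 16 * (c₃ * (al L R₀ m * be L s m n))
          ≤ (V.card : ℝ) * (c₃ * (al L R₀ m * be L s m n)) :=
            mul_le_mul_of_nonneg_right hVc (by positivity)
        _ = ∑ _v ∈ V, c₃ * (al L R₀ m * be L s m n) := by
            rw [Finset.sum_const, nsmul_eq_mul]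
        _ ≤ _ := by
            refine Finset.sum_le_sum fun v hv => ?_
            obtain ⟨h3, z, hz⟩ := hV v hv
            have h4 := hlow m n s z h1 h2 hs0 hsm.le (by rw [← hz]; exact h3)
            rw [← hz] at h4
            exact h4
    rw [h2τ, hτs]
    have hexp : Real.exp (-(a * C ^ 2)) ≤ Real.exp (-s) := Real.exp_le_exp.2 (by linarith)
    have hn0 : (0 : ℝ) < (n : ℝ) := by exact_mod_cast (by omega : (0 : ℤ) < n)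
    have hal : (m : ℝ) ^ 2 * al L R₀ m ≠ 0 := p3.ne'
    calc a * c₃ / 32 * Real.exp (-(a * C ^ 2)) * (((n : ℝ) / (m : ℝ)) ^ 2 * be L s m n)
        = s / 2 * (Real.exp (-(a * C ^ 2)) *
            ((n : ℝ) ^ 2 / 16 * (c₃ * (al L R₀ m * be L s m n)))) := by
          rw [← hsm]
          field_simp
          ring
      _ ≤ s / 2 * (Real.exp (-s) *
            ∑ v ∈ V, pr2 (kt s) (Piv v (L.HX true (-n) n (-n) n))) := by
          apply mul_le_mul_of_nonneg_left _ (by linarith)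
          exact mul_le_mul hexp hsum (by positivity) (Real.exp_pos _).le
  have hsum := Finset.sum_le_sum hterm
  rw [← Finset.mul_sum] at hsum
  have h5 := hsum.trans hE
  have hexp : Real.exp (-(a * C ^ 2)) * Real.exp (a * C ^ 2) = 1 := by
    rw [← Real.exp_add]
    simp
  rw [le_div_iff₀ (by positivity)]
  obtain ⟨S, hS⟩ : ∃ S : ℝ, S = ∑ i ∈ Finset.range K, ((n : ℝ) / ((n / B ^ (i + 1) : ℤ) : ℝ)) ^ 2 *
      be L (tm L R₀ a (n / B ^ (i + 1))) (n / B ^ (i + 1)) n := ⟨_, rfl⟩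
  rw [← hS] at h5 ⊢
  have h6 := mul_le_mul_of_nonneg_right h5 (Real.exp_pos (a * C ^ 2)).le
  calc S * (a * c₃) = 32 * (a * c₃ / 32 * (Real.exp (-(a * C ^ 2)) * Real.exp (a * C ^ 2)) * S) := by
        rw [hexp]
        ring
    _ = 32 * (a * c₃ / 32 * Real.exp (-(a * C ^ 2)) * S * Real.exp (a * C ^ 2)) := by ring
    _ ≤ 32 * (4 * Real.exp (a * C ^ 2)) := by linarith
    _ = 128 * Real.exp (a * C ^ 2) := by ring

/-- GOOD SCALE: one of the `K` terms is at most the `K`-th part of the sum (`Finset.exists_le_of_sum_le` or contradiction), `K ≥ 1`,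
`128 exp (a C ^ 2) / (a c₃) ≤ K / 2`. -/
theorem good_scale (hp : TP L C c R₀) {x₀ : Pt} {a c₃ : ℝ} (ha : 0 < a) (hc₃ : 0 < c₃)
    (hlow : PivLow L R₀ x₀ a c₃) (hen : Energy L) {B : ℤ} (hB : 64 ≤ B)
    (hBc : 2 * C ^ 2 ≤ (B : ℝ) ^ c) {K : ℕ} (hK : 128 * Real.exp (a * C ^ 2) / (a * c₃) ≤ K / 2)
    (hK1 : 1 ≤ K) {n : ℤ} (hn : R₀ * B ^ K ≤ n) :
    ∃ m : ℤ, n ≤ 2 * (m * B ^ K) ∧ 64 * m ≤ n ∧ R₀ ≤ m ∧
      be L (tm L R₀ a m) m n ≤ 1 / 2 * ((m : ℝ) / n) ^ 2 := by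
  by_contra hcon
  have h16 := hp.ap.R16
  have hR1 : 1 ≤ R₀ := by omega
  have hsum := scale_sum hp ha hc₃ hlow hen hB hBc hn
  have hlt : ∀ i ∈ Finset.range K, (1 / 2 : ℝ) <
      ((n : ℝ) / ((n / B ^ (i + 1) : ℤ) : ℝ)) ^ 2 *
      be L (tm L R₀ a (n / B ^ (i + 1))) (n / B ^ (i + 1)) n := by
    intro i hi
    have hiK := Finset.mem_range.1 hi
    obtain ⟨h1, h2, h3, -⟩ := scales hB hR1 hn (i := i + 1) (by omega)
    obtain ⟨m, hm⟩ : ∃ m : ℤ, m = n / B ^ (i + 1) := ⟨_, rfl⟩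
    rw [← hm] at h1 h2 h3 ⊢
    have hBK : B ^ (i + 1) ≤ B ^ K := pow_le_pow_right₀ (by omega) (by omega)
    have h64 : 64 * m ≤ n := by
      refine le_trans ?_ h2
      rw [mul_comm]
      apply mul_le_mul_of_nonneg_left _ (by omega)
      calc (64 : ℤ) ≤ B := hB
        _ = B ^ 1 := (pow_one B).symm
        _ ≤ B ^ (i + 1) := pow_le_pow_right₀ (by omega) (by omega)
    have h4 : n ≤ 2 * (m * B ^ K) := by
      have h5 : m * B ^ (i + 1) ≤ m * B ^ K := mul_le_mul_of_nonneg_left hBK (by omega)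
      omega
    have h6 : 1 / 2 * ((m : ℝ) / n) ^ 2 < be L (tm L R₀ a m) m n := by
      by_contra h7
      exact hcon ⟨m, h4, h64, h1, not_lt.1 h7⟩
    have hm0 : (0 : ℝ) < (m : ℝ) := by exact_mod_cast (by omega : (0 : ℤ) < m)
    have hn0 : (0 : ℝ) < (n : ℝ) := by exact_mod_cast (by omega : (0 : ℤ) < n)
    have h8 : ((n : ℝ) / m) ^ 2 * (1 / 2 * ((m : ℝ) / n) ^ 2) = 1 / 2 := by
      field_simp
    rw [← h8]
    exact mul_lt_mul_of_pos_left h6 (by positivity)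
  have hne : (Finset.range K).Nonempty := Finset.nonempty_range_iff.2 (by omega)
  have h9 := Finset.sum_lt_sum_of_nonempty hne hlt
  rw [Finset.sum_const, Finset.card_range, nsmul_eq_mul] at h9
  linarith

end TT

end SC

end

/-! ### from `Lib_MP_e0a489.TTK2` -/

section

/-!
# MP_e0a489, module TT (9c), exponent larger than two beyond the correlation length
-/

set_option autoImplicit false

namespace SC

variable [IfL] [IfX]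

namespace TT

open Classical

variable {L : Lat} {C c : ℝ} {R₀ : ℤ}

/-- `t` beyond `ℓ`, `m ≥ ℓ`, `a C ^ 2 ≤ 1`: then `tm L R₀ a m ≤ t` (`TP.beyond_up`: `1 ≤ C ^ 2 t m ^ 2 al`). -/
theorem tm_le_t (hp : TP L C c R₀) {a : ℝ} (ha : 0 < a) (haC : a * C ^ 2 ≤ 1) {ℓ m : ℤ} {t : ℝ}
    (h1 : R₀ ≤ ℓ) (h2 : ℓ ≤ m) (hb : Beyond L R₀ ℓ t) : tm L R₀ a m ≤ t ∧ 0 ≤ tm L R₀ a m := by
  have h3 : R₀ ≤ m := h1.trans h2
  have hR : (16 : ℤ) ≤ R₀ := hp.ap.R16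
  have hal : 0 < al L R₀ m := hp.ap.pos _ _ le_rfl h3
  have hm : (0 : ℝ) < m := by
    have : (0 : ℤ) < m := by omega
    exact_mod_cast this
  have hX : 0 < (m : ℝ) ^ 2 * al L R₀ m := by positivity
  have ht := (hp.beyond_pos h1 hb).1
  have hu := hp.beyond_up h1 h2 hb
  unfold tm
  refine ⟨?_, by positivity⟩
  rw [div_le_iff₀ hX]
  have hY : 0 < t * ((m : ℝ) ^ 2 * al L R₀ m) := by positivity
  calc a = a * 1 := by ring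
    _ ≤ a * (C ^ 2 * (t * ((m : ℝ) ^ 2 * al L R₀ m))) := by gcongr
    _ = (a * C ^ 2) * (t * ((m : ℝ) ^ 2 * al L R₀ m)) := by ring
    _ ≤ 1 * (t * ((m : ℝ) ^ 2 * al L R₀ m)) := by gcongr
    _ = _ := by ring

/-- Pure induction.  `f n = be L t r n` for fixed `r ≥ 1`, `Q ≥ 64`: `0 ≤ f ≤ 1`, and for `n ≥ 2 Q r` there is `m` with `r ≤ m`, `64 m ≤ n`, `n ≤ 2 Q m`,
`f n ≤ f m * (1/2 (m / n) ^ 2)`.  Then `f n ≤ (2 Q) ^ 3 (r / n) ^ (2 + e)` for all `n ≥ r`, if `(2 Q) ^ e ≤ 2`, `0 ≤ e ≤ 1`.  Strong induction on `n`: for `n < 2 Q r` the right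
side is at least `(2 Q) ^ 3 (2 Q) ^ (-3) = 1`; otherwise `f n ≤ (2Q) ^ 3 (r/m) ^ (2+e) (1/2) (m/n) ^ 2 = (2Q) ^ 3 (r/n) ^ (2+e) (1/2) (n/m) ^ e` and
`(n/m) ^ e ≤ (2Q) ^ e ≤ 2`. -/
theorem kb_ind {f : ℤ → ℝ} {r Q : ℤ} {e : ℝ} (hr : 1 ≤ r) (hQ : 64 ≤ Q) (he : 0 ≤ e)
    (he1 : e ≤ 1) (hQe : (2 * (Q : ℝ)) ^ e ≤ 2) (h0 : ∀ n, 0 ≤ f n) (h1 : ∀ n, f n ≤ 1)
    (hf : ∀ n, 2 * Q * r ≤ n → ∃ m, r ≤ m ∧ 64 * m ≤ n ∧ n ≤ 2 * Q * m ∧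
      f n ≤ f m * (1 / 2 * ((m : ℝ) / n) ^ 2)) {n : ℤ} (hn : r ≤ n) :
    f n ≤ (2 * (Q : ℝ)) ^ 3 * ((r : ℝ) / n) ^ (2 + e) := by
  have hQr : (0 : ℝ) < 2 * (Q : ℝ) := by
    have : (0 : ℤ) < 2 * Q := by omega
    exact_mod_cast this
  have hQ1 : (1 : ℝ) ≤ 2 * (Q : ℝ) := by
    have : (1 : ℤ) ≤ 2 * Q := by omega
    exact_mod_cast this
  have hrr : (0 : ℝ) < r := by
    have : (0 : ℤ) < r := by omega
    exact_mod_cast this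
  have key : ∀ k : ℕ, ∀ n : ℤ, r ≤ n → n.toNat = k →
      f n ≤ (2 * (Q : ℝ)) ^ 3 * ((r : ℝ) / n) ^ (2 + e) := by
    intro k
    induction k using Nat.strong_induction_on with
    | _ k ih =>
      intro n hn hk
      have hnr : (0 : ℝ) < n := by
        have : (0 : ℤ) < n := by omega
        exact_mod_cast this
      rcases lt_or_ge n (2 * Q * r) with hlt | hge
      · have h2 : (n : ℝ) ≤ 2 * Q * r := by exact_mod_cast hlt.le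
        have h3 : 1 / (2 * (Q : ℝ)) ≤ (r : ℝ) / n := by
          rw [div_le_div_iff₀ hQr hnr]
          linarith
        have h4 : (1 / (2 * (Q : ℝ))) ^ (3 : ℝ) ≤ (1 / (2 * (Q : ℝ))) ^ (2 + e) := by
          apply Real.rpow_le_rpow_of_exponent_ge (by positivity)
          · rw [div_le_one hQr]; exact hQ1
          · linarith
        have h5 : (1 / (2 * (Q : ℝ))) ^ (2 + e) ≤ ((r : ℝ) / n) ^ (2 + e) :=
          Real.rpow_le_rpow (by positivity) h3 (by linarith)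
        have h6 : (1 / (2 * (Q : ℝ))) ^ (3 : ℝ) = (1 / (2 * (Q : ℝ))) ^ 3 := by
          rw [show (3 : ℝ) = ((3 : ℕ) : ℝ) by norm_num, Real.rpow_natCast]
        calc f n ≤ 1 := h1 n
          _ = (2 * (Q : ℝ)) ^ 3 * (1 / (2 * (Q : ℝ))) ^ 3 := by
              field_simp
          _ ≤ (2 * (Q : ℝ)) ^ 3 * ((r : ℝ) / n) ^ (2 + e) := by
              rw [← h6]
              gcongr
              exact h4.trans h5
      · obtain ⟨m, hm1, hm2, hm3, hm4⟩ := hf n hge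
        have hmr : (0 : ℝ) < m := by
          have : (0 : ℤ) < m := by omega
          exact_mod_cast this
        have hI := ih m.toNat (by omega) m hm1 rfl
        have h2 : (n : ℝ) ≤ 2 * Q * m := by exact_mod_cast hm3
        have h3 : 1 / (2 * (Q : ℝ)) ≤ (m : ℝ) / n := by
          rw [div_le_div_iff₀ hQr hnr]
          linarith
        have h4 : (1 / (2 * (Q : ℝ))) ^ e ≤ ((m : ℝ) / n) ^ e :=
          Real.rpow_le_rpow (by positivity) h3 he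
        have h5 : 1 / 2 ≤ (1 / (2 * (Q : ℝ))) ^ e := by
          rw [Real.div_rpow (by norm_num) hQr.le, Real.one_rpow]
          apply one_div_le_one_div_of_le
          · positivity
          · exact hQe
        have h6 : ((r : ℝ) / n) ^ (2 + e) =
            ((r : ℝ) / m) ^ (2 + e) * (((m : ℝ) / n) ^ 2 * ((m : ℝ) / n) ^ e) := by
          have h7 : ((m : ℝ) / n) ^ 2 * ((m : ℝ) / n) ^ e = ((m : ℝ) / n) ^ (2 + e) := by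
            rw [Real.rpow_add (by positivity)]
            norm_num
          rw [h7, ← Real.mul_rpow (by positivity) (by positivity)]
          congr 1
          field_simp
        calc f n ≤ f m * (1 / 2 * ((m : ℝ) / n) ^ 2) := hm4
          _ ≤ ((2 * (Q : ℝ)) ^ 3 * ((r : ℝ) / m) ^ (2 + e)) * (1 / 2 * ((m : ℝ) / n) ^ 2) := by
              gcongr
          _ ≤ ((2 * (Q : ℝ)) ^ 3 * ((r : ℝ) / m) ^ (2 + e)) *
                (((m : ℝ) / n) ^ e * ((m : ℝ) / n) ^ 2) := by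
              gcongr
              exact h5.trans h4
          _ = (2 * (Q : ℝ)) ^ 3 * ((r : ℝ) / n) ^ (2 + e) := by
              rw [h6]; ring
  exact key _ n hn rfl

/-- KB for the event `TwoA` at the origin.  `a C ^ 2 ≤ 1`.  Choose `B ≥ 64` with `B ^ c ≥ 2 C ^ 2`, `K ≥ 1` with `128 exp (a C ^ 2) / (a c₃) ≤ K / 2`, `Q = B ^ K`, `e ≤ 1/2` with
`(2 Q) ^ e ≤ 2` (`e = min (1/2) (log 2 / log (2 Q))`).  For `t` beyond `ℓ`, `r ≥ ℓ` and `n ≥ 2 Q r`: `good_scale` (`R₀ Q ≤ r Q ≤ n`) gives `m`, `n ≤ 2 Q m`, so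
`m ≥ r` (`2 Q r ≤ n ≤ 2 Q m`), `be L t r n ≤ be L t r m * be L t m n` (`be_submul`), `be L t m n ≤ be L (tm L R₀ a m) m n` (`be_anti`, `tm_le_t`).  `kb_ind`. -/
theorem kb_zero (hp : TP L C c R₀) {x₀ : Pt} {a c₃ : ℝ} (ha : 0 < a) (haC : a * C ^ 2 ≤ 1)
    (hc₃ : 0 < c₃) (hlow : PivLow L R₀ x₀ a c₃) (hen : Energy L) :
    ∃ C₁ e : ℝ, 1 ≤ C₁ ∧ 0 < e ∧ e ≤ 1 / 2 ∧ ∀ (ℓ : ℤ) (t : ℝ), R₀ ≤ ℓ → Beyond L R₀ ℓ t →
      ∀ r n : ℤ, ℓ ≤ r → r ≤ n → be L t r n ≤ C₁ * ((r : ℝ) / n) ^ (2 + e) := by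
  have hR : (16 : ℤ) ≤ R₀ := hp.ap.R16
  have hC1 : 1 ≤ C := hp.ap.C1
  obtain ⟨b₀, hb₀⟩ := exists_nat_ge ((2 * C ^ 2) ^ (1 / c))
  have hc := hp.c0
  set B : ℤ := max 64 (b₀ : ℤ) with hBdef
  have hB : 64 ≤ B := le_max_left _ _
  have hBb : ((2 * C ^ 2) ^ (1 / c) : ℝ) ≤ (B : ℝ) := by
    refine hb₀.trans ?_
    have : (b₀ : ℤ) ≤ B := le_max_right _ _
    exact_mod_cast this
  have hBc : 2 * C ^ 2 ≤ (B : ℝ) ^ c := by
    have h1 : ((2 * C ^ 2) ^ (1 / c) : ℝ) ^ c ≤ (B : ℝ) ^ c :=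
      Real.rpow_le_rpow (by positivity) hBb hc.le
    rwa [← Real.rpow_mul (by positivity), one_div, inv_mul_cancel₀ hc.ne', Real.rpow_one] at h1
  obtain ⟨k₀, hk₀⟩ := exists_nat_ge (2 * (128 * Real.exp (a * C ^ 2) / (a * c₃)))
  set K : ℕ := max 1 k₀ with hKdef
  have hK1 : 1 ≤ K := le_max_left _ _
  have hK : 128 * Real.exp (a * C ^ 2) / (a * c₃) ≤ (K : ℝ) / 2 := by
    have : (k₀ : ℝ) ≤ (K : ℝ) := by
      have : k₀ ≤ K := le_max_right _ _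
      exact_mod_cast this
    linarith
  have hB0 : (0 : ℤ) < B := by omega
  have hQ : 64 ≤ B ^ K := by
    calc (64 : ℤ) ≤ B := hB
      _ = B ^ 1 := by ring
      _ ≤ B ^ K := pow_le_pow_right₀ (by omega) hK1
  have hQr : (128 : ℝ) ≤ 2 * ((B ^ K : ℤ) : ℝ) := by
    have : (64 : ℝ) ≤ ((B ^ K : ℤ) : ℝ) := by exact_mod_cast hQ
    linarith
  have hlog : 0 < Real.log (2 * ((B ^ K : ℤ) : ℝ)) := Real.log_pos (by linarith)
  have hlog2 : 0 < Real.log 2 := Real.log_pos (by norm_num)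
  set e : ℝ := min (1 / 2) (Real.log 2 / Real.log (2 * ((B ^ K : ℤ) : ℝ))) with hedef
  have he0 : 0 < e := lt_min (by norm_num) (div_pos hlog2 hlog)
  have he1 : e ≤ 1 / 2 := min_le_left _ _
  have hQe : (2 * ((B ^ K : ℤ) : ℝ)) ^ e ≤ 2 := by
    have h1 : (2 * ((B ^ K : ℤ) : ℝ)) ^ e ≤
        (2 * ((B ^ K : ℤ) : ℝ)) ^ (Real.log 2 / Real.log (2 * ((B ^ K : ℤ) : ℝ))) :=
      Real.rpow_le_rpow_of_exponent_le (by linarith) (min_le_right _ _)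
    refine h1.trans ?_
    rw [Real.rpow_def_of_pos (by linarith), mul_div_cancel₀ _ hlog.ne']
    exact (Real.exp_log (by norm_num)).le
  refine ⟨(2 * ((B ^ K : ℤ) : ℝ)) ^ 3, e, ?_, he0, he1, ?_⟩
  · exact one_le_pow₀ (by linarith)
  intro ℓ t hℓ hb r n hr hn
  have ht : 0 ≤ t := (hp.beyond_pos hℓ hb).1.le
  have hQ' : (64 : ℤ) ≤ B ^ K := hQ
  refine kb_ind (f := fun n => be L t r n) (by omega) hQ' he0.le (by linarith) hQe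
    (fun n => be_nonneg L ht r n) (fun n => be_le_one L ht r n) ?_ hn
  intro n hn2
  have hrR : R₀ ≤ r := hℓ.trans hr
  have hn3 : R₀ * B ^ K ≤ n := by
    have h1 : R₀ * B ^ K ≤ r * B ^ K := mul_le_mul_of_nonneg_right hrR (by omega)
    have h2 : r * B ^ K ≤ 2 * B ^ K * r := by
      have : 0 ≤ r * B ^ K := mul_nonneg (by omega) (by omega)
      nlinarith
    linarith
  obtain ⟨m, hm1, hm2, hm3, hm4⟩ := good_scale hp ha hc₃ hlow hen hB hBc hK hK1 hn3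
  have hrm : r ≤ m := by
    by_contra hcon
    have hlt : m + 1 ≤ r := by omega
    have h1 : (m + 1) * B ^ K ≤ r * B ^ K := mul_le_mul_of_nonneg_right hlt (by omega)
    nlinarith
  have htm := tm_le_t hp ha haC hℓ (hr.trans hrm) hb
  refine ⟨m, hrm, hm2, by linarith, ?_⟩
  have hmn : m ≤ n := by omega
  calc be L t r n ≤ be L t r m * be L t m n := be_submul L ht (by omega) hrm hmn
    _ ≤ be L t r m * be L (tm L R₀ a m) m n :=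
        mul_le_mul_of_nonneg_left (be_anti L htm.2 htm.1 m n) (be_nonneg L ht _ _)
    _ ≤ be L t r m * (1 / 2 * ((m : ℝ) / n) ^ 2) :=
        mul_le_mul_of_nonneg_left hm4 (be_nonneg L ht _ _)

/-- all centres and colours: `TP.cmpt` with `r' = r`, `R' = R` -/
theorem kb_of_zero (hp : TP L C c R₀) {C₁ e : ℝ}
    (h : ∀ (ℓ : ℤ) (t : ℝ), R₀ ≤ ℓ → Beyond L R₀ ℓ t →
      ∀ r n : ℤ, ℓ ≤ r → r ≤ n → be L t r n ≤ C₁ * ((r : ℝ) / n) ^ (2 + e)) :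
    KBOK L (C * C₁) e R₀ := by
  intro ℓ t hℓ hb b x r R hr hR
  have ht : 0 ≤ t := (hp.beyond_pos hℓ hb).1.le
  have h16 : (16 : ℤ) ≤ R₀ := hp.ap.R16
  have hC0 : 0 ≤ C := by have := hp.ap.C1; linarith
  have h1 := hp.cmpt t ht b x r R r R (hℓ.trans hr) (hℓ.trans hr) hR (by omega) hR (by omega)
  calc pr2 (kt t) (L.TwoAt b x r R) ≤ C * be L t r R := h1
    _ ≤ C * (C₁ * ((r : ℝ) / R) ^ (2 + e)) := mul_le_mul_of_nonneg_left (h ℓ t hℓ hb r R hr hR) hC0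
    _ = C * C₁ * ((r : ℝ) / R) ^ (2 + e) := by ring

end TT

end SC

end
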