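import Mathlib
import Pool.Agent.Lib_MP_e0a489_m.G02
import Pool.Agent.Lib_MP_e0a489_m.G06
import Pool.Agent.Lib_MP_e0a489_m.G07
import Pool.Agent.Lib_MP_e0a489_m.G08
import Pool.Agent.Lib_MP_e0a489_m.G09
import Pool.Agent.Lib_MP_e0a489_m.G11
import Pool.Agent.Lib_MP_e0a489_m.G12
import Pool.Agent.Lib_MP_e0a489_m.G13
import Pool.Agent.Lib_MP_e0a489_m.G15
import Pool.Agent.Lib_MP_e0a489_m.G17
import Pool.Agent.Lib_MP_e0a489_m.G18
import Pool.Agent.Lib_MP_e0a489_m.G20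
import Pool.Agent.Lib_MP_e0a489_m.G21
import Pool.Agent.Lib_MP_e0a489_m.G22
import Pool.Agent.Lib_MP_e0a489_m.G23
import Pool.Agent.Lib_MP_e0a489_m.G24

/-!
# MP_e0a489_pr: merged library part G28

Concatenation of library files (each in its own section), only to save build time.
-/

/-! ### from `Lib_MP_e0a489.IS11` -/

section

/-!
# MP_e0a489, inner separation 11: inclusions, dependence, independence
-/

set_option autoImplicit false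

namespace SC

open Classical

/-- `A` does not depend on `G`, `B` depends only on `G`: conditional probability of `A ∧ B` (`av_mul_left`, `cpr_eq_pr`;
`ind (A ∧ B) = ind A * ind B`). -/
theorem cpr_and_indep {G : Finset Pt} {A B : Cfg → Prop} {F : Set Pt} (hA : Dep A F)
    (hF : ∀ v ∈ G, v ∉ F) (hB : Dep B (G : Set Pt)) (ω : Cfg) :
    cpr G (fun ω => A ω ∧ B ω) ω = ind A ω * pr B := by
  have h1 : ind (fun ω => A ω ∧ B ω) = fun ω => ind A ω * ind B ω := by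
    funext ω
    unfold ind
    by_cases h2 : A ω <;> by_cases h3 : B ω <;> simp [h2, h3]
  have h4 := av_mul_left (G := G) (g := ind B) (Dep.ind hA) hF ω
  have h5 : av G (ind B) ω = pr B := cpr_eq_pr hB ω
  unfold cpr
  rw [h1, h4, h5]

/-- splitting according to `B` -/
theorem cpr_split (G : Finset Pt) (A B : Cfg → Prop) (ω : Cfg) :
    cpr G A ω ≤ cpr G (fun ω => A ω ∧ B ω) ω + cpr G (fun ω => A ω ∧ ¬ B ω) ω := by
  refine le_trans (cpr_mono (B := fun ω => (A ω ∧ B ω) ∨ (A ω ∧ ¬ B ω)) fun ω' _ hA => ?_)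
    (cpr_or_le G (fun ω => A ω ∧ B ω) (fun ω => A ω ∧ ¬ B ω) ω)
  by_cases hB : B ω'
  · exact Or.inl ⟨hA, hB⟩
  · exact Or.inr ⟨hA, hB⟩

namespace Lat

variable {L : Lat}

/-- THE LAST PART OF AN ARM.  An arm in `ann r R ∪ Jc c R ∪ B` (`B ⊆ bx r`) from sites of norm `≤ r'` to `Je d R`, `r ≤ r' < R`,
contains an arm in `ann r' R ∪ Jc c R` from `nb (bx r')` to `Je d R`.  (`Cn.last` with `S = bx r'`: all sites after the last
visit have norm `> r'`.) -/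
theorem arm_last {c : Bool} {r r' R d : ℤ} {B X : Set Pt} {ω : Cfg} (hr : 0 ≤ r) (hrr : r ≤ r')
    (hrR : r' < R) (hB : B ⊆ bx r) (hX : X ⊆ bx r')
    (h : L.Arm c (ann r R ∪ Jc c R ∪ B) X (Je d R) ω) :
    L.Arm c (ann r' R ∪ Jc c R) (L.nb (bx r')) (Je d R) ω := by
  obtain ⟨x, hx, y, hy, hxy⟩ := h
  have hyS : y ∉ bx r' := by
    intro hb
    have hb' : nrm y ≤ r' := hb
    have h1 := Je_nrm (by omega) hy
    omega
  obtain ⟨p, q, -, hpS, ha, hc⟩ := hxy.last (hX hx) hyS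
  refine ⟨q, ⟨p, hpS, ha⟩, y, hy, hc.mono ?_⟩
  rintro v ⟨⟨hv1, hv2⟩, hv3⟩
  have hv3' : r' < nrm v := not_le.1 hv3
  refine ⟨?_, hv2⟩
  rcases hv1 with (hv1 | hv1) | hv1
  · exact Or.inl ⟨hv3', hv1.2⟩
  · exact Or.inr hv1
  · have hv4 : nrm v ≤ r := hB hv1
    omega

private theorem is11_empty {c : Bool} {r r' R d : ℤ} {X : Set Pt} {ω : Cfg} (hr : 0 ≤ r)
    (hrr : r ≤ r') (hrR : r' < R) (hX : X ⊆ bx r')
    (h : L.Arm c (ann r R ∪ Jc c R) X (Je d R) ω) :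
    L.Arm c (ann r' R ∪ Jc c R) (L.nb (bx r')) (Je d R) ω := by
  refine arm_last (B := ∅) hr hrr hrR (Set.empty_subset _) hX ?_
  rw [Set.union_empty]
  exact h

/-- `arm_last` for the four arms (the sites of `nb (bx r)` have norm `≤ r + 1 ≤ r'`) -/
theorem Sout_mono {r r' R : ℤ} {ω : Cfg} (hr : 0 ≤ r) (hrr : r + 1 ≤ r') (hrR : r' < R)
    (h : L.Sout r R ω) : L.Sout r' R ω := by
  have hX : L.nb (bx r) ⊆ bx r' := by
    rintro v ⟨u, hu, ha⟩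
    have hu' : nrm u ≤ r := hu
    have h1 := (nrm_adj4 ha).2
    show nrm v ≤ r'
    omega
  intro c
  exact ⟨is11_empty hr (by omega) hrR hX (h c).1, is11_empty hr (by omega) hrR hX (h c).2⟩

/-- `arm_last` for the four arms; the ring sites have norm `r + 1 ≤ 2 r` (`rc_nrm`), the blocks are in `bx r` -/
theorem E1i_Sout {r w M R s₁ k₁ s₃ k₃ : ℤ} {ω : Cfg} (hw : w % 2 = 1) (hw5 : 5 ≤ w)
    (hr : r = M * w + w / 2) (hr1 : 1 ≤ r) (hR : 8 * r ≤ R)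
    (h : L.E1i r w M R s₁ k₁ s₃ k₃ ω) : L.Sout (2 * r) R ω := by
  obtain ⟨⟨c1, c3⟩, a1, a3, s₂, y₂, s₄, y₄, e₂, e₄, he, -, -, -, -, -, -, b2, b4⟩ := h
  have hib : ∀ s k : ℤ, CellI w (r + 1) k → ib w M s k ⊆ bx r := by
    intro s k hk v hv
    rw [hr]
    refine (bx_blk hw (by omega) v).2 ⟨rt s (M, k), ?_, hv⟩
    rw [nrm_rt]
    have hkM : |k| ≤ M := by
      by_contra hcon
      have h5 : M + 1 ≤ |k| := by omega
      have h6 : (M + 1) * w ≤ |k| * w := mul_le_mul_of_nonneg_right h5 (by omega)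
      have h7 : (M + 1) * w = M * w + w := by ring
      have h8 := hk.2
      omega
    have hM : 0 ≤ M := le_trans (abs_nonneg k) hkM
    unfold nrm
    rw [abs_of_nonneg hM]
    exact max_le le_rfl hkM
  have hb2 : bx r ⊆ bx (2 * r) := by
    intro v hv
    have hv' : nrm v ≤ r := hv
    show nrm v ≤ 2 * r
    omega
  have hrc : ∀ i : ℤ, ({rc (r + 1) i} : Set Pt) ⊆ bx (2 * r) := by
    rintro i v rfl
    show nrm (rc (r + 1) i) ≤ 2 * r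
    rw [rc_nrm (by omega)]
    omega
  have A : ∀ d s k : ℤ, CellI w (r + 1) k →
      L.Arm true (ann r R ∪ Jc true R ∪ ib w M s k) (ib w M s k ∩ rng (M * w - w / 2))
        (Je d R) ω →
      L.Arm true (ann (2 * r) R ∪ Jc true R) (L.nb (bx (2 * r))) (Je d R) ω := by
    intro d s k hk ha
    exact arm_last (by omega) (by omega) (by omega) (hib s k hk)
      (fun v hv => hb2 (hib s k hk hv.1)) ha
  have B : ∀ d i : ℤ, L.Arm false (ann r R ∪ Jc false R) {rc (r + 1) i} (Je d R) ω →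
      L.Arm false (ann (2 * r) R ∪ Jc false R) (L.nb (bx (2 * r))) (Je d R) ω := by
    intro d i hb
    exact is11_empty (by omega) (by omega) (by omega) (hrc i) hb
  intro c
  cases c with
  | true => exact ⟨A 0 _ _ c1 a1, A 2 _ _ c3 a3⟩
  | false =>
    rcases he with ⟨h2, h4⟩ | ⟨h2, h4⟩
    · rw [h2] at b2
      rw [h4] at b4
      exact ⟨B 1 _ b2, B 3 _ b4⟩
    · rw [h2] at b2
      rw [h4] at b4
      exact ⟨B 1 _ b4, B 3 _ b2⟩

/-- `Arm.dep`; `J_nrm` -/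
theorem Sout.dep_ring (L : Lat) {r R : ℤ} (hR : 0 ≤ R) (hrR : r ≤ R) :
    Dep (L.Sout r R) {v | r < nrm v} := by
  have key : ∀ (c : Bool) (d : ℤ),
      Dep (L.Arm c (ann r R ∪ Jc c R) (L.nb (bx r)) (Je d R)) {v | r < nrm v} := by
    intro c d
    refine (Arm.dep L c _ _ _).mono ?_
    rintro v (hv | hv)
    · exact hv.1
    · have h1 : R < nrm v := by
        rcases hv with hv | hv
        · exact (J_nrm hR hv).1
        · exact (J_nrm hR hv).1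
      show r < nrm v
      omega
  intro ω ω' hw
  refine propext ⟨fun H c => ?_, fun H c => ?_⟩
  · have h1 := key c (dc c) ω ω' hw
    have h2 := key c (dc c + 2) ω ω' hw
    rw [← h1, ← h2]
    exact H c
  · have h1 := key c (dc c) ω ω' hw
    have h2 := key c (dc c + 2) ω ω' hw
    rw [h1, h2]
    exact H c

end Lat

end SC

end

/-! ### from `Lib_MP_e0a489.RO14` -/

section

/-!
# MP_e0a489, RO 14: the arms cross their landing blocks radially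
-/

set_option autoImplicit false

namespace SC

open Classical

namespace Lat

variable {L : Lat}

private theorem nrm_step14 {u v : Pt} (h : L.Adj u v) : nrm v ≤ nrm u + 1 := by
  obtain ⟨h1, h2⟩ := h.near
  have e1 : |v.1| ≤ |u.1| + 1 := by
    have h3 := abs_sub_abs_le_abs_sub v.1 u.1
    rw [abs_sub_comm v.1] at h3
    omega
  have e2 : |v.2| ≤ |u.2| + 1 := by
    have h3 := abs_sub_abs_le_abs_sub v.2 u.2
    rw [abs_sub_comm v.2] at h3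
    omega
  unfold nrm
  refine max_le ?_ ?_
  · exact e1.trans (add_le_add_left (le_max_left _ _) _)
  · exact e2.trans (add_le_add_left (le_max_right _ _) _)

/-- bounds for the radial coordinate of a site with a small coordinate along the side -/
private theorem nrm_cases14 {w : Pt} {a N : ℤ} (ha : 0 < a) (h1 : a ≤ w.1) (h2 : -N < w.2)
    (h3 : w.2 < N) : w.1 ≤ nrm w ∧ (N ≤ nrm w → nrm w = w.1) := by
  unfold nrm
  rw [abs_of_nonneg (by omega : (0 : ℤ) ≤ w.1)]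
  have h4 : |w.2| < N := abs_lt.2 ⟨h2, h3⟩
  refine ⟨le_max_left _ _, fun h => ?_⟩
  rcases le_total |w.2| w.1 with h5 | h5
  · exact max_eq_left h5
  · rw [max_eq_right h5] at h
    omega

/-- OUTWARD.  Let `x`, `y` be the ends of the arm, `A` its domain (of colour `c`), `K = {v | Cn A x v}` (`con_cluster`).
`nrm x ≤ r + 1 ≤ R` (`x` has a neighbour in `bx r`, `Adj.near`), `nrm y = R + ℓ > R`.  `Cn.last` with `S = bx R`: `p ∈ bx R`,
`Adj p q`, `Cn (A \ bx R) q y`, and `A \ bx R ⊆ B := rt s '' rect (R + 1) (R + ℓ) p q`.  `Q = {v | Cn (A \ bx R) q v} ⊆ K` (`p` is joined to `x`?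
not needed: `q` is joined to `y`, and `y` to `x`).  `q ∈ B` has a neighbour in `bx R`, so `nrm q ≤ R + 1` and its radial coordinate
is `R + 1`; `y ∈ B` has norm `R + ℓ`, its coordinate along the side is smaller than `R` in absolute value, so its radial
coordinate is `R + ℓ` (`nrm_rt`). -/
theorem ro_arm_out {c : Bool} {r R ℓ s p q : ℤ} (hrR : r < R) (hℓ : 1 ≤ ℓ) (hp : -R < p)
    (hq : q < R) (hR : 0 < R) {ω : Cfg}
    (h : L.Arm c (ann r R ∪ rt s '' rect (R + 1) (R + ℓ) p q) (L.nb (bx r))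
      (rt s '' rect (R + 1) (R + ℓ) p q ∩ rng (R + ℓ)) ω) :
    ∃ K, L.Con K ∧ K ⊆ (ann r R ∪ rt s '' rect (R + 1) (R + ℓ) p q) ∩ L.col c ω ∧
      (∃ x ∈ K, x ∈ L.nb (bx r)) ∧ ∃ Q, Q ⊆ K ∧ L.Rad s (R + 1) (R + ℓ) p q Q := by
  obtain ⟨x, hx, y, hy, hxy⟩ := h
  obtain ⟨u, hu, hux⟩ := hx
  have hxr : nrm x ≤ r + 1 := (nrm_step14 hux).trans (add_le_add_left hu _)
  have hyB := hy.1
  have hyR : nrm y = R + ℓ := hy.2
  obtain ⟨a, b, -, haS, hab, hby⟩ := hxy.last (S := bx R)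
    (show nrm x ≤ R by omega) (show ¬ nrm y ≤ R by omega)
  have haR : nrm a ≤ R := haS
  have hbR : nrm b ≤ R + 1 := (nrm_step14 hab).trans (add_le_add_left haR _)
  set A : Set Pt := (ann r R ∪ rt s '' rect (R + 1) (R + ℓ) p q) ∩ L.col c ω with hA
  have hsub : ∀ v, v ∈ A \ bx R → v ∈ rt s '' rect (R + 1) (R + ℓ) p q := by
    intro v hv
    rcases hv.1.1 with h | h
    · exact absurd h.2 hv.2
    · exact h
  refine ⟨{v | L.Cn A x v}, con_cluster A x, fun v hv => Cn.right hv,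
    ⟨x, Cn.refl hxy.left, u, hu, hux⟩, {v | L.Cn (A \ bx R) b v}, ?_, con_cluster _ b,
    fun v hv => hsub v (Cn.right hv), ?_, ?_⟩
  · intro v hv
    exact hxy.trans ((hby.symm.trans hv).mono Set.sdiff_subset)
  · obtain ⟨w, hw, hwb⟩ := hsub b hby.left
    have hn : nrm b = nrm w := by rw [← hwb, nrm_rt]
    have h1 := nrm_cases14 (N := R) (by omega : (0 : ℤ) < R + 1) hw.1.1 (hp.trans_le hw.2.1)
      (hw.2.2.trans_lt hq)
    have h2 := hw.1.1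
    refine ⟨w.2, ?_⟩
    have e : w = (R + 1, w.2) := by
      refine Prod.ext ?_ rfl
      show w.1 = R + 1
      omega
    rw [← e, hwb]
    exact Cn.refl hby.left
  · obtain ⟨w, hw, hwy⟩ := hyB
    have hn : nrm y = nrm w := by rw [← hwy, nrm_rt]
    have h1 := nrm_cases14 (N := R) (by omega : (0 : ℤ) < R + 1) hw.1.1 (hp.trans_le hw.2.1)
      (hw.2.2.trans_lt hq)
    refine ⟨w.2, ?_⟩
    have h3 := h1.2 (by omega)
    have e : w = (R + ℓ, w.2) := by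
      refine Prod.ext ?_ rfl
      show w.1 = R + ℓ
      omega
    rw [← e, hwy]
    exact hby

/-- INWARD.  `x ∈ B := rt s '' rect (r - ℓ + 1) r p q` has norm `r - ℓ + 1`, so its radial coordinate is `r - ℓ + 1`.  `y ∈ Y` has norm
`> r`.  `Cn.exit` with `S = bx r`: `Cn (A ∩ bx r) x p`, `Adj p q`, `q ∉ bx r`; `A ∩ bx r ⊆ B` (the sites of `ann r R` and `J`
have norm `> r`), so `p ∈ B`, `nrm p ≥ r` (`Adj.near`), its coordinate along the side is smaller than `r` in absolute value and its radial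
coordinate is between `r - ℓ + 1 ≥ 1` and `r`, so it is `r`.  `Q = {v | Cn (A ∩ bx r) x v}`, `K = {v | Cn A x v}`. -/
theorem ro_arm_in {c : Bool} {r R ℓ s p q : ℤ} {J Y : Set Pt} (hℓ : 1 ≤ ℓ) (hℓr : ℓ ≤ r)
    (hp : -r < p) (hq : q < r) (hJ : ∀ v ∈ J, r < nrm v) (hY : ∀ v ∈ Y, r < nrm v) {ω : Cfg}
    (h : L.Arm c (ann r R ∪ J ∪ rt s '' rect (r - ℓ + 1) r p q)
      (rt s '' rect (r - ℓ + 1) r p q ∩ rng (r - ℓ + 1)) Y ω) :
    ∃ K, L.Con K ∧ K ⊆ (ann r R ∪ J ∪ rt s '' rect (r - ℓ + 1) r p q) ∩ L.col c ω ∧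
      (∃ y ∈ K, y ∈ Y) ∧ ∃ Q, Q ⊆ K ∧ L.Rad s (r - ℓ + 1) r p q Q := by
  obtain ⟨x, hx, y, hy, hxy⟩ := h
  have hxB := hx.1
  have hxr : nrm x = r - ℓ + 1 := hx.2
  have hyr := hY y hy
  obtain ⟨a, b, hxa, hab, -, hbS⟩ := hxy.exit (S := bx r)
    (show nrm x ≤ r by omega) (show ¬ nrm y ≤ r by omega)
  have hbr : r < nrm b := not_le.1 hbS
  have har : r ≤ nrm a := by
    have := nrm_step14 hab
    omega
  set A : Set Pt := (ann r R ∪ J ∪ rt s '' rect (r - ℓ + 1) r p q) ∩ L.col c ω with hA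
  have hsub : ∀ v, v ∈ A ∩ bx r → v ∈ rt s '' rect (r - ℓ + 1) r p q := by
    intro v hv
    have hv2 : nrm v ≤ r := hv.2
    rcases hv.1.1 with (h | h) | h
    · exact absurd h.1 (not_lt.2 hv2)
    · exact absurd (hJ v h) (not_lt.2 hv2)
    · exact h
  refine ⟨{v | L.Cn A x v}, con_cluster A x, fun v hv => Cn.right hv,
    ⟨y, hxy, hy⟩, {v | L.Cn (A ∩ bx r) x v}, ?_, con_cluster _ x,
    fun v hv => hsub v (Cn.right hv), ?_, ?_⟩
  · intro v hv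
    exact Cn.mono hv Set.inter_subset_left
  · obtain ⟨w, hw, hwx⟩ := hxB
    have hn : nrm x = nrm w := by rw [← hwx, nrm_rt]
    have h1 := nrm_cases14 (N := r) (by omega : (0 : ℤ) < r - ℓ + 1) hw.1.1 (hp.trans_le hw.2.1)
      (hw.2.2.trans_lt hq)
    have h2 := hw.1.1
    refine ⟨w.2, ?_⟩
    have e : w = (r - ℓ + 1, w.2) := by
      refine Prod.ext ?_ rfl
      show w.1 = r - ℓ + 1
      omega
    rw [← e, hwx]
    exact Cn.refl hxa.left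
  · obtain ⟨w, hw, hwa⟩ := hsub a hxa.right
    have hn : nrm a = nrm w := by rw [← hwa, nrm_rt]
    have h1 := nrm_cases14 (N := r) (by omega : (0 : ℤ) < r - ℓ + 1) hw.1.1 (hp.trans_le hw.2.1)
      (hw.2.2.trans_lt hq)
    have h3 := h1.2 (by omega)
    have h4 := hw.1.2
    refine ⟨w.2, ?_⟩
    have e : w = (r, w.2) := by
      refine Prod.ext ?_ rfl
      show w.1 = r
      omega
    rw [← e, hwa]
    exact hxa

end Lat

end SC

end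

/-! ### from `Lib_MP_e0a489.TTE3` -/

section

/-!
# MP_e0a489, module TT, part E 3: the box event at both times
-/

set_option autoImplicit false

namespace SC

variable [IfL]

namespace TTE

open Classical

/-- `sq2` with `R = N / 4`, `glue2` with `ρ = m`, `ρ' = 8 m`, `sep2` for the radii `8 m`, `N / 4`. -/
theorem sq_outer (κ : ℕ → ℝ) : ∃ (C : ℝ) (R₀ : ℤ), 0 < C ∧ 16 ≤ R₀ ∧ ∀ L : Lat, RSW L κ →
    ∀ k : Pt → ℝ, (∀ v, 0 ≤ k v ∧ k v ≤ 1) → ∀ (x : Pt) (r m N : ℤ), R₀ ≤ r → r ≤ m →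
      64 * m ≤ N → 2 * nrm x ≤ N →
      pr2 (kz k r m) (L.S4 r m) * pr2 k (L.TwoA true (8 * m) (N / 4)) ≤
        C * pr2 k (fun ω => L.SQ true r (-N - x.1) (N - x.1) (-N - x.2) (N - x.2) ω ∧
          L.SQ false r (-N - x.1) (N - x.1) (-N - x.2) (N - x.2) ω) := by
  obtain ⟨C1, r1, hC1, hr1, h1⟩ := sq2 κ
  obtain ⟨C2, r2, hC2, hr2, h2⟩ := glue2 κ
  obtain ⟨C3, r3, hC3, hr3, h3⟩ := sep2 κ
  refine ⟨C3 * (C2 * C1), max r1 (max r2 r3), by positivity, hr1.trans (le_max_left _ _), ?_⟩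
  intro L hL k hk x r m N hr hrm hm hx
  have hr1' : r1 ≤ r := (le_max_left _ _).trans hr
  have hr2' : r2 ≤ r := ((le_max_left _ _).trans (le_max_right _ _)).trans hr
  have hr3' : r3 ≤ r := ((le_max_right _ _).trans (le_max_right _ _)).trans hr
  have hm16 : 16 ≤ m := by linarith
  have hx1 : |x.1| ≤ nrm x := le_max_left _ _
  have hx2 : |x.2| ≤ nrm x := le_max_right _ _
  rw [abs_le] at hx1 hx2
  have hkz : ∀ v, 0 ≤ kz k r (N / 4) v ∧ kz k r (N / 4) v ≤ k v := by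
    intro v
    unfold kz
    split_ifs
    · exact ⟨le_refl _, (hk v).1⟩
    · exact ⟨(hk v).1, le_refl _⟩
  have hkz' : ∀ (a b : ℤ) (v : Pt), 0 ≤ kz k a b v ∧ kz k a b v ≤ 1 := by
    intro a b v
    unfold kz
    split_ifs
    · exact ⟨le_refl _, zero_le_one⟩
    · exact hk v
  have e1 := h1 L hL k hk r (N / 4) (-N - x.1) (N - x.1) (-N - x.2) (N - x.2) hr1'
    (by omega) (by omega) (by omega) (by omega) (by omega) (by omega) (by omega) (by omega)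
    (by omega)
  have e2 := h2 L hL k hk r m (8 * m) (N / 4) hr2' hrm (le_refl _) (by omega) (by omega)
  have e3 := h3 L hL k hk true (8 * m) (N / 4) (by omega) (by omega)
  have e4 : pr2 (kz k r (N / 4)) (fun ω => L.SQ true r (-N - x.1) (N - x.1) (-N - x.2) (N - x.2) ω ∧
      L.SQ false r (-N - x.1) (N - x.1) (-N - x.2) (N - x.2) ω) ≤
      pr2 k (fun ω => L.SQ true r (-N - x.1) (N - x.1) (-N - x.2) (N - x.2) ω ∧
        L.SQ false r (-N - x.1) (N - x.1) (-N - x.2) (N - x.2) ω) :=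
    pr2_mono_k (Loc.and (Lat.SQ.loc _ _ _ _ _ _ _) (Lat.SQ.loc _ _ _ _ _ _ _))
      (fun v => (hkz v).1) (fun v => (hkz v).2)
  have p1 : 0 ≤ pr2 (kz k r m) (L.S4 r m) := pr2_nonneg _ (hkz' r m)
  calc pr2 (kz k r m) (L.S4 r m) * pr2 k (L.TwoA true (8 * m) (N / 4))
      ≤ pr2 (kz k r m) (L.S4 r m) * (C3 * pr2 (kz k (8 * m) (N / 4)) (L.S4 (8 * m) (N / 4))) :=
        mul_le_mul_of_nonneg_left e3 p1
    _ = C3 * (pr2 (kz k r m) (L.S4 r m) * pr2 (kz k (8 * m) (N / 4)) (L.S4 (8 * m) (N / 4))) := by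
        ring
    _ ≤ C3 * (C2 * pr2 (kz k r (N / 4)) (L.S4 r (N / 4))) :=
        mul_le_mul_of_nonneg_left e2 hC3.le
    _ ≤ C3 * (C2 * (C1 * pr2 k (fun ω =>
          L.SQ true r (-N - x.1) (N - x.1) (-N - x.2) (N - x.2) ω ∧
          L.SQ false r (-N - x.1) (N - x.1) (-N - x.2) (N - x.2) ω))) := by
        refine mul_le_mul_of_nonneg_left (mul_le_mul_of_nonneg_left (e1.trans ?_) hC2.le) hC3.le
        exact mul_le_mul_of_nonneg_left e4 hC1.le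
    _ = _ := by ring

/-- `shift_small`, `cmp2` with the centre `x'` -/
theorem be_le (κ : ℕ → ℝ) : ∃ (C : ℝ) (R₀ : ℤ), 0 < C ∧ 16 ≤ R₀ ∧ ∀ L : Lat, Fam L κ →
    ∀ (x : Pt) (s : ℝ) (m N : ℤ), 0 ≤ s → R₀ ≤ m → 64 * m ≤ N →
      be L s m N ≤ C * pr2 (kt s) ((L.shift x).TwoA true (8 * m) (N / 4)) := by
  obtain ⟨C, R₀, hC, hR, h⟩ := cmp2 κ
  refine ⟨C, R₀, hC, hR, ?_⟩
  intro L hL x s m N hs hm hN
  obtain ⟨x', hx', e⟩ := shift_small hL x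
  have e1 := h L hL.rsw (kt s) (fun v => kt_mem hs v) true true x' m N (8 * m) (N / 4) hm
    (by omega) (by omega) (by omega) (by omega) (by omega) (by omega)
  have e2 : be L s m N = pr2 (kt s) (L.TwoA true m N) := by
    unfold be
    rw [if_pos (by omega)]
  have e3 : pr2 (kt s) (L.TwoAt true x' (8 * m) (N / 4)) =
      pr2 (kt s) ((L.shift x').TwoA true (8 * m) (N / 4)) :=
    pr2_via (Lat.TwoA.loc (L.shift x') true (8 * m) (N / 4)) (Equiv.addRight x') (kt s)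
  rw [e2, e, ← e3]
  exact e1

end TTE

end SC

end

/-! ### from `Lib_MP_e0a489.TTE9` -/

section

/-!
# MP_e0a489, module TT, part E 9: lower bound of the probability that a site is pivotal at both times
-/

set_option autoImplicit false

namespace SC

variable [IfL]

open Classical

/-- LOWER BOUND.  `L.shift v = L.shift x₀` by periodicity (`shift_shift`, `shift_even`), so the core configuration exists
(`CoreOK`, radius `R₀ / 2`); `TTE.piv_shift`, `TTE.piv_zero`, `TTE.Fx_pr2`, `TTE.sq_outer`, `TTE.be_le`. -/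
theorem piv_low {L : Lat} {κ : ℕ → ℝ} (h : Fam L κ) {x₀ : Pt}
    (hc : ∀ m : ℤ, 8 ≤ m → CoreOK (L.shift x₀) m) :
    ∃ R₁ : ℤ, 16 ≤ R₁ ∧ ∀ R₀ : ℤ, R₁ ≤ R₀ → ∃ c₂ : ℝ, 0 < c₂ ∧
      ∀ (m N : ℤ) (s : ℝ) (z : Pt), R₀ ≤ m → 64 * m ≤ N → 0 ≤ s →
        2 * nrm ((x₀.1 + 2 * z.1, x₀.2 + 2 * z.2) : Pt) ≤ N →
        c₂ * (pr2 (kz (kt s) R₀ m) ((L.shift (x₀.1 + 2 * z.1, x₀.2 + 2 * z.2)).S4 R₀ m) *
            be L s m N) ≤
          pr2 (kt s) (Piv (x₀.1 + 2 * z.1, x₀.2 + 2 * z.2) (L.HX true (-N) N (-N) N)) := by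
  obtain ⟨C1, r1, hC1, hr1, h1⟩ := TTE.sq_outer κ
  obtain ⟨C2, r2, hC2, hr2, h2⟩ := TTE.be_le κ
  refine ⟨max r1 r2, hr1.trans (le_max_left _ _), ?_⟩
  intro R₀ hR₀
  have hr1' : r1 ≤ R₀ := (le_max_left _ _).trans hR₀
  have hr2' : r2 ≤ R₀ := (le_max_right _ _).trans hR₀
  obtain ⟨c3, hc3, h3⟩ := TTE.Fx_pr2 (R₀ / 2)
  obtain ⟨h0, ξ, hξ⟩ := TTE.coreOK_iff.1 (hc (R₀ / 2) (by omega))
  refine ⟨c3 / (C1 * C2), by positivity, ?_⟩
  intro m N s z hm hN hs hz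
  have hsh : L.shift (x₀.1 + 2 * z.1, x₀.2 + 2 * z.2) = L.shift x₀ := by
    have e := shift_shift L (2 * z.1, 2 * z.2) x₀
    rw [shift_even h z] at e
    rw [e]
    congr 1
    apply Prod.ext
    · show x₀.1 + 2 * z.1 = 2 * z.1 + x₀.1
      ring
    · show x₀.2 + 2 * z.2 = 2 * z.2 + x₀.2
      ring
  generalize hv : ((x₀.1 + 2 * z.1, x₀.2 + 2 * z.2) : Pt) = v at hz hsh ⊢
  have hk : ∀ u, 0 ≤ kt s u ∧ kt s u ≤ 1 := fun u => kt_mem hs u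
  have hL : RSW (L.shift v) κ := h.rsw.shift v
  have hx1 : |v.1| ≤ nrm v := le_max_left _ _
  have hx2 : |v.2| ≤ nrm v := le_max_right _ _
  rw [abs_le] at hx1 hx2
  have e1 := h1 (L.shift v) hL (kt s) hk v R₀ m N hr1' hm hN hz
  have e2 := h2 L h v s m N hs (by linarith) hN
  have e3 := h3 ξ (kt s) hk
  have h0' : (L.shift v).typ 0 = none := by
    rw [hsh]
    exact h0
  have hξ' : TTE.CoreAt (L.shift v) (R₀ / 2) ξ := by
    rw [hsh]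
    exact hξ
  have e4 := TTE.piv_zero (L := L.shift v) (r := R₀) (a := -N - v.1) (b := N - v.1)
    (p := -N - v.2) (q := N - v.2) (by linarith) (by linarith) (by linarith) (by linarith)
    (by linarith) h0' hξ' hk
  rw [← TTE.piv_shift L v N s] at e4
  have p1 : 0 ≤ pr2 (kz (kt s) R₀ m) ((L.shift v).S4 R₀ m) := by
    refine pr2_nonneg _ (fun u => ?_)
    unfold kz
    split_ifs
    · exact ⟨le_refl _, zero_le_one⟩
    · exact hk u
  have p2 : 0 ≤ pr2 (kt s) (fun ω =>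
      (L.shift v).SQ true R₀ (-N - v.1) (N - v.1) (-N - v.2) (N - v.2) ω ∧
        (L.shift v).SQ false R₀ (-N - v.1) (N - v.1) (-N - v.2) (N - v.2) ω) :=
    pr2_nonneg _ hk
  have e5 : pr2 (kz (kt s) R₀ m) ((L.shift v).S4 R₀ m) * be L s m N ≤
      C1 * C2 * pr2 (kt s) (fun ω =>
        (L.shift v).SQ true R₀ (-N - v.1) (N - v.1) (-N - v.2) (N - v.2) ω ∧
          (L.shift v).SQ false R₀ (-N - v.1) (N - v.1) (-N - v.2) (N - v.2) ω) := by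
    calc _ ≤ pr2 (kz (kt s) R₀ m) ((L.shift v).S4 R₀ m) *
          (C2 * pr2 (kt s) ((L.shift v).TwoA true (8 * m) (N / 4))) :=
          mul_le_mul_of_nonneg_left e2 p1
      _ = C2 * (pr2 (kz (kt s) R₀ m) ((L.shift v).S4 R₀ m) *
            pr2 (kt s) ((L.shift v).TwoA true (8 * m) (N / 4))) := by ring
      _ ≤ C2 * (C1 * pr2 (kt s) (fun ω =>
            (L.shift v).SQ true R₀ (-N - v.1) (N - v.1) (-N - v.2) (N - v.2) ω ∧
            (L.shift v).SQ false R₀ (-N - v.1) (N - v.1) (-N - v.2) (N - v.2) ω)) :=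
          mul_le_mul_of_nonneg_left e1 hC2.le
      _ = _ := by ring
  calc c3 / (C1 * C2) * (pr2 (kz (kt s) R₀ m) ((L.shift v).S4 R₀ m) * be L s m N)
      ≤ c3 / (C1 * C2) * (C1 * C2 * pr2 (kt s) (fun ω =>
          (L.shift v).SQ true R₀ (-N - v.1) (N - v.1) (-N - v.2) (N - v.2) ω ∧
          (L.shift v).SQ false R₀ (-N - v.1) (N - v.1) (-N - v.2) (N - v.2) ω)) :=
        mul_le_mul_of_nonneg_left e5 (by positivity)
    _ = c3 * pr2 (kt s) (fun ω =>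
          (L.shift v).SQ true R₀ (-N - v.1) (N - v.1) (-N - v.2) (N - v.2) ω ∧
          (L.shift v).SQ false R₀ (-N - v.1) (N - v.1) (-N - v.2) (N - v.2) ω) := by
        field_simp
    _ ≤ pr2 (kt s) (TTE.Fx (R₀ / 2) ξ) * pr2 (kt s) (fun ω =>
          (L.shift v).SQ true R₀ (-N - v.1) (N - v.1) (-N - v.2) (N - v.2) ω ∧
          (L.shift v).SQ false R₀ (-N - v.1) (N - v.1) (-N - v.2) (N - v.2) ω) :=
        mul_le_mul_of_nonneg_right e3 p2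
    _ ≤ _ := e4

/-- ENERGY of the crossing event for a sequence of times with `2 τ i ≤ τ (i + 1)`. -/
theorem energy_hx (L : Lat) (N : ℤ) (V : Finset Pt) {τ : ℕ → ℝ}
    (h0 : 0 ≤ τ 0) (h2 : ∀ i, 2 * τ i ≤ τ (i + 1)) (n : ℕ) :
    ∑ i ∈ Finset.range n, τ i * Real.exp (-(2 * τ i)) *
      ∑ v ∈ V, pr2 (kt (2 * τ i)) (Piv v (L.HX true (-N) N (-N) N)) ≤ 4 :=
  TTE.energy_hx L N V h0 h2 n

end SC

end

/-! ### from `Lib_MP_e0a489.TTQ1` -/

section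

/-!
# MP_e0a489, module TTQ 1: the local events in the corner are local events in a half plane
-/

set_option autoImplicit false

namespace SC

open Classical XP

/-- the half plane above the line `0 × ℤ`... of the points `z` with the image `rt k z`: near the side number `k` of the quarter plane `H` it coincides with `H` -/
def upH (k : ℤ) (H : Set Pt) : Set Pt := {z | 0 ≤ z.2 ∧ (1 ≤ z.2 ∨ rt k z ∈ H)}

/-- by definition -/
theorem halfLike_upH (k : ℤ) (H : Set Pt) : HalfLike (upH k H) := by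
  refine ⟨fun v hv => ?_, fun v hv => hv.1⟩
  have hv' : 1 ≤ v.2 := hv
  exact ⟨by omega, Or.inl hv'⟩

private theorem ttq1_twoD (L : Lat) {Q Q' : Set Pt} (b : Bool) {v : Pt} {D : ℤ}
    (h : ∀ z ∈ bxAt v D, (z ∈ Q ↔ z ∈ Q')) (ω : Cfg) : L.TwoD Q b v 0 D ω ↔ L.TwoD Q' b v 0 D ω := by
  have e : annAt v 0 D ∩ Q = annAt v 0 D ∩ Q' := by
    ext z
    constructor
    · rintro ⟨h1, h2⟩
      exact ⟨h1, (h z h1.2).1 h2⟩
    · rintro ⟨h1, h2⟩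
      exact ⟨h1, (h z h1.2).2 h2⟩
  unfold Lat.TwoD
  rw [e]

/-- DEPENDENCE ON THE DOMAIN only in the ball -/
theorem locE_congr (L : Lat) {Q Q' : Set Pt} (b : Bool) {v : Pt} {D : ℤ}
    (h : ∀ z ∈ bxAt v D, (z ∈ Q ↔ z ∈ Q')) (ω : Cfg) : L.LocE Q b v D ω ↔ L.LocE Q' b v D ω := by
  unfold Lat.LocE
  rw [ttq1_twoD L b h ω]

private theorem ttq1_neg (k : ℤ) (v : Pt) : rt k (rt (-k) v) = v := by
  rw [← rt_add, add_neg_cancel, rt_zero]

/-- the two descriptions of the same permutation -/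
private theorem ttq1_perm (σ k : ℤ) (x z : Pt) :
    (rt (σ + k) * Equiv.addRight (rt (-k) x) : Equiv.Perm Pt) z =
      (rt σ * Equiv.addRight x : Equiv.Perm Pt) (rt k z) := by
  rw [rtz_apply, rtz_apply, rt_add, rt_lin, ttq1_neg]

private theorem ttq1_img (σ k : ℤ) (x : Pt) (A : Set Pt) :
    (rt (σ + k) * Equiv.addRight (rt (-k) x) : Equiv.Perm Pt) '' A =
      (rt σ * Equiv.addRight x : Equiv.Perm Pt) '' (rt k '' A) := by
  rw [Set.image_image]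
  exact Set.image_congr fun z _ => ttq1_perm σ k x z

private theorem ttq1_rtimg (k : ℤ) (z : Pt) (P : ℤ → Prop) :
    rt k '' {u | P (nrm (u - z))} = {u | P (nrm (u - rt k z))} := by
  ext u
  constructor
  · rintro ⟨w, hw, rfl⟩
    show P (nrm (rt k w - rt k z))
    rw [← rt_lin_sub, nrm_rt]
    exact hw
  · intro hu
    refine ⟨(rt k).symm u, ?_, Equiv.apply_symm_apply _ _⟩
    show P (nrm ((rt k).symm u - z))
    rw [← nrm_rt k, rt_lin_sub, Equiv.apply_symm_apply]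
    exact hu

/-- ROTATION.  Let `e = rt σ * Equiv.addRight x` and `e' = rt (σ + k) * Equiv.addRight (rt (-k) x)`; `e' z = rt (σ + k) (z + rt (-k) x) = rt σ (rt k z + x) = e (rt k z)`
(`rt_add`, `rt_lin`).  By `Tr.two`, `Tr.nb` (`tr_rotshift`) both events, for `via e ω` and `via e' ω`, are the same event of `L`: the images under `e` of
`annAt (rt k z) 0 D ∩ rt k '' Q`, `bxAt (rt k z) 0`, `rngAt (rt k z) D` are the images under `e'` of `annAt z 0 D ∩ Q` etc. (`nrm (rt k u - rt k z) = nrm (u - z)`).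
`pr2_via` on both sides. -/
theorem pr2_locE_rot (L : Lat) (σ k : ℤ) (x z : Pt) (Q : Set Pt) (b : Bool) (D : ℤ) (t : ℝ) :
    pr2 (kt t) (((L.rots σ).shift x).LocE (rt k '' Q) b (rt k z) D) =
      pr2 (kt t) (((L.rots (σ + k)).shift (rt (-k) x)).LocE Q b z D) := by
  set e : Equiv.Perm Pt := rt σ * Equiv.addRight x with he
  set e' : Equiv.Perm Pt := rt (σ + k) * Equiv.addRight (rt (-k) x) with he'
  have hT := tr_rotshift L σ x
  have hT' := tr_rotshift L (σ + k) (rt (-k) x)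
  have hloc : ∀ (M : Lat) (Q' : Set Pt) (y : Pt), Loc (M.LocE Q' b y D) := by
    intro M Q' y
    refine loc_of_dep ?_ (Lat.locE_dep M Q' b y D)
    refine Set.Finite.subset (annAt_finite y (-1) D) ?_
    rintro u ⟨hu, _⟩
    have h0 : 0 ≤ nrm (u - y) := nrm_nonneg' _
    exact ⟨by omega, hu⟩
  have h1 := pr2_via (hloc ((L.rots σ).shift x) (rt k '' Q) (rt k z)) e (kt t)
  have h2 := pr2_via (hloc ((L.rots (σ + k)).shift (rt (-k) x)) Q z) e' (kt t)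
  have k1 : (fun v => kt t (e v)) = kt t := rfl
  have k2 : (fun v => kt t (e' v)) = kt t := rfl
  rw [k1] at h1
  rw [k2] at h2
  rw [← h1, ← h2]
  congr 1
  funext ω
  have a1 : ∀ A : Set Pt, e' '' A = e '' (rt k '' A) := fun A => ttq1_img σ k x A
  have i1 : rt k '' (annAt z 0 D ∩ Q) = annAt (rt k z) 0 D ∩ rt k '' Q := by
    rw [Set.image_inter (rt k).injective]
    congr 1
    exact ttq1_rtimg k z (fun m => 0 < m ∧ m ≤ D)
  have i2 : rt k '' bxAt z 0 = bxAt (rt k z) 0 := ttq1_rtimg k z (fun m => m ≤ 0)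
  have i3 : rt k '' rngAt z D = rngAt (rt k z) D := ttq1_rtimg k z (fun m => m = D)
  have key : ((L.rots σ).shift x).TwoD (rt k '' Q) b (rt k z) 0 D (via e ω) ↔
      ((L.rots (σ + k)).shift (rt (-k) x)).TwoD Q b z 0 D (via e' ω) := by
    unfold Lat.TwoD
    rw [Tr.two hT, Tr.two hT', Tr.nb hT, Tr.nb hT', a1, a1, a1, i1, i2, i3]
  unfold Lat.LocE
  exact propext (imp_congr_right fun _ => key)

/-- CORNER.  Let `v ∈ H`, `8 D ≤ nrm v`, `nrm v = max v.1 v.2` (both are `≥ 0`).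
If `v.2 ≤ v.1`: for `z ∈ bxAt v D`, `z.1 ≥ v.1 - D ≥ 1`, so `z ∈ H ↔ z ∈ upH 0 H` (`rt_zero`; if `z.2 ≥ 1` both are true, if `z.2 < 0` both are false); `locE_congr`;
take `σ' = σ`, `x' = x`, `v' = v`.
If `v.1 < v.2`: `v = rt 3 v'` with `v' = (-v.2, v.1)` (`rt_three`), and for `z ∈ bxAt v D`: `z.2 ≥ 1` and `z = rt 3 z'` with `z' = (-z.2, z.1)`, so
`z ∈ H ↔ z' ∈ upH 3 H`, i.e. `z ∈ rt 3 '' upH 3 H`; `locE_congr` and `pr2_locE_rot` with `k = 3`.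
(If `nrm v = 0` then `D ≤ 0` and both events are always true; for `D ≥ 1` we have `nrm v ≥ 8`.) -/
theorem locE_corner (L : Lat) (σ : ℤ) (x : Pt) {H : Set Pt} (hH : QuartLike H) (b : Bool)
    {v : Pt} {D : ℤ} (hv : v ∈ H) (hD : 1 ≤ D) (hD8 : 8 * D ≤ nrm v) (t : ℝ) :
    ∃ (σ' : ℤ) (x' : Pt) (H' : Set Pt) (v' : Pt), HalfLike H' ∧ v'.2 = min v.1 v.2 ∧
      pr2 (kt t) (((L.rots σ).shift x).LocE H b v D) =
        pr2 (kt t) (((L.rots σ').shift x').LocE H' b v' D) := by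
  obtain ⟨hv1, hv2⟩ := hH.2 hv
  have hn : nrm v = max v.1 v.2 := by
    unfold nrm
    rw [abs_of_nonneg hv1, abs_of_nonneg hv2]
  have hz : ∀ z ∈ bxAt v D, v.1 - D ≤ z.1 ∧ v.2 - D ≤ z.2 := by
    intro z hz
    have h1 : nrm (z - v) ≤ D := hz
    obtain ⟨h2, h3⟩ := abs_nrm (z - v)
    have h4 := abs_le.1 (h2.trans h1)
    have h5 := abs_le.1 (h3.trans h1)
    have e1 : (z - v).1 = z.1 - v.1 := rfl
    have e2 : (z - v).2 = z.2 - v.2 := rfl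
    rw [e1] at h4
    rw [e2] at h5
    exact ⟨by omega, by omega⟩
  rcases le_or_gt v.2 v.1 with hle | hlt
  · refine ⟨σ, x, upH 0 H, v, halfLike_upH 0 H, (min_eq_right hle).symm, ?_⟩
    rw [hn, max_eq_left hle] at hD8
    congr 1
    funext ω
    refine propext (locE_congr _ b (fun z hzb => ?_) ω)
    have h1 := (hz z hzb).1
    have hz1 : 1 ≤ z.1 := by omega
    constructor
    · intro hzH
      refine ⟨(hH.2 hzH).2, Or.inr ?_⟩
      rw [rt_zero]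
      exact hzH
    · rintro ⟨_, h3 | h3⟩
      · exact hH.1 ⟨hz1, h3⟩
      · rwa [rt_zero] at h3
  · rw [hn, max_eq_right hlt.le] at hD8
    refine ⟨σ + 3, rt (-3) x, upH 3 H, (-v.2, v.1), halfLike_upH 3 H, (min_eq_left hlt.le).symm, ?_⟩
    rw [← pr2_locE_rot L σ 3 x (-v.2, v.1) (upH 3 H) b D t]
    have e3 : rt 3 ((-v.2, v.1) : Pt) = v := by
      rw [rt_three]
      simp
    rw [e3]
    congr 1
    funext ω
    refine propext (locE_congr _ b (fun z hzb => ?_) ω)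
    have h1 := (hz z hzb).2
    have hz2 : 1 ≤ z.2 := by omega
    have e4 : rt 3 ((-z.2, z.1) : Pt) = z := by
      rw [rt_three]
      simp
    constructor
    · intro hzH
      refine ⟨(-z.2, z.1), ⟨(hH.2 hzH).1, Or.inr ?_⟩, e4⟩
      rw [e4]
      exact hzH
    · rintro ⟨w, ⟨hw1, hw2⟩, hwz⟩
      rw [rt_three] at hwz
      rcases hw2 with hw2 | hw2
      · refine hH.1 ⟨?_, hz2⟩
        rw [← hwz]
        exact hw2
      · rw [rt_three, hwz] at hw2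
        exact hw2

end SC

end

/-! ### from `Lib_MP_e0a489.FI17` -/

section

/-!
# MP_e0a489, module FI 17: bounds for one and two blocks
-/

set_option autoImplicit false

namespace SC

open Classical

namespace FI

/-- Two blocks: `JJ_sum`, `JJ_pr2`, `Ev_le` for the radii `(w, D / 16)` twice and `(4 D, n)`; if `4 D > n` then `min (4 D) n = n`, `gg = 1`
(`gg_self`) and `pr2 ≤ 1`. -/
theorem pair_le {L : Lat} {C γ M : ℝ} {R₀ : ℤ} (hG : AG (al L) C γ R₀) (hM : 1 ≤ M) :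
    ∃ C' : ℝ, 0 < C' ∧ ∀ (t : ℝ) (w : ℤ), R₀ ≤ w → TB L M w t → ∀ (N N' n D : ℤ) (z z' : Pt)
      (E : Set Pt), Cnd N N' w n z z' D → GoodE L N E →
      ∀ F : Finset Pt, (∀ v, v ∈ F ↔ v ∈ dom N N' E) →
      ∑ S ∈ F.powerset.filter (fun S => ¬ Disjoint S (fb F w z) ∧ ¬ Disjoint S (fb F w z')),
        (∏ v ∈ S, kt t v) * fc (ind (L.Crs N N' E)) S ^ 2 ≤
      C' * (gg (al L) γ N N' w (D / 16) (sc w z) * gg (al L) γ N N' w (D / 16) (sc w z') *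
        gg (al L) γ N N' (min (4 * D) n) n (sc w z)) := by
  obtain ⟨C₁, hC₁, hEv⟩ := Ev_le hG hM
  refine ⟨16 * C₁ ^ 3, by positivity, ?_⟩
  intro t w hw hT N N' n D z z' E hc hE F hF
  have hκ : Kap (kt t) := kt_kap hT.t0
  have w1 := hc.w1
  have wn := hc.wn
  have nN := hc.nN
  have nN' := hc.nN'
  have wD := hc.wD
  have Dn := hc.Dn
  refine (JJ_sum hc hE hF hκ).trans ?_
  rw [JJ_pr2 hc]
  have e1 := hEv t w hw hT N N' E (sc w z) w (D / 16) hE (by omega) le_rfl (by omega) (by omega)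
    (by omega)
  have e2 := hEv t w hw hT N N' E (sc w z') w (D / 16) hE (by omega) le_rfl (by omega) (by omega)
    (by omega)
  have e3 : pr2 (kt t) (L.Ev N N' E (sc w z) (4 * D) n) ≤
      C₁ * gg (al L) γ N N' (min (4 * D) n) n (sc w z) := by
    by_cases h4 : 4 * D ≤ n
    · rw [min_eq_left h4]
      exact hEv t w hw hT N N' E (sc w z) (4 * D) n hE (by omega) (by omega) h4 nN nN'
    · rw [min_eq_right (by omega), gg_self (fun m => hG.one m m le_rfl) N N' (by omega), mul_one]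
      have z1 : |(sc w z).1| ≤ N + 4 * D := hc.z1.trans (by omega)
      have z2 : |(sc w z).2| ≤ N' + 4 * D := hc.z2.trans (by omega)
      exact (pr2_le_one (Ev_loc L E (by omega) z1 z2) hκ).trans hC₁
  have p1 := pr2_nonneg (L.Ev N N' E (sc w z) w (D / 16)) hκ
  have p2 := pr2_nonneg (L.Ev N N' E (sc w z') w (D / 16)) hκ
  have p3 := pr2_nonneg (L.Ev N N' E (sc w z) (4 * D) n) hκ
  have m1 := mul_le_mul e1 e2 p2 (p1.trans e1)
  have m2 := mul_le_mul m1 e3 p3 (mul_nonneg (p1.trans e1) (p2.trans e2))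
  refine (mul_le_mul_of_nonneg_left m2 (by norm_num : (0 : ℝ) ≤ 16)).trans (le_of_eq ?_)
  ring

/-- One block: `Ev_sum`, `Ev_le`. -/
theorem single_le {L : Lat} {C γ M : ℝ} {R₀ : ℤ} (hG : AG (al L) C γ R₀) (hM : 1 ≤ M) :
    ∃ C' : ℝ, 0 < C' ∧ ∀ (t : ℝ) (w : ℤ), R₀ ≤ w → TB L M w t → ∀ (N N' n : ℤ) (z : Pt)
      (E : Set Pt), w ≤ n → n ≤ N → n ≤ N' → |w * z.1| ≤ N + w → |w * z.2| ≤ N' + w →
      GoodE L N E → ∀ F : Finset Pt, (∀ v, v ∈ F ↔ v ∈ dom N N' E) →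
      ∑ S ∈ F.powerset.filter (fun S => ¬ Disjoint S (fb F w z)),
        (∏ v ∈ S, kt t v) * fc (ind (L.Crs N N' E)) S ^ 2 ≤
      C' * gg (al L) γ N N' w n (sc w z) := by
  obtain ⟨C₁, hC₁, hEv⟩ := Ev_le hG hM
  refine ⟨4 * C₁, by positivity, ?_⟩
  intro t w hw hT N N' n z E hwn hnN hnN' h1 h2 hE F hF
  have hκ : Kap (kt t) := kt_kap hT.t0
  have h16 := hG.R16
  refine (Ev_sum (by omega) (by omega) hnN hnN' h1 h2 hE hF hκ).trans ?_
  have e1 := hEv t w hw hT N N' E (sc w z) w n hE (by omega) le_rfl hwn hnN hnN'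
  refine (mul_le_mul_of_nonneg_left e1 (by norm_num : (0 : ℝ) ≤ 4)).trans (le_of_eq ?_)
  ring

end FI

end SC

end

/-! ### from `Lib_MP_e0a489.FI21` -/

section

/-!
# MP_e0a489, module FI 21: the spectral estimate from the abstract properties
-/

set_option autoImplicit false

namespace SC

open Classical

namespace FI

private theorem nrm_le {N N' : ℤ} {E : Set Pt} {u v : Pt} (h2 : N' ≤ 2 * N)
    (hu : u ∈ dom N N' E) (hv : v ∈ dom N N' E) : nrm (u - v) ≤ 4 * N := by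
  obtain ⟨⟨⟨a1, a2⟩, a3, a4⟩, -⟩ := hu
  obtain ⟨⟨⟨b1, b2⟩, b3, b4⟩, -⟩ := hv
  unfold nrm
  rw [Prod.fst_sub, Prod.snd_sub]
  refine max_le (abs_le.2 ⟨by omega, by omega⟩) (abs_le.2 ⟨by omega, by omega⟩)

private theorem num1 {S₁ Cs Ca D c₁ x y T : ℝ} (hCs : 0 < Cs) (hCa : 0 < Ca) (hc : 0 < c₁)
    (hx : 0 ≤ x) (h1 : S₁ ≤ Cs * T) (h2 : T ≤ Ca * (D ^ 2 * x)) (h3 : c₁ ≤ y) :
    3 * S₁ ≤ 3 * Cs * Ca * D ^ 2 / c₁ * x * y := by
  have h4 : Cs * T ≤ Cs * (Ca * (D ^ 2 * x)) := mul_le_mul_of_nonneg_left h2 hCs.le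
  have h5 : 3 * Cs * Ca * D ^ 2 / c₁ * x * y = 3 * (Cs * (Ca * (D ^ 2 * x))) * (y / c₁) := by
    ring
  have h6 : 1 ≤ y / c₁ := by
    rw [le_div_iff₀ hc, one_mul]
    exact h3
  have h7 : 0 ≤ 3 * (Cs * (Ca * (D ^ 2 * x))) := by positivity
  rw [h5]
  calc 3 * S₁ ≤ 3 * (Cs * (Ca * (D ^ 2 * x))) * 1 := by linarith
    _ ≤ _ := mul_le_mul_of_nonneg_left h6 h7

private theorem num2 {S₂ Cq Cp D x y X Y : ℝ} (hCq : 0 < Cq) (hCp : 0 < Cp)
    (hx : 0 ≤ x) (hY : 0 ≤ Y) (h1 : S₂ ≤ Cq * Cp * (X * Y)) (h2 : X ≤ D ^ 2 * x)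
    (h3 : Y ≤ D ^ 2 * y) : 3 * S₂ ≤ 3 * Cq * Cp * D ^ 4 * x * y := by
  have h4 : X * Y ≤ D ^ 2 * x * (D ^ 2 * y) := mul_le_mul h2 h3 hY (by positivity)
  have h5 : Cq * Cp * (X * Y) ≤ Cq * Cp * (D ^ 2 * x * (D ^ 2 * y)) :=
    mul_le_mul_of_nonneg_left h4 (by positivity)
  have h6 : 3 * Cq * Cp * D ^ 4 * x * y = 3 * (Cq * Cp * (D ^ 2 * x * (D ^ 2 * y))) := by ring
  rw [h6]
  linarith

private theorem num3 {a₁ a₂ a₃ x y s : ℝ} (h1 : 0 ≤ a₁) (h2 : 0 ≤ a₂) (h3 : 0 ≤ a₃)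
    (hx : 0 ≤ x) (hy : 0 ≤ y)
    (h : s ≤ a₁ * x * y ∨ s ≤ a₂ * x * y ∨ s ≤ a₃ * x * y) : s ≤ (a₁ + a₂ + a₃) * x * y := by
  have e1 : 0 ≤ a₁ * x * y := by positivity
  have e2 : 0 ≤ a₂ * x * y := by positivity
  have e3 : 0 ≤ a₃ * x * y := by positivity
  have e4 : (a₁ + a₂ + a₃) * x * y = a₁ * x * y + a₂ * x * y + a₃ * x * y := by ring
  rcases h with h | h | h <;> linarith

theorem spectral_of {L : Lat} {C c γ M : ℝ} {Λ R₀ : ℤ} (hF : AF (al L) C c γ R₀) (hM : 1 ≤ M)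
    (hΛ : 1 ≤ Λ)
    (hT : ∀ (ℓ : ℤ) (t : ℝ), R₀ ≤ ℓ → 1 ≤ t * ((ℓ : ℝ) ^ 2 * al L R₀ ℓ) → TB L M (Λ * ℓ) t)
    {A : ℝ} (hA : 0 < A) :
    ∃ C' : ℝ, 0 < C' ∧ ∀ (r d N N' : ℤ) (E : Set Pt),
      R₀ ≤ r → r ≤ N → N ≤ 2 * N' → N' ≤ 2 * N → GoodE L N E →
      ∀ F : Finset Pt, (∀ v, v ∈ F ↔ v ∈ dom N N' E) →
      ∑ S ∈ F.powerset.filter (fun S => ((S.card : ℝ) ≤ A * ((r : ℝ) ^ 2 * al L R₀ r)) ∧
          ∃ u ∈ S, ∃ v ∈ S, d ≤ nrm (u - v)),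
        fc (ind (L.Crs N N' E)) S ^ 2 ≤
      C' * (((N : ℝ) / r) * al L r N) ^ 2 *
        ((((max d r : ℤ) : ℝ) / r) * al L r (max d r)) ^ 2 := by
  obtain ⟨K, hK1, hK⟩ := hF.growth A
  obtain ⟨Cp, hCp, hp⟩ := pair_le hF.toAG hM
  obtain ⟨Cs, hCs, hs⟩ := single_le hF.toAG hM
  obtain ⟨Cq, hCq, hq⟩ := hF.pairs
  obtain ⟨Ca, hCa, ha⟩ := hF.sum_all
  have hΛK : 1 ≤ Λ * K := by nlinarith
  have hΛKr : (1 : ℝ) ≤ ((Λ * K : ℤ) : ℝ) := by exact_mod_cast hΛK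
  obtain ⟨B, hB⟩ : ∃ B : ℝ, B = 1024 * ((Λ * K : ℤ) : ℝ) := ⟨_, rfl⟩
  have hB2 : 1024 ≤ B := by rw [hB]; linarith
  have hB1 : 1 ≤ B := by linarith
  obtain ⟨c₁, hc₁, hl⟩ := hF.toAG.phi_low hB1
  have hC1 := hF.C1
  have h16 := hF.R16
  obtain ⟨D, hD⟩ : ∃ D : ℝ, D = C ^ 4 * B ^ 6 := ⟨_, rfl⟩
  have hD0 : 0 < D := by
    rw [hD]
    have : 0 < C := by linarith
    have : 0 < B := by linarith
    positivity
  refine ⟨1 / c₁ ^ 2 + 3 * Cs * Ca * D ^ 2 / c₁ + 3 * Cq * Cp * D ^ 4, by positivity, ?_⟩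
  intro r d N N' E hr hrN hNN hNN' hE F hFd
  have hr0 : (0 : ℝ) < r := by exact_mod_cast (show (0 : ℤ) < r by omega)
  obtain ⟨e, he⟩ : ∃ e : ℤ, e = max d r := ⟨_, rfl⟩
  rw [← he]
  have hre : r ≤ e := by rw [he]; exact le_max_right _ _
  obtain ⟨x, hx⟩ : ∃ x : ℝ, x = (((N : ℝ) / r) * al L r N) ^ 2 := ⟨_, rfl⟩
  obtain ⟨y, hy⟩ : ∃ y : ℝ, y = (((e : ℝ) / r) * al L r e) ^ 2 := ⟨_, rfl⟩
  rw [← hx, ← hy]
  have hx0 : 0 ≤ x := by rw [hx]; positivity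
  have hy0 : 0 ≤ y := by rw [hy]; positivity
  refine num3 (by positivity) (by positivity) (by positivity) hx0 hy0 ?_
  by_cases h4N : 4 * N < d
  · -- no set
    have he : F.powerset.filter (fun S => ((S.card : ℝ) ≤ A * ((r : ℝ) ^ 2 * al L R₀ r)) ∧
        ∃ u ∈ S, ∃ v ∈ S, d ≤ nrm (u - v)) = ∅ := by
      refine Finset.filter_eq_empty_iff.2 ?_
      rintro S hS ⟨-, u, hu, v, hv, huv⟩
      have hSF := Finset.mem_powerset.1 hS
      have := nrm_le hNN' ((hFd u).1 (hSF hu)) ((hFd v).1 (hSF hv))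
      omega
    rw [he, Finset.sum_empty]
    left
    positivity
  push Not at h4N
  obtain ⟨n, hn⟩ : ∃ n : ℤ, n = min N N' := ⟨_, rfl⟩
  have hnN : n ≤ N := by omega
  have hnN' : n ≤ N' := by omega
  have hN2n : N ≤ 2 * n := by omega
  have hN'2n : N' ≤ 2 * n := by omega
  have he4 : e ≤ 4 * N := by omega
  obtain ⟨w, hw⟩ : ∃ w : ℤ, w = Λ * (K * r) := ⟨_, rfl⟩
  have hKr : r ≤ K * r := by nlinarith
  have hwr : r ≤ w := by rw [hw]; nlinarith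
  have hwreal : (w : ℝ) = ((Λ * K : ℤ) : ℝ) * r := by rw [hw]; push_cast; ring
  have hBr : B * r = 1024 * w := by rw [hB, hwreal]; ring
  have hNreal : (N : ℝ) ≤ 2 * (n : ℝ) := by exact_mod_cast hN2n
  have hnreal : (n : ℝ) ≤ (N : ℝ) := by exact_mod_cast hnN
  have hereal : (e : ℝ) ≤ 4 * (N : ℝ) := by exact_mod_cast he4
  have hrNr : (r : ℝ) ≤ N := by exact_mod_cast hrN
  have hrer : (r : ℝ) ≤ e := by exact_mod_cast hre
  by_cases hwn : n < w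
  · -- everything of order one
    have hnw : (n : ℝ) ≤ w := by exact_mod_cast hwn.le
    have e1 : (N : ℝ) ≤ B * r := by rw [hBr]; linarith
    have e2 : (e : ℝ) ≤ B * r := by rw [hBr]; linarith
    have f1 : c₁ ≤ x := hx ▸ hl r N hr hrN e1
    have f2 : c₁ ≤ y := hy ▸ hl r e hr hre e2
    have f3 : c₁ * c₁ ≤ x * y := mul_le_mul f1 f2 hc₁.le hx0
    have f4 : (1 : ℝ) ≤ 1 / c₁ ^ 2 * x * y := by
      rw [mul_assoc, one_div, ← div_eq_inv_mul, le_div_iff₀ (by positivity)]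
      nlinarith
    have f5 : ∑ S ∈ F.powerset.filter (fun S => ((S.card : ℝ) ≤ A * ((r : ℝ) ^ 2 * al L R₀ r)) ∧
        ∃ u ∈ S, ∃ v ∈ S, d ≤ nrm (u - v)), fc (ind (L.Crs N N' E)) S ^ 2 ≤ 1 := by
      have f6 := small_one (L := L) hFd (fun S => ((S.card : ℝ) ≤ A * ((r : ℝ) ^ 2 * al L R₀ r)) ∧
        ∃ u ∈ S, ∃ v ∈ S, d ≤ nrm (u - v))
      convert f6
    exact Or.inl (f5.trans f4)
  push Not at hwn
  have hw1 : 1 ≤ w := by omega
  have hR0w : R₀ ≤ w := by omega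
  -- the time
  have hal : 0 < al L R₀ r := by
    have h1 := hF.lo R₀ r le_rfl hr
    have h2 : (0 : ℝ) < ((R₀ : ℝ) / r) ^ (2 * γ) := by
      apply Real.rpow_pos_of_pos
      have : (0 : ℝ) < R₀ := by exact_mod_cast (show (0 : ℤ) < R₀ by omega)
      positivity
    have h3 : 0 < C * al L R₀ r := lt_of_lt_of_le h2 h1
    exact (mul_pos_iff_of_pos_left (by linarith)).1 h3
  have ha0 : 0 < A * ((r : ℝ) ^ 2 * al L R₀ r) := by positivity
  obtain ⟨t, ht⟩ : ∃ t : ℝ, t = 1 / (A * ((r : ℝ) ^ 2 * al L R₀ r)) := ⟨_, rfl⟩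
  have ht0 : 0 < t := by rw [ht]; positivity
  have hta : t * (A * ((r : ℝ) ^ 2 * al L R₀ r)) ≤ 1 := by
    rw [ht, one_div, inv_mul_cancel₀ ha0.ne']
  have hTB : TB L M w t := by
    rw [hw]
    refine hT (K * r) t (by omega) ?_
    have h1 := hK r hr
    rw [ht, one_div, ← div_eq_inv_mul, le_div_iff₀ ha0, one_mul]
    exact h1
  have hw0 : (0 : ℝ) < w := by exact_mod_cast (show (0 : ℤ) < w by omega)
  have hn0 : (0 : ℝ) < n := by exact_mod_cast (show (0 : ℤ) < n by omega)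
  have hrw : (r : ℝ) ≤ w := by exact_mod_cast hwr
  have g1 : (w : ℝ) ≤ B * r := by rw [hBr]; linarith
  have g2 : (r : ℝ) ≤ B * w := by nlinarith
  have g3 : (N : ℝ) ≤ B * n := by nlinarith
  have g4 : (n : ℝ) ≤ B * N := by nlinarith
  have hΦw : (n : ℝ) / w * al L w n ≤ D * ((N : ℝ) / r * al L r N) := by
    rw [hD]
    exact hF.toAG.phi (r := w) (R := n) (r' := r) (R' := N) hB1 hR0w hr g1 g2 g3 g4 (by omega)
  have hΦw0 : 0 ≤ (n : ℝ) / w * al L w n := by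
    have := hF.nn w n
    positivity
  have hΦw2 : ((n : ℝ) / w * al L w n) ^ 2 ≤ D ^ 2 * x := by
    rw [hx, ← mul_pow]
    exact pow_le_pow_left₀ hΦw0 hΦw 2
  by_cases hd : d < 64 * w
  · -- one block
    right; left
    refine (small_single (g := ind (L.Crs N N' E)) (F := F) (d := d) ht0.le hta hw1).trans ?_
    have h2 : ∑ z ∈ fz F w, ∑ S ∈ F.powerset.filter (fun S => ¬ Disjoint S (fb F w z)),
        (∏ v ∈ S, kt t v) * fc (ind (L.Crs N N' E)) S ^ 2 ≤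
        Cs * ∑ z ∈ fz F w, gg (al L) γ N N' w n (sc w z) := by
      rw [Finset.mul_sum]
      refine Finset.sum_le_sum fun z hz => ?_
      have hz2 := fz_pos hw1 hFd z hz
      exact hs t w hR0w hTB N N' n z E hwn hnN hnN' hz2.1 hz2.2 hE F hFd
    have h3 := ha w N N' n (fz F w) hw1 hwn hN2n hN'2n (fz_pos hw1 hFd)
    have e2 : (e : ℝ) ≤ B * r := by
      have h4 : e ≤ 64 * w := by omega
      have : (e : ℝ) ≤ 64 * w := by exact_mod_cast h4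
      rw [hBr]; linarith
    have f2 : c₁ ≤ y := hy ▸ hl r e hr hre e2
    exact num1 hCs hCa hc₁ hx0 h2 (h3.trans (mul_le_mul_of_nonneg_left hΦw2 hCa.le)) f2
  push Not at hd
  -- two blocks
  right; right
  have hed : e = d := by omega
  refine (small_pairs (g := ind (L.Crs N N' E)) (F := F) (d := d) ht0.le hta hw1).trans ?_
  have h2 := hq w N N' n d (fz F w) (fun z z' => ∑ S ∈ F.powerset.filter
        (fun S => ¬ Disjoint S (fb F w z) ∧ ¬ Disjoint S (fb F w z')),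
        (∏ v ∈ S, kt t v) * fc (ind (L.Crs N N' E)) S ^ 2) Cp hCp.le hR0w hd hwn hN2n hN'2n
        (fz_pos hw1 hFd) (by
      intro z hz z' hz' D' hD1 hD2 hD3 hD4
      have hz2 := fz_pos hw1 hFd z hz
      have hz2' := fz_pos hw1 hFd z' hz'
      exact hp t w hR0w hTB N N' n D' z z' E
        ⟨hw1, hwn, hnN, hnN', hD1, hD2, hD3, hD4, hz2.1, hz2.2, hz2'.1, hz2'.2⟩ hE F hFd)
  have hΦwd : (d : ℝ) / w * al L w d ≤ D * ((e : ℝ) / r * al L r e) := by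
    rw [hD, hed]
    have hwd : (w : ℝ) ≤ d := by exact_mod_cast (show w ≤ d by omega)
    exact hF.toAG.phi (r := w) (R := d) (r' := r) (R' := d) hB1 hR0w hr g1 g2
      (by nlinarith) (by nlinarith) (by omega)
  have hΦwd0 : 0 ≤ (d : ℝ) / w * al L w d := by
    have : (0 : ℝ) ≤ d := by rw [hed] at hrer; linarith
    have := hF.nn w d
    positivity
  have hΦwd2 : ((d : ℝ) / w * al L w d) ^ 2 ≤ D ^ 2 * y := by
    rw [hy, ← mul_pow]
    exact pow_le_pow_left₀ hΦwd0 hΦwd 2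
  exact num2 hCq hCp hx0 (sq_nonneg _) h2 hΦw2 hΦwd2

end FI

end SC

end

/-! ### from `Lib_MP_e0a489.FI9` -/

section

/-!
# MP_e0a489, module FI: the spectral sample of a box crossing (interface)
-/

set_option autoImplicit false

namespace SC

variable [IfL] [IfX] [IfT]

open Classical

/-- `al L` satisfies the abstract properties -/
theorem FI.al_AF {L : Lat} {κ : ℕ → ℝ} (h : Fam L κ) :
    ∃ (C c γ : ℝ) (R₀ : ℤ), FI.AF (al L) C c γ R₀ := by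
  obtain ⟨C₁, R₁, hA⟩ := al_props κ
  obtain ⟨C₂, c₂, R₂, h1, h2, h3, h4, hU⟩ := al_upper h
  obtain ⟨C₃, c₃, R₃, h5, h6, h7, h8, hL⟩ := al_lower h
  have hP := hA L h
  have nn : ∀ r R, 0 ≤ al L r R := by
    intro r R
    unfold al
    split_ifs
    · exact pr_nonneg _
    · exact zero_le_one
  refine ⟨_, _, _, _, FI.AF_of (C₃ := C₃) (c₃ := c₃) (R₁ := R₁) (R₂ := R₂) (R₃ := R₃)
    hP.C1 h2 h6 h7 hP.R16 nn hP.le1 ?_ hP.mono ?_ hP.qmult hU hL⟩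
  · intro r R hrR
    unfold al
    rw [if_neg (by omega)]
  · intro r ρ R h0 h1 h2
    exact FI.al_sub L h0 h1 h2

/-- FINAL ESTIMATE for the crossing of the domain `dom N N' E`, `N ≤ 2 N'`, `N' ≤ 2 N`. -/
theorem spectral_box {L : Lat} {κ : ℕ → ℝ} (h : Fam L κ) {x₀ : Pt}
    (hc : ∀ m : ℤ, 8 ≤ m → CoreOK (L.shift x₀) m) (R₁ : ℤ) :
    ∃ R₀ : ℤ, 16 ≤ R₀ ∧ R₁ ≤ R₀ ∧ ∀ A : ℝ, 0 < A → ∃ C : ℝ, 0 < C ∧
      ∀ (r d N N' : ℤ) (E : Set Pt),
      R₀ ≤ r → r ≤ N → N ≤ 2 * N' → N' ≤ 2 * N → GoodE L N E →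
      ∀ F : Finset Pt, (∀ v, v ∈ F ↔ v ∈ dom N N' E) →
      ∑ S ∈ F.powerset.filter (fun S => ((S.card : ℝ) ≤ A * ((r : ℝ) ^ 2 * al L R₀ r)) ∧
          ∃ u ∈ S, ∃ v ∈ S, d ≤ nrm (u - v)),
        fc (ind (L.Crs N N' E)) S ^ 2 ≤
      C * (((N : ℝ) / r) * al L r N) ^ 2 *
        ((((max d r : ℤ) : ℝ) / r) * al L r (max d r)) ^ 2 := by
  obtain ⟨C, c, γ, R₂, hF⟩ := FI.al_AF h
  obtain ⟨M, Λ, R₀, hM, hΛ, h16, hR, hT⟩ := two_time h hc (max R₁ R₂)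
  have hF0 : FI.AF (al L) C c γ R₀ := hF.mono_R (le_trans (le_max_right _ _) hR)
  refine ⟨R₀, h16, le_trans (le_max_left _ _) hR, fun A hA => ?_⟩
  refine FI.spectral_of (M := max M 1) (Λ := Λ) hF0 (le_max_right _ _) hΛ ?_ hA
  intro ℓ t hℓ ht
  have hal0 : 0 ≤ al L R₀ ℓ := hF0.nn _ _
  have ht0 : 0 ≤ t := by
    by_contra hneg
    push Not at hneg
    have : t * ((ℓ : ℝ) ^ 2 * al L R₀ ℓ) ≤ 0 :=
      mul_nonpos_of_nonpos_of_nonneg hneg.le (by positivity)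
    linarith
  have hMle : M ≤ max M 1 := le_max_left _ _
  refine ⟨ht0, le_max_right _ _, fun c' x r R h1 h2 => ?_, fun s c' x H r R hH h1 h2 => ?_,
    fun s x H r R hH h1 h2 => ?_⟩
  · exact (hT.bulk ℓ t hℓ ht c' x r R h1 h2).trans
      (mul_le_mul_of_nonneg_right hMle (by positivity))
  · exact (hT.half ℓ t hℓ ht s c' x H r R hH h1 h2).trans
      (mul_le_mul_of_nonneg_right hMle (Real.rpow_nonneg (hF0.nn _ _) _))
  · exact (hT.quart ℓ t hℓ ht s x H r R hH h1 h2).trans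
      (mul_le_mul_of_nonneg_right hMle (hF0.nn _ _))

end SC

end

/-! ### from `Lib_MP_e0a489.TPA2` -/

section

/-!
# MP_e0a489, module TP, assembly 2: from `spectral_box` to the statement with real radii
-/

set_option autoImplicit false

namespace SC

variable [IfL] [IfX] [IfT]

open Classical

namespace TPA

/-- two sites of the domain have sup distance at most `4 N` -/
theorem dom_nrm {N N' : ℤ} {E : Set Pt} (_h1 : N ≤ 2 * N') (h2 : N' ≤ 2 * N) {u v : Pt}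
    (hu : u ∈ dom N N' E) (hv : v ∈ dom N N' E) : nrm (u - v) ≤ 4 * N := by
  obtain ⟨⟨a1, a2⟩, a3, a4⟩ := hu.1
  obtain ⟨⟨b1, b2⟩, b3, b4⟩ := hv.1
  have e1 : |u.1 - v.1| ≤ 4 * N := abs_le.2 ⟨by omega, by omega⟩
  have e2 : |u.2 - v.2| ≤ 4 * N := abs_le.2 ⟨by omega, by omega⟩
  exact max_le e1 e2

/-- ASSEMBLY with a general radius `ρ = max ⌊r⌋ R₀`, pure inequality: the bound of `spectral_box` is bounded by the
product of the two `Φ`. -/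
theorem rhs_le {a : ℝ → ℝ → ℝ} {f : ℤ → ℤ → ℝ} {C γ K : ℝ} {R₀ : ℤ}
    (hA : FI.AG f C γ R₀) (h : CmpR a f K R₀) {r r₀ : ℝ} (h1 : 1 ≤ r) (h2 : r ≤ r₀) {n N : ℤ}
    (hn : r ≤ n) (hN : n ≤ N) (hN2 : N ≤ 2 * n) (hρ : max ⌊r⌋ R₀ ≤ N) :
    (((N : ℝ) / ((max ⌊r⌋ R₀ : ℤ) : ℝ)) * f (max ⌊r⌋ R₀) N) ^ 2 *
      ((((max ⌊r₀ / 2⌋ (max ⌊r⌋ R₀) : ℤ) : ℝ) / ((max ⌊r⌋ R₀ : ℤ) : ℝ)) *
        f (max ⌊r⌋ R₀) (max ⌊r₀ / 2⌋ (max ⌊r⌋ R₀))) ^ 2 ≤
      (C ^ 4 * 4 ^ 6 * (2 * K)) ^ 4 * (((n : ℝ) / r * a r n) ^ 2 * (r₀ / r * a r r₀) ^ 2) := by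
  have h16 := hA.R16
  have hC := hA.C1
  have hK := h.K1
  have p1 := CmpR_phi hA h h1 hn
  have p2 := CmpR_phi hA h h1 h2
  rw [Int.floor_intCast] at p1
  obtain ⟨ρ, hρd⟩ : ∃ ρ : ℤ, ρ = max ⌊r⌋ R₀ := ⟨_, rfl⟩
  rw [← hρd] at p1 p2 hρ ⊢
  have hρ1 : R₀ ≤ ρ := by omega
  obtain ⟨D, hD⟩ : ∃ D : ℤ, D = max ⌊r₀ / 2⌋ ρ := ⟨_, rfl⟩
  obtain ⟨D', hD'⟩ : ∃ D' : ℤ, D' = max ⌊r₀⌋ R₀ := ⟨_, rfl⟩
  obtain ⟨M, hM⟩ : ∃ M : ℤ, M = max n R₀ := ⟨_, rfl⟩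
  rw [← hD]
  rw [← hD'] at p2
  rw [← hM] at p1
  have f1 : ⌊r⌋ ≤ ⌊r₀⌋ := Int.floor_le_floor h2
  have f2 : ⌊r₀⌋ ≤ 2 * ⌊r₀ / 2⌋ + 1 := by
    have g1 : r₀ / 2 < ⌊r₀ / 2⌋ + 1 := Int.lt_floor_add_one _
    have g2 : ((⌊r₀⌋ : ℤ) : ℝ) ≤ r₀ := Int.floor_le r₀
    have g3 : ((⌊r₀⌋ : ℤ) : ℝ) < ((2 * ⌊r₀ / 2⌋ + 2 : ℤ) : ℝ) := by
      push_cast
      linarith
    have g4 : ⌊r₀⌋ < 2 * ⌊r₀ / 2⌋ + 2 := by exact_mod_cast g3
    omega
  have f3 : ⌊r₀ / 2⌋ ≤ ⌊r₀⌋ := Int.floor_le_floor (by linarith)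
  have f0 : ⌊r⌋ ≤ n := by
    have := Int.floor_le_floor hn
    rwa [Int.floor_intCast] at this
  have q1 : (N : ℝ) / ρ * f ρ N ≤ C ^ 4 * 4 ^ 6 * ((M : ℝ) / ρ * f ρ M) := by
    refine hA.phi (by norm_num) hρ1 hρ1 ?_ ?_ ?_ ?_ (by omega)
    · exact_mod_cast (show ρ ≤ 4 * ρ by omega)
    · exact_mod_cast (show ρ ≤ 4 * ρ by omega)
    · exact_mod_cast (show M ≤ 4 * N by omega)
    · exact_mod_cast (show N ≤ 4 * M by omega)
  have q2 : (D : ℝ) / ρ * f ρ D ≤ C ^ 4 * 4 ^ 6 * ((D' : ℝ) / ρ * f ρ D') := by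
    refine hA.phi (by norm_num) hρ1 hρ1 ?_ ?_ ?_ ?_ (by omega)
    · exact_mod_cast (show ρ ≤ 4 * ρ by omega)
    · exact_mod_cast (show ρ ≤ 4 * ρ by omega)
    · exact_mod_cast (show D' ≤ 4 * D by omega)
    · exact_mod_cast (show D ≤ 4 * D' by omega)
  have hL : 0 ≤ C ^ 4 * 4 ^ 6 := by positivity
  have s1 : (N : ℝ) / ρ * f ρ N ≤ C ^ 4 * 4 ^ 6 * (2 * K) * ((n : ℝ) / r * a r n) :=
    q1.trans ((mul_le_mul_of_nonneg_left p1 hL).trans (le_of_eq (by ring)))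
  have s2 : (D : ℝ) / ρ * f ρ D ≤ C ^ 4 * 4 ^ 6 * (2 * K) * (r₀ / r * a r r₀) :=
    q2.trans ((mul_le_mul_of_nonneg_left p2 hL).trans (le_of_eq (by ring)))
  have ρ0 : (0 : ℝ) ≤ ρ := by exact_mod_cast (show 0 ≤ ρ by omega)
  have N0 : (0 : ℝ) ≤ N := by exact_mod_cast (show 0 ≤ N by omega)
  have D0 : (0 : ℝ) ≤ D := by exact_mod_cast (show 0 ≤ D by omega)
  have t1 : 0 ≤ (N : ℝ) / ρ * f ρ N := mul_nonneg (div_nonneg N0 ρ0) (hA.nn _ _)
  have t2 : 0 ≤ (D : ℝ) / ρ * f ρ D := mul_nonneg (div_nonneg D0 ρ0) (hA.nn _ _)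
  calc _ ≤ (C ^ 4 * 4 ^ 6 * (2 * K) * ((n : ℝ) / r * a r n)) ^ 2 *
        (C ^ 4 * 4 ^ 6 * (2 * K) * (r₀ / r * a r r₀)) ^ 2 :=
        mul_le_mul (pow_le_pow_left₀ t1 s1 2) (pow_le_pow_left₀ t2 s2 2) (sq_nonneg _)
          (sq_nonneg _)
    _ = _ := by ring

end TPA

/-- ASSEMBLY.  `a` is the four arm probability with real radii, comparable with `al L`; `SP n τ r₀` is the spectral
probability of `|S| < τ`, `diam S ≥ r₀`. -/
theorem tp_assemble {L : Lat} {κ : ℕ → ℝ} (h : Fam L κ) {x₀ : Pt}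
    (hc : ∀ m : ℤ, 8 ≤ m → CoreOK (L.shift x₀) m) {a : ℝ → ℝ → ℝ}
    (ha : ∀ R₁ : ℤ, ∃ R₂ : ℤ, R₁ ≤ R₂ ∧ ∃ K : ℝ, CmpR a (al L) K R₂)
    {N N' : ℕ → ℤ} {E : ℕ → Set Pt}
    (hN : ∀ n : ℕ, 1 ≤ n → (n : ℤ) ≤ N n ∧ N n ≤ 2 * n ∧ N n ≤ 2 * N' n ∧ N' n ≤ 2 * N n ∧
      GoodE L (N n) (E n))
    {F : ℕ → Finset Pt} (hF : ∀ (n : ℕ) (v : Pt), v ∈ F n ↔ v ∈ dom (N n) (N' n) (E n))
    {SP : ℕ → ℝ → ℝ → ℝ} {p : ℝ} (hp : 0 < p)
    (hSP : ∀ n : ℕ, 1 ≤ n → ∀ τ r₀ : ℝ, SP n τ r₀ ≤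
      p⁻¹ * ∑ S ∈ (F n).powerset.filter (fun S => ((S.card : ℝ) ≤ τ) ∧
        ∃ u ∈ S, ∃ v ∈ S, ⌊r₀ / 2⌋ ≤ nrm (u - v)),
        fc (ind (L.Crs (N n) (N' n) (E n))) S ^ 2) :
    ∃ C : ℝ, ∀ n : ℕ, 1 ≤ n → ∀ r r₀ : ℝ, 1 ≤ r → r ≤ r₀ →
      (r ≤ n → SP n (r ^ 2 * a 1 r) r₀ ≤ C * ((n : ℝ) / r * a r n) ^ 2 * (r₀ / r * a r r₀) ^ 2) ∧
      (n < r → SP n (r ^ 2 * a 1 r) r₀ ≤ C * ((n : ℝ) / r) ^ 2 * (r₀ / r * a r r₀) ^ 2) := by
  obtain ⟨C₀, c₀, γ, R₃, hAF⟩ := FI.al_AF h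
  obtain ⟨R₀, h16, h3, hsb⟩ := spectral_box h hc R₃
  obtain ⟨R₂, h2, K₂, hK₂⟩ := ha R₃
  obtain ⟨K, hK⟩ := TPA.CmpR_level hAF.toAG hK₂ h2 (R₀ := R₀) h3
  have hA : FI.AG (al L) C₀ γ R₀ := hAF.toAG.mono_R h3
  have hK1 := hK.K1
  obtain ⟨B, hB0, hB⟩ := hsb (4 * K) (by linarith)
  have hR0 : (16 : ℝ) ≤ R₀ := by exact_mod_cast h16
  obtain ⟨c₁, hc₁, H₁⟩ := TPA.CmpR_low hA hK (M := 18 * R₀) (by linarith)
  -- the constant
  obtain ⟨L₁, hL₁⟩ : ∃ x : ℝ, x = (C₀ ^ 4 * 4 ^ 6 * (2 * K)) ^ 4 := ⟨_, rfl⟩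
  have hC0 := hAF.toAG.C1
  have hL₁0 : 0 ≤ L₁ := by rw [hL₁]; positivity
  have hpi : 0 < p⁻¹ := inv_pos.2 hp
  -- sums
  obtain ⟨Sm, hSm⟩ : ∃ Sm : ℕ → ℝ → ℝ → ℝ, ∀ n τ r₀, Sm n τ r₀ =
      ∑ S ∈ (F n).powerset.filter (fun S => ((S.card : ℝ) ≤ τ) ∧
        ∃ u ∈ S, ∃ v ∈ S, ⌊r₀ / 2⌋ ≤ nrm (u - v)),
        fc (ind (L.Crs (N n) (N' n) (E n))) S ^ 2 := ⟨_, fun _ _ _ => rfl⟩
  have hSP' : ∀ n : ℕ, 1 ≤ n → ∀ τ r₀ : ℝ, SP n τ r₀ ≤ p⁻¹ * Sm n τ r₀ := by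
    intro n hn τ r₀
    rw [hSm]
    exact hSP n hn τ r₀
  have hSm1 : ∀ n τ r₀, Sm n τ r₀ ≤ 1 := by
    intro n τ r₀
    rw [hSm]
    have := FI.small_one (hF n) (fun S : Finset Pt => ((S.card : ℝ) ≤ τ) ∧
        ∃ u ∈ S, ∃ v ∈ S, ⌊r₀ / 2⌋ ≤ nrm (u - v)) (L := L)
    convert this
  have hSm0 : ∀ n : ℕ, 1 ≤ n → ∀ τ r₀ : ℝ, 18 * (n : ℝ) < r₀ → Sm n τ r₀ = 0 := by
    intro n hn τ r₀ hr
    rw [hSm]
    obtain ⟨g1, g2, g3, g4, g5⟩ := hN n hn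
    rw [Finset.filter_eq_empty_iff.2, Finset.sum_empty]
    rintro S hS ⟨-, u, hu, v, hv, huv⟩
    have hS' := Finset.mem_powerset.1 hS
    have e1 := TPA.dom_nrm g3 g4 ((hF n u).1 (hS' hu)) ((hF n v).1 (hS' hv))
    have e2 : r₀ / 2 < ⌊r₀ / 2⌋ + 1 := Int.lt_floor_add_one _
    have e3 : ⌊r₀ / 2⌋ ≤ 8 * (n : ℤ) := by omega
    have e4 : ((⌊r₀ / 2⌋ : ℤ) : ℝ) ≤ 8 * (n : ℝ) := by exact_mod_cast e3
    have e5 : (1 : ℝ) ≤ n := by exact_mod_cast hn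
    linarith
  refine ⟨p⁻¹ * (B * L₁ + c₁⁻¹ * c₁⁻¹ + 18 ^ 2 * c₁⁻¹), ?_⟩
  intro n hn r r₀ h1 hr
  have hn1 : (1 : ℝ) ≤ n := by exact_mod_cast hn
  obtain ⟨g1, g2, g3, g4, g5⟩ := hN n hn
  have hci : 0 < c₁⁻¹ := inv_pos.2 hc₁
  have hBL : 0 ≤ B * L₁ := mul_nonneg hB0.le hL₁0
  have hr0 : 0 < r := by linarith
  obtain ⟨Y, hY⟩ : ∃ Y : ℝ, Y = (r₀ / r * a r r₀) ^ 2 := ⟨_, rfl⟩
  have hY0 : 0 ≤ Y := by rw [hY]; exact sq_nonneg _
  constructor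
  · intro hrn
    obtain ⟨X, hX⟩ : ∃ X : ℝ, X = ((n : ℝ) / r * a r n) ^ 2 := ⟨_, rfl⟩
    have hX0 : 0 ≤ X := by rw [hX]; exact sq_nonneg _
    rw [← hX, ← hY]
    have goal1 : Sm n (r ^ 2 * a 1 r) r₀ ≤
        (B * L₁ + c₁⁻¹ * c₁⁻¹ + 18 ^ 2 * c₁⁻¹) * (X * Y) := by
      by_cases hρ : max ⌊r⌋ R₀ ≤ N n
      · have t1 : r ^ 2 * a 1 r ≤ 4 * K * (((max ⌊r⌋ R₀ : ℤ) : ℝ) ^ 2 *
            al L R₀ (max ⌊r⌋ R₀)) := by
          have u1 := hK.up r h1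
          have u2 := TPA.le_two_mul (r := r) h16
          have u3 : r ^ 2 ≤ (2 * ((max ⌊r⌋ R₀ : ℤ) : ℝ)) ^ 2 := pow_le_pow_left₀ hr0.le u2 2
          have u4 := hA.nn R₀ (max ⌊r⌋ R₀)
          calc r ^ 2 * a 1 r ≤ (2 * ((max ⌊r⌋ R₀ : ℤ) : ℝ)) ^ 2 *
                (K * al L R₀ (max ⌊r⌋ R₀)) :=
                mul_le_mul u3 u1 (TPA.CmpR_nn hA hK le_rfl h1) (sq_nonneg _)
            _ = _ := by ring
        have t2 := hB (max ⌊r⌋ R₀) ⌊r₀ / 2⌋ (N n) (N' n) (E n) (le_max_right _ _) hρ g3 g4 g5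
          (F n) (hF n)
        have t3 : Sm n (r ^ 2 * a 1 r) r₀ ≤
            ∑ S ∈ (F n).powerset.filter (fun S => ((S.card : ℝ) ≤ 4 * K *
              (((max ⌊r⌋ R₀ : ℤ) : ℝ) ^ 2 * al L R₀ (max ⌊r⌋ R₀))) ∧
              ∃ u ∈ S, ∃ v ∈ S, ⌊r₀ / 2⌋ ≤ nrm (u - v)),
              fc (ind (L.Crs (N n) (N' n) (E n))) S ^ 2 := by
          rw [hSm]
          refine Finset.sum_le_sum_of_subset_of_nonneg ?_ fun S _ _ => sq_nonneg _
          intro S hS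
          obtain ⟨hS1, hS2, hS3⟩ := Finset.mem_filter.1 hS
          exact Finset.mem_filter.2 ⟨hS1, hS2.trans t1, hS3⟩
        have t4 := TPA.rhs_le hA hK h1 hr (n := (n : ℤ)) (by exact_mod_cast hrn) g1 g2 hρ
        have t5 : ((((n : ℕ) : ℤ) : ℝ)) = (n : ℝ) := by norm_cast
        rw [t5, ← hX, ← hY, ← hL₁] at t4
        calc Sm n (r ^ 2 * a 1 r) r₀ ≤ _ := t3
          _ ≤ _ := t2
          _ = B * ((((N n : ℤ) : ℝ) / ((max ⌊r⌋ R₀ : ℤ) : ℝ) * al L (max ⌊r⌋ R₀) (N n)) ^ 2 *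
              ((((max ⌊r₀ / 2⌋ (max ⌊r⌋ R₀) : ℤ) : ℝ) / ((max ⌊r⌋ R₀ : ℤ) : ℝ)) *
                al L (max ⌊r⌋ R₀) (max ⌊r₀ / 2⌋ (max ⌊r⌋ R₀))) ^ 2) := by ring
          _ ≤ B * (L₁ * (X * Y)) := mul_le_mul_of_nonneg_left t4 hB0.le
          _ = (B * L₁ + 0 + 0) * (X * Y) := by ring
          _ ≤ (B * L₁ + c₁⁻¹ * c₁⁻¹ + 18 ^ 2 * c₁⁻¹) * (X * Y) := by
              refine mul_le_mul_of_nonneg_right ?_ (mul_nonneg hX0 hY0)
              have := mul_pos hci hci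
              linarith
      · have hρ' : N n < max ⌊r⌋ R₀ := not_le.1 hρ
        have v1 : ⌊r⌋ ≤ (n : ℤ) := by
          have := Int.floor_le_floor (show r ≤ ((n : ℤ) : ℝ) by exact_mod_cast hrn)
          rwa [Int.floor_intCast] at this
        have v2 : (n : ℤ) < R₀ := by omega
        have v3 : (n : ℝ) ≤ R₀ := by exact_mod_cast v2.le
        by_cases hbig : 18 * (n : ℝ) < r₀
        · rw [hSm0 n hn _ _ hbig]
          positivity
        · have w1 : c₁ ≤ Y := by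
            rw [hY]
            refine H₁ r r₀ h1 hr ?_
            push Not at hbig
            nlinarith
          have w2 : c₁ ≤ X := by
            rw [hX]
            refine H₁ r n h1 hrn ?_
            nlinarith
          have w3 : 1 ≤ c₁⁻¹ * c₁⁻¹ * (X * Y) := by
            have x1 : 1 ≤ c₁⁻¹ * X := by
              rw [inv_mul_eq_div, le_div_iff₀ hc₁]
              linarith
            have x2 : 1 ≤ c₁⁻¹ * Y := by
              rw [inv_mul_eq_div, le_div_iff₀ hc₁]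
              linarith
            calc (1 : ℝ) ≤ (c₁⁻¹ * X) * (c₁⁻¹ * Y) := one_le_mul_of_one_le_of_one_le x1 x2
              _ = _ := by ring
          calc Sm n (r ^ 2 * a 1 r) r₀ ≤ 1 := hSm1 _ _ _
            _ ≤ c₁⁻¹ * c₁⁻¹ * (X * Y) := w3
            _ ≤ (B * L₁ + c₁⁻¹ * c₁⁻¹ + 18 ^ 2 * c₁⁻¹) * (X * Y) := by
              refine mul_le_mul_of_nonneg_right ?_ (mul_nonneg hX0 hY0)
              nlinarith
    calc SP n (r ^ 2 * a 1 r) r₀ ≤ p⁻¹ * Sm n (r ^ 2 * a 1 r) r₀ := hSP' n hn _ _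
      _ ≤ p⁻¹ * ((B * L₁ + c₁⁻¹ * c₁⁻¹ + 18 ^ 2 * c₁⁻¹) * (X * Y)) :=
          mul_le_mul_of_nonneg_left goal1 hpi.le
      _ = _ := by ring
  · intro hrn
    rw [← hY]
    have goal2 : Sm n (r ^ 2 * a 1 r) r₀ ≤
        (B * L₁ + c₁⁻¹ * c₁⁻¹ + 18 ^ 2 * c₁⁻¹) * (((n : ℝ) / r) ^ 2 * Y) := by
      by_cases hbig : 18 * (n : ℝ) < r₀
      · rw [hSm0 n hn _ _ hbig]
        positivity
      · push Not at hbig
        have w1 : c₁ ≤ Y := by
          rw [hY]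
          refine H₁ r r₀ h1 hr ?_
          nlinarith
        have w2 : 1 ≤ 18 * ((n : ℝ) / r) := by
          rw [← mul_div_assoc, le_div_iff₀ hr0]
          linarith
        have w3 : 1 ≤ 18 ^ 2 * c₁⁻¹ * (((n : ℝ) / r) ^ 2 * Y) := by
          have x2 : 1 ≤ c₁⁻¹ * Y := by
            rw [inv_mul_eq_div, le_div_iff₀ hc₁]
            linarith
          have x1 : 1 ≤ (18 * ((n : ℝ) / r)) ^ 2 := one_le_pow₀ w2
          calc (1 : ℝ) ≤ (18 * ((n : ℝ) / r)) ^ 2 * (c₁⁻¹ * Y) :=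
                one_le_mul_of_one_le_of_one_le x1 x2
            _ = _ := by ring
        calc Sm n (r ^ 2 * a 1 r) r₀ ≤ 1 := hSm1 _ _ _
          _ ≤ 18 ^ 2 * c₁⁻¹ * (((n : ℝ) / r) ^ 2 * Y) := w3
          _ ≤ (B * L₁ + c₁⁻¹ * c₁⁻¹ + 18 ^ 2 * c₁⁻¹) * (((n : ℝ) / r) ^ 2 * Y) := by
            refine mul_le_mul_of_nonneg_right ?_ (by positivity)
            nlinarith
    calc SP n (r ^ 2 * a 1 r) r₀ ≤ p⁻¹ * Sm n (r ^ 2 * a 1 r) r₀ := hSP' n hn _ _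
      _ ≤ p⁻¹ * ((B * L₁ + c₁⁻¹ * c₁⁻¹ + 18 ^ 2 * c₁⁻¹) * (((n : ℝ) / r) ^ 2 * Y)) :=
          mul_le_mul_of_nonneg_left goal2 hpi.le
      _ = _ := by ring

end SC

end

/-! ### from `Lib_MP_e0a489.ZR8` -/

section

/-!
# MP_e0a489, module ZR, 8: gluing crossings (any lattice)
-/

set_option autoImplicit false

namespace SC

open Classical

variable {L : Lat}

open SC.Lat in
private theorem zr8_meet {a b p q : ℤ} {A B : Set Pt} (hA : A ⊆ rect a b p q)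
    (hB : B ⊆ rect a b p q) {u v x y : Pt} (hu : u.1 = a) (hv : v.1 = b) (h1 : L.Cn A u v)
    (hx : x.2 = p) (hy : y.2 = q) (h2 : L.Cn B x y) : ∃ z, L.Cn A u z ∧ L.Cn B x z := by
  obtain ⟨z, hz1, hz2⟩ := cross (L := L) (P := {z | L.Cn A u z}) (P' := {z | L.Cn B x z})
    (con_cluster A u) (con_cluster B x) (fun z hz => hA (Cn.right hz))
    (fun z hz => hB (Cn.right hz)) ⟨u, Cn.refl h1.1, hu⟩ ⟨v, h1, hv⟩ ⟨x, Cn.refl h2.1, hx⟩
    ⟨y, h2, hy⟩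
  exact ⟨z, hz1, hz2⟩

private theorem zr8_rect {a b p q a' b' p' q' : ℤ} (h1 : a' ≤ a) (h2 : b ≤ b') (h3 : p' ≤ p)
    (h4 : q ≤ q') : rect a b p q ⊆ rect a' b' p' q' := by
  rintro v ⟨⟨e1, e2⟩, e3, e4⟩
  exact ⟨⟨h1.trans e1, e2.trans h2⟩, h3.trans e3, e4.trans h4⟩

private theorem zr8_ri {a b p q a' b' p' q' : ℤ} (C : Set Pt) (h1 : a' ≤ a) (h2 : b ≤ b')
    (h3 : p' ≤ p) (h4 : q ≤ q') : rect a b p q ∩ C ⊆ rect a' b' p' q' ∩ C :=
  Set.inter_subset_inter_left _ (zr8_rect h1 h2 h3 h4)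

private theorem zr8_loc {A : Cfg → Prop} (hA : Loc A) (e : Equiv.Perm Pt) :
    Loc fun ω => A (via e ω) := by
  obtain ⟨F, hF⟩ := hA
  refine ⟨F.map e.toEmbedding, ?_⟩
  intro ω ω' h
  apply hF
  intro v hv
  apply h
  rw [Finset.mem_coe, Finset.mem_map]
  exact ⟨v, hv, rfl⟩

/-- Two overlapping horizontal crossings and a vertical crossing of the overlap.
Proof.  `Cn (rect a b p q ∩ col) u v`, `Cn (rect a' b' p q ∩ col) u' v'`, `Cn (rect a' b p q ∩ col) x y`.  The set `{z | Cn (rect a b p q ∩ col) u z}` contains (`Cn.last` or `HX.mono`-like cut) a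
crossing of `rect a' b p q`; simplest: by `cross` in `rect a b p q` the clusters of `u` in `rect a b p q ∩ col` and of `x` in `rect a' b p q ∩ col` meet; by `cross` in `rect a' b' p q` the clusters of `u'` and `x`
meet.  So `u` is joined to `v'` in `rect a b' p q ∩ col` (`Cn.trans`, `Cn.symm`, `Cn.mono`). -/
theorem glue_hx {c : Bool} {a b a' b' p q : ℤ} (h1 : a ≤ a') (h2 : a' ≤ b) (h3 : b ≤ b')
    (hpq : p ≤ q) {ω : Cfg} (hu : L.HX c a b p q ω) (hv : L.HX c a' b' p q ω)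
    (hx : L.VX c a' b p q ω) : L.HX c a b' p q ω := by
  obtain ⟨u, v, hu1, hv1, c1⟩ := hu
  obtain ⟨u', v', hu1', hv1', c2⟩ := hv
  obtain ⟨x, y, hx1, hy1, c3⟩ := hx
  have i3 : rect a' b p q ∩ L.col c ω ⊆ rect a b p q :=
    fun z hz => zr8_rect h1 le_rfl le_rfl le_rfl hz.1
  have i3' : rect a' b p q ∩ L.col c ω ⊆ rect a' b' p q :=
    fun z hz => zr8_rect le_rfl h3 le_rfl le_rfl hz.1
  obtain ⟨z, z1, z2⟩ := zr8_meet (fun z hz => hz.1) i3 hu1 hv1 c1 hx1 hy1 c3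
  obtain ⟨w, w1, w2⟩ := zr8_meet (fun z hz => hz.1) i3' hu1' hv1' c2 hx1 hy1 c3
  have m1 := zr8_ri (p := p) (q := q) (L.col c ω) (le_refl a) h3 le_rfl le_rfl
  have m2 := zr8_ri (p := p) (q := q) (L.col c ω) h1 (le_refl b') le_rfl le_rfl
  have m3 := zr8_ri (p := p) (q := q) (L.col c ω) h1 h3 le_rfl le_rfl
  exact ⟨u, v', hu1, hv1', (z1.mono m1).trans ((z2.symm.mono m3).trans ((w2.mono m3).trans
    ((w1.symm.mono m2).trans (c2.mono m2))))⟩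

/-- the transposed statement (`glue_hx` for `L.tr`, `tr_hx`, `tr_vx`) -/
theorem glue_vx {c : Bool} {a b p q p' q' : ℤ} (h1 : p ≤ p') (h2 : p' ≤ q) (h3 : q ≤ q')
    (hab : a ≤ b) {ω : Cfg} (hu : L.VX c a b p q ω) (hv : L.VX c a b p' q' ω)
    (hx : L.HX c a b p' q ω) : L.VX c a b p q' ω := by
  obtain ⟨u, v, hu1, hv1, c1⟩ := hu
  obtain ⟨u', v', hu1', hv1', c2⟩ := hv
  obtain ⟨x, y, hx1, hy1, c3⟩ := hx
  have i3 : rect a b p' q ∩ L.col c ω ⊆ rect a b p q :=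
    fun z hz => zr8_rect le_rfl le_rfl h1 le_rfl hz.1
  have i3' : rect a b p' q ∩ L.col c ω ⊆ rect a b p' q' :=
    fun z hz => zr8_rect le_rfl le_rfl le_rfl h3 hz.1
  obtain ⟨z, z1, z2⟩ := zr8_meet i3 (fun z hz => hz.1) hx1 hy1 c3 hu1 hv1 c1
  obtain ⟨w, w1, w2⟩ := zr8_meet i3' (fun z hz => hz.1) hx1 hy1 c3 hu1' hv1' c2
  have m1 := zr8_ri (a := a) (b := b) (L.col c ω) le_rfl le_rfl (le_refl p) h3
  have m2 := zr8_ri (a := a) (b := b) (L.col c ω) le_rfl le_rfl h1 (le_refl q')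
  have m3 := zr8_ri (a := a) (b := b) (L.col c ω) le_rfl le_rfl h1 h3
  exact ⟨u, v', hu1, hv1', (z2.mono m1).trans ((z1.symm.mono m3).trans ((w1.mono m3).trans
    ((w2.symm.mono m2).trans (c2.mono m2))))⟩

/-- Harris inequality for three events (`pr_harris` twice) -/
theorem harris3 {A B C : Cfg → Prop} (lA : Loc A) (lB : Loc B) (lC : Loc C) (hA : Inc A)
    (hB : Inc B) (hC : Inc C) : pr A * pr B * pr C ≤ pr (fun ω => A ω ∧ B ω ∧ C ω) := by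
  have h1 := pr_harris lA lB hA hB
  have h2 := pr_harris (lA.and lB) lC (fun ω ω' h hω => ⟨hA ω ω' h hω.1, hB ω ω' h hω.2⟩) hC
  have e : (fun ω => (A ω ∧ B ω) ∧ C ω) = fun ω => A ω ∧ B ω ∧ C ω := by
    funext ω
    exact propext and_assoc
  rw [e] at h2
  exact (mul_le_mul_of_nonneg_right h1 (pr_nonneg C)).trans h2

/-- `harris3`, `glue_hx`, `pr_mono` (`HX.loc`, `HX.mon` with `MonC true = Inc`) -/
theorem pr_glue_hx {a b a' b' p q : ℤ} (h1 : a ≤ a') (h2 : a' ≤ b) (h3 : b ≤ b')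
    (hpq : p ≤ q) : pr (L.HX true a b p q) * pr (L.HX true a' b' p q) *
      pr (L.VX true a' b p q) ≤ pr (L.HX true a b' p q) := by
  refine (harris3 (Lat.HX.loc L true a b p q) (Lat.HX.loc L true a' b' p q)
    (Lat.VX.loc L true a' b p q) (Lat.HX.mon L true a b p q) (Lat.HX.mon L true a' b' p q)
    (Lat.VX.mon L true a' b p q)).trans ?_
  exact pr_mono ((Lat.HX.loc L true a b p q).and ((Lat.HX.loc L true a' b' p q).and
    (Lat.VX.loc L true a' b p q))) (Lat.HX.loc L true a b' p q)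
    fun ω hω => glue_hx h1 h2 h3 hpq hω.1 hω.2.1 hω.2.2

theorem pr_glue_vx {a b p q p' q' : ℤ} (h1 : p ≤ p') (h2 : p' ≤ q) (h3 : q ≤ q')
    (hab : a ≤ b) : pr (L.VX true a b p q) * pr (L.VX true a b p' q') *
      pr (L.HX true a b p' q) ≤ pr (L.VX true a b p q') := by
  refine (harris3 (Lat.VX.loc L true a b p q) (Lat.VX.loc L true a b p' q')
    (Lat.HX.loc L true a b p' q) (Lat.VX.mon L true a b p q) (Lat.VX.mon L true a b p' q')
    (Lat.HX.mon L true a b p' q)).trans ?_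
  exact pr_mono ((Lat.VX.loc L true a b p q).and ((Lat.VX.loc L true a b p' q').and
    (Lat.HX.loc L true a b p' q))) (Lat.VX.loc L true a b p q')
    fun ω hω => glue_vx h1 h2 h3 hab hω.1 hω.2.1 hω.2.2

/-- GLUING OF THE RSW EVENTS, deterministic.  The RSW event, its mirror image and a horizontal crossing of the common rectangle `S = [0,a] × [0,n]`.
Proof.  `XX`: `Q₁ = {z | Cn (rect 0 a 0 n ∩ col) u z}` joins the rows `0`, `n` of `S`, and `u` is joined in `rect 0 m 0 (2n)` to a site of the column `m`.  `XX.via he`: `rfx a` maps `rect 0 a 0 n`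
to itself and `rect 0 m 0 (2n)` to `rect (a - m) a 0 (2n)` (`m ≥ a`): `Q₂` = cluster of `rfx a u'` in `rect 0 a 0 n ∩ col` joins the rows `0`, `n`, and `rfx a u'` is joined in `rect (a-m) a 0 (2n)` to a
site of the column `a - m`.  `Q₃` = cluster of the horizontal crossing joins the columns `0` and `a` of `S`.  By `cross` in `S` it meets `Q₁` and `Q₂`. -/
theorem xx_glue {L' : Lat} {a m n : ℤ} (he : Tr L L' (rfx a)) (ha : 0 ≤ a) (ham : a ≤ m)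
    (hn : 0 ≤ n) {ω : Cfg} (h1 : L.XX a m n ω) (h2 : L'.XX a m n (via (rfx a) ω))
    (h3 : L.HX true 0 a 0 n ω) : L.HX true (a - m) m 0 (2 * n) ω := by
  obtain ⟨u, v, w, hu, hv, hw, c1, c2⟩ := h1
  obtain ⟨u', v', w', hu', hv', hw', c3, c4⟩ := XX.via he h2
  obtain ⟨s, t, hs, ht, c5⟩ := h3
  have e1 : rfx a '' rect 0 a 0 n ⊆ rect 0 a 0 n := by
    rintro _ ⟨z, ⟨⟨z1, z2⟩, z3, z4⟩, rfl⟩
    refine ⟨⟨?_, ?_⟩, z3, z4⟩
    · show 0 ≤ a - z.1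
      omega
    · show a - z.1 ≤ a
      omega
  have e2 : rfx a '' rect 0 m 0 (2 * n) ⊆ rect (a - m) a 0 (2 * n) := by
    rintro _ ⟨z, ⟨⟨z1, z2⟩, z3, z4⟩, rfl⟩
    refine ⟨⟨?_, ?_⟩, z3, z4⟩
    · show a - m ≤ a - z.1
      omega
    · show a - z.1 ≤ a
      omega
  have c3' := c3.mono (Set.inter_subset_inter_left _ e1)
  have c4' := c4.mono (Set.inter_subset_inter_left _ e2)
  obtain ⟨z, z1, z2⟩ := zr8_meet (fun z hz => hz.1) (fun z hz => hz.1) hs ht c5 hu hv c1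
  obtain ⟨z', z1', z2'⟩ := zr8_meet (x := rfx a u') (y := rfx a v') (fun z hz => hz.1)
    (fun z hz => hz.1) hs ht c5 hu' hv' c3'
  have m1 : rect 0 a 0 n ∩ L.col true ω ⊆ rect (a - m) m 0 (2 * n) ∩ L.col true ω :=
    zr8_ri _ (by omega) ham le_rfl (by omega)
  have m2 : rect 0 m 0 (2 * n) ∩ L.col true ω ⊆ rect (a - m) m 0 (2 * n) ∩ L.col true ω :=
    zr8_ri _ (by omega) le_rfl le_rfl le_rfl
  have m3 : rect (a - m) a 0 (2 * n) ∩ L.col true ω ⊆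
      rect (a - m) m 0 (2 * n) ∩ L.col true ω := zr8_ri _ le_rfl ham le_rfl le_rfl
  refine ⟨rfx a w', w, ?_, hw, (c4'.symm.mono m3).trans ((z2'.mono m1).trans
    ((z1'.symm.mono m1).trans ((z1.mono m1).trans ((z2.symm.mono m1).trans (c2.mono m2)))))⟩
  show a - w'.1 = a - m
  rw [hw']

/-- `harris3` (`XX.inc`, `via e` is monotone, locality of `fun ω => A (via e ω)`: see `pr_equiv` / `Dep` with the image set), `pr_via`, `xx_glue`, `pr_mono` -/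
theorem xx_pr {L' : Lat} {a m n : ℤ} (he : Tr L L' (rfx a)) (ha : 0 ≤ a) (ham : a ≤ m)
    (hn : 0 ≤ n) : pr (L.XX a m n) * pr (L'.XX a m n) * pr (L.HX true 0 a 0 n) ≤
      pr (L.HX true (a - m) m 0 (2 * n)) := by
  have l1 := XX.loc L (a := a) (m := m) (n := n) ham hn
  have l2 := XX.loc L' (a := a) (m := m) (n := n) ham hn
  have l2' := zr8_loc l2 (rfx a)
  have l3 := Lat.HX.loc L true 0 a 0 n
  have i2 : Inc fun ω => L'.XX a m n (via (rfx a) ω) :=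
    fun ω ω' h hω => XX.inc L' a m n _ _ (fun v => h (rfx a v)) hω
  rw [← pr_via l2 (rfx a)]
  refine (harris3 l1 l2' l3 (XX.inc L a m n) i2 (Lat.HX.mon L true 0 a 0 n)).trans ?_
  exact pr_mono (l1.and (l2'.and l3)) (Lat.HX.loc L true (a - m) m 0 (2 * n))
    fun ω hω => xx_glue he ha ham hn hω.1 hω.2.1 hω.2.2

end SC

end

/-! ### from `Lib_MP_e0a489.TQ4` -/

section

/-!
# MP_e0a489, module TQ 4: the natural four arm event of the triangular lattice and the index boxes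
-/

set_option autoImplicit false

namespace SC

open Classical

/-- `TwoA` in index boxes implies `RTwo`: `Two.trunc` with `D = ann r' R'`, `X = nb (bx r')`, `Y = rng R'`, `B = TB H₂ J₂`, `I = TB (H₁-2) (J₁-1)`: `hBI`, and `x ∈ nb (bx r') ⊆ nb I ⊆ TB H₁ J₁ ⊆ B` by `TB_nb`,
`TB_mono`; `B \ I ⊆ ann r' R'`; sites of `rng R'` are not in `B ⊆ bx (R' - 1)`. -/
theorem twoA_rtwo {H₁ J₁ H₂ J₂ r' R' : ℤ} (hH2 : H₁ ≤ H₂) (hJ2 : J₁ ≤ J₂)
    (h1 : bx r' ⊆ TB (H₁ - 2) (J₁ - 1)) (h2 : TB H₂ J₂ ⊆ bx (R' - 1)) {ω : Cfg}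
    (h : TL.TwoA true r' R' ω) : RTwo H₁ J₁ H₂ J₂ ω := by
  refine Lat.Two.trunc ?_ ?_ ?_ ?_ h
  · intro u hu v huv
    exact TB_mono hH2 hJ2 (TB_nb hu huv)
  · rintro z ⟨hz, hz'⟩
    have h3 : nrm z ≤ R' - 1 := h2 hz
    refine ⟨?_, by omega⟩
    by_contra h4
    exact hz' (h1 (not_lt.1 h4))
  · rintro x ⟨u, hu, hux⟩ _
    exact ⟨TB_mono hH2 hJ2 (TB_nb (h1 hu) hux), fun _ => ⟨u, h1 hu, hux⟩⟩
  · intro y hy hyB
    have h3 : nrm y ≤ R' - 1 := h2 hyB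
    have h4 : nrm y = R' := hy
    omega

/-- `RFour` implies `TwoA` in smaller index boxes.  First `Two true D X Y ω` with `D = TB H₂ J₂ \ TB (H₁-2) (J₁-1)`, `X = TB H₁ J₁`, `Y = (TB (H₂-2) (J₂-1))ᶜ`: the arms `γ₁`, `γ₃` (`Cn.of_path`); not joined, since an open path (`Cn.path`) from the
head of `γ₁` to the head of `γ₃` contains a site of `γ₂` or `γ₄`, which is closed.  Then `Two.trunc` with `B = bx R'`, `I = bx r'` (`X ⊆ I`; a site of `bx R'` has all neighbours in `bx (R' + 1) ⊆ TB H₂ J₂`, so it is in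
`TB (H₂-2) (J₂-1)` by `TB_int`; `bx R' \ bx r' ⊆ D`).  The new ends are in `rng R'` (`Adj.near`). -/
theorem rfour_twoA {H₁ J₁ H₂ J₂ r' R' : ℤ} (hr : r' < R') (h1 : TB H₁ J₁ ⊆ bx r')
    (h2 : bx (R' + 1) ⊆ TB H₂ J₂) {ω : Cfg} (h : RFour H₁ J₁ H₂ J₂ ω) :
    TL.TwoA true r' R' ω := by
  obtain ⟨γ₁, γ₂, γ₃, γ₄, a1, a2, a3, a4, _, _, hδ⟩ := h
  obtain ⟨x, hx, hxX⟩ := a1.start
  obtain ⟨y, hy, hyY⟩ := a1.fin
  obtain ⟨x', hx', hxX'⟩ := a3.start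
  obtain ⟨y', hy', hyY'⟩ := a3.fin
  have hT : TL.Two true (TB H₂ J₂ \ TB (H₁ - 2) (J₁ - 1)) (TB H₁ J₁)
      ((TB (H₂ - 2) (J₂ - 1))ᶜ) ω := by
    refine ⟨x, hxX, y, hyY, x', hxX', y', hyY', ?_, ?_, ?_⟩
    · exact Lat.Cn.of_path hx hy (fun w hw => ⟨a1.mem w hw, a1.col w hw⟩) a1.chain
    · exact Lat.Cn.of_path hx' hy' (fun w hw => ⟨a3.mem w hw, a3.col w hw⟩) a3.chain
    · intro hc
      obtain ⟨l, _, l2, l3, l4, l5⟩ := hc.path
      obtain ⟨v, hv, hv'⟩ := hδ l l5 (fun w hw => (l4 w hw).1)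
        ⟨x, List.mem_of_mem_head? hx, l2⟩ ⟨x', List.mem_of_mem_head? hx', l3⟩
      have h5 : ω v = true := (l4 v hv).2
      rcases hv' with hv' | hv'
      · have h6 := a2.col v hv'
        rw [h5] at h6
        exact absurd h6 (by decide)
      · have h6 := a4.col v hv'
        rw [h5] at h6
        exact absurd h6 (by decide)
  have hnb : ∀ u v : Pt, TL.Adj u v → nrm v ≤ nrm u + 1 := by
    intro u v huv
    obtain ⟨h3, h4⟩ := Lat.Adj.near huv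
    have h5 : |u.1| ≤ nrm u := le_max_left _ _
    have h6 : |u.2| ≤ nrm u := le_max_right _ _
    rw [abs_le] at h3 h4 h5 h6
    show max |v.1| |v.2| ≤ nrm u + 1
    rw [max_le_iff, abs_le, abs_le]
    omega
  have h3 : TL.Two true (bx R' \ bx r') (TL.nb (bx r'))
      {v | v ∈ bx R' ∧ ∃ u, TL.Adj v u ∧ u ∉ bx R'} ω := by
    refine Lat.Two.trunc ?_ ?_ ?_ ?_ hT
    · intro u hu v huv
      have h4 : nrm u ≤ r' := hu
      have h5 := hnb u v huv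
      show nrm v ≤ R'
      omega
    · rintro z ⟨hz, hz'⟩
      have h4 : nrm z ≤ R' := hz
      refine ⟨h2 (show nrm z ≤ R' + 1 by omega), fun h5 => hz' (h1 ?_)⟩
      exact TB_mono (by omega) (by omega) h5
    · intro z hz _
      have h4 : nrm z ≤ r' := h1 hz
      exact ⟨show nrm z ≤ R' by omega, fun h5 => absurd (h1 hz) h5⟩
    · intro z hz hzB
      have h4 : nrm z ≤ R' := hzB
      refine hz (TB_int (h2 (show nrm z ≤ R' + 1 by omega)) fun u hu => h2 ?_)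
      have h5 := hnb z u hu
      show nrm u ≤ R' + 1
      omega
  have e1 : bx R' \ bx r' = ann r' R' := by
    ext z
    constructor
    · rintro ⟨h4, h5⟩
      exact ⟨not_le.1 h5, h4⟩
    · rintro ⟨h4, h5⟩
      exact ⟨h5, not_le.2 h4⟩
  rw [e1] at h3
  have hY : ∀ v ∈ {v | v ∈ bx R' ∧ ∃ u, TL.Adj v u ∧ u ∉ bx R'}, v ∈ rng R' := by
    rintro v ⟨hv, u, huv, hu⟩
    have h4 : nrm v ≤ R' := hv
    have h5 : ¬ nrm u ≤ R' := hu
    have h6 := hnb v u huv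
    show nrm v = R'
    omega
  obtain ⟨a, ha, b, hb, a', ha', b', hb', c1, c2, c3⟩ := h3
  exact ⟨a, ha, b, hY b hb, a', ha', b', hY b' hb', c1, c2, c3⟩

private theorem tq4_srj (γ : List Pt) : ∃ γ' : List Pt, γ'.map shE = γ := by
  refine ⟨γ.map shE.symm, ?_⟩
  rw [List.map_map]
  have e : (shE ∘ shE.symm : Pt → Pt) = id := by
    funext v
    exact Equiv.apply_symm_apply shE v
  rw [e, List.map_id]

private theorem tq4_path (r R : ℝ) (γ : List Pt) :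
    SCTop.TPath r R γ ↔ (γ.map shE).IsChain TL.Adj ∧ ∀ v ∈ γ.map shE,
      v ∈ TB ⌊2 * R⌋ ⌊2 * R / Real.sqrt 3⌋ ∧
        v ∉ TB (⌊2 * r⌋ - 2) (⌊2 * r / Real.sqrt 3⌋ - 1) := by
  have hch : γ.IsChain SCTop.TAdj ↔ (γ.map shE).IsChain TL.Adj := by
    rw [List.isChain_map]
    have e : SCTop.TAdj = fun a b : Pt => TL.Adj (shE a) (shE b) := by
      funext a b
      exact propext (TAdj_iff a b)
    rw [e]
  have hm : ∀ v : Pt, (SCTop.inBox R v ∧ (¬ SCTop.inBox r v ∨ SCTop.tbd r v)) ↔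
      (shE v ∈ TB ⌊2 * R⌋ ⌊2 * R / Real.sqrt 3⌋ ∧
        shE v ∉ TB (⌊2 * r⌋ - 2) (⌊2 * r / Real.sqrt 3⌋ - 1)) := by
    intro v
    rw [inBox_iff, inBox_iff, tbd_iff]
    refine and_congr_right fun _ => ?_
    constructor
    · rintro (h | h)
      · exact fun h' => h (TB_mono (by omega) (by omega) h')
      · exact h.2
    · intro h
      by_cases h' : shE v ∈ TB ⌊2 * r⌋ ⌊2 * r / Real.sqrt 3⌋
      · exact Or.inr ⟨h', h⟩
      · exact Or.inl h'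
  constructor
  · intro h
    refine ⟨hch.1 h.chain, ?_⟩
    intro w hw
    obtain ⟨v, hv, rfl⟩ := List.mem_map.1 hw
    exact (hm v).1 (h.ann v hv)
  · rintro ⟨h1, h2⟩
    exact ⟨hch.2 h1, fun v hv => (hm v).2 (h2 _ (List.mem_map_of_mem hv))⟩

private theorem tq4_arm (r R : ℝ) (ω : Cfg) (γ : List Pt) (c : Bool) (X : Pt → Prop)
    (hX : ∀ v, SCTop.inBox R v → (X v ↔ ω (shE v) = c)) :
    SCTop.TArm X r R γ ↔ RArm ⌊2 * r⌋ ⌊2 * r / Real.sqrt 3⌋ ⌊2 * R⌋ ⌊2 * R / Real.sqrt 3⌋ c ω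
      (γ.map shE) := by
  constructor
  · intro h
    obtain ⟨h1, h2⟩ := (tq4_path r R γ).1 h.path
    refine ⟨h1, h2, ?_, ?_, ?_⟩
    · intro w hw
      obtain ⟨v, hv, rfl⟩ := List.mem_map.1 hw
      exact (hX v (h.path.ann v hv).1).1 (h.typ v hv)
    · obtain ⟨v, hv, hv'⟩ := h.start
      refine ⟨shE v, ?_, (tbd_iff.1 hv').1⟩
      rw [List.head?_map, hv]
      rfl
    · obtain ⟨v, hv, hv'⟩ := h.fin
      refine ⟨shE v, ?_, (tbd_iff.1 hv').2⟩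
      rw [List.getLast?_map, hv]
      rfl
  · intro h
    have hp := (tq4_path r R γ).2 ⟨h.chain, h.mem⟩
    refine ⟨hp, ?_, ?_, ?_⟩
    · intro v hv
      exact (hX v (hp.ann v hv).1).2 (h.col _ (List.mem_map_of_mem hv))
    · obtain ⟨w, hw, hw'⟩ := h.start
      rw [List.head?_map, Option.map_eq_some_iff] at hw
      obtain ⟨v, hv, rfl⟩ := hw
      exact ⟨v, hv, tbd_iff.2 ⟨hw', (h.mem _ (List.mem_map_of_mem
        (List.mem_of_mem_head? hv))).2⟩⟩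
    · obtain ⟨w, hw, hw'⟩ := h.fin
      rw [List.getLast?_map, Option.map_eq_some_iff] at hw
      obtain ⟨v, hv, rfl⟩ := hw
      exact ⟨v, hv, tbd_iff.2 ⟨(h.mem _ (List.mem_map_of_mem
        (List.mem_of_mem_getLast? hv))).1, hw'⟩⟩

/-- TRANSPORT to the sheared coordinates: lists `γ.map shE` and `γ.map shE.symm` (`List.isChain_map`, `List.head?_map`, `List.getLast?_map`, `List.mem_map`), `TAdj_iff`, `inBox_iff`, `tbd_iff`, `TB_mono`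
(`¬ inBox r v ∨ tbd r v` means `shE v ∉ TB (⌊2r⌋ - 2) (⌊2r/√3⌋ - 1)`); `v ∈ opn (sites R) shE ω ↔ inBox R v ∧ ω (shE v) = true` (`mem_opn`, `mem_sites`). -/
theorem tfour_iff (r R : ℝ) (ω : Cfg) :
    SCTop.tfourArms r R (opn (SCTop.sites R) shE ω) ↔
      RFour ⌊2 * r⌋ ⌊2 * r / Real.sqrt 3⌋ ⌊2 * R⌋ ⌊2 * R / Real.sqrt 3⌋ ω := by
  have hX : ∀ v, SCTop.inBox R v → (v ∈ opn (SCTop.sites R) shE ω ↔ ω (shE v) = true) := by
    intro v hv
    rw [mem_opn, mem_sites]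
    exact ⟨fun h => h.2, fun h => ⟨hv, h⟩⟩
  have hX' : ∀ v, SCTop.inBox R v → (v ∉ opn (SCTop.sites R) shE ω ↔ ω (shE v) = false) := by
    intro v hv
    rw [hX v hv]
    exact Bool.not_eq_true _ ▸ Iff.rfl
  have hA := fun γ => tq4_arm r R ω γ true _ hX
  have hB := fun γ => tq4_arm r R ω γ false _ hX'
  have hmem : ∀ (v : Pt) (γ : List Pt), shE v ∈ γ.map shE ↔ v ∈ γ := by
    intro v γ
    constructor
    · intro h
      obtain ⟨w, hw, e⟩ := List.mem_map.1 h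
      rwa [shE.injective e] at hw
    · exact fun h => List.mem_map_of_mem h
  have hdisj : ∀ γ γ' : List Pt, (γ.map shE).Disjoint (γ'.map shE) ↔ γ.Disjoint γ' := by
    intro γ γ'
    constructor
    · intro h v hv hv'
      exact h ((hmem v γ).2 hv) ((hmem v γ').2 hv')
    · intro h w hw hw'
      obtain ⟨v, hv, rfl⟩ := List.mem_map.1 hw
      exact h hv ((hmem v γ').1 hw')
  have hhead : ∀ δ γ : List Pt, (∃ v ∈ γ.map shE, (δ.map shE).head? = some v) ↔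
      ∃ v ∈ γ, δ.head? = some v := by
    intro δ γ
    constructor
    · rintro ⟨w, hw, h⟩
      rw [List.head?_map, Option.map_eq_some_iff] at h
      obtain ⟨v, hv, rfl⟩ := h
      exact ⟨v, (hmem v γ).1 hw, hv⟩
    · rintro ⟨v, hv, h⟩
      refine ⟨shE v, (hmem v γ).2 hv, ?_⟩
      rw [List.head?_map, h]
      rfl
  have hlast : ∀ δ γ : List Pt, (∃ v ∈ γ.map shE, (δ.map shE).getLast? = some v) ↔
      ∃ v ∈ γ, δ.getLast? = some v := by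
    intro δ γ
    constructor
    · rintro ⟨w, hw, h⟩
      rw [List.getLast?_map, Option.map_eq_some_iff] at h
      obtain ⟨v, hv, rfl⟩ := h
      exact ⟨v, (hmem v γ).1 hw, hv⟩
    · rintro ⟨v, hv, h⟩
      refine ⟨shE v, (hmem v γ).2 hv, ?_⟩
      rw [List.getLast?_map, h]
      rfl
  constructor
  · rintro ⟨γ₁, γ₂, γ₃, γ₄, a1, a2, a3, a4, d1, d2, hδ⟩
    refine ⟨γ₁.map shE, γ₂.map shE, γ₃.map shE, γ₄.map shE, (hA γ₁).1 a1, (hB γ₂).1 a2,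
      (hA γ₃).1 a3, (hB γ₄).1 a4, (hdisj _ _).2 d1, (hdisj _ _).2 d2, ?_⟩
    intro δ hc hm h1 h3
    obtain ⟨δ', rfl⟩ := tq4_srj δ
    obtain ⟨v, hv, hv'⟩ := hδ δ' ((tq4_path r R δ').2 ⟨hc, hm⟩) ((hhead δ' γ₁).1 h1)
      ((hlast δ' γ₃).1 h3)
    exact ⟨shE v, (hmem v δ').2 hv, hv'.imp (hmem v γ₂).2 (hmem v γ₄).2⟩
  · rintro ⟨γ₁, γ₂, γ₃, γ₄, a1, a2, a3, a4, d1, d2, hδ⟩
    obtain ⟨γ₁, rfl⟩ := tq4_srj γ₁
    obtain ⟨γ₂, rfl⟩ := tq4_srj γ₂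
    obtain ⟨γ₃, rfl⟩ := tq4_srj γ₃
    obtain ⟨γ₄, rfl⟩ := tq4_srj γ₄
    refine ⟨γ₁, γ₂, γ₃, γ₄, (hA γ₁).2 a1, (hB γ₂).2 a2, (hA γ₃).2 a3, (hB γ₄).2 a4,
      (hdisj _ _).1 d1, (hdisj _ _).1 d2, ?_⟩
    intro δ hp h1 h3
    obtain ⟨hc, hm⟩ := (tq4_path r R δ).1 hp
    obtain ⟨w, hw, hw'⟩ := hδ (δ.map shE) hc hm ((hhead δ γ₁).2 h1) ((hlast δ γ₃).2 h3)
    obtain ⟨v, hv, rfl⟩ := List.mem_map.1 hw
    exact ⟨v, hv, hw'.imp (hmem v γ₂).1 (hmem v γ₄).1⟩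

end SC

end
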