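import Mathlib
import Pool.Agent.Lib_MP_e0a489_m.G03
import Pool.Agent.Lib_MP_e0a489_m.G11
import Pool.Agent.Lib_MP_e0a489_m.G12
import Pool.Agent.Lib_MP_e0a489_m.G14
import Pool.Agent.Lib_MP_e0a489_m.G17
import Pool.Agent.Lib_MP_e0a489_m.G21
import Pool.Agent.Lib_MP_e0a489_m.G22
import Pool.Agent.Lib_MP_e0a489_m.G25
import Pool.Agent.Lib_MP_e0a489_m.G26

/-!
# MP_e0a489_pr: merged library part G29

Concatenation of library files (each in its own section), only to save build time.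
-/

/-! ### from `Lib_MP_e0a489.OS14` -/

section

/-!
# MP_e0a489, outer separation 14: the two inequalities
-/

set_option autoImplicit false

namespace SC

open Classical

variable {L : Lat} {κ : ℕ → ℝ}

/-- the sets used by the fresh configuration are in `G` (`ib_nrm`, `ob_nrm`, `Fre.dep` with `r := R - w`) -/
theorem os_fre_dep_G (L : Lat) (c : Bool) {r R w M s k s' k' : ℤ} {G : Finset Pt}
    (h : OPar r R w M) (hk : |k| + 2 ≤ M) (hk' : |k'| + 2 ≤ M)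
    (hG : ∀ v, R - w < nrm v → nrm v ≤ R + w → v ∈ G) :
    Dep (L.Fre c (R - w) R w M s k s' k') (G : Set Pt) := by
  have hw0 := h.w0
  have hRw := h.Rw
  refine Lat.Fre.dep L c (by omega) h.od hw0 ?_ ?_ ?_
  · intro v hv
    exact Finset.mem_coe.2 (hG v hv.1 (by have := hv.2; omega))
  · rintro v (hv | hv)
    · have h1 := ib_nrm h.od hw0 h.eR (by omega) hv
      exact Finset.mem_coe.2 (hG v h1.1 (by omega))
    · have h1 := ob_nrm h.od hw0 h.eR (by omega) hv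
      exact Finset.mem_coe.2 (hG v (by omega) h1.2)
  · rintro v (hv | hv)
    · have h1 := ib_nrm h.od hw0 h.eR (by omega) hv
      exact Finset.mem_coe.2 (hG v h1.1 (by omega))
    · have h1 := ob_nrm h.od hw0 h.eR (by omega) hv
      exact Finset.mem_coe.2 (hG v (by omega) h1.2)

/-- `fre_pr` with `r := R - w` -/
theorem os_fre_pr_G (h : RSW L κ) (c : Bool) {r R w M s k s' k' : ℤ} (hP : OPar r R w M) :
    κ (4 * (M.toNat + 3)) ^ 4 * κ 3 ^ 2 ≤ pr (L.Fre c (R - w) R w M s k s' k') := by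
  have hw0 := hP.w0
  have hRw := hP.Rw
  have hM := hP.M2
  have hR := hP.eR
  exact fre_pr h c hP.od hP.w5 (by omega) (by omega) (by omega) (by omega)

/-- STEP 1: `resample_ex` with `R := Rev false (bx R) (bx r)` (`Rev_stop`), `τ = ι = ℤ × ℤ × ℤ × ℤ`, `P t = (t ∈ OTht R w M)`,
`F t = Fre true (R - w) R w M ..`; `os_step1_det`, `os_fre_pr_G`, `os_fre_dep_G`. -/
theorem os_ineq1 (hL : RSW L κ) {r R w M β ℓ : ℤ} (h : OPar r R w M) (hβ : 48 * w ≤ β)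
    (hℓ : 4 * β ≤ ℓ) (hℓR : R / 2 + ℓ < R) {G : Finset Pt}
    (hG : ∀ v, R - w < nrm v → nrm v ≤ R + w → v ∈ G) (ω : Cfg) :
    κ (4 * (M.toNat + 3)) ^ 4 * κ 3 ^ 2 * cpr G (fun ω => L.TwoA true r R ω ∧
        ¬ L.BadW false (ann (R / 2) R) R (4 * β) ℓ β (12 * w) ω) ω ≤
      ∑ q ∈ OTht R w M, cpr G (L.E1o r R w M q.1 q.2.1 q.2.2.1 q.2.2.2) ω := by
  have c1 : ∀ t : ℤ × ℤ × ℤ × ℤ, t ∈ OTht R w M → κ (4 * (M.toNat + 3)) ^ 4 * κ 3 ^ 2 ≤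
      pr (L.Fre true (R - w) R w M t.1 t.2.1 t.2.2.1 t.2.2.2) := fun t _ => os_fre_pr_G hL true h
  have c2 : ∀ t : ℤ × ℤ × ℤ × ℤ, t ∈ OTht R w M →
      Dep (L.Fre true (R - w) R w M t.1 t.2.1 t.2.2.1 t.2.2.2) (G : Set Pt) := by
    intro t ht
    have hp := mem_OTht ht
    have h1 := hp.a₁
    have h3 := hp.a₃
    exact os_fre_dep_G L true h (by omega) (by omega) hG
  have c3 : ∀ ω, (L.TwoA true r R ω ∧
      ¬ L.BadW false (ann (R / 2) R) R (4 * β) ℓ β (12 * w) ω) →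
      ∃ t : ℤ × ℤ × ℤ × ℤ, t ∈ OTht R w M ∧
        ∀ η, L.Fre true (R - w) R w M t.1 t.2.1 t.2.2.1 t.2.2.2 η → ∃ q ∈ OTht R w M,
          L.E1o r R w M q.1 q.2.1 q.2.2.1 q.2.2.2
            (mix G (L.Rev false (bx R) (bx r)) ω η) := by
    rintro ω ⟨hT, hb⟩
    obtain ⟨q, hq, H⟩ := Lat.os_step1_det h hβ hℓ hℓR hT hb
    exact ⟨q, hq, fun η hη => ⟨q, hq, H G hG η hη⟩⟩
  exact resample_ex (R := L.Rev false (bx R) (bx r)) (Lat.Rev_stop L false (bx R) (bx r))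
    (G := G) (ι := ℤ × ℤ × ℤ × ℤ) (τ := ℤ × ℤ × ℤ × ℤ) (I := OTht R w M)
    (E := fun ω => L.TwoA true r R ω ∧ ¬ L.BadW false (ann (R / 2) R) R (4 * β) ℓ β (12 * w) ω)
    (F := fun t => L.Fre true (R - w) R w M t.1 t.2.1 t.2.2.1 t.2.2.2)
    (P := fun t => t ∈ OTht R w M)
    (E' := fun q => L.E1o r R w M q.1 q.2.1 q.2.2.1 q.2.2.2)
    (p := κ (4 * (M.toNat + 3)) ^ 4 * κ 3 ^ 2) c1 c2 c3 ω

/-- STEP 2: `resample_ex` with `R := Rev true D₂ S₂`, `τ = (ℤ × ℤ) × (ℤ × ℤ)`, `I = LamO μ Mc`; `os_step2_det`, `os_fre_pr_G`,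
`os_fre_dep_G`. -/
theorem os_ineq2 (hL : RSW L κ) {r R w μ Mc B s₁ k₁ s₃ k₃ ℓ : ℤ}
    (h : OPar r R w (μ * Mc + μ / 2)) (h' : OPar r R (μ * w) Mc) (hμ : μ = 4 * B + 1)
    (hB : 48 ≤ B) (hP : OPos R (μ * w) Mc s₁ k₁ s₃ k₃) {G : Finset Pt}
    (hG : ∀ v, R - w < nrm v → nrm v ≤ R + w → v ∈ G) (ω : Cfg) :
    κ (4 * ((μ * Mc + μ / 2).toNat + 3)) ^ 4 * κ 3 ^ 2 *
        cpr G (fun ω => L.E1o r R (μ * w) Mc s₁ k₁ s₃ k₃ ω ∧
          ¬ L.BadW false ∅ R 1 ℓ (B * w) (12 * w) ω) ω ≤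
      ∑ q ∈ LamO μ Mc, cpr G (L.E2o r w μ Mc q.1 q.2.1 q.2.2) ω := by
  have c1 : ∀ t : (ℤ × ℤ) × (ℤ × ℤ), (|t.1.2| + 2 ≤ μ * Mc + μ / 2 ∧ |t.2.2| + 2 ≤ μ * Mc + μ / 2) →
      κ (4 * ((μ * Mc + μ / 2).toNat + 3)) ^ 4 * κ 3 ^ 2 ≤
      pr (L.Fre false (R - w) R w (μ * Mc + μ / 2) t.1.1 t.1.2 t.2.1 t.2.2) :=
    fun t _ => os_fre_pr_G hL false h
  have c2 : ∀ t : (ℤ × ℤ) × (ℤ × ℤ), (|t.1.2| + 2 ≤ μ * Mc + μ / 2 ∧ |t.2.2| + 2 ≤ μ * Mc + μ / 2) →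
      Dep (L.Fre false (R - w) R w (μ * Mc + μ / 2) t.1.1 t.1.2 t.2.1 t.2.2) (G : Set Pt) :=
    fun t ht => os_fre_dep_G L false h ht.1 ht.2 hG
  have c3 : ∀ ω, (L.E1o r R (μ * w) Mc s₁ k₁ s₃ k₃ ω ∧
      ¬ L.BadW false ∅ R 1 ℓ (B * w) (12 * w) ω) →
      ∃ t : (ℤ × ℤ) × (ℤ × ℤ), (|t.1.2| + 2 ≤ μ * Mc + μ / 2 ∧ |t.2.2| + 2 ≤ μ * Mc + μ / 2) ∧
        ∀ η, L.Fre false (R - w) R w (μ * Mc + μ / 2) t.1.1 t.1.2 t.2.1 t.2.2 η →
          ∃ q ∈ LamO μ Mc, L.E2o r w μ Mc q.1 q.2.1 q.2.2 (mix G (L.Rev true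
            (OD2 R (μ * w) Mc s₁ k₁ s₃ k₃) (OS2 r (μ * w) Mc s₁ k₁ s₃ k₃)) ω η) := by
    rintro ω ⟨hE, hb⟩
    obtain ⟨t, ht, H⟩ := Lat.os_step2_det h h' hμ hB hP hE hb
    exact ⟨t, ht, fun η hη => H G hG η hη⟩
  exact resample_ex
    (R := L.Rev true (OD2 R (μ * w) Mc s₁ k₁ s₃ k₃) (OS2 r (μ * w) Mc s₁ k₁ s₃ k₃))
    (Lat.Rev_stop L true _ _) (G := G) (τ := (ℤ × ℤ) × (ℤ × ℤ)) (I := LamO μ Mc)
    (E := fun ω => L.E1o r R (μ * w) Mc s₁ k₁ s₃ k₃ ω ∧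
      ¬ L.BadW false ∅ R 1 ℓ (B * w) (12 * w) ω)
    (F := fun t => L.Fre false (R - w) R w (μ * Mc + μ / 2) t.1.1 t.1.2 t.2.1 t.2.2)
    (P := fun t => |t.1.2| + 2 ≤ μ * Mc + μ / 2 ∧ |t.2.2| + 2 ≤ μ * Mc + μ / 2)
    (E' := fun q => L.E2o r w μ Mc q.1 q.2.1 q.2.2)
    (p := κ (4 * ((μ * Mc + μ / 2).toNat + 3)) ^ 4 * κ 3 ^ 2) c1 c2 c3 ω

/-- THE BAD PART.  `E ⊆ D`, `D` does not depend on `G`, `B` depends only on `G`:
`cpr G (E ∧ B) ≤ cpr G (B ∧ D) = av G (ind B * ind D) = ind D * av G (ind B) = ind D * pr B` (`cpr_mono`, `av_mul_left`,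
`cpr_eq_pr`). -/
theorem os_cpr_bad {G : Finset Pt} {E B D : Cfg → Prop} {A : Set Pt} (hD : Dep D A)
    (hA : ∀ v ∈ A, v ∉ G) (hB : Dep B (G : Set Pt)) (hED : ∀ ω, E ω → D ω) (ω : Cfg) :
    cpr G (fun ω => E ω ∧ B ω) ω ≤ pr B * ind D ω := by
  have h1 : cpr G (fun ω => E ω ∧ B ω) ω ≤ cpr G (fun ω => D ω ∧ B ω) ω :=
    cpr_mono fun ω' _ hh => ⟨hED ω' hh.1, hh.2⟩
  have h2 : ind (fun ω => D ω ∧ B ω) = fun ω => ind D ω * ind B ω := by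
    funext ω'
    unfold ind
    by_cases hd : D ω'
    · by_cases hb : B ω'
      · rw [if_pos hd, if_pos hb, if_pos ⟨hd, hb⟩, mul_one]
      · rw [if_pos hd, if_neg hb, if_neg fun hh => hb hh.2, mul_zero]
    · rw [if_neg hd, if_neg fun hh => hd hh.1, zero_mul]
  have h3 : cpr G (fun ω => D ω ∧ B ω) ω = ind D ω * pr B := by
    have h4 : cpr G (fun ω => D ω ∧ B ω) ω = ind D ω * av G (ind B) ω := by
      unfold cpr
      rw [h2]
      exact av_mul_left (g := ind B) hD.ind (fun v hv hA' => hA v hA' hv) ω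
    rw [h4]
    congr 1
    exact cpr_eq_pr hB ω
  rw [h3, mul_comm] at h1
  exact h1

/-- `cpr_mono`, `cpr_or_le` -/
theorem os_cpr_split (G : Finset Pt) (E B : Cfg → Prop) (ω : Cfg) :
    cpr G E ω ≤ cpr G (fun ω => E ω ∧ B ω) ω + cpr G (fun ω => E ω ∧ ¬ B ω) ω := by
  refine le_trans (cpr_mono (B := fun ω => (E ω ∧ B ω) ∨ (E ω ∧ ¬ B ω)) fun ω' _ hE => ?_)
    (cpr_or_le G (fun ω => E ω ∧ B ω) (fun ω => E ω ∧ ¬ B ω) ω)
  by_cases hb : B ω'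
  · exact Or.inl ⟨hE, hb⟩
  · exact Or.inr ⟨hE, hb⟩

end SC

end

/-! ### from `Lib_MP_e0a489.OS9` -/

section

/-!
# MP_e0a489, module OS: separation of arms outward (interface and assembly)
-/

set_option autoImplicit false

namespace SC

open Classical

private theorem os9_ind_nonneg (A : Cfg → Prop) (ω : Cfg) : 0 ≤ ind A ω := by
  unfold ind
  split_ifs <;> norm_num

private theorem os9_ann_finite (r R : ℤ) : (ann r R).Finite := by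
  refine (Set.Finite.subset (Set.Finite.prod (Set.finite_Icc (-R) R) (Set.finite_Icc (-R) R)) ?_)
  rintro v ⟨-, hv⟩
  simp only [nrm, max_le_iff, abs_le] at hv
  exact ⟨⟨hv.1.1, hv.1.2⟩, hv.2.1, hv.2.2⟩

/-- the arithmetic of the assembly -/
private theorem os9_arith {x a b s d S ε ε₂ p₁ p₂ N n : ℝ} (hp₁ : 0 < p₁) (hp₂ : 0 < p₂)
    (hd : 0 ≤ d) (hS : 0 ≤ S) (hN : 0 ≤ N) (hn0 : 0 ≤ n) (hnN : n ≤ N) (hε : 0 < ε)
    (hε₂ : ε₂ = ε * p₁ / (2 * (N + 1))) (h1 : x ≤ a + b) (ha : a ≤ ε / 2 * d)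
    (hb : p₁ * b ≤ s) (hs : s ≤ n * (ε₂ * d + S / p₂)) :
    x ≤ ε * d + (N / (p₁ * p₂) + 1) * S := by
  have hε₂0 : 0 < ε₂ := by rw [hε₂]; positivity
  have h2 : s ≤ N * (ε₂ * d + S / p₂) := by
    refine hs.trans (mul_le_mul_of_nonneg_right hnN ?_)
    positivity
  have h3 : b ≤ N * (ε₂ * d + S / p₂) / p₁ := by
    rw [le_div_iff₀ hp₁]
    linarith
  have h4 : N * ε₂ / p₁ ≤ ε / 2 := by
    rw [hε₂]
    have : N * (ε * p₁ / (2 * (N + 1))) / p₁ = ε / 2 * (N / (N + 1)) := by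
      field_simp
    rw [this]
    have h5 : N / (N + 1) ≤ 1 := by
      rw [div_le_one (by linarith)]
      linarith
    nlinarith
  have h5 : N * (ε₂ * d + S / p₂) / p₁ = N * ε₂ / p₁ * d + N / (p₁ * p₂) * S := by
    field_simp
  rw [h5] at h3
  nlinarith

/-- OUTER SEPARATION.  For every `ε` there are `μ`, `Mc` and a finite set of admissible landing positions such
that, for every odd `w ≥ w₀` and `R = (μ Mc + μ/2) w + w/2`, `8 r ≤ R`, conditionally on the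
configuration off `G = {R/2 < nrm v ≤ R + μ w}`. -/
theorem outer_land_pf (κ : ℕ → ℝ) (ε : ℝ) (hε : 0 < ε) : ∃ (μ Mc w₀ : ℤ) (C : ℝ)
    (Λ : Finset (Bool × (Fin 4 → ℤ) × (Fin 4 → ℤ))), μ % 2 = 1 ∧ 0 < μ ∧ 0 < Mc ∧ 0 < w₀ ∧ 0 < C ∧
    (∀ q ∈ Λ, Land μ (μ * Mc + μ / 2) q.1 q.2.1 q.2.2) ∧
    ∀ L : Lat, RSW L κ → ∀ w r : ℤ, w % 2 = 1 → w₀ ≤ w → 1 ≤ r →
      8 * r ≤ (μ * Mc + μ / 2) * w + w / 2 → ∀ G : Finset Pt,
      (∀ v, v ∈ G ↔ ((μ * Mc + μ / 2) * w + w / 2) / 2 < nrm v ∧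
        nrm v ≤ (μ * Mc + μ / 2) * w + w / 2 + μ * w) → ∀ ω : Cfg,
      cpr G (L.TwoA true r ((μ * Mc + μ / 2) * w + w / 2)) ω ≤
        ε * ind (L.TwoA true r (((μ * Mc + μ / 2) * w + w / 2) / 2)) ω +
          C * ∑ q ∈ Λ, cpr G (L.E2o r w μ Mc q.1 q.2.1 q.2.2) ω := by
  by_cases hκ : ∀ k, 0 < κ k
  swap
  · refine ⟨1, 1, 1, 1, ∅, by norm_num, by norm_num, by norm_num, by norm_num, by norm_num,
      fun q hq => absurd hq (Finset.notMem_empty q), fun L hL => absurd hL.pos hκ⟩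
  obtain ⟨K, B₁, hK, hB₁, hbad1⟩ := bad_small1 κ (ε / 2) (by linarith)
  have hMc : 384 ≤ 2 * K * B₁ := by nlinarith
  set Mc : ℤ := 2 * K * B₁ with hMcdef
  set p₁ : ℝ := κ (4 * (Mc.toNat + 3)) ^ 4 * κ 3 ^ 2 with hp₁def
  have hp₁ : 0 < p₁ := by
    have h1 := hκ (4 * (Mc.toNat + 3))
    have h2 := hκ 3
    positivity
  set N : ℝ := ((OPosF Mc).card : ℝ) with hNdef
  have hN : 0 ≤ N := Nat.cast_nonneg _
  obtain ⟨ℓ, B, hℓ, hB, hbad2⟩ := bad_small2 κ (ε * p₁ / (2 * (N + 1))) (by positivity) Mc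
    (by omega)
  set μ : ℤ := 4 * B + 1 with hμdef
  have hμodd : μ % 2 = 1 := by omega
  have hμ0 : 0 < μ := by omega
  set p₂ : ℝ := κ (4 * ((μ * Mc + μ / 2).toNat + 3)) ^ 4 * κ 3 ^ 2 with hp₂def
  have hp₂ : 0 < p₂ := by
    have h1 := hκ (4 * ((μ * Mc + μ / 2).toNat + 3))
    have h2 := hκ 3
    positivity
  refine ⟨μ, Mc, 5, N / (p₁ * p₂) + 1, LamO μ Mc, hμodd, hμ0, by omega, by norm_num,
    by positivity, fun q hq => (mem_LamO hμ0 q).1 hq, ?_⟩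
  intro L hL w r hw hw5 hr h8 G hG ω
  set R : ℤ := (μ * Mc + μ / 2) * w + w / 2 with hRdef
  have hμw : 5 ≤ μ * w := by nlinarith
  have h' : OPar r R (μ * w) Mc :=
    { od := os_odd_mul' hμodd hw
      w5 := hμw
      M2 := hMc
      eR := os_two_scales hμodd hw
      r1 := hr
      r8 := h8 }
  have h : OPar r R w (μ * Mc + μ / 2) := h'.fine hμodd (by omega) hw hw5
  have hRw := h'.Rw
  have hwμ : w ≤ μ * w := by nlinarith
  have hGc : ∀ v, R - μ * w < nrm v → nrm v ≤ R + μ * w → v ∈ G := by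
    intro v h1 h2
    rw [hG]
    exact ⟨by omega, h2⟩
  have hGf : ∀ v, R - w < nrm v → nrm v ≤ R + w → v ∈ G := by
    intro v h1 h2
    rw [hG]
    exact ⟨by omega, by omega⟩
  have hRe : R = Mc * (μ * w) + μ * w / 2 := h'.eR
  -- the event `D`
  have hDdep : Dep (L.TwoA true r (R / 2)) (ann r (R / 2)) := Lat.TwoA.dep L true r (R / 2)
  have hDG : ∀ v ∈ ann r (R / 2), v ∉ G := by
    intro v hv hvG
    rw [hG] at hvG
    have := hv.2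
    omega
  have hr2 : r < R / 2 := by omega
  -- the coarse bad event
  have hβR : 8 * (B₁ * (μ * w)) ≤ R := by
    have h1 : 8 * B₁ ≤ Mc := by nlinarith
    have h2 : 0 ≤ μ * w / 2 := by omega
    nlinarith
  have hBw : 48 * (μ * w) ≤ B₁ * (μ * w) := by nlinarith
  have hlR : R / 2 + K * (B₁ * (μ * w)) < R := by
    have h1 : R = 2 * (K * (B₁ * (μ * w))) + μ * w / 2 := by
      rw [hRe, hMcdef]
      ring
    have h2 : 2 ≤ μ * w / 2 := by omega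
    omega
  set Bad₁ : Cfg → Prop :=
    L.BadW false (ann (R / 2) R) R (4 * (B₁ * (μ * w))) (K * (B₁ * (μ * w))) (B₁ * (μ * w))
      (12 * (μ * w)) with hBad₁
  have hB1dep : Dep Bad₁ (G : Set Pt) := by
    refine Lat.BadW.dep L (by omega) ?_ (fun h => by simp at h) ?_
    · intro v hv
      rw [Finset.mem_coe, hG]
      exact ⟨hv.1, by have := hv.2; omega⟩
    · intro _ v h1 h2
      rw [Finset.mem_coe, hG]
      exact ⟨by omega, by omega⟩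
  have hB1pr : pr Bad₁ ≤ ε / 2 := by
    have h1 := hbad1 L hL false (ann (R / 2) R) R (μ * w) (os9_ann_finite _ _) (by omega)
      (by omega) (by
        rw [hRe, hMcdef]
        have h2 : μ * w / 2 ≤ μ * w := by omega
        nlinarith)
    rw [hBad₁]
    have e1 : 4 * (B₁ * (μ * w)) = 4 * B₁ * (μ * w) := by ring
    have e2 : K * (B₁ * (μ * w)) = K * B₁ * (μ * w) := by ring
    rw [e1, e2]
    exact h1
  -- the fine bad event
  set Bad₂ : Cfg → Prop := L.BadW false ∅ R 1 ℓ (B * w) (12 * w) with hBad₂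
  have hBwR : 8 * (B * w) ≤ R := by nlinarith
  have hBw1 : 1 ≤ B * w := by nlinarith
  have hB2dep : Dep Bad₂ (G : Set Pt) := by
    refine Lat.BadW.dep L hBw1 (Set.empty_subset _) (fun h => by simp at h) ?_
    intro _ v h1 h2
    rw [Finset.mem_coe, hG]
    exact ⟨by omega, by omega⟩
  have hB2pr : pr Bad₂ ≤ ε * p₁ / (2 * (N + 1)) := by
    refine hbad2 L hL false R w (by omega) (by omega) ?_
    rw [hRe]
    have h2 : μ * w / 2 ≤ μ * w := by omega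
    have h3 : (Mc + 1) * (4 * B + 1) * w = Mc * (μ * w) + μ * w := by rw [hμdef]; ring
    rw [h3]
    omega
  -- the sums
  have hS0 : 0 ≤ ∑ q ∈ LamO μ Mc, cpr G (L.E2o r w μ Mc q.1 q.2.1 q.2.2) ω :=
    Finset.sum_nonneg fun q _ => cpr_nonneg _ _ _
  have hstep : ∀ q ∈ OTht R (μ * w) Mc,
      cpr G (L.E1o r R (μ * w) Mc q.1 q.2.1 q.2.2.1 q.2.2.2) ω ≤
        ε * p₁ / (2 * (N + 1)) * ind (L.TwoA true r (R / 2)) ω +
          (∑ q ∈ LamO μ Mc, cpr G (L.E2o r w μ Mc q.1 q.2.1 q.2.2) ω) / p₂ := by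
    intro q hq
    have hP := mem_OTht hq
    have h1 := os_cpr_split G (L.E1o r R (μ * w) Mc q.1 q.2.1 q.2.2.1 q.2.2.2) Bad₂ ω
    have h2 := os_cpr_bad (E := L.E1o r R (μ * w) Mc q.1 q.2.1 q.2.2.1 q.2.2.2) hDdep hDG hB2dep
      (fun ω' hE => Lat.E1o.two h' hP hE hr2 (by omega)) ω
    have h3 := os_ineq2 hL h h' hμdef hB hP hGf ω (ℓ := ℓ)
    have h4 : pr Bad₂ * ind (L.TwoA true r (R / 2)) ω ≤
        ε * p₁ / (2 * (N + 1)) * ind (L.TwoA true r (R / 2)) ω :=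
      mul_le_mul_of_nonneg_right hB2pr (os9_ind_nonneg _ _)
    have h5 : cpr G (fun ω => L.E1o r R (μ * w) Mc q.1 q.2.1 q.2.2.1 q.2.2.2 ω ∧ ¬ Bad₂ ω) ω ≤
        (∑ q ∈ LamO μ Mc, cpr G (L.E2o r w μ Mc q.1 q.2.1 q.2.2) ω) / p₂ := by
      rw [le_div_iff₀ hp₂, mul_comm]
      exact h3
    linarith
  have hsum := Finset.sum_le_sum hstep
  rw [Finset.sum_const, nsmul_eq_mul] at hsum
  refine os9_arith hp₁ hp₂ (os9_ind_nonneg _ _) hS0 hN (Nat.cast_nonneg _)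
    (Nat.cast_le.2 (card_OTht R (μ * w) Mc)) hε rfl
    (os_cpr_split G (L.TwoA true r R) Bad₁ ω) ?_
    (os_ineq1 hL h' hBw (by nlinarith) hlR hGc ω) hsum
  refine (os_cpr_bad hDdep hDG hB1dep (fun ω' hT => hT.mono (by omega) le_rfl hr2 (by omega)) ω).trans
    (mul_le_mul_of_nonneg_right hB1pr (os9_ind_nonneg _ _))

end SC

end

/-! ### from `Lib_MP_e0a489.RO13` -/

section

/-!
# MP_e0a489, RO 13: the cells of the inward paths
-/

set_option autoImplicit false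

namespace SC

open Classical

private theorem ro13_A {x y h ρ t z : ℤ} (ht : t ≤ 0) (h1 : x - h ≤ z) (h2 : z ≤ x + h) :
    lof x y h ρ t ≤ z ∧ z ≤ hif x y h ρ t := by
  unfold lof hif
  rw [if_pos ht, if_pos ht]
  exact ⟨h1, h2⟩

private theorem ro13_B {x y h ρ t : ℤ} (ht : t ≤ ρ) (hh : 0 ≤ h) :
    lof x y h ρ t ≤ x ∧ x ≤ hif x y h ρ t := by
  unfold lof hif
  split_ifs
  · omega
  · omega
  · exact ⟨min_le_left _ _, le_max_left _ _⟩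
  · omega

private theorem ro13_C {x y h ρ z : ℤ} (hρ : 1 ≤ ρ) (h1 : min x y ≤ z) (h2 : z ≤ max x y) :
    lof x y h ρ ρ ≤ z ∧ z ≤ hif x y h ρ ρ := by
  unfold lof hif
  rw [if_neg (by omega), if_neg (by omega), if_pos rfl, if_neg (by omega), if_neg (by omega),
    if_pos rfl]
  exact ⟨h1, h2⟩

private theorem ro13_D {x y h ρ t : ℤ} (ht : ρ ≤ t) (hρ : 1 ≤ ρ) :
    lof x y h ρ t ≤ y ∧ y ≤ hif x y h ρ t := by
  unfold lof hif
  split_ifs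
  · omega
  · omega
  · exact ⟨min_le_right _ _, le_max_right _ _⟩
  · omega

/-- CELLS OF THE INWARD PATHS.  The level of the ring `m` is `M + 1 - μ - m`.  Same proof as `out_cells`: landing block: rings
`M - 2h ≥ M - μ + 1, ..., M`, levels `≤ 0`; strip: rings `M + 1 - μ - ρ, ..., M`, levels `≤ ρ`; arc: ring `M + 1 - μ - ρ` (`arc_idx`);
final strip: contained in `rt d '' rect (1 w - w/2) (m w + w/2) (0 w - w/2) (0 w + w/2)`, because `r' / 2 + 1 ≥ w - w/2`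
(`2 w ≤ r'`), rings between `1` and `M + 1 - μ - ρ`, levels `≥ ρ`. -/
theorem in_cells {w μ M r' : ℤ} (hw : w % 2 = 1) (hw0 : 0 < w) (hμ : μ % 2 = 1) (hμ0 : 0 < μ)
    {c₀ : Bool} {s k : Fin 4 → ℤ} (hl : Land μ M c₀ s k) (hr' : 2 * w ≤ r') (i : Fin 4) {v : Pt}
    (hv : v ∈ (inP w μ M r' c₀ s k i).reg w) :
    1 ≤ nrm (cel w v) ∧ nrm (cel w v) ≤ M ∧
      ∃ x, loi μ c₀ s k i (nrm (cel w v)) (M + 1 - μ - nrm (cel w v)) ≤ x ∧
        x ≤ hii μ c₀ s k i (nrm (cel w v)) (M + 1 - μ - nrm (cel w v)) ∧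
        rc (nrm (cel w v)) x = cel w v := by
  have hcor := hl.cor i
  obtain ⟨hh0, hh1⟩ := hwd_bd hμ hμ0 c₀ i
  obtain ⟨hr1, hr8⟩ := rki_bd μ c₀ s k i
  have hf := abs_le.1 (le_refl |fpos μ c₀ k i|)
  unfold loi hii
  unfold Pth.reg at hv
  simp only [inP] at hv
  rcases hv with ((hv | hv) | hv) | hv
  · -- landing block
    have hz := (cel_rot hw hw0).1 hv
    obtain ⟨z1, z2, k', k1, k2, hk⟩ := cel_idx (by omega) (by omega) (by omega) hz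
    refine ⟨by omega, z2, _, ?_, ?_, hk⟩
    · exact (ro13_A (by omega) (by linarith) (by linarith)).1
    · exact (ro13_A (by omega) (by linarith) (by linarith)).2
  · -- first strip
    have hz := (cel_rot hw hw0).1 hv
    obtain ⟨z1, z2, k', k1, k2, hk⟩ := cel_idx (by omega) (by omega) (by omega) hz
    have hk' : k' = fpos μ c₀ k i := by omega
    subst hk'
    exact ⟨by omega, z2, _, (ro13_B (by omega) hh0).1, (ro13_B (by omega) hh0).2, hk⟩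
  · -- arc
    obtain ⟨u, hu1, hu2, hv⟩ := hv
    have hz := (cel_rot hw hw0).1 hv
    unfold Pth.ls at hu1 hz
    unfold Pth.us at hu2 hz
    unfold Pth.lk Pth.uk at hz
    simp only at hu1 hu2 hz
    have hm0 : 1 ≤ M + 1 - μ - rki μ c₀ s k i := by omega
    have hfm : |fpos μ c₀ k i| ≤ M + 1 - μ - rki μ c₀ s k i := by omega
    have hfm' := abs_le.1 hfm
    obtain ⟨z1, z2, k', k1, k2, hk⟩ := cel_idx hm0
      (by unfold sgl; split_ifs <;> omega) (by unfold sgu; split_ifs <;> omega) hz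
    have hm : nrm (cel w v) = M + 1 - μ - rki μ c₀ s k i := le_antisymm z2 z1
    have ht : M + 1 - μ - nrm (cel w v) = rki μ c₀ s k i := by omega
    rw [ht]
    have ha := arc_idx (x := 2 * nrm (cel w v) * u + k') hm0 hfm hu1 hu2 k1 k2 (by rw [hm])
    rw [← hm] at ha
    exact ⟨by omega, by omega, _, (ro13_C hr1 ha.1 ha.2).1, (ro13_C hr1 ha.1 ha.2).2, hk⟩
  · -- final strip
    have hv' : v ∈ rt (tgt c₀ i) '' rect (1 * w - w / 2)
        ((M + 1 - μ - rki μ c₀ s k i) * w + w / 2) (0 * w - w / 2) (0 * w + w / 2) := by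
      obtain ⟨x, ⟨⟨x1, x2⟩, x3, x4⟩, rfl⟩ := hv
      exact ⟨x, ⟨⟨by omega, x2⟩, by omega, by omega⟩, rfl⟩
    have hz := (cel_rot hw hw0).1 hv'
    obtain ⟨z1, z2, k', k1, k2, hk⟩ := cel_idx (le_refl 1) (by omega) (by omega) hz
    have hk' : k' = 0 := by omega
    subst hk'
    rw [add_zero] at hk
    refine ⟨z1, by omega, _, (ro13_D (by omega) hr1).1, (ro13_D (by omega) hr1).2, hk⟩

/-- `in_cells` for `i` and `j`, `idx_disj` with `t = M + 1 - μ - m`: `t ≤ 8` means `m ≥ M - μ - 7`. -/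
theorem in_disj {w μ M r' : ℤ} (hw : w % 2 = 1) (hw0 : 0 < w) (hμ : μ % 2 = 1) (hμ0 : 0 < μ)
    {c₀ : Bool} {s k : Fin 4 → ℤ} (hl : Land μ M c₀ s k) (hr' : 2 * w ≤ r') {i j : Fin 4}
    (hij : i ≠ j) :
    Disjoint ((inP w μ M r' c₀ s k i).reg w) ((inP w μ M r' c₀ s k j).reg w) := by
  rw [Set.disjoint_left]
  intro v hi hj
  obtain ⟨a1, a2, x, x1, x2, hx⟩ := in_cells hw hw0 hμ hμ0 hl hr' i hi
  obtain ⟨b1, b2, y, y1, y2, hy⟩ := in_cells hw hw0 hμ hμ0 hl hr' j hj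
  exact idx_disj hμ hμ0 hl a1 (by omega) hij x1 x2 y1 y2 (hx.trans hy.symm)

end SC

end

/-! ### from `Lib_MP_e0a489.XP18` -/

section

/-!
# MP_e0a489, exponents 18: bounds of the three factors (`w = 2 r + 1`)
-/

set_option autoImplicit false

namespace SC

variable [IfL]

namespace XP

open Classical

/-- bounded ratio: `apriori` gives `1 / 9 ≤ (r₁ / r₂) ^ 2 ≤ C al L r₁ r₂` -/
theorem al_ratio (κ : ℕ → ℝ) : ∃ (C : ℝ) (R₀ : ℤ), 1 ≤ C ∧ 16 ≤ R₀ ∧ ∀ L : Lat, Fam L κ →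
    ∀ r₁ r₂ : ℤ, R₀ ≤ r₁ → r₁ ≤ r₂ → r₂ ≤ 3 * r₁ → 1 ≤ C * al L r₁ r₂ := by
  obtain ⟨C, R₀, hC, hR, H⟩ := apriori κ
  refine ⟨max (9 * C) 1, R₀, le_max_right _ _, hR, fun L hL r₁ r₂ h1 h2 h3 => ?_⟩
  have h4 := H L hL r₁ r₂ h1 h2
  have hr1 : (0 : ℝ) < (r₁ : ℝ) := by
    have : (0 : ℤ) < r₁ := by omega
    exact_mod_cast this
  have hr2 : (0 : ℝ) < (r₂ : ℝ) := by
    have : (0 : ℤ) < r₂ := by omega
    exact_mod_cast this
  have h3' : (r₂ : ℝ) ≤ 3 * (r₁ : ℝ) := by exact_mod_cast h3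
  have h5 : (1 / 3 : ℝ) ≤ (r₁ : ℝ) / r₂ := by
    rw [le_div_iff₀ hr2]
    linarith
  have h6 : (1 / 3 : ℝ) ^ 2 ≤ ((r₁ : ℝ) / r₂) ^ 2 := pow_le_pow_left₀ (by norm_num) h5 2
  have h7 : 1 ≤ 9 * C * al L r₁ r₂ := by
    have : (1 / 3 : ℝ) ^ 2 = 1 / 9 := by norm_num
    rw [this] at h6
    linarith
  have h8 : 0 < al L r₁ r₂ := by
    by_contra hcon
    have := mul_nonpos_of_nonneg_of_nonpos (by positivity : (0 : ℝ) ≤ 9 * C) (not_lt.1 hcon)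
    linarith
  exact h7.trans (mul_le_mul_of_nonneg_right (le_max_left _ _) h8.le)

/-- comparison of radii: `AlProps.cmp` for `c = true`, `x = 0` (`twoAt_zero`, `al_lt`) -/
theorem al_cmp (κ : ℕ → ℝ) : ∃ (C : ℝ) (R₀ : ℤ), 1 ≤ C ∧ 16 ≤ R₀ ∧ ∀ L : Lat, Fam L κ →
    ∀ r R r' R' : ℤ, R₀ ≤ r → R₀ ≤ r' → r < R → r ≤ 2 * r' → r' ≤ R' → R' ≤ 4 * R →
      al L r R ≤ C * al L r' R' := by
  obtain ⟨C, R₀, H⟩ := al_props κ
  refine ⟨max C 1, max R₀ 16, le_max_right _ _, le_max_right _ _,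
    fun L hL r R r' R' h1 h2 h3 h4 h5 h6 => ?_⟩
  have hA := H L hL
  have hr : R₀ ≤ r := (le_max_left _ _).trans h1
  have hr' : R₀ ≤ r' := (le_max_left _ _).trans h2
  have h7 := hA.cmp true 0 r R r' R' hr hr' h3.le h4 h5 h6
  rw [twoAt_zero] at h7
  rw [al_lt h3]
  exact h7.trans (mul_le_mul_of_nonneg_right (le_max_left _ _) (hA.pos r' R' hr' h5).le)

/-- positivity of the four arm probability -/
private theorem xp18_pos (κ : ℕ → ℝ) : ∃ R₀ : ℤ, 16 ≤ R₀ ∧ ∀ L : Lat, Fam L κ →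
    ∀ r R : ℤ, R₀ ≤ r → r ≤ R → 0 < al L r R := by
  obtain ⟨C, R₀, H⟩ := al_props κ
  exact ⟨max R₀ 16, le_max_right _ _, fun L hL r R h1 h2 =>
    (H L hL).pos r R ((le_max_left _ _).trans h1) h2⟩

/-- `a ≤ C b` gives `a ^ e ≤ C b ^ e` for `0 ≤ e ≤ 1`, `1 ≤ C` -/
private theorem xp18_pow {a b C e : ℝ} (ha : 0 ≤ a) (hb : 0 ≤ b) (hC : 1 ≤ C) (he : 0 ≤ e)
    (he1 : e ≤ 1) (h : a ≤ C * b) : a ^ e ≤ C * b ^ e := by
  have hC0 : 0 ≤ C := by linarith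
  calc a ^ e ≤ (C * b) ^ e := Real.rpow_le_rpow ha h he
    _ = C ^ e * b ^ e := Real.mul_rpow hC0 hb
    _ ≤ C * b ^ e := by
        refine mul_le_mul_of_nonneg_right ?_ (Real.rpow_nonneg hb e)
        calc C ^ e ≤ C ^ (1 : ℝ) := Real.rpow_le_rpow_of_exponent_le hC he1
          _ = C := Real.rpow_one C

/-- the arithmetic of the two cases -/
private theorem xp18_arith {r i j : ℤ} (hr : 1 ≤ r) (hi : 0 ≤ i) (hij : i ≤ j) :
    (i + 1) * (2 * r + 1) ≤ (j + 1) * (2 * r + 1) ∧ r ≤ i * (2 * r + 1) + r ∧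
    2 * (i * (2 * r + 1) + r) ≤ 2 * ((i + 1) * (2 * r + 1)) ∧
    (j + 1) * (2 * r + 1) ≤ 4 * (j * (2 * r + 1) + r) ∧ r ≤ (i + 1) * (2 * r + 1) ∧
    (¬ 2 * (i * (2 * r + 1) + r) < j * (2 * r + 1) + r →
      (j + 1) * (2 * r + 1) ≤ 3 * ((i + 1) * (2 * r + 1))) := by
  have hw : (0 : ℤ) ≤ 2 * r + 1 := by omega
  have e1 : (i + 1) * (2 * r + 1) = i * (2 * r + 1) + 2 * r + 1 := by ring
  have e2 : (j + 1) * (2 * r + 1) = j * (2 * r + 1) + 2 * r + 1 := by ring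
  have hiw : 0 ≤ i * (2 * r + 1) := mul_nonneg hi hw
  have hjw : i * (2 * r + 1) ≤ j * (2 * r + 1) := mul_le_mul_of_nonneg_right hij hw
  refine ⟨by omega, by omega, by omega, by omega, by omega, fun h => ?_⟩
  have h1 : j ≤ 2 * i := by
    by_contra hcon
    have h2 : (2 * i + 1) * (2 * r + 1) ≤ j * (2 * r + 1) :=
      mul_le_mul_of_nonneg_right (by omega) hw
    have h3 : (2 * i + 1) * (2 * r + 1) = 2 * (i * (2 * r + 1)) + 2 * r + 1 := by ring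
    omega
  have h4 : (j + 1) * (2 * r + 1) ≤ (3 * (i + 1)) * (2 * r + 1) :=
    mul_le_mul_of_nonneg_right (by omega) hw
  have h5 : (3 * (i + 1)) * (2 * r + 1) = 3 * ((i + 1) * (2 * r + 1)) := by ring
  omega

/-- BULK.  `i ≥ 1`: `AlProps.cmp` (`(i + 1) w ≤ 4 (i w + r)`).  `i = 0`: the premise is false, `1 ≤ C al L r w` by `al_ratio` (`w ≤ 3 r`). -/
theorem fac_bulk (κ : ℕ → ℝ) : ∃ (C : ℝ) (R₀ : ℤ), 1 ≤ C ∧ 16 ≤ R₀ ∧ ∀ L : Lat, Fam L κ →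
    ∀ (x : Pt) (r i : ℤ), R₀ ≤ r → 0 ≤ i →
      (if r < i * (2 * r + 1) + r then pr (L.TwoAt true x r (i * (2 * r + 1) + r)) else 1) ≤
        C * al L r ((i + 1) * (2 * r + 1)) := by
  obtain ⟨C₁, R₁, H⟩ := al_props κ
  obtain ⟨C₂, R₂, hC₂, hR₂, H₂⟩ := al_ratio κ
  refine ⟨max C₁ C₂, max R₁ R₂, hC₂.trans (le_max_right _ _), hR₂.trans (le_max_right _ _),
    fun L hL x r i hr hi => ?_⟩
  have hA := H L hL
  have hr1 : R₁ ≤ r := (le_max_left _ _).trans hr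
  have hr2 : R₂ ≤ r := (le_max_right _ _).trans hr
  have hr16 : 16 ≤ r := hR₂.trans hr2
  obtain ⟨a1, a2, a3, a4, a5, a6⟩ := xp18_arith (r := r) (i := i) (j := i) (by omega) hi le_rfl
  have hpos := (hA.pos r ((i + 1) * (2 * r + 1)) hr1 a5).le
  split_ifs with h
  · exact (hA.cmp true x r (i * (2 * r + 1) + r) r ((i + 1) * (2 * r + 1)) hr1 hr1 h.le (by omega)
      a5 a4).trans (mul_le_mul_of_nonneg_right (le_max_left _ _) hpos)
  · have hi0 : i = 0 := by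
      by_contra hcon
      have h1 : 1 * (2 * r + 1) ≤ i * (2 * r + 1) :=
        mul_le_mul_of_nonneg_right (by omega) (by omega)
      omega
    subst hi0
    exact (H₂ L hL r ((0 + 1) * (2 * r + 1)) hr2 a5 (by omega)).trans
      (mul_le_mul_of_nonneg_right (le_max_right _ _) hpos)

/-- SIDE.  `h = i w + r`, `h₂ = j w + r`.  If `2 h < h₂`: `half_le` and `al L (2 h) h₂ ≤ C al L ((i+1) w) ((j+1) w)` (`al_cmp`: `2 h ≤ 2 (i+1) w`,
`(j+1) w ≤ 4 h₂`), `Real.rpow_le_rpow`.  If `h₂ ≤ 2 h` then `j ≤ 2 i`, `(j+1) w ≤ 2 (i+1) w` and `al_ratio` gives `1 ≤ C al`, so `1 ≤ (C al) ^ (3/4)`. -/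
theorem fac_side (κ : ℕ → ℝ) : ∃ (C : ℝ) (R₀ : ℤ), 1 ≤ C ∧ 16 ≤ R₀ ∧ ∀ L : Lat, Fam L κ →
    ∀ (s : ℤ) (x : Pt) (c : Bool) (r i j : ℤ), R₀ ≤ r → 0 ≤ i → i ≤ j →
      (if 2 * (i * (2 * r + 1) + r) < j * (2 * r + 1) + r then
        pr (((L.rots s).shift x).TwoH c {v | 0 ≤ v.2} (2 * (i * (2 * r + 1) + r))
          (j * (2 * r + 1) + r)) else 1) ≤
        C * (al L ((i + 1) * (2 * r + 1)) ((j + 1) * (2 * r + 1))) ^ ((3 : ℝ) / 4) := by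
  obtain ⟨C₁, R₁, hC₁, hR₁, H₁⟩ := half_le κ
  obtain ⟨C₂, R₂, hC₂, hR₂, H₂⟩ := al_ratio κ
  obtain ⟨C₃, R₃, hC₃, hR₃, H₃⟩ := al_cmp κ
  obtain ⟨R₄, hR₄, H₄⟩ := xp18_pos κ
  refine ⟨max (C₁ * C₃) C₂, max (max R₁ R₂) (max R₃ R₄), hC₂.trans (le_max_right _ _),
    hR₁.trans ((le_max_left _ _).trans (le_max_left _ _)),
    fun L hL s x c r i j hr hi hij => ?_⟩
  have hr1 : R₁ ≤ r := ((le_max_left _ _).trans (le_max_left _ _)).trans hr
  have hr2 : R₂ ≤ r := ((le_max_right _ _).trans (le_max_left _ _)).trans hr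
  have hr3 : R₃ ≤ r := ((le_max_left _ _).trans (le_max_right _ _)).trans hr
  have hr4 : R₄ ≤ r := ((le_max_right _ _).trans (le_max_right _ _)).trans hr
  obtain ⟨a1, a2, a3, a4, a5, a6⟩ := xp18_arith (r := r) (i := i) (j := j) (by omega) hi hij
  have hpos : 0 < al L ((i + 1) * (2 * r + 1)) ((j + 1) * (2 * r + 1)) :=
    H₄ L hL _ _ (hr4.trans a5) a1
  have hpw := Real.rpow_nonneg hpos.le ((3 : ℝ) / 4)
  split_ifs with h
  · have h1 := H₁ L hL s x c {v | 0 ≤ v.2} (2 * (i * (2 * r + 1) + r)) (j * (2 * r + 1) + r)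
      ⟨fun v hv => le_trans (by norm_num) (show (1 : ℤ) ≤ v.2 from hv), fun v hv => hv⟩
      (by omega) h.le
    have h2 := H₃ L hL (2 * (i * (2 * r + 1) + r)) (j * (2 * r + 1) + r)
      ((i + 1) * (2 * r + 1)) ((j + 1) * (2 * r + 1)) (by omega) (hr3.trans a5) h a3 a1 a4
    have h3 := xp18_pow (e := (3 : ℝ) / 4) (H₄ L hL (2 * (i * (2 * r + 1) + r))
      (j * (2 * r + 1) + r) (by omega) h.le).le hpos.le hC₃ (by norm_num) (by norm_num) h2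
    calc pr (((L.rots s).shift x).TwoH c {v | 0 ≤ v.2} (2 * (i * (2 * r + 1) + r))
          (j * (2 * r + 1) + r)) ≤ C₁ * (al L (2 * (i * (2 * r + 1) + r))
          (j * (2 * r + 1) + r)) ^ ((3 : ℝ) / 4) := h1
      _ ≤ C₁ * (C₃ * (al L ((i + 1) * (2 * r + 1)) ((j + 1) * (2 * r + 1))) ^ ((3 : ℝ) / 4)) :=
          mul_le_mul_of_nonneg_left h3 hC₁.le
      _ = C₁ * C₃ * (al L ((i + 1) * (2 * r + 1)) ((j + 1) * (2 * r + 1))) ^ ((3 : ℝ) / 4) := by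
          ring
      _ ≤ _ := mul_le_mul_of_nonneg_right (le_max_left _ _) hpw
  · have h1 := H₂ L hL _ _ (hr2.trans a5) a1 (a6 h)
    have h2 := xp18_pow (e := (3 : ℝ) / 4) (by norm_num : (0 : ℝ) ≤ 1) hpos.le hC₂ (by norm_num)
      (by norm_num) h1
    rw [Real.one_rpow] at h2
    exact h2.trans (mul_le_mul_of_nonneg_right (le_max_right _ _) hpw)

/-- CORNER: the same with `quart_le` and the exponent `1/2`. -/
theorem fac_corner (κ : ℕ → ℝ) : ∃ (C : ℝ) (R₀ : ℤ), 1 ≤ C ∧ 16 ≤ R₀ ∧ ∀ L : Lat, Fam L κ →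
    ∀ (s : ℤ) (x : Pt) (r j M : ℤ), R₀ ≤ r → 0 ≤ j → j ≤ M →
      (if 2 * (j * (2 * r + 1) + r) < M * (2 * r + 1) + r then
        pr (((L.rots s).shift x).TwoQ {v | 0 ≤ v.1 ∧ 0 ≤ v.2} (2 * (j * (2 * r + 1) + r))
          (M * (2 * r + 1) + r)) else 1) ≤
        C * (al L ((j + 1) * (2 * r + 1)) ((M + 1) * (2 * r + 1))) ^ ((1 : ℝ) / 2) := by
  obtain ⟨C₁, R₁, hC₁, hR₁, H₁⟩ := quart_le κ
  obtain ⟨C₂, R₂, hC₂, hR₂, H₂⟩ := al_ratio κ
  obtain ⟨C₃, R₃, hC₃, hR₃, H₃⟩ := al_cmp κ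
  obtain ⟨R₄, hR₄, H₄⟩ := xp18_pos κ
  refine ⟨max (C₁ * C₃) C₂, max (max R₁ R₂) (max R₃ R₄), hC₂.trans (le_max_right _ _),
    hR₁.trans ((le_max_left _ _).trans (le_max_left _ _)),
    fun L hL s x r i j hr hi hij => ?_⟩
  have hr1 : R₁ ≤ r := ((le_max_left _ _).trans (le_max_left _ _)).trans hr
  have hr2 : R₂ ≤ r := ((le_max_right _ _).trans (le_max_left _ _)).trans hr
  have hr3 : R₃ ≤ r := ((le_max_left _ _).trans (le_max_right _ _)).trans hr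
  have hr4 : R₄ ≤ r := ((le_max_right _ _).trans (le_max_right _ _)).trans hr
  obtain ⟨a1, a2, a3, a4, a5, a6⟩ := xp18_arith (r := r) (i := i) (j := j) (by omega) hi hij
  have hpos : 0 < al L ((i + 1) * (2 * r + 1)) ((j + 1) * (2 * r + 1)) :=
    H₄ L hL _ _ (hr4.trans a5) a1
  have hpw := Real.rpow_nonneg hpos.le ((1 : ℝ) / 2)
  split_ifs with h
  · have h1 := H₁ L hL s x {v | 0 ≤ v.1 ∧ 0 ≤ v.2} (2 * (i * (2 * r + 1) + r))
      (j * (2 * r + 1) + r)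
      ⟨fun v hv => ⟨le_trans (by norm_num) (show (1 : ℤ) ≤ v.1 from hv.1),
        le_trans (by norm_num) (show (1 : ℤ) ≤ v.2 from hv.2)⟩, fun v hv => hv⟩
      (by omega) h.le
    have h2 := H₃ L hL (2 * (i * (2 * r + 1) + r)) (j * (2 * r + 1) + r)
      ((i + 1) * (2 * r + 1)) ((j + 1) * (2 * r + 1)) (by omega) (hr3.trans a5) h a3 a1 a4
    have h3 := xp18_pow (e := (1 : ℝ) / 2) (H₄ L hL (2 * (i * (2 * r + 1) + r))
      (j * (2 * r + 1) + r) (by omega) h.le).le hpos.le hC₃ (by norm_num) (by norm_num) h2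
    calc pr (((L.rots s).shift x).TwoQ {v | 0 ≤ v.1 ∧ 0 ≤ v.2} (2 * (i * (2 * r + 1) + r))
          (j * (2 * r + 1) + r)) ≤ C₁ * (al L (2 * (i * (2 * r + 1) + r))
          (j * (2 * r + 1) + r)) ^ ((1 : ℝ) / 2) := h1
      _ ≤ C₁ * (C₃ * (al L ((i + 1) * (2 * r + 1)) ((j + 1) * (2 * r + 1))) ^ ((1 : ℝ) / 2)) :=
          mul_le_mul_of_nonneg_left h3 hC₁.le
      _ = C₁ * C₃ * (al L ((i + 1) * (2 * r + 1)) ((j + 1) * (2 * r + 1))) ^ ((1 : ℝ) / 2) := by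
          ring
      _ ≤ _ := mul_le_mul_of_nonneg_right (le_max_left _ _) hpw
  · have h1 := H₂ L hL _ _ (hr2.trans a5) a1 (a6 h)
    have h2 := xp18_pow (e := (1 : ℝ) / 2) (by norm_num : (0 : ℝ) ≤ 1) hpos.le hC₂ (by norm_num)
      (by norm_num) h1
    rw [Real.one_rpow] at h2
    exact h2.trans (mul_le_mul_of_nonneg_right (le_max_right _ _) hpw)

/-- Pure calculation: `x, y, z > 0`, `x y ≤ C u`, `u z ≤ C v` (quasi-multiplicativity), `p ^ 2 ≤ C y`, `q ^ 2 ≤ C z` with `0 < p, q`.  Then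
`x y ^ (3/4) z ^ (1/2) = x y z y ^ (-1/4) z ^ (-1/2) ≤ C ^ 2 v (C / p ^ 2) ^ (1/4) (C / q ^ 2) ^ (1/2) = C ^ (11/4) v p ^ (-1/2) q ^ (-1)`, and
`C ^ (11/4) ≤ C ^ 3` (`C ≥ 1`). -/
theorem comb {x y z u v p q C : ℝ} (hx : 0 < x) (hy : 0 < y) (hz : 0 < z) (hv : 0 < v)
    (hC : 1 ≤ C) (hp : 0 < p) (hq : 0 < q) (h1 : x * y ≤ C * u) (h2 : u * z ≤ C * v)
    (h3 : p ^ 2 ≤ C * y) (h4 : q ^ 2 ≤ C * z) :
    x * y ^ ((3 : ℝ) / 4) * z ^ ((1 : ℝ) / 2) ≤ C ^ 3 * (v * ((1 / p) ^ ((1 : ℝ) / 2) * (1 / q))) := by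
  have hC0 : 0 < C := by linarith
  have hp2 : 0 < p ^ ((1 : ℝ) / 2) := Real.rpow_pos_of_pos hp _
  -- the first factor
  have e1 : p ^ ((1 : ℝ) / 2) ≤ C ^ ((1 : ℝ) / 4) * y ^ ((1 : ℝ) / 4) := by
    have : p ^ ((1 : ℝ) / 2) = (p ^ 2) ^ ((1 : ℝ) / 4) := by
      rw [← Real.rpow_natCast p 2, ← Real.rpow_mul hp.le]
      norm_num
    rw [this, ← Real.mul_rpow hC0.le hy.le]
    exact Real.rpow_le_rpow (by positivity) h3 (by norm_num)
  have e2 : y ^ ((3 : ℝ) / 4) * p ^ ((1 : ℝ) / 2) ≤ C ^ ((1 : ℝ) / 4) * y := by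
    have h5 : y ^ ((3 : ℝ) / 4) * y ^ ((1 : ℝ) / 4) = y := by
      rw [← Real.rpow_add hy]
      norm_num
    calc y ^ ((3 : ℝ) / 4) * p ^ ((1 : ℝ) / 2)
        ≤ y ^ ((3 : ℝ) / 4) * (C ^ ((1 : ℝ) / 4) * y ^ ((1 : ℝ) / 4)) :=
          mul_le_mul_of_nonneg_left e1 (Real.rpow_nonneg hy.le _)
      _ = C ^ ((1 : ℝ) / 4) * (y ^ ((3 : ℝ) / 4) * y ^ ((1 : ℝ) / 4)) := by ring
      _ = C ^ ((1 : ℝ) / 4) * y := by rw [h5]
  -- the second factor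
  have e3 : q ≤ C ^ ((1 : ℝ) / 2) * z ^ ((1 : ℝ) / 2) := by
    have : q = (q ^ 2) ^ ((1 : ℝ) / 2) := by
      rw [← Real.rpow_natCast q 2, ← Real.rpow_mul hq.le]
      norm_num
    rw [this, ← Real.mul_rpow hC0.le hz.le]
    exact Real.rpow_le_rpow (by positivity) h4 (by norm_num)
  have e4 : z ^ ((1 : ℝ) / 2) * q ≤ C ^ ((1 : ℝ) / 2) * z := by
    have h5 : z ^ ((1 : ℝ) / 2) * z ^ ((1 : ℝ) / 2) = z := by
      rw [← Real.rpow_add hz]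
      norm_num
    calc z ^ ((1 : ℝ) / 2) * q ≤ z ^ ((1 : ℝ) / 2) * (C ^ ((1 : ℝ) / 2) * z ^ ((1 : ℝ) / 2)) :=
          mul_le_mul_of_nonneg_left e3 (Real.rpow_nonneg hz.le _)
      _ = C ^ ((1 : ℝ) / 2) * (z ^ ((1 : ℝ) / 2) * z ^ ((1 : ℝ) / 2)) := by ring
      _ = C ^ ((1 : ℝ) / 2) * z := by rw [h5]
  have e5 : C ^ ((1 : ℝ) / 4) * C ^ ((1 : ℝ) / 2) ≤ C := by
    rw [← Real.rpow_add hC0]
    calc C ^ ((1 : ℝ) / 4 + 1 / 2) ≤ C ^ (1 : ℝ) :=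
          Real.rpow_le_rpow_of_exponent_le hC (by norm_num)
      _ = C := Real.rpow_one C
  have e6 : x * y * z ≤ C ^ 2 * v := by
    calc x * y * z ≤ C * u * z := mul_le_mul_of_nonneg_right h1 hz.le
      _ = C * (u * z) := by ring
      _ ≤ C * (C * v) := mul_le_mul_of_nonneg_left h2 hC0.le
      _ = C ^ 2 * v := by ring
  have e7 : (x * y ^ ((3 : ℝ) / 4) * z ^ ((1 : ℝ) / 2)) * (p ^ ((1 : ℝ) / 2) * q) ≤ C ^ 3 * v := by
    calc (x * y ^ ((3 : ℝ) / 4) * z ^ ((1 : ℝ) / 2)) * (p ^ ((1 : ℝ) / 2) * q)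
        = x * ((y ^ ((3 : ℝ) / 4) * p ^ ((1 : ℝ) / 2)) * (z ^ ((1 : ℝ) / 2) * q)) := by ring
      _ ≤ x * ((C ^ ((1 : ℝ) / 4) * y) * (C ^ ((1 : ℝ) / 2) * z)) := by
          refine mul_le_mul_of_nonneg_left (mul_le_mul e2 e4 ?_ ?_) hx.le
          · exact mul_nonneg (Real.rpow_nonneg hz.le _) hq.le
          · exact mul_nonneg (Real.rpow_nonneg hC0.le _) hy.le
      _ = (C ^ ((1 : ℝ) / 4) * C ^ ((1 : ℝ) / 2)) * (x * y * z) := by ring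
      _ ≤ C * (C ^ 2 * v) :=
          mul_le_mul e5 e6 (by positivity) hC0.le
      _ = C ^ 3 * v := by ring
  have e8 : (1 / p) ^ ((1 : ℝ) / 2) = 1 / p ^ ((1 : ℝ) / 2) := by
    rw [Real.div_rpow (by norm_num) hp.le, Real.one_rpow]
  rw [e8]
  have e9 : C ^ 3 * (v * (1 / p ^ ((1 : ℝ) / 2) * (1 / q))) =
      (C ^ 3 * v) / (p ^ ((1 : ℝ) / 2) * q) := by
    field_simp
  rw [e9, le_div_iff₀ (mul_pos hp2 hq)]
  exact e7

/-- BOUND FOR `Jb`.  `N = M w + r`, `h = i w + r`, `N - |t| = j w + r`.  `Jb_pr`, `fac_bulk`, `fac_side`, `fac_corner`, then `comb` with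
`x = al r ((i+1) w)`, `y = al ((i+1) w) ((j+1) w)`, `z = al ((j+1) w) ((M+1) w)`, `u = al r ((j+1) w)`, `v = al r ((M+1) w)` (`AlProps.qmult`, `AlProps.pos`),
`p = (i+1) / (j+1)`, `q = (j+1) / (M+1)` (`apriori`): `p ^ (-1/2) q ^ (-1) = (M+1) (1/(1+i)) ^ (1/2) (1/(1+j)) ^ (1/2)`. -/
theorem Jb_le (κ : ℕ → ℝ) : ∃ (C : ℝ) (R₀ : ℤ), 1 ≤ C ∧ 16 ≤ R₀ ∧ ∀ L : Lat, Fam L κ →
    ∀ (r M i j s t : ℤ), R₀ ≤ r → 0 ≤ i → i ≤ j → j ≤ M → |t| = (M - j) * (2 * r + 1) →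
      pr (Jb L (M * (2 * r + 1) + r) r s t (i * (2 * r + 1) + r)) ≤
        C * (al L r ((M + 1) * (2 * r + 1)) * (((M : ℝ) + 1) *
          ((1 / (1 + (i : ℝ))) ^ ((1 : ℝ) / 2) * (1 / (1 + (j : ℝ))) ^ ((1 : ℝ) / 2)))) := by
  obtain ⟨C₁, R₁, hC₁, hR₁, H₁⟩ := fac_bulk κ
  obtain ⟨C₂, R₂, hC₂, hR₂, H₂⟩ := fac_side κ
  obtain ⟨C₃, R₃, hC₃, hR₃, H₃⟩ := fac_corner κ
  obtain ⟨C₄, R₄, hC₄, hR₄, H₄⟩ := apriori κ
  obtain ⟨C₅, R₅, H₅⟩ := al_props κ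
  have hCm : 1 ≤ max (max C₄ C₅) 1 := le_max_right _ _
  have hC1' : 0 ≤ C₁ := by linarith
  have hC2' : 0 ≤ C₂ := by linarith
  have hC3' : 0 ≤ C₃ := by linarith
  refine ⟨C₁ * C₂ * C₃ * (max (max C₄ C₅) 1) ^ 3, max (max R₁ R₂) (max R₃ (max R₄ R₅)), ?_,
    hR₁.trans ((le_max_left _ _).trans (le_max_left _ _)),
    fun L hL r M i j s t hr hi hij hjM ht => ?_⟩
  · exact one_le_mul_of_one_le_of_one_le
      (one_le_mul_of_one_le_of_one_le (one_le_mul_of_one_le_of_one_le hC₁ hC₂) hC₃)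
      (one_le_pow₀ hCm)
  have hr1 : R₁ ≤ r := ((le_max_left _ _).trans (le_max_left _ _)).trans hr
  have hr2 : R₂ ≤ r := ((le_max_right _ _).trans (le_max_left _ _)).trans hr
  have hr3 : R₃ ≤ r := ((le_max_left _ _).trans (le_max_right _ _)).trans hr
  have hr4 : R₄ ≤ r :=
    (((le_max_left _ _).trans (le_max_right _ _)).trans (le_max_right _ _)).trans hr
  have hr5 : R₅ ≤ r :=
    (((le_max_right _ _).trans (le_max_right _ _)).trans (le_max_right _ _)).trans hr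
  have hr16 : 16 ≤ r := hR₁.trans hr1
  have hA := H₅ L hL
  obtain ⟨a1, a2, a3, a4, a5, a6⟩ := xp18_arith (r := r) (i := i) (j := j) (by omega) hi hij
  obtain ⟨b1, b2, b3, b4, b5, b6⟩ := xp18_arith (r := r) (i := j) (j := M) (by omega)
    (hi.trans hij) hjM
  have hw : (0 : ℤ) ≤ 2 * r + 1 := by omega
  have hN : M * (2 * r + 1) + r - |t| = j * (2 * r + 1) + r := by
    rw [ht]
    ring
  have hht : |t| ≤ M * (2 * r + 1) + r - (i * (2 * r + 1) + r) := by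
    have h1 : i * (2 * r + 1) ≤ j * (2 * r + 1) := mul_le_mul_of_nonneg_right hij hw
    have h2 : (M - j) * (2 * r + 1) = M * (2 * r + 1) - j * (2 * r + 1) := by ring
    rw [ht, h2]
    omega
  have hh0 : 0 ≤ i * (2 * r + 1) + r := by omega
  have key := Jb_pr L (N := M * (2 * r + 1) + r) (r := r) (s := s) (t := t)
    (h := i * (2 * r + 1) + r) hh0 hht
  rw [hN] at key
  have k1 := H₁ L hL (rt s (t, i * (2 * r + 1) + r - (M * (2 * r + 1) + r))) r i hr1 hi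
  have k2 := H₂ L hL s (t, -(M * (2 * r + 1) + r)) (decide (s % 2 = 0)) r i j hr2 hi hij
  have k3 := H₃ L hL (cnr s t) (-(M * (2 * r + 1) + r), -(M * (2 * r + 1) + r)) r j M hr3
    (hi.trans hij) hjM
  have hx : 0 < al L r ((i + 1) * (2 * r + 1)) := hA.pos _ _ hr5 a5
  have hy : 0 < al L ((i + 1) * (2 * r + 1)) ((j + 1) * (2 * r + 1)) :=
    hA.pos _ _ (hr5.trans a5) a1
  have hz : 0 < al L ((j + 1) * (2 * r + 1)) ((M + 1) * (2 * r + 1)) :=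
    hA.pos _ _ (hr5.trans b5) b1
  have hv : 0 < al L r ((M + 1) * (2 * r + 1)) := hA.pos _ _ hr5 (b5.trans b1)
  have hu : 0 < al L r ((j + 1) * (2 * r + 1)) := hA.pos _ _ hr5 b5
  have hy' := Real.rpow_nonneg hy.le ((3 : ℝ) / 4)
  have hz' := Real.rpow_nonneg hz.le ((1 : ℝ) / 2)
  have hi' : (0 : ℝ) ≤ (i : ℝ) := by exact_mod_cast hi
  have hj' : (0 : ℝ) ≤ (j : ℝ) := by exact_mod_cast (hi.trans hij)
  have hM' : (0 : ℝ) ≤ (M : ℝ) := by exact_mod_cast ((hi.trans hij).trans hjM)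
  have hwR : (0 : ℝ) < 2 * (r : ℝ) + 1 := by
    have : (0 : ℤ) < 2 * r + 1 := by omega
    exact_mod_cast this
  have hCle : ∀ {a : ℝ}, 0 ≤ a → C₅ * a ≤ max (max C₄ C₅) 1 * a := fun ha =>
    mul_le_mul_of_nonneg_right ((le_max_right _ _).trans (le_max_left _ _)) ha
  have hCle4 : ∀ {a : ℝ}, 0 ≤ a → C₄ * a ≤ max (max C₄ C₅) 1 * a := fun ha =>
    mul_le_mul_of_nonneg_right ((le_max_left _ _).trans (le_max_left _ _)) ha
  have p1 : (((i : ℝ) + 1) / ((j : ℝ) + 1)) ^ 2 ≤ max (max C₄ C₅) 1 *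
      al L ((i + 1) * (2 * r + 1)) ((j + 1) * (2 * r + 1)) := by
    have h1 := H₄ L hL ((i + 1) * (2 * r + 1)) ((j + 1) * (2 * r + 1)) (hr4.trans a5) a1
    have h2 : ((((i + 1) * (2 * r + 1) : ℤ) : ℝ) / (((j + 1) * (2 * r + 1) : ℤ) : ℝ)) =
        ((i : ℝ) + 1) / ((j : ℝ) + 1) := by
      push_cast
      exact mul_div_mul_right _ _ hwR.ne'
    rw [h2] at h1
    exact h1.trans (hCle4 hy.le)
  have p2 : (((j : ℝ) + 1) / ((M : ℝ) + 1)) ^ 2 ≤ max (max C₄ C₅) 1 *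
      al L ((j + 1) * (2 * r + 1)) ((M + 1) * (2 * r + 1)) := by
    have h1 := H₄ L hL ((j + 1) * (2 * r + 1)) ((M + 1) * (2 * r + 1)) (hr4.trans b5) b1
    have h2 : ((((j + 1) * (2 * r + 1) : ℤ) : ℝ) / (((M + 1) * (2 * r + 1) : ℤ) : ℝ)) =
        ((j : ℝ) + 1) / ((M : ℝ) + 1) := by
      push_cast
      exact mul_div_mul_right _ _ hwR.ne'
    rw [h2] at h1
    exact h1.trans (hCle4 hz.le)
  have q1 := (hA.qmult r ((i + 1) * (2 * r + 1)) ((j + 1) * (2 * r + 1)) hr5 a5 a1).trans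
    (hCle hu.le)
  have q2 := (hA.qmult r ((j + 1) * (2 * r + 1)) ((M + 1) * (2 * r + 1)) hr5 b5 b1).trans
    (hCle hv.le)
  have fin := comb hx hy hz hv hCm (by positivity : 0 < ((i : ℝ) + 1) / ((j : ℝ) + 1))
    (by positivity : 0 < ((j : ℝ) + 1) / ((M : ℝ) + 1)) q1 q2 p1 p2
  have e1 : (1 / (((i : ℝ) + 1) / ((j : ℝ) + 1))) ^ ((1 : ℝ) / 2) *
      (1 / (((j : ℝ) + 1) / ((M : ℝ) + 1))) = ((M : ℝ) + 1) *
          ((1 / (1 + (i : ℝ))) ^ ((1 : ℝ) / 2) * (1 / (1 + (j : ℝ))) ^ ((1 : ℝ) / 2)) := by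
    have hj1 : (0 : ℝ) < (j : ℝ) + 1 := by linarith
    have hi1 : (0 : ℝ) < (i : ℝ) + 1 := by linarith
    have h1 : (1 / (((i : ℝ) + 1) / ((j : ℝ) + 1))) = (1 / (1 + (i : ℝ))) * ((j : ℝ) + 1) := by
      rw [one_div_div, add_comm 1 (i : ℝ)]
      ring
    have h2 : (1 / (((j : ℝ) + 1) / ((M : ℝ) + 1))) = ((M : ℝ) + 1) * (1 / (1 + (j : ℝ))) := by
      rw [one_div_div, add_comm 1 (j : ℝ)]
      ring
    have h3 : ((j : ℝ) + 1) ^ ((1 : ℝ) / 2) * (1 / (1 + (j : ℝ))) =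
        (1 / (1 + (j : ℝ))) ^ ((1 : ℝ) / 2) := by
      rw [add_comm 1 (j : ℝ), Real.div_rpow (by norm_num) hj1.le, Real.one_rpow]
      have h4 : ((j : ℝ) + 1) = ((j : ℝ) + 1) ^ ((1 : ℝ) / 2) * ((j : ℝ) + 1) ^ ((1 : ℝ) / 2) := by
        rw [← Real.rpow_add hj1]
        norm_num
      have h5 : 0 < ((j : ℝ) + 1) ^ ((1 : ℝ) / 2) := Real.rpow_pos_of_pos hj1 _
      rw [mul_one_div, div_eq_div_iff hj1.ne' h5.ne', one_mul]
      exact h4.symm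
    rw [h1, h2, Real.mul_rpow (by positivity) hj1.le, ← h3]
    ring
  rw [e1] at fin
  refine key.trans ?_
  have hB0 : 0 ≤ (if 2 * (i * (2 * r + 1) + r) < j * (2 * r + 1) + r then
      pr (((L.rots s).shift (t, -(M * (2 * r + 1) + r))).TwoH (decide (s % 2 = 0))
        {v | 0 ≤ v.2} (2 * (i * (2 * r + 1) + r)) (j * (2 * r + 1) + r)) else 1) := by
    split_ifs
    · exact pr_nonneg _
    · norm_num
  have hD0 : 0 ≤ (if 2 * (j * (2 * r + 1) + r) < M * (2 * r + 1) + r then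
      pr (((L.rots (cnr s t)).shift (-(M * (2 * r + 1) + r), -(M * (2 * r + 1) + r))).TwoQ
        {v | 0 ≤ v.1 ∧ 0 ≤ v.2} (2 * (j * (2 * r + 1) + r)) (M * (2 * r + 1) + r)) else 1) := by
    split_ifs
    · exact pr_nonneg _
    · norm_num
  refine (mul_le_mul (mul_le_mul k1 k2 hB0 (mul_nonneg hC1' hx.le)) k3 hD0
    (mul_nonneg (mul_nonneg hC1' hx.le) (mul_nonneg hC2' hy'))).trans ?_
  calc C₁ * al L r ((i + 1) * (2 * r + 1)) *
        (C₂ * al L ((i + 1) * (2 * r + 1)) ((j + 1) * (2 * r + 1)) ^ ((3 : ℝ) / 4)) *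
        (C₃ * al L ((j + 1) * (2 * r + 1)) ((M + 1) * (2 * r + 1)) ^ ((1 : ℝ) / 2))
      = C₁ * C₂ * C₃ * (al L r ((i + 1) * (2 * r + 1)) *
        al L ((i + 1) * (2 * r + 1)) ((j + 1) * (2 * r + 1)) ^ ((3 : ℝ) / 4) *
        al L ((j + 1) * (2 * r + 1)) ((M + 1) * (2 * r + 1)) ^ ((1 : ℝ) / 2)) := by ring
    _ ≤ C₁ * C₂ * C₃ * ((max (max C₄ C₅) 1) ^ 3 * (al L r ((M + 1) * (2 * r + 1)) *
        (((M : ℝ) + 1) * ((1 / (1 + (i : ℝ))) ^ ((1 : ℝ) / 2) *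
          (1 / (1 + (j : ℝ))) ^ ((1 : ℝ) / 2))))) :=
        mul_le_mul_of_nonneg_left fin (mul_nonneg (mul_nonneg hC1' hC2') hC3')
    _ = _ := by ring

end XP

end SC

end

/-! ### from `Lib_MP_e0a489.XP19` -/

section

/-!
# MP_e0a489, exponents 19: sum of the block influences, many pivotal blocks
-/

set_option autoImplicit false

namespace SC

variable [IfL]

namespace XP

open Classical

/-- Every site is `rt s (t, -n)` with `n = nrm z`, `|t| ≤ n` (it lies on one of the four sides of the ring of radius `n`), and `|t|` is the smaller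
absolute value of the coordinates.  (Cases `z.2 = -n`, `z.1 = n`, `z.2 = n`, `z.1 = -n`: `s = 0, 1, 2, 3`.) -/
theorem exists_side (z : Pt) : ∃ s t : ℤ, z = rt s (t, -nrm z) ∧ |t| ≤ nrm z ∧
    ((|z.1| = nrm z ∧ |z.2| = |t|) ∨ (|z.2| = nrm z ∧ |z.1| = |t|)) := by
  obtain ⟨x, y⟩ := z
  have r0 : ∀ a b : ℤ, rt 0 (a, b) = (a, b) := fun a b => rt_zero (a, b)
  have r1 : ∀ a b : ℤ, rt 1 (a, b) = (-b, a) := fun a b => rt_one (a, b)
  have r2 : ∀ a b : ℤ, rt 2 (a, b) = (-a, -b) := fun a b => rt_two (a, b)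
  have r3 : ∀ a b : ℤ, rt 3 (a, b) = (b, -a) := fun a b => rt_three (a, b)
  by_cases h : |x| ≤ |y|
  · have hn : nrm (x, y) = |y| := max_eq_right h
    rw [hn]
    by_cases hy : y ≤ 0
    · refine ⟨0, x, ?_, h, Or.inr ⟨rfl, rfl⟩⟩
      rw [r0, abs_of_nonpos hy, neg_neg]
    · refine ⟨2, -x, ?_, by rw [abs_neg]; exact h, Or.inr ⟨rfl, by rw [abs_neg]⟩⟩
      rw [r2, abs_of_pos (not_le.1 hy), neg_neg, neg_neg]
  · have h' : |y| ≤ |x| := (not_le.1 h).le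
    have hn : nrm (x, y) = |x| := max_eq_left h'
    rw [hn]
    by_cases hx : 0 ≤ x
    · refine ⟨1, y, ?_, h', Or.inl ⟨rfl, rfl⟩⟩
      rw [r1, abs_of_nonneg hx, neg_neg]
    · refine ⟨3, -y, ?_, by rw [abs_neg]; exact h', Or.inl ⟨rfl, by rw [abs_neg]⟩⟩
      rw [r3, abs_of_neg (not_le.1 hx), neg_neg, neg_neg]

/-- `rt s` commutes with multiplication by an integer -/
theorem rt_mul (s k a b : ℤ) : rt s (a * k, b * k) = ((rt s (a, b)).1 * k, (rt s (a, b)).2 * k) := by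
  have h4 : rt s = rt (s % 4) := rt_mod (by omega)
  have h : s % 4 = 0 ∨ s % 4 = 1 ∨ s % 4 = 2 ∨ s % 4 = 3 := by omega
  rw [h4]
  rcases h with h | h | h | h <;> rw [h]
  · rw [rt_zero, rt_zero]
  · rw [rt_one, rt_one]
    simp
  · rw [rt_two, rt_two]
    simp
  · rw [rt_three, rt_three]
    simp

/-- INFLUENCE OF THE BLOCK `z`, `|z| ≤ M`.  `exists_side`: `z = rt s (t₀, -n)`, `n = nrm z`; `i = M - n`, `j = M - |t₀|`, `t = t₀ w`, `h = i w + r`, `N = M w + r`;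
the centre of the block is `rt s (t, h - N)` (`rt_mul`).  `infl_le` with `J = Jb L N r s t h`: if `ω`, `ω'` agree off the block (`blk_bxAt`, `coe_blkF`) and the
crossing holds for exactly one of them, `Jb_piv` gives `Jb ω`.  Then `Jb_le`; `{i, j} = {M - |z.1|, M - |z.2|}`. -/
theorem infl_z (κ : ℕ → ℝ) : ∃ (C : ℝ) (R₀ : ℤ), 1 ≤ C ∧ 16 ≤ R₀ ∧ ∀ L : Lat, Fam L κ →
    ∀ (r M : ℤ) (z : Pt), R₀ ≤ r → nrm z ≤ M → ∀ F : Finset Pt,
      (F : Set Pt) = bx (M * (2 * r + 1) + r) →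
      ∑ S ∈ F.powerset.filter (fun S => ¬ Disjoint S (blkF (2 * r + 1) z)),
        fc (ind (L.HX true (-(M * (2 * r + 1) + r)) (M * (2 * r + 1) + r)
          (-(M * (2 * r + 1) + r)) (M * (2 * r + 1) + r))) S ^ 2 ≤
        C * (al L r ((M + 1) * (2 * r + 1)) * (((M : ℝ) + 1) *
          ((1 / (1 + ((M - |z.1| : ℤ) : ℝ))) ^ ((1 : ℝ) / 2) *
            (1 / (1 + ((M - |z.2| : ℤ) : ℝ))) ^ ((1 : ℝ) / 2)))) := by
  obtain ⟨C, R₀, hC, hR₀, H⟩ := Jb_le κ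
  refine ⟨C, R₀, hC, hR₀, ?_⟩
  intro L hL r M z hr hz F hF
  obtain ⟨s, t₀, hzs, ht₀, hcase⟩ := exists_side z
  have hn0 : 0 ≤ nrm z := le_trans (abs_nonneg _) (le_max_left _ _)
  have ht0 : 0 ≤ |t₀| := abs_nonneg _
  have hr0 : 0 ≤ r := by omega
  set n : ℤ := nrm z with hn
  set w : ℤ := 2 * r + 1 with hw
  have hw0 : 0 < w := by omega
  set N : ℤ := M * w + r with hN
  set i : ℤ := M - n with hi
  set j : ℤ := M - |t₀| with hj
  set h : ℤ := i * w + r with hh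
  have hi0 : 0 ≤ i := by omega
  have hij : i ≤ j := by omega
  have hjM : j ≤ M := by omega
  have htw : |t₀ * w| = (M - j) * w := by
    rw [abs_mul, abs_of_pos hw0, hj]
    ring
  have hhN : h - N = -n * w := by
    rw [hh, hN, hi]
    ring
  have hcen : rt s (t₀ * w, h - N) = (z.1 * w, z.2 * w) := by
    rw [hhN, rt_mul, ← hzs]
  have hrh : r ≤ h := by
    have := mul_nonneg hi0 hw0.le
    omega
  have htN : |t₀ * w| ≤ N - h := by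
    have h1 : (M - j) * w ≤ n * w := mul_le_mul_of_nonneg_right (by omega) hw0.le
    have h2 : N - h = n * w := by
      rw [hh, hN, hi]
      ring
    rw [htw, h2]
    exact h1
  have hdep : Dep (L.HX true (-N) N (-N) N) (F : Set Pt) := by
    have := Lat.HX.dep L true (-N) N (-N) N
    rw [hF, bx_rect5]
    exact this
  have key := infl_le hdep (Jb_loc L N r s (t₀ * w) h) (blkF w z) (fun ω ω' hag hJ => by
    have hag' : ∀ v, r < nrm (v - rt s (t₀ * w, h - N)) → ω v = ω' v := by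
      intro v hv
      refine hag v (fun hvB => ?_)
      have h1 : v ∈ ((blkF w z : Finset Pt) : Set Pt) := hvB
      rw [coe_blkF, hw, blk_bxAt, ← hw, ← hcen] at h1
      have h2 : nrm (v - rt s (t₀ * w, h - N)) ≤ r := h1
      omega
    constructor
    · intro h1
      by_contra h2
      exact hJ (Jb_piv hr0 hrh htN hag' h1 h2).1
    · intro h1
      by_contra h2
      exact hJ (Jb_piv hr0 hrh htN (fun v hv => (hag' v hv).symm) h1 h2).2)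
  refine key.trans ?_
  have key2 := H L hL r M i j s (t₀ * w) hr hi0 hij hjM (by rw [htw])
  refine key2.trans (le_of_eq ?_)
  rcases hcase with ⟨h1, h2⟩ | ⟨h1, h2⟩
  · rw [h1, h2]
  · rw [h1, h2, mul_comm ((1 / (1 + (i : ℝ))) ^ ((1 : ℝ) / 2))]

/-- SUM OF THE INFLUENCES: `sum_blks`, `infl_z` (`F = (blks M w).biUnion id`, `blks_union`, `w / 2 = r`), `sum_bd`. -/
theorem infl_sum (κ : ℕ → ℝ) : ∃ (C : ℝ) (R₀ : ℤ), 1 ≤ C ∧ 16 ≤ R₀ ∧ ∀ L : Lat, Fam L κ →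
    ∀ r M : ℤ, R₀ ≤ r → 0 ≤ M →
      ∑ B ∈ blks M (2 * r + 1), ∑ S ∈ ((blks M (2 * r + 1)).biUnion id).powerset.filter
          (fun S => ¬ Disjoint S B),
        fc (ind (L.HX true (-(M * (2 * r + 1) + r)) (M * (2 * r + 1) + r)
          (-(M * (2 * r + 1) + r)) (M * (2 * r + 1) + r))) S ^ 2 ≤
        C * (((M : ℝ) + 1) ^ 2 * al L r ((M + 1) * (2 * r + 1))) := by
  obtain ⟨C, R₀, hC, hR₀, H⟩ := infl_z κ
  refine ⟨16 * C, R₀, by linarith, hR₀, ?_⟩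
  intro L hL r M hr hM
  have hw : (2 * r + 1) % 2 = 1 := by omega
  have hw0 : 0 < 2 * r + 1 := by omega
  have hw2 : (2 * r + 1) / 2 = r := by omega
  have hF : (((blks M (2 * r + 1)).biUnion id : Finset Pt) : Set Pt) =
      bx (M * (2 * r + 1) + r) := by
    rw [blks_union hw hw0, hw2]
  rw [sum_blks hw hw0]
  have h1 : ∀ z ∈ rectF (-M) M (-M) M,
      ∑ S ∈ ((blks M (2 * r + 1)).biUnion id).powerset.filter
          (fun S => ¬ Disjoint S (blkF (2 * r + 1) z)),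
        fc (ind (L.HX true (-(M * (2 * r + 1) + r)) (M * (2 * r + 1) + r)
          (-(M * (2 * r + 1) + r)) (M * (2 * r + 1) + r))) S ^ 2 ≤
        (C * al L r ((M + 1) * (2 * r + 1))) * (((M : ℝ) + 1) *
          ((1 / (1 + ((M - |z.1| : ℤ) : ℝ))) ^ ((1 : ℝ) / 2) *
            (1 / (1 + ((M - |z.2| : ℤ) : ℝ))) ^ ((1 : ℝ) / 2))) := by
    intro z hz
    refine (H L hL r M z hr (mem_rectF_nrm.1 hz) _ hF).trans (le_of_eq ?_)
    ring
  refine (Finset.sum_le_sum h1).trans ?_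
  rw [← Finset.mul_sum]
  have h2 := sum_bd hM
  have hal : 0 ≤ al L r ((M + 1) * (2 * r + 1)) := by
    unfold al
    split_ifs
    · exact pr_nonneg _
    · exact zero_le_one
  refine (mul_le_mul_of_nonneg_left h2 (mul_nonneg (by linarith) hal)).trans (le_of_eq ?_)
  ring

/-- `δ`: for every block the average over the columns `u w`, `|u| ≤ M`, of the probability to be explored: `Rb_pr`, `sum_col'`, `card = 2 M + 1`. -/
theorem delta_bd (κ : ℕ → ℝ) : ∃ C c : ℝ, 0 < C ∧ 0 < c ∧ c ≤ 1 / 2 ∧ ∀ L : Lat, RSW L κ →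
    ∀ r M : ℤ, 1 ≤ r → 0 ≤ M → ∀ B ∈ blks M (2 * r + 1),
      ∑ u ∈ Finset.Icc (-M) M, pr (fun ω => B ∈ L.Rb M (2 * r + 1) (u * (2 * r + 1)) ω) ≤
        C * (2 * (M : ℝ) + 1) ^ (-c) * (Finset.Icc (-M) M).card := by
  obtain ⟨C, c, hC, hc, hc2, H⟩ := Rb_pr κ
  refine ⟨4 * C, c, by linarith, hc, hc2, ?_⟩
  intro L hL r M hr hM B hB
  have hw : (2 * r + 1) % 2 = 1 := by omega
  have hw0 : 0 < 2 * r + 1 := by omega
  obtain ⟨z, hz, rfl⟩ := Finset.mem_image.1 hB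
  have hzM : |z.1| ≤ M := le_trans (le_max_left _ _) (mem_rectF_nrm.1 hz)
  have h1 : ∑ u ∈ Finset.Icc (-M) M,
      pr (fun ω => blkF (2 * r + 1) z ∈ L.Rb M (2 * r + 1) (u * (2 * r + 1)) ω) ≤
      ∑ u ∈ Finset.Icc (-M) M, C * (1 / (1 + ((|z.1 - u| : ℤ) : ℝ))) ^ c := by
    refine Finset.sum_le_sum fun u hu => ?_
    rw [Finset.mem_Icc] at hu
    exact H L hL M (2 * r + 1) u z hw hw0 (abs_le.2 hu)
  refine h1.trans ?_
  rw [← Finset.mul_sum]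
  have h2 := sum_col' hc.le hc2 hzM
  have hMr : (0 : ℝ) ≤ M := by exact_mod_cast hM
  have hcard : ((Finset.Icc (-M) M).card : ℝ) = 2 * (M : ℝ) + 1 := by
    rw [Int.card_Icc]
    have h3 : (((M + 1 - -M).toNat : ℕ) : ℤ) = 2 * M + 1 := by
      rw [Int.toNat_of_nonneg (by omega)]
      ring
    have h4 : ((((M + 1 - -M).toNat : ℕ) : ℤ) : ℝ) = ((2 * M + 1 : ℤ) : ℝ) := by rw [h3]
    push_cast at h4
    exact h4
  have hpos : (0 : ℝ) < 2 * (M : ℝ) + 1 := by linarith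
  refine (mul_le_mul_of_nonneg_left h2 hC.le).trans (le_of_eq ?_)
  rw [hcard, show (1 : ℝ) - c = -c + 1 by ring, Real.rpow_add hpos, Real.rpow_one]
  ring

/-- The variance of the crossing of a square is bounded below: `κ 1 ≤ pr`, `κ 1 ≤ 1 - pr` (`RSW.hx'`, `RSW.vx'`, `not_hx`, `pr_not`). -/
theorem var_sq {L : Lat} {κ : ℕ → ℝ} (h : RSW L κ) {N : ℤ} (hN : 4 ≤ N) :
    κ 1 ^ 2 ≤ ex (fun ω => ind (L.HX true (-N) N (-N) N) ω ^ 2) -
      ex (ind (L.HX true (-N) N (-N) N)) ^ 2 := by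
  have hp : κ 1 ≤ pr (L.HX true (-N) N (-N) N) :=
    h.hx' le_rfl true (by omega) (by omega) (by push_cast; omega)
  have hq : κ 1 ≤ 1 - pr (L.HX true (-N) N (-N) N) := by
    rw [← pr_not (Lat.HX.loc L true (-N) N (-N) N)]
    have e : (fun ω => ¬ L.HX true (-N) N (-N) N ω) = L.VX false (-N) N (-N) N := by
      funext ω
      exact propext (Lat.not_hx (by omega) (by omega) true ω)
    rw [e]
    exact h.vx' le_rfl false (by omega) (by omega) (by push_cast; omega)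
  have e2 : (fun ω => ind (L.HX true (-N) N (-N) N) ω ^ 2) = ind (L.HX true (-N) N (-N) N) := by
    funext ω
    unfold ind
    split_ifs <;> norm_num
  have e3 : ex (ind (L.HX true (-N) N (-N) N)) = pr (L.HX true (-N) N (-N) N) := rfl
  rw [e2, e3]
  have hk := h.pos 1
  nlinarith

/-- MANY PIVOTAL BLOCKS: `many_pivotal` for `𝓑 = blks M w` (`blks_disj`), `U = Finset.Icc (-M) M`, `R u = L.Rb M w (u w)` (`Rb_stop`, `Rb_hx`; `|u w| ≤ M w + r`),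
`δ` from `delta_bd`, and `var_sq`, `infl_sum`. -/
theorem many (κ : ℕ → ℝ) : ∃ (C C' c : ℝ) (R₀ : ℤ), 1 ≤ C ∧ 0 < C' ∧ 0 < c ∧ c ≤ 1 / 2 ∧
    16 ≤ R₀ ∧ ∀ L : Lat, Fam L κ → ∀ r M : ℤ, R₀ ≤ r → 0 ≤ M → ∀ K : ℕ,
      K * (κ 1 ^ 2 - (K : ℝ) ^ 2 * (C' * (2 * (M : ℝ) + 1) ^ (-c))) ≤
        C * (((M : ℝ) + 1) ^ 2 * al L r ((M + 1) * (2 * r + 1))) := by
  obtain ⟨C, R₀, hC, hR₀, H⟩ := infl_sum κ
  obtain ⟨C', c, hC', hc, hc2, H'⟩ := delta_bd κ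
  refine ⟨C, C', c, R₀, hC, hC', hc, hc2, hR₀, ?_⟩
  intro L hL r M hr hM K
  have hw : (2 * r + 1) % 2 = 1 := by omega
  have hw0 : 0 < 2 * r + 1 := by omega
  have hw2 : (2 * r + 1) / 2 = r := by omega
  have hMr : (0 : ℝ) ≤ M := by exact_mod_cast hM
  set N : ℤ := M * (2 * r + 1) + r with hN
  have hMw : 0 ≤ M * (2 * r + 1) := mul_nonneg hM hw0.le
  have hN4 : 4 ≤ N := by omega
  have hu : ∀ u ∈ Finset.Icc (-M) M, |u * (2 * r + 1)| ≤ M * (2 * r + 1) + (2 * r + 1) / 2 := by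
    intro u hu
    rw [Finset.mem_Icc] at hu
    rw [abs_mul, abs_of_pos hw0, hw2]
    have := mul_le_mul_of_nonneg_right (abs_le.2 hu) hw0.le
    omega
  have key := many_pivotal (𝓑 := blks M (2 * r + 1)) (blks_disj hw hw0)
    (U := Finset.Icc (-M) M) ⟨0, by rw [Finset.mem_Icc]; omega⟩
    (R := fun u => L.Rb M (2 * r + 1) (u * (2 * r + 1)))
    (fun u h => Rb_stop hw hw0 (hu u h)) (f := ind (L.HX true (-N) N (-N) N))
    (fun ω => by unfold ind; split_ifs <;> norm_num) (fun ω => by unfold ind; split_ifs <;> norm_num)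
    (by
      have h1 := (Lat.HX.dep L true (-N) N (-N) N).ind
      rw [blks_union hw hw0, hw2, ← hN, bx_rect5]
      exact h1)
    (fun u h ω ω' h' => by
      have h1 := Rb_hx (L := L) hw hw0 (hu u h) (ω := ω) (ω' := ω') h'
      rw [hw2, ← hN] at h1
      exact h1)
    (δ := C' * (2 * (M : ℝ) + 1) ^ (-c)) (by positivity)
    (fun B hB => H' L hL.rsw r M (by omega) hM B hB) K
  refine le_trans ?_ (key.trans (H L hL r M hr hM))
  have hv := var_sq hL.rsw hN4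
  refine mul_le_mul_of_nonneg_left ?_ (Nat.cast_nonneg K)
  linarith

end XP

end SC

end

/-! ### from `Lib_MP_e0a489.XP20` -/

section

/-!
# MP_e0a489, exponents 20: lower bound
-/

set_option autoImplicit false

namespace SC

variable [IfL]

namespace XP

open Classical

/-- Choice of `K`.  Let `v = κ 1 ^ 2 ∈ (0, 1]`, `δ = C' (2 M + 1) ^ (-c)`, `Y = (v / (2 δ)) ^ (1/2)`, `K = ⌊Y⌋`.  `K ^ 2 δ ≤ v / 2`, so the left side of the hypothesis is at least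
`K v / 2`.  If `Y ≥ 1` then `K ≥ Y / 2`, so `C T ≥ Y v / 4 = v / 4 (v / (2 C')) ^ (1/2) (2 M + 1) ^ (c/2)`, and `(2 M + 1) ^ (c/2) ≥ (M + 1) ^ (c/2)`.
If `Y < 1` then `(2 M + 1) ^ c < 2 C' / v`, and the bound follows from `T ≥ t₀` if the constant is large.  `T` stands for
`(M + 1) ^ 2 al`. -/
theorem choose_K {v C C' c t₀ : ℝ} (hv : 0 < v) (hv1 : v ≤ 1) (hC : 1 ≤ C) (hC' : 0 < C') (hc : 0 < c)
    (hc1 : c ≤ 1 / 2) (ht : 0 < t₀) : ∃ A : ℝ, 0 < A ∧ ∀ (M T : ℝ), 0 ≤ M → t₀ ≤ T →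
      (∀ K : ℕ, K * (v - (K : ℝ) ^ 2 * (C' * (2 * M + 1) ^ (-c))) ≤ C * T) →
      (M + 1) ^ (c / 2) ≤ A * T := by
  set s : ℝ := Real.sqrt (v / (2 * C')) with hs
  have hs0 : 0 < s := Real.sqrt_pos.2 (by positivity)
  have hs2 : s ^ 2 = v / (2 * C') := Real.sq_sqrt (by positivity)
  have hCp : 0 < C := by linarith
  refine ⟨4 * C / (v * s) + 1 / (s * t₀), by positivity, ?_⟩
  intro M T hM hT h
  have hT0 : 0 < T := lt_of_lt_of_le ht hT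
  have hb : (0 : ℝ) < 2 * M + 1 := by linarith
  set X : ℝ := (2 * M + 1) ^ (c / 2) with hX
  have hX0 : 0 < X := Real.rpow_pos_of_pos hb _
  have hXM : (M + 1) ^ (c / 2) ≤ X :=
    Real.rpow_le_rpow (by linarith) (by linarith) (by positivity)
  have hX2 : (2 * M + 1) ^ (-c) = (X ^ 2)⁻¹ := by
    rw [Real.rpow_neg hb.le, hX, ← Real.rpow_natCast, ← Real.rpow_mul hb.le]
    congr 2
    push_cast
    ring
  rcases le_or_gt 1 (s * X) with h1 | h1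
  · have hK1 : 1 ≤ ⌊s * X⌋₊ := Nat.le_floor (by simpa using h1)
    have hK1' : (1 : ℝ) ≤ (⌊s * X⌋₊ : ℝ) := by exact_mod_cast hK1
    have hK2 : (⌊s * X⌋₊ : ℝ) ≤ s * X := Nat.floor_le (by positivity)
    have hK3 : s * X < (⌊s * X⌋₊ : ℝ) + 1 := Nat.lt_floor_add_one _
    have hh := h ⌊s * X⌋₊
    rw [hX2] at hh
    set K : ℝ := (⌊s * X⌋₊ : ℝ) with hK
    have hKd : K ^ 2 * (C' * (X ^ 2)⁻¹) ≤ v / 2 := by
      have e1 : (s * X) ^ 2 * (C' * (X ^ 2)⁻¹) = v / 2 := by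
        rw [mul_pow, hs2]
        field_simp
      rw [← e1]
      refine mul_le_mul_of_nonneg_right ?_ (by positivity)
      exact pow_le_pow_left₀ (by linarith) hK2 2
    have h3 : K * (v / 2) ≤ C * T := by
      refine le_trans ?_ hh
      exact mul_le_mul_of_nonneg_left (by linarith) (by linarith)
    have h4 : s * X / 2 * (v / 2) ≤ C * T := by
      refine le_trans ?_ h3
      exact mul_le_mul_of_nonneg_right (by linarith) (by positivity)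
    have h5 : X ≤ 4 * C / (v * s) * T := by
      rw [div_mul_eq_mul_div, le_div_iff₀ (by positivity)]
      nlinarith
    have h6 : 0 ≤ 1 / (s * t₀) * T := by positivity
    nlinarith
  · have h5 : X ≤ 1 / (s * t₀) * T := by
      have h7 : X ≤ 1 / s := by
        rw [le_div_iff₀ hs0]
        linarith [mul_comm s X]
      have h8 : 1 / s ≤ 1 / (s * t₀) * T := by
        rw [div_mul_eq_mul_div, div_le_div_iff₀ hs0 (by positivity)]
        nlinarith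
      exact h7.trans h8
    have h6 : 0 ≤ 4 * C / (v * s) * T := by positivity
    nlinarith

/-- LOWER BOUND at the radii `r`, `(M + 1) w`: `many`, `choose_K` with `T = (M + 1) ^ 2 al L r ((M + 1) w)`; `T ≥ t₀` by `apriori`: `(r / ((M + 1) w)) ^ 2 ≤ C al` and
`w ≤ 3 r`.  So `1 / (M + 1) ^ (2 - c') ≤ A al`, `c' = c / 2`. -/
theorem al_low_M (κ : ℕ → ℝ) (h1 : 0 < κ 1) (h2 : κ 1 ≤ 1) : ∃ (C c : ℝ) (R₀ : ℤ), 0 < C ∧ 0 < c ∧ c ≤ 1 / 4 ∧ 16 ≤ R₀ ∧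
    ∀ L : Lat, Fam L κ → ∀ r M : ℤ, R₀ ≤ r → 0 ≤ M →
      (1 / ((M : ℝ) + 1)) ^ (2 - c) ≤ C * al L r ((M + 1) * (2 * r + 1)) := by
  obtain ⟨C₁, C', c, R₁, hC₁, hC', hc, hc2, hR₁, hmany⟩ := many κ
  obtain ⟨C₂, R₂, hC₂, hR₂, hap⟩ := apriori κ
  obtain ⟨A, hA, hch⟩ := choose_K (v := κ 1 ^ 2) (t₀ := 1 / (9 * C₂)) (by positivity)
    (pow_le_one₀ h1.le h2) hC₁ hC' hc hc2 (by positivity)
  refine ⟨A, c / 2, max R₁ R₂, hA, by positivity, by linarith, le_trans hR₁ (le_max_left _ _), ?_⟩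
  intro L hL r M hr hM
  have hr1 : R₁ ≤ r := le_trans (le_max_left _ _) hr
  have hr2 : R₂ ≤ r := le_trans (le_max_right _ _) hr
  have hr0 : 16 ≤ r := le_trans hR₁ hr1
  have hM0 : (0 : ℝ) ≤ (M : ℝ) := by exact_mod_cast hM
  have hrr : (16 : ℝ) ≤ (r : ℝ) := by exact_mod_cast hr0
  have hle : r ≤ (M + 1) * (2 * r + 1) := by nlinarith
  have hap' := hap L hL r ((M + 1) * (2 * r + 1)) hr2 hle
  have hmany' := hmany L hL r M hr1 hM
  set a : ℝ := al L r ((M + 1) * (2 * r + 1)) with ha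
  have hT : 1 / (9 * C₂) ≤ ((M : ℝ) + 1) ^ 2 * a := by
    have e1 : (1 / (3 * ((M : ℝ) + 1))) ^ 2 ≤ C₂ * a := by
      refine le_trans (pow_le_pow_left₀ (by positivity) ?_ 2) hap'
      push_cast
      rw [div_le_div_iff₀ (by positivity) (by positivity)]
      nlinarith
    rw [div_pow, one_pow, div_le_iff₀ (by positivity)] at e1
    rw [div_le_iff₀ (by positivity)]
    nlinarith
  have hfin := hch (M : ℝ) _ hM0 hT hmany'
  have hM1 : (0 : ℝ) < (M : ℝ) + 1 := by linarith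
  have e2 : (1 / ((M : ℝ) + 1)) ^ (2 - c / 2) = ((M : ℝ) + 1) ^ (c / 2) / ((M : ℝ) + 1) ^ 2 := by
    rw [one_div, Real.inv_rpow hM1.le, ← Real.rpow_neg hM1.le, ← Real.rpow_natCast,
      ← Real.rpow_sub hM1]
    congr 1
    push_cast
    ring
  rw [e2, div_le_iff₀ (by positivity)]
  linarith

/-- LOWER BOUND.  `M = R / (2 r + 1)` (integer part): `R ≤ (M + 1) w`, so `al L r ((M + 1) w) ≤ al L r R` (`AlProps.mono`), and
`M + 1 ≤ R / (2 r + 1) + 1 ≤ 2 R / r`, so `(r / R) ^ (2 - c) ≤ 4 (1 / (M + 1)) ^ (2 - c)`.  If `κ 1 ≤ 0` or `κ 1 > 1` there is no lattice with `RSW L κ`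
(`RSW.pos`, `RSW.hx'` and `pr_le_one`). -/
theorem al_low (κ : ℕ → ℝ) : ∃ (C c : ℝ) (R₀ : ℤ), 0 < C ∧ 0 < c ∧ c ≤ 1 / 4 ∧ 16 ≤ R₀ ∧
    ∀ L : Lat, Fam L κ → ∀ r R : ℤ, R₀ ≤ r → r ≤ R →
      ((r : ℝ) / R) ^ (2 - c) ≤ C * al L r R := by
  by_cases hκ : 0 < κ 1 ∧ κ 1 ≤ 1
  · obtain ⟨C, c, R₁, hC, hc, hc4, hR₁, h⟩ := al_low_M κ hκ.1 hκ.2
    obtain ⟨CA, RA, hAl⟩ := al_props κ
    refine ⟨4 * C, c, R₁, by positivity, hc, hc4, hR₁, ?_⟩
    intro L hL r R hr hrR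
    have hr0 : 16 ≤ r := le_trans hR₁ hr
    have hrr : (16 : ℝ) ≤ (r : ℝ) := by exact_mod_cast hr0
    have hRr : (r : ℝ) ≤ (R : ℝ) := by exact_mod_cast hrR
    have hw0 : 0 < 2 * r + 1 := by omega
    have hM0 : 0 ≤ R / (2 * r + 1) := Int.ediv_nonneg (by omega) hw0.le
    have hup : R ≤ (R / (2 * r + 1) + 1) * (2 * r + 1) := by
      have := Int.lt_ediv_add_one_mul_self R hw0
      exact this.le
    have hlo : R / (2 * r + 1) * (2 * r + 1) ≤ R := Int.ediv_mul_le R hw0.ne'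
    have h1 := h L hL r (R / (2 * r + 1)) hr hM0
    have hmono := (hAl L hL).mono r R r ((R / (2 * r + 1) + 1) * (2 * r + 1)) (by omega) le_rfl
      hrR hup
    generalize R / (2 * r + 1) = M at hM0 hup hlo h1 hmono
    have hM0' : (0 : ℝ) ≤ (M : ℝ) := by exact_mod_cast hM0
    have hlo' : (M : ℝ) * (2 * r + 1) ≤ R := by exact_mod_cast hlo
    have hR0 : (0 : ℝ) < (R : ℝ) := by linarith
    have hr0' : (0 : ℝ) < (r : ℝ) := by linarith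
    have e1 : (r : ℝ) / R ≤ 2 * (1 / ((M : ℝ) + 1)) := by
      rw [mul_one_div, div_le_div_iff₀ hR0 (by positivity)]
      nlinarith
    have e2 : ((r : ℝ) / R) ^ (2 - c) ≤ (2 * (1 / ((M : ℝ) + 1))) ^ (2 - c) :=
      Real.rpow_le_rpow (by positivity) e1 (by linarith)
    rw [Real.mul_rpow (by norm_num) (by positivity)] at e2
    have e3 : (2 : ℝ) ^ (2 - c) ≤ 4 := by
      calc (2 : ℝ) ^ (2 - c) ≤ (2 : ℝ) ^ (2 : ℝ) :=
            Real.rpow_le_rpow_of_exponent_le (by norm_num) (by linarith)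
        _ = 4 := by norm_num
    have e4 : 0 ≤ (1 / ((M : ℝ) + 1)) ^ (2 - c) := by positivity
    have e5 : (2 : ℝ) ^ (2 - c) * (1 / ((M : ℝ) + 1)) ^ (2 - c) ≤
        4 * (C * al L r ((M + 1) * (2 * r + 1))) := by
      refine le_trans (mul_le_mul_of_nonneg_right e3 e4) ?_
      exact mul_le_mul_of_nonneg_left h1 (by norm_num)
    have e6 : C * al L r ((M + 1) * (2 * r + 1)) ≤ C * al L r R :=
      mul_le_mul_of_nonneg_left hmono hC.le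
    linarith
  · refine ⟨1, 1 / 4, 16, one_pos, by norm_num, le_rfl, le_rfl, ?_⟩
    intro L hL r R _ _
    exfalso
    refine hκ ⟨hL.rsw.pos 1, ?_⟩
    exact (hL.rsw.hx 1 true 4 0 0 le_rfl le_rfl).trans (pr_le_one _)

end XP

end SC

end
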