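import Mathlib
import Pool.Agent.Lib_MP_e0a489_m.G04
import Pool.Agent.Lib_MP_e0a489_m.G06
import Pool.Agent.Lib_MP_e0a489_m.G09
import Pool.Agent.Lib_MP_e0a489_m.G19
import Pool.Agent.Lib_MP_e0a489_m.G20
import Pool.Agent.Lib_MP_e0a489_m.G23
import Pool.Agent.Lib_MP_e0a489_m.G24
import Pool.Agent.Lib_MP_e0a489_m.G25
import Pool.Agent.Lib_MP_e0a489_m.G26
import Pool.Agent.Lib_MP_e0a489_m.G27
import Pool.Agent.Lib_MP_e0a489_m.G28

/-!
# MP_e0a489_pr: merged library part G30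

Concatenation of library files (each in its own section), only to save build time.
-/

/-! ### from `Lib_MP_e0a489.RO20` -/

section

/-!
# MP_e0a489, RO 20: gluing of an arm and its path, inward
-/

set_option autoImplicit false

namespace SC

open Classical

/-- sites of the outer zones are outside `bx R` -/
theorem ro_J_nrm {s R : ℤ} (hR : 0 ≤ R) {v : Pt} (hv : v ∈ J s R) : R < nrm v := by
  obtain ⟨⟨x, y⟩, ⟨⟨h1, h2⟩, h3, h4⟩, rfl⟩ := hv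
  simp only at h1
  rw [nrm_rt]
  show R < max |x| |y|
  exact lt_of_lt_of_le (by omega) (le_trans (le_abs_self x) (le_max_left _ _))

theorem ro_Je_nrm {s R : ℤ} (hR : 0 < R) {v : Pt} (hv : v ∈ Je s R) : R < nrm v := by
  obtain ⟨⟨x, y⟩, ⟨⟨h1, h2⟩, h3, h4⟩, rfl⟩ := hv
  simp only at h1
  rw [nrm_rt]
  show R < max |x| |y|
  exact lt_of_lt_of_le (by omega) (le_trans (le_abs_self x) (le_max_left _ _))

private theorem ro20_bd (P : Pth) (hm : 1 ≤ P.m) (hf : |P.f| ≤ P.m) :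
    |P.lk| ≤ P.m ∧ |P.uk| ≤ P.m ∧ P.ls ≤ P.us := by
  unfold Pth.ls Pth.us Pth.lk Pth.uk
  by_cases h : rmv P.s P.f P.d
  · rw [if_pos h, if_pos h, if_pos h, if_pos h]
    unfold rmv at h
    exact ⟨hf, by simp; omega, by omega⟩
  · rw [if_neg h, if_neg h, if_neg h, if_neg h]
    unfold rmv at h
    exact ⟨by simp; omega, hf, by omega⟩

private theorem ro20_s (P : Pth) (hf : |P.f| ≤ P.m) :
    P.ls ≤ P.s ∧ P.s ≤ P.us ∧ sgl P.m P.ls P.lk P.s ≤ P.f ∧ P.f ≤ sgu P.m P.us P.uk P.s := by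
  rw [abs_le] at hf
  unfold Pth.ls Pth.us Pth.lk Pth.uk
  by_cases h : rmv P.s P.f P.d
  · rw [if_pos h, if_pos h, if_pos h, if_pos h]
    unfold rmv at h
    unfold sgl sgu
    refine ⟨le_rfl, by omega, ?_, ?_⟩
    · rw [if_pos rfl]
    · split_ifs <;> omega
  · rw [if_neg h, if_neg h, if_neg h, if_neg h]
    unfold rmv at h
    unfold sgl sgu
    refine ⟨by omega, le_rfl, ?_, ?_⟩
    · split_ifs <;> omega
    · rw [if_pos rfl]

private theorem ro20_d (P : Pth) (hm : 1 ≤ P.m) :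
    P.ls ≤ P.d ∧ P.d ≤ P.us ∧ sgl P.m P.ls P.lk P.d ≤ 0 ∧ 0 ≤ sgu P.m P.us P.uk P.d := by
  unfold Pth.ls Pth.us Pth.lk Pth.uk
  by_cases h : rmv P.s P.f P.d
  · rw [if_pos h, if_pos h, if_pos h, if_pos h]
    unfold rmv at h
    unfold sgl sgu
    refine ⟨by omega, le_rfl, ?_, ?_⟩
    · split_ifs <;> omega
    · rw [if_pos rfl]
  · rw [if_neg h, if_neg h, if_neg h, if_neg h]
    unfold rmv at h
    unfold sgl sgu
    refine ⟨le_rfl, by omega, ?_, ?_⟩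
    · rw [if_pos rfl]
    · split_ifs <;> omega

/-- `PathE.glue` with the bound for the inner end of the final strip (same proof) -/
private theorem ro20_glue {L : Lat} {c : Bool} {w : ℤ} {N : ℕ} {P : Pth} {ω : Cfg} (hw : 0 < w)
    (hP : P.Ok w N) (h : L.PathE c w P ω) :
    ∃ T, L.Con T ∧ T ⊆ L.col c ω ∧ T ⊆ P.reg w ∧
      (∃ Q, Q ⊆ T ∧ L.Par P.s P.a1 P.b1 ((P.f - P.h) * w - w / 2) ((P.f + P.h) * w + w / 2) Q) ∧
      ∃ y, |y| ≤ w / 2 ∧ rt P.d (P.a4, y) ∈ T := by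
  obtain ⟨hQ1, hQ2, hA, hQ4⟩ := h
  obtain ⟨Q1, c1, p1⟩ := Lat.PX.set hQ1
  obtain ⟨Q2, c2, r2⟩ := Lat.RX.set hQ2
  obtain ⟨Q4, c4, r4⟩ := Lat.RX.set hQ4
  have hm1 := hP.m1
  have hfm := hP.fm
  rw [abs_le] at hfm
  obtain ⟨b1, b2, b3⟩ := ro20_bd P hP.m1 hP.fm
  obtain ⟨s1, s2, s3, s4⟩ := ro20_s P hP.fm
  obtain ⟨d1, d2, d3, d4⟩ := ro20_d P hP.m1
  obtain ⟨T3, hc3, k3, t3, hq3⟩ := Lat.ArcE.glue hw (by omega) b1 b2 b3 hA
  obtain ⟨Qs, qs1, qs2⟩ := hq3 P.s s1 s2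
  obtain ⟨Qd, qd1, qd2⟩ := hq3 P.d d1 d2
  have hw2 : 0 ≤ w / 2 := by omega
  have m12 : (Q2 ∩ Q1).Nonempty := by
    refine Lat.Rad.meet r2 p1 hP.a21 hP.b12 ?_ ?_ ?_ (by omega)
    · have := mul_nonneg hP.h0 hw.le
      nlinarith
    · have := mul_nonneg hP.h0 hw.le
      nlinarith
    · have h1 := hP.ab1
      have := mul_nonneg hP.h0 hw.le
      nlinarith
  have m23 : (Q2 ∩ Qs).Nonempty := by
    refine Lat.Rad.meet r2 qs2 hP.a2m hP.b2m ?_ ?_ (by omega) (by omega)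
    · have := mul_le_mul_of_nonneg_right s3 hw.le
      linarith
    · have := mul_le_mul_of_nonneg_right s4 hw.le
      linarith
  have m43 : (Q4 ∩ Qd).Nonempty := by
    refine Lat.Rad.meet r4 qd2 hP.a4m hP.b4m ?_ ?_ (by omega) (by omega)
    · have := mul_le_mul_of_nonneg_right d3 hw.le
      linarith
    · have := mul_le_mul_of_nonneg_right d4 hw.le
      linarith
  have u1 : L.Con (Q1 ∪ Q2) := by
    refine Lat.Con.union p1.1 r2.1 ?_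
    rwa [Set.inter_comm] at m12
  have u2 : L.Con (Q1 ∪ Q2 ∪ T3) := by
    refine Lat.Con.union u1 hc3 ?_
    obtain ⟨z, z1, z2⟩ := m23
    exact ⟨z, Or.inr z1, qs1 z2⟩
  have u3 : L.Con (Q1 ∪ Q2 ∪ T3 ∪ Q4) := by
    refine Lat.Con.union u2 r4.1 ?_
    obtain ⟨z, z1, z2⟩ := m43
    exact ⟨z, Or.inr (qd1 z2), z1⟩
  refine ⟨Q1 ∪ Q2 ∪ T3 ∪ Q4, u3, ?_, ?_, ?_, ?_⟩
  · exact Set.union_subset (Set.union_subset (Set.union_subset c1 c2) k3) c4
  · unfold Pth.reg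
    exact Set.union_subset_union (Set.union_subset_union (Set.union_subset_union p1.2.1 r2.2.1) t3)
      r4.2.1
  · exact ⟨Q1, fun x hx => Or.inl (Or.inl (Or.inl hx)), p1⟩
  · obtain ⟨y, hy⟩ := r4.2.2.1
    obtain ⟨z, hz, hze⟩ := r4.2.1 hy
    have e : z = (P.a4, y) := (rt P.d).injective hze
    subst e
    have h3 : -(w / 2) ≤ y := hz.2.1
    have h4 : y ≤ w / 2 := hz.2.2
    exact ⟨y, abs_le.2 ⟨h3, h4⟩, Or.inr hy⟩

/-- Let `ρ = M w + w/2`, `M = μ Mc + μ / 2`.  `lbi_eq` and `lw_eq`: the landing block is `rt s '' rect (ρ - ℓ + 1) ρ p q`, `ℓ = (2h+1) w`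
(`(M - 2h) w - w/2 = ρ - ℓ + 1`).  `ro_arm_in` with `J = Jc c R`, `Y = Je (d i) R` gives `K` and a radial crossing set `Q ⊆ K` of
the block, `PathE.glue` (with `inP_ok`) gives `T` and a parallel crossing set of the same rectangle; they meet, `K ∪ T`
is connected.  `K ∪ T ⊆ ann r' R ∪ Jc c R ∪ Kc c r'`: `K ⊆ ann ρ R ∪ Jc c R ∪` block, the block is part of `reg`, `in_reg` (`ρ ≤ R`,
`r' ≤ ρ`), `K_tgt`.  It contains a site of `Je (d i) R` and the site `rt d (r'/2 + 1, y)` of `T`, `|y| ≤ w/2`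
(`PathE.glue`), which is in `Ks d r'` (`in_end`, `in_rw`). -/
theorem glue_in {L : Lat} {w μ Mc R r' : ℤ} (hw : w % 2 = 1) (hw5 : 5 ≤ w) (hμ : μ % 2 = 1)
    (hμ0 : 0 < μ) {c₀ : Bool} {s k d : Fin 4 → ℤ} (hl : Land μ (μ * Mc + μ / 2) c₀ s k)
    (hR : 2 * ((μ * Mc + μ / 2) * w + w / 2) ≤ R)
    (h1 : r' + (μ + 10) * w ≤ (μ * Mc + μ / 2) * w + w / 2)
    (h2 : (μ * Mc + μ / 2) * w + w / 2 ≤ 4 * r') (i : Fin 4) {ω : Cfg}
    (hF : L.Arm (colr c₀ i)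
      (ann ((μ * Mc + μ / 2) * w + w / 2) R ∪ Jc (colr c₀ i) R ∪
        lbi w μ Mc (colr c₀ i) (s i) (k i))
      (lbi w μ Mc (colr c₀ i) (s i) (k i) ∩
        rng ((μ * Mc + μ / 2) * w + w / 2 - lw w μ (colr c₀ i) + 1)) (Je (d i) R) ω)
    (hV : L.PathE (colr c₀ i) w (inP w μ (μ * Mc + μ / 2) r' c₀ s k i) ω) :
    L.Arm (colr c₀ i) (ann r' R ∪ Jc (colr c₀ i) R ∪ Kc (colr c₀ i) r')
      (Ks (tgt c₀ i) r') (Je (d i) R) ω := by
  have hw0 : 0 < w := by omega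
  obtain ⟨hb0, hb1⟩ := hwd_bd hμ hμ0 c₀ i
  have hcor := hl.cor i
  have hok := inP_ok hw hw5 hμ hμ0 hl h1 h2 i
  have hrw := in_rw hw5 hμ0 hl h2
  have hreg : ∀ v ∈ (inP w μ (μ * Mc + μ / 2) r' c₀ s k i).reg w,
      r' / 2 < nrm v ∧ nrm v ≤ (μ * Mc + μ / 2) * w + w / 2 ∧
        (r' < nrm v ∨ v ∈ K (tgt c₀ i) r') :=
    fun v hv => in_reg hw hw5 hμ hμ0 hl h1 h2 i hv
  obtain ⟨T, hT, Tc, Tr, ⟨Q', hQ'T, hPar⟩, y', hy', hy'T⟩ := ro20_glue hw0 hok hV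
  rw [lw_eq w hμ c₀ i, lbi_eq hw hw0 hμ hμ0 c₀ (s i) k i] at hF
  set M := μ * Mc + μ / 2 with hM
  set h := hwd μ c₀ i with hh
  set f := fpos μ c₀ k i with hf
  have hblk : ∀ v ∈ rt (s i) '' rect ((M - 2 * h) * w - w / 2) (M * w + w / 2)
      ((f - h) * w - w / 2) ((f + h) * w + w / 2), v ∈ (inP w μ M r' c₀ s k i).reg w :=
    fun v hv => Or.inl (Or.inl (Or.inl hv))
  have e1 : (M - 2 * h) * w - w / 2 = M * w + w / 2 - (2 * h + 1) * w + 1 := by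
    have h3 : w = 2 * (w / 2) + 1 := by omega
    linear_combination h3
  rw [e1] at hF hblk
  have hcor' := abs_le.1 (show |f| ≤ M - 2 * μ - 20 by omega)
  have hhw : 0 ≤ h * w := mul_nonneg hb0 hw0.le
  have hℓw : w ≤ (2 * h + 1) * w := by nlinarith
  have hMw : (2 * μ + 20) * w ≤ M * w := by
    refine mul_le_mul_of_nonneg_right ?_ hw0.le
    have := abs_nonneg f
    omega
  have hμw : 0 < μ * w := mul_pos hμ0 hw0
  have hℓM : (2 * h + 1) * w ≤ μ * w := mul_le_mul_of_nonneg_right hb1 hw0.le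
  have hp : -(M * w + w / 2) < (f - h) * w - w / 2 := by
    have h3 : (-M + 20) * w ≤ (f - h) * w := mul_le_mul_of_nonneg_right (by omega) hw0.le
    have h4 : (-M + 20) * w = -(M * w) + 20 * w := by ring
    omega
  have hq : (f + h) * w + w / 2 < M * w + w / 2 := by
    have h3 : (f + h) * w ≤ (M - 20) * w := mul_le_mul_of_nonneg_right (by omega) hw0.le
    have h4 : (M - 20) * w = M * w - 20 * w := by ring
    omega
  have hMw' : (2 * μ + 20) * w = 2 * (μ * w) + 20 * w := by ring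
  have hR0 : 0 ≤ R := by omega
  obtain ⟨K', hK', hK'sub, ⟨y, hyK, hyY⟩, Q, hQK, hRad⟩ := Lat.ro_arm_in (by omega) (by omega) hp hq
    (fun v hv => by
      rcases hv with hv | hv <;> have := ro_J_nrm hR0 hv <;> omega)
    (fun v hv => by
      have := ro_Je_nrm (by omega : 0 < R) hv
      omega) hF
  have hPar' : L.Par (s i) ((M - 2 * h) * w - w / 2) (M * w + w / 2)
    ((f - h) * w - w / 2) ((f + h) * w + w / 2) Q' := hPar
  rw [e1] at hPar'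
  obtain ⟨z, hz1, hz2⟩ := Lat.Rad.meet hRad hPar' le_rfl le_rfl le_rfl le_rfl (by omega)
    (by
      have h3 : (f - h) * w ≤ (f + h) * w := mul_le_mul_of_nonneg_right (by omega) hw0.le
      omega)
  have hcon : L.Con (K' ∪ T) := Lat.Con.union hK' hT ⟨z, hQK hz1, hQ'T hz2⟩
  have hr'ρ : r' ≤ M * w + w / 2 := by
    have h3 : (μ + 10) * w = μ * w + 10 * w := by ring
    omega
  have hreg' : ∀ v ∈ (inP w μ M r' c₀ s k i).reg w,
      v ∈ ann r' R ∪ Jc (colr c₀ i) R ∪ Kc (colr c₀ i) r' := by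
    intro v hv
    obtain ⟨h3, h4, h5⟩ := hreg v hv
    rcases h5 with h5 | h5
    · exact Or.inl (Or.inl ⟨h5, by omega⟩)
    · exact Or.inr (K_tgt c₀ i r' h5)
  have hsub : K' ∪ T ⊆ (ann r' R ∪ Jc (colr c₀ i) R ∪ Kc (colr c₀ i) r') ∩ L.col (colr c₀ i) ω := by
    rintro v (hv | hv)
    · obtain ⟨h3, h4⟩ := hK'sub hv
      refine ⟨?_, h4⟩
      rcases h3 with (h3 | h3) | h3
      · have h5 : M * w + w / 2 < nrm v := h3.1
        exact Or.inl (Or.inl ⟨by omega, h3.2⟩)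
      · exact Or.inl (Or.inr h3)
      · exact hreg' v (hblk v h3)
    · exact ⟨hreg' v (Tr hv), Tc hv⟩
  exact ⟨rt (tgt c₀ i) (r' / 2 + 1, y'), in_end hw5 hrw hy', y, hyY,
    (hcon _ (Or.inr hy'T) _ (Or.inl hyK)).mono hsub⟩

end SC

end

/-! ### from `Lib_MP_e0a489.TTH7` -/

section

/-!
# MP_e0a489, module TTH 7: the local bound in the half plane
-/

set_option autoImplicit false

namespace SC

variable [IfL]

open Classical

private theorem tth7_fin {s ℓ a C₃ B Q K T X : ℝ} (hs : 0 < s) (hℓ : 0 < ℓ)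
    (hB : 0 ≤ B) (hQ : 0 ≤ Q) (hX : X ≤ B * (a * Q))
    (hC : s * Real.exp (-(s / 2)) * (ℓ ^ 2 * a) ≤ C₃) (hC₃ : 0 ≤ C₃)
    (hK : 1 / ℓ ^ 2 * Q ≤ K * T) :
    s * Real.exp (-s) * X ≤ C₃ * (B * K) * (Real.exp (-(s / 2)) * T) := by
  have e1 : Real.exp (-s) = Real.exp (-(s / 2)) * Real.exp (-(s / 2)) := by
    rw [← Real.exp_add]
    congr 1
    ring
  have hE : 0 < Real.exp (-(s / 2)) := Real.exp_pos _
  have h1 : s * Real.exp (-s) * X ≤ s * Real.exp (-s) * (B * (a * Q)) :=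
    mul_le_mul_of_nonneg_left hX (mul_nonneg hs.le (Real.exp_pos _).le)
  have h2 : s * Real.exp (-s) * (B * (a * Q)) = B * Real.exp (-(s / 2)) *
      ((s * Real.exp (-(s / 2)) * (ℓ ^ 2 * a)) * (1 / ℓ ^ 2 * Q)) := by
    rw [e1]
    field_simp
  have h3 : (s * Real.exp (-(s / 2)) * (ℓ ^ 2 * a)) * (1 / ℓ ^ 2 * Q) ≤ C₃ * (K * T) :=
    mul_le_mul hC hK (mul_nonneg (by positivity) hQ) hC₃
  have h4 : B * Real.exp (-(s / 2)) *
      ((s * Real.exp (-(s / 2)) * (ℓ ^ 2 * a)) * (1 / ℓ ^ 2 * Q)) ≤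
      B * Real.exp (-(s / 2)) * (C₃ * (K * T)) :=
    mul_le_mul_of_nonneg_left h3 (mul_nonneg hB hE.le)
  calc s * Real.exp (-s) * X ≤ s * Real.exp (-s) * (B * (a * Q)) := h1
    _ = B * Real.exp (-(s / 2)) *
      ((s * Real.exp (-(s / 2)) * (ℓ ^ 2 * a)) * (1 / ℓ ^ 2 * Q)) := h2
    _ ≤ B * Real.exp (-(s / 2)) * (C₃ * (K * T)) := h4
    _ = C₃ * (B * K) * (Real.exp (-(s / 2)) * T) := by ring

private theorem tth7_kap {s : ℝ} (hs : 0 < s) : Kap (kt s) := fun _ =>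
  ⟨(Real.exp_pos _).le, by
    show Real.exp (-s) ≤ 1
    rw [Real.exp_le_one_iff]
    linarith⟩

private theorem tth7_hf {L : Lat} {s : ℝ} (hs : 0 < s) (b : Bool) (H : Set Pt) (r R : ℤ) :
    0 ≤ hfF L s b H r R := by
  unfold hfF
  split_ifs
  · exact pr2_nonneg _ (tth7_kap hs)
  · exact zero_le_one

/-- LOCAL BOUND.  `k = v.2`.  Put `A = s e^{-s/2} (ℓ ^ 2 al L R₀ ℓ) ≤ C₃`, so `s e^{-s} al L R₀ ℓ ≤ C₃ e^{-s/2} (1 / ℓ ^ 2)`.
(1) `D ≤ 4 k`: `locE_at` and `atF_beyond` with `r₁ = R₀`, `m = D / 4 - 1 < k` (`m ≥ D / 8`, `ℓ ≤ 4 m` because `D ≥ 16 ℓ ≥ 256`); `rl_one` with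
`d = min (k + 1) D`.
(2) `4 k < D`, `ℓ ≤ 2 k`: `locE_fac` with `r₁ = R₀`, `m = k - 1`, `m₀ = m₁ = m₂ = 2 k`, `R' = D - k` (the first `hfF` is `1`); `atF_beyond` (`ℓ ≤ 4 (k - 1)`,
`k ≥ 8`), `hfF_beyond`, `rl_two`; `min (k + 1) D = k + 1`.
(3) `2 k < ℓ`: `locE_fac` with `r₁ = R₀`, `m = k - 1`, `m₀ = max (2 k) R₀`, `m₁ = m₂ = ℓ`, `R' = D - k`; `atF_static`, `hfF_static`, `hfF_beyond`, `HProps.prod`,
`rl_three` with `u = max k R₀`.
`C₁` = sum of the three constants. -/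
theorem loc_half_bd {L : Lat} {C Cb Ch C₃ c : ℝ} {R₀ : ℤ} (hP : HProps L C R₀) (hR : 16 ≤ R₀)
    (hc : 0 < c ∧ c ≤ 1 / 2) (hC₃ : 0 < C₃) (hb : LBKOK L Cb c R₀) (hh : KBHOK L Ch c R₀)
    (hCb : 0 ≤ Cb) (hCh : 1 ≤ Ch) : ∃ C₁ : ℝ, 0 < C₁ ∧ ∀ (ℓ : ℤ) (s : ℝ), R₀ ≤ ℓ →
    Beyond L R₀ ℓ s → s * Real.exp (-(s / 2)) * ((ℓ : ℝ) ^ 2 * al L R₀ ℓ) ≤ C₃ →
    ∀ (σ : ℤ) (x : Pt) (H : Set Pt) (b : Bool) (v : Pt) (D : ℤ), HalfLike H → 0 ≤ v.2 →
      16 * ℓ ≤ D → s * Real.exp (-s) * pr2 (kt s) (((L.rots σ).shift x).LocE H b v D) ≤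
        C₁ * (Real.exp (-(s / 2)) * (((ℓ : ℝ) / D) ^ (c / 4) * ((D : ℝ) ^ (-1 - c / 4) *
          ((min (v.2 + 1) D : ℤ) : ℝ) ^ (c / 4 - 1)))) := by
  have hC1 : 1 ≤ C := hP.ap.C1
  obtain ⟨B₁, hB₁⟩ : ∃ B : ℝ, B = Cb + 4096 * C := ⟨_, rfl⟩
  obtain ⟨B₂, hB₂⟩ : ∃ B : ℝ, B = (Cb + 4096 * C) * Ch := ⟨_, rfl⟩
  obtain ⟨B₃, hB₃⟩ : ∃ B : ℝ, B = 4096 * C * C * Ch * (4096 * C ^ 2) := ⟨_, rfl⟩
  have p1 : 0 ≤ B₁ := by rw [hB₁]; positivity
  have p2 : 0 ≤ B₂ := by rw [hB₂]; positivity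
  have p3 : 0 < B₃ := by rw [hB₃]; positivity
  refine ⟨C₃ * (B₁ * 512) + C₃ * (B₂ * 512) + C₃ * (B₃ * 8), by positivity, ?_⟩
  intro ℓ s hℓ hB hs3 σ x H b v D hH hv hD
  have hal : 0 < al L R₀ ℓ := hP.ap.pos R₀ ℓ le_rfl hℓ
  have hs : 0 < s := hB.pos hal.le
  obtain ⟨k, hk⟩ : ∃ k : ℤ, k = v.2 := ⟨_, rfl⟩
  rw [← hk] at hv
  rw [← hk]
  have hℓ1 : (1 : ℝ) ≤ (ℓ : ℝ) := by exact_mod_cast (by omega : (1 : ℤ) ≤ ℓ)
  have hℓ0 : (0 : ℝ) < (ℓ : ℝ) := lt_of_lt_of_le zero_lt_one hℓ1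
  have hDr : (ℓ : ℝ) ≤ (D : ℝ) := by exact_mod_cast (by omega : ℓ ≤ D)
  have hD0 : (0 : ℝ) < (D : ℝ) := lt_of_lt_of_le hℓ0 hDr
  have hk0 : (0 : ℝ) ≤ (k : ℝ) := by exact_mod_cast hv
  have hc1 : 0 < c ∧ c ≤ 1 := ⟨hc.1, hc.2.trans (by norm_num)⟩
  obtain ⟨T, hT⟩ : ∃ T : ℝ, T = ((ℓ : ℝ) / D) ^ (c / 4) * ((D : ℝ) ^ (-1 - c / 4) *
      ((min (k + 1) D : ℤ) : ℝ) ^ (c / 4 - 1)) := ⟨_, rfl⟩
  have hd0 : (0 : ℝ) < ((min (k + 1) D : ℤ) : ℝ) := by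
    exact_mod_cast (by omega : (0 : ℤ) < min (k + 1) D)
  have hT0 : 0 ≤ T := by rw [hT]; positivity
  rw [← hT]
  have hET : 0 ≤ Real.exp (-(s / 2)) * T := mul_nonneg (Real.exp_pos _).le hT0
  have q1 : 0 ≤ C₃ * (B₁ * 512) := by positivity
  have q2 : 0 ≤ C₃ * (B₂ * 512) := by positivity
  have q3 : 0 ≤ C₃ * (B₃ * 8) := by positivity
  by_cases hc4 : D ≤ 4 * k
  · -- case 1
    obtain ⟨m, hm⟩ : ∃ m : ℤ, m = D / 4 - 1 := ⟨_, rfl⟩
    have h1 := locE_at L σ x hH b (v := v) (D := D) (r₁ := R₀) (m := m) (t := s) hs.le (by omega)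
      (by omega) (by omega) (by omega)
    have h2 := atF_beyond hP hb hc.1 hCb hℓ hB b (rt σ (v + x)) (m := m) (by omega) (by omega)
    have hm0 : (0 : ℝ) < (m : ℝ) := by exact_mod_cast (by omega : (0 : ℤ) < m)
    have hm8 : (D : ℝ) ≤ 8 * (m : ℝ) := by exact_mod_cast (by omega : D ≤ 8 * m)
    have hdD : ((min (k + 1) D : ℤ) : ℝ) ≤ (D : ℝ) := by exact_mod_cast min_le_right _ _
    have h3 := rl_one hc1 hℓ1 hDr hm8 hd0 hdD
    rw [← hT] at h3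
    have h5 : pr2 (kt s) (((L.rots σ).shift x).LocE H b v D) ≤
        B₁ * (al L R₀ ℓ * ((ℓ : ℝ) / m) ^ (2 + c)) := by
      rw [hB₁]
      exact h1.trans h2
    have h4 := tth7_fin hs hℓ0 p1 (by positivity) h5 hs3 hC₃.le h3
    refine h4.trans (mul_le_mul_of_nonneg_right ?_ hET)
    linarith
  · have hmin : min (k + 1) D = k + 1 := min_eq_left (by omega)
    rw [hmin] at hT
    push_cast at hT
    have hH' : HalfLike {z : Pt | z + (v.1, 0) ∈ H} := halfLike_add hH rfl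
    have hDk : ((D - k : ℤ) : ℝ) = (D : ℝ) - k := by push_cast; ring
    have hDk0 : (0 : ℝ) < (D : ℝ) - k := by
      rw [← hDk]
      exact_mod_cast (by omega : (0 : ℤ) < D - k)
    by_cases hc2 : ℓ ≤ 2 * k
    · -- case 2
      have h1 := locE_fac L σ x hH b (v := v) (D := D) (r₁ := R₀) (m := k - 1) (m₀ := 2 * k)
        (m₁ := 2 * k) (m₂ := 2 * k) (R' := D - k) (t := s) hs.le (by omega) (by omega)
        (by omega) (by omega) (by omega) (by omega) (by omega) (by omega) (by omega) (by omega)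
      have h2 := atF_beyond hP hb hc.1 hCb hℓ hB b (rt σ (v + x)) (m := k - 1) (by omega)
        (by omega)
      have e1 : hfF ((L.rots σ).shift (x + (v.1, 0))) s b {z | z + (v.1, 0) ∈ H} (2 * k)
          (2 * k) = 1 := by
        unfold hfF
        exact if_neg (lt_irrefl _)
      have h3 := hfF_beyond hh (by omega) hCh hℓ hB σ (x + (v.1, 0)) b hH' (r := 2 * k)
        (R := D - k) (by omega) (by omega)
      have n3 := tth7_hf (L := (L.rots σ).shift (x + (v.1, 0))) hs b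
        {z | z + (v.1, 0) ∈ H} (2 * k) (D - k)
      rw [e1, one_mul] at h1
      have hkm : ((k - 1 : ℤ) : ℝ) = (k : ℝ) - 1 := by push_cast; ring
      have hk2 : ((2 * k : ℤ) : ℝ) = 2 * (k : ℝ) := by push_cast; ring
      rw [hkm] at h2
      rw [hk2, hDk] at h3
      have r1 : (ℓ : ℝ) ≤ 2 * (k : ℝ) := by exact_mod_cast hc2
      have r2 : (8 : ℝ) ≤ (k : ℝ) := by exact_mod_cast (by omega : (8 : ℤ) ≤ k)
      have r3 : 4 * (k : ℝ) ≤ D := by exact_mod_cast (by omega : 4 * k ≤ D)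
      have h4 := rl_two (m := (k : ℝ) - 1) hc1 hℓ1 r1 (by linarith) r3 hDr (by linarith)
      rw [← hT] at h4
      have m0 : (0 : ℝ) < (k : ℝ) - 1 := by linarith
      have a0 : 0 ≤ (Cb + 4096 * C) * (al L R₀ ℓ * ((ℓ : ℝ) / (↑k - 1)) ^ (2 + c)) := by
        have := hal.le
        positivity
      have h5 : pr2 (kt s) (((L.rots σ).shift x).LocE H b v D) ≤
          B₂ * (al L R₀ ℓ * (((ℓ : ℝ) / (↑k - 1)) ^ (2 + c) *
            (2 * ↑k / (↑D - ↑k)) ^ (1 + c))) := by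
        refine h1.trans ((mul_le_mul h2 h3 n3 a0).trans (le_of_eq ?_))
        rw [hB₂]
        ring
      have h6 := tth7_fin hs hℓ0 p2 (by positivity) h5 hs3 hC₃.le h4
      refine h6.trans (mul_le_mul_of_nonneg_right ?_ hET)
      linarith
    · -- case 3
      have h1 := locE_fac L σ x hH b (v := v) (D := D) (r₁ := R₀) (m := k - 1)
        (m₀ := max (2 * k) R₀) (m₁ := ℓ) (m₂ := ℓ) (R' := D - k) (t := s) hs.le (by omega)
        (by omega) (by omega) (by omega) (by omega) (by omega) (by omega) (by omega) (by omega)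
        (by omega)
      have h2 := atF_static hP hR hs.le b (rt σ (v + x)) k
      have h3 := hfF_static hP hs.le σ (x + (v.1, 0)) b hH' (r := max (2 * k) R₀) (R := ℓ)
        (by omega)
      have h4 := hfF_beyond hh (by omega) hCh hℓ hB σ (x + (v.1, 0)) b hH' (r := ℓ)
        (R := D - k) le_rfl (by omega)
      have n3 := tth7_hf (L := (L.rots σ).shift (x + (v.1, 0))) hs b
        {z | z + (v.1, 0) ∈ H} (max (2 * k) R₀) ℓ
      have n4 := tth7_hf (L := (L.rots σ).shift (x + (v.1, 0))) hs b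
        {z | z + (v.1, 0) ∈ H} ℓ (D - k)
      have h5 := hP.prod hv (by omega : 2 * k < ℓ) hℓ
      rw [hDk] at h4
      obtain ⟨u, hu⟩ : ∃ u : ℤ, u = max k R₀ := ⟨_, rfl⟩
      have u0 : (0 : ℝ) < (u : ℝ) := by exact_mod_cast (by omega : (0 : ℤ) < u)
      rw [← hu] at h2 h5
      have ha1 : 0 ≤ al L R₀ u := (hP.ap.pos R₀ u le_rfl (by omega)).le
      have ha2 : 0 ≤ al L (max (2 * k) R₀) ℓ :=
        (hP.ap.pos (max (2 * k) R₀) ℓ (by omega) (by omega)).le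
      have r1 : (k : ℝ) + 1 ≤ 2 * (u : ℝ) := by exact_mod_cast (by omega : k + 1 ≤ 2 * u)
      have r2 : (k : ℝ) + 1 ≤ (ℓ : ℝ) := by exact_mod_cast (by omega : k + 1 ≤ ℓ)
      have r3 : 2 * (ℓ : ℝ) ≤ (D : ℝ) := by exact_mod_cast (by omega : 2 * ℓ ≤ D)
      have h6 := rl_three (u := (u : ℝ)) hc1 hℓ1 hk0 r1 r2 r3
      rw [← hT] at h6
      have b4 : 0 ≤ Ch * ((ℓ : ℝ) / (↑D - ↑k)) ^ (1 + c) := by positivity
      have h7 : pr2 (kt s) (((L.rots σ).shift x).LocE H b v D) ≤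
          B₃ * (al L R₀ ℓ * (((ℓ : ℝ) / ↑u) ^ ((1 : ℝ) / 2) *
            (↑ℓ / (↑D - ↑k)) ^ (1 + c))) := by
        have g1 := mul_le_mul h3 h4 n4 (by positivity)
        have g2 := mul_le_mul h2 g1 (mul_nonneg n3 n4) (by positivity)
        have g3 : 4096 * C * al L R₀ u * (C * al L (max (2 * k) R₀) ℓ ^ ((3 : ℝ) / 4) *
            (Ch * ((ℓ : ℝ) / (↑D - ↑k)) ^ (1 + c))) =
            4096 * C * C * (al L R₀ u * al L (max (2 * k) R₀) ℓ ^ ((3 : ℝ) / 4)) *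
              (Ch * ((ℓ : ℝ) / (↑D - ↑k)) ^ (1 + c)) := by ring
        have g4 : 4096 * C * C * (al L R₀ u * al L (max (2 * k) R₀) ℓ ^ ((3 : ℝ) / 4)) *
              (Ch * ((ℓ : ℝ) / (↑D - ↑k)) ^ (1 + c)) ≤ 4096 * C * C *
              (4096 * C ^ 2 * (al L R₀ ℓ * ((ℓ : ℝ) / (u : ℤ)) ^ ((1 : ℝ) / 2))) *
              (Ch * ((ℓ : ℝ) / (↑D - ↑k)) ^ (1 + c)) :=
          mul_le_mul_of_nonneg_right (mul_le_mul_of_nonneg_left h5 (by positivity)) b4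
        refine h1.trans (g2.trans (g3.le.trans (g4.trans (le_of_eq ?_))))
        rw [hB₃]
        ring
      have h8 := tth7_fin hs hℓ0 p3.le (by positivity) h7 hs3 hC₃.le h6
      refine h8.trans (mul_le_mul_of_nonneg_right ?_ hET)
      linarith

end SC

end

/-! ### from `Lib_MP_e0a489.TTHS` -/

section

/-!
# MP_e0a489, module TTH S: `ScaleOK` and `LBKOK`
-/

set_option autoImplicit false

namespace SC

variable [IfL] [IfX]

open Classical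

private theorem tths_exp {s : ℝ} (hs : 0 ≤ s) : s * Real.exp (-(s / 2)) ≤ 1 := by
  have h := Real.quadratic_le_exp_of_nonneg (x := s / 2) (by linarith)
  have hp := Real.exp_pos (s / 2)
  rw [Real.exp_neg, ← div_eq_mul_inv, div_le_one hp]
  nlinarith [sq_nonneg (s / 2 - 1)]

private theorem tths_sqrt {s : ℝ} (hs : 0 < s) :
    Real.exp (-(s / 2)) * s ^ ((1 : ℝ) / 2) ≤ 1 := by
  have h1 : (Real.exp (-(s / 2)) * s ^ ((1 : ℝ) / 2)) ^ 2 ≤ 1 := by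
    have e : (Real.exp (-(s / 2)) * s ^ ((1 : ℝ) / 2)) ^ 2 = Real.exp (-s) * s := by
      rw [mul_pow, ← Real.exp_nat_mul, ← Real.rpow_natCast (s ^ ((1 : ℝ) / 2)) 2,
        ← Real.rpow_mul hs.le]
      congr 1
      · congr 1
        push_cast
        ring
      · norm_num
    rw [e, Real.exp_neg, mul_comm, ← div_eq_mul_inv, div_le_one (Real.exp_pos s)]
    have := Real.add_one_le_exp s
    linarith
  have h0 : 0 ≤ Real.exp (-(s / 2)) * s ^ ((1 : ℝ) / 2) :=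
    mul_nonneg (Real.exp_pos _).le (Real.rpow_nonneg hs.le _)
  nlinarith

/-- `TT.scale` -/
theorem scaleOK_of {L : Lat} {C c : ℝ} {R₀ : ℤ} (hp : TT.TP L C c R₀) :
    ScaleOK L (4 * (R₀ : ℝ) ^ 2) R₀ := by
  intro ℓ t s hℓ hb hts
  obtain ⟨ℓ', h1, h2, h3, h4⟩ := TT.scale hp hℓ hb hts
  have hR16 : (16 : ℝ) ≤ R₀ := by exact_mod_cast hp.ap.R16
  have hℓ0 : (0 : ℝ) < ℓ := by
    have : (R₀ : ℝ) ≤ ℓ := by exact_mod_cast hℓ
    linarith
  have hℓ'0 : (0 : ℝ) < ℓ' := by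
    have : (R₀ : ℝ) ≤ ℓ' := by exact_mod_cast h1
    linarith
  have hal0 : 0 < al L R₀ ℓ := hp.ap.pos R₀ ℓ le_rfl hℓ
  have hal1 : al L R₀ ℓ ≤ 1 := hp.ap.le1 R₀ ℓ
  have hb' : 1 ≤ t * ((ℓ : ℝ) ^ 2 * al L R₀ ℓ) := hb
  have hprod : 0 < (ℓ : ℝ) ^ 2 * al L R₀ ℓ := by positivity
  have ht : 0 < t := by
    by_contra hcon
    push Not at hcon
    nlinarith
  have hs : 0 < s := lt_of_lt_of_le ht hts
  have htl : 1 ≤ t * (ℓ : ℝ) ^ 2 := by
    have h5 : t * ((ℓ : ℝ) ^ 2 * al L R₀ ℓ) ≤ t * ((ℓ : ℝ) ^ 2 * 1) := by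
      refine mul_le_mul_of_nonneg_left ?_ ht.le
      exact mul_le_mul_of_nonneg_left hal1 (by positivity)
    linarith
  have he1 : Real.exp (-(s / 2)) ≤ 1 := Real.exp_le_one_iff.2 (by linarith)
  have he0 := Real.exp_pos (-(s / 2))
  -- `ℓ (t / s) ^ (1/2)`
  have hX : (ℓ : ℝ) * (t / s) ^ ((1 : ℝ) / 2) = (t * (ℓ : ℝ) ^ 2) ^ ((1 : ℝ) / 2) *
      (1 / s) ^ ((1 : ℝ) / 2) := by
    rw [← Real.mul_rpow (by positivity) (by positivity)]
    have e : t * (ℓ : ℝ) ^ 2 * (1 / s) = (ℓ : ℝ) ^ 2 * (t / s) := by ring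
    rw [e, Real.mul_rpow (by positivity) (by positivity)]
    congr 1
    rw [← Real.rpow_natCast (ℓ : ℝ) 2, ← Real.rpow_mul hℓ0.le]
    norm_num
  have hX1 : (1 / s) ^ ((1 : ℝ) / 2) ≤ (ℓ : ℝ) * (t / s) ^ ((1 : ℝ) / 2) := by
    rw [hX]
    have h5 : (1 : ℝ) ≤ (t * (ℓ : ℝ) ^ 2) ^ ((1 : ℝ) / 2) :=
      Real.one_le_rpow htl (by norm_num)
    have h6 : 0 ≤ (1 / s) ^ ((1 : ℝ) / 2) := Real.rpow_nonneg (by positivity) _
    nlinarith
  have hX0 : 0 ≤ (ℓ : ℝ) * (t / s) ^ ((1 : ℝ) / 2) :=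
    mul_nonneg hℓ0.le (Real.rpow_nonneg (by positivity) _)
  have hbig : s * (ℓ' : ℝ) ^ 2 ≤ 4 * (t * (ℓ : ℝ) ^ 2) →
      (ℓ' : ℝ) ≤ 2 * (ℓ * (t / s) ^ ((1 : ℝ) / 2)) := by
    intro h5
    have h6 : ((ℓ : ℝ) * (t / s) ^ ((1 : ℝ) / 2)) ^ 2 = (ℓ : ℝ) ^ 2 * (t / s) := by
      rw [mul_pow, ← Real.rpow_natCast ((t / s) ^ ((1 : ℝ) / 2)) 2,
        ← Real.rpow_mul (by positivity)]
      norm_num
    have h7 : (ℓ' : ℝ) ^ 2 ≤ (2 * (ℓ * (t / s) ^ ((1 : ℝ) / 2))) ^ 2 := by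
      rw [mul_pow, h6]
      have h8 : (ℓ' : ℝ) ^ 2 = s * (ℓ' : ℝ) ^ 2 / s := by field_simp
      rw [h8, div_le_iff₀ hs]
      have h9 : (2 : ℝ) ^ 2 * ((ℓ : ℝ) ^ 2 * (t / s)) * s = 4 * (t * (ℓ : ℝ) ^ 2) := by
        field_simp
        norm_num
      rw [h9]
      exact h5
    exact le_of_sq_le_sq h7 (by positivity)
  refine ⟨ℓ', h1, h2, h3, ?_, ?_, ?_⟩
  · rcases h4 with h4 | ⟨h4, -⟩
    · subst h4
      have e : al L ℓ' ℓ' = 1 := by
        unfold al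
        rw [if_neg (lt_irrefl _)]
      rw [e, mul_one]
      have h5 := tths_exp hs.le
      have h6 : 0 ≤ (ℓ' : ℝ) ^ 2 := by positivity
      nlinarith
    · have h5 : 0 ≤ (ℓ' : ℝ) ^ 2 * al L R₀ ℓ' :=
        mul_nonneg (by positivity) (hp.ap.pos R₀ ℓ' le_rfl h1).le
      have h6 : s * Real.exp (-(s / 2)) * ((ℓ' : ℝ) ^ 2 * al L R₀ ℓ') ≤
          s * 1 * ((ℓ' : ℝ) ^ 2 * al L R₀ ℓ') := by
        refine mul_le_mul_of_nonneg_right ?_ h5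
        exact mul_le_mul_of_nonneg_left he1 hs.le
      nlinarith
  · have hcR : (1 : ℝ) ≤ 4 * (R₀ : ℝ) ^ 2 := by nlinarith
    rcases h4 with h4 | ⟨-, h4⟩
    · subst h4
      have h5 : Real.exp (-(s / 2)) ≤ (1 / s) ^ ((1 : ℝ) / 2) := by
        have h6 := tths_sqrt hs
        have h7 : (1 / s) ^ ((1 : ℝ) / 2) * s ^ ((1 : ℝ) / 2) = 1 := by
          rw [← Real.mul_rpow (by positivity) hs.le, one_div_mul_cancel hs.ne', Real.one_rpow]
        have h8 : 0 < s ^ ((1 : ℝ) / 2) := Real.rpow_pos_of_pos hs _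
        by_contra hcon
        push Not at hcon
        nlinarith
      have h9 : Real.exp (-(s / 2)) * ℓ' ≤ (ℓ * (t / s) ^ ((1 : ℝ) / 2)) * ℓ' :=
        mul_le_mul_of_nonneg_right (h5.trans hX1) hℓ'0.le
      have h10 : (ℓ' : ℝ) ≤ 4 * (ℓ' : ℝ) ^ 2 := by nlinarith
      calc _ ≤ _ := h9
        _ = (ℓ' : ℝ) * (ℓ * (t / s) ^ ((1 : ℝ) / 2)) := mul_comm _ _
        _ ≤ _ := mul_le_mul_of_nonneg_right h10 hX0
    · have h5 := hbig h4
      have h6 : Real.exp (-(s / 2)) * ℓ' ≤ 1 * ℓ' := mul_le_mul_of_nonneg_right he1 hℓ'0.le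
      have h7 : 2 * ((ℓ : ℝ) * (t / s) ^ ((1 : ℝ) / 2)) ≤
          4 * (R₀ : ℝ) ^ 2 * ((ℓ : ℝ) * (t / s) ^ ((1 : ℝ) / 2)) :=
        mul_le_mul_of_nonneg_right (by nlinarith) hX0
      linarith
  · rcases h4 with h4 | ⟨-, h4⟩
    · exact Or.inl h4
    · exact Or.inr (hbig h4)

/-- `TT.loc_bulk` -/
theorem lbkok_of {L : Lat} {C c C₁ c₁ : ℝ} {R₀ : ℤ} (hp : TT.TP L C c R₀) (h1 : 1 ≤ C₁)
    (hc₁ : 0 ≤ c₁) (hk : KBOK L C₁ c₁ R₀) : LBKOK L (C * C₁) c₁ R₀ := by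
  intro ℓ s hℓ hb b y d hd
  exact TT.loc_bulk hp h1 hc₁ hk hℓ hb b y hd

end SC

end

/-! ### from `Lib_MP_e0a489.TP6` -/

section

/-!
# MP_e0a489, module TP 6: bond percolation, `alpha m m' = al Z2 (2 m - 1) (2 m')`
-/

set_option autoImplicit false

namespace SC

open Classical

theorem bx_eq_rect (R : ℤ) : bx R = rect (-R) R (-R) R := by
  ext v
  show max |v.1| |v.2| ≤ R ↔ ((-R ≤ v.1 ∧ v.1 ≤ R) ∧ -R ≤ v.2 ∧ v.2 ≤ R)
  rw [max_le_iff, abs_le, abs_le]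

theorem sides_eq {R : ℤ} (hR : 0 ≤ R) : sides (-R) R (-R) R = rng R := by
  ext v
  show (((-R ≤ v.1 ∧ v.1 ≤ R) ∧ -R ≤ v.2 ∧ v.2 ≤ R) ∧
    (v.1 = -R ∨ v.1 = R ∨ v.2 = -R ∨ v.2 = R)) ↔ max |v.1| |v.2| = R
  constructor
  · rintro ⟨⟨h1, h2⟩, h3⟩
    apply le_antisymm
    · rw [max_le_iff, abs_le, abs_le]
      exact ⟨h1, h2⟩
    · rw [le_max_iff, le_abs, le_abs]
      omega
  · intro h
    have h1 : max |v.1| |v.2| ≤ R := h.le
    have h2 : R ≤ max |v.1| |v.2| := h.ge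
    rw [max_le_iff, abs_le, abs_le] at h1
    rw [le_max_iff, le_abs, le_abs] at h2
    refine ⟨h1, ?_⟩
    omega

private theorem tp6_in_list {γ : List Pt} {u v : Pt} (h1 : γ.head? = some u)
    (h2 : γ.getLast? = some v) : u ∈ γ ∧ v ∈ γ :=
  ⟨List.mem_of_head? h1, List.mem_of_getLast? h2⟩

private theorem tp6_con {L : Lat} {γ : List Pt} (h : γ.IsChain SCTop.NN) :
    L.Con {v | v ∈ γ} :=
  Lat.con_list (h.imp fun _ _ hab => nn_adj hab)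

private theorem tp6_start {m : ℤ} {x : Pt} (h1 : x ∈ Z2.nb (bx (2 * m - 1)))
    (h2 : 2 * m - 1 < nrm x) : nrm x = 2 * m := by
  obtain ⟨u, hu, hux⟩ := h1
  have hu' : max |u.1| |u.2| ≤ 2 * m - 1 := hu
  have h3 := hux.near
  have h2' : 2 * m - 1 < max |x.1| |x.2| := h2
  show max |x.1| |x.2| = 2 * m
  rw [max_le_iff, abs_le, abs_le] at hu'
  rw [abs_le, abs_le] at h3
  have h4 : max |x.1| |x.2| ≤ 2 * m := by
    rw [max_le_iff, abs_le, abs_le]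
    omega
  omega

/-- LOWER INCLUSION.  `TwoA` gives two open arms in `ann (2m-1) (2m') = bx (2m') \ bx (2m-1)`, from `x₁, x₃ ∈ nb (bx (2m-1))` to `y₁, y₃ ∈ rng (2m')`, not joined.
`dual4` (rectangle `bx (2m')`, `In = bx (2m-1)` (`con_bx`), `k = true`) gives two closed arms `x₂ - y₂`, `x₄ - y₄` and `Alt`.  Let `γᵢ` be the lists of `z2_path`, `Qᵢ = {v | v ∈ γᵢ}`
(`con_list`, `nn_adj`); `alt_sep`.  `DArm`: first site `xᵢ ∈ nb (bx (2m-1))`, not in `bx (2m-1)`, so `nrm xᵢ = 2 m` (`Adj.near`); last site in `rng (2m')`; types by `openPt_iff`, `closedPt_iff`;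
`List.Disjoint`.  For a path `δ` use `Δ = {v | v ∈ δ}`. -/
theorem twoA_fourArms {m m' : ℕ} (hm : 1 ≤ m) (hm' : m ≤ m') {ω : Cfg}
    (h : Z2.TwoA true (2 * m - 1) (2 * m') ω) :
    SCTop.fourArms m m' (opn (SCTop.edges m') 1 ω) := by
  obtain ⟨x₁, hx₁, y₁, hy₁, x₃, hx₃, y₃, hy₃, c₁, c₃, hn⟩ := h
  have hm0 : (1 : ℤ) ≤ m := by exact_mod_cast hm
  have hmm : (m : ℤ) ≤ m' := by exact_mod_cast hm'
  have hann : ann (2 * (m : ℤ) - 1) (2 * m') =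
      rect (-(2 * (m' : ℤ))) (2 * m') (-(2 * (m' : ℤ))) (2 * m') \ bx (2 * m - 1) := by
    rw [← bx_eq_rect]
    ext v
    show (2 * (m : ℤ) - 1 < nrm v ∧ nrm v ≤ 2 * m') ↔ (nrm v ≤ 2 * m' ∧ ¬ nrm v ≤ 2 * m - 1)
    omega
  have hside : sides (-(2 * (m' : ℤ))) (2 * m') (-(2 * (m' : ℤ))) (2 * m') = rng (2 * m') :=
    sides_eq (by omega)
  have hIn : Z2.Con (bx (2 * (m : ℤ) - 1)) := Lat.con_bx _
  have hne : (bx (2 * (m : ℤ) - 1)).Nonempty := by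
    refine ⟨(0, 0), ?_⟩
    show max |(0 : ℤ)| |(0 : ℤ)| ≤ 2 * m - 1
    rw [abs_zero, max_self]
    omega
  have hsub : bx (2 * (m : ℤ) - 1) ⊆
      rect (-(2 * (m' : ℤ))) (2 * m') (-(2 * (m' : ℤ))) (2 * m') := by
    rw [← bx_eq_rect]
    intro v hv
    have h1 : nrm v ≤ 2 * m - 1 := hv
    show nrm v ≤ 2 * m'
    omega
  have hs : ∀ v ∈ bx (2 * (m : ℤ) - 1),
      v ∉ sides (-(2 * (m' : ℤ))) (2 * m') (-(2 * (m' : ℤ))) (2 * m') := by
    rw [hside]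
    intro v hv hv'
    have h1 : nrm v ≤ 2 * m - 1 := hv
    have h2 : nrm v = 2 * m' := hv'
    omega
  rw [hann] at c₁ c₃ hn
  rw [← hside] at hy₁ hy₃
  obtain ⟨x₂, y₂, x₄, y₄, hx₂, hx₄, hy₂, hy₄, c₂, c₄, hAlt⟩ :=
    Lat.dual4 (L := Z2) (k := true) (ω := ω) (by omega) (by omega) hIn hne hsub hs hx₁ hx₃ hy₁ hy₃
      c₁ c₃ hn
  rw [hside] at hy₁ hy₃ hy₂ hy₄
  rw [← hann] at c₁ c₂ c₃ c₄
  obtain ⟨γ₁, a₁, b₁, d₁, e₁⟩ := z2_path c₁
  obtain ⟨γ₂, a₂, b₂, d₂, e₂⟩ := z2_path c₂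
  obtain ⟨γ₃, a₃, b₃, d₃, e₃⟩ := z2_path c₃
  obtain ⟨γ₄, a₄, b₄, d₄, e₄⟩ := z2_path c₄
  obtain ⟨i₁, j₁⟩ := tp6_in_list a₁ b₁
  obtain ⟨i₂, j₂⟩ := tp6_in_list a₂ b₂
  obtain ⟨i₃, j₃⟩ := tp6_in_list a₃ b₃
  obtain ⟨i₄, j₄⟩ := tp6_in_list a₄ b₄
  have hsepp := Lat.alt_sep (L := Z2) (k := true) (ω := ω) hIn hsub
    (Q₁ := {v | v ∈ γ₁}) (Q₂ := {v | v ∈ γ₂}) (Q₃ := {v | v ∈ γ₃}) (Q₄ := {v | v ∈ γ₄})
    (tp6_con e₁) (tp6_con e₂) (tp6_con e₃) (tp6_con e₄)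
    (fun v hv => ⟨by rw [← hann]; exact (d₁ v hv).1, (d₁ v hv).2⟩)
    (fun v hv => ⟨by rw [← hann]; exact (d₂ v hv).1, (d₂ v hv).2⟩)
    (fun v hv => ⟨by rw [← hann]; exact (d₃ v hv).1, (d₃ v hv).2⟩)
    (fun v hv => ⟨by rw [← hann]; exact (d₄ v hv).1, (d₄ v hv).2⟩)
    ⟨x₁, i₁, hx₁⟩ ⟨x₂, i₂, hx₂⟩ ⟨x₃, i₃, hx₃⟩ ⟨x₄, i₄, hx₄⟩ j₁ j₂ j₃ j₄ hAlt
  obtain ⟨s1, s2, s3⟩ := hsepp
  have hpath : ∀ {c : Bool} {γ : List Pt}, γ.IsChain SCTop.NN →
      (∀ w ∈ γ, w ∈ ann (2 * (m : ℤ) - 1) (2 * m') ∧ w ∈ Z2.col c ω) → SCTop.DPath m m' γ := by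
    intro c γ h1 h2
    refine ⟨h1, fun v hv => ?_⟩
    have h3 : 2 * (m : ℤ) - 1 < nrm v := (h2 v hv).1.1
    have h4 : nrm v ≤ 2 * m' := (h2 v hv).1.2
    show 2 * (m : ℤ) ≤ nrm v ∧ nrm v ≤ 2 * m'
    omega
  have hop : ∀ {x y : Pt} {γ : List Pt}, γ.head? = some x → γ.getLast? = some y →
      γ.IsChain SCTop.NN → x ∈ Z2.nb (bx (2 * (m : ℤ) - 1)) → y ∈ rng (2 * (m' : ℤ)) →
      (∀ w ∈ γ, w ∈ ann (2 * (m : ℤ) - 1) (2 * m') ∧ w ∈ Z2.col true ω) →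
      SCTop.DArm (SCTop.openPt (opn (SCTop.edges m') 1 ω)) m m' γ := by
    intro x y γ h1 h2 h3 h4 h5 h6
    refine ⟨hpath h3 h6, fun v hv => (openPt_iff (h6 v hv).1.2).2 (h6 v hv).2, ⟨x, h1, ?_⟩,
      ⟨y, h2, h5⟩⟩
    exact tp6_start h4 (h6 x (List.mem_of_head? h1)).1.1
  have hcp : ∀ {x y : Pt} {γ : List Pt}, γ.head? = some x → γ.getLast? = some y →
      γ.IsChain SCTop.NN → x ∈ Z2.nb (bx (2 * (m : ℤ) - 1)) → y ∈ rng (2 * (m' : ℤ)) →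
      (∀ w ∈ γ, w ∈ ann (2 * (m : ℤ) - 1) (2 * m') ∧ w ∈ Z2.col false ω) →
      SCTop.DArm (SCTop.closedPt (opn (SCTop.edges m') 1 ω)) m m' γ := by
    intro x y γ h1 h2 h3 h4 h5 h6
    refine ⟨hpath h3 h6, fun v hv => (closedPt_iff (h6 v hv).1.2).2 (h6 v hv).2, ⟨x, h1, ?_⟩,
      ⟨y, h2, h5⟩⟩
    exact tp6_start h4 (h6 x (List.mem_of_head? h1)).1.1
  refine ⟨γ₁, γ₂, γ₃, γ₄, hop a₁ b₁ e₁ hx₁ hy₁ d₁, hcp a₂ b₂ e₂ hx₂ hy₂ d₂,
    hop a₃ b₃ e₃ hx₃ hy₃ d₃, hcp a₄ b₄ e₄ hx₄ hy₄ d₄, fun v h1 h2 => s2 v h1 h2,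
    fun v h1 h2 => s1 v h1 h2, ?_⟩
  rintro δ hδ ⟨u, hu, hu'⟩ ⟨v, hv, hv'⟩
  obtain ⟨z, hz1, hz2⟩ := s3 {w | w ∈ δ} (tp6_con hδ.chain) (by
      intro w hw
      rw [← hann]
      have h1 := hδ.ann w hw
      have h2 : 2 * (m : ℤ) ≤ nrm w := h1.1
      have h3 : nrm w ≤ 2 * m' := h1.2
      exact ⟨by omega, h3⟩) ⟨u, List.mem_of_head? hu', hu⟩ ⟨v, List.mem_of_getLast? hv', hv⟩
  exact ⟨z, hz1, hz2⟩

/-- `prob_eq` (with `e = 1`), `fourArms_twoA`, `twoA_fourArms`, definition of `al` (`2 m - 1 < 2 m'`) -/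
theorem alpha_eq {m m' : ℕ} (hm : 1 ≤ m) (hm' : m ≤ m') :
    SCTop.alpha m m' = al Z2 (2 * m - 1) (2 * m') := by
  have h1 : (2 * (m : ℤ) - 1) < 2 * (m' : ℤ) := by
    have : (m : ℤ) ≤ m' := by exact_mod_cast hm'
    omega
  unfold SCTop.alpha al
  rw [if_pos h1, prob_eq (SCTop.edges m') 1]
  congr 1
  funext ω
  exact propext ⟨fourArms_twoA hm hm', twoA_fourArms hm hm'⟩

end SC

end

/-! ### from `Lib_MP_e0a489.ZR3` -/

section

/-!
# MP_e0a489, module ZR, 3: crossings of even squares have probability at least `1/2`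
-/

set_option autoImplicit false

namespace SC

open Classical

/-- paths are mapped to paths by a map which sends adjacent sites to adjacent or equal sites -/
theorem cn_map {L : Lat} {A B : Set Pt} {u v : Pt} (f : Pt → Pt) (h : L.Cn A u v)
    (hf : ∀ x ∈ A, f x ∈ B)
    (hadj : ∀ x ∈ A, ∀ y ∈ A, L.Adj x y → f x = f y ∨ L.Adj (f x) (f y)) :
    L.Cn B (f u) (f v) := by
  obtain ⟨h0, h1⟩ := h
  have : L.Cn B (f u) (f v) ∧ v ∈ A := by
    induction h1 with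
    | refl => exact ⟨Lat.Cn.refl (hf u h0), h0⟩
    | tail _ hbc ih =>
      refine ⟨ih.1.trans ?_, hbc.2⟩
      rcases hadj _ ih.2 _ hbc.2 hbc.1 with e | e
      · rw [e]
        exact Lat.Cn.refl (hf _ hbc.2)
      · exact Lat.Cn.of_adj (hf _ ih.2) (hf _ hbc.2) e
  exact this.1

/-- trimming the dangling edges: an open crossing of the square `[1,n+1]²` gives one of `[0,n]²` -/
theorem z2_trim {n : ℤ} (hn : n % 2 = 0) (h2 : 2 ≤ n) {ω : Cfg}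
    (h : Z2.HX true 1 (n + 1) 1 (n + 1) ω) : Z2.HX true 0 n 0 n ω := by
  obtain ⟨u, v, hu, hv, h3⟩ := h
  have hodd : ∀ w ∈ rect 1 (n + 1) 1 (n + 1) ∩ Z2.col true ω, w.1 % 2 = 1 → w.2 % 2 = 0 := by
    intro w hw h1
    by_contra h4
    exact col_ne hw.2 (z2_closed h1 (by omega))
  have h5 : Z2.Cn (rect 1 (n + 1) 2 n ∩ Z2.col true ω) (u.1, max 2 (min n u.2))
      (v.1, max 2 (min n v.2)) := by
    refine cn_map (fun w => (w.1, max 2 (min n w.2))) h3 ?_ ?_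
    · intro w hw
      have h6 := hodd w hw
      obtain ⟨⟨h7, h8⟩, h9⟩ := hw
      refine ⟨⟨h7, by dsimp only; omega⟩, ?_⟩
      by_cases h10 : 2 ≤ w.2 ∧ w.2 ≤ n
      · have : ((w.1, max 2 (min n w.2)) : Pt) = w := by
          ext
          · rfl
          · dsimp only; omega
        show ((w.1, max 2 (min n w.2)) : Pt) ∈ _
        rw [this]
        exact h9
      · refine z2_open ?_ ?_
        · dsimp only; omega
        · dsimp only; omega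
    · have key : ∀ x ∈ rect 1 (n + 1) 1 (n + 1) ∩ Z2.col true ω,
          ∀ y ∈ rect 1 (n + 1) 1 (n + 1) ∩ Z2.col true ω, Z2.Adj x y →
          ¬ (2 ≤ x.2 ∧ x.2 ≤ n) →
          ((x.1, max 2 (min n x.2)) : Pt) = (y.1, max 2 (min n y.2)) := by
        intro x hx y hy hxy hx2
        have h6 := hodd x hx
        have h6' := hodd y hy
        obtain ⟨⟨h7, h8⟩, h9⟩ := hx
        obtain ⟨⟨h7', h8'⟩, h9'⟩ := hy
        have h10 := z2_adj_odd hxy (by omega)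
        ext
        · dsimp only; omega
        · dsimp only; omega
      intro x hx y hy hxy
      by_cases h6 : 2 ≤ x.2 ∧ x.2 ≤ n
      · by_cases h7 : 2 ≤ y.2 ∧ y.2 ≤ n
        · right
          have e1 : ((x.1, max 2 (min n x.2)) : Pt) = x := by
            ext
            · rfl
            · dsimp only; omega
          have e2 : ((y.1, max 2 (min n y.2)) : Pt) = y := by
            ext
            · rfl
            · dsimp only; omega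
          show Z2.Adj (x.1, max 2 (min n x.2)) (y.1, max 2 (min n y.2))
          rw [e1, e2]
          exact hxy
        · left
          exact (key y hy x hx hxy.symm h7).symm
      · left
        exact key x hx y hy hxy h6
  have hu2 := hodd u h3.left (by omega)
  have hur := h3.left.1
  have e : ((u.1, max 2 (min n u.2)) : Pt) = (1, u.2) := by
    obtain ⟨h7, h8⟩ := hur
    ext
    · exact hu
    · dsimp only; omega
  rw [e] at h5
  have h6 : Z2.HX true 0 (n + 1) 2 n ω := by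
    refine ⟨(0, u.2), (v.1, max 2 (min n v.2)), rfl, hv, ?_⟩
    have h7 : Z2.Cn (rect 0 (n + 1) 2 n ∩ Z2.col true ω) (1, u.2)
        (v.1, max 2 (min n v.2)) := by
      refine h5.mono (Set.inter_subset_inter_left _ ?_)
      rintro w ⟨h8, h9⟩
      exact ⟨by omega, h9⟩
    refine Lat.Cn.trans (Lat.Cn.of_adj ?_ h7.left ?_) h7
    · refine ⟨⟨by dsimp only; omega, h7.left.1.2⟩, z2_open (by dsimp only; omega) hu2⟩
    · exact Lat.adj_right (L := Z2) (0, u.2)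
  exact h6.mono le_rfl (by omega) (by omega) (by omega) le_rfl

/-- Even squares. -/
theorem z2_square {n : ℤ} (hn : n % 2 = 0) (h2 : 2 ≤ n) :
    (1 : ℝ) / 2 ≤ pr (Z2.HX true 0 n 0 n) := by
  have h1 : pr (fun ω => ¬ Z2.HX true 0 n 0 n ω) = 1 - pr (Z2.HX true 0 n 0 n) :=
    pr_not (Lat.HX.loc Z2 true 0 n 0 n)
  have h3 : (fun ω => ¬ Z2.HX true 0 n 0 n ω) = Z2.VX (!true) 0 n 0 n := by
    funext ω
    exact propext (Lat.not_hx (by omega) (by omega) true ω)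
  rw [h3, z2_pr_sw_vx, z2_pr_tr_vx] at h1
  have h4 : pr (Z2.HX true (0 + 1) (n + 1) (0 + 1) (n + 1)) ≤ pr (Z2.HX true 0 n 0 n) := by
    refine pr_mono (Lat.HX.loc Z2 true _ _ _ _) (Lat.HX.loc Z2 true _ _ _ _) ?_
    intro ω hω
    rw [zero_add] at hω
    exact z2_trim hn h2 hω
  linarith

theorem z2_square_v {n : ℤ} (hn : n % 2 = 0) (h2 : 2 ≤ n) :
    (1 : ℝ) / 2 ≤ pr (Z2.VX true 0 n 0 n) := by
  rw [z2_pr_tr_vx]
  exact z2_square hn h2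

end SC

end

/-! ### from `Lib_MP_e0a489.ZR9` -/

section

/-!
# MP_e0a489, module ZR, 9: long rectangles of `Z2`
-/

set_option autoImplicit false

namespace SC

open Classical

/-- `tr_rfy` / `tr_rfx` and `z2_ry`, `z2_rx`, `z2_shift` -/
theorem z2_tr_rfy {h : ℤ} (hh : h % 2 = 0) : Tr Z2 Z2 (rfy h) := by
  have h1 := tr_rfy Z2 h
  rwa [z2_ry, z2_shift (0, -h) (by norm_num) (by dsimp only; omega)] at h1

theorem z2_tr_rfx {h : ℤ} (hh : h % 2 = 0) : Tr Z2 Z2 (rfx h) := by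
  have h1 := tr_rfx Z2 h
  rwa [z2_rx, z2_shift (-h, 0) (by dsimp only; omega) (by norm_num)] at h1

/-- `h(3N, 2N) ≥ 2⁻⁷`: `pr (XX N (2N) N) ≥ 1/2 * 1/2 * 1/2` (`zr_rsw` with `hL = z2_tr_rfy`, `z2_square` for the square of side `2N`, `z2_square_v` for the square of side `N`), `pr (HX true 0 N 0 N) ≥ 1/2`, `xx_pr` with `L' = Z2`
(`z2_tr_rfx`, `a = N`, `m = 2N`, `n = N`); the rectangle `[-N, 2N] × [0, 2N]` is translated by `(N, 0)` (`z2_pr_shift_hx`). -/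
theorem zr_32 {N : ℤ} (hN : N % 2 = 0) (h2 : 2 ≤ N) :
    (1 / 2 : ℝ) ^ 7 ≤ pr (Z2.HX true 0 (3 * N) 0 (2 * N)) := by
  have h3 := zr_rsw (L := Z2) (a := N) (m := 2 * N) (n := N) (z2_tr_rfy (by omega))
    (by omega) (by omega) (by omega)
  have h4 := z2_square (n := 2 * N) (by omega) (by omega)
  have h5 := z2_square_v hN h2
  have h6 := z2_square hN h2
  have h7 : (1 / 8 : ℝ) ≤ pr (Z2.XX N (2 * N) N) := by
    have h8 : (1 / 2 : ℝ) * (1 / 2) * (1 / 2) ≤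
        1 / 2 * pr (Z2.HX true 0 (2 * N) 0 (2 * N)) * pr (Z2.VX true 0 N 0 N) :=
      mul_le_mul (mul_le_mul_of_nonneg_left h4 (by norm_num)) h5 (by norm_num)
        (mul_nonneg (by norm_num) (pr_nonneg _))
    linarith
  have h9 := xx_pr (L := Z2) (L' := Z2) (a := N) (m := 2 * N) (n := N) (z2_tr_rfx hN)
    (by omega) (by omega) (by omega)
  have h10 : (1 / 8 : ℝ) * (1 / 8) * (1 / 2) ≤
      pr (Z2.XX N (2 * N) N) * pr (Z2.XX N (2 * N) N) * pr (Z2.HX true 0 N 0 N) :=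
    mul_le_mul (mul_le_mul h7 h7 (by norm_num) (pr_nonneg _)) h6 (by norm_num)
      (mul_nonneg (pr_nonneg _) (pr_nonneg _))
  have h11 := z2_pr_shift_hx true (N - 2 * N) (2 * N) 0 (2 * N) N 0 hN (by norm_num)
  have e1 : N - 2 * N + N = 0 := by ring
  have e2 : 2 * N + N = 3 * N := by ring
  rw [e1, e2, add_zero, add_zero] at h11
  rw [h11]
  calc (1 / 2 : ℝ) ^ 7 = 1 / 8 * (1 / 8) * (1 / 2) := by norm_num
    _ ≤ _ := h10.trans h9

/-- Extension.  `pr_glue_hx` for `a = 0`, `b = m`, `a' = m - n`, `b' = m - n + m'`, `p = 0`, `q = n`; translations by `(m - n, 0)` (`m - n` is even), `z2_square_v`. -/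
theorem zr_ext {m m' n : ℤ} (hm : m % 2 = 0) (hn : n % 2 = 0) (h2 : 2 ≤ n) (h3 : n ≤ m)
    (h4 : n ≤ m') : pr (Z2.HX true 0 m 0 n) * pr (Z2.HX true 0 m' 0 n) * (1 / 2) ≤
      pr (Z2.HX true 0 (m - n + m') 0 n) := by
  have h5 := pr_glue_hx (L := Z2) (a := 0) (b := m) (a' := m - n) (b' := m - n + m') (p := 0)
    (q := n) (by omega) (by omega) (by omega) (by omega)
  have h6 := z2_pr_shift_hx true 0 m' 0 n (m - n) 0 (by omega) (by norm_num)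
  have h7 := z2_pr_shift_vx true 0 n 0 n (m - n) 0 (by omega) (by norm_num)
  have e1 : m' + (m - n) = m - n + m' := by ring
  have e2 : n + (m - n) = m := by ring
  rw [zero_add, e1, add_zero, add_zero] at h6
  rw [zero_add, e2, add_zero, add_zero] at h7
  rw [h6, h7] at h5
  have h8 := z2_square_v hn h2
  refine le_trans (mul_le_mul_of_nonneg_left h8 (mul_nonneg (pr_nonneg _) (pr_nonneg _))) h5

/-- Induction on `j` with `zr_ext` for `m = (j + 2) N`, `m' = 3 N`, `n = 2 N` (then `m - n + m' = (j + 3) N`): the constants are `2⁻⁷` for `j = 1` and are multiplied by `2⁻⁸`. -/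
theorem zr_long (j : ℕ) (hj : 1 ≤ j) {N : ℤ} (hN : N % 2 = 0) (h2 : 2 ≤ N) :
    (1 / 2 : ℝ) ^ (8 * j) ≤ pr (Z2.HX true 0 ((j + 2) * N) 0 (2 * N)) := by
  induction j, hj using Nat.le_induction with
  | base =>
    have h3 := zr_32 hN h2
    have e1 : (((1 : ℕ) : ℤ) + 2) * N = 3 * N := by push_cast; ring
    rw [e1]
    refine le_trans ?_ h3
    norm_num
  | succ j hj ih =>
    have h3 := zr_32 hN h2
    have hj' : (1 : ℤ) ≤ (j : ℤ) := by exact_mod_cast hj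
    have e0 : ((j : ℤ) + 2) * N % 2 = 0 := by
      obtain ⟨K, hK⟩ : ∃ K, N = 2 * K := ⟨N / 2, by omega⟩
      have e : ((j : ℤ) + 2) * N = 2 * (((j : ℤ) + 2) * K) := by rw [hK]; ring
      rw [e]
      exact Int.mul_emod_right 2 _
    have h4 := zr_ext (m := ((j : ℤ) + 2) * N) (m' := 3 * N) (n := 2 * N) e0 (by omega) (by omega)
      (by nlinarith) (by omega)
    have e1 : ((j : ℤ) + 2) * N - 2 * N + 3 * N = (((j + 1 : ℕ) : ℤ) + 2) * N := by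
      push_cast
      ring
    rw [e1] at h4
    refine le_trans ?_ h4
    have h5 : (1 / 2 : ℝ) ^ (8 * j) * (1 / 2) ^ 7 ≤
        pr (Z2.HX true 0 (((j : ℤ) + 2) * N) 0 (2 * N)) * pr (Z2.HX true 0 (3 * N) 0 (2 * N)) :=
      mul_le_mul ih h3 (by positivity) (pr_nonneg _)
    calc (1 / 2 : ℝ) ^ (8 * (j + 1)) = (1 / 2 : ℝ) ^ (8 * j) * (1 / 2) ^ 7 * (1 / 2) := by
          rw [mul_add, pow_add]
          ring
      _ ≤ _ := mul_le_mul_of_nonneg_right h5 (by norm_num)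

end SC

end

/-! ### from `Lib_MP_e0a489.ZR10` -/

section

/-!
# MP_e0a489, module ZR, 10: the box crossing property of `Z2`
-/

set_option autoImplicit false

namespace SC

open Classical

/-- Small rectangles.  If all fair sites are open there is a crossing along the row `0` (the sites of the row `0` are vertices or edges of `ℤ²`, never faces).  The probability that the `m + 1` sites of the row
are open is at least `(1/2) ^ (m + 1)` (`pr_pos` for `HX true 0 m 0 0` and the finite set of the sites of `rect 0 m 0 0`, `HX.mono`, `pr_mono`). -/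
theorem zr_row {m n : ℤ} (h0 : 0 ≤ m) (hn : 0 ≤ n) :
    (1 / 2 : ℝ) ^ (m.toNat + 1) ≤ pr (Z2.HX true 0 m 0 n) := by
  have hcol : ∀ i : ℤ, ((i, 0) : Pt) ∈ Z2.col true (fun _ => true) := by
    intro i
    by_cases hi : i % 2 = 0
    · exact z2_open hi rfl
    · show (Z2.typ (i, 0)).getD true = true
      rw [z2_fair (v := ((i, 0) : Pt)) (by dsimp only; omega)]
      rfl
  have hpath : ∀ k : ℕ, (k : ℤ) ≤ m →
      Z2.Cn (rect 0 m 0 0 ∩ Z2.col true (fun _ => true)) (0, 0) ((k : ℤ), 0) := by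
    intro k
    induction k with
    | zero =>
      intro _
      exact Lat.Cn.refl ⟨⟨⟨le_rfl, h0⟩, le_rfl, le_rfl⟩, hcol 0⟩
    | succ k ih =>
      intro hk
      push_cast at hk ⊢
      have h1 := ih (by omega)
      have hmem1 : (((k : ℤ), 0) : Pt) ∈ rect 0 m 0 0 ∩ Z2.col true (fun _ => true) :=
        ⟨⟨⟨by dsimp only; omega, by dsimp only; omega⟩, le_rfl, le_rfl⟩, hcol _⟩
      have hmem2 : (((k : ℤ) + 1, 0) : Pt) ∈ rect 0 m 0 0 ∩ Z2.col true (fun _ => true) :=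
        ⟨⟨⟨by dsimp only; omega, by dsimp only; omega⟩, le_rfl, le_rfl⟩, hcol _⟩
      exact Lat.Cn.trans h1 (Lat.Cn.of_adj hmem1 hmem2 (Lat.adj_right (L := Z2) ((k : ℤ), 0)))
  have hω : Z2.HX true 0 m 0 0 (fun _ => true) := by
    refine ⟨(0, 0), (m, 0), rfl, rfl, ?_⟩
    have h1 := hpath m.toNat (by omega)
    rwa [Int.toNat_of_nonneg h0] at h1
  let F : Finset Pt := (Finset.Icc (0 : ℤ) m).image fun i => (i, 0)
  have hdep : Dep (Z2.HX true 0 m 0 0) (F : Set Pt) := by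
    refine (Lat.HX.dep Z2 true 0 m 0 0).mono ?_
    rintro ⟨x, y⟩ ⟨⟨h1, h2⟩, h3, h4⟩
    dsimp only at h1 h2 h3 h4
    have hy : y = 0 := le_antisymm h4 h3
    subst hy
    exact Finset.mem_coe.2 (Finset.mem_image.2 ⟨x, Finset.mem_Icc.2 ⟨h1, h2⟩, rfl⟩)
  have hcard : F.card = m.toNat + 1 := by
    rw [Finset.card_image_of_injective _ (fun i j h => (Prod.ext_iff.1 h).1), Int.card_Icc]
    omega
  have h5 := pr_pos hdep hω
  rw [hcard] at h5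
  refine h5.trans (pr_mono (Lat.HX.loc Z2 true _ _ _ _) (Lat.HX.loc Z2 true _ _ _ _) ?_)
  intro ω h
  exact h.mono le_rfl h0 le_rfl le_rfl hn

/-- Even rectangles of bounded aspect ratio.  For `n ≥ 4` let `N = 2 (n / 4)` (even, `N ≥ 2`, `2 N ≤ n ≤ 2 N + 3`, so `n ≤ 4 N`); with `j = 4 k` we have `m ≤ k n ≤ 4 k N ≤ (j + 2) N`, so the crossing of
`[0,(j+2)N] × [0,2N]` gives one of `[0,m] × [0,n]` (`HX.mono`), probability at least `(1/2) ^ (32 k)` (`zr_long`).  For `2 ≤ n ≤ 3`: `m ≤ 3 k`, `zr_row`. -/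
theorem zr_even (k : ℕ) (hk : 1 ≤ k) {m n : ℤ} (h0 : 0 ≤ m) (hn : 2 ≤ n) (hm : m ≤ k * n) :
    (1 / 2 : ℝ) ^ (32 * k) ≤ pr (Z2.HX true 0 m 0 n) := by
  have hk' : (1 : ℤ) ≤ k := by exact_mod_cast hk
  by_cases h4 : 4 ≤ n
  · obtain ⟨q, hq⟩ : ∃ q : ℤ, q = n / 4 := ⟨_, rfl⟩
    have hq1 : 1 ≤ q := by omega
    have hq2 : 4 * q ≤ n := by omega
    have hq3 : n ≤ 4 * q + 3 := by omega
    have h5 := zr_long (4 * k) (by omega) (N := 2 * q) (by omega) (by omega)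
    have e1 : 8 * (4 * k) = 32 * k := by ring
    rw [e1] at h5
    refine h5.trans (pr_mono (Lat.HX.loc Z2 true _ _ _ _) (Lat.HX.loc Z2 true _ _ _ _) ?_)
    intro ω h
    refine h.mono le_rfl h0 ?_ le_rfl (by omega)
    have h6 : (k : ℤ) * n ≤ k * (8 * q) := by
      apply mul_le_mul_of_nonneg_left _ (by omega)
      omega
    push_cast
    nlinarith
  · have h5 : m ≤ k * 3 := hm.trans (mul_le_mul_of_nonneg_left (by omega) (by omega))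
    refine le_trans ?_ (zr_row h0 (by omega : (0 : ℤ) ≤ n))
    exact pow_le_pow_of_le_one (by norm_num) (by norm_num) (by omega)

/-- All positions.  `a' ≤ a`, `p ≤ p'` the next even numbers (`a - 1 ≤ a'`, `p' ≤ p + 1`): the crossing of `[a',a+kn] × [p',p+n]` gives one of
`[a,a+kn] × [p,p+n]`; translate by `(a', p')` (`z2_pr_shift_hx`); width `≤ k n + 1 ≤ 2 k (n - 1)`, height `≥ n - 1 ≥ 2`: `zr_even` for `2 k`. -/
theorem zr_open (k : ℕ) (hk : 1 ≤ k) {n a p : ℤ} (hn : 4 ≤ n) :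
    (1 / 2 : ℝ) ^ (64 * k) ≤ pr (Z2.HX true a (a + k * n) p (p + n)) := by
  have hk' : (1 : ℤ) ≤ k := by exact_mod_cast hk
  have hkn : 2 * (k : ℤ) + 1 ≤ k * n := by nlinarith
  obtain ⟨a', ha'⟩ : ∃ a' : ℤ, a' = a - a % 2 := ⟨_, rfl⟩
  obtain ⟨p', hp'⟩ : ∃ p' : ℤ, p' = p + p % 2 := ⟨_, rfl⟩
  have h1 : a' % 2 = 0 := by omega
  have h2 : p' % 2 = 0 := by omega
  have h3 : a' ≤ a := by omega
  have h4 : a ≤ a' + 1 := by omega
  have h5 : p ≤ p' := by omega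
  have h6 : p' ≤ p + 1 := by omega
  have h7 : (1 / 2 : ℝ) ^ (32 * (2 * k)) ≤
      pr (Z2.HX true 0 (a + k * n - a') 0 (p + n - p')) := by
    refine zr_even (2 * k) (by omega) (by nlinarith) (by omega) ?_
    have h8 : (2 * k : ℤ) * (n - 1) ≤ (2 * k) * (p + n - p') :=
      mul_le_mul_of_nonneg_left (by omega) (by omega)
    push_cast
    nlinarith
  rw [← z2_pr_shift_hx true 0 (a + k * n - a') 0 (p + n - p') a' p' h1 h2] at h7
  have e1 : 32 * (2 * k) = 64 * k := by ring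
  have e2 : a + k * n - a' + a' = a + k * n := by ring
  have e3 : p + n - p' + p' = p + n := by ring
  rw [e1, e2, e3, zero_add, zero_add] at h7
  refine h7.trans (pr_mono (Lat.HX.loc Z2 true _ _ _ _) (Lat.HX.loc Z2 true _ _ _ _) ?_)
  intro ω h
  exact h.mono h3 (by nlinarith) le_rfl h5 le_rfl

/-- Closed crossings by `z2_pr_sw_hx`, vertical ones by `z2_pr_tr_vx`; `κ k = (1/2) ^ (64 k)`. -/
theorem z2_rsw : ∃ κ : ℕ → ℝ, RSW Z2 κ := by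
  have hh : ∀ (k : ℕ) (b : Bool) (n a p : ℤ), 1 ≤ k → 4 ≤ n →
      (1 / 2 : ℝ) ^ (64 * k) ≤ pr (Z2.HX b a (a + k * n) p (p + n)) := by
    intro k b n a p hk hn
    cases b with
    | true => exact zr_open k hk hn
    | false =>
      have h := z2_pr_sw_hx true a (a + k * n) p (p + n)
      rw [Bool.not_true] at h
      rw [h]
      have h1 := zr_open k hk (a := a + 1) (p := p + 1) hn
      have e1 : a + 1 + k * n = a + k * n + 1 := by ring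
      have e2 : p + 1 + n = p + n + 1 := by ring
      rwa [e1, e2] at h1
  refine ⟨fun k => (1 / 2 : ℝ) ^ (64 * k), fun k => by positivity, hh, ?_⟩
  intro k b n a p hk hn
  rw [z2_pr_tr_vx]
  exact hh k b n p a hk hn

/-- `Fam`: `z2_shift`, `z2_sw`, `z2_rx`, `z2_ry` (with the shift by `0`, `z2_shift 0`) -/
theorem z2_fam : ∃ κ : ℕ → ℝ, Fam Z2 κ := by
  obtain ⟨κ, hκ⟩ := z2_rsw
  have h0 : Z2.shift (0, 0) = Z2 := z2_shift (0, 0) rfl rfl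
  exact ⟨κ, hκ, z2_shift (2, 0) rfl rfl, z2_shift (0, 2) rfl rfl, ⟨(1, 1), z2_sw⟩,
    ⟨(0, 0), by rw [h0]; exact z2_rx⟩, ⟨(0, 0), by rw [h0]; exact z2_ry⟩⟩

end SC

end

/-! ### from `Lib_MP_e0a489.ZT4` -/

section

/-!
# MP_e0a489, triangular lattice, 4: long horizontal crossings at one of four consecutive scales
-/

set_option autoImplicit false

namespace SC

open Classical

/-- the data of a good scale `N`: `S = [0,a] × [0,N]`, `R = [0,m] × [0,2N]` -/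
structure Good (N a m : ℤ) : Prop where
  big : 12 ≤ N
  a0 : 0 ≤ a
  am : 3 * a ≤ 2 * m + 3
  Nm : N ≤ m
  h1 : 1 / 4 ≤ tH a N
  v1 : 1 / 2 ≤ tV a N
  h2 : 1 / 2 ≤ tH m (2 * N)
  v2 : 1 / 2 ≤ tV (m + 1) (2 * N)

private theorem zt4_good {N m m' : ℤ} (hN : 12 ≤ N) (l1 : N - N / 2 ≤ m)
    (p1 : 1 / 2 ≤ tH m N) (q1 : 1 / 2 ≤ tV (m + 1) N)
    (l2 : 2 * N - 2 * N / 2 ≤ m') (p2 : 1 / 2 ≤ tH m' (2 * N))
    (q2 : 1 / 2 ≤ tV (m' + 1) (2 * N)) (h : 3 * m ≤ 2 * m') : Good N (m + 1) m' := by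
  have hm : 0 ≤ m := by omega
  refine ⟨hN, by omega, by omega, by omega, ?_, q1, p2, q2⟩
  have := tl_col hm (by omega : (0 : ℤ) ≤ N)
  linarith

/-- Pigeonhole.  Let `mᵢ` be the number given by `tl_a` for the height `2ⁱ n`, `i = 0, …, 4`.  `m₄ ≥ 8 n` and `m₀ ≤ 3 n / 2`; if `2 mᵢ₊₁ < 3 mᵢ` for `i = 0, 1, 2, 3` then `16 m₄ < 81 m₀` (linear arithmetic), contradiction.  So
`3 mᵢ ≤ 2 mᵢ₊₁` for some `i ≤ 3`; take `N = 2ⁱ n`, `a = mᵢ + 1`, `m = mᵢ₊₁` (`tl_col` for `h1`). -/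
theorem zt_pig {n : ℤ} (hn : 12 ≤ n) : ∃ N a m : ℤ, n ≤ N ∧ N ≤ 8 * n ∧ Good N a m := by
  obtain ⟨m0, l0, u0, p0, q0⟩ := tl_a (n := n) (by omega)
  obtain ⟨m1, l1, u1, p1, q1⟩ := tl_a (n := 2 * n) (by omega)
  obtain ⟨m2, l2, u2, p2, q2⟩ := tl_a (n := 2 * (2 * n)) (by omega)
  obtain ⟨m3, l3, u3, p3, q3⟩ := tl_a (n := 2 * (2 * (2 * n))) (by omega)
  obtain ⟨m4, l4, u4, p4, q4⟩ := tl_a (n := 2 * (2 * (2 * (2 * n)))) (by omega)
  by_cases c0 : 3 * m0 ≤ 2 * m1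
  · exact ⟨n, m0 + 1, m1, by omega, by omega, zt4_good hn l0 p0 q0 l1 p1 q1 c0⟩
  by_cases c1 : 3 * m1 ≤ 2 * m2
  · exact ⟨2 * n, m1 + 1, m2, by omega, by omega,
      zt4_good (by omega) l1 p1 q1 l2 p2 q2 c1⟩
  by_cases c2 : 3 * m2 ≤ 2 * m3
  · exact ⟨2 * (2 * n), m2 + 1, m3, by omega, by omega,
      zt4_good (by omega) l2 p2 q2 l3 p3 q3 c2⟩
  by_cases c3 : 3 * m3 ≤ 2 * m4
  · exact ⟨2 * (2 * (2 * n)), m3 + 1, m4, by omega, by omega,
      zt4_good (by omega) l3 p3 q3 l4 p4 q4 c3⟩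
  exfalso
  omega

variable {N a m : ℤ}

private theorem zt4_lt (h : Good N a m) : a < m := by
  have h1 := h.am
  have h2 := h.Nm
  have h3 := h.big
  omega

/-- `zr_rsw` for `L = TL` (`tl_tr_rfy`) and `L = TO` (`to_tr_rfy`, `to_hx`, `to_vx`) gives `pr (TL.XX a m N) ≥ 1/8`, `pr (TO.XX a m N) ≥ 1/8` (`a < m` because `3 a ≤ 2 m + 3`, `m ≥ 12`).  `xx_pr` with
`tl_tr_rfx a`: `1/8 * 1/8 * 1/4 ≤ pr (TL.HX true (a - m) m 0 (2N)) = tH (2m - a) (2N)` (`tl_hx`). -/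
theorem zt_wide (h : Good N a m) : (1 / 2 : ℝ) ^ 8 ≤ tH (2 * m - a) (2 * N) := by
  have hN : 0 ≤ N := by have := h.big; omega
  have ham := zt4_lt h
  have e1 := zr_rsw (tl_tr_rfy N) h.a0 ham hN
  have e2 := zr_rsw (to_tr_rfy N) h.a0 ham hN
  rw [to_hx, to_vx] at e2
  have f1 : (1 : ℝ) / 2 ≤ pr (TL.HX true 0 m 0 (2 * N)) := h.h2
  have f2 : (1 : ℝ) / 2 ≤ pr (TL.VX true 0 a 0 N) := h.v1
  have f3 : (1 : ℝ) / 4 ≤ pr (TL.HX true 0 a 0 N) := h.h1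
  have g2 := h.h2
  have g3 := h.v1
  have x1 : (1 : ℝ) / 8 ≤ pr (TL.XX a m N) := by nlinarith
  have x2 : (1 : ℝ) / 8 ≤ pr (TO.XX a m N) := by nlinarith
  have key := xx_pr (tl_tr_rfx a) h.a0 ham.le hN
  rw [tl_hx true (a - m) m 0 (2 * N)] at key
  have e3 : m - (a - m) = 2 * m - a := by ring
  rw [e3, sub_zero] at key
  refine le_trans ?_ key
  have y1 : (1 : ℝ) / 64 ≤ pr (TL.XX a m N) * pr (TO.XX a m N) := by nlinarith
  calc (1 / 2 : ℝ) ^ 8 = 1 / 64 * (1 / 4) := by norm_num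
    _ ≤ pr (TL.XX a m N) * pr (TO.XX a m N) * pr (TL.HX true 0 a 0 N) :=
        mul_le_mul y1 f3 (by norm_num) (le_trans (by norm_num) y1)

/-- `pr_glue_hx` for the rectangles `[0,w]` and `[w-m-1, w+m-a-1]` with the overlap `[w-m-1, w]`, `m + 2` columns (`Good.v2`), all with the rows `0, …, 2N`; `tl_hx`, `tl_vx`, `zt_wide`. -/
theorem zt_step (h : Good N a m) {w : ℤ} (hw : m + 1 ≤ w) :
    (1 / 2 : ℝ) ^ 9 * tH w (2 * N) ≤ tH (w + (m - a - 1)) (2 * N) := by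
  have hN : 0 ≤ N := by have := h.big; omega
  have ham := zt4_lt h
  have ha := h.a0
  have key := pr_glue_hx (L := TL) (a := 0) (b := w) (a' := w - m - 1)
    (b' := w + (m - a - 1)) (p := 0) (q := 2 * N) (by omega) (by omega) (by omega) (by omega)
  rw [tl_hx, tl_hx, tl_hx, tl_vx] at key
  have e1 : w + (m - a - 1) - (w - m - 1) = 2 * m - a := by ring
  have e2 : w - (w - m - 1) = m + 1 := by ring
  rw [e1, e2, sub_zero, sub_zero, sub_zero] at key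
  refine le_trans ?_ key
  have h1 := zt_wide h
  have h2 := h.v2
  have h3 : 0 ≤ tH w (2 * N) := pr_nonneg _
  have h4 : (1 / 2 : ℝ) ^ 9 ≤ tH (2 * m - a) (2 * N) * tV (m + 1) (2 * N) := by
    calc (1 / 2 : ℝ) ^ 9 = (1 / 2) ^ 8 * (1 / 2) := by norm_num
      _ ≤ _ := mul_le_mul h1 h2 (by norm_num) (le_trans (by positivity) h1)
  calc (1 / 2 : ℝ) ^ 9 * tH w (2 * N)
      ≤ (tH (2 * m - a) (2 * N) * tV (m + 1) (2 * N)) * tH w (2 * N) :=
        mul_le_mul_of_nonneg_right h4 h3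
    _ = tH w (2 * N) * tH (2 * m - a) (2 * N) * tV (m + 1) (2 * N) := by ring

/-- induction on `j` (`2m - a ≥ m + 1`, `m - a - 1 ≥ 0`) -/
theorem zt_long (h : Good N a m) (j : ℕ) :
    (1 / 2 : ℝ) ^ (9 * j + 8) ≤ tH (2 * m - a + j * (m - a - 1)) (2 * N) := by
  have ham := zt4_lt h
  induction j with
  | zero =>
    have := zt_wide h
    simpa using this
  | succ j ih =>
    have hj : 0 ≤ (j : ℤ) * (m - a - 1) := mul_nonneg (by positivity) (by omega)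
    have key := zt_step h (w := 2 * m - a + j * (m - a - 1)) (by omega)
    have e : 2 * m - a + ((j + 1 : ℕ) : ℤ) * (m - a - 1) =
        2 * m - a + j * (m - a - 1) + (m - a - 1) := by
      push_cast
      ring
    rw [e]
    refine le_trans ?_ key
    calc (1 / 2 : ℝ) ^ (9 * (j + 1) + 8) = (1 / 2) ^ 9 * (1 / 2) ^ (9 * j + 8) := by ring
      _ ≤ _ := mul_le_mul_of_nonneg_left ih (by positivity)

end SC

end

/-! ### from `Lib_MP_e0a489.ZT5` -/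

section

/-!
# MP_e0a489, triangular lattice, 5: the box crossing property
-/

set_option autoImplicit false

namespace SC

open Classical

/-- `b ≥ 192`: `zt_pig` for `n = b / 16 ≥ 12` gives a good scale with `2 N ≤ 16 n ≤ b` and `b ≤ 32 n ≤ 32 N`.  `6 (m - a - 1) ≥ m ≥ N`, so `192 k (m - a - 1) ≥ 32 k N ≥ k b`: `zt_long` for `j = 192 k` and `tH_mono`.
`b < 192`: `tl_row`. -/
theorem zt_h (k : ℕ) (hk : 1 ≤ k) {b : ℤ} (hb : 0 ≤ b) :
    (1 / 2 : ℝ) ^ (1728 * k + 8) ≤ tH (k * b) b := by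
  have hk' : (1 : ℤ) ≤ k := by exact_mod_cast hk
  have hkb : 0 ≤ (k : ℤ) * b := by positivity
  by_cases h1 : 192 ≤ b
  · obtain ⟨n, hn⟩ : ∃ n : ℤ, n = b / 16 := ⟨_, rfl⟩
    obtain ⟨N, a, m, h2, h3, h4⟩ := zt_pig (n := n) (by omega)
    have g1 := h4.big
    have g2 := h4.a0
    have g3 := h4.am
    have g4 := h4.Nm
    have h5 := zt_long h4 (192 * k)
    have e1 : 9 * (192 * k) + 8 = 1728 * k + 8 := by ring
    rw [e1] at h5
    refine h5.trans (tH_mono hkb ?_ (by omega))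
    have h6 : b ≤ 192 * (m - a - 1) := by omega
    have h7 : (k : ℤ) * b ≤ k * (192 * (m - a - 1)) := mul_le_mul_of_nonneg_left h6 (by omega)
    push_cast
    have h8 : (192 * (k : ℤ)) * (m - a - 1) = k * (192 * (m - a - 1)) := by ring
    rw [h8]
    omega
  · have h2 : (k : ℤ) * b ≤ k * 191 := mul_le_mul_of_nonneg_left (by omega) (by omega)
    refine le_trans ?_ (tl_row hkb hb)
    exact pow_le_pow_of_le_one (by norm_num) (by norm_num) (by omega)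

/-- Vertical extension.  `n = 2 b / 3`, `s = n / 2`, `t = n - s`.  `tV b n ≥ 1/2` (`tl_rh_v`, `tV_mono`), `tH b t ≥ tH (4 t) t ≥ (1/2) ^ 6920` (`b ≤ 4 t`, `zt_h` for `k = 4`).  Induction on `j`: `pr_glue_vx` for the rows
`[0, q]` and `[q - t, q + s]` with the overlap `[q - t, q]`, `q = n + j s`; `tl_hx`, `tl_vx`. -/
theorem zt_vj {b : ℤ} (hb : 9 ≤ b) (j : ℕ) :
    (1 / 2 : ℝ) ^ (6921 * j + 1) ≤ tV b (2 * b / 3 + j * (2 * b / 3 / 2)) := by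
  obtain ⟨n, hn⟩ : ∃ n : ℤ, n = 2 * b / 3 := ⟨_, rfl⟩
  obtain ⟨s, hs⟩ : ∃ s : ℤ, s = n / 2 := ⟨_, rfl⟩
  obtain ⟨t, ht⟩ : ∃ t : ℤ, t = n - s := ⟨_, rfl⟩
  rw [← hn, ← hs]
  have v1 : 1 / 2 ≤ tV b n :=
    (tl_rh_v (n := n) (by omega)).trans (tV_mono (by omega) (by omega) le_rfl)
  have h1 : (1 / 2 : ℝ) ^ 6920 ≤ tH b t := by
    have h2 := zt_h 4 (by norm_num) (b := t) (by omega)
    have e1 : 1728 * 4 + 8 = 6920 := by norm_num
    rw [e1] at h2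
    refine h2.trans (tH_mono (by omega) ?_ le_rfl)
    push_cast
    omega
  induction j with
  | zero =>
    have e2 : n + ((0 : ℕ) : ℤ) * s = n := by push_cast; ring
    rw [e2]
    simpa using v1
  | succ j ih =>
    obtain ⟨q, hq⟩ : ∃ q : ℤ, q = n + (j : ℤ) * s := ⟨_, rfl⟩
    rw [← hq] at ih
    have hjs : 0 ≤ (j : ℤ) * s := mul_nonneg (by omega) (by omega)
    have e3 : n + ((j + 1 : ℕ) : ℤ) * s = q + s := by push_cast; rw [hq]; ring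
    rw [e3]
    have h3 := pr_glue_vx (L := TL) (a := 0) (b := b) (p := 0) (q := q) (p' := q - t)
      (q' := q + s) (by omega) (by omega) (by omega) (by omega)
    rw [tl_vx, tl_vx, tl_vx, tl_hx] at h3
    have e4 : b - 0 = b := sub_zero b
    have e5 : q - 0 = q := sub_zero q
    have e6 : q + s - (q - t) = n := by omega
    have e7 : q - (q - t) = t := by omega
    have e8 : q + s - 0 = q + s := sub_zero _
    rw [e4, e5, e6, e7, e8] at h3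
    refine le_trans ?_ h3
    have h4 : (1 / 2 : ℝ) ^ (6921 * (j + 1) + 1) =
        (1 / 2 : ℝ) ^ (6921 * j + 1) * (1 / 2) * (1 / 2) ^ 6920 := by
      have e9 : 6921 * (j + 1) + 1 = 6921 * j + 1 + 1 + 6920 := by ring
      rw [e9, pow_add, pow_succ]
    rw [h4]
    have p1 : (0 : ℝ) ≤ (1 / 2 : ℝ) ^ (6921 * j + 1) := pow_nonneg (by norm_num) _
    have p2 : (0 : ℝ) ≤ (1 / 2 : ℝ) ^ 6920 := pow_nonneg (by norm_num) _
    have p3 : (0 : ℝ) ≤ tV b q := p1.trans ih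
    have p4 : (0 : ℝ) ≤ tV b q * tV b n := mul_nonneg p3 (le_trans (by norm_num) v1)
    exact mul_le_mul (mul_le_mul ih v1 (by norm_num) p3) h1 p2 p4

/-- `b ≥ 9`: `zt_vj` for `j = 4 k` (`b ≤ 4 (2 b / 3 / 2)`) and `tV_mono`.  `b < 9`: `tl_row_v`. -/
theorem zt_v (k : ℕ) (hk : 1 ≤ k) {b : ℤ} (hb : 0 ≤ b) :
    (1 / 2 : ℝ) ^ (27684 * k + 8) ≤ tV b (k * b) := by
  have hk' : (1 : ℤ) ≤ k := by exact_mod_cast hk
  have hkb : 0 ≤ (k : ℤ) * b := by positivity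
  by_cases h1 : 9 ≤ b
  · obtain ⟨s, hs⟩ : ∃ s : ℤ, s = 2 * b / 3 / 2 := ⟨_, rfl⟩
    have h2 := zt_vj h1 (4 * k)
    rw [← hs] at h2
    have h3 : (1 / 2 : ℝ) ^ (27684 * k + 8) ≤ (1 / 2 : ℝ) ^ (6921 * (4 * k) + 1) :=
      pow_le_pow_of_le_one (by norm_num) (by norm_num) (by omega)
    refine h3.trans (h2.trans (tV_mono hkb le_rfl ?_))
    have h4 : (k : ℤ) * b ≤ k * (4 * s) := mul_le_mul_of_nonneg_left (by omega) (by omega)
    push_cast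
    have h5 : (4 * (k : ℤ)) * s = k * (4 * s) := by ring
    rw [h5]
    omega
  · have h2 : (k : ℤ) * b ≤ k * 8 := mul_le_mul_of_nonneg_left (by omega) (by omega)
    refine le_trans ?_ (tl_row_v hb hkb)
    exact pow_le_pow_of_le_one (by norm_num) (by norm_num) (by omega)

/-- `κ k = (1/2) ^ (27684 k + 8)`; `tl_hx`, `tl_vx` -/
theorem tl_rsw : ∃ κ : ℕ → ℝ, RSW TL κ := by
  refine ⟨fun k => (1 / 2 : ℝ) ^ (27684 * k + 8), fun k => pow_pos (by norm_num) _, ?_, ?_⟩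
  · intro k b n a p hk hn
    rw [tl_hx]
    have e1 : a + (k : ℤ) * n - a = k * n := by ring
    have e2 : p + n - p = n := by ring
    rw [e1, e2]
    refine le_trans ?_ (zt_h k hk (by omega))
    exact pow_le_pow_of_le_one (by norm_num) (by norm_num) (by omega)
  · intro k b n a p hk hn
    rw [tl_vx]
    have e1 : a + n - a = n := by ring
    have e2 : p + (k : ℤ) * n - p = k * n := by ring
    rw [e1, e2]
    exact zt_v k hk (by omega)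

/-- `TL_per1`, `TL_per2`, `TL_sw`, `TL_rx`, `TL_ry` (the shift by `0`: `tl_shift_even`) -/
theorem tl_fam : ∃ κ : ℕ → ℝ, Fam TL κ := by
  obtain ⟨κ, hκ⟩ := tl_rsw
  have h0 : TL.shift (0, 0) = TL := tl_shift_even (0, 0) rfl
  exact ⟨κ, hκ, TL_per1, TL_per2, ⟨(0, 0), by rw [h0]; exact TL_sw⟩, ⟨(0, 1), TL_rx⟩,
    ⟨(0, 0), by rw [h0]; exact TL_ry⟩⟩

end SC

end
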