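import Mathlib
import Pool.Agent.Lib_MP_e0a489_m.G06
import Pool.Agent.Lib_MP_e0a489_m.G07
import Pool.Agent.Lib_MP_e0a489_m.G09
import Pool.Agent.Lib_MP_e0a489_m.G11
import Pool.Agent.Lib_MP_e0a489_m.G12
import Pool.Agent.Lib_MP_e0a489_m.G15
import Pool.Agent.Lib_MP_e0a489_m.G16
import Pool.Agent.Lib_MP_e0a489_m.G18
import Pool.Agent.Lib_MP_e0a489_m.G20
import Pool.Agent.Lib_MP_e0a489_m.G21
import Pool.Agent.Lib_MP_e0a489_m.G24
import Pool.Agent.Lib_MP_e0a489_m.G25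
import Pool.Agent.Lib_MP_e0a489_m.G26
import Pool.Agent.Lib_MP_e0a489_m.G27
import Pool.Agent.Lib_MP_e0a489_m.G28

/-!
# MP_e0a489_pr: merged library part G31

Concatenation of library files (each in its own section), only to save build time.
-/

/-! ### from `Lib_MP_e0a489.RO4` -/

section

/-!
# MP_e0a489, RO 4: probability of the crossings along an arc
-/

set_option autoImplicit false

namespace SC

open Classical

/-- `ArcE` is the conjunction over `t ∈ Finset.Icc s s'` (at most `5` sides) of the events `PX`; each has probability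
at least `κ N` (`RSW.prPX`: width `(m w + w/2) - (m w - w/2) = w - 1 ≥ 4`, `w` odd; length
`(sgu - sgl) w + 2 (w/2) ≤ 2 m w + w - 1 ≤ N (w - 1)`; it is `≥ 0` because `sgl ≤ sgu` on every side, for `s < s'` as well
as for `s = s'`).  `pr_harris_mon`, and `0 < κ N ≤ 1`, so the product of at most five factors `≥ κ N` is at least `(κ N)^5`. -/
theorem arc_pr {L : Lat} {κ : ℕ → ℝ} (h : RSW L κ) (c : Bool) {w m s k s' k' : ℤ} {N : ℕ}
    (hw : w % 2 = 1) (hw5 : 5 ≤ w) (hm : 0 ≤ m) (hk : |k| ≤ m) (hk' : |k'| ≤ m) (hs : 0 ≤ s)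
    (hs' : s' ≤ 4) (hss : s < s' ∨ (s = s' ∧ k ≤ k')) (hN : 1 ≤ N)
    (hn : (2 * m + 1) * w ≤ N * (w - 1)) : κ N ^ 5 ≤ pr (L.ArcE c w m s k s' k') := by
  have hk1 := abs_le.1 hk
  have hk2 := abs_le.1 hk'
  have hκ : 0 < κ N := h.pos N
  have hev : (fun ω => ∀ t ∈ Finset.Icc s s', L.PX c t (m * w - w / 2) (m * w + w / 2)
      (sgl m s k t * w - w / 2) (sgu m s' k' t * w + w / 2) ω) = L.ArcE c w m s k s' k' := by
    funext ω
    refine propext ⟨fun H t h1 h2 => H t (Finset.mem_Icc.2 ⟨h1, h2⟩), fun H t ht => ?_⟩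
    exact H t (Finset.mem_Icc.1 ht).1 (Finset.mem_Icc.1 ht).2
  have hfac : ∀ t ∈ Finset.Icc s s', κ N ≤ pr (L.PX c t (m * w - w / 2) (m * w + w / 2)
      (sgl m s k t * w - w / 2) (sgu m s' k' t * w + w / 2)) := by
    intro t ht
    obtain ⟨h1, h2⟩ := Finset.mem_Icc.1 ht
    have hle : sgl m s k t ≤ sgu m s' k' t := by
      unfold sgl sgu
      split_ifs <;> omega
    have hlen : sgu m s' k' t - sgl m s k t ≤ 2 * m := by
      unfold sgl sgu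
      split_ifs <;> omega
    have hw0 : 0 < w := by omega
    have e1 : sgl m s k t * w ≤ sgu m s' k' t * w := mul_le_mul_of_nonneg_right hle hw0.le
    have e2 : (sgu m s' k' t - sgl m s k t) * w ≤ 2 * m * w :=
      mul_le_mul_of_nonneg_right hlen hw0.le
    have e3 : m * w + w / 2 - (m * w - w / 2) = w - 1 := by omega
    refine h.prPX hN c (by omega) (by omega) ?_
    rw [e3]
    refine le_trans ?_ hn
    have e4 : (sgu m s' k' t - sgl m s k t) * w = sgu m s' k' t * w - sgl m s k t * w := by ring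
    have e5 : (2 * m + 1) * w = 2 * m * w + w := by ring
    rw [e4] at e2
    rw [e5]
    omega
  have hss' : s ≤ s' := by omega
  have hκ1 : κ N ≤ 1 := (hfac s (Finset.mem_Icc.2 ⟨le_rfl, hss'⟩)).trans (pr_le_one _)
  have hcard : (Finset.Icc s s').card ≤ 5 := by
    rw [Int.card_Icc]
    omega
  have key := pr_harris_mon (I := Finset.Icc s s') c
    (fun t _ => Lat.PX.loc L c t (m * w - w / 2) (m * w + w / 2)
      (sgl m s k t * w - w / 2) (sgu m s' k' t * w + w / 2))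
    (fun t _ => Lat.PX.mon L c t (m * w - w / 2) (m * w + w / 2)
      (sgl m s k t * w - w / 2) (sgu m s' k' t * w + w / 2))
  rw [hev] at key
  refine le_trans ?_ key
  calc κ N ^ 5 ≤ κ N ^ (Finset.Icc s s').card := pow_le_pow_of_le_one hκ.le hκ1 hcard
    _ = ∏ _t ∈ Finset.Icc s s', κ N := by rw [Finset.prod_const]
    _ ≤ _ := Finset.prod_le_prod (fun _ _ => hκ.le) hfac

end SC

end

/-! ### from `Lib_MP_e0a489.RO6` -/

section

/-!
# MP_e0a489, RO 6: probability of the path event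
-/

set_option autoImplicit false

namespace SC

open Classical

/-- `pr_harris_mon` for the four events (for example indexed by `Fin 4` or `Bool × Bool`; or three times the two event
version).  Landing block: `RSW.prPX`, width `b1 - a1 = (2h+1) w - 1 ≥ 4`, length `2 h w + 2 (w/2) = (2h+1) w - 1` (`w` odd).
First strip: `RSW.prRX`, width `2 (w/2) = w - 1 ≥ 4`, length `b2 - a2 ≤ N (w - 1)`.  Arc: `arc_pr` (`Pth.arc_ord`; `|lk|, |uk| ≤ m`
from `Ok.fm`).  Final strip: `RSW.prRX`.  Altogether `κ N · κ N · (κ N)^5 · κ N`, and `κ N > 0`. -/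
theorem path_pr {L : Lat} {κ : ℕ → ℝ} (h : RSW L κ) (c : Bool) {w : ℤ} {N : ℕ} {P : Pth}
    (hw : w % 2 = 1) (hw5 : 5 ≤ w) (hP : P.Ok w N) : κ N ^ 8 ≤ pr (L.PathE c w P) := by
  have hκ : 0 < κ N := h.pos N
  have hw2 : 2 * (w / 2) = w - 1 := by omega
  have hh := hP.h0
  have hhw : 0 ≤ P.h * w := mul_nonneg hh (by omega)
  have hN1 : (1 : ℤ) ≤ (N : ℤ) := by exact_mod_cast hP.n1
  have hf : |P.f| ≤ P.m := hP.fm
  have h0m : |(0 : ℤ)| ≤ P.m := by rw [abs_zero]; linarith [hP.m1]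
  -- landing block
  have e1 : κ N ≤ pr (L.PX c P.s P.a1 P.b1 ((P.f - P.h) * w - w / 2)
      ((P.f + P.h) * w + w / 2)) := by
    have hba : P.b1 - P.a1 = 2 * (P.h * w) + w - 1 := by rw [hP.ab1]; ring
    have hlen : (P.f + P.h) * w + w / 2 - ((P.f - P.h) * w - w / 2) = P.b1 - P.a1 := by
      rw [hba]; linear_combination hw2
    refine h.prPX hP.n1 c ?_ ?_ ?_
    · have : 0 ≤ P.b1 - P.a1 := by rw [hba]; omega
      linarith [hlen]
    · rw [hba]; omega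
    · rw [hlen]
      have : 0 ≤ P.b1 - P.a1 := by rw [hba]; omega
      nlinarith
  -- first strip
  have e2 : κ N ≤ pr (L.RX c P.s P.a2 P.b2 (P.f * w - w / 2) (P.f * w + w / 2)) := by
    have hlen : P.f * w + w / 2 - (P.f * w - w / 2) = w - 1 := by linear_combination hw2
    refine h.prRX hP.n1 c ?_ ?_ ?_
    · have h1 := hP.a2m
      have h2 := hP.b2m
      omega
    · rw [hlen]; omega
    · rw [hlen]; exact hP.n2
  -- arc
  have e3 : κ N ^ 5 ≤ pr (L.ArcE c w P.m P.ls P.lk P.us P.uk) := by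
    have hlk : |P.lk| ≤ P.m := by
      unfold Pth.lk
      split_ifs
      · exact hf
      · exact h0m
    have huk : |P.uk| ≤ P.m := by
      unfold Pth.uk
      split_ifs
      · exact h0m
      · exact hf
    have hls : 0 ≤ P.ls := by
      unfold Pth.ls
      split_ifs
      · exact hP.s0
      · exact hP.d0
    have hus : P.us ≤ 4 := by
      unfold Pth.us
      split_ifs
      · exact hP.d4
      · exact hP.s4
    exact arc_pr h c hw hw5 (by linarith [hP.m1]) hlk huk hls hus P.arc_ord hP.n1 hP.n3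
  -- final strip
  have e4 : κ N ≤ pr (L.RX c P.d P.a4 P.b4 (-(w / 2)) (w / 2)) := by
    have hlen : w / 2 - -(w / 2) = w - 1 := by linear_combination hw2
    refine h.prRX hP.n1 c ?_ ?_ ?_
    · have h1 := hP.a4m
      have h2 := hP.b4m
      omega
    · rw [hlen]; omega
    · rw [hlen]; exact hP.n4
  let A : Fin 4 → Cfg → Prop := ![L.PX c P.s P.a1 P.b1 ((P.f - P.h) * w - w / 2)
      ((P.f + P.h) * w + w / 2), L.RX c P.s P.a2 P.b2 (P.f * w - w / 2) (P.f * w + w / 2),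
      L.ArcE c w P.m P.ls P.lk P.us P.uk, L.RX c P.d P.a4 P.b4 (-(w / 2)) (w / 2)]
  have hloc : ∀ i ∈ (Finset.univ : Finset (Fin 4)), Loc (A i) := by
    intro i _
    fin_cases i
    · exact Lat.PX.loc L c _ _ _ _ _
    · exact Lat.RX.loc L c _ _ _ _ _
    · exact Lat.ArcE.loc L c _ _ _ _ _ _
    · exact Lat.RX.loc L c _ _ _ _ _
  have hmon : ∀ i ∈ (Finset.univ : Finset (Fin 4)), MonC c (A i) := by
    intro i _
    fin_cases i
    · exact Lat.PX.mon L c _ _ _ _ _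
    · exact Lat.RX.mon L c _ _ _ _ _
    · exact Lat.ArcE.mon L c _ _ _ _ _ _
    · exact Lat.RX.mon L c _ _ _ _ _
  have key := pr_harris_mon c hloc hmon
  have hev : (fun ω => ∀ i ∈ (Finset.univ : Finset (Fin 4)), A i ω) = L.PathE c w P := by
    funext ω
    refine propext ⟨fun hA => ?_, fun hA i _ => ?_⟩
    · exact ⟨hA 0 (Finset.mem_univ _), hA 1 (Finset.mem_univ _), hA 2 (Finset.mem_univ _),
        hA 3 (Finset.mem_univ _)⟩
    · obtain ⟨h1, h2, h3, h4⟩ := hA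
      fin_cases i
      · exact h1
      · exact h2
      · exact h3
      · exact h4
  rw [hev] at key
  refine le_trans ?_ key
  have hprod : ∏ i ∈ (Finset.univ : Finset (Fin 4)), pr (A i) =
      pr (A 0) * pr (A 1) * pr (A 2) * pr (A 3) := Fin.prod_univ_four _
  rw [hprod]
  have g1 : κ N ≤ pr (A 0) := e1
  have g2 : κ N ≤ pr (A 1) := e2
  have g3 : κ N ^ 5 ≤ pr (A 2) := e3
  have g4 : κ N ≤ pr (A 3) := e4
  have hk5 : 0 ≤ κ N ^ 5 := by positivity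
  calc κ N ^ 8 = κ N * κ N * κ N ^ 5 * κ N := by ring
    _ ≤ pr (A 0) * pr (A 1) * pr (A 2) * pr (A 3) := by
        refine mul_le_mul (mul_le_mul (mul_le_mul g1 g2 hκ.le (hκ.le.trans g1)) g3 hk5 ?_) g4
          hκ.le ?_
        · exact mul_nonneg (hκ.le.trans g1) (hκ.le.trans g2)
        · exact mul_nonneg (mul_nonneg (hκ.le.trans g1) (hκ.le.trans g2)) (hk5.trans g3)

end SC

end

/-! ### from `Lib_MP_e0a489.TTI9` -/

section

/-!
# MP_e0a489, module TT (9a), the inner part at two times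
-/

set_option autoImplicit false

namespace SC

variable [IfL] [IfX]

namespace TT

open Classical

/-- INNER PART.  Let `L' = L.shift x` (`XP.fam_shift`).  `sep2` for `k = 1`: `pr (L'.TwoA true R₀ m) ≤ C₁ pr2 (kz 1 R₀ m) (L'.S4 R₀ m)` (`pr2_one`), and for `R₀ < m`
`al L R₀ m ≤ C₂ al L' R₀ m = C₂ pr (L'.TwoA true R₀ m)` (`XP.al_shift_le`).  `S4_loss` (with `W` from `exists_annF`) and `piv_sum`:
`al L R₀ m / (C₁ C₂) ≤ pr2 (kz (kt s) R₀ m) (L'.S4 R₀ m) + s (C₄ / 4) (m al L R₀ m) ^ 2`, and the last term is at most `(C₄ / 4) c' al L R₀ m`.  Choose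
`c' = 2 / (C₁ C₂ C₄)` and `c₁ = 1 / (2 C₁ C₂)`.  For `m = R₀` (then `al L R₀ R₀ = 1`): `pr2 (kz (kt s) R₀ R₀) (L'.S4 R₀ R₀) ≥ (pr (L'.S4 R₀ R₀)) ^ 2 ≥ (κ 20000) ^ 8`
(`pr2_ge_sq`, `S4_base'`); take `c₁` also at most this number.  `R₁` = maximum of the radii of `sep2`, `al_shift_le`, `tp_ex`. -/
theorem inner_low {L : Lat} {κ : ℕ → ℝ} (h : Fam L κ) : ∃ R₁ : ℤ, 16 ≤ R₁ ∧ ∀ R₀, R₁ ≤ R₀ →
    ∃ c' c₁ : ℝ, 0 < c' ∧ 0 < c₁ ∧ ∀ (x : Pt) (m : ℤ) (s : ℝ), R₀ ≤ m → 0 ≤ s →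
      s * ((m : ℝ) ^ 2 * al L R₀ m) ≤ c' →
      c₁ * al L R₀ m ≤ pr2 (kz (kt s) R₀ m) ((L.shift x).S4 R₀ m) := by
  obtain ⟨C₁, Ra, hC₁, hRa, hsep⟩ := sep2 κ
  obtain ⟨C₂, Rb, hC₂, hRb, hsh⟩ := XP.al_shift_le κ
  obtain ⟨C, c, Rc, hTP⟩ := tp_ex h
  refine ⟨max Ra (max Rb Rc), hRa.trans (le_max_left _ _), fun R₀ hR₀ => ?_⟩
  have hra : Ra ≤ R₀ := (le_max_left _ _).trans hR₀
  have hrb : Rb ≤ R₀ := ((le_max_left _ _).trans (le_max_right _ _)).trans hR₀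
  have hrc : Rc ≤ R₀ := ((le_max_right _ _).trans (le_max_right _ _)).trans hR₀
  have h16 : 16 ≤ R₀ := hRa.trans hra
  have hp : TP L C c R₀ := hTP R₀ hrc
  obtain ⟨C₄, hC₄, hpiv⟩ := piv_sum hp
  have hC₂' : 0 < C₂ := by linarith
  have hκ : 0 < κ 20000 := h.rsw.pos _
  refine ⟨2 / (C₁ * C₂ * C₄), min (1 / (2 * (C₁ * C₂))) (κ 20000 ^ 8), by positivity,
    lt_min (by positivity) (by positivity), ?_⟩
  intro x m s hm hs hsm
  have hL' : RSW (L.shift x) κ := (XP.fam_shift h x).rsw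
  have hk1 : Kap (fun _ : Pt => (1 : ℝ)) := fun v => ⟨zero_le_one, le_rfl⟩
  have hks : Kap (kt s) := fun v => ⟨(Real.exp_pos _).le, by
    show Real.exp (-s) ≤ 1
    rw [Real.exp_le_one_iff]
    linarith⟩
  have hap : 0 < al L R₀ m := hp.ap.pos R₀ m le_rfl hm
  rcases lt_or_eq_of_le hm with hlt | heq
  · have e0 : Loc ((L.shift x).TwoA true R₀ m) := by
      refine Lat.Two.loc _ _ _ _ _ ((XP.annAt_finite 0 R₀ m).subset (fun v hv => ?_))
      show R₀ < nrm (v - 0) ∧ nrm (v - 0) ≤ m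
      rw [sub_zero]
      exact hv
    have e1 : al L R₀ m ≤ C₂ * al (L.shift x) R₀ m := hsh L h x R₀ m hrb hm
    have e2 : al (L.shift x) R₀ m = pr2 (fun _ => 1) ((L.shift x).TwoA true R₀ m) := by
      rw [XP.al_lt hlt, pr2_one e0]
    have e3 := hsep (L.shift x) hL' (fun _ => 1) hk1 true R₀ m hra hm
    obtain ⟨W, hW⟩ := exists_annF (8 * R₀) (m / 4)
    have e4 := S4_loss (L := L.shift x) (by omega : 0 ≤ R₀) hm hs hW
    have e5 := hpiv x m W hm (fun v hv => (hW v).1 hv)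
    rw [← Finset.mul_sum] at e4
    rw [e2] at e1
    set X := pr2 (kz (kt s) R₀ m) ((L.shift x).S4 R₀ m) with hX
    set Y := pr2 (kz (fun _ => 1) R₀ m) ((L.shift x).S4 R₀ m) with hY
    set a := al L R₀ m with ha
    set Sp := ∑ v ∈ W, pr (Piv v ((L.shift x).S4 R₀ m)) with hSp
    have f1 : a ≤ C₂ * (C₁ * Y) := e1.trans (mul_le_mul_of_nonneg_left e3 hC₂'.le)
    have f2 : s * (1 / 4 * Sp) ≤ a / (2 * (C₁ * C₂)) := by
      have g1 : s * (1 / 4 * Sp) ≤ s * (1 / 4 * (C₄ * ((m : ℝ) * a) ^ 2)) :=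
        mul_le_mul_of_nonneg_left (by linarith) hs
      have g2 : s * (1 / 4 * (C₄ * ((m : ℝ) * a) ^ 2)) =
          (s * ((m : ℝ) ^ 2 * a)) * (C₄ / 4 * a) := by ring
      have g3 : (s * ((m : ℝ) ^ 2 * a)) * (C₄ / 4 * a) ≤
          2 / (C₁ * C₂ * C₄) * (C₄ / 4 * a) :=
        mul_le_mul_of_nonneg_right hsm (by positivity)
      have g4 : 2 / (C₁ * C₂ * C₄) * (C₄ / 4 * a) = a / (2 * (C₁ * C₂)) := by
        field_simp
        ring
      linarith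
    have f3 : a / (C₁ * C₂) ≤ Y := by
      rw [div_le_iff₀ (by positivity)]
      linarith
    have f4 : a / (C₁ * C₂) = 2 * (a / (2 * (C₁ * C₂))) := by
      field_simp
    have f5 : a / (2 * (C₁ * C₂)) ≤ X := by linarith
    calc min (1 / (2 * (C₁ * C₂))) (κ 20000 ^ 8) * a ≤ 1 / (2 * (C₁ * C₂)) * a :=
          mul_le_mul_of_nonneg_right (min_le_left _ _) hap.le
      _ = a / (2 * (C₁ * C₂)) := by ring
      _ ≤ X := f5
  · subst heq
    have e1 : al L R₀ R₀ = 1 := by unfold al; rw [if_neg (lt_irrefl _)]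
    have e2 : κ 20000 ^ 4 ≤ pr ((L.shift x).S4 R₀ R₀) := S4_base' hL' h16 le_rfl (by omega)
    have e3 := pr2_ge_sq (Lat.S4.loc (L.shift x) R₀ R₀) (kz_kap hks R₀ R₀)
    rw [e1, mul_one]
    refine (min_le_right _ _).trans (le_trans ?_ e3)
    calc κ 20000 ^ 8 = (κ 20000 ^ 4) ^ 2 := by ring
      _ ≤ pr ((L.shift x).S4 R₀ R₀) ^ 2 := pow_le_pow_left₀ (by positivity) e2 2

end TT

end SC

end

/-! ### from `Lib_MP_e0a489.TTK9` -/

section

/-!
# MP_e0a489, module TT (9c): exponent larger than two beyond the correlation length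
-/

set_option autoImplicit false

namespace SC

variable [IfL] [IfX]

open Classical

open TT

/-- `inner_low` and `piv_low` -/
theorem TT.pivLow_ex {L : Lat} {κ : ℕ → ℝ} (h : Fam L κ) {x₀ : Pt}
    (hc : ∀ m : ℤ, 8 ≤ m → CoreOK (L.shift x₀) m) :
    ∃ R₁ : ℤ, 16 ≤ R₁ ∧ ∀ R₀ : ℤ, R₁ ≤ R₀ → ∃ c' c₃ : ℝ, 0 < c' ∧ 0 < c₃ ∧
      ∀ a : ℝ, a ≤ c' → PivLow L R₀ x₀ a c₃ := by
  obtain ⟨R1, hR1, h1⟩ := inner_low h
  obtain ⟨R2, hR2, h2⟩ := piv_low h hc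
  refine ⟨max R1 R2, hR1.trans (le_max_left _ _), fun R₀ hR₀ => ?_⟩
  obtain ⟨c', c₁, hc', hc₁, h3⟩ := h1 R₀ ((le_max_left _ _).trans hR₀)
  obtain ⟨c₂, hc₂, h4⟩ := h2 R₀ ((le_max_right _ _).trans hR₀)
  refine ⟨c', c₂ * c₁, hc', mul_pos hc₂ hc₁, ?_⟩
  intro a ha m N s z hm hN hs hsm hz
  have e1 := h3 (x₀.1 + 2 * z.1, x₀.2 + 2 * z.2) m s hm hs (hsm.trans ha)
  have e2 := h4 m N s z hm hN hs hz
  refine le_trans ?_ e2
  have hb : 0 ≤ be L s m N := be_nonneg L hs m N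
  calc c₂ * c₁ * (al L R₀ m * be L s m N) = c₂ * ((c₁ * al L R₀ m) * be L s m N) := by ring
    _ ≤ _ := mul_le_mul_of_nonneg_left (mul_le_mul_of_nonneg_right e1 hb) hc₂.le

/-- BEYOND THE CORRELATION LENGTH. -/
theorem tt_kb {L : Lat} {κ : ℕ → ℝ} (h : Fam L κ) {x₀ : Pt}
    (hc : ∀ m : ℤ, 8 ≤ m → CoreOK (L.shift x₀) m) :
    ∃ R₁ : ℤ, 16 ≤ R₁ ∧ ∀ R₀ : ℤ, R₁ ≤ R₀ → ∃ C c : ℝ, 1 ≤ C ∧ 0 < c ∧ c ≤ 1 / 2 ∧
      KBOK L C c R₀ := by
  obtain ⟨R1, hR1, h1⟩ := TT.pivLow_ex h hc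
  obtain ⟨C, c, R2, h2⟩ := tp_ex h
  refine ⟨max R1 R2, hR1.trans (le_max_left _ _), fun R₀ hR₀ => ?_⟩
  obtain ⟨c', c₃, hc', hc₃, h3⟩ := h1 R₀ ((le_max_left _ _).trans hR₀)
  have hp : TP L C c R₀ := h2 R₀ ((le_max_right _ _).trans hR₀)
  have hC : 1 ≤ C := hp.ap.C1
  have hC2 : 0 < C ^ 2 := by positivity
  have ha : 0 < min c' (1 / C ^ 2) := lt_min hc' (by positivity)
  have haC : min c' (1 / C ^ 2) * C ^ 2 ≤ 1 := by
    calc min c' (1 / C ^ 2) * C ^ 2 ≤ 1 / C ^ 2 * C ^ 2 :=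
          mul_le_mul_of_nonneg_right (min_le_right _ _) hC2.le
      _ = 1 := by field_simp
  have hE : Energy L := by
    intro N V τ n _ h0 h2
    have e := energy_hx L N V h0 h2 n
    refine le_of_eq_of_le (Finset.sum_congr rfl fun i _ => ?_) e
    ring
  obtain ⟨C₁, e, hC₁, he, he1, h4⟩ := kb_zero hp ha haC hc₃ (h3 _ (min_le_left _ _)) hE
  refine ⟨C * C₁, e, ?_, he, he1, kb_of_zero hp h4⟩
  nlinarith

end SC

end

/-! ### from `Lib_MP_e0a489.HL2` -/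

section

/-!
# MP_e0a489, half plane 2: the one arm probability and the two-time bound beyond the correlation length

`half_one`: the square of the one arm probability of the half plane is at least `c r / R`.
`kbh_of`: the bound `KBOK` for the four arm event gives the bound `KBHOK` for the half plane.
-/

set_option autoImplicit false

namespace SC

variable [IfL] [IfX]

open Classical

/-- ONE ARM OF THE LOWER HALF PLANE: `half_two` and `oneH_low`. -/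
theorem half_one (κ : ℕ → ℝ) : ∃ (c₀ : ℝ) (R₁ : ℤ), 16 ≤ R₁ ∧ ∀ L : Lat, Fam L κ → 0 < c₀ ∧
    ∀ (s : ℤ) (x : Pt) (c : Bool) (r R : ℤ), R₁ ≤ r → r < R →
      c₀ * ((r : ℝ) / R) ≤ pr (((L.rots s).shift x).Arm c (ann r R ∩ {v | v.2 ≤ -1})
        (((L.rots s).shift x).nb (bx r)) (rng R)) ^ 2 := by
  obtain ⟨c₁, hc₁, h1⟩ := HL.half_two κ
  obtain ⟨C, R₁, hC, hR₁, h2⟩ := oneH_low κ
  refine ⟨c₁ / C ^ 2, R₁, hR₁, ?_⟩
  intro L hL
  have hp := hc₁ (hL.rsw.pos 5)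
  refine ⟨by positivity, ?_⟩
  intro s x c r R hr hrR
  obtain ⟨z, hz⟩ := h1 (L.rots s) (hL.toRots s).rsw r R (by omega) hrR
  have k1 := h2 L hL s s (z, 0) x true c r R rfl hr hrR
  have k2 := h2 L hL s s (z, 0) x false c r R rfl hr hrR
  set p := pr (((L.rots s).shift x).Arm c (ann r R ∩ {v | v.2 ≤ -1})
        (((L.rots s).shift x).nb (bx r)) (rng R)) with hp'
  have n1 : 0 ≤ ((L.rots s).shift (z, 0)).oneH true r R := pr_nonneg _
  have n2 : 0 ≤ ((L.rots s).shift (z, 0)).oneH false r R := pr_nonneg _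
  have n3 : 0 ≤ p := pr_nonneg _
  have e1 : HL.a1 ((L.rots s).shift (z, 0)) true r R =
      ((L.rots s).shift (z, 0)).oneH true r R := rfl
  have e2 : HL.a1 ((L.rots s).shift (z, 0)) false r R =
      ((L.rots s).shift (z, 0)).oneH false r R := rfl
  rw [e1, e2] at hz
  have k3 := mul_le_mul k1 k2 n2 (mul_nonneg hC.le n3)
  rw [div_mul_eq_mul_div, div_le_iff₀ (by positivity)]
  nlinarith

/-- BEYOND THE CORRELATION LENGTH.  `pr2_half_low`, `pr2_rots`, `pr2_ge_sq`, `half_one`. -/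
theorem kbh_of (κ : ℕ → ℝ) : ∃ R₁ : ℤ, 16 ≤ R₁ ∧ ∀ C : ℝ, 0 < C → ∃ C' : ℝ, 0 < C' ∧
    ∀ L : Lat, Fam L κ → ∀ (c : ℝ) (R₀ : ℤ), R₁ ≤ R₀ → KBOK L C c R₀ → KBHOK L C' c R₀ := by
  obtain ⟨c₀, R₁, hR₁, h1⟩ := half_one κ
  refine ⟨R₁, hR₁, fun C hC => ⟨1 + C / |c₀|, by positivity, ?_⟩⟩
  intro L hL c R₀ hR₀ hK
  obtain ⟨hc₀, h2⟩ := h1 L hL
  rw [abs_of_pos hc₀]
  intro ℓ t hℓ hB s b x H r R hH hr hrR
  have hal : 0 ≤ al L R₀ ℓ := by
    unfold al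
    split_ifs
    · exact pr_nonneg _
    · exact zero_le_one
  have ht : 0 ≤ t := by
    by_contra hcon
    push Not at hcon
    have h0 : 0 ≤ (ℓ : ℝ) ^ 2 * al L R₀ ℓ := by positivity
    have h1 : 1 ≤ t * ((ℓ : ℝ) ^ 2 * al L R₀ ℓ) := hB
    nlinarith
  have hkt : Kap (kt t) := by
    intro v
    refine ⟨(Real.exp_pos _).le, ?_⟩
    show Real.exp (-t) ≤ 1
    rw [← Real.exp_zero]
    exact Real.exp_le_exp.2 (by linarith)
  have hr0 : (0 : ℝ) < r := by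
    have : (1 : ℤ) ≤ r := by omega
    exact_mod_cast this
  have hR0 : (0 : ℝ) < R := by
    have : (1 : ℤ) ≤ R := by omega
    exact_mod_cast this
  have hq : 0 < (r : ℝ) / R := by positivity
  rcases hrR.eq_or_lt with he | hlt
  · subst he
    have h3 : pr2 (kt t) (((L.rots s).shift x).TwoH b H r r) ≤ 1 :=
      pr2_le_one (Lat.TwoH.loc _ _ _ _ _) hkt
    rw [div_self hr0.ne', Real.one_rpow, mul_one]
    have : 0 < C / c₀ := by positivity
    linarith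
  · have h3 := Lat.pr2_half_low ((L.rots s).shift x) b (by omega) hlt hH hkt
    rw [pr2_rots] at h3
    have h4 := hK ℓ t hℓ hB b (rt s x) r R hr hrR
    have h5 := h2 s x (!b) r R (by omega) hlt
    have hloc : Loc (((L.rots s).shift x).Arm (!b) (ann r R ∩ {v | v.2 ≤ -1})
        (((L.rots s).shift x).nb (bx r)) (rng R)) := by
      refine XP.loc_of_dep (D := ann r R) ?_
        ((Lat.Arm.dep _ _ _ _ _).mono Set.inter_subset_left)
      refine (XP.annAt_finite 0 r R).subset (fun v hv => ?_)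
      show r < nrm (v - 0) ∧ nrm (v - 0) ≤ R
      rw [sub_zero]
      exact hv
    have h6 := pr2_ge_sq hloc hkt
    have n1 : 0 ≤ pr2 (kt t) (((L.rots s).shift x).TwoH b H r R) := pr2_nonneg _ hkt
    have h7 : ((r : ℝ) / R) ^ (2 + c) = ((r : ℝ) / R) * ((r : ℝ) / R) ^ (1 + c) := by
      have e : (2 + c : ℝ) = 1 + (1 + c) := by ring
      rw [e, Real.rpow_add hq, Real.rpow_one]
    set β := pr2 (kt t) (((L.rots s).shift x).TwoH b H r R) with hβ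
    set w := ((r : ℝ) / R) ^ (1 + c) with hw
    have hw0 : 0 < w := Real.rpow_pos_of_pos hq _
    have h8 : β * (c₀ * ((r : ℝ) / R)) ≤ C * (((r : ℝ) / R) * w) := by
      rw [← h7]
      exact (mul_le_mul_of_nonneg_left (h5.trans h6) n1).trans (h3.trans h4)
    have h9 : β * c₀ ≤ C * w := by
      have : (β * c₀) * ((r : ℝ) / R) ≤ (C * w) * ((r : ℝ) / R) := by
        calc (β * c₀) * ((r : ℝ) / R) = β * (c₀ * ((r : ℝ) / R)) := by ring
          _ ≤ C * (((r : ℝ) / R) * w) := h8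
          _ = (C * w) * ((r : ℝ) / R) := by ring
      exact le_of_mul_le_mul_right this hq
    have h10 : β ≤ C / c₀ * w := by
      rw [div_mul_eq_mul_div, le_div_iff₀ hc₀]
      exact h9
    nlinarith

/-- BEYOND THE CORRELATION LENGTH, half plane: `tt_kb` and `kbh_of`. -/
theorem kbh {L : Lat} {κ : ℕ → ℝ} (h : Fam L κ) {x₀ : Pt}
    (hc : ∀ m : ℤ, 8 ≤ m → CoreOK (L.shift x₀) m) :
    ∃ R₁ : ℤ, 16 ≤ R₁ ∧ ∀ R₀ : ℤ, R₁ ≤ R₀ → ∃ C c : ℝ, 0 < C ∧ 0 < c ∧ c ≤ 1 / 2 ∧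
      KBHOK L C c R₀ := by
  obtain ⟨R1, hR1, h1⟩ := tt_kb h hc
  obtain ⟨R2, hR2, h2⟩ := kbh_of κ
  refine ⟨max R1 R2, hR1.trans (le_max_left _ _), fun R₀ hR₀ => ?_⟩
  obtain ⟨C, c, hC, hc0, hc1, hK⟩ := h1 R₀ ((le_max_left _ _).trans hR₀)
  obtain ⟨C', hC', h3⟩ := h2 C (by linarith)
  exact ⟨C', c, hC', hc0, hc1, h3 L h c R₀ ((le_max_right _ _).trans hR₀) hK⟩

end SC

end

/-! ### from `Lib_MP_e0a489.TP12` -/

section

/-!
# MP_e0a489, module TP 12: the final inequality from the spectral estimate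
-/

set_option autoImplicit false

namespace SC

variable [IfL] [IfX] [IfT]

open Classical

/-- the statement of `spectral_box` for one `R₀` -/
def SpecBox (L : Lat) (R₀ : ℤ) : Prop :=
  ∀ A : ℝ, 0 < A → ∃ C : ℝ, 0 < C ∧ ∀ (r d N N' : ℤ) (E : Set Pt),
    R₀ ≤ r → r ≤ N → N ≤ 2 * N' → N' ≤ 2 * N → GoodE L N E →
    ∀ F : Finset Pt, (∀ v, v ∈ F ↔ v ∈ dom N N' E) →
    ∑ S ∈ F.powerset.filter (fun S => ((S.card : ℝ) ≤ A * ((r : ℝ) ^ 2 * al L R₀ r)) ∧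
        ∃ u ∈ S, ∃ v ∈ S, d ≤ nrm (u - v)),
      fc (ind (L.Crs N N' E)) S ^ 2 ≤
    C * (((N : ℝ) / r) * al L r N) ^ 2 * ((((max d r : ℤ) : ℝ) / r) * al L r (max d r)) ^ 2

/-- A percolation model on finite sets `I n`: the element `v` is the site `e v`, `crs n` is the crossing event, `dm` the
diameter. -/
structure Model (L : Lat) (I : ℕ → Finset Pt) (crs : ℕ → Finset Pt → Prop) (dm : Finset Pt → ℝ)
    (e : Equiv.Perm Pt) (N N' : ℕ → ℤ) (E : ℕ → Set Pt) (p : ℝ) : Prop where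
  p0 : 0 < p
  n1 : ∀ n : ℕ, 1 ≤ n → (n : ℤ) ≤ N n ∧ N n ≤ 2 * n
  n2 : ∀ n : ℕ, 1 ≤ n → N n ≤ 2 * N' n ∧ N' n ≤ 2 * N n
  good : ∀ n : ℕ, 1 ≤ n → GoodE L (N n) (E n)
  sub : ∀ n : ℕ, 1 ≤ n → ∀ v ∈ I n, e v ∈ dom (N n) (N' n) (E n)
  crs_iff : ∀ n : ℕ, 1 ≤ n → ∀ ω, L.Crs (N n) (N' n) (E n) ω ↔ crs n (opn (I n) e ω)
  pr_ge : ∀ n : ℕ, 1 ≤ n → p ≤ pr (L.Crs (N n) (N' n) (E n))
  dm_le : ∀ (n : ℕ) (S : Finset Pt), 1 ≤ n → S ⊆ I n → dm S ≤ 4 * n
  dm_far : ∀ (S : Finset Pt) (d : ℝ), 1 ≤ d → d ≤ dm S →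
    ∃ u ∈ S, ∃ v ∈ S, ⌊d / 2⌋ ≤ nrm (e u - e v)

/-- the left side of Q1 -/
noncomputable def lhs (I : ℕ → Finset Pt) (crs : ℕ → Finset Pt → Prop) (dm : Finset Pt → ℝ)
    (β : ℝ → ℝ → ℝ) (n : ℕ) (r r₀ : ℝ) : ℝ :=
  SCTop.specProb (I n) (fun A => if crs n A then 1 else 0)
    (fun S => (S.card : ℝ) < r ^ 2 * β 1 r ∧ r₀ ≤ dm S)

variable {L : Lat} {I : ℕ → Finset Pt} {crs : ℕ → Finset Pt → Prop} {dm : Finset Pt → ℝ}
  {e : Equiv.Perm Pt} {N N' : ℕ → ℤ} {E : ℕ → Set Pt} {p : ℝ} {i R₁ : ℤ} {K : ℝ}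
  {β : ℝ → ℝ → ℝ}

/-- `β` is comparable with `al L` in the sense of `CmpR` -/
theorem TPA.cmpR_of_beta {f : ℤ → ℤ → ℝ} {C γ : ℝ} {R₃ : ℤ} (hA : FI.AG f C γ R₃) {i : ℤ}
    (hi0 : 0 ≤ i) (hi : i ≤ 1) {β : ℝ → ℝ → ℝ} (hβ1 : ∀ r R, β r R ≤ 1)
    (hlow : ∀ r R : ℝ, 1 ≤ r → r ≤ R → f (max (⌊r⌋ - 2) i) (⌊2 * R⌋ + 1) ≤ β r R)
    (hup : ∀ r : ℝ, 5 ≤ r → β 1 r ≤ f 2 (⌊r⌋ - 2)) {R₂ : ℤ} (h2 : R₃ ≤ R₂) {D : ℝ}
    (hD : 0 < D) (hin : ∀ R, R₂ ≤ R → f R₂ R ≤ D * f i R) :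
    ∃ K : ℝ, CmpR β f K R₂ := by
  have h16 := hA.R16
  have hC := hA.C1
  have hC4 : (1 : ℝ) ≤ C ^ 4 * 4 ^ 4 :=
    one_le_mul_of_one_le_of_one_le (one_le_pow₀ hC) (by norm_num)
  obtain ⟨M, hM⟩ : ∃ M : ℝ, M = C ^ 4 * 4 ^ 4 := ⟨_, rfl⟩
  rw [← hM] at hC4
  have hM0 : 0 ≤ M := by linarith
  refine ⟨M * (1 + D), ?_, ?_, ?_⟩
  · nlinarith
  · intro r R h1 hrR
    have f1 : ⌊r⌋ ≤ ⌊R⌋ := Int.floor_le_floor hrR
    have f2 : 1 ≤ ⌊r⌋ := Int.le_floor.2 (by exact_mod_cast h1)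
    have f3 : 2 * ⌊R⌋ ≤ ⌊2 * R⌋ := by
      refine Int.le_floor.2 ?_
      push_cast
      linarith [Int.floor_le R]
    have f4 : ⌊2 * R⌋ ≤ 2 * ⌊R⌋ + 1 := by
      have g1 : R < ⌊R⌋ + 1 := Int.lt_floor_add_one _
      have g2 : ((⌊2 * R⌋ : ℤ) : ℝ) ≤ 2 * R := Int.floor_le _
      have g3 : ((⌊2 * R⌋ : ℤ) : ℝ) < ((2 * ⌊R⌋ + 2 : ℤ) : ℝ) := by
        push_cast
        linarith
      have g4 : ⌊2 * R⌋ < 2 * ⌊R⌋ + 2 := by exact_mod_cast g3
      omega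
    have hl := hlow r R h1 hrR
    obtain ⟨a, ha⟩ : ∃ a : ℤ, a = max (⌊r⌋ - 2) i := ⟨_, rfl⟩
    obtain ⟨b, hb⟩ : ∃ b : ℤ, b = ⌊2 * R⌋ + 1 := ⟨_, rfl⟩
    rw [← ha, ← hb] at hl
    have hn : 0 ≤ β r R := (hA.nn _ _).trans hl
    by_cases hc : R₂ ≤ ⌊r⌋ - 2
    · have ha' : a = ⌊r⌋ - 2 := by omega
      have e1 : f (max ⌊r⌋ R₂) (max ⌊R⌋ R₂) ≤ C ^ 4 * 4 ^ 4 * f a b := by
        refine hA.cmp (by norm_num) (by omega) (by omega) ?_ ?_
        · exact_mod_cast (show max ⌊r⌋ R₂ ≤ 4 * a by omega)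
        · exact_mod_cast (show b ≤ 4 * max ⌊R⌋ R₂ by omega)
      rw [← hM] at e1
      calc _ ≤ M * f a b := e1
        _ ≤ M * β r R := mul_le_mul_of_nonneg_left hl hM0
        _ ≤ M * (1 + D) * β r R := by
          refine mul_le_mul_of_nonneg_right ?_ hn
          nlinarith
    · have e1 : f (max ⌊r⌋ R₂) (max ⌊R⌋ R₂) ≤ C ^ 4 * 4 ^ 4 * f R₂ (max b R₂) := by
        refine hA.cmp (by norm_num) (by omega) (by omega) ?_ ?_
        · exact_mod_cast (show max ⌊r⌋ R₂ ≤ 4 * R₂ by omega)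
        · exact_mod_cast (show max b R₂ ≤ 4 * max ⌊R⌋ R₂ by omega)
      rw [← hM] at e1
      have e2 := hin (max b R₂) (le_max_right _ _)
      have e3 : f i (max b R₂) ≤ f a b :=
        hA.mono a b i (max b R₂) hi0 (by omega) (by omega) (le_max_left _ _)
      calc _ ≤ M * f R₂ (max b R₂) := e1
        _ ≤ M * (D * f i (max b R₂)) := mul_le_mul_of_nonneg_left e2 hM0
        _ ≤ M * (D * β r R) :=
          mul_le_mul_of_nonneg_left (mul_le_mul_of_nonneg_left (e3.trans hl) hD.le) hM0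
        _ ≤ M * (1 + D) * β r R := by
          have := mul_nonneg hM0 hn
          nlinarith
  · intro R h1
    have f0 : 0 ≤ f R₂ (max ⌊R⌋ R₂) := hA.nn _ _
    have key : β 1 R ≤ M * f R₂ (max ⌊R⌋ R₂) := by
      by_cases hc : ⌊R⌋ ≤ 2 * R₂
      · have e1 : f R₂ R₂ ≤ C ^ 4 * 4 ^ 4 * f R₂ (max ⌊R⌋ R₂) := by
          refine hA.cmp (by norm_num) (by omega) (by omega) ?_ ?_
          · exact_mod_cast (show R₂ ≤ 4 * R₂ by omega)
          · exact_mod_cast (show max ⌊R⌋ R₂ ≤ 4 * R₂ by omega)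
        rw [hA.one R₂ R₂ le_rfl, ← hM] at e1
        exact (hβ1 1 R).trans e1
      · have hR5 : (5 : ℝ) ≤ R := by
          have g1 : ((⌊R⌋ : ℤ) : ℝ) ≤ R := Int.floor_le R
          have g2 : (5 : ℝ) ≤ ((⌊R⌋ : ℤ) : ℝ) := by exact_mod_cast (show 5 ≤ ⌊R⌋ by omega)
          linarith
        have e1 := hup R hR5
        have e2 : f 2 (⌊R⌋ - 2) ≤ f R₂ (⌊R⌋ - 2) :=
          hA.mono R₂ (⌊R⌋ - 2) 2 (⌊R⌋ - 2) (by norm_num) (by omega) (by omega) le_rfl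
        have e3 : f R₂ (⌊R⌋ - 2) ≤ C ^ 4 * 4 ^ 4 * f R₂ (max ⌊R⌋ R₂) := by
          refine hA.cmp (by norm_num) (by omega) (by omega) ?_ ?_
          · exact_mod_cast (show R₂ ≤ 4 * R₂ by omega)
          · exact_mod_cast (show max ⌊R⌋ R₂ ≤ 4 * (⌊R⌋ - 2) by omega)
        rw [← hM] at e3
        exact e1.trans (e2.trans e3)
    refine key.trans (mul_le_mul_of_nonneg_right ?_ f0)
    nlinarith

/-- THE FINAL INEQUALITY.  `Beta` and `inner_al` give `CmpR β (al L)` (`TPA.cmpR_of_beta`); `tp_assemble` with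
`SP n τ r₀` = spectral probability of `|S| < τ`, `dm S ≥ r₀` (for `r₀ ≥ 1`); `specProb_le` with the images of the sets under
`e`, `dm_far`. -/
theorem tp_main {κ : ℕ → ℝ} (h : Fam L κ) {x₀ : Pt} (hx : nrm x₀ ≤ i) (hi : i ≤ 1)
    (hc : ∀ m : ℤ, 8 ≤ m → CoreOK (L.shift x₀) m)
    (_hS : ∀ R : ℤ, ∃ R₀ : ℤ, R ≤ R₀ ∧ SpecBox L R₀) (hβ : Beta L i β)
    (hM : Model L I crs dm e N N' E p) :
    ∃ C : ℝ, ∀ n : ℕ, 1 ≤ n → ∀ r r₀ : ℝ, 1 ≤ r → r ≤ r₀ →
      (r ≤ n → lhs I crs dm β n r r₀ ≤ C * ((n : ℝ) / r * β r n) ^ 2 * (r₀ / r * β r r₀) ^ 2) ∧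
      (n < r → lhs I crs dm β n r r₀ ≤ C * ((n : ℝ) / r) ^ 2 * (r₀ / r * β r r₀) ^ 2) := by
  have hi0 : 0 ≤ i := le_trans (le_trans (abs_nonneg x₀.1) (le_max_left _ _)) hx
  obtain ⟨C₀, c₀, γ, R₃, hAF⟩ := FI.al_AF h
  obtain ⟨R₂, hin⟩ := inner_al h hx hi hc
  have hcmp : ∀ R₁ : ℤ, ∃ R₂ : ℤ, R₁ ≤ R₂ ∧ ∃ K : ℝ, CmpR β (al L) K R₂ := by
    intro R₁
    obtain ⟨M, hM⟩ : ∃ M : ℤ, M = max R₁ (max R₂ R₃) := ⟨_, rfl⟩
    obtain ⟨D, hD, hD'⟩ := hin M (by omega)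
    exact ⟨M, by omega, TPA.cmpR_of_beta hAF.toAG hi0 hi hβ.le1 hβ.low hβ.up (by omega) hD hD'⟩
  obtain ⟨F, hF⟩ : ∃ F : ℕ → Finset Pt, ∀ (n : ℕ) (v : Pt),
      v ∈ F n ↔ v ∈ dom (N n) (N' n) (E n) := by
    refine ⟨fun n => (Finset.Icc (-N n) (N n) ×ˢ Finset.Icc (-N' n) (N' n)).filter
      fun v => v ∉ E n, fun n v => ?_⟩
    simp only [Finset.mem_filter, Finset.mem_product, Finset.mem_Icc]
    exact Iff.rfl
  have key := tp_assemble h hc hcmp (N := N) (N' := N') (E := E)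
    (fun n hn => ⟨(hM.n1 n hn).1, (hM.n1 n hn).2, (hM.n2 n hn).1, (hM.n2 n hn).2,
      hM.good n hn⟩) hF
    (SP := fun n τ r₀ => if 1 ≤ r₀ then SCTop.specProb (I n) (fun A => if crs n A then 1 else 0)
      (fun S => (S.card : ℝ) < τ ∧ r₀ ≤ dm S) else 0) hM.p0 ?_
  · obtain ⟨C, hC⟩ := key
    refine ⟨C, fun n hn r r₀ h1 h2 => ?_⟩
    obtain ⟨c1, c2⟩ := hC n hn r r₀ h1 h2
    rw [if_pos (h1.trans h2)] at c1 c2
    exact ⟨c1, c2⟩
  · intro n hn τ r₀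
    show (if 1 ≤ r₀ then SCTop.specProb (I n) (fun A => if crs n A then 1 else 0)
      (fun S => (S.card : ℝ) < τ ∧ r₀ ≤ dm S) else 0) ≤ _
    by_cases hr : 1 ≤ r₀
    · rw [if_pos hr]
      have := specProb_le (I := I n) (F := F n) (e := e) (crs := crs n)
        (P := fun S => (S.card : ℝ) < τ ∧ r₀ ≤ dm S)
        (Q := fun S => ((S.card : ℝ) ≤ τ) ∧ ∃ u ∈ S, ∃ v ∈ S, ⌊r₀ / 2⌋ ≤ nrm (u - v))
        (Ev := L.Crs (N n) (N' n) (E n)) (p := p)
        (fun v hv => (hF n _).2 (hM.sub n hn v hv)) (hM.crs_iff n hn)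
        (by
          intro S hS hPS
          obtain ⟨g1, g2⟩ := hPS
          obtain ⟨u, hu, v, hv, huv⟩ := hM.dm_far S r₀ hr g2
          refine ⟨by rw [Finset.card_map]; exact g1.le, e u,
            Finset.mem_map_of_mem _ hu, e v, Finset.mem_map_of_mem _ hv, huv⟩)
        hM.p0 (hM.pr_ge n hn)
      rw [inv_mul_eq_div]
      convert this
    · rw [if_neg hr]
      exact mul_nonneg (inv_nonneg.2 hM.p0.le) (Finset.sum_nonneg fun _ _ => sq_nonneg _)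

end SC

end

/-! ### from `Lib_MP_e0a489.ZC1` -/

section

/-!
# MP_e0a489, module ZR: the core configuration of `Z2` (centred at a horizontal edge)
-/

set_option autoImplicit false

namespace SC

open Classical

private theorem zc_fair {v : Pt} (h : (v.1 + v.2) % 2 = 0) : (Z2.shift (1, 0)).typ v = none := by
  show Z2.typ (v + (1, 0)) = none
  apply z2_fair
  rw [Prod.fst_add, Prod.snd_add]
  show (v.1 + 1 + (v.2 + 0)) % 2 = 1
  omega

private theorem zc_open {ω : Cfg} {v : Pt} (h1 : v.1 % 2 = 1) (h2 : v.2 % 2 = 0) :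
    v ∈ (Z2.shift (1, 0)).col true ω := by
  have h := z2_open (ω := fun w => ω (w - (1, 0))) (v := v + (1, 0)) (by
    show (v.1 + 1) % 2 = 0
    omega) (by
    show (v.2 + 0) % 2 = 0
    omega)
  have h3 : (Z2.typ (v + (1, 0))).getD (ω (v + (1, 0) - (1, 0))) = true := h
  rw [add_sub_cancel_right] at h3
  exact h3

private theorem zc_closed {ω : Cfg} {v : Pt} (h1 : v.1 % 2 = 0) (h2 : v.2 % 2 = 1) :
    v ∈ (Z2.shift (1, 0)).col false ω := by
  have h := z2_closed (ω := fun w => ω (w - (1, 0))) (v := v + (1, 0)) (by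
    show (v.1 + 1) % 2 = 1
    omega) (by
    show (v.2 + 0) % 2 = 1
    omega)
  have h3 : (Z2.typ (v + (1, 0))).getD (ω (v + (1, 0) - (1, 0))) = false := h
  rw [add_sub_cancel_right] at h3
  exact h3

private theorem zc_col {c : Bool} {ω : Cfg} {v : Pt} (h : (v.1 + v.2) % 2 = 0) (h' : ω v = c) :
    v ∈ (Z2.shift (1, 0)).col c ω := by
  show ((Z2.shift (1, 0)).typ v).getD (ω v) = c
  rw [zc_fair h]
  exact h'

private theorem zc_bx {v : Pt} {m : ℤ} : v ∈ bx m ↔ |v.1| ≤ m ∧ |v.2| ≤ m := by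
  show max |v.1| |v.2| ≤ m ↔ _
  exact max_le_iff

private theorem zc_o {m : ℤ} (hm : 8 ≤ m) {ω : Cfg}
    (hω : ∀ v ∈ bx m, v ≠ 0 → |v.2| < |v.1| → ω v = true) {σ Y : ℤ}
    (hσ : σ = 1 ∨ σ = -1) (hY : 2 * |Y| ≤ m) (hp : (σ * (m + 1), Y) ∈ (Z2.shift (1, 0)).col true ω) :
    (Z2.shift (1, 0)).Cn ((bx (m + 1) \ {0}) ∩ (Z2.shift (1, 0)).col true ω) (σ * (m + 1), Y)
      (σ, 0) := by
  set A := (bx (m + 1) \ {0}) ∩ (Z2.shift (1, 0)).col true ω with hA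
  have mem : ∀ x y : ℤ, 1 ≤ σ * x → σ * x ≤ m → |y| < σ * x → (x % 2 = 1 ∨ y % 2 = 0) →
      ((x, y) : Pt) ∈ A := by
    intro x y h1 h2 h3 h4
    have hx : |x| = σ * x := by
      rcases hσ with rfl | rfl
      · rw [one_mul] at h1 ⊢
        exact abs_of_pos (by omega)
      · rw [show (-1 : ℤ) * x = -x by ring] at h1 ⊢
        exact abs_of_neg (by omega)
    have hne : ((x, y) : Pt) ≠ 0 := by
      intro h
      have : x = 0 := congrArg Prod.fst h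
      rw [this] at h1
      omega
    refine ⟨⟨zc_bx.2 ⟨?_, ?_⟩, hne⟩, ?_⟩
    · show |x| ≤ m + 1
      omega
    · show |y| ≤ m + 1
      omega
    · by_cases h5 : (x + y) % 2 = 0
      · refine zc_col h5 (hω _ (zc_bx.2 ⟨?_, ?_⟩) hne ?_)
        · show |x| ≤ m
          omega
        · show |y| ≤ m
          omega
        · show |y| < |x|
          omega
      · refine zc_open ?_ ?_
        · show x % 2 = 1
          omega
        · show y % 2 = 0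
          omega
  -- from an odd column to the origin
  have fin : ∀ x y : ℤ, 1 ≤ σ * x → σ * x ≤ m → |y| < σ * x → x % 2 = 1 →
      (Z2.shift (1, 0)).Cn A (x, y) (σ, 0) := by
    intro x y h1 h2 h3 h4
    have s1 : (Z2.shift (1, 0)).Cn A (x, y) (x, 0) := by
      have := (Lat.con_rect (L := Z2.shift (1, 0)) x x (-|y|) |y|) (x, y)
        ⟨⟨le_refl x, le_refl x⟩, neg_abs_le y, le_abs_self y⟩ (x, 0)
        ⟨⟨le_refl x, le_refl x⟩, by
          show -|y| ≤ 0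
          have := abs_nonneg y
          omega, abs_nonneg y⟩
      refine this.mono ?_
      rintro ⟨v1, v2⟩ ⟨⟨a1, a2⟩, a3, a4⟩
      have a1' : x ≤ v1 := a1
      have a2' : v1 ≤ x := a2
      have a3' : -|y| ≤ v2 := a3
      have a4' : v2 ≤ |y| := a4
      obtain rfl : v1 = x := le_antisymm a2' a1'
      exact mem v1 v2 h1 h2 (lt_of_le_of_lt (abs_le.2 ⟨a3', a4'⟩) h3) (Or.inl h4)
    have s2 : (Z2.shift (1, 0)).Cn A (x, 0) (σ, 0) := by
      have := (Lat.con_rect (L := Z2.shift (1, 0)) (min x σ) (max x σ) 0 0) (x, 0)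
        ⟨⟨min_le_left _ _, le_max_left _ _⟩, le_refl _, le_refl _⟩ (σ, 0)
        ⟨⟨min_le_right _ _, le_max_right _ _⟩, le_refl _, le_refl _⟩
      refine this.mono ?_
      rintro ⟨v1, v2⟩ ⟨⟨a1, a2⟩, a3, a4⟩
      have a1' : min x σ ≤ v1 := a1
      have a2' : v1 ≤ max x σ := a2
      have a3' : 0 ≤ v2 := a3
      have a4' : v2 ≤ 0 := a4
      obtain rfl : v2 = 0 := le_antisymm a4' a3'
      have h5 : 1 ≤ σ * v1 ∧ σ * v1 ≤ m := by
        rcases hσ with rfl | rfl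
        · constructor <;> omega
        · constructor <;> omega
      exact mem v1 0 h5.1 h5.2 (by rw [abs_zero]; omega) (Or.inr rfl)
    exact s1.trans s2
  have pm : |σ * (m + 1)| = m + 1 := by
    rcases hσ with rfl | rfl
    · rw [one_mul]
      exact abs_of_pos (by omega)
    · rw [show (-1 : ℤ) * (m + 1) = -(m + 1) by ring, abs_neg]
      exact abs_of_pos (by omega)
  have ring0 : ∀ y : ℤ, |y| ≤ m → ((σ * (m + 1), y) : Pt) ∈ bx (m + 1) \ {0} := by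
    intro y hy
    refine ⟨zc_bx.2 ⟨?_, ?_⟩, ?_⟩
    · show |σ * (m + 1)| ≤ m + 1
      omega
    · show |y| ≤ m + 1
      omega
    · intro h
      have h1 : σ * (m + 1) = 0 := congrArg Prod.fst h
      rw [h1, abs_zero] at pm
      omega
  have hpA : ((σ * (m + 1), Y) : Pt) ∈ A := ⟨ring0 Y (by have := abs_nonneg Y; omega), hp⟩
  have hσm : σ * (σ * m) = m ∧ σ * (σ * (m - 1)) = m - 1 := by
    rcases hσ with rfl | rfl
    · constructor <;> ring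
    · constructor <;> ring
  -- the case of an even ordinate
  have ev : ∀ y : ℤ, 2 * |y| ≤ m → y % 2 = 0 → ((σ * (m + 1), y) : Pt) ∈ A →
      (Z2.shift (1, 0)).Cn A (σ * (m + 1), y) (σ, 0) := by
    intro y hy he hA'
    have hy0 := abs_nonneg y
    have m1 : ((σ * m, y) : Pt) ∈ A := mem _ _ (by omega) (by omega) (by omega) (Or.inr he)
    have e1 : (Z2.shift (1, 0)).Cn A (σ * (m + 1), y) (σ * m, y) := by
      refine Lat.Cn.of_adj hA' m1 (Lat.adj_of_nn ?_)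
      show |σ * (m + 1) - σ * m| + |y - y| = 1
      rcases hσ with rfl | rfl
      · rw [show (1 : ℤ) * (m + 1) - 1 * m = 1 by ring, sub_self]
        rfl
      · rw [show (-1 : ℤ) * (m + 1) - -1 * m = -1 by ring, sub_self]
        rfl
    by_cases hmo : m % 2 = 1
    · refine e1.trans (fin _ _ (by omega) (by omega) (by omega) ?_)
      rcases hσ with rfl | rfl
      · omega
      · omega
    · have m2 : ((σ * (m - 1), y) : Pt) ∈ A :=
        mem _ _ (by omega) (by omega) (by omega) (Or.inr he)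
      have e2 : (Z2.shift (1, 0)).Cn A (σ * m, y) (σ * (m - 1), y) := by
        refine Lat.Cn.of_adj m1 m2 (Lat.adj_of_nn ?_)
        show |σ * m - σ * (m - 1)| + |y - y| = 1
        rcases hσ with rfl | rfl
        · rw [show (1 : ℤ) * m - 1 * (m - 1) = 1 by ring, sub_self]
          rfl
        · rw [show (-1 : ℤ) * m - -1 * (m - 1) = -1 by ring, sub_self]
          rfl
      refine (e1.trans e2).trans (fin _ _ (by omega) (by omega) (by omega) ?_)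
      rcases hσ with rfl | rfl
      · omega
      · omega
  by_cases he : Y % 2 = 0
  · exact ev Y hY he hpA
  · -- odd ordinate
    have hmo : (σ * (m + 1)) % 2 = 1 := by
      by_contra h
      exact col_ne hp (zc_closed (by show (σ * (m + 1)) % 2 = 0; omega) (by show Y % 2 = 1; omega))
    obtain ⟨Y', hY1, hY2⟩ : ∃ Y' : ℤ, |Y - Y'| = 1 ∧ |Y'| ≤ |Y| := by
      by_cases h0 : 0 < Y
      · refine ⟨Y - 1, ?_, ?_⟩
        · rw [show Y - (Y - 1) = 1 by ring]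
          rfl
        · rw [abs_of_pos h0, abs_of_nonneg (by omega)]
          omega
      · refine ⟨Y + 1, ?_, ?_⟩
        · rw [show Y - (Y + 1) = -1 by ring]
          rfl
        · rw [abs_of_neg (show Y < 0 by omega), abs_of_nonpos (by omega)]
          omega
    have hev : Y' % 2 = 0 := by
      rcases abs_eq (by norm_num : (0 : ℤ) ≤ 1) |>.1 hY1 with h | h <;> omega
    have hA' : ((σ * (m + 1), Y') : Pt) ∈ A :=
      ⟨ring0 Y' (by have := abs_nonneg Y; omega), zc_open hmo hev⟩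
    refine Lat.Cn.trans (Lat.Cn.of_adj hpA hA' (Lat.adj_of_nn ?_)) (ev Y' (by omega) hev hA')
    show |σ * (m + 1) - σ * (m + 1)| + |Y - Y'| = 1
    rw [sub_self, abs_zero, hY1]
    rfl

private theorem zc_c {m : ℤ} (hm : 8 ≤ m) {ω : Cfg}
    (hω : ∀ v ∈ bx m, v ≠ 0 → |v.1| < |v.2| → ω v = false) {σ Y : ℤ}
    (hσ : σ = 1 ∨ σ = -1) (hY : 2 * |Y| ≤ m) (hp : (Y, σ * (m + 1)) ∈ (Z2.shift (1, 0)).col false ω) :
    (Z2.shift (1, 0)).Cn ((bx (m + 1) \ {0}) ∩ (Z2.shift (1, 0)).col false ω) (Y, σ * (m + 1))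
      (0, σ) := by
  set A := (bx (m + 1) \ {0}) ∩ (Z2.shift (1, 0)).col false ω with hA
  have mem : ∀ x y : ℤ, 1 ≤ σ * x → σ * x ≤ m → |y| < σ * x → (x % 2 = 1 ∨ y % 2 = 0) →
      ((y, x) : Pt) ∈ A := by
    intro x y h1 h2 h3 h4
    have hx : |x| = σ * x := by
      rcases hσ with rfl | rfl
      · rw [one_mul] at h1 ⊢
        exact abs_of_pos (by omega)
      · rw [show (-1 : ℤ) * x = -x by ring] at h1 ⊢
        exact abs_of_neg (by omega)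
    have hne : ((y, x) : Pt) ≠ 0 := by
      intro h
      have : x = 0 := congrArg Prod.snd h
      rw [this] at h1
      omega
    refine ⟨⟨zc_bx.2 ⟨?_, ?_⟩, hne⟩, ?_⟩
    · show |y| ≤ m + 1
      omega
    · show |x| ≤ m + 1
      omega
    · by_cases h5 : (y + x) % 2 = 0
      · refine zc_col h5 (hω _ (zc_bx.2 ⟨?_, ?_⟩) hne ?_)
        · show |y| ≤ m
          omega
        · show |x| ≤ m
          omega
        · show |y| < |x|
          omega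
      · refine zc_closed ?_ ?_
        · show y % 2 = 0
          omega
        · show x % 2 = 1
          omega
  -- from an odd column to the origin
  have fin : ∀ x y : ℤ, 1 ≤ σ * x → σ * x ≤ m → |y| < σ * x → x % 2 = 1 →
      (Z2.shift (1, 0)).Cn A (y, x) (0, σ) := by
    intro x y h1 h2 h3 h4
    have s1 : (Z2.shift (1, 0)).Cn A (y, x) (0, x) := by
      have := (Lat.con_rect (L := Z2.shift (1, 0)) (-|y|) |y| x x) (y, x)
        ⟨⟨neg_abs_le y, le_abs_self y⟩, le_refl x, le_refl x⟩ (0, x)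
        ⟨⟨by
          show -|y| ≤ 0
          have := abs_nonneg y
          omega, abs_nonneg y⟩, le_refl x, le_refl x⟩
      refine this.mono ?_
      rintro ⟨v2, v1⟩ ⟨⟨a3, a4⟩, a1, a2⟩
      have a1' : x ≤ v1 := a1
      have a2' : v1 ≤ x := a2
      have a3' : -|y| ≤ v2 := a3
      have a4' : v2 ≤ |y| := a4
      obtain rfl : v1 = x := le_antisymm a2' a1'
      exact mem v1 v2 h1 h2 (lt_of_le_of_lt (abs_le.2 ⟨a3', a4'⟩) h3) (Or.inl h4)
    have s2 : (Z2.shift (1, 0)).Cn A (0, x) (0, σ) := by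
      have := (Lat.con_rect (L := Z2.shift (1, 0)) 0 0 (min x σ) (max x σ)) (0, x)
        ⟨⟨le_refl _, le_refl _⟩, min_le_left _ _, le_max_left _ _⟩ (0, σ)
        ⟨⟨le_refl _, le_refl _⟩, min_le_right _ _, le_max_right _ _⟩
      refine this.mono ?_
      rintro ⟨v2, v1⟩ ⟨⟨a3, a4⟩, a1, a2⟩
      have a1' : min x σ ≤ v1 := a1
      have a2' : v1 ≤ max x σ := a2
      have a3' : 0 ≤ v2 := a3
      have a4' : v2 ≤ 0 := a4
      obtain rfl : v2 = 0 := le_antisymm a4' a3'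
      have h5 : 1 ≤ σ * v1 ∧ σ * v1 ≤ m := by
        rcases hσ with rfl | rfl
        · constructor <;> omega
        · constructor <;> omega
      exact mem v1 0 h5.1 h5.2 (by rw [abs_zero]; omega) (Or.inr rfl)
    exact s1.trans s2
  have pm : |σ * (m + 1)| = m + 1 := by
    rcases hσ with rfl | rfl
    · rw [one_mul]
      exact abs_of_pos (by omega)
    · rw [show (-1 : ℤ) * (m + 1) = -(m + 1) by ring, abs_neg]
      exact abs_of_pos (by omega)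
  have ring0 : ∀ y : ℤ, |y| ≤ m → ((y, σ * (m + 1)) : Pt) ∈ bx (m + 1) \ {0} := by
    intro y hy
    refine ⟨zc_bx.2 ⟨?_, ?_⟩, ?_⟩
    · show |y| ≤ m + 1
      omega
    · show |σ * (m + 1)| ≤ m + 1
      omega
    · intro h
      have h1 : σ * (m + 1) = 0 := congrArg Prod.snd h
      rw [h1, abs_zero] at pm
      omega
  have hpA : ((Y, σ * (m + 1)) : Pt) ∈ A := ⟨ring0 Y (by have := abs_nonneg Y; omega), hp⟩
  have hσm : σ * (σ * m) = m ∧ σ * (σ * (m - 1)) = m - 1 := by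
    rcases hσ with rfl | rfl
    · constructor <;> ring
    · constructor <;> ring
  -- the case of an even ordinate
  have ev : ∀ y : ℤ, 2 * |y| ≤ m → y % 2 = 0 → ((y, σ * (m + 1)) : Pt) ∈ A →
      (Z2.shift (1, 0)).Cn A (y, σ * (m + 1)) (0, σ) := by
    intro y hy he hA'
    have hy0 := abs_nonneg y
    have m1 : ((y, σ * m) : Pt) ∈ A := mem _ _ (by omega) (by omega) (by omega) (Or.inr he)
    have e1 : (Z2.shift (1, 0)).Cn A (y, σ * (m + 1)) (y, σ * m) := by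
      refine Lat.Cn.of_adj hA' m1 (Lat.adj_of_nn ?_)
      show |y - y| + |σ * (m + 1) - σ * m| = 1
      rcases hσ with rfl | rfl
      · rw [show (1 : ℤ) * (m + 1) - 1 * m = 1 by ring, sub_self]
        rfl
      · rw [show (-1 : ℤ) * (m + 1) - -1 * m = -1 by ring, sub_self]
        rfl
    by_cases hmo : m % 2 = 1
    · refine e1.trans (fin _ _ (by omega) (by omega) (by omega) ?_)
      rcases hσ with rfl | rfl
      · omega
      · omega
    · have m2 : ((y, σ * (m - 1)) : Pt) ∈ A :=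
        mem _ _ (by omega) (by omega) (by omega) (Or.inr he)
      have e2 : (Z2.shift (1, 0)).Cn A (y, σ * m) (y, σ * (m - 1)) := by
        refine Lat.Cn.of_adj m1 m2 (Lat.adj_of_nn ?_)
        show |y - y| + |σ * m - σ * (m - 1)| = 1
        rcases hσ with rfl | rfl
        · rw [show (1 : ℤ) * m - 1 * (m - 1) = 1 by ring, sub_self]
          rfl
        · rw [show (-1 : ℤ) * m - -1 * (m - 1) = -1 by ring, sub_self]
          rfl
      refine (e1.trans e2).trans (fin _ _ (by omega) (by omega) (by omega) ?_)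
      rcases hσ with rfl | rfl
      · omega
      · omega
  by_cases he : Y % 2 = 0
  · exact ev Y hY he hpA
  · -- odd ordinate
    have hmo : (σ * (m + 1)) % 2 = 1 := by
      by_contra h
      exact col_ne (zc_open (by show Y % 2 = 1; omega) (by show (σ * (m + 1)) % 2 = 0; omega)) hp
    obtain ⟨Y', hY1, hY2⟩ : ∃ Y' : ℤ, |Y - Y'| = 1 ∧ |Y'| ≤ |Y| := by
      by_cases h0 : 0 < Y
      · refine ⟨Y - 1, ?_, ?_⟩
        · rw [show Y - (Y - 1) = 1 by ring]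
          rfl
        · rw [abs_of_pos h0, abs_of_nonneg (by omega)]
          omega
      · refine ⟨Y + 1, ?_, ?_⟩
        · rw [show Y - (Y + 1) = -1 by ring]
          rfl
        · rw [abs_of_neg (show Y < 0 by omega), abs_of_nonpos (by omega)]
          omega
    have hev : Y' % 2 = 0 := by
      rcases abs_eq (by norm_num : (0 : ℤ) ≤ 1) |>.1 hY1 with h | h <;> omega
    have hA' : ((Y', σ * (m + 1)) : Pt) ∈ A :=
      ⟨ring0 Y' (by have := abs_nonneg Y; omega), zc_closed hev hmo⟩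
    refine Lat.Cn.trans (Lat.Cn.of_adj hpA hA' (Lat.adj_of_nn ?_)) (ev Y' (by omega) hev hA')
    show |Y - Y'| + |σ * (m + 1) - σ * (m + 1)| = 1
    rw [sub_self, abs_zero, hY1]
    rfl

theorem z2_core {m : ℤ} (hm : 8 ≤ m) : CoreOK (Z2.shift (1, 0)) m := by
  refine ⟨zc_fair (v := 0) rfl, fun v => decide (|v.2| < |v.1|), ?_⟩
  intro ω hω c s y hs hy hp
  cases c with
  | true =>
    have h1 : ∀ v ∈ bx m, v ≠ 0 → |v.2| < |v.1| → ω v = true := by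
      intro v hv h0 h
      rw [hω v hv h0]
      exact decide_eq_true h
    have hd : dc true = 0 := rfl
    rw [hd] at hs
    rcases hs with rfl | rfl
    · rw [rt_zero] at hp ⊢
      refine ⟨(1, 0), Lat.adj_of_nn rfl, ?_⟩
      have := zc_o hm h1 (σ := 1) (Y := y) (Or.inl rfl) hy (by rw [one_mul]; exact hp)
      rw [one_mul] at this
      exact this
    · rw [show (0 : ℤ) + 2 = 2 by rfl, rt_two] at hp ⊢
      refine ⟨(-1, 0), Lat.adj_of_nn rfl, ?_⟩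
      have e : (-1 : ℤ) * (m + 1) = -(m + 1) := by ring
      have := zc_o hm h1 (σ := -1) (Y := -y) (Or.inr rfl) (by rw [abs_neg]; exact hy)
        (by rw [e]; exact hp)
      rw [e] at this
      exact this
  | false =>
    have h1 : ∀ v ∈ bx m, v ≠ 0 → |v.1| < |v.2| → ω v = false := by
      intro v hv h0 h
      rw [hω v hv h0]
      exact decide_eq_false (by omega)
    have hd : dc false = 1 := rfl
    rw [hd] at hs
    rcases hs with rfl | rfl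
    · rw [rt_one] at hp ⊢
      refine ⟨(0, 1), Lat.adj_of_nn rfl, ?_⟩
      have := zc_c hm h1 (σ := 1) (Y := -y) (Or.inl rfl) (by rw [abs_neg]; exact hy)
        (by rw [one_mul]; exact hp)
      rw [one_mul] at this
      exact this
    · rw [show (1 : ℤ) + 2 = 3 by rfl, rt_three] at hp ⊢
      refine ⟨(0, -1), Lat.adj_of_nn rfl, ?_⟩
      have e : (-1 : ℤ) * (m + 1) = -(m + 1) := by ring
      have := zc_c hm h1 (σ := -1) (Y := y) (Or.inr rfl) hy (by rw [e]; exact hp)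
      rw [e] at this
      exact this

end SC

end

/-! ### from `Lib_MP_e0a489.TQ5` -/

section

/-!
# MP_e0a489, module TQ 5: `talpha4` and `al TL`
-/

set_option autoImplicit false

namespace SC

open Classical

/-- `|w.1| ≤ ρ`, `|w.2| ≤ ρ` imply `|2 w.1 + w.2 % 2| ≤ 2 ρ + 1` (and the row `w.2 = 0`) -/
theorem bx_sub_TB {ρ H J : ℤ} (h1 : 2 * ρ + 1 ≤ H) (h2 : ρ ≤ J) : bx ρ ⊆ TB H J := by
  intro w hw
  have hw' : max |w.1| |w.2| ≤ ρ := hw
  have a1 := abs_le.mp (le_trans (le_max_left _ _) hw')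
  have a2 := abs_le.mp (le_trans (le_max_right _ _) hw')
  refine ⟨abs_le.mpr ⟨?_, ?_⟩, abs_le.mpr ⟨?_, ?_⟩⟩ <;> omega

/-- `2 |w.1| ≤ H + 1` -/
theorem TB_sub_bx {ρ H J : ℤ} (h1 : H + 1 ≤ 2 * ρ) (h2 : J ≤ ρ) : TB H J ⊆ bx ρ := by
  intro w hw
  obtain ⟨hw1, hw2⟩ := hw
  have a1 := abs_le.mp hw1
  have a2 := abs_le.mp hw2
  have h3 : |w.1| ≤ ρ := abs_le.mpr ⟨by omega, by omega⟩
  have h4 : |w.2| ≤ ρ := abs_le.mpr ⟨by omega, by omega⟩
  exact max_le h3 h4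

/-- `⌊r⌋ ≤ ⌊2r/√3⌋` (`√3 ≤ 2`), `⌊2r/√3⌋ ≤ ⌊2r⌋`, `2 ⌊r⌋ ≤ ⌊2r⌋ ≤ 2 ⌊r⌋ + 1` -/
theorem floors {r : ℝ} (hr : 0 ≤ r) : ⌊r⌋ ≤ ⌊2 * r / Real.sqrt 3⌋ ∧
    ⌊2 * r / Real.sqrt 3⌋ ≤ ⌊2 * r⌋ ∧ 2 * ⌊r⌋ ≤ ⌊2 * r⌋ ∧ ⌊2 * r⌋ ≤ 2 * ⌊r⌋ + 1 := by
  have hs0 : (0 : ℝ) < Real.sqrt 3 := Real.sqrt_pos.mpr (by norm_num)
  have hs1 : (1 : ℝ) ≤ Real.sqrt 3 := by
    rw [show (1 : ℝ) = Real.sqrt 1 from Real.sqrt_one.symm]
    exact Real.sqrt_le_sqrt (by norm_num)
  have hs2 : Real.sqrt 3 ≤ 2 := by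
    rw [Real.sqrt_le_left (by norm_num)]
    norm_num
  refine ⟨Int.floor_le_floor ?_, Int.floor_le_floor ?_, ?_, ?_⟩
  · rw [le_div_iff₀ hs0]
    nlinarith
  · rw [div_le_iff₀ hs0]
    nlinarith
  · rw [Int.le_floor]
    push_cast
    have := Int.floor_le r
    linarith
  · have h1 := Int.lt_floor_add_one r
    have h2 : ⌊2 * r⌋ < 2 * ⌊r⌋ + 2 := by
      rw [Int.floor_lt]
      push_cast
      linarith
    omega

/-- if `⌊2r⌋ = 2` then `r < 3/2`, `2r/√3 < √3 < 2` -/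
theorem floor_case {r : ℝ} (hr : 1 ≤ r) : 3 ≤ ⌊2 * r⌋ ∨ ⌊2 * r / Real.sqrt 3⌋ = 1 := by
  rcases le_or_gt 3 (2 * r) with h | h
  · left
    rw [Int.le_floor]
    exact_mod_cast h
  · right
    have hs0 : (0 : ℝ) < Real.sqrt 3 := Real.sqrt_pos.mpr (by norm_num)
    have hs2 : Real.sqrt 3 ≤ 2 := by
      rw [Real.sqrt_le_left (by norm_num)]
      norm_num
    have hs3 : (3 : ℝ) / 2 ≤ Real.sqrt 3 := by
      rw [Real.le_sqrt (by norm_num) (by norm_num)]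
      norm_num
    rw [Int.floor_eq_iff]
    constructor
    · push_cast
      rw [le_div_iff₀ hs0]
      linarith
    · push_cast
      rw [div_lt_iff₀ hs0]
      linarith

/-- `prob_eq` with `I = sites R`, `e = shE`; `tfour_iff` -/
theorem talpha4_eq (r R : ℝ) : SCTop.talpha4 r R = pr (fun ω =>
    RFour ⌊2 * r⌋ ⌊2 * r / Real.sqrt 3⌋ ⌊2 * R⌋ ⌊2 * R / Real.sqrt 3⌋ ω) := by
  unfold SCTop.talpha4
  rw [prob_eq (SCTop.sites R) shE (SCTop.tfourArms r R)]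
  congr 1
  funext ω
  exact propext (tfour_iff r R ω)

/-- the event is local: it depends on the finite set `(sites R).map shE` (`opn_dep`, `tfour_iff`) -/
theorem rfour_loc (r R : ℝ) : Loc (fun ω =>
    RFour ⌊2 * r⌋ ⌊2 * r / Real.sqrt 3⌋ ⌊2 * R⌋ ⌊2 * R / Real.sqrt 3⌋ ω) := by
  have h1 : (fun ω => RFour ⌊2 * r⌋ ⌊2 * r / Real.sqrt 3⌋ ⌊2 * R⌋ ⌊2 * R / Real.sqrt 3⌋ ω) =
      fun ω => SCTop.tfourArms r R (opn (SCTop.sites R) shE ω) :=
    funext fun ω => propext (tfour_iff r R ω).symm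
  rw [h1]
  exact ⟨_, opn_dep (SCTop.sites R) shE (SCTop.tfourArms r R)⟩

/-- LOWER BOUND.  `r' = max (⌊r⌋ - 2) 0`, `R' = ⌊2R⌋ + 1`, `r' < R'`, so `al = pr (TwoA true r' R')`; `twoA_rtwo` (`bx r' ⊆ TB (⌊2r⌋-2) (⌊2r/√3⌋-1)`: if `⌊r⌋ ≥ 2` by `bx_sub_TB` and `floors`, if `⌊r⌋ = 1` then `bx 0 = {0}`;
`TB ⌊2R⌋ .. ⊆ bx ⌊2R⌋` by `TB_sub_bx`), `rtwo_rfour` (`floor_case`), `talpha4_eq`, `pr_mono` (`TwoA.loc`, `rfour_loc`). -/
theorem talpha4_low {r R : ℝ} (hr : 1 ≤ r) (hrR : r ≤ R) :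
    al TL (max (⌊r⌋ - 2) 0) (⌊2 * R⌋ + 1) ≤ SCTop.talpha4 r R := by
  obtain ⟨f1, f2, f3, f4⟩ := floors (r := r) (by linarith)
  obtain ⟨g1, g2, g3, g4⟩ := floors (r := R) (by linarith)
  have k1 : 1 ≤ ⌊r⌋ := by
    rw [Int.le_floor]
    exact_mod_cast hr
  have k2 : ⌊r⌋ ≤ ⌊R⌋ := Int.floor_le_floor hrR
  have k3 : ⌊2 * r⌋ ≤ ⌊2 * R⌋ := Int.floor_le_floor (by linarith)
  have k4 : ⌊2 * r / Real.sqrt 3⌋ ≤ ⌊2 * R / Real.sqrt 3⌋ := by
    apply Int.floor_le_floor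
    exact div_le_div_of_nonneg_right (by linarith) (Real.sqrt_nonneg 3)
  have hlt : max (⌊r⌋ - 2) 0 < ⌊2 * R⌋ + 1 := by
    rw [max_lt_iff]
    constructor <;> omega
  rw [talpha4_eq, al, if_pos hlt]
  refine pr_mono (Lat.TwoA.loc TL true _ _) (rfour_loc r R) fun ω h => ?_
  refine rtwo_rfour (by omega) (by omega) ?_ k3 k4 (twoA_rtwo k3 k4 ?_ ?_ h)
  · exact floor_case hr
  · rcases le_or_gt 2 ⌊r⌋ with h2 | h2
    · rw [max_eq_left (by omega)]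
      exact bx_sub_TB (by omega) (by omega)
    · rw [max_eq_right (by omega)]
      intro w hw
      have hw' : max |w.1| |w.2| ≤ 0 := hw
      have a1 := abs_le.mp (le_trans (le_max_left _ _) hw')
      have a2 := abs_le.mp (le_trans (le_max_right _ _) hw')
      refine ⟨abs_le.mpr ⟨?_, ?_⟩, abs_le.mpr ⟨?_, ?_⟩⟩ <;> omega
  · exact TB_sub_bx (by omega) (by omega)

/-- UPPER BOUND.  `rfour_twoA` with `r' = 2`, `R' = ⌊r⌋ - 2 > 2`: `TB ⌊2 * 1⌋ ⌊2 * 1 / √3⌋ = TB 2 1 ⊆ bx 2`, `bx (⌊r⌋ - 1) ⊆ TB ⌊2r⌋ ⌊2r/√3⌋`. -/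
theorem talpha4_up {r : ℝ} (hr : 5 ≤ r) : SCTop.talpha4 1 r ≤ al TL 2 (⌊r⌋ - 2) := by
  obtain ⟨f1, f2, f3, f4⟩ := floors (r := r) (by linarith)
  obtain ⟨g1, g2, g3, g4⟩ := floors (r := 1) (by norm_num)
  have k1 : 5 ≤ ⌊r⌋ := by
    rw [Int.le_floor]
    exact_mod_cast hr
  have e1 : ⌊2 * (1 : ℝ)⌋ = 2 := by
    rw [Int.floor_eq_iff]
    norm_num
  rw [talpha4_eq, al, if_pos (by omega)]
  refine pr_mono (rfour_loc 1 r) (Lat.TwoA.loc TL true _ _) fun ω h => ?_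
  refine rfour_twoA (by omega) ?_ ?_ h
  · exact TB_sub_bx (by omega) (by omega)
  · exact bx_sub_TB (by omega) (by omega)

theorem beta_tl : Beta TL 0 SCTop.talpha4 := by
  refine ⟨fun r R => ?_, fun r R => ?_, fun r R hr hrR => talpha4_low hr hrR,
    fun r hr => talpha4_up hr⟩
  · rw [talpha4_eq]
    exact pr_nonneg _
  · rw [talpha4_eq]
    exact pr_le_one _

end SC

end

/-! ### from `Lib_MP_e0a489.TQ7` -/

section

/-!
# MP_e0a489, module TQ 7: diameter, triangular lattice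
-/

set_option autoImplicit false

namespace SC

variable [IfL] [IfX] [IfT]

open Classical

private theorem tq7_dist (x y : EuclideanSpace ℝ (Fin 2)) :
    dist x y ≤ |x 0 - y 0| + |x 1 - y 1| := by
  rw [EuclideanSpace.dist_eq, Fin.sum_univ_two]
  have h0 : dist (x.ofLp 0) (y.ofLp 0) = |x 0 - y 0| := Real.dist_eq _ _
  have h1 : dist (x.ofLp 1) (y.ofLp 1) = |x 1 - y 1| := Real.dist_eq _ _
  rw [h0, h1]
  have a0 := abs_nonneg (x 0 - y 0)
  have a1 := abs_nonneg (x 1 - y 1)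
  refine Real.sqrt_le_iff.2 ⟨by positivity, ?_⟩
  nlinarith [mul_nonneg a0 a1]

private theorem tq7_pos0 (v : Pt) : SCTop.pos v 0 = (v.1 : ℝ) + (v.2 : ℝ) / 2 := by
  simp [SCTop.pos]

private theorem tq7_pos1 (v : Pt) : SCTop.pos v 1 = Real.sqrt 3 / 2 * (v.2 : ℝ) := by
  simp [SCTop.pos]

private theorem tq7_nrm (w : Pt) : |(w.1 : ℝ)| ≤ nrm w ∧ |(w.2 : ℝ)| ≤ nrm w := by
  constructor
  · have h : |w.1| ≤ nrm w := le_max_left _ _
    exact_mod_cast h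
  · have h : |w.2| ≤ nrm w := le_max_right _ _
    exact_mod_cast h

/-- `2 (pos v 0) = 2 (shE v).1 + (shE v).2 % 2`, `pos v 1 = (√3/2) v.2`; the distance is at most the sum of the absolute values of the coordinates (`EuclideanSpace.dist_eq`, `Fin.sum_univ_two`, `Real.sqrt_le_left`-like);
with `m = nrm (shE u - shE v)`: first coordinate `≤ m + 1/2`, second `≤ m` (`√3/2 ≤ 1`). -/
theorem pos_dist (u v : Pt) :
    dist (SCTop.pos u) (SCTop.pos v) ≤ 2 * nrm (shE u - shE v) + 1 / 2 := by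
  refine (tq7_dist _ _).trans ?_
  rw [tq7_pos0, tq7_pos0, tq7_pos1, tq7_pos1]
  obtain ⟨h1, h2⟩ := tq7_nrm (shE u - shE v)
  have e1 : (shE u - shE v).1 = u.1 + u.2 / 2 - (v.1 + v.2 / 2) := rfl
  have e2 : (shE u - shE v).2 = u.2 - v.2 := rfl
  rw [e1] at h1
  rw [e2] at h2
  have hu : (2 * (u.2 / 2) + u.2 % 2 : ℤ) = u.2 := by omega
  have hv : (2 * (v.2 / 2) + v.2 % 2 : ℤ) = v.2 := by omega
  have hu' : (2 : ℝ) * ((u.2 / 2 : ℤ) : ℝ) + ((u.2 % 2 : ℤ) : ℝ) = (u.2 : ℝ) := by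
    exact_mod_cast hu
  have hv' : (2 : ℝ) * ((v.2 / 2 : ℤ) : ℝ) + ((v.2 % 2 : ℤ) : ℝ) = (v.2 : ℝ) := by
    exact_mod_cast hv
  have hu0 : (0 : ℝ) ≤ ((u.2 % 2 : ℤ) : ℝ) := by
    exact_mod_cast (by omega : (0 : ℤ) ≤ u.2 % 2)
  have hu1 : ((u.2 % 2 : ℤ) : ℝ) ≤ 1 := by
    exact_mod_cast (by omega : (u.2 % 2 : ℤ) ≤ 1)
  have hv0 : (0 : ℝ) ≤ ((v.2 % 2 : ℤ) : ℝ) := by
    exact_mod_cast (by omega : (0 : ℤ) ≤ v.2 % 2)
  have hv1 : ((v.2 % 2 : ℤ) : ℝ) ≤ 1 := by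
    exact_mod_cast (by omega : (v.2 % 2 : ℤ) ≤ 1)
  have a1 : |(u.1 : ℝ) + (u.2 : ℝ) / 2 - ((v.1 : ℝ) + (v.2 : ℝ) / 2)| ≤
      (nrm (shE u - shE v) : ℝ) + 1 / 2 := by
    push_cast at h1
    rw [abs_le] at h1 ⊢
    constructor <;> linarith [h1.1, h1.2]
  have a2 : |Real.sqrt 3 / 2 * (u.2 : ℝ) - Real.sqrt 3 / 2 * (v.2 : ℝ)| ≤
      (nrm (shE u - shE v) : ℝ) := by
    have e3 : Real.sqrt 3 / 2 * (u.2 : ℝ) - Real.sqrt 3 / 2 * (v.2 : ℝ) =
        Real.sqrt 3 / 2 * ((u.2 - v.2 : ℤ) : ℝ) := by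
      push_cast
      ring
    have h3 : Real.sqrt 3 / 2 ≤ 1 := by
      have h4 : Real.sqrt 3 ≤ 2 := by
        rw [Real.sqrt_le_left (by norm_num)]
        norm_num
      linarith
    have h5 : (0 : ℝ) ≤ Real.sqrt 3 / 2 := by positivity
    rw [e3, abs_mul, abs_of_nonneg h5]
    calc Real.sqrt 3 / 2 * |((u.2 - v.2 : ℤ) : ℝ)| ≤ 1 * |((u.2 - v.2 : ℤ) : ℝ)| :=
          mul_le_mul_of_nonneg_right h3 (abs_nonneg _)
      _ = |((u.2 - v.2 : ℤ) : ℝ)| := one_mul _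
      _ ≤ _ := h2
  linarith

/-- coordinates of the difference `≤ 2 n` (`inBox`) -/
theorem tl_dm_le {n : ℕ} {S : Finset Pt} (hS : S ⊆ SCTop.sites n) : SCTop.tdiam S ≤ 4 * n := by
  have hin : ∀ v ∈ S, |SCTop.pos v 0| ≤ (n : ℝ) ∧ |SCTop.pos v 1| ≤ (n : ℝ) := fun v hv =>
    (Finset.mem_filter.1 (hS hv)).2
  refine Metric.diam_le_of_forall_dist_le (by positivity) ?_
  rintro _ ⟨u, hu, rfl⟩ _ ⟨v, hv, rfl⟩
  obtain ⟨u1, u2⟩ := hin u hu
  obtain ⟨v1, v2⟩ := hin v hv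
  refine (tq7_dist _ _).trans ?_
  have h1 := abs_sub (SCTop.pos u 0) (SCTop.pos v 0)
  have h2 := abs_sub (SCTop.pos u 1) (SCTop.pos v 1)
  linarith

/-- Otherwise `nrm (shE u - shE v) ≤ ⌊d/2⌋ - 1 ≤ d/2 - 1` for all `u, v ∈ S`, so all distances are at most `2 (d/2 - 1) + 1/2 = d - 3/2` (and `S` nonempty gives `0 ≤ nrm`), and `tdiam S ≤ max (d - 3/2) 0 < d`. -/
theorem tl_dm_far {S : Finset Pt} {d : ℝ} (hd : 1 ≤ d) (h : d ≤ SCTop.tdiam S) :
    ∃ u ∈ S, ∃ v ∈ S, ⌊d / 2⌋ ≤ nrm (shE u - shE v) := by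
  by_contra hcon
  push Not at hcon
  have key : ∀ u ∈ S, ∀ v ∈ S, (nrm (shE u - shE v) : ℝ) ≤ d / 2 - 1 := by
    intro u hu v hv
    have h1 : nrm (shE u - shE v) ≤ ⌊d / 2⌋ - 1 := by
      have := hcon u hu v hv
      omega
    have h2 : (nrm (shE u - shE v) : ℝ) ≤ ((⌊d / 2⌋ - 1 : ℤ) : ℝ) := by exact_mod_cast h1
    have h3 : ((⌊d / 2⌋ : ℤ) : ℝ) ≤ d / 2 := Int.floor_le _
    push_cast at h2
    linarith
  rcases S.eq_empty_or_nonempty with rfl | ⟨w, hw⟩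
  · have h1 : SCTop.tdiam (∅ : Finset Pt) = 0 := by
      simp [SCTop.tdiam]
    rw [h1] at h
    linarith
  · have h0 : (0 : ℝ) ≤ (nrm (shE w - shE w) : ℝ) := by
      have h1 : (0 : ℤ) ≤ nrm (shE w - shE w) := le_trans (abs_nonneg _) (le_max_left _ _)
      exact_mod_cast h1
    have h1 := key w hw w hw
    have h2 : SCTop.tdiam S ≤ d - 3 / 2 := by
      refine Metric.diam_le_of_forall_dist_le (by linarith) ?_
      rintro _ ⟨u, hu, rfl⟩ _ ⟨v, hv, rfl⟩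
      have h3 := pos_dist u v
      have h4 := key u hu v hv
      linarith
    linarith

theorem model_tl {κ : ℕ → ℝ} (h : RSW TL κ) : ∃ p : ℝ,
    Model TL (fun n => SCTop.sites n) SCTop.tcrossing SCTop.tdiam shE (fun n => n) tN tE p := by
  obtain ⟨p, hp, hpr⟩ := tcrs_pr h
  refine ⟨p, hp, fun n hn => ⟨le_rfl, by omega⟩, fun n hn => ?_, fun n hn => good_tE n,
    fun n hn v hv => ?_, fun n hn ω => tcrs_iff n hn ω, hpr, fun n S hn hS => tl_dm_le hS,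
    fun S d hd h => tl_dm_far hd h⟩
  · have h1 := tN_bd n
    constructor <;> omega
  · have h1 := inBox_iff.1 (mem_sites.1 hv)
    rw [dom_tE]
    exact h1

end SC

end
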