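import Mathlib
import Pool.Agent.Lib_MP_e0a489_m.G03
import Pool.Agent.Lib_MP_e0a489_m.G04
import Pool.Agent.Lib_MP_e0a489_m.G05
import Pool.Agent.Lib_MP_e0a489_m.G08
import Pool.Agent.Lib_MP_e0a489_m.G10
import Pool.Agent.Lib_MP_e0a489_m.G22
import Pool.Agent.Lib_MP_e0a489_m.G24
import Pool.Agent.Lib_MP_e0a489_m.G25
import Pool.Agent.Lib_MP_e0a489_m.G26
import Pool.Agent.Lib_MP_e0a489_m.G27
import Pool.Agent.Lib_MP_e0a489_m.G28

/-!
# MP_e0a489_pr: merged library part G32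

Concatenation of library files (each in its own section), only to save build time.
-/

/-! ### from `Lib_MP_e0a489.IS12` -/

section

/-!
# MP_e0a489, inner separation 12: the two resampling inequalities
-/

set_option autoImplicit false

namespace SC

open Classical

variable {L : Lat} {κ : ℕ → ℝ}

private theorem is12_sub {w M k s r : ℤ} {G : Finset Pt} (hw : w % 2 = 1) (hw0 : 0 < w)
    (hr : r = M * w + w / 2) (hk : |k| < M)
    (hG : ∀ v, r - w < nrm v → nrm v ≤ r + w → v ∈ G) :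
    ib w M s k ∪ ob w M s k ⊆ (G : Set Pt) := by
  rintro v (hv | hv)
  · have h1 := ib_nrm hw hw0 hr hk hv
    exact Finset.mem_coe.2 (hG v h1.1 (by omega))
  · have h1 := ob_nrm hw hw0 hr hk hv
    exact Finset.mem_coe.2 (hG v (by omega) h1.2)

private theorem is12_ann {w r : ℤ} {G : Finset Pt} (hw0 : 0 < w)
    (hG : ∀ v, r - w < nrm v → nrm v ≤ r + w → v ∈ G) : ann r (r + w) ⊆ (G : Set Pt) := by
  rintro v ⟨h1, h2⟩
  exact Finset.mem_coe.2 (hG v (by omega) h2)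

private theorem is12_cell {w M k r : ℤ} (hw0 : 0 < w) (hr : r = M * w + w / 2)
    (h : CellI w (r + 1) k) : |k| < M := by
  have h1 := h.2
  by_contra hcon
  have h2 : M * w ≤ |k| * w := mul_le_mul_of_nonneg_right (by omega) hw0.le
  omega

/-- FIRST STEP.  `resample_ex` with the stopping set `Rev false (Di r R ∅) (Si true R ∅)` (`Rev_stop`), `τ = ℤ × ℤ × ℤ × ℤ`,
`F t = Fre true r (r + w) w M ..`, `P t` = both cells admissible; `fre_pr`, `Fre.dep` (`ib_nrm`, `ob_nrm`), `step1_in`. -/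
theorem prob1_in (h : RSW L κ) {w M K B r R : ℤ} {G : Finset Pt} (hw : w % 2 = 1)
    (hw5 : 5 ≤ w) (hK : 4 ≤ K) (hB : 48 ≤ B) (hM : M = 2 * K * B) (hr : r = M * w + w / 2)
    (hR : 8 * r ≤ R) (hG : ∀ v, r - w < nrm v → nrm v ≤ r + w → v ∈ G) (ω : Cfg) :
    κ (4 * (M.toNat + 3)) ^ 4 * κ 3 ^ 2 *
      cpr G (fun ω => L.Sout r R ω ∧
        ¬ L.BadW true (ann r (2 * r)) (r + 1) (4 * B * w) (K * B * w) (B * w) (12 * w) ω) ω ≤
      ∑ q ∈ Lat.cellsI M, cpr G (L.E1i r w M R q.1 q.2.1 q.2.2.1 q.2.2.2) ω := by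
  have hw0 : 0 < w := by omega
  have hM1 : 1 ≤ M := by
    rw [hM]
    nlinarith
  have hr0 : 0 ≤ r := by
    have h1 : 0 ≤ M * w := mul_nonneg (by omega) hw0.le
    omega
  exact resample_ex (L.Rev_stop false (Di r R ∅) (Si true R ∅)) (τ := ℤ × ℤ × ℤ × ℤ)
    (F := fun t => L.Fre true r (r + w) w M t.1 t.2.1 t.2.2.1 t.2.2.2)
    (P := fun t => CellI w (r + 1) t.2.1 ∧ CellI w (r + 1) t.2.2.2)
    (E' := fun q : ℤ × ℤ × ℤ × ℤ => L.E1i r w M R q.1 q.2.1 q.2.2.1 q.2.2.2)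
    (fun t _ => fre_pr h true hw hw5 hM1 hr0 rfl (by omega))
    (fun t ht => Lat.Fre.dep L true hr0 hw hw0 (is12_ann hw0 hG)
      (is12_sub hw hw0 hr (is12_cell hw0 hr ht.1) hG)
      (is12_sub hw hw0 hr (is12_cell hw0 hr ht.2) hG))
    (fun ω hω => by
      obtain ⟨s, k, s', k', hP, hη⟩ := Lat.step1_in hw hw5 hK hB hM hr hR hG hω.2 hω.1
      exact ⟨(s, k, s', k'), hP, hη⟩) ω

/-- SECOND STEP.  The same with `step2_in`. -/
theorem prob2_in (h : RSW L κ) {μ Mc w B r R s₁ k₁ s₃ k₃ ℓ : ℤ} {G : Finset Pt}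
    (hw : w % 2 = 1) (hw5 : 5 ≤ w) (hB : 48 ≤ B) (hμ : μ = 4 * B + 1) (hMc : 0 < Mc)
    (hr : r = (μ * Mc + μ / 2) * w + w / 2) (hR : 8 * r ≤ R)
    (hG : ∀ v, r - w < nrm v → nrm v ≤ r + w → v ∈ G) (ω : Cfg) :
    κ (4 * ((μ * Mc + μ / 2).toNat + 3)) ^ 4 * κ 3 ^ 2 *
      cpr G (fun ω => L.E1i r (μ * w) Mc R s₁ k₁ s₃ k₃ ω ∧
        ¬ L.BadW true ∅ (r + 1) 1 ℓ (B * w) (12 * w) ω) ω ≤
      ∑ q ∈ LamI μ Mc, cpr G (L.E2i w μ Mc R q.1 q.2.1 q.2.2.1 q.2.2.2) ω := by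
  have hw0 : 0 < w := by omega
  have hM1 : 1 ≤ μ * Mc + μ / 2 := by
    have h1 : 0 ≤ μ * Mc := mul_nonneg (by omega) hMc.le
    omega
  have hr0 : 0 ≤ r := by
    have h1 : 0 ≤ (μ * Mc + μ / 2) * w := mul_nonneg (by omega) hw0.le
    omega
  exact resample_ex (L.Rev_stop true (Di r R (Lat.B2 (μ * w) Mc s₁ k₁ s₃ k₃))
      (Si false R (Lat.B2 (μ * w) Mc s₁ k₁ s₃ k₃))) (τ := ℤ × ℤ × ℤ × ℤ)
    (F := fun t => L.Fre false r (r + w) w (μ * Mc + μ / 2) t.1 t.2.1 t.2.2.1 t.2.2.2)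
    (P := fun t => |t.2.1| + 1 < μ * Mc + μ / 2 ∧ |t.2.2.2| + 1 < μ * Mc + μ / 2)
    (E' := fun q : Bool × (Fin 4 → ℤ) × (Fin 4 → ℤ) × (Fin 4 → ℤ) =>
      L.E2i w μ Mc R q.1 q.2.1 q.2.2.1 q.2.2.2)
    (fun t _ => fre_pr h false hw hw5 hM1 hr0 rfl (by omega))
    (fun t ht => Lat.Fre.dep L false hr0 hw hw0 (is12_ann hw0 hG)
      (is12_sub hw hw0 hr (by have := ht.1; omega) hG)
      (is12_sub hw hw0 hr (by have := ht.2; omega) hG))
    (fun ω hω => by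
      obtain ⟨s, k, s', k', hP, hη⟩ := Lat.step2_in hw hw5 hB hμ hMc hr hR hG hω.2 hω.1
      exact ⟨(s, k, s', k'), hP, hη⟩) ω

/-- ONE STEP with the bad event: `E ⊆ A`, `A` does not depend on `G`, the bad event depends only on `G`.
(`cpr_split`, `cpr_mono`, `cpr_and_indep`, divide by `p`.) -/
theorem one_step {G : Finset Pt} {ι : Type} {I : Finset ι} {E A Bad : Cfg → Prop}
    {E' : ι → Cfg → Prop} {F : Set Pt} {p δ : ℝ} (hp : 0 < p) (hEA : ∀ ω, E ω → A ω)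
    (hA : Dep A F) (hF : ∀ v ∈ G, v ∉ F) (hB : Dep Bad (G : Set Pt)) (hδ : pr Bad ≤ δ)
    (ω : Cfg) (h : p * cpr G (fun ω => E ω ∧ ¬ Bad ω) ω ≤ ∑ i ∈ I, cpr G (E' i) ω) :
    cpr G E ω ≤ δ * ind A ω + p⁻¹ * ∑ i ∈ I, cpr G (E' i) ω := by
  have h1 := cpr_split G E Bad ω
  have h2 : cpr G (fun ω => E ω ∧ Bad ω) ω ≤ cpr G (fun ω => A ω ∧ Bad ω) ω :=
    cpr_mono fun ω' _ h3 => ⟨hEA ω' h3.1, h3.2⟩
  rw [cpr_and_indep hA hF hB ω] at h2
  have h3 : 0 ≤ ind A ω := by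
    unfold ind
    split_ifs <;> norm_num
  have h4 : ind A ω * pr Bad ≤ δ * ind A ω := by
    rw [mul_comm δ]
    exact mul_le_mul_of_nonneg_left hδ h3
  have h5 : cpr G (fun ω => E ω ∧ ¬ Bad ω) ω ≤ p⁻¹ * ∑ i ∈ I, cpr G (E' i) ω := by
    rw [inv_mul_eq_div, le_div_iff₀ hp, mul_comm]
    exact h
  linarith

end SC

end

/-! ### from `Lib_MP_e0a489.IS9` -/

section

/-!
# MP_e0a489, module IS: separation of arms inward (interface and final derivation)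
-/

set_option autoImplicit false

namespace SC

open Classical

private theorem is9_ann_finite (r R : ℤ) : (ann r R).Finite := by
  refine (Set.finite_Icc ((-R, -R) : Pt) (R, R)).subset ?_
  rintro v ⟨-, hv⟩
  have h1 : |v.1| ≤ R := le_trans (le_max_left _ _) hv
  have h2 : |v.2| ≤ R := le_trans (le_max_right _ _) hv
  rw [abs_le] at h1 h2
  exact ⟨⟨h1.1, h2.1⟩, ⟨h1.2, h2.2⟩⟩

/-- INNER SEPARATION.  For every `ε` there are `μ`, `Mc` and a finite set of admissible landing positions such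
that, for every odd `w ≥ w₀` and `r = (μ Mc + μ/2) w + w/2`, `8 r ≤ R`, conditionally on the
configuration off `G = {r - μ w < nrm v ≤ 2 r}`. -/
theorem inner_land_pf (κ : ℕ → ℝ) (ε : ℝ) (hε : 0 < ε) : ∃ (μ Mc w₀ : ℤ) (C : ℝ)
    (Λ : Finset (Bool × (Fin 4 → ℤ) × (Fin 4 → ℤ) × (Fin 4 → ℤ))), μ % 2 = 1 ∧ 0 < μ ∧ 0 < Mc ∧
    0 < w₀ ∧ 0 < C ∧
    (∀ q ∈ Λ, Land μ (μ * Mc + μ / 2) q.1 q.2.1 q.2.2.1 ∧ Dirs q.1 q.2.2.2) ∧
    ∀ L : Lat, RSW L κ → ∀ w R : ℤ, w % 2 = 1 → w₀ ≤ w →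
      8 * ((μ * Mc + μ / 2) * w + w / 2) ≤ R → ∀ G : Finset Pt,
      (∀ v, v ∈ G ↔ (μ * Mc + μ / 2) * w + w / 2 - μ * w < nrm v ∧
        nrm v ≤ 2 * ((μ * Mc + μ / 2) * w + w / 2)) → ∀ ω : Cfg,
      cpr G (L.Sout ((μ * Mc + μ / 2) * w + w / 2) R) ω ≤
        ε * ind (L.Sout (2 * ((μ * Mc + μ / 2) * w + w / 2)) R) ω +
          C * ∑ q ∈ Λ, cpr G (L.E2i w μ Mc R q.1 q.2.1 q.2.2.1 q.2.2.2) ω := by
  by_cases hκ : ∀ k, 0 < κ k
  swap
  · refine ⟨1, 1, 1, 1, ∅, by norm_num, by norm_num, by norm_num, by norm_num, by norm_num,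
      by simp, ?_⟩
    intro L hL
    exact absurd hL.pos hκ
  obtain ⟨K, B₁, hK, hB₁, hbad1⟩ := bad_small1 κ (ε / 2) (by positivity)
  obtain ⟨Mc, hMcdef⟩ : ∃ Mc : ℤ, Mc = 2 * K * B₁ := ⟨_, rfl⟩
  have hMc1 : 384 ≤ Mc := by nlinarith
  obtain ⟨p₁, hp₁def⟩ : ∃ p : ℝ, p = κ (4 * (Mc.toNat + 3)) ^ 4 * κ 3 ^ 2 := ⟨_, rfl⟩
  have hp₁ : 0 < p₁ := by
    rw [hp₁def]
    exact mul_pos (pow_pos (hκ _) _) (pow_pos (hκ _) _)
  obtain ⟨N₁, hN₁⟩ : ∃ n : ℝ, n = ((Lat.cellsI Mc).card : ℝ) := ⟨_, rfl⟩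
  have hN₁0 : 0 ≤ N₁ := by rw [hN₁]; positivity
  have hδ : 0 < ε / 2 * p₁ / (N₁ + 1) := by positivity
  obtain ⟨ℓ, B₂, hℓ, hB₂, hbad2⟩ := bad_small2 κ _ hδ Mc (by linarith)
  obtain ⟨μ, hμ⟩ : ∃ μ : ℤ, μ = 4 * B₂ + 1 := ⟨_, rfl⟩
  obtain ⟨p₂, hp₂def⟩ : ∃ p : ℝ, p = κ (4 * ((μ * Mc + μ / 2).toNat + 3)) ^ 4 * κ 3 ^ 2 :=
    ⟨_, rfl⟩
  have hp₂ : 0 < p₂ := by
    rw [hp₂def]
    exact mul_pos (pow_pos (hκ _) _) (pow_pos (hκ _) _)
  refine ⟨μ, Mc, 5, p₁⁻¹ * (N₁ + 1) * p₂⁻¹, LamI μ Mc, by omega, by omega, by omega, by norm_num,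
    by positivity, fun q hq => (mem_LamI (by omega) q).1 hq, ?_⟩
  intro L hL w R hw hw5 hR G hG ω
  obtain ⟨r, hr⟩ : ∃ r, r = (μ * Mc + μ / 2) * w + w / 2 := ⟨_, rfl⟩
  rw [← hr] at hR hG ⊢
  have hμodd : μ % 2 = 1 := by omega
  have hμ1 : 193 ≤ μ := by omega
  -- the coarse scale
  obtain ⟨W, hW⟩ : ∃ W, W = μ * w := ⟨_, rfl⟩
  have hWodd : W % 2 = 1 := by
    rw [hW, Int.mul_emod, hμodd, hw]; norm_num
  have hW2 : W / 2 = (μ / 2) * w + w / 2 := by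
    have h1 : μ = 2 * (μ / 2) + 1 := by omega
    have h2 : w = 2 * (w / 2) + 1 := by omega
    have h3 : W = 2 * ((μ / 2) * w + w / 2) + 1 := by
      rw [hW]
      calc μ * w = (2 * (μ / 2) + 1) * w := by rw [← h1]
        _ = 2 * ((μ / 2) * w) + w := by ring
        _ = 2 * ((μ / 2) * w) + (2 * (w / 2) + 1) := by rw [← h2]
        _ = 2 * ((μ / 2) * w + w / 2) + 1 := by ring
    omega
  have hrW : r = Mc * W + W / 2 := by
    rw [hW2, hr, hW]; ring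
  have hWw : 193 * w ≤ W := by rw [hW]; nlinarith
  have hW5 : 5 ≤ W := by linarith
  have hMW : 384 * W ≤ Mc * W := by nlinarith
  have hr1 : 384 * W ≤ r := by rw [hrW]; omega
  rw [← hW] at hG
  have hGW : ∀ v, r - W < nrm v → nrm v ≤ r + W → v ∈ G := by
    intro v h1 h2
    exact (hG v).2 ⟨h1, by linarith⟩
  have hGw : ∀ v, r - w < nrm v → nrm v ≤ r + w → v ∈ G := by
    intro v h1 h2
    exact (hG v).2 ⟨by linarith, by linarith⟩
  have hAdep : Dep (L.Sout (2 * r) R) {v | 2 * r < nrm v} :=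
    Lat.Sout.dep_ring L (by linarith) (by linarith)
  have hF : ∀ v ∈ G, v ∉ {v : Pt | 2 * r < nrm v} := by
    intro v hv h
    have h1 := ((hG v).1 hv).2
    have h2 : 2 * r < nrm v := h
    linarith
  have hB₁W : 2 * (B₁ * W) + r + 1 ≤ 2 * r := by
    have h1 : 2 * B₁ ≤ Mc - 1 := by nlinarith
    have h2 : 2 * B₁ * W ≤ (Mc - 1) * W := mul_le_mul_of_nonneg_right h1 (by linarith)
    have h3 : (Mc - 1) * W = Mc * W - W := by ring
    have h4 : 0 ≤ W / 2 := by omega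
    rw [hrW]
    linarith
  have hB₂w : 2 * (B₂ * w) + r + 1 ≤ 2 * r := by
    have h1 : B₂ * w * 4 ≤ W := by rw [hW, hμ]; nlinarith
    linarith
  -- first step
  have s1 := one_step (G := G) (I := Lat.cellsI Mc) (E := L.Sout r R) (A := L.Sout (2 * r) R)
    (Bad := L.BadW true (ann r (2 * r)) (r + 1) (4 * B₁ * W) (K * B₁ * W) (B₁ * W) (12 * W))
    (E' := fun q => L.E1i r W Mc R q.1 q.2.1 q.2.2.1 q.2.2.2) (δ := ε / 2) hp₁
    (fun ω h => Lat.Sout_mono (by linarith) (by linarith) (by linarith) h) hAdep hF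
    (Lat.BadW.dep L (by nlinarith)
      (fun v hv => (hG v).2 ⟨by have := hv.1; linarith, hv.2⟩)
      (fun _ v h1 h2 => (hG v).2 ⟨by linarith, by linarith⟩)
      (fun h => absurd h (by decide)))
    (hbad1 L hL true (ann r (2 * r)) (r + 1) W (is9_ann_finite _ _) (by linarith)
      (by linarith) (by
        have h1 : (2 * K * B₁ + 1) * W = Mc * W + W := by rw [hMcdef]; ring
        have h2 : W / 2 + 1 ≤ W := by omega
        rw [h1, hrW]
        linarith)) ω (by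
      rw [hp₁def]
      exact prob1_in hL hWodd hW5 hK hB₁ hMcdef hrW hR hGW ω)
  -- second step
  have s2 : ∀ q ∈ Lat.cellsI Mc,
      cpr G (L.E1i r W Mc R q.1 q.2.1 q.2.2.1 q.2.2.2) ω ≤
        ε / 2 * p₁ / (N₁ + 1) * ind (L.Sout (2 * r) R) ω +
          p₂⁻¹ * ∑ q ∈ LamI μ Mc, cpr G (L.E2i w μ Mc R q.1 q.2.1 q.2.2.1 q.2.2.2) ω := by
    intro q _
    refine one_step (G := G) (I := LamI μ Mc) (E := L.E1i r W Mc R q.1 q.2.1 q.2.2.1 q.2.2.2)
      (A := L.Sout (2 * r) R) (Bad := L.BadW true ∅ (r + 1) 1 ℓ (B₂ * w) (12 * w))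
      (E' := fun q => L.E2i w μ Mc R q.1 q.2.1 q.2.2.1 q.2.2.2)
      (δ := ε / 2 * p₁ / (N₁ + 1)) hp₂
      (fun ω h => Lat.E1i_Sout hWodd hW5 hrW (by linarith) hR h) hAdep hF
      (Lat.BadW.dep L (by nlinarith) (Set.empty_subset _)
        (fun _ v h1 h2 => (hG v).2 ⟨by linarith, by linarith⟩)
        (fun h => absurd h (by decide)))
      (hbad2 L hL true (r + 1) w (by linarith) (by linarith) ?_) ω ?_
    · have h1 : (Mc + 1) * (4 * B₂ + 1) * w = Mc * W + W := by rw [hW, hμ]; ring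
      have h2 : W / 2 + 1 ≤ W := by omega
      rw [h1, hrW]
      linarith
    · rw [hp₂def, hW]
      exact prob2_in hL hw hw5 hB₂ hμ (by linarith) hr hR hGw ω
  have hs : ∑ q ∈ Lat.cellsI Mc, cpr G (L.E1i r W Mc R q.1 q.2.1 q.2.2.1 q.2.2.2) ω ≤
      N₁ * (ε / 2 * p₁ / (N₁ + 1) * ind (L.Sout (2 * r) R) ω +
          p₂⁻¹ * ∑ q ∈ LamI μ Mc, cpr G (L.E2i w μ Mc R q.1 q.2.1 q.2.2.1 q.2.2.2) ω) := by
    refine le_trans (Finset.sum_le_sum s2) ?_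
    rw [Finset.sum_const, nsmul_eq_mul, hN₁]
  obtain ⟨a, ha⟩ : ∃ a, a = ind (L.Sout (2 * r) R) ω := ⟨_, rfl⟩
  obtain ⟨T, hT⟩ : ∃ a, a = ∑ q ∈ LamI μ Mc,
    cpr G (L.E2i w μ Mc R q.1 q.2.1 q.2.2.1 q.2.2.2) ω := ⟨_, rfl⟩
  have ha0 : 0 ≤ a := by rw [ha]; unfold ind; split <;> norm_num
  have hT0 : 0 ≤ T := by
    rw [hT]
    exact Finset.sum_nonneg (fun q _ => cpr_nonneg _ _ _)
  rw [← ha, ← hT] at hs ⊢
  rw [← ha] at s1
  have hp1i : 0 < p₁⁻¹ := inv_pos.2 hp₁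
  have hp2i : 0 < p₂⁻¹ := inv_pos.2 hp₂
  have h5 : p₁⁻¹ * (N₁ * (ε / 2 * p₁ / (N₁ + 1) * a + p₂⁻¹ * T)) ≤
      ε / 2 * a + p₁⁻¹ * (N₁ + 1) * p₂⁻¹ * T := by
    have e1 : p₁⁻¹ * (N₁ * (ε / 2 * p₁ / (N₁ + 1) * a + p₂⁻¹ * T)) =
        (N₁ / (N₁ + 1)) * (ε / 2 * a) + p₁⁻¹ * N₁ * p₂⁻¹ * T := by
      field_simp
    rw [e1]
    have e2 : N₁ / (N₁ + 1) ≤ 1 := by
      rw [div_le_one (by positivity)]; linarith
    have e3 : (N₁ / (N₁ + 1)) * (ε / 2 * a) ≤ 1 * (ε / 2 * a) :=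
      mul_le_mul_of_nonneg_right e2 (by positivity)
    have e4 : p₁⁻¹ * N₁ * p₂⁻¹ * T ≤ p₁⁻¹ * (N₁ + 1) * p₂⁻¹ * T := by
      have : 0 ≤ p₁⁻¹ * p₂⁻¹ * T := by positivity
      nlinarith
    linarith
  calc cpr G (L.Sout r R) ω ≤ ε / 2 * a + p₁⁻¹ *
        ∑ q ∈ Lat.cellsI Mc, cpr G (L.E1i r W Mc R q.1 q.2.1 q.2.2.1 q.2.2.2) ω := s1
    _ ≤ ε / 2 * a + (ε / 2 * a + p₁⁻¹ * (N₁ + 1) * p₂⁻¹ * T) := by
        have := mul_le_mul_of_nonneg_left hs hp1i.le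
        linarith
    _ = ε * a + p₁⁻¹ * (N₁ + 1) * p₂⁻¹ * T := by ring

end SC

end

/-! ### from `Lib_MP_e0a489.RO19` -/

section

/-!
# MP_e0a489, RO 19: gluing of an arm and its path, outward
-/

set_option autoImplicit false

namespace SC

open Classical

/-- Let `R = M w + w/2`, `M = μ Mc + μ / 2`.  `lbo_eq` and `lw_eq`: the landing block is `rt s '' rect (R + 1) (R + ℓ) p q`, `ℓ = (2h+1) w`,
`p = (f - h) w - w/2`, `q = (f + h) w + w/2`, `-R < p`, `q < R` (`Land.cor`).  `ro_arm_out` gives `K` and a radial crossing set `Q ⊆ K` of the block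
(`r < R` because `2 r ≤ R`, `1 ≤ r`), `PathE.glue` (with `outP_ok`) gives `T` and a parallel crossing set of the same
rectangle (`a1 = R + 1`, `b1 = R + ℓ`); they meet (`Rad.meet`), so `K ∪ T` is connected (`Con.union`).  `K ∪ T ⊆ ann r R' ∪ Jc c R'`: `K ⊆ ann r R ∪` block, `T ⊆ reg`,
the block is part of `reg`, `out_reg`, `J_tgt`.  It contains a site of `nb (bx r)` and the site `rt d (2 R', y)` of `T`, `|y| ≤ w/2`
(`PathE.glue`), which is in `Je d R'` (`out_end`; `11 w ≤ R'` because `M ≥ 20`, `Land.cor`). -/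
theorem glue_out {L : Lat} {w μ Mc r R' : ℤ} (hw : w % 2 = 1) (hw5 : 5 ≤ w) (hμ : μ % 2 = 1)
    (hμ0 : 0 < μ) {c₀ : Bool} {s k : Fin 4 → ℤ} (hl : Land μ (μ * Mc + μ / 2) c₀ s k)
    (hr : 1 ≤ r) (hrR : 2 * r ≤ (μ * Mc + μ / 2) * w + w / 2)
    (h1 : (μ * Mc + μ / 2) * w + w / 2 + (μ + 10) * w ≤ R')
    (h2 : R' ≤ 4 * ((μ * Mc + μ / 2) * w + w / 2)) (i : Fin 4) {ω : Cfg}
    (hF : L.Arm (colr c₀ i)
      (ann r ((μ * Mc + μ / 2) * w + w / 2) ∪ lbo w μ Mc (colr c₀ i) (s i) (k i)) (L.nb (bx r))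
      (lbo w μ Mc (colr c₀ i) (s i) (k i) ∩
        rng ((μ * Mc + μ / 2) * w + w / 2 + lw w μ (colr c₀ i))) ω)
    (hV : L.PathE (colr c₀ i) w (outP w μ (μ * Mc + μ / 2) R' c₀ s k i) ω) :
    L.Arm (colr c₀ i) (ann r R' ∪ Jc (colr c₀ i) R') (L.nb (bx r)) (Je (tgt c₀ i) R') ω := by
  rw [lbo_eq hw (by omega) hμ hμ0, lw_eq w hμ] at hF
  obtain ⟨M, hM⟩ : ∃ M, M = μ * Mc + μ / 2 := ⟨_, rfl⟩
  rw [← hM] at hl hrR h1 h2 hF hV
  obtain ⟨h, hh⟩ : ∃ h, h = hwd μ c₀ i := ⟨_, rfl⟩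
  obtain ⟨f, hf⟩ : ∃ f, f = fpos μ c₀ k i := ⟨_, rfl⟩
  rw [← hh, ← hf] at hF
  have hb := hwd_bd hμ hμ0 c₀ i
  rw [← hh] at hb
  have hcor := hl.cor i
  rw [← hf] at hcor
  have hw2 : w = 2 * (w / 2) + 1 := by omega
  have hw0 : 0 < w := by omega
  have ea : (M + 1) * w - w / 2 = M * w + w / 2 + 1 := by
    have e1 : (M + 1) * w = M * w + w := by ring
    omega
  have eb : (M + 2 * h + 1) * w + w / 2 = M * w + w / 2 + (2 * h + 1) * w := by ring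
  have hlw : 1 ≤ (2 * h + 1) * w := by
    have e2 : 1 * w ≤ (2 * h + 1) * w := mul_le_mul_of_nonneg_right (by omega) hw0.le
    omega
  have hp : -(M * w + w / 2) < (f - h) * w - w / 2 := by
    have e3 : (1 - M) * w ≤ (f - h) * w := by
      refine mul_le_mul_of_nonneg_right ?_ hw0.le
      have := neg_abs_le f
      omega
    have e4 : (1 - M) * w = w - M * w := by ring
    omega
  have hq : (f + h) * w + w / 2 < M * w + w / 2 := by
    have e3 : (f + h) * w ≤ (M - 1) * w := by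
      refine mul_le_mul_of_nonneg_right ?_ hw0.le
      have := le_abs_self f
      omega
    have e4 : (M - 1) * w = M * w - w := by ring
    omega
  have hblk : rt (s i) '' rect ((M + 1) * w - w / 2) ((M + 2 * h + 1) * w + w / 2)
      ((f - h) * w - w / 2) ((f + h) * w + w / 2) ⊆
      (outP w μ M R' c₀ s k i).reg w := by
    intro v hv
    rw [hh, hf] at hv
    exact Or.inl (Or.inl (Or.inl hv))
  have hreg : ∀ v ∈ (outP w μ M R' c₀ s k i).reg w, v ∈ ann r R' ∪ Jc (colr c₀ i) R' := by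
    intro v hv
    obtain ⟨g1, g2, g3⟩ := out_reg hw hw5 hμ hμ0 hl h1 i hv
    rcases g3 with g3 | g3
    · exact Or.inl ⟨by omega, g3⟩
    · exact Or.inr (J_tgt c₀ i R' g3)
  have hmw : 0 ≤ (μ + 10) * w := mul_nonneg (by omega) hw0.le
  rw [ea, eb] at hF
  obtain ⟨K, hK1, hK2, ⟨x, hxK, hx⟩, Q, hQK, hQ⟩ := Lat.ro_arm_out (by omega) hlw hp hq (by omega) hF
  obtain ⟨T, hT1, hT2, hT3, ⟨Q', hQT, hQ'⟩, -, ⟨y, -, hy⟩⟩ := Lat.PathE.glue hw0
    (outP_ok hw hw5 hμ hμ0 hl h1 h2 i) hV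
  have hQ'' : L.Par (s i) ((M + 1) * w - w / 2) ((M + 2 * h + 1) * w + w / 2)
      ((f - h) * w - w / 2) ((f + h) * w + w / 2) Q' := by
    rw [hh, hf]
    exact hQ'
  rw [← ea, ← eb] at hQ
  have hpq : (f - h) * w - w / 2 ≤ (f + h) * w + w / 2 := by
    have e3 : (f - h) * w ≤ (f + h) * w := mul_le_mul_of_nonneg_right (by omega) hw0.le
    omega
  have hmeet : (K ∩ T).Nonempty := by
    obtain ⟨z, z1, z2⟩ := Lat.Rad.meet hQ hQ'' le_rfl le_rfl le_rfl le_rfl (by omega) hpq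
    exact ⟨z, hQK z1, hQT z2⟩
  have hcon : L.Con (K ∪ T) := Lat.Con.union hK1 hT1 hmeet
  have hsub : K ∪ T ⊆ (ann r R' ∪ Jc (colr c₀ i) R') ∩ L.col (colr c₀ i) ω := by
    rintro v (hv | hv)
    · obtain ⟨g1, g2⟩ := hK2 hv
      refine ⟨?_, g2⟩
      rcases g1 with g1 | g1
      · exact Or.inl ⟨g1.1, by have := g1.2; omega⟩
      · rw [← ea, ← eb] at g1
        exact hreg v (hblk g1)
    · exact ⟨hreg v (hT3 hv), hT2 hv⟩
  have hyT : rt (tgt c₀ i) (2 * R', y) ∈ T := hy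
  have hyJ : rt (tgt c₀ i) (2 * R', y) ∈ Je (tgt c₀ i) R' := by
    obtain ⟨g1, g2, g3⟩ := out_reg hw hw5 hμ hμ0 hl h1 i (hT3 hyT)
    have g4 : 2 * R' ≤ nrm (rt (tgt c₀ i) (2 * R', y)) := by
      rw [nrm_rt]
      exact (le_abs_self (2 * R')).trans (le_max_left _ _)
    rcases g3 with g3 | ⟨z, hz, hz'⟩
    · omega
    · have hz2 : z = (2 * R', y) := (rt (tgt c₀ i)).injective hz'
      rw [hz2] at hz
      exact ⟨(2 * R', y), ⟨⟨le_rfl, le_rfl⟩, hz.2⟩, rfl⟩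
  exact ⟨x, hx, _, hyJ, (hcon x (Or.inl hxK) _ (Or.inr hyT)).mono hsub⟩

end SC

end

/-! ### from `Lib_MP_e0a489.RO7` -/

section

/-!
# MP_e0a489, RO 7: the probabilistic engine
-/

set_option autoImplicit false

namespace SC

open Classical

private theorem ro7_ind_mono {A : Cfg → Prop} {ω ω' : Cfg} (h : A ω → A ω') :
    ind A ω ≤ ind A ω' := by
  unfold ind
  by_cases h3 : A ω
  · rw [if_pos h3, if_pos (h h3)]
  · rw [if_neg h3]
    split_ifs <;> norm_num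

private theorem ro7_le {T : Set Pt} {ω ω' : Cfg} (h1 : ∀ v ∈ T, ω v ≤ ω' v)
    (h2 : ∀ v, v ∉ T → ω v = ω' v) (v : Pt) : ω v ≤ ω' v := by
  by_cases hv : v ∈ T
  · exact h1 v hv
  · exact le_of_eq (h2 v hv)

private theorem ro7_pow {A : Fin 4 → Cfg → Prop} {q : ℝ} (hq0 : 0 ≤ q) (c : Bool)
    (I : Finset (Fin 4)) (lA : ∀ i ∈ I, Loc (A i)) (hA : ∀ i ∈ I, MonC c (A i))
    (hq : ∀ i, q ≤ pr (A i)) : q ^ 4 ≤ pr (fun ω => ∀ i ∈ I, A i ω) := by
  refine le_trans ?_ (pr_harris_mon c lA hA)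
  have hq1 : q ≤ 1 := (hq 0).trans (pr_le_one _)
  have h1 : q ^ 4 ≤ q ^ I.card := by
    refine pow_le_pow_of_le_one hq0 hq1 ?_
    calc I.card ≤ (Finset.univ : Finset (Fin 4)).card := Finset.card_le_univ I
      _ = 4 := by simp
  refine h1.trans ?_
  rw [← Finset.prod_const]
  exact Finset.prod_le_prod (fun i _ => hq0) fun i _ => hq i

/-- ENGINE.  `E` is the conjunction of the four arm events `F i` (colour `colr c₀ i`, sites `S i`), `V i` is the path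
event of the arm `i` (same colour, sites `D i ⊆ G`), the sites of a path are disjoint from the sites of the arms and of the paths
of the other colour.  `territory` with `T = G.filter (fun v => ∃ i, colr c₀ i = true ∧ v ∈ D i)`,
`U = G.filter (fun v => ∃ i, colr c₀ i = false ∧ v ∈ D i)` (disjoint by `hDD`),
`A = fun ω => ∀ i, colr c₀ i = true → V i ω`, `B = fun ω => ∀ i, colr c₀ i = false → V i ω`.  `E` is increasing in `T`: if `ω ≤ ω'`
on `T` and `ω = ω'` off `T`, then `ω ≤ ω'`, so the open arms (`Inc`) survive, and the sites `S i` of the closed arms do not meet `T`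
(`hSD`), so the closed arm events are the same (`Dep`).  Symmetric for `U`.  `A` is `Inc`, depends on `T` (`D i ⊆ G`); `pr A ≥ q^4`:
`pr_harris_mon true` for the index set `{i | colr c₀ i = true}` of at most four elements, `0 ≤ q ≤ 1` (`pr_le_one`).
Same for `B`.  Finally `cpr_mono`: `E ∧ A ∧ B` implies `Z`, and `cpr G E ω * (q^4 * q^4) ≤ cpr G E ω * (pr A * pr B)` (`cpr_nonneg`). -/
theorem ro_engine {c₀ : Bool} {G : Finset Pt} {F V : Fin 4 → Cfg → Prop} {S D : Fin 4 → Set Pt}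
    {E Z : Cfg → Prop} {q : ℝ} (hq0 : 0 ≤ q) (hE : ∀ ω, E ω ↔ ∀ i, F i ω)
    (hF : ∀ i, MonC (colr c₀ i) (F i)) (hFS : ∀ i, Dep (F i) (S i))
    (hV : ∀ i, MonC (colr c₀ i) (V i)) (hVD : ∀ i, Dep (V i) (D i))
    (hDG : ∀ i, ∀ v ∈ D i, v ∈ G) (hq : ∀ i, q ≤ pr (V i))
    (hSD : ∀ i j, colr c₀ i ≠ colr c₀ j → Disjoint (S i) (D j))
    (hDD : ∀ i j, colr c₀ i ≠ colr c₀ j → Disjoint (D i) (D j))
    (hZ : ∀ ω, (∀ i, F i ω) → (∀ i, V i ω) → Z ω) (ω : Cfg) :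
    q ^ 8 * cpr G E ω ≤ cpr G Z ω := by
  have hFi : ∀ i, colr c₀ i = true → Inc (F i) := by
    intro i hi
    have h := hF i
    unfold MonC at h
    rwa [if_pos hi] at h
  have hFd : ∀ i, colr c₀ i = false → Dec (F i) := by
    intro i hi
    have h := hF i
    unfold MonC at h
    rwa [if_neg (by rw [hi]; decide)] at h
  have hVi : ∀ i, colr c₀ i = true → Inc (V i) := by
    intro i hi
    have h := hV i
    unfold MonC at h
    rwa [if_pos hi] at h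
  have hVd : ∀ i, colr c₀ i = false → Dec (V i) := by
    intro i hi
    have h := hV i
    unfold MonC at h
    rwa [if_neg (by rw [hi]; decide)] at h
  have hne : ∀ i j, colr c₀ i = true → colr c₀ j = false → colr c₀ i ≠ colr c₀ j := by
    intro i j hi hj h
    rw [hi, hj] at h
    exact absurd h (by decide)
  have hne' : ∀ i j, colr c₀ i = false → colr c₀ j = true → colr c₀ i ≠ colr c₀ j := by
    intro i j hi hj h
    rw [hi, hj] at h
    exact absurd h (by decide)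
  have lV : ∀ i, Loc (V i) := fun i => ⟨G, (hVD i).mono fun v hv => hDG i v hv⟩
  set T : Finset Pt := G.filter (fun v => ∃ i, colr c₀ i = true ∧ v ∈ D i) with hTdef
  set U : Finset Pt := G.filter (fun v => ∃ i, colr c₀ i = false ∧ v ∈ D i) with hUdef
  have hT : T ⊆ G := Finset.filter_subset _ _
  have hU : U ⊆ G := Finset.filter_subset _ _
  have hmT : ∀ v, v ∈ (T : Set Pt) ↔ v ∈ G ∧ ∃ i, colr c₀ i = true ∧ v ∈ D i := by
    intro v
    rw [Finset.mem_coe, hTdef, Finset.mem_filter]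
  have hmU : ∀ v, v ∈ (U : Set Pt) ↔ v ∈ G ∧ ∃ i, colr c₀ i = false ∧ v ∈ D i := by
    intro v
    rw [Finset.mem_coe, hUdef, Finset.mem_filter]
  have hTU : Disjoint T U := by
    rw [Finset.disjoint_left]
    intro v hv hv'
    obtain ⟨_, i, hi, hvi⟩ := (hmT v).1 (Finset.mem_coe.2 hv)
    obtain ⟨_, j, hj, hvj⟩ := (hmU v).1 (Finset.mem_coe.2 hv')
    exact Set.disjoint_left.1 (hDD i j (hne i j hi hj)) hvi hvj
  have hET : IncOn (ind E) (T : Set Pt) := by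
    intro ω ω' h1 h2
    refine ro7_ind_mono fun h => ?_
    rw [hE] at h ⊢
    intro i
    cases hc : colr c₀ i with
    | true => exact hFi i hc ω ω' (ro7_le h1 h2) (h i)
    | false =>
      have h3 : F i ω = F i ω' := by
        refine hFS i ω ω' fun v hv => h2 v fun hvT => ?_
        obtain ⟨_, j, hj, hvj⟩ := (hmT v).1 hvT
        exact Set.disjoint_left.1 (hSD i j (hne' i j hc hj)) hv hvj
      rw [← h3]
      exact h i
  have hEU : DecOn (ind E) (U : Set Pt) := by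
    intro ω ω' h1 h2
    refine ro7_ind_mono fun h => ?_
    rw [hE] at h ⊢
    intro i
    cases hc : colr c₀ i with
    | false => exact hFd i hc ω ω' (ro7_le h1 h2) (h i)
    | true =>
      have h3 : F i ω = F i ω' := by
        refine hFS i ω ω' fun v hv => h2 v fun hvT => ?_
        obtain ⟨_, j, hj, hvj⟩ := (hmU v).1 hvT
        exact Set.disjoint_left.1 (hSD i j (hne i j hc hj)) hv hvj
      rw [h3]
      exact h i
  set I : Finset (Fin 4) := Finset.univ.filter (fun i => colr c₀ i = true) with hI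
  set J : Finset (Fin 4) := Finset.univ.filter (fun i => colr c₀ i = false) with hJ
  have hmI : ∀ i, i ∈ I ↔ colr c₀ i = true := by
    intro i
    rw [hI, Finset.mem_filter]
    simp
  have hmJ : ∀ i, i ∈ J ↔ colr c₀ i = false := by
    intro i
    rw [hJ, Finset.mem_filter]
    simp
  have hA4 : q ^ 4 ≤ pr (fun ω => ∀ i ∈ I, V i ω) := by
    refine ro7_pow hq0 true I (fun i _ => lV i) (fun i hi => ?_) hq
    have h := hV i
    rwa [(hmI i).1 hi] at h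
  have hB4 : q ^ 4 ≤ pr (fun ω => ∀ i ∈ J, V i ω) := by
    refine ro7_pow hq0 false J (fun i _ => lV i) (fun i hi => ?_) hq
    have h := hV i
    rwa [(hmJ i).1 hi] at h
  have hAinc : Inc (fun ω => ∀ i ∈ I, V i ω) := by
    intro ω ω' h h3 i hi
    exact hVi i ((hmI i).1 hi) ω ω' h (h3 i hi)
  have hBdec : Dec (fun ω => ∀ i ∈ J, V i ω) := by
    intro ω ω' h h3 i hi
    exact hVd i ((hmJ i).1 hi) ω ω' h (h3 i hi)
  have hAT : Dep (fun ω => ∀ i ∈ I, V i ω) (T : Set Pt) := by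
    intro ω ω' h
    refine propext (forall_congr' fun i => forall_congr' fun hi => ?_)
    have h3 : V i ω = V i ω' := by
      refine hVD i ω ω' fun v hv => h v ?_
      exact (hmT v).2 ⟨hDG i v hv, i, (hmI i).1 hi, hv⟩
    rw [h3]
  have hBU : Dep (fun ω => ∀ i ∈ J, V i ω) (U : Set Pt) := by
    intro ω ω' h
    refine propext (forall_congr' fun i => forall_congr' fun hi => ?_)
    have h3 : V i ω = V i ω' := by
      refine hVD i ω ω' fun v hv => h v ?_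
      exact (hmU v).2 ⟨hDG i v hv, i, (hmJ i).1 hi, hv⟩
    rw [h3]
  have hmain := territory hT hU hTU hET hEU hAinc hAT hBdec hBU ω
  have h8 : q ^ 8 * cpr G E ω ≤
      cpr G E ω * (pr (fun ω => ∀ i ∈ I, V i ω) * pr (fun ω => ∀ i ∈ J, V i ω)) := by
    have h5 : q ^ 8 ≤ pr (fun ω => ∀ i ∈ I, V i ω) * pr (fun ω => ∀ i ∈ J, V i ω) := by
      calc q ^ 8 = q ^ 4 * q ^ 4 := by ring
        _ ≤ _ := mul_le_mul hA4 hB4 (by positivity) (pr_nonneg _)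
    rw [mul_comm]
    exact mul_le_mul_of_nonneg_left h5 (cpr_nonneg _ _ _)
  refine h8.trans (hmain.trans (cpr_mono ?_))
  intro ω' _ h
  obtain ⟨h1, h2, h3⟩ := h
  refine hZ ω' ((hE ω').1 h1) fun i => ?_
  cases hc : colr c₀ i with
  | true => exact h2 i ((hmI i).2 hc)
  | false => exact h3 i ((hmJ i).2 hc)

end SC

end

/-! ### from `Lib_MP_e0a489.TTB3` -/

section

/-!
# MP_e0a489, module TT (9e), the bootstrap in the bulk
-/

set_option autoImplicit false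

namespace SC

variable [IfL] [IfX]

namespace TT

open Classical

variable {L : Lat} {C c : ℝ} {R₀ : ℤ}

/-- Choice of `Λ`: `A Λ ^ (-c₁) ≤ 1`. -/
theorem exists_lam {A c₁ : ℝ} (hc : 0 < c₁) : ∃ Λ : ℤ, 1 ≤ Λ ∧ ∀ ℓ r : ℤ, 1 ≤ ℓ → Λ * ℓ ≤ r →
    A * ((ℓ : ℝ) / r) ^ c₁ ≤ 1 := by
  set B : ℝ := max A 1 with hBdef
  have hB : 1 ≤ B := le_max_right _ _
  have hAB : A ≤ B := le_max_left _ _
  set x : ℝ := B ^ c₁⁻¹ with hx
  have hx1 : 1 ≤ x := Real.one_le_rpow hB (inv_nonneg.2 hc.le)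
  have hxc : x ^ c₁ = B := Real.rpow_inv_rpow (by linarith) hc.ne'
  have h1 : x ≤ (⌈x⌉ : ℝ) := Int.le_ceil x
  refine ⟨⌈x⌉, ?_, ?_⟩
  · have : (1 : ℝ) ≤ (⌈x⌉ : ℝ) := hx1.trans h1
    exact_mod_cast this
  · intro ℓ r hℓ hr
    have hℓ' : (0 : ℝ) < (ℓ : ℝ) := by exact_mod_cast (by omega : (0 : ℤ) < ℓ)
    have hr1 : (⌈x⌉ : ℝ) * (ℓ : ℝ) ≤ (r : ℝ) := by exact_mod_cast hr
    have hr2 : x * (ℓ : ℝ) ≤ (r : ℝ) := (mul_le_mul_of_nonneg_right h1 hℓ'.le).trans hr1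
    have hx0 : 0 < x := by linarith
    have hr0 : (0 : ℝ) < (r : ℝ) := lt_of_lt_of_le (mul_pos hx0 hℓ') hr2
    have h2 : (ℓ : ℝ) / (r : ℝ) ≤ x⁻¹ := by
      rw [div_le_iff₀ hr0, inv_mul_eq_div, le_div_iff₀ hx0, mul_comm]
      exact hr2
    have h3 : ((ℓ : ℝ) / r) ^ c₁ ≤ B⁻¹ := by
      have := Real.rpow_le_rpow (div_pos hℓ' hr0).le h2 hc.le
      rwa [Real.inv_rpow hx0.le, hxc] at this
    have h4 : 0 ≤ ((ℓ : ℝ) / r) ^ c₁ := Real.rpow_nonneg (div_pos hℓ' hr0).le _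
    have hB0 : 0 < B := by linarith
    calc A * ((ℓ : ℝ) / r) ^ c₁ ≤ B * ((ℓ : ℝ) / r) ^ c₁ := mul_le_mul_of_nonneg_right hAB h4
      _ ≤ B * B⁻¹ := mul_le_mul_of_nonneg_left h3 hB0.le
      _ = 1 := mul_inv_cancel₀ hB0.ne'

/-- Choice of the number of steps: `exp (-(2 ^ n t)) ≤ a`. -/
theorem exists_tail {t a : ℝ} (ht : 0 < t) (ha : 0 < a) : ∃ n : ℕ, Real.exp (-(2 ^ n * t)) ≤ a := by
  obtain ⟨n, hn⟩ := pow_unbounded_of_one_lt (1 / (a * t)) (by norm_num : (1 : ℝ) < 2)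
  refine ⟨n, ?_⟩
  have hat : 0 < a * t := mul_pos ha ht
  have h1 : 1 < 2 ^ n * (a * t) := by
    rw [div_lt_iff₀ hat] at hn
    exact hn
  have h2 : 2 ^ n * t + 1 ≤ Real.exp (2 ^ n * t) := Real.add_one_le_exp _
  have h3 : Real.exp (2 ^ n * t) * Real.exp (-(2 ^ n * t)) = 1 := by
    rw [← Real.exp_add, add_neg_cancel, Real.exp_zero]
  have h4 : 0 < Real.exp (-(2 ^ n * t)) := Real.exp_pos _
  have h5 : (2 ^ n * t + 1) * Real.exp (-(2 ^ n * t)) ≤ 1 :=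
    (mul_le_mul_of_nonneg_right h2 h4.le).trans h3.le
  have h6 : 0 < 2 ^ n * t := by positivity
  have h7 : (2 ^ n * t) * Real.exp (-(2 ^ n * t)) ≤ (2 ^ n * t) * a := by nlinarith
  exact le_of_mul_le_mul_left h7 h6

/-- BOOTSTRAP.  `M = 3 C₁ + 1`, `Λ` from `exists_lam` with `A = M ^ 2 (64 C) ^ 6 C₅`.  Fix `ℓ`, `t`; strong induction on `R - r` (`r ≥ Λ ℓ`).  `r = R`: `be = 1 = al`.
`r < R`: `bulk_step` with `W` from `exists_annF (8 * r) (R / 4)` and `n` from `exists_tail` with `a = (al L r R) ^ 2 > 0`.  For `v ∈ W` (`8 r < nrm v ≤ R / 4`) the induction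
hypothesis for `(r, ρ₁)` and `(ρ₂, R)` (both starting radii `≥ Λ ℓ`) and `al_mul` (with `ρ = nrm v`): the product of the two factors `be` is at most
`M ^ 2 ((64 C) ^ 3 al L r R) ^ 2`.  `hsum`: the double sum is at most `M ^ 2 (64 C) ^ 6 (al L r R) ^ 2 C₅ (ℓ / r) ^ c₁ ≤ (al L r R) ^ 2`.  Total: `3 C₁ (al L r R) ^ 2`. -/
theorem bulk_ind (hp : TP L C c R₀) {C₁ C₅ c₁ : ℝ} (hC₁ : 0 < C₁) (hC₅ : 0 < C₅) (hc₁ : 0 < c₁)
    (hs : ∀ t : ℝ, 0 ≤ t → ∀ r R : ℤ, R₀ ≤ r → r < R →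
      pr2 (kt t) (L.TwoA true r R) ≤ C₁ * pr2 (kz (kt t) r R) (L.S4 r R))
    (hsum : ∀ (ℓ r : ℤ) (t : ℝ), R₀ ≤ ℓ → ℓ ≤ r → Beyond L R₀ ℓ t →
      ∀ (W : Finset Pt) (n : ℕ), (∀ v ∈ W, 8 * r < nrm v) →
      ∑ j ∈ Finset.range n, (2 ^ j * t) * ∑ v ∈ W, Real.exp (-(2 ^ j * t)) *
        locf L R₀ (2 ^ j * t) v ≤ C₅ * ((ℓ : ℝ) / r) ^ c₁) :
    ∃ (M : ℝ) (Λ : ℤ), 1 ≤ M ∧ 1 ≤ Λ ∧ ∀ (ℓ : ℤ) (t : ℝ), R₀ ≤ ℓ → Beyond L R₀ ℓ t →
      ∀ r R : ℤ, Λ * ℓ ≤ r → r ≤ R → be L t r R ≤ M * (al L r R) ^ 2 := by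
  have hC : 1 ≤ C := hp.ap.C1
  have h16 : 16 ≤ R₀ := hp.ap.R16
  obtain ⟨Λ, hΛ, hlam⟩ := exists_lam (A := (3 * C₁ + 1) ^ 2 * (64 * C) ^ 6 * C₅) hc₁
  refine ⟨3 * C₁ + 1, Λ, by linarith, hΛ, ?_⟩
  intro ℓ t hℓ hb
  obtain ⟨ht, -⟩ := hp.beyond_pos hℓ hb
  have hself : ∀ r : ℤ, be L t r r ≤ (3 * C₁ + 1) * (al L r r) ^ 2 := by
    intro r
    unfold be al
    rw [if_neg (lt_irrefl r), if_neg (lt_irrefl r)]
    linarith
  have key : ∀ n : ℕ, ∀ r R : ℤ, Λ * ℓ ≤ r → r ≤ R → R - r ≤ n →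
      be L t r R ≤ (3 * C₁ + 1) * (al L r R) ^ 2 := by
    intro n
    induction n with
    | zero =>
      intro r R _ h2 h3
      have e : R = r := by push_cast at h3; omega
      rw [e]
      exact hself r
    | succ n ih =>
      intro r R h1 h2 h3
      rcases h2.eq_or_lt with e | hrR
      · rw [← e]
        exact hself r
      have hℓr : ℓ ≤ r := by
        have : 1 * ℓ ≤ Λ * ℓ := mul_le_mul_of_nonneg_right hΛ (by omega)
        omega
      have hr : R₀ ≤ r := hℓ.trans hℓr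
      have hal : 0 < al L r R := hp.ap.pos r R hr h2
      obtain ⟨W, hW⟩ := exists_annF (8 * r) (R / 4)
      obtain ⟨m, hm⟩ := exists_tail ht (pow_pos hal 2)
      have hstep := bulk_step h16 hC₁ hr hrR ht.le (hs t ht.le r R hr hrR) hW m
      set D : ℝ := (3 * C₁ + 1) ^ 2 * ((64 * C) ^ 3 * al L r R) ^ 2 with hD
      have hD0 : 0 ≤ D := by positivity
      have hterm : ∀ s : ℝ, 0 ≤ s → ∀ v ∈ W, be L t r (nrm v - nrm v / 4 - 1) *
          (locf L R₀ s v * be L t (nrm v + nrm v / 4) R) ≤ locf L R₀ s v * D := by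
        intro s hs0 v hv
        obtain ⟨w1, w2⟩ := (hW v).1 hv
        have hlocf : 0 ≤ locf L R₀ s v := by
          unfold locf
          have a1 := pr2_nonneg (L.TwoAt true v R₀ (nrm v / 4)) (kt_kap hs0)
          have a2 := pr2_nonneg (L.TwoAt false v R₀ (nrm v / 4)) (kt_kap hs0)
          linarith
        have b1 := ih r (nrm v - nrm v / 4 - 1) h1 (by omega) (by push_cast at h3; omega)
        have b2 := ih (nrm v + nrm v / 4) R (by omega) (by omega) (by push_cast at h3; omega)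
        have c1 := be_nonneg L ht.le r (nrm v - nrm v / 4 - 1)
        have c2 := be_nonneg L ht.le (nrm v + nrm v / 4) R
        have d := hp.al_mul (r := r) (ρ₁ := nrm v - nrm v / 4 - 1) (ρ := nrm v)
          (ρ₂ := nrm v + nrm v / 4) (R := R) hr (by omega) (by omega) (by omega) (by omega)
          (by omega) (by omega)
        have d1 : 0 ≤ al L r (nrm v - nrm v / 4 - 1) := (hp.ap.pos _ _ hr (by omega)).le
        have d2 : 0 ≤ al L (nrm v + nrm v / 4) R := (hp.ap.pos _ _ (by omega) (by omega)).le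
        have e1 : be L t r (nrm v - nrm v / 4 - 1) * be L t (nrm v + nrm v / 4) R ≤ D := by
          calc be L t r (nrm v - nrm v / 4 - 1) * be L t (nrm v + nrm v / 4) R
              ≤ ((3 * C₁ + 1) * (al L r (nrm v - nrm v / 4 - 1)) ^ 2) *
                ((3 * C₁ + 1) * (al L (nrm v + nrm v / 4) R) ^ 2) :=
                mul_le_mul b1 b2 c2 (c1.trans b1)
            _ = (3 * C₁ + 1) ^ 2 *
                (al L r (nrm v - nrm v / 4 - 1) * al L (nrm v + nrm v / 4) R) ^ 2 := by ring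
            _ ≤ D := by
              rw [hD]
              exact mul_le_mul_of_nonneg_left (pow_le_pow_left₀ (mul_nonneg d1 d2) d 2)
                (by positivity)
        calc be L t r (nrm v - nrm v / 4 - 1) *
              (locf L R₀ s v * be L t (nrm v + nrm v / 4) R)
            = locf L R₀ s v *
              (be L t r (nrm v - nrm v / 4 - 1) * be L t (nrm v + nrm v / 4) R) := by ring
          _ ≤ locf L R₀ s v * D := mul_le_mul_of_nonneg_left e1 hlocf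
      have hS : ∑ j ∈ Finset.range m, (2 ^ j * t) * ∑ v ∈ W, Real.exp (-(2 ^ j * t)) *
          (be L t r (nrm v - nrm v / 4 - 1) *
            (locf L R₀ (2 ^ j * t) v * be L t (nrm v + nrm v / 4) R)) ≤
          D * ∑ j ∈ Finset.range m, (2 ^ j * t) * ∑ v ∈ W, Real.exp (-(2 ^ j * t)) *
            locf L R₀ (2 ^ j * t) v := by
        rw [Finset.mul_sum]
        refine Finset.sum_le_sum fun j _ => ?_
        have hj : 0 ≤ 2 ^ j * t := by positivity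
        have e1 : D * ((2 ^ j * t) * ∑ v ∈ W, Real.exp (-(2 ^ j * t)) *
            locf L R₀ (2 ^ j * t) v) = (2 ^ j * t) * ∑ v ∈ W, Real.exp (-(2 ^ j * t)) *
            (locf L R₀ (2 ^ j * t) v * D) := by
          rw [mul_left_comm, Finset.mul_sum]
          congr 1
          refine Finset.sum_congr rfl fun v _ => ?_
          ring
        rw [e1]
        refine mul_le_mul_of_nonneg_left (Finset.sum_le_sum fun v hv => ?_) hj
        exact mul_le_mul_of_nonneg_left (hterm _ hj v hv) (Real.exp_pos _).le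
      have hS2 := hsum ℓ r t hℓ hℓr hb W m (fun v hv => ((hW v).1 hv).1)
      have hS3 := hlam ℓ r (by omega) h1
      have hS4 : D * ∑ j ∈ Finset.range m, (2 ^ j * t) * ∑ v ∈ W, Real.exp (-(2 ^ j * t)) *
            locf L R₀ (2 ^ j * t) v ≤ (al L r R) ^ 2 := by
        calc D * ∑ j ∈ Finset.range m, (2 ^ j * t) * ∑ v ∈ W, Real.exp (-(2 ^ j * t)) *
              locf L R₀ (2 ^ j * t) v ≤ D * (C₅ * ((ℓ : ℝ) / r) ^ c₁) :=
              mul_le_mul_of_nonneg_left hS2 hD0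
          _ = (al L r R) ^ 2 * ((3 * C₁ + 1) ^ 2 * (64 * C) ^ 6 * C₅ * ((ℓ : ℝ) / r) ^ c₁) := by
              rw [hD]
              ring
          _ ≤ (al L r R) ^ 2 * 1 := mul_le_mul_of_nonneg_left hS3 (by positivity)
          _ = (al L r R) ^ 2 := mul_one _
      have hal2 : 0 < (al L r R) ^ 2 := pow_pos hal 2
      have hfin : (al L r R) ^ 2 +
          ∑ j ∈ Finset.range m, (2 ^ j * t) * ∑ v ∈ W, Real.exp (-(2 ^ j * t)) *
            (be L t r (nrm v - nrm v / 4 - 1) *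
              (locf L R₀ (2 ^ j * t) v * be L t (nrm v + nrm v / 4) R)) +
          Real.exp (-(2 ^ m * t)) ≤ 3 * (al L r R) ^ 2 := by linarith [hS.trans hS4]
      calc be L t r R ≤ C₁ * (3 * (al L r R) ^ 2) :=
            hstep.trans (mul_le_mul_of_nonneg_left hfin hC₁.le)
        _ ≤ (3 * C₁ + 1) * (al L r R) ^ 2 := by nlinarith
  intro r R h1 h2
  exact key (R - r).toNat r R h1 h2 (Int.self_le_toNat _)

/-- all centres and colours: `TP.cmpt` -/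
theorem bulk_of_zero (hp : TP L C c R₀) {M : ℝ} {Λ : ℤ} (hM : 1 ≤ M) (hΛ : 1 ≤ Λ)
    (h : ∀ (ℓ : ℤ) (t : ℝ), R₀ ≤ ℓ → Beyond L R₀ ℓ t →
      ∀ r R : ℤ, Λ * ℓ ≤ r → r ≤ R → be L t r R ≤ M * (al L r R) ^ 2) :
    BulkOK L (C * M) Λ R₀ := by
  intro ℓ t hℓ hb c' x r R h1 h2
  have hC : 1 ≤ C := hp.ap.C1
  have h16 : 16 ≤ R₀ := hp.ap.R16
  obtain ⟨ht, -⟩ := hp.beyond_pos hℓ hb
  have hℓr : ℓ ≤ r := by
    have : 1 * ℓ ≤ Λ * ℓ := mul_le_mul_of_nonneg_right hΛ (by omega)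
    omega
  have e1 := hp.cmpt t ht.le c' x r R r R (hℓ.trans hℓr) (hℓ.trans hℓr) h2 (by omega) h2
    (by omega)
  have e2 := h ℓ t hℓ hb r R h1 h2
  calc pr2 (kt t) (L.TwoAt c' x r R) ≤ C * be L t r R := e1
    _ ≤ C * (M * (al L r R) ^ 2) := mul_le_mul_of_nonneg_left e2 (by linarith)
    _ = C * M * (al L r R) ^ 2 := by ring

end TT

end SC

end

/-! ### from `Lib_MP_e0a489.TTA9` -/

section

/-!
# MP_e0a489, module TTA: the abstract theorem for the half plane and the corner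
-/

set_option autoImplicit false

namespace SC

open Classical

private theorem tta9_kt {t : ℝ} (ht : 0 < t) (v : Pt) : 0 ≤ kt t v ∧ kt t v ≤ 1 := by
  refine ⟨(Real.exp_pos _).le, ?_⟩
  show Real.exp (-t) ≤ 1
  rw [← Real.exp_zero]
  exact Real.exp_le_exp.2 (by linarith)

private theorem tta9_ind (A : Cfg → Prop) (ω : Cfg) : 0 ≤ ind A ω := by
  unfold ind
  split_ifs <;> norm_num

private theorem tta9_pr2 {A : Cfg → Prop} (hA : Loc A) {κ : Pt → ℝ}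
    (hκ : ∀ v, 0 ≤ κ v ∧ κ v ≤ 1) : 0 ≤ pr2 κ A ∧ pr2 κ A ≤ 1 := by
  refine ⟨ex2_nonneg κ hκ (tta9_ind _) (tta9_ind _), ?_⟩
  have h := ex2_le_sq hA.lf κ hκ
  have e : (fun ω => ind A ω ^ 2) = ind A := by
    funext ω
    unfold ind
    split_ifs <;> norm_num
  rw [e] at h
  exact le_trans h (pr_le_one A)

private theorem tta9_pos {L : Lat} {R₀ ℓ : ℤ} {t : ℝ} (hB : Beyond L R₀ ℓ t) : 0 < t := by
  unfold Beyond at hB
  by_contra hneg
  have hal : 0 ≤ al L R₀ ℓ := by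
    unfold al
    split_ifs
    · exact pr_nonneg _
    · exact zero_le_one
  have h1 : t * ((ℓ : ℝ) ^ 2 * al L R₀ ℓ) ≤ 0 :=
    mul_nonpos_of_nonpos_of_nonneg (not_lt.1 hneg) (by positivity)
  linarith

/-- `boot_real` with `F = crF E (kt t)`, `c = ε`, `C₁` (there) `= C / (1 - ttq ε)` from `shell_time` and `tt_step`.
`0 ≤ F ≤ 1` (`pr2 ≤ 1`).  For `r < R` `F r R = pr2 (kt t) (E r R)`; for `r = R` use `pr2 ≤ 1 = F r r`. -/
theorem graded_boot {L : Lat} {R₀ : ℤ} {C₀ C₁ C₂ C₃ C₄ ε : ℝ} (hε : 0 < ε ∧ ε ≤ 1 / 8)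
    (hR : 1 ≤ R₀) (h0 : 0 < C₀) (h1 : 0 < C₁) (h2 : 0 < C₂) (h3 : 0 < C₃) (h4 : 0 < C₄)
    (hS : ScaleOK L C₃ R₀) : ∃ (M : ℝ) (Λ : ℤ), 0 < M ∧ 1 ≤ Λ ∧
    ∀ (Q : Set Pt) (E : ℤ → ℤ → Cfg → Prop) (W : Bool → Pt → ℤ → Cfg → Prop) (ht : Pt → ℤ)
      (G : ℤ → ℤ → ℝ), CrE Q E W → HtOK Q ht → LocB L R₀ Q W ht C₁ C₃ ε →
      (∀ r R, R₀ ≤ r → 0 < G r R) → (∀ r R, R₀ ≤ r → R ≤ 64 * r → 1 ≤ C₄ * G r R) →
      (∀ r ρ R, R₀ ≤ r → r ≤ ρ → ρ ≤ R → G r ρ * G (8 * ρ) R ≤ C₂ * G r R) →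
      (∀ r R, R₀ ≤ r → 64 * r < R → pr (E (4 * r) (R / 4)) ^ 2 ≤ C₀ * G r R) →
      ∀ (ℓ : ℤ) (t : ℝ), R₀ ≤ ℓ → Beyond L R₀ ℓ t → ∀ r R : ℤ, Λ * ℓ ≤ r → r ≤ R →
        pr2 (kt t) (E r R) ≤ M * G r R := by
  obtain ⟨hq0, hq1⟩ := ttq_mem hε.1
  obtain ⟨C, Λ₁, hC, hΛ₁, hsh⟩ := shell_time (L := L) hε hR h1 h3 hS
  have hC' : 0 ≤ C / (1 - ttq ε) := div_nonneg hC.le (by linarith)
  obtain ⟨M, Λ, hM, hΛ, hboot⟩ := boot_real (C₀ := C₀) (C₁ := C / (1 - ttq ε)) (C₂ := C₂)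
    (C₃ := C₄) (c := ε) Λ₁ h0.le hC' h2.le h4.le hε.1
  refine ⟨M, Λ, hM, hΛ, ?_⟩
  intro Q E W ht G hE hht hL hG hG1 hG2 hG3 ℓ t hℓ hB r R hr hrR
  have hℓ1 : 1 ≤ ℓ := le_trans hR hℓ
  have ht0 : 0 < t := tta9_pos hB
  have hκ := tta9_kt ht0
  have hF : ∀ r R : ℤ, 0 ≤ crF E (kt t) r R ∧ crF E (kt t) r R ≤ 1 := by
    intro r R
    unfold crF
    split_ifs
    · exact tta9_pr2 (hE.loc r R) hκ
    · exact ⟨zero_le_one, le_rfl⟩
  have key := hboot ℓ (crF E (kt t)) G hℓ1 hF (fun r R h => hG r R (le_trans hℓ h))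
    (fun r R h h' => hG1 r R (le_trans hℓ h) h')
    (fun r ρ R h h' h'' => hG2 r ρ R (le_trans hℓ h) h' h'') (by
      intro r R h h' h''
      have hr1 : 1 ≤ r := le_trans hℓ1 h'
      obtain ⟨n, hn, hle⟩ := tt_step hE hε.1 hC.le hℓ1 ht0
        (hsh Q E W ht hE hht hL ℓ t hℓ hB) hr1 h h''
      refine ⟨n, hn, ?_⟩
      have hcr : crF E (kt t) r R = pr2 (kt t) (E r R) := by
        unfold crF
        rw [if_pos (by omega)]
      rw [hcr]
      have h5 := hG3 r R (le_trans hℓ h') h''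
      linarith) r R hr
  refine le_trans ?_ key
  unfold crF
  split_ifs
  · exact le_rfl
  · exact (tta9_pr2 (hE.loc r R) hκ).2

end SC

end

/-! ### from `Lib_MP_e0a489.XP13` -/

section

/-!
# MP_e0a489, exponents 13: upper bound
-/

set_option autoImplicit false

namespace SC

variable [IfL]

namespace XP

open Classical

/-- FIRST LEVEL INEQUALITY for the blocks of side `w = 2 r + 1`, `N = M w + r`, and the exploration from the column `0`: `level_one` with `𝓑 = blks M w`,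
`R = L.Rb M w 0` (`Rb_stop`, `Rb_hx`; `w / 2 = r`), `f = ind (HX true)`, `X` from `exists_X` for `XX z = Xc L (z.1 w, z.2 w) r` if `nrm z ≤ M / 2`, and `XX z = 0` otherwise,
`V = 2 / κ 16 ^ 3` (`Xc_dep`, `blk_bxAt`, `Xc_ex`, `Xc_sq`).  Sums over `blks` are sums over `z` (`sum_blks`). -/
theorem level_sum {L : Lat} {κ : ℕ → ℝ} (h : RSW L κ) {M r : ℤ} (hr : 64 ≤ r) (hM : 0 ≤ M) :
    ∑ z ∈ (rectF (-M) M (-M) M).filter (fun z => nrm z ≤ M / 2),
        ex (fun ω => ind (L.HX true (-(M * (2 * r + 1) + r)) (M * (2 * r + 1) + r)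
          (-(M * (2 * r + 1) + r)) (M * (2 * r + 1) + r)) ω *
            Xc L (z.1 * (2 * r + 1), z.2 * (2 * r + 1)) r ω) ≤
      Real.sqrt (2 / κ 16 ^ 3 * ∑ z ∈ rectF (-M) M (-M) M,
        pr (fun ω => blkF (2 * r + 1) z ∈ L.Rb M (2 * r + 1) 0 ω)) := by
  have hr0 : 0 ≤ r := by omega
  have hw : (2 * r + 1) % 2 = 1 := by omega
  have hw0 : 0 < 2 * r + 1 := by omega
  have hwr : (2 * r + 1) / 2 = r := by omega
  have hN0 : 0 ≤ M * (2 * r + 1) := mul_nonneg hM hw0.le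
  have hx : |(0 : ℤ)| ≤ M * (2 * r + 1) + (2 * r + 1) / 2 := by
    rw [abs_zero, hwr]
    omega
  obtain ⟨X, hX⟩ := exists_X hw hw0 (fun z => if nrm z ≤ M / 2 then
    Xc L (z.1 * (2 * r + 1), z.2 * (2 * r + 1)) r else fun _ => 0)
  have hV0 : 0 < κ 16 := h.pos 16
  have hblk : ∀ B ∈ blks M (2 * r + 1), ∃ z, B = blkF (2 * r + 1) z := by
    intro B hB
    unfold blks at hB
    rw [Finset.mem_image] at hB
    obtain ⟨z, -, hz⟩ := hB
    exact ⟨z, hz.symm⟩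
  have key := level_one (blks_disj (M := M) hw hw0) (Rb_stop (L := L) (M := M) (x := 0) hw hw0 hx)
    (f := ind (L.HX true (-(M * (2 * r + 1) + (2 * r + 1) / 2))
      (M * (2 * r + 1) + (2 * r + 1) / 2) (-(M * (2 * r + 1) + (2 * r + 1) / 2))
      (M * (2 * r + 1) + (2 * r + 1) / 2)))
    (Lat.HX.loc L true _ _ _ _).lf
    (fun ω => by unfold ind; split_ifs <;> norm_num)
    (fun ω => by unfold ind; split_ifs <;> norm_num)
    (fun ω ω' hωω => Rb_hx hw hw0 hx hωω)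
    (X := X) (V := 2 / κ 16 ^ 3)
    (fun B hB => by
      obtain ⟨z, rfl⟩ := hblk B hB
      rw [hX z]
      split_ifs
      · rw [coe_blkF, blk_bxAt]
        exact Xc_dep L _ hr0
      · intro ω ω' _
        rfl)
    (fun B hB => by
      obtain ⟨z, rfl⟩ := hblk B hB
      rw [hX z]
      split_ifs
      · exact Xc_ex h _ hr
      · exact ex_const 0)
    (fun B hB => by
      obtain ⟨z, rfl⟩ := hblk B hB
      rw [hX z]
      split_ifs
      · exact Xc_sq h _ hr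
      · have e : (fun _ : Cfg => ((0 : ℝ)) ^ 2) = fun _ => (0 : ℝ) := by
          funext _
          norm_num
        rw [e, ex_const]
        positivity)
  rw [hwr] at key
  rw [sum_blks hw hw0, sum_blks hw hw0] at key
  refine le_trans (le_of_eq ?_) key
  rw [Finset.sum_filter]
  refine Finset.sum_congr rfl fun z _ => ?_
  rw [hX z]
  split_ifs
  · rfl
  · have e : (fun ω => ind (L.HX true (-(M * (2 * r + 1) + r)) (M * (2 * r + 1) + r)
        (-(M * (2 * r + 1) + r)) (M * (2 * r + 1) + r)) ω * (fun _ : Cfg => (0 : ℝ)) ω) =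
        fun _ => (0 : ℝ) := by
      funext ω
      ring
    rw [e, ex_const]

/-- UPPER BOUND for `N = M (2 r + 1) + r`.  With the constants `C₁` of `box_low`, `C₂`, `c` of `Rb_pr` and `V = 2 / κ 16 ^ 3`: every term of the left side of
`level_sum` is at least `al L r N / C₁` (`Xc_infl`, `box_low`: `2 nrm x ≤ M w ≤ N`, `nrm x + r < N`, `32 r ≤ N`), there are at least `M ^ 2` terms
(`card_half`); the sum on the right is at most `C₂ 4 (2 M + 1) ^ (2 - c)` (`Rb_pr` with `u = 0`, `sum_blk`).  So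
`M ^ 2 al L r N ≤ C₁ sqrt (4 V C₂ (2 M + 1) ^ (2 - c)) ≤ C M ^ (1 - c / 2)`. -/
theorem al_up_M (κ : ℕ → ℝ) : ∃ (C c : ℝ) (R₀ : ℤ), 0 < C ∧ 0 < c ∧ c ≤ 1 / 4 ∧ 64 ≤ R₀ ∧
    ∀ L : Lat, Fam L κ → ∀ r M : ℤ, R₀ ≤ r → 32 ≤ M →
      al L r (M * (2 * r + 1) + r) ≤ C * (1 / (M : ℝ)) ^ (1 + c) := by
  obtain ⟨C₁, R₁, hC₁, hR₁, H₁⟩ := box_low κ
  obtain ⟨C₂, c, hC₂, hc0, hc1, H₂⟩ := Rb_pr κ
  set V : ℝ := |2 / κ 16 ^ 3| with hV
  have hV0 : 0 ≤ V := abs_nonneg _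
  refine ⟨C₁ * (6 * Real.sqrt (V * C₂)) + 1, c / 2, R₁, by positivity, by linarith, by linarith,
    hR₁, ?_⟩
  intro L hL r M hr hM
  have hrsw : RSW L κ := hL.rsw
  have hr64 : 64 ≤ r := le_trans hR₁ hr
  have hw : (2 * r + 1) % 2 = 1 := by omega
  have hw0 : 0 < 2 * r + 1 := by omega
  have hM0 : 0 ≤ M := by omega
  have hMr : (1 : ℝ) ≤ M := by
    have : (1 : ℤ) ≤ M := by omega
    exact_mod_cast this
  have hMr0 : (0 : ℝ) < M := by linarith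
  set N : ℤ := M * (2 * r + 1) + r with hN
  have hMw : 32 * (2 * r + 1) ≤ M * (2 * r + 1) := mul_le_mul_of_nonneg_right hM hw0.le
  have hal0 : 0 ≤ al L r N := by
    unfold al
    split_ifs
    · exact pr_nonneg _
    · norm_num
  -- every term is large
  have hterm : ∀ z ∈ (rectF (-M) M (-M) M).filter (fun z => nrm z ≤ M / 2),
      al L r N / C₁ ≤ ex (fun ω => ind (L.HX true (-N) N (-N) N) ω *
        Xc L (z.1 * (2 * r + 1), z.2 * (2 * r + 1)) r ω) := by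
    intro z hz
    have hz2 : nrm z ≤ M / 2 := (Finset.mem_filter.1 hz).2
    have hn : nrm (z.1 * (2 * r + 1), z.2 * (2 * r + 1)) = nrm z * (2 * r + 1) := by
      unfold nrm
      simp only [abs_mul, abs_of_pos hw0]
      rw [max_mul_of_nonneg _ _ hw0.le]
    have hz3 : 2 * nrm z ≤ M := by omega
    have hz4 : 2 * (nrm z * (2 * r + 1)) ≤ M * (2 * r + 1) := by
      have := mul_le_mul_of_nonneg_right hz3 hw0.le
      linarith
    have h1 := H₁ L hL (z.1 * (2 * r + 1), z.2 * (2 * r + 1)) r N hr (by omega) (by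
      rw [hn]
      omega)
    have h2 := Xc_infl hrsw (x := (z.1 * (2 * r + 1), z.2 * (2 * r + 1))) (N := N) hr64 (by
      rw [hn]
      omega)
    rw [div_le_iff₀ hC₁]
    calc al L r N ≤ _ := h1
      _ ≤ C₁ * _ := mul_le_mul_of_nonneg_left h2 hC₁.le
      _ = _ := mul_comm _ _
  have hlow : (M : ℝ) ^ 2 * (al L r N / C₁) ≤
      ∑ z ∈ (rectF (-M) M (-M) M).filter (fun z => nrm z ≤ M / 2),
        ex (fun ω => ind (L.HX true (-N) N (-N) N) ω *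
          Xc L (z.1 * (2 * r + 1), z.2 * (2 * r + 1)) r ω) := by
    have h1 := Finset.card_nsmul_le_sum _ _ _ hterm
    rw [nsmul_eq_mul] at h1
    refine le_trans (mul_le_mul_of_nonneg_right (card_half hM0) (by positivity)) h1
  have hup : ∑ z ∈ rectF (-M) M (-M) M,
      pr (fun ω => blkF (2 * r + 1) z ∈ L.Rb M (2 * r + 1) 0 ω) ≤
        C₂ * (4 * (2 * (M : ℝ) + 1) ^ (2 - c)) := by
    have h1 : ∀ z ∈ rectF (-M) M (-M) M,
        pr (fun ω => blkF (2 * r + 1) z ∈ L.Rb M (2 * r + 1) 0 ω) ≤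
          C₂ * (1 / (1 + ((|z.1 - 0| : ℤ) : ℝ))) ^ c := by
      intro z _
      have h2 := H₂ L hrsw M (2 * r + 1) 0 z hw hw0 (by rw [abs_zero]; exact hM0)
      rwa [zero_mul] at h2
    refine le_trans (Finset.sum_le_sum h1) ?_
    rw [← Finset.mul_sum]
    exact mul_le_mul_of_nonneg_left (sum_blk hc0.le hc1 hM0) hC₂.le
  have hsum := level_sum (M := M) hrsw hr64 hM0
  rw [← hN] at hsum
  have hS0 : 0 ≤ ∑ z ∈ rectF (-M) M (-M) M,
      pr (fun ω => blkF (2 * r + 1) z ∈ L.Rb M (2 * r + 1) 0 ω) :=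
    Finset.sum_nonneg fun z _ => pr_nonneg _
  have hpow : (2 * (M : ℝ) + 1) ^ (2 - c) ≤ 9 * (M : ℝ) ^ (2 - c) := by
    have h1 : (2 * (M : ℝ) + 1) ^ (2 - c) ≤ (3 * (M : ℝ)) ^ (2 - c) :=
      Real.rpow_le_rpow (by positivity) (by linarith) (by linarith)
    rw [Real.mul_rpow (by norm_num) hMr0.le] at h1
    have h2 : (3 : ℝ) ^ (2 - c) ≤ 9 := by
      calc (3 : ℝ) ^ (2 - c) ≤ (3 : ℝ) ^ (2 : ℝ) :=
            Real.rpow_le_rpow_of_exponent_le (by norm_num) (by linarith)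
        _ = 9 := by norm_num
    exact le_trans h1 (mul_le_mul_of_nonneg_right h2 (by positivity))
  have hsq : Real.sqrt (2 / κ 16 ^ 3 * ∑ z ∈ rectF (-M) M (-M) M,
      pr (fun ω => blkF (2 * r + 1) z ∈ L.Rb M (2 * r + 1) 0 ω)) ≤
        6 * Real.sqrt (V * C₂) * (M : ℝ) ^ (1 - c / 2) := by
    apply Real.sqrt_le_iff.2
    refine ⟨by positivity, ?_⟩
    have h1 : 2 / κ 16 ^ 3 * ∑ z ∈ rectF (-M) M (-M) M,
        pr (fun ω => blkF (2 * r + 1) z ∈ L.Rb M (2 * r + 1) 0 ω) ≤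
          V * (C₂ * (4 * (9 * (M : ℝ) ^ (2 - c)))) := by
      refine le_trans (mul_le_mul_of_nonneg_right (le_abs_self _) hS0) ?_
      refine mul_le_mul_of_nonneg_left (le_trans hup ?_) hV0
      refine mul_le_mul_of_nonneg_left ?_ hC₂.le
      linarith
    have h2 : ((M : ℝ) ^ (1 - c / 2)) ^ 2 = (M : ℝ) ^ (2 - c) := by
      rw [← Real.rpow_natCast, ← Real.rpow_mul hMr0.le]
      congr 1
      push_cast
      ring
    have h3 : Real.sqrt (V * C₂) ^ 2 = V * C₂ := Real.sq_sqrt (by positivity)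
    refine le_trans h1 (le_of_eq ?_)
    rw [mul_pow, mul_pow, h2, h3]
    ring
  have hmain : (M : ℝ) ^ 2 * (al L r N / C₁) ≤
      6 * Real.sqrt (V * C₂) * (M : ℝ) ^ (1 - c / 2) := le_trans hlow (le_trans hsum hsq)
  have hM2 : (0 : ℝ) < (M : ℝ) ^ 2 := by positivity
  have e1 : (1 / (M : ℝ)) ^ (1 + c / 2) * (M : ℝ) ^ 2 = (M : ℝ) ^ (1 - c / 2) := by
    rw [one_div, Real.inv_rpow hMr0.le, ← Real.rpow_neg hMr0.le, ← Real.rpow_natCast,
      ← Real.rpow_add hMr0]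
    congr 1
    push_cast
    ring
  have h5 : al L r N ≤ C₁ * (6 * Real.sqrt (V * C₂)) * (1 / (M : ℝ)) ^ (1 + c / 2) := by
    have h6 : (M : ℝ) ^ 2 * al L r N ≤
        (M : ℝ) ^ 2 * (C₁ * (6 * Real.sqrt (V * C₂)) * (1 / (M : ℝ)) ^ (1 + c / 2)) := by
      have h7 : (M : ℝ) ^ 2 * al L r N = C₁ * ((M : ℝ) ^ 2 * (al L r N / C₁)) := by
        field_simp
      rw [h7]
      refine le_trans (mul_le_mul_of_nonneg_left hmain hC₁.le) (le_of_eq ?_)
      rw [← e1]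
      ring
    exact le_of_mul_le_mul_left h6 hM2
  refine le_trans h5 ?_
  refine mul_le_mul_of_nonneg_right (by linarith) (by positivity)

/-- UPPER BOUND.  If `R < 100 r`: `al ≤ 1 ≤ 100 ^ 2 (r / R) ^ (1 + c)`.  Otherwise `M = (R - r) / (2 r + 1) ≥ 32` (integer part), `N = M (2 r + 1) + r ≤ R`,
`al L r R ≤ al L r N` (`AlProps.mono`), and `M ≥ R / (4 r)`, so `(1 / M) ^ (1 + c) ≤ 16 (r / R) ^ (1 + c)`. -/
theorem al_up (κ : ℕ → ℝ) : ∃ (C c : ℝ) (R₀ : ℤ), 0 < C ∧ 0 < c ∧ c ≤ 1 / 4 ∧ 64 ≤ R₀ ∧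
    ∀ L : Lat, Fam L κ → ∀ r R : ℤ, R₀ ≤ r → r ≤ R →
      al L r R ≤ C * ((r : ℝ) / R) ^ (1 + c) := by
  obtain ⟨C₀, c, R₁, hC₀, hc0, hc1, hR₁, H₁⟩ := al_up_M κ
  obtain ⟨C₃, R₃, H₃⟩ := al_props κ
  refine ⟨100 ^ 2 + 16 * C₀, c, max R₁ R₃, by positivity, hc0, hc1, le_trans hR₁ (le_max_left _ _),
    ?_⟩
  intro L hL r R hr hrR
  have hr1 : R₁ ≤ r := le_trans (le_max_left _ _) hr
  have hr64 : 64 ≤ r := le_trans hR₁ hr1
  have hP := H₃ L hL
  have hr0 : (0 : ℝ) < r := by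
    have : (0 : ℤ) < r := by omega
    exact_mod_cast this
  have hR0 : (0 : ℝ) < R := by
    have : (0 : ℤ) < R := by omega
    exact_mod_cast this
  have hq0 : (0 : ℝ) < (r : ℝ) / R := by positivity
  by_cases hlt : R < 100 * r
  · have h1 : (1 : ℝ) / 100 ≤ (r : ℝ) / R := by
      rw [div_le_div_iff₀ (by norm_num) hR0]
      have : (R : ℝ) ≤ 100 * r := by exact_mod_cast hlt.le
      linarith
    have h2 : ((1 : ℝ) / 100) ^ (2 : ℝ) ≤ ((r : ℝ) / R) ^ (1 + c) := by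
      calc ((1 : ℝ) / 100) ^ (2 : ℝ) ≤ ((1 : ℝ) / 100) ^ (1 + c) :=
            Real.rpow_le_rpow_of_exponent_ge (by norm_num) (by norm_num) (by linarith)
        _ ≤ _ := Real.rpow_le_rpow (by norm_num) h1 (by linarith)
    have h3 : ((1 : ℝ) / 100) ^ (2 : ℝ) = 1 / 100 ^ 2 := by norm_num
    rw [h3] at h2
    have h4 : (1 : ℝ) ≤ 100 ^ 2 * ((r : ℝ) / R) ^ (1 + c) := by
      have := mul_le_mul_of_nonneg_left h2 (show (0 : ℝ) ≤ 100 ^ 2 by norm_num)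
      linarith
    have h5 : 0 ≤ 16 * C₀ * ((r : ℝ) / R) ^ (1 + c) := by positivity
    have h6 := hP.le1 r R
    rw [add_mul]
    linarith
  · have hge : 100 * r ≤ R := not_lt.1 hlt
    have hw0 : 0 < 2 * r + 1 := by omega
    set M : ℤ := (R - r) / (2 * r + 1) with hM
    have hM1 : M * (2 * r + 1) ≤ R - r := Int.ediv_mul_le _ (by omega)
    have hM2 : R - r < (M + 1) * (2 * r + 1) := Int.lt_ediv_add_one_mul_self _ hw0
    have hM32 : 32 ≤ M := by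
      rw [hM]
      apply (Int.le_ediv_iff_mul_le hw0).2
      omega
    have hmono : al L r R ≤ al L r (M * (2 * r + 1) + r) := by
      refine hP.mono r _ r R (by omega) le_rfl ?_ (by omega)
      have : 0 ≤ M * (2 * r + 1) := mul_nonneg (by omega) hw0.le
      omega
    have h1 := H₁ L hL r M hr1 hM32
    have hM0 : (0 : ℝ) < M := by
      have : (0 : ℤ) < M := by omega
      exact_mod_cast this
    have hMlow : R ≤ 4 * r * M := by
      have h2 : R * (2 * r + 1) ≤ 4 * r * (M * (2 * r + 1)) := by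
        have h3 : R - r - (2 * r + 1) < M * (2 * r + 1) := by linarith
        have h4 : 4 * r * (R - r - (2 * r + 1)) ≤ 4 * r * (M * (2 * r + 1)) :=
          mul_le_mul_of_nonneg_left h3.le (by omega)
        nlinarith
      have h5 : R * (2 * r + 1) ≤ (4 * r * M) * (2 * r + 1) := by
        rw [mul_assoc]
        exact h2
      exact le_of_mul_le_mul_right h5 hw0
    have h6 : (1 : ℝ) / M ≤ 4 * ((r : ℝ) / R) := by
      rw [div_le_iff₀ hM0]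
      have h7 : (R : ℝ) ≤ 4 * r * M := by exact_mod_cast hMlow
      have h8 : 4 * ((r : ℝ) / R) * M = (4 * r * M) / R := by ring
      rw [h8, le_div_iff₀ hR0]
      linarith
    have h9 : (1 / (M : ℝ)) ^ (1 + c) ≤ 16 * ((r : ℝ) / R) ^ (1 + c) := by
      calc (1 / (M : ℝ)) ^ (1 + c) ≤ (4 * ((r : ℝ) / R)) ^ (1 + c) :=
            Real.rpow_le_rpow (by positivity) h6 (by linarith)
        _ = (4 : ℝ) ^ (1 + c) * ((r : ℝ) / R) ^ (1 + c) :=
            Real.mul_rpow (by norm_num) hq0.le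
        _ ≤ 16 * ((r : ℝ) / R) ^ (1 + c) := by
            refine mul_le_mul_of_nonneg_right ?_ (by positivity)
            calc (4 : ℝ) ^ (1 + c) ≤ (4 : ℝ) ^ (2 : ℝ) :=
                  Real.rpow_le_rpow_of_exponent_le (by norm_num) (by linarith)
              _ = 16 := by norm_num
    have h10 : C₀ * (1 / (M : ℝ)) ^ (1 + c) ≤ C₀ * (16 * ((r : ℝ) / R) ^ (1 + c)) :=
      mul_le_mul_of_nonneg_left h9 hC₀.le
    have h11 : 0 ≤ (100 : ℝ) ^ 2 * ((r : ℝ) / R) ^ (1 + c) := by positivity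
    calc al L r R ≤ _ := hmono
      _ ≤ _ := h1
      _ ≤ C₀ * (16 * ((r : ℝ) / R) ^ (1 + c)) := h10
      _ ≤ (100 ^ 2 + 16 * C₀) * ((r : ℝ) / R) ^ (1 + c) := by
          rw [add_mul]
          linarith

end XP

end SC

end
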