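import Mathlib
import Pool.Agent.Lib_MP_e0a489_m.G28
import Pool.Agent.Lib_MP_e0a489_m.G30
import Pool.Agent.Lib_MP_e0a489_m.G31
import Pool.Agent.Lib_MP_e0a489_m.G32

/-!
# MP_e0a489_pr: merged library part G34

Concatenation of library files (each in its own section), only to save build time.
-/

/-! ### from `Lib_MP_e0a489.TTB9` -/

section

/-!
# MP_e0a489, module TT (9e): two-time bound beyond the correlation length, bulk
-/

set_option autoImplicit false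

namespace SC

variable [IfL] [IfX]

open Classical

open TT

theorem tt_bulk {L : Lat} {κ : ℕ → ℝ} (h : Fam L κ) {x₀ : Pt}
    (hc : ∀ m : ℤ, 8 ≤ m → CoreOK (L.shift x₀) m) :
    ∃ R₁ : ℤ, 16 ≤ R₁ ∧ ∀ R₀ : ℤ, R₁ ≤ R₀ → ∃ (M : ℝ) (Λ : ℤ), 0 < M ∧ 1 ≤ Λ ∧
      BulkOK L M Λ R₀ := by
  obtain ⟨R1, hR1, h1⟩ := tt_kb h hc
  obtain ⟨C, c, R2, h2⟩ := tp_ex h
  obtain ⟨Cs, R3, hCs, hR3, h3⟩ := sep2 κ
  refine ⟨max R1 (max R2 R3), hR1.trans (le_max_left _ _), fun R₀ hR₀ => ?_⟩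
  have r1 : R1 ≤ R₀ := (le_max_left _ _).trans hR₀
  have r2 : R2 ≤ R₀ := ((le_max_left _ _).trans (le_max_right _ _)).trans hR₀
  have r3 : R3 ≤ R₀ := ((le_max_right _ _).trans (le_max_right _ _)).trans hR₀
  obtain ⟨C₁, c₁, hC₁, hc₁, hc₁', hk⟩ := h1 R₀ r1
  have hp : TP L C c R₀ := h2 R₀ r2
  obtain ⟨C₅, hC₅, h5⟩ := site_sum hp hC₁ hc₁ hc₁' hk
  obtain ⟨M, Λ, hM, hΛ, h6⟩ := bulk_ind hp hCs hC₅ hc₁
    (fun t ht r R hr hrR => h3 L h.rsw (kt t) (kt_kap ht) true r R (by linarith) hrR.le) h5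
  have hC : 1 ≤ C := hp.ap.C1
  exact ⟨C * M, Λ, by positivity, hΛ, bulk_of_zero hp hM hΛ h6⟩

end SC

end

/-! ### from `Lib_MP_e0a489.TTQ2` -/

section

/-!
# MP_e0a489, module TTQ 2: two-time bound for the corner event
-/

set_option autoImplicit false

namespace SC

variable [IfL]

open Classical

/-- CORNER.  `graded_boot` with `ε = c / 4`, `C₁` from `loc_half_bd`, `G r R = al L r R`, `K = 4096 C`, `C₄ = K` (`HProps.small`), `C₂ = K ^ 4` (`HProps.qm8`),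
`C₀ = C ^ 2 K ^ 4` (`HProps.quart` for `(4 r, R / 4)`, squared: `(a ^ (1/2)) ^ 2 = a`, and `HProps.quarter`).  For given `σ`, `x`, `H`:
`E r R = ((L.rots σ).shift x).TwoQ H r R`, `W = ((L.rots σ).shift x).LocE H`, `ht v = min v.1 v.2` (`crE_quart`, `htOK_quart`); `LocB` by `locE_corner` and
`loc_half_bd` (`v ∈ H` has both coordinates `≥ 0`). -/
theorem quart_of {L : Lat} {C Cb Ch C₃ c : ℝ} {R₀ : ℤ} (hP : HProps L C R₀) (hR : 16 ≤ R₀)
    (hc : 0 < c ∧ c ≤ 1 / 2) (hC₃ : 0 < C₃) (hS : ScaleOK L C₃ R₀) (hb : LBKOK L Cb c R₀)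
    (hh : KBHOK L Ch c R₀) (hCb : 0 ≤ Cb) (hCh : 1 ≤ Ch) :
    ∃ (M : ℝ) (Λ : ℤ), 0 < M ∧ 1 ≤ Λ ∧ QuartOK L M Λ R₀ := by
  obtain ⟨C₁, hC₁, hloc⟩ := loc_half_bd hP hR hc hC₃ hb hh hCb hCh
  have hC := hP.ap.C1
  have hC0 : 0 < C := by linarith
  obtain ⟨M, Λ, hM, hΛ, hboot⟩ := graded_boot (L := L) (R₀ := R₀)
    (C₀ := C ^ 2 * (4096 * C) ^ 4) (C₁ := C₁) (C₂ := (4096 * C) ^ 4) (C₃ := C₃)
    (C₄ := 4096 * C) (ε := c / 4) ⟨by linarith [hc.1], by linarith [hc.2]⟩ (by omega)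
    (by positivity) hC₁ (by positivity) hC₃ (by positivity) hS
  have hpos : ∀ r R : ℤ, R₀ ≤ r → 0 < al L r R := by
    intro r R hr
    rcases le_or_gt r R with h | h
    · exact hP.ap.pos r R hr h
    · unfold al
      rw [if_neg (by omega)]
      norm_num
  refine ⟨M, Λ, hM, hΛ, ?_⟩
  intro ℓ t hℓ hB σ x H r R hH hr hrR
  refine hboot H (fun r R => ((L.rots σ).shift x).TwoQ H r R) (((L.rots σ).shift x).LocE H)
    (fun v => min v.1 v.2) (fun r R => al L r R) (Lat.crE_quart _ _) (htOK_quart hH)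
    ?_ hpos ?_ ?_ ?_ ℓ t hℓ hB r R hr hrR
  · intro ℓ' s hℓ' hB' hs b v D hv hD hD8
    obtain ⟨σ', x', H', v', hH', hv', he⟩ := locE_corner L σ x hH b hv (by omega) hD8 s
    have hv0 : 0 ≤ v.1 ∧ 0 ≤ v.2 := hH.2 hv
    have h := hloc ℓ' s hℓ' hB' hs σ' x' H' b v' D hH'
      (by rw [hv']; exact le_min hv0.1 hv0.2) hD
    rw [hv'] at h
    rw [he]
    exact h
  · intro r R hr hR
    exact hP.small hr hR
  · intro r ρ R hr h1 h2
    exact hP.qm8 hr h1 h2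
  · intro r R hr h1
    have h2 := hP.quart σ x H (4 * r) (R / 4) hH (by omega) (by omega)
    have h3 := hP.quarter hr h1
    have h4 : 0 < al L (4 * r) (R / 4) := hpos _ _ (by omega)
    have h5 : 0 ≤ pr (((L.rots σ).shift x).TwoQ H (4 * r) (R / 4)) := pr_nonneg _
    have h6 : (al L (4 * r) (R / 4) ^ ((1 : ℝ) / 2)) ^ 2 = al L (4 * r) (R / 4) := by
      rw [← Real.rpow_natCast, ← Real.rpow_mul h4.le]
      norm_num
    calc pr (((L.rots σ).shift x).TwoQ H (4 * r) (R / 4)) ^ 2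
        ≤ (C * al L (4 * r) (R / 4) ^ ((1 : ℝ) / 2)) ^ 2 := pow_le_pow_left₀ h5 h2 2
      _ = C ^ 2 * al L (4 * r) (R / 4) := by rw [mul_pow, h6]
      _ ≤ C ^ 2 * ((4096 * C) ^ 4 * al L r R) := mul_le_mul_of_nonneg_left h3 (by positivity)
      _ = C ^ 2 * (4096 * C) ^ 4 * al L r R := by ring

end SC

end
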