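import Mathlib
import Pool.Agent.Lib_MP_e0a489_m.G09
import Pool.Agent.Lib_MP_e0a489_m.G12
import Pool.Agent.Lib_MP_e0a489_m.G29
import Pool.Agent.Lib_MP_e0a489_m.G30
import Pool.Agent.Lib_MP_e0a489_m.G31
import Pool.Agent.Lib_MP_e0a489_m.G32
import Pool.Agent.Lib_MP_e0a489_m.G33
import Pool.Agent.Lib_MP_e0a489_m.G34
import Pool.Agent.Lib_MP_e0a489_m.G35
import Pool.Agent.Lib_MP_e0a489_m.G36

/-!
# MP_e0a489_pr: merged library part G37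

Concatenation of library files (each in its own section), only to save build time.
-/

/-! ### from `Lib_MP_e0a489.TTHF` -/

section

/-!
# MP_e0a489, module TTH: half plane and corner from `KBHOK`
-/

set_option autoImplicit false

namespace SC

variable [IfL] [IfX]

open Classical

/-- All the hypotheses of `half_of` and `quart_of` with common constants. -/
theorem tth_data {L : Lat} {κ : ℕ → ℝ} (h : Fam L κ) {x₀ : Pt}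
    (hc : ∀ m : ℤ, 8 ≤ m → CoreOK (L.shift x₀) m)
    (hk : ∃ R₁ : ℤ, 16 ≤ R₁ ∧ ∀ R₀ : ℤ, R₁ ≤ R₀ → ∃ C c : ℝ, 1 ≤ C ∧ 0 < c ∧ c ≤ 1 / 2 ∧
      KBHOK L C c R₀) :
    ∃ R₁ : ℤ, 16 ≤ R₁ ∧ ∀ R₀ : ℤ, R₁ ≤ R₀ → ∃ C Cb Ch C₃ c : ℝ, HProps L C R₀ ∧
      (0 < c ∧ c ≤ 1 / 2) ∧ 0 < C₃ ∧ ScaleOK L C₃ R₀ ∧ LBKOK L Cb c R₀ ∧ KBHOK L Ch c R₀ ∧
      0 ≤ Cb ∧ 1 ≤ Ch := by
  obtain ⟨R1, hR1, h1⟩ := tt_kb h hc
  obtain ⟨C, c, R2, h2⟩ := TT.tp_ex h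
  obtain ⟨Cp, R3, hCp, hR3, h3⟩ := hprops κ
  obtain ⟨R4, hR4, h4⟩ := hk
  refine ⟨max (max R1 R2) (max R3 R4), hR1.trans ((le_max_left _ _).trans (le_max_left _ _)),
    fun R₀ hR₀ => ?_⟩
  have r1 : R1 ≤ R₀ := ((le_max_left _ _).trans (le_max_left _ _)).trans hR₀
  have r2 : R2 ≤ R₀ := ((le_max_right _ _).trans (le_max_left _ _)).trans hR₀
  have r3 : R3 ≤ R₀ := ((le_max_left _ _).trans (le_max_right _ _)).trans hR₀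
  have r4 : R4 ≤ R₀ := ((le_max_right _ _).trans (le_max_right _ _)).trans hR₀
  obtain ⟨C₁, c₁, hC₁, hc₁, hc₁', hkb⟩ := h1 R₀ r1
  have hp : TT.TP L C c R₀ := h2 R₀ r2
  have hP : HProps L Cp R₀ := h3 L h R₀ r3
  obtain ⟨Ch, ch, hCh, hch, hch', hkh⟩ := h4 R₀ r4
  have hR : 16 ≤ R₀ := hR1.trans r1
  have hR1' : (1 : ℤ) ≤ R₀ := by omega
  have hC : 1 ≤ C := hp.ap.C1
  have hlb := lbkok_of hp hC₁ hc₁.le hkb
  have hR0 : (0 : ℝ) < R₀ := by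
    have : (0 : ℤ) < R₀ := by omega
    exact_mod_cast this
  have hCC : 0 ≤ C * C₁ := by positivity
  refine ⟨Cp, C * C₁, Ch, 4 * (R₀ : ℝ) ^ 2, min c₁ ch, hP, ⟨lt_min hc₁ hch, ?_⟩, by positivity,
    scaleOK_of hp, ?_, ?_, hCC, hCh⟩
  · exact (min_le_left _ _).trans hc₁'
  · have h0 : 0 ≤ 2 + min c₁ ch := by
      have := lt_min hc₁ hch
      linarith
    exact hlb.mono hR1' le_rfl hCC (min_le_left _ _) h0
      fun ℓ hℓ => (hp.ap.pos R₀ ℓ le_rfl hℓ).le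
  · have h0 : 0 ≤ 1 + min c₁ ch := by
      have := lt_min hc₁ hch
      linarith
    exact hkh.mono hR1' le_rfl (by linarith) (min_le_right _ _) h0

theorem tt_half_of {L : Lat} {κ : ℕ → ℝ} (h : Fam L κ) {x₀ : Pt}
    (hc : ∀ m : ℤ, 8 ≤ m → CoreOK (L.shift x₀) m)
    (hk : ∃ R₁ : ℤ, 16 ≤ R₁ ∧ ∀ R₀ : ℤ, R₁ ≤ R₀ → ∃ C c : ℝ, 1 ≤ C ∧ 0 < c ∧ c ≤ 1 / 2 ∧
      KBHOK L C c R₀) :
    ∃ R₁ : ℤ, 16 ≤ R₁ ∧ ∀ R₀ : ℤ, R₁ ≤ R₀ → ∃ (M : ℝ) (Λ : ℤ), 0 < M ∧ 1 ≤ Λ ∧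
      HalfOK L M Λ R₀ := by
  obtain ⟨R1, hR1, h1⟩ := tth_data h hc hk
  refine ⟨R1, hR1, fun R₀ hR₀ => ?_⟩
  obtain ⟨C, Cb, Ch, C₃, c, hP, hc', hC₃, hS, hb, hh, hCb, hCh⟩ := h1 R₀ hR₀
  exact half_of hP (hR1.trans hR₀) hc' hC₃ hS hb hh hCb hCh

theorem tt_quart_of {L : Lat} {κ : ℕ → ℝ} (h : Fam L κ) {x₀ : Pt}
    (hc : ∀ m : ℤ, 8 ≤ m → CoreOK (L.shift x₀) m)
    (hk : ∃ R₁ : ℤ, 16 ≤ R₁ ∧ ∀ R₀ : ℤ, R₁ ≤ R₀ → ∃ C c : ℝ, 1 ≤ C ∧ 0 < c ∧ c ≤ 1 / 2 ∧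
      KBHOK L C c R₀) :
    ∃ R₁ : ℤ, 16 ≤ R₁ ∧ ∀ R₀ : ℤ, R₁ ≤ R₀ → ∃ (M : ℝ) (Λ : ℤ), 0 < M ∧ 1 ≤ Λ ∧
      QuartOK L M Λ R₀ := by
  obtain ⟨R1, hR1, h1⟩ := tth_data h hc hk
  refine ⟨R1, hR1, fun R₀ hR₀ => ?_⟩
  obtain ⟨C, Cb, Ch, C₃, c, hP, hc', hC₃, hS, hb, hh, hCb, hCh⟩ := h1 R₀ hR₀
  exact quart_of hP (hR1.trans hR₀) hc' hC₃ hS hb hh hCb hCh

end SC

end

/-! ### from `Lib_MP_e0a489.TTH9` -/

section

/-!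
# MP_e0a489, module TTH (9f): two-time bound beyond the correlation length, half plane
-/

set_option autoImplicit false

namespace SC

variable [IfL] [IfX]

open Classical

/-- `kbh` with `1 ≤ C` -/
theorem kbh_one {L : Lat} {κ : ℕ → ℝ} (h : Fam L κ) {x₀ : Pt}
    (hc : ∀ m : ℤ, 8 ≤ m → CoreOK (L.shift x₀) m) :
    ∃ R₁ : ℤ, 16 ≤ R₁ ∧ ∀ R₀ : ℤ, R₁ ≤ R₀ → ∃ C c : ℝ, 1 ≤ C ∧ 0 < c ∧ c ≤ 1 / 2 ∧
      KBHOK L C c R₀ := by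
  obtain ⟨R₁, hR₁, h1⟩ := kbh h hc
  refine ⟨R₁, hR₁, fun R₀ hR₀ => ?_⟩
  obtain ⟨C, c, hC, hc0, hc1, hk⟩ := h1 R₀ hR₀
  exact ⟨max C 1, c, le_max_right _ _, hc0, hc1,
    hk.mono (by omega) (le_max_left _ _) hC.le le_rfl (by linarith)⟩

theorem tt_half {L : Lat} {κ : ℕ → ℝ} (h : Fam L κ) {x₀ : Pt}
    (hc : ∀ m : ℤ, 8 ≤ m → CoreOK (L.shift x₀) m) :
    ∃ R₁ : ℤ, 16 ≤ R₁ ∧ ∀ R₀ : ℤ, R₁ ≤ R₀ → ∃ (M : ℝ) (Λ : ℤ), 0 < M ∧ 1 ≤ Λ ∧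
      HalfOK L M Λ R₀ :=
  tt_half_of h hc (kbh_one h hc)

end SC

end

/-! ### from `Lib_MP_e0a489.TTQ9` -/

section

/-!
# MP_e0a489, module TTQ (9g): two-time bound beyond the correlation length, corner
-/

set_option autoImplicit false

namespace SC

variable [IfL] [IfX]

open Classical

theorem tt_quart {L : Lat} {κ : ℕ → ℝ} (h : Fam L κ) {x₀ : Pt}
    (hc : ∀ m : ℤ, 8 ≤ m → CoreOK (L.shift x₀) m) :
    ∃ R₁ : ℤ, 16 ≤ R₁ ∧ ∀ R₀ : ℤ, R₁ ≤ R₀ → ∃ (M : ℝ) (Λ : ℤ), 0 < M ∧ 1 ≤ Λ ∧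
      QuartOK L M Λ R₀ :=
  tt_quart_of h hc (kbh_one h hc)

end SC

end

/-! ### from `Lib_MP_e0a489.TT9` -/

section

/-!
# MP_e0a489, module TT: two-time bounds beyond the correlation length (interface)
-/

set_option autoImplicit false

namespace SC

variable [IfL] [IfX]

open Classical

/-- maximum of the constants of the three theorems -/
theorem two_time_pf {L : Lat} {κ : ℕ → ℝ} (h : Fam L κ) {x₀ : Pt}
    (hc : ∀ m : ℤ, 8 ≤ m → CoreOK (L.shift x₀) m) (R₁ : ℤ) :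
    ∃ (M : ℝ) (Λ R₀ : ℤ), 0 < M ∧ 1 ≤ Λ ∧ 16 ≤ R₀ ∧ R₁ ≤ R₀ ∧ TTProps L M Λ R₀ := by
  obtain ⟨r1, hr1, h1⟩ := tt_bulk h hc
  obtain ⟨r2, hr2, h2⟩ := tt_half h hc
  obtain ⟨r3, hr3, h3⟩ := tt_quart h hc
  have e1 : r1 ≤ max (max r1 r2) (max r3 R₁) := (le_max_left _ _).trans (le_max_left _ _)
  have e2 : r2 ≤ max (max r1 r2) (max r3 R₁) := (le_max_right _ _).trans (le_max_left _ _)
  have e3 : r3 ≤ max (max r1 r2) (max r3 R₁) := (le_max_left _ _).trans (le_max_right _ _)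
  have e4 : R₁ ≤ max (max r1 r2) (max r3 R₁) := (le_max_right _ _).trans (le_max_right _ _)
  generalize max (max r1 r2) (max r3 R₁) = R₀ at e1 e2 e3 e4
  obtain ⟨M1, Λ1, hM1, hΛ1, k1⟩ := h1 R₀ e1
  obtain ⟨M2, Λ2, hM2, hΛ2, k2⟩ := h2 R₀ e2
  obtain ⟨M3, Λ3, hM3, hΛ3, k3⟩ := h3 R₀ e3
  have m1 : M1 ≤ max M1 (max M2 M3) := le_max_left _ _
  have m2 : M2 ≤ max M1 (max M2 M3) := (le_max_left _ _).trans (le_max_right _ _)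
  have m3 : M3 ≤ max M1 (max M2 M3) := (le_max_right _ _).trans (le_max_right _ _)
  have l1 : Λ1 ≤ max Λ1 (max Λ2 Λ3) := le_max_left _ _
  have l2 : Λ2 ≤ max Λ1 (max Λ2 Λ3) := (le_max_left _ _).trans (le_max_right _ _)
  have l3 : Λ3 ≤ max Λ1 (max Λ2 Λ3) := (le_max_right _ _).trans (le_max_right _ _)
  generalize max M1 (max M2 M3) = M at m1 m2 m3
  generalize max Λ1 (max Λ2 Λ3) = Λ at l1 l2 l3
  have ha : ∀ r R : ℤ, 0 ≤ al L r R := by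
    intro r R
    unfold al
    split_ifs
    · exact pr_nonneg _
    · exact zero_le_one
  have hl : ∀ {Λ' ℓ r : ℤ}, Λ' ≤ Λ → R₀ ≤ ℓ → Λ * ℓ ≤ r → Λ' * ℓ ≤ r := by
    intro Λ' ℓ r a b c
    have : 0 ≤ ℓ := by linarith
    nlinarith
  refine ⟨M, Λ, R₀, by linarith, by linarith, by linarith, e4, ⟨?_, ?_, ?_⟩⟩
  · intro ℓ t hℓ hb c x r R hr hrR
    exact (k1 ℓ t hℓ hb c x r R (hl l1 hℓ hr) hrR).trans
      (mul_le_mul_of_nonneg_right m1 (sq_nonneg _))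
  · intro ℓ t hℓ hb s c x H r R hH hr hrR
    exact (k2 ℓ t hℓ hb s c x H r R hH (hl l2 hℓ hr) hrR).trans
      (mul_le_mul_of_nonneg_right m2 (Real.rpow_nonneg (ha r R) _))
  · intro ℓ t hℓ hb s x H r R hH hr hrR
    exact (k3 ℓ t hℓ hb s x H r R hH (hl l3 hℓ hr) hrR).trans
      (mul_le_mul_of_nonneg_right m3 (ha r R))

end SC

end

/-! ### from `Lib_MP_e0a489.IfI` -/

section

/-!
# MP_e0a489: the interfaces hold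
-/

set_option autoImplicit false

namespace SC

instance ifL : IfL := ⟨outer_land_pf, inner_land_pf, route_out_pf, route_in_pf⟩

instance ifX : IfX := ⟨al_upper_pf, al_lower_pf⟩

instance ifT : IfT := ⟨two_time_pf⟩

end SC

end

/-! ### from `Lib_MP_e0a489.TPZ9` -/

section

/-!
# MP_e0a489: Q1 for bond percolation on the square lattice
-/

set_option autoImplicit false

namespace SC

open Classical

theorem spec_z2 (R : ℤ) : ∃ R₀ : ℤ, R ≤ R₀ ∧ SpecBox Z2 R₀ := by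
  obtain ⟨κ, hκ⟩ := z2_fam
  obtain ⟨R₀, -, h1, h2⟩ := spectral_box hκ (x₀ := (1, 0)) (fun m hm => z2_core hm) R
  exact ⟨R₀, h1, h2⟩

theorem q1z2 : SCTop.Q1Z2 := by
  obtain ⟨κ, hκ⟩ := z2_fam
  obtain ⟨C₁, R₁, hal⟩ := al_props κ
  exact tp_main hκ (x₀ := (1, 0)) (i := 1) (by decide) le_rfl (fun m hm => z2_core hm) spec_z2
    (beta_z2 (hal Z2 hκ).mono) (model_z2 hκ.rsw)

end SC

end

/-! ### from `Lib_MP_e0a489.TPT9` -/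

section

/-!
# MP_e0a489: Q1 for site percolation on the triangular lattice
-/

set_option autoImplicit false

namespace SC

open Classical

theorem spec_tl (R : ℤ) : ∃ R₀ : ℤ, R ≤ R₀ ∧ SpecBox TL R₀ := by
  obtain ⟨κ, hκ⟩ := tl_fam
  obtain ⟨R₀, -, h1, h2⟩ := spectral_box hκ (x₀ := 0) (fun m hm => tl_core 0 hm) R
  exact ⟨R₀, h1, h2⟩

theorem q1t : SCTop.Q1T := by
  obtain ⟨κ, hκ⟩ := tl_fam
  obtain ⟨p, hp⟩ := model_tl hκ.rsw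
  exact tp_main hκ (x₀ := 0) (i := 0) (by decide) (by norm_num) (fun m hm => tl_core 0 hm) spec_tl
    beta_tl hp

end SC

end
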